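import Pool.Agent.Lib.MP_2b7a4a_coL.Dist

namespace APL.P18

open APL.RA renaming leaf → L, node → N
open APL renaming dec → E

noncomputable section

set_option maxRecDepth 100000

def pt0 : RA := N (nat_lit 34) (N (nat_lit 17) (N (nat_lit 9) (N (nat_lit 5) (N (nat_lit 3) (N (nat_lit 2) (N (nat_lit 1) (L (nat_lit 288234774265332736)) (L (nat_lit 288234774265463808))) (L (nat_lit 288234774265070594))) (N (nat_lit 4) (L (nat_lit 287108887243392000)) (L (nat_lit 287390353629971457)))) (N (nat_lit 7) (N (nat_lit 6) (L (nat_lit 287390353630036993)) (L (nat_lit 287390353630102531))) (N (nat_lit 8) (L (nat_lit 287390353630168064)) (L (nat_lit 287390357925004289))))) (N (nat_lit 13) (N (nat_lit 11) (N (nat_lit 10) (L (nat_lit 287390357925069827)) (L (nat_lit 287390357925135358))) (N (nat_lit 12) (L (nat_lit 287390357925135360)) (L (nat_lit 287390357925266431)))) (N (nat_lit 15) (N (nat_lit 14) (L (nat_lit 287671820016813061))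 (L (nat_lit 287671824311780352))) (N (nat_lit 16) (L (nat_lit 287671824311780354)) (L (nat_lit 287671824311911423)))))) (N (nat_lit 26) (N (nat_lit 22) (N (nat_lit 20) (N (nat_lit 19) (N (nat_lit 18) (L (nat_lit 287671828606682113)) (L (nat_lit 287671828606747649))) (L (nat_lit 287671828606813181))) (N (nat_lit 21) (L (nat_lit 287671828606813187)) (L (nat_lit 287671828606878718)))) (N (nat_lit 24) (N (nat_lit 23) (L (nat_lit 287671828606878720)) (L (nat_lit 287671828606878724))) (N (nat_lit 25) (L (nat_lit 287671828607009791)) (L (nat_lit 287671832901649408))))) (N (nat_lit 30) (N (nat_lit 28) (N (nat_lit 27) (L (nat_lit 287671832901649409)) (L (nat_lit 287671832901714946))) (N (nat_lit 29) (L (nat_lit 287671832901714947)) (L (nat_lit 287671832901780479)))) (N (nat_lit 32) (N (nat_lit 31) (L (nat_lit 287671832901780480)) (L (nat_lit 287671832901780481))) (N (nat_lit 33) (L (nat_lit 287671832901846014)) (L (nat_lit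 287671832901846015))))))) (N (nat_lit 51) (N (nat_lit 43) (N (nat_lit 39) (N (nat_lit 37) (N (nat_lit 36) (N (nat_lit 35) (L (nat_lit 287671832901846018)) (L (nat_lit 287671832901846019))) (L (nat_lit 287671832901911552))) (N (nat_lit 38) (L (nat_lit 287671832901911553)) (L (nat_lit 287671832901911555)))) (N (nat_lit 41) (N (nat_lit 40) (L (nat_lit 287671832901977086)) (L (nat_lit 287671832901977089))) (N (nat_lit 42) (L (nat_lit 287671837196616704)) (L (nat_lit 287671837196682242))))) (N (nat_lit 47) (N (nat_lit 45) (N (nat_lit 44) (L (nat_lit 287671837196747773)) (L (nat_lit 287671837196878846))) (N (nat_lit 46) (L (nat_lit 287671837197009918)) (L (nat_lit 287671841491715072)))) (N (nat_lit 49) (N (nat_lit 48) (L (nat_lit 287953290698621952)) (L (nat_lit 287953290698687488))) (N (nat_lit 50) (L (nat_lit 287953294993523711)) (L (nat_lit 287953294993523712)))))) (N (nat_lit 60) (N (nat_lit 56) (N (nat_lit 54)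 (N (nat_lit 53) (N (nat_lit 52) (L (nat_lit 287953294993523717)) (L (nat_lit 287953294993589248))) (L (nat_lit 287953294993720321))) (N (nat_lit 55) (L (nat_lit 287953299288425471)) (L (nat_lit 287953299288425473)))) (N (nat_lit 58) (N (nat_lit 57) (L (nat_lit 287953299288425474)) (L (nat_lit 287953299288425476))) (N (nat_lit 59) (L (nat_lit 287953299288491006)) (L (nat_lit 287953299288491007))))) (N (nat_lit 64) (N (nat_lit 62) (N (nat_lit 61) (L (nat_lit 287953299288491008)) (L (nat_lit 287953299288491009))) (N (nat_lit 63) (L (nat_lit 287953299288491010)) (L (nat_lit 287953299288491011)))) (N (nat_lit 66) (N (nat_lit 65) (L (nat_lit 287953299288491012)) (L (nat_lit 287953299288556542))) (N (nat_lit 67) (L (nat_lit 287953299288556543)) (L (nat_lit 287953299288556544)))))))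
def pt1 : RA := N (nat_lit 102) (N (nat_lit 85) (N (nat_lit 77) (N (nat_lit 73) (N (nat_lit 71) (N (nat_lit 70) (N (nat_lit 69) (L (nat_lit 287953299288556545)) (L (nat_lit 287953299288556546))) (L (nat_lit 287953299288556547))) (N (nat_lit 72) (L (nat_lit 287953299288556548)) (L (nat_lit 287953299288556549)))) (N (nat_lit 75) (N (nat_lit 74) (L (nat_lit 287953299288622078)) (L (nat_lit 287953299288622079))) (N (nat_lit 76) (L (nat_lit 287953299288622080)) (L (nat_lit 287953299288622082))))) (N (nat_lit 81) (N (nat_lit 79) (N (nat_lit 78) (L (nat_lit 287953299288622084)) (L (nat_lit 287953299288687613))) (N (nat_lit 80) (L (nat_lit 287953299288687614)) (L (nat_lit 287953299288687615)))) (N (nat_lit 83) (N (nat_lit 82) (L (nat_lit 287953299288687616)) (L (nat_lit 287953299288687617))) (N (nat_lit 84) (L (nat_lit 287953299288687618)) (L (nat_lit 287953299288687620)))))) (N (nat_lit 94) (N (nat_lit 90) (N (nat_lit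 88) (N (nat_lit 87) (N (nat_lit 86) (L (nat_lit 287953299288753149)) (L (nat_lit 287953299288753150))) (L (nat_lit 287953299288753151))) (N (nat_lit 89) (L (nat_lit 287953299288753152)) (L (nat_lit 287953299288753156)))) (N (nat_lit 92) (N (nat_lit 91) (L (nat_lit 287953299288818684)) (L (nat_lit 287953299288818686))) (N (nat_lit 93) (L (nat_lit 287953299288818687)) (L (nat_lit 287953299288818688))))) (N (nat_lit 98) (N (nat_lit 96) (N (nat_lit 95) (L (nat_lit 287953299288884222)) (L (nat_lit 287953299288884224))) (N (nat_lit 97) (L (nat_lit 287953303583327235)) (L (nat_lit 287953303583327236)))) (N (nat_lit 100) (N (nat_lit 99) (L (nat_lit 287953303583392768)) (L (nat_lit 287953303583392769))) (N (nat_lit 101) (L (nat_lit 287953303583392770)) (L (nat_lit 287953303583392772))))))) (N (nat_lit 119) (N (nat_lit 111) (N (nat_lit 107) (N (nat_lit 105) (N (nat_lit 104) (N (nat_lit 103) (L (nat_lit 287953303583458302))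 (L (nat_lit 287953303583458303))) (L (nat_lit 287953303583458304))) (N (nat_lit 106) (L (nat_lit 287953303583458305)) (L (nat_lit 287953303583458306)))) (N (nat_lit 109) (N (nat_lit 108) (L (nat_lit 287953303583458307)) (L (nat_lit 287953303583458308))) (N (nat_lit 110) (L (nat_lit 287953303583523837)) (L (nat_lit 287953303583523838))))) (N (nat_lit 115) (N (nat_lit 113) (N (nat_lit 112) (L (nat_lit 287953303583523839)) (L (nat_lit 287953303583523840))) (N (nat_lit 114) (L (nat_lit 287953303583523841)) (L (nat_lit 287953303583523843)))) (N (nat_lit 117) (N (nat_lit 116) (L (nat_lit 287953303583523844)) (L (nat_lit 287953303583589374))) (N (nat_lit 118) (L (nat_lit 287953303583589375)) (L (nat_lit 287953303583589376)))))) (N (nat_lit 128) (N (nat_lit 124) (N (nat_lit 122) (N (nat_lit 121) (N (nat_lit 120) (L (nat_lit 287953303583589378)) (L (nat_lit 287953303583589379))) (L (nat_lit 287953303583589380))) (N (nat_lit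 123) (L (nat_lit 287953303583654909)) (L (nat_lit 287953303583654910)))) (N (nat_lit 126) (N (nat_lit 125) (L (nat_lit 287953303583654912)) (L (nat_lit 287953303583654913))) (N (nat_lit 127) (L (nat_lit 287953303583654915)) (L (nat_lit 287953303583654916))))) (N (nat_lit 132) (N (nat_lit 130) (N (nat_lit 129) (L (nat_lit 287953303583720444)) (L (nat_lit 287953303583720445))) (N (nat_lit 131) (L (nat_lit 287953303583720446)) (L (nat_lit 287953303583720447)))) (N (nat_lit 134) (N (nat_lit 133) (L (nat_lit 287953303583720448)) (L (nat_lit 287953303583720449))) (N (nat_lit 135) (L (nat_lit 287953303583785979)) (L (nat_lit 287953303583785982)))))))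
def pt2 : RA := N (nat_lit 170) (N (nat_lit 153) (N (nat_lit 145) (N (nat_lit 141) (N (nat_lit 139) (N (nat_lit 138) (N (nat_lit 137) (L (nat_lit 287953303583851518)) (L (nat_lit 287953307878360064))) (L (nat_lit 287953307878425602))) (N (nat_lit 140) (L (nat_lit 287953307878491133)) (L (nat_lit 287953307878491134)))) (N (nat_lit 143) (N (nat_lit 142) (L (nat_lit 287953307878491135)) (L (nat_lit 287953307878491136))) (N (nat_lit 144) (L (nat_lit 287953307878491137)) (L (nat_lit 287953307878491138))))) (N (nat_lit 149) (N (nat_lit 147) (N (nat_lit 146) (L (nat_lit 287953307878491139)) (L (nat_lit 287953307878622206))) (N (nat_lit 148) (L (nat_lit 287953307878622209)) (L (nat_lit 287953307878753278)))) (N (nat_lit 151) (N (nat_lit 150) (L (nat_lit 287953312173261823)) (L (nat_lit 287953312173327362))) (N (nat_lit 152) (L (nat_lit 287953312173458430)) (L (nat_lit 287953312173458432)))))) (N (nat_lit 162) (N (nat_lit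 158) (N (nat_lit 156) (N (nat_lit 155) (N (nat_lit 154) (L (nat_lit 287953312173523968)) (L (nat_lit 287953312173523970))) (L (nat_lit 287953312173589505))) (N (nat_lit 157) (L (nat_lit 287953316468556801)) (L (nat_lit 288234761380234241)))) (N (nat_lit 160) (N (nat_lit 159) (L (nat_lit 288234761380430851)) (L (nat_lit 288234765675136001))) (N (nat_lit 161) (L (nat_lit 288234765675136003)) (L (nat_lit 288234765675201537))))) (N (nat_lit 166) (N (nat_lit 164) (N (nat_lit 163) (L (nat_lit 288234765675267072)) (L (nat_lit 288234765675398143))) (N (nat_lit 165) (L (nat_lit 288234765675398144)) (L (nat_lit 288234765675398145)))) (N (nat_lit 168) (N (nat_lit 167) (L (nat_lit 288234765675398147)) (L (nat_lit 288234765675463679))) (N (nat_lit 169) (L (nat_lit 288234769970037763)) (L (nat_lit 288234769970103297))))))) (N (nat_lit 187) (N (nat_lit 179) (N (nat_lit 175) (N (nat_lit 173) (N (nat_lit 172) (N (nat_lit 171)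 (L (nat_lit 288234769970103299)) (L (nat_lit 288234769970103300))) (L (nat_lit 288234769970103301))) (N (nat_lit 174) (L (nat_lit 288234769970168831)) (L (nat_lit 288234769970168832)))) (N (nat_lit 177) (N (nat_lit 176) (L (nat_lit 288234769970168833)) (L (nat_lit 288234769970168834))) (N (nat_lit 178) (L (nat_lit 288234769970168835)) (L (nat_lit 288234769970168836))))) (N (nat_lit 183) (N (nat_lit 181) (N (nat_lit 180) (L (nat_lit 288234769970168837)) (L (nat_lit 288234769970168838))) (N (nat_lit 182) (L (nat_lit 288234769970234366)) (L (nat_lit 288234769970234367)))) (N (nat_lit 185) (N (nat_lit 184) (L (nat_lit 288234769970234368)) (L (nat_lit 288234769970234369))) (N (nat_lit 186) (L (nat_lit 288234769970234370)) (L (nat_lit 288234769970234371)))))) (N (nat_lit 196) (N (nat_lit 192) (N (nat_lit 190) (N (nat_lit 189) (N (nat_lit 188) (L (nat_lit 288234769970234372)) (L (nat_lit 288234769970234373))) (L (nat_lit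 288234769970234374))) (N (nat_lit 191) (L (nat_lit 288234769970299902)) (L (nat_lit 288234769970299903)))) (N (nat_lit 194) (N (nat_lit 193) (L (nat_lit 288234769970299904)) (L (nat_lit 288234769970299905))) (N (nat_lit 195) (L (nat_lit 288234769970299906)) (L (nat_lit 288234769970299907))))) (N (nat_lit 200) (N (nat_lit 198) (N (nat_lit 197) (L (nat_lit 288234769970299908)) (L (nat_lit 288234769970365437))) (N (nat_lit 199) (L (nat_lit 288234769970365438)) (L (nat_lit 288234769970365439)))) (N (nat_lit 202) (N (nat_lit 201) (L (nat_lit 288234769970365440)) (L (nat_lit 288234769970365441))) (N (nat_lit 203) (L (nat_lit 288234769970365442)) (L (nat_lit 288234769970365443)))))))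
def pt3 : RA := N (nat_lit 238) (N (nat_lit 221) (N (nat_lit 213) (N (nat_lit 209) (N (nat_lit 207) (N (nat_lit 206) (N (nat_lit 205) (L (nat_lit 288234769970365444)) (L (nat_lit 288234769970430974))) (L (nat_lit 288234769970430975))) (N (nat_lit 208) (L (nat_lit 288234769970430976)) (L (nat_lit 288234769970430977)))) (N (nat_lit 211) (N (nat_lit 210) (L (nat_lit 288234769970430978)) (L (nat_lit 288234769970430979))) (N (nat_lit 212) (L (nat_lit 288234769970430980)) (L (nat_lit 288234769970496509))))) (N (nat_lit 217) (N (nat_lit 215) (N (nat_lit 214) (L (nat_lit 288234769970496510)) (L (nat_lit 288234769970496511))) (N (nat_lit 216) (L (nat_lit 288234769970496512)) (L (nat_lit 288234769970496513)))) (N (nat_lit 219) (N (nat_lit 218) (L (nat_lit 288234769970496514)) (L (nat_lit 288234769970496515))) (N (nat_lit 220) (L (nat_lit 288234769970562044)) (L (nat_lit 288234769970562045)))))) (N (nat_lit 230) (N (nat_lit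 226) (N (nat_lit 224) (N (nat_lit 223) (N (nat_lit 222) (L (nat_lit 288234769970562046)) (L (nat_lit 288234769970562047))) (L (nat_lit 288234769970562048))) (N (nat_lit 225) (L (nat_lit 288234769970562049)) (L (nat_lit 288234769970562050)))) (N (nat_lit 228) (N (nat_lit 227) (L (nat_lit 288234769970627581)) (L (nat_lit 288234769970627582))) (N (nat_lit 229) (L (nat_lit 288234769970627583)) (L (nat_lit 288234769970627584))))) (N (nat_lit 234) (N (nat_lit 232) (N (nat_lit 231) (L (nat_lit 288234769970627585)) (L (nat_lit 288234769970627586))) (N (nat_lit 233) (L (nat_lit 288234769970693117)) (L (nat_lit 288234774264939525)))) (N (nat_lit 236) (N (nat_lit 235) (L (nat_lit 288234774264939526)) (L (nat_lit 288234774265005056))) (N (nat_lit 237) (L (nat_lit 288234774265005057)) (L (nat_lit 288234774265005058))))))) (N (nat_lit 255) (N (nat_lit 247) (N (nat_lit 243) (N (nat_lit 241) (N (nat_lit 240) (N (nat_lit 239)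 (L (nat_lit 288234774265005059)) (L (nat_lit 288234774265005060))) (L (nat_lit 288234774265005061))) (N (nat_lit 242) (L (nat_lit 288234774265070593)) (L (nat_lit 288234774265070596)))) (N (nat_lit 245) (N (nat_lit 244) (L (nat_lit 288234774265070597)) (L (nat_lit 288234774265136126))) (N (nat_lit 246) (L (nat_lit 288234774265136127)) (L (nat_lit 288234774265136128))))) (N (nat_lit 251) (N (nat_lit 249) (N (nat_lit 248) (L (nat_lit 288234774265136129)) (L (nat_lit 288234774265136130))) (N (nat_lit 250) (L (nat_lit 288234774265136131)) (L (nat_lit 288234774265136132)))) (N (nat_lit 253) (N (nat_lit 252) (L (nat_lit 288234774265136133)) (L (nat_lit 288234774265201663))) (N (nat_lit 254) (L (nat_lit 288234774265201665)) (L (nat_lit 288234774265201666)))))) (N (nat_lit 264) (N (nat_lit 260) (N (nat_lit 258) (N (nat_lit 257) (N (nat_lit 256) (L (nat_lit 288234774265201667)) (L (nat_lit 288234774265201669))) (L (nat_lit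 288234774265267197))) (N (nat_lit 259) (L (nat_lit 288234774265267198)) (L (nat_lit 288234774265267199)))) (N (nat_lit 262) (N (nat_lit 261) (L (nat_lit 288234774265267200)) (L (nat_lit 288234774265267201))) (N (nat_lit 263) (L (nat_lit 288234774265267202)) (L (nat_lit 288234774265267203))))) (N (nat_lit 268) (N (nat_lit 266) (N (nat_lit 265) (L (nat_lit 288234774265267205)) (L (nat_lit 288234774265332734))) (N (nat_lit 267) (L (nat_lit 288234774265332735)) (L (nat_lit 288234774265332737)))) (N (nat_lit 270) (N (nat_lit 269) (L (nat_lit 288234774265332738)) (L (nat_lit 288234774265332739))) (N (nat_lit 271) (L (nat_lit 288234774265332740)) (L (nat_lit 288234774265398268)))))))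
def pt4 : RA := N (nat_lit 306) (N (nat_lit 289) (N (nat_lit 281) (N (nat_lit 277) (N (nat_lit 275) (N (nat_lit 274) (N (nat_lit 273) (L (nat_lit 288234774265398270)) (L (nat_lit 288234774265398271))) (L (nat_lit 288234774265398272))) (N (nat_lit 276) (L (nat_lit 288234774265398273)) (L (nat_lit 288234774265398274)))) (N (nat_lit 279) (N (nat_lit 278) (L (nat_lit 288234774265398275)) (L (nat_lit 288234774265398276))) (N (nat_lit 280) (L (nat_lit 288234774265463804)) (L (nat_lit 288234774265463806))))) (N (nat_lit 285) (N (nat_lit 283) (N (nat_lit 282) (L (nat_lit 288234774265463807)) (L (nat_lit 288234774265463809))) (N (nat_lit 284) (L (nat_lit 288234774265463810)) (L (nat_lit 288234774265529340)))) (N (nat_lit 287) (N (nat_lit 286) (L (nat_lit 288234774265529342)) (L (nat_lit 288234774265529343))) (N (nat_lit 288) (L (nat_lit 288234774265529345)) (L (nat_lit 288234774265594876)))))) (N (nat_lit 298) (N (nat_lit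 294) (N (nat_lit 292) (N (nat_lit 291) (N (nat_lit 290) (L (nat_lit 288234774265594879)) (L (nat_lit 288234774265594880))) (L (nat_lit 288234774265594881))) (N (nat_lit 293) (L (nat_lit 288234774265660412)) (L (nat_lit 288234774265660413)))) (N (nat_lit 296) (N (nat_lit 295) (L (nat_lit 288234774265660414)) (L (nat_lit 288234774265660415))) (N (nat_lit 297) (L (nat_lit 288234774265660416)) (L (nat_lit 288234774265660417))))) (N (nat_lit 302) (N (nat_lit 300) (N (nat_lit 299) (L (nat_lit 288234774265725948)) (L (nat_lit 288234778559906820))) (N (nat_lit 301) (L (nat_lit 288234778559972352)) (L (nat_lit 288234778559972353)))) (N (nat_lit 304) (N (nat_lit 303) (L (nat_lit 288234778559972354)) (L (nat_lit 288234778559972355))) (N (nat_lit 305) (L (nat_lit 288234778559972356)) (L (nat_lit 288234778559972357))))))) (N (nat_lit 323) (N (nat_lit 315) (N (nat_lit 311) (N (nat_lit 309) (N (nat_lit 308) (N (nat_lit 307)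 (L (nat_lit 288234778560037886)) (L (nat_lit 288234778560037889))) (L (nat_lit 288234778560037890))) (N (nat_lit 310) (L (nat_lit 288234778560037891)) (L (nat_lit 288234778560037892)))) (N (nat_lit 313) (N (nat_lit 312) (L (nat_lit 288234778560037893)) (L (nat_lit 288234778560103421))) (N (nat_lit 314) (L (nat_lit 288234778560103422)) (L (nat_lit 288234778560103423))))) (N (nat_lit 319) (N (nat_lit 317) (N (nat_lit 316) (L (nat_lit 288234778560103424)) (L (nat_lit 288234778560103425))) (N (nat_lit 318) (L (nat_lit 288234778560103426)) (L (nat_lit 288234778560103427)))) (N (nat_lit 321) (N (nat_lit 320) (L (nat_lit 288234778560103428)) (L (nat_lit 288234778560103429))) (N (nat_lit 322) (L (nat_lit 288234778560168956)) (L (nat_lit 288234778560168957)))))) (N (nat_lit 332) (N (nat_lit 328) (N (nat_lit 326) (N (nat_lit 325) (N (nat_lit 324) (L (nat_lit 288234778560168958)) (L (nat_lit 288234778560168959))) (L (nat_lit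 288234778560168960))) (N (nat_lit 327) (L (nat_lit 288234778560168961)) (L (nat_lit 288234778560168962)))) (N (nat_lit 330) (N (nat_lit 329) (L (nat_lit 288234778560168963)) (L (nat_lit 288234778560168964))) (N (nat_lit 331) (L (nat_lit 288234778560234492)) (L (nat_lit 288234778560234493))))) (N (nat_lit 336) (N (nat_lit 334) (N (nat_lit 333) (L (nat_lit 288234778560234494)) (L (nat_lit 288234778560234495))) (N (nat_lit 335) (L (nat_lit 288234778560234496)) (L (nat_lit 288234778560234497)))) (N (nat_lit 338) (N (nat_lit 337) (L (nat_lit 288234778560234498)) (L (nat_lit 288234778560234499))) (N (nat_lit 339) (L (nat_lit 288234778560234500)) (L (nat_lit 288234778560300028)))))))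
def pt5 : RA := N (nat_lit 374) (N (nat_lit 357) (N (nat_lit 349) (N (nat_lit 345) (N (nat_lit 343) (N (nat_lit 342) (N (nat_lit 341) (L (nat_lit 288234778560300029)) (L (nat_lit 288234778560300030))) (L (nat_lit 288234778560300031))) (N (nat_lit 344) (L (nat_lit 288234778560300032)) (L (nat_lit 288234778560300033)))) (N (nat_lit 347) (N (nat_lit 346) (L (nat_lit 288234778560300034)) (L (nat_lit 288234778560300035))) (N (nat_lit 348) (L (nat_lit 288234778560300036)) (L (nat_lit 288234778560365564))))) (N (nat_lit 353) (N (nat_lit 351) (N (nat_lit 350) (L (nat_lit 288234778560365565)) (L (nat_lit 288234778560365566))) (N (nat_lit 352) (L (nat_lit 288234778560365567)) (L (nat_lit 288234778560365568)))) (N (nat_lit 355) (N (nat_lit 354) (L (nat_lit 288234778560365569)) (L (nat_lit 288234778560365570))) (N (nat_lit 356) (L (nat_lit 288234778560365571)) (L (nat_lit 288234778560365572)))))) (N (nat_lit 366) (N (nat_lit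 362) (N (nat_lit 360) (N (nat_lit 359) (N (nat_lit 358) (L (nat_lit 288234778560431099)) (L (nat_lit 288234778560431100))) (L (nat_lit 288234778560431101))) (N (nat_lit 361) (L (nat_lit 288234778560431102)) (L (nat_lit 288234778560431103)))) (N (nat_lit 364) (N (nat_lit 363) (L (nat_lit 288234778560431104)) (L (nat_lit 288234778560431105))) (N (nat_lit 365) (L (nat_lit 288234778560431106)) (L (nat_lit 288234778560431107))))) (N (nat_lit 370) (N (nat_lit 368) (N (nat_lit 367) (L (nat_lit 288234778560496635)) (L (nat_lit 288234778560496636))) (N (nat_lit 369) (L (nat_lit 288234778560496637)) (L (nat_lit 288234778560496638)))) (N (nat_lit 372) (N (nat_lit 371) (L (nat_lit 288234778560496639)) (L (nat_lit 288234778560496640))) (N (nat_lit 373) (L (nat_lit 288234778560496641)) (L (nat_lit 288234778560496642))))))) (N (nat_lit 391) (N (nat_lit 383) (N (nat_lit 379) (N (nat_lit 377) (N (nat_lit 376) (N (nat_lit 375)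 (L (nat_lit 288234778560562172)) (L (nat_lit 288234778560562173))) (L (nat_lit 288234778560562174))) (N (nat_lit 378) (L (nat_lit 288234778560562175)) (L (nat_lit 288234778560562176)))) (N (nat_lit 381) (N (nat_lit 380) (L (nat_lit 288234778560562177)) (L (nat_lit 288234778560627709))) (N (nat_lit 382) (L (nat_lit 288234782855005183)) (L (nat_lit 288234782855005185))))) (N (nat_lit 387) (N (nat_lit 385) (N (nat_lit 384) (L (nat_lit 288234782855070721)) (L (nat_lit 288234782855070722))) (N (nat_lit 386) (L (nat_lit 288234782855136256)) (L (nat_lit 288234782855201790)))) (N (nat_lit 389) (N (nat_lit 388) (L (nat_lit 288234782855201792)) (L (nat_lit 288234782855267327))) (N (nat_lit 390) (L (nat_lit 288234782855267328)) (L (nat_lit 288234782855267329)))))) (N (nat_lit 400) (N (nat_lit 396) (N (nat_lit 394) (N (nat_lit 393) (N (nat_lit 392) (L (nat_lit 288234782855267330)) (L (nat_lit 288234782855267331))) (L (nat_lit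 288234782855332863))) (N (nat_lit 395) (L (nat_lit 288234787149972481)) (L (nat_lit 288234787150234623)))) (N (nat_lit 398) (N (nat_lit 397) (L (nat_lit 288234787150234625)) (L (nat_lit 288234787150300159))) (N (nat_lit 399) (L (nat_lit 288516232061977601)) (L (nat_lit 288516232062108675))))) (N (nat_lit 404) (N (nat_lit 402) (N (nat_lit 401) (L (nat_lit 288516236356944897)) (L (nat_lit 288516236356944900))) (N (nat_lit 403) (L (nat_lit 288516236357010431)) (L (nat_lit 288516236357010432)))) (N (nat_lit 406) (N (nat_lit 405) (L (nat_lit 288516236357010433)) (L (nat_lit 288516236357075971))) (N (nat_lit 407) (L (nat_lit 288516236357141504)) (L (nat_lit 288516236357207042)))))))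
def pt6 : RA := N (nat_lit 442) (N (nat_lit 425) (N (nat_lit 417) (N (nat_lit 413) (N (nat_lit 411) (N (nat_lit 410) (N (nat_lit 409) (L (nat_lit 288516236357338111)) (L (nat_lit 288516240651715588))) (L (nat_lit 288516240651781123))) (N (nat_lit 412) (L (nat_lit 288516240651781124)) (L (nat_lit 288516240651846657)))) (N (nat_lit 415) (N (nat_lit 414) (L (nat_lit 288516240651846658)) (L (nat_lit 288516240651846659))) (N (nat_lit 416) (L (nat_lit 288516240651846660)) (L (nat_lit 288516240651846661))))) (N (nat_lit 421) (N (nat_lit 419) (N (nat_lit 418) (L (nat_lit 288516240651846662)) (L (nat_lit 288516240651912191))) (N (nat_lit 420) (L (nat_lit 288516240651912192)) (L (nat_lit 288516240651912193)))) (N (nat_lit 423) (N (nat_lit 422) (L (nat_lit 288516240651912194)) (L (nat_lit 288516240651912195))) (N (nat_lit 424) (L (nat_lit 288516240651912196)) (L (nat_lit 288516240651912197)))))) (N (nat_lit 434) (N (nat_lit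 430) (N (nat_lit 428) (N (nat_lit 427) (N (nat_lit 426) (L (nat_lit 288516240651912198)) (L (nat_lit 288516240651977727))) (L (nat_lit 288516240651977728))) (N (nat_lit 429) (L (nat_lit 288516240651977729)) (L (nat_lit 288516240651977730)))) (N (nat_lit 432) (N (nat_lit 431) (L (nat_lit 288516240651977731)) (L (nat_lit 288516240651977732))) (N (nat_lit 433) (L (nat_lit 288516240651977733)) (L (nat_lit 288516240652043262))))) (N (nat_lit 438) (N (nat_lit 436) (N (nat_lit 435) (L (nat_lit 288516240652043263)) (L (nat_lit 288516240652043264))) (N (nat_lit 437) (L (nat_lit 288516240652043265)) (L (nat_lit 288516240652043266)))) (N (nat_lit 440) (N (nat_lit 439) (L (nat_lit 288516240652043267)) (L (nat_lit 288516240652043268))) (N (nat_lit 441) (L (nat_lit 288516240652043269)) (L (nat_lit 288516240652108797))))))) (N (nat_lit 459) (N (nat_lit 451) (N (nat_lit 447) (N (nat_lit 445) (N (nat_lit 444) (N (nat_lit 443)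 (L (nat_lit 288516240652108798)) (L (nat_lit 288516240652108799))) (L (nat_lit 288516240652108800))) (N (nat_lit 446) (L (nat_lit 288516240652108801)) (L (nat_lit 288516240652108802)))) (N (nat_lit 449) (N (nat_lit 448) (L (nat_lit 288516240652108803)) (L (nat_lit 288516240652108804))) (N (nat_lit 450) (L (nat_lit 288516240652108805)) (L (nat_lit 288516240652174333))))) (N (nat_lit 455) (N (nat_lit 453) (N (nat_lit 452) (L (nat_lit 288516240652174334)) (L (nat_lit 288516240652174335))) (N (nat_lit 454) (L (nat_lit 288516240652174336)) (L (nat_lit 288516240652174337)))) (N (nat_lit 457) (N (nat_lit 456) (L (nat_lit 288516240652174338)) (L (nat_lit 288516240652174339))) (N (nat_lit 458) (L (nat_lit 288516240652174340)) (L (nat_lit 288516240652174341)))))) (N (nat_lit 468) (N (nat_lit 464) (N (nat_lit 462) (N (nat_lit 461) (N (nat_lit 460) (L (nat_lit 288516240652239869)) (L (nat_lit 288516240652239870))) (L (nat_lit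 288516240652239871))) (N (nat_lit 463) (L (nat_lit 288516240652239872)) (L (nat_lit 288516240652239873)))) (N (nat_lit 466) (N (nat_lit 465) (L (nat_lit 288516240652239874)) (L (nat_lit 288516240652239875))) (N (nat_lit 467) (L (nat_lit 288516240652305407)) (L (nat_lit 288516240652305408))))) (N (nat_lit 472) (N (nat_lit 470) (N (nat_lit 469) (L (nat_lit 288516240652370944)) (L (nat_lit 288516244946682883))) (N (nat_lit 471) (L (nat_lit 288516244946682884)) (L (nat_lit 288516244946682885)))) (N (nat_lit 474) (N (nat_lit 473) (L (nat_lit 288516244946682886)) (L (nat_lit 288516244946682887))) (N (nat_lit 475) (L (nat_lit 288516244946748416)) (L (nat_lit 288516244946748417)))))))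
def pt7 : RA := N (nat_lit 510) (N (nat_lit 493) (N (nat_lit 485) (N (nat_lit 481) (N (nat_lit 479) (N (nat_lit 478) (N (nat_lit 477) (L (nat_lit 288516244946748418)) (L (nat_lit 288516244946748419))) (L (nat_lit 288516244946748420))) (N (nat_lit 480) (L (nat_lit 288516244946748421)) (L (nat_lit 288516244946748422)))) (N (nat_lit 483) (N (nat_lit 482) (L (nat_lit 288516244946813951)) (L (nat_lit 288516244946813952))) (N (nat_lit 484) (L (nat_lit 288516244946813953)) (L (nat_lit 288516244946813954))))) (N (nat_lit 489) (N (nat_lit 487) (N (nat_lit 486) (L (nat_lit 288516244946813955)) (L (nat_lit 288516244946813956))) (N (nat_lit 488) (L (nat_lit 288516244946813957)) (L (nat_lit 288516244946813958)))) (N (nat_lit 491) (N (nat_lit 490) (L (nat_lit 288516244946813959)) (L (nat_lit 288516244946879485))) (N (nat_lit 492) (L (nat_lit 288516244946879486)) (L (nat_lit 288516244946879487)))))) (N (nat_lit 502) (N (nat_lit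 498) (N (nat_lit 496) (N (nat_lit 495) (N (nat_lit 494) (L (nat_lit 288516244946879488)) (L (nat_lit 288516244946879489))) (L (nat_lit 288516244946879490))) (N (nat_lit 497) (L (nat_lit 288516244946879491)) (L (nat_lit 288516244946879492)))) (N (nat_lit 500) (N (nat_lit 499) (L (nat_lit 288516244946879493)) (L (nat_lit 288516244946879494))) (N (nat_lit 501) (L (nat_lit 288516244946879495)) (L (nat_lit 288516244946945021))))) (N (nat_lit 506) (N (nat_lit 504) (N (nat_lit 503) (L (nat_lit 288516244946945022)) (L (nat_lit 288516244946945023))) (N (nat_lit 505) (L (nat_lit 288516244946945024)) (L (nat_lit 288516244946945025)))) (N (nat_lit 508) (N (nat_lit 507) (L (nat_lit 288516244946945026)) (L (nat_lit 288516244946945027))) (N (nat_lit 509) (L (nat_lit 288516244946945028)) (L (nat_lit 288516244946945029))))))) (N (nat_lit 527) (N (nat_lit 519) (N (nat_lit 515) (N (nat_lit 513) (N (nat_lit 512) (N (nat_lit 511)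 (L (nat_lit 288516244946945030)) (L (nat_lit 288516244947010556))) (L (nat_lit 288516244947010557))) (N (nat_lit 514) (L (nat_lit 288516244947010558)) (L (nat_lit 288516244947010559)))) (N (nat_lit 517) (N (nat_lit 516) (L (nat_lit 288516244947010560)) (L (nat_lit 288516244947010561))) (N (nat_lit 518) (L (nat_lit 288516244947010562)) (L (nat_lit 288516244947010563))))) (N (nat_lit 523) (N (nat_lit 521) (N (nat_lit 520) (L (nat_lit 288516244947010564)) (L (nat_lit 288516244947010565))) (N (nat_lit 522) (L (nat_lit 288516244947010566)) (L (nat_lit 288516244947076093)))) (N (nat_lit 525) (N (nat_lit 524) (L (nat_lit 288516244947076094)) (L (nat_lit 288516244947076095))) (N (nat_lit 526) (L (nat_lit 288516244947076096)) (L (nat_lit 288516244947076097)))))) (N (nat_lit 535) (N (nat_lit 531) (N (nat_lit 529) (N (nat_lit 528) (L (nat_lit 288516244947076098)) (L (nat_lit 288516244947076099))) (N (nat_lit 530) (L (nat_lit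 288516244947076100)) (L (nat_lit 288516244947076101)))) (N (nat_lit 533) (N (nat_lit 532) (L (nat_lit 288516244947141628)) (L (nat_lit 288516244947141629))) (N (nat_lit 534) (L (nat_lit 288516244947141630)) (L (nat_lit 288516244947141631))))) (N (nat_lit 539) (N (nat_lit 537) (N (nat_lit 536) (L (nat_lit 288516244947141632)) (L (nat_lit 288516244947141633))) (N (nat_lit 538) (L (nat_lit 288516244947141634)) (L (nat_lit 288516244947141635)))) (N (nat_lit 541) (N (nat_lit 540) (L (nat_lit 288516244947141636)) (L (nat_lit 288516244947207163))) (N (nat_lit 542) (L (nat_lit 288516244947207164)) (L (nat_lit 288516244947207165)))))))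
def pt8 : RA := N (nat_lit 577) (N (nat_lit 560) (N (nat_lit 552) (N (nat_lit 548) (N (nat_lit 546) (N (nat_lit 545) (N (nat_lit 544) (L (nat_lit 288516244947207166)) (L (nat_lit 288516244947207167))) (L (nat_lit 288516244947207168))) (N (nat_lit 547) (L (nat_lit 288516244947207169)) (L (nat_lit 288516244947207170)))) (N (nat_lit 550) (N (nat_lit 549) (L (nat_lit 288516244947207171)) (L (nat_lit 288516244947207172))) (N (nat_lit 551) (L (nat_lit 288516244947272699)) (L (nat_lit 288516244947272700))))) (N (nat_lit 556) (N (nat_lit 554) (N (nat_lit 553) (L (nat_lit 288516244947272701)) (L (nat_lit 288516244947272702))) (N (nat_lit 555) (L (nat_lit 288516244947272703)) (L (nat_lit 288516244947272704)))) (N (nat_lit 558) (N (nat_lit 557) (L (nat_lit 288516244947272705)) (L (nat_lit 288516244947272706))) (N (nat_lit 559) (L (nat_lit 288516244947338237)) (L (nat_lit 288516244947338238)))))) (N (nat_lit 569) (N (nat_lit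 565) (N (nat_lit 563) (N (nat_lit 562) (N (nat_lit 561) (L (nat_lit 288516244947338239)) (L (nat_lit 288516244947338240))) (L (nat_lit 288516244947338241))) (N (nat_lit 564) (L (nat_lit 288516244947403774)) (L (nat_lit 288516249241584644)))) (N (nat_lit 567) (N (nat_lit 566) (L (nat_lit 288516249241584646)) (L (nat_lit 288516249241650177))) (N (nat_lit 568) (L (nat_lit 288516249241650178)) (L (nat_lit 288516249241650179))))) (N (nat_lit 573) (N (nat_lit 571) (N (nat_lit 570) (L (nat_lit 288516249241650180)) (L (nat_lit 288516249241650181))) (N (nat_lit 572) (L (nat_lit 288516249241650182)) (L (nat_lit 288516249241715711)))) (N (nat_lit 575) (N (nat_lit 574) (L (nat_lit 288516249241715712)) (L (nat_lit 288516249241715713))) (N (nat_lit 576) (L (nat_lit 288516249241715714)) (L (nat_lit 288516249241715715))))))) (N (nat_lit 594) (N (nat_lit 586) (N (nat_lit 582) (N (nat_lit 580) (N (nat_lit 579) (N (nat_lit 578)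 (L (nat_lit 288516249241715716)) (L (nat_lit 288516249241715717))) (L (nat_lit 288516249241715718))) (N (nat_lit 581) (L (nat_lit 288516249241781246)) (L (nat_lit 288516249241781247)))) (N (nat_lit 584) (N (nat_lit 583) (L (nat_lit 288516249241781248)) (L (nat_lit 288516249241781249))) (N (nat_lit 585) (L (nat_lit 288516249241781250)) (L (nat_lit 288516249241781251))))) (N (nat_lit 590) (N (nat_lit 588) (N (nat_lit 587) (L (nat_lit 288516249241781252)) (L (nat_lit 288516249241781253))) (N (nat_lit 589) (L (nat_lit 288516249241781254)) (L (nat_lit 288516249241846781)))) (N (nat_lit 592) (N (nat_lit 591) (L (nat_lit 288516249241846782)) (L (nat_lit 288516249241846783))) (N (nat_lit 593) (L (nat_lit 288516249241846784)) (L (nat_lit 288516249241846785)))))) (N (nat_lit 603) (N (nat_lit 599) (N (nat_lit 597) (N (nat_lit 596) (N (nat_lit 595) (L (nat_lit 288516249241846786)) (L (nat_lit 288516249241846787))) (L (nat_lit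 288516249241846788))) (N (nat_lit 598) (L (nat_lit 288516249241846789)) (L (nat_lit 288516249241846790)))) (N (nat_lit 601) (N (nat_lit 600) (L (nat_lit 288516249241912317)) (L (nat_lit 288516249241912318))) (N (nat_lit 602) (L (nat_lit 288516249241912319)) (L (nat_lit 288516249241912320))))) (N (nat_lit 607) (N (nat_lit 605) (N (nat_lit 604) (L (nat_lit 288516249241912321)) (L (nat_lit 288516249241912322))) (N (nat_lit 606) (L (nat_lit 288516249241912323)) (L (nat_lit 288516249241912324)))) (N (nat_lit 609) (N (nat_lit 608) (L (nat_lit 288516249241912325)) (L (nat_lit 288516249241912326))) (N (nat_lit 610) (L (nat_lit 288516249241977852)) (L (nat_lit 288516249241977853)))))))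
def pt9 : RA := N (nat_lit 645) (N (nat_lit 628) (N (nat_lit 620) (N (nat_lit 616) (N (nat_lit 614) (N (nat_lit 613) (N (nat_lit 612) (L (nat_lit 288516249241977854)) (L (nat_lit 288516249241977855))) (L (nat_lit 288516249241977856))) (N (nat_lit 615) (L (nat_lit 288516249241977857)) (L (nat_lit 288516249241977858)))) (N (nat_lit 618) (N (nat_lit 617) (L (nat_lit 288516249241977859)) (L (nat_lit 288516249241977860))) (N (nat_lit 619) (L (nat_lit 288516249241977861)) (L (nat_lit 288516249242043387))))) (N (nat_lit 624) (N (nat_lit 622) (N (nat_lit 621) (L (nat_lit 288516249242043388)) (L (nat_lit 288516249242043389))) (N (nat_lit 623) (L (nat_lit 288516249242043390)) (L (nat_lit 288516249242043391)))) (N (nat_lit 626) (N (nat_lit 625) (L (nat_lit 288516249242043392)) (L (nat_lit 288516249242043393))) (N (nat_lit 627) (L (nat_lit 288516249242043394)) (L (nat_lit 288516249242043395)))))) (N (nat_lit 637) (N (nat_lit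 633) (N (nat_lit 631) (N (nat_lit 630) (N (nat_lit 629) (L (nat_lit 288516249242043396)) (L (nat_lit 288516249242108923))) (L (nat_lit 288516249242108924))) (N (nat_lit 632) (L (nat_lit 288516249242108925)) (L (nat_lit 288516249242108926)))) (N (nat_lit 635) (N (nat_lit 634) (L (nat_lit 288516249242108927)) (L (nat_lit 288516249242108928))) (N (nat_lit 636) (L (nat_lit 288516249242108929)) (L (nat_lit 288516249242108930))))) (N (nat_lit 641) (N (nat_lit 639) (N (nat_lit 638) (L (nat_lit 288516249242108931)) (L (nat_lit 288516249242108932))) (N (nat_lit 640) (L (nat_lit 288516249242174459)) (L (nat_lit 288516249242174460)))) (N (nat_lit 643) (N (nat_lit 642) (L (nat_lit 288516249242174461)) (L (nat_lit 288516249242174462))) (N (nat_lit 644) (L (nat_lit 288516249242174463)) (L (nat_lit 288516249242174464))))))) (N (nat_lit 662) (N (nat_lit 654) (N (nat_lit 650) (N (nat_lit 648) (N (nat_lit 647) (N (nat_lit 646)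 (L (nat_lit 288516249242174465)) (L (nat_lit 288516249242174466))) (L (nat_lit 288516249242174467))) (N (nat_lit 649) (L (nat_lit 288516249242239995)) (L (nat_lit 288516249242239996)))) (N (nat_lit 652) (N (nat_lit 651) (L (nat_lit 288516249242239997)) (L (nat_lit 288516249242239998))) (N (nat_lit 653) (L (nat_lit 288516249242239999)) (L (nat_lit 288516249242240000))))) (N (nat_lit 658) (N (nat_lit 656) (N (nat_lit 655) (L (nat_lit 288516249242240001)) (L (nat_lit 288516249242240002))) (N (nat_lit 657) (L (nat_lit 288516249242305532)) (L (nat_lit 288516249242305533)))) (N (nat_lit 660) (N (nat_lit 659) (L (nat_lit 288516249242305534)) (L (nat_lit 288516249242305535))) (N (nat_lit 661) (L (nat_lit 288516249242305536)) (L (nat_lit 288516249242305537)))))) (N (nat_lit 671) (N (nat_lit 667) (N (nat_lit 665) (N (nat_lit 664) (N (nat_lit 663) (L (nat_lit 288516249242371069)) (L (nat_lit 288516249242371070))) (L (nat_lit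 288516253536617476))) (N (nat_lit 666) (L (nat_lit 288516253536617477)) (L (nat_lit 288516253536683009)))) (N (nat_lit 669) (N (nat_lit 668) (L (nat_lit 288516253536683010)) (L (nat_lit 288516253536683011))) (N (nat_lit 670) (L (nat_lit 288516253536683012)) (L (nat_lit 288516253536748542))))) (N (nat_lit 675) (N (nat_lit 673) (N (nat_lit 672) (L (nat_lit 288516253536748543)) (L (nat_lit 288516253536748544))) (N (nat_lit 674) (L (nat_lit 288516253536748545)) (L (nat_lit 288516253536748546)))) (N (nat_lit 677) (N (nat_lit 676) (L (nat_lit 288516253536748547)) (L (nat_lit 288516253536748548))) (N (nat_lit 678) (L (nat_lit 288516253536748549)) (L (nat_lit 288516253536814076)))))))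
def pt10 : RA := N (nat_lit 713) (N (nat_lit 696) (N (nat_lit 688) (N (nat_lit 684) (N (nat_lit 682) (N (nat_lit 681) (N (nat_lit 680) (L (nat_lit 288516253536814077)) (L (nat_lit 288516253536814078))) (L (nat_lit 288516253536814079))) (N (nat_lit 683) (L (nat_lit 288516253536814080)) (L (nat_lit 288516253536814081)))) (N (nat_lit 686) (N (nat_lit 685) (L (nat_lit 288516253536814082)) (L (nat_lit 288516253536814083))) (N (nat_lit 687) (L (nat_lit 288516253536814084)) (L (nat_lit 288516253536814085))))) (N (nat_lit 692) (N (nat_lit 690) (N (nat_lit 689) (L (nat_lit 288516253536879612)) (L (nat_lit 288516253536879613))) (N (nat_lit 691) (L (nat_lit 288516253536879614)) (L (nat_lit 288516253536879615)))) (N (nat_lit 694) (N (nat_lit 693) (L (nat_lit 288516253536879616)) (L (nat_lit 288516253536879617))) (N (nat_lit 695) (L (nat_lit 288516253536879618)) (L (nat_lit 288516253536879619)))))) (N (nat_lit 705) (N (nat_lit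 701) (N (nat_lit 699) (N (nat_lit 698) (N (nat_lit 697) (L (nat_lit 288516253536879620)) (L (nat_lit 288516253536879621))) (L (nat_lit 288516253536945148))) (N (nat_lit 700) (L (nat_lit 288516253536945149)) (L (nat_lit 288516253536945150)))) (N (nat_lit 703) (N (nat_lit 702) (L (nat_lit 288516253536945151)) (L (nat_lit 288516253536945152))) (N (nat_lit 704) (L (nat_lit 288516253536945153)) (L (nat_lit 288516253536945154))))) (N (nat_lit 709) (N (nat_lit 707) (N (nat_lit 706) (L (nat_lit 288516253536945155)) (L (nat_lit 288516253536945156))) (N (nat_lit 708) (L (nat_lit 288516253537010683)) (L (nat_lit 288516253537010684)))) (N (nat_lit 711) (N (nat_lit 710) (L (nat_lit 288516253537010685)) (L (nat_lit 288516253537010686))) (N (nat_lit 712) (L (nat_lit 288516253537010687)) (L (nat_lit 288516253537010688))))))) (N (nat_lit 730) (N (nat_lit 722) (N (nat_lit 718) (N (nat_lit 716) (N (nat_lit 715) (N (nat_lit 714)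 (L (nat_lit 288516253537010689)) (L (nat_lit 288516253537010690))) (L (nat_lit 288516253537010691))) (N (nat_lit 717) (L (nat_lit 288516253537076220)) (L (nat_lit 288516253537076221)))) (N (nat_lit 720) (N (nat_lit 719) (L (nat_lit 288516253537076222)) (L (nat_lit 288516253537076223))) (N (nat_lit 721) (L (nat_lit 288516253537076224)) (L (nat_lit 288516253537076225))))) (N (nat_lit 726) (N (nat_lit 724) (N (nat_lit 723) (L (nat_lit 288516253537076226)) (L (nat_lit 288516253537076227))) (N (nat_lit 725) (L (nat_lit 288516253537141755)) (L (nat_lit 288516253537141756)))) (N (nat_lit 728) (N (nat_lit 727) (L (nat_lit 288516253537141757)) (L (nat_lit 288516253537141758))) (N (nat_lit 729) (L (nat_lit 288516253537141759)) (L (nat_lit 288516253537141760)))))) (N (nat_lit 739) (N (nat_lit 735) (N (nat_lit 733) (N (nat_lit 732) (N (nat_lit 731) (L (nat_lit 288516253537141761)) (L (nat_lit 288516253537141762))) (L (nat_lit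 288516253537207292))) (N (nat_lit 734) (L (nat_lit 288516253537207293)) (L (nat_lit 288516253537207294)))) (N (nat_lit 737) (N (nat_lit 736) (L (nat_lit 288516253537207295)) (L (nat_lit 288516253537207296))) (N (nat_lit 738) (L (nat_lit 288516253537207297)) (L (nat_lit 288516253537272829))))) (N (nat_lit 743) (N (nat_lit 741) (N (nat_lit 740) (L (nat_lit 288516253537272830)) (L (nat_lit 288516253537272831))) (N (nat_lit 742) (L (nat_lit 288516257831781380)) (L (nat_lit 288516257831846911)))) (N (nat_lit 745) (N (nat_lit 744) (L (nat_lit 288516257831846913)) (L (nat_lit 288516257831977984))) (N (nat_lit 746) (L (nat_lit 288516257832043518)) (L (nat_lit 288516257832043522)))))))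
def pt11 : RA := N (nat_lit 781) (N (nat_lit 764) (N (nat_lit 756) (N (nat_lit 752) (N (nat_lit 750) (N (nat_lit 749) (N (nat_lit 748) (L (nat_lit 288516257832174591)) (L (nat_lit 288516262127010814))) (L (nat_lit 288797707038688258))) (N (nat_lit 751) (L (nat_lit 288797707038753792)) (L (nat_lit 288797707038753796)))) (N (nat_lit 754) (N (nat_lit 753) (L (nat_lit 288797707038819328)) (L (nat_lit 288797707038950400))) (N (nat_lit 755) (L (nat_lit 288797711333655554)) (L (nat_lit 288797711333721088))))) (N (nat_lit 760) (N (nat_lit 758) (N (nat_lit 757) (L (nat_lit 288797711333721089)) (L (nat_lit 288797711333721092))) (N (nat_lit 759) (L (nat_lit 288797711333786624)) (L (nat_lit 288797711333786627)))) (N (nat_lit 762) (N (nat_lit 761) (L (nat_lit 288797711333852158)) (L (nat_lit 288797711333852160))) (N (nat_lit 763) (L (nat_lit 288797711333852164)) (L (nat_lit 288797711333917696)))))) (N (nat_lit 773) (N (nat_lit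 769) (N (nat_lit 767) (N (nat_lit 766) (N (nat_lit 765) (L (nat_lit 288797711333983231)) (L (nat_lit 288797715628360708))) (L (nat_lit 288797715628360709))) (N (nat_lit 768) (L (nat_lit 288797715628426243)) (L (nat_lit 288797715628426244)))) (N (nat_lit 771) (N (nat_lit 770) (L (nat_lit 288797715628491778)) (L (nat_lit 288797715628491779))) (N (nat_lit 772) (L (nat_lit 288797715628491780)) (L (nat_lit 288797715628557311))))) (N (nat_lit 777) (N (nat_lit 775) (N (nat_lit 774) (L (nat_lit 288797715628557312)) (L (nat_lit 288797715628557313))) (N (nat_lit 776) (L (nat_lit 288797715628557314)) (L (nat_lit 288797715628557315)))) (N (nat_lit 779) (N (nat_lit 778) (L (nat_lit 288797715628557316)) (L (nat_lit 288797715628622846))) (N (nat_lit 780) (L (nat_lit 288797715628622847)) (L (nat_lit 288797715628622848))))))) (N (nat_lit 798) (N (nat_lit 790) (N (nat_lit 786) (N (nat_lit 784) (N (nat_lit 783) (N (nat_lit 782)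 (L (nat_lit 288797715628622849)) (L (nat_lit 288797715628622850))) (L (nat_lit 288797715628622851))) (N (nat_lit 785) (L (nat_lit 288797715628622852)) (L (nat_lit 288797715628622853)))) (N (nat_lit 788) (N (nat_lit 787) (L (nat_lit 288797715628622854)) (L (nat_lit 288797715628688382))) (N (nat_lit 789) (L (nat_lit 288797715628688383)) (L (nat_lit 288797715628688384))))) (N (nat_lit 794) (N (nat_lit 792) (N (nat_lit 791) (L (nat_lit 288797715628688385)) (L (nat_lit 288797715628688386))) (N (nat_lit 793) (L (nat_lit 288797715628688387)) (L (nat_lit 288797715628688388)))) (N (nat_lit 796) (N (nat_lit 795) (L (nat_lit 288797715628688389)) (L (nat_lit 288797715628688390))) (N (nat_lit 797) (L (nat_lit 288797715628753918)) (L (nat_lit 288797715628753919)))))) (N (nat_lit 807) (N (nat_lit 803) (N (nat_lit 801) (N (nat_lit 800) (N (nat_lit 799) (L (nat_lit 288797715628753920)) (L (nat_lit 288797715628753921))) (L (nat_lit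 288797715628753922))) (N (nat_lit 802) (L (nat_lit 288797715628753923)) (L (nat_lit 288797715628753924)))) (N (nat_lit 805) (N (nat_lit 804) (L (nat_lit 288797715628753925)) (L (nat_lit 288797715628819454))) (N (nat_lit 806) (L (nat_lit 288797715628819455)) (L (nat_lit 288797715628819456))))) (N (nat_lit 811) (N (nat_lit 809) (N (nat_lit 808) (L (nat_lit 288797715628819457)) (L (nat_lit 288797715628819458))) (N (nat_lit 810) (L (nat_lit 288797715628819459)) (L (nat_lit 288797715628819460)))) (N (nat_lit 813) (N (nat_lit 812) (L (nat_lit 288797715628884989)) (L (nat_lit 288797715628884990))) (N (nat_lit 814) (L (nat_lit 288797715628884991)) (L (nat_lit 288797715628884992)))))))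
def pt12 : RA := N (nat_lit 849) (N (nat_lit 832) (N (nat_lit 824) (N (nat_lit 820) (N (nat_lit 818) (N (nat_lit 817) (N (nat_lit 816) (L (nat_lit 288797715628884993)) (L (nat_lit 288797715628884994))) (L (nat_lit 288797715628884995))) (N (nat_lit 819) (L (nat_lit 288797715628950525)) (L (nat_lit 288797715628950526)))) (N (nat_lit 822) (N (nat_lit 821) (L (nat_lit 288797715628950527)) (L (nat_lit 288797715628950528))) (N (nat_lit 823) (L (nat_lit 288797715628950529)) (L (nat_lit 288797715628950530))))) (N (nat_lit 828) (N (nat_lit 826) (N (nat_lit 825) (L (nat_lit 288797715629016062)) (L (nat_lit 288797715629016063))) (N (nat_lit 827) (L (nat_lit 288797715629016064)) (L (nat_lit 288797715629016065)))) (N (nat_lit 830) (N (nat_lit 829) (L (nat_lit 288797719923328003)) (L (nat_lit 288797719923328004))) (N (nat_lit 831) (L (nat_lit 288797719923393537)) (L (nat_lit 288797719923393538)))))) (N (nat_lit 841) (N (nat_lit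 837) (N (nat_lit 835) (N (nat_lit 834) (N (nat_lit 833) (L (nat_lit 288797719923393539)) (L (nat_lit 288797719923393540))) (L (nat_lit 288797719923393541))) (N (nat_lit 836) (L (nat_lit 288797719923393542)) (L (nat_lit 288797719923459072)))) (N (nat_lit 839) (N (nat_lit 838) (L (nat_lit 288797719923459073)) (L (nat_lit 288797719923459074))) (N (nat_lit 840) (L (nat_lit 288797719923459075)) (L (nat_lit 288797719923459076))))) (N (nat_lit 845) (N (nat_lit 843) (N (nat_lit 842) (L (nat_lit 288797719923459077)) (L (nat_lit 288797719923459078))) (N (nat_lit 844) (L (nat_lit 288797719923459079)) (L (nat_lit 288797719923524606)))) (N (nat_lit 847) (N (nat_lit 846) (L (nat_lit 288797719923524607)) (L (nat_lit 288797719923524608))) (N (nat_lit 848) (L (nat_lit 288797719923524609)) (L (nat_lit 288797719923524610))))))) (N (nat_lit 866) (N (nat_lit 858) (N (nat_lit 854) (N (nat_lit 852) (N (nat_lit 851) (N (nat_lit 850)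 (L (nat_lit 288797719923524611)) (L (nat_lit 288797719923524612))) (L (nat_lit 288797719923524613))) (N (nat_lit 853) (L (nat_lit 288797719923524614)) (L (nat_lit 288797719923590141)))) (N (nat_lit 856) (N (nat_lit 855) (L (nat_lit 288797719923590142)) (L (nat_lit 288797719923590143))) (N (nat_lit 857) (L (nat_lit 288797719923590144)) (L (nat_lit 288797719923590145))))) (N (nat_lit 862) (N (nat_lit 860) (N (nat_lit 859) (L (nat_lit 288797719923590146)) (L (nat_lit 288797719923590147))) (N (nat_lit 861) (L (nat_lit 288797719923590148)) (L (nat_lit 288797719923590149)))) (N (nat_lit 864) (N (nat_lit 863) (L (nat_lit 288797719923655677)) (L (nat_lit 288797719923655678))) (N (nat_lit 865) (L (nat_lit 288797719923655679)) (L (nat_lit 288797719923655680)))))) (N (nat_lit 875) (N (nat_lit 871) (N (nat_lit 869) (N (nat_lit 868) (N (nat_lit 867) (L (nat_lit 288797719923655681)) (L (nat_lit 288797719923655682))) (L (nat_lit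 288797719923655683))) (N (nat_lit 870) (L (nat_lit 288797719923655684)) (L (nat_lit 288797719923655685)))) (N (nat_lit 873) (N (nat_lit 872) (L (nat_lit 288797719923655686)) (L (nat_lit 288797719923721212))) (N (nat_lit 874) (L (nat_lit 288797719923721213)) (L (nat_lit 288797719923721214))))) (N (nat_lit 879) (N (nat_lit 877) (N (nat_lit 876) (L (nat_lit 288797719923721215)) (L (nat_lit 288797719923721216))) (N (nat_lit 878) (L (nat_lit 288797719923721217)) (L (nat_lit 288797719923721218)))) (N (nat_lit 881) (N (nat_lit 880) (L (nat_lit 288797719923721219)) (L (nat_lit 288797719923721220))) (N (nat_lit 882) (L (nat_lit 288797719923721221)) (L (nat_lit 288797719923786748)))))))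
def pt13 : RA := N (nat_lit 917) (N (nat_lit 900) (N (nat_lit 892) (N (nat_lit 888) (N (nat_lit 886) (N (nat_lit 885) (N (nat_lit 884) (L (nat_lit 288797719923786749)) (L (nat_lit 288797719923786750))) (L (nat_lit 288797719923786751))) (N (nat_lit 887) (L (nat_lit 288797719923786752)) (L (nat_lit 288797719923786753)))) (N (nat_lit 890) (N (nat_lit 889) (L (nat_lit 288797719923786754)) (L (nat_lit 288797719923786755))) (N (nat_lit 891) (L (nat_lit 288797719923786756)) (L (nat_lit 288797719923786757))))) (N (nat_lit 896) (N (nat_lit 894) (N (nat_lit 893) (L (nat_lit 288797719923852284)) (L (nat_lit 288797719923852285))) (N (nat_lit 895) (L (nat_lit 288797719923852286)) (L (nat_lit 288797719923852287)))) (N (nat_lit 898) (N (nat_lit 897) (L (nat_lit 288797719923852288)) (L (nat_lit 288797719923852289))) (N (nat_lit 899) (L (nat_lit 288797719923852290)) (L (nat_lit 288797719923852291)))))) (N (nat_lit 909) (N (nat_lit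 905) (N (nat_lit 903) (N (nat_lit 902) (N (nat_lit 901) (L (nat_lit 288797719923852292)) (L (nat_lit 288797719923917821))) (L (nat_lit 288797719923917822))) (N (nat_lit 904) (L (nat_lit 288797719923917823)) (L (nat_lit 288797719923917824)))) (N (nat_lit 907) (N (nat_lit 906) (L (nat_lit 288797719923917825)) (L (nat_lit 288797719923917826))) (N (nat_lit 908) (L (nat_lit 288797719923917827)) (L (nat_lit 288797719923983356))))) (N (nat_lit 913) (N (nat_lit 911) (N (nat_lit 910) (L (nat_lit 288797719923983357)) (L (nat_lit 288797719923983358))) (N (nat_lit 912) (L (nat_lit 288797719923983359)) (L (nat_lit 288797719923983360)))) (N (nat_lit 915) (N (nat_lit 914) (L (nat_lit 288797719923983361)) (L (nat_lit 288797719924048893))) (N (nat_lit 916) (L (nat_lit 288797719924048894)) (L (nat_lit 288797719924048895))))))) (N (nat_lit 934) (N (nat_lit 926) (N (nat_lit 922) (N (nat_lit 920) (N (nat_lit 919) (N (nat_lit 918)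 (L (nat_lit 288797724218426369)) (L (nat_lit 288797724218426370))) (L (nat_lit 288797724218426371))) (N (nat_lit 921) (L (nat_lit 288797724218491902)) (L (nat_lit 288797724218491903)))) (N (nat_lit 924) (N (nat_lit 923) (L (nat_lit 288797724218491904)) (L (nat_lit 288797724218491905))) (N (nat_lit 925) (L (nat_lit 288797724218491906)) (L (nat_lit 288797724218491907))))) (N (nat_lit 930) (N (nat_lit 928) (N (nat_lit 927) (L (nat_lit 288797724218491908)) (L (nat_lit 288797724218491909))) (N (nat_lit 929) (L (nat_lit 288797724218491910)) (L (nat_lit 288797724218557437)))) (N (nat_lit 932) (N (nat_lit 931) (L (nat_lit 288797724218557438)) (L (nat_lit 288797724218557439))) (N (nat_lit 933) (L (nat_lit 288797724218557440)) (L (nat_lit 288797724218557441)))))) (N (nat_lit 943) (N (nat_lit 939) (N (nat_lit 937) (N (nat_lit 936) (N (nat_lit 935) (L (nat_lit 288797724218557442)) (L (nat_lit 288797724218557443))) (L (nat_lit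 288797724218557444))) (N (nat_lit 938) (L (nat_lit 288797724218557445)) (L (nat_lit 288797724218622975)))) (N (nat_lit 941) (N (nat_lit 940) (L (nat_lit 288797724218622976)) (L (nat_lit 288797724218622977))) (N (nat_lit 942) (L (nat_lit 288797724218622978)) (L (nat_lit 288797724218622979))))) (N (nat_lit 947) (N (nat_lit 945) (N (nat_lit 944) (L (nat_lit 288797724218622980)) (L (nat_lit 288797724218622981))) (N (nat_lit 946) (L (nat_lit 288797724218688509)) (L (nat_lit 288797724218688510)))) (N (nat_lit 949) (N (nat_lit 948) (L (nat_lit 288797724218688511)) (L (nat_lit 288797724218688512))) (N (nat_lit 950) (L (nat_lit 288797724218688513)) (L (nat_lit 288797724218688514)))))))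
def pt14 : RA := N (nat_lit 985) (N (nat_lit 968) (N (nat_lit 960) (N (nat_lit 956) (N (nat_lit 954) (N (nat_lit 953) (N (nat_lit 952) (L (nat_lit 288797724218688515)) (L (nat_lit 288797724218688516))) (L (nat_lit 288797724218754045))) (N (nat_lit 955) (L (nat_lit 288797724218754046)) (L (nat_lit 288797724218754047)))) (N (nat_lit 958) (N (nat_lit 957) (L (nat_lit 288797724218754048)) (L (nat_lit 288797724218754049))) (N (nat_lit 959) (L (nat_lit 288797724218754050)) (L (nat_lit 288797724218754051))))) (N (nat_lit 964) (N (nat_lit 962) (N (nat_lit 961) (L (nat_lit 288797724218819580)) (L (nat_lit 288797724218819581))) (N (nat_lit 963) (L (nat_lit 288797724218819582)) (L (nat_lit 288797724218819583)))) (N (nat_lit 966) (N (nat_lit 965) (L (nat_lit 288797724218819584)) (L (nat_lit 288797724218819585))) (N (nat_lit 967) (L (nat_lit 288797724218819586)) (L (nat_lit 288797724218819587)))))) (N (nat_lit 977) (N (nat_lit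 973) (N (nat_lit 971) (N (nat_lit 970) (N (nat_lit 969) (L (nat_lit 288797724218885117)) (L (nat_lit 288797724218885118))) (L (nat_lit 288797724218885119))) (N (nat_lit 972) (L (nat_lit 288797724218885120)) (L (nat_lit 288797724218885121)))) (N (nat_lit 975) (N (nat_lit 974) (L (nat_lit 288797724218950655)) (L (nat_lit 288797724218950656))) (N (nat_lit 976) (L (nat_lit 288797728513524737)) (L (nat_lit 288797728513524738))))) (N (nat_lit 981) (N (nat_lit 979) (N (nat_lit 978) (L (nat_lit 288797728513590272)) (L (nat_lit 288797728513590273))) (N (nat_lit 980) (L (nat_lit 288797728513590276)) (L (nat_lit 288797728513655805)))) (N (nat_lit 983) (N (nat_lit 982) (L (nat_lit 288797728513655808)) (L (nat_lit 288797728513655811))) (N (nat_lit 984) (L (nat_lit 288797728513721344)) (L (nat_lit 288797728513786880))))))) (N (nat_lit 1002) (N (nat_lit 994) (N (nat_lit 990) (N (nat_lit 988) (N (nat_lit 987) (N (nat_lit 986)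 (L (nat_lit 288797732808557568)) (L (nat_lit 289079177720497152))) (L (nat_lit 289079182015464449))) (N (nat_lit 989) (L (nat_lit 289079182015595519)) (L (nat_lit 289079182015595520)))) (N (nat_lit 992) (N (nat_lit 991) (L (nat_lit 289079182015595524)) (L (nat_lit 289079182015661056))) (N (nat_lit 993) (L (nat_lit 289079186310366208)) (L (nat_lit 289079186310366209))))) (N (nat_lit 998) (N (nat_lit 996) (N (nat_lit 995) (L (nat_lit 289079186310431746)) (L (nat_lit 289079186310431747))) (N (nat_lit 997) (L (nat_lit 289079186310497279)) (L (nat_lit 289079186310497280)))) (N (nat_lit 1000) (N (nat_lit 999) (L (nat_lit 289079186310497281)) (L (nat_lit 289079186310562814))) (N (nat_lit 1001) (L (nat_lit 289079186310562815)) (L (nat_lit 289079186310562818)))))) (N (nat_lit 1011) (N (nat_lit 1007) (N (nat_lit 1005) (N (nat_lit 1004) (N (nat_lit 1003) (L (nat_lit 289079186310562819)) (L (nat_lit 289079186310628352)))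 (L (nat_lit 289079186310628353))) (N (nat_lit 1006) (L (nat_lit 289079186310628355)) (L (nat_lit 289079186310693886)))) (N (nat_lit 1009) (N (nat_lit 1008) (L (nat_lit 289079186310693889)) (L (nat_lit 289079190605267969))) (N (nat_lit 1010) (L (nat_lit 289079190605267971)) (L (nat_lit 289079190605333504))))) (N (nat_lit 1015) (N (nat_lit 1013) (N (nat_lit 1012) (L (nat_lit 289079190605399040)) (L (nat_lit 289079190605399042))) (N (nat_lit 1014) (L (nat_lit 289079190605464573)) (L (nat_lit 289079190605464575)))) (N (nat_lit 1017) (N (nat_lit 1016) (L (nat_lit 289079190605464579)) (L (nat_lit 289079190605530111))) (N (nat_lit 1018) (L (nat_lit 289079190605530112)) (L (nat_lit 289079190605595646)))))))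
def pt15 : RA := N (nat_lit 1053) (N (nat_lit 1036) (N (nat_lit 1028) (N (nat_lit 1024) (N (nat_lit 1022) (N (nat_lit 1021) (N (nat_lit 1020) (L (nat_lit 289079190605595648)) (L (nat_lit 289079190605726718))) (L (nat_lit 289079194900169731))) (N (nat_lit 1023) (L (nat_lit 289079194900235263)) (L (nat_lit 289079194900235266)))) (N (nat_lit 1026) (N (nat_lit 1025) (L (nat_lit 289079194900235267)) (L (nat_lit 289079194900300801))) (N (nat_lit 1027) (L (nat_lit 289079194900300802)) (L (nat_lit 289079194900300803))))) (N (nat_lit 1032) (N (nat_lit 1030) (N (nat_lit 1029) (L (nat_lit 289079194900366335)) (L (nat_lit 289079194900366336))) (N (nat_lit 1031) (L (nat_lit 289079194900366337)) (L (nat_lit 289079194900366338)))) (N (nat_lit 1034) (N (nat_lit 1033) (L (nat_lit 289079194900366339)) (L (nat_lit 289079194900366340))) (N (nat_lit 1035) (L (nat_lit 289079194900366341)) (L (nat_lit 289079194900431870)))))) (N (nat_lit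 1045) (N (nat_lit 1041) (N (nat_lit 1039) (N (nat_lit 1038) (N (nat_lit 1037) (L (nat_lit 289079194900431871)) (L (nat_lit 289079194900431872))) (L (nat_lit 289079194900431875))) (N (nat_lit 1040) (L (nat_lit 289079194900497406)) (L (nat_lit 289079194900497407)))) (N (nat_lit 1043) (N (nat_lit 1042) (L (nat_lit 289079194900497408)) (L (nat_lit 289079194900497410))) (N (nat_lit 1044) (L (nat_lit 289079194900497411)) (L (nat_lit 289079194900562944))))) (N (nat_lit 1049) (N (nat_lit 1047) (N (nat_lit 1046) (L (nat_lit 289079199195268095)) (L (nat_lit 289079199195268097))) (N (nat_lit 1048) (L (nat_lit 289079199195333634)) (L (nat_lit 289079199195399166)))) (N (nat_lit 1051) (N (nat_lit 1050) (L (nat_lit 289079199195464703)) (L (nat_lit 289079199195464706))) (N (nat_lit 1052) (L (nat_lit 289079199195530240)) (L (nat_lit 289079203490235393))))))) (N (nat_lit 1070) (N (nat_lit 1062) (N (nat_lit 1058) (N (nat_lit 1056)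 (N (nat_lit 1055) (N (nat_lit 1054) (L (nat_lit 289079203490300929)) (L (nat_lit 289079203490366461))) (L (nat_lit 289079203490431999))) (N (nat_lit 1057) (L (nat_lit 289079203490432000)) (L (nat_lit 289079203490497536)))) (N (nat_lit 1060) (N (nat_lit 1059) (L (nat_lit 289360656992109569)) (L (nat_lit 289360656992240641))) (N (nat_lit 1061) (L (nat_lit 289360656992306175)) (L (nat_lit 289360656992306178))))) (N (nat_lit 1066) (N (nat_lit 1064) (N (nat_lit 1063) (L (nat_lit 289360656992371712)) (L (nat_lit 289360661287207935))) (N (nat_lit 1065) (L (nat_lit 289360661287207939)) (L (nat_lit 289360665581978623)))) (N (nat_lit 1068) (N (nat_lit 1067) (L (nat_lit 289360665581978625)) (L (nat_lit 289360665581978627))) (N (nat_lit 1069) (L (nat_lit 289360665582044162)) (L (nat_lit 289360665582109696)))))) (N (nat_lit 1078) (N (nat_lit 1074) (N (nat_lit 1072) (N (nat_lit 1071) (L (nat_lit 289360665582175230)) (L (nat_lit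 289360665582240767))) (N (nat_lit 1073) (L (nat_lit 289360665582240768)) (L (nat_lit 289360665582240770)))) (N (nat_lit 1076) (N (nat_lit 1075) (L (nat_lit 289360669877076991)) (L (nat_lit 289360674171978751))) (N (nat_lit 1077) (L (nat_lit 289360674171978753)) (L (nat_lit 289360674172109822))))) (N (nat_lit 1082) (N (nat_lit 1080) (N (nat_lit 1079) (L (nat_lit 289360674172175362)) (L (nat_lit 289360674172240896))) (N (nat_lit 1081) (L (nat_lit 289642136263787522)) (L (nat_lit 289642136263853056)))) (N (nat_lit 1084) (N (nat_lit 1083) (L (nat_lit 289642136263984127)) (L (nat_lit 289642140558689281))) (N (nat_lit 1085) (L (nat_lit 289642140558689283)) (L (nat_lit 289642140558820352)))))))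
def pt : RA := N (nat_lit 543) (N (nat_lit 272) (N (nat_lit 136) (N (nat_lit 68) (pt0) (pt1)) (N (nat_lit 204) (pt2) (pt3))) (N (nat_lit 408) (N (nat_lit 340) (pt4) (pt5)) (N (nat_lit 476) (pt6) (pt7)))) (N (nat_lit 815) (N (nat_lit 679) (N (nat_lit 611) (pt8) (pt9)) (N (nat_lit 747) (pt10) (pt11))) (N (nat_lit 951) (N (nat_lit 883) (pt12) (pt13)) (N (nat_lit 1019) (pt14) (pt15))))
def nb0 : RA := N (nat_lit 32) (N (nat_lit 12) (N (nat_lit 9) (N (nat_lit 8) (N (nat_lit 6) (N (nat_lit 5) (N (nat_lit 4) (L (E (nat_lit 0) (nat_lit 0x0) (nat_lit 0))) (L (E (nat_lit 0) (nat_lit 0x0) (nat_lit 0)))) (L (E (nat_lit 1) (nat_lit 0x32) (nat_lit 0)))) (N (nat_lit 7) (L (E (nat_lit 1) (nat_lit 0x12) (nat_lit 0))) (L (E (nat_lit 0) (nat_lit 0x0) (nat_lit 0))))) (L (E (nat_lit 1) (nat_lit 0x52) (nat_lit 0)))) (N (nat_lit 10) (L (E (nat_lit 2) (nat_lit 0xa800c) (nat_lit 0))) (N (nat_lit 11) (L (E (nat_lit 0) (nat_lit 0x0) (nat_lit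 0))) (L (E (nat_lit 0) (nat_lit 0x0) (nat_lit 0)))))) (N (nat_lit 23) (N (nat_lit 14) (N (nat_lit 13) (L (E (nat_lit 1) (nat_lit 0x58) (nat_lit 0))) (L (E (nat_lit 1) (nat_lit 0xc) (nat_lit 0)))) (N (nat_lit 17) (N (nat_lit 16) (N (nat_lit 15) (L (E (nat_lit 0) (nat_lit 0x0) (nat_lit 0))) (L (E (nat_lit 0) (nat_lit 0x0) (nat_lit 0)))) (L (E (nat_lit 1) (nat_lit 0xdc) (nat_lit 0)))) (N (nat_lit 20) (N (nat_lit 19) (N (nat_lit 18) (L (E (nat_lit 0) (nat_lit 0x0) (nat_lit 0))) (L (E (nat_lit 0) (nat_lit 0x0) (nat_lit 0)))) (L (E (nat_lit 0) (nat_lit 0x0) (nat_lit 0)))) (N (nat_lit 22) (N (nat_lit 21) (L (E (nat_lit 0) (nat_lit 0x0) (nat_lit 0))) (L (E (nat_lit 0) (nat_lit 0x0) (nat_lit 0)))) (L (E (nat_lit 0) (nat_lit 0x0) (nat_lit 0))))))) (N (nat_lit 29) (N (nat_lit 26) (N (nat_lit 25) (N (nat_lit 24) (L (E (nat_lit 0) (nat_lit 0x0) (nat_lit 0))) (L (E (nat_lit 0) (nat_lit 0x0) (nat_lit 0)))) (L (E (nat_lit 2)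 (nat_lit 0x25400a) (nat_lit 0)))) (N (nat_lit 28) (N (nat_lit 27) (L (E (nat_lit 0) (nat_lit 0x0) (nat_lit 0))) (L (E (nat_lit 0) (nat_lit 0x0) (nat_lit 0)))) (L (E (nat_lit 1) (nat_lit 0x12c) (nat_lit 0))))) (N (nat_lit 31) (N (nat_lit 30) (L (E (nat_lit 0) (nat_lit 0x0) (nat_lit 0))) (L (E (nat_lit 3) (nat_lit 0x9e023803e) (nat_lit 0)))) (L (E (nat_lit 1) (nat_lit 0x7e) (nat_lit 0))))))) (N (nat_lit 44) (N (nat_lit 42) (N (nat_lit 39) (N (nat_lit 36) (N (nat_lit 34) (N (nat_lit 33) (L (E (nat_lit 2) (nat_lit 0x8403a) (nat_lit 0))) (L (E (nat_lit 1) (nat_lit 0x12e) (nat_lit 0)))) (N (nat_lit 35) (L (E (nat_lit 1) (nat_lit 0x290) (nat_lit 0))) (L (E (nat_lit 0) (nat_lit 0x0) (nat_lit 0))))) (N (nat_lit 37) (L (E (nat_lit 2) (nat_lit 0x53c098) (nat_lit 0))) (N (nat_lit 38) (L (E (nat_lit 0) (nat_lit 0x0) (nat_lit 0))) (L (E (nat_lit 1) (nat_lit 0x134) (nat_lit 0)))))) (N (nat_lit 41) (N (nat_lit 40) (L (E (nat_lit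 2) (nat_lit 0x5580a2) (nat_lit 0))) (L (E (nat_lit 0) (nat_lit 0x0) (nat_lit 0)))) (L (E (nat_lit 1) (nat_lit 0x10) (nat_lit 0))))) (N (nat_lit 43) (L (E (nat_lit 1) (nat_lit 0x12) (nat_lit 0))) (L (E (nat_lit 1) (nat_lit 0x14) (nat_lit 0))))) (N (nat_lit 51) (N (nat_lit 48) (N (nat_lit 45) (L (E (nat_lit 1) (nat_lit 0x18) (nat_lit 0))) (N (nat_lit 46) (L (E (nat_lit 1) (nat_lit 0x312) (nat_lit 0))) (N (nat_lit 47) (L (E (nat_lit 0) (nat_lit 0x0) (nat_lit 0))) (L (E (nat_lit 0) (nat_lit 0x0) (nat_lit 0)))))) (N (nat_lit 49) (L (E (nat_lit 1) (nat_lit 0x328) (nat_lit 0))) (N (nat_lit 50) (L (E (nat_lit 0) (nat_lit 0x0) (nat_lit 0))) (L (E (nat_lit 0) (nat_lit 0x0) (nat_lit 0)))))) (N (nat_lit 61) (N (nat_lit 57) (N (nat_lit 55) (N (nat_lit 53) (N (nat_lit 52) (L (E (nat_lit 0) (nat_lit 0x0) (nat_lit 0))) (L (E (nat_lit 0) (nat_lit 0x0) (nat_lit 0)))) (N (nat_lit 54) (L (E (nat_lit 0) (nat_lit 0x0) (nat_lit 0)))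 (L (E (nat_lit 0) (nat_lit 0x0) (nat_lit 0))))) (N (nat_lit 56) (L (E (nat_lit 1) (nat_lit 0x3b8) (nat_lit 0))) (L (E (nat_lit 1) (nat_lit 0x266) (nat_lit 0))))) (N (nat_lit 60) (N (nat_lit 59) (N (nat_lit 58) (L (E (nat_lit 0) (nat_lit 0x0) (nat_lit 0))) (L (E (nat_lit 0) (nat_lit 0x0) (nat_lit 0)))) (L (E (nat_lit 0) (nat_lit 0x0) (nat_lit 0)))) (L (E (nat_lit 3) (nat_lit 0x3400c801c) (nat_lit 0))))) (N (nat_lit 64) (N (nat_lit 63) (N (nat_lit 62) (L (E (nat_lit 0) (nat_lit 0x0) (nat_lit 0))) (L (E (nat_lit 0) (nat_lit 0x0) (nat_lit 0)))) (L (E (nat_lit 1) (nat_lit 0x3e) (nat_lit 0)))) (N (nat_lit 65) (L (E (nat_lit 2) (nat_lit 0x4f80d8) (nat_lit 0))) (N (nat_lit 66) (L (E (nat_lit 0) (nat_lit 0x0) (nat_lit 0))) (L (E (nat_lit 0) (nat_lit 0x0) (nat_lit 0)))))))))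
def nb1 : RA := N (nat_lit 88) (N (nat_lit 77) (N (nat_lit 73) (N (nat_lit 68) (L (E (nat_lit 3) (nat_lit 0x600128084) (nat_lit 0))) (N (nat_lit 70) (N (nat_lit 69) (L (E (nat_lit 0) (nat_lit 0x0) (nat_lit 0))) (L (E (nat_lit 1) (nat_lit 0x7c) (nat_lit 0)))) (N (nat_lit 72) (N (nat_lit 71) (L (E (nat_lit 0) (nat_lit 0x0) (nat_lit 0))) (L (E (nat_lit 0) (nat_lit 0x0) (nat_lit 0)))) (L (E (nat_lit 0) (nat_lit 0x0) (nat_lit 0)))))) (N (nat_lit 74) (L (E (nat_lit 2) (nat_lit 0x138094) (nat_lit 0))) (N (nat_lit 76) (N (nat_lit 75) (L (E (nat_lit 1) (nat_lit 0x92) (nat_lit 0))) (L (E (nat_lit 0) (nat_lit 0x0) (nat_lit 0)))) (L (E (nat_lit 3) (nat_lit 0xa783280a6) (nat_lit 0)))))) (N (nat_lit 83) (N (nat_lit 80) (N (nat_lit 78) (L (E (nat_lit 2) (nat_lit 0x330090) (nat_lit 0))) (N (nat_lit 79) (L (E (nat_lit 0) (nat_lit 0x0) (nat_lit 0))) (L (E (nat_lit 0) (nat_lit 0x0) (nat_lit 0))))) (N (nat_lit 82) (N (nat_lit 81)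 (L (E (nat_lit 0) (nat_lit 0x0) (nat_lit 0))) (L (E (nat_lit 1) (nat_lit 0x2ac) (nat_lit 0)))) (L (E (nat_lit 1) (nat_lit 0x1a0) (nat_lit 0))))) (N (nat_lit 87) (N (nat_lit 85) (N (nat_lit 84) (L (E (nat_lit 1) (nat_lit 0x98) (nat_lit 0))) (L (E (nat_lit 0) (nat_lit 0x0) (nat_lit 0)))) (N (nat_lit 86) (L (E (nat_lit 0) (nat_lit 0x0) (nat_lit 0))) (L (E (nat_lit 0) (nat_lit 0x0) (nat_lit 0))))) (L (E (nat_lit 4) (nat_lit 0x8302e01440a0) (nat_lit 0)))))) (N (nat_lit 103) (N (nat_lit 95) (N (nat_lit 93) (N (nat_lit 91) (N (nat_lit 90) (N (nat_lit 89) (L (E (nat_lit 0) (nat_lit 0x0) (nat_lit 0))) (L (E (nat_lit 0) (nat_lit 0x0) (nat_lit 0)))) (L (E (nat_lit 1) (nat_lit 0x2ca) (nat_lit 0)))) (N (nat_lit 92) (L (E (nat_lit 0) (nat_lit 0x0) (nat_lit 0))) (L (E (nat_lit 0) (nat_lit 0x0) (nat_lit 0))))) (N (nat_lit 94) (L (E (nat_lit 2) (nat_lit 0x8602d2) (nat_lit 0))) (L (E (nat_lit 2) (nat_lit 0x5c0110) (nat_lit 0)))))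 (N (nat_lit 99) (N (nat_lit 97) (N (nat_lit 96) (L (E (nat_lit 1) (nat_lit 0x2e4) (nat_lit 0))) (L (E (nat_lit 0) (nat_lit 0x0) (nat_lit 0)))) (N (nat_lit 98) (L (E (nat_lit 0) (nat_lit 0x0) (nat_lit 0))) (L (E (nat_lit 0) (nat_lit 0x0) (nat_lit 0))))) (N (nat_lit 100) (L (E (nat_lit 3) (nat_lit 0x34018801e) (nat_lit 0))) (N (nat_lit 102) (N (nat_lit 101) (L (E (nat_lit 0) (nat_lit 0x0) (nat_lit 0))) (L (E (nat_lit 0) (nat_lit 0x0) (nat_lit 0)))) (L (E (nat_lit 0) (nat_lit 0x0) (nat_lit 0))))))) (N (nat_lit 111) (N (nat_lit 107) (N (nat_lit 105) (N (nat_lit 104) (L (E (nat_lit 0) (nat_lit 0x0) (nat_lit 0))) (L (E (nat_lit 2) (nat_lit 0x1c00c6) (nat_lit 0)))) (N (nat_lit 106) (L (E (nat_lit 0) (nat_lit 0x0) (nat_lit 0))) (L (E (nat_lit 1) (nat_lit 0x28e) (nat_lit 0))))) (N (nat_lit 110) (N (nat_lit 108) (L (E (nat_lit 1) (nat_lit 0x166) (nat_lit 0))) (N (nat_lit 109) (L (E (nat_lit 0) (nat_lit 0x0) (nat_lit 0)))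 (L (E (nat_lit 0) (nat_lit 0x0) (nat_lit 0))))) (L (E (nat_lit 2) (nat_lit 0x230020) (nat_lit 0))))) (N (nat_lit 113) (N (nat_lit 112) (L (E (nat_lit 0) (nat_lit 0x0) (nat_lit 0))) (L (E (nat_lit 4) (nat_lit 0x14e05c81d40de) (nat_lit 0)))) (N (nat_lit 116) (N (nat_lit 115) (N (nat_lit 114) (L (E (nat_lit 0) (nat_lit 0x0) (nat_lit 0))) (L (E (nat_lit 0) (nat_lit 0x0) (nat_lit 0)))) (L (E (nat_lit 0) (nat_lit 0x0) (nat_lit 0)))) (L (E (nat_lit 2) (nat_lit 0x3000ea) (nat_lit 0)))))))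
def nb2 : RA := N (nat_lit 154) (N (nat_lit 132) (N (nat_lit 124) (N (nat_lit 120) (N (nat_lit 118) (L (E (nat_lit 1) (nat_lit 0x2ac) (nat_lit 0))) (N (nat_lit 119) (L (E (nat_lit 0) (nat_lit 0x0) (nat_lit 0))) (L (E (nat_lit 2) (nat_lit 0x564188) (nat_lit 0))))) (N (nat_lit 122) (N (nat_lit 121) (L (E (nat_lit 0) (nat_lit 0x0) (nat_lit 0))) (L (E (nat_lit 1) (nat_lit 0xf0) (nat_lit 0)))) (N (nat_lit 123) (L (E (nat_lit 0) (nat_lit 0x0) (nat_lit 0))) (L (E (nat_lit 0) (nat_lit 0x0) (nat_lit 0)))))) (N (nat_lit 127) (N (nat_lit 125) (L (E (nat_lit 3) (nat_lit 0x1330580194) (nat_lit 0))) (N (nat_lit 126) (L (E (nat_lit 1) (nat_lit 0x2c2) (nat_lit 0))) (L (E (nat_lit 0) (nat_lit 0x0) (nat_lit 0))))) (N (nat_lit 130) (N (nat_lit 129) (N (nat_lit 128) (L (E (nat_lit 0) (nat_lit 0x0) (nat_lit 0))) (L (E (nat_lit 0) (nat_lit 0x0) (nat_lit 0)))) (L (E (nat_lit 0) (nat_lit 0x0) (nat_lit 0)))) (N (nat_lit 131) (L (E (nat_lit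 1) (nat_lit 0x2d0) (nat_lit 0))) (L (E (nat_lit 1) (nat_lit 0xae) (nat_lit 0))))))) (N (nat_lit 145) (N (nat_lit 138) (N (nat_lit 136) (N (nat_lit 134) (N (nat_lit 133) (L (E (nat_lit 0) (nat_lit 0x0) (nat_lit 0))) (L (E (nat_lit 0) (nat_lit 0x0) (nat_lit 0)))) (N (nat_lit 135) (L (E (nat_lit 0) (nat_lit 0x0) (nat_lit 0))) (L (E (nat_lit 0) (nat_lit 0x0) (nat_lit 0))))) (N (nat_lit 137) (L (E (nat_lit 1) (nat_lit 0xbc) (nat_lit 0))) (L (E (nat_lit 0) (nat_lit 0x0) (nat_lit 0))))) (N (nat_lit 142) (N (nat_lit 140) (N (nat_lit 139) (L (E (nat_lit 0) (nat_lit 0x0) (nat_lit 0))) (L (E (nat_lit 0) (nat_lit 0x0) (nat_lit 0)))) (N (nat_lit 141) (L (E (nat_lit 0) (nat_lit 0x0) (nat_lit 0))) (L (E (nat_lit 0) (nat_lit 0x0) (nat_lit 0))))) (N (nat_lit 144) (N (nat_lit 143) (L (E (nat_lit 0) (nat_lit 0x0) (nat_lit 0))) (L (E (nat_lit 0) (nat_lit 0x0) (nat_lit 0)))) (L (E (nat_lit 0) (nat_lit 0x0) (nat_lit 0)))))) (N (nat_lit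 150) (N (nat_lit 148) (N (nat_lit 147) (N (nat_lit 146) (L (E (nat_lit 0) (nat_lit 0x0) (nat_lit 0))) (L (E (nat_lit 0) (nat_lit 0x0) (nat_lit 0)))) (L (E (nat_lit 0) (nat_lit 0x0) (nat_lit 0)))) (N (nat_lit 149) (L (E (nat_lit 0) (nat_lit 0x0) (nat_lit 0))) (L (E (nat_lit 0) (nat_lit 0x0) (nat_lit 0))))) (N (nat_lit 151) (L (E (nat_lit 2) (nat_lit 0x4d8038) (nat_lit 0))) (N (nat_lit 152) (L (E (nat_lit 2) (nat_lit 0x514042) (nat_lit 0))) (N (nat_lit 153) (L (E (nat_lit 0) (nat_lit 0x0) (nat_lit 0))) (L (E (nat_lit 0) (nat_lit 0x0) (nat_lit 0))))))))) (N (nat_lit 171) (N (nat_lit 163) (N (nat_lit 158) (N (nat_lit 156) (N (nat_lit 155) (L (E (nat_lit 0) (nat_lit 0x0) (nat_lit 0))) (L (E (nat_lit 1) (nat_lit 0x2b4) (nat_lit 0)))) (N (nat_lit 157) (L (E (nat_lit 0) (nat_lit 0x0) (nat_lit 0))) (L (E (nat_lit 1) (nat_lit 0x320) (nat_lit 0))))) (N (nat_lit 161) (N (nat_lit 159) (L (E (nat_lit 1) (nat_lit 0x5de) (nat_lit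 0))) (N (nat_lit 160) (L (E (nat_lit 0) (nat_lit 0x0) (nat_lit 0))) (L (E (nat_lit 0) (nat_lit 0x0) (nat_lit 0))))) (N (nat_lit 162) (L (E (nat_lit 0) (nat_lit 0x0) (nat_lit 0))) (L (E (nat_lit 1) (nat_lit 0x3d8) (nat_lit 0)))))) (N (nat_lit 169) (N (nat_lit 167) (N (nat_lit 165) (N (nat_lit 164) (L (E (nat_lit 0) (nat_lit 0x0) (nat_lit 0))) (L (E (nat_lit 0) (nat_lit 0x0) (nat_lit 0)))) (N (nat_lit 166) (L (E (nat_lit 0) (nat_lit 0x0) (nat_lit 0))) (L (E (nat_lit 0) (nat_lit 0x0) (nat_lit 0))))) (N (nat_lit 168) (L (E (nat_lit 0) (nat_lit 0x0) (nat_lit 0))) (L (E (nat_lit 1) (nat_lit 0x5fa) (nat_lit 0))))) (N (nat_lit 170) (L (E (nat_lit 0) (nat_lit 0x0) (nat_lit 0))) (L (E (nat_lit 4) (nat_lit 0x23f05882c0156) (nat_lit 0)))))) (N (nat_lit 176) (N (nat_lit 172) (L (E (nat_lit 2) (nat_lit 0x2b0154) (nat_lit 0))) (N (nat_lit 174) (N (nat_lit 173) (L (E (nat_lit 0) (nat_lit 0x0) (nat_lit 0))) (L (E (nat_lit 0)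 (nat_lit 0x0) (nat_lit 0)))) (N (nat_lit 175) (L (E (nat_lit 1) (nat_lit 0xcc) (nat_lit 0))) (L (E (nat_lit 0) (nat_lit 0x0) (nat_lit 0)))))) (N (nat_lit 177) (L (E (nat_lit 5) (nat_lit 0x48e1ef05c82c40d0) (nat_lit 0))) (N (nat_lit 180) (N (nat_lit 179) (N (nat_lit 178) (L (E (nat_lit 0) (nat_lit 0x0) (nat_lit 0))) (L (E (nat_lit 0) (nat_lit 0x0) (nat_lit 0)))) (L (E (nat_lit 1) (nat_lit 0xd6) (nat_lit 0)))) (N (nat_lit 182) (N (nat_lit 181) (L (E (nat_lit 0) (nat_lit 0x0) (nat_lit 0))) (L (E (nat_lit 1) (nat_lit 0x608) (nat_lit 0)))) (L (E (nat_lit 0) (nat_lit 0x0) (nat_lit 0))))))))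
def nb3 : RA := N (nat_lit 203) (N (nat_lit 192) (N (nat_lit 186) (N (nat_lit 184) (L (E (nat_lit 7) (nat_lit 0x183093c3f01ab05f82bc078) (nat_lit 0))) (N (nat_lit 185) (L (E (nat_lit 0) (nat_lit 0x0) (nat_lit 0))) (L (E (nat_lit 6) (nat_lit 0x7e835a19105882c00e0) (nat_lit 0))))) (N (nat_lit 188) (N (nat_lit 187) (L (E (nat_lit 3) (nat_lit 0x12906b8184) (nat_lit 0))) (L (E (nat_lit 3) (nat_lit 0x12987f035e) (nat_lit 0)))) (N (nat_lit 190) (N (nat_lit 189) (L (E (nat_lit 0) (nat_lit 0x0) (nat_lit 0))) (L (E (nat_lit 2) (nat_lit 0x954168) (nat_lit 0)))) (N (nat_lit 191) (L (E (nat_lit 1) (nat_lit 0x18a) (nat_lit 0))) (L (E (nat_lit 0) (nat_lit 0x0) (nat_lit 0))))))) (N (nat_lit 197) (N (nat_lit 193) (L (E (nat_lit 8) (nat_lit 0x30d10186cc18e0bf05b81d0086) (nat_lit 0))) (N (nat_lit 194) (L (E (nat_lit 1) (nat_lit 0x192) (nat_lit 0))) (N (nat_lit 195) (L (E (nat_lit 1) (nat_lit 0x172) (nat_lit 0))) (N (nat_lit 196)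 (L (E (nat_lit 0) (nat_lit 0x0) (nat_lit 0))) (L (E (nat_lit 0) (nat_lit 0x0) (nat_lit 0))))))) (N (nat_lit 201) (N (nat_lit 199) (N (nat_lit 198) (L (E (nat_lit 1) (nat_lit 0x17c) (nat_lit 0))) (L (E (nat_lit 2) (nat_lit 0xc5018e) (nat_lit 0)))) (N (nat_lit 200) (L (E (nat_lit 3) (nat_lit 0x18a898c18c) (nat_lit 0))) (L (E (nat_lit 0) (nat_lit 0x0) (nat_lit 0))))) (N (nat_lit 202) (L (E (nat_lit 2) (nat_lit 0x8381a0) (nat_lit 0))) (L (E (nat_lit 6) (nat_lit 0x6f81a20d006581f0098) (nat_lit 0))))))) (N (nat_lit 223) (N (nat_lit 209) (N (nat_lit 208) (N (nat_lit 206) (N (nat_lit 204) (L (E (nat_lit 2) (nat_lit 0x330194) (nat_lit 0))) (N (nat_lit 205) (L (E (nat_lit 2) (nat_lit 0x348196) (nat_lit 0))) (L (E (nat_lit 0) (nat_lit 0x0) (nat_lit 0))))) (N (nat_lit 207) (L (E (nat_lit 2) (nat_lit 0x2040a0) (nat_lit 0))) (L (E (nat_lit 2) (nat_lit 0xc7c42e) (nat_lit 0))))) (L (E (nat_lit 6) (nat_lit 0xc8038c0cf06503240a4)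 (nat_lit 0)))) (N (nat_lit 214) (N (nat_lit 212) (N (nat_lit 210) (L (E (nat_lit 3) (nat_lit 0x10c8340194) (nat_lit 0))) (N (nat_lit 211) (L (E (nat_lit 1) (nat_lit 0x4e4) (nat_lit 0))) (L (E (nat_lit 0) (nat_lit 0x0) (nat_lit 0))))) (N (nat_lit 213) (L (E (nat_lit 3) (nat_lit 0x13b03701aa) (nat_lit 0))) (L (E (nat_lit 0) (nat_lit 0x0) (nat_lit 0))))) (N (nat_lit 220) (N (nat_lit 216) (N (nat_lit 215) (L (E (nat_lit 1) (nat_lit 0x19e) (nat_lit 0))) (L (E (nat_lit 0) (nat_lit 0x0) (nat_lit 0)))) (N (nat_lit 218) (N (nat_lit 217) (L (E (nat_lit 0) (nat_lit 0x0) (nat_lit 0))) (L (E (nat_lit 0) (nat_lit 0x0) (nat_lit 0)))) (N (nat_lit 219) (L (E (nat_lit 0) (nat_lit 0x0) (nat_lit 0))) (L (E (nat_lit 0) (nat_lit 0x0) (nat_lit 0)))))) (N (nat_lit 222) (N (nat_lit 221) (L (E (nat_lit 0) (nat_lit 0x0) (nat_lit 0))) (L (E (nat_lit 0) (nat_lit 0x0) (nat_lit 0)))) (L (E (nat_lit 2) (nat_lit 0x7481be) (nat_lit 0)))))))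 (N (nat_lit 234) (N (nat_lit 227) (N (nat_lit 224) (L (E (nat_lit 6) (nat_lit 0xcbc50622b0e983801b0) (nat_lit 0))) (N (nat_lit 226) (N (nat_lit 225) (L (E (nat_lit 0) (nat_lit 0x0) (nat_lit 0))) (L (E (nat_lit 0) (nat_lit 0x0) (nat_lit 0)))) (L (E (nat_lit 1) (nat_lit 0x666) (nat_lit 0))))) (N (nat_lit 229) (N (nat_lit 228) (L (E (nat_lit 1) (nat_lit 0x668) (nat_lit 0))) (L (E (nat_lit 1) (nat_lit 0x242) (nat_lit 0)))) (N (nat_lit 230) (L (E (nat_lit 2) (nat_lit 0xa301c0) (nat_lit 0))) (N (nat_lit 232) (N (nat_lit 231) (L (E (nat_lit 0) (nat_lit 0x0) (nat_lit 0))) (L (E (nat_lit 0) (nat_lit 0x0) (nat_lit 0)))) (N (nat_lit 233) (L (E (nat_lit 0) (nat_lit 0x0) (nat_lit 0))) (L (E (nat_lit 0) (nat_lit 0x0) (nat_lit 0)))))))) (L (E (nat_lit 2) (nat_lit 0x8ec3b0) (nat_lit 0)))))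
def nb4 : RA := N (nat_lit 290) (N (nat_lit 286) (N (nat_lit 285) (L (E (nat_lit 0) (nat_lit 0x0) (nat_lit 0))) (L (E (nat_lit 9) (nat_lit 0x6fe2d614588a439c17106e821c0b6) (nat_lit 0)))) (N (nat_lit 289) (N (nat_lit 288) (N (nat_lit 287) (L (E (nat_lit 0) (nat_lit 0x0) (nat_lit 0))) (L (E (nat_lit 0) (nat_lit 0x0) (nat_lit 0)))) (L (E (nat_lit 0) (nat_lit 0x0) (nat_lit 0)))) (L (E (nat_lit 7) (nat_lit 0x1c40b785262300bc849c1c8) (nat_lit 0))))) (N (nat_lit 302) (N (nat_lit 293) (N (nat_lit 292) (N (nat_lit 291) (L (E (nat_lit 0) (nat_lit 0x0) (nat_lit 0))) (L (E (nat_lit 6) (nat_lit 0xe285c029511905ec1cc) (nat_lit 0)))) (L (E (nat_lit 0) (nat_lit 0x0) (nat_lit 0)))) (N (nat_lit 294) (L (E (nat_lit 4) (nat_lit 0x38e14b05f01d0) (nat_lit 0))) (N (nat_lit 298) (N (nat_lit 296) (N (nat_lit 295) (L (E (nat_lit 0) (nat_lit 0x0) (nat_lit 0))) (L (E (nat_lit 0) (nat_lit 0x0) (nat_lit 0)))) (N (nat_lit 297) (L (E (nat_lit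 0) (nat_lit 0x0) (nat_lit 0))) (L (E (nat_lit 0) (nat_lit 0x0) (nat_lit 0))))) (N (nat_lit 300) (N (nat_lit 299) (L (E (nat_lit 0) (nat_lit 0x0) (nat_lit 0))) (L (E (nat_lit 0) (nat_lit 0x0) (nat_lit 0)))) (N (nat_lit 301) (L (E (nat_lit 0) (nat_lit 0x0) (nat_lit 0))) (L (E (nat_lit 0) (nat_lit 0x0) (nat_lit 0)))))))) (N (nat_lit 323) (N (nat_lit 316) (N (nat_lit 315) (N (nat_lit 310) (N (nat_lit 307) (N (nat_lit 304) (N (nat_lit 303) (L (E (nat_lit 1) (nat_lit 0x34) (nat_lit 0))) (L (E (nat_lit 1) (nat_lit 0x480) (nat_lit 0)))) (N (nat_lit 306) (N (nat_lit 305) (L (E (nat_lit 0) (nat_lit 0x0) (nat_lit 0))) (L (E (nat_lit 0) (nat_lit 0x0) (nat_lit 0)))) (L (E (nat_lit 1) (nat_lit 0x488) (nat_lit 0))))) (N (nat_lit 308) (L (E (nat_lit 4) (nat_lit 0x2a10ee84ec070) (nat_lit 0))) (N (nat_lit 309) (L (E (nat_lit 0) (nat_lit 0x0) (nat_lit 0))) (L (E (nat_lit 4) (nat_lit 0x24909f04bc036) (nat_lit 0)))))) (N (nat_lit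 314) (N (nat_lit 312) (N (nat_lit 311) (L (E (nat_lit 2) (nat_lit 0x92812c) (nat_lit 0))) (L (E (nat_lit 0) (nat_lit 0x0) (nat_lit 0)))) (N (nat_lit 313) (L (E (nat_lit 1) (nat_lit 0x54e) (nat_lit 0))) (L (E (nat_lit 0) (nat_lit 0x0) (nat_lit 0))))) (L (E (nat_lit 5) (nat_lit 0x55224f0f1850c276) (nat_lit 0))))) (L (E (nat_lit 7) (nat_lit 0x1ca894028a13c09d04cc0c4) (nat_lit 0)))) (N (nat_lit 318) (N (nat_lit 317) (L (E (nat_lit 5) (nat_lit 0x55625109d80f803c) (nat_lit 0))) (L (E (nat_lit 8) (nat_lit 0x2ac129079830014709f019007e) (nat_lit 0)))) (N (nat_lit 319) (L (E (nat_lit 7) (nat_lit 0x156879c29014709e84d4080) (nat_lit 0))) (N (nat_lit 321) (N (nat_lit 320) (L (E (nat_lit 0) (nat_lit 0x0) (nat_lit 0))) (L (E (nat_lit 3) (nat_lit 0x15789543d2) (nat_lit 0)))) (N (nat_lit 322) (L (E (nat_lit 0) (nat_lit 0x0) (nat_lit 0))) (L (E (nat_lit 6) (nat_lit 0x95c3d814a0a18504082) (nat_lit 0)))))))) (N (nat_lit 327) (N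 (nat_lit 325) (N (nat_lit 324) (L (E (nat_lit 6) (nat_lit 0xac84b01ed0a104e80cc) (nat_lit 0))) (L (E (nat_lit 0) (nat_lit 0x0) (nat_lit 0)))) (N (nat_lit 326) (L (E (nat_lit 10) (nat_lit 0xe6c56825a0f7853829a13c09d81a0088) (nat_lit 0))) (L (E (nat_lit 0) (nat_lit 0x0) (nat_lit 0))))) (N (nat_lit 328) (L (E (nat_lit 9) (nat_lit 0x73a25c0a8053c29013e09e82600d4) (nat_lit 0))) (L (E (nat_lit 9) (nat_lit 0x56e1f20a8052428e13e035811c044) (nat_lit 0)))))))
def nb5 : RA := N (nat_lit 379) (N (nat_lit 374) (N (nat_lit 372) (L (E (nat_lit 5) (nat_lit 0x78a28d0bd05c82d6) (nat_lit 0))) (N (nat_lit 373) (L (E (nat_lit 0) (nat_lit 0x0) (nat_lit 0))) (L (E (nat_lit 1) (nat_lit 0x44a) (nat_lit 0))))) (N (nat_lit 377) (N (nat_lit 376) (N (nat_lit 375) (L (E (nat_lit 2) (nat_lit 0x5c02de) (nat_lit 0))) (L (E (nat_lit 5) (nat_lit 0x5c429111505d82e0) (nat_lit 0)))) (L (E (nat_lit 5) (nat_lit 0x7942e314908ac2e4) (nat_lit 0)))) (N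 (nat_lit 378) (L (E (nat_lit 0) (nat_lit 0x0) (nat_lit 0))) (L (E (nat_lit 3) (nat_lit 0x17585d02e6) (nat_lit 0)))))) (N (nat_lit 392) (N (nat_lit 389) (N (nat_lit 383) (N (nat_lit 382) (N (nat_lit 381) (N (nat_lit 380) (L (E (nat_lit 0) (nat_lit 0x0) (nat_lit 0))) (L (E (nat_lit 0) (nat_lit 0x0) (nat_lit 0)))) (L (E (nat_lit 0) (nat_lit 0x0) (nat_lit 0)))) (L (E (nat_lit 1) (nat_lit 0x542) (nat_lit 0)))) (N (nat_lit 386) (N (nat_lit 385) (N (nat_lit 384) (L (E (nat_lit 0) (nat_lit 0x0) (nat_lit 0))) (L (E (nat_lit 1) (nat_lit 0xd6) (nat_lit 0)))) (L (E (nat_lit 0) (nat_lit 0x0) (nat_lit 0)))) (N (nat_lit 388) (N (nat_lit 387) (L (E (nat_lit 0) (nat_lit 0x0) (nat_lit 0))) (L (E (nat_lit 0) (nat_lit 0x0) (nat_lit 0)))) (L (E (nat_lit 0) (nat_lit 0x0) (nat_lit 0)))))) (N (nat_lit 390) (L (E (nat_lit 1) (nat_lit 0x5d0) (nat_lit 0))) (N (nat_lit 391) (L (E (nat_lit 0) (nat_lit 0x0) (nat_lit 0))) (L (E (nat_lit 0)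 (nat_lit 0x0) (nat_lit 0)))))) (N (nat_lit 404) (N (nat_lit 397) (N (nat_lit 395) (N (nat_lit 394) (N (nat_lit 393) (L (E (nat_lit 0) (nat_lit 0x0) (nat_lit 0))) (L (E (nat_lit 1) (nat_lit 0x5a) (nat_lit 0)))) (L (E (nat_lit 0) (nat_lit 0x0) (nat_lit 0)))) (N (nat_lit 396) (L (E (nat_lit 1) (nat_lit 0x7b2) (nat_lit 0))) (L (E (nat_lit 0) (nat_lit 0x0) (nat_lit 0))))) (N (nat_lit 401) (N (nat_lit 399) (N (nat_lit 398) (L (E (nat_lit 0) (nat_lit 0x0) (nat_lit 0))) (L (E (nat_lit 0) (nat_lit 0x0) (nat_lit 0)))) (N (nat_lit 400) (L (E (nat_lit 0) (nat_lit 0x0) (nat_lit 0))) (L (E (nat_lit 0) (nat_lit 0x0) (nat_lit 0))))) (N (nat_lit 403) (N (nat_lit 402) (L (E (nat_lit 0) (nat_lit 0x0) (nat_lit 0))) (L (E (nat_lit 0) (nat_lit 0x0) (nat_lit 0)))) (L (E (nat_lit 0) (nat_lit 0x0) (nat_lit 0)))))) (N (nat_lit 407) (N (nat_lit 406) (N (nat_lit 405) (L (E (nat_lit 1) (nat_lit 0x60) (nat_lit 0))) (L (E (nat_lit 0) (nat_lit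 0x0) (nat_lit 0)))) (L (E (nat_lit 2) (nat_lit 0xf6c63a) (nat_lit 0)))) (N (nat_lit 409) (N (nat_lit 408) (L (E (nat_lit 1) (nat_lit 0x64e) (nat_lit 0))) (L (E (nat_lit 1) (nat_lit 0x7be) (nat_lit 0)))) (N (nat_lit 411) (N (nat_lit 410) (L (E (nat_lit 1) (nat_lit 0x678) (nat_lit 0))) (L (E (nat_lit 0) (nat_lit 0x0) (nat_lit 0)))) (N (nat_lit 412) (L (E (nat_lit 0) (nat_lit 0x0) (nat_lit 0))) (L (E (nat_lit 0) (nat_lit 0x0) (nat_lit 0)))))))))
def nb6 : RA := N (nat_lit 352) (N (nat_lit 340) (N (nat_lit 334) (N (nat_lit 333) (N (nat_lit 332) (N (nat_lit 330) (L (E (nat_lit 5) (nat_lit 0x4bc1520a401b0046) (nat_lit 0))) (N (nat_lit 331) (L (E (nat_lit 0) (nat_lit 0x0) (nat_lit 0))) (L (E (nat_lit 1) (nat_lit 0x202) (nat_lit 0))))) (L (E (nat_lit 9) (nat_lit 0x7462bc13187e03041550aa0534094) (nat_lit 0)))) (L (E (nat_lit 7) (nat_lit 0x1d209902ac1550a7053028a) (nat_lit 0)))) (N (nat_lit 335) (L (E (nat_lit 11) (nat_lit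 0x1d28af84ca1fa0c1855829e14d0a282380e0) (nat_lit 0))) (N (nat_lit 336) (L (E (nat_lit 11) (nat_lit 0x1d30afc4cc1fb0ac054029c1470478130048) (nat_lit 0))) (N (nat_lit 337) (L (E (nat_lit 8) (nat_lit 0x2c013387f02b014f0a4051c04a) (nat_lit 0))) (N (nat_lit 339) (N (nat_lit 338) (L (E (nat_lit 0) (nat_lit 0x0) (nat_lit 0))) (L (E (nat_lit 3) (nat_lit 0xff0568292) (nat_lit 0)))) (L (E (nat_lit 0) (nat_lit 0x0) (nat_lit 0)))))))) (N (nat_lit 343) (N (nat_lit 342) (N (nat_lit 341) (L (E (nat_lit 4) (nat_lit 0x2020ae0554298) (nat_lit 0))) (L (E (nat_lit 11) (nat_lit 0x1d50b184dc2030ae85582a814d0a601d00a0) (nat_lit 0)))) (L (E (nat_lit 10) (nat_lit 0xeac58e26f102057c2aa14e0a6814404e) (nat_lit 0)))) (N (nat_lit 346) (N (nat_lit 345) (N (nat_lit 344) (L (E (nat_lit 0) (nat_lit 0x0) (nat_lit 0))) (L (E (nat_lit 8) (nat_lit 0x3ad16489c42c21600ac854029e) (nat_lit 0)))) (L (E (nat_lit 9) (nat_lit 0x75c2070b105842b41580a801dc050)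 (nat_lit 0)))) (N (nat_lit 350) (N (nat_lit 349) (N (nat_lit 348) (N (nat_lit 347) (L (E (nat_lit 4) (nat_lit 0x2730b10564136) (nat_lit 0))) (L (E (nat_lit 0) (nat_lit 0x0) (nat_lit 0)))) (L (E (nat_lit 4) (nat_lit 0x2cc10585500aa) (nat_lit 0)))) (L (E (nat_lit 6) (nat_lit 0xb344ee20c0b385702aa) (nat_lit 0)))) (N (nat_lit 351) (L (E (nat_lit 1) (nat_lit 0x220) (nat_lit 0))) (L (E (nat_lit 6) (nat_lit 0x9e441c1690b405802ac) (nat_lit 0)))))))) (N (nat_lit 361) (N (nat_lit 355) (N (nat_lit 353) (L (E (nat_lit 9) (nat_lit 0x76a2d013d083c2d21610af85600f8) (nat_lit 0))) (N (nat_lit 354) (L (E (nat_lit 11) (nat_lit 0x1db0ba04f62100b585882c01590ac024c0fa) (nat_lit 0))) (L (E (nat_lit 7) (nat_lit 0x16909f042216b0b085682b2) (nat_lit 0))))) (N (nat_lit 360) (N (nat_lit 359) (N (nat_lit 357) (N (nat_lit 356) (L (E (nat_lit 0) (nat_lit 0x0) (nat_lit 0))) (L (E (nat_lit 0) (nat_lit 0x0) (nat_lit 0)))) (N (nat_lit 358) (L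 (E (nat_lit 3) (nat_lit 0x16a08500b4) (nat_lit 0))) (L (E (nat_lit 0) (nat_lit 0x0) (nat_lit 0))))) (L (E (nat_lit 8) (nat_lit 0x3ba14088582e016f0b40574102) (nat_lit 0)))) (L (E (nat_lit 10) (nat_lit 0xeec5ae28210b85c02d21670af82080b8) (nat_lit 0))))) (N (nat_lit 371) (N (nat_lit 364) (N (nat_lit 362) (L (E (nat_lit 10) (nat_lit 0xef05d22d814188602e41680b0057c0ba) (nat_lit 0))) (N (nat_lit 363) (L (E (nat_lit 0) (nat_lit 0x0) (nat_lit 0))) (L (E (nat_lit 8) (nat_lit 0x3be16d0a142e81730b1058410a) (nat_lit 0))))) (N (nat_lit 370) (N (nat_lit 368) (N (nat_lit 367) (N (nat_lit 366) (N (nat_lit 365) (L (E (nat_lit 0) (nat_lit 0x0) (nat_lit 0))) (L (E (nat_lit 2) (nat_lit 0xba82ea) (nat_lit 0)))) (L (E (nat_lit 0) (nat_lit 0x0) (nat_lit 0)))) (L (E (nat_lit 4) (nat_lit 0x3c110f85d82e0) (nat_lit 0)))) (N (nat_lit 369) (L (E (nat_lit 6) (nat_lit 0xf084401760b785a02ce) (nat_lit 0))) (L (E (nat_lit 0) (nat_lit 0x0) (nat_lit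 0))))) (L (E (nat_lit 8) (nat_lit 0x3c416f8a304441780b985a40be) (nat_lit 0))))) (nb5)))
def nb7 : RA := N (nat_lit 452) (N (nat_lit 430) (N (nat_lit 425) (N (nat_lit 419) (N (nat_lit 415) (N (nat_lit 414) (L (E (nat_lit 4) (nat_lit 0x3451838678338) (nat_lit 0))) (L (E (nat_lit 2) (nat_lit 0x69433a) (nat_lit 0)))) (N (nat_lit 416) (L (E (nat_lit 4) (nat_lit 0x3470f3069c340) (nat_lit 0))) (N (nat_lit 418) (N (nat_lit 417) (L (E (nat_lit 0) (nat_lit 0x0) (nat_lit 0))) (L (E (nat_lit 0) (nat_lit 0x0) (nat_lit 0)))) (L (E (nat_lit 1) (nat_lit 0x3d8) (nat_lit 0)))))) (N (nat_lit 423) (N (nat_lit 421) (N (nat_lit 420) (L (E (nat_lit 2) (nat_lit 0xd34618) (nat_lit 0))) (L (E (nat_lit 0) (nat_lit 0x0) (nat_lit 0)))) (N (nat_lit 422) (L (E (nat_lit 5) (nat_lit 0x69e30e17907bc33c) (nat_lit 0))) (L (E (nat_lit 0) (nat_lit 0x0) (nat_lit 0))))) (N (nat_lit 424) (L (E (nat_lit 4) (nat_lit 0x3100d786b833e) (nat_lit 0))) (L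 (E (nat_lit 0) (nat_lit 0x0) (nat_lit 0)))))) (N (nat_lit 428) (N (nat_lit 427) (N (nat_lit 426) (L (E (nat_lit 3) (nat_lit 0x1a98c48350) (nat_lit 0))) (L (E (nat_lit 0) (nat_lit 0x0) (nat_lit 0)))) (L (E (nat_lit 9) (nat_lit 0x6ae2ed0fc06cc3641ac0c982dc144) (nat_lit 0)))) (N (nat_lit 429) (L (E (nat_lit 6) (nat_lit 0xd6062c1b40d986b4356) (nat_lit 0))) (L (E (nat_lit 5) (nat_lit 0x6b21b40d60694172) (nat_lit 0)))))) (N (nat_lit 439) (N (nat_lit 436) (N (nat_lit 435) (N (nat_lit 433) (N (nat_lit 431) (L (E (nat_lit 2) (nat_lit 0x6d8174) (nat_lit 0))) (N (nat_lit 432) (L (E (nat_lit 4) (nat_lit 0x35b0db069c176) (nat_lit 0))) (L (E (nat_lit 0) (nat_lit 0x0) (nat_lit 0))))) (N (nat_lit 434) (L (E (nat_lit 1) (nat_lit 0x5dc) (nat_lit 0))) (L (E (nat_lit 3) (nat_lit 0x1f00c74356) (nat_lit 0))))) (L (E (nat_lit 4) (nat_lit 0x36018f06b0180) (nat_lit 0)))) (N (nat_lit 438) (N (nat_lit 437) (L (E (nat_lit 1) (nat_lit 0x358)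 (nat_lit 0))) (L (E (nat_lit 0) (nat_lit 0x0) (nat_lit 0)))) (L (E (nat_lit 7) (nat_lit 0x1b18c8437e1be0db86bc35c) (nat_lit 0))))) (N (nat_lit 446) (N (nat_lit 444) (N (nat_lit 440) (L (E (nat_lit 3) (nat_lit 0x1b206d835e) (nat_lit 0))) (N (nat_lit 443) (N (nat_lit 442) (N (nat_lit 441) (L (E (nat_lit 0) (nat_lit 0x0) (nat_lit 0))) (L (E (nat_lit 0) (nat_lit 0x0) (nat_lit 0)))) (L (E (nat_lit 0) (nat_lit 0x0) (nat_lit 0)))) (L (E (nat_lit 2) (nat_lit 0x830388) (nat_lit 0))))) (N (nat_lit 445) (L (E (nat_lit 0) (nat_lit 0x0) (nat_lit 0))) (L (E (nat_lit 4) (nat_lit 0x3270e3071437c) (nat_lit 0))))) (N (nat_lit 448) (N (nat_lit 447) (L (E (nat_lit 4) (nat_lit 0x36d0df86f4194) (nat_lit 0))) (L (E (nat_lit 4) (nat_lit 0x32910806f836c) (nat_lit 0)))) (N (nat_lit 450) (N (nat_lit 449) (L (E (nat_lit 2) (nat_lit 0xdbc390) (nat_lit 0))) (L (E (nat_lit 0) (nat_lit 0x0) (nat_lit 0)))) (N (nat_lit 451) (L (E (nat_lit 1)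 (nat_lit 0x428) (nat_lit 0))) (L (E (nat_lit 0) (nat_lit 0x0) (nat_lit 0))))))))) (N (nat_lit 471) (N (nat_lit 461) (N (nat_lit 454) (N (nat_lit 453) (L (E (nat_lit 6) (nat_lit 0xdd065a2160e286ec14e) (nat_lit 0))) (L (E (nat_lit 9) (nat_lit 0x7cc32e17d885c39a1c60e206f419e) (nat_lit 0)))) (N (nat_lit 457) (N (nat_lit 456) (N (nat_lit 455) (L (E (nat_lit 4) (nat_lit 0x37619786f41a0) (nat_lit 0))) (L (E (nat_lit 0) (nat_lit 0x0) (nat_lit 0)))) (L (E (nat_lit 3) (nat_lit 0x1bc0740380) (nat_lit 0)))) (N (nat_lit 460) (N (nat_lit 459) (N (nat_lit 458) (L (E (nat_lit 0) (nat_lit 0x0) (nat_lit 0))) (L (E (nat_lit 0) (nat_lit 0x0) (nat_lit 0)))) (L (E (nat_lit 0) (nat_lit 0x0) (nat_lit 0)))) (L (E (nat_lit 3) (nat_lit 0x1998bc443e) (nat_lit 0)))))) (N (nat_lit 467) (N (nat_lit 464) (N (nat_lit 463) (N (nat_lit 462) (L (E (nat_lit 2) (nat_lit 0xcd0440) (nat_lit 0))) (L (E (nat_lit 1) (nat_lit 0x23a) (nat_lit 0)))) (L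 (E (nat_lit 4) (nat_lit 0x380111074038c) (nat_lit 0)))) (N (nat_lit 466) (N (nat_lit 465) (L (E (nat_lit 3) (nat_lit 0x1f50e0439e) (nat_lit 0))) (L (E (nat_lit 0) (nat_lit 0x0) (nat_lit 0)))) (L (E (nat_lit 4) (nat_lit 0x386115074c1bc) (nat_lit 0))))) (N (nat_lit 470) (N (nat_lit 468) (L (E (nat_lit 5) (nat_lit 0x70e33a11587481be) (nat_lit 0))) (N (nat_lit 469) (L (E (nat_lit 0) (nat_lit 0x0) (nat_lit 0))) (L (E (nat_lit 1) (nat_lit 0x470) (nat_lit 0))))) (L (E (nat_lit 5) (nat_lit 0x68230011c866425c) (nat_lit 0)))))) (N (nat_lit 477) (N (nat_lit 476) (N (nat_lit 474) (N (nat_lit 472) (L (E (nat_lit 2) (nat_lit 0xd0825e) (nat_lit 0))) (N (nat_lit 473) (L (E (nat_lit 0) (nat_lit 0x0) (nat_lit 0))) (L (E (nat_lit 1) (nat_lit 0x262) (nat_lit 0))))) (N (nat_lit 475) (L (E (nat_lit 2) (nat_lit 0x27c06c) (nat_lit 0))) (L (E (nat_lit 2) (nat_lit 0xd1447c) (nat_lit 0))))) (L (E (nat_lit 7) (nat_lit 0x1a30c0447e1e30ee828006e)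 (nat_lit 0)))) (L (E (nat_lit 10) (nat_lit 0xd1c6042400f287783b81d609982a0070) (nat_lit 0)))))
def nb8 : RA := N (nat_lit 284) (N (nat_lit 272) (N (nat_lit 263) (N (nat_lit 257) (N (nat_lit 256) (N (nat_lit 255) (L (E (nat_lit 0) (nat_lit 0x0) (nat_lit 0))) (L (E (nat_lit 0) (nat_lit 0x0) (nat_lit 0)))) (L (E (nat_lit 7) (nat_lit 0x1aa0ab84be1fd05e024402e) (nat_lit 0)))) (N (nat_lit 258) (L (E (nat_lit 7) (nat_lit 0x1ab0ac04c42000d5052c0da) (nat_lit 0))) (N (nat_lit 261) (N (nat_lit 260) (N (nat_lit 259) (L (E (nat_lit 0) (nat_lit 0x0) (nat_lit 0))) (L (E (nat_lit 0) (nat_lit 0x0) (nat_lit 0)))) (L (E (nat_lit 0) (nat_lit 0x0) (nat_lit 0)))) (N (nat_lit 262) (L (E (nat_lit 0) (nat_lit 0x0) (nat_lit 0))) (L (E (nat_lit 0) (nat_lit 0x0) (nat_lit 0))))))) (N (nat_lit 264) (L (E (nat_lit 9) (nat_lit 0x6b82b6134081836015106181c808c) (nat_lit 0))) (N (nat_lit 268) (N (nat_lit 266) (N (nat_lit 265) (L (E (nat_lit 0)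 (nat_lit 0x0) (nat_lit 0))) (L (E (nat_lit 0) (nat_lit 0x0) (nat_lit 0)))) (N (nat_lit 267) (L (E (nat_lit 0) (nat_lit 0x0) (nat_lit 0))) (L (E (nat_lit 0) (nat_lit 0x0) (nat_lit 0))))) (N (nat_lit 270) (N (nat_lit 269) (L (E (nat_lit 0) (nat_lit 0x0) (nat_lit 0))) (L (E (nat_lit 0) (nat_lit 0x0) (nat_lit 0)))) (N (nat_lit 271) (L (E (nat_lit 0) (nat_lit 0x0) (nat_lit 0))) (L (E (nat_lit 0) (nat_lit 0x0) (nat_lit 0)))))))) (N (nat_lit 278) (N (nat_lit 273) (L (E (nat_lit 9) (nat_lit 0x6d62c513c085437815e06681ec09e) (nat_lit 0))) (N (nat_lit 276) (N (nat_lit 275) (N (nat_lit 274) (L (E (nat_lit 0) (nat_lit 0x0) (nat_lit 0))) (L (E (nat_lit 0) (nat_lit 0x0) (nat_lit 0)))) (L (E (nat_lit 0) (nat_lit 0x0) (nat_lit 0)))) (N (nat_lit 277) (L (E (nat_lit 0) (nat_lit 0x0) (nat_lit 0))) (L (E (nat_lit 0) (nat_lit 0x0) (nat_lit 0)))))) (N (nat_lit 283) (N (nat_lit 279) (L (E (nat_lit 8) (nat_lit 0x37116589f843616406981fc0a8)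 (nat_lit 0))) (N (nat_lit 280) (L (E (nat_lit 6) (nat_lit 0xdcc50021d0e18598100) (nat_lit 0))) (N (nat_lit 282) (N (nat_lit 281) (L (E (nat_lit 0) (nat_lit 0x0) (nat_lit 0))) (L (E (nat_lit 0) (nat_lit 0x0) (nat_lit 0)))) (L (E (nat_lit 0) (nat_lit 0x0) (nat_lit 0)))))) (L (E (nat_lit 7) (nat_lit 0x1bc8b4450c2230e485b01b2) (nat_lit 0)))))) (N (nat_lit 329) (nb4) (N (nat_lit 413) (nb6) (N (nat_lit 478) (nb7) (N (nat_lit 486) (N (nat_lit 485) (N (nat_lit 483) (N (nat_lit 481) (N (nat_lit 480) (N (nat_lit 479) (L (E (nat_lit 0) (nat_lit 0x0) (nat_lit 0))) (L (E (nat_lit 2) (nat_lit 0x90826a) (nat_lit 0)))) (L (E (nat_lit 2) (nat_lit 0xd2826c) (nat_lit 0)))) (N (nat_lit 482) (L (E (nat_lit 3) (nat_lit 0x1a68914074) (nat_lit 0))) (L (E (nat_lit 0) (nat_lit 0x0) (nat_lit 0))))) (N (nat_lit 484) (L (E (nat_lit 10) (nat_lit 0xd3c60c2470f707b43c41dc09d02a4078) (nat_lit 0))) (L (E (nat_lit 0) (nat_lit 0x0) (nat_lit 0)))))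 (L (E (nat_lit 13) (nat_lit 0x72c35118409243e01ef0f307783ba19e09e02a807c) (nat_lit 0)))) (N (nat_lit 488) (N (nat_lit 487) (L (E (nat_lit 10) (nat_lit 0xd484941f00f387943bc19f09e82ac07e) (nat_lit 0))) (L (E (nat_lit 7) (nat_lit 0x1a9892c3e41e60d004f8080) (nat_lit 0)))) (N (nat_lit 492) (N (nat_lit 490) (N (nat_lit 489) (L (E (nat_lit 0) (nat_lit 0x0) (nat_lit 0))) (L (E (nat_lit 2) (nat_lit 0x7d0280) (nat_lit 0)))) (N (nat_lit 491) (L (E (nat_lit 1) (nat_lit 0x6aa) (nat_lit 0))) (L (E (nat_lit 0) (nat_lit 0x0) (nat_lit 0))))) (L (E (nat_lit 11) (nat_lit 0x1cc0d5c61624f0fb07b43c41a20a10288082) (nat_lit 0)))))))))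
def nb9 : RA := N (nat_lit 517) (N (nat_lit 507) (N (nat_lit 502) (N (nat_lit 496) (N (nat_lit 495) (N (nat_lit 494) (L (E (nat_lit 9) (nat_lit 0x6b030c12807e03d81e30f1068c286) (nat_lit 0))) (L (E (nat_lit 10) (nat_lit 0xe686b230d12887e03de1ed0f182bc086) (nat_lit 0)))) (L (E (nat_lit 12) (nat_lit 0x39b1ad0c384a41fa0f807b83ca1a50a282c0088) (nat_lit 0)))) (N (nat_lit 498) (N (nat_lit 497) (L (E (nat_lit 10) (nat_lit 0xe706b630f12987ec3f41ef0f30794162) (nat_lit 0))) (L (E (nat_lit 1) (nat_lit 0x1f4) (nat_lit 0)))) (N (nat_lit 499) (L (E (nat_lit 10) (nat_lit 0xd744aa1fc0f987a03ce1a80a402cc08e) (nat_lit 0))) (N (nat_lit 500) (L (E (nat_lit 6) (nat_lit 0xc484ac1f20f40524090) (nat_lit 0))) (N (nat_lit 501) (L (E (nat_lit 0) (nat_lit 0x0) (nat_lit 0))) (L (E (nat_lit 0) (nat_lit 0x0) (nat_lit 0)))))))) (N (nat_lit 505) (N (nat_lit 504) (N (nat_lit 503) (L (E (nat_lit 8) (nat_lit 0x3a11af8c4c4b02010f6052816a) (nat_lit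 0))) (L (E (nat_lit 1) (nat_lit 0x1f8) (nat_lit 0)))) (L (E (nat_lit 12) (nat_lit 0x3a31b08c544b420310107b83da1ab0a602dc094) (nat_lit 0)))) (N (nat_lit 506) (L (E (nat_lit 1) (nat_lit 0x1fa) (nat_lit 0))) (L (E (nat_lit 12) (nat_lit 0x3a51b18c5c4b820510207ec3e01ef0d68538172) (nat_lit 0)))))) (N (nat_lit 514) (N (nat_lit 508) (L (E (nat_lit 10) (nat_lit 0xe986c831812e88143f81fa0f806b829e) (nat_lit 0))) (N (nat_lit 509) (L (E (nat_lit 10) (nat_lit 0xe9c6ca31912f081c3f61f20d78540176) (nat_lit 0))) (N (nat_lit 513) (N (nat_lit 511) (N (nat_lit 510) (L (E (nat_lit 0) (nat_lit 0x0) (nat_lit 0))) (L (E (nat_lit 2) (nat_lit 0xea42a4) (nat_lit 0)))) (N (nat_lit 512) (L (E (nat_lit 0) (nat_lit 0x0) (nat_lit 0))) (L (E (nat_lit 0) (nat_lit 0x0) (nat_lit 0))))) (L (E (nat_lit 11) (nat_lit 0x1b50bcc4c620b105080836215305f028c09c) (nat_lit 0)))))) (N (nat_lit 516) (N (nat_lit 515) (L (E (nat_lit 12) (nat_lit 0x3f218e8bd04c820c105880c4021f80aa02fc148)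 (nat_lit 0))) (L (E (nat_lit 13) (nat_lit 0x75436c18f099441820410107e036615506002940a0) (nat_lit 0)))) (L (E (nat_lit 12) (nat_lit 0x3ab1b68c7c4cc20e102880c3f41b40ab03040a2) (nat_lit 0)))))) (N (nat_lit 533) (N (nat_lit 526) (N (nat_lit 523) (N (nat_lit 518) (L (E (nat_lit 13) (nat_lit 0x75836e1900bd44ce20f10708103f61fa06102980a4) (nat_lit 0))) (N (nat_lit 520) (N (nat_lit 519) (L (E (nat_lit 1) (nat_lit 0x20e) (nat_lit 0))) (L (E (nat_lit 11) (nat_lit 0x1d70dc064426910888404101fc0db8564188) (nat_lit 0)))) (N (nat_lit 522) (N (nat_lit 521) (L (E (nat_lit 4) (nat_lit 0x3af13506e02b4) (nat_lit 0))) (L (E (nat_lit 2) (nat_lit 0xec02b6) (nat_lit 0)))) (L (E (nat_lit 5) (nat_lit 0x4da2141058804372) (nat_lit 0)))))) (N (nat_lit 524) (L (E (nat_lit 12) (nat_lit 0x37417b09b842820c10508084021ba0ae03180aa) (nat_lit 0))) (N (nat_lit 525) (L (E (nat_lit 12) (nat_lit 0x3b21ba8c944de216105880c4041bb0ae831c0ac) (nat_lit 0)))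 (L (E (nat_lit 0) (nat_lit 0x0) (nat_lit 0)))))) (N (nat_lit 528) (N (nat_lit 527) (L (E (nat_lit 13) (nat_lit 0x7e83b41938bdc4e221810b883c40a2040de857c192) (nat_lit 0))) (L (E (nat_lit 12) (nat_lit 0x3b51bc0ca04e421910c084041c2050df0580194) (nat_lit 0)))) (N (nat_lit 530) (N (nat_lit 529) (L (E (nat_lit 11) (nat_lit 0x1db0ca44e621a10c884441e2070df8584196) (nat_lit 0))) (L (E (nat_lit 10) (nat_lit 0xedc6f432a13a08684202070e00588198) (nat_lit 0)))) (N (nat_lit 532) (N (nat_lit 531) (L (E (nat_lit 3) (nat_lit 0x1bd858c0b2) (nat_lit 0))) (L (E (nat_lit 4) (nat_lit 0x3f51be0be04ec) (nat_lit 0)))) (L (E (nat_lit 8) (nat_lit 0x37d19589dc43c20b10507082ca) (nat_lit 0))))))) (N (nat_lit 538) (N (nat_lit 536) (N (nat_lit 535) (N (nat_lit 534) (L (E (nat_lit 1) (nat_lit 0x220) (nat_lit 0))) (L (E (nat_lit 10) (nat_lit 0xee865a279110087c42e20c0e2059c19c) (nat_lit 0)))) (L (E (nat_lit 12) (nat_lit 0x3bb1c00cb84f422010c085841c1c50b4033c0b8)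 (nat_lit 0)))) (N (nat_lit 537) (L (E (nat_lit 13) (nat_lit 0x77838119789ec44421910b883c41c1c60b483400ba) (nat_lit 0))) (L (E (nat_lit 12) (nat_lit 0x3f71de8e086602fa13e0888434218108083c1a2) (nat_lit 0))))) (N (nat_lit 543) (N (nat_lit 542) (N (nat_lit 539) (L (E (nat_lit 7) (nat_lit 0x1df0e0c4fa21110807202d6) (nat_lit 0))) (N (nat_lit 540) (L (E (nat_lit 1) (nat_lit 0x22c) (nat_lit 0))) (N (nat_lit 541) (L (E (nat_lit 2) (nat_lit 0x9fc44c) (nat_lit 0))) (L (E (nat_lit 0) (nat_lit 0x0) (nat_lit 0)))))) (L (E (nat_lit 9) (nat_lit 0x7803851990a0445021f10a05b81a8) (nat_lit 0)))) (N (nat_lit 544) (L (E (nat_lit 10) (nat_lit 0xf0470c333141088043c2160e605bc1aa) (nat_lit 0))) (N (nat_lit 545) (L (E (nat_lit 12) (nat_lit 0x3c21c38cd050622a10f885c42c1cd0b803580bc) (nat_lit 0))) (L (E (nat_lit 0) (nat_lit 0x0) (nat_lit 0))))))))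
def nb10 : RA := N (nat_lit 557) (N (nat_lit 554) (N (nat_lit 547) (L (E (nat_lit 12) (nat_lit 0x3c41c48cd850a22c11588644301cf0b903600be) (nat_lit 0))) (N (nat_lit 549) (N (nat_lit 548) (L (E (nat_lit 1) (nat_lit 0x236) (nat_lit 0))) (L (E (nat_lit 7) (nat_lit 0x1e30e2c50e22d10d05d01b4) (nat_lit 0)))) (N (nat_lit 551) (N (nat_lit 550) (L (E (nat_lit 1) (nat_lit 0x2ea) (nat_lit 0))) (L (E (nat_lit 1) (nat_lit 0x438) (nat_lit 0)))) (N (nat_lit 552) (L (E (nat_lit 3) (nat_lit 0x1c60a24450) (nat_lit 0))) (N (nat_lit 553) (L (E (nat_lit 6) (nat_lit 0xfe871a2fc145089c43c) (nat_lit 0))) (L (E (nat_lit 0) (nat_lit 0x0) (nat_lit 0)))))))) (N (nat_lit 555) (L (E (nat_lit 8) (nat_lit 0x38f14608bc4562200e905dc1bc) (nat_lit 0))) (N (nat_lit 556) (L (E (nat_lit 8) (nat_lit 0x39014688b04542220e985e01be) (nat_lit 0))) (L (E (nat_lit 4) (nat_lit 0x3cb1c888ac444) (nat_lit 0)))))) (N (nat_lit 577) (N (nat_lit 574) (N (nat_lit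 560) (N (nat_lit 559) (N (nat_lit 558) (L (E (nat_lit 2) (nat_lit 0x8b0448) (nat_lit 0))) (L (E (nat_lit 3) (nat_lit 0x14888bc450) (nat_lit 0)))) (L (E (nat_lit 6) (nat_lit 0xe4c52423311708a81c6) (nat_lit 0)))) (N (nat_lit 564) (N (nat_lit 562) (N (nat_lit 561) (L (E (nat_lit 1) (nat_lit 0x242) (nat_lit 0))) (L (E (nat_lit 1) (nat_lit 0x458) (nat_lit 0)))) (N (nat_lit 563) (L (E (nat_lit 0) (nat_lit 0x0) (nat_lit 0))) (L (E (nat_lit 1) (nat_lit 0x45e) (nat_lit 0))))) (N (nat_lit 570) (N (nat_lit 569) (N (nat_lit 567) (N (nat_lit 566) (N (nat_lit 565) (L (E (nat_lit 0) (nat_lit 0x0) (nat_lit 0))) (L (E (nat_lit 0) (nat_lit 0x0) (nat_lit 0)))) (L (E (nat_lit 0) (nat_lit 0x0) (nat_lit 0)))) (N (nat_lit 568) (L (E (nat_lit 0) (nat_lit 0x0) (nat_lit 0))) (L (E (nat_lit 1) (nat_lit 0x5fc) (nat_lit 0))))) (L (E (nat_lit 2) (nat_lit 0xd043ac) (nat_lit 0)))) (N (nat_lit 571) (L (E (nat_lit 2) (nat_lit 0xd080c2) (nat_lit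 0))) (N (nat_lit 573) (N (nat_lit 572) (L (E (nat_lit 0) (nat_lit 0x0) (nat_lit 0))) (L (E (nat_lit 0) (nat_lit 0x0) (nat_lit 0)))) (L (E (nat_lit 0) (nat_lit 0x0) (nat_lit 0)))))))) (N (nat_lit 576) (N (nat_lit 575) (L (E (nat_lit 9) (nat_lit 0x72a34517f88fc46c17d09683b00c4) (nat_lit 0))) (L (E (nat_lit 10) (nat_lit 0xd1860029b123890047c1dc09702a80c6) (nat_lit 0)))) (L (E (nat_lit 7) (nat_lit 0x1a38a7049223f0ee84bc156) (nat_lit 0))))) (N (nat_lit 585) (N (nat_lit 583) (N (nat_lit 581) (N (nat_lit 580) (N (nat_lit 579) (N (nat_lit 578) (L (E (nat_lit 0) (nat_lit 0x0) (nat_lit 0))) (L (E (nat_lit 0) (nat_lit 0x0) (nat_lit 0)))) (L (E (nat_lit 1) (nat_lit 0x694) (nat_lit 0)))) (L (E (nat_lit 5) (nat_lit 0x73034c14f0914264) (nat_lit 0)))) (N (nat_lit 582) (L (E (nat_lit 3) (nat_lit 0x1a689183c2) (nat_lit 0))) (L (E (nat_lit 1) (nat_lit 0x48a) (nat_lit 0))))) (N (nat_lit 584) (L (E (nat_lit 10) (nat_lit 0xe6c69e2a1128894047e1e309982c00d0)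 (nat_lit 0))) (L (E (nat_lit 0) (nat_lit 0x0) (nat_lit 0))))) (L (E (nat_lit 11) (nat_lit 0x1ce8d444a625212509044801e50bf84d40d4) (nat_lit 0)))))
def nb11 : RA := N (nat_lit 602) (N (nat_lit 586) (nb10) (N (nat_lit 594) (N (nat_lit 592) (N (nat_lit 588) (N (nat_lit 587) (L (E (nat_lit 10) (nat_lit 0xe786a42a412589043cc18009b02cc0d6) (nat_lit 0))) (L (E (nat_lit 4) (nat_lit 0x35312a89283ce) (nat_lit 0)))) (N (nat_lit 591) (N (nat_lit 590) (N (nat_lit 589) (L (E (nat_lit 0) (nat_lit 0x0) (nat_lit 0))) (L (E (nat_lit 1) (nat_lit 0x54e) (nat_lit 0)))) (L (E (nat_lit 0) (nat_lit 0x0) (nat_lit 0)))) (L (E (nat_lit 12) (nat_lit 0x3a31ab8c18552258128091848a1ec09d02dc0dc) (nat_lit 0))))) (N (nat_lit 593) (L (E (nat_lit 11) (nat_lit 0x1d20d6060e25a128893c48e2460f684ec0de) (nat_lit 0))) (L (E (nat_lit 10) (nat_lit 0xe946b22ab12d09484a02470f704f0172) (nat_lit 0))))) (N (nat_lit 597) (N (nat_lit 595) (L (E (nat_lit 14) (nat_lit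 0xff474c35a1848ab04b825312889243de18109e82e80e2) (nat_lit 0))) (N (nat_lit 596) (L (E (nat_lit 9) (nat_lit 0x6b62ad12e89704a42490f804f8176) (nat_lit 0))) (L (E (nat_lit 1) (nat_lit 0x1f4) (nat_lit 0))))) (N (nat_lit 600) (N (nat_lit 598) (L (E (nat_lit 9) (nat_lit 0x6ba2af12f09304961f20a002f40e6) (nat_lit 0))) (N (nat_lit 599) (L (E (nat_lit 1) (nat_lit 0x3e6) (nat_lit 0))) (L (E (nat_lit 8) (nat_lit 0x35e1858ac44b024d0fa850817c) (nat_lit 0))))) (N (nat_lit 601) (L (E (nat_lit 9) (nat_lit 0x6be30c159098c4ae24f0fb050c17e) (nat_lit 0))) (L (E (nat_lit 1) (nat_lit 0x1f8) (nat_lit 0)))))))) (N (nat_lit 613) (N (nat_lit 606) (N (nat_lit 604) (N (nat_lit 603) (L (E (nat_lit 12) (nat_lit 0x3ab1b08ad04ca26412889403f01820a283040ea) (nat_lit 0))) (L (E (nat_lit 1) (nat_lit 0x1fa) (nat_lit 0)))) (N (nat_lit 605) (L (E (nat_lit 11) (nat_lit 0x2000eb46c631013389984ba25312907e828e) (nat_lit 0))) (L (E (nat_lit 12) (nat_lit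 0x3d01d70d9056e26712f09704a61fb0a403100ee) (nat_lit 0))))) (N (nat_lit 611) (N (nat_lit 607) (L (E (nat_lit 8) (nat_lit 0x3af1b28ae04d225d12a87f0292) (nat_lit 0))) (N (nat_lit 609) (N (nat_lit 608) (L (E (nat_lit 1) (nat_lit 0x200) (nat_lit 0))) (L (E (nat_lit 0) (nat_lit 0x0) (nat_lit 0)))) (N (nat_lit 610) (L (E (nat_lit 1) (nat_lit 0x294) (nat_lit 0))) (L (E (nat_lit 0) (nat_lit 0x0) (nat_lit 0)))))) (N (nat_lit 612) (L (E (nat_lit 11) (nat_lit 0x1b50c5457826e13689904b02010a6031c0f4) (nat_lit 0))) (L (E (nat_lit 9) (nat_lit 0x76631613789b84ca26312d080829a) (nat_lit 0)))))) (N (nat_lit 617) (N (nat_lit 614) (L (E (nat_lit 11) (nat_lit 0x1da0db062e2be13789984c825a1018538192) (nat_lit 0))) (N (nat_lit 615) (L (E (nat_lit 14) (nat_lit 0xf4476a36d18c0afc4e226713289704081840a783280f8) (nat_lit 0))) (N (nat_lit 616) (L (E (nat_lit 14) (nat_lit 0xf4876c36e18c8b004e427113309744b82050c28540196) (nat_lit 0))) (L (E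 (nat_lit 1) (nat_lit 0x20e) (nat_lit 0)))))) (N (nat_lit 623) (N (nat_lit 622) (N (nat_lit 620) (N (nat_lit 618) (L (E (nat_lit 9) (nat_lit 0x6e031b16109cc4bc2070c385480fc) (nat_lit 0))) (N (nat_lit 619) (L (E (nat_lit 3) (nat_lit 0x1e98820310) (nat_lit 0))) (L (E (nat_lit 0) (nat_lit 0x0) (nat_lit 0))))) (N (nat_lit 621) (L (E (nat_lit 4) (nat_lit 0x37218e0b104ec) (nat_lit 0))) (L (E (nat_lit 8) (nat_lit 0x3b918e89dc4ec26e13188282a8) (nat_lit 0))))) (L (E (nat_lit 14) (nat_lit 0x10107a837418f0b184ee26f13689904c620b0aa8338102) (nat_lit 0)))) (N (nat_lit 624) (L (E (nat_lit 13) (nat_lit 0x80a3bb1ba8c7c58e27913709944c820c0ab033c104) (nat_lit 0))) (N (nat_lit 625) (L (E (nat_lit 0) (nat_lit 0x0) (nat_lit 0))) (L (E (nat_lit 11) (nat_lit 0x1ea8ef459227b13d09c84ce26610705601a2) (nat_lit 0))))))))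
def nb12 : RA := N (nat_lit 681) (N (nat_lit 659) (N (nat_lit 658) (N (nat_lit 657) (N (nat_lit 656) (N (nat_lit 655) (L (E (nat_lit 3) (nat_lit 0x14a0a341ce) (nat_lit 0))) (L (E (nat_lit 2) (nat_lit 0xa1c45a) (nat_lit 0)))) (L (E (nat_lit 1) (nat_lit 0x670) (nat_lit 0)))) (L (E (nat_lit 6) (nat_lit 0xe486722e214908b82ee) (nat_lit 0)))) (L (E (nat_lit 7) (nat_lit 0x1c98ce85c629114608bc2f0) (nat_lit 0)))) (N (nat_lit 671) (N (nat_lit 661) (N (nat_lit 660) (L (E (nat_lit 1) (nat_lit 0x242) (nat_lit 0))) (L (E (nat_lit 2) (nat_lit 0xa382f4) (nat_lit 0)))) (N (nat_lit 668) (N (nat_lit 665) (N (nat_lit 663) (N (nat_lit 662) (L (E (nat_lit 0) (nat_lit 0x0) (nat_lit 0))) (L (E (nat_lit 1) (nat_lit 0x24a) (nat_lit 0)))) (N (nat_lit 664) (L (E (nat_lit 1) (nat_lit 0x466) (nat_lit 0))) (L (E (nat_lit 1) (nat_lit 0x532) (nat_lit 0))))) (N (nat_lit 667) (N (nat_lit 666) (L (E (nat_lit 1) (nat_lit 0x530) (nat_lit 0))) (L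 (E (nat_lit 0) (nat_lit 0x0) (nat_lit 0)))) (L (E (nat_lit 1) (nat_lit 0x47e) (nat_lit 0))))) (N (nat_lit 669) (L (E (nat_lit 3) (nat_lit 0x1a10a6c314) (nat_lit 0))) (N (nat_lit 670) (L (E (nat_lit 0) (nat_lit 0x0) (nat_lit 0))) (L (E (nat_lit 0) (nat_lit 0x0) (nat_lit 0))))))) (N (nat_lit 674) (N (nat_lit 673) (N (nat_lit 672) (L (E (nat_lit 0) (nat_lit 0x0) (nat_lit 0))) (L (E (nat_lit 2) (nat_lit 0xe68552) (nat_lit 0)))) (L (E (nat_lit 8) (nat_lit 0x39b1a38aac5442a012385f8266) (nat_lit 0)))) (N (nat_lit 677) (N (nat_lit 675) (L (E (nat_lit 3) (nat_lit 0x1ce0ab0542) (nat_lit 0))) (N (nat_lit 676) (L (E (nat_lit 0) (nat_lit 0x0) (nat_lit 0))) (L (E (nat_lit 1) (nat_lit 0x494) (nat_lit 0))))) (N (nat_lit 680) (N (nat_lit 679) (N (nat_lit 678) (L (E (nat_lit 0) (nat_lit 0x0) (nat_lit 0))) (L (E (nat_lit 0) (nat_lit 0x0) (nat_lit 0)))) (L (E (nat_lit 3) (nat_lit 0x1a68934270) (nat_lit 0)))) (L (E (nat_lit 1) (nat_lit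 0x1f8) (nat_lit 0)))))))) (N (nat_lit 691) (N (nat_lit 685) (N (nat_lit 684) (N (nat_lit 683) (N (nat_lit 682) (L (E (nat_lit 7) (nat_lit 0x1a78acc5642a014f893c274) (nat_lit 0))) (L (E (nat_lit 0) (nat_lit 0x0) (nat_lit 0)))) (L (E (nat_lit 7) (nat_lit 0x1d28d4456a2b41508944278) (nat_lit 0)))) (L (E (nat_lit 7) (nat_lit 0x1d30d4856a2ad151094827a) (nat_lit 0)))) (N (nat_lit 686) (L (E (nat_lit 8) (nat_lit 0x3a71a98adc5582a412984f8120) (nat_lit 0))) (N (nat_lit 690) (N (nat_lit 688) (N (nat_lit 687) (L (E (nat_lit 0) (nat_lit 0x0) (nat_lit 0))) (L (E (nat_lit 2) (nat_lit 0x954280) (nat_lit 0)))) (N (nat_lit 689) (L (E (nat_lit 0) (nat_lit 0x0) (nat_lit 0))) (L (E (nat_lit 1) (nat_lit 0x6ae) (nat_lit 0))))) (L (E (nat_lit 6) (nat_lit 0xaf05762b31548960286) (nat_lit 0)))))) (N (nat_lit 694) (N (nat_lit 692) (L (E (nat_lit 5) (nat_lit 0x75435915e0ac8552) (nat_lit 0))) (N (nat_lit 693) (L (E (nat_lit 4) (nat_lit 0x3ab15a8aac28a)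 (nat_lit 0))) (L (E (nat_lit 7) (nat_lit 0x1d60d6c57e2be15a0ab0556) (nat_lit 0))))) (N (nat_lit 699) (N (nat_lit 696) (N (nat_lit 695) (L (E (nat_lit 0) (nat_lit 0x0) (nat_lit 0))) (L (E (nat_lit 4) (nat_lit 0x35d1600974290) (nat_lit 0)))) (N (nat_lit 698) (N (nat_lit 697) (L (E (nat_lit 0) (nat_lit 0x0) (nat_lit 0))) (L (E (nat_lit 0) (nat_lit 0x0) (nat_lit 0)))) (L (E (nat_lit 2) (nat_lit 0xb10586) (nat_lit 0))))) (L (E (nat_lit 4) (nat_lit 0x36015e0ac8562) (nat_lit 0))))))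
def nb13 : RA := N (nat_lit 714) (N (nat_lit 711) (N (nat_lit 704) (N (nat_lit 703) (N (nat_lit 701) (L (E (nat_lit 6) (nat_lit 0xec85762b3159098c298) (nat_lit 0))) (N (nat_lit 702) (L (E (nat_lit 0) (nat_lit 0x0) (nat_lit 0))) (L (E (nat_lit 6) (nat_lit 0xb2058e2bf15a899429c) (nat_lit 0))))) (L (E (nat_lit 7) (nat_lit 0x1da8d905902c015a899829e) (nat_lit 0)))) (N (nat_lit 706) (N (nat_lit 705) (L (E (nat_lit 7) (nat_lit 0x1b28b245822bf15b899c2a0) (nat_lit 0))) (L (E (nat_lit 6) (nat_lit 0xedc6cc2ca1610b00318) (nat_lit 0)))) (N (nat_lit 710) (N (nat_lit 708) (N (nat_lit 707) (L (E (nat_lit 0) (nat_lit 0x0) (nat_lit 0))) (L (E (nat_lit 0) (nat_lit 0x0) (nat_lit 0)))) (N (nat_lit 709) (L (E (nat_lit 0) (nat_lit 0x0) (nat_lit 0))) (L (E (nat_lit 0) (nat_lit 0x0) (nat_lit 0))))) (L (E (nat_lit 7) (nat_lit 0x1b60b3859a2c715e09b82aa) (nat_lit 0)))))) (N (nat_lit 712) (L (E (nat_lit 8) (nat_lit 0x3bb1b68b385902c615f09bc2ac)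 (nat_lit 0))) (N (nat_lit 713) (L (E (nat_lit 7) (nat_lit 0x1de0db85a02c91638afc57c) (nat_lit 0))) (L (E (nat_lit 8) (nat_lit 0x3bd1640b0057e2710c686182b0) (nat_lit 0)))))) (N (nat_lit 724) (N (nat_lit 718) (N (nat_lit 717) (N (nat_lit 716) (N (nat_lit 715) (L (E (nat_lit 2) (nat_lit 0xb04580) (nat_lit 0))) (L (E (nat_lit 0) (nat_lit 0x0) (nat_lit 0)))) (L (E (nat_lit 6) (nat_lit 0xdd05aa2d416689d82b8) (nat_lit 0)))) (L (E (nat_lit 6) (nat_lit 0xb5459c2cc16309dc2ba) (nat_lit 0)))) (N (nat_lit 719) (L (E (nat_lit 5) (nat_lit 0x7843761668b1c58c) (nat_lit 0))) (N (nat_lit 721) (N (nat_lit 720) (L (E (nat_lit 0) (nat_lit 0x0) (nat_lit 0))) (L (E (nat_lit 4) (nat_lit 0x3d81e20b202c0) (nat_lit 0)))) (N (nat_lit 723) (N (nat_lit 722) (L (E (nat_lit 0) (nat_lit 0x0) (nat_lit 0))) (L (E (nat_lit 3) (nat_lit 0x1bd09f02c4) (nat_lit 0)))) (L (E (nat_lit 0) (nat_lit 0x0) (nat_lit 0))))))) (N (nat_lit 729) (N (nat_lit 728)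 (N (nat_lit 727) (N (nat_lit 725) (L (E (nat_lit 1) (nat_lit 0x2ca) (nat_lit 0))) (N (nat_lit 726) (L (E (nat_lit 2) (nat_lit 0xdf8598) (nat_lit 0))) (L (E (nat_lit 0) (nat_lit 0x0) (nat_lit 0))))) (L (E (nat_lit 6) (nat_lit 0xf247002d81670a082d0) (nat_lit 0)))) (L (E (nat_lit 5) (nat_lit 0x7022d916b8a0c2d2) (nat_lit 0)))) (N (nat_lit 736) (N (nat_lit 735) (N (nat_lit 730) (L (E (nat_lit 3) (nat_lit 0x1e58b7c5b0) (nat_lit 0))) (N (nat_lit 731) (L (E (nat_lit 2) (nat_lit 0xa142d6) (nat_lit 0))) (N (nat_lit 733) (N (nat_lit 732) (L (E (nat_lit 0) (nat_lit 0x0) (nat_lit 0))) (L (E (nat_lit 0) (nat_lit 0x0) (nat_lit 0)))) (N (nat_lit 734) (L (E (nat_lit 0) (nat_lit 0x0) (nat_lit 0))) (L (E (nat_lit 0) (nat_lit 0x0) (nat_lit 0))))))) (L (E (nat_lit 5) (nat_lit 0x7122d916c0a302e4) (nat_lit 0)))) (N (nat_lit 739) (N (nat_lit 738) (N (nat_lit 737) (L (E (nat_lit 0) (nat_lit 0x0) (nat_lit 0))) (L (E (nat_lit 1) (nat_lit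 0x2e8) (nat_lit 0)))) (L (E (nat_lit 2) (nat_lit 0xe3c2ee) (nat_lit 0)))) (N (nat_lit 741) (N (nat_lit 740) (L (E (nat_lit 0) (nat_lit 0x0) (nat_lit 0))) (L (E (nat_lit 0) (nat_lit 0x0) (nat_lit 0)))) (L (E (nat_lit 1) (nat_lit 0x740) (nat_lit 0))))))))
def nb14 : RA := N (nat_lit 757) (N (nat_lit 745) (N (nat_lit 744) (N (nat_lit 743) (L (E (nat_lit 1) (nat_lit 0x29c) (nat_lit 0))) (L (E (nat_lit 0) (nat_lit 0x0) (nat_lit 0)))) (L (E (nat_lit 4) (nat_lit 0x41d1eb86142c2) (nat_lit 0)))) (N (nat_lit 749) (N (nat_lit 748) (N (nat_lit 746) (L (E (nat_lit 1) (nat_lit 0x2d2) (nat_lit 0))) (N (nat_lit 747) (L (E (nat_lit 0) (nat_lit 0x0) (nat_lit 0))) (L (E (nat_lit 0) (nat_lit 0x0) (nat_lit 0))))) (L (E (nat_lit 1) (nat_lit 0x7ae) (nat_lit 0)))) (N (nat_lit 755) (N (nat_lit 752) (N (nat_lit 751) (N (nat_lit 750) (L (E (nat_lit 0) (nat_lit 0x0) (nat_lit 0))) (L (E (nat_lit 0) (nat_lit 0x0) (nat_lit 0)))) (L (E (nat_lit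 1) (nat_lit 0x13c) (nat_lit 0)))) (N (nat_lit 754) (N (nat_lit 753) (L (E (nat_lit 0) (nat_lit 0x0) (nat_lit 0))) (L (E (nat_lit 0) (nat_lit 0x0) (nat_lit 0)))) (L (E (nat_lit 0) (nat_lit 0x0) (nat_lit 0))))) (N (nat_lit 756) (L (E (nat_lit 0) (nat_lit 0x0) (nat_lit 0))) (L (E (nat_lit 2) (nat_lit 0xc58404) (nat_lit 0))))))) (N (nat_lit 780) (N (nat_lit 771) (N (nat_lit 766) (N (nat_lit 762) (N (nat_lit 761) (N (nat_lit 759) (N (nat_lit 758) (L (E (nat_lit 0) (nat_lit 0x0) (nat_lit 0))) (L (E (nat_lit 0) (nat_lit 0x0) (nat_lit 0)))) (N (nat_lit 760) (L (E (nat_lit 0) (nat_lit 0x0) (nat_lit 0))) (L (E (nat_lit 0) (nat_lit 0x0) (nat_lit 0))))) (L (E (nat_lit 2) (nat_lit 0xfd864c) (nat_lit 0)))) (N (nat_lit 764) (N (nat_lit 763) (L (E (nat_lit 0) (nat_lit 0x0) (nat_lit 0))) (L (E (nat_lit 0) (nat_lit 0x0) (nat_lit 0)))) (N (nat_lit 765) (L (E (nat_lit 0) (nat_lit 0x0) (nat_lit 0))) (L (E (nat_lit 0) (nat_lit 0x0)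 (nat_lit 0)))))) (N (nat_lit 770) (N (nat_lit 768) (N (nat_lit 767) (L (E (nat_lit 0) (nat_lit 0x0) (nat_lit 0))) (L (E (nat_lit 0) (nat_lit 0x0) (nat_lit 0)))) (N (nat_lit 769) (L (E (nat_lit 1) (nat_lit 0x682) (nat_lit 0))) (L (E (nat_lit 0) (nat_lit 0x0) (nat_lit 0))))) (L (E (nat_lit 2) (nat_lit 0xd1c160) (nat_lit 0))))) (N (nat_lit 776) (N (nat_lit 774) (N (nat_lit 773) (N (nat_lit 772) (L (E (nat_lit 0) (nat_lit 0x0) (nat_lit 0))) (L (E (nat_lit 0) (nat_lit 0x0) (nat_lit 0)))) (L (E (nat_lit 1) (nat_lit 0x618) (nat_lit 0)))) (N (nat_lit 775) (L (E (nat_lit 0) (nat_lit 0x0) (nat_lit 0))) (L (E (nat_lit 1) (nat_lit 0x33a) (nat_lit 0))))) (N (nat_lit 778) (N (nat_lit 777) (L (E (nat_lit 0) (nat_lit 0x0) (nat_lit 0))) (L (E (nat_lit 0) (nat_lit 0x0) (nat_lit 0)))) (N (nat_lit 779) (L (E (nat_lit 1) (nat_lit 0x324) (nat_lit 0))) (L (E (nat_lit 0) (nat_lit 0x0) (nat_lit 0))))))) (N (nat_lit 789) (N (nat_lit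 783) (N (nat_lit 782) (N (nat_lit 781) (L (E (nat_lit 1) (nat_lit 0x60a) (nat_lit 0))) (L (E (nat_lit 1) (nat_lit 0x180) (nat_lit 0)))) (L (E (nat_lit 1) (nat_lit 0x34a) (nat_lit 0)))) (N (nat_lit 785) (N (nat_lit 784) (L (E (nat_lit 1) (nat_lit 0x62e) (nat_lit 0))) (L (E (nat_lit 1) (nat_lit 0x4b8) (nat_lit 0)))) (N (nat_lit 787) (N (nat_lit 786) (L (E (nat_lit 0) (nat_lit 0x0) (nat_lit 0))) (L (E (nat_lit 0) (nat_lit 0x0) (nat_lit 0)))) (N (nat_lit 788) (L (E (nat_lit 0) (nat_lit 0x0) (nat_lit 0))) (L (E (nat_lit 0) (nat_lit 0x0) (nat_lit 0))))))) (N (nat_lit 790) (L (E (nat_lit 0) (nat_lit 0x0) (nat_lit 0))) (L (E (nat_lit 3) (nat_lit 0x18f0bd0358) (nat_lit 0))))))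
def nb15 : RA := N (nat_lit 815) (N (nat_lit 800) (N (nat_lit 797) (N (nat_lit 793) (N (nat_lit 792) (L (E (nat_lit 2) (nat_lit 0x7e835a) (nat_lit 0))) (L (E (nat_lit 2) (nat_lit 0xd9035c) (nat_lit 0)))) (N (nat_lit 795) (N (nat_lit 794) (L (E (nat_lit 1) (nat_lit 0x634) (nat_lit 0))) (L (E (nat_lit 1) (nat_lit 0x198) (nat_lit 0)))) (N (nat_lit 796) (L (E (nat_lit 0) (nat_lit 0x0) (nat_lit 0))) (L (E (nat_lit 0) (nat_lit 0x0) (nat_lit 0)))))) (N (nat_lit 798) (L (E (nat_lit 5) (nat_lit 0x7b632418e06c832c) (nat_lit 0))) (N (nat_lit 799) (L (E (nat_lit 0) (nat_lit 0x0) (nat_lit 0))) (L (E (nat_lit 3) (nat_lit 0x1b689bc19e) (nat_lit 0)))))) (N (nat_lit 809) (N (nat_lit 806) (N (nat_lit 802) (N (nat_lit 801) (L (E (nat_lit 0) (nat_lit 0x0) (nat_lit 0))) (L (E (nat_lit 1) (nat_lit 0x36c) (nat_lit 0)))) (N (nat_lit 804) (N (nat_lit 803) (L (E (nat_lit 2) (nat_lit 0xca8646) (nat_lit 0))) (L (E (nat_lit 0) (nat_lit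 0x0) (nat_lit 0)))) (N (nat_lit 805) (L (E (nat_lit 0) (nat_lit 0x0) (nat_lit 0))) (L (E (nat_lit 0) (nat_lit 0x0) (nat_lit 0)))))) (N (nat_lit 808) (N (nat_lit 807) (L (E (nat_lit 2) (nat_lit 0xc785f2) (nat_lit 0))) (L (E (nat_lit 2) (nat_lit 0x9e437a) (nat_lit 0)))) (L (E (nat_lit 2) (nat_lit 0xde064e) (nat_lit 0))))) (N (nat_lit 813) (N (nat_lit 811) (N (nat_lit 810) (L (E (nat_lit 2) (nat_lit 0x9ec37e) (nat_lit 0))) (L (E (nat_lit 0) (nat_lit 0x0) (nat_lit 0)))) (N (nat_lit 812) (L (E (nat_lit 1) (nat_lit 0x4fe) (nat_lit 0))) (L (E (nat_lit 3) (nat_lit 0x2138f7465a) (nat_lit 0))))) (N (nat_lit 814) (L (E (nat_lit 3) (nat_lit 0x1408858388) (nat_lit 0))) (L (E (nat_lit 1) (nat_lit 0x700) (nat_lit 0))))))) (N (nat_lit 825) (N (nat_lit 819) (N (nat_lit 816) (L (E (nat_lit 8) (nat_lit 0x38119b0cd466032e14187181be) (nat_lit 0))) (N (nat_lit 817) (L (E (nat_lit 2) (nat_lit 0x10a0704) (nat_lit 0))) (N (nat_lit 818)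 (L (E (nat_lit 0) (nat_lit 0x0) (nat_lit 0))) (L (E (nat_lit 0) (nat_lit 0x0) (nat_lit 0)))))) (N (nat_lit 823) (N (nat_lit 821) (N (nat_lit 820) (L (E (nat_lit 2) (nat_lit 0xe18398) (nat_lit 0))) (L (E (nat_lit 1) (nat_lit 0x1c6) (nat_lit 0)))) (N (nat_lit 822) (L (E (nat_lit 1) (nat_lit 0x65e) (nat_lit 0))) (L (E (nat_lit 1) (nat_lit 0x712) (nat_lit 0))))) (N (nat_lit 824) (L (E (nat_lit 1) (nat_lit 0x3a0) (nat_lit 0))) (L (E (nat_lit 3) (nat_lit 0x1fe0ccc520) (nat_lit 0)))))) (N (nat_lit 833) (N (nat_lit 829) (N (nat_lit 827) (N (nat_lit 826) (L (E (nat_lit 0) (nat_lit 0x0) (nat_lit 0))) (L (E (nat_lit 1) (nat_lit 0x3a6) (nat_lit 0)))) (N (nat_lit 828) (L (E (nat_lit 0) (nat_lit 0x0) (nat_lit 0))) (L (E (nat_lit 1) (nat_lit 0x332) (nat_lit 0))))) (N (nat_lit 831) (N (nat_lit 830) (L (E (nat_lit 0) (nat_lit 0x0) (nat_lit 0))) (L (E (nat_lit 0) (nat_lit 0x0) (nat_lit 0)))) (N (nat_lit 832) (L (E (nat_lit 1)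 (nat_lit 0x334) (nat_lit 0))) (L (E (nat_lit 0) (nat_lit 0x0) (nat_lit 0)))))) (L (E (nat_lit 5) (nat_lit 0x69034718008e43ac) (nat_lit 0)))))
def nb16 : RA := N (nat_lit 654) (N (nat_lit 641) (N (nat_lit 634) (N (nat_lit 630) (N (nat_lit 627) (L (E (nat_lit 14) (nat_lit 0x102077c3781910b284f827b13989c44ce20f0ac834810a) (nat_lit 0))) (N (nat_lit 628) (L (E (nat_lit 9) (nat_lit 0x8123bf13e89f04e827213488402b4) (nat_lit 0))) (N (nat_lit 629) (L (E (nat_lit 6) (nat_lit 0x10287ac37a13e89cc422) (nat_lit 0))) (L (E (nat_lit 0) (nat_lit 0x0) (nat_lit 0)))))) (N (nat_lit 633) (N (nat_lit 631) (L (E (nat_lit 6) (nat_lit 0xb304d82130ae035010c) (nat_lit 0))) (N (nat_lit 632) (L (E (nat_lit 9) (nat_lit 0x6fa3251668a044dc26d10a05741aa) (nat_lit 0))) (L (E (nat_lit 1) (nat_lit 0x220) (nat_lit 0))))) (L (E (nat_lit 9) (nat_lit 0x81a3c31938a0c50427a13788582be) (nat_lit 0))))) (N (nat_lit 635) (L (E (nat_lit 10) (nat_lit 0xf107002d014189ec4f227110b85801b0)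 (nat_lit 0))) (N (nat_lit 636) (L (E (nat_lit 11) (nat_lit 0x1eb8f1470232914289f04f427213888602c2) (nat_lit 0))) (N (nat_lit 637) (L (E (nat_lit 12) (nat_lit 0x3c61c10ca85a428513e89ec4e627210c85881b4) (nat_lit 0))) (N (nat_lit 638) (L (E (nat_lit 5) (nat_lit 0x7062d313a09cc434) (nat_lit 0))) (N (nat_lit 640) (N (nat_lit 639) (L (E (nat_lit 0) (nat_lit 0x0) (nat_lit 0))) (L (E (nat_lit 5) (nat_lit 0x6562d410e05941b6) (nat_lit 0)))) (L (E (nat_lit 0) (nat_lit 0x0) (nat_lit 0))))))))) (N (nat_lit 644) (N (nat_lit 642) (L (E (nat_lit 9) (nat_lit 0x7903851968a2851228213b88782ce) (nat_lit 0))) (N (nat_lit 643) (L (E (nat_lit 10) (nat_lit 0xf2470c2d71450a0c50227910f85a01bc) (nat_lit 0))) (L (E (nat_lit 12) (nat_lit 0x3ca1c38cbc5b028c14109e84f22200b4837c110) (nat_lit 0))))) (N (nat_lit 652) (N (nat_lit 646) (N (nat_lit 645) (L (E (nat_lit 0) (nat_lit 0x0) (nat_lit 0))) (L (E (nat_lit 11) (nat_lit 0x1ec0f3071233116d0a344f827b11105ac1c2)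 (nat_lit 0)))) (N (nat_lit 649) (N (nat_lit 648) (N (nat_lit 647) (L (E (nat_lit 1) (nat_lit 0x236) (nat_lit 0))) (L (E (nat_lit 4) (nat_lit 0x38b14788902da) (nat_lit 0)))) (L (E (nat_lit 3) (nat_lit 0x19908982dc) (nat_lit 0)))) (N (nat_lit 650) (L (E (nat_lit 6) (nat_lit 0xe306662dc140889c2de) (nat_lit 0))) (N (nat_lit 651) (L (E (nat_lit 6) (nat_lit 0xb7450428111405c01c6) (nat_lit 0))) (L (E (nat_lit 1) (nat_lit 0x23a) (nat_lit 0))))))) (N (nat_lit 653) (L (E (nat_lit 10) (nat_lit 0xf3471e33616f8a4851a28311505c81ca) (nat_lit 0))) (L (E (nat_lit 9) (nat_lit 0x79c39019b8a5051c28c14288ac2e6) (nat_lit 0))))))) (N (nat_lit 742) (N (nat_lit 700) (nb12) (nb13)) (N (nat_lit 846) (N (nat_lit 834) (N (nat_lit 791) (nb14) (nb15)) (N (nat_lit 840) (N (nat_lit 839) (N (nat_lit 838) (N (nat_lit 837) (N (nat_lit 836) (N (nat_lit 835) (L (E (nat_lit 2) (nat_lit 0xa70474) (nat_lit 0))) (L (E (nat_lit 1) (nat_lit 0x53a) (nat_lit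 0)))) (L (E (nat_lit 1) (nat_lit 0x69a) (nat_lit 0)))) (L (E (nat_lit 3) (nat_lit 0x1a78d1833a) (nat_lit 0)))) (L (E (nat_lit 7) (nat_lit 0x1cb0d3c68e34511f877033c) (nat_lit 0)))) (L (E (nat_lit 10) (nat_lit 0xe5c6a23481a30d046042a1120077433e) (nat_lit 0)))) (N (nat_lit 845) (N (nat_lit 841) (L (E (nat_lit 5) (nat_lit 0x6a43511a38d04606) (nat_lit 0))) (N (nat_lit 843) (N (nat_lit 842) (L (E (nat_lit 0) (nat_lit 0x0) (nat_lit 0))) (L (E (nat_lit 3) (nat_lit 0x1a9890c3c0) (nat_lit 0)))) (N (nat_lit 844) (L (E (nat_lit 1) (nat_lit 0x694) (nat_lit 0))) (L (E (nat_lit 2) (nat_lit 0xa98488) (nat_lit 0)))))) (L (E (nat_lit 9) (nat_lit 0x7fc3991ab8d106082a71228784346) (nat_lit 0)))))) (N (nat_lit 851) (N (nat_lit 849) (N (nat_lit 848) (N (nat_lit 847) (L (E (nat_lit 0) (nat_lit 0x0) (nat_lit 0))) (L (E (nat_lit 10) (nat_lit 0xfc07363591a30d1460c2a9123878c34a) (nat_lit 0)))) (L (E (nat_lit 0) (nat_lit 0x0) (nat_lit 0))))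 (N (nat_lit 850) (L (E (nat_lit 12) (nat_lit 0x3f11ce8d6c6b43521a40d1c6102ab124879434e) (nat_lit 0))) (L (E (nat_lit 9) (nat_lit 0x73c35b1a98d446902ac1250798350) (nat_lit 0))))) (N (nat_lit 852) (L (E (nat_lit 7) (nat_lit 0x1ae8d486942ad125879c352) (nat_lit 0))) (N (nat_lit 856) (N (nat_lit 855) (N (nat_lit 854) (N (nat_lit 853) (L (E (nat_lit 0) (nat_lit 0x0) (nat_lit 0))) (L (E (nat_lit 0) (nat_lit 0x0) (nat_lit 0)))) (L (E (nat_lit 1) (nat_lit 0x202) (nat_lit 0)))) (L (E (nat_lit 8) (nat_lit 0x3a31b00d7c6b034d12787b0356) (nat_lit 0)))) (L (E (nat_lit 10) (nat_lit 0xe906c23601ac8d5c6182b212807b4358) (nat_lit 0))))))))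
def nb17 : RA := N (nat_lit 939) (N (nat_lit 923) (N (nat_lit 916) (N (nat_lit 915) (N (nat_lit 913) (L (E (nat_lit 3) (nat_lit 0x1c48a34456) (nat_lit 0))) (N (nat_lit 914) (L (E (nat_lit 3) (nat_lit 0x19d8b90458) (nat_lit 0))) (L (E (nat_lit 1) (nat_lit 0x522) (nat_lit 0))))) (L (E (nat_lit 3) (nat_lit 0x1ca0a4845e) (nat_lit 0)))) (N (nat_lit 917) (L (E (nat_lit 1) (nat_lit 0x726) (nat_lit 0))) (N (nat_lit 919) (N (nat_lit 918) (L (E (nat_lit 2) (nat_lit 0xe68276) (nat_lit 0))) (L (E (nat_lit 0) (nat_lit 0x0) (nat_lit 0)))) (N (nat_lit 922) (N (nat_lit 921) (N (nat_lit 920) (L (E (nat_lit 0) (nat_lit 0x0) (nat_lit 0))) (L (E (nat_lit 0) (nat_lit 0x0) (nat_lit 0)))) (L (E (nat_lit 0) (nat_lit 0x0) (nat_lit 0)))) (L (E (nat_lit 2) (nat_lit 0xe543dc) (nat_lit 0))))))) (N (nat_lit 934) (N (nat_lit 930) (N (nat_lit 925) (N (nat_lit 924) (L (E (nat_lit 2) (nat_lit 0xa8428a) (nat_lit 0))) (L (E (nat_lit 1) (nat_lit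 0x544) (nat_lit 0)))) (N (nat_lit 927) (N (nat_lit 926) (L (E (nat_lit 2) (nat_lit 0xe7028e) (nat_lit 0))) (L (E (nat_lit 0) (nat_lit 0x0) (nat_lit 0)))) (N (nat_lit 928) (L (E (nat_lit 1) (nat_lit 0x750) (nat_lit 0))) (N (nat_lit 929) (L (E (nat_lit 0) (nat_lit 0x0) (nat_lit 0))) (L (E (nat_lit 0) (nat_lit 0x0) (nat_lit 0))))))) (N (nat_lit 933) (N (nat_lit 932) (N (nat_lit 931) (L (E (nat_lit 0) (nat_lit 0x0) (nat_lit 0))) (L (E (nat_lit 3) (nat_lit 0x1ab893c298) (nat_lit 0)))) (L (E (nat_lit 2) (nat_lit 0x94029a) (nat_lit 0)))) (L (E (nat_lit 5) (nat_lit 0x75839c155894429c) (nat_lit 0))))) (N (nat_lit 937) (N (nat_lit 936) (N (nat_lit 935) (L (E (nat_lit 2) (nat_lit 0xab029e) (nat_lit 0))) (L (E (nat_lit 0) (nat_lit 0x0) (nat_lit 0)))) (L (E (nat_lit 4) (nat_lit 0x3af1d70ea473e) (nat_lit 0)))) (N (nat_lit 938) (L (E (nat_lit 1) (nat_lit 0x6ba) (nat_lit 0))) (L (E (nat_lit 4) (nat_lit 0x360159880c2aa) (nat_lit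 0))))))) (N (nat_lit 949) (N (nat_lit 942) (N (nat_lit 941) (N (nat_lit 940) (L (E (nat_lit 5) (nat_lit 0x7663ac15a08102ac) (nat_lit 0))) (L (E (nat_lit 6) (nat_lit 0xf4876a3b41d68ad440a) (nat_lit 0)))) (L (E (nat_lit 4) (nat_lit 0x3ac1b189702b0) (nat_lit 0)))) (N (nat_lit 946) (N (nat_lit 943) (L (E (nat_lit 3) (nat_lit 0x1d40d902b2) (nat_lit 0))) (N (nat_lit 944) (L (E (nat_lit 1) (nat_lit 0x750) (nat_lit 0))) (N (nat_lit 945) (L (E (nat_lit 1) (nat_lit 0x572) (nat_lit 0))) (L (E (nat_lit 0) (nat_lit 0x0) (nat_lit 0)))))) (N (nat_lit 948) (N (nat_lit 947) (L (E (nat_lit 3) (nat_lit 0x1dd08302ba) (nat_lit 0))) (L (E (nat_lit 3) (nat_lit 0x1dd0ed0756) (nat_lit 0)))) (L (E (nat_lit 4) (nat_lit 0x3b51d60db041c) (nat_lit 0)))))) (N (nat_lit 956) (N (nat_lit 952) (N (nat_lit 950) (L (E (nat_lit 6) (nat_lit 0xed075836d133083c2c0) (nat_lit 0))) (N (nat_lit 951) (L (E (nat_lit 3) (nat_lit 0x1de8edc5d0) (nat_lit 0)))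 (L (E (nat_lit 1) (nat_lit 0x77e) (nat_lit 0))))) (N (nat_lit 955) (N (nat_lit 954) (N (nat_lit 953) (L (E (nat_lit 0) (nat_lit 0x0) (nat_lit 0))) (L (E (nat_lit 0) (nat_lit 0x0) (nat_lit 0)))) (L (E (nat_lit 4) (nat_lit 0x3b31d90dd042c) (nat_lit 0)))) (L (E (nat_lit 6) (nat_lit 0xf0c6ea2c7137885c2d0) (nat_lit 0))))) (N (nat_lit 958) (N (nat_lit 957) (L (E (nat_lit 4) (nat_lit 0x3d716408602d2) (nat_lit 0))) (L (E (nat_lit 2) (nat_lit 0xb24432) (nat_lit 0)))) (N (nat_lit 962) (N (nat_lit 960) (N (nat_lit 959) (L (E (nat_lit 0) (nat_lit 0x0) (nat_lit 0))) (L (E (nat_lit 1) (nat_lit 0x76e) (nat_lit 0)))) (N (nat_lit 961) (L (E (nat_lit 0) (nat_lit 0x0) (nat_lit 0))) (L (E (nat_lit 1) (nat_lit 0x2de) (nat_lit 0))))) (L (E (nat_lit 2) (nat_lit 0xb382e0) (nat_lit 0)))))))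
def nb18 : RA := N (nat_lit 1001) (N (nat_lit 991) (N (nat_lit 988) (L (E (nat_lit 2) (nat_lit 0xc7432c) (nat_lit 0))) (N (nat_lit 989) (L (E (nat_lit 1) (nat_lit 0x848) (nat_lit 0))) (N (nat_lit 990) (L (E (nat_lit 1) (nat_lit 0x658) (nat_lit 0))) (L (E (nat_lit 0) (nat_lit 0x0) (nat_lit 0)))))) (N (nat_lit 994) (N (nat_lit 993) (N (nat_lit 992) (L (E (nat_lit 0) (nat_lit 0x0) (nat_lit 0))) (L (E (nat_lit 1) (nat_lit 0x364) (nat_lit 0)))) (L (E (nat_lit 1) (nat_lit 0x6c0) (nat_lit 0)))) (N (nat_lit 998) (N (nat_lit 997) (N (nat_lit 996) (N (nat_lit 995) (L (E (nat_lit 0) (nat_lit 0x0) (nat_lit 0))) (L (E (nat_lit 0) (nat_lit 0x0) (nat_lit 0)))) (L (E (nat_lit 0) (nat_lit 0x0) (nat_lit 0)))) (L (E (nat_lit 2) (nat_lit 0xdd0388) (nat_lit 0)))) (N (nat_lit 1000) (N (nat_lit 999) (L (E (nat_lit 0) (nat_lit 0x0) (nat_lit 0))) (L (E (nat_lit 0) (nat_lit 0x0) (nat_lit 0)))) (L (E (nat_lit 1) (nat_lit 0x7c8) (nat_lit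 0))))))) (N (nat_lit 1016) (N (nat_lit 1008) (N (nat_lit 1004) (N (nat_lit 1003) (N (nat_lit 1002) (L (E (nat_lit 0) (nat_lit 0x0) (nat_lit 0))) (L (E (nat_lit 1) (nat_lit 0x3a0) (nat_lit 0)))) (L (E (nat_lit 1) (nat_lit 0x70c) (nat_lit 0)))) (N (nat_lit 1006) (N (nat_lit 1005) (L (E (nat_lit 1) (nat_lit 0x860) (nat_lit 0))) (L (E (nat_lit 0) (nat_lit 0x0) (nat_lit 0)))) (N (nat_lit 1007) (L (E (nat_lit 0) (nat_lit 0x0) (nat_lit 0))) (L (E (nat_lit 0) (nat_lit 0x0) (nat_lit 0)))))) (N (nat_lit 1013) (N (nat_lit 1011) (N (nat_lit 1010) (N (nat_lit 1009) (L (E (nat_lit 0) (nat_lit 0x0) (nat_lit 0))) (L (E (nat_lit 0) (nat_lit 0x0) (nat_lit 0)))) (L (E (nat_lit 0) (nat_lit 0x0) (nat_lit 0)))) (N (nat_lit 1012) (L (E (nat_lit 0) (nat_lit 0x0) (nat_lit 0))) (L (E (nat_lit 0) (nat_lit 0x0) (nat_lit 0))))) (N (nat_lit 1015) (N (nat_lit 1014) (L (E (nat_lit 0) (nat_lit 0x0) (nat_lit 0))) (L (E (nat_lit 0) (nat_lit 0x0)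 (nat_lit 0)))) (L (E (nat_lit 1) (nat_lit 0x432) (nat_lit 0)))))) (N (nat_lit 1024) (N (nat_lit 1021) (N (nat_lit 1019) (N (nat_lit 1018) (N (nat_lit 1017) (L (E (nat_lit 0) (nat_lit 0x0) (nat_lit 0))) (L (E (nat_lit 0) (nat_lit 0x0) (nat_lit 0)))) (L (E (nat_lit 0) (nat_lit 0x0) (nat_lit 0)))) (N (nat_lit 1020) (L (E (nat_lit 0) (nat_lit 0x0) (nat_lit 0))) (L (E (nat_lit 0) (nat_lit 0x0) (nat_lit 0))))) (N (nat_lit 1022) (L (E (nat_lit 1) (nat_lit 0x68e) (nat_lit 0))) (N (nat_lit 1023) (L (E (nat_lit 0) (nat_lit 0x0) (nat_lit 0))) (L (E (nat_lit 0) (nat_lit 0x0) (nat_lit 0)))))) (N (nat_lit 1027) (N (nat_lit 1026) (N (nat_lit 1025) (L (E (nat_lit 0) (nat_lit 0x0) (nat_lit 0))) (L (E (nat_lit 0) (nat_lit 0x0) (nat_lit 0)))) (L (E (nat_lit 4) (nat_lit 0x40720310047fe) (nat_lit 0)))) (N (nat_lit 1029) (N (nat_lit 1028) (L (E (nat_lit 0) (nat_lit 0x0) (nat_lit 0))) (L (E (nat_lit 0) (nat_lit 0x0) (nat_lit 0))))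 (L (E (nat_lit 0) (nat_lit 0x0) (nat_lit 0)))))))
def nb19 : RA := N (nat_lit 1060) (N (nat_lit 1053) (N (nat_lit 1042) (N (nat_lit 1036) (N (nat_lit 1033) (N (nat_lit 1032) (N (nat_lit 1031) (L (E (nat_lit 0) (nat_lit 0x0) (nat_lit 0))) (L (E (nat_lit 0) (nat_lit 0x0) (nat_lit 0)))) (L (E (nat_lit 0) (nat_lit 0x0) (nat_lit 0)))) (N (nat_lit 1035) (N (nat_lit 1034) (L (E (nat_lit 0) (nat_lit 0x0) (nat_lit 0))) (L (E (nat_lit 0) (nat_lit 0x0) (nat_lit 0)))) (L (E (nat_lit 0) (nat_lit 0x0) (nat_lit 0))))) (N (nat_lit 1038) (N (nat_lit 1037) (L (E (nat_lit 1) (nat_lit 0x808) (nat_lit 0))) (L (E (nat_lit 0) (nat_lit 0x0) (nat_lit 0)))) (N (nat_lit 1040) (N (nat_lit 1039) (L (E (nat_lit 0) (nat_lit 0x0) (nat_lit 0))) (L (E (nat_lit 0) (nat_lit 0x0) (nat_lit 0)))) (N (nat_lit 1041) (L (E (nat_lit 0) (nat_lit 0x0) (nat_lit 0))) (L (E (nat_lit 0) (nat_lit 0x0) (nat_lit 0))))))) (N (nat_lit 1048) (N (nat_lit 1045) (N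 (nat_lit 1043) (L (E (nat_lit 2) (nat_lit 0x104c81c) (nat_lit 0))) (N (nat_lit 1044) (L (E (nat_lit 0) (nat_lit 0x0) (nat_lit 0))) (L (E (nat_lit 0) (nat_lit 0x0) (nat_lit 0))))) (N (nat_lit 1047) (N (nat_lit 1046) (L (E (nat_lit 0) (nat_lit 0x0) (nat_lit 0))) (L (E (nat_lit 0) (nat_lit 0x0) (nat_lit 0)))) (L (E (nat_lit 0) (nat_lit 0x0) (nat_lit 0))))) (N (nat_lit 1051) (N (nat_lit 1050) (N (nat_lit 1049) (L (E (nat_lit 0) (nat_lit 0x0) (nat_lit 0))) (L (E (nat_lit 1) (nat_lit 0x700) (nat_lit 0)))) (L (E (nat_lit 0) (nat_lit 0x0) (nat_lit 0)))) (N (nat_lit 1052) (L (E (nat_lit 0) (nat_lit 0x0) (nat_lit 0))) (L (E (nat_lit 1) (nat_lit 0x82c) (nat_lit 0))))))) (N (nat_lit 1054) (L (E (nat_lit 1) (nat_lit 0x5d0) (nat_lit 0))) (N (nat_lit 1056) (N (nat_lit 1055) (L (E (nat_lit 1) (nat_lit 0x864) (nat_lit 0))) (L (E (nat_lit 1) (nat_lit 0x840) (nat_lit 0)))) (N (nat_lit 1058) (N (nat_lit 1057) (L (E (nat_lit 1)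 (nat_lit 0x83e) (nat_lit 0))) (L (E (nat_lit 0) (nat_lit 0x0) (nat_lit 0)))) (N (nat_lit 1059) (L (E (nat_lit 0) (nat_lit 0x0) (nat_lit 0))) (L (E (nat_lit 1) (nat_lit 0x872) (nat_lit 0)))))))) (N (nat_lit 1074) (N (nat_lit 1064) (N (nat_lit 1062) (N (nat_lit 1061) (L (E (nat_lit 1) (nat_lit 0x7b8) (nat_lit 0))) (L (E (nat_lit 0) (nat_lit 0x0) (nat_lit 0)))) (N (nat_lit 1063) (L (E (nat_lit 1) (nat_lit 0x874) (nat_lit 0))) (L (E (nat_lit 0) (nat_lit 0x0) (nat_lit 0))))) (N (nat_lit 1069) (N (nat_lit 1066) (N (nat_lit 1065) (L (E (nat_lit 1) (nat_lit 0x7bc) (nat_lit 0))) (L (E (nat_lit 0) (nat_lit 0x0) (nat_lit 0)))) (N (nat_lit 1068) (N (nat_lit 1067) (L (E (nat_lit 0) (nat_lit 0x0) (nat_lit 0))) (L (E (nat_lit 0) (nat_lit 0x0) (nat_lit 0)))) (L (E (nat_lit 1) (nat_lit 0x6da) (nat_lit 0))))) (N (nat_lit 1072) (N (nat_lit 1071) (N (nat_lit 1070) (L (E (nat_lit 0) (nat_lit 0x0) (nat_lit 0))) (L (E (nat_lit 0)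 (nat_lit 0x0) (nat_lit 0)))) (L (E (nat_lit 0) (nat_lit 0x0) (nat_lit 0)))) (N (nat_lit 1073) (L (E (nat_lit 1) (nat_lit 0x70e) (nat_lit 0))) (L (E (nat_lit 0) (nat_lit 0x0) (nat_lit 0))))))) (N (nat_lit 1076) (N (nat_lit 1075) (L (E (nat_lit 1) (nat_lit 0x83c) (nat_lit 0))) (L (E (nat_lit 1) (nat_lit 0x876) (nat_lit 0)))) (N (nat_lit 1080) (N (nat_lit 1077) (L (E (nat_lit 2) (nat_lit 0x10f07aa) (nat_lit 0))) (N (nat_lit 1079) (N (nat_lit 1078) (L (E (nat_lit 0) (nat_lit 0x0) (nat_lit 0))) (L (E (nat_lit 0) (nat_lit 0x0) (nat_lit 0)))) (L (E (nat_lit 1) (nat_lit 0x842) (nat_lit 0))))) (N (nat_lit 1084) (N (nat_lit 1083) (N (nat_lit 1082) (N (nat_lit 1081) (L (E (nat_lit 0) (nat_lit 0x0) (nat_lit 0))) (L (E (nat_lit 1) (nat_lit 0x846) (nat_lit 0)))) (L (E (nat_lit 0) (nat_lit 0x0) (nat_lit 0)))) (L (E (nat_lit 1) (nat_lit 0x866) (nat_lit 0)))) (N (nat_lit 1085) (L (E (nat_lit 1) (nat_lit 0x868) (nat_lit 0)))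 (L (E (nat_lit 0) (nat_lit 0x0) (nat_lit 0))))))))
def nb20 : RA := N (nat_lit 902) (N (nat_lit 892) (N (nat_lit 886) (L (E (nat_lit 15) (nat_lit 0x21690608203f81f30eec6fc3761ba0db064a2cd137883038a) (nat_lit 0))) (N (nat_lit 887) (L (E (nat_lit 10) (nat_lit 0x10447f23bc1c00dd46da36c1930b3838c) (nat_lit 0))) (N (nat_lit 889) (N (nat_lit 888) (L (E (nat_lit 0) (nat_lit 0x0) (nat_lit 0))) (L (E (nat_lit 10) (nat_lit 0xef87043811b78db86502d0139083c390) (nat_lit 0)))) (N (nat_lit 891) (N (nat_lit 890) (L (E (nat_lit 0) (nat_lit 0x0) (nat_lit 0))) (L (E (nat_lit 5) (nat_lit 0x6542d213a0844394) (nat_lit 0)))) (L (E (nat_lit 0) (nat_lit 0x0) (nat_lit 0))))))) (N (nat_lit 897) (N (nat_lit 896) (N (nat_lit 894) (N (nat_lit 893) (L (E (nat_lit 2) (nat_lit 0xf9c6e4) (nat_lit 0))) (L (E (nat_lit 6) (nat_lit 0x10b87d037e1ba09dc428) (nat_lit 0)))) (N (nat_lit 895) (L (E (nat_lit 8) (nat_lit 0x3c21c30e146fa3751ba0cb05aa) (nat_lit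 0))) (L (E (nat_lit 1) (nat_lit 0x23a) (nat_lit 0))))) (L (E (nat_lit 13) (nat_lit 0x8324141fd8fa47883871c08dd865c2d713d085c39e) (nat_lit 0)))) (N (nat_lit 898) (L (E (nat_lit 10) (nat_lit 0xf147123821c00de065e2d813d88603a0) (nat_lit 0))) (N (nat_lit 900) (N (nat_lit 899) (L (E (nat_lit 8) (nat_lit 0x3c61c48de06602d913e08643a2) (nat_lit 0))) (L (E (nat_lit 5) (nat_lit 0x83433116d09f4434) (nat_lit 0)))) (N (nat_lit 901) (L (E (nat_lit 1) (nat_lit 0x5b6) (nat_lit 0))) (L (E (nat_lit 6) (nat_lit 0xf2071a37e1990a0443c) (nat_lit 0)))))))) (N (nat_lit 912) (N (nat_lit 904) (N (nat_lit 903) (L (E (nat_lit 10) (nat_lit 0x10bc7d63c91c38e146fc333141087c3a4) (nat_lit 0))) (L (E (nat_lit 11) (nat_lit 0x2180fb079438f1c30e006682dd14188803a6) (nat_lit 0)))) (N (nat_lit 906) (N (nat_lit 905) (L (E (nat_lit 1) (nat_lit 0x242) (nat_lit 0))) (L (E (nat_lit 12) (nat_lit 0x43120d8fb47983911c80e0870233616f8a14444) (nat_lit 0))))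 (N (nat_lit 911) (N (nat_lit 909) (N (nat_lit 908) (N (nat_lit 907) (L (E (nat_lit 0) (nat_lit 0x0) (nat_lit 0))) (L (E (nat_lit 2) (nat_lit 0xa1c448) (nat_lit 0)))) (L (E (nat_lit 3) (nat_lit 0x1f70a2444e) (nat_lit 0)))) (N (nat_lit 910) (L (E (nat_lit 2) (nat_lit 0xe14450) (nat_lit 0))) (L (E (nat_lit 1) (nat_lit 0x24a) (nat_lit 0))))) (L (E (nat_lit 7) (nat_lit 0x1f78e4070e2e214608a83a8) (nat_lit 0)))))) (N (nat_lit 963) (nb17) (N (nat_lit 1030) (N (nat_lit 987) (N (nat_lit 978) (N (nat_lit 967) (N (nat_lit 965) (N (nat_lit 964) (L (E (nat_lit 3) (nat_lit 0x1e10ef04f2) (nat_lit 0))) (L (E (nat_lit 1) (nat_lit 0x2e4) (nat_lit 0)))) (N (nat_lit 966) (L (E (nat_lit 3) (nat_lit 0x1e20e042e6) (nat_lit 0))) (L (E (nat_lit 1) (nat_lit 0x5a4) (nat_lit 0))))) (N (nat_lit 971) (N (nat_lit 969) (N (nat_lit 968) (L (E (nat_lit 1) (nat_lit 0x78c) (nat_lit 0))) (L (E (nat_lit 0) (nat_lit 0x0) (nat_lit 0)))) (N (nat_lit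 970) (L (E (nat_lit 2) (nat_lit 0xb5c504) (nat_lit 0))) (L (E (nat_lit 0) (nat_lit 0x0) (nat_lit 0))))) (N (nat_lit 974) (N (nat_lit 972) (L (E (nat_lit 1) (nat_lit 0x5b2) (nat_lit 0))) (N (nat_lit 973) (L (E (nat_lit 0) (nat_lit 0x0) (nat_lit 0))) (L (E (nat_lit 0) (nat_lit 0x0) (nat_lit 0))))) (N (nat_lit 976) (N (nat_lit 975) (L (E (nat_lit 0) (nat_lit 0x0) (nat_lit 0))) (L (E (nat_lit 0) (nat_lit 0x0) (nat_lit 0)))) (N (nat_lit 977) (L (E (nat_lit 0) (nat_lit 0x0) (nat_lit 0))) (L (E (nat_lit 0) (nat_lit 0x0) (nat_lit 0)))))))) (N (nat_lit 979) (L (E (nat_lit 2) (nat_lit 0xeb04ce) (nat_lit 0))) (N (nat_lit 983) (N (nat_lit 981) (N (nat_lit 980) (L (E (nat_lit 0) (nat_lit 0x0) (nat_lit 0))) (L (E (nat_lit 0) (nat_lit 0x0) (nat_lit 0)))) (N (nat_lit 982) (L (E (nat_lit 0) (nat_lit 0x0) (nat_lit 0))) (L (E (nat_lit 0) (nat_lit 0x0) (nat_lit 0))))) (N (nat_lit 984) (L (E (nat_lit 4) (nat_lit 0x3bc1760ba04f6)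 (nat_lit 0))) (N (nat_lit 986) (N (nat_lit 985) (L (E (nat_lit 0) (nat_lit 0x0) (nat_lit 0))) (L (E (nat_lit 0) (nat_lit 0x0) (nat_lit 0)))) (L (E (nat_lit 0) (nat_lit 0x0) (nat_lit 0)))))))) (nb18)) (nb19))))
def nb21 : RA := N (nat_lit 493) (N (nat_lit 254) (N (nat_lit 3) (N (nat_lit 1) (L (E (nat_lit 18) (nat_lit 0xd8857a27010686d42ae112088842c214105082032012407602580d4030) (nat_lit 0))) (N (nat_lit 2) (L (E (nat_lit 13) (nat_lit 0x6ee2cf142088438e16a08f04642260d704a02100b0) (nat_lit 0))) (L (E (nat_lit 12) (nat_lit 0x34014d09203c819b09a03dc1e20ee0768224024) (nat_lit 0))))) (N (nat_lit 252) (N (nat_lit 245) (N (nat_lit 183) (N (nat_lit 67) (nb0) (N (nat_lit 117) (nb1) (nb2))) (N (nat_lit 235) (nb3) (N (nat_lit 244) (N (nat_lit 240) (N (nat_lit 239) (N (nat_lit 237) (N (nat_lit 236) (L (E (nat_lit 0) (nat_lit 0x0) (nat_lit 0))) (L (E (nat_lit 0) (nat_lit 0x0) (nat_lit 0)))) (N (nat_lit 238) (L (E (nat_lit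 0) (nat_lit 0x0) (nat_lit 0))) (L (E (nat_lit 0) (nat_lit 0x0) (nat_lit 0))))) (L (E (nat_lit 3) (nat_lit 0x1208778260) (nat_lit 0)))) (N (nat_lit 242) (N (nat_lit 241) (L (E (nat_lit 0) (nat_lit 0x0) (nat_lit 0))) (L (E (nat_lit 0) (nat_lit 0x0) (nat_lit 0)))) (N (nat_lit 243) (L (E (nat_lit 0) (nat_lit 0x0) (nat_lit 0))) (L (E (nat_lit 0) (nat_lit 0x0) (nat_lit 0)))))) (L (E (nat_lit 5) (nat_lit 0x49c1eb09c80c4026) (nat_lit 0)))))) (N (nat_lit 250) (N (nat_lit 248) (N (nat_lit 247) (N (nat_lit 246) (L (E (nat_lit 0) (nat_lit 0x0) (nat_lit 0))) (L (E (nat_lit 0) (nat_lit 0x0) (nat_lit 0)))) (L (E (nat_lit 0) (nat_lit 0x0) (nat_lit 0)))) (N (nat_lit 249) (L (E (nat_lit 0) (nat_lit 0x0) (nat_lit 0))) (L (E (nat_lit 0) (nat_lit 0x0) (nat_lit 0))))) (N (nat_lit 251) (L (E (nat_lit 12) (nat_lit 0x34915189503e21a109f82c811406501c80cc028) (nat_lit 0))) (L (E (nat_lit 0) (nat_lit 0x0) (nat_lit 0)))))) (N (nat_lit 253)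 (L (E (nat_lit 13) (nat_lit 0x69c2a812c87dc34814407a82d811606701d80d002a) (nat_lit 0))) (L (E (nat_lit 11) (nat_lit 0x1a80aa84b61f90d3051817008d03480f402c) (nat_lit 0)))))) (nb8)) (N (nat_lit 626) (N (nat_lit 546) (nb9) (nb11)) (N (nat_lit 857) (nb16) (N (nat_lit 885) (N (nat_lit 867) (N (nat_lit 859) (N (nat_lit 858) (L (E (nat_lit 10) (nat_lit 0xe946c235a1ac0d3c61a2b312887b835a) (nat_lit 0))) (L (E (nat_lit 11) (nat_lit 0x2010e986c635b1ac8d4461c2b412907bc35c) (nat_lit 0)))) (N (nat_lit 864) (N (nat_lit 860) (L (E (nat_lit 12) (nat_lit 0x4031d38d906c635a1a90d4461e2b512987c035e) (nat_lit 0))) (N (nat_lit 863) (N (nat_lit 861) (L (E (nat_lit 1) (nat_lit 0x20e) (nat_lit 0))) (N (nat_lit 862) (L (E (nat_lit 7) (nat_lit 0x1b30d946a631115b89543e4) (nat_lit 0))) (L (E (nat_lit 0) (nat_lit 0x0) (nat_lit 0))))) (L (E (nat_lit 9) (nat_lit 0x8523e01b50da46c035712c07d8364) (nat_lit 0))))) (N (nat_lit 865) (L (E (nat_lit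 10) (nat_lit 0xf8475436a1b08d7c6b035718a0aec366) (nat_lit 0))) (N (nat_lit 866) (L (E (nat_lit 14) (nat_lit 0x10a882a4051f98eac6d83601ac8d6062a2bc12d07e0368) (nat_lit 0))) (L (E (nat_lit 0) (nat_lit 0x0) (nat_lit 0))))))) (N (nat_lit 877) (N (nat_lit 870) (N (nat_lit 868) (L (E (nat_lit 13) (nat_lit 0x8564161d68db86da3641ad8d6862e2be12e07e836c) (nat_lit 0))) (N (nat_lit 869) (L (E (nat_lit 11) (nat_lit 0x2040eb86de36e1b18d6c6302bf12e87ec36e) (nat_lit 0))) (L (E (nat_lit 7) (nat_lit 0x1b78d986ba31916009783f8) (nat_lit 0))))) (N (nat_lit 875) (N (nat_lit 874) (N (nat_lit 871) (L (E (nat_lit 5) (nat_lit 0x6e03651ae8c68582) (nat_lit 0))) (N (nat_lit 872) (L (E (nat_lit 1) (nat_lit 0x584) (nat_lit 0))) (N (nat_lit 873) (L (E (nat_lit 1) (nat_lit 0x6d2) (nat_lit 0))) (L (E (nat_lit 1) (nat_lit 0x6d4) (nat_lit 0)))))) (L (E (nat_lit 9) (nat_lit 0x8163b21ba0da46c035f1318804376) (nat_lit 0)))) (N (nat_lit 876) (L (E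 (nat_lit 1) (nat_lit 0x220) (nat_lit 0))) (L (E (nat_lit 11) (nat_lit 0x1f10ed06ec3751b68d8463c2c6132880c37a) (nat_lit 0)))))) (N (nat_lit 879) (N (nat_lit 878) (L (E (nat_lit 12) (nat_lit 0x42c1f18ed46ec36e1b60d8c63e2c7133081037c) (nat_lit 0))) (L (E (nat_lit 11) (nat_lit 0x1db0de06de36d1b20d8c6402c8133881437e) (nat_lit 0)))) (N (nat_lit 884) (N (nat_lit 880) (L (E (nat_lit 10) (nat_lit 0x105c76e3781b80db86ca3641908b24380) (nat_lit 0))) (N (nat_lit 881) (L (E (nat_lit 7) (nat_lit 0x1dc0dbc6cc32216509a440e) (nat_lit 0))) (N (nat_lit 883) (N (nat_lit 882) (L (E (nat_lit 1) (nat_lit 0x22c) (nat_lit 0))) (L (E (nat_lit 1) (nat_lit 0x6f8) (nat_lit 0)))) (L (E (nat_lit 1) (nat_lit 0x22e) (nat_lit 0)))))) (L (E (nat_lit 12) (nat_lit 0x40f1f28ee86fc37d1ba8da86482cc137082c388) (nat_lit 0))))))) (nb20))))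
def nb : RA := nb21
def cl0 : RA := N (nat_lit 62) (N (nat_lit 51) (N (nat_lit 40) (N (nat_lit 35) (N (nat_lit 33) (L (E (nat_lit 6) (nat_lit 0x1780b8058029013008c) (nat_lit 0))) (N (nat_lit 34) (L (E (nat_lit 6) (nat_lit 0x1fc0f207303601940c2) (nat_lit 0))) (L (E (nat_lit 6) (nat_lit 0x2100f807603801a00c4) (nat_lit 0))))) (N (nat_lit 37) (N (nat_lit 36) (L (E (nat_lit 6) (nat_lit 0x1ac0d4069034019c0cc) (nat_lit 0))) (L (E (nat_lit 6) (nat_lit 0x1b00d606a03481a00ce) (nat_lit 0)))) (N (nat_lit 38) (L (E (nat_lit 6) (nat_lit 0x22010e08203d81d00dc) (nat_lit 0))) (N (nat_lit 39) (L (E (nat_lit 6) (nat_lit 0x1ec0ea07003481900c0) (nat_lit 0))) (L (E (nat_lit 6) (nat_lit 0x2141080830410204100) (nat_lit 0))))))) (N (nat_lit 47) (N (nat_lit 45) (N (nat_lit 43) (N (nat_lit 41) (L (E (nat_lit 6) (nat_lit 0x2040f607503801a40c8) (nat_lit 0))) (N (nat_lit 42) (L (E (nat_lit 6) (nat_lit 0x21810007a03a01bc0d0) (nat_lit 0)))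 (L (E (nat_lit 6) (nat_lit 0x24011e08e0468230116) (nat_lit 0))))) (N (nat_lit 44) (L (E (nat_lit 6) (nat_lit 0x5fc2780f7057828413a) (nat_lit 0))) (L (E (nat_lit 6) (nat_lit 0x6202b410d065829813c) (nat_lit 0))))) (N (nat_lit 46) (L (E (nat_lit 6) (nat_lit 0x10ec8543f0183067013e) (nat_lit 0))) (L (E (nat_lit 6) (nat_lit 0x6282fc13307882a413e) (nat_lit 0))))) (N (nat_lit 48) (L (E (nat_lit 6) (nat_lit 0x10f08563f11840678140) (nat_lit 0))) (N (nat_lit 49) (L (E (nat_lit 6) (nat_lit 0x10f485a3f318a86ac144) (nat_lit 0))) (N (nat_lit 50) (L (E (nat_lit 6) (nat_lit 0x62c308156085031c146) (nat_lit 0))) (L (E (nat_lit 6) (nat_lit 0x63030c158085832414a) (nat_lit 0)))))))) (N (nat_lit 60) (N (nat_lit 55) (N (nat_lit 53) (N (nat_lit 52) (L (E (nat_lit 6) (nat_lit 0x63431215f088833814e) (nat_lit 0))) (L (E (nat_lit 6) (nat_lit 0x32c1860ba05882a8150) (nat_lit 0)))) (N (nat_lit 54) (L (E (nat_lit 6) (nat_lit 0x34c1980c405d82c8156)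 (nat_lit 0))) (L (E (nat_lit 6) (nat_lit 0x35819c0c705f82d815a) (nat_lit 0))))) (N (nat_lit 58) (N (nat_lit 57) (N (nat_lit 56) (L (E (nat_lit 6) (nat_lit 0x35c19e0c806002dc15c) (nat_lit 0))) (L (E (nat_lit 6) (nat_lit 0x2d01660b205882c015e) (nat_lit 0)))) (L (E (nat_lit 6) (nat_lit 0x3681a40cb06182e8162) (nat_lit 0)))) (N (nat_lit 59) (L (E (nat_lit 6) (nat_lit 0x3741aa0cd06302f816a) (nat_lit 0))) (L (E (nat_lit 6) (nat_lit 0x2e81720b805b82d816a) (nat_lit 0)))))) (N (nat_lit 61) (L (E (nat_lit 6) (nat_lit 0x3781ac0ce06382fc16c) (nat_lit 0))) (L (E (nat_lit 6) (nat_lit 0x37c1ae0cf064030016e) (nat_lit 0)))))) (N (nat_lit 69) (N (nat_lit 64) (N (nat_lit 63) (L (E (nat_lit 6) (nat_lit 0x2f01760ba05c82e016e) (nat_lit 0))) (L (E (nat_lit 6) (nat_lit 0x2f41780bb05d02e4170) (nat_lit 0)))) (N (nat_lit 66) (N (nat_lit 65) (L (E (nat_lit 6) (nat_lit 0x3841b20d10650308172) (nat_lit 0))) (L (E (nat_lit 6) (nat_lit 0x38c1ba0d5066831817c)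 (nat_lit 0)))) (N (nat_lit 67) (L (E (nat_lit 6) (nat_lit 0x3941be0d70678320180) (nat_lit 0))) (N (nat_lit 68) (L (E (nat_lit 6) (nat_lit 0x3981c00d80680324182) (nat_lit 0))) (L (E (nat_lit 6) (nat_lit 0x3281920c8063831818a) (nat_lit 0))))))) (N (nat_lit 73) (N (nat_lit 72) (N (nat_lit 71) (N (nat_lit 70) (L (E (nat_lit 6) (nat_lit 0x32c1940c9064031c18c) (nat_lit 0))) (L (E (nat_lit 6) (nat_lit 0x3301960ca064832018e) (nat_lit 0)))) (L (E (nat_lit 6) (nat_lit 0x33418e0c005c02c0154) (nat_lit 0)))) (L (E (nat_lit 6) (nat_lit 0x3481a20d0067833819a) (nat_lit 0)))) (N (nat_lit 75) (N (nat_lit 74) (L (E (nat_lit 6) (nat_lit 0x33c1920c205d02c8158) (nat_lit 0))) (L (E (nat_lit 6) (nat_lit 0x35019a0c706002e0160) (nat_lit 0)))) (N (nat_lit 76) (L (E (nat_lit 6) (nat_lit 0x3641b00d706b03541a8) (nat_lit 0))) (N (nat_lit 77) (L (E (nat_lit 6) (nat_lit 0x35419c0c806082e4162) (nat_lit 0))) (L (E (nat_lit 6) (nat_lit 0x35819e0c906102e8164)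 (nat_lit 0))))))))
def cl1 : RA := N (nat_lit 78) (N (nat_lit 32) (N (nat_lit 10) (N (nat_lit 4) (N (nat_lit 3) (N (nat_lit 2) (N (nat_lit 1) (L (E (nat_lit 6) (nat_lit 0xf3c55613c0318044008) (nat_lit 0))) (L (E (nat_lit 6) (nat_lit 0xf4856a146034804800a) (nat_lit 0)))) (L (E (nat_lit 6) (nat_lit 0xf58582151039005000c) (nat_lit 0)))) (L (E (nat_lit 6) (nat_lit 0xf5c59015703b005800e) (nat_lit 0)))) (N (nat_lit 9) (N (nat_lit 8) (N (nat_lit 5) (L (E (nat_lit 6) (nat_lit 0x10286cc1fd05e00cc01a) (nat_lit 0))) (N (nat_lit 7) (N (nat_lit 6) (L (E (nat_lit 6) (nat_lit 0x105c75a25c07f00f801e) (nat_lit 0))) (L (E (nat_lit 6) (nat_lit 0x106477626f0850128020) (nat_lit 0)))) (L (E (nat_lit 6) (nat_lit 0x107079e2ab09e018c022) (nat_lit 0))))) (L (E (nat_lit 6) (nat_lit 0x10747a42b50a301a4024) (nat_lit 0)))) (L (E (nat_lit 6) (nat_lit 0x10787a82bb0a581b4026) (nat_lit 0))))) (N (nat_lit 17) (N (nat_lit 13) (N (nat_lit 12) (N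 (nat_lit 11) (L (E (nat_lit 6) (nat_lit 0x10807ae2c80ab81d802c) (nat_lit 0))) (L (E (nat_lit 6) (nat_lit 0x26011c07002180d005e) (nat_lit 0)))) (L (E (nat_lit 6) (nat_lit 0x10c07f23260de0290060) (nat_lit 0)))) (N (nat_lit 14) (L (E (nat_lit 6) (nat_lit 0x10c88083600fb82d8062) (nat_lit 0))) (N (nat_lit 16) (N (nat_lit 15) (L (E (nat_lit 6) (nat_lit 0x27013609303e814806a) (nat_lit 0))) (L (E (nat_lit 6) (nat_lit 0x10cc82a3a312783d406c) (nat_lit 0)))) (L (E (nat_lit 6) (nat_lit 0x10d082c3a512883dc06e) (nat_lit 0)))))) (N (nat_lit 24) (N (nat_lit 21) (N (nat_lit 20) (N (nat_lit 18) (L (E (nat_lit 6) (nat_lit 0x1640a804d0238100072) (nat_lit 0))) (N (nat_lit 19) (L (E (nat_lit 6) (nat_lit 0xfc07c03d01e00ec074) (nat_lit 0))) (L (E (nat_lit 6) (nat_lit 0x1700ae0500250108076) (nat_lit 0))))) (L (E (nat_lit 6) (nat_lit 0x10007e03e01e80f0076) (nat_lit 0)))) (N (nat_lit 22) (L (E (nat_lit 6) (nat_lit 0x1740b0051025810c078)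 (nat_lit 0))) (N (nat_lit 23) (L (E (nat_lit 6) (nat_lit 0x10d48303b21318408082) (nat_lit 0))) (L (E (nat_lit 6) (nat_lit 0x1780b60560278124082) (nat_lit 0)))))) (N (nat_lit 29) (N (nat_lit 26) (N (nat_lit 25) (L (E (nat_lit 6) (nat_lit 0x17c0ba058028812c086) (nat_lit 0))) (L (E (nat_lit 6) (nat_lit 0x12008e0460228110086) (nat_lit 0)))) (N (nat_lit 28) (N (nat_lit 27) (L (E (nat_lit 6) (nat_lit 0x10d88343be1390430098) (nat_lit 0))) (L (E (nat_lit 6) (nat_lit 0x14c0a4051028013c09c) (nat_lit 0)))) (L (E (nat_lit 6) (nat_lit 0x10dc8363c413d04480a2) (nat_lit 0))))) (N (nat_lit 30) (L (E (nat_lit 6) (nat_lit 0x15409e04a02180f4070) (nat_lit 0))) (N (nat_lit 31) (L (E (nat_lit 6) (nat_lit 0x1680aa04f025010c07a) (nat_lit 0))) (L (E (nat_lit 6) (nat_lit 0x1700b00520260118080) (nat_lit 0))))))))) (cl0)) (N (nat_lit 85) (N (nat_lit 84) (N (nat_lit 80) (N (nat_lit 79) (L (E (nat_lit 6) (nat_lit 0x35c1a00ca06182ec166) (nat_lit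 0))) (L (E (nat_lit 6) (nat_lit 0x36c1a80cd0638300170) (nat_lit 0)))) (N (nat_lit 83) (N (nat_lit 82) (N (nat_lit 81) (L (E (nat_lit 6) (nat_lit 0x3801be0de06e83701b6) (nat_lit 0))) (L (E (nat_lit 6) (nat_lit 0x39c1cc0e5072038c1c4) (nat_lit 0)))) (L (E (nat_lit 6) (nat_lit 0x3901be0d8068832c188) (nat_lit 0)))) (L (E (nat_lit 6) (nat_lit 0x3a01c60de06b8340194) (nat_lit 0))))) (L (E (nat_lit 6) (nat_lit 0x4202000fb07983c01d2) (nat_lit 0)))) (N (nat_lit 86) (L (E (nat_lit 6) (nat_lit 0x3c01de0ee07683b01d6) (nat_lit 0))) (L (E (nat_lit 6) (nat_lit 0x3e41f00f707b03d41e8) (nat_lit 0)))))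
def cl2 : RA := N (nat_lit 152) (N (nat_lit 146) (N (nat_lit 140) (N (nat_lit 139) (N (nat_lit 136) (L (E (nat_lit 6) (nat_lit 0x5642b01570ab05542a8) (nat_lit 0))) (N (nat_lit 138) (N (nat_lit 137) (L (E (nat_lit 6) (nat_lit 0x5682b21580ab85582aa) (nat_lit 0))) (L (E (nat_lit 6) (nat_lit 0x5702a814c0a204ec266) (nat_lit 0)))) (L (E (nat_lit 6) (nat_lit 0x5842c015f0af05742b8) (nat_lit 0))))) (L (E (nat_lit 6) (nat_lit 0x5742aa14d0a284f0268) (nat_lit 0)))) (N (nat_lit 144) (N (nat_lit 141) (L (E (nat_lit 6) (nat_lit 0x5882c21600af85782ba) (nat_lit 0))) (N (nat_lit 142) (L (E (nat_lit 6) (nat_lit 0x5782ac14e0a304f426a) (nat_lit 0))) (N (nat_lit 143) (L (E (nat_lit 6) (nat_lit 0x57c2ae14f0a384f826c) (nat_lit 0))) (L (E (nat_lit 6) (nat_lit 0x5802b01500a404fc26e) (nat_lit 0)))))) (N (nat_lit 145) (L (E (nat_lit 6) (nat_lit 0x5942b81540a60510276) (nat_lit 0))) (L (E (nat_lit 6) (nat_lit 0x5a82d21680b385982ca) (nat_lit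 0)))))) (N (nat_lit 147) (L (E (nat_lit 6) (nat_lit 0x59c2bc1560a7051827a) (nat_lit 0))) (N (nat_lit 149) (N (nat_lit 148) (L (E (nat_lit 6) (nat_lit 0x5b02d616a0b485a02ce) (nat_lit 0))) (L (E (nat_lit 6) (nat_lit 0x5a02be1570a7851c27c) (nat_lit 0)))) (N (nat_lit 151) (N (nat_lit 150) (L (E (nat_lit 6) (nat_lit 0x5b42d816b0b505a42d0) (nat_lit 0))) (L (E (nat_lit 6) (nat_lit 0x5a42c01580a8052027e) (nat_lit 0)))) (L (E (nat_lit 6) (nat_lit 0x5a82c21590a88524280) (nat_lit 0))))))) (N (nat_lit 166) (N (nat_lit 157) (N (nat_lit 155) (N (nat_lit 154) (N (nat_lit 153) (L (E (nat_lit 6) (nat_lit 0x5b82cc15d0aa853428a) (nat_lit 0))) (L (E (nat_lit 6) (nat_lit 0x5cc2e41710b805bc2dc) (nat_lit 0)))) (L (E (nat_lit 6) (nat_lit 0x5bc2ce15e0ab053828c) (nat_lit 0)))) (N (nat_lit 156) (L (E (nat_lit 6) (nat_lit 0x5d02e61720b885c02de) (nat_lit 0))) (L (E (nat_lit 6) (nat_lit 0x5c02d015f0ab853c28e) (nat_lit 0))))) (N (nat_lit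 160) (N (nat_lit 158) (L (E (nat_lit 6) (nat_lit 0x5c82d41610ac8544292) (nat_lit 0))) (N (nat_lit 159) (L (E (nat_lit 6) (nat_lit 0x5d82e01680af855c29e) (nat_lit 0))) (L (E (nat_lit 6) (nat_lit 0x5ec2f41790bc05dc2ec) (nat_lit 0))))) (N (nat_lit 162) (N (nat_lit 161) (L (E (nat_lit 6) (nat_lit 0x5dc2e21690b005602a0) (nat_lit 0))) (L (E (nat_lit 6) (nat_lit 0x5e42e616b0b105682a4) (nat_lit 0)))) (N (nat_lit 163) (L (E (nat_lit 6) (nat_lit 0x5f02f01720b505842b2) (nat_lit 0))) (N (nat_lit 165) (N (nat_lit 164) (L (E (nat_lit 6) (nat_lit 0xaac4a21ee0d2064031c) (nat_lit 0))) (L (E (nat_lit 6) (nat_lit 0xb044d02060db065431e) (nat_lit 0)))) (L (E (nat_lit 6) (nat_lit 0xb9455c2540f8869c322) (nat_lit 0)))))))) (N (nat_lit 178) (N (nat_lit 169) (N (nat_lit 168) (N (nat_lit 167) (L (E (nat_lit 6) (nat_lit 0xb985662590fb86a8324) (nat_lit 0))) (L (E (nat_lit 6) (nat_lit 0xb9c56a25b0fc86b0328) (nat_lit 0)))) (L (E (nat_lit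 6) (nat_lit 0xba059027010686f032c) (nat_lit 0)))) (N (nat_lit 173) (N (nat_lit 172) (N (nat_lit 171) (N (nat_lit 170) (L (E (nat_lit 6) (nat_lit 0xba85a427c10c871c32e) (nat_lit 0))) (L (E (nat_lit 6) (nat_lit 0xbac5be28c1150748330) (nat_lit 0)))) (L (E (nat_lit 6) (nat_lit 0x6dc35e1a70cf866c332) (nat_lit 0)))) (L (E (nat_lit 6) (nat_lit 0x71c37c1b50d6869433a) (nat_lit 0)))) (N (nat_lit 175) (N (nat_lit 174) (L (E (nat_lit 6) (nat_lit 0x72037e1b60d7069833c) (nat_lit 0))) (L (E (nat_lit 6) (nat_lit 0x7243801b70d7869c33e) (nat_lit 0)))) (N (nat_lit 177) (N (nat_lit 176) (L (E (nat_lit 6) (nat_lit 0x7283821b80d806a0340) (nat_lit 0))) (L (E (nat_lit 6) (nat_lit 0x7343881bb0d906a8344) (nat_lit 0)))) (L (E (nat_lit 6) (nat_lit 0x69c34c1a50d2068c344) (nat_lit 0))))))) (N (nat_lit 182) (N (nat_lit 180) (N (nat_lit 179) (L (E (nat_lit 6) (nat_lit 0x73838a1bc0d986ac346) (nat_lit 0))) (L (E (nat_lit 6) (nat_lit 0x6a034e1a60d28690346)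 (nat_lit 0)))) (N (nat_lit 181) (L (E (nat_lit 6) (nat_lit 0x73c38c1bd0da06b0348) (nat_lit 0))) (L (E (nat_lit 6) (nat_lit 0x74038e1be0da86b434a) (nat_lit 0))))) (N (nat_lit 183) (L (E (nat_lit 6) (nat_lit 0x74839a1c40dd86c8354) (nat_lit 0))) (L (E (nat_lit 6) (nat_lit 0x74c39c1c50de06cc356) (nat_lit 0)))))))
def cl3 : RA := N (nat_lit 184) (cl2) (N (nat_lit 214) (N (nat_lit 203) (N (nat_lit 194) (N (nat_lit 189) (N (nat_lit 185) (L (E (nat_lit 6) (nat_lit 0x6c035e1ae0d686b0356) (nat_lit 0))) (N (nat_lit 186) (L (E (nat_lit 6) (nat_lit 0x6d836a1b40d986c8362) (nat_lit 0))) (N (nat_lit 187) (L (E (nat_lit 6) (nat_lit 0x6c83561a40ce8668332) (nat_lit 0))) (N (nat_lit 188) (L (E (nat_lit 6) (nat_lit 0x7503a61ce0e286f0366) (nat_lit 0))) (L (E (nat_lit 6) (nat_lit 0x6f837a1bc0dd86e8372) (nat_lit 0))))))) (N (nat_lit 191) (N (nat_lit 190) (L (E (nat_lit 6) (nat_lit 0x6ec3661ac0d28678336) (nat_lit 0))) (L (E (nat_lit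 6) (nat_lit 0x70037e1be0de86f0376) (nat_lit 0)))) (N (nat_lit 193) (N (nat_lit 192) (L (E (nat_lit 6) (nat_lit 0x6f019004b00b002c006) (nat_lit 0))) (L (E (nat_lit 6) (nat_lit 0x71c38c1c50e2070c384) (nat_lit 0)))) (L (E (nat_lit 6) (nat_lit 0xbb05d22ce13c0854386) (nat_lit 0)))))) (N (nat_lit 196) (N (nat_lit 195) (L (E (nat_lit 6) (nat_lit 0x72038e1c60e28710386) (nat_lit 0))) (L (E (nat_lit 6) (nat_lit 0x7103781b40d6869833e) (nat_lit 0)))) (N (nat_lit 200) (N (nat_lit 198) (N (nat_lit 197) (L (E (nat_lit 6) (nat_lit 0x71437a1b50d7069c340) (nat_lit 0))) (L (E (nat_lit 6) (nat_lit 0x71837c1b60d786a0342) (nat_lit 0)))) (N (nat_lit 199) (L (E (nat_lit 6) (nat_lit 0x72c3861bb0d986b034a) (nat_lit 0))) (L (E (nat_lit 6) (nat_lit 0x7303881bc0da06b434c) (nat_lit 0))))) (N (nat_lit 202) (N (nat_lit 201) (L (E (nat_lit 6) (nat_lit 0x7443a01cf0e70734398) (nat_lit 0))) (L (E (nat_lit 6) (nat_lit 0x73c38e1bf0db86c0352) (nat_lit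 0)))) (L (E (nat_lit 6) (nat_lit 0x74839c1c60df06d835e) (nat_lit 0))))))) (N (nat_lit 210) (N (nat_lit 208) (N (nat_lit 204) (L (E (nat_lit 6) (nat_lit 0x74c39e1c70df86dc360) (nat_lit 0))) (N (nat_lit 206) (N (nat_lit 205) (L (E (nat_lit 6) (nat_lit 0x8183f61f00f287743aa) (nat_lit 0))) (L (E (nat_lit 6) (nat_lit 0x81c3f81f10f307783ac) (nat_lit 0)))) (N (nat_lit 207) (L (E (nat_lit 6) (nat_lit 0x8203fa1f20f3877c3ae) (nat_lit 0))) (L (E (nat_lit 6) (nat_lit 0x8344061f80f687883b4) (nat_lit 0)))))) (N (nat_lit 209) (L (E (nat_lit 6) (nat_lit 0x8384081f90f7078c3b6) (nat_lit 0))) (L (E (nat_lit 6) (nat_lit 0x83c40a1fa0f787903b8) (nat_lit 0))))) (N (nat_lit 211) (L (E (nat_lit 6) (nat_lit 0x84040c1fb0f807943ba) (nat_lit 0))) (N (nat_lit 213) (N (nat_lit 212) (L (E (nat_lit 6) (nat_lit 0x8584182020fb87b03c2) (nat_lit 0))) (L (E (nat_lit 6) (nat_lit 0x7983ca1e40f187883c2) (nat_lit 0)))) (L (E (nat_lit 6) (nat_lit 0x79c3cc1e50f2078c3c4)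 (nat_lit 0))))))) (N (nat_lit 218) (N (nat_lit 216) (N (nat_lit 215) (L (E (nat_lit 6) (nat_lit 0x86041c2040fc87b83c6) (nat_lit 0))) (L (E (nat_lit 6) (nat_lit 0x7a03ce1e60f287903c6) (nat_lit 0)))) (N (nat_lit 217) (L (E (nat_lit 6) (nat_lit 0x86441e2050fd07bc3c8) (nat_lit 0))) (L (E (nat_lit 6) (nat_lit 0x7a43d01e70f307943c8) (nat_lit 0))))) (N (nat_lit 220) (N (nat_lit 219) (L (E (nat_lit 6) (nat_lit 0x8684202060fd87c03ca) (nat_lit 0))) (L (E (nat_lit 6) (nat_lit 0x86c4222070fe07c43cc) (nat_lit 0)))) (N (nat_lit 222) (N (nat_lit 221) (L (E (nat_lit 6) (nat_lit 0x87842820a10007d43d4) (nat_lit 0))) (L (E (nat_lit 6) (nat_lit 0x7bc3dc1ed0f607ac3d4) (nat_lit 0)))) (L (E (nat_lit 6) (nat_lit 0x88042c20c10107dc3d8) (nat_lit 0)))))))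
def cl4 : RA := N (nat_lit 99) (N (nat_lit 97) (N (nat_lit 95) (L (E (nat_lit 6) (nat_lit 0x4a824812008e045c21e) (nat_lit 0))) (N (nat_lit 96) (L (E (nat_lit 6) (nat_lit 0x4542281130890444220) (nat_lit 0))) (L (E (nat_lit 6) (nat_lit 0x45822a1140898448222) (nat_lit 0))))) (N (nat_lit 98) (L (E (nat_lit 6) (nat_lit 0x44821610607f83e81e6) (nat_lit 0))) (L (E (nat_lit 6) (nat_lit 0x47423211208584181fe) (nat_lit 0))))) (N (nat_lit 135) (N (nat_lit 100) (L (E (nat_lit 6) (nat_lit 0x48823e11b08a8438210) (nat_lit 0))) (N (nat_lit 113) (N (nat_lit 106) (N (nat_lit 101) (L (E (nat_lit 6) (nat_lit 0x4a42501270930494248) (nat_lit 0))) (N (nat_lit 105) (N (nat_lit 103) (N (nat_lit 102) (L (E (nat_lit 6) (nat_lit 0x4c426012f09704b4258) (nat_lit 0))) (L (E (nat_lit 6) (nat_lit 0x5642a014709e84d025c) (nat_lit 0)))) (N (nat_lit 104) (L (E (nat_lit 6) (nat_lit 0x5682a214809f04d425e) (nat_lit 0))) (L (E (nat_lit 6) (nat_lit 0x5782aa14c0a184e4264)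 (nat_lit 0))))) (L (E (nat_lit 6) (nat_lit 0x5842b014f0a304f0266) (nat_lit 0))))) (N (nat_lit 111) (N (nat_lit 110) (N (nat_lit 109) (N (nat_lit 108) (N (nat_lit 107) (L (E (nat_lit 6) (nat_lit 0x5902b61520a484fc26c) (nat_lit 0))) (L (E (nat_lit 6) (nat_lit 0x59c2ba1540a58508270) (nat_lit 0)))) (L (E (nat_lit 6) (nat_lit 0x4f427813b09d04e4270) (nat_lit 0)))) (L (E (nat_lit 6) (nat_lit 0x5a02bc1550a6050c272) (nat_lit 0)))) (L (E (nat_lit 6) (nat_lit 0x4f827a13c09d84e8272) (nat_lit 0)))) (N (nat_lit 112) (L (E (nat_lit 6) (nat_lit 0x5a42be1560a68510274) (nat_lit 0))) (L (E (nat_lit 6) (nat_lit 0x5a82c01570a70514276) (nat_lit 0)))))) (N (nat_lit 124) (N (nat_lit 121) (N (nat_lit 117) (N (nat_lit 115) (N (nat_lit 114) (L (E (nat_lit 6) (nat_lit 0x50027e13e09e84f0276) (nat_lit 0))) (L (E (nat_lit 6) (nat_lit 0x5ac2c21580a78518278) (nat_lit 0)))) (N (nat_lit 116) (L (E (nat_lit 6) (nat_lit 0x5b02c41590a8051c27a) (nat_lit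 0))) (L (E (nat_lit 6) (nat_lit 0x5b42c615a0a8852027c) (nat_lit 0))))) (N (nat_lit 120) (N (nat_lit 119) (N (nat_lit 118) (L (E (nat_lit 6) (nat_lit 0x5bc2cc15c0a98528282) (nat_lit 0))) (L (E (nat_lit 6) (nat_lit 0x51828a1440a18508282) (nat_lit 0)))) (L (E (nat_lit 6) (nat_lit 0x5c02ce15d0aa052c284) (nat_lit 0)))) (L (E (nat_lit 6) (nat_lit 0x51c28c1450a2050c284) (nat_lit 0))))) (N (nat_lit 122) (L (E (nat_lit 6) (nat_lit 0x52028e1460a28510286) (nat_lit 0))) (N (nat_lit 123) (L (E (nat_lit 6) (nat_lit 0x5c82d215f0ab0534288) (nat_lit 0))) (L (E (nat_lit 6) (nat_lit 0x5242901470a30514288) (nat_lit 0)))))) (N (nat_lit 128) (N (nat_lit 127) (N (nat_lit 125) (L (E (nat_lit 6) (nat_lit 0x5cc2d41600ab853828a) (nat_lit 0))) (N (nat_lit 126) (L (E (nat_lit 6) (nat_lit 0x5d42d81620ac854028e) (nat_lit 0))) (L (E (nat_lit 6) (nat_lit 0x53c29c14d0a6052c294) (nat_lit 0))))) (L (E (nat_lit 6) (nat_lit 0x54029e14e0a68530296)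 (nat_lit 0)))) (N (nat_lit 130) (N (nat_lit 129) (L (E (nat_lit 6) (nat_lit 0x5e02e21680af0554298) (nat_lit 0))) (L (E (nat_lit 6) (nat_lit 0x53428a13c09a04bc256) (nat_lit 0)))) (N (nat_lit 133) (N (nat_lit 131) (L (E (nat_lit 6) (nat_lit 0x5482a21500a7853829a) (nat_lit 0))) (N (nat_lit 132) (L (E (nat_lit 6) (nat_lit 0x5e82e616a0b0055c29c) (nat_lit 0))) (L (E (nat_lit 6) (nat_lit 0x5ec2e816b0b0856029e) (nat_lit 0))))) (N (nat_lit 134) (L (E (nat_lit 6) (nat_lit 0x5f02ee1700b385742a8) (nat_lit 0))) (L (E (nat_lit 6) (nat_lit 0x55029814409d84cc25c) (nat_lit 0)))))))))) (cl3))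
def cl5 : RA := N (nat_lit 273) (N (nat_lit 269) (N (nat_lit 264) (N (nat_lit 262) (L (E (nat_lit 6) (nat_lit 0x86443021710b0854428) (nat_lit 0))) (N (nat_lit 263) (L (E (nat_lit 6) (nat_lit 0x8544182030fc87bc3ca) (nat_lit 0))) (L (E (nat_lit 6) (nat_lit 0x85841a2040fd07c03cc) (nat_lit 0))))) (N (nat_lit 268) (N (nat_lit 265) (L (E (nat_lit 6) (nat_lit 0x86c43421910c085c42c) (nat_lit 0))) (N (nat_lit 266) (L (E (nat_lit 6) (nat_lit 0x85c41c2050fd87c43ce) (nat_lit 0))) (N (nat_lit 267) (L (E (nat_lit 6) (nat_lit 0x8644202070fe87cc3d2) (nat_lit 0))) (L (E (nat_lit 6) (nat_lit 0x88444021f10f0874438) (nat_lit 0)))))) (L (E (nat_lit 6) (nat_lit 0x87842a20c10187e43de) (nat_lit 0))))) (N (nat_lit 271) (N (nat_lit 270) (L (E (nat_lit 6) (nat_lit 0x88c444221110087c43c) (nat_lit 0))) (L (E (nat_lit 6) (nat_lit 0x87c42c20d10207e83e0) (nat_lit 0)))) (N (nat_lit 272) (L (E (nat_lit 6) (nat_lit 0x890446222110888043e) (nat_lit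 0))) (L (E (nat_lit 6) (nat_lit 0x88042e20e10287ec3e2) (nat_lit 0)))))) (N (nat_lit 283) (N (nat_lit 279) (N (nat_lit 275) (N (nat_lit 274) (L (E (nat_lit 6) (nat_lit 0x8944482231110884440) (nat_lit 0))) (L (E (nat_lit 6) (nat_lit 0x88443020f10307f03e4) (nat_lit 0)))) (N (nat_lit 276) (L (E (nat_lit 6) (nat_lit 0x88843221010387f43e6) (nat_lit 0))) (N (nat_lit 277) (L (E (nat_lit 6) (nat_lit 0x89843a21410588083f0) (nat_lit 0))) (N (nat_lit 278) (L (E (nat_lit 6) (nat_lit 0x89c43c215106080c3f2) (nat_lit 0))) (L (E (nat_lit 6) (nat_lit 0x8b045622a11488a044e) (nat_lit 0))))))) (N (nat_lit 282) (N (nat_lit 281) (N (nat_lit 280) (L (E (nat_lit 6) (nat_lit 0x8a043e21610688103f4) (nat_lit 0))) (L (E (nat_lit 6) (nat_lit 0x8b445822b11508a4450) (nat_lit 0)))) (L (E (nat_lit 6) (nat_lit 0x8a844221810788183f8) (nat_lit 0)))) (L (E (nat_lit 6) (nat_lit 0x8ac444219108081c3fa) (nat_lit 0))))) (N (nat_lit 294) (N (nat_lit 292)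 (N (nat_lit 285) (N (nat_lit 284) (L (E (nat_lit 6) (nat_lit 0x8b044621a10888203fc) (nat_lit 0))) (L (E (nat_lit 6) (nat_lit 0x8b845222010b883840a) (nat_lit 0)))) (N (nat_lit 286) (L (E (nat_lit 6) (nat_lit 0x8bc45422110c083c40c) (nat_lit 0))) (N (nat_lit 288) (N (nat_lit 287) (L (E (nat_lit 6) (nat_lit 0x8c845a22410d8848412) (nat_lit 0))) (L (E (nat_lit 6) (nat_lit 0x8cc46022b1110864420) (nat_lit 0)))) (N (nat_lit 290) (N (nat_lit 289) (L (E (nat_lit 6) (nat_lit 0x9784a824a12088e4468) (nat_lit 0))) (L (E (nat_lit 6) (nat_lit 0x9804ac24c12188ec46a) (nat_lit 0)))) (N (nat_lit 291) (L (E (nat_lit 6) (nat_lit 0x8ec47423911c08dc46c) (nat_lit 0))) (L (E (nat_lit 6) (nat_lit 0x9bc4c82591278914478) (nat_lit 0)))))))) (N (nat_lit 293) (L (E (nat_lit 6) (nat_lit 0x9c44cc25b128891c47c) (nat_lit 0))) (L (E (nat_lit 6) (nat_lit 0x9c84ce25c129092047e) (nat_lit 0))))) (N (nat_lit 299) (N (nat_lit 296) (N (nat_lit 295) (L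 (E (nat_lit 6) (nat_lit 0x9cc4d025d1298924480) (nat_lit 0))) (L (E (nat_lit 6) (nat_lit 0x9e04dc26312c0938488) (nat_lit 0)))) (N (nat_lit 298) (N (nat_lit 297) (L (E (nat_lit 6) (nat_lit 0x9244902471230914488) (nat_lit 0))) (L (E (nat_lit 6) (nat_lit 0x9e44de26412c893c48a) (nat_lit 0)))) (L (E (nat_lit 6) (nat_lit 0x928492248123891848a) (nat_lit 0))))) (N (nat_lit 300) (L (E (nat_lit 6) (nat_lit 0x92c494249124091c48c) (nat_lit 0))) (L (E (nat_lit 6) (nat_lit 0x9ec4e226612d894448e) (nat_lit 0)))))))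
def cl6 : RA := N (nat_lit 336) (N (nat_lit 316) (N (nat_lit 309) (N (nat_lit 307) (N (nat_lit 305) (N (nat_lit 303) (N (nat_lit 302) (L (E (nat_lit 6) (nat_lit 0x93049624a124892048e) (nat_lit 0))) (L (E (nat_lit 6) (nat_lit 0x9f44e626812e894c492) (nat_lit 0)))) (N (nat_lit 304) (L (E (nat_lit 6) (nat_lit 0x9f84e826912f0950494) (nat_lit 0))) (L (E (nat_lit 6) (nat_lit 0xa044ee26d131095c49a) (nat_lit 0))))) (N (nat_lit 306) (L (E (nat_lit 6) (nat_lit 0x9484a2250127893849a) (nat_lit 0))) (L (E (nat_lit 6) (nat_lit 0xa0c4f226f132096449e) (nat_lit 0))))) (N (nat_lit 308) (L (E (nat_lit 6) (nat_lit 0x9504a6252128894049e) (nat_lit 0))) (L (E (nat_lit 6) (nat_lit 0xa104f427013289684a0) (nat_lit 0))))) (N (nat_lit 312) (N (nat_lit 310) (L (E (nat_lit 6) (nat_lit 0x9544a825312909444a0) (nat_lit 0))) (N (nat_lit 311) (L (E (nat_lit 6) (nat_lit 0xa144f6271133096c4a2) (nat_lit 0))) (L (E (nat_lit 6) (nat_lit 0x9584aa25412989484a2)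 (nat_lit 0))))) (N (nat_lit 314) (N (nat_lit 313) (L (E (nat_lit 6) (nat_lit 0xa184f827213389704a4) (nat_lit 0))) (L (E (nat_lit 6) (nat_lit 0xa1c4fa27313409744a6) (nat_lit 0)))) (N (nat_lit 315) (L (E (nat_lit 6) (nat_lit 0x9704b625a12c89604ae) (nat_lit 0))) (L (E (nat_lit 6) (nat_lit 0xa2c504278137098c4b0) (nat_lit 0))))))) (N (nat_lit 319) (N (nat_lit 318) (N (nat_lit 317) (L (E (nat_lit 6) (nat_lit 0x9744b825b12d09644b0) (nat_lit 0))) (L (E (nat_lit 6) (nat_lit 0x9784ba25c12d89684b2) (nat_lit 0)))) (L (E (nat_lit 6) (nat_lit 0xa3450827a13809944b4) (nat_lit 0)))) (N (nat_lit 327) (N (nat_lit 324) (N (nat_lit 321) (N (nat_lit 320) (L (E (nat_lit 6) (nat_lit 0x9804be25e12e89704b6) (nat_lit 0))) (L (E (nat_lit 6) (nat_lit 0xa3c50c27c139099c4b8) (nat_lit 0)))) (N (nat_lit 323) (N (nat_lit 322) (L (E (nat_lit 6) (nat_lit 0xa4051228013b09b04c2) (nat_lit 0))) (L (E (nat_lit 6) (nat_lit 0x9984ca26413189884c2) (nat_lit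 0)))) (L (E (nat_lit 6) (nat_lit 0x9884b024f12308f846e) (nat_lit 0))))) (N (nat_lit 325) (L (E (nat_lit 6) (nat_lit 0xa4851628213c09b84c6) (nat_lit 0))) (N (nat_lit 326) (L (E (nat_lit 6) (nat_lit 0x98c4b225012388fc470) (nat_lit 0))) (L (E (nat_lit 6) (nat_lit 0x9a04ce26613289904c6) (nat_lit 0)))))) (N (nat_lit 329) (N (nat_lit 328) (L (E (nat_lit 6) (nat_lit 0xa4c51828313c89bc4c8) (nat_lit 0))) (L (E (nat_lit 6) (nat_lit 0x9904b42511240900472) (nat_lit 0)))) (N (nat_lit 330) (L (E (nat_lit 6) (nat_lit 0x9a44d026713309944c8) (nat_lit 0))) (N (nat_lit 331) (L (E (nat_lit 6) (nat_lit 0xa5051a28413d09c04ca) (nat_lit 0))) (N (nat_lit 333) (N (nat_lit 332) (L (E (nat_lit 6) (nat_lit 0x9944b62521248904474) (nat_lit 0))) (L (E (nat_lit 6) (nat_lit 0xa5451c28513d89c44cc) (nat_lit 0)))) (N (nat_lit 335) (N (nat_lit 334) (L (E (nat_lit 6) (nat_lit 0x9ac4c2257127091447a) (nat_lit 0))) (L (E (nat_lit 6) (nat_lit 0x9b04c4258127891847c)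 (nat_lit 0)))) (L (E (nat_lit 6) (nat_lit 0x9c44e026f13709b44d8) (nat_lit 0))))))))))) (N (nat_lit 354) (N (nat_lit 349) (N (nat_lit 341) (N (nat_lit 340) (N (nat_lit 338) (N (nat_lit 337) (L (E (nat_lit 6) (nat_lit 0xa5852228a14089dc4da) (nat_lit 0))) (L (E (nat_lit 6) (nat_lit 0x9b44c6259128091c47e) (nat_lit 0)))) (N (nat_lit 339) (L (E (nat_lit 6) (nat_lit 0x9c84e227013789b84da) (nat_lit 0))) (L (E (nat_lit 6) (nat_lit 0xa5c52428b14109e04dc) (nat_lit 0))))) (L (E (nat_lit 6) (nat_lit 0x9b84c825a1288920480) (nat_lit 0)))) (N (nat_lit 343) (N (nat_lit 342) (L (E (nat_lit 6) (nat_lit 0x9cc4e427113809bc4dc) (nat_lit 0))) (L (E (nat_lit 6) (nat_lit 0x9d04e627213889c04de) (nat_lit 0)))) (N (nat_lit 348) (N (nat_lit 346) (N (nat_lit 344) (L (E (nat_lit 6) (nat_lit 0x9c04cc25c1298928484) (nat_lit 0))) (N (nat_lit 345) (L (E (nat_lit 6) (nat_lit 0x9c44ce25d12a092c486) (nat_lit 0))) (L (E (nat_lit 6) (nat_lit 0x9e84f227813b89d84ea)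 (nat_lit 0))))) (N (nat_lit 347) (L (E (nat_lit 6) (nat_lit 0x9d84da26312c894048e) (nat_lit 0))) (L (E (nat_lit 6) (nat_lit 0x9ec4f427913c09dc4ec) (nat_lit 0))))) (L (E (nat_lit 6) (nat_lit 0x9dc4dc26412d0944490) (nat_lit 0)))))) (N (nat_lit 351) (N (nat_lit 350) (L (E (nat_lit 6) (nat_lit 0x9f04f627a13c89e04ee) (nat_lit 0))) (L (E (nat_lit 6) (nat_lit 0x9e04de26512d8948492) (nat_lit 0)))) (N (nat_lit 353) (N (nat_lit 352) (L (E (nat_lit 6) (nat_lit 0x9e44e026612e094c494) (nat_lit 0))) (L (E (nat_lit 6) (nat_lit 0x9f84fa27c13d89e84f2) (nat_lit 0)))) (L (E (nat_lit 6) (nat_lit 0x9e84e226712e8950496) (nat_lit 0)))))) (N (nat_lit 359) (N (nat_lit 357) (N (nat_lit 356) (N (nat_lit 355) (L (E (nat_lit 6) (nat_lit 0x9fc4ec26d13189644a0) (nat_lit 0))) (L (E (nat_lit 6) (nat_lit 0xa105062821408a004fe) (nat_lit 0)))) (L (E (nat_lit 6) (nat_lit 0xa044f026f132896c4a4) (nat_lit 0)))) (N (nat_lit 358) (L (E (nat_lit 6) (nat_lit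 0xa1850a2841418a08502) (nat_lit 0))) (L (E (nat_lit 6) (nat_lit 0xa084f227013309704a6) (nat_lit 0))))) (N (nat_lit 361) (N (nat_lit 360) (L (E (nat_lit 6) (nat_lit 0xa1c50c2851420a0c504) (nat_lit 0))) (L (E (nat_lit 6) (nat_lit 0xa0c4f427113389744a8) (nat_lit 0)))) (N (nat_lit 362) (L (E (nat_lit 6) (nat_lit 0xa104f627213409784aa) (nat_lit 0))) (N (nat_lit 367) (N (nat_lit 365) (N (nat_lit 363) (L (E (nat_lit 6) (nat_lit 0xa144f8273134897c4ac) (nat_lit 0))) (N (nat_lit 364) (L (E (nat_lit 6) (nat_lit 0xa2050027713709904b4) (nat_lit 0))) (L (E (nat_lit 6) (nat_lit 0xa3451828b1450a24510) (nat_lit 0))))) (N (nat_lit 366) (L (E (nat_lit 6) (nat_lit 0xa2450227813789944b6) (nat_lit 0))) (L (E (nat_lit 6) (nat_lit 0xa3851a28c1458a28512) (nat_lit 0))))) (L (E (nat_lit 6) (nat_lit 0xa2850427913809984b8) (nat_lit 0))))))))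
def cl7 : RA := N (nat_lit 301) (N (nat_lit 261) (N (nat_lit 236) (N (nat_lit 232) (N (nat_lit 225) (N (nat_lit 224) (L (E (nat_lit 6) (nat_lit 0x7c43e01ef0f707b43d8) (nat_lit 0))) (L (E (nat_lit 6) (nat_lit 0x88442e20d10187e03da) (nat_lit 0)))) (N (nat_lit 226) (L (E (nat_lit 6) (nat_lit 0x7c83e21f00f787b83da) (nat_lit 0))) (N (nat_lit 227) (L (E (nat_lit 6) (nat_lit 0x88843020e10207e43dc) (nat_lit 0))) (N (nat_lit 230) (N (nat_lit 229) (N (nat_lit 228) (L (E (nat_lit 6) (nat_lit 0x7cc3e41f10f807bc3dc) (nat_lit 0))) (L (E (nat_lit 6) (nat_lit 0x7d03e61f20f887c03de) (nat_lit 0)))) (L (E (nat_lit 6) (nat_lit 0x89043421010307ec3e0) (nat_lit 0)))) (N (nat_lit 231) (L (E (nat_lit 6) (nat_lit 0x89443621110387f03e2) (nat_lit 0))) (L (E (nat_lit 6) (nat_lit 0x7e83f21f80fb87d83ea) (nat_lit 0)))))))) (N (nat_lit 234) (N (nat_lit 233) (L (E (nat_lit 6) (nat_lit 0x8a443e21510588043ec) (nat_lit 0))) (L (E (nat_lit 6) (nat_lit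 0x7ec3f41f90fc07dc3ec) (nat_lit 0)))) (N (nat_lit 235) (L (E (nat_lit 6) (nat_lit 0x7f03f61fa0fc87e03ee) (nat_lit 0))) (L (E (nat_lit 6) (nat_lit 0x8ac442217106880c3f0) (nat_lit 0)))))) (N (nat_lit 251) (N (nat_lit 243) (N (nat_lit 241) (N (nat_lit 240) (N (nat_lit 238) (N (nat_lit 237) (L (E (nat_lit 6) (nat_lit 0x8b044421810708103f2) (nat_lit 0))) (L (E (nat_lit 6) (nat_lit 0x7f83fa1fc0fd87e83f2) (nat_lit 0)))) (N (nat_lit 239) (L (E (nat_lit 6) (nat_lit 0x8b444621910788143f4) (nat_lit 0))) (L (E (nat_lit 6) (nat_lit 0x81040620210088003fe) (nat_lit 0))))) (L (E (nat_lit 6) (nat_lit 0x8bc45221f10a882c402) (nat_lit 0)))) (N (nat_lit 242) (L (E (nat_lit 6) (nat_lit 0x81840a2041018808402) (nat_lit 0))) (L (E (nat_lit 6) (nat_lit 0x8c045422010b0830404) (nat_lit 0))))) (N (nat_lit 245) (N (nat_lit 244) (L (E (nat_lit 6) (nat_lit 0x8083f01ee0f207743ac) (nat_lit 0))) (L (E (nat_lit 6) (nat_lit 0x81c40c205102080c404)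 (nat_lit 0)))) (N (nat_lit 247) (N (nat_lit 246) (L (E (nat_lit 6) (nat_lit 0x8c445622110b8834406) (nat_lit 0))) (L (E (nat_lit 6) (nat_lit 0x80c3f21ef0f287783ae) (nat_lit 0)))) (N (nat_lit 248) (L (E (nat_lit 6) (nat_lit 0x82040e2061028810406) (nat_lit 0))) (N (nat_lit 249) (L (E (nat_lit 6) (nat_lit 0x8103f41f00f3077c3b0) (nat_lit 0))) (N (nat_lit 250) (L (E (nat_lit 6) (nat_lit 0x8244102071030814408) (nat_lit 0))) (L (E (nat_lit 6) (nat_lit 0x8143f61f10f387803b2) (nat_lit 0))))))))) (N (nat_lit 255) (N (nat_lit 254) (N (nat_lit 253) (N (nat_lit 252) (L (E (nat_lit 6) (nat_lit 0x8284021f70f6878c3b8) (nat_lit 0))) (L (E (nat_lit 6) (nat_lit 0x83c41c20d106082c414) (nat_lit 0)))) (L (E (nat_lit 6) (nat_lit 0x82c4041f80f707903ba) (nat_lit 0)))) (L (E (nat_lit 6) (nat_lit 0x84041e20e1068830416) (nat_lit 0)))) (N (nat_lit 260) (N (nat_lit 256) (L (E (nat_lit 6) (nat_lit 0x84442020f1070834418) (nat_lit 0))) (N (nat_lit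 258) (N (nat_lit 257) (L (E (nat_lit 6) (nat_lit 0x848422210107883841a) (nat_lit 0))) (L (E (nat_lit 6) (nat_lit 0x83840a1fb0f8879c3c0) (nat_lit 0)))) (N (nat_lit 259) (L (E (nat_lit 6) (nat_lit 0x84c4142010fb87b43c6) (nat_lit 0))) (L (E (nat_lit 6) (nat_lit 0x86042e21610a8850426) (nat_lit 0)))))) (L (E (nat_lit 6) (nat_lit 0x8504162020fc07b83c8) (nat_lit 0))))))) (cl5)) (cl6)
def cl8 : RA := N (nat_lit 388) (N (nat_lit 374) (N (nat_lit 370) (N (nat_lit 369) (L (E (nat_lit 6) (nat_lit 0xa3c51c28d1460a2c514) (nat_lit 0))) (L (E (nat_lit 6) (nat_lit 0xa3050827b13909a04bc) (nat_lit 0)))) (N (nat_lit 371) (L (E (nat_lit 6) (nat_lit 0xa3450a27c13989a44be) (nat_lit 0))) (N (nat_lit 372) (L (E (nat_lit 6) (nat_lit 0xa3850c27d13a09a84c0) (nat_lit 0))) (N (nat_lit 373) (L (E (nat_lit 6) (nat_lit 0xa4051428213c89c04cc) (nat_lit 0))) (L (E (nat_lit 6) (nat_lit 0xa545282931490a44520) (nat_lit 0))))))) (N (nat_lit 376) (N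 (nat_lit 375) (L (E (nat_lit 6) (nat_lit 0xa4451628313d09c44ce) (nat_lit 0))) (L (E (nat_lit 6) (nat_lit 0xa4851828413d89c84d0) (nat_lit 0)))) (N (nat_lit 381) (N (nat_lit 379) (N (nat_lit 378) (N (nat_lit 377) (L (E (nat_lit 6) (nat_lit 0xa5c52628d14289f04e6) (nat_lit 0))) (L (E (nat_lit 6) (nat_lit 0xb085702ae1520a74530) (nat_lit 0)))) (L (E (nat_lit 6) (nat_lit 0xb2457e2b51558a84534) (nat_lit 0)))) (N (nat_lit 380) (L (E (nat_lit 6) (nat_lit 0xb2c5822b71568a8c538) (nat_lit 0))) (L (E (nat_lit 6) (nat_lit 0xb3858c2bc1590aa053c) (nat_lit 0))))) (N (nat_lit 387) (N (nat_lit 385) (N (nat_lit 383) (N (nat_lit 382) (L (E (nat_lit 6) (nat_lit 0xa905462a21508a8053e) (nat_lit 0))) (L (E (nat_lit 6) (nat_lit 0xb405902be15a0aa8540) (nat_lit 0)))) (N (nat_lit 384) (L (E (nat_lit 6) (nat_lit 0xb485942c015b0ab0544) (nat_lit 0))) (L (E (nat_lit 6) (nat_lit 0xb4c5962c115b8ab4546) (nat_lit 0))))) (N (nat_lit 386) (L (E (nat_lit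 6) (nat_lit 0xb545982c415d0ac054c) (nat_lit 0))) (L (E (nat_lit 6) (nat_lit 0xb5859a2c515d8ac454e) (nat_lit 0))))) (L (E (nat_lit 6) (nat_lit 0xab05562aa1548aa054e) (nat_lit 0))))))) (N (nat_lit 398) (N (nat_lit 392) (N (nat_lit 389) (L (E (nat_lit 6) (nat_lit 0xb5c59c2c615e0ac8550) (nat_lit 0))) (N (nat_lit 390) (L (E (nat_lit 6) (nat_lit 0xab45582ab1550aa4550) (nat_lit 0))) (N (nat_lit 391) (L (E (nat_lit 6) (nat_lit 0xb6059e2c715e8acc552) (nat_lit 0))) (L (E (nat_lit 6) (nat_lit 0xb645a02c815f0ad0554) (nat_lit 0)))))) (N (nat_lit 397) (N (nat_lit 394) (N (nat_lit 393) (L (E (nat_lit 6) (nat_lit 0xabc55c2ad1560aac554) (nat_lit 0))) (L (E (nat_lit 6) (nat_lit 0xb685a22c915f8ad4556) (nat_lit 0)))) (N (nat_lit 396) (N (nat_lit 395) (L (E (nat_lit 6) (nat_lit 0xb6c5a42ca1600ad8558) (nat_lit 0))) (L (E (nat_lit 6) (nat_lit 0xad856a2b41598ac8562) (nat_lit 0)))) (L (E (nat_lit 6) (nat_lit 0xadc56c2b515a0acc564) (nat_lit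 0))))) (L (E (nat_lit 6) (nat_lit 0xb7c5b02cf1638af4566) (nat_lit 0))))) (N (nat_lit 410) (N (nat_lit 404) (N (nat_lit 402) (N (nat_lit 401) (N (nat_lit 399) (L (E (nat_lit 6) (nat_lit 0xae056e2b615a8ad0566) (nat_lit 0))) (N (nat_lit 400) (L (E (nat_lit 6) (nat_lit 0xb845b42d11648afc56a) (nat_lit 0))) (L (E (nat_lit 6) (nat_lit 0xafc57c2bd15e0aec574) (nat_lit 0))))) (L (E (nat_lit 6) (nat_lit 0xb885ba2d61668b14576) (nat_lit 0)))) (N (nat_lit 403) (L (E (nat_lit 6) (nat_lit 0xb0057e2be15e8af0576) (nat_lit 0))) (L (E (nat_lit 6) (nat_lit 0xb8c5bc2d71670b18578) (nat_lit 0))))) (N (nat_lit 408) (N (nat_lit 405) (L (E (nat_lit 6) (nat_lit 0xb045802bf15f0af4578) (nat_lit 0))) (N (nat_lit 407) (N (nat_lit 406) (L (E (nat_lit 6) (nat_lit 0xaf856a2ac1518a74532) (nat_lit 0))) (L (E (nat_lit 6) (nat_lit 0xb2058e2c61628b10586) (nat_lit 0)))) (L (E (nat_lit 6) (nat_lit 0xb105762b21548a80534) (nat_lit 0))))) (N (nat_lit 409)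 (L (E (nat_lit 6) (nat_lit 0xb145782b31550a84536) (nat_lit 0))) (L (E (nat_lit 6) (nat_lit 0xb285922c81638b1858a) (nat_lit 0)))))) (N (nat_lit 412) (N (nat_lit 411) (L (E (nat_lit 6) (nat_lit 0xb3058a2bc1598aa8542) (nat_lit 0))) (L (E (nat_lit 6) (nat_lit 0xb445a02cf1670b34598) (nat_lit 0)))) (N (nat_lit 413) (L (E (nat_lit 6) (nat_lit 0xb3458c2bd15a0aac544) (nat_lit 0))) (L (E (nat_lit 6) (nat_lit 0xb485a22d01678b3859a) (nat_lit 0)))))))
def cl9 : RA := N (nat_lit 435) (N (nat_lit 423) (N (nat_lit 418) (N (nat_lit 415) (L (E (nat_lit 6) (nat_lit 0xb3858e2be15a8ab0546) (nat_lit 0))) (N (nat_lit 417) (N (nat_lit 416) (L (E (nat_lit 6) (nat_lit 0xb4c5a42d11680b3c59c) (nat_lit 0))) (L (E (nat_lit 6) (nat_lit 0xb3c5902bf15b0ab4548) (nat_lit 0)))) (L (E (nat_lit 6) (nat_lit 0xb405922c015b8ab854a) (nat_lit 0))))) (N (nat_lit 421) (N (nat_lit 420) (N (nat_lit 419) (L (E (nat_lit 6) (nat_lit 0xb505982c515e0acc554) (nat_lit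 0))) (L (E (nat_lit 6) (nat_lit 0xb645b02d716b0b545a8) (nat_lit 0)))) (L (E (nat_lit 6) (nat_lit 0xb5459a2c615e8ad0556) (nat_lit 0)))) (N (nat_lit 422) (L (E (nat_lit 6) (nat_lit 0xb6c5b42d916c0b5c5ac) (nat_lit 0))) (L (E (nat_lit 6) (nat_lit 0xb5c59e2c815f8ad855a) (nat_lit 0)))))) (N (nat_lit 426) (N (nat_lit 425) (N (nat_lit 424) (L (E (nat_lit 6) (nat_lit 0xb605a02c91600adc55c) (nat_lit 0))) (L (E (nat_lit 6) (nat_lit 0xb705ac2ce1638af856a) (nat_lit 0)))) (L (E (nat_lit 6) (nat_lit 0xb745ae2cf1640afc56c) (nat_lit 0)))) (N (nat_lit 429) (N (nat_lit 428) (N (nat_lit 427) (L (E (nat_lit 6) (nat_lit 0xb805b42d21658b08572) (nat_lit 0))) (L (E (nat_lit 6) (nat_lit 0xb885bc2d81680b24580) (nat_lit 0)))) (L (E (nat_lit 6) (nat_lit 0xb8c5be2d91688b28582) (nat_lit 0)))) (N (nat_lit 432) (N (nat_lit 431) (N (nat_lit 430) (L (E (nat_lit 6) (nat_lit 0xb905c02da1690b2c584) (nat_lit 0))) (L (E (nat_lit 6) (nat_lit 0xf4074c35a1870bc85da)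 (nat_lit 0)))) (L (E (nat_lit 6) (nat_lit 0xf4c75e36518c8bd45de) (nat_lit 0)))) (N (nat_lit 433) (L (E (nat_lit 6) (nat_lit 0xf5476836c18f0bd85e0) (nat_lit 0))) (N (nat_lit 434) (L (E (nat_lit 6) (nat_lit 0xf607883801970bec5e2) (nat_lit 0))) (L (E (nat_lit 6) (nat_lit 0xf647a23ab1b08c545e6) (nat_lit 0))))))))) (N (nat_lit 445) (N (nat_lit 436) (L (E (nat_lit 6) (nat_lit 0xbd03580b801e8048010) (nat_lit 0))) (N (nat_lit 438) (N (nat_lit 437) (L (E (nat_lit 6) (nat_lit 0xbdc36c0c30230050012) (nat_lit 0))) (L (E (nat_lit 6) (nat_lit 0xbe03740c60248054014) (nat_lit 0)))) (N (nat_lit 442) (N (nat_lit 439) (L (E (nat_lit 6) (nat_lit 0xbf039a0d602b8060018) (nat_lit 0))) (N (nat_lit 441) (N (nat_lit 440) (L (E (nat_lit 6) (nat_lit 0xca46423181878c20604) (nat_lit 0))) (L (E (nat_lit 6) (nat_lit 0xca86443191880c24606) (nat_lit 0)))) (L (E (nat_lit 6) (nat_lit 0xcb464a31d18a0c2c608) (nat_lit 0))))) (N (nat_lit 443) (L (E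 (nat_lit 6) (nat_lit 0xc246103071830c14608) (nat_lit 0))) (N (nat_lit 444) (L (E (nat_lit 6) (nat_lit 0xcbc64e31f18b0c3460c) (nat_lit 0))) (L (E (nat_lit 6) (nat_lit 0xcc065032018b8c3860e) (nat_lit 0)))))))) (N (nat_lit 459) (N (nat_lit 452) (N (nat_lit 449) (N (nat_lit 447) (N (nat_lit 446) (L (E (nat_lit 6) (nat_lit 0xccc65832418e0c4c614) (nat_lit 0))) (L (E (nat_lit 6) (nat_lit 0xcd065a32518e8c50616) (nat_lit 0)))) (N (nat_lit 448) (L (E (nat_lit 6) (nat_lit 0xcd465c32618f0c54618) (nat_lit 0))) (L (E (nat_lit 6) (nat_lit 0xcd865e32718f8c5861a) (nat_lit 0))))) (N (nat_lit 451) (N (nat_lit 450) (L (E (nat_lit 6) (nat_lit 0xc486223101878c3861a) (nat_lit 0))) (L (E (nat_lit 6) (nat_lit 0xce066632c1920c70626) (nat_lit 0)))) (L (E (nat_lit 6) (nat_lit 0xce466832d1928c74628) (nat_lit 0))))) (N (nat_lit 456) (N (nat_lit 454) (N (nat_lit 453) (L (E (nat_lit 6) (nat_lit 0xc506183061808bfc5fa) (nat_lit 0))) (L (E (nat_lit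 6) (nat_lit 0xc6463031718b0c54628) (nat_lit 0)))) (N (nat_lit 455) (L (E (nat_lit 6) (nat_lit 0xc5461a3071810c005fc) (nat_lit 0))) (L (E (nat_lit 6) (nat_lit 0xc7462a30d1838c08600) (nat_lit 0))))) (N (nat_lit 457) (L (E (nat_lit 6) (nat_lit 0xc8864232018f8c7863a) (nat_lit 0))) (N (nat_lit 458) (L (E (nat_lit 6) (nat_lit 0xca86523281938c9864a) (nat_lit 0))) (L (E (nat_lit 6) (nat_lit 0xcac64831d18a8c3460e) (nat_lit 0))))))) (N (nat_lit 465) (N (nat_lit 462) (N (nat_lit 460) (L (E (nat_lit 6) (nat_lit 0xcc065e32e1968cb0656) (nat_lit 0))) (N (nat_lit 461) (L (E (nat_lit 6) (nat_lit 0xcc865832518f0c5861c) (nat_lit 0))) (L (E (nat_lit 6) (nat_lit 0xcdc66c33519a0ccc664) (nat_lit 0))))) (N (nat_lit 463) (L (E (nat_lit 6) (nat_lit 0xccc65a32618f8c5c61e) (nat_lit 0))) (N (nat_lit 464) (L (E (nat_lit 6) (nat_lit 0xcd065c3271900c60620) (nat_lit 0))) (L (E (nat_lit 6) (nat_lit 0xcd86603291910c68624) (nat_lit 0)))))) (N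 (nat_lit 468) (N (nat_lit 466) (L (E (nat_lit 6) (nat_lit 0xce066832e1938c80630) (nat_lit 0))) (N (nat_lit 467) (L (E (nat_lit 6) (nat_lit 0xce866c3301948c88634) (nat_lit 0))) (L (E (nat_lit 6) (nat_lit 0xcec66e3311950c8c636) (nat_lit 0))))) (N (nat_lit 469) (L (E (nat_lit 6) (nat_lit 0xd906b63511a38d00678) (nat_lit 0))) (N (nat_lit 470) (L (E (nat_lit 6) (nat_lit 0xd0c6843411a00cfc67c) (nat_lit 0))) (L (E (nat_lit 6) (nat_lit 0xdb86c635a1a80d1867e) (nat_lit 0)))))))))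
def cl10 : RA := N (nat_lit 483) (N (nat_lit 414) (cl8) (N (nat_lit 471) (cl9) (N (nat_lit 477) (N (nat_lit 474) (N (nat_lit 472) (L (E (nat_lit 6) (nat_lit 0xdbc6c835b1a88d1c680) (nat_lit 0))) (N (nat_lit 473) (L (E (nat_lit 6) (nat_lit 0xdc06ca35c1a90d20682) (nat_lit 0))) (L (E (nat_lit 6) (nat_lit 0xdc46cc35d1a98d24684) (nat_lit 0))))) (N (nat_lit 475) (L (E (nat_lit 6) (nat_lit 0xdd86d83611ac0d38688) (nat_lit 0))) (N (nat_lit 476) (L (E (nat_lit 6) (nat_lit 0xddc6da3621ac8d3c68a) (nat_lit 0))) (L (E (nat_lit 6) (nat_lit 0xd286923481a38d1868a) (nat_lit 0)))))) (N (nat_lit 481) (N (nat_lit 478) (L (E (nat_lit 6) (nat_lit 0xde06dc3631ad0d4068c) (nat_lit 0))) (N (nat_lit 479) (L (E (nat_lit 6) (nat_lit 0xde86e03651ae0d48690) (nat_lit 0))) (N (nat_lit 480) (L (E (nat_lit 6) (nat_lit 0xdf86e836a1af8d58698) (nat_lit 0))) (L (E (nat_lit 6) (nat_lit 0xd446a034f1a70d34698) (nat_lit 0)))))) (N (nat_lit 482) (L (E (nat_lit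 6) (nat_lit 0xdfc6ea36b1b00d5c69a) (nat_lit 0))) (L (E (nat_lit 6) (nat_lit 0xd486a23501a78d3869a) (nat_lit 0)))))))) (N (nat_lit 498) (N (nat_lit 492) (N (nat_lit 489) (N (nat_lit 484) (L (E (nat_lit 6) (nat_lit 0xe046ee36d1b10d6469e) (nat_lit 0))) (N (nat_lit 485) (L (E (nat_lit 6) (nat_lit 0xd506a63521a88d4069e) (nat_lit 0))) (N (nat_lit 486) (L (E (nat_lit 6) (nat_lit 0xe0c6f236f1b20d6c6a2) (nat_lit 0))) (N (nat_lit 488) (N (nat_lit 487) (L (E (nat_lit 6) (nat_lit 0xe106f43701b28d706a4) (nat_lit 0))) (L (E (nat_lit 6) (nat_lit 0xe146fa3731b48d786aa) (nat_lit 0)))) (L (E (nat_lit 6) (nat_lit 0xd686b23581ab8d586aa) (nat_lit 0))))))) (N (nat_lit 491) (N (nat_lit 490) (L (E (nat_lit 6) (nat_lit 0xd6c6b43591ac0d5c6ac) (nat_lit 0))) (L (E (nat_lit 6) (nat_lit 0xe1c6fe3751b58d806ae) (nat_lit 0)))) (L (E (nat_lit 6) (nat_lit 0xe207003761b60d846b0) (nat_lit 0))))) (N (nat_lit 494) (N (nat_lit 493) (L (E (nat_lit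 6) (nat_lit 0xd746b835b1ad0d646b0) (nat_lit 0))) (L (E (nat_lit 6) (nat_lit 0xe247023771b68d886b2) (nat_lit 0)))) (N (nat_lit 496) (N (nat_lit 495) (L (E (nat_lit 6) (nat_lit 0xe287043781b70d8c6b4) (nat_lit 0))) (L (E (nat_lit 6) (nat_lit 0xe2c7063791b78d906b6) (nat_lit 0)))) (N (nat_lit 497) (L (E (nat_lit 6) (nat_lit 0xe3870c37e1ba0da86be) (nat_lit 0))) (L (E (nat_lit 6) (nat_lit 0xd906c63621b08d806be) (nat_lit 0))))))) (N (nat_lit 514) (N (nat_lit 502) (N (nat_lit 499) (L (E (nat_lit 6) (nat_lit 0xe3c70e37f1ba8dac6c0) (nat_lit 0))) (N (nat_lit 501) (N (nat_lit 500) (L (E (nat_lit 6) (nat_lit 0xd806b034f1a30d0067a) (nat_lit 0))) (L (E (nat_lit 6) (nat_lit 0xd946c83631b10d846c0) (nat_lit 0)))) (L (E (nat_lit 6) (nat_lit 0xe407103801bb0db06c2) (nat_lit 0))))) (N (nat_lit 510) (N (nat_lit 504) (N (nat_lit 503) (L (E (nat_lit 6) (nat_lit 0xd986ca3641b18d886c2) (nat_lit 0))) (L (E (nat_lit 6) (nat_lit 0xe447123811bb8db46c4)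 (nat_lit 0)))) (N (nat_lit 509) (N (nat_lit 508) (N (nat_lit 506) (N (nat_lit 505) (L (E (nat_lit 6) (nat_lit 0xd9c6cc3651b20d8c6c4) (nat_lit 0))) (L (E (nat_lit 6) (nat_lit 0xda06bc3561a68d1067c) (nat_lit 0)))) (N (nat_lit 507) (L (E (nat_lit 6) (nat_lit 0xe4871a3851be8dcc6d2) (nat_lit 0))) (L (E (nat_lit 6) (nat_lit 0xdb86da36c1b58da86d2) (nat_lit 0))))) (L (E (nat_lit 6) (nat_lit 0xe4c71c3861bf0dd06d4) (nat_lit 0)))) (L (E (nat_lit 6) (nat_lit 0xda86c03581a78d18680) (nat_lit 0))))) (N (nat_lit 511) (L (E (nat_lit 6) (nat_lit 0xdbc6dc36d1b60dac6d4) (nat_lit 0))) (N (nat_lit 513) (N (nat_lit 512) (L (E (nat_lit 6) (nat_lit 0xe5071e3871bf8dd46d6) (nat_lit 0))) (L (E (nat_lit 6) (nat_lit 0xdac6c23591a80d1c682) (nat_lit 0)))) (L (E (nat_lit 6) (nat_lit 0xdc06de36e1b68db06d6) (nat_lit 0))))))) (N (nat_lit 518) (N (nat_lit 517) (N (nat_lit 516) (N (nat_lit 515) (L (E (nat_lit 6) (nat_lit 0xdb06c435a1a88d20684) (nat_lit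 0))) (L (E (nat_lit 6) (nat_lit 0xdc86d235f1ab8d3868a) (nat_lit 0)))) (L (E (nat_lit 6) (nat_lit 0xddc6ec3751ba0dcc6e4) (nat_lit 0)))) (L (E (nat_lit 6) (nat_lit 0xde06ee3761ba8dd06e6) (nat_lit 0)))) (N (nat_lit 519) (L (E (nat_lit 6) (nat_lit 0xdd06d63611ac8d4068e) (nat_lit 0))) (N (nat_lit 521) (N (nat_lit 520) (L (E (nat_lit 6) (nat_lit 0xdd46d83621ad0d44690) (nat_lit 0))) (L (E (nat_lit 6) (nat_lit 0xde86f23781bb8dd86ea) (nat_lit 0)))) (L (E (nat_lit 6) (nat_lit 0xdd86da3631ad8d48692) (nat_lit 0))))))))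
def cl11 : RA := N (nat_lit 563) (N (nat_lit 550) (N (nat_lit 544) (N (nat_lit 543) (L (E (nat_lit 6) (nat_lit 0xe3c7103811bc0dbc6ca) (nat_lit 0))) (L (E (nat_lit 6) (nat_lit 0xe407123821bc8dc06cc) (nat_lit 0)))) (N (nat_lit 546) (N (nat_lit 545) (L (E (nat_lit 6) (nat_lit 0xe4871c3871c00ddc6dc) (nat_lit 0))) (L (E (nat_lit 6) (nat_lit 0xe4c71e3881c08de06de) (nat_lit 0)))) (N (nat_lit 547) (L (E (nat_lit 6) (nat_lit 0xef476a3ac1d28e6c72a) (nat_lit 0))) (N (nat_lit 548) (L (E (nat_lit 6) (nat_lit 0xefc76e3ae1d38e7472e) (nat_lit 0))) (N (nat_lit 549) (L (E (nat_lit 6) (nat_lit 0xe7473839b1cd0e64730) (nat_lit 0))) (L (E (nat_lit 6) (nat_lit 0xf0c7763b31d50e8c732) (nat_lit 0)))))))) (N (nat_lit 558) (N (nat_lit 553) (N (nat_lit 552) (N (nat_lit 551) (L (E (nat_lit 6) (nat_lit 0xf107783b41d58e90734) (nat_lit 0))) (L (E (nat_lit 6) (nat_lit 0xe7c73c39d1ce0e6c734) (nat_lit 0)))) (L (E (nat_lit 6) (nat_lit 0xf1477a3b51d60e94736)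 (nat_lit 0)))) (N (nat_lit 555) (N (nat_lit 554) (L (E (nat_lit 6) (nat_lit 0xe8073e39e1ce8e70736) (nat_lit 0))) (L (E (nat_lit 6) (nat_lit 0xf1877c3b61d68e98738) (nat_lit 0)))) (N (nat_lit 557) (N (nat_lit 556) (L (E (nat_lit 6) (nat_lit 0xf1c77e3b71d70e9c73a) (nat_lit 0))) (L (E (nat_lit 6) (nat_lit 0xe9874a3a41d18e88742) (nat_lit 0)))) (L (E (nat_lit 6) (nat_lit 0xf287863bb1d98ea8746) (nat_lit 0)))))) (N (nat_lit 562) (N (nat_lit 559) (L (E (nat_lit 6) (nat_lit 0xea074e3a61d28e90746) (nat_lit 0))) (N (nat_lit 561) (N (nat_lit 560) (L (E (nat_lit 6) (nat_lit 0xf2c7883bc1da0eac748) (nat_lit 0))) (L (E (nat_lit 6) (nat_lit 0xea47503a71d30e94748) (nat_lit 0)))) (L (E (nat_lit 6) (nat_lit 0xf3078a3bd1da8eb074a) (nat_lit 0))))) (L (E (nat_lit 6) (nat_lit 0xebc75c3ad1d60eac754) (nat_lit 0)))))) (N (nat_lit 580) (N (nat_lit 572) (N (nat_lit 569) (N (nat_lit 567) (N (nat_lit 566) (N (nat_lit 564) (L (E (nat_lit 6)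 (nat_lit 0xf387963c41de0ed0756) (nat_lit 0))) (N (nat_lit 565) (L (E (nat_lit 6) (nat_lit 0xec075e3ae1d68eb0756) (nat_lit 0))) (L (E (nat_lit 6) (nat_lit 0xed876a3b41d98ec8762) (nat_lit 0))))) (L (E (nat_lit 6) (nat_lit 0xedc76c3b51da0ecc764) (nat_lit 0)))) (N (nat_lit 568) (L (E (nat_lit 6) (nat_lit 0xee47643aa1d20e6c72c) (nat_lit 0))) (L (E (nat_lit 6) (nat_lit 0xefc77c3bd1de0eec774) (nat_lit 0))))) (N (nat_lit 571) (N (nat_lit 570) (L (E (nat_lit 6) (nat_lit 0xf007723b21d50e90736) (nat_lit 0))) (L (E (nat_lit 6) (nat_lit 0xf1878a3c41e18f08782) (nat_lit 0)))) (L (E (nat_lit 6) (nat_lit 0xf087763b41d60e9873a) (nat_lit 0))))) (N (nat_lit 576) (N (nat_lit 575) (N (nat_lit 574) (N (nat_lit 573) (L (E (nat_lit 6) (nat_lit 0xf0c7783b51d68e9c73c) (nat_lit 0))) (L (E (nat_lit 6) (nat_lit 0xf1477c3b71d78ea4740) (nat_lit 0)))) (L (E (nat_lit 6) (nat_lit 0xf207843bb1da0eb074c) (nat_lit 0)))) (L (E (nat_lit 6) (nat_lit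 0xf247863bc1da8eb474e) (nat_lit 0)))) (N (nat_lit 579) (N (nat_lit 578) (N (nat_lit 577) (L (E (nat_lit 6) (nat_lit 0xf347963c51df0edc75e) (nat_lit 0))) (L (E (nat_lit 6) (nat_lit 0xf387983c61df8ee0760) (nat_lit 0)))) (L (E (nat_lit 6) (nat_lit 0xf685dc19305100c801c) (nat_lit 0)))) (L (E (nat_lit 6) (nat_lit 0xf6c5e81ac05c00f4024) (nat_lit 0)))))) (N (nat_lit 593) (N (nat_lit 587) (N (nat_lit 584) (N (nat_lit 581) (L (E (nat_lit 6) (nat_lit 0x107c8324101fc0fa07b8) (nat_lit 0))) (N (nat_lit 582) (L (E (nat_lit 6) (nat_lit 0xf745f21bc064012c02c) (nat_lit 0))) (N (nat_lit 583) (L (E (nat_lit 6) (nat_lit 0xf785f41c0066013402e) (nat_lit 0))) (L (E (nat_lit 6) (nat_lit 0x10848364141fd8fac7be) (nat_lit 0)))))) (N (nat_lit 585) (L (E (nat_lit 6) (nat_lit 0xf806181ed07b0188032) (nat_lit 0))) (N (nat_lit 586) (L (E (nat_lit 6) (nat_lit 0xf8461a1ee07b818c034) (nat_lit 0))) (L (E (nat_lit 6) (nat_lit 0xf8862e1fa07f01a8036)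 (nat_lit 0)))))) (N (nat_lit 590) (N (nat_lit 589) (N (nat_lit 588) (L (E (nat_lit 6) (nat_lit 0xf8c6301fb07f81ac038) (nat_lit 0))) (L (E (nat_lit 6) (nat_lit 0xf9063a20208181bc03a) (nat_lit 0)))) (L (E (nat_lit 6) (nat_lit 0xf9463c20308201c003c) (nat_lit 0)))) (N (nat_lit 591) (L (E (nat_lit 6) (nat_lit 0xf9863e20408281c403e) (nat_lit 0))) (N (nat_lit 592) (L (E (nat_lit 6) (nat_lit 0xf9c64820b08481d0040) (nat_lit 0))) (L (E (nat_lit 6) (nat_lit 0xfa064a20c08501d4042) (nat_lit 0))))))) (N (nat_lit 600) (N (nat_lit 596) (N (nat_lit 595) (N (nat_lit 594) (L (E (nat_lit 6) (nat_lit 0xfa465020f08601dc044) (nat_lit 0))) (L (E (nat_lit 6) (nat_lit 0xfa865221008681e0046) (nat_lit 0)))) (L (E (nat_lit 6) (nat_lit 0xfac65c21708901f0048) (nat_lit 0)))) (N (nat_lit 597) (L (E (nat_lit 6) (nat_lit 0xfb065e21808981f404a) (nat_lit 0))) (N (nat_lit 599) (N (nat_lit 598) (L (E (nat_lit 6) (nat_lit 0xfb466221a08a81f804c) (nat_lit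 0))) (L (E (nat_lit 6) (nat_lit 0xfb866621f08c020804e) (nat_lit 0)))) (L (E (nat_lit 6) (nat_lit 0xfbc66c22208d0214050) (nat_lit 0)))))) (L (E (nat_lit 6) (nat_lit 0xfc86b025009d8224052) (nat_lit 0))))))
def cl12 : RA := N (nat_lit 628) (N (nat_lit 627) (N (nat_lit 611) (N (nat_lit 603) (N (nat_lit 602) (L (E (nat_lit 6) (nat_lit 0xfd06c625c0a38228054) (nat_lit 0))) (L (E (nat_lit 6) (nat_lit 0xfd46d22620a5822c056) (nat_lit 0)))) (N (nat_lit 606) (N (nat_lit 604) (L (E (nat_lit 6) (nat_lit 0xfe86fc2780af0248058) (nat_lit 0))) (N (nat_lit 605) (L (E (nat_lit 6) (nat_lit 0xff071c28b0b8825005a) (nat_lit 0))) (L (E (nat_lit 6) (nat_lit 0x104c81c40820190007fa) (nat_lit 0))))) (N (nat_lit 609) (N (nat_lit 608) (N (nat_lit 607) (L (E (nat_lit 6) (nat_lit 0x10248104072031014808) (nat_lit 0))) (L (E (nat_lit 6) (nat_lit 0x10347682be0c1826005c) (nat_lit 0)))) (L (E (nat_lit 6) (nat_lit 0x103c8184052008ffc7fa) (nat_lit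 0)))) (N (nat_lit 610) (L (E (nat_lit 6) (nat_lit 0x10887c230d0f703dc0c6) (nat_lit 0))) (L (E (nat_lit 6) (nat_lit 0x108c7cc31f10204140e2) (nat_lit 0))))))) (N (nat_lit 619) (N (nat_lit 615) (N (nat_lit 613) (N (nat_lit 612) (L (E (nat_lit 6) (nat_lit 0x10907d032510604280ea) (nat_lit 0))) (L (E (nat_lit 6) (nat_lit 0x10947d232810784300ee) (nat_lit 0)))) (N (nat_lit 614) (L (E (nat_lit 6) (nat_lit 0x10987d632e10b84480f8) (nat_lit 0))) (L (E (nat_lit 6) (nat_lit 0x109c7ec36b132053411a) (nat_lit 0))))) (N (nat_lit 617) (N (nat_lit 616) (L (E (nat_lit 6) (nat_lit 0x10a07ee36f1340544122) (nat_lit 0))) (L (E (nat_lit 6) (nat_lit 0x10a47fc39914f85f412a) (nat_lit 0)))) (N (nat_lit 618) (L (E (nat_lit 6) (nat_lit 0x10b08043a6156060012c) (nat_lit 0))) (L (E (nat_lit 6) (nat_lit 0x10b88163b215e060812e) (nat_lit 0)))))) (N (nat_lit 624) (N (nat_lit 622) (N (nat_lit 621) (N (nat_lit 620) (L (E (nat_lit 6) (nat_lit 0x10c08223bc1640614132)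 (nat_lit 0))) (L (E (nat_lit 6) (nat_lit 0x10c48243be165061c134) (nat_lit 0)))) (L (E (nat_lit 6) (nat_lit 0x10e08584021d30ab0300) (nat_lit 0)))) (N (nat_lit 623) (L (E (nat_lit 6) (nat_lit 0x10e485a4051d58ad0302) (nat_lit 0))) (L (E (nat_lit 6) (nat_lit 0x10e885e4101dd8b1c308) (nat_lit 0))))) (N (nat_lit 625) (L (E (nat_lit 3) (nat_lit 0x21ad0a2525) (nat_lit 0))) (N (nat_lit 626) (L (E (nat_lit 3) (nat_lit 0x4cc01e007) (nat_lit 0))) (L (E (nat_lit 3) (nat_lit 0x50c06a009) (nat_lit 0)))))))) (L (E (nat_lit 3) (nat_lit 0x7b400a001) (nat_lit 0)))) (N (nat_lit 633) (N (nat_lit 631) (N (nat_lit 630) (N (nat_lit 629) (L (E (nat_lit 3) (nat_lit 0x107c7be3cd) (nat_lit 0))) (L (E (nat_lit 3) (nat_lit 0x10bc7e23df) (nat_lit 0)))) (L (E (nat_lit 3) (nat_lit 0x11148123f7) (nat_lit 0)))) (N (nat_lit 632) (L (E (nat_lit 3) (nat_lit 0x1154832409) (nat_lit 0))) (L (E (nat_lit 3) (nat_lit 0x13d496a4a5) (nat_lit 0))))) (N (nat_lit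 635) (N (nat_lit 634) (L (E (nat_lit 3) (nat_lit 0x141498e4b5) (nat_lit 0))) (L (E (nat_lit 3) (nat_lit 0x142c99a4bb) (nat_lit 0)))) (N (nat_lit 639) (N (nat_lit 636) (L (E (nat_lit 3) (nat_lit 0x14649be4cd) (nat_lit 0))) (N (nat_lit 637) (L (E (nat_lit 3) (nat_lit 0x148c9de4df) (nat_lit 0))) (N (nat_lit 638) (L (E (nat_lit 3) (nat_lit 0x1c34daa6c3) (nat_lit 0))) (L (E (nat_lit 3) (nat_lit 0x1c84dda6dd) (nat_lit 0)))))) (N (nat_lit 643) (N (nat_lit 642) (N (nat_lit 640) (L (E (nat_lit 3) (nat_lit 0x1c94df66eb) (nat_lit 0))) (N (nat_lit 641) (L (E (nat_lit 3) (nat_lit 0x1e1ceaa74b) (nat_lit 0))) (L (E (nat_lit 3) (nat_lit 0xe7c722369) (nat_lit 0))))) (L (E (nat_lit 3) (nat_lit 0x101c7ea3c5) (nat_lit 0)))) (N (nat_lit 644) (L (E (nat_lit 3) (nat_lit 0x10247ee3c7) (nat_lit 0))) (N (nat_lit 645) (L (E (nat_lit 3) (nat_lit 0x10648123d9) (nat_lit 0))) (L (E (nat_lit 3) (nat_lit 0x107c81e3df) (nat_lit 0)))))))))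
def cl13 : RA := N (nat_lit 664) (N (nat_lit 657) (N (nat_lit 652) (N (nat_lit 649) (N (nat_lit 648) (N (nat_lit 647) (L (E (nat_lit 3) (nat_lit 0x10fc85e403) (nat_lit 0))) (L (E (nat_lit 3) (nat_lit 0x129492a46f) (nat_lit 0)))) (L (E (nat_lit 3) (nat_lit 0x14149ea4c7) (nat_lit 0)))) (N (nat_lit 650) (L (E (nat_lit 3) (nat_lit 0x141c9ee4c9) (nat_lit 0))) (N (nat_lit 651) (L (E (nat_lit 3) (nat_lit 0x1714b7e59b) (nat_lit 0))) (L (E (nat_lit 3) (nat_lit 0x1c04de26c3) (nat_lit 0)))))) (N (nat_lit 656) (N (nat_lit 653) (L (E (nat_lit 3) (nat_lit 0xacc55a28b) (nat_lit 0))) (N (nat_lit 655) (N (nat_lit 654) (L (E (nat_lit 3) (nat_lit 0x102c80a3db) (nat_lit 0))) (L (E (nat_lit 3) (nat_lit 0x103c8123df) (nat_lit 0)))) (L (E (nat_lit 3) (nat_lit 0x107c8323f1) (nat_lit 0))))) (L (E (nat_lit 3) (nat_lit 0x10cc85a407) (nat_lit 0))))) (N (nat_lit 660) (N (nat_lit 659) (N (nat_lit 658) (L (E (nat_lit 3) (nat_lit 0x12ac94a481)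 (nat_lit 0))) (L (E (nat_lit 3) (nat_lit 0x134c99a4a5) (nat_lit 0)))) (L (E (nat_lit 3) (nat_lit 0x13949be4b5) (nat_lit 0)))) (N (nat_lit 661) (L (E (nat_lit 3) (nat_lit 0x13e49e64cb) (nat_lit 0))) (N (nat_lit 662) (L (E (nat_lit 3) (nat_lit 0x142ca0a4df) (nat_lit 0))) (N (nat_lit 663) (L (E (nat_lit 3) (nat_lit 0x147ca324f5) (nat_lit 0))) (L (E (nat_lit 3) (nat_lit 0x15fcaf2553) (nat_lit 0)))))))) (N (nat_lit 678) (N (nat_lit 670) (N (nat_lit 667) (N (nat_lit 666) (N (nat_lit 665) (L (E (nat_lit 3) (nat_lit 0x16dcb62591) (nat_lit 0))) (L (E (nat_lit 3) (nat_lit 0x1aecd6a68f) (nat_lit 0)))) (L (E (nat_lit 3) (nat_lit 0x1b7cdb26b3) (nat_lit 0)))) (N (nat_lit 668) (L (E (nat_lit 3) (nat_lit 0x1bc4dd66c3) (nat_lit 0))) (N (nat_lit 669) (L (E (nat_lit 3) (nat_lit 0x1c1ce026db) (nat_lit 0))) (L (E (nat_lit 3) (nat_lit 0x1c4ce1a6eb) (nat_lit 0)))))) (N (nat_lit 675) (N (nat_lit 672) (N (nat_lit 671) (L (E (nat_lit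 3) (nat_lit 0xab452228b) (nat_lit 0))) (L (E (nat_lit 3) (nat_lit 0xb445662ad) (nat_lit 0)))) (N (nat_lit 674) (N (nat_lit 673) (L (E (nat_lit 3) (nat_lit 0xe246da367) (nat_lit 0))) (L (E (nat_lit 3) (nat_lit 0xe2c6de369) (nat_lit 0)))) (L (E (nat_lit 3) (nat_lit 0xfc479a3c7) (nat_lit 0))))) (N (nat_lit 676) (L (E (nat_lit 3) (nat_lit 0x10247ca3df) (nat_lit 0))) (N (nat_lit 677) (L (E (nat_lit 3) (nat_lit 0x10647ee3f1) (nat_lit 0))) (L (E (nat_lit 3) (nat_lit 0x10bc81e409) (nat_lit 0))))))) (N (nat_lit 682) (N (nat_lit 680) (N (nat_lit 679) (L (E (nat_lit 3) (nat_lit 0x115486a42f) (nat_lit 0))) (L (E (nat_lit 3) (nat_lit 0x12d492a48f) (nat_lit 0)))) (N (nat_lit 681) (L (E (nat_lit 3) (nat_lit 0x13349564a5) (nat_lit 0))) (L (E (nat_lit 3) (nat_lit 0x137c9764b5) (nat_lit 0))))) (N (nat_lit 686) (N (nat_lit 684) (N (nat_lit 683) (L (E (nat_lit 3) (nat_lit 0x13d49a64cd) (nat_lit 0))) (L (E (nat_lit 3) (nat_lit 0x14149ca4df)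 (nat_lit 0)))) (N (nat_lit 685) (L (E (nat_lit 3) (nat_lit 0x166cafe579) (nat_lit 0))) (L (E (nat_lit 3) (nat_lit 0x1b0cd4a69f) (nat_lit 0))))) (N (nat_lit 688) (N (nat_lit 687) (L (E (nat_lit 3) (nat_lit 0x1ba4d8e6c1) (nat_lit 0))) (L (E (nat_lit 3) (nat_lit 0x1bacd926c3) (nat_lit 0)))) (N (nat_lit 689) (L (E (nat_lit 3) (nat_lit 0x1c34de26eb) (nat_lit 0))) (L (E (nat_lit 3) (nat_lit 0x1d6ce8273b) (nat_lit 0))))))))
def cl14 : RA := N (nat_lit 715) (N (nat_lit 714) (N (nat_lit 704) (N (nat_lit 698) (N (nat_lit 696) (N (nat_lit 695) (N (nat_lit 693) (L (E (nat_lit 3) (nat_lit 0xb945a229f) (nat_lit 0))) (N (nat_lit 694) (L (E (nat_lit 3) (nat_lit 0xfd47ba3ad) (nat_lit 0))) (L (E (nat_lit 3) (nat_lit 0x10247e23bb) (nat_lit 0))))) (L (E (nat_lit 3) (nat_lit 0x10648063c7) (nat_lit 0)))) (N (nat_lit 697) (L (E (nat_lit 3) (nat_lit 0x107480e3cb) (nat_lit 0))) (L (E (nat_lit 3) (nat_lit 0x10b482e3dd) (nat_lit 0)))))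 (N (nat_lit 700) (N (nat_lit 699) (L (E (nat_lit 3) (nat_lit 0x10bc8323df) (nat_lit 0))) (L (E (nat_lit 3) (nat_lit 0x10fc8523f1) (nat_lit 0)))) (N (nat_lit 702) (N (nat_lit 701) (L (E (nat_lit 3) (nat_lit 0x115c88240b) (nat_lit 0))) (L (E (nat_lit 3) (nat_lit 0x12ec94a475) (nat_lit 0)))) (N (nat_lit 703) (L (E (nat_lit 3) (nat_lit 0x132496247d) (nat_lit 0))) (L (E (nat_lit 3) (nat_lit 0x133496a481) (nat_lit 0))))))) (N (nat_lit 710) (N (nat_lit 707) (N (nat_lit 705) (L (E (nat_lit 3) (nat_lit 0x137c98e48f) (nat_lit 0))) (N (nat_lit 706) (L (E (nat_lit 3) (nat_lit 0x138c996493) (nat_lit 0))) (L (E (nat_lit 3) (nat_lit 0x139499a495) (nat_lit 0))))) (N (nat_lit 708) (L (E (nat_lit 3) (nat_lit 0x13d49be4a5) (nat_lit 0))) (N (nat_lit 709) (L (E (nat_lit 3) (nat_lit 0x142c9ea4bb) (nat_lit 0))) (L (E (nat_lit 3) (nat_lit 0x1b0cd5e67f) (nat_lit 0)))))) (N (nat_lit 712) (N (nat_lit 711) (L (E (nat_lit 3) (nat_lit 0x1b64d8268d)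 (nat_lit 0))) (L (E (nat_lit 3) (nat_lit 0x1bacdaa69f) (nat_lit 0)))) (N (nat_lit 713) (L (E (nat_lit 3) (nat_lit 0x1c04dd66b5) (nat_lit 0))) (L (E (nat_lit 3) (nat_lit 0x1c0cdda6b7) (nat_lit 0))))))) (L (E (nat_lit 3) (nat_lit 0x90c476229) (nat_lit 0)))) (N (nat_lit 727) (N (nat_lit 723) (N (nat_lit 720) (N (nat_lit 718) (N (nat_lit 716) (L (E (nat_lit 3) (nat_lit 0xafc55628f) (nat_lit 0))) (N (nat_lit 717) (L (E (nat_lit 3) (nat_lit 0xb3c57229d) (nat_lit 0))) (L (E (nat_lit 3) (nat_lit 0xb945a22b3) (nat_lit 0))))) (N (nat_lit 719) (L (E (nat_lit 3) (nat_lit 0x10247e23cd) (nat_lit 0))) (L (E (nat_lit 3) (nat_lit 0x107c8123e5) (nat_lit 0))))) (N (nat_lit 722) (N (nat_lit 721) (L (E (nat_lit 3) (nat_lit 0x10b482e3f5) (nat_lit 0))) (L (E (nat_lit 3) (nat_lit 0x10bc8323f7) (nat_lit 0)))) (L (E (nat_lit 3) (nat_lit 0x10fc852409) (nat_lit 0))))) (N (nat_lit 724) (L (E (nat_lit 3) (nat_lit 0x111485e40f) (nat_lit 0)))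 (N (nat_lit 725) (L (E (nat_lit 3) (nat_lit 0x118c8aa435) (nat_lit 0))) (N (nat_lit 726) (L (E (nat_lit 3) (nat_lit 0x12d493e481) (nat_lit 0))) (L (E (nat_lit 3) (nat_lit 0x133496a495) (nat_lit 0))))))) (N (nat_lit 732) (N (nat_lit 730) (N (nat_lit 728) (L (E (nat_lit 3) (nat_lit 0x139499a4ab) (nat_lit 0))) (N (nat_lit 729) (L (E (nat_lit 3) (nat_lit 0x13d49be4bb) (nat_lit 0))) (L (E (nat_lit 3) (nat_lit 0x140c9da4cb) (nat_lit 0))))) (N (nat_lit 731) (L (E (nat_lit 3) (nat_lit 0x142c9ea4d3) (nat_lit 0))) (L (E (nat_lit 3) (nat_lit 0x146ca0e4e7) (nat_lit 0))))) (N (nat_lit 736) (N (nat_lit 735) (N (nat_lit 734) (N (nat_lit 733) (L (E (nat_lit 3) (nat_lit 0x1684b1e56f) (nat_lit 0))) (L (E (nat_lit 3) (nat_lit 0x1b0cd5e68f) (nat_lit 0)))) (L (E (nat_lit 3) (nat_lit 0x1b64d826a3) (nat_lit 0)))) (L (E (nat_lit 3) (nat_lit 0x1bacdaa6b5) (nat_lit 0)))) (N (nat_lit 737) (L (E (nat_lit 3) (nat_lit 0x1c04dd66c9) (nat_lit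 0))) (N (nat_lit 738) (L (E (nat_lit 3) (nat_lit 0x1c4ce026e1) (nat_lit 0))) (L (E (nat_lit 3) (nat_lit 0x1e5cf0e76f) (nat_lit 0))))))))
def cl15 : RA := N (nat_lit 766) (N (nat_lit 760) (N (nat_lit 751) (N (nat_lit 746) (N (nat_lit 744) (N (nat_lit 742) (N (nat_lit 741) (L (E (nat_lit 3) (nat_lit 0xa7451e25d) (nat_lit 0))) (L (E (nat_lit 3) (nat_lit 0xaec55a275) (nat_lit 0)))) (N (nat_lit 743) (L (E (nat_lit 3) (nat_lit 0xb0456627b) (nat_lit 0))) (L (E (nat_lit 3) (nat_lit 0xb4458228b) (nat_lit 0))))) (N (nat_lit 745) (L (E (nat_lit 3) (nat_lit 0x101c7ea3b9) (nat_lit 0))) (L (E (nat_lit 3) (nat_lit 0x10247ee3bb) (nat_lit 0))))) (N (nat_lit 749) (N (nat_lit 748) (N (nat_lit 747) (L (E (nat_lit 3) (nat_lit 0x102c7f23bd) (nat_lit 0))) (L (E (nat_lit 3) (nat_lit 0x10648123c7) (nat_lit 0)))) (L (E (nat_lit 3) (nat_lit 0x10bc83e3df) (nat_lit 0)))) (N (nat_lit 750) (L (E (nat_lit 3) (nat_lit 0x10c48423e1) (nat_lit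 0))) (L (E (nat_lit 3) (nat_lit 0x10fc85e3f1) (nat_lit 0)))))) (N (nat_lit 756) (N (nat_lit 753) (N (nat_lit 752) (L (E (nat_lit 3) (nat_lit 0x12d494a46f) (nat_lit 0))) (L (E (nat_lit 3) (nat_lit 0x132c97247f) (nat_lit 0)))) (N (nat_lit 754) (L (E (nat_lit 3) (nat_lit 0x1334976481) (nat_lit 0))) (N (nat_lit 755) (L (E (nat_lit 3) (nat_lit 0x136c99248b) (nat_lit 0))) (L (E (nat_lit 3) (nat_lit 0x137c99a48f) (nat_lit 0)))))) (N (nat_lit 758) (N (nat_lit 757) (L (E (nat_lit 3) (nat_lit 0x13d49ca4a5) (nat_lit 0))) (L (E (nat_lit 3) (nat_lit 0x14149ea4b5) (nat_lit 0)))) (N (nat_lit 759) (L (E (nat_lit 3) (nat_lit 0x1644b02545) (nat_lit 0))) (L (E (nat_lit 3) (nat_lit 0x1c04de26b5) (nat_lit 0))))))) (N (nat_lit 761) (L (E (nat_lit 3) (nat_lit 0x7cc00a001) (nat_lit 0))) (N (nat_lit 765) (N (nat_lit 764) (N (nat_lit 763) (N (nat_lit 762) (L (E (nat_lit 3) (nat_lit 0x67c2ea161) (nat_lit 0))) (L (E (nat_lit 3) (nat_lit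 0xb4453e28b) (nat_lit 0)))) (L (E (nat_lit 3) (nat_lit 0xdf46a233f) (nat_lit 0)))) (L (E (nat_lit 3) (nat_lit 0x10bc7ee3df) (nat_lit 0)))) (L (E (nat_lit 3) (nat_lit 0x10c47f23e1) (nat_lit 0)))))) (N (nat_lit 782) (N (nat_lit 773) (N (nat_lit 770) (N (nat_lit 768) (N (nat_lit 767) (L (E (nat_lit 3) (nat_lit 0x10fc8123f1) (nat_lit 0))) (L (E (nat_lit 3) (nat_lit 0x111481e3f7) (nat_lit 0)))) (N (nat_lit 769) (L (E (nat_lit 3) (nat_lit 0x115483e409) (nat_lit 0))) (L (E (nat_lit 3) (nat_lit 0x115c84240b) (nat_lit 0))))) (N (nat_lit 771) (L (E (nat_lit 3) (nat_lit 0x13d49764a5) (nat_lit 0))) (N (nat_lit 772) (L (E (nat_lit 3) (nat_lit 0x13dc97a4a7) (nat_lit 0))) (L (E (nat_lit 3) (nat_lit 0x141499a4b5) (nat_lit 0)))))) (N (nat_lit 777) (N (nat_lit 775) (N (nat_lit 774) (L (E (nat_lit 3) (nat_lit 0x142c9a64bb) (nat_lit 0))) (L (E (nat_lit 3) (nat_lit 0x14649ca4cd) (nat_lit 0)))) (N (nat_lit 776) (L (E (nat_lit 3)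 (nat_lit 0x146c9ce4cf) (nat_lit 0))) (L (E (nat_lit 3) (nat_lit 0x14a49f64e5) (nat_lit 0))))) (N (nat_lit 780) (N (nat_lit 779) (N (nat_lit 778) (L (E (nat_lit 3) (nat_lit 0x1becd866af) (nat_lit 0))) (L (E (nat_lit 3) (nat_lit 0x1c04d926b5) (nat_lit 0)))) (L (E (nat_lit 3) (nat_lit 0x1c2cdb26c1) (nat_lit 0)))) (N (nat_lit 781) (L (E (nat_lit 3) (nat_lit 0x1c34db66c3) (nat_lit 0))) (L (E (nat_lit 3) (nat_lit 0x1c7cde26db) (nat_lit 0))))))) (N (nat_lit 785) (N (nat_lit 784) (N (nat_lit 783) (L (E (nat_lit 3) (nat_lit 0x1c8cdea6df) (nat_lit 0))) (L (E (nat_lit 3) (nat_lit 0x1decea273b) (nat_lit 0)))) (L (E (nat_lit 3) (nat_lit 0x6542de161) (nat_lit 0)))) (L (E (nat_lit 3) (nat_lit 0x944476003) (nat_lit 0)))))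
def cl16 : RA := N (nat_lit 817) (N (nat_lit 816) (N (nat_lit 803) (N (nat_lit 797) (N (nat_lit 795) (N (nat_lit 790) (N (nat_lit 788) (N (nat_lit 787) (L (E (nat_lit 3) (nat_lit 0xacc51627b) (nat_lit 0))) (L (E (nat_lit 3) (nat_lit 0xb0453228b) (nat_lit 0)))) (N (nat_lit 789) (L (E (nat_lit 3) (nat_lit 0xb1453a28f) (nat_lit 0))) (L (E (nat_lit 3) (nat_lit 0xb5c55a29f) (nat_lit 0))))) (N (nat_lit 792) (N (nat_lit 791) (L (E (nat_lit 3) (nat_lit 0xb945762ad) (nat_lit 0))) (L (E (nat_lit 3) (nat_lit 0x103c7be3cd) (nat_lit 0)))) (N (nat_lit 794) (N (nat_lit 793) (L (E (nat_lit 3) (nat_lit 0x10447c23cf) (nat_lit 0))) (L (E (nat_lit 3) (nat_lit 0x107c7e23df) (nat_lit 0)))) (L (E (nat_lit 3) (nat_lit 0x10bc8063f1) (nat_lit 0)))))) (N (nat_lit 796) (L (E (nat_lit 3) (nat_lit 0x10cc80e3f5) (nat_lit 0))) (L (E (nat_lit 3) (nat_lit 0x10d48123f7) (nat_lit 0))))) (N (nat_lit 799) (N (nat_lit 798) (L (E (nat_lit 3) (nat_lit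 0x1114832409) (nat_lit 0))) (L (E (nat_lit 3) (nat_lit 0x139496a4a5) (nat_lit 0)))) (N (nat_lit 800) (L (E (nat_lit 3) (nat_lit 0x13e49964b9) (nat_lit 0))) (N (nat_lit 801) (L (E (nat_lit 3) (nat_lit 0x13ec99a4bb) (nat_lit 0))) (N (nat_lit 802) (L (E (nat_lit 3) (nat_lit 0x142c9be4cd) (nat_lit 0))) (L (E (nat_lit 3) (nat_lit 0x19bcc9a641) (nat_lit 0)))))))) (N (nat_lit 811) (N (nat_lit 805) (N (nat_lit 804) (L (E (nat_lit 3) (nat_lit 0x1b6cd5e69f) (nat_lit 0))) (L (E (nat_lit 3) (nat_lit 0x1b7cd666a3) (nat_lit 0)))) (N (nat_lit 808) (N (nat_lit 806) (L (E (nat_lit 3) (nat_lit 0x1bc4d866b5) (nat_lit 0))) (N (nat_lit 807) (L (E (nat_lit 3) (nat_lit 0x60c2c215b) (nat_lit 0))) (L (E (nat_lit 3) (nat_lit 0xf947823bb) (nat_lit 0))))) (N (nat_lit 809) (L (E (nat_lit 3) (nat_lit 0x10247be3d9) (nat_lit 0))) (N (nat_lit 810) (L (E (nat_lit 3) (nat_lit 0x10647e23eb) (nat_lit 0))) (L (E (nat_lit 3) (nat_lit 0x111483e419)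 (nat_lit 0))))))) (N (nat_lit 814) (N (nat_lit 813) (N (nat_lit 812) (L (E (nat_lit 3) (nat_lit 0x12ec92a48f) (nat_lit 0))) (L (E (nat_lit 3) (nat_lit 0x133494a49f) (nat_lit 0)))) (L (E (nat_lit 3) (nat_lit 0x13d499a4c7) (nat_lit 0)))) (N (nat_lit 815) (L (E (nat_lit 3) (nat_lit 0x1ad4d1e689) (nat_lit 0))) (L (E (nat_lit 3) (nat_lit 0x1c04db66d5) (nat_lit 0))))))) (L (E (nat_lit 3) (nat_lit 0x87441e003) (nat_lit 0)))) (N (nat_lit 848) (N (nat_lit 831) (N (nat_lit 826) (N (nat_lit 822) (N (nat_lit 820) (N (nat_lit 819) (N (nat_lit 818) (L (E (nat_lit 3) (nat_lit 0x67c312175) (nat_lit 0))) (L (E (nat_lit 3) (nat_lit 0xaac51e279) (nat_lit 0)))) (L (E (nat_lit 3) (nat_lit 0xb2c55a299) (nat_lit 0)))) (N (nat_lit 821) (L (E (nat_lit 3) (nat_lit 0xfc479a3bb) (nat_lit 0))) (L (E (nat_lit 3) (nat_lit 0x105c7ea3dd) (nat_lit 0))))) (N (nat_lit 824) (N (nat_lit 823) (L (E (nat_lit 3) (nat_lit 0x10a48123f1) (nat_lit 0)))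 (L (E (nat_lit 3) (nat_lit 0x10f483a407) (nat_lit 0)))) (N (nat_lit 825) (L (E (nat_lit 3) (nat_lit 0x10fc83e409) (nat_lit 0))) (L (E (nat_lit 3) (nat_lit 0x130c94248b) (nat_lit 0)))))) (N (nat_lit 829) (N (nat_lit 827) (L (E (nat_lit 3) (nat_lit 0x13749724a3) (nat_lit 0))) (N (nat_lit 828) (L (E (nat_lit 3) (nat_lit 0x137c9764a5) (nat_lit 0))) (L (E (nat_lit 3) (nat_lit 0x13bc99a4b5) (nat_lit 0))))) (N (nat_lit 830) (L (E (nat_lit 3) (nat_lit 0x140c9c64cb) (nat_lit 0))) (L (E (nat_lit 3) (nat_lit 0x14149ca4cd) (nat_lit 0)))))) (N (nat_lit 840) (N (nat_lit 835) (N (nat_lit 833) (N (nat_lit 832) (L (E (nat_lit 3) (nat_lit 0x141c9ce4cf) (nat_lit 0))) (L (E (nat_lit 3) (nat_lit 0x14449e64dd) (nat_lit 0)))) (N (nat_lit 834) (L (E (nat_lit 3) (nat_lit 0x1664afa567) (nat_lit 0))) (L (E (nat_lit 3) (nat_lit 0x1b04d4668d) (nat_lit 0))))) (N (nat_lit 838) (N (nat_lit 836) (L (E (nat_lit 3) (nat_lit 0x1ba4d8e6b3) (nat_lit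 0))) (N (nat_lit 837) (L (E (nat_lit 3) (nat_lit 0x1be4db26c1) (nat_lit 0))) (L (E (nat_lit 3) (nat_lit 0xa7c53227b) (nat_lit 0))))) (N (nat_lit 839) (L (E (nat_lit 3) (nat_lit 0x107482e3f5) (nat_lit 0))) (L (E (nat_lit 3) (nat_lit 0x13249864a1) (nat_lit 0)))))) (N (nat_lit 843) (N (nat_lit 841) (L (E (nat_lit 3) (nat_lit 0x133498e4a5) (nat_lit 0))) (N (nat_lit 842) (L (E (nat_lit 3) (nat_lit 0x138c9ba4b9) (nat_lit 0))) (L (E (nat_lit 3) (nat_lit 0x13949be4bb) (nat_lit 0))))) (N (nat_lit 846) (N (nat_lit 844) (L (E (nat_lit 3) (nat_lit 0x13d49de4cd) (nat_lit 0))) (N (nat_lit 845) (L (E (nat_lit 3) (nat_lit 0x16c4b56591) (nat_lit 0))) (L (E (nat_lit 3) (nat_lit 0x1bacdca6c3) (nat_lit 0))))) (N (nat_lit 847) (L (E (nat_lit 3) (nat_lit 0x1c04df66db) (nat_lit 0))) (L (E (nat_lit 3) (nat_lit 0x1c0cdfa6dd) (nat_lit 0)))))))) (L (E (nat_lit 3) (nat_lit 0x914006001) (nat_lit 0))))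
def cl17 : RA := N (nat_lit 861) (N (nat_lit 860) (N (nat_lit 853) (N (nat_lit 851) (N (nat_lit 850) (L (E (nat_lit 3) (nat_lit 0x1acc2be009) (nat_lit 0))) (L (E (nat_lit 3) (nat_lit 0x1d643f6011) (nat_lit 0)))) (N (nat_lit 852) (L (E (nat_lit 3) (nat_lit 0x21ecd8628b) (nat_lit 0))) (L (E (nat_lit 3) (nat_lit 0x21c4d6a161) (nat_lit 0))))) (N (nat_lit 856) (N (nat_lit 855) (N (nat_lit 854) (L (E (nat_lit 3) (nat_lit 0x190c41e00d) (nat_lit 0))) (L (E (nat_lit 3) (nat_lit 0x193401e001) (nat_lit 0)))) (L (E (nat_lit 3) (nat_lit 0x1c0c586139) (nat_lit 0)))) (N (nat_lit 859) (N (nat_lit 858) (N (nat_lit 857) (L (E (nat_lit 3) (nat_lit 0x1ebc292001) (nat_lit 0))) (L (E (nat_lit 3) (nat_lit 0x1ed496a357) (nat_lit 0)))) (L (E (nat_lit 3) (nat_lit 0x2114f3e6b3) (nat_lit 0)))) (L (E (nat_lit 3) (nat_lit 0x178480e0e1) (nat_lit 0)))))) (L (E (nat_lit 3) (nat_lit 0x7c4006001) (nat_lit 0)))) (N (nat_lit 879) (N (nat_lit 871)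 (N (nat_lit 865) (N (nat_lit 864) (N (nat_lit 863) (N (nat_lit 862) (L (E (nat_lit 3) (nat_lit 0x10f482a3d9) (nat_lit 0))) (L (E (nat_lit 3) (nat_lit 0x1334946471) (nat_lit 0)))) (L (E (nat_lit 3) (nat_lit 0x13dc99a493) (nat_lit 0)))) (L (E (nat_lit 3) (nat_lit 0x14149ba4a1) (nat_lit 0)))) (N (nat_lit 867) (N (nat_lit 866) (L (E (nat_lit 3) (nat_lit 0x1b74d6a683) (nat_lit 0))) (L (E (nat_lit 3) (nat_lit 0x1c1cdbe6a7) (nat_lit 0)))) (N (nat_lit 868) (L (E (nat_lit 3) (nat_lit 0x1c3cdd66b3) (nat_lit 0))) (N (nat_lit 869) (L (E (nat_lit 3) (nat_lit 0x26c116071) (nat_lit 0))) (N (nat_lit 870) (L (E (nat_lit 3) (nat_lit 0xacc53a277) (nat_lit 0))) (L (E (nat_lit 3) (nat_lit 0xfe47be3b9) (nat_lit 0)))))))) (N (nat_lit 875) (N (nat_lit 874) (N (nat_lit 873) (N (nat_lit 872) (L (E (nat_lit 3) (nat_lit 0x102c7e23c5) (nat_lit 0))) (L (E (nat_lit 3) (nat_lit 0x10447ee3cb) (nat_lit 0)))) (L (E (nat_lit 3) (nat_lit 0x107c80e3db)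 (nat_lit 0)))) (L (E (nat_lit 3) (nat_lit 0x108c8163df) (nat_lit 0)))) (N (nat_lit 877) (N (nat_lit 876) (L (E (nat_lit 3) (nat_lit 0x10bc82e3ed) (nat_lit 0))) (L (E (nat_lit 3) (nat_lit 0x133c96a48d) (nat_lit 0)))) (N (nat_lit 878) (L (E (nat_lit 3) (nat_lit 0x1354976493) (nat_lit 0))) (L (E (nat_lit 3) (nat_lit 0x13949964a1) (nat_lit 0))))))) (N (nat_lit 888) (N (nat_lit 884) (N (nat_lit 881) (N (nat_lit 880) (L (E (nat_lit 3) (nat_lit 0x13a499e4a5) (nat_lit 0))) (L (E (nat_lit 3) (nat_lit 0x1bc4db26b1) (nat_lit 0)))) (N (nat_lit 883) (N (nat_lit 882) (L (E (nat_lit 3) (nat_lit 0x6fc326175) (nat_lit 0))) (L (E (nat_lit 3) (nat_lit 0xb44536279) (nat_lit 0)))) (L (E (nat_lit 3) (nat_lit 0xb4c53a27b) (nat_lit 0))))) (N (nat_lit 886) (N (nat_lit 885) (L (E (nat_lit 3) (nat_lit 0xe246ae33b) (nat_lit 0))) (L (E (nat_lit 3) (nat_lit 0x10f48063db) (nat_lit 0)))) (N (nat_lit 887) (L (E (nat_lit 3) (nat_lit 0x110480e3df)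 (nat_lit 0))) (L (E (nat_lit 3) (nat_lit 0x112481e3e7) (nat_lit 0)))))) (N (nat_lit 891) (N (nat_lit 889) (L (E (nat_lit 3) (nat_lit 0x141c9964a5) (nat_lit 0))) (N (nat_lit 890) (L (E (nat_lit 3) (nat_lit 0x1644aae539) (nat_lit 0))) (L (E (nat_lit 3) (nat_lit 0x1b0cd16679) (nat_lit 0))))) (N (nat_lit 893) (N (nat_lit 892) (L (E (nat_lit 3) (nat_lit 0x1bb4d6668f) (nat_lit 0))) (L (E (nat_lit 3) (nat_lit 0x1c8cde26cb) (nat_lit 0)))) (N (nat_lit 895) (N (nat_lit 894) (L (E (nat_lit 3) (nat_lit 0x1e64eda751) (nat_lit 0))) (L (E (nat_lit 3) (nat_lit 0x8643f2001) (nat_lit 0)))) (N (nat_lit 896) (L (E (nat_lit 3) (nat_lit 0xfe47ea3c7) (nat_lit 0))) (L (E (nat_lit 3) (nat_lit 0x102c80e3d9) (nat_lit 0)))))))))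
def cl18 : RA := N (nat_lit 897) (cl17) (N (nat_lit 903) (N (nat_lit 902) (N (nat_lit 900) (N (nat_lit 899) (N (nat_lit 898) (L (E (nat_lit 3) (nat_lit 0x1294942479) (nat_lit 0))) (L (E (nat_lit 3) (nat_lit 0x133c99649f) (nat_lit 0)))) (L (E (nat_lit 3) (nat_lit 0x147ca364f3) (nat_lit 0)))) (N (nat_lit 901) (L (E (nat_lit 3) (nat_lit 0x16dcb6658f) (nat_lit 0))) (L (E (nat_lit 3) (nat_lit 0x1adcd66689) (nat_lit 0))))) (L (E (nat_lit 3) (nat_lit 0x934006001) (nat_lit 0)))) (N (nat_lit 922) (N (nat_lit 913) (N (nat_lit 909) (N (nat_lit 906) (N (nat_lit 905) (N (nat_lit 904) (L (E (nat_lit 3) (nat_lit 0x10cc7f23cd) (nat_lit 0))) (L (E (nat_lit 3) (nat_lit 0x113c82e3ed) (nat_lit 0)))) (L (E (nat_lit 3) (nat_lit 0x144c9ba4b1) (nat_lit 0)))) (N (nat_lit 908) (N (nat_lit 907) (L (E (nat_lit 3) (nat_lit 0x101c7be3ab) (nat_lit 0))) (L (E (nat_lit 3) (nat_lit 0x114485a3f1) (nat_lit 0)))) (L (E (nat_lit 3) (nat_lit 0x115c8663f7)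 (nat_lit 0))))) (N (nat_lit 911) (N (nat_lit 910) (L (E (nat_lit 3) (nat_lit 0x137496a47d) (nat_lit 0))) (L (E (nat_lit 3) (nat_lit 0x14549e64b5) (nat_lit 0)))) (N (nat_lit 912) (L (E (nat_lit 3) (nat_lit 0x148ca0e4cb) (nat_lit 0))) (L (E (nat_lit 3) (nat_lit 0x19acca261f) (nat_lit 0)))))) (N (nat_lit 918) (N (nat_lit 915) (N (nat_lit 914) (L (E (nat_lit 3) (nat_lit 0x8c441e001) (nat_lit 0))) (L (E (nat_lit 3) (nat_lit 0x10b48123f9) (nat_lit 0)))) (N (nat_lit 916) (L (E (nat_lit 3) (nat_lit 0x131c942493) (nat_lit 0))) (N (nat_lit 917) (L (E (nat_lit 3) (nat_lit 0x132c94a497) (nat_lit 0))) (L (E (nat_lit 3) (nat_lit 0x13cc99a4bd) (nat_lit 0)))))) (N (nat_lit 920) (N (nat_lit 919) (L (E (nat_lit 3) (nat_lit 0x16bcb22583) (nat_lit 0))) (L (E (nat_lit 3) (nat_lit 0x1ba4d866b7) (nat_lit 0)))) (N (nat_lit 921) (L (E (nat_lit 3) (nat_lit 0x1bf4db26c9) (nat_lit 0))) (L (E (nat_lit 3) (nat_lit 0xb0c53a299) (nat_lit 0)))))))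 (N (nat_lit 931) (N (nat_lit 928) (N (nat_lit 925) (N (nat_lit 924) (N (nat_lit 923) (L (E (nat_lit 3) (nat_lit 0xdfc6b6357) (nat_lit 0))) (L (E (nat_lit 3) (nat_lit 0xfd478e3c3) (nat_lit 0)))) (L (E (nat_lit 3) (nat_lit 0x147c9ee4f3) (nat_lit 0)))) (N (nat_lit 927) (N (nat_lit 926) (L (E (nat_lit 3) (nat_lit 0x16fcb3a599) (nat_lit 0))) (L (E (nat_lit 3) (nat_lit 0x1bb4d826bd) (nat_lit 0)))) (L (E (nat_lit 3) (nat_lit 0xa3c51626f) (nat_lit 0))))) (N (nat_lit 929) (L (E (nat_lit 3) (nat_lit 0xf7c7b63bf) (nat_lit 0))) (N (nat_lit 930) (L (E (nat_lit 3) (nat_lit 0x10748323f9) (nat_lit 0))) (L (E (nat_lit 3) (nat_lit 0x110487a41f) (nat_lit 0)))))) (N (nat_lit 933) (N (nat_lit 932) (L (E (nat_lit 3) (nat_lit 0x1294942485) (nat_lit 0))) (L (E (nat_lit 3) (nat_lit 0x138c9be4bd) (nat_lit 0)))) (N (nat_lit 934) (L (E (nat_lit 3) (nat_lit 0x141ca064e5) (nat_lit 0))) (N (nat_lit 935) (L (E (nat_lit 3) (nat_lit 0x1644b1a56f)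 (nat_lit 0))) (L (E (nat_lit 3) (nat_lit 0x1c3ce166f1) (nat_lit 0)))))))))
def cl19 : RA := N (nat_lit 975) (N (nat_lit 966) (N (nat_lit 960) (N (nat_lit 955) (N (nat_lit 953) (N (nat_lit 952) (N (nat_lit 951) (L (E (nat_lit 3) (nat_lit 0xaec54229d) (nat_lit 0))) (L (E (nat_lit 3) (nat_lit 0xe646fe37b) (nat_lit 0)))) (L (E (nat_lit 3) (nat_lit 0xfb47963c7) (nat_lit 0)))) (N (nat_lit 954) (L (E (nat_lit 3) (nat_lit 0x10a4816407) (nat_lit 0))) (L (E (nat_lit 3) (nat_lit 0x10b481e40b) (nat_lit 0))))) (N (nat_lit 957) (N (nat_lit 956) (L (E (nat_lit 3) (nat_lit 0x14149ce4e3) (nat_lit 0))) (L (E (nat_lit 3) (nat_lit 0x141c9d24e5) (nat_lit 0)))) (N (nat_lit 958) (L (E (nat_lit 3) (nat_lit 0xa144ee25d) (nat_lit 0))) (N (nat_lit 959) (L (E (nat_lit 3) (nat_lit 0xf6c7963af) (nat_lit 0))) (L (E (nat_lit 3) (nat_lit 0x10247f23d1) (nat_lit 0))))))) (N (nat_lit 963) (N (nat_lit 961) (L (E (nat_lit 3) (nat_lit 0x10f485e40b)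 (nat_lit 0))) (N (nat_lit 962) (L (E (nat_lit 3) (nat_lit 0x133497a499) (nat_lit 0))) (L (E (nat_lit 3) (nat_lit 0x136c9964a5) (nat_lit 0))))) (N (nat_lit 964) (L (E (nat_lit 3) (nat_lit 0x1644b0655f) (nat_lit 0))) (N (nat_lit 965) (L (E (nat_lit 3) (nat_lit 0x1b64d926a7) (nat_lit 0))) (L (E (nat_lit 3) (nat_lit 0x174402e001) (nat_lit 0))))))) (N (nat_lit 972) (N (nat_lit 967) (L (E (nat_lit 3) (nat_lit 0x173c3f6011) (nat_lit 0))) (N (nat_lit 970) (N (nat_lit 969) (N (nat_lit 968) (L (E (nat_lit 3) (nat_lit 0x1ebcbe6001) (nat_lit 0))) (L (E (nat_lit 3) (nat_lit 0x21a508a6b3) (nat_lit 0)))) (L (E (nat_lit 3) (nat_lit 0x21b50966f1) (nat_lit 0)))) (N (nat_lit 971) (L (E (nat_lit 3) (nat_lit 0xca43f600b) (nat_lit 0))) (L (E (nat_lit 3) (nat_lit 0xcac41e00d) (nat_lit 0)))))) (N (nat_lit 973) (L (E (nat_lit 3) (nat_lit 0xcb401e001) (nat_lit 0))) (N (nat_lit 974) (L (E (nat_lit 3) (nat_lit 0xe7c6da359) (nat_lit 0)))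 (L (E (nat_lit 3) (nat_lit 0x10cc7f23df) (nat_lit 0))))))) (N (nat_lit 990) (N (nat_lit 982) (N (nat_lit 979) (N (nat_lit 977) (N (nat_lit 976) (L (E (nat_lit 3) (nat_lit 0x10f480a3eb) (nat_lit 0))) (L (E (nat_lit 3) (nat_lit 0x113c82e3ff) (nat_lit 0)))) (N (nat_lit 978) (L (E (nat_lit 3) (nat_lit 0x139c956493) (nat_lit 0))) (L (E (nat_lit 3) (nat_lit 0x13d49724a1) (nat_lit 0))))) (N (nat_lit 980) (L (E (nat_lit 3) (nat_lit 0x13e497a4a5) (nat_lit 0))) (N (nat_lit 981) (L (E (nat_lit 3) (nat_lit 0x140c9924af) (nat_lit 0))) (L (E (nat_lit 3) (nat_lit 0x146c9ca4cb) (nat_lit 0)))))) (N (nat_lit 985) (N (nat_lit 983) (L (E (nat_lit 3) (nat_lit 0x1becd826ab) (nat_lit 0))) (N (nat_lit 984) (L (E (nat_lit 3) (nat_lit 0x1c04d8e6b1) (nat_lit 0))) (L (E (nat_lit 3) (nat_lit 0x1c3cdb66c1) (nat_lit 0))))) (N (nat_lit 988) (N (nat_lit 987) (N (nat_lit 986) (L (E (nat_lit 3) (nat_lit 0x1ddce96733) (nat_lit 0))) (L (E (nat_lit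 3) (nat_lit 0x1e14eae745) (nat_lit 0)))) (L (E (nat_lit 3) (nat_lit 0x6b4302175) (nat_lit 0)))) (N (nat_lit 989) (L (E (nat_lit 3) (nat_lit 0x72c342199) (nat_lit 0))) (L (E (nat_lit 3) (nat_lit 0x10a47da3dd) (nat_lit 0))))))) (N (nat_lit 993) (N (nat_lit 991) (L (E (nat_lit 3) (nat_lit 0x110480e3f7) (nat_lit 0))) (N (nat_lit 992) (L (E (nat_lit 3) (nat_lit 0x141c9964bb) (nat_lit 0))) (L (E (nat_lit 3) (nat_lit 0x14a49ee4e9) (nat_lit 0))))) (N (nat_lit 994) (L (E (nat_lit 3) (nat_lit 0x1674ace559) (nat_lit 0))) (N (nat_lit 995) (L (E (nat_lit 3) (nat_lit 0x1bb4d666a5) (nat_lit 0))) (N (nat_lit 996) (L (E (nat_lit 3) (nat_lit 0x1c3cdb26c9) (nat_lit 0))) (L (E (nat_lit 3) (nat_lit 0x1c4cdba6cd) (nat_lit 0))))))))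
def cl20 : RA := N (nat_lit 1024) (N (nat_lit 1011) (N (nat_lit 1004) (N (nat_lit 1002) (N (nat_lit 1001) (N (nat_lit 1000) (N (nat_lit 999) (L (E (nat_lit 3) (nat_lit 0xab451e287) (nat_lit 0))) (L (E (nat_lit 3) (nat_lit 0xe2c6da365) (nat_lit 0)))) (L (E (nat_lit 3) (nat_lit 0x101c7c23d9) (nat_lit 0)))) (L (E (nat_lit 3) (nat_lit 0x10747f23f1) (nat_lit 0)))) (N (nat_lit 1003) (L (E (nat_lit 3) (nat_lit 0x10c481e407) (nat_lit 0))) (L (E (nat_lit 3) (nat_lit 0x117c88a43d) (nat_lit 0))))) (N (nat_lit 1007) (N (nat_lit 1006) (N (nat_lit 1005) (L (E (nat_lit 3) (nat_lit 0x132c94e49f) (nat_lit 0))) (L (E (nat_lit 3) (nat_lit 0x1494a16503) (nat_lit 0)))) (L (E (nat_lit 3) (nat_lit 0x1b1cd4e69f) (nat_lit 0)))) (N (nat_lit 1008) (L (E (nat_lit 3) (nat_lit 0x1b74d766b3) (nat_lit 0))) (N (nat_lit 1010) (N (nat_lit 1009) (L (E (nat_lit 3) (nat_lit 0x1bacd8e6bf) (nat_lit 0))) (L (E (nat_lit 3) (nat_lit 0xa8451625d) (nat_lit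 0)))) (L (E (nat_lit 3) (nat_lit 0x102c7e23b9) (nat_lit 0))))))) (N (nat_lit 1017) (N (nat_lit 1014) (N (nat_lit 1012) (L (E (nat_lit 3) (nat_lit 0x10848123cb) (nat_lit 0))) (N (nat_lit 1013) (L (E (nat_lit 3) (nat_lit 0x11248623f7) (nat_lit 0))) (L (E (nat_lit 3) (nat_lit 0x112c8663f9) (nat_lit 0))))) (N (nat_lit 1016) (N (nat_lit 1015) (L (E (nat_lit 3) (nat_lit 0x12f494a473) (nat_lit 0))) (L (E (nat_lit 3) (nat_lit 0x133c96a47f) (nat_lit 0)))) (L (E (nat_lit 3) (nat_lit 0x139c99a493) (nat_lit 0))))) (N (nat_lit 1021) (N (nat_lit 1018) (L (E (nat_lit 3) (nat_lit 0x1694b22559) (nat_lit 0))) (N (nat_lit 1019) (L (E (nat_lit 3) (nat_lit 0x1bd4dba6a5) (nat_lit 0))) (N (nat_lit 1020) (L (E (nat_lit 3) (nat_lit 0x1dfced673b) (nat_lit 0))) (L (E (nat_lit 3) (nat_lit 0xb9c5be2bf) (nat_lit 0)))))) (N (nat_lit 1022) (L (E (nat_lit 3) (nat_lit 0xfe47e23cb) (nat_lit 0))) (N (nat_lit 1023) (L (E (nat_lit 3) (nat_lit 0x12f496a493)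 (nat_lit 0))) (L (E (nat_lit 3) (nat_lit 0x6b4346175) (nat_lit 0)))))))) (N (nat_lit 1040) (N (nat_lit 1031) (N (nat_lit 1027) (N (nat_lit 1026) (N (nat_lit 1025) (L (E (nat_lit 3) (nat_lit 0xbc45d22b3) (nat_lit 0))) (L (E (nat_lit 3) (nat_lit 0x166cb22557) (nat_lit 0)))) (L (E (nat_lit 3) (nat_lit 0x1bacdba6a3) (nat_lit 0)))) (N (nat_lit 1029) (N (nat_lit 1028) (L (E (nat_lit 3) (nat_lit 0x1becdda6b3) (nat_lit 0))) (L (E (nat_lit 3) (nat_lit 0x1c3ce0a6c9) (nat_lit 0)))) (N (nat_lit 1030) (L (E (nat_lit 3) (nat_lit 0x1c4ce126cd) (nat_lit 0))) (L (E (nat_lit 3) (nat_lit 0x1d8ceae72b) (nat_lit 0)))))) (N (nat_lit 1036) (N (nat_lit 1035) (N (nat_lit 1034) (N (nat_lit 1033) (N (nat_lit 1032) (L (E (nat_lit 3) (nat_lit 0x1dd4ed6739) (nat_lit 0))) (L (E (nat_lit 3) (nat_lit 0x211463a06f) (nat_lit 0)))) (L (E (nat_lit 3) (nat_lit 0x141498e4a5) (nat_lit 0)))) (L (E (nat_lit 3) (nat_lit 0x14bca0a4e5) (nat_lit 0)))) (L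 (E (nat_lit 3) (nat_lit 0x1bacd5e68f) (nat_lit 0)))) (N (nat_lit 1038) (N (nat_lit 1037) (L (E (nat_lit 3) (nat_lit 0x1c9cdfa6dd) (nat_lit 0))) (L (E (nat_lit 3) (nat_lit 0x72c34a183) (nat_lit 0)))) (N (nat_lit 1039) (L (E (nat_lit 3) (nat_lit 0xbc458629b) (nat_lit 0))) (L (E (nat_lit 3) (nat_lit 0x10bc7ee3c7) (nat_lit 0))))))) (N (nat_lit 1043) (N (nat_lit 1041) (L (E (nat_lit 3) (nat_lit 0x117c862405) (nat_lit 0))) (N (nat_lit 1042) (L (E (nat_lit 3) (nat_lit 0x7f43f2003) (nat_lit 0))) (L (E (nat_lit 3) (nat_lit 0xb44516285) (nat_lit 0))))) (N (nat_lit 1045) (N (nat_lit 1044) (L (E (nat_lit 3) (nat_lit 0x10bc7be3d9) (nat_lit 0))) (L (E (nat_lit 3) (nat_lit 0x13dc94e4a1) (nat_lit 0)))) (N (nat_lit 1048) (N (nat_lit 1046) (L (E (nat_lit 3) (nat_lit 0x1c04d6a6af) (nat_lit 0))) (N (nat_lit 1047) (L (E (nat_lit 3) (nat_lit 0x1c7cdb66d5) (nat_lit 0))) (L (E (nat_lit 3) (nat_lit 0x86c00a001) (nat_lit 0))))) (N (nat_lit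 1051) (N (nat_lit 1050) (N (nat_lit 1049) (L (E (nat_lit 3) (nat_lit 0xb04576275) (nat_lit 0))) (L (E (nat_lit 3) (nat_lit 0xe0c6fa33f) (nat_lit 0)))) (L (E (nat_lit 3) (nat_lit 0x10bc8523d9) (nat_lit 0)))) (L (E (nat_lit 3) (nat_lit 0x1c04df66af) (nat_lit 0))))))))
def cl21 : RA := N (nat_lit 997) (N (nat_lit 936) (cl18) (N (nat_lit 937) (L (E (nat_lit 3) (nat_lit 0x814006001) (nat_lit 0))) (N (nat_lit 950) (N (nat_lit 949) (N (nat_lit 944) (N (nat_lit 941) (N (nat_lit 939) (N (nat_lit 938) (L (E (nat_lit 3) (nat_lit 0xe9c716375) (nat_lit 0))) (L (E (nat_lit 3) (nat_lit 0x108c7f23df) (nat_lit 0)))) (N (nat_lit 940) (L (E (nat_lit 3) (nat_lit 0x10cc8163f1) (nat_lit 0))) (L (E (nat_lit 3) (nat_lit 0x1124842409) (nat_lit 0))))) (N (nat_lit 942) (L (E (nat_lit 3) (nat_lit 0x12f492a47f) (nat_lit 0))) (N (nat_lit 943) (L (E (nat_lit 3) (nat_lit 0x139c9764a3) (nat_lit 0))) (L (E (nat_lit 3) (nat_lit 0x15fcaae53f)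 (nat_lit 0)))))) (N (nat_lit 948) (N (nat_lit 946) (N (nat_lit 945) (L (E (nat_lit 3) (nat_lit 0x1b7cd6e69f) (nat_lit 0))) (L (E (nat_lit 3) (nat_lit 0x1bd4d966b5) (nat_lit 0)))) (N (nat_lit 947) (L (E (nat_lit 3) (nat_lit 0x1bdcd9a6b7) (nat_lit 0))) (L (E (nat_lit 3) (nat_lit 0x1c14dba6c3) (nat_lit 0))))) (L (E (nat_lit 3) (nat_lit 0x7e43ca005) (nat_lit 0))))) (L (E (nat_lit 3) (nat_lit 0x95448e243) (nat_lit 0)))) (cl19)))) (N (nat_lit 1052) (N (nat_lit 998) (L (E (nat_lit 3) (nat_lit 0x7fc3f2001) (nat_lit 0))) (cl20)) (N (nat_lit 1082) (N (nat_lit 1053) (L (E (nat_lit 3) (nat_lit 0x79c00a001) (nat_lit 0))) (N (nat_lit 1069) (N (nat_lit 1061) (N (nat_lit 1059) (N (nat_lit 1058) (N (nat_lit 1056) (N (nat_lit 1055) (N (nat_lit 1054) (L (E (nat_lit 3) (nat_lit 0xbbc5662ad) (nat_lit 0))) (L (E (nat_lit 3) (nat_lit 0x101c77e3b9) (nat_lit 0)))) (L (E (nat_lit 3) (nat_lit 0x106479a3c7) (nat_lit 0)))) (N (nat_lit 1057)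 (L (E (nat_lit 3) (nat_lit 0x1b74d2e691) (nat_lit 0))) (L (E (nat_lit 3) (nat_lit 0xb4c552277) (nat_lit 0))))) (L (E (nat_lit 3) (nat_lit 0x110482a3db) (nat_lit 0)))) (N (nat_lit 1060) (L (E (nat_lit 3) (nat_lit 0x13d498e48f) (nat_lit 0))) (L (E (nat_lit 3) (nat_lit 0x14649de4b5) (nat_lit 0))))) (N (nat_lit 1065) (N (nat_lit 1064) (N (nat_lit 1063) (N (nat_lit 1062) (L (E (nat_lit 3) (nat_lit 0x1df4eae72f) (nat_lit 0))) (L (E (nat_lit 3) (nat_lit 0x84c41e003) (nat_lit 0)))) (L (E (nat_lit 3) (nat_lit 0x10c480a3f9) (nat_lit 0)))) (L (E (nat_lit 3) (nat_lit 0x111483240f) (nat_lit 0)))) (N (nat_lit 1066) (L (E (nat_lit 3) (nat_lit 0x1bc4d866bb) (nat_lit 0))) (N (nat_lit 1067) (L (E (nat_lit 3) (nat_lit 0xa2c50225f) (nat_lit 0))) (N (nat_lit 1068) (L (E (nat_lit 3) (nat_lit 0x1c4ce1a6c9) (nat_lit 0))) (L (E (nat_lit 3) (nat_lit 0xe2c6de33f) (nat_lit 0)))))))) (N (nat_lit 1075) (N (nat_lit 1072) (N (nat_lit 1071)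 (N (nat_lit 1070) (L (E (nat_lit 3) (nat_lit 0x11048423e1) (nat_lit 0))) (L (E (nat_lit 3) (nat_lit 0x137c976481) (nat_lit 0)))) (L (E (nat_lit 3) (nat_lit 0x140c9c64a3) (nat_lit 0)))) (N (nat_lit 1074) (N (nat_lit 1073) (L (E (nat_lit 3) (nat_lit 0x14149ca4a5) (nat_lit 0))) (L (E (nat_lit 3) (nat_lit 0x1bacd9268f) (nat_lit 0)))) (L (E (nat_lit 3) (nat_lit 0xfdc7b23bb) (nat_lit 0))))) (N (nat_lit 1077) (N (nat_lit 1076) (L (E (nat_lit 3) (nat_lit 0x103c7e23cd) (nat_lit 0))) (L (E (nat_lit 3) (nat_lit 0x134c96a495) (nat_lit 0)))) (N (nat_lit 1080) (N (nat_lit 1079) (N (nat_lit 1078) (L (E (nat_lit 3) (nat_lit 0x1bc4daa6b5) (nat_lit 0))) (L (E (nat_lit 3) (nat_lit 0x2114d66023) (nat_lit 0)))) (L (E (nat_lit 3) (nat_lit 0x119c85e405) (nat_lit 0)))) (N (nat_lit 1081) (L (E (nat_lit 3) (nat_lit 0x1c9cdda6c1) (nat_lit 0))) (L (E (nat_lit 3) (nat_lit 0x108c7ea3bb) (nat_lit 0))))))))) (L (E (nat_lit 3) (nat_lit 0x8d400a001)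 (nat_lit 0)))))
def cl22 : RA := N (nat_lit 1107) (N (nat_lit 1098) (N (nat_lit 1095) (N (nat_lit 1093) (N (nat_lit 1091) (N (nat_lit 1090) (L (E (nat_lit 3) (nat_lit 0x4141a20c1) (nat_lit 0))) (L (E (nat_lit 3) (nat_lit 0x146c9ca4c1) (nat_lit 0)))) (N (nat_lit 1092) (L (E (nat_lit 3) (nat_lit 0x75c3aa005) (nat_lit 0))) (L (E (nat_lit 3) (nat_lit 0xf7c78a3c1) (nat_lit 0))))) (N (nat_lit 1094) (L (E (nat_lit 3) (nat_lit 0x102c7e23e7) (nat_lit 0))) (L (E (nat_lit 3) (nat_lit 0x107c80e3fd) (nat_lit 0))))) (N (nat_lit 1097) (N (nat_lit 1096) (L (E (nat_lit 3) (nat_lit 0x133c96a4ad) (nat_lit 0))) (L (E (nat_lit 3) (nat_lit 0x15acaa654b) (nat_lit 0)))) (L (E (nat_lit 3) (nat_lit 0x12d494e489) (nat_lit 0))))) (N (nat_lit 1103) (N (nat_lit 1100) (N (nat_lit 1099) (L (E (nat_lit 3) (nat_lit 0x13d49ce4c7) (nat_lit 0))) (L (E (nat_lit 3) (nat_lit 0x1b0cd6e699) (nat_lit 0)))) (N (nat_lit 1102) (N (nat_lit 1101) (L (E (nat_lit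 3) (nat_lit 0x13bc99647f) (nat_lit 0))) (L (E (nat_lit 3) (nat_lit 0x112c85a41f) (nat_lit 0)))) (L (E (nat_lit 3) (nat_lit 0xe646fa34f) (nat_lit 0))))) (N (nat_lit 1105) (N (nat_lit 1104) (L (E (nat_lit 3) (nat_lit 0x13fc9be4a3) (nat_lit 0))) (L (E (nat_lit 3) (nat_lit 0xaac54a28f) (nat_lit 0)))) (N (nat_lit 1106) (L (E (nat_lit 3) (nat_lit 0xe5c72237b) (nat_lit 0))) (L (E (nat_lit 3) (nat_lit 0x113488a42d) (nat_lit 0))))))) (N (nat_lit 1123) (N (nat_lit 1112) (N (nat_lit 1109) (N (nat_lit 1108) (L (E (nat_lit 3) (nat_lit 0x136499e4b5) (nat_lit 0))) (L (E (nat_lit 3) (nat_lit 0x13b49ca4cb) (nat_lit 0)))) (N (nat_lit 1110) (L (E (nat_lit 3) (nat_lit 0x110480a3cd) (nat_lit 0))) (N (nat_lit 1111) (L (E (nat_lit 3) (nat_lit 0x10647f23d9) (nat_lit 0))) (L (E (nat_lit 3) (nat_lit 0x132c95648d) (nat_lit 0)))))) (N (nat_lit 1117) (N (nat_lit 1114) (N (nat_lit 1113) (L (E (nat_lit 3) (nat_lit 0x143c9564a5) (nat_lit 0)))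 (L (E (nat_lit 3) (nat_lit 0x115489e3ed) (nat_lit 0)))) (N (nat_lit 1115) (L (E (nat_lit 3) (nat_lit 0x146c9824bb) (nat_lit 0))) (N (nat_lit 1116) (L (E (nat_lit 3) (nat_lit 0x1b54d9669f) (nat_lit 0))) (L (E (nat_lit 3) (nat_lit 0x146c9de4e7) (nat_lit 0)))))) (N (nat_lit 1121) (N (nat_lit 1119) (N (nat_lit 1118) (L (E (nat_lit 3) (nat_lit 0x10e480e3c5) (nat_lit 0))) (L (E (nat_lit 3) (nat_lit 0x1eecf5e061) (nat_lit 0)))) (N (nat_lit 1120) (L (E (nat_lit 3) (nat_lit 0x1fbc63e00d) (nat_lit 0))) (L (E (nat_lit 3) (nat_lit 0x1fccba200f) (nat_lit 0))))) (N (nat_lit 1122) (L (E (nat_lit 3) (nat_lit 0xb7c582285) (nat_lit 0))) (L (E (nat_lit 3) (nat_lit 0x10fc83e3d9) (nat_lit 0))))))) (N (nat_lit 1127) (N (nat_lit 1125) (N (nat_lit 1124) (L (E (nat_lit 3) (nat_lit 0x11048423db) (nat_lit 0))) (L (E (nat_lit 3) (nat_lit 0x1bb4d9668b) (nat_lit 0)))) (N (nat_lit 1126) (L (E (nat_lit 3) (nat_lit 0x1c7ce0e6c3) (nat_lit 0)))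 (L (E (nat_lit 3) (nat_lit 0x1c94e266d5) (nat_lit 0))))) (N (nat_lit 1131) (N (nat_lit 1130) (N (nat_lit 1129) (N (nat_lit 1128) (L (E (nat_lit 3) (nat_lit 0xe2c68a335) (nat_lit 0))) (L (E (nat_lit 3) (nat_lit 0xe7c6ae33f) (nat_lit 0)))) (L (E (nat_lit 3) (nat_lit 0x11548063df) (nat_lit 0)))) (L (E (nat_lit 3) (nat_lit 0x13d493e481) (nat_lit 0)))) (N (nat_lit 1132) (L (E (nat_lit 3) (nat_lit 0x13dc942483) (nat_lit 0))) (N (nat_lit 1133) (L (E (nat_lit 3) (nat_lit 0x146498e4a5) (nat_lit 0))) (L (E (nat_lit 3) (nat_lit 0x1bc4d3e685) (nat_lit 0))))))))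
def cl23 : RA := N (nat_lit 1160) (N (nat_lit 1147) (N (nat_lit 1146) (N (nat_lit 1140) (N (nat_lit 1138) (N (nat_lit 1137) (N (nat_lit 1136) (L (E (nat_lit 3) (nat_lit 0x16e4b6a579) (nat_lit 0))) (L (E (nat_lit 3) (nat_lit 0x10647ca3c7) (nat_lit 0)))) (L (E (nat_lit 3) (nat_lit 0x10bc7fa3df) (nat_lit 0)))) (N (nat_lit 1139) (L (E (nat_lit 3) (nat_lit 0x10fc81e3f1) (nat_lit 0))) (L (E (nat_lit 3) (nat_lit 0x13bc97649f) (nat_lit 0))))) (N (nat_lit 1143) (N (nat_lit 1142) (N (nat_lit 1141) (L (E (nat_lit 3) (nat_lit 0x1becd926af) (nat_lit 0))) (L (E (nat_lit 3) (nat_lit 0x1c2cdbe6c1) (nat_lit 0)))) (L (E (nat_lit 3) (nat_lit 0x11548523f7) (nat_lit 0)))) (N (nat_lit 1145) (N (nat_lit 1144) (L (E (nat_lit 3) (nat_lit 0x16bcb12559) (nat_lit 0))) (L (E (nat_lit 3) (nat_lit 0x1c04daa6a5) (nat_lit 0)))) (L (E (nat_lit 3) (nat_lit 0x1c4cdd66bb) (nat_lit 0)))))) (L (E (nat_lit 3) (nat_lit 0x9043f2003) (nat_lit 0)))) (N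 (nat_lit 1155) (N (nat_lit 1150) (N (nat_lit 1149) (N (nat_lit 1148) (L (E (nat_lit 3) (nat_lit 0xbbc5ae28b) (nat_lit 0))) (L (E (nat_lit 3) (nat_lit 0x13d49a6481) (nat_lit 0)))) (L (E (nat_lit 3) (nat_lit 0x14549ee4a1) (nat_lit 0)))) (N (nat_lit 1153) (N (nat_lit 1151) (L (E (nat_lit 3) (nat_lit 0x10f47ea3c5) (nat_lit 0))) (N (nat_lit 1152) (L (E (nat_lit 3) (nat_lit 0x10fc7ee3c7) (nat_lit 0))) (L (E (nat_lit 3) (nat_lit 0x142c98e4a5) (nat_lit 0))))) (N (nat_lit 1154) (L (E (nat_lit 3) (nat_lit 0x14649b24b5) (nat_lit 0))) (L (E (nat_lit 3) (nat_lit 0x139c942497) (nat_lit 0)))))) (N (nat_lit 1158) (N (nat_lit 1156) (L (E (nat_lit 3) (nat_lit 0x13dc9624a7) (nat_lit 0))) (N (nat_lit 1157) (L (E (nat_lit 3) (nat_lit 0x13ec96a4ab) (nat_lit 0))) (L (E (nat_lit 3) (nat_lit 0x1684ac6559) (nat_lit 0))))) (N (nat_lit 1159) (L (E (nat_lit 3) (nat_lit 0x1b74d36691) (nat_lit 0))) (L (E (nat_lit 3) (nat_lit 0x1c0cd7e6b7)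 (nat_lit 0))))))) (N (nat_lit 1161) (L (E (nat_lit 3) (nat_lit 0x92446e001) (nat_lit 0))) (N (nat_lit 1162) (L (E (nat_lit 3) (nat_lit 0x83c3f21e1) (nat_lit 0))) (N (nat_lit 1172) (N (nat_lit 1166) (N (nat_lit 1164) (N (nat_lit 1163) (L (E (nat_lit 3) (nat_lit 0x108480a3cf) (nat_lit 0))) (L (E (nat_lit 3) (nat_lit 0x11148523f7) (nat_lit 0)))) (N (nat_lit 1165) (L (E (nat_lit 3) (nat_lit 0x139c992497) (nat_lit 0))) (L (E (nat_lit 3) (nat_lit 0x142c9de4bb) (nat_lit 0))))) (N (nat_lit 1169) (N (nat_lit 1167) (L (E (nat_lit 3) (nat_lit 0x1b74d7e691) (nat_lit 0))) (N (nat_lit 1168) (L (E (nat_lit 3) (nat_lit 0x1b84d86695) (nat_lit 0))) (L (E (nat_lit 3) (nat_lit 0x1c2ce0e6c1) (nat_lit 0))))) (N (nat_lit 1171) (N (nat_lit 1170) (L (E (nat_lit 3) (nat_lit 0x13dc9aa473) (nat_lit 0))) (L (E (nat_lit 3) (nat_lit 0x13ac94a47b) (nat_lit 0)))) (L (E (nat_lit 3) (nat_lit 0x13ec9ba4ab) (nat_lit 0)))))) (N (nat_lit 1178) (N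 (nat_lit 1174) (N (nat_lit 1173) (L (E (nat_lit 3) (nat_lit 0x13dc94a487) (nat_lit 0))) (L (E (nat_lit 3) (nat_lit 0x1bb4d3e685) (nat_lit 0)))) (N (nat_lit 1176) (N (nat_lit 1175) (L (E (nat_lit 3) (nat_lit 0x140c9c64c3) (nat_lit 0))) (L (E (nat_lit 3) (nat_lit 0x1bb4d966af) (nat_lit 0)))) (N (nat_lit 1177) (L (E (nat_lit 3) (nat_lit 0xac44d6259) (nat_lit 0))) (L (E (nat_lit 3) (nat_lit 0x10fc7e23d5) (nat_lit 0)))))) (N (nat_lit 1179) (L (E (nat_lit 3) (nat_lit 0x141496a49b) (nat_lit 0))) (L (E (nat_lit 3) (nat_lit 0x1e34ea2737) (nat_lit 0))))))))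
def cl24 : RA := N (nat_lit 1253) (N (nat_lit 1234) (L (E (nat_lit 3) (nat_lit 0x94c476001) (nat_lit 0))) (N (nat_lit 1244) (N (nat_lit 1239) (N (nat_lit 1237) (N (nat_lit 1236) (N (nat_lit 1235) (L (E (nat_lit 3) (nat_lit 0x1b74d5e67d) (nat_lit 0))) (L (E (nat_lit 3) (nat_lit 0x135497646b) (nat_lit 0)))) (L (E (nat_lit 3) (nat_lit 0x143c9ee495) (nat_lit 0)))) (N (nat_lit 1238) (L (E (nat_lit 3) (nat_lit 0x1464a064a1) (nat_lit 0))) (L (E (nat_lit 3) (nat_lit 0x1694b22539) (nat_lit 0))))) (N (nat_lit 1241) (N (nat_lit 1240) (L (E (nat_lit 3) (nat_lit 0xfd479e3b5) (nat_lit 0))) (L (E (nat_lit 3) (nat_lit 0x10747f23d9) (nat_lit 0)))) (N (nat_lit 1242) (L (E (nat_lit 3) (nat_lit 0x138c97a49f) (nat_lit 0))) (N (nat_lit 1243) (L (E (nat_lit 3) (nat_lit 0x1c3cde26d3) (nat_lit 0))) (L (E (nat_lit 3) (nat_lit 0x109480e3e1) (nat_lit 0))))))) (N (nat_lit 1249) (N (nat_lit 1247) (N (nat_lit 1246) (N (nat_lit 1245) (L (E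 (nat_lit 3) (nat_lit 0x112c85a40b) (nat_lit 0))) (L (E (nat_lit 3) (nat_lit 0x13a49924a5) (nat_lit 0)))) (L (E (nat_lit 3) (nat_lit 0x105c8123ab) (nat_lit 0)))) (N (nat_lit 1248) (L (E (nat_lit 3) (nat_lit 0x10a48423f5) (nat_lit 0))) (L (E (nat_lit 3) (nat_lit 0x135c99a4a1) (nat_lit 0))))) (N (nat_lit 1251) (N (nat_lit 1250) (L (E (nat_lit 3) (nat_lit 0x13bc9ce4b9) (nat_lit 0))) (L (E (nat_lit 3) (nat_lit 0x10f483e3e1) (nat_lit 0)))) (N (nat_lit 1252) (L (E (nat_lit 3) (nat_lit 0x12c4926469) (nat_lit 0))) (L (E (nat_lit 7) (nat_lit 0x1c00dd66c23580014006001) (nat_lit 0)))))))) (N (nat_lit 1258) (N (nat_lit 1255) (N (nat_lit 1254) (L (E (nat_lit 10) (nat_lit 0xe006ec3631b08d6c6b03520014006001) (nat_lit 0))) (L (E (nat_lit 7) (nat_lit 0x1bb4dbc6dc36a0014006001) (nat_lit 0)))) (N (nat_lit 1257) (N (nat_lit 1256) (L (E (nat_lit 7) (nat_lit 0x1488a2850226e8014006001) (nat_lit 0))) (L (E (nat_lit 12) (nat_lit 0x3769ba0dba6d43611b04d4c6a43470014006001)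 (nat_lit 0)))) (L (E (nat_lit 7) (nat_lit 0x14289ca4cc2510014006001) (nat_lit 0))))) (N (nat_lit 1268) (N (nat_lit 1260) (N (nat_lit 1259) (L (E (nat_lit 10) (nat_lit 0xa4051226f13309944b42500014006001) (nat_lit 0))) (L (E (nat_lit 7) (nat_lit 0x1ac8d606ae3518014006001) (nat_lit 0)))) (N (nat_lit 1264) (N (nat_lit 1262) (N (nat_lit 1261) (L (E (nat_lit 20) (nat_lit 0x3809ba4d906c23591ac0d5c6a42ca1630ad455628514109c84b42500014006001) (nat_lit 0))) (L (E (nat_lit 17) (nat_lit 0x7003761b20d846b03531a90d1868a27213789b84cc2518014006001) (nat_lit 0)))) (N (nat_lit 1263) (L (E (nat_lit 20) (nat_lit 0x3761b20d846b03571a98d485942c615a8a1450427213789b84cc2518014006001) (nat_lit 0))) (L (E (nat_lit 13) (nat_lit 0x7023591718b485942c91630b0457f2ac0014006001) (nat_lit 0))))) (N (nat_lit 1266) (N (nat_lit 1265) (L (E (nat_lit 18) (nat_lit 0xe046b22d71690b2858c2c115a8ad05582ab1428a084e32658014006001) (nat_lit 0))) (L (E (nat_lit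 20) (nat_lit 0x3809b20d846b52ca1630ad45582ab1428a084e426f13709684a024a0014006001) (nat_lit 0)))) (N (nat_lit 1267) (L (E (nat_lit 19) (nat_lit 0x1bb0d906c23581ab8d4c5942c615a8a1450427213789b84cc2518014006001) (nat_lit 0))) (L (E (nat_lit 16) (nat_lit 0x3b51cd8b204f427213889bc4dc267128c8103de1e30014006001) (nat_lit 0))))))) (N (nat_lit 1271) (N (nat_lit 1269) (L (E (nat_lit 7) (nat_lit 0x13d89e84f226d8014006001) (nat_lit 0))) (N (nat_lit 1270) (L (E (nat_lit 12) (nat_lit 0x28214089b84da265931894049a2470014006001) (nat_lit 0))) (L (E (nat_lit 21) (nat_lit 0x7363809b20d6c6b03571a24b3859a2ca1564a1450427213389463c61550014006001) (nat_lit 0))))) (N (nat_lit 1272) (L (E (nat_lit 5) (nat_lit 0x6e936c1ad0d44001) (nat_lit 0))) (N (nat_lit 1273) (L (E (nat_lit 20) (nat_lit 0x3761b20d846b03571a98b2857c2b51428a084e426f137099c4cc2518014006001) (nat_lit 0))) (L (E (nat_lit 11) (nat_lit 0x1c04dd06d83611af8d646a23448014006001)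 (nat_lit 0))))))))
def cl25 : RA := N (nat_lit 1294) (N (nat_lit 1281) (N (nat_lit 1278) (N (nat_lit 1277) (N (nat_lit 1276) (N (nat_lit 1275) (L (E (nat_lit 14) (nat_lit 0xba058d2c015f0aec2ce15d0aa054029c13c0014006001) (nat_lit 0))) (L (E (nat_lit 19) (nat_lit 0x1bb0d906c23581ab8d4c5942be15a8a1450427213789b84cc2518014006001) (nat_lit 0)))) (L (E (nat_lit 10) (nat_lit 0xdd86e93641b0cd5c6a63510014006001) (nat_lit 0)))) (L (E (nat_lit 10) (nat_lit 0xdd86eb36f1b68d906c335a8014006001) (nat_lit 0)))) (N (nat_lit 1280) (N (nat_lit 1279) (L (E (nat_lit 14) (nat_lit 0xe006ec3641b0cd5c6a628514109c84dc2518014006001) (nat_lit 0))) (L (E (nat_lit 13) (nat_lit 0x6ec3641b0cd5c6a628514109c84dc2518014006001) (nat_lit 0)))) (L (E (nat_lit 13) (nat_lit 0x6c83631b08d8050a28213909bc4dc2518014006001) (nat_lit 0))))) (N (nat_lit 1288) (N (nat_lit 1284) (N (nat_lit 1282) (L (E (nat_lit 16) (nat_lit 0x3761b20d686b03571a98a1450427213789b84cc2518014006001)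 (nat_lit 0))) (N (nat_lit 1283) (L (E (nat_lit 12) (nat_lit 0x3801bb0dd46c83631b08d6c6b03530014006001) (nat_lit 0))) (L (E (nat_lit 28) (nat_lit 0x3c81e18ed074c3811bb0db46c635b1ac8ba05802be15d8ae056a2b41560aac4482220b3857c2ba1540014006001) (nat_lit 0))))) (N (nat_lit 1286) (N (nat_lit 1285) (L (E (nat_lit 18) (nat_lit 0xf207863c21de0ed47683a61cf0ab62ce15f0ae853c29c13c0014006001) (nat_lit 0))) (L (E (nat_lit 34) (nat_lit 0xf207683a61cf0e046ec3631ad8d645982c915f0aec5702b515a0ab055628c1428a0c4e226f13209744441670ae855029c13c0014006001) (nat_lit 0)))) (N (nat_lit 1287) (L (E (nat_lit 34) (nat_lit 0xed074c39e1c08dd86c635b1ac8b305922be15d8ae056a2b41560aac518285140c9c44cc26412e881e4061ef0f3055029c13c0014006001) (nat_lit 0))) (L (E (nat_lit 39) (nat_lit 0x1da0ebc74c39e1c08dd86c83631ad8d606ae3531660b2457c2bb15c0ad45682ac1460a1450427213889bc4dc266132094640f2030f7879829c1490014006001) (nat_lit 0)))))) (N (nat_lit 1291)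 (N (nat_lit 1290) (N (nat_lit 1289) (L (E (nat_lit 21) (nat_lit 0x75e3ae1d60ea874a35919d0c88634283939c9b64a41fc0f787b82b21490014006001) (nat_lit 0))) (L (E (nat_lit 9) (nat_lit 0x45522210f085c40f2030014006001) (nat_lit 0)))) (L (E (nat_lit 9) (nat_lit 0x45e22a11108604081ee0014006001) (nat_lit 0)))) (N (nat_lit 1293) (N (nat_lit 1292) (L (E (nat_lit 13) (nat_lit 0x7903b41d60e9844821890808143de1670014006001) (nat_lit 0))) (L (E (nat_lit 38) (nat_lit 0xed07543a61cf0e046ec3641b18d6c6b03571a98c685982c915f0aec5682ac1428a084e427113789b84cc264128c92842e21110187bc3cc14e0014006001) (nat_lit 0)))) (L (E (nat_lit 17) (nat_lit 0x7023761b68d8c6b63591560aac50226d132c94045e20b0014006001) (nat_lit 0))))))) (N (nat_lit 1296) (N (nat_lit 1295) (L (E (nat_lit 7) (nat_lit 0x10b88383f51e70014006001) (nat_lit 0))) (L (E (nat_lit 10) (nat_lit 0x8624221fc0fd07bc3cc1e10014006001) (nat_lit 0)))) (N (nat_lit 1306) (N (nat_lit 1302) (N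 (nat_lit 1299) (N (nat_lit 1298) (N (nat_lit 1297) (L (E (nat_lit 27) (nat_lit 0x1d50e987023761b20d8c6b03571a94c685982c915d8ad050a28213d09c84dc25190b88444161ef0014006001) (nat_lit 0))) (L (E (nat_lit 19) (nat_lit 0x1e20ef476e3b51d28e6c50a27a13c89a44cb25c90c48443f81ef0014006001) (nat_lit 0)))) (L (E (nat_lit 21) (nat_lit 0x7883b71da8e6c5ae2b39460a144f427913909b84da25190888103de1e30014006001) (nat_lit 0)))) (N (nat_lit 1301) (N (nat_lit 1300) (L (E (nat_lit 20) (nat_lit 0x3c41db8ed47362d71638aa450a28393909b84cb25190888103de1e30014006001) (nat_lit 0))) (L (E (nat_lit 15) (nat_lit 0x1bb0dd26c83581ab8d4c50a28213909bc4cc2518014006001) (nat_lit 0)))) (L (E (nat_lit 15) (nat_lit 0x1bb0d906b03571a98a1450427213789b84cc2518014006001) (nat_lit 0))))) (N (nat_lit 1304) (N (nat_lit 1303) (L (E (nat_lit 12) (nat_lit 0x3641ac4d4c50a28213909bc4dc2518014006001) (nat_lit 0))) (L (E (nat_lit 11) (nat_lit 0x10c083c40a1fc0fd07bc3cc1e50014006001)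 (nat_lit 0)))) (N (nat_lit 1305) (L (E (nat_lit 14) (nat_lit 0xb4059c2cc1560aac5421670aa85502861420014006001) (nat_lit 0))) (L (E (nat_lit 10) (nat_lit 0xdd46dd36c1ad0d646ae3510014006001) (nat_lit 0)))))) (N (nat_lit 1311) (N (nat_lit 1308) (N (nat_lit 1307) (L (E (nat_lit 10) (nat_lit 0xdda6ba3531a90d446903410014006001) (nat_lit 0))) (L (E (nat_lit 15) (nat_lit 0x1bb4dba6c33571a94d1850a28213909bc4dc2518014006001) (nat_lit 0)))) (N (nat_lit 1310) (N (nat_lit 1309) (L (E (nat_lit 15) (nat_lit 0x1bb4dba6ae35315f4a1450427213789b84cc2518014006001) (nat_lit 0))) (L (E (nat_lit 14) (nat_lit 0xdda6dd3571a98a1450427a93909bc4dc2518014006001) (nat_lit 0)))) (L (E (nat_lit 10) (nat_lit 0xde06de35d13dc9bc4dc24a0014006001) (nat_lit 0))))) (N (nat_lit 1312) (L (E (nat_lit 11) (nat_lit 0x13d89e84e427113789b84ce2518014006001) (nat_lit 0))) (N (nat_lit 1313) (L (E (nat_lit 17) (nat_lit 0x7073769b74d746ae3529428a084e426f13709463f41ef0014006001)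 (nat_lit 0))) (L (E (nat_lit 13) (nat_lit 0x6c83571a98a1450427213789b84cc2518014006001) (nat_lit 0))))))))
def cl26 : RA := N (nat_lit 1367) (N (nat_lit 1353) (N (nat_lit 1347) (N (nat_lit 1346) (N (nat_lit 1343) (N (nat_lit 1342) (L (E (nat_lit 8) (nat_lit 0x1690af857429a13b8014006001) (nat_lit 0))) (L (E (nat_lit 32) (nat_lit 0x3871c08dd86c635b1ac8c9064432118a0c3852828514109f04f627a13889b84ce25a128086042e1fc8f787b83881590014006001) (nat_lit 0)))) (N (nat_lit 1345) (N (nat_lit 1344) (L (E (nat_lit 35) (nat_lit 0x1c38e046ec3631ad8d646483221908c5061c2941428a084f827b13d09c44dc26712d0940430217108883c40e2030f787b83881590014006001) (nat_lit 0))) (L (E (nat_lit 19) (nat_lit 0x1bb0d8c6b63531a8888843221110388164061fc0f787103801b30014006001) (nat_lit 0)))) (L (E (nat_lit 26) (nat_lit 0xde06ec3641ad8d646ae3531910a5050a28213e09ec4f427113389684a020f10387e83dc1590014006001) (nat_lit 0))))) (L (E (nat_lit 12) (nat_lit 0x3641ab8d4c50a28213789b84cc2518014006001)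 (nat_lit 0)))) (N (nat_lit 1349) (N (nat_lit 1348) (L (E (nat_lit 10) (nat_lit 0xa1450426612d081c4061fa8014006001) (nat_lit 0))) (L (E (nat_lit 6) (nat_lit 0x8623f51e70014006001) (nat_lit 0)))) (N (nat_lit 1350) (L (E (nat_lit 6) (nat_lit 0x81e4061ef8014006001) (nat_lit 0))) (N (nat_lit 1351) (L (E (nat_lit 9) (nat_lit 0x7c23821b7cd6607c0370014006001) (nat_lit 0))) (N (nat_lit 1352) (L (E (nat_lit 21) (nat_lit 0x70436a1ad8d5c6a234614289ec4f427913889bc4dc26912d092407c0370014006001) (nat_lit 0))) (L (E (nat_lit 28) (nat_lit 0x3821b50d6c6ae3511a30a1450727113789b84d226312d092447e2040f7078c2b214c0a404d407c0370014006001) (nat_lit 0)))))))) (N (nat_lit 1361) (N (nat_lit 1360) (N (nat_lit 1357) (N (nat_lit 1355) (N (nat_lit 1354) (L (E (nat_lit 10) (nat_lit 0x9e84e226e92e493c4922400014006001) (nat_lit 0))) (L (E (nat_lit 9) (nat_lit 0x6b63591ab8a0e4b42528014006001) (nat_lit 0)))) (N (nat_lit 1356) (L (E (nat_lit 13)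 (nat_lit 0x6c235b1ac8d5c50727b937496849e2490014006001) (nat_lit 0))) (L (E (nat_lit 10) (nat_lit 0xa14507272132c9704a223f0014006001) (nat_lit 0))))) (N (nat_lit 1358) (L (E (nat_lit 11) (nat_lit 0x1f58de26c835b1a98d440f80770014006001) (nat_lit 0))) (N (nat_lit 1359) (L (E (nat_lit 24) (nat_lit 0x3e11c80e3c70d3821c08dd86e035b1accd4c6a228514089c84dd25c12d08fc07c0370014006001) (nat_lit 0))) (L (E (nat_lit 33) (nat_lit 0x71e3821b80da86c235b1ab8d4468c2851410a044f827113789a44c625a127892447e2040f7078c2b214c0a404d407c0370014006001) (nat_lit 0)))))) (L (E (nat_lit 7) (nat_lit 0x13289904c625c8014006001) (nat_lit 0)))) (N (nat_lit 1363) (N (nat_lit 1362) (L (E (nat_lit 12) (nat_lit 0x2d81638acc2f01730b4857c2b21560014006001) (nat_lit 0))) (L (E (nat_lit 12) (nat_lit 0x28514109e44cc265132098c4b42510014006001) (nat_lit 0)))) (N (nat_lit 1365) (N (nat_lit 1364) (L (E (nat_lit 43) (nat_lit 0x1de8ed074638f1c10dc06d43611ad8d5c6a234618a8bcc50a28214089f04e2269131896849e24911f885c4081ef0f7078c2ce15f0ac853029013505b828c07c0370014006001)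 (nat_lit 0))) (L (E (nat_lit 17) (nat_lit 0x6c635d1ad0d486a2346141c9ca4d2266929892448e2460014006001) (nat_lit 0)))) (N (nat_lit 1366) (L (E (nat_lit 14) (nat_lit 0x9cc4e4271137099c4b825a11f85082781350014006001) (nat_lit 0))) (L (E (nat_lit 21) (nat_lit 0x6c235d1adcd5c68c2851410a044f826912e096849223f11545082781350014006001) (nat_lit 0)))))))) (N (nat_lit 1370) (N (nat_lit 1369) (N (nat_lit 1368) (L (E (nat_lit 11) (nat_lit 0x1428a0e4e226312e49544a22490014006001) (nat_lit 0))) (L (E (nat_lit 22) (nat_lit 0xdc06a228514109a4492211108083c4182030fe07e83e01ef0f3056427803e0014006001) (nat_lit 0)))) (L (E (nat_lit 5) (nat_lit 0x42e2030f74006001) (nat_lit 0)))) (N (nat_lit 1382) (N (nat_lit 1376) (N (nat_lit 1373) (N (nat_lit 1372) (N (nat_lit 1371) (L (E (nat_lit 17) (nat_lit 0x52228513d09c44ce26592e894c4a425110b881e40a1fa0014006001) (nat_lit 0))) (L (E (nat_lit 13) (nat_lit 0x50a283932c9724a221810b881e40a2030014006001)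 (nat_lit 0)))) (L (E (nat_lit 14) (nat_lit 0x99c4cc26512989484a221810b881e40a2030014006001) (nat_lit 0)))) (N (nat_lit 1375) (N (nat_lit 1374) (L (E (nat_lit 10) (nat_lit 0xa1450627193489964b92510014006001) (nat_lit 0))) (L (E (nat_lit 12) (nat_lit 0x285132c9724a221810b881e40a2030014006001) (nat_lit 0)))) (L (E (nat_lit 17) (nat_lit 0x4f627113389964ba253129094444421810b87f03f41ef0014006001) (nat_lit 0))))) (N (nat_lit 1379) (N (nat_lit 1377) (L (E (nat_lit 12) (nat_lit 0x22210c085c42820790247c83de1ee0014006001) (nat_lit 0))) (N (nat_lit 1378) (L (E (nat_lit 10) (nat_lit 0x9724a221810b881e40a2030014006001) (nat_lit 0))) (L (E (nat_lit 10) (nat_lit 0x86042221010788384091fc0014006001) (nat_lit 0))))) (N (nat_lit 1381) (N (nat_lit 1380) (L (E (nat_lit 11) (nat_lit 0x111086042e20e103c80c3f41ef0014006001) (nat_lit 0))) (L (E (nat_lit 10) (nat_lit 0x86042e20e103c8144061fa0014006001) (nat_lit 0)))) (L (E (nat_lit 22)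 (nat_lit 0xdc06a2283936c9a4492211108083c4182030fe07e83e01ef0f3056427803e0014006001) (nat_lit 0)))))) (N (nat_lit 1384) (N (nat_lit 1383) (L (E (nat_lit 7) (nat_lit 0x1460a0c4f22658014006001) (nat_lit 0))) (L (E (nat_lit 28) (nat_lit 0x3701a88a30502279134898c4a324911f884442020f106080c3f81fa0f807bc3cc1670ac853028403e0014006001) (nat_lit 0)))) (N (nat_lit 1388) (N (nat_lit 1386) (N (nat_lit 1385) (L (E (nat_lit 13) (nat_lit 0x51828514149ea4b425111f859c2981420014006001) (nat_lit 0))) (L (E (nat_lit 9) (nat_lit 0x2d01670a605142861420014006001) (nat_lit 0)))) (N (nat_lit 1387) (L (E (nat_lit 21) (nat_lit 0x6c83631b08b705ae2bf15b8ad45621680b3857c29d14c0a104f427813b0014006001) (nat_lit 0))) (L (E (nat_lit 28) (nat_lit 0x3f41b08d6e6523181840bdc5b82d715f8adc56225c0b785a02ce1610af854829e14c0a104f427813b0014006001) (nat_lit 0))))) (N (nat_lit 1389) (L (E (nat_lit 22) (nat_lit 0xfd077a36a1b08d5c6a23461840bdc50527a133496847e1670af854829813c0014006001)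 (nat_lit 0))) (L (E (nat_lit 16) (nat_lit 0x3b91d20e586c12d715b8ac85622ad1560a9c54829e0014006001) (nat_lit 0))))))))
def cl27 : RA := N (nat_lit 1455) (N (nat_lit 1449) (N (nat_lit 1436) (N (nat_lit 1433) (N (nat_lit 1430) (N (nat_lit 1429) (L (E (nat_lit 11) (nat_lit 0x13d09c44cb251103c8142981420014006001) (nat_lit 0))) (L (E (nat_lit 11) (nat_lit 0x13d89c84b825a0f807bc3dc1438014006001) (nat_lit 0)))) (N (nat_lit 1432) (N (nat_lit 1431) (L (E (nat_lit 16) (nat_lit 0x27b13d09c84e226f12e09463e01ef0bb85a029c14c0014006001) (nat_lit 0))) (L (E (nat_lit 9) (nat_lit 0x4f726592e094840f1ee0014006001) (nat_lit 0)))) (L (E (nat_lit 12) (nat_lit 0x27a13909c44cb20790285dc2981420014006001) (nat_lit 0))))) (N (nat_lit 1434) (L (E (nat_lit 7) (nat_lit 0x13b09ba4a02470014006001) (nat_lit 0))) (N (nat_lit 1435) (L (E (nat_lit 13) (nat_lit 0x50b27c13d89e84f227612e09684a02470014006001) (nat_lit 0))) (L (E (nat_lit 15) (nat_lit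 0x13d09c44cb25c103c8144082030f785dc2981420014006001) (nat_lit 0)))))) (N (nat_lit 1443) (N (nat_lit 1440) (N (nat_lit 1438) (N (nat_lit 1437) (L (E (nat_lit 8) (nat_lit 0x27993889b84ce2630014006001) (nat_lit 0))) (L (E (nat_lit 18) (nat_lit 0xa164f427613889b84ce265931894042221010787f03f51f80014006001) (nat_lit 0)))) (N (nat_lit 1439) (L (E (nat_lit 17) (nat_lit 0x6d834f139494c4a225010bc8404162040fe07ec3e01e30014006001) (nat_lit 0))) (L (E (nat_lit 13) (nat_lit 0x4f427293489964c621110807f03f51f80014006001) (nat_lit 0))))) (N (nat_lit 1442) (N (nat_lit 1441) (L (E (nat_lit 13) (nat_lit 0x45c218908884040a1770b0057c2b01540014006001) (nat_lit 0))) (L (E (nat_lit 17) (nat_lit 0x45c21710888144082030fe07e03c61770b9057c2b21540014006001) (nat_lit 0)))) (L (E (nat_lit 23) (nat_lit 0x1ba0d8c50627b13d09c84e226712e08fc44421110288104061fc0fc057c2b21540014006001) (nat_lit 0))))) (N (nat_lit 1444) (L (E (nat_lit 10) (nat_lit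 0xdda6e836e1b50d8c6b234f0014006001) (nat_lit 0))) (N (nat_lit 1447) (N (nat_lit 1446) (N (nat_lit 1445) (L (E (nat_lit 15) (nat_lit 0x1ba0db86c635f1ac8d3c45622210bc83e4082030014006001) (nat_lit 0))) (L (E (nat_lit 26) (nat_lit 0xdd06dc36c1b18d7c69e250127888842f21110808144082030fe07ec3e01e306702fc1720b00014006001) (nat_lit 0)))) (L (E (nat_lit 10) (nat_lit 0xe2470e3811ba8dd06b23470014006001) (nat_lit 0)))) (N (nat_lit 1448) (L (E (nat_lit 10) (nat_lit 0xdc06d83651ad0d206843410014006001) (nat_lit 0))) (L (E (nat_lit 20) (nat_lit 0x3891ba0dc06d836513209684a222a10b884041e20b10187f03f51f80014006001) (nat_lit 0)))))))) (N (nat_lit 1454) (N (nat_lit 1451) (N (nat_lit 1450) (L (E (nat_lit 20) (nat_lit 0x3741b809ec4f427213889964a2211108082c3f81fa8fc05642a80ce0014006001) (nat_lit 0))) (L (E (nat_lit 7) (nat_lit 0x107c8103dc1e30014006001) (nat_lit 0)))) (N (nat_lit 1453) (N (nat_lit 1452) (L (E (nat_lit 16) (nat_lit 0x3741ac8a044cb21710888404082030fe07ec3f01ee0014006001)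 (nat_lit 0))) (L (E (nat_lit 14) (nat_lit 0x9ec4f427213889ba4cb207902880c3f01540014006001) (nat_lit 0)))) (L (E (nat_lit 13) (nat_lit 0x4f627a13889964c620790287e02ee1540014006001) (nat_lit 0))))) (L (E (nat_lit 9) (nat_lit 0x430217102080c3f81f80014006001) (nat_lit 0))))) (N (nat_lit 1473) (N (nat_lit 1462) (N (nat_lit 1459) (N (nat_lit 1457) (N (nat_lit 1456) (L (E (nat_lit 12) (nat_lit 0x27a13889964b820790288102ee14c8014006001) (nat_lit 0))) (L (E (nat_lit 13) (nat_lit 0x4e2265931885e40f20510205dc2981430014006001) (nat_lit 0)))) (N (nat_lit 1458) (L (E (nat_lit 17) (nat_lit 0x4e2265931886040f205102080c3e01ef0f605dc2981430014006001) (nat_lit 0))) (L (E (nat_lit 9) (nat_lit 0x4f4271132c81e40a1770014006001) (nat_lit 0))))) (N (nat_lit 1460) (L (E (nat_lit 6) (nat_lit 0xd966a63420014006001) (nat_lit 0))) (N (nat_lit 1461) (L (E (nat_lit 17) (nat_lit 0x6a634214089964a224010b884442020510207f03f61f80014006001) (nat_lit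 0))) (L (E (nat_lit 11) (nat_lit 0x14089c84ce26590c481e40a1770014006001) (nat_lit 0)))))) (N (nat_lit 1463) (L (E (nat_lit 9) (nat_lit 0x430217107080c3f81fa8014006001) (nat_lit 0))) (N (nat_lit 1468) (N (nat_lit 1466) (N (nat_lit 1465) (N (nat_lit 1464) (L (E (nat_lit 20) (nat_lit 0x3751b50d8c6b23511460a044e4267132c9704811c50dd86781a80c70014006001) (nat_lit 0))) (L (E (nat_lit 20) (nat_lit 0x3631ac89c64cb25c128888842f211108083c40a2040fe07ec3e01590014006001) (nat_lit 0)))) (L (E (nat_lit 14) (nat_lit 0xa0e4e4267132c9704a21770b405802b21580014006001) (nat_lit 0)))) (N (nat_lit 1467) (L (E (nat_lit 9) (nat_lit 0x8083d41c30dd06b22bc8014006001) (nat_lit 0))) (L (E (nat_lit 19) (nat_lit 0x2020f506f03741ac8b18506279138c9b44cb26312e088042c2020014006001) (nat_lit 0))))) (N (nat_lit 1471) (N (nat_lit 1470) (N (nat_lit 1469) (L (E (nat_lit 17) (nat_lit 0x77a3b51d28e246f03741ac8b1c57c2ac106455429a13c0014006001) (nat_lit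 0))) (L (E (nat_lit 21) (nat_lit 0x76a3781b50d644e326e932c94444021610107f03f51770b405802b213c0014006001) (nat_lit 0)))) (L (E (nat_lit 11) (nat_lit 0x1c48de06e836a1b0cd7c6b73590014006001) (nat_lit 0)))) (N (nat_lit 1472) (L (E (nat_lit 8) (nat_lit 0x27a132c81e40a1770014006001) (nat_lit 0))) (L (E (nat_lit 19) (nat_lit 0x1ba8da86c63591a88a0c502271932c9704811c50dd86781a80c70014006001) (nat_lit 0)))))))) (N (nat_lit 1476) (N (nat_lit 1475) (N (nat_lit 1474) (L (E (nat_lit 20) (nat_lit 0x3751b50d8c6b23511488a0c502271932c9704a21c50dd86781a80c70014006001) (nat_lit 0))) (L (E (nat_lit 24) (nat_lit 0x3751ba0da86c63591a88a44506281132c9704a222210bc83e4082020dd86781a80c70014006001) (nat_lit 0)))) (L (E (nat_lit 15) (nat_lit 0x1ba0d8c52226592e08a842f20790207ec3e01700014006001) (nat_lit 0)))) (L (E (nat_lit 6) (nat_lit 0x8a841d1fc0014006001) (nat_lit 0)))))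
def cl28 : RA := N (nat_lit 1390) (N (nat_lit 1341) (N (nat_lit 1314) (cl25) (N (nat_lit 1322) (N (nat_lit 1321) (N (nat_lit 1318) (N (nat_lit 1316) (N (nat_lit 1315) (L (E (nat_lit 11) (nat_lit 0x1428a084cc25e12d094040e1fa8014006001) (nat_lit 0))) (L (E (nat_lit 12) (nat_lit 0x3751b78d906b63591ab8a0e4f827b0014006001) (nat_lit 0)))) (N (nat_lit 1317) (L (E (nat_lit 17) (nat_lit 0x6dd32618b8a1450628213d09c441e20710187e83de1ee0014006001) (nat_lit 0))) (L (E (nat_lit 22) (nat_lit 0xdd46dd36c1ad8d646ae32618b8a1450427c13d89e84e220f103880c3f41ee0014006001) (nat_lit 0))))) (N (nat_lit 1319) (L (E (nat_lit 9) (nat_lit 0x6ea36e9b60d6e6b23570014006001) (nat_lit 0))) (N (nat_lit 1320) (L (E (nat_lit 21) (nat_lit 0x6ea36e9b60d646ae3261428a084f827b13d09c44b4250107881c3f41ee0014006001) (nat_lit 0))) (L (E (nat_lit 20) (nat_lit 0x3be1bb4d906ae3531650a1450427c13d89c44de26e134c99841e1590014006001) (nat_lit 0)))))) (L (E (nat_lit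 5) (nat_lit 0x6ca3641b18d62001) (nat_lit 0)))) (N (nat_lit 1335) (N (nat_lit 1327) (N (nat_lit 1324) (N (nat_lit 1323) (L (E (nat_lit 10) (nat_lit 0xdd86dd35b1ac8d5c45420f0014006001) (nat_lit 0))) (L (E (nat_lit 7) (nat_lit 0x11508904331f00014006001) (nat_lit 0)))) (N (nat_lit 1326) (N (nat_lit 1325) (L (E (nat_lit 9) (nat_lit 0x7003759b50d7c6b73580014006001) (nat_lit 0))) (L (E (nat_lit 13) (nat_lit 0x71e3801b74da86b73461a288a843020f0014006001) (nat_lit 0)))) (L (E (nat_lit 12) (nat_lit 0x21710187e03ce1e50b9056428e1450014006001) (nat_lit 0))))) (N (nat_lit 1331) (N (nat_lit 1329) (N (nat_lit 1328) (L (E (nat_lit 20) (nat_lit 0x4081df0dd86c83591ab8d4c59428514109ea4de26e134c99841e1590014006001) (nat_lit 0))) (L (E (nat_lit 9) (nat_lit 0x43120710287f03f61fa0014006001) (nat_lit 0)))) (N (nat_lit 1330) (L (E (nat_lit 18) (nat_lit 0xde06eb3741b78db46b227c13d09c44cb21890388143f41590014006001) (nat_lit 0))) (L (E (nat_lit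 15) (nat_lit 0x1bf0dd06dd36a1adcd644f827b13d09e44562030014006001) (nat_lit 0))))) (N (nat_lit 1333) (N (nat_lit 1332) (L (E (nat_lit 20) (nat_lit 0x37e1ba0dba6d435b9ac8a144f827b13d09c443020f106080c3f81fa0014006001) (nat_lit 0))) (L (E (nat_lit 10) (nat_lit 0xdd06ca3641b18d846b23558014006001) (nat_lit 0)))) (N (nat_lit 1334) (L (E (nat_lit 20) (nat_lit 0x3781bb0d6e6ae3531428a084f827b13d09c44bc25a128083c40e1590014006001) (nat_lit 0))) (L (E (nat_lit 14) (nat_lit 0xdd86dd35b1ac8d5c50a27c13d89e841e2030014006001) (nat_lit 0))))))) (N (nat_lit 1340) (N (nat_lit 1337) (N (nat_lit 1336) (L (E (nat_lit 10) (nat_lit 0xe026f03759b70d6c6b23570014006001) (nat_lit 0))) (L (E (nat_lit 18) (nat_lit 0xdd86c635b1968c9462830b10b881c40a20310107ec3881bb0014006001) (nat_lit 0)))) (N (nat_lit 1339) (N (nat_lit 1338) (L (E (nat_lit 27) (nat_lit 0x1c38e046ec3631ad8d6464432118a0c3850a28314109e84e226e13389964302170fe47bc3dc1c40014006001)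 (nat_lit 0))) (L (E (nat_lit 11) (nat_lit 0x10d086042e20590187f23de1ee0014006001) (nat_lit 0)))) (L (E (nat_lit 8) (nat_lit 0x1590aa053628e1430014006001) (nat_lit 0))))) (L (E (nat_lit 6) (nat_lit 0xcb24c814d0014006001) (nat_lit 0))))))) (cl26)) (N (nat_lit 1428) (N (nat_lit 1403) (N (nat_lit 1400) (N (nat_lit 1395) (N (nat_lit 1394) (N (nat_lit 1392) (N (nat_lit 1391) (L (E (nat_lit 9) (nat_lit 0x7ae3cc1e28ef474a2bf8014006001) (nat_lit 0))) (L (E (nat_lit 32) (nat_lit 0x3d71e28f0077e3bd1dc8e9072c3901c10dc06d43611ae8d686b034616b8adc5622ac1520a782c215f0a1c4f427813b0014006001) (nat_lit 0)))) (N (nat_lit 1393) (L (E (nat_lit 38) (nat_lit 0xf5c78a3c01de8e9072c3901c10dc06d43611ae8d6068c2d71520a0c4f4272138899c4cc265131897047e23e8b4059c2c215f0a604f02761350014006001) (nat_lit 0))) (L (E (nat_lit 43) (nat_lit 0x1e00ef472c3821b80da86c235d1ab8d4468c3081460a1450227913489944c625c12d092447e211108083c4182030fe07e83e01ef0f3059c2b21520a6050827803e0014006001)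 (nat_lit 0))))) (L (E (nat_lit 7) (nat_lit 0x1460a0c4f226e8014006001) (nat_lit 0)))) (N (nat_lit 1397) (N (nat_lit 1396) (L (E (nat_lit 10) (nat_lit 0x5a02ce14c0a1850827a1350014006001) (nat_lit 0))) (L (E (nat_lit 17) (nat_lit 0x51828314089ea4f227113785dc2ce1520a6050c2841350014006001) (nat_lit 0)))) (N (nat_lit 1399) (N (nat_lit 1398) (L (E (nat_lit 45) (nat_lit 0x7803bd1cb0e086e036a1b08d746ae3511a30c2051828113c89a44ca26312e096849223f108884041e20c10187f03f41f00f787982ee1670ac85482981480a104f026a03e0014006001) (nat_lit 0))) (L (E (nat_lit 9) (nat_lit 0x430217103c8144061fa0014006001) (nat_lit 0)))) (L (E (nat_lit 8) (nat_lit 0x218103c8144061fa0014006001) (nat_lit 0)))))) (N (nat_lit 1401) (L (E (nat_lit 7) (nat_lit 0x103c8144061fa0014006001) (nat_lit 0))) (N (nat_lit 1402) (L (E (nat_lit 10) (nat_lit 0x5b82d115d0aa85242901450014006001) (nat_lit 0))) (L (E (nat_lit 11) (nat_lit 0x13d09c44dc265928881e40a1670014006001)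 (nat_lit 0)))))) (N (nat_lit 1417) (N (nat_lit 1405) (N (nat_lit 1404) (L (E (nat_lit 10) (nat_lit 0x9ec4f427913b89c44cc2510014006001) (nat_lit 0))) (L (E (nat_lit 9) (nat_lit 0x507272132c9704a223f0014006001) (nat_lit 0)))) (N (nat_lit 1408) (N (nat_lit 1407) (N (nat_lit 1406) (L (E (nat_lit 12) (nat_lit 0x27a13c89dc4e226d132c98c4b82510014006001) (nat_lit 0))) (L (E (nat_lit 16) (nat_lit 0x28513cc9c44cc25c12d094440f2030fd87c02aa14c0014006001) (nat_lit 0)))) (L (E (nat_lit 7) (nat_lit 0xb445402981458014006001) (nat_lit 0)))) (N (nat_lit 1412) (N (nat_lit 1409) (L (E (nat_lit 13) (nat_lit 0x51828313d89e84e42710aa85382981480014006001) (nat_lit 0))) (N (nat_lit 1411) (N (nat_lit 1410) (L (E (nat_lit 20) (nat_lit 0x3f41be0da86c634f1928c2c6082f7164097035a1ab0cf85ac2a113c0014006001) (nat_lit 0))) (L (E (nat_lit 41) (nat_lit 0x7e83c61df0ef476c3a51cd8df06de36c1b50d906c635a1a88d3c61630417b8b285902c015f897035a1ab0bb85bc2dc16b0b445642b014e0a6853027a13c0014006001)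 (nat_lit 0)))) (L (E (nat_lit 22) (nat_lit 0xe2451a28814189ec4f427113749964a222210c085c42c2078fd45ac2ce14c0014006001) (nat_lit 0))))) (N (nat_lit 1415) (N (nat_lit 1414) (N (nat_lit 1413) (L (E (nat_lit 16) (nat_lit 0x36c1ac8d3c4e5253128894042f21010587f03f61f00014006001) (nat_lit 0))) (L (E (nat_lit 24) (nat_lit 0x3891a78a3451028313d89e84e2265928894047e22210c085840f2050f185ac2ce14c0014006001) (nat_lit 0)))) (L (E (nat_lit 9) (nat_lit 0x2d11500a705302861420014006001) (nat_lit 0)))) (N (nat_lit 1416) (L (E (nat_lit 12) (nat_lit 0x27b139099c4bc25c11f84f827813b0014006001) (nat_lit 0))) (L (E (nat_lit 12) (nat_lit 0x27a13889964a2207902859c2981420014006001) (nat_lit 0)))))))) (N (nat_lit 1427) (N (nat_lit 1419) (N (nat_lit 1418) (L (E (nat_lit 5) (nat_lit 0x2e01680af8542001) (nat_lit 0))) (L (E (nat_lit 7) (nat_lit 0x10c480c3f51ed0014006001) (nat_lit 0)))) (N (nat_lit 1424) (N (nat_lit 1422) (N (nat_lit 1421) (N (nat_lit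 1420) (L (E (nat_lit 35) (nat_lit 0x1fa0f1878a3be1db0e946f836a1b18d3c5ee2dc1650b2058c2b1156097035a1ab0bb85c02dc1680af85742b21550a6051c27a13a0014006001) (nat_lit 0))) (L (E (nat_lit 31) (nat_lit 0x1df0e986f036c1ad0d3c5b82ca1630ac455822a911085c42c207902880c3d01e70f185c02de1680ae855427a13a0014006001) (nat_lit 0)))) (L (E (nat_lit 15) (nat_lit 0x14189e84e5265923c85840f2050b805a02ba14c0014006001) (nat_lit 0)))) (N (nat_lit 1423) (L (E (nat_lit 11) (nat_lit 0x1c78e1c6ec36c10bc84442020f0014006001) (nat_lit 0))) (L (E (nat_lit 26) (nat_lit 0xe3c70d36c1a38b605a622f10f48404061770ba85a42b21560aa054029c14d0a605242901330014006001) (nat_lit 0))))) (N (nat_lit 1426) (N (nat_lit 1425) (L (E (nat_lit 14) (nat_lit 0x9e84e5265928885840f2050b805a02ba14c0014006001) (nat_lit 0))) (L (E (nat_lit 11) (nat_lit 0x13d89e84f227213889bc4cc2510014006001) (nat_lit 0)))) (L (E (nat_lit 15) (nat_lit 0x1c489f04f627213749684442030fe07ea2d014c0014006001)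 (nat_lit 0)))))) (L (E (nat_lit 9) (nat_lit 0x4e427113789b84c825a128800a001) (nat_lit 0)))))) (cl27))
def cl29 : RA := N (nat_lit 1205) (N (nat_lit 1181) (L (E (nat_lit 3) (nat_lit 0x8ac00a001) (nat_lit 0))) (N (nat_lit 1194) (N (nat_lit 1189) (N (nat_lit 1184) (N (nat_lit 1183) (N (nat_lit 1182) (L (E (nat_lit 3) (nat_lit 0x1c5ce026b5) (nat_lit 0))) (L (E (nat_lit 3) (nat_lit 0x115c8163fd) (nat_lit 0)))) (L (E (nat_lit 3) (nat_lit 0x146c99e4c1) (nat_lit 0)))) (N (nat_lit 1186) (N (nat_lit 1185) (L (E (nat_lit 3) (nat_lit 0x16c4ad655f) (nat_lit 0))) (L (E (nat_lit 3) (nat_lit 0xb745ae2ad) (nat_lit 0)))) (N (nat_lit 1187) (L (E (nat_lit 3) (nat_lit 0x10f486a409) (nat_lit 0))) (N (nat_lit 1188) (L (E (nat_lit 3) (nat_lit 0x10848063df) (nat_lit 0))) (L (E (nat_lit 3) (nat_lit 0x1bc4da66b3) (nat_lit 0))))))) (N (nat_lit 1190) (L (E (nat_lit 3) (nat_lit 0x87c00a001) (nat_lit 0))) (N (nat_lit 1193) (N (nat_lit 1191)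 (L (E (nat_lit 3) (nat_lit 0xb2c57e279) (nat_lit 0))) (N (nat_lit 1192) (L (E (nat_lit 3) (nat_lit 0xb845ae291) (nat_lit 0))) (L (E (nat_lit 3) (nat_lit 0xe246fe341) (nat_lit 0))))) (L (E (nat_lit 3) (nat_lit 0x13fc9e64a3) (nat_lit 0)))))) (N (nat_lit 1204) (N (nat_lit 1201) (N (nat_lit 1198) (N (nat_lit 1196) (N (nat_lit 1195) (L (E (nat_lit 3) (nat_lit 0x1484a364cf) (nat_lit 0))) (L (E (nat_lit 3) (nat_lit 0xbb450a277) (nat_lit 0)))) (N (nat_lit 1197) (L (E (nat_lit 3) (nat_lit 0x132491a487) (nat_lit 0))) (L (E (nat_lit 3) (nat_lit 0x1494a064d3) (nat_lit 0))))) (N (nat_lit 1199) (L (E (nat_lit 3) (nat_lit 0x116c87a405) (nat_lit 0))) (N (nat_lit 1200) (L (E (nat_lit 3) (nat_lit 0xe346ee333) (nat_lit 0))) (L (E (nat_lit 3) (nat_lit 0x146c956493) (nat_lit 0)))))) (N (nat_lit 1203) (N (nat_lit 1202) (L (E (nat_lit 3) (nat_lit 0x143c9924a5) (nat_lit 0))) (L (E (nat_lit 3) (nat_lit 0x13d49ce473) (nat_lit 0)))) (L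 (E (nat_lit 3) (nat_lit 0x1bb4dbe67b) (nat_lit 0))))) (L (E (nat_lit 3) (nat_lit 0x8e446e20f) (nat_lit 0)))))) (N (nat_lit 1274) (N (nat_lit 1233) (N (nat_lit 1211) (N (nat_lit 1210) (N (nat_lit 1208) (N (nat_lit 1206) (L (E (nat_lit 3) (nat_lit 0x113488a40b) (nat_lit 0))) (N (nat_lit 1207) (L (E (nat_lit 3) (nat_lit 0x148c99e4b1) (nat_lit 0))) (L (E (nat_lit 3) (nat_lit 0x1c34d6e69b) (nat_lit 0))))) (N (nat_lit 1209) (L (E (nat_lit 3) (nat_lit 0x117c81e405) (nat_lit 0))) (L (E (nat_lit 3) (nat_lit 0x1c7cd9a6c3) (nat_lit 0))))) (L (E (nat_lit 3) (nat_lit 0x7e43ee003) (nat_lit 0)))) (N (nat_lit 1222) (N (nat_lit 1218) (N (nat_lit 1214) (N (nat_lit 1212) (L (E (nat_lit 3) (nat_lit 0x13dc942499) (nat_lit 0))) (N (nat_lit 1213) (L (E (nat_lit 3) (nat_lit 0x104480e3ad) (nat_lit 0))) (L (E (nat_lit 3) (nat_lit 0x10648223f1) (nat_lit 0))))) (N (nat_lit 1216) (N (nat_lit 1215) (L (E (nat_lit 3) (nat_lit 0x147496a4a5)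 (nat_lit 0))) (L (E (nat_lit 3) (nat_lit 0x1c84d826b3) (nat_lit 0)))) (N (nat_lit 1217) (L (E (nat_lit 3) (nat_lit 0x101c0be05d) (nat_lit 0))) (L (E (nat_lit 3) (nat_lit 0x11647f23df) (nat_lit 0)))))) (N (nat_lit 1220) (N (nat_lit 1219) (L (E (nat_lit 3) (nat_lit 0x14649724a1) (nat_lit 0))) (L (E (nat_lit 3) (nat_lit 0x148c9964b1) (nat_lit 0)))) (N (nat_lit 1221) (L (E (nat_lit 3) (nat_lit 0xb4c53a281) (nat_lit 0))) (L (E (nat_lit 3) (nat_lit 0x110480e3e5) (nat_lit 0)))))) (N (nat_lit 1229) (N (nat_lit 1226) (N (nat_lit 1225) (N (nat_lit 1224) (N (nat_lit 1223) (L (E (nat_lit 3) (nat_lit 0x13cc96a497) (nat_lit 0))) (L (E (nat_lit 3) (nat_lit 0x14549ba4bb) (nat_lit 0)))) (L (E (nat_lit 3) (nat_lit 0x1bb4d66695) (nat_lit 0)))) (L (E (nat_lit 3) (nat_lit 0x1bf4d826a5) (nat_lit 0)))) (N (nat_lit 1228) (N (nat_lit 1227) (L (E (nat_lit 3) (nat_lit 0x101c7b23cf) (nat_lit 0))) (L (E (nat_lit 3) (nat_lit 0x10c480e3fd)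 (nat_lit 0)))) (L (E (nat_lit 3) (nat_lit 0x132c93e497) (nat_lit 0))))) (N (nat_lit 1231) (N (nat_lit 1230) (L (E (nat_lit 3) (nat_lit 0x1c7cdfa6f5) (nat_lit 0))) (L (E (nat_lit 3) (nat_lit 0x14649c64b1) (nat_lit 0)))) (N (nat_lit 1232) (L (E (nat_lit 3) (nat_lit 0x1c04d8e69b) (nat_lit 0))) (L (E (nat_lit 3) (nat_lit 0x1c34db26ab) (nat_lit 0)))))))) (cl24)) (cl28))
def cl30 : RA := N (nat_lit 1514) (N (nat_lit 1500) (N (nat_lit 1489) (N (nat_lit 1485) (N (nat_lit 1481) (N (nat_lit 1479) (N (nat_lit 1478) (L (E (nat_lit 15) (nat_lit 0x1b18a4450726592e08a840f20510207ec3e01700014006001) (nat_lit 0))) (L (E (nat_lit 14) (nat_lit 0xdd26d827213789904b825a12888403f61f00014006001) (nat_lit 0)))) (N (nat_lit 1480) (L (E (nat_lit 9) (nat_lit 0x522283138c9964b82520014006001) (nat_lit 0))) (L (E (nat_lit 13) (nat_lit 0x6e929114189e84e4265907081e40a1700014006001) (nat_lit 0))))) (N (nat_lit 1483) (N (nat_lit 1482) (L (E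 (nat_lit 7) (nat_lit 0x1488a0c4f42728014006001) (nat_lit 0))) (L (E (nat_lit 11) (nat_lit 0x1ac8a444f4265915081e40a1700014006001) (nat_lit 0)))) (N (nat_lit 1484) (L (E (nat_lit 9) (nat_lit 0x43020e103c80c3f51ee0014006001) (nat_lit 0))) (L (E (nat_lit 7) (nat_lit 0x13d099640f2050014006001) (nat_lit 0)))))) (N (nat_lit 1486) (L (E (nat_lit 6) (nat_lit 0x99640f2050014006001) (nat_lit 0))) (N (nat_lit 1487) (L (E (nat_lit 8) (nat_lit 0x27393789944b82518014006001) (nat_lit 0))) (N (nat_lit 1488) (L (E (nat_lit 14) (nat_lit 0xf1070036d9ac0cb85f627b13889443881ad0014006001) (nat_lit 0))) (L (E (nat_lit 11) (nat_lit 0x1c38e006da36a13c89bc4cf2650014006001) (nat_lit 0))))))) (N (nat_lit 1494) (N (nat_lit 1491) (N (nat_lit 1490) (L (E (nat_lit 16) (nat_lit 0x2cc1598a0c50428113c89704a61540a705342861330014006001) (nat_lit 0))) (L (E (nat_lit 11) (nat_lit 0x1c08de06e936d1b60da86ca3598014006001) (nat_lit 0)))) (N (nat_lit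 1493) (N (nat_lit 1492) (L (E (nat_lit 23) (nat_lit 0x1c38e046e93651b18d6065c2fb13909c44de25c12d09444a01ad0aa05382861330014006001) (nat_lit 0))) (L (E (nat_lit 7) (nat_lit 0x13d49bc4db25a8014006001) (nat_lit 0)))) (L (E (nat_lit 11) (nat_lit 0x1f58cb842e1590a7c51428613d0014006001) (nat_lit 0))))) (N (nat_lit 1495) (L (E (nat_lit 6) (nat_lit 0x53628613d0014006001) (nat_lit 0))) (N (nat_lit 1498) (N (nat_lit 1497) (N (nat_lit 1496) (L (E (nat_lit 31) (nat_lit 0x1c48e1c6dc36a1b18d665982a10e2c6ec2de1590a9854029c1450a184f41be0db063831016005e02c81580800380014006001) (nat_lit 0))) (L (E (nat_lit 22) (nat_lit 0x71837c1b60b7854c28e1450a1837c1b60cf063831016005e02c81580800380014006001) (nat_lit 0)))) (L (E (nat_lit 16) (nat_lit 0x15d0ac853c29c14d0a5052428a0df067817407e03a0014006001) (nat_lit 0)))) (N (nat_lit 1499) (L (E (nat_lit 40) (nat_lit 0x3871c08dd26ca3631ac0a344f627213889bc4ca25c128074c3901c60dd86dc35a15d0ac854c29c1490a184cc1be0c706201780ba05902b01000740380014006001)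 (nat_lit 0))) (L (E (nat_lit 12) (nat_lit 0x3751ba0da86ca3631b08d806b034f0014006001) (nat_lit 0)))))))) (N (nat_lit 1502) (N (nat_lit 1501) (L (E (nat_lit 9) (nat_lit 0x7263891c38e186e836a0014006001) (nat_lit 0))) (L (E (nat_lit 5) (nat_lit 0x70d3751b60d68001) (nat_lit 0)))) (N (nat_lit 1513) (N (nat_lit 1508) (N (nat_lit 1505) (N (nat_lit 1504) (N (nat_lit 1503) (L (E (nat_lit 9) (nat_lit 0x7123871c30dd06d435f0014006001) (nat_lit 0))) (L (E (nat_lit 26) (nat_lit 0xe2470e3811be8dd46e836a1b28d8c6c235a1ac0ad056627b133c9442ba1590a7051428613d0014006001) (nat_lit 0)))) (L (E (nat_lit 28) (nat_lit 0x3871c08df46ea3741b50d946c63611ac0ad05662831410a044f427113789944c815d0ac853828a1430014006001) (nat_lit 0)))) (N (nat_lit 1507) (N (nat_lit 1506) (L (E (nat_lit 28) (nat_lit 0x3871c08df46ea3741b50d8c6a63421910c4851c28d13cc9c84e226312d474c36e15d0ac85382921430014006001) (nat_lit 0))) (L (E (nat_lit 30) (nat_lit 0xe1c70237d1ba8dd06d43631a98d086443121468a0c4f627a13909c44de26312d474c36e15d0ac85382921430014006001)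 (nat_lit 0)))) (L (E (nat_lit 30) (nat_lit 0xe1c70237d1ba8dd06d43631a98d346843221890a3450627b13909c44de26312d474c36e15d0ac85382921430014006001) (nat_lit 0))))) (N (nat_lit 1510) (N (nat_lit 1509) (L (E (nat_lit 13) (nat_lit 0x70e3811c00d9450627913789904b825a0014006001) (nat_lit 0))) (L (E (nat_lit 9) (nat_lit 0x6ed36a1b28d666a63450014006001) (nat_lit 0)))) (N (nat_lit 1512) (N (nat_lit 1511) (L (E (nat_lit 13) (nat_lit 0x70037d1ba8dd06d43611ac0d4c68a3420014006001) (nat_lit 0))) (L (E (nat_lit 51) (nat_lit 0x1c38e046fa3751b50d8c6b03531a68d1c68a3421910c4851a28313d89c84e226f132898c4b8250125874c3901c60dd86dc35a15d0ac854c29c1490a184cc1be0c706201780ba05902b01000740380014006001) (nat_lit 0)))) (L (E (nat_lit 12) (nat_lit 0x3891c08de06ea3741b50d946a63450014006001) (nat_lit 0)))))) (L (E (nat_lit 7) (nat_lit 0x142ca064dc2630014006001) (nat_lit 0)))))) (N (nat_lit 1532) (N (nat_lit 1526) (N (nat_lit 1525) (N (nat_lit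 1518) (N (nat_lit 1515) (L (E (nat_lit 8) (nat_lit 0x27110c481e40a2030014006001) (nat_lit 0))) (N (nat_lit 1517) (N (nat_lit 1516) (L (E (nat_lit 11) (nat_lit 0x1460a0c50527b13d09c44a22470014006001) (nat_lit 0))) (L (E (nat_lit 28) (nat_lit 0x3f41b18cd865232218b8c505ee28313d09c44df25a128886042e1cf0d685dc2c21590a705342981430014006001) (nat_lit 0)))) (L (E (nat_lit 35) (nat_lit 0x1fa0d946c636119b0ca464431718a0bdc50627a13909c44ca25a128892443021710a073c36e1ad0bb85a02c215f0ac85382981430014006001) (nat_lit 0))))) (N (nat_lit 1522) (N (nat_lit 1521) (N (nat_lit 1520) (N (nat_lit 1519) (L (E (nat_lit 23) (nat_lit 0x1d20e1c6fc37d1ba8d9450a28313889b84a224712308ac42e207902880c3da13b0014006001) (nat_lit 0))) (L (E (nat_lit 17) (nat_lit 0x70e3801b28d8c6c228c14189e84e226e12ec9684a22470014006001) (nat_lit 0)))) (L (E (nat_lit 19) (nat_lit 0x1c38df86fa3751b50d946c636114189e84e226e12d081e40a2030014006001) (nat_lit 0)))) (L (E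 (nat_lit 11) (nat_lit 0x1c58e1c7003749b18d826b43510014006001) (nat_lit 0)))) (N (nat_lit 1524) (N (nat_lit 1523) (L (E (nat_lit 10) (nat_lit 0x9ea4dc26412888aa40f2030014006001) (nat_lit 0))) (L (E (nat_lit 13) (nat_lit 0x70e3749b28d8450627112d081e40a2030014006001) (nat_lit 0)))) (L (E (nat_lit 10) (nat_lit 0xa0c4f427113709a44ce25a8014006001) (nat_lit 0)))))) (L (E (nat_lit 7) (nat_lit 0x1c0cdb86c635a0014006001) (nat_lit 0)))) (N (nat_lit 1529) (N (nat_lit 1528) (N (nat_lit 1527) (L (E (nat_lit 20) (nat_lit 0x3911c00df86fa36f1b70d8c6c227b13d09c84e226f13709984ca2510014006001) (nat_lit 0))) (L (E (nat_lit 23) (nat_lit 0x1c88e006fc37d1b78db86c627b13d09c84e226e13309704b522010b082c4061ef0014006001) (nat_lit 0)))) (L (E (nat_lit 13) (nat_lit 0x70e3749b28d84506271103c8144082030014006001) (nat_lit 0)))) (N (nat_lit 1530) (L (E (nat_lit 12) (nat_lit 0x28c14189ec4f427113709684a22470014006001) (nat_lit 0))) (N (nat_lit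 1531) (L (E (nat_lit 20) (nat_lit 0x3b91d20e186da3631b04d685c42dd16b8b2256e2b11568ab054829e0014006001) (nat_lit 0))) (L (E (nat_lit 12) (nat_lit 0x3801b18d845ba28313dc9b84cd25a0014006001) (nat_lit 0))))))) (N (nat_lit 1533) (L (E (nat_lit 5) (nat_lit 0x6d53641b18d84001) (nat_lit 0))) (N (nat_lit 1545) (N (nat_lit 1540) (N (nat_lit 1537) (N (nat_lit 1535) (N (nat_lit 1534) (L (E (nat_lit 26) (nat_lit 0xee474837d9b70da86cb3631b08d606a434c1848c1c5c42ad156087c42f2100fd87b42fa0620014006001) (nat_lit 0))) (L (E (nat_lit 11) (nat_lit 0x1c14e046ec3751b6885e3f81e60014006001) (nat_lit 0)))) (N (nat_lit 1536) (L (E (nat_lit 30) (nat_lit 0xee47483879c08db86da36a1b2cd8c6c235a1ac0d486983091838b8855a2ac10f885e4201fb0f687982fa0620014006001) (nat_lit 0))) (L (E (nat_lit 23) (nat_lit 0x1dc8e9070c37d1bb0dd46e836d1b50d8c6c22e216e8b5c56e2b11568ab054829e0014006001) (nat_lit 0))))) (N (nat_lit 1539) (N (nat_lit 1538) (L (E (nat_lit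 31) (nat_lit 0x1dc8e9070f3811be8dd86da36a1b18d605c42d715b8ad45622ad1560a9053c21a10c085c3f81f88f305a027a13b0014006001) (nat_lit 0))) (L (E (nat_lit 42) (nat_lit 0xf1477e3b91d70e987483879c08db86d43659b18d846b03539a60c2460e2e216b8adc5622ac1520a7845a22b10f88604201fb0f687982fa1680b084f42760620014006001) (nat_lit 0)))) (L (E (nat_lit 41) (nat_lit 0x78a3bf1dc8eb874c3a41c3ce046dc3641b18d846b43581a60c2460e2e216b8adc5622ac1520a7845a22b10f88604201fb0f687982fa1680b084f42760620014006001) (nat_lit 0))))) (N (nat_lit 1541) (L (E (nat_lit 5) (nat_lit 0x8603769640614132) (nat_lit 0))) (N (nat_lit 1543) (N (nat_lit 1542) (L (E (nat_lit 21) (nat_lit 0x7483879b18d846b030713dc9b84ce266132896848e24611f48ac3da13b0014006001) (nat_lit 0))) (L (E (nat_lit 16) (nat_lit 0x32c1928c7844021710608123e51c40d786b43561a30014006001) (nat_lit 0)))) (N (nat_lit 1544) (L (E (nat_lit 24) (nat_lit 0x3879bb0db86ca3631b08d606a43471a28cb064a21810608144041fc0d5854029a14c0014006001)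 (nat_lit 0))) (L (E (nat_lit 16) (nat_lit 0x2ce166881e40a2030f707b42ee1610a805342981490014006001) (nat_lit 0))))))) (N (nat_lit 1546) (L (E (nat_lit 31) (nat_lit 0x1c3cdb86ca3631ac0d4868e3451928b5c59a2b213208ac43021710608144061fc0f687983bc1610a805242861320014006001) (nat_lit 0))) (L (E (nat_lit 8) (nat_lit 0x3d71e90b745ae2c80014006001) (nat_lit 0)))))))
def cl31 : RA := N (nat_lit 1580) (N (nat_lit 1570) (N (nat_lit 1567) (N (nat_lit 1566) (L (E (nat_lit 17) (nat_lit 0x6ed3651b18d844f427113709944b4251123885c4061ed0014006001) (nat_lit 0))) (L (E (nat_lit 9) (nat_lit 0x70e3761ba8dba6ca3610014006001) (nat_lit 0)))) (N (nat_lit 1569) (N (nat_lit 1568) (L (E (nat_lit 16) (nat_lit 0x36f1b20d4469e28d93d89e84e427113709684a22470014006001) (nat_lit 0))) (L (E (nat_lit 18) (nat_lit 0xdd86de36d1b20d8c6b6351146c9ee4f427213889b84b42510014006001) (nat_lit 0)))) (L (E (nat_lit 7) (nat_lit 0xe9071837f1af0014006001) (nat_lit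 0))))) (N (nat_lit 1572) (N (nat_lit 1571) (L (E (nat_lit 6) (nat_lit 0x71636f1ad0014006001) (nat_lit 0))) (L (E (nat_lit 22) (nat_lit 0xe1c6f136c9b20d8c6c134f146c9e84e226e12d094448e1ee0f6873c35a1ab0014006001) (nat_lit 0)))) (N (nat_lit 1576) (N (nat_lit 1574) (N (nat_lit 1573) (L (E (nat_lit 17) (nat_lit 0x6483151868c1c4f827213889b84bb21910c085c4061e50014006001) (nat_lit 0))) (L (E (nat_lit 22) (nat_lit 0xea874a3871c30da86be30d1838b485a02b313dc9944a221710207f23f11e50014006001) (nat_lit 0)))) (N (nat_lit 1575) (L (E (nat_lit 16) (nat_lit 0x3861638acc51428393dc9984ca22f10d085c4081f88014006001) (nat_lit 0))) (L (E (nat_lit 17) (nat_lit 0x6f13751b80d946c83631acc9e84e226e13289684632030014006001) (nat_lit 0))))) (N (nat_lit 1578) (N (nat_lit 1577) (L (E (nat_lit 16) (nat_lit 0x3871bf0dd46ca28313d0968444218102080c4041ee0014006001) (nat_lit 0))) (L (E (nat_lit 15) (nat_lit 0x1c38df86ea36514189e844421810b88443f11f00014006001)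 (nat_lit 0)))) (N (nat_lit 1579) (L (E (nat_lit 8) (nat_lit 0x22010b88444091f88014006001) (nat_lit 0))) (L (E (nat_lit 19) (nat_lit 0x1bf0dd46ca3631950ca05be2c113dc9b84ca22210b88443f11f00014006001) (nat_lit 0)))))))) (N (nat_lit 1596) (N (nat_lit 1588) (N (nat_lit 1584) (N (nat_lit 1582) (N (nat_lit 1581) (L (E (nat_lit 18) (nat_lit 0xdd46de36e1b28d906c636113d09c44dc26512d08c642e2030014006001) (nat_lit 0))) (L (E (nat_lit 15) (nat_lit 0x1ad8d5c50727313909c44dc26712e09684a215f0014006001) (nat_lit 0)))) (N (nat_lit 1583) (L (E (nat_lit 27) (nat_lit 0x1e88e8c6dc36c9ad8c5450727313889b84ce25a12888c6430217103c8144041ed0d586102920b70014006001) (nat_lit 0))) (L (E (nat_lit 28) (nat_lit 0x3d11d18dbc6dc36d1ad8c5450727313889b84ce25a12888c6430217103c80c4041ed0d586102920b70014006001) (nat_lit 0))))) (N (nat_lit 1586) (N (nat_lit 1585) (L (E (nat_lit 21) (nat_lit 0x6ec3751b78db86c635b141c9ec4e627113709944ba25a118c86042e2030014006001)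 (nat_lit 0))) (L (E (nat_lit 23) (nat_lit 0x1c48e1c70237d1ba8dbc6ca218106081c40b2030fe07982d21670b085740940430014006001) (nat_lit 0)))) (N (nat_lit 1587) (L (E (nat_lit 23) (nat_lit 0x1d68eb07543a71d28e8c6fa3789b64d925bf2cd15e0acc5641690b3855827613a0014006001) (nat_lit 0))) (L (E (nat_lit 23) (nat_lit 0x1d68e1c6fa3789b24d826b32df9668af056427b93708103f91f88b4859c27613a0014006001) (nat_lit 0)))))) (N (nat_lit 1592) (N (nat_lit 1590) (N (nat_lit 1589) (L (E (nat_lit 33) (nat_lit 0x75a3901c48df46f13761ba8dc06d43649b08d686b02d81668b1c57827b93d09c44dc26512d08103f91f88b4859c2ac13b0014006001) (nat_lit 0))) (L (E (nat_lit 27) (nat_lit 0x1eb8e406ec3749b60d846b433518f0c545b02b7137c9684a21a80d285a42ce13c09d84e811c08c0014006001) (nat_lit 0)))) (N (nat_lit 1591) (L (E (nat_lit 29) (nat_lit 0x7ae3c51d60e407123811bb0dd26c235a19a8c7862a2bc15b8a1450426f92d09443501a50b384e811801e8014006001) (nat_lit 0))) (L (E (nat_lit 32) (nat_lit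 0x3901be8dd86ca3649ac0cbc64a30d1838b6059a28213dc9d04df251124886842e20710207e22d215d09d82300e80430014006001) (nat_lit 0))))) (N (nat_lit 1594) (N (nat_lit 1593) (L (E (nat_lit 10) (nat_lit 0x8a843021110187f03dc1e60014006001) (nat_lit 0))) (L (E (nat_lit 18) (nat_lit 0xdd46de3651b18d8450727313889b84ca25a118c8604082030014006001) (nat_lit 0)))) (N (nat_lit 1595) (L (E (nat_lit 18) (nat_lit 0xdd46de3651b18d8450727113709944b423190c085c4061fb0014006001) (nat_lit 0))) (L (E (nat_lit 17) (nat_lit 0x70e3761b18d846b628d94189e84e226e12e89424062020014006001) (nat_lit 0))))))) (N (nat_lit 1603) (N (nat_lit 1601) (N (nat_lit 1599) (N (nat_lit 1598) (N (nat_lit 1597) (L (E (nat_lit 18) (nat_lit 0xdd86ea36f1b28d8c6c227a13889b84ca25a118c85c4062020014006001) (nat_lit 0))) (L (E (nat_lit 19) (nat_lit 0x1c88de06ec36e1b18a3050a27a13889b84b425112388624061ed0014006001) (nat_lit 0)))) (L (E (nat_lit 19) (nat_lit 0x1c88e046f036e1b18a304f627a13889b84ca251123886042e1f88014006001)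 (nat_lit 0)))) (N (nat_lit 1600) (L (E (nat_lit 18) (nat_lit 0xe447023781b70d8c50a28213e09e44e4265132098c4b42510014006001) (nat_lit 0))) (L (E (nat_lit 17) (nat_lit 0x7223851bc0db86c628d941c9ee4dc25090b88444081f88014006001) (nat_lit 0))))) (N (nat_lit 1602) (L (E (nat_lit 22) (nat_lit 0xe4470a3811bf0de06ec3751b28d8c6c227a13889b84ca25a10b88444082030014006001) (nat_lit 0))) (L (E (nat_lit 15) (nat_lit 0x1ba8d946c636113d09c44dc26512d08c642e2030014006001) (nat_lit 0))))) (N (nat_lit 1604) (L (E (nat_lit 12) (nat_lit 0x28514109c44de26e13309684a22470014006001) (nat_lit 0))) (L (E (nat_lit 8) (nat_lit 0x27b93789b84cd250925000a001) (nat_lit 0))))))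
def cl32 : RA := N (nat_lit 1626) (N (nat_lit 1620) (N (nat_lit 1610) (N (nat_lit 1607) (N (nat_lit 1606) (L (E (nat_lit 12) (nat_lit 0x3651b18d844f427113709944b42030014006001) (nat_lit 0))) (L (E (nat_lit 13) (nat_lit 0x51828513d89e84e226e12f09684a22470014006001) (nat_lit 0)))) (N (nat_lit 1609) (N (nat_lit 1608) (L (E (nat_lit 21) (nat_lit 0x70e3861b78db86da36a1b18d4863231818b0c5443020410107bc3dc1ed0014006001) (nat_lit 0))) (L (E (nat_lit 24) (nat_lit 0x3871c30dbc6da36a1b18d4863231818b0b5c57e21810b88104061fc0f785a029e14d0014006001) (nat_lit 0)))) (L (E (nat_lit 12) (nat_lit 0x3871b2cd8c6c227b937099a4a12030014006001) (nat_lit 0))))) (N (nat_lit 1611) (L (E (nat_lit 9) (nat_lit 0x7043811c00de06ec3750014006001) (nat_lit 0))) (N (nat_lit 1616) (N (nat_lit 1614) (N (nat_lit 1613) (N (nat_lit 1612) (L (E (nat_lit 13) (nat_lit 0x6cb27a13889b84ce26613289744b42410014006001) (nat_lit 0))) (L (E (nat_lit 19) (nat_lit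 0x1c38e046ed3751b74d964f827213889b84bb25a12888604082030014006001) (nat_lit 0)))) (L (E (nat_lit 21) (nat_lit 0x70e3861c08dd46dd36593e09c84e226e12ec9684a221810888104061e60014006001) (nat_lit 0)))) (N (nat_lit 1615) (L (E (nat_lit 17) (nat_lit 0x6dd3611ac09ee4dc26613289684a224712088104061ed0014006001) (nat_lit 0))) (L (E (nat_lit 14) (nat_lit 0xe1c6f03761ba8db86d83659b188604061f88014006001) (nat_lit 0))))) (N (nat_lit 1617) (L (E (nat_lit 12) (nat_lit 0x36593d09c44dc26613289744b42410014006001) (nat_lit 0))) (N (nat_lit 1619) (N (nat_lit 1618) (L (E (nat_lit 25) (nat_lit 0x7223901c78e1c7013751b78db66c235a1ac0a144f827213889b84ca25d92d094448e2200014006001) (nat_lit 0))) (L (E (nat_lit 30) (nat_lit 0xe3070c3789ba8d8c6c235a18b0c544f827a13889b84ca25d92d094448e218102080c4041ee0f686ac1740b70014006001) (nat_lit 0)))) (L (E (nat_lit 15) (nat_lit 0x1c38de06ec3751b70d966c635a10c080c3f11e60014006001) (nat_lit 0)))))))) (N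 (nat_lit 1625) (N (nat_lit 1623) (N (nat_lit 1622) (N (nat_lit 1621) (L (E (nat_lit 25) (nat_lit 0x7183861ba8db86c63611ad0c584f827a13889b84ca25d92d094448e21810187b43cc0ba0014006001) (nat_lit 0))) (L (E (nat_lit 24) (nat_lit 0x38c1c30dd46c63611ad0d6062c27b93709984ca25a128891c4822030f787b43cc0ba0014006001) (nat_lit 0)))) (L (E (nat_lit 11) (nat_lit 0x1b18d844f427113709944b42030014006001) (nat_lit 0)))) (N (nat_lit 1624) (L (E (nat_lit 14) (nat_lit 0xdd66c235b9ac0864430210102880e3f61f00014006001) (nat_lit 0))) (L (E (nat_lit 22) (nat_lit 0xeb07563a71d30e9042e21110808384071fa8b985bc2d01610ad056427a13b0014006001) (nat_lit 0))))) (L (E (nat_lit 8) (nat_lit 0x22210f883a4071fc0014006001) (nat_lit 0))))) (N (nat_lit 1631) (N (nat_lit 1628) (N (nat_lit 1627) (L (E (nat_lit 17) (nat_lit 0x6eb36d1900b204e4271137099c4cc25e12ec9684071fa8014006001) (nat_lit 0))) (L (E (nat_lit 11) (nat_lit 0x13889bc4dc26613289684a42510014006001)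 (nat_lit 0)))) (N (nat_lit 1630) (N (nat_lit 1629) (L (E (nat_lit 19) (nat_lit 0x1c38de06eb36f1b68d8c6402c814289c44dc26713309684a52038014006001) (nat_lit 0))) (L (E (nat_lit 18) (nat_lit 0xe1c6f03759b78db46c632016409c44dc26713309684a22038014006001) (nat_lit 0)))) (L (E (nat_lit 11) (nat_lit 0x1bacdbc6c835b1ad0d646b03510014006001) (nat_lit 0))))) (N (nat_lit 1635) (N (nat_lit 1632) (L (E (nat_lit 13) (nat_lit 0x70e3801bacdbc6da3641b18d7c6b03510014006001) (nat_lit 0))) (N (nat_lit 1633) (L (E (nat_lit 9) (nat_lit 0x70e3759b749744b825a0014006001) (nat_lit 0))) (N (nat_lit 1634) (L (E (nat_lit 15) (nat_lit 0x1bacd6e59027a137099a4c925d92d08884071fa8014006001) (nat_lit 0))) (L (E (nat_lit 16) (nat_lit 0x3871bacdbc6da3641b18d606a227a93709944c625d8014006001) (nat_lit 0)))))) (N (nat_lit 1643) (N (nat_lit 1639) (N (nat_lit 1637) (N (nat_lit 1636) (L (E (nat_lit 14) (nat_lit 0xe1c6eb36f1b18d606a22c813349924bb2038014006001)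 (nat_lit 0))) (L (E (nat_lit 11) (nat_lit 0x1c38dd66dd27113709684a22038014006001) (nat_lit 0)))) (N (nat_lit 1638) (L (E (nat_lit 11) (nat_lit 0x1c00dd86da36c1b20d8c6b73588014006001) (nat_lit 0))) (L (E (nat_lit 22) (nat_lit 0xf287763b61d58ea870c37e1ba0b74590283137099a4bb25a128888040a1550014006001) (nat_lit 0))))) (N (nat_lit 1641) (N (nat_lit 1640) (L (E (nat_lit 30) (nat_lit 0xf287763b61d58e3c70c37e1bc0dd06de36d1ac8b7459028313889bc4dc25d92d0944440205101c74c37e1ab8014006001) (nat_lit 0))) (L (E (nat_lit 17) (nat_lit 0x6fc3741b68d646a227a93789b84cc25d12d09444071f00014006001) (nat_lit 0)))) (N (nat_lit 1642) (L (E (nat_lit 15) (nat_lit 0x20c0ec86de2929318888440218108083840e2038014006001) (nat_lit 0))) (L (E (nat_lit 18) (nat_lit 0x106076436f1494a164f527113789b84c622010c081c4071fc0014006001) (nat_lit 0)))))) (N (nat_lit 1645) (N (nat_lit 1644) (L (E (nat_lit 9) (nat_lit 0x79c3c41e1ced876a3b41d98ec8756) (nat_lit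 0))) (L (E (nat_lit 15) (nat_lit 0x20c0ec86de292931888043021710b08504182020014006001) (nat_lit 0)))) (L (E (nat_lit 10) (nat_lit 0xdd66dd27113709684a22038014006001) (nat_lit 0)))))))
def cl33 : RA := N (nat_lit 1683) (N (nat_lit 1676) (N (nat_lit 1674) (N (nat_lit 1671) (N (nat_lit 1669) (N (nat_lit 1668) (L (E (nat_lit 11) (nat_lit 0x1b0cd5c6a434f0e786cc3641b10014006001) (nat_lit 0))) (L (E (nat_lit 7) (nat_lit 0x6f83601950c40014006001) (nat_lit 0)))) (N (nat_lit 1670) (L (E (nat_lit 27) (nat_lit 0x1c30df86e835219b8ccc63e31d18b09ee4dc25a10f884041e2038fe07ec3da1e60a684f427603f0014006001) (nat_lit 0))) (L (E (nat_lit 10) (nat_lit 0xdd66c23581a388383f51ed0014006001) (nat_lit 0))))) (N (nat_lit 1673) (N (nat_lit 1672) (L (E (nat_lit 31) (nat_lit 0x1c30de06eb36f1ad0d606a43371998c7462c27b93889b84b425110f88404071fc0fd47b43cc1810a684f42760710014006001) (nat_lit 0))) (L (E (nat_lit 10) (nat_lit 0xdd66cb27113709684a22038014006001)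 (nat_lit 0)))) (L (E (nat_lit 10) (nat_lit 0xdd66de27113709684a22038014006001) (nat_lit 0))))) (N (nat_lit 1675) (L (E (nat_lit 17) (nat_lit 0x6eb36e1b20a364f627a13889b84b425112388083f51f80014006001) (nat_lit 0))) (L (E (nat_lit 9) (nat_lit 0x4322100fe47cc3e01ef0014006001) (nat_lit 0))))) (N (nat_lit 1681) (N (nat_lit 1680) (N (nat_lit 1678) (N (nat_lit 1677) (L (E (nat_lit 16) (nat_lit 0x3861bf0dd06ca3641b18d4869e21f107480e3f81fa8014006001) (nat_lit 0))) (L (E (nat_lit 11) (nat_lit 0x1bac9e84e226e12d09444071fa8014006001) (nat_lit 0)))) (N (nat_lit 1679) (L (E (nat_lit 18) (nat_lit 0xdf86f03761ba0db86c628d93dc9bc4dc25a12889423f41f80014006001) (nat_lit 0))) (L (E (nat_lit 11) (nat_lit 0x1bacd8c4f427113709684a22038014006001) (nat_lit 0))))) (L (E (nat_lit 10) (nat_lit 0xdd86df36e1b68d8c6b23520014006001) (nat_lit 0)))) (N (nat_lit 1682) (L (E (nat_lit 10) (nat_lit 0xdd66c627113709684a22038014006001) (nat_lit 0)))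 (L (E (nat_lit 8) (nat_lit 0x3801bacdbe6b635a0014006001) (nat_lit 0)))))) (N (nat_lit 1695) (N (nat_lit 1690) (N (nat_lit 1686) (N (nat_lit 1684) (L (E (nat_lit 10) (nat_lit 0xe046eb36d1ad8d686b23580014006001) (nat_lit 0))) (N (nat_lit 1685) (L (E (nat_lit 9) (nat_lit 0x6eb27113709684a22038014006001) (nat_lit 0))) (L (E (nat_lit 20) (nat_lit 0x42f2080fac77632e16b89ec4f427113709684a224710b88304061fa0014006001) (nat_lit 0))))) (N (nat_lit 1688) (N (nat_lit 1687) (L (E (nat_lit 21) (nat_lit 0x85e4101f58eec65c2d713d09c44de26e12d094449424710b88304061fa0014006001) (nat_lit 0))) (L (E (nat_lit 11) (nat_lit 0x1b7cda86b322490787ee3cc1e30014006001) (nat_lit 0)))) (N (nat_lit 1689) (L (E (nat_lit 10) (nat_lit 0x996440217102880c4041fb0014006001) (nat_lit 0))) (L (E (nat_lit 11) (nat_lit 0x1bacdbe6c735813889b84b42510014006001) (nat_lit 0)))))) (N (nat_lit 1694) (N (nat_lit 1692) (N (nat_lit 1691) (L (E (nat_lit 11) (nat_lit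 0x1bacdbc6d53639acc9c44dc25a0014006001) (nat_lit 0))) (L (E (nat_lit 10) (nat_lit 0xdd66c735813889b84b42510014006001) (nat_lit 0)))) (N (nat_lit 1693) (L (E (nat_lit 17) (nat_lit 0x8303b21b78a164fa27a93248b045620c103880c3dc1ed0014006001) (nat_lit 0))) (L (E (nat_lit 18) (nat_lit 0xa1450627a93909bc4dc26692d083040b2030f707b42ce14c0014006001) (nat_lit 0))))) (L (E (nat_lit 9) (nat_lit 0x6eb36393889b84b42510014006001) (nat_lit 0))))) (N (nat_lit 1702) (N (nat_lit 1699) (N (nat_lit 1697) (N (nat_lit 1696) (L (E (nat_lit 10) (nat_lit 0xdd66c635893d49b84b42510014006001) (nat_lit 0))) (L (E (nat_lit 10) (nat_lit 0xdd66c628513d49924a52030014006001) (nat_lit 0)))) (N (nat_lit 1698) (L (E (nat_lit 11) (nat_lit 0x1baca144f526e13289684a22500014006001) (nat_lit 0))) (L (E (nat_lit 12) (nat_lit 0x3759b78d8650b27a93709704a21ec0014006001) (nat_lit 0))))) (N (nat_lit 1700) (L (E (nat_lit 10) (nat_lit 0x9c44de26e13289724b42510014006001)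 (nat_lit 0))) (N (nat_lit 1701) (L (E (nat_lit 14) (nat_lit 0xdd66de36193d49b84ca25c12d09444a01ec0014006001) (nat_lit 0))) (L (E (nat_lit 11) (nat_lit 0x1bacd864f526e13289444a01ec0014006001) (nat_lit 0)))))) (N (nat_lit 1705) (N (nat_lit 1703) (L (E (nat_lit 8) (nat_lit 0x37593d49b84b42510014006001) (nat_lit 0))) (N (nat_lit 1704) (L (E (nat_lit 10) (nat_lit 0xdf46eb36e1af8d646a634f0014006001) (nat_lit 0))) (L (E (nat_lit 8) (nat_lit 0x37593889b84cb2510014006001) (nat_lit 0))))) (N (nat_lit 1707) (N (nat_lit 1706) (L (E (nat_lit 21) (nat_lit 0x85a4051f30eac6ec3741b7cd8c6b227a13889bc4dc26512d08304061f80014006001) (nat_lit 0))) (L (E (nat_lit 15) (nat_lit 0x1bf0d8651b27113789b84cc251123885e4182030014006001) (nat_lit 0)))) (N (nat_lit 1708) (L (E (nat_lit 10) (nat_lit 0x9b84cd25c12d094443e2028014006001) (nat_lit 0))) (L (E (nat_lit 13) (nat_lit 0x6eb36f1b0ca364e226e129491c42f1ed0014006001) (nat_lit 0))))))))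
def cl34 : RA := N (nat_lit 1737) (N (nat_lit 1718) (N (nat_lit 1710) (L (E (nat_lit 8) (nat_lit 0x37593889b84b42510014006001) (nat_lit 0))) (N (nat_lit 1717) (N (nat_lit 1714) (N (nat_lit 1712) (N (nat_lit 1711) (L (E (nat_lit 16) (nat_lit 0x3801bacd746b23581428a0c4f427293709684a01f80014006001) (nat_lit 0))) (L (E (nat_lit 18) (nat_lit 0xe006f03759b78db86c83631ac0a144f427113709704b41f80014006001) (nat_lit 0)))) (N (nat_lit 1713) (L (E (nat_lit 14) (nat_lit 0xdd66de36e1b18d8650a27a13889b84b82030014006001) (nat_lit 0))) (L (E (nat_lit 15) (nat_lit 0x1bf0dd069828513d09c44de26e12ec94640e1f80014006001) (nat_lit 0))))) (N (nat_lit 1716) (N (nat_lit 1715) (L (E (nat_lit 13) (nat_lit 0x6eb36f1b18d8650a27a13889b84cb25c0014006001) (nat_lit 0))) (L (E (nat_lit 8) (nat_lit 0x3801bacdbe6be3580014006001) (nat_lit 0)))) (L (E (nat_lit 9) (nat_lit 0x6eb36f9b18d7c6b23580014006001) (nat_lit 0))))) (L (E (nat_lit 8) (nat_lit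 0x3759b7cd7c6b23580014006001) (nat_lit 0))))) (N (nat_lit 1722) (N (nat_lit 1721) (N (nat_lit 1720) (N (nat_lit 1719) (L (E (nat_lit 6) (nat_lit 0xdd66df3588014006001) (nat_lit 0))) (L (E (nat_lit 11) (nat_lit 0x1bacdbe50a27a13889b84b82518014006001) (nat_lit 0)))) (L (E (nat_lit 9) (nat_lit 0x6eb36f1b70d846b23580014006001) (nat_lit 0)))) (L (E (nat_lit 7) (nat_lit 0x1bacd8e6b23580014006001) (nat_lit 0)))) (N (nat_lit 1731) (N (nat_lit 1727) (N (nat_lit 1725) (N (nat_lit 1724) (N (nat_lit 1723) (L (E (nat_lit 12) (nat_lit 0x3759ac0a144f427113709964b82518014006001) (nat_lit 0))) (L (E (nat_lit 13) (nat_lit 0x6e836e9ac4a144f427113709704a320c0014006001) (nat_lit 0)))) (L (E (nat_lit 15) (nat_lit 0x1b70d906c63589a30a144e226e132c9704a320c0014006001) (nat_lit 0)))) (N (nat_lit 1726) (L (E (nat_lit 13) (nat_lit 0x51a28513d89e84e226f13709a44bb2518014006001) (nat_lit 0))) (L (E (nat_lit 11) (nat_lit 0x1baca144f427113709964b82518014006001)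 (nat_lit 0))))) (N (nat_lit 1729) (N (nat_lit 1728) (L (E (nat_lit 12) (nat_lit 0x3759b70d866a628514109b84cc2518014006001) (nat_lit 0))) (L (E (nat_lit 11) (nat_lit 0x1bacdb86a628514109b84cc2518014006001) (nat_lit 0)))) (N (nat_lit 1730) (L (E (nat_lit 10) (nat_lit 0xdd650a27a13889b84cb2518014006001) (nat_lit 0))) (L (E (nat_lit 13) (nat_lit 0x7123759b74d604f627a13889b84cb2518014006001) (nat_lit 0)))))) (N (nat_lit 1733) (N (nat_lit 1732) (L (E (nat_lit 11) (nat_lit 0x1bc0dd66e436e1b54d746b23580014006001) (nat_lit 0))) (L (E (nat_lit 10) (nat_lit 0x8bc444218102080c3f01ee0014006001) (nat_lit 0)))) (N (nat_lit 1735) (N (nat_lit 1734) (L (E (nat_lit 18) (nat_lit 0xe006f03759b90db86c83591ac09e84e225a111080c3f01ee0014006001) (nat_lit 0))) (L (E (nat_lit 12) (nat_lit 0x3891bacdb86c327a13888884061ee0014006001) (nat_lit 0)))) (N (nat_lit 1736) (L (E (nat_lit 13) (nat_lit 0x7123759ac09ec4f427113709964a32220014006001)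 (nat_lit 0))) (L (E (nat_lit 10) (nat_lit 0xde06de36e1b60da86b43460014006001) (nat_lit 0))))))))) (N (nat_lit 1749) (N (nat_lit 1740) (N (nat_lit 1738) (L (E (nat_lit 9) (nat_lit 0x6eb27a13889b84cb2518014006001) (nat_lit 0))) (N (nat_lit 1739) (L (E (nat_lit 15) (nat_lit 0x1ba8dba6d835893d09c44de26e128c81c40614e0014006001) (nat_lit 0))) (L (E (nat_lit 5) (nat_lit 0x6c83631b08d5e001) (nat_lit 0))))) (N (nat_lit 1745) (N (nat_lit 1744) (N (nat_lit 1742) (N (nat_lit 1741) (L (E (nat_lit 16) (nat_lit 0x3751b78d906b635713d09c44de26e13389984ba2518014006001) (nat_lit 0))) (L (E (nat_lit 11) (nat_lit 0x1b74d846b027a13889b84cb2518014006001) (nat_lit 0)))) (N (nat_lit 1743) (L (E (nat_lit 15) (nat_lit 0x1ba8dbc6c83619ad49e84e226f137099c4a32030014006001) (nat_lit 0))) (L (E (nat_lit 11) (nat_lit 0x106481c40a1f80f7c59c29c1480014006001) (nat_lit 0))))) (L (E (nat_lit 12) (nat_lit 0x20f106082c40e20510188083f01ee0014006001)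 (nat_lit 0)))) (N (nat_lit 1748) (N (nat_lit 1747) (N (nat_lit 1746) (L (E (nat_lit 11) (nat_lit 0x10788124051fc8f2878c2ce14e0014006001) (nat_lit 0))) (L (E (nat_lit 21) (nat_lit 0x6ea36e9b0cd6852428213709984b8253128c83c40e2030fd85382901420014006001) (nat_lit 0)))) (L (E (nat_lit 12) (nat_lit 0x36e9b0cd684f427113709764a32070014006001) (nat_lit 0)))) (L (E (nat_lit 14) (nat_lit 0x88844021410788144082028fe47e83df1ee0014006001) (nat_lit 0)))))) (N (nat_lit 1760) (N (nat_lit 1754) (N (nat_lit 1753) (N (nat_lit 1751) (N (nat_lit 1750) (L (E (nat_lit 15) (nat_lit 0x115088844021410788144082028f7c5382981470014006001) (nat_lit 0))) (L (E (nat_lit 23) (nat_lit 0x115088844021410788144082028fd07c03dc1ec0df86942d215d0ac85382981470014006001) (nat_lit 0)))) (N (nat_lit 1752) (L (E (nat_lit 15) (nat_lit 0x10b883840a2030fc079c3ca1680ac853828e1450014006001) (nat_lit 0))) (L (E (nat_lit 39) (nat_lit 0x1e10ef87783b41d28e8c6b032618b8c3c5be2db1670b34594250115088844021410788144051fa0f807b83d81e70df86942d215d0ac85382981470014006001)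 (nat_lit 0))))) (L (E (nat_lit 13) (nat_lit 0x454222110083c418207102880c4041e70014006001) (nat_lit 0)))) (N (nat_lit 1759) (N (nat_lit 1757) (N (nat_lit 1756) (N (nat_lit 1755) (L (E (nat_lit 37) (nat_lit 0x77c3b41d28e8c71f3831c10e046f03751b80dbc6c83581a90c5c5be2cd165094044422010a083c41820710247b03ce1690ac85382981470014006001) (nat_lit 0))) (L (E (nat_lit 13) (nat_lit 0x71f3751b60d9c6cc3641b18d686b23580014006001) (nat_lit 0)))) (L (E (nat_lit 40) (nat_lit 0x3be1da0e9474638f9c10de06ea3701b78db46c83619ac8d6062e2cd1650940440214107883040e20510187e83dc1ec0f386fc2d215d0ac85382981470014006001) (nat_lit 0)))) (N (nat_lit 1758) (L (E (nat_lit 23) (nat_lit 0x1d18e3e70436f1b68d906c327b13d09c44dc26712e894649420c10287b03ce1bf0014006001) (nat_lit 0))) (L (E (nat_lit 28) (nat_lit 0x3a31c7ce086f036f1b68d906c636199f8cf850427a13889b84ce25d128c92844020c10287b03ce1bf0014006001) (nat_lit 0))))) (L (E (nat_lit 9) (nat_lit 0x6dd27a13889b84cb2518014006001)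 (nat_lit 0))))) (N (nat_lit 1767) (N (nat_lit 1764) (N (nat_lit 1763) (N (nat_lit 1762) (N (nat_lit 1761) (L (E (nat_lit 12) (nat_lit 0x3809bf0dd46d83579428a0c4de2640014006001) (nat_lit 0))) (L (E (nat_lit 15) (nat_lit 0x1ba8db86d836413789904a322210588124041f80014006001) (nat_lit 0)))) (L (E (nat_lit 15) (nat_lit 0x1b70d906c235a93789b84a322a10788123da1e30014006001) (nat_lit 0)))) (L (E (nat_lit 11) (nat_lit 0x1b70db46d83641b18d846b43590014006001) (nat_lit 0)))) (N (nat_lit 1766) (N (nat_lit 1765) (L (E (nat_lit 12) (nat_lit 0x3781ba8d8e6b2358132c8144041fb0014006001) (nat_lit 0))) (L (E (nat_lit 15) (nat_lit 0x1ba8dbe6da3611ad0d644cb22210f88144041fb0014006001) (nat_lit 0)))) (L (E (nat_lit 10) (nat_lit 0xdb86c826e132c9464192048014006001) (nat_lit 0))))) (N (nat_lit 1769) (N (nat_lit 1768) (L (E (nat_lit 14) (nat_lit 0x9e84e225d12d088841620490107ec3f01ee0014006001) (nat_lit 0))) (L (E (nat_lit 10) (nat_lit 0x9e84e226e132c9464192050014006001)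 (nat_lit 0)))) (N (nat_lit 1770) (L (E (nat_lit 15) (nat_lit 0x14109e84f226e132c9744162020fd87e83f01ee0014006001) (nat_lit 0))) (N (nat_lit 1771) (L (E (nat_lit 16) (nat_lit 0x3751b24d6a6b227a13889b84ce26590588083f41ee0014006001) (nat_lit 0))) (L (E (nat_lit 13) (nat_lit 0x6ec3751b78d906b527a13889b84ce2518014006001) (nat_lit 0)))))))))
def cl35 : RA := N (nat_lit 1841) (N (nat_lit 1822) (N (nat_lit 1817) (N (nat_lit 1814) (N (nat_lit 1812) (N (nat_lit 1811) (L (E (nat_lit 12) (nat_lit 0x28213d09c44dc25d128c8103f61f80014006001) (nat_lit 0))) (L (E (nat_lit 12) (nat_lit 0x28213d09c44dc265928c8103f61f80014006001) (nat_lit 0)))) (N (nat_lit 1813) (L (E (nat_lit 16) (nat_lit 0x28193e09ec4f4271137099c4cb25190247f23f01f68014006001) (nat_lit 0))) (L (E (nat_lit 11) (nat_lit 0x14109e84e226e132c9463f61f80014006001) (nat_lit 0))))) (N (nat_lit 1815) (L (E (nat_lit 15) (nat_lit 0x1b70db46d836413d09c44de26e13389984ba2518014006001)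 (nat_lit 0))) (N (nat_lit 1816) (L (E (nat_lit 11) (nat_lit 0x14109e84e226e132c9464091fb8014006001) (nat_lit 0))) (L (E (nat_lit 9) (nat_lit 0x50427a13889b84a31f80014006001) (nat_lit 0)))))) (N (nat_lit 1818) (L (E (nat_lit 7) (nat_lit 0x132c8144082020014006001) (nat_lit 0))) (N (nat_lit 1820) (N (nat_lit 1819) (L (E (nat_lit 19) (nat_lit 0x1ba8db86d836414109e84e226f137099c4cc25d128c83c41c20c0014006001) (nat_lit 0))) (L (E (nat_lit 11) (nat_lit 0x1b08a084f427113709964a32058014006001) (nat_lit 0)))) (N (nat_lit 1821) (L (E (nat_lit 12) (nat_lit 0x36d1b08a084f4271137099c4cb2518014006001) (nat_lit 0))) (L (E (nat_lit 9) (nat_lit 0x50427a13889b84cb2518014006001) (nat_lit 0))))))) (N (nat_lit 1824) (N (nat_lit 1823) (L (E (nat_lit 7) (nat_lit 0x13d09c44dc2518014006001) (nat_lit 0))) (L (E (nat_lit 9) (nat_lit 0x50627913889b84cb2510014006001) (nat_lit 0)))) (N (nat_lit 1834) (N (nat_lit 1829) (N (nat_lit 1827) (N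 (nat_lit 1826) (N (nat_lit 1825) (L (E (nat_lit 15) (nat_lit 0x1ba8d6060e2fe13d09c44dc26510247ec3f11e58014006001) (nat_lit 0))) (L (E (nat_lit 20) (nat_lit 0x35818389e84e226e132896848e23a11c88dc41820490107ec3de1ed0014006001) (nat_lit 0)))) (L (E (nat_lit 19) (nat_lit 0x1c08dd46b435113889b84ca25a10f885e42020c102080c4041f00014006001) (nat_lit 0)))) (N (nat_lit 1828) (L (E (nat_lit 8) (nat_lit 0x20810288104061fa0014006001) (nat_lit 0))) (L (E (nat_lit 20) (nat_lit 0x3c61df8ef87783ba1d68e985ae2d516a0b3857c2ad1560aac5482a10014006001) (nat_lit 0))))) (N (nat_lit 1831) (N (nat_lit 1830) (L (E (nat_lit 35) (nat_lit 0x1df8e987023751ad0d485ae2b71560a304f427113709944b423a11c88dc45a22b108083041020310107ec3e61ef0b985a02b413d0014006001) (nat_lit 0))) (L (E (nat_lit 18) (nat_lit 0xf4c74c3a41d18e046da21810648163dc1880ad03101740b30014006001) (nat_lit 0)))) (N (nat_lit 1833) (N (nat_lit 1832) (L (E (nat_lit 20) (nat_lit 0x3d31d30e9070227a13889b84ca21810648103f11880ad03101740b30014006001)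 (nat_lit 0))) (L (E (nat_lit 10) (nat_lit 0xe046e036e1b68db06b73590014006001) (nat_lit 0)))) (L (E (nat_lit 30) (nat_lit 0xf007723b21d20e047003751ba0dc06dc36c1b50d906c035b9ac8d605c42dd15e0ab04e226492e09684a22470014006001) (nat_lit 0)))))) (N (nat_lit 1837) (N (nat_lit 1836) (N (nat_lit 1835) (L (E (nat_lit 29) (nat_lit 0x7803b91d90e907023741b80db06d43601ad0d646b02e215e0ab04e226e13249704b4251123886041e1fc0014006001) (nat_lit 0))) (L (E (nat_lit 21) (nat_lit 0x7723b21d20e046b42e215609e84e2264923887c410205102080c3f01ed0014006001) (nat_lit 0)))) (L (E (nat_lit 7) (nat_lit 0x1660adc5662ab8014006001) (nat_lit 0)))) (N (nat_lit 1839) (N (nat_lit 1838) (L (E (nat_lit 7) (nat_lit 0x16e8b5c58f2a98014006001) (nat_lit 0))) (L (E (nat_lit 14) (nat_lit 0xb745ae2b715acabe55a2a995204cc15209f0014006001) (nat_lit 0)))) (N (nat_lit 1840) (L (E (nat_lit 10) (nat_lit 0xb745ae2ce15f0ad45582a98014006001) (nat_lit 0))) (L (E (nat_lit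 35) (nat_lit 0x1e98ee474c3a41c90e046b43581710b5c5582a413d09c44dc26513249764b424710f886041920810207b431015a0aa04ec1740b30014006001) (nat_lit 0))))))))) (N (nat_lit 1861) (N (nat_lit 1858) (N (nat_lit 1850) (N (nat_lit 1846) (N (nat_lit 1844) (N (nat_lit 1843) (N (nat_lit 1842) (L (E (nat_lit 26) (nat_lit 0xf1474e3a61d20e786ea3599a909e84e226e132896841620310107bc3d81e80f187741760ba0014006001) (nat_lit 0))) (L (E (nat_lit 12) (nat_lit 0x1520a805161760b303801880b80400014006001) (nat_lit 0)))) (L (E (nat_lit 14) (nat_lit 0xf946d93170fd052028a13e09e84ec0e001b0014006001) (nat_lit 0)))) (N (nat_lit 1845) (L (E (nat_lit 34) (nat_lit 0xe9c74c3a41cf0e266b03521a7ca144f4271137099445622710d08204091f88f787782b41500a6852027a13b05d82e81660620014006001) (nat_lit 0))) (L (E (nat_lit 47) (nat_lit 0x1dc8ec874e3a61d20e787133751b70d906b43581a90d3e56e2b11560a144f427113709944b422b113888843e21a10408124061ef0f687782b41500a6852027a13b05d82e81660620014006001)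 (nat_lit 0))))) (N (nat_lit 1848) (N (nat_lit 1847) (L (E (nat_lit 51) (nat_lit 0x1e98f2478a3bf1dc8e9874839e1c90e046b43581a90b885ae2ac1520a304f4271132497648e23a11c88dc45a22b113887c430210104080c3e61ef0f686202ee1730b785a02b415409e84ec1740b30014006001) (nat_lit 0))) (L (E (nat_lit 22) (nat_lit 0xe187043811bc0dd46de36d1b30d906c63461a288ac44421f108080e3f61fa0014006001) (nat_lit 0)))) (N (nat_lit 1849) (L (E (nat_lit 38) (nat_lit 0x10747543a61d28e907043811c00de06ea3701b78d986c83631a98d4869f3221900c7863a2d715606f83501680b005642aa1540a4037c1800430014006001) (nat_lit 0))) (L (E (nat_lit 26) (nat_lit 0x107474c3a41c30e046ea36e9ac8d4863a2d715608ac43e210105080e3f61f30f685a02a81480014006001) (nat_lit 0)))))) (N (nat_lit 1853) (N (nat_lit 1851) (L (E (nat_lit 9) (nat_lit 0x6ec36d1b60d8c6b33520014006001) (nat_lit 0))) (N (nat_lit 1852) (L (E (nat_lit 29) (nat_lit 0x7ae3a61d20e187023751b74d4863a2d715609e84e226e12d08ac43e210105080e3f61f30f685a02a81480014006001)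 (nat_lit 0))) (L (E (nat_lit 15) (nat_lit 0x1b70db46d83641b18d666a427a13889b84ca25a0014006001) (nat_lit 0))))) (N (nat_lit 1856) (N (nat_lit 1855) (N (nat_lit 1854) (L (E (nat_lit 13) (nat_lit 0x5ba2d71670af856e2b51598ac855a2ac0014006001) (nat_lit 0))) (L (E (nat_lit 30) (nat_lit 0xf4c74c3a51d20dda6dc3641998c5c61e2be15b8acc45a210101c7ec3f41ec0c405a02b415409d83101740b30014006001) (nat_lit 0)))) (L (E (nat_lit 15) (nat_lit 0x1e70efc7703b01d68ea87513a71d30e747382101060816001) (nat_lit 0)))) (N (nat_lit 1857) (L (E (nat_lit 33) (nat_lit 0x7a63bf1d30e186ea36e1b68d906b33521998adc4f4271137096845a21f108080e3f61f30f786202d015a0aa03101740b30014006001) (nat_lit 0))) (L (E (nat_lit 17) (nat_lit 0x6c83631b08d4869021010788304041fb0fd07e03de1ee0014006001) (nat_lit 0))))))) (N (nat_lit 1860) (N (nat_lit 1859) (L (E (nat_lit 37) (nat_lit 0x7a63bf1d30e4070c3751b70d906b33521998ca456e27a13889b84b422d10f88404071fb0f987bc3da1e60c405a02c215a0aa03101740b30014006001)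 (nat_lit 0))) (L (E (nat_lit 11) (nat_lit 0x1ba8db06c83631b08d686b23580014006001) (nat_lit 0)))) (L (E (nat_lit 14) (nat_lit 0xe026ea36198e8c1c45c2180fe07c03de1ed0014006001) (nat_lit 0))))) (N (nat_lit 1870) (N (nat_lit 1867) (N (nat_lit 1864) (N (nat_lit 1863) (N (nat_lit 1862) (L (E (nat_lit 21) (nat_lit 0x7a03a61be0d806b4358108083c41c20c10287ec3e01ed0f387703a61b30014006001) (nat_lit 0))) (L (E (nat_lit 22) (nat_lit 0xf4074c3761ba8db86c83619ad0c7460e22e10f88604202038fe07ea3da1e60014006001) (nat_lit 0)))) (L (E (nat_lit 23) (nat_lit 0x1e80e987023751b70d906b43591ac0c7460e22e10f88604202038fd47cc3da1e60014006001) (nat_lit 0)))) (N (nat_lit 1866) (N (nat_lit 1865) (L (E (nat_lit 15) (nat_lit 0x1c00db86c835a1ac8d604202038fe47cc3de1ec0014006001) (nat_lit 0))) (L (E (nat_lit 31) (nat_lit 0x1c08db46b23371998cc863a31618a8c1c60021f10f084041820b105081c4042010fd87e03e61ed0f282ec1740b30014006001) (nat_lit 0)))) (L (E (nat_lit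 32) (nat_lit 0x3809ba8db86c83619ad0cdc66631d18b0c1c45a21f108083041420710108043f61fa0f987b427a13b05d82e81660710014006001) (nat_lit 0))))) (N (nat_lit 1868) (L (E (nat_lit 24) (nat_lit 0x3c91d20e186b030716b8a0c50227a13889bc4dc26512d093048e24610f87b42d013b0014006001) (nat_lit 0))) (N (nat_lit 1869) (L (E (nat_lit 10) (nat_lit 0x86843021710708143f81fb0014006001) (nat_lit 0))) (L (E (nat_lit 15) (nat_lit 0x1c30e026fa3751ac896843e21a10c08143f81fb0014006001) (nat_lit 0)))))) (L (E (nat_lit 7) (nat_lit 0x1b1cd746b23580014006001) (nat_lit 0)))))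
def cl36 : RA := N (nat_lit 1772) (N (nat_lit 1709) (N (nat_lit 1667) (N (nat_lit 1652) (N (nat_lit 1647) (L (E (nat_lit 6) (nat_lit 0xe006eb3598014006001) (nat_lit 0))) (N (nat_lit 1650) (N (nat_lit 1649) (N (nat_lit 1648) (L (E (nat_lit 9) (nat_lit 0x4de26512909444a024f0014006001) (nat_lit 0))) (L (E (nat_lit 12) (nat_lit 0x3759b789ea4dc26692e89684a22038014006001) (nat_lit 0)))) (L (E (nat_lit 11) (nat_lit 0x1c0cdb86b422210f88384172040014006001) (nat_lit 0)))) (N (nat_lit 1651) (L (E (nat_lit 12) (nat_lit 0x3759b78d644f526e12e89684a22038014006001) (nat_lit 0))) (L (E (nat_lit 10) (nat_lit 0xdd66de27a93709684a22038014006001) (nat_lit 0)))))) (N (nat_lit 1659) (N (nat_lit 1653) (L (E (nat_lit 7) (nat_lit 0x116886441d1fa0014006001) (nat_lit 0))) (N (nat_lit 1656) (N (nat_lit 1655) (N (nat_lit 1654) (L (E (nat_lit 12) (nat_lit 0x3811b78d9441f1c60e286d83661af0014006001) (nat_lit 0))) (L (E (nat_lit 9) (nat_lit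 0x7993c61d68eb07543a89d30e7072f) (nat_lit 0)))) (L (E (nat_lit 25) (nat_lit 0x79c3bf1dd8ee07603ae1d68e9c74c3a51d20e747383811b78d9443221810b884040b2038014006001) (nat_lit 0)))) (N (nat_lit 1658) (N (nat_lit 1657) (L (E (nat_lit 13) (nat_lit 0x70236f1b2883e38a1b60d986bc1760b30014006001) (nat_lit 0))) (L (E (nat_lit 28) (nat_lit 0x3ce1df8eec7703b01d70eb474e3a61d28e9073a39c1c08dbc6ca22d10c085c42020f107080e3f41ee0014006001) (nat_lit 0)))) (L (E (nat_lit 19) (nat_lit 0x1e70e906eb3709b54d8e51828513889b84bb25a128891c4071ed0014006001) (nat_lit 0)))))) (N (nat_lit 1660) (L (E (nat_lit 12) (nat_lit 0x28d93d09c84e226f13709744b42510014006001) (nat_lit 0))) (N (nat_lit 1664) (N (nat_lit 1662) (N (nat_lit 1661) (L (E (nat_lit 14) (nat_lit 0xe906eb36f1b1c9c44dc25a128891c4071ed0014006001) (nat_lit 0))) (L (E (nat_lit 10) (nat_lit 0xe046eb36f1b54d946c83630014006001) (nat_lit 0)))) (N (nat_lit 1663) (L (E (nat_lit 17) (nat_lit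 0x6eb36f1b70d946c628c14289e84e226e12ec9684a22470014006001) (nat_lit 0))) (L (E (nat_lit 16) (nat_lit 0x3811bacdbc6dc3651b189e84e226e13289684a22470014006001) (nat_lit 0))))) (N (nat_lit 1666) (N (nat_lit 1665) (L (E (nat_lit 11) (nat_lit 0x1c30e0a6ec36f1b70db46d83630014006001) (nat_lit 0))) (L (E (nat_lit 13) (nat_lit 0x42020f10708303f51ed0ee04f427603f0014006001) (nat_lit 0)))) (L (E (nat_lit 14) (nat_lit 0xe1e6c627a13889b84ca25a0e786cc3641b10014006001) (nat_lit 0)))))))) (cl33)) (cl34)) (N (nat_lit 1810) (N (nat_lit 1788) (N (nat_lit 1787) (N (nat_lit 1780) (N (nat_lit 1776) (N (nat_lit 1774) (N (nat_lit 1773) (L (E (nat_lit 18) (nat_lit 0xe1c70a3641ab89bc4dc266128c87e4311f88f987bc39e1be0014006001) (nat_lit 0))) (L (E (nat_lit 20) (nat_lit 0x3871c28d906ae26f13709984a3233111087842c2058fc47bc39e1be0014006001) (nat_lit 0)))) (N (nat_lit 1775) (L (E (nat_lit 22) (nat_lit 0xe1c6ec3641ab8a4850628213d09c44dc26592e094c4a320c8fc47bc39e1be0014006001)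 (nat_lit 0))) (L (E (nat_lit 16) (nat_lit 0x3871bb0d5c4f427113709764a320c8fc47bc39e1be0014006001) (nat_lit 0))))) (N (nat_lit 1778) (N (nat_lit 1777) (L (E (nat_lit 19) (nat_lit 0x1c38e146ec3641ab89e84e226e13309464192058fc47bc39e1be0014006001) (nat_lit 0))) (L (E (nat_lit 12) (nat_lit 0x36f9b6cd846b527113709464192058014006001) (nat_lit 0)))) (N (nat_lit 1779) (L (E (nat_lit 12) (nat_lit 0x21890187e02ce1650a805382981420014006001) (nat_lit 0))) (L (E (nat_lit 27) (nat_lit 0x1d60e9865628213d09dc4e226e132c9604a321110708103f01c40e1070037c1bb0b285742a00520014006001) (nat_lit 0)))))) (N (nat_lit 1784) (N (nat_lit 1782) (N (nat_lit 1781) (L (E (nat_lit 12) (nat_lit 0x36d9b20d6a4f427113709964a320c8014006001) (nat_lit 0))) (L (E (nat_lit 15) (nat_lit 0x14149e84e226e13389964a321610708103f91fa0014006001) (nat_lit 0)))) (N (nat_lit 1783) (L (E (nat_lit 22) (nat_lit 0xdb46c83631ad8d444f4271137099c4cb25190b083841620410107ec3f41f80014006001)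 (nat_lit 0))) (L (E (nat_lit 16) (nat_lit 0x3811b7cdb46cd3641b18d6c6ae28213789b84cc2518014006001) (nat_lit 0))))) (N (nat_lit 1786) (N (nat_lit 1785) (L (E (nat_lit 24) (nat_lit 0x36f9b68d9a6c63611ad8d4464a31414109e84e226e13389964a320e10206ec3661ab0014006001) (nat_lit 0))) (L (E (nat_lit 15) (nat_lit 0x1ad49e84e226e13389964a320e10648103f61fa0014006001) (nat_lit 0)))) (L (E (nat_lit 10) (nat_lit 0xa0a4f4271137099c4cb2518014006001) (nat_lit 0)))))) (L (E (nat_lit 6) (nat_lit 0xdfa6c23590014006001) (nat_lit 0)))) (N (nat_lit 1797) (N (nat_lit 1794) (N (nat_lit 1790) (N (nat_lit 1789) (L (E (nat_lit 10) (nat_lit 0xa0c50428113d09c44ce2518014006001) (nat_lit 0))) (L (E (nat_lit 16) (nat_lit 0x3781b20d846b428213d89e84ec271137099c4cb2518014006001) (nat_lit 0)))) (N (nat_lit 1792) (N (nat_lit 1791) (L (E (nat_lit 17) (nat_lit 0x6c835a14109e84e226e13389964a321890588083f61fa0014006001) (nat_lit 0))) (L (E (nat_lit 12)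 (nat_lit 0x3891c28dd46dc36c1b20d6c6b43590014006001) (nat_lit 0)))) (N (nat_lit 1793) (L (E (nat_lit 12) (nat_lit 0x3641ad0a084f427113709964a320c8014006001) (nat_lit 0))) (L (E (nat_lit 15) (nat_lit 0x1b78db052228214089c44dc21810708324081f88014006001) (nat_lit 0)))))) (N (nat_lit 1795) (L (E (nat_lit 8) (nat_lit 0x1d38e2c6f83761b90014006001) (nat_lit 0))) (N (nat_lit 1796) (L (E (nat_lit 9) (nat_lit 0x4f427113709964a320c8014006001) (nat_lit 0))) (L (E (nat_lit 6) (nat_lit 0x99641d2020014006001) (nat_lit 0)))))) (N (nat_lit 1798) (L (E (nat_lit 6) (nat_lit 0xe1c6ea3588014006001) (nat_lit 0))) (N (nat_lit 1804) (N (nat_lit 1801) (N (nat_lit 1800) (N (nat_lit 1799) (L (E (nat_lit 23) (nat_lit 0x19809e84e226e12e894049224711f888043020c10587e23e41ec0f2873c36e0b90014006001) (nat_lit 0))) (L (E (nat_lit 16) (nat_lit 0x28213d09e44dc26592e888042e20b10207ec3f01ef8014006001) (nat_lit 0)))) (L (E (nat_lit 14) (nat_lit 0xdd46c93611ac8a0e4e225a128091c4180b90014006001)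 (nat_lit 0)))) (N (nat_lit 1802) (L (E (nat_lit 10) (nat_lit 0xd926c228213d09c44dc2518014006001) (nat_lit 0))) (N (nat_lit 1803) (L (E (nat_lit 14) (nat_lit 0xdd46de28213d89e84e226f115c83040b1f80014006001) (nat_lit 0))) (L (E (nat_lit 13) (nat_lit 0x6ea36f14109e84e226590c48303f61f80014006001) (nat_lit 0)))))) (N (nat_lit 1807) (N (nat_lit 1806) (N (nat_lit 1805) (L (E (nat_lit 11) (nat_lit 0x1b78db86d828213708123f61f80014006001) (nat_lit 0))) (L (E (nat_lit 17) (nat_lit 0x6de3601ac0a084f427113709744a320e0fd87e036e1b40014006001) (nat_lit 0)))) (L (E (nat_lit 10) (nat_lit 0xd9250427a13889b84cb2518014006001) (nat_lit 0)))) (N (nat_lit 1809) (N (nat_lit 1808) (L (E (nat_lit 12) (nat_lit 0x28213889964bb258128c8302981430014006001) (nat_lit 0))) (L (E (nat_lit 9) (nat_lit 0x50427a137094641d1f80014006001) (nat_lit 0)))) (L (E (nat_lit 14) (nat_lit 0xa084f4271137099c4cb25d128c8103f61f80014006001) (nat_lit 0)))))))))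 (cl35))
def cl37 : RA := N (nat_lit 1888) (N (nat_lit 1874) (N (nat_lit 1873) (N (nat_lit 1872) (L (E (nat_lit 6) (nat_lit 0x83a3f01ed0f2c006001) (nat_lit 0))) (L (E (nat_lit 7) (nat_lit 0x105c8144082030014006001) (nat_lit 0)))) (L (E (nat_lit 6) (nat_lit 0xad655e2ad0014006001) (nat_lit 0)))) (N (nat_lit 1884) (N (nat_lit 1880) (N (nat_lit 1877) (N (nat_lit 1876) (N (nat_lit 1875) (L (E (nat_lit 26) (nat_lit 0xef075e3ab1d20ad45642b1117888043e21a10b084041c20c10288104061610a8053829213b0014006001) (nat_lit 0))) (L (E (nat_lit 12) (nat_lit 0x218107082e3f51770b085802ba1490014006001) (nat_lit 0)))) (L (E (nat_lit 41) (nat_lit 0x7ae3d21d78e9070c37d1ba8db86c83591ac0c945ae2c013d09c44dc265132096845e21f10d086042821010608143f81fb0fb07b42c215d0a8052428613b0014006001) (nat_lit 0)))) (N (nat_lit 1879) (N (nat_lit 1878) (L (E (nat_lit 18) (nat_lit 0x8bc45621910b485042020b0fc05842ba1560a8053c29a1490014006001) (nat_lit 0))) (L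 (E (nat_lit 24) (nat_lit 0x3811ba8d6445e22b10c085042020e101c7ee3da1e60b405842ba1560a8052428612f0014006001) (nat_lit 0)))) (L (E (nat_lit 9) (nat_lit 0x2dc1680ae855428a1430014006001) (nat_lit 0))))) (N (nat_lit 1882) (N (nat_lit 1881) (L (E (nat_lit 15) (nat_lit 0xbb85b82d015d0a2850c28408504101700940420014006001) (nat_lit 0))) (L (E (nat_lit 5) (nat_lit 0x3761ab8d28678005) (nat_lit 0)))) (N (nat_lit 1883) (L (E (nat_lit 40) (nat_lit 0x3f51f80dd86dc36d1b18d866a43461830be049e1ba0d9069433c1990bb85cc2dc1680b1054029e1480a1850827813b09784b818c09f04101700aa0360014006001) (nat_lit 0))) (L (E (nat_lit 38) (nat_lit 0xf5c7a43811ba8db86b23471860b5c59a2c011788ac43e21810a084041c20c0fdc7b43cc1de0b985a02c215d0ab054029214309d84bc1040620014006001) (nat_lit 0)))))) (N (nat_lit 1885) (L (E (nat_lit 9) (nat_lit 0x42e205102080c3f41ed0014006001) (nat_lit 0))) (N (nat_lit 1886) (L (E (nat_lit 53) (nat_lit 0x7ae3d21d78e9070c3811be8dd46dc3641ac8d6068e3251860b5c59a2c013d09c44dc265132096845e22b10f8868430214108083040a1fc0fb07b43cc1de0b985a02c215d0ab054029214309d84bc1040620014006001)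 (nat_lit 0))) (N (nat_lit 1887) (L (E (nat_lit 12) (nat_lit 0x21f107480e3f81610ae85702ac14d0014006001) (nat_lit 0))) (L (E (nat_lit 10) (nat_lit 0xe2470c3741b6cd906be3598014006001) (nat_lit 0)))))))) (N (nat_lit 1899) (N (nat_lit 1895) (N (nat_lit 1894) (N (nat_lit 1891) (N (nat_lit 1889) (L (E (nat_lit 12) (nat_lit 0x3761ba8dd06da36c1b08d604301fc0014006001) (nat_lit 0))) (N (nat_lit 1890) (L (E (nat_lit 24) (nat_lit 0x3d71e90e186ea36e1b20d7c6b32d71668b0043e218101c7f03ba1680b085742ac1430014006001) (nat_lit 0))) (L (E (nat_lit 6) (nat_lit 0x87c4051f60014006001) (nat_lit 0))))) (N (nat_lit 1892) (L (E (nat_lit 8) (nat_lit 0x222905881c4091fc0014006001) (nat_lit 0))) (N (nat_lit 1893) (L (E (nat_lit 9) (nat_lit 0x43e21810bc82c3f81f88014006001) (nat_lit 0))) (L (E (nat_lit 10) (nat_lit 0x87c43020b10388123f81f88014006001) (nat_lit 0)))))) (L (E (nat_lit 9) (nat_lit 0x41620490107f03f01ee0014006001) (nat_lit 0)))) (N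 (nat_lit 1896) (L (E (nat_lit 10) (nat_lit 0x87c41620710248083f81ee0014006001) (nat_lit 0))) (N (nat_lit 1898) (N (nat_lit 1897) (L (E (nat_lit 16) (nat_lit 0x3871ba8dd06dc36d1b20d8451a26e12d09484a223f0014006001) (nat_lit 0))) (L (E (nat_lit 15) (nat_lit 0x1c38dd46e836d1b20d666a628d13709684a423f0014006001) (nat_lit 0)))) (L (E (nat_lit 12) (nat_lit 0x35990f886242020710247b43cc1d50014006001) (nat_lit 0)))))) (N (nat_lit 1913) (N (nat_lit 1908) (N (nat_lit 1904) (N (nat_lit 1902) (N (nat_lit 1901) (N (nat_lit 1900) (L (E (nat_lit 16) (nat_lit 0x3809bacd6669a27b139088843e21810787ee3cc1e30014006001) (nat_lit 0))) (L (E (nat_lit 12) (nat_lit 0x3759acc9b843e21a10c08123f81f88014006001) (nat_lit 0)))) (L (E (nat_lit 6) (nat_lit 0x83e4091f88014006001) (nat_lit 0)))) (N (nat_lit 1903) (L (E (nat_lit 13) (nat_lit 0x6ed35b1accd4468c22490787ee3cc1e30014006001) (nat_lit 0))) (L (E (nat_lit 22) (nat_lit 0xdd46e83639accd4468c26e133096849222490c083c3f71e60f186d035619e0014006001)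 (nat_lit 0))))) (N (nat_lit 1906) (N (nat_lit 1905) (L (E (nat_lit 17) (nat_lit 0x70e3789b64d906c63609a789b84b42490f707b435a1ab0014006001) (nat_lit 0))) (L (E (nat_lit 19) (nat_lit 0x1bd0dd86ea36d1b20d8c6c135993709684921ed0e906b835619e0014006001) (nat_lit 0)))) (N (nat_lit 1907) (L (E (nat_lit 17) (nat_lit 0x6f43751ba0d664dc21f108082840e20490087ee3f11d50014006001) (nat_lit 0))) (L (E (nat_lit 10) (nat_lit 0xdda6c83599a88d1838a1ab0014006001) (nat_lit 0)))))) (N (nat_lit 1912) (N (nat_lit 1910) (N (nat_lit 1909) (L (E (nat_lit 17) (nat_lit 0x7003751ba0d906b33511a30a044f827a137096838a1ab0014006001) (nat_lit 0))) (L (E (nat_lit 12) (nat_lit 0x3801bb0d926c235814089e84dc25a0014006001) (nat_lit 0)))) (N (nat_lit 1911) (L (E (nat_lit 14) (nat_lit 0xdd06b326e10f883041420490087f03f11d50014006001) (nat_lit 0))) (L (E (nat_lit 13) (nat_lit 0x6ed36e1b50d8c6b422210f883c40a1fa0014006001) (nat_lit 0))))) (L (E (nat_lit 10)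 (nat_lit 0xe1e6ea36e9b60d6844421f0014006001) (nat_lit 0))))) (N (nat_lit 1920) (N (nat_lit 1917) (N (nat_lit 1916) (N (nat_lit 1915) (N (nat_lit 1914) (L (E (nat_lit 15) (nat_lit 0x1bb4dd06d43631accd5c4cc22210f883c40a1fa0014006001) (nat_lit 0))) (L (E (nat_lit 12) (nat_lit 0x3769ba0dba6b3357139097444421f0014006001) (nat_lit 0)))) (L (E (nat_lit 14) (nat_lit 0xb6459c2c115689e44dc26592889142ac1350014006001) (nat_lit 0)))) (L (E (nat_lit 5) (nat_lit 0x7b03c41c00bc438b) (nat_lit 0)))) (N (nat_lit 1919) (N (nat_lit 1918) (L (E (nat_lit 17) (nat_lit 0x50b27213889b84cc26412e09684a20df06f032818c0b70014006001) (nat_lit 0))) (L (E (nat_lit 30) (nat_lit 0xb6c5b22ce1608ab44f227213709984b4251128092448a1d30e6471837c1b30d7067e2ce15609a837c1940c60014006001) (nat_lit 0)))) (L (E (nat_lit 17) (nat_lit 0x4f526612d49243a61cc8e306f83661ae0cfc37c1940c60014006001) (nat_lit 0))))) (N (nat_lit 1923) (N (nat_lit 1922) (N (nat_lit 1921)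 (L (E (nat_lit 14) (nat_lit 0xb7457627b13d09e44e427113309442dc1670014006001) (nat_lit 0))) (L (E (nat_lit 32) (nat_lit 0x2dd16c8b545762ad1418a044f227113309744b52490e9873238c1be0d986b833f1780b7059c2c015c0a1837c1940c60014006001) (nat_lit 0)))) (L (E (nat_lit 18) (nat_lit 0xdda6e83631acc9b843e20c105081c40920210087ee2b80c60014006001) (nat_lit 0)))) (N (nat_lit 1924) (L (E (nat_lit 8) (nat_lit 0x28714189c64b825a8014006001) (nat_lit 0))) (L (E (nat_lit 14) (nat_lit 0xb5459a2c015dcad05662ad0b7057428a1430014006001) (nat_lit 0))))))))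
def cl38 : RA := N (nat_lit 1946) (N (nat_lit 1932) (N (nat_lit 1930) (N (nat_lit 1928) (N (nat_lit 1927) (N (nat_lit 1926) (L (E (nat_lit 13) (nat_lit 0x444220107c8304092020bd05e02ee15d0014006001) (nat_lit 0))) (L (E (nat_lit 24) (nat_lit 0x3769ad8d665ba2d51600ab44f627a13c89c84e225a912488041820490107ee2f416e0014006001) (nat_lit 0)))) (L (E (nat_lit 14) (nat_lit 0xdda6b6359912488042c20c102480c4041fb8014006001) (nat_lit 0)))) (N (nat_lit 1929) (L (E (nat_lit 24) (nat_lit 0x3769ad8d665ba2d51600ab451a27b13d09e44e427112d489244020c10248083f716e0014006001) (nat_lit 0))) (L (E (nat_lit 13) (nat_lit 0x7203891b80b685a02ce160caf85682ad0014006001) (nat_lit 0))))) (N (nat_lit 1931) (L (E (nat_lit 11) (nat_lit 0x1680b245802b715a0acc5642ad0014006001) (nat_lit 0))) (L (E (nat_lit 14) (nat_lit 0xb405922c00b8059c2ba14d0a3c5142781330014006001) (nat_lit 0))))) (N (nat_lit 1937) (N (nat_lit 1933) (L (E (nat_lit 6) (nat_lit 0xb5459a2c11600ad6001)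 (nat_lit 0))) (N (nat_lit 1935) (N (nat_lit 1934) (L (E (nat_lit 25) (nat_lit 0x7203769b80d665aa2c914089ec4f227213889704b522491008124041fb8b7059c29213c0014006001) (nat_lit 0))) (L (E (nat_lit 8) (nat_lit 0x2ce1644b0055a15d8014006001) (nat_lit 0)))) (N (nat_lit 1936) (L (E (nat_lit 28) (nat_lit 0x3901bb4dc06b32dd16a8b2450628113c89c84b825a91248804092020fdc7322dc1670b0052428613c0014006001) (nat_lit 0))) (L (E (nat_lit 20) (nat_lit 0x2c916009ea4e426e12d09442f01670ae85702ac1490a405142781330014006001) (nat_lit 0)))))) (N (nat_lit 1942) (N (nat_lit 1940) (N (nat_lit 1939) (N (nat_lit 1938) (L (E (nat_lit 30) (nat_lit 0xe4071237016a8b385922c015f0ad05662b21568a044e426e13289684a22500bc059c2ba15c0ab05242781330014006001) (nat_lit 0))) (L (E (nat_lit 30) (nat_lit 0xe4071237016a8b385922c015f0acc5642ad14089c84dc26512d09444a01780b5859c2ba15c0ab05242781330014006001) (nat_lit 0)))) (L (E (nat_lit 32) (nat_lit 0x3901c48dc05aa2ce1648b0057c2b31590ab450227913909c44dc26613289684a22500bc05ac2ce15c0ab05242781330014006001)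 (nat_lit 0)))) (N (nat_lit 1941) (L (E (nat_lit 31) (nat_lit 0x1c80dc05ba2db16a8b385922be1598ac855a28314089e44e427113709984b825a12889402f01670ae055829213c0014006001) (nat_lit 0))) (L (E (nat_lit 18) (nat_lit 0xdda6e8359937087c41820a10388124042010fdc7e02b80c60014006001) (nat_lit 0))))) (N (nat_lit 1944) (N (nat_lit 1943) (L (E (nat_lit 14) (nat_lit 0x9c64ca25a10f88304092020fdc7e03dc1670014006001) (nat_lit 0))) (L (E (nat_lit 16) (nat_lit 0x3761accab44e326e12d087c41820490107ee3f01670014006001) (nat_lit 0)))) (N (nat_lit 1945) (L (E (nat_lit 16) (nat_lit 0x3761b68d6655a271937099643421610608083f71f80014006001) (nat_lit 0))) (L (E (nat_lit 16) (nat_lit 0x3761ba0d6655a271937096843e20c10248083f81f80014006001) (nat_lit 0)))))))) (N (nat_lit 1953) (N (nat_lit 1951) (N (nat_lit 1948) (N (nat_lit 1947) (L (E (nat_lit 10) (nat_lit 0xe006ec3741b20d846b03530014006001) (nat_lit 0))) (L (E (nat_lit 12) (nat_lit 0x27213389964b823f10d086442e2048014006001)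 (nat_lit 0)))) (N (nat_lit 1949) (L (E (nat_lit 13) (nat_lit 0x43421910b88143f41678a785382981430014006001) (nat_lit 0))) (N (nat_lit 1950) (L (E (nat_lit 11) (nat_lit 0x18f8c5861a30610c473c3681ac0014006001) (nat_lit 0))) (L (E (nat_lit 12) (nat_lit 0x3761acc9c64b421f10248083f81f80014006001) (nat_lit 0)))))) (N (nat_lit 1952) (L (E (nat_lit 7) (nat_lit 0x13909c44dc265928800a001) (nat_lit 0))) (L (E (nat_lit 7) (nat_lit 0x1c049944b42030fc0006001) (nat_lit 0))))) (N (nat_lit 1961) (N (nat_lit 1957) (N (nat_lit 1955) (N (nat_lit 1954) (L (E (nat_lit 15) (nat_lit 0x1bb0dd06b326e12d087c41820710248083f71f80014006001) (nat_lit 0))) (L (E (nat_lit 13) (nat_lit 0x6de3641a88a0c50227a13c896a4a424f0014006001) (nat_lit 0)))) (N (nat_lit 1956) (L (E (nat_lit 25) (nat_lit 0x78c3be1de8edc6f83761b78d906b03511a78b7456628314089e84df26792d493c2ee1670014006001) (nat_lit 0))) (L (E (nat_lit 33) (nat_lit 0x78c3be1de8edc6f83761b78d906b03511a78b7456628c1418a044f427213889b84cf26612d493c2ee1680b3855829e13c0014006001)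 (nat_lit 0))))) (N (nat_lit 1959) (N (nat_lit 1958) (L (E (nat_lit 17) (nat_lit 0x77c3bd1dd8ee850227993909c44dc2528b705742b81450014006001) (nat_lit 0))) (L (E (nat_lit 22) (nat_lit 0xf4877c3bd1dd8ee85ba28c1418a044e427113709984b525612945b82ba15c0014006001) (nat_lit 0)))) (N (nat_lit 1960) (L (E (nat_lit 17) (nat_lit 0x7003761ba0d664f4271137096a43e20c10248083f815c0014006001) (nat_lit 0))) (L (E (nat_lit 14) (nat_lit 0x9e64e427113709984ca25212888684322170014006001) (nat_lit 0)))))) (N (nat_lit 1965) (N (nat_lit 1963) (N (nat_lit 1962) (L (E (nat_lit 10) (nat_lit 0xa064f4279138899844421f0014006001) (nat_lit 0))) (L (E (nat_lit 9) (nat_lit 0x5ae2c015dcad05662ad0014006001) (nat_lit 0)))) (N (nat_lit 1964) (L (E (nat_lit 22) (nat_lit 0xdd86e836d16b8acc4f427213889b84cc25a92908a844421f10d086442e1fb8014006001) (nat_lit 0))) (L (E (nat_lit 17) (nat_lit 0x6ec3741acc9e84e4271137096a43e20c10248083f815c0014006001) (nat_lit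 0))))) (N (nat_lit 1967) (N (nat_lit 1966) (L (E (nat_lit 15) (nat_lit 0x1bb0dd06c83611ac09ea418207102880c4041f80014006001) (nat_lit 0))) (L (E (nat_lit 17) (nat_lit 0x6ec3741acc9e84e226e12e896a43e20c10248083f815c0014006001) (nat_lit 0)))) (L (E (nat_lit 26) (nat_lit 0xd906b434f15e0acc50628213e89ec4f427913b899849824b125088843e20c10508084021e30014006001) (nat_lit 0)))))))
def cl39 : RA := N (nat_lit 2019) (N (nat_lit 2018) (N (nat_lit 2012) (N (nat_lit 2004) (L (E (nat_lit 7) (nat_lit 0x14089ea4e52650014006001) (nat_lit 0))) (N (nat_lit 2008) (N (nat_lit 2006) (N (nat_lit 2005) (L (E (nat_lit 18) (nat_lit 0xdb86b3279138899c4ca22010f885c41e20e10608104062020014006001) (nat_lit 0))) (L (E (nat_lit 18) (nat_lit 0xdb86b327913389944bc22010f885c41e20e10608104062020014006001) (nat_lit 0)))) (N (nat_lit 2007) (L (E (nat_lit 10) (nat_lit 0x5cc2e41690b385662ab14e0014006001) (nat_lit 0))) (L (E (nat_lit 15) (nat_lit 0x10b880c3f01730b905b82d21680b385842ba14e0014006001)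 (nat_lit 0))))) (N (nat_lit 2010) (N (nat_lit 2009) (L (E (nat_lit 14) (nat_lit 0x8a8444216907080c3f91ee0b905a02ba14e0014006001) (nat_lit 0))) (L (E (nat_lit 11) (nat_lit 0x1ba4db86d835996f8af02d01670014006001) (nat_lit 0)))) (N (nat_lit 2011) (L (E (nat_lit 18) (nat_lit 0xe186b32df13989c64dc26592ac93e454216902c7f22e41680014006001) (nat_lit 0))) (L (E (nat_lit 16) (nat_lit 0x35996f8a14506271932c95649f22a10b48163f91720014006001) (nat_lit 0))))))) (N (nat_lit 2017) (N (nat_lit 2015) (N (nat_lit 2014) (N (nat_lit 2013) (L (E (nat_lit 9) (nat_lit 0x6b3271932c85a40b1fc8014006001) (nat_lit 0))) (L (E (nat_lit 11) (nat_lit 0x1ad0a164f427913889964a221f0014006001) (nat_lit 0)))) (L (E (nat_lit 9) (nat_lit 0x6b327a132c85a40b1fc8014006001) (nat_lit 0)))) (N (nat_lit 2016) (L (E (nat_lit 8) (nat_lit 0x35990b48384062020014006001) (nat_lit 0))) (L (E (nat_lit 11) (nat_lit 0x1b08d686b027a932c9784a221f0014006001) (nat_lit 0)))))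 (L (E (nat_lit 5) (nat_lit 0x4312050fd07bc005) (nat_lit 0))))) (L (E (nat_lit 6) (nat_lit 0x99e4bc25a0014006001) (nat_lit 0)))) (N (nat_lit 2034) (N (nat_lit 2028) (N (nat_lit 2024) (N (nat_lit 2022) (N (nat_lit 2021) (N (nat_lit 2020) (L (E (nat_lit 13) (nat_lit 0x50b27a138899c48f21f107c8083f91ee0014006001) (nat_lit 0))) (L (E (nat_lit 17) (nat_lit 0x71236c1b08d686b0222110087c42220f10588124041ee0014006001) (nat_lit 0)))) (L (E (nat_lit 16) (nat_lit 0x3931c48e1c6e836c1b20d846b427b10cc84441c1fc8014006001) (nat_lit 0)))) (N (nat_lit 2023) (L (E (nat_lit 23) (nat_lit 0x1ba0db06c83611ad0d6050b27a138899c4a624790f886042220e10588083f91ee0014006001) (nat_lit 0))) (L (E (nat_lit 20) (nat_lit 0x3741b28d6664e26712e094c4a023f10c482c40e20510188083f61af0014006001) (nat_lit 0))))) (N (nat_lit 2026) (N (nat_lit 2025) (L (E (nat_lit 11) (nat_lit 0x1acca16506271132c87c41c2020014006001) (nat_lit 0))) (L (E (nat_lit 10) (nat_lit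 0xd6650b271132c87c41c2020014006001) (nat_lit 0)))) (N (nat_lit 2027) (L (E (nat_lit 12) (nat_lit 0x359941c9ee4e4271132c87c42c2020014006001) (nat_lit 0))) (L (E (nat_lit 10) (nat_lit 0xd664e2267132c87c41c2020014006001) (nat_lit 0)))))) (N (nat_lit 2029) (L (E (nat_lit 10) (nat_lit 0xe4c71e3891c38e186ea3740014006001) (nat_lit 0))) (N (nat_lit 2031) (N (nat_lit 2030) (L (E (nat_lit 26) (nat_lit 0xe4c7123861ba8db85ae2b315789ec4f427913989904a6251124886443021710b080c3da1680014006001) (nat_lit 0))) (L (E (nat_lit 7) (nat_lit 0x16b8b3858c2bb8014006001) (nat_lit 0)))) (N (nat_lit 2033) (N (nat_lit 2032) (L (E (nat_lit 24) (nat_lit 0x3891c00db86da35996b8b3855e28a13c89c64dd250123880c4041ed0f1074c38a0a90014006001) (nat_lit 0))) (L (E (nat_lit 23) (nat_lit 0x1c48e1e6dc36d1accb5c59c2af14509e44e3265927c91c4162020f6878838a0a90014006001) (nat_lit 0)))) (L (E (nat_lit 18) (nat_lit 0xe3c70c35996b8abc4f2273138c99649f22a10f88164041680014006001)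 (nat_lit 0))))))) (N (nat_lit 2036) (N (nat_lit 2035) (L (E (nat_lit 10) (nat_lit 0x8a844021f10f08584092020014006001) (nat_lit 0))) (L (E (nat_lit 7) (nat_lit 0x111485c42c2140014006001) (nat_lit 0)))) (N (nat_lit 2042) (N (nat_lit 2039) (N (nat_lit 2037) (L (E (nat_lit 24) (nat_lit 0x3e01e40f087763b41860b3859a2cc16309b44a0249123891848a23f0f685802a014e0014006001) (nat_lit 0))) (N (nat_lit 2038) (L (E (nat_lit 9) (nat_lit 0x7903c21dd8ed05922ab150853e005) (nat_lit 0))) (L (E (nat_lit 35) (nat_lit 0x1e40f0871e3891c38e186b42df1648acc51a28513d89e84f2273132c93e45421e10c085c42c21410787f23da1cd0d686ac2d01580014006001) (nat_lit 0))))) (N (nat_lit 2041) (N (nat_lit 2040) (L (E (nat_lit 15) (nat_lit 0x1c98e3c7123871c30dd46da36c1b28d666a63450014006001) (nat_lit 0))) (L (E (nat_lit 35) (nat_lit 0x1e40f0877a38f1c48e1c70c3599a98b7c59228d14289ec4f4279139899649f22a10f887842e21610247f23f11cd0b905a02b00de0014006001) (nat_lit 0))))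 (L (E (nat_lit 8) (nat_lit 0x37493209684a22020fc07b8005) (nat_lit 0))))) (N (nat_lit 2044) (N (nat_lit 2043) (L (E (nat_lit 27) (nat_lit 0x1de8e3c7123871c30d665be2c91468a144f627a13c89cc4cb24f915087c4092020b905a02b00de0014006001) (nat_lit 0))) (L (E (nat_lit 15) (nat_lit 0x1c3cd6069e26d12808a843e21610248083f91ee0014006001) (nat_lit 0)))) (L (E (nat_lit 10) (nat_lit 0xe4c71e3811b78db46d836a0014006001) (nat_lit 0)))))))
def cl40 : RA := N (nat_lit 2083) (N (nat_lit 2063) (N (nat_lit 2055) (N (nat_lit 2048) (N (nat_lit 2046) (L (E (nat_lit 10) (nat_lit 0xe3c70e3811ba8db46d83598014006001) (nat_lit 0))) (N (nat_lit 2047) (L (E (nat_lit 16) (nat_lit 0x38f1accb7c55e28d1428a0c4e3265915087c4041720014006001) (nat_lit 0))) (L (E (nat_lit 20) (nat_lit 0x3759b20d6c6b333b19b0cc462e27c13d89e44c825a11048123f91a00014006001) (nat_lit 0))))) (N (nat_lit 2053) (N (nat_lit 2051) (N (nat_lit 2050) (N (nat_lit 2049) (L (E (nat_lit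 13) (nat_lit 0x6f036e13e09c64a221710608123f91f88014006001) (nat_lit 0))) (L (E (nat_lit 11) (nat_lit 0x13e09c64c825a12888403f61ef8014006001) (nat_lit 0)))) (L (E (nat_lit 17) (nat_lit 0x7023781acca164e326412d088242e21610608124041fc8014006001) (nat_lit 0)))) (N (nat_lit 2052) (L (E (nat_lit 18) (nat_lit 0xe1c7023759ad8d6650b271932096844121710b08124041fc8014006001) (nat_lit 0))) (L (E (nat_lit 11) (nat_lit 0x111087c42c20410188083f91ee0014006001) (nat_lit 0))))) (N (nat_lit 2054) (L (E (nat_lit 15) (nat_lit 0x1bacdb06b3285938c9904b422090b08124041fc8014006001) (nat_lit 0))) (L (E (nat_lit 10) (nat_lit 0xb305662831410a044dc2580014006001) (nat_lit 0)))))) (N (nat_lit 2060) (N (nat_lit 2059) (N (nat_lit 2058) (N (nat_lit 2057) (N (nat_lit 2056) (L (E (nat_lit 13) (nat_lit 0x6b328c942c9c64cb21710248083f91ef0014006001) (nat_lit 0))) (L (E (nat_lit 14) (nat_lit 0xe2470e36c1b08d686b022a10f885e4092020014006001) (nat_lit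 0)))) (L (E (nat_lit 11) (nat_lit 0x1c38d66519285932c87c4092020014006001) (nat_lit 0)))) (L (E (nat_lit 8) (nat_lit 0x359932c87c41c2020014006001) (nat_lit 0)))) (L (E (nat_lit 9) (nat_lit 0x50627a13309944bc25a0014006001) (nat_lit 0)))) (N (nat_lit 2062) (N (nat_lit 2061) (L (E (nat_lit 11) (nat_lit 0x1c3c9944bc21f10248083f61ee0014006001) (nat_lit 0))) (L (E (nat_lit 10) (nat_lit 0x87c42f20490107e03ed1ee0014006001) (nat_lit 0)))) (L (E (nat_lit 10) (nat_lit 0xa0c4f4272138899c4cc25a8014006001) (nat_lit 0)))))) (N (nat_lit 2076) (N (nat_lit 2067) (N (nat_lit 2064) (L (E (nat_lit 6) (nat_lit 0xa2a50a2830014006001) (nat_lit 0))) (N (nat_lit 2066) (N (nat_lit 2065) (L (E (nat_lit 15) (nat_lit 0x1470a3451828a14189c44dc26c132096043c2030014006001) (nat_lit 0))) (L (E (nat_lit 20) (nat_lit 0x3871c08db46d83599470a3451428313889b84d8265132096043c2030014006001) (nat_lit 0)))) (L (E (nat_lit 18) (nat_lit 0xe1c6da36c1acca3450a28313d09c44cc25e12d496043c2030014006001)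 (nat_lit 0))))) (N (nat_lit 2072) (N (nat_lit 2070) (N (nat_lit 2069) (N (nat_lit 2068) (L (E (nat_lit 22) (nat_lit 0xe3c70e36d1b60d6669a26f132887841820b10388144062020fc074c3681a30014006001) (nat_lit 0))) (L (E (nat_lit 26) (nat_lit 0xe2470e36d1b60d664f626e93309944bc21f10f081c40620210087e03cc1e30f1074c3681a30014006001) (nat_lit 0)))) (L (E (nat_lit 17) (nat_lit 0x70e36c1ad0a164f427113709984ca25812888323f01ee0014006001) (nat_lit 0)))) (N (nat_lit 2071) (L (E (nat_lit 20) (nat_lit 0x3871b60d6650b27a13889bc4dc266132887840e20510188083f01f68014006001) (nat_lit 0))) (L (E (nat_lit 27) (nat_lit 0x1c38db46d83599468a0c4f427113309784b521f10f081c40a20310107da3cc1e30f1074c3681a30014006001) (nat_lit 0))))) (N (nat_lit 2074) (N (nat_lit 2073) (L (E (nat_lit 23) (nat_lit 0x1b68db06b328d13d09c44cc25a910484041c20510188083ed1e30f1074c3681a30014006001) (nat_lit 0))) (L (E (nat_lit 10) (nat_lit 0xa3851a28193889bc4dc25a8014006001)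 (nat_lit 0)))) (N (nat_lit 2075) (L (E (nat_lit 19) (nat_lit 0x1ba8d6651c28d13d09c44de26e12d488242020e102880c4041f68014006001) (nat_lit 0))) (L (E (nat_lit 21) (nat_lit 0x6de28e1468a0c4f427913889984a221e106081c40a20310107e03ed1ee0014006001) (nat_lit 0))))))) (N (nat_lit 2082) (N (nat_lit 2079) (N (nat_lit 2078) (N (nat_lit 2077) (L (E (nat_lit 20) (nat_lit 0x3751b78d6651c28d13d09c44dc26612d488242020e102880c4041f68014006001) (nat_lit 0))) (L (E (nat_lit 27) (nat_lit 0x1b68d666a628e14689e84e226612d488243e21010708144062020fd07da3cc1e30f1074c3681a30014006001) (nat_lit 0)))) (L (E (nat_lit 11) (nat_lit 0x1c78d666a520c90287e83f01d30014006001) (nat_lit 0)))) (N (nat_lit 2081) (N (nat_lit 2080) (L (E (nat_lit 19) (nat_lit 0x1c78d666a626f132894841c20a102880c3f41f80fb474c3681a30014006001) (nat_lit 0))) (L (E (nat_lit 29) (nat_lit 0x70e36d1b28d666a628d13d09984bc25a910487c42020e10508144062020fd07da3cc1e30f1074c3681a30014006001)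 (nat_lit 0)))) (L (E (nat_lit 12) (nat_lit 0x3871b28d664bc25a90f88124041fb0014006001) (nat_lit 0))))) (L (E (nat_lit 9) (nat_lit 0x4f526613289784b42510014006001) (nat_lit 0)))))) (N (nat_lit 2085) (N (nat_lit 2084) (L (E (nat_lit 11) (nat_lit 0x13dc9bc4dc26613289784b42510014006001) (nat_lit 0))) (L (E (nat_lit 7) (nat_lit 0x137499c4cc2650014006001) (nat_lit 0)))) (N (nat_lit 2100) (N (nat_lit 2092) (N (nat_lit 2089) (N (nat_lit 2087) (N (nat_lit 2086) (L (E (nat_lit 10) (nat_lit 0xd946b325e10f88124041fb0014006001) (nat_lit 0))) (L (E (nat_lit 14) (nat_lit 0xd844f427113789b84ce26512f09684b02030014006001) (nat_lit 0)))) (N (nat_lit 2088) (L (E (nat_lit 12) (nat_lit 0x27113709944bc258128883240b1f88014006001) (nat_lit 0))) (L (E (nat_lit 10) (nat_lit 0x9e84ee27113709944b42580014006001) (nat_lit 0))))) (N (nat_lit 2091) (N (nat_lit 2090) (L (E (nat_lit 10) (nat_lit 0x9c44de26e133496a4b02530014006001) (nat_lit 0)))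 (L (E (nat_lit 15) (nat_lit 0x14289c44dc26512f09604a625110648163dc1ed0014006001) (nat_lit 0)))) (L (E (nat_lit 14) (nat_lit 0xacc50a271932897841620310107b83da15d0014006001) (nat_lit 0))))) (N (nat_lit 2096) (N (nat_lit 2094) (N (nat_lit 2093) (L (E (nat_lit 14) (nat_lit 0xd6651c28d1428a0c4de26693205a02ca15d0014006001) (nat_lit 0))) (L (E (nat_lit 19) (nat_lit 0x1c00db86b328d1450a144f427713789b44cd26513205a02ca15d0014006001) (nat_lit 0)))) (N (nat_lit 2095) (L (E (nat_lit 11) (nat_lit 0x1c00db851428393b89b42d01650014006001) (nat_lit 0))) (L (E (nat_lit 15) (nat_lit 0x1b70d66514285137499c4b524710188083da15d0014006001) (nat_lit 0))))) (N (nat_lit 2098) (N (nat_lit 2097) (L (E (nat_lit 24) (nat_lit 0x3651b20d8c6c233919a0ccc65a32c1928c4c56e2b3156858029e14a09d84cc15209f0014006001) (nat_lit 0))) (L (E (nat_lit 34) (nat_lit 0x10107a83c31d38e146e836e1b28d906be3599aa8ce465a3271928c806262c615b899a4b0250905880c4041f80f1059c2940a90014006001)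 (nat_lit 0)))) (N (nat_lit 2099) (L (E (nat_lit 25) (nat_lit 0x6c133919a0cb46583271928c8063031315988644302160e986ac2d01670a7853029413b0014006001) (nat_lit 0))) (L (E (nat_lit 35) (nat_lit 0x2020f507863a71c28dd46e83651b20d846b433919a0cb464e3251900c4c58c2b3139499a43221810b074c3561680b3853029413b0014006001) (nat_lit 0))))))) (N (nat_lit 2104) (N (nat_lit 2101) (L (E (nat_lit 9) (nat_lit 0x51e28c139099c4bc25c0014006001) (nat_lit 0))) (N (nat_lit 2102) (L (E (nat_lit 38) (nat_lit 0x10107a83a71ba8dd06dc3651b20d7c6b33551928c806262c615b8a3050a28313d09bc4cd26412f09684b021910c082c4062020f105402940a90014006001) (nat_lit 0))) (N (nat_lit 2103) (L (E (nat_lit 32) (nat_lit 0x3a71ba8db86ca3641af8d6c6b33551928c806262b713d09ba4ce26512f09684b021910c08584062020f105402940a90014006001) (nat_lit 0))) (L (E (nat_lit 8) (nat_lit 0x35990f88384062020014006001) (nat_lit 0)))))) (L (E (nat_lit 7) (nat_lit 0x13d49bc4c824f0014006001) (nat_lit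 0))))))
def cl41 : RA := N (nat_lit 2121) (N (nat_lit 2112) (N (nat_lit 2111) (N (nat_lit 2108) (N (nat_lit 2107) (N (nat_lit 2106) (L (E (nat_lit 21) (nat_lit 0x85e3eb1bb0dd06c235b1a98d4450726692f09684061ef0aa853829813d0014006001) (nat_lit 0))) (L (E (nat_lit 16) (nat_lit 0x3631accd4450e26f13349904b4252927880c29c14c0014006001) (nat_lit 0)))) (L (E (nat_lit 23) (nat_lit 0x1fa0d8c6b335117b8a1c4de26692d093c49221710788144062020f686ac29c14c0014006001) (nat_lit 0)))) (N (nat_lit 2110) (N (nat_lit 2109) (L (E (nat_lit 14) (nat_lit 0xa304f526613289684a515f0ac85382981480014006001) (nat_lit 0))) (L (E (nat_lit 16) (nat_lit 0x3631b08a304e2266132494a40615f0ac85382981480014006001) (nat_lit 0)))) (L (E (nat_lit 29) (nat_lit 0x7e83631accd445ee28c14389c44de26312d093c492217107881440820310107b435615f0ac85382981480014006001) (nat_lit 0))))) (L (E (nat_lit 7) (nat_lit 0x1acc87c4062020014006001) (nat_lit 0)))) (N (nat_lit 2117)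 (N (nat_lit 2115) (N (nat_lit 2114) (N (nat_lit 2113) (L (E (nat_lit 15) (nat_lit 0x108883040a2030fe07bc1b00d506382ec16e0b00014006001) (nat_lit 0))) (L (E (nat_lit 17) (nat_lit 0x6c2285937c9984c625c12d087c40a20310107f03ec1ee0014006001) (nat_lit 0)))) (L (E (nat_lit 8) (nat_lit 0x20510187f03f61ef8014006001) (nat_lit 0)))) (N (nat_lit 2116) (L (E (nat_lit 13) (nat_lit 0x70c37e1b28d7c42e2050fd87e23cb1470014006001) (nat_lit 0))) (L (E (nat_lit 14) (nat_lit 0xe186fc3651af885c41820510188083f814f8014006001) (nat_lit 0))))) (N (nat_lit 2119) (N (nat_lit 2118) (L (E (nat_lit 15) (nat_lit 0x1c30df86ea3611af885c40a20310107f03f01e58014006001) (nat_lit 0))) (L (E (nat_lit 19) (nat_lit 0x1c30dd46c235f10f885c41820510188083f81ef0bc05a029e14a0014006001) (nat_lit 0)))) (N (nat_lit 2120) (L (E (nat_lit 23) (nat_lit 0x1c00db86ca3611af8a0c4df26613189704b421f10b88144062020fe07d82f014a0014006001) (nat_lit 0))) (L (E (nat_lit 16) (nat_lit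 0x3801b708a844420c102880c4041fc0fc07be3c61e20014006001) (nat_lit 0))))))) (N (nat_lit 2129) (N (nat_lit 2122) (L (E (nat_lit 7) (nat_lit 0x2180fe47af3260014006001) (nat_lit 0))) (N (nat_lit 2126) (N (nat_lit 2124) (N (nat_lit 2123) (L (E (nat_lit 17) (nat_lit 0x7ae3d21718b7459c2c015e0ab450a28314089ec4e22660014006001) (nat_lit 0))) (L (E (nat_lit 15) (nat_lit 0x1c00a3050627b137c9984bd25a10f885c4062020014006001) (nat_lit 0)))) (N (nat_lit 2125) (L (E (nat_lit 34) (nat_lit 0xde06ea3619ad0d4462030e163889043e21e10b883c418207102880c4041fa0f805642981470a2833c18e0c105c82c010a0510014006001) (nat_lit 0))) (L (E (nat_lit 32) (nat_lit 0x3851c00de06ea35a1a88c4061c2c7112087c43c217107883040e20510188083e01590a6051c28a0cf06382e41600850014006001) (nat_lit 0))))) (N (nat_lit 2128) (N (nat_lit 2127) (L (E (nat_lit 11) (nat_lit 0x14609ea4df26612d087c4062020014006001) (nat_lit 0))) (L (E (nat_lit 15) (nat_lit 0x1ba8d644f526613289904ba25a10f883040b2030014006001)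 (nat_lit 0)))) (L (E (nat_lit 13) (nat_lit 0x7003789b68db26b435913d897843e21e0014006001) (nat_lit 0)))))) (N (nat_lit 2143) (N (nat_lit 2136) (N (nat_lit 2134) (N (nat_lit 2132) (N (nat_lit 2131) (N (nat_lit 2130) (L (E (nat_lit 12) (nat_lit 0x38f1b08d686b227a937c97243e2048014006001) (nat_lit 0))) (L (E (nat_lit 13) (nat_lit 0x70026613289904bd21f107881c3f41f20014006001) (nat_lit 0)))) (L (E (nat_lit 12) (nat_lit 0x38f1ac89ea4df26610f88143f11ef8014006001) (nat_lit 0)))) (N (nat_lit 2133) (L (E (nat_lit 12) (nat_lit 0x38f1ac89ea4df266115087c40a1f88014006001) (nat_lit 0))) (L (E (nat_lit 15) (nat_lit 0x13d49984ca26412d08ae41e20c102880c3f41ef0014006001) (nat_lit 0))))) (N (nat_lit 2135) (L (E (nat_lit 18) (nat_lit 0xd846b027a937c9984b422b90f883c40a20310107e83f01ee0014006001) (nat_lit 0))) (L (E (nat_lit 8) (nat_lit 0x20c10188083f51ed8014006001) (nat_lit 0))))) (N (nat_lit 2140) (N (nat_lit 2138) (N (nat_lit 2137)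 (L (E (nat_lit 13) (nat_lit 0x6c235913d49be4b420f90188083f01ef0014006001) (nat_lit 0))) (L (E (nat_lit 11) (nat_lit 0x1bf0de06ea35a10f48083f01ee0014006001) (nat_lit 0)))) (N (nat_lit 2139) (L (E (nat_lit 14) (nat_lit 0xe3c6c227a937c9984b422a10f88144062020014006001) (nat_lit 0))) (L (E (nat_lit 15) (nat_lit 0x1c3ce006f03751b68db06c835a1ac8d6044421f0014006001) (nat_lit 0))))) (N (nat_lit 2142) (N (nat_lit 2141) (L (E (nat_lit 8) (nat_lit 0x27a93289904b92490014006001) (nat_lit 0))) (L (E (nat_lit 10) (nat_lit 0x9ea4df26612d087c4062020014006001) (nat_lit 0)))) (L (E (nat_lit 27) (nat_lit 0x1eb8e907023801b28d604f427113709984c825a115487c434216107c80c4041f00f685842760620014006001) (nat_lit 0)))))) (N (nat_lit 2150) (N (nat_lit 2147) (N (nat_lit 2145) (N (nat_lit 2144) (L (E (nat_lit 33) (nat_lit 0x7ae3a41c08df46ca3581a38c9459a28514089c44df26612d087c43d21a102880c4041f80f687962e61610ae84ec25e0620014006001) (nat_lit 0)))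 (L (E (nat_lit 31) (nat_lit 0x1eb8e9070237d1b28d6068e3251668a14502271137c9984b421f10d08144062020f787b42e61610ae84ec25e0620014006001) (nat_lit 0)))) (N (nat_lit 2146) (L (E (nat_lit 12) (nat_lit 0x27a13889b84ca25d10c07e23e41ef8014006001) (nat_lit 0))) (L (E (nat_lit 32) (nat_lit 0x3d71d20e046fa3651ac0d1c64a2cd1428a044e226f93309744b421f10d086040a20310107b42e61610ae84ec25e0620014006001) (nat_lit 0))))) (N (nat_lit 2149) (N (nat_lit 2148) (L (E (nat_lit 10) (nat_lit 0x9c44df26612d087c4062020014006001) (nat_lit 0))) (L (E (nat_lit 10) (nat_lit 0x9c44df26612d48164062020014006001) (nat_lit 0)))) (L (E (nat_lit 18) (nat_lit 0xe266fb28113d09c44ca251115c87c42e20f10248083de1ee0014006001) (nat_lit 0))))) (N (nat_lit 2151) (L (E (nat_lit 7) (nat_lit 0x1bb4db86d43478014006001) (nat_lit 0))) (N (nat_lit 2153) (N (nat_lit 2152) (L (E (nat_lit 17) (nat_lit 0x6ea36113d09e44e2265128887a42e20490107e03de1dd0014006001) (nat_lit 0)))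 (L (E (nat_lit 10) (nat_lit 0xe3c7023751b749e84e225d0014006001) (nat_lit 0)))) (L (E (nat_lit 15) (nat_lit 0x1ba89e84f227112d487c41820510188083f41ef0014006001) (nat_lit 0))))))))
def cl42 : RA := N (nat_lit 2177) (N (nat_lit 2168) (N (nat_lit 2155) (L (E (nat_lit 7) (nat_lit 0x10bc8304041ec0014006001) (nat_lit 0))) (N (nat_lit 2162) (N (nat_lit 2159) (N (nat_lit 2157) (N (nat_lit 2156) (L (E (nat_lit 20) (nat_lit 0x3611ac89e84f2271133094441e20c10388144062020fc07c03dc1e50014006001) (nat_lit 0))) (L (E (nat_lit 15) (nat_lit 0x1ba89e84f227112e896a43e20c102880c4041fa0014006001) (nat_lit 0)))) (N (nat_lit 2158) (L (E (nat_lit 16) (nat_lit 0x3801bf0df46f03751b6cd444dc25a903c8144061ef0014006001) (nat_lit 0))) (L (E (nat_lit 21) (nat_lit 0x72237e1be8dbc6dc36d13909c44dc26612d485e42220b10187f03f61e60014006001) (nat_lit 0))))) (N (nat_lit 2161) (N (nat_lit 2160) (L (E (nat_lit 18) (nat_lit 0xe446fa3781b70d444e4271133096a43e217903c8144061e60014006001)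 (nat_lit 0))) (L (E (nat_lit 15) (nat_lit 0x1ba89e84f227113309744b521f10608144062020014006001) (nat_lit 0)))) (L (E (nat_lit 9) (nat_lit 0x4e226f933087c4062020014006001) (nat_lit 0))))) (N (nat_lit 2165) (N (nat_lit 2163) (L (E (nat_lit 8) (nat_lit 0x26f933087c4062020014006001) (nat_lit 0))) (N (nat_lit 2164) (L (E (nat_lit 15) (nat_lit 0x137099a4c625a906082840a20310107b42b214e0014006001) (nat_lit 0))) (L (E (nat_lit 9) (nat_lit 0x4f426f93348144062020014006001) (nat_lit 0))))) (N (nat_lit 2167) (N (nat_lit 2166) (L (E (nat_lit 13) (nat_lit 0x6b227a13889b84ca25a10b880c3e01ef0014006001) (nat_lit 0))) (L (E (nat_lit 11) (nat_lit 0x1ac8a304f4271137c8164061ef0014006001) (nat_lit 0)))) (L (E (nat_lit 8) (nat_lit 0x27a137c87c4062020014006001) (nat_lit 0))))))) (N (nat_lit 2172) (N (nat_lit 2169) (L (E (nat_lit 8) (nat_lit 0x205102080c4041fa0014006001) (nat_lit 0))) (N (nat_lit 2171) (N (nat_lit 2170) (L (E (nat_lit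 9) (nat_lit 0x51827b137c9784ba25c0014006001) (nat_lit 0))) (L (E (nat_lit 7) (nat_lit 0x10f88163f81ef8014006001) (nat_lit 0)))) (L (E (nat_lit 11) (nat_lit 0x1428a0c4ba25c10f883040b1fc0014006001) (nat_lit 0))))) (N (nat_lit 2173) (L (E (nat_lit 7) (nat_lit 0x137c87c4062020014006001) (nat_lit 0))) (N (nat_lit 2176) (N (nat_lit 2175) (N (nat_lit 2174) (L (E (nat_lit 9) (nat_lit 0x6b227a93788144081f88014006001) (nat_lit 0))) (L (E (nat_lit 16) (nat_lit 0x37e14189ec4f227110f881c4092020fe07bc3dc1ed0014006001) (nat_lit 0)))) (L (E (nat_lit 24) (nat_lit 0x3ab1d38e1c6ea36d1ad8d4c66832514909ea4de26613289784b421f10587b439a1bb0014006001) (nat_lit 0)))) (L (E (nat_lit 8) (nat_lit 0x27a90f88143f11ef0014006001) (nat_lit 0))))))) (N (nat_lit 2191) (N (nat_lit 2188) (N (nat_lit 2184) (N (nat_lit 2182) (N (nat_lit 2180) (N (nat_lit 2179) (N (nat_lit 2178) (L (E (nat_lit 12) (nat_lit 0x38f1c38e006d83591a888323f01ee0014006001)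 (nat_lit 0))) (L (E (nat_lit 11) (nat_lit 0x1c78e1c6e83611af8d646b034c0014006001) (nat_lit 0)))) (L (E (nat_lit 19) (nat_lit 0x1c78e006b23581ab89e44e2265923091442e20490107f23f01ef0014006001) (nat_lit 0)))) (N (nat_lit 2181) (L (E (nat_lit 11) (nat_lit 0x1ac09ea4cb22210f88124041ef0014006001) (nat_lit 0))) (L (E (nat_lit 16) (nat_lit 0x36d1ac09ea4cc26512d087c41820310107e03de1ee0014006001) (nat_lit 0))))) (N (nat_lit 2183) (L (E (nat_lit 12) (nat_lit 0x35813d496844421f10248083de1ee0014006001) (nat_lit 0))) (L (E (nat_lit 10) (nat_lit 0x9ea4b421f102880c4041ef0014006001) (nat_lit 0))))) (N (nat_lit 2186) (N (nat_lit 2185) (L (E (nat_lit 11) (nat_lit 0x13d09c44de26e13309944b42510014006001) (nat_lit 0))) (L (E (nat_lit 11) (nat_lit 0x144c9e84e226f13309944b42510014006001) (nat_lit 0)))) (N (nat_lit 2187) (L (E (nat_lit 15) (nat_lit 0x1ba8dd06dd35a1ac8d606a22180fe06b413e0360014006001) (nat_lit 0))) (L (E (nat_lit 26)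 (nat_lit 0xe006b43591ac0d4469428514089ba4cd25a127886041c20510188083f81ad0a704ec13e0360014006001) (nat_lit 0)))))) (N (nat_lit 2189) (L (E (nat_lit 7) (nat_lit 0x1c0cdfa6c635a0014006001) (nat_lit 0))) (N (nat_lit 2190) (L (E (nat_lit 10) (nat_lit 0xe086dc36d1b60da86c635a0014006001) (nat_lit 0))) (L (E (nat_lit 12) (nat_lit 0x27a138896843e205102080c4041f80014006001) (nat_lit 0)))))) (N (nat_lit 2195) (N (nat_lit 2194) (N (nat_lit 2193) (N (nat_lit 2192) (L (E (nat_lit 13) (nat_lit 0x4f427113789984ca25a111087c4061f80014006001) (nat_lit 0))) (L (E (nat_lit 11) (nat_lit 0x10f882c40e20490188083f81fb8014006001) (nat_lit 0)))) (L (E (nat_lit 12) (nat_lit 0x27112d087c40a20310107f03f01ef0014006001) (nat_lit 0)))) (L (E (nat_lit 8) (nat_lit 0x27a13889b84cb25e0014006001) (nat_lit 0)))) (N (nat_lit 2202) (N (nat_lit 2199) (N (nat_lit 2197) (N (nat_lit 2196) (L (E (nat_lit 15) (nat_lit 0x13d09c44cb25e12e89684a222a10f88584092020014006001)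 (nat_lit 0))) (L (E (nat_lit 34) (nat_lit 0x10107f23d61ea0e2470a3781ba8db46c334f1a30cbc64e32618f8c3459c2c613e099c4b8253128894040a1fa0e286cc19e0ce0014006001) (nat_lit 0)))) (N (nat_lit 2198) (L (E (nat_lit 20) (nat_lit 0x4041ea0dd06ca3591630a084e226592ec94443e21790248083ed0ce0014006001) (nat_lit 0))) (L (E (nat_lit 21) (nat_lit 0x8083d41ba8dd06ca2c613cc9c44cb25d928887c41620490107e03de0ce0014006001) (nat_lit 0))))) (N (nat_lit 2201) (N (nat_lit 2200) (L (E (nat_lit 10) (nat_lit 0x83041620310107e03de1ec0014006001) (nat_lit 0))) (L (E (nat_lit 20) (nat_lit 0x3751b289c44dd26592f09684a222a10f885840a20490188083f01ef0014006001) (nat_lit 0)))) (L (E (nat_lit 14) (nat_lit 0xd944e226592f096843e20490107e03ed1ef0014006001) (nat_lit 0))))) (N (nat_lit 2204) (N (nat_lit 2203) (L (E (nat_lit 11) (nat_lit 0x138896843e20510188083f01ef0014006001) (nat_lit 0))) (L (E (nat_lit 11) (nat_lit 0x13d09c44de265128887c4091f88014006001)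 (nat_lit 0)))) (N (nat_lit 2205) (L (E (nat_lit 11) (nat_lit 0x13889944b421f102880c4041ef0014006001) (nat_lit 0))) (N (nat_lit 2206) (L (E (nat_lit 12) (nat_lit 0x27113749684a221f102880c4041ef0014006001) (nat_lit 0))) (L (E (nat_lit 11) (nat_lit 0x13889684a221f102880c4041ef0014006001) (nat_lit 0)))))))))
def cl43 : RA := N (nat_lit 2239) (N (nat_lit 2220) (N (nat_lit 2209) (N (nat_lit 2208) (L (E (nat_lit 10) (nat_lit 0x9c44b421f102880c4041ef0014006001) (nat_lit 0))) (L (E (nat_lit 7) (nat_lit 0x1b80d946a43478014006001) (nat_lit 0)))) (N (nat_lit 2214) (N (nat_lit 2211) (N (nat_lit 2210) (L (E (nat_lit 9) (nat_lit 0x6ed3611ae8d6a6a63520014006001) (nat_lit 0))) (L (E (nat_lit 16) (nat_lit 0x35913d89c84ce265929092448e21f10247f23f11ef0014006001) (nat_lit 0)))) (N (nat_lit 2212) (L (E (nat_lit 6) (nat_lit 0xa044f32518014006001) (nat_lit 0))) (N (nat_lit 2213) (L (E (nat_lit 17) (nat_lit 0x6b227b13d09e44e4267132c94849224710f88123f11ef0014006001)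 (nat_lit 0))) (L (E (nat_lit 13) (nat_lit 0x6e83641b089e84f226e132c9744a32490014006001) (nat_lit 0)))))) (N (nat_lit 2217) (N (nat_lit 2216) (N (nat_lit 2215) (L (E (nat_lit 19) (nat_lit 0x1bd0dd46c83619a889e44e326f13209744b825212488143f41ef0014006001) (nat_lit 0))) (L (E (nat_lit 19) (nat_lit 0x1c18dd46e83641b0cd444f827913989c64de26412f48884301ee0014006001) (nat_lit 0)))) (L (E (nat_lit 24) (nat_lit 0x37a1ba8dd06c83619a88aac4f2271932c9744a422210608144041fc0fd07bc3dc1560014006001) (nat_lit 0)))) (N (nat_lit 2218) (L (E (nat_lit 22) (nat_lit 0x9ec4f227213689964bc25d124891c43420c10288083f81fa0f807bc3dc14f0014006001) (nat_lit 0))) (N (nat_lit 2219) (L (E (nat_lit 17) (nat_lit 0x70e3759b68d906b23581a88a344f627a13c89a44cb25c8014006001) (nat_lit 0))) (L (E (nat_lit 14) (nat_lit 0xe1c6f03759b20d8c4e426712e89704b42520014006001) (nat_lit 0)))))))) (N (nat_lit 2232) (N (nat_lit 2225) (N (nat_lit 2222) (N (nat_lit 2221)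 (L (E (nat_lit 11) (nat_lit 0x13c89964a321f10288083f81ef0014006001) (nat_lit 0))) (L (E (nat_lit 7) (nat_lit 0x1bacd7c69f34c0014006001) (nat_lit 0)))) (N (nat_lit 2223) (L (E (nat_lit 11) (nat_lit 0x14089964a324910f88144041ef0014006001) (nat_lit 0))) (N (nat_lit 2224) (L (E (nat_lit 16) (nat_lit 0x3801b60d846ba35b1ac0d3c68321f10248083f91ee0014006001) (nat_lit 0))) (L (E (nat_lit 15) (nat_lit 0x1b08d744cb25c928894043e20510107f23de1ee0014006001) (nat_lit 0)))))) (N (nat_lit 2229) (N (nat_lit 2227) (N (nat_lit 2226) (L (E (nat_lit 13) (nat_lit 0x6c2279132c94443e20510107f23de1ee0014006001) (nat_lit 0))) (L (E (nat_lit 9) (nat_lit 0x6c235913209684a220b8014006001) (nat_lit 0)))) (N (nat_lit 2228) (L (E (nat_lit 14) (nat_lit 0xdd46d83611ac8a164e426713209784b825a0014006001) (nat_lit 0))) (L (E (nat_lit 11) (nat_lit 0x1ba8d844cb21f10288083de1ee0014006001) (nat_lit 0))))) (N (nat_lit 2231) (N (nat_lit 2230) (L (E (nat_lit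 16) (nat_lit 0x3801b68db06c235913709904b4251110087c4041f80014006001) (nat_lit 0))) (L (E (nat_lit 10) (nat_lit 0xdd46c226590f88144041ef0014006001) (nat_lit 0)))) (L (E (nat_lit 14) (nat_lit 0x9c84ce25c129087a4092010fd87bc3da1e30014006001) (nat_lit 0)))))) (N (nat_lit 2236) (N (nat_lit 2234) (N (nat_lit 2233) (L (E (nat_lit 22) (nat_lit 0xdb06c03591ac09ec4e426712e088043e21610248083f91f80f787b43c61c50014006001) (nat_lit 0))) (L (E (nat_lit 10) (nat_lit 0x87c41620710248083f81f80014006001) (nat_lit 0)))) (N (nat_lit 2235) (L (E (nat_lit 13) (nat_lit 0x6ea3601ac09c64dd21f10388124041f80014006001) (nat_lit 0))) (L (E (nat_lit 12) (nat_lit 0x271932c94a48121f10388124041f80014006001) (nat_lit 0))))) (N (nat_lit 2237) (L (E (nat_lit 6) (nat_lit 0x55829c13e8014006001) (nat_lit 0))) (N (nat_lit 2238) (L (E (nat_lit 18) (nat_lit 0xdd46c026f132097a4a625212888304062020fc053c28e13e0014006001) (nat_lit 0))) (L (E (nat_lit 16)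 (nat_lit 0x3751a389b44cb25c928887c43420510107f03de13e0014006001) (nat_lit 0)))))))) (N (nat_lit 2259) (N (nat_lit 2242) (N (nat_lit 2240) (L (E (nat_lit 7) (nat_lit 0x1670b345912b50014006001) (nat_lit 0))) (N (nat_lit 2241) (L (E (nat_lit 13) (nat_lit 0x70036d1b20d866b63591a88d1c59a2af0014006001) (nat_lit 0))) (L (E (nat_lit 20) (nat_lit 0x3861b18d866b63511a38b7459a2af13a09b84da25e12808fc4091fb0014006001) (nat_lit 0))))) (N (nat_lit 2250) (N (nat_lit 2245) (N (nat_lit 2243) (L (E (nat_lit 11) (nat_lit 0x1ba89964a221f10288083de13e0014006001) (nat_lit 0))) (N (nat_lit 2244) (L (E (nat_lit 14) (nat_lit 0xe3c6f03759b20d646b035110248083f91f80014006001) (nat_lit 0))) (L (E (nat_lit 18) (nat_lit 0xde06eb3641b00d604f6272132c9784a221f10288083f01ef0014006001) (nat_lit 0))))) (N (nat_lit 2248) (N (nat_lit 2247) (N (nat_lit 2246) (L (E (nat_lit 18) (nat_lit 0xdf86fa3511a389964b9255128893c44421010387ee3f013e0014006001) (nat_lit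 0))) (L (E (nat_lit 11) (nat_lit 0x1b0c9964a221f10808144041ef0014006001) (nat_lit 0)))) (L (E (nat_lit 11) (nat_lit 0x132c94443e21010288083f01ef0014006001) (nat_lit 0)))) (N (nat_lit 2249) (L (E (nat_lit 8) (nat_lit 0x26590f88144041ef0014006001) (nat_lit 0))) (L (E (nat_lit 14) (nat_lit 0xd946c23591ac09bc4ca20b90187bc3dc1ed0014006001) (nat_lit 0)))))) (N (nat_lit 2254) (N (nat_lit 2252) (N (nat_lit 2251) (L (E (nat_lit 9) (nat_lit 0x43e20b10248083f81ee0014006001) (nat_lit 0))) (L (E (nat_lit 12) (nat_lit 0x3651ac099443e20e10287f03f11ef0014006001) (nat_lit 0)))) (N (nat_lit 2253) (L (E (nat_lit 17) (nat_lit 0x7163801be8d946c63611ad0d646a43511a3871436e1ad0014006001) (nat_lit 0))) (L (E (nat_lit 18) (nat_lit 0xdd46d835a1ac8d606a2218108083841820b10188083f81fa8014006001) (nat_lit 0))))) (N (nat_lit 2257) (N (nat_lit 2256) (N (nat_lit 2255) (L (E (nat_lit 21) (nat_lit 0x7023751b68db06b735a1ac8d606a221810187f03f51f80f3077813e0360014006001)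 (nat_lit 0))) (L (E (nat_lit 27) (nat_lit 0x1c08e006ea36c1b50d906c035b9ad0d646b035110c080c3f81fa8fc07983bc1c50dd867813e0360014006001) (nat_lit 0)))) (L (E (nat_lit 27) (nat_lit 0x1c08e006ea36c1b50d906c035a1ac8d606a234710c080c3f81fa8fc07983bc1c50dd867813e0360014006001) (nat_lit 0)))) (N (nat_lit 2258) (L (E (nat_lit 17) (nat_lit 0x51b27b139099c4cc26512f494243e20e10288104062020014006001) (nat_lit 0))) (L (E (nat_lit 23) (nat_lit 0x1c28e006ea36d1b60d906c635a1ac8d606ae35119d0cc06543090e2870034419e0014006001) (nat_lit 0)))))))) (N (nat_lit 2267) (N (nat_lit 2260) (L (E (nat_lit 9) (nat_lit 0x4b421f102880c4041ef0014006001) (nat_lit 0))) (N (nat_lit 2264) (N (nat_lit 2263) (N (nat_lit 2262) (N (nat_lit 2261) (L (E (nat_lit 15) (nat_lit 0x1bacd906c23591ac09944c825290188083f01dd0014006001) (nat_lit 0))) (L (E (nat_lit 20) (nat_lit 0x4181c48dbc6d835914609c84ca26411588144062020fd07e03cb0410014006001) (nat_lit 0)))) (L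 (E (nat_lit 16) (nat_lit 0x3891b20d686b23589a30a304e420e106080c4041fa8014006001) (nat_lit 0)))) (L (E (nat_lit 10) (nat_lit 0xdd66b225a902880c4041ef0014006001) (nat_lit 0)))) (N (nat_lit 2266) (N (nat_lit 2265) (L (E (nat_lit 18) (nat_lit 0xdf86ea358937899444021f10bc81c4092030fe07e83f01ef0014006001) (nat_lit 0))) (L (E (nat_lit 11) (nat_lit 0x1ac487c42f20510188083f41ef0014006001) (nat_lit 0)))) (L (E (nat_lit 13) (nat_lit 0x6fc3751ac499443e20510188083f01ef0014006001) (nat_lit 0)))))) (N (nat_lit 2275) (N (nat_lit 2271) (N (nat_lit 2269) (N (nat_lit 2268) (L (E (nat_lit 9) (nat_lit 0x4e325a902080c4041fc0014006001) (nat_lit 0))) (L (E (nat_lit 10) (nat_lit 0xe0240a20410188083f81f80014006001) (nat_lit 0)))) (N (nat_lit 2270) (L (E (nat_lit 14) (nat_lit 0xdd86ea36e934894c43e20410188083f81ef0014006001) (nat_lit 0))) (L (E (nat_lit 11) (nat_lit 0x10fc814408203100c7f03f61f80014006001) (nat_lit 0))))) (N (nat_lit 2273)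 (N (nat_lit 2272) (L (E (nat_lit 16) (nat_lit 0x3801ba8d906c235a1ac8d604d221f10188083f81fa8014006001) (nat_lit 0))) (L (E (nat_lit 14) (nat_lit 0xd846b226f132898c4a425112808403f61f00014006001) (nat_lit 0)))) (N (nat_lit 2274) (L (E (nat_lit 12) (nat_lit 0x3751ac89a442020310107f03f51f80014006001) (nat_lit 0))) (L (E (nat_lit 8) (nat_lit 0x3751ac880c4041fa8014006001) (nat_lit 0)))))) (N (nat_lit 2276) (L (E (nat_lit 10) (nat_lit 0xe047003649b08d686b23580014006001) (nat_lit 0))) (L (E (nat_lit 8) (nat_lit 0x3879bf0dd46c935a0014006001) (nat_lit 0)))))))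
def cl44 : RA := N (nat_lit 2316) (N (nat_lit 2303) (N (nat_lit 2289) (N (nat_lit 2281) (N (nat_lit 2279) (N (nat_lit 2278) (L (E (nat_lit 17) (nat_lit 0x6fc21f10788104061fe8fe07e83e41ef0f707b43b80520014006001) (nat_lit 0))) (L (E (nat_lit 9) (nat_lit 0x6fc3751b24d746b43590014006001) (nat_lit 0)))) (N (nat_lit 2280) (L (E (nat_lit 9) (nat_lit 0x44021f10c48103f81fa0014006001) (nat_lit 0))) (L (E (nat_lit 14) (nat_lit 0xe1e4de25210f883c41c2040fe07e83f11ef0014006001) (nat_lit 0))))) (N (nat_lit 2285) (N (nat_lit 2283) (N (nat_lit 2282) (L (E (nat_lit 16) (nat_lit 0x3751b70d926ba359137887c41e20e10207f03f41f88014006001) (nat_lit 0))) (L (E (nat_lit 8) (nat_lit 0x22090888163e51e20014006001) (nat_lit 0)))) (N (nat_lit 2284) (L (E (nat_lit 12) (nat_lit 0x3751b20d6a4de21f102c7f03f11f28014006001) (nat_lit 0))) (L (E (nat_lit 12) (nat_lit 0x37e1ba8d686b2218102c7f03f11ef0014006001) (nat_lit 0))))) (N (nat_lit 2287) (N (nat_lit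 2286) (L (E (nat_lit 11) (nat_lit 0x1bf0dd46b221f10207fa3f81f88014006001) (nat_lit 0))) (L (E (nat_lit 14) (nat_lit 0xe087023801bf0dd86ea27b13989544a62490014006001) (nat_lit 0)))) (N (nat_lit 2288) (L (E (nat_lit 18) (nat_lit 0xe1870237e1b70db26ba3591ab89ec4e626f12d09544a524a0014006001) (nat_lit 0))) (L (E (nat_lit 13) (nat_lit 0x6ea36c1b08d686b235713989bc4ca25a0014006001) (nat_lit 0))))))) (N (nat_lit 2297) (N (nat_lit 2293) (N (nat_lit 2291) (N (nat_lit 2290) (L (E (nat_lit 12) (nat_lit 0x3821c08e006d935a1ac8d5c4f62550014006001) (nat_lit 0))) (L (E (nat_lit 14) (nat_lit 0xa084f2266129859c2c215d0a6050c28413d0014006001) (nat_lit 0)))) (N (nat_lit 2292) (L (E (nat_lit 10) (nat_lit 0x59c2c21490a2c4f40ba0430014006001) (nat_lit 0))) (L (E (nat_lit 31) (nat_lit 0x1c30e046ea36e1b08d746b43591ab8c9461627b13989bc4ca25a12a892838c1bb0d406882c214809e84bc1a005d0014006001) (nat_lit 0))))) (N (nat_lit 2295) (N (nat_lit 2294)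 (L (E (nat_lit 31) (nat_lit 0x1c30e046ea36e1b08d746b43591ab8c9461627b13989bc4b4255127892838c1bb0d406882c214809e84bc1a005d0014006001) (nat_lit 0))) (L (E (nat_lit 11) (nat_lit 0x1ba8db86d43641ad4d624f62550014006001) (nat_lit 0)))) (N (nat_lit 2296) (L (E (nat_lit 13) (nat_lit 0x7023801b70d906c63611ad8d646b03520014006001) (nat_lit 0))) (L (E (nat_lit 18) (nat_lit 0xe046ea3641b08d6a6ae35213d895444421910388164061fc0014006001) (nat_lit 0)))))) (N (nat_lit 2300) (N (nat_lit 2298) (L (E (nat_lit 10) (nat_lit 0xe046ed36f1b70d746b53590014006001) (nat_lit 0))) (N (nat_lit 2299) (L (E (nat_lit 30) (nat_lit 0xe187023611ac8d484f627312d092844421e10c881c40b2030f807bc3dc1ed0f507943bc1c60b084f41a005d0014006001) (nat_lit 0))) (L (E (nat_lit 20) (nat_lit 0x3811ba8d926c235a1ac8d484b425211008584041cc0e306fc3721610014006001) (nat_lit 0))))) (N (nat_lit 2302) (N (nat_lit 2301) (L (E (nat_lit 18) (nat_lit 0xef877a3bc1dd0ed87683b31d905382981450a184f42761350014006001)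 (nat_lit 0))) (L (E (nat_lit 12) (nat_lit 0x3c41de8ef076c3b51da0ecc7643ac1d28e90736) (nat_lit 0)))) (L (E (nat_lit 27) (nat_lit 0x1f48f947883be1de8ef07743b61da0ecc7583a41cd8ca063c20c8b085602981450a184f42761350014006001) (nat_lit 0))))))) (N (nat_lit 2313) (N (nat_lit 2311) (N (nat_lit 2307) (N (nat_lit 2305) (N (nat_lit 2304) (L (E (nat_lit 28) (nat_lit 0x3bc1db0eb070e3861c08dd46dc3641b18d846b43591ac09ec4f425a129088042c1690b0853028a13d0014006001) (nat_lit 0))) (L (E (nat_lit 12) (nat_lit 0x36f1b70db46d43641ad8d1c4de2520014006001) (nat_lit 0)))) (N (nat_lit 2306) (L (E (nat_lit 17) (nat_lit 0x76e3b61d90db250a27a137899c4b825a12908e42c215d0014006001) (nat_lit 0))) (L (E (nat_lit 7) (nat_lit 0x16b8b185672ac8014006001) (nat_lit 0))))) (N (nat_lit 2309) (N (nat_lit 2308) (L (E (nat_lit 14) (nat_lit 0xb7c5b02d715649964ae23f91c857429a1450014006001) (nat_lit 0))) (L (E (nat_lit 30) (nat_lit 0xef076c3ac1c30e026ea36e1b20d846b43591ac0d4850427b13389684a423811008584041690b0853028a13d0014006001)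 (nat_lit 0)))) (N (nat_lit 2310) (L (E (nat_lit 31) (nat_lit 0x1de0ed87583861c08dd46dc3641b08d686b23581a90a084f627313389684a423811008584041690b0853028a13d0014006001) (nat_lit 0))) (L (E (nat_lit 8) (nat_lit 0x3811c00db26b23588014006001) (nat_lit 0)))))) (N (nat_lit 2312) (L (E (nat_lit 9) (nat_lit 0x6ea359102080c4041fc0014006001) (nat_lit 0))) (L (E (nat_lit 10) (nat_lit 0xe0470036e1b68d906b43588014006001) (nat_lit 0))))) (N (nat_lit 2315) (N (nat_lit 2314) (L (E (nat_lit 14) (nat_lit 0xdd46d83611ad0d6444021810388123f81a30014006001) (nat_lit 0))) (L (E (nat_lit 11) (nat_lit 0x1ba8db86b4358903880c4041fc0014006001) (nat_lit 0)))) (L (E (nat_lit 8) (nat_lit 0x3819b70d686b23580014006001) (nat_lit 0)))))) (N (nat_lit 2335) (N (nat_lit 2325) (N (nat_lit 2320) (N (nat_lit 2318) (N (nat_lit 2317) (L (E (nat_lit 7) (nat_lit 0x10788324091fc0014006001) (nat_lit 0))) (L (E (nat_lit 9) (nat_lit 0x70137d9ba8d686b23580014006001)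 (nat_lit 0)))) (N (nat_lit 2319) (L (E (nat_lit 13) (nat_lit 0x7013751b08d686b2358103880c4041fc0014006001) (nat_lit 0))) (L (E (nat_lit 13) (nat_lit 0x70436e1b64d686b234f911081c4041fc0014006001) (nat_lit 0))))) (N (nat_lit 2324) (N (nat_lit 2322) (N (nat_lit 2321) (L (E (nat_lit 11) (nat_lit 0x1c00db86da36c1b08d686b23580014006001) (nat_lit 0))) (L (E (nat_lit 13) (nat_lit 0x70036e1b60d686b23581a7c8124041fc0014006001) (nat_lit 0)))) (N (nat_lit 2323) (L (E (nat_lit 11) (nat_lit 0x1ba8db86b4359103880c4041fc0014006001) (nat_lit 0))) (L (E (nat_lit 9) (nat_lit 0x7013751b68d6a40e1fc0014006001) (nat_lit 0))))) (L (E (nat_lit 10) (nat_lit 0xe047003769b70db46c235a8014006001) (nat_lit 0))))) (N (nat_lit 2330) (N (nat_lit 2327) (N (nat_lit 2326) (L (E (nat_lit 15) (nat_lit 0x1c00dda6dc3641b18d846b220710248083f81ef0014006001) (nat_lit 0))) (L (E (nat_lit 6) (nat_lit 0x8123f11ef0014006001) (nat_lit 0)))) (N (nat_lit 2328)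 (L (E (nat_lit 9) (nat_lit 0x6ea36e1ac880c4041fc0014006001) (nat_lit 0))) (N (nat_lit 2329) (L (E (nat_lit 7) (nat_lit 0x10fc8123f81ef0014006001) (nat_lit 0))) (L (E (nat_lit 8) (nat_lit 0x35a90388124041fc0014006001) (nat_lit 0)))))) (N (nat_lit 2333) (N (nat_lit 2332) (N (nat_lit 2331) (L (E (nat_lit 11) (nat_lit 0x1ba8db06c2359103880c4041fc0014006001) (nat_lit 0))) (L (E (nat_lit 9) (nat_lit 0x6f036c90388124041fc0014006001) (nat_lit 0)))) (L (E (nat_lit 7) (nat_lit 0x10fc8124041fc0014006001) (nat_lit 0)))) (N (nat_lit 2334) (L (E (nat_lit 9) (nat_lit 0x7de336111056629e13c0014006001) (nat_lit 0))) (L (E (nat_lit 26) (nat_lit 0xfbc70636f1b20cd85842a914e89bc4cc26512d09484a024f11c88882d21620ab053c28a1430014006001) (nat_lit 0))))))) (N (nat_lit 2346) (N (nat_lit 2339) (N (nat_lit 2337) (N (nat_lit 2336) (L (E (nat_lit 28) (nat_lit 0x3ef1c18dda6de36d1ac8d0467e33e16109bc4ce26612d094849e23910f883c4181fb8f907b62ac1450014006001)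 (nat_lit 0))) (L (E (nat_lit 8) (nat_lit 0x3751ac880c4041fc0014006001) (nat_lit 0)))) (N (nat_lit 2338) (L (E (nat_lit 18) (nat_lit 0xdd66da35b9a609b84ba25a10b885041f1ef8f187882ac14f0014006001) (nat_lit 0))) (L (E (nat_lit 19) (nat_lit 0x1428a0c50227c13d89dc4a321a10c88143f41690a7853828a1430014006001) (nat_lit 0))))) (N (nat_lit 2343) (N (nat_lit 2341) (N (nat_lit 2340) (L (E (nat_lit 22) (nat_lit 0xd906ae2a91428a0c4f627713709964b921a10c88143f41690ab053c28a1430014006001) (nat_lit 0))) (L (E (nat_lit 18) (nat_lit 0xd906ae2a914289d04de26e13309944bc25a12805882a01470014006001) (nat_lit 0)))) (N (nat_lit 2342) (L (E (nat_lit 8) (nat_lit 0x36e9b0c8124041fc0014006001) (nat_lit 0))) (L (E (nat_lit 12) (nat_lit 0x3759b74d846b2277132c87c4311fb8014006001) (nat_lit 0))))) (N (nat_lit 2345) (N (nat_lit 2344) (L (E (nat_lit 18) (nat_lit 0xdba6c235913b89b84cb240111087c42e21410388083f71f20014006001) (nat_lit 0))) (L (E (nat_lit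 7) (nat_lit 0x10b885842820f8014006001) (nat_lit 0)))) (L (E (nat_lit 15) (nat_lit 0x1b74d846b227712d090040e20490188083f81dd0014006001) (nat_lit 0)))))) (L (E (nat_lit 6) (nat_lit 0x74c38a1ac8014006001) (nat_lit 0)))))
def cl45 : RA := N (nat_lit 2105) (N (nat_lit 2003) (N (nat_lit 1925) (cl37) (N (nat_lit 1968) (cl38) (N (nat_lit 1989) (N (nat_lit 1978) (N (nat_lit 1972) (N (nat_lit 1971) (N (nat_lit 1970) (N (nat_lit 1969) (L (E (nat_lit 8) (nat_lit 0x35990f88124041fc0014006001) (nat_lit 0))) (L (E (nat_lit 10) (nat_lit 0x99c4cc25a902080c4041fc0014006001) (nat_lit 0)))) (L (E (nat_lit 5) (nat_lit 0x43e21610207be001) (nat_lit 0)))) (L (E (nat_lit 7) (nat_lit 0x2f015e0a404e0014006001) (nat_lit 0)))) (N (nat_lit 1975) (N (nat_lit 1974) (N (nat_lit 1973) (L (E (nat_lit 14) (nat_lit 0xd6650a279932899245e21f10708104061ed0014006001) (nat_lit 0))) (L (E (nat_lit 13) (nat_lit 0x6f13511a788bc43e20c90207e83ec1e20014006001)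 (nat_lit 0)))) (L (E (nat_lit 18) (nat_lit 0xe086c635a1a88d3c45e21f10b88104061fc0fd07d83da1e50014006001) (nat_lit 0)))) (N (nat_lit 1977) (N (nat_lit 1976) (L (E (nat_lit 19) (nat_lit 0x1ad0d3c50327b13d09e44cc26513188bc43e20410187f03dc1ed0014006001) (nat_lit 0))) (L (E (nat_lit 16) (nat_lit 0x38c1b28d4869e22f10f885041c20c90207cc3dc1ed0014006001) (nat_lit 0)))) (L (E (nat_lit 9) (nat_lit 0x41c20310107ea3dc1e70014006001) (nat_lit 0)))))) (N (nat_lit 1985) (N (nat_lit 1983) (N (nat_lit 1981) (N (nat_lit 1980) (N (nat_lit 1979) (L (E (nat_lit 10) (nat_lit 0xd664e326510f880c4041fc0014006001) (nat_lit 0))) (L (E (nat_lit 12) (nat_lit 0x359932c86442d2058ff47f016e04a0014006001) (nat_lit 0)))) (L (E (nat_lit 14) (nat_lit 0xd664cb21f10c883040b2030ff47f016e04a0014006001) (nat_lit 0)))) (N (nat_lit 1982) (L (E (nat_lit 11) (nat_lit 0x10f886443021610a082c3f81f88014006001) (nat_lit 0))) (L (E (nat_lit 19) (nat_lit 0x1fd0bf04e326e132c94445621f10f086442c20b0fe07e23e10520014006001)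 (nat_lit 0))))) (N (nat_lit 1984) (L (E (nat_lit 9) (nat_lit 0x6b327190f880c4041fc0014006001) (nat_lit 0))) (L (E (nat_lit 10) (nat_lit 0x86041e20e10648103f81ee0014006001) (nat_lit 0))))) (N (nat_lit 1986) (L (E (nat_lit 10) (nat_lit 0xa14506281137899a4ca2640014006001) (nat_lit 0))) (N (nat_lit 1988) (N (nat_lit 1987) (L (E (nat_lit 15) (nat_lit 0x1c68e1c70a37d1ba8dd06dc35994189e84e22670014006001) (nat_lit 0))) (L (E (nat_lit 11) (nat_lit 0x1acc9c443e21610708103f81fa0014006001) (nat_lit 0)))) (L (E (nat_lit 10) (nat_lit 0xd6643e216107080c4041fc0014006001) (nat_lit 0))))))) (N (nat_lit 1993) (N (nat_lit 1991) (N (nat_lit 1990) (L (E (nat_lit 6) (nat_lit 0x86242d1fc0014006001) (nat_lit 0))) (L (E (nat_lit 14) (nat_lit 0xe2470a3741accd4450727113709944b42030014006001) (nat_lit 0)))) (N (nat_lit 1992) (L (E (nat_lit 19) (nat_lit 0x1e48e185ae28c1418a044f4271137099c4ca25a128891c43e1680014006001) (nat_lit 0))) (L (E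 (nat_lit 9) (nat_lit 0x6b321f107080c4041fc0014006001) (nat_lit 0))))) (N (nat_lit 1996) (N (nat_lit 1995) (N (nat_lit 1994) (L (E (nat_lit 18) (nat_lit 0xdb86b327a92f09684a424710f88304062010ffc73c37e1ab0014006001) (nat_lit 0))) (L (E (nat_lit 22) (nat_lit 0xdb86b328313c89c44ce26512f09684a424710f88304062010ffc73c37e1ab0014006001) (nat_lit 0)))) (L (E (nat_lit 17) (nat_lit 0x6c228c14289e84e226e13389944bc25a129094448e2030014006001) (nat_lit 0)))) (N (nat_lit 2000) (N (nat_lit 1998) (N (nat_lit 1997) (L (E (nat_lit 18) (nat_lit 0xdb86b3279138899c4ca21f10c085c41e20e10608104062020014006001) (nat_lit 0))) (L (E (nat_lit 13) (nat_lit 0x50227b13d09c44ca25e12d07c83e01ee0014006001) (nat_lit 0)))) (N (nat_lit 1999) (L (E (nat_lit 7) (nat_lit 0x14a49e84f22728014006001) (nat_lit 0))) (L (E (nat_lit 18) (nat_lit 0xa044f627a13c89c44ce26512f085c42820310107c83e01ee0014006001) (nat_lit 0))))) (N (nat_lit 2001) (L (E (nat_lit 7)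 (nat_lit 0x14089ea4ce25a8014006001) (nat_lit 0))) (N (nat_lit 2002) (L (E (nat_lit 13) (nat_lit 0x51e28593d49c84e226e13389944b42510014006001) (nat_lit 0))) (L (E (nat_lit 13) (nat_lit 0x50227b13d49c84e226e13389944bc2510014006001) (nat_lit 0))))))))))) (N (nat_lit 2045) (cl39) (cl40))) (N (nat_lit 2207) (N (nat_lit 2154) (cl41) (cl42)) (N (nat_lit 2277) (cl43) (cl44)))
def cl46 : RA := N (nat_lit 2361) (N (nat_lit 2358) (N (nat_lit 2352) (N (nat_lit 2351) (N (nat_lit 2349) (N (nat_lit 2348) (L (E (nat_lit 8) (nat_lit 0x36e9ac88124041fc0014006001) (nat_lit 0))) (L (E (nat_lit 14) (nat_lit 0xdb86da3641ad0d644b520510188083f81fa0014006001) (nat_lit 0)))) (N (nat_lit 2350) (L (E (nat_lit 14) (nat_lit 0xdd66dc3641b08d686b221f10b88123f81f20014006001) (nat_lit 0))) (L (E (nat_lit 9) (nat_lit 0x6c835a1ac88124041fc0014006001) (nat_lit 0))))) (L (E (nat_lit 6) (nat_lit 0xdd66c93590014006001) (nat_lit 0)))) (N (nat_lit 2354)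 (N (nat_lit 2353) (L (E (nat_lit 8) (nat_lit 0x3759b70db46c835a8014006001) (nat_lit 0))) (L (E (nat_lit 10) (nat_lit 0xdb86da3611ac880c4041fc0014006001) (nat_lit 0)))) (N (nat_lit 2356) (N (nat_lit 2355) (L (E (nat_lit 10) (nat_lit 0xd906b220510188083f81ef8014006001) (nat_lit 0))) (L (E (nat_lit 11) (nat_lit 0x1b20d644b420c102880c4041fc0014006001) (nat_lit 0)))) (N (nat_lit 2357) (L (E (nat_lit 10) (nat_lit 0xd8c68c29210fc8504181f88014006001) (nat_lit 0))) (L (E (nat_lit 13) (nat_lit 0x6e83641ac8d184de25a106080c4041fc0014006001) (nat_lit 0))))))) (N (nat_lit 2360) (N (nat_lit 2359) (L (E (nat_lit 6) (nat_lit 0x8163f81f80014006001) (nat_lit 0))) (L (E (nat_lit 8) (nat_lit 0x35912d480c4041fc0014006001) (nat_lit 0)))) (L (E (nat_lit 7) (nat_lit 0x1ac880c4041fc0014006001) (nat_lit 0))))) (N (nat_lit 2375) (N (nat_lit 2370) (N (nat_lit 2364) (N (nat_lit 2363) (N (nat_lit 2362) (L (E (nat_lit 8) (nat_lit 0x3759ac880c3f81ef0014006001)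 (nat_lit 0))) (L (E (nat_lit 9) (nat_lit 0x45f21910b88384051fb8014006001) (nat_lit 0)))) (L (E (nat_lit 13) (nat_lit 0x4de26412d09402f01610a785142781330014006001) (nat_lit 0)))) (N (nat_lit 2367) (N (nat_lit 2365) (L (E (nat_lit 8) (nat_lit 0x3759ac89684061fc0014006001) (nat_lit 0))) (N (nat_lit 2366) (L (E (nat_lit 14) (nat_lit 0xdd46dd36c1ad0d644de26513209684a42500014006001) (nat_lit 0))) (L (E (nat_lit 13) (nat_lit 0x6ea36e9b60d686b227a93789904942470014006001) (nat_lit 0))))) (N (nat_lit 2369) (N (nat_lit 2368) (L (E (nat_lit 10) (nat_lit 0xa4450a28314109e84ce2658014006001) (nat_lit 0))) (L (E (nat_lit 17) (nat_lit 0x4da26592e494048e22a111088042820f10288104051ef8014006001) (nat_lit 0)))) (L (E (nat_lit 25) (nat_lit 0x7023751b74d866a43461a28a4450a28213789b44a024a12388a844421410788104051ef8014006001) (nat_lit 0)))))) (N (nat_lit 2372) (N (nat_lit 2371) (L (E (nat_lit 26) (nat_lit 0xe046ea36e9b0cd4868a3331488a084da25012508a844422010a083c4082028f7c74c35c19f0014006001)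 (nat_lit 0))) (L (E (nat_lit 6) (nat_lit 0x74c35919f0014006001) (nat_lit 0)))) (N (nat_lit 2374) (N (nat_lit 2373) (L (E (nat_lit 21) (nat_lit 0x70236e1b68db06b735914109ea4dc26713289904b41690b0855829a13b8014006001) (nat_lit 0))) (L (E (nat_lit 28) (nat_lit 0x3811b20d866a43451998a4450427b136894049422a110085041e20410147be3a61ae0cf85e02c214f0014006001) (nat_lit 0)))) (L (E (nat_lit 21) (nat_lit 0x7183811ba8db06c83611ad0d646b028213989b44ba25a10187e02c214f0014006001) (nat_lit 0)))))) (N (nat_lit 2385) (N (nat_lit 2380) (N (nat_lit 2378) (N (nat_lit 2377) (N (nat_lit 2376) (L (E (nat_lit 27) (nat_lit 0x1c60e046ea36e1b20d846b43591ac0a084f627313689744b425010187e02f01610a7851428613d0014006001) (nat_lit 0))) (L (E (nat_lit 30) (nat_lit 0xe306ea3641ac8d6066629114109744b425011788a844021710b083840a20410147be3c61d30d705e029e1430014006001) (nat_lit 0)))) (L (E (nat_lit 8) (nat_lit 0x35912d080c3f81ef8014006001) (nat_lit 0))))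 (N (nat_lit 2379) (L (E (nat_lit 13) (nat_lit 0x7263751b74db06b435114909c84b92560014006001) (nat_lit 0))) (L (E (nat_lit 18) (nat_lit 0xe4c6ea36e9b60d4452427c13d09e44e426412e49684ac2390014006001) (nat_lit 0))))) (N (nat_lit 2382) (N (nat_lit 2381) (L (E (nat_lit 7) (nat_lit 0x1ac89684061fc0014006001) (nat_lit 0))) (L (E (nat_lit 10) (nat_lit 0xdd46dc3641b08d6a4061fc0014006001) (nat_lit 0)))) (N (nat_lit 2384) (N (nat_lit 2383) (L (E (nat_lit 10) (nat_lit 0xdd46dc36c1b20d644061fc0014006001) (nat_lit 0))) (L (E (nat_lit 21) (nat_lit 0x7043781bb0dd46dc35a1ac8d6068c2df1630a3851a28914289ec4b52520014006001) (nat_lit 0)))) (L (E (nat_lit 14) (nat_lit 0xe026ea3611ad0d646b01d30e4071837e1bd0014006001) (nat_lit 0)))))) (N (nat_lit 2387) (N (nat_lit 2386) (L (E (nat_lit 9) (nat_lit 0x2e416f0b4859c2be1560014006001) (nat_lit 0))) (L (E (nat_lit 8) (nat_lit 0x1690b385662ad14f0014006001) (nat_lit 0)))) (N (nat_lit 2391) (N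 (nat_lit 2389) (N (nat_lit 2388) (L (E (nat_lit 28) (nat_lit 0x3821b70db26c835a1ac0d3e5be28e1468a2450a28212d494845420f106082c3f81d30bc05bc29e1430014006001) (nat_lit 0))) (L (E (nat_lit 7) (nat_lit 0x10fc83e3dc1e30014006001) (nat_lit 0)))) (N (nat_lit 2390) (L (E (nat_lit 28) (nat_lit 0x3821b70db26c835a1ac0d3e5be28d1448a1450427a12d494845420f106082c3f81d30bc05bc29e1430014006001) (nat_lit 0))) (L (E (nat_lit 9) (nat_lit 0x6ea36e1ac880c3f81ef8014006001) (nat_lit 0))))) (N (nat_lit 2393) (N (nat_lit 2392) (L (E (nat_lit 9) (nat_lit 0x6ea36e1b20d644061fc0014006001) (nat_lit 0))) (L (E (nat_lit 13) (nat_lit 0x6fc3781ba8d646ae27a933896a4182030014006001) (nat_lit 0)))) (N (nat_lit 2394) (L (E (nat_lit 7) (nat_lit 0x108880a3f81ef0014006001) (nat_lit 0))) (L (E (nat_lit 10) (nat_lit 0xdba6d935913d09444a01fc0014006001) (nat_lit 0)))))))))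
def cl47 : RA := N (nat_lit 2425) (N (nat_lit 2401) (N (nat_lit 2398) (N (nat_lit 2397) (N (nat_lit 2396) (L (E (nat_lit 13) (nat_lit 0x6ea36c1b20d8c6c235910187f03f01ef8014006001) (nat_lit 0))) (L (E (nat_lit 8) (nat_lit 0x3751b20d644061fc0014006001) (nat_lit 0)))) (L (E (nat_lit 9) (nat_lit 0x6ec36c1b0880a3f81ef0014006001) (nat_lit 0)))) (N (nat_lit 2399) (L (E (nat_lit 7) (nat_lit 0x1b20d644061fc0014006001) (nat_lit 0))) (N (nat_lit 2400) (L (E (nat_lit 11) (nat_lit 0x12d494c4a422010788304041fc0014006001) (nat_lit 0))) (L (E (nat_lit 8) (nat_lit 0x22b10c480e3f71ef8014006001) (nat_lit 0)))))) (N (nat_lit 2413) (N (nat_lit 2409) (N (nat_lit 2405) (N (nat_lit 2404) (N (nat_lit 2403) (N (nat_lit 2402) (L (E (nat_lit 11) (nat_lit 0x1baca084f420f101c7f03f71ef8014006001) (nat_lit 0))) (L (E (nat_lit 14) (nat_lit 0xdd66da35914109e84ee2038fe07ee3df1bf0014006001) (nat_lit 0)))) (L (E (nat_lit 17) (nat_lit 0x6eb36d1b20d8c6b227a925083e4082020fe07be37e1b30014006001)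 (nat_lit 0)))) (L (E (nat_lit 7) (nat_lit 0x10c480e3f71ef8014006001) (nat_lit 0)))) (N (nat_lit 2407) (N (nat_lit 2406) (L (E (nat_lit 16) (nat_lit 0x3759ad0d6451828193d49b84b421810787ee2901450014006001) (nat_lit 0))) (L (E (nat_lit 11) (nat_lit 0x1bacd906b225310787f03f71ef8014006001) (nat_lit 0)))) (N (nat_lit 2408) (L (E (nat_lit 16) (nat_lit 0x3781bacd6450427a13c89dc4dc25a101c7f03f71ef8014006001) (nat_lit 0))) (L (E (nat_lit 17) (nat_lit 0x6f03759ac8a084f427913b89c84dc249901c7f03f71ef8014006001) (nat_lit 0)))))) (N (nat_lit 2410) (L (E (nat_lit 8) (nat_lit 0x3759b20d643f81ef8014006001) (nat_lit 0))) (N (nat_lit 2412) (N (nat_lit 2411) (L (E (nat_lit 15) (nat_lit 0x1c00dd66da35b9ac8d6041f2040fdc7bc3dc1bf0014006001) (nat_lit 0))) (L (E (nat_lit 8) (nat_lit 0x27a93749944ba25a0014006001) (nat_lit 0)))) (L (E (nat_lit 16) (nat_lit 0x3819c00dd66c635a1ac8d606a220f90207ee3de1ee0014006001) (nat_lit 0)))))) (N (nat_lit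 2419) (N (nat_lit 2416) (N (nat_lit 2415) (N (nat_lit 2414) (L (E (nat_lit 10) (nat_lit 0xdd66b228213d496841f1fb8014006001) (nat_lit 0))) (L (E (nat_lit 11) (nat_lit 0x1ba0d644f526f12d488041f2020014006001) (nat_lit 0)))) (L (E (nat_lit 10) (nat_lit 0xdd66c835913d483e3f81fb8014006001) (nat_lit 0)))) (N (nat_lit 2418) (N (nat_lit 2417) (L (E (nat_lit 7) (nat_lit 0x1bacd644f51fb8014006001) (nat_lit 0))) (L (E (nat_lit 9) (nat_lit 0x6eb36413d48aa4071fa8014006001) (nat_lit 0)))) (L (E (nat_lit 15) (nat_lit 0x1c38dd66dd35913d49704312038fe07ec3e01e60014006001) (nat_lit 0))))) (N (nat_lit 2420) (L (E (nat_lit 8) (nat_lit 0x3759b20d644f51fc0014006001) (nat_lit 0))) (N (nat_lit 2423) (N (nat_lit 2422) (N (nat_lit 2421) (L (E (nat_lit 8) (nat_lit 0x3759b50a305052508014006001) (nat_lit 0))) (L (E (nat_lit 11) (nat_lit 0x1c38dd66dd28f14609c84b825a0014006001) (nat_lit 0)))) (L (E (nat_lit 12) (nat_lit 0x3759b20a3050a25090b883e4071fa8014006001)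 (nat_lit 0)))) (N (nat_lit 2424) (L (E (nat_lit 10) (nat_lit 0xdd66c827a12d083e4071fa8014006001) (nat_lit 0))) (L (E (nat_lit 6) (nat_lit 0xa0a4ce25a8014006001) (nat_lit 0))))))))) (N (nat_lit 2433) (N (nat_lit 2432) (N (nat_lit 2427) (N (nat_lit 2426) (L (E (nat_lit 6) (nat_lit 0x9c64b52528014006001) (nat_lit 0))) (L (E (nat_lit 14) (nat_lit 0xdd66c23591ac0864430210102880e3f61f00014006001) (nat_lit 0)))) (N (nat_lit 2428) (L (E (nat_lit 9) (nat_lit 0x50427213889bc4dc2580014006001) (nat_lit 0))) (N (nat_lit 2430) (N (nat_lit 2429) (L (E (nat_lit 10) (nat_lit 0xdd66c835913d083e4071fa8014006001) (nat_lit 0))) (L (E (nat_lit 14) (nat_lit 0x10407f03e81ee0f5c7023761b74db06c23590014006001) (nat_lit 0)))) (N (nat_lit 2431) (L (E (nat_lit 17) (nat_lit 0x7b837d9b60d906c635a1ac8a3851828213dc9704b52530014006001) (nat_lit 0))) (L (E (nat_lit 15) (nat_lit 0x1ee0dd86e836c1b20d8c6b228c14109c84b52528014006001) (nat_lit 0)))))))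 (L (E (nat_lit 9) (nat_lit 0x4de26512a89484a22500014006001) (nat_lit 0)))) (N (nat_lit 2446) (N (nat_lit 2440) (N (nat_lit 2437) (N (nat_lit 2435) (N (nat_lit 2434) (L (E (nat_lit 15) (nat_lit 0x1bb0dd06d83641b18d6464a28c137896a4aa20c0014006001) (nat_lit 0))) (L (E (nat_lit 10) (nat_lit 0xdd66c835914149683f51f28014006001) (nat_lit 0)))) (N (nat_lit 2436) (L (E (nat_lit 7) (nat_lit 0x146ca084e32528014006001) (nat_lit 0))) (L (E (nat_lit 14) (nat_lit 0xdd66dd3601adcd3051b282139094a4a12038014006001) (nat_lit 0))))) (N (nat_lit 2439) (N (nat_lit 2438) (L (E (nat_lit 13) (nat_lit 0x6eb3631b0cd7451b282139094a4a12038014006001) (nat_lit 0))) (L (E (nat_lit 11) (nat_lit 0x1bacd846b235811008604071fa8014006001) (nat_lit 0)))) (L (E (nat_lit 13) (nat_lit 0x6eb3619ae8a3650425292848aa4071fc0014006001) (nat_lit 0))))) (N (nat_lit 2443) (N (nat_lit 2442) (N (nat_lit 2441) (L (E (nat_lit 21) (nat_lit 0x64e32018c0b285902c610287ec3cd1b40d6863029c13506f03381940a50014006001)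 (nat_lit 0))) (L (E (nat_lit 27) (nat_lit 0x2050f5872037b9bacdba6c33511938c6058c2110fe07ec3ce1e50f106b429c13506f03381940a50014006001) (nat_lit 0)))) (L (E (nat_lit 25) (nat_lit 0x6eb3641b18d866ba3591a88a1450327292d09444401fc0fd879c3ca1e20d6853826a0de0014006001) (nat_lit 0)))) (N (nat_lit 2444) (L (E (nat_lit 15) (nat_lit 0x1bacdb86c63619ae8d686b235813909704b42520014006001) (nat_lit 0))) (N (nat_lit 2445) (L (E (nat_lit 18) (nat_lit 0xdd66dc3641b18d866ba3591ac0a084e426513189704b42520014006001) (nat_lit 0))) (L (E (nat_lit 9) (nat_lit 0x6eb3641ac88603f81fa8014006001) (nat_lit 0))))))) (N (nat_lit 2449) (N (nat_lit 2447) (L (E (nat_lit 8) (nat_lit 0x3759b20d643f81fb0014006001) (nat_lit 0))) (N (nat_lit 2448) (L (E (nat_lit 10) (nat_lit 0xd8c68c282937896a4301fc0014006001) (nat_lit 0))) (L (E (nat_lit 11) (nat_lit 0x137896a4a4220101c7f03e01ef0014006001) (nat_lit 0))))) (N (nat_lit 2451) (N (nat_lit 2450) (L (E (nat_lit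 14) (nat_lit 0xf706ec3741b20d8c6b226f12d494a4301fc0014006001) (nat_lit 0))) (L (E (nat_lit 13) (nat_lit 0x6eb3641ac89744b522010287f03f41f00014006001) (nat_lit 0)))) (N (nat_lit 2452) (L (E (nat_lit 10) (nat_lit 0xe046eb36e1ac89704b41fc0014006001) (nat_lit 0))) (L (E (nat_lit 14) (nat_lit 0xde06dc3631ad0d6451b28213389704a62510014006001) (nat_lit 0))))))))
def cl48 : RA := N (nat_lit 2490) (N (nat_lit 2467) (N (nat_lit 2460) (N (nat_lit 2459) (N (nat_lit 2456) (N (nat_lit 2454) (L (E (nat_lit 7) (nat_lit 0x1bc4dd66b23580014006001) (nat_lit 0))) (N (nat_lit 2455) (L (E (nat_lit 10) (nat_lit 0xdd66dc3631ac8a084b42528014006001) (nat_lit 0))) (L (E (nat_lit 23) (nat_lit 0x1e80e046ea3601ac8d6063231718a89f04f327212f09704b42030fd87e03680bb0014006001) (nat_lit 0))))) (N (nat_lit 2458) (N (nat_lit 2457) (L (E (nat_lit 20) (nat_lit 0x3d01c08dd46c03591ac0c6462a28213d09964bc2528fd87e03680bb0014006001) (nat_lit 0))) (L (E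 (nat_lit 9) (nat_lit 0x6dc3631b0ca084a51fc8014006001) (nat_lit 0)))) (L (E (nat_lit 9) (nat_lit 0x6b225c12d080c3f81ef0014006001) (nat_lit 0))))) (L (E (nat_lit 8) (nat_lit 0x28213309944b42528014006001) (nat_lit 0)))) (N (nat_lit 2465) (N (nat_lit 2463) (N (nat_lit 2461) (L (E (nat_lit 10) (nat_lit 0xdb86c63619ac8a084b42528014006001) (nat_lit 0))) (N (nat_lit 2462) (L (E (nat_lit 11) (nat_lit 0x1c4cdf86ea36e1b68db06c635a0014006001) (nat_lit 0))) (L (E (nat_lit 10) (nat_lit 0xdb86c635914109944b42528014006001) (nat_lit 0))))) (N (nat_lit 2464) (L (E (nat_lit 9) (nat_lit 0x6dc3631ac8a084b42528014006001) (nat_lit 0))) (L (E (nat_lit 12) (nat_lit 0x3751b70d8c6b228313c89964c62528014006001) (nat_lit 0))))) (N (nat_lit 2466) (L (E (nat_lit 8) (nat_lit 0x28293289684a51fc8014006001) (nat_lit 0))) (L (E (nat_lit 10) (nat_lit 0xa3050527a13349684a524b0014006001) (nat_lit 0)))))) (N (nat_lit 2478) (N (nat_lit 2470) (N (nat_lit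 2468) (L (E (nat_lit 6) (nat_lit 0x8423f81e60014006001) (nat_lit 0))) (N (nat_lit 2469) (L (E (nat_lit 27) (nat_lit 0x1d20d906b23581860a0a4f427213889b84cc26512d094c4a224b124891c48c20f0fb07b428613b0014006001) (nat_lit 0))) (L (E (nat_lit 10) (nat_lit 0x8ac44422010f884040e2038014006001) (nat_lit 0))))) (N (nat_lit 2474) (N (nat_lit 2473) (N (nat_lit 2472) (N (nat_lit 2471) (L (E (nat_lit 17) (nat_lit 0x7d83641ac8a0a4f425a129492c44020f10287f03ce1d30014006001) (nat_lit 0))) (L (E (nat_lit 13) (nat_lit 0x44422010f885c41e205101c7f03de1e70014006001) (nat_lit 0)))) (L (E (nat_lit 13) (nat_lit 0x6f13641b0cd6450525a12948144071fc0014006001) (nat_lit 0)))) (L (E (nat_lit 29) (nat_lit 0x75e3a41c30d906b235816b8a1c50627a13889b84ca25d12d09624a6251123887c3f81ed0f305a029213b0014006001) (nat_lit 0)))) (N (nat_lit 2476) (N (nat_lit 2475) (L (E (nat_lit 13) (nat_lit 0x6ea36e1b20d8c6b235812d094a40a2038014006001) (nat_lit 0))) (L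 (E (nat_lit 13) (nat_lit 0x6de36e1b60d5e50525d12989423f81fa8014006001) (nat_lit 0)))) (N (nat_lit 2477) (L (E (nat_lit 11) (nat_lit 0x1ba8db86c63591ac09944b42528014006001) (nat_lit 0))) (L (E (nat_lit 12) (nat_lit 0x3751b70d8c6b228313c898c4b42528014006001) (nat_lit 0))))))) (N (nat_lit 2484) (N (nat_lit 2479) (L (E (nat_lit 8) (nat_lit 0x36e1b18d644b42528014006001) (nat_lit 0))) (N (nat_lit 2481) (N (nat_lit 2480) (L (E (nat_lit 13) (nat_lit 0x6eb35f1a90d445902b114149964bb2528014006001) (nat_lit 0))) (L (E (nat_lit 10) (nat_lit 0xdd66c63591ac09964bb2528014006001) (nat_lit 0)))) (N (nat_lit 2483) (N (nat_lit 2482) (L (E (nat_lit 17) (nat_lit 0x6c63601ac8d6063231514109964bb25290287e03680bb0014006001) (nat_lit 0))) (L (E (nat_lit 11) (nat_lit 0x1b18d646b0319132c9764a50bb0014006001) (nat_lit 0)))) (L (E (nat_lit 23) (nat_lit 0x1bc0dd46de3651b20d8c6b22851418a084ce25e12d094a40a1f20f6854029e0bb0014006001) (nat_lit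 0)))))) (N (nat_lit 2489) (N (nat_lit 2487) (N (nat_lit 2486) (N (nat_lit 2485) (L (E (nat_lit 9) (nat_lit 0x43c20710288104061ef0014006001) (nat_lit 0))) (L (E (nat_lit 9) (nat_lit 0x43f20710288103de1ec0014006001) (nat_lit 0)))) (L (E (nat_lit 9) (nat_lit 0x44021e902880e3f61ec0014006001) (nat_lit 0)))) (N (nat_lit 2488) (L (E (nat_lit 19) (nat_lit 0x1d70e046ea36e9b28d6450727d13349804b425110387ec3de1ed0014006001) (nat_lit 0))) (L (E (nat_lit 22) (nat_lit 0xeb86ea3651b18d6450a28213e899a4c025e12d094a40e1fb0f907b42a00bb0014006001) (nat_lit 0))))) (L (E (nat_lit 10) (nat_lit 0xe046f03759b78db46ca3590014006001) (nat_lit 0))))))) (N (nat_lit 2510) (N (nat_lit 2500) (N (nat_lit 2494) (N (nat_lit 2492) (N (nat_lit 2491) (L (E (nat_lit 8) (nat_lit 0x3631ac89684a51fc8014006001) (nat_lit 0))) (L (E (nat_lit 9) (nat_lit 0x6eb36e9ac89684a51fc0014006001) (nat_lit 0)))) (N (nat_lit 2493) (L (E (nat_lit 14) (nat_lit 0x87843421910c085c41c205101c7c83de1ed0014006001)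 (nat_lit 0))) (L (E (nat_lit 12) (nat_lit 0x3819ba8dba6b43591ac080e3f81ef0014006001) (nat_lit 0))))) (N (nat_lit 2497) (N (nat_lit 2496) (N (nat_lit 2495) (L (E (nat_lit 18) (nat_lit 0xe0c6ea36f16b8af05642ac12d088843e2038fdc5a029913d0014006001) (nat_lit 0))) (L (E (nat_lit 17) (nat_lit 0x50627c13d09e44ce25d12d088843221710808144071fb0014006001) (nat_lit 0)))) (L (E (nat_lit 23) (nat_lit 0x1c18e046f03751b78d1c68c34516b8a0c4f225d12d094a44421f10b880e3f81680014006001) (nat_lit 0)))) (N (nat_lit 2499) (N (nat_lit 2498) (L (E (nat_lit 9) (nat_lit 0x6c63591ac0a0a4b42528014006001) (nat_lit 0))) (L (E (nat_lit 10) (nat_lit 0xd906c635914149944b42528014006001) (nat_lit 0)))) (L (E (nat_lit 9) (nat_lit 0x6c635914109ea4a524f0014006001) (nat_lit 0)))))) (N (nat_lit 2504) (N (nat_lit 2502) (N (nat_lit 2501) (L (E (nat_lit 18) (nat_lit 0xdd46de36413d09c44ce25d12d094a44421f102880e3f81ec0014006001) (nat_lit 0))) (L (E (nat_lit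 10) (nat_lit 0xd8c6b227112d094a49e21f0014006001) (nat_lit 0)))) (N (nat_lit 2503) (L (E (nat_lit 7) (nat_lit 0x1b18d644b42528014006001) (nat_lit 0))) (L (E (nat_lit 9) (nat_lit 0x6ea35912d094a43f2038014006001) (nat_lit 0))))) (N (nat_lit 2507) (N (nat_lit 2506) (N (nat_lit 2505) (L (E (nat_lit 13) (nat_lit 0x6ea36c1ac89ea4b425290f88104041f80014006001) (nat_lit 0))) (L (E (nat_lit 8) (nat_lit 0x3751ac89684a52038014006001) (nat_lit 0)))) (L (E (nat_lit 7) (nat_lit 0xfe47e23de1e30014006001) (nat_lit 0)))) (N (nat_lit 2509) (N (nat_lit 2508) (L (E (nat_lit 8) (nat_lit 0x3751ac8d604b42528014006001) (nat_lit 0))) (L (E (nat_lit 7) (nat_lit 0x1ba8d644b42528014006001) (nat_lit 0)))) (L (E (nat_lit 11) (nat_lit 0x1bacd906b222b10188043f41ef0014006001) (nat_lit 0))))))) (L (E (nat_lit 6) (nat_lit 0xd644b42528014006001) (nat_lit 0))))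
def cl49 : RA := N (nat_lit 2535) (N (nat_lit 2534) (N (nat_lit 2524) (N (nat_lit 2518) (N (nat_lit 2515) (N (nat_lit 2513) (N (nat_lit 2512) (L (E (nat_lit 13) (nat_lit 0x6eb35894109944b425312508784041f80014006001) (nat_lit 0))) (L (E (nat_lit 15) (nat_lit 0x1c00de06eb3721b70d646b027912989283f61f80014006001) (nat_lit 0)))) (N (nat_lit 2514) (L (E (nat_lit 10) (nat_lit 0x7f23f51e50f107843881b40014006001) (nat_lit 0))) (L (E (nat_lit 13) (nat_lit 0x6eb3591a88a064f525a12989284071e50014006001) (nat_lit 0))))) (N (nat_lit 2517) (N (nat_lit 2516) (L (E (nat_lit 14) (nat_lit 0xdd66dd3591ac0d4450327a12d09444071fc8014006001) (nat_lit 0))) (L (E (nat_lit 9) (nat_lit 0x50426513189723f61f80014006001) (nat_lit 0)))) (L (E (nat_lit 15) (nat_lit 0x1bacd646b0351140c9e84c625a12989444071fc8014006001) (nat_lit 0))))) (N (nat_lit 2521) (N (nat_lit 2520) (N (nat_lit 2519) (L (E (nat_lit 12) (nat_lit 0x3759b70d6a6b235814109944c625a0014006001)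 (nat_lit 0))) (L (E (nat_lit 13) (nat_lit 0x70a3759b70d646b0282132898c4b41fc0014006001) (nat_lit 0)))) (L (E (nat_lit 14) (nat_lit 0x106076436f149498c43f20c10288083f41ef0014006001) (nat_lit 0)))) (N (nat_lit 2523) (N (nat_lit 2522) (L (E (nat_lit 22) (nat_lit 0xde06eb36f1b68d6e6b23581460a1450326713309944a222010208083f71ef0014006001) (nat_lit 0))) (L (E (nat_lit 9) (nat_lit 0x6eb36e93d099a4ba25a0014006001) (nat_lit 0)))) (L (E (nat_lit 7) (nat_lit 0x1bacd644b42038014006001) (nat_lit 0)))))) (N (nat_lit 2527) (N (nat_lit 2525) (L (E (nat_lit 8) (nat_lit 0x4301640ad44051ac0014006001) (nat_lit 0))) (N (nat_lit 2526) (L (E (nat_lit 9) (nat_lit 0x6eb36e9ac8d604061fc8014006001) (nat_lit 0))) (L (E (nat_lit 9) (nat_lit 0x6f03759b70db46c63590014006001) (nat_lit 0))))) (N (nat_lit 2530) (N (nat_lit 2529) (N (nat_lit 2528) (L (E (nat_lit 10) (nat_lit 0xe187023759b28d7c6b23580014006001) (nat_lit 0))) (L (E (nat_lit 12)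 (nat_lit 0x3759b70d946b43591ac081c4061fb0014006001) (nat_lit 0)))) (L (E (nat_lit 8) (nat_lit 0x3759ac8d604061fc8014006001) (nat_lit 0)))) (N (nat_lit 2532) (N (nat_lit 2531) (L (E (nat_lit 16) (nat_lit 0x28d13989a44cb25c129886042c20e10207e83e01ee0014006001) (nat_lit 0))) (L (E (nat_lit 30) (nat_lit 0xeb875a2da1668b0854e2a114689ec4ee273134899c4c625c12d094c4a021a10788304061fc8fc07be3da1ac0014006001) (nat_lit 0)))) (N (nat_lit 2533) (L (E (nat_lit 16) (nat_lit 0x2d816b8b0056e2b39538a144f626e93307e23a61c50014006001) (nat_lit 0))) (L (E (nat_lit 21) (nat_lit 0x5b02c015a8ace54e2a114289ec4f226d13609964b825312007e23a61c50014006001) (nat_lit 0)))))))) (L (E (nat_lit 6) (nat_lit 0xdd66b225a0014006001) (nat_lit 0)))) (N (nat_lit 2549) (N (nat_lit 2542) (N (nat_lit 2537) (N (nat_lit 2536) (L (E (nat_lit 8) (nat_lit 0x3651ac499a4bc25a0014006001) (nat_lit 0))) (L (E (nat_lit 10) (nat_lit 0x9ea4cc26512f09704b42520014006001)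 (nat_lit 0)))) (N (nat_lit 2540) (N (nat_lit 2539) (N (nat_lit 2538) (L (E (nat_lit 7) (nat_lit 0x1ac49943f91f88014006001) (nat_lit 0))) (L (E (nat_lit 25) (nat_lit 0x75a3ac1d38e987483821b78db86d83611ac8a9c4fe27a93789984c824710c886042c14e0014006001) (nat_lit 0)))) (L (E (nat_lit 10) (nat_lit 0xe9070f3649ac8a9c4cb1f88014006001) (nat_lit 0)))) (N (nat_lit 2541) (L (E (nat_lit 14) (nat_lit 0xf0a75e3ae1d68eb07452df16c0af056429e0014006001) (nat_lit 0))) (L (E (nat_lit 22) (nat_lit 0xf207683af1d70eb47583a296f8b605782b21564a9053c21910c08582b013c0014006001) (nat_lit 0)))))) (N (nat_lit 2547) (N (nat_lit 2545) (N (nat_lit 2544) (N (nat_lit 2543) (L (E (nat_lit 10) (nat_lit 0xb7c5b02bc9588ab454e2a40014006001) (nat_lit 0))) (L (E (nat_lit 32) (nat_lit 0x3c81da0ebc75c3ad1d28e907462df16c0af05642ac9520a7845422010f887843221810b082c40e20310107b82b013c0014006001) (nat_lit 0)))) (L (E (nat_lit 26) (nat_lit 0xf2075a3a71d20b605642ad1538a044f426e132c9784b8252124891444021e10c082c40e2020014006001)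 (nat_lit 0)))) (N (nat_lit 2546) (L (E (nat_lit 5) (nat_lit 0x6b11f88014006001) (nat_lit 0))) (L (E (nat_lit 13) (nat_lit 0x51a28513c89c44dc26612f09704a62518014006001) (nat_lit 0))))) (N (nat_lit 2548) (L (E (nat_lit 7) (nat_lit 0x16b8b3858c2b38014006001) (nat_lit 0))) (L (E (nat_lit 11) (nat_lit 0x16f8b745b02d71680b385982b40014006001) (nat_lit 0)))))) (N (nat_lit 2551) (N (nat_lit 2550) (L (E (nat_lit 8) (nat_lit 0x3591ac09ea4cb1f88014006001) (nat_lit 0))) (L (E (nat_lit 6) (nat_lit 0xa304e325e0014006001) (nat_lit 0)))) (N (nat_lit 2553) (N (nat_lit 2552) (L (E (nat_lit 10) (nat_lit 0xdb86c23591ac0a0e4cb25e0014006001) (nat_lit 0))) (L (E (nat_lit 11) (nat_lit 0x1ba8db06c63611ae8d686b23580014006001) (nat_lit 0)))) (N (nat_lit 2555) (N (nat_lit 2554) (L (E (nat_lit 11) (nat_lit 0x1b70d846b535813d09c44cb25e0014006001) (nat_lit 0))) (L (E (nat_lit 24) (nat_lit 0x3d71b20d8c6c22df16e8b605ae2ce15a099043221810b08164061fc8f706ac3461580014006001)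 (nat_lit 0)))) (L (E (nat_lit 6) (nat_lit 0xd6a4cb1f88014006001) (nat_lit 0)))))))
def cl50 : RA := N (nat_lit 2577) (N (nat_lit 2565) (N (nat_lit 2564) (N (nat_lit 2559) (N (nat_lit 2558) (N (nat_lit 2557) (L (E (nat_lit 7) (nat_lit 0x1ac89963f91f88014006001) (nat_lit 0))) (L (E (nat_lit 11) (nat_lit 0x1b089e84dc26512f09684a42030014006001) (nat_lit 0)))) (L (E (nat_lit 11) (nat_lit 0x1c00dd46d83631b08d686b23580014006001) (nat_lit 0)))) (N (nat_lit 2560) (L (E (nat_lit 12) (nat_lit 0x3801b70db46ca3631b08d686b23580014006001) (nat_lit 0))) (N (nat_lit 2562) (N (nat_lit 2561) (L (E (nat_lit 14) (nat_lit 0xe006ea3651b18d846b43591ac085c41c1fb0014006001) (nat_lit 0))) (L (E (nat_lit 6) (nat_lit 0xd644cc1f88014006001) (nat_lit 0)))) (N (nat_lit 2563) (L (E (nat_lit 8) (nat_lit 0x36e1b20d6a3f91f88014006001) (nat_lit 0))) (L (E (nat_lit 15) (nat_lit 0x1b70db46ca3631b08d686b235813289784b42030014006001) (nat_lit 0)))))))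 (L (E (nat_lit 5) (nat_lit 0x6b21f88014006001) (nat_lit 0)))) (N (nat_lit 2571) (N (nat_lit 2569) (N (nat_lit 2567) (N (nat_lit 2566) (L (E (nat_lit 9) (nat_lit 0x6c73611ac8d604ca25a0014006001) (nat_lit 0))) (L (E (nat_lit 11) (nat_lit 0x1b70d906c235a1ac8d604ca25a0014006001) (nat_lit 0)))) (N (nat_lit 2568) (L (E (nat_lit 13) (nat_lit 0x4e425e12e89684aa21e10e086442e2140014006001) (nat_lit 0))) (L (E (nat_lit 10) (nat_lit 0xdb86c235a1ac8d604ca25a0014006001) (nat_lit 0))))) (N (nat_lit 2570) (L (E (nat_lit 14) (nat_lit 0xdb86c83631b08d686b227a93289904b42490014006001) (nat_lit 0))) (L (E (nat_lit 22) (nat_lit 0x10ac82c3f11ce8e6461027b1388998440216106082c4082020fdc7e034e1a30014006001) (nat_lit 0))))) (N (nat_lit 2573) (N (nat_lit 2572) (L (E (nat_lit 9) (nat_lit 0x43c21690588083f71f80014006001) (nat_lit 0))) (L (E (nat_lit 9) (nat_lit 0x6dc3611ad0d644ca25a0014006001) (nat_lit 0)))) (N (nat_lit 2576) (N (nat_lit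 2575) (N (nat_lit 2574) (L (E (nat_lit 10) (nat_lit 0xf206fc36e1ad0d624cb21e0014006001) (nat_lit 0))) (L (E (nat_lit 11) (nat_lit 0x1b70d906c03591a989e84dc2658014006001) (nat_lit 0)))) (L (E (nat_lit 8) (nat_lit 0x28c13d09b84cb25e0014006001) (nat_lit 0)))) (L (E (nat_lit 8) (nat_lit 0x36e1b08d686b225a0014006001) (nat_lit 0))))))) (N (nat_lit 2586) (N (nat_lit 2582) (N (nat_lit 2581) (N (nat_lit 2579) (N (nat_lit 2578) (L (E (nat_lit 9) (nat_lit 0x6c83631b08d686b22658014006001) (nat_lit 0))) (L (E (nat_lit 11) (nat_lit 0x1bc0d906c63611ad0d644f425a0014006001) (nat_lit 0)))) (N (nat_lit 2580) (L (E (nat_lit 8) (nat_lit 0x3611ad0d646b025a0014006001) (nat_lit 0))) (L (E (nat_lit 8) (nat_lit 0x3611ad0d644f525a0014006001) (nat_lit 0))))) (L (E (nat_lit 7) (nat_lit 0x1b08d686b225a0014006001) (nat_lit 0)))) (N (nat_lit 2585) (N (nat_lit 2584) (N (nat_lit 2583) (L (E (nat_lit 15) (nat_lit 0x13889bc4dc26693289484302050fe07bc3cc1dd0014006001)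 (nat_lit 0))) (L (E (nat_lit 9) (nat_lit 0x44821a10807f03f61f80014006001) (nat_lit 0)))) (L (E (nat_lit 25) (nat_lit 0x6fc36a1af8b4059c2ac1508a0c4ee26e133498c4b425210d08604071fc0f787983ba1430014006001) (nat_lit 0)))) (L (E (nat_lit 8) (nat_lit 0x27a93749944ba25a0014006001) (nat_lit 0))))) (N (nat_lit 2588) (N (nat_lit 2587) (L (E (nat_lit 24) (nat_lit 0x37e1b80dba6ca3609ae8d6c6a22d01670a0c4ee26e133498c4b4252101c7f03de1430014006001) (nat_lit 0))) (L (E (nat_lit 8) (nat_lit 0x21810a48103f71ee0014006001) (nat_lit 0)))) (N (nat_lit 2595) (N (nat_lit 2592) (N (nat_lit 2590) (N (nat_lit 2589) (L (E (nat_lit 15) (nat_lit 0x15689ea4df26692f496849622010c082c4041f80014006001) (nat_lit 0))) (L (E (nat_lit 23) (nat_lit 0x1e70f107783b41718b4059b2ca1648b042f01740b985bc2ce1600ac853c29c1480014006001) (nat_lit 0)))) (N (nat_lit 2591) (L (E (nat_lit 27) (nat_lit 0x1f60f387883bc1978b8c5a02cd9650b2458222010b87f03f61f80bc05dc2e61670b0056429e1480014006001)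 (nat_lit 0))) (L (E (nat_lit 16) (nat_lit 0x3769b80da86c23609ae8d6458227a933497a4b42038014006001) (nat_lit 0))))) (N (nat_lit 2594) (N (nat_lit 2593) (L (E (nat_lit 19) (nat_lit 0x1b80d946c83611ac89c44de26e13309944b421810208083f81fb8014006001) (nat_lit 0))) (L (E (nat_lit 20) (nat_lit 0x3769b80da86ca3611ac8b404e226e13489984ca25a10208083f71ef0014006001) (nat_lit 0)))) (L (E (nat_lit 13) (nat_lit 0x6ed36a1b08d645a0283137c9a44cc25a0014006001) (nat_lit 0))))) (N (nat_lit 2596) (L (E (nat_lit 13) (nat_lit 0x6c83631b08d644f526e12f49684071ef0014006001) (nat_lit 0))) (L (E (nat_lit 5) (nat_lit 0x4f226612e0926001) (nat_lit 0)))))))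
def cl51 : RA := N (nat_lit 2621) (N (nat_lit 2602) (N (nat_lit 2598) (L (E (nat_lit 5) (nat_lit 0x5032791330970001) (nat_lit 0))) (N (nat_lit 2601) (N (nat_lit 2600) (N (nat_lit 2599) (L (E (nat_lit 14) (nat_lit 0xb8c5ba2d81600afc568281137c9462aa1430014006001) (nat_lit 0))) (L (E (nat_lit 25) (nat_lit 0x7003749b78db86ca3611600afc56828113909c44df26612d086442e205101c7f03f61430014006001) (nat_lit 0)))) (L (E (nat_lit 24) (nat_lit 0x3801b78db86ca3611ac8b0057e2b414089c84e226f9330968430217101c7f03f61430014006001) (nat_lit 0)))) (L (E (nat_lit 10) (nat_lit 0xe1c7003751b70db06c23590014006001) (nat_lit 0))))) (N (nat_lit 2615) (N (nat_lit 2608) (N (nat_lit 2606) (N (nat_lit 2605) (N (nat_lit 2604) (N (nat_lit 2603) (L (E (nat_lit 16) (nat_lit 0x36f1b08d6457e2b413d49984ca25c12d08604071fb0014006001) (nat_lit 0))) (L (E (nat_lit 12) (nat_lit 0x3631b08d6456827a92f49684071ef0014006001) (nat_lit 0)))) (L (E (nat_lit 11) (nat_lit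 0x1b18d846b22b413d497a4b41ef0014006001) (nat_lit 0)))) (L (E (nat_lit 14) (nat_lit 0xa0c4f227113789b84ca25e12908e44301fc0014006001) (nat_lit 0)))) (N (nat_lit 2607) (L (E (nat_lit 14) (nat_lit 0xdd46e836e1b60da86c83611ad4d1e4f62180014006001) (nat_lit 0))) (L (E (nat_lit 17) (nat_lit 0x4f625e10788143f81fa0f787942ac1550a384f026a12e0014006001) (nat_lit 0))))) (N (nat_lit 2611) (N (nat_lit 2610) (N (nat_lit 2609) (L (E (nat_lit 11) (nat_lit 0x1b089ea4cc26512f09683f81ef0014006001) (nat_lit 0))) (L (E (nat_lit 16) (nat_lit 0x3611ac8a084e627113789b84c625e124c80e3f81fa8014006001) (nat_lit 0)))) (L (E (nat_lit 11) (nat_lit 0x1b08d644f526512f09683f81ef0014006001) (nat_lit 0)))) (N (nat_lit 2613) (N (nat_lit 2612) (L (E (nat_lit 12) (nat_lit 0x3651b18d846b227a937499c4ca25a0014006001) (nat_lit 0))) (L (E (nat_lit 12) (nat_lit 0x359140c9ea4de26e13349684931fc8014006001) (nat_lit 0)))) (N (nat_lit 2614) (L (E (nat_lit 22)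 (nat_lit 0xd846b22ab1428a084e226f13709a64cc25a115083c40a2038fd07bc3dc1590014006001) (nat_lit 0))) (L (E (nat_lit 25) (nat_lit 0x70036a1b08d7c6b22ab1428a084e226f13709a64cc25a115089841e2038fd07bc3dc1590014006001) (nat_lit 0))))))) (N (nat_lit 2620) (N (nat_lit 2618) (N (nat_lit 2617) (N (nat_lit 2616) (L (E (nat_lit 12) (nat_lit 0x3611ac89ea4de26e13289784b41ef0014006001) (nat_lit 0))) (L (E (nat_lit 12) (nat_lit 0x3801ba8da86c235f1ac889840b2038014006001) (nat_lit 0)))) (L (E (nat_lit 19) (nat_lit 0x1bf0d7868833e139487c428205101c7e83de1ec0dd033c18c0820014006001) (nat_lit 0)))) (N (nat_lit 2619) (L (E (nat_lit 17) (nat_lit 0x7903bb1d30b4059c2c7159cab043e21990a080e3dc14c0014006001) (nat_lit 0))) (L (E (nat_lit 26) (nat_lit 0xf207763801ba8dd06e036a1b28d846be35a9680b1c4bc217101c7ec3f41ee0f6053019e0820014006001) (nat_lit 0))))) (L (E (nat_lit 8) (nat_lit 0x3611ac89ea4ca25a0014006001) (nat_lit 0)))))) (N (nat_lit 2642)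 (N (nat_lit 2636) (N (nat_lit 2628) (N (nat_lit 2624) (N (nat_lit 2623) (N (nat_lit 2622) (L (E (nat_lit 12) (nat_lit 0x28c13d09744b4205101c7f23f41ef0014006001) (nat_lit 0))) (L (E (nat_lit 7) (nat_lit 0x112c85c42820f8014006001) (nat_lit 0)))) (L (E (nat_lit 19) (nat_lit 0x1b70db06c23591868a304dc26613289904bc25a10a082c3f80c00014006001) (nat_lit 0)))) (N (nat_lit 2627) (N (nat_lit 2626) (N (nat_lit 2625) (L (E (nat_lit 16) (nat_lit 0x37d1b70db06c83611ac8c344df26612d08503f80c00014006001) (nat_lit 0))) (L (E (nat_lit 18) (nat_lit 0xdf46dc3611ac8c3451826f93709744b423f10a08144071fa0014006001) (nat_lit 0)))) (L (E (nat_lit 10) (nat_lit 0xe026ea35a93348fc4071fc0014006001) (nat_lit 0)))) (L (E (nat_lit 9) (nat_lit 0x6c2359137c96840a2038014006001) (nat_lit 0))))) (N (nat_lit 2632) (N (nat_lit 2630) (N (nat_lit 2629) (L (E (nat_lit 12) (nat_lit 0x16b0b4059c2b21580aa850c08603c0014006001) (nat_lit 0))) (L (E (nat_lit 5)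 (nat_lit 0x37c1ad0cf4006001) (nat_lit 0)))) (N (nat_lit 2631) (L (E (nat_lit 30) (nat_lit 0xfb870e3861c28dd86b533a1938c8863431618687203881c20e006b42d61670ac85602aa14e0a183001540430014006001) (nat_lit 0))) (L (E (nat_lit 22) (nat_lit 0x10508043fb1f70fac7883a61c08d646662eb14609e845421f0e905a229c1458014006001) (nat_lit 0))))) (N (nat_lit 2634) (N (nat_lit 2633) (L (E (nat_lit 23) (nat_lit 0x1f70e147013651b08d6a67432718b0a3042c20e0fe07ea3e61e50b9859c28613b0014006001) (nat_lit 0))) (L (E (nat_lit 12) (nat_lit 0x3c31d98ea870f20e10287ec2aa1430014006001) (nat_lit 0)))) (N (nat_lit 2635) (L (E (nat_lit 26) (nat_lit 0xfb87663aa1c28dd46d83651b08d6a674316146099849320e0fe07ea3e61730b3855428613b0014006001) (nat_lit 0))) (L (E (nat_lit 12) (nat_lit 0x2ce16405c82d01670ab45322921458014006001) (nat_lit 0))))))) (N (nat_lit 2639) (N (nat_lit 2638) (N (nat_lit 2637) (L (E (nat_lit 13) (nat_lit 0x59c2c80b905a02ce1580aa852428b1430014006001)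 (nat_lit 0))) (L (E (nat_lit 23) (nat_lit 0x1c38e006ea3669b08d6c6b2266124c8784071fc0fd07c03de1ed0ac05342921430014006001) (nat_lit 0)))) (L (E (nat_lit 13) (nat_lit 0x44021e107083041620410107ee3f01ef0014006001) (nat_lit 0)))) (N (nat_lit 2641) (N (nat_lit 2640) (L (E (nat_lit 27) (nat_lit 0x1f70ecc70a3611af8d646b033a18b0a304dc26612d094443c205101c7cc3da1730b3853428613b0014006001) (nat_lit 0))) (L (E (nat_lit 11) (nat_lit 0x1460a064f426f137099a4a12498014006001) (nat_lit 0)))) (L (E (nat_lit 9) (nat_lit 0x6c2359137096840a2038014006001) (nat_lit 0)))))) (N (nat_lit 2649) (N (nat_lit 2648) (N (nat_lit 2645) (N (nat_lit 2644) (N (nat_lit 2643) (L (E (nat_lit 21) (nat_lit 0x7923bc1d30df84fa27b13d096a4a421a10708144071fb0fd07bc3d814c0014006001) (nat_lit 0))) (L (E (nat_lit 15) (nat_lit 0x1c38e006ea3651b08d644f4266101c7ec3f41ec0014006001) (nat_lit 0)))) (L (E (nat_lit 14) (nat_lit 0xe006ea3651b08d644f4266102880e3f61fa0014006001)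 (nat_lit 0)))) (N (nat_lit 2646) (L (E (nat_lit 10) (nat_lit 0xe006ea36c1b08d686b23580014006001) (nat_lit 0))) (N (nat_lit 2647) (L (E (nat_lit 10) (nat_lit 0x9f04f627a13c89c84bc25a8014006001) (nat_lit 0))) (L (E (nat_lit 13) (nat_lit 0x70036c1b28d644f425e12d483a4061fa0014006001) (nat_lit 0)))))) (L (E (nat_lit 9) (nat_lit 0x50627a138899c4cc25a8014006001) (nat_lit 0)))) (N (nat_lit 2650) (L (E (nat_lit 8) (nat_lit 0x27993909c44dc2580014006001) (nat_lit 0))) (N (nat_lit 2653) (N (nat_lit 2652) (N (nat_lit 2651) (L (E (nat_lit 12) (nat_lit 0x26f132894844021f10388144061ef0014006001) (nat_lit 0))) (L (E (nat_lit 16) (nat_lit 0x3879ad49e84e427113709984b525810f88584061fa0014006001) (nat_lit 0)))) (L (E (nat_lit 16) (nat_lit 0x3879ad49984bc25a90f883840e20510187ec3f41f68014006001) (nat_lit 0)))) (N (nat_lit 2654) (L (E (nat_lit 10) (nat_lit 0x9be4c724c12589284061ef0014006001) (nat_lit 0))) (L (E (nat_lit 17) (nat_lit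 0x70e3801b60d646b0271932898e4bc24a10f881c4061ef0014006001) (nat_lit 0))))))))
def cl52 : RA := N (nat_lit 2677) (N (nat_lit 2666) (N (nat_lit 2662) (N (nat_lit 2659) (N (nat_lit 2657) (N (nat_lit 2656) (L (E (nat_lit 18) (nat_lit 0xe006ea36c1b28d6a4f426612f096a43e207102880c3f61fa0014006001) (nat_lit 0))) (L (E (nat_lit 20) (nat_lit 0x3801ba8db06ca3631b08d644f426612f096a43e207102880c3f61fa0014006001) (nat_lit 0)))) (N (nat_lit 2658) (L (E (nat_lit 20) (nat_lit 0x3801ba8db06ca3611ac89e84cc25e12d487c40e20510187ec3f41ef0014006001) (nat_lit 0))) (L (E (nat_lit 11) (nat_lit 0x1c00df86ea36c1b1c7a03cc1e30014006001) (nat_lit 0))))) (N (nat_lit 2660) (L (E (nat_lit 11) (nat_lit 0x1c00dd46d83651b18d846b43590014006001) (nat_lit 0))) (N (nat_lit 2661) (L (E (nat_lit 15) (nat_lit 0x1c00dd46d835913d09984b520510187f23f41ef0014006001) (nat_lit 0))) (L (E (nat_lit 14) (nat_lit 0xe006ea36c1ac89e84cc25a902880c3f91fa0014006001)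 (nat_lit 0)))))) (N (nat_lit 2663) (L (E (nat_lit 11) (nat_lit 0x1b089e84cc26512f09684a42030014006001) (nat_lit 0))) (N (nat_lit 2665) (N (nat_lit 2664) (L (E (nat_lit 22) (nat_lit 0xe006ea36e1b60d8c6c235b1ac8bd055e27192f096845021f10287ec3f40a40014006001) (nat_lit 0))) (L (E (nat_lit 24) (nat_lit 0x3801ba8db06ca3631b08d6c6b235117a09c64c825e12d092445021f10287ec3f40a40014006001) (nat_lit 0)))) (L (E (nat_lit 12) (nat_lit 0x3591410a044f627a13909c44bc25a0014006001) (nat_lit 0)))))) (N (nat_lit 2672) (N (nat_lit 2669) (N (nat_lit 2668) (N (nat_lit 2667) (L (E (nat_lit 22) (nat_lit 0xdd06dd3651b08d7c6ba35b1ac8d4450227a13889784b4228106082c3f41ef0014006001) (nat_lit 0))) (L (E (nat_lit 19) (nat_lit 0x1c00dd46d83651b08d7c6b227a132c9784b421f102880c3f61fa0014006001) (nat_lit 0)))) (L (E (nat_lit 16) (nat_lit 0x3861c00dd46d83631b08d7c6b227a13889964bc25a0014006001) (nat_lit 0)))) (N (nat_lit 2670) (L (E (nat_lit 13) (nat_lit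 0x7003751b60d846b227a13308143f91fa0014006001) (nat_lit 0))) (N (nat_lit 2671) (L (E (nat_lit 11) (nat_lit 0x138c9784b421710287ec3f01ef0014006001) (nat_lit 0))) (L (E (nat_lit 11) (nat_lit 0x1c04dd46c235912f096840a1fb0014006001) (nat_lit 0)))))) (N (nat_lit 2673) (L (E (nat_lit 11) (nat_lit 0x110085c40a2038fd87e83de1ec0014006001) (nat_lit 0))) (N (nat_lit 2675) (N (nat_lit 2674) (L (E (nat_lit 28) (nat_lit 0x3809ba8db06c83631b08d7c6b227213889984ca25c12989444a021010388083f61fa0fc030418005c0014006001) (nat_lit 0))) (L (E (nat_lit 20) (nat_lit 0x3809ba8d8c6be35913889984bc25a92c081c40a2038fd87e83de1ec0014006001) (nat_lit 0)))) (N (nat_lit 2676) (L (E (nat_lit 12) (nat_lit 0x3809ba8db06c63591ac09784b51ef8014006001) (nat_lit 0))) (L (E (nat_lit 12) (nat_lit 0x3809bf0dd46d836490388144061ef0014006001) (nat_lit 0)))))))) (N (nat_lit 2688) (N (nat_lit 2680) (N (nat_lit 2679) (N (nat_lit 2678) (L (E (nat_lit 10) (nat_lit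 0xa3851a28913889bc4dc25a8014006001) (nat_lit 0))) (L (E (nat_lit 28) (nat_lit 0x3761b18d6c62830c1428a0c4f227113709984b825a92908143f41f00f787b83c60df067832c1760aa0014006001) (nat_lit 0)))) (L (E (nat_lit 9) (nat_lit 0x50b27a13c89c84bc25a8014006001) (nat_lit 0)))) (N (nat_lit 2684) (N (nat_lit 2682) (N (nat_lit 2681) (L (E (nat_lit 26) (nat_lit 0xdd86c635b18a0c3050a28313d09e44e226e133096a4a41fa0f807bc3dc1e306f833c1760aa0014006001) (nat_lit 0))) (L (E (nat_lit 10) (nat_lit 0xb5c582283937099e4bc2580014006001) (nat_lit 0)))) (N (nat_lit 2683) (L (E (nat_lit 17) (nat_lit 0x6ea36c1b18d7c6b227a13889984b525810287f23f41ec0014006001) (nat_lit 0))) (L (E (nat_lit 11) (nat_lit 0x110085c40a1fc8fd07bc3d81e50014006001) (nat_lit 0))))) (N (nat_lit 2686) (N (nat_lit 2685) (L (E (nat_lit 15) (nat_lit 0x1eb8f087763a61ce8b705922c715f0ad055620e8014006001) (nat_lit 0))) (L (E (nat_lit 26) (nat_lit 0xf5c73a2c915f0aac51828514089e84f2271133096a49e22210b884440a1fc8fd07da3de1e50014006001)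 (nat_lit 0)))) (N (nat_lit 2687) (L (E (nat_lit 14) (nat_lit 0xdd46d835913d09c44cc25a90287f23f41f68014006001) (nat_lit 0))) (L (E (nat_lit 11) (nat_lit 0x2160d6a5580c005b82d416106a0014006001) (nat_lit 0))))))) (N (nat_lit 2694) (N (nat_lit 2690) (N (nat_lit 2689) (L (E (nat_lit 23) (nat_lit 0x1c08d6a69a27b13d09c84ce250125888242220e101c7f23f41f68f3c5602a40c70014006001) (nat_lit 0))) (L (E (nat_lit 12) (nat_lit 0x3751b60d846b227a13308143f91fa0014006001) (nat_lit 0)))) (N (nat_lit 2692) (N (nat_lit 2691) (L (E (nat_lit 17) (nat_lit 0x71e3869ba8d6444421e10588144062020fd07e03de1bb0014006001) (nat_lit 0))) (L (E (nat_lit 19) (nat_lit 0x1bb0dd46ca3631b08d6868c21710588144062020fd87e83f01ef0014006001) (nat_lit 0)))) (N (nat_lit 2693) (L (E (nat_lit 16) (nat_lit 0x3861b64d946c622210f082c4092020fd87e03de1e50014006001) (nat_lit 0))) (L (E (nat_lit 13) (nat_lit 0x6d93651ac89c64bc25a90287ec3f41ef0014006001) (nat_lit 0))))))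 (N (nat_lit 2697) (N (nat_lit 2696) (N (nat_lit 2695) (L (E (nat_lit 14) (nat_lit 0xdb26c735913889984b525810fc8143f61ef0014006001) (nat_lit 0))) (L (E (nat_lit 13) (nat_lit 0x70036c9b1cd644f427113309784b52580014006001) (nat_lit 0)))) (L (E (nat_lit 10) (nat_lit 0x87a42e20e106082c4141fb0014006001) (nat_lit 0)))) (N (nat_lit 2699) (N (nat_lit 2698) (L (E (nat_lit 24) (nat_lit 0x3ef1f28d6066c31e1470a3050a28313c896a49e24711f887c42e2030fd87e83de1610014006001) (nat_lit 0))) (L (E (nat_lit 27) (nat_lit 0x1f78f947ae35819b0c785ae2b71470a3050a279133c96a49e24711f887c42e2030fd87e83de1610014006001) (nat_lit 0)))) (N (nat_lit 2700) (L (E (nat_lit 15) (nat_lit 0x1b64d8e6b227a13889984bc25a92c08143f61ef0014006001) (nat_lit 0))) (L (E (nat_lit 5) (nat_lit 0x4f22661294928001) (nat_lit 0))))))))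
def cl53 : RA := N (nat_lit 2764) (N (nat_lit 2746) (N (nat_lit 2739) (N (nat_lit 2733) (N (nat_lit 2730) (N (nat_lit 2729) (L (E (nat_lit 9) (nat_lit 0x6ea35893308143f91fa0014006001) (nat_lit 0))) (L (E (nat_lit 8) (nat_lit 0x27a933096a3f61fa0014006001) (nat_lit 0)))) (N (nat_lit 2732) (N (nat_lit 2731) (L (E (nat_lit 14) (nat_lit 0xd846b227a93309684a6251120080c3de1ee0014006001) (nat_lit 0))) (L (E (nat_lit 15) (nat_lit 0x1bb4d846be35a96f8b745b027112e49464922400014006001) (nat_lit 0)))) (L (E (nat_lit 17) (nat_lit 0x6ed36e1b08d7c5be28d13309604a625192008143f91fa0014006001) (nat_lit 0))))) (N (nat_lit 2734) (L (E (nat_lit 10) (nat_lit 0xdd46c235913308143f91fa0014006001) (nat_lit 0))) (N (nat_lit 2736) (N (nat_lit 2735) (L (E (nat_lit 9) (nat_lit 0x6eb35912d480c3f41ef0014006001) (nat_lit 0))) (L (E (nat_lit 8) (nat_lit 0x3759ac896a4071fc0014006001) (nat_lit 0)))) (N (nat_lit 2738) (N (nat_lit 2737) (L (E (nat_lit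 14) (nat_lit 0xdd66c23591ab89e84e226612d48143f41ef0014006001) (nat_lit 0))) (L (E (nat_lit 13) (nat_lit 0x6fb3759ac8d5c4f4271133096a3f41ef0014006001) (nat_lit 0)))) (L (E (nat_lit 12) (nat_lit 0x3759b80da86b23571a40d0440b1f80014006001) (nat_lit 0))))))) (N (nat_lit 2745) (N (nat_lit 2742) (N (nat_lit 2741) (N (nat_lit 2740) (L (E (nat_lit 13) (nat_lit 0x6eb3591ab8d2068227a133096a3f41ef0014006001) (nat_lit 0))) (L (E (nat_lit 13) (nat_lit 0x6eb3591ab8d2068227a133096a3f41dd0014006001) (nat_lit 0)))) (L (E (nat_lit 12) (nat_lit 0x3759ac8d5c690341133096a3f41dd0014006001) (nat_lit 0)))) (N (nat_lit 2744) (N (nat_lit 2743) (L (E (nat_lit 7) (nat_lit 0x1bacd846b21fa8014006001) (nat_lit 0))) (L (E (nat_lit 8) (nat_lit 0x3809bacdb46be3590014006001) (nat_lit 0)))) (L (E (nat_lit 14) (nat_lit 0xdf66eb36d1b08d645041fb0fd07e03040970014006001) (nat_lit 0))))) (L (E (nat_lit 6) (nat_lit 0xdd66b225a8014006001) (nat_lit 0)))))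 (N (nat_lit 2757) (N (nat_lit 2750) (N (nat_lit 2748) (N (nat_lit 2747) (L (E (nat_lit 14) (nat_lit 0xe006d835915f89e84e226712e896a3f41550014006001) (nat_lit 0))) (L (E (nat_lit 8) (nat_lit 0x3801ac899a4b51fb8014006001) (nat_lit 0)))) (N (nat_lit 2749) (L (E (nat_lit 18) (nat_lit 0x10c070036e1b60d946c83611ae8d6c6b23581680b1c5801850014006001) (nat_lit 0))) (L (E (nat_lit 10) (nat_lit 0xdb06b227a92d48104041fb8014006001) (nat_lit 0))))) (N (nat_lit 2754) (N (nat_lit 2752) (N (nat_lit 2751) (L (E (nat_lit 16) (nat_lit 0x3991c00db06c73591ac496a44020c10208083f71a30014006001) (nat_lit 0))) (L (E (nat_lit 12) (nat_lit 0x3761ba89c64ca25e11008304041fc0014006001) (nat_lit 0)))) (N (nat_lit 2753) (L (E (nat_lit 15) (nat_lit 0x1c3cdd86ea3741b50d906c23591470a343f81fa0014006001) (nat_lit 0))) (L (E (nat_lit 14) (nat_lit 0xe1e6dc36c1b50d966b225a90608104041fb8014006001) (nat_lit 0))))) (N (nat_lit 2756) (N (nat_lit 2755) (L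 (E (nat_lit 8) (nat_lit 0x3801ac496a4071fb8014006001) (nat_lit 0))) (L (E (nat_lit 13) (nat_lit 0x50a28213c89c64bc22010c080e3f81ef0014006001) (nat_lit 0)))) (L (E (nat_lit 15) (nat_lit 0x1b749e84df26612e896a4a422010c080e3f81ef0014006001) (nat_lit 0)))))) (N (nat_lit 2761) (N (nat_lit 2760) (N (nat_lit 2759) (N (nat_lit 2758) (L (E (nat_lit 16) (nat_lit 0x4301eb8e006d83651b20d846ba35b1ac8d6058e2678014006001) (nat_lit 0))) (L (E (nat_lit 8) (nat_lit 0x3801b08d644b51fb8014006001) (nat_lit 0)))) (L (E (nat_lit 12) (nat_lit 0x3761ba89c64b522010b88144071fc0014006001) (nat_lit 0)))) (L (E (nat_lit 9) (nat_lit 0x4f427113389984ba25a8014006001) (nat_lit 0)))) (N (nat_lit 2763) (N (nat_lit 2762) (L (E (nat_lit 10) (nat_lit 0xd645ae28393dc9b84cf25e0014006001) (nat_lit 0))) (L (E (nat_lit 12) (nat_lit 0x37e1ba8db06c73591ac08804182020014006001) (nat_lit 0)))) (L (E (nat_lit 14) (nat_lit 0xdd26ca3591a68a3851a27b933c9784b51fb8014006001)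 (nat_lit 0))))))) (N (nat_lit 2772) (N (nat_lit 2771) (N (nat_lit 2768) (N (nat_lit 2766) (N (nat_lit 2765) (L (E (nat_lit 10) (nat_lit 0xe026ea3741b08d646b03448014006001) (nat_lit 0))) (L (E (nat_lit 15) (nat_lit 0x1ba4d946b234d13d09e44e427113309784b51fb8014006001) (nat_lit 0)))) (N (nat_lit 2767) (L (E (nat_lit 18) (nat_lit 0xe1c70a3761ba4d946b234d13d09984b525210b880e3f71ef0014006001) (nat_lit 0))) (L (E (nat_lit 6) (nat_lit 0xd644b51fb8014006001) (nat_lit 0))))) (N (nat_lit 2770) (N (nat_lit 2769) (L (E (nat_lit 11) (nat_lit 0x14109bc4dc26692c09484a22500014006001) (nat_lit 0))) (L (E (nat_lit 8) (nat_lit 0x26e13349784b52580014006001) (nat_lit 0)))) (L (E (nat_lit 15) (nat_lit 0x1bf0de86ea3591a888384162040fe47e03df1dd0014006001) (nat_lit 0))))) (L (E (nat_lit 6) (nat_lit 0x8784051ef0014006001) (nat_lit 0)))) (N (nat_lit 2781) (N (nat_lit 2777) (N (nat_lit 2774) (N (nat_lit 2773) (L (E (nat_lit 23) (nat_lit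 0x1ba8dd06c235f1ac8d444e426f13349484a2250110085041c20b0fe47e03d81dd0014006001) (nat_lit 0))) (L (E (nat_lit 11) (nat_lit 0x13909bc4cd25e12d49604a523e0014006001) (nat_lit 0)))) (N (nat_lit 2776) (N (nat_lit 2775) (L (E (nat_lit 20) (nat_lit 0x3741af8d646a2272137899a4b525811f088042820b0fe47e83d81dd0014006001) (nat_lit 0))) (L (E (nat_lit 7) (nat_lit 0x13949bc4cd25a8014006001) (nat_lit 0)))) (L (E (nat_lit 11) (nat_lit 0x1af8d644cd25a92c07f23f41ec0014006001) (nat_lit 0))))) (N (nat_lit 2779) (N (nat_lit 2778) (L (E (nat_lit 10) (nat_lit 0xdd46c23591a8888240b1f80014006001) (nat_lit 0))) (L (E (nat_lit 8) (nat_lit 0x22010f082c40b2038014006001) (nat_lit 0)))) (N (nat_lit 2780) (L (E (nat_lit 17) (nat_lit 0x440217107082c40820310107f23f41f80b9059c28e1450014006001) (nat_lit 0))) (L (E (nat_lit 7) (nat_lit 0x1a7cd286903470014006001) (nat_lit 0)))))) (N (nat_lit 2787) (N (nat_lit 2784) (N (nat_lit 2783) (N (nat_lit 2782)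 (L (E (nat_lit 9) (nat_lit 0x5b02ce1644aec56a2a90014006001) (nat_lit 0))) (L (E (nat_lit 15) (nat_lit 0x1c00dd46dc36c1b50d946c63611ac8d6055e2a90014006001) (nat_lit 0)))) (L (E (nat_lit 31) (nat_lit 0x1e40eec7003751b50d946c63611ac8d6055e2a9110087841620590107e02d01670ae853028e14503a81b80d405c0014006001) (nat_lit 0)))) (N (nat_lit 2786) (N (nat_lit 2785) (L (E (nat_lit 33) (nat_lit 0x7903ab1d18df46ea36a1b08d746b22c91578aa44ee25c910087841620590188083f91f80b9059c2ba14c0a281d40dc06a0014006001) (nat_lit 0))) (L (E (nat_lit 21) (nat_lit 0x5be2dd1670b305782b41548a9c42920310107e03ed1ed0b4059c2ba15c0014006001) (nat_lit 0)))) (L (E (nat_lit 36) (nat_lit 0x3c81e18eec74637e1ba8db06d43589a88cb864e2df16c0aa454e289136098443c21910588164062020fc07da2e41680b385882be15d0014006001) (nat_lit 0))))) (N (nat_lit 2788) (L (E (nat_lit 11) (nat_lit 0xb905bc2d21680b3857c2ba1450014006001) (nat_lit 0))) (N (nat_lit 2790) (N (nat_lit 2789)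 (L (E (nat_lit 10) (nat_lit 0x888432218108083840e2040014006001) (nat_lit 0))) (L (E (nat_lit 31) (nat_lit 0x1e30f147863b41d68eac74e3a41630af056a2b4159087e432207102080c4041f80f685c82d01670b1057c2ba1450014006001) (nat_lit 0)))) (N (nat_lit 2791) (L (E (nat_lit 11) (nat_lit 0xb4c5882b41590a8053a26a12f0014006001) (nat_lit 0))) (L (E (nat_lit 16) (nat_lit 0x3c81e30f147883c31e10eec7683ac0b385482a014e0014006001) (nat_lit 0)))))))))
def cl54 : RA := N (nat_lit 2845) (N (nat_lit 2834) (N (nat_lit 2830) (N (nat_lit 2828) (L (E (nat_lit 13) (nat_lit 0x6c635912e096a40a20410187bc29c0b90014006001) (nat_lit 0))) (N (nat_lit 2829) (L (E (nat_lit 17) (nat_lit 0x81e4091c38dd46dc36c1b18d846b43591428a0c30006b0014006001) (nat_lit 0))) (L (E (nat_lit 10) (nat_lit 0xdb06b2271133096a4b02528014006001) (nat_lit 0))))) (N (nat_lit 2832) (N (nat_lit 2831) (L (E (nat_lit 9) (nat_lit 0x506264127885a29c13d0014006001) (nat_lit 0))) (L (E (nat_lit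 12) (nat_lit 0x3871b60d64506279133c96a4a524f0014006001) (nat_lit 0)))) (N (nat_lit 2833) (L (E (nat_lit 7) (nat_lit 0x1710b605912c00014006001) (nat_lit 0))) (L (E (nat_lit 22) (nat_lit 0xf1870e36c1ac8b8857e28c1418a044dc26792d494a41820b10107ea3d81550014006001) (nat_lit 0)))))) (N (nat_lit 2837) (N (nat_lit 2835) (L (E (nat_lit 5) (nat_lit 0x50726612e094c001) (nat_lit 0))) (N (nat_lit 2836) (L (E (nat_lit 12) (nat_lit 0x35914189e44e226f133096a4a52180014006001) (nat_lit 0))) (L (E (nat_lit 12) (nat_lit 0x3591468a14506271133096a4a52038014006001) (nat_lit 0))))) (N (nat_lit 2842) (N (nat_lit 2840) (N (nat_lit 2839) (N (nat_lit 2838) (L (E (nat_lit 11) (nat_lit 0x1ac8a3450a28313889984b52528014006001) (nat_lit 0))) (L (E (nat_lit 18) (nat_lit 0xefc7783bb1b70d6845021f10c08584282040f7078c2ac13d0014006001) (nat_lit 0)))) (L (E (nat_lit 30) (nat_lit 0xf5c7a43bf1dd8e1870a3769b70d8c6c235a16b8b5458e2c01598ab445021f10c085842820a0f7078c2ac13d0014006001)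 (nat_lit 0)))) (N (nat_lit 2841) (L (E (nat_lit 33) (nat_lit 0x7ae3d21df8eec6ea36e1b60d8c6c235a1ac0d446882d71638b005662ad11708b445021f10c08504142050f7078c2ac13d0014006001) (nat_lit 0))) (L (E (nat_lit 25) (nat_lit 0x7ae3bf1dd8dd46c63599a90b5c58e27a13c89c44cc25d12d487c43020a10187bc2ac13d0014006001) (nat_lit 0))))) (N (nat_lit 2844) (N (nat_lit 2843) (L (E (nat_lit 19) (nat_lit 0x1eb8f486ea36e1b18d665ae2c71600ab042d205101c7bc2ac13d0014006001) (nat_lit 0))) (L (E (nat_lit 20) (nat_lit 0x3871c30db06ca3631accd486903471a2885c42c20b90287e83f01ef0014006001) (nat_lit 0)))) (L (E (nat_lit 16) (nat_lit 0x3861b18d666a434510f885840a2038fd032c1740b30014006001) (nat_lit 0))))))) (N (nat_lit 2861) (N (nat_lit 2854) (N (nat_lit 2850) (N (nat_lit 2848) (N (nat_lit 2847) (N (nat_lit 2846) (L (E (nat_lit 18) (nat_lit 0xc7c441218101c7c03de1ee0f307942ba14509e82e81720710014006001) (nat_lit 0))) (L (E (nat_lit 27) (nat_lit 0x1ba8db86b331f10f886042c20b101c7ea3cc1700b405842ba15a0ab051427a13009682e80e206b0014006001)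 (nat_lit 0)))) (L (E (nat_lit 38) (nat_lit 0xf5c7a43bf1c30db86c63599a90d145ae2c015609e84e226f93309744b521f10c08404142050f787982c215a09e84c025a0cb05d02cc0e206b0014006001) (nat_lit 0)))) (N (nat_lit 2849) (L (E (nat_lit 19) (nat_lit 0x1c78e046ea3631accd4868a28292d486042c2038f787b01740b70014006001) (nat_lit 0))) (L (E (nat_lit 23) (nat_lit 0x1eb8f4871e3811ba8d8c6b33521a28ab055228292d486042c2100f787b01740b70014006001) (nat_lit 0))))) (N (nat_lit 2852) (N (nat_lit 2851) (L (E (nat_lit 18) (nat_lit 0xf5c7a43631accd485582a9110087c42e20510187bc1740b70014006001) (nat_lit 0))) (L (E (nat_lit 14) (nat_lit 0xacc55221690588144071ef0f707b02d013d0014006001) (nat_lit 0)))) (N (nat_lit 2853) (L (E (nat_lit 37) (nat_lit 0x7ae3d21df8e046ea36e1b18d666a43451600ab050527a13889984ba25a90c08404142050f787982c215a09e84c025a0cb05d02cc0e206b0014006001) (nat_lit 0))) (L (E (nat_lit 32) (nat_lit 0x3d71e90efc70236e1b18d4868a2c01468a1450527113309744b525290c08404142050f305842b4130096832c16606b0014006001)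 (nat_lit 0)))))) (N (nat_lit 2858) (N (nat_lit 2856) (N (nat_lit 2855) (L (E (nat_lit 19) (nat_lit 0x1eb8f486e836e16b8b0057c2ac141899042d205101c7e83de1ee0014006001) (nat_lit 0))) (L (E (nat_lit 21) (nat_lit 0x8564161f88e946d2308128886042e216101c7b83b91ad05d82cc0bc0578014006001) (nat_lit 0)))) (N (nat_lit 2857) (L (E (nat_lit 28) (nat_lit 0x42b20b0f5c7a43861ba0db86da3641accd485ae2c015f0ab0506279132087c430205101c7e83de0b30014006001) (nat_lit 0))) (L (E (nat_lit 19) (nat_lit 0x1c00dd46e83639644b00558222107c81c3e01ef0f707983c61680014006001) (nat_lit 0))))) (N (nat_lit 2860) (N (nat_lit 2859) (L (E (nat_lit 12) (nat_lit 0x3821bb4d906b63599a88d1807c0370014006001) (nat_lit 0))) (L (E (nat_lit 7) (nat_lit 0x13c899e4b52528014006001) (nat_lit 0)))) (L (E (nat_lit 12) (nat_lit 0x27993a09c84e2269133096a3f91fa0014006001) (nat_lit 0)))))) (N (nat_lit 2869) (N (nat_lit 2865) (N (nat_lit 2863) (N (nat_lit 2862) (L (E (nat_lit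 9) (nat_lit 0x43021710b080c3f71f80014006001) (nat_lit 0))) (L (E (nat_lit 16) (nat_lit 0x36e1acc9e64e827213889a44cc25a90c080c3f41ef0014006001) (nat_lit 0)))) (N (nat_lit 2864) (L (E (nat_lit 10) (nat_lit 0xa0c504218107080c3f51ee0014006001) (nat_lit 0))) (L (E (nat_lit 19) (nat_lit 0x1b70d664f327413909c44d226612e096a4a621810187bc3dc0ba0014006001) (nat_lit 0))))) (N (nat_lit 2866) (L (E (nat_lit 8) (nat_lit 0x27110c48144061ef0014006001) (nat_lit 0))) (N (nat_lit 2868) (N (nat_lit 2867) (L (E (nat_lit 18) (nat_lit 0xdb86b327993a09c84e226913309704b525310c080c3de0ba0014006001) (nat_lit 0))) (L (E (nat_lit 17) (nat_lit 0x6dc27993a09c84e226913309704b5253102880c3de0ba0014006001) (nat_lit 0)))) (L (E (nat_lit 12) (nat_lit 0x36c1ac899e4b525290608083f51550014006001) (nat_lit 0)))))) (L (E (nat_lit 8) (nat_lit 0x21810b88383f51ee0014006001) (nat_lit 0)))))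
def cl55 : RA := N (nat_lit 2918) (N (nat_lit 2906) (N (nat_lit 2900) (N (nat_lit 2899) (N (nat_lit 2898) (L (E (nat_lit 8) (nat_lit 0x27a138899c4cc25a8014006001) (nat_lit 0))) (L (E (nat_lit 7) (nat_lit 0x138899c4cc25a8014006001) (nat_lit 0)))) (L (E (nat_lit 11) (nat_lit 0x1b70d664e226612d488841c2050014006001) (nat_lit 0)))) (N (nat_lit 2903) (N (nat_lit 2902) (N (nat_lit 2901) (L (E (nat_lit 11) (nat_lit 0xb785802ac1550a7051428613d0014006001) (nat_lit 0))) (L (E (nat_lit 19) (nat_lit 0x1c48db86b32c013d49984b825a91108143f81e30c285582921430014006001) (nat_lit 0)))) (L (E (nat_lit 13) (nat_lit 0x44420e8fe07e02c01560a7052428a1430014006001) (nat_lit 0)))) (N (nat_lit 2904) (L (E (nat_lit 12) (nat_lit 0x36e16009ea4e426612e096a40a1850014006001) (nat_lit 0))) (N (nat_lit 2905) (L (E (nat_lit 16) (nat_lit 0x3761ac8d604f4271133096a45421810b885841c1fc0014006001) (nat_lit 0))) (L (E (nat_lit 18) (nat_lit 0xe1c6dc35913d09c44cc25a915085c42c20e10287f03de1e60014006001)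 (nat_lit 0))))))) (N (nat_lit 2912) (N (nat_lit 2910) (N (nat_lit 2909) (N (nat_lit 2908) (N (nat_lit 2907) (L (E (nat_lit 11) (nat_lit 0x1ac89e84e226612f096a4311ef0014006001) (nat_lit 0))) (L (E (nat_lit 10) (nat_lit 0xd644f4271133096a42e20e0014006001) (nat_lit 0)))) (L (E (nat_lit 10) (nat_lit 0xdb86b226612d494842f2038014006001) (nat_lit 0)))) (L (E (nat_lit 10) (nat_lit 0xdb86b227a13889984b520e0014006001) (nat_lit 0)))) (N (nat_lit 2911) (L (E (nat_lit 10) (nat_lit 0xdb84f4271133096a41c2050014006001) (nat_lit 0))) (L (E (nat_lit 13) (nat_lit 0x4f4279133096a4a720e901c7ea3e61ee0014006001) (nat_lit 0))))) (N (nat_lit 2915) (N (nat_lit 2914) (N (nat_lit 2913) (L (E (nat_lit 16) (nat_lit 0x38f1c30dd46e82c71598a1450227113709984b52538014006001) (nat_lit 0))) (L (E (nat_lit 12) (nat_lit 0x35996009e84e426612d483a3f81850014006001) (nat_lit 0)))) (L (E (nat_lit 11) (nat_lit 0x115085841e20b102880e3f41ee0014006001) (nat_lit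 0)))) (N (nat_lit 2917) (N (nat_lit 2916) (L (E (nat_lit 18) (nat_lit 0xf486a234f15788a843c21710b083c41620510207e83f01ee0014006001) (nat_lit 0))) (L (E (nat_lit 12) (nat_lit 0x34f142c9e84e226612f096a4181ee0014006001) (nat_lit 0)))) (L (E (nat_lit 11) (nat_lit 0x13a09c84e226f13289484a22500014006001) (nat_lit 0))))))) (N (nat_lit 2931) (N (nat_lit 2925) (N (nat_lit 2921) (N (nat_lit 2919) (L (E (nat_lit 12) (nat_lit 0x2c71598a0a4b52520af85582aa1430014006001) (nat_lit 0))) (N (nat_lit 2920) (L (E (nat_lit 13) (nat_lit 0x56627b937c9984b5252107480e29c1430014006001) (nat_lit 0))) (L (E (nat_lit 16) (nat_lit 0x2c71598a4850727113709984bc25a911087c2f01560014006001) (nat_lit 0))))) (N (nat_lit 2923) (N (nat_lit 2922) (L (E (nat_lit 13) (nat_lit 0x56628d14289be4cc25a90747f23f51ee0014006001) (nat_lit 0))) (L (E (nat_lit 11) (nat_lit 0x1638acc50525a929057c2ac1430014006001) (nat_lit 0)))) (N (nat_lit 2924) (L (E (nat_lit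 18) (nat_lit 0xf5c7a42c71600acc50a27913309704b525210b880c2be1560014006001) (nat_lit 0))) (L (E (nat_lit 15) (nat_lit 0x1428a084df26612e096042e205101c7ec3f41ec0014006001) (nat_lit 0)))))) (N (nat_lit 2927) (N (nat_lit 2926) (L (E (nat_lit 7) (nat_lit 0x1acc9c44cc25a8014006001) (nat_lit 0))) (L (E (nat_lit 10) (nat_lit 0xd6450526612d49484321e50014006001) (nat_lit 0)))) (N (nat_lit 2930) (N (nat_lit 2929) (N (nat_lit 2928) (L (E (nat_lit 15) (nat_lit 0x1e90db86d83591600a0850227b93309704b52520014006001) (nat_lit 0))) (L (E (nat_lit 16) (nat_lit 0x3d21b70db058028513d09c84e226612e096a4321e50014006001) (nat_lit 0)))) (L (E (nat_lit 11) (nat_lit 0x140c9c44cc25c12d48644302170014006001) (nat_lit 0)))) (L (E (nat_lit 6) (nat_lit 0x9c44cc25a8014006001) (nat_lit 0)))))) (N (nat_lit 2939) (N (nat_lit 2935) (N (nat_lit 2933) (N (nat_lit 2932) (L (E (nat_lit 12) (nat_lit 0x21910c085c42c20e10208043c61dc0014006001) (nat_lit 0)))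 (L (E (nat_lit 9) (nat_lit 0x1ca0d006083001750b08014006001) (nat_lit 0)))) (N (nat_lit 2934) (L (E (nat_lit 19) (nat_lit 0x10f086442e216107081c4021fa8f607943b80e5063830417a0aa0014006001) (nat_lit 0))) (L (E (nat_lit 13) (nat_lit 0x454216101c7e81ca0d0063830417a0aa0014006001) (nat_lit 0))))) (N (nat_lit 2937) (N (nat_lit 2936) (L (E (nat_lit 14) (nat_lit 0xd6641e20e10187f03f41f80ac053026612e0014006001) (nat_lit 0))) (L (E (nat_lit 23) (nat_lit 0x1acc8a84312160fd07e02e41670af85602a414c0a284cc25c0e5063830417a0aa0014006001) (nat_lit 0)))) (N (nat_lit 2938) (L (E (nat_lit 14) (nat_lit 0xd6662a30010f086443021710b08384061f80014006001) (nat_lit 0))) (L (E (nat_lit 31) (nat_lit 0x1c28c546002bc14d896a45421e10c885c42c20e10388043d81e50ee05c82ce15f0ac054829812e072831c17a0aa0014006001) (nat_lit 0)))))) (N (nat_lit 2940) (L (E (nat_lit 6) (nat_lit 0x85e4071ec0014006001) (nat_lit 0))) (N (nat_lit 2941) (L (E (nat_lit 17) (nat_lit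 0x6d434615e0a6c4b522a110087842c20c0bf853025c0630014006001) (nat_lit 0))) (L (E (nat_lit 14) (nat_lit 0xd6650a271932897843020b10188083f015d0014006001) (nat_lit 0)))))))
def cl56 : RA := N (nat_lit 2870) (N (nat_lit 2827) (N (nat_lit 2805) (N (nat_lit 2800) (N (nat_lit 2796) (N (nat_lit 2795) (N (nat_lit 2794) (N (nat_lit 2793) (L (E (nat_lit 45) (nat_lit 0x7903c61e18eac74e3a31c10df86fa3751b50d946b13511938b7c5782b41578aa451226c130887843220b10388164062020fc07da2e41670b1057c2ba1520a8051426a12f0014006001) (nat_lit 0))) (L (E (nat_lit 11) (nat_lit 0x111482c40b20310107e02d21670014006001) (nat_lit 0)))) (L (E (nat_lit 18) (nat_lit 0x88043c20b102c80c4041fc8fc05c82d21670af85742a41450014006001) (nat_lit 0)))) (L (E (nat_lit 26) (nat_lit 0xe8c6e935d1ac8b7c5782af15489c64d826112d494844021e0fe47e83ed1ef0b9054829806e0014006001) (nat_lit 0)))) (N (nat_lit 2798) (N (nat_lit 2797) (L (E (nat_lit 12) (nat_lit 0x3751ba0db86d43611af8d6444021e0014006001)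 (nat_lit 0))) (L (E (nat_lit 24) (nat_lit 0x3a31b50d746b22df15e0abc55227192d482c4041fc8fd07c03dc1720b3854829806e0014006001) (nat_lit 0)))) (N (nat_lit 2799) (L (E (nat_lit 16) (nat_lit 0x36a1ac8af04e627213789984b51fc8fd07da2a414c0014006001) (nat_lit 0))) (L (E (nat_lit 13) (nat_lit 0x6b227a13909a64cc26392d47f23f41f68014006001) (nat_lit 0)))))) (N (nat_lit 2801) (L (E (nat_lit 6) (nat_lit 0xd644b51fa0014006001) (nat_lit 0))) (N (nat_lit 2803) (N (nat_lit 2802) (L (E (nat_lit 18) (nat_lit 0xe006d43651af8d646a228713d09984bc25a92c081c4061698014006001) (nat_lit 0))) (L (E (nat_lit 8) (nat_lit 0x1670b045582a814e0014006001) (nat_lit 0)))) (N (nat_lit 2804) (L (E (nat_lit 10) (nat_lit 0x5a42d01670aa054029c1450014006001) (nat_lit 0))) (L (E (nat_lit 16) (nat_lit 0x3801b28d7c6b228713d09984bc25a92c081c4061698014006001) (nat_lit 0))))))) (N (nat_lit 2819) (N (nat_lit 2812) (N (nat_lit 2808) (N (nat_lit 2807) (N (nat_lit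 2806) (L (E (nat_lit 17) (nat_lit 0x6be359143896a4b0220107081c4061e60f187782ce1540014006001) (nat_lit 0))) (L (E (nat_lit 7) (nat_lit 0x1418a044cd25a8014006001) (nat_lit 0)))) (L (E (nat_lit 16) (nat_lit 0x3801b28d646b027a13889984bc25a92c081c4061698014006001) (nat_lit 0)))) (N (nat_lit 2810) (N (nat_lit 2809) (L (E (nat_lit 24) (nat_lit 0x3f41b28d8c6b235817b89e84e226612f096a4b0249103880c3a61698b385381720b50014006001) (nat_lit 0))) (L (E (nat_lit 24) (nat_lit 0x3f41b28d8c6b235817b8a4850227112f096a4b0249103880c3a61698b385381720b50014006001) (nat_lit 0)))) (N (nat_lit 2811) (L (E (nat_lit 9) (nat_lit 0x52428214089ea4cc25a8014006001) (nat_lit 0))) (L (E (nat_lit 14) (nat_lit 0xa1c50628213d09c44cc25e12d49241760b90014006001) (nat_lit 0)))))) (N (nat_lit 2815) (N (nat_lit 2814) (N (nat_lit 2813) (L (E (nat_lit 16) (nat_lit 0x2d71490a1c50428113889984bc25c12d49241760b90014006001) (nat_lit 0))) (L (E (nat_lit 23) (nat_lit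 0x1b18d7c6b22921438a044b825a92c08a844020710187963c61670aa05381720b50014006001) (nat_lit 0)))) (L (E (nat_lit 8) (nat_lit 0x279133496a4b02528014006001) (nat_lit 0)))) (N (nat_lit 2817) (N (nat_lit 2816) (L (E (nat_lit 8) (nat_lit 0x292140899a4b52580014006001) (nat_lit 0))) (L (E (nat_lit 15) (nat_lit 0x1b18d846b23511490a0e4df26792909444922460014006001) (nat_lit 0)))) (N (nat_lit 2818) (L (E (nat_lit 13) (nat_lit 0x45c22010b88144061f80b485a02ac13a0014006001) (nat_lit 0))) (L (E (nat_lit 10) (nat_lit 0x88842020e106082c40e2040014006001) (nat_lit 0))))))) (N (nat_lit 2825) (N (nat_lit 2822) (N (nat_lit 2821) (N (nat_lit 2820) (L (E (nat_lit 22) (nat_lit 0xa0c50227b93709744b525212488b8444220106082c40e20410185a02ba1560014006001) (nat_lit 0))) (L (E (nat_lit 23) (nat_lit 0x1b18d646a229214089e84e226612d494849222e1110880416207102080c2d015d0014006001) (nat_lit 0)))) (L (E (nat_lit 8) (nat_lit 0x29214089ea4cc25a8014006001)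 (nat_lit 0)))) (N (nat_lit 2824) (N (nat_lit 2823) (L (E (nat_lit 19) (nat_lit 0x1dd0dd86da3631ac8a0c4f4271133096a4b0252927885842820b0014006001) (nat_lit 0))) (L (E (nat_lit 24) (nat_lit 0x3ba1b08d646a229214089c44cc25a92c092445c222110085841620710185a02ba0b50014006001) (nat_lit 0)))) (L (E (nat_lit 12) (nat_lit 0x3631ac89704b522010147bc29c0b90014006001) (nat_lit 0))))) (N (nat_lit 2826) (L (E (nat_lit 8) (nat_lit 0x35910288104062020014006001) (nat_lit 0))) (L (E (nat_lit 21) (nat_lit 0x7e83871c30e0870237e1ba8d8c5ee26312e096a4a424d0e9858429213c0014006001) (nat_lit 0))))))) (cl54)) (N (nat_lit 2897) (N (nat_lit 2882) (N (nat_lit 2878) (N (nat_lit 2876) (N (nat_lit 2874) (N (nat_lit 2873) (N (nat_lit 2872) (N (nat_lit 2871) (L (E (nat_lit 11) (nat_lit 0x1418a084e827213487f21740b90014006001) (nat_lit 0))) (L (E (nat_lit 22) (nat_lit 0xdb86d83599600a3851a28a13cc9c84cc21810b88304041fc0fd477030a1550014006001) (nat_lit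 0)))) (L (E (nat_lit 13) (nat_lit 0x51a28313889a44cc25a92948604071fa8014006001) (nat_lit 0)))) (L (E (nat_lit 11) (nat_lit 0x1c10db86da36c1b20d8c6c235a0014006001) (nat_lit 0)))) (N (nat_lit 2875) (L (E (nat_lit 13) (nat_lit 0x87842b1bb4dd46dc3599ab8d463440a00014006001) (nat_lit 0))) (L (E (nat_lit 34) (nat_lit 0x10f08564221da0e9873a3751ba0db86da36c1b20d6c6b33571a30c646303171600af84301fc0d105542860cb06483181400700014006001) (nat_lit 0))))) (N (nat_lit 2877) (L (E (nat_lit 13) (nat_lit 0x51a27993a09c44d226612d494a4302038014006001) (nat_lit 0))) (L (E (nat_lit 7) (nat_lit 0x13889984b52528014006001) (nat_lit 0))))) (N (nat_lit 2881) (N (nat_lit 2879) (L (E (nat_lit 10) (nat_lit 0xe246b427112908623f51ee0014006001) (nat_lit 0))) (N (nat_lit 2880) (L (E (nat_lit 7) (nat_lit 0x13889984b52058014006001) (nat_lit 0))) (L (E (nat_lit 7) (nat_lit 0x10c48144071ef8014006001) (nat_lit 0))))) (L (E (nat_lit 8) (nat_lit 0x4301eb8dda5901850014006001)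 (nat_lit 0))))) (N (nat_lit 2886) (N (nat_lit 2884) (N (nat_lit 2883) (L (E (nat_lit 7) (nat_lit 0x1acc82e4061ed8014006001) (nat_lit 0))) (L (E (nat_lit 10) (nat_lit 0xd6643120510187ec3f41f80014006001) (nat_lit 0)))) (N (nat_lit 2885) (L (E (nat_lit 9) (nat_lit 0x6b320510188083f81fa0014006001) (nat_lit 0))) (L (E (nat_lit 8) (nat_lit 0x35993889984b52188014006001) (nat_lit 0))))) (N (nat_lit 2889) (N (nat_lit 2887) (L (E (nat_lit 10) (nat_lit 0xd6644421810b88383f81f80014006001) (nat_lit 0))) (N (nat_lit 2888) (L (E (nat_lit 18) (nat_lit 0xf5c6ea3741b20b1c56628292d494848e23f10c07f02ce1550014006001) (nat_lit 0))) (L (E (nat_lit 11) (nat_lit 0x1acc9c44cc25a90b88383f81fa0014006001) (nat_lit 0))))) (N (nat_lit 2893) (N (nat_lit 2891) (N (nat_lit 2890) (L (E (nat_lit 12) (nat_lit 0x35993c89c44cc25a90b883840a1fa0014006001) (nat_lit 0))) (L (E (nat_lit 11) (nat_lit 0x1acc9c44cc25a90b883840a1fa0014006001) (nat_lit 0))))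 (N (nat_lit 2892) (L (E (nat_lit 15) (nat_lit 0x15989e64e226612d488043020e0fe47b838a1680014006001) (nat_lit 0))) (L (E (nat_lit 10) (nat_lit 0x9ec4f427913889984bc25a8014006001) (nat_lit 0))))) (N (nat_lit 2895) (N (nat_lit 2894) (L (E (nat_lit 15) (nat_lit 0x1c08d946b328514189e44e226612d496042f1ec0014006001) (nat_lit 0))) (L (E (nat_lit 13) (nat_lit 0x6ec3751b50d6069e2c015e0ad65662ad0014006001) (nat_lit 0)))) (N (nat_lit 2896) (L (E (nat_lit 11) (nat_lit 0x1b70d664e226612d485e3f91fa0014006001) (nat_lit 0))) (L (E (nat_lit 11) (nat_lit 0x1b70d664e226612d483840a1fa0014006001) (nat_lit 0))))))))) (cl55))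
def cl57 : RA := N (nat_lit 2959) (N (nat_lit 2958) (N (nat_lit 2954) (N (nat_lit 2953) (N (nat_lit 2948) (N (nat_lit 2945) (N (nat_lit 2944) (N (nat_lit 2943) (L (E (nat_lit 19) (nat_lit 0x1b50c5457826612e096a49824b12508a84021720a6039418e0bd0014006001) (nat_lit 0))) (L (E (nat_lit 13) (nat_lit 0x6b327192d49484062020fd07b02e41470014006001) (nat_lit 0)))) (L (E (nat_lit 22) (nat_lit 0xfc875e3ad1d58e1e6ca3631b08bd04a01cf0e286fc2ce1610ac05582a81400014006001) (nat_lit 0)))) (N (nat_lit 2947) (N (nat_lit 2946) (L (E (nat_lit 26) (nat_lit 0xfc87863af1d68eac74e38f1c58e006ca3631accbd04a02228e286fc2ce1610ac05582a81400014006001) (nat_lit 0))) (L (E (nat_lit 32) (nat_lit 0x3f21d78eb47563a71c78e2c7003651b18d665e82df15e0abc4f3250112088038a1bf0b9059c2c21580ab055028e1400014006001) (nat_lit 0)))) (L (E (nat_lit 31) (nat_lit 0x1d78eb471e38b1c00d8c6b32df15e0ad055e28193d89e84a022411008124051fc8e286fc2e41680b0856028e1400014006001)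 (nat_lit 0))))) (N (nat_lit 2951) (N (nat_lit 2950) (N (nat_lit 2949) (L (E (nat_lit 9) (nat_lit 0x50628214089a64ca2520014006001) (nat_lit 0))) (L (E (nat_lit 25) (nat_lit 0x75a38f1c58d8c6b32df15e0ad055e28193d8940448217902480a3f41ef8b9056028e1400014006001) (nat_lit 0)))) (L (E (nat_lit 25) (nat_lit 0x75a38f1c58d8c6b335116f8af05682af140c9ec4a022410c08124051ef8b9056028e1400014006001) (nat_lit 0)))) (N (nat_lit 2952) (L (E (nat_lit 25) (nat_lit 0x75a38f1c58d8c6b335116f8af05682af140c9ec4a022410c08384051ef8b9056028e1400014006001) (nat_lit 0))) (L (E (nat_lit 25) (nat_lit 0x75a38f1c58d8c6b335116f8af05682af140c9ec4a0224107080a3f41e50b9056028e1400014006001) (nat_lit 0)))))) (L (E (nat_lit 8) (nat_lit 0x218901c7f03f41f80014006001) (nat_lit 0)))) (N (nat_lit 2955) (L (E (nat_lit 11) (nat_lit 0x111087c43c20e10207f23f41ee0014006001) (nat_lit 0))) (N (nat_lit 2956) (L (E (nat_lit 7) (nat_lit 0x115087e4182020014006001) (nat_lit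 0))) (N (nat_lit 2957) (L (E (nat_lit 17) (nat_lit 0x7163891b60da86c635993d89e84e425e12d485a41c1fb0014006001) (nat_lit 0))) (L (E (nat_lit 19) (nat_lit 0x1d68e2c6d436313d89e84e425a90f887841c2038fe47e82ce1580014006001) (nat_lit 0))))))) (L (E (nat_lit 5) (nat_lit 0x4cc25a8014006001) (nat_lit 0)))) (N (nat_lit 2972) (N (nat_lit 2966) (N (nat_lit 2965) (N (nat_lit 2963) (N (nat_lit 2961) (N (nat_lit 2960) (L (E (nat_lit 11) (nat_lit 0x1ba0db06c835993d49d04b52470014006001) (nat_lit 0))) (L (E (nat_lit 14) (nat_lit 0xa084f726e13347c03dc1ed0b905a42c01450014006001) (nat_lit 0)))) (N (nat_lit 2962) (L (E (nat_lit 20) (nat_lit 0x3891ba0db06c835993709744b524710b885041f2070fe07c03da1720014006001) (nat_lit 0))) (L (E (nat_lit 9) (nat_lit 0x6b325a907080e3f81fa0014006001) (nat_lit 0))))) (N (nat_lit 2964) (L (E (nat_lit 8) (nat_lit 0x35992d48384071fa0014006001) (nat_lit 0))) (L (E (nat_lit 10) (nat_lit 0xd664b520e10608104041fa0014006001)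 (nat_lit 0))))) (L (E (nat_lit 8) (nat_lit 0x359906080c4041ef0014006001) (nat_lit 0)))) (N (nat_lit 2969) (N (nat_lit 2968) (N (nat_lit 2967) (L (E (nat_lit 12) (nat_lit 0x27b139096a41c20c10107f23f51ee0014006001) (nat_lit 0))) (L (E (nat_lit 14) (nat_lit 0xdd06d835a15989ec4f4272137c96a42c2020014006001) (nat_lit 0)))) (L (E (nat_lit 12) (nat_lit 0x36c1ad0acc4f627a139096a4171fa8014006001) (nat_lit 0)))) (N (nat_lit 2970) (L (E (nat_lit 11) (nat_lit 0x107083041620390107ea3f01ee0014006001) (nat_lit 0))) (N (nat_lit 2971) (L (E (nat_lit 14) (nat_lit 0xdd06d835994109ee4dc26690708304041fa8014006001) (nat_lit 0))) (L (E (nat_lit 8) (nat_lit 0x359939096a41c20b8014006001) (nat_lit 0))))))) (N (nat_lit 2973) (L (E (nat_lit 5) (nat_lit 0x4e525a8014006001) (nat_lit 0))) (N (nat_lit 2980) (N (nat_lit 2977) (N (nat_lit 2975) (N (nat_lit 2974) (L (E (nat_lit 8) (nat_lit 0x35992d48384071fa8014006001) (nat_lit 0))) (L (E (nat_lit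 12) (nat_lit 0x36c1acc9ea4b5218107857c2aa14e0014006001) (nat_lit 0)))) (N (nat_lit 2976) (L (E (nat_lit 10) (nat_lit 0x9ec4f426f12d483a4071fc0014006001) (nat_lit 0))) (L (E (nat_lit 13) (nat_lit 0x6c635a1ac0d1c4f627a137896a41d2038014006001) (nat_lit 0))))) (N (nat_lit 2979) (N (nat_lit 2978) (L (E (nat_lit 13) (nat_lit 0x6c63599a389ec4b520e90608083de14e0014006001) (nat_lit 0))) (L (E (nat_lit 11) (nat_lit 0x16c0acc50426f93185a42be13d0014006001) (nat_lit 0)))) (L (E (nat_lit 17) (nat_lit 0x71e3871c08db46d83631acc97a3d01e70f287783ac1610014006001) (nat_lit 0))))) (N (nat_lit 2982) (N (nat_lit 2981) (L (E (nat_lit 22) (nat_lit 0xe1c70236d1b60d8c6b326f134896a49420e8fe07943bc1d60b585a42c214e0014006001) (nat_lit 0))) (L (E (nat_lit 8) (nat_lit 0x35992d48304041fa8014006001) (nat_lit 0)))) (N (nat_lit 2984) (N (nat_lit 2983) (L (E (nat_lit 11) (nat_lit 0x1b74db06ca3611ae8d606a23470014006001) (nat_lit 0))) (L (E (nat_lit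 16) (nat_lit 0x3d61c48e086da36c1b28d906ba3599a88d1c68c2f70014006001) (nat_lit 0)))) (L (E (nat_lit 9) (nat_lit 0x6b326f12d483a4071fc8014006001) (nat_lit 0))))))))
def cl58 : RA := N (nat_lit 3042) (N (nat_lit 3029) (N (nat_lit 3024) (N (nat_lit 3020) (N (nat_lit 3019) (N (nat_lit 3018) (L (E (nat_lit 16) (nat_lit 0x36d1b0cd686b227b13909c44dc266132899041c1fa8014006001) (nat_lit 0))) (L (E (nat_lit 14) (nat_lit 0xdb46c335a13d89c84e226e13208384071fb0014006001) (nat_lit 0)))) (L (E (nat_lit 10) (nat_lit 0xd3e4f6271133086041c2040014006001) (nat_lit 0)))) (N (nat_lit 3022) (N (nat_lit 3021) (L (E (nat_lit 10) (nat_lit 0xdb46b43591a789984ca2640014006001) (nat_lit 0))) (L (E (nat_lit 15) (nat_lit 0x1b68d866b43591a7c9ec4e4271137099041c2038014006001) (nat_lit 0)))) (N (nat_lit 3023) (L (E (nat_lit 15) (nat_lit 0x1d20d906b235813dc9be4cc25e929891c3da13b0014006001) (nat_lit 0))) (L (E (nat_lit 17) (nat_lit 0x7483601ac8d604f726f933094c48e222101c7ee3da13b0014006001)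 (nat_lit 0)))))) (N (nat_lit 3028) (N (nat_lit 3026) (N (nat_lit 3025) (L (E (nat_lit 12) (nat_lit 0x36d1b60d686b228113dc94c41c1fa8014006001) (nat_lit 0))) (L (E (nat_lit 10) (nat_lit 0xdb46c335a13909be41c2038014006001) (nat_lit 0)))) (N (nat_lit 3027) (L (E (nat_lit 17) (nat_lit 0x70436e1ad086042c20e105880e3f81fa8b9859c2921430014006001) (nat_lit 0))) (L (E (nat_lit 14) (nat_lit 0xdb46b435913dc9bc4cc24990f08384071670014006001) (nat_lit 0))))) (L (E (nat_lit 8) (nat_lit 0x3819bf4d686b23580014006001) (nat_lit 0))))) (N (nat_lit 3035) (N (nat_lit 3032) (N (nat_lit 3031) (N (nat_lit 3030) (L (E (nat_lit 12) (nat_lit 0x34f93d89c44cc249911087841c2038014006001) (nat_lit 0))) (L (E (nat_lit 18) (nat_lit 0xdd46c335a1a88d3e4e4267129088843c20e101c7f03f41490014006001) (nat_lit 0)))) (L (E (nat_lit 9) (nat_lit 0x6da3619ad09c841c2038014006001) (nat_lit 0)))) (N (nat_lit 3033) (L (E (nat_lit 12) (nat_lit 0x3b31d50e1e4cc24990707ea2aa1430014006001)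 (nat_lit 0))) (N (nat_lit 3034) (L (E (nat_lit 16) (nat_lit 0x27213389984b8249910086042820f10608144041fa0014006001) (nat_lit 0))) (L (E (nat_lit 10) (nat_lit 0xdd46db3619ad09c64a42038014006001) (nat_lit 0)))))) (N (nat_lit 3039) (N (nat_lit 3037) (N (nat_lit 3036) (L (E (nat_lit 9) (nat_lit 0x4f627a13889b84cc2650014006001) (nat_lit 0))) (L (E (nat_lit 17) (nat_lit 0x6ec3751b70d906c335a13d89c44dc25c90c083840a1fc0014006001) (nat_lit 0)))) (N (nat_lit 3038) (L (E (nat_lit 12) (nat_lit 0x3751b6cd866b427112e48384071fc0014006001) (nat_lit 0))) (L (E (nat_lit 13) (nat_lit 0x6ea36d9b0cd684e427112e483840a2038014006001) (nat_lit 0))))) (N (nat_lit 3040) (L (E (nat_lit 9) (nat_lit 0x52426713309944c62520014006001) (nat_lit 0))) (N (nat_lit 3041) (L (E (nat_lit 14) (nat_lit 0xdd86ea3619ad09ec4e427112f097241c2038014006001) (nat_lit 0))) (L (E (nat_lit 12) (nat_lit 0x3751b6cd866b4272138897241c2038014006001) (nat_lit 0))))))))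 (N (nat_lit 3047) (N (nat_lit 3044) (N (nat_lit 3043) (L (E (nat_lit 19) (nat_lit 0x1d20d906b235813dc9c84e226e13309904bd253128891c3da13b0014006001) (nat_lit 0))) (L (E (nat_lit 10) (nat_lit 0xd644f726612e08384071fa0014006001) (nat_lit 0)))) (N (nat_lit 3045) (L (E (nat_lit 7) (nat_lit 0x146c9ec4e22660014006001) (nat_lit 0))) (N (nat_lit 3046) (L (E (nat_lit 11) (nat_lit 0x1b6cd866b427213888384071fa0014006001) (nat_lit 0))) (L (E (nat_lit 11) (nat_lit 0x1ba8db66c027a92908384071fa8014006001) (nat_lit 0)))))) (N (nat_lit 3054) (N (nat_lit 3050) (N (nat_lit 3049) (N (nat_lit 3048) (L (E (nat_lit 14) (nat_lit 0xd866b427a13909c44dc26512f48304041fa8014006001) (nat_lit 0))) (L (E (nat_lit 8) (nat_lit 0x3619ad09c841c2038014006001) (nat_lit 0)))) (L (E (nat_lit 5) (nat_lit 0x5af2c89600af0001) (nat_lit 0)))) (N (nat_lit 3052) (N (nat_lit 3051) (L (E (nat_lit 14) (nat_lit 0xf5c7023781ba8db86b22e31600af04dd1850014006001)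 (nat_lit 0))) (L (E (nat_lit 11) (nat_lit 0x1bc0db06c035915e09ee4ca25c0014006001) (nat_lit 0)))) (N (nat_lit 3053) (L (E (nat_lit 15) (nat_lit 0x110087c42e21690708144072010fd07bc3da1ec0014006001) (nat_lit 0))) (L (E (nat_lit 7) (nat_lit 0x1b0c9ee41c2038014006001) (nat_lit 0)))))) (N (nat_lit 3058) (N (nat_lit 3056) (N (nat_lit 3055) (L (E (nat_lit 15) (nat_lit 0x1bc0d8c6b227b13d49c84e2266132883040b2020014006001) (nat_lit 0))) (L (E (nat_lit 11) (nat_lit 0x1ba8d804f627210b883840a1fc8014006001) (nat_lit 0)))) (N (nat_lit 3057) (L (E (nat_lit 18) (nat_lit 0xde06ea3619ad8d4443021710708104041fc0fd07e03de1ee0014006001) (nat_lit 0))) (L (E (nat_lit 15) (nat_lit 0x1bc0d866b63591a889ea4cc20e101c7f03f41ef0014006001) (nat_lit 0))))) (N (nat_lit 3059) (L (E (nat_lit 13) (nat_lit 0x6f03631b0cd6c6a227213888384071ef0014006001) (nat_lit 0))) (L (E (nat_lit 9) (nat_lit 0x70e3801b80db86da36c0014006001) (nat_lit 0)))))))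
def cl59 : RA := N (nat_lit 3091) (N (nat_lit 3075) (N (nat_lit 3068) (N (nat_lit 3063) (N (nat_lit 3062) (N (nat_lit 3061) (L (E (nat_lit 19) (nat_lit 0x1d98dd46c335a940c9c84ce266124c8384071fc0fd47d83da1430014006001) (nat_lit 0))) (L (E (nat_lit 14) (nat_lit 0xa064e426713309704a420a10208043f71ed0014006001) (nat_lit 0)))) (L (E (nat_lit 8) (nat_lit 0x3769b74d866b63510014006001) (nat_lit 0)))) (N (nat_lit 3066) (N (nat_lit 3065) (N (nat_lit 3064) (L (E (nat_lit 15) (nat_lit 0x1e50ecc75427b13b885e4142010fdc7b42aa1430014006001) (nat_lit 0))) (L (E (nat_lit 21) (nat_lit 0x7ea3ec1c98e3c6f036f1b70db46d82f80dd056029e13c06301540860250014006001) (nat_lit 0)))) (L (E (nat_lit 13) (nat_lit 0x59c2c015485a02ce1580ab452428b1430014006001) (nat_lit 0)))) (N (nat_lit 3067) (L (E (nat_lit 7) (nat_lit 0x1b0c9c841c2038014006001) (nat_lit 0))) (L (E (nat_lit 9) (nat_lit 0x6c2359146c9ec4cc2038014006001) (nat_lit 0)))))) (N (nat_lit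 3071) (N (nat_lit 3069) (L (E (nat_lit 11) (nat_lit 0x1c08db06c235a9ac09ba4cc2650014006001) (nat_lit 0))) (N (nat_lit 3070) (L (E (nat_lit 7) (nat_lit 0x1ac89c841c2038014006001) (nat_lit 0))) (L (E (nat_lit 14) (nat_lit 0x9e84e427113389984ca25d10188083f01ec0014006001) (nat_lit 0))))) (N (nat_lit 3073) (N (nat_lit 3072) (L (E (nat_lit 12) (nat_lit 0x27b93309784a420310107ec3f01500014006001) (nat_lit 0))) (L (E (nat_lit 13) (nat_lit 0x71e35914189ec4f427213889964bc2020014006001) (nat_lit 0)))) (N (nat_lit 3074) (L (E (nat_lit 16) (nat_lit 0x38f1ac89ea4dd26612988ae41c2020fe47b82e414e0014006001) (nat_lit 0))) (L (E (nat_lit 16) (nat_lit 0x22210f884041c2040fe47e83dc1720b405802a814e0014006001) (nat_lit 0))))))) (N (nat_lit 3083) (N (nat_lit 3079) (N (nat_lit 3077) (N (nat_lit 3076) (L (E (nat_lit 17) (nat_lit 0x71e3751ac8a0c4f6272138899c4cb25210708083f01720014006001) (nat_lit 0))) (L (E (nat_lit 11) (nat_lit 0x1ac8abc502271937099040a2020014006001)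 (nat_lit 0)))) (N (nat_lit 3078) (L (E (nat_lit 10) (nat_lit 0x10c07003751ba0dbe59a2af0014006001) (nat_lit 0))) (L (E (nat_lit 18) (nat_lit 0x10c07003751ba0db86d43619668abc49624912308584081fa0014006001) (nat_lit 0))))) (N (nat_lit 3081) (N (nat_lit 3080) (L (E (nat_lit 11) (nat_lit 0xb405602a014f0a7053028e13e0014006001) (nat_lit 0))) (L (E (nat_lit 19) (nat_lit 0x1e60ef47583801b70d906c635b16d0b345922bf15785c82e016f0014006001) (nat_lit 0)))) (N (nat_lit 3082) (L (E (nat_lit 31) (nat_lit 0x1de8eb071e36e1b18d8659228314089b84b0253128092443f21810708103f41720b4056029c14706883080b80520014006001) (nat_lit 0))) (L (E (nat_lit 27) (nat_lit 0x1de8e3c6c63619ac8b2450628113e09ec4dc2581298940492217902c8083ed1720ac053828e0d10014006001) (nat_lit 0)))))) (N (nat_lit 3087) (N (nat_lit 3085) (N (nat_lit 3084) (L (E (nat_lit 21) (nat_lit 0x50627c13d09bc4c822210f883840820310107f23f41f80f807b82e414e0014006001) (nat_lit 0))) (L (E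 (nat_lit 21) (nat_lit 0x71e3631b0cd6450628113e09e84dc26592c094c4a0249102c8082e41470014006001) (nat_lit 0)))) (N (nat_lit 3086) (L (E (nat_lit 14) (nat_lit 0xa044f426e132c9744162020fd87e83f01ee0014006001) (nat_lit 0))) (L (E (nat_lit 21) (nat_lit 0x75836e1b60d846be3591418a044f426e132c9744b4258128087e4062020014006001) (nat_lit 0))))) (N (nat_lit 3089) (N (nat_lit 3088) (L (E (nat_lit 17) (nat_lit 0x50628214089e84de26412c088043e20590188083f01ef0014006001) (nat_lit 0))) (L (E (nat_lit 16) (nat_lit 0x35f1ac8a3250227b13d09b84cb25c92c092440b2020014006001) (nat_lit 0)))) (N (nat_lit 3090) (L (E (nat_lit 14) (nat_lit 0xd906c23591a9096843e20410188083f91ee0014006001) (nat_lit 0))) (L (E (nat_lit 17) (nat_lit 0x6ea3641b00d606a234610f885e4082020fd07e03ed1ee0014006001) (nat_lit 0)))))))) (N (nat_lit 3104) (N (nat_lit 3098) (N (nat_lit 3094) (N (nat_lit 3092) (L (E (nat_lit 10) (nat_lit 0xd644f6272137099641c2020014006001)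 (nat_lit 0))) (N (nat_lit 3093) (L (E (nat_lit 7) (nat_lit 0x1ac880c4041fa8014006001) (nat_lit 0))) (L (E (nat_lit 9) (nat_lit 0x4b421f10188083ed1ee8014006001) (nat_lit 0))))) (N (nat_lit 3096) (N (nat_lit 3095) (L (E (nat_lit 13) (nat_lit 0x6d835914689ec4e425e10f885e4041f68014006001) (nat_lit 0))) (L (E (nat_lit 10) (nat_lit 0xe3c6ea35913308823f91fa0014006001) (nat_lit 0)))) (N (nat_lit 3097) (L (E (nat_lit 13) (nat_lit 0x71e36c1ac8a344f627210f88384041f68014006001) (nat_lit 0))) (L (E (nat_lit 12) (nat_lit 0x3591468a084e426f13709684b02020014006001) (nat_lit 0)))))) (N (nat_lit 3100) (N (nat_lit 3099) (L (E (nat_lit 8) (nat_lit 0x36c1ac89c841c2020014006001) (nat_lit 0))) (L (E (nat_lit 16) (nat_lit 0x3741b20d866ba3511a30a0c50428113d89c44cc2650014006001) (nat_lit 0)))) (N (nat_lit 3102) (N (nat_lit 3101) (L (E (nat_lit 5) (nat_lit 0x65f32618f0c54618) (nat_lit 0))) (L (E (nat_lit 10) (nat_lit 0x5842c015f0ae05642ad1490014006001)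 (nat_lit 0)))) (N (nat_lit 3103) (L (E (nat_lit 29) (nat_lit 0x7d83741b20d866ba3511a30cd066632718f0c6051828213d89c84e226613288602de15f0ae052027a12e0014006001) (nat_lit 0))) (L (E (nat_lit 28) (nat_lit 0x3641ae8d646ae3331938c6051828213909c44cc25d125086040a2038f707b43c61dd0b7857c29013d0014006001) (nat_lit 0))))))) (N (nat_lit 3111) (N (nat_lit 3108) (N (nat_lit 3106) (N (nat_lit 3105) (L (E (nat_lit 12) (nat_lit 0x3591ab89c44dc266128492840a2038014006001) (nat_lit 0))) (L (E (nat_lit 9) (nat_lit 0x2de1670acc53c29c13b0014006001) (nat_lit 0)))) (N (nat_lit 3107) (L (E (nat_lit 25) (nat_lit 0x81a3d71e90ed074839a1c08dd46dc3619718b004dd2038c285bc2ce1610a785202760430014006001) (nat_lit 0))) (L (E (nat_lit 16) (nat_lit 0x3b41cd0d646ae27b933092840a2038b7853c2900430014006001) (nat_lit 0))))) (N (nat_lit 3109) (L (E (nat_lit 9) (nat_lit 0x6d8359139087e4041fa0014006001) (nat_lit 0))) (N (nat_lit 3110) (L (E (nat_lit 9) (nat_lit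 0x4f5266128887c41d2038014006001) (nat_lit 0))) (L (E (nat_lit 11) (nat_lit 0x1b0ca064f5272137c87c41d2038014006001) (nat_lit 0)))))) (N (nat_lit 3115) (N (nat_lit 3113) (N (nat_lit 3112) (L (E (nat_lit 9) (nat_lit 0x6c327a93909be4041fa0014006001) (nat_lit 0))) (L (E (nat_lit 16) (nat_lit 0x36c1b0cd644f627213889b84a420f10288104041fa0014006001) (nat_lit 0)))) (N (nat_lit 3114) (L (E (nat_lit 16) (nat_lit 0x3601ac8d604f726e13309944c825d129883c3f81fa0014006001) (nat_lit 0))) (L (E (nat_lit 9) (nat_lit 0x6d835913909b84041fa0014006001) (nat_lit 0))))) (N (nat_lit 3117) (N (nat_lit 3116) (L (E (nat_lit 10) (nat_lit 0xdb06b227213288104041fa0014006001) (nat_lit 0))) (L (E (nat_lit 12) (nat_lit 0x21f107882c4071fc0fb074c3681b20014006001) (nat_lit 0)))) (L (E (nat_lit 9) (nat_lit 0x2de1670acc53828613b0014006001) (nat_lit 0)))))))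
def cl60 : RA := N (nat_lit 3141) (N (nat_lit 3128) (N (nat_lit 3122) (N (nat_lit 3121) (N (nat_lit 3120) (N (nat_lit 3119) (L (E (nat_lit 30) (nat_lit 0xf5c71e3811ba8d746b230c1488a30514283137486442e20f102880e3f81f60f787b43ce1770b0850c2760620014006001) (nat_lit 0))) (L (E (nat_lit 14) (nat_lit 0xd644f726612e086442e20f10588144071ef0014006001) (nat_lit 0)))) (L (E (nat_lit 15) (nat_lit 0x1b0ca044f526f933087c41d2038fe074c2f01430014006001) (nat_lit 0)))) (L (E (nat_lit 7) (nat_lit 0x1b60d644e42020014006001) (nat_lit 0)))) (N (nat_lit 3124) (N (nat_lit 3123) (L (E (nat_lit 6) (nat_lit 0xd644051fc0014006001) (nat_lit 0))) (L (E (nat_lit 16) (nat_lit 0x28c94109c84dc26993309944bc220102880c3f61f80014006001) (nat_lit 0)))) (N (nat_lit 3126) (N (nat_lit 3125) (L (E (nat_lit 24) (nat_lit 0x3d71d78eb47563a51d20e8c70e3831c08e006ea3701b68db06b234a1a38b6058e2be0014006001) (nat_lit 0))) (L (E (nat_lit 31) (nat_lit 0x1eb8ebc75a3ab1d20e8c70e3831c08e006f03751b80db06c035a1ac8d2868e2f416c0b1c4cc2160f8071436814e8014006001)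 (nat_lit 0)))) (N (nat_lit 3127) (L (E (nat_lit 13) (nat_lit 0x2e61720b805bc2d21680af85602ac1540014006001) (nat_lit 0))) (L (E (nat_lit 9) (nat_lit 0x6d8359139099443f2050014006001) (nat_lit 0))))))) (N (nat_lit 3134) (N (nat_lit 3132) (N (nat_lit 3130) (N (nat_lit 3129) (L (E (nat_lit 10) (nat_lit 0xe046b222010f88583f61ef8014006001) (nat_lit 0))) (L (E (nat_lit 17) (nat_lit 0x6b227a13909984ca25e117c87c41820b103880c3f61fa0014006001) (nat_lit 0)))) (N (nat_lit 3131) (L (E (nat_lit 18) (nat_lit 0xdd46c035913909984ca22f90f883841820b102880c3f91fa0014006001) (nat_lit 0))) (L (E (nat_lit 17) (nat_lit 0x6b2272134c9984ca263917c87c41820b102880c3f91fa0014006001) (nat_lit 0))))) (N (nat_lit 3133) (L (E (nat_lit 9) (nat_lit 0x4e426613289784b82520014006001) (nat_lit 0))) (L (E (nat_lit 16) (nat_lit 0x36c1ac89c84d3265131c83041620510188043f91fa0014006001) (nat_lit 0))))) (N (nat_lit 3136) (N (nat_lit 3135) (L (E (nat_lit 7)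 (nat_lit 0x1b60d644e42650014006001) (nat_lit 0))) (L (E (nat_lit 11) (nat_lit 0x1ba8db66c027b939899c4cb2520014006001) (nat_lit 0)))) (N (nat_lit 3139) (N (nat_lit 3138) (N (nat_lit 3137) (L (E (nat_lit 9) (nat_lit 0x6b2272132c97840b2028014006001) (nat_lit 0))) (L (E (nat_lit 10) (nat_lit 0xe046b228314108122de14e0014006001) (nat_lit 0)))) (L (E (nat_lit 19) (nat_lit 0x1418a084f4272133899649622010b083c41c205102080a3f91ef8014006001) (nat_lit 0)))) (N (nat_lit 3140) (L (E (nat_lit 14) (nat_lit 0xdb06ba35914189e84e4267125887e40a1fc8014006001) (nat_lit 0))) (L (E (nat_lit 13) (nat_lit 0x71e3751ac899845721f10c883a3f91fa0014006001) (nat_lit 0)))))))) (N (nat_lit 3155) (N (nat_lit 3147) (N (nat_lit 3144) (N (nat_lit 3143) (N (nat_lit 3142) (L (E (nat_lit 16) (nat_lit 0x4041ea0dd46c035716b8b185562a90b4059c29c14c8014006001) (nat_lit 0))) (L (E (nat_lit 13) (nat_lit 0x71e35914189e84e4266132c83a4061fc8014006001) (nat_lit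 0)))) (L (E (nat_lit 7) (nat_lit 0x1c30dd06c13590014006001) (nat_lit 0)))) (N (nat_lit 3146) (N (nat_lit 3145) (L (E (nat_lit 16) (nat_lit 0x3f21c78d645e8283139099645f21810708303f91fa8014006001) (nat_lit 0))) (L (E (nat_lit 15) (nat_lit 0x13909784b825a129087a4092010f7878c2921450014006001) (nat_lit 0)))) (L (E (nat_lit 14) (nat_lit 0x10c071e3811c00de06ea36d1b28d6459a2af0014006001) (nat_lit 0))))) (N (nat_lit 3151) (N (nat_lit 3149) (N (nat_lit 3148) (L (E (nat_lit 14) (nat_lit 0x10c070c3749b68db06c335116f8b745b02d70014006001) (nat_lit 0))) (L (E (nat_lit 30) (nat_lit 0x10c07e438f1c00de06ca3619a88b9c5be2dd1578a9c50527b13d09c84bc21e90248043de1e30d605241480290014006001) (nat_lit 0)))) (N (nat_lit 3150) (L (E (nat_lit 28) (nat_lit 0x4301f90eb07003651b0cb9c5ba27b13d09c84bc216106082c40e20310087ec3f41ef0e2833c1480290014006001) (nat_lit 0))) (L (E (nat_lit 17) (nat_lit 0x7e436c1ac8bd04f627a139086041820b10288043f90a40014006001)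 (nat_lit 0))))) (N (nat_lit 3153) (N (nat_lit 3152) (L (E (nat_lit 7) (nat_lit 0x1b60d644f42720014006001) (nat_lit 0))) (L (E (nat_lit 17) (nat_lit 0x6ea36c1ac8d5c4f2272129885c40a2030fe47be2c014e0014006001) (nat_lit 0)))) (N (nat_lit 3154) (L (E (nat_lit 25) (nat_lit 0x6b235715489ea4e426f13389984c8249120087c41e20510207f23f41f00f785382921430014006001) (nat_lit 0))) (L (E (nat_lit 13) (nat_lit 0x6b227a93909984bc25c12988604281430014006001) (nat_lit 0))))))) (N (nat_lit 3156) (L (E (nat_lit 6) (nat_lit 0xdb06b22720014006001) (nat_lit 0))) (N (nat_lit 3160) (N (nat_lit 3158) (N (nat_lit 3157) (L (E (nat_lit 13) (nat_lit 0x4f5273132c9744a620f10287e83f01ef0014006001) (nat_lit 0))) (L (E (nat_lit 13) (nat_lit 0x6ea36193d49944b920510107f23de1dd0014006001) (nat_lit 0)))) (N (nat_lit 3159) (L (E (nat_lit 11) (nat_lit 0x1b60d6451a27a92e48143de14e0014006001) (nat_lit 0))) (L (E (nat_lit 8) (nat_lit 0x28d13d49ca4cc25c0014006001)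 (nat_lit 0))))) (N (nat_lit 3163) (N (nat_lit 3162) (N (nat_lit 3161) (L (E (nat_lit 11) (nat_lit 0x1ac89ea4cb25d12987e03de1470014006001) (nat_lit 0))) (L (E (nat_lit 16) (nat_lit 0x28313c899044821e10b88164061f80f785642a01470014006001) (nat_lit 0)))) (L (E (nat_lit 25) (nat_lit 0x7003781ba8da86c635914189ec4f2271133099044821e10b88163f01ef0f705642a01470014006001) (nat_lit 0)))) (N (nat_lit 3164) (L (E (nat_lit 15) (nat_lit 0x1bc0d6450427a93289724b421e10787f23de1590014006001) (nat_lit 0))) (L (E (nat_lit 8) (nat_lit 0x36c1ac89ea4cc1ef0014006001) (nat_lit 0))))))))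
def cl61 : RA := N (nat_lit 3186) (N (nat_lit 3174) (N (nat_lit 3168) (N (nat_lit 3166) (L (E (nat_lit 6) (nat_lit 0xd644061fc0014006001) (nat_lit 0))) (N (nat_lit 3167) (L (E (nat_lit 14) (nat_lit 0x10288083d61ea0dda6c335b1ab8d3c68c2c60014006001) (nat_lit 0))) (L (E (nat_lit 10) (nat_lit 0x3841a40d106783381840b90014006001) (nat_lit 0))))) (N (nat_lit 3170) (N (nat_lit 3169) (L (E (nat_lit 7) (nat_lit 0x1b60d644cc1ef0014006001) (nat_lit 0))) (L (E (nat_lit 12) (nat_lit 0x21e10e085e2ce1610ac854029e14e0014006001) (nat_lit 0)))) (N (nat_lit 3173) (N (nat_lit 3172) (N (nat_lit 3171) (L (E (nat_lit 21) (nat_lit 0x8083d41c00d9059c2c610f08584162038fe47ea3f01f30b3857c2b214f0014006001) (nat_lit 0))) (L (E (nat_lit 11) (nat_lit 0xb4059c2b21500a7853827a13b0014006001) (nat_lit 0)))) (L (E (nat_lit 21) (nat_lit 0x6f03641ac8a304fa27c13d89e84cd25a12a889041e205101c7f23de1590014006001) (nat_lit 0)))) (L (E (nat_lit 9) (nat_lit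 0x6b227293348143f91ef0014006001) (nat_lit 0)))))) (N (nat_lit 3180) (N (nat_lit 3177) (N (nat_lit 3176) (N (nat_lit 3175) (L (E (nat_lit 9) (nat_lit 0x43021710847f03681ad0014006001) (nat_lit 0))) (L (E (nat_lit 7) (nat_lit 0xad051e28b1350014006001) (nat_lit 0)))) (L (E (nat_lit 8) (nat_lit 0x22b10c480e3f81fa8014006001) (nat_lit 0)))) (N (nat_lit 3179) (N (nat_lit 3178) (L (E (nat_lit 20) (nat_lit 0x3f41bc0dd46c636197b897043221810b884441e2038fe06f435a1470014006001) (nat_lit 0))) (L (E (nat_lit 16) (nat_lit 0x3781ba8d864ca252115885c41e2038fe07ea2ce1458014006001) (nat_lit 0)))) (L (E (nat_lit 6) (nat_lit 0x51e28b1350014006001) (nat_lit 0))))) (N (nat_lit 3183) (N (nat_lit 3182) (N (nat_lit 3181) (L (E (nat_lit 14) (nat_lit 0x5dc2ea1670ac855a2a014f0a705342921470014006001) (nat_lit 0))) (L (E (nat_lit 10) (nat_lit 0x5842c01590ac055a29e1490014006001) (nat_lit 0)))) (L (E (nat_lit 9) (nat_lit 0x6d835913d48143de14e0014006001)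 (nat_lit 0)))) (N (nat_lit 3184) (L (E (nat_lit 16) (nat_lit 0x35913e09ec4f4271133896844020f10287f03f41ef0014006001) (nat_lit 0))) (N (nat_lit 3185) (L (E (nat_lit 12) (nat_lit 0x3611ac89e84b421910c085c40a2038014006001) (nat_lit 0))) (L (E (nat_lit 16) (nat_lit 0x3781b60d644f827b13d096843021710788143f81ef0014006001) (nat_lit 0)))))))) (N (nat_lit 3199) (N (nat_lit 3191) (N (nat_lit 3187) (L (E (nat_lit 8) (nat_lit 0x22b10c480e3f81f80014006001) (nat_lit 0))) (N (nat_lit 3189) (N (nat_lit 3188) (L (E (nat_lit 16) (nat_lit 0x3781b60d644f827b12d086042e20f10287f03de14e0014006001) (nat_lit 0))) (L (E (nat_lit 14) (nat_lit 0xdd46c328c1428a08434217901c7ec29e14e0014006001) (nat_lit 0)))) (N (nat_lit 3190) (L (E (nat_lit 8) (nat_lit 0x36c1ac88143de14e0014006001) (nat_lit 0))) (L (E (nat_lit 10) (nat_lit 0x5a42d01670aa850c0aa0430014006001) (nat_lit 0)))))) (N (nat_lit 3195) (N (nat_lit 3193) (N (nat_lit 3192) (L (E (nat_lit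 18) (nat_lit 0xe006c82dd1670afc5782b20b385842b21550a4850c0aa0430014006001) (nat_lit 0))) (L (E (nat_lit 9) (nat_lit 0x2f01770b0c5542a014e8014006001) (nat_lit 0)))) (N (nat_lit 3194) (L (E (nat_lit 25) (nat_lit 0x6f037516e8afc5782b2111088043c20e10608104041fb8fc07bc2ce1610ac85542921430014006001) (nat_lit 0))) (L (E (nat_lit 8) (nat_lit 0x2ce1668b225522a70014006001) (nat_lit 0))))) (N (nat_lit 3197) (N (nat_lit 3196) (L (E (nat_lit 8) (nat_lit 0x4301bb4b345522a70014006001) (nat_lit 0))) (L (E (nat_lit 7) (nat_lit 0x1b60d6440a1ef0014006001) (nat_lit 0)))) (N (nat_lit 3198) (L (E (nat_lit 16) (nat_lit 0x31e115889040b2030fc07182be15d0ac85602aa14e8014006001) (nat_lit 0))) (L (E (nat_lit 11) (nat_lit 0xb985a02c315f0a8053c29c1350014006001) (nat_lit 0))))))) (N (nat_lit 3204) (N (nat_lit 3201) (N (nat_lit 3200) (L (E (nat_lit 6) (nat_lit 0xdb06b21ef0014006001) (nat_lit 0))) (L (E (nat_lit 11) (nat_lit 0x1c08de06b227b13889684452030014006001)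 (nat_lit 0)))) (N (nat_lit 3203) (N (nat_lit 3202) (L (E (nat_lit 11) (nat_lit 0x1c08d644e525e12805ca29c1450014006001) (nat_lit 0))) (L (E (nat_lit 12) (nat_lit 0x3591ac09ca4bc20590187be2a014e0014006001) (nat_lit 0)))) (L (E (nat_lit 10) (nat_lit 0xd686b227d13d09ca4bc2500014006001) (nat_lit 0))))) (N (nat_lit 3208) (N (nat_lit 3206) (N (nat_lit 3205) (L (E (nat_lit 7) (nat_lit 0x1ba8d644f52658014006001) (nat_lit 0))) (L (E (nat_lit 11) (nat_lit 0x1bb4d644f5211108080c3be1720014006001) (nat_lit 0)))) (N (nat_lit 3207) (L (E (nat_lit 8) (nat_lit 0x3751b0c80c2c314e0014006001) (nat_lit 0))) (L (E (nat_lit 10) (nat_lit 0x9ea4061f80b0856429c1450014006001) (nat_lit 0))))) (N (nat_lit 3210) (N (nat_lit 3209) (L (E (nat_lit 9) (nat_lit 0x6b435913d09ca4cb25e0014006001) (nat_lit 0))) (L (E (nat_lit 8) (nat_lit 0x36c1ac897840614e0014006001) (nat_lit 0)))) (N (nat_lit 3211) (L (E (nat_lit 12) (nat_lit 0x36c1ad0d644f426512f09684061ee0014006001)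 (nat_lit 0))) (L (E (nat_lit 10) (nat_lit 0xdb06ca35912f080c3f61500014006001) (nat_lit 0))))))))
def cl62 : RA := N (nat_lit 3239) (N (nat_lit 3227) (N (nat_lit 3223) (N (nat_lit 3221) (N (nat_lit 3219) (N (nat_lit 3218) (L (E (nat_lit 13) (nat_lit 0x70036e1460a144f827a139099a4bc25a0014006001) (nat_lit 0))) (L (E (nat_lit 11) (nat_lit 0x1c00db851827213289784b42030014006001) (nat_lit 0)))) (N (nat_lit 3220) (L (E (nat_lit 9) (nat_lit 0x41c20510188083f81e70014006001) (nat_lit 0))) (L (E (nat_lit 10) (nat_lit 0xde251826512d085e4061f80014006001) (nat_lit 0))))) (N (nat_lit 3222) (L (E (nat_lit 9) (nat_lit 0x42f2030fe07e83f01ed0014006001) (nat_lit 0))) (L (E (nat_lit 8) (nat_lit 0x218107080c3f51ed0014006001) (nat_lit 0))))) (N (nat_lit 3225) (N (nat_lit 3224) (L (E (nat_lit 16) (nat_lit 0x35f18989944b425810c08384061f80f787b43d814a0014006001) (nat_lit 0))) (L (E (nat_lit 9) (nat_lit 0x6ea27a13289684061f80014006001)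 (nat_lit 0)))) (N (nat_lit 3226) (L (E (nat_lit 11) (nat_lit 0x132c9704a6252102c80a3f01f00014006001) (nat_lit 0))) (L (E (nat_lit 15) (nat_lit 0x1c98dd44f326592f09704a420f107080a3f91f00014006001) (nat_lit 0)))))) (N (nat_lit 3234) (N (nat_lit 3231) (N (nat_lit 3230) (N (nat_lit 3229) (N (nat_lit 3228) (L (E (nat_lit 12) (nat_lit 0x26592f097042f20510147f23ed1ef8014006001) (nat_lit 0))) (L (E (nat_lit 11) (nat_lit 0x1ba89e84bc25c12d08384051ef8014006001) (nat_lit 0)))) (L (E (nat_lit 10) (nat_lit 0x9e84ba25a10147ec3df1e78014006001) (nat_lit 0)))) (L (E (nat_lit 12) (nat_lit 0x35213d09cc4e4271137899c4ba2530014006001) (nat_lit 0)))) (N (nat_lit 3233) (N (nat_lit 3232) (L (E (nat_lit 11) (nat_lit 0x1c3cdda5e82af0e7871437e0a40014006001) (nat_lit 0))) (L (E (nat_lit 19) (nat_lit 0x1c98dda6ca2f413d09cc4cb25e12e488a38a1bf0dc06d034a0a40014006001) (nat_lit 0)))) (L (E (nat_lit 17) (nat_lit 0x7263801ba8dd06be3521490a084f427313909964bc25c8014006001)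 (nat_lit 0))))) (N (nat_lit 3236) (N (nat_lit 3235) (L (E (nat_lit 9) (nat_lit 0x4f4272932c9744a62520014006001) (nat_lit 0))) (L (E (nat_lit 14) (nat_lit 0xdb04f427213889bc4ce25d12989484061f80014006001) (nat_lit 0)))) (N (nat_lit 3238) (N (nat_lit 3237) (L (E (nat_lit 19) (nat_lit 0x1c98dda6ca2f413d09964bc25c910087c42c2108f7c7143700a40014006001) (nat_lit 0))) (L (E (nat_lit 18) (nat_lit 0xdd45e828314089c84dc26592e48a842f20c10587e03df0a40014006001) (nat_lit 0)))) (L (E (nat_lit 12) (nat_lit 0x27a12e896842e20e102880a3f61ef8014006001) (nat_lit 0))))))) (N (nat_lit 3251) (N (nat_lit 3246) (N (nat_lit 3243) (N (nat_lit 3241) (N (nat_lit 3240) (L (E (nat_lit 10) (nat_lit 0xdd44f425e12d08384051ef8014006001) (nat_lit 0))) (L (E (nat_lit 9) (nat_lit 0x4f426592f09744041f80014006001) (nat_lit 0)))) (N (nat_lit 3242) (L (E (nat_lit 11) (nat_lit 0x1ba89e84bc25a107080c3f01ef8014006001) (nat_lit 0))) (L (E (nat_lit 15) (nat_lit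 0x16389bc4c825d92d09484a01780a2850c2781330014006001) (nat_lit 0))))) (N (nat_lit 3244) (L (E (nat_lit 10) (nat_lit 0xdd44f425e12d080c3f01ef8014006001) (nat_lit 0))) (N (nat_lit 3245) (L (E (nat_lit 12) (nat_lit 0x38f1ba8db06c62cd15788384051ef0014006001) (nat_lit 0))) (L (E (nat_lit 10) (nat_lit 0xdd44f425e12e89684061f80014006001) (nat_lit 0)))))) (N (nat_lit 3248) (N (nat_lit 3247) (L (E (nat_lit 19) (nat_lit 0x1ba8dd06dc36c1b20d7c57c28314109f04e425e12e096841c2040014006001) (nat_lit 0))) (L (E (nat_lit 7) (nat_lit 0xb485862a01480014006001) (nat_lit 0)))) (N (nat_lit 3250) (N (nat_lit 3249) (L (E (nat_lit 15) (nat_lit 0x1ba8d9050627a12f09704b425310188083f01480014006001) (nat_lit 0))) (L (E (nat_lit 8) (nat_lit 0x28314089ee4cb25c0014006001) (nat_lit 0)))) (L (E (nat_lit 14) (nat_lit 0xab44f625e10c08384181fb0f387963c61d30014006001) (nat_lit 0)))))) (N (nat_lit 3255) (N (nat_lit 3253) (N (nat_lit 3252) (L (E (nat_lit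 9) (nat_lit 0x6ea27a12f09684061f80014006001) (nat_lit 0))) (L (E (nat_lit 7) (nat_lit 0x107480c3f81f80014006001) (nat_lit 0)))) (N (nat_lit 3254) (L (E (nat_lit 8) (nat_lit 0x207102880c4041fc0014006001) (nat_lit 0))) (L (E (nat_lit 8) (nat_lit 0x25d12d09544051ef0014006001) (nat_lit 0))))) (N (nat_lit 3257) (N (nat_lit 3256) (L (E (nat_lit 8) (nat_lit 0x37513d09684061f80014006001) (nat_lit 0))) (L (E (nat_lit 7) (nat_lit 0xa705342981478014006001) (nat_lit 0)))) (N (nat_lit 3259) (N (nat_lit 3258) (L (E (nat_lit 16) (nat_lit 0x27213389904b825a12905d42de1500a7053028e1430014006001) (nat_lit 0))) (L (E (nat_lit 16) (nat_lit 0x27a13389964ba25c12905d42de1610a6052428a13d0014006001) (nat_lit 0)))) (L (E (nat_lit 24) (nat_lit 0x3bc1db0e6c50427b13d099c4cb25d12a894844021610105d42de1610a6052428a13d0014006001) (nat_lit 0)))))))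
def cl63 : RA := N (nat_lit 3276) (N (nat_lit 3269) (N (nat_lit 3262) (N (nat_lit 3261) (L (E (nat_lit 9) (nat_lit 0x2f01610ab45302911430014006001) (nat_lit 0))) (L (E (nat_lit 7) (nat_lit 0x1c38dda6dc3570014006001) (nat_lit 0)))) (N (nat_lit 3266) (N (nat_lit 3264) (N (nat_lit 3263) (L (E (nat_lit 20) (nat_lit 0x3af1d68eb05642ad0bc05cc2de1690b385662a414f0a6052227a13b0014006001) (nat_lit 0))) (L (E (nat_lit 17) (nat_lit 0x74635213d89e84ca25e92e49684061520a6051427a13b0014006001) (nat_lit 0)))) (N (nat_lit 3265) (L (E (nat_lit 37) (nat_lit 0x7863bd1de0ed87663ac1d20e8c7363991c98db86ae3461950ca464e2d21648ab44191bf0d586a43461780b385882c215f0a605141600aa0014006001) (nat_lit 0))) (L (E (nat_lit 36) (nat_lit 0x3bc1db0eb074639b1c98db86a43461950ca45a427d13d09cc4ce26512e89704b425311006fc3561a50bc05a42c41610a605141600aa0014006001) (nat_lit 0))))) (N (nat_lit 3268) (N (nat_lit 3267) (L (E (nat_lit 30) (nat_lit 0xef076c3ac1d18e6c6dc3521948a304f627a139099c4ca25d12e09684a42200df86ac34a1690b0853028a0b00014006001)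 (nat_lit 0))) (L (E (nat_lit 36) (nat_lit 0x3bc1db0eb074639b1b70d4865228213d89e84ce25e92d0948440216108881c4062020fd87e837e1ab0d285bc2d21610a6051427a0b00014006001) (nat_lit 0)))) (L (E (nat_lit 6) (nat_lit 0x6b03561a78014006001) (nat_lit 0)))))) (N (nat_lit 3272) (N (nat_lit 3271) (N (nat_lit 3270) (L (E (nat_lit 16) (nat_lit 0x3769b70d826a23391968c943761ac0d5869434619f0014006001) (nat_lit 0))) (L (E (nat_lit 21) (nat_lit 0x6ea36e1a909ec4f426512f09764b425210188083561a50cf85bc2d21450014006001) (nat_lit 0)))) (L (E (nat_lit 7) (nat_lit 0x2180f5c6ed2c80014006001) (nat_lit 0)))) (N (nat_lit 3274) (N (nat_lit 3273) (L (E (nat_lit 21) (nat_lit 0x6ea36e1a909ec4f425e12e09684a424a10188083561a50cf85bc2d21450014006001) (nat_lit 0))) (L (E (nat_lit 9) (nat_lit 0x6ed36e1b50d5c59a2af0014006001) (nat_lit 0)))) (N (nat_lit 3275) (L (E (nat_lit 34) (nat_lit 0xef076c3ac1d18e186ea36e1a90ca450427b13d099c4b424a110085842220710188083f61ef8df86ac33e16f0b4858429813d0014006001)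 (nat_lit 0))) (L (E (nat_lit 17) (nat_lit 0x7783b61d90eb06ea36e1ab8d484f626592e49544941480014006001) (nat_lit 0))))))) (N (nat_lit 3288) (N (nat_lit 3284) (N (nat_lit 3280) (N (nat_lit 3278) (N (nat_lit 3277) (L (E (nat_lit 12) (nat_lit 0x37513d89e84e4267132c9704aa2520014006001) (nat_lit 0))) (L (E (nat_lit 14) (nat_lit 0xe046ea35d1a909ec4f4267132c9704aa2520014006001) (nat_lit 0)))) (N (nat_lit 3279) (L (E (nat_lit 9) (nat_lit 0x6ea35713cc9ca4cb2528014006001) (nat_lit 0))) (L (E (nat_lit 25) (nat_lit 0x7783b61d90eb07023751b70d746ae35214109ec4f4267132c9544941f00b485842981480014006001) (nat_lit 0))))) (N (nat_lit 3282) (N (nat_lit 3281) (L (E (nat_lit 14) (nat_lit 0xdd46dc3571a90a084ca25a129492848e2460014006001) (nat_lit 0))) (L (E (nat_lit 9) (nat_lit 0x2f01608a6051627a1350014006001) (nat_lit 0)))) (N (nat_lit 3283) (L (E (nat_lit 22) (nat_lit 0xf1077a3bc1dd8ed876a3b41d98ec87583a61d20e745a42d01648ad455629b0014006001)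 (nat_lit 0))) (L (E (nat_lit 33) (nat_lit 0x7863bd1de0ed87663b21d60e907463991a20b2455a27213389704a41780b7859c2c215f0ae85342981480a184f426a12f0014006001) (nat_lit 0)))))) (N (nat_lit 3287) (N (nat_lit 3286) (N (nat_lit 3285) (L (E (nat_lit 31) (nat_lit 0x1de0ed87643ac1d20e8c7323441568a3050327b13d09c84ce265129894849616f0b085742981480a104f426a12f0014006001) (nat_lit 0))) (L (E (nat_lit 12) (nat_lit 0x2d01648afc57c2b7156853c2981458014006001) (nat_lit 0)))) (L (E (nat_lit 11) (nat_lit 0x1bb4db86c11d30d786ac34e19f0014006001) (nat_lit 0)))) (L (E (nat_lit 7) (nat_lit 0x1ba89e84b42030014006001) (nat_lit 0))))) (N (nat_lit 3295) (N (nat_lit 3292) (N (nat_lit 3290) (N (nat_lit 3289) (L (E (nat_lit 13) (nat_lit 0x6ea36e14109ca4ca25d92d09484061450014006001) (nat_lit 0))) (L (E (nat_lit 13) (nat_lit 0x6ea36e14109dc4e526512d09484061450014006001) (nat_lit 0)))) (N (nat_lit 3291) (L (E (nat_lit 13) (nat_lit 0x4f527293289744b425210b080c4041568014006001)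 (nat_lit 0))) (L (E (nat_lit 14) (nat_lit 0xdd46dc28213b89ca4ca25a12908784061670014006001) (nat_lit 0))))) (N (nat_lit 3294) (N (nat_lit 3293) (L (E (nat_lit 10) (nat_lit 0x9ea4e526512ec94840a2030014006001) (nat_lit 0))) (L (E (nat_lit 9) (nat_lit 0x6ea27293289684a42030014006001) (nat_lit 0)))) (L (E (nat_lit 8) (nat_lit 0x272137099a4b42520014006001) (nat_lit 0))))) (N (nat_lit 3298) (N (nat_lit 3296) (L (E (nat_lit 9) (nat_lit 0x4ba25a12a88304061ef0014006001) (nat_lit 0))) (N (nat_lit 3297) (L (E (nat_lit 10) (nat_lit 0x9ea4e426512e89684a42030014006001) (nat_lit 0))) (L (E (nat_lit 13) (nat_lit 0x43c217102080a3f60da06c03501880b70014006001) (nat_lit 0))))) (N (nat_lit 3299) (L (E (nat_lit 9) (nat_lit 0x2f01720b485802a01480014006001) (nat_lit 0))) (N (nat_lit 3300) (L (E (nat_lit 8) (nat_lit 0x21810b88324081f80014006001) (nat_lit 0))) (L (E (nat_lit 11) (nat_lit 0x10b88324081fb0fc05c82c01480014006001) (nat_lit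 0))))))))
def cl64 : RA := N (nat_lit 3318) (N (nat_lit 3312) (N (nat_lit 3307) (N (nat_lit 3304) (N (nat_lit 3303) (N (nat_lit 3302) (L (E (nat_lit 17) (nat_lit 0x6a72ab154886442e20c90207ec2e41670b005702aa1480014006001) (nat_lit 0))) (L (E (nat_lit 8) (nat_lit 0x37513289684a42030014006001) (nat_lit 0)))) (L (E (nat_lit 7) (nat_lit 0x1ba89684a42030014006001) (nat_lit 0)))) (N (nat_lit 3306) (N (nat_lit 3305) (L (E (nat_lit 6) (nat_lit 0x87e4191f88014006001) (nat_lit 0))) (L (E (nat_lit 6) (nat_lit 0xdd44b42030014006001) (nat_lit 0)))) (L (E (nat_lit 15) (nat_lit 0x13d09dc4e226712e896a4a624a12489004082030014006001) (nat_lit 0))))) (N (nat_lit 3308) (L (E (nat_lit 6) (nat_lit 0x96a4a52030014006001) (nat_lit 0))) (N (nat_lit 3310) (N (nat_lit 3309) (L (E (nat_lit 12) (nat_lit 0x3641a8896a44521790188083da1670014006001) (nat_lit 0))) (L (E (nat_lit 13) (nat_lit 0x6a22cc15b8aa450625a90f085e4061670014006001) (nat_lit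 0)))) (N (nat_lit 3311) (L (E (nat_lit 15) (nat_lit 0x1a88b185682ab15488784082028f6c5dc2e01670014006001) (nat_lit 0))) (L (E (nat_lit 12) (nat_lit 0x27b13d09cc4e225d92d491c4082030014006001) (nat_lit 0))))))) (N (nat_lit 3316) (N (nat_lit 3313) (L (E (nat_lit 13) (nat_lit 0x4f627a13989c44ce25a923881040614f0014006001) (nat_lit 0))) (N (nat_lit 3315) (N (nat_lit 3314) (L (E (nat_lit 9) (nat_lit 0x4df26312d491c4061fa0014006001) (nat_lit 0))) (L (E (nat_lit 9) (nat_lit 0x2f01720b0853c2781330014006001) (nat_lit 0)))) (L (E (nat_lit 14) (nat_lit 0xa0c4f226312d491c44421e10b880a3a61780014006001) (nat_lit 0))))) (N (nat_lit 3317) (L (E (nat_lit 5) (nat_lit 0x6ea2030014006001) (nat_lit 0))) (L (E (nat_lit 12) (nat_lit 0x36d1ae8d444f527213749484402038014006001) (nat_lit 0)))))) (N (nat_lit 3331) (N (nat_lit 3325) (N (nat_lit 3322) (N (nat_lit 3320) (N (nat_lit 3319) (L (E (nat_lit 13) (nat_lit 0x6da35d1a889ea4e426f12d09484402038014006001)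 (nat_lit 0))) (L (E (nat_lit 13) (nat_lit 0x6dc36d140c9e84dc250924c85c4071e70014006001) (nat_lit 0)))) (N (nat_lit 3321) (L (E (nat_lit 9) (nat_lit 0x51b28c13d89e64e42710014006001) (nat_lit 0))) (L (E (nat_lit 21) (nat_lit 0x78a3c31e10db86da36c1b1888043e21e10587d82f01670b0853828613b0014006001) (nat_lit 0))))) (N (nat_lit 3324) (N (nat_lit 3323) (L (E (nat_lit 8) (nat_lit 0x37513909bc4a42170014006001) (nat_lit 0))) (L (E (nat_lit 19) (nat_lit 0x1eb8dd459a2851418a044f427112e89684302170ee85842ba1560014006001) (nat_lit 0)))) (L (E (nat_lit 5) (nat_lit 0x4e426692908fc005) (nat_lit 0))))) (N (nat_lit 3328) (N (nat_lit 3327) (N (nat_lit 3326) (L (E (nat_lit 18) (nat_lit 0xe186ea37416389e84e226e13309944c825d12d085c3ba1560014006001) (nat_lit 0))) (L (E (nat_lit 9) (nat_lit 0x71227112908624071fc0014006001) (nat_lit 0)))) (L (E (nat_lit 9) (nat_lit 0x70c37513909684a42170014006001) (nat_lit 0)))) (N (nat_lit 3330) (N (nat_lit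 3329) (L (E (nat_lit 11) (nat_lit 0x1a909ea4cc25a12948404071fc0014006001) (nat_lit 0))) (L (E (nat_lit 8) (nat_lit 0x35210c48404071fc0014006001) (nat_lit 0)))) (L (E (nat_lit 15) (nat_lit 0x1c98e006ea37416a8b3443e21810b87f03f51f60014006001) (nat_lit 0)))))) (N (nat_lit 3337) (N (nat_lit 3334) (N (nat_lit 3333) (N (nat_lit 3332) (L (E (nat_lit 15) (nat_lit 0x1c98e006ea2d01590a0a45a21810b87f03ec1430014006001) (nat_lit 0))) (L (E (nat_lit 16) (nat_lit 0x3931c78e2470c376925892448c22d10747e83de1ec8014006001) (nat_lit 0)))) (L (E (nat_lit 6) (nat_lit 0xdd44f52720014006001) (nat_lit 0)))) (N (nat_lit 3335) (L (E (nat_lit 12) (nat_lit 0x27a13b89c84e226e13349944b42528014006001) (nat_lit 0))) (N (nat_lit 3336) (L (E (nat_lit 13) (nat_lit 0x71e37514609e84ee27213349684a52400014006001) (nat_lit 0))) (L (E (nat_lit 15) (nat_lit 0x1ba8db04e4271132896843021710107f03f51f80014006001) (nat_lit 0)))))) (N (nat_lit 3341) (N (nat_lit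 3339) (N (nat_lit 3338) (L (E (nat_lit 18) (nat_lit 0xdd46d827213889944b825a10c085c4082020fe07e03de1ed0014006001) (nat_lit 0))) (L (E (nat_lit 12) (nat_lit 0x27a13909c44de26e13349944b42528014006001) (nat_lit 0)))) (N (nat_lit 3340) (L (E (nat_lit 12) (nat_lit 0x28c13c89ba42e2038fe47e83de1ec0014006001) (nat_lit 0))) (L (E (nat_lit 11) (nat_lit 0x14609c84b425290b880e3f91ed0014006001) (nat_lit 0))))) (N (nat_lit 3342) (L (E (nat_lit 9) (nat_lit 0x6ea27213889684a52170014006001) (nat_lit 0))) (L (E (nat_lit 8) (nat_lit 0x3861ba89c84b42170014006001) (nat_lit 0)))))))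
def cl65 : RA := N (nat_lit 3343) (cl64) (N (nat_lit 3363) (N (nat_lit 3356) (N (nat_lit 3349) (N (nat_lit 3346) (N (nat_lit 3344) (L (E (nat_lit 13) (nat_lit 0x71e37513e09ec4f4271137098c4b42470014006001) (nat_lit 0))) (N (nat_lit 3345) (L (E (nat_lit 16) (nat_lit 0x3781ba8d4c69a27c13d89e84e226312388ac41e1fc0014006001) (nat_lit 0))) (L (E (nat_lit 18) (nat_lit 0xde06ea28c13e09ec4f4271133494a49424712308ac41e1ed0014006001) (nat_lit 0))))) (N (nat_lit 3348) (N (nat_lit 3347) (L (E (nat_lit 12) (nat_lit 0x37514609e84e526690608083f91f80014006001) (nat_lit 0))) (L (E (nat_lit 16) (nat_lit 0x3751b609e84e526e933494843020c10107f03f00c00014006001) (nat_lit 0)))) (L (E (nat_lit 6) (nat_lit 0xdd44f42728014006001) (nat_lit 0))))) (N (nat_lit 3353) (N (nat_lit 3351) (N (nat_lit 3350) (L (E (nat_lit 25) (nat_lit 0x79c3879bc0d945c62d51670b2859122410c085c4071fc0fd45e02e61590a785242901350014006001) (nat_lit 0))) (L (E (nat_lit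 12) (nat_lit 0x3781bb4db86a22f610c080e3b907c0014006001) (nat_lit 0)))) (N (nat_lit 3352) (L (E (nat_lit 30) (nat_lit 0xf3870f3781bb4db86a22e316a8b2859125e92e0890430217107880e3da1780bb85cc2b214f0a404ec26a07c0014006001) (nat_lit 0))) (L (E (nat_lit 11) (nat_lit 0x1bf4dda50327a93709684a41fc0014006001) (nat_lit 0))))) (N (nat_lit 3355) (N (nat_lit 3354) (L (E (nat_lit 8) (nat_lit 0x28313c89ca4dd2650014006001) (nat_lit 0))) (L (E (nat_lit 9) (nat_lit 0x6ea36c132896842e1f80014006001) (nat_lit 0)))) (L (E (nat_lit 9) (nat_lit 0x71e3891c38e186ea3740014006001) (nat_lit 0)))))) (N (nat_lit 3357) (L (E (nat_lit 4) (nat_lit 0x3750014006001) (nat_lit 0))) (N (nat_lit 3360) (N (nat_lit 3359) (N (nat_lit 3358) (L (E (nat_lit 13) (nat_lit 0x6ca266129494243020e10207f03f01dc0014006001) (nat_lit 0))) (L (E (nat_lit 9) (nat_lit 0x6f0365140c9ec4f22660014006001) (nat_lit 0)))) (L (E (nat_lit 6) (nat_lit 0x9c64ca1f80014006001) (nat_lit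 0)))) (N (nat_lit 3362) (N (nat_lit 3361) (L (E (nat_lit 9) (nat_lit 0x4cb25010707f03f01ac0014006001) (nat_lit 0))) (L (E (nat_lit 7) (nat_lit 0x10c482c3f91f80014006001) (nat_lit 0)))) (L (E (nat_lit 5) (nat_lit 0x4e31f80014006001) (nat_lit 0))))))) (N (nat_lit 3369) (N (nat_lit 3364) (L (E (nat_lit 4) (nat_lit 0x2718014006001) (nat_lit 0))) (N (nat_lit 3366) (N (nat_lit 3365) (L (E (nat_lit 4) (nat_lit 0x1f88014006001) (nat_lit 0))) (L (E (nat_lit 7) (nat_lit 0x132c83c41c1fc0014006001) (nat_lit 0)))) (N (nat_lit 3368) (N (nat_lit 3367) (L (E (nat_lit 6) (nat_lit 0x9ec4ca2030014006001) (nat_lit 0))) (L (E (nat_lit 5) (nat_lit 0x4311fc0014006001) (nat_lit 0)))) (L (E (nat_lit 4) (nat_lit 0x2188014006001) (nat_lit 0)))))) (N (nat_lit 3376) (N (nat_lit 3372) (N (nat_lit 3371) (N (nat_lit 3370) (L (E (nat_lit 10) (nat_lit 0xa304e425c12d080e3f91ed0014006001) (nat_lit 0))) (L (E (nat_lit 5) (nat_lit 0x4071fc8014006001)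 (nat_lit 0)))) (L (E (nat_lit 5) (nat_lit 0x4ca1fc8014006001) (nat_lit 0)))) (N (nat_lit 3374) (N (nat_lit 3373) (L (E (nat_lit 17) (nat_lit 0x4f627713309904bc25a12806582f01450a184f02660060014006001) (nat_lit 0))) (L (E (nat_lit 7) (nat_lit 0x132c9784ba2500014006001) (nat_lit 0)))) (N (nat_lit 3375) (L (E (nat_lit 7) (nat_lit 0x13dc9e64ce25c0014006001) (nat_lit 0))) (L (E (nat_lit 13) (nat_lit 0x4f6277132c9784a020e8db06b02f01430014006001) (nat_lit 0)))))) (N (nat_lit 3378) (N (nat_lit 3377) (L (E (nat_lit 8) (nat_lit 0x277136898c4161fc8014006001) (nat_lit 0))) (L (E (nat_lit 5) (nat_lit 0x4061fc0014006001) (nat_lit 0)))) (N (nat_lit 3380) (N (nat_lit 3379) (L (E (nat_lit 7) (nat_lit 0x1b18a364f61e50014006001) (nat_lit 0))) (L (E (nat_lit 13) (nat_lit 0x6522f7133488043c1fc0f4079c3ca1610014006001) (nat_lit 0)))) (N (nat_lit 3381) (L (E (nat_lit 4) (nat_lit 0x25a0014006001) (nat_lit 0))) (L (E (nat_lit 3) (nat_lit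 0x14006001) (nat_lit 0)))))))))
def cl66 : RA := N (nat_lit 3060) (N (nat_lit 2942) (cl56) (N (nat_lit 2985) (cl57) (N (nat_lit 3017) (N (nat_lit 2999) (N (nat_lit 2991) (N (nat_lit 2990) (N (nat_lit 2988) (N (nat_lit 2987) (N (nat_lit 2986) (L (E (nat_lit 8) (nat_lit 0x359937896a4182020014006001) (nat_lit 0))) (L (E (nat_lit 11) (nat_lit 0x1c78dd46da36c1acc9ee4ce25d0014006001) (nat_lit 0)))) (L (E (nat_lit 11) (nat_lit 0x1c98e3c70c3751ba0b1c5662838014006001) (nat_lit 0)))) (N (nat_lit 2989) (L (E (nat_lit 16) (nat_lit 0x38f1ba8dd06d83641accb1c51828512f49744b52470014006001) (nat_lit 0))) (L (E (nat_lit 15) (nat_lit 0x1c30dd46d83599638a144b524710748083f81fa0014006001) (nat_lit 0))))) (L (E (nat_lit 7) (nat_lit 0x1acc96a4182020014006001) (nat_lit 0)))) (N (nat_lit 2997) (N (nat_lit 2994) (N (nat_lit 2992) (L (E (nat_lit 11) (nat_lit 0x1ba8db46d83651b18d846b43590014006001) (nat_lit 0))) (N (nat_lit 2993) (L (E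 (nat_lit 14) (nat_lit 0xd846b227213349784a421e10c085c4041f80014006001) (nat_lit 0))) (L (E (nat_lit 17) (nat_lit 0x6ea36c1b18d846b2282139099a4bc21e10c085c4041f80014006001) (nat_lit 0))))) (N (nat_lit 2995) (L (E (nat_lit 6) (nat_lit 0x96a41d2038014006001) (nat_lit 0))) (N (nat_lit 2996) (L (E (nat_lit 6) (nat_lit 0x97a4b52038014006001) (nat_lit 0))) (L (E (nat_lit 17) (nat_lit 0x6ea36c1b08d644f627213349784a225010708144041fb0014006001) (nat_lit 0)))))) (N (nat_lit 2998) (L (E (nat_lit 6) (nat_lit 0x96a4182020014006001) (nat_lit 0))) (L (E (nat_lit 6) (nat_lit 0xd644b52020014006001) (nat_lit 0)))))) (N (nat_lit 3013) (N (nat_lit 3006) (N (nat_lit 3003) (N (nat_lit 3001) (N (nat_lit 3000) (L (E (nat_lit 12) (nat_lit 0x35910b88324081f80b385882c01480014006001) (nat_lit 0))) (L (E (nat_lit 8) (nat_lit 0x359139099a4bc2020014006001) (nat_lit 0)))) (N (nat_lit 3002) (L (E (nat_lit 13) (nat_lit 0x6da36c1ae8d644ca22a10c883a4051ef8014006001)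 (nat_lit 0))) (L (E (nat_lit 13) (nat_lit 0x6b226f13289784b825a129094041c2028014006001) (nat_lit 0))))) (N (nat_lit 3005) (N (nat_lit 3004) (L (E (nat_lit 9) (nat_lit 0x6d835913d89c84cd25e0014006001) (nat_lit 0))) (L (E (nat_lit 8) (nat_lit 0x36c1ac89c84cd25e0014006001) (nat_lit 0)))) (L (E (nat_lit 6) (nat_lit 0xd644051fc0014006001) (nat_lit 0))))) (N (nat_lit 3009) (N (nat_lit 3008) (N (nat_lit 3007) (L (E (nat_lit 10) (nat_lit 0xd846b2272133896840a2038014006001) (nat_lit 0))) (L (E (nat_lit 18) (nat_lit 0xdd46c027913989c84e226f132894849e20e10608144041f80014006001) (nat_lit 0)))) (L (E (nat_lit 16) (nat_lit 0x3751b68d866b635110c885c4082020fe07e83de1ee0014006001) (nat_lit 0)))) (N (nat_lit 3011) (N (nat_lit 3010) (L (E (nat_lit 19) (nat_lit 0x1b0cd6c6a227913989c84cd24f126092848021910708083f81ef0014006001) (nat_lit 0))) (L (E (nat_lit 18) (nat_lit 0xdd46c335a96909e44e6272133493049424010c88083f81620014006001)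 (nat_lit 0)))) (N (nat_lit 3012) (L (E (nat_lit 18) (nat_lit 0xdd46da36c1b00d686b235813c89cc4e4219107480e3f81f80014006001) (nat_lit 0))) (L (E (nat_lit 16) (nat_lit 0x3751b68d686b22d21680a1450620e10107f03f41ee0014006001) (nat_lit 0))))))) (N (nat_lit 3014) (L (E (nat_lit 7) (nat_lit 0x1b60d644e42668014006001) (nat_lit 0))) (N (nat_lit 3016) (N (nat_lit 3015) (L (E (nat_lit 15) (nat_lit 0x1b70db46c63619ad09ec4e226e133083840a1fb0014006001) (nat_lit 0))) (L (E (nat_lit 19) (nat_lit 0x1b68d8c6c335a1ac89ec4e427113709984ca26412e083840a1fb0014006001) (nat_lit 0)))) (L (E (nat_lit 7) (nat_lit 0x138c9be4ca25a0014006001) (nat_lit 0))))))) (cl58)))) (N (nat_lit 3217) (N (nat_lit 3165) (N (nat_lit 3118) (cl59) (cl60)) (N (nat_lit 3212) (cl61) (N (nat_lit 3216) (N (nat_lit 3214) (N (nat_lit 3213) (L (E (nat_lit 11) (nat_lit 0x1ba8db06b43591ac0a0644021f0014006001) (nat_lit 0))) (L (E (nat_lit 7) (nat_lit 0x1b60d646b01fc8014006001)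 (nat_lit 0)))) (N (nat_lit 3215) (L (E (nat_lit 5) (nat_lit 0x6d83590014006001) (nat_lit 0))) (L (E (nat_lit 6) (nat_lit 0xd644b52030014006001) (nat_lit 0))))) (L (E (nat_lit 4) (nat_lit 0x3590014006001) (nat_lit 0)))))) (N (nat_lit 3301) (N (nat_lit 3260) (cl62) (cl63)) (cl65)))
def cl67 : RA := N (nat_lit 2347) (N (nat_lit 1871) (N (nat_lit 1646) (N (nat_lit 1547) (cl30) (N (nat_lit 1605) (N (nat_lit 1565) (N (nat_lit 1555) (N (nat_lit 1549) (N (nat_lit 1548) (L (E (nat_lit 16) (nat_lit 0x37d1ba8d946c63611670b345912c00fe07b42f01680014006001) (nat_lit 0))) (L (E (nat_lit 11) (nat_lit 0x1c3cd8c6c227a13889b84ca25a0014006001) (nat_lit 0)))) (N (nat_lit 1550) (L (E (nat_lit 7) (nat_lit 0x1c00df86fa3788014006001) (nat_lit 0))) (N (nat_lit 1553) (N (nat_lit 1552) (N (nat_lit 1551) (L (E (nat_lit 10) (nat_lit 0x8a843021110187f03dc1e60014006001) (nat_lit 0))) (L (E (nat_lit 23) (nat_lit 0x1c48e046f036f1b68d945a42cc13a09c44dc26512e8968494217908880c3cc13b0014006001)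 (nat_lit 0)))) (L (E (nat_lit 24) (nat_lit 0x3891bc0dd86ea36f1b70db46ca36313889944ba25a128892848e21f10bc80c3cc13b0014006001) (nat_lit 0)))) (N (nat_lit 1554) (L (E (nat_lit 11) (nat_lit 0x1c38db86d936513889b84b42178014006001) (nat_lit 0))) (L (E (nat_lit 13) (nat_lit 0x6ec3651b18d846b027113709944b42178014006001) (nat_lit 0))))))) (N (nat_lit 1560) (N (nat_lit 1559) (N (nat_lit 1558) (N (nat_lit 1557) (N (nat_lit 1556) (L (E (nat_lit 15) (nat_lit 0x1b78d906b63591ac0d5c50727b13889b84b42510014006001) (nat_lit 0))) (L (E (nat_lit 15) (nat_lit 0x1bb4dba6ca361146c9c44dc25a128891c42f2030014006001) (nat_lit 0)))) (L (E (nat_lit 7) (nat_lit 0x132898c4b92490014006001) (nat_lit 0)))) (L (E (nat_lit 15) (nat_lit 0x1b28d8c6c235813889b84ca25a128891c42f2030014006001) (nat_lit 0)))) (L (E (nat_lit 7) (nat_lit 0x107c80c3f11e50014006001) (nat_lit 0)))) (N (nat_lit 1564) (N (nat_lit 1562) (N (nat_lit 1561) (L (E (nat_lit 22) (nat_lit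 0xe1c70c37d1bb4db86ca3631ad0d4869e27a13889b84ca25112388ac3f81f88014006001) (nat_lit 0))) (L (E (nat_lit 17) (nat_lit 0x6ed3651b18d6650a27a13889b84ca247118c8ac3f81f88014006001) (nat_lit 0)))) (N (nat_lit 1563) (L (E (nat_lit 16) (nat_lit 0x36e9b28d6651827a13889b84b4251123885c41c1fb0014006001) (nat_lit 0))) (L (E (nat_lit 21) (nat_lit 0x6ed3651b18d846b328c14289e84e226e13289684a2247115885c4061ed0014006001) (nat_lit 0))))) (L (E (nat_lit 8) (nat_lit 0x3871bb4db86c23590014006001) (nat_lit 0)))))) (cl31)) (cl32))) (cl36)) (cl45)) (N (nat_lit 2792) (N (nat_lit 2556) (N (nat_lit 2453) (N (nat_lit 2395) (cl46) (cl47)) (N (nat_lit 2511) (cl48) (cl49))) (N (nat_lit 2655) (N (nat_lit 2597) (cl50) (cl51)) (N (nat_lit 2728) (N (nat_lit 2701) (cl52) (N (nat_lit 2709) (N (nat_lit 2704) (N (nat_lit 2703) (N (nat_lit 2702) (L (E (nat_lit 14) (nat_lit 0x9e84e2267133096a42e2050fe47e83de1ec0014006001) (nat_lit 0))) (L (E (nat_lit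 14) (nat_lit 0xdd86da3651b18d846b2294941c99e4bc2580014006001) (nat_lit 0)))) (L (E (nat_lit 6) (nat_lit 0xf5c5d02c80014006001) (nat_lit 0)))) (N (nat_lit 2707) (N (nat_lit 2706) (N (nat_lit 2705) (L (E (nat_lit 25) (nat_lit 0x7a43761b70db46ca3631ac8b0050627a13c89c84e226612f09704b520510187e83de1ee0014006001) (nat_lit 0))) (L (E (nat_lit 20) (nat_lit 0x3761ba8db46c635913d09c44cc25a92c085c40a2030fe47e83de1ec0014006001) (nat_lit 0)))) (L (E (nat_lit 10) (nat_lit 0xdd86ea36d1ac89ba4a023f0014006001) (nat_lit 0)))) (N (nat_lit 2708) (L (E (nat_lit 15) (nat_lit 0x1c00db26ca3631ac8a0c4f427113309784b52580014006001) (nat_lit 0))) (L (E (nat_lit 13) (nat_lit 0x6ea35913d09984b52050fe47e83ed1ef0014006001) (nat_lit 0)))))) (N (nat_lit 2720) (N (nat_lit 2713) (N (nat_lit 2712) (N (nat_lit 2711) (N (nat_lit 2710) (L (E (nat_lit 18) (nat_lit 0xdd86ea36d1b28d8c6b4359141c9c44cc25e12d49604a42030014006001) (nat_lit 0))) (L (E (nat_lit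 14) (nat_lit 0xdb26ca35a1ac8a0e4e226612f096a4b02520014006001) (nat_lit 0)))) (L (E (nat_lit 14) (nat_lit 0xdb26ca35913d09c44cc25e12d49603df1dc0014006001) (nat_lit 0)))) (L (E (nat_lit 5) (nat_lit 0x5912c11600af0001) (nat_lit 0)))) (N (nat_lit 2716) (N (nat_lit 2714) (L (E (nat_lit 10) (nat_lit 0xfa465020f0b6858c2b313e0014006001) (nat_lit 0))) (N (nat_lit 2715) (L (E (nat_lit 14) (nat_lit 0xf187883c31e105c82d21670b0057c2ac13a0014006001) (nat_lit 0))) (L (E (nat_lit 31) (nat_lit 0x1e30f0c6dc36d1b28d8c6c235a1ac8d60432211107081c40a2030fd87e83e01e50b905b42ce15f0a6050027412e0014006001) (nat_lit 0))))) (N (nat_lit 2718) (N (nat_lit 2717) (L (E (nat_lit 30) (nat_lit 0xf187863761ba8db46ca3631b08d646b0219108883840e20510187ec3df1ec0b905b42ce15f0a6050027412e0014006001) (nat_lit 0))) (L (E (nat_lit 7) (nat_lit 0x1b64d946c63588014006001) (nat_lit 0)))) (N (nat_lit 2719) (L (E (nat_lit 13) (nat_lit 0x6ec3751b74d946c22b510707ec3df1ec0014006001)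 (nat_lit 0))) (L (E (nat_lit 31) (nat_lit 0x1bb0dd46da3651b18d846b235814109c84ce26612e094c42220e10388144061fb0f7c7b02e416d0b3853028013a0014006001) (nat_lit 0))))))) (N (nat_lit 2722) (N (nat_lit 2721) (L (E (nat_lit 28) (nat_lit 0x3809960c5462630d1810c0051226c130874c38c1c40de86d035e1a506b031c17e07a03a81d00d00640014006001) (nat_lit 0))) (L (E (nat_lit 6) (nat_lit 0x74c39e1b68014006001) (nat_lit 0)))) (N (nat_lit 2726) (N (nat_lit 2724) (N (nat_lit 2723) (L (E (nat_lit 7) (nat_lit 0x12d46d83681ab8190038001) (nat_lit 0))) (L (E (nat_lit 21) (nat_lit 0x6d93651b18d746b231314109c64d825a908881c40a1fb0f7c5c82800bb0014006001) (nat_lit 0)))) (N (nat_lit 2725) (L (E (nat_lit 15) (nat_lit 0x112088043e2160fd07c02be15a0ac85602740430014006001) (nat_lit 0))) (L (E (nat_lit 13) (nat_lit 0x2e416f0b385882c215f0ad05642b01560014006001) (nat_lit 0))))) (N (nat_lit 2727) (L (E (nat_lit 11) (nat_lit 0x1ba8d644f426612d48143f91fa0014006001)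 (nat_lit 0))) (L (E (nat_lit 11) (nat_lit 0x1ba8d846b227a13308143f91fa0014006001) (nat_lit 0))))))))) (cl53)))) (cl66))
def cl68 : RA := N (nat_lit 691) (N (nat_lit 223) (N (nat_lit 94) (N (nat_lit 89) (N (nat_lit 88) (N (nat_lit 87) (cl1) (L (E (nat_lit 6) (nat_lit 0x478232111085040c1f8) (nat_lit 0)))) (L (E (nat_lit 6) (nat_lit 0x47c23411308584141fa) (nat_lit 0)))) (N (nat_lit 91) (N (nat_lit 90) (L (E (nat_lit 6) (nat_lit 0x41820a1040818408202) (nat_lit 0))) (L (E (nat_lit 6) (nat_lit 0x41c20c105082040c204) (nat_lit 0)))) (N (nat_lit 92) (L (E (nat_lit 6) (nat_lit 0x48423c1190888428206) (nat_lit 0))) (N (nat_lit 93) (L (E (nat_lit 6) (nat_lit 0x48c23e11a089842c20a) (nat_lit 0))) (L (E (nat_lit 6) (nat_lit 0x4141fc0f907903c01d4) (nat_lit 0))))))) (cl4)) (N (nat_lit 368) (cl7) (N (nat_lit 522) (cl10) (N (nat_lit 646) (N (nat_lit 542) (N (nat_lit 533) (N (nat_lit 529) (N (nat_lit 528) (N (nat_lit 527) (N (nat_lit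 525) (N (nat_lit 523) (L (E (nat_lit 6) (nat_lit 0xdec6f43791bc0ddc6ec) (nat_lit 0))) (N (nat_lit 524) (L (E (nat_lit 6) (nat_lit 0xddc6dc3641ae0d4c694) (nat_lit 0))) (L (E (nat_lit 6) (nat_lit 0xde06de3651ae8d50696) (nat_lit 0))))) (N (nat_lit 526) (L (E (nat_lit 6) (nat_lit 0xdf06e636a1b00d6069e) (nat_lit 0))) (L (E (nat_lit 6) (nat_lit 0xe0470037f1bf0df46f8) (nat_lit 0))))) (L (E (nat_lit 6) (nat_lit 0xdf46e836b1b08d646a0) (nat_lit 0)))) (L (E (nat_lit 6) (nat_lit 0xe087023801bf8df86fa) (nat_lit 0)))) (N (nat_lit 532) (N (nat_lit 530) (L (E (nat_lit 6) (nat_lit 0xdf86ea36c1b10d686a2) (nat_lit 0))) (N (nat_lit 531) (L (E (nat_lit 6) (nat_lit 0xe0c7043811c00dfc6fc) (nat_lit 0))) (L (E (nat_lit 6) (nat_lit 0xe107063821c08e006fe) (nat_lit 0))))) (L (E (nat_lit 6) (nat_lit 0xe006ee36e1b20d706a6) (nat_lit 0))))) (N (nat_lit 536) (N (nat_lit 535) (N (nat_lit 534) (L (E (nat_lit 6) (nat_lit 0xe046f036f1b28d746a8)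 (nat_lit 0))) (L (E (nat_lit 6) (nat_lit 0xe146fc3751b60d886b4) (nat_lit 0)))) (L (E (nat_lit 6) (nat_lit 0xe287123881c38e1870a) (nat_lit 0)))) (N (nat_lit 538) (N (nat_lit 537) (L (E (nat_lit 6) (nat_lit 0xe186fe3761b68d8c6b6) (nat_lit 0))) (L (E (nat_lit 6) (nat_lit 0xe2c7143891c40e1c70c) (nat_lit 0)))) (N (nat_lit 539) (L (E (nat_lit 6) (nat_lit 0xe1c7003771b70d906b8) (nat_lit 0))) (N (nat_lit 540) (L (E (nat_lit 6) (nat_lit 0xe3070a37e1ba8db06c4) (nat_lit 0))) (N (nat_lit 541) (L (E (nat_lit 6) (nat_lit 0xe4472038f1c70e34718) (nat_lit 0))) (L (E (nat_lit 6) (nat_lit 0xe3470c37f1bb0db46c6) (nat_lit 0))))))))) (N (nat_lit 601) (cl11) (cl12))) (N (nat_lit 690) (cl13) (L (E (nat_lit 3) (nat_lit 0x8fc41e003) (nat_lit 0)))))))) (N (nat_lit 1083) (N (nat_lit 849) (N (nat_lit 739) (N (nat_lit 692) (L (E (nat_lit 3) (nat_lit 0x81c00a001) (nat_lit 0))) (cl14)) (N (nat_lit 786) (N (nat_lit 740) (L (E (nat_lit 3) (nat_lit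 0x83400a001) (nat_lit 0))) (cl15)) (cl16))) (cl21)) (N (nat_lit 1477) (N (nat_lit 1180) (N (nat_lit 1135) (N (nat_lit 1134) (N (nat_lit 1089) (N (nat_lit 1088) (N (nat_lit 1087) (N (nat_lit 1084) (L (E (nat_lit 3) (nat_lit 0xad451e257) (nat_lit 0))) (N (nat_lit 1086) (N (nat_lit 1085) (L (E (nat_lit 3) (nat_lit 0x13dc99647f) (nat_lit 0))) (L (E (nat_lit 3) (nat_lit 0x19cccb2619) (nat_lit 0)))) (L (E (nat_lit 3) (nat_lit 0x1bb4d8267d) (nat_lit 0))))) (L (E (nat_lit 3) (nat_lit 0xb84556283) (nat_lit 0)))) (L (E (nat_lit 3) (nat_lit 0x74c00a001) (nat_lit 0)))) (cl22)) (L (E (nat_lit 3) (nat_lit 0x84400a001) (nat_lit 0)))) (cl23)) (cl29)) (cl67)))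
def cl : RA := cl68
def nbl : List Nat := [nat_lit 0x36215e89c041a1b50ab844822210b08504142080c804901d809603500c12, nat_lit 0x1bb8b3c5082210e385a823c119089835c12808402c0d, nat_lit 0xd005342480f2066c2680f707883b81da0890090c, nat_lit 0x0, nat_lit 0x0, nat_lit 0xc81, nat_lit 0x481, nat_lit 0x0, nat_lit 0x1481, nat_lit 0x2a00302, nat_lit 0x0, nat_lit 0x0, nat_lit 0x1601, nat_lit 0x301, nat_lit 0x0, nat_lit 0x0, nat_lit 0x3701, nat_lit 0x0, nat_lit 0x0, nat_lit 0x0, nat_lit 0x0, nat_lit 0x0, nat_lit 0x0, nat_lit 0x0, nat_lit 0x0, nat_lit 0x9500282, nat_lit 0x0, nat_lit 0x0, nat_lit 0x4b01, nat_lit 0x0, nat_lit 0x27808e00f83, nat_lit 0x1f81, nat_lit 0x2100e82, nat_lit 0x4b81, nat_lit 0xa401, nat_lit 0x0, nat_lit 0x14f02602, nat_lit 0x0, nat_lit 0x4d01, nat_lit 0x15602882, nat_lit 0x0, nat_lit 0x401, nat_lit 0x481, nat_lit 0x501, nat_lit 0x601, nat_lit 0xc481, nat_lit 0x0, nat_lit 0x0, nat_lit 0xca01, nat_lit 0x0, nat_lit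 0x0, nat_lit 0x0, nat_lit 0x0, nat_lit 0x0, nat_lit 0x0, nat_lit 0xee01, nat_lit 0x9981, nat_lit 0x0, nat_lit 0x0, nat_lit 0x0, nat_lit 0xd003200703, nat_lit 0x0, nat_lit 0x0, nat_lit 0xf81, nat_lit 0x13e03602, nat_lit 0x0, nat_lit 0x0, nat_lit 0x18004a02103, nat_lit 0x0, nat_lit 0x1f01, nat_lit 0x0, nat_lit 0x0, nat_lit 0x0, nat_lit 0x4e02502, nat_lit 0x2481, nat_lit 0x0, nat_lit 0x29e0ca02983, nat_lit 0xcc02402, nat_lit 0x0, nat_lit 0x0, nat_lit 0x0, nat_lit 0xab01, nat_lit 0x6801, nat_lit 0x2601, nat_lit 0x0, nat_lit 0x0, nat_lit 0x0, nat_lit 0x20c0b805102804, nat_lit 0x0, nat_lit 0x0, nat_lit 0xb281, nat_lit 0x0, nat_lit 0x0, nat_lit 0x2180b482, nat_lit 0x17004402, nat_lit 0xb901, nat_lit 0x0, nat_lit 0x0, nat_lit 0x0, nat_lit 0xd006200783, nat_lit 0x0, nat_lit 0x0, nat_lit 0x0, nat_lit 0x0, nat_lit 0x7003182, nat_lit 0x0, nat_lit 0xa381, nat_lit 0x5981, nat_lit 0x0, nat_lit 0x0, nat_lit 0x8c00802, nat_lit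 0x0, nat_lit 0x53817207503784, nat_lit 0x0, nat_lit 0x0, nat_lit 0x0, nat_lit 0xc003a82, nat_lit 0xab01, nat_lit 0x0, nat_lit 0x15906202, nat_lit 0x0, nat_lit 0x3c01, nat_lit 0x0, nat_lit 0x0, nat_lit 0x4cc16006503, nat_lit 0xb081, nat_lit 0x0, nat_lit 0x0, nat_lit 0x0, nat_lit 0x0, nat_lit 0xb401, nat_lit 0x2b81, nat_lit 0x0, nat_lit 0x0, nat_lit 0x0, nat_lit 0x0, nat_lit 0x2f01, nat_lit 0x0, nat_lit 0x0, nat_lit 0x0, nat_lit 0x0, nat_lit 0x0, nat_lit 0x0, nat_lit 0x0, nat_lit 0x0, nat_lit 0x0, nat_lit 0x0, nat_lit 0x0, nat_lit 0x0, nat_lit 0x0, nat_lit 0x13600e02, nat_lit 0x14501082, nat_lit 0x0, nat_lit 0x0, nat_lit 0x0, nat_lit 0xad01, nat_lit 0x0, nat_lit 0xc801, nat_lit 0x17781, nat_lit 0x0, nat_lit 0x0, nat_lit 0x0, nat_lit 0xf601, nat_lit 0x0, nat_lit 0x0, nat_lit 0x0, nat_lit 0x0, nat_lit 0x0, nat_lit 0x17e81, nat_lit 0x0, nat_lit 0x8fc1620b005584, nat_lit 0xac05502, nat_lit 0x0, nat_lit 0x0, nat_lit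 0x3301, nat_lit 0x0, nat_lit 0x12387bc1720b103405, nat_lit 0x0, nat_lit 0x0, nat_lit 0x3581, nat_lit 0x0, nat_lit 0x18201, nat_lit 0x0, nat_lit 0x60c24f0fc06ac17e0af01e07, nat_lit 0x0, nat_lit 0x1fa0d686441620b003806, nat_lit 0x4a41ae06103, nat_lit 0x4a61fc0d783, nat_lit 0x0, nat_lit 0x25505a02, nat_lit 0x6281, nat_lit 0x0, nat_lit 0xc344061b306382fc16e07402188, nat_lit 0x6481, nat_lit 0x5c81, nat_lit 0x0, nat_lit 0x0, nat_lit 0x5f01, nat_lit 0x31406382, nat_lit 0x62a26306303, nat_lit 0x0, nat_lit 0x20e06802, nat_lit 0x1be068834019607c02606, nat_lit 0xcc06502, nat_lit 0xd206582, nat_lit 0x0, nat_lit 0x8102802, nat_lit 0x31f10b82, nat_lit 0x3200e3033c1940c902906, nat_lit 0x4320d006503, nat_lit 0x13901, nat_lit 0x0, nat_lit 0x4ec0dc06a83, nat_lit 0x0, nat_lit 0x6781, nat_lit 0x0, nat_lit 0x0, nat_lit 0x0, nat_lit 0x0, nat_lit 0x0, nat_lit 0x0, nat_lit 0x0, nat_lit 0x1d206f82, nat_lit 0x32f14188ac3a60e006c06, nat_lit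 0x0, nat_lit 0x0, nat_lit 0x19981, nat_lit 0x19a01, nat_lit 0x9081, nat_lit 0x28c07002, nat_lit 0x0, nat_lit 0x0, nat_lit 0x0, nat_lit 0x0, nat_lit 0x23b0ec02, nat_lit 0x0, nat_lit 0x0, nat_lit 0x0, nat_lit 0x0, nat_lit 0x4821de09803, nat_lit 0x0, nat_lit 0x0, nat_lit 0x0, nat_lit 0x0, nat_lit 0x12707ac27203100985, nat_lit 0x0, nat_lit 0x0, nat_lit 0x0, nat_lit 0x0, nat_lit 0x0, nat_lit 0xd245462540f8868427e0b2045019407203300a0c, nat_lit 0x0, nat_lit 0x1a70aa04b21f70d205101ea0b6045819c07603400a8d, nat_lit 0x6a02aa12d87e434c14605c02340d203d00b0b, nat_lit 0x0, nat_lit 0x0, nat_lit 0x6a82ae12f87f417809100b87, nat_lit 0x6ac2b0131080035414b03687, nat_lit 0x0, nat_lit 0x0, nat_lit 0x0, nat_lit 0x0, nat_lit 0x0, nat_lit 0x1ae0ad84d02060d8054418607202309, nat_lit 0x0, nat_lit 0x0, nat_lit 0x0, nat_lit 0x0, nat_lit 0x0, nat_lit 0x0, nat_lit 0x0, nat_lit 0x0, nat_lit 0x1b58b144f02150de057819a07b02789, nat_lit 0x0, nat_lit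 0x0, nat_lit 0x0, nat_lit 0x0, nat_lit 0x0, nat_lit 0xdc459627e10d85901a607f02a08, nat_lit 0x373140087438616604006, nat_lit 0x0, nat_lit 0x0, nat_lit 0x0, nat_lit 0x6f22d1143088c39216c06c87, nat_lit 0x0, nat_lit 0x1bf8b585162290e705c41ba08702d89, nat_lit 0x0, nat_lit 0x0, nat_lit 0x0, nat_lit 0x7102de14988c02f212707207, nat_lit 0x0, nat_lit 0x38a1700a5446417b07306, nat_lit 0x0, nat_lit 0xe3852c17c07404, nat_lit 0x0, nat_lit 0x0, nat_lit 0x0, nat_lit 0x0, nat_lit 0x0, nat_lit 0x0, nat_lit 0x0, nat_lit 0x0, nat_lit 0xd01, nat_lit 0x12001, nat_lit 0x0, nat_lit 0x0, nat_lit 0x12201, nat_lit 0xa843ba13b01c04, nat_lit 0x0, nat_lit 0x92427c12f00d84, nat_lit 0x24a04b02, nat_lit 0x0, nat_lit 0x15381, nat_lit 0x0, nat_lit 0x154893c3c614309d85, nat_lit 0x72a2500a284f027413303107, nat_lit 0x155894427603e00f05, nat_lit 0xab04a41e60c0051c27c06401f88, nat_lit 0x55a1e70a4051c27a13502007, nat_lit 0x0, nat_lit 0x55e2550f483,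 nat_lit 0x0, nat_lit 0x2570f6052828614102086, nat_lit 0x2b212c07b428413a03306, nat_lit 0x0, nat_lit 0x39b15a09683de14e0a684f02760680220a, nat_lit 0x0, nat_lit 0x1ce89702a014f0a404f827a09803509, nat_lit 0x15b87c82a01490a384f80d604701109, nat_lit 0x12f054829006c01185, nat_lit 0x0, nat_lit 0x8081, nat_lit 0x1d18af04c61f80c105542a814d02509, nat_lit 0x7482640ab055429c14c0a287, nat_lit 0x74a2be13287e83061560a7853428a08e0380b, nat_lit 0x74c2bf13307ec2b01500a7051c11e04c0120b, nat_lit 0xb004ce1fc0ac053c29014701288, nat_lit 0x0, nat_lit 0x3fc15a0a483, nat_lit 0x0, nat_lit 0x8082b81550a604, nat_lit 0x7542c6137080c2ba1560aa05342980740280b, nat_lit 0x3ab16389bc40815f0aa853829a0510138a, nat_lit 0x0, nat_lit 0xeb45922710b085802b21500a788, nat_lit 0x1d7081c2c41610ad05602a007701409, nat_lit 0x9cc2c415904d84, nat_lit 0x0, nat_lit 0xb3041615402a84, nat_lit 0x2cd13b88302ce15c0aa86, nat_lit 0x8801, nat_lit 0x27910705a42d01600ab06,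 nat_lit 0x1da8b404f420f0b485842be15803e09, nat_lit 0x76c2e813d88402d61620b005642b009303e8b, nat_lit 0x5a427c10885ac2c215a0ac87, nat_lit 0x0, nat_lit 0x0, nat_lit 0x5a821402d03, nat_lit 0x0, nat_lit 0xee85022160b805bc2d015d04088, nat_lit 0x3bb16b8a0842e1700b4859c2be08202e0a, nat_lit 0x3bc1748b605062180b905a02c015f02e8a, nat_lit 0x0, nat_lit 0xef85b42850ba05cc2c416104288, nat_lit 0x0, nat_lit 0x2ea0ba82, nat_lit 0x0, nat_lit 0xf0443e1760b804, nat_lit 0x3c211005d82de1680b386, nat_lit 0x0, nat_lit 0xf105be28c11105e02e616902f88, nat_lit 0x1e28a342f41720b585, nat_lit 0x0, nat_lit 0x11281, nat_lit 0x1700b782, nat_lit 0x1710a444541760b805, nat_lit 0x1e50b8c52422b0b905, nat_lit 0x0, nat_lit 0x5d61740b983, nat_lit 0x0, nat_lit 0x0, nat_lit 0x0, nat_lit 0x15081, nat_lit 0x0, nat_lit 0x3581, nat_lit 0x0, nat_lit 0x0, nat_lit 0x0, nat_lit 0x0, nat_lit 0x17401, nat_lit 0x0, nat_lit 0x0, nat_lit 0x0, nat_lit 0x1681, nat_lit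 0x0, nat_lit 0x1ec81, nat_lit 0x0, nat_lit 0x0, nat_lit 0x0, nat_lit 0x0, nat_lit 0x0, nat_lit 0x0, nat_lit 0x0, nat_lit 0x0, nat_lit 0x1801, nat_lit 0x0, nat_lit 0x3db18e82, nat_lit 0x19381, nat_lit 0x1ef81, nat_lit 0x19e01, nat_lit 0x0, nat_lit 0x0, nat_lit 0x0, nat_lit 0xd1460e19e0ce04, nat_lit 0x1a50ce82, nat_lit 0xd1c3cc1a70d004, nat_lit 0x0, nat_lit 0x0, nat_lit 0xf601, nat_lit 0x34d18602, nat_lit 0x0, nat_lit 0x1a78c385e41ef0cf05, nat_lit 0x0, nat_lit 0xc4035e1ae0cf84, nat_lit 0x0, nat_lit 0x6a63120d403, nat_lit 0x0, nat_lit 0x1ab8bb43f01b30d906b03260b705109, nat_lit 0x35818b06d03661ad0d586, nat_lit 0x1ac86d03581a505c85, nat_lit 0x1b605d02, nat_lit 0xd6c36c1a705d84, nat_lit 0x0, nat_lit 0x17701, nat_lit 0x7c031d0d583, nat_lit 0xd8063c1ac06004, nat_lit 0xd601, nat_lit 0x0, nat_lit 0x6c63210df86f836e1af0d707, nat_lit 0x6c81b60d783, nat_lit 0x0, nat_lit 0x0, nat_lit 0x0, nat_lit 0x20c0e202, nat_lit 0x0,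 nat_lit 0xc9c38c1c50df04, nat_lit 0xdb437e1bd06504, nat_lit 0xca44201be0db04, nat_lit 0x36f0e402, nat_lit 0x0, nat_lit 0x10a01, nat_lit 0x0, nat_lit 0x374196885838a1bb05386, nat_lit 0x1f30cb85f62170e687183881bd06789, nat_lit 0xdd865e1bd06804, nat_lit 0x0, nat_lit 0x6f01d00e003, nat_lit 0x0, nat_lit 0x0, nat_lit 0x0, nat_lit 0x6662f110f83, nat_lit 0x33411002, nat_lit 0x8e81, nat_lit 0xe004441d00e304, nat_lit 0x7d43810e783, nat_lit 0x0, nat_lit 0xe184541d306f04, nat_lit 0x1c38ce84561d206f85, nat_lit 0x0, nat_lit 0x11c01, nat_lit 0x1a08c0047219909705, nat_lit 0x34209782, nat_lit 0x0, nat_lit 0x9881, nat_lit 0x9f01b02, nat_lit 0x34511f02, nat_lit 0x68c30111f878c3ba0a001b87, nat_lit 0x34718109003ca1de0ee07582660a801c0a, nat_lit 0x0, nat_lit 0x24209a82, nat_lit 0x34a09b02, nat_lit 0x69a24501d03, nat_lit 0x0, nat_lit 0x34f183091c3dc1ed0f107702740a901e0a, nat_lit 0x0, nat_lit 0x1cb0d446102490f807bc3cc1de0ee86782780aa01f0d,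 nat_lit 0x35212507c03ce1e50ef067c27a0ab01f8a, nat_lit 0x6a624b0f9079834013e02007, nat_lit 0x0, nat_lit 0x1f40a002, nat_lit 0x1aa81, nat_lit 0x0, nat_lit 0x730357185893c3ec1ed0f106882840a20208b, nat_lit 0x1ac0c304a01f80f6078c3c41a30a189, nat_lit 0x39a1ac8c344a21f80f787b43c60af0218a, nat_lit 0xe6c6b430e12907e83e01ee0f2869428a0b00220c, nat_lit 0x39c1ad8c3c4a61fb0fd07bc3cc1e50588a, nat_lit 0x7d01, nat_lit 0x35d12a87f03e61e80f386a02900b30238a, nat_lit 0x31212b07c83d014902406, nat_lit 0x0, nat_lit 0x0, nat_lit 0xe846be31312c08043d814a05a88, nat_lit 0x7e01, nat_lit 0xe8c6c231512d080c4041ee0f686ac2980b70250c, nat_lit 0x7e81, nat_lit 0xe946c631712e08144081fb0f807bc35a14e05c8c, nat_lit 0x3a61b20c604ba2050fe07e83e01ae0a78a, nat_lit 0x3a71b28c644bc2070fd87c835e15005d8a, nat_lit 0x0, nat_lit 0x3a90a902, nat_lit 0x0, nat_lit 0x0, nat_lit 0x6d42f3131882c4142020d8854c17c0a30270b, nat_lit 0xfc863a2f4132083041620310087e02a80bf0520c,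 nat_lit 0x1d50db063c26510608104041f80d985541800a50280d, nat_lit 0xeac6da31f133083840a2030fd06d02ac0c10288c, nat_lit 0x1d60db86402f5133883c41c2040fd87e81840a60290d, nat_lit 0x8381, nat_lit 0x75c37019109a442221010407f036e1590620b, nat_lit 0xebc4d41b80ad04, nat_lit 0x3b00ad82, nat_lit 0x13688504162010dc85, nat_lit 0xdd05ec26e10a083041420210086e82b80c602a8c, nat_lit 0xec86ea325137885841620310106ec2ba0c702b0c, nat_lit 0x0, nat_lit 0x1fa0ed064e2f7138886042e20f102881037a15f0648d, nat_lit 0xed46f03281390864430210107081437c1600650c, nat_lit 0x76c3291398868432211107881c37e1610658b, nat_lit 0x3b71bd0ca84e821a108081c3801620660a, nat_lit 0x6f616302c83, nat_lit 0xfd46f82f813b04, nat_lit 0xdf465627710f082c4141c20b288, nat_lit 0x8801, nat_lit 0x3ba19689e444021f10b88303881670670a, nat_lit 0xeec70032e13d088043021610707142d00cf02e0c, nat_lit 0x1de0e0465e27b111086442e20f10707182d20d002e8d, nat_lit 0xfdc77a3821980be84f822210d086042020f0688c,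 nat_lit 0x77c38313e88444201c80b587, nat_lit 0x8b01, nat_lit 0x27f11302, nat_lit 0x0, nat_lit 0x1e00e14664281114087c42816e06a09, nat_lit 0x3c11c30ccc50422010f085839816f06a8a, nat_lit 0xf0870e33414188a843e21710b07342e00d602f0c, nat_lit 0x0, nat_lit 0xf1071233614288b045621910c073c2e40d802f8c, nat_lit 0x8d81, nat_lit 0x78c38b14388b443417406d07, nat_lit 0xba81, nat_lit 0x10e01, nat_lit 0x71828911403, nat_lit 0x3fa1c68bf051422710f06, nat_lit 0x0, nat_lit 0xe3c51822f11588803a417706f08, nat_lit 0xe4051a22c11508883a617806f88, nat_lit 0xf2c72222b11104, nat_lit 0x22c11202, nat_lit 0x52222f11403, nat_lit 0x39314908cc45c22a07186, nat_lit 0x9081, nat_lit 0x11601, nat_lit 0x0, nat_lit 0x11781, nat_lit 0x0, nat_lit 0x0, nat_lit 0x0, nat_lit 0x0, nat_lit 0x17f01, nat_lit 0x3410eb02, nat_lit 0x34203082, nat_lit 0x0, nat_lit 0x0, nat_lit 0x0, nat_lit 0x1ca8d145fe23f11b05f425a0ec03109, nat_lit 0x3461800a6c48e24011f077025c0aa0318a,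 nat_lit 0x68e29c12488fc3ba12f05587, nat_lit 0x0, nat_lit 0x0, nat_lit 0x1a501, nat_lit 0x1cc0d3053c24509905, nat_lit 0x69a2460f083, nat_lit 0x12281, nat_lit 0x39b1a78a844a225011f878c2660b00340a, nat_lit 0x0, nat_lit 0x73a351129894849424112007942fe1350350b, nat_lit 0x39e1a90a904962410f3060026c0b30358a, nat_lit 0xd4c4aa24a0f384, nat_lit 0x0, nat_lit 0x15381, nat_lit 0x0, nat_lit 0xe8c6ae30615489604a024612287b02740b70370c, nat_lit 0x74835818389684a224f12389183da13b0378b, nat_lit 0x3a51ac8aac4b4252128091c3dc13c05c8a, nat_lit 0x3fd1d30d686122ac12e094c4a22490f7860427a0ba0388e, nat_lit 0x1ad8ab44ba25c12909243e013e05d89, nat_lit 0x7d01, nat_lit 0x1ae8abc4bc24c12587c82800bd03989, nat_lit 0xf981, nat_lit 0xd786162b112c09343ea14205f08, nat_lit 0x1af8c3056426312b893c3ec14305f89, nat_lit 0x7e01, nat_lit 0xeac6c22b413289904a22500fc060828a0c103a8c, nat_lit 0x7e81, nat_lit 0x8003ad1b18c404ce26612e894c4a41fa0a38b, nat_lit 0xf4075c36415b899c4bc25c12987ec2900c403b8c,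 nat_lit 0xebc6ca2b813489744aa1fc0a488, nat_lit 0x8001, nat_lit 0x0, nat_lit 0xa501, nat_lit 0x0, nat_lit 0x6d431515e09b84da26412c08042980c703d0b, nat_lit 0x1d98c584de26e132898c4b42020a689, nat_lit 0x76836c18b8af84de266132096840614e0648b, nat_lit 0x3d11da8db46302bf138899c4ca25c102061029e0ca03e0e, nat_lit 0x3d21db0db86322c013909c44cc25d12e081430a1500658e, nat_lit 0x8381, nat_lit 0x1b80c6c58427312f081c30e15203f09, nat_lit 0x7a62080c403, nat_lit 0x0, nat_lit 0xdc86382c413b04, nat_lit 0xee463a27713b09b84c620a0aa08, nat_lit 0x4041ea0dd063c2c613b89bc4da264131882c2aa0ce0408e, nat_lit 0x2028eec6ea31f16389e44dc26513208302ac0cf0410d, nat_lit 0x0, nat_lit 0x7aa3bd16489ec4f4272133899841c1580688b, nat_lit 0x4081df0de06442ca13e09ec4e6271133883c2b20d20428e, nat_lit 0x2048efc4fa27c13a09c84d22100ad09, nat_lit 0x40a1eb0de84fa27310886, nat_lit 0x0, nat_lit 0x2cc136084c2b80d404306, nat_lit 0x1be8c9459a28113709b442815d06a89, nat_lit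 0x8801, nat_lit 0x2068f0c64e28314109e84de2160af89, nat_lit 0x3c41c00b4050627b13c89c442e16006c0a, nat_lit 0x7ae3c51c08ca450a27c13d09c84e22180b08b, nat_lit 0xf1870432a1690a144fa27b13989c843216206d0c, nat_lit 0x1c18b4c4e827310d05, nat_lit 0x0, nat_lit 0x1958b5043816506d85, nat_lit 0x0, nat_lit 0x1e40e1465a28a1448a084ee21e0b389, nat_lit 0x3c91c30b5c51428314089e443e16806f0a, nat_lit 0xf2870e32f16c0a3050427a13c88802d20df0440c, nat_lit 0x0, nat_lit 0x7b03cc1c48cc45b428d13e09ec44416b0708b, nat_lit 0x8d81, nat_lit 0xe2c51e2240b684, nat_lit 0x6642260b703, nat_lit 0x38c1998b705022270b786, nat_lit 0x2dd1410a0445017007186, nat_lit 0x8e81, nat_lit 0x3cd1c78cd85be2921468a0c4541720728a, nat_lit 0x1e70e4066e2941470a3050a22b0b989, nat_lit 0x52828d07383, nat_lit 0x28711682, nat_lit 0x19c01, nat_lit 0x39219c8b8852422e0bb86, nat_lit 0x72633a1718a4451822f0bc07, nat_lit 0x9081, nat_lit 0x28e0bd02, nat_lit 0x0, nat_lit 0x9281, nat_lit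 0x11981, nat_lit 0x14c81, nat_lit 0x14c01, nat_lit 0x0, nat_lit 0x11f81, nat_lit 0x68429b0c503, nat_lit 0x0, nat_lit 0x0, nat_lit 0x0, nat_lit 0x39a15482, nat_lit 0xe6c68e2ab1510a8048e17e09988, nat_lit 0x7382ac15083, nat_lit 0x0, nat_lit 0x12501, nat_lit 0x0, nat_lit 0x0, nat_lit 0x69a24d09c03, nat_lit 0x7e01, nat_lit 0x69e2b31590a8053e24f09d07, nat_lit 0x0, nat_lit 0x74a35115a8ad054225109e07, nat_lit 0x74c35215a8ab454425209e87, nat_lit 0xe9c6a62b71560a904a613e04808, nat_lit 0x0, nat_lit 0x2550a002, nat_lit 0x0, nat_lit 0x1ab81, nat_lit 0x2bc15d8acc5522580a186, nat_lit 0x1d50d645782b215485, nat_lit 0xeac56a2ab0a284, nat_lit 0x75835b15f8af85682ac15587, nat_lit 0x0, nat_lit 0xd7458025d0a404, nat_lit 0x0, nat_lit 0x0, nat_lit 0x2c416182, nat_lit 0xd805782b215884, nat_lit 0x3b215d8acc5642630a606, nat_lit 0x0, nat_lit 0x2c81638afc56a2650a706, nat_lit 0x76a3641640b0056a2660a787, nat_lit 0x6ca2c91608afc56e2670a807,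 nat_lit 0x3b71b30b285842c00c606, nat_lit 0x0, nat_lit 0x0, nat_lit 0x0, nat_lit 0x0, nat_lit 0x6d82ce1668b1c57826e0aa87, nat_lit 0xeec6da2ce1640b1857c26f0ab08, nat_lit 0x77836e1680b2458e2bf15f07, nat_lit 0xef45902c015f89c431a1860ac08, nat_lit 0x2c116002, nat_lit 0x0, nat_lit 0x37416a8b5059a2760ae06, nat_lit 0x2d51670b3058c2770ae86, nat_lit 0x1e10dd859a2c716305, nat_lit 0x0, nat_lit 0xf607882c80b004, nat_lit 0x0, nat_lit 0x6f427c0b103, nat_lit 0x0, nat_lit 0xb281, nat_lit 0x37e16602, nat_lit 0x0, nat_lit 0x3c91c00b6059c2820b406, nat_lit 0x1c08b645ae2830b485, nat_lit 0x7962df16c03, nat_lit 0x2850b582, nat_lit 0x0, nat_lit 0x0, nat_lit 0x0, nat_lit 0x0, nat_lit 0x1c48b645b028c0b905, nat_lit 0x0, nat_lit 0xba01, nat_lit 0x38f0bb82, nat_lit 0x0, nat_lit 0x0, nat_lit 0x1d001, nat_lit 0xa701, nat_lit 0x0, nat_lit 0x10747ae1850b084, nat_lit 0xb481, nat_lit 0x0, nat_lit 0x0, nat_lit 0x1eb81, nat_lit 0x0, nat_lit 0x0,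 nat_lit 0x4f01, nat_lit 0x0, nat_lit 0x0, nat_lit 0x0, nat_lit 0x0, nat_lit 0x31610102, nat_lit 0x0, nat_lit 0x0, nat_lit 0x0, nat_lit 0x0, nat_lit 0x3f619302, nat_lit 0x0, nat_lit 0x0, nat_lit 0x0, nat_lit 0x0, nat_lit 0x0, nat_lit 0x0, nat_lit 0x1a081, nat_lit 0x0, nat_lit 0x34705802, nat_lit 0x0, nat_lit 0x0, nat_lit 0x18601, nat_lit 0x0, nat_lit 0xce81, nat_lit 0x0, nat_lit 0x0, nat_lit 0xc901, nat_lit 0x0, nat_lit 0x18281, nat_lit 0x6001, nat_lit 0xd281, nat_lit 0x18b81, nat_lit 0x12e01, nat_lit 0x0, nat_lit 0x0, nat_lit 0x0, nat_lit 0x0, nat_lit 0x0, nat_lit 0x63c2f40d603, nat_lit 0x1fa0d682, nat_lit 0x3640d702, nat_lit 0x18d01, nat_lit 0x6601, nat_lit 0x0, nat_lit 0x0, nat_lit 0x1ed8c906381b20cb05, nat_lit 0x0, nat_lit 0x6da26f06783, nat_lit 0x0, nat_lit 0xdb01, nat_lit 0x32a19182, nat_lit 0x0, nat_lit 0x0, nat_lit 0x0, nat_lit 0x31e17c82, nat_lit 0x2790de82, nat_lit 0x37819382, nat_lit 0x27b0df82, nat_lit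 0x0, nat_lit 0x13f81, nat_lit 0x84e3dd19683, nat_lit 0x5022160e203, nat_lit 0x1c001, nat_lit 0xe0466c3351980cb85061c606f88, nat_lit 0x4281c102, nat_lit 0x0, nat_lit 0x0, nat_lit 0x3860e602, nat_lit 0x7181, nat_lit 0x19781, nat_lit 0x1c481, nat_lit 0xe801, nat_lit 0x7f833314803, nat_lit 0x0, nat_lit 0xe981, nat_lit 0x0, nat_lit 0xcc81, nat_lit 0x0, nat_lit 0x0, nat_lit 0xcd01, nat_lit 0x0, nat_lit 0x1a40d1c6002390eb05, nat_lit 0x29c11d02, nat_lit 0x14e81, nat_lit 0x1a681, nat_lit 0x69e3460ce83, nat_lit 0x72c34f1a38d1447e1dc0cf07, nat_lit 0x3971a88d2068c3411810a844801dd0cf8a, nat_lit 0x1a90d4468e34118185, nat_lit 0x0, nat_lit 0x6a62430f003, nat_lit 0x1a501, nat_lit 0x2a612202, nat_lit 0x1ff0e646ae3441820a9c48a1e10d189, nat_lit 0x0, nat_lit 0x3f01cd8d6468c3451830aa448e1e30d28a, nat_lit 0x0, nat_lit 0xfc473a35b1ad0d486903471840aac4921e50d38c, nat_lit 0x1cf0d6c6a63511a40ab04941e60d409, nat_lit 0x6ba3521a50ab44961e70d487,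 nat_lit 0x0, nat_lit 0x0, nat_lit 0x8081, nat_lit 0xe8c6c035f1ac0d3449e1ec0d588, nat_lit 0x3a41b08d806b23571860ac84a01ed0d60a, nat_lit 0x3a51b08d686b034f1868acc4a21ee0d68a, nat_lit 0x8043a61b18d6c6b23511870ad04a41ef0d70b, nat_lit 0x100c74e3641b18d686a43511878ad44a61f00d78c, nat_lit 0x8381, nat_lit 0x6cc3651a98c4456e2550f907, nat_lit 0x0, nat_lit 0x2148f806d43691b00d5c4b01f60d909, nat_lit 0x3e11d50da86c235f1ac0d5c6282bb0d98a, nat_lit 0x42a20a90147e63ab1b60d806b235818a8af04b41f80da0e, nat_lit 0x0, nat_lit 0x215905875a36e1b68d906b635a18b8af84b81fa0db0d, nat_lit 0x8103ae1b78db86c635b18c0afc4ba1fb0db8b, nat_lit 0x6de3661ae8c6458025e0fe07, nat_lit 0x1b80d946ba31a16085, nat_lit 0x16101, nat_lit 0x1b481, nat_lit 0x1b501, nat_lit 0x2058ec86e83691b00d7c4c62010dd89, nat_lit 0x8801, nat_lit 0x7c43b41bb0dd46da36118f0b184ca2030de8b, nat_lit 0x10b07c63b51bb0db86d836318f8b1c4cc2040df0c, nat_lit 0x76c3781b78db46c83631900b204ce2050df8b,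 nat_lit 0x4171db8de06e036e1b28d906422c90e00a, nat_lit 0x77036f1b30c8859426910387, nat_lit 0x8b01, nat_lit 0x1be01, nat_lit 0x8b81, nat_lit 0x103c7ca3ba1bf0df46ea36a1920b304dc20b0e20c, nat_lit 0x85a4182080fe07cc3bb1bf0dd86e836c1928b344de20c0e28f, nat_lit 0x4111fc8ef07003751b68db064c2ce0e30a, nat_lit 0x0, nat_lit 0x3be1c10e046de36e1940b404e420f0e40a, nat_lit 0x0, nat_lit 0x1950b484e82110e505, nat_lit 0x0, nat_lit 0x3e71b902, nat_lit 0x42e1f40df86e827710a06, nat_lit 0xf0870c3851be8dd46e832c16a88, nat_lit 0x8e81, nat_lit 0x20c90507f63e91e20e1c7023761970b5c4f42170e78d, nat_lit 0x3c51c48e087003781978b604f62180e80a, nat_lit 0xf187123781980b644f82190e888, nat_lit 0x20d0cc45b427d10d05, nat_lit 0x16d81, nat_lit 0x3c81c68df866428110f06, nat_lit 0x42f1f58f2470e3851bf0ccc50421f0e90a, nat_lit 0x8603ec1e50e3c70c38019a0b745062200e98b, nat_lit 0x9081, nat_lit 0x10c48363ed1e60e447203821c08cd85be2851110c, nat_lit 0x0, nat_lit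 0x28711202, nat_lit 0x7dc28911383, nat_lit 0x38511402, nat_lit 0x9281, nat_lit 0x7de3901c38b8851822a0ea07, nat_lit 0x71228d11583, nat_lit 0x6762e411603, nat_lit 0x14881, nat_lit 0x72829211783, nat_lit 0x1c981, nat_lit 0x39a09d82, nat_lit 0x0, nat_lit 0x0, nat_lit 0x0, nat_lit 0x0, nat_lit 0x3950f702, nat_lit 0x2a10a282, nat_lit 0x15101, nat_lit 0x39c0a382, nat_lit 0x0, nat_lit 0x1d401, nat_lit 0x0, nat_lit 0x0, nat_lit 0x0, nat_lit 0x6ae24f0a603, nat_lit 0x2500a682, nat_lit 0x1d60e705562510a705, nat_lit 0x2ac0a782, nat_lit 0x0, nat_lit 0xebc75c3a91cf84, nat_lit 0x1ae81, nat_lit 0xd805662030aa84, nat_lit 0x1d98eb05682040ab05, nat_lit 0x3d21da8ed075a2b510286, nat_lit 0xeb06c625c0ac04, nat_lit 0x7503640ac83, nat_lit 0x1d401, nat_lit 0x15c81, nat_lit 0x0, nat_lit 0x77420c0ae83, nat_lit 0x7743b41d583, nat_lit 0xed475836c10704, nat_lit 0x3b41d60db44cc20f0b006, nat_lit 0x77a3b717403, nat_lit 0x1df81, nat_lit 0x0, nat_lit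 0x0, nat_lit 0xecc76437410b04, nat_lit 0x3c31ba8b1c4de2170b406, nat_lit 0xf5c5902180b484, nat_lit 0x2c910c82, nat_lit 0x0, nat_lit 0x1db81, nat_lit 0x0, nat_lit 0xb781, nat_lit 0x2ce0b802, nat_lit 0x7843bc13c83, nat_lit 0xb901, nat_lit 0x7883810b983, nat_lit 0x16901, nat_lit 0x1e301, nat_lit 0x0, nat_lit 0x2d714102, nat_lit 0x0, nat_lit 0x16c81, nat_lit 0x0, nat_lit 0x0, nat_lit 0x0, nat_lit 0x0, nat_lit 0x0, nat_lit 0x0, nat_lit 0x3ac13382, nat_lit 0x0, nat_lit 0x0, nat_lit 0x0, nat_lit 0x0, nat_lit 0xef05d82e813d84, nat_lit 0x0, nat_lit 0x0, nat_lit 0x0, nat_lit 0x31d0cb02, nat_lit 0x21201, nat_lit 0x19601, nat_lit 0x0, nat_lit 0x0, nat_lit 0xd901, nat_lit 0x1b001, nat_lit 0x0, nat_lit 0x0, nat_lit 0x0, nat_lit 0x3740e202, nat_lit 0x0, nat_lit 0x0, nat_lit 0x1f201, nat_lit 0x0, nat_lit 0xe801, nat_lit 0x1c301, nat_lit 0x21801, nat_lit 0x0, nat_lit 0x0, nat_lit 0x0, nat_lit 0x0, nat_lit 0x0, nat_lit 0x0, nat_lit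 0x0, nat_lit 0x0, nat_lit 0x0, nat_lit 0x0, nat_lit 0x10c81, nat_lit 0x0, nat_lit 0x0, nat_lit 0x0, nat_lit 0x0, nat_lit 0x0, nat_lit 0x1a381, nat_lit 0x0, nat_lit 0x0, nat_lit 0x0, nat_lit 0x0, nat_lit 0x101c80c4011ff84, nat_lit 0x0, nat_lit 0x0, nat_lit 0x0, nat_lit 0x0, nat_lit 0x0, nat_lit 0x0, nat_lit 0x0, nat_lit 0x0, nat_lit 0x0, nat_lit 0x20201, nat_lit 0x0, nat_lit 0x0, nat_lit 0x0, nat_lit 0x0, nat_lit 0x0, nat_lit 0x41320702, nat_lit 0x0, nat_lit 0x0, nat_lit 0x0, nat_lit 0x0, nat_lit 0x0, nat_lit 0x0, nat_lit 0x1c001, nat_lit 0x0, nat_lit 0x0, nat_lit 0x20b01, nat_lit 0x17401, nat_lit 0x21901, nat_lit 0x21001, nat_lit 0x20f81, nat_lit 0x0, nat_lit 0x0, nat_lit 0x21c81, nat_lit 0x1ee01, nat_lit 0x0, nat_lit 0x21d01, nat_lit 0x0, nat_lit 0x1ef01, nat_lit 0x0, nat_lit 0x0, nat_lit 0x0, nat_lit 0x1b681, nat_lit 0x0, nat_lit 0x0, nat_lit 0x0, nat_lit 0x1c381, nat_lit 0x0, nat_lit 0x20f01, nat_lit 0x21d81,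 nat_lit 0x43c1ea82, nat_lit 0x0, nat_lit 0x0, nat_lit 0x21081, nat_lit 0x0, nat_lit 0x21181, nat_lit 0x0, nat_lit 0x21981, nat_lit 0x21a01, nat_lit 0x0]
def apl : List Nat := [nat_lit 0xf3c55613c0318044008, nat_lit 0xf4856a146034804800a, nat_lit 0xf58582151039005000c, nat_lit 0xf5c59015703b005800e, nat_lit 0x10286cc1fd05e00cc01a, nat_lit 0x105c75a25c07f00f801e, nat_lit 0x106477626f0850128020, nat_lit 0x107079e2ab09e018c022, nat_lit 0x10747a42b50a301a4024, nat_lit 0x10787a82bb0a581b4026, nat_lit 0x10807ae2c80ab81d802c, nat_lit 0x26011c07002180d005e, nat_lit 0x10c07f23260de0290060, nat_lit 0x10c88083600fb82d8062, nat_lit 0x27013609303e814806a, nat_lit 0x10cc82a3a312783d406c, nat_lit 0x10d082c3a512883dc06e, nat_lit 0x1640a804d0238100072, nat_lit 0xfc07c03d01e00ec074, nat_lit 0x1700ae0500250108076, nat_lit 0x10007e03e01e80f0076, nat_lit 0x1740b0051025810c078, nat_lit 0x10d48303b21318408082, nat_lit 0x1780b60560278124082,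 nat_lit 0x17c0ba058028812c086, nat_lit 0x12008e0460228110086, nat_lit 0x10d88343be1390430098, nat_lit 0x14c0a4051028013c09c, nat_lit 0x10dc8363c413d04480a2, nat_lit 0xe007a043025013c0aa, nat_lit 0xf408604a02781540b4, nat_lit 0x10008c04c02901600b8, nat_lit 0x11809805202c01700bc, nat_lit 0x1fc0f207303601940c2, nat_lit 0x2100f807603801a00c4, nat_lit 0x1ac0d4069034019c0cc, nat_lit 0x1b00d606a03481a00ce, nat_lit 0x22010e08203d81d00dc, nat_lit 0x1800c806903801d40f6, nat_lit 0x2141080830410204100, nat_lit 0x1900d207003a81ec102, nat_lit 0x1a00de07403d020010c, nat_lit 0x24011e08e0468230116, nat_lit 0x5fc2780f7057828413a, nat_lit 0x6202b410d065829813c, nat_lit 0x10ec8543f0183067013e, nat_lit 0x6282fc13307882a413e, nat_lit 0x10f08563f11840678140, nat_lit 0x10f485a3f318a86ac144, nat_lit 0x62c308156085031c146, nat_lit 0x63030c158085832414a, nat_lit 0x63431215f088833814e, nat_lit 0x32c1860ba05882a8150, nat_lit 0x34c1980c405d82c8156,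 nat_lit 0x35819c0c705f82d815a, nat_lit 0x35c19e0c806002dc15c, nat_lit 0x2d01660b205882c015e, nat_lit 0x3681a40cb06182e8162, nat_lit 0x3741aa0cd06302f816a, nat_lit 0x2e81720b805b82d816a, nat_lit 0x3781ac0ce06382fc16c, nat_lit 0x37c1ae0cf064030016e, nat_lit 0x2f01760ba05c82e016e, nat_lit 0x2f41780bb05d02e4170, nat_lit 0x3841b20d10650308172, nat_lit 0x38c1ba0d5066831817c, nat_lit 0x3941be0d70678320180, nat_lit 0x3981c00d80680324182, nat_lit 0x3281920c8063831818a, nat_lit 0x32c1940c9064031c18c, nat_lit 0x3301960ca064832018e, nat_lit 0x2a81600b8060031c19a, nat_lit 0x3481a20d0067833819a, nat_lit 0x2b01640ba061032419e, nat_lit 0x2c01700c006383341a8, nat_lit 0x3641b00d706b03541a8, nat_lit 0x2c41720c106403381aa, nat_lit 0x2c81740c2064833c1ac, nat_lit 0x2cc1760c306503401ae, nat_lit 0x2e01800c706683501b6, nat_lit 0x3801be0de06e83701b6, nat_lit 0x39c1cc0e5072038c1c4, nat_lit 0x3101960d106c037c1c8, nat_lit 0x3281a00d706f038c1d0,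 nat_lit 0x4202000fb07983c01d2, nat_lit 0x3c01de0ee07683b01d6, nat_lit 0x3e41f00f707b03d41e8, nat_lit 0x478232111085040c1f8, nat_lit 0x47c23411308584141fa, nat_lit 0x41820a1040818408202, nat_lit 0x41c20c105082040c204, nat_lit 0x48423c1190888428206, nat_lit 0x48c23e11a089842c20a, nat_lit 0x3a81e00f207c83f820a, nat_lit 0x4a824812008e045c21e, nat_lit 0x4542281130890444220, nat_lit 0x45822a1140898448222, nat_lit 0x3cc1f40ff083042c224, nat_lit 0x3fc20c10b089046423a, nat_lit 0x42021c11508d847c244, nat_lit 0x4a42501270930494248, nat_lit 0x4c426012f09704b4258, nat_lit 0x5642a014709e84d025c, nat_lit 0x5682a214809f04d425e, nat_lit 0x5782aa14c0a184e4264, nat_lit 0x5842b014f0a304f0266, nat_lit 0x5902b61520a484fc26c, nat_lit 0x59c2ba1540a58508270, nat_lit 0x4f427813b09d04e4270, nat_lit 0x5a02bc1550a6050c272, nat_lit 0x4f827a13c09d84e8272, nat_lit 0x5a42be1560a68510274, nat_lit 0x5a82c01570a70514276, nat_lit 0x50027e13e09e84f0276,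 nat_lit 0x5ac2c21580a78518278, nat_lit 0x5b02c41590a8051c27a, nat_lit 0x5b42c615a0a8852027c, nat_lit 0x5bc2cc15c0a98528282, nat_lit 0x51828a1440a18508282, nat_lit 0x5c02ce15d0aa052c284, nat_lit 0x51c28c1450a2050c284, nat_lit 0x52028e1460a28510286, nat_lit 0x5c82d215f0ab0534288, nat_lit 0x5242901470a30514288, nat_lit 0x5cc2d41600ab853828a, nat_lit 0x5d42d81620ac854028e, nat_lit 0x53c29c14d0a6052c294, nat_lit 0x54029e14e0a68530296, nat_lit 0x5e02e21680af0554298, nat_lit 0x4ac25e13409e051429a, nat_lit 0x5482a21500a7853829a, nat_lit 0x5e82e616a0b0055c29c, nat_lit 0x5ec2e816b0b0856029e, nat_lit 0x5f02ee1700b385742a8, nat_lit 0x4b826613b0a205302a8, nat_lit 0x5642b01570ab05542a8, nat_lit 0x5682b21580ab85582aa, nat_lit 0x4cc2761440a605502b8, nat_lit 0x5842c015f0af05742b8, nat_lit 0x4d02781450a685542ba, nat_lit 0x5882c21600af85782ba, nat_lit 0x4d427a1460a705582bc, nat_lit 0x4d827c1470a7855c2be, nat_lit 0x4dc27e1480a805602c0,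 nat_lit 0x4ec28814c0aa05702ca, nat_lit 0x5a82d21680b385982ca, nat_lit 0x4f428c14e0ab05782ce, nat_lit 0x5b02d616a0b485a02ce, nat_lit 0x4f828e14f0ab857c2d0, nat_lit 0x5b42d816b0b505a42d0, nat_lit 0x4fc2901500ac05802d2, nat_lit 0x5002921510ac85842d4, nat_lit 0x51429a1550ae85982dc, nat_lit 0x5cc2e41710b805bc2dc, nat_lit 0x51829c1560af059c2de, nat_lit 0x5d02e61720b885c02de, nat_lit 0x51c29e1570af85a02e0, nat_lit 0x5242a21590b085a82e4, nat_lit 0x53c2ae15f0b405c02ec, nat_lit 0x5ec2f41790bc05dc2ec, nat_lit 0x5402b01600b485c42ee, nat_lit 0x5482b41620b585cc2f2, nat_lit 0x5642c216a0b905e02f8, nat_lit 0xaac4a21ee0d2064031c, nat_lit 0xb044d02060db065431e, nat_lit 0xb9455c2540f8869c322, nat_lit 0xb985662590fb86a8324, nat_lit 0xb9c56a25b0fc86b0328, nat_lit 0xba059027010686f032c, nat_lit 0xba85a427c10c871c32e, nat_lit 0xbac5be28c1150748330, nat_lit 0x6dc35e1a70cf866c332, nat_lit 0x71c37c1b50d6869433a, nat_lit 0x72037e1b60d7069833c,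 nat_lit 0x7243801b70d7869c33e, nat_lit 0x7283821b80d806a0340, nat_lit 0x7343881bb0d906a8344, nat_lit 0x69c34c1a50d2068c344, nat_lit 0x73838a1bc0d986ac346, nat_lit 0x6a034e1a60d28690346, nat_lit 0x73c38c1bd0da06b0348, nat_lit 0x74038e1be0da86b434a, nat_lit 0x74839a1c40dd86c8354, nat_lit 0x74c39c1c50de06cc356, nat_lit 0x6c035e1ae0d686b0356, nat_lit 0x6d836a1b40d986c8362, nat_lit 0x66433419d0d206ac364, nat_lit 0x7503a61ce0e286f0366, nat_lit 0x6f837a1bc0dd86e8372, nat_lit 0x66c33c1a50d606cc376, nat_lit 0x70037e1be0de86f0376, nat_lit 0xc0160160258320378, nat_lit 0x71c38c1c50e2070c384, nat_lit 0xbb05d22ce13c0854386, nat_lit 0x72038e1c60e28710386, nat_lit 0x67c34c1ad0da06f0388, nat_lit 0x68034e1ae0da86f438a, nat_lit 0x6843501af0db06f838c, nat_lit 0x6943581b30dd870c396, nat_lit 0x69835a1b40de0710398, nat_lit 0x7443a01cf0e70734398, nat_lit 0x6a43601b70df871c39e, nat_lit 0x6bc36c1be0e307383a4, nat_lit 0x6c036e1bf0e3873c3a6,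 nat_lit 0x8183f61f00f287743aa, nat_lit 0x81c3f81f10f307783ac, nat_lit 0x8203fa1f20f3877c3ae, nat_lit 0x8344061f80f687883b4, nat_lit 0x8384081f90f7078c3b6, nat_lit 0x83c40a1fa0f787903b8, nat_lit 0x84040c1fb0f807943ba, nat_lit 0x8584182020fb87b03c2, nat_lit 0x7983ca1e40f187883c2, nat_lit 0x79c3cc1e50f2078c3c4, nat_lit 0x86041c2040fc87b83c6, nat_lit 0x7a03ce1e60f287903c6, nat_lit 0x86441e2050fd07bc3c8, nat_lit 0x7a43d01e70f307943c8, nat_lit 0x8684202060fd87c03ca, nat_lit 0x86c4222070fe07c43cc, nat_lit 0x87842820a10007d43d4, nat_lit 0x7bc3dc1ed0f607ac3d4, nat_lit 0x88042c20c10107dc3d8, nat_lit 0x7c43e01ef0f707b43d8, nat_lit 0x88442e20d10187e03da, nat_lit 0x7c83e21f00f787b83da, nat_lit 0x88843020e10207e43dc, nat_lit 0x7cc3e41f10f807bc3dc, nat_lit 0x7d03e61f20f887c03de, nat_lit 0x89043421010307ec3e0, nat_lit 0x89443621110387f03e2, nat_lit 0x7e83f21f80fb87d83ea, nat_lit 0x8a443e21510588043ec, nat_lit 0x7ec3f41f90fc07dc3ec,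 nat_lit 0x7f03f61fa0fc87e03ee, nat_lit 0x8ac442217106880c3f0, nat_lit 0x8b044421810708103f2, nat_lit 0x7f83fa1fc0fd87e83f2, nat_lit 0x8b444621910788143f4, nat_lit 0x81040620210088003fe, nat_lit 0x8bc45221f10a882c402, nat_lit 0x81840a2041018808402, nat_lit 0x8c045422010b0830404, nat_lit 0x7583ba1e40f707e0404, nat_lit 0x81c40c205102080c404, nat_lit 0x8c445622110b8834406, nat_lit 0x75c3bc1e50f787e4406, nat_lit 0x82040e2061028810406, nat_lit 0x7603be1e60f807e8408, nat_lit 0x8244102071030814408, nat_lit 0x7643c01e70f887ec40a, nat_lit 0x7703c61ed0fb8804414, nat_lit 0x83c41c20d106082c414, nat_lit 0x7743c81ee0fc0808416, nat_lit 0x84041e20e1068830416, nat_lit 0x84442020f1070834418, nat_lit 0x848422210107883841a, nat_lit 0x7803ce1f10fd881441c, nat_lit 0x78c3da1f71008828426, nat_lit 0x86042e21610a8850426, nat_lit 0x7903dc1f8101082c428, nat_lit 0x86443021710b0854428, nat_lit 0x7943de1f9101883042a, nat_lit 0x7983e01fa102083442c,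 nat_lit 0x86c43421910c085c42c, nat_lit 0x79c3e21fb102883842e, nat_lit 0x7a43e61fd1038840432, nat_lit 0x88444021f10f0874438, nat_lit 0x7bc3f2203106085443c, nat_lit 0x88c444221110087c43c, nat_lit 0x7c03f4204106885843e, nat_lit 0x890446222110888043e, nat_lit 0x7c43f6205107085c440, nat_lit 0x8944482231110884440, nat_lit 0x7c83f82061078860442, nat_lit 0x7cc3fa2071080864444, nat_lit 0x7e040420b10a087444c, nat_lit 0x7e440620c10a887844e, nat_lit 0x8b045622a11488a044e, nat_lit 0x7e840820d10b087c450, nat_lit 0x8b445822b11508a4450, nat_lit 0x7f040c20f10c0884454, nat_lit 0x7f440e21010c8888456, nat_lit 0x7f841021110d088c458, nat_lit 0x81441c21711008a445c, nat_lit 0x81841e21811088a845e, nat_lit 0x82442421b11208b4464, nat_lit 0x84043222211588c0466, nat_lit 0x9784a824a12088e4468, nat_lit 0x9804ac24c12188ec46a, nat_lit 0x8ec47423911c08dc46c, nat_lit 0x9bc4c82591278914478, nat_lit 0x9c44cc25b128891c47c, nat_lit 0x9c84ce25c129092047e,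 nat_lit 0x9cc4d025d1298924480, nat_lit 0x9e04dc26312c0938488, nat_lit 0x9244902471230914488, nat_lit 0x9e44de26412c893c48a, nat_lit 0x928492248123891848a, nat_lit 0x92c494249124091c48c, nat_lit 0x9ec4e226612d894448e, nat_lit 0x93049624a124892048e, nat_lit 0x9f44e626812e894c492, nat_lit 0x9f84e826912f0950494, nat_lit 0xa044ee26d131095c49a, nat_lit 0x9484a2250127893849a, nat_lit 0xa0c4f226f132096449e, nat_lit 0x9504a6252128894049e, nat_lit 0xa104f427013289684a0, nat_lit 0x9544a825312909444a0, nat_lit 0xa144f6271133096c4a2, nat_lit 0x9584aa25412989484a2, nat_lit 0xa184f827213389704a4, nat_lit 0xa1c4fa27313409744a6, nat_lit 0x9704b625a12c89604ae, nat_lit 0xa2c504278137098c4b0, nat_lit 0x9744b825b12d09644b0, nat_lit 0x9784ba25c12d89684b2, nat_lit 0xa3450827a13809944b4, nat_lit 0x9804be25e12e89704b6, nat_lit 0xa3c50c27c139099c4b8, nat_lit 0xa4051228013b09b04c2, nat_lit 0x9984ca26413189884c2, nat_lit 0x8dc47c24612789604c4,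 nat_lit 0xa4851628213c09b84c6, nat_lit 0x8e047e24712809644c6, nat_lit 0x9a04ce26613289904c6, nat_lit 0xa4c51828313c89bc4c8, nat_lit 0x8e448024812889684c8, nat_lit 0x9a44d026713309944c8, nat_lit 0xa5051a28413d09c04ca, nat_lit 0x8e8482249129096c4ca, nat_lit 0xa5451c28513d89c44cc, nat_lit 0x8f448a24e12b89844d6, nat_lit 0x8f848c24f12c09884d8, nat_lit 0x9c44e026f13709b44d8, nat_lit 0xa5852228a14089dc4da, nat_lit 0x8fc48e25012c898c4da, nat_lit 0x9c84e227013789b84da, nat_lit 0xa5c52428b14109e04dc, nat_lit 0x90049025112d09904dc, nat_lit 0x9cc4e427113809bc4dc, nat_lit 0x9d04e627213889c04de, nat_lit 0x90849425312e09984e0, nat_lit 0x90c49625412e899c4e2, nat_lit 0x9e84f227813b89d84ea, nat_lit 0x91c4a025913189b44ec, nat_lit 0x9ec4f427913c09dc4ec, nat_lit 0x9204a225a13209b84ee, nat_lit 0x9f04f627a13c89e04ee, nat_lit 0x9244a425b13289bc4f0, nat_lit 0x9284a625c13309c04f2, nat_lit 0x9f84fa27c13d89e84f2, nat_lit 0x92c4a825d13389c44f4,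 nat_lit 0x9404b226313689d84fe, nat_lit 0xa105062821408a004fe, nat_lit 0x9484b626513789e0502, nat_lit 0xa1850a2841418a08502, nat_lit 0x94c4b826613809e4504, nat_lit 0xa1c50c2851420a0c504, nat_lit 0x9504ba26713889e8506, nat_lit 0x9544bc26813909ec508, nat_lit 0x9584be26913989f050a, nat_lit 0x9684c826e13b8a00510, nat_lit 0xa3451828b1450a24510, nat_lit 0x96c4ca26f13c0a04512, nat_lit 0xa3851a28c1458a28512, nat_lit 0x9704cc27013c8a08514, nat_lit 0xa3c51c28d1460a2c514, nat_lit 0x9784d027213d8a10518, nat_lit 0x97c4d227313e0a1451a, nat_lit 0x9804d427413e8a1851c, nat_lit 0x9984e02791410a28520, nat_lit 0xa545282931490a44520, nat_lit 0x99c4e227a1418a2c522, nat_lit 0x9a04e427b1420a30524, nat_lit 0x9cc4f82851468a4c52e, nat_lit 0xb085702ae1520a74530, nat_lit 0xb2457e2b51558a84534, nat_lit 0xb2c5822b71568a8c538, nat_lit 0xb3858c2bc1590aa053c, nat_lit 0xa905462a21508a8053e, nat_lit 0xb405902be15a0aa8540, nat_lit 0xb485942c015b0ab0544,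 nat_lit 0xb4c5962c115b8ab4546, nat_lit 0xb545982c415d0ac054c, nat_lit 0xb5859a2c515d8ac454e, nat_lit 0xab05562aa1548aa054e, nat_lit 0xb5c59c2c615e0ac8550, nat_lit 0xab45582ab1550aa4550, nat_lit 0xb6059e2c715e8acc552, nat_lit 0xb645a02c815f0ad0554, nat_lit 0xabc55c2ad1560aac554, nat_lit 0xb685a22c915f8ad4556, nat_lit 0xb6c5a42ca1600ad8558, nat_lit 0xad856a2b41598ac8562, nat_lit 0xadc56c2b515a0acc564, nat_lit 0xb7c5b02cf1638af4566, nat_lit 0xae056e2b615a8ad0566, nat_lit 0xb845b42d11648afc56a, nat_lit 0xafc57c2bd15e0aec574, nat_lit 0xb885ba2d61668b14576, nat_lit 0xb0057e2be15e8af0576, nat_lit 0xb8c5bc2d71670b18578, nat_lit 0xb045802bf15f0af4578, nat_lit 0xa6453a2a31560ad457c, nat_lit 0xb2058e2c61628b10586, nat_lit 0xa685402a91590aec588, nat_lit 0xa6c5422aa1598af058a, nat_lit 0xb285922c81638b1858a, nat_lit 0xa845542b315e0b14598, nat_lit 0xb445a02cf1670b34598, nat_lit 0xa885562b415e8b1859a, nat_lit 0xb485a22d01678b3859a,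 nat_lit 0xa8c5582b515f0b1c59c, nat_lit 0xb4c5a42d11680b3c59c, nat_lit 0xa9055a2b615f8b2059e, nat_lit 0xa9455c2b71600b245a0, nat_lit 0xaa85662bc1628b305a8, nat_lit 0xb645b02d716b0b545a8, nat_lit 0xaac5682bd1630b345aa, nat_lit 0xb6c5b42d916c0b5c5ac, nat_lit 0xab456c2bf1640b3c5ae, nat_lit 0xab856e2c01648b405b0, nat_lit 0xad457c2c71670b585b8, nat_lit 0xad857e2c81678b5c5ba, nat_lit 0xae45842cb1690b685c0, nat_lit 0xb005922d016c0b785c4, nat_lit 0xb045942d116c8b7c5c6, nat_lit 0xb085962d216d0b805c8, nat_lit 0xf4074c35a1870bc85da, nat_lit 0xf4c75e36518c8bd45de, nat_lit 0xf5476836c18f0bd85e0, nat_lit 0xf607883801970bec5e2, nat_lit 0xf647a23ab1b08c545e6, nat_lit 0x2002403d05c06b05e8, nat_lit 0x2402804606186d85ee, nat_lit 0x2802a04906306e85f0, nat_lit 0x3003005706b07345f8, nat_lit 0xca46423181878c20604, nat_lit 0xca86443191880c24606, nat_lit 0xcb464a31d18a0c2c608, nat_lit 0xc246103071830c14608, nat_lit 0xcbc64e31f18b0c3460c,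 nat_lit 0xcc065032018b8c3860e, nat_lit 0xccc65832418e0c4c614, nat_lit 0xcd065a32518e8c50616, nat_lit 0xcd465c32618f0c54618, nat_lit 0xcd865e32718f8c5861a, nat_lit 0xc486223101878c3861a, nat_lit 0xce066632c1920c70626, nat_lit 0xce466832d1928c74628, nat_lit 0xbf45fe3011830c30628, nat_lit 0xc6463031718b0c54628, nat_lit 0xbf86003021838c3462a, nat_lit 0xc006043071868c5463a, nat_lit 0xc8864232018f8c7863a, nat_lit 0xca86523281938c9864a, nat_lit 0xc1c61a31518e8c90656, nat_lit 0xcc065e32e1968cb0656, nat_lit 0xc3862c31e1928cb0664, nat_lit 0xcdc66c33519a0ccc664, nat_lit 0xc3c62e31f1930cb4666, nat_lit 0xc406303201938cb8668, nat_lit 0xc486343221948cc066c, nat_lit 0xc606403271970cd0670, nat_lit 0xc686443291980cd8674, nat_lit 0xc6c64632a1988cdc676, nat_lit 0xd906b63511a38d00678, nat_lit 0xd0c6843411a00cfc67c, nat_lit 0xdb86c635a1a80d1867e, nat_lit 0xdbc6c835b1a88d1c680, nat_lit 0xdc06ca35c1a90d20682, nat_lit 0xdc46cc35d1a98d24684,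 nat_lit 0xdd86d83611ac0d38688, nat_lit 0xddc6da3621ac8d3c68a, nat_lit 0xd286923481a38d1868a, nat_lit 0xde06dc3631ad0d4068c, nat_lit 0xde86e03651ae0d48690, nat_lit 0xdf86e836a1af8d58698, nat_lit 0xd446a034f1a70d34698, nat_lit 0xdfc6ea36b1b00d5c69a, nat_lit 0xd486a23501a78d3869a, nat_lit 0xe046ee36d1b10d6469e, nat_lit 0xd506a63521a88d4069e, nat_lit 0xe0c6f236f1b20d6c6a2, nat_lit 0xe106f43701b28d706a4, nat_lit 0xe146fa3731b48d786aa, nat_lit 0xd686b23581ab8d586aa, nat_lit 0xd6c6b43591ac0d5c6ac, nat_lit 0xe1c6fe3751b58d806ae, nat_lit 0xe207003761b60d846b0, nat_lit 0xd746b835b1ad0d646b0, nat_lit 0xe247023771b68d886b2, nat_lit 0xe287043781b70d8c6b4, nat_lit 0xe2c7063791b78d906b6, nat_lit 0xe3870c37e1ba0da86be, nat_lit 0xd906c63621b08d806be, nat_lit 0xe3c70e37f1ba8dac6c0, nat_lit 0xcf46803461a78d606c0, nat_lit 0xd946c83631b10d846c0, nat_lit 0xe407103801bb0db06c2, nat_lit 0xd986ca3641b18d886c2, nat_lit 0xe447123811bb8db46c4,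 nat_lit 0xd9c6cc3651b20d8c6c4, nat_lit 0xcf868834d1ab0d786d0, nat_lit 0xe4871a3851be8dcc6d2, nat_lit 0xdb86da36c1b58da86d2, nat_lit 0xe4c71c3861bf0dd06d4, nat_lit 0xd0068c34f1ac0d806d4, nat_lit 0xdbc6dc36d1b60dac6d4, nat_lit 0xe5071e3871bf8dd46d6, nat_lit 0xd0468e3501ac8d846d6, nat_lit 0xdc06de36e1b68db06d6, nat_lit 0xd086903511ad0d886d8, nat_lit 0xd1469c3571af8da46e4, nat_lit 0xddc6ec3751ba0dcc6e4, nat_lit 0xde06ee3761ba8dd06e6, nat_lit 0xd1c6a03591b08dac6e8, nat_lit 0xd206a235a1b10db06ea, nat_lit 0xde86f23781bb8dd86ea, nat_lit 0xd246a435b1b18db46ec, nat_lit 0xdec6f43791bc0ddc6ec, nat_lit 0xd286a635c1b20db86ee, nat_lit 0xd2c6a835d1b28dbc6f0, nat_lit 0xd3c6b03601b50dcc6f8, nat_lit 0xe0470037f1bf0df46f8, nat_lit 0xd406b23611b58dd06fa, nat_lit 0xe087023801bf8df86fa, nat_lit 0xd446b43621b60dd46fc, nat_lit 0xe0c7043811c00dfc6fc, nat_lit 0xe107063821c08e006fe, nat_lit 0xd4c6b83641b70ddc700, nat_lit 0xd506ba3651b78de0702,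 nat_lit 0xd686c436c1ba8df870a, nat_lit 0xe287123881c38e1870a, nat_lit 0xd6c6c636d1bb0dfc70c, nat_lit 0xe2c7143891c40e1c70c, nat_lit 0xd706c836e1bb8e0070e, nat_lit 0xd886d83751bf0e14718, nat_lit 0xe4472038f1c70e34718, nat_lit 0xd8c6da3761bf8e1871a, nat_lit 0xd946de3781c08e2071e, nat_lit 0xd986e03791c10e24720, nat_lit 0xdb86ee3801c38e38724, nat_lit 0xdbc6f03811c40e3c726, nat_lit 0xef476a3ac1d28e6c72a, nat_lit 0xefc76e3ae1d38e7472e, nat_lit 0xe7473839b1cd0e64730, nat_lit 0xf0c7763b31d50e8c732, nat_lit 0xf107783b41d58e90734, nat_lit 0xe7c73c39d1ce0e6c734, nat_lit 0xf1477a3b51d60e94736, nat_lit 0xe8073e39e1ce8e70736, nat_lit 0xf1877c3b61d68e98738, nat_lit 0xf1c77e3b71d70e9c73a, nat_lit 0xe9874a3a41d18e88742, nat_lit 0xf287863bb1d98ea8746, nat_lit 0xea074e3a61d28e90746, nat_lit 0xf2c7883bc1da0eac748, nat_lit 0xea47503a71d30e94748, nat_lit 0xf3078a3bd1da8eb074a, nat_lit 0xebc75c3ad1d60eac754, nat_lit 0xf387963c41de0ed0756,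 nat_lit 0xec075e3ae1d68eb0756, nat_lit 0xed876a3b41d98ec8762, nat_lit 0xedc76c3b51da0ecc764, nat_lit 0xe587363a41d50ec8772, nat_lit 0xefc77c3bd1de0eec774, nat_lit 0xe6c7483aa1d90ee4780, nat_lit 0xf1878a3c41e18f08782, nat_lit 0xe7474c3ac1da0eec784, nat_lit 0xe7874e3ad1da8ef0786, nat_lit 0xe807523af1db8ef878a, nat_lit 0xe987583b41dd8f08790, nat_lit 0xe9c75a3b51de0f0c792, nat_lit 0xebc76e3be1e28f2c79a, nat_lit 0xec07703bf1e30f3079c, nat_lit 0x380640a20c98bb87b4, nat_lit 0x4807a0b80d60bd07b6, nat_lit 0x107c8324101fc0fa07b8, nat_lit 0x580960c80de0be47ba, nat_lit 0x5c09a0cc0e00be87bc, nat_lit 0x10848364141fd8fac7be, nat_lit 0x640c40f60f68c307c0, nat_lit 0x680c60f70f70c347c2, nat_lit 0x6c0d40fe0fd0c5c7c4, nat_lit 0x700d60ff0fd8c607c6, nat_lit 0x740de1031010c747c8, nat_lit 0x780e01041018c787ca, nat_lit 0x7c0e21051020c7c7cc, nat_lit 0x800e81091058c907ce, nat_lit 0x840ea10a1060c947d0, nat_lit 0x880ee10c1078ca07d2, nat_lit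 0x8c0f010d1080ca47d4, nat_lit 0x900f811210b8cb87d6, nat_lit 0x940fa11310c0cbc7d8, nat_lit 0x980fc11510d0cc47da, nat_lit 0x9c10411810f8ccc7dc, nat_lit 0xa010a11a1110cd87de, nat_lit 0xa411213b1280d607e4, nat_lit 0xa811414712e0d8c7e8, nat_lit 0xac11614b1310da47ea, nat_lit 0xb012415e13c0df87f4, nat_lit 0xb41281711458e387f8, nat_lit 0x104c81c40820190007fa, nat_lit 0x10248104072031014808, nat_lit 0xb813018315f0ed081a, nat_lit 0xff47fe401202903081e, nat_lit 0x18c1ee1ee1868f84844, nat_lit 0x1c420a20418f8f98846, nat_lit 0x1d421420c1928fa0848, nat_lit 0x1dc21820f1940fa484a, nat_lit 0x1f02242171970fac84c, nat_lit 0x23429a2641b58fd884e, nat_lit 0x2442a22681b78fdc850, nat_lit 0x2542fa29f1cc8ff8852, nat_lit 0x2583002ac1d31008858, nat_lit 0x25c3042bc1d9102c85c, nat_lit 0x26430a2c81de1044860, nat_lit 0x26830e2ca1df1048862, nat_lit 0x6005583a620110b0870, nat_lit 0x6045683ab20290b4872, nat_lit 0x61058e3bb20810bc874]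
theorem hpt : RA.all okp pt = true := by decide +kernel
theorem hN : chkN nb td1 pt nbl (nat_lit 0) = true := by decide +kernel
theorem hA : chkG cl (nat_lit 6) (apOK td1 pt (nat_lit 5)) apl (nat_lit 0) = true := by decide +kernel
def s0 : List Nat := [nat_lit 0x2144a4a86b]
theorem hs0 : chkG cl (nat_lit 3) (l3OK td9 td9 td9 pt) s0 (nat_lit 624) = true := by decide +kernel
def s1 : List Nat := [nat_lit 0x3c266007, nat_lit 0xd4286009, nat_lit 0x140021ed, nat_lit 0xf3483e3df, nat_lit 0xf7c85e3f1, nat_lit 0xfdc88a409, nat_lit 0x10248aa419, nat_lit 0x12949ea4b5, nat_lit 0x12d4a0a4c7, nat_lit 0x12eca164cd, nat_lit 0x1334a324df, nat_lit 0x137ca464ef, nat_lit 0x1b0ce1a6d5, nat_lit 0x1b74e426ed, nat_lit 0x1bace4a6fb, nat_lit 0x1d2cf0e755, nat_lit 0xe446d239f, nat_lit 0xfd478a407, nat_lit 0xfdc78e409, nat_lit 0x10247b2419, nat_lit 0x103c7be41f, nat_lit 0x10bc80643f, nat_lit 0x12548de4a5, nat_lit 0x13d498e505, nat_lit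 0x13dc992507, nat_lit 0x16fcb365c5, nat_lit 0x1bc4d86701, nat_lit 0xa2c5662ad, nat_lit 0xf6c816405, nat_lit 0xf7c81e409, nat_lit 0xfc483e419, nat_lit 0x101c86642d, nat_lit 0x12049564a5, nat_lit 0x12949a64cd, nat_lit 0x12d49ca4df, nat_lit 0x132c9f24f3, nat_lit 0x137ca16505, nat_lit 0x13d4a3e519, nat_lit 0x154cafe579, nat_lit 0x1644b6e5b1, nat_lit 0x1a3cd766b5, nat_lit 0x1accdbe6d9, nat_lit 0x1b0cde26eb, nat_lit 0x1b6ce0e701, nat_lit 0x1bace2670d, nat_lit 0xab452228b, nat_lit 0xb445662ad, nat_lit 0xe246da367, nat_lit 0xe2c6de369, nat_lit 0xfc479a3c7, nat_lit 0x10247ca3df, nat_lit 0x10647ee3f1, nat_lit 0x10bc81e409, nat_lit 0x115486a42f, nat_lit 0x12d492a48f, nat_lit 0x13349564a5, nat_lit 0x137c9764b5, nat_lit 0x13d49a64cd, nat_lit 0x14149ca4df, nat_lit 0x166cafe579, nat_lit 0x1b0cd4a69f, nat_lit 0x1ba4d8e6c1, nat_lit 0x1bacd926c3, nat_lit 0x1c34de26eb, nat_lit 0x1d6ce8273b, nat_lit 0x8fc41e003, nat_lit 0x400a207,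 nat_lit 0xb9453e2d1, nat_lit 0xfd475a3dd, nat_lit 0x10247763f1, nat_lit 0x106478e403, nat_lit 0x1074796407, nat_lit 0x10b47ba417, nat_lit 0x10bc7be419, nat_lit 0x10fc7e2429, nat_lit 0x115c816441, nat_lit 0x12ec8ea4a5, nat_lit 0x13248fa4b1, nat_lit 0x13349024b5, nat_lit 0x137c91e4c7, nat_lit 0x138c9264cb, nat_lit 0x139492a4cd, nat_lit 0x13d494a4df, nat_lit 0x142c9764f5, nat_lit 0x1b0ccfe6af, nat_lit 0x1b64d1a6c1, nat_lit 0x1bacd3e6d5, nat_lit 0x1c04d6a6eb, nat_lit 0x1c0cd6e6ed, nat_lit 0x8ec452243, nat_lit 0xaac51e2bf, nat_lit 0xae453a2cf, nat_lit 0xb445662e5, nat_lit 0xfc479a409, nat_lit 0x10247ca41f, nat_lit 0x105c7ea42d, nat_lit 0x10647ee42f, nat_lit 0x10a481243f, nat_lit 0x10bc81e445, nat_lit 0x115486a463, nat_lit 0x127c9024b5, nat_lit 0x12d492a4cd, nat_lit 0x13349564e5, nat_lit 0x137c9764f5, nat_lit 0x13b4996503, nat_lit 0x13d49a650b, nat_lit 0x141c9ce51b, nat_lit 0x163cade5a1, nat_lit 0x1abcd1e6c3, nat_lit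 0x1b04d466d9, nat_lit 0x1b54d6a6eb, nat_lit 0x1bacd92701, nat_lit 0x1c04dc2713, nat_lit 0x1e1cede797, nat_lit 0x400a20d, nat_lit 0xa744ba28f, nat_lit 0xaec4ea2ad, nat_lit 0xb044f62b3, nat_lit 0xb445162c1, nat_lit 0x101c7723f5, nat_lit 0x10247763f7, nat_lit 0x102c77a3f9, nat_lit 0x106478e409, nat_lit 0x10bc7be41f, nat_lit 0x10c47c2421, nat_lit 0x10fc7e242f, nat_lit 0x12d48de4a5, nat_lit 0x132c8fe4b9, nat_lit 0x13349024bb, nat_lit 0x136c9164c9, nat_lit 0x137c91e4cd, nat_lit 0x13d494a4e5, nat_lit 0x141496a4f5, nat_lit 0x1644a8a581, nat_lit 0x1c04d6a6f1, nat_lit 0x140021f3, nat_lit 0x58433e175, nat_lit 0xa2c5a229f, nat_lit 0xcfc6fa351, nat_lit 0xf7c85e3f7, nat_lit 0xf848623f9, nat_lit 0xfc487e409, nat_lit 0xfdc88a40f, nat_lit 0x10248aa41f, nat_lit 0x102c8ae421, nat_lit 0x12949ea4bb, nat_lit 0x129c9ee4bd, nat_lit 0x12d4a0a4cd, nat_lit 0x12eca164d3, nat_lit 0x1334a324e5, nat_lit 0x133ca364e7, nat_lit 0x1394a524fb,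 nat_lit 0x1abcdf66c3, nat_lit 0x1ad4e026c9, nat_lit 0x1b04e166d9, nat_lit 0x1b0ce1a6db, nat_lit 0x1b6ce3e6f1, nat_lit 0x1b7ce466f5, nat_lit 0x1cecef6751, nat_lit 0x5bc32a161, nat_lit 0x8ec4a2003, nat_lit 0xa2c56627b, nat_lit 0xa6458228b, nat_lit 0xa7458a28f, nat_lit 0xab45ae29f, nat_lit 0xaec5ca2ad, nat_lit 0xf7c81e3cd, nat_lit 0xf848223cf, nat_lit 0xfc483e3df, nat_lit 0x100c85e3f1, nat_lit 0x101c8663f5, nat_lit 0x102486a3f7, nat_lit 0x106488a409, nat_lit 0x12d49ca4a5, nat_lit 0x132c9f24b9, nat_lit 0x13349f64bb, nat_lit 0x137ca164cd, nat_lit 0x1934cde641, nat_lit 0x1abcdb669f, nat_lit 0x1accdbe6a3, nat_lit 0x1b0cde26b5, nat_lit 0x60c2b6161, nat_lit 0xf947763c1, nat_lit 0x10247b23df, nat_lit 0x10647d63f1, nat_lit 0x111483241f, nat_lit 0x12ec91e495, nat_lit 0x133493e4a5, nat_lit 0x13d498e4cd, nat_lit 0x1ad4d1268f, nat_lit 0x1c04daa6db, nat_lit 0x87400620f, nat_lit 0x62433e175, nat_lit 0xa3c556279, nat_lit 0xab4596299,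 nat_lit 0xf347e23bb, nat_lit 0xfd482e3dd, nat_lit 0x10248523f1, nat_lit 0x107487a407, nat_lit 0x107c87e409, nat_lit 0x128498648b, nat_lit 0x12e49ba4a3, nat_lit 0x12ec9be4a5, nat_lit 0x13349de4b5, nat_lit 0x138ca064cb, nat_lit 0x1394a0a4cd, nat_lit 0x139ca0e4cf, nat_lit 0x13cca224dd, nat_lit 0x15f4b32567, nat_lit 0x1a8cd8268d, nat_lit 0x1b1cdd26b3, nat_lit 0x1b64df26c1, nat_lit 0x9ec53229f, nat_lit 0xfd482e41d, nat_lit 0x12849864c9, nat_lit 0x129498e4cd, nat_lit 0x12e49ba4e3, nat_lit 0x12ec9be4e5, nat_lit 0x13349de4f5, nat_lit 0x1644b565b1, nat_lit 0x1b0cdca6eb, nat_lit 0x1b6cdf6701, nat_lit 0x1b74dfa703]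
theorem hs1 : chkG cl (nat_lit 3) (l3OK td9 td3 td12 pt) s1 (nat_lit 625) = true := by decide +kernel
def s2 : List Nat := [nat_lit 0x914006001]
theorem hs2 : chkG cl (nat_lit 3) (l3OK td4 td16 td4 pt) s2 (nat_lit 848) = true := by decide +kernel
def s3 : List Nat := [nat_lit 0x24d6615f, nat_lit 0x44eb21fb, nat_lit 0x21ec5166c3, nat_lit 0x21c42c26b5, nat_lit 0x34c8620f, nat_lit 0x3cc9a001, nat_lit 0x4e4e062c3, nat_lit 0x1ebc292001, nat_lit 0x1ed496a357, nat_lit 0x2114f3e6b3, nat_lit 0x17841c2407, nat_lit 0x7c4006001, nat_lit 0xf6487a415, nat_lit 0x11c499a4a3, nat_lit 0x124c9ee4cd, nat_lit 0x1284a0a4dd, nat_lit 0x1a0cdba6b5, nat_lit 0x1a9ce0e6df, nat_lit 0x1acce1e6eb, nat_lit 0x26c0e208b, nat_lit 0xacc4ee29d, nat_lit 0xfe47723df, nat_lit 0x102c78a3f1, nat_lit 0x10447963f7, nat_lit 0x107c7b6407, nat_lit 0x108c7be40b, nat_lit 0x10bc7da417, nat_lit 0x133c91a4b5, nat_lit 0x13549264bb, nat_lit 0x13949424cb, nat_lit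 0x13a494a4cf, nat_lit 0x1bc4d626d9, nat_lit 0x6fc2ea193, nat_lit 0xb444f229b, nat_lit 0xb4c4f629d, nat_lit 0xe24676357, nat_lit 0x10f47b6403, nat_lit 0x11047be407, nat_lit 0x11247ce40f, nat_lit 0x141c94a4cb, nat_lit 0x1644a72557, nat_lit 0x1b0ccf268b, nat_lit 0x1bb4d1e6b3, nat_lit 0x1c8cd966f1, nat_lit 0x1e64ea276d, nat_lit 0x7e4432001, nat_lit 0xf1c7f23f5, nat_lit 0xf64816407, nat_lit 0x11e494a4a1, nat_lit 0x127c99e4cb, nat_lit 0x13cca3e51b, nat_lit 0x163cb6e5b3, nat_lit 0x1a24d6e6b3, nat_lit 0x934002003, nat_lit 0x10cc79a3f9, nat_lit 0x113c7da417, nat_lit 0x144c9624dd, nat_lit 0xeac80e3df, nat_lit 0xfc48a242d, nat_lit 0xfdc8ae433, nat_lit 0x11f49ba4b5, nat_lit 0x12d4a2a4f3, nat_lit 0x132ca46507, nat_lit 0x187ccd6651, nat_lit 0x83c462001, nat_lit 0xfe485a409, nat_lit 0x124c98e4a1, nat_lit 0x125c9964a5, nat_lit 0x12f49e64cd, nat_lit 0x160cb5e591, nat_lit 0x1adcdd26c3, nat_lit 0x1b24dfa6d9, nat_lit 0xb0c53229d,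 nat_lit 0xdfc6ae35b, nat_lit 0xfd47863c7, nat_lit 0x147c9e64f7, nat_lit 0x16fcb3259d, nat_lit 0x1bb4d7a6c1, nat_lit 0x9bc51628f, nat_lit 0xefc7b63df, nat_lit 0xfe483241d, nat_lit 0x107c87a441, nat_lit 0x12149424a5, nat_lit 0x12f49be4e3, nat_lit 0x1394a06507, nat_lit 0x15bcb1a591, nat_lit 0x1bc4e1670f, nat_lit 0x814006001, nat_lit 0xdd474e38b, nat_lit 0xf7c8463f9, nat_lit 0xfc486640b, nat_lit 0x1024892421, nat_lit 0x11fc97a495, nat_lit 0x128c9ce4bb, nat_lit 0x14fcafe557, nat_lit 0x1a7cdbe6b7, nat_lit 0x1ad4dea6cb, nat_lit 0x1adcdee6cd, nat_lit 0x1b0ce0a6dd, nat_lit 0x7e43ca005, nat_lit 0x95448e243, nat_lit 0xaec54229d, nat_lit 0xe646fe37b, nat_lit 0xfb47963c7, nat_lit 0x10a4816407, nat_lit 0x10b481e40b, nat_lit 0x14149ce4e3, nat_lit 0x141c9d24e5, nat_lit 0xa144ba277, nat_lit 0xf6c75e3cb, nat_lit 0x10247a23f9, nat_lit 0x10f481642f, nat_lit 0x13349324bd, nat_lit 0x136c94a4cb, nat_lit 0x1644abe583, nat_lit 0x1b64d4e6c9]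
theorem hs3 : chkG cl (nat_lit 3) (l3OK td4 td7 td19 pt) s3 (nat_lit 849) = true := by decide +kernel
def s4 : List Nat := [nat_lit 0x4ba2017, nat_lit 0x7ecb9e011, nat_lit 0x4f5e5f3, nat_lit 0x1acd0d2845, nat_lit 0x1bc50da84b, nat_lit 0x7ec016329, nat_lit 0x83c01a32b, nat_lit 0x401e32d, nat_lit 0xdb473e359, nat_lit 0xfe48663df, nat_lit 0x101487a3eb, nat_lit 0x105c89e3ff, nat_lit 0x12ac9ce493, nat_lit 0x12e49ea4a1, nat_lit 0x12f49f24a5, nat_lit 0x1324a064af, nat_lit 0x1394a364cb, nat_lit 0x1b04df66ab, nat_lit 0x1b1ce026b1, nat_lit 0x1b6ce1e6c1, nat_lit 0x1d2ceee733, nat_lit 0x1d5cf0a745, nat_lit 0x6042ea1ad, nat_lit 0x6843321cb, nat_lit 0xfb47ba429, nat_lit 0x101c7ee441, nat_lit 0x132c976507, nat_lit 0x13dc9d2529, nat_lit 0x159cab259d, nat_lit 0x1accd4a6ed, nat_lit 0x1b64d9270f, nat_lit 0x1b74d9a713, nat_lit 0x43fe1f9, nat_lit 0xab451e287, nat_lit 0xe2c6da365, nat_lit 0x101c7c23d9, nat_lit 0x10747f23f1, nat_lit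 0x10c481e407, nat_lit 0x117c88a43d, nat_lit 0x132c94e49f, nat_lit 0x1494a16503, nat_lit 0x1b1cd4e69f, nat_lit 0x1b74d766b3, nat_lit 0x1bacd8e6bf, nat_lit 0xa2c54225d, nat_lit 0xfc48163b9, nat_lit 0x10248423cb, nat_lit 0x10c48923f7, nat_lit 0x10cc8963f9, nat_lit 0x129497a473, nat_lit 0x12d499e47f, nat_lit 0x13349ce493, nat_lit 0x1644b4a559, nat_lit 0x1b74dea6a5, nat_lit 0x1dacefe73b, nat_lit 0xafc5ce2df, nat_lit 0xf2c7f23f1, nat_lit 0x124c97a4b5, nat_lit 0x68c2ea1ad, nat_lit 0xba45662f1, nat_lit 0x1644aae59b, nat_lit 0x1b74d466eb, nat_lit 0x1bb4d666fb, nat_lit 0x1c14d9270f, nat_lit 0x1c24d9a713, nat_lit 0x1d5ce56763, nat_lit 0x1dace72775]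
theorem hs4 : chkG cl (nat_lit 3) (l3OK td16 td7 td7 pt) s4 (nat_lit 965) = true := by decide +kernel
def s5 : List Nat := [nat_lit 0x1bd08a31d, nat_lit 0x1294a0a4c7, nat_lit 0x1394a5e505, nat_lit 0x1a3cdd66af, nat_lit 0x1b74e4e6fd, nat_lit 0x60c3961a5, nat_lit 0xa6c5e22c3, nat_lit 0xf1c85e3f7, nat_lit 0x10148be431, nat_lit 0xc3f21fd, nat_lit 0xb4450a28b, nat_lit 0x10bc7b23df, nat_lit 0x13dc9424a7, nat_lit 0x1c04d5e6b5, nat_lit 0x1c7cdaa6db, nat_lit 0x14436001, nat_lit 0x9d45822bb, nat_lit 0xcfc70637d, nat_lit 0xf6485e429, nat_lit 0x1abce026fb, nat_lit 0x43ce005, nat_lit 0xbbc5662ad, nat_lit 0x101c77e3b9, nat_lit 0x106479a3c7, nat_lit 0x1b74d2e691, nat_lit 0xb4c4ee2a9, nat_lit 0x11047b6415, nat_lit 0x13d491e4c7, nat_lit 0x146496a4ef, nat_lit 0x1df4e5e757, nat_lit 0x84c41e003, nat_lit 0x10147f2431, nat_lit 0x106481e445, nat_lit 0x1b0cd766f1, nat_lit 0xa0451625f, nat_lit 0x1b24e1a713, nat_lit 0xe2c67e36f, nat_lit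 0x11047c2421, nat_lit 0x137c9024bb, nat_lit 0x140c9464e3, nat_lit 0x141494a4e5, nat_lit 0x1bacd1e6c9, nat_lit 0xf647ee3bb, nat_lit 0xfc481e3cd, nat_lit 0x12d49a6495, nat_lit 0x1b54de26b5]
theorem hs5 : chkG cl (nat_lit 3) (l3OK td9 td12 td21 pt) s5 (nat_lit 1032) = true := by decide +kernel
def s6 : List Nat := [nat_lit 0x1acd08a023, nat_lit 0x10bc80a467, nat_lit 0x1bb4d82727, nat_lit 0xfd4776423, nat_lit 0x446a005, nat_lit 0xa3c56a257, nat_lit 0x132c9ee47f, nat_lit 0x1964ce6619, nat_lit 0x1b04dda67d, nat_lit 0xaac5c2283, nat_lit 0x143a6001, nat_lit 0x344182105, nat_lit 0x1394a364c1, nat_lit 0x143ae1d5, nat_lit 0xf7c78a3c1, nat_lit 0x102c7e23e7, nat_lit 0x107c80e3fd, nat_lit 0x133c96a4ad, nat_lit 0x15acaa654b, nat_lit 0x12d494e489, nat_lit 0x13d49ce4c7, nat_lit 0x1b0cd6e699, nat_lit 0x132c9de47f, nat_lit 0x107c85a44b, nat_lit 0xdf469e399, nat_lit 0x137c9464ff, nat_lit 0xa3c54a2ab, nat_lit 0xdec722397, nat_lit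 0x10b488a44d, nat_lit 0x12d499e4d9, nat_lit 0x132c9ca4ed]
theorem hs6 : chkG cl (nat_lit 3) (l3OK td31 td12 td7 pt) s6 (nat_lit 1078) = true := by decide +kernel
def s7 : List Nat := [nat_lit 0xf34882405, nat_lit 0xfe47b2419, nat_lit 0x12ac91a4cb, nat_lit 0x143c94a4ab, nat_lit 0xfb48aa44f, nat_lit 0x146c9824bb, nat_lit 0x1b2cdaa69f, nat_lit 0x13bc9ce51b, nat_lit 0x10e478a407]
theorem hs7 : chkG cl (nat_lit 3) (l3OK td9 td19 td31 pt) s7 (nat_lit 1109) = true := by decide +kernel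
def s8 : List Nat := [nat_lit 0x184f5e7bb, nat_lit 0x1fbc01a31f, nat_lit 0x1fcc01e5d1, nat_lit 0xb0450a2df, nat_lit 0x107c7b243f, nat_lit 0x10847b6441, nat_lit 0x1b2cd166ed, nat_lit 0x1c1cd8671f, nat_lit 0x1c4cdaa725, nat_lit 0xcd4716345, nat_lit 0xcfc73e357, nat_lit 0xf7c8aa403, nat_lit 0x12049ea49f, nat_lit 0x120c9ee4a1, nat_lit 0x1294a324c7, nat_lit 0x1a14de269f, nat_lit 0x14422001, nat_lit 0x15e4b6a5b9, nat_lit 0x10647ca3c7, nat_lit 0x10bc7fa3df, nat_lit 0x10fc81e3f1, nat_lit 0x13bc97649f, nat_lit 0x1becd926af, nat_lit 0x1c2cdbe6c1, nat_lit 0x10a47ee455, nat_lit 0x1624ab25af, nat_lit 0x1b54d4a701, nat_lit 0x1bacd76713, nat_lit 0x9043f2003, nat_lit 0xbbc5162d7, nat_lit 0x13d49024d3, nat_lit 0x14549424f7, nat_lit 0xf1487a3f5, nat_lit 0xf1c87e3f7, nat_lit 0x131ca164a5, nat_lit 0x1364a324b5, nat_lit 0x139c942497, nat_lit 0x13dc9624a7, nat_lit 0x13ec96a4ab, nat_lit 0x1684ac6559, nat_lit 0x1b74d36691, nat_lit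 0x1c0cd7e6b7, nat_lit 0x8dc492001, nat_lit 0x7843f220f, nat_lit 0xf3c80a421, nat_lit 0xfdc852445, nat_lit 0x125c9924e7, nat_lit 0x12ec9de50b, nat_lit 0x1a44d7e6dd, nat_lit 0x1a54d866e1]
theorem hs8 : chkG cl (nat_lit 3) (l3OK td21 td12 td27 pt) s8 (nat_lit 1118) = true := by decide +kernel
def s9 : List Nat := [nat_lit 0x1b04e0e70b, nat_lit 0x13dc8e64d5, nat_lit 0x12949d647b, nat_lit 0x12ac9ba4fb]
theorem hs9 : chkG cl (nat_lit 3) (l3OK td31 td12 td37 pt) s9 (nat_lit 1168) = true := by decide +kernel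
def s10 : List Nat := [nat_lit 0x129490e4f7, nat_lit 0x1a7cd0a6ed, nat_lit 0x140c9c64c3, nat_lit 0x1bb4d966af, nat_lit 0x9ac562259, nat_lit 0xfc487e3d5, nat_lit 0x12d4a0a49b, nat_lit 0x1d44f1a737, nat_lit 0x400a22b, nat_lit 0x1c04d6a717, nat_lit 0x102c8ae3fd, nat_lit 0x133ca364c1, nat_lit 0x15acb6255f, nat_lit 0xab45ae2dd, nat_lit 0x102486a43d, nat_lit 0xf7c806421, nat_lit 0x1accda66f1, nat_lit 0x400a21f, nat_lit 0xafc4f22cb, nat_lit 0xb5c5222e1, nat_lit 0xdfc682389, nat_lit 0x13cc9464ff, nat_lit 0x146c99e521]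
theorem hs10 : chkG cl (nat_lit 3) (l3OK td31 td13 td12 pt) s10 (nat_lit 1172) = true := by decide +kernel
def s11 : List Nat := [nat_lit 0x9dc50a2ed, nat_lit 0x132491a487, nat_lit 0x140ca4a4d3, nat_lit 0x101487a45b, nat_lit 0xe346ee333, nat_lit 0x124c95651b, nat_lit 0x132494a50f, nat_lit 0x13d49ce473, nat_lit 0x1bb4dbe67b, nat_lit 0x83c46e239, nat_lit 0x102c88a44d]
theorem hs11 : chkG cl (nat_lit 3) (l3OK td31 td37 td7 pt) s11 (nat_lit 1195) = true := by decide +kernel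
def s12 : List Nat := [nat_lit 0x12c4a464cf, nat_lit 0x1a6ce1a6b7, nat_lit 0x117c81e405, nat_lit 0x1c7cd9a6c3, nat_lit 0x7e43ee003, nat_lit 0x12849324f7, nat_lit 0xeb4822407]
theorem hs12 : chkG cl (nat_lit 3) (l3OK td25 td21 td31 pt) s12 (nat_lit 1206) = true := by decide +kernel
def s13 : List Nat := [nat_lit 0xfc4822419, nat_lit 0x1294a3a4b5, nat_lit 0x1acce426c1]
theorem hs13 : chkG cl (nat_lit 3) (l3OK td31 td3 td31 pt) s13 (nat_lit 1213) = true := by decide +kernel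
def s14 : List Nat := [nat_lit 0x101c0be05d, nat_lit 0xfe47be459, nat_lit 0x12e4942519, nat_lit 0x132c962523, nat_lit 0xa745a6281, nat_lit 0x101c8823e5, nat_lit 0x12d49e6497, nat_lit 0x1374a2a4bb, nat_lit 0x1accdda695, nat_lit 0x1b04dfa6a5, nat_lit 0x101c7b23cf, nat_lit 0x10c480e3fd, nat_lit 0x132c93e497, nat_lit 0x1c7cdfa6f5, nat_lit 0x138ca324b1, nat_lit 0x1b1ce0269b, nat_lit 0x1b64e1a6ab, nat_lit 0x8ec002253, nat_lit 0x1abccfa6dd, nat_lit 0x12ec9aa46b, nat_lit 0x13dca1e495, nat_lit 0x140ca324a1, nat_lit 0x1644b4a539, nat_lit 0xfd479e3b5, nat_lit 0x10747f23d9, nat_lit 0x138c97a49f, nat_lit 0x1c3cde26d3, nat_lit 0xf8480e425, nat_lit 0x102c85a44b, nat_lit 0x12949924e9, nat_lit 0x102482e3ab, nat_lit 0xfd4842429, nat_lit 0x128499a4d7, nat_lit 0x12e49ce4ef, nat_lit 0x107c7c243d, nat_lit 0x124c8d24b1]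
theorem hs14 : chkG cl (nat_lit 3) (l3OK td31 td19 td7 pt) s14 (nat_lit 1216) = true := by decide +kernel

end

end APL.P18
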