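import Pool.Agent.Lib.MP_2b7a4a_coL.Dist

namespace APL.P34

open APL.RA renaming leaf → L, node → N
open APL renaming dec → E

noncomputable section

set_option maxRecDepth 100000

def pt0 : RA := N (nat_lit 38) (N (nat_lit 19) (N (nat_lit 10) (N (nat_lit 5) (N (nat_lit 3) (N (nat_lit 2) (N (nat_lit 1) (L (nat_lit 288234774265332736)) (L (nat_lit 288234774265463808))) (L (nat_lit 288234774265136131))) (N (nat_lit 4) (L (nat_lit 285138570996745214)) (L (nat_lit 285420041678488574)))) (N (nat_lit 8) (N (nat_lit 7) (N (nat_lit 6) (L (nat_lit 285701512360231934)) (L (nat_lit 285982983041975294))) (L (nat_lit 285982991631647744))) (N (nat_lit 9) (L (nat_lit 285982995926877182)) (L (nat_lit 286264453723587585))))) (N (nat_lit 15) (N (nat_lit 13) (N (nat_lit 12) (N (nat_lit 11) (L (nat_lit 286264453723718654)) (L (nat_lit 286264458018554879))) (L (nat_lit 286264462313653246))) (N (nat_lit 14) (L (nat_lit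 286264466608358400)) (L (nat_lit 286264466608620542)))) (N (nat_lit 17) (N (nat_lit 16) (L (nat_lit 286264470903391230)) (L (nat_lit 286264475198555134))) (N (nat_lit 18) (L (nat_lit 286545924405199872)) (L (nat_lit 286545924405462014)))))) (N (nat_lit 29) (N (nat_lit 24) (N (nat_lit 22) (N (nat_lit 21) (N (nat_lit 20) (L (nat_lit 286545928700429310)) (L (nat_lit 286545932995200000))) (L (nat_lit 286545932995265537))) (N (nat_lit 23) (L (nat_lit 286545932995396606)) (L (nat_lit 286545937289905153)))) (N (nat_lit 27) (N (nat_lit 26) (N (nat_lit 25) (L (nat_lit 286545937290101758)) (L (nat_lit 286545937290363902))) (L (nat_lit 286545941584937986))) (N (nat_lit 28) (L (nat_lit 286545941585003518)) (L (nat_lit 286545941585069056))))) (N (nat_lit 34) (N (nat_lit 32) (N (nat_lit 31) (N (nat_lit 30) (L (nat_lit 286545941585331198)) (L (nat_lit 286545945880101886))) (L (nat_lit 286545945880298494))) (N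 (nat_lit 33) (L (nat_lit 286545950174938112)) (L (nat_lit 286545954470036478)))) (N (nat_lit 36) (N (nat_lit 35) (L (nat_lit 286545958765069305)) (L (nat_lit 286827395086812163))) (N (nat_lit 37) (L (nat_lit 286827399381910528)) (L (nat_lit 286827399381976068))))))) (N (nat_lit 57) (N (nat_lit 48) (N (nat_lit 43) (N (nat_lit 41) (N (nat_lit 40) (N (nat_lit 39) (L (nat_lit 286827399382172670)) (L (nat_lit 286827403676877824))) (L (nat_lit 286827403677139966))) (N (nat_lit 42) (L (nat_lit 286827407971582978)) (L (nat_lit 286827407971648513)))) (N (nat_lit 46) (N (nat_lit 45) (N (nat_lit 44) (L (nat_lit 286827407971648514)) (L (nat_lit 286827407971648515))) (L (nat_lit 286827407971714047))) (N (nat_lit 47) (L (nat_lit 286827407971714048)) (L (nat_lit 286827407971714049))))) (N (nat_lit 53) (N (nat_lit 51) (N (nat_lit 50) (N (nat_lit 49) (L (nat_lit 286827407971779582)) (L (nat_lit 286827407971779584)))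 (L (nat_lit 286827407971779587))) (N (nat_lit 52) (L (nat_lit 286827407971845118)) (L (nat_lit 286827407971845121)))) (N (nat_lit 55) (N (nat_lit 54) (L (nat_lit 286827407971910654)) (L (nat_lit 286827407971910657))) (N (nat_lit 56) (L (nat_lit 286827407971976188)) (L (nat_lit 286827407971976189)))))) (N (nat_lit 66) (N (nat_lit 62) (N (nat_lit 60) (N (nat_lit 59) (N (nat_lit 58) (L (nat_lit 286827407971976193)) (L (nat_lit 286827407972041725))) (L (nat_lit 286827407972041726))) (N (nat_lit 61) (L (nat_lit 286827407972107262)) (L (nat_lit 286827407972172797)))) (N (nat_lit 64) (N (nat_lit 63) (L (nat_lit 286827407972172800)) (L (nat_lit 286827412266550274))) (N (nat_lit 65) (L (nat_lit 286827412266615808)) (L (nat_lit 286827412266615809))))) (N (nat_lit 71) (N (nat_lit 69) (N (nat_lit 68) (N (nat_lit 67) (L (nat_lit 286827412266615810)) (L (nat_lit 286827412266615811))) (L (nat_lit 286827412266681343)))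 (N (nat_lit 70) (L (nat_lit 286827412266681344)) (L (nat_lit 286827412266681345)))) (N (nat_lit 73) (N (nat_lit 72) (L (nat_lit 286827412266681346)) (L (nat_lit 286827412266681347))) (N (nat_lit 74) (L (nat_lit 286827412266746878)) (L (nat_lit 286827412266746880)))))))
def pt1 : RA := N (nat_lit 112) (N (nat_lit 94) (N (nat_lit 85) (N (nat_lit 80) (N (nat_lit 78) (N (nat_lit 77) (N (nat_lit 76) (L (nat_lit 286827412266812414)) (L (nat_lit 286827412266812415))) (L (nat_lit 286827412266812416))) (N (nat_lit 79) (L (nat_lit 286827412266812418)) (L (nat_lit 286827412266877950)))) (N (nat_lit 83) (N (nat_lit 82) (N (nat_lit 81) (L (nat_lit 286827412266877951)) (L (nat_lit 286827412266877954))) (L (nat_lit 286827412266943485))) (N (nat_lit 84) (L (nat_lit 286827412267009022)) (L (nat_lit 286827412267074558))))) (N (nat_lit 90) (N (nat_lit 88) (N (nat_lit 87) (N (nat_lit 86) (L (nat_lit 286827416561648641))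 (L (nat_lit 286827416561648642))) (L (nat_lit 286827416561714176))) (N (nat_lit 89) (L (nat_lit 286827416561779709)) (L (nat_lit 286827416561779712)))) (N (nat_lit 92) (N (nat_lit 91) (L (nat_lit 286827416561910780)) (L (nat_lit 286827416562041854))) (N (nat_lit 93) (L (nat_lit 286827420856681472)) (L (nat_lit 286827420856812542)))))) (N (nat_lit 103) (N (nat_lit 99) (N (nat_lit 97) (N (nat_lit 96) (N (nat_lit 95) (L (nat_lit 286827420856878079)) (L (nat_lit 286827420856943614))) (L (nat_lit 286827425151583232))) (N (nat_lit 98) (L (nat_lit 286827425151779835)) (L (nat_lit 286827425151779838)))) (N (nat_lit 101) (N (nat_lit 100) (L (nat_lit 286827425151910907)) (L (nat_lit 286827429446812665))) (N (nat_lit 102) (L (nat_lit 287108861473784833)) (L (nat_lit 287108861473784837))))) (N (nat_lit 108) (N (nat_lit 106) (N (nat_lit 105) (N (nat_lit 104) (L (nat_lit 287108870063522819)) (L (nat_lit 287108870063522820)))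 (L (nat_lit 287108870063653891))) (N (nat_lit 107) (L (nat_lit 287108870063719426)) (L (nat_lit 287108874358359042)))) (N (nat_lit 110) (N (nat_lit 109) (L (nat_lit 287108874358359043)) (L (nat_lit 287108874358424577))) (N (nat_lit 111) (L (nat_lit 287108874358424579)) (L (nat_lit 287108874358490111))))))) (N (nat_lit 131) (N (nat_lit 122) (N (nat_lit 117) (N (nat_lit 115) (N (nat_lit 114) (N (nat_lit 113) (L (nat_lit 287108874358490114)) (L (nat_lit 287108874358490115))) (L (nat_lit 287108874358490117))) (N (nat_lit 116) (L (nat_lit 287108874358555648)) (L (nat_lit 287108874358555649)))) (N (nat_lit 120) (N (nat_lit 119) (N (nat_lit 118) (L (nat_lit 287108874358555651)) (L (nat_lit 287108874358621182))) (L (nat_lit 287108874358621184))) (N (nat_lit 121) (L (nat_lit 287108874358621187)) (L (nat_lit 287108874358686718))))) (N (nat_lit 127) (N (nat_lit 125) (N (nat_lit 124) (N (nat_lit 123) (L (nat_lit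 287108874358686719)) (L (nat_lit 287108874358686722))) (L (nat_lit 287108874358686724))) (N (nat_lit 126) (L (nat_lit 287108874358752253)) (L (nat_lit 287108874358752256)))) (N (nat_lit 129) (N (nat_lit 128) (L (nat_lit 287108874358817790)) (L (nat_lit 287108874358883326))) (N (nat_lit 130) (L (nat_lit 287108878653326338)) (L (nat_lit 287108878653391873)))))) (N (nat_lit 140) (N (nat_lit 136) (N (nat_lit 134) (N (nat_lit 133) (N (nat_lit 132) (L (nat_lit 287108878653391876)) (L (nat_lit 287108878653457409))) (L (nat_lit 287108878653457410))) (N (nat_lit 135) (L (nat_lit 287108878653457411)) (L (nat_lit 287108878653522942)))) (N (nat_lit 138) (N (nat_lit 137) (L (nat_lit 287108878653522943)) (L (nat_lit 287108878653522947))) (N (nat_lit 139) (L (nat_lit 287108878653588479)) (L (nat_lit 287108878653588480))))) (N (nat_lit 145) (N (nat_lit 143) (N (nat_lit 142) (N (nat_lit 141) (L (nat_lit 287108878653588482))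 (L (nat_lit 287108878653654017))) (L (nat_lit 287108878653719550))) (N (nat_lit 144) (L (nat_lit 287108878653850622)) (L (nat_lit 287108882948293632)))) (N (nat_lit 147) (N (nat_lit 146) (L (nat_lit 287108882948293633)) (L (nat_lit 287108882948293634))) (N (nat_lit 148) (L (nat_lit 287108882948293635)) (L (nat_lit 287108882948359167)))))))
def pt2 : RA := N (nat_lit 187) (N (nat_lit 168) (N (nat_lit 159) (N (nat_lit 154) (N (nat_lit 152) (N (nat_lit 151) (N (nat_lit 150) (L (nat_lit 287108882948359168)) (L (nat_lit 287108882948359169))) (L (nat_lit 287108882948359170))) (N (nat_lit 153) (L (nat_lit 287108882948359171)) (L (nat_lit 287108882948359172)))) (N (nat_lit 157) (N (nat_lit 156) (N (nat_lit 155) (L (nat_lit 287108882948424703)) (L (nat_lit 287108882948424704))) (L (nat_lit 287108882948424705))) (N (nat_lit 158) (L (nat_lit 287108882948424706)) (L (nat_lit 287108882948424707))))) (N (nat_lit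 164) (N (nat_lit 162) (N (nat_lit 161) (N (nat_lit 160) (L (nat_lit 287108882948490237)) (L (nat_lit 287108882948490238))) (L (nat_lit 287108882948490240))) (N (nat_lit 163) (L (nat_lit 287108882948490242)) (L (nat_lit 287108882948490243)))) (N (nat_lit 166) (N (nat_lit 165) (L (nat_lit 287108882948490244)) (L (nat_lit 287108882948555774))) (N (nat_lit 167) (L (nat_lit 287108882948555776)) (L (nat_lit 287108882948555777)))))) (N (nat_lit 178) (N (nat_lit 173) (N (nat_lit 171) (N (nat_lit 170) (N (nat_lit 169) (L (nat_lit 287108882948555778)) (L (nat_lit 287108882948621310))) (L (nat_lit 287108882948621311))) (N (nat_lit 172) (L (nat_lit 287108882948621313)) (L (nat_lit 287108882948621314)))) (N (nat_lit 176) (N (nat_lit 175) (N (nat_lit 174) (L (nat_lit 287108882948686845)) (L (nat_lit 287108882948686849))) (L (nat_lit 287108882948752381))) (N (nat_lit 177) (L (nat_lit 287108882948752382)) (L (nat_lit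 287108887243260930))))) (N (nat_lit 183) (N (nat_lit 181) (N (nat_lit 180) (N (nat_lit 179) (L (nat_lit 287108887243326464)) (L (nat_lit 287108887243326465))) (L (nat_lit 287108887243326466))) (N (nat_lit 182) (L (nat_lit 287108887243391999)) (L (nat_lit 287108887243392000)))) (N (nat_lit 185) (N (nat_lit 184) (L (nat_lit 287108887243392001)) (L (nat_lit 287108887243457536))) (N (nat_lit 186) (L (nat_lit 287108887243457538)) (L (nat_lit 287108887243457539))))))) (N (nat_lit 206) (N (nat_lit 197) (N (nat_lit 192) (N (nat_lit 190) (N (nat_lit 189) (N (nat_lit 188) (L (nat_lit 287108887243523069)) (L (nat_lit 287108887243523070))) (L (nat_lit 287108887243523071))) (N (nat_lit 191) (L (nat_lit 287108887243523072)) (L (nat_lit 287108887243523074)))) (N (nat_lit 195) (N (nat_lit 194) (N (nat_lit 193) (L (nat_lit 287108887243588609)) (L (nat_lit 287108887243654140))) (L (nat_lit 287108887243654142))) (N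 (nat_lit 196) (L (nat_lit 287108887243654143)) (L (nat_lit 287108887243654144))))) (N (nat_lit 202) (N (nat_lit 200) (N (nat_lit 199) (N (nat_lit 198) (L (nat_lit 287108887243785214)) (L (nat_lit 287108891538228226))) (L (nat_lit 287108891538228227))) (N (nat_lit 201) (L (nat_lit 287108891538293759)) (L (nat_lit 287108891538293760)))) (N (nat_lit 204) (N (nat_lit 203) (L (nat_lit 287108891538293761)) (L (nat_lit 287108891538359294))) (N (nat_lit 205) (L (nat_lit 287108891538359295)) (L (nat_lit 287108891538359297)))))) (N (nat_lit 215) (N (nat_lit 211) (N (nat_lit 209) (N (nat_lit 208) (N (nat_lit 207) (L (nat_lit 287108891538359298)) (L (nat_lit 287108891538359299))) (L (nat_lit 287108891538424829))) (N (nat_lit 210) (L (nat_lit 287108891538424830)) (L (nat_lit 287108891538424831)))) (N (nat_lit 213) (N (nat_lit 212) (L (nat_lit 287108891538424832)) (L (nat_lit 287108891538490365))) (N (nat_lit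 214) (L (nat_lit 287108891538490366)) (L (nat_lit 287108891538490368))))) (N (nat_lit 220) (N (nat_lit 218) (N (nat_lit 217) (N (nat_lit 216) (L (nat_lit 287108891538490369)) (L (nat_lit 287108891538555900))) (L (nat_lit 287108891538555902))) (N (nat_lit 219) (L (nat_lit 287108891538555903)) (L (nat_lit 287108891538621437)))) (N (nat_lit 222) (N (nat_lit 221) (L (nat_lit 287108891538621438)) (L (nat_lit 287108891538686971))) (N (nat_lit 223) (L (nat_lit 287108891538686974)) (L (nat_lit 287108895833261057)))))))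
def pt3 : RA := N (nat_lit 261) (N (nat_lit 243) (N (nat_lit 234) (N (nat_lit 229) (N (nat_lit 227) (N (nat_lit 226) (N (nat_lit 225) (L (nat_lit 287108895833261058)) (L (nat_lit 287108895833326592))) (L (nat_lit 287108895833326594))) (N (nat_lit 228) (L (nat_lit 287108895833392126)) (L (nat_lit 287108895833457665)))) (N (nat_lit 232) (N (nat_lit 231) (N (nat_lit 230) (L (nat_lit 287108895833523195)) (L (nat_lit 287108895833523197))) (L (nat_lit 287108895833523198))) (N (nat_lit 233) (L (nat_lit 287108895833654267)) (L (nat_lit 287108900128293887))))) (N (nat_lit 239) (N (nat_lit 237) (N (nat_lit 236) (N (nat_lit 235) (L (nat_lit 287390336450298882)) (L (nat_lit 287390336450429956))) (L (nat_lit 287390340745135106))) (N (nat_lit 238) (L (nat_lit 287390340745200640)) (L (nat_lit 287390340745200641)))) (N (nat_lit 241) (N (nat_lit 240) (L (nat_lit 287390340745266176)) (L (nat_lit 287390340745266177)))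 (N (nat_lit 242) (L (nat_lit 287390340745331713)) (L (nat_lit 287390340745331715)))))) (N (nat_lit 252) (N (nat_lit 248) (N (nat_lit 246) (N (nat_lit 245) (N (nat_lit 244) (L (nat_lit 287390340745397248)) (L (nat_lit 287390340745397249))) (L (nat_lit 287390340745397251))) (N (nat_lit 247) (L (nat_lit 287390340745397252)) (L (nat_lit 287390340745462785)))) (N (nat_lit 250) (N (nat_lit 249) (L (nat_lit 287390340745528321)) (L (nat_lit 287390345040036866))) (N (nat_lit 251) (L (nat_lit 287390345040036868)) (L (nat_lit 287390345040102400))))) (N (nat_lit 257) (N (nat_lit 255) (N (nat_lit 254) (N (nat_lit 253) (L (nat_lit 287390345040102402)) (L (nat_lit 287390345040102403))) (L (nat_lit 287390345040167936))) (N (nat_lit 256) (L (nat_lit 287390345040167937)) (L (nat_lit 287390345040167938)))) (N (nat_lit 259) (N (nat_lit 258) (L (nat_lit 287390345040233471)) (L (nat_lit 287390345040233472))) (N (nat_lit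 260) (L (nat_lit 287390345040233473)) (L (nat_lit 287390345040233475))))))) (N (nat_lit 280) (N (nat_lit 271) (N (nat_lit 266) (N (nat_lit 264) (N (nat_lit 263) (N (nat_lit 262) (L (nat_lit 287390345040233476)) (L (nat_lit 287390345040299006))) (L (nat_lit 287390345040299008))) (N (nat_lit 265) (L (nat_lit 287390345040299010)) (L (nat_lit 287390345040299011)))) (N (nat_lit 269) (N (nat_lit 268) (N (nat_lit 267) (L (nat_lit 287390345040299012)) (L (nat_lit 287390345040364543))) (L (nat_lit 287390345040364544))) (N (nat_lit 270) (L (nat_lit 287390345040364545)) (L (nat_lit 287390345040364547))))) (N (nat_lit 276) (N (nat_lit 274) (N (nat_lit 273) (N (nat_lit 272) (L (nat_lit 287390345040430078)) (L (nat_lit 287390345040430081))) (L (nat_lit 287390345040430082))) (N (nat_lit 275) (L (nat_lit 287390345040495614)) (L (nat_lit 287390345040561150)))) (N (nat_lit 278) (N (nat_lit 277) (L (nat_lit 287390349335004162))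 (L (nat_lit 287390349335004164))) (N (nat_lit 279) (L (nat_lit 287390349335069696)) (L (nat_lit 287390349335069697)))))) (N (nat_lit 289) (N (nat_lit 285) (N (nat_lit 283) (N (nat_lit 282) (N (nat_lit 281) (L (nat_lit 287390349335069698)) (L (nat_lit 287390349335069699))) (L (nat_lit 287390349335135232))) (N (nat_lit 284) (L (nat_lit 287390349335135233)) (L (nat_lit 287390349335135235)))) (N (nat_lit 287) (N (nat_lit 286) (L (nat_lit 287390349335135236)) (L (nat_lit 287390349335200767))) (N (nat_lit 288) (L (nat_lit 287390349335200768)) (L (nat_lit 287390349335200769))))) (N (nat_lit 294) (N (nat_lit 292) (N (nat_lit 291) (N (nat_lit 290) (L (nat_lit 287390349335200770)) (L (nat_lit 287390349335200771))) (L (nat_lit 287390349335200772))) (N (nat_lit 293) (L (nat_lit 287390349335200773)) (L (nat_lit 287390349335266302)))) (N (nat_lit 296) (N (nat_lit 295) (L (nat_lit 287390349335266304)) (L (nat_lit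 287390349335266305))) (N (nat_lit 297) (L (nat_lit 287390349335266307)) (L (nat_lit 287390349335331837)))))))
def pt4 : RA := N (nat_lit 336) (N (nat_lit 317) (N (nat_lit 308) (N (nat_lit 303) (N (nat_lit 301) (N (nat_lit 300) (N (nat_lit 299) (L (nat_lit 287390349335331838)) (L (nat_lit 287390349335331840))) (L (nat_lit 287390349335331841))) (N (nat_lit 302) (L (nat_lit 287390349335331843)) (L (nat_lit 287390349335397374)))) (N (nat_lit 306) (N (nat_lit 305) (N (nat_lit 304) (L (nat_lit 287390349335397375)) (L (nat_lit 287390349335397376))) (L (nat_lit 287390349335397377))) (N (nat_lit 307) (L (nat_lit 287390349335397378)) (L (nat_lit 287390349335397380))))) (N (nat_lit 313) (N (nat_lit 311) (N (nat_lit 310) (N (nat_lit 309) (L (nat_lit 287390349335462909)) (L (nat_lit 287390349335462912))) (L (nat_lit 287390349335528446))) (N (nat_lit 312) (L (nat_lit 287390349335593982)) (L (nat_lit 287390353629971456))))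 (N (nat_lit 315) (N (nat_lit 314) (L (nat_lit 287390353629971457)) (L (nat_lit 287390353629971458))) (N (nat_lit 316) (L (nat_lit 287390353629971459)) (L (nat_lit 287390353629971460)))))) (N (nat_lit 327) (N (nat_lit 322) (N (nat_lit 320) (N (nat_lit 319) (N (nat_lit 318) (L (nat_lit 287390353630036991)) (L (nat_lit 287390353630036992))) (L (nat_lit 287390353630036993))) (N (nat_lit 321) (L (nat_lit 287390353630036994)) (L (nat_lit 287390353630036995)))) (N (nat_lit 325) (N (nat_lit 324) (N (nat_lit 323) (L (nat_lit 287390353630036996)) (L (nat_lit 287390353630036997))) (L (nat_lit 287390353630102526))) (N (nat_lit 326) (L (nat_lit 287390353630102527)) (L (nat_lit 287390353630102528))))) (N (nat_lit 332) (N (nat_lit 330) (N (nat_lit 329) (N (nat_lit 328) (L (nat_lit 287390353630102529)) (L (nat_lit 287390353630102530))) (L (nat_lit 287390353630102531))) (N (nat_lit 331) (L (nat_lit 287390353630102532))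 (L (nat_lit 287390353630168061)))) (N (nat_lit 334) (N (nat_lit 333) (L (nat_lit 287390353630168063)) (L (nat_lit 287390353630168064))) (N (nat_lit 335) (L (nat_lit 287390353630168065)) (L (nat_lit 287390353630168066))))))) (N (nat_lit 355) (N (nat_lit 346) (N (nat_lit 341) (N (nat_lit 339) (N (nat_lit 338) (N (nat_lit 337) (L (nat_lit 287390353630168067)) (L (nat_lit 287390353630168068))) (L (nat_lit 287390353630233597))) (N (nat_lit 340) (L (nat_lit 287390353630233598)) (L (nat_lit 287390353630233599)))) (N (nat_lit 344) (N (nat_lit 343) (N (nat_lit 342) (L (nat_lit 287390353630233600)) (L (nat_lit 287390353630233601))) (L (nat_lit 287390353630233602))) (N (nat_lit 345) (L (nat_lit 287390353630233603)) (L (nat_lit 287390353630233604))))) (N (nat_lit 351) (N (nat_lit 349) (N (nat_lit 348) (N (nat_lit 347) (L (nat_lit 287390353630233605)) (L (nat_lit 287390353630299133))) (L (nat_lit 287390353630299134)))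 (N (nat_lit 350) (L (nat_lit 287390353630299135)) (L (nat_lit 287390353630299136)))) (N (nat_lit 353) (N (nat_lit 352) (L (nat_lit 287390353630299137)) (L (nat_lit 287390353630299138))) (N (nat_lit 354) (L (nat_lit 287390353630299139)) (L (nat_lit 287390353630364668)))))) (N (nat_lit 364) (N (nat_lit 360) (N (nat_lit 358) (N (nat_lit 357) (N (nat_lit 356) (L (nat_lit 287390353630364669)) (L (nat_lit 287390353630364670))) (L (nat_lit 287390353630364671))) (N (nat_lit 359) (L (nat_lit 287390353630364672)) (L (nat_lit 287390353630364673)))) (N (nat_lit 362) (N (nat_lit 361) (L (nat_lit 287390353630364674)) (L (nat_lit 287390353630364675))) (N (nat_lit 363) (L (nat_lit 287390353630364676)) (L (nat_lit 287390353630430203))))) (N (nat_lit 369) (N (nat_lit 367) (N (nat_lit 366) (N (nat_lit 365) (L (nat_lit 287390353630430204)) (L (nat_lit 287390353630430205))) (L (nat_lit 287390353630430206))) (N (nat_lit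 368) (L (nat_lit 287390353630430207)) (L (nat_lit 287390353630430208)))) (N (nat_lit 371) (N (nat_lit 370) (L (nat_lit 287390353630430209)) (L (nat_lit 287390353630495741))) (N (nat_lit 372) (L (nat_lit 287390353630495742)) (L (nat_lit 287390353630495745)))))))
def pt5 : RA := N (nat_lit 410) (N (nat_lit 392) (N (nat_lit 383) (N (nat_lit 378) (N (nat_lit 376) (N (nat_lit 375) (N (nat_lit 374) (L (nat_lit 287390353630561276)) (L (nat_lit 287390353630561277))) (L (nat_lit 287390353630561278))) (N (nat_lit 377) (L (nat_lit 287390357924938752)) (L (nat_lit 287390357924938753)))) (N (nat_lit 381) (N (nat_lit 380) (N (nat_lit 379) (L (nat_lit 287390357925004287)) (L (nat_lit 287390357925004288))) (L (nat_lit 287390357925004289))) (N (nat_lit 382) (L (nat_lit 287390357925004290)) (L (nat_lit 287390357925004291))))) (N (nat_lit 388) (N (nat_lit 386) (N (nat_lit 385) (N (nat_lit 384) (L (nat_lit 287390357925004292))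 (L (nat_lit 287390357925069822))) (L (nat_lit 287390357925069823))) (N (nat_lit 387) (L (nat_lit 287390357925069824)) (L (nat_lit 287390357925069825)))) (N (nat_lit 390) (N (nat_lit 389) (L (nat_lit 287390357925069826)) (L (nat_lit 287390357925069827))) (N (nat_lit 391) (L (nat_lit 287390357925069828)) (L (nat_lit 287390357925135359)))))) (N (nat_lit 401) (N (nat_lit 397) (N (nat_lit 395) (N (nat_lit 394) (N (nat_lit 393) (L (nat_lit 287390357925135360)) (L (nat_lit 287390357925135361))) (L (nat_lit 287390357925135362))) (N (nat_lit 396) (L (nat_lit 287390357925135363)) (L (nat_lit 287390357925200893)))) (N (nat_lit 399) (N (nat_lit 398) (L (nat_lit 287390357925200894)) (L (nat_lit 287390357925200895))) (N (nat_lit 400) (L (nat_lit 287390357925200896)) (L (nat_lit 287390357925200897))))) (N (nat_lit 406) (N (nat_lit 404) (N (nat_lit 403) (N (nat_lit 402) (L (nat_lit 287390357925200898)) (L (nat_lit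 287390357925200899))) (L (nat_lit 287390357925200900))) (N (nat_lit 405) (L (nat_lit 287390357925266429)) (L (nat_lit 287390357925266430)))) (N (nat_lit 408) (N (nat_lit 407) (L (nat_lit 287390357925266431)) (L (nat_lit 287390357925266432))) (N (nat_lit 409) (L (nat_lit 287390357925266433)) (L (nat_lit 287390357925266434))))))) (N (nat_lit 429) (N (nat_lit 420) (N (nat_lit 415) (N (nat_lit 413) (N (nat_lit 412) (N (nat_lit 411) (L (nat_lit 287390357925266435)) (L (nat_lit 287390357925331964))) (L (nat_lit 287390357925331965))) (N (nat_lit 414) (L (nat_lit 287390357925331966)) (L (nat_lit 287390357925331967)))) (N (nat_lit 418) (N (nat_lit 417) (N (nat_lit 416) (L (nat_lit 287390357925331968)) (L (nat_lit 287390357925331969))) (L (nat_lit 287390357925397499))) (N (nat_lit 419) (L (nat_lit 287390357925397500)) (L (nat_lit 287390357925397501))))) (N (nat_lit 425) (N (nat_lit 423) (N (nat_lit 422) (N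 (nat_lit 421) (L (nat_lit 287390357925397502)) (L (nat_lit 287390357925397503))) (L (nat_lit 287390357925397504))) (N (nat_lit 424) (L (nat_lit 287390357925397505)) (L (nat_lit 287390357925463034)))) (N (nat_lit 427) (N (nat_lit 426) (L (nat_lit 287390357925463035)) (L (nat_lit 287390357925463036))) (N (nat_lit 428) (L (nat_lit 287390357925463037)) (L (nat_lit 287390357925463038)))))) (N (nat_lit 438) (N (nat_lit 434) (N (nat_lit 432) (N (nat_lit 431) (N (nat_lit 430) (L (nat_lit 287390357925528571)) (L (nat_lit 287390357925528573))) (L (nat_lit 287390357925528574))) (N (nat_lit 433) (L (nat_lit 287390357925594109)) (L (nat_lit 287390362219906049)))) (N (nat_lit 436) (N (nat_lit 435) (L (nat_lit 287390362219906050)) (L (nat_lit 287390362219906052))) (N (nat_lit 437) (L (nat_lit 287390362219971584)) (L (nat_lit 287390362219971586))))) (N (nat_lit 443) (N (nat_lit 441) (N (nat_lit 440) (N (nat_lit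 439) (L (nat_lit 287390362219971587)) (L (nat_lit 287390362219971588))) (L (nat_lit 287390362220037118))) (N (nat_lit 442) (L (nat_lit 287390362220037119)) (L (nat_lit 287390362220037120)))) (N (nat_lit 445) (N (nat_lit 444) (L (nat_lit 287390362220037121)) (L (nat_lit 287390362220037122))) (N (nat_lit 446) (L (nat_lit 287390362220037123)) (L (nat_lit 287390362220037124)))))))
def pt6 : RA := N (nat_lit 484) (N (nat_lit 466) (N (nat_lit 457) (N (nat_lit 452) (N (nat_lit 450) (N (nat_lit 449) (N (nat_lit 448) (L (nat_lit 287390362220102653)) (L (nat_lit 287390362220102654))) (L (nat_lit 287390362220102655))) (N (nat_lit 451) (L (nat_lit 287390362220102656)) (L (nat_lit 287390362220102657)))) (N (nat_lit 455) (N (nat_lit 454) (N (nat_lit 453) (L (nat_lit 287390362220102658)) (L (nat_lit 287390362220102659))) (L (nat_lit 287390362220102660))) (N (nat_lit 456) (L (nat_lit 287390362220168189)) (L (nat_lit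 287390362220168190))))) (N (nat_lit 462) (N (nat_lit 460) (N (nat_lit 459) (N (nat_lit 458) (L (nat_lit 287390362220168191)) (L (nat_lit 287390362220168192))) (L (nat_lit 287390362220168193))) (N (nat_lit 461) (L (nat_lit 287390362220168194)) (L (nat_lit 287390362220168195)))) (N (nat_lit 464) (N (nat_lit 463) (L (nat_lit 287390362220233725)) (L (nat_lit 287390362220233726))) (N (nat_lit 465) (L (nat_lit 287390362220233727)) (L (nat_lit 287390362220233728)))))) (N (nat_lit 475) (N (nat_lit 471) (N (nat_lit 469) (N (nat_lit 468) (N (nat_lit 467) (L (nat_lit 287390362220233729)) (L (nat_lit 287390362220233730))) (L (nat_lit 287390362220233731))) (N (nat_lit 470) (L (nat_lit 287390362220299260)) (L (nat_lit 287390362220299261)))) (N (nat_lit 473) (N (nat_lit 472) (L (nat_lit 287390362220299262)) (L (nat_lit 287390362220299263))) (N (nat_lit 474) (L (nat_lit 287390362220299264)) (L (nat_lit 287390362220299265)))))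 (N (nat_lit 480) (N (nat_lit 478) (N (nat_lit 477) (N (nat_lit 476) (L (nat_lit 287390362220299266)) (L (nat_lit 287390362220364797))) (L (nat_lit 287390362220364798))) (N (nat_lit 479) (L (nat_lit 287390362220430333)) (L (nat_lit 287390362220430334)))) (N (nat_lit 482) (N (nat_lit 481) (L (nat_lit 287390362220495870)) (L (nat_lit 287390366514938881))) (N (nat_lit 483) (L (nat_lit 287390366514938882)) (L (nat_lit 287390366515004416))))))) (N (nat_lit 503) (N (nat_lit 494) (N (nat_lit 489) (N (nat_lit 487) (N (nat_lit 486) (N (nat_lit 485) (L (nat_lit 287390366515004417)) (L (nat_lit 287390366515004418))) (L (nat_lit 287390366515004419))) (N (nat_lit 488) (L (nat_lit 287390366515069951)) (L (nat_lit 287390366515069952)))) (N (nat_lit 492) (N (nat_lit 491) (N (nat_lit 490) (L (nat_lit 287390366515069953)) (L (nat_lit 287390366515069954))) (L (nat_lit 287390366515135486))) (N (nat_lit 493) (L (nat_lit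 287390366515135487)) (L (nat_lit 287390366515135488))))) (N (nat_lit 499) (N (nat_lit 497) (N (nat_lit 496) (N (nat_lit 495) (L (nat_lit 287390366515135489)) (L (nat_lit 287390366515201018))) (L (nat_lit 287390366515201021))) (N (nat_lit 498) (L (nat_lit 287390366515201024)) (L (nat_lit 287390366515201025)))) (N (nat_lit 501) (N (nat_lit 500) (L (nat_lit 287390366515266557)) (L (nat_lit 287390366515266558))) (N (nat_lit 502) (L (nat_lit 287390366515266561)) (L (nat_lit 287390366515397627)))))) (N (nat_lit 512) (N (nat_lit 508) (N (nat_lit 506) (N (nat_lit 505) (N (nat_lit 504) (L (nat_lit 287390366515397630)) (L (nat_lit 287390370809906178))) (L (nat_lit 287390370809971712))) (N (nat_lit 507) (L (nat_lit 287390370809971713)) (L (nat_lit 287390370810037245)))) (N (nat_lit 510) (N (nat_lit 509) (L (nat_lit 287390370810037247)) (L (nat_lit 287390370810102782))) (N (nat_lit 511) (L (nat_lit 287390370810102783))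 (L (nat_lit 287390370810168317))))) (N (nat_lit 517) (N (nat_lit 515) (N (nat_lit 514) (N (nat_lit 513) (L (nat_lit 287390370810168319)) (L (nat_lit 287390370810233854))) (L (nat_lit 287390375104939008))) (N (nat_lit 516) (L (nat_lit 287390375105070079)) (L (nat_lit 287671811426944002)))) (N (nat_lit 519) (N (nat_lit 518) (L (nat_lit 287671811427009538)) (L (nat_lit 287671811427075074))) (N (nat_lit 520) (L (nat_lit 287671815721780227)) (L (nat_lit 287671815721845760)))))))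
def pt7 : RA := N (nat_lit 558) (N (nat_lit 540) (N (nat_lit 531) (N (nat_lit 526) (N (nat_lit 524) (N (nat_lit 523) (N (nat_lit 522) (L (nat_lit 287671815721845763)) (L (nat_lit 287671815721911296))) (L (nat_lit 287671815721911298))) (N (nat_lit 525) (L (nat_lit 287671815721976832)) (L (nat_lit 287671815721976833)))) (N (nat_lit 529) (N (nat_lit 528) (N (nat_lit 527) (L (nat_lit 287671815721976836)) (L (nat_lit 287671815722042368))) (L (nat_lit 287671815722042369))) (N (nat_lit 530) (L (nat_lit 287671815722042370)) (L (nat_lit 287671815722042371))))) (N (nat_lit 536) (N (nat_lit 534) (N (nat_lit 533) (N (nat_lit 532) (L (nat_lit 287671815722107904)) (L (nat_lit 287671820016747520))) (L (nat_lit 287671820016747522))) (N (nat_lit 535) (L (nat_lit 287671820016747523)) (L (nat_lit 287671820016813056)))) (N (nat_lit 538) (N (nat_lit 537) (L (nat_lit 287671820016813057)) (L (nat_lit 287671820016813058)))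 (N (nat_lit 539) (L (nat_lit 287671820016813059)) (L (nat_lit 287671820016878592)))))) (N (nat_lit 549) (N (nat_lit 545) (N (nat_lit 543) (N (nat_lit 542) (N (nat_lit 541) (L (nat_lit 287671820016878593)) (L (nat_lit 287671820016878594))) (L (nat_lit 287671820016944126))) (N (nat_lit 544) (L (nat_lit 287671820016944128)) (L (nat_lit 287671820016944129)))) (N (nat_lit 547) (N (nat_lit 546) (L (nat_lit 287671820016944130)) (L (nat_lit 287671820016944131))) (N (nat_lit 548) (L (nat_lit 287671820016944132)) (L (nat_lit 287671820017009662))))) (N (nat_lit 554) (N (nat_lit 552) (N (nat_lit 551) (N (nat_lit 550) (L (nat_lit 287671820017009663)) (L (nat_lit 287671820017009664))) (L (nat_lit 287671820017009665))) (N (nat_lit 553) (L (nat_lit 287671820017009666)) (L (nat_lit 287671820017009667)))) (N (nat_lit 556) (N (nat_lit 555) (L (nat_lit 287671820017009668)) (L (nat_lit 287671820017075197))) (N (nat_lit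 557) (L (nat_lit 287671820017075200)) (L (nat_lit 287671820017075201))))))) (N (nat_lit 577) (N (nat_lit 568) (N (nat_lit 563) (N (nat_lit 561) (N (nat_lit 560) (N (nat_lit 559) (L (nat_lit 287671820017075203)) (L (nat_lit 287671820017140735))) (L (nat_lit 287671820017140736))) (N (nat_lit 562) (L (nat_lit 287671820017140738)) (L (nat_lit 287671820017206269)))) (N (nat_lit 566) (N (nat_lit 565) (N (nat_lit 564) (L (nat_lit 287671820017206270)) (L (nat_lit 287671824311649281))) (L (nat_lit 287671824311649282))) (N (nat_lit 567) (L (nat_lit 287671824311649283)) (L (nat_lit 287671824311649284))))) (N (nat_lit 573) (N (nat_lit 571) (N (nat_lit 570) (N (nat_lit 569) (L (nat_lit 287671824311649285)) (L (nat_lit 287671824311714816))) (L (nat_lit 287671824311714817))) (N (nat_lit 572) (L (nat_lit 287671824311714818)) (L (nat_lit 287671824311714819)))) (N (nat_lit 575) (N (nat_lit 574) (L (nat_lit 287671824311714820))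 (L (nat_lit 287671824311714821))) (N (nat_lit 576) (L (nat_lit 287671824311714822)) (L (nat_lit 287671824311780351)))))) (N (nat_lit 586) (N (nat_lit 582) (N (nat_lit 580) (N (nat_lit 579) (N (nat_lit 578) (L (nat_lit 287671824311780352)) (L (nat_lit 287671824311780353))) (L (nat_lit 287671824311780354))) (N (nat_lit 581) (L (nat_lit 287671824311780355)) (L (nat_lit 287671824311780356)))) (N (nat_lit 584) (N (nat_lit 583) (L (nat_lit 287671824311780357)) (L (nat_lit 287671824311845886))) (N (nat_lit 585) (L (nat_lit 287671824311845887)) (L (nat_lit 287671824311845888))))) (N (nat_lit 591) (N (nat_lit 589) (N (nat_lit 588) (N (nat_lit 587) (L (nat_lit 287671824311845889)) (L (nat_lit 287671824311845890))) (L (nat_lit 287671824311845891))) (N (nat_lit 590) (L (nat_lit 287671824311845892)) (L (nat_lit 287671824311845893)))) (N (nat_lit 593) (N (nat_lit 592) (L (nat_lit 287671824311845894)) (L (nat_lit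 287671824311911422))) (N (nat_lit 594) (L (nat_lit 287671824311911423)) (L (nat_lit 287671824311911424)))))))
def pt8 : RA := N (nat_lit 633) (N (nat_lit 614) (N (nat_lit 605) (N (nat_lit 600) (N (nat_lit 598) (N (nat_lit 597) (N (nat_lit 596) (L (nat_lit 287671824311911425)) (L (nat_lit 287671824311911426))) (L (nat_lit 287671824311911427))) (N (nat_lit 599) (L (nat_lit 287671824311911428)) (L (nat_lit 287671824311911429)))) (N (nat_lit 603) (N (nat_lit 602) (N (nat_lit 601) (L (nat_lit 287671824311976957)) (L (nat_lit 287671824311976958))) (L (nat_lit 287671824311976959))) (N (nat_lit 604) (L (nat_lit 287671824311976960)) (L (nat_lit 287671824311976961))))) (N (nat_lit 610) (N (nat_lit 608) (N (nat_lit 607) (N (nat_lit 606) (L (nat_lit 287671824311976962)) (L (nat_lit 287671824311976963))) (L (nat_lit 287671824311976964))) (N (nat_lit 609) (L (nat_lit 287671824311976965)) (L (nat_lit 287671824311976966))))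 (N (nat_lit 612) (N (nat_lit 611) (L (nat_lit 287671824312042492)) (L (nat_lit 287671824312042493))) (N (nat_lit 613) (L (nat_lit 287671824312042494)) (L (nat_lit 287671824312042495)))))) (N (nat_lit 624) (N (nat_lit 619) (N (nat_lit 617) (N (nat_lit 616) (N (nat_lit 615) (L (nat_lit 287671824312042496)) (L (nat_lit 287671824312042497))) (L (nat_lit 287671824312042498))) (N (nat_lit 618) (L (nat_lit 287671824312042499)) (L (nat_lit 287671824312042500)))) (N (nat_lit 622) (N (nat_lit 621) (N (nat_lit 620) (L (nat_lit 287671824312042501)) (L (nat_lit 287671824312108028))) (L (nat_lit 287671824312108029))) (N (nat_lit 623) (L (nat_lit 287671824312108030)) (L (nat_lit 287671824312108031))))) (N (nat_lit 629) (N (nat_lit 627) (N (nat_lit 626) (N (nat_lit 625) (L (nat_lit 287671824312108032)) (L (nat_lit 287671824312108033))) (L (nat_lit 287671824312108034))) (N (nat_lit 628) (L (nat_lit 287671824312108035))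 (L (nat_lit 287671824312108036)))) (N (nat_lit 631) (N (nat_lit 630) (L (nat_lit 287671824312173565)) (L (nat_lit 287671824312173566))) (N (nat_lit 632) (L (nat_lit 287671824312173567)) (L (nat_lit 287671824312173568))))))) (N (nat_lit 652) (N (nat_lit 643) (N (nat_lit 638) (N (nat_lit 636) (N (nat_lit 635) (N (nat_lit 634) (L (nat_lit 287671824312173569)) (L (nat_lit 287671824312173570))) (L (nat_lit 287671824312173571))) (N (nat_lit 637) (L (nat_lit 287671824312173572)) (L (nat_lit 287671824312239100)))) (N (nat_lit 641) (N (nat_lit 640) (N (nat_lit 639) (L (nat_lit 287671824312239101)) (L (nat_lit 287671824312239102))) (L (nat_lit 287671824312239103))) (N (nat_lit 642) (L (nat_lit 287671824312239104)) (L (nat_lit 287671824312239105))))) (N (nat_lit 648) (N (nat_lit 646) (N (nat_lit 645) (N (nat_lit 644) (L (nat_lit 287671824312239106)) (L (nat_lit 287671824312304636))) (L (nat_lit 287671824312304637)))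 (N (nat_lit 647) (L (nat_lit 287671824312304638)) (L (nat_lit 287671824312304639)))) (N (nat_lit 650) (N (nat_lit 649) (L (nat_lit 287671824312304640)) (L (nat_lit 287671824312304641))) (N (nat_lit 651) (L (nat_lit 287671824312304642)) (L (nat_lit 287671824312370174)))))) (N (nat_lit 661) (N (nat_lit 657) (N (nat_lit 655) (N (nat_lit 654) (N (nat_lit 653) (L (nat_lit 287671824312370175)) (L (nat_lit 287671824312370176))) (L (nat_lit 287671828606551042))) (N (nat_lit 656) (L (nat_lit 287671828606551043)) (L (nat_lit 287671828606551044)))) (N (nat_lit 659) (N (nat_lit 658) (L (nat_lit 287671828606616576)) (L (nat_lit 287671828606616577))) (N (nat_lit 660) (L (nat_lit 287671828606616578)) (L (nat_lit 287671828606616579))))) (N (nat_lit 666) (N (nat_lit 664) (N (nat_lit 663) (N (nat_lit 662) (L (nat_lit 287671828606616580)) (L (nat_lit 287671828606616581))) (L (nat_lit 287671828606682111))) (N (nat_lit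 665) (L (nat_lit 287671828606682112)) (L (nat_lit 287671828606682113)))) (N (nat_lit 668) (N (nat_lit 667) (L (nat_lit 287671828606682114)) (L (nat_lit 287671828606682115))) (N (nat_lit 669) (L (nat_lit 287671828606682116)) (L (nat_lit 287671828606682117)))))))
def pt9 : RA := N (nat_lit 707) (N (nat_lit 689) (N (nat_lit 680) (N (nat_lit 675) (N (nat_lit 673) (N (nat_lit 672) (N (nat_lit 671) (L (nat_lit 287671828606682118)) (L (nat_lit 287671828606747646))) (L (nat_lit 287671828606747647))) (N (nat_lit 674) (L (nat_lit 287671828606747648)) (L (nat_lit 287671828606747649)))) (N (nat_lit 678) (N (nat_lit 677) (N (nat_lit 676) (L (nat_lit 287671828606747650)) (L (nat_lit 287671828606747651))) (L (nat_lit 287671828606747652))) (N (nat_lit 679) (L (nat_lit 287671828606747653)) (L (nat_lit 287671828606747654))))) (N (nat_lit 685) (N (nat_lit 683) (N (nat_lit 682) (N (nat_lit 681) (L (nat_lit 287671828606813181))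 (L (nat_lit 287671828606813182))) (L (nat_lit 287671828606813183))) (N (nat_lit 684) (L (nat_lit 287671828606813184)) (L (nat_lit 287671828606813185)))) (N (nat_lit 687) (N (nat_lit 686) (L (nat_lit 287671828606813186)) (L (nat_lit 287671828606813187))) (N (nat_lit 688) (L (nat_lit 287671828606813188)) (L (nat_lit 287671828606813189)))))) (N (nat_lit 698) (N (nat_lit 694) (N (nat_lit 692) (N (nat_lit 691) (N (nat_lit 690) (L (nat_lit 287671828606813190)) (L (nat_lit 287671828606878716))) (L (nat_lit 287671828606878717))) (N (nat_lit 693) (L (nat_lit 287671828606878718)) (L (nat_lit 287671828606878719)))) (N (nat_lit 696) (N (nat_lit 695) (L (nat_lit 287671828606878720)) (L (nat_lit 287671828606878721))) (N (nat_lit 697) (L (nat_lit 287671828606878722)) (L (nat_lit 287671828606878723))))) (N (nat_lit 703) (N (nat_lit 701) (N (nat_lit 700) (N (nat_lit 699) (L (nat_lit 287671828606878724)) (L (nat_lit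 287671828606878725))) (L (nat_lit 287671828606944252))) (N (nat_lit 702) (L (nat_lit 287671828606944253)) (L (nat_lit 287671828606944254)))) (N (nat_lit 705) (N (nat_lit 704) (L (nat_lit 287671828606944255)) (L (nat_lit 287671828606944256))) (N (nat_lit 706) (L (nat_lit 287671828606944257)) (L (nat_lit 287671828606944258))))))) (N (nat_lit 726) (N (nat_lit 717) (N (nat_lit 712) (N (nat_lit 710) (N (nat_lit 709) (N (nat_lit 708) (L (nat_lit 287671828606944259)) (L (nat_lit 287671828606944260))) (L (nat_lit 287671828606944261))) (N (nat_lit 711) (L (nat_lit 287671828607009787)) (L (nat_lit 287671828607009788)))) (N (nat_lit 715) (N (nat_lit 714) (N (nat_lit 713) (L (nat_lit 287671828607009789)) (L (nat_lit 287671828607009790))) (L (nat_lit 287671828607009791))) (N (nat_lit 716) (L (nat_lit 287671828607009792)) (L (nat_lit 287671828607009793))))) (N (nat_lit 722) (N (nat_lit 720) (N (nat_lit 719) (N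 (nat_lit 718) (L (nat_lit 287671828607009794)) (L (nat_lit 287671828607009795))) (L (nat_lit 287671828607009796))) (N (nat_lit 721) (L (nat_lit 287671828607075323)) (L (nat_lit 287671828607075324)))) (N (nat_lit 724) (N (nat_lit 723) (L (nat_lit 287671828607075325)) (L (nat_lit 287671828607075326))) (N (nat_lit 725) (L (nat_lit 287671828607075327)) (L (nat_lit 287671828607075328)))))) (N (nat_lit 735) (N (nat_lit 731) (N (nat_lit 729) (N (nat_lit 728) (N (nat_lit 727) (L (nat_lit 287671828607075329)) (L (nat_lit 287671828607075330))) (L (nat_lit 287671828607075331))) (N (nat_lit 730) (L (nat_lit 287671828607075332)) (L (nat_lit 287671828607140859)))) (N (nat_lit 733) (N (nat_lit 732) (L (nat_lit 287671828607140860)) (L (nat_lit 287671828607140861))) (N (nat_lit 734) (L (nat_lit 287671828607140862)) (L (nat_lit 287671828607140863))))) (N (nat_lit 740) (N (nat_lit 738) (N (nat_lit 737) (N (nat_lit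 736) (L (nat_lit 287671828607140864)) (L (nat_lit 287671828607140865))) (L (nat_lit 287671828607140866))) (N (nat_lit 739) (L (nat_lit 287671828607140867)) (L (nat_lit 287671828607206395)))) (N (nat_lit 742) (N (nat_lit 741) (L (nat_lit 287671828607206396)) (L (nat_lit 287671828607206397))) (N (nat_lit 743) (L (nat_lit 287671828607206398)) (L (nat_lit 287671828607206399)))))))
def pt10 : RA := N (nat_lit 782) (N (nat_lit 763) (N (nat_lit 754) (N (nat_lit 749) (N (nat_lit 747) (N (nat_lit 746) (N (nat_lit 745) (L (nat_lit 287671828607206400)) (L (nat_lit 287671828607206401))) (L (nat_lit 287671828607206402))) (N (nat_lit 748) (L (nat_lit 287671828607271931)) (L (nat_lit 287671828607271932)))) (N (nat_lit 752) (N (nat_lit 751) (N (nat_lit 750) (L (nat_lit 287671828607271933)) (L (nat_lit 287671828607271934))) (L (nat_lit 287671828607271935))) (N (nat_lit 753) (L (nat_lit 287671828607271936)) (L (nat_lit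 287671828607271937))))) (N (nat_lit 759) (N (nat_lit 757) (N (nat_lit 756) (N (nat_lit 755) (L (nat_lit 287671828607337467)) (L (nat_lit 287671828607337468))) (L (nat_lit 287671828607337469))) (N (nat_lit 758) (L (nat_lit 287671828607337470)) (L (nat_lit 287671828607337471)))) (N (nat_lit 761) (N (nat_lit 760) (L (nat_lit 287671828607403005)) (L (nat_lit 287671832901583872))) (N (nat_lit 762) (L (nat_lit 287671832901583873)) (L (nat_lit 287671832901583874)))))) (N (nat_lit 773) (N (nat_lit 768) (N (nat_lit 766) (N (nat_lit 765) (N (nat_lit 764) (L (nat_lit 287671832901583875)) (L (nat_lit 287671832901583876))) (L (nat_lit 287671832901583877))) (N (nat_lit 767) (L (nat_lit 287671832901649407)) (L (nat_lit 287671832901649408)))) (N (nat_lit 771) (N (nat_lit 770) (N (nat_lit 769) (L (nat_lit 287671832901649409)) (L (nat_lit 287671832901649410))) (L (nat_lit 287671832901649411))) (N (nat_lit 772) (L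 (nat_lit 287671832901649412)) (L (nat_lit 287671832901649413))))) (N (nat_lit 778) (N (nat_lit 776) (N (nat_lit 775) (N (nat_lit 774) (L (nat_lit 287671832901714942)) (L (nat_lit 287671832901714943))) (L (nat_lit 287671832901714944))) (N (nat_lit 777) (L (nat_lit 287671832901714945)) (L (nat_lit 287671832901714946)))) (N (nat_lit 780) (N (nat_lit 779) (L (nat_lit 287671832901714947)) (L (nat_lit 287671832901714948))) (N (nat_lit 781) (L (nat_lit 287671832901714949)) (L (nat_lit 287671832901780477))))))) (N (nat_lit 801) (N (nat_lit 792) (N (nat_lit 787) (N (nat_lit 785) (N (nat_lit 784) (N (nat_lit 783) (L (nat_lit 287671832901780478)) (L (nat_lit 287671832901780479))) (L (nat_lit 287671832901780480))) (N (nat_lit 786) (L (nat_lit 287671832901780481)) (L (nat_lit 287671832901780482)))) (N (nat_lit 790) (N (nat_lit 789) (N (nat_lit 788) (L (nat_lit 287671832901780483)) (L (nat_lit 287671832901780484)))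 (L (nat_lit 287671832901780485))) (N (nat_lit 791) (L (nat_lit 287671832901846012)) (L (nat_lit 287671832901846013))))) (N (nat_lit 797) (N (nat_lit 795) (N (nat_lit 794) (N (nat_lit 793) (L (nat_lit 287671832901846014)) (L (nat_lit 287671832901846015))) (L (nat_lit 287671832901846016))) (N (nat_lit 796) (L (nat_lit 287671832901846017)) (L (nat_lit 287671832901846018)))) (N (nat_lit 799) (N (nat_lit 798) (L (nat_lit 287671832901846019)) (L (nat_lit 287671832901846020))) (N (nat_lit 800) (L (nat_lit 287671832901846021)) (L (nat_lit 287671832901911547)))))) (N (nat_lit 810) (N (nat_lit 806) (N (nat_lit 804) (N (nat_lit 803) (N (nat_lit 802) (L (nat_lit 287671832901911548)) (L (nat_lit 287671832901911549))) (L (nat_lit 287671832901911550))) (N (nat_lit 805) (L (nat_lit 287671832901911551)) (L (nat_lit 287671832901911552)))) (N (nat_lit 808) (N (nat_lit 807) (L (nat_lit 287671832901911553)) (L (nat_lit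 287671832901911554))) (N (nat_lit 809) (L (nat_lit 287671832901911555)) (L (nat_lit 287671832901911556))))) (N (nat_lit 815) (N (nat_lit 813) (N (nat_lit 812) (N (nat_lit 811) (L (nat_lit 287671832901977083)) (L (nat_lit 287671832901977084))) (L (nat_lit 287671832901977085))) (N (nat_lit 814) (L (nat_lit 287671832901977086)) (L (nat_lit 287671832901977087)))) (N (nat_lit 817) (N (nat_lit 816) (L (nat_lit 287671832901977088)) (L (nat_lit 287671832901977089))) (N (nat_lit 818) (L (nat_lit 287671832901977090)) (L (nat_lit 287671832901977091)))))))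
def pt11 : RA := N (nat_lit 856) (N (nat_lit 838) (N (nat_lit 829) (N (nat_lit 824) (N (nat_lit 822) (N (nat_lit 821) (N (nat_lit 820) (L (nat_lit 287671832902042618)) (L (nat_lit 287671832902042619))) (L (nat_lit 287671832902042620))) (N (nat_lit 823) (L (nat_lit 287671832902042621)) (L (nat_lit 287671832902042622)))) (N (nat_lit 827) (N (nat_lit 826) (N (nat_lit 825) (L (nat_lit 287671832902042623)) (L (nat_lit 287671832902042624))) (L (nat_lit 287671832902042625))) (N (nat_lit 828) (L (nat_lit 287671832902042626)) (L (nat_lit 287671832902042627))))) (N (nat_lit 834) (N (nat_lit 832) (N (nat_lit 831) (N (nat_lit 830) (L (nat_lit 287671832902108154)) (L (nat_lit 287671832902108155))) (L (nat_lit 287671832902108156))) (N (nat_lit 833) (L (nat_lit 287671832902108157)) (L (nat_lit 287671832902108158)))) (N (nat_lit 836) (N (nat_lit 835) (L (nat_lit 287671832902108159)) (L (nat_lit 287671832902108160)))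 (N (nat_lit 837) (L (nat_lit 287671832902108161)) (L (nat_lit 287671832902173691)))))) (N (nat_lit 847) (N (nat_lit 843) (N (nat_lit 841) (N (nat_lit 840) (N (nat_lit 839) (L (nat_lit 287671832902173692)) (L (nat_lit 287671832902173693))) (L (nat_lit 287671832902173694))) (N (nat_lit 842) (L (nat_lit 287671832902173695)) (L (nat_lit 287671832902173696)))) (N (nat_lit 845) (N (nat_lit 844) (L (nat_lit 287671832902173697)) (L (nat_lit 287671832902239226))) (N (nat_lit 846) (L (nat_lit 287671832902239227)) (L (nat_lit 287671832902239228))))) (N (nat_lit 852) (N (nat_lit 850) (N (nat_lit 849) (N (nat_lit 848) (L (nat_lit 287671832902239229)) (L (nat_lit 287671832902239230))) (L (nat_lit 287671832902239231))) (N (nat_lit 851) (L (nat_lit 287671832902304763)) (L (nat_lit 287671832902304764)))) (N (nat_lit 854) (N (nat_lit 853) (L (nat_lit 287671832902304766)) (L (nat_lit 287671837196616704))) (N (nat_lit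 855) (L (nat_lit 287671837196616705)) (L (nat_lit 287671837196616707))))))) (N (nat_lit 875) (N (nat_lit 866) (N (nat_lit 861) (N (nat_lit 859) (N (nat_lit 858) (N (nat_lit 857) (L (nat_lit 287671837196682240)) (L (nat_lit 287671837196682241))) (L (nat_lit 287671837196682242))) (N (nat_lit 860) (L (nat_lit 287671837196682243)) (L (nat_lit 287671837196682244)))) (N (nat_lit 864) (N (nat_lit 863) (N (nat_lit 862) (L (nat_lit 287671837196747774)) (L (nat_lit 287671837196747775))) (L (nat_lit 287671837196747776))) (N (nat_lit 865) (L (nat_lit 287671837196747777)) (L (nat_lit 287671837196747778))))) (N (nat_lit 871) (N (nat_lit 869) (N (nat_lit 868) (N (nat_lit 867) (L (nat_lit 287671837196747779)) (L (nat_lit 287671837196813310))) (L (nat_lit 287671837196813311))) (N (nat_lit 870) (L (nat_lit 287671837196813312)) (L (nat_lit 287671837196813313)))) (N (nat_lit 873) (N (nat_lit 872) (L (nat_lit 287671837196813314))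 (L (nat_lit 287671837196813316))) (N (nat_lit 874) (L (nat_lit 287671837196878846)) (L (nat_lit 287671837196878847)))))) (N (nat_lit 884) (N (nat_lit 880) (N (nat_lit 878) (N (nat_lit 877) (N (nat_lit 876) (L (nat_lit 287671837196878848)) (L (nat_lit 287671837196878849))) (L (nat_lit 287671837196878850))) (N (nat_lit 879) (L (nat_lit 287671837196944381)) (L (nat_lit 287671837196944382)))) (N (nat_lit 882) (N (nat_lit 881) (L (nat_lit 287671837196944384)) (L (nat_lit 287671837196944385))) (N (nat_lit 883) (L (nat_lit 287671837197009917)) (L (nat_lit 287671837197009918))))) (N (nat_lit 889) (N (nat_lit 887) (N (nat_lit 886) (N (nat_lit 885) (L (nat_lit 287671837197009919)) (L (nat_lit 287671837197009920))) (L (nat_lit 287671837197075453))) (N (nat_lit 888) (L (nat_lit 287671837197140987)) (L (nat_lit 287671837197140988)))) (N (nat_lit 891) (N (nat_lit 890) (L (nat_lit 287671837197206526)) (L (nat_lit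 287671841491584000))) (N (nat_lit 892) (L (nat_lit 287671841491584003)) (L (nat_lit 287671841491649538)))))))
def pt12 : RA := N (nat_lit 931) (N (nat_lit 912) (N (nat_lit 903) (N (nat_lit 898) (N (nat_lit 896) (N (nat_lit 895) (N (nat_lit 894) (L (nat_lit 287671841491649539)) (L (nat_lit 287671841491715070))) (L (nat_lit 287671841491715073))) (N (nat_lit 897) (L (nat_lit 287671841491715074)) (L (nat_lit 287671841491780606)))) (N (nat_lit 901) (N (nat_lit 900) (N (nat_lit 899) (L (nat_lit 287671841491780607)) (L (nat_lit 287671841491780608))) (L (nat_lit 287671841491780609))) (N (nat_lit 902) (L (nat_lit 287671841491780610)) (L (nat_lit 287671841491846143))))) (N (nat_lit 908) (N (nat_lit 906) (N (nat_lit 905) (N (nat_lit 904) (L (nat_lit 287671841491846144)) (L (nat_lit 287671841491846146))) (L (nat_lit 287671841491911677))) (N (nat_lit 907) (L (nat_lit 287671841491911679)) (L (nat_lit 287671841491911680))))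 (N (nat_lit 910) (N (nat_lit 909) (L (nat_lit 287671841491911681)) (L (nat_lit 287671841491977215))) (N (nat_lit 911) (L (nat_lit 287671841491977216)) (L (nat_lit 287671841492042749)))))) (N (nat_lit 922) (N (nat_lit 917) (N (nat_lit 915) (N (nat_lit 914) (N (nat_lit 913) (L (nat_lit 287671841492108284)) (L (nat_lit 287671845786682366))) (L (nat_lit 287671845786682370))) (N (nat_lit 916) (L (nat_lit 287671845786747902)) (L (nat_lit 287671845786747906)))) (N (nat_lit 920) (N (nat_lit 919) (N (nat_lit 918) (L (nat_lit 287671845786813440)) (L (nat_lit 287671845786878976))) (L (nat_lit 287671845786944510))) (N (nat_lit 921) (L (nat_lit 287671845787075580)) (L (nat_lit 287671850081649660))))) (N (nat_lit 927) (N (nat_lit 925) (N (nat_lit 924) (N (nat_lit 923) (L (nat_lit 287953286403523588)) (L (nat_lit 287953286403654658))) (L (nat_lit 287953286403720192))) (N (nat_lit 926) (L (nat_lit 287953286403720194))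 (L (nat_lit 287953286403720195)))) (N (nat_lit 929) (N (nat_lit 928) (L (nat_lit 287953286403785728)) (L (nat_lit 287953286403785730))) (N (nat_lit 930) (L (nat_lit 287953286403785732)) (L (nat_lit 287953286403851264))))))) (N (nat_lit 950) (N (nat_lit 941) (N (nat_lit 936) (N (nat_lit 934) (N (nat_lit 933) (N (nat_lit 932) (L (nat_lit 287953286403851265)) (L (nat_lit 287953286403916801))) (L (nat_lit 287953286403982337))) (N (nat_lit 935) (L (nat_lit 287953290698425347)) (L (nat_lit 287953290698490883)))) (N (nat_lit 939) (N (nat_lit 938) (N (nat_lit 937) (L (nat_lit 287953290698490884)) (L (nat_lit 287953290698556417))) (L (nat_lit 287953290698556418))) (N (nat_lit 940) (L (nat_lit 287953290698556419)) (L (nat_lit 287953290698556420))))) (N (nat_lit 946) (N (nat_lit 944) (N (nat_lit 943) (N (nat_lit 942) (L (nat_lit 287953290698621952)) (L (nat_lit 287953290698621953))) (L (nat_lit 287953290698621954)))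 (N (nat_lit 945) (L (nat_lit 287953290698621955)) (L (nat_lit 287953290698687488)))) (N (nat_lit 948) (N (nat_lit 947) (L (nat_lit 287953290698687489)) (L (nat_lit 287953290698687491))) (N (nat_lit 949) (L (nat_lit 287953290698753022)) (L (nat_lit 287953290698753023)))))) (N (nat_lit 959) (N (nat_lit 955) (N (nat_lit 953) (N (nat_lit 952) (N (nat_lit 951) (L (nat_lit 287953290698753024)) (L (nat_lit 287953290698753025))) (L (nat_lit 287953290698753026))) (N (nat_lit 954) (L (nat_lit 287953290698753027)) (L (nat_lit 287953290698753028)))) (N (nat_lit 957) (N (nat_lit 956) (L (nat_lit 287953290698818558)) (L (nat_lit 287953290698818560))) (N (nat_lit 958) (L (nat_lit 287953290698818561)) (L (nat_lit 287953290698818562))))) (N (nat_lit 964) (N (nat_lit 962) (N (nat_lit 961) (N (nat_lit 960) (L (nat_lit 287953290698884094)) (L (nat_lit 287953290698884097))) (L (nat_lit 287953290698949630))) (N (nat_lit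 963) (L (nat_lit 287953290698949633)) (L (nat_lit 287953294993327106)))) (N (nat_lit 966) (N (nat_lit 965) (L (nat_lit 287953294993327107)) (L (nat_lit 287953294993327108))) (N (nat_lit 967) (L (nat_lit 287953294993327109)) (L (nat_lit 287953294993327110)))))))
def pt13 : RA := N (nat_lit 1005) (N (nat_lit 987) (N (nat_lit 978) (N (nat_lit 973) (N (nat_lit 971) (N (nat_lit 970) (N (nat_lit 969) (L (nat_lit 287953294993392640)) (L (nat_lit 287953294993392641))) (L (nat_lit 287953294993392642))) (N (nat_lit 972) (L (nat_lit 287953294993392643)) (L (nat_lit 287953294993392644)))) (N (nat_lit 976) (N (nat_lit 975) (N (nat_lit 974) (L (nat_lit 287953294993392645)) (L (nat_lit 287953294993392646))) (L (nat_lit 287953294993392647))) (N (nat_lit 977) (L (nat_lit 287953294993458176)) (L (nat_lit 287953294993458177))))) (N (nat_lit 983) (N (nat_lit 981) (N (nat_lit 980) (N (nat_lit 979) (L (nat_lit 287953294993458178))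 (L (nat_lit 287953294993458179))) (L (nat_lit 287953294993458180))) (N (nat_lit 982) (L (nat_lit 287953294993458181)) (L (nat_lit 287953294993458182)))) (N (nat_lit 985) (N (nat_lit 984) (L (nat_lit 287953294993458183)) (L (nat_lit 287953294993523710))) (N (nat_lit 986) (L (nat_lit 287953294993523711)) (L (nat_lit 287953294993523712)))))) (N (nat_lit 996) (N (nat_lit 992) (N (nat_lit 990) (N (nat_lit 989) (N (nat_lit 988) (L (nat_lit 287953294993523713)) (L (nat_lit 287953294993523714))) (L (nat_lit 287953294993523715))) (N (nat_lit 991) (L (nat_lit 287953294993523716)) (L (nat_lit 287953294993523717)))) (N (nat_lit 994) (N (nat_lit 993) (L (nat_lit 287953294993523718)) (L (nat_lit 287953294993523719))) (N (nat_lit 995) (L (nat_lit 287953294993589246)) (L (nat_lit 287953294993589247))))) (N (nat_lit 1001) (N (nat_lit 999) (N (nat_lit 998) (N (nat_lit 997) (L (nat_lit 287953294993589248)) (L (nat_lit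 287953294993589249))) (L (nat_lit 287953294993589250))) (N (nat_lit 1000) (L (nat_lit 287953294993589251)) (L (nat_lit 287953294993589252)))) (N (nat_lit 1003) (N (nat_lit 1002) (L (nat_lit 287953294993589253)) (L (nat_lit 287953294993589254))) (N (nat_lit 1004) (L (nat_lit 287953294993589255)) (L (nat_lit 287953294993654781))))))) (N (nat_lit 1024) (N (nat_lit 1015) (N (nat_lit 1010) (N (nat_lit 1008) (N (nat_lit 1007) (N (nat_lit 1006) (L (nat_lit 287953294993654782)) (L (nat_lit 287953294993654783))) (L (nat_lit 287953294993654784))) (N (nat_lit 1009) (L (nat_lit 287953294993654785)) (L (nat_lit 287953294993654786)))) (N (nat_lit 1013) (N (nat_lit 1012) (N (nat_lit 1011) (L (nat_lit 287953294993654787)) (L (nat_lit 287953294993654788))) (L (nat_lit 287953294993654789))) (N (nat_lit 1014) (L (nat_lit 287953294993654790)) (L (nat_lit 287953294993654791))))) (N (nat_lit 1020) (N (nat_lit 1018) (N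 (nat_lit 1017) (N (nat_lit 1016) (L (nat_lit 287953294993720317)) (L (nat_lit 287953294993720318))) (L (nat_lit 287953294993720319))) (N (nat_lit 1019) (L (nat_lit 287953294993720320)) (L (nat_lit 287953294993720321)))) (N (nat_lit 1022) (N (nat_lit 1021) (L (nat_lit 287953294993720322)) (L (nat_lit 287953294993720323))) (N (nat_lit 1023) (L (nat_lit 287953294993720324)) (L (nat_lit 287953294993720325)))))) (N (nat_lit 1033) (N (nat_lit 1029) (N (nat_lit 1027) (N (nat_lit 1026) (N (nat_lit 1025) (L (nat_lit 287953294993720326)) (L (nat_lit 287953294993720327))) (L (nat_lit 287953294993785853))) (N (nat_lit 1028) (L (nat_lit 287953294993785854)) (L (nat_lit 287953294993785855)))) (N (nat_lit 1031) (N (nat_lit 1030) (L (nat_lit 287953294993785856)) (L (nat_lit 287953294993785857))) (N (nat_lit 1032) (L (nat_lit 287953294993785858)) (L (nat_lit 287953294993785859))))) (N (nat_lit 1038) (N (nat_lit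 1036) (N (nat_lit 1035) (N (nat_lit 1034) (L (nat_lit 287953294993785860)) (L (nat_lit 287953294993785861))) (L (nat_lit 287953294993785862))) (N (nat_lit 1037) (L (nat_lit 287953294993851388)) (L (nat_lit 287953294993851390)))) (N (nat_lit 1040) (N (nat_lit 1039) (L (nat_lit 287953294993851391)) (L (nat_lit 287953294993851392))) (N (nat_lit 1041) (L (nat_lit 287953294993851393)) (L (nat_lit 287953294993851394)))))))
def pt14 : RA := N (nat_lit 1079) (N (nat_lit 1061) (N (nat_lit 1052) (N (nat_lit 1047) (N (nat_lit 1045) (N (nat_lit 1044) (N (nat_lit 1043) (L (nat_lit 287953294993851395)) (L (nat_lit 287953294993851396))) (L (nat_lit 287953294993916925))) (N (nat_lit 1046) (L (nat_lit 287953294993916926)) (L (nat_lit 287953294993916927)))) (N (nat_lit 1050) (N (nat_lit 1049) (N (nat_lit 1048) (L (nat_lit 287953294993916928)) (L (nat_lit 287953294993916929))) (L (nat_lit 287953294993916930))) (N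 (nat_lit 1051) (L (nat_lit 287953294993916931)) (L (nat_lit 287953294993916932))))) (N (nat_lit 1057) (N (nat_lit 1055) (N (nat_lit 1054) (N (nat_lit 1053) (L (nat_lit 287953294993982463)) (L (nat_lit 287953294993982465))) (L (nat_lit 287953294993982466))) (N (nat_lit 1056) (L (nat_lit 287953294993982467)) (L (nat_lit 287953294994047999)))) (N (nat_lit 1059) (N (nat_lit 1058) (L (nat_lit 287953294994048000)) (L (nat_lit 287953294994048001))) (N (nat_lit 1060) (L (nat_lit 287953299288228867)) (L (nat_lit 287953299288228868)))))) (N (nat_lit 1070) (N (nat_lit 1066) (N (nat_lit 1064) (N (nat_lit 1063) (N (nat_lit 1062) (L (nat_lit 287953299288294401)) (L (nat_lit 287953299288294402))) (L (nat_lit 287953299288294403))) (N (nat_lit 1065) (L (nat_lit 287953299288294404)) (L (nat_lit 287953299288294405)))) (N (nat_lit 1068) (N (nat_lit 1067) (L (nat_lit 287953299288294406)) (L (nat_lit 287953299288359935)))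 (N (nat_lit 1069) (L (nat_lit 287953299288359936)) (L (nat_lit 287953299288359937))))) (N (nat_lit 1075) (N (nat_lit 1073) (N (nat_lit 1072) (N (nat_lit 1071) (L (nat_lit 287953299288359938)) (L (nat_lit 287953299288359939))) (L (nat_lit 287953299288359940))) (N (nat_lit 1074) (L (nat_lit 287953299288359941)) (L (nat_lit 287953299288359942)))) (N (nat_lit 1077) (N (nat_lit 1076) (L (nat_lit 287953299288359943)) (L (nat_lit 287953299288425470))) (N (nat_lit 1078) (L (nat_lit 287953299288425471)) (L (nat_lit 287953299288425472))))))) (N (nat_lit 1098) (N (nat_lit 1089) (N (nat_lit 1084) (N (nat_lit 1082) (N (nat_lit 1081) (N (nat_lit 1080) (L (nat_lit 287953299288425473)) (L (nat_lit 287953299288425474))) (L (nat_lit 287953299288425475))) (N (nat_lit 1083) (L (nat_lit 287953299288425476)) (L (nat_lit 287953299288425477)))) (N (nat_lit 1087) (N (nat_lit 1086) (N (nat_lit 1085) (L (nat_lit 287953299288425478))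 (L (nat_lit 287953299288491006))) (L (nat_lit 287953299288491007))) (N (nat_lit 1088) (L (nat_lit 287953299288491008)) (L (nat_lit 287953299288491009))))) (N (nat_lit 1094) (N (nat_lit 1092) (N (nat_lit 1091) (N (nat_lit 1090) (L (nat_lit 287953299288491010)) (L (nat_lit 287953299288491011))) (L (nat_lit 287953299288491012))) (N (nat_lit 1093) (L (nat_lit 287953299288491013)) (L (nat_lit 287953299288491014)))) (N (nat_lit 1096) (N (nat_lit 1095) (L (nat_lit 287953299288491015)) (L (nat_lit 287953299288556541))) (N (nat_lit 1097) (L (nat_lit 287953299288556542)) (L (nat_lit 287953299288556543)))))) (N (nat_lit 1107) (N (nat_lit 1103) (N (nat_lit 1101) (N (nat_lit 1100) (N (nat_lit 1099) (L (nat_lit 287953299288556544)) (L (nat_lit 287953299288556545))) (L (nat_lit 287953299288556546))) (N (nat_lit 1102) (L (nat_lit 287953299288556547)) (L (nat_lit 287953299288556548)))) (N (nat_lit 1105) (N (nat_lit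 1104) (L (nat_lit 287953299288556549)) (L (nat_lit 287953299288556550))) (N (nat_lit 1106) (L (nat_lit 287953299288556551)) (L (nat_lit 287953299288622076))))) (N (nat_lit 1112) (N (nat_lit 1110) (N (nat_lit 1109) (N (nat_lit 1108) (L (nat_lit 287953299288622077)) (L (nat_lit 287953299288622078))) (L (nat_lit 287953299288622079))) (N (nat_lit 1111) (L (nat_lit 287953299288622080)) (L (nat_lit 287953299288622081)))) (N (nat_lit 1114) (N (nat_lit 1113) (L (nat_lit 287953299288622082)) (L (nat_lit 287953299288622083))) (N (nat_lit 1115) (L (nat_lit 287953299288622084)) (L (nat_lit 287953299288622085)))))))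
def pt15 : RA := N (nat_lit 1153) (N (nat_lit 1135) (N (nat_lit 1126) (N (nat_lit 1121) (N (nat_lit 1119) (N (nat_lit 1118) (N (nat_lit 1117) (L (nat_lit 287953299288622086)) (L (nat_lit 287953299288687612))) (L (nat_lit 287953299288687613))) (N (nat_lit 1120) (L (nat_lit 287953299288687614)) (L (nat_lit 287953299288687615)))) (N (nat_lit 1124) (N (nat_lit 1123) (N (nat_lit 1122) (L (nat_lit 287953299288687616)) (L (nat_lit 287953299288687617))) (L (nat_lit 287953299288687618))) (N (nat_lit 1125) (L (nat_lit 287953299288687619)) (L (nat_lit 287953299288687620))))) (N (nat_lit 1131) (N (nat_lit 1129) (N (nat_lit 1128) (N (nat_lit 1127) (L (nat_lit 287953299288687621)) (L (nat_lit 287953299288687622))) (L (nat_lit 287953299288753147))) (N (nat_lit 1130) (L (nat_lit 287953299288753148)) (L (nat_lit 287953299288753149)))) (N (nat_lit 1133) (N (nat_lit 1132) (L (nat_lit 287953299288753150)) (L (nat_lit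 287953299288753151))) (N (nat_lit 1134) (L (nat_lit 287953299288753152)) (L (nat_lit 287953299288753153)))))) (N (nat_lit 1144) (N (nat_lit 1140) (N (nat_lit 1138) (N (nat_lit 1137) (N (nat_lit 1136) (L (nat_lit 287953299288753154)) (L (nat_lit 287953299288753155))) (L (nat_lit 287953299288753156))) (N (nat_lit 1139) (L (nat_lit 287953299288753157)) (L (nat_lit 287953299288818684)))) (N (nat_lit 1142) (N (nat_lit 1141) (L (nat_lit 287953299288818685)) (L (nat_lit 287953299288818686))) (N (nat_lit 1143) (L (nat_lit 287953299288818687)) (L (nat_lit 287953299288818688))))) (N (nat_lit 1149) (N (nat_lit 1147) (N (nat_lit 1146) (N (nat_lit 1145) (L (nat_lit 287953299288818689)) (L (nat_lit 287953299288818690))) (L (nat_lit 287953299288818691))) (N (nat_lit 1148) (L (nat_lit 287953299288818692)) (L (nat_lit 287953299288884219)))) (N (nat_lit 1151) (N (nat_lit 1150) (L (nat_lit 287953299288884220)) (L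 (nat_lit 287953299288884221))) (N (nat_lit 1152) (L (nat_lit 287953299288884222)) (L (nat_lit 287953299288884223))))))) (N (nat_lit 1172) (N (nat_lit 1163) (N (nat_lit 1158) (N (nat_lit 1156) (N (nat_lit 1155) (N (nat_lit 1154) (L (nat_lit 287953299288884224)) (L (nat_lit 287953299288884225))) (L (nat_lit 287953299288884226))) (N (nat_lit 1157) (L (nat_lit 287953299288884227)) (L (nat_lit 287953299288884228)))) (N (nat_lit 1161) (N (nat_lit 1160) (N (nat_lit 1159) (L (nat_lit 287953299288949755)) (L (nat_lit 287953299288949756))) (L (nat_lit 287953299288949757))) (N (nat_lit 1162) (L (nat_lit 287953299288949758)) (L (nat_lit 287953299288949759))))) (N (nat_lit 1168) (N (nat_lit 1166) (N (nat_lit 1165) (N (nat_lit 1164) (L (nat_lit 287953299288949760)) (L (nat_lit 287953299288949761))) (L (nat_lit 287953299288949762))) (N (nat_lit 1167) (L (nat_lit 287953299288949763)) (L (nat_lit 287953299289015292))))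 (N (nat_lit 1170) (N (nat_lit 1169) (L (nat_lit 287953299289015293)) (L (nat_lit 287953299289015294))) (N (nat_lit 1171) (L (nat_lit 287953299289015295)) (L (nat_lit 287953299289015296)))))) (N (nat_lit 1181) (N (nat_lit 1177) (N (nat_lit 1175) (N (nat_lit 1174) (N (nat_lit 1173) (L (nat_lit 287953299289015297)) (L (nat_lit 287953299289080831))) (L (nat_lit 287953303583196163))) (N (nat_lit 1176) (L (nat_lit 287953303583196164)) (L (nat_lit 287953303583261697)))) (N (nat_lit 1179) (N (nat_lit 1178) (L (nat_lit 287953303583261698)) (L (nat_lit 287953303583261699))) (N (nat_lit 1180) (L (nat_lit 287953303583261700)) (L (nat_lit 287953303583261701))))) (N (nat_lit 1186) (N (nat_lit 1184) (N (nat_lit 1183) (N (nat_lit 1182) (L (nat_lit 287953303583261702)) (L (nat_lit 287953303583327231))) (L (nat_lit 287953303583327232))) (N (nat_lit 1185) (L (nat_lit 287953303583327233)) (L (nat_lit 287953303583327234))))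 (N (nat_lit 1188) (N (nat_lit 1187) (L (nat_lit 287953303583327235)) (L (nat_lit 287953303583327236))) (N (nat_lit 1189) (L (nat_lit 287953303583327237)) (L (nat_lit 287953303583392766)))))))
def pt16 : RA := N (nat_lit 1228) (N (nat_lit 1209) (N (nat_lit 1200) (N (nat_lit 1195) (N (nat_lit 1193) (N (nat_lit 1192) (N (nat_lit 1191) (L (nat_lit 287953303583392767)) (L (nat_lit 287953303583392768))) (L (nat_lit 287953303583392769))) (N (nat_lit 1194) (L (nat_lit 287953303583392770)) (L (nat_lit 287953303583392771)))) (N (nat_lit 1198) (N (nat_lit 1197) (N (nat_lit 1196) (L (nat_lit 287953303583392772)) (L (nat_lit 287953303583392773))) (L (nat_lit 287953303583392774))) (N (nat_lit 1199) (L (nat_lit 287953303583458301)) (L (nat_lit 287953303583458302))))) (N (nat_lit 1205) (N (nat_lit 1203) (N (nat_lit 1202) (N (nat_lit 1201) (L (nat_lit 287953303583458303)) (L (nat_lit 287953303583458304))) (L (nat_lit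 287953303583458305))) (N (nat_lit 1204) (L (nat_lit 287953303583458306)) (L (nat_lit 287953303583458307)))) (N (nat_lit 1207) (N (nat_lit 1206) (L (nat_lit 287953303583458308)) (L (nat_lit 287953303583458309))) (N (nat_lit 1208) (L (nat_lit 287953303583458310)) (L (nat_lit 287953303583523837)))))) (N (nat_lit 1219) (N (nat_lit 1214) (N (nat_lit 1212) (N (nat_lit 1211) (N (nat_lit 1210) (L (nat_lit 287953303583523838)) (L (nat_lit 287953303583523839))) (L (nat_lit 287953303583523840))) (N (nat_lit 1213) (L (nat_lit 287953303583523841)) (L (nat_lit 287953303583523842)))) (N (nat_lit 1217) (N (nat_lit 1216) (N (nat_lit 1215) (L (nat_lit 287953303583523843)) (L (nat_lit 287953303583523844))) (L (nat_lit 287953303583523845))) (N (nat_lit 1218) (L (nat_lit 287953303583523846)) (L (nat_lit 287953303583589371))))) (N (nat_lit 1224) (N (nat_lit 1222) (N (nat_lit 1221) (N (nat_lit 1220) (L (nat_lit 287953303583589372))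 (L (nat_lit 287953303583589373))) (L (nat_lit 287953303583589374))) (N (nat_lit 1223) (L (nat_lit 287953303583589375)) (L (nat_lit 287953303583589376)))) (N (nat_lit 1226) (N (nat_lit 1225) (L (nat_lit 287953303583589377)) (L (nat_lit 287953303583589378))) (N (nat_lit 1227) (L (nat_lit 287953303583589379)) (L (nat_lit 287953303583589380))))))) (N (nat_lit 1247) (N (nat_lit 1238) (N (nat_lit 1233) (N (nat_lit 1231) (N (nat_lit 1230) (N (nat_lit 1229) (L (nat_lit 287953303583589381)) (L (nat_lit 287953303583654907))) (L (nat_lit 287953303583654908))) (N (nat_lit 1232) (L (nat_lit 287953303583654909)) (L (nat_lit 287953303583654910)))) (N (nat_lit 1236) (N (nat_lit 1235) (N (nat_lit 1234) (L (nat_lit 287953303583654911)) (L (nat_lit 287953303583654912))) (L (nat_lit 287953303583654913))) (N (nat_lit 1237) (L (nat_lit 287953303583654914)) (L (nat_lit 287953303583654915))))) (N (nat_lit 1243) (N (nat_lit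 1241) (N (nat_lit 1240) (N (nat_lit 1239) (L (nat_lit 287953303583654916)) (L (nat_lit 287953303583654917))) (L (nat_lit 287953303583720442))) (N (nat_lit 1242) (L (nat_lit 287953303583720443)) (L (nat_lit 287953303583720444)))) (N (nat_lit 1245) (N (nat_lit 1244) (L (nat_lit 287953303583720445)) (L (nat_lit 287953303583720446))) (N (nat_lit 1246) (L (nat_lit 287953303583720447)) (L (nat_lit 287953303583720448)))))) (N (nat_lit 1256) (N (nat_lit 1252) (N (nat_lit 1250) (N (nat_lit 1249) (N (nat_lit 1248) (L (nat_lit 287953303583720449)) (L (nat_lit 287953303583720450))) (L (nat_lit 287953303583720451))) (N (nat_lit 1251) (L (nat_lit 287953303583720452)) (L (nat_lit 287953303583785978)))) (N (nat_lit 1254) (N (nat_lit 1253) (L (nat_lit 287953303583785979)) (L (nat_lit 287953303583785980))) (N (nat_lit 1255) (L (nat_lit 287953303583785981)) (L (nat_lit 287953303583785982))))) (N (nat_lit 1261) (N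 (nat_lit 1259) (N (nat_lit 1258) (N (nat_lit 1257) (L (nat_lit 287953303583785983)) (L (nat_lit 287953303583785984))) (L (nat_lit 287953303583785985))) (N (nat_lit 1260) (L (nat_lit 287953303583785986)) (L (nat_lit 287953303583785987)))) (N (nat_lit 1263) (N (nat_lit 1262) (L (nat_lit 287953303583851514)) (L (nat_lit 287953303583851515))) (N (nat_lit 1264) (L (nat_lit 287953303583851516)) (L (nat_lit 287953303583851517)))))))
def pt17 : RA := N (nat_lit 1302) (N (nat_lit 1284) (N (nat_lit 1275) (N (nat_lit 1270) (N (nat_lit 1268) (N (nat_lit 1267) (N (nat_lit 1266) (L (nat_lit 287953303583851518)) (L (nat_lit 287953303583851519))) (L (nat_lit 287953303583851520))) (N (nat_lit 1269) (L (nat_lit 287953303583851521)) (L (nat_lit 287953303583851522)))) (N (nat_lit 1273) (N (nat_lit 1272) (N (nat_lit 1271) (L (nat_lit 287953303583917050)) (L (nat_lit 287953303583917051))) (L (nat_lit 287953303583917052)))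 (N (nat_lit 1274) (L (nat_lit 287953303583917053)) (L (nat_lit 287953303583917054))))) (N (nat_lit 1280) (N (nat_lit 1278) (N (nat_lit 1277) (N (nat_lit 1276) (L (nat_lit 287953303583917055)) (L (nat_lit 287953303583917056))) (L (nat_lit 287953303583917057))) (N (nat_lit 1279) (L (nat_lit 287953303583982586)) (L (nat_lit 287953303583982587)))) (N (nat_lit 1282) (N (nat_lit 1281) (L (nat_lit 287953303583982588)) (L (nat_lit 287953303583982589))) (N (nat_lit 1283) (L (nat_lit 287953303583982590)) (L (nat_lit 287953303583982591)))))) (N (nat_lit 1293) (N (nat_lit 1289) (N (nat_lit 1287) (N (nat_lit 1286) (N (nat_lit 1285) (L (nat_lit 287953303583982592)) (L (nat_lit 287953303584048124))) (L (nat_lit 287953303584048125))) (N (nat_lit 1288) (L (nat_lit 287953307878228993)) (L (nat_lit 287953307878228994)))) (N (nat_lit 1291) (N (nat_lit 1290) (L (nat_lit 287953307878228995)) (L (nat_lit 287953307878294527)))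 (N (nat_lit 1292) (L (nat_lit 287953307878294528)) (L (nat_lit 287953307878294529))))) (N (nat_lit 1298) (N (nat_lit 1296) (N (nat_lit 1295) (N (nat_lit 1294) (L (nat_lit 287953307878294530)) (L (nat_lit 287953307878294531))) (L (nat_lit 287953307878294532))) (N (nat_lit 1297) (L (nat_lit 287953307878294533)) (L (nat_lit 287953307878360061)))) (N (nat_lit 1300) (N (nat_lit 1299) (L (nat_lit 287953307878360062)) (L (nat_lit 287953307878360063))) (N (nat_lit 1301) (L (nat_lit 287953307878360064)) (L (nat_lit 287953307878360065))))))) (N (nat_lit 1321) (N (nat_lit 1312) (N (nat_lit 1307) (N (nat_lit 1305) (N (nat_lit 1304) (N (nat_lit 1303) (L (nat_lit 287953307878360066)) (L (nat_lit 287953307878360067))) (L (nat_lit 287953307878360068))) (N (nat_lit 1306) (L (nat_lit 287953307878360069)) (L (nat_lit 287953307878360070)))) (N (nat_lit 1310) (N (nat_lit 1309) (N (nat_lit 1308) (L (nat_lit 287953307878425596))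 (L (nat_lit 287953307878425597))) (L (nat_lit 287953307878425598))) (N (nat_lit 1311) (L (nat_lit 287953307878425599)) (L (nat_lit 287953307878425600))))) (N (nat_lit 1317) (N (nat_lit 1315) (N (nat_lit 1314) (N (nat_lit 1313) (L (nat_lit 287953307878425601)) (L (nat_lit 287953307878425602))) (L (nat_lit 287953307878425603))) (N (nat_lit 1316) (L (nat_lit 287953307878425604)) (L (nat_lit 287953307878425605)))) (N (nat_lit 1319) (N (nat_lit 1318) (L (nat_lit 287953307878491131)) (L (nat_lit 287953307878491132))) (N (nat_lit 1320) (L (nat_lit 287953307878491133)) (L (nat_lit 287953307878491134)))))) (N (nat_lit 1330) (N (nat_lit 1326) (N (nat_lit 1324) (N (nat_lit 1323) (N (nat_lit 1322) (L (nat_lit 287953307878491135)) (L (nat_lit 287953307878491136))) (L (nat_lit 287953307878491137))) (N (nat_lit 1325) (L (nat_lit 287953307878491138)) (L (nat_lit 287953307878491139)))) (N (nat_lit 1328) (N (nat_lit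 1327) (L (nat_lit 287953307878491140)) (L (nat_lit 287953307878556667))) (N (nat_lit 1329) (L (nat_lit 287953307878556668)) (L (nat_lit 287953307878556669))))) (N (nat_lit 1335) (N (nat_lit 1333) (N (nat_lit 1332) (N (nat_lit 1331) (L (nat_lit 287953307878556670)) (L (nat_lit 287953307878556671))) (L (nat_lit 287953307878556672))) (N (nat_lit 1334) (L (nat_lit 287953307878556673)) (L (nat_lit 287953307878556674)))) (N (nat_lit 1337) (N (nat_lit 1336) (L (nat_lit 287953307878556675)) (L (nat_lit 287953307878556676))) (N (nat_lit 1338) (L (nat_lit 287953307878556677)) (L (nat_lit 287953307878622202)))))))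
def pt18 : RA := N (nat_lit 1377) (N (nat_lit 1358) (N (nat_lit 1349) (N (nat_lit 1344) (N (nat_lit 1342) (N (nat_lit 1341) (N (nat_lit 1340) (L (nat_lit 287953307878622203)) (L (nat_lit 287953307878622204))) (L (nat_lit 287953307878622205))) (N (nat_lit 1343) (L (nat_lit 287953307878622206)) (L (nat_lit 287953307878622207)))) (N (nat_lit 1347) (N (nat_lit 1346) (N (nat_lit 1345) (L (nat_lit 287953307878622208)) (L (nat_lit 287953307878622209))) (L (nat_lit 287953307878622210))) (N (nat_lit 1348) (L (nat_lit 287953307878622211)) (L (nat_lit 287953307878622212))))) (N (nat_lit 1354) (N (nat_lit 1352) (N (nat_lit 1351) (N (nat_lit 1350) (L (nat_lit 287953307878687738)) (L (nat_lit 287953307878687739))) (L (nat_lit 287953307878687740))) (N (nat_lit 1353) (L (nat_lit 287953307878687741)) (L (nat_lit 287953307878687742)))) (N (nat_lit 1356) (N (nat_lit 1355) (L (nat_lit 287953307878687743)) (L (nat_lit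 287953307878687744))) (N (nat_lit 1357) (L (nat_lit 287953307878687745)) (L (nat_lit 287953307878687746)))))) (N (nat_lit 1368) (N (nat_lit 1363) (N (nat_lit 1361) (N (nat_lit 1360) (N (nat_lit 1359) (L (nat_lit 287953307878687747)) (L (nat_lit 287953307878753274))) (L (nat_lit 287953307878753275))) (N (nat_lit 1362) (L (nat_lit 287953307878753276)) (L (nat_lit 287953307878753277)))) (N (nat_lit 1366) (N (nat_lit 1365) (N (nat_lit 1364) (L (nat_lit 287953307878753278)) (L (nat_lit 287953307878753279))) (L (nat_lit 287953307878753280))) (N (nat_lit 1367) (L (nat_lit 287953307878753281)) (L (nat_lit 287953307878753282))))) (N (nat_lit 1373) (N (nat_lit 1371) (N (nat_lit 1370) (N (nat_lit 1369) (L (nat_lit 287953307878818810)) (L (nat_lit 287953307878818811))) (L (nat_lit 287953307878818812))) (N (nat_lit 1372) (L (nat_lit 287953307878818813)) (L (nat_lit 287953307878818814)))) (N (nat_lit 1375) (N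 (nat_lit 1374) (L (nat_lit 287953307878818815)) (L (nat_lit 287953307878818816))) (N (nat_lit 1376) (L (nat_lit 287953307878818817)) (L (nat_lit 287953307878884347))))))) (N (nat_lit 1396) (N (nat_lit 1387) (N (nat_lit 1382) (N (nat_lit 1380) (N (nat_lit 1379) (N (nat_lit 1378) (L (nat_lit 287953307878884348)) (L (nat_lit 287953307878884349))) (L (nat_lit 287953307878884350))) (N (nat_lit 1381) (L (nat_lit 287953307878884351)) (L (nat_lit 287953307878884352)))) (N (nat_lit 1385) (N (nat_lit 1384) (N (nat_lit 1383) (L (nat_lit 287953307878949883)) (L (nat_lit 287953307878949884))) (L (nat_lit 287953307878949886))) (N (nat_lit 1386) (L (nat_lit 287953312173261824)) (L (nat_lit 287953312173261827))))) (N (nat_lit 1392) (N (nat_lit 1390) (N (nat_lit 1389) (N (nat_lit 1388) (L (nat_lit 287953312173327361)) (L (nat_lit 287953312173327362))) (L (nat_lit 287953312173327363))) (N (nat_lit 1391) (L (nat_lit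 287953312173392894)) (L (nat_lit 287953312173392895)))) (N (nat_lit 1394) (N (nat_lit 1393) (L (nat_lit 287953312173392897)) (L (nat_lit 287953312173392898))) (N (nat_lit 1395) (L (nat_lit 287953312173392899)) (L (nat_lit 287953312173392900)))))) (N (nat_lit 1405) (N (nat_lit 1401) (N (nat_lit 1399) (N (nat_lit 1398) (N (nat_lit 1397) (L (nat_lit 287953312173458432)) (L (nat_lit 287953312173458433))) (L (nat_lit 287953312173458434))) (N (nat_lit 1400) (L (nat_lit 287953312173523965)) (L (nat_lit 287953312173523967)))) (N (nat_lit 1403) (N (nat_lit 1402) (L (nat_lit 287953312173523968)) (L (nat_lit 287953312173523969))) (N (nat_lit 1404) (L (nat_lit 287953312173523971)) (L (nat_lit 287953312173589502))))) (N (nat_lit 1410) (N (nat_lit 1408) (N (nat_lit 1407) (N (nat_lit 1406) (L (nat_lit 287953312173589503)) (L (nat_lit 287953312173589504))) (L (nat_lit 287953312173589505))) (N (nat_lit 1409) (L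 (nat_lit 287953312173655038)) (L (nat_lit 287953312173655039)))) (N (nat_lit 1412) (N (nat_lit 1411) (L (nat_lit 287953312173655040)) (L (nat_lit 287953312173655042))) (N (nat_lit 1413) (L (nat_lit 287953312173720574)) (L (nat_lit 287953312173786110)))))))
def pt19 : RA := N (nat_lit 1451) (N (nat_lit 1433) (N (nat_lit 1424) (N (nat_lit 1419) (N (nat_lit 1417) (N (nat_lit 1416) (N (nat_lit 1415) (L (nat_lit 287953316468294658)) (L (nat_lit 287953316468360190))) (L (nat_lit 287953316468360191))) (N (nat_lit 1418) (L (nat_lit 287953316468360193)) (L (nat_lit 287953316468360194)))) (N (nat_lit 1422) (N (nat_lit 1421) (N (nat_lit 1420) (L (nat_lit 287953316468425728)) (L (nat_lit 287953316468491261))) (L (nat_lit 287953316468491264))) (N (nat_lit 1423) (L (nat_lit 287953316468491266)) (L (nat_lit 287953316468556798))))) (N (nat_lit 1429) (N (nat_lit 1427) (N (nat_lit 1426) (N (nat_lit 1425) (L (nat_lit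 287953316468556799)) (L (nat_lit 287953316468622334))) (L (nat_lit 287953316468622335))) (N (nat_lit 1428) (L (nat_lit 287953316468622336)) (L (nat_lit 288234757085529091)))) (N (nat_lit 1431) (N (nat_lit 1430) (L (nat_lit 288234761380168708)) (L (nat_lit 288234761380299778))) (N (nat_lit 1432) (L (nat_lit 288234761380299779)) (L (nat_lit 288234761380365312)))))) (N (nat_lit 1442) (N (nat_lit 1438) (N (nat_lit 1436) (N (nat_lit 1435) (N (nat_lit 1434) (L (nat_lit 288234761380365313)) (L (nat_lit 288234761380365315))) (L (nat_lit 288234761380365316))) (N (nat_lit 1437) (L (nat_lit 288234761380430850)) (L (nat_lit 288234761380430851)))) (N (nat_lit 1440) (N (nat_lit 1439) (L (nat_lit 288234761380430852)) (L (nat_lit 288234761380496385))) (N (nat_lit 1441) (L (nat_lit 288234761380496387)) (L (nat_lit 288234761380561922))))) (N (nat_lit 1447) (N (nat_lit 1445) (N (nat_lit 1444) (N (nat_lit 1443) (L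 (nat_lit 288234765675136004)) (L (nat_lit 288234765675267072))) (L (nat_lit 288234765675267074))) (N (nat_lit 1446) (L (nat_lit 288234765675267075)) (L (nat_lit 288234765675267076)))) (N (nat_lit 1449) (N (nat_lit 1448) (L (nat_lit 288234765675332606)) (L (nat_lit 288234765675332607))) (N (nat_lit 1450) (L (nat_lit 288234765675332608)) (L (nat_lit 288234765675332609))))))) (N (nat_lit 1470) (N (nat_lit 1461) (N (nat_lit 1456) (N (nat_lit 1454) (N (nat_lit 1453) (N (nat_lit 1452) (L (nat_lit 288234765675332610)) (L (nat_lit 288234765675332611))) (L (nat_lit 288234765675332612))) (N (nat_lit 1455) (L (nat_lit 288234765675398142)) (L (nat_lit 288234765675398143)))) (N (nat_lit 1459) (N (nat_lit 1458) (N (nat_lit 1457) (L (nat_lit 288234765675398144)) (L (nat_lit 288234765675398145))) (L (nat_lit 288234765675398146))) (N (nat_lit 1460) (L (nat_lit 288234765675398147)) (L (nat_lit 288234765675398148)))))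 (N (nat_lit 1466) (N (nat_lit 1464) (N (nat_lit 1463) (N (nat_lit 1462) (L (nat_lit 288234765675463678)) (L (nat_lit 288234765675463679))) (L (nat_lit 288234765675463680))) (N (nat_lit 1465) (L (nat_lit 288234765675463681)) (L (nat_lit 288234765675463683)))) (N (nat_lit 1468) (N (nat_lit 1467) (L (nat_lit 288234765675463684)) (L (nat_lit 288234765675529214))) (N (nat_lit 1469) (L (nat_lit 288234765675529216)) (L (nat_lit 288234765675529218)))))) (N (nat_lit 1479) (N (nat_lit 1475) (N (nat_lit 1473) (N (nat_lit 1472) (N (nat_lit 1471) (L (nat_lit 288234765675594749)) (L (nat_lit 288234765675594750))) (L (nat_lit 288234765675594751))) (N (nat_lit 1474) (L (nat_lit 288234765675594752)) (L (nat_lit 288234765675594754)))) (N (nat_lit 1477) (N (nat_lit 1476) (L (nat_lit 288234765675660285)) (L (nat_lit 288234765675660286))) (N (nat_lit 1478) (L (nat_lit 288234769969972228)) (L (nat_lit 288234769969972229)))))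 (N (nat_lit 1484) (N (nat_lit 1482) (N (nat_lit 1481) (N (nat_lit 1480) (L (nat_lit 288234769969972231)) (L (nat_lit 288234769970037761))) (L (nat_lit 288234769970037762))) (N (nat_lit 1483) (L (nat_lit 288234769970037763)) (L (nat_lit 288234769970037764)))) (N (nat_lit 1486) (N (nat_lit 1485) (L (nat_lit 288234769970037765)) (L (nat_lit 288234769970037766))) (N (nat_lit 1487) (L (nat_lit 288234769970103295)) (L (nat_lit 288234769970103296)))))))
def pt20 : RA := N (nat_lit 1526) (N (nat_lit 1507) (N (nat_lit 1498) (N (nat_lit 1493) (N (nat_lit 1491) (N (nat_lit 1490) (N (nat_lit 1489) (L (nat_lit 288234769970103297)) (L (nat_lit 288234769970103298))) (L (nat_lit 288234769970103299))) (N (nat_lit 1492) (L (nat_lit 288234769970103300)) (L (nat_lit 288234769970103301)))) (N (nat_lit 1496) (N (nat_lit 1495) (N (nat_lit 1494) (L (nat_lit 288234769970103302)) (L (nat_lit 288234769970103303))) (L (nat_lit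 288234769970103304))) (N (nat_lit 1497) (L (nat_lit 288234769970168831)) (L (nat_lit 288234769970168832))))) (N (nat_lit 1503) (N (nat_lit 1501) (N (nat_lit 1500) (N (nat_lit 1499) (L (nat_lit 288234769970168833)) (L (nat_lit 288234769970168834))) (L (nat_lit 288234769970168835))) (N (nat_lit 1502) (L (nat_lit 288234769970168836)) (L (nat_lit 288234769970168837)))) (N (nat_lit 1505) (N (nat_lit 1504) (L (nat_lit 288234769970168838)) (L (nat_lit 288234769970168839))) (N (nat_lit 1506) (L (nat_lit 288234769970168840)) (L (nat_lit 288234769970234366)))))) (N (nat_lit 1517) (N (nat_lit 1512) (N (nat_lit 1510) (N (nat_lit 1509) (N (nat_lit 1508) (L (nat_lit 288234769970234367)) (L (nat_lit 288234769970234368))) (L (nat_lit 288234769970234369))) (N (nat_lit 1511) (L (nat_lit 288234769970234370)) (L (nat_lit 288234769970234371)))) (N (nat_lit 1515) (N (nat_lit 1514) (N (nat_lit 1513) (L (nat_lit 288234769970234372))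 (L (nat_lit 288234769970234373))) (L (nat_lit 288234769970234374))) (N (nat_lit 1516) (L (nat_lit 288234769970234375)) (L (nat_lit 288234769970299901))))) (N (nat_lit 1522) (N (nat_lit 1520) (N (nat_lit 1519) (N (nat_lit 1518) (L (nat_lit 288234769970299902)) (L (nat_lit 288234769970299903))) (L (nat_lit 288234769970299904))) (N (nat_lit 1521) (L (nat_lit 288234769970299905)) (L (nat_lit 288234769970299906)))) (N (nat_lit 1524) (N (nat_lit 1523) (L (nat_lit 288234769970299907)) (L (nat_lit 288234769970299908))) (N (nat_lit 1525) (L (nat_lit 288234769970299909)) (L (nat_lit 288234769970299910))))))) (N (nat_lit 1545) (N (nat_lit 1536) (N (nat_lit 1531) (N (nat_lit 1529) (N (nat_lit 1528) (N (nat_lit 1527) (L (nat_lit 288234769970299911)) (L (nat_lit 288234769970365437))) (L (nat_lit 288234769970365438))) (N (nat_lit 1530) (L (nat_lit 288234769970365439)) (L (nat_lit 288234769970365440)))) (N (nat_lit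 1534) (N (nat_lit 1533) (N (nat_lit 1532) (L (nat_lit 288234769970365441)) (L (nat_lit 288234769970365442))) (L (nat_lit 288234769970365443))) (N (nat_lit 1535) (L (nat_lit 288234769970365444)) (L (nat_lit 288234769970365445))))) (N (nat_lit 1541) (N (nat_lit 1539) (N (nat_lit 1538) (N (nat_lit 1537) (L (nat_lit 288234769970365446)) (L (nat_lit 288234769970430973))) (L (nat_lit 288234769970430974))) (N (nat_lit 1540) (L (nat_lit 288234769970430975)) (L (nat_lit 288234769970430976)))) (N (nat_lit 1543) (N (nat_lit 1542) (L (nat_lit 288234769970430977)) (L (nat_lit 288234769970430978))) (N (nat_lit 1544) (L (nat_lit 288234769970430979)) (L (nat_lit 288234769970430980)))))) (N (nat_lit 1554) (N (nat_lit 1550) (N (nat_lit 1548) (N (nat_lit 1547) (N (nat_lit 1546) (L (nat_lit 288234769970430981)) (L (nat_lit 288234769970430982))) (L (nat_lit 288234769970496508))) (N (nat_lit 1549) (L (nat_lit 288234769970496509))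 (L (nat_lit 288234769970496510)))) (N (nat_lit 1552) (N (nat_lit 1551) (L (nat_lit 288234769970496511)) (L (nat_lit 288234769970496512))) (N (nat_lit 1553) (L (nat_lit 288234769970496513)) (L (nat_lit 288234769970496514))))) (N (nat_lit 1559) (N (nat_lit 1557) (N (nat_lit 1556) (N (nat_lit 1555) (L (nat_lit 288234769970496515)) (L (nat_lit 288234769970496516))) (L (nat_lit 288234769970562044))) (N (nat_lit 1558) (L (nat_lit 288234769970562045)) (L (nat_lit 288234769970562046)))) (N (nat_lit 1561) (N (nat_lit 1560) (L (nat_lit 288234769970562047)) (L (nat_lit 288234769970562048))) (N (nat_lit 1562) (L (nat_lit 288234769970562049)) (L (nat_lit 288234769970562050)))))))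
def pt21 : RA := N (nat_lit 1600) (N (nat_lit 1582) (N (nat_lit 1573) (N (nat_lit 1568) (N (nat_lit 1566) (N (nat_lit 1565) (N (nat_lit 1564) (L (nat_lit 288234769970562051)) (L (nat_lit 288234769970562052))) (L (nat_lit 288234769970562053))) (N (nat_lit 1567) (L (nat_lit 288234769970627580)) (L (nat_lit 288234769970627581)))) (N (nat_lit 1571) (N (nat_lit 1570) (N (nat_lit 1569) (L (nat_lit 288234769970627582)) (L (nat_lit 288234769970627583))) (L (nat_lit 288234769970627584))) (N (nat_lit 1572) (L (nat_lit 288234769970627585)) (L (nat_lit 288234769970627586))))) (N (nat_lit 1578) (N (nat_lit 1576) (N (nat_lit 1575) (N (nat_lit 1574) (L (nat_lit 288234769970627587)) (L (nat_lit 288234769970693118))) (L (nat_lit 288234769970693119))) (N (nat_lit 1577) (L (nat_lit 288234769970693120)) (L (nat_lit 288234769970693121)))) (N (nat_lit 1580) (N (nat_lit 1579) (L (nat_lit 288234769970693122)) (L (nat_lit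 288234774264939522))) (N (nat_lit 1581) (L (nat_lit 288234774264939523)) (L (nat_lit 288234774264939524)))))) (N (nat_lit 1591) (N (nat_lit 1587) (N (nat_lit 1585) (N (nat_lit 1584) (N (nat_lit 1583) (L (nat_lit 288234774264939525)) (L (nat_lit 288234774264939526))) (L (nat_lit 288234774264939527))) (N (nat_lit 1586) (L (nat_lit 288234774265005060)) (L (nat_lit 288234774265005062)))) (N (nat_lit 1589) (N (nat_lit 1588) (L (nat_lit 288234774265070592)) (L (nat_lit 288234774265070593))) (N (nat_lit 1590) (L (nat_lit 288234774265070594)) (L (nat_lit 288234774265070595))))) (N (nat_lit 1596) (N (nat_lit 1594) (N (nat_lit 1593) (N (nat_lit 1592) (L (nat_lit 288234774265070596)) (L (nat_lit 288234774265070597))) (L (nat_lit 288234774265070598))) (N (nat_lit 1595) (L (nat_lit 288234774265070599)) (L (nat_lit 288234774265136125)))) (N (nat_lit 1598) (N (nat_lit 1597) (L (nat_lit 288234774265136129)) (L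 (nat_lit 288234774265136130))) (N (nat_lit 1599) (L (nat_lit 288234774265136132)) (L (nat_lit 288234774265136134))))))) (N (nat_lit 1619) (N (nat_lit 1610) (N (nat_lit 1605) (N (nat_lit 1603) (N (nat_lit 1602) (N (nat_lit 1601) (L (nat_lit 288234774265136135)) (L (nat_lit 288234774265201661))) (L (nat_lit 288234774265201662))) (N (nat_lit 1604) (L (nat_lit 288234774265201663)) (L (nat_lit 288234774265201664)))) (N (nat_lit 1608) (N (nat_lit 1607) (N (nat_lit 1606) (L (nat_lit 288234774265201665)) (L (nat_lit 288234774265201666))) (L (nat_lit 288234774265201667))) (N (nat_lit 1609) (L (nat_lit 288234774265201668)) (L (nat_lit 288234774265201669))))) (N (nat_lit 1615) (N (nat_lit 1613) (N (nat_lit 1612) (N (nat_lit 1611) (L (nat_lit 288234774265201670)) (L (nat_lit 288234774265267196))) (L (nat_lit 288234774265267197))) (N (nat_lit 1614) (L (nat_lit 288234774265267198)) (L (nat_lit 288234774265267199))))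 (N (nat_lit 1617) (N (nat_lit 1616) (L (nat_lit 288234774265267200)) (L (nat_lit 288234774265267201))) (N (nat_lit 1618) (L (nat_lit 288234774265267202)) (L (nat_lit 288234774265267203)))))) (N (nat_lit 1628) (N (nat_lit 1624) (N (nat_lit 1622) (N (nat_lit 1621) (N (nat_lit 1620) (L (nat_lit 288234774265267204)) (L (nat_lit 288234774265267205))) (L (nat_lit 288234774265267206))) (N (nat_lit 1623) (L (nat_lit 288234774265332732)) (L (nat_lit 288234774265332733)))) (N (nat_lit 1626) (N (nat_lit 1625) (L (nat_lit 288234774265332734)) (L (nat_lit 288234774265332735))) (N (nat_lit 1627) (L (nat_lit 288234774265332737)) (L (nat_lit 288234774265332738))))) (N (nat_lit 1633) (N (nat_lit 1631) (N (nat_lit 1630) (N (nat_lit 1629) (L (nat_lit 288234774265332739)) (L (nat_lit 288234774265332740))) (L (nat_lit 288234774265332741))) (N (nat_lit 1632) (L (nat_lit 288234774265332742)) (L (nat_lit 288234774265398268))))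 (N (nat_lit 1635) (N (nat_lit 1634) (L (nat_lit 288234774265398269)) (L (nat_lit 288234774265398270))) (N (nat_lit 1636) (L (nat_lit 288234774265398271)) (L (nat_lit 288234774265398272)))))))
def pt22 : RA := N (nat_lit 1674) (N (nat_lit 1656) (N (nat_lit 1647) (N (nat_lit 1642) (N (nat_lit 1640) (N (nat_lit 1639) (N (nat_lit 1638) (L (nat_lit 288234774265398273)) (L (nat_lit 288234774265398274))) (L (nat_lit 288234774265398275))) (N (nat_lit 1641) (L (nat_lit 288234774265398276)) (L (nat_lit 288234774265463804)))) (N (nat_lit 1645) (N (nat_lit 1644) (N (nat_lit 1643) (L (nat_lit 288234774265463805)) (L (nat_lit 288234774265463806))) (L (nat_lit 288234774265463807))) (N (nat_lit 1646) (L (nat_lit 288234774265463809)) (L (nat_lit 288234774265463810))))) (N (nat_lit 1652) (N (nat_lit 1650) (N (nat_lit 1649) (N (nat_lit 1648) (L (nat_lit 288234774265463811)) (L (nat_lit 288234774265529339))) (L (nat_lit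 288234774265529340))) (N (nat_lit 1651) (L (nat_lit 288234774265529341)) (L (nat_lit 288234774265529342)))) (N (nat_lit 1654) (N (nat_lit 1653) (L (nat_lit 288234774265529343)) (L (nat_lit 288234774265529345))) (N (nat_lit 1655) (L (nat_lit 288234774265529346)) (L (nat_lit 288234774265529347)))))) (N (nat_lit 1665) (N (nat_lit 1661) (N (nat_lit 1659) (N (nat_lit 1658) (N (nat_lit 1657) (L (nat_lit 288234774265529348)) (L (nat_lit 288234774265594876))) (L (nat_lit 288234774265594877))) (N (nat_lit 1660) (L (nat_lit 288234774265594878)) (L (nat_lit 288234774265594879)))) (N (nat_lit 1663) (N (nat_lit 1662) (L (nat_lit 288234774265594880)) (L (nat_lit 288234774265594881))) (N (nat_lit 1664) (L (nat_lit 288234774265594882)) (L (nat_lit 288234774265660412))))) (N (nat_lit 1670) (N (nat_lit 1668) (N (nat_lit 1667) (N (nat_lit 1666) (L (nat_lit 288234774265660413)) (L (nat_lit 288234774265660414))) (L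 (nat_lit 288234774265660418))) (N (nat_lit 1669) (L (nat_lit 288234774265725949)) (L (nat_lit 288234778559906819)))) (N (nat_lit 1672) (N (nat_lit 1671) (L (nat_lit 288234778559906820)) (L (nat_lit 288234778559906821))) (N (nat_lit 1673) (L (nat_lit 288234778559972352)) (L (nat_lit 288234778559972353))))))) (N (nat_lit 1693) (N (nat_lit 1684) (N (nat_lit 1679) (N (nat_lit 1677) (N (nat_lit 1676) (N (nat_lit 1675) (L (nat_lit 288234778559972354)) (L (nat_lit 288234778559972355))) (L (nat_lit 288234778559972356))) (N (nat_lit 1678) (L (nat_lit 288234778559972357)) (L (nat_lit 288234778559972358)))) (N (nat_lit 1682) (N (nat_lit 1681) (N (nat_lit 1680) (L (nat_lit 288234778560037887)) (L (nat_lit 288234778560037888))) (L (nat_lit 288234778560037889))) (N (nat_lit 1683) (L (nat_lit 288234778560037890)) (L (nat_lit 288234778560037891))))) (N (nat_lit 1689) (N (nat_lit 1687) (N (nat_lit 1686) (N (nat_lit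 1685) (L (nat_lit 288234778560037892)) (L (nat_lit 288234778560037893))) (L (nat_lit 288234778560037894))) (N (nat_lit 1688) (L (nat_lit 288234778560103422)) (L (nat_lit 288234778560103423)))) (N (nat_lit 1691) (N (nat_lit 1690) (L (nat_lit 288234778560103424)) (L (nat_lit 288234778560103425))) (N (nat_lit 1692) (L (nat_lit 288234778560103426)) (L (nat_lit 288234778560103427)))))) (N (nat_lit 1702) (N (nat_lit 1698) (N (nat_lit 1696) (N (nat_lit 1695) (N (nat_lit 1694) (L (nat_lit 288234778560103428)) (L (nat_lit 288234778560103429))) (L (nat_lit 288234778560103430))) (N (nat_lit 1697) (L (nat_lit 288234778560168956)) (L (nat_lit 288234778560168957)))) (N (nat_lit 1700) (N (nat_lit 1699) (L (nat_lit 288234778560168958)) (L (nat_lit 288234778560168959))) (N (nat_lit 1701) (L (nat_lit 288234778560168960)) (L (nat_lit 288234778560168961))))) (N (nat_lit 1707) (N (nat_lit 1705) (N (nat_lit 1704) (N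 (nat_lit 1703) (L (nat_lit 288234778560168962)) (L (nat_lit 288234778560168963))) (L (nat_lit 288234778560168964))) (N (nat_lit 1706) (L (nat_lit 288234778560168965)) (L (nat_lit 288234778560168966)))) (N (nat_lit 1709) (N (nat_lit 1708) (L (nat_lit 288234778560234492)) (L (nat_lit 288234778560234493))) (N (nat_lit 1710) (L (nat_lit 288234778560234494)) (L (nat_lit 288234778560234495)))))))
def pt23 : RA := N (nat_lit 1748) (N (nat_lit 1730) (N (nat_lit 1721) (N (nat_lit 1716) (N (nat_lit 1714) (N (nat_lit 1713) (N (nat_lit 1712) (L (nat_lit 288234778560234496)) (L (nat_lit 288234778560234497))) (L (nat_lit 288234778560234498))) (N (nat_lit 1715) (L (nat_lit 288234778560234499)) (L (nat_lit 288234778560234500)))) (N (nat_lit 1719) (N (nat_lit 1718) (N (nat_lit 1717) (L (nat_lit 288234778560234501)) (L (nat_lit 288234778560234502))) (L (nat_lit 288234778560300027))) (N (nat_lit 1720) (L (nat_lit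 288234778560300028)) (L (nat_lit 288234778560300029))))) (N (nat_lit 1726) (N (nat_lit 1724) (N (nat_lit 1723) (N (nat_lit 1722) (L (nat_lit 288234778560300030)) (L (nat_lit 288234778560300031))) (L (nat_lit 288234778560300032))) (N (nat_lit 1725) (L (nat_lit 288234778560300033)) (L (nat_lit 288234778560300034)))) (N (nat_lit 1728) (N (nat_lit 1727) (L (nat_lit 288234778560300035)) (L (nat_lit 288234778560300036))) (N (nat_lit 1729) (L (nat_lit 288234778560300037)) (L (nat_lit 288234778560365562)))))) (N (nat_lit 1739) (N (nat_lit 1735) (N (nat_lit 1733) (N (nat_lit 1732) (N (nat_lit 1731) (L (nat_lit 288234778560365563)) (L (nat_lit 288234778560365564))) (L (nat_lit 288234778560365565))) (N (nat_lit 1734) (L (nat_lit 288234778560365566)) (L (nat_lit 288234778560365567)))) (N (nat_lit 1737) (N (nat_lit 1736) (L (nat_lit 288234778560365568)) (L (nat_lit 288234778560365569))) (N (nat_lit 1738) (L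 (nat_lit 288234778560365570)) (L (nat_lit 288234778560365571))))) (N (nat_lit 1744) (N (nat_lit 1742) (N (nat_lit 1741) (N (nat_lit 1740) (L (nat_lit 288234778560365572)) (L (nat_lit 288234778560365573))) (L (nat_lit 288234778560431100))) (N (nat_lit 1743) (L (nat_lit 288234778560431101)) (L (nat_lit 288234778560431102)))) (N (nat_lit 1746) (N (nat_lit 1745) (L (nat_lit 288234778560431103)) (L (nat_lit 288234778560431104))) (N (nat_lit 1747) (L (nat_lit 288234778560431105)) (L (nat_lit 288234778560431106))))))) (N (nat_lit 1767) (N (nat_lit 1758) (N (nat_lit 1753) (N (nat_lit 1751) (N (nat_lit 1750) (N (nat_lit 1749) (L (nat_lit 288234778560431107)) (L (nat_lit 288234778560496635))) (L (nat_lit 288234778560496636))) (N (nat_lit 1752) (L (nat_lit 288234778560496637)) (L (nat_lit 288234778560496638)))) (N (nat_lit 1756) (N (nat_lit 1755) (N (nat_lit 1754) (L (nat_lit 288234778560496639)) (L (nat_lit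 288234778560496640))) (L (nat_lit 288234778560496641))) (N (nat_lit 1757) (L (nat_lit 288234778560496642)) (L (nat_lit 288234778560496643))))) (N (nat_lit 1763) (N (nat_lit 1761) (N (nat_lit 1760) (N (nat_lit 1759) (L (nat_lit 288234778560562170)) (L (nat_lit 288234778560562171))) (L (nat_lit 288234778560562172))) (N (nat_lit 1762) (L (nat_lit 288234778560562173)) (L (nat_lit 288234778560562174)))) (N (nat_lit 1765) (N (nat_lit 1764) (L (nat_lit 288234778560562175)) (L (nat_lit 288234778560562176))) (N (nat_lit 1766) (L (nat_lit 288234778560562177)) (L (nat_lit 288234778560627707)))))) (N (nat_lit 1776) (N (nat_lit 1772) (N (nat_lit 1770) (N (nat_lit 1769) (N (nat_lit 1768) (L (nat_lit 288234778560627708)) (L (nat_lit 288234778560627709))) (L (nat_lit 288234778560627710))) (N (nat_lit 1771) (L (nat_lit 288234778560627711)) (L (nat_lit 288234778560627712)))) (N (nat_lit 1774) (N (nat_lit 1773) (L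 (nat_lit 288234782855005184)) (L (nat_lit 288234782855005187))) (N (nat_lit 1775) (L (nat_lit 288234782855005188)) (L (nat_lit 288234782855070720))))) (N (nat_lit 1781) (N (nat_lit 1779) (N (nat_lit 1778) (N (nat_lit 1777) (L (nat_lit 288234782855136256)) (L (nat_lit 288234782855136257))) (L (nat_lit 288234782855136258))) (N (nat_lit 1780) (L (nat_lit 288234782855136259)) (L (nat_lit 288234782855201790)))) (N (nat_lit 1783) (N (nat_lit 1782) (L (nat_lit 288234782855201791)) (L (nat_lit 288234782855201792))) (N (nat_lit 1784) (L (nat_lit 288234782855201793)) (L (nat_lit 288234782855201794)))))))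
def pt24 : RA := N (nat_lit 1823) (N (nat_lit 1804) (N (nat_lit 1795) (N (nat_lit 1790) (N (nat_lit 1788) (N (nat_lit 1787) (N (nat_lit 1786) (L (nat_lit 288234782855201795)) (L (nat_lit 288234782855201796))) (L (nat_lit 288234782855267326))) (N (nat_lit 1789) (L (nat_lit 288234782855267327)) (L (nat_lit 288234782855267328)))) (N (nat_lit 1793) (N (nat_lit 1792) (N (nat_lit 1791) (L (nat_lit 288234782855267329)) (L (nat_lit 288234782855267330))) (L (nat_lit 288234782855267331))) (N (nat_lit 1794) (L (nat_lit 288234782855267332)) (L (nat_lit 288234782855332861))))) (N (nat_lit 1800) (N (nat_lit 1798) (N (nat_lit 1797) (N (nat_lit 1796) (L (nat_lit 288234782855332862)) (L (nat_lit 288234782855332863))) (L (nat_lit 288234782855332864))) (N (nat_lit 1799) (L (nat_lit 288234782855332865)) (L (nat_lit 288234782855332866)))) (N (nat_lit 1802) (N (nat_lit 1801) (L (nat_lit 288234782855332867)) (L (nat_lit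 288234782855398397))) (N (nat_lit 1803) (L (nat_lit 288234782855398398)) (L (nat_lit 288234782855398399)))))) (N (nat_lit 1814) (N (nat_lit 1809) (N (nat_lit 1807) (N (nat_lit 1806) (N (nat_lit 1805) (L (nat_lit 288234782855398400)) (L (nat_lit 288234782855398401))) (L (nat_lit 288234782855398402))) (N (nat_lit 1808) (L (nat_lit 288234782855463932)) (L (nat_lit 288234782855463934)))) (N (nat_lit 1812) (N (nat_lit 1811) (N (nat_lit 1810) (L (nat_lit 288234782855463935)) (L (nat_lit 288234782855463936))) (L (nat_lit 288234782855463937))) (N (nat_lit 1813) (L (nat_lit 288234782855529469)) (L (nat_lit 288234782855529470))))) (N (nat_lit 1819) (N (nat_lit 1817) (N (nat_lit 1816) (N (nat_lit 1815) (L (nat_lit 288234782855529471)) (L (nat_lit 288234782855595005))) (L (nat_lit 288234782855595006))) (N (nat_lit 1818) (L (nat_lit 288234787150038017)) (L (nat_lit 288234787150103552)))) (N (nat_lit 1821) (N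 (nat_lit 1820) (L (nat_lit 288234787150103554)) (L (nat_lit 288234787150103555))) (N (nat_lit 1822) (L (nat_lit 288234787150169086)) (L (nat_lit 288234787150169088))))))) (N (nat_lit 1842) (N (nat_lit 1833) (N (nat_lit 1828) (N (nat_lit 1826) (N (nat_lit 1825) (N (nat_lit 1824) (L (nat_lit 288234787150169089)) (L (nat_lit 288234787150169091))) (L (nat_lit 288234787150169092))) (N (nat_lit 1827) (L (nat_lit 288234787150234622)) (L (nat_lit 288234787150234623)))) (N (nat_lit 1831) (N (nat_lit 1830) (N (nat_lit 1829) (L (nat_lit 288234787150234625)) (L (nat_lit 288234787150234626))) (L (nat_lit 288234787150300159))) (N (nat_lit 1832) (L (nat_lit 288234787150300160)) (L (nat_lit 288234787150300161))))) (N (nat_lit 1838) (N (nat_lit 1836) (N (nat_lit 1835) (N (nat_lit 1834) (L (nat_lit 288234787150300163)) (L (nat_lit 288234787150365693))) (L (nat_lit 288234787150365694))) (N (nat_lit 1837) (L (nat_lit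 288234787150365696)) (L (nat_lit 288234787150431228)))) (N (nat_lit 1840) (N (nat_lit 1839) (L (nat_lit 288234787150431231)) (L (nat_lit 288234787150496765))) (N (nat_lit 1841) (L (nat_lit 288234787150496766)) (L (nat_lit 288234791445070851)))))) (N (nat_lit 1851) (N (nat_lit 1847) (N (nat_lit 1845) (N (nat_lit 1844) (N (nat_lit 1843) (L (nat_lit 288234791445136384)) (L (nat_lit 288234791445201919))) (L (nat_lit 288234791445201920))) (N (nat_lit 1846) (L (nat_lit 288234791445201922)) (L (nat_lit 288234791445332989)))) (N (nat_lit 1849) (N (nat_lit 1848) (L (nat_lit 288234791445398524)) (L (nat_lit 288234795740300285))) (N (nat_lit 1850) (L (nat_lit 288516223472239621)) (L (nat_lit 288516232061846533))))) (N (nat_lit 1856) (N (nat_lit 1854) (N (nat_lit 1853) (N (nat_lit 1852) (L (nat_lit 288516232062043138)) (L (nat_lit 288516232062043139))) (L (nat_lit 288516232062108677))) (N (nat_lit 1855) (L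 (nat_lit 288516232062174209)) (L (nat_lit 288516236356813829)))) (N (nat_lit 1858) (N (nat_lit 1857) (L (nat_lit 288516236357010435)) (L (nat_lit 288516236357010436))) (N (nat_lit 1859) (L (nat_lit 288516236357075967)) (L (nat_lit 288516236357075969)))))))
def pt25 : RA := N (nat_lit 1897) (N (nat_lit 1879) (N (nat_lit 1870) (N (nat_lit 1865) (N (nat_lit 1863) (N (nat_lit 1862) (N (nat_lit 1861) (L (nat_lit 288516236357075970)) (L (nat_lit 288516236357075972))) (L (nat_lit 288516236357075973))) (N (nat_lit 1864) (L (nat_lit 288516236357141503)) (L (nat_lit 288516236357141504)))) (N (nat_lit 1868) (N (nat_lit 1867) (N (nat_lit 1866) (L (nat_lit 288516236357141505)) (L (nat_lit 288516236357141506))) (L (nat_lit 288516236357207038))) (N (nat_lit 1869) (L (nat_lit 288516236357207040)) (L (nat_lit 288516236357207043))))) (N (nat_lit 1875) (N (nat_lit 1873) (N (nat_lit 1872) (N (nat_lit 1871) (L (nat_lit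 288516236357207044)) (L (nat_lit 288516236357272574))) (L (nat_lit 288516236357272575))) (N (nat_lit 1874) (L (nat_lit 288516236357272576)) (L (nat_lit 288516236357272578)))) (N (nat_lit 1877) (N (nat_lit 1876) (L (nat_lit 288516236357338110)) (L (nat_lit 288516236357338114))) (N (nat_lit 1878) (L (nat_lit 288516240651781125)) (L (nat_lit 288516240651846659)))))) (N (nat_lit 1888) (N (nat_lit 1884) (N (nat_lit 1882) (N (nat_lit 1881) (N (nat_lit 1880) (L (nat_lit 288516240651912192)) (L (nat_lit 288516240651912193))) (L (nat_lit 288516240651912198))) (N (nat_lit 1883) (L (nat_lit 288516240651977730)) (L (nat_lit 288516240651977731)))) (N (nat_lit 1886) (N (nat_lit 1885) (L (nat_lit 288516240651977732)) (L (nat_lit 288516240652043264))) (N (nat_lit 1887) (L (nat_lit 288516240652043265)) (L (nat_lit 288516240652043266))))) (N (nat_lit 1893) (N (nat_lit 1891) (N (nat_lit 1890) (N (nat_lit 1889) (L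 (nat_lit 288516240652043269)) (L (nat_lit 288516240652108800))) (L (nat_lit 288516240652108801))) (N (nat_lit 1892) (L (nat_lit 288516240652108802)) (L (nat_lit 288516240652174336)))) (N (nat_lit 1895) (N (nat_lit 1894) (L (nat_lit 288516240652174338)) (L (nat_lit 288516240652174339))) (N (nat_lit 1896) (L (nat_lit 288516240652239871)) (L (nat_lit 288516240652239872))))))) (N (nat_lit 1916) (N (nat_lit 1907) (N (nat_lit 1902) (N (nat_lit 1900) (N (nat_lit 1899) (N (nat_lit 1898) (L (nat_lit 288516240652239874)) (L (nat_lit 288516240652305408))) (L (nat_lit 288516240652305409))) (N (nat_lit 1901) (L (nat_lit 288516240652370942)) (L (nat_lit 288516240652370943)))) (N (nat_lit 1905) (N (nat_lit 1904) (N (nat_lit 1903) (L (nat_lit 288516240652370944)) (L (nat_lit 288516244946682882))) (L (nat_lit 288516244946682883))) (N (nat_lit 1906) (L (nat_lit 288516244946682884)) (L (nat_lit 288516244946748416)))))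 (N (nat_lit 1912) (N (nat_lit 1910) (N (nat_lit 1909) (N (nat_lit 1908) (L (nat_lit 288516244946748417)) (L (nat_lit 288516244946748418))) (L (nat_lit 288516244946748420))) (N (nat_lit 1911) (L (nat_lit 288516244946748421)) (L (nat_lit 288516244946748423)))) (N (nat_lit 1914) (N (nat_lit 1913) (L (nat_lit 288516244946813951)) (L (nat_lit 288516244946813952))) (N (nat_lit 1915) (L (nat_lit 288516244946813953)) (L (nat_lit 288516244946813954)))))) (N (nat_lit 1925) (N (nat_lit 1921) (N (nat_lit 1919) (N (nat_lit 1918) (N (nat_lit 1917) (L (nat_lit 288516244946813955)) (L (nat_lit 288516244946813956))) (L (nat_lit 288516244946813957))) (N (nat_lit 1920) (L (nat_lit 288516244946813958)) (L (nat_lit 288516244946879487)))) (N (nat_lit 1923) (N (nat_lit 1922) (L (nat_lit 288516244946879488)) (L (nat_lit 288516244946879489))) (N (nat_lit 1924) (L (nat_lit 288516244946879490)) (L (nat_lit 288516244946879491)))))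 (N (nat_lit 1930) (N (nat_lit 1928) (N (nat_lit 1927) (N (nat_lit 1926) (L (nat_lit 288516244946879492)) (L (nat_lit 288516244946879493))) (L (nat_lit 288516244946879494))) (N (nat_lit 1929) (L (nat_lit 288516244946879495)) (L (nat_lit 288516244946945022)))) (N (nat_lit 1932) (N (nat_lit 1931) (L (nat_lit 288516244946945023)) (L (nat_lit 288516244946945024))) (N (nat_lit 1933) (L (nat_lit 288516244946945025)) (L (nat_lit 288516244946945026)))))))
def pt26 : RA := N (nat_lit 1971) (N (nat_lit 1953) (N (nat_lit 1944) (N (nat_lit 1939) (N (nat_lit 1937) (N (nat_lit 1936) (N (nat_lit 1935) (L (nat_lit 288516244946945027)) (L (nat_lit 288516244946945028))) (L (nat_lit 288516244947010557))) (N (nat_lit 1938) (L (nat_lit 288516244947010558)) (L (nat_lit 288516244947010559)))) (N (nat_lit 1942) (N (nat_lit 1941) (N (nat_lit 1940) (L (nat_lit 288516244947010560)) (L (nat_lit 288516244947010561))) (L (nat_lit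 288516244947010562))) (N (nat_lit 1943) (L (nat_lit 288516244947010563)) (L (nat_lit 288516244947010564))))) (N (nat_lit 1949) (N (nat_lit 1947) (N (nat_lit 1946) (N (nat_lit 1945) (L (nat_lit 288516244947010565)) (L (nat_lit 288516244947076094))) (L (nat_lit 288516244947076095))) (N (nat_lit 1948) (L (nat_lit 288516244947076096)) (L (nat_lit 288516244947076097)))) (N (nat_lit 1951) (N (nat_lit 1950) (L (nat_lit 288516244947076098)) (L (nat_lit 288516244947076099))) (N (nat_lit 1952) (L (nat_lit 288516244947076100)) (L (nat_lit 288516244947141629)))))) (N (nat_lit 1962) (N (nat_lit 1958) (N (nat_lit 1956) (N (nat_lit 1955) (N (nat_lit 1954) (L (nat_lit 288516244947141630)) (L (nat_lit 288516244947141631))) (L (nat_lit 288516244947141632))) (N (nat_lit 1957) (L (nat_lit 288516244947141633)) (L (nat_lit 288516244947141634)))) (N (nat_lit 1960) (N (nat_lit 1959) (L (nat_lit 288516244947141635)) (L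 (nat_lit 288516244947141636))) (N (nat_lit 1961) (L (nat_lit 288516244947141637)) (L (nat_lit 288516244947207164))))) (N (nat_lit 1967) (N (nat_lit 1965) (N (nat_lit 1964) (N (nat_lit 1963) (L (nat_lit 288516244947207165)) (L (nat_lit 288516244947207166))) (L (nat_lit 288516244947207167))) (N (nat_lit 1966) (L (nat_lit 288516244947207168)) (L (nat_lit 288516244947207169)))) (N (nat_lit 1969) (N (nat_lit 1968) (L (nat_lit 288516244947207170)) (L (nat_lit 288516244947207171))) (N (nat_lit 1970) (L (nat_lit 288516244947272700)) (L (nat_lit 288516244947272701))))))) (N (nat_lit 1990) (N (nat_lit 1981) (N (nat_lit 1976) (N (nat_lit 1974) (N (nat_lit 1973) (N (nat_lit 1972) (L (nat_lit 288516244947272702)) (L (nat_lit 288516244947272703))) (L (nat_lit 288516244947272704))) (N (nat_lit 1975) (L (nat_lit 288516244947272705)) (L (nat_lit 288516244947272706)))) (N (nat_lit 1979) (N (nat_lit 1978) (N (nat_lit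 1977) (L (nat_lit 288516244947272707)) (L (nat_lit 288516244947338237))) (L (nat_lit 288516244947338238))) (N (nat_lit 1980) (L (nat_lit 288516244947338240)) (L (nat_lit 288516249241650178))))) (N (nat_lit 1986) (N (nat_lit 1984) (N (nat_lit 1983) (N (nat_lit 1982) (L (nat_lit 288516249241650181)) (L (nat_lit 288516249241715712))) (L (nat_lit 288516249241715713))) (N (nat_lit 1985) (L (nat_lit 288516249241715715)) (L (nat_lit 288516249241715716)))) (N (nat_lit 1988) (N (nat_lit 1987) (L (nat_lit 288516249241715717)) (L (nat_lit 288516249241715719))) (N (nat_lit 1989) (L (nat_lit 288516249241781246)) (L (nat_lit 288516249241781247)))))) (N (nat_lit 1999) (N (nat_lit 1995) (N (nat_lit 1993) (N (nat_lit 1992) (N (nat_lit 1991) (L (nat_lit 288516249241781248)) (L (nat_lit 288516249241781249))) (L (nat_lit 288516249241781250))) (N (nat_lit 1994) (L (nat_lit 288516249241781251)) (L (nat_lit 288516249241781252))))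 (N (nat_lit 1997) (N (nat_lit 1996) (L (nat_lit 288516249241781254)) (L (nat_lit 288516249241846782))) (N (nat_lit 1998) (L (nat_lit 288516249241846783)) (L (nat_lit 288516249241846784))))) (N (nat_lit 2004) (N (nat_lit 2002) (N (nat_lit 2001) (N (nat_lit 2000) (L (nat_lit 288516249241846785)) (L (nat_lit 288516249241846786))) (L (nat_lit 288516249241846787))) (N (nat_lit 2003) (L (nat_lit 288516249241846788)) (L (nat_lit 288516249241846789)))) (N (nat_lit 2006) (N (nat_lit 2005) (L (nat_lit 288516249241846790)) (L (nat_lit 288516249241912318))) (N (nat_lit 2007) (L (nat_lit 288516249241912319)) (L (nat_lit 288516249241912320)))))))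
def pt27 : RA := N (nat_lit 2045) (N (nat_lit 2027) (N (nat_lit 2018) (N (nat_lit 2013) (N (nat_lit 2011) (N (nat_lit 2010) (N (nat_lit 2009) (L (nat_lit 288516249241912321)) (L (nat_lit 288516249241912322))) (L (nat_lit 288516249241912323))) (N (nat_lit 2012) (L (nat_lit 288516249241912324)) (L (nat_lit 288516249241912325)))) (N (nat_lit 2016) (N (nat_lit 2015) (N (nat_lit 2014) (L (nat_lit 288516249241977852)) (L (nat_lit 288516249241977853))) (L (nat_lit 288516249241977854))) (N (nat_lit 2017) (L (nat_lit 288516249241977855)) (L (nat_lit 288516249241977856))))) (N (nat_lit 2023) (N (nat_lit 2021) (N (nat_lit 2020) (N (nat_lit 2019) (L (nat_lit 288516249241977857)) (L (nat_lit 288516249241977858))) (L (nat_lit 288516249241977859))) (N (nat_lit 2022) (L (nat_lit 288516249241977860)) (L (nat_lit 288516249241977861)))) (N (nat_lit 2025) (N (nat_lit 2024) (L (nat_lit 288516249242043388)) (L (nat_lit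 288516249242043389))) (N (nat_lit 2026) (L (nat_lit 288516249242043390)) (L (nat_lit 288516249242043391)))))) (N (nat_lit 2036) (N (nat_lit 2032) (N (nat_lit 2030) (N (nat_lit 2029) (N (nat_lit 2028) (L (nat_lit 288516249242043392)) (L (nat_lit 288516249242043393))) (L (nat_lit 288516249242043394))) (N (nat_lit 2031) (L (nat_lit 288516249242043395)) (L (nat_lit 288516249242043396)))) (N (nat_lit 2034) (N (nat_lit 2033) (L (nat_lit 288516249242043397)) (L (nat_lit 288516249242108924))) (N (nat_lit 2035) (L (nat_lit 288516249242108925)) (L (nat_lit 288516249242108926))))) (N (nat_lit 2041) (N (nat_lit 2039) (N (nat_lit 2038) (N (nat_lit 2037) (L (nat_lit 288516249242108927)) (L (nat_lit 288516249242108928))) (L (nat_lit 288516249242108929))) (N (nat_lit 2040) (L (nat_lit 288516249242108930)) (L (nat_lit 288516249242108931)))) (N (nat_lit 2043) (N (nat_lit 2042) (L (nat_lit 288516249242174459)) (L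 (nat_lit 288516249242174460))) (N (nat_lit 2044) (L (nat_lit 288516249242174461)) (L (nat_lit 288516249242174462))))))) (N (nat_lit 2064) (N (nat_lit 2055) (N (nat_lit 2050) (N (nat_lit 2048) (N (nat_lit 2047) (N (nat_lit 2046) (L (nat_lit 288516249242174463)) (L (nat_lit 288516249242174464))) (L (nat_lit 288516249242174465))) (N (nat_lit 2049) (L (nat_lit 288516249242174467)) (L (nat_lit 288516249242239996)))) (N (nat_lit 2053) (N (nat_lit 2052) (N (nat_lit 2051) (L (nat_lit 288516249242239997)) (L (nat_lit 288516249242239998))) (L (nat_lit 288516249242239999))) (N (nat_lit 2054) (L (nat_lit 288516249242240000)) (L (nat_lit 288516249242240001))))) (N (nat_lit 2060) (N (nat_lit 2058) (N (nat_lit 2057) (N (nat_lit 2056) (L (nat_lit 288516249242240002)) (L (nat_lit 288516249242240003))) (L (nat_lit 288516249242305532))) (N (nat_lit 2059) (L (nat_lit 288516249242305533)) (L (nat_lit 288516249242305534))))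 (N (nat_lit 2062) (N (nat_lit 2061) (L (nat_lit 288516249242305535)) (L (nat_lit 288516249242305536))) (N (nat_lit 2063) (L (nat_lit 288516249242305537)) (L (nat_lit 288516249242371070)))))) (N (nat_lit 2073) (N (nat_lit 2069) (N (nat_lit 2067) (N (nat_lit 2066) (N (nat_lit 2065) (L (nat_lit 288516253536683011)) (L (nat_lit 288516253536683013))) (L (nat_lit 288516253536748544))) (N (nat_lit 2068) (L (nat_lit 288516253536748547)) (L (nat_lit 288516253536748550)))) (N (nat_lit 2071) (N (nat_lit 2070) (L (nat_lit 288516253536814081)) (L (nat_lit 288516253536814084))) (N (nat_lit 2072) (L (nat_lit 288516253536814085)) (L (nat_lit 288516253536879614))))) (N (nat_lit 2078) (N (nat_lit 2076) (N (nat_lit 2075) (N (nat_lit 2074) (L (nat_lit 288516253536879615)) (L (nat_lit 288516253536879616))) (L (nat_lit 288516253536879617))) (N (nat_lit 2077) (L (nat_lit 288516253536879618)) (L (nat_lit 288516253536879619))))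 (N (nat_lit 2080) (N (nat_lit 2079) (L (nat_lit 288516253536879620)) (L (nat_lit 288516253536879621))) (N (nat_lit 2081) (L (nat_lit 288516253536945150)) (L (nat_lit 288516253536945151)))))))
def pt28 : RA := N (nat_lit 2120) (N (nat_lit 2101) (N (nat_lit 2092) (N (nat_lit 2087) (N (nat_lit 2085) (N (nat_lit 2084) (N (nat_lit 2083) (L (nat_lit 288516253536945153)) (L (nat_lit 288516253536945154))) (L (nat_lit 288516253536945155))) (N (nat_lit 2086) (L (nat_lit 288516253536945156)) (L (nat_lit 288516253536945157)))) (N (nat_lit 2090) (N (nat_lit 2089) (N (nat_lit 2088) (L (nat_lit 288516253537010685)) (L (nat_lit 288516253537010686))) (L (nat_lit 288516253537010687))) (N (nat_lit 2091) (L (nat_lit 288516253537010688)) (L (nat_lit 288516253537010689))))) (N (nat_lit 2097) (N (nat_lit 2095) (N (nat_lit 2094) (N (nat_lit 2093) (L (nat_lit 288516253537010690)) (L (nat_lit 288516253537010691))) (L (nat_lit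 288516253537076222))) (N (nat_lit 2096) (L (nat_lit 288516253537076223)) (L (nat_lit 288516253537076224)))) (N (nat_lit 2099) (N (nat_lit 2098) (L (nat_lit 288516253537076225)) (L (nat_lit 288516253537076227))) (N (nat_lit 2100) (L (nat_lit 288516253537141755)) (L (nat_lit 288516253537141756)))))) (N (nat_lit 2111) (N (nat_lit 2106) (N (nat_lit 2104) (N (nat_lit 2103) (N (nat_lit 2102) (L (nat_lit 288516253537141757)) (L (nat_lit 288516253537141758))) (L (nat_lit 288516253537141759))) (N (nat_lit 2105) (L (nat_lit 288516253537141760)) (L (nat_lit 288516253537141761)))) (N (nat_lit 2109) (N (nat_lit 2108) (N (nat_lit 2107) (L (nat_lit 288516253537141762)) (L (nat_lit 288516253537207294))) (L (nat_lit 288516253537207295))) (N (nat_lit 2110) (L (nat_lit 288516253537207297)) (L (nat_lit 288516253537272830))))) (N (nat_lit 2116) (N (nat_lit 2114) (N (nat_lit 2113) (N (nat_lit 2112) (L (nat_lit 288516257831715843))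 (L (nat_lit 288516257831846908))) (L (nat_lit 288516257831846912))) (N (nat_lit 2115) (L (nat_lit 288516257831846913)) (L (nat_lit 288516257831846914)))) (N (nat_lit 2118) (N (nat_lit 2117) (L (nat_lit 288516257831846915)) (L (nat_lit 288516257831912447))) (N (nat_lit 2119) (L (nat_lit 288516257831912448)) (L (nat_lit 288516257831912449))))))) (N (nat_lit 2139) (N (nat_lit 2130) (N (nat_lit 2125) (N (nat_lit 2123) (N (nat_lit 2122) (N (nat_lit 2121) (L (nat_lit 288516257831912450)) (L (nat_lit 288516257831912451))) (L (nat_lit 288516257831912452))) (N (nat_lit 2124) (L (nat_lit 288516257831977982)) (L (nat_lit 288516257831977983)))) (N (nat_lit 2128) (N (nat_lit 2127) (N (nat_lit 2126) (L (nat_lit 288516257831977984)) (L (nat_lit 288516257831977985))) (L (nat_lit 288516257831977986))) (N (nat_lit 2129) (L (nat_lit 288516257831977987)) (L (nat_lit 288516257832043517))))) (N (nat_lit 2135) (N (nat_lit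 2133) (N (nat_lit 2132) (N (nat_lit 2131) (L (nat_lit 288516257832043518)) (L (nat_lit 288516257832043520))) (L (nat_lit 288516257832043522))) (N (nat_lit 2134) (L (nat_lit 288516257832109054)) (L (nat_lit 288516257832109055)))) (N (nat_lit 2137) (N (nat_lit 2136) (L (nat_lit 288516257832109056)) (L (nat_lit 288516257832174590))) (N (nat_lit 2138) (L (nat_lit 288516257832174591)) (L (nat_lit 288516257832240125)))))) (N (nat_lit 2148) (N (nat_lit 2144) (N (nat_lit 2142) (N (nat_lit 2141) (N (nat_lit 2140) (L (nat_lit 288516262126683139)) (L (nat_lit 288516262126748673))) (L (nat_lit 288516262126748675))) (N (nat_lit 2143) (L (nat_lit 288516262126814210)) (L (nat_lit 288516262126814211)))) (N (nat_lit 2146) (N (nat_lit 2145) (L (nat_lit 288516262126879744)) (L (nat_lit 288516262126879745))) (N (nat_lit 2147) (L (nat_lit 288516262126945278)) (L (nat_lit 288516262126945279))))) (N (nat_lit 2153) (N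 (nat_lit 2151) (N (nat_lit 2150) (N (nat_lit 2149) (L (nat_lit 288516262126945280)) (L (nat_lit 288516262127010815))) (L (nat_lit 288516262127076350))) (N (nat_lit 2152) (L (nat_lit 288516262127076352)) (L (nat_lit 288516266421912574)))) (N (nat_lit 2155) (N (nat_lit 2154) (L (nat_lit 288516266421912575)) (L (nat_lit 288516266421912576))) (N (nat_lit 2156) (L (nat_lit 288797698448753668)) (L (nat_lit 288797702743786499)))))))
def pt29 : RA := N (nat_lit 2194) (N (nat_lit 2176) (N (nat_lit 2167) (N (nat_lit 2162) (N (nat_lit 2160) (N (nat_lit 2159) (N (nat_lit 2158) (L (nat_lit 288797707038753796)) (L (nat_lit 288797707038819330))) (L (nat_lit 288797707038950398))) (N (nat_lit 2161) (L (nat_lit 288797707039015936)) (L (nat_lit 288797711333655552)))) (N (nat_lit 2165) (N (nat_lit 2164) (N (nat_lit 2163) (L (nat_lit 288797711333655553)) (L (nat_lit 288797711333655558))) (L (nat_lit 288797711333721091)))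 (N (nat_lit 2166) (L (nat_lit 288797711333721092)) (L (nat_lit 288797711333786626))))) (N (nat_lit 2172) (N (nat_lit 2170) (N (nat_lit 2169) (N (nat_lit 2168) (L (nat_lit 288797711333852160)) (L (nat_lit 288797711333852162))) (L (nat_lit 288797711333917694))) (N (nat_lit 2171) (L (nat_lit 288797711333917696)) (L (nat_lit 288797711333983232)))) (N (nat_lit 2174) (N (nat_lit 2173) (L (nat_lit 288797711334048768)) (L (nat_lit 288797711334048769))) (N (nat_lit 2175) (L (nat_lit 288797715628622850)) (L (nat_lit 288797715628622852)))))) (N (nat_lit 2185) (N (nat_lit 2181) (N (nat_lit 2179) (N (nat_lit 2178) (N (nat_lit 2177) (L (nat_lit 288797715628688384)) (L (nat_lit 288797715628688386))) (L (nat_lit 288797715628688387))) (N (nat_lit 2180) (L (nat_lit 288797715628688388)) (L (nat_lit 288797715628753918)))) (N (nat_lit 2183) (N (nat_lit 2182) (L (nat_lit 288797715628753919)) (L (nat_lit 288797715628753920)))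 (N (nat_lit 2184) (L (nat_lit 288797715628753921)) (L (nat_lit 288797715628753924))))) (N (nat_lit 2190) (N (nat_lit 2188) (N (nat_lit 2187) (N (nat_lit 2186) (L (nat_lit 288797715628819455)) (L (nat_lit 288797715628819456))) (L (nat_lit 288797715628819457))) (N (nat_lit 2189) (L (nat_lit 288797715628819458)) (L (nat_lit 288797715628819459)))) (N (nat_lit 2192) (N (nat_lit 2191) (L (nat_lit 288797715628819460)) (L (nat_lit 288797715628884989))) (N (nat_lit 2193) (L (nat_lit 288797715628884990)) (L (nat_lit 288797715628884991))))))) (N (nat_lit 2213) (N (nat_lit 2204) (N (nat_lit 2199) (N (nat_lit 2197) (N (nat_lit 2196) (N (nat_lit 2195) (L (nat_lit 288797715628884992)) (L (nat_lit 288797715628884993))) (L (nat_lit 288797715628884994))) (N (nat_lit 2198) (L (nat_lit 288797715628884995)) (L (nat_lit 288797715628950525)))) (N (nat_lit 2202) (N (nat_lit 2201) (N (nat_lit 2200) (L (nat_lit 288797715628950526))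 (L (nat_lit 288797715628950527))) (L (nat_lit 288797715628950528))) (N (nat_lit 2203) (L (nat_lit 288797715628950530)) (L (nat_lit 288797715628950531))))) (N (nat_lit 2209) (N (nat_lit 2207) (N (nat_lit 2206) (N (nat_lit 2205) (L (nat_lit 288797715629016062)) (L (nat_lit 288797715629016063))) (L (nat_lit 288797715629016066))) (N (nat_lit 2208) (L (nat_lit 288797715629081598)) (L (nat_lit 288797719923524608)))) (N (nat_lit 2211) (N (nat_lit 2210) (L (nat_lit 288797719923590146)) (L (nat_lit 288797719923590147))) (N (nat_lit 2212) (L (nat_lit 288797719923590148)) (L (nat_lit 288797719923655680)))))) (N (nat_lit 2222) (N (nat_lit 2218) (N (nat_lit 2216) (N (nat_lit 2215) (N (nat_lit 2214) (L (nat_lit 288797719923655681)) (L (nat_lit 288797719923655682))) (L (nat_lit 288797719923655683))) (N (nat_lit 2217) (L (nat_lit 288797719923655684)) (L (nat_lit 288797719923721215)))) (N (nat_lit 2220) (N (nat_lit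 2219) (L (nat_lit 288797719923721216)) (L (nat_lit 288797719923721217))) (N (nat_lit 2221) (L (nat_lit 288797719923721218)) (L (nat_lit 288797719923721219))))) (N (nat_lit 2227) (N (nat_lit 2225) (N (nat_lit 2224) (N (nat_lit 2223) (L (nat_lit 288797719923786751)) (L (nat_lit 288797719923786752))) (L (nat_lit 288797719923786753))) (N (nat_lit 2226) (L (nat_lit 288797719923852286)) (L (nat_lit 288797719923852287)))) (N (nat_lit 2229) (N (nat_lit 2228) (L (nat_lit 288797719923852288)) (L (nat_lit 288797719923852290))) (N (nat_lit 2230) (L (nat_lit 288797719923852292)) (L (nat_lit 288797719923917822)))))))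
def pt30 : RA := N (nat_lit 2268) (N (nat_lit 2250) (N (nat_lit 2241) (N (nat_lit 2236) (N (nat_lit 2234) (N (nat_lit 2233) (N (nat_lit 2232) (L (nat_lit 288797719923917824)) (L (nat_lit 288797719923917825))) (L (nat_lit 288797719923983357))) (N (nat_lit 2235) (L (nat_lit 288797719923983359)) (L (nat_lit 288797719924048894)))) (N (nat_lit 2239) (N (nat_lit 2238) (N (nat_lit 2237) (L (nat_lit 288797724218491904)) (L (nat_lit 288797724218491907))) (L (nat_lit 288797724218557442))) (N (nat_lit 2240) (L (nat_lit 288797724218557444)) (L (nat_lit 288797724218622976))))) (N (nat_lit 2246) (N (nat_lit 2244) (N (nat_lit 2243) (N (nat_lit 2242) (L (nat_lit 288797724218622977)) (L (nat_lit 288797724218622978))) (L (nat_lit 288797724218622979))) (N (nat_lit 2245) (L (nat_lit 288797724218688511)) (L (nat_lit 288797724218688512)))) (N (nat_lit 2248) (N (nat_lit 2247) (L (nat_lit 288797724218688513)) (L (nat_lit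 288797724218688515))) (N (nat_lit 2249) (L (nat_lit 288797724218688516)) (L (nat_lit 288797724218754047)))))) (N (nat_lit 2259) (N (nat_lit 2255) (N (nat_lit 2253) (N (nat_lit 2252) (N (nat_lit 2251) (L (nat_lit 288797724218754048)) (L (nat_lit 288797724218754050))) (L (nat_lit 288797724218754052))) (N (nat_lit 2254) (L (nat_lit 288797724218819582)) (L (nat_lit 288797724218819583)))) (N (nat_lit 2257) (N (nat_lit 2256) (L (nat_lit 288797724218819584)) (L (nat_lit 288797724218819585))) (N (nat_lit 2258) (L (nat_lit 288797724218819587)) (L (nat_lit 288797724218885117))))) (N (nat_lit 2264) (N (nat_lit 2262) (N (nat_lit 2261) (N (nat_lit 2260) (L (nat_lit 288797724218885118)) (L (nat_lit 288797724218885119))) (L (nat_lit 288797724218885120))) (N (nat_lit 2263) (L (nat_lit 288797724218885121)) (L (nat_lit 288797724218950654)))) (N (nat_lit 2266) (N (nat_lit 2265) (L (nat_lit 288797724218950655)) (L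 (nat_lit 288797728513393667))) (N (nat_lit 2267) (L (nat_lit 288797728513524737)) (L (nat_lit 288797728513524740))))))) (N (nat_lit 2287) (N (nat_lit 2278) (N (nat_lit 2273) (N (nat_lit 2271) (N (nat_lit 2270) (N (nat_lit 2269) (L (nat_lit 288797728513590273)) (L (nat_lit 288797728513590275))) (L (nat_lit 288797728513655806))) (N (nat_lit 2272) (L (nat_lit 288797728513655807)) (L (nat_lit 288797728513655809)))) (N (nat_lit 2276) (N (nat_lit 2275) (N (nat_lit 2274) (L (nat_lit 288797728513655810)) (L (nat_lit 288797728513721341))) (L (nat_lit 288797728513721344))) (N (nat_lit 2277) (L (nat_lit 288797728513721345)) (L (nat_lit 288797728513721347))))) (N (nat_lit 2283) (N (nat_lit 2281) (N (nat_lit 2280) (N (nat_lit 2279) (L (nat_lit 288797728513786878)) (L (nat_lit 288797728513786879))) (L (nat_lit 288797728513786880))) (N (nat_lit 2282) (L (nat_lit 288797728513786881)) (L (nat_lit 288797728513852414))))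 (N (nat_lit 2285) (N (nat_lit 2284) (L (nat_lit 288797728513852416)) (L (nat_lit 288797728513852417))) (N (nat_lit 2286) (L (nat_lit 288797728513917950)) (L (nat_lit 288797728513917953)))))) (N (nat_lit 2296) (N (nat_lit 2292) (N (nat_lit 2290) (N (nat_lit 2289) (N (nat_lit 2288) (L (nat_lit 288797732808492031)) (L (nat_lit 288797732808557568))) (L (nat_lit 288797732808557571))) (N (nat_lit 2291) (L (nat_lit 288797732808623105)) (L (nat_lit 288797732808688640)))) (N (nat_lit 2294) (N (nat_lit 2293) (L (nat_lit 288797732808754174)) (L (nat_lit 288797732808819712))) (N (nat_lit 2295) (L (nat_lit 288797737103459329)) (L (nat_lit 288797737103524867))))) (N (nat_lit 2301) (N (nat_lit 2299) (N (nat_lit 2298) (N (nat_lit 2297) (L (nat_lit 288797741398623232)) (L (nat_lit 289079177720497156))) (L (nat_lit 289079177720562690))) (N (nat_lit 2300) (L (nat_lit 289079182015398918)) (L (nat_lit 289079182015529986))))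 (N (nat_lit 2303) (N (nat_lit 2302) (L (nat_lit 289079186310169604)) (L (nat_lit 289079186310431747))) (N (nat_lit 2304) (L (nat_lit 289079186310497282)) (L (nat_lit 289079190605267968)))))))
def pt31 : RA := N (nat_lit 2342) (N (nat_lit 2324) (N (nat_lit 2315) (N (nat_lit 2310) (N (nat_lit 2308) (N (nat_lit 2307) (N (nat_lit 2306) (L (nat_lit 289079190605333507)) (L (nat_lit 289079190605399039))) (L (nat_lit 289079190605399043))) (N (nat_lit 2309) (L (nat_lit 289079190605399044)) (L (nat_lit 289079190605464575)))) (N (nat_lit 2313) (N (nat_lit 2312) (N (nat_lit 2311) (L (nat_lit 289079190605464576)) (L (nat_lit 289079190605464577))) (L (nat_lit 289079190605464578))) (N (nat_lit 2314) (L (nat_lit 289079190605464580)) (L (nat_lit 289079190605530111))))) (N (nat_lit 2320) (N (nat_lit 2318) (N (nat_lit 2317) (N (nat_lit 2316) (L (nat_lit 289079190605530112)) (L (nat_lit 289079190605530113))) (L (nat_lit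 289079190605595646))) (N (nat_lit 2319) (L (nat_lit 289079190605595647)) (L (nat_lit 289079190605661182)))) (N (nat_lit 2322) (N (nat_lit 2321) (L (nat_lit 289079190605661183)) (L (nat_lit 289079190605661184))) (N (nat_lit 2323) (L (nat_lit 289079190605726719)) (L (nat_lit 289079194900235264)))))) (N (nat_lit 2333) (N (nat_lit 2329) (N (nat_lit 2327) (N (nat_lit 2326) (N (nat_lit 2325) (L (nat_lit 289079194900235267)) (L (nat_lit 289079194900300802))) (L (nat_lit 289079194900300803))) (N (nat_lit 2328) (L (nat_lit 289079194900300804)) (L (nat_lit 289079194900366337)))) (N (nat_lit 2331) (N (nat_lit 2330) (L (nat_lit 289079194900366338)) (L (nat_lit 289079194900431871))) (N (nat_lit 2332) (L (nat_lit 289079194900431873)) (L (nat_lit 289079194900431874))))) (N (nat_lit 2338) (N (nat_lit 2336) (N (nat_lit 2335) (N (nat_lit 2334) (L (nat_lit 289079194900497407)) (L (nat_lit 289079194900497408))) (L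 (nat_lit 289079194900497409))) (N (nat_lit 2337) (L (nat_lit 289079194900562942)) (L (nat_lit 289079194900562946)))) (N (nat_lit 2340) (N (nat_lit 2339) (L (nat_lit 289079194900628480)) (L (nat_lit 289079199195399167))) (N (nat_lit 2341) (L (nat_lit 289079199195399168)) (L (nat_lit 289079199195399169))))))) (N (nat_lit 2361) (N (nat_lit 2352) (N (nat_lit 2347) (N (nat_lit 2345) (N (nat_lit 2344) (N (nat_lit 2343) (L (nat_lit 289079199195399170)) (L (nat_lit 289079199195464703))) (L (nat_lit 289079199195464706))) (N (nat_lit 2346) (L (nat_lit 289079199195530239)) (L (nat_lit 289079199195595776)))) (N (nat_lit 2350) (N (nat_lit 2349) (N (nat_lit 2348) (L (nat_lit 289079203490104323)) (L (nat_lit 289079203490169859))) (L (nat_lit 289079203490431999))) (N (nat_lit 2351) (L (nat_lit 289079207785399295)) (L (nat_lit 289079212080366591))))) (N (nat_lit 2357) (N (nat_lit 2355) (N (nat_lit 2354) (N (nat_lit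 2353) (L (nat_lit 289360648402240516)) (L (nat_lit 289360661287142403))) (L (nat_lit 289360661287273473))) (N (nat_lit 2356) (L (nat_lit 289360665581978624)) (L (nat_lit 289360665581978627)))) (N (nat_lit 2359) (N (nat_lit 2358) (L (nat_lit 289360665582175232)) (L (nat_lit 289360669876945920))) (N (nat_lit 2360) (L (nat_lit 289360669877011459)) (L (nat_lit 289360669877011460)))))) (N (nat_lit 2370) (N (nat_lit 2366) (N (nat_lit 2364) (N (nat_lit 2363) (N (nat_lit 2362) (L (nat_lit 289360669877142530)) (L (nat_lit 289360669877208064))) (L (nat_lit 289642131968885763))) (N (nat_lit 2365) (L (nat_lit 289642136263590913)) (L (nat_lit 289642136263721984)))) (N (nat_lit 2368) (N (nat_lit 2367) (L (nat_lit 289642136263721987)) (L (nat_lit 289642136263787522))) (N (nat_lit 2369) (L (nat_lit 289642136263787525)) (L (nat_lit 289642136263853059))))) (N (nat_lit 2375) (N (nat_lit 2373) (N (nat_lit 2372) (N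 (nat_lit 2371) (L (nat_lit 289642140558623747)) (L (nat_lit 289642140558689280))) (L (nat_lit 289642140558754816))) (N (nat_lit 2374) (L (nat_lit 289642140558885888)) (L (nat_lit 289642144853656576)))) (N (nat_lit 2377) (N (nat_lit 2376) (L (nat_lit 289642149148623872)) (L (nat_lit 289642153443591168))) (N (nat_lit 2378) (L (nat_lit 289642157738558464)) (L (nat_lit 290205086217077761)))))))
def pt : RA := N (nat_lit 1190) (N (nat_lit 595) (N (nat_lit 298) (N (nat_lit 149) (N (nat_lit 75) (pt0) (pt1)) (N (nat_lit 224) (pt2) (pt3))) (N (nat_lit 447) (N (nat_lit 373) (pt4) (pt5)) (N (nat_lit 521) (pt6) (pt7)))) (N (nat_lit 893) (N (nat_lit 744) (N (nat_lit 670) (pt8) (pt9)) (N (nat_lit 819) (pt10) (pt11))) (N (nat_lit 1042) (N (nat_lit 968) (pt12) (pt13)) (N (nat_lit 1116) (pt14) (pt15))))) (N (nat_lit 1785) (N (nat_lit 1488) (N (nat_lit 1339) (N (nat_lit 1265) (pt16) (pt17)) (N (nat_lit 1414) (pt18)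 (pt19))) (N (nat_lit 1637) (N (nat_lit 1563) (pt20) (pt21)) (N (nat_lit 1711) (pt22) (pt23)))) (N (nat_lit 2082) (N (nat_lit 1934) (N (nat_lit 1860) (pt24) (pt25)) (N (nat_lit 2008) (pt26) (pt27))) (N (nat_lit 2231) (N (nat_lit 2157) (pt28) (pt29)) (N (nat_lit 2305) (pt30) (pt31)))))
def nb0 : RA := N (nat_lit 36) (N (nat_lit 18) (N (nat_lit 13) (N (nat_lit 8) (N (nat_lit 6) (N (nat_lit 5) (N (nat_lit 4) (L (E (nat_lit 0) (nat_lit 0x0) (nat_lit 0))) (L (E (nat_lit 0) (nat_lit 0x0) (nat_lit 0)))) (L (E (nat_lit 0) (nat_lit 0x0) (nat_lit 0)))) (N (nat_lit 7) (L (E (nat_lit 0) (nat_lit 0x0) (nat_lit 0))) (L (E (nat_lit 0) (nat_lit 0x0) (nat_lit 0))))) (N (nat_lit 11) (N (nat_lit 10) (N (nat_lit 9) (L (E (nat_lit 0) (nat_lit 0x0) (nat_lit 0))) (L (E (nat_lit 0) (nat_lit 0x0) (nat_lit 0)))) (L (E (nat_lit 0) (nat_lit 0x0) (nat_lit 0)))) (N (nat_lit 12) (L (E (nat_lit 0) (nat_lit 0x0) (nat_lit 0))) (L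 (E (nat_lit 0) (nat_lit 0x0) (nat_lit 0)))))) (N (nat_lit 16) (N (nat_lit 15) (N (nat_lit 14) (L (E (nat_lit 0) (nat_lit 0x0) (nat_lit 0))) (L (E (nat_lit 0) (nat_lit 0x0) (nat_lit 0)))) (L (E (nat_lit 0) (nat_lit 0x0) (nat_lit 0)))) (N (nat_lit 17) (L (E (nat_lit 1) (nat_lit 0x3e) (nat_lit 0))) (L (E (nat_lit 0) (nat_lit 0x0) (nat_lit 0)))))) (N (nat_lit 27) (N (nat_lit 23) (N (nat_lit 21) (N (nat_lit 20) (N (nat_lit 19) (L (E (nat_lit 0) (nat_lit 0x0) (nat_lit 0))) (L (E (nat_lit 0) (nat_lit 0x0) (nat_lit 0)))) (L (E (nat_lit 0) (nat_lit 0x0) (nat_lit 0)))) (N (nat_lit 22) (L (E (nat_lit 0) (nat_lit 0x0) (nat_lit 0))) (L (E (nat_lit 0) (nat_lit 0x0) (nat_lit 0))))) (N (nat_lit 25) (N (nat_lit 24) (L (E (nat_lit 0) (nat_lit 0x0) (nat_lit 0))) (L (E (nat_lit 0) (nat_lit 0x0) (nat_lit 0)))) (N (nat_lit 26) (L (E (nat_lit 0) (nat_lit 0x0) (nat_lit 0))) (L (E (nat_lit 0) (nat_lit 0x0) (nat_lit 0))))))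 (N (nat_lit 32) (N (nat_lit 30) (N (nat_lit 29) (N (nat_lit 28) (L (E (nat_lit 0) (nat_lit 0x0) (nat_lit 0))) (L (E (nat_lit 0) (nat_lit 0x0) (nat_lit 0)))) (L (E (nat_lit 0) (nat_lit 0x0) (nat_lit 0)))) (N (nat_lit 31) (L (E (nat_lit 0) (nat_lit 0x0) (nat_lit 0))) (L (E (nat_lit 0) (nat_lit 0x0) (nat_lit 0))))) (N (nat_lit 34) (N (nat_lit 33) (L (E (nat_lit 0) (nat_lit 0x0) (nat_lit 0))) (L (E (nat_lit 0) (nat_lit 0x0) (nat_lit 0)))) (N (nat_lit 35) (L (E (nat_lit 0) (nat_lit 0x0) (nat_lit 0))) (L (E (nat_lit 0) (nat_lit 0x0) (nat_lit 0)))))))) (N (nat_lit 47) (N (nat_lit 44) (N (nat_lit 40) (N (nat_lit 38) (N (nat_lit 37) (L (E (nat_lit 0) (nat_lit 0x0) (nat_lit 0))) (L (E (nat_lit 0) (nat_lit 0x0) (nat_lit 0)))) (N (nat_lit 39) (L (E (nat_lit 0) (nat_lit 0x0) (nat_lit 0))) (L (E (nat_lit 0) (nat_lit 0x0) (nat_lit 0))))) (N (nat_lit 42) (N (nat_lit 41) (L (E (nat_lit 0) (nat_lit 0x0) (nat_lit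 0))) (L (E (nat_lit 0) (nat_lit 0x0) (nat_lit 0)))) (N (nat_lit 43) (L (E (nat_lit 0) (nat_lit 0x0) (nat_lit 0))) (L (E (nat_lit 0) (nat_lit 0x0) (nat_lit 0)))))) (N (nat_lit 46) (N (nat_lit 45) (L (E (nat_lit 2) (nat_lit 0x2c4086) (nat_lit 0))) (L (E (nat_lit 0) (nat_lit 0x0) (nat_lit 0)))) (L (E (nat_lit 1) (nat_lit 0x8a) (nat_lit 0))))) (N (nat_lit 52) (N (nat_lit 49) (N (nat_lit 48) (L (E (nat_lit 2) (nat_lit 0x1b808c) (nat_lit 0))) (L (E (nat_lit 0) (nat_lit 0x0) (nat_lit 0)))) (N (nat_lit 51) (N (nat_lit 50) (L (E (nat_lit 1) (nat_lit 0xe0) (nat_lit 0))) (L (E (nat_lit 0) (nat_lit 0x0) (nat_lit 0)))) (L (E (nat_lit 1) (nat_lit 0x96) (nat_lit 0))))) (N (nat_lit 55) (N (nat_lit 53) (L (E (nat_lit 1) (nat_lit 0xea) (nat_lit 0))) (N (nat_lit 54) (L (E (nat_lit 0) (nat_lit 0x0) (nat_lit 0))) (L (E (nat_lit 1) (nat_lit 0xf0) (nat_lit 0))))) (N (nat_lit 57) (N (nat_lit 56) (L (E (nat_lit 0) (nat_lit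 0x0) (nat_lit 0))) (L (E (nat_lit 1) (nat_lit 0xf4) (nat_lit 0)))) (L (E (nat_lit 0) (nat_lit 0x0) (nat_lit 0)))))))
def nb1 : RA := N (nat_lit 82) (N (nat_lit 70) (N (nat_lit 64) (N (nat_lit 62) (N (nat_lit 60) (N (nat_lit 59) (L (E (nat_lit 1) (nat_lit 0x182) (nat_lit 0))) (L (E (nat_lit 1) (nat_lit 0xfc) (nat_lit 0)))) (N (nat_lit 61) (L (E (nat_lit 0) (nat_lit 0x0) (nat_lit 0))) (L (E (nat_lit 0) (nat_lit 0x0) (nat_lit 0))))) (N (nat_lit 63) (L (E (nat_lit 0) (nat_lit 0x0) (nat_lit 0))) (L (E (nat_lit 1) (nat_lit 0x52) (nat_lit 0))))) (N (nat_lit 68) (N (nat_lit 66) (N (nat_lit 65) (L (E (nat_lit 0) (nat_lit 0x0) (nat_lit 0))) (L (E (nat_lit 0) (nat_lit 0x0) (nat_lit 0)))) (N (nat_lit 67) (L (E (nat_lit 0) (nat_lit 0x0) (nat_lit 0))) (L (E (nat_lit 0) (nat_lit 0x0) (nat_lit 0))))) (N (nat_lit 69) (L (E (nat_lit 1) (nat_lit 0x80) (nat_lit 0))) (L (E (nat_lit 0) (nat_lit 0x0) (nat_lit 0))))))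 (N (nat_lit 78) (N (nat_lit 76) (N (nat_lit 73) (N (nat_lit 72) (N (nat_lit 71) (L (E (nat_lit 0) (nat_lit 0x0) (nat_lit 0))) (L (E (nat_lit 0) (nat_lit 0x0) (nat_lit 0)))) (L (E (nat_lit 0) (nat_lit 0x0) (nat_lit 0)))) (N (nat_lit 75) (N (nat_lit 74) (L (E (nat_lit 0) (nat_lit 0x0) (nat_lit 0))) (L (E (nat_lit 0) (nat_lit 0x0) (nat_lit 0)))) (L (E (nat_lit 0) (nat_lit 0x0) (nat_lit 0))))) (N (nat_lit 77) (L (E (nat_lit 0) (nat_lit 0x0) (nat_lit 0))) (L (E (nat_lit 4) (nat_lit 0x18905f0164038) (nat_lit 0))))) (N (nat_lit 80) (N (nat_lit 79) (L (E (nat_lit 0) (nat_lit 0x0) (nat_lit 0))) (L (E (nat_lit 1) (nat_lit 0x6a) (nat_lit 0)))) (N (nat_lit 81) (L (E (nat_lit 1) (nat_lit 0x1aa) (nat_lit 0))) (L (E (nat_lit 0) (nat_lit 0x0) (nat_lit 0))))))) (N (nat_lit 96) (N (nat_lit 88) (N (nat_lit 85) (N (nat_lit 83) (L (E (nat_lit 1) (nat_lit 0x1b0) (nat_lit 0))) (N (nat_lit 84) (L (E (nat_lit 0) (nat_lit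 0x0) (nat_lit 0))) (L (E (nat_lit 0) (nat_lit 0x0) (nat_lit 0))))) (N (nat_lit 86) (L (E (nat_lit 1) (nat_lit 0xac) (nat_lit 0))) (N (nat_lit 87) (L (E (nat_lit 0) (nat_lit 0x0) (nat_lit 0))) (L (E (nat_lit 0) (nat_lit 0x0) (nat_lit 0)))))) (N (nat_lit 92) (N (nat_lit 90) (N (nat_lit 89) (L (E (nat_lit 0) (nat_lit 0x0) (nat_lit 0))) (L (E (nat_lit 0) (nat_lit 0x0) (nat_lit 0)))) (N (nat_lit 91) (L (E (nat_lit 2) (nat_lit 0x7381ca) (nat_lit 0))) (L (E (nat_lit 0) (nat_lit 0x0) (nat_lit 0))))) (N (nat_lit 94) (N (nat_lit 93) (L (E (nat_lit 0) (nat_lit 0x0) (nat_lit 0))) (L (E (nat_lit 0) (nat_lit 0x0) (nat_lit 0)))) (N (nat_lit 95) (L (E (nat_lit 0) (nat_lit 0x0) (nat_lit 0))) (L (E (nat_lit 0) (nat_lit 0x0) (nat_lit 0))))))) (N (nat_lit 104) (N (nat_lit 100) (N (nat_lit 98) (N (nat_lit 97) (L (E (nat_lit 0) (nat_lit 0x0) (nat_lit 0))) (L (E (nat_lit 0) (nat_lit 0x0) (nat_lit 0)))) (N (nat_lit 99)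 (L (E (nat_lit 0) (nat_lit 0x0) (nat_lit 0))) (L (E (nat_lit 0) (nat_lit 0x0) (nat_lit 0))))) (N (nat_lit 102) (N (nat_lit 101) (L (E (nat_lit 1) (nat_lit 0x44) (nat_lit 0))) (L (E (nat_lit 0) (nat_lit 0x0) (nat_lit 0)))) (N (nat_lit 103) (L (E (nat_lit 0) (nat_lit 0x0) (nat_lit 0))) (L (E (nat_lit 0) (nat_lit 0x0) (nat_lit 0)))))) (N (nat_lit 108) (N (nat_lit 107) (N (nat_lit 106) (N (nat_lit 105) (L (E (nat_lit 0) (nat_lit 0x0) (nat_lit 0))) (L (E (nat_lit 0) (nat_lit 0x0) (nat_lit 0)))) (L (E (nat_lit 0) (nat_lit 0x0) (nat_lit 0)))) (L (E (nat_lit 1) (nat_lit 0x1f8) (nat_lit 0)))) (N (nat_lit 110) (N (nat_lit 109) (L (E (nat_lit 0) (nat_lit 0x0) (nat_lit 0))) (L (E (nat_lit 1) (nat_lit 0x1fe) (nat_lit 0)))) (L (E (nat_lit 0) (nat_lit 0x0) (nat_lit 0)))))))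
def nb2 : RA := N (nat_lit 147) (N (nat_lit 140) (L (E (nat_lit 7) (nat_lit 0x129863825610805302280ee) (nat_lit 0))) (N (nat_lit 142) (N (nat_lit 141) (L (E (nat_lit 1) (nat_lit 0x150) (nat_lit 0))) (L (E (nat_lit 1) (nat_lit 0x32e) (nat_lit 0)))) (N (nat_lit 145) (N (nat_lit 144) (N (nat_lit 143) (L (E (nat_lit 0) (nat_lit 0x0) (nat_lit 0))) (L (E (nat_lit 0) (nat_lit 0x0) (nat_lit 0)))) (L (E (nat_lit 1) (nat_lit 0x524) (nat_lit 0)))) (N (nat_lit 146) (L (E (nat_lit 0) (nat_lit 0x0) (nat_lit 0))) (L (E (nat_lit 0) (nat_lit 0x0) (nat_lit 0))))))) (N (nat_lit 163) (N (nat_lit 157) (N (nat_lit 152) (N (nat_lit 150) (N (nat_lit 149) (N (nat_lit 148) (L (E (nat_lit 0) (nat_lit 0x0) (nat_lit 0))) (L (E (nat_lit 0) (nat_lit 0x0) (nat_lit 0)))) (L (E (nat_lit 0) (nat_lit 0x0) (nat_lit 0)))) (N (nat_lit 151) (L (E (nat_lit 1) (nat_lit 0x232) (nat_lit 0))) (L (E (nat_lit 0) (nat_lit 0x0) (nat_lit 0)))))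 (N (nat_lit 155) (N (nat_lit 154) (N (nat_lit 153) (L (E (nat_lit 0) (nat_lit 0x0) (nat_lit 0))) (L (E (nat_lit 0) (nat_lit 0x0) (nat_lit 0)))) (L (E (nat_lit 0) (nat_lit 0x0) (nat_lit 0)))) (N (nat_lit 156) (L (E (nat_lit 0) (nat_lit 0x0) (nat_lit 0))) (L (E (nat_lit 0) (nat_lit 0x0) (nat_lit 0)))))) (N (nat_lit 161) (N (nat_lit 160) (N (nat_lit 159) (N (nat_lit 158) (L (E (nat_lit 0) (nat_lit 0x0) (nat_lit 0))) (L (E (nat_lit 0) (nat_lit 0x0) (nat_lit 0)))) (L (E (nat_lit 0) (nat_lit 0x0) (nat_lit 0)))) (L (E (nat_lit 1) (nat_lit 0x554) (nat_lit 0)))) (N (nat_lit 162) (L (E (nat_lit 1) (nat_lit 0x558) (nat_lit 0))) (L (E (nat_lit 2) (nat_lit 0x48c172) (nat_lit 0)))))) (N (nat_lit 171) (N (nat_lit 167) (N (nat_lit 165) (N (nat_lit 164) (L (E (nat_lit 0) (nat_lit 0x0) (nat_lit 0))) (L (E (nat_lit 0) (nat_lit 0x0) (nat_lit 0)))) (N (nat_lit 166) (L (E (nat_lit 0) (nat_lit 0x0) (nat_lit 0))) (L (E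 (nat_lit 0) (nat_lit 0x0) (nat_lit 0))))) (N (nat_lit 169) (N (nat_lit 168) (L (E (nat_lit 1) (nat_lit 0x570) (nat_lit 0))) (L (E (nat_lit 0) (nat_lit 0x0) (nat_lit 0)))) (N (nat_lit 170) (L (E (nat_lit 0) (nat_lit 0x0) (nat_lit 0))) (L (E (nat_lit 0) (nat_lit 0x0) (nat_lit 0)))))) (N (nat_lit 176) (N (nat_lit 174) (N (nat_lit 173) (N (nat_lit 172) (L (E (nat_lit 0) (nat_lit 0x0) (nat_lit 0))) (L (E (nat_lit 0) (nat_lit 0x0) (nat_lit 0)))) (L (E (nat_lit 0) (nat_lit 0x0) (nat_lit 0)))) (N (nat_lit 175) (L (E (nat_lit 0) (nat_lit 0x0) (nat_lit 0))) (L (E (nat_lit 0) (nat_lit 0x0) (nat_lit 0))))) (N (nat_lit 178) (N (nat_lit 177) (L (E (nat_lit 0) (nat_lit 0x0) (nat_lit 0))) (L (E (nat_lit 0) (nat_lit 0x0) (nat_lit 0)))) (N (nat_lit 179) (L (E (nat_lit 0) (nat_lit 0x0) (nat_lit 0))) (L (E (nat_lit 0) (nat_lit 0x0) (nat_lit 0))))))))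
def nb3 : RA := N (nat_lit 192) (N (nat_lit 182) (N (nat_lit 181) (L (E (nat_lit 6) (nat_lit 0xc083c21bc0a102dc162) (nat_lit 0))) (L (E (nat_lit 0) (nat_lit 0x0) (nat_lit 0)))) (N (nat_lit 183) (L (E (nat_lit 8) (nat_lit 0x3080e1052016e0b505982c8136) (nat_lit 0))) (N (nat_lit 187) (N (nat_lit 185) (N (nat_lit 184) (L (E (nat_lit 1) (nat_lit 0x168) (nat_lit 0))) (L (E (nat_lit 0) (nat_lit 0x0) (nat_lit 0)))) (N (nat_lit 186) (L (E (nat_lit 1) (nat_lit 0x144) (nat_lit 0))) (L (E (nat_lit 0) (nat_lit 0x0) (nat_lit 0))))) (N (nat_lit 190) (N (nat_lit 189) (N (nat_lit 188) (L (E (nat_lit 0) (nat_lit 0x0) (nat_lit 0))) (L (E (nat_lit 0) (nat_lit 0x0) (nat_lit 0)))) (L (E (nat_lit 0) (nat_lit 0x0) (nat_lit 0)))) (N (nat_lit 191) (L (E (nat_lit 0) (nat_lit 0x0) (nat_lit 0))) (L (E (nat_lit 0) (nat_lit 0x0) (nat_lit 0)))))))) (N (nat_lit 193) (L (E (nat_lit 5) (nat_lit 0x3e21da06202fc0bc) (nat_lit 0))) (N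 (nat_lit 211) (N (nat_lit 202) (N (nat_lit 198) (N (nat_lit 195) (N (nat_lit 194) (L (E (nat_lit 0) (nat_lit 0x0) (nat_lit 0))) (L (E (nat_lit 1) (nat_lit 0x3e6) (nat_lit 0)))) (N (nat_lit 197) (N (nat_lit 196) (L (E (nat_lit 0) (nat_lit 0x0) (nat_lit 0))) (L (E (nat_lit 0) (nat_lit 0x0) (nat_lit 0)))) (L (E (nat_lit 0) (nat_lit 0x0) (nat_lit 0))))) (N (nat_lit 199) (L (E (nat_lit 3) (nat_lit 0xf1031c086) (nat_lit 0))) (N (nat_lit 200) (L (E (nat_lit 1) (nat_lit 0x18c) (nat_lit 0))) (N (nat_lit 201) (L (E (nat_lit 0) (nat_lit 0x0) (nat_lit 0))) (L (E (nat_lit 0) (nat_lit 0x0) (nat_lit 0))))))) (N (nat_lit 206) (N (nat_lit 204) (N (nat_lit 203) (L (E (nat_lit 3) (nat_lit 0x6302cc08e) (nat_lit 0))) (L (E (nat_lit 1) (nat_lit 0x304) (nat_lit 0)))) (N (nat_lit 205) (L (E (nat_lit 2) (nat_lit 0x79c196) (nat_lit 0))) (L (E (nat_lit 1) (nat_lit 0x1a6) (nat_lit 0))))) (N (nat_lit 210) (N (nat_lit 208) (N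 (nat_lit 207) (L (E (nat_lit 0) (nat_lit 0x0) (nat_lit 0))) (L (E (nat_lit 1) (nat_lit 0x19c) (nat_lit 0)))) (N (nat_lit 209) (L (E (nat_lit 0) (nat_lit 0x0) (nat_lit 0))) (L (E (nat_lit 0) (nat_lit 0x0) (nat_lit 0))))) (L (E (nat_lit 1) (nat_lit 0x9a) (nat_lit 0)))))) (N (nat_lit 216) (N (nat_lit 213) (N (nat_lit 212) (L (E (nat_lit 2) (nat_lit 0x7b419a) (nat_lit 0))) (L (E (nat_lit 4) (nat_lit 0x1f006802ec0b0) (nat_lit 0)))) (N (nat_lit 214) (L (E (nat_lit 1) (nat_lit 0xa0) (nat_lit 0))) (N (nat_lit 215) (L (E (nat_lit 0) (nat_lit 0x0) (nat_lit 0))) (L (E (nat_lit 1) (nat_lit 0x1ac) (nat_lit 0)))))) (N (nat_lit 219) (N (nat_lit 217) (L (E (nat_lit 1) (nat_lit 0xa4) (nat_lit 0))) (N (nat_lit 218) (L (E (nat_lit 5) (nat_lit 0x6d41ff073836c0ba) (nat_lit 0))) (L (E (nat_lit 1) (nat_lit 0x330) (nat_lit 0))))) (N (nat_lit 222) (N (nat_lit 220) (L (E (nat_lit 1) (nat_lit 0xa6) (nat_lit 0))) (N (nat_lit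 221) (L (E (nat_lit 0) (nat_lit 0x0) (nat_lit 0))) (L (E (nat_lit 2) (nat_lit 0x7d81d0) (nat_lit 0))))) (N (nat_lit 225) (N (nat_lit 224) (N (nat_lit 223) (L (E (nat_lit 0) (nat_lit 0x0) (nat_lit 0))) (L (E (nat_lit 0) (nat_lit 0x0) (nat_lit 0)))) (L (E (nat_lit 0) (nat_lit 0x0) (nat_lit 0)))) (N (nat_lit 226) (L (E (nat_lit 1) (nat_lit 0x378) (nat_lit 0))) (L (E (nat_lit 0) (nat_lit 0x0) (nat_lit 0))))))))))
def nb4 : RA := N (nat_lit 258) (N (nat_lit 243) (N (nat_lit 235) (N (nat_lit 232) (N (nat_lit 230) (N (nat_lit 229) (N (nat_lit 228) (L (E (nat_lit 0) (nat_lit 0x0) (nat_lit 0))) (L (E (nat_lit 0) (nat_lit 0x0) (nat_lit 0)))) (L (E (nat_lit 0) (nat_lit 0x0) (nat_lit 0)))) (N (nat_lit 231) (L (E (nat_lit 0) (nat_lit 0x0) (nat_lit 0))) (L (E (nat_lit 0) (nat_lit 0x0) (nat_lit 0))))) (N (nat_lit 234) (N (nat_lit 233) (L (E (nat_lit 0) (nat_lit 0x0) (nat_lit 0))) (L (E (nat_lit 1) (nat_lit 0x3c8)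 (nat_lit 0)))) (L (E (nat_lit 0) (nat_lit 0x0) (nat_lit 0))))) (N (nat_lit 239) (N (nat_lit 237) (N (nat_lit 236) (L (E (nat_lit 0) (nat_lit 0x0) (nat_lit 0))) (L (E (nat_lit 1) (nat_lit 0x1dc) (nat_lit 0)))) (N (nat_lit 238) (L (E (nat_lit 0) (nat_lit 0x0) (nat_lit 0))) (L (E (nat_lit 0) (nat_lit 0x0) (nat_lit 0))))) (N (nat_lit 241) (N (nat_lit 240) (L (E (nat_lit 0) (nat_lit 0x0) (nat_lit 0))) (L (E (nat_lit 0) (nat_lit 0x0) (nat_lit 0)))) (N (nat_lit 242) (L (E (nat_lit 0) (nat_lit 0x0) (nat_lit 0))) (L (E (nat_lit 0) (nat_lit 0x0) (nat_lit 0))))))) (N (nat_lit 251) (N (nat_lit 246) (N (nat_lit 244) (L (E (nat_lit 3) (nat_lit 0x7a03c40f2) (nat_lit 0))) (N (nat_lit 245) (L (E (nat_lit 0) (nat_lit 0x0) (nat_lit 0))) (L (E (nat_lit 0) (nat_lit 0x0) (nat_lit 0))))) (N (nat_lit 249) (N (nat_lit 248) (N (nat_lit 247) (L (E (nat_lit 0) (nat_lit 0x0) (nat_lit 0))) (L (E (nat_lit 0) (nat_lit 0x0) (nat_lit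 0)))) (L (E (nat_lit 0) (nat_lit 0x0) (nat_lit 0)))) (N (nat_lit 250) (L (E (nat_lit 0) (nat_lit 0x0) (nat_lit 0))) (L (E (nat_lit 0) (nat_lit 0x0) (nat_lit 0)))))) (N (nat_lit 255) (N (nat_lit 253) (N (nat_lit 252) (L (E (nat_lit 0) (nat_lit 0x0) (nat_lit 0))) (L (E (nat_lit 2) (nat_lit 0x4001fa) (nat_lit 0)))) (N (nat_lit 254) (L (E (nat_lit 0) (nat_lit 0x0) (nat_lit 0))) (L (E (nat_lit 0) (nat_lit 0x0) (nat_lit 0))))) (N (nat_lit 257) (N (nat_lit 256) (L (E (nat_lit 0) (nat_lit 0x0) (nat_lit 0))) (L (E (nat_lit 0) (nat_lit 0x0) (nat_lit 0)))) (L (E (nat_lit 1) (nat_lit 0x20c) (nat_lit 0))))))) (N (nat_lit 265) (N (nat_lit 260) (N (nat_lit 259) (L (E (nat_lit 3) (nat_lit 0x124081010e) (nat_lit 0))) (L (E (nat_lit 3) (nat_lit 0x1d5083420e) (nat_lit 0)))) (N (nat_lit 263) (N (nat_lit 261) (L (E (nat_lit 1) (nat_lit 0x244) (nat_lit 0))) (N (nat_lit 262) (L (E (nat_lit 0) (nat_lit 0x0) (nat_lit 0)))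 (L (E (nat_lit 0) (nat_lit 0x0) (nat_lit 0))))) (N (nat_lit 264) (L (E (nat_lit 1) (nat_lit 0x206) (nat_lit 0))) (L (E (nat_lit 1) (nat_lit 0x116) (nat_lit 0)))))) (N (nat_lit 269) (N (nat_lit 268) (N (nat_lit 267) (N (nat_lit 266) (L (E (nat_lit 0) (nat_lit 0x0) (nat_lit 0))) (L (E (nat_lit 1) (nat_lit 0x4aa) (nat_lit 0)))) (L (E (nat_lit 0) (nat_lit 0x0) (nat_lit 0)))) (L (E (nat_lit 4) (nat_lit 0x25a103042c20e) (nat_lit 0)))) (N (nat_lit 272) (N (nat_lit 271) (N (nat_lit 270) (L (E (nat_lit 0) (nat_lit 0x0) (nat_lit 0))) (L (E (nat_lit 0) (nat_lit 0x0) (nat_lit 0)))) (L (E (nat_lit 0) (nat_lit 0x0) (nat_lit 0)))) (N (nat_lit 273) (L (E (nat_lit 1) (nat_lit 0x4cc) (nat_lit 0))) (N (nat_lit 274) (L (E (nat_lit 0) (nat_lit 0x0) (nat_lit 0))) (L (E (nat_lit 0) (nat_lit 0x0) (nat_lit 0))))))))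
def nb5 : RA := N (nat_lit 300) (N (nat_lit 287) (N (nat_lit 283) (N (nat_lit 279) (N (nat_lit 277) (N (nat_lit 276) (L (E (nat_lit 0) (nat_lit 0x0) (nat_lit 0))) (L (E (nat_lit 0) (nat_lit 0x0) (nat_lit 0)))) (N (nat_lit 278) (L (E (nat_lit 0) (nat_lit 0x0) (nat_lit 0))) (L (E (nat_lit 0) (nat_lit 0x0) (nat_lit 0))))) (N (nat_lit 281) (N (nat_lit 280) (L (E (nat_lit 0) (nat_lit 0x0) (nat_lit 0))) (L (E (nat_lit 0) (nat_lit 0x0) (nat_lit 0)))) (N (nat_lit 282) (L (E (nat_lit 0) (nat_lit 0x0) (nat_lit 0))) (L (E (nat_lit 0) (nat_lit 0x0) (nat_lit 0)))))) (N (nat_lit 284) (L (E (nat_lit 3) (nat_lit 0x1508870134) (nat_lit 0))) (N (nat_lit 286) (N (nat_lit 285) (L (E (nat_lit 0) (nat_lit 0x0) (nat_lit 0))) (L (E (nat_lit 0) (nat_lit 0x0) (nat_lit 0)))) (L (E (nat_lit 2) (nat_lit 0xf68552) (nat_lit 0)))))) (N (nat_lit 294) (N (nat_lit 290) (N (nat_lit 289) (N (nat_lit 288) (L (E (nat_lit 0) (nat_lit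 0x0) (nat_lit 0))) (L (E (nat_lit 0) (nat_lit 0x0) (nat_lit 0)))) (L (E (nat_lit 2) (nat_lit 0xf74142) (nat_lit 0)))) (N (nat_lit 292) (N (nat_lit 291) (L (E (nat_lit 0) (nat_lit 0x0) (nat_lit 0))) (L (E (nat_lit 0) (nat_lit 0x0) (nat_lit 0)))) (N (nat_lit 293) (L (E (nat_lit 1) (nat_lit 0x55e) (nat_lit 0))) (L (E (nat_lit 0) (nat_lit 0x0) (nat_lit 0)))))) (N (nat_lit 296) (N (nat_lit 295) (L (E (nat_lit 3) (nat_lit 0x1f28ad444c) (nat_lit 0))) (L (E (nat_lit 0) (nat_lit 0x0) (nat_lit 0)))) (N (nat_lit 298) (N (nat_lit 297) (L (E (nat_lit 0) (nat_lit 0x0) (nat_lit 0))) (L (E (nat_lit 0) (nat_lit 0x0) (nat_lit 0)))) (N (nat_lit 299) (L (E (nat_lit 0) (nat_lit 0x0) (nat_lit 0))) (L (E (nat_lit 0) (nat_lit 0x0) (nat_lit 0)))))))) (N (nat_lit 312) (N (nat_lit 304) (N (nat_lit 302) (N (nat_lit 301) (L (E (nat_lit 0) (nat_lit 0x0) (nat_lit 0))) (L (E (nat_lit 0) (nat_lit 0x0) (nat_lit 0)))) (N (nat_lit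 303) (L (E (nat_lit 2) (nat_lit 0xfe4590) (nat_lit 0))) (L (E (nat_lit 0) (nat_lit 0x0) (nat_lit 0))))) (N (nat_lit 308) (N (nat_lit 306) (N (nat_lit 305) (L (E (nat_lit 1) (nat_lit 0x4e0) (nat_lit 0))) (L (E (nat_lit 0) (nat_lit 0x0) (nat_lit 0)))) (N (nat_lit 307) (L (E (nat_lit 0) (nat_lit 0x0) (nat_lit 0))) (L (E (nat_lit 0) (nat_lit 0x0) (nat_lit 0))))) (N (nat_lit 310) (N (nat_lit 309) (L (E (nat_lit 0) (nat_lit 0x0) (nat_lit 0))) (L (E (nat_lit 0) (nat_lit 0x0) (nat_lit 0)))) (N (nat_lit 311) (L (E (nat_lit 0) (nat_lit 0x0) (nat_lit 0))) (L (E (nat_lit 0) (nat_lit 0x0) (nat_lit 0))))))) (N (nat_lit 318) (N (nat_lit 314) (N (nat_lit 313) (L (E (nat_lit 1) (nat_lit 0x27a) (nat_lit 0))) (L (E (nat_lit 0) (nat_lit 0x0) (nat_lit 0)))) (N (nat_lit 316) (N (nat_lit 315) (L (E (nat_lit 0) (nat_lit 0x0) (nat_lit 0))) (L (E (nat_lit 0) (nat_lit 0x0) (nat_lit 0)))) (N (nat_lit 317) (L (E (nat_lit 0)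 (nat_lit 0x0) (nat_lit 0))) (L (E (nat_lit 0) (nat_lit 0x0) (nat_lit 0)))))) (N (nat_lit 320) (N (nat_lit 319) (L (E (nat_lit 2) (nat_lit 0xa84482) (nat_lit 0))) (L (E (nat_lit 2) (nat_lit 0xa8805c) (nat_lit 0)))) (N (nat_lit 322) (N (nat_lit 321) (L (E (nat_lit 0) (nat_lit 0x0) (nat_lit 0))) (L (E (nat_lit 2) (nat_lit 0x520280) (nat_lit 0)))) (L (E (nat_lit 0) (nat_lit 0x0) (nat_lit 0)))))))
def nb6 : RA := N (nat_lit 356) (N (nat_lit 340) (N (nat_lit 333) (N (nat_lit 328) (N (nat_lit 327) (N (nat_lit 325) (N (nat_lit 324) (L (E (nat_lit 0) (nat_lit 0x0) (nat_lit 0))) (L (E (nat_lit 0) (nat_lit 0x0) (nat_lit 0)))) (N (nat_lit 326) (L (E (nat_lit 0) (nat_lit 0x0) (nat_lit 0))) (L (E (nat_lit 0) (nat_lit 0x0) (nat_lit 0))))) (L (E (nat_lit 4) (nat_lit 0x14d0a3050027e) (nat_lit 0)))) (N (nat_lit 330) (N (nat_lit 329) (L (E (nat_lit 3) (nat_lit 0xc2053c16c) (nat_lit 0))) (L (E (nat_lit 1) (nat_lit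 0x30a) (nat_lit 0)))) (N (nat_lit 331) (L (E (nat_lit 2) (nat_lit 0x50c284) (nat_lit 0))) (N (nat_lit 332) (L (E (nat_lit 0) (nat_lit 0x0) (nat_lit 0))) (L (E (nat_lit 0) (nat_lit 0x0) (nat_lit 0))))))) (N (nat_lit 337) (N (nat_lit 335) (N (nat_lit 334) (L (E (nat_lit 2) (nat_lit 0xc3c2aa) (nat_lit 0))) (L (E (nat_lit 2) (nat_lit 0xc40312) (nat_lit 0)))) (N (nat_lit 336) (L (E (nat_lit 2) (nat_lit 0x558170) (nat_lit 0))) (L (E (nat_lit 2) (nat_lit 0x110c4aa) (nat_lit 0))))) (N (nat_lit 339) (N (nat_lit 338) (L (E (nat_lit 0) (nat_lit 0x0) (nat_lit 0))) (L (E (nat_lit 0) (nat_lit 0x0) (nat_lit 0)))) (L (E (nat_lit 2) (nat_lit 0x112462e) (nat_lit 0)))))) (N (nat_lit 348) (N (nat_lit 342) (N (nat_lit 341) (L (E (nat_lit 1) (nat_lit 0x894) (nat_lit 0))) (L (E (nat_lit 2) (nat_lit 0x63c29a) (nat_lit 0)))) (N (nat_lit 345) (N (nat_lit 343) (L (E (nat_lit 2) (nat_lit 0xc682be) (nat_lit 0))) (N (nat_lit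 344) (L (E (nat_lit 0) (nat_lit 0x0) (nat_lit 0))) (L (E (nat_lit 0) (nat_lit 0x0) (nat_lit 0))))) (N (nat_lit 346) (L (E (nat_lit 1) (nat_lit 0x4be) (nat_lit 0))) (N (nat_lit 347) (L (E (nat_lit 0) (nat_lit 0x0) (nat_lit 0))) (L (E (nat_lit 0) (nat_lit 0x0) (nat_lit 0))))))) (N (nat_lit 351) (N (nat_lit 349) (L (E (nat_lit 4) (nat_lit 0x1640b185742b6) (nat_lit 0))) (N (nat_lit 350) (L (E (nat_lit 1) (nat_lit 0x32c) (nat_lit 0))) (L (E (nat_lit 1) (nat_lit 0x4cc) (nat_lit 0))))) (N (nat_lit 353) (N (nat_lit 352) (L (E (nat_lit 0) (nat_lit 0x0) (nat_lit 0))) (L (E (nat_lit 2) (nat_lit 0xc982ae) (nat_lit 0)))) (N (nat_lit 355) (N (nat_lit 354) (L (E (nat_lit 2) (nat_lit 0x5a0180) (nat_lit 0))) (L (E (nat_lit 0) (nat_lit 0x0) (nat_lit 0)))) (L (E (nat_lit 1) (nat_lit 0x656) (nat_lit 0)))))))) (N (nat_lit 381) (N (nat_lit 368) (N (nat_lit 360) (N (nat_lit 358) (N (nat_lit 357) (L (E (nat_lit 3) (nat_lit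 0xb705942ba) (nat_lit 0))) (L (E (nat_lit 4) (nat_lit 0x16f0b305782ba) (nat_lit 0)))) (N (nat_lit 359) (L (E (nat_lit 0) (nat_lit 0x0) (nat_lit 0))) (L (E (nat_lit 2) (nat_lit 0x580186) (nat_lit 0))))) (N (nat_lit 365) (N (nat_lit 363) (N (nat_lit 362) (N (nat_lit 361) (L (E (nat_lit 0) (nat_lit 0x0) (nat_lit 0))) (L (E (nat_lit 0) (nat_lit 0x0) (nat_lit 0)))) (L (E (nat_lit 0) (nat_lit 0x0) (nat_lit 0)))) (N (nat_lit 364) (L (E (nat_lit 0) (nat_lit 0x0) (nat_lit 0))) (L (E (nat_lit 0) (nat_lit 0x0) (nat_lit 0))))) (N (nat_lit 366) (L (E (nat_lit 2) (nat_lit 0x5902c6) (nat_lit 0))) (N (nat_lit 367) (L (E (nat_lit 0) (nat_lit 0x0) (nat_lit 0))) (L (E (nat_lit 0) (nat_lit 0x0) (nat_lit 0))))))) (N (nat_lit 376) (N (nat_lit 371) (N (nat_lit 370) (N (nat_lit 369) (L (E (nat_lit 1) (nat_lit 0x4f0) (nat_lit 0))) (L (E (nat_lit 0) (nat_lit 0x0) (nat_lit 0)))) (L (E (nat_lit 1) (nat_lit 0x2dc) (nat_lit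 0)))) (N (nat_lit 374) (N (nat_lit 373) (N (nat_lit 372) (L (E (nat_lit 0) (nat_lit 0x0) (nat_lit 0))) (L (E (nat_lit 0) (nat_lit 0x0) (nat_lit 0)))) (L (E (nat_lit 0) (nat_lit 0x0) (nat_lit 0)))) (N (nat_lit 375) (L (E (nat_lit 0) (nat_lit 0x0) (nat_lit 0))) (L (E (nat_lit 0) (nat_lit 0x0) (nat_lit 0)))))) (N (nat_lit 379) (N (nat_lit 378) (N (nat_lit 377) (L (E (nat_lit 0) (nat_lit 0x0) (nat_lit 0))) (L (E (nat_lit 0) (nat_lit 0x0) (nat_lit 0)))) (L (E (nat_lit 1) (nat_lit 0x27a) (nat_lit 0)))) (N (nat_lit 380) (L (E (nat_lit 1) (nat_lit 0x940) (nat_lit 0))) (L (E (nat_lit 1) (nat_lit 0x304) (nat_lit 0))))))) (N (nat_lit 388) (N (nat_lit 385) (N (nat_lit 382) (L (E (nat_lit 2) (nat_lit 0x6102fc) (nat_lit 0))) (N (nat_lit 383) (L (E (nat_lit 1) (nat_lit 0x30a) (nat_lit 0))) (N (nat_lit 384) (L (E (nat_lit 0) (nat_lit 0x0) (nat_lit 0))) (L (E (nat_lit 0) (nat_lit 0x0) (nat_lit 0)))))) (N (nat_lit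 387) (N (nat_lit 386) (L (E (nat_lit 0) (nat_lit 0x0) (nat_lit 0))) (L (E (nat_lit 3) (nat_lit 0xbe0518108) (nat_lit 0)))) (L (E (nat_lit 1) (nat_lit 0x622) (nat_lit 0))))) (L (E (nat_lit 5) (nat_lit 0x6242450c5061410c) (nat_lit 0)))))
def nb7 : RA := N (nat_lit 442) (N (nat_lit 435) (N (nat_lit 426) (N (nat_lit 422) (N (nat_lit 420) (N (nat_lit 419) (N (nat_lit 418) (L (E (nat_lit 0) (nat_lit 0x0) (nat_lit 0))) (L (E (nat_lit 0) (nat_lit 0x0) (nat_lit 0)))) (L (E (nat_lit 0) (nat_lit 0x0) (nat_lit 0)))) (N (nat_lit 421) (L (E (nat_lit 0) (nat_lit 0x0) (nat_lit 0))) (L (E (nat_lit 0) (nat_lit 0x0) (nat_lit 0))))) (N (nat_lit 424) (N (nat_lit 423) (L (E (nat_lit 0) (nat_lit 0x0) (nat_lit 0))) (L (E (nat_lit 0) (nat_lit 0x0) (nat_lit 0)))) (N (nat_lit 425) (L (E (nat_lit 0) (nat_lit 0x0) (nat_lit 0))) (L (E (nat_lit 0) (nat_lit 0x0) (nat_lit 0)))))) (N (nat_lit 431) (N (nat_lit 429) (N (nat_lit 428)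 (N (nat_lit 427) (L (E (nat_lit 0) (nat_lit 0x0) (nat_lit 0))) (L (E (nat_lit 0) (nat_lit 0x0) (nat_lit 0)))) (L (E (nat_lit 0) (nat_lit 0x0) (nat_lit 0)))) (N (nat_lit 430) (L (E (nat_lit 0) (nat_lit 0x0) (nat_lit 0))) (L (E (nat_lit 0) (nat_lit 0x0) (nat_lit 0))))) (N (nat_lit 433) (N (nat_lit 432) (L (E (nat_lit 0) (nat_lit 0x0) (nat_lit 0))) (L (E (nat_lit 0) (nat_lit 0x0) (nat_lit 0)))) (N (nat_lit 434) (L (E (nat_lit 0) (nat_lit 0x0) (nat_lit 0))) (L (E (nat_lit 0) (nat_lit 0x0) (nat_lit 0))))))) (N (nat_lit 438) (N (nat_lit 437) (N (nat_lit 436) (L (E (nat_lit 1) (nat_lit 0x36e) (nat_lit 0))) (L (E (nat_lit 0) (nat_lit 0x0) (nat_lit 0)))) (L (E (nat_lit 2) (nat_lit 0x1438538) (nat_lit 0)))) (N (nat_lit 440) (N (nat_lit 439) (L (E (nat_lit 2) (nat_lit 0x143c53a) (nat_lit 0))) (L (E (nat_lit 0) (nat_lit 0x0) (nat_lit 0)))) (N (nat_lit 441) (L (E (nat_lit 1) (nat_lit 0xa26) (nat_lit 0))) (L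 (E (nat_lit 0) (nat_lit 0x0) (nat_lit 0))))))) (N (nat_lit 451) (N (nat_lit 446) (N (nat_lit 444) (N (nat_lit 443) (L (E (nat_lit 1) (nat_lit 0xa2a) (nat_lit 0))) (L (E (nat_lit 2) (nat_lit 0x1458548) (nat_lit 0)))) (N (nat_lit 445) (L (E (nat_lit 0) (nat_lit 0x0) (nat_lit 0))) (L (E (nat_lit 1) (nat_lit 0x6f8) (nat_lit 0))))) (N (nat_lit 450) (N (nat_lit 449) (N (nat_lit 448) (N (nat_lit 447) (L (E (nat_lit 0) (nat_lit 0x0) (nat_lit 0))) (L (E (nat_lit 0) (nat_lit 0x0) (nat_lit 0)))) (L (E (nat_lit 0) (nat_lit 0x0) (nat_lit 0)))) (L (E (nat_lit 1) (nat_lit 0x380) (nat_lit 0)))) (L (E (nat_lit 4) (nat_lit 0x1ca0e18704374) (nat_lit 0))))) (N (nat_lit 457) (N (nat_lit 454) (N (nat_lit 453) (N (nat_lit 452) (L (E (nat_lit 0) (nat_lit 0x0) (nat_lit 0))) (L (E (nat_lit 1) (nat_lit 0xa44) (nat_lit 0)))) (L (E (nat_lit 0) (nat_lit 0x0) (nat_lit 0)))) (N (nat_lit 456) (N (nat_lit 455) (L (E (nat_lit 0)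 (nat_lit 0x0) (nat_lit 0))) (L (E (nat_lit 1) (nat_lit 0xa50) (nat_lit 0)))) (L (E (nat_lit 0) (nat_lit 0x0) (nat_lit 0))))) (N (nat_lit 458) (L (E (nat_lit 1) (nat_lit 0xa54) (nat_lit 0))) (N (nat_lit 459) (L (E (nat_lit 2) (nat_lit 0x14ac570) (nat_lit 0))) (L (E (nat_lit 0) (nat_lit 0x0) (nat_lit 0)))))))
def nb8 : RA := N (nat_lit 521) (N (nat_lit 508) (N (nat_lit 501) (N (nat_lit 500) (N (nat_lit 499) (L (E (nat_lit 0) (nat_lit 0x0) (nat_lit 0))) (L (E (nat_lit 2) (nat_lit 0xcb8184) (nat_lit 0)))) (L (E (nat_lit 0) (nat_lit 0x0) (nat_lit 0)))) (N (nat_lit 505) (N (nat_lit 503) (N (nat_lit 502) (L (E (nat_lit 0) (nat_lit 0x0) (nat_lit 0))) (L (E (nat_lit 0) (nat_lit 0x0) (nat_lit 0)))) (N (nat_lit 504) (L (E (nat_lit 0) (nat_lit 0x0) (nat_lit 0))) (L (E (nat_lit 0) (nat_lit 0x0) (nat_lit 0))))) (N (nat_lit 507) (N (nat_lit 506) (L (E (nat_lit 0) (nat_lit 0x0) (nat_lit 0))) (L (E (nat_lit 1) (nat_lit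 0xb0c) (nat_lit 0)))) (L (E (nat_lit 0) (nat_lit 0x0) (nat_lit 0)))))) (N (nat_lit 513) (N (nat_lit 510) (N (nat_lit 509) (L (E (nat_lit 1) (nat_lit 0x1a6) (nat_lit 0))) (L (E (nat_lit 1) (nat_lit 0x6ca) (nat_lit 0)))) (N (nat_lit 512) (N (nat_lit 511) (L (E (nat_lit 0) (nat_lit 0x0) (nat_lit 0))) (L (E (nat_lit 0) (nat_lit 0x0) (nat_lit 0)))) (L (E (nat_lit 0) (nat_lit 0x0) (nat_lit 0))))) (N (nat_lit 517) (N (nat_lit 515) (N (nat_lit 514) (L (E (nat_lit 0) (nat_lit 0x0) (nat_lit 0))) (L (E (nat_lit 0) (nat_lit 0x0) (nat_lit 0)))) (N (nat_lit 516) (L (E (nat_lit 0) (nat_lit 0x0) (nat_lit 0))) (L (E (nat_lit 0) (nat_lit 0x0) (nat_lit 0))))) (N (nat_lit 519) (N (nat_lit 518) (L (E (nat_lit 0) (nat_lit 0x0) (nat_lit 0))) (L (E (nat_lit 0) (nat_lit 0x0) (nat_lit 0)))) (N (nat_lit 520) (L (E (nat_lit 0) (nat_lit 0x0) (nat_lit 0))) (L (E (nat_lit 0) (nat_lit 0x0) (nat_lit 0)))))))) (N (nat_lit 529) (N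 (nat_lit 525) (N (nat_lit 523) (N (nat_lit 522) (L (E (nat_lit 1) (nat_lit 0xb2a) (nat_lit 0))) (L (E (nat_lit 1) (nat_lit 0x436) (nat_lit 0)))) (N (nat_lit 524) (L (E (nat_lit 0) (nat_lit 0x0) (nat_lit 0))) (L (E (nat_lit 0) (nat_lit 0x0) (nat_lit 0))))) (N (nat_lit 526) (L (E (nat_lit 2) (nat_lit 0x83c206) (nat_lit 0))) (N (nat_lit 527) (L (E (nat_lit 2) (nat_lit 0x4140d2) (nat_lit 0))) (N (nat_lit 528) (L (E (nat_lit 0) (nat_lit 0x0) (nat_lit 0))) (L (E (nat_lit 0) (nat_lit 0x0) (nat_lit 0))))))) (N (nat_lit 535) (N (nat_lit 534) (N (nat_lit 532) (N (nat_lit 531) (N (nat_lit 530) (L (E (nat_lit 0) (nat_lit 0x0) (nat_lit 0))) (L (E (nat_lit 0) (nat_lit 0x0) (nat_lit 0)))) (L (E (nat_lit 0) (nat_lit 0x0) (nat_lit 0)))) (N (nat_lit 533) (L (E (nat_lit 0) (nat_lit 0x0) (nat_lit 0))) (L (E (nat_lit 0) (nat_lit 0x0) (nat_lit 0))))) (L (E (nat_lit 2) (nat_lit 0x10b8432) (nat_lit 0)))) (N (nat_lit 538)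 (N (nat_lit 537) (N (nat_lit 536) (L (E (nat_lit 0) (nat_lit 0x0) (nat_lit 0))) (L (E (nat_lit 0) (nat_lit 0x0) (nat_lit 0)))) (L (E (nat_lit 1) (nat_lit 0x42c) (nat_lit 0)))) (N (nat_lit 539) (L (E (nat_lit 0) (nat_lit 0x0) (nat_lit 0))) (L (E (nat_lit 0) (nat_lit 0x0) (nat_lit 0)))))))
def nb9 : RA := N (nat_lit 460) (N (nat_lit 417) (N (nat_lit 399) (N (nat_lit 393) (N (nat_lit 392) (N (nat_lit 390) (L (E (nat_lit 3) (nat_lit 0xc205fc2fc) (nat_lit 0))) (N (nat_lit 391) (L (E (nat_lit 0) (nat_lit 0x0) (nat_lit 0))) (L (E (nat_lit 0) (nat_lit 0x0) (nat_lit 0))))) (L (E (nat_lit 6) (nat_lit 0x12c863424b0c7862429a) (nat_lit 0)))) (N (nat_lit 395) (N (nat_lit 394) (L (E (nat_lit 5) (nat_lit 0x49818f0c4061029c) (nat_lit 0))) (L (E (nat_lit 5) (nat_lit 0x6c01900c48614308) (nat_lit 0)))) (N (nat_lit 398) (N (nat_lit 397) (N (nat_lit 396) (L (E (nat_lit 0) (nat_lit 0x0) (nat_lit 0))) (L (E (nat_lit 0)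 (nat_lit 0x0) (nat_lit 0)))) (L (E (nat_lit 1) (nat_lit 0x4a4) (nat_lit 0)))) (L (E (nat_lit 1) (nat_lit 0x116) (nat_lit 0)))))) (N (nat_lit 410) (N (nat_lit 406) (N (nat_lit 403) (N (nat_lit 402) (N (nat_lit 401) (N (nat_lit 400) (L (E (nat_lit 0) (nat_lit 0x0) (nat_lit 0))) (L (E (nat_lit 0) (nat_lit 0x0) (nat_lit 0)))) (L (E (nat_lit 0) (nat_lit 0x0) (nat_lit 0)))) (L (E (nat_lit 1) (nat_lit 0x4ae) (nat_lit 0)))) (N (nat_lit 405) (N (nat_lit 404) (L (E (nat_lit 0) (nat_lit 0x0) (nat_lit 0))) (L (E (nat_lit 1) (nat_lit 0x338) (nat_lit 0)))) (L (E (nat_lit 4) (nat_lit 0x19d0ce065831a) (nat_lit 0))))) (N (nat_lit 408) (N (nat_lit 407) (L (E (nat_lit 2) (nat_lit 0xda44b8) (nat_lit 0))) (L (E (nat_lit 3) (nat_lit 0xcb064031e) (nat_lit 0)))) (N (nat_lit 409) (L (E (nat_lit 2) (nat_lit 0x644320) (nat_lit 0))) (L (E (nat_lit 1) (nat_lit 0x662) (nat_lit 0)))))) (N (nat_lit 416) (N (nat_lit 415) (N (nat_lit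 413) (N (nat_lit 412) (N (nat_lit 411) (L (E (nat_lit 0) (nat_lit 0x0) (nat_lit 0))) (L (E (nat_lit 0) (nat_lit 0x0) (nat_lit 0)))) (L (E (nat_lit 0) (nat_lit 0x0) (nat_lit 0)))) (N (nat_lit 414) (L (E (nat_lit 0) (nat_lit 0x0) (nat_lit 0))) (L (E (nat_lit 1) (nat_lit 0x32e) (nat_lit 0))))) (L (E (nat_lit 3) (nat_lit 0x269869834a) (nat_lit 0)))) (L (E (nat_lit 9) (nat_lit 0x9a837019d09a434c19f0cc86602ce) (nat_lit 0)))))) (nb7)) (N (nat_lit 498) (N (nat_lit 489) (N (nat_lit 476) (N (nat_lit 468) (N (nat_lit 464) (N (nat_lit 462) (N (nat_lit 461) (L (E (nat_lit 0) (nat_lit 0x0) (nat_lit 0))) (L (E (nat_lit 3) (nat_lit 0x2970648174) (nat_lit 0)))) (N (nat_lit 463) (L (E (nat_lit 0) (nat_lit 0x0) (nat_lit 0))) (L (E (nat_lit 0) (nat_lit 0x0) (nat_lit 0))))) (N (nat_lit 466) (N (nat_lit 465) (L (E (nat_lit 3) (nat_lit 0xec075c1cc) (nat_lit 0))) (L (E (nat_lit 0) (nat_lit 0x0) (nat_lit 0)))) (N (nat_lit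 467) (L (E (nat_lit 0) (nat_lit 0x0) (nat_lit 0))) (L (E (nat_lit 0) (nat_lit 0x0) (nat_lit 0)))))) (N (nat_lit 471) (N (nat_lit 470) (N (nat_lit 469) (L (E (nat_lit 1) (nat_lit 0xa70) (nat_lit 0))) (L (E (nat_lit 0) (nat_lit 0x0) (nat_lit 0)))) (L (E (nat_lit 2) (nat_lit 0xdc83e6) (nat_lit 0)))) (N (nat_lit 473) (N (nat_lit 472) (L (E (nat_lit 2) (nat_lit 0x7703ac) (nat_lit 0))) (L (E (nat_lit 0) (nat_lit 0x0) (nat_lit 0)))) (N (nat_lit 475) (N (nat_lit 474) (L (E (nat_lit 0) (nat_lit 0x0) (nat_lit 0))) (L (E (nat_lit 0) (nat_lit 0x0) (nat_lit 0)))) (L (E (nat_lit 0) (nat_lit 0x0) (nat_lit 0))))))) (N (nat_lit 484) (N (nat_lit 480) (N (nat_lit 478) (N (nat_lit 477) (L (E (nat_lit 0) (nat_lit 0x0) (nat_lit 0))) (L (E (nat_lit 1) (nat_lit 0x3b0) (nat_lit 0)))) (N (nat_lit 479) (L (E (nat_lit 0) (nat_lit 0x0) (nat_lit 0))) (L (E (nat_lit 1) (nat_lit 0xaa8) (nat_lit 0))))) (N (nat_lit 482) (N (nat_lit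 481) (L (E (nat_lit 0) (nat_lit 0x0) (nat_lit 0))) (L (E (nat_lit 0) (nat_lit 0x0) (nat_lit 0)))) (N (nat_lit 483) (L (E (nat_lit 1) (nat_lit 0x3c8) (nat_lit 0))) (L (E (nat_lit 0) (nat_lit 0x0) (nat_lit 0)))))) (N (nat_lit 487) (N (nat_lit 486) (N (nat_lit 485) (L (E (nat_lit 0) (nat_lit 0x0) (nat_lit 0))) (L (E (nat_lit 0) (nat_lit 0x0) (nat_lit 0)))) (L (E (nat_lit 0) (nat_lit 0x0) (nat_lit 0)))) (N (nat_lit 488) (L (E (nat_lit 4) (nat_lit 0x3820fe07ac382) (nat_lit 0))) (L (E (nat_lit 1) (nat_lit 0x624) (nat_lit 0))))))) (N (nat_lit 497) (N (nat_lit 492) (N (nat_lit 491) (N (nat_lit 490) (L (E (nat_lit 2) (nat_lit 0x7a83ca) (nat_lit 0))) (L (E (nat_lit 0) (nat_lit 0x0) (nat_lit 0)))) (L (E (nat_lit 2) (nat_lit 0xc6817a) (nat_lit 0)))) (N (nat_lit 495) (N (nat_lit 494) (N (nat_lit 493) (L (E (nat_lit 0) (nat_lit 0x0) (nat_lit 0))) (L (E (nat_lit 0) (nat_lit 0x0) (nat_lit 0)))) (L (E (nat_lit 0)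 (nat_lit 0x0) (nat_lit 0)))) (N (nat_lit 496) (L (E (nat_lit 0) (nat_lit 0x0) (nat_lit 0))) (L (E (nat_lit 0) (nat_lit 0x0) (nat_lit 0)))))) (L (E (nat_lit 6) (nat_lit 0x15e864e1f20f70744180) (nat_lit 0))))) (nb8))
def nb10 : RA := N (nat_lit 574) (N (nat_lit 563) (N (nat_lit 550) (N (nat_lit 543) (N (nat_lit 541) (L (E (nat_lit 1) (nat_lit 0x87e) (nat_lit 0))) (N (nat_lit 542) (L (E (nat_lit 2) (nat_lit 0xf9829a) (nat_lit 0))) (L (E (nat_lit 1) (nat_lit 0x88e) (nat_lit 0))))) (N (nat_lit 546) (N (nat_lit 545) (N (nat_lit 544) (L (E (nat_lit 0) (nat_lit 0x0) (nat_lit 0))) (L (E (nat_lit 0) (nat_lit 0x0) (nat_lit 0)))) (L (E (nat_lit 2) (nat_lit 0x554242) (nat_lit 0)))) (N (nat_lit 548) (N (nat_lit 547) (L (E (nat_lit 0) (nat_lit 0x0) (nat_lit 0))) (L (E (nat_lit 0) (nat_lit 0x0) (nat_lit 0)))) (N (nat_lit 549) (L (E (nat_lit 1) (nat_lit 0x738) (nat_lit 0))) (L (E (nat_lit 0) (nat_lit 0x0) (nat_lit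 0))))))) (N (nat_lit 557) (N (nat_lit 556) (N (nat_lit 553) (N (nat_lit 552) (N (nat_lit 551) (L (E (nat_lit 0) (nat_lit 0x0) (nat_lit 0))) (L (E (nat_lit 0) (nat_lit 0x0) (nat_lit 0)))) (L (E (nat_lit 0) (nat_lit 0x0) (nat_lit 0)))) (N (nat_lit 555) (N (nat_lit 554) (L (E (nat_lit 0) (nat_lit 0x0) (nat_lit 0))) (L (E (nat_lit 0) (nat_lit 0x0) (nat_lit 0)))) (L (E (nat_lit 0) (nat_lit 0x0) (nat_lit 0))))) (L (E (nat_lit 6) (nat_lit 0x16c48c04051d004ac1ee) (nat_lit 0)))) (N (nat_lit 559) (N (nat_lit 558) (L (E (nat_lit 1) (nat_lit 0x77a) (nat_lit 0))) (L (E (nat_lit 1) (nat_lit 0xb68) (nat_lit 0)))) (N (nat_lit 561) (N (nat_lit 560) (L (E (nat_lit 0) (nat_lit 0x0) (nat_lit 0))) (L (E (nat_lit 0) (nat_lit 0x0) (nat_lit 0)))) (N (nat_lit 562) (L (E (nat_lit 0) (nat_lit 0x0) (nat_lit 0))) (L (E (nat_lit 0) (nat_lit 0x0) (nat_lit 0)))))))) (N (nat_lit 572) (N (nat_lit 568) (N (nat_lit 566) (N (nat_lit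 565) (N (nat_lit 564) (L (E (nat_lit 0) (nat_lit 0x0) (nat_lit 0))) (L (E (nat_lit 0) (nat_lit 0x0) (nat_lit 0)))) (L (E (nat_lit 2) (nat_lit 0xf28526) (nat_lit 0)))) (N (nat_lit 567) (L (E (nat_lit 0) (nat_lit 0x0) (nat_lit 0))) (L (E (nat_lit 2) (nat_lit 0x8f4470) (nat_lit 0))))) (N (nat_lit 571) (N (nat_lit 570) (N (nat_lit 569) (L (E (nat_lit 1) (nat_lit 0x46e) (nat_lit 0))) (L (E (nat_lit 0) (nat_lit 0x0) (nat_lit 0)))) (L (E (nat_lit 1) (nat_lit 0x74c) (nat_lit 0)))) (L (E (nat_lit 2) (nat_lit 0x1280870) (nat_lit 0))))) (N (nat_lit 573) (L (E (nat_lit 6) (nat_lit 0xf4c48623610b05f0276) (nat_lit 0))) (L (E (nat_lit 6) (nat_lit 0x173094424511f08f02fa) (nat_lit 0)))))) (N (nat_lit 581) (N (nat_lit 579) (N (nat_lit 577) (N (nat_lit 575) (L (E (nat_lit 4) (nat_lit 0x5cd1ea8a7448c) (nat_lit 0))) (N (nat_lit 576) (L (E (nat_lit 0) (nat_lit 0x0) (nat_lit 0))) (L (E (nat_lit 0) (nat_lit 0x0) (nat_lit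 0))))) (N (nat_lit 578) (L (E (nat_lit 1) (nat_lit 0x490) (nat_lit 0))) (L (E (nat_lit 3) (nat_lit 0x2e88f6c482) (nat_lit 0))))) (N (nat_lit 580) (L (E (nat_lit 3) (nat_lit 0x2e91104478) (nat_lit 0))) (L (E (nat_lit 6) (nat_lit 0x174c9523dd126092c486) (nat_lit 0))))) (N (nat_lit 583) (N (nat_lit 582) (L (E (nat_lit 7) (nat_lit 0x2ea093448c24411f061010c) (nat_lit 0))) (L (E (nat_lit 1) (nat_lit 0x48a) (nat_lit 0)))) (N (nat_lit 585) (N (nat_lit 584) (L (E (nat_lit 1) (nat_lit 0xbb0) (nat_lit 0))) (L (E (nat_lit 6) (nat_lit 0x176495e3e31280924482) (nat_lit 0)))) (N (nat_lit 586) (L (E (nat_lit 3) (nat_lit 0x2250ea84a4) (nat_lit 0))) (L (E (nat_lit 6) (nat_lit 0x176c96244b1f2894c496) (nat_lit 0)))))))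
def nb11 : RA := N (nat_lit 624) (N (nat_lit 614) (N (nat_lit 607) (N (nat_lit 605) (L (E (nat_lit 10) (nat_lit 0x118876626713309744b625412986582ac) (nat_lit 0))) (N (nat_lit 606) (L (E (nat_lit 5) (nat_lit 0x7f82c213409784aa) (nat_lit 0))) (L (E (nat_lit 4) (nat_lit 0x4641fe8b0c4ba) (nat_lit 0))))) (N (nat_lit 612) (N (nat_lit 608) (L (E (nat_lit 5) (nat_lit 0xbe83fe1348978454) (nat_lit 0))) (N (nat_lit 611) (N (nat_lit 610) (N (nat_lit 609) (L (E (nat_lit 0) (nat_lit 0x0) (nat_lit 0))) (L (E (nat_lit 0) (nat_lit 0x0) (nat_lit 0)))) (L (E (nat_lit 1) (nat_lit 0xbee) (nat_lit 0)))) (L (E (nat_lit 3) (nat_lit 0x20109b44c8) (nat_lit 0))))) (N (nat_lit 613) (L (E (nat_lit 5) (nat_lit 0xbf246b16489944b2) (nat_lit 0))) (L (E (nat_lit 3) (nat_lit 0x13309904b4) (nat_lit 0)))))) (N (nat_lit 617) (N (nat_lit 615) (L (E (nat_lit 11) (nat_lit 0x2fd934480a2cb13789944b825b1160578220) (nat_lit 0))) (N (nat_lit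 616) (L (E (nat_lit 9) (nat_lit 0xbf846e2030ee459827113809984b8) (nat_lit 0))) (L (E (nat_lit 4) (nat_lit 0x5fd2038b344bc) (nat_lit 0))))) (N (nat_lit 620) (N (nat_lit 618) (L (E (nat_lit 6) (nat_lit 0x17f88e040812f8978340) (nat_lit 0))) (N (nat_lit 619) (L (E (nat_lit 3) (nat_lit 0x2ff91c459e) (nat_lit 0))) (L (E (nat_lit 1) (nat_lit 0x8e4) (nat_lit 0))))) (N (nat_lit 622) (N (nat_lit 621) (L (E (nat_lit 1) (nat_lit 0x5a2) (nat_lit 0))) (L (E (nat_lit 2) (nat_lit 0x9b04c6) (nat_lit 0)))) (N (nat_lit 623) (L (E (nat_lit 5) (nat_lit 0xc064db23a90344da) (nat_lit 0))) (L (E (nat_lit 4) (nat_lit 0x60426e11d84ee) (nat_lit 0)))))))) (N (nat_lit 634) (N (nat_lit 627) (N (nat_lit 625) (L (E (nat_lit 7) (nat_lit 0x30291dc81e27813b89c44ce) (nat_lit 0))) (N (nat_lit 626) (L (E (nat_lit 7) (nat_lit 0x30309c84e0268133859c262) (nat_lit 0))) (L (E (nat_lit 5) (nat_lit 0xc0e4df23c8b5c4e2) (nat_lit 0))))) (N (nat_lit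 631) (N (nat_lit 630) (N (nat_lit 628) (L (E (nat_lit 3) (nat_lit 0x20909a82d2) (nat_lit 0))) (N (nat_lit 629) (L (E (nat_lit 0) (nat_lit 0x0) (nat_lit 0))) (L (E (nat_lit 2) (nat_lit 0x18344ec) (nat_lit 0))))) (L (E (nat_lit 4) (nat_lit 0x60e23f89dc354) (nat_lit 0)))) (N (nat_lit 632) (L (E (nat_lit 6) (nat_lit 0x139c82c28013c09d84de) (nat_lit 0))) (N (nat_lit 633) (L (E (nat_lit 4) (nat_lit 0x2df14009e44e0) (nat_lit 0))) (L (E (nat_lit 1) (nat_lit 0x830) (nat_lit 0))))))) (N (nat_lit 654) (N (nat_lit 642) (N (nat_lit 640) (N (nat_lit 638) (N (nat_lit 636) (N (nat_lit 635) (L (E (nat_lit 1) (nat_lit 0x906) (nat_lit 0))) (L (E (nat_lit 0) (nat_lit 0x0) (nat_lit 0)))) (N (nat_lit 637) (L (E (nat_lit 0) (nat_lit 0x0) (nat_lit 0))) (L (E (nat_lit 0) (nat_lit 0x0) (nat_lit 0))))) (N (nat_lit 639) (L (E (nat_lit 2) (nat_lit 0x13bc5ca) (nat_lit 0))) (L (E (nat_lit 0) (nat_lit 0x0) (nat_lit 0))))) (N (nat_lit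 641) (L (E (nat_lit 4) (nat_lit 0x6182788a044f0) (nat_lit 0))) (L (E (nat_lit 1) (nat_lit 0x500) (nat_lit 0))))) (N (nat_lit 646) (N (nat_lit 643) (L (E (nat_lit 1) (nat_lit 0xc34) (nat_lit 0))) (N (nat_lit 645) (N (nat_lit 644) (L (E (nat_lit 0) (nat_lit 0x0) (nat_lit 0))) (L (E (nat_lit 0) (nat_lit 0x0) (nat_lit 0)))) (L (E (nat_lit 1) (nat_lit 0xc40) (nat_lit 0))))) (N (nat_lit 650) (N (nat_lit 648) (N (nat_lit 647) (L (E (nat_lit 0) (nat_lit 0x0) (nat_lit 0))) (L (E (nat_lit 0) (nat_lit 0x0) (nat_lit 0)))) (N (nat_lit 649) (L (E (nat_lit 0) (nat_lit 0x0) (nat_lit 0))) (L (E (nat_lit 0) (nat_lit 0x0) (nat_lit 0))))) (N (nat_lit 652) (N (nat_lit 651) (L (E (nat_lit 0) (nat_lit 0x0) (nat_lit 0))) (L (E (nat_lit 0) (nat_lit 0x0) (nat_lit 0)))) (N (nat_lit 653) (L (E (nat_lit 0) (nat_lit 0x0) (nat_lit 0))) (L (E (nat_lit 0) (nat_lit 0x0) (nat_lit 0)))))))) (N (nat_lit 655) (L (E (nat_lit 3) (nat_lit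 0x24c9098524) (nat_lit 0))) (N (nat_lit 656) (L (E (nat_lit 2) (nat_lit 0x126884e) (nat_lit 0))) (L (E (nat_lit 1) (nat_lit 0x52a) (nat_lit 0)))))))
def nb12 : RA := N (nat_lit 540) (N (nat_lit 227) (N (nat_lit 180) (N (nat_lit 111) (N (nat_lit 58) (nb0) (nb1)) (N (nat_lit 139) (N (nat_lit 121) (N (nat_lit 115) (N (nat_lit 113) (N (nat_lit 112) (L (E (nat_lit 1) (nat_lit 0x202) (nat_lit 0))) (L (E (nat_lit 4) (nat_lit 0x21a04281d0062) (nat_lit 0)))) (N (nat_lit 114) (L (E (nat_lit 0) (nat_lit 0x0) (nat_lit 0))) (L (E (nat_lit 1) (nat_lit 0x64) (nat_lit 0))))) (N (nat_lit 120) (N (nat_lit 117) (N (nat_lit 116) (L (E (nat_lit 2) (nat_lit 0x870066) (nat_lit 0))) (L (E (nat_lit 0) (nat_lit 0x0) (nat_lit 0)))) (N (nat_lit 119) (N (nat_lit 118) (L (E (nat_lit 0) (nat_lit 0x0) (nat_lit 0))) (L (E (nat_lit 0) (nat_lit 0x0) (nat_lit 0)))) (L (E (nat_lit 0) (nat_lit 0x0) (nat_lit 0))))) (L (E (nat_lit 3)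 (nat_lit 0x111843806c) (nat_lit 0))))) (N (nat_lit 130) (N (nat_lit 126) (N (nat_lit 123) (N (nat_lit 122) (L (E (nat_lit 3) (nat_lit 0x11283cc06e) (nat_lit 0))) (L (E (nat_lit 0) (nat_lit 0x0) (nat_lit 0)))) (N (nat_lit 124) (L (E (nat_lit 2) (nat_lit 0x8a41ec) (nat_lit 0))) (N (nat_lit 125) (L (E (nat_lit 0) (nat_lit 0x0) (nat_lit 0))) (L (E (nat_lit 0) (nat_lit 0x0) (nat_lit 0)))))) (N (nat_lit 127) (L (E (nat_lit 1) (nat_lit 0x76) (nat_lit 0))) (N (nat_lit 128) (L (E (nat_lit 1) (nat_lit 0x226) (nat_lit 0))) (N (nat_lit 129) (L (E (nat_lit 0) (nat_lit 0x0) (nat_lit 0))) (L (E (nat_lit 0) (nat_lit 0x0) (nat_lit 0))))))) (N (nat_lit 134) (N (nat_lit 132) (N (nat_lit 131) (L (E (nat_lit 0) (nat_lit 0x0) (nat_lit 0))) (L (E (nat_lit 0) (nat_lit 0x0) (nat_lit 0)))) (N (nat_lit 133) (L (E (nat_lit 1) (nat_lit 0x304) (nat_lit 0))) (L (E (nat_lit 0) (nat_lit 0x0) (nat_lit 0))))) (N (nat_lit 135) (L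 (E (nat_lit 1) (nat_lit 0x308) (nat_lit 0))) (N (nat_lit 137) (N (nat_lit 136) (L (E (nat_lit 0) (nat_lit 0x0) (nat_lit 0))) (L (E (nat_lit 0) (nat_lit 0x0) (nat_lit 0)))) (N (nat_lit 138) (L (E (nat_lit 0) (nat_lit 0x0) (nat_lit 0))) (L (E (nat_lit 0) (nat_lit 0x0) (nat_lit 0))))))))) (nb2))) (nb3)) (N (nat_lit 389) (N (nat_lit 323) (N (nat_lit 275) (nb4) (nb5)) (nb6)) (nb9))) (N (nat_lit 657) (N (nat_lit 604) (N (nat_lit 587) (nb10) (N (nat_lit 596) (N (nat_lit 593) (N (nat_lit 588) (L (E (nat_lit 8) (nat_lit 0x4b21f30eb04a824c1250620208) (nat_lit 0))) (N (nat_lit 589) (L (E (nat_lit 8) (nat_lit 0x5dd25991347ce2551258910312) (nat_lit 0))) (N (nat_lit 590) (L (E (nat_lit 6) (nat_lit 0x17789682af12b095448a) (nat_lit 0))) (N (nat_lit 592) (N (nat_lit 591) (L (E (nat_lit 0) (nat_lit 0x0) (nat_lit 0))) (L (E (nat_lit 2) (nat_lit 0x114049c) (nat_lit 0)))) (L (E (nat_lit 1) (nat_lit 0x8a8) (nat_lit 0)))))))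 (N (nat_lit 595) (N (nat_lit 594) (L (E (nat_lit 4) (nat_lit 0x5e425c89684b2) (nat_lit 0))) (L (E (nat_lit 8) (nat_lit 0x5e51f78ad84b42490c6853423e) (nat_lit 0)))) (L (E (nat_lit 10) (nat_lit 0x17989764571f809704a82521258928116) (nat_lit 0))))) (N (nat_lit 600) (N (nat_lit 598) (N (nat_lit 597) (L (E (nat_lit 5) (nat_lit 0xbce3f115c09704a6) (nat_lit 0))) (L (E (nat_lit 8) (nat_lit 0x5e815c89784ba24c0a80428118) (nat_lit 0)))) (N (nat_lit 599) (L (E (nat_lit 5) (nat_lit 0x97c45a1f9895449a) (nat_lit 0))) (L (E (nat_lit 3) (nat_lit 0x2f512fc576) (nat_lit 0))))) (N (nat_lit 602) (N (nat_lit 601) (L (E (nat_lit 1) (nat_lit 0x4c6) (nat_lit 0))) (L (E (nat_lit 6) (nat_lit 0xfe057c26412889402a6) (nat_lit 0)))) (N (nat_lit 603) (L (E (nat_lit 8) (nat_lit 0x4c51fc89944c825b12c89484a2) (nat_lit 0))) (L (E (nat_lit 4) (nat_lit 0x5f013289704b4) (nat_lit 0)))))))) (nb11)) (N (nat_lit 662) (N (nat_lit 661) (N (nat_lit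 660) (N (nat_lit 659) (N (nat_lit 658) (L (E (nat_lit 4) (nat_lit 0x3c317c0a6052e) (nat_lit 0))) (L (E (nat_lit 8) (nat_lit 0x4a02168f105f22991470450120) (nat_lit 0)))) (L (E (nat_lit 6) (nat_lit 0x18b094242e17d0a64122) (nat_lit 0)))) (L (E (nat_lit 9) (nat_lit 0x94442f1e30bec53429511b0454124) (nat_lit 0)))) (L (E (nat_lit 10) (nat_lit 0x14249464301e38bf053829411b86c8126) (nat_lit 0)))) (N (nat_lit 665) (N (nat_lit 664) (N (nat_lit 663) (L (E (nat_lit 1) (nat_lit 0xc5e) (nat_lit 0))) (L (E (nat_lit 5) (nat_lit 0x94c4351e48bf822c) (nat_lit 0)))) (L (E (nat_lit 10) (nat_lit 0x142894e4361e50bfc532292148845c128) (nat_lit 0)))) (L (E (nat_lit 12) (nat_lit 0x50b1e58c005442a114c0a4c52423a0bc846012a) (nat_lit 0))))))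
def nb13 : RA := N (nat_lit 683) (N (nat_lit 666) (nb12) (N (nat_lit 676) (N (nat_lit 673) (N (nat_lit 669) (N (nat_lit 668) (N (nat_lit 667) (L (E (nat_lit 12) (nat_lit 0x50c25490e06022a31510a504761b409d046412c) (nat_lit 0))) (L (E (nat_lit 1) (nat_lit 0xc62) (nat_lit 0)))) (L (E (nat_lit 12) (nat_lit 0x50e25590e879c3031528a9053a29511e86d4130) (nat_lit 0)))) (N (nat_lit 670) (L (E (nat_lit 10) (nat_lit 0x143c95843b1820a9453829611f06d8132) (nat_lit 0))) (N (nat_lit 671) (L (E (nat_lit 5) (nat_lit 0x95a43c1538a7436e) (nat_lit 0))) (N (nat_lit 672) (L (E (nat_lit 2) (nat_lit 0x12bc87a) (nat_lit 0))) (L (E (nat_lit 0) (nat_lit 0x0) (nat_lit 0))))))) (N (nat_lit 675) (N (nat_lit 674) (L (E (nat_lit 14) (nat_lit 0x144c96243f1e90c1c5542a214c8a6048217b09f046c134) (nat_lit 0))) (L (E (nat_lit 15) (nat_lit 0x28a12c88803d31840ab05462a114d0a644841b90be04fc136) (nat_lit 0)))) (L (E (nat_lit 15) (nat_lit 0x28a92cc8823d41848ab05482a214d090c37417d0a00470138)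 (nat_lit 0))))) (N (nat_lit 681) (N (nat_lit 677) (L (E (nat_lit 15) (nat_lit 0x28b12d08843d51850ab854a2a314e091037617e0a0847413a) (nat_lit 0))) (N (nat_lit 678) (L (E (nat_lit 11) (nat_lit 0x28b92d488630b1578ab854829d14e091413c) (nat_lit 0))) (N (nat_lit 680) (N (nat_lit 679) (L (E (nat_lit 0) (nat_lit 0x0) (nat_lit 0))) (L (E (nat_lit 5) (nat_lit 0x96e4451580a7837c) (nat_lit 0)))) (L (E (nat_lit 4) (nat_lit 0x4b82238c34552) (nat_lit 0)))))) (N (nat_lit 682) (L (E (nat_lit 12) (nat_lit 0x51c25c91207b430e1598aa85502470c0047813e) (nat_lit 0))) (L (E (nat_lit 14) (nat_lit 0x14749744491ed8c3c56a2a9150892037e1810a2847c140) (nat_lit 0))))))) (N (nat_lit 696) (N (nat_lit 693) (N (nat_lit 687) (N (nat_lit 685) (N (nat_lit 684) (L (E (nat_lit 1) (nat_lit 0xc78) (nat_lit 0))) (L (E (nat_lit 16) (nat_lit 0x51f25e112c7ba31115b8ad85562a315109283821830a38484142) (nat_lit 0)))) (N (nat_lit 686) (L (E (nat_lit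 0) (nat_lit 0x0) (nat_lit 0))) (L (E (nat_lit 13) (nat_lit 0xa424be2268f7c6262b915c0abc54a2a41260614292) (nat_lit 0))))) (N (nat_lit 688) (L (E (nat_lit 15) (nat_lit 0x29112fc89c3e018a0ae45602ae15289343881860a50490146) (nat_lit 0))) (N (nat_lit 689) (L (E (nat_lit 11) (nat_lit 0x291930089e3e118a8aec55e2a71270714148) (nat_lit 0))) (N (nat_lit 691) (N (nat_lit 690) (L (E (nat_lit 0) (nat_lit 0x0) (nat_lit 0))) (L (E (nat_lit 4) (nat_lit 0x4c32290c58550) (nat_lit 0)))) (N (nat_lit 692) (L (E (nat_lit 8) (nat_lit 0x526262114c7c631715e0ac8552) (nat_lit 0))) (L (E (nat_lit 0) (nat_lit 0x0) (nat_lit 0)))))))) (N (nat_lit 695) (N (nat_lit 694) (L (E (nat_lit 15) (nat_lit 0x29413188aa3e518c8afc57c2b6155094438e1870a6049814a) (nat_lit 0))) (L (E (nat_lit 13) (nat_lit 0xa523e618d0b0057e2b715a8ab04a41c80c4053424e) (nat_lit 0)))) (L (E (nat_lit 14) (nat_lit 0x14a89904571f38c6c5802b815b0ab04a61c90c4853814c) (nat_lit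 0))))) (N (nat_lit 703) (N (nat_lit 698) (N (nat_lit 697) (L (E (nat_lit 15) (nat_lit 0x29593248b03e818e0b085722b7157095039418a0a784a014e) (nat_lit 0))) (L (E (nat_lit 15) (nat_lit 0x29613288b23e918e8b0c5842b81578ab84aa1cb0c58540150) (nat_lit 0)))) (N (nat_lit 702) (N (nat_lit 700) (N (nat_lit 699) (L (E (nat_lit 1) (nat_lit 0xc92) (nat_lit 0))) (L (E (nat_lit 7) (nat_lit 0x29713308b62c4158095c39a) (nat_lit 0)))) (N (nat_lit 701) (L (E (nat_lit 9) (nat_lit 0xa5e4ce22e8fb46422c615e8acc252) (nat_lit 0))) (L (E (nat_lit 10) (nat_lit 0x14c099e45e1f70c885902bc0c60548254) (nat_lit 0))))) (L (E (nat_lit 10) (nat_lit 0x14c47de3231648b2057e2b512c86342a6) (nat_lit 0))))) (N (nat_lit 705) (N (nat_lit 704) (L (E (nat_lit 15) (nat_lit 0x29913448c03f01920b245802be15b0ad44b41ce0c704ac152) (nat_lit 0))) (L (E (nat_lit 16) (nat_lit 0x53326911847e23251658b0457e2b715b096c39e18f0aa84b0154) (nat_lit 0)))) (N (nat_lit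 706) (L (E (nat_lit 1) (nat_lit 0xca2) (nat_lit 0))) (L (E (nat_lit 15) (nat_lit 0x29a93508c63f31938b345982c315c8ae04ba1910ab84b4156) (nat_lit 0)))))))
def nb14 : RA := N (nat_lit 775) (N (nat_lit 746) (N (nat_lit 744) (L (E (nat_lit 9) (nat_lit 0xab84fb24510606922ef1730b7c500) (nat_lit 0))) (N (nat_lit 745) (L (E (nat_lit 1) (nat_lit 0xcea) (nat_lit 0))) (L (E (nat_lit 9) (nat_lit 0xabc4fd24610685e02e11700a082e8) (nat_lit 0))))) (N (nat_lit 767) (N (nat_lit 752) (N (nat_lit 751) (N (nat_lit 749) (N (nat_lit 748) (N (nat_lit 747) (L (E (nat_lit 0) (nat_lit 0x0) (nat_lit 0))) (L (E (nat_lit 3) (nat_lit 0x27f8d345c8) (nat_lit 0)))) (L (E (nat_lit 5) (nat_lit 0xa0048f1a70b942ea) (nat_lit 0)))) (N (nat_lit 750) (L (E (nat_lit 4) (nat_lit 0x56128092405ca) (nat_lit 0))) (L (E (nat_lit 0) (nat_lit 0x0) (nat_lit 0))))) (L (E (nat_lit 8) (nat_lit 0x563281924883a35117b0bc05ce) (nat_lit 0)))) (N (nat_lit 758)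 (N (nat_lit 753) (L (E (nat_lit 7) (nat_lit 0x2b2141092641e1778ba4510) (nat_lit 0))) (N (nat_lit 755) (N (nat_lit 754) (L (E (nat_lit 2) (nat_lit 0x15945d2) (nat_lit 0))) (L (E (nat_lit 0) (nat_lit 0x0) (nat_lit 0)))) (N (nat_lit 757) (N (nat_lit 756) (L (E (nat_lit 2) (nat_lit 0xd4c5da) (nat_lit 0))) (L (E (nat_lit 1) (nat_lit 0xa0c) (nat_lit 0)))) (L (E (nat_lit 2) (nat_lit 0x10846a8) (nat_lit 0)))))) (N (nat_lit 763) (N (nat_lit 759) (L (E (nat_lit 2) (nat_lit 0xbbc518) (nat_lit 0))) (N (nat_lit 762) (N (nat_lit 761) (N (nat_lit 760) (L (E (nat_lit 0) (nat_lit 0x0) (nat_lit 0))) (L (E (nat_lit 1) (nat_lit 0xa16) (nat_lit 0)))) (L (E (nat_lit 0) (nat_lit 0x0) (nat_lit 0)))) (L (E (nat_lit 2) (nat_lit 0xbec526) (nat_lit 0))))) (N (nat_lit 765) (N (nat_lit 764) (L (E (nat_lit 5) (nat_lit 0xd0c4a22148be8528) (nat_lit 0))) (L (E (nat_lit 3) (nat_lit 0x2878bec52a) (nat_lit 0)))) (N (nat_lit 766) (L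 (E (nat_lit 0) (nat_lit 0x0) (nat_lit 0))) (L (E (nat_lit 7) (nat_lit 0x344144c94c42d1830a5c27c) (nat_lit 0)))))))) (N (nat_lit 771) (N (nat_lit 770) (N (nat_lit 769) (N (nat_lit 768) (L (E (nat_lit 5) (nat_lit 0xd124a72170c18530) (nat_lit 0))) (L (E (nat_lit 4) (nat_lit 0x5151838be8532) (nat_lit 0)))) (L (E (nat_lit 6) (nat_lit 0x14588603091840c08534) (nat_lit 0)))) (L (E (nat_lit 5) (nat_lit 0xa2e4311ab8c04168) (nat_lit 0)))) (N (nat_lit 774) (N (nat_lit 772) (L (E (nat_lit 4) (nat_lit 0x68d2558a70286) (nat_lit 0))) (N (nat_lit 773) (L (E (nat_lit 0) (nat_lit 0x0) (nat_lit 0))) (L (E (nat_lit 3) (nat_lit 0x28e90d860c) (nat_lit 0))))) (L (E (nat_lit 7) (nat_lit 0x1878c1c60a2ff17f05e828c) (nat_lit 0))))))) (N (nat_lit 793) (N (nat_lit 785) (N (nat_lit 778) (N (nat_lit 776) (L (E (nat_lit 8) (nat_lit 0x69128f92c48703081830c0028e) (nat_lit 0))) (N (nat_lit 777) (L (E (nat_lit 11) (nat_lit 0x34912c86223101848c1c60230015105f016c)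 (nat_lit 0))) (L (E (nat_lit 8) (nat_lit 0x69329092cc6243111850c20602) (nat_lit 0))))) (N (nat_lit 784) (N (nat_lit 783) (N (nat_lit 782) (N (nat_lit 780) (N (nat_lit 779) (L (E (nat_lit 1) (nat_lit 0xa44) (nat_lit 0))) (L (E (nat_lit 3) (nat_lit 0x29190f0626) (nat_lit 0)))) (N (nat_lit 781) (L (E (nat_lit 1) (nat_lit 0x62a) (nat_lit 0))) (L (E (nat_lit 1) (nat_lit 0x970) (nat_lit 0))))) (L (E (nat_lit 5) (nat_lit 0xd3052825c90fc552) (nat_lit 0)))) (L (E (nat_lit 5) (nat_lit 0xd325291830aa829a) (nat_lit 0)))) (L (E (nat_lit 6) (nat_lit 0x15bca544bb2208c68632) (nat_lit 0))))) (N (nat_lit 787) (N (nat_lit 786) (L (E (nat_lit 10) (nat_lit 0x1a6ca564bc2210c6c6343121848c2029e) (nat_lit 0))) (L (E (nat_lit 11) (nat_lit 0x2b814b088636118e0c6c62631118486102a0) (nat_lit 0)))) (N (nat_lit 789) (N (nat_lit 788) (L (E (nat_lit 9) (nat_lit 0xd3a4be18e8c706283121858ab82a2) (nat_lit 0))) (L (E (nat_lit 4) (nat_lit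 0x69e2970c4c55e) (nat_lit 0)))) (N (nat_lit 792) (N (nat_lit 791) (N (nat_lit 790) (L (E (nat_lit 1) (nat_lit 0x618) (nat_lit 0))) (L (E (nat_lit 0) (nat_lit 0x0) (nat_lit 0)))) (L (E (nat_lit 6) (nat_lit 0x1a88a6232118c0c58566) (nat_lit 0)))) (L (E (nat_lit 8) (nat_lit 0x532262912864632218c8c5c61e) (nat_lit 0))))))) (N (nat_lit 797) (N (nat_lit 795) (N (nat_lit 794) (L (E (nat_lit 8) (nat_lit 0x6a4299931889631a18c0c4056a) (nat_lit 0))) (L (E (nat_lit 11) (nat_lit 0x3528d9464a32418d8c6462231015b07ac310) (nat_lit 0)))) (N (nat_lit 796) (L (E (nat_lit 13) (nat_lit 0xd4c535264113464c32518e0c6862431115b87b017c) (nat_lit 0))) (L (E (nat_lit 11) (nat_lit 0x35394d89923671938c9863a31b1898c48570) (nat_lit 0))))) (N (nat_lit 803) (N (nat_lit 802) (N (nat_lit 798) (L (E (nat_lit 6) (nat_lit 0x1aa0a6e32718f0c4c572) (nat_lit 0))) (N (nat_lit 799) (L (E (nat_lit 5) (nat_lit 0xa704cb2280c74628) (nat_lit 0))) (N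 (nat_lit 801) (N (nat_lit 800) (L (E (nat_lit 1) (nat_lit 0x63c) (nat_lit 0))) (L (E (nat_lit 0) (nat_lit 0x0) (nat_lit 0)))) (L (E (nat_lit 3) (nat_lit 0x3560ca8578) (nat_lit 0)))))) (L (E (nat_lit 9) (nat_lit 0xd5a53d267915465832b1918c84630) (nat_lit 0)))) (N (nat_lit 804) (L (E (nat_lit 10) (nat_lit 0x1ab8aee3691968cb064832218c8c6057c) (nat_lit 0))) (L (E (nat_lit 8) (nat_lit 0x6af29f93448ae32e1918c6857e) (nat_lit 0)))))))
def nb15 : RA := N (nat_lit 841) (N (nat_lit 835) (L (E (nat_lit 4) (nat_lit 0x3431a08ce4670) (nat_lit 0))) (N (nat_lit 836) (L (E (nat_lit 8) (nat_lit 0x6d22af13cc8f23491a10ce43ee) (nat_lit 0))) (N (nat_lit 839) (N (nat_lit 837) (L (E (nat_lit 2) (nat_lit 0x1b4c5c0) (nat_lit 0))) (N (nat_lit 838) (L (E (nat_lit 0) (nat_lit 0x0) (nat_lit 0))) (L (E (nat_lit 4) (nat_lit 0x34e1a68d1c67e) (nat_lit 0))))) (N (nat_lit 840) (L (E (nat_lit 5) (nat_lit 0xdb04f91a70d183bc) (nat_lit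 0))) (L (E (nat_lit 4) (nat_lit 0x5631a78d085cc) (nat_lit 0))))))) (N (nat_lit 861) (N (nat_lit 848) (N (nat_lit 843) (N (nat_lit 842) (L (E (nat_lit 3) (nat_lit 0x36d13ec5ce) (nat_lit 0))) (L (E (nat_lit 0) (nat_lit 0x0) (nat_lit 0)))) (N (nat_lit 846) (N (nat_lit 844) (L (E (nat_lit 1) (nat_lit 0x688) (nat_lit 0))) (N (nat_lit 845) (L (E (nat_lit 1) (nat_lit 0x68a) (nat_lit 0))) (L (E (nat_lit 0) (nat_lit 0x0) (nat_lit 0))))) (N (nat_lit 847) (L (E (nat_lit 1) (nat_lit 0xace) (nat_lit 0))) (L (E (nat_lit 1) (nat_lit 0xdc4) (nat_lit 0)))))) (N (nat_lit 854) (N (nat_lit 850) (N (nat_lit 849) (L (E (nat_lit 2) (nat_lit 0x1408916) (nat_lit 0))) (L (E (nat_lit 1) (nat_lit 0x5de) (nat_lit 0)))) (N (nat_lit 852) (N (nat_lit 851) (L (E (nat_lit 0) (nat_lit 0x0) (nat_lit 0))) (L (E (nat_lit 0) (nat_lit 0x0) (nat_lit 0)))) (N (nat_lit 853) (L (E (nat_lit 0) (nat_lit 0x0) (nat_lit 0))) (L (E (nat_lit 0)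 (nat_lit 0x0) (nat_lit 0)))))) (N (nat_lit 858) (N (nat_lit 856) (N (nat_lit 855) (L (E (nat_lit 0) (nat_lit 0x0) (nat_lit 0))) (L (E (nat_lit 1) (nat_lit 0x2fe) (nat_lit 0)))) (N (nat_lit 857) (L (E (nat_lit 0) (nat_lit 0x0) (nat_lit 0))) (L (E (nat_lit 0) (nat_lit 0x0) (nat_lit 0))))) (N (nat_lit 860) (N (nat_lit 859) (L (E (nat_lit 0) (nat_lit 0x0) (nat_lit 0))) (L (E (nat_lit 1) (nat_lit 0x30c) (nat_lit 0)))) (L (E (nat_lit 0) (nat_lit 0x0) (nat_lit 0))))))) (N (nat_lit 873) (N (nat_lit 867) (N (nat_lit 865) (N (nat_lit 863) (N (nat_lit 862) (L (E (nat_lit 0) (nat_lit 0x0) (nat_lit 0))) (L (E (nat_lit 0) (nat_lit 0x0) (nat_lit 0)))) (N (nat_lit 864) (L (E (nat_lit 0) (nat_lit 0x0) (nat_lit 0))) (L (E (nat_lit 0) (nat_lit 0x0) (nat_lit 0))))) (N (nat_lit 866) (L (E (nat_lit 1) (nat_lit 0xb12) (nat_lit 0))) (L (E (nat_lit 1) (nat_lit 0xb14) (nat_lit 0))))) (N (nat_lit 870) (N (nat_lit 868) (L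 (E (nat_lit 1) (nat_lit 0x380) (nat_lit 0))) (N (nat_lit 869) (L (E (nat_lit 0) (nat_lit 0x0) (nat_lit 0))) (L (E (nat_lit 0) (nat_lit 0x0) (nat_lit 0))))) (N (nat_lit 871) (L (E (nat_lit 1) (nat_lit 0x97c) (nat_lit 0))) (N (nat_lit 872) (L (E (nat_lit 1) (nat_lit 0xa6c) (nat_lit 0))) (L (E (nat_lit 0) (nat_lit 0x0) (nat_lit 0))))))) (L (E (nat_lit 3) (nat_lit 0x19187ac390) (nat_lit 0)))))
def nb16 : RA := N (nat_lit 930) (N (nat_lit 915) (N (nat_lit 910) (N (nat_lit 907) (N (nat_lit 906) (L (E (nat_lit 1) (nat_lit 0xe44) (nat_lit 0))) (L (E (nat_lit 0) (nat_lit 0x0) (nat_lit 0)))) (N (nat_lit 909) (N (nat_lit 908) (L (E (nat_lit 0) (nat_lit 0x0) (nat_lit 0))) (L (E (nat_lit 0) (nat_lit 0x0) (nat_lit 0)))) (L (E (nat_lit 1) (nat_lit 0xe4e) (nat_lit 0))))) (N (nat_lit 911) (L (E (nat_lit 1) (nat_lit 0xe50) (nat_lit 0))) (N (nat_lit 913) (N (nat_lit 912) (L (E (nat_lit 0) (nat_lit 0x0) (nat_lit 0)))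 (L (E (nat_lit 0) (nat_lit 0x0) (nat_lit 0)))) (N (nat_lit 914) (L (E (nat_lit 0) (nat_lit 0x0) (nat_lit 0))) (L (E (nat_lit 0) (nat_lit 0x0) (nat_lit 0))))))) (N (nat_lit 923) (N (nat_lit 919) (N (nat_lit 917) (N (nat_lit 916) (L (E (nat_lit 1) (nat_lit 0x3d8) (nat_lit 0))) (L (E (nat_lit 0) (nat_lit 0x0) (nat_lit 0)))) (N (nat_lit 918) (L (E (nat_lit 0) (nat_lit 0x0) (nat_lit 0))) (L (E (nat_lit 1) (nat_lit 0x3ea) (nat_lit 0))))) (N (nat_lit 922) (N (nat_lit 921) (N (nat_lit 920) (L (E (nat_lit 0) (nat_lit 0x0) (nat_lit 0))) (L (E (nat_lit 0) (nat_lit 0x0) (nat_lit 0)))) (L (E (nat_lit 0) (nat_lit 0x0) (nat_lit 0)))) (L (E (nat_lit 1) (nat_lit 0xe74) (nat_lit 0))))) (N (nat_lit 926) (N (nat_lit 925) (N (nat_lit 924) (L (E (nat_lit 0) (nat_lit 0x0) (nat_lit 0))) (L (E (nat_lit 1) (nat_lit 0x448) (nat_lit 0)))) (L (E (nat_lit 0) (nat_lit 0x0) (nat_lit 0)))) (N (nat_lit 928) (N (nat_lit 927) (L (E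 (nat_lit 1) (nat_lit 0x740) (nat_lit 0))) (L (E (nat_lit 0) (nat_lit 0x0) (nat_lit 0)))) (N (nat_lit 929) (L (E (nat_lit 0) (nat_lit 0x0) (nat_lit 0))) (L (E (nat_lit 0) (nat_lit 0x0) (nat_lit 0)))))))) (N (nat_lit 940) (N (nat_lit 937) (N (nat_lit 933) (N (nat_lit 931) (L (E (nat_lit 1) (nat_lit 0xe7c) (nat_lit 0))) (N (nat_lit 932) (L (E (nat_lit 0) (nat_lit 0x0) (nat_lit 0))) (L (E (nat_lit 0) (nat_lit 0x0) (nat_lit 0))))) (N (nat_lit 935) (N (nat_lit 934) (L (E (nat_lit 1) (nat_lit 0x748) (nat_lit 0))) (L (E (nat_lit 0) (nat_lit 0x0) (nat_lit 0)))) (N (nat_lit 936) (L (E (nat_lit 0) (nat_lit 0x0) (nat_lit 0))) (L (E (nat_lit 1) (nat_lit 0xba4) (nat_lit 0)))))) (N (nat_lit 938) (L (E (nat_lit 1) (nat_lit 0xbb2) (nat_lit 0))) (N (nat_lit 939) (L (E (nat_lit 1) (nat_lit 0x492) (nat_lit 0))) (L (E (nat_lit 1) (nat_lit 0x75e) (nat_lit 0)))))) (N (nat_lit 946) (N (nat_lit 945) (N (nat_lit 943) (N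 (nat_lit 942) (N (nat_lit 941) (L (E (nat_lit 0) (nat_lit 0x0) (nat_lit 0))) (L (E (nat_lit 0) (nat_lit 0x0) (nat_lit 0)))) (L (E (nat_lit 0) (nat_lit 0x0) (nat_lit 0)))) (N (nat_lit 944) (L (E (nat_lit 1) (nat_lit 0xbca) (nat_lit 0))) (L (E (nat_lit 0) (nat_lit 0x0) (nat_lit 0))))) (L (E (nat_lit 4) (nat_lit 0x5ee2d80ed876a) (nat_lit 0)))) (N (nat_lit 948) (N (nat_lit 947) (L (E (nat_lit 0) (nat_lit 0x0) (nat_lit 0))) (L (E (nat_lit 2) (nat_lit 0xee04b8) (nat_lit 0)))) (L (E (nat_lit 2) (nat_lit 0x1d08448) (nat_lit 0))))))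
def nb17 : RA := N (nat_lit 979) (N (nat_lit 965) (N (nat_lit 955) (N (nat_lit 952) (N (nat_lit 951) (N (nat_lit 950) (L (E (nat_lit 1) (nat_lit 0xbf0) (nat_lit 0))) (L (E (nat_lit 3) (nat_lit 0x2db889841e) (nat_lit 0)))) (L (E (nat_lit 5) (nat_lit 0xe8859f1dc089c420) (nat_lit 0)))) (N (nat_lit 953) (L (E (nat_lit 2) (nat_lit 0xef4422) (nat_lit 0))) (N (nat_lit 954) (L (E (nat_lit 0) (nat_lit 0x0) (nat_lit 0))) (L (E (nat_lit 0) (nat_lit 0x0) (nat_lit 0)))))) (N (nat_lit 960) (N (nat_lit 958) (N (nat_lit 957) (N (nat_lit 956) (L (E (nat_lit 0) (nat_lit 0x0) (nat_lit 0))) (L (E (nat_lit 1) (nat_lit 0xe92) (nat_lit 0)))) (L (E (nat_lit 0) (nat_lit 0x0) (nat_lit 0)))) (N (nat_lit 959) (L (E (nat_lit 1) (nat_lit 0x780) (nat_lit 0))) (L (E (nat_lit 1) (nat_lit 0x782) (nat_lit 0))))) (N (nat_lit 963) (N (nat_lit 962) (N (nat_lit 961) (L (E (nat_lit 0) (nat_lit 0x0) (nat_lit 0))) (L (E (nat_lit 1) (nat_lit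 0xea0) (nat_lit 0)))) (L (E (nat_lit 0) (nat_lit 0x0) (nat_lit 0)))) (N (nat_lit 964) (L (E (nat_lit 1) (nat_lit 0x522) (nat_lit 0))) (L (E (nat_lit 1) (nat_lit 0x228) (nat_lit 0))))))) (N (nat_lit 972) (N (nat_lit 970) (N (nat_lit 969) (N (nat_lit 967) (N (nat_lit 966) (L (E (nat_lit 1) (nat_lit 0x796) (nat_lit 0))) (L (E (nat_lit 0) (nat_lit 0x0) (nat_lit 0)))) (N (nat_lit 968) (L (E (nat_lit 0) (nat_lit 0x0) (nat_lit 0))) (L (E (nat_lit 0) (nat_lit 0x0) (nat_lit 0))))) (L (E (nat_lit 3) (nat_lit 0x1e50f2052e) (nat_lit 0)))) (N (nat_lit 971) (L (E (nat_lit 3) (nat_lit 0x1e488d440e) (nat_lit 0))) (L (E (nat_lit 1) (nat_lit 0x788) (nat_lit 0))))) (N (nat_lit 975) (N (nat_lit 973) (L (E (nat_lit 3) (nat_lit 0x2e990c07a6) (nat_lit 0))) (N (nat_lit 974) (L (E (nat_lit 0) (nat_lit 0x0) (nat_lit 0))) (L (E (nat_lit 1) (nat_lit 0x7ac) (nat_lit 0))))) (N (nat_lit 977) (N (nat_lit 976) (L (E (nat_lit 1)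 (nat_lit 0xbac) (nat_lit 0))) (L (E (nat_lit 1) (nat_lit 0xbb2) (nat_lit 0)))) (N (nat_lit 978) (L (E (nat_lit 0) (nat_lit 0x0) (nat_lit 0))) (L (E (nat_lit 1) (nat_lit 0x476) (nat_lit 0)))))))) (N (nat_lit 981) (N (nat_lit 980) (L (E (nat_lit 8) (nat_lit 0x3dd1ea0f487983cb15108f042c) (nat_lit 0))) (L (E (nat_lit 3) (nat_lit 0x2ee8f4c798) (nat_lit 0)))) (N (nat_lit 986) (N (nat_lit 982) (L (E (nat_lit 4) (nat_lit 0x5de21d8f7c548) (nat_lit 0))) (N (nat_lit 985) (N (nat_lit 983) (L (E (nat_lit 1) (nat_lit 0x7be) (nat_lit 0))) (N (nat_lit 984) (L (E (nat_lit 0) (nat_lit 0x0) (nat_lit 0))) (L (E (nat_lit 0) (nat_lit 0x0) (nat_lit 0))))) (L (E (nat_lit 1) (nat_lit 0x7c6) (nat_lit 0))))) (N (nat_lit 987) (L (E (nat_lit 4) (nat_lit 0x43f1f18f6423c) (nat_lit 0))) (N (nat_lit 988) (L (E (nat_lit 6) (nat_lit 0x17948803da1550908416) (nat_lit 0))) (L (E (nat_lit 0) (nat_lit 0x0) (nat_lit 0)))))))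
def nb18 : RA := N (nat_lit 989) (N (nat_lit 949) (N (nat_lit 905) (N (nat_lit 892) (N (nat_lit 881) (N (nat_lit 880) (N (nat_lit 877) (N (nat_lit 876) (N (nat_lit 875) (L (E (nat_lit 0) (nat_lit 0x0) (nat_lit 0))) (L (E (nat_lit 3) (nat_lit 0x37b95006e0) (nat_lit 0)))) (L (E (nat_lit 0) (nat_lit 0x0) (nat_lit 0)))) (N (nat_lit 878) (L (E (nat_lit 1) (nat_lit 0xa84) (nat_lit 0))) (N (nat_lit 879) (L (E (nat_lit 0) (nat_lit 0x0) (nat_lit 0))) (L (E (nat_lit 0) (nat_lit 0x0) (nat_lit 0)))))) (L (E (nat_lit 6) (nat_lit 0x1bf8b204d41b58cbc340) (nat_lit 0)))) (N (nat_lit 886) (N (nat_lit 883) (N (nat_lit 882) (L (E (nat_lit 0) (nat_lit 0x0) (nat_lit 0))) (L (E (nat_lit 1) (nat_lit 0x66c) (nat_lit 0)))) (N (nat_lit 885) (N (nat_lit 884) (L (E (nat_lit 0) (nat_lit 0x0) (nat_lit 0))) (L (E (nat_lit 0) (nat_lit 0x0) (nat_lit 0)))) (L (E (nat_lit 0) (nat_lit 0x0) (nat_lit 0))))) (N (nat_lit 889) (N (nat_lit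 888) (N (nat_lit 887) (L (E (nat_lit 0) (nat_lit 0x0) (nat_lit 0))) (L (E (nat_lit 0) (nat_lit 0x0) (nat_lit 0)))) (L (E (nat_lit 0) (nat_lit 0x0) (nat_lit 0)))) (N (nat_lit 891) (N (nat_lit 890) (L (E (nat_lit 0) (nat_lit 0x0) (nat_lit 0))) (L (E (nat_lit 0) (nat_lit 0x0) (nat_lit 0)))) (L (E (nat_lit 0) (nat_lit 0x0) (nat_lit 0))))))) (N (nat_lit 901) (N (nat_lit 900) (N (nat_lit 896) (N (nat_lit 894) (N (nat_lit 893) (L (E (nat_lit 1) (nat_lit 0x37a) (nat_lit 0))) (L (E (nat_lit 0) (nat_lit 0x0) (nat_lit 0)))) (N (nat_lit 895) (L (E (nat_lit 0) (nat_lit 0x0) (nat_lit 0))) (L (E (nat_lit 1) (nat_lit 0xa44) (nat_lit 0))))) (N (nat_lit 898) (N (nat_lit 897) (L (E (nat_lit 1) (nat_lit 0xa46) (nat_lit 0))) (L (E (nat_lit 0) (nat_lit 0x0) (nat_lit 0)))) (N (nat_lit 899) (L (E (nat_lit 0) (nat_lit 0x0) (nat_lit 0))) (L (E (nat_lit 0) (nat_lit 0x0) (nat_lit 0)))))) (L (E (nat_lit 2) (nat_lit 0x1c6c70a)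 (nat_lit 0)))) (N (nat_lit 903) (N (nat_lit 902) (L (E (nat_lit 0) (nat_lit 0x0) (nat_lit 0))) (L (E (nat_lit 2) (nat_lit 0x1c78a6a) (nat_lit 0)))) (N (nat_lit 904) (L (E (nat_lit 0) (nat_lit 0x0) (nat_lit 0))) (L (E (nat_lit 1) (nat_lit 0xe40) (nat_lit 0))))))) (nb16)) (nb17)) (N (nat_lit 999) (N (nat_lit 994) (N (nat_lit 991) (N (nat_lit 990) (L (E (nat_lit 6) (nat_lit 0x179c8843e71e98ab0488) (nat_lit 0))) (L (E (nat_lit 0) (nat_lit 0x0) (nat_lit 0)))) (N (nat_lit 992) (L (E (nat_lit 5) (nat_lit 0x7d23e81f00f587aa) (nat_lit 0))) (N (nat_lit 993) (L (E (nat_lit 4) (nat_lit 0x5ea2228fa47be) (nat_lit 0))) (L (E (nat_lit 2) (nat_lit 0x1118560) (nat_lit 0)))))) (N (nat_lit 998) (N (nat_lit 997) (N (nat_lit 995) (L (E (nat_lit 1) (nat_lit 0xbda) (nat_lit 0))) (N (nat_lit 996) (L (E (nat_lit 4) (nat_lit 0x5ee1f70f687b2) (nat_lit 0))) (L (E (nat_lit 0) (nat_lit 0x0) (nat_lit 0))))) (L (E (nat_lit 10)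 (nat_lit 0x17c0b545972258fc07de3e615a892824c) (nat_lit 0)))) (L (E (nat_lit 7) (nat_lit 0x1f88fc07ce3e515b092c43a) (nat_lit 0))))) (N (nat_lit 1007) (N (nat_lit 1000) (L (E (nat_lit 7) (nat_lit 0x2f911347e23e81f30f74498) (nat_lit 0))) (N (nat_lit 1001) (L (E (nat_lit 7) (nat_lit 0x2f991387e63e91f38f7c570) (nat_lit 0))) (N (nat_lit 1002) (L (E (nat_lit 6) (nat_lit 0x17d07e63e81f00f7c572) (nat_lit 0))) (N (nat_lit 1006) (N (nat_lit 1004) (N (nat_lit 1003) (L (E (nat_lit 0) (nat_lit 0x0) (nat_lit 0))) (L (E (nat_lit 0) (nat_lit 0x0) (nat_lit 0)))) (N (nat_lit 1005) (L (E (nat_lit 0) (nat_lit 0x0) (nat_lit 0))) (L (E (nat_lit 0) (nat_lit 0x0) (nat_lit 0))))) (L (E (nat_lit 3) (nat_lit 0x2fc91547f0) (nat_lit 0))))))) (N (nat_lit 1008) (L (E (nat_lit 6) (nat_lit 0xfe87f23f01f28af84a4) (nat_lit 0))) (L (E (nat_lit 11) (nat_lit 0x2fd96c48ae3fa1f88fbc7cc3e515f894c440) (nat_lit 0))))))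
def nb19 : RA := N (nat_lit 1031) (N (nat_lit 1022) (N (nat_lit 1017) (N (nat_lit 1011) (N (nat_lit 1010) (L (E (nat_lit 9) (nat_lit 0xeb65fc2d9166c8b03f01f38f984a8) (nat_lit 0))) (L (E (nat_lit 0) (nat_lit 0x0) (nat_lit 0)))) (N (nat_lit 1016) (N (nat_lit 1012) (L (E (nat_lit 5) (nat_lit 0xbfc45a1fa0fa4584) (nat_lit 0))) (N (nat_lit 1013) (L (E (nat_lit 5) (nat_lit 0xbfe45b1ff0fcc586) (nat_lit 0))) (N (nat_lit 1015) (N (nat_lit 1014) (L (E (nat_lit 0) (nat_lit 0x0) (nat_lit 0))) (L (E (nat_lit 0) (nat_lit 0x0) (nat_lit 0)))) (L (E (nat_lit 1) (nat_lit 0x7f0) (nat_lit 0)))))) (L (E (nat_lit 6) (nat_lit 0x100c7f23f71f70fb44b2) (nat_lit 0))))) (N (nat_lit 1019) (N (nat_lit 1018) (L (E (nat_lit 7) (nat_lit 0x30191807f43f81f78b204b4) (nat_lit 0))) (L (E (nat_lit 6) (nat_lit 0x181080a3f91f80fbc592) (nat_lit 0)))) (N (nat_lit 1021) (N (nat_lit 1020) (L (E (nat_lit 0) (nat_lit 0x0) (nat_lit 0))) (L (E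 (nat_lit 4) (nat_lit 0x6061fe8b2c4ba) (nat_lit 0)))) (L (E (nat_lit 8) (nat_lit 0x607232102080e3fe1fe0978264) (nat_lit 0)))))) (N (nat_lit 1029) (N (nat_lit 1023) (L (E (nat_lit 8) (nat_lit 0x4092040ffc7fa3f41f98b344be) (nat_lit 0))) (N (nat_lit 1027) (N (nat_lit 1025) (N (nat_lit 1024) (L (E (nat_lit 2) (nat_lit 0x119859c) (nat_lit 0))) (L (E (nat_lit 0) (nat_lit 0x0) (nat_lit 0)))) (N (nat_lit 1026) (L (E (nat_lit 0) (nat_lit 0x0) (nat_lit 0))) (L (E (nat_lit 1) (nat_lit 0xc18) (nat_lit 0))))) (N (nat_lit 1028) (L (E (nat_lit 5) (nat_lit 0xc1a40d2010fe47f0) (nat_lit 0))) (L (E (nat_lit 0) (nat_lit 0x0) (nat_lit 0)))))) (N (nat_lit 1030) (L (E (nat_lit 7) (nat_lit 0x207903880c3fa1698998458) (nat_lit 0))) (L (E (nat_lit 6) (nat_lit 0x11b881e4072028b504ce) (nat_lit 0)))))) (N (nat_lit 1062) (N (nat_lit 1048) (N (nat_lit 1039) (N (nat_lit 1033) (N (nat_lit 1032) (L (E (nat_lit 7) (nat_lit 0x30891bc8104061fe8ff05aa)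 (nat_lit 0))) (L (E (nat_lit 2) (nat_lit 0x101c7fa) (nat_lit 0)))) (N (nat_lit 1038) (N (nat_lit 1037) (N (nat_lit 1034) (L (E (nat_lit 4) (nat_lit 0x61323890487fc) (nat_lit 0))) (N (nat_lit 1036) (N (nat_lit 1035) (L (E (nat_lit 0) (nat_lit 0x0) (nat_lit 0))) (L (E (nat_lit 0) (nat_lit 0x0) (nat_lit 0)))) (L (E (nat_lit 0) (nat_lit 0x0) (nat_lit 0))))) (L (E (nat_lit 7) (nat_lit 0x30b105482840e2018b6c4dc) (nat_lit 0)))) (L (E (nat_lit 4) (nat_lit 0x61723b105881a) (nat_lit 0))))) (N (nat_lit 1044) (N (nat_lit 1042) (N (nat_lit 1040) (L (E (nat_lit 4) (nat_lit 0x61820310144e0) (nat_lit 0))) (N (nat_lit 1041) (L (E (nat_lit 0) (nat_lit 0x0) (nat_lit 0))) (L (E (nat_lit 3) (nat_lit 0x30d11e45be) (nat_lit 0))))) (N (nat_lit 1043) (L (E (nat_lit 4) (nat_lit 0x41a2048b804e6) (nat_lit 0))) (L (E (nat_lit 0) (nat_lit 0x0) (nat_lit 0))))) (N (nat_lit 1047) (N (nat_lit 1046) (N (nat_lit 1045) (L (E (nat_lit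 2) (nat_lit 0x187cb86) (nat_lit 0))) (L (E (nat_lit 0) (nat_lit 0x0) (nat_lit 0)))) (L (E (nat_lit 3) (nat_lit 0x3b40b944ee) (nat_lit 0)))) (L (E (nat_lit 2) (nat_lit 0x1888902) (nat_lit 0)))))) (N (nat_lit 1059) (N (nat_lit 1050) (N (nat_lit 1049) (L (E (nat_lit 6) (nat_lit 0x1da4c4648220b8b9c4f2) (nat_lit 0))) (L (E (nat_lit 0) (nat_lit 0x0) (nat_lit 0)))) (N (nat_lit 1055) (N (nat_lit 1052) (N (nat_lit 1051) (L (E (nat_lit 2) (nat_lit 0x10485d2) (nat_lit 0))) (L (E (nat_lit 0) (nat_lit 0x0) (nat_lit 0)))) (N (nat_lit 1054) (N (nat_lit 1053) (L (E (nat_lit 0) (nat_lit 0x0) (nat_lit 0))) (L (E (nat_lit 0) (nat_lit 0x0) (nat_lit 0)))) (L (E (nat_lit 0) (nat_lit 0x0) (nat_lit 0))))) (N (nat_lit 1058) (N (nat_lit 1057) (N (nat_lit 1056) (L (E (nat_lit 0) (nat_lit 0x0) (nat_lit 0))) (L (E (nat_lit 0) (nat_lit 0x0) (nat_lit 0)))) (L (E (nat_lit 1) (nat_lit 0x840) (nat_lit 0)))) (L (E (nat_lit 1) (nat_lit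 0x928) (nat_lit 0)))))) (N (nat_lit 1060) (L (E (nat_lit 3) (nat_lit 0x3161258848) (nat_lit 0))) (N (nat_lit 1061) (L (E (nat_lit 4) (nat_lit 0x5c524b909c846) (nat_lit 0))) (L (E (nat_lit 3) (nat_lit 0x2e41260270) (nat_lit 0))))))) (N (nat_lit 1064) (N (nat_lit 1063) (L (E (nat_lit 7) (nat_lit 0x2e4926485c3c317c0a38272) (nat_lit 0))) (L (E (nat_lit 8) (nat_lit 0x49a21790b884c4242118be451e) (nat_lit 0)))) (N (nat_lit 1066) (N (nat_lit 1065) (L (E (nat_lit 0) (nat_lit 0x0) (nat_lit 0))) (L (E (nat_lit 8) (nat_lit 0x6862e612708624302150bec278) (nat_lit 0)))) (N (nat_lit 1067) (L (E (nat_lit 6) (nat_lit 0x1a1cb9a49d2148f1c5f8) (nat_lit 0))) (L (E (nat_lit 2) (nat_lit 0x1278428) (nat_lit 0)))))))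
def nb20 : RA := N (nat_lit 1073) (N (nat_lit 1009) (N (nat_lit 874) (N (nat_lit 818) (N (nat_lit 813) (N (nat_lit 807) (N (nat_lit 806) (L (E (nat_lit 9) (nat_lit 0xd605402690cbc65c3261920c6c634) (nat_lit 0))) (L (E (nat_lit 11) (nat_lit 0x2bc95049a64591980cbc64e32518e0c6c2c0) (nat_lit 0)))) (N (nat_lit 811) (N (nat_lit 808) (L (E (nat_lit 9) (nat_lit 0xd645421988cc064c31d16107c4180) (nat_lit 0))) (N (nat_lit 809) (L (E (nat_lit 4) (nat_lit 0x6b32a193548b6) (nat_lit 0))) (N (nat_lit 810) (L (E (nat_lit 2) (nat_lit 0x15ec588) (nat_lit 0))) (L (E (nat_lit 0) (nat_lit 0x0) (nat_lit 0)))))) (N (nat_lit 812) (L (E (nat_lit 6) (nat_lit 0x1ae09b43351960c8858e) (nat_lit 0))) (L (E (nat_lit 11) (nat_lit 0x35c95209b646019b0cd465a32b1918c88590) (nat_lit 0)))))) (N (nat_lit 815) (N (nat_lit 814) (L (E (nat_lit 11) (nat_lit 0x35d15249b846119b8cd865c32c1920c8c592) (nat_lit 0))) (L (E (nat_lit 12) (nat_lit 0x57c2a513748c433819b8cbc65a32519207cc3a0)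 (nat_lit 0)))) (N (nat_lit 816) (L (E (nat_lit 9) (nat_lit 0xd7854b1b80ce466032e1930c94596) (nat_lit 0))) (N (nat_lit 817) (L (E (nat_lit 7) (nat_lit 0x35e95308c833a1988cbc64e) (nat_lit 0))) (L (E (nat_lit 7) (nat_lit 0x35f13806743321980c9c59a) (nat_lit 0))))))) (N (nat_lit 834) (N (nat_lit 824) (N (nat_lit 823) (N (nat_lit 822) (N (nat_lit 821) (N (nat_lit 819) (L (E (nat_lit 3) (nat_lit 0x2a70b382d4) (nat_lit 0))) (N (nat_lit 820) (L (E (nat_lit 0) (nat_lit 0x0) (nat_lit 0))) (L (E (nat_lit 1) (nat_lit 0x5a0) (nat_lit 0))))) (L (E (nat_lit 8) (nat_lit 0x6c427291ac66c3341960cac5a2) (nat_lit 0)))) (L (E (nat_lit 6) (nat_lit 0x15488d837219a8cb4658) (nat_lit 0)))) (L (E (nat_lit 7) (nat_lit 0x363139c66c32e1968b4c2de) (nat_lit 0)))) (N (nat_lit 826) (N (nat_lit 825) (L (E (nat_lit 8) (nat_lit 0x6c72aa13a08dc3421a08cbc65c) (nat_lit 0))) (L (E (nat_lit 9) (nat_lit 0xd9055527491bc68634219c0cbc5aa) (nat_lit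 0)))) (N (nat_lit 832) (N (nat_lit 827) (L (E (nat_lit 6) (nat_lit 0x15588e03311980b58340) (nat_lit 0))) (N (nat_lit 831) (N (nat_lit 828) (L (E (nat_lit 2) (nat_lit 0x1b288e2) (nat_lit 0))) (N (nat_lit 830) (N (nat_lit 829) (L (E (nat_lit 0) (nat_lit 0x0) (nat_lit 0))) (L (E (nat_lit 0) (nat_lit 0x0) (nat_lit 0)))) (L (E (nat_lit 0) (nat_lit 0x0) (nat_lit 0))))) (L (E (nat_lit 4) (nat_lit 0x6ce2ad13bc344) (nat_lit 0))))) (N (nat_lit 833) (L (E (nat_lit 0) (nat_lit 0x0) (nat_lit 0))) (L (E (nat_lit 5) (nat_lit 0xda055c27891dc684) (nat_lit 0))))))) (nb15))) (nb18)) (N (nat_lit 1068) (nb19) (N (nat_lit 1072) (N (nat_lit 1071) (N (nat_lit 1070) (N (nat_lit 1069) (L (E (nat_lit 0) (nat_lit 0x0) (nat_lit 0))) (L (E (nat_lit 11) (nat_lit 0x34417409404362170f245fc29211a085427c) (nat_lit 0)))) (L (E (nat_lit 14) (nat_lit 0x1a24ba24a121c10bc85a4272130f285fe29311a885827e) (nat_lit 0)))) (L (E (nat_lit 13)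 (nat_lit 0xee268a2e91288870430217109c79630014a08d8280) (nat_lit 0)))) (L (E (nat_lit 11) (nat_lit 0x345974c94643a21790a479830114a88dc282) (nat_lit 0)))))) (N (nat_lit 1084) (N (nat_lit 1081) (N (nat_lit 1079) (N (nat_lit 1078) (N (nat_lit 1074) (L (E (nat_lit 9) (nat_lit 0xba84a421d90e88604291810a58284) (nat_lit 0))) (N (nat_lit 1077) (N (nat_lit 1076) (N (nat_lit 1075) (L (E (nat_lit 0) (nat_lit 0x0) (nat_lit 0))) (L (E (nat_lit 3) (nat_lit 0x2eb0f3c608) (nat_lit 0)))) (L (E (nat_lit 1) (nat_lit 0x94a) (nat_lit 0)))) (L (E (nat_lit 9) (nat_lit 0xee45d825310f486c42b14b885c288) (nat_lit 0))))) (L (E (nat_lit 13) (nat_lit 0xee668f2ec929c87e4352168f4060a29811c886028a) (nat_lit 0)))) (N (nat_lit 1080) (L (E (nat_lit 1) (nat_lit 0xc78) (nat_lit 0))) (L (E (nat_lit 13) (nat_lit 0xd225db2d112a488244021790b87a430714d08ec434) (nat_lit 0))))) (N (nat_lit 1083) (N (nat_lit 1082) (L (E (nat_lit 0) (nat_lit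 0x0) (nat_lit 0))) (L (E (nat_lit 14) (nat_lit 0x1dd8d265dd255910c88443b21890c07a830914e08f4292) (nat_lit 0)))) (L (E (nat_lit 12) (nat_lit 0x6942ef12b088643c21d10c47aa30a14e88f8294) (nat_lit 0))))) (N (nat_lit 1088) (N (nat_lit 1087) (N (nat_lit 1085) (L (E (nat_lit 10) (nat_lit 0x1ddcd2a5df25691148763d61858a7847e) (nat_lit 0))) (N (nat_lit 1086) (L (E (nat_lit 7) (nat_lit 0x3bc178895e44721a8a7c296) (nat_lit 0))) (L (E (nat_lit 1) (nat_lit 0xc86) (nat_lit 0))))) (L (E (nat_lit 13) (nat_lit 0xd305e4258912889244021b0f6861c2a11208870298) (nat_lit 0)))) (N (nat_lit 1089) (L (E (nat_lit 12) (nat_lit 0x6992f292c889644a22090fc8703db1878a8843a) (nat_lit 0))) (L (E (nat_lit 11) (nat_lit 0x3be179896644b2211100870310151890c29c) (nat_lit 0))))))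
def nb21 : RA := N (nat_lit 1144) (N (nat_lit 1142) (N (nat_lit 1137) (N (nat_lit 1136) (L (E (nat_lit 14) (nat_lit 0x1e78d906112dd13808f247023711908c640719c8b344d0) (nat_lit 0))) (L (E (nat_lit 12) (nat_lit 0x79f36498489c247923891bc8c840819d0b384d2) (nat_lit 0)))) (N (nat_lit 1140) (N (nat_lit 1138) (L (E (nat_lit 11) (nat_lit 0x365184c9c447b23911c08cc40919d8b3c4d4) (nat_lit 0))) (N (nat_lit 1139) (L (E (nat_lit 5) (nat_lit 0x8f64712338cf04d6) (nat_lit 0))) (L (E (nat_lit 8) (nat_lit 0x7a030a16ec9ca46a2060b44464) (nat_lit 0))))) (N (nat_lit 1141) (L (E (nat_lit 1) (nat_lit 0x8d6) (nat_lit 0))) (L (E (nat_lit 15) (nat_lit 0x3d11b38c2c5bc27391fc8fc47623611ac81a33f16989b82e4) (nat_lit 0)))))) (N (nat_lit 1143) (L (E (nat_lit 12) (nat_lit 0x7a3367985c9d047f23b91d48d840e1a00b504de) (nat_lit 0))) (L (E (nat_lit 12) (nat_lit 0x7a43681860b7a4e924091d88dc40f1a08b544e0) (nat_lit 0))))) (N (nat_lit 1153)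 (N (nat_lit 1149) (N (nat_lit 1146) (N (nat_lit 1145) (L (E (nat_lit 1) (nat_lit 0xcea) (nat_lit 0))) (L (E (nat_lit 12) (nat_lit 0x7a636918689d648324111c08de4111a18b5c4e4) (nat_lit 0)))) (N (nat_lit 1148) (N (nat_lit 1147) (L (E (nat_lit 1) (nat_lit 0xcee) (nat_lit 0))) (L (E (nat_lit 5) (nat_lit 0xf506d430e11c45b2) (nat_lit 0)))) (L (E (nat_lit 2) (nat_lit 0x13b85b4) (nat_lit 0))))) (N (nat_lit 1151) (N (nat_lit 1150) (L (E (nat_lit 8) (nat_lit 0x7aa2df93bc90c47e23e11d05b6) (nat_lit 0))) (L (E (nat_lit 13) (nat_lit 0xf566d630f97009e048823f91f48ea4141a28b704ea) (nat_lit 0)))) (N (nat_lit 1152) (L (E (nat_lit 14) (nat_lit 0x1eb0dae6202e093c491248823f11d88ea34616e89d82ec) (nat_lit 0))) (L (E (nat_lit 0) (nat_lit 0x0) (nat_lit 0)))))) (N (nat_lit 1160) (N (nat_lit 1154) (L (E (nat_lit 12) (nat_lit 0x7ae36c98889e648b24512088ee4171a40b7c4f0) (nat_lit 0))) (N (nat_lit 1155) (L (E (nat_lit 9) (nat_lit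 0xdb462327a123090247920c0b804f2) (nat_lit 0))) (N (nat_lit 1156) (L (E (nat_lit 9) (nat_lit 0xf6062427a92309084791a50b844f4) (nat_lit 0))) (N (nat_lit 1157) (L (E (nat_lit 4) (nat_lit 0x6dc24190685c4) (nat_lit 0))) (N (nat_lit 1158) (L (E (nat_lit 1) (nat_lit 0x4f8) (nat_lit 0))) (N (nat_lit 1159) (L (E (nat_lit 4) (nat_lit 0x7b136f170c5c6) (nat_lit 0))) (L (E (nat_lit 0) (nat_lit 0x0) (nat_lit 0))))))))) (N (nat_lit 1164) (N (nat_lit 1162) (N (nat_lit 1161) (L (E (nat_lit 9) (nat_lit 0xf666e027c924091e47f23f0b944fc) (nat_lit 0))) (L (E (nat_lit 5) (nat_lit 0xf684fa23f8b984fe) (nat_lit 0)))) (N (nat_lit 1163) (L (E (nat_lit 8) (nat_lit 0x6e227d924890241c1a78b9c500) (nat_lit 0))) (L (E (nat_lit 7) (nat_lit 0x31413f092448a2408d40502) (nat_lit 0))))) (N (nat_lit 1169) (N (nat_lit 1165) (L (E (nat_lit 7) (nat_lit 0x37213f492849324110745d2) (nat_lit 0))) (N (nat_lit 1168) (N (nat_lit 1167) (N (nat_lit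 1166) (L (E (nat_lit 0) (nat_lit 0x0) (nat_lit 0))) (L (E (nat_lit 1) (nat_lit 0x83e) (nat_lit 0)))) (L (E (nat_lit 3) (nat_lit 0x3dc9b98a00) (nat_lit 0)))) (L (E (nat_lit 4) (nat_lit 0x7ba2808d485da) (nat_lit 0))))) (N (nat_lit 1175) (N (nat_lit 1171) (N (nat_lit 1170) (L (E (nat_lit 4) (nat_lit 0x6e8281124850c) (nat_lit 0))) (L (E (nat_lit 4) (nat_lit 0x6e9248922c5de) (nat_lit 0)))) (N (nat_lit 1173) (N (nat_lit 1172) (L (E (nat_lit 0) (nat_lit 0x0) (nat_lit 0))) (L (E (nat_lit 4) (nat_lit 0x6eb24610885e2) (nat_lit 0)))) (N (nat_lit 1174) (L (E (nat_lit 1) (nat_lit 0x5ec) (nat_lit 0))) (L (E (nat_lit 2) (nat_lit 0x1a14c58) (nat_lit 0)))))) (N (nat_lit 1177) (N (nat_lit 1176) (L (E (nat_lit 1) (nat_lit 0x848) (nat_lit 0))) (L (E (nat_lit 5) (nat_lit 0xd1250721288d42f0) (nat_lit 0)))) (L (E (nat_lit 6) (nat_lit 0x171494242614708d82f2) (nat_lit 0)))))))))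
def nb22 : RA := N (nat_lit 1120) (N (nat_lit 1103) (N (nat_lit 1099) (N (nat_lit 1092) (N (nat_lit 1091) (L (E (nat_lit 13) (nat_lit 0xefa69b2f392d089a44322090e87ba311152091029e) (nat_lit 0))) (L (E (nat_lit 12) (nat_lit 0x77e2f412d489c44d22110ec87431215289142a0) (nat_lit 0)))) (N (nat_lit 1098) (N (nat_lit 1097) (N (nat_lit 1094) (N (nat_lit 1093) (L (E (nat_lit 1) (nat_lit 0xc92) (nat_lit 0))) (L (E (nat_lit 8) (nat_lit 0x69e2f512dc89e43c1f00c5054e) (nat_lit 0)))) (N (nat_lit 1096) (N (nat_lit 1095) (L (E (nat_lit 3) (nat_lit 0x34f91447c2) (nat_lit 0))) (L (E (nat_lit 5) (nat_lit 0xd405ec25c1148550) (nat_lit 0)))) (L (E (nat_lit 8) (nat_lit 0x5ed2d192e48a84491f10aa448e) (nat_lit 0))))) (L (E (nat_lit 15) (nat_lit 0x3c09a88bdc4ba22a915089444821f8f8c62e2aa124087c2a6) (nat_lit 0)))) (L (E (nat_lit 13) (nat_lit 0xc9e5ef2d212ec8aa44b224910087e31812488802a8) (nat_lit 0))))) (N (nat_lit 1100) (L (E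 (nat_lit 16) (nat_lit 0x78335217c0b4a4bc22b91308944412200f946322ac12508842aa) (nat_lit 0))) (N (nat_lit 1102) (N (nat_lit 1101) (L (E (nat_lit 1) (nat_lit 0xca2) (nat_lit 0))) (L (E (nat_lit 16) (nat_lit 0x7853531948be44be22c916089c44c22191087ce31b1570930446) (nat_lit 0)))) (L (E (nat_lit 13) (nat_lit 0xf0c6a72f992fc8b4459226910c7d031c15789342b0) (nat_lit 0)))))) (N (nat_lit 1112) (N (nat_lit 1109) (N (nat_lit 1107) (N (nat_lit 1104) (L (E (nat_lit 12) (nat_lit 0x78735417d098045b22d114088a3e918e8ac049c) (nat_lit 0))) (N (nat_lit 1105) (L (E (nat_lit 8) (nat_lit 0x5f5260916c8a244f18f093c2b4) (nat_lit 0))) (N (nat_lit 1106) (L (E (nat_lit 5) (nat_lit 0xd544502230fac63e) (nat_lit 0))) (L (E (nat_lit 3) (nat_lit 0x2d3930c8a6) (nat_lit 0)))))) (N (nat_lit 1108) (L (E (nat_lit 9) (nat_lit 0xcae4c422f11748a84521900acc448) (nat_lit 0))) (L (E (nat_lit 14) (nat_lit 0x1ab0bf05a926291788aa45322491207da32112808942b6)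 (nat_lit 0))))) (N (nat_lit 1111) (N (nat_lit 1110) (L (E (nat_lit 15) (nat_lit 0x3c59ab4bf25aa26311808a844a2248fb86442b512888982b8) (nat_lit 0))) (L (E (nat_lit 0) (nat_lit 0x0) (nat_lit 0)))) (L (E (nat_lit 15) (nat_lit 0x3c69abcbf65ac26411888c24582258fc06482b712988a02bc) (nat_lit 0))))) (N (nat_lit 1114) (N (nat_lit 1113) (L (E (nat_lit 16) (nat_lit 0x78e35817f0b5a4c923191888b245722691307e232515c09502be) (nat_lit 0))) (L (E (nat_lit 14) (nat_lit 0x1e3cbfa4ca232118c8b4458227113464c2b912a88a82c0) (nat_lit 0)))) (N (nat_lit 1115) (L (E (nat_lit 11) (nat_lit 0x35917f899646422d916489e44e1f98c9c4ac) (nat_lit 0))) (N (nat_lit 1118) (N (nat_lit 1116) (L (E (nat_lit 11) (nat_lit 0x35997fc99846622d114089e3f41940aec4ae) (nat_lit 0))) (N (nat_lit 1117) (L (E (nat_lit 0) (nat_lit 0x0) (nat_lit 0))) (L (E (nat_lit 8) (nat_lit 0x7902d713388d245e2298af0456) (nat_lit 0))))) (N (nat_lit 1119) (L (E (nat_lit 12)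 (nat_lit 0x79135b9804b5e4cf23511a48ba4542298af44b0) (nat_lit 0))) (L (E (nat_lit 0) (nat_lit 0x0) (nat_lit 0))))))))) (N (nat_lit 1135) (N (nat_lit 1124) (N (nat_lit 1122) (N (nat_lit 1121) (L (E (nat_lit 15) (nat_lit 0x3c99ae4c065b126891b08d646122a8fe46582bf12d08b02c8) (nat_lit 0))) (L (E (nat_lit 14) (nat_lit 0x1e50d746042d913488d8462230115c7f432d160096c45a) (nat_lit 0)))) (N (nat_lit 1123) (L (E (nat_lit 11) (nat_lit 0x30296cc9a646e23191848b045719709702cc) (nat_lit 0))) (L (E (nat_lit 16) (nat_lit 0x79635e1998c0c4d423791b88c846222c91607f832f16109742ce) (nat_lit 0))))) (N (nat_lit 1132) (N (nat_lit 1130) (N (nat_lit 1125) (L (E (nat_lit 12) (nat_lit 0x6bd30393548e046f23191688b23fd1980b0c4bc) (nat_lit 0))) (N (nat_lit 1127) (N (nat_lit 1126) (L (E (nat_lit 1) (nat_lit 0xcd0) (nat_lit 0))) (L (E (nat_lit 10) (nat_lit 0x1afcc124d723911c48b63ff1990b144c0) (nat_lit 0)))) (N (nat_lit 1129) (N (nat_lit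 1128) (L (E (nat_lit 4) (nat_lit 0x6c030511c8800) (nat_lit 0))) (L (E (nat_lit 3) (nat_lit 0x360936458c) (nat_lit 0)))) (L (E (nat_lit 8) (nat_lit 0x6c22da93688bc45d16389882d6) (nat_lit 0)))))) (N (nat_lit 1131) (L (E (nat_lit 13) (nat_lit 0xf326c3306136c8e646b2349178804334164098c2d8) (nat_lit 0))) (L (E (nat_lit 16) (nat_lit 0x79a3621834b6e4dc23a91d08d846a230100c66a2c913208bc2da) (nat_lit 0))))) (N (nat_lit 1134) (N (nat_lit 1133) (L (E (nat_lit 12) (nat_lit 0x60e2dc13748ec47523591848c033613288c02dc) (nat_lit 0))) (L (E (nat_lit 0) (nat_lit 0x0) (nat_lit 0)))) (L (E (nat_lit 14) (nat_lit 0x1e74d8e6102dc937c8ee46f231918880c338166099c462) (nat_lit 0)))))) (nb21))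
def nb23 : RA := N (nat_lit 707) (N (nat_lit 3) (N (nat_lit 1) (L (E (nat_lit 18) (nat_lit 0x22950427eb3cd9d7cd766643319968cb265032797e8a7c4c722b0fec594) (nat_lit 0))) (N (nat_lit 2) (L (E (nat_lit 15) (nat_lit 0x45820bcffc7ad3b29b44ce866d336183caa64de23690405bc) (nat_lit 0))) (L (E (nat_lit 13) (nat_lit 0xfa278434e191cc7c63731b1770a404aa21c8f7855a) (nat_lit 0))))) (nb13)) (N (nat_lit 1090) (N (nat_lit 805) (N (nat_lit 725) (N (nat_lit 716) (N (nat_lit 713) (N (nat_lit 709) (N (nat_lit 708) (L (E (nat_lit 15) (nat_lit 0x29b13548c83f41940b3859a2c41610ae44bc1d20c90560158) (nat_lit 0))) (L (E (nat_lit 12) (nat_lit 0x5371fa8ca459e2ce1628b0c57625f0e9864c2b2) (nat_lit 0)))) (N (nat_lit 712) (N (nat_lit 711) (N (nat_lit 710) (L (E (nat_lit 7) (nat_lit 0x29c135c8cc3f616209803a8) (nat_lit 0))) (L (E (nat_lit 3) (nat_lit 0x26c91a0578) (nat_lit 0)))) (L (E (nat_lit 7) (nat_lit 0x32b94ec9b44691fc0cac57a) (nat_lit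 0)))) (L (E (nat_lit 12) (nat_lit 0x53c26d91a87f232c1648af857a2630ca056c25c) (nat_lit 0))))) (N (nat_lit 715) (N (nat_lit 714) (L (E (nat_lit 16) (nat_lit 0x53d26e11ac7f432d1698b485902bf15f09903aa1950ae04bc15a) (nat_lit 0))) (L (E (nat_lit 0) (nat_lit 0x0) (nat_lit 0)))) (L (E (nat_lit 11) (nat_lit 0x29f8ff065e2d516a0b305802660eb865c2bc) (nat_lit 0))))) (N (nat_lit 723) (N (nat_lit 717) (L (E (nat_lit 15) (nat_lit 0x2a0137c8dc3fd1980b585aa2cd1658b084ce1d80cc057c264) (nat_lit 0))) (N (nat_lit 718) (L (E (nat_lit 15) (nat_lit 0x2a093808de3fe1988b5c5ac2ce1660b0c5842680ec858015c) (nat_lit 0))) (N (nat_lit 719) (L (E (nat_lit 14) (nat_lit 0x15089c24701ff8cc85ae2cf1668b105862690cd0584266) (nat_lit 0))) (N (nat_lit 720) (L (E (nat_lit 10) (nat_lit 0x150c9c44712000b6459c2c516209a83b6) (nat_lit 0))) (N (nat_lit 721) (L (E (nat_lit 4) (nat_lit 0x5452010cd05b4) (nat_lit 0))) (N (nat_lit 722) (L (E (nat_lit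 8) (nat_lit 0x54627291cc8063351360588268) (nat_lit 0))) (L (E (nat_lit 0) (nat_lit 0x0) (nat_lit 0))))))))) (N (nat_lit 724) (L (E (nat_lit 13) (nat_lit 0xa904e723a901466e2dd16e0b5059226e0ce859015e) (nat_lit 0))) (L (E (nat_lit 15) (nat_lit 0x2a493a08ec40619c0b745aa2d316589bc3b819e0b284d4160) (nat_lit 0)))))) (N (nat_lit 743) (N (nat_lit 732) (N (nat_lit 727) (N (nat_lit 726) (L (E (nat_lit 11) (nat_lit 0x2a513a48ee40719c8b7c5ac2d41660b2c3ba) (nat_lit 0))) (L (E (nat_lit 11) (nat_lit 0x2a590206742e016b8b5459a2cc13886802ce) (nat_lit 0)))) (N (nat_lit 730) (N (nat_lit 728) (L (E (nat_lit 12) (nat_lit 0x54c27591e481233b1708b805ac2ce16689c82d0) (nat_lit 0))) (N (nat_lit 729) (L (E (nat_lit 1) (nat_lit 0xcd0) (nat_lit 0))) (L (E (nat_lit 4) (nat_lit 0x54e23d8b884e8) (nat_lit 0))))) (N (nat_lit 731) (L (E (nat_lit 6) (nat_lit 0x153c9dc47c19f0b6c5a0) (nat_lit 0))) (L (E (nat_lit 9) (nat_lit 0xaa04ef23e903467e2e41718b705a2)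 (nat_lit 0)))))) (N (nat_lit 736) (N (nat_lit 733) (L (E (nat_lit 13) (nat_lit 0xaa24f023f10386802e51720b6c5a62750d185b426c) (nat_lit 0))) (N (nat_lit 735) (N (nat_lit 734) (L (E (nat_lit 9) (nat_lit 0xaa44f123f903c6822e616a0b4c4ec) (nat_lit 0))) (L (E (nat_lit 0) (nat_lit 0x0) (nat_lit 0)))) (L (E (nat_lit 9) (nat_lit 0xaa84f324090446862e71700b544f0) (nat_lit 0))))) (N (nat_lit 739) (N (nat_lit 737) (L (E (nat_lit 12) (nat_lit 0x55527a12088243441748b845ae2d613c869c2e2) (nat_lit 0))) (N (nat_lit 738) (L (E (nat_lit 9) (nat_lit 0xaac4f5241904c5d22e21700b5c4f4) (nat_lit 0))) (L (E (nat_lit 4) (nat_lit 0x5572420b845b2) (nat_lit 0))))) (N (nat_lit 742) (N (nat_lit 741) (N (nat_lit 740) (L (E (nat_lit 2) (nat_lit 0x13dc68a) (nat_lit 0))) (L (E (nat_lit 0) (nat_lit 0x0) (nat_lit 0)))) (L (E (nat_lit 12) (nat_lit 0x55a27c922082c3471768bb05cc2dc13f06ac2e4) (nat_lit 0)))) (L (E (nat_lit 12) (nat_lit 0x55b27d122482e3481768b9c5ca2dd13f86b02e6)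 (nat_lit 0))))))) (nb14))) (nb20)) (nb22))
def nb24 : RA := N (nat_lit 1212) (N (nat_lit 1202) (N (nat_lit 1192) (N (nat_lit 1188) (N (nat_lit 1186) (N (nat_lit 1185) (N (nat_lit 1184) (N (nat_lit 1180) (N (nat_lit 1179) (L (E (nat_lit 8) (nat_lit 0x68b28492889424972138a3c46e) (nat_lit 0))) (L (E (nat_lit 1) (nat_lit 0xc62) (nat_lit 0)))) (N (nat_lit 1181) (L (E (nat_lit 5) (nat_lit 0xd1a5c7252128c852) (nat_lit 0))) (N (nat_lit 1182) (L (E (nat_lit 3) (nat_lit 0x3471290854) (nat_lit 0))) (N (nat_lit 1183) (L (E (nat_lit 3) (nat_lit 0x34790ac472) (nat_lit 0))) (L (E (nat_lit 1) (nat_lit 0xc66) (nat_lit 0))))))) (L (E (nat_lit 12) (nat_lit 0x7bc3489728a184a7250926485a2f914908ec2f6) (nat_lit 0)))) (L (E (nat_lit 11) (nat_lit 0x34912a49444a024d126485c35517d0a4c478) (nat_lit 0)))) (N (nat_lit 1187) (L (E (nat_lit 12) (nat_lit 0x6932e614389524a3250926885e2fb14a08f42fa) (nat_lit 0))) (L (E (nat_lit 12)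 (nat_lit 0x7bd34a1734a1e4ab252128893843017e0a5447c) (nat_lit 0))))) (N (nat_lit 1191) (N (nat_lit 1190) (N (nat_lit 1189) (L (E (nat_lit 10) (nat_lit 0x1a54a204ab25192749384311ab8a582fe) (nat_lit 0))) (L (E (nat_lit 5) (nat_lit 0xd2e4af25310d0480) (nat_lit 0)))) (L (E (nat_lit 10) (nat_lit 0x1ef8d305d028992bc94e4a521a8bf852e) (nat_lit 0)))) (L (E (nat_lit 12) (nat_lit 0x7bf34c9744a284b1253128086c2ff14c0908302) (nat_lit 0))))) (N (nat_lit 1197) (N (nat_lit 1195) (N (nat_lit 1193) (L (E (nat_lit 1) (nat_lit 0xc78) (nat_lit 0))) (N (nat_lit 1194) (L (E (nat_lit 13) (nat_lit 0xd365d328b12cc9644a225090e06b030114d0910306) (nat_lit 0))) (L (E (nat_lit 0) (nat_lit 0x0) (nat_lit 0))))) (N (nat_lit 1196) (L (E (nat_lit 11) (nat_lit 0x34e92d49684ac252128c87430314e091830a) (nat_lit 0))) (L (E (nat_lit 11) (nat_lit 0x3771a78bac51925a92b495643b1ad8c1053a) (nat_lit 0))))) (N (nat_lit 1201) (N (nat_lit 1199) (N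 (nat_lit 1198) (L (E (nat_lit 8) (nat_lit 0x7c334f946896e4ac21e0d7053c) (nat_lit 0))) (L (E (nat_lit 3) (nat_lit 0x350947048e) (nat_lit 0)))) (N (nat_lit 1200) (L (E (nat_lit 12) (nat_lit 0x6a22ec94749724b8257129894a43d1828a7c490) (nat_lit 0))) (L (E (nat_lit 0) (nat_lit 0x0) (nat_lit 0))))) (L (E (nat_lit 13) (nat_lit 0xf8e6a42ed947c9764ba259129c87e307150892830e) (nat_lit 0)))))) (N (nat_lit 1205) (N (nat_lit 1204) (N (nat_lit 1203) (L (E (nat_lit 13) (nat_lit 0xdde6a525e12ec9664b125491006bc308151092c310) (nat_lit 0))) (L (E (nat_lit 14) (nat_lit 0x1f24d4c5dd29092f49784b425912a48823091518930312) (nat_lit 0)))) (L (E (nat_lit 12) (nat_lit 0x7ca3539778a444be25a92cc9564421850a9049a) (nat_lit 0)))) (N (nat_lit 1211) (N (nat_lit 1209) (N (nat_lit 1206) (L (E (nat_lit 12) (nat_lit 0x6a82ef948c97e4be25a12b09564431858a9449c) (nat_lit 0))) (N (nat_lit 1208) (N (nat_lit 1207) (L (E (nat_lit 1) (nat_lit 0xc92)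 (nat_lit 0))) (L (E (nat_lit 6) (nat_lit 0x1aa8bc24c0256911454e) (nat_lit 0)))) (L (E (nat_lit 11) (nat_lit 0x3e61ab09884c325c92bc95c4471868aa04a0) (nat_lit 0))))) (N (nat_lit 1210) (L (E (nat_lit 12) (nat_lit 0x7cd3569790a504c525d12e095e4481870aa44a2) (nat_lit 0))) (L (E (nat_lit 13) (nat_lit 0xf9c6ae2f294a498c4c525d92e49624491878aa84a4) (nat_lit 0))))) (L (E (nat_lit 12) (nat_lit 0x6af2f314a898c4bc25d12c896244a188094c31c) (nat_lit 0)))))) (N (nat_lit 1226) (N (nat_lit 1220) (N (nat_lit 1214) (N (nat_lit 1213) (L (E (nat_lit 13) (nat_lit 0xfa06b02f394ac9904bb25992c8896311156095031e) (nat_lit 0))) (L (E (nat_lit 1) (nat_lit 0xca2) (nat_lit 0)))) (N (nat_lit 1215) (L (E (nat_lit 14) (nat_lit 0x1f48de46b2265132497e4b525a11346cc3131570958322) (nat_lit 0))) (N (nat_lit 1216) (L (E (nat_lit 16) (nat_lit 0x7d33799accbd452e26593289804be25a91386ce314157895c324) (nat_lit 0))) (N (nat_lit 1217) (L (E (nat_lit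 8) (nat_lit 0x7d4266132c98244f18a8ac0326) (nat_lit 0))) (N (nat_lit 1219) (N (nat_lit 1218) (L (E (nat_lit 4) (nat_lit 0x6b526011406d0) (nat_lit 0))) (L (E (nat_lit 2) (nat_lit 0x14bc986) (nat_lit 0)))) (L (E (nat_lit 8) (nat_lit 0x6b72f694c099a4c22290c58564) (nat_lit 0)))))))) (N (nat_lit 1223) (N (nat_lit 1222) (N (nat_lit 1221) (L (E (nat_lit 11) (nat_lit 0x3ea9ae0cae5ee298933c98a45318b8acc4b2) (nat_lit 0))) (L (E (nat_lit 12) (nat_lit 0x6b92f794c899e4c626212e897245418c0968328) (nat_lit 0)))) (L (E (nat_lit 14) (nat_lit 0x1f5cde86ba2f814cc9a24c525d92e88aa31915a896c32a) (nat_lit 0)))) (N (nat_lit 1225) (N (nat_lit 1224) (L (E (nat_lit 0) (nat_lit 0x0) (nat_lit 0))) (L (E (nat_lit 15) (nat_lit 0x3ec9bd8d785f229a934c9a44c925e115c6d431b15b897432e) (nat_lit 0)))) (L (E (nat_lit 15) (nat_lit 0x3ed1bdcd7a5f329b13509a64ca26412f88b031c15c0978330) (nat_lit 0)))))) (N (nat_lit 1234) (N (nat_lit 1232) (N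 (nat_lit 1228) (N (nat_lit 1227) (L (E (nat_lit 15) (nat_lit 0x3ed9af8be853726a93509964c925f92f88b231d15c897c332) (nat_lit 0))) (L (E (nat_lit 13) (nat_lit 0xdf26bf2fa94e09aa4cc265130097e45a1b68c784c0) (nat_lit 0)))) (N (nat_lit 1231) (N (nat_lit 1230) (N (nat_lit 1229) (L (E (nat_lit 7) (nat_lit 0x37d14e49ae4cb22d8aec4c2) (nat_lit 0))) (L (E (nat_lit 5) (nat_lit 0xbee53b2618c804c4) (nat_lit 0)))) (L (E (nat_lit 9) (nat_lit 0xd865f829e136499e4cd2618c84578) (nat_lit 0)))) (L (E (nat_lit 14) (nat_lit 0x1f7cd885f929e936c9b44ce26293108bc32215e8990336) (nat_lit 0))))) (N (nat_lit 1233) (L (E (nat_lit 1) (nat_lit 0xcc4) (nat_lit 0))) (L (E (nat_lit 15) (nat_lit 0x3f09becd8c5fb29f93749b84d226311806dc32415f899833a) (nat_lit 0))))) (N (nat_lit 1236) (N (nat_lit 1235) (L (E (nat_lit 14) (nat_lit 0x1f88df86c72fe15009ba4d326893208c236f1928b004ce) (nat_lit 0))) (L (E (nat_lit 13) (nat_lit 0xdfa6c82fe95049be4d4269132499046219309a033e)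 (nat_lit 0)))) (N (nat_lit 1237) (L (E (nat_lit 17) (nat_lit 0xfc86fe36497f8a844e026f93549a64ca264918c6e032716109a4340) (nat_lit 0))) (L (E (nat_lit 15) (nat_lit 0x3f29bfcd945ff2a193849c04d426593288c83711940b0c4d4) (nat_lit 0)))))))
def nb25 : RA := N (nat_lit 1303) (N (nat_lit 1283) (N (nat_lit 1275) (N (nat_lit 1274) (N (nat_lit 1273) (N (nat_lit 1272) (L (E (nat_lit 9) (nat_lit 0x10026e630f95809fe4ef2430b8c508) (nat_lit 0))) (L (E (nat_lit 0) (nat_lit 0x0) (nat_lit 0)))) (L (E (nat_lit 11) (nat_lit 0x4019ba0a0250027d13c49e04881a38b9450c) (nat_lit 0)))) (L (E (nat_lit 10) (nat_lit 0x2010dd26222b193e49123481730a1c360) (nat_lit 0)))) (N (nat_lit 1277) (N (nat_lit 1276) (L (E (nat_lit 10) (nat_lit 0x2014dd462328113e89e648a1a48b9c510) (nat_lit 0))) (L (E (nat_lit 7) (nat_lit 0x3121594a084fd279922c694) (nat_lit 0)))) (N (nat_lit 1279) (N (nat_lit 1278) (L (E (nat_lit 5) (nat_lit 0x100e62527e12305d2)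 (nat_lit 0))) (L (E (nat_lit 0) (nat_lit 0x0) (nat_lit 0)))) (N (nat_lit 1281) (N (nat_lit 1280) (L (E (nat_lit 2) (nat_lit 0x13dc5d6) (nat_lit 0))) (L (E (nat_lit 6) (nat_lit 0x2028ace4f92478d385d8) (nat_lit 0)))) (N (nat_lit 1282) (L (E (nat_lit 4) (nat_lit 0x68427c8bb4516) (nat_lit 0))) (L (E (nat_lit 4) (nat_lit 0x71728312446a0) (nat_lit 0)))))))) (N (nat_lit 1300) (N (nat_lit 1295) (N (nat_lit 1293) (N (nat_lit 1288) (N (nat_lit 1284) (L (E (nat_lit 5) (nat_lit 0x101a71828212485de) (nat_lit 0))) (N (nat_lit 1287) (N (nat_lit 1286) (N (nat_lit 1285) (L (E (nat_lit 0) (nat_lit 0x0) (nat_lit 0))) (L (E (nat_lit 1) (nat_lit 0xa00) (nat_lit 0)))) (L (E (nat_lit 2) (nat_lit 0x203c5e8) (nat_lit 0)))) (L (E (nat_lit 1) (nat_lit 0xa16) (nat_lit 0))))) (N (nat_lit 1292) (N (nat_lit 1291) (N (nat_lit 1290) (N (nat_lit 1289) (L (E (nat_lit 2) (nat_lit 0x1424528) (nat_lit 0))) (L (E (nat_lit 0) (nat_lit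 0x0) (nat_lit 0)))) (L (E (nat_lit 1) (nat_lit 0xa26) (nat_lit 0)))) (L (E (nat_lit 6) (nat_lit 0x1bb0ad25132838be0532) (nat_lit 0)))) (L (E (nat_lit 3) (nat_lit 0x28a1280534) (nat_lit 0))))) (N (nat_lit 1294) (L (E (nat_lit 1) (nat_lit 0xc62) (nat_lit 0))) (L (E (nat_lit 9) (nat_lit 0xdda69328b9458a1e4a217d8a7036a) (nat_lit 0))))) (N (nat_lit 1299) (N (nat_lit 1296) (L (E (nat_lit 7) (nat_lit 0x34a145ca1c4a317e0a7436c) (nat_lit 0))) (N (nat_lit 1297) (L (E (nat_lit 2) (nat_lit 0x143c36e) (nat_lit 0))) (N (nat_lit 1298) (L (E (nat_lit 0) (nat_lit 0x0) (nat_lit 0))) (L (E (nat_lit 0) (nat_lit 0x0) (nat_lit 0)))))) (L (E (nat_lit 8) (nat_lit 0x69828e9450a1650a2530bf8370) (nat_lit 0))))) (N (nat_lit 1302) (N (nat_lit 1301) (L (E (nat_lit 6) (nat_lit 0x1a64a3e515286129c544) (nat_lit 0))) (L (E (nat_lit 8) (nat_lit 0x56b28f9458a283561800a8c374) (nat_lit 0)))) (L (E (nat_lit 9) (nat_lit 0xd3652128b9454a1c4a91808a90376)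 (nat_lit 0)))))) (N (nat_lit 1314) (N (nat_lit 1311) (N (nat_lit 1308) (N (nat_lit 1304) (L (E (nat_lit 6) (nat_lit 0x1488a425162879438604) (nat_lit 0))) (N (nat_lit 1305) (L (E (nat_lit 1) (nat_lit 0xc72) (nat_lit 0))) (N (nat_lit 1306) (L (E (nat_lit 2) (nat_lit 0x1a78958) (nat_lit 0))) (N (nat_lit 1307) (L (E (nat_lit 0) (nat_lit 0x0) (nat_lit 0))) (L (E (nat_lit 0) (nat_lit 0x0) (nat_lit 0))))))) (N (nat_lit 1309) (L (E (nat_lit 5) (nat_lit 0xd4252628e92b8552) (nat_lit 0))) (N (nat_lit 1310) (L (E (nat_lit 7) (nat_lit 0x35114a0a385132578c14554) (nat_lit 0))) (L (E (nat_lit 1) (nat_lit 0xc78) (nat_lit 0)))))) (N (nat_lit 1313) (N (nat_lit 1312) (L (E (nat_lit 11) (nat_lit 0x3781a90a5452928a945096237e1838ab0382) (nat_lit 0))) (L (E (nat_lit 0) (nat_lit 0x0) (nat_lit 0)))) (L (E (nat_lit 14) (nat_lit 0x204ce326f235314b0a5652228b945896635a1848ab8386) (nat_lit 0))))) (N (nat_lit 1318) (N (nat_lit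 1315) (L (E (nat_lit 13) (nat_lit 0xde66a72b914b0a4652128b92d06fe35b1850abc388) (nat_lit 0))) (N (nat_lit 1316) (L (E (nat_lit 6) (nat_lit 0x1aa096a3801858ac038a) (nat_lit 0))) (N (nat_lit 1317) (L (E (nat_lit 0) (nat_lit 0x0) (nat_lit 0))) (L (E (nat_lit 0) (nat_lit 0x0) (nat_lit 0)))))) (N (nat_lit 1321) (N (nat_lit 1320) (N (nat_lit 1319) (L (E (nat_lit 2) (nat_lit 0x1494a38) (nat_lit 0))) (L (E (nat_lit 1) (nat_lit 0xc86) (nat_lit 0)))) (L (E (nat_lit 11) (nat_lit 0x37a1ab4a64531294947497235d1870ad438e) (nat_lit 0)))) (L (E (nat_lit 8) (nat_lit 0x6ae29994c8a5452828f92e861e) (nat_lit 0))))))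
def nb26 : RA := N (nat_lit 1444) (N (nat_lit 1429) (N (nat_lit 1422) (N (nat_lit 1420) (N (nat_lit 1418) (L (E (nat_lit 1) (nat_lit 0xb16) (nat_lit 0))) (N (nat_lit 1419) (L (E (nat_lit 0) (nat_lit 0x0) (nat_lit 0))) (L (E (nat_lit 0) (nat_lit 0x0) (nat_lit 0))))) (N (nat_lit 1421) (L (E (nat_lit 1) (nat_lit 0xdea) (nat_lit 0))) (L (E (nat_lit 2) (nat_lit 0x15e46d8) (nat_lit 0))))) (N (nat_lit 1425) (N (nat_lit 1424) (N (nat_lit 1423) (L (E (nat_lit 0) (nat_lit 0x0) (nat_lit 0))) (L (E (nat_lit 1) (nat_lit 0xdfa) (nat_lit 0)))) (L (E (nat_lit 0) (nat_lit 0x0) (nat_lit 0)))) (N (nat_lit 1427) (N (nat_lit 1426) (L (E (nat_lit 0) (nat_lit 0x0) (nat_lit 0))) (L (E (nat_lit 0) (nat_lit 0x0) (nat_lit 0)))) (N (nat_lit 1428) (L (E (nat_lit 0) (nat_lit 0x0) (nat_lit 0))) (L (E (nat_lit 0) (nat_lit 0x0) (nat_lit 0))))))) (N (nat_lit 1436) (N (nat_lit 1433) (N (nat_lit 1431) (N (nat_lit 1430) (L (E (nat_lit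 1) (nat_lit 0x412) (nat_lit 0))) (L (E (nat_lit 0) (nat_lit 0x0) (nat_lit 0)))) (N (nat_lit 1432) (L (E (nat_lit 0) (nat_lit 0x0) (nat_lit 0))) (L (E (nat_lit 0) (nat_lit 0x0) (nat_lit 0))))) (N (nat_lit 1435) (N (nat_lit 1434) (L (E (nat_lit 1) (nat_lit 0x7dc) (nat_lit 0))) (L (E (nat_lit 0) (nat_lit 0x0) (nat_lit 0)))) (L (E (nat_lit 1) (nat_lit 0x424) (nat_lit 0))))) (N (nat_lit 1440) (N (nat_lit 1438) (N (nat_lit 1437) (L (E (nat_lit 0) (nat_lit 0x0) (nat_lit 0))) (L (E (nat_lit 0) (nat_lit 0x0) (nat_lit 0)))) (N (nat_lit 1439) (L (E (nat_lit 0) (nat_lit 0x0) (nat_lit 0))) (L (E (nat_lit 0) (nat_lit 0x0) (nat_lit 0))))) (N (nat_lit 1442) (N (nat_lit 1441) (L (E (nat_lit 0) (nat_lit 0x0) (nat_lit 0))) (L (E (nat_lit 0) (nat_lit 0x0) (nat_lit 0)))) (N (nat_lit 1443) (L (E (nat_lit 0) (nat_lit 0x0) (nat_lit 0))) (L (E (nat_lit 0) (nat_lit 0x0) (nat_lit 0)))))))) (N (nat_lit 1456) (N (nat_lit 1450)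 (N (nat_lit 1448) (N (nat_lit 1446) (N (nat_lit 1445) (L (E (nat_lit 0) (nat_lit 0x0) (nat_lit 0))) (L (E (nat_lit 1) (nat_lit 0x7ba) (nat_lit 0)))) (N (nat_lit 1447) (L (E (nat_lit 0) (nat_lit 0x0) (nat_lit 0))) (L (E (nat_lit 1) (nat_lit 0x7c4) (nat_lit 0))))) (N (nat_lit 1449) (L (E (nat_lit 3) (nat_lit 0x2d4968c738) (nat_lit 0))) (L (E (nat_lit 1) (nat_lit 0x10e4) (nat_lit 0))))) (N (nat_lit 1454) (N (nat_lit 1453) (N (nat_lit 1452) (N (nat_lit 1451) (L (E (nat_lit 0) (nat_lit 0x0) (nat_lit 0))) (L (E (nat_lit 0) (nat_lit 0x0) (nat_lit 0)))) (L (E (nat_lit 0) (nat_lit 0x0) (nat_lit 0)))) (L (E (nat_lit 1) (nat_lit 0xf1c) (nat_lit 0)))) (N (nat_lit 1455) (L (E (nat_lit 0) (nat_lit 0x0) (nat_lit 0))) (L (E (nat_lit 2) (nat_lit 0x1e448bc) (nat_lit 0)))))) (N (nat_lit 1462) (N (nat_lit 1458) (N (nat_lit 1457) (L (E (nat_lit 2) (nat_lit 0x1e48b52) (nat_lit 0))) (L (E (nat_lit 1) (nat_lit 0xf26) (nat_lit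 0)))) (N (nat_lit 1460) (N (nat_lit 1459) (L (E (nat_lit 0) (nat_lit 0x0) (nat_lit 0))) (L (E (nat_lit 0) (nat_lit 0x0) (nat_lit 0)))) (N (nat_lit 1461) (L (E (nat_lit 0) (nat_lit 0x0) (nat_lit 0))) (L (E (nat_lit 0) (nat_lit 0x0) (nat_lit 0)))))) (N (nat_lit 1463) (L (E (nat_lit 3) (nat_lit 0x2db96c08d4) (nat_lit 0))) (N (nat_lit 1464) (L (E (nat_lit 4) (nat_lit 0x6042db0fe876c) (nat_lit 0))) (L (E (nat_lit 0) (nat_lit 0x0) (nat_lit 0)))))))
def nb27 : RA := N (nat_lit 1380) (N (nat_lit 1372) (N (nat_lit 1370) (N (nat_lit 1367) (L (E (nat_lit 5) (nat_lit 0xabc5572aa9530674) (nat_lit 0))) (N (nat_lit 1368) (L (E (nat_lit 2) (nat_lit 0x15589d6) (nat_lit 0))) (N (nat_lit 1369) (L (E (nat_lit 0) (nat_lit 0x0) (nat_lit 0))) (L (E (nat_lit 0) (nat_lit 0x0) (nat_lit 0)))))) (N (nat_lit 1371) (L (E (nat_lit 6) (nat_lit 0x1b80ac25522a893bc67e) (nat_lit 0))) (L (E (nat_lit 8) (nat_lit 0x72d38a1b84ac255c2a90d005cc)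 (nat_lit 0))))) (N (nat_lit 1374) (N (nat_lit 1373) (L (E (nat_lit 10) (nat_lit 0x20dce2a6e22b1956caa84f11c80d045ce) (nat_lit 0))) (L (E (nat_lit 0) (nat_lit 0x0) (nat_lit 0)))) (N (nat_lit 1379) (N (nat_lit 1375) (L (E (nat_lit 7) (nat_lit 0x41c9b90ac85562798d0c5d2) (nat_lit 0))) (N (nat_lit 1377) (N (nat_lit 1376) (L (E (nat_lit 0) (nat_lit 0x0) (nat_lit 0))) (L (E (nat_lit 0) (nat_lit 0x0) (nat_lit 0)))) (N (nat_lit 1378) (L (E (nat_lit 4) (nat_lit 0x55a1bc0d185da) (nat_lit 0))) (L (E (nat_lit 0) (nat_lit 0x0) (nat_lit 0)))))) (L (E (nat_lit 6) (nat_lit 0x1cbcdd255c27d0d205de) (nat_lit 0)))))) (N (nat_lit 1417) (N (nat_lit 1397) (N (nat_lit 1392) (N (nat_lit 1385) (N (nat_lit 1382) (N (nat_lit 1381) (L (E (nat_lit 1) (nat_lit 0xad0) (nat_lit 0))) (L (E (nat_lit 2) (nat_lit 0x20f49f8) (nat_lit 0)))) (N (nat_lit 1384) (N (nat_lit 1383) (L (E (nat_lit 1) (nat_lit 0x9fe) (nat_lit 0))) (L (E (nat_lit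 0) (nat_lit 0x0) (nat_lit 0)))) (L (E (nat_lit 1) (nat_lit 0x5ec) (nat_lit 0))))) (N (nat_lit 1389) (N (nat_lit 1387) (N (nat_lit 1386) (L (E (nat_lit 0) (nat_lit 0x0) (nat_lit 0))) (L (E (nat_lit 0) (nat_lit 0x0) (nat_lit 0)))) (N (nat_lit 1388) (L (E (nat_lit 0) (nat_lit 0x0) (nat_lit 0))) (L (E (nat_lit 0) (nat_lit 0x0) (nat_lit 0))))) (N (nat_lit 1390) (L (E (nat_lit 1) (nat_lit 0xad4) (nat_lit 0))) (N (nat_lit 1391) (L (E (nat_lit 0) (nat_lit 0x0) (nat_lit 0))) (L (E (nat_lit 0) (nat_lit 0x0) (nat_lit 0))))))) (N (nat_lit 1393) (L (E (nat_lit 1) (nat_lit 0x624) (nat_lit 0))) (N (nat_lit 1394) (L (E (nat_lit 3) (nat_lit 0x34e95c0626) (nat_lit 0))) (N (nat_lit 1396) (N (nat_lit 1395) (L (E (nat_lit 0) (nat_lit 0x0) (nat_lit 0))) (L (E (nat_lit 1) (nat_lit 0xd3e) (nat_lit 0)))) (L (E (nat_lit 0) (nat_lit 0x0) (nat_lit 0))))))) (N (nat_lit 1405) (N (nat_lit 1402) (N (nat_lit 1401) (N (nat_lit 1399)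 (N (nat_lit 1398) (L (E (nat_lit 0) (nat_lit 0x0) (nat_lit 0))) (L (E (nat_lit 0) (nat_lit 0x0) (nat_lit 0)))) (N (nat_lit 1400) (L (E (nat_lit 0) (nat_lit 0x0) (nat_lit 0))) (L (E (nat_lit 0) (nat_lit 0x0) (nat_lit 0))))) (L (E (nat_lit 3) (nat_lit 0x2c695f864c) (nat_lit 0)))) (N (nat_lit 1404) (N (nat_lit 1403) (L (E (nat_lit 0) (nat_lit 0x0) (nat_lit 0))) (L (E (nat_lit 2) (nat_lit 0x1ad0652) (nat_lit 0)))) (L (E (nat_lit 2) (nat_lit 0x1c0c6d2) (nat_lit 0))))) (N (nat_lit 1411) (N (nat_lit 1407) (N (nat_lit 1406) (L (E (nat_lit 4) (nat_lit 0x6bc2bf15e46d4) (nat_lit 0))) (L (E (nat_lit 0) (nat_lit 0x0) (nat_lit 0)))) (N (nat_lit 1410) (N (nat_lit 1409) (N (nat_lit 1408) (L (E (nat_lit 0) (nat_lit 0x0) (nat_lit 0))) (L (E (nat_lit 0) (nat_lit 0x0) (nat_lit 0)))) (L (E (nat_lit 0) (nat_lit 0x0) (nat_lit 0)))) (L (E (nat_lit 2) (nat_lit 0x2138afe) (nat_lit 0))))) (N (nat_lit 1415) (N (nat_lit 1413)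 (N (nat_lit 1412) (L (E (nat_lit 0) (nat_lit 0x0) (nat_lit 0))) (L (E (nat_lit 0) (nat_lit 0x0) (nat_lit 0)))) (N (nat_lit 1414) (L (E (nat_lit 1) (nat_lit 0xdb4) (nat_lit 0))) (L (E (nat_lit 0) (nat_lit 0x0) (nat_lit 0))))) (N (nat_lit 1416) (L (E (nat_lit 2) (nat_lit 0xe643f6) (nat_lit 0))) (L (E (nat_lit 1) (nat_lit 0xb0e) (nat_lit 0)))))))) (nb26))
def nb28 : RA := N (nat_lit 1496) (N (nat_lit 1489) (N (nat_lit 1484) (N (nat_lit 1474) (N (nat_lit 1469) (N (nat_lit 1467) (N (nat_lit 1466) (L (E (nat_lit 0) (nat_lit 0x0) (nat_lit 0))) (L (E (nat_lit 0) (nat_lit 0x0) (nat_lit 0)))) (N (nat_lit 1468) (L (E (nat_lit 1) (nat_lit 0x8e6) (nat_lit 0))) (L (E (nat_lit 0) (nat_lit 0x0) (nat_lit 0))))) (N (nat_lit 1472) (N (nat_lit 1471) (N (nat_lit 1470) (L (E (nat_lit 0) (nat_lit 0x0) (nat_lit 0))) (L (E (nat_lit 0) (nat_lit 0x0) (nat_lit 0)))) (L (E (nat_lit 0) (nat_lit 0x0) (nat_lit 0)))) (N (nat_lit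 1473) (L (E (nat_lit 1) (nat_lit 0xb88) (nat_lit 0))) (L (E (nat_lit 0) (nat_lit 0x0) (nat_lit 0)))))) (N (nat_lit 1480) (N (nat_lit 1477) (N (nat_lit 1475) (L (E (nat_lit 1) (nat_lit 0xc34) (nat_lit 0))) (N (nat_lit 1476) (L (E (nat_lit 0) (nat_lit 0x0) (nat_lit 0))) (L (E (nat_lit 0) (nat_lit 0x0) (nat_lit 0))))) (N (nat_lit 1479) (N (nat_lit 1478) (L (E (nat_lit 0) (nat_lit 0x0) (nat_lit 0))) (L (E (nat_lit 0) (nat_lit 0x0) (nat_lit 0)))) (L (E (nat_lit 0) (nat_lit 0x0) (nat_lit 0))))) (N (nat_lit 1482) (N (nat_lit 1481) (L (E (nat_lit 0) (nat_lit 0x0) (nat_lit 0))) (L (E (nat_lit 1) (nat_lit 0x474) (nat_lit 0)))) (N (nat_lit 1483) (L (E (nat_lit 1) (nat_lit 0xba2) (nat_lit 0))) (L (E (nat_lit 0) (nat_lit 0x0) (nat_lit 0))))))) (N (nat_lit 1485) (L (E (nat_lit 8) (nat_lit 0x7763aa9750ba65cd25110a447a) (nat_lit 0))) (N (nat_lit 1486) (L (E (nat_lit 4) (nat_lit 0x7bd2e610a847c) (nat_lit 0))) (N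 (nat_lit 1488) (N (nat_lit 1487) (L (E (nat_lit 0) (nat_lit 0x0) (nat_lit 0))) (L (E (nat_lit 0) (nat_lit 0x0) (nat_lit 0)))) (L (E (nat_lit 1) (nat_lit 0xef4) (nat_lit 0))))))) (N (nat_lit 1491) (N (nat_lit 1490) (L (E (nat_lit 5) (nat_lit 0xbb65d22e5129c484) (nat_lit 0))) (L (E (nat_lit 8) (nat_lit 0x73f2ed974cba25ca2178ea0486) (nat_lit 0)))) (N (nat_lit 1492) (L (E (nat_lit 9) (nat_lit 0xefa5dd2ea1748b984a92180f30488) (nat_lit 0))) (N (nat_lit 1493) (L (E (nat_lit 5) (nat_lit 0xbbc5dd2e9973048a) (nat_lit 0))) (N (nat_lit 1495) (N (nat_lit 1494) (L (E (nat_lit 0) (nat_lit 0x0) (nat_lit 0))) (L (E (nat_lit 1) (nat_lit 0x79e) (nat_lit 0)))) (L (E (nat_lit 0) (nat_lit 0x0) (nat_lit 0)))))))) (N (nat_lit 1501) (N (nat_lit 1498) (N (nat_lit 1497) (L (E (nat_lit 4) (nat_lit 0x7c43c0178848e) (nat_lit 0))) (L (E (nat_lit 6) (nat_lit 0x1e0495e4361e80ea4490) (nat_lit 0)))) (N (nat_lit 1499) (L (E (nat_lit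 1) (nat_lit 0xc78) (nat_lit 0))) (N (nat_lit 1500) (L (E (nat_lit 8) (nat_lit 0x5e62f29748ba24b121c0f48494) (nat_lit 0))) (L (E (nat_lit 0) (nat_lit 0x0) (nat_lit 0)))))) (N (nat_lit 1502) (L (E (nat_lit 7) (nat_lit 0x2f39778ba85d321d0f50498) (nat_lit 0))) (N (nat_lit 1503) (L (E (nat_lit 10) (nat_lit 0x1f28f0c5e82ef9774ba84b421d8f5449a) (nat_lit 0))) (N (nat_lit 1505) (N (nat_lit 1504) (L (E (nat_lit 3) (nat_lit 0x2f5177896a) (nat_lit 0))) (L (E (nat_lit 0) (nat_lit 0x0) (nat_lit 0)))) (N (nat_lit 1507) (N (nat_lit 1506) (L (E (nat_lit 0) (nat_lit 0x0) (nat_lit 0))) (L (E (nat_lit 2) (nat_lit 0x176087a) (nat_lit 0)))) (L (E (nat_lit 0) (nat_lit 0x0) (nat_lit 0))))))))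
def nb29 : RA := N (nat_lit 1355) (N (nat_lit 1340) (N (nat_lit 1331) (N (nat_lit 1324) (N (nat_lit 1323) (L (E (nat_lit 14) (nat_lit 0x2054dec6af2ba14cca5652928f92ec70235f1880adc392) (nat_lit 0))) (L (E (nat_lit 13) (nat_lit 0xe346b02ba94d4a5852a29092f07043601888ae0394) (nat_lit 0)))) (N (nat_lit 1327) (N (nat_lit 1325) (L (E (nat_lit 9) (nat_lit 0xa6c5352959488a423611890ae4396) (nat_lit 0))) (N (nat_lit 1326) (L (E (nat_lit 1) (nat_lit 0xc92) (nat_lit 0))) (L (E (nat_lit 9) (nat_lit 0xe386fa35994dc97e38518a0aec39a) (nat_lit 0))))) (N (nat_lit 1330) (N (nat_lit 1329) (N (nat_lit 1328) (L (E (nat_lit 0) (nat_lit 0x0) (nat_lit 0))) (L (E (nat_lit 1) (nat_lit 0xa78) (nat_lit 0)))) (L (E (nat_lit 5) (nat_lit 0xa7a53c2940c5c57c) (nat_lit 0)))) (L (E (nat_lit 11) (nat_lit 0x35c94f4a6653129494a098a36318c0afc39c) (nat_lit 0)))))) (N (nat_lit 1333) (N (nat_lit 1332) (L (E (nat_lit 14) (nat_lit 0x2068e3a6fc35d15e0a7e53229514a498c36418c8b0039e)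 (nat_lit 0))) (L (E (nat_lit 0) (nat_lit 0x0) (nat_lit 0)))) (N (nat_lit 1335) (N (nat_lit 1334) (L (E (nat_lit 14) (nat_lit 0x2070e3c6fe35e15e8a8254029b14b0a564c818d8b083a2) (nat_lit 0))) (L (E (nat_lit 12) (nat_lit 0x6ff35e9508a8253729a94b09923871b38c70586) (nat_lit 0)))) (N (nat_lit 1336) (L (E (nat_lit 9) (nat_lit 0xe006be2a19508a705362970c74588) (nat_lit 0))) (N (nat_lit 1337) (L (E (nat_lit 7) (nat_lit 0x35f950ca6e4cb1c40c783a8) (nat_lit 0))) (N (nat_lit 1339) (N (nat_lit 1338) (L (E (nat_lit 1) (nat_lit 0xe42) (nat_lit 0))) (L (E (nat_lit 1) (nat_lit 0xd82) (nat_lit 0)))) (L (E (nat_lit 2) (nat_lit 0x195ca78) (nat_lit 0))))))))) (N (nat_lit 1347) (N (nat_lit 1344) (N (nat_lit 1341) (L (E (nat_lit 8) (nat_lit 0x54629e94eca625302670c84590) (nat_lit 0))) (N (nat_lit 1343) (N (nat_lit 1342) (L (E (nat_lit 8) (nat_lit 0x6c42a414f0a645312678c88592) (nat_lit 0))) (L (E (nat_lit 0) (nat_lit 0x0)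 (nat_lit 0)))) (L (E (nat_lit 11) (nat_lit 0x3821b18a945492a014cc9a236a1920b2c3ae) (nat_lit 0))))) (N (nat_lit 1345) (L (E (nat_lit 13) (nat_lit 0xe46705363952ca9454129f94d49a436b1928b303b0) (nat_lit 0))) (N (nat_lit 1346) (L (E (nat_lit 11) (nat_lit 0x3641530a965422a014d8a6a4d31c50c9859a) (nat_lit 0))) (L (E (nat_lit 12) (nat_lit 0x7243649530a8654129b94d89a838b1938b383b4) (nat_lit 0)))))) (N (nat_lit 1353) (N (nat_lit 1352) (N (nat_lit 1348) (L (E (nat_lit 10) (nat_lit 0x2094e4a6ca2a71508a7053726a8e30650) (nat_lit 0))) (N (nat_lit 1350) (N (nat_lit 1349) (L (E (nat_lit 0) (nat_lit 0x0) (nat_lit 0))) (L (E (nat_lit 1) (nat_lit 0x5a0) (nat_lit 0)))) (N (nat_lit 1351) (L (E (nat_lit 2) (nat_lit 0x15409b2) (nat_lit 0))) (L (E (nat_lit 0) (nat_lit 0x0) (nat_lit 0)))))) (L (E (nat_lit 9) (nat_lit 0x10506ce2a91544a9253d26d8cb05a6) (nat_lit 0)))) (N (nat_lit 1354) (L (E (nat_lit 11) (nat_lit 0x4149c28d9e5522a51520a7e4dc1968b503b8)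 (nat_lit 0))) (L (E (nat_lit 12) (nat_lit 0x82a3859b40b025542a59524a8053f26e8cb85aa) (nat_lit 0))))))) (N (nat_lit 1465) (N (nat_lit 1366) (N (nat_lit 1356) (L (E (nat_lit 11) (nat_lit 0x4159c98aaa5542a61528a825401b80cbc5ac) (nat_lit 0))) (N (nat_lit 1362) (N (nat_lit 1358) (N (nat_lit 1357) (L (E (nat_lit 10) (nat_lit 0x1b48aac54b2a115049be38d1b88cc05ae) (nat_lit 0))) (L (E (nat_lit 0) (nat_lit 0x0) (nat_lit 0)))) (N (nat_lit 1361) (N (nat_lit 1359) (L (E (nat_lit 4) (nat_lit 0x5432708cc85b2) (nat_lit 0))) (N (nat_lit 1360) (L (E (nat_lit 0) (nat_lit 0x0) (nat_lit 0))) (L (E (nat_lit 4) (nat_lit 0x54f2a30cd05b6) (nat_lit 0))))) (L (E (nat_lit 7) (nat_lit 0x3879b58ab45522728cd45b8) (nat_lit 0))))) (N (nat_lit 1364) (N (nat_lit 1363) (L (E (nat_lit 7) (nat_lit 0x2ad9568aa25492a4139866c) (nat_lit 0))) (L (E (nat_lit 0) (nat_lit 0x0) (nat_lit 0)))) (N (nat_lit 1365) (L (E (nat_lit 12) (nat_lit 0x8303959b64ab85552a595289d037419c0b7c3be)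 (nat_lit 0))) (L (E (nat_lit 5) (nat_lit 0xdb45562aa13a45c0) (nat_lit 0))))))) (nb27)) (N (nat_lit 1508) (nb28) (N (nat_lit 1519) (N (nat_lit 1511) (N (nat_lit 1509) (L (E (nat_lit 9) (nat_lit 0xf9a5ee2f2976497243f1ed0eb84a2) (nat_lit 0))) (N (nat_lit 1510) (L (E (nat_lit 6) (nat_lit 0x1f38be05ef2f317907b6) (nat_lit 0))) (L (E (nat_lit 8) (nat_lit 0x78d2f8179cbca5db25d91044a6) (nat_lit 0))))) (N (nat_lit 1513) (N (nat_lit 1512) (L (E (nat_lit 11) (nat_lit 0x3e81e38be45e82f31774b4a4bc2210f744a8) (nat_lit 0))) (L (E (nat_lit 7) (nat_lit 0x2f997c8bce5de2ee96984aa) (nat_lit 0)))) (N (nat_lit 1515) (N (nat_lit 1514) (L (E (nat_lit 0) (nat_lit 0x0) (nat_lit 0))) (L (E (nat_lit 6) (nat_lit 0x17d0bd65df2228f804ae) (nat_lit 0)))) (N (nat_lit 1518) (N (nat_lit 1517) (N (nat_lit 1516) (L (E (nat_lit 0) (nat_lit 0x0) (nat_lit 0))) (L (E (nat_lit 0) (nat_lit 0x0) (nat_lit 0)))) (L (E (nat_lit 2) (nat_lit 0x11207c4)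 (nat_lit 0)))) (L (E (nat_lit 2) (nat_lit 0x17e4762) (nat_lit 0))))))) (N (nat_lit 1521) (N (nat_lit 1520) (L (E (nat_lit 8) (nat_lit 0x7932fc97c0bdc5e526291284b4) (nat_lit 0))) (L (E (nat_lit 12) (nat_lit 0x87e3eb9e50bf65ef2f31794b544c62258f944b6) (nat_lit 0)))) (N (nat_lit 1524) (N (nat_lit 1523) (N (nat_lit 1522) (L (E (nat_lit 0) (nat_lit 0x0) (nat_lit 0))) (L (E (nat_lit 6) (nat_lit 0x17f4bf85f32f391347ce) (nat_lit 0)))) (L (E (nat_lit 7) (nat_lit 0x3ed1e5cbfc5fd2f911387d0) (nat_lit 0)))) (N (nat_lit 1525) (L (E (nat_lit 8) (nat_lit 0x7983b017f8bea5ea265113c7d2) (nat_lit 0))) (N (nat_lit 1526) (L (E (nat_lit 7) (nat_lit 0x2ff97d8be85ea26591404c0) (nat_lit 0))) (N (nat_lit 1528) (N (nat_lit 1527) (L (E (nat_lit 0) (nat_lit 0x0) (nat_lit 0))) (L (E (nat_lit 1) (nat_lit 0x768) (nat_lit 0)))) (L (E (nat_lit 3) (nat_lit 0x3ef115076a) (nat_lit 0)))))))))))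
def nb30 : RA := N (nat_lit 1559) (N (nat_lit 1550) (N (nat_lit 1548) (N (nat_lit 1544) (L (E (nat_lit 4) (nat_lit 0x6062fe8ff44e4) (nat_lit 0))) (N (nat_lit 1547) (N (nat_lit 1546) (N (nat_lit 1545) (L (E (nat_lit 0) (nat_lit 0x0) (nat_lit 0))) (L (E (nat_lit 0) (nat_lit 0x0) (nat_lit 0)))) (L (E (nat_lit 1) (nat_lit 0x800) (nat_lit 0)))) (L (E (nat_lit 1) (nat_lit 0xf52) (nat_lit 0))))) (N (nat_lit 1549) (L (E (nat_lit 3) (nat_lit 0x3d518348d4) (nat_lit 0))) (L (E (nat_lit 6) (nat_lit 0x2224c1c4e5235900c4ea) (nat_lit 0))))) (N (nat_lit 1554) (N (nat_lit 1553) (N (nat_lit 1552) (N (nat_lit 1551) (L (E (nat_lit 4) (nat_lit 0x60d302180c8d8) (nat_lit 0))) (L (E (nat_lit 0) (nat_lit 0x0) (nat_lit 0)))) (L (E (nat_lit 8) (nat_lit 0x7f530c1844c0a4e823710184f0) (nat_lit 0)))) (L (E (nat_lit 4) (nat_lit 0x88d30d11bc80e) (nat_lit 0)))) (N (nat_lit 1558) (N (nat_lit 1555) (L (E (nat_lit 4) (nat_lit 0x7b030d184c8e0)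 (nat_lit 0))) (N (nat_lit 1557) (N (nat_lit 1556) (L (E (nat_lit 0) (nat_lit 0x0) (nat_lit 0))) (L (E (nat_lit 0) (nat_lit 0x0) (nat_lit 0)))) (L (E (nat_lit 0) (nat_lit 0x0) (nat_lit 0))))) (L (E (nat_lit 7) (nat_lit 0x3d99880b7e4ef23a90344fc) (nat_lit 0)))))) (N (nat_lit 1563) (N (nat_lit 1560) (L (E (nat_lit 11) (nat_lit 0x4491ff0f6862030b1838b804f023b10384fe) (nat_lit 0))) (N (nat_lit 1561) (L (E (nat_lit 7) (nat_lit 0x3fe9ed4c4462123b903c500) (nat_lit 0))) (N (nat_lit 1562) (L (E (nat_lit 0) (nat_lit 0x0) (nat_lit 0))) (L (E (nat_lit 9) (nat_lit 0x112a7ff3db988cc246112e111e4822) (nat_lit 0)))))) (N (nat_lit 1571) (N (nat_lit 1570) (N (nat_lit 1567) (N (nat_lit 1565) (N (nat_lit 1564) (L (E (nat_lit 0) (nat_lit 0x0) (nat_lit 0))) (L (E (nat_lit 3) (nat_lit 0x40013d4826) (nat_lit 0)))) (N (nat_lit 1566) (L (E (nat_lit 0) (nat_lit 0x0) (nat_lit 0))) (L (E (nat_lit 0) (nat_lit 0x0) (nat_lit 0)))))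 (N (nat_lit 1568) (L (E (nat_lit 2) (nat_lit 0x225cf72) (nat_lit 0))) (N (nat_lit 1569) (L (E (nat_lit 1) (nat_lit 0xc2c) (nat_lit 0))) (L (E (nat_lit 0) (nat_lit 0x0) (nat_lit 0)))))) (L (E (nat_lit 7) (nat_lit 0x402188cc304fa240905c50e) (nat_lit 0)))) (N (nat_lit 1578) (N (nat_lit 1574) (N (nat_lit 1572) (L (E (nat_lit 2) (nat_lit 0x1208830) (nat_lit 0))) (N (nat_lit 1573) (L (E (nat_lit 1) (nat_lit 0x1136) (nat_lit 0))) (L (E (nat_lit 1) (nat_lit 0x100e) (nat_lit 0))))) (N (nat_lit 1577) (N (nat_lit 1576) (N (nat_lit 1575) (L (E (nat_lit 0) (nat_lit 0x0) (nat_lit 0))) (L (E (nat_lit 0) (nat_lit 0x0) (nat_lit 0)))) (L (E (nat_lit 2) (nat_lit 0x189c916) (nat_lit 0)))) (L (E (nat_lit 1) (nat_lit 0x113c) (nat_lit 0))))) (N (nat_lit 1583) (N (nat_lit 1581) (N (nat_lit 1580) (N (nat_lit 1579) (L (E (nat_lit 0) (nat_lit 0x0) (nat_lit 0))) (L (E (nat_lit 0) (nat_lit 0x0) (nat_lit 0)))) (L (E (nat_lit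 1) (nat_lit 0x526) (nat_lit 0)))) (N (nat_lit 1582) (L (E (nat_lit 0) (nat_lit 0x0) (nat_lit 0))) (L (E (nat_lit 0) (nat_lit 0x0) (nat_lit 0))))) (N (nat_lit 1584) (L (E (nat_lit 1) (nat_lit 0x52c) (nat_lit 0))) (L (E (nat_lit 0) (nat_lit 0x0) (nat_lit 0))))))))
def nb31 : RA := N (nat_lit 1322) (N (nat_lit 1257) (N (nat_lit 1247) (N (nat_lit 1244) (N (nat_lit 1243) (N (nat_lit 1242) (N (nat_lit 1240) (N (nat_lit 1239) (L (E (nat_lit 1) (nat_lit 0xcd0) (nat_lit 0))) (L (E (nat_lit 6) (nat_lit 0x1c04d984e2266119858a) (nat_lit 0)))) (N (nat_lit 1241) (L (E (nat_lit 0) (nat_lit 0x0) (nat_lit 0))) (L (E (nat_lit 10) (nat_lit 0x1f9cc02546271933899a4681950b184d8) (nat_lit 0))))) (L (E (nat_lit 7) (nat_lit 0x366936c99e4691958b1c4da) (nat_lit 0)))) (L (E (nat_lit 13) (nat_lit 0xd9c6032a413989ca4dc26d133c8d432c16409b8344) (nat_lit 0)))) (N (nat_lit 1245) (L (E (nat_lit 15) (nat_lit 0x3f51c08d9e6042a4939c9cc4dd26d93448d632d16489bc346)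 (nat_lit 0))) (N (nat_lit 1246) (L (E (nat_lit 14) (nat_lit 0x1c0cda06052a513a09ce4dc26913448d837219709c0348) (nat_lit 0))) (L (E (nat_lit 0) (nat_lit 0x0) (nat_lit 0)))))) (N (nat_lit 1250) (N (nat_lit 1248) (L (E (nat_lit 14) (nat_lit 0x1fb4e0a6d230395309d24e026a134c8dc3741980b304e4) (nat_lit 0))) (N (nat_lit 1249) (L (E (nat_lit 13) (nat_lit 0xfdc70636993ac9c24df26a93508de3751988b344e6) (nat_lit 0))) (L (E (nat_lit 11) (nat_lit 0x3839b50c1254e27593809aa4701990b384e8) (nat_lit 0))))) (N (nat_lit 1256) (N (nat_lit 1255) (N (nat_lit 1253) (N (nat_lit 1251) (L (E (nat_lit 6) (nat_lit 0x1fc0e1060a26b91c459e) (nat_lit 0))) (N (nat_lit 1252) (L (E (nat_lit 3) (nat_lit 0x3059364666) (nat_lit 0))) (L (E (nat_lit 0) (nat_lit 0x0) (nat_lit 0))))) (N (nat_lit 1254) (L (E (nat_lit 12) (nat_lit 0x7f236b1834aa24ef277136c8e633516889d4352) (nat_lit 0))) (L (E (nat_lit 3) (nat_lit 0x33913bc9b8) (nat_lit 0)))))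 (L (E (nat_lit 12) (nat_lit 0x7f436c13c49e04e827313749b847519b8b4c4ee) (nat_lit 0)))) (L (E (nat_lit 14) (nat_lit 0x1fd4e146d930815509e24e927393748ec37619c0b504f0) (nat_lit 0)))))) (N (nat_lit 1271) (N (nat_lit 1259) (N (nat_lit 1258) (L (E (nat_lit 11) (nat_lit 0x3fb1b68c2255527993a09be47719c8b544f2) (nat_lit 0))) (L (E (nat_lit 1) (nat_lit 0xcea) (nat_lit 0)))) (N (nat_lit 1265) (N (nat_lit 1263) (N (nat_lit 1260) (L (E (nat_lit 12) (nat_lit 0x7f83869b70c2655727a93849c047919d8b5c4f6) (nat_lit 0))) (N (nat_lit 1262) (N (nat_lit 1261) (L (E (nat_lit 1) (nat_lit 0xcee) (nat_lit 0))) (L (E (nat_lit 4) (nat_lit 0x7f930a156067a) (nat_lit 0)))) (L (E (nat_lit 5) (nat_lit 0xdbe61519f0b684fa) (nat_lit 0))))) (N (nat_lit 1264) (L (E (nat_lit 14) (nat_lit 0x1fecdc06162ad13dc9e04ee27313948fa33f16d89f835a) (nat_lit 0))) (L (E (nat_lit 13) (nat_lit 0xff86e130b956c9f24ef27393988fc3771a00b704fe) (nat_lit 0)))))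 (N (nat_lit 1267) (N (nat_lit 1266) (L (E (nat_lit 12) (nat_lit 0x7fd3711860ab84fa27c93a09ce47f1a08b74500) (nat_lit 0))) (L (E (nat_lit 1) (nat_lit 0xcf8) (nat_lit 0)))) (N (nat_lit 1268) (L (E (nat_lit 13) (nat_lit 0xffe7113721868abc4fc27d93d09d24811a18b7c504) (nat_lit 0))) (N (nat_lit 1269) (L (E (nat_lit 7) (nat_lit 0x37293f49e64821a20b80506) (nat_lit 0))) (N (nat_lit 1270) (L (E (nat_lit 6) (nat_lit 0x2000e264fd275920c5c2) (nat_lit 0))) (L (E (nat_lit 1) (nat_lit 0xc3c) (nat_lit 0))))))))) (nb25))) (N (nat_lit 1529) (nb29) (N (nat_lit 1586) (N (nat_lit 1585) (N (nat_lit 1543) (N (nat_lit 1539) (N (nat_lit 1533) (N (nat_lit 1531) (N (nat_lit 1530) (L (E (nat_lit 7) (nat_lit 0x3cd180cbdc4cf22a8fb84c8) (nat_lit 0))) (L (E (nat_lit 0) (nat_lit 0x0) (nat_lit 0)))) (N (nat_lit 1532) (L (E (nat_lit 4) (nat_lit 0x79c30213447e0) (nat_lit 0))) (L (E (nat_lit 8) (nat_lit 0x8823f11818c0a5f222c0fc44ce) (nat_lit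 0))))) (N (nat_lit 1534) (L (E (nat_lit 11) (nat_lit 0x4419e78e8c60730317f8bf85f32f90ee84d0) (nat_lit 0))) (N (nat_lit 1535) (L (E (nat_lit 4) (nat_lit 0x5fd2fa17cc4d2) (nat_lit 0))) (N (nat_lit 1536) (L (E (nat_lit 3) (nat_lit 0x2ff17d47e8) (nat_lit 0))) (N (nat_lit 1538) (N (nat_lit 1537) (L (E (nat_lit 0) (nat_lit 0x0) (nat_lit 0))) (L (E (nat_lit 0) (nat_lit 0x0) (nat_lit 0)))) (L (E (nat_lit 0) (nat_lit 0x0) (nat_lit 0)))))))) (N (nat_lit 1540) (L (E (nat_lit 12) (nat_lit 0x8863f49e88e9260e3069810bf24db2300fe44dc) (nat_lit 0))) (N (nat_lit 1541) (L (E (nat_lit 11) (nat_lit 0x4439fa8c1c60530197ecb6e4dc2308fe84de) (nat_lit 0))) (N (nat_lit 1542) (L (E (nat_lit 4) (nat_lit 0x61030317f04e0) (nat_lit 0))) (L (E (nat_lit 7) (nat_lit 0x3f6181cc0a5fd2fe0ff04e2) (nat_lit 0))))))) (nb30)) (L (E (nat_lit 9) (nat_lit 0xf82775346172ca1a49b2140f34536) (nat_lit 0)))) (N (nat_lit 1587) (L (E (nat_lit 0) (nat_lit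 0x0) (nat_lit 0))) (L (E (nat_lit 9) (nat_lit 0xf8c779348173ca2449f2160f44540) (nat_lit 0))))))
def nb32 : RA := N (nat_lit 1617) (N (nat_lit 1601) (N (nat_lit 1596) (N (nat_lit 1593) (N (nat_lit 1591) (N (nat_lit 1590) (N (nat_lit 1589) (L (E (nat_lit 0) (nat_lit 0x0) (nat_lit 0))) (L (E (nat_lit 0) (nat_lit 0x0) (nat_lit 0)))) (L (E (nat_lit 0) (nat_lit 0x0) (nat_lit 0)))) (N (nat_lit 1592) (L (E (nat_lit 0) (nat_lit 0x0) (nat_lit 0))) (L (E (nat_lit 0) (nat_lit 0x0) (nat_lit 0))))) (N (nat_lit 1594) (L (E (nat_lit 9) (nat_lit 0x10227cb3bf9a58baa5182190f5c54c) (nat_lit 0))) (N (nat_lit 1595) (L (E (nat_lit 0) (nat_lit 0x0) (nat_lit 0))) (L (E (nat_lit 1) (nat_lit 0x7b0) (nat_lit 0)))))) (N (nat_lit 1597) (L (E (nat_lit 11) (nat_lit 0x4091f3cf0475634d1768a3c4a821b8f70556) (nat_lit 0))) (N (nat_lit 1600) (N (nat_lit 1599) (N (nat_lit 1598) (L (E (nat_lit 0) (nat_lit 0x0) (nat_lit 0))) (L (E (nat_lit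 0) (nat_lit 0x0) (nat_lit 0)))) (L (E (nat_lit 0) (nat_lit 0x0) (nat_lit 0)))) (L (E (nat_lit 5) (nat_lit 0x10287882f01490562) (nat_lit 0)))))) (N (nat_lit 1604) (N (nat_lit 1603) (N (nat_lit 1602) (L (E (nat_lit 0) (nat_lit 0x0) (nat_lit 0))) (L (E (nat_lit 0) (nat_lit 0x0) (nat_lit 0)))) (L (E (nat_lit 11) (nat_lit 0x4501f58f14758351978ca4e4b021f0f90568) (nat_lit 0)))) (N (nat_lit 1610) (N (nat_lit 1609) (N (nat_lit 1607) (N (nat_lit 1606) (N (nat_lit 1605) (L (E (nat_lit 0) (nat_lit 0x0) (nat_lit 0))) (L (E (nat_lit 0) (nat_lit 0x0) (nat_lit 0)))) (L (E (nat_lit 0) (nat_lit 0x0) (nat_lit 0)))) (N (nat_lit 1608) (L (E (nat_lit 0) (nat_lit 0x0) (nat_lit 0))) (L (E (nat_lit 0) (nat_lit 0x0) (nat_lit 0))))) (L (E (nat_lit 9) (nat_lit 0x102c7dc35497a4a5a4b62220fa8574) (nat_lit 0)))) (N (nat_lit 1612) (N (nat_lit 1611) (L (E (nat_lit 0) (nat_lit 0x0) (nat_lit 0))) (L (E (nat_lit 3) (nat_lit 0x3ee9aac7d8)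 (nat_lit 0)))) (N (nat_lit 1615) (N (nat_lit 1614) (N (nat_lit 1613) (L (E (nat_lit 0) (nat_lit 0x0) (nat_lit 0))) (L (E (nat_lit 0) (nat_lit 0x0) (nat_lit 0)))) (L (E (nat_lit 0) (nat_lit 0x0) (nat_lit 0)))) (N (nat_lit 1616) (L (E (nat_lit 0) (nat_lit 0x0) (nat_lit 0))) (L (E (nat_lit 0) (nat_lit 0x0) (nat_lit 0))))))))) (N (nat_lit 1634) (N (nat_lit 1618) (L (E (nat_lit 13) (nat_lit 0x114481b3f19e54eb86b132917c4a684bd2260fc8582) (nat_lit 0))) (N (nat_lit 1631) (N (nat_lit 1624) (N (nat_lit 1623) (N (nat_lit 1621) (N (nat_lit 1620) (N (nat_lit 1619) (L (E (nat_lit 0) (nat_lit 0x0) (nat_lit 0))) (L (E (nat_lit 0) (nat_lit 0x0) (nat_lit 0)))) (L (E (nat_lit 0) (nat_lit 0x0) (nat_lit 0)))) (N (nat_lit 1622) (L (E (nat_lit 0) (nat_lit 0x0) (nat_lit 0))) (L (E (nat_lit 0) (nat_lit 0x0) (nat_lit 0))))) (L (E (nat_lit 4) (nat_lit 0x4c42298fe058e) (nat_lit 0)))) (N (nat_lit 1628) (N (nat_lit 1626) (N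 (nat_lit 1625) (L (E (nat_lit 0) (nat_lit 0x0) (nat_lit 0))) (L (E (nat_lit 0) (nat_lit 0x0) (nat_lit 0)))) (N (nat_lit 1627) (L (E (nat_lit 0) (nat_lit 0x0) (nat_lit 0))) (L (E (nat_lit 0) (nat_lit 0x0) (nat_lit 0))))) (N (nat_lit 1630) (N (nat_lit 1629) (L (E (nat_lit 0) (nat_lit 0x0) (nat_lit 0))) (L (E (nat_lit 0) (nat_lit 0x0) (nat_lit 0)))) (L (E (nat_lit 0) (nat_lit 0x0) (nat_lit 0)))))) (N (nat_lit 1632) (L (E (nat_lit 5) (nat_lit 0x104c6002a21170802) (nat_lit 0))) (N (nat_lit 1633) (L (E (nat_lit 0) (nat_lit 0x0) (nat_lit 0))) (L (E (nat_lit 0) (nat_lit 0x0) (nat_lit 0))))))) (L (E (nat_lit 13) (nat_lit 0x11528273f99e84ec26c53309808a8e4d022f90105a4) (nat_lit 0))))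
def nb33 : RA := N (nat_lit 1689) (N (nat_lit 1667) (N (nat_lit 1664) (N (nat_lit 1663) (N (nat_lit 1662) (L (E (nat_lit 0) (nat_lit 0x0) (nat_lit 0))) (L (E (nat_lit 0) (nat_lit 0x0) (nat_lit 0)))) (L (E (nat_lit 0) (nat_lit 0x0) (nat_lit 0)))) (N (nat_lit 1665) (L (E (nat_lit 6) (nat_lit 0x22e4ed86e727c121c5e4) (nat_lit 0))) (N (nat_lit 1666) (L (E (nat_lit 0) (nat_lit 0x0) (nat_lit 0))) (L (E (nat_lit 0) (nat_lit 0x0) (nat_lit 0)))))) (N (nat_lit 1683) (N (nat_lit 1673) (N (nat_lit 1668) (L (E (nat_lit 2) (nat_lit 0x18a891a) (nat_lit 0))) (N (nat_lit 1672) (N (nat_lit 1670) (N (nat_lit 1669) (L (E (nat_lit 1) (nat_lit 0xa02) (nat_lit 0))) (L (E (nat_lit 0) (nat_lit 0x0) (nat_lit 0)))) (N (nat_lit 1671) (L (E (nat_lit 1) (nat_lit 0x5f6) (nat_lit 0))) (L (E (nat_lit 0) (nat_lit 0x0) (nat_lit 0))))) (L (E (nat_lit 3) (nat_lit 0x34490b45fc) (nat_lit 0))))) (N (nat_lit 1681) (N (nat_lit 1677) (N (nat_lit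 1675) (N (nat_lit 1674) (L (E (nat_lit 1) (nat_lit 0x5fe) (nat_lit 0))) (L (E (nat_lit 2) (nat_lit 0x10bc600) (nat_lit 0)))) (N (nat_lit 1676) (L (E (nat_lit 1) (nat_lit 0x860) (nat_lit 0))) (L (E (nat_lit 0) (nat_lit 0x0) (nat_lit 0))))) (N (nat_lit 1678) (L (E (nat_lit 4) (nat_lit 0x7c234a9270606) (nat_lit 0))) (N (nat_lit 1680) (N (nat_lit 1679) (L (E (nat_lit 0) (nat_lit 0x0) (nat_lit 0))) (L (E (nat_lit 1) (nat_lit 0xd2e) (nat_lit 0)))) (L (E (nat_lit 0) (nat_lit 0x0) (nat_lit 0)))))) (N (nat_lit 1682) (L (E (nat_lit 5) (nat_lit 0xd3269225010e060e) (nat_lit 0))) (L (E (nat_lit 6) (nat_lit 0x1a6cd2668b3451284610) (nat_lit 0)))))) (N (nat_lit 1685) (N (nat_lit 1684) (L (E (nat_lit 8) (nat_lit 0x77634d9a50d2450e25110e8612) (nat_lit 0))) (L (E (nat_lit 9) (nat_lit 0xf9469d34a9a4cad850f25190ec614) (nat_lit 0)))) (N (nat_lit 1688) (N (nat_lit 1687) (N (nat_lit 1686) (L (E (nat_lit 1) (nat_lit 0xd28)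 (nat_lit 0))) (L (E (nat_lit 0) (nat_lit 0x0) (nat_lit 0)))) (L (E (nat_lit 2) (nat_lit 0x1a88d1e) (nat_lit 0)))) (L (E (nat_lit 7) (nat_lit 0x3bd1a88d3251325310fc61c) (nat_lit 0))))))) (N (nat_lit 1700) (N (nat_lit 1692) (N (nat_lit 1690) (L (E (nat_lit 10) (nat_lit 0x1f38ef66a434c1a44adc514253910061e) (nat_lit 0))) (N (nat_lit 1691) (L (E (nat_lit 0) (nat_lit 0x0) (nat_lit 0))) (L (E (nat_lit 8) (nat_lit 0x6a63529a4cd245162549108622) (nat_lit 0))))) (N (nat_lit 1694) (N (nat_lit 1693) (L (E (nat_lit 0) (nat_lit 0x0) (nat_lit 0))) (L (E (nat_lit 7) (nat_lit 0x3e91aa0d4e69e34a15c4626) (nat_lit 0)))) (N (nat_lit 1698) (N (nat_lit 1695) (L (E (nat_lit 4) (nat_lit 0x6a834a92b0628) (nat_lit 0))) (N (nat_lit 1696) (L (E (nat_lit 4) (nat_lit 0x6aa2b9946895a) (nat_lit 0))) (N (nat_lit 1697) (L (E (nat_lit 0) (nat_lit 0x0) (nat_lit 0))) (L (E (nat_lit 1) (nat_lit 0xa38) (nat_lit 0)))))) (N (nat_lit 1699)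 (L (E (nat_lit 8) (nat_lit 0x6ad3509a60d2e51d257912462e) (nat_lit 0))) (L (E (nat_lit 0) (nat_lit 0x0) (nat_lit 0))))))) (N (nat_lit 1701) (L (E (nat_lit 12) (nat_lit 0x81a3eb9e0cde06af3571a94d3251f258912c632) (nat_lit 0))) (N (nat_lit 1702) (L (E (nat_lit 8) (nat_lit 0x6f13581abcd4c6a434d92c8634) (nat_lit 0))) (L (E (nat_lit 11) (nat_lit 0x3ec9e14d606a73529a6cae85212599134636) (nat_lit 0))))))
def nb34 : RA := N (nat_lit 1794) (N (nat_lit 1786) (N (nat_lit 1780) (N (nat_lit 1777) (N (nat_lit 1776) (N (nat_lit 1775) (N (nat_lit 1774) (L (E (nat_lit 0) (nat_lit 0x0) (nat_lit 0))) (L (E (nat_lit 0) (nat_lit 0x0) (nat_lit 0)))) (L (E (nat_lit 0) (nat_lit 0x0) (nat_lit 0)))) (L (E (nat_lit 1) (nat_lit 0xd48) (nat_lit 0)))) (N (nat_lit 1779) (N (nat_lit 1778) (L (E (nat_lit 0) (nat_lit 0x0) (nat_lit 0))) (L (E (nat_lit 0) (nat_lit 0x0) (nat_lit 0)))) (L (E (nat_lit 0) (nat_lit 0x0) (nat_lit 0))))) (N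 (nat_lit 1783) (N (nat_lit 1782) (N (nat_lit 1781) (L (E (nat_lit 0) (nat_lit 0x0) (nat_lit 0))) (L (E (nat_lit 0) (nat_lit 0x0) (nat_lit 0)))) (L (E (nat_lit 0) (nat_lit 0x0) (nat_lit 0)))) (N (nat_lit 1784) (L (E (nat_lit 1) (nat_lit 0x6d6) (nat_lit 0))) (N (nat_lit 1785) (L (E (nat_lit 0) (nat_lit 0x0) (nat_lit 0))) (L (E (nat_lit 0) (nat_lit 0x0) (nat_lit 0))))))) (N (nat_lit 1789) (N (nat_lit 1788) (N (nat_lit 1787) (L (E (nat_lit 0) (nat_lit 0x0) (nat_lit 0))) (L (E (nat_lit 0) (nat_lit 0x0) (nat_lit 0)))) (L (E (nat_lit 1) (nat_lit 0xfc4) (nat_lit 0)))) (N (nat_lit 1790) (L (E (nat_lit 4) (nat_lit 0x84d415163caf2) (nat_lit 0))) (N (nat_lit 1792) (N (nat_lit 1791) (L (E (nat_lit 0) (nat_lit 0x0) (nat_lit 0))) (L (E (nat_lit 0) (nat_lit 0x0) (nat_lit 0)))) (N (nat_lit 1793) (L (E (nat_lit 0) (nat_lit 0x0) (nat_lit 0))) (L (E (nat_lit 0) (nat_lit 0x0) (nat_lit 0)))))))) (N (nat_lit 1806) (N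 (nat_lit 1802) (N (nat_lit 1798) (N (nat_lit 1796) (N (nat_lit 1795) (L (E (nat_lit 0) (nat_lit 0x0) (nat_lit 0))) (L (E (nat_lit 0) (nat_lit 0x0) (nat_lit 0)))) (N (nat_lit 1797) (L (E (nat_lit 0) (nat_lit 0x0) (nat_lit 0))) (L (E (nat_lit 0) (nat_lit 0x0) (nat_lit 0))))) (N (nat_lit 1800) (N (nat_lit 1799) (L (E (nat_lit 0) (nat_lit 0x0) (nat_lit 0))) (L (E (nat_lit 0) (nat_lit 0x0) (nat_lit 0)))) (N (nat_lit 1801) (L (E (nat_lit 0) (nat_lit 0x0) (nat_lit 0))) (L (E (nat_lit 0) (nat_lit 0x0) (nat_lit 0)))))) (N (nat_lit 1804) (N (nat_lit 1803) (L (E (nat_lit 2) (nat_lit 0x1b3cb00) (nat_lit 0))) (L (E (nat_lit 0) (nat_lit 0x0) (nat_lit 0)))) (N (nat_lit 1805) (L (E (nat_lit 0) (nat_lit 0x0) (nat_lit 0))) (L (E (nat_lit 2) (nat_lit 0x1b48a98) (nat_lit 0)))))) (N (nat_lit 1812) (N (nat_lit 1809) (N (nat_lit 1808) (N (nat_lit 1807) (L (E (nat_lit 0) (nat_lit 0x0) (nat_lit 0))) (L (E (nat_lit 0) (nat_lit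 0x0) (nat_lit 0)))) (L (E (nat_lit 1) (nat_lit 0xe28) (nat_lit 0)))) (N (nat_lit 1811) (N (nat_lit 1810) (L (E (nat_lit 0) (nat_lit 0x0) (nat_lit 0))) (L (E (nat_lit 0) (nat_lit 0x0) (nat_lit 0)))) (L (E (nat_lit 0) (nat_lit 0x0) (nat_lit 0))))) (N (nat_lit 1815) (N (nat_lit 1814) (N (nat_lit 1813) (L (E (nat_lit 0) (nat_lit 0x0) (nat_lit 0))) (L (E (nat_lit 0) (nat_lit 0x0) (nat_lit 0)))) (L (E (nat_lit 0) (nat_lit 0x0) (nat_lit 0)))) (N (nat_lit 1817) (N (nat_lit 1816) (L (E (nat_lit 0) (nat_lit 0x0) (nat_lit 0))) (L (E (nat_lit 0) (nat_lit 0x0) (nat_lit 0)))) (L (E (nat_lit 0) (nat_lit 0x0) (nat_lit 0)))))))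
def nb35 : RA := N (nat_lit 1836) (N (nat_lit 1824) (N (nat_lit 1820) (N (nat_lit 1819) (L (E (nat_lit 1) (nat_lit 0xa56) (nat_lit 0))) (L (E (nat_lit 1) (nat_lit 0x708) (nat_lit 0)))) (N (nat_lit 1822) (N (nat_lit 1821) (L (E (nat_lit 2) (nat_lit 0x14b870a) (nat_lit 0))) (L (E (nat_lit 3) (nat_lit 0x477a068a66) (nat_lit 0)))) (N (nat_lit 1823) (L (E (nat_lit 3) (nat_lit 0x38f94d470c) (nat_lit 0))) (L (E (nat_lit 1) (nat_lit 0xe48) (nat_lit 0)))))) (N (nat_lit 1829) (N (nat_lit 1826) (N (nat_lit 1825) (L (E (nat_lit 2) (nat_lit 0x2124710) (nat_lit 0))) (L (E (nat_lit 0) (nat_lit 0x0) (nat_lit 0)))) (N (nat_lit 1827) (L (E (nat_lit 1) (nat_lit 0x712) (nat_lit 0))) (N (nat_lit 1828) (L (E (nat_lit 1) (nat_lit 0xa80) (nat_lit 0))) (L (E (nat_lit 1) (nat_lit 0x109c) (nat_lit 0)))))) (N (nat_lit 1833) (N (nat_lit 1832) (N (nat_lit 1831) (N (nat_lit 1830) (L (E (nat_lit 1) (nat_lit 0x718) (nat_lit 0)))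 (L (E (nat_lit 0) (nat_lit 0x0) (nat_lit 0)))) (L (E (nat_lit 1) (nat_lit 0x10a6) (nat_lit 0)))) (L (E (nat_lit 1) (nat_lit 0x71c) (nat_lit 0)))) (N (nat_lit 1835) (N (nat_lit 1834) (L (E (nat_lit 0) (nat_lit 0x0) (nat_lit 0))) (L (E (nat_lit 0) (nat_lit 0x0) (nat_lit 0)))) (L (E (nat_lit 2) (nat_lit 0x155071e) (nat_lit 0))))))) (N (nat_lit 1860) (N (nat_lit 1849) (N (nat_lit 1842) (N (nat_lit 1839) (N (nat_lit 1838) (N (nat_lit 1837) (L (E (nat_lit 0) (nat_lit 0x0) (nat_lit 0))) (L (E (nat_lit 0) (nat_lit 0x0) (nat_lit 0)))) (L (E (nat_lit 0) (nat_lit 0x0) (nat_lit 0)))) (N (nat_lit 1840) (L (E (nat_lit 1) (nat_lit 0xac6) (nat_lit 0))) (N (nat_lit 1841) (L (E (nat_lit 0) (nat_lit 0x0) (nat_lit 0))) (L (E (nat_lit 0) (nat_lit 0x0) (nat_lit 0)))))) (N (nat_lit 1846) (N (nat_lit 1844) (N (nat_lit 1843) (L (E (nat_lit 0) (nat_lit 0x0) (nat_lit 0))) (L (E (nat_lit 0) (nat_lit 0x0) (nat_lit 0)))) (N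 (nat_lit 1845) (L (E (nat_lit 0) (nat_lit 0x0) (nat_lit 0))) (L (E (nat_lit 0) (nat_lit 0x0) (nat_lit 0))))) (N (nat_lit 1848) (N (nat_lit 1847) (L (E (nat_lit 0) (nat_lit 0x0) (nat_lit 0))) (L (E (nat_lit 0) (nat_lit 0x0) (nat_lit 0)))) (L (E (nat_lit 0) (nat_lit 0x0) (nat_lit 0)))))) (N (nat_lit 1855) (N (nat_lit 1853) (N (nat_lit 1851) (N (nat_lit 1850) (L (E (nat_lit 0) (nat_lit 0x0) (nat_lit 0))) (L (E (nat_lit 0) (nat_lit 0x0) (nat_lit 0)))) (N (nat_lit 1852) (L (E (nat_lit 0) (nat_lit 0x0) (nat_lit 0))) (L (E (nat_lit 0) (nat_lit 0x0) (nat_lit 0))))) (N (nat_lit 1854) (L (E (nat_lit 1) (nat_lit 0x742) (nat_lit 0))) (L (E (nat_lit 0) (nat_lit 0x0) (nat_lit 0))))) (N (nat_lit 1857) (N (nat_lit 1856) (L (E (nat_lit 0) (nat_lit 0x0) (nat_lit 0))) (L (E (nat_lit 2) (nat_lit 0x1d10be0) (nat_lit 0)))) (N (nat_lit 1859) (N (nat_lit 1858) (L (E (nat_lit 0) (nat_lit 0x0) (nat_lit 0))) (L (E (nat_lit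 0) (nat_lit 0x0) (nat_lit 0)))) (L (E (nat_lit 0) (nat_lit 0x0) (nat_lit 0))))))) (N (nat_lit 1867) (N (nat_lit 1864) (N (nat_lit 1863) (N (nat_lit 1861) (L (E (nat_lit 1) (nat_lit 0xe94) (nat_lit 0))) (N (nat_lit 1862) (L (E (nat_lit 0) (nat_lit 0x0) (nat_lit 0))) (L (E (nat_lit 0) (nat_lit 0x0) (nat_lit 0))))) (L (E (nat_lit 1) (nat_lit 0xc02) (nat_lit 0)))) (N (nat_lit 1866) (N (nat_lit 1865) (L (E (nat_lit 1) (nat_lit 0x110a) (nat_lit 0))) (L (E (nat_lit 0) (nat_lit 0x0) (nat_lit 0)))) (L (E (nat_lit 2) (nat_lit 0x221cc08) (nat_lit 0))))) (N (nat_lit 1869) (N (nat_lit 1868) (L (E (nat_lit 0) (nat_lit 0x0) (nat_lit 0))) (L (E (nat_lit 3) (nat_lit 0x4449d44c1a) (nat_lit 0)))) (N (nat_lit 1871) (N (nat_lit 1870) (L (E (nat_lit 1) (nat_lit 0x1118) (nat_lit 0))) (L (E (nat_lit 0) (nat_lit 0x0) (nat_lit 0)))) (L (E (nat_lit 1) (nat_lit 0x111e) (nat_lit 0)))))))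
def nb36 : RA := N (nat_lit 1902) (N (nat_lit 1887) (N (nat_lit 1877) (N (nat_lit 1875) (N (nat_lit 1874) (N (nat_lit 1873) (L (E (nat_lit 0) (nat_lit 0x0) (nat_lit 0))) (L (E (nat_lit 1) (nat_lit 0xc2c) (nat_lit 0)))) (L (E (nat_lit 2) (nat_lit 0x224c784) (nat_lit 0)))) (N (nat_lit 1876) (L (E (nat_lit 2) (nat_lit 0x2258c3c) (nat_lit 0))) (L (E (nat_lit 1) (nat_lit 0xc44) (nat_lit 0))))) (N (nat_lit 1883) (N (nat_lit 1882) (N (nat_lit 1880) (N (nat_lit 1879) (N (nat_lit 1878) (L (E (nat_lit 0) (nat_lit 0x0) (nat_lit 0))) (L (E (nat_lit 0) (nat_lit 0x0) (nat_lit 0)))) (L (E (nat_lit 0) (nat_lit 0x0) (nat_lit 0)))) (N (nat_lit 1881) (L (E (nat_lit 0) (nat_lit 0x0) (nat_lit 0))) (L (E (nat_lit 0) (nat_lit 0x0) (nat_lit 0))))) (L (E (nat_lit 1) (nat_lit 0x7e0) (nat_lit 0)))) (N (nat_lit 1886) (N (nat_lit 1885) (N (nat_lit 1884) (L (E (nat_lit 0) (nat_lit 0x0) (nat_lit 0))) (L (E (nat_lit 0) (nat_lit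 0x0) (nat_lit 0)))) (L (E (nat_lit 0) (nat_lit 0x0) (nat_lit 0)))) (L (E (nat_lit 1) (nat_lit 0xec4) (nat_lit 0)))))) (N (nat_lit 1895) (N (nat_lit 1891) (N (nat_lit 1890) (N (nat_lit 1889) (N (nat_lit 1888) (L (E (nat_lit 0) (nat_lit 0x0) (nat_lit 0))) (L (E (nat_lit 0) (nat_lit 0x0) (nat_lit 0)))) (L (E (nat_lit 0) (nat_lit 0x0) (nat_lit 0)))) (L (E (nat_lit 2) (nat_lit 0x1d8c80a) (nat_lit 0)))) (N (nat_lit 1894) (N (nat_lit 1893) (N (nat_lit 1892) (L (E (nat_lit 0) (nat_lit 0x0) (nat_lit 0))) (L (E (nat_lit 0) (nat_lit 0x0) (nat_lit 0)))) (L (E (nat_lit 0) (nat_lit 0x0) (nat_lit 0)))) (L (E (nat_lit 1) (nat_lit 0xb72) (nat_lit 0))))) (N (nat_lit 1897) (N (nat_lit 1896) (L (E (nat_lit 0) (nat_lit 0x0) (nat_lit 0))) (L (E (nat_lit 3) (nat_lit 0x3b51d9082c) (nat_lit 0)))) (N (nat_lit 1900) (N (nat_lit 1899) (N (nat_lit 1898) (L (E (nat_lit 0) (nat_lit 0x0) (nat_lit 0))) (L (E (nat_lit 0) (nat_lit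 0x0) (nat_lit 0)))) (L (E (nat_lit 0) (nat_lit 0x0) (nat_lit 0)))) (N (nat_lit 1901) (L (E (nat_lit 0) (nat_lit 0x0) (nat_lit 0))) (L (E (nat_lit 0) (nat_lit 0x0) (nat_lit 0)))))))) (N (nat_lit 1921) (N (nat_lit 1912) (N (nat_lit 1908) (N (nat_lit 1905) (N (nat_lit 1903) (L (E (nat_lit 1) (nat_lit 0xeda) (nat_lit 0))) (N (nat_lit 1904) (L (E (nat_lit 0) (nat_lit 0x0) (nat_lit 0))) (L (E (nat_lit 0) (nat_lit 0x0) (nat_lit 0))))) (N (nat_lit 1907) (N (nat_lit 1906) (L (E (nat_lit 0) (nat_lit 0x0) (nat_lit 0))) (L (E (nat_lit 0) (nat_lit 0x0) (nat_lit 0)))) (L (E (nat_lit 0) (nat_lit 0x0) (nat_lit 0))))) (N (nat_lit 1910) (N (nat_lit 1909) (L (E (nat_lit 2) (nat_lit 0x1dccede) (nat_lit 0))) (L (E (nat_lit 0) (nat_lit 0x0) (nat_lit 0)))) (N (nat_lit 1911) (L (E (nat_lit 2) (nat_lit 0x1a4c874) (nat_lit 0))) (L (E (nat_lit 0) (nat_lit 0x0) (nat_lit 0)))))) (N (nat_lit 1917) (N (nat_lit 1916) (N (nat_lit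 1914) (N (nat_lit 1913) (L (E (nat_lit 0) (nat_lit 0x0) (nat_lit 0))) (L (E (nat_lit 0) (nat_lit 0x0) (nat_lit 0)))) (N (nat_lit 1915) (L (E (nat_lit 0) (nat_lit 0x0) (nat_lit 0))) (L (E (nat_lit 0) (nat_lit 0x0) (nat_lit 0))))) (L (E (nat_lit 1) (nat_lit 0xef6) (nat_lit 0)))) (N (nat_lit 1919) (N (nat_lit 1918) (L (E (nat_lit 1) (nat_lit 0xf0a) (nat_lit 0))) (L (E (nat_lit 2) (nat_lit 0x1df4eec) (nat_lit 0)))) (N (nat_lit 1920) (L (E (nat_lit 0) (nat_lit 0x0) (nat_lit 0))) (L (E (nat_lit 0) (nat_lit 0x0) (nat_lit 0))))))) (N (nat_lit 1926) (N (nat_lit 1923) (N (nat_lit 1922) (L (E (nat_lit 6) (nat_lit 0x1f38f167803ab9764892) (nat_lit 0))) (L (E (nat_lit 0) (nat_lit 0x0) (nat_lit 0)))) (N (nat_lit 1925) (N (nat_lit 1924) (L (E (nat_lit 3) (nat_lit 0x3521694896) (nat_lit 0))) (L (E (nat_lit 0) (nat_lit 0x0) (nat_lit 0)))) (L (E (nat_lit 2) (nat_lit 0x1df8efa) (nat_lit 0))))) (N (nat_lit 1927) (L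 (E (nat_lit 2) (nat_lit 0x1e3cd4e) (nat_lit 0))) (N (nat_lit 1929) (N (nat_lit 1928) (L (E (nat_lit 3) (nat_lit 0x3ac9aa089e) (nat_lit 0))) (L (E (nat_lit 0) (nat_lit 0x0) (nat_lit 0)))) (N (nat_lit 1931) (N (nat_lit 1930) (L (E (nat_lit 0) (nat_lit 0x0) (nat_lit 0))) (L (E (nat_lit 0) (nat_lit 0x0) (nat_lit 0)))) (L (E (nat_lit 2) (nat_lit 0x1e4cf18) (nat_lit 0))))))))
def nb37 : RA := N (nat_lit 1985) (N (nat_lit 1973) (N (nat_lit 1968) (N (nat_lit 1963) (N (nat_lit 1960) (N (nat_lit 1959) (L (E (nat_lit 2) (nat_lit 0x232cda4) (nat_lit 0))) (L (E (nat_lit 0) (nat_lit 0x0) (nat_lit 0)))) (N (nat_lit 1962) (N (nat_lit 1961) (L (E (nat_lit 0) (nat_lit 0x0) (nat_lit 0))) (L (E (nat_lit 0) (nat_lit 0x0) (nat_lit 0)))) (L (E (nat_lit 1) (nat_lit 0xc18) (nat_lit 0))))) (N (nat_lit 1966) (N (nat_lit 1964) (L (E (nat_lit 1) (nat_lit 0x1214) (nat_lit 0))) (N (nat_lit 1965) (L (E (nat_lit 0) (nat_lit 0x0)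 (nat_lit 0))) (L (E (nat_lit 0) (nat_lit 0x0) (nat_lit 0))))) (N (nat_lit 1967) (L (E (nat_lit 0) (nat_lit 0x0) (nat_lit 0))) (L (E (nat_lit 1) (nat_lit 0xdb4) (nat_lit 0)))))) (N (nat_lit 1972) (N (nat_lit 1971) (N (nat_lit 1969) (L (E (nat_lit 1) (nat_lit 0x906) (nat_lit 0))) (N (nat_lit 1970) (L (E (nat_lit 1) (nat_lit 0xb86) (nat_lit 0))) (L (E (nat_lit 0) (nat_lit 0x0) (nat_lit 0))))) (L (E (nat_lit 3) (nat_lit 0x3701858910) (nat_lit 0)))) (L (E (nat_lit 6) (nat_lit 0x234d0087ba3da9eb0dc2) (nat_lit 0))))) (N (nat_lit 1978) (N (nat_lit 1974) (L (E (nat_lit 2) (nat_lit 0x1da8c30) (nat_lit 0))) (N (nat_lit 1977) (N (nat_lit 1976) (N (nat_lit 1975) (L (E (nat_lit 0) (nat_lit 0x0) (nat_lit 0))) (L (E (nat_lit 0) (nat_lit 0x0) (nat_lit 0)))) (L (E (nat_lit 0) (nat_lit 0x0) (nat_lit 0)))) (L (E (nat_lit 2) (nat_lit 0x1ee8dcc) (nat_lit 0))))) (N (nat_lit 1980) (N (nat_lit 1979) (L (E (nat_lit 2) (nat_lit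 0x21f0f68) (nat_lit 0))) (L (E (nat_lit 1) (nat_lit 0xc44) (nat_lit 0)))) (N (nat_lit 1983) (N (nat_lit 1982) (N (nat_lit 1981) (L (E (nat_lit 0) (nat_lit 0x0) (nat_lit 0))) (L (E (nat_lit 1) (nat_lit 0xb9a) (nat_lit 0)))) (L (E (nat_lit 1) (nat_lit 0xee4) (nat_lit 0)))) (N (nat_lit 1984) (L (E (nat_lit 1) (nat_lit 0xba2) (nat_lit 0))) (L (E (nat_lit 0) (nat_lit 0x0) (nat_lit 0)))))))) (N (nat_lit 1995) (N (nat_lit 1992) (N (nat_lit 1990) (N (nat_lit 1989) (N (nat_lit 1987) (N (nat_lit 1986) (L (E (nat_lit 0) (nat_lit 0x0) (nat_lit 0))) (L (E (nat_lit 0) (nat_lit 0x0) (nat_lit 0)))) (N (nat_lit 1988) (L (E (nat_lit 0) (nat_lit 0x0) (nat_lit 0))) (L (E (nat_lit 0) (nat_lit 0x0) (nat_lit 0))))) (L (E (nat_lit 1) (nat_lit 0xf98) (nat_lit 0)))) (N (nat_lit 1991) (L (E (nat_lit 1) (nat_lit 0xc66) (nat_lit 0))) (L (E (nat_lit 2) (nat_lit 0x1f38bb6) (nat_lit 0))))) (N (nat_lit 1994) (N (nat_lit 1993) (L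 (E (nat_lit 0) (nat_lit 0x0) (nat_lit 0))) (L (E (nat_lit 3) (nat_lit 0x45e9a4cbba) (nat_lit 0)))) (L (E (nat_lit 1) (nat_lit 0xbbc) (nat_lit 0))))) (N (nat_lit 2000) (N (nat_lit 1998) (N (nat_lit 1997) (N (nat_lit 1996) (L (E (nat_lit 0) (nat_lit 0x0) (nat_lit 0))) (L (E (nat_lit 1) (nat_lit 0xf8a) (nat_lit 0)))) (L (E (nat_lit 1) (nat_lit 0xf8a) (nat_lit 0)))) (N (nat_lit 1999) (L (E (nat_lit 2) (nat_lit 0x1e04d32) (nat_lit 0))) (L (E (nat_lit 0) (nat_lit 0x0) (nat_lit 0))))) (N (nat_lit 2003) (N (nat_lit 2002) (N (nat_lit 2001) (L (E (nat_lit 1) (nat_lit 0xbce) (nat_lit 0))) (L (E (nat_lit 0) (nat_lit 0x0) (nat_lit 0)))) (L (E (nat_lit 2) (nat_lit 0x1e1497c) (nat_lit 0)))) (N (nat_lit 2005) (N (nat_lit 2004) (L (E (nat_lit 1) (nat_lit 0xfb6) (nat_lit 0))) (L (E (nat_lit 0) (nat_lit 0x0) (nat_lit 0)))) (N (nat_lit 2006) (L (E (nat_lit 1) (nat_lit 0xf98) (nat_lit 0))) (L (E (nat_lit 0) (nat_lit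 0x0) (nat_lit 0))))))))
def nb38 : RA := N (nat_lit 1818) (N (nat_lit 1752) (N (nat_lit 1744) (N (nat_lit 1743) (N (nat_lit 1742) (N (nat_lit 1739) (L (E (nat_lit 9) (nat_lit 0xda86d33649afcd7c54326a91c4676) (nat_lit 0))) (N (nat_lit 1741) (N (nat_lit 1740) (L (E (nat_lit 0) (nat_lit 0x0) (nat_lit 0))) (L (E (nat_lit 0) (nat_lit 0x0) (nat_lit 0)))) (L (E (nat_lit 2) (nat_lit 0x1fe89b4) (nat_lit 0))))) (L (E (nat_lit 10) (nat_lit 0x1fecf446d63679b34d8854826d91d467e) (nat_lit 0)))) (L (E (nat_lit 13) (nat_lit 0x11927fc3d19c28db06d73681b38d8c54926e11d8680) (nat_lit 0)))) (N (nat_lit 1747) (N (nat_lit 1746) (N (nat_lit 1745) (L (E (nat_lit 8) (nat_lit 0x83736c9b60d9e6c736315288ee) (nat_lit 0))) (L (E (nat_lit 0) (nat_lit 0x0) (nat_lit 0)))) (L (E (nat_lit 8) (nat_lit 0x7a63869b4cd9254c26f91e4686) (nat_lit 0)))) (N (nat_lit 1748) (L (E (nat_lit 5) (nat_lit 0xdb86ca3649380688) (nat_lit 0))) (N (nat_lit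 1750) (N (nat_lit 1749) (L (E (nat_lit 3) (nat_lit 0x4662150db8) (nat_lit 0))) (L (E (nat_lit 0) (nat_lit 0x0) (nat_lit 0)))) (N (nat_lit 1751) (L (E (nat_lit 4) (nat_lit 0x7ab36715448fc) (nat_lit 0))) (L (E (nat_lit 0) (nat_lit 0x0) (nat_lit 0)))))))) (N (nat_lit 1760) (N (nat_lit 1754) (N (nat_lit 1753) (L (E (nat_lit 11) (nat_lit 0x467200ce206e23709b64dae6d0367939c68e) (nat_lit 0))) (L (E (nat_lit 10) (nat_lit 0x233d0aa8043711b68db06d02aa13a0902) (nat_lit 0)))) (N (nat_lit 1755) (L (E (nat_lit 12) (nat_lit 0x8d042b2014f5e71236c9b48b0a5552749208692) (nat_lit 0))) (N (nat_lit 1757) (N (nat_lit 1756) (L (E (nat_lit 0) (nat_lit 0x0) (nat_lit 0))) (L (E (nat_lit 3) (nat_lit 0x3729b509d6) (nat_lit 0)))) (N (nat_lit 1759) (N (nat_lit 1758) (L (E (nat_lit 0) (nat_lit 0x0) (nat_lit 0))) (L (E (nat_lit 0) (nat_lit 0x0) (nat_lit 0)))) (L (E (nat_lit 2) (nat_lit 0x15649dc) (nat_lit 0))))))) (N (nat_lit 1773)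 (N (nat_lit 1765) (N (nat_lit 1764) (N (nat_lit 1762) (N (nat_lit 1761) (L (E (nat_lit 2) (nat_lit 0x23489de) (nat_lit 0))) (L (E (nat_lit 5) (nat_lit 0xe286d836b956c9e0) (nat_lit 0)))) (N (nat_lit 1763) (L (E (nat_lit 2) (nat_lit 0x1b64ab8) (nat_lit 0))) (L (E (nat_lit 0) (nat_lit 0x0) (nat_lit 0))))) (L (E (nat_lit 9) (nat_lit 0x101a7b73759ba8dca55e27992306a2) (nat_lit 0)))) (N (nat_lit 1769) (N (nat_lit 1767) (N (nat_lit 1766) (L (E (nat_lit 1) (nat_lit 0xdb8) (nat_lit 0))) (L (E (nat_lit 0) (nat_lit 0x0) (nat_lit 0)))) (N (nat_lit 1768) (L (E (nat_lit 0) (nat_lit 0x0) (nat_lit 0))) (L (E (nat_lit 3) (nat_lit 0x46b93e46a6) (nat_lit 0))))) (N (nat_lit 1771) (N (nat_lit 1770) (L (E (nat_lit 2) (nat_lit 0x1b88ac6) (nat_lit 0))) (L (E (nat_lit 2) (nat_lit 0x13ec6a8) (nat_lit 0)))) (N (nat_lit 1772) (L (E (nat_lit 1) (nat_lit 0xdc8) (nat_lit 0))) (L (E (nat_lit 0) (nat_lit 0x0) (nat_lit 0))))))) (nb34))))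 (N (nat_lit 1932) (N (nat_lit 1872) (nb35) (nb36)) (N (nat_lit 1958) (N (nat_lit 1946) (N (nat_lit 1938) (N (nat_lit 1934) (N (nat_lit 1933) (L (E (nat_lit 3) (nat_lit 0x3ca1e4cf1a) (nat_lit 0))) (L (E (nat_lit 4) (nat_lit 0x7d93579798b58) (nat_lit 0)))) (N (nat_lit 1935) (L (E (nat_lit 3) (nat_lit 0x3c79ac0b5a) (nat_lit 0))) (N (nat_lit 1936) (L (E (nat_lit 6) (nat_lit 0x22a10e67db3c71e18f0a) (nat_lit 0))) (N (nat_lit 1937) (L (E (nat_lit 0) (nat_lit 0x0) (nat_lit 0))) (L (E (nat_lit 0) (nat_lit 0x0) (nat_lit 0))))))) (N (nat_lit 1940) (N (nat_lit 1939) (L (E (nat_lit 2) (nat_lit 0x1e68d70) (nat_lit 0))) (L (E (nat_lit 2) (nat_lit 0x1e688c0) (nat_lit 0)))) (N (nat_lit 1941) (L (E (nat_lit 4) (nat_lit 0x79c35d17c08c2) (nat_lit 0))) (N (nat_lit 1944) (N (nat_lit 1943) (N (nat_lit 1942) (L (E (nat_lit 0) (nat_lit 0x0) (nat_lit 0))) (L (E (nat_lit 0) (nat_lit 0x0) (nat_lit 0)))) (L (E (nat_lit 0) (nat_lit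 0x0) (nat_lit 0)))) (N (nat_lit 1945) (L (E (nat_lit 0) (nat_lit 0x0) (nat_lit 0))) (L (E (nat_lit 1) (nat_lit 0xfd2) (nat_lit 0)))))))) (N (nat_lit 1954) (N (nat_lit 1949) (N (nat_lit 1948) (N (nat_lit 1947) (L (E (nat_lit 5) (nat_lit 0xf447993c99e48bf2) (nat_lit 0))) (L (E (nat_lit 0) (nat_lit 0x0) (nat_lit 0)))) (L (E (nat_lit 3) (nat_lit 0x3f61e50d8c) (nat_lit 0)))) (N (nat_lit 1951) (N (nat_lit 1950) (L (E (nat_lit 2) (nat_lit 0x1e94f48) (nat_lit 0))) (L (E (nat_lit 1) (nat_lit 0xf4a) (nat_lit 0)))) (N (nat_lit 1953) (N (nat_lit 1952) (L (E (nat_lit 0) (nat_lit 0x0) (nat_lit 0))) (L (E (nat_lit 0) (nat_lit 0x0) (nat_lit 0)))) (L (E (nat_lit 0) (nat_lit 0x0) (nat_lit 0)))))) (N (nat_lit 1957) (N (nat_lit 1955) (L (E (nat_lit 2) (nat_lit 0x22c8c06) (nat_lit 0))) (N (nat_lit 1956) (L (E (nat_lit 3) (nat_lit 0x4649fd4d9e) (nat_lit 0))) (L (E (nat_lit 0) (nat_lit 0x0) (nat_lit 0))))) (L (E (nat_lit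 6) (nat_lit 0x1ebcf5c7a63d21e78f3a) (nat_lit 0)))))) (nb37)))
def nb39 : RA := N (nat_lit 2080) (N (nat_lit 2069) (N (nat_lit 2062) (N (nat_lit 2058) (N (nat_lit 2056) (N (nat_lit 2055) (L (E (nat_lit 0) (nat_lit 0x0) (nat_lit 0))) (L (E (nat_lit 0) (nat_lit 0x0) (nat_lit 0)))) (N (nat_lit 2057) (L (E (nat_lit 0) (nat_lit 0x0) (nat_lit 0))) (L (E (nat_lit 0) (nat_lit 0x0) (nat_lit 0))))) (N (nat_lit 2060) (N (nat_lit 2059) (L (E (nat_lit 0) (nat_lit 0x0) (nat_lit 0))) (L (E (nat_lit 0) (nat_lit 0x0) (nat_lit 0)))) (N (nat_lit 2061) (L (E (nat_lit 0) (nat_lit 0x0) (nat_lit 0))) (L (E (nat_lit 0) (nat_lit 0x0) (nat_lit 0)))))) (N (nat_lit 2066) (N (nat_lit 2064) (N (nat_lit 2063) (L (E (nat_lit 0) (nat_lit 0x0) (nat_lit 0))) (L (E (nat_lit 0) (nat_lit 0x0) (nat_lit 0)))) (N (nat_lit 2065) (L (E (nat_lit 0) (nat_lit 0x0) (nat_lit 0))) (L (E (nat_lit 0) (nat_lit 0x0) (nat_lit 0))))) (N (nat_lit 2068)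 (N (nat_lit 2067) (L (E (nat_lit 0) (nat_lit 0x0) (nat_lit 0))) (L (E (nat_lit 0) (nat_lit 0x0) (nat_lit 0)))) (L (E (nat_lit 0) (nat_lit 0x0) (nat_lit 0)))))) (N (nat_lit 2077) (N (nat_lit 2073) (N (nat_lit 2071) (N (nat_lit 2070) (L (E (nat_lit 0) (nat_lit 0x0) (nat_lit 0))) (L (E (nat_lit 0) (nat_lit 0x0) (nat_lit 0)))) (N (nat_lit 2072) (L (E (nat_lit 0) (nat_lit 0x0) (nat_lit 0))) (L (E (nat_lit 0) (nat_lit 0x0) (nat_lit 0))))) (N (nat_lit 2075) (N (nat_lit 2074) (L (E (nat_lit 0) (nat_lit 0x0) (nat_lit 0))) (L (E (nat_lit 0) (nat_lit 0x0) (nat_lit 0)))) (N (nat_lit 2076) (L (E (nat_lit 0) (nat_lit 0x0) (nat_lit 0))) (L (E (nat_lit 0) (nat_lit 0x0) (nat_lit 0)))))) (N (nat_lit 2079) (N (nat_lit 2078) (L (E (nat_lit 5) (nat_lit 0x11868444119f68de6) (nat_lit 0))) (L (E (nat_lit 0) (nat_lit 0x0) (nat_lit 0)))) (L (E (nat_lit 1) (nat_lit 0x102e) (nat_lit 0)))))) (N (nat_lit 2087) (N (nat_lit 2083)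 (N (nat_lit 2081) (L (E (nat_lit 2) (nat_lit 0x2065030) (nat_lit 0))) (N (nat_lit 2082) (L (E (nat_lit 0) (nat_lit 0x0) (nat_lit 0))) (L (E (nat_lit 0) (nat_lit 0x0) (nat_lit 0))))) (N (nat_lit 2084) (L (E (nat_lit 6) (nat_lit 0x20b105682440ea070a82) (nat_lit 0))) (N (nat_lit 2086) (N (nat_lit 2085) (L (E (nat_lit 0) (nat_lit 0x0) (nat_lit 0))) (L (E (nat_lit 0) (nat_lit 0x0) (nat_lit 0)))) (L (E (nat_lit 0) (nat_lit 0x0) (nat_lit 0)))))) (N (nat_lit 2091) (N (nat_lit 2090) (N (nat_lit 2089) (N (nat_lit 2088) (L (E (nat_lit 0) (nat_lit 0x0) (nat_lit 0))) (L (E (nat_lit 1) (nat_lit 0xa90) (nat_lit 0)))) (L (E (nat_lit 0) (nat_lit 0x0) (nat_lit 0)))) (L (E (nat_lit 2) (nat_lit 0x22b0dfa) (nat_lit 0)))) (N (nat_lit 2093) (N (nat_lit 2092) (L (E (nat_lit 0) (nat_lit 0x0) (nat_lit 0))) (L (E (nat_lit 1) (nat_lit 0x1046) (nat_lit 0)))) (L (E (nat_lit 0) (nat_lit 0x0) (nat_lit 0))))))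
def nb40 : RA := N (nat_lit 2037) (N (nat_lit 2017) (N (nat_lit 2010) (N (nat_lit 2009) (N (nat_lit 2008) (L (E (nat_lit 4) (nat_lit 0x87e3f01f60be0) (nat_lit 0))) (L (E (nat_lit 3) (nat_lit 0x3f09f64fae) (nat_lit 0)))) (L (E (nat_lit 12) (nat_lit 0x91446d21fcfc67e23ed1f60fa06f635317c8990) (nat_lit 0)))) (N (nat_lit 2016) (N (nat_lit 2011) (L (E (nat_lit 6) (nat_lit 0x1f90fb67d937b97cc992) (nat_lit 0))) (N (nat_lit 2014) (N (nat_lit 2013) (N (nat_lit 2012) (L (E (nat_lit 0) (nat_lit 0x0) (nat_lit 0))) (L (E (nat_lit 0) (nat_lit 0x0) (nat_lit 0)))) (L (E (nat_lit 0) (nat_lit 0x0) (nat_lit 0)))) (N (nat_lit 2015) (L (E (nat_lit 0) (nat_lit 0x0) (nat_lit 0))) (L (E (nat_lit 0) (nat_lit 0x0) (nat_lit 0)))))) (L (E (nat_lit 4) (nat_lit 0x7e93f09f7cfae) (nat_lit 0))))) (N (nat_lit 2026) (N (nat_lit 2019) (N (nat_lit 2018) (L (E (nat_lit 3) (nat_lit 0x3f51f88fc0) (nat_lit 0))) (L (E (nat_lit 2) (nat_lit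 0x1ac0bf8) (nat_lit 0)))) (N (nat_lit 2022) (N (nat_lit 2021) (N (nat_lit 2020) (L (E (nat_lit 0) (nat_lit 0x0) (nat_lit 0))) (L (E (nat_lit 1) (nat_lit 0xbfc) (nat_lit 0)))) (L (E (nat_lit 2) (nat_lit 0x1f98bfe) (nat_lit 0)))) (N (nat_lit 2025) (N (nat_lit 2024) (N (nat_lit 2023) (L (E (nat_lit 0) (nat_lit 0x0) (nat_lit 0))) (L (E (nat_lit 0) (nat_lit 0x0) (nat_lit 0)))) (L (E (nat_lit 0) (nat_lit 0x0) (nat_lit 0)))) (L (E (nat_lit 1) (nat_lit 0xfd4) (nat_lit 0)))))) (N (nat_lit 2030) (N (nat_lit 2028) (N (nat_lit 2027) (L (E (nat_lit 3) (nat_lit 0x3f09ae8c08) (nat_lit 0))) (L (E (nat_lit 0) (nat_lit 0x0) (nat_lit 0)))) (N (nat_lit 2029) (L (E (nat_lit 2) (nat_lit 0x1f88c0c) (nat_lit 0))) (L (E (nat_lit 1) (nat_lit 0xe0a) (nat_lit 0))))) (N (nat_lit 2035) (N (nat_lit 2033) (N (nat_lit 2032) (N (nat_lit 2031) (L (E (nat_lit 0) (nat_lit 0x0) (nat_lit 0))) (L (E (nat_lit 0) (nat_lit 0x0) (nat_lit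 0)))) (L (E (nat_lit 1) (nat_lit 0x9c4) (nat_lit 0)))) (N (nat_lit 2034) (L (E (nat_lit 0) (nat_lit 0x0) (nat_lit 0))) (L (E (nat_lit 0) (nat_lit 0x0) (nat_lit 0))))) (N (nat_lit 2036) (L (E (nat_lit 0) (nat_lit 0x0) (nat_lit 0))) (L (E (nat_lit 3) (nat_lit 0x3fe9fd4d8c) (nat_lit 0)))))))) (N (nat_lit 2054) (N (nat_lit 2042) (N (nat_lit 2038) (L (E (nat_lit 10) (nat_lit 0x246d1188303fb1fd0fd87a336398409d0) (nat_lit 0))) (N (nat_lit 2041) (N (nat_lit 2040) (N (nat_lit 2039) (L (E (nat_lit 0) (nat_lit 0x0) (nat_lit 0))) (L (E (nat_lit 0) (nat_lit 0x0) (nat_lit 0)))) (L (E (nat_lit 0) (nat_lit 0x0) (nat_lit 0)))) (L (E (nat_lit 1) (nat_lit 0x111e) (nat_lit 0))))) (N (nat_lit 2048) (N (nat_lit 2045) (N (nat_lit 2044) (N (nat_lit 2043) (L (E (nat_lit 0) (nat_lit 0x0) (nat_lit 0))) (L (E (nat_lit 2) (nat_lit 0x1b389de) (nat_lit 0)))) (L (E (nat_lit 3) (nat_lit 0x44920d8c2e) (nat_lit 0)))) (N (nat_lit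 2046) (L (E (nat_lit 1) (nat_lit 0x11a8) (nat_lit 0))) (N (nat_lit 2047) (L (E (nat_lit 0) (nat_lit 0x0) (nat_lit 0))) (L (E (nat_lit 0) (nat_lit 0x0) (nat_lit 0)))))) (N (nat_lit 2052) (N (nat_lit 2051) (N (nat_lit 2050) (N (nat_lit 2049) (L (E (nat_lit 0) (nat_lit 0x0) (nat_lit 0))) (L (E (nat_lit 0) (nat_lit 0x0) (nat_lit 0)))) (L (E (nat_lit 0) (nat_lit 0x0) (nat_lit 0)))) (L (E (nat_lit 2) (nat_lit 0x2010db0) (nat_lit 0)))) (N (nat_lit 2053) (L (E (nat_lit 4) (nat_lit 0x8ea405a00cc44) (nat_lit 0))) (L (E (nat_lit 2) (nat_lit 0x1b68c46) (nat_lit 0))))))) (nb39))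
def nb41 : RA := N (nat_lit 2126) (N (nat_lit 2111) (N (nat_lit 2101) (N (nat_lit 2095) (L (E (nat_lit 6) (nat_lit 0x22bd0a483641aa0a4e06) (nat_lit 0))) (N (nat_lit 2098) (N (nat_lit 2097) (N (nat_lit 2096) (L (E (nat_lit 0) (nat_lit 0x0) (nat_lit 0))) (L (E (nat_lit 0) (nat_lit 0x0) (nat_lit 0)))) (L (E (nat_lit 0) (nat_lit 0x0) (nat_lit 0)))) (N (nat_lit 2100) (N (nat_lit 2099) (L (E (nat_lit 0) (nat_lit 0x0) (nat_lit 0))) (L (E (nat_lit 0) (nat_lit 0x0) (nat_lit 0)))) (L (E (nat_lit 0) (nat_lit 0x0) (nat_lit 0)))))) (N (nat_lit 2106) (N (nat_lit 2105) (N (nat_lit 2103) (N (nat_lit 2102) (L (E (nat_lit 0) (nat_lit 0x0) (nat_lit 0))) (L (E (nat_lit 0) (nat_lit 0x0) (nat_lit 0)))) (N (nat_lit 2104) (L (E (nat_lit 0) (nat_lit 0x0) (nat_lit 0))) (L (E (nat_lit 0) (nat_lit 0x0) (nat_lit 0))))) (L (E (nat_lit 2) (nat_lit 0x1cb8abc) (nat_lit 0)))) (N (nat_lit 2109) (N (nat_lit 2108) (N (nat_lit 2107)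 (L (E (nat_lit 0) (nat_lit 0x0) (nat_lit 0))) (L (E (nat_lit 0) (nat_lit 0x0) (nat_lit 0)))) (L (E (nat_lit 1) (nat_lit 0x107c) (nat_lit 0)))) (N (nat_lit 2110) (L (E (nat_lit 0) (nat_lit 0x0) (nat_lit 0))) (L (E (nat_lit 0) (nat_lit 0x0) (nat_lit 0))))))) (N (nat_lit 2121) (N (nat_lit 2117) (N (nat_lit 2114) (N (nat_lit 2113) (N (nat_lit 2112) (L (E (nat_lit 0) (nat_lit 0x0) (nat_lit 0))) (L (E (nat_lit 0) (nat_lit 0x0) (nat_lit 0)))) (L (E (nat_lit 1) (nat_lit 0x117c) (nat_lit 0)))) (N (nat_lit 2115) (L (E (nat_lit 1) (nat_lit 0xaf2) (nat_lit 0))) (N (nat_lit 2116) (L (E (nat_lit 0) (nat_lit 0x0) (nat_lit 0))) (L (E (nat_lit 0) (nat_lit 0x0) (nat_lit 0)))))) (N (nat_lit 2119) (N (nat_lit 2118) (L (E (nat_lit 1) (nat_lit 0x1182) (nat_lit 0))) (L (E (nat_lit 0) (nat_lit 0x0) (nat_lit 0)))) (N (nat_lit 2120) (L (E (nat_lit 1) (nat_lit 0x1186) (nat_lit 0))) (L (E (nat_lit 0) (nat_lit 0x0) (nat_lit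 0)))))) (N (nat_lit 2124) (N (nat_lit 2122) (L (E (nat_lit 1) (nat_lit 0xe40) (nat_lit 0))) (N (nat_lit 2123) (L (E (nat_lit 1) (nat_lit 0xd80) (nat_lit 0))) (L (E (nat_lit 0) (nat_lit 0x0) (nat_lit 0))))) (N (nat_lit 2125) (L (E (nat_lit 1) (nat_lit 0x118c) (nat_lit 0))) (L (E (nat_lit 4) (nat_lit 0x84c4239b20b02) (nat_lit 0))))))) (N (nat_lit 2146) (N (nat_lit 2135) (N (nat_lit 2129) (N (nat_lit 2127) (L (E (nat_lit 1) (nat_lit 0xb04) (nat_lit 0))) (N (nat_lit 2128) (L (E (nat_lit 2) (nat_lit 0x2320e4a) (nat_lit 0))) (L (E (nat_lit 0) (nat_lit 0x0) (nat_lit 0))))) (N (nat_lit 2133) (N (nat_lit 2131) (N (nat_lit 2130) (L (E (nat_lit 0) (nat_lit 0x0) (nat_lit 0))) (L (E (nat_lit 0) (nat_lit 0x0) (nat_lit 0)))) (N (nat_lit 2132) (L (E (nat_lit 0) (nat_lit 0x0) (nat_lit 0))) (L (E (nat_lit 0) (nat_lit 0x0) (nat_lit 0))))) (N (nat_lit 2134) (L (E (nat_lit 1) (nat_lit 0xdb2) (nat_lit 0))) (L (E (nat_lit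 0) (nat_lit 0x0) (nat_lit 0)))))) (N (nat_lit 2141) (N (nat_lit 2138) (N (nat_lit 2137) (N (nat_lit 2136) (L (E (nat_lit 0) (nat_lit 0x0) (nat_lit 0))) (L (E (nat_lit 0) (nat_lit 0x0) (nat_lit 0)))) (L (E (nat_lit 0) (nat_lit 0x0) (nat_lit 0)))) (N (nat_lit 2139) (L (E (nat_lit 1) (nat_lit 0xdd2) (nat_lit 0))) (N (nat_lit 2140) (L (E (nat_lit 0) (nat_lit 0x0) (nat_lit 0))) (L (E (nat_lit 0) (nat_lit 0x0) (nat_lit 0)))))) (N (nat_lit 2144) (N (nat_lit 2143) (N (nat_lit 2142) (L (E (nat_lit 0) (nat_lit 0x0) (nat_lit 0))) (L (E (nat_lit 0) (nat_lit 0x0) (nat_lit 0)))) (L (E (nat_lit 2) (nat_lit 0x21790ba) (nat_lit 0)))) (N (nat_lit 2145) (L (E (nat_lit 0) (nat_lit 0x0) (nat_lit 0))) (L (E (nat_lit 0) (nat_lit 0x0) (nat_lit 0))))))) (N (nat_lit 2154) (N (nat_lit 2148) (N (nat_lit 2147) (L (E (nat_lit 0) (nat_lit 0x0) (nat_lit 0))) (L (E (nat_lit 3) (nat_lit 0x432a190e66) (nat_lit 0)))) (N (nat_lit 2151)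 (N (nat_lit 2149) (L (E (nat_lit 1) (nat_lit 0xe0c) (nat_lit 0))) (N (nat_lit 2150) (L (E (nat_lit 0) (nat_lit 0x0) (nat_lit 0))) (L (E (nat_lit 0) (nat_lit 0x0) (nat_lit 0))))) (N (nat_lit 2153) (N (nat_lit 2152) (L (E (nat_lit 0) (nat_lit 0x0) (nat_lit 0))) (L (E (nat_lit 0) (nat_lit 0x0) (nat_lit 0)))) (L (E (nat_lit 0) (nat_lit 0x0) (nat_lit 0)))))) (N (nat_lit 2161) (N (nat_lit 2158) (N (nat_lit 2156) (N (nat_lit 2155) (L (E (nat_lit 0) (nat_lit 0x0) (nat_lit 0))) (L (E (nat_lit 0) (nat_lit 0x0) (nat_lit 0)))) (N (nat_lit 2157) (L (E (nat_lit 0) (nat_lit 0x0) (nat_lit 0))) (L (E (nat_lit 0) (nat_lit 0x0) (nat_lit 0))))) (N (nat_lit 2160) (N (nat_lit 2159) (L (E (nat_lit 0) (nat_lit 0x0) (nat_lit 0))) (L (E (nat_lit 0) (nat_lit 0x0) (nat_lit 0)))) (L (E (nat_lit 0) (nat_lit 0x0) (nat_lit 0))))) (N (nat_lit 2163) (N (nat_lit 2162) (L (E (nat_lit 1) (nat_lit 0xf12) (nat_lit 0))) (L (E (nat_lit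 3) (nat_lit 0x4801cecb52) (nat_lit 0)))) (N (nat_lit 2164) (L (E (nat_lit 0) (nat_lit 0x0) (nat_lit 0))) (L (E (nat_lit 0) (nat_lit 0x0) (nat_lit 0))))))))
def nb42 : RA := N (nat_lit 2198) (N (nat_lit 2191) (N (nat_lit 2189) (N (nat_lit 2188) (N (nat_lit 2186) (N (nat_lit 2185) (L (E (nat_lit 1) (nat_lit 0xc0e) (nat_lit 0))) (L (E (nat_lit 2) (nat_lit 0x2218c1a) (nat_lit 0)))) (N (nat_lit 2187) (L (E (nat_lit 0) (nat_lit 0x0) (nat_lit 0))) (L (E (nat_lit 0) (nat_lit 0x0) (nat_lit 0))))) (L (E (nat_lit 4) (nat_lit 0x88d4459fd4e9a) (nat_lit 0)))) (N (nat_lit 2190) (L (E (nat_lit 3) (nat_lit 0x48e2230e9c) (nat_lit 0))) (L (E (nat_lit 0) (nat_lit 0x0) (nat_lit 0))))) (N (nat_lit 2194) (N (nat_lit 2193) (N (nat_lit 2192) (L (E (nat_lit 1) (nat_lit 0xe9e) (nat_lit 0))) (L (E (nat_lit 0) (nat_lit 0x0) (nat_lit 0)))) (L (E (nat_lit 3) (nat_lit 0x3fd9d44c2c) (nat_lit 0)))) (N (nat_lit 2196) (N (nat_lit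 2195) (L (E (nat_lit 2) (nat_lit 0x1ff0c2e) (nat_lit 0))) (L (E (nat_lit 1) (nat_lit 0x1118) (nat_lit 0)))) (N (nat_lit 2197) (L (E (nat_lit 0) (nat_lit 0x0) (nat_lit 0))) (L (E (nat_lit 2) (nat_lit 0x2268c34) (nat_lit 0))))))) (N (nat_lit 2211) (N (nat_lit 2204) (N (nat_lit 2201) (N (nat_lit 2199) (L (E (nat_lit 1) (nat_lit 0xea6) (nat_lit 0))) (N (nat_lit 2200) (L (E (nat_lit 1) (nat_lit 0xc3e) (nat_lit 0))) (L (E (nat_lit 0) (nat_lit 0x0) (nat_lit 0))))) (N (nat_lit 2203) (N (nat_lit 2202) (L (E (nat_lit 0) (nat_lit 0x0) (nat_lit 0))) (L (E (nat_lit 1) (nat_lit 0x112a) (nat_lit 0)))) (L (E (nat_lit 2) (nat_lit 0x2484c48) (nat_lit 0))))) (N (nat_lit 2206) (N (nat_lit 2205) (L (E (nat_lit 3) (nat_lit 0x44fa275012) (nat_lit 0))) (L (E (nat_lit 1) (nat_lit 0xc4c) (nat_lit 0)))) (N (nat_lit 2208) (N (nat_lit 2207) (L (E (nat_lit 1) (nat_lit 0xc52) (nat_lit 0))) (L (E (nat_lit 1) (nat_lit 0x1138) (nat_lit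 0)))) (N (nat_lit 2210) (N (nat_lit 2209) (L (E (nat_lit 0) (nat_lit 0x0) (nat_lit 0))) (L (E (nat_lit 0) (nat_lit 0x0) (nat_lit 0)))) (L (E (nat_lit 0) (nat_lit 0x0) (nat_lit 0))))))) (N (nat_lit 2224) (N (nat_lit 2219) (N (nat_lit 2215) (N (nat_lit 2213) (N (nat_lit 2212) (L (E (nat_lit 0) (nat_lit 0x0) (nat_lit 0))) (L (E (nat_lit 0) (nat_lit 0x0) (nat_lit 0)))) (N (nat_lit 2214) (L (E (nat_lit 0) (nat_lit 0x0) (nat_lit 0))) (L (E (nat_lit 0) (nat_lit 0x0) (nat_lit 0))))) (N (nat_lit 2217) (N (nat_lit 2216) (L (E (nat_lit 0) (nat_lit 0x0) (nat_lit 0))) (L (E (nat_lit 0) (nat_lit 0x0) (nat_lit 0)))) (N (nat_lit 2218) (L (E (nat_lit 0) (nat_lit 0x0) (nat_lit 0))) (L (E (nat_lit 0) (nat_lit 0x0) (nat_lit 0)))))) (N (nat_lit 2223) (N (nat_lit 2221) (N (nat_lit 2220) (L (E (nat_lit 0) (nat_lit 0x0) (nat_lit 0))) (L (E (nat_lit 0) (nat_lit 0x0) (nat_lit 0)))) (N (nat_lit 2222) (L (E (nat_lit 0) (nat_lit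 0x0) (nat_lit 0))) (L (E (nat_lit 0) (nat_lit 0x0) (nat_lit 0))))) (L (E (nat_lit 1) (nat_lit 0x105c) (nat_lit 0))))) (N (nat_lit 2226) (N (nat_lit 2225) (L (E (nat_lit 0) (nat_lit 0x0) (nat_lit 0))) (L (E (nat_lit 2) (nat_lit 0x22d8ce4) (nat_lit 0)))) (N (nat_lit 2227) (L (E (nat_lit 1) (nat_lit 0xf44) (nat_lit 0))) (N (nat_lit 2228) (L (E (nat_lit 0) (nat_lit 0x0) (nat_lit 0))) (L (E (nat_lit 0) (nat_lit 0x0) (nat_lit 0))))))))
def nb43 : RA := N (nat_lit 2249) (N (nat_lit 2246) (N (nat_lit 2239) (N (nat_lit 2236) (N (nat_lit 2233) (N (nat_lit 2231) (N (nat_lit 2230) (L (E (nat_lit 0) (nat_lit 0x0) (nat_lit 0))) (L (E (nat_lit 0) (nat_lit 0x0) (nat_lit 0)))) (N (nat_lit 2232) (L (E (nat_lit 0) (nat_lit 0x0) (nat_lit 0))) (L (E (nat_lit 0) (nat_lit 0x0) (nat_lit 0))))) (N (nat_lit 2235) (N (nat_lit 2234) (L (E (nat_lit 0) (nat_lit 0x0) (nat_lit 0))) (L (E (nat_lit 0) (nat_lit 0x0) (nat_lit 0))))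 (L (E (nat_lit 0) (nat_lit 0x0) (nat_lit 0))))) (N (nat_lit 2238) (N (nat_lit 2237) (L (E (nat_lit 0) (nat_lit 0x0) (nat_lit 0))) (L (E (nat_lit 0) (nat_lit 0x0) (nat_lit 0)))) (L (E (nat_lit 2) (nat_lit 0x2104f1c) (nat_lit 0))))) (N (nat_lit 2242) (N (nat_lit 2240) (L (E (nat_lit 1) (nat_lit 0x1086) (nat_lit 0))) (N (nat_lit 2241) (L (E (nat_lit 2) (nat_lit 0x1e50d74) (nat_lit 0))) (L (E (nat_lit 0) (nat_lit 0x0) (nat_lit 0))))) (N (nat_lit 2244) (N (nat_lit 2243) (L (E (nat_lit 1) (nat_lit 0xf2c) (nat_lit 0))) (L (E (nat_lit 2) (nat_lit 0x211cd7a) (nat_lit 0)))) (N (nat_lit 2245) (L (E (nat_lit 0) (nat_lit 0x0) (nat_lit 0))) (L (E (nat_lit 0) (nat_lit 0x0) (nat_lit 0))))))) (N (nat_lit 2248) (N (nat_lit 2247) (L (E (nat_lit 4) (nat_lit 0x8ca4261e74d8e) (nat_lit 0))) (L (E (nat_lit 1) (nat_lit 0x115a) (nat_lit 0)))) (L (E (nat_lit 1) (nat_lit 0x109e) (nat_lit 0))))) (N (nat_lit 2262) (N (nat_lit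 2252) (N (nat_lit 2250) (L (E (nat_lit 7) (nat_lit 0x493a47520e8ae4289e8cd9e) (nat_lit 0))) (N (nat_lit 2251) (L (E (nat_lit 0) (nat_lit 0x0) (nat_lit 0))) (L (E (nat_lit 2) (nat_lit 0x2424f4c) (nat_lit 0))))) (N (nat_lit 2258) (N (nat_lit 2255) (N (nat_lit 2254) (N (nat_lit 2253) (L (E (nat_lit 0) (nat_lit 0x0) (nat_lit 0))) (L (E (nat_lit 0) (nat_lit 0x0) (nat_lit 0)))) (L (E (nat_lit 0) (nat_lit 0x0) (nat_lit 0)))) (N (nat_lit 2257) (N (nat_lit 2256) (L (E (nat_lit 0) (nat_lit 0x0) (nat_lit 0))) (L (E (nat_lit 0) (nat_lit 0x0) (nat_lit 0)))) (L (E (nat_lit 0) (nat_lit 0x0) (nat_lit 0))))) (N (nat_lit 2260) (N (nat_lit 2259) (L (E (nat_lit 1) (nat_lit 0xf66) (nat_lit 0))) (L (E (nat_lit 0) (nat_lit 0x0) (nat_lit 0)))) (N (nat_lit 2261) (L (E (nat_lit 0) (nat_lit 0x0) (nat_lit 0))) (L (E (nat_lit 0) (nat_lit 0x0) (nat_lit 0))))))) (N (nat_lit 2267) (N (nat_lit 2264) (N (nat_lit 2263) (L (E (nat_lit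 1) (nat_lit 0x10b2) (nat_lit 0))) (L (E (nat_lit 1) (nat_lit 0x1222) (nat_lit 0)))) (N (nat_lit 2265) (L (E (nat_lit 2) (nat_lit 0x1eecdd2) (nat_lit 0))) (N (nat_lit 2266) (L (E (nat_lit 0) (nat_lit 0x0) (nat_lit 0))) (L (E (nat_lit 0) (nat_lit 0x0) (nat_lit 0)))))) (N (nat_lit 2268) (L (E (nat_lit 0) (nat_lit 0x0) (nat_lit 0))) (L (E (nat_lit 1) (nat_lit 0x122c) (nat_lit 0))))))
def nb44 : RA := N (nat_lit 2293) (N (nat_lit 2283) (N (nat_lit 2277) (N (nat_lit 2273) (N (nat_lit 2271) (N (nat_lit 2270) (L (E (nat_lit 1) (nat_lit 0xfca) (nat_lit 0))) (L (E (nat_lit 0) (nat_lit 0x0) (nat_lit 0)))) (N (nat_lit 2272) (L (E (nat_lit 4) (nat_lit 0x92348c2310e06) (nat_lit 0))) (L (E (nat_lit 0) (nat_lit 0x0) (nat_lit 0))))) (N (nat_lit 2276) (N (nat_lit 2275) (N (nat_lit 2274) (L (E (nat_lit 0) (nat_lit 0x0) (nat_lit 0))) (L (E (nat_lit 0) (nat_lit 0x0) (nat_lit 0)))) (L (E (nat_lit 1) (nat_lit 0x11ce)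 (nat_lit 0)))) (L (E (nat_lit 2) (nat_lit 0x2384e18) (nat_lit 0))))) (N (nat_lit 2279) (N (nat_lit 2278) (L (E (nat_lit 1) (nat_lit 0xe1c) (nat_lit 0))) (L (E (nat_lit 0) (nat_lit 0x0) (nat_lit 0)))) (N (nat_lit 2281) (N (nat_lit 2280) (L (E (nat_lit 2) (nat_lit 0x24a519c) (nat_lit 0))) (L (E (nat_lit 1) (nat_lit 0xffe) (nat_lit 0)))) (N (nat_lit 2282) (L (E (nat_lit 0) (nat_lit 0x0) (nat_lit 0))) (L (E (nat_lit 0) (nat_lit 0x0) (nat_lit 0))))))) (N (nat_lit 2284) (L (E (nat_lit 6) (nat_lit 0x24851d88e9474215ce2c) (nat_lit 0))) (N (nat_lit 2290) (N (nat_lit 2287) (N (nat_lit 2286) (N (nat_lit 2285) (L (E (nat_lit 0) (nat_lit 0x0) (nat_lit 0))) (L (E (nat_lit 1) (nat_lit 0x1244) (nat_lit 0)))) (L (E (nat_lit 0) (nat_lit 0x0) (nat_lit 0)))) (N (nat_lit 2289) (N (nat_lit 2288) (L (E (nat_lit 0) (nat_lit 0x0) (nat_lit 0))) (L (E (nat_lit 0) (nat_lit 0x0) (nat_lit 0)))) (L (E (nat_lit 0) (nat_lit 0x0)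 (nat_lit 0))))) (N (nat_lit 2292) (N (nat_lit 2291) (L (E (nat_lit 0) (nat_lit 0x0) (nat_lit 0))) (L (E (nat_lit 0) (nat_lit 0x0) (nat_lit 0)))) (L (E (nat_lit 1) (nat_lit 0x106e) (nat_lit 0))))))) (N (nat_lit 2306) (N (nat_lit 2304) (N (nat_lit 2296) (N (nat_lit 2294) (L (E (nat_lit 1) (nat_lit 0x107a) (nat_lit 0))) (N (nat_lit 2295) (L (E (nat_lit 2) (nat_lit 0x24b1086) (nat_lit 0))) (L (E (nat_lit 0) (nat_lit 0x0) (nat_lit 0))))) (N (nat_lit 2300) (N (nat_lit 2298) (N (nat_lit 2297) (L (E (nat_lit 0) (nat_lit 0x0) (nat_lit 0))) (L (E (nat_lit 0) (nat_lit 0x0) (nat_lit 0)))) (N (nat_lit 2299) (L (E (nat_lit 0) (nat_lit 0x0) (nat_lit 0))) (L (E (nat_lit 0) (nat_lit 0x0) (nat_lit 0))))) (N (nat_lit 2302) (N (nat_lit 2301) (L (E (nat_lit 0) (nat_lit 0x0) (nat_lit 0))) (L (E (nat_lit 0) (nat_lit 0x0) (nat_lit 0)))) (N (nat_lit 2303) (L (E (nat_lit 0) (nat_lit 0x0) (nat_lit 0))) (L (E (nat_lit 0) (nat_lit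 0x0) (nat_lit 0))))))) (N (nat_lit 2305) (L (E (nat_lit 0) (nat_lit 0x0) (nat_lit 0))) (L (E (nat_lit 2) (nat_lit 0x24590ea) (nat_lit 0))))) (N (nat_lit 2315) (N (nat_lit 2311) (N (nat_lit 2309) (N (nat_lit 2308) (N (nat_lit 2307) (L (E (nat_lit 0) (nat_lit 0x0) (nat_lit 0))) (L (E (nat_lit 0) (nat_lit 0x0) (nat_lit 0)))) (L (E (nat_lit 1) (nat_lit 0x126e) (nat_lit 0)))) (N (nat_lit 2310) (L (E (nat_lit 0) (nat_lit 0x0) (nat_lit 0))) (L (E (nat_lit 0) (nat_lit 0x0) (nat_lit 0))))) (N (nat_lit 2314) (N (nat_lit 2313) (N (nat_lit 2312) (L (E (nat_lit 0) (nat_lit 0x0) (nat_lit 0))) (L (E (nat_lit 0) (nat_lit 0x0) (nat_lit 0)))) (L (E (nat_lit 0) (nat_lit 0x0) (nat_lit 0)))) (L (E (nat_lit 1) (nat_lit 0x1112) (nat_lit 0))))) (N (nat_lit 2319) (N (nat_lit 2317) (N (nat_lit 2316) (L (E (nat_lit 1) (nat_lit 0x123c) (nat_lit 0))) (L (E (nat_lit 0) (nat_lit 0x0) (nat_lit 0)))) (N (nat_lit 2318) (L (E (nat_lit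 2) (nat_lit 0x2439214) (nat_lit 0))) (L (E (nat_lit 0) (nat_lit 0x0) (nat_lit 0))))) (N (nat_lit 2321) (N (nat_lit 2320) (L (E (nat_lit 0) (nat_lit 0x0) (nat_lit 0))) (L (E (nat_lit 0) (nat_lit 0x0) (nat_lit 0)))) (L (E (nat_lit 3) (nat_lit 0x4912449220) (nat_lit 0)))))))
def nb45 : RA := N (nat_lit 2353) (N (nat_lit 2339) (L (E (nat_lit 3) (nat_lit 0x488a3b51aa) (nat_lit 0))) (N (nat_lit 2346) (N (nat_lit 2343) (N (nat_lit 2341) (N (nat_lit 2340) (L (E (nat_lit 0) (nat_lit 0x0) (nat_lit 0))) (L (E (nat_lit 0) (nat_lit 0x0) (nat_lit 0)))) (N (nat_lit 2342) (L (E (nat_lit 0) (nat_lit 0x0) (nat_lit 0))) (L (E (nat_lit 0) (nat_lit 0x0) (nat_lit 0))))) (N (nat_lit 2345) (N (nat_lit 2344) (L (E (nat_lit 0) (nat_lit 0x0) (nat_lit 0))) (L (E (nat_lit 0) (nat_lit 0x0) (nat_lit 0)))) (L (E (nat_lit 0) (nat_lit 0x0) (nat_lit 0))))) (N (nat_lit 2350) (N (nat_lit 2348) (N (nat_lit 2347) (L (E (nat_lit 0) (nat_lit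 0x0) (nat_lit 0))) (L (E (nat_lit 0) (nat_lit 0x0) (nat_lit 0)))) (N (nat_lit 2349) (L (E (nat_lit 0) (nat_lit 0x0) (nat_lit 0))) (L (E (nat_lit 0) (nat_lit 0x0) (nat_lit 0))))) (N (nat_lit 2352) (N (nat_lit 2351) (L (E (nat_lit 0) (nat_lit 0x0) (nat_lit 0))) (L (E (nat_lit 0) (nat_lit 0x0) (nat_lit 0)))) (L (E (nat_lit 0) (nat_lit 0x0) (nat_lit 0))))))) (N (nat_lit 2365) (N (nat_lit 2359) (N (nat_lit 2357) (N (nat_lit 2355) (N (nat_lit 2354) (L (E (nat_lit 0) (nat_lit 0x0) (nat_lit 0))) (L (E (nat_lit 0) (nat_lit 0x0) (nat_lit 0)))) (N (nat_lit 2356) (L (E (nat_lit 0) (nat_lit 0x0) (nat_lit 0))) (L (E (nat_lit 0) (nat_lit 0x0) (nat_lit 0))))) (N (nat_lit 2358) (L (E (nat_lit 1) (nat_lit 0x1164) (nat_lit 0))) (L (E (nat_lit 3) (nat_lit 0x4a3250d266) (nat_lit 0))))) (N (nat_lit 2362) (N (nat_lit 2361) (N (nat_lit 2360) (L (E (nat_lit 0) (nat_lit 0x0) (nat_lit 0))) (L (E (nat_lit 0) (nat_lit 0x0)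 (nat_lit 0)))) (L (E (nat_lit 0) (nat_lit 0x0) (nat_lit 0)))) (N (nat_lit 2364) (N (nat_lit 2363) (L (E (nat_lit 0) (nat_lit 0x0) (nat_lit 0))) (L (E (nat_lit 0) (nat_lit 0x0) (nat_lit 0)))) (L (E (nat_lit 0) (nat_lit 0x0) (nat_lit 0)))))) (N (nat_lit 2372) (N (nat_lit 2369) (N (nat_lit 2367) (N (nat_lit 2366) (L (E (nat_lit 0) (nat_lit 0x0) (nat_lit 0))) (L (E (nat_lit 0) (nat_lit 0x0) (nat_lit 0)))) (N (nat_lit 2368) (L (E (nat_lit 0) (nat_lit 0x0) (nat_lit 0))) (L (E (nat_lit 0) (nat_lit 0x0) (nat_lit 0))))) (N (nat_lit 2371) (N (nat_lit 2370) (L (E (nat_lit 0) (nat_lit 0x0) (nat_lit 0))) (L (E (nat_lit 0) (nat_lit 0x0) (nat_lit 0)))) (L (E (nat_lit 0) (nat_lit 0x0) (nat_lit 0))))) (N (nat_lit 2376) (N (nat_lit 2374) (N (nat_lit 2373) (L (E (nat_lit 0) (nat_lit 0x0) (nat_lit 0))) (L (E (nat_lit 0) (nat_lit 0x0) (nat_lit 0)))) (N (nat_lit 2375) (L (E (nat_lit 0) (nat_lit 0x0) (nat_lit 0))) (L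 (E (nat_lit 0) (nat_lit 0x0) (nat_lit 0))))) (N (nat_lit 2378) (N (nat_lit 2377) (L (E (nat_lit 0) (nat_lit 0x0) (nat_lit 0))) (L (E (nat_lit 0) (nat_lit 0x0) (nat_lit 0)))) (L (E (nat_lit 0) (nat_lit 0x0) (nat_lit 0)))))))
def nb46 : RA := N (nat_lit 2184) (N (nat_lit 2094) (nb40) (N (nat_lit 2165) (nb41) (N (nat_lit 2175) (N (nat_lit 2167) (N (nat_lit 2166) (L (E (nat_lit 1) (nat_lit 0x1202) (nat_lit 0))) (L (E (nat_lit 3) (nat_lit 0x47fa3f11f2) (nat_lit 0)))) (N (nat_lit 2168) (L (E (nat_lit 4) (nat_lit 0x90547d21e8e90) (nat_lit 0))) (N (nat_lit 2174) (N (nat_lit 2171) (N (nat_lit 2170) (N (nat_lit 2169) (L (E (nat_lit 0) (nat_lit 0x0) (nat_lit 0))) (L (E (nat_lit 1) (nat_lit 0xb7c) (nat_lit 0)))) (L (E (nat_lit 0) (nat_lit 0x0) (nat_lit 0)))) (N (nat_lit 2173) (N (nat_lit 2172) (L (E (nat_lit 0) (nat_lit 0x0) (nat_lit 0))) (L (E (nat_lit 0) (nat_lit 0x0) (nat_lit 0)))) (L (E (nat_lit 1) (nat_lit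 0x10f8) (nat_lit 0))))) (L (E (nat_lit 2) (nat_lit 0x1f5ce80) (nat_lit 0)))))) (N (nat_lit 2179) (N (nat_lit 2178) (N (nat_lit 2177) (N (nat_lit 2176) (L (E (nat_lit 0) (nat_lit 0x0) (nat_lit 0))) (L (E (nat_lit 1) (nat_lit 0xe86) (nat_lit 0)))) (L (E (nat_lit 1) (nat_lit 0xfc2) (nat_lit 0)))) (L (E (nat_lit 7) (nat_lit 0x48aa3f91068743f11d14bf8) (nat_lit 0)))) (N (nat_lit 2183) (N (nat_lit 2180) (L (E (nat_lit 2) (nat_lit 0x2459104) (nat_lit 0))) (N (nat_lit 2182) (N (nat_lit 2181) (L (E (nat_lit 0) (nat_lit 0x0) (nat_lit 0))) (L (E (nat_lit 2) (nat_lit 0x2219108) (nat_lit 0)))) (L (E (nat_lit 0) (nat_lit 0x0) (nat_lit 0))))) (L (E (nat_lit 5) (nat_lit 0x11568863f51d28c08) (nat_lit 0)))))))) (N (nat_lit 2269) (N (nat_lit 2229) (nb42) (nb43)) (N (nat_lit 2322) (nb44) (N (nat_lit 2338) (N (nat_lit 2327) (N (nat_lit 2326) (N (nat_lit 2324) (N (nat_lit 2323) (L (E (nat_lit 0) (nat_lit 0x0) (nat_lit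 0))) (L (E (nat_lit 0) (nat_lit 0x0) (nat_lit 0)))) (N (nat_lit 2325) (L (E (nat_lit 1) (nat_lit 0x122c) (nat_lit 0))) (L (E (nat_lit 0) (nat_lit 0x0) (nat_lit 0))))) (L (E (nat_lit 3) (nat_lit 0x480a371106) (nat_lit 0)))) (N (nat_lit 2336) (N (nat_lit 2332) (N (nat_lit 2330) (N (nat_lit 2329) (N (nat_lit 2328) (L (E (nat_lit 0) (nat_lit 0x0) (nat_lit 0))) (L (E (nat_lit 0) (nat_lit 0x0) (nat_lit 0)))) (L (E (nat_lit 1) (nat_lit 0xfd8) (nat_lit 0)))) (N (nat_lit 2331) (L (E (nat_lit 0) (nat_lit 0x0) (nat_lit 0))) (L (E (nat_lit 0) (nat_lit 0x0) (nat_lit 0))))) (N (nat_lit 2335) (N (nat_lit 2334) (N (nat_lit 2333) (L (E (nat_lit 0) (nat_lit 0x0) (nat_lit 0))) (L (E (nat_lit 0) (nat_lit 0x0) (nat_lit 0)))) (L (E (nat_lit 0) (nat_lit 0x0) (nat_lit 0)))) (L (E (nat_lit 1) (nat_lit 0x1128) (nat_lit 0))))) (N (nat_lit 2337) (L (E (nat_lit 2) (nat_lit 0x2435130) (nat_lit 0))) (L (E (nat_lit 1) (nat_lit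 0x11d6) (nat_lit 0)))))) (nb45))))
def nb47 : RA := N (nat_lit 1661) (N (nat_lit 1654) (N (nat_lit 1653) (N (nat_lit 1641) (N (nat_lit 1640) (N (nat_lit 1638) (N (nat_lit 1637) (N (nat_lit 1636) (L (E (nat_lit 0) (nat_lit 0x0) (nat_lit 0))) (L (E (nat_lit 0) (nat_lit 0x0) (nat_lit 0)))) (L (E (nat_lit 0) (nat_lit 0x0) (nat_lit 0)))) (N (nat_lit 1639) (L (E (nat_lit 0) (nat_lit 0x0) (nat_lit 0))) (L (E (nat_lit 0) (nat_lit 0x0) (nat_lit 0))))) (L (E (nat_lit 9) (nat_lit 0x105a7a73659820a9a4d623290285b0) (nat_lit 0)))) (N (nat_lit 1650) (N (nat_lit 1648) (N (nat_lit 1645) (N (nat_lit 1643) (N (nat_lit 1642) (L (E (nat_lit 0) (nat_lit 0x0) (nat_lit 0))) (L (E (nat_lit 0) (nat_lit 0x0) (nat_lit 0)))) (N (nat_lit 1644) (L (E (nat_lit 0) (nat_lit 0x0) (nat_lit 0))) (L (E (nat_lit 0) (nat_lit 0x0) (nat_lit 0))))) (N (nat_lit 1647) (N (nat_lit 1646) (L (E (nat_lit 0) (nat_lit 0x0) (nat_lit 0))) (L (E (nat_lit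 0) (nat_lit 0x0) (nat_lit 0)))) (L (E (nat_lit 0) (nat_lit 0x0) (nat_lit 0))))) (N (nat_lit 1649) (L (E (nat_lit 2) (nat_lit 0x1b549c8) (nat_lit 0))) (L (E (nat_lit 0) (nat_lit 0x0) (nat_lit 0))))) (N (nat_lit 1651) (L (E (nat_lit 11) (nat_lit 0x458a0d10047b23b39b5cc2a4e623a10545c8) (nat_lit 0))) (N (nat_lit 1652) (L (E (nat_lit 0) (nat_lit 0x0) (nat_lit 0))) (L (E (nat_lit 0) (nat_lit 0x0) (nat_lit 0))))))) (L (E (nat_lit 11) (nat_lit 0x45a20e100c7b636d9864aba4ea23c10645d0) (nat_lit 0)))) (N (nat_lit 1660) (N (nat_lit 1656) (N (nat_lit 1655) (L (E (nat_lit 0) (nat_lit 0x0) (nat_lit 0))) (L (E (nat_lit 11) (nat_lit 0x45aa0e90107b836e986cabe4ec23d106c5d4) (nat_lit 0)))) (N (nat_lit 1658) (N (nat_lit 1657) (L (E (nat_lit 0) (nat_lit 0x0) (nat_lit 0))) (L (E (nat_lit 0) (nat_lit 0x0) (nat_lit 0)))) (N (nat_lit 1659) (L (E (nat_lit 0) (nat_lit 0x0) (nat_lit 0))) (L (E (nat_lit 0) (nat_lit 0x0) (nat_lit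 0)))))) (L (E (nat_lit 10) (nat_lit 0x22dd07680c3b59b8cc4256227912005dc) (nat_lit 0))))) (N (nat_lit 1738) (N (nat_lit 1703) (nb33) (N (nat_lit 1724) (N (nat_lit 1712) (N (nat_lit 1710) (N (nat_lit 1704) (L (E (nat_lit 8) (nat_lit 0x7da3591aa0d4c69d29112d0638) (nat_lit 0))) (N (nat_lit 1705) (L (E (nat_lit 11) (nat_lit 0x40f1e1cd646a734f1a74aec52325a913c63a) (nat_lit 0))) (N (nat_lit 1709) (N (nat_lit 1708) (N (nat_lit 1707) (N (nat_lit 1706) (L (E (nat_lit 0) (nat_lit 0x0) (nat_lit 0))) (L (E (nat_lit 1) (nat_lit 0xd3e) (nat_lit 0)))) (L (E (nat_lit 0) (nat_lit 0x0) (nat_lit 0)))) (L (E (nat_lit 3) (nat_lit 0x3ef1150642) (nat_lit 0)))) (L (E (nat_lit 7) (nat_lit 0x35c9ae0d4452825c9154644) (nat_lit 0)))))) (N (nat_lit 1711) (L (E (nat_lit 9) (nat_lit 0xf186ba35c9abcd5a6a429492e8646) (nat_lit 0))) (L (E (nat_lit 11) (nat_lit 0x3f09e34d746b03571a94d4852a25d915c648) (nat_lit 0))))) (N (nat_lit 1714)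 (N (nat_lit 1713) (L (E (nat_lit 11) (nat_lit 0x4209f88f1c6bc3579a98d4a52b25e116064a) (nat_lit 0))) (L (E (nat_lit 0) (nat_lit 0x0) (nat_lit 0)))) (N (nat_lit 1721) (N (nat_lit 1716) (N (nat_lit 1715) (L (E (nat_lit 6) (nat_lit 0x1f90d7c6bd3541a9c8b4) (nat_lit 0))) (L (E (nat_lit 6) (nat_lit 0x1be8d7c6b429712fc650) (nat_lit 0)))) (N (nat_lit 1720) (N (nat_lit 1717) (L (E (nat_lit 2) (nat_lit 0x1aa8af6) (nat_lit 0))) (N (nat_lit 1719) (N (nat_lit 1718) (L (E (nat_lit 0) (nat_lit 0x0) (nat_lit 0))) (L (E (nat_lit 0) (nat_lit 0x0) (nat_lit 0)))) (L (E (nat_lit 1) (nat_lit 0x8bc) (nat_lit 0))))) (L (E (nat_lit 7) (nat_lit 0x3c91b10d726b735694c4656) (nat_lit 0))))) (N (nat_lit 1722) (L (E (nat_lit 8) (nat_lit 0x6c435d1ae0d5c6ad2991314658) (nat_lit 0))) (N (nat_lit 1723) (L (E (nat_lit 10) (nat_lit 0x2300f286c635c9abcd5c533263118465a) (nat_lit 0))) (L (E (nat_lit 0) (nat_lit 0x0) (nat_lit 0)))))))) (N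 (nat_lit 1735) (N (nat_lit 1733) (N (nat_lit 1726) (N (nat_lit 1725) (L (E (nat_lit 10) (nat_lit 0x2308d906c735e9ac0afa535264118c65e) (nat_lit 0))) (L (E (nat_lit 10) (nat_lit 0x230cfda7973649b20d7c6bc35914d8660) (nat_lit 0)))) (N (nat_lit 1727) (L (E (nat_lit 10) (nat_lit 0x2120d926bf35e9accd6457f29b9328662) (nat_lit 0))) (N (nat_lit 1731) (N (nat_lit 1728) (L (E (nat_lit 6) (nat_lit 0x1fbcd946b329c132c8cc) (nat_lit 0))) (N (nat_lit 1730) (N (nat_lit 1729) (L (E (nat_lit 0) (nat_lit 0x0) (nat_lit 0))) (L (E (nat_lit 1) (nat_lit 0xa74) (nat_lit 0)))) (L (E (nat_lit 1) (nat_lit 0xd6e) (nat_lit 0))))) (N (nat_lit 1732) (L (E (nat_lit 1) (nat_lit 0xf32) (nat_lit 0))) (L (E (nat_lit 7) (nat_lit 0x3671b0cd726b826791ac66a) (nat_lit 0))))))) (N (nat_lit 1734) (L (E (nat_lit 0) (nat_lit 0x0) (nat_lit 0))) (L (E (nat_lit 10) (nat_lit 0x2314fe879c3681b3cd8e6ba29f934466e) (nat_lit 0))))) (N (nat_lit 1736)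 (L (E (nat_lit 12) (nat_lit 0x8c63fa9e74da06c83631af0b0054026911b8670) (nat_lit 0))) (N (nat_lit 1737) (L (E (nat_lit 11) (nat_lit 0x426a0c4da46c93639af4d7854126991bc672) (nat_lit 0))) (L (E (nat_lit 10) (nat_lit 0x1c1cda66d23651b20d7c6bd2a113508e0) (nat_lit 0)))))))) (N (nat_lit 2007) (nb38) (nb46)))
def nb : RA := N (nat_lit 1178) (nb23) (N (nat_lit 1588) (N (nat_lit 1238) (nb24) (nb31)) (N (nat_lit 1635) (nb32) (nb47)))
def cl0 : RA := N (nat_lit 21) (N (nat_lit 11) (N (nat_lit 6) (N (nat_lit 3) (N (nat_lit 1) (L (E (nat_lit 6) (nat_lit 0x7c41ac05900e003400e) (nat_lit 0))) (N (nat_lit 2) (L (E (nat_lit 6) (nat_lit 0xbb82ee08f014004c014) (nat_lit 0))) (L (E (nat_lit 6) (nat_lit 0x23f4eac3dc090009c016) (nat_lit 0))))) (N (nat_lit 5) (N (nat_lit 4) (L (E (nat_lit 6) (nat_lit 0xde43c00c502a0064018) (nat_lit 0))) (L (E (nat_lit 6) (nat_lit 0xe5c4020e702e807801e) (nat_lit 0)))) (L (E (nat_lit 6) (nat_lit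 0x24b108657a0f88178020) (nat_lit 0))))) (N (nat_lit 9) (N (nat_lit 8) (N (nat_lit 7) (L (E (nat_lit 6) (nat_lit 0x11b44cc12b03b8090022) (nat_lit 0))) (L (E (nat_lit 6) (nat_lit 0x124450c1370400098024) (nat_lit 0)))) (L (E (nat_lit 6) (nat_lit 0x480140060028010006) (nat_lit 0)))) (N (nat_lit 10) (L (E (nat_lit 6) (nat_lit 0x7c03a01900b004c024) (nat_lit 0))) (L (E (nat_lit 6) (nat_lit 0x157c6881a705700e402a) (nat_lit 0)))))) (N (nat_lit 16) (N (nat_lit 14) (N (nat_lit 13) (N (nat_lit 12) (L (E (nat_lit 6) (nat_lit 0x16006de1cf05e012c030) (nat_lit 0))) (L (E (nat_lit 6) (nat_lit 0x163870a1ea0670158034) (nat_lit 0)))) (L (E (nat_lit 6) (nat_lit 0x164c7161f106b0164038) (nat_lit 0)))) (N (nat_lit 15) (L (E (nat_lit 6) (nat_lit 0xec04a618e06a0184044) (nat_lit 0))) (L (E (nat_lit 6) (nat_lit 0x17f47e4222082019c046) (nat_lit 0))))) (N (nat_lit 18) (N (nat_lit 17) (L (E (nat_lit 6) (nat_lit 0x19e08f627409981f004a)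 (nat_lit 0))) (L (E (nat_lit 6) (nat_lit 0x1bc8a423090be8248052) (nat_lit 0)))) (N (nat_lit 19) (L (E (nat_lit 6) (nat_lit 0x1be0a583120c2025c056) (nat_lit 0))) (N (nat_lit 20) (L (E (nat_lit 6) (nat_lit 0x1be4a5a3130c28260058) (nat_lit 0))) (L (E (nat_lit 6) (nat_lit 0x1bf0a663190c3826805a) (nat_lit 0)))))))) (N (nat_lit 26) (N (nat_lit 22) (L (E (nat_lit 6) (nat_lit 0x1bf4a6831a0c4026c05c) (nat_lit 0))) (N (nat_lit 25) (N (nat_lit 24) (N (nat_lit 23) (L (E (nat_lit 6) (nat_lit 0x1bf8a6a31b0c4827005e) (nat_lit 0))) (L (E (nat_lit 6) (nat_lit 0x1c0ca7c3230c68280060) (nat_lit 0)))) (L (E (nat_lit 6) (nat_lit 0x1c14a803250c78284062) (nat_lit 0)))) (L (E (nat_lit 6) (nat_lit 0x1c20a863280c9028c064) (nat_lit 0))))) (N (nat_lit 32) (N (nat_lit 29) (N (nat_lit 28) (N (nat_lit 27) (L (E (nat_lit 6) (nat_lit 0x1c28a9232d0ca8294066) (nat_lit 0))) (L (E (nat_lit 6) (nat_lit 0x1c34a983300cc029c068) (nat_lit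 0)))) (L (E (nat_lit 6) (nat_lit 0x1c40aa63370ce82a406a) (nat_lit 0)))) (N (nat_lit 30) (L (E (nat_lit 6) (nat_lit 0x1c4caac33a0d002ac06c) (nat_lit 0))) (N (nat_lit 31) (L (E (nat_lit 6) (nat_lit 0x24f120078a22a056c06e) (nat_lit 0))) (L (E (nat_lit 6) (nat_lit 0x1c50ab63400d182b4070) (nat_lit 0)))))) (N (nat_lit 37) (N (nat_lit 34) (N (nat_lit 33) (L (E (nat_lit 6) (nat_lit 0x1c5cac43470d582bc074) (nat_lit 0))) (L (E (nat_lit 6) (nat_lit 0x1c60ac63480d602c0076) (nat_lit 0)))) (N (nat_lit 36) (N (nat_lit 35) (L (E (nat_lit 6) (nat_lit 0x24fd20e7a323b05cc07a) (nat_lit 0))) (L (E (nat_lit 6) (nat_lit 0x25012127a623c85d007c) (nat_lit 0)))) (L (E (nat_lit 6) (nat_lit 0x1c8caf03640e082d4088) (nat_lit 0))))) (N (nat_lit 39) (N (nat_lit 38) (L (E (nat_lit 6) (nat_lit 0x1c90af43660e182dc08c) (nat_lit 0))) (L (E (nat_lit 6) (nat_lit 0x250922a7e226906780a6) (nat_lit 0)))) (N (nat_lit 40) (L (E (nat_lit 6)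 (nat_lit 0x16687e02bf0e703940c8) (nat_lit 0))) (L (E (nat_lit 6) (nat_lit 0x1e7cbfc3f311184140d0) (nat_lit 0))))))))
def cl1 : RA := N (nat_lit 118) (N (nat_lit 109) (N (nat_lit 103) (N (nat_lit 99) (N (nat_lit 97) (N (nat_lit 96) (L (E (nat_lit 6) (nat_lit 0x2164e2255419c0678154) (nat_lit 0))) (L (E (nat_lit 6) (nat_lit 0x2168e2855b1a0068c15a) (nat_lit 0)))) (N (nat_lit 98) (L (E (nat_lit 6) (nat_lit 0x2180e3c5741af86e8164) (nat_lit 0))) (L (E (nat_lit 6) (nat_lit 0x218ce465781b2070416a) (nat_lit 0))))) (N (nat_lit 101) (N (nat_lit 100) (L (E (nat_lit 6) (nat_lit 0x1ce4b283bd137868c1ba) (nat_lit 0))) (L (E (nat_lit 6) (nat_lit 0x21e0e9459c1ce88141d4) (nat_lit 0)))) (N (nat_lit 102) (L (E (nat_lit 6) (nat_lit 0x6d42fa14008c03f01d8) (nat_lit 0))) (L (E (nat_lit 6) (nat_lit 0x2218eba5a91d688281da) (nat_lit 0)))))) (N (nat_lit 106) (N (nat_lit 105) (N (nat_lit 104) (L (E (nat_lit 6) (nat_lit 0x3e01ee0f407883c01dc)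 (nat_lit 0))) (L (E (nat_lit 6) (nat_lit 0x2228ec25b01d888301de) (nat_lit 0)))) (L (E (nat_lit 6) (nat_lit 0x70831014d08f84081de) (nat_lit 0)))) (N (nat_lit 108) (N (nat_lit 107) (L (E (nat_lit 6) (nat_lit 0x73432415809404241e4) (nat_lit 0))) (L (E (nat_lit 6) (nat_lit 0x74432e15e09584301e6) (nat_lit 0)))) (L (E (nat_lit 6) (nat_lit 0x75033416109684381ea) (nat_lit 0)))))) (N (nat_lit 116) (N (nat_lit 113) (N (nat_lit 111) (N (nat_lit 110) (L (E (nat_lit 6) (nat_lit 0x76834016709884401ee) (nat_lit 0))) (L (E (nat_lit 6) (nat_lit 0x2284f065db1e908541f2) (nat_lit 0)))) (N (nat_lit 112) (L (E (nat_lit 6) (nat_lit 0x2290f165e41ed085c1f6) (nat_lit 0))) (L (E (nat_lit 6) (nat_lit 0x2298f1a5e61ee08641f8) (nat_lit 0))))) (N (nat_lit 114) (L (E (nat_lit 6) (nat_lit 0x78836a17d0a004601f8) (nat_lit 0))) (N (nat_lit 115) (L (E (nat_lit 6) (nat_lit 0x22a8f265ef1f2086c1fc) (nat_lit 0))) (L (E (nat_lit 6) (nat_lit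 0x7903761830a3846c1fe) (nat_lit 0)))))) (N (nat_lit 117) (L (E (nat_lit 6) (nat_lit 0x79c3821870a60478202) (nat_lit 0))) (L (E (nat_lit 6) (nat_lit 0x22c0f385fb1f80880206) (nat_lit 0)))))) (N (nat_lit 126) (N (nat_lit 122) (N (nat_lit 120) (N (nat_lit 119) (L (E (nat_lit 6) (nat_lit 0x22c4f426021fc089020c) (nat_lit 0))) (L (E (nat_lit 6) (nat_lit 0x22ccf466041fd089820e) (nat_lit 0)))) (N (nat_lit 121) (L (E (nat_lit 6) (nat_lit 0x7b439418f0aa849820e) (nat_lit 0))) (L (E (nat_lit 6) (nat_lit 0x22d0f4a6061fe08a0210) (nat_lit 0))))) (N (nat_lit 124) (N (nat_lit 123) (L (E (nat_lit 6) (nat_lit 0x22d4f4e6081ff08a8214) (nat_lit 0))) (L (E (nat_lit 6) (nat_lit 0x42c20e10308003f41f4) (nat_lit 0)))) (N (nat_lit 125) (L (E (nat_lit 6) (nat_lit 0x22dcf5a60f20288b0218) (nat_lit 0))) (L (E (nat_lit 6) (nat_lit 0x7c43a21970af04ac218) (nat_lit 0)))))) (N (nat_lit 132) (N (nat_lit 130) (N (nat_lit 128) (N (nat_lit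 127) (L (E (nat_lit 6) (nat_lit 0x22e0f5c61020308b421a) (nat_lit 0))) (L (E (nat_lit 6) (nat_lit 0x7d03ae19d0b204b821e) (nat_lit 0)))) (N (nat_lit 129) (L (E (nat_lit 6) (nat_lit 0x22ecf7462020a88cc224) (nat_lit 0))) (L (E (nat_lit 6) (nat_lit 0x7dc3be1ac0b984d8226) (nat_lit 0))))) (N (nat_lit 131) (L (E (nat_lit 6) (nat_lit 0x22f8fa063d21c08ec228) (nat_lit 0))) (L (E (nat_lit 6) (nat_lit 0x22fcfa463e21d08f422a) (nat_lit 0))))) (N (nat_lit 135) (N (nat_lit 134) (N (nat_lit 133) (L (E (nat_lit 6) (nat_lit 0x2300fae64421f890422c) (nat_lit 0))) (L (E (nat_lit 6) (nat_lit 0x2304fb0645220090822e) (nat_lit 0)))) (L (E (nat_lit 6) (nat_lit 0x2308fb2646220890c230) (nat_lit 0)))) (L (E (nat_lit 6) (nat_lit 0x7e03c41b50be8500230) (nat_lit 0))))))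
def cl2 : RA := N (nat_lit 67) (N (nat_lit 41) (cl0) (N (nat_lit 52) (N (nat_lit 47) (N (nat_lit 44) (N (nat_lit 43) (N (nat_lit 42) (L (E (nat_lit 6) (nat_lit 0x1ec0c2440811704380d2) (nat_lit 0))) (L (E (nat_lit 6) (nat_lit 0x1edcc3441111884440d4) (nat_lit 0)))) (L (E (nat_lit 6) (nat_lit 0x1f64c8c44112184600d6) (nat_lit 0)))) (N (nat_lit 45) (L (E (nat_lit 6) (nat_lit 0x1f68c8e44212204640d8) (nat_lit 0))) (N (nat_lit 46) (L (E (nat_lit 6) (nat_lit 0x1f88ca044b125046c0da) (nat_lit 0))) (L (E (nat_lit 6) (nat_lit 0x1f90ca444d12604700dc) (nat_lit 0)))))) (N (nat_lit 50) (N (nat_lit 48) (L (E (nat_lit 6) (nat_lit 0x1fa8cb245512884780de) (nat_lit 0))) (N (nat_lit 49) (L (E (nat_lit 6) (nat_lit 0x1fb4cb645812a04840e0) (nat_lit 0))) (L (E (nat_lit 6) (nat_lit 0x1fb8cb845912a84880e2) (nat_lit 0))))) (N (nat_lit 51) (L (E (nat_lit 6) (nat_lit 0x1fc0cbc45b12b84900e4) (nat_lit 0))) (L (E (nat_lit 6) (nat_lit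 0x1fd4cc846112d84980e6) (nat_lit 0)))))) (N (nat_lit 60) (N (nat_lit 56) (N (nat_lit 55) (N (nat_lit 54) (N (nat_lit 53) (L (E (nat_lit 6) (nat_lit 0x1fd8cca46212e049c0e8) (nat_lit 0))) (L (E (nat_lit 6) (nat_lit 0x1fe0cce46412f04a00ea) (nat_lit 0)))) (L (E (nat_lit 6) (nat_lit 0x1ff0cd646b13204a80ec) (nat_lit 0)))) (L (E (nat_lit 6) (nat_lit 0x2000cde47013484b40f0) (nat_lit 0)))) (N (nat_lit 57) (L (E (nat_lit 6) (nat_lit 0x200cce647513704b80f2) (nat_lit 0))) (N (nat_lit 59) (N (nat_lit 58) (L (E (nat_lit 6) (nat_lit 0x2010ce847613784bc0f4) (nat_lit 0))) (L (E (nat_lit 6) (nat_lit 0x201ccec47913904c80f6) (nat_lit 0)))) (L (E (nat_lit 6) (nat_lit 0x2028cf447e13a84d00fa) (nat_lit 0)))))) (N (nat_lit 66) (N (nat_lit 62) (N (nat_lit 61) (L (E (nat_lit 6) (nat_lit 0x2034cfa48113c04d40fc) (nat_lit 0))) (L (E (nat_lit 6) (nat_lit 0x203cd0448913f84d80fe) (nat_lit 0)))) (N (nat_lit 65) (N (nat_lit 64) (N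 (nat_lit 63) (L (E (nat_lit 6) (nat_lit 0x2070d4c4b31518500102) (nat_lit 0))) (L (E (nat_lit 6) (nat_lit 0x2094d664bf1578528106) (nat_lit 0)))) (L (E (nat_lit 6) (nat_lit 0x20acd784c815b8538108) (nat_lit 0)))) (L (E (nat_lit 6) (nat_lit 0x20b0d7a4c915c053c10a) (nat_lit 0))))) (L (E (nat_lit 6) (nat_lit 0x20b4d7c4ca15c854010c) (nat_lit 0))))))) (N (nat_lit 95) (N (nat_lit 82) (N (nat_lit 72) (N (nat_lit 71) (N (nat_lit 68) (L (E (nat_lit 6) (nat_lit 0x20b8d8a4d015f054c10e) (nat_lit 0))) (N (nat_lit 70) (N (nat_lit 69) (L (E (nat_lit 6) (nat_lit 0x20bcd8c4d115f8550110) (nat_lit 0))) (L (E (nat_lit 6) (nat_lit 0x20c8d944d51618560112) (nat_lit 0)))) (L (E (nat_lit 6) (nat_lit 0x20dcda04dd1650574114) (nat_lit 0))))) (L (E (nat_lit 6) (nat_lit 0x20e0da24de1658578116) (nat_lit 0)))) (N (nat_lit 77) (N (nat_lit 75) (N (nat_lit 73) (L (E (nat_lit 6) (nat_lit 0x20e8da64e01668580118) (nat_lit 0))) (N (nat_lit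 74) (L (E (nat_lit 6) (nat_lit 0x20f4db64ea16b059c11a) (nat_lit 0))) (L (E (nat_lit 6) (nat_lit 0x20f8dc44f116e85b811c) (nat_lit 0))))) (N (nat_lit 76) (L (E (nat_lit 6) (nat_lit 0x2104de051f18385ec120) (nat_lit 0))) (L (E (nat_lit 6) (nat_lit 0x2108de252018405f0122) (nat_lit 0))))) (N (nat_lit 80) (N (nat_lit 78) (L (E (nat_lit 6) (nat_lit 0x210cde452118485f4124) (nat_lit 0))) (N (nat_lit 79) (L (E (nat_lit 6) (nat_lit 0x2110de652218505f8126) (nat_lit 0))) (L (E (nat_lit 6) (nat_lit 0x2114dea5291878604128) (nat_lit 0))))) (N (nat_lit 81) (L (E (nat_lit 6) (nat_lit 0x2118dec52a188060812a) (nat_lit 0))) (L (E (nat_lit 6) (nat_lit 0x211cdee52b188860c12c) (nat_lit 0))))))) (N (nat_lit 87) (N (nat_lit 85) (N (nat_lit 84) (N (nat_lit 83) (L (E (nat_lit 6) (nat_lit 0x2124df252d1898614130) (nat_lit 0))) (L (E (nat_lit 6) (nat_lit 0x2128df452e18a0618132) (nat_lit 0)))) (L (E (nat_lit 6) (nat_lit 0x2130df853318c861c134)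 (nat_lit 0)))) (N (nat_lit 86) (L (E (nat_lit 6) (nat_lit 0x2134dfa53418d0620136) (nat_lit 0))) (L (E (nat_lit 6) (nat_lit 0x2138dfc53518d8624138) (nat_lit 0))))) (N (nat_lit 88) (L (E (nat_lit 6) (nat_lit 0x213cdfe53618e062813a) (nat_lit 0))) (N (nat_lit 92) (N (nat_lit 90) (N (nat_lit 89) (L (E (nat_lit 6) (nat_lit 0x2140e0053718e862c13c) (nat_lit 0))) (L (E (nat_lit 6) (nat_lit 0x2144e0453d191063013e) (nat_lit 0)))) (N (nat_lit 91) (L (E (nat_lit 6) (nat_lit 0x2148e0653e1918634140) (nat_lit 0))) (L (E (nat_lit 6) (nat_lit 0x214ce0a540192863c142) (nat_lit 0))))) (N (nat_lit 94) (N (nat_lit 93) (L (E (nat_lit 6) (nat_lit 0x2150e0e5421938644144) (nat_lit 0))) (L (E (nat_lit 6) (nat_lit 0x2154e14549196865414a) (nat_lit 0)))) (L (E (nat_lit 6) (nat_lit 0x2160e2055319b8674152) (nat_lit 0)))))))) (cl1))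
def cl3 : RA := N (nat_lit 184) (N (nat_lit 178) (N (nat_lit 172) (N (nat_lit 170) (N (nat_lit 168) (N (nat_lit 167) (N (nat_lit 166) (L (E (nat_lit 6) (nat_lit 0x23790406ad25c8aa4288) (nat_lit 0))) (L (E (nat_lit 6) (nat_lit 0x237d0426ae25d0aa828a) (nat_lit 0)))) (L (E (nat_lit 6) (nat_lit 0x8083f21e30dd060828c) (nat_lit 0)))) (N (nat_lit 169) (L (E (nat_lit 6) (nat_lit 0x23850466b125e8ab4290) (nat_lit 0))) (L (E (nat_lit 6) (nat_lit 0x238904e6b82620acc296) (nat_lit 0))))) (N (nat_lit 171) (L (E (nat_lit 6) (nat_lit 0x5442a014f0a70534298) (nat_lit 0))) (L (E (nat_lit 6) (nat_lit 0x238d0546bb2638ad829a) (nat_lit 0))))) (N (nat_lit 175) (N (nat_lit 174) (N (nat_lit 173) (L (E (nat_lit 6) (nat_lit 0x23910566bc2640adc29c) (nat_lit 0))) (L (E (nat_lit 6) (nat_lit 0x239505a6be2650ae42a0) (nat_lit 0)))) (L (E (nat_lit 6) (nat_lit 0x5d82e416d0b1856c2a4) (nat_lit 0)))) (N (nat_lit 176) (L (E (nat_lit 6)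 (nat_lit 0x239905c6c52680af82a6) (nat_lit 0))) (N (nat_lit 177) (L (E (nat_lit 6) (nat_lit 0x5602ae1560aa85502a6) (nat_lit 0))) (L (E (nat_lit 6) (nat_lit 0x239d05e6c62688afc2a8) (nat_lit 0))))))) (N (nat_lit 183) (N (nat_lit 180) (N (nat_lit 179) (L (E (nat_lit 6) (nat_lit 0x80c3fc1ec0e486382a8) (nat_lit 0))) (L (E (nat_lit 6) (nat_lit 0x23a10606c72690b002aa) (nat_lit 0)))) (N (nat_lit 182) (N (nat_lit 181) (L (E (nat_lit 6) (nat_lit 0x5682b21580ab85582aa) (nat_lit 0))) (L (E (nat_lit 6) (nat_lit 0x5802be15e0ae85702b6) (nat_lit 0)))) (L (E (nat_lit 6) (nat_lit 0x23a906c6cf26e0b242b8) (nat_lit 0))))) (L (E (nat_lit 6) (nat_lit 0x23ad0706d126f0b2c2bc) (nat_lit 0))))) (N (nat_lit 197) (N (nat_lit 191) (N (nat_lit 187) (N (nat_lit 185) (L (E (nat_lit 6) (nat_lit 0x59c2cc1650b2058c2c4) (nat_lit 0))) (N (nat_lit 186) (L (E (nat_lit 6) (nat_lit 0x23b50766d82738b4c2c8) (nat_lit 0))) (L (E (nat_lit 6) (nat_lit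 0x5a82d21680b385982ca) (nat_lit 0))))) (N (nat_lit 189) (N (nat_lit 188) (L (E (nat_lit 6) (nat_lit 0x23b907a6db2750b582ce) (nat_lit 0))) (L (E (nat_lit 6) (nat_lit 0x5ac2c415b0a9853028c) (nat_lit 0)))) (N (nat_lit 190) (L (E (nat_lit 6) (nat_lit 0x5c42e016f0b705b42d8) (nat_lit 0))) (L (E (nat_lit 6) (nat_lit 0x5b42c815d0aa8538290) (nat_lit 0)))))) (N (nat_lit 194) (N (nat_lit 193) (N (nat_lit 192) (L (E (nat_lit 6) (nat_lit 0x5bc2cc15f0ab8540294) (nat_lit 0))) (L (E (nat_lit 6) (nat_lit 0x5d42e416e0b285782ac) (nat_lit 0)))) (L (E (nat_lit 6) (nat_lit 0x6603201890c185f02f2) (nat_lit 0)))) (N (nat_lit 195) (L (E (nat_lit 6) (nat_lit 0x67832c18e0c386042f4) (nat_lit 0))) (N (nat_lit 196) (L (E (nat_lit 6) (nat_lit 0x5fc2fc17d0be05ec2f4) (nat_lit 0))) (L (E (nat_lit 6) (nat_lit 0x23c10826f028f8c1c2f6) (nat_lit 0))))))) (N (nat_lit 203) (N (nat_lit 200) (N (nat_lit 199) (N (nat_lit 198) (L (E (nat_lit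 6) (nat_lit 0x6803301900c4860c2f8) (nat_lit 0))) (L (E (nat_lit 6) (nat_lit 0x6143081830c10604300) (nat_lit 0)))) (L (E (nat_lit 6) (nat_lit 0x61830a1840c18608302) (nat_lit 0)))) (N (nat_lit 202) (N (nat_lit 201) (L (E (nat_lit 6) (nat_lit 0x69833e1970c78620304) (nat_lit 0))) (L (E (nat_lit 6) (nat_lit 0x23c908e6f72958c44306) (nat_lit 0)))) (L (E (nat_lit 6) (nat_lit 0x23cd09a6fd29a0c68310) (nat_lit 0))))) (N (nat_lit 206) (N (nat_lit 204) (L (E (nat_lit 6) (nat_lit 0x23d10a470329f0c8c31a) (nat_lit 0))) (N (nat_lit 205) (L (E (nat_lit 6) (nat_lit 0x6483221900c7863831a) (nat_lit 0))) (L (E (nat_lit 6) (nat_lit 0x64c3241910c8063c31c) (nat_lit 0))))) (N (nat_lit 208) (N (nat_lit 207) (L (E (nat_lit 6) (nat_lit 0x6c035c1ab0d18670328) (nat_lit 0))) (L (E (nat_lit 6) (nat_lit 0x6643301970cb0654328) (nat_lit 0)))) (L (E (nat_lit 6) (nat_lit 0x68033e19e0ce8670336) (nat_lit 0)))))))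
def cl4 : RA := N (nat_lit 246) (N (nat_lit 235) (N (nat_lit 224) (N (nat_lit 216) (N (nat_lit 213) (N (nat_lit 211) (N (nat_lit 210) (L (E (nat_lit 6) (nat_lit 0x67432c18f0c486102fc) (nat_lit 0))) (L (E (nat_lit 6) (nat_lit 0x68c33a1960c78624308) (nat_lit 0)))) (N (nat_lit 212) (L (E (nat_lit 6) (nat_lit 0x6a034219b0ca063430e) (nat_lit 0))) (L (E (nat_lit 6) (nat_lit 0x6a434419c0ca8638310) (nat_lit 0))))) (N (nat_lit 215) (N (nat_lit 214) (L (E (nat_lit 6) (nat_lit 0x252928891a3f99398354) (nat_lit 0))) (L (E (nat_lit 6) (nat_lit 0x6b43541a30ce865831e) (nat_lit 0)))) (L (E (nat_lit 6) (nat_lit 0x23d90b87192b58d58362) (nat_lit 0))))) (N (nat_lit 220) (N (nat_lit 218) (N (nat_lit 217) (L (E (nat_lit 6) (nat_lit 0x23dd0be71c2b90d6c36c) (nat_lit 0))) (L (E (nat_lit 6) (nat_lit 0x6f43781bb0dd06e4370) (nat_lit 0)))) (N (nat_lit 219) (L (E (nat_lit 6) (nat_lit 0x7783b81d60e7071c37e) (nat_lit 0))) (L (E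 (nat_lit 6) (nat_lit 0x7683b21d80eb87583aa) (nat_lit 0))))) (N (nat_lit 222) (N (nat_lit 221) (L (E (nat_lit 6) (nat_lit 0x75c3a01ca0e186f036c) (nat_lit 0))) (L (E (nat_lit 6) (nat_lit 0x7d43e41ee0f487903c2) (nat_lit 0)))) (N (nat_lit 223) (L (E (nat_lit 6) (nat_lit 0x23e10d47342c68e0c3d0) (nat_lit 0))) (L (E (nat_lit 6) (nat_lit 0x21ace765a922a0c843de) (nat_lit 0))))))) (N (nat_lit 230) (N (nat_lit 229) (N (nat_lit 227) (N (nat_lit 226) (N (nat_lit 225) (L (E (nat_lit 6) (nat_lit 0xc4855a24b10e882c408) (nat_lit 0))) (L (E (nat_lit 6) (nat_lit 0xc9c58425d114084440c) (nat_lit 0)))) (L (E (nat_lit 6) (nat_lit 0xd5c60429b11e085840e) (nat_lit 0)))) (N (nat_lit 228) (L (E (nat_lit 6) (nat_lit 0xd6060e2a1120885c410) (nat_lit 0))) (L (E (nat_lit 6) (nat_lit 0xd6c6142a41220868412) (nat_lit 0))))) (L (E (nat_lit 6) (nat_lit 0xd986362b7129888041a) (nat_lit 0)))) (N (nat_lit 233) (N (nat_lit 231) (L (E (nat_lit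 6) (nat_lit 0xda063c2ba12b088c41c) (nat_lit 0))) (N (nat_lit 232) (L (E (nat_lit 6) (nat_lit 0xdac64a2c012d889841e) (nat_lit 0))) (L (E (nat_lit 6) (nat_lit 0xdb064c2c112e089c420) (nat_lit 0))))) (N (nat_lit 234) (L (E (nat_lit 6) (nat_lit 0xdc065e2cb13308b0426) (nat_lit 0))) (L (E (nat_lit 6) (nat_lit 0xde86aa2ff14c08e4428) (nat_lit 0))))))) (N (nat_lit 236) (L (E (nat_lit 6) (nat_lit 0x24591447842ee0f4c42c) (nat_lit 0))) (N (nat_lit 242) (N (nat_lit 239) (N (nat_lit 237) (L (E (nat_lit 6) (nat_lit 0xdec6ae30214d88f042c) (nat_lit 0))) (N (nat_lit 238) (L (E (nat_lit 6) (nat_lit 0x246114a78c2f28f6c430) (nat_lit 0))) (L (E (nat_lit 6) (nat_lit 0x246514c78d2f30f70432) (nat_lit 0))))) (N (nat_lit 241) (N (nat_lit 240) (L (E (nat_lit 6) (nat_lit 0xdf06b4309151890c432) (nat_lit 0))) (L (E (nat_lit 6) (nat_lit 0xdf46b630a1520910434) (nat_lit 0)))) (L (E (nat_lit 6) (nat_lit 0x246d1567942f80f94438) (nat_lit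 0))))) (N (nat_lit 244) (N (nat_lit 243) (L (E (nat_lit 6) (nat_lit 0xdfc6c03111560928438) (nat_lit 0))) (L (E (nat_lit 6) (nat_lit 0xe006c2312156892c43a) (nat_lit 0)))) (N (nat_lit 245) (L (E (nat_lit 6) (nat_lit 0xe046c631815a094043c) (nat_lit 0))) (L (E (nat_lit 6) (nat_lit 0x247915e79b2fd0fbc43e) (nat_lit 0)))))))) (N (nat_lit 253) (N (nat_lit 250) (N (nat_lit 249) (N (nat_lit 248) (N (nat_lit 247) (L (E (nat_lit 6) (nat_lit 0x247d16079c2fd8fc0440) (nat_lit 0))) (L (E (nat_lit 6) (nat_lit 0xe106cc31b15b894c440) (nat_lit 0)))) (L (E (nat_lit 6) (nat_lit 0xe146ce31c15c0950442) (nat_lit 0)))) (L (E (nat_lit 6) (nat_lit 0x24811627a13010fe0448) (nat_lit 0)))) (N (nat_lit 251) (L (E (nat_lit 6) (nat_lit 0xe186d432415f896844a) (nat_lit 0))) (N (nat_lit 252) (L (E (nat_lit 6) (nat_lit 0x24851687a53030ff0450) (nat_lit 0))) (L (E (nat_lit 6) (nat_lit 0xe206da3271610974450) (nat_lit 0)))))) (N (nat_lit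 255) (N (nat_lit 254) (L (E (nat_lit 6) (nat_lit 0xe246dc32c164098c456) (nat_lit 0))) (L (E (nat_lit 6) (nat_lit 0x248916e7ad3079014458) (nat_lit 0)))) (N (nat_lit 259) (N (nat_lit 257) (N (nat_lit 256) (L (E (nat_lit 6) (nat_lit 0xe2c6e032f1658998458) (nat_lit 0))) (L (E (nat_lit 6) (nat_lit 0xe306e2330166099c45a) (nat_lit 0)))) (N (nat_lit 258) (L (E (nat_lit 6) (nat_lit 0xe346e833816a09bc45e) (nat_lit 0))) (L (E (nat_lit 6) (nat_lit 0xe386ea33916a89c0460) (nat_lit 0))))) (N (nat_lit 261) (N (nat_lit 260) (L (E (nat_lit 6) (nat_lit 0xe3c6ec34016e09d4464) (nat_lit 0))) (L (E (nat_lit 6) (nat_lit 0x9704a624a12108e8468) (nat_lit 0)))) (N (nat_lit 262) (L (E (nat_lit 6) (nat_lit 0x9744a824b12188ec46a) (nat_lit 0))) (L (E (nat_lit 6) (nat_lit 0x9784aa24c12208f046c) (nat_lit 0))))))))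
def cl5 : RA := N (nat_lit 282) (N (nat_lit 273) (N (nat_lit 268) (N (nat_lit 266) (N (nat_lit 264) (L (E (nat_lit 6) (nat_lit 0x97c4ac24d12288f446e) (nat_lit 0))) (N (nat_lit 265) (L (E (nat_lit 6) (nat_lit 0x8f847a23c11d88e8472) (nat_lit 0))) (L (E (nat_lit 6) (nat_lit 0x8fc47c23d11e08ec474) (nat_lit 0))))) (N (nat_lit 267) (L (E (nat_lit 6) (nat_lit 0x9a04ba254125890c476) (nat_lit 0))) (L (E (nat_lit 6) (nat_lit 0x9a44bc2551260910478) (nat_lit 0))))) (N (nat_lit 270) (N (nat_lit 269) (L (E (nat_lit 6) (nat_lit 0x9a84be256126891447a) (nat_lit 0))) (L (E (nat_lit 6) (nat_lit 0x9ac4c0257127091847c) (nat_lit 0)))) (N (nat_lit 272) (N (nat_lit 271) (L (E (nat_lit 6) (nat_lit 0x9bc4ca25a1288920480) (nat_lit 0))) (L (E (nat_lit 6) (nat_lit 0x9c04cc25b1290924482) (nat_lit 0)))) (L (E (nat_lit 6) (nat_lit 0x91848a2441218908482) (nat_lit 0)))))) (N (nat_lit 279) (N (nat_lit 276) (N (nat_lit 274) (L (E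 (nat_lit 6) (nat_lit 0x9c44ce25c1298928484) (nat_lit 0))) (N (nat_lit 275) (L (E (nat_lit 6) (nat_lit 0x9c84d025d12a092c486) (nat_lit 0))) (L (E (nat_lit 6) (nat_lit 0x9cc4d225e12a8930488) (nat_lit 0))))) (N (nat_lit 278) (N (nat_lit 277) (L (E (nat_lit 6) (nat_lit 0x9d04d425f12b093448a) (nat_lit 0))) (L (E (nat_lit 6) (nat_lit 0xe446fc35d1870aa448e) (nat_lit 0)))) (L (E (nat_lit 6) (nat_lit 0x9d84dc26412c894048e) (nat_lit 0))))) (N (nat_lit 281) (N (nat_lit 280) (L (E (nat_lit 6) (nat_lit 0x248d1887e03271124490) (nat_lit 0))) (L (E (nat_lit 6) (nat_lit 0x9dc4de26512d0944490) (nat_lit 0)))) (L (E (nat_lit 6) (nat_lit 0x93449824b1250924490) (nat_lit 0)))))) (N (nat_lit 294) (N (nat_lit 287) (N (nat_lit 285) (N (nat_lit 284) (N (nat_lit 283) (L (E (nat_lit 6) (nat_lit 0x249118a7e13279128492) (nat_lit 0))) (L (E (nat_lit 6) (nat_lit 0x9e04e026612d8948492) (nat_lit 0)))) (L (E (nat_lit 6) (nat_lit 0x249518c7e2328112c494)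 (nat_lit 0)))) (N (nat_lit 286) (L (E (nat_lit 6) (nat_lit 0x9e44e226712e094c494) (nat_lit 0))) (L (E (nat_lit 6) (nat_lit 0x93c49c24d126092c494) (nat_lit 0))))) (N (nat_lit 292) (N (nat_lit 291) (N (nat_lit 289) (N (nat_lit 288) (L (E (nat_lit 6) (nat_lit 0xe487003611890ab4496) (nat_lit 0))) (L (E (nat_lit 6) (nat_lit 0x9e84e426812e8950496) (nat_lit 0)))) (N (nat_lit 290) (L (E (nat_lit 6) (nat_lit 0x9ec4e626912f0954498) (nat_lit 0))) (L (E (nat_lit 6) (nat_lit 0xe4c70236318c0ad04a0) (nat_lit 0))))) (L (E (nat_lit 6) (nat_lit 0x9544a825312909444a0) (nat_lit 0)))) (N (nat_lit 293) (L (E (nat_lit 6) (nat_lit 0xa004ee26f13289684a2) (nat_lit 0))) (L (E (nat_lit 6) (nat_lit 0xa044f0270133096c4a4) (nat_lit 0)))))) (N (nat_lit 301) (N (nat_lit 296) (N (nat_lit 295) (L (E (nat_lit 6) (nat_lit 0x95c4ac25512a094c4a4) (nat_lit 0))) (L (E (nat_lit 6) (nat_lit 0xa084f227113389704a6) (nat_lit 0)))) (N (nat_lit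 300) (N (nat_lit 299) (N (nat_lit 298) (N (nat_lit 297) (L (E (nat_lit 6) (nat_lit 0x24a11967ed32d91604a8) (nat_lit 0))) (L (E (nat_lit 6) (nat_lit 0xe5070a36718e0ae04a8) (nat_lit 0)))) (L (E (nat_lit 6) (nat_lit 0xa144fc275136898c4b0) (nat_lit 0)))) (L (E (nat_lit 6) (nat_lit 0x9604a024812088e846a) (nat_lit 0)))) (L (E (nat_lit 6) (nat_lit 0x9644a224912108ec46c) (nat_lit 0))))) (N (nat_lit 304) (N (nat_lit 302) (L (E (nat_lit 6) (nat_lit 0x9784ba25c12d89684b2) (nat_lit 0))) (N (nat_lit 303) (L (E (nat_lit 6) (nat_lit 0x24a519c7f433191804b4) (nat_lit 0))) (L (E (nat_lit 6) (nat_lit 0xa1c50027713789944b4) (nat_lit 0))))) (N (nat_lit 305) (L (E (nat_lit 6) (nat_lit 0x9684a424a12188f046e) (nat_lit 0))) (N (nat_lit 307) (N (nat_lit 306) (L (E (nat_lit 6) (nat_lit 0x97c4bc25d12e096c4b4) (nat_lit 0))) (L (E (nat_lit 6) (nat_lit 0xe5470e36b1928b004b6) (nat_lit 0)))) (N (nat_lit 308) (L (E (nat_lit 6) (nat_lit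 0x96c4a624b12208f4470) (nat_lit 0))) (L (E (nat_lit 6) (nat_lit 0x9844c025f12f09744b8) (nat_lit 0)))))))))
def cl6 : RA := N (nat_lit 345) (N (nat_lit 309) (cl5) (N (nat_lit 328) (N (nat_lit 321) (N (nat_lit 316) (N (nat_lit 312) (N (nat_lit 311) (N (nat_lit 310) (L (E (nat_lit 6) (nat_lit 0x99c4cc265132098c4c4) (nat_lit 0))) (L (E (nat_lit 6) (nat_lit 0x98c4b22511248908476) (nat_lit 0)))) (L (E (nat_lit 6) (nat_lit 0x9a04ce26613289904c6) (nat_lit 0)))) (N (nat_lit 313) (L (E (nat_lit 6) (nat_lit 0x9904b4252125090c478) (nat_lit 0))) (N (nat_lit 314) (L (E (nat_lit 6) (nat_lit 0x9a44d026713309944c8) (nat_lit 0))) (N (nat_lit 315) (L (E (nat_lit 6) (nat_lit 0x9944b6253125891047a) (nat_lit 0))) (L (E (nat_lit 6) (nat_lit 0x9a84d226813389984ca) (nat_lit 0))))))) (N (nat_lit 319) (N (nat_lit 318) (N (nat_lit 317) (L (E (nat_lit 6) (nat_lit 0xa3451028113c09c04cc) (nat_lit 0))) (L (E (nat_lit 6) (nat_lit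 0x9984b8254126091447c) (nat_lit 0)))) (L (E (nat_lit 6) (nat_lit 0x9ac4d4269134099c4cc) (nat_lit 0)))) (N (nat_lit 320) (L (E (nat_lit 6) (nat_lit 0x9b04c62591288924484) (nat_lit 0))) (L (E (nat_lit 6) (nat_lit 0x9b44c825a1290928486) (nat_lit 0)))))) (N (nat_lit 324) (N (nat_lit 323) (N (nat_lit 322) (L (E (nat_lit 6) (nat_lit 0x9c84e227013789b84da) (nat_lit 0))) (L (E (nat_lit 6) (nat_lit 0x9b84ca25b129892c488) (nat_lit 0)))) (L (E (nat_lit 6) (nat_lit 0x9cc4e427113809bc4dc) (nat_lit 0)))) (N (nat_lit 326) (N (nat_lit 325) (L (E (nat_lit 6) (nat_lit 0x9bc4cc25c12a093048a) (nat_lit 0))) (L (E (nat_lit 6) (nat_lit 0x9c04ce25d12a893448c) (nat_lit 0)))) (N (nat_lit 327) (L (E (nat_lit 6) (nat_lit 0x9e84f227813b89d84ea) (nat_lit 0))) (L (E (nat_lit 6) (nat_lit 0x9d84de26612e0950498) (nat_lit 0))))))) (N (nat_lit 340) (N (nat_lit 334) (N (nat_lit 329) (L (E (nat_lit 6) (nat_lit 0x9dc4e026712e895449a)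 (nat_lit 0))) (N (nat_lit 331) (N (nat_lit 330) (L (E (nat_lit 6) (nat_lit 0x9f04f627a13c89e04ee) (nat_lit 0))) (L (E (nat_lit 6) (nat_lit 0x9e44e426912f895c49e) (nat_lit 0)))) (N (nat_lit 333) (N (nat_lit 332) (L (E (nat_lit 6) (nat_lit 0xe607203781a30b904fa) (nat_lit 0))) (L (E (nat_lit 6) (nat_lit 0x9f84ec26f13309704a8) (nat_lit 0)))) (L (E (nat_lit 6) (nat_lit 0xa0c50428114009fc4fc) (nat_lit 0)))))) (N (nat_lit 335) (L (E (nat_lit 6) (nat_lit 0xa004f027113409784ac) (nat_lit 0))) (N (nat_lit 337) (N (nat_lit 336) (L (E (nat_lit 6) (nat_lit 0xa044f2272134897c4ae) (nat_lit 0))) (L (E (nat_lit 6) (nat_lit 0xa104fc27613789984b8) (nat_lit 0)))) (N (nat_lit 339) (N (nat_lit 338) (L (E (nat_lit 6) (nat_lit 0xa285122881438a1850a) (nat_lit 0))) (L (E (nat_lit 6) (nat_lit 0xa1850027813889a04bc) (nat_lit 0)))) (L (E (nat_lit 6) (nat_lit 0xa2050427a13989a84c0) (nat_lit 0))))))) (N (nat_lit 343) (N (nat_lit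 342) (N (nat_lit 341) (L (E (nat_lit 6) (nat_lit 0xa2c50e28113c89c84d2) (nat_lit 0))) (L (E (nat_lit 6) (nat_lit 0xa3051028213d09cc4d4) (nat_lit 0)))) (L (E (nat_lit 6) (nat_lit 0xae055a2a314d0a4c51c) (nat_lit 0)))) (N (nat_lit 344) (L (E (nat_lit 6) (nat_lit 0x24ad1b2810345926851e) (nat_lit 0))) (L (E (nat_lit 6) (nat_lit 0xae455c2a414d8a5051e) (nat_lit 0)))))))) (N (nat_lit 351) (N (nat_lit 350) (N (nat_lit 349) (N (nat_lit 347) (N (nat_lit 346) (L (E (nat_lit 6) (nat_lit 0xae855e2a514e0a54520) (nat_lit 0))) (L (E (nat_lit 6) (nat_lit 0xb0056c2ab1508a60522) (nat_lit 0)))) (N (nat_lit 348) (L (E (nat_lit 6) (nat_lit 0xa5852a2941498a48522) (nat_lit 0))) (L (E (nat_lit 6) (nat_lit 0xb0456e2ac1510a64524) (nat_lit 0))))) (L (E (nat_lit 6) (nat_lit 0xb085702ad1518a68526) (nat_lit 0)))) (L (E (nat_lit 6) (nat_lit 0xb0c5722ae1520a6c528) (nat_lit 0)))) (N (nat_lit 354) (N (nat_lit 353) (N (nat_lit 352)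 (L (E (nat_lit 6) (nat_lit 0xb105742af1528a7052a) (nat_lit 0))) (L (E (nat_lit 6) (nat_lit 0xb145762b01530a7452c) (nat_lit 0)))) (L (E (nat_lit 6) (nat_lit 0xb2857e2b51550a8052e) (nat_lit 0)))) (N (nat_lit 355) (L (E (nat_lit 6) (nat_lit 0xa7053629a14c8a6052e) (nat_lit 0))) (L (E (nat_lit 6) (nat_lit 0xb2c5802b61558a84530) (nat_lit 0))))))
def cl7 : RA := N (nat_lit 356) (N (nat_lit 263) (N (nat_lit 136) (cl2) (N (nat_lit 209) (N (nat_lit 165) (N (nat_lit 147) (N (nat_lit 140) (N (nat_lit 138) (N (nat_lit 137) (L (E (nat_lit 6) (nat_lit 0x230cfb46472210910232) (nat_lit 0))) (L (E (nat_lit 6) (nat_lit 0x4d426012b093047c234) (nat_lit 0)))) (N (nat_lit 139) (L (E (nat_lit 6) (nat_lit 0x2318fc46502258928236) (nat_lit 0))) (L (E (nat_lit 6) (nat_lit 0x231cfc86522268930238) (nat_lit 0))))) (N (nat_lit 141) (L (E (nat_lit 6) (nat_lit 0x2320fca653227093423a) (nat_lit 0))) (N (nat_lit 143) (N (nat_lit 142)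 (L (E (nat_lit 6) (nat_lit 0x2324fd465922a894423c) (nat_lit 0))) (L (E (nat_lit 6) (nat_lit 0x7f03ce1c10c3853023c) (nat_lit 0)))) (N (nat_lit 145) (N (nat_lit 144) (L (E (nat_lit 6) (nat_lit 0x232cfda65b22c0950242) (nat_lit 0))) (L (E (nat_lit 6) (nat_lit 0x2330fde65d22d0958246) (nat_lit 0)))) (N (nat_lit 146) (L (E (nat_lit 6) (nat_lit 0x7f43d61c80c6854c24a) (nat_lit 0))) (L (E (nat_lit 6) (nat_lit 0x233cfea664230896c24c) (nat_lit 0)))))))) (N (nat_lit 158) (N (nat_lit 153) (N (nat_lit 150) (N (nat_lit 149) (N (nat_lit 148) (L (E (nat_lit 6) (nat_lit 0x2340fec665231097024e) (nat_lit 0))) (L (E (nat_lit 6) (nat_lit 0x2344ff06672320978250) (nat_lit 0)))) (L (E (nat_lit 6) (nat_lit 0x2348ff666a235098c252) (nat_lit 0)))) (N (nat_lit 151) (L (E (nat_lit 6) (nat_lit 0x7fc3e01ce0ca056c252) (nat_lit 0))) (N (nat_lit 152) (L (E (nat_lit 6) (nat_lit 0x234cff866b2358990254) (nat_lit 0))) (L (E (nat_lit 6)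 (nat_lit 0x2358ffe66d237099c258) (nat_lit 0)))))) (N (nat_lit 156) (N (nat_lit 155) (N (nat_lit 154) (L (E (nat_lit 6) (nat_lit 0x235d00667323a89b825c) (nat_lit 0))) (L (E (nat_lit 6) (nat_lit 0x236100867423b09bc25e) (nat_lit 0)))) (L (E (nat_lit 6) (nat_lit 0x4dc11e03c00c8038010) (nat_lit 0)))) (N (nat_lit 157) (L (E (nat_lit 6) (nat_lit 0x5782aa14d0a304f8270) (nat_lit 0))) (L (E (nat_lit 6) (nat_lit 0x236902a69a2540a64272) (nat_lit 0)))))) (N (nat_lit 163) (N (nat_lit 161) (N (nat_lit 160) (N (nat_lit 159) (L (E (nat_lit 6) (nat_lit 0x5802ae14f0a40500274) (nat_lit 0))) (L (E (nat_lit 6) (nat_lit 0x5842b01500a48504276) (nat_lit 0)))) (L (E (nat_lit 6) (nat_lit 0x236d02c69d2558a70278) (nat_lit 0)))) (N (nat_lit 162) (L (E (nat_lit 6) (nat_lit 0x50828214009f84f827a) (nat_lit 0))) (L (E (nat_lit 6) (nat_lit 0x50c2841410a004fc27c) (nat_lit 0))))) (N (nat_lit 164) (L (E (nat_lit 6) (nat_lit 0x23710366a52590a8827e)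 (nat_lit 0))) (L (E (nat_lit 6) (nat_lit 0x59c2be1560a7051c27e) (nat_lit 0))))))) (cl3)) (cl4))) (cl6)) (N (nat_lit 366) (N (nat_lit 363) (N (nat_lit 359) (N (nat_lit 357) (L (E (nat_lit 6) (nat_lit 0xa7453829b14d0a64530) (nat_lit 0))) (N (nat_lit 358) (L (E (nat_lit 6) (nat_lit 0xb305822b71560a88532) (nat_lit 0))) (L (E (nat_lit 6) (nat_lit 0xa7853a29c14d8a68532) (nat_lit 0))))) (N (nat_lit 360) (L (E (nat_lit 6) (nat_lit 0xb345842b81568a8c534) (nat_lit 0))) (N (nat_lit 361) (L (E (nat_lit 6) (nat_lit 0xb3c5882ba1578a94538) (nat_lit 0))) (N (nat_lit 362) (L (E (nat_lit 6) (nat_lit 0xb4c5922be15a0aa453e) (nat_lit 0))) (L (E (nat_lit 6) (nat_lit 0xa905462a21508a8053e) (nat_lit 0))))))) (N (nat_lit 364) (L (E (nat_lit 6) (nat_lit 0xb505942bf15a8aa8540) (nat_lit 0))) (N (nat_lit 365) (L (E (nat_lit 6) (nat_lit 0xb545962c015b0aac542) (nat_lit 0))) (L (E (nat_lit 6) (nat_lit 0xa9854a2a41518a88542) (nat_lit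 0)))))) (N (nat_lit 373) (N (nat_lit 368) (N (nat_lit 367) (L (E (nat_lit 6) (nat_lit 0xb585982c115b8ab0544) (nat_lit 0))) (L (E (nat_lit 6) (nat_lit 0xa9c54c2a51520a8c544) (nat_lit 0)))) (N (nat_lit 369) (L (E (nat_lit 6) (nat_lit 0xb5c59a2c215c0ab4546) (nat_lit 0))) (N (nat_lit 370) (L (E (nat_lit 6) (nat_lit 0xb6059c2c315c8ab8548) (nat_lit 0))) (N (nat_lit 372) (N (nat_lit 371) (L (E (nat_lit 6) (nat_lit 0xb6459e2c415d0abc54a) (nat_lit 0))) (L (E (nat_lit 6) (nat_lit 0xb705a42c815e8acc550) (nat_lit 0)))) (L (E (nat_lit 6) (nat_lit 0xab45582ab1550aa4550) (nat_lit 0))))))) (N (nat_lit 375) (N (nat_lit 374) (L (E (nat_lit 6) (nat_lit 0xb745a62c915f0ad0552) (nat_lit 0))) (L (E (nat_lit 6) (nat_lit 0xab855a2ac1558aa8552) (nat_lit 0)))) (L (E (nat_lit 6) (nat_lit 0xabc55c2ad1560aac554) (nat_lit 0))))))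
def cl8 : RA := N (nat_lit 409) (N (nat_lit 390) (N (nat_lit 385) (N (nat_lit 378) (N (nat_lit 377) (L (E (nat_lit 6) (nat_lit 0xac055e2ae1568ab0556) (nat_lit 0))) (L (E (nat_lit 6) (nat_lit 0xb805ac2cc1608adc558) (nat_lit 0)))) (N (nat_lit 382) (N (nat_lit 379) (L (E (nat_lit 6) (nat_lit 0xb885b02ce1618ae455c) (nat_lit 0))) (N (nat_lit 380) (L (E (nat_lit 6) (nat_lit 0xadc56c2b515a0acc564) (nat_lit 0))) (N (nat_lit 381) (L (E (nat_lit 6) (nat_lit 0xb945b82d21640af4566) (nat_lit 0))) (L (E (nat_lit 6) (nat_lit 0xacc5522a014c0a4851c) (nat_lit 0)))))) (N (nat_lit 383) (L (E (nat_lit 6) (nat_lit 0xae056e2b615a8ad0566) (nat_lit 0))) (N (nat_lit 384) (L (E (nat_lit 6) (nat_lit 0xb985ba2d31648af8568) (nat_lit 0))) (L (E (nat_lit 6) (nat_lit 0xad05542a114c8a4c51e) (nat_lit 0))))))) (N (nat_lit 386) (L (E (nat_lit 6) (nat_lit 0xb9c5bc2d41650afc56a) (nat_lit 0))) (N (nat_lit 388) (N (nat_lit 387) (L (E (nat_lit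 6) (nat_lit 0xad45562a214d0a50520) (nat_lit 0))) (L (E (nat_lit 6) (nat_lit 0xae85722b815b8ad856a) (nat_lit 0)))) (N (nat_lit 389) (L (E (nat_lit 6) (nat_lit 0xba05be2d51658b0056c) (nat_lit 0))) (L (E (nat_lit 6) (nat_lit 0xaec5742b915c0adc56c) (nat_lit 0))))))) (N (nat_lit 399) (N (nat_lit 395) (N (nat_lit 392) (N (nat_lit 391) (L (E (nat_lit 6) (nat_lit 0xba45c02d61660b0456e) (nat_lit 0))) (L (E (nat_lit 6) (nat_lit 0xba85c22d71668b08570) (nat_lit 0)))) (N (nat_lit 394) (N (nat_lit 393) (L (E (nat_lit 6) (nat_lit 0xbb05c82db1688b1c578) (nat_lit 0))) (L (E (nat_lit 6) (nat_lit 0xaf05662a91500a60524) (nat_lit 0)))) (L (E (nat_lit 6) (nat_lit 0xb045802bf15f0af4578) (nat_lit 0))))) (N (nat_lit 398) (N (nat_lit 397) (N (nat_lit 396) (L (E (nat_lit 6) (nat_lit 0xbb45ca2dc1690b2057a) (nat_lit 0))) (L (E (nat_lit 6) (nat_lit 0xaf45682aa1508a64526) (nat_lit 0)))) (L (E (nat_lit 6) (nat_lit 0xb085822c015f8af857a)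 (nat_lit 0)))) (L (E (nat_lit 6) (nat_lit 0xaf856a2ab1510a68528) (nat_lit 0))))) (N (nat_lit 401) (N (nat_lit 400) (L (E (nat_lit 6) (nat_lit 0xb0c5842c11600afc57c) (nat_lit 0))) (L (E (nat_lit 6) (nat_lit 0xbbc5ce2de16a0b2857e) (nat_lit 0)))) (N (nat_lit 402) (L (E (nat_lit 6) (nat_lit 0xafc56c2ac1518a6c52a) (nat_lit 0))) (N (nat_lit 403) (L (E (nat_lit 6) (nat_lit 0xb105862c21608b0057e) (nat_lit 0))) (N (nat_lit 405) (N (nat_lit 404) (L (E (nat_lit 6) (nat_lit 0xbc05d02df16a8b2c580) (nat_lit 0))) (L (E (nat_lit 6) (nat_lit 0xb145882c31610b04580) (nat_lit 0)))) (N (nat_lit 407) (N (nat_lit 406) (L (E (nat_lit 6) (nat_lit 0xbc45d22e016b0b30582) (nat_lit 0))) (L (E (nat_lit 6) (nat_lit 0xbc85d62e316d0b4058c) (nat_lit 0)))) (N (nat_lit 408) (L (E (nat_lit 6) (nat_lit 0xb2c5942c91640b1c58c) (nat_lit 0))) (L (E (nat_lit 6) (nat_lit 0xbcc5d82e416d8b4458e) (nat_lit 0))))))))))) (N (nat_lit 423) (N (nat_lit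 416) (N (nat_lit 414) (N (nat_lit 413) (N (nat_lit 412) (N (nat_lit 410) (L (E (nat_lit 6) (nat_lit 0xb1c57a2b41550a84532) (nat_lit 0))) (N (nat_lit 411) (L (E (nat_lit 6) (nat_lit 0xb305962ca1648b2058e) (nat_lit 0))) (L (E (nat_lit 6) (nat_lit 0xbd05da2e516e0b48590) (nat_lit 0))))) (L (E (nat_lit 6) (nat_lit 0xb2057c2b51558a88534) (nat_lit 0)))) (L (E (nat_lit 6) (nat_lit 0xb345982cb1650b24590) (nat_lit 0)))) (N (nat_lit 415) (L (E (nat_lit 6) (nat_lit 0xbd45dc2e616e8b4c592) (nat_lit 0))) (L (E (nat_lit 6) (nat_lit 0xb3859a2cc1658b28592) (nat_lit 0))))) (N (nat_lit 417) (L (E (nat_lit 6) (nat_lit 0xb285802b71568a90538) (nat_lit 0))) (N (nat_lit 419) (N (nat_lit 418) (L (E (nat_lit 6) (nat_lit 0xb3c59c2cd1660b2c594) (nat_lit 0))) (L (E (nat_lit 6) (nat_lit 0xb2c5822b81570a9453a) (nat_lit 0)))) (N (nat_lit 421) (N (nat_lit 420) (L (E (nat_lit 6) (nat_lit 0xb305842b91578a9853c) (nat_lit 0))) (L (E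 (nat_lit 6) (nat_lit 0xb4058e2bd15a0aa8542) (nat_lit 0)))) (N (nat_lit 422) (L (E (nat_lit 6) (nat_lit 0xb545a82d31690b445a0) (nat_lit 0))) (L (E (nat_lit 6) (nat_lit 0xb445902be15a8aac544) (nat_lit 0)))))))) (N (nat_lit 427) (N (nat_lit 426) (N (nat_lit 425) (N (nat_lit 424) (L (E (nat_lit 6) (nat_lit 0xb585aa2d41698b485a2) (nat_lit 0))) (L (E (nat_lit 6) (nat_lit 0xbdc5e82ed1728b705a4) (nat_lit 0)))) (L (E (nat_lit 6) (nat_lit 0xb485922bf15b0ab0546) (nat_lit 0)))) (L (E (nat_lit 6) (nat_lit 0xb5c5ac2d516a0b4c5a4) (nat_lit 0)))) (N (nat_lit 428) (L (E (nat_lit 6) (nat_lit 0xb4c5942c015b8ab4548) (nat_lit 0))) (L (E (nat_lit 6) (nat_lit 0xb505962c115c0ab854a) (nat_lit 0))))))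
def cl9 : RA := N (nat_lit 466) (N (nat_lit 450) (N (nat_lit 445) (L (E (nat_lit 6) (nat_lit 0xb985bc2d51660b08572) (nat_lit 0))) (N (nat_lit 447) (N (nat_lit 446) (L (E (nat_lit 6) (nat_lit 0xb9c5be2d61668b0c574) (nat_lit 0))) (L (E (nat_lit 6) (nat_lit 0xbac5c82dc1698b28580) (nat_lit 0)))) (N (nat_lit 449) (N (nat_lit 448) (L (E (nat_lit 6) (nat_lit 0xbc05de2ee1768bb05d6) (nat_lit 0))) (L (E (nat_lit 6) (nat_lit 0xbb05ca2dd16a0b2c582) (nat_lit 0)))) (L (E (nat_lit 6) (nat_lit 0xbc45e02ef1770bb45d8) (nat_lit 0)))))) (N (nat_lit 456) (N (nat_lit 452) (N (nat_lit 451) (L (E (nat_lit 6) (nat_lit 0xbb45cc2de16a8b30584) (nat_lit 0))) (L (E (nat_lit 6) (nat_lit 0xbbc5d02e016b8b38588) (nat_lit 0)))) (N (nat_lit 453) (L (E (nat_lit 6) (nat_lit 0xbc05d22e116c0b3c58a) (nat_lit 0))) (N (nat_lit 455) (N (nat_lit 454) (L (E (nat_lit 6) (nat_lit 0xbd05dc2e716f8b5859a) (nat_lit 0))) (L (E (nat_lit 6) (nat_lit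 0xbd45de2e81700b5c59c) (nat_lit 0)))) (L (E (nat_lit 6) (nat_lit 0xbd85e02e91708b6059e) (nat_lit 0)))))) (N (nat_lit 464) (N (nat_lit 461) (N (nat_lit 459) (N (nat_lit 457) (L (E (nat_lit 6) (nat_lit 0xbdc5ea2ef1740b805ae) (nat_lit 0))) (N (nat_lit 458) (L (E (nat_lit 6) (nat_lit 0xc946343101838bfc5f0) (nat_lit 0))) (L (E (nat_lit 6) (nat_lit 0xc986363111840c005f2) (nat_lit 0))))) (N (nat_lit 460) (L (E (nat_lit 6) (nat_lit 0xc9c6383121848c045f4) (nat_lit 0))) (L (E (nat_lit 6) (nat_lit 0xca063a3131850c085f6) (nat_lit 0))))) (N (nat_lit 463) (N (nat_lit 462) (L (E (nat_lit 6) (nat_lit 0xca463c3141858c0c5f8) (nat_lit 0))) (L (E (nat_lit 6) (nat_lit 0xcb86483191878c185fc) (nat_lit 0)))) (L (E (nat_lit 6) (nat_lit 0xc0c6043011800bfc5fc) (nat_lit 0))))) (N (nat_lit 465) (L (E (nat_lit 6) (nat_lit 0xcbc64a31a1880c1c5fe) (nat_lit 0))) (L (E (nat_lit 6) (nat_lit 0xc106063021808c005fe) (nat_lit 0)))))))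 (N (nat_lit 481) (N (nat_lit 473) (N (nat_lit 469) (N (nat_lit 467) (L (E (nat_lit 6) (nat_lit 0xcc064c31b1888c20600) (nat_lit 0))) (N (nat_lit 468) (L (E (nat_lit 6) (nat_lit 0xcc464e31c1890c24602) (nat_lit 0))) (L (E (nat_lit 6) (nat_lit 0xcc865031d1898c28604) (nat_lit 0))))) (N (nat_lit 471) (N (nat_lit 470) (L (E (nat_lit 6) (nat_lit 0xcdc65a32318c0c3860a) (nat_lit 0))) (L (E (nat_lit 6) (nat_lit 0xc286123081838c1860a) (nat_lit 0)))) (N (nat_lit 472) (L (E (nat_lit 6) (nat_lit 0xce065c32418c8c3c60c) (nat_lit 0))) (L (E (nat_lit 6) (nat_lit 0xc2c6143091840c1c60c) (nat_lit 0)))))) (N (nat_lit 478) (N (nat_lit 475) (N (nat_lit 474) (L (E (nat_lit 6) (nat_lit 0xce465e32518d0c4060e) (nat_lit 0))) (L (E (nat_lit 6) (nat_lit 0xc3061630a1848c2060e) (nat_lit 0)))) (N (nat_lit 476) (L (E (nat_lit 6) (nat_lit 0xce866032618d8c44610) (nat_lit 0))) (N (nat_lit 477) (L (E (nat_lit 6) (nat_lit 0xcec66232718e0c48612)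 (nat_lit 0))) (L (E (nat_lit 6) (nat_lit 0xd0066c32c1910c5c61a) (nat_lit 0)))))) (N (nat_lit 480) (N (nat_lit 479) (L (E (nat_lit 6) (nat_lit 0xc486223101878c3861a) (nat_lit 0))) (L (E (nat_lit 6) (nat_lit 0xd0466e32d1918c6061c) (nat_lit 0)))) (L (E (nat_lit 6) (nat_lit 0xc4c6243111880c3c61c) (nat_lit 0)))))) (N (nat_lit 490) (N (nat_lit 484) (N (nat_lit 482) (L (E (nat_lit 6) (nat_lit 0xc506263121888c4061e) (nat_lit 0))) (N (nat_lit 483) (L (E (nat_lit 6) (nat_lit 0xd0c67232f1928c68620) (nat_lit 0))) (L (E (nat_lit 6) (nat_lit 0xd106743301930c6c622) (nat_lit 0))))) (N (nat_lit 489) (N (nat_lit 487) (N (nat_lit 486) (N (nat_lit 485) (L (E (nat_lit 6) (nat_lit 0xd1867e3351958c8462c) (nat_lit 0))) (L (E (nat_lit 6) (nat_lit 0xc6c63431918c0c5c62c) (nat_lit 0)))) (L (E (nat_lit 6) (nat_lit 0xd1c6803361960c8862e) (nat_lit 0)))) (N (nat_lit 488) (L (E (nat_lit 6) (nat_lit 0xc7063631a18c8c6062e) (nat_lit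 0))) (L (E (nat_lit 6) (nat_lit 0xd206823371968c8c630) (nat_lit 0))))) (L (E (nat_lit 6) (nat_lit 0xc7463831b18d0c64630) (nat_lit 0))))) (N (nat_lit 497) (N (nat_lit 493) (N (nat_lit 491) (L (E (nat_lit 6) (nat_lit 0xd246843381970c90632) (nat_lit 0))) (N (nat_lit 492) (L (E (nat_lit 6) (nat_lit 0xc7863a31c18d8c68632) (nat_lit 0))) (L (E (nat_lit 6) (nat_lit 0xd286863391978c94634) (nat_lit 0))))) (N (nat_lit 496) (N (nat_lit 495) (N (nat_lit 494) (L (E (nat_lit 6) (nat_lit 0xc8062c30d1828bf85f0) (nat_lit 0))) (L (E (nat_lit 6) (nat_lit 0xd3868c33f19a8cac642) (nat_lit 0)))) (L (E (nat_lit 6) (nat_lit 0xc8462e30e1830bfc5f2) (nat_lit 0)))) (L (E (nat_lit 6) (nat_lit 0xc9864a3241918c88642) (nat_lit 0))))) (N (nat_lit 499) (N (nat_lit 498) (L (E (nat_lit 6) (nat_lit 0xd3c68e34019b0cb0644) (nat_lit 0))) (L (E (nat_lit 6) (nat_lit 0xc8863030f1838c005f4) (nat_lit 0)))) (L (E (nat_lit 6) (nat_lit 0xc9c64c3251920c8c644)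 (nat_lit 0)))))))
def cl10 : RA := N (nat_lit 573) (N (nat_lit 558) (N (nat_lit 544) (N (nat_lit 541) (N (nat_lit 540) (L (E (nat_lit 6) (nat_lit 0xd206843391980c9c63a) (nat_lit 0))) (L (E (nat_lit 6) (nat_lit 0xd2468633a1988ca063c) (nat_lit 0)))) (N (nat_lit 543) (N (nat_lit 542) (L (E (nat_lit 6) (nat_lit 0xd2868833b1990ca463e) (nat_lit 0))) (L (E (nat_lit 6) (nat_lit 0xd446a034f1a70d34698) (nat_lit 0)))) (L (E (nat_lit 6) (nat_lit 0xd3468c34019b8cb864a) (nat_lit 0))))) (N (nat_lit 550) (N (nat_lit 547) (N (nat_lit 545) (L (E (nat_lit 6) (nat_lit 0xd3868e34119c0cbc64c) (nat_lit 0))) (N (nat_lit 546) (L (E (nat_lit 6) (nat_lit 0xe643f60d10260050012) (nat_lit 0))) (L (E (nat_lit 6) (nat_lit 0x146095643a1ea0ea0734) (nat_lit 0))))) (N (nat_lit 549) (N (nat_lit 548) (L (E (nat_lit 6) (nat_lit 0x14b097a44c1f30ebc736) (nat_lit 0))) (L (E (nat_lit 6) (nat_lit 0x14d098e4561f78ec4738) (nat_lit 0)))) (L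 (E (nat_lit 6) (nat_lit 0x14dc9944591f90ecc73c) (nat_lit 0))))) (N (nat_lit 554) (N (nat_lit 552) (N (nat_lit 551) (L (E (nat_lit 6) (nat_lit 0x15009a44611fd0ed873e) (nat_lit 0))) (L (E (nat_lit 6) (nat_lit 0x15089a84631fe0ee0740) (nat_lit 0)))) (N (nat_lit 553) (L (E (nat_lit 6) (nat_lit 0x15109ac4651ff0ee8742) (nat_lit 0))) (L (E (nat_lit 6) (nat_lit 0x152c9bc46d2028ef0744) (nat_lit 0))))) (N (nat_lit 556) (N (nat_lit 555) (L (E (nat_lit 6) (nat_lit 0x15309be46e2030ef4746) (nat_lit 0))) (L (E (nat_lit 6) (nat_lit 0x15589d44782080f00748) (nat_lit 0)))) (N (nat_lit 557) (L (E (nat_lit 6) (nat_lit 0x157c9e848220c0f0874a) (nat_lit 0))) (L (E (nat_lit 6) (nat_lit 0x15a8a1c4a22178f2c74c) (nat_lit 0)))))))) (N (nat_lit 565) (N (nat_lit 560) (N (nat_lit 559) (L (E (nat_lit 6) (nat_lit 0x15b4a2e4aa21c8f4c74e) (nat_lit 0))) (L (E (nat_lit 6) (nat_lit 0x15c0a404b22200f6c752) (nat_lit 0)))) (N (nat_lit 561)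 (L (E (nat_lit 6) (nat_lit 0x15c4a424b32208f70754) (nat_lit 0))) (N (nat_lit 563) (N (nat_lit 562) (L (E (nat_lit 6) (nat_lit 0x15cca464b52218f78758) (nat_lit 0))) (L (E (nat_lit 6) (nat_lit 0xeb843811b04100a802e) (nat_lit 0)))) (N (nat_lit 564) (L (E (nat_lit 6) (nat_lit 0x15d4a564bc2258f9475c) (nat_lit 0))) (L (E (nat_lit 6) (nat_lit 0x15d8a584bd2260f9875e) (nat_lit 0))))))) (N (nat_lit 568) (N (nat_lit 566) (L (E (nat_lit 6) (nat_lit 0x15e4a684c722b0fbc762) (nat_lit 0))) (N (nat_lit 567) (L (E (nat_lit 6) (nat_lit 0x15e8a6a4c822b8fc0764) (nat_lit 0))) (L (E (nat_lit 6) (nat_lit 0x15eca6e4ca22c8fc8766) (nat_lit 0))))) (N (nat_lit 570) (N (nat_lit 569) (L (E (nat_lit 6) (nat_lit 0x15f0a7c4d022f8fe0768) (nat_lit 0))) (L (E (nat_lit 6) (nat_lit 0x15f4a7e4d12300fe476a) (nat_lit 0)))) (N (nat_lit 572) (N (nat_lit 571) (L (E (nat_lit 6) (nat_lit 0xee87723b81db8ed876a) (nat_lit 0))) (L (E (nat_lit 6)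 (nat_lit 0x15f8a804d22308fe876c) (nat_lit 0)))) (L (E (nat_lit 6) (nat_lit 0x15fca824d32310fec76e) (nat_lit 0)))))))) (N (nat_lit 585) (N (nat_lit 583) (N (nat_lit 580) (N (nat_lit 575) (N (nat_lit 574) (L (E (nat_lit 6) (nat_lit 0x1600a924dc235900c776) (nat_lit 0))) (L (E (nat_lit 6) (nat_lit 0x1608a964de2369014778) (nat_lit 0)))) (N (nat_lit 577) (N (nat_lit 576) (L (E (nat_lit 6) (nat_lit 0x160ca9a4e0237901c77c) (nat_lit 0))) (L (E (nat_lit 6) (nat_lit 0x1610aa64e723a903477e) (nat_lit 0)))) (N (nat_lit 578) (L (E (nat_lit 6) (nat_lit 0x1614ab84f123f9054782) (nat_lit 0))) (N (nat_lit 579) (L (E (nat_lit 6) (nat_lit 0xfcc7d03de1ea0f3078a) (nat_lit 0))) (L (E (nat_lit 6) (nat_lit 0x24d92268a03bc973c790) (nat_lit 0))))))) (N (nat_lit 581) (L (E (nat_lit 6) (nat_lit 0xfec7e03e51ed8f44792) (nat_lit 0))) (N (nat_lit 582) (L (E (nat_lit 6) (nat_lit 0xf3c79c3cd1e60f2c794) (nat_lit 0))) (L (E (nat_lit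 6) (nat_lit 0xff47e43e71ee8f4c796) (nat_lit 0)))))) (N (nat_lit 584) (L (E (nat_lit 6) (nat_lit 0xff87e63e81ef0f50798) (nat_lit 0))) (L (E (nat_lit 6) (nat_lit 0xffc7e83e91ef8f5479a) (nat_lit 0))))) (N (nat_lit 593) (N (nat_lit 589) (N (nat_lit 588) (N (nat_lit 587) (N (nat_lit 586) (L (E (nat_lit 6) (nat_lit 0x10007ea3ea1f00f5879c) (nat_lit 0))) (L (E (nat_lit 6) (nat_lit 0x10047ec3eb1f08f5c79e) (nat_lit 0)))) (L (E (nat_lit 6) (nat_lit 0x10147f43ef1f20f687a0) (nat_lit 0)))) (L (E (nat_lit 6) (nat_lit 0xf547a83d31e90f447a0) (nat_lit 0)))) (N (nat_lit 592) (N (nat_lit 590) (L (E (nat_lit 6) (nat_lit 0xf587aa3d41e98f487a2) (nat_lit 0))) (N (nat_lit 591) (L (E (nat_lit 6) (nat_lit 0x1618ad851625490e07a4) (nat_lit 0))) (L (E (nat_lit 6) (nat_lit 0x24dd22c8a23c217707a6) (nat_lit 0))))) (L (E (nat_lit 6) (nat_lit 0x10207fa3f21f38f747a6) (nat_lit 0))))) (N (nat_lit 595) (N (nat_lit 594) (L (E (nat_lit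 6) (nat_lit 0x24e122e8a33c297747a8) (nat_lit 0))) (L (E (nat_lit 6) (nat_lit 0x10247fc3f31f40f787a8) (nat_lit 0)))) (N (nat_lit 598) (N (nat_lit 596) (L (E (nat_lit 6) (nat_lit 0x102c8003f51f50f807ac) (nat_lit 0))) (N (nat_lit 597) (L (E (nat_lit 6) (nat_lit 0x161cadc51d25790f47b0) (nat_lit 0))) (L (E (nat_lit 6) (nat_lit 0x1620ade51e25810f87b2) (nat_lit 0))))) (L (E (nat_lit 6) (nat_lit 0xf787ba3dc1ed8f687b2) (nat_lit 0)))))))
def cl11 : RA := N (nat_lit 539) (N (nat_lit 518) (N (nat_lit 512) (N (nat_lit 509) (N (nat_lit 502) (N (nat_lit 501) (L (E (nat_lit 6) (nat_lit 0xd4069034119b8cb4646) (nat_lit 0))) (L (E (nat_lit 6) (nat_lit 0xc8c6323101840c045f6) (nat_lit 0)))) (N (nat_lit 504) (N (nat_lit 503) (L (E (nat_lit 6) (nat_lit 0xca064e3261928c90646) (nat_lit 0))) (L (E (nat_lit 6) (nat_lit 0xc906343111848c085f8) (nat_lit 0)))) (N (nat_lit 505) (L (E (nat_lit 6) (nat_lit 0xca46503271930c94648)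 (nat_lit 0))) (N (nat_lit 507) (N (nat_lit 506) (L (E (nat_lit 6) (nat_lit 0xc946363121850c0c5fa) (nat_lit 0))) (L (E (nat_lit 6) (nat_lit 0xd4869a34519f0cd0654) (nat_lit 0)))) (N (nat_lit 508) (L (E (nat_lit 6) (nat_lit 0xca86423171870c185fe) (nat_lit 0))) (L (E (nat_lit 6) (nat_lit 0xd4c69c34619f8cd4656) (nat_lit 0)))))))) (N (nat_lit 511) (N (nat_lit 510) (L (E (nat_lit 6) (nat_lit 0xcac6443181878c1c600) (nat_lit 0))) (L (E (nat_lit 6) (nat_lit 0xcc065e32e1968cb0656) (nat_lit 0)))) (L (E (nat_lit 6) (nat_lit 0xcb06463191880c20602) (nat_lit 0))))) (N (nat_lit 514) (N (nat_lit 513) (L (E (nat_lit 6) (nat_lit 0xcc466032f1970cb4658) (nat_lit 0))) (L (E (nat_lit 6) (nat_lit 0xd506a03481a08cdc65a) (nat_lit 0)))) (N (nat_lit 515) (L (E (nat_lit 6) (nat_lit 0xcb464831a1888c24604) (nat_lit 0))) (N (nat_lit 516) (L (E (nat_lit 6) (nat_lit 0xcb864a31b1890c28606) (nat_lit 0))) (N (nat_lit 517) (L (E (nat_lit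 6) (nat_lit 0xce066e33619a8cd0666) (nat_lit 0))) (L (E (nat_lit 6) (nat_lit 0xcd065632218c0c3c60e) (nat_lit 0)))))))) (N (nat_lit 527) (N (nat_lit 521) (N (nat_lit 519) (L (E (nat_lit 6) (nat_lit 0xcd465832318c8c40610) (nat_lit 0))) (N (nat_lit 520) (L (E (nat_lit 6) (nat_lit 0xce867233819b8cd866a) (nat_lit 0))) (L (E (nat_lit 6) (nat_lit 0xcd865a32418d0c44612) (nat_lit 0))))) (N (nat_lit 523) (N (nat_lit 522) (L (E (nat_lit 6) (nat_lit 0xcec67433919c0cdc66c) (nat_lit 0))) (L (E (nat_lit 6) (nat_lit 0xcdc65c32518d8c48614) (nat_lit 0)))) (N (nat_lit 524) (L (E (nat_lit 6) (nat_lit 0xcf067633a19c8ce066e) (nat_lit 0))) (N (nat_lit 525) (L (E (nat_lit 6) (nat_lit 0xce065e32618e0c4c616) (nat_lit 0))) (N (nat_lit 526) (L (E (nat_lit 6) (nat_lit 0xcf466832b1910c6061e) (nat_lit 0))) (L (E (nat_lit 6) (nat_lit 0xcf866a32c1918c64620) (nat_lit 0)))))))) (N (nat_lit 532) (N (nat_lit 531) (N (nat_lit 530) (N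 (nat_lit 529) (N (nat_lit 528) (L (E (nat_lit 6) (nat_lit 0xd0c6843411a00cfc67c) (nat_lit 0))) (L (E (nat_lit 6) (nat_lit 0xcfc66c32d1920c68622) (nat_lit 0)))) (L (E (nat_lit 6) (nat_lit 0xd106863421a08d0067e) (nat_lit 0)))) (L (E (nat_lit 6) (nat_lit 0xd0066e32e1928c6c624) (nat_lit 0)))) (L (E (nat_lit 6) (nat_lit 0xd0467032f1930c70626) (nat_lit 0)))) (N (nat_lit 536) (N (nat_lit 533) (L (E (nat_lit 6) (nat_lit 0xd086723301938c74628) (nat_lit 0))) (N (nat_lit 534) (L (E (nat_lit 6) (nat_lit 0xd0c6743311940c7862a) (nat_lit 0))) (N (nat_lit 535) (L (E (nat_lit 6) (nat_lit 0xd1467e3361968c90634) (nat_lit 0))) (L (E (nat_lit 6) (nat_lit 0xd286923481a38d1868a) (nat_lit 0)))))) (N (nat_lit 538) (N (nat_lit 537) (L (E (nat_lit 6) (nat_lit 0xd186803371970c94636) (nat_lit 0))) (L (E (nat_lit 6) (nat_lit 0xd2c6943491a40d1c68c) (nat_lit 0)))) (L (E (nat_lit 6) (nat_lit 0xd1c6823381978c98638) (nat_lit 0))))))))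 (N (nat_lit 599) (cl10) (N (nat_lit 602) (N (nat_lit 601) (N (nat_lit 600) (L (E (nat_lit 6) (nat_lit 0xf7c7bc3dd1ee0f6c7b4) (nat_lit 0))) (L (E (nat_lit 6) (nat_lit 0x1624ae052025911007b6) (nat_lit 0)))) (L (E (nat_lit 6) (nat_lit 0x104080c3fb1f80f947b6) (nat_lit 0)))) (N (nat_lit 610) (N (nat_lit 605) (N (nat_lit 603) (L (E (nat_lit 6) (nat_lit 0xf807be3de1ee8f707b6) (nat_lit 0))) (N (nat_lit 604) (L (E (nat_lit 6) (nat_lit 0x1628ae252125991047b8) (nat_lit 0))) (L (E (nat_lit 6) (nat_lit 0xf847c03df1ef0f747b8) (nat_lit 0))))) (N (nat_lit 608) (N (nat_lit 606) (L (E (nat_lit 6) (nat_lit 0x10488103fd1f90f9c7ba) (nat_lit 0))) (N (nat_lit 607) (L (E (nat_lit 6) (nat_lit 0x104c8123fe1f98fa07bc) (nat_lit 0))) (L (E (nat_lit 6) (nat_lit 0xf9c7cc3e51f20f8c7c4) (nat_lit 0))))) (N (nat_lit 609) (L (E (nat_lit 6) (nat_lit 0x105881c4041fc8fb87c6) (nat_lit 0))) (L (E (nat_lit 6) (nat_lit 0xfa07ce3e61f28f907c6)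 (nat_lit 0)))))) (N (nat_lit 613) (N (nat_lit 612) (N (nat_lit 611) (L (E (nat_lit 6) (nat_lit 0x162cae852a25d91287c8) (nat_lit 0))) (L (E (nat_lit 6) (nat_lit 0x105c81e4051fd0fbc7c8) (nat_lit 0)))) (L (E (nat_lit 6) (nat_lit 0x10608204061fd8fc07ca) (nat_lit 0)))) (N (nat_lit 614) (L (E (nat_lit 6) (nat_lit 0xfa87d23e81f38f987ca) (nat_lit 0))) (L (E (nat_lit 6) (nat_lit 0x24e52388ac3ca97c47cc) (nat_lit 0))))))))
def cl12 : RA := N (nat_lit 646) (N (nat_lit 633) (N (nat_lit 624) (N (nat_lit 618) (N (nat_lit 616) (L (E (nat_lit 6) (nat_lit 0x10648224071fe0fc47cc) (nat_lit 0))) (N (nat_lit 617) (L (E (nat_lit 6) (nat_lit 0x1630aee531262114c7d8) (nat_lit 0))) (L (E (nat_lit 6) (nat_lit 0xfb07c43d91e80f24786) (nat_lit 0))))) (N (nat_lit 621) (N (nat_lit 620) (N (nat_lit 619) (L (E (nat_lit 6) (nat_lit 0xfb47c63da1e88f28788) (nat_lit 0))) (L (E (nat_lit 6) (nat_lit 0x107082c40e2020fe47dc) (nat_lit 0))))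 (L (E (nat_lit 6) (nat_lit 0xfcc7e43f11f80fbc7dc) (nat_lit 0)))) (N (nat_lit 623) (N (nat_lit 622) (L (E (nat_lit 6) (nat_lit 0x24e923c8af3cd97e87de) (nat_lit 0))) (L (E (nat_lit 6) (nat_lit 0x1634af253426391587de) (nat_lit 0)))) (L (E (nat_lit 6) (nat_lit 0xfbc7ca3dc1e98f3078c) (nat_lit 0)))))) (N (nat_lit 626) (N (nat_lit 625) (L (E (nat_lit 6) (nat_lit 0xfd07e63f21f88fc07de) (nat_lit 0))) (L (E (nat_lit 6) (nat_lit 0xfc07cc3dd1ea0f3478e) (nat_lit 0)))) (N (nat_lit 628) (N (nat_lit 627) (L (E (nat_lit 6) (nat_lit 0xfd47e83f31f90fc47e0) (nat_lit 0))) (L (E (nat_lit 6) (nat_lit 0xfd87ea3f41f98fc87e2) (nat_lit 0)))) (N (nat_lit 632) (N (nat_lit 630) (N (nat_lit 629) (L (E (nat_lit 6) (nat_lit 0x107c8344122040ff47e4) (nat_lit 0))) (L (E (nat_lit 6) (nat_lit 0xfdc7da3e31ed0f44794) (nat_lit 0)))) (N (nat_lit 631) (L (E (nat_lit 6) (nat_lit 0xfe04b21530500124036) (nat_lit 0))) (L (E (nat_lit 6) (nat_lit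 0x163caf853e268117c7f0) (nat_lit 0))))) (L (E (nat_lit 6) (nat_lit 0xfe07dc3e41ed8f48796) (nat_lit 0))))))) (N (nat_lit 638) (N (nat_lit 636) (N (nat_lit 634) (L (E (nat_lit 6) (nat_lit 0xff47f83fb1fd0fe47f0) (nat_lit 0))) (N (nat_lit 635) (L (E (nat_lit 6) (nat_lit 0x1640afa53f26891807f2) (nat_lit 0))) (L (E (nat_lit 6) (nat_lit 0x108083841620710107f2) (nat_lit 0))))) (N (nat_lit 637) (L (E (nat_lit 6) (nat_lit 0xfe47de3e51ee0f4c798) (nat_lit 0))) (L (E (nat_lit 6) (nat_lit 0xff87fa3fc1fd8fe87f2) (nat_lit 0))))) (N (nat_lit 640) (N (nat_lit 639) (L (E (nat_lit 6) (nat_lit 0xfe87e03e61ee8f5079a) (nat_lit 0))) (L (E (nat_lit 6) (nat_lit 0xffc7fc3fd1fe0fec7f4) (nat_lit 0)))) (N (nat_lit 645) (N (nat_lit 642) (N (nat_lit 641) (L (E (nat_lit 6) (nat_lit 0x108883a41820810187f6) (nat_lit 0))) (L (E (nat_lit 6) (nat_lit 0xfec7e23e71ef0f5479c) (nat_lit 0)))) (N (nat_lit 643) (L (E (nat_lit 6) (nat_lit 0x10007fe3fe1fe8ff07f6)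 (nat_lit 0))) (N (nat_lit 644) (L (E (nat_lit 6) (nat_lit 0x10087f03ee1f20f6c7a4) (nat_lit 0))) (L (E (nat_lit 6) (nat_lit 0x1644b0054926e11ac806) (nat_lit 0)))))) (L (E (nat_lit 6) (nat_lit 0x100c7f23ef1f28f707a6) (nat_lit 0))))))) (N (nat_lit 653) (N (nat_lit 650) (N (nat_lit 649) (N (nat_lit 647) (L (E (nat_lit 6) (nat_lit 0x102080e4062029010806) (nat_lit 0))) (N (nat_lit 648) (L (E (nat_lit 6) (nat_lit 0x1648b0254a26e91b0808) (nat_lit 0))) (L (E (nat_lit 6) (nat_lit 0x10248104072031014808) (nat_lit 0))))) (L (E (nat_lit 6) (nat_lit 0x10147f63f11f38f787aa) (nat_lit 0)))) (N (nat_lit 651) (L (E (nat_lit 6) (nat_lit 0x101c7fa3f31f48f807ae) (nat_lit 0))) (N (nat_lit 652) (L (E (nat_lit 6) (nat_lit 0x10308043f81f70f907b6) (nat_lit 0))) (L (E (nat_lit 6) (nat_lit 0x10348083fa1f80f987ba) (nat_lit 0)))))) (N (nat_lit 661) (N (nat_lit 656) (N (nat_lit 655) (N (nat_lit 654) (L (E (nat_lit 6) (nat_lit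 0x1048822410207903881a) (nat_lit 0))) (L (E (nat_lit 6) (nat_lit 0x103880a3fb1f88f9c7bc) (nat_lit 0)))) (L (E (nat_lit 6) (nat_lit 0x103c80c3fc1f90fa07be) (nat_lit 0)))) (N (nat_lit 659) (N (nat_lit 657) (L (E (nat_lit 6) (nat_lit 0x10448103fe1fa0fa87c2) (nat_lit 0))) (N (nat_lit 658) (L (E (nat_lit 6) (nat_lit 0x105081a4041fd0fc07cc) (nat_lit 0))) (L (E (nat_lit 6) (nat_lit 0x106483041720b1054828) (nat_lit 0))))) (N (nat_lit 660) (L (E (nat_lit 6) (nat_lit 0x105881e4061fe0fc87d0) (nat_lit 0))) (L (E (nat_lit 6) (nat_lit 0x106c83441920c105c82c) (nat_lit 0)))))) (N (nat_lit 663) (N (nat_lit 662) (L (E (nat_lit 6) (nat_lit 0x105c8204071fe8fcc7d2) (nat_lit 0))) (L (E (nat_lit 6) (nat_lit 0x10608224081ff0fd07d4) (nat_lit 0)))) (N (nat_lit 665) (N (nat_lit 664) (L (E (nat_lit 6) (nat_lit 0x108483a41920910247fe) (nat_lit 0))) (L (E (nat_lit 6) (nat_lit 0x108883c41a2099028800) (nat_lit 0)))) (L (E (nat_lit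 6) (nat_lit 0x1134884439217909c846) (nat_lit 0)))))))
def cl13 : RA := N (nat_lit 699) (N (nat_lit 691) (N (nat_lit 688) (N (nat_lit 682) (N (nat_lit 680) (N (nat_lit 679) (L (E (nat_lit 6) (nat_lit 0x10cc86443121810bc85c) (nat_lit 0))) (L (E (nat_lit 6) (nat_lit 0x11908b244d22110e485e) (nat_lit 0)))) (N (nat_lit 681) (L (E (nat_lit 6) (nat_lit 0x11948b444e22190e8860) (nat_lit 0))) (L (E (nat_lit 6) (nat_lit 0x11988b644f22210ec862) (nat_lit 0))))) (N (nat_lit 687) (N (nat_lit 686) (N (nat_lit 685) (N (nat_lit 683) (L (E (nat_lit 6) (nat_lit 0x119c8b845022290f0864) (nat_lit 0))) (N (nat_lit 684) (L (E (nat_lit 6) (nat_lit 0x11ac8be45422410f4868) (nat_lit 0))) (L (E (nat_lit 6) (nat_lit 0x10e487043721b10d4868) (nat_lit 0))))) (L (E (nat_lit 6) (nat_lit 0x11b08c045522490f886a) (nat_lit 0)))) (L (E (nat_lit 6) (nat_lit 0x10e887243821b90d886a) (nat_lit 0)))) (L (E (nat_lit 6) (nat_lit 0x11b48c245622510fc86c)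 (nat_lit 0))))) (N (nat_lit 690) (N (nat_lit 689) (L (E (nat_lit 6) (nat_lit 0x10ec87443921c10dc86c) (nat_lit 0))) (L (E (nat_lit 6) (nat_lit 0x10f087643a21c90e086e) (nat_lit 0)))) (L (E (nat_lit 6) (nat_lit 0x11bc8c64582261104870) (nat_lit 0))))) (N (nat_lit 697) (N (nat_lit 695) (N (nat_lit 692) (L (E (nat_lit 6) (nat_lit 0x11c08c84592269108872) (nat_lit 0))) (N (nat_lit 693) (L (E (nat_lit 6) (nat_lit 0x11c48ca45a227110c874) (nat_lit 0))) (N (nat_lit 694) (L (E (nat_lit 6) (nat_lit 0x11c88cc45b2279110876) (nat_lit 0))) (L (E (nat_lit 6) (nat_lit 0x11d48d645f22a112087a) (nat_lit 0)))))) (N (nat_lit 696) (L (E (nat_lit 6) (nat_lit 0x110888244021f90f887a) (nat_lit 0))) (L (E (nat_lit 6) (nat_lit 0x110c88444122010fc87c) (nat_lit 0))))) (N (nat_lit 698) (L (E (nat_lit 6) (nat_lit 0x11dc8da46122b112887e) (nat_lit 0))) (L (E (nat_lit 6) (nat_lit 0x11e08dc46222b912c880) (nat_lit 0)))))) (N (nat_lit 713)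 (N (nat_lit 708) (N (nat_lit 701) (N (nat_lit 700) (L (E (nat_lit 6) (nat_lit 0x11148884432211104880) (nat_lit 0))) (L (E (nat_lit 6) (nat_lit 0x11e48de46322c1130882) (nat_lit 0)))) (N (nat_lit 706) (N (nat_lit 705) (N (nat_lit 704) (N (nat_lit 703) (N (nat_lit 702) (L (E (nat_lit 6) (nat_lit 0x111888a4442219108882) (nat_lit 0))) (L (E (nat_lit 6) (nat_lit 0x11ec8e246522d1138886) (nat_lit 0)))) (L (E (nat_lit 6) (nat_lit 0x11f88e846a22f114c88e) (nat_lit 0)))) (L (E (nat_lit 6) (nat_lit 0x113089644a224912088e) (nat_lit 0)))) (L (E (nat_lit 6) (nat_lit 0x11fc8ea46b22f9150890) (nat_lit 0)))) (N (nat_lit 707) (L (E (nat_lit 6) (nat_lit 0x112087c4362169098846) (nat_lit 0))) (L (E (nat_lit 6) (nat_lit 0x113489844b2251124890) (nat_lit 0)))))) (N (nat_lit 711) (N (nat_lit 710) (N (nat_lit 709) (L (E (nat_lit 6) (nat_lit 0x12008ec46c2301154892) (nat_lit 0))) (L (E (nat_lit 6) (nat_lit 0x112487e437217109c848)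 (nat_lit 0)))) (L (E (nat_lit 6) (nat_lit 0x113889a44c2259128892) (nat_lit 0)))) (N (nat_lit 712) (L (E (nat_lit 6) (nat_lit 0x12048ee46d2309158894) (nat_lit 0))) (L (E (nat_lit 6) (nat_lit 0x113c89c44d226112c894) (nat_lit 0)))))) (N (nat_lit 726) (N (nat_lit 722) (N (nat_lit 717) (N (nat_lit 714) (L (E (nat_lit 6) (nat_lit 0x12088f046e231115c896) (nat_lit 0))) (N (nat_lit 715) (L (E (nat_lit 6) (nat_lit 0x114089e44e2269130896) (nat_lit 0))) (N (nat_lit 716) (L (E (nat_lit 6) (nat_lit 0x120c8f246f2319160898) (nat_lit 0))) (L (E (nat_lit 6) (nat_lit 0x11448a044f2271134898) (nat_lit 0)))))) (N (nat_lit 721) (N (nat_lit 719) (N (nat_lit 718) (L (E (nat_lit 6) (nat_lit 0x12108f4470232116489a) (nat_lit 0))) (L (E (nat_lit 6) (nat_lit 0x121c8fa47323491748a4) (nat_lit 0)))) (N (nat_lit 720) (L (E (nat_lit 6) (nat_lit 0x114888e43d21a90b084a) (nat_lit 0))) (L (E (nat_lit 6) (nat_lit 0x12208fc47423511788a6)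 (nat_lit 0))))) (L (E (nat_lit 6) (nat_lit 0x114c89043e21b10b484c) (nat_lit 0))))) (N (nat_lit 725) (N (nat_lit 723) (L (E (nat_lit 6) (nat_lit 0x11608ae45622a91508a6) (nat_lit 0))) (N (nat_lit 724) (L (E (nat_lit 6) (nat_lit 0x12248fe475235917c8a8) (nat_lit 0))) (L (E (nat_lit 6) (nat_lit 0x115089243f21b90b884e) (nat_lit 0))))) (L (E (nat_lit 6) (nat_lit 0x11648b045722b11548a8) (nat_lit 0))))) (N (nat_lit 728) (N (nat_lit 727) (L (E (nat_lit 6) (nat_lit 0x122890047623611808aa) (nat_lit 0))) (L (E (nat_lit 6) (nat_lit 0x115489444021c10bc850) (nat_lit 0)))) (N (nat_lit 729) (L (E (nat_lit 6) (nat_lit 0x11688b245822b91588aa) (nat_lit 0))) (N (nat_lit 730) (L (E (nat_lit 6) (nat_lit 0x122c90247723691848ac) (nat_lit 0))) (N (nat_lit 731) (L (E (nat_lit 6) (nat_lit 0x115889644121c90c0852) (nat_lit 0))) (L (E (nat_lit 6) (nat_lit 0x123090447823711888ae) (nat_lit 0)))))))))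
def cl14 : RA := N (nat_lit 776) (N (nat_lit 766) (N (nat_lit 764) (N (nat_lit 762) (N (nat_lit 761) (L (E (nat_lit 6) (nat_lit 0x11c88e247023791b88da) (nat_lit 0))) (L (E (nat_lit 6) (nat_lit 0x11b88c64592271110878) (nat_lit 0)))) (N (nat_lit 763) (L (E (nat_lit 6) (nat_lit 0x11cc8d445f22a9128880) (nat_lit 0))) (L (E (nat_lit 6) (nat_lit 0x11e08ee47623a91d08e6) (nat_lit 0))))) (N (nat_lit 765) (L (E (nat_lit 6) (nat_lit 0x11d48d846122b9130884) (nat_lit 0))) (L (E (nat_lit 6) (nat_lit 0x11e88f247823b91d88ea) (nat_lit 0))))) (N (nat_lit 768) (N (nat_lit 767) (L (E (nat_lit 6) (nat_lit 0x11d88da46222c1134886) (nat_lit 0))) (L (E (nat_lit 6) (nat_lit 0x11ec8f447923c11dc8ec) (nat_lit 0)))) (N (nat_lit 773) (N (nat_lit 769) (L (E (nat_lit 6) (nat_lit 0x11e08de46422d113c88a) (nat_lit 0))) (N (nat_lit 772) (N (nat_lit 770) (L (E (nat_lit 6) (nat_lit 0x11e48e046522d914088c) (nat_lit 0))) (N (nat_lit 771)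 (L (E (nat_lit 6) (nat_lit 0x11f08e646a22f9154894) (nat_lit 0))) (L (E (nat_lit 6) (nat_lit 0x120490047f23f11f48f8) (nat_lit 0))))) (L (E (nat_lit 6) (nat_lit 0x11f48e846b2301158896) (nat_lit 0))))) (N (nat_lit 775) (N (nat_lit 774) (L (E (nat_lit 6) (nat_lit 0x120890248023f91f88fa) (nat_lit 0))) (L (E (nat_lit 6) (nat_lit 0x11f88ea46c230915c898) (nat_lit 0)))) (L (E (nat_lit 6) (nat_lit 0x120c90448124011fc8fc) (nat_lit 0))))))) (N (nat_lit 789) (N (nat_lit 779) (N (nat_lit 778) (N (nat_lit 777) (L (E (nat_lit 6) (nat_lit 0x11fc8ec46d231116089a) (nat_lit 0))) (L (E (nat_lit 6) (nat_lit 0x121090648224092008fe) (nat_lit 0)))) (L (E (nat_lit 6) (nat_lit 0x12008ee46e231916489c) (nat_lit 0)))) (N (nat_lit 783) (N (nat_lit 781) (N (nat_lit 780) (L (E (nat_lit 6) (nat_lit 0x12149084832411204900) (nat_lit 0))) (L (E (nat_lit 6) (nat_lit 0x12048f046f232116889e) (nat_lit 0)))) (N (nat_lit 782) (L (E (nat_lit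 6) (nat_lit 0x12088f2470232916c8a0) (nat_lit 0))) (L (E (nat_lit 6) (nat_lit 0x120c8f447123311708a2) (nat_lit 0))))) (N (nat_lit 786) (N (nat_lit 784) (L (E (nat_lit 6) (nat_lit 0x12188fa47423591808ac) (nat_lit 0))) (N (nat_lit 785) (L (E (nat_lit 6) (nat_lit 0x122c914489244121c90c) (nat_lit 0))) (L (E (nat_lit 6) (nat_lit 0x12208fe47623691888b0) (nat_lit 0))))) (N (nat_lit 787) (L (E (nat_lit 6) (nat_lit 0x123491848b2451224910) (nat_lit 0))) (N (nat_lit 788) (L (E (nat_lit 6) (nat_lit 0x1224900477237118c8b2) (nat_lit 0))) (L (E (nat_lit 6) (nat_lit 0x123891a48c2459228912) (nat_lit 0)))))))) (N (nat_lit 801) (N (nat_lit 791) (N (nat_lit 790) (L (E (nat_lit 6) (nat_lit 0x122890247823791908b4) (nat_lit 0))) (L (E (nat_lit 6) (nat_lit 0x122c90447923811948b6) (nat_lit 0)))) (N (nat_lit 797) (N (nat_lit 793) (N (nat_lit 792) (L (E (nat_lit 6) (nat_lit 0x123090647a23891988b8) (nat_lit 0))) (L (E (nat_lit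 6) (nat_lit 0x123c91047f23b11b48c4) (nat_lit 0)))) (N (nat_lit 796) (N (nat_lit 794) (L (E (nat_lit 6) (nat_lit 0x1250926492248924091e) (nat_lit 0))) (N (nat_lit 795) (L (E (nat_lit 6) (nat_lit 0x124091248023b91b88c6) (nat_lit 0))) (L (E (nat_lit 6) (nat_lit 0x12445dc1af062816c03e) (nat_lit 0))))) (L (E (nat_lit 6) (nat_lit 0x124491448123c11bc8c8) (nat_lit 0))))) (N (nat_lit 800) (N (nat_lit 799) (N (nat_lit 798) (L (E (nat_lit 6) (nat_lit 0x125091a48423d91c88ce) (nat_lit 0))) (L (E (nat_lit 6) (nat_lit 0x125492648c24191e88e2) (nat_lit 0)))) (L (E (nat_lit 6) (nat_lit 0x12f89684aa251126892c) (nat_lit 0)))) (L (E (nat_lit 6) (nat_lit 0x12fc96a4ab251926c92e) (nat_lit 0)))))) (N (nat_lit 806) (N (nat_lit 805) (N (nat_lit 803) (N (nat_lit 802) (L (E (nat_lit 6) (nat_lit 0x13209784b22541280930) (nat_lit 0))) (L (E (nat_lit 6) (nat_lit 0x127493849b24d1264930) (nat_lit 0)))) (N (nat_lit 804) (L (E (nat_lit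 6) (nat_lit 0x132497a4b32549284932) (nat_lit 0))) (L (E (nat_lit 6) (nat_lit 0x132897c4b42551288934) (nat_lit 0))))) (L (E (nat_lit 6) (nat_lit 0x132c97e4b5255928c936) (nat_lit 0)))) (N (nat_lit 807) (L (E (nat_lit 6) (nat_lit 0x13309804b62561290938) (nat_lit 0))) (N (nat_lit 808) (L (E (nat_lit 6) (nat_lit 0x134498c4ba258129893c) (nat_lit 0))) (L (E (nat_lit 6) (nat_lit 0x128c9444a1250127c93c) (nat_lit 0))))))))
def cl15 : RA := N (nat_lit 828) (N (nat_lit 818) (N (nat_lit 812) (N (nat_lit 810) (L (E (nat_lit 6) (nat_lit 0x134898e4bb258929c93e) (nat_lit 0))) (N (nat_lit 811) (L (E (nat_lit 6) (nat_lit 0x12909464a2250928093e) (nat_lit 0))) (L (E (nat_lit 6) (nat_lit 0x134c9904bc25912a0940) (nat_lit 0))))) (N (nat_lit 814) (N (nat_lit 813) (L (E (nat_lit 6) (nat_lit 0x13509924bd25992a4942) (nat_lit 0))) (L (E (nat_lit 6) (nat_lit 0x13549944be25a12a8944) (nat_lit 0)))) (N (nat_lit 817) (N (nat_lit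 815) (L (E (nat_lit 6) (nat_lit 0x135c9984c025b12b0948) (nat_lit 0))) (N (nat_lit 816) (L (E (nat_lit 6) (nat_lit 0x13709a04c525c92bc94a) (nat_lit 0))) (L (E (nat_lit 6) (nat_lit 0x12a89524a8253929894a) (nat_lit 0))))) (L (E (nat_lit 6) (nat_lit 0x13749a24c625d12c094c) (nat_lit 0)))))) (N (nat_lit 822) (N (nat_lit 820) (N (nat_lit 819) (L (E (nat_lit 6) (nat_lit 0x12ac9544a9254129c94c) (nat_lit 0))) (L (E (nat_lit 6) (nat_lit 0x12b09564aa25492a094e) (nat_lit 0)))) (N (nat_lit 821) (L (E (nat_lit 6) (nat_lit 0x12b49584ab25512a4950) (nat_lit 0))) (L (E (nat_lit 6) (nat_lit 0x13809a84c925e92cc952) (nat_lit 0))))) (N (nat_lit 826) (N (nat_lit 823) (L (E (nat_lit 6) (nat_lit 0x13849aa4ca25f12d0954) (nat_lit 0))) (N (nat_lit 824) (L (E (nat_lit 6) (nat_lit 0x13889ac4cb25f92d4956) (nat_lit 0))) (N (nat_lit 825) (L (E (nat_lit 6) (nat_lit 0x13989b64cf26212e095c) (nat_lit 0))) (L (E (nat_lit 6) (nat_lit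 0x12cc9644b125812bc95c) (nat_lit 0)))))) (N (nat_lit 827) (L (E (nat_lit 6) (nat_lit 0x139c9b84d026292e495e) (nat_lit 0))) (L (E (nat_lit 6) (nat_lit 0x12d09664b225892c095e) (nat_lit 0))))))) (N (nat_lit 838) (N (nat_lit 830) (N (nat_lit 829) (L (E (nat_lit 6) (nat_lit 0x13a49bc4d226392ec962) (nat_lit 0))) (L (E (nat_lit 6) (nat_lit 0x12d896a4b425992c8962) (nat_lit 0)))) (N (nat_lit 835) (N (nat_lit 831) (L (E (nat_lit 6) (nat_lit 0x13a89be4d326412f0964) (nat_lit 0))) (N (nat_lit 834) (N (nat_lit 832) (L (E (nat_lit 6) (nat_lit 0x12dc96c4b525a12cc964) (nat_lit 0))) (N (nat_lit 833) (L (E (nat_lit 6) (nat_lit 0x13ac9c04d426492f4966) (nat_lit 0))) (L (E (nat_lit 6) (nat_lit 0x13c09cc4db2679310970) (nat_lit 0))))) (L (E (nat_lit 6) (nat_lit 0x12f49784bb25d12e4970) (nat_lit 0))))) (N (nat_lit 837) (N (nat_lit 836) (L (E (nat_lit 6) (nat_lit 0x13c49ce4dc2681314972) (nat_lit 0))) (L (E (nat_lit 6) (nat_lit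 0x12e49604a7250126492c) (nat_lit 0)))) (L (E (nat_lit 6) (nat_lit 0x12f897a4bc25d92e8972) (nat_lit 0)))))) (N (nat_lit 841) (N (nat_lit 840) (N (nat_lit 839) (L (E (nat_lit 6) (nat_lit 0x13c89d04dd2689318974) (nat_lit 0))) (L (E (nat_lit 6) (nat_lit 0x12e89624a8250926892e) (nat_lit 0)))) (L (E (nat_lit 6) (nat_lit 0x12fc97c4bd25e12ec974) (nat_lit 0)))) (N (nat_lit 845) (N (nat_lit 842) (L (E (nat_lit 6) (nat_lit 0x13cc9d24de269131c976) (nat_lit 0))) (N (nat_lit 843) (L (E (nat_lit 6) (nat_lit 0x130097e4be25e92f0976) (nat_lit 0))) (N (nat_lit 844) (L (E (nat_lit 6) (nat_lit 0x13d09d44df2699320978) (nat_lit 0))) (L (E (nat_lit 6) (nat_lit 0x13049804bf25f12f4978) (nat_lit 0)))))) (N (nat_lit 852) (N (nat_lit 848) (N (nat_lit 846) (L (E (nat_lit 6) (nat_lit 0x13d49d64e026a132497a) (nat_lit 0))) (N (nat_lit 847) (L (E (nat_lit 6) (nat_lit 0x13dc9dc4e426c9334984) (nat_lit 0))) (L (E (nat_lit 6) (nat_lit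 0x131c98c4c5262130c984) (nat_lit 0))))) (N (nat_lit 850) (N (nat_lit 849) (L (E (nat_lit 6) (nat_lit 0x13e09de4e526d1338986) (nat_lit 0))) (L (E (nat_lit 6) (nat_lit 0x130c9704af253127c930) (nat_lit 0)))) (N (nat_lit 851) (L (E (nat_lit 6) (nat_lit 0x132098e4c62629310986) (nat_lit 0))) (L (E (nat_lit 6) (nat_lit 0x13e49e04e626d933c988) (nat_lit 0)))))) (N (nat_lit 853) (L (E (nat_lit 6) (nat_lit 0x13109724b02539280932) (nat_lit 0))) (N (nat_lit 854) (L (E (nat_lit 6) (nat_lit 0x13249904c72631314988) (nat_lit 0))) (L (E (nat_lit 6) (nat_lit 0x13e89e24e726e134098a) (nat_lit 0)))))))))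
def cl16 : RA := N (nat_lit 889) (N (nat_lit 874) (N (nat_lit 862) (N (nat_lit 858) (N (nat_lit 857) (N (nat_lit 856) (L (E (nat_lit 6) (nat_lit 0x13149744b12541284934) (nat_lit 0))) (L (E (nat_lit 6) (nat_lit 0x13289924c8263931898a) (nat_lit 0)))) (L (E (nat_lit 6) (nat_lit 0x13ec9e44e826e934498c) (nat_lit 0)))) (N (nat_lit 860) (N (nat_lit 859) (L (E (nat_lit 6) (nat_lit 0x132c9944c9264131c98c) (nat_lit 0))) (L (E (nat_lit 6) (nat_lit 0x13f09e64e926f134898e) (nat_lit 0)))) (N (nat_lit 861) (L (E (nat_lit 6) (nat_lit 0x131c9784b3255128c938) (nat_lit 0))) (L (E (nat_lit 6) (nat_lit 0x13309964ca264932098e) (nat_lit 0)))))) (N (nat_lit 872) (N (nat_lit 869) (N (nat_lit 867) (N (nat_lit 864) (N (nat_lit 863) (L (E (nat_lit 6) (nat_lit 0x13f49e84ea26f934c990) (nat_lit 0))) (L (E (nat_lit 6) (nat_lit 0x132097a4b4255929093a) (nat_lit 0)))) (N (nat_lit 866) (N (nat_lit 865) (L (E (nat_lit 6) (nat_lit 0x13fc9ee4ee272136499a)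 (nat_lit 0))) (L (E (nat_lit 6) (nat_lit 0x13349864b8257929893e) (nat_lit 0)))) (L (E (nat_lit 6) (nat_lit 0x13489a24d0267933899a) (nat_lit 0))))) (N (nat_lit 868) (L (E (nat_lit 6) (nat_lit 0x14009f04ef272936899c) (nat_lit 0))) (L (E (nat_lit 6) (nat_lit 0x13389884b9258129c940) (nat_lit 0))))) (N (nat_lit 871) (N (nat_lit 870) (L (E (nat_lit 6) (nat_lit 0x134c9a44d1268133c99c) (nat_lit 0))) (L (E (nat_lit 6) (nat_lit 0x14049f24f0273136c99e) (nat_lit 0)))) (L (E (nat_lit 6) (nat_lit 0x133c98a4ba25892a0942) (nat_lit 0))))) (N (nat_lit 873) (L (E (nat_lit 6) (nat_lit 0x13509a64d2268934099e) (nat_lit 0))) (L (E (nat_lit 6) (nat_lit 0x14089f44f127393709a0) (nat_lit 0)))))) (N (nat_lit 878) (N (nat_lit 876) (N (nat_lit 875) (L (E (nat_lit 6) (nat_lit 0x134098c4bb25912a4944) (nat_lit 0))) (L (E (nat_lit 6) (nat_lit 0x140c9f64f227413749a2) (nat_lit 0)))) (N (nat_lit 877) (L (E (nat_lit 6) (nat_lit 0x134498e4bc25992a8946)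 (nat_lit 0))) (L (E (nat_lit 6) (nat_lit 0x13589aa4d426993489a2) (nat_lit 0))))) (N (nat_lit 885) (N (nat_lit 880) (N (nat_lit 879) (L (E (nat_lit 6) (nat_lit 0x134864a1ca0698170040) (nat_lit 0))) (L (E (nat_lit 6) (nat_lit 0x13489904bd25a12ac948) (nat_lit 0)))) (N (nat_lit 882) (N (nat_lit 881) (L (E (nat_lit 6) (nat_lit 0x135c9ac4d526a134c9a4) (nat_lit 0))) (L (E (nat_lit 6) (nat_lit 0x136099a4c325c12bc94c) (nat_lit 0)))) (N (nat_lit 883) (L (E (nat_lit 6) (nat_lit 0x136499c4c425c92c094e) (nat_lit 0))) (N (nat_lit 884) (L (E (nat_lit 6) (nat_lit 0x13789ba4dc26d93689b2) (nat_lit 0))) (L (E (nat_lit 6) (nat_lit 0x1414a004f827793949b4) (nat_lit 0))))))) (N (nat_lit 887) (N (nat_lit 886) (L (E (nat_lit 6) (nat_lit 0x136899e4c525d12c4950) (nat_lit 0))) (L (E (nat_lit 6) (nat_lit 0x137c9bc4dd26e136c9b4) (nat_lit 0)))) (N (nat_lit 888) (L (E (nat_lit 6) (nat_lit 0x1418a024f927813989b6) (nat_lit 0)))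 (L (E (nat_lit 6) (nat_lit 0x136c9a04c625d92c8952) (nat_lit 0)))))))) (N (nat_lit 898) (N (nat_lit 891) (N (nat_lit 890) (L (E (nat_lit 6) (nat_lit 0x13809be4de26e93709b6) (nat_lit 0))) (L (E (nat_lit 6) (nat_lit 0x13709a24c725e12cc954) (nat_lit 0)))) (N (nat_lit 893) (N (nat_lit 892) (L (E (nat_lit 6) (nat_lit 0x13849c04df26f13749b8) (nat_lit 0))) (L (E (nat_lit 6) (nat_lit 0x13749a44c825e92d0956) (nat_lit 0)))) (N (nat_lit 895) (N (nat_lit 894) (L (E (nat_lit 6) (nat_lit 0x13889c24e026f93789ba) (nat_lit 0))) (L (E (nat_lit 6) (nat_lit 0x13789a64c925f12d4958) (nat_lit 0)))) (N (nat_lit 896) (L (E (nat_lit 6) (nat_lit 0x137c9a84ca25f92d895a) (nat_lit 0))) (N (nat_lit 897) (L (E (nat_lit 6) (nat_lit 0x138c9b24ce26212e4960) (nat_lit 0))) (L (E (nat_lit 6) (nat_lit 0x13a09ce4e627293909c6) (nat_lit 0)))))))) (N (nat_lit 903) (N (nat_lit 901) (N (nat_lit 900) (N (nat_lit 899) (L (E (nat_lit 6) (nat_lit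 0x13949b64d026312ec964) (nat_lit 0))) (L (E (nat_lit 6) (nat_lit 0x13a89d24e827393989ca) (nat_lit 0)))) (L (E (nat_lit 6) (nat_lit 0x139c9ba4d226412f4968) (nat_lit 0)))) (N (nat_lit 902) (L (E (nat_lit 6) (nat_lit 0x13b09d64ea27493a09ce) (nat_lit 0))) (L (E (nat_lit 6) (nat_lit 0x13a09bc4d326492f896a) (nat_lit 0))))) (N (nat_lit 910) (N (nat_lit 908) (N (nat_lit 905) (N (nat_lit 904) (L (E (nat_lit 6) (nat_lit 0x13a89c04d5265930096e) (nat_lit 0))) (L (E (nat_lit 6) (nat_lit 0x13b49c84da2679314974) (nat_lit 0)))) (N (nat_lit 907) (N (nat_lit 906) (L (E (nat_lit 6) (nat_lit 0x13c89e24f027793b89da) (nat_lit 0))) (L (E (nat_lit 6) (nat_lit 0x13b89ca4db2681318976) (nat_lit 0)))) (L (E (nat_lit 6) (nat_lit 0x13cc9e44f127813bc9dc) (nat_lit 0))))) (N (nat_lit 909) (L (E (nat_lit 6) (nat_lit 0x13bc9cc4dc268931c978) (nat_lit 0))) (L (E (nat_lit 6) (nat_lit 0x13d09e64f227893c09de) (nat_lit 0))))) (N (nat_lit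 912) (N (nat_lit 911) (L (E (nat_lit 6) (nat_lit 0x13c09ce4dd269132097a) (nat_lit 0))) (L (E (nat_lit 6) (nat_lit 0x13d49e84f327913c49e0) (nat_lit 0)))) (L (E (nat_lit 6) (nat_lit 0x13c49d04de269932497c) (nat_lit 0)))))))
def cl17 : RA := N (nat_lit 928) (N (nat_lit 919) (N (nat_lit 914) (L (E (nat_lit 6) (nat_lit 0x13c89d24df26a132897e) (nat_lit 0))) (N (nat_lit 917) (N (nat_lit 915) (L (E (nat_lit 6) (nat_lit 0x13d09d64e126b1330982) (nat_lit 0))) (N (nat_lit 916) (L (E (nat_lit 6) (nat_lit 0x13ec9f44f927c13dc9ec) (nat_lit 0))) (L (E (nat_lit 6) (nat_lit 0x13dc9de4e626e134498e) (nat_lit 0))))) (N (nat_lit 918) (L (E (nat_lit 6) (nat_lit 0x13f09f64fa27c93e09ee) (nat_lit 0))) (L (E (nat_lit 6) (nat_lit 0x13f49f84fb27d13e49f0) (nat_lit 0)))))) (N (nat_lit 922) (N (nat_lit 920) (L (E (nat_lit 6) (nat_lit 0x13e49e24e826f134c992) (nat_lit 0))) (N (nat_lit 921) (L (E (nat_lit 6) (nat_lit 0x13e89e44e926f9350994)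 (nat_lit 0))) (L (E (nat_lit 6) (nat_lit 0x13ec9e64ea2701354996) (nat_lit 0))))) (N (nat_lit 923) (L (E (nat_lit 6) (nat_lit 0x13f09e84eb2709358998) (nat_lit 0))) (N (nat_lit 926) (N (nat_lit 925) (N (nat_lit 924) (L (E (nat_lit 6) (nat_lit 0x140ca0450128013fc9fc) (nat_lit 0))) (L (E (nat_lit 6) (nat_lit 0x13fc9f04f027393749a4) (nat_lit 0)))) (L (E (nat_lit 6) (nat_lit 0x1410a0650228094009fe) (nat_lit 0)))) (N (nat_lit 927) (L (E (nat_lit 6) (nat_lit 0x14009f24f127413789a6) (nat_lit 0))) (L (E (nat_lit 6) (nat_lit 0x14049f44f2274937c9a8) (nat_lit 0)))))))) (N (nat_lit 944) (N (nat_lit 939) (N (nat_lit 933) (N (nat_lit 930) (N (nat_lit 929) (L (E (nat_lit 6) (nat_lit 0x14089f64f327513809aa) (nat_lit 0))) (L (E (nat_lit 6) (nat_lit 0x14109fa4f527613889ae) (nat_lit 0)))) (N (nat_lit 932) (N (nat_lit 931) (L (E (nat_lit 6) (nat_lit 0x1414a024fa27913a49be) (nat_lit 0))) (L (E (nat_lit 6) (nat_lit 0x1418a044fb27993a89c0)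 (nat_lit 0)))) (L (E (nat_lit 6) (nat_lit 0x14d4a5652028a9430a0e) (nat_lit 0))))) (N (nat_lit 937) (N (nat_lit 935) (N (nat_lit 934) (L (E (nat_lit 6) (nat_lit 0x14d8a5852128b1434a10) (nat_lit 0))) (L (E (nat_lit 6) (nat_lit 0x14dca5a52228b9438a12) (nat_lit 0)))) (N (nat_lit 936) (L (E (nat_lit 6) (nat_lit 0x143ca1c50d286142ca14) (nat_lit 0))) (L (E (nat_lit 6) (nat_lit 0x1500a6852a28f9450a16) (nat_lit 0))))) (N (nat_lit 938) (L (E (nat_lit 6) (nat_lit 0x1440a1e50e2869430a16) (nat_lit 0))) (L (E (nat_lit 6) (nat_lit 0x1504a6a52b2901454a18) (nat_lit 0)))))) (N (nat_lit 942) (N (nat_lit 940) (L (E (nat_lit 6) (nat_lit 0x150ca6e52d291145ca1c) (nat_lit 0))) (N (nat_lit 941) (L (E (nat_lit 6) (nat_lit 0x1510a7052e2919460a1e) (nat_lit 0))) (L (E (nat_lit 6) (nat_lit 0x1458a2a5142899448a22) (nat_lit 0))))) (N (nat_lit 943) (L (E (nat_lit 6) (nat_lit 0x1528a7e5332949478a26) (nat_lit 0))) (L (E (nat_lit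 6) (nat_lit 0x1460a2e51628a9450a26) (nat_lit 0)))))) (N (nat_lit 948) (N (nat_lit 946) (N (nat_lit 945) (L (E (nat_lit 6) (nat_lit 0x152ca80534295147ca28) (nat_lit 0))) (L (E (nat_lit 6) (nat_lit 0x1464a3051728b1454a28) (nat_lit 0)))) (N (nat_lit 947) (L (E (nat_lit 6) (nat_lit 0x1530a825352959480a2a) (nat_lit 0))) (L (E (nat_lit 6) (nat_lit 0x1468a3251828b9458a2a) (nat_lit 0))))) (N (nat_lit 952) (N (nat_lit 951) (N (nat_lit 949) (L (E (nat_lit 6) (nat_lit 0x1534a845362961484a2c) (nat_lit 0))) (N (nat_lit 950) (L (E (nat_lit 6) (nat_lit 0x1538a865372969488a2e) (nat_lit 0))) (L (E (nat_lit 6) (nat_lit 0x1480a3e51e28e9470a36) (nat_lit 0))))) (L (E (nat_lit 6) (nat_lit 0x1548a9053d298949ca38) (nat_lit 0)))) (L (E (nat_lit 6) (nat_lit 0x1484a4051f28f1474a38) (nat_lit 0))))))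
def cl18 : RA := N (nat_lit 1036) (N (nat_lit 1018) (N (nat_lit 1017) (N (nat_lit 1015) (L (E (nat_lit 6) (nat_lit 0x1570aa854b2a094d8a5a) (nat_lit 0))) (N (nat_lit 1016) (L (E (nat_lit 6) (nat_lit 0x1594ac85632b11584ac0) (nat_lit 0))) (L (E (nat_lit 6) (nat_lit 0x1584ab65532a51500a6a) (nat_lit 0))))) (L (E (nat_lit 6) (nat_lit 0x158caba5552a61508a6e) (nat_lit 0)))) (N (nat_lit 1028) (N (nat_lit 1022) (N (nat_lit 1020) (N (nat_lit 1019) (L (E (nat_lit 6) (nat_lit 0x1594abe5572a71510a72) (nat_lit 0))) (L (E (nat_lit 6) (nat_lit 0x1598ac255b2a99528a80) (nat_lit 0)))) (N (nat_lit 1021) (L (E (nat_lit 6) (nat_lit 0x159cac455c2aa152ca82) (nat_lit 0))) (L (E (nat_lit 6) (nat_lit 0x1bb8d286372e99688b2a) (nat_lit 0))))) (N (nat_lit 1025) (N (nat_lit 1023) (L (E (nat_lit 6) (nat_lit 0x1bc8d4c6462f31690b2c) (nat_lit 0))) (N (nat_lit 1024) (L (E (nat_lit 6) (nat_lit 0x25052628fe43a1d00b2e) (nat_lit 0))) (L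 (E (nat_lit 6) (nat_lit 0x1bccd4e6472f39694b2e) (nat_lit 0))))) (N (nat_lit 1026) (L (E (nat_lit 6) (nat_lit 0x1bd8d5e64f2f796a4b30) (nat_lit 0))) (N (nat_lit 1027) (L (E (nat_lit 6) (nat_lit 0x1bdcd606502f816a8b32) (nat_lit 0))) (L (E (nat_lit 6) (nat_lit 0x1be8d666532f996b4b36) (nat_lit 0))))))) (N (nat_lit 1034) (N (nat_lit 1032) (N (nat_lit 1030) (N (nat_lit 1029) (L (E (nat_lit 6) (nat_lit 0x1c00d7c65c2fe96ccb3a) (nat_lit 0))) (L (E (nat_lit 6) (nat_lit 0x1c04d7e65d2ff16d0b3c) (nat_lit 0)))) (N (nat_lit 1031) (L (E (nat_lit 6) (nat_lit 0x1c18d9066530296e0b3e) (nat_lit 0))) (L (E (nat_lit 6) (nat_lit 0x1c20d9466730396e4b40) (nat_lit 0))))) (N (nat_lit 1033) (L (E (nat_lit 6) (nat_lit 0x1c38da666e30896f4b42) (nat_lit 0))) (L (E (nat_lit 6) (nat_lit 0x1c68de06a43221790b46) (nat_lit 0))))) (N (nat_lit 1035) (L (E (nat_lit 6) (nat_lit 0x1704b785b72d816a4b46) (nat_lit 0))) (L (E (nat_lit 6) (nat_lit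 0x16907b82430a0024807e) (nat_lit 0))))))) (N (nat_lit 1048) (N (nat_lit 1041) (N (nat_lit 1037) (L (E (nat_lit 6) (nat_lit 0x1c6cde46a63231798b48) (nat_lit 0))) (N (nat_lit 1038) (L (E (nat_lit 6) (nat_lit 0x1c70de66a7323979cb4a) (nat_lit 0))) (N (nat_lit 1039) (L (E (nat_lit 6) (nat_lit 0x1c74de86ad32697b4b4e) (nat_lit 0))) (N (nat_lit 1040) (L (E (nat_lit 6) (nat_lit 0x251526a9064431d74b52) (nat_lit 0))) (L (E (nat_lit 6) (nat_lit 0x16a47c82490a30254080) (nat_lit 0))))))) (N (nat_lit 1045) (N (nat_lit 1042) (L (E (nat_lit 6) (nat_lit 0x1c78dec6af32797bcb52) (nat_lit 0))) (N (nat_lit 1044) (N (nat_lit 1043) (L (E (nat_lit 6) (nat_lit 0x16a87ca24a0a38258082) (nat_lit 0))) (L (E (nat_lit 6) (nat_lit 0x1c7cdee6b032817c0b54) (nat_lit 0)))) (L (E (nat_lit 6) (nat_lit 0x16ac7cc24b0a4025c084) (nat_lit 0))))) (N (nat_lit 1046) (L (E (nat_lit 6) (nat_lit 0x16b07ce24c0a48260086) (nat_lit 0))) (N (nat_lit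 1047) (L (E (nat_lit 6) (nat_lit 0x1c80df26b232917c8b58) (nat_lit 0))) (L (E (nat_lit 6) (nat_lit 0x1c84df46b332997ccb5a) (nat_lit 0))))))) (N (nat_lit 1057) (N (nat_lit 1053) (N (nat_lit 1050) (N (nat_lit 1049) (L (E (nat_lit 6) (nat_lit 0x1c88df66b932c17e0b5c) (nat_lit 0))) (L (E (nat_lit 6) (nat_lit 0x1c8cdf86ba32c97e4b5e) (nat_lit 0)))) (N (nat_lit 1051) (L (E (nat_lit 6) (nat_lit 0x16c07de2520a6826c08a) (nat_lit 0))) (N (nat_lit 1052) (L (E (nat_lit 6) (nat_lit 0x1c90dfc6bc32d17ecb62) (nat_lit 0))) (L (E (nat_lit 6) (nat_lit 0x16c87e22540a7827408e) (nat_lit 0)))))) (N (nat_lit 1055) (N (nat_lit 1054) (L (E (nat_lit 6) (nat_lit 0x1c94dfe6bd32d97f0b64) (nat_lit 0))) (L (E (nat_lit 6) (nat_lit 0x16cc7e42550a80278090) (nat_lit 0)))) (N (nat_lit 1056) (L (E (nat_lit 6) (nat_lit 0x1c98e086c6331980cb6c) (nat_lit 0))) (L (E (nat_lit 6) (nat_lit 0x16dc7f425b0aa8284094) (nat_lit 0)))))) (N (nat_lit 1061)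 (N (nat_lit 1059) (N (nat_lit 1058) (L (E (nat_lit 6) (nat_lit 0x1c9ce0a6c73321810b6e) (nat_lit 0))) (L (E (nat_lit 6) (nat_lit 0x1ca0e0c6c83329814b70) (nat_lit 0)))) (N (nat_lit 1060) (L (E (nat_lit 6) (nat_lit 0x1ca4e106ca333981cb72) (nat_lit 0))) (L (E (nat_lit 6) (nat_lit 0x16ec8062640ae0294096) (nat_lit 0))))) (N (nat_lit 1063) (N (nat_lit 1062) (L (E (nat_lit 6) (nat_lit 0x1cace146cf3359834b76) (nat_lit 0))) (L (E (nat_lit 6) (nat_lit 0x16f080a2660af029809a) (nat_lit 0)))) (L (E (nat_lit 6) (nat_lit 0x16f480e2680b002a009c) (nat_lit 0)))))))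
def cl19 : RA := N (nat_lit 1090) (N (nat_lit 1083) (N (nat_lit 1078) (N (nat_lit 1076) (N (nat_lit 1070) (N (nat_lit 1067) (N (nat_lit 1066) (N (nat_lit 1065) (L (E (nat_lit 6) (nat_lit 0x16f8b765b62d816a8b48) (nat_lit 0))) (L (E (nat_lit 6) (nat_lit 0x16fc81a26e0b202a409e) (nat_lit 0)))) (L (E (nat_lit 6) (nat_lit 0x170081c26f0b282a80a0) (nat_lit 0)))) (N (nat_lit 1069) (N (nat_lit 1068) (L (E (nat_lit 6) (nat_lit 0x1cb8e226d933a185cb80) (nat_lit 0))) (L (E (nat_lit 6) (nat_lit 0x17088222720b402b00a2) (nat_lit 0)))) (L (E (nat_lit 6) (nat_lit 0x170c8282750b682b40a4) (nat_lit 0))))) (N (nat_lit 1074) (N (nat_lit 1072) (N (nat_lit 1071) (L (E (nat_lit 6) (nat_lit 0x1cbce286e133d187cb86) (nat_lit 0))) (L (E (nat_lit 6) (nat_lit 0x1cc0e2a6e233d9880b88) (nat_lit 0)))) (N (nat_lit 1073) (L (E (nat_lit 6) (nat_lit 0x17ccbd05dd2e9972cb8a) (nat_lit 0))) (L (E (nat_lit 6) (nat_lit 0x1734b985cb2e51724b90)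 (nat_lit 0))))) (N (nat_lit 1075) (L (E (nat_lit 6) (nat_lit 0x17f0be25e62ed9744b92) (nat_lit 0))) (L (E (nat_lit 6) (nat_lit 0x17f4be45e72ee1748b94) (nat_lit 0)))))) (N (nat_lit 1077) (L (E (nat_lit 6) (nat_lit 0x17fcbe85e92ef1750b98) (nat_lit 0))) (L (E (nat_lit 6) (nat_lit 0x1800bea5ea2ef9754b9a) (nat_lit 0))))) (N (nat_lit 1080) (N (nat_lit 1079) (L (E (nat_lit 6) (nat_lit 0x180cbf25ee2f19760b9c) (nat_lit 0))) (L (E (nat_lit 6) (nat_lit 0x1810bf45ef2f21764b9e) (nat_lit 0)))) (N (nat_lit 1081) (L (E (nat_lit 6) (nat_lit 0x1750ba65d22e89740b9e) (nat_lit 0))) (N (nat_lit 1082) (L (E (nat_lit 6) (nat_lit 0x1814bf65f02f29768ba0) (nat_lit 0))) (L (E (nat_lit 6) (nat_lit 0x1818bf85f12f3176cba2) (nat_lit 0))))))) (N (nat_lit 1089) (N (nat_lit 1087) (N (nat_lit 1085) (N (nat_lit 1084) (L (E (nat_lit 6) (nat_lit 0x1758baa5d42e99748ba2) (nat_lit 0))) (L (E (nat_lit 6) (nat_lit 0x181cbfa5f22f39770ba4) (nat_lit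 0)))) (N (nat_lit 1086) (L (E (nat_lit 6) (nat_lit 0x175cbac5d52ea174cba4) (nat_lit 0))) (L (E (nat_lit 6) (nat_lit 0x1820bfc5f32f41774ba6) (nat_lit 0))))) (N (nat_lit 1088) (L (E (nat_lit 6) (nat_lit 0x1828c005f52f5177cbaa) (nat_lit 0))) (L (E (nat_lit 6) (nat_lit 0x1774bb85db2ed1764bb0) (nat_lit 0))))) (L (E (nat_lit 6) (nat_lit 0x1778bba5dc2ed9768bb2) (nat_lit 0))))) (N (nat_lit 1099) (N (nat_lit 1093) (N (nat_lit 1091) (L (E (nat_lit 6) (nat_lit 0x1840c0a5fb2f81794bb4) (nat_lit 0))) (N (nat_lit 1092) (L (E (nat_lit 6) (nat_lit 0x177cbbc5dd2ee176cbb4) (nat_lit 0))) (L (E (nat_lit 6) (nat_lit 0x1844c0c5fc2f89798bb6) (nat_lit 0))))) (N (nat_lit 1098) (N (nat_lit 1095) (N (nat_lit 1094) (L (E (nat_lit 6) (nat_lit 0x1848c0e5fd2f9179cbb8) (nat_lit 0))) (L (E (nat_lit 6) (nat_lit 0x1784bc05df2ef1774bb8) (nat_lit 0)))) (N (nat_lit 1096) (L (E (nat_lit 6) (nat_lit 0x184cc105fe2f997a0bba) (nat_lit 0)))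 (N (nat_lit 1097) (L (E (nat_lit 6) (nat_lit 0x1858c1a6022fc17b4bc4) (nat_lit 0))) (L (E (nat_lit 6) (nat_lit 0x179cbcc5e52f2178cbc4) (nat_lit 0)))))) (L (E (nat_lit 6) (nat_lit 0x1860c1e6042fd17bcbc8) (nat_lit 0))))) (N (nat_lit 1107) (N (nat_lit 1102) (N (nat_lit 1100) (L (E (nat_lit 6) (nat_lit 0x17a4bd05e72f31794bc8) (nat_lit 0))) (N (nat_lit 1101) (L (E (nat_lit 6) (nat_lit 0x17a8bd25e82f39798bca) (nat_lit 0))) (L (E (nat_lit 6) (nat_lit 0x1cc4e386f3353991cbce) (nat_lit 0))))) (N (nat_lit 1105) (N (nat_lit 1104) (N (nat_lit 1103) (L (E (nat_lit 6) (nat_lit 0x187cc2a60c30097dcbd8) (nat_lit 0))) (L (E (nat_lit 6) (nat_lit 0x1880c2c60d30117e0bda) (nat_lit 0)))) (L (E (nat_lit 6) (nat_lit 0x1884c2e60e30197e4bdc) (nat_lit 0)))) (N (nat_lit 1106) (L (E (nat_lit 6) (nat_lit 0x17ccbe45f12f817bcbdc) (nat_lit 0))) (L (E (nat_lit 6) (nat_lit 0x1cc8e3c6f6357993cbde) (nat_lit 0)))))) (N (nat_lit 1109) (N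 (nat_lit 1108) (L (E (nat_lit 6) (nat_lit 0x1888c3060f30217e8bde) (nat_lit 0))) (L (E (nat_lit 6) (nat_lit 0x17bcbca5db2e9172cb8c) (nat_lit 0)))) (N (nat_lit 1112) (N (nat_lit 1110) (L (E (nat_lit 6) (nat_lit 0x17d0be65f22f897c0bde) (nat_lit 0))) (N (nat_lit 1111) (L (E (nat_lit 6) (nat_lit 0x188cc3261030297ecbe0) (nat_lit 0))) (L (E (nat_lit 6) (nat_lit 0x17d4be85f32f917c4be0) (nat_lit 0))))) (N (nat_lit 1114) (N (nat_lit 1113) (L (E (nat_lit 6) (nat_lit 0x17c4bce5dd2ea1734b8e) (nat_lit 0))) (L (E (nat_lit 6) (nat_lit 0x1894c3661230397f4be4) (nat_lit 0)))) (N (nat_lit 1116) (N (nat_lit 1115) (L (E (nat_lit 6) (nat_lit 0x17f0bf65fa2fc97e0bee) (nat_lit 0))) (L (E (nat_lit 6) (nat_lit 0x1898c406163069808bf0) (nat_lit 0)))) (L (E (nat_lit 6) (nat_lit 0x17e0bdc5e42ed1744b94) (nat_lit 0)))))))))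
def cl20 : RA := N (nat_lit 1138) (N (nat_lit 1127) (N (nat_lit 1122) (N (nat_lit 1120) (N (nat_lit 1119) (N (nat_lit 1118) (L (E (nat_lit 6) (nat_lit 0x17f4bf85fb2fd17e4bf0) (nat_lit 0))) (L (E (nat_lit 6) (nat_lit 0x1ccce466fc35d1964bf2) (nat_lit 0)))) (L (E (nat_lit 6) (nat_lit 0x17e4bde5e52ed9748b96) (nat_lit 0)))) (N (nat_lit 1121) (L (E (nat_lit 6) (nat_lit 0x17f8bfa5fc2fd97e8bf2) (nat_lit 0))) (L (E (nat_lit 6) (nat_lit 0x18a0c446183079810bf4) (nat_lit 0))))) (N (nat_lit 1123) (L (E (nat_lit 6) (nat_lit 0x17e8be05e62ee174cb98) (nat_lit 0))) (N (nat_lit 1124) (L (E (nat_lit 6) (nat_lit 0x17fcbfc5fd2fe17ecbf4) (nat_lit 0))) (N (nat_lit 1125) (L (E (nat_lit 6) (nat_lit 0x17ec8ae2b70c482dc0aa) (nat_lit 0))) (N (nat_lit 1126) (L (E (nat_lit 6) (nat_lit 0x18a4c466193081814bf6) (nat_lit 0))) (L (E (nat_lit 6) (nat_lit 0x1cd4e4a6ff35e996cbf8) (nat_lit 0)))))))) (N (nat_lit 1129) (N (nat_lit 1128)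 (L (E (nat_lit 6) (nat_lit 0x18a8c4861a3089818bf8) (nat_lit 0))) (L (E (nat_lit 6) (nat_lit 0x180cbf45f02f31770ba6) (nat_lit 0)))) (N (nat_lit 1133) (N (nat_lit 1131) (N (nat_lit 1130) (L (E (nat_lit 6) (nat_lit 0x1820c0e6063029810c06) (nat_lit 0))) (L (E (nat_lit 6) (nat_lit 0x18108c22c00c782e00ae) (nat_lit 0)))) (N (nat_lit 1132) (L (E (nat_lit 6) (nat_lit 0x1810bf65f12f39774ba8) (nat_lit 0))) (L (E (nat_lit 6) (nat_lit 0x1824c106073031814c08) (nat_lit 0))))) (N (nat_lit 1134) (L (E (nat_lit 6) (nat_lit 0x1814bf85f22f41778baa) (nat_lit 0))) (N (nat_lit 1135) (L (E (nat_lit 6) (nat_lit 0x1818bfa5f32f4977cbac) (nat_lit 0))) (N (nat_lit 1137) (N (nat_lit 1136) (L (E (nat_lit 6) (nat_lit 0x182cc025f82f71790bb4) (nat_lit 0))) (L (E (nat_lit 6) (nat_lit 0x18308d42c80ca02ec0b0) (nat_lit 0)))) (L (E (nat_lit 6) (nat_lit 0x1830c045f92f79794bb6) (nat_lit 0))))))))) (N (nat_lit 1150) (N (nat_lit 1144) (N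 (nat_lit 1140) (N (nat_lit 1139) (L (E (nat_lit 6) (nat_lit 0x1844c2060f3071834c18) (nat_lit 0))) (L (E (nat_lit 6) (nat_lit 0x1834c065fa2f81798bb8) (nat_lit 0)))) (N (nat_lit 1142) (N (nat_lit 1141) (L (E (nat_lit 6) (nat_lit 0x1848c226103079838c1a) (nat_lit 0))) (L (E (nat_lit 6) (nat_lit 0x184cc24611308183cc1c) (nat_lit 0)))) (N (nat_lit 1143) (L (E (nat_lit 6) (nat_lit 0x183c8da2cb0cb82f80b2) (nat_lit 0))) (L (E (nat_lit 6) (nat_lit 0x1840c0c5fd2f997a4bbe) (nat_lit 0)))))) (N (nat_lit 1148) (N (nat_lit 1147) (N (nat_lit 1146) (N (nat_lit 1145) (L (E (nat_lit 6) (nat_lit 0x1848c105ff2fa97acbc2) (nat_lit 0))) (L (E (nat_lit 6) (nat_lit 0x1cdce5a70f36b19c4c28) (nat_lit 0)))) (L (E (nat_lit 6) (nat_lit 0x1850c186022fc97bcbca) (nat_lit 0)))) (L (E (nat_lit 6) (nat_lit 0x1858c1c6042fd97c4bce) (nat_lit 0)))) (N (nat_lit 1149) (L (E (nat_lit 6) (nat_lit 0x186cc3461930c185cc2c) (nat_lit 0))) (L (E (nat_lit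 6) (nat_lit 0x185cc1e6052fe17c8bd0) (nat_lit 0)))))) (N (nat_lit 1162) (N (nat_lit 1153) (N (nat_lit 1152) (N (nat_lit 1151) (L (E (nat_lit 6) (nat_lit 0x1870c3661a30c9860c2e) (nat_lit 0))) (L (E (nat_lit 6) (nat_lit 0x1860c206062fe97ccbd2) (nat_lit 0)))) (L (E (nat_lit 6) (nat_lit 0x1874c3861b30d1864c30) (nat_lit 0)))) (N (nat_lit 1158) (N (nat_lit 1154) (L (E (nat_lit 6) (nat_lit 0x1864c226072ff17d0bd4) (nat_lit 0))) (N (nat_lit 1156) (N (nat_lit 1155) (L (E (nat_lit 6) (nat_lit 0x1868c246082ff97d4bd6) (nat_lit 0))) (L (E (nat_lit 6) (nat_lit 0x18788fa2db0d103040b4) (nat_lit 0)))) (N (nat_lit 1157) (L (E (nat_lit 6) (nat_lit 0x188cc44621310187cc3c) (nat_lit 0))) (L (E (nat_lit 6) (nat_lit 0x187cc2c60e30217ecbe2) (nat_lit 0)))))) (N (nat_lit 1161) (N (nat_lit 1160) (N (nat_lit 1159) (L (E (nat_lit 6) (nat_lit 0x1890c466223109880c3e) (nat_lit 0))) (L (E (nat_lit 6) (nat_lit 0x1894c486233111884c40)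 (nat_lit 0)))) (L (E (nat_lit 6) (nat_lit 0x1888c3261130397f8be8) (nat_lit 0)))) (L (E (nat_lit 6) (nat_lit 0x188cc3461230417fcbea) (nat_lit 0)))))) (N (nat_lit 1164) (N (nat_lit 1163) (L (E (nat_lit 6) (nat_lit 0x1890c366133049800bec) (nat_lit 0))) (L (E (nat_lit 6) (nat_lit 0x189cc44619308981cbfc) (nat_lit 0)))) (L (E (nat_lit 6) (nat_lit 0x18c0c5e62e31698b0c56) (nat_lit 0))))))
def cl21 : RA := N (nat_lit 986) (N (nat_lit 953) (cl17) (N (nat_lit 963) (N (nat_lit 955) (N (nat_lit 954) (L (E (nat_lit 6) (nat_lit 0x154ca9253e29914a0a3a) (nat_lit 0))) (L (E (nat_lit 6) (nat_lit 0x1488a4252028f9478a3a) (nat_lit 0)))) (N (nat_lit 959) (N (nat_lit 956) (L (E (nat_lit 6) (nat_lit 0x148ca44521290147ca3c) (nat_lit 0))) (N (nat_lit 957) (L (E (nat_lit 6) (nat_lit 0x1554a9654029a14a8a3e) (nat_lit 0))) (N (nat_lit 958) (L (E (nat_lit 6) (nat_lit 0x155ca9a54229b14b0a42) (nat_lit 0))) (L (E (nat_lit 6) (nat_lit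 0x1564aa054629d94bca4a) (nat_lit 0)))))) (N (nat_lit 962) (N (nat_lit 960) (L (E (nat_lit 6) (nat_lit 0x1568aa254729e14c0a4c) (nat_lit 0))) (N (nat_lit 961) (L (E (nat_lit 6) (nat_lit 0x14aca54529294149ca4c) (nat_lit 0))) (L (E (nat_lit 6) (nat_lit 0x156caa454829e94c4a4e) (nat_lit 0))))) (L (E (nat_lit 6) (nat_lit 0x1570aa654929f14c8a50) (nat_lit 0)))))) (N (nat_lit 975) (N (nat_lit 967) (N (nat_lit 965) (N (nat_lit 964) (L (E (nat_lit 6) (nat_lit 0x14b4a5852b29514a4a50) (nat_lit 0))) (L (E (nat_lit 6) (nat_lit 0x1574aa854a29f94cca52) (nat_lit 0)))) (N (nat_lit 966) (L (E (nat_lit 6) (nat_lit 0x14b8a5a52c29594a8a52) (nat_lit 0))) (L (E (nat_lit 6) (nat_lit 0x1578aaa54b2a014d0a54) (nat_lit 0))))) (N (nat_lit 972) (N (nat_lit 971) (N (nat_lit 968) (L (E (nat_lit 6) (nat_lit 0x157caac54c2a094d4a56) (nat_lit 0))) (N (nat_lit 970) (N (nat_lit 969) (L (E (nat_lit 6) (nat_lit 0x14d0a6653229894c0a5e) (nat_lit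 0))) (L (E (nat_lit 6) (nat_lit 0x14c0a4e51d289942ca0e) (nat_lit 0)))) (L (E (nat_lit 6) (nat_lit 0x14c4a5051e28a1430a10) (nat_lit 0))))) (L (E (nat_lit 6) (nat_lit 0x14d8a6a53429994c8a62) (nat_lit 0)))) (N (nat_lit 974) (N (nat_lit 973) (L (E (nat_lit 6) (nat_lit 0x158cab85532a494f8a64) (nat_lit 0))) (L (E (nat_lit 6) (nat_lit 0x14c8a5251f28a9434a12) (nat_lit 0)))) (L (E (nat_lit 6) (nat_lit 0x14dca6c53529a14cca64) (nat_lit 0)))))) (N (nat_lit 980) (N (nat_lit 979) (N (nat_lit 978) (N (nat_lit 976) (L (E (nat_lit 6) (nat_lit 0x1590aba5542a514fca66) (nat_lit 0))) (N (nat_lit 977) (L (E (nat_lit 6) (nat_lit 0x14e0a6e53629a94d0a66) (nat_lit 0))) (L (E (nat_lit 6) (nat_lit 0x14e8a5e52628e1448a14) (nat_lit 0))))) (L (E (nat_lit 6) (nat_lit 0x14eca6052728e944ca16) (nat_lit 0)))) (L (E (nat_lit 6) (nat_lit 0x1500a7e53e29e94f0a76) (nat_lit 0)))) (N (nat_lit 983) (N (nat_lit 982) (N (nat_lit 981) (L (E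 (nat_lit 6) (nat_lit 0x159cac255a2a8951ca78) (nat_lit 0))) (L (E (nat_lit 6) (nat_lit 0x14f0a6252828f1450a18) (nat_lit 0)))) (L (E (nat_lit 6) (nat_lit 0x1504a8053f29f14f4a78) (nat_lit 0)))) (N (nat_lit 984) (L (E (nat_lit 6) (nat_lit 0x14f4a6452928f9454a1a) (nat_lit 0))) (N (nat_lit 985) (L (E (nat_lit 6) (nat_lit 0x1508a8254029f94f8a7a) (nat_lit 0))) (L (E (nat_lit 6) (nat_lit 0x15a0ac655c2a99524a7c) (nat_lit 0)))))))))) (N (nat_lit 1064) (N (nat_lit 998) (N (nat_lit 993) (N (nat_lit 987) (L (E (nat_lit 6) (nat_lit 0x14f8a6652a2901458a1c) (nat_lit 0))) (N (nat_lit 989) (N (nat_lit 988) (L (E (nat_lit 6) (nat_lit 0x14fca6852b290945ca1e) (nat_lit 0))) (L (E (nat_lit 6) (nat_lit 0x1510a865422a09500a7e) (nat_lit 0)))) (N (nat_lit 991) (N (nat_lit 990) (L (E (nat_lit 6) (nat_lit 0x1500a6a52c2911460a20) (nat_lit 0))) (L (E (nat_lit 6) (nat_lit 0x1514a765302939474a26) (nat_lit 0)))) (N (nat_lit 992)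 (L (E (nat_lit 6) (nat_lit 0x1518a785312941478a28) (nat_lit 0))) (L (E (nat_lit 6) (nat_lit 0x152ca945492a4151ca8c) (nat_lit 0))))))) (N (nat_lit 994) (L (E (nat_lit 6) (nat_lit 0x1520a7c5332951480a2c) (nat_lit 0))) (N (nat_lit 996) (N (nat_lit 995) (L (E (nat_lit 6) (nat_lit 0x1534a9854b2a51524a90) (nat_lit 0))) (L (E (nat_lit 6) (nat_lit 0x1524a7e5342959484a2e) (nat_lit 0)))) (N (nat_lit 997) (L (E (nat_lit 6) (nat_lit 0x1538a9a54c2a59528a92) (nat_lit 0))) (L (E (nat_lit 6) (nat_lit 0x1528a805352961488a30) (nat_lit 0))))))) (N (nat_lit 1014) (N (nat_lit 1006) (N (nat_lit 1004) (N (nat_lit 1003) (N (nat_lit 1000) (N (nat_lit 999) (L (E (nat_lit 6) (nat_lit 0x152ca82536296948ca32) (nat_lit 0))) (L (E (nat_lit 6) (nat_lit 0x153ca8c53c29894a0a3c) (nat_lit 0)))) (N (nat_lit 1001) (L (E (nat_lit 6) (nat_lit 0x1550aa65522a89540a9e) (nat_lit 0))) (N (nat_lit 1002) (L (E (nat_lit 6) (nat_lit 0x1540a8e53d29914a4a3e)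 (nat_lit 0))) (L (E (nat_lit 6) (nat_lit 0x1554aa85532a91544aa0) (nat_lit 0)))))) (L (E (nat_lit 6) (nat_lit 0x1544a9053e29994a8a40) (nat_lit 0)))) (N (nat_lit 1005) (L (E (nat_lit 6) (nat_lit 0x1558aaa5542a99548aa2) (nat_lit 0))) (L (E (nat_lit 6) (nat_lit 0x1548a9253f29a14aca42) (nat_lit 0))))) (N (nat_lit 1012) (N (nat_lit 1009) (N (nat_lit 1008) (N (nat_lit 1007) (L (E (nat_lit 6) (nat_lit 0x155caac5552aa154caa4) (nat_lit 0))) (L (E (nat_lit 6) (nat_lit 0x154c6e61f40738188042) (nat_lit 0)))) (L (E (nat_lit 6) (nat_lit 0x1550a9654129b14b4a46) (nat_lit 0)))) (N (nat_lit 1010) (L (E (nat_lit 6) (nat_lit 0x1554a9854229b94b8a48) (nat_lit 0))) (N (nat_lit 1011) (L (E (nat_lit 6) (nat_lit 0x1560aa054729e94c8a52) (nat_lit 0))) (L (E (nat_lit 6) (nat_lit 0x1568aa454929f94d0a56) (nat_lit 0)))))) (N (nat_lit 1013) (L (E (nat_lit 6) (nat_lit 0x157cabc55d2ae156cab4) (nat_lit 0))) (L (E (nat_lit 6) (nat_lit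 0x156caa654a2a014d4a58) (nat_lit 0)))))) (cl18))) (N (nat_lit 1117) (cl19) (cl20)))
def cl22 : RA := N (nat_lit 732) (N (nat_lit 429) (N (nat_lit 376) (cl7) (cl8)) (N (nat_lit 678) (N (nat_lit 500) (N (nat_lit 444) (N (nat_lit 435) (N (nat_lit 433) (N (nat_lit 432) (N (nat_lit 430) (L (E (nat_lit 6) (nat_lit 0xb645b02d716b0b545a8) (nat_lit 0))) (N (nat_lit 431) (L (E (nat_lit 6) (nat_lit 0xb685a22c815f0ad4556) (nat_lit 0))) (L (E (nat_lit 6) (nat_lit 0xb7c5bc2dd16e0b6c5b4) (nat_lit 0))))) (L (E (nat_lit 6) (nat_lit 0xb6c5a42c915f8ad8558) (nat_lit 0)))) (N (nat_lit 434) (L (E (nat_lit 6) (nat_lit 0xb705a62ca1600adc55a) (nat_lit 0))) (L (E (nat_lit 6) (nat_lit 0xb845c02df16f0b745b8) (nat_lit 0))))) (N (nat_lit 438) (N (nat_lit 437) (N (nat_lit 436) (L (E (nat_lit 6) (nat_lit 0xb745a82cb1608ae055c) (nat_lit 0))) (L (E (nat_lit 6) (nat_lit 0xb885c22e016f8b785ba) (nat_lit 0)))) (L (E (nat_lit 6) (nat_lit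 0xb785aa2cc1610ae455e) (nat_lit 0)))) (N (nat_lit 440) (N (nat_lit 439) (L (E (nat_lit 6) (nat_lit 0xb7c5ac2cd1618ae8560) (nat_lit 0))) (L (E (nat_lit 6) (nat_lit 0xb805ae2ce1620aec562) (nat_lit 0)))) (N (nat_lit 443) (N (nat_lit 442) (N (nat_lit 441) (L (E (nat_lit 6) (nat_lit 0xb8c5b62d21648afc56c) (nat_lit 0))) (L (E (nat_lit 6) (nat_lit 0xba05ce2e61728b905c6) (nat_lit 0)))) (L (E (nat_lit 6) (nat_lit 0xb945ba2d41658b04570) (nat_lit 0)))) (L (E (nat_lit 6) (nat_lit 0xba85d22e81738b985ca) (nat_lit 0))))))) (cl9)) (N (nat_lit 615) (cl11) (N (nat_lit 666) (cl12) (N (nat_lit 674) (N (nat_lit 671) (N (nat_lit 670) (N (nat_lit 667) (L (E (nat_lit 6) (nat_lit 0x113888643a21810a0848) (nat_lit 0))) (N (nat_lit 668) (L (E (nat_lit 6) (nat_lit 0x115c89644021b90b484a) (nat_lit 0))) (N (nat_lit 669) (L (E (nat_lit 6) (nat_lit 0x10a8852428213909884a) (nat_lit 0))) (L (E (nat_lit 6) (nat_lit 0x116089844121c10b884c)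 (nat_lit 0)))))) (L (E (nat_lit 6) (nat_lit 0x116489a44221c90bc84e) (nat_lit 0)))) (N (nat_lit 672) (L (E (nat_lit 6) (nat_lit 0x116c89e44421d90c4852) (nat_lit 0))) (N (nat_lit 673) (L (E (nat_lit 6) (nat_lit 0x11708a044521e10c8854) (nat_lit 0))) (L (E (nat_lit 6) (nat_lit 0x11808aa44921f10d4856) (nat_lit 0)))))) (N (nat_lit 677) (N (nat_lit 676) (N (nat_lit 675) (L (E (nat_lit 6) (nat_lit 0x10c085e42e21690b0856) (nat_lit 0))) (L (E (nat_lit 6) (nat_lit 0x10c486042f21710b4858) (nat_lit 0)))) (L (E (nat_lit 6) (nat_lit 0x11888ae44b22010dc85a) (nat_lit 0)))) (L (E (nat_lit 6) (nat_lit 0x118c8b044c22090e085c) (nat_lit 0)))))))) (cl13))) (N (nat_lit 855) (N (nat_lit 809) (N (nat_lit 760) (N (nat_lit 744) (N (nat_lit 741) (N (nat_lit 739) (N (nat_lit 735) (N (nat_lit 733) (L (E (nat_lit 6) (nat_lit 0x115c89844221d10c4854) (nat_lit 0))) (N (nat_lit 734) (L (E (nat_lit 6) (nat_lit 0x11708b645a22c91608ae)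 (nat_lit 0))) (L (E (nat_lit 6) (nat_lit 0x123c90e47d23991a48ba) (nat_lit 0))))) (N (nat_lit 738) (N (nat_lit 736) (L (E (nat_lit 6) (nat_lit 0x11748a644821f10d885a) (nat_lit 0))) (N (nat_lit 737) (L (E (nat_lit 6) (nat_lit 0x11888c246022f91788ba) (nat_lit 0))) (L (E (nat_lit 6) (nat_lit 0x124091047e23a11a88bc) (nat_lit 0))))) (L (E (nat_lit 6) (nat_lit 0x11788a844921f90dc85c) (nat_lit 0))))) (N (nat_lit 740) (L (E (nat_lit 6) (nat_lit 0x118c8c4461230117c8bc) (nat_lit 0))) (L (E (nat_lit 6) (nat_lit 0x11908c646223091808be) (nat_lit 0))))) (N (nat_lit 743) (N (nat_lit 742) (L (E (nat_lit 6) (nat_lit 0x124891448023b11b08c0) (nat_lit 0))) (L (E (nat_lit 6) (nat_lit 0x11808ac44b22090e4860) (nat_lit 0)))) (L (E (nat_lit 6) (nat_lit 0x11848ae44c22110e8862) (nat_lit 0))))) (N (nat_lit 755) (N (nat_lit 754) (N (nat_lit 752) (N (nat_lit 748) (N (nat_lit 745) (L (E (nat_lit 6) (nat_lit 0x11988ca46423191888c2)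 (nat_lit 0))) (N (nat_lit 747) (N (nat_lit 746) (L (E (nat_lit 6) (nat_lit 0x125091848223c11b88c4) (nat_lit 0))) (L (E (nat_lit 6) (nat_lit 0x119c8cc465232118c8c4) (nat_lit 0)))) (L (E (nat_lit 6) (nat_lit 0x118c8b244e22210f0866) (nat_lit 0))))) (N (nat_lit 751) (N (nat_lit 750) (N (nat_lit 749) (L (E (nat_lit 6) (nat_lit 0x11a08ba45322410f886c) (nat_lit 0))) (L (E (nat_lit 6) (nat_lit 0x11b48d846b23511a48d0) (nat_lit 0)))) (L (E (nat_lit 6) (nat_lit 0x11a48bc45422490fc86e) (nat_lit 0)))) (L (E (nat_lit 6) (nat_lit 0x11b88da46c23591a88d2) (nat_lit 0))))) (N (nat_lit 753) (L (E (nat_lit 6) (nat_lit 0x11a88be4552251100870) (nat_lit 0))) (L (E (nat_lit 6) (nat_lit 0x11bc8dc46d23611ac8d4) (nat_lit 0))))) (L (E (nat_lit 6) (nat_lit 0x11ac8c04562259104872) (nat_lit 0)))) (N (nat_lit 758) (N (nat_lit 757) (N (nat_lit 756) (L (E (nat_lit 6) (nat_lit 0x11c08de46e23691b08d6) (nat_lit 0))) (L (E (nat_lit 6)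 (nat_lit 0x125492448a24011d88d8) (nat_lit 0)))) (L (E (nat_lit 6) (nat_lit 0x11b08c24572261108874) (nat_lit 0)))) (N (nat_lit 759) (L (E (nat_lit 6) (nat_lit 0x11c48e046f23711b48d8) (nat_lit 0))) (L (E (nat_lit 6) (nat_lit 0x11b48c4458226910c876) (nat_lit 0))))))) (cl14)) (cl15)) (N (nat_lit 913) (cl16) (cl21)))
def cl23 : RA := N (nat_lit 1215) (N (nat_lit 1205) (N (nat_lit 1201) (N (nat_lit 1197) (N (nat_lit 1191) (N (nat_lit 1189) (N (nat_lit 1188) (L (E (nat_lit 6) (nat_lit 0x1a089f43480ef83780be) (nat_lit 0))) (L (E (nat_lit 6) (nat_lit 0x1accd5069d34a1a30d0c) (nat_lit 0)))) (N (nat_lit 1190) (L (E (nat_lit 6) (nat_lit 0x1aecd5e6a434c9a40d10) (nat_lit 0))) (L (E (nat_lit 6) (nat_lit 0x1a34d1868b3451a24d10) (nat_lit 0))))) (N (nat_lit 1194) (N (nat_lit 1193) (N (nat_lit 1192) (L (E (nat_lit 6) (nat_lit 0x1a38d1a68c3459a28d12) (nat_lit 0))) (L (E (nat_lit 6) (nat_lit 0x1af4d626a634d9a48d14) (nat_lit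 0)))) (L (E (nat_lit 6) (nat_lit 0x1af8d646a734e1a4cd16) (nat_lit 0)))) (N (nat_lit 1196) (N (nat_lit 1195) (L (E (nat_lit 6) (nat_lit 0x1b00d686a934f1a54d1a) (nat_lit 0))) (L (E (nat_lit 6) (nat_lit 0x1b18d746ae3519a60d1e) (nat_lit 0)))) (L (E (nat_lit 6) (nat_lit 0x1a50d266923489a40d1e) (nat_lit 0)))))) (N (nat_lit 1199) (N (nat_lit 1198) (L (E (nat_lit 6) (nat_lit 0x1a54d286933491a44d20) (nat_lit 0))) (L (E (nat_lit 6) (nat_lit 0x1b20d786b03529a68d22) (nat_lit 0)))) (N (nat_lit 1200) (L (E (nat_lit 6) (nat_lit 0x1b24d7a6b13531a6cd24) (nat_lit 0))) (L (E (nat_lit 6) (nat_lit 0x1b28d7c6b23539a70d26) (nat_lit 0)))))) (N (nat_lit 1204) (N (nat_lit 1203) (N (nat_lit 1202) (L (E (nat_lit 6) (nat_lit 0x1b2cd7e6b33541a74d28) (nat_lit 0))) (L (E (nat_lit 6) (nat_lit 0x1a70d3669a34c9a60d2e) (nat_lit 0)))) (L (E (nat_lit 6) (nat_lit 0x1b40d8c6ba3571a8cd30) (nat_lit 0)))) (L (E (nat_lit 6) (nat_lit 0x1a74d3869b34d1a64d30)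 (nat_lit 0))))) (N (nat_lit 1206) (L (E (nat_lit 6) (nat_lit 0x1b44d8e6bb3579a90d32) (nat_lit 0))) (N (nat_lit 1213) (N (nat_lit 1208) (N (nat_lit 1207) (L (E (nat_lit 6) (nat_lit 0x1a78d3a69c34d9a68d32) (nat_lit 0))) (L (E (nat_lit 6) (nat_lit 0x1a7cd3c69d34e1a6cd34) (nat_lit 0)))) (N (nat_lit 1212) (N (nat_lit 1209) (L (E (nat_lit 6) (nat_lit 0x1b4cd926bd3589a98d36) (nat_lit 0))) (N (nat_lit 1211) (N (nat_lit 1210) (L (E (nat_lit 6) (nat_lit 0x1b58d9a6c335b9aacd40) (nat_lit 0))) (L (E (nat_lit 6) (nat_lit 0x1b5cd9c6c435c1ab0d42) (nat_lit 0)))) (L (E (nat_lit 6) (nat_lit 0x1a98d4a6a43519a88d42) (nat_lit 0))))) (L (E (nat_lit 6) (nat_lit 0x1b60d9e6c535c9ab4d44) (nat_lit 0))))) (N (nat_lit 1214) (L (E (nat_lit 6) (nat_lit 0x1a9cd4c6a53521a8cd44) (nat_lit 0))) (L (E (nat_lit 6) (nat_lit 0x1aa0d4e6a63529a90d46) (nat_lit 0))))))) (N (nat_lit 1223) (N (nat_lit 1216) (L (E (nat_lit 6) (nat_lit 0x1b68da26c735d9abcd48)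 (nat_lit 0))) (N (nat_lit 1220) (N (nat_lit 1217) (L (E (nat_lit 6) (nat_lit 0x1b6cda46c835e1ac0d4a) (nat_lit 0))) (N (nat_lit 1218) (L (E (nat_lit 6) (nat_lit 0x1aa8d526a83539a98d4a) (nat_lit 0))) (N (nat_lit 1219) (L (E (nat_lit 6) (nat_lit 0x1b70da66c935e9ac4d4c) (nat_lit 0))) (L (E (nat_lit 6) (nat_lit 0x1b84dae6ce3621ae0d58) (nat_lit 0)))))) (N (nat_lit 1222) (N (nat_lit 1221) (L (E (nat_lit 6) (nat_lit 0x1ac4d606af3571ab4d58) (nat_lit 0))) (L (E (nat_lit 6) (nat_lit 0x1ab4d466993489a28d0a) (nat_lit 0)))) (L (E (nat_lit 6) (nat_lit 0x1ac8d626b03579ab8d5a) (nat_lit 0)))))) (N (nat_lit 1233) (N (nat_lit 1226) (N (nat_lit 1225) (N (nat_lit 1224) (L (E (nat_lit 6) (nat_lit 0x1b8cdb26d03631ae8d5c) (nat_lit 0))) (L (E (nat_lit 6) (nat_lit 0x1accd646b13581abcd5c) (nat_lit 0)))) (L (E (nat_lit 6) (nat_lit 0x1b90db46d13639aecd5e) (nat_lit 0)))) (N (nat_lit 1230) (N (nat_lit 1228) (N (nat_lit 1227) (L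 (E (nat_lit 6) (nat_lit 0x1abcd4a69b3499a30d0e) (nat_lit 0))) (L (E (nat_lit 6) (nat_lit 0x1b94db66d23641af0d60) (nat_lit 0)))) (N (nat_lit 1229) (L (E (nat_lit 6) (nat_lit 0x1ad8d566a134b9a3cd10) (nat_lit 0))) (L (E (nat_lit 6) (nat_lit 0x1adcd586a234c1a40d12) (nat_lit 0))))) (N (nat_lit 1232) (N (nat_lit 1231) (L (E (nat_lit 6) (nat_lit 0x1af0d766ba35c9ae0d6e) (nat_lit 0))) (L (E (nat_lit 6) (nat_lit 0x1ae0d5a6a334c9a44d14) (nat_lit 0)))) (L (E (nat_lit 6) (nat_lit 0x1af4d786bb35d1ae4d70) (nat_lit 0)))))) (N (nat_lit 1237) (N (nat_lit 1235) (N (nat_lit 1234) (L (E (nat_lit 6) (nat_lit 0x1ba4dc46d83679b14d72) (nat_lit 0))) (L (E (nat_lit 6) (nat_lit 0x1af8d7a6bc35d9ae8d72) (nat_lit 0)))) (N (nat_lit 1236) (L (E (nat_lit 6) (nat_lit 0x1ba8dc66d93681b18d74) (nat_lit 0))) (L (E (nat_lit 6) (nat_lit 0x1ae8d5e6a534d9a4cd18) (nat_lit 0))))) (N (nat_lit 1240) (N (nat_lit 1239) (N (nat_lit 1238) (L (E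 (nat_lit 6) (nat_lit 0x1afcd7c6bd35e1aecd74) (nat_lit 0))) (L (E (nat_lit 6) (nat_lit 0x1aeca683650f403840c0) (nat_lit 0)))) (L (E (nat_lit 6) (nat_lit 0x1aecd606a634e1a50d1a) (nat_lit 0)))) (N (nat_lit 1245) (N (nat_lit 1243) (N (nat_lit 1241) (L (E (nat_lit 6) (nat_lit 0x1b00d7e6be35e9af0d76) (nat_lit 0))) (N (nat_lit 1242) (L (E (nat_lit 6) (nat_lit 0x1b04d6c6ab3509a5cd1e) (nat_lit 0))) (L (E (nat_lit 6) (nat_lit 0x1b18d8a6c43619b08d82) (nat_lit 0))))) (N (nat_lit 1244) (L (E (nat_lit 6) (nat_lit 0x1b08d6e6ac3511a60d20) (nat_lit 0))) (L (E (nat_lit 6) (nat_lit 0x1b1cd8c6c53621b0cd84) (nat_lit 0))))) (L (E (nat_lit 6) (nat_lit 0x1b0cd706ad3519a64d22) (nat_lit 0))))))))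
def cl24 : RA := N (nat_lit 1301) (N (nat_lit 1283) (N (nat_lit 1274) (N (nat_lit 1272) (N (nat_lit 1270) (N (nat_lit 1269) (N (nat_lit 1268) (L (E (nat_lit 6) (nat_lit 0x1b6cda66ca35f9ad0d54) (nat_lit 0))) (L (E (nat_lit 6) (nat_lit 0x1b8cdc46e13701b7cdbc) (nat_lit 0)))) (L (E (nat_lit 6) (nat_lit 0x1b7cdac6ce3629ae8d5e) (nat_lit 0)))) (N (nat_lit 1271) (L (E (nat_lit 6) (nat_lit 0x1b80dae6cf3631aecd60) (nat_lit 0))) (L (E (nat_lit 6) (nat_lit 0x1b94dc86e33711b84dc0) (nat_lit 0))))) (N (nat_lit 1273) (L (E (nat_lit 6) (nat_lit 0x1b88db26d13641af4d64) (nat_lit 0))) (L (E (nat_lit 6) (nat_lit 0x1b90db66d33651afcd68) (nat_lit 0))))) (N (nat_lit 1278) (N (nat_lit 1277) (N (nat_lit 1276) (N (nat_lit 1275) (L (E (nat_lit 6) (nat_lit 0x1b94db86d43659b00d6a) (nat_lit 0))) (L (E (nat_lit 6) (nat_lit 0x1b98ac03770fb03a00c6) (nat_lit 0)))) (L (E (nat_lit 6) (nat_lit 0x1bacdd46e93741b9cdcc) (nat_lit 0))))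 (L (E (nat_lit 6) (nat_lit 0x1ba0dc46d93689b20d7a) (nat_lit 0)))) (N (nat_lit 1279) (L (E (nat_lit 6) (nat_lit 0x1ba4dc66da3691b24d7c) (nat_lit 0))) (N (nat_lit 1280) (L (E (nat_lit 6) (nat_lit 0x1ba8dc86db3699b28d7e) (nat_lit 0))) (N (nat_lit 1282) (N (nat_lit 1281) (L (E (nat_lit 6) (nat_lit 0x1c30e0a6fd37b1bc0dde) (nat_lit 0))) (L (E (nat_lit 6) (nat_lit 0x1c60e2c7123869c1ce00) (nat_lit 0)))) (L (E (nat_lit 6) (nat_lit 0x2044f847763aa9cfce74) (nat_lit 0)))))))) (N (nat_lit 1292) (N (nat_lit 1289) (N (nat_lit 1286) (N (nat_lit 1285) (N (nat_lit 1284) (L (E (nat_lit 6) (nat_lit 0x2098fcc7983b01d18e7a) (nat_lit 0))) (L (E (nat_lit 6) (nat_lit 0x20acfd879c3b11d24e7c) (nat_lit 0)))) (L (E (nat_lit 6) (nat_lit 0x1d00b4a3dd1220504126) (nat_lit 0)))) (N (nat_lit 1288) (N (nat_lit 1287) (L (E (nat_lit 6) (nat_lit 0x211103a7da3c71d6ce80) (nat_lit 0))) (L (E (nat_lit 6) (nat_lit 0x1d08b503e31240514128)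 (nat_lit 0)))) (L (E (nat_lit 6) (nat_lit 0x1d0cb543e5125051c12c) (nat_lit 0))))) (N (nat_lit 1290) (L (E (nat_lit 6) (nat_lit 0x21210467e33ca9d7ce88) (nat_lit 0))) (N (nat_lit 1291) (L (E (nat_lit 6) (nat_lit 0x1d14b5a3e81268528132) (nat_lit 0))) (L (E (nat_lit 6) (nat_lit 0x1d1cb5e3ee1288530134) (nat_lit 0)))))) (N (nat_lit 1297) (N (nat_lit 1294) (N (nat_lit 1293) (L (E (nat_lit 6) (nat_lit 0x21350547eb3cd9d84e90) (nat_lit 0))) (L (E (nat_lit 6) (nat_lit 0x1d24b623f01298538138) (nat_lit 0)))) (N (nat_lit 1296) (N (nat_lit 1295) (L (E (nat_lit 6) (nat_lit 0x1d28b643f112a053c13a) (nat_lit 0))) (L (E (nat_lit 6) (nat_lit 0x213d0587ed3ce9d8ce94) (nat_lit 0)))) (L (E (nat_lit 6) (nat_lit 0x1d30b6e3fa12d8554142) (nat_lit 0))))) (N (nat_lit 1299) (N (nat_lit 1298) (L (E (nat_lit 6) (nat_lit 0x1d34b723fd12f0560146) (nat_lit 0))) (L (E (nat_lit 6) (nat_lit 0x1d38b743fe12f8564148) (nat_lit 0)))) (N (nat_lit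 1300) (L (E (nat_lit 6) (nat_lit 0x1d3cb76403132057014a) (nat_lit 0))) (L (E (nat_lit 6) (nat_lit 0x215906e7fd3d61d9cea0) (nat_lit 0)))))))) (N (nat_lit 1309) (N (nat_lit 1308) (N (nat_lit 1303) (N (nat_lit 1302) (L (E (nat_lit 6) (nat_lit 0x215d0707fe3d69da0ea2) (nat_lit 0))) (L (E (nat_lit 6) (nat_lit 0x1d48b7a4071340580150) (nat_lit 0)))) (N (nat_lit 1305) (N (nat_lit 1304) (L (E (nat_lit 6) (nat_lit 0x1d4cb7e40d1370590152) (nat_lit 0))) (L (E (nat_lit 6) (nat_lit 0x1d50b8441113905a0158) (nat_lit 0)))) (N (nat_lit 1307) (N (nat_lit 1306) (L (E (nat_lit 6) (nat_lit 0x216d07e8133e49df0eac) (nat_lit 0))) (L (E (nat_lit 6) (nat_lit 0x1d68bcc44115185f4162) (nat_lit 0)))) (L (E (nat_lit 6) (nat_lit 0x1d78be044b156060c166) (nat_lit 0)))))) (L (E (nat_lit 6) (nat_lit 0x1d7cbe244c1568610168) (nat_lit 0)))) (N (nat_lit 1310) (L (E (nat_lit 6) (nat_lit 0x1d84bf445615b062016c) (nat_lit 0))) (N (nat_lit 1311)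 (L (E (nat_lit 6) (nat_lit 0x219109a82a3f59e6cec2) (nat_lit 0))) (L (E (nat_lit 6) (nat_lit 0x1d88bf645715b862416e) (nat_lit 0))))))
def cl25 : RA := N (nat_lit 1326) (N (nat_lit 1318) (N (nat_lit 1317) (N (nat_lit 1315) (N (nat_lit 1313) (L (E (nat_lit 6) (nat_lit 0x1d94c0c4631610644172) (nat_lit 0))) (N (nat_lit 1314) (L (E (nat_lit 6) (nat_lit 0x1d98c0e4641618648174) (nat_lit 0))) (L (E (nat_lit 6) (nat_lit 0x1d9cc1c46c165065817a) (nat_lit 0))))) (N (nat_lit 1316) (L (E (nat_lit 6) (nat_lit 0x219d0ae8383ff1eb4ed0) (nat_lit 0))) (L (E (nat_lit 6) (nat_lit 0x1da4c2246f166866417e) (nat_lit 0))))) (L (E (nat_lit 6) (nat_lit 0x1dacc3247816b0680180) (nat_lit 0)))) (N (nat_lit 1322) (N (nat_lit 1319) (L (E (nat_lit 6) (nat_lit 0x1db0c4047f16e8690184) (nat_lit 0))) (N (nat_lit 1321) (N (nat_lit 1320) (L (E (nat_lit 6) (nat_lit 0x1db4c4248016f0694186) (nat_lit 0))) (L (E (nat_lit 6) (nat_lit 0x1db8c4448116f8698188)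 (nat_lit 0)))) (L (E (nat_lit 6) (nat_lit 0x1e5cf1e7853be9dd4ee2) (nat_lit 0))))) (N (nat_lit 1324) (N (nat_lit 1323) (L (E (nat_lit 6) (nat_lit 0x1e6cf2678b3c09de4ee4) (nat_lit 0))) (L (E (nat_lit 6) (nat_lit 0x1e70f2878c3c11de8ee6) (nat_lit 0)))) (N (nat_lit 1325) (L (E (nat_lit 6) (nat_lit 0x1e74f2a78d3c19decee8) (nat_lit 0))) (L (E (nat_lit 6) (nat_lit 0x1e88f347923c51e00ef0) (nat_lit 0))))))) (N (nat_lit 1338) (N (nat_lit 1334) (N (nat_lit 1331) (N (nat_lit 1330) (N (nat_lit 1328) (N (nat_lit 1327) (L (E (nat_lit 6) (nat_lit 0x1e8cf367933c59e04ef2) (nat_lit 0))) (L (E (nat_lit 6) (nat_lit 0x1df8efa77c3bd9de8ef2) (nat_lit 0)))) (N (nat_lit 1329) (L (E (nat_lit 6) (nat_lit 0x1e98f3c7963c71e10ef8) (nat_lit 0))) (L (E (nat_lit 6) (nat_lit 0x1e14f087833c11e04f00) (nat_lit 0))))) (L (E (nat_lit 6) (nat_lit 0x1e18f0a7843c19e08f02) (nat_lit 0)))) (N (nat_lit 1333) (N (nat_lit 1332) (L (E (nat_lit 6)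 (nat_lit 0x1ebcf4a79d3ca9e34f06) (nat_lit 0))) (L (E (nat_lit 6) (nat_lit 0x1e20f0e7863c29e10f06) (nat_lit 0)))) (L (E (nat_lit 6) (nat_lit 0x1ec0f4c79e3cb1e38f08) (nat_lit 0))))) (N (nat_lit 1335) (L (E (nat_lit 6) (nat_lit 0x1e34c8c4b318486d418c) (nat_lit 0))) (N (nat_lit 1336) (L (E (nat_lit 6) (nat_lit 0x1e38c8e4b418506d818e) (nat_lit 0))) (N (nat_lit 1337) (L (E (nat_lit 6) (nat_lit 0x1e40f127803bc9dccede) (nat_lit 0))) (L (E (nat_lit 6) (nat_lit 0x1ee8f667ab3d09e64f22) (nat_lit 0))))))) (N (nat_lit 1347) (N (nat_lit 1343) (N (nat_lit 1342) (N (nat_lit 1341) (N (nat_lit 1340) (N (nat_lit 1339) (L (E (nat_lit 6) (nat_lit 0x1e44f147813bd1dd0ee0) (nat_lit 0))) (L (E (nat_lit 6) (nat_lit 0x1e48c9c4ba18786e4190) (nat_lit 0)))) (L (E (nat_lit 6) (nat_lit 0x1e4cc9e4bb18806e8192) (nat_lit 0)))) (L (E (nat_lit 6) (nat_lit 0x1eecf6a7ad3d19e6cf26) (nat_lit 0)))) (L (E (nat_lit 6) (nat_lit 0x1e50ca04bc18886ec194)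 (nat_lit 0)))) (N (nat_lit 1346) (N (nat_lit 1345) (N (nat_lit 1344) (L (E (nat_lit 6) (nat_lit 0x1e64cb04c518c0700196) (nat_lit 0))) (L (E (nat_lit 6) (nat_lit 0x21a10c484b4141fa4f32) (nat_lit 0)))) (L (E (nat_lit 6) (nat_lit 0x1e78f3a79c3cd9e68f32) (nat_lit 0)))) (L (E (nat_lit 6) (nat_lit 0x1e68cb24c618c8704198) (nat_lit 0))))) (N (nat_lit 1352) (N (nat_lit 1350) (N (nat_lit 1349) (N (nat_lit 1348) (L (E (nat_lit 6) (nat_lit 0x21a50c684c4149fa8f34) (nat_lit 0))) (L (E (nat_lit 6) (nat_lit 0x1e68f2678c3c19df0eea) (nat_lit 0)))) (L (E (nat_lit 6) (nat_lit 0x1e6cf2878d3c21df4eec) (nat_lit 0)))) (N (nat_lit 1351) (L (E (nat_lit 6) (nat_lit 0x1e70cb44c818d870c19a) (nat_lit 0))) (L (E (nat_lit 6) (nat_lit 0x1e74cb64c918e071019c) (nat_lit 0))))) (N (nat_lit 1354) (N (nat_lit 1353) (L (E (nat_lit 6) (nat_lit 0x1e74f2c78f3c31dfceee) (nat_lit 0))) (L (E (nat_lit 6) (nat_lit 0x1e78cb84ca18e871419e) (nat_lit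 0)))) (N (nat_lit 1355) (L (E (nat_lit 6) (nat_lit 0x1e80cc24cf191071c1a0) (nat_lit 0))) (N (nat_lit 1356) (L (E (nat_lit 6) (nat_lit 0x1e80f327923c59e08ef6) (nat_lit 0))) (L (E (nat_lit 6) (nat_lit 0x1e98f4a7a43d19e88f42) (nat_lit 0)))))))))
def cl26 : RA := N (nat_lit 1382) (N (nat_lit 1368) (N (nat_lit 1362) (N (nat_lit 1359) (N (nat_lit 1358) (L (E (nat_lit 6) (nat_lit 0x1e88cc64d119207241a4) (nat_lit 0))) (L (E (nat_lit 6) (nat_lit 0x1e8ccc84d219287281a6) (nat_lit 0)))) (N (nat_lit 1361) (N (nat_lit 1360) (L (E (nat_lit 6) (nat_lit 0x1e8cf387953c71e14efc) (nat_lit 0))) (L (E (nat_lit 6) (nat_lit 0x1ea0f4e7a63d29e90f46) (nat_lit 0)))) (L (E (nat_lit 6) (nat_lit 0x1e90f3a7963c79e18efe) (nat_lit 0))))) (N (nat_lit 1365) (N (nat_lit 1364) (N (nat_lit 1363) (L (E (nat_lit 6) (nat_lit 0x1ea4f407993c91e2cf04) (nat_lit 0))) (L (E (nat_lit 6) (nat_lit 0x1ea8cd44db19607381a8) (nat_lit 0)))) (L (E (nat_lit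 6) (nat_lit 0x1ebcf5c7ad3d61eacf54) (nat_lit 0)))) (N (nat_lit 1366) (L (E (nat_lit 6) (nat_lit 0x1eaccd64dc196873c1aa) (nat_lit 0))) (N (nat_lit 1367) (L (E (nat_lit 6) (nat_lit 0x1eacf4479b3ca1e34f08) (nat_lit 0))) (L (E (nat_lit 6) (nat_lit 0x1eb8cda4df19807481ae) (nat_lit 0))))))) (N (nat_lit 1374) (N (nat_lit 1371) (N (nat_lit 1370) (N (nat_lit 1369) (L (E (nat_lit 6) (nat_lit 0x1ec4ce24e519a87541b0) (nat_lit 0))) (L (E (nat_lit 6) (nat_lit 0x1ed8f6a7b43d99ec8f62) (nat_lit 0)))) (L (E (nat_lit 6) (nat_lit 0x1eccce64e719b875c1b2) (nat_lit 0)))) (N (nat_lit 1372) (L (E (nat_lit 6) (nat_lit 0x1ee0f6e7b63da9ed0f66) (nat_lit 0))) (N (nat_lit 1373) (L (E (nat_lit 6) (nat_lit 0x1ed0ce84e819c07601b4) (nat_lit 0))) (L (E (nat_lit 6) (nat_lit 0x1ed0f5a7a43ce9e58f1e) (nat_lit 0)))))) (N (nat_lit 1378) (N (nat_lit 1377) (N (nat_lit 1376) (N (nat_lit 1375) (L (E (nat_lit 6) (nat_lit 0x1ee4cf44f01a007701b6)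 (nat_lit 0))) (L (E (nat_lit 6) (nat_lit 0x1ee8cf64f11a087741b8) (nat_lit 0)))) (L (E (nat_lit 6) (nat_lit 0x1ee8f687ad3d21e74f2c) (nat_lit 0)))) (L (E (nat_lit 6) (nat_lit 0x1facfc27d73e71f18f7c) (nat_lit 0)))) (N (nat_lit 1381) (N (nat_lit 1380) (N (nat_lit 1379) (L (E (nat_lit 6) (nat_lit 0x1fb8fc87da3e89f24f80) (nat_lit 0))) (L (E (nat_lit 6) (nat_lit 0x1fbcfca7db3e91f28f82) (nat_lit 0)))) (L (E (nat_lit 6) (nat_lit 0x1f24f907c73e31f14f88) (nat_lit 0)))) (L (E (nat_lit 6) (nat_lit 0x1fd0fd47e03eb1f34f8a) (nat_lit 0))))))) (N (nat_lit 1391) (N (nat_lit 1383) (L (E (nat_lit 6) (nat_lit 0x1fd4fd67e13eb9f38f8c) (nat_lit 0))) (N (nat_lit 1385) (N (nat_lit 1384) (L (E (nat_lit 6) (nat_lit 0x1fd8fd87e23ec1f3cf8e) (nat_lit 0))) (L (E (nat_lit 6) (nat_lit 0x1f44fa07cf3e71f34f98) (nat_lit 0)))) (N (nat_lit 1388) (N (nat_lit 1386) (L (E (nat_lit 6) (nat_lit 0x1f48fa27d03e79f38f9a) (nat_lit 0))) (N (nat_lit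 1387) (L (E (nat_lit 6) (nat_lit 0x1f4cfa47d13e81f3cf9c) (nat_lit 0))) (L (E (nat_lit 6) (nat_lit 0x1ffcfec7ec3f11f60f9e) (nat_lit 0))))) (N (nat_lit 1389) (L (E (nat_lit 6) (nat_lit 0x2014ffc7f53f59f84fae) (nat_lit 0))) (N (nat_lit 1390) (L (E (nat_lit 6) (nat_lit 0x20250027fa3f89f9cfba) (nat_lit 0))) (L (E (nat_lit 6) (nat_lit 0x1f78faa7cd3e31efcf78) (nat_lit 0)))))))) (N (nat_lit 1402) (N (nat_lit 1395) (N (nat_lit 1394) (N (nat_lit 1393) (N (nat_lit 1392) (L (E (nat_lit 6) (nat_lit 0x202d0067fc3f99fa4fbe) (nat_lit 0))) (L (E (nat_lit 6) (nat_lit 0x20310087fd3fa1fa8fc0) (nat_lit 0)))) (L (E (nat_lit 6) (nat_lit 0x1f94fc87e33f11f84fc0) (nat_lit 0)))) (L (E (nat_lit 6) (nat_lit 0x1f84fb07d03e49f04f7a) (nat_lit 0)))) (N (nat_lit 1399) (N (nat_lit 1397) (N (nat_lit 1396) (L (E (nat_lit 6) (nat_lit 0x1f88d6052b1b007901be) (nat_lit 0))) (L (E (nat_lit 6) (nat_lit 0x203900c7ff3fb1fb0fc4) (nat_lit 0))))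 (N (nat_lit 1398) (L (E (nat_lit 6) (nat_lit 0x1f8cd6252c1b087941c0) (nat_lit 0))) (L (E (nat_lit 6) (nat_lit 0x1fb4fd87eb3f51fa4fd0) (nat_lit 0))))) (N (nat_lit 1401) (N (nat_lit 1400) (L (E (nat_lit 6) (nat_lit 0x1fb4d7a5361b387a81c4) (nat_lit 0))) (L (E (nat_lit 6) (nat_lit 0x1fb4fc87db3e99f2cf86) (nat_lit 0)))) (L (E (nat_lit 6) (nat_lit 0x1fccd8a53e1b487ac1c6) (nat_lit 0)))))) (N (nat_lit 1404) (N (nat_lit 1403) (L (E (nat_lit 6) (nat_lit 0x1fd0fd67e23ec9f44f94) (nat_lit 0))) (L (E (nat_lit 6) (nat_lit 0x1fe4fe27e83ef9f58f9c) (nat_lit 0)))) (N (nat_lit 1406) (N (nat_lit 1405) (L (E (nat_lit 6) (nat_lit 0x1fe8fe47e93f01f5cf9e) (nat_lit 0))) (L (E (nat_lit 6) (nat_lit 0x1fecfe67ea3f09f60fa0) (nat_lit 0)))) (N (nat_lit 1407) (L (E (nat_lit 6) (nat_lit 0x1ff0fe87eb3f11f64fa2) (nat_lit 0))) (N (nat_lit 1408) (L (E (nat_lit 6) (nat_lit 0x1ffcda454c1b887c81c8) (nat_lit 0))) (L (E (nat_lit 6) (nat_lit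 0x1ffcfee7ee3f29f70fa8) (nat_lit 0)))))))))
def cl27 : RA := N (nat_lit 1433) (N (nat_lit 1430) (N (nat_lit 1421) (N (nat_lit 1415) (N (nat_lit 1412) (N (nat_lit 1411) (N (nat_lit 1410) (L (E (nat_lit 6) (nat_lit 0x2008dae5521b907cc1cc) (nat_lit 0))) (L (E (nat_lit 6) (nat_lit 0x201d00c805402200d004) (nat_lit 0)))) (L (E (nat_lit 6) (nat_lit 0x200cffa7f53f61f8cfb4) (nat_lit 0)))) (N (nat_lit 1414) (N (nat_lit 1413) (L (E (nat_lit 6) (nat_lit 0x202100e806402a011006) (nat_lit 0))) (L (E (nat_lit 6) (nat_lit 0x2010ffc7f63f69f90fb6) (nat_lit 0)))) (L (E (nat_lit 6) (nat_lit 0x20250047fc3fa1facfc4) (nat_lit 0))))) (N (nat_lit 1418) (N (nat_lit 1417) (N (nat_lit 1416) (L (E (nat_lit 6) (nat_lit 0x207503881b40d2065030) (nat_lit 0))) (L (E (nat_lit 6) (nat_lit 0x20f106e82f414a085032) (nat_lit 0)))) (L (E (nat_lit 6) (nat_lit 0x207d03c81d40e206d034) (nat_lit 0)))) (N (nat_lit 1419) (L (E (nat_lit 6) (nat_lit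 0x20a4df85781c107f01d2) (nat_lit 0))) (N (nat_lit 1420) (L (E (nat_lit 6) (nat_lit 0x20c505882440f205d028) (nat_lit 0))) (L (E (nat_lit 6) (nat_lit 0x20e106e83641aa0d1066) (nat_lit 0))))))) (N (nat_lit 1427) (N (nat_lit 1424) (N (nat_lit 1422) (L (E (nat_lit 6) (nat_lit 0x20e907283841ba0d906a) (nat_lit 0))) (N (nat_lit 1423) (L (E (nat_lit 6) (nat_lit 0x2100d5845411283cc0ca) (nat_lit 0))) (L (E (nat_lit 6) (nat_lit 0x2104d6045811483d80cc) (nat_lit 0))))) (N (nat_lit 1426) (N (nat_lit 1425) (L (E (nat_lit 6) (nat_lit 0x21990ca864430a1790ba) (nat_lit 0))) (L (E (nat_lit 6) (nat_lit 0x21b0e785971d58868232) (nat_lit 0)))) (L (E (nat_lit 6) (nat_lit 0x21bce965b51fc09642a6) (nat_lit 0))))) (N (nat_lit 1429) (N (nat_lit 1428) (L (E (nat_lit 6) (nat_lit 0x21c0ea25bc20289982bc) (nat_lit 0))) (L (E (nat_lit 6) (nat_lit 0x21c4eae5d921b0a602f0) (nat_lit 0)))) (L (E (nat_lit 6) (nat_lit 0x21c8eb05da21b8a642f2)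 (nat_lit 0)))))) (N (nat_lit 1432) (N (nat_lit 1431) (L (E (nat_lit 6) (nat_lit 0x21d4eb85e82218a942fe) (nat_lit 0))) (L (E (nat_lit 6) (nat_lit 0x21d8ebe5f12260ab4308) (nat_lit 0)))) (L (E (nat_lit 6) (nat_lit 0x21dcec25fa22b0ad8310) (nat_lit 0))))) (N (nat_lit 1443) (N (nat_lit 1441) (N (nat_lit 1438) (N (nat_lit 1436) (N (nat_lit 1435) (N (nat_lit 1434) (L (E (nat_lit 6) (nat_lit 0x23d11cc8cd458a2410f2) (nat_lit 0))) (L (E (nat_lit 6) (nat_lit 0x21e8ec86042308b0031e) (nat_lit 0)))) (L (E (nat_lit 6) (nat_lit 0x23d51d68d545ba2650f6) (nat_lit 0)))) (N (nat_lit 1437) (L (E (nat_lit 6) (nat_lit 0x21f0ed461823b8b5433e) (nat_lit 0))) (L (E (nat_lit 6) (nat_lit 0x21f4ed661923c0b58340) (nat_lit 0))))) (N (nat_lit 1439) (L (E (nat_lit 6) (nat_lit 0x21f8f0663d2548c04364) (nat_lit 0))) (N (nat_lit 1440) (L (E (nat_lit 6) (nat_lit 0x21fcf0a63e2558c0c366) (nat_lit 0))) (L (E (nat_lit 6) (nat_lit 0x2200f166442588c1c368)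 (nat_lit 0)))))) (N (nat_lit 1442) (L (E (nat_lit 6) (nat_lit 0x2204f1a6462598c2436a) (nat_lit 0))) (L (E (nat_lit 6) (nat_lit 0x2208f1c64725a0c2836c) (nat_lit 0))))) (N (nat_lit 1448) (N (nat_lit 1446) (N (nat_lit 1445) (N (nat_lit 1444) (L (E (nat_lit 6) (nat_lit 0x23dd1e28dd461a29d104) (nat_lit 0))) (L (E (nat_lit 6) (nat_lit 0x220cf1e64825a8c2c36e) (nat_lit 0)))) (L (E (nat_lit 6) (nat_lit 0x2210f2264d25c8c38370) (nat_lit 0)))) (N (nat_lit 1447) (L (E (nat_lit 6) (nat_lit 0x2214f2464e25d0c3c372) (nat_lit 0))) (L (E (nat_lit 6) (nat_lit 0x2218f2664f25d8c40374) (nat_lit 0))))) (N (nat_lit 1449) (L (E (nat_lit 6) (nat_lit 0x221cf2865025e0c44376) (nat_lit 0))) (L (E (nat_lit 6) (nat_lit 0x2220f2e65325f8c5037c) (nat_lit 0))))))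
def cl28 : RA := N (nat_lit 1477) (N (nat_lit 1474) (N (nat_lit 1457) (N (nat_lit 1453) (N (nat_lit 1452) (N (nat_lit 1451) (L (E (nat_lit 6) (nat_lit 0x2224f346592630c64382) (nat_lit 0))) (L (E (nat_lit 6) (nat_lit 0x222cf3865a2640c6c386) (nat_lit 0)))) (L (E (nat_lit 6) (nat_lit 0x2230f3a65b2648c70388) (nat_lit 0)))) (N (nat_lit 1454) (L (E (nat_lit 6) (nat_lit 0x2234f3c65c2650c7438a) (nat_lit 0))) (N (nat_lit 1456) (N (nat_lit 1455) (L (E (nat_lit 6) (nat_lit 0x2238f3e65d2658c7838c) (nat_lit 0))) (L (E (nat_lit 6) (nat_lit 0x223cf406612678c8838e) (nat_lit 0)))) (L (E (nat_lit 6) (nat_lit 0x2244f446632688c90392) (nat_lit 0)))))) (N (nat_lit 1462) (N (nat_lit 1460) (N (nat_lit 1458) (L (E (nat_lit 6) (nat_lit 0x2248f466642690c94394) (nat_lit 0))) (N (nat_lit 1459) (L (E (nat_lit 6) (nat_lit 0x224cf486652698c98396) (nat_lit 0))) (L (E (nat_lit 6) (nat_lit 0x2250f4a66626a0c9c398) (nat_lit 0)))))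 (N (nat_lit 1461) (L (E (nat_lit 6) (nat_lit 0x2254f4c66726a8ca039a) (nat_lit 0))) (L (E (nat_lit 6) (nat_lit 0x2258f5466a26d8cb039c) (nat_lit 0))))) (N (nat_lit 1467) (N (nat_lit 1465) (N (nat_lit 1464) (N (nat_lit 1463) (L (E (nat_lit 6) (nat_lit 0x225cf5666b26e0cb439e) (nat_lit 0))) (L (E (nat_lit 6) (nat_lit 0x2260f5866c26e8cb83a0) (nat_lit 0)))) (L (E (nat_lit 6) (nat_lit 0x2268f5e66e2700cc43a6) (nat_lit 0)))) (N (nat_lit 1466) (L (E (nat_lit 6) (nat_lit 0x226cf6066f2708cc83a8) (nat_lit 0))) (L (E (nat_lit 6) (nat_lit 0x2270f666732738cdc3ae) (nat_lit 0))))) (N (nat_lit 1471) (N (nat_lit 1469) (N (nat_lit 1468) (L (E (nat_lit 6) (nat_lit 0x2274f686742740ce03b0) (nat_lit 0))) (L (E (nat_lit 6) (nat_lit 0x2278f6e6762758cec3b6) (nat_lit 0)))) (N (nat_lit 1470) (L (E (nat_lit 6) (nat_lit 0x227cf7467b2788d043ba) (nat_lit 0))) (L (E (nat_lit 6) (nat_lit 0x2294fb06a52900d643c2) (nat_lit 0))))) (N (nat_lit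 1473) (N (nat_lit 1472) (L (E (nat_lit 6) (nat_lit 0x22b4fc86b22968d883cc) (nat_lit 0))) (L (E (nat_lit 6) (nat_lit 0x22b8fd46ba2998d903ce) (nat_lit 0)))) (L (E (nat_lit 6) (nat_lit 0x22c0fd86bc29a8d983d2) (nat_lit 0)))))))) (N (nat_lit 1476) (N (nat_lit 1475) (L (E (nat_lit 6) (nat_lit 0x22c4fe66c529f0da43d6) (nat_lit 0))) (L (E (nat_lit 6) (nat_lit 0x22c8fe86c629f8da83d8) (nat_lit 0)))) (L (E (nat_lit 6) (nat_lit 0x22dcffc6d12a58dc03e2) (nat_lit 0))))) (N (nat_lit 1489) (N (nat_lit 1485) (N (nat_lit 1479) (N (nat_lit 1478) (L (E (nat_lit 6) (nat_lit 0x22e50046d72a90dc83e6) (nat_lit 0))) (L (E (nat_lit 6) (nat_lit 0x23190446f72ba8dfc3f4) (nat_lit 0)))) (N (nat_lit 1483) (N (nat_lit 1481) (N (nat_lit 1480) (L (E (nat_lit 6) (nat_lit 0x235106e70b2c08e28400) (nat_lit 0))) (L (E (nat_lit 6) (nat_lit 0x23b11d28e447023711b4) (nat_lit 0)))) (N (nat_lit 1482) (L (E (nat_lit 6) (nat_lit 0x23bd0346501f888481d6)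 (nat_lit 0))) (L (E (nat_lit 6) (nat_lit 0x23e90dc7442d58f98496) (nat_lit 0))))) (N (nat_lit 1484) (L (E (nat_lit 6) (nat_lit 0x249923890847fa3f11f4) (nat_lit 0))) (L (E (nat_lit 6) (nat_lit 0x23ed0e67592ef90f053c) (nat_lit 0)))))) (N (nat_lit 1486) (L (E (nat_lit 6) (nat_lit 0x24051447d134e145c6ae) (nat_lit 0))) (N (nat_lit 1488) (N (nat_lit 1487) (L (E (nat_lit 6) (nat_lit 0x244922090e4852415204) (nat_lit 0))) (L (E (nat_lit 6) (nat_lit 0x24111507db354148c6b8) (nat_lit 0)))) (L (E (nat_lit 6) (nat_lit 0x24151527e035714a46bc) (nat_lit 0)))))) (N (nat_lit 1496) (N (nat_lit 1494) (N (nat_lit 1492) (N (nat_lit 1490) (L (E (nat_lit 6) (nat_lit 0x242915c7ea35d14cc6c8) (nat_lit 0))) (N (nat_lit 1491) (L (E (nat_lit 6) (nat_lit 0x24bd25c92d493a475214) (nat_lit 0))) (L (E (nat_lit 6) (nat_lit 0x242d15e7eb35d94d06ca) (nat_lit 0))))) (N (nat_lit 1493) (L (E (nat_lit 6) (nat_lit 0x24351627f336294f86d2) (nat_lit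 0))) (L (E (nat_lit 6) (nat_lit 0x243d16c7fc36795246de) (nat_lit 0))))) (N (nat_lit 1495) (L (E (nat_lit 6) (nat_lit 0x244516e7fe368952c6e0) (nat_lit 0))) (L (E (nat_lit 6) (nat_lit 0x244917480436c95506e8) (nat_lit 0))))) (N (nat_lit 1505) (N (nat_lit 1500) (N (nat_lit 1498) (N (nat_lit 1497) (L (E (nat_lit 6) (nat_lit 0x247919482a37e95e4706) (nat_lit 0))) (L (E (nat_lit 6) (nat_lit 0x24a91d6857396164c72c) (nat_lit 0)))) (N (nat_lit 1499) (L (E (nat_lit 6) (nat_lit 0x24c11f286d3a096987bc) (nat_lit 0))) (L (E (nat_lit 6) (nat_lit 0x24c92188b03f61af0a6a) (nat_lit 0))))) (N (nat_lit 1503) (N (nat_lit 1502) (N (nat_lit 1501) (L (E (nat_lit 6) (nat_lit 0x24cd2268bc4091bb0ad2) (nat_lit 0))) (L (E (nat_lit 6) (nat_lit 0x24ed2629034539f68d4e) (nat_lit 0)))) (L (E (nat_lit 6) (nat_lit 0x25252909474a3250d27a) (nat_lit 0)))) (N (nat_lit 1504) (L (E (nat_lit 6) (nat_lit 0x24f926891445ea04cdda) (nat_lit 0)))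 (L (E (nat_lit 3) (nat_lit 0x15c4a76535) (nat_lit 0)))))) (N (nat_lit 1510) (N (nat_lit 1508) (N (nat_lit 1507) (N (nat_lit 1506) (L (E (nat_lit 3) (nat_lit 0x1664abe559) (nat_lit 0))) (L (E (nat_lit 3) (nat_lit 0x268d2ce961) (nat_lit 0)))) (L (E (nat_lit 3) (nat_lit 0x1bd4a760b3) (nat_lit 0)))) (N (nat_lit 1509) (L (E (nat_lit 3) (nat_lit 0x223ce6e0fb) (nat_lit 0))) (L (E (nat_lit 3) (nat_lit 0x22a4e7a0ff) (nat_lit 0))))) (N (nat_lit 1512) (N (nat_lit 1511) (L (E (nat_lit 3) (nat_lit 0x2b85116181) (nat_lit 0))) (L (E (nat_lit 3) (nat_lit 0x47162329f3) (nat_lit 0)))) (N (nat_lit 1513) (L (E (nat_lit 3) (nat_lit 0x4736256a05) (nat_lit 0))) (L (E (nat_lit 3) (nat_lit 0x31e483a153) (nat_lit 0)))))))))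
def cl29 : RA := N (nat_lit 1535) (N (nat_lit 1525) (N (nat_lit 1521) (N (nat_lit 1518) (N (nat_lit 1517) (N (nat_lit 1516) (L (E (nat_lit 3) (nat_lit 0x1664b26559) (nat_lit 0))) (L (E (nat_lit 3) (nat_lit 0x16b4b4e56f) (nat_lit 0)))) (L (E (nat_lit 3) (nat_lit 0x22c5156871) (nat_lit 0)))) (N (nat_lit 1519) (L (E (nat_lit 3) (nat_lit 0x231d182883) (nat_lit 0))) (N (nat_lit 1520) (L (E (nat_lit 3) (nat_lit 0x26a5346967) (nat_lit 0))) (L (E (nat_lit 3) (nat_lit 0x26fd372979) (nat_lit 0)))))) (N (nat_lit 1522) (L (E (nat_lit 3) (nat_lit 0x214c2da0e5) (nat_lit 0))) (N (nat_lit 1524) (N (nat_lit 1523) (L (E (nat_lit 3) (nat_lit 0x24bc322107) (nat_lit 0))) (L (E (nat_lit 3) (nat_lit 0x43951a6747) (nat_lit 0)))) (L (E (nat_lit 3) (nat_lit 0x46dd64a9c5) (nat_lit 0)))))) (N (nat_lit 1531) (N (nat_lit 1528) (N (nat_lit 1527) (N (nat_lit 1526) (L (E (nat_lit 3) (nat_lit 0x426cc6a3d1) (nat_lit 0))) (L (E (nat_lit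 3) (nat_lit 0x440ceaa487) (nat_lit 0)))) (L (E (nat_lit 3) (nat_lit 0x46e52ca6b3) (nat_lit 0)))) (N (nat_lit 1530) (N (nat_lit 1529) (L (E (nat_lit 3) (nat_lit 0x48d57ba975) (nat_lit 0))) (L (E (nat_lit 3) (nat_lit 0x3964b2e003) (nat_lit 0)))) (L (E (nat_lit 3) (nat_lit 0x1b5496a111) (nat_lit 0))))) (N (nat_lit 1532) (L (E (nat_lit 3) (nat_lit 0x1b8499a117) (nat_lit 0))) (N (nat_lit 1533) (L (E (nat_lit 3) (nat_lit 0x2c75326315) (nat_lit 0))) (N (nat_lit 1534) (L (E (nat_lit 3) (nat_lit 0x4235e4e895) (nat_lit 0))) (L (E (nat_lit 3) (nat_lit 0x1c1cada001) (nat_lit 0)))))))) (N (nat_lit 1545) (N (nat_lit 1540) (N (nat_lit 1537) (N (nat_lit 1536) (L (E (nat_lit 3) (nat_lit 0x1c5cb2e003) (nat_lit 0))) (L (E (nat_lit 3) (nat_lit 0xaac172063) (nat_lit 0)))) (N (nat_lit 1539) (N (nat_lit 1538) (L (E (nat_lit 3) (nat_lit 0x12d434a111) (nat_lit 0))) (L (E (nat_lit 3) (nat_lit 0x15b4386137) (nat_lit 0))))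 (L (E (nat_lit 3) (nat_lit 0x1da463620d) (nat_lit 0))))) (N (nat_lit 1543) (N (nat_lit 1542) (N (nat_lit 1541) (L (E (nat_lit 3) (nat_lit 0x1f8470e241) (nat_lit 0))) (L (E (nat_lit 3) (nat_lit 0x44e5c42c2d) (nat_lit 0)))) (L (E (nat_lit 3) (nat_lit 0xcbc22e01b) (nat_lit 0)))) (N (nat_lit 1544) (L (E (nat_lit 3) (nat_lit 0x2a5cb2e0b3) (nat_lit 0))) (L (E (nat_lit 3) (nat_lit 0x42c5b623e9) (nat_lit 0)))))) (N (nat_lit 1552) (N (nat_lit 1549) (N (nat_lit 1547) (N (nat_lit 1546) (L (E (nat_lit 3) (nat_lit 0x1eec826127) (nat_lit 0))) (L (E (nat_lit 3) (nat_lit 0x4615e36ae3) (nat_lit 0)))) (N (nat_lit 1548) (L (E (nat_lit 3) (nat_lit 0x202cb2e04f) (nat_lit 0))) (L (E (nat_lit 3) (nat_lit 0x38556461ab) (nat_lit 0))))) (N (nat_lit 1551) (N (nat_lit 1550) (L (E (nat_lit 3) (nat_lit 0x40e5c6e36b) (nat_lit 0))) (L (E (nat_lit 3) (nat_lit 0x37e47f2199) (nat_lit 0)))) (L (E (nat_lit 3) (nat_lit 0x38848061b3)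 (nat_lit 0))))) (N (nat_lit 1555) (N (nat_lit 1554) (N (nat_lit 1553) (L (E (nat_lit 3) (nat_lit 0x38e4a9236d) (nat_lit 0))) (L (E (nat_lit 3) (nat_lit 0x4114f96559) (nat_lit 0)))) (L (E (nat_lit 3) (nat_lit 0xfbc17e077) (nat_lit 0)))) (N (nat_lit 1556) (L (E (nat_lit 3) (nat_lit 0x3a0d2d648b) (nat_lit 0))) (L (E (nat_lit 3) (nat_lit 0x3b4552e597) (nat_lit 0)))))))
def cl30 : RA := N (nat_lit 1610) (N (nat_lit 1592) (N (nat_lit 1590) (N (nat_lit 1588) (L (E (nat_lit 3) (nat_lit 0x26a52ce957) (nat_lit 0))) (N (nat_lit 1589) (L (E (nat_lit 3) (nat_lit 0x26e52e6963) (nat_lit 0))) (L (E (nat_lit 3) (nat_lit 0x26ed2ea965) (nat_lit 0))))) (N (nat_lit 1591) (L (E (nat_lit 3) (nat_lit 0x274531a979) (nat_lit 0))) (L (E (nat_lit 3) (nat_lit 0x27cd36e9a3) (nat_lit 0))))) (N (nat_lit 1597) (N (nat_lit 1594) (N (nat_lit 1593) (L (E (nat_lit 3) (nat_lit 0x27d53729a5) (nat_lit 0))) (L (E (nat_lit 3) (nat_lit 0x299d44ea19)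 (nat_lit 0)))) (N (nat_lit 1596) (N (nat_lit 1595) (L (E (nat_lit 3) (nat_lit 0x29b545aa1f) (nat_lit 0))) (L (E (nat_lit 3) (nat_lit 0x2a4d4a2a3f) (nat_lit 0)))) (L (E (nat_lit 3) (nat_lit 0x2add4f6a67) (nat_lit 0))))) (N (nat_lit 1605) (N (nat_lit 1601) (N (nat_lit 1599) (N (nat_lit 1598) (L (E (nat_lit 3) (nat_lit 0x2b1d526a81) (nat_lit 0))) (L (E (nat_lit 3) (nat_lit 0x2b2d52ea85) (nat_lit 0)))) (N (nat_lit 1600) (L (E (nat_lit 3) (nat_lit 0x2b3d546a93) (nat_lit 0))) (L (E (nat_lit 3) (nat_lit 0x3025792bb7) (nat_lit 0))))) (N (nat_lit 1603) (N (nat_lit 1602) (L (E (nat_lit 3) (nat_lit 0x303579abbb) (nat_lit 0))) (L (E (nat_lit 3) (nat_lit 0x30857c2bcf) (nat_lit 0)))) (N (nat_lit 1604) (L (E (nat_lit 3) (nat_lit 0x363da92d37) (nat_lit 0))) (L (E (nat_lit 3) (nat_lit 0x367dab6d49) (nat_lit 0)))))) (N (nat_lit 1609) (N (nat_lit 1608) (N (nat_lit 1607) (N (nat_lit 1606) (L (E (nat_lit 3) (nat_lit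 0x3685abad4b) (nat_lit 0))) (L (E (nat_lit 3) (nat_lit 0x1524a7651f) (nat_lit 0)))) (L (E (nat_lit 3) (nat_lit 0x1564a92525) (nat_lit 0)))) (L (E (nat_lit 3) (nat_lit 0x15acab252f) (nat_lit 0)))) (L (E (nat_lit 3) (nat_lit 0x15bcaba533) (nat_lit 0))))))) (N (nat_lit 1621) (N (nat_lit 1613) (N (nat_lit 1612) (N (nat_lit 1611) (L (E (nat_lit 3) (nat_lit 0x15c4abe535) (nat_lit 0))) (L (E (nat_lit 3) (nat_lit 0x1604ae2543) (nat_lit 0)))) (L (E (nat_lit 3) (nat_lit 0x164cb02553) (nat_lit 0)))) (N (nat_lit 1619) (N (nat_lit 1617) (N (nat_lit 1615) (N (nat_lit 1614) (L (E (nat_lit 3) (nat_lit 0x16ecb5657d) (nat_lit 0))) (L (E (nat_lit 3) (nat_lit 0x191cc6a60b) (nat_lit 0)))) (N (nat_lit 1616) (L (E (nat_lit 3) (nat_lit 0x1974c9a61f) (nat_lit 0))) (L (E (nat_lit 3) (nat_lit 0x1a64d1a667) (nat_lit 0))))) (N (nat_lit 1618) (L (E (nat_lit 3) (nat_lit 0x220d0ea84d) (nat_lit 0))) (L (E (nat_lit 3) (nat_lit 0x22ad12e86b)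 (nat_lit 0))))) (N (nat_lit 1620) (L (E (nat_lit 3) (nat_lit 0x22c513a871) (nat_lit 0))) (L (E (nat_lit 3) (nat_lit 0x230d16287f) (nat_lit 0)))))) (N (nat_lit 1627) (N (nat_lit 1624) (N (nat_lit 1622) (L (E (nat_lit 3) (nat_lit 0x2315166881) (nat_lit 0))) (N (nat_lit 1623) (L (E (nat_lit 3) (nat_lit 0x235518288f) (nat_lit 0))) (L (E (nat_lit 3) (nat_lit 0x2375192897) (nat_lit 0))))) (N (nat_lit 1625) (L (E (nat_lit 3) (nat_lit 0x23b51ba8ab) (nat_lit 0))) (N (nat_lit 1626) (L (E (nat_lit 3) (nat_lit 0x240d1e68c3) (nat_lit 0))) (L (E (nat_lit 3) (nat_lit 0x26352f294d) (nat_lit 0)))))) (N (nat_lit 1630) (N (nat_lit 1628) (L (E (nat_lit 3) (nat_lit 0x26a532e967) (nat_lit 0))) (N (nat_lit 1629) (L (E (nat_lit 3) (nat_lit 0x26e534a973) (nat_lit 0))) (L (E (nat_lit 3) (nat_lit 0x26ed34e975) (nat_lit 0))))) (N (nat_lit 1632) (N (nat_lit 1631) (L (E (nat_lit 3) (nat_lit 0x274537e98d) (nat_lit 0))) (L (E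 (nat_lit 3) (nat_lit 0x2955486a17) (nat_lit 0)))) (N (nat_lit 1633) (L (E (nat_lit 3) (nat_lit 0x29ed4cea39) (nat_lit 0))) (N (nat_lit 1634) (L (E (nat_lit 3) (nat_lit 0x2a154e2a43) (nat_lit 0))) (L (E (nat_lit 3) (nat_lit 0x2a4d502a51) (nat_lit 0)))))))))
def cl31 : RA := N (nat_lit 1696) (N (nat_lit 1685) (N (nat_lit 1677) (N (nat_lit 1670) (L (E (nat_lit 3) (nat_lit 0x26ad34a979) (nat_lit 0))) (N (nat_lit 1673) (N (nat_lit 1672) (N (nat_lit 1671) (L (E (nat_lit 3) (nat_lit 0x279d3c29b9) (nat_lit 0))) (L (E (nat_lit 3) (nat_lit 0x2a154fea55) (nat_lit 0)))) (L (E (nat_lit 3) (nat_lit 0x2a65526a67) (nat_lit 0)))) (N (nat_lit 1676) (N (nat_lit 1675) (N (nat_lit 1674) (L (E (nat_lit 3) (nat_lit 0x2abd552a81) (nat_lit 0))) (L (E (nat_lit 3) (nat_lit 0x2f45796ba3) (nat_lit 0)))) (L (E (nat_lit 3) (nat_lit 0x2f9d7c2bb7) (nat_lit 0)))) (L (E (nat_lit 3) (nat_lit 0x2fe57e6bc9) (nat_lit 0)))))) (N (nat_lit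 1682) (N (nat_lit 1680) (N (nat_lit 1679) (N (nat_lit 1678) (L (E (nat_lit 3) (nat_lit 0x2ff57eebcd) (nat_lit 0))) (L (E (nat_lit 3) (nat_lit 0x30d585ec09) (nat_lit 0)))) (L (E (nat_lit 3) (nat_lit 0x359dac2d37) (nat_lit 0)))) (N (nat_lit 1681) (L (E (nat_lit 3) (nat_lit 0x3f7dfb2fb3) (nat_lit 0))) (L (E (nat_lit 3) (nat_lit 0x13bc9a64cd) (nat_lit 0))))) (N (nat_lit 1683) (L (E (nat_lit 3) (nat_lit 0x1604abe559) (nat_lit 0))) (N (nat_lit 1684) (L (E (nat_lit 3) (nat_lit 0x164cae256b) (nat_lit 0))) (L (E (nat_lit 3) (nat_lit 0x16a4b0e581) (nat_lit 0))))))) (N (nat_lit 1692) (N (nat_lit 1689) (N (nat_lit 1687) (N (nat_lit 1686) (L (E (nat_lit 3) (nat_lit 0x16b4b16585) (nat_lit 0))) (L (E (nat_lit 3) (nat_lit 0x16e4b32593) (nat_lit 0)))) (N (nat_lit 1688) (L (E (nat_lit 3) (nat_lit 0x195cc6a62f) (nat_lit 0))) (L (E (nat_lit 3) (nat_lit 0x19b4c9a647) (nat_lit 0))))) (N (nat_lit 1690) (L (E (nat_lit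 3) (nat_lit 0x2034fd27e3) (nat_lit 0))) (N (nat_lit 1691) (L (E (nat_lit 3) (nat_lit 0x20a501a807) (nat_lit 0))) (L (E (nat_lit 3) (nat_lit 0x21fd0c285b) (nat_lit 0)))))) (N (nat_lit 1694) (N (nat_lit 1693) (L (E (nat_lit 3) (nat_lit 0x225d0ee871) (nat_lit 0))) (L (E (nat_lit 3) (nat_lit 0x22c5116885) (nat_lit 0)))) (N (nat_lit 1695) (L (E (nat_lit 3) (nat_lit 0x2305136895) (nat_lit 0))) (L (E (nat_lit 3) (nat_lit 0x230d13a897) (nat_lit 0))))))) (N (nat_lit 1705) (N (nat_lit 1702) (N (nat_lit 1698) (N (nat_lit 1697) (L (E (nat_lit 3) (nat_lit 0x231d14289b) (nat_lit 0))) (L (E (nat_lit 3) (nat_lit 0x235515e8a9) (nat_lit 0)))) (N (nat_lit 1700) (N (nat_lit 1699) (L (E (nat_lit 3) (nat_lit 0x237516e8b1) (nat_lit 0))) (L (E (nat_lit 3) (nat_lit 0x23f51ba8d7) (nat_lit 0)))) (N (nat_lit 1701) (L (E (nat_lit 3) (nat_lit 0x258d28e941) (nat_lit 0))) (L (E (nat_lit 3) (nat_lit 0x25e52b2953) (nat_lit 0))))))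 (N (nat_lit 1703) (L (E (nat_lit 3) (nat_lit 0x26352d2963) (nat_lit 0))) (N (nat_lit 1704) (L (E (nat_lit 3) (nat_lit 0x26752ee971) (nat_lit 0))) (L (E (nat_lit 3) (nat_lit 0x267d2f2973) (nat_lit 0)))))) (N (nat_lit 1706) (L (E (nat_lit 3) (nat_lit 0x268d2fa977) (nat_lit 0))) (N (nat_lit 1707) (L (E (nat_lit 3) (nat_lit 0x26952fe979) (nat_lit 0))) (N (nat_lit 1709) (N (nat_lit 1708) (L (E (nat_lit 3) (nat_lit 0x299d48aa3f) (nat_lit 0))) (L (E (nat_lit 3) (nat_lit 0x29ed4aea51) (nat_lit 0)))) (N (nat_lit 1711) (N (nat_lit 1710) (L (E (nat_lit 3) (nat_lit 0x2a454d6a65) (nat_lit 0))) (L (E (nat_lit 3) (nat_lit 0x3635acad5f) (nat_lit 0)))) (L (E (nat_lit 3) (nat_lit 0x363daced61) (nat_lit 0))))))))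
def cl32 : RA := N (nat_lit 1635) (N (nat_lit 1587) (N (nat_lit 1568) (N (nat_lit 1557) (cl29) (N (nat_lit 1566) (N (nat_lit 1565) (N (nat_lit 1560) (N (nat_lit 1559) (N (nat_lit 1558) (L (E (nat_lit 3) (nat_lit 0x4555c7aa55) (nat_lit 0))) (L (E (nat_lit 3) (nat_lit 0x45ddcc2ab9) (nat_lit 0)))) (L (E (nat_lit 3) (nat_lit 0x18d487e16d) (nat_lit 0)))) (N (nat_lit 1563) (N (nat_lit 1562) (N (nat_lit 1561) (L (E (nat_lit 3) (nat_lit 0x441d63e1b9) (nat_lit 0))) (L (E (nat_lit 3) (nat_lit 0x2c3ceb21a3) (nat_lit 0)))) (L (E (nat_lit 3) (nat_lit 0x436d98a4ed) (nat_lit 0)))) (N (nat_lit 1564) (L (E (nat_lit 3) (nat_lit 0x39a597e71d) (nat_lit 0))) (L (E (nat_lit 3) (nat_lit 0x144c9c64d3) (nat_lit 0)))))) (L (E (nat_lit 3) (nat_lit 0x1614a8e539) (nat_lit 0)))) (N (nat_lit 1567) (L (E (nat_lit 3) (nat_lit 0x1664ab2549) (nat_lit 0))) (L (E (nat_lit 3) (nat_lit 0x16a4ad6559) (nat_lit 0)))))) (N (nat_lit 1578)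 (N (nat_lit 1570) (N (nat_lit 1569) (L (E (nat_lit 3) (nat_lit 0x16b4ade55d) (nat_lit 0))) (L (E (nat_lit 3) (nat_lit 0x16bcae255f) (nat_lit 0)))) (N (nat_lit 1573) (N (nat_lit 1571) (L (E (nat_lit 3) (nat_lit 0x16e4af656b) (nat_lit 0))) (N (nat_lit 1572) (L (E (nat_lit 3) (nat_lit 0x16fcb02571) (nat_lit 0))) (L (E (nat_lit 3) (nat_lit 0x172cb2257f) (nat_lit 0))))) (N (nat_lit 1574) (L (E (nat_lit 3) (nat_lit 0x1734b26581) (nat_lit 0))) (N (nat_lit 1577) (N (nat_lit 1576) (N (nat_lit 1575) (L (E (nat_lit 3) (nat_lit 0x177cb52599) (nat_lit 0))) (L (E (nat_lit 3) (nat_lit 0x1964c3660d) (nat_lit 0)))) (L (E (nat_lit 3) (nat_lit 0x1974c3e611) (nat_lit 0)))) (L (E (nat_lit 3) (nat_lit 0x208cfc67d1) (nat_lit 0))))))) (N (nat_lit 1582) (N (nat_lit 1581) (N (nat_lit 1580) (N (nat_lit 1579) (L (E (nat_lit 3) (nat_lit 0x20b4fe67e1) (nat_lit 0))) (L (E (nat_lit 3) (nat_lit 0x231d106875) (nat_lit 0)))) (L (E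 (nat_lit 3) (nat_lit 0x237512e885) (nat_lit 0)))) (L (E (nat_lit 3) (nat_lit 0x23b5156897) (nat_lit 0)))) (N (nat_lit 1585) (N (nat_lit 1584) (N (nat_lit 1583) (L (E (nat_lit 3) (nat_lit 0x24051828af) (nat_lit 0))) (L (E (nat_lit 3) (nat_lit 0x241518a8b3) (nat_lit 0)))) (L (E (nat_lit 3) (nat_lit 0x24451aa8c1) (nat_lit 0)))) (N (nat_lit 1586) (L (E (nat_lit 3) (nat_lit 0x244d1ae8c3) (nat_lit 0))) (L (E (nat_lit 3) (nat_lit 0x24551b28c5) (nat_lit 0)))))))) (cl30)) (N (nat_lit 1669) (N (nat_lit 1654) (N (nat_lit 1648) (N (nat_lit 1645) (N (nat_lit 1639) (N (nat_lit 1637) (N (nat_lit 1636) (L (E (nat_lit 3) (nat_lit 0x2a8d526a61) (nat_lit 0))) (L (E (nat_lit 3) (nat_lit 0x2aa5532a67) (nat_lit 0)))) (N (nat_lit 1638) (L (E (nat_lit 3) (nat_lit 0x2fcd7c2bb1) (nat_lit 0))) (L (E (nat_lit 3) (nat_lit 0x308581ebe1) (nat_lit 0))))) (N (nat_lit 1640) (L (E (nat_lit 3) (nat_lit 0x3675b1ad59) (nat_lit 0)))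 (N (nat_lit 1644) (N (nat_lit 1642) (N (nat_lit 1641) (L (E (nat_lit 3) (nat_lit 0x299cfc2017) (nat_lit 0))) (L (E (nat_lit 3) (nat_lit 0x29ed18607b) (nat_lit 0)))) (N (nat_lit 1643) (L (E (nat_lit 3) (nat_lit 0x2a0519207d) (nat_lit 0))) (L (E (nat_lit 3) (nat_lit 0x12ec96a493) (nat_lit 0))))) (L (E (nat_lit 3) (nat_lit 0x157cab2535) (nat_lit 0)))))) (N (nat_lit 1647) (N (nat_lit 1646) (L (E (nat_lit 3) (nat_lit 0x161cb02559) (nat_lit 0))) (L (E (nat_lit 3) (nat_lit 0x1664b2656b) (nat_lit 0)))) (L (E (nat_lit 3) (nat_lit 0x1674b2e56f) (nat_lit 0))))) (N (nat_lit 1649) (L (E (nat_lit 3) (nat_lit 0x16b4b4e57f) (nat_lit 0))) (N (nat_lit 1651) (N (nat_lit 1650) (L (E (nat_lit 3) (nat_lit 0x16bcb52581) (nat_lit 0))) (L (E (nat_lit 3) (nat_lit 0x16fcb72593) (nat_lit 0)))) (N (nat_lit 1652) (L (E (nat_lit 3) (nat_lit 0x1934c8e61f) (nat_lit 0))) (N (nat_lit 1653) (L (E (nat_lit 3) (nat_lit 0x194cc9a625)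 (nat_lit 0))) (L (E (nat_lit 3) (nat_lit 0x222d10a861) (nat_lit 0)))))))) (N (nat_lit 1661) (N (nat_lit 1658) (N (nat_lit 1656) (N (nat_lit 1655) (L (E (nat_lit 3) (nat_lit 0x22c515687f) (nat_lit 0))) (L (E (nat_lit 3) (nat_lit 0x22d515e883) (nat_lit 0)))) (N (nat_lit 1657) (L (E (nat_lit 3) (nat_lit 0x22dd162885) (nat_lit 0))) (L (E (nat_lit 3) (nat_lit 0x230517688f) (nat_lit 0))))) (N (nat_lit 1659) (L (E (nat_lit 3) (nat_lit 0x2325186897) (nat_lit 0))) (N (nat_lit 1660) (L (E (nat_lit 3) (nat_lit 0x233518e89b) (nat_lit 0))) (L (E (nat_lit 3) (nat_lit 0x238d1ba8b1) (nat_lit 0)))))) (N (nat_lit 1665) (N (nat_lit 1664) (N (nat_lit 1663) (N (nat_lit 1662) (L (E (nat_lit 3) (nat_lit 0x25a52c6941) (nat_lit 0))) (L (E (nat_lit 3) (nat_lit 0x25bd2d2947) (nat_lit 0)))) (L (E (nat_lit 3) (nat_lit 0x25fd2f2953) (nat_lit 0)))) (L (E (nat_lit 3) (nat_lit 0x264d31a963) (nat_lit 0)))) (N (nat_lit 1668) (N (nat_lit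 1666) (L (E (nat_lit 3) (nat_lit 0x265d322967) (nat_lit 0))) (N (nat_lit 1667) (L (E (nat_lit 3) (nat_lit 0x2665326969) (nat_lit 0))) (L (E (nat_lit 3) (nat_lit 0x268d33a971) (nat_lit 0))))) (L (E (nat_lit 3) (nat_lit 0x26a5346977) (nat_lit 0))))))) (cl31))
def cl33 : RA := N (nat_lit 1733) (N (nat_lit 1725) (N (nat_lit 1719) (N (nat_lit 1717) (N (nat_lit 1715) (N (nat_lit 1714) (L (E (nat_lit 3) (nat_lit 0x6d4356195) (nat_lit 0))) (L (E (nat_lit 3) (nat_lit 0x15b4aaa527) (nat_lit 0)))) (N (nat_lit 1716) (L (E (nat_lit 3) (nat_lit 0x15c4ab252b) (nat_lit 0))) (L (E (nat_lit 3) (nat_lit 0x15f4ace531) (nat_lit 0))))) (N (nat_lit 1718) (L (E (nat_lit 3) (nat_lit 0x1604ad6535) (nat_lit 0))) (L (E (nat_lit 3) (nat_lit 0x1624ae653d) (nat_lit 0))))) (N (nat_lit 1721) (N (nat_lit 1720) (L (E (nat_lit 3) (nat_lit 0x165cafe547) (nat_lit 0))) (L (E (nat_lit 3) (nat_lit 0x16a4b26559) (nat_lit 0)))) (N (nat_lit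 1723) (N (nat_lit 1722) (L (E (nat_lit 3) (nat_lit 0x1fe4fc27a9) (nat_lit 0))) (L (E (nat_lit 3) (nat_lit 0x224d0f684b) (nat_lit 0)))) (N (nat_lit 1724) (L (E (nat_lit 3) (nat_lit 0x225d0fe84f) (nat_lit 0))) (L (E (nat_lit 3) (nat_lit 0x226d106853) (nat_lit 0))))))) (N (nat_lit 1728) (N (nat_lit 1726) (L (E (nat_lit 3) (nat_lit 0x22bd12a85f) (nat_lit 0))) (N (nat_lit 1727) (L (E (nat_lit 3) (nat_lit 0x22c512e861) (nat_lit 0))) (L (E (nat_lit 3) (nat_lit 0x231d15e875) (nat_lit 0))))) (N (nat_lit 1730) (N (nat_lit 1729) (L (E (nat_lit 3) (nat_lit 0x235d17a87f) (nat_lit 0))) (L (E (nat_lit 3) (nat_lit 0x24451f68c1) (nat_lit 0)))) (N (nat_lit 1732) (N (nat_lit 1731) (L (E (nat_lit 3) (nat_lit 0x259529e92d) (nat_lit 0))) (L (E (nat_lit 3) (nat_lit 0x25e52c6935) (nat_lit 0)))) (L (E (nat_lit 3) (nat_lit 0x25f52ce939) (nat_lit 0))))))) (N (nat_lit 1739) (N (nat_lit 1735) (N (nat_lit 1734) (L (E (nat_lit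 3) (nat_lit 0x26352e6941) (nat_lit 0))) (L (E (nat_lit 3) (nat_lit 0x26452ee945) (nat_lit 0)))) (N (nat_lit 1738) (N (nat_lit 1737) (N (nat_lit 1736) (L (E (nat_lit 3) (nat_lit 0x269531a953) (nat_lit 0))) (L (E (nat_lit 3) (nat_lit 0x26a5322957) (nat_lit 0)))) (L (E (nat_lit 3) (nat_lit 0x26e533e963) (nat_lit 0)))) (L (E (nat_lit 3) (nat_lit 0x26fd34a969) (nat_lit 0))))) (N (nat_lit 1744) (N (nat_lit 1742) (N (nat_lit 1741) (N (nat_lit 1740) (L (E (nat_lit 3) (nat_lit 0x273d36e977) (nat_lit 0))) (L (E (nat_lit 3) (nat_lit 0x27a53a6995) (nat_lit 0)))) (L (E (nat_lit 3) (nat_lit 0x27cd3be9a3) (nat_lit 0)))) (N (nat_lit 1743) (L (E (nat_lit 3) (nat_lit 0x299d4a2a19) (nat_lit 0))) (L (E (nat_lit 3) (nat_lit 0x2a4d4f6a3f) (nat_lit 0))))) (N (nat_lit 1751) (N (nat_lit 1747) (N (nat_lit 1746) (N (nat_lit 1745) (L (E (nat_lit 3) (nat_lit 0x2a5d4fea43) (nat_lit 0))) (L (E (nat_lit 3) (nat_lit 0x2aad52aa59)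 (nat_lit 0)))) (L (E (nat_lit 3) (nat_lit 0x2b1d56ea81) (nat_lit 0)))) (N (nat_lit 1748) (L (E (nat_lit 3) (nat_lit 0x372db6ad7d) (nat_lit 0))) (N (nat_lit 1750) (N (nat_lit 1749) (L (E (nat_lit 3) (nat_lit 0x4076016fdd) (nat_lit 0))) (L (E (nat_lit 3) (nat_lit 0xd746aa33f) (nat_lit 0)))) (L (E (nat_lit 3) (nat_lit 0x15ecaca543) (nat_lit 0)))))) (N (nat_lit 1752) (L (E (nat_lit 3) (nat_lit 0x1604ad6549) (nat_lit 0))) (L (E (nat_lit 3) (nat_lit 0x165cafe55d) (nat_lit 0)))))))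
def cl34 : RA := N (nat_lit 1515) (N (nat_lit 1357) (N (nat_lit 1246) (cl23) (N (nat_lit 1267) (N (nat_lit 1257) (N (nat_lit 1249) (N (nat_lit 1248) (N (nat_lit 1247) (L (E (nat_lit 6) (nat_lit 0x1b10d726ae3521a68d24) (nat_lit 0))) (L (E (nat_lit 6) (nat_lit 0x1b24d906c73631b14d88) (nat_lit 0)))) (L (E (nat_lit 6) (nat_lit 0x1b18d766b03531a70d28) (nat_lit 0)))) (N (nat_lit 1254) (N (nat_lit 1250) (L (E (nat_lit 6) (nat_lit 0x1b2cd946c93641b1cd8c) (nat_lit 0))) (N (nat_lit 1252) (N (nat_lit 1251) (L (E (nat_lit 6) (nat_lit 0x1b1cd786b13539a74d2a) (nat_lit 0))) (L (E (nat_lit 6) (nat_lit 0x1b30d966ca3649b20d8e) (nat_lit 0)))) (N (nat_lit 1253) (L (E (nat_lit 6) (nat_lit 0x1b20d7a6b23541a78d2c) (nat_lit 0))) (L (E (nat_lit 6) (nat_lit 0x1b34d886b93571a90d34) (nat_lit 0)))))) (N (nat_lit 1256) (N (nat_lit 1255) (L (E (nat_lit 6) (nat_lit 0x1b48da26d03679b38d9a) (nat_lit 0))) (L (E (nat_lit 6) (nat_lit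 0x1b38d8a6ba3579a94d36) (nat_lit 0)))) (L (E (nat_lit 6) (nat_lit 0x1b4cda46d13681b3cd9c) (nat_lit 0)))))) (N (nat_lit 1259) (N (nat_lit 1258) (L (E (nat_lit 6) (nat_lit 0x1b3cd8c6bb3581a98d38) (nat_lit 0))) (L (E (nat_lit 6) (nat_lit 0x1b50da66d23689b40d9e) (nat_lit 0)))) (N (nat_lit 1263) (N (nat_lit 1261) (N (nat_lit 1260) (L (E (nat_lit 6) (nat_lit 0x1b40d8e6bc3589a9cd3a) (nat_lit 0))) (L (E (nat_lit 6) (nat_lit 0x1b48d926be3599aa4d3e) (nat_lit 0)))) (N (nat_lit 1262) (L (E (nat_lit 6) (nat_lit 0x1b68db26d836b9b58daa) (nat_lit 0))) (L (E (nat_lit 6) (nat_lit 0x1b58d9c6c535d1abcd4a) (nat_lit 0))))) (N (nat_lit 1264) (L (E (nat_lit 6) (nat_lit 0x1b60da06c735e1ac4d4e) (nat_lit 0))) (N (nat_lit 1265) (L (E (nat_lit 6) (nat_lit 0x1b74db86db36d1b64db0) (nat_lit 0))) (N (nat_lit 1266) (L (E (nat_lit 6) (nat_lit 0x1b64da26c835e9ac8d50) (nat_lit 0))) (L (E (nat_lit 6) (nat_lit 0x1b68da46c935f1accd52)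 (nat_lit 0))))))))) (N (nat_lit 1312) (cl24) (cl25)))) (N (nat_lit 1514) (N (nat_lit 1450) (N (nat_lit 1409) (cl26) (cl27)) (cl28)) (L (E (nat_lit 3) (nat_lit 0x32e400a001) (nat_lit 0))))) (N (nat_lit 1712) (cl32) (N (nat_lit 1713) (L (E (nat_lit 3) (nat_lit 0x332c00a001) (nat_lit 0))) (N (nat_lit 1753) (cl33) (N (nat_lit 1772) (N (nat_lit 1764) (N (nat_lit 1761) (N (nat_lit 1760) (N (nat_lit 1756) (N (nat_lit 1755) (N (nat_lit 1754) (L (E (nat_lit 3) (nat_lit 0x1664b0255f) (nat_lit 0))) (L (E (nat_lit 3) (nat_lit 0x169cb2256f) (nat_lit 0)))) (L (E (nat_lit 3) (nat_lit 0x174cb7e59f) (nat_lit 0)))) (N (nat_lit 1758) (N (nat_lit 1757) (L (E (nat_lit 3) (nat_lit 0x1a4cd06663) (nat_lit 0))) (L (E (nat_lit 3) (nat_lit 0x1a7cd1a673) (nat_lit 0)))) (N (nat_lit 1759) (L (E (nat_lit 3) (nat_lit 0x20bd03a7fb) (nat_lit 0))) (L (E (nat_lit 3) (nat_lit 0x20d5046801) (nat_lit 0)))))) (L (E (nat_lit 3) (nat_lit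 0x225d0fe861) (nat_lit 0)))) (N (nat_lit 1762) (L (E (nat_lit 3) (nat_lit 0x22bd12a875) (nat_lit 0))) (N (nat_lit 1763) (L (E (nat_lit 3) (nat_lit 0x22c512e877) (nat_lit 0))) (L (E (nat_lit 3) (nat_lit 0x2305152883) (nat_lit 0)))))) (N (nat_lit 1768) (N (nat_lit 1766) (N (nat_lit 1765) (L (E (nat_lit 3) (nat_lit 0x230d156885) (nat_lit 0))) (L (E (nat_lit 3) (nat_lit 0x231d15e889) (nat_lit 0)))) (N (nat_lit 1767) (L (E (nat_lit 3) (nat_lit 0x232516288b) (nat_lit 0))) (L (E (nat_lit 3) (nat_lit 0x237518689d) (nat_lit 0))))) (N (nat_lit 1770) (N (nat_lit 1769) (L (E (nat_lit 3) (nat_lit 0x237d18a89f) (nat_lit 0))) (L (E (nat_lit 3) (nat_lit 0x23ad1aa8af) (nat_lit 0)))) (N (nat_lit 1771) (L (E (nat_lit 3) (nat_lit 0x23bd1b28b3) (nat_lit 0))) (L (E (nat_lit 3) (nat_lit 0x247d21a8ed) (nat_lit 0))))))) (N (nat_lit 1777) (N (nat_lit 1773) (L (E (nat_lit 3) (nat_lit 0x25e52c6947) (nat_lit 0))) (N (nat_lit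 1774) (L (E (nat_lit 3) (nat_lit 0x26452ee957) (nat_lit 0))) (N (nat_lit 1775) (L (E (nat_lit 3) (nat_lit 0x268d316967) (nat_lit 0))) (N (nat_lit 1776) (L (E (nat_lit 3) (nat_lit 0x269531a969) (nat_lit 0))) (L (E (nat_lit 3) (nat_lit 0x26dd33a977) (nat_lit 0))))))) (N (nat_lit 1779) (N (nat_lit 1778) (L (E (nat_lit 3) (nat_lit 0x26fd34a97f) (nat_lit 0))) (L (E (nat_lit 3) (nat_lit 0x270534e981) (nat_lit 0)))) (N (nat_lit 1780) (L (E (nat_lit 3) (nat_lit 0x274d376995) (nat_lit 0))) (N (nat_lit 1783) (N (nat_lit 1782) (N (nat_lit 1781) (L (E (nat_lit 3) (nat_lit 0x278d39a9a7) (nat_lit 0))) (L (E (nat_lit 3) (nat_lit 0x279d3a29ab) (nat_lit 0)))) (L (E (nat_lit 3) (nat_lit 0x2a054cea45) (nat_lit 0)))) (N (nat_lit 1784) (L (E (nat_lit 3) (nat_lit 0x2aa5526a6d) (nat_lit 0))) (N (nat_lit 1785) (L (E (nat_lit 3) (nat_lit 0x2fe57c2bbd) (nat_lit 0))) (L (E (nat_lit 3) (nat_lit 0x30257e6bcf) (nat_lit 0)))))))))))))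
def cl35 : RA := N (nat_lit 1806) (N (nat_lit 1787) (L (E (nat_lit 3) (nat_lit 0x327400a001) (nat_lit 0))) (N (nat_lit 1797) (N (nat_lit 1794) (N (nat_lit 1791) (N (nat_lit 1789) (N (nat_lit 1788) (L (E (nat_lit 3) (nat_lit 0x363daead4f) (nat_lit 0))) (L (E (nat_lit 3) (nat_lit 0x36c5b3ad79) (nat_lit 0)))) (N (nat_lit 1790) (L (E (nat_lit 3) (nat_lit 0x49fd186741) (nat_lit 0))) (L (E (nat_lit 3) (nat_lit 0x8644221f9) (nat_lit 0))))) (N (nat_lit 1793) (N (nat_lit 1792) (L (E (nat_lit 3) (nat_lit 0x15acab2525) (nat_lit 0))) (L (E (nat_lit 3) (nat_lit 0x15bcaba529) (nat_lit 0)))) (L (E (nat_lit 3) (nat_lit 0x15f4ada531) (nat_lit 0))))) (N (nat_lit 1796) (N (nat_lit 1795) (L (E (nat_lit 3) (nat_lit 0x15fcade533) (nat_lit 0))) (L (E (nat_lit 3) (nat_lit 0x1604ae2535) (nat_lit 0)))) (L (E (nat_lit 3) (nat_lit 0x164cb02543) (nat_lit 0))))) (N (nat_lit 1798) (L (E (nat_lit 3) (nat_lit 0x165cb0a547) (nat_lit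 0))) (N (nat_lit 1801) (N (nat_lit 1799) (L (E (nat_lit 3) (nat_lit 0x16a4b32559) (nat_lit 0))) (N (nat_lit 1800) (L (E (nat_lit 3) (nat_lit 0x16b4b3a55d) (nat_lit 0))) (L (E (nat_lit 3) (nat_lit 0x177cba6599) (nat_lit 0))))) (N (nat_lit 1805) (N (nat_lit 1804) (N (nat_lit 1803) (N (nat_lit 1802) (L (E (nat_lit 3) (nat_lit 0x1934c76605) (nat_lit 0))) (L (E (nat_lit 3) (nat_lit 0x1fd4fc67a5) (nat_lit 0)))) (L (E (nat_lit 3) (nat_lit 0x2034ff67bb) (nat_lit 0)))) (L (E (nat_lit 3) (nat_lit 0x220d0ea849) (nat_lit 0)))) (L (E (nat_lit 3) (nat_lit 0x225d10a84f) (nat_lit 0)))))))) (N (nat_lit 1831) (N (nat_lit 1816) (N (nat_lit 1810) (N (nat_lit 1808) (N (nat_lit 1807) (L (E (nat_lit 3) (nat_lit 0x22bd13685f) (nat_lit 0))) (L (E (nat_lit 3) (nat_lit 0x22c513a861) (nat_lit 0)))) (N (nat_lit 1809) (L (E (nat_lit 3) (nat_lit 0x22cd13e863) (nat_lit 0))) (L (E (nat_lit 3) (nat_lit 0x230d162871) (nat_lit 0)))))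 (N (nat_lit 1813) (N (nat_lit 1811) (L (E (nat_lit 3) (nat_lit 0x231d16a875) (nat_lit 0))) (N (nat_lit 1812) (L (E (nat_lit 3) (nat_lit 0x235d18687f) (nat_lit 0))) (L (E (nat_lit 3) (nat_lit 0x23b51ba897) (nat_lit 0))))) (N (nat_lit 1815) (N (nat_lit 1814) (L (E (nat_lit 3) (nat_lit 0x25dd2ce933) (nat_lit 0))) (L (E (nat_lit 3) (nat_lit 0x25e52d2935) (nat_lit 0)))) (L (E (nat_lit 3) (nat_lit 0x26352f2941) (nat_lit 0)))))) (N (nat_lit 1822) (N (nat_lit 1819) (N (nat_lit 1817) (L (E (nat_lit 3) (nat_lit 0x26452fa945) (nat_lit 0))) (N (nat_lit 1818) (L (E (nat_lit 3) (nat_lit 0x264d2fe947) (nat_lit 0))) (L (E (nat_lit 3) (nat_lit 0x2655302949) (nat_lit 0))))) (N (nat_lit 1820) (L (E (nat_lit 3) (nat_lit 0x26e534a963) (nat_lit 0))) (N (nat_lit 1821) (L (E (nat_lit 3) (nat_lit 0x26fd356969) (nat_lit 0))) (L (E (nat_lit 3) (nat_lit 0x274537e979) (nat_lit 0)))))) (N (nat_lit 1825) (N (nat_lit 1823) (L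 (E (nat_lit 3) (nat_lit 0x27dd3d29a7) (nat_lit 0))) (N (nat_lit 1824) (L (E (nat_lit 3) (nat_lit 0x29954aaa17) (nat_lit 0))) (L (E (nat_lit 3) (nat_lit 0x2a4d502a3f) (nat_lit 0))))) (N (nat_lit 1828) (N (nat_lit 1826) (L (E (nat_lit 3) (nat_lit 0x2a5d50aa43) (nat_lit 0))) (N (nat_lit 1827) (L (E (nat_lit 3) (nat_lit 0x2f3d77ab8d) (nat_lit 0))) (L (E (nat_lit 3) (nat_lit 0x2fed7d2ba9) (nat_lit 0))))) (N (nat_lit 1829) (L (E (nat_lit 3) (nat_lit 0x303d7febbd) (nat_lit 0))) (N (nat_lit 1830) (L (E (nat_lit 3) (nat_lit 0x3695b2ad4f) (nat_lit 0))) (L (E (nat_lit 3) (nat_lit 0x36cdb4ad61) (nat_lit 0))))))))) (L (E (nat_lit 3) (nat_lit 0x31ac00a001) (nat_lit 0))))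
def cl36 : RA := N (nat_lit 1858) (N (nat_lit 1847) (N (nat_lit 1838) (N (nat_lit 1837) (N (nat_lit 1836) (N (nat_lit 1835) (N (nat_lit 1834) (N (nat_lit 1833) (L (E (nat_lit 3) (nat_lit 0xf8c79a3c5) (nat_lit 0))) (L (E (nat_lit 3) (nat_lit 0x13b49724a5) (nat_lit 0)))) (L (E (nat_lit 3) (nat_lit 0x140c9a64bb) (nat_lit 0)))) (L (E (nat_lit 3) (nat_lit 0x1604a92535) (nat_lit 0)))) (L (E (nat_lit 3) (nat_lit 0x165caba547) (nat_lit 0)))) (L (E (nat_lit 3) (nat_lit 0x1664abe549) (nat_lit 0)))) (N (nat_lit 1840) (N (nat_lit 1839) (L (E (nat_lit 3) (nat_lit 0x16a4ae2559) (nat_lit 0))) (L (E (nat_lit 3) (nat_lit 0x16e4b0256b) (nat_lit 0)))) (N (nat_lit 1843) (N (nat_lit 1841) (L (E (nat_lit 3) (nat_lit 0x172cb2e57f) (nat_lit 0))) (N (nat_lit 1842) (L (E (nat_lit 3) (nat_lit 0x197cc4e613) (nat_lit 0))) (L (E (nat_lit 3) (nat_lit 0x1a4ccc664d) (nat_lit 0))))) (N (nat_lit 1846) (N (nat_lit 1844) (L (E (nat_lit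 3) (nat_lit 0x1fe4f7e7a9) (nat_lit 0))) (N (nat_lit 1845) (L (E (nat_lit 3) (nat_lit 0x20b4ff27e1) (nat_lit 0))) (L (E (nat_lit 3) (nat_lit 0x225d0c284f) (nat_lit 0))))) (L (E (nat_lit 3) (nat_lit 0x22c50ee861) (nat_lit 0))))))) (N (nat_lit 1851) (N (nat_lit 1849) (N (nat_lit 1848) (L (E (nat_lit 3) (nat_lit 0x235d12e87f) (nat_lit 0))) (L (E (nat_lit 3) (nat_lit 0x237513a885) (nat_lit 0)))) (N (nat_lit 1850) (L (E (nat_lit 3) (nat_lit 0x23ad15e895) (nat_lit 0))) (L (E (nat_lit 3) (nat_lit 0x23b5162897) (nat_lit 0))))) (N (nat_lit 1855) (N (nat_lit 1854) (N (nat_lit 1853) (N (nat_lit 1852) (L (E (nat_lit 3) (nat_lit 0x240d1928b1) (nat_lit 0))) (L (E (nat_lit 3) (nat_lit 0x24551be8c5) (nat_lit 0)))) (L (E (nat_lit 3) (nat_lit 0x24851de8d9) (nat_lit 0)))) (L (E (nat_lit 3) (nat_lit 0x26952d2953) (nat_lit 0)))) (N (nat_lit 1856) (L (E (nat_lit 3) (nat_lit 0x26d52ea95f) (nat_lit 0))) (N (nat_lit 1857)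 (L (E (nat_lit 3) (nat_lit 0x26fd2fe969) (nat_lit 0))) (L (E (nat_lit 3) (nat_lit 0x272d31a973) (nat_lit 0)))))))) (N (nat_lit 1872) (N (nat_lit 1865) (N (nat_lit 1861) (N (nat_lit 1859) (L (E (nat_lit 3) (nat_lit 0x273d322977) (nat_lit 0))) (N (nat_lit 1860) (L (E (nat_lit 3) (nat_lit 0x27d537e9a5) (nat_lit 0))) (L (E (nat_lit 3) (nat_lit 0x28053a29b9) (nat_lit 0))))) (N (nat_lit 1863) (N (nat_lit 1862) (L (E (nat_lit 3) (nat_lit 0x280d3a69bb) (nat_lit 0))) (L (E (nat_lit 3) (nat_lit 0x2b1d532a81) (nat_lit 0)))) (N (nat_lit 1864) (L (E (nat_lit 3) (nat_lit 0x2fdd776ba5) (nat_lit 0))) (L (E (nat_lit 3) (nat_lit 0x35eda7ad29) (nat_lit 0)))))) (N (nat_lit 1871) (N (nat_lit 1866) (L (E (nat_lit 3) (nat_lit 0x363da9ed37) (nat_lit 0))) (N (nat_lit 1868) (N (nat_lit 1867) (L (E (nat_lit 3) (nat_lit 0x367dac2d49) (nat_lit 0))) (L (E (nat_lit 3) (nat_lit 0x36cdaf6d61) (nat_lit 0)))) (N (nat_lit 1870) (N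 (nat_lit 1869) (L (E (nat_lit 3) (nat_lit 0x370db1ed75) (nat_lit 0))) (L (E (nat_lit 3) (nat_lit 0x3d05e2ef01) (nat_lit 0)))) (L (E (nat_lit 3) (nat_lit 0x23243020cd) (nat_lit 0)))))) (L (E (nat_lit 3) (nat_lit 0x161cab2549) (nat_lit 0))))) (N (nat_lit 1877) (N (nat_lit 1873) (L (E (nat_lit 3) (nat_lit 0x1664ad6559) (nat_lit 0))) (N (nat_lit 1874) (L (E (nat_lit 3) (nat_lit 0x1674ade55d) (nat_lit 0))) (N (nat_lit 1875) (L (E (nat_lit 3) (nat_lit 0x167cae255f) (nat_lit 0))) (N (nat_lit 1876) (L (E (nat_lit 3) (nat_lit 0x16a4af656b) (nat_lit 0))) (L (E (nat_lit 3) (nat_lit 0x16acafa56d) (nat_lit 0))))))) (N (nat_lit 1878) (L (E (nat_lit 3) (nat_lit 0x16b4afe56f) (nat_lit 0))) (N (nat_lit 1880) (N (nat_lit 1879) (L (E (nat_lit 3) (nat_lit 0x16bcb02571) (nat_lit 0))) (L (E (nat_lit 3) (nat_lit 0x16fcb26581) (nat_lit 0)))) (N (nat_lit 1882) (N (nat_lit 1881) (L (E (nat_lit 3) (nat_lit 0x170cb2e585) (nat_lit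 0))) (L (E (nat_lit 3) (nat_lit 0x1934c3e611) (nat_lit 0)))) (N (nat_lit 1884) (N (nat_lit 1883) (L (E (nat_lit 3) (nat_lit 0x1944c46615) (nat_lit 0))) (L (E (nat_lit 3) (nat_lit 0x19e4c9a63b) (nat_lit 0)))) (L (E (nat_lit 3) (nat_lit 0x1fecf967bb) (nat_lit 0)))))))))
def cl37 : RA := N (nat_lit 1901) (N (nat_lit 1891) (N (nat_lit 1887) (N (nat_lit 1886) (L (E (nat_lit 3) (nat_lit 0x22d5106875) (nat_lit 0))) (L (E (nat_lit 3) (nat_lit 0x231d12a883) (nat_lit 0)))) (N (nat_lit 1889) (N (nat_lit 1888) (L (E (nat_lit 3) (nat_lit 0x232512e885) (nat_lit 0))) (L (E (nat_lit 3) (nat_lit 0x236514e893) (nat_lit 0)))) (N (nat_lit 1890) (L (E (nat_lit 3) (nat_lit 0x2375156897) (nat_lit 0))) (L (E (nat_lit 3) (nat_lit 0x238515e89b) (nat_lit 0)))))) (N (nat_lit 1896) (N (nat_lit 1894) (N (nat_lit 1893) (N (nat_lit 1892) (L (E (nat_lit 3) (nat_lit 0x23cd1868b1) (nat_lit 0))) (L (E (nat_lit 3) (nat_lit 0x23dd18e8b5)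 (nat_lit 0)))) (L (E (nat_lit 3) (nat_lit 0x240d1ae8c3) (nat_lit 0)))) (N (nat_lit 1895) (L (E (nat_lit 3) (nat_lit 0x264d2c6953) (nat_lit 0))) (L (E (nat_lit 3) (nat_lit 0x269d2ea965) (nat_lit 0))))) (N (nat_lit 1897) (L (E (nat_lit 3) (nat_lit 0x26a52ee967) (nat_lit 0))) (N (nat_lit 1899) (N (nat_lit 1898) (L (E (nat_lit 3) (nat_lit 0x26e530e973) (nat_lit 0))) (L (E (nat_lit 3) (nat_lit 0x26fd31a979) (nat_lit 0)))) (N (nat_lit 1900) (L (E (nat_lit 3) (nat_lit 0x279d3729a5) (nat_lit 0))) (L (E (nat_lit 3) (nat_lit 0x28153be9cf) (nat_lit 0)))))))) (N (nat_lit 1919) (N (nat_lit 1912) (N (nat_lit 1908) (N (nat_lit 1904) (N (nat_lit 1903) (N (nat_lit 1902) (L (E (nat_lit 3) (nat_lit 0x2a154aaa43) (nat_lit 0))) (L (E (nat_lit 3) (nat_lit 0x2aa54f6a67) (nat_lit 0)))) (L (E (nat_lit 3) (nat_lit 0x2f9d76eba7) (nat_lit 0)))) (N (nat_lit 1906) (N (nat_lit 1905) (L (E (nat_lit 3) (nat_lit 0x2ffd79ebbd) (nat_lit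 0))) (L (E (nat_lit 3) (nat_lit 0x30357bebcd) (nat_lit 0)))) (N (nat_lit 1907) (L (E (nat_lit 3) (nat_lit 0x3585a62d23) (nat_lit 0))) (L (E (nat_lit 3) (nat_lit 0x364dabed4d) (nat_lit 0)))))) (N (nat_lit 1911) (N (nat_lit 1910) (N (nat_lit 1909) (L (E (nat_lit 3) (nat_lit 0x3695aead61) (nat_lit 0))) (L (E (nat_lit 3) (nat_lit 0x12ac916485) (nat_lit 0)))) (L (E (nat_lit 3) (nat_lit 0x151ca52523) (nat_lit 0)))) (L (E (nat_lit 3) (nat_lit 0x15c4a92543) (nat_lit 0))))) (N (nat_lit 1914) (N (nat_lit 1913) (L (E (nat_lit 3) (nat_lit 0x15cca96545) (nat_lit 0))) (L (E (nat_lit 3) (nat_lit 0x1604ab2553) (nat_lit 0)))) (N (nat_lit 1918) (N (nat_lit 1916) (N (nat_lit 1915) (L (E (nat_lit 3) (nat_lit 0x161cabe559) (nat_lit 0))) (L (E (nat_lit 3) (nat_lit 0x169cafe579) (nat_lit 0)))) (N (nat_lit 1917) (L (E (nat_lit 3) (nat_lit 0x1eecf32793) (nat_lit 0))) (L (E (nat_lit 3) (nat_lit 0x1fecfa27cb) (nat_lit 0)))))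 (L (E (nat_lit 3) (nat_lit 0x22150c285b) (nat_lit 0)))))) (N (nat_lit 1924) (N (nat_lit 1921) (N (nat_lit 1920) (L (E (nat_lit 3) (nat_lit 0x22c510a87f) (nat_lit 0))) (L (E (nat_lit 3) (nat_lit 0x230d12e891) (nat_lit 0)))) (N (nat_lit 1923) (N (nat_lit 1922) (L (E (nat_lit 3) (nat_lit 0x231d136895) (nat_lit 0))) (L (E (nat_lit 3) (nat_lit 0x233514289b) (nat_lit 0)))) (L (E (nat_lit 3) (nat_lit 0x23751628ab) (nat_lit 0))))) (N (nat_lit 1926) (N (nat_lit 1925) (L (E (nat_lit 3) (nat_lit 0x23cd1928c3) (nat_lit 0))) (L (E (nat_lit 3) (nat_lit 0x25a528e941) (nat_lit 0)))) (N (nat_lit 1928) (N (nat_lit 1927) (L (E (nat_lit 3) (nat_lit 0x25e52a694d) (nat_lit 0))) (L (E (nat_lit 3) (nat_lit 0x264d2d2963) (nat_lit 0)))) (L (E (nat_lit 3) (nat_lit 0x268d2ee971) (nat_lit 0)))))))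
def cl38 : RA := N (nat_lit 1963) (N (nat_lit 1953) (N (nat_lit 1941) (N (nat_lit 1935) (N (nat_lit 1933) (N (nat_lit 1930) (L (E (nat_lit 3) (nat_lit 0x26952f2973) (nat_lit 0))) (N (nat_lit 1932) (N (nat_lit 1931) (L (E (nat_lit 3) (nat_lit 0x26bd30697d) (nat_lit 0))) (L (E (nat_lit 3) (nat_lit 0x26e531a987) (nat_lit 0)))) (L (E (nat_lit 3) (nat_lit 0x270d32e991) (nat_lit 0))))) (N (nat_lit 1934) (L (E (nat_lit 3) (nat_lit 0x274534a99f) (nat_lit 0))) (L (E (nat_lit 3) (nat_lit 0x295d45aa27) (nat_lit 0))))) (N (nat_lit 1937) (N (nat_lit 1936) (L (E (nat_lit 3) (nat_lit 0x299d47ea39) (nat_lit 0))) (L (E (nat_lit 3) (nat_lit 0x2a054aea51) (nat_lit 0)))) (N (nat_lit 1939) (N (nat_lit 1938) (L (E (nat_lit 3) (nat_lit 0x2bcd5c2add) (nat_lit 0))) (L (E (nat_lit 3) (nat_lit 0x2ffd7aabcf) (nat_lit 0)))) (N (nat_lit 1940) (L (E (nat_lit 3) (nat_lit 0x3585a6ed31) (nat_lit 0))) (L (E (nat_lit 3) (nat_lit 0x3635abed59)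 (nat_lit 0))))))) (N (nat_lit 1951) (N (nat_lit 1948) (N (nat_lit 1944) (N (nat_lit 1942) (L (E (nat_lit 3) (nat_lit 0x3655aced61) (nat_lit 0))) (N (nat_lit 1943) (L (E (nat_lit 3) (nat_lit 0x43941e60cb) (nat_lit 0))) (L (E (nat_lit 3) (nat_lit 0x28acf5201f) (nat_lit 0))))) (N (nat_lit 1946) (N (nat_lit 1945) (L (E (nat_lit 3) (nat_lit 0x43961ae0f3) (nat_lit 0))) (L (E (nat_lit 3) (nat_lit 0x48b63ee33f) (nat_lit 0)))) (N (nat_lit 1947) (L (E (nat_lit 3) (nat_lit 0x284d0aa0af) (nat_lit 0))) (L (E (nat_lit 3) (nat_lit 0x450d4ce0d5) (nat_lit 0)))))) (N (nat_lit 1950) (N (nat_lit 1949) (L (E (nat_lit 3) (nat_lit 0x378c7f6215) (nat_lit 0))) (L (E (nat_lit 3) (nat_lit 0x132c956497) (nat_lit 0)))) (L (E (nat_lit 3) (nat_lit 0x159ca8a531) (nat_lit 0))))) (N (nat_lit 1952) (L (E (nat_lit 3) (nat_lit 0x15aca92535) (nat_lit 0))) (L (E (nat_lit 3) (nat_lit 0x15ecab2543) (nat_lit 0)))))) (N (nat_lit 1957) (N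 (nat_lit 1956) (N (nat_lit 1955) (N (nat_lit 1954) (L (E (nat_lit 3) (nat_lit 0x15fcaba547) (nat_lit 0))) (L (E (nat_lit 3) (nat_lit 0x1604abe549) (nat_lit 0)))) (L (E (nat_lit 3) (nat_lit 0x163cada555) (nat_lit 0)))) (L (E (nat_lit 3) (nat_lit 0x168cb0256b) (nat_lit 0)))) (N (nat_lit 1960) (N (nat_lit 1958) (L (E (nat_lit 3) (nat_lit 0x169cb0a56f) (nat_lit 0))) (N (nat_lit 1959) (L (E (nat_lit 3) (nat_lit 0x16acb12573) (nat_lit 0))) (L (E (nat_lit 3) (nat_lit 0x16dcb2e57f) (nat_lit 0))))) (N (nat_lit 1962) (N (nat_lit 1961) (L (E (nat_lit 3) (nat_lit 0x1f8cf827ab) (nat_lit 0))) (L (E (nat_lit 3) (nat_lit 0x22550ea85f) (nat_lit 0)))) (L (E (nat_lit 3) (nat_lit 0x22ad10a871) (nat_lit 0))))))) (N (nat_lit 1971) (N (nat_lit 1964) (L (E (nat_lit 3) (nat_lit 0x22f512e87f) (nat_lit 0))) (N (nat_lit 1967) (N (nat_lit 1965) (L (E (nat_lit 3) (nat_lit 0x2305136883) (nat_lit 0))) (N (nat_lit 1966) (L (E (nat_lit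 3) (nat_lit 0x231513e887) (nat_lit 0))) (L (E (nat_lit 3) (nat_lit 0x235515e895) (nat_lit 0))))) (N (nat_lit 1968) (L (E (nat_lit 3) (nat_lit 0x235d162897) (nat_lit 0))) (N (nat_lit 1970) (N (nat_lit 1969) (L (E (nat_lit 3) (nat_lit 0x237516e89d) (nat_lit 0))) (L (E (nat_lit 3) (nat_lit 0x23ad18e8af) (nat_lit 0)))) (L (E (nat_lit 3) (nat_lit 0x240d1c68c9) (nat_lit 0))))))) (N (nat_lit 1972) (L (E (nat_lit 3) (nat_lit 0x267d2f2963) (nat_lit 0))) (N (nat_lit 1975) (N (nat_lit 1973) (L (E (nat_lit 3) (nat_lit 0x268d2fa967) (nat_lit 0))) (N (nat_lit 1974) (L (E (nat_lit 3) (nat_lit 0x26952fe969) (nat_lit 0))) (L (E (nat_lit 3) (nat_lit 0x26dd322977) (nat_lit 0))))) (N (nat_lit 1979) (N (nat_lit 1977) (N (nat_lit 1976) (L (E (nat_lit 3) (nat_lit 0x26e5326979) (nat_lit 0))) (L (E (nat_lit 3) (nat_lit 0x272534698b) (nat_lit 0)))) (N (nat_lit 1978) (L (E (nat_lit 3) (nat_lit 0x272d34a98d) (nat_lit 0)))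 (L (E (nat_lit 3) (nat_lit 0x278537e9a5) (nat_lit 0))))) (N (nat_lit 1982) (N (nat_lit 1981) (N (nat_lit 1980) (L (E (nat_lit 3) (nat_lit 0x280d3d29d3) (nat_lit 0))) (L (E (nat_lit 3) (nat_lit 0x29ed4aea3f) (nat_lit 0)))) (L (E (nat_lit 3) (nat_lit 0x303d7dabd5) (nat_lit 0)))) (N (nat_lit 1984) (N (nat_lit 1983) (L (E (nat_lit 3) (nat_lit 0x3315946c8b) (nat_lit 0))) (L (E (nat_lit 3) (nat_lit 0x35c5a96d33) (nat_lit 0)))) (N (nat_lit 1985) (L (E (nat_lit 3) (nat_lit 0x3625ac2d49) (nat_lit 0))) (L (E (nat_lit 3) (nat_lit 0x49cce62693) (nat_lit 0))))))))))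
def cl39 : RA := N (nat_lit 2006) (N (nat_lit 1999) (N (nat_lit 1995) (N (nat_lit 1992) (N (nat_lit 1991) (N (nat_lit 1989) (N (nat_lit 1988) (N (nat_lit 1987) (L (E (nat_lit 3) (nat_lit 0x47ed3167e1) (nat_lit 0))) (L (E (nat_lit 3) (nat_lit 0x125c922479) (nat_lit 0)))) (L (E (nat_lit 3) (nat_lit 0x1564aa6535) (nat_lit 0)))) (N (nat_lit 1990) (L (E (nat_lit 3) (nat_lit 0x157cab253b) (nat_lit 0))) (L (E (nat_lit 3) (nat_lit 0x1604af6559) (nat_lit 0))))) (L (E (nat_lit 3) (nat_lit 0x1614afe55d) (nat_lit 0)))) (N (nat_lit 1994) (N (nat_lit 1993) (L (E (nat_lit 3) (nat_lit 0x161cb0255f) (nat_lit 0))) (L (E (nat_lit 3) (nat_lit 0x165cb2256f) (nat_lit 0)))) (L (E (nat_lit 3) (nat_lit 0x1664b26571) (nat_lit 0))))) (N (nat_lit 1997) (N (nat_lit 1996) (L (E (nat_lit 3) (nat_lit 0x16a4b46581) (nat_lit 0))) (L (E (nat_lit 3) (nat_lit 0x16b4b4e585) (nat_lit 0)))) (N (nat_lit 1998) (L (E (nat_lit 3) (nat_lit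 0x1934c8e625) (nat_lit 0))) (L (E (nat_lit 3) (nat_lit 0x203500e7e3) (nat_lit 0)))))) (N (nat_lit 2004) (N (nat_lit 2003) (N (nat_lit 2002) (N (nat_lit 2001) (N (nat_lit 2000) (L (E (nat_lit 3) (nat_lit 0x21c50d684f) (nat_lit 0))) (L (E (nat_lit 3) (nat_lit 0x22150fe861) (nat_lit 0)))) (L (E (nat_lit 3) (nat_lit 0x22bd152883) (nat_lit 0)))) (L (E (nat_lit 3) (nat_lit 0x230d17a897) (nat_lit 0)))) (L (E (nat_lit 3) (nat_lit 0x231d18289b) (nat_lit 0)))) (N (nat_lit 2005) (L (E (nat_lit 3) (nat_lit 0x23751ae8b1) (nat_lit 0))) (L (E (nat_lit 3) (nat_lit 0x237d1b28b3) (nat_lit 0)))))) (N (nat_lit 2014) (N (nat_lit 2012) (N (nat_lit 2011) (N (nat_lit 2009) (N (nat_lit 2008) (N (nat_lit 2007) (L (E (nat_lit 3) (nat_lit 0x23bd1d28c5) (nat_lit 0))) (L (E (nat_lit 3) (nat_lit 0x23cd1da8c9) (nat_lit 0)))) (L (E (nat_lit 3) (nat_lit 0x25e52e6953) (nat_lit 0)))) (N (nat_lit 2010) (L (E (nat_lit 3) (nat_lit 0x263530e963)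 (nat_lit 0))) (L (E (nat_lit 3) (nat_lit 0x2645316967) (nat_lit 0))))) (L (E (nat_lit 3) (nat_lit 0x268d33a977) (nat_lit 0)))) (N (nat_lit 2013) (L (E (nat_lit 3) (nat_lit 0x269533e979) (nat_lit 0))) (L (E (nat_lit 3) (nat_lit 0x26a534697d) (nat_lit 0))))) (N (nat_lit 2024) (N (nat_lit 2018) (N (nat_lit 2016) (N (nat_lit 2015) (L (E (nat_lit 3) (nat_lit 0x26ad34a97f) (nat_lit 0))) (L (E (nat_lit 3) (nat_lit 0x26e536698d) (nat_lit 0)))) (N (nat_lit 2017) (L (E (nat_lit 3) (nat_lit 0x274d39a9a7) (nat_lit 0))) (L (E (nat_lit 3) (nat_lit 0x291547ea1f) (nat_lit 0))))) (N (nat_lit 2022) (N (nat_lit 2019) (L (E (nat_lit 3) (nat_lit 0x299d4c2a3f) (nat_lit 0))) (N (nat_lit 2021) (N (nat_lit 2020) (L (E (nat_lit 3) (nat_lit 0x29ad4caa43) (nat_lit 0))) (L (E (nat_lit 3) (nat_lit 0x29ed4eaa51) (nat_lit 0)))) (L (E (nat_lit 3) (nat_lit 0x2a1d502a5d) (nat_lit 0))))) (N (nat_lit 2023) (L (E (nat_lit 3) (nat_lit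 0x2a4d51aa67) (nat_lit 0))) (L (E (nat_lit 3) (nat_lit 0x2aa5546a81) (nat_lit 0)))))) (N (nat_lit 2031) (N (nat_lit 2028) (N (nat_lit 2026) (N (nat_lit 2025) (L (E (nat_lit 3) (nat_lit 0x2aad54aa83) (nat_lit 0))) (L (E (nat_lit 3) (nat_lit 0x303580ebe5) (nat_lit 0)))) (N (nat_lit 2027) (L (E (nat_lit 3) (nat_lit 0x304d81abeb) (nat_lit 0))) (L (E (nat_lit 3) (nat_lit 0x3585ab6d37) (nat_lit 0))))) (N (nat_lit 2030) (N (nat_lit 2029) (L (E (nat_lit 3) (nat_lit 0x35e5ae6d4d) (nat_lit 0))) (L (E (nat_lit 3) (nat_lit 0x363db12d61) (nat_lit 0)))) (L (E (nat_lit 3) (nat_lit 0x372db8ada7) (nat_lit 0))))) (N (nat_lit 2037) (N (nat_lit 2034) (N (nat_lit 2032) (L (E (nat_lit 3) (nat_lit 0xfec42a02b) (nat_lit 0))) (N (nat_lit 2033) (L (E (nat_lit 3) (nat_lit 0x3f1499e0c7) (nat_lit 0))) (L (E (nat_lit 3) (nat_lit 0x12b418a04b) (nat_lit 0))))) (N (nat_lit 2036) (N (nat_lit 2035) (L (E (nat_lit 3) (nat_lit 0x12b43660f9)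 (nat_lit 0))) (L (E (nat_lit 3) (nat_lit 0x4705ac2559) (nat_lit 0)))) (L (E (nat_lit 3) (nat_lit 0x306cb26179) (nat_lit 0))))) (N (nat_lit 2040) (N (nat_lit 2039) (N (nat_lit 2038) (L (E (nat_lit 3) (nat_lit 0x295512a75b) (nat_lit 0))) (L (E (nat_lit 3) (nat_lit 0x2bd53227e1) (nat_lit 0)))) (L (E (nat_lit 3) (nat_lit 0x33ec006001) (nat_lit 0)))) (N (nat_lit 2041) (L (E (nat_lit 3) (nat_lit 0x15fcaaa52f) (nat_lit 0))) (L (E (nat_lit 3) (nat_lit 0x22d510e861) (nat_lit 0)))))))))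
def cl40 : RA := N (nat_lit 2104) (N (nat_lit 2090) (N (nat_lit 2085) (N (nat_lit 2081) (L (E (nat_lit 3) (nat_lit 0x29ad15e207) (nat_lit 0))) (N (nat_lit 2083) (N (nat_lit 2082) (L (E (nat_lit 3) (nat_lit 0x2a1518e211) (nat_lit 0))) (L (E (nat_lit 3) (nat_lit 0x2a751c221d) (nat_lit 0)))) (N (nat_lit 2084) (L (E (nat_lit 3) (nat_lit 0x2ae51fe225) (nat_lit 0))) (L (E (nat_lit 3) (nat_lit 0x2b952d2233) (nat_lit 0)))))) (N (nat_lit 2088) (N (nat_lit 2087) (N (nat_lit 2086) (L (E (nat_lit 3) (nat_lit 0x42c600e81b) (nat_lit 0))) (L (E (nat_lit 3) (nat_lit 0x468e256b41) (nat_lit 0)))) (L (E (nat_lit 3) (nat_lit 0x480c8f2005) (nat_lit 0)))) (N (nat_lit 2089) (L (E (nat_lit 3) (nat_lit 0x481590e481) (nat_lit 0))) (L (E (nat_lit 3) (nat_lit 0x4845946497) (nat_lit 0)))))) (N (nat_lit 2095) (N (nat_lit 2092) (N (nat_lit 2091) (L (E (nat_lit 3) (nat_lit 0x488c99a003) (nat_lit 0))) (L (E (nat_lit 3) (nat_lit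 0x48bda76539) (nat_lit 0)))) (N (nat_lit 2094) (N (nat_lit 2093) (L (E (nat_lit 3) (nat_lit 0x48ddac2559) (nat_lit 0))) (L (E (nat_lit 3) (nat_lit 0x49a5f2685f) (nat_lit 0)))) (L (E (nat_lit 3) (nat_lit 0x40405a00b) (nat_lit 0))))) (N (nat_lit 2100) (N (nat_lit 2098) (N (nat_lit 2097) (N (nat_lit 2096) (L (E (nat_lit 3) (nat_lit 0x2f84ab2055) (nat_lit 0))) (L (E (nat_lit 3) (nat_lit 0x2fccad605b) (nat_lit 0)))) (L (E (nat_lit 3) (nat_lit 0x306cb26067) (nat_lit 0)))) (N (nat_lit 2099) (L (E (nat_lit 3) (nat_lit 0x3084b32069) (nat_lit 0))) (L (E (nat_lit 3) (nat_lit 0x30b4b4e06b) (nat_lit 0))))) (N (nat_lit 2102) (N (nat_lit 2101) (L (E (nat_lit 3) (nat_lit 0x328cc4a085) (nat_lit 0))) (L (E (nat_lit 3) (nat_lit 0x448598a2a7) (nat_lit 0)))) (N (nat_lit 2103) (L (E (nat_lit 3) (nat_lit 0x225c60e1bf) (nat_lit 0))) (L (E (nat_lit 3) (nat_lit 0x2f34a8e3c5) (nat_lit 0)))))))) (N (nat_lit 2119) (N (nat_lit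 2113) (N (nat_lit 2109) (N (nat_lit 2107) (N (nat_lit 2106) (N (nat_lit 2105) (L (E (nat_lit 3) (nat_lit 0x2f84ab23c9) (nat_lit 0))) (L (E (nat_lit 3) (nat_lit 0x3084b323e5) (nat_lit 0)))) (L (E (nat_lit 3) (nat_lit 0x30b4b4e3e9) (nat_lit 0)))) (N (nat_lit 2108) (L (E (nat_lit 3) (nat_lit 0x3c752d26fb) (nat_lit 0))) (L (E (nat_lit 3) (nat_lit 0x3ced32670b) (nat_lit 0))))) (N (nat_lit 2111) (N (nat_lit 2110) (L (E (nat_lit 3) (nat_lit 0x3f6d4da729) (nat_lit 0))) (L (E (nat_lit 3) (nat_lit 0x3fad50272b) (nat_lit 0)))) (N (nat_lit 2112) (L (E (nat_lit 3) (nat_lit 0x42252d27bb) (nat_lit 0))) (L (E (nat_lit 3) (nat_lit 0x42a53527f9) (nat_lit 0)))))) (N (nat_lit 2117) (N (nat_lit 2115) (N (nat_lit 2114) (L (E (nat_lit 3) (nat_lit 0x42dd43a85f) (nat_lit 0))) (L (E (nat_lit 3) (nat_lit 0x43154ca8a9) (nat_lit 0)))) (N (nat_lit 2116) (L (E (nat_lit 3) (nat_lit 0x43355268d7) (nat_lit 0))) (L (E (nat_lit 3)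 (nat_lit 0x465d7f2b39) (nat_lit 0))))) (N (nat_lit 2118) (L (E (nat_lit 3) (nat_lit 0x475d6f2003) (nat_lit 0))) (L (E (nat_lit 3) (nat_lit 0x4785a92bc9) (nat_lit 0)))))) (N (nat_lit 2126) (N (nat_lit 2122) (N (nat_lit 2121) (N (nat_lit 2120) (L (E (nat_lit 3) (nat_lit 0x4795ac2be1) (nat_lit 0))) (L (E (nat_lit 3) (nat_lit 0x6cc2a6043) (nat_lit 0)))) (L (E (nat_lit 3) (nat_lit 0x151c86618d) (nat_lit 0)))) (N (nat_lit 2123) (L (E (nat_lit 3) (nat_lit 0x15cc88a19f) (nat_lit 0))) (N (nat_lit 2125) (N (nat_lit 2124) (L (E (nat_lit 3) (nat_lit 0x18e49521c5) (nat_lit 0))) (L (E (nat_lit 3) (nat_lit 0x191c9661c7) (nat_lit 0)))) (L (E (nat_lit 3) (nat_lit 0x2594f6e3c3) (nat_lit 0)))))) (N (nat_lit 2129) (N (nat_lit 2128) (N (nat_lit 2127) (L (E (nat_lit 3) (nat_lit 0x2644fc23d3) (nat_lit 0))) (L (E (nat_lit 3) (nat_lit 0x264cfc63d5) (nat_lit 0)))) (L (E (nat_lit 3) (nat_lit 0x290d1063f1) (nat_lit 0)))) (N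 (nat_lit 2130) (L (E (nat_lit 3) (nat_lit 0x295512a3f3) (nat_lit 0))) (L (E (nat_lit 3) (nat_lit 0x29fd1823fd) (nat_lit 0)))))))
def cl41 : RA := N (nat_lit 2158) (N (nat_lit 2148) (N (nat_lit 2139) (N (nat_lit 2135) (N (nat_lit 2133) (N (nat_lit 2132) (L (E (nat_lit 3) (nat_lit 0x2a451aa3ff) (nat_lit 0))) (L (E (nat_lit 3) (nat_lit 0x2a551b2401) (nat_lit 0)))) (N (nat_lit 2134) (L (E (nat_lit 3) (nat_lit 0x2d84d96001) (nat_lit 0))) (L (E (nat_lit 3) (nat_lit 0x2de4dc2003) (nat_lit 0))))) (N (nat_lit 2137) (N (nat_lit 2136) (L (E (nat_lit 3) (nat_lit 0x469625ae55) (nat_lit 0))) (L (E (nat_lit 3) (nat_lit 0x2c6c7a2137) (nat_lit 0)))) (N (nat_lit 2138) (L (E (nat_lit 3) (nat_lit 0x2fe48861d5) (nat_lit 0))) (L (E (nat_lit 3) (nat_lit 0x12943be001) (nat_lit 0)))))) (N (nat_lit 2143) (N (nat_lit 2141) (N (nat_lit 2140) (L (E (nat_lit 3) (nat_lit 0x33ac9c61ef) (nat_lit 0))) (L (E (nat_lit 3) (nat_lit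 0x34eca721f5) (nat_lit 0)))) (N (nat_lit 2142) (L (E (nat_lit 3) (nat_lit 0x3524a861f7) (nat_lit 0))) (L (E (nat_lit 3) (nat_lit 0x35f4ae6209) (nat_lit 0))))) (N (nat_lit 2145) (N (nat_lit 2144) (L (E (nat_lit 3) (nat_lit 0x363cb0220f) (nat_lit 0))) (L (E (nat_lit 3) (nat_lit 0x3694b3221b) (nat_lit 0)))) (N (nat_lit 2146) (L (E (nat_lit 3) (nat_lit 0x36c4b4e21f) (nat_lit 0))) (N (nat_lit 2147) (L (E (nat_lit 3) (nat_lit 0x36e4b5e223) (nat_lit 0))) (L (E (nat_lit 3) (nat_lit 0x3ebd0fe411) (nat_lit 0)))))))) (N (nat_lit 2156) (N (nat_lit 2151) (N (nat_lit 2149) (L (E (nat_lit 3) (nat_lit 0x3f6515e41b) (nat_lit 0))) (N (nat_lit 2150) (L (E (nat_lit 3) (nat_lit 0x433d60a597) (nat_lit 0))) (L (E (nat_lit 3) (nat_lit 0x466d98a769) (nat_lit 0))))) (N (nat_lit 2154) (N (nat_lit 2153) (N (nat_lit 2152) (L (E (nat_lit 3) (nat_lit 0x129438616d) (nat_lit 0))) (L (E (nat_lit 3) (nat_lit 0x15ac3a6199) (nat_lit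 0)))) (L (E (nat_lit 3) (nat_lit 0x1f847a6313) (nat_lit 0)))) (N (nat_lit 2155) (L (E (nat_lit 3) (nat_lit 0x2cecc764ab) (nat_lit 0))) (L (E (nat_lit 3) (nat_lit 0x3a8552a8d9) (nat_lit 0)))))) (N (nat_lit 2157) (L (E (nat_lit 3) (nat_lit 0x43b5be2ca3) (nat_lit 0))) (L (E (nat_lit 3) (nat_lit 0x43bdbf6001) (nat_lit 0)))))) (N (nat_lit 2166) (N (nat_lit 2163) (N (nat_lit 2160) (N (nat_lit 2159) (L (E (nat_lit 3) (nat_lit 0x2cb51062fb) (nat_lit 0))) (L (E (nat_lit 3) (nat_lit 0x2cc512a305) (nat_lit 0)))) (N (nat_lit 2162) (N (nat_lit 2161) (L (E (nat_lit 3) (nat_lit 0x39e579e549) (nat_lit 0))) (L (E (nat_lit 3) (nat_lit 0x39ed7d2561) (nat_lit 0)))) (L (E (nat_lit 3) (nat_lit 0x3a5d98a647) (nat_lit 0))))) (N (nat_lit 2164) (L (E (nat_lit 3) (nat_lit 0x31ec006001) (nat_lit 0))) (N (nat_lit 2165) (L (E (nat_lit 3) (nat_lit 0xcb461e2f3) (nat_lit 0))) (L (E (nat_lit 3) (nat_lit 0x138496e487) (nat_lit 0))))))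 (N (nat_lit 2171) (N (nat_lit 2169) (N (nat_lit 2168) (N (nat_lit 2167) (L (E (nat_lit 3) (nat_lit 0x138c972489) (nat_lit 0))) (L (E (nat_lit 3) (nat_lit 0x139c97a48d) (nat_lit 0)))) (L (E (nat_lit 3) (nat_lit 0x13b4992493) (nat_lit 0)))) (N (nat_lit 2170) (L (E (nat_lit 3) (nat_lit 0x144c9e64bd) (nat_lit 0))) (L (E (nat_lit 3) (nat_lit 0x15c4a8e521) (nat_lit 0))))) (N (nat_lit 2172) (L (E (nat_lit 3) (nat_lit 0x166cae2539) (nat_lit 0))) (L (E (nat_lit 3) (nat_lit 0x169cafa543) (nat_lit 0))))))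
def cl42 : RA := N (nat_lit 2131) (N (nat_lit 2080) (N (nat_lit 2063) (N (nat_lit 2050) (N (nat_lit 2048) (N (nat_lit 2046) (N (nat_lit 2045) (N (nat_lit 2044) (L (E (nat_lit 3) (nat_lit 0x127c936497) (nat_lit 0))) (L (E (nat_lit 3) (nat_lit 0x25ad2ce963) (nat_lit 0)))) (L (E (nat_lit 3) (nat_lit 0x264531a989) (nat_lit 0)))) (N (nat_lit 2047) (L (E (nat_lit 3) (nat_lit 0x328c92e057) (nat_lit 0))) (L (E (nat_lit 3) (nat_lit 0x12940ba001) (nat_lit 0))))) (N (nat_lit 2049) (L (E (nat_lit 3) (nat_lit 0x3534a8e07f) (nat_lit 0))) (L (E (nat_lit 3) (nat_lit 0x3584ab2083) (nat_lit 0))))) (N (nat_lit 2054) (N (nat_lit 2051) (L (E (nat_lit 3) (nat_lit 0x363cb02095) (nat_lit 0))) (N (nat_lit 2052) (L (E (nat_lit 3) (nat_lit 0x367cb26097) (nat_lit 0))) (N (nat_lit 2053) (L (E (nat_lit 3) (nat_lit 0x369cb3609d) (nat_lit 0))) (L (E (nat_lit 3) (nat_lit 0x36c4b4e09f) (nat_lit 0)))))) (N (nat_lit 2059) (N (nat_lit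 2056) (N (nat_lit 2055) (L (E (nat_lit 3) (nat_lit 0x36ccb520a1) (nat_lit 0))) (L (E (nat_lit 3) (nat_lit 0x36e4b5e0a3) (nat_lit 0)))) (N (nat_lit 2058) (N (nat_lit 2057) (L (E (nat_lit 3) (nat_lit 0x3d34ff6113) (nat_lit 0))) (L (E (nat_lit 3) (nat_lit 0x40251da155) (nat_lit 0)))) (L (E (nat_lit 3) (nat_lit 0x42654ce199) (nat_lit 0))))) (N (nat_lit 2060) (L (E (nat_lit 3) (nat_lit 0x42bd52e1ad) (nat_lit 0))) (N (nat_lit 2062) (N (nat_lit 2061) (L (E (nat_lit 3) (nat_lit 0x394d3562b1) (nat_lit 0))) (L (E (nat_lit 3) (nat_lit 0x4245946497) (nat_lit 0)))) (L (E (nat_lit 3) (nat_lit 0x426c94a001) (nat_lit 0)))))))) (N (nat_lit 2072) (N (nat_lit 2070) (N (nat_lit 2068) (N (nat_lit 2066) (N (nat_lit 2065) (N (nat_lit 2064) (L (E (nat_lit 3) (nat_lit 0x430dac2559) (nat_lit 0))) (L (E (nat_lit 3) (nat_lit 0x47be076969) (nat_lit 0)))) (L (E (nat_lit 3) (nat_lit 0x4404f6a27d) (nat_lit 0)))) (N (nat_lit 2067)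 (L (E (nat_lit 3) (nat_lit 0x482d7ba555) (nat_lit 0))) (L (E (nat_lit 3) (nat_lit 0x487d836593) (nat_lit 0))))) (N (nat_lit 2069) (L (E (nat_lit 3) (nat_lit 0x489585e5a9) (nat_lit 0))) (L (E (nat_lit 3) (nat_lit 0x48b4c0a005) (nat_lit 0))))) (N (nat_lit 2071) (L (E (nat_lit 3) (nat_lit 0x48e5946625) (nat_lit 0))) (L (E (nat_lit 3) (nat_lit 0x48f4c6a001) (nat_lit 0))))) (N (nat_lit 2074) (N (nat_lit 2073) (L (E (nat_lit 3) (nat_lit 0x490598a647) (nat_lit 0))) (L (E (nat_lit 3) (nat_lit 0x4914cbe003) (nat_lit 0)))) (N (nat_lit 2077) (N (nat_lit 2076) (N (nat_lit 2075) (L (E (nat_lit 3) (nat_lit 0x492dac26c1) (nat_lit 0))) (L (E (nat_lit 3) (nat_lit 0xf045de04d) (nat_lit 0)))) (L (E (nat_lit 3) (nat_lit 0x1b24ad60df) (nat_lit 0)))) (N (nat_lit 2079) (N (nat_lit 2078) (L (E (nat_lit 3) (nat_lit 0x26acff61e5) (nat_lit 0))) (L (E (nat_lit 3) (nat_lit 0x290d1061f9) (nat_lit 0)))) (L (E (nat_lit 3) (nat_lit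 0x295512a1fd) (nat_lit 0)))))))) (cl40)) (N (nat_lit 2173) (cl41) (N (nat_lit 2181) (N (nat_lit 2176) (N (nat_lit 2174) (L (E (nat_lit 3) (nat_lit 0x16acb02547) (nat_lit 0))) (N (nat_lit 2175) (L (E (nat_lit 3) (nat_lit 0x16bcb0a54b) (nat_lit 0))) (L (E (nat_lit 3) (nat_lit 0x16e4b22555) (nat_lit 0))))) (N (nat_lit 2180) (N (nat_lit 2177) (L (E (nat_lit 3) (nat_lit 0x1704b3255d) (nat_lit 0))) (N (nat_lit 2179) (N (nat_lit 2178) (L (E (nat_lit 3) (nat_lit 0x19ccc96613) (nat_lit 0))) (L (E (nat_lit 3) (nat_lit 0x1ff4fa279d) (nat_lit 0)))) (L (E (nat_lit 3) (nat_lit 0x203cfc67a9) (nat_lit 0))))) (L (E (nat_lit 3) (nat_lit 0x22cd10a853) (nat_lit 0))))) (N (nat_lit 2183) (N (nat_lit 2182) (L (E (nat_lit 3) (nat_lit 0x22d510e855) (nat_lit 0))) (L (E (nat_lit 3) (nat_lit 0x231512e85f) (nat_lit 0)))) (N (nat_lit 2185) (N (nat_lit 2184) (L (E (nat_lit 3) (nat_lit 0x237d162875) (nat_lit 0))) (L (E (nat_lit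 3) (nat_lit 0x23bd186883) (nat_lit 0)))) (N (nat_lit 2186) (L (E (nat_lit 3) (nat_lit 0x23ed1a6891) (nat_lit 0))) (L (E (nat_lit 3) (nat_lit 0x24551da8af) (nat_lit 0))))))))
def cl43 : RA := N (nat_lit 2223) (N (nat_lit 2206) (N (nat_lit 2194) (N (nat_lit 2188) (L (E (nat_lit 3) (nat_lit 0x26552d2939) (nat_lit 0))) (N (nat_lit 2189) (L (E (nat_lit 3) (nat_lit 0x269d2f2945) (nat_lit 0))) (N (nat_lit 2191) (N (nat_lit 2190) (L (E (nat_lit 3) (nat_lit 0x2705326957) (nat_lit 0))) (L (E (nat_lit 3) (nat_lit 0x271532e95b) (nat_lit 0)))) (N (nat_lit 2193) (N (nat_lit 2192) (L (E (nat_lit 3) (nat_lit 0x275d35296b) (nat_lit 0))) (L (E (nat_lit 3) (nat_lit 0x2775366971) (nat_lit 0)))) (L (E (nat_lit 3) (nat_lit 0x277d36a973) (nat_lit 0))))))) (N (nat_lit 2202) (N (nat_lit 2197) (N (nat_lit 2196) (N (nat_lit 2195) (L (E (nat_lit 3) (nat_lit 0x27a537e97d) (nat_lit 0))) (L (E (nat_lit 3) (nat_lit 0x27e53a6993)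 (nat_lit 0)))) (L (E (nat_lit 3) (nat_lit 0x28253ce9a9) (nat_lit 0)))) (N (nat_lit 2200) (N (nat_lit 2198) (L (E (nat_lit 3) (nat_lit 0x2a0d4aea1d) (nat_lit 0))) (N (nat_lit 2199) (L (E (nat_lit 3) (nat_lit 0x2a554cea2b) (nat_lit 0))) (L (E (nat_lit 3) (nat_lit 0x35e5a96d17) (nat_lit 0))))) (N (nat_lit 2201) (L (E (nat_lit 3) (nat_lit 0x3645ac2d27) (nat_lit 0))) (L (E (nat_lit 3) (nat_lit 0x369daf6d3b) (nat_lit 0)))))) (N (nat_lit 2205) (N (nat_lit 2203) (L (E (nat_lit 3) (nat_lit 0x3dbde96f1f) (nat_lit 0))) (N (nat_lit 2204) (L (E (nat_lit 3) (nat_lit 0x12b492e477) (nat_lit 0))) (L (E (nat_lit 3) (nat_lit 0x157ca8e527) (nat_lit 0))))) (L (E (nat_lit 3) (nat_lit 0x15bcaaa52f) (nat_lit 0)))))) (N (nat_lit 2211) (N (nat_lit 2207) (L (E (nat_lit 3) (nat_lit 0x15ccab2533) (nat_lit 0))) (N (nat_lit 2208) (L (E (nat_lit 3) (nat_lit 0x161cade545) (nat_lit 0))) (N (nat_lit 2209) (L (E (nat_lit 3) (nat_lit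 0x162cae6549) (nat_lit 0))) (N (nat_lit 2210) (L (E (nat_lit 3) (nat_lit 0x165cafa553) (nat_lit 0))) (L (E (nat_lit 3) (nat_lit 0x169cb1e565) (nat_lit 0))))))) (N (nat_lit 2213) (N (nat_lit 2212) (L (E (nat_lit 3) (nat_lit 0x16a4b22567) (nat_lit 0))) (L (E (nat_lit 3) (nat_lit 0x16bcb2e56d) (nat_lit 0)))) (N (nat_lit 2218) (N (nat_lit 2215) (N (nat_lit 2214) (L (E (nat_lit 3) (nat_lit 0x170cb56581) (nat_lit 0))) (L (E (nat_lit 3) (nat_lit 0x173cb72591) (nat_lit 0)))) (N (nat_lit 2217) (N (nat_lit 2216) (L (E (nat_lit 3) (nat_lit 0x178cb9e5a9) (nat_lit 0))) (L (E (nat_lit 3) (nat_lit 0x18f4c4a603) (nat_lit 0)))) (L (E (nat_lit 3) (nat_lit 0x1944c6e611) (nat_lit 0))))) (N (nat_lit 2221) (N (nat_lit 2219) (L (E (nat_lit 3) (nat_lit 0x1974c8a61b) (nat_lit 0))) (N (nat_lit 2220) (L (E (nat_lit 3) (nat_lit 0x19c4cb262f) (nat_lit 0))) (L (E (nat_lit 3) (nat_lit 0x19cccb6631) (nat_lit 0))))) (N (nat_lit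 2222) (L (E (nat_lit 3) (nat_lit 0x1f4cf76797) (nat_lit 0))) (L (E (nat_lit 3) (nat_lit 0x1f9cf9a7a5) (nat_lit 0))))))))) (N (nat_lit 2233) (N (nat_lit 2230) (N (nat_lit 2226) (N (nat_lit 2224) (L (E (nat_lit 3) (nat_lit 0x1fa4f9e7a7) (nat_lit 0))) (N (nat_lit 2225) (L (E (nat_lit 3) (nat_lit 0x227510685d) (nat_lit 0))) (L (E (nat_lit 3) (nat_lit 0x22c512a86d) (nat_lit 0))))) (N (nat_lit 2228) (N (nat_lit 2227) (L (E (nat_lit 3) (nat_lit 0x232515e881) (nat_lit 0))) (L (E (nat_lit 3) (nat_lit 0x2375182893) (nat_lit 0)))) (N (nat_lit 2229) (L (E (nat_lit 3) (nat_lit 0x238518a897) (nat_lit 0))) (L (E (nat_lit 3) (nat_lit 0x23b51aa8a7) (nat_lit 0)))))) (N (nat_lit 2232) (N (nat_lit 2231) (L (E (nat_lit 3) (nat_lit 0x23bd1ae8a9) (nat_lit 0))) (L (E (nat_lit 3) (nat_lit 0x25f52ca941) (nat_lit 0)))) (L (E (nat_lit 3) (nat_lit 0x25fd2ce943) (nat_lit 0))))) (N (nat_lit 2238) (N (nat_lit 2235) (N (nat_lit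 2234) (L (E (nat_lit 3) (nat_lit 0x264d2ee94f) (nat_lit 0))) (L (E (nat_lit 3) (nat_lit 0x268d31295d) (nat_lit 0)))) (N (nat_lit 2236) (L (E (nat_lit 3) (nat_lit 0x269531695f) (nat_lit 0))) (N (nat_lit 2237) (L (E (nat_lit 3) (nat_lit 0x26ed33e971) (nat_lit 0))) (L (E (nat_lit 3) (nat_lit 0x26fd346975) (nat_lit 0)))))) (N (nat_lit 2241) (N (nat_lit 2240) (N (nat_lit 2239) (L (E (nat_lit 3) (nat_lit 0x270d34e979) (nat_lit 0))) (L (E (nat_lit 3) (nat_lit 0x273d36a987) (nat_lit 0)))) (L (E (nat_lit 3) (nat_lit 0x274d37298b) (nat_lit 0)))) (N (nat_lit 2243) (N (nat_lit 2242) (L (E (nat_lit 3) (nat_lit 0x27ad3a69a5) (nat_lit 0))) (L (E (nat_lit 3) (nat_lit 0x27e53c69b9) (nat_lit 0)))) (N (nat_lit 2244) (L (E (nat_lit 3) (nat_lit 0x296547ea17) (nat_lit 0))) (L (E (nat_lit 3) (nat_lit 0x29fd4c6a39) (nat_lit 0))))))))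
def cl44 : RA := N (nat_lit 2270) (N (nat_lit 2262) (N (nat_lit 2255) (N (nat_lit 2251) (N (nat_lit 2249) (N (nat_lit 2248) (N (nat_lit 2247) (N (nat_lit 2246) (L (E (nat_lit 3) (nat_lit 0x2aa5522a63) (nat_lit 0))) (L (E (nat_lit 3) (nat_lit 0x2fad7a2ba7) (nat_lit 0)))) (L (E (nat_lit 3) (nat_lit 0x35a5a9ed27) (nat_lit 0)))) (L (E (nat_lit 3) (nat_lit 0x363dae6d45) (nat_lit 0)))) (N (nat_lit 2250) (L (E (nat_lit 3) (nat_lit 0x3f2df66f91) (nat_lit 0))) (L (E (nat_lit 3) (nat_lit 0x15fca86527) (nat_lit 0))))) (N (nat_lit 2254) (N (nat_lit 2253) (N (nat_lit 2252) (L (E (nat_lit 3) (nat_lit 0x1614a9252d) (nat_lit 0))) (L (E (nat_lit 3) (nat_lit 0x16acade549) (nat_lit 0)))) (L (E (nat_lit 3) (nat_lit 0x16dcaf6555) (nat_lit 0)))) (L (E (nat_lit 3) (nat_lit 0x16ecafe559) (nat_lit 0))))) (N (nat_lit 2260) (N (nat_lit 2257) (N (nat_lit 2256) (L (E (nat_lit 3) (nat_lit 0x1704b0a55f) (nat_lit 0))) (L (E (nat_lit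 3) (nat_lit 0x173cb2e571) (nat_lit 0)))) (N (nat_lit 2258) (L (E (nat_lit 3) (nat_lit 0x1a0cc92623) (nat_lit 0))) (N (nat_lit 2259) (L (E (nat_lit 3) (nat_lit 0x1a44cba637) (nat_lit 0))) (L (E (nat_lit 3) (nat_lit 0x20ed01e7e7) (nat_lit 0)))))) (N (nat_lit 2261) (L (E (nat_lit 3) (nat_lit 0x23050fe85d) (nat_lit 0))) (L (E (nat_lit 3) (nat_lit 0x2315106861) (nat_lit 0)))))) (N (nat_lit 2266) (N (nat_lit 2264) (N (nat_lit 2263) (L (E (nat_lit 3) (nat_lit 0x23fd182897) (nat_lit 0))) (L (E (nat_lit 3) (nat_lit 0x263529e933) (nat_lit 0)))) (N (nat_lit 2265) (L (E (nat_lit 3) (nat_lit 0x268d2c6943) (nat_lit 0))) (L (E (nat_lit 3) (nat_lit 0x269d2ce947) (nat_lit 0))))) (N (nat_lit 2268) (N (nat_lit 2267) (L (E (nat_lit 3) (nat_lit 0x26dd2e694f) (nat_lit 0))) (L (E (nat_lit 3) (nat_lit 0x274d322969) (nat_lit 0)))) (N (nat_lit 2269) (L (E (nat_lit 3) (nat_lit 0x278d346979) (nat_lit 0))) (L (E (nat_lit 3)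 (nat_lit 0x279d34e97d) (nat_lit 0))))))) (N (nat_lit 2285) (N (nat_lit 2283) (N (nat_lit 2276) (N (nat_lit 2272) (N (nat_lit 2271) (L (E (nat_lit 3) (nat_lit 0x27a535297f) (nat_lit 0))) (L (E (nat_lit 3) (nat_lit 0x281d3a69a9) (nat_lit 0)))) (N (nat_lit 2274) (N (nat_lit 2273) (L (E (nat_lit 3) (nat_lit 0x299544ea0f) (nat_lit 0))) (L (E (nat_lit 3) (nat_lit 0x2ab54daa47) (nat_lit 0)))) (N (nat_lit 2275) (L (E (nat_lit 3) (nat_lit 0x310580ebe1) (nat_lit 0))) (L (E (nat_lit 3) (nat_lit 0x36d5af2d4f) (nat_lit 0)))))) (N (nat_lit 2280) (N (nat_lit 2278) (N (nat_lit 2277) (L (E (nat_lit 3) (nat_lit 0x3f45f32f7d) (nat_lit 0))) (L (E (nat_lit 3) (nat_lit 0x3fedf86fa1) (nat_lit 0)))) (N (nat_lit 2279) (L (E (nat_lit 3) (nat_lit 0x127c936479) (nat_lit 0))) (L (E (nat_lit 3) (nat_lit 0x13a49ca4b9) (nat_lit 0))))) (N (nat_lit 2282) (N (nat_lit 2281) (L (E (nat_lit 3) (nat_lit 0x1524a8a523) (nat_lit 0))) (L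 (E (nat_lit 3) (nat_lit 0x1584aba535) (nat_lit 0)))) (L (E (nat_lit 3) (nat_lit 0x166cb2e56b) (nat_lit 0)))))) (N (nat_lit 2284) (L (E (nat_lit 3) (nat_lit 0x1674b3256d) (nat_lit 0))) (L (E (nat_lit 3) (nat_lit 0x16b4b5257d) (nat_lit 0))))) (N (nat_lit 2290) (N (nat_lit 2289) (N (nat_lit 2287) (N (nat_lit 2286) (L (E (nat_lit 3) (nat_lit 0x16bcb5657f) (nat_lit 0))) (L (E (nat_lit 3) (nat_lit 0x1714b82597) (nat_lit 0)))) (N (nat_lit 2288) (L (E (nat_lit 3) (nat_lit 0x21e50ea84f) (nat_lit 0))) (L (E (nat_lit 3) (nat_lit 0x221d10685b) (nat_lit 0))))) (L (E (nat_lit 3) (nat_lit 0x22cd15e87f) (nat_lit 0)))) (N (nat_lit 2292) (N (nat_lit 2291) (L (E (nat_lit 3) (nat_lit 0x22dd166883) (nat_lit 0))) (L (E (nat_lit 3) (nat_lit 0x231d186893) (nat_lit 0)))) (N (nat_lit 2293) (L (E (nat_lit 3) (nat_lit 0x238d1be8af) (nat_lit 0))) (L (E (nat_lit 3) (nat_lit 0x25ad2ce941) (nat_lit 0)))))))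
def cl45 : RA := N (nat_lit 2313) (N (nat_lit 2300) (N (nat_lit 2297) (N (nat_lit 2296) (N (nat_lit 2295) (L (E (nat_lit 3) (nat_lit 0x25f52f294f) (nat_lit 0))) (L (E (nat_lit 3) (nat_lit 0x2655322963) (nat_lit 0)))) (L (E (nat_lit 3) (nat_lit 0x26a534a975) (nat_lit 0)))) (N (nat_lit 2298) (L (E (nat_lit 3) (nat_lit 0x26ad34e977) (nat_lit 0))) (N (nat_lit 2299) (L (E (nat_lit 3) (nat_lit 0x26ed36e987) (nat_lit 0))) (L (E (nat_lit 3) (nat_lit 0x274d39e99f) (nat_lit 0)))))) (N (nat_lit 2305) (N (nat_lit 2302) (N (nat_lit 2301) (L (E (nat_lit 3) (nat_lit 0x275d3a69a3) (nat_lit 0))) (L (E (nat_lit 3) (nat_lit 0x29654aaa27) (nat_lit 0)))) (N (nat_lit 2304) (N (nat_lit 2303) (L (E (nat_lit 3) (nat_lit 0x29754b2a2b) (nat_lit 0))) (L (E (nat_lit 3) (nat_lit 0x3645b1ad5b) (nat_lit 0)))) (L (E (nat_lit 3) (nat_lit 0x364db1ed5d) (nat_lit 0))))) (N (nat_lit 2311) (N (nat_lit 2309) (N (nat_lit 2307) (N (nat_lit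 2306) (L (E (nat_lit 3) (nat_lit 0x3655b22d5f) (nat_lit 0))) (L (E (nat_lit 3) (nat_lit 0x36e5b6ad8d) (nat_lit 0)))) (N (nat_lit 2308) (L (E (nat_lit 3) (nat_lit 0x3fbdfd6fc1) (nat_lit 0))) (L (E (nat_lit 3) (nat_lit 0x137494a483) (nat_lit 0))))) (N (nat_lit 2310) (L (E (nat_lit 3) (nat_lit 0x1604a8e527) (nat_lit 0))) (L (E (nat_lit 3) (nat_lit 0x1614a9652b) (nat_lit 0))))) (N (nat_lit 2312) (L (E (nat_lit 3) (nat_lit 0x166cabe539) (nat_lit 0))) (L (E (nat_lit 3) (nat_lit 0x16a4ade545) (nat_lit 0))))))) (N (nat_lit 2326) (N (nat_lit 2318) (N (nat_lit 2315) (N (nat_lit 2314) (L (E (nat_lit 3) (nat_lit 0x16dcafa553) (nat_lit 0))) (L (E (nat_lit 3) (nat_lit 0x171cb22567) (nat_lit 0)))) (N (nat_lit 2316) (L (E (nat_lit 3) (nat_lit 0x1764b4e57d) (nat_lit 0))) (N (nat_lit 2317) (L (E (nat_lit 3) (nat_lit 0x1a2ccb262f) (nat_lit 0))) (L (E (nat_lit 3) (nat_lit 0x2034f9e7a7) (nat_lit 0)))))) (N (nat_lit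 2322) (N (nat_lit 2321) (N (nat_lit 2319) (L (E (nat_lit 3) (nat_lit 0x206cfbe7b5) (nat_lit 0))) (N (nat_lit 2320) (L (E (nat_lit 3) (nat_lit 0x2074fc27b7) (nat_lit 0))) (L (E (nat_lit 3) (nat_lit 0x22cd0ee853) (nat_lit 0))))) (L (E (nat_lit 3) (nat_lit 0x231d10e861) (nat_lit 0)))) (N (nat_lit 2324) (N (nat_lit 2323) (L (E (nat_lit 3) (nat_lit 0x235d12a86d) (nat_lit 0))) (L (E (nat_lit 3) (nat_lit 0x238d142879) (nat_lit 0)))) (N (nat_lit 2325) (L (E (nat_lit 3) (nat_lit 0x23b515e881) (nat_lit 0))) (L (E (nat_lit 3) (nat_lit 0x24351aa8a7) (nat_lit 0))))))) (N (nat_lit 2331) (N (nat_lit 2330) (N (nat_lit 2328) (N (nat_lit 2327) (L (E (nat_lit 3) (nat_lit 0x24551ba8af) (nat_lit 0))) (L (E (nat_lit 3) (nat_lit 0x248d1de8c3) (nat_lit 0)))) (N (nat_lit 2329) (L (E (nat_lit 3) (nat_lit 0x269d2d2945) (nat_lit 0))) (L (E (nat_lit 3) (nat_lit 0x26dd2ea94d) (nat_lit 0))))) (L (E (nat_lit 3) (nat_lit 0x26e52ee94f)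 (nat_lit 0)))) (N (nat_lit 2337) (N (nat_lit 2334) (N (nat_lit 2333) (N (nat_lit 2332) (L (E (nat_lit 3) (nat_lit 0x2785346975) (nat_lit 0))) (L (E (nat_lit 3) (nat_lit 0x27cd37698d) (nat_lit 0)))) (L (E (nat_lit 3) (nat_lit 0x28153a69a5) (nat_lit 0)))) (N (nat_lit 2336) (N (nat_lit 2335) (L (E (nat_lit 3) (nat_lit 0x2a4d4aaa29) (nat_lit 0))) (L (E (nat_lit 3) (nat_lit 0x2a854c6a39) (nat_lit 0)))) (L (E (nat_lit 3) (nat_lit 0x2ae5502a55) (nat_lit 0))))) (N (nat_lit 2340) (N (nat_lit 2338) (L (E (nat_lit 3) (nat_lit 0x3414006001) (nat_lit 0))) (N (nat_lit 2339) (L (E (nat_lit 3) (nat_lit 0x3585a4ed0b) (nat_lit 0))) (L (E (nat_lit 3) (nat_lit 0x364daa2d29) (nat_lit 0))))) (N (nat_lit 2341) (L (E (nat_lit 3) (nat_lit 0x3d2de3eefb) (nat_lit 0))) (N (nat_lit 2342) (L (E (nat_lit 3) (nat_lit 0x3fddf82f9b) (nat_lit 0))) (L (E (nat_lit 3) (nat_lit 0x49e61023df) (nat_lit 0)))))))))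
def cl46 : RA := N (nat_lit 2406) (N (nat_lit 2394) (N (nat_lit 2386) (N (nat_lit 2384) (N (nat_lit 2383) (N (nat_lit 2382) (L (E (nat_lit 3) (nat_lit 0x15bca9253d) (nat_lit 0))) (L (E (nat_lit 3) (nat_lit 0x15e4aa6545) (nat_lit 0)))) (L (E (nat_lit 3) (nat_lit 0x15fcab254b) (nat_lit 0)))) (N (nat_lit 2385) (L (E (nat_lit 3) (nat_lit 0x165cae2561) (nat_lit 0))) (L (E (nat_lit 3) (nat_lit 0x169cb02573) (nat_lit 0))))) (N (nat_lit 2388) (N (nat_lit 2387) (L (E (nat_lit 3) (nat_lit 0x16acb0a577) (nat_lit 0))) (L (E (nat_lit 3) (nat_lit 0x1724b4e599) (nat_lit 0)))) (N (nat_lit 2392) (N (nat_lit 2389) (L (E (nat_lit 3) (nat_lit 0x173cb5a59f) (nat_lit 0))) (N (nat_lit 2391) (N (nat_lit 2390) (L (E (nat_lit 3) (nat_lit 0x1764b765ad) (nat_lit 0))) (L (E (nat_lit 3) (nat_lit 0x19f4cb264b) (nat_lit 0)))) (L (E (nat_lit 3) (nat_lit 0x202cfc67d3) (nat_lit 0))))) (N (nat_lit 2393) (L (E (nat_lit 3) (nat_lit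 0x208cffa7ed) (nat_lit 0))) (L (E (nat_lit 3) (nat_lit 0x223d0d685d) (nat_lit 0))))))) (N (nat_lit 2400) (N (nat_lit 2396) (N (nat_lit 2395) (L (E (nat_lit 3) (nat_lit 0x22bd10a879) (nat_lit 0))) (L (E (nat_lit 3) (nat_lit 0x22f5126883) (nat_lit 0)))) (N (nat_lit 2397) (L (E (nat_lit 3) (nat_lit 0x230512e887) (nat_lit 0))) (N (nat_lit 2398) (L (E (nat_lit 3) (nat_lit 0x231513688b) (nat_lit 0))) (N (nat_lit 2399) (L (E (nat_lit 3) (nat_lit 0x234d152897) (nat_lit 0))) (L (E (nat_lit 3) (nat_lit 0x23a51828b1) (nat_lit 0))))))) (N (nat_lit 2402) (N (nat_lit 2401) (L (E (nat_lit 3) (nat_lit 0x23ad1868b3) (nat_lit 0))) (L (E (nat_lit 3) (nat_lit 0x23b518a8b5) (nat_lit 0)))) (N (nat_lit 2404) (N (nat_lit 2403) (L (E (nat_lit 3) (nat_lit 0x25cd29e945) (nat_lit 0))) (L (E (nat_lit 3) (nat_lit 0x267d2ea967) (nat_lit 0)))) (N (nat_lit 2405) (L (E (nat_lit 3) (nat_lit 0x268d2f296b) (nat_lit 0))) (L (E (nat_lit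 3) (nat_lit 0x269d2fa96f) (nat_lit 0)))))))) (N (nat_lit 2416) (N (nat_lit 2410) (N (nat_lit 2408) (N (nat_lit 2407) (L (E (nat_lit 3) (nat_lit 0x2735346993) (nat_lit 0))) (L (E (nat_lit 3) (nat_lit 0x273d34a995) (nat_lit 0)))) (N (nat_lit 2409) (L (E (nat_lit 3) (nat_lit 0x274534e997) (nat_lit 0))) (L (E (nat_lit 3) (nat_lit 0x274d352999) (nat_lit 0))))) (N (nat_lit 2413) (N (nat_lit 2412) (N (nat_lit 2411) (L (E (nat_lit 3) (nat_lit 0x277d3729a7) (nat_lit 0))) (L (E (nat_lit 3) (nat_lit 0x27853769a9) (nat_lit 0)))) (L (E (nat_lit 3) (nat_lit 0x2945452a1d) (nat_lit 0)))) (N (nat_lit 2415) (N (nat_lit 2414) (L (E (nat_lit 3) (nat_lit 0x2985476a2b) (nat_lit 0))) (L (E (nat_lit 3) (nat_lit 0x2a454cea59) (nat_lit 0)))) (L (E (nat_lit 3) (nat_lit 0x2ae552ea87) (nat_lit 0)))))) (N (nat_lit 2426) (N (nat_lit 2423) (N (nat_lit 2418) (N (nat_lit 2417) (L (E (nat_lit 3) (nat_lit 0x2f25746b99) (nat_lit 0)))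 (L (E (nat_lit 3) (nat_lit 0x302d7cabd5) (nat_lit 0)))) (N (nat_lit 2421) (N (nat_lit 2420) (N (nat_lit 2419) (L (E (nat_lit 3) (nat_lit 0x36bdb1ad7b) (nat_lit 0))) (L (E (nat_lit 3) (nat_lit 0x36d5b26d81) (nat_lit 0)))) (L (E (nat_lit 3) (nat_lit 0x12a490a481) (nat_lit 0)))) (N (nat_lit 2422) (L (E (nat_lit 3) (nat_lit 0x12f492e493) (nat_lit 0))) (L (E (nat_lit 3) (nat_lit 0x13549564a7) (nat_lit 0)))))) (N (nat_lit 2425) (N (nat_lit 2424) (L (E (nat_lit 3) (nat_lit 0x14eca4251d) (nat_lit 0))) (L (E (nat_lit 3) (nat_lit 0x1604aaa551) (nat_lit 0)))) (L (E (nat_lit 3) (nat_lit 0x1614ab2555) (nat_lit 0))))) (N (nat_lit 2429) (N (nat_lit 2427) (L (E (nat_lit 3) (nat_lit 0x166cade56b) (nat_lit 0))) (N (nat_lit 2428) (L (E (nat_lit 3) (nat_lit 0x1674ae256d) (nat_lit 0))) (L (E (nat_lit 3) (nat_lit 0x16acafe57b) (nat_lit 0))))) (N (nat_lit 2430) (L (E (nat_lit 3) (nat_lit 0x1704b2e593) (nat_lit 0))) (L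 (E (nat_lit 3) (nat_lit 0x1714b36597) (nat_lit 0)))))))
def cl47 : RA := N (nat_lit 2455) (N (nat_lit 2445) (N (nat_lit 2441) (N (nat_lit 2435) (N (nat_lit 2432) (L (E (nat_lit 3) (nat_lit 0x173cb4e5a3) (nat_lit 0))) (N (nat_lit 2434) (N (nat_lit 2433) (L (E (nat_lit 3) (nat_lit 0x1974c6262d) (nat_lit 0))) (L (E (nat_lit 3) (nat_lit 0x1a1ccba659) (nat_lit 0)))) (L (E (nat_lit 3) (nat_lit 0x1fe4f967c7) (nat_lit 0))))) (N (nat_lit 2437) (N (nat_lit 2436) (L (E (nat_lit 3) (nat_lit 0x20d501e80b) (nat_lit 0))) (L (E (nat_lit 3) (nat_lit 0x21d509e84b) (nat_lit 0)))) (N (nat_lit 2439) (N (nat_lit 2438) (L (E (nat_lit 3) (nat_lit 0x220d0b6857) (nat_lit 0))) (L (E (nat_lit 3) (nat_lit 0x222d0c685f) (nat_lit 0)))) (N (nat_lit 2440) (L (E (nat_lit 3) (nat_lit 0x225d0da869) (nat_lit 0))) (L (E (nat_lit 3) (nat_lit 0x226d0e286d) (nat_lit 0))))))) (N (nat_lit 2443) (N (nat_lit 2442) (L (E (nat_lit 3) (nat_lit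 0x22cd10687f) (nat_lit 0))) (L (E (nat_lit 3) (nat_lit 0x230d12688f) (nat_lit 0)))) (N (nat_lit 2444) (L (E (nat_lit 3) (nat_lit 0x231d12e893) (nat_lit 0))) (L (E (nat_lit 3) (nat_lit 0x259d28293d) (nat_lit 0)))))) (N (nat_lit 2451) (N (nat_lit 2448) (N (nat_lit 2447) (N (nat_lit 2446) (L (E (nat_lit 3) (nat_lit 0x25e529e94b) (nat_lit 0))) (L (E (nat_lit 3) (nat_lit 0x25f52a694f) (nat_lit 0)))) (L (E (nat_lit 3) (nat_lit 0x26452c695f) (nat_lit 0)))) (N (nat_lit 2449) (L (E (nat_lit 3) (nat_lit 0x26552ce963) (nat_lit 0))) (N (nat_lit 2450) (L (E (nat_lit 3) (nat_lit 0x265d2d2965) (nat_lit 0))) (L (E (nat_lit 3) (nat_lit 0x26952ea971) (nat_lit 0)))))) (N (nat_lit 2452) (L (E (nat_lit 3) (nat_lit 0x269d2ee973) (nat_lit 0))) (N (nat_lit 2453) (L (E (nat_lit 3) (nat_lit 0x26a52f2975) (nat_lit 0))) (N (nat_lit 2454) (L (E (nat_lit 3) (nat_lit 0x26ed316987) (nat_lit 0))) (L (E (nat_lit 3) (nat_lit 0x274d34699f)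 (nat_lit 0)))))))) (N (nat_lit 2476) (N (nat_lit 2468) (N (nat_lit 2464) (N (nat_lit 2460) (N (nat_lit 2458) (N (nat_lit 2457) (N (nat_lit 2456) (L (E (nat_lit 3) (nat_lit 0x27e53a29cd) (nat_lit 0))) (L (E (nat_lit 3) (nat_lit 0x2a0d4aaa51) (nat_lit 0)))) (L (E (nat_lit 3) (nat_lit 0x2af552aa91) (nat_lit 0)))) (N (nat_lit 2459) (L (E (nat_lit 3) (nat_lit 0x2fdd792bc5) (nat_lit 0))) (L (E (nat_lit 3) (nat_lit 0x3645abed5b) (nat_lit 0))))) (N (nat_lit 2462) (N (nat_lit 2461) (L (E (nat_lit 3) (nat_lit 0x3725b42d9d) (nat_lit 0))) (L (E (nat_lit 3) (nat_lit 0xd546a233d) (nat_lit 0)))) (N (nat_lit 2463) (L (E (nat_lit 3) (nat_lit 0x12f497249f) (nat_lit 0))) (L (E (nat_lit 3) (nat_lit 0x13c49da4d3) (nat_lit 0)))))) (N (nat_lit 2467) (N (nat_lit 2465) (L (E (nat_lit 3) (nat_lit 0x1564aaa539) (nat_lit 0))) (N (nat_lit 2466) (L (E (nat_lit 3) (nat_lit 0x15f4af2559) (nat_lit 0))) (L (E (nat_lit 3) (nat_lit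 0x165cb26573) (nat_lit 0))))) (L (E (nat_lit 3) (nat_lit 0x16e4b6a597) (nat_lit 0))))) (N (nat_lit 2473) (N (nat_lit 2470) (N (nat_lit 2469) (L (E (nat_lit 3) (nat_lit 0x16ecb6e599) (nat_lit 0))) (L (E (nat_lit 3) (nat_lit 0x1974cb2639) (nat_lit 0)))) (N (nat_lit 2472) (N (nat_lit 2471) (L (E (nat_lit 3) (nat_lit 0x1a14d02663) (nat_lit 0))) (L (E (nat_lit 3) (nat_lit 0x203d0167e9) (nat_lit 0)))) (L (E (nat_lit 3) (nat_lit 0x220d0fe863) (nat_lit 0))))) (N (nat_lit 2475) (N (nat_lit 2474) (L (E (nat_lit 3) (nat_lit 0x221d106867) (nat_lit 0))) (L (E (nat_lit 3) (nat_lit 0x22ad14e883) (nat_lit 0)))) (L (E (nat_lit 3) (nat_lit 0x231d18689f) (nat_lit 0)))))) (N (nat_lit 2482) (N (nat_lit 2481) (N (nat_lit 2480) (N (nat_lit 2478) (N (nat_lit 2477) (L (E (nat_lit 3) (nat_lit 0x235d1a68af) (nat_lit 0))) (L (E (nat_lit 3) (nat_lit 0x23ad1ce8c5) (nat_lit 0)))) (N (nat_lit 2479) (L (E (nat_lit 3) (nat_lit 0x23fd1f68dd)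 (nat_lit 0))) (L (E (nat_lit 3) (nat_lit 0x254d29e939) (nat_lit 0))))) (L (E (nat_lit 3) (nat_lit 0x259d2c6949) (nat_lit 0)))) (L (E (nat_lit 3) (nat_lit 0x25f52f295b) (nat_lit 0)))) (N (nat_lit 2483) (L (E (nat_lit 3) (nat_lit 0x2635312967) (nat_lit 0))) (L (E (nat_lit 3) (nat_lit 0x269d34697f) (nat_lit 0))))))
def cl48 : RA := N (nat_lit 2510) (N (nat_lit 2498) (N (nat_lit 2494) (N (nat_lit 2489) (N (nat_lit 2486) (N (nat_lit 2485) (L (E (nat_lit 3) (nat_lit 0x273d3969a7) (nat_lit 0))) (L (E (nat_lit 3) (nat_lit 0x278d3be9bf) (nat_lit 0)))) (N (nat_lit 2487) (L (E (nat_lit 3) (nat_lit 0x27cd3de9d3) (nat_lit 0))) (N (nat_lit 2488) (L (E (nat_lit 3) (nat_lit 0x294549aa2b) (nat_lit 0))) (L (E (nat_lit 3) (nat_lit 0x2e9d746b8f) (nat_lit 0)))))) (N (nat_lit 2491) (N (nat_lit 2490) (L (E (nat_lit 3) (nat_lit 0x302d80ebe7) (nat_lit 0))) (L (E (nat_lit 3) (nat_lit 0x3585abad3b) (nat_lit 0)))) (N (nat_lit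 2492) (L (E (nat_lit 3) (nat_lit 0x35e5aead51) (nat_lit 0))) (N (nat_lit 2493) (L (E (nat_lit 3) (nat_lit 0x367db36d79) (nat_lit 0))) (L (E (nat_lit 3) (nat_lit 0x3ca5e4af0b) (nat_lit 0))))))) (N (nat_lit 2497) (N (nat_lit 2496) (N (nat_lit 2495) (L (E (nat_lit 3) (nat_lit 0x3dddeeaf61) (nat_lit 0))) (L (E (nat_lit 3) (nat_lit 0x1624abe547) (nat_lit 0)))) (L (E (nat_lit 3) (nat_lit 0x162cac2549) (nat_lit 0)))) (L (E (nat_lit 3) (nat_lit 0x1674ae6559) (nat_lit 0))))) (N (nat_lit 2503) (N (nat_lit 2499) (L (E (nat_lit 3) (nat_lit 0x16bcb0a56d) (nat_lit 0))) (N (nat_lit 2500) (L (E (nat_lit 3) (nat_lit 0x16ecb26579) (nat_lit 0))) (N (nat_lit 2502) (N (nat_lit 2501) (L (E (nat_lit 3) (nat_lit 0x18e4c265ff) (nat_lit 0))) (L (E (nat_lit 3) (nat_lit 0x1934c4660d) (nat_lit 0)))) (L (E (nat_lit 3) (nat_lit 0x1a0ccb6643) (nat_lit 0)))))) (N (nat_lit 2509) (N (nat_lit 2506) (N (nat_lit 2505) (N (nat_lit 2504)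 (L (E (nat_lit 3) (nat_lit 0x1a1ccbe647) (nat_lit 0))) (L (E (nat_lit 3) (nat_lit 0x1fe4f9a7b5) (nat_lit 0)))) (L (E (nat_lit 3) (nat_lit 0x1fecf9e7b7) (nat_lit 0)))) (N (nat_lit 2508) (N (nat_lit 2507) (L (E (nat_lit 3) (nat_lit 0x1ffcfa67bb) (nat_lit 0))) (L (E (nat_lit 3) (nat_lit 0x20bd0167f1) (nat_lit 0)))) (L (E (nat_lit 3) (nat_lit 0x22750ea85d) (nat_lit 0))))) (L (E (nat_lit 3) (nat_lit 0x22c510686d) (nat_lit 0)))))) (N (nat_lit 2520) (N (nat_lit 2515) (N (nat_lit 2513) (N (nat_lit 2511) (L (E (nat_lit 3) (nat_lit 0x22d510e871) (nat_lit 0))) (N (nat_lit 2512) (L (E (nat_lit 3) (nat_lit 0x2325136881) (nat_lit 0))) (L (E (nat_lit 3) (nat_lit 0x236515688f) (nat_lit 0))))) (N (nat_lit 2514) (L (E (nat_lit 3) (nat_lit 0x2385166897) (nat_lit 0))) (L (E (nat_lit 3) (nat_lit 0x239516e89b) (nat_lit 0))))) (N (nat_lit 2518) (N (nat_lit 2516) (L (E (nat_lit 3) (nat_lit 0x23bd1868a9) (nat_lit 0))) (N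 (nat_lit 2517) (L (E (nat_lit 3) (nat_lit 0x245d1de8d7) (nat_lit 0))) (L (E (nat_lit 3) (nat_lit 0x24a520a8ed) (nat_lit 0))))) (N (nat_lit 2519) (L (E (nat_lit 3) (nat_lit 0x264d2ce94f) (nat_lit 0))) (L (E (nat_lit 3) (nat_lit 0x265d2d6953) (nat_lit 0)))))) (N (nat_lit 2526) (N (nat_lit 2523) (N (nat_lit 2522) (N (nat_lit 2521) (L (E (nat_lit 3) (nat_lit 0x26ed31a971) (nat_lit 0))) (L (E (nat_lit 3) (nat_lit 0x2705326977) (nat_lit 0)))) (L (E (nat_lit 3) (nat_lit 0x270d32a979) (nat_lit 0)))) (N (nat_lit 2524) (L (E (nat_lit 3) (nat_lit 0x2745346989) (nat_lit 0))) (N (nat_lit 2525) (L (E (nat_lit 3) (nat_lit 0x274d34a98b) (nat_lit 0))) (L (E (nat_lit 3) (nat_lit 0x27cd39a9b3) (nat_lit 0)))))) (N (nat_lit 2528) (N (nat_lit 2527) (L (E (nat_lit 3) (nat_lit 0x27dd3a29b7) (nat_lit 0))) (L (E (nat_lit 3) (nat_lit 0x27e53a69b9) (nat_lit 0)))) (N (nat_lit 2531) (N (nat_lit 2530) (N (nat_lit 2529) (L (E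 (nat_lit 3) (nat_lit 0x28053be9c7) (nat_lit 0))) (L (E (nat_lit 3) (nat_lit 0x28153c69cb) (nat_lit 0)))) (L (E (nat_lit 3) (nat_lit 0x29fd4a6a39) (nat_lit 0)))) (N (nat_lit 2532) (L (E (nat_lit 3) (nat_lit 0x2a054aaa3b) (nat_lit 0))) (L (E (nat_lit 3) (nat_lit 0x30757e6bd9) (nat_lit 0))))))))
def cl49 : RA := N (nat_lit 2431) (N (nat_lit 2381) (N (nat_lit 2358) (N (nat_lit 2352) (N (nat_lit 2348) (N (nat_lit 2347) (N (nat_lit 2346) (N (nat_lit 2345) (L (E (nat_lit 3) (nat_lit 0x132c94e477) (nat_lit 0))) (L (E (nat_lit 3) (nat_lit 0x13dc9ae49f) (nat_lit 0)))) (L (E (nat_lit 3) (nat_lit 0x15fcab2527) (nat_lit 0)))) (L (E (nat_lit 3) (nat_lit 0x164cada533) (nat_lit 0)))) (N (nat_lit 2350) (N (nat_lit 2349) (L (E (nat_lit 3) (nat_lit 0x16acb0a549) (nat_lit 0))) (L (E (nat_lit 3) (nat_lit 0x16dcb26555) (nat_lit 0)))) (N (nat_lit 2351) (L (E (nat_lit 3) (nat_lit 0x1704b3a55f) (nat_lit 0))) (L (E (nat_lit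 3) (nat_lit 0x173cb5a571) (nat_lit 0)))))) (N (nat_lit 2356) (N (nat_lit 2355) (N (nat_lit 2354) (N (nat_lit 2353) (L (E (nat_lit 3) (nat_lit 0x175cb7257d) (nat_lit 0))) (L (E (nat_lit 3) (nat_lit 0x235515686d) (nat_lit 0)))) (L (E (nat_lit 3) (nat_lit 0x236515e871) (nat_lit 0)))) (L (E (nat_lit 3) (nat_lit 0x238516e879) (nat_lit 0)))) (N (nat_lit 2357) (L (E (nat_lit 3) (nat_lit 0x23b518a883) (nat_lit 0))) (L (E (nat_lit 3) (nat_lit 0x23bd18e885) (nat_lit 0)))))) (N (nat_lit 2370) (N (nat_lit 2367) (N (nat_lit 2363) (N (nat_lit 2361) (N (nat_lit 2360) (N (nat_lit 2359) (L (E (nat_lit 3) (nat_lit 0x23ed1ae893) (nat_lit 0))) (L (E (nat_lit 3) (nat_lit 0x240d1be89b) (nat_lit 0)))) (L (E (nat_lit 3) (nat_lit 0x245d1e68b3) (nat_lit 0)))) (N (nat_lit 2362) (L (E (nat_lit 3) (nat_lit 0x247d1fe8c1) (nat_lit 0))) (L (E (nat_lit 3) (nat_lit 0x264d2d6939) (nat_lit 0))))) (N (nat_lit 2364) (L (E (nat_lit 3)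 (nat_lit 0x269d2fa947) (nat_lit 0))) (N (nat_lit 2365) (L (E (nat_lit 3) (nat_lit 0x26dd31a94f) (nat_lit 0))) (N (nat_lit 2366) (L (E (nat_lit 3) (nat_lit 0x270d33295b) (nat_lit 0))) (L (E (nat_lit 3) (nat_lit 0x2735346963) (nat_lit 0))))))) (N (nat_lit 2368) (L (E (nat_lit 3) (nat_lit 0x274534e967) (nat_lit 0))) (N (nat_lit 2369) (L (E (nat_lit 3) (nat_lit 0x281d3d29a9) (nat_lit 0))) (L (E (nat_lit 3) (nat_lit 0x2b4557aa83) (nat_lit 0)))))) (N (nat_lit 2380) (N (nat_lit 2374) (N (nat_lit 2372) (N (nat_lit 2371) (L (E (nat_lit 3) (nat_lit 0x357da6ed0b) (nat_lit 0))) (L (E (nat_lit 3) (nat_lit 0x35d5a96d15) (nat_lit 0)))) (N (nat_lit 2373) (L (E (nat_lit 3) (nat_lit 0x36bdb1ad49) (nat_lit 0))) (L (E (nat_lit 3) (nat_lit 0x36cdb22d4d) (nat_lit 0))))) (N (nat_lit 2377) (N (nat_lit 2375) (L (E (nat_lit 3) (nat_lit 0x36d5b26d4f) (nat_lit 0))) (N (nat_lit 2376) (L (E (nat_lit 3) (nat_lit 0x370db42d5f)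 (nat_lit 0))) (L (E (nat_lit 3) (nat_lit 0x374db6ad79) (nat_lit 0))))) (N (nat_lit 2379) (N (nat_lit 2378) (L (E (nat_lit 3) (nat_lit 0x3c9de0eee1) (nat_lit 0))) (L (E (nat_lit 3) (nat_lit 0x124c8ee471) (nat_lit 0)))) (L (E (nat_lit 3) (nat_lit 0x13cc9a64c3) (nat_lit 0)))))) (L (E (nat_lit 3) (nat_lit 0x1554a6652b) (nat_lit 0)))))) (cl46)) (N (nat_lit 2484) (cl47) (cl48))
def cl50 : RA := N (nat_lit 2579) (N (nat_lit 2570) (N (nat_lit 2564) (N (nat_lit 2562) (L (E (nat_lit 3) (nat_lit 0x26d532298d) (nat_lit 0))) (N (nat_lit 2563) (L (E (nat_lit 3) (nat_lit 0x26e532a991) (nat_lit 0))) (L (E (nat_lit 3) (nat_lit 0x274d35e9ab) (nat_lit 0))))) (N (nat_lit 2566) (N (nat_lit 2565) (L (E (nat_lit 3) (nat_lit 0x27fd3ce9e3) (nat_lit 0))) (L (E (nat_lit 3) (nat_lit 0x294545ea2b) (nat_lit 0)))) (N (nat_lit 2568) (N (nat_lit 2567) (L (E (nat_lit 3) (nat_lit 0x29ed4b2a55) (nat_lit 0))) (L (E (nat_lit 3) (nat_lit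 0x2a8d506a7f) (nat_lit 0)))) (N (nat_lit 2569) (L (E (nat_lit 3) (nat_lit 0x3525a56d27) (nat_lit 0))) (L (E (nat_lit 3) (nat_lit 0x35d5aa2d4d) (nat_lit 0))))))) (N (nat_lit 2576) (N (nat_lit 2573) (N (nat_lit 2571) (L (E (nat_lit 3) (nat_lit 0x165cb0e561) (nat_lit 0))) (N (nat_lit 2572) (L (E (nat_lit 3) (nat_lit 0x169cb32573) (nat_lit 0))) (L (E (nat_lit 3) (nat_lit 0x186cc1e5f5) (nat_lit 0))))) (N (nat_lit 2575) (N (nat_lit 2574) (L (E (nat_lit 3) (nat_lit 0x1fc4fc27bb) (nat_lit 0))) (L (E (nat_lit 3) (nat_lit 0x224d106861) (nat_lit 0)))) (L (E (nat_lit 3) (nat_lit 0x234d182897) (nat_lit 0))))) (N (nat_lit 2578) (N (nat_lit 2577) (L (E (nat_lit 3) (nat_lit 0x239d1b28af) (nat_lit 0))) (L (E (nat_lit 3) (nat_lit 0x25cd2ca945) (nat_lit 0)))) (L (E (nat_lit 3) (nat_lit 0x26252ee953) (nat_lit 0)))))) (N (nat_lit 2594) (N (nat_lit 2585) (N (nat_lit 2581) (N (nat_lit 2580) (L (E (nat_lit 3) (nat_lit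 0x268d32696b) (nat_lit 0))) (L (E (nat_lit 3) (nat_lit 0x26e534e97d) (nat_lit 0)))) (N (nat_lit 2583) (N (nat_lit 2582) (L (E (nat_lit 3) (nat_lit 0x26ed35297f) (nat_lit 0))) (L (E (nat_lit 3) (nat_lit 0x273d37e995) (nat_lit 0)))) (N (nat_lit 2584) (L (E (nat_lit 3) (nat_lit 0x2745382997) (nat_lit 0))) (L (E (nat_lit 3) (nat_lit 0x277d3a29a7) (nat_lit 0)))))) (N (nat_lit 2590) (N (nat_lit 2587) (N (nat_lit 2586) (L (E (nat_lit 3) (nat_lit 0x27853a69a9) (nat_lit 0))) (L (E (nat_lit 3) (nat_lit 0x2fed7d6bc3) (nat_lit 0)))) (N (nat_lit 2589) (N (nat_lit 2588) (L (E (nat_lit 3) (nat_lit 0x30bd846bfd) (nat_lit 0))) (L (E (nat_lit 3) (nat_lit 0x36cdb4ed7f) (nat_lit 0)))) (L (E (nat_lit 3) (nat_lit 0x36fdb62d8f) (nat_lit 0))))) (N (nat_lit 2593) (N (nat_lit 2592) (N (nat_lit 2591) (L (E (nat_lit 3) (nat_lit 0x447516a41d) (nat_lit 0))) (L (E (nat_lit 3) (nat_lit 0x475d60a597) (nat_lit 0)))) (L (E (nat_lit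 3) (nat_lit 0x480ce9e005) (nat_lit 0)))) (L (E (nat_lit 3) (nat_lit 0x488cef2003) (nat_lit 0)))))) (N (nat_lit 2601) (N (nat_lit 2598) (N (nat_lit 2597) (N (nat_lit 2596) (N (nat_lit 2595) (L (E (nat_lit 3) (nat_lit 0x43dcef2597) (nat_lit 0))) (L (E (nat_lit 3) (nat_lit 0x461d2d26fb) (nat_lit 0)))) (L (E (nat_lit 3) (nat_lit 0x46f54a2723) (nat_lit 0)))) (L (E (nat_lit 3) (nat_lit 0x490598aaf9) (nat_lit 0)))) (N (nat_lit 2599) (L (E (nat_lit 3) (nat_lit 0x491560a003) (nat_lit 0))) (N (nat_lit 2600) (L (E (nat_lit 3) (nat_lit 0x4925abeb17) (nat_lit 0))) (L (E (nat_lit 3) (nat_lit 0x494db1ab21) (nat_lit 0)))))) (N (nat_lit 2602) (L (E (nat_lit 3) (nat_lit 0x151c31a0d7) (nat_lit 0))) (N (nat_lit 2603) (L (E (nat_lit 3) (nat_lit 0x152431e0d9) (nat_lit 0))) (L (E (nat_lit 3) (nat_lit 0x156432a0db) (nat_lit 0)))))))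
def cl51 : RA := N (nat_lit 2634) (N (nat_lit 2617) (N (nat_lit 2608) (N (nat_lit 2606) (N (nat_lit 2605) (L (E (nat_lit 3) (nat_lit 0x15ac3320df) (nat_lit 0))) (L (E (nat_lit 3) (nat_lit 0x15c433a0e1) (nat_lit 0)))) (N (nat_lit 2607) (L (E (nat_lit 3) (nat_lit 0x15cc33e0e3) (nat_lit 0))) (L (E (nat_lit 3) (nat_lit 0x160434e0e7) (nat_lit 0))))) (N (nat_lit 2611) (N (nat_lit 2609) (L (E (nat_lit 3) (nat_lit 0x164c3560ed) (nat_lit 0))) (N (nat_lit 2610) (L (E (nat_lit 3) (nat_lit 0x169c3660f3) (nat_lit 0))) (L (E (nat_lit 3) (nat_lit 0x173437a0ff) (nat_lit 0))))) (N (nat_lit 2615) (N (nat_lit 2613) (N (nat_lit 2612) (L (E (nat_lit 3) (nat_lit 0x18e438a10b) (nat_lit 0))) (L (E (nat_lit 3) (nat_lit 0x21c46ca1f3) (nat_lit 0)))) (N (nat_lit 2614) (L (E (nat_lit 3) (nat_lit 0x231c732211) (nat_lit 0))) (L (E (nat_lit 3) (nat_lit 0x23cc76e223) (nat_lit 0))))) (N (nat_lit 2616) (L (E (nat_lit 3) (nat_lit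 0x2b8ca8e07f) (nat_lit 0))) (L (E (nat_lit 3) (nat_lit 0x2bacab2083) (nat_lit 0))))))) (N (nat_lit 2627) (N (nat_lit 2621) (N (nat_lit 2619) (N (nat_lit 2618) (L (E (nat_lit 3) (nat_lit 0x2bdcae6091) (nat_lit 0))) (L (E (nat_lit 3) (nat_lit 0x2c1cb3609d) (nat_lit 0)))) (N (nat_lit 2620) (L (E (nat_lit 3) (nat_lit 0x2c24b4e09f) (nat_lit 0))) (L (E (nat_lit 3) (nat_lit 0x394d356175) (nat_lit 0))))) (N (nat_lit 2623) (N (nat_lit 2622) (L (E (nat_lit 3) (nat_lit 0x398d48a18f) (nat_lit 0))) (L (E (nat_lit 3) (nat_lit 0x39954aa193) (nat_lit 0)))) (N (nat_lit 2625) (N (nat_lit 2624) (L (E (nat_lit 3) (nat_lit 0x399d4ce199) (nat_lit 0))) (L (E (nat_lit 3) (nat_lit 0x39bd5461b1) (nat_lit 0)))) (N (nat_lit 2626) (L (E (nat_lit 3) (nat_lit 0x1cbcb4e1b3) (nat_lit 0))) (L (E (nat_lit 3) (nat_lit 0x382d6de581) (nat_lit 0))))))) (N (nat_lit 2631) (N (nat_lit 2630) (N (nat_lit 2629) (N (nat_lit 2628) (L (E (nat_lit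 3) (nat_lit 0x38556ee593) (nat_lit 0))) (L (E (nat_lit 3) (nat_lit 0x4305e4ea55) (nat_lit 0)))) (L (E (nat_lit 3) (nat_lit 0x46d61cac79) (nat_lit 0)))) (L (E (nat_lit 3) (nat_lit 0x470e1daca3) (nat_lit 0)))) (N (nat_lit 2632) (L (E (nat_lit 3) (nat_lit 0x471e1de001) (nat_lit 0))) (N (nat_lit 2633) (L (E (nat_lit 3) (nat_lit 0x47761f6ceb) (nat_lit 0))) (L (E (nat_lit 3) (nat_lit 0x1d84aba059) (nat_lit 0)))))))) (N (nat_lit 2646) (N (nat_lit 2642) (N (nat_lit 2638) (N (nat_lit 2635) (L (E (nat_lit 3) (nat_lit 0x1d8cada05d) (nat_lit 0))) (N (nat_lit 2637) (N (nat_lit 2636) (L (E (nat_lit 3) (nat_lit 0x1d94ade05f) (nat_lit 0))) (L (E (nat_lit 3) (nat_lit 0x1decb32069) (nat_lit 0)))) (L (E (nat_lit 3) (nat_lit 0x2cb5106103) (nat_lit 0))))) (N (nat_lit 2641) (N (nat_lit 2640) (N (nat_lit 2639) (L (E (nat_lit 3) (nat_lit 0x2ced16610d) (nat_lit 0))) (L (E (nat_lit 3) (nat_lit 0x2d2d2d2127) (nat_lit 0))))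 (L (E (nat_lit 3) (nat_lit 0x15c4a72527) (nat_lit 0)))) (L (E (nat_lit 3) (nat_lit 0x1604a8e531) (nat_lit 0))))) (N (nat_lit 2644) (N (nat_lit 2643) (L (E (nat_lit 3) (nat_lit 0x1624a9e539) (nat_lit 0))) (L (E (nat_lit 3) (nat_lit 0x1664aba545) (nat_lit 0)))) (N (nat_lit 2645) (L (E (nat_lit 3) (nat_lit 0x166cabe547) (nat_lit 0))) (L (E (nat_lit 3) (nat_lit 0x1674ac2549) (nat_lit 0)))))) (N (nat_lit 2647) (L (E (nat_lit 3) (nat_lit 0x16b4ae6559) (nat_lit 0))) (L (E (nat_lit 3) (nat_lit 0x16e4afe567) (nat_lit 0)))))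
def cl52 : RA := N (nat_lit 2604) (N (nat_lit 2561) (N (nat_lit 2549) (N (nat_lit 2540) (N (nat_lit 2538) (N (nat_lit 2536) (N (nat_lit 2535) (L (E (nat_lit 3) (nat_lit 0x3535a4ad11) (nat_lit 0))) (L (E (nat_lit 3) (nat_lit 0x133495e4ab) (nat_lit 0)))) (N (nat_lit 2537) (L (E (nat_lit 3) (nat_lit 0x1554a72535) (nat_lit 0))) (L (E (nat_lit 3) (nat_lit 0x1564a7a539) (nat_lit 0))))) (N (nat_lit 2539) (L (E (nat_lit 3) (nat_lit 0x15aca96547) (nat_lit 0))) (L (E (nat_lit 3) (nat_lit 0x1644ae256d) (nat_lit 0))))) (N (nat_lit 2542) (N (nat_lit 2541) (L (E (nat_lit 3) (nat_lit 0x164cae656f) (nat_lit 0))) (L (E (nat_lit 3) (nat_lit 0x16a4b12585) (nat_lit 0)))) (N (nat_lit 2544) (N (nat_lit 2543) (L (E (nat_lit 3) (nat_lit 0x16d4b2e593) (nat_lit 0))) (L (E (nat_lit 3) (nat_lit 0x16ecb3a599) (nat_lit 0)))) (N (nat_lit 2547) (N (nat_lit 2546) (N (nat_lit 2545) (L (E (nat_lit 3) (nat_lit 0x191cc4e623) (nat_lit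 0))) (L (E (nat_lit 3) (nat_lit 0x1964c72635) (nat_lit 0)))) (L (E (nat_lit 3) (nat_lit 0x1974c7a639) (nat_lit 0)))) (N (nat_lit 2548) (L (E (nat_lit 3) (nat_lit 0x1a0ccca661) (nat_lit 0))) (L (E (nat_lit 3) (nat_lit 0x1fccfa27cd) (nat_lit 0)))))))) (N (nat_lit 2555) (N (nat_lit 2552) (N (nat_lit 2550) (L (E (nat_lit 3) (nat_lit 0x21fd0c685f) (nat_lit 0))) (N (nat_lit 2551) (L (E (nat_lit 3) (nat_lit 0x225d0f2875) (nat_lit 0))) (L (E (nat_lit 3) (nat_lit 0x22ad10e883) (nat_lit 0))))) (N (nat_lit 2554) (N (nat_lit 2553) (L (E (nat_lit 3) (nat_lit 0x230d13e89b) (nat_lit 0))) (L (E (nat_lit 3) (nat_lit 0x234d15e8ab) (nat_lit 0)))) (L (E (nat_lit 3) (nat_lit 0x235d1668af) (nat_lit 0))))) (N (nat_lit 2559) (N (nat_lit 2557) (N (nat_lit 2556) (L (E (nat_lit 3) (nat_lit 0x25c52a694f) (nat_lit 0))) (L (E (nat_lit 3) (nat_lit 0x25e52b6957) (nat_lit 0)))) (N (nat_lit 2558) (L (E (nat_lit 3) (nat_lit 0x26252ce963)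 (nat_lit 0))) (L (E (nat_lit 3) (nat_lit 0x262d2d2965) (nat_lit 0))))) (N (nat_lit 2560) (L (E (nat_lit 3) (nat_lit 0x26352d6967) (nat_lit 0))) (L (E (nat_lit 3) (nat_lit 0x269530297d) (nat_lit 0))))))) (cl50)) (N (nat_lit 2648) (cl51) (N (nat_lit 2661) (N (nat_lit 2654) (N (nat_lit 2650) (N (nat_lit 2649) (L (E (nat_lit 3) (nat_lit 0x16fcb0a56d) (nat_lit 0))) (L (E (nat_lit 3) (nat_lit 0x1724b26579) (nat_lit 0)))) (N (nat_lit 2651) (L (E (nat_lit 3) (nat_lit 0x1734b2e57d) (nat_lit 0))) (N (nat_lit 2652) (L (E (nat_lit 3) (nat_lit 0x17bcb9e5b9) (nat_lit 0))) (N (nat_lit 2653) (L (E (nat_lit 3) (nat_lit 0x1a34cb6643) (nat_lit 0))) (L (E (nat_lit 3) (nat_lit 0x1f8cf52795) (nat_lit 0))))))) (N (nat_lit 2657) (N (nat_lit 2655) (L (E (nat_lit 3) (nat_lit 0x22c50ea85d) (nat_lit 0))) (N (nat_lit 2656) (L (E (nat_lit 3) (nat_lit 0x22d50f2861) (nat_lit 0))) (L (E (nat_lit 3) (nat_lit 0x230d10686d) (nat_lit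 0))))) (N (nat_lit 2660) (N (nat_lit 2658) (L (E (nat_lit 3) (nat_lit 0x231d10e871) (nat_lit 0))) (N (nat_lit 2659) (L (E (nat_lit 3) (nat_lit 0x237d13a883) (nat_lit 0))) (L (E (nat_lit 3) (nat_lit 0x23a515688f) (nat_lit 0))))) (L (E (nat_lit 3) (nat_lit 0x23b515e893) (nat_lit 0)))))) (N (nat_lit 2667) (N (nat_lit 2666) (N (nat_lit 2664) (N (nat_lit 2663) (N (nat_lit 2662) (L (E (nat_lit 3) (nat_lit 0x23fd1868a9) (nat_lit 0))) (L (E (nat_lit 3) (nat_lit 0x24151928af) (nat_lit 0)))) (L (E (nat_lit 3) (nat_lit 0x248d1de8d7) (nat_lit 0)))) (N (nat_lit 2665) (L (E (nat_lit 3) (nat_lit 0x264d2ae943) (nat_lit 0))) (L (E (nat_lit 3) (nat_lit 0x265d2b6947) (nat_lit 0))))) (L (E (nat_lit 3) (nat_lit 0x26952ce94f) (nat_lit 0)))) (N (nat_lit 2668) (L (E (nat_lit 3) (nat_lit 0x26fd2fa965) (nat_lit 0))) (L (E (nat_lit 3) (nat_lit 0x27052fe967) (nat_lit 0)))))))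
def cl53 : RA := N (nat_lit 2694) (N (nat_lit 2684) (N (nat_lit 2678) (N (nat_lit 2672) (N (nat_lit 2671) (N (nat_lit 2670) (L (E (nat_lit 3) (nat_lit 0x273531a971) (nat_lit 0))) (L (E (nat_lit 3) (nat_lit 0x274d326977) (nat_lit 0)))) (L (E (nat_lit 3) (nat_lit 0x2785346989) (nat_lit 0)))) (N (nat_lit 2675) (N (nat_lit 2674) (N (nat_lit 2673) (L (E (nat_lit 3) (nat_lit 0x29bd466a1d) (nat_lit 0))) (L (E (nat_lit 3) (nat_lit 0x2aad4daa55) (nat_lit 0)))) (L (E (nat_lit 3) (nat_lit 0x30357a2bb7) (nat_lit 0)))) (N (nat_lit 2676) (L (E (nat_lit 3) (nat_lit 0x363da9ad33) (nat_lit 0))) (N (nat_lit 2677) (L (E (nat_lit 3) (nat_lit 0x367dabed45) (nat_lit 0))) (L (E (nat_lit 3) (nat_lit 0x369daced4d) (nat_lit 0))))))) (N (nat_lit 2683) (N (nat_lit 2682) (N (nat_lit 2681) (N (nat_lit 2680) (N (nat_lit 2679) (L (E (nat_lit 3) (nat_lit 0x3da5e72f25) (nat_lit 0))) (L (E (nat_lit 3) (nat_lit 0x1324922487) (nat_lit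 0)))) (L (E (nat_lit 3) (nat_lit 0x13bc96e4ab) (nat_lit 0)))) (L (E (nat_lit 3) (nat_lit 0x1614a9253d) (nat_lit 0)))) (L (E (nat_lit 3) (nat_lit 0x1644aa6545) (nat_lit 0)))) (L (E (nat_lit 3) (nat_lit 0x164caaa547) (nat_lit 0))))) (N (nat_lit 2688) (N (nat_lit 2686) (N (nat_lit 2685) (L (E (nat_lit 3) (nat_lit 0x165cab254b) (nat_lit 0))) (L (E (nat_lit 3) (nat_lit 0x16acade55f) (nat_lit 0)))) (N (nat_lit 2687) (L (E (nat_lit 3) (nat_lit 0x16ecafe571) (nat_lit 0))) (L (E (nat_lit 3) (nat_lit 0x1704b0a577) (nat_lit 0))))) (N (nat_lit 2693) (N (nat_lit 2690) (N (nat_lit 2689) (L (E (nat_lit 3) (nat_lit 0x191cc1a603) (nat_lit 0))) (L (E (nat_lit 3) (nat_lit 0x19b4c62623) (nat_lit 0)))) (N (nat_lit 2691) (L (E (nat_lit 3) (nat_lit 0x2074fbe7cf) (nat_lit 0))) (N (nat_lit 2692) (L (E (nat_lit 3) (nat_lit 0x20d4ffa7ed) (nat_lit 0))) (L (E (nat_lit 3) (nat_lit 0x20e50167fb) (nat_lit 0)))))) (L (E (nat_lit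 3) (nat_lit 0x2315106877) (nat_lit 0)))))) (N (nat_lit 2704) (N (nat_lit 2700) (N (nat_lit 2697) (N (nat_lit 2695) (L (E (nat_lit 3) (nat_lit 0x236512a885) (nat_lit 0))) (N (nat_lit 2696) (L (E (nat_lit 3) (nat_lit 0x23a5152897) (nat_lit 0))) (L (E (nat_lit 3) (nat_lit 0x23bd15e89d) (nat_lit 0))))) (N (nat_lit 2698) (L (E (nat_lit 3) (nat_lit 0x23cd1668a1) (nat_lit 0))) (N (nat_lit 2699) (L (E (nat_lit 3) (nat_lit 0x23fd1828b1) (nat_lit 0))) (L (E (nat_lit 3) (nat_lit 0x241518e8b7) (nat_lit 0)))))) (N (nat_lit 2703) (N (nat_lit 2702) (N (nat_lit 2701) (L (E (nat_lit 3) (nat_lit 0x258d26292f) (nat_lit 0))) (L (E (nat_lit 3) (nat_lit 0x262d29a943) (nat_lit 0)))) (L (E (nat_lit 3) (nat_lit 0x263529e945) (nat_lit 0)))) (L (E (nat_lit 3) (nat_lit 0x269d2ce959) (nat_lit 0))))) (N (nat_lit 2709) (N (nat_lit 2708) (N (nat_lit 2707) (N (nat_lit 2705) (L (E (nat_lit 3) (nat_lit 0x26e52ea967) (nat_lit 0)))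 (N (nat_lit 2706) (L (E (nat_lit 3) (nat_lit 0x26ed2ee969) (nat_lit 0))) (L (E (nat_lit 3) (nat_lit 0x27052fa96f) (nat_lit 0))))) (L (E (nat_lit 3) (nat_lit 0x2735316979) (nat_lit 0)))) (L (E (nat_lit 3) (nat_lit 0x274d32297f) (nat_lit 0)))) (N (nat_lit 2712) (N (nat_lit 2711) (N (nat_lit 2710) (L (E (nat_lit 3) (nat_lit 0x278d346993) (nat_lit 0))) (L (E (nat_lit 3) (nat_lit 0x279d34e997) (nat_lit 0)))) (L (E (nat_lit 3) (nat_lit 0x27a5352999) (nat_lit 0)))) (N (nat_lit 2714) (N (nat_lit 2713) (L (E (nat_lit 3) (nat_lit 0x282d3c29d3) (nat_lit 0))) (L (E (nat_lit 3) (nat_lit 0x29e5472a29) (nat_lit 0)))) (L (E (nat_lit 3) (nat_lit 0x2a0d486a33) (nat_lit 0)))))))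
def cl54 : RA := N (nat_lit 2748) (N (nat_lit 2733) (N (nat_lit 2730) (N (nat_lit 2722) (N (nat_lit 2718) (N (nat_lit 2716) (L (E (nat_lit 3) (nat_lit 0x2a554aaa45) (nat_lit 0))) (N (nat_lit 2717) (L (E (nat_lit 3) (nat_lit 0x2aad4d6a5d) (nat_lit 0))) (L (E (nat_lit 3) (nat_lit 0x2af5506a71) (nat_lit 0))))) (N (nat_lit 2720) (N (nat_lit 2719) (L (E (nat_lit 3) (nat_lit 0x2b2552ea87) (nat_lit 0))) (L (E (nat_lit 3) (nat_lit 0x2fc5762ba3) (nat_lit 0)))) (N (nat_lit 2721) (L (E (nat_lit 3) (nat_lit 0x302d79abbd) (nat_lit 0))) (L (E (nat_lit 3) (nat_lit 0x35cda62d25) (nat_lit 0)))))) (N (nat_lit 2726) (N (nat_lit 2724) (N (nat_lit 2723) (L (E (nat_lit 3) (nat_lit 0x3645a9ad3d) (nat_lit 0))) (L (E (nat_lit 3) (nat_lit 0x3725b22d7f) (nat_lit 0)))) (N (nat_lit 2725) (L (E (nat_lit 3) (nat_lit 0x3cd5e06ef9) (nat_lit 0))) (L (E (nat_lit 3) (nat_lit 0x3fb5f66fa7) (nat_lit 0))))) (N (nat_lit 2728) (N (nat_lit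 2727) (L (E (nat_lit 3) (nat_lit 0x12dc932491) (nat_lit 0))) (L (E (nat_lit 3) (nat_lit 0x1514a56523) (nat_lit 0)))) (N (nat_lit 2729) (L (E (nat_lit 3) (nat_lit 0x1574a7a535) (nat_lit 0))) (L (E (nat_lit 3) (nat_lit 0x15bca96543) (nat_lit 0))))))) (N (nat_lit 2731) (L (E (nat_lit 3) (nat_lit 0x16a4b0a57d) (nat_lit 0))) (N (nat_lit 2732) (L (E (nat_lit 3) (nat_lit 0x16e4b2e58f) (nat_lit 0))) (L (E (nat_lit 3) (nat_lit 0x173cb5e5a7) (nat_lit 0)))))) (N (nat_lit 2744) (N (nat_lit 2739) (N (nat_lit 2736) (N (nat_lit 2735) (N (nat_lit 2734) (L (E (nat_lit 3) (nat_lit 0x174cb665ab) (nat_lit 0))) (L (E (nat_lit 3) (nat_lit 0x17bcbc25d9) (nat_lit 0)))) (L (E (nat_lit 3) (nat_lit 0x18d4c2a60d) (nat_lit 0)))) (N (nat_lit 2737) (L (E (nat_lit 3) (nat_lit 0x18dcc2e60f) (nat_lit 0))) (N (nat_lit 2738) (L (E (nat_lit 3) (nat_lit 0x1974c72631) (nat_lit 0))) (L (E (nat_lit 3) (nat_lit 0x19c4c9e647) (nat_lit 0))))))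 (N (nat_lit 2742) (N (nat_lit 2741) (N (nat_lit 2740) (L (E (nat_lit 3) (nat_lit 0x1a04cbe657) (nat_lit 0))) (L (E (nat_lit 3) (nat_lit 0x20c502680b) (nat_lit 0)))) (L (E (nat_lit 3) (nat_lit 0x220d0c685b) (nat_lit 0)))) (N (nat_lit 2743) (L (E (nat_lit 3) (nat_lit 0x225d0ea86d) (nat_lit 0))) (L (E (nat_lit 3) (nat_lit 0x22ad10687b) (nat_lit 0)))))) (N (nat_lit 2745) (L (E (nat_lit 3) (nat_lit 0x22bd10e87f) (nat_lit 0))) (N (nat_lit 2746) (L (E (nat_lit 3) (nat_lit 0x22cd116883) (nat_lit 0))) (N (nat_lit 2747) (L (E (nat_lit 3) (nat_lit 0x22d511a885) (nat_lit 0))) (L (E (nat_lit 3) (nat_lit 0x231d13e897) (nat_lit 0)))))))) (N (nat_lit 2756) (N (nat_lit 2753) (N (nat_lit 2751) (N (nat_lit 2750) (N (nat_lit 2749) (L (E (nat_lit 3) (nat_lit 0x235d15e8a7) (nat_lit 0))) (L (E (nat_lit 3) (nat_lit 0x23bd1928c1) (nat_lit 0)))) (L (E (nat_lit 3) (nat_lit 0x259d292941) (nat_lit 0)))) (N (nat_lit 2752) (L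 (E (nat_lit 3) (nat_lit 0x25e52ae94f) (nat_lit 0))) (L (E (nat_lit 3) (nat_lit 0x25f52b6953) (nat_lit 0))))) (N (nat_lit 2755) (N (nat_lit 2754) (L (E (nat_lit 3) (nat_lit 0x26352ce95f) (nat_lit 0))) (L (E (nat_lit 3) (nat_lit 0x26452d6963) (nat_lit 0)))) (L (E (nat_lit 3) (nat_lit 0x26952fa975) (nat_lit 0))))) (N (nat_lit 2760) (N (nat_lit 2759) (N (nat_lit 2757) (L (E (nat_lit 3) (nat_lit 0x269d2fe977) (nat_lit 0))) (N (nat_lit 2758) (L (E (nat_lit 3) (nat_lit 0x26a5302979) (nat_lit 0))) (L (E (nat_lit 3) (nat_lit 0x26e5322989) (nat_lit 0))))) (L (E (nat_lit 3) (nat_lit 0x274d3569a3) (nat_lit 0)))) (N (nat_lit 2765) (N (nat_lit 2762) (N (nat_lit 2761) (L (E (nat_lit 3) (nat_lit 0x279d3869bb) (nat_lit 0))) (L (E (nat_lit 3) (nat_lit 0x28153d29e1) (nat_lit 0)))) (N (nat_lit 2763) (L (E (nat_lit 3) (nat_lit 0x295545ea27) (nat_lit 0))) (N (nat_lit 2764) (L (E (nat_lit 3) (nat_lit 0x299d486a3b) (nat_lit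 0))) (L (E (nat_lit 3) (nat_lit 0x2a554daa65) (nat_lit 0)))))) (N (nat_lit 2769) (N (nat_lit 2767) (N (nat_lit 2766) (L (E (nat_lit 3) (nat_lit 0x2f2574ab9d) (nat_lit 0))) (L (E (nat_lit 3) (nat_lit 0x2f9577ebb7) (nat_lit 0)))) (N (nat_lit 2768) (L (E (nat_lit 3) (nat_lit 0x2fdd7a2bc9) (nat_lit 0))) (L (E (nat_lit 3) (nat_lit 0x302d7cebdf) (nat_lit 0))))) (N (nat_lit 2772) (N (nat_lit 2771) (N (nat_lit 2770) (L (E (nat_lit 3) (nat_lit 0x308d7febf7) (nat_lit 0))) (L (E (nat_lit 3) (nat_lit 0x3fadf92fc1) (nat_lit 0)))) (L (E (nat_lit 3) (nat_lit 0x135497648b) (nat_lit 0)))) (L (E (nat_lit 3) (nat_lit 0x15b4aa6523) (nat_lit 0))))))))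
def cl55 : RA := N (nat_lit 2788) (N (nat_lit 2778) (N (nat_lit 2776) (N (nat_lit 2775) (N (nat_lit 2774) (L (E (nat_lit 3) (nat_lit 0x15ccab2529) (nat_lit 0))) (L (E (nat_lit 3) (nat_lit 0x1614ada535) (nat_lit 0)))) (L (E (nat_lit 3) (nat_lit 0x1624ae2539) (nat_lit 0)))) (N (nat_lit 2777) (L (E (nat_lit 3) (nat_lit 0x1664afe545) (nat_lit 0))) (L (E (nat_lit 3) (nat_lit 0x166cb02547) (nat_lit 0))))) (N (nat_lit 2786) (N (nat_lit 2782) (N (nat_lit 2779) (L (E (nat_lit 3) (nat_lit 0x1704b5256f) (nat_lit 0))) (N (nat_lit 2781) (N (nat_lit 2780) (L (E (nat_lit 3) (nat_lit 0x1784b9a597) (nat_lit 0))) (L (E (nat_lit 3) (nat_lit 0x1974c8a60d) (nat_lit 0)))) (L (E (nat_lit 3) (nat_lit 0x1f4cf7678d) (nat_lit 0))))) (N (nat_lit 2784) (N (nat_lit 2783) (L (E (nat_lit 3) (nat_lit 0x1facfa279d) (nat_lit 0))) (L (E (nat_lit 3) (nat_lit 0x1ff4fc67a9) (nat_lit 0)))) (N (nat_lit 2785) (L (E (nat_lit 3) (nat_lit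 0x221d0e2849) (nat_lit 0))) (L (E (nat_lit 3) (nat_lit 0x227d10a853) (nat_lit 0)))))) (N (nat_lit 2787) (L (E (nat_lit 3) (nat_lit 0x22cd12e85f) (nat_lit 0))) (L (E (nat_lit 3) (nat_lit 0x230d15286d) (nat_lit 0)))))) (N (nat_lit 2797) (N (nat_lit 2794) (N (nat_lit 2791) (N (nat_lit 2790) (N (nat_lit 2789) (L (E (nat_lit 3) (nat_lit 0x2375182881) (nat_lit 0))) (L (E (nat_lit 3) (nat_lit 0x238518a885) (nat_lit 0)))) (L (E (nat_lit 3) (nat_lit 0x23bd1ae895) (nat_lit 0)))) (N (nat_lit 2792) (L (E (nat_lit 3) (nat_lit 0x24151da8af) (nat_lit 0))) (N (nat_lit 2793) (L (E (nat_lit 3) (nat_lit 0x25f52ca935) (nat_lit 0))) (L (E (nat_lit 3) (nat_lit 0x26052d2939) (nat_lit 0)))))) (N (nat_lit 2795) (L (E (nat_lit 3) (nat_lit 0x264d2ee943) (nat_lit 0))) (N (nat_lit 2796) (L (E (nat_lit 3) (nat_lit 0x26552f2945) (nat_lit 0))) (L (E (nat_lit 3) (nat_lit 0x26fd346965) (nat_lit 0)))))) (N (nat_lit 2806) (N (nat_lit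 2800) (N (nat_lit 2799) (N (nat_lit 2798) (L (E (nat_lit 3) (nat_lit 0x270534a967) (nat_lit 0))) (L (E (nat_lit 3) (nat_lit 0x2735366971) (nat_lit 0)))) (L (E (nat_lit 3) (nat_lit 0x274d372977) (nat_lit 0)))) (N (nat_lit 2803) (N (nat_lit 2801) (L (E (nat_lit 3) (nat_lit 0x277d38e987) (nat_lit 0))) (N (nat_lit 2802) (L (E (nat_lit 3) (nat_lit 0x278d39698b) (nat_lit 0))) (L (E (nat_lit 3) (nat_lit 0x2a0d4cea2b) (nat_lit 0))))) (N (nat_lit 2804) (L (E (nat_lit 3) (nat_lit 0x2a1d4d6a2f) (nat_lit 0))) (N (nat_lit 2805) (L (E (nat_lit 3) (nat_lit 0x35f5ac2d27) (nat_lit 0))) (L (E (nat_lit 3) (nat_lit 0x363dae6d33) (nat_lit 0))))))) (N (nat_lit 2810) (N (nat_lit 2809) (N (nat_lit 2808) (N (nat_lit 2807) (L (E (nat_lit 3) (nat_lit 0x36c5b36d5b) (nat_lit 0))) (L (E (nat_lit 3) (nat_lit 0x13949ba4b9) (nat_lit 0)))) (L (E (nat_lit 3) (nat_lit 0x1604af2555) (nat_lit 0)))) (L (E (nat_lit 3) (nat_lit 0x1664b2256d)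 (nat_lit 0)))) (N (nat_lit 2811) (L (E (nat_lit 3) (nat_lit 0x166cb2656f) (nat_lit 0))) (N (nat_lit 2812) (L (E (nat_lit 3) (nat_lit 0x167cb2e573) (nat_lit 0))) (L (E (nat_lit 3) (nat_lit 0x16a4b4257d) (nat_lit 0))))))))
def cl56 : RA := N (nat_lit 2847) (N (nat_lit 2828) (N (nat_lit 2821) (N (nat_lit 2820) (N (nat_lit 2816) (N (nat_lit 2815) (N (nat_lit 2814) (L (E (nat_lit 3) (nat_lit 0x16acb4657f) (nat_lit 0))) (L (E (nat_lit 3) (nat_lit 0x1704b72597) (nat_lit 0)))) (L (E (nat_lit 3) (nat_lit 0x1a1ccfe65d) (nat_lit 0)))) (N (nat_lit 2818) (N (nat_lit 2817) (L (E (nat_lit 3) (nat_lit 0x1fe4fe27cb) (nat_lit 0))) (L (E (nat_lit 3) (nat_lit 0x1fecfe67cd) (nat_lit 0)))) (N (nat_lit 2819) (L (E (nat_lit 3) (nat_lit 0x220d0f685b) (nat_lit 0))) (L (E (nat_lit 3) (nat_lit 0x22cd156883) (nat_lit 0)))))) (L (E (nat_lit 3) (nat_lit 0x237d1ae8af) (nat_lit 0)))) (N (nat_lit 2824) (N (nat_lit 2823) (N (nat_lit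 2822) (L (E (nat_lit 3) (nat_lit 0x23851b28b1) (nat_lit 0))) (L (E (nat_lit 3) (nat_lit 0x23cd1d68c5) (nat_lit 0)))) (L (E (nat_lit 3) (nat_lit 0x259d2be941) (nat_lit 0)))) (N (nat_lit 2827) (N (nat_lit 2825) (L (E (nat_lit 3) (nat_lit 0x25e52e294f) (nat_lit 0))) (N (nat_lit 2826) (L (E (nat_lit 3) (nat_lit 0x2645312963) (nat_lit 0))) (L (E (nat_lit 3) (nat_lit 0x265531a967) (nat_lit 0))))) (L (E (nat_lit 3) (nat_lit 0x269d33e977) (nat_lit 0)))))) (N (nat_lit 2837) (N (nat_lit 2830) (N (nat_lit 2829) (L (E (nat_lit 3) (nat_lit 0x2705372991) (nat_lit 0))) (L (E (nat_lit 3) (nat_lit 0x274d3969a3) (nat_lit 0)))) (N (nat_lit 2834) (N (nat_lit 2833) (N (nat_lit 2831) (L (E (nat_lit 3) (nat_lit 0x291d47ea1d) (nat_lit 0))) (N (nat_lit 2832) (L (E (nat_lit 3) (nat_lit 0x2a0d4f6a55) (nat_lit 0))) (L (E (nat_lit 3) (nat_lit 0x2a7552aa6d) (nat_lit 0))))) (L (E (nat_lit 3) (nat_lit 0x363db0ed5d) (nat_lit 0))))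 (N (nat_lit 2835) (L (E (nat_lit 3) (nat_lit 0x36d5b5ad8d) (nat_lit 0))) (N (nat_lit 2836) (L (E (nat_lit 3) (nat_lit 0x3f75faafb3) (nat_lit 0))) (L (E (nat_lit 3) (nat_lit 0x3fadfc6fc1) (nat_lit 0))))))) (N (nat_lit 2843) (N (nat_lit 2840) (N (nat_lit 2838) (L (E (nat_lit 3) (nat_lit 0x1554a8e51f) (nat_lit 0))) (N (nat_lit 2839) (L (E (nat_lit 3) (nat_lit 0x15e4ad6531) (nat_lit 0))) (L (E (nat_lit 3) (nat_lit 0x15ecada533) (nat_lit 0))))) (N (nat_lit 2841) (L (E (nat_lit 3) (nat_lit 0x1604ae6539) (nat_lit 0))) (N (nat_lit 2842) (L (E (nat_lit 3) (nat_lit 0x1614aee53d) (nat_lit 0))) (L (E (nat_lit 3) (nat_lit 0x166cb1654f) (nat_lit 0)))))) (N (nat_lit 2844) (L (E (nat_lit 3) (nat_lit 0x1684b26555) (nat_lit 0))) (N (nat_lit 2845) (L (E (nat_lit 3) (nat_lit 0x16acb3a55f) (nat_lit 0))) (N (nat_lit 2846) (L (E (nat_lit 3) (nat_lit 0x16b4b3e561) (nat_lit 0))) (L (E (nat_lit 3) (nat_lit 0x16e4b5656f)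 (nat_lit 0))))))))) (N (nat_lit 2858) (N (nat_lit 2852) (N (nat_lit 2850) (N (nat_lit 2849) (N (nat_lit 2848) (L (E (nat_lit 3) (nat_lit 0x224d10684f) (nat_lit 0))) (L (E (nat_lit 3) (nat_lit 0x22fd15e871) (nat_lit 0)))) (L (E (nat_lit 3) (nat_lit 0x230d166875) (nat_lit 0)))) (N (nat_lit 2851) (L (E (nat_lit 3) (nat_lit 0x231516a877) (nat_lit 0))) (L (E (nat_lit 3) (nat_lit 0x235d18a883) (nat_lit 0))))) (N (nat_lit 2855) (N (nat_lit 2853) (L (E (nat_lit 3) (nat_lit 0x236518e885) (nat_lit 0))) (N (nat_lit 2854) (L (E (nat_lit 3) (nat_lit 0x23bd1c289d) (nat_lit 0))) (L (E (nat_lit 3) (nat_lit 0x25c52c6931) (nat_lit 0))))) (N (nat_lit 2856) (L (E (nat_lit 3) (nat_lit 0x26252ee941) (nat_lit 0))) (N (nat_lit 2857) (L (E (nat_lit 3) (nat_lit 0x267531a94f) (nat_lit 0))) (L (E (nat_lit 3) (nat_lit 0x269532a957) (nat_lit 0))))))) (N (nat_lit 2861) (N (nat_lit 2859) (L (E (nat_lit 3) (nat_lit 0x26d5346963)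 (nat_lit 0))) (N (nat_lit 2860) (L (E (nat_lit 3) (nat_lit 0x26dd34a965) (nat_lit 0))) (L (E (nat_lit 3) (nat_lit 0x274d38697f) (nat_lit 0))))) (N (nat_lit 2869) (N (nat_lit 2868) (N (nat_lit 2866) (N (nat_lit 2863) (N (nat_lit 2862) (L (E (nat_lit 3) (nat_lit 0x27853a6991) (nat_lit 0))) (L (E (nat_lit 3) (nat_lit 0x294d486a13) (nat_lit 0)))) (N (nat_lit 2864) (L (E (nat_lit 3) (nat_lit 0x299d4b2a1d) (nat_lit 0))) (N (nat_lit 2865) (L (E (nat_lit 3) (nat_lit 0x2a0d4e2a33) (nat_lit 0))) (L (E (nat_lit 3) (nat_lit 0x2a4d506a43) (nat_lit 0)))))) (N (nat_lit 2867) (L (E (nat_lit 3) (nat_lit 0x2ae555aa6d) (nat_lit 0))) (L (E (nat_lit 3) (nat_lit 0x35c5abed23) (nat_lit 0))))) (L (E (nat_lit 3) (nat_lit 0x366db1ad49) (nat_lit 0)))) (N (nat_lit 2873) (N (nat_lit 2871) (N (nat_lit 2870) (L (E (nat_lit 3) (nat_lit 0x419e0bb033) (nat_lit 0))) (L (E (nat_lit 3) (nat_lit 0x2d843be05d) (nat_lit 0)))) (N (nat_lit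 2872) (L (E (nat_lit 3) (nat_lit 0x446dc02767) (nat_lit 0))) (L (E (nat_lit 3) (nat_lit 0x44e5c4277f) (nat_lit 0))))) (N (nat_lit 2876) (N (nat_lit 2875) (N (nat_lit 2874) (L (E (nat_lit 3) (nat_lit 0x453dc727bb) (nat_lit 0))) (L (E (nat_lit 3) (nat_lit 0x471d636311) (nat_lit 0)))) (L (E (nat_lit 3) (nat_lit 0x40ec6da233) (nat_lit 0)))) (L (E (nat_lit 3) (nat_lit 0x35356920d7) (nat_lit 0))))))))
def cl57 : RA := N (nat_lit 2932) (N (nat_lit 2921) (N (nat_lit 2920) (N (nat_lit 2919) (N (nat_lit 2917) (L (E (nat_lit 3) (nat_lit 0x23bd166881) (nat_lit 0))) (N (nat_lit 2918) (L (E (nat_lit 3) (nat_lit 0x26952d2941) (nat_lit 0))) (L (E (nat_lit 3) (nat_lit 0x2745326963) (nat_lit 0))))) (L (E (nat_lit 3) (nat_lit 0x274d32a965) (nat_lit 0)))) (L (E (nat_lit 3) (nat_lit 0x279d356979) (nat_lit 0)))) (N (nat_lit 2927) (N (nat_lit 2923) (N (nat_lit 2922) (L (E (nat_lit 3) (nat_lit 0x27e5386991) (nat_lit 0)))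 (L (E (nat_lit 3) (nat_lit 0x2a0548aa19) (nat_lit 0)))) (N (nat_lit 2926) (N (nat_lit 2924) (L (E (nat_lit 3) (nat_lit 0x2a8d4cea39) (nat_lit 0))) (N (nat_lit 2925) (L (E (nat_lit 3) (nat_lit 0x2b1d532a67) (nat_lit 0))) (L (E (nat_lit 3) (nat_lit 0x3645aa2d25) (nat_lit 0))))) (L (E (nat_lit 3) (nat_lit 0x3725b2ad61) (nat_lit 0))))) (N (nat_lit 2929) (N (nat_lit 2928) (L (E (nat_lit 3) (nat_lit 0x161ca76535) (nat_lit 0))) (L (E (nat_lit 3) (nat_lit 0x16bcabe559) (nat_lit 0)))) (N (nat_lit 2930) (L (E (nat_lit 3) (nat_lit 0x23b512e891) (nat_lit 0))) (N (nat_lit 2931) (L (E (nat_lit 3) (nat_lit 0x23cd13a897) (nat_lit 0))) (L (E (nat_lit 3) (nat_lit 0x241d16a8af) (nat_lit 0)))))))) (N (nat_lit 2942) (N (nat_lit 2938) (N (nat_lit 2934) (N (nat_lit 2933) (L (E (nat_lit 3) (nat_lit 0x26952a694d) (nat_lit 0))) (L (E (nat_lit 3) (nat_lit 0x27cd34699d) (nat_lit 0)))) (N (nat_lit 2936) (N (nat_lit 2935) (L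 (E (nat_lit 3) (nat_lit 0x2af54daa67) (nat_lit 0))) (L (E (nat_lit 3) (nat_lit 0x2b1d502a7b) (nat_lit 0)))) (N (nat_lit 2937) (L (E (nat_lit 3) (nat_lit 0x309d7aabcf) (nat_lit 0))) (L (E (nat_lit 3) (nat_lit 0x1444a164cb) (nat_lit 0)))))) (N (nat_lit 2940) (N (nat_lit 2939) (L (E (nat_lit 3) (nat_lit 0x1664b26543) (nat_lit 0))) (L (E (nat_lit 3) (nat_lit 0x1674b2e547) (nat_lit 0)))) (N (nat_lit 2941) (L (E (nat_lit 3) (nat_lit 0x167cb32549) (nat_lit 0))) (L (E (nat_lit 3) (nat_lit 0x1714b7e571) (nat_lit 0)))))) (N (nat_lit 2948) (N (nat_lit 2945) (N (nat_lit 2943) (L (E (nat_lit 3) (nat_lit 0x1934c8e5ff) (nat_lit 0))) (N (nat_lit 2944) (L (E (nat_lit 3) (nat_lit 0x22c515685b) (nat_lit 0))) (L (E (nat_lit 3) (nat_lit 0x22d515e85f) (nat_lit 0))))) (N (nat_lit 2947) (N (nat_lit 2946) (L (E (nat_lit 3) (nat_lit 0x23651a687b) (nat_lit 0))) (L (E (nat_lit 3) (nat_lit 0x237d1b2881) (nat_lit 0)))) (L (E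 (nat_lit 3) (nat_lit 0x23cd1da897) (nat_lit 0))))) (N (nat_lit 2953) (N (nat_lit 2950) (N (nat_lit 2949) (L (E (nat_lit 3) (nat_lit 0x26bd352957) (nat_lit 0))) (L (E (nat_lit 3) (nat_lit 0x26e536695d) (nat_lit 0)))) (N (nat_lit 2951) (L (E (nat_lit 3) (nat_lit 0x26ed36a95f) (nat_lit 0))) (N (nat_lit 2952) (L (E (nat_lit 3) (nat_lit 0x279d3c298d) (nat_lit 0))) (L (E (nat_lit 3) (nat_lit 0x27e53e69a3) (nat_lit 0)))))) (N (nat_lit 2955) (N (nat_lit 2954) (L (E (nat_lit 3) (nat_lit 0x281d4029b9) (nat_lit 0))) (L (E (nat_lit 3) (nat_lit 0x15fca72533) (nat_lit 0)))) (L (E (nat_lit 3) (nat_lit 0x164ca92543) (nat_lit 0)))))))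
def cl58 : RA := N (nat_lit 2916) (N (nat_lit 2901) (N (nat_lit 2888) (N (nat_lit 2884) (N (nat_lit 2881) (N (nat_lit 2879) (N (nat_lit 2878) (L (E (nat_lit 3) (nat_lit 0x465e1e2443) (nat_lit 0))) (L (E (nat_lit 3) (nat_lit 0x363c89a063) (nat_lit 0)))) (N (nat_lit 2880) (L (E (nat_lit 3) (nat_lit 0x453565aa43) (nat_lit 0))) (L (E (nat_lit 3) (nat_lit 0x1da4da610f) (nat_lit 0))))) (N (nat_lit 2883) (N (nat_lit 2882) (L (E (nat_lit 3) (nat_lit 0x4265e6a3cf) (nat_lit 0))) (L (E (nat_lit 3) (nat_lit 0x1b4c41a093) (nat_lit 0)))) (L (E (nat_lit 3) (nat_lit 0x164caa6535) (nat_lit 0))))) (N (nat_lit 2887) (N (nat_lit 2885) (L (E (nat_lit 3) (nat_lit 0x16e4af6559) (nat_lit 0))) (N (nat_lit 2886) (L (E (nat_lit 3) (nat_lit 0x1934c225fb) (nat_lit 0))) (L (E (nat_lit 3) (nat_lit 0x237512e877) (nat_lit 0))))) (L (E (nat_lit 3) (nat_lit 0x23ad152883) (nat_lit 0))))) (N (nat_lit 2895) (N (nat_lit 2890) (N (nat_lit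 2889) (L (E (nat_lit 3) (nat_lit 0x24551b28b3) (nat_lit 0))) (L (E (nat_lit 3) (nat_lit 0x26952c6947) (nat_lit 0)))) (N (nat_lit 2892) (N (nat_lit 2891) (L (E (nat_lit 3) (nat_lit 0x274531a969) (nat_lit 0))) (L (E (nat_lit 3) (nat_lit 0x277d33a977) (nat_lit 0)))) (N (nat_lit 2894) (N (nat_lit 2893) (L (E (nat_lit 3) (nat_lit 0x27cd36e991) (nat_lit 0))) (L (E (nat_lit 3) (nat_lit 0x2a4d4a2a2d) (nat_lit 0)))) (L (E (nat_lit 3) (nat_lit 0x2a8d4c2a3f) (nat_lit 0)))))) (N (nat_lit 2898) (N (nat_lit 2897) (N (nat_lit 2896) (L (E (nat_lit 3) (nat_lit 0x363da92d29) (nat_lit 0))) (L (E (nat_lit 3) (nat_lit 0x367dab6d37) (nat_lit 0)))) (L (E (nat_lit 3) (nat_lit 0x36b5aded49) (nat_lit 0)))) (N (nat_lit 2899) (L (E (nat_lit 3) (nat_lit 0x164cae2553) (nat_lit 0))) (N (nat_lit 2900) (L (E (nat_lit 3) (nat_lit 0x1664aee559) (nat_lit 0))) (L (E (nat_lit 3) (nat_lit 0x19acc9662d) (nat_lit 0)))))))) (N (nat_lit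 2910) (N (nat_lit 2906) (N (nat_lit 2904) (N (nat_lit 2903) (N (nat_lit 2902) (L (E (nat_lit 3) (nat_lit 0x1a0ccc6647) (nat_lit 0))) (L (E (nat_lit 3) (nat_lit 0x1a14cca649) (nat_lit 0)))) (L (E (nat_lit 3) (nat_lit 0x22a5106869) (nat_lit 0)))) (N (nat_lit 2905) (L (E (nat_lit 3) (nat_lit 0x235d162891) (nat_lit 0))) (L (E (nat_lit 3) (nat_lit 0x23b51928ab) (nat_lit 0))))) (N (nat_lit 2909) (N (nat_lit 2907) (L (E (nat_lit 3) (nat_lit 0x262d2ce94b) (nat_lit 0))) (N (nat_lit 2908) (L (E (nat_lit 3) (nat_lit 0x26dd322971) (nat_lit 0))) (L (E (nat_lit 3) (nat_lit 0x26ed32a975) (nat_lit 0))))) (L (E (nat_lit 3) (nat_lit 0x273d35298b) (nat_lit 0))))) (N (nat_lit 2913) (N (nat_lit 2912) (N (nat_lit 2911) (L (E (nat_lit 3) (nat_lit 0x29e54aaa37) (nat_lit 0))) (L (E (nat_lit 3) (nat_lit 0x3685afad5d) (nat_lit 0)))) (L (E (nat_lit 3) (nat_lit 0x1734b3256b) (nat_lit 0)))) (N (nat_lit 2914) (L (E (nat_lit 3)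 (nat_lit 0x173cb3656d) (nat_lit 0))) (N (nat_lit 2915) (L (E (nat_lit 3) (nat_lit 0x20c4ffa7cd) (nat_lit 0))) (L (E (nat_lit 3) (nat_lit 0x22c50ee84f) (nat_lit 0)))))))) (cl57)
def cl59 : RA := N (nat_lit 2974) (N (nat_lit 2973) (N (nat_lit 2961) (N (nat_lit 2959) (N (nat_lit 2958) (N (nat_lit 2957) (L (E (nat_lit 3) (nat_lit 0x16a4abe559) (nat_lit 0))) (L (E (nat_lit 3) (nat_lit 0x16e4ae256b) (nat_lit 0)))) (L (E (nat_lit 3) (nat_lit 0x22550a684d) (nat_lit 0)))) (N (nat_lit 2960) (L (E (nat_lit 3) (nat_lit 0x235d10a87f) (nat_lit 0))) (L (E (nat_lit 3) (nat_lit 0x25dd272933) (nat_lit 0))))) (N (nat_lit 2965) (N (nat_lit 2963) (N (nat_lit 2962) (L (E (nat_lit 3) (nat_lit 0x263528e941) (nat_lit 0))) (L (E (nat_lit 3) (nat_lit 0x26952b2953) (nat_lit 0)))) (N (nat_lit 2964) (L (E (nat_lit 3) (nat_lit 0x26e52d2963) (nat_lit 0))) (L (E (nat_lit 3) (nat_lit 0x27cd3529a3) (nat_lit 0))))) (N (nat_lit 2968)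 (N (nat_lit 2966) (L (E (nat_lit 3) (nat_lit 0x29ed45aa27) (nat_lit 0))) (N (nat_lit 2967) (L (E (nat_lit 3) (nat_lit 0x2a4d48aa3f) (nat_lit 0))) (L (E (nat_lit 3) (nat_lit 0x2f7d732b93) (nat_lit 0))))) (N (nat_lit 2971) (N (nat_lit 2970) (N (nat_lit 2969) (L (E (nat_lit 3) (nat_lit 0x2f85736b95) (nat_lit 0))) (L (E (nat_lit 3) (nat_lit 0x35d5a52d23) (nat_lit 0)))) (L (E (nat_lit 3) (nat_lit 0x36c5acad5f) (nat_lit 0)))) (N (nat_lit 2972) (L (E (nat_lit 3) (nat_lit 0x36cdaced61) (nat_lit 0))) (L (E (nat_lit 3) (nat_lit 0x3d5de3af17) (nat_lit 0)))))))) (L (E (nat_lit 3) (nat_lit 0x337400a001) (nat_lit 0)))) (N (nat_lit 2988) (N (nat_lit 2980) (N (nat_lit 2979) (N (nat_lit 2976) (N (nat_lit 2975) (L (E (nat_lit 3) (nat_lit 0x16e4b1a553) (nat_lit 0))) (L (E (nat_lit 3) (nat_lit 0x22c50fe84f) (nat_lit 0)))) (N (nat_lit 2978) (N (nat_lit 2977) (L (E (nat_lit 3) (nat_lit 0x231512685d) (nat_lit 0))) (L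 (E (nat_lit 3) (nat_lit 0x233d13a867) (nat_lit 0)))) (L (E (nat_lit 3) (nat_lit 0x236514e86d) (nat_lit 0))))) (L (E (nat_lit 3) (nat_lit 0x26952e6941) (nat_lit 0)))) (N (nat_lit 2982) (N (nat_lit 2981) (L (E (nat_lit 3) (nat_lit 0x26ed31294f) (nat_lit 0))) (L (E (nat_lit 3) (nat_lit 0x275d34a969) (nat_lit 0)))) (N (nat_lit 2984) (N (nat_lit 2983) (L (E (nat_lit 3) (nat_lit 0x28153be9a3) (nat_lit 0))) (L (E (nat_lit 3) (nat_lit 0x2b1d546a67) (nat_lit 0)))) (N (nat_lit 2986) (N (nat_lit 2985) (L (E (nat_lit 3) (nat_lit 0x3645abad25) (nat_lit 0))) (L (E (nat_lit 3) (nat_lit 0x367daded31) (nat_lit 0)))) (N (nat_lit 2987) (L (E (nat_lit 3) (nat_lit 0x3d2de4eef9) (nat_lit 0))) (L (E (nat_lit 3) (nat_lit 0x46b632717d) (nat_lit 0)))))))) (N (nat_lit 2996) (N (nat_lit 2993) (N (nat_lit 2989) (L (E (nat_lit 3) (nat_lit 0x166cada561) (nat_lit 0))) (N (nat_lit 2991) (N (nat_lit 2990) (L (E (nat_lit 3) (nat_lit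 0x16bcb02577) (nat_lit 0))) (L (E (nat_lit 3) (nat_lit 0x204cfc67d7) (nat_lit 0)))) (N (nat_lit 2992) (L (E (nat_lit 3) (nat_lit 0x23b517a8b1) (nat_lit 0))) (L (E (nat_lit 3) (nat_lit 0x25e529a947) (nat_lit 0)))))) (N (nat_lit 2995) (N (nat_lit 2994) (L (E (nat_lit 3) (nat_lit 0x26952e6969) (nat_lit 0))) (L (E (nat_lit 3) (nat_lit 0x269d2ea96b) (nat_lit 0)))) (L (E (nat_lit 3) (nat_lit 0x26ad2f296f) (nat_lit 0))))) (N (nat_lit 2997) (L (E (nat_lit 3) (nat_lit 0x26fd31a97f) (nat_lit 0))) (N (nat_lit 2999) (N (nat_lit 2998) (L (E (nat_lit 3) (nat_lit 0x29b547ea33) (nat_lit 0))) (L (E (nat_lit 3) (nat_lit 0x2a654cea5d) (nat_lit 0)))) (L (E (nat_lit 3) (nat_lit 0x2aa54f6a6d) (nat_lit 0)))))))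
def cl60 : RA := N (nat_lit 3038) (N (nat_lit 3011) (N (nat_lit 3003) (N (nat_lit 3002) (L (E (nat_lit 3) (nat_lit 0x4a564c24ed) (nat_lit 0))) (L (E (nat_lit 3) (nat_lit 0x32a400a001) (nat_lit 0)))) (N (nat_lit 3008) (N (nat_lit 3005) (N (nat_lit 3004) (L (E (nat_lit 3) (nat_lit 0x154ca92525) (nat_lit 0))) (L (E (nat_lit 3) (nat_lit 0x1554a96527) (nat_lit 0)))) (N (nat_lit 3007) (N (nat_lit 3006) (L (E (nat_lit 3) (nat_lit 0x201cff67cb) (nat_lit 0))) (L (E (nat_lit 3) (nat_lit 0x224d10e85d) (nat_lit 0)))) (L (E (nat_lit 3) (nat_lit 0x239d1ba8ab) (nat_lit 0))))) (N (nat_lit 3010) (N (nat_lit 3009) (L (E (nat_lit 3) (nat_lit 0x244d2128dd) (nat_lit 0))) (L (E (nat_lit 3) (nat_lit 0x26352fe953) (nat_lit 0)))) (L (E (nat_lit 3) (nat_lit 0x268d32e967) (nat_lit 0)))))) (N (nat_lit 3029) (N (nat_lit 3022) (N (nat_lit 3014) (N (nat_lit 3013) (N (nat_lit 3012) (L (E (nat_lit 3) (nat_lit 0x273d386991) (nat_lit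 0))) (L (E (nat_lit 3) (nat_lit 0x27fd3f29cf) (nat_lit 0)))) (L (E (nat_lit 3) (nat_lit 0x299d4baa2d) (nat_lit 0)))) (N (nat_lit 3017) (N (nat_lit 3016) (N (nat_lit 3015) (L (E (nat_lit 3) (nat_lit 0x29ed4daa3f) (nat_lit 0))) (L (E (nat_lit 3) (nat_lit 0x2a35502a51) (nat_lit 0)))) (L (E (nat_lit 3) (nat_lit 0x2ad555aa7f) (nat_lit 0)))) (N (nat_lit 3020) (N (nat_lit 3019) (N (nat_lit 3018) (L (E (nat_lit 3) (nat_lit 0x3625af6d49) (nat_lit 0))) (L (E (nat_lit 3) (nat_lit 0x366db22d5d) (nat_lit 0)))) (L (E (nat_lit 3) (nat_lit 0x3675b26d5f) (nat_lit 0)))) (N (nat_lit 3021) (L (E (nat_lit 3) (nat_lit 0x3d55e96f27) (nat_lit 0))) (L (E (nat_lit 3) (nat_lit 0x13cc9da4ab) (nat_lit 0))))))) (N (nat_lit 3026) (N (nat_lit 3025) (N (nat_lit 3024) (N (nat_lit 3023) (L (E (nat_lit 3) (nat_lit 0x1614afe539) (nat_lit 0))) (L (E (nat_lit 3) (nat_lit 0x165cb22547) (nat_lit 0)))) (L (E (nat_lit 3) (nat_lit 0x1664b26549)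 (nat_lit 0)))) (L (E (nat_lit 3) (nat_lit 0x16b4b4e55d) (nat_lit 0)))) (N (nat_lit 3028) (N (nat_lit 3027) (L (E (nat_lit 3) (nat_lit 0x16bcb5255f) (nat_lit 0))) (L (E (nat_lit 3) (nat_lit 0x1734b8e581) (nat_lit 0)))) (L (E (nat_lit 3) (nat_lit 0x1934c8e605) (nat_lit 0)))))) (N (nat_lit 3033) (N (nat_lit 3031) (N (nat_lit 3030) (L (E (nat_lit 3) (nat_lit 0x1a4cd1a64d) (nat_lit 0))) (L (E (nat_lit 3) (nat_lit 0x225d12284f) (nat_lit 0)))) (N (nat_lit 3032) (L (E (nat_lit 3) (nat_lit 0x22bd15285f) (nat_lit 0))) (L (E (nat_lit 3) (nat_lit 0x231d182875) (nat_lit 0))))) (N (nat_lit 3034) (L (E (nat_lit 3) (nat_lit 0x23751ae885) (nat_lit 0))) (N (nat_lit 3036) (N (nat_lit 3035) (L (E (nat_lit 3) (nat_lit 0x23cd1da89d) (nat_lit 0))) (L (E (nat_lit 3) (nat_lit 0x2645316945) (nat_lit 0)))) (N (nat_lit 3037) (L (E (nat_lit 3) (nat_lit 0x264d31a947) (nat_lit 0))) (L (E (nat_lit 3) (nat_lit 0x26a5346957) (nat_lit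 0))))))))) (N (nat_lit 3055) (N (nat_lit 3048) (N (nat_lit 3043) (N (nat_lit 3041) (N (nat_lit 3040) (N (nat_lit 3039) (L (E (nat_lit 3) (nat_lit 0x26e5366963) (nat_lit 0))) (L (E (nat_lit 3) (nat_lit 0x26fd372969) (nat_lit 0)))) (L (E (nat_lit 3) (nat_lit 0x270537696b) (nat_lit 0)))) (N (nat_lit 3042) (L (E (nat_lit 3) (nat_lit 0x27a53c6995) (nat_lit 0))) (L (E (nat_lit 3) (nat_lit 0x2a5d522a43) (nat_lit 0))))) (N (nat_lit 3047) (N (nat_lit 3044) (L (E (nat_lit 3) (nat_lit 0x303580ebbb) (nat_lit 0))) (N (nat_lit 3046) (N (nat_lit 3045) (L (E (nat_lit 3) (nat_lit 0x3585ab6d17) (nat_lit 0))) (L (E (nat_lit 3) (nat_lit 0x3695b3ed4f) (nat_lit 0)))) (L (E (nat_lit 3) (nat_lit 0x2c3ceb2013) (nat_lit 0))))) (L (E (nat_lit 3) (nat_lit 0x1604abe52b) (nat_lit 0))))) (N (nat_lit 3051) (N (nat_lit 3050) (N (nat_lit 3049) (L (E (nat_lit 3) (nat_lit 0x164cae2535) (nat_lit 0))) (L (E (nat_lit 3) (nat_lit 0x16a4b0e549)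 (nat_lit 0)))) (L (E (nat_lit 3) (nat_lit 0x1f8cf8278f) (nat_lit 0)))) (N (nat_lit 3053) (N (nat_lit 3052) (L (E (nat_lit 3) (nat_lit 0x2034fd27ab) (nat_lit 0))) (L (E (nat_lit 3) (nat_lit 0x230d13a861) (nat_lit 0)))) (N (nat_lit 3054) (L (E (nat_lit 3) (nat_lit 0x231513e863) (nat_lit 0))) (L (E (nat_lit 3) (nat_lit 0x235d162871) (nat_lit 0))))))) (N (nat_lit 3058) (N (nat_lit 3057) (N (nat_lit 3056) (L (E (nat_lit 3) (nat_lit 0x23b5192885) (nat_lit 0))) (L (E (nat_lit 3) (nat_lit 0x268d2fa945) (nat_lit 0)))) (L (E (nat_lit 3) (nat_lit 0x26952fe947) (nat_lit 0)))) (N (nat_lit 3064) (N (nat_lit 3061) (N (nat_lit 3059) (L (E (nat_lit 3) (nat_lit 0x2745356969) (nat_lit 0))) (N (nat_lit 3060) (L (E (nat_lit 3) (nat_lit 0x2a8d502a3f) (nat_lit 0))) (L (E (nat_lit 3) (nat_lit 0x30257ceba7) (nat_lit 0))))) (N (nat_lit 3063) (N (nat_lit 3062) (L (E (nat_lit 3) (nat_lit 0x35c5a96d13) (nat_lit 0))) (L (E (nat_lit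 3) (nat_lit 0x363daced29) (nat_lit 0)))) (L (E (nat_lit 3) (nat_lit 0x1524a5e51f) (nat_lit 0))))) (N (nat_lit 3066) (N (nat_lit 3065) (L (E (nat_lit 3) (nat_lit 0x15dcab253b) (nat_lit 0))) (L (E (nat_lit 3) (nat_lit 0x161cad6549) (nat_lit 0)))) (N (nat_lit 3067) (L (E (nat_lit 3) (nat_lit 0x198cc8e625) (nat_lit 0))) (L (E (nat_lit 3) (nat_lit 0x22d512a875) (nat_lit 0))))))))
def cl61 : RA := N (nat_lit 3097) (N (nat_lit 3076) (N (nat_lit 3073) (N (nat_lit 3071) (N (nat_lit 3069) (L (E (nat_lit 3) (nat_lit 0x237517a897) (nat_lit 0))) (N (nat_lit 3070) (L (E (nat_lit 3) (nat_lit 0x238518289b) (nat_lit 0))) (L (E (nat_lit 3) (nat_lit 0x25bd2a693b) (nat_lit 0))))) (N (nat_lit 3072) (L (E (nat_lit 3) (nat_lit 0x25fd2c6947) (nat_lit 0))) (L (E (nat_lit 3) (nat_lit 0x265d2ee957) (nat_lit 0))))) (N (nat_lit 3074) (L (E (nat_lit 3) (nat_lit 0x270d34697d) (nat_lit 0))) (N (nat_lit 3075) (L (E (nat_lit 3)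 (nat_lit 0x29b54a2a2d) (nat_lit 0))) (L (E (nat_lit 3) (nat_lit 0x2a1d4cea45) (nat_lit 0)))))) (N (nat_lit 3088) (N (nat_lit 3083) (N (nat_lit 3079) (N (nat_lit 3077) (L (E (nat_lit 3) (nat_lit 0x2a5d4f2a55) (nat_lit 0))) (N (nat_lit 3078) (L (E (nat_lit 3) (nat_lit 0x35fdabed3b) (nat_lit 0))) (L (E (nat_lit 3) (nat_lit 0x44ae227105) (nat_lit 0))))) (N (nat_lit 3081) (N (nat_lit 3080) (L (E (nat_lit 3) (nat_lit 0x455cab20db) (nat_lit 0))) (L (E (nat_lit 3) (nat_lit 0x3924ade05f) (nat_lit 0)))) (N (nat_lit 3082) (L (E (nat_lit 3) (nat_lit 0x4164fc60e1) (nat_lit 0))) (L (E (nat_lit 3) (nat_lit 0x47a598a2a7) (nat_lit 0)))))) (N (nat_lit 3086) (N (nat_lit 3084) (L (E (nat_lit 3) (nat_lit 0x491484e003) (nat_lit 0))) (N (nat_lit 3085) (L (E (nat_lit 3) (nat_lit 0x2814152021) (nat_lit 0))) (L (E (nat_lit 3) (nat_lit 0x4534a8e18d) (nat_lit 0))))) (N (nat_lit 3087) (L (E (nat_lit 3) (nat_lit 0x480cdee005)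 (nat_lit 0))) (L (E (nat_lit 3) (nat_lit 0x43b594612f) (nat_lit 0)))))) (N (nat_lit 3093) (N (nat_lit 3091) (N (nat_lit 3089) (L (E (nat_lit 3) (nat_lit 0x2cb4a8e07f) (nat_lit 0))) (N (nat_lit 3090) (L (E (nat_lit 3) (nat_lit 0x3af54ae195) (nat_lit 0))) (L (E (nat_lit 3) (nat_lit 0x437e14acc5) (nat_lit 0))))) (N (nat_lit 3092) (L (E (nat_lit 3) (nat_lit 0x438615e003) (nat_lit 0))) (L (E (nat_lit 3) (nat_lit 0x166ca96529) (nat_lit 0))))) (N (nat_lit 3094) (L (E (nat_lit 3) (nat_lit 0x1734b02555) (nat_lit 0))) (N (nat_lit 3096) (N (nat_lit 3095) (L (E (nat_lit 3) (nat_lit 0x1764b26567) (nat_lit 0))) (L (E (nat_lit 3) (nat_lit 0x177cb3256d) (nat_lit 0)))) (L (E (nat_lit 3) (nat_lit 0x178cb3a571) (nat_lit 0)))))))) (N (nat_lit 3109) (N (nat_lit 3103) (N (nat_lit 3099) (N (nat_lit 3098) (L (E (nat_lit 3) (nat_lit 0x1a14c6e60f) (nat_lit 0))) (L (E (nat_lit 3) (nat_lit 0x2415166883) (nat_lit 0)))) (N (nat_lit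 3101) (N (nat_lit 3100) (L (E (nat_lit 3) (nat_lit 0x241d16a885) (nat_lit 0))) (L (E (nat_lit 3) (nat_lit 0x2445182891) (nat_lit 0)))) (N (nat_lit 3102) (L (E (nat_lit 3) (nat_lit 0x245d18e897) (nat_lit 0))) (L (E (nat_lit 3) (nat_lit 0x247d1ae8a7) (nat_lit 0)))))) (N (nat_lit 3104) (L (E (nat_lit 3) (nat_lit 0x27cd346973) (nat_lit 0))) (N (nat_lit 3107) (N (nat_lit 3105) (L (E (nat_lit 3) (nat_lit 0x27dd34e977) (nat_lit 0))) (N (nat_lit 3106) (L (E (nat_lit 3) (nat_lit 0x2ad54caa39) (nat_lit 0))) (L (E (nat_lit 3) (nat_lit 0x31257fabcf) (nat_lit 0))))) (N (nat_lit 3108) (L (E (nat_lit 3) (nat_lit 0x36c5abed31) (nat_lit 0))) (L (E (nat_lit 3) (nat_lit 0x374db1ed5d) (nat_lit 0))))))) (N (nat_lit 3112) (N (nat_lit 3111) (N (nat_lit 3110) (L (E (nat_lit 3) (nat_lit 0x3755b22d5f) (nat_lit 0))) (L (E (nat_lit 3) (nat_lit 0x16bcb02545) (nat_lit 0)))) (L (E (nat_lit 3) (nat_lit 0x174cb5256d) (nat_lit 0))))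 (N (nat_lit 3115) (N (nat_lit 3114) (N (nat_lit 3113) (L (E (nat_lit 3) (nat_lit 0x19d4c9260f) (nat_lit 0))) (L (E (nat_lit 3) (nat_lit 0x26bd2fa947) (nat_lit 0)))) (L (E (nat_lit 3) (nat_lit 0x270d322953) (nat_lit 0)))) (N (nat_lit 3116) (L (E (nat_lit 3) (nat_lit 0x275d34a965) (nat_lit 0))) (L (E (nat_lit 3) (nat_lit 0x2ab54fea3f) (nat_lit 0)))))))
def cl62 : RA := N (nat_lit 3174) (N (nat_lit 3156) (N (nat_lit 3141) (N (nat_lit 3139) (L (E (nat_lit 3) (nat_lit 0x16ecada549) (nat_lit 0))) (N (nat_lit 3140) (L (E (nat_lit 3) (nat_lit 0x1734b0255d) (nat_lit 0))) (L (E (nat_lit 3) (nat_lit 0x1764b2656f) (nat_lit 0))))) (N (nat_lit 3149) (N (nat_lit 3145) (N (nat_lit 3143) (N (nat_lit 3142) (L (E (nat_lit 3) (nat_lit 0x17a4b52585) (nat_lit 0))) (L (E (nat_lit 3) (nat_lit 0x19fcc62611) (nat_lit 0)))) (N (nat_lit 3144) (L (E (nat_lit 3) (nat_lit 0x23f5156883) (nat_lit 0))) (L (E (nat_lit 3) (nat_lit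 0x241d16a88d) (nat_lit 0))))) (N (nat_lit 3147) (N (nat_lit 3146) (L (E (nat_lit 3) (nat_lit 0x247d1ae8af) (nat_lit 0))) (L (E (nat_lit 3) (nat_lit 0x27452f2957) (nat_lit 0)))) (N (nat_lit 3148) (L (E (nat_lit 3) (nat_lit 0x277d316965) (nat_lit 0))) (L (E (nat_lit 3) (nat_lit 0x278531a967) (nat_lit 0)))))) (N (nat_lit 3152) (N (nat_lit 3150) (L (E (nat_lit 3) (nat_lit 0x282d39e9a7) (nat_lit 0))) (N (nat_lit 3151) (L (E (nat_lit 3) (nat_lit 0x2a8d4a2a2b) (nat_lit 0))) (L (E (nat_lit 3) (nat_lit 0x15fca8a52d) (nat_lit 0))))) (N (nat_lit 3154) (N (nat_lit 3153) (L (E (nat_lit 3) (nat_lit 0x2074fc27bf) (nat_lit 0))) (L (E (nat_lit 3) (nat_lit 0x239d152883) (nat_lit 0)))) (N (nat_lit 3155) (L (E (nat_lit 3) (nat_lit 0x249d1e68cf) (nat_lit 0))) (L (E (nat_lit 3) (nat_lit 0x26e52ee957) (nat_lit 0)))))))) (N (nat_lit 3165) (N (nat_lit 3157) (L (E (nat_lit 3) (nat_lit 0x26ed2f2959) (nat_lit 0))) (N (nat_lit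 3159) (N (nat_lit 3158) (L (E (nat_lit 3) (nat_lit 0x278534697d) (nat_lit 0))) (L (E (nat_lit 3) (nat_lit 0x27dd37e999) (nat_lit 0)))) (N (nat_lit 3163) (N (nat_lit 3161) (N (nat_lit 3160) (L (E (nat_lit 3) (nat_lit 0x311581abeb) (nat_lit 0))) (L (E (nat_lit 3) (nat_lit 0x35c5a62d17) (nat_lit 0)))) (N (nat_lit 3162) (L (E (nat_lit 3) (nat_lit 0x3685ac2d3d) (nat_lit 0))) (L (E (nat_lit 3) (nat_lit 0x132c9624ab) (nat_lit 0))))) (N (nat_lit 3164) (L (E (nat_lit 3) (nat_lit 0x1734b6e5af) (nat_lit 0))) (L (E (nat_lit 3) (nat_lit 0x197cc8e63d) (nat_lit 0))))))) (N (nat_lit 3170) (N (nat_lit 3168) (N (nat_lit 3167) (N (nat_lit 3166) (L (E (nat_lit 3) (nat_lit 0x1a44cfe677) (nat_lit 0))) (L (E (nat_lit 3) (nat_lit 0x202cfe27e7) (nat_lit 0)))) (L (E (nat_lit 3) (nat_lit 0x22cd12e88d) (nat_lit 0)))) (N (nat_lit 3169) (L (E (nat_lit 3) (nat_lit 0x230514e89b) (nat_lit 0))) (L (E (nat_lit 3) (nat_lit 0x232515e8a3)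 (nat_lit 0))))) (N (nat_lit 3171) (L (E (nat_lit 3) (nat_lit 0x23fd1ce8df) (nat_lit 0))) (N (nat_lit 3172) (L (E (nat_lit 3) (nat_lit 0x268d31297d) (nat_lit 0))) (N (nat_lit 3173) (L (E (nat_lit 3) (nat_lit 0x279d39e9c5) (nat_lit 0))) (L (E (nat_lit 3) (nat_lit 0x296547ea35) (nat_lit 0))))))))) (N (nat_lit 3175) (L (E (nat_lit 3) (nat_lit 0x331595aca3) (nat_lit 0))) (N (nat_lit 3177) (N (nat_lit 3176) (L (E (nat_lit 3) (nat_lit 0x3535a66d2d) (nat_lit 0))) (L (E (nat_lit 3) (nat_lit 0x13c49ce4c9) (nat_lit 0)))) (L (E (nat_lit 3) (nat_lit 0x151ca76523) (nat_lit 0)))))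
def cl63 : RA := N (nat_lit 3196) (N (nat_lit 3187) (N (nat_lit 3182) (N (nat_lit 3180) (N (nat_lit 3179) (L (E (nat_lit 3) (nat_lit 0x1564a9652f) (nat_lit 0))) (L (E (nat_lit 3) (nat_lit 0x15fcae2551) (nat_lit 0)))) (N (nat_lit 3181) (L (E (nat_lit 3) (nat_lit 0x225d10e86b) (nat_lit 0))) (L (E (nat_lit 3) (nat_lit 0x22d5146883) (nat_lit 0))))) (N (nat_lit 3185) (N (nat_lit 3184) (N (nat_lit 3183) (L (E (nat_lit 3) (nat_lit 0x230516288f) (nat_lit 0))) (L (E (nat_lit 3) (nat_lit 0x235d18a8a5) (nat_lit 0)))) (L (E (nat_lit 3) (nat_lit 0x25dd2d294b) (nat_lit 0)))) (N (nat_lit 3186) (L (E (nat_lit 3) (nat_lit 0x25e52d694d) (nat_lit 0))) (L (E (nat_lit 3) (nat_lit 0x268d326971) (nat_lit 0)))))) (N (nat_lit 3194) (N (nat_lit 3192) (N (nat_lit 3189) (N (nat_lit 3188) (L (E (nat_lit 3) (nat_lit 0x2a054dea51) (nat_lit 0))) (L (E (nat_lit 3) (nat_lit 0x34dda56d11) (nat_lit 0)))) (N (nat_lit 3191) (N (nat_lit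 3190) (L (E (nat_lit 3) (nat_lit 0x3585aa2d31) (nat_lit 0))) (L (E (nat_lit 3) (nat_lit 0x165cae652d) (nat_lit 0)))) (L (E (nat_lit 3) (nat_lit 0x16e4b2e547) (nat_lit 0))))) (N (nat_lit 3193) (L (E (nat_lit 3) (nat_lit 0x1a0ccc2615) (nat_lit 0))) (L (E (nat_lit 3) (nat_lit 0x22ad106849) (nat_lit 0))))) (N (nat_lit 3195) (L (E (nat_lit 3) (nat_lit 0x231513a855) (nat_lit 0))) (L (E (nat_lit 3) (nat_lit 0x26352ce92f) (nat_lit 0)))))) (N (nat_lit 3209) (N (nat_lit 3203) (N (nat_lit 3201) (N (nat_lit 3199) (N (nat_lit 3198) (N (nat_lit 3197) (L (E (nat_lit 3) (nat_lit 0x269d2fe93b) (nat_lit 0))) (L (E (nat_lit 3) (nat_lit 0x2745352957) (nat_lit 0)))) (L (E (nat_lit 3) (nat_lit 0x2775372963) (nat_lit 0)))) (N (nat_lit 3200) (L (E (nat_lit 3) (nat_lit 0x12bc926489) (nat_lit 0))) (L (E (nat_lit 3) (nat_lit 0x1674afa56f) (nat_lit 0))))) (N (nat_lit 3202) (L (E (nat_lit 3) (nat_lit 0x167cafe571) (nat_lit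 0))) (L (E (nat_lit 3) (nat_lit 0x228d106877) (nat_lit 0))))) (N (nat_lit 3206) (N (nat_lit 3204) (L (E (nat_lit 3) (nat_lit 0x23751768ab) (nat_lit 0))) (N (nat_lit 3205) (L (E (nat_lit 3) (nat_lit 0x238d1828b1) (nat_lit 0))) (L (E (nat_lit 3) (nat_lit 0x23951868b3) (nat_lit 0))))) (N (nat_lit 3208) (N (nat_lit 3207) (L (E (nat_lit 3) (nat_lit 0x24651f68ed) (nat_lit 0))) (L (E (nat_lit 3) (nat_lit 0x26652ee969) (nat_lit 0)))) (L (E (nat_lit 3) (nat_lit 0x2715346993) (nat_lit 0)))))) (N (nat_lit 3214) (N (nat_lit 3211) (N (nat_lit 3210) (L (E (nat_lit 3) (nat_lit 0x275d36e9a5) (nat_lit 0))) (L (E (nat_lit 3) (nat_lit 0x3655ae6d61) (nat_lit 0)))) (N (nat_lit 3213) (N (nat_lit 3212) (L (E (nat_lit 3) (nat_lit 0x142c9e64bd) (nat_lit 0))) (L (E (nat_lit 3) (nat_lit 0x168cb02547) (nat_lit 0)))) (L (E (nat_lit 3) (nat_lit 0x16e4b3255d) (nat_lit 0))))) (N (nat_lit 3218) (N (nat_lit 3217) (N (nat_lit 3216)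 (N (nat_lit 3215) (L (E (nat_lit 3) (nat_lit 0x19f4cba623) (nat_lit 0))) (L (E (nat_lit 3) (nat_lit 0x22950fe84d) (nat_lit 0)))) (L (E (nat_lit 3) (nat_lit 0x22ad10a853) (nat_lit 0)))) (L (E (nat_lit 3) (nat_lit 0x235d162875) (nat_lit 0)))) (N (nat_lit 3220) (N (nat_lit 3219) (L (E (nat_lit 3) (nat_lit 0x239d186883) (nat_lit 0))) (L (E (nat_lit 3) (nat_lit 0x23a518a885) (nat_lit 0)))) (L (E (nat_lit 3) (nat_lit 0x23e51b2897) (nat_lit 0)))))))
def cl64 : RA := N (nat_lit 3236) (N (nat_lit 3229) (N (nat_lit 3223) (N (nat_lit 3222) (L (E (nat_lit 3) (nat_lit 0x268d2fa949) (nat_lit 0))) (L (E (nat_lit 3) (nat_lit 0x272d34a967) (nat_lit 0)))) (N (nat_lit 3225) (N (nat_lit 3224) (L (E (nat_lit 3) (nat_lit 0x2775376979) (nat_lit 0))) (L (E (nat_lit 3) (nat_lit 0x28053ce9a9) (nat_lit 0)))) (N (nat_lit 3227) (N (nat_lit 3226) (L (E (nat_lit 3) (nat_lit 0x3d9de96f1f) (nat_lit 0))) (L (E (nat_lit 3) (nat_lit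 0xd0c68232d) (nat_lit 0)))) (N (nat_lit 3228) (L (E (nat_lit 3) (nat_lit 0x1424a0e4f1) (nat_lit 0))) (L (E (nat_lit 3) (nat_lit 0x15acac2549) (nat_lit 0))))))) (N (nat_lit 3232) (N (nat_lit 3230) (L (E (nat_lit 3) (nat_lit 0x163cb0a56d) (nat_lit 0))) (N (nat_lit 3231) (L (E (nat_lit 3) (nat_lit 0x168cb36581) (nat_lit 0))) (L (E (nat_lit 3) (nat_lit 0x16dcb5e597) (nat_lit 0))))) (N (nat_lit 3235) (N (nat_lit 3234) (N (nat_lit 3233) (L (E (nat_lit 3) (nat_lit 0x1f1cf7e7a7) (nat_lit 0))) (L (E (nat_lit 3) (nat_lit 0x224510e871) (nat_lit 0)))) (L (E (nat_lit 3) (nat_lit 0x22f5166897) (nat_lit 0)))) (L (E (nat_lit 3) (nat_lit 0x23551928af) (nat_lit 0)))))) (N (nat_lit 3252) (N (nat_lit 3240) (N (nat_lit 3238) (N (nat_lit 3237) (L (E (nat_lit 3) (nat_lit 0x26252fa965) (nat_lit 0))) (L (E (nat_lit 3) (nat_lit 0x268d33297d) (nat_lit 0)))) (N (nat_lit 3239) (L (E (nat_lit 3) (nat_lit 0x29854b2a3f) (nat_lit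 0))) (L (E (nat_lit 3) (nat_lit 0x2f6d7a2bb7) (nat_lit 0))))) (N (nat_lit 3247) (N (nat_lit 3245) (N (nat_lit 3243) (N (nat_lit 3242) (N (nat_lit 3241) (L (E (nat_lit 3) (nat_lit 0x3b146261e1) (nat_lit 0))) (L (E (nat_lit 3) (nat_lit 0x1734b0a57d) (nat_lit 0)))) (L (E (nat_lit 3) (nat_lit 0x1764b2e58f) (nat_lit 0)))) (N (nat_lit 3244) (L (E (nat_lit 3) (nat_lit 0x23a512e88f) (nat_lit 0))) (L (E (nat_lit 3) (nat_lit 0x27452fa975) (nat_lit 0))))) (N (nat_lit 3246) (L (E (nat_lit 3) (nat_lit 0x274d2fe977) (nat_lit 0))) (L (E (nat_lit 3) (nat_lit 0x16a4b42555) (nat_lit 0))))) (N (nat_lit 3249) (N (nat_lit 3248) (L (E (nat_lit 3) (nat_lit 0x1784bb2597) (nat_lit 0))) (L (E (nat_lit 3) (nat_lit 0x237d1ae883) (nat_lit 0)))) (N (nat_lit 3251) (N (nat_lit 3250) (L (E (nat_lit 3) (nat_lit 0x23dd1de89d) (nat_lit 0))) (L (E (nat_lit 3) (nat_lit 0x269533a94f) (nat_lit 0)))) (L (E (nat_lit 3) (nat_lit 0x26bd34e959)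 (nat_lit 0))))))) (N (nat_lit 3262) (N (nat_lit 3258) (N (nat_lit 3255) (N (nat_lit 3254) (N (nat_lit 3253) (L (E (nat_lit 3) (nat_lit 0x281423e021) (nat_lit 0))) (L (E (nat_lit 3) (nat_lit 0x4a16366789) (nat_lit 0)))) (L (E (nat_lit 3) (nat_lit 0xf0402200d) (nat_lit 0)))) (N (nat_lit 3257) (N (nat_lit 3256) (L (E (nat_lit 3) (nat_lit 0x140c99a49d) (nat_lit 0))) (L (E (nat_lit 3) (nat_lit 0x23b5156875) (nat_lit 0)))) (L (E (nat_lit 3) (nat_lit 0x28253a6999) (nat_lit 0))))) (N (nat_lit 3260) (N (nat_lit 3259) (L (E (nat_lit 3) (nat_lit 0x225d0f285b) (nat_lit 0))) (L (E (nat_lit 3) (nat_lit 0x235d166891) (nat_lit 0)))) (N (nat_lit 3261) (L (E (nat_lit 3) (nat_lit 0x2a4d4dea51) (nat_lit 0))) (L (E (nat_lit 3) (nat_lit 0x16e4b0253f) (nat_lit 0)))))) (N (nat_lit 3269) (N (nat_lit 3265) (N (nat_lit 3264) (N (nat_lit 3263) (L (E (nat_lit 3) (nat_lit 0x20fd02e7d1) (nat_lit 0))) (L (E (nat_lit 3) (nat_lit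 0x24551be895) (nat_lit 0)))) (L (E (nat_lit 3) (nat_lit 0x278534a95f) (nat_lit 0)))) (N (nat_lit 3267) (N (nat_lit 3266) (L (E (nat_lit 3) (nat_lit 0x370db1ed45) (nat_lit 0))) (L (E (nat_lit 3) (nat_lit 0x1614a56525) (nat_lit 0)))) (N (nat_lit 3268) (L (E (nat_lit 3) (nat_lit 0x165ca6a52f) (nat_lit 0))) (L (E (nat_lit 3) (nat_lit 0x17acb2e591) (nat_lit 0)))))) (N (nat_lit 3271) (N (nat_lit 3270) (L (E (nat_lit 3) (nat_lit 0x26a528e941) (nat_lit 0))) (L (E (nat_lit 3) (nat_lit 0x162cb0a52b) (nat_lit 0)))) (L (E (nat_lit 3) (nat_lit 0x244d21a8a7) (nat_lit 0)))))))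
def cl65 : RA := N (nat_lit 3293) (N (nat_lit 3281) (N (nat_lit 3277) (N (nat_lit 3275) (N (nat_lit 3274) (L (E (nat_lit 3) (nat_lit 0x16fcafa545) (nat_lit 0))) (L (E (nat_lit 3) (nat_lit 0x2415182883) (nat_lit 0)))) (N (nat_lit 3276) (L (E (nat_lit 3) (nat_lit 0x27052ee945) (nat_lit 0))) (L (E (nat_lit 3) (nat_lit 0x27dd36e977) (nat_lit 0))))) (N (nat_lit 3280) (N (nat_lit 3278) (L (E (nat_lit 3) (nat_lit 0x2a5d4a2a19) (nat_lit 0))) (N (nat_lit 3279) (L (E (nat_lit 3) (nat_lit 0x308d7beba5) (nat_lit 0))) (L (E (nat_lit 3) (nat_lit 0x16ecabe559) (nat_lit 0))))) (L (E (nat_lit 3) (nat_lit 0x23ad1c68af) (nat_lit 0))))) (N (nat_lit 3286) (N (nat_lit 3284) (N (nat_lit 3283) (N (nat_lit 3282) (L (E (nat_lit 3) (nat_lit 0x26dd356977) (nat_lit 0))) (L (E (nat_lit 3) (nat_lit 0x2f7d7aaba5) (nat_lit 0)))) (L (E (nat_lit 3) (nat_lit 0x1604af6529) (nat_lit 0)))) (N (nat_lit 3285) (L (E (nat_lit 3) (nat_lit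 0x24252068a1) (nat_lit 0))) (L (E (nat_lit 3) (nat_lit 0x16bcafe577) (nat_lit 0))))) (N (nat_lit 3289) (N (nat_lit 3288) (N (nat_lit 3287) (L (E (nat_lit 3) (nat_lit 0x259d27a939) (nat_lit 0))) (L (E (nat_lit 3) (nat_lit 0x320c00a001) (nat_lit 0)))) (L (E (nat_lit 3) (nat_lit 0x1614ace547) (nat_lit 0)))) (N (nat_lit 3291) (N (nat_lit 3290) (L (E (nat_lit 3) (nat_lit 0x167cafe55f) (nat_lit 0))) (L (E (nat_lit 3) (nat_lit 0x3cd55e20df) (nat_lit 0)))) (N (nat_lit 3292) (L (E (nat_lit 3) (nat_lit 0x446dc02209) (nat_lit 0))) (L (E (nat_lit 3) (nat_lit 0x465dcd629f) (nat_lit 0)))))))) (N (nat_lit 3306) (N (nat_lit 3299) (N (nat_lit 3295) (N (nat_lit 3294) (L (E (nat_lit 3) (nat_lit 0x486e14a449) (nat_lit 0))) (L (E (nat_lit 3) (nat_lit 0x488e15e459) (nat_lit 0)))) (N (nat_lit 3297) (N (nat_lit 3296) (L (E (nat_lit 3) (nat_lit 0x3b35ca6251) (nat_lit 0))) (L (E (nat_lit 3) (nat_lit 0x4436182493) (nat_lit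 0)))) (N (nat_lit 3298) (L (E (nat_lit 3) (nat_lit 0x2cf471a0d1) (nat_lit 0))) (L (E (nat_lit 3) (nat_lit 0x3a8cdc2219) (nat_lit 0)))))) (N (nat_lit 3303) (N (nat_lit 3301) (N (nat_lit 3300) (L (E (nat_lit 3) (nat_lit 0x3adcdf6233) (nat_lit 0))) (L (E (nat_lit 3) (nat_lit 0x3d1ce7e063) (nat_lit 0)))) (N (nat_lit 3302) (L (E (nat_lit 3) (nat_lit 0x3ecceaa07f) (nat_lit 0))) (L (E (nat_lit 3) (nat_lit 0x3f14eba083) (nat_lit 0))))) (N (nat_lit 3304) (L (E (nat_lit 3) (nat_lit 0x4915d4632f) (nat_lit 0))) (N (nat_lit 3305) (L (E (nat_lit 3) (nat_lit 0x496de6a3cf) (nat_lit 0))) (L (E (nat_lit 3) (nat_lit 0x49ce1da625) (nat_lit 0))))))) (N (nat_lit 3313) (N (nat_lit 3309) (N (nat_lit 3307) (L (E (nat_lit 3) (nat_lit 0x3ecceaa18d) (nat_lit 0))) (N (nat_lit 3308) (L (E (nat_lit 3) (nat_lit 0x411cf9a1c1) (nat_lit 0))) (L (E (nat_lit 3) (nat_lit 0x4164fc61c5) (nat_lit 0))))) (N (nat_lit 3311) (N (nat_lit 3310)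 (L (E (nat_lit 3) (nat_lit 0x3fe5646097) (nat_lit 0))) (L (E (nat_lit 3) (nat_lit 0x4354ada1c3) (nat_lit 0)))) (N (nat_lit 3312) (L (E (nat_lit 3) (nat_lit 0x4734ed26d3) (nat_lit 0))) (L (E (nat_lit 3) (nat_lit 0x478cf766fb) (nat_lit 0)))))) (N (nat_lit 3315) (N (nat_lit 3314) (L (E (nat_lit 3) (nat_lit 0x2d847a205d) (nat_lit 0))) (L (E (nat_lit 3) (nat_lit 0x2f347e207f) (nat_lit 0)))) (L (E (nat_lit 3) (nat_lit 0x164cae252f) (nat_lit 0))))))
def cl66 : RA := N (nat_lit 3332) (N (nat_lit 3316) (cl65) (N (nat_lit 3323) (N (nat_lit 3321) (N (nat_lit 3319) (N (nat_lit 3317) (L (E (nat_lit 3) (nat_lit 0x16a4b0e543) (nat_lit 0))) (N (nat_lit 3318) (L (E (nat_lit 3) (nat_lit 0x203cfd67a7) (nat_lit 0))) (L (E (nat_lit 3) (nat_lit 0x230d13a85b) (nat_lit 0))))) (N (nat_lit 3320) (L (E (nat_lit 3) (nat_lit 0x231513e85d) (nat_lit 0))) (L (E (nat_lit 3) (nat_lit 0x231d14285f) (nat_lit 0))))) (N (nat_lit 3322)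 (L (E (nat_lit 3) (nat_lit 0x240d1c6897) (nat_lit 0))) (L (E (nat_lit 3) (nat_lit 0x245d1ee8af) (nat_lit 0))))) (N (nat_lit 3326) (N (nat_lit 3324) (L (E (nat_lit 3) (nat_lit 0x26e532694d) (nat_lit 0))) (N (nat_lit 3325) (L (E (nat_lit 3) (nat_lit 0x26ed32a94f) (nat_lit 0))) (L (E (nat_lit 3) (nat_lit 0x279d38a979) (nat_lit 0))))) (N (nat_lit 3330) (N (nat_lit 3328) (N (nat_lit 3327) (L (E (nat_lit 3) (nat_lit 0x2a5d4e2a2b) (nat_lit 0))) (L (E (nat_lit 3) (nat_lit 0x2b1d55ea67) (nat_lit 0)))) (N (nat_lit 3329) (L (E (nat_lit 3) (nat_lit 0x306d7f2bb1) (nat_lit 0))) (L (E (nat_lit 3) (nat_lit 0x44ee257101) (nat_lit 0))))) (N (nat_lit 3331) (L (E (nat_lit 3) (nat_lit 0x230d0d684f) (nat_lit 0))) (L (E (nat_lit 3) (nat_lit 0x240d156885) (nat_lit 0)))))))) (N (nat_lit 3348) (N (nat_lit 3337) (N (nat_lit 3336) (N (nat_lit 3334) (N (nat_lit 3333) (L (E (nat_lit 3) (nat_lit 0x244d17a897) (nat_lit 0))) (L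 (E (nat_lit 3) (nat_lit 0x245d18289b) (nat_lit 0)))) (N (nat_lit 3335) (L (E (nat_lit 3) (nat_lit 0x24951ae8b1) (nat_lit 0))) (L (E (nat_lit 3) (nat_lit 0x27452e6953) (nat_lit 0))))) (L (E (nat_lit 3) (nat_lit 0x27e534697d) (nat_lit 0)))) (N (nat_lit 3343) (N (nat_lit 3341) (N (nat_lit 3339) (N (nat_lit 3338) (L (E (nat_lit 3) (nat_lit 0x2825376995) (nat_lit 0))) (L (E (nat_lit 3) (nat_lit 0x303d76eb9b) (nat_lit 0)))) (N (nat_lit 3340) (L (E (nat_lit 3) (nat_lit 0x3725aead4f) (nat_lit 0))) (L (E (nat_lit 3) (nat_lit 0x15acabe525) (nat_lit 0))))) (N (nat_lit 3342) (L (E (nat_lit 3) (nat_lit 0x15b4ac2527) (nat_lit 0))) (L (E (nat_lit 3) (nat_lit 0x15f4ae6531) (nat_lit 0))))) (N (nat_lit 3344) (L (E (nat_lit 3) (nat_lit 0x164cb0e543) (nat_lit 0))) (N (nat_lit 3346) (N (nat_lit 3345) (L (E (nat_lit 3) (nat_lit 0x165cb16547) (nat_lit 0))) (L (E (nat_lit 3) (nat_lit 0x168cb32553) (nat_lit 0)))) (N (nat_lit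 3347) (L (E (nat_lit 3) (nat_lit 0x16a4b3e559) (nat_lit 0))) (L (E (nat_lit 3) (nat_lit 0x1964c9e60d) (nat_lit 0)))))))) (N (nat_lit 3361) (N (nat_lit 3354) (N (nat_lit 3349) (L (E (nat_lit 3) (nat_lit 0x22ad13a85b) (nat_lit 0))) (N (nat_lit 3351) (N (nat_lit 3350) (L (E (nat_lit 3) (nat_lit 0x22f516286b) (nat_lit 0))) (L (E (nat_lit 3) (nat_lit 0x25d52d6931) (nat_lit 0)))) (N (nat_lit 3353) (N (nat_lit 3352) (L (E (nat_lit 3) (nat_lit 0x25e52de935) (nat_lit 0))) (L (E (nat_lit 3) (nat_lit 0x267d32694d) (nat_lit 0)))) (L (E (nat_lit 3) (nat_lit 0x2ad555aa65) (nat_lit 0)))))) (N (nat_lit 3360) (N (nat_lit 3358) (N (nat_lit 3356) (N (nat_lit 3355) (L (E (nat_lit 3) (nat_lit 0x3625af6d31) (nat_lit 0))) (L (E (nat_lit 3) (nat_lit 0x367db2ad49) (nat_lit 0)))) (N (nat_lit 3357) (L (E (nat_lit 3) (nat_lit 0x6ec35e1a1) (nat_lit 0))) (L (E (nat_lit 3) (nat_lit 0x1684ade551) (nat_lit 0))))) (N (nat_lit 3359)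 (L (E (nat_lit 3) (nat_lit 0x175cb5a591) (nat_lit 0))) (L (E (nat_lit 3) (nat_lit 0x191cc2e5ff) (nat_lit 0))))) (L (E (nat_lit 3) (nat_lit 0x230d116871) (nat_lit 0))))) (N (nat_lit 3363) (N (nat_lit 3362) (L (E (nat_lit 3) (nat_lit 0x235d13a87f) (nat_lit 0))) (L (E (nat_lit 3) (nat_lit 0x239d162891) (nat_lit 0)))) (N (nat_lit 3364) (L (E (nat_lit 3) (nat_lit 0x23ad16a895) (nat_lit 0))) (N (nat_lit 3366) (N (nat_lit 3365) (L (E (nat_lit 3) (nat_lit 0x23ed18e8a9) (nat_lit 0))) (L (E (nat_lit 3) (nat_lit 0x26752ce94b) (nat_lit 0)))) (L (E (nat_lit 3) (nat_lit 0x26952de953) (nat_lit 0))))))))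
def cl67 : RA := N (nat_lit 3399) (N (nat_lit 3386) (N (nat_lit 3376) (N (nat_lit 3370) (N (nat_lit 3368) (L (E (nat_lit 3) (nat_lit 0x272d326973) (nat_lit 0))) (N (nat_lit 3369) (L (E (nat_lit 3) (nat_lit 0x273d32e977) (nat_lit 0))) (L (E (nat_lit 3) (nat_lit 0x27cd3869a3) (nat_lit 0))))) (N (nat_lit 3373) (N (nat_lit 3371) (L (E (nat_lit 3) (nat_lit 0x2a4d4baa3f) (nat_lit 0))) (N (nat_lit 3372) (L (E (nat_lit 3) (nat_lit 0x2a8d4daa51) (nat_lit 0))) (L (E (nat_lit 3) (nat_lit 0x2b05532a7b) (nat_lit 0))))) (N (nat_lit 3375) (N (nat_lit 3374) (L (E (nat_lit 3) (nat_lit 0x3625a9ed31) (nat_lit 0))) (L (E (nat_lit 3) (nat_lit 0x363daaad37) (nat_lit 0)))) (L (E (nat_lit 3) (nat_lit 0x16fcb26549) (nat_lit 0)))))) (N (nat_lit 3382) (N (nat_lit 3379) (N (nat_lit 3378) (N (nat_lit 3377) (L (E (nat_lit 3) (nat_lit 0x177cb72571) (nat_lit 0))) (L (E (nat_lit 3) (nat_lit 0x1a14cb2613) (nat_lit 0)))) (L (E (nat_lit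 3) (nat_lit 0x231d12a853) (nat_lit 0)))) (N (nat_lit 3380) (L (E (nat_lit 3) (nat_lit 0x236514e85d) (nat_lit 0))) (N (nat_lit 3381) (L (E (nat_lit 3) (nat_lit 0x2375156861) (nat_lit 0))) (L (E (nat_lit 3) (nat_lit 0x238d162867) (nat_lit 0)))))) (N (nat_lit 3384) (N (nat_lit 3383) (L (E (nat_lit 3) (nat_lit 0x23cd186877) (nat_lit 0))) (L (E (nat_lit 3) (nat_lit 0x240d1ae885) (nat_lit 0)))) (N (nat_lit 3385) (L (E (nat_lit 3) (nat_lit 0x24151b2887) (nat_lit 0))) (L (E (nat_lit 3) (nat_lit 0x26fd31a947) (nat_lit 0))))))) (N (nat_lit 3395) (N (nat_lit 3389) (N (nat_lit 3388) (N (nat_lit 3387) (L (E (nat_lit 3) (nat_lit 0x274533e953) (nat_lit 0))) (L (E (nat_lit 3) (nat_lit 0x275d34a959) (nat_lit 0)))) (L (E (nat_lit 3) (nat_lit 0x279d372969) (nat_lit 0)))) (N (nat_lit 3392) (N (nat_lit 3390) (L (E (nat_lit 3) (nat_lit 0x27a537696b) (nat_lit 0))) (N (nat_lit 3391) (L (E (nat_lit 3) (nat_lit 0x28153be991)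 (nat_lit 0))) (L (E (nat_lit 3) (nat_lit 0x28253c6995) (nat_lit 0))))) (N (nat_lit 3393) (L (E (nat_lit 3) (nat_lit 0x2a054a2a13) (nat_lit 0))) (N (nat_lit 3394) (L (E (nat_lit 3) (nat_lit 0x2a5d4caa1d) (nat_lit 0))) (L (E (nat_lit 3) (nat_lit 0x3725b3ed4f) (nat_lit 0))))))) (N (nat_lit 3398) (N (nat_lit 3397) (N (nat_lit 3396) (L (E (nat_lit 3) (nat_lit 0x372db42d51) (nat_lit 0))) (L (E (nat_lit 3) (nat_lit 0xd74686321) (nat_lit 0)))) (L (E (nat_lit 3) (nat_lit 0x169caf2547) (nat_lit 0)))) (L (E (nat_lit 3) (nat_lit 0x16a4af6549) (nat_lit 0)))))) (N (nat_lit 3409) (N (nat_lit 3404) (N (nat_lit 3402) (N (nat_lit 3401) (N (nat_lit 3400) (L (E (nat_lit 3) (nat_lit 0x16fcb2655f) (nat_lit 0))) (L (E (nat_lit 3) (nat_lit 0x1734b46571) (nat_lit 0)))) (L (E (nat_lit 3) (nat_lit 0x230d122861) (nat_lit 0)))) (N (nat_lit 3403) (L (E (nat_lit 3) (nat_lit 0x2315126863) (nat_lit 0))) (L (E (nat_lit 3) (nat_lit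 0x26952e6947) (nat_lit 0))))) (N (nat_lit 3406) (N (nat_lit 3405) (L (E (nat_lit 3) (nat_lit 0x26fd31a959) (nat_lit 0))) (L (E (nat_lit 3) (nat_lit 0x274533e969) (nat_lit 0)))) (N (nat_lit 3408) (N (nat_lit 3407) (L (E (nat_lit 3) (nat_lit 0x277d362977) (nat_lit 0))) (L (E (nat_lit 3) (nat_lit 0x27d5396993) (nat_lit 0)))) (L (E (nat_lit 3) (nat_lit 0x363dab6d29) (nat_lit 0)))))) (N (nat_lit 3420) (N (nat_lit 3417) (N (nat_lit 3414) (N (nat_lit 3412) (N (nat_lit 3411) (N (nat_lit 3410) (L (E (nat_lit 3) (nat_lit 0x3da5e82f1d) (nat_lit 0))) (L (E (nat_lit 3) (nat_lit 0x15fcaba51d) (nat_lit 0)))) (L (E (nat_lit 3) (nat_lit 0x1664aee52b) (nat_lit 0)))) (N (nat_lit 3413) (L (E (nat_lit 3) (nat_lit 0x16e4b32543) (nat_lit 0))) (L (E (nat_lit 3) (nat_lit 0x1a4ccf2625) (nat_lit 0))))) (N (nat_lit 3416) (N (nat_lit 3415) (L (E (nat_lit 3) (nat_lit 0x2034fd2799) (nat_lit 0))) (L (E (nat_lit 3) (nat_lit 0x207cffa7a7)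 (nat_lit 0)))) (L (E (nat_lit 3) (nat_lit 0x240d1c6885) (nat_lit 0))))) (N (nat_lit 3419) (N (nat_lit 3418) (L (E (nat_lit 3) (nat_lit 0x244d1e6897) (nat_lit 0))) (L (E (nat_lit 3) (nat_lit 0x268d2fa933) (nat_lit 0)))) (L (E (nat_lit 3) (nat_lit 0x273534e94f) (nat_lit 0))))) (N (nat_lit 3426) (N (nat_lit 3425) (N (nat_lit 3423) (N (nat_lit 3421) (L (E (nat_lit 3) (nat_lit 0x278d382965) (nat_lit 0))) (N (nat_lit 3422) (L (E (nat_lit 3) (nat_lit 0x30fd842bc9) (nat_lit 0))) (L (E (nat_lit 3) (nat_lit 0x36bdb22d33) (nat_lit 0))))) (N (nat_lit 3424) (L (E (nat_lit 3) (nat_lit 0x36cdb2ad37) (nat_lit 0))) (L (E (nat_lit 3) (nat_lit 0x15fca7251d) (nat_lit 0))))) (L (E (nat_lit 3) (nat_lit 0x16a4abe535) (nat_lit 0)))) (N (nat_lit 3429) (N (nat_lit 3428) (N (nat_lit 3427) (L (E (nat_lit 3) (nat_lit 0x1734b0e559) (nat_lit 0))) (L (E (nat_lit 3) (nat_lit 0x202cf7e797) (nat_lit 0)))) (L (E (nat_lit 3) (nat_lit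 0x23050ea84d) (nat_lit 0)))) (N (nat_lit 3430) (L (E (nat_lit 3) (nat_lit 0x248d1c28af) (nat_lit 0))) (L (E (nat_lit 3) (nat_lit 0x26952b2935) (nat_lit 0))))))))
def cl68 : RA := N (nat_lit 3498) (N (nat_lit 3485) (N (nat_lit 3480) (N (nat_lit 3476) (L (E (nat_lit 3) (nat_lit 0x273d32e967) (nat_lit 0))) (N (nat_lit 3478) (N (nat_lit 3477) (L (E (nat_lit 3) (nat_lit 0x298d45ea0f) (nat_lit 0))) (L (E (nat_lit 3) (nat_lit 0x29e5486a17) (nat_lit 0)))) (N (nat_lit 3479) (L (E (nat_lit 3) (nat_lit 0x30bd7febcf) (nat_lit 0))) (L (E (nat_lit 3) (nat_lit 0x161cad653b) (nat_lit 0)))))) (N (nat_lit 3482) (N (nat_lit 3481) (L (E (nat_lit 3) (nat_lit 0x166cafa54b) (nat_lit 0))) (L (E (nat_lit 3) (nat_lit 0x16fcb46571) (nat_lit 0)))) (N (nat_lit 3483) (L (E (nat_lit 3) (nat_lit 0x22cd126863) (nat_lit 0))) (N (nat_lit 3484) (L (E (nat_lit 3) (nat_lit 0x25fd2c693b) (nat_lit 0))) (L (E (nat_lit 3) (nat_lit 0x26452e2945)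 (nat_lit 0))))))) (N (nat_lit 3489) (N (nat_lit 3486) (L (E (nat_lit 3) (nat_lit 0x26a5316957) (nat_lit 0))) (N (nat_lit 3488) (N (nat_lit 3487) (L (E (nat_lit 3) (nat_lit 0x26fd33e969) (nat_lit 0))) (L (E (nat_lit 3) (nat_lit 0x2a1d4cea33) (nat_lit 0)))) (L (E (nat_lit 3) (nat_lit 0x16fcb3e545) (nat_lit 0))))) (N (nat_lit 3494) (N (nat_lit 3492) (N (nat_lit 3491) (N (nat_lit 3490) (L (E (nat_lit 3) (nat_lit 0x23b519286d) (nat_lit 0))) (L (E (nat_lit 3) (nat_lit 0x240d1c6881) (nat_lit 0)))) (L (E (nat_lit 3) (nat_lit 0x273d35294d) (nat_lit 0)))) (N (nat_lit 3493) (L (E (nat_lit 3) (nat_lit 0x2455152883) (nat_lit 0))) (L (E (nat_lit 3) (nat_lit 0x245d156885) (nat_lit 0))))) (N (nat_lit 3496) (N (nat_lit 3495) (L (E (nat_lit 3) (nat_lit 0x281533e979) (nat_lit 0))) (L (E (nat_lit 3) (nat_lit 0x282534697d) (nat_lit 0)))) (N (nat_lit 3497) (L (E (nat_lit 3) (nat_lit 0x3705b72d73) (nat_lit 0))) (L (E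 (nat_lit 3) (nat_lit 0x235d13e87f) (nat_lit 0)))))))) (N (nat_lit 3510) (N (nat_lit 3503) (N (nat_lit 3500) (N (nat_lit 3499) (L (E (nat_lit 3) (nat_lit 0x23ed1928a9) (nat_lit 0))) (L (E (nat_lit 3) (nat_lit 0x16e4b1a533) (nat_lit 0)))) (N (nat_lit 3502) (N (nat_lit 3501) (L (E (nat_lit 3) (nat_lit 0x23fd1a6871) (nat_lit 0))) (L (E (nat_lit 3) (nat_lit 0x13f49c6483) (nat_lit 0)))) (L (E (nat_lit 3) (nat_lit 0x2415152883) (nat_lit 0))))) (N (nat_lit 3507) (N (nat_lit 3506) (N (nat_lit 3504) (L (E (nat_lit 3) (nat_lit 0x245d17a897) (nat_lit 0))) (N (nat_lit 3505) (L (E (nat_lit 3) (nat_lit 0x26bd2a693b) (nat_lit 0))) (L (E (nat_lit 3) (nat_lit 0x16aca9e52b) (nat_lit 0))))) (L (E (nat_lit 3) (nat_lit 0x23650ee84f) (nat_lit 0)))) (N (nat_lit 3509) (N (nat_lit 3508) (L (E (nat_lit 3) (nat_lit 0x244d16a883) (nat_lit 0))) (L (E (nat_lit 3) (nat_lit 0x27352d2941) (nat_lit 0)))) (L (E (nat_lit 3) (nat_lit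 0x279d306957) (nat_lit 0)))))) (N (nat_lit 3520) (N (nat_lit 3515) (N (nat_lit 3511) (L (E (nat_lit 3) (nat_lit 0x27dd332969) (nat_lit 0))) (N (nat_lit 3513) (N (nat_lit 3512) (L (E (nat_lit 3) (nat_lit 0x281d35e97d) (nat_lit 0))) (L (E (nat_lit 3) (nat_lit 0x1614a7e539) (nat_lit 0)))) (N (nat_lit 3514) (L (E (nat_lit 3) (nat_lit 0x166caa654b) (nat_lit 0))) (L (E (nat_lit 3) (nat_lit 0x302d786b9b) (nat_lit 0)))))) (N (nat_lit 3519) (N (nat_lit 3517) (N (nat_lit 3516) (L (E (nat_lit 3) (nat_lit 0x2044fe27bf) (nat_lit 0))) (L (E (nat_lit 3) (nat_lit 0x24651f68c9) (nat_lit 0)))) (N (nat_lit 3518) (L (E (nat_lit 3) (nat_lit 0x2a654f2a45) (nat_lit 0))) (L (E (nat_lit 3) (nat_lit 0x2aad51aa59) (nat_lit 0))))) (L (E (nat_lit 3) (nat_lit 0x446cae60cf) (nat_lit 0))))) (N (nat_lit 3526) (N (nat_lit 3523) (N (nat_lit 3522) (N (nat_lit 3521) (L (E (nat_lit 3) (nat_lit 0x4a16042789) (nat_lit 0))) (L (E (nat_lit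 3) (nat_lit 0x116404600f) (nat_lit 0)))) (L (E (nat_lit 3) (nat_lit 0x28140f2021) (nat_lit 0)))) (N (nat_lit 3525) (N (nat_lit 3524) (L (E (nat_lit 3) (nat_lit 0x49454da443) (nat_lit 0))) (L (E (nat_lit 3) (nat_lit 0x486515e709) (nat_lit 0)))) (L (E (nat_lit 3) (nat_lit 0x479c2da001) (nat_lit 0))))) (N (nat_lit 3529) (N (nat_lit 3528) (N (nat_lit 3527) (L (E (nat_lit 3) (nat_lit 0x49d61de4a5) (nat_lit 0))) (L (E (nat_lit 3) (nat_lit 0x109c7c6003) (nat_lit 0)))) (L (E (nat_lit 3) (nat_lit 0x444e1a6a67) (nat_lit 0)))) (N (nat_lit 3530) (L (E (nat_lit 3) (nat_lit 0x438422e003) (nat_lit 0))) (N (nat_lit 3531) (L (E (nat_lit 3) (nat_lit 0x424d66a55d) (nat_lit 0))) (L (E (nat_lit 3) (nat_lit 0x304d786b9b) (nat_lit 0)))))))))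
def cl69 : RA := N (nat_lit 3546) (N (nat_lit 3537) (N (nat_lit 3536) (N (nat_lit 3535) (N (nat_lit 3533) (L (E (nat_lit 3) (nat_lit 0x15fca62521) (nat_lit 0))) (N (nat_lit 3534) (L (E (nat_lit 3) (nat_lit 0x23f5152883) (nat_lit 0))) (L (E (nat_lit 3) (nat_lit 0x244d18289b) (nat_lit 0))))) (L (E (nat_lit 3) (nat_lit 0x274d2f2959) (nat_lit 0)))) (L (E (nat_lit 3) (nat_lit 0x27d534697d) (nat_lit 0)))) (N (nat_lit 3542) (N (nat_lit 3540) (N (nat_lit 3539) (N (nat_lit 3538) (L (E (nat_lit 3) (nat_lit 0x2aad4aea33) (nat_lit 0))) (L (E (nat_lit 3) (nat_lit 0x3685a92d29) (nat_lit 0)))) (L (E (nat_lit 3) (nat_lit 0x230513687b) (nat_lit 0)))) (N (nat_lit 3541) (L (E (nat_lit 3) (nat_lit 0x268d2fa95f) (nat_lit 0))) (L (E (nat_lit 3) (nat_lit 0x279d38a9a3) (nat_lit 0))))) (N (nat_lit 3544) (N (nat_lit 3543) (L (E (nat_lit 3) (nat_lit 0x165ca8e52f) (nat_lit 0))) (L (E (nat_lit 3) (nat_lit 0x16a4ab253f) (nat_lit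 0)))) (N (nat_lit 3545) (L (E (nat_lit 3) (nat_lit 0x172cafe565) (nat_lit 0))) (L (E (nat_lit 3) (nat_lit 0x1734b02567) (nat_lit 0))))))) (N (nat_lit 3558) (N (nat_lit 3550) (N (nat_lit 3548) (N (nat_lit 3547) (L (E (nat_lit 3) (nat_lit 0x1994c32603) (nat_lit 0))) (L (E (nat_lit 3) (nat_lit 0x23b512e87b) (nat_lit 0)))) (N (nat_lit 3549) (L (E (nat_lit 3) (nat_lit 0x240d162893) (nat_lit 0))) (L (E (nat_lit 3) (nat_lit 0x24451828a5) (nat_lit 0))))) (N (nat_lit 3555) (N (nat_lit 3552) (N (nat_lit 3551) (L (E (nat_lit 3) (nat_lit 0x26fd2d294f) (nat_lit 0))) (L (E (nat_lit 3) (nat_lit 0x273d2ee95d) (nat_lit 0)))) (N (nat_lit 3554) (N (nat_lit 3553) (L (E (nat_lit 3) (nat_lit 0x27a532a977) (nat_lit 0))) (L (E (nat_lit 3) (nat_lit 0x2a4d47ea23) (nat_lit 0)))) (L (E (nat_lit 3) (nat_lit 0x374db1ed71) (nat_lit 0))))) (N (nat_lit 3556) (L (E (nat_lit 3) (nat_lit 0x162cae252b) (nat_lit 0))) (N (nat_lit 3557)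 (L (E (nat_lit 3) (nat_lit 0x166cafe533) (nat_lit 0))) (L (E (nat_lit 3) (nat_lit 0x1944c6a5f5) (nat_lit 0))))))) (N (nat_lit 3566) (N (nat_lit 3562) (N (nat_lit 3559) (L (E (nat_lit 3) (nat_lit 0x22cd12a84d) (nat_lit 0))) (N (nat_lit 3561) (N (nat_lit 3560) (L (E (nat_lit 3) (nat_lit 0x2335162861) (nat_lit 0))) (L (E (nat_lit 3) (nat_lit 0x26552ee933) (nat_lit 0)))) (L (E (nat_lit 3) (nat_lit 0x165ca8e53d) (nat_lit 0))))) (N (nat_lit 3564) (N (nat_lit 3563) (L (E (nat_lit 3) (nat_lit 0x1764b26585) (nat_lit 0))) (L (E (nat_lit 3) (nat_lit 0x247d1ae8c7) (nat_lit 0)))) (N (nat_lit 3565) (L (E (nat_lit 3) (nat_lit 0x272d2e6967) (nat_lit 0))) (L (E (nat_lit 3) (nat_lit 0x27cd346995) (nat_lit 0)))))) (N (nat_lit 3571) (N (nat_lit 3568) (N (nat_lit 3567) (L (E (nat_lit 3) (nat_lit 0x2b1d502a71) (nat_lit 0))) (L (E (nat_lit 3) (nat_lit 0x1674ade52b) (nat_lit 0)))) (N (nat_lit 3569) (L (E (nat_lit 3) (nat_lit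 0x16b4afe535) (nat_lit 0))) (N (nat_lit 3570) (L (E (nat_lit 3) (nat_lit 0x177cb7256d) (nat_lit 0))) (L (E (nat_lit 3) (nat_lit 0x2335136855) (nat_lit 0)))))) (L (E (nat_lit 3) (nat_lit 0x238515e861) (nat_lit 0))))))
def cl70 : RA := N (nat_lit 3603) (N (nat_lit 3587) (N (nat_lit 3580) (N (nat_lit 3576) (N (nat_lit 3574) (N (nat_lit 3573) (L (E (nat_lit 3) (nat_lit 0x26bd2fa93b) (nat_lit 0))) (L (E (nat_lit 3) (nat_lit 0x270d322947) (nat_lit 0)))) (N (nat_lit 3575) (L (E (nat_lit 3) (nat_lit 0x28153be98d) (nat_lit 0))) (L (E (nat_lit 3) (nat_lit 0x2ab54fea2d) (nat_lit 0))))) (N (nat_lit 3579) (N (nat_lit 3578) (N (nat_lit 3577) (L (E (nat_lit 3) (nat_lit 0x3d85e72efb) (nat_lit 0))) (L (E (nat_lit 3) (nat_lit 0x401dfc6f9b) (nat_lit 0)))) (L (E (nat_lit 3) (nat_lit 0x202cfb67d1) (nat_lit 0)))) (L (E (nat_lit 3) (nat_lit 0x25e529a949) (nat_lit 0))))) (N (nat_lit 3584) (N (nat_lit 3582) (N (nat_lit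 3581) (L (E (nat_lit 3) (nat_lit 0x2a5d4caa5d) (nat_lit 0))) (L (E (nat_lit 3) (nat_lit 0x2aa54f6a6f) (nat_lit 0)))) (N (nat_lit 3583) (L (E (nat_lit 3) (nat_lit 0x3635ab2d4f) (nat_lit 0))) (L (E (nat_lit 3) (nat_lit 0x129493e47b) (nat_lit 0))))) (N (nat_lit 3585) (L (E (nat_lit 3) (nat_lit 0x16dcb5e581) (nat_lit 0))) (N (nat_lit 3586) (L (E (nat_lit 3) (nat_lit 0x175cba65a9) (nat_lit 0))) (L (E (nat_lit 3) (nat_lit 0x202d0027d1) (nat_lit 0))))))) (N (nat_lit 3597) (N (nat_lit 3592) (N (nat_lit 3590) (N (nat_lit 3589) (N (nat_lit 3588) (L (E (nat_lit 3) (nat_lit 0x21ed0ea84d) (nat_lit 0))) (L (E (nat_lit 3) (nat_lit 0x2255116861) (nat_lit 0)))) (L (E (nat_lit 3) (nat_lit 0x22bd146877) (nat_lit 0)))) (N (nat_lit 3591) (L (E (nat_lit 3) (nat_lit 0x277d3ae9a5) (nat_lit 0))) (L (E (nat_lit 3) (nat_lit 0x27bd3d29bb) (nat_lit 0))))) (N (nat_lit 3595) (N (nat_lit 3594) (N (nat_lit 3593) (L (E (nat_lit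 3) (nat_lit 0x2f857aeba9) (nat_lit 0))) (L (E (nat_lit 3) (nat_lit 0x3675b2ad61) (nat_lit 0)))) (L (E (nat_lit 3) (nat_lit 0x1644ade527) (nat_lit 0)))) (N (nat_lit 3596) (L (E (nat_lit 3) (nat_lit 0x1764b7e56f) (nat_lit 0))) (L (E (nat_lit 3) (nat_lit 0x235d16285f) (nat_lit 0)))))) (N (nat_lit 3602) (N (nat_lit 3600) (N (nat_lit 3599) (N (nat_lit 3598) (L (E (nat_lit 3) (nat_lit 0x2365166861) (nat_lit 0))) (L (E (nat_lit 3) (nat_lit 0x23b5192875) (nat_lit 0)))) (L (E (nat_lit 3) (nat_lit 0x23f51ba883) (nat_lit 0)))) (N (nat_lit 3601) (L (E (nat_lit 3) (nat_lit 0x139498e4a7) (nat_lit 0))) (L (E (nat_lit 3) (nat_lit 0x1704b46581) (nat_lit 0))))) (L (E (nat_lit 3) (nat_lit 0x1714b4e585) (nat_lit 0)))))) (N (nat_lit 3612) (N (nat_lit 3605) (N (nat_lit 3604) (L (E (nat_lit 3) (nat_lit 0x2325152883) (nat_lit 0))) (L (E (nat_lit 3) (nat_lit 0x238d18289b) (nat_lit 0)))) (N (nat_lit 3608) (N (nat_lit 3607)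 (N (nat_lit 3606) (L (E (nat_lit 3) (nat_lit 0x241d1d28c5) (nat_lit 0))) (L (E (nat_lit 3) (nat_lit 0x26fd33a977) (nat_lit 0)))) (L (E (nat_lit 3) (nat_lit 0x271534697d) (nat_lit 0)))) (N (nat_lit 3611) (N (nat_lit 3610) (N (nat_lit 3609) (L (E (nat_lit 3) (nat_lit 0x27ad39a9a7) (nat_lit 0))) (L (E (nat_lit 3) (nat_lit 0x2a0d4c2a3f) (nat_lit 0)))) (L (E (nat_lit 3) (nat_lit 0x20b504a7d3) (nat_lit 0)))) (L (E (nat_lit 3) (nat_lit 0x22f515e85f) (nat_lit 0)))))) (N (nat_lit 3619) (N (nat_lit 3617) (N (nat_lit 3614) (N (nat_lit 3613) (L (E (nat_lit 3) (nat_lit 0x271d372963) (nat_lit 0))) (L (E (nat_lit 3) (nat_lit 0x2d8440a1c3) (nat_lit 0)))) (N (nat_lit 3616) (N (nat_lit 3615) (L (E (nat_lit 3) (nat_lit 0x47bcf762fd) (nat_lit 0))) (L (E (nat_lit 3) (nat_lit 0x39ccaee0e5) (nat_lit 0)))) (L (E (nat_lit 3) (nat_lit 0x16aca6652b) (nat_lit 0))))) (N (nat_lit 3618) (L (E (nat_lit 3) (nat_lit 0x17acafe571)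 (nat_lit 0))) (L (E (nat_lit 3) (nat_lit 0x20b4f6a7a7) (nat_lit 0))))) (N (nat_lit 3623) (N (nat_lit 3621) (N (nat_lit 3620) (L (E (nat_lit 3) (nat_lit 0x2415106877) (nat_lit 0))) (L (E (nat_lit 3) (nat_lit 0x245512a885) (nat_lit 0)))) (N (nat_lit 3622) (L (E (nat_lit 3) (nat_lit 0x2485152897) (nat_lit 0))) (L (E (nat_lit 3) (nat_lit 0x277d2ba94f) (nat_lit 0))))) (N (nat_lit 3625) (N (nat_lit 3624) (L (E (nat_lit 3) (nat_lit 0x27a52ce959) (nat_lit 0))) (L (E (nat_lit 3) (nat_lit 0x280d316979) (nat_lit 0)))) (L (E (nat_lit 3) (nat_lit 0x3695a4ad1b) (nat_lit 0)))))))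
def cl71 : RA := N (nat_lit 3451) (N (nat_lit 3431) (N (nat_lit 3273) (L (E (nat_lit 3) (nat_lit 0x33b400a001) (nat_lit 0))) (N (nat_lit 3367) (cl66) (cl67))) (N (nat_lit 3450) (N (nat_lit 3442) (N (nat_lit 3437) (N (nat_lit 3434) (N (nat_lit 3433) (N (nat_lit 3432) (L (E (nat_lit 3) (nat_lit 0x27cd352977) (nat_lit 0))) (L (E (nat_lit 3) (nat_lit 0x2a4d48aa19) (nat_lit 0)))) (L (E (nat_lit 3) (nat_lit 0x301d776b93) (nat_lit 0)))) (N (nat_lit 3436) (N (nat_lit 3435) (L (E (nat_lit 3) (nat_lit 0x135492a47d) (nat_lit 0))) (L (E (nat_lit 3) (nat_lit 0x15cca62521) (nat_lit 0)))) (L (E (nat_lit 3) (nat_lit 0x16acace545) (nat_lit 0))))) (N (nat_lit 3439) (N (nat_lit 3438) (L (E (nat_lit 3) (nat_lit 0x16bcad6549) (nat_lit 0))) (L (E (nat_lit 3) (nat_lit 0x173cb1e56d) (nat_lit 0)))) (N (nat_lit 3441) (N (nat_lit 3440) (L (E (nat_lit 3) (nat_lit 0x20c4fe27cd) (nat_lit 0))) (L (E (nat_lit 3) (nat_lit 0x22dd0e2855)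 (nat_lit 0)))) (L (E (nat_lit 3) (nat_lit 0x2375122871) (nat_lit 0)))))) (N (nat_lit 3447) (N (nat_lit 3445) (N (nat_lit 3444) (N (nat_lit 3443) (L (E (nat_lit 3) (nat_lit 0x23bd14e881) (nat_lit 0))) (L (E (nat_lit 3) (nat_lit 0x241d18289b) (nat_lit 0)))) (L (E (nat_lit 3) (nat_lit 0x269d2be943) (nat_lit 0)))) (N (nat_lit 3446) (L (E (nat_lit 3) (nat_lit 0x26fd2e6953) (nat_lit 0))) (L (E (nat_lit 3) (nat_lit 0x270d2ee957) (nat_lit 0))))) (N (nat_lit 3448) (L (E (nat_lit 3) (nat_lit 0x274d312965) (nat_lit 0))) (N (nat_lit 3449) (L (E (nat_lit 3) (nat_lit 0x27ad34697d) (nat_lit 0))) (L (E (nat_lit 3) (nat_lit 0x30857b6bb7) (nat_lit 0))))))) (L (E (nat_lit 3) (nat_lit 0x33f598aca3) (nat_lit 0))))) (N (nat_lit 3626) (N (nat_lit 3532) (N (nat_lit 3475) (N (nat_lit 3459) (N (nat_lit 3456) (N (nat_lit 3453) (N (nat_lit 3452) (L (E (nat_lit 3) (nat_lit 0x166caaa54b) (nat_lit 0))) (L (E (nat_lit 3) (nat_lit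 0x16bcad655f) (nat_lit 0)))) (N (nat_lit 3455) (N (nat_lit 3454) (L (E (nat_lit 3) (nat_lit 0x174cb26587) (nat_lit 0))) (L (E (nat_lit 3) (nat_lit 0x2375122885) (nat_lit 0)))) (L (E (nat_lit 3) (nat_lit 0x237d126887) (nat_lit 0))))) (N (nat_lit 3458) (N (nat_lit 3457) (L (E (nat_lit 3) (nat_lit 0x238d12e88b) (nat_lit 0))) (L (E (nat_lit 3) (nat_lit 0x23cd15689d) (nat_lit 0)))) (L (E (nat_lit 3) (nat_lit 0x26fd2e6969) (nat_lit 0))))) (N (nat_lit 3467) (N (nat_lit 3462) (N (nat_lit 3461) (N (nat_lit 3460) (L (E (nat_lit 3) (nat_lit 0x27052ea96b) (nat_lit 0))) (L (E (nat_lit 3) (nat_lit 0x27152f296f) (nat_lit 0)))) (L (E (nat_lit 3) (nat_lit 0x275d31a97f) (nat_lit 0)))) (N (nat_lit 3463) (L (E (nat_lit 3) (nat_lit 0x27ad346997) (nat_lit 0))) (N (nat_lit 3465) (N (nat_lit 3464) (L (E (nat_lit 3) (nat_lit 0x2a05472a2d) (nat_lit 0))) (L (E (nat_lit 3) (nat_lit 0x2a0d476a2f) (nat_lit 0)))) (N (nat_lit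 3466) (L (E (nat_lit 3) (nat_lit 0x2af54f6a6d) (nat_lit 0))) (L (E (nat_lit 3) (nat_lit 0x2b1d51aa81) (nat_lit 0))))))) (N (nat_lit 3472) (N (nat_lit 3471) (N (nat_lit 3470) (N (nat_lit 3469) (N (nat_lit 3468) (L (E (nat_lit 3) (nat_lit 0x1604a9e52b) (nat_lit 0))) (L (E (nat_lit 3) (nat_lit 0x164cabe535) (nat_lit 0)))) (L (E (nat_lit 3) (nat_lit 0x16a4aee549) (nat_lit 0)))) (L (E (nat_lit 3) (nat_lit 0x230d116861) (nat_lit 0)))) (L (E (nat_lit 3) (nat_lit 0x23b516e885) (nat_lit 0)))) (N (nat_lit 3473) (L (E (nat_lit 3) (nat_lit 0x26952de947) (nat_lit 0))) (N (nat_lit 3474) (L (E (nat_lit 3) (nat_lit 0x26e52fe953) (nat_lit 0))) (L (E (nat_lit 3) (nat_lit 0x272d326963) (nat_lit 0)))))))) (cl68)) (N (nat_lit 3572) (cl69) (cl70))) (L (E (nat_lit 3) (nat_lit 0x31e58ea001) (nat_lit 0))))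
def cl72 : RA := N (nat_lit 3000) (N (nat_lit 2534) (N (nat_lit 2533) (N (nat_lit 2344) (N (nat_lit 2294) (N (nat_lit 2245) (cl43) (cl44)) (N (nat_lit 2343) (cl45) (L (E (nat_lit 3) (nat_lit 0x32dc00a003) (nat_lit 0))))) (cl49)) (L (E (nat_lit 3) (nat_lit 0x326c006001) (nat_lit 0)))) (N (nat_lit 2773) (N (nat_lit 2669) (cl52) (N (nat_lit 2715) (cl53) (cl54))) (N (nat_lit 2877) (N (nat_lit 2813) (cl55) (cl56)) (N (nat_lit 2956) (cl58) (cl59))))) (N (nat_lit 3272) (N (nat_lit 3001) (L (E (nat_lit 3) (nat_lit 0x321400a001) (nat_lit 0))) (N (nat_lit 3138) (N (nat_lit 3068) (cl60) (N (nat_lit 3117) (cl61) (N (nat_lit 3135) (N (nat_lit 3127) (N (nat_lit 3123) (N (nat_lit 3120) (N (nat_lit 3118) (L (E (nat_lit 3) (nat_lit 0x36e5b1ed4b) (nat_lit 0))) (N (nat_lit 3119) (L (E (nat_lit 3) (nat_lit 0x7c43ce1d9) (nat_lit 0))) (L (E (nat_lit 3) (nat_lit 0x166cade529) (nat_lit 0))))) (N (nat_lit 3122) (N (nat_lit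 3121) (L (E (nat_lit 3) (nat_lit 0x1984c6a5f5) (nat_lit 0))) (L (E (nat_lit 3) (nat_lit 0x22cd106849) (nat_lit 0)))) (L (E (nat_lit 3) (nat_lit 0x230d12684b) (nat_lit 0))))) (N (nat_lit 3125) (N (nat_lit 3124) (L (E (nat_lit 3) (nat_lit 0x231d12e84f) (nat_lit 0))) (L (E (nat_lit 3) (nat_lit 0x2385162861) (nat_lit 0)))) (N (nat_lit 3126) (L (E (nat_lit 3) (nat_lit 0x26552ce92f) (nat_lit 0))) (L (E (nat_lit 3) (nat_lit 0x26952ea931) (nat_lit 0)))))) (N (nat_lit 3132) (N (nat_lit 3129) (N (nat_lit 3128) (L (E (nat_lit 3) (nat_lit 0x269d2ee933) (nat_lit 0))) (L (E (nat_lit 3) (nat_lit 0x26a52f2935) (nat_lit 0)))) (N (nat_lit 3131) (N (nat_lit 3130) (L (E (nat_lit 3) (nat_lit 0x2a554caa17) (nat_lit 0))) (L (E (nat_lit 3) (nat_lit 0x35fda9ed0f) (nat_lit 0)))) (L (E (nat_lit 3) (nat_lit 0x1614a92525) (nat_lit 0))))) (N (nat_lit 3133) (L (E (nat_lit 3) (nat_lit 0x26ad2d6943) (nat_lit 0))) (N (nat_lit 3134)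 (L (E (nat_lit 3) (nat_lit 0x26bd2de947) (nat_lit 0))) (L (E (nat_lit 3) (nat_lit 0x26ed2ee94b) (nat_lit 0))))))) (N (nat_lit 3136) (L (E (nat_lit 3) (nat_lit 0x33d598ac97) (nat_lit 0))) (N (nat_lit 3137) (L (E (nat_lit 3) (nat_lit 0x3685abed2f) (nat_lit 0))) (L (E (nat_lit 3) (nat_lit 0x16a4ab2539) (nat_lit 0)))))))) (N (nat_lit 3178) (cl62) (N (nat_lit 3221) (cl63) (cl64))))) (cl71))
def cl73 : RA := N (nat_lit 3646) (N (nat_lit 3635) (N (nat_lit 3631) (N (nat_lit 3629) (N (nat_lit 3628) (L (E (nat_lit 3) (nat_lit 0x268d2c695b) (nat_lit 0))) (L (E (nat_lit 3) (nat_lit 0x274d34696f) (nat_lit 0)))) (N (nat_lit 3630) (L (E (nat_lit 3) (nat_lit 0x2a5d4cea35) (nat_lit 0))) (L (E (nat_lit 3) (nat_lit 0x14349e64b1) (nat_lit 0))))) (N (nat_lit 3633) (N (nat_lit 3632) (L (E (nat_lit 3) (nat_lit 0x27cd3a6987) (nat_lit 0))) (L (E (nat_lit 3) (nat_lit 0x1714b4e56d) (nat_lit 0)))) (N (nat_lit 3634) (L (E (nat_lit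 3) (nat_lit 0x2004fc27a7) (nat_lit 0))) (L (E (nat_lit 3) (nat_lit 0x274d366971) (nat_lit 0)))))) (N (nat_lit 3639) (N (nat_lit 3636) (L (E (nat_lit 3) (nat_lit 0x27ad39a98d) (nat_lit 0))) (N (nat_lit 3638) (N (nat_lit 3637) (L (E (nat_lit 3) (nat_lit 0x2a654f2a3b) (nat_lit 0))) (L (E (nat_lit 3) (nat_lit 0x274d372945) (nat_lit 0)))) (L (E (nat_lit 3) (nat_lit 0x1704a9e539) (nat_lit 0))))) (N (nat_lit 3640) (L (E (nat_lit 3) (nat_lit 0x173cabe547) (nat_lit 0))) (N (nat_lit 3643) (N (nat_lit 3641) (L (E (nat_lit 3) (nat_lit 0x1764ade555) (nat_lit 0))) (N (nat_lit 3642) (L (E (nat_lit 3) (nat_lit 0x17a4b0a56d) (nat_lit 0))) (L (E (nat_lit 3) (nat_lit 0x1a0cc2a601) (nat_lit 0))))) (N (nat_lit 3645) (N (nat_lit 3644) (L (E (nat_lit 3) (nat_lit 0x1a14c2e603) (nat_lit 0))) (L (E (nat_lit 3) (nat_lit 0x23f510686d) (nat_lit 0)))) (L (E (nat_lit 3) (nat_lit 0x248d166897) (nat_lit 0)))))))) (N (nat_lit 3656)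 (N (nat_lit 3653) (N (nat_lit 3648) (N (nat_lit 3647) (L (E (nat_lit 3) (nat_lit 0x27dd2fe967) (nat_lit 0))) (L (E (nat_lit 3) (nat_lit 0x27e5302969) (nat_lit 0)))) (N (nat_lit 3651) (N (nat_lit 3650) (N (nat_lit 3649) (L (E (nat_lit 3) (nat_lit 0x2805322975) (nat_lit 0))) (L (E (nat_lit 3) (nat_lit 0x282533297d) (nat_lit 0)))) (L (E (nat_lit 3) (nat_lit 0x2aad466a1d) (nat_lit 0)))) (N (nat_lit 3652) (L (E (nat_lit 3) (nat_lit 0x2ae548aa2b) (nat_lit 0))) (L (E (nat_lit 3) (nat_lit 0x27a533e977) (nat_lit 0)))))) (N (nat_lit 3655) (N (nat_lit 3654) (L (E (nat_lit 3) (nat_lit 0x2034ffa78d) (nat_lit 0))) (L (E (nat_lit 3) (nat_lit 0x26e534e933) (nat_lit 0)))) (L (E (nat_lit 3) (nat_lit 0x274d386947) (nat_lit 0))))) (N (nat_lit 3661) (N (nat_lit 3658) (N (nat_lit 3657) (L (E (nat_lit 3) (nat_lit 0x1664aba53f) (nat_lit 0))) (L (E (nat_lit 3) (nat_lit 0x22c50ea857) (nat_lit 0)))) (N (nat_lit 3659) (L (E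 (nat_lit 3) (nat_lit 0x22d50f285b) (nat_lit 0))) (N (nat_lit 3660) (L (E (nat_lit 3) (nat_lit 0x245d1be8bd) (nat_lit 0))) (L (E (nat_lit 3) (nat_lit 0x26fd2fa95f) (nat_lit 0)))))) (N (nat_lit 3665) (N (nat_lit 3663) (N (nat_lit 3662) (L (E (nat_lit 3) (nat_lit 0x15e4a92527) (nat_lit 0))) (L (E (nat_lit 3) (nat_lit 0x22450c6849) (nat_lit 0)))) (N (nat_lit 3664) (L (E (nat_lit 3) (nat_lit 0x23e518e897) (nat_lit 0))) (L (E (nat_lit 3) (nat_lit 0x25c528e92d) (nat_lit 0))))) (N (nat_lit 3666) (L (E (nat_lit 3) (nat_lit 0x266d2ce941) (nat_lit 0))) (L (E (nat_lit 3) (nat_lit 0x276d34e977) (nat_lit 0)))))))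
def cl74 : RA := N (nat_lit 3728) (N (nat_lit 3717) (N (nat_lit 3707) (N (nat_lit 3703) (N (nat_lit 3701) (N (nat_lit 3700) (N (nat_lit 3699) (L (E (nat_lit 3) (nat_lit 0x236519a875) (nat_lit 0))) (L (E (nat_lit 3) (nat_lit 0x273d38a969) (nat_lit 0)))) (L (E (nat_lit 3) (nat_lit 0x1784b8e581) (nat_lit 0)))) (N (nat_lit 3702) (L (E (nat_lit 3) (nat_lit 0x23cd1aa883) (nat_lit 0))) (L (E (nat_lit 3) (nat_lit 0x24151ce897) (nat_lit 0))))) (N (nat_lit 3706) (N (nat_lit 3705) (N (nat_lit 3704) (L (E (nat_lit 3) (nat_lit 0x2715346957) (nat_lit 0))) (L (E (nat_lit 3) (nat_lit 0x275d36e967) (nat_lit 0)))) (L (E (nat_lit 3) (nat_lit 0x2a554eaa27) (nat_lit 0)))) (L (E (nat_lit 3) (nat_lit 0x231d17a85f) (nat_lit 0))))) (N (nat_lit 3713) (N (nat_lit 3711) (N (nat_lit 3709) (N (nat_lit 3708) (L (E (nat_lit 3) (nat_lit 0x3d2de82ef9) (nat_lit 0))) (L (E (nat_lit 3) (nat_lit 0x2814a1a021) (nat_lit 0)))) (N (nat_lit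 3710) (L (E (nat_lit 3) (nat_lit 0x4a458cea17) (nat_lit 0))) (L (E (nat_lit 3) (nat_lit 0x4a0dc72a45) (nat_lit 0))))) (N (nat_lit 3712) (L (E (nat_lit 3) (nat_lit 0x231516684d) (nat_lit 0))) (L (E (nat_lit 3) (nat_lit 0x23f51da87b) (nat_lit 0))))) (N (nat_lit 3715) (N (nat_lit 3714) (L (E (nat_lit 3) (nat_lit 0x269d32a933) (nat_lit 0))) (L (E (nat_lit 3) (nat_lit 0x2a55506a17) (nat_lit 0)))) (N (nat_lit 3716) (L (E (nat_lit 3) (nat_lit 0x22bd146883) (nat_lit 0))) (L (E (nat_lit 3) (nat_lit 0x2635302963) (nat_lit 0))))))) (N (nat_lit 3722) (N (nat_lit 3718) (L (E (nat_lit 3) (nat_lit 0x268d332977) (nat_lit 0))) (N (nat_lit 3721) (N (nat_lit 3719) (L (E (nat_lit 3) (nat_lit 0x165cafe52d) (nat_lit 0))) (N (nat_lit 3720) (L (E (nat_lit 3) (nat_lit 0x16b4b2e53d) (nat_lit 0))) (L (E (nat_lit 3) (nat_lit 0x20bd03a7bf) (nat_lit 0))))) (L (E (nat_lit 3) (nat_lit 0x170cab2549) (nat_lit 0))))) (N (nat_lit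 3723) (L (E (nat_lit 3) (nat_lit 0x1784afe56f) (nat_lit 0))) (N (nat_lit 3725) (N (nat_lit 3724) (L (E (nat_lit 3) (nat_lit 0x17b4b26581) (nat_lit 0))) (L (E (nat_lit 3) (nat_lit 0x241512a883) (nat_lit 0)))) (N (nat_lit 3726) (L (E (nat_lit 3) (nat_lit 0x241d12e885) (nat_lit 0))) (N (nat_lit 3727) (L (E (nat_lit 3) (nat_lit 0x24a51868b1) (nat_lit 0))) (L (E (nat_lit 3) (nat_lit 0x24ad1ae8c3) (nat_lit 0))))))))) (N (nat_lit 3740) (N (nat_lit 3730) (N (nat_lit 3729) (L (E (nat_lit 3) (nat_lit 0x27a52ee967) (nat_lit 0))) (L (E (nat_lit 3) (nat_lit 0x27e531a979) (nat_lit 0)))) (N (nat_lit 3736) (N (nat_lit 3734) (N (nat_lit 3733) (N (nat_lit 3732) (N (nat_lit 3731) (L (E (nat_lit 3) (nat_lit 0x281533e98d) (nat_lit 0))) (L (E (nat_lit 3) (nat_lit 0x2825346991) (nat_lit 0)))) (L (E (nat_lit 3) (nat_lit 0x36cda8ad33) (nat_lit 0)))) (L (E (nat_lit 3) (nat_lit 0x1764b0a56f) (nat_lit 0)))) (N (nat_lit 3735)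 (L (E (nat_lit 3) (nat_lit 0x23f5136883) (nat_lit 0))) (L (E (nat_lit 3) (nat_lit 0x243515e895) (nat_lit 0))))) (N (nat_lit 3738) (N (nat_lit 3737) (L (E (nat_lit 3) (nat_lit 0x243d162897) (nat_lit 0))) (L (E (nat_lit 3) (nat_lit 0x27752f2963) (nat_lit 0)))) (N (nat_lit 3739) (L (E (nat_lit 3) (nat_lit 0x27852fa967) (nat_lit 0))) (L (E (nat_lit 3) (nat_lit 0x27bd322977) (nat_lit 0))))))) (N (nat_lit 3751) (N (nat_lit 3744) (N (nat_lit 3742) (N (nat_lit 3741) (L (E (nat_lit 3) (nat_lit 0x1664af2571) (nat_lit 0))) (L (E (nat_lit 3) (nat_lit 0x22cd122887) (nat_lit 0)))) (N (nat_lit 3743) (L (E (nat_lit 3) (nat_lit 0x231d14e89b) (nat_lit 0))) (L (E (nat_lit 3) (nat_lit 0x264d2e2969) (nat_lit 0))))) (N (nat_lit 3748) (N (nat_lit 3746) (N (nat_lit 3745) (L (E (nat_lit 3) (nat_lit 0x269530a979) (nat_lit 0))) (L (E (nat_lit 3) (nat_lit 0x29ad49aa43) (nat_lit 0)))) (N (nat_lit 3747) (L (E (nat_lit 3) (nat_lit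 0x2a5d4eea6b) (nat_lit 0))) (L (E (nat_lit 3) (nat_lit 0x2a654f2a6d) (nat_lit 0))))) (N (nat_lit 3750) (N (nat_lit 3749) (L (E (nat_lit 3) (nat_lit 0x363dadad61) (nat_lit 0))) (L (E (nat_lit 3) (nat_lit 0x488cb2e219) (nat_lit 0)))) (L (E (nat_lit 3) (nat_lit 0x499515e41b) (nat_lit 0)))))) (N (nat_lit 3757) (N (nat_lit 3755) (N (nat_lit 3753) (N (nat_lit 3752) (L (E (nat_lit 3) (nat_lit 0x49cd4b2497) (nat_lit 0))) (L (E (nat_lit 3) (nat_lit 0x4a15a2e789) (nat_lit 0)))) (N (nat_lit 3754) (L (E (nat_lit 3) (nat_lit 0x48e5946725) (nat_lit 0))) (L (E (nat_lit 3) (nat_lit 0x2814066021) (nat_lit 0))))) (N (nat_lit 3756) (L (E (nat_lit 3) (nat_lit 0x4904afa3d7) (nat_lit 0))) (L (E (nat_lit 3) (nat_lit 0x4914b2e3e3) (nat_lit 0))))) (N (nat_lit 3760) (N (nat_lit 3759) (N (nat_lit 3758) (L (E (nat_lit 3) (nat_lit 0x2dc05a007) (nat_lit 0))) (L (E (nat_lit 3) (nat_lit 0x47c61361c3) (nat_lit 0)))) (L (E (nat_lit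 3) (nat_lit 0x15cc33e047) (nat_lit 0)))) (N (nat_lit 3763) (N (nat_lit 3762) (N (nat_lit 3761) (L (E (nat_lit 3) (nat_lit 0x299c7f20df) (nat_lit 0))) (L (E (nat_lit 3) (nat_lit 0x29b48160e1) (nat_lit 0)))) (L (E (nat_lit 3) (nat_lit 0x431d6be56b) (nat_lit 0)))) (N (nat_lit 3764) (L (E (nat_lit 3) (nat_lit 0x3a5d98a061) (nat_lit 0))) (L (E (nat_lit 3) (nat_lit 0x4396172a2b) (nat_lit 0)))))))))
def cl75 : RA := N (nat_lit 3782) (N (nat_lit 3773) (N (nat_lit 3769) (N (nat_lit 3768) (N (nat_lit 3767) (L (E (nat_lit 3) (nat_lit 0x1704abe547) (nat_lit 0))) (L (E (nat_lit 3) (nat_lit 0x1734ade555) (nat_lit 0)))) (L (E (nat_lit 3) (nat_lit 0x1764afe567) (nat_lit 0)))) (N (nat_lit 3770) (L (E (nat_lit 3) (nat_lit 0x177cb0a56d) (nat_lit 0))) (N (nat_lit 3772) (N (nat_lit 3771) (L (E (nat_lit 3) (nat_lit 0x23150c284d) (nat_lit 0))) (L (E (nat_lit 3) (nat_lit 0x2455162895) (nat_lit 0)))) (L (E (nat_lit 3) (nat_lit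 0x245d166897) (nat_lit 0)))))) (N (nat_lit 3777) (N (nat_lit 3775) (N (nat_lit 3774) (L (E (nat_lit 3) (nat_lit 0x248d18a8ab) (nat_lit 0))) (L (E (nat_lit 3) (nat_lit 0x27852ee95f) (nat_lit 0)))) (N (nat_lit 3776) (L (E (nat_lit 3) (nat_lit 0x279d2fa965) (nat_lit 0))) (L (E (nat_lit 3) (nat_lit 0x2805346989) (nat_lit 0))))) (N (nat_lit 3780) (N (nat_lit 3779) (N (nat_lit 3778) (L (E (nat_lit 3) (nat_lit 0x281534e98d) (nat_lit 0))) (L (E (nat_lit 3) (nat_lit 0x3725acad4b) (nat_lit 0)))) (L (E (nat_lit 3) (nat_lit 0x165cab253d) (nat_lit 0)))) (N (nat_lit 3781) (L (E (nat_lit 3) (nat_lit 0x169cad654b) (nat_lit 0))) (L (E (nat_lit 3) (nat_lit 0x16ecafe55f) (nat_lit 0))))))) (N (nat_lit 3792) (N (nat_lit 3787) (N (nat_lit 3786) (N (nat_lit 3784) (N (nat_lit 3783) (L (E (nat_lit 3) (nat_lit 0x172cb26573) (nat_lit 0))) (L (E (nat_lit 3) (nat_lit 0x20a4fe27cf) (nat_lit 0)))) (N (nat_lit 3785) (L (E (nat_lit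 3) (nat_lit 0x20ed01e7ed) (nat_lit 0))) (L (E (nat_lit 3) (nat_lit 0x2315106867) (nat_lit 0))))) (L (E (nat_lit 3) (nat_lit 0x23bd15e88b) (nat_lit 0)))) (N (nat_lit 3790) (N (nat_lit 3788) (L (E (nat_lit 3) (nat_lit 0x241518e8a3) (nat_lit 0))) (N (nat_lit 3789) (L (E (nat_lit 3) (nat_lit 0x24451ae8b3) (nat_lit 0))) (L (E (nat_lit 3) (nat_lit 0x26752ba943) (nat_lit 0))))) (N (nat_lit 3791) (L (E (nat_lit 3) (nat_lit 0x268d2c6949) (nat_lit 0))) (L (E (nat_lit 3) (nat_lit 0x26ed2ee959) (nat_lit 0)))))) (N (nat_lit 3803) (N (nat_lit 3798) (N (nat_lit 3794) (N (nat_lit 3793) (L (E (nat_lit 3) (nat_lit 0x274d32296f) (nat_lit 0))) (L (E (nat_lit 3) (nat_lit 0x3115816beb) (nat_lit 0)))) (N (nat_lit 3796) (N (nat_lit 3795) (L (E (nat_lit 3) (nat_lit 0x15bca8653d) (nat_lit 0))) (L (E (nat_lit 3) (nat_lit 0x164cace55d) (nat_lit 0)))) (N (nat_lit 3797) (L (E (nat_lit 3) (nat_lit 0x1f74f627a9) (nat_lit 0)))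 (L (E (nat_lit 3) (nat_lit 0x22bd0fe879) (nat_lit 0)))))) (N (nat_lit 3799) (L (E (nat_lit 3) (nat_lit 0x231d12e88d) (nat_lit 0))) (N (nat_lit 3801) (N (nat_lit 3800) (L (E (nat_lit 3) (nat_lit 0x235d14e89b) (nat_lit 0))) (L (E (nat_lit 3) (nat_lit 0x25d5296947) (nat_lit 0)))) (N (nat_lit 3802) (L (E (nat_lit 3) (nat_lit 0x269d2ee96f) (nat_lit 0))) (L (E (nat_lit 3) (nat_lit 0x26e531297d) (nat_lit 0))))))) (N (nat_lit 3807) (N (nat_lit 3804) (L (E (nat_lit 3) (nat_lit 0x274d346999) (nat_lit 0))) (N (nat_lit 3805) (L (E (nat_lit 3) (nat_lit 0x295544ea21) (nat_lit 0))) (N (nat_lit 3806) (L (E (nat_lit 3) (nat_lit 0x30c580ebff) (nat_lit 0))) (L (E (nat_lit 3) (nat_lit 0x36d5b1ad81) (nat_lit 0)))))) (L (E (nat_lit 3) (nat_lit 0x1734b2e567) (nat_lit 0))))))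
def cl76 : RA := N (nat_lit 3867) (N (nat_lit 3855) (N (nat_lit 3847) (N (nat_lit 3844) (N (nat_lit 3843) (N (nat_lit 3842) (L (E (nat_lit 3) (nat_lit 0x1704b52547) (nat_lit 0))) (L (E (nat_lit 3) (nat_lit 0x208d0167a7) (nat_lit 0)))) (L (E (nat_lit 3) (nat_lit 0x22cd12e849) (nat_lit 0)))) (N (nat_lit 3845) (L (E (nat_lit 3) (nat_lit 0x231515684d) (nat_lit 0))) (N (nat_lit 3846) (L (E (nat_lit 3) (nat_lit 0x2335166855) (nat_lit 0))) (L (E (nat_lit 3) (nat_lit 0x238518a861) (nat_lit 0)))))) (N (nat_lit 3851) (N (nat_lit 3848) (L (E (nat_lit 3) (nat_lit 0x27ad3a6969) (nat_lit 0))) (N (nat_lit 3850) (N (nat_lit 3849) (L (E (nat_lit 3) (nat_lit 0x2a0d4cea11) (nat_lit 0))) (L (E (nat_lit 3) (nat_lit 0x369db1ed27) (nat_lit 0)))) (L (E (nat_lit 3) (nat_lit 0x372db66d4d) (nat_lit 0))))) (N (nat_lit 3853) (N (nat_lit 3852) (L (E (nat_lit 3) (nat_lit 0x12f493e485) (nat_lit 0))) (L (E (nat_lit 3) (nat_lit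 0x1604aba53f) (nat_lit 0)))) (N (nat_lit 3854) (L (E (nat_lit 3) (nat_lit 0x226d0f285b) (nat_lit 0))) (L (E (nat_lit 3) (nat_lit 0x23fd1ba8bb) (nat_lit 0))))))) (N (nat_lit 3862) (N (nat_lit 3860) (N (nat_lit 3857) (N (nat_lit 3856) (L (E (nat_lit 3) (nat_lit 0x24551e68d5) (nat_lit 0))) (L (E (nat_lit 3) (nat_lit 0x25e52ae93d) (nat_lit 0)))) (N (nat_lit 3859) (N (nat_lit 3858) (L (E (nat_lit 3) (nat_lit 0x25f52b6941) (nat_lit 0))) (L (E (nat_lit 3) (nat_lit 0x2745352989) (nat_lit 0)))) (L (E (nat_lit 3) (nat_lit 0x3585a76d1f) (nat_lit 0))))) (N (nat_lit 3861) (L (E (nat_lit 3) (nat_lit 0x139c9924a7) (nat_lit 0))) (L (E (nat_lit 3) (nat_lit 0x1624ad6547) (nat_lit 0))))) (N (nat_lit 3866) (N (nat_lit 3864) (N (nat_lit 3863) (L (E (nat_lit 3) (nat_lit 0x162cada549) (nat_lit 0))) (L (E (nat_lit 3) (nat_lit 0x1664af2555) (nat_lit 0)))) (N (nat_lit 3865) (L (E (nat_lit 3) (nat_lit 0x1674afa559) (nat_lit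 0))) (L (E (nat_lit 3) (nat_lit 0x19dccb2635) (nat_lit 0))))) (L (E (nat_lit 3) (nat_lit 0x231d14e87f) (nat_lit 0)))))) (N (nat_lit 3878) (N (nat_lit 3874) (N (nat_lit 3870) (N (nat_lit 3868) (L (E (nat_lit 3) (nat_lit 0x241d1d28c3) (nat_lit 0))) (N (nat_lit 3869) (L (E (nat_lit 3) (nat_lit 0x26a5312963) (nat_lit 0))) (L (E (nat_lit 3) (nat_lit 0x274d36698b) (nat_lit 0))))) (N (nat_lit 3872) (N (nat_lit 3871) (L (E (nat_lit 3) (nat_lit 0x27ad39a9a5) (nat_lit 0))) (L (E (nat_lit 3) (nat_lit 0x27dd3b69b7) (nat_lit 0)))) (N (nat_lit 3873) (L (E (nat_lit 3) (nat_lit 0x2fad796ba7) (nat_lit 0))) (L (E (nat_lit 3) (nat_lit 0x15fcae2521) (nat_lit 0)))))) (N (nat_lit 3877) (N (nat_lit 3875) (L (E (nat_lit 3) (nat_lit 0x16ecb5a549) (nat_lit 0))) (N (nat_lit 3876) (L (E (nat_lit 3) (nat_lit 0x1fc4fc2789) (nat_lit 0))) (L (E (nat_lit 3) (nat_lit 0x20bd04a7bf) (nat_lit 0))))) (L (E (nat_lit 3) (nat_lit 0x22a512e847)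 (nat_lit 0))))) (N (nat_lit 3884) (N (nat_lit 3882) (N (nat_lit 3881) (N (nat_lit 3880) (N (nat_lit 3879) (L (E (nat_lit 3) (nat_lit 0x231516a855) (nat_lit 0))) (L (E (nat_lit 3) (nat_lit 0x23f51de883) (nat_lit 0)))) (L (E (nat_lit 3) (nat_lit 0x26d5346941) (nat_lit 0)))) (L (E (nat_lit 3) (nat_lit 0x29e54cea0f) (nat_lit 0)))) (N (nat_lit 3883) (L (E (nat_lit 3) (nat_lit 0x163cb0a559) (nat_lit 0))) (L (E (nat_lit 3) (nat_lit 0x164cb1255d) (nat_lit 0))))) (N (nat_lit 3888) (N (nat_lit 3886) (N (nat_lit 3885) (L (E (nat_lit 3) (nat_lit 0x1684b3256d) (nat_lit 0))) (L (E (nat_lit 3) (nat_lit 0x175cba65ab) (nat_lit 0)))) (N (nat_lit 3887) (L (E (nat_lit 3) (nat_lit 0x22f5166883) (nat_lit 0))) (L (E (nat_lit 3) (nat_lit 0x234518a895) (nat_lit 0))))) (N (nat_lit 3890) (N (nat_lit 3889) (L (E (nat_lit 3) (nat_lit 0x234d18e897) (nat_lit 0))) (L (E (nat_lit 3) (nat_lit 0x23ad1c68b3) (nat_lit 0)))) (L (E (nat_lit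 3) (nat_lit 0x23ed1e68c5) (nat_lit 0)))))))
def cl77 : RA := N (nat_lit 3913) (N (nat_lit 3901) (N (nat_lit 3895) (N (nat_lit 3894) (N (nat_lit 3893) (N (nat_lit 3892) (L (E (nat_lit 3) (nat_lit 0x2635302957) (nat_lit 0))) (L (E (nat_lit 3) (nat_lit 0x267d32a967) (nat_lit 0)))) (L (E (nat_lit 3) (nat_lit 0x26c534a975) (nat_lit 0)))) (L (E (nat_lit 3) (nat_lit 0x26cd34e977) (nat_lit 0)))) (N (nat_lit 3896) (L (E (nat_lit 3) (nat_lit 0x26d5352979) (nat_lit 0))) (N (nat_lit 3900) (N (nat_lit 3899) (N (nat_lit 3898) (N (nat_lit 3897) (L (E (nat_lit 3) (nat_lit 0x35b5ac2d33) (nat_lit 0))) (L (E (nat_lit 3) (nat_lit 0x3625afad4d) (nat_lit 0)))) (L (E (nat_lit 3) (nat_lit 0x13c49ae49f) (nat_lit 0)))) (L (E (nat_lit 3) (nat_lit 0x15fcabe52d) (nat_lit 0)))) (L (E (nat_lit 3) (nat_lit 0x16d4b2e559) (nat_lit 0)))))) (N (nat_lit 3909) (N (nat_lit 3906) (N (nat_lit 3905) (N (nat_lit 3903) (N (nat_lit 3902) (L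 (E (nat_lit 3) (nat_lit 0x1964c72605) (nat_lit 0))) (L (E (nat_lit 3) (nat_lit 0x19bcca2617) (nat_lit 0)))) (N (nat_lit 3904) (L (E (nat_lit 3) (nat_lit 0x20a501e7cf) (nat_lit 0))) (L (E (nat_lit 3) (nat_lit 0x223d0e2847) (nat_lit 0))))) (L (E (nat_lit 3) (nat_lit 0x22ed12e85d) (nat_lit 0)))) (N (nat_lit 3907) (L (E (nat_lit 3) (nat_lit 0x234d15e871) (nat_lit 0))) (N (nat_lit 3908) (L (E (nat_lit 3) (nat_lit 0x239d18a883) (nat_lit 0))) (L (E (nat_lit 3) (nat_lit 0x23a518e885) (nat_lit 0)))))) (N (nat_lit 3911) (N (nat_lit 3910) (L (E (nat_lit 3) (nat_lit 0x23ad192887) (nat_lit 0))) (L (E (nat_lit 3) (nat_lit 0x24451e68b3) (nat_lit 0)))) (N (nat_lit 3912) (L (E (nat_lit 3) (nat_lit 0x26752f2943) (nat_lit 0))) (L (E (nat_lit 3) (nat_lit 0x26d5322953) (nat_lit 0))))))) (N (nat_lit 3923) (N (nat_lit 3914) (L (E (nat_lit 3) (nat_lit 0x325d8f2c57) (nat_lit 0))) (N (nat_lit 3918) (N (nat_lit 3917) (N (nat_lit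 3916) (N (nat_lit 3915) (L (E (nat_lit 3) (nat_lit 0x36f5b42d5f) (nat_lit 0))) (L (E (nat_lit 3) (nat_lit 0x49c5a76539) (nat_lit 0)))) (L (E (nat_lit 3) (nat_lit 0x4a15f0284f) (nat_lit 0)))) (L (E (nat_lit 3) (nat_lit 0x40405a009) (nat_lit 0)))) (N (nat_lit 3921) (N (nat_lit 3920) (N (nat_lit 3919) (L (E (nat_lit 3) (nat_lit 0x2f84ab202f) (nat_lit 0))) (L (E (nat_lit 3) (nat_lit 0x306cb26031) (nat_lit 0)))) (L (E (nat_lit 3) (nat_lit 0x2d2490e18d) (nat_lit 0)))) (N (nat_lit 3922) (L (E (nat_lit 3) (nat_lit 0x2f84ab21bf) (nat_lit 0))) (L (E (nat_lit 3) (nat_lit 0x3084b321c9) (nat_lit 0))))))) (N (nat_lit 3937) (N (nat_lit 3931) (N (nat_lit 3927) (N (nat_lit 3926) (N (nat_lit 3925) (N (nat_lit 3924) (L (E (nat_lit 3) (nat_lit 0x30b4b4e1cf) (nat_lit 0))) (L (E (nat_lit 3) (nat_lit 0x43454ca8a9) (nat_lit 0)))) (L (E (nat_lit 3) (nat_lit 0x295512a405) (nat_lit 0)))) (L (E (nat_lit 3) (nat_lit 0x29fd182407)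 (nat_lit 0)))) (N (nat_lit 3929) (N (nat_lit 3928) (L (E (nat_lit 3) (nat_lit 0x469625ae6d) (nat_lit 0))) (L (E (nat_lit 3) (nat_lit 0x36e4b5e0d5) (nat_lit 0)))) (N (nat_lit 3930) (L (E (nat_lit 3) (nat_lit 0x27150261d7) (nat_lit 0))) (L (E (nat_lit 3) (nat_lit 0x295512a1db) (nat_lit 0)))))) (N (nat_lit 3936) (N (nat_lit 3934) (N (nat_lit 3933) (N (nat_lit 3932) (L (E (nat_lit 3) (nat_lit 0x436579e549) (nat_lit 0))) (L (E (nat_lit 3) (nat_lit 0x4375946625) (nat_lit 0)))) (L (E (nat_lit 3) (nat_lit 0x437d98a647) (nat_lit 0)))) (N (nat_lit 3935) (L (E (nat_lit 3) (nat_lit 0x1d947a6313) (nat_lit 0))) (L (E (nat_lit 3) (nat_lit 0x165cada527) (nat_lit 0))))) (L (E (nat_lit 3) (nat_lit 0x16fcb2e547) (nat_lit 0))))) (N (nat_lit 3939) (N (nat_lit 3938) (L (E (nat_lit 3) (nat_lit 0x19bcc8e5ff) (nat_lit 0))) (L (E (nat_lit 3) (nat_lit 0x231512e84f) (nat_lit 0)))) (L (E (nat_lit 3) (nat_lit 0x23bd186871) (nat_lit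 0))))))
def cl78 : RA := N (nat_lit 3958) (N (nat_lit 3946) (N (nat_lit 3944) (N (nat_lit 3942) (N (nat_lit 3941) (L (E (nat_lit 3) (nat_lit 0x23cd18e875) (nat_lit 0))) (L (E (nat_lit 3) (nat_lit 0x268d2ea931) (nat_lit 0)))) (N (nat_lit 3943) (L (E (nat_lit 3) (nat_lit 0x274d34a953) (nat_lit 0))) (L (E (nat_lit 3) (nat_lit 0x278d372963) (nat_lit 0))))) (N (nat_lit 3945) (L (E (nat_lit 3) (nat_lit 0x27d539e977) (nat_lit 0))) (L (E (nat_lit 3) (nat_lit 0x33fc006001) (nat_lit 0))))) (N (nat_lit 3952) (N (nat_lit 3949) (N (nat_lit 3947) (L (E (nat_lit 3) (nat_lit 0x16b4afe555) (nat_lit 0))) (N (nat_lit 3948) (L (E (nat_lit 3) (nat_lit 0x170cb2e56d) (nat_lit 0))) (L (E (nat_lit 3) (nat_lit 0x174cb5257f) (nat_lit 0))))) (N (nat_lit 3951) (N (nat_lit 3950) (L (E (nat_lit 3) (nat_lit 0x233d13a875) (nat_lit 0))) (L (E (nat_lit 3) (nat_lit 0x238515e881) (nat_lit 0)))) (L (E (nat_lit 3) (nat_lit 0x270d322965)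 (nat_lit 0))))) (N (nat_lit 3956) (N (nat_lit 3954) (N (nat_lit 3953) (L (E (nat_lit 3) (nat_lit 0x274533e971) (nat_lit 0))) (L (E (nat_lit 3) (nat_lit 0x27a537698d) (nat_lit 0)))) (N (nat_lit 3955) (L (E (nat_lit 3) (nat_lit 0x2abd502a55) (nat_lit 0))) (L (E (nat_lit 3) (nat_lit 0x3605a9ed27) (nat_lit 0))))) (N (nat_lit 3957) (L (E (nat_lit 3) (nat_lit 0x4a4d52e0b7) (nat_lit 0))) (L (E (nat_lit 3) (nat_lit 0x1704ae6549) (nat_lit 0))))))) (N (nat_lit 3970) (N (nat_lit 3962) (N (nat_lit 3960) (N (nat_lit 3959) (L (E (nat_lit 3) (nat_lit 0x237d10e861) (nat_lit 0))) (L (E (nat_lit 3) (nat_lit 0x240d162883) (nat_lit 0)))) (N (nat_lit 3961) (L (E (nat_lit 3) (nat_lit 0x245518a897) (nat_lit 0))) (L (E (nat_lit 3) (nat_lit 0x273d2ee94f) (nat_lit 0))))) (N (nat_lit 3966) (N (nat_lit 3964) (N (nat_lit 3963) (L (E (nat_lit 3) (nat_lit 0x165ca8e52b) (nat_lit 0))) (L (E (nat_lit 3) (nat_lit 0x16b4aba53b) (nat_lit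 0)))) (N (nat_lit 3965) (L (E (nat_lit 3) (nat_lit 0x16e4ad6545) (nat_lit 0))) (L (E (nat_lit 3) (nat_lit 0x172cafe559) (nat_lit 0))))) (N (nat_lit 3968) (N (nat_lit 3967) (L (E (nat_lit 3) (nat_lit 0x19acc3a5ff) (nat_lit 0))) (L (E (nat_lit 3) (nat_lit 0x240d162887) (nat_lit 0)))) (N (nat_lit 3969) (L (E (nat_lit 3) (nat_lit 0x245518a89b) (nat_lit 0))) (L (E (nat_lit 3) (nat_lit 0x24951ba8b3) (nat_lit 0))))))) (N (nat_lit 3975) (N (nat_lit 3972) (N (nat_lit 3971) (L (E (nat_lit 3) (nat_lit 0x27cd346979) (nat_lit 0))) (L (E (nat_lit 3) (nat_lit 0x15fcab251f) (nat_lit 0)))) (N (nat_lit 3974) (N (nat_lit 3973) (L (E (nat_lit 3) (nat_lit 0x26fd32a949) (nat_lit 0))) (L (E (nat_lit 3) (nat_lit 0x274d352957) (nat_lit 0)))) (L (E (nat_lit 3) (nat_lit 0x27cd3a2979) (nat_lit 0))))) (N (nat_lit 3982) (N (nat_lit 3980) (N (nat_lit 3978) (N (nat_lit 3977) (N (nat_lit 3976) (L (E (nat_lit 3) (nat_lit 0x302d7cab99)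 (nat_lit 0))) (L (E (nat_lit 3) (nat_lit 0x30857f6ba9) (nat_lit 0)))) (L (E (nat_lit 3) (nat_lit 0x35d5a96d0b) (nat_lit 0)))) (N (nat_lit 3979) (L (E (nat_lit 3) (nat_lit 0x142c9de4d3) (nat_lit 0))) (L (E (nat_lit 3) (nat_lit 0x15fcab253b) (nat_lit 0))))) (N (nat_lit 3981) (L (E (nat_lit 3) (nat_lit 0x169cb0255f) (nat_lit 0))) (L (E (nat_lit 3) (nat_lit 0x23a518289b) (nat_lit 0))))) (N (nat_lit 3983) (L (E (nat_lit 3) (nat_lit 0x268d2f2959) (nat_lit 0))) (N (nat_lit 3985) (N (nat_lit 3984) (L (E (nat_lit 3) (nat_lit 0x277536e991) (nat_lit 0))) (L (E (nat_lit 3) (nat_lit 0x27bd39a9a7) (nat_lit 0)))) (L (E (nat_lit 3) (nat_lit 0x29fd4aea33) (nat_lit 0))))))))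
def cl79 : RA := N (nat_lit 4009) (N (nat_lit 4008) (N (nat_lit 3997) (N (nat_lit 3993) (N (nat_lit 3991) (N (nat_lit 3989) (N (nat_lit 3988) (L (E (nat_lit 3) (nat_lit 0x36c5b1ed67) (nat_lit 0))) (L (E (nat_lit 3) (nat_lit 0x167cae256d) (nat_lit 0)))) (N (nat_lit 3990) (L (E (nat_lit 3) (nat_lit 0x194cc4a621) (nat_lit 0))) (L (E (nat_lit 3) (nat_lit 0x198cc6a631) (nat_lit 0))))) (N (nat_lit 3992) (L (E (nat_lit 3) (nat_lit 0x22d510687f) (nat_lit 0))) (L (E (nat_lit 3) (nat_lit 0x231d12a891) (nat_lit 0))))) (N (nat_lit 3996) (N (nat_lit 3994) (L (E (nat_lit 3) (nat_lit 0x26ad2f2975) (nat_lit 0))) (N (nat_lit 3995) (L (E (nat_lit 3) (nat_lit 0x270d32298d) (nat_lit 0))) (L (E (nat_lit 3) (nat_lit 0x132c98e4ab) (nat_lit 0))))) (L (E (nat_lit 3) (nat_lit 0x1564aaa53b) (nat_lit 0))))) (N (nat_lit 4003) (N (nat_lit 4001) (N (nat_lit 3998) (L (E (nat_lit 3) (nat_lit 0x15c4ada54f) (nat_lit 0))) (N (nat_lit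 3999) (L (E (nat_lit 3) (nat_lit 0x15fcaf655d) (nat_lit 0))) (N (nat_lit 4000) (L (E (nat_lit 3) (nat_lit 0x1f84fba7bf) (nat_lit 0))) (L (E (nat_lit 3) (nat_lit 0x22a514a883) (nat_lit 0)))))) (N (nat_lit 4002) (L (E (nat_lit 3) (nat_lit 0x230517a89b) (nat_lit 0))) (L (E (nat_lit 3) (nat_lit 0x231518289f) (nat_lit 0))))) (N (nat_lit 4005) (N (nat_lit 4004) (L (E (nat_lit 3) (nat_lit 0x231d1868a1) (nat_lit 0))) (L (E (nat_lit 3) (nat_lit 0x25dd2e6957) (nat_lit 0)))) (N (nat_lit 4007) (N (nat_lit 4006) (L (E (nat_lit 3) (nat_lit 0x269d346981) (nat_lit 0))) (L (E (nat_lit 3) (nat_lit 0x26dd366991) (nat_lit 0)))) (L (E (nat_lit 3) (nat_lit 0x29954c2a43) (nat_lit 0))))))) (L (E (nat_lit 3) (nat_lit 0x3315982ca3) (nat_lit 0)))) (N (nat_lit 4028) (N (nat_lit 4022) (N (nat_lit 4017) (N (nat_lit 4013) (N (nat_lit 4011) (N (nat_lit 4010) (L (E (nat_lit 3) (nat_lit 0x15c4a8e523) (nat_lit 0))) (L (E (nat_lit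 3) (nat_lit 0x231512e86b) (nat_lit 0)))) (N (nat_lit 4012) (L (E (nat_lit 3) (nat_lit 0x23b518288f) (nat_lit 0))) (L (E (nat_lit 3) (nat_lit 0x269d2f294d) (nat_lit 0))))) (N (nat_lit 4015) (N (nat_lit 4014) (L (E (nat_lit 3) (nat_lit 0x2a554cea39) (nat_lit 0))) (L (E (nat_lit 3) (nat_lit 0x30d581abdf) (nat_lit 0)))) (N (nat_lit 4016) (L (E (nat_lit 3) (nat_lit 0x33c59a2ca3) (nat_lit 0))) (L (E (nat_lit 3) (nat_lit 0x15c4ada53f) (nat_lit 0)))))) (N (nat_lit 4018) (L (E (nat_lit 3) (nat_lit 0x226d12e86b) (nat_lit 0))) (N (nat_lit 4019) (L (E (nat_lit 3) (nat_lit 0x25f52f294d) (nat_lit 0))) (N (nat_lit 4020) (L (E (nat_lit 3) (nat_lit 0x26a534a973) (nat_lit 0))) (N (nat_lit 4021) (L (E (nat_lit 3) (nat_lit 0x29c54daa3f) (nat_lit 0))) (L (E (nat_lit 3) (nat_lit 0x1644ade549) (nat_lit 0)))))))) (N (nat_lit 4027) (N (nat_lit 4024) (N (nat_lit 4023) (L (E (nat_lit 3) (nat_lit 0x164cae254b) (nat_lit 0)))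 (L (E (nat_lit 3) (nat_lit 0x16dcb2e571) (nat_lit 0)))) (N (nat_lit 4026) (N (nat_lit 4025) (L (E (nat_lit 3) (nat_lit 0x2305136877) (nat_lit 0))) (L (E (nat_lit 3) (nat_lit 0x262d2ce947) (nat_lit 0)))) (L (E (nat_lit 3) (nat_lit 0x26352d2949) (nat_lit 0))))) (L (E (nat_lit 3) (nat_lit 0x268d2fa959) (nat_lit 0))))) (N (nat_lit 4037) (N (nat_lit 4033) (N (nat_lit 4030) (N (nat_lit 4029) (L (E (nat_lit 3) (nat_lit 0x26dd322969) (nat_lit 0))) (L (E (nat_lit 3) (nat_lit 0x26e532696b) (nat_lit 0)))) (N (nat_lit 4032) (N (nat_lit 4031) (L (E (nat_lit 3) (nat_lit 0x15fcac255d) (nat_lit 0))) (L (E (nat_lit 3) (nat_lit 0x1644ae656f) (nat_lit 0)))) (L (E (nat_lit 3) (nat_lit 0x16dcb36597) (nat_lit 0))))) (N (nat_lit 4035) (N (nat_lit 4034) (L (E (nat_lit 3) (nat_lit 0x16ecb3e59b) (nat_lit 0))) (L (E (nat_lit 3) (nat_lit 0x230513e89b) (nat_lit 0)))) (N (nat_lit 4036) (L (E (nat_lit 3) (nat_lit 0x23551668af)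 (nat_lit 0))) (L (E (nat_lit 3) (nat_lit 0x25dd2b6957) (nat_lit 0)))))) (N (nat_lit 4039) (N (nat_lit 4038) (L (E (nat_lit 3) (nat_lit 0x261d2ce963) (nat_lit 0))) (L (E (nat_lit 3) (nat_lit 0x262d2d6967) (nat_lit 0)))) (N (nat_lit 4040) (L (E (nat_lit 3) (nat_lit 0x268d30297d) (nat_lit 0))) (N (nat_lit 4042) (N (nat_lit 4041) (L (E (nat_lit 3) (nat_lit 0x26cd32298d) (nat_lit 0))) (L (E (nat_lit 3) (nat_lit 0x272d3529a5) (nat_lit 0)))) (L (E (nat_lit 3) (nat_lit 0x274535e9ab) (nat_lit 0))))))))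
def cl80 : RA := N (nat_lit 3766) (N (nat_lit 3765) (N (nat_lit 3698) (N (nat_lit 3667) (cl73) (N (nat_lit 3688) (N (nat_lit 3679) (N (nat_lit 3672) (N (nat_lit 3669) (N (nat_lit 3668) (L (E (nat_lit 3) (nat_lit 0x2775352979) (nat_lit 0))) (L (E (nat_lit 3) (nat_lit 0x301d7aaba9) (nat_lit 0)))) (N (nat_lit 3671) (N (nat_lit 3670) (L (E (nat_lit 3) (nat_lit 0x1fc4fce7ab) (nat_lit 0))) (L (E (nat_lit 3) (nat_lit 0x234518a883) (nat_lit 0)))) (L (E (nat_lit 3) (nat_lit 0x2355192887) (nat_lit 0))))) (N (nat_lit 3674) (N (nat_lit 3673) (L (E (nat_lit 3) (nat_lit 0x26cd34e967) (nat_lit 0))) (L (E (nat_lit 3) (nat_lit 0x27bd3d29a9) (nat_lit 0)))) (N (nat_lit 3676) (N (nat_lit 3675) (L (E (nat_lit 3) (nat_lit 0x3d4de96f1d) (nat_lit 0))) (L (E (nat_lit 3) (nat_lit 0x281404e021) (nat_lit 0)))) (N (nat_lit 3678) (N (nat_lit 3677) (L (E (nat_lit 3) (nat_lit 0x392cfc6035) (nat_lit 0))) (L (E (nat_lit 3) (nat_lit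 0x244d15289b) (nat_lit 0)))) (L (E (nat_lit 3) (nat_lit 0x274d2c6959) (nat_lit 0))))))) (N (nat_lit 3684) (N (nat_lit 3681) (N (nat_lit 3680) (L (E (nat_lit 3) (nat_lit 0x23150f285b) (nat_lit 0))) (L (E (nat_lit 3) (nat_lit 0x1734ae6555) (nat_lit 0)))) (N (nat_lit 3682) (L (E (nat_lit 3) (nat_lit 0x23a5106869) (nat_lit 0))) (N (nat_lit 3683) (L (E (nat_lit 3) (nat_lit 0x27352ce94b) (nat_lit 0))) (L (E (nat_lit 3) (nat_lit 0x280d35298b) (nat_lit 0)))))) (N (nat_lit 3687) (N (nat_lit 3685) (L (E (nat_lit 3) (nat_lit 0x3da5e3ef03) (nat_lit 0))) (N (nat_lit 3686) (L (E (nat_lit 3) (nat_lit 0x173caee56d) (nat_lit 0))) (L (E (nat_lit 3) (nat_lit 0x23bd116881) (nat_lit 0))))) (L (E (nat_lit 3) (nat_lit 0x240d142897) (nat_lit 0)))))) (N (nat_lit 3697) (N (nat_lit 3693) (N (nat_lit 3691) (N (nat_lit 3690) (N (nat_lit 3689) (L (E (nat_lit 3) (nat_lit 0x274d2de965) (nat_lit 0))) (L (E (nat_lit 3) (nat_lit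 0x2b1d4e2a67) (nat_lit 0)))) (L (E (nat_lit 3) (nat_lit 0x3685a8ad3b) (nat_lit 0)))) (N (nat_lit 3692) (L (E (nat_lit 3) (nat_lit 0x27cd322987) (nat_lit 0))) (L (E (nat_lit 3) (nat_lit 0x1624afe529) (nat_lit 0))))) (N (nat_lit 3694) (L (E (nat_lit 3) (nat_lit 0x2335186861) (nat_lit 0))) (N (nat_lit 3696) (N (nat_lit 3695) (L (E (nat_lit 3) (nat_lit 0x26bd34a947) (nat_lit 0))) (L (E (nat_lit 3) (nat_lit 0x2a0d4f2a17) (nat_lit 0)))) (L (E (nat_lit 3) (nat_lit 0x26fd33e943) (nat_lit 0)))))) (L (E (nat_lit 3) (nat_lit 0x32fd946c61) (nat_lit 0)))))) (cl74)) (L (E (nat_lit 3) (nat_lit 0x31a400a003) (nat_lit 0)))) (N (nat_lit 3940) (N (nat_lit 3841) (N (nat_lit 3808) (cl75) (N (nat_lit 3820) (N (nat_lit 3815) (N (nat_lit 3812) (N (nat_lit 3810) (N (nat_lit 3809) (L (E (nat_lit 3) (nat_lit 0x1784b5e57f) (nat_lit 0))) (L (E (nat_lit 3) (nat_lit 0x22c50ea84b) (nat_lit 0)))) (N (nat_lit 3811) (L (E (nat_lit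 3) (nat_lit 0x237513686d) (nat_lit 0))) (L (E (nat_lit 3) (nat_lit 0x238513e871) (nat_lit 0))))) (N (nat_lit 3813) (L (E (nat_lit 3) (nat_lit 0x23b515e87b) (nat_lit 0))) (N (nat_lit 3814) (L (E (nat_lit 3) (nat_lit 0x240d18e893) (nat_lit 0))) (L (E (nat_lit 3) (nat_lit 0x26ed2f294b) (nat_lit 0)))))) (N (nat_lit 3817) (N (nat_lit 3816) (L (E (nat_lit 3) (nat_lit 0x26fd2fa94f) (nat_lit 0))) (L (E (nat_lit 3) (nat_lit 0x274532295f) (nat_lit 0)))) (N (nat_lit 3818) (L (E (nat_lit 3) (nat_lit 0x176cafe571) (nat_lit 0))) (N (nat_lit 3819) (L (E (nat_lit 3) (nat_lit 0x1784b0a577) (nat_lit 0))) (L (E (nat_lit 3) (nat_lit 0x274d2ce959) (nat_lit 0))))))) (N (nat_lit 3830) (N (nat_lit 3825) (N (nat_lit 3821) (L (E (nat_lit 3) (nat_lit 0x278d2ee969) (nat_lit 0))) (N (nat_lit 3823) (N (nat_lit 3822) (L (E (nat_lit 3) (nat_lit 0x280d346993) (nat_lit 0))) (L (E (nat_lit 3) (nat_lit 0x281534a995) (nat_lit 0))))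 (N (nat_lit 3824) (L (E (nat_lit 3) (nat_lit 0x282d3729a7) (nat_lit 0))) (L (E (nat_lit 3) (nat_lit 0x36d5a9ad3d) (nat_lit 0)))))) (N (nat_lit 3829) (N (nat_lit 3827) (N (nat_lit 3826) (L (E (nat_lit 3) (nat_lit 0x140c9b64a3) (nat_lit 0))) (L (E (nat_lit 3) (nat_lit 0x15cca8651d) (nat_lit 0)))) (N (nat_lit 3828) (L (E (nat_lit 3) (nat_lit 0x1614aaa525) (nat_lit 0))) (L (E (nat_lit 3) (nat_lit 0x174cb4e56d) (nat_lit 0))))) (L (E (nat_lit 3) (nat_lit 0x22cd0fe84d) (nat_lit 0))))) (N (nat_lit 3834) (N (nat_lit 3832) (N (nat_lit 3831) (L (E (nat_lit 3) (nat_lit 0x232512a85d) (nat_lit 0))) (L (E (nat_lit 3) (nat_lit 0x2395162875) (nat_lit 0)))) (N (nat_lit 3833) (L (E (nat_lit 3) (nat_lit 0x26552c6933) (nat_lit 0))) (L (E (nat_lit 3) (nat_lit 0x26ad2ee943) (nat_lit 0))))) (N (nat_lit 3837) (N (nat_lit 3836) (N (nat_lit 3835) (L (E (nat_lit 3) (nat_lit 0x27a5372977) (nat_lit 0))) (L (E (nat_lit 3) (nat_lit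 0x27ad376979) (nat_lit 0)))) (L (E (nat_lit 3) (nat_lit 0x36c5b0ad43) (nat_lit 0)))) (N (nat_lit 3840) (N (nat_lit 3839) (N (nat_lit 3838) (L (E (nat_lit 3) (nat_lit 0x372db3ed5f) (nat_lit 0))) (L (E (nat_lit 3) (nat_lit 0x1614ada51f) (nat_lit 0)))) (L (E (nat_lit 3) (nat_lit 0x165cafa525) (nat_lit 0)))) (L (E (nat_lit 3) (nat_lit 0x16fcb4e545) (nat_lit 0))))))))) (N (nat_lit 3891) (cl76) (cl77))) (N (nat_lit 3987) (N (nat_lit 3986) (cl78) (L (E (nat_lit 3) (nat_lit 0x338d98aca3) (nat_lit 0)))) (cl79)))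
def cl81 : RA := N (nat_lit 4065) (N (nat_lit 4054) (N (nat_lit 4049) (N (nat_lit 4047) (N (nat_lit 4046) (N (nat_lit 4045) (L (E (nat_lit 3) (nat_lit 0x4654c6a001) (nat_lit 0))) (L (E (nat_lit 3) (nat_lit 0x328c92e12f) (nat_lit 0)))) (L (E (nat_lit 3) (nat_lit 0x129426e001) (nat_lit 0)))) (N (nat_lit 4048) (L (E (nat_lit 3) (nat_lit 0x35e4ade16f) (nat_lit 0))) (L (E (nat_lit 3) (nat_lit 0x3d34ff62b1) (nat_lit 0))))) (N (nat_lit 4052) (N (nat_lit 4051) (N (nat_lit 4050) (L (E (nat_lit 3) (nat_lit 0x40251da33d) (nat_lit 0))) (L (E (nat_lit 3) (nat_lit 0x44ad6e64bd) (nat_lit 0)))) (L (E (nat_lit 3) (nat_lit 0x45b5836593) (nat_lit 0)))) (N (nat_lit 4053) (L (E (nat_lit 3) (nat_lit 0x45d585e5a9) (nat_lit 0))) (L (E (nat_lit 3) (nat_lit 0x26acff6213) (nat_lit 0)))))) (N (nat_lit 4058) (N (nat_lit 4056) (N (nat_lit 4055) (L (E (nat_lit 3) (nat_lit 0x290d106231) (nat_lit 0))) (L (E (nat_lit 3) (nat_lit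 0x295512a235) (nat_lit 0)))) (N (nat_lit 4057) (L (E (nat_lit 3) (nat_lit 0x37c5946497) (nat_lit 0))) (L (E (nat_lit 3) (nat_lit 0x37ec94a001) (nat_lit 0))))) (N (nat_lit 4062) (N (nat_lit 4060) (N (nat_lit 4059) (L (E (nat_lit 3) (nat_lit 0x4195e9a7fb) (nat_lit 0))) (L (E (nat_lit 3) (nat_lit 0x42ce0128ed) (nat_lit 0)))) (N (nat_lit 4061) (L (E (nat_lit 3) (nat_lit 0x42fe076969) (nat_lit 0))) (L (E (nat_lit 3) (nat_lit 0x468e256b73) (nat_lit 0))))) (N (nat_lit 4064) (N (nat_lit 4063) (L (E (nat_lit 3) (nat_lit 0x2f84ab2105) (nat_lit 0))) (L (E (nat_lit 3) (nat_lit 0x451da76539) (nat_lit 0)))) (L (E (nat_lit 3) (nat_lit 0x4525a92543) (nat_lit 0))))))) (N (nat_lit 4076) (N (nat_lit 4070) (N (nat_lit 4067) (N (nat_lit 4066) (L (E (nat_lit 3) (nat_lit 0x459db1e581) (nat_lit 0))) (L (E (nat_lit 3) (nat_lit 0x45c5b4a599) (nat_lit 0)))) (N (nat_lit 4068) (L (E (nat_lit 3) (nat_lit 0x1c1cc6a001) (nat_lit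 0))) (N (nat_lit 4069) (L (E (nat_lit 3) (nat_lit 0x225c792307) (nat_lit 0))) (L (E (nat_lit 3) (nat_lit 0x2d9cc764ab) (nat_lit 0)))))) (N (nat_lit 4073) (N (nat_lit 4072) (N (nat_lit 4071) (L (E (nat_lit 3) (nat_lit 0x2f74d7a555) (nat_lit 0))) (L (E (nat_lit 3) (nat_lit 0x2f84d82559) (nat_lit 0)))) (L (E (nat_lit 3) (nat_lit 0x306cdbe593) (nat_lit 0)))) (N (nat_lit 4075) (N (nat_lit 4074) (L (E (nat_lit 3) (nat_lit 0x3084dc6599) (nat_lit 0))) (L (E (nat_lit 3) (nat_lit 0x30b4dce5a7) (nat_lit 0)))) (L (E (nat_lit 3) (nat_lit 0x30bcdd25a9) (nat_lit 0)))))) (N (nat_lit 4081) (N (nat_lit 4079) (N (nat_lit 4078) (N (nat_lit 4077) (L (E (nat_lit 3) (nat_lit 0x3a052d27bb) (nat_lit 0))) (L (E (nat_lit 3) (nat_lit 0x3a553267e3) (nat_lit 0)))) (L (E (nat_lit 3) (nat_lit 0x3aed4aa895) (nat_lit 0)))) (N (nat_lit 4080) (L (E (nat_lit 3) (nat_lit 0x3584ab2439) (nat_lit 0))) (L (E (nat_lit 3) (nat_lit 0x3694b3245b)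 (nat_lit 0))))) (N (nat_lit 4084) (N (nat_lit 4083) (N (nat_lit 4082) (L (E (nat_lit 3) (nat_lit 0x3804c764ab) (nat_lit 0))) (L (E (nat_lit 3) (nat_lit 0x40ed2d27bb) (nat_lit 0)))) (L (E (nat_lit 3) (nat_lit 0x41653267e3) (nat_lit 0)))) (N (nat_lit 4085) (L (E (nat_lit 3) (nat_lit 0x41fd43a85f) (nat_lit 0))) (L (E (nat_lit 3) (nat_lit 0x425d4ca8a9) (nat_lit 0)))))))
def cl82 : RA := N (nat_lit 4157) (N (nat_lit 4141) (N (nat_lit 4133) (N (nat_lit 4125) (N (nat_lit 4123) (L (E (nat_lit 3) (nat_lit 0x266532a969) (nat_lit 0))) (N (nat_lit 4124) (L (E (nat_lit 3) (nat_lit 0x26ad34e979) (nat_lit 0))) (L (E (nat_lit 3) (nat_lit 0x29c54daa43) (nat_lit 0))))) (N (nat_lit 4129) (N (nat_lit 4127) (N (nat_lit 4126) (L (E (nat_lit 3) (nat_lit 0x2a15502a55) (nat_lit 0))) (L (E (nat_lit 3) (nat_lit 0x2f557a2ba7) (nat_lit 0)))) (N (nat_lit 4128) (L (E (nat_lit 3) (nat_lit 0x3585abad31) (nat_lit 0))) (L (E (nat_lit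 3) (nat_lit 0x35f5af2d4b) (nat_lit 0))))) (N (nat_lit 4131) (N (nat_lit 4130) (L (E (nat_lit 3) (nat_lit 0x3605afad4f) (nat_lit 0))) (L (E (nat_lit 3) (nat_lit 0x262c432015) (nat_lit 0)))) (N (nat_lit 4132) (L (E (nat_lit 3) (nat_lit 0x4215166073) (nat_lit 0))) (L (E (nat_lit 3) (nat_lit 0x45f4c960f7) (nat_lit 0))))))) (N (nat_lit 4137) (N (nat_lit 4136) (N (nat_lit 4135) (N (nat_lit 4134) (L (E (nat_lit 3) (nat_lit 0x4604cb60fd) (nat_lit 0))) (L (E (nat_lit 3) (nat_lit 0x489d316219) (nat_lit 0)))) (L (E (nat_lit 3) (nat_lit 0x43f5bd21b1) (nat_lit 0)))) (L (E (nat_lit 3) (nat_lit 0x15fcab2533) (nat_lit 0)))) (N (nat_lit 4139) (N (nat_lit 4138) (L (E (nat_lit 3) (nat_lit 0x1614abe539) (nat_lit 0))) (L (E (nat_lit 3) (nat_lit 0x1664ae6549) (nat_lit 0)))) (N (nat_lit 4140) (L (E (nat_lit 3) (nat_lit 0x16ecb2e56d) (nat_lit 0))) (L (E (nat_lit 3) (nat_lit 0x22bd10a85f) (nat_lit 0))))))) (N (nat_lit 4150)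 (N (nat_lit 4144) (N (nat_lit 4142) (L (E (nat_lit 3) (nat_lit 0x23b518a897) (nat_lit 0))) (N (nat_lit 4143) (L (E (nat_lit 3) (nat_lit 0x244d1de8c3) (nat_lit 0))) (L (E (nat_lit 3) (nat_lit 0x274534e979) (nat_lit 0))))) (N (nat_lit 4146) (N (nat_lit 4145) (L (E (nat_lit 3) (nat_lit 0x278537698d) (nat_lit 0))) (L (E (nat_lit 3) (nat_lit 0x30fd83abf3) (nat_lit 0)))) (N (nat_lit 4148) (N (nat_lit 4147) (L (E (nat_lit 3) (nat_lit 0x33dc006001) (nat_lit 0))) (L (E (nat_lit 3) (nat_lit 0x357da6ed15) (nat_lit 0)))) (N (nat_lit 4149) (L (E (nat_lit 3) (nat_lit 0x3c9de0eee9) (nat_lit 0))) (L (E (nat_lit 3) (nat_lit 0x15fcaba559) (nat_lit 0))))))) (N (nat_lit 4155) (N (nat_lit 4153) (N (nat_lit 4151) (L (E (nat_lit 3) (nat_lit 0x164cae256d) (nat_lit 0))) (N (nat_lit 4152) (L (E (nat_lit 3) (nat_lit 0x16dcb2e593) (nat_lit 0))) (L (E (nat_lit 3) (nat_lit 0x197cc7a639) (nat_lit 0))))) (N (nat_lit 4154) (L (E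 (nat_lit 3) (nat_lit 0x202cfce7e3) (nat_lit 0))) (L (E (nat_lit 3) (nat_lit 0x2305136897) (nat_lit 0))))) (N (nat_lit 4156) (L (E (nat_lit 3) (nat_lit 0x231513e89b) (nat_lit 0))) (L (E (nat_lit 3) (nat_lit 0x262d2ce963) (nat_lit 0))))))) (N (nat_lit 4169) (N (nat_lit 4163) (N (nat_lit 4159) (N (nat_lit 4158) (L (E (nat_lit 3) (nat_lit 0x268d2fa979) (nat_lit 0))) (L (E (nat_lit 3) (nat_lit 0x26dd32298d) (nat_lit 0)))) (N (nat_lit 4161) (N (nat_lit 4160) (L (E (nat_lit 3) (nat_lit 0x273d3529a5) (nat_lit 0))) (L (E (nat_lit 3) (nat_lit 0x35d5a9ed4b) (nat_lit 0)))) (N (nat_lit 4162) (L (E (nat_lit 3) (nat_lit 0x15c4a8e543) (nat_lit 0))) (L (E (nat_lit 3) (nat_lit 0x1664ade56b) (nat_lit 0)))))) (N (nat_lit 4168) (N (nat_lit 4165) (N (nat_lit 4164) (L (E (nat_lit 3) (nat_lit 0x166cae256d) (nat_lit 0))) (L (E (nat_lit 3) (nat_lit 0x16acb0257d) (nat_lit 0)))) (N (nat_lit 4166) (L (E (nat_lit 3) (nat_lit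 0x16fcb2e593) (nat_lit 0))) (N (nat_lit 4167) (L (E (nat_lit 3) (nat_lit 0x203cfc67df) (nat_lit 0))) (L (E (nat_lit 3) (nat_lit 0x22c510687f) (nat_lit 0)))))) (L (E (nat_lit 3) (nat_lit 0x22cd10a881) (nat_lit 0))))) (N (nat_lit 4177) (N (nat_lit 4174) (N (nat_lit 4170) (L (E (nat_lit 3) (nat_lit 0x231512e893) (nat_lit 0))) (N (nat_lit 4172) (N (nat_lit 4171) (L (E (nat_lit 3) (nat_lit 0x23651568a7) (nat_lit 0))) (L (E (nat_lit 3) (nat_lit 0x237515e8ab) (nat_lit 0)))) (N (nat_lit 4173) (L (E (nat_lit 3) (nat_lit 0x23851668af) (nat_lit 0))) (L (E (nat_lit 3) (nat_lit 0x23b51828bd) (nat_lit 0)))))) (N (nat_lit 4176) (N (nat_lit 4175) (L (E (nat_lit 3) (nat_lit 0x23cd18e8c3) (nat_lit 0))) (L (E (nat_lit 3) (nat_lit 0x264d2ce963) (nat_lit 0)))) (L (E (nat_lit 3) (nat_lit 0x26552d2965) (nat_lit 0))))) (N (nat_lit 4179) (N (nat_lit 4178) (L (E (nat_lit 3) (nat_lit 0x269d2f2975) (nat_lit 0))) (L (E (nat_lit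 3) (nat_lit 0x26ed31a989) (nat_lit 0)))) (N (nat_lit 4180) (L (E (nat_lit 3) (nat_lit 0x275d3529a5) (nat_lit 0))) (N (nat_lit 4181) (L (E (nat_lit 3) (nat_lit 0x2a054aaa51) (nat_lit 0))) (L (E (nat_lit 3) (nat_lit 0x30757e6bef) (nat_lit 0))))))))
def cl83 : RA := N (nat_lit 4182) (N (nat_lit 4044) (L (E (nat_lit 3) (nat_lit 0x331594eca3) (nat_lit 0))) (N (nat_lit 4122) (N (nat_lit 4099) (N (nat_lit 4086) (cl81) (N (nat_lit 4098) (N (nat_lit 4092) (N (nat_lit 4090) (N (nat_lit 4089) (N (nat_lit 4088) (N (nat_lit 4087) (L (E (nat_lit 3) (nat_lit 0x42b552a8d9) (nat_lit 0))) (L (E (nat_lit 3) (nat_lit 0x2644fc2387) (nat_lit 0)))) (L (E (nat_lit 3) (nat_lit 0x26acff639b) (nat_lit 0)))) (L (E (nat_lit 3) (nat_lit 0x290d1063c5) (nat_lit 0)))) (N (nat_lit 4091) (L (E (nat_lit 3) (nat_lit 0x295512a3c7) (nat_lit 0))) (L (E (nat_lit 3) (nat_lit 0x29fd1823d9) (nat_lit 0))))) (N (nat_lit 4095) (N (nat_lit 4094)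 (N (nat_lit 4093) (L (E (nat_lit 3) (nat_lit 0x2a451aa3e1) (nat_lit 0))) (L (E (nat_lit 3) (nat_lit 0x328d6ae625) (nat_lit 0)))) (L (E (nat_lit 3) (nat_lit 0x2d84c6a001) (nat_lit 0)))) (N (nat_lit 4097) (N (nat_lit 4096) (L (E (nat_lit 3) (nat_lit 0x33156d6647) (nat_lit 0))) (L (E (nat_lit 3) (nat_lit 0x44ce1c2003) (nat_lit 0)))) (L (E (nat_lit 3) (nat_lit 0x469625ae13) (nat_lit 0)))))) (L (E (nat_lit 3) (nat_lit 0x3234006001) (nat_lit 0))))) (N (nat_lit 4111) (N (nat_lit 4104) (N (nat_lit 4102) (N (nat_lit 4101) (N (nat_lit 4100) (L (E (nat_lit 3) (nat_lit 0x15cca9252d) (nat_lit 0))) (L (E (nat_lit 3) (nat_lit 0x15fcaaa533) (nat_lit 0)))) (L (E (nat_lit 3) (nat_lit 0x165cada547) (nat_lit 0)))) (N (nat_lit 4103) (L (E (nat_lit 3) (nat_lit 0x16a4afe559) (nat_lit 0))) (L (E (nat_lit 3) (nat_lit 0x16fcb2e571) (nat_lit 0))))) (N (nat_lit 4109) (N (nat_lit 4108) (N (nat_lit 4107) (N (nat_lit 4106) (N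 (nat_lit 4105) (L (E (nat_lit 3) (nat_lit 0x1934c46605) (nat_lit 0))) (L (E (nat_lit 3) (nat_lit 0x1a1ccbe639) (nat_lit 0)))) (L (E (nat_lit 3) (nat_lit 0x20bd0167e3) (nat_lit 0)))) (L (E (nat_lit 3) (nat_lit 0x2325136877) (nat_lit 0)))) (L (E (nat_lit 3) (nat_lit 0x237515e885) (nat_lit 0)))) (N (nat_lit 4110) (L (E (nat_lit 3) (nat_lit 0x23b5182897) (nat_lit 0))) (L (E (nat_lit 3) (nat_lit 0x26ad2fa959) (nat_lit 0)))))) (N (nat_lit 4116) (N (nat_lit 4113) (N (nat_lit 4112) (L (E (nat_lit 3) (nat_lit 0x26fd322969) (nat_lit 0))) (L (E (nat_lit 3) (nat_lit 0x2745346979) (nat_lit 0)))) (N (nat_lit 4115) (N (nat_lit 4114) (L (E (nat_lit 3) (nat_lit 0x3535a4ad0d) (nat_lit 0))) (L (E (nat_lit 3) (nat_lit 0x1564aaa52f) (nat_lit 0)))) (L (E (nat_lit 3) (nat_lit 0x15ccade545) (nat_lit 0))))) (N (nat_lit 4120) (N (nat_lit 4119) (N (nat_lit 4117) (L (E (nat_lit 3) (nat_lit 0x15dcae6549) (nat_lit 0))) (N (nat_lit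 4118) (L (E (nat_lit 3) (nat_lit 0x16bcb56581) (nat_lit 0))) (L (E (nat_lit 3) (nat_lit 0x228513a875) (nat_lit 0))))) (L (E (nat_lit 3) (nat_lit 0x22cd15e881) (nat_lit 0)))) (N (nat_lit 4121) (L (E (nat_lit 3) (nat_lit 0x22d5162883) (nat_lit 0))) (L (E (nat_lit 3) (nat_lit 0x22dd166885) (nat_lit 0)))))))) (cl82))) (L (E (nat_lit 3) (nat_lit 0x32c4006001) (nat_lit 0)))
def cl84 : RA := N (nat_lit 4275) (N (nat_lit 4261) (N (nat_lit 4257) (N (nat_lit 4255) (N (nat_lit 4253) (N (nat_lit 4252) (N (nat_lit 4251) (L (E (nat_lit 3) (nat_lit 0x26ed2d2965) (nat_lit 0))) (L (E (nat_lit 3) (nat_lit 0x27352f2975) (nat_lit 0)))) (L (E (nat_lit 3) (nat_lit 0x27452fa979) (nat_lit 0)))) (N (nat_lit 4254) (L (E (nat_lit 3) (nat_lit 0x278532298d) (nat_lit 0))) (L (E (nat_lit 3) (nat_lit 0x27d53529a5) (nat_lit 0))))) (N (nat_lit 4256) (L (E (nat_lit 3) (nat_lit 0x3f55f26f8f) (nat_lit 0))) (L (E (nat_lit 3) (nat_lit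 0x16b4afe559) (nat_lit 0))))) (N (nat_lit 4260) (N (nat_lit 4258) (L (E (nat_lit 3) (nat_lit 0x170cb2e571) (nat_lit 0))) (N (nat_lit 4259) (L (E (nat_lit 3) (nat_lit 0x2044fc27bb) (nat_lit 0))) (L (E (nat_lit 3) (nat_lit 0x22d5106861) (nat_lit 0))))) (L (E (nat_lit 3) (nat_lit 0x238515e885) (nat_lit 0))))) (N (nat_lit 4270) (N (nat_lit 4266) (N (nat_lit 4263) (N (nat_lit 4262) (L (E (nat_lit 3) (nat_lit 0x238d162887) (nat_lit 0))) (L (E (nat_lit 3) (nat_lit 0x299d472a15) (nat_lit 0)))) (N (nat_lit 4264) (L (E (nat_lit 3) (nat_lit 0x2a5d4caa3f) (nat_lit 0))) (N (nat_lit 4265) (L (E (nat_lit 3) (nat_lit 0x364dabed37) (nat_lit 0))) (L (E (nat_lit 3) (nat_lit 0x151ca7e523) (nat_lit 0)))))) (N (nat_lit 4268) (N (nat_lit 4267) (L (E (nat_lit 3) (nat_lit 0x161cafe559) (nat_lit 0))) (L (E (nat_lit 3) (nat_lit 0x166cb2656d) (nat_lit 0)))) (N (nat_lit 4269) (L (E (nat_lit 3) (nat_lit 0x1894c3a5ff) (nat_lit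 0))) (L (E (nat_lit 3) (nat_lit 0x1fa4fc27bb) (nat_lit 0)))))) (N (nat_lit 4273) (N (nat_lit 4272) (N (nat_lit 4271) (L (E (nat_lit 3) (nat_lit 0x222d106861) (nat_lit 0))) (L (E (nat_lit 3) (nat_lit 0x233518a89b) (nat_lit 0)))) (L (E (nat_lit 3) (nat_lit 0x26bd34e97d) (nat_lit 0)))) (N (nat_lit 4274) (L (E (nat_lit 3) (nat_lit 0x2a054f2a51) (nat_lit 0))) (L (E (nat_lit 3) (nat_lit 0x15bcad6529) (nat_lit 0))))))) (N (nat_lit 4282) (N (nat_lit 4277) (N (nat_lit 4276) (L (E (nat_lit 3) (nat_lit 0x1604afa535) (nat_lit 0))) (L (E (nat_lit 3) (nat_lit 0x1614b02539) (nat_lit 0)))) (N (nat_lit 4278) (L (E (nat_lit 3) (nat_lit 0x165cb26547) (nat_lit 0))) (N (nat_lit 4280) (N (nat_lit 4279) (L (E (nat_lit 3) (nat_lit 0x225d12684f) (nat_lit 0))) (L (E (nat_lit 3) (nat_lit 0x226d12e853) (nat_lit 0)))) (N (nat_lit 4281) (L (E (nat_lit 3) (nat_lit 0x22bd15685f) (nat_lit 0))) (L (E (nat_lit 3) (nat_lit 0x231d186875)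 (nat_lit 0))))))) (N (nat_lit 4288) (N (nat_lit 4284) (N (nat_lit 4283) (L (E (nat_lit 3) (nat_lit 0x25e52ea935) (nat_lit 0))) (L (E (nat_lit 3) (nat_lit 0x26a534a957) (nat_lit 0)))) (N (nat_lit 4286) (N (nat_lit 4285) (L (E (nat_lit 3) (nat_lit 0x275d3a697f) (nat_lit 0))) (L (E (nat_lit 3) (nat_lit 0x27cd3de9a3) (nat_lit 0)))) (N (nat_lit 4287) (L (E (nat_lit 3) (nat_lit 0x2a5d526a43) (nat_lit 0))) (L (E (nat_lit 3) (nat_lit 0x15fcab2551) (nat_lit 0)))))) (N (nat_lit 4291) (N (nat_lit 4289) (L (E (nat_lit 3) (nat_lit 0x22c510e87f) (nat_lit 0))) (N (nat_lit 4290) (L (E (nat_lit 3) (nat_lit 0x268d2f2971) (nat_lit 0))) (L (E (nat_lit 3) (nat_lit 0x27d53a69cb) (nat_lit 0))))) (N (nat_lit 4293) (N (nat_lit 4292) (L (E (nat_lit 3) (nat_lit 0x1724b56581) (nat_lit 0))) (L (E (nat_lit 3) (nat_lit 0x23a518a897) (nat_lit 0)))) (N (nat_lit 4294) (L (E (nat_lit 3) (nat_lit 0x23b519289b) (nat_lit 0))) (L (E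 (nat_lit 3) (nat_lit 0x299d48aa1d) (nat_lit 0))))))))
def cl85 : RA := N (nat_lit 4295) (N (nat_lit 4250) (N (nat_lit 4233) (N (nat_lit 4224) (N (nat_lit 4221) (N (nat_lit 4220) (N (nat_lit 4219) (L (E (nat_lit 3) (nat_lit 0x23b51928c1) (nat_lit 0))) (L (E (nat_lit 3) (nat_lit 0x25dd2ae94f) (nat_lit 0)))) (L (E (nat_lit 3) (nat_lit 0x26ed32a98d) (nat_lit 0)))) (N (nat_lit 4222) (L (E (nat_lit 3) (nat_lit 0x27453569a3) (nat_lit 0))) (N (nat_lit 4223) (L (E (nat_lit 3) (nat_lit 0x165ca8e543) (nat_lit 0))) (L (E (nat_lit 3) (nat_lit 0x1664a92545) (nat_lit 0)))))) (N (nat_lit 4226) (N (nat_lit 4225) (L (E (nat_lit 3) (nat_lit 0x16fcae256d) (nat_lit 0))) (L (E (nat_lit 3) (nat_lit 0x23b512e893) (nat_lit 0)))) (N (nat_lit 4229) (N (nat_lit 4228) (N (nat_lit 4227) (L (E (nat_lit 3) (nat_lit 0x23f51568a7) (nat_lit 0))) (L (E (nat_lit 3) (nat_lit 0x24151668af) (nat_lit 0)))) (L (E (nat_lit 3) (nat_lit 0x27052d6967)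 (nat_lit 0)))) (N (nat_lit 4231) (N (nat_lit 4230) (L (E (nat_lit 3) (nat_lit 0x363da6ed33) (nat_lit 0))) (L (E (nat_lit 3) (nat_lit 0x165cae2543) (nat_lit 0)))) (N (nat_lit 4232) (L (E (nat_lit 3) (nat_lit 0x18e4c2e5f5) (nat_lit 0))) (L (E (nat_lit 3) (nat_lit 0x226d0ee84f) (nat_lit 0)))))))) (N (nat_lit 4243) (N (nat_lit 4240) (N (nat_lit 4236) (N (nat_lit 4234) (L (E (nat_lit 3) (nat_lit 0x22bd10a85b) (nat_lit 0))) (N (nat_lit 4235) (L (E (nat_lit 3) (nat_lit 0x22d5116861) (nat_lit 0))) (L (E (nat_lit 3) (nat_lit 0x230512e86b) (nat_lit 0))))) (N (nat_lit 4237) (L (E (nat_lit 3) (nat_lit 0x237d16a883) (nat_lit 0))) (N (nat_lit 4238) (L (E (nat_lit 3) (nat_lit 0x268d2f294d) (nat_lit 0))) (N (nat_lit 4239) (L (E (nat_lit 3) (nat_lit 0x2a454cea39) (nat_lit 0))) (L (E (nat_lit 3) (nat_lit 0x2ae552ea65) (nat_lit 0))))))) (N (nat_lit 4241) (L (E (nat_lit 3) (nat_lit 0x166cb2e547) (nat_lit 0))) (N (nat_lit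 4242) (L (E (nat_lit 3) (nat_lit 0x231d186871) (nat_lit 0))) (L (E (nat_lit 3) (nat_lit 0x23851ba885) (nat_lit 0)))))) (N (nat_lit 4246) (N (nat_lit 4244) (L (E (nat_lit 3) (nat_lit 0x26a534a953) (nat_lit 0))) (N (nat_lit 4245) (L (E (nat_lit 3) (nat_lit 0x165ca96547) (nat_lit 0))) (L (E (nat_lit 3) (nat_lit 0x16ecae256d) (nat_lit 0))))) (N (nat_lit 4248) (N (nat_lit 4247) (L (E (nat_lit 3) (nat_lit 0x235d10687f) (nat_lit 0))) (L (E (nat_lit 3) (nat_lit 0x236510a881) (nat_lit 0)))) (N (nat_lit 4249) (L (E (nat_lit 3) (nat_lit 0x23b5136897) (nat_lit 0))) (L (E (nat_lit 3) (nat_lit 0x26e52ce963) (nat_lit 0)))))))) (cl84)) (N (nat_lit 4296) (L (E (nat_lit 3) (nat_lit 0x33cc006001) (nat_lit 0))) (N (nat_lit 4303) (N (nat_lit 4301) (N (nat_lit 4300) (N (nat_lit 4298) (N (nat_lit 4297) (L (E (nat_lit 3) (nat_lit 0x15ccad6549) (nat_lit 0))) (L (E (nat_lit 3) (nat_lit 0x16acb46581) (nat_lit 0)))) (N (nat_lit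 4299) (L (E (nat_lit 3) (nat_lit 0x16bcb4e585) (nat_lit 0))) (L (E (nat_lit 3) (nat_lit 0x227512a875) (nat_lit 0))))) (L (E (nat_lit 3) (nat_lit 0x22cd156885) (nat_lit 0)))) (N (nat_lit 4302) (L (E (nat_lit 3) (nat_lit 0x231517a897) (nat_lit 0))) (L (E (nat_lit 3) (nat_lit 0x232518289b) (nat_lit 0))))) (N (nat_lit 4307) (N (nat_lit 4305) (N (nat_lit 4304) (L (E (nat_lit 3) (nat_lit 0x237d1ae8b1) (nat_lit 0))) (L (E (nat_lit 3) (nat_lit 0x25fd2ee957) (nat_lit 0)))) (N (nat_lit 4306) (L (E (nat_lit 3) (nat_lit 0x264d316967) (nat_lit 0))) (L (E (nat_lit 3) (nat_lit 0x265531a969) (nat_lit 0))))) (N (nat_lit 4308) (L (E (nat_lit 3) (nat_lit 0x269d33e979) (nat_lit 0))) (N (nat_lit 4309) (L (E (nat_lit 3) (nat_lit 0x274d3969a5) (nat_lit 0))) (L (E (nat_lit 3) (nat_lit 0x2a054f2a55) (nat_lit 0))))))))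
def cl86 : RA := N (nat_lit 4352) (N (nat_lit 4337) (N (nat_lit 4332) (N (nat_lit 4329) (N (nat_lit 4326) (N (nat_lit 4325) (N (nat_lit 4324) (L (E (nat_lit 3) (nat_lit 0x36d5abed3b) (nat_lit 0))) (L (E (nat_lit 3) (nat_lit 0x3715ae6d4d) (nat_lit 0)))) (L (E (nat_lit 3) (nat_lit 0x169cb0a553) (nat_lit 0)))) (N (nat_lit 4328) (N (nat_lit 4327) (L (E (nat_lit 3) (nat_lit 0x268d2fa94d) (nat_lit 0))) (L (E (nat_lit 3) (nat_lit 0x2745356975) (nat_lit 0)))) (L (E (nat_lit 3) (nat_lit 0x299d48aa15) (nat_lit 0))))) (N (nat_lit 4331) (N (nat_lit 4330) (L (E (nat_lit 3) (nat_lit 0x2a4d4daa3b) (nat_lit 0))) (L (E (nat_lit 3) (nat_lit 0x36c5b26d5b) (nat_lit 0)))) (L (E (nat_lit 3) (nat_lit 0x177cb3a56f) (nat_lit 0))))) (N (nat_lit 4334) (N (nat_lit 4333) (L (E (nat_lit 3) (nat_lit 0x20a4fc27b3) (nat_lit 0))) (L (E (nat_lit 3) (nat_lit 0x240d16a883) (nat_lit 0)))) (N (nat_lit 4335) (L (E (nat_lit 3) (nat_lit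 0x2455192897) (nat_lit 0))) (N (nat_lit 4336) (L (E (nat_lit 3) (nat_lit 0x246519a89b) (nat_lit 0))) (L (E (nat_lit 3) (nat_lit 0x24951c28af) (nat_lit 0))))))) (N (nat_lit 4342) (N (nat_lit 4338) (L (E (nat_lit 3) (nat_lit 0x27ed35e97d) (nat_lit 0))) (N (nat_lit 4340) (N (nat_lit 4339) (L (E (nat_lit 3) (nat_lit 0x274d396973) (nat_lit 0))) (L (E (nat_lit 3) (nat_lit 0x27dd3de99f) (nat_lit 0)))) (N (nat_lit 4341) (L (E (nat_lit 3) (nat_lit 0x273d2fe977) (nat_lit 0))) (L (E (nat_lit 3) (nat_lit 0x27fd37e9b7) (nat_lit 0)))))) (N (nat_lit 4346) (N (nat_lit 4343) (L (E (nat_lit 3) (nat_lit 0x30b57cebdf) (nat_lit 0))) (N (nat_lit 4344) (L (E (nat_lit 3) (nat_lit 0x1734b46585) (nat_lit 0))) (N (nat_lit 4345) (L (E (nat_lit 3) (nat_lit 0x1a54cde653) (nat_lit 0))) (L (E (nat_lit 3) (nat_lit 0x26e530e967) (nat_lit 0)))))) (N (nat_lit 4348) (N (nat_lit 4347) (L (E (nat_lit 3) (nat_lit 0x1614a72531) (nat_lit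 0))) (L (E (nat_lit 3) (nat_lit 0x16b4aba555) (nat_lit 0)))) (N (nat_lit 4350) (N (nat_lit 4349) (L (E (nat_lit 3) (nat_lit 0x275d2fe977) (nat_lit 0))) (L (E (nat_lit 3) (nat_lit 0x27cd34699b) (nat_lit 0)))) (N (nat_lit 4351) (L (E (nat_lit 3) (nat_lit 0x30d57cebdf) (nat_lit 0))) (L (E (nat_lit 3) (nat_lit 0x1a6cd0a633) (nat_lit 0))))))))) (N (nat_lit 4362) (N (nat_lit 4357) (N (nat_lit 4353) (L (E (nat_lit 3) (nat_lit 0x23fd1be883) (nat_lit 0))) (N (nat_lit 4355) (N (nat_lit 4354) (L (E (nat_lit 3) (nat_lit 0x230d142875) (nat_lit 0))) (L (E (nat_lit 3) (nat_lit 0x23a5192897) (nat_lit 0)))) (N (nat_lit 4356) (L (E (nat_lit 3) (nat_lit 0x1674ad6549) (nat_lit 0))) (L (E (nat_lit 3) (nat_lit 0x22c50f685d) (nat_lit 0)))))) (N (nat_lit 4359) (N (nat_lit 4358) (L (E (nat_lit 3) (nat_lit 0x233512e877) (nat_lit 0))) (L (E (nat_lit 3) (nat_lit 0x237d152883) (nat_lit 0)))) (N (nat_lit 4360) (L (E (nat_lit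 3) (nat_lit 0x23d518289b) (nat_lit 0))) (N (nat_lit 4361) (L (E (nat_lit 3) (nat_lit 0x27ed39a9a7) (nat_lit 0))) (L (E (nat_lit 3) (nat_lit 0x2a5d4c2a3f) (nat_lit 0))))))) (N (nat_lit 4366) (N (nat_lit 4364) (N (nat_lit 4363) (L (E (nat_lit 3) (nat_lit 0x1664b22549) (nat_lit 0))) (L (E (nat_lit 3) (nat_lit 0x166cb2654b) (nat_lit 0)))) (N (nat_lit 4365) (L (E (nat_lit 3) (nat_lit 0x22cd156863) (nat_lit 0))) (L (E (nat_lit 3) (nat_lit 0x25f52ea939) (nat_lit 0))))) (N (nat_lit 4372) (N (nat_lit 4369) (N (nat_lit 4367) (L (E (nat_lit 3) (nat_lit 0x270537296b) (nat_lit 0))) (N (nat_lit 4368) (L (E (nat_lit 3) (nat_lit 0x303d80ebbd) (nat_lit 0))) (L (E (nat_lit 3) (nat_lit 0x3695b3ad4f) (nat_lit 0))))) (N (nat_lit 4371) (N (nat_lit 4370) (L (E (nat_lit 3) (nat_lit 0x1294182001) (nat_lit 0))) (L (E (nat_lit 3) (nat_lit 0x4a1526a789) (nat_lit 0)))) (L (E (nat_lit 3) (nat_lit 0x4a2529e7a1) (nat_lit 0)))))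 (N (nat_lit 4375) (N (nat_lit 4374) (N (nat_lit 4373) (L (E (nat_lit 3) (nat_lit 0x36d5862029) (nat_lit 0))) (L (E (nat_lit 3) (nat_lit 0x281404201d) (nat_lit 0)))) (L (E (nat_lit 3) (nat_lit 0x49dd2d27bb) (nat_lit 0)))) (N (nat_lit 4376) (L (E (nat_lit 3) (nat_lit 0x49f543a85f) (nat_lit 0))) (L (E (nat_lit 3) (nat_lit 0x4a05466877) (nat_lit 0))))))))
def cl87 : RA := N (nat_lit 4311) (N (nat_lit 4218) (N (nat_lit 4205) (N (nat_lit 4204) (N (nat_lit 4187) (N (nat_lit 4184) (L (E (nat_lit 3) (nat_lit 0x15bcad6549) (nat_lit 0))) (N (nat_lit 4185) (L (E (nat_lit 3) (nat_lit 0x15fcaf6559) (nat_lit 0))) (N (nat_lit 4186) (L (E (nat_lit 3) (nat_lit 0x1614b0255f) (nat_lit 0))) (L (E (nat_lit 3) (nat_lit 0x220d0fe861) (nat_lit 0)))))) (N (nat_lit 4191) (N (nat_lit 4189) (N (nat_lit 4188) (L (E (nat_lit 3) (nat_lit 0x226d12e877) (nat_lit 0))) (L (E (nat_lit 3) (nat_lit 0x231518289b) (nat_lit 0)))) (N (nat_lit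 4190) (L (E (nat_lit 3) (nat_lit 0x259d2c6947) (nat_lit 0))) (L (E (nat_lit 3) (nat_lit 0x25a52ca949) (nat_lit 0))))) (N (nat_lit 4197) (N (nat_lit 4193) (N (nat_lit 4192) (L (E (nat_lit 3) (nat_lit 0x25f52f2959) (nat_lit 0))) (L (E (nat_lit 3) (nat_lit 0x26a534a97f) (nat_lit 0)))) (N (nat_lit 4195) (N (nat_lit 4194) (L (E (nat_lit 3) (nat_lit 0x2f957c2bbd) (nat_lit 0))) (L (E (nat_lit 3) (nat_lit 0x36d5b62d93) (nat_lit 0)))) (N (nat_lit 4196) (L (E (nat_lit 3) (nat_lit 0x480d18a3e7) (nat_lit 0))) (L (E (nat_lit 3) (nat_lit 0x22bc7c21eb) (nat_lit 0)))))) (N (nat_lit 4201) (N (nat_lit 4199) (N (nat_lit 4198) (L (E (nat_lit 3) (nat_lit 0x3ec5632767) (nat_lit 0))) (L (E (nat_lit 3) (nat_lit 0x475cdc2597) (nat_lit 0)))) (N (nat_lit 4200) (L (E (nat_lit 3) (nat_lit 0x3f647a6313) (nat_lit 0))) (L (E (nat_lit 3) (nat_lit 0x48354aa895) (nat_lit 0))))) (N (nat_lit 4203) (N (nat_lit 4202) (L (E (nat_lit 3)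 (nat_lit 0x39a4c6a001) (nat_lit 0))) (L (E (nat_lit 3) (nat_lit 0x2644fc208d) (nat_lit 0)))) (L (E (nat_lit 3) (nat_lit 0x18d4832001) (nat_lit 0)))))))) (L (E (nat_lit 3) (nat_lit 0x3244006001) (nat_lit 0)))) (N (nat_lit 4210) (N (nat_lit 4207) (N (nat_lit 4206) (L (E (nat_lit 3) (nat_lit 0x231512e877) (nat_lit 0))) (L (E (nat_lit 3) (nat_lit 0x26952ee957) (nat_lit 0)))) (N (nat_lit 4208) (L (E (nat_lit 3) (nat_lit 0x26e5316967) (nat_lit 0))) (N (nat_lit 4209) (L (E (nat_lit 3) (nat_lit 0x274534697d) (nat_lit 0))) (L (E (nat_lit 3) (nat_lit 0x2a4d4caa43) (nat_lit 0)))))) (N (nat_lit 4211) (L (E (nat_lit 3) (nat_lit 0x32ec006001) (nat_lit 0))) (N (nat_lit 4216) (N (nat_lit 4213) (N (nat_lit 4212) (L (E (nat_lit 3) (nat_lit 0x12ec93e497) (nat_lit 0))) (L (E (nat_lit 3) (nat_lit 0x15fcaba555) (nat_lit 0)))) (N (nat_lit 4214) (L (E (nat_lit 3) (nat_lit 0x16acb12581) (nat_lit 0))) (N (nat_lit 4215) (L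 (E (nat_lit 3) (nat_lit 0x1734b5e5a7) (nat_lit 0))) (L (E (nat_lit 3) (nat_lit 0x22c5116883) (nat_lit 0)))))) (N (nat_lit 4217) (L (E (nat_lit 3) (nat_lit 0x22cd11a885) (nat_lit 0))) (L (E (nat_lit 3) (nat_lit 0x231513e897) (nat_lit 0)))))))) (N (nat_lit 4310) (cl85) (L (E (nat_lit 3) (nat_lit 0x333598aca3) (nat_lit 0))))) (N (nat_lit 4377) (N (nat_lit 4322) (N (nat_lit 4312) (L (E (nat_lit 3) (nat_lit 0x334c006001) (nat_lit 0))) (N (nat_lit 4319) (N (nat_lit 4317) (N (nat_lit 4315) (N (nat_lit 4314) (N (nat_lit 4313) (L (E (nat_lit 3) (nat_lit 0x3d65606099) (nat_lit 0))) (L (E (nat_lit 3) (nat_lit 0x165ca8652b) (nat_lit 0)))) (L (E (nat_lit 3) (nat_lit 0x16e4ace545) (nat_lit 0)))) (N (nat_lit 4316) (L (E (nat_lit 3) (nat_lit 0x176cb2256f) (nat_lit 0))) (L (E (nat_lit 3) (nat_lit 0x23fd152883) (nat_lit 0))))) (N (nat_lit 4318) (L (E (nat_lit 3) (nat_lit 0x245518289b) (nat_lit 0))) (L (E (nat_lit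 3) (nat_lit 0x274d2ee957) (nat_lit 0))))) (N (nat_lit 4320) (L (E (nat_lit 3) (nat_lit 0x278d316967) (nat_lit 0))) (N (nat_lit 4321) (L (E (nat_lit 3) (nat_lit 0x27dd34697d) (nat_lit 0))) (L (E (nat_lit 3) (nat_lit 0x29fd44ea13) (nat_lit 0))))))) (N (nat_lit 4323) (L (E (nat_lit 3) (nat_lit 0x319d8b6001) (nat_lit 0))) (cl86))) (N (nat_lit 4378) (L (E (nat_lit 3) (nat_lit 0x31fc006001) (nat_lit 0))) (N (nat_lit 4382) (N (nat_lit 4380) (N (nat_lit 4379) (L (E (nat_lit 3) (nat_lit 0x16ecb2655f) (nat_lit 0))) (L (E (nat_lit 3) (nat_lit 0x231512e867) (nat_lit 0)))) (N (nat_lit 4381) (L (E (nat_lit 3) (nat_lit 0x268d2ea949) (nat_lit 0))) (L (E (nat_lit 3) (nat_lit 0x274d34a96f) (nat_lit 0))))) (L (E (nat_lit 3) (nat_lit 0x32ac006001) (nat_lit 0))))))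
def cl88 : RA := N (nat_lit 4407) (N (nat_lit 4396) (N (nat_lit 4390) (N (nat_lit 4387) (N (nat_lit 4386) (N (nat_lit 4385) (N (nat_lit 4384) (L (E (nat_lit 3) (nat_lit 0x2aa54fea73) (nat_lit 0))) (L (E (nat_lit 3) (nat_lit 0x248d15e8ab) (nat_lit 0)))) (L (E (nat_lit 3) (nat_lit 0x2aad45ea2b) (nat_lit 0)))) (L (E (nat_lit 3) (nat_lit 0x170cafe559) (nat_lit 0)))) (N (nat_lit 4389) (N (nat_lit 4388) (L (E (nat_lit 3) (nat_lit 0x27ad346979) (nat_lit 0))) (L (E (nat_lit 3) (nat_lit 0x30ed7f2bd1) (nat_lit 0)))) (L (E (nat_lit 3) (nat_lit 0x233d15e885) (nat_lit 0))))) (N (nat_lit 4392) (N (nat_lit 4391) (L (E (nat_lit 3) (nat_lit 0x274539a953) (nat_lit 0))) (L (E (nat_lit 3) (nat_lit 0x303d816b9b) (nat_lit 0)))) (N (nat_lit 4394) (N (nat_lit 4393) (L (E (nat_lit 3) (nat_lit 0x176cae256d) (nat_lit 0))) (L (E (nat_lit 3) (nat_lit 0x20acf767b7) (nat_lit 0)))) (N (nat_lit 4395) (L (E (nat_lit 3) (nat_lit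 0x248d1668af) (nat_lit 0))) (L (E (nat_lit 3) (nat_lit 0x36cda76d37) (nat_lit 0))))))) (N (nat_lit 4402) (N (nat_lit 4399) (N (nat_lit 4398) (N (nat_lit 4397) (L (E (nat_lit 3) (nat_lit 0x23b518a8a5) (nat_lit 0))) (L (E (nat_lit 3) (nat_lit 0x235d13a875) (nat_lit 0)))) (L (E (nat_lit 3) (nat_lit 0x239d162883) (nat_lit 0)))) (N (nat_lit 4401) (N (nat_lit 4400) (L (E (nat_lit 3) (nat_lit 0x23e518a897) (nat_lit 0))) (L (E (nat_lit 3) (nat_lit 0x15e4ae2547) (nat_lit 0)))) (L (E (nat_lit 3) (nat_lit 0x26cd34e979) (nat_lit 0))))) (N (nat_lit 4404) (N (nat_lit 4403) (L (E (nat_lit 3) (nat_lit 0x276d3a69a5) (nat_lit 0))) (L (E (nat_lit 3) (nat_lit 0x29ed4dea45) (nat_lit 0)))) (N (nat_lit 4406) (N (nat_lit 4405) (L (E (nat_lit 3) (nat_lit 0x2814042019) (nat_lit 0))) (L (E (nat_lit 3) (nat_lit 0x3115812beb) (nat_lit 0)))) (L (E (nat_lit 3) (nat_lit 0x173cabe559) (nat_lit 0))))))) (N (nat_lit 4416) (N (nat_lit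 4413) (N (nat_lit 4410) (N (nat_lit 4409) (N (nat_lit 4408) (L (E (nat_lit 3) (nat_lit 0x26952d294b) (nat_lit 0))) (L (E (nat_lit 3) (nat_lit 0x1714b4e56f) (nat_lit 0)))) (L (E (nat_lit 3) (nat_lit 0x2715346967) (nat_lit 0)))) (N (nat_lit 4412) (N (nat_lit 4411) (L (E (nat_lit 3) (nat_lit 0x2a5d4eea3b) (nat_lit 0))) (L (E (nat_lit 3) (nat_lit 0x364dae2d33) (nat_lit 0)))) (L (E (nat_lit 3) (nat_lit 0x27fd3f69bf) (nat_lit 0))))) (N (nat_lit 4415) (N (nat_lit 4414) (L (E (nat_lit 3) (nat_lit 0x16e4b0a53f) (nat_lit 0))) (L (E (nat_lit 3) (nat_lit 0x23b516a86d) (nat_lit 0)))) (L (E (nat_lit 3) (nat_lit 0x26e52fa93d) (nat_lit 0))))) (N (nat_lit 4420) (N (nat_lit 4418) (N (nat_lit 4417) (L (E (nat_lit 3) (nat_lit 0x1784afe55f) (nat_lit 0))) (L (E (nat_lit 3) (nat_lit 0x179cb1a56d) (nat_lit 0)))) (N (nat_lit 4419) (L (E (nat_lit 3) (nat_lit 0x2455152885) (nat_lit 0))) (L (E (nat_lit 3) (nat_lit 0x2485176897)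 (nat_lit 0))))) (N (nat_lit 4421) (L (E (nat_lit 3) (nat_lit 0x26fd29e939) (nat_lit 0))) (N (nat_lit 4422) (L (E (nat_lit 3) (nat_lit 0x27ad2f295b) (nat_lit 0))) (L (E (nat_lit 3) (nat_lit 0x280d33a979) (nat_lit 0)))))))
def cl89 : RA := N (nat_lit 4450) (N (nat_lit 4423) (cl88) (N (nat_lit 4439) (N (nat_lit 4431) (N (nat_lit 4427) (N (nat_lit 4424) (L (E (nat_lit 3) (nat_lit 0x268d2b6941) (nat_lit 0))) (N (nat_lit 4426) (N (nat_lit 4425) (L (E (nat_lit 3) (nat_lit 0x278532e975) (nat_lit 0))) (L (E (nat_lit 3) (nat_lit 0x27b534e987) (nat_lit 0)))) (L (E (nat_lit 3) (nat_lit 0x173cb2255f) (nat_lit 0))))) (N (nat_lit 4429) (N (nat_lit 4428) (L (E (nat_lit 3) (nat_lit 0x1784b4e577) (nat_lit 0))) (L (E (nat_lit 3) (nat_lit 0x1a44cae627) (nat_lit 0)))) (N (nat_lit 4430) (L (E (nat_lit 3) (nat_lit 0x241d18688d) (nat_lit 0))) (L (E (nat_lit 3) (nat_lit 0x280538e991) (nat_lit 0)))))) (N (nat_lit 4436) (N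 (nat_lit 4434) (N (nat_lit 4432) (L (E (nat_lit 3) (nat_lit 0x2a5d4a2a21) (nat_lit 0))) (N (nat_lit 4433) (L (E (nat_lit 3) (nat_lit 0x2fe5766b8f) (nat_lit 0))) (L (E (nat_lit 3) (nat_lit 0x36d5ae6d3d) (nat_lit 0))))) (N (nat_lit 4435) (L (E (nat_lit 3) (nat_lit 0x243515e87b) (nat_lit 0))) (L (E (nat_lit 3) (nat_lit 0x245516e883) (nat_lit 0))))) (N (nat_lit 4437) (L (E (nat_lit 3) (nat_lit 0x27cd32a963) (nat_lit 0))) (N (nat_lit 4438) (L (E (nat_lit 3) (nat_lit 0x27dd332967) (nat_lit 0))) (L (E (nat_lit 3) (nat_lit 0x280d356977) (nat_lit 0))))))) (N (nat_lit 4443) (N (nat_lit 4442) (N (nat_lit 4441) (N (nat_lit 4440) (L (E (nat_lit 3) (nat_lit 0x307577ab93) (nat_lit 0))) (L (E (nat_lit 3) (nat_lit 0x16dcb5e555) (nat_lit 0)))) (L (E (nat_lit 3) (nat_lit 0x23fd1ee897) (nat_lit 0)))) (L (E (nat_lit 3) (nat_lit 0x26d535294d) (nat_lit 0)))) (N (nat_lit 4445) (N (nat_lit 4444) (L (E (nat_lit 3) (nat_lit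 0x16a4af2527) (nat_lit 0))) (L (E (nat_lit 3) (nat_lit 0x16bcafe52d) (nat_lit 0)))) (N (nat_lit 4448) (N (nat_lit 4446) (L (E (nat_lit 3) (nat_lit 0x1a14cae603) (nat_lit 0))) (N (nat_lit 4447) (L (E (nat_lit 3) (nat_lit 0x24651d6887) (nat_lit 0))) (L (E (nat_lit 3) (nat_lit 0x2ae551aa2b) (nat_lit 0))))) (N (nat_lit 4449) (L (E (nat_lit 3) (nat_lit 0x1674a8653d) (nat_lit 0))) (L (E (nat_lit 3) (nat_lit 0x198cc1a609) (nat_lit 0))))))))) (N (nat_lit 4473) (N (nat_lit 4464) (N (nat_lit 4456) (N (nat_lit 4454) (N (nat_lit 4452) (N (nat_lit 4451) (L (E (nat_lit 3) (nat_lit 0x16acb1652b) (nat_lit 0))) (L (E (nat_lit 3) (nat_lit 0x230d13e849) (nat_lit 0)))) (N (nat_lit 4453) (L (E (nat_lit 3) (nat_lit 0x274d35e947) (nat_lit 0))) (L (E (nat_lit 3) (nat_lit 0x2a4d4dea11) (nat_lit 0))))) (N (nat_lit 4455) (L (E (nat_lit 3) (nat_lit 0x3145876bd1) (nat_lit 0))) (L (E (nat_lit 3) (nat_lit 0x1674aaa52b) (nat_lit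 0))))) (N (nat_lit 4460) (N (nat_lit 4458) (N (nat_lit 4457) (L (E (nat_lit 3) (nat_lit 0x2385126861) (nat_lit 0))) (L (E (nat_lit 3) (nat_lit 0x26fd2e2943) (nat_lit 0)))) (N (nat_lit 4459) (L (E (nat_lit 3) (nat_lit 0x270d2ea947) (nat_lit 0))) (L (E (nat_lit 3) (nat_lit 0x16dcb0e545) (nat_lit 0))))) (N (nat_lit 4462) (N (nat_lit 4461) (L (E (nat_lit 3) (nat_lit 0x22ed10a84b) (nat_lit 0))) (L (E (nat_lit 3) (nat_lit 0x267d2d6933) (nat_lit 0)))) (N (nat_lit 4463) (L (E (nat_lit 3) (nat_lit 0x1614ace52b) (nat_lit 0))) (L (E (nat_lit 3) (nat_lit 0x1714b4e561) (nat_lit 0))))))) (N (nat_lit 4472) (N (nat_lit 4468) (N (nat_lit 4467) (N (nat_lit 4465) (L (E (nat_lit 3) (nat_lit 0x231d14e861) (nat_lit 0))) (N (nat_lit 4466) (L (E (nat_lit 3) (nat_lit 0x23cd1aa887) (nat_lit 0))) (L (E (nat_lit 3) (nat_lit 0x24151ce89b) (nat_lit 0))))) (L (E (nat_lit 3) (nat_lit 0x26a5312947) (nat_lit 0)))) (N (nat_lit 4470)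 (N (nat_lit 4469) (L (E (nat_lit 3) (nat_lit 0x274d366967) (nat_lit 0))) (L (E (nat_lit 3) (nat_lit 0x28253de9a9) (nat_lit 0)))) (N (nat_lit 4471) (L (E (nat_lit 3) (nat_lit 0x364dae2d29) (nat_lit 0))) (L (E (nat_lit 3) (nat_lit 0x281404a021) (nat_lit 0)))))) (L (E (nat_lit 3) (nat_lit 0x319cfce5b7) (nat_lit 0))))) (N (nat_lit 4488) (N (nat_lit 4479) (N (nat_lit 4474) (L (E (nat_lit 3) (nat_lit 0x31e4ffe5cb) (nat_lit 0))) (N (nat_lit 4475) (L (E (nat_lit 3) (nat_lit 0x321d0225d7) (nat_lit 0))) (N (nat_lit 4477) (N (nat_lit 4476) (L (E (nat_lit 3) (nat_lit 0x345514266f) (nat_lit 0))) (L (E (nat_lit 3) (nat_lit 0x347d16667d) (nat_lit 0)))) (N (nat_lit 4478) (L (E (nat_lit 3) (nat_lit 0x34c519268b) (nat_lit 0))) (L (E (nat_lit 3) (nat_lit 0x35151be699) (nat_lit 0))))))) (N (nat_lit 4484) (N (nat_lit 4481) (N (nat_lit 4480) (L (E (nat_lit 3) (nat_lit 0x35251c669d) (nat_lit 0))) (L (E (nat_lit 3) (nat_lit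 0x352d1ca69f) (nat_lit 0)))) (N (nat_lit 4483) (N (nat_lit 4482) (L (E (nat_lit 3) (nat_lit 0x3de57aa9b9) (nat_lit 0))) (L (E (nat_lit 3) (nat_lit 0x3e8582a9f5) (nat_lit 0)))) (L (E (nat_lit 3) (nat_lit 0x2e652e24e3) (nat_lit 0))))) (N (nat_lit 4485) (L (E (nat_lit 3) (nat_lit 0x2e9d30e4f1) (nat_lit 0))) (N (nat_lit 4487) (N (nat_lit 4486) (L (E (nat_lit 3) (nat_lit 0x2eed33a503) (nat_lit 0))) (L (E (nat_lit 3) (nat_lit 0x2f55372515) (nat_lit 0)))) (L (E (nat_lit 3) (nat_lit 0x2f9d39651b) (nat_lit 0))))))) (L (E (nat_lit 3) (nat_lit 0x317d47659b) (nat_lit 0)))))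
def cl90 : RA := N (nat_lit 4493) (N (nat_lit 4491) (N (nat_lit 4490) (L (E (nat_lit 3) (nat_lit 0x318d49a5ab) (nat_lit 0))) (L (E (nat_lit 3) (nat_lit 0x31cd4ca5c3) (nat_lit 0)))) (N (nat_lit 4492) (L (E (nat_lit 3) (nat_lit 0x29dcb9e005) (nat_lit 0))) (L (E (nat_lit 3) (nat_lit 0x324d5225e3) (nat_lit 0))))) (N (nat_lit 4513) (N (nat_lit 4506) (N (nat_lit 4498) (N (nat_lit 4494) (L (E (nat_lit 3) (nat_lit 0x328d53e5eb) (nat_lit 0))) (N (nat_lit 4497) (N (nat_lit 4496) (N (nat_lit 4495) (L (E (nat_lit 3) (nat_lit 0x3c1db06913) (nat_lit 0))) (L (E (nat_lit 3) (nat_lit 0x3c35b12919) (nat_lit 0)))) (L (E (nat_lit 3) (nat_lit 0x497dc8e3cf) (nat_lit 0)))) (L (E (nat_lit 3) (nat_lit 0x490598a24b) (nat_lit 0))))) (N (nat_lit 4503) (N (nat_lit 4501) (N (nat_lit 4500) (N (nat_lit 4499) (L (E (nat_lit 3) (nat_lit 0x394c736065) (nat_lit 0))) (L (E (nat_lit 3) (nat_lit 0x414cad60df) (nat_lit 0)))) (L (E (nat_lit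 3) (nat_lit 0x49548b2003) (nat_lit 0)))) (N (nat_lit 4502) (L (E (nat_lit 3) (nat_lit 0x2814316021) (nat_lit 0))) (L (E (nat_lit 3) (nat_lit 0x43958f2363) (nat_lit 0))))) (N (nat_lit 4504) (L (E (nat_lit 3) (nat_lit 0x177cb5256d) (nat_lit 0))) (N (nat_lit 4505) (L (E (nat_lit 3) (nat_lit 0x1784b5656f) (nat_lit 0))) (L (E (nat_lit 3) (nat_lit 0x17a4b7257d) (nat_lit 0))))))) (N (nat_lit 4511) (N (nat_lit 4508) (N (nat_lit 4507) (L (E (nat_lit 3) (nat_lit 0x1a0cc8e60d) (nat_lit 0))) (L (E (nat_lit 3) (nat_lit 0x241518a883) (nat_lit 0)))) (N (nat_lit 4510) (N (nat_lit 4509) (L (E (nat_lit 3) (nat_lit 0x247d1ce8a7) (nat_lit 0))) (L (E (nat_lit 3) (nat_lit 0x26a52ce935) (nat_lit 0)))) (L (E (nat_lit 3) (nat_lit 0x15cca8e51d) (nat_lit 0))))) (N (nat_lit 4512) (L (E (nat_lit 3) (nat_lit 0x1664ada531) (nat_lit 0))) (L (E (nat_lit 3) (nat_lit 0x231d12e85b) (nat_lit 0)))))) (N (nat_lit 4521) (N (nat_lit 4515)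 (N (nat_lit 4514) (L (E (nat_lit 3) (nat_lit 0x26a52f2941) (nat_lit 0))) (L (E (nat_lit 3) (nat_lit 0x2a5d4cea27) (nat_lit 0)))) (N (nat_lit 4518) (N (nat_lit 4517) (N (nat_lit 4516) (L (E (nat_lit 3) (nat_lit 0x237d13685f) (nat_lit 0))) (L (E (nat_lit 3) (nat_lit 0x269d2ce933) (nat_lit 0)))) (L (E (nat_lit 3) (nat_lit 0x16b4ade543) (nat_lit 0)))) (N (nat_lit 4520) (N (nat_lit 4519) (L (E (nat_lit 3) (nat_lit 0x16bcae2545) (nat_lit 0))) (L (E (nat_lit 3) (nat_lit 0x1784b5657f) (nat_lit 0)))) (L (E (nat_lit 3) (nat_lit 0x237512e86d) (nat_lit 0)))))) (N (nat_lit 4524) (N (nat_lit 4522) (L (E (nat_lit 3) (nat_lit 0x241d18e897) (nat_lit 0))) (N (nat_lit 4523) (L (E (nat_lit 3) (nat_lit 0x275d326965) (nat_lit 0))) (L (E (nat_lit 3) (nat_lit 0x27d5372989) (nat_lit 0))))) (N (nat_lit 4525) (L (E (nat_lit 3) (nat_lit 0x231510a855) (nat_lit 0))) (N (nat_lit 4526) (L (E (nat_lit 3) (nat_lit 0x236512e861)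 (nat_lit 0))) (N (nat_lit 4528) (N (nat_lit 4527) (L (E (nat_lit 3) (nat_lit 0x26952ce939) (nat_lit 0))) (L (E (nat_lit 3) (nat_lit 0x269d2d293b) (nat_lit 0)))) (L (E (nat_lit 3) (nat_lit 0x26e52ee945) (nat_lit 0)))))))))
def cl91 : RA := N (nat_lit 4592) (N (nat_lit 4583) (N (nat_lit 4575) (N (nat_lit 4569) (N (nat_lit 4568) (L (E (nat_lit 3) (nat_lit 0x15fcaf2571) (nat_lit 0))) (L (E (nat_lit 3) (nat_lit 0x1604af6573) (nat_lit 0)))) (N (nat_lit 4571) (N (nat_lit 4570) (L (E (nat_lit 3) (nat_lit 0x225d122887) (nat_lit 0))) (L (E (nat_lit 3) (nat_lit 0x230d17a8b3) (nat_lit 0)))) (N (nat_lit 4573) (N (nat_lit 4572) (L (E (nat_lit 3) (nat_lit 0x262d30a979) (nat_lit 0))) (L (E (nat_lit 3) (nat_lit 0x28146be021) (nat_lit 0)))) (N (nat_lit 4574) (L (E (nat_lit 3) (nat_lit 0x49754ce56b) (nat_lit 0))) (L (E (nat_lit 3) (nat_lit 0x33855420c3) (nat_lit 0))))))) (N (nat_lit 4580) (N (nat_lit 4577) (N (nat_lit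 4576) (L (E (nat_lit 3) (nat_lit 0x4454c6a16d) (nat_lit 0))) (L (E (nat_lit 3) (nat_lit 0x2d0c23209d) (nat_lit 0)))) (N (nat_lit 4578) (L (E (nat_lit 3) (nat_lit 0x1704ade547) (nat_lit 0))) (N (nat_lit 4579) (L (E (nat_lit 3) (nat_lit 0x178cb32571) (nat_lit 0))) (L (E (nat_lit 3) (nat_lit 0x23dd13a877) (nat_lit 0)))))) (N (nat_lit 4581) (L (E (nat_lit 3) (nat_lit 0x241515e883) (nat_lit 0))) (N (nat_lit 4582) (L (E (nat_lit 3) (nat_lit 0x27052ce945) (nat_lit 0))) (L (E (nat_lit 3) (nat_lit 0x27152d6949) (nat_lit 0))))))) (N (nat_lit 4586) (N (nat_lit 4584) (L (E (nat_lit 3) (nat_lit 0x27dd346977) (nat_lit 0))) (N (nat_lit 4585) (L (E (nat_lit 3) (nat_lit 0x27e534a979) (nat_lit 0))) (L (E (nat_lit 3) (nat_lit 0x3755b1ad5f) (nat_lit 0))))) (N (nat_lit 4590) (N (nat_lit 4588) (N (nat_lit 4587) (L (E (nat_lit 3) (nat_lit 0x1614ade525) (nat_lit 0))) (L (E (nat_lit 3) (nat_lit 0x198cc9a601) (nat_lit 0))))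 (N (nat_lit 4589) (L (E (nat_lit 3) (nat_lit 0x22c512e84b) (nat_lit 0))) (L (E (nat_lit 3) (nat_lit 0x231d15e85b) (nat_lit 0))))) (N (nat_lit 4591) (L (E (nat_lit 3) (nat_lit 0x238518e871) (nat_lit 0))) (L (E (nat_lit 3) (nat_lit 0x26fd34a94f) (nat_lit 0))))))) (N (nat_lit 4607) (N (nat_lit 4603) (N (nat_lit 4598) (N (nat_lit 4595) (N (nat_lit 4594) (N (nat_lit 4593) (L (E (nat_lit 3) (nat_lit 0x270d352953) (nat_lit 0))) (L (E (nat_lit 3) (nat_lit 0x27a53a6977) (nat_lit 0)))) (L (E (nat_lit 3) (nat_lit 0x2ab552ea3f) (nat_lit 0)))) (N (nat_lit 4596) (L (E (nat_lit 3) (nat_lit 0x3d85e96f07) (nat_lit 0))) (N (nat_lit 4597) (L (E (nat_lit 3) (nat_lit 0x16b4b0a535) (nat_lit 0))) (L (E (nat_lit 3) (nat_lit 0x198cc765f7) (nat_lit 0)))))) (N (nat_lit 4602) (N (nat_lit 4600) (N (nat_lit 4599) (L (E (nat_lit 3) (nat_lit 0x1a0ccba60d) (nat_lit 0))) (L (E (nat_lit 3) (nat_lit 0x202cfc2793) (nat_lit 0)))) (N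 (nat_lit 4601) (L (E (nat_lit 3) (nat_lit 0x230d12e84b) (nat_lit 0))) (L (E (nat_lit 3) (nat_lit 0x231d13684f) (nat_lit 0))))) (L (E (nat_lit 3) (nat_lit 0x237d16685f) (nat_lit 0))))) (N (nat_lit 4606) (N (nat_lit 4604) (L (E (nat_lit 3) (nat_lit 0x23ad18286b) (nat_lit 0))) (N (nat_lit 4605) (L (E (nat_lit 3) (nat_lit 0x23b518686d) (nat_lit 0))) (L (E (nat_lit 3) (nat_lit 0x26952f2931) (nat_lit 0))))) (L (E (nat_lit 3) (nat_lit 0x273d34694d) (nat_lit 0))))) (N (nat_lit 4614) (N (nat_lit 4610) (N (nat_lit 4608) (L (E (nat_lit 3) (nat_lit 0x274534a94f) (nat_lit 0))) (N (nat_lit 4609) (L (E (nat_lit 3) (nat_lit 0x2aa5502a29) (nat_lit 0))) (L (E (nat_lit 3) (nat_lit 0x2aad506a2b) (nat_lit 0))))) (N (nat_lit 4612) (N (nat_lit 4611) (L (E (nat_lit 3) (nat_lit 0x36cdb1ed33) (nat_lit 0))) (L (E (nat_lit 3) (nat_lit 0x136c966477) (nat_lit 0)))) (N (nat_lit 4613) (L (E (nat_lit 3) (nat_lit 0x165cade52d) (nat_lit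 0))) (L (E (nat_lit 3) (nat_lit 0x1a0ccba615) (nat_lit 0)))))) (N (nat_lit 4618) (N (nat_lit 4616) (N (nat_lit 4615) (L (E (nat_lit 3) (nat_lit 0x230d12e853) (nat_lit 0))) (L (E (nat_lit 3) (nat_lit 0x237d166867) (nat_lit 0)))) (N (nat_lit 4617) (L (E (nat_lit 3) (nat_lit 0x26952f2939) (nat_lit 0))) (L (E (nat_lit 3) (nat_lit 0x27dd3a697f) (nat_lit 0))))) (N (nat_lit 4621) (N (nat_lit 4620) (N (nat_lit 4619) (L (E (nat_lit 3) (nat_lit 0x2aad506a33) (nat_lit 0))) (L (E (nat_lit 3) (nat_lit 0x30bd812bbb) (nat_lit 0)))) (L (E (nat_lit 3) (nat_lit 0x36d5b22d3d) (nat_lit 0)))) (L (E (nat_lit 3) (nat_lit 0x16ccabe549) (nat_lit 0)))))))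
def cl92 : RA := N (nat_lit 4649) (N (nat_lit 4633) (N (nat_lit 4625) (N (nat_lit 4623) (L (E (nat_lit 3) (nat_lit 0x16fcada555) (nat_lit 0))) (N (nat_lit 4624) (L (E (nat_lit 3) (nat_lit 0x1784b2e57f) (nat_lit 0))) (L (E (nat_lit 3) (nat_lit 0x23350ee861) (nat_lit 0))))) (N (nat_lit 4628) (N (nat_lit 4627) (N (nat_lit 4626) (L (E (nat_lit 3) (nat_lit 0x233d0f2863) (nat_lit 0))) (L (E (nat_lit 3) (nat_lit 0x23dd13a885) (nat_lit 0)))) (L (E (nat_lit 3) (nat_lit 0x241d162897) (nat_lit 0)))) (N (nat_lit 4630) (N (nat_lit 4629) (L (E (nat_lit 3) (nat_lit 0x26a52a6941) (nat_lit 0))) (L (E (nat_lit 3) (nat_lit 0x27452ea95f) (nat_lit 0)))) (N (nat_lit 4632) (N (nat_lit 4631) (L (E (nat_lit 3) (nat_lit 0x278d316971) (nat_lit 0))) (L (E (nat_lit 3) (nat_lit 0x2a5d47ea27) (nat_lit 0)))) (L (E (nat_lit 3) (nat_lit 0x364da6ed23) (nat_lit 0))))))) (N (nat_lit 4641) (N (nat_lit 4636) (N (nat_lit 4635) (N (nat_lit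 4634) (L (E (nat_lit 3) (nat_lit 0x167cb2e57f) (nat_lit 0))) (L (E (nat_lit 3) (nat_lit 0x227d12e87f) (nat_lit 0)))) (L (E (nat_lit 3) (nat_lit 0x22dd15e895) (nat_lit 0)))) (N (nat_lit 4639) (N (nat_lit 4637) (L (E (nat_lit 3) (nat_lit 0x233d18e8af) (nat_lit 0))) (N (nat_lit 4638) (L (E (nat_lit 3) (nat_lit 0x26052f2963) (nat_lit 0))) (L (E (nat_lit 3) (nat_lit 0x29bd4cea51) (nat_lit 0))))) (N (nat_lit 4640) (L (E (nat_lit 3) (nat_lit 0x159caaa51f) (nat_lit 0))) (L (E (nat_lit 3) (nat_lit 0x15fcade52d) (nat_lit 0)))))) (N (nat_lit 4644) (N (nat_lit 4643) (N (nat_lit 4642) (L (E (nat_lit 3) (nat_lit 0x22ad12e853) (nat_lit 0))) (L (E (nat_lit 3) (nat_lit 0x26352f2939) (nat_lit 0)))) (L (E (nat_lit 3) (nat_lit 0x268d322949) (nat_lit 0)))) (N (nat_lit 4647) (N (nat_lit 4645) (L (E (nat_lit 3) (nat_lit 0x29ed4cea1d) (nat_lit 0))) (N (nat_lit 4646) (L (E (nat_lit 3) (nat_lit 0x2a55506a33) (nat_lit 0)))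 (L (E (nat_lit 3) (nat_lit 0x2b1d57aa71) (nat_lit 0))))) (N (nat_lit 4648) (L (E (nat_lit 3) (nat_lit 0x15acac2559) (nat_lit 0))) (L (E (nat_lit 3) (nat_lit 0x15fcaee56f) (nat_lit 0)))))))) (N (nat_lit 4654) (N (nat_lit 4650) (L (E (nat_lit 3) (nat_lit 0x164cb12581) (nat_lit 0))) (N (nat_lit 4651) (L (E (nat_lit 3) (nat_lit 0x16dcb5e5a7) (nat_lit 0))) (N (nat_lit 4653) (N (nat_lit 4652) (L (E (nat_lit 3) (nat_lit 0x22bd14689b) (nat_lit 0))) (L (E (nat_lit 3) (nat_lit 0x230516e8af) (nat_lit 0)))) (L (E (nat_lit 3) (nat_lit 0x236519a8c5) (nat_lit 0)))))) (N (nat_lit 4658) (N (nat_lit 4656) (N (nat_lit 4655) (L (E (nat_lit 3) (nat_lit 0x25dd2de967) (nat_lit 0))) (L (E (nat_lit 3) (nat_lit 0x262d2fe977) (nat_lit 0)))) (N (nat_lit 4657) (L (E (nat_lit 3) (nat_lit 0x2635302979) (nat_lit 0))) (L (E (nat_lit 3) (nat_lit 0x268d332991) (nat_lit 0))))) (N (nat_lit 4660) (N (nat_lit 4659) (L (E (nat_lit 3)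 (nat_lit 0x26dd3569a3) (nat_lit 0))) (L (E (nat_lit 3) (nat_lit 0x26ed35e9a7) (nat_lit 0)))) (N (nat_lit 4661) (L (E (nat_lit 3) (nat_lit 0x272d3829b9) (nat_lit 0))) (L (E (nat_lit 3) (nat_lit 0x294548ea3f) (nat_lit 0)))))))
def cl93 : RA := N (nat_lit 4722) (N (nat_lit 4708) (N (nat_lit 4702) (N (nat_lit 4700) (L (E (nat_lit 3) (nat_lit 0x26fd34a99d) (nat_lit 0))) (N (nat_lit 4701) (L (E (nat_lit 3) (nat_lit 0x15bcace55d) (nat_lit 0))) (L (E (nat_lit 3) (nat_lit 0x220d0f6875) (nat_lit 0))))) (N (nat_lit 4704) (N (nat_lit 4703) (L (E (nat_lit 3) (nat_lit 0x22bd14e89b) (nat_lit 0))) (L (E (nat_lit 3) (nat_lit 0x23bd1ce8df) (nat_lit 0)))) (N (nat_lit 4705) (L (E (nat_lit 3) (nat_lit 0x259d2be957) (nat_lit 0))) (N (nat_lit 4706) (L (E (nat_lit 3) (nat_lit 0x264531297d) (nat_lit 0))) (N (nat_lit 4707) (L (E (nat_lit 3) (nat_lit 0x268d336991) (nat_lit 0))) (L (E (nat_lit 3) (nat_lit 0x269d33e995) (nat_lit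 0)))))))) (N (nat_lit 4714) (N (nat_lit 4710) (N (nat_lit 4709) (L (E (nat_lit 3) (nat_lit 0x26fd36e9ab) (nat_lit 0))) (L (E (nat_lit 3) (nat_lit 0x274d3969c1) (nat_lit 0)))) (N (nat_lit 4712) (N (nat_lit 4711) (L (E (nat_lit 3) (nat_lit 0x295549aa43) (nat_lit 0))) (L (E (nat_lit 3) (nat_lit 0x26c092003) (nat_lit 0)))) (N (nat_lit 4713) (L (E (nat_lit 3) (nat_lit 0x29b4e760e1) (nat_lit 0))) (L (E (nat_lit 3) (nat_lit 0x2a5d016039) (nat_lit 0)))))) (N (nat_lit 4718) (N (nat_lit 4716) (N (nat_lit 4715) (L (E (nat_lit 3) (nat_lit 0x4695ce23ff) (nat_lit 0))) (L (E (nat_lit 3) (nat_lit 0x1664ab253d) (nat_lit 0)))) (N (nat_lit 4717) (L (E (nat_lit 3) (nat_lit 0x168caca545) (nat_lit 0))) (L (E (nat_lit 3) (nat_lit 0x244d1ae8b3) (nat_lit 0))))) (N (nat_lit 4721) (N (nat_lit 4719) (L (E (nat_lit 3) (nat_lit 0x272d30e965) (nat_lit 0))) (N (nat_lit 4720) (L (E (nat_lit 3) (nat_lit 0x273d316969) (nat_lit 0)))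 (L (E (nat_lit 3) (nat_lit 0x27d5372995) (nat_lit 0))))) (L (E (nat_lit 3) (nat_lit 0x27dd376997) (nat_lit 0))))))) (N (nat_lit 4731) (N (nat_lit 4727) (N (nat_lit 4725) (N (nat_lit 4724) (N (nat_lit 4723) (L (E (nat_lit 3) (nat_lit 0x30b57e2bcf) (nat_lit 0))) (L (E (nat_lit 3) (nat_lit 0x15b4a76531) (nat_lit 0)))) (L (E (nat_lit 3) (nat_lit 0x164caba553) (nat_lit 0)))) (N (nat_lit 4726) (L (E (nat_lit 3) (nat_lit 0x16e4b0a57b) (nat_lit 0))) (L (E (nat_lit 3) (nat_lit 0x22ad0ea86b) (nat_lit 0))))) (N (nat_lit 4728) (L (E (nat_lit 3) (nat_lit 0x235d136891) (nat_lit 0))) (N (nat_lit 4730) (N (nat_lit 4729) (L (E (nat_lit 3) (nat_lit 0x23ed18a8bb) (nat_lit 0))) (L (E (nat_lit 3) (nat_lit 0x26352ae94d) (nat_lit 0)))) (L (E (nat_lit 3) (nat_lit 0x26e52fa973) (nat_lit 0)))))) (N (nat_lit 4738) (N (nat_lit 4735) (N (nat_lit 4732) (L (E (nat_lit 3) (nat_lit 0x277d34e99d) (nat_lit 0))) (N (nat_lit 4734)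 (N (nat_lit 4733) (L (E (nat_lit 3) (nat_lit 0x2add50aa7b) (nat_lit 0))) (L (E (nat_lit 3) (nat_lit 0x36fdb1ed85) (nat_lit 0)))) (L (E (nat_lit 3) (nat_lit 0x1704abe559) (nat_lit 0))))) (N (nat_lit 4737) (N (nat_lit 4736) (L (E (nat_lit 3) (nat_lit 0x177cb0a57f) (nat_lit 0))) (L (E (nat_lit 3) (nat_lit 0x22cd0aa84f) (nat_lit 0)))) (L (E (nat_lit 3) (nat_lit 0x23150c285b) (nat_lit 0))))) (N (nat_lit 4739) (L (E (nat_lit 3) (nat_lit 0x237d0ee871) (nat_lit 0))) (L (E (nat_lit 3) (nat_lit 0x23bd10a87f) (nat_lit 0))))))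
def cl94 : RA := N (nat_lit 4757) (N (nat_lit 4752) (N (nat_lit 4748) (N (nat_lit 4744) (N (nat_lit 4743) (N (nat_lit 4742) (N (nat_lit 4741) (L (E (nat_lit 3) (nat_lit 0x244d15e8a9) (nat_lit 0))) (L (E (nat_lit 3) (nat_lit 0x246516a8af) (nat_lit 0)))) (L (E (nat_lit 3) (nat_lit 0x2655276935) (nat_lit 0)))) (L (E (nat_lit 3) (nat_lit 0x26a5292943) (nat_lit 0)))) (N (nat_lit 4746) (N (nat_lit 4745) (L (E (nat_lit 3) (nat_lit 0x27d532298b) (nat_lit 0))) (L (E (nat_lit 3) (nat_lit 0x280534699d) (nat_lit 0)))) (N (nat_lit 4747) (L (E (nat_lit 3) (nat_lit 0x3645a52d23) (nat_lit 0))) (L (E (nat_lit 3) (nat_lit 0x1604a92523) (nat_lit 0)))))) (N (nat_lit 4750) (N (nat_lit 4749) (L (E (nat_lit 3) (nat_lit 0x165caba531) (nat_lit 0))) (L (E (nat_lit 3) (nat_lit 0x1704b12559) (nat_lit 0)))) (N (nat_lit 4751) (L (E (nat_lit 3) (nat_lit 0x173cb3656b) (nat_lit 0))) (L (E (nat_lit 3) (nat_lit 0x177cb5e57f) (nat_lit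 0)))))) (N (nat_lit 4753) (L (E (nat_lit 3) (nat_lit 0x23bd16687f) (nat_lit 0))) (N (nat_lit 4755) (N (nat_lit 4754) (L (E (nat_lit 3) (nat_lit 0x23cd16e883) (nat_lit 0))) (L (E (nat_lit 3) (nat_lit 0x24551be8ab) (nat_lit 0)))) (N (nat_lit 4756) (L (E (nat_lit 3) (nat_lit 0x24651c68af) (nat_lit 0))) (L (E (nat_lit 3) (nat_lit 0x275d332967) (nat_lit 0))))))) (N (nat_lit 4767) (N (nat_lit 4761) (N (nat_lit 4758) (L (E (nat_lit 3) (nat_lit 0x279d356977) (nat_lit 0))) (N (nat_lit 4759) (L (E (nat_lit 3) (nat_lit 0x27dd38298d) (nat_lit 0))) (N (nat_lit 4760) (L (E (nat_lit 3) (nat_lit 0x169ca92543) (nat_lit 0))) (L (E (nat_lit 3) (nat_lit 0x176cb0a57f) (nat_lit 0)))))) (N (nat_lit 4763) (N (nat_lit 4762) (L (E (nat_lit 3) (nat_lit 0x17acb3a597) (nat_lit 0))) (L (E (nat_lit 3) (nat_lit 0x22bd0aa84f) (nat_lit 0)))) (N (nat_lit 4764) (L (E (nat_lit 3) (nat_lit 0x23ad10a87f) (nat_lit 0))) (N (nat_lit 4765)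 (L (E (nat_lit 3) (nat_lit 0x23fd136895) (nat_lit 0))) (N (nat_lit 4766) (L (E (nat_lit 3) (nat_lit 0x241514289b) (nat_lit 0))) (L (E (nat_lit 3) (nat_lit 0x248518e8c1) (nat_lit 0)))))))) (N (nat_lit 4773) (N (nat_lit 4771) (N (nat_lit 4768) (L (E (nat_lit 3) (nat_lit 0x268d28e941) (nat_lit 0))) (N (nat_lit 4770) (N (nat_lit 4769) (L (E (nat_lit 3) (nat_lit 0x278d2fa977) (nat_lit 0))) (L (E (nat_lit 3) (nat_lit 0x27dd32e991) (nat_lit 0)))) (L (E (nat_lit 3) (nat_lit 0x29fd43ea19) (nat_lit 0))))) (N (nat_lit 4772) (L (E (nat_lit 3) (nat_lit 0x36c5a9ed49) (nat_lit 0))) (L (E (nat_lit 3) (nat_lit 0x1664abe555) (nat_lit 0))))) (N (nat_lit 4776) (N (nat_lit 4775) (N (nat_lit 4774) (L (E (nat_lit 3) (nat_lit 0x2034fa27c7) (nat_lit 0))) (L (E (nat_lit 3) (nat_lit 0x230d10a87b) (nat_lit 0)))) (L (E (nat_lit 3) (nat_lit 0x237d13e895) (nat_lit 0)))) (N (nat_lit 4778) (N (nat_lit 4777) (L (E (nat_lit 3) (nat_lit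 0x268d2ce95d) (nat_lit 0))) (L (E (nat_lit 3) (nat_lit 0x274d32a98b) (nat_lit 0)))) (N (nat_lit 4780) (N (nat_lit 4779) (L (E (nat_lit 3) (nat_lit 0x27e53869b9) (nat_lit 0))) (L (E (nat_lit 3) (nat_lit 0x27ed38a9bb) (nat_lit 0)))) (L (E (nat_lit 3) (nat_lit 0x36cdaf6d71) (nat_lit 0))))))))
def cl95 : RA := N (nat_lit 4699) (N (nat_lit 4662) (cl92) (N (nat_lit 4683) (N (nat_lit 4673) (N (nat_lit 4668) (N (nat_lit 4666) (N (nat_lit 4664) (N (nat_lit 4663) (L (E (nat_lit 3) (nat_lit 0x29e54daa65) (nat_lit 0))) (L (E (nat_lit 3) (nat_lit 0xd5c642309) (nat_lit 0)))) (N (nat_lit 4665) (L (E (nat_lit 3) (nat_lit 0x16e4ade547) (nat_lit 0))) (L (E (nat_lit 3) (nat_lit 0x235510285d) (nat_lit 0))))) (N (nat_lit 4667) (L (E (nat_lit 3) (nat_lit 0x23a512e871) (nat_lit 0))) (L (E (nat_lit 3) (nat_lit 0x23f515e883) (nat_lit 0))))) (N (nat_lit 4671) (N (nat_lit 4669) (L (E (nat_lit 3) (nat_lit 0x23fd162885) (nat_lit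 0))) (N (nat_lit 4670) (L (E (nat_lit 3) (nat_lit 0x246519a8a1) (nat_lit 0))) (L (E (nat_lit 3) (nat_lit 0x24951c28b5) (nat_lit 0))))) (N (nat_lit 4672) (L (E (nat_lit 3) (nat_lit 0x27bd346977) (nat_lit 0))) (L (E (nat_lit 3) (nat_lit 0x3025776b99) (nat_lit 0)))))) (N (nat_lit 4677) (N (nat_lit 4675) (N (nat_lit 4674) (L (E (nat_lit 3) (nat_lit 0x163ca86535) (nat_lit 0))) (L (E (nat_lit 3) (nat_lit 0x16d4ad6559) (nat_lit 0)))) (N (nat_lit 4676) (L (E (nat_lit 3) (nat_lit 0x16e4ade55d) (nat_lit 0))) (L (E (nat_lit 3) (nat_lit 0x171cafe56f) (nat_lit 0))))) (N (nat_lit 4680) (N (nat_lit 4678) (L (E (nat_lit 3) (nat_lit 0x177cb3a58b) (nat_lit 0))) (N (nat_lit 4679) (L (E (nat_lit 3) (nat_lit 0x1a04c6e627) (nat_lit 0))) (L (E (nat_lit 3) (nat_lit 0x235d106875) (nat_lit 0))))) (N (nat_lit 4682) (N (nat_lit 4681) (L (E (nat_lit 3) (nat_lit 0x239d12a883) (nat_lit 0))) (L (E (nat_lit 3) (nat_lit 0x23a512e885)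 (nat_lit 0)))) (L (E (nat_lit 3) (nat_lit 0x23f515e89b) (nat_lit 0))))))) (N (nat_lit 4686) (N (nat_lit 4685) (N (nat_lit 4684) (L (E (nat_lit 3) (nat_lit 0x24351828af) (nat_lit 0))) (L (E (nat_lit 3) (nat_lit 0x249d1c68cf) (nat_lit 0)))) (L (E (nat_lit 3) (nat_lit 0x272d2ee967) (nat_lit 0)))) (N (nat_lit 4693) (N (nat_lit 4689) (N (nat_lit 4688) (N (nat_lit 4687) (L (E (nat_lit 3) (nat_lit 0x277531a979) (nat_lit 0))) (L (E (nat_lit 3) (nat_lit 0x279d32e983) (nat_lit 0)))) (L (E (nat_lit 3) (nat_lit 0x27bd346991) (nat_lit 0)))) (N (nat_lit 4691) (N (nat_lit 4690) (L (E (nat_lit 3) (nat_lit 0x27f53729a5) (nat_lit 0))) (L (E (nat_lit 3) (nat_lit 0x27fd3769a7) (nat_lit 0)))) (N (nat_lit 4692) (L (E (nat_lit 3) (nat_lit 0x2a8d4aaa43) (nat_lit 0))) (L (E (nat_lit 3) (nat_lit 0x30c57cebd5) (nat_lit 0)))))) (N (nat_lit 4697) (N (nat_lit 4695) (N (nat_lit 4694) (L (E (nat_lit 3) (nat_lit 0x36b5abed4d) (nat_lit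 0))) (L (E (nat_lit 3) (nat_lit 0x1614ade567) (nat_lit 0)))) (N (nat_lit 4696) (L (E (nat_lit 3) (nat_lit 0x231d15e8a7) (nat_lit 0))) (L (E (nat_lit 3) (nat_lit 0x23751868bb) (nat_lit 0))))) (N (nat_lit 4698) (L (E (nat_lit 3) (nat_lit 0x24652068fb) (nat_lit 0))) (L (E (nat_lit 3) (nat_lit 0x25f52ce95f) (nat_lit 0))))))))) (N (nat_lit 4740) (cl93) (cl94))
def cl96 : RA := N (nat_lit 4622) (N (nat_lit 4545) (L (E (nat_lit 3) (nat_lit 0x319400a001) (nat_lit 0))) (N (nat_lit 4567) (N (nat_lit 4556) (N (nat_lit 4555) (N (nat_lit 4549) (N (nat_lit 4547) (N (nat_lit 4546) (L (E (nat_lit 3) (nat_lit 0x172cb2e573) (nat_lit 0))) (L (E (nat_lit 3) (nat_lit 0x176cb56587) (nat_lit 0)))) (N (nat_lit 4548) (L (E (nat_lit 3) (nat_lit 0x235d12e875) (nat_lit 0))) (L (E (nat_lit 3) (nat_lit 0x272d31a967) (nat_lit 0))))) (N (nat_lit 4552) (N (nat_lit 4550) (L (E (nat_lit 3) (nat_lit 0x278534a97d) (nat_lit 0))) (N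 (nat_lit 4551) (L (E (nat_lit 3) (nat_lit 0x311581ebeb) (nat_lit 0))) (L (E (nat_lit 3) (nat_lit 0x207cff67c1) (nat_lit 0))))) (N (nat_lit 4554) (N (nat_lit 4553) (L (E (nat_lit 3) (nat_lit 0x22ad106853) (nat_lit 0))) (L (E (nat_lit 3) (nat_lit 0x26352ce939) (nat_lit 0)))) (L (E (nat_lit 3) (nat_lit 0x272d346967) (nat_lit 0)))))) (L (E (nat_lit 3) (nat_lit 0x335400a001) (nat_lit 0)))) (N (nat_lit 4562) (N (nat_lit 4559) (N (nat_lit 4557) (L (E (nat_lit 3) (nat_lit 0x15fcaee571) (nat_lit 0))) (N (nat_lit 4558) (L (E (nat_lit 3) (nat_lit 0x25dd2de969) (nat_lit 0))) (L (E (nat_lit 3) (nat_lit 0x273d38a9bf) (nat_lit 0))))) (N (nat_lit 4560) (L (E (nat_lit 3) (nat_lit 0x1614ada567) (nat_lit 0))) (N (nat_lit 4561) (L (E (nat_lit 3) (nat_lit 0x221d0e286b) (nat_lit 0))) (L (E (nat_lit 3) (nat_lit 0x226d10287b) (nat_lit 0)))))) (N (nat_lit 4563) (L (E (nat_lit 3) (nat_lit 0x22cd12e891) (nat_lit 0))) (N (nat_lit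 4565) (N (nat_lit 4564) (L (E (nat_lit 3) (nat_lit 0x232515e8a9) (nat_lit 0))) (L (E (nat_lit 3) (nat_lit 0x23751828bb) (nat_lit 0)))) (N (nat_lit 4566) (L (E (nat_lit 3) (nat_lit 0x27153529a3) (nat_lit 0))) (L (E (nat_lit 3) (nat_lit 0x15b4ace55d) (nat_lit 0)))))))) (cl91))) (N (nat_lit 4782) (N (nat_lit 4781) (cl95) (L (E (nat_lit 3) (nat_lit 0x337c00a003) (nat_lit 0)))) (N (nat_lit 4801) (N (nat_lit 4792) (N (nat_lit 4787) (N (nat_lit 4784) (N (nat_lit 4783) (L (E (nat_lit 3) (nat_lit 0x161cb02529) (nat_lit 0))) (L (E (nat_lit 3) (nat_lit 0x16b4b4e545) (nat_lit 0)))) (N (nat_lit 4786) (N (nat_lit 4785) (L (E (nat_lit 3) (nat_lit 0x16bcb52547) (nat_lit 0))) (L (E (nat_lit 3) (nat_lit 0x174cb9a56f) (nat_lit 0)))) (L (E (nat_lit 3) (nat_lit 0x237d1b2871) (nat_lit 0))))) (N (nat_lit 4789) (N (nat_lit 4788) (L (E (nat_lit 3) (nat_lit 0x23cd1da883) (nat_lit 0))) (L (E (nat_lit 3) (nat_lit 0x24151fe897)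 (nat_lit 0)))) (N (nat_lit 4791) (N (nat_lit 4790) (L (E (nat_lit 3) (nat_lit 0x2665326939) (nat_lit 0))) (L (E (nat_lit 3) (nat_lit 0x26a5346943) (nat_lit 0)))) (L (E (nat_lit 3) (nat_lit 0x275d3a2967) (nat_lit 0)))))) (N (nat_lit 4798) (N (nat_lit 4795) (N (nat_lit 4794) (N (nat_lit 4793) (L (E (nat_lit 3) (nat_lit 0x279d3c2977) (nat_lit 0))) (L (E (nat_lit 3) (nat_lit 0x27a53c6979) (nat_lit 0)))) (L (E (nat_lit 3) (nat_lit 0x1624ab252b) (nat_lit 0)))) (N (nat_lit 4797) (N (nat_lit 4796) (L (E (nat_lit 3) (nat_lit 0x174cb4e56f) (nat_lit 0))) (L (E (nat_lit 3) (nat_lit 0x238d15e875) (nat_lit 0)))) (L (E (nat_lit 3) (nat_lit 0x23cd182883) (nat_lit 0))))) (N (nat_lit 4799) (L (E (nat_lit 3) (nat_lit 0x275d346967) (nat_lit 0))) (N (nat_lit 4800) (L (E (nat_lit 3) (nat_lit 0x279d36e977) (nat_lit 0))) (L (E (nat_lit 3) (nat_lit 0x281d3be9a3) (nat_lit 0))))))) (L (E (nat_lit 3) (nat_lit 0x32f400a001)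 (nat_lit 0)))))
def cl97 : RA := N (nat_lit 4837) (N (nat_lit 4825) (N (nat_lit 4822) (N (nat_lit 4820) (N (nat_lit 4818) (N (nat_lit 4817) (L (E (nat_lit 3) (nat_lit 0x165cb22535) (nat_lit 0))) (L (E (nat_lit 3) (nat_lit 0x16a4b46545) (nat_lit 0)))) (N (nat_lit 4819) (L (E (nat_lit 3) (nat_lit 0x173cb9256f) (nat_lit 0))) (L (E (nat_lit 3) (nat_lit 0x1784bb6585) (nat_lit 0))))) (N (nat_lit 4821) (L (E (nat_lit 3) (nat_lit 0x237d1b2875) (nat_lit 0))) (L (E (nat_lit 3) (nat_lit 0x23bd1d2883) (nat_lit 0))))) (N (nat_lit 4824) (N (nat_lit 4823) (L (E (nat_lit 3) (nat_lit 0x24151fe89b) (nat_lit 0))) (L (E (nat_lit 3) (nat_lit 0x269533e943) (nat_lit 0)))) (L (E (nat_lit 3) (nat_lit 0x274d39a967) (nat_lit 0))))) (N (nat_lit 4831) (N (nat_lit 4828) (N (nat_lit 4826) (L (E (nat_lit 3) (nat_lit 0x281d4029a7) (nat_lit 0))) (N (nat_lit 4827) (L (E (nat_lit 3) (nat_lit 0x369db42d3b) (nat_lit 0))) (L (E (nat_lit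 3) (nat_lit 0x36d5b5ed4d) (nat_lit 0))))) (N (nat_lit 4829) (L (E (nat_lit 3) (nat_lit 0x15fcabe52b) (nat_lit 0))) (N (nat_lit 4830) (L (E (nat_lit 3) (nat_lit 0x16dcb32559) (nat_lit 0))) (L (E (nat_lit 3) (nat_lit 0x2355162871) (nat_lit 0)))))) (N (nat_lit 4836) (N (nat_lit 4834) (N (nat_lit 4832) (L (E (nat_lit 3) (nat_lit 0x23a518e883) (nat_lit 0))) (N (nat_lit 4833) (L (E (nat_lit 3) (nat_lit 0x268d2fe947) (nat_lit 0))) (L (E (nat_lit 3) (nat_lit 0x2735352967) (nat_lit 0))))) (N (nat_lit 4835) (L (E (nat_lit 3) (nat_lit 0x2a454daa2d) (nat_lit 0))) (L (E (nat_lit 3) (nat_lit 0x1614af6547) (nat_lit 0))))) (L (E (nat_lit 3) (nat_lit 0x16b4b4656f) (nat_lit 0)))))) (N (nat_lit 4847) (N (nat_lit 4840) (N (nat_lit 4839) (N (nat_lit 4838) (L (E (nat_lit 3) (nat_lit 0x170cb72585) (nat_lit 0))) (L (E (nat_lit 3) (nat_lit 0x231d17a883) (nat_lit 0)))) (L (E (nat_lit 3) (nat_lit 0x23851ae89b) (nat_lit 0))))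 (N (nat_lit 4842) (N (nat_lit 4841) (L (E (nat_lit 3) (nat_lit 0x25fd2ea947) (nat_lit 0))) (L (E (nat_lit 3) (nat_lit 0x29ad4c2a2b) (nat_lit 0)))) (N (nat_lit 4845) (N (nat_lit 4844) (N (nat_lit 4843) (L (E (nat_lit 3) (nat_lit 0x2a5d51aa55) (nat_lit 0))) (L (E (nat_lit 3) (nat_lit 0x28140a2021) (nat_lit 0)))) (L (E (nat_lit 3) (nat_lit 0x487ceee39f) (nat_lit 0)))) (N (nat_lit 4846) (L (E (nat_lit 3) (nat_lit 0x173cafe55f) (nat_lit 0))) (L (E (nat_lit 3) (nat_lit 0x176cb22571) (nat_lit 0))))))) (N (nat_lit 4850) (N (nat_lit 4849) (N (nat_lit 4848) (L (E (nat_lit 3) (nat_lit 0x1a14c66617) (nat_lit 0))) (L (E (nat_lit 3) (nat_lit 0x248d1ae8b3) (nat_lit 0)))) (L (E (nat_lit 3) (nat_lit 0x274d2ee959) (nat_lit 0)))) (N (nat_lit 4853) (N (nat_lit 4851) (L (E (nat_lit 3) (nat_lit 0x27dd34697f) (nat_lit 0))) (N (nat_lit 4852) (L (E (nat_lit 3) (nat_lit 0x29ed446a11) (nat_lit 0))) (L (E (nat_lit 3) (nat_lit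 0x2b0d4f2a57) (nat_lit 0))))) (N (nat_lit 4854) (L (E (nat_lit 3) (nat_lit 0x15b4a76523) (nat_lit 0))) (N (nat_lit 4855) (L (E (nat_lit 3) (nat_lit 0x235d13687b) (nat_lit 0))) (L (E (nat_lit 3) (nat_lit 0x274d332977) (nat_lit 0))))))))
def cl98 : RA := N (nat_lit 4883) (N (nat_lit 4868) (N (nat_lit 4863) (N (nat_lit 4859) (N (nat_lit 4858) (N (nat_lit 4857) (L (E (nat_lit 3) (nat_lit 0x1734b0a555) (nat_lit 0))) (L (E (nat_lit 3) (nat_lit 0x17acb5e57f) (nat_lit 0)))) (L (E (nat_lit 3) (nat_lit 0x241516e883) (nat_lit 0)))) (N (nat_lit 4861) (N (nat_lit 4860) (L (E (nat_lit 3) (nat_lit 0x27dd356977) (nat_lit 0))) (L (E (nat_lit 3) (nat_lit 0x308d7aaba5) (nat_lit 0)))) (N (nat_lit 4862) (L (E (nat_lit 3) (nat_lit 0x1664a72531) (nat_lit 0))) (L (E (nat_lit 3) (nat_lit 0x1fecf3a795) (nat_lit 0)))))) (N (nat_lit 4864) (L (E (nat_lit 3) (nat_lit 0x264d272931) (nat_lit 0))) (N (nat_lit 4866) (N (nat_lit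 4865) (L (E (nat_lit 3) (nat_lit 0x23bd116883) (nat_lit 0))) (L (E (nat_lit 3) (nat_lit 0x237d12a88b) (nat_lit 0)))) (N (nat_lit 4867) (L (E (nat_lit 3) (nat_lit 0x2715322949) (nat_lit 0))) (L (E (nat_lit 3) (nat_lit 0x239d1be895) (nat_lit 0))))))) (N (nat_lit 4876) (N (nat_lit 4872) (N (nat_lit 4870) (N (nat_lit 4869) (L (E (nat_lit 3) (nat_lit 0x23a51c2897) (nat_lit 0))) (L (E (nat_lit 3) (nat_lit 0x25cd2d6933) (nat_lit 0)))) (N (nat_lit 4871) (L (E (nat_lit 3) (nat_lit 0x276d3a698b) (nat_lit 0))) (L (E (nat_lit 3) (nat_lit 0x22bd14e84f) (nat_lit 0))))) (N (nat_lit 4874) (N (nat_lit 4873) (L (E (nat_lit 3) (nat_lit 0x23bd1ce883) (nat_lit 0))) (L (E (nat_lit 3) (nat_lit 0x22ed12e84b) (nat_lit 0)))) (N (nat_lit 4875) (L (E (nat_lit 3) (nat_lit 0x361dac2d13) (nat_lit 0))) (L (E (nat_lit 3) (nat_lit 0x1674afa549) (nat_lit 0)))))) (N (nat_lit 4879) (N (nat_lit 4877) (L (E (nat_lit 3) (nat_lit 0x23dd1b289d)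 (nat_lit 0))) (N (nat_lit 4878) (L (E (nat_lit 3) (nat_lit 0x24651f68c5) (nat_lit 0))) (L (E (nat_lit 3) (nat_lit 0x4a164ae789) (nat_lit 0))))) (N (nat_lit 4881) (N (nat_lit 4880) (L (E (nat_lit 3) (nat_lit 0x28144de021) (nat_lit 0))) (L (E (nat_lit 3) (nat_lit 0x3314ed2037) (nat_lit 0)))) (N (nat_lit 4882) (L (E (nat_lit 3) (nat_lit 0x47bca9218f) (nat_lit 0))) (L (E (nat_lit 3) (nat_lit 0x481cdf62fd) (nat_lit 0)))))))) (N (nat_lit 4896) (N (nat_lit 4891) (N (nat_lit 4887) (N (nat_lit 4885) (N (nat_lit 4884) (L (E (nat_lit 3) (nat_lit 0x16a4b0a531) (nat_lit 0))) (L (E (nat_lit 3) (nat_lit 0x1734b5a555) (nat_lit 0)))) (N (nat_lit 4886) (L (E (nat_lit 3) (nat_lit 0x235d15e857) (nat_lit 0))) (L (E (nat_lit 3) (nat_lit 0x23b518e86d) (nat_lit 0))))) (N (nat_lit 4889) (N (nat_lit 4888) (L (E (nat_lit 3) (nat_lit 0x274535294f) (nat_lit 0))) (L (E (nat_lit 3) (nat_lit 0x27fd3c6987) (nat_lit 0)))) (N (nat_lit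 4890) (L (E (nat_lit 3) (nat_lit 0x280d3ce98b) (nat_lit 0))) (L (E (nat_lit 3) (nat_lit 0x36c5b22d31) (nat_lit 0)))))) (N (nat_lit 4895) (N (nat_lit 4894) (N (nat_lit 4893) (N (nat_lit 4892) (L (E (nat_lit 3) (nat_lit 0x401dfdaf9b) (nat_lit 0))) (L (E (nat_lit 3) (nat_lit 0x131c95648f) (nat_lit 0)))) (L (E (nat_lit 3) (nat_lit 0x1554a76523) (nat_lit 0)))) (L (E (nat_lit 3) (nat_lit 0x16a4b1656d) (nat_lit 0)))) (L (E (nat_lit 3) (nat_lit 0x2315146883) (nat_lit 0))))) (N (nat_lit 4900) (N (nat_lit 4899) (N (nat_lit 4897) (L (E (nat_lit 3) (nat_lit 0x268d302963) (nat_lit 0))) (N (nat_lit 4898) (L (E (nat_lit 3) (nat_lit 0x165cad652d) (nat_lit 0))) (L (E (nat_lit 3) (nat_lit 0x16acafe53b) (nat_lit 0))))) (L (E (nat_lit 3) (nat_lit 0x173cb4e55f) (nat_lit 0)))) (N (nat_lit 4902) (N (nat_lit 4901) (L (E (nat_lit 3) (nat_lit 0x230d126853) (nat_lit 0))) (L (E (nat_lit 3) (nat_lit 0x23bd182877) (nat_lit 0))))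 (N (nat_lit 4904) (N (nat_lit 4903) (L (E (nat_lit 3) (nat_lit 0x2a554caa1f) (nat_lit 0))) (L (E (nat_lit 3) (nat_lit 0x141494a499) (nat_lit 0)))) (L (E (nat_lit 3) (nat_lit 0x177cafa56f) (nat_lit 0)))))))
def cl99 : RA := N (nat_lit 4856) (N (nat_lit 4816) (N (nat_lit 4813) (N (nat_lit 4809) (N (nat_lit 4805) (N (nat_lit 4804) (N (nat_lit 4803) (L (E (nat_lit 3) (nat_lit 0x16b4b4656b) (nat_lit 0))) (L (E (nat_lit 3) (nat_lit 0x226d12285b) (nat_lit 0)))) (L (E (nat_lit 3) (nat_lit 0x227d12a85f) (nat_lit 0)))) (N (nat_lit 4807) (N (nat_lit 4806) (L (E (nat_lit 3) (nat_lit 0x237d1aa895) (nat_lit 0))) (L (E (nat_lit 3) (nat_lit 0x23851ae897) (nat_lit 0)))) (N (nat_lit 4808) (L (E (nat_lit 3) (nat_lit 0x25a52be931) (nat_lit 0))) (L (E (nat_lit 3) (nat_lit 0x25f52e6941) (nat_lit 0)))))) (N (nat_lit 4811) (N (nat_lit 4810) (L (E (nat_lit 3) (nat_lit 0x264d31294f) (nat_lit 0))) (L (E (nat_lit 3) (nat_lit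 0x26a533e963) (nat_lit 0)))) (N (nat_lit 4812) (L (E (nat_lit 3) (nat_lit 0x26bd34a969) (nat_lit 0))) (L (E (nat_lit 3) (nat_lit 0x270536e977) (nat_lit 0)))))) (N (nat_lit 4814) (L (E (nat_lit 3) (nat_lit 0x328d932c67) (nat_lit 0))) (N (nat_lit 4815) (L (E (nat_lit 3) (nat_lit 0x363db0ad45) (nat_lit 0))) (L (E (nat_lit 3) (nat_lit 0x1614afe52b) (nat_lit 0)))))) (cl97)) (N (nat_lit 4905) (cl98) (N (nat_lit 4920) (N (nat_lit 4910) (N (nat_lit 4906) (L (E (nat_lit 3) (nat_lit 0x1784afe571) (nat_lit 0))) (N (nat_lit 4908) (N (nat_lit 4907) (L (E (nat_lit 3) (nat_lit 0x23750da85f) (nat_lit 0))) (L (E (nat_lit 3) (nat_lit 0x23850e2863) (nat_lit 0)))) (N (nat_lit 4909) (L (E (nat_lit 3) (nat_lit 0x241512a885) (nat_lit 0))) (L (E (nat_lit 3) (nat_lit 0x241d12e887) (nat_lit 0)))))) (N (nat_lit 4916) (N (nat_lit 4913) (N (nat_lit 4912) (N (nat_lit 4911) (L (E (nat_lit 3) (nat_lit 0x2455152897) (nat_lit 0)))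 (L (E (nat_lit 3) (nat_lit 0x24a51868b3) (nat_lit 0)))) (L (E (nat_lit 3) (nat_lit 0x27a52ee969) (nat_lit 0)))) (N (nat_lit 4915) (N (nat_lit 4914) (L (E (nat_lit 3) (nat_lit 0x27dd316979) (nat_lit 0))) (L (E (nat_lit 3) (nat_lit 0x309576eba9) (nat_lit 0)))) (L (E (nat_lit 3) (nat_lit 0x1604ae651d) (nat_lit 0))))) (N (nat_lit 4918) (N (nat_lit 4917) (L (E (nat_lit 3) (nat_lit 0x1614aee521) (nat_lit 0))) (L (E (nat_lit 3) (nat_lit 0x230d16684d) (nat_lit 0)))) (N (nat_lit 4919) (L (E (nat_lit 3) (nat_lit 0x169cb3e56d) (nat_lit 0))) (L (E (nat_lit 3) (nat_lit 0x16dcb5e57d) (nat_lit 0))))))) (N (nat_lit 4929) (N (nat_lit 4925) (N (nat_lit 4921) (L (E (nat_lit 3) (nat_lit 0x236519a897) (nat_lit 0))) (N (nat_lit 4923) (N (nat_lit 4922) (L (E (nat_lit 3) (nat_lit 0x23b51ca8af) (nat_lit 0))) (L (E (nat_lit 3) (nat_lit 0x29e54daa3b) (nat_lit 0)))) (N (nat_lit 4924) (L (E (nat_lit 3) (nat_lit 0x164caf2527)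 (nat_lit 0))) (L (E (nat_lit 3) (nat_lit 0x165cafa52b) (nat_lit 0)))))) (N (nat_lit 4927) (N (nat_lit 4926) (L (E (nat_lit 3) (nat_lit 0x236517a85f) (nat_lit 0))) (L (E (nat_lit 3) (nat_lit 0x26e533a943) (nat_lit 0)))) (N (nat_lit 4928) (L (E (nat_lit 3) (nat_lit 0x2aa5522a2f) (nat_lit 0))) (L (E (nat_lit 3) (nat_lit 0x1704ad6547) (nat_lit 0)))))) (N (nat_lit 4931) (N (nat_lit 4930) (L (E (nat_lit 3) (nat_lit 0x170cada549) (nat_lit 0))) (L (E (nat_lit 3) (nat_lit 0x1784b2656f) (nat_lit 0)))) (N (nat_lit 4934) (N (nat_lit 4932) (L (E (nat_lit 3) (nat_lit 0x2385102861) (nat_lit 0))) (N (nat_lit 4933) (L (E (nat_lit 3) (nat_lit 0x247518a89d) (nat_lit 0))) (L (E (nat_lit 3) (nat_lit 0x270d2ca947) (nat_lit 0))))) (L (E (nat_lit 3) (nat_lit 0x27a531a967) (nat_lit 0))))))))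
def cl100 : RA := N (nat_lit 4973) (N (nat_lit 4956) (N (nat_lit 4947) (N (nat_lit 4941) (N (nat_lit 4940) (N (nat_lit 4939) (N (nat_lit 4938) (L (E (nat_lit 3) (nat_lit 0x3645a62d15) (nat_lit 0))) (L (E (nat_lit 3) (nat_lit 0x16aca9e539) (nat_lit 0)))) (L (E (nat_lit 3) (nat_lit 0x16ecabe547) (nat_lit 0)))) (L (E (nat_lit 3) (nat_lit 0x173caee55d) (nat_lit 0)))) (N (nat_lit 4942) (L (E (nat_lit 3) (nat_lit 0x1764b0a56d) (nat_lit 0))) (N (nat_lit 4944) (N (nat_lit 4943) (L (E (nat_lit 3) (nat_lit 0x176cb0e56f) (nat_lit 0))) (L (E (nat_lit 3) (nat_lit 0x1a14c56615) (nat_lit 0)))) (N (nat_lit 4946) (N (nat_lit 4945) (L (E (nat_lit 3) (nat_lit 0x20b4fa67bb) (nat_lit 0))) (L (E (nat_lit 3) (nat_lit 0x23ad10e871) (nat_lit 0)))) (L (E (nat_lit 3) (nat_lit 0x23f5136881) (nat_lit 0))))))) (N (nat_lit 4950) (N (nat_lit 4949) (N (nat_lit 4948) (L (E (nat_lit 3) (nat_lit 0x2445166897) (nat_lit 0))) (L (E (nat_lit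 3) (nat_lit 0x24851928af) (nat_lit 0)))) (L (E (nat_lit 3) (nat_lit 0x274d2de957) (nat_lit 0)))) (N (nat_lit 4952) (N (nat_lit 4951) (L (E (nat_lit 3) (nat_lit 0x27852fa965) (nat_lit 0))) (L (E (nat_lit 3) (nat_lit 0x278d2fe967) (nat_lit 0)))) (N (nat_lit 4955) (N (nat_lit 4954) (N (nat_lit 4953) (L (E (nat_lit 3) (nat_lit 0x280d356991) (nat_lit 0))) (L (E (nat_lit 3) (nat_lit 0x2a55466a1d) (nat_lit 0)))) (L (E (nat_lit 3) (nat_lit 0x36c5aa2d37) (nat_lit 0)))) (L (E (nat_lit 3) (nat_lit 0x36d5aaad3b) (nat_lit 0))))))) (N (nat_lit 4966) (N (nat_lit 4961) (N (nat_lit 4958) (N (nat_lit 4957) (L (E (nat_lit 3) (nat_lit 0x22150ae853) (nat_lit 0))) (L (E (nat_lit 3) (nat_lit 0x22c50f6875) (nat_lit 0)))) (N (nat_lit 4960) (N (nat_lit 4959) (L (E (nat_lit 3) (nat_lit 0x231511e885) (nat_lit 0))) (L (E (nat_lit 3) (nat_lit 0x23bd1768b1) (nat_lit 0)))) (L (E (nat_lit 3) (nat_lit 0x264d2be957) (nat_lit 0)))))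 (N (nat_lit 4962) (L (E (nat_lit 3) (nat_lit 0x26ed30a979) (nat_lit 0))) (N (nat_lit 4965) (N (nat_lit 4964) (N (nat_lit 4963) (L (E (nat_lit 3) (nat_lit 0x26fd31297d) (nat_lit 0))) (L (E (nat_lit 3) (nat_lit 0x2a554bea57) (nat_lit 0)))) (L (E (nat_lit 3) (nat_lit 0x16d4ade543) (nat_lit 0)))) (L (E (nat_lit 3) (nat_lit 0x234d10685b) (nat_lit 0)))))) (N (nat_lit 4969) (N (nat_lit 4967) (L (E (nat_lit 3) (nat_lit 0x23f5166883) (nat_lit 0))) (N (nat_lit 4968) (L (E (nat_lit 3) (nat_lit 0x23fd16a885) (nat_lit 0))) (L (E (nat_lit 3) (nat_lit 0x245d19e89f) (nat_lit 0))))) (N (nat_lit 4971) (N (nat_lit 4970) (L (E (nat_lit 3) (nat_lit 0x26d52ce941) (nat_lit 0))) (L (E (nat_lit 3) (nat_lit 0x314582abe9) (nat_lit 0)))) (N (nat_lit 4972) (L (E (nat_lit 3) (nat_lit 0x1574a7e52b) (nat_lit 0))) (L (E (nat_lit 3) (nat_lit 0x166caf655d) (nat_lit 0)))))))) (N (nat_lit 4992) (N (nat_lit 4979) (N (nat_lit 4976) (N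 (nat_lit 4975) (N (nat_lit 4974) (L (E (nat_lit 3) (nat_lit 0x174cb6e59b) (nat_lit 0))) (L (E (nat_lit 3) (nat_lit 0x2325152887) (nat_lit 0)))) (L (E (nat_lit 3) (nat_lit 0x23cd1aa8b3) (nat_lit 0)))) (N (nat_lit 4977) (L (E (nat_lit 3) (nat_lit 0x26ad31696b) (nat_lit 0))) (N (nat_lit 4978) (L (E (nat_lit 3) (nat_lit 0x290d446a13) (nat_lit 0))) (L (E (nat_lit 3) (nat_lit 0x428433e091) (nat_lit 0)))))) (N (nat_lit 4986) (N (nat_lit 4984) (N (nat_lit 4982) (N (nat_lit 4981) (N (nat_lit 4980) (L (E (nat_lit 3) (nat_lit 0x48cca8e231) (nat_lit 0))) (L (E (nat_lit 3) (nat_lit 0x498cf76413) (nat_lit 0)))) (L (E (nat_lit 3) (nat_lit 0x431cad6135) (nat_lit 0)))) (N (nat_lit 4983) (L (E (nat_lit 3) (nat_lit 0x4354c6a16d) (nat_lit 0))) (L (E (nat_lit 3) (nat_lit 0x15b4182001) (nat_lit 0))))) (N (nat_lit 4985) (L (E (nat_lit 3) (nat_lit 0x230c556041) (nat_lit 0))) (L (E (nat_lit 3) (nat_lit 0x41540ba001) (nat_lit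 0))))) (N (nat_lit 4990) (N (nat_lit 4988) (N (nat_lit 4987) (L (E (nat_lit 3) (nat_lit 0x411d946057) (nat_lit 0))) (L (E (nat_lit 3) (nat_lit 0x41654da0e1) (nat_lit 0)))) (N (nat_lit 4989) (L (E (nat_lit 3) (nat_lit 0x457c3be001) (nat_lit 0))) (L (E (nat_lit 3) (nat_lit 0x2814de6021) (nat_lit 0))))) (N (nat_lit 4991) (L (E (nat_lit 3) (nat_lit 0x49163ae3e3) (nat_lit 0))) (L (E (nat_lit 3) (nat_lit 0x2814076021) (nat_lit 0))))))) (N (nat_lit 5000) (N (nat_lit 4999) (N (nat_lit 4996) (N (nat_lit 4994) (N (nat_lit 4993) (L (E (nat_lit 3) (nat_lit 0x49ed8cea17) (nat_lit 0))) (L (E (nat_lit 3) (nat_lit 0x206c36603d) (nat_lit 0)))) (N (nat_lit 4995) (L (E (nat_lit 3) (nat_lit 0x3a24c4a169) (nat_lit 0))) (L (E (nat_lit 3) (nat_lit 0x2ca550e587) (nat_lit 0))))) (N (nat_lit 4997) (L (E (nat_lit 3) (nat_lit 0x3a05c72a45) (nat_lit 0))) (N (nat_lit 4998) (L (E (nat_lit 3) (nat_lit 0x1614a5651f) (nat_lit 0)))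 (L (E (nat_lit 3) (nat_lit 0x170cabe549) (nat_lit 0)))))) (L (E (nat_lit 3) (nat_lit 0x1734ada555) (nat_lit 0)))) (N (nat_lit 5001) (L (E (nat_lit 3) (nat_lit 0x1784b0a56f) (nat_lit 0))) (N (nat_lit 5002) (L (E (nat_lit 3) (nat_lit 0x17acb2e57f) (nat_lit 0))) (N (nat_lit 5003) (L (E (nat_lit 3) (nat_lit 0x17b4b32581) (nat_lit 0))) (N (nat_lit 5004) (L (E (nat_lit 3) (nat_lit 0x20bcf9a7b7) (nat_lit 0))) (L (E (nat_lit 3) (nat_lit 0x235d0da857) (nat_lit 0)))))))))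
def cl101 : RA := N (nat_lit 5029) (N (nat_lit 5014) (N (nat_lit 5009) (N (nat_lit 5006) (L (E (nat_lit 3) (nat_lit 0x238d0f2863) (nat_lit 0))) (N (nat_lit 5007) (L (E (nat_lit 3) (nat_lit 0x2415136883) (nat_lit 0))) (N (nat_lit 5008) (L (E (nat_lit 3) (nat_lit 0x242513e887) (nat_lit 0))) (L (E (nat_lit 3) (nat_lit 0x2445156891) (nat_lit 0)))))) (N (nat_lit 5010) (L (E (nat_lit 3) (nat_lit 0x245515e895) (nat_lit 0))) (N (nat_lit 5012) (N (nat_lit 5011) (L (E (nat_lit 3) (nat_lit 0x245d162897) (nat_lit 0))) (L (E (nat_lit 3) (nat_lit 0x249d18e8af) (nat_lit 0)))) (N (nat_lit 5013) (L (E (nat_lit 3) (nat_lit 0x26a528e935) (nat_lit 0))) (L (E (nat_lit 3) (nat_lit 0x26e529e93d) (nat_lit 0))))))) (N (nat_lit 5020) (N (nat_lit 5016) (N (nat_lit 5015) (L (E (nat_lit 3) (nat_lit 0x27a52fa967) (nat_lit 0))) (L (E (nat_lit 3) (nat_lit 0x27cd31a973) (nat_lit 0)))) (N (nat_lit 5019) (N (nat_lit 5018) (N (nat_lit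 5017) (L (E (nat_lit 3) (nat_lit 0x27dd322977) (nat_lit 0))) (L (E (nat_lit 3) (nat_lit 0x281534a98d) (nat_lit 0)))) (L (E (nat_lit 3) (nat_lit 0x36c5a92d31) (nat_lit 0)))) (L (E (nat_lit 3) (nat_lit 0x170cb02559) (nat_lit 0))))) (N (nat_lit 5027) (N (nat_lit 5024) (N (nat_lit 5021) (L (E (nat_lit 3) (nat_lit 0x1784b4e57f) (nat_lit 0))) (N (nat_lit 5023) (N (nat_lit 5022) (L (E (nat_lit 3) (nat_lit 0x19ccc6260d) (nat_lit 0))) (L (E (nat_lit 3) (nat_lit 0x19e4c6e613) (nat_lit 0)))) (L (E (nat_lit 3) (nat_lit 0x2395136875) (nat_lit 0))))) (N (nat_lit 5025) (L (E (nat_lit 3) (nat_lit 0x23dd162885) (nat_lit 0))) (N (nat_lit 5026) (L (E (nat_lit 3) (nat_lit 0x241d186897) (nat_lit 0))) (L (E (nat_lit 3) (nat_lit 0x242d18e89b) (nat_lit 0)))))) (N (nat_lit 5028) (L (E (nat_lit 3) (nat_lit 0x26bd2d2947) (nat_lit 0))) (L (E (nat_lit 3) (nat_lit 0x270d2f2953) (nat_lit 0))))))) (N (nat_lit 5038) (N (nat_lit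 5030) (L (E (nat_lit 3) (nat_lit 0x27a5346977) (nat_lit 0))) (N (nat_lit 5034) (N (nat_lit 5031) (L (E (nat_lit 3) (nat_lit 0x27ad34a979) (nat_lit 0))) (N (nat_lit 5033) (N (nat_lit 5032) (L (E (nat_lit 3) (nat_lit 0x2ab54cea3f) (nat_lit 0))) (L (E (nat_lit 3) (nat_lit 0x30ed7f6bd1) (nat_lit 0)))) (L (E (nat_lit 3) (nat_lit 0x165cade53d) (nat_lit 0))))) (N (nat_lit 5036) (N (nat_lit 5035) (L (E (nat_lit 3) (nat_lit 0x1684af2545) (nat_lit 0))) (L (E (nat_lit 3) (nat_lit 0x16e4b2655d) (nat_lit 0)))) (N (nat_lit 5037) (L (E (nat_lit 3) (nat_lit 0x1a04cb6627) (nat_lit 0))) (L (E (nat_lit 3) (nat_lit 0x1f74f6a78d) (nat_lit 0))))))) (N (nat_lit 5041) (N (nat_lit 5039) (L (E (nat_lit 3) (nat_lit 0x268d2ee949) (nat_lit 0))) (N (nat_lit 5040) (L (E (nat_lit 3) (nat_lit 0x272d33e967) (nat_lit 0))) (L (E (nat_lit 3) (nat_lit 0x273d34696b) (nat_lit 0))))) (N (nat_lit 5049) (N (nat_lit 5045) (N (nat_lit 5043)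 (N (nat_lit 5042) (L (E (nat_lit 3) (nat_lit 0x278d37697f) (nat_lit 0))) (L (E (nat_lit 3) (nat_lit 0x279d37e983) (nat_lit 0)))) (N (nat_lit 5044) (L (E (nat_lit 3) (nat_lit 0x27d53a2997) (nat_lit 0))) (L (E (nat_lit 3) (nat_lit 0x29ed4a2a1d) (nat_lit 0))))) (N (nat_lit 5048) (N (nat_lit 5047) (N (nat_lit 5046) (L (E (nat_lit 3) (nat_lit 0x2a5d4d6a35) (nat_lit 0))) (L (E (nat_lit 3) (nat_lit 0x30357cabaf) (nat_lit 0)))) (L (E (nat_lit 3) (nat_lit 0x3635abed2b) (nat_lit 0)))) (L (E (nat_lit 3) (nat_lit 0x1614ade51f) (nat_lit 0))))) (N (nat_lit 5051) (N (nat_lit 5050) (L (E (nat_lit 3) (nat_lit 0x161cae2521) (nat_lit 0))) (L (E (nat_lit 3) (nat_lit 0x165cafe525) (nat_lit 0)))) (N (nat_lit 5052) (L (E (nat_lit 3) (nat_lit 0x1674b0a52b) (nat_lit 0))) (L (E (nat_lit 3) (nat_lit 0x172cb6e553) (nat_lit 0))))))))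
def cl102 : RA := N (nat_lit 5073) (N (nat_lit 5068) (N (nat_lit 5061) (N (nat_lit 5058) (N (nat_lit 5056) (N (nat_lit 5055) (N (nat_lit 5054) (L (E (nat_lit 3) (nat_lit 0x1734b72555) (nat_lit 0))) (L (E (nat_lit 3) (nat_lit 0x1784b9e56f) (nat_lit 0)))) (L (E (nat_lit 3) (nat_lit 0x20b50367b5) (nat_lit 0)))) (N (nat_lit 5057) (L (E (nat_lit 3) (nat_lit 0x22c512e847) (nat_lit 0))) (L (E (nat_lit 3) (nat_lit 0x231d15e84f) (nat_lit 0))))) (N (nat_lit 5060) (N (nat_lit 5059) (L (E (nat_lit 3) (nat_lit 0x232d166853) (nat_lit 0))) (L (E (nat_lit 3) (nat_lit 0x233516a855) (nat_lit 0)))) (L (E (nat_lit 3) (nat_lit 0x23b51ae86d) (nat_lit 0))))) (N (nat_lit 5066) (N (nat_lit 5065) (N (nat_lit 5063) (N (nat_lit 5062) (L (E (nat_lit 3) (nat_lit 0x24151de883) (nat_lit 0))) (L (E (nat_lit 3) (nat_lit 0x24251e6887) (nat_lit 0)))) (N (nat_lit 5064) (L (E (nat_lit 3) (nat_lit 0x24551fe895) (nat_lit 0))) (L (E (nat_lit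 3) (nat_lit 0x269531a931) (nat_lit 0))))) (L (E (nat_lit 3) (nat_lit 0x270d352947) (nat_lit 0)))) (N (nat_lit 5067) (L (E (nat_lit 3) (nat_lit 0x1554a7e539) (nat_lit 0))) (L (E (nat_lit 3) (nat_lit 0x1604ad6561) (nat_lit 0)))))) (N (nat_lit 5070) (N (nat_lit 5069) (L (E (nat_lit 3) (nat_lit 0x225d0fe879) (nat_lit 0))) (L (E (nat_lit 3) (nat_lit 0x22bd12a88b) (nat_lit 0)))) (N (nat_lit 5072) (N (nat_lit 5071) (L (E (nat_lit 3) (nat_lit 0x235d17a8b3) (nat_lit 0))) (L (E (nat_lit 3) (nat_lit 0x23bd1b28cd) (nat_lit 0)))) (L (E (nat_lit 3) (nat_lit 0x25e52c695b) (nat_lit 0)))))) (N (nat_lit 5089) (N (nat_lit 5080) (N (nat_lit 5075) (N (nat_lit 5074) (L (E (nat_lit 3) (nat_lit 0x26dd33a993) (nat_lit 0))) (L (E (nat_lit 3) (nat_lit 0x274d3769af) (nat_lit 0)))) (N (nat_lit 5077) (N (nat_lit 5076) (L (E (nat_lit 3) (nat_lit 0x28fd44ea21) (nat_lit 0))) (L (E (nat_lit 3) (nat_lit 0x29fd4caa5d) (nat_lit 0))))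 (N (nat_lit 5078) (L (E (nat_lit 3) (nat_lit 0x2a454f2a6d) (nat_lit 0))) (N (nat_lit 5079) (L (E (nat_lit 3) (nat_lit 0x30357eebed) (nat_lit 0))) (L (E (nat_lit 3) (nat_lit 0x1624ac2529) (nat_lit 0))))))) (N (nat_lit 5086) (N (nat_lit 5082) (N (nat_lit 5081) (L (E (nat_lit 3) (nat_lit 0x165cade52f) (nat_lit 0))) (L (E (nat_lit 3) (nat_lit 0x1664ae2531) (nat_lit 0)))) (N (nat_lit 5085) (N (nat_lit 5084) (N (nat_lit 5083) (L (E (nat_lit 3) (nat_lit 0x172cb4e565) (nat_lit 0))) (L (E (nat_lit 3) (nat_lit 0x1a0ccba61b) (nat_lit 0)))) (L (E (nat_lit 3) (nat_lit 0x208cff67b7) (nat_lit 0)))) (L (E (nat_lit 3) (nat_lit 0x230d12e857) (nat_lit 0))))) (N (nat_lit 5087) (L (E (nat_lit 3) (nat_lit 0x231d13685b) (nat_lit 0))) (N (nat_lit 5088) (L (E (nat_lit 3) (nat_lit 0x233d146863) (nat_lit 0))) (L (E (nat_lit 3) (nat_lit 0x24151be895) (nat_lit 0))))))) (N (nat_lit 5094) (N (nat_lit 5093) (N (nat_lit 5091) (N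 (nat_lit 5090) (L (E (nat_lit 3) (nat_lit 0x264d2d2931) (nat_lit 0))) (L (E (nat_lit 3) (nat_lit 0x26552d6933) (nat_lit 0)))) (N (nat_lit 5092) (L (E (nat_lit 3) (nat_lit 0x26952f293d) (nat_lit 0))) (L (E (nat_lit 3) (nat_lit 0x26bd306947) (nat_lit 0))))) (L (E (nat_lit 3) (nat_lit 0x274534a95f) (nat_lit 0)))) (N (nat_lit 5098) (N (nat_lit 5095) (L (E (nat_lit 3) (nat_lit 0x278d376971) (nat_lit 0))) (N (nat_lit 5096) (L (E (nat_lit 3) (nat_lit 0x2a5d4d6a27) (nat_lit 0))) (N (nat_lit 5097) (L (E (nat_lit 3) (nat_lit 0x2aa5502a3b) (nat_lit 0))) (L (E (nat_lit 3) (nat_lit 0x363dac2d1f) (nat_lit 0)))))) (L (E (nat_lit 3) (nat_lit 0x15fcade521) (nat_lit 0))))))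
def cl103 : RA := N (nat_lit 5053) (N (nat_lit 5005) (cl100) (cl101)) (N (nat_lit 5099) (cl102) (N (nat_lit 5114) (N (nat_lit 5106) (N (nat_lit 5103) (N (nat_lit 5100) (L (E (nat_lit 3) (nat_lit 0x1644afe527) (nat_lit 0))) (N (nat_lit 5101) (L (E (nat_lit 3) (nat_lit 0x164cb02529) (nat_lit 0))) (N (nat_lit 5102) (L (E (nat_lit 3) (nat_lit 0x165cb0a52d) (nat_lit 0))) (L (E (nat_lit 3) (nat_lit 0x203cffa79f) (nat_lit 0)))))) (N (nat_lit 5105) (N (nat_lit 5104) (L (E (nat_lit 3) (nat_lit 0x22ad12e849) (nat_lit 0))) (L (E (nat_lit 3) (nat_lit 0x2315166855) (nat_lit 0)))) (L (E (nat_lit 3) (nat_lit 0x26352f292f) (nat_lit 0))))) (N (nat_lit 5108) (N (nat_lit 5107) (L (E (nat_lit 3) (nat_lit 0x26e534a945) (nat_lit 0))) (L (E (nat_lit 3) (nat_lit 0x278d3a6969) (nat_lit 0)))) (N (nat_lit 5113) (N (nat_lit 5111) (N (nat_lit 5109) (L (E (nat_lit 3) (nat_lit 0x28153f2995) (nat_lit 0))) (N (nat_lit 5110) (L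 (E (nat_lit 3) (nat_lit 0x29e54caa0f) (nat_lit 0))) (L (E (nat_lit 3) (nat_lit 0x2a55506a1f) (nat_lit 0))))) (N (nat_lit 5112) (L (E (nat_lit 3) (nat_lit 0x35d5ac2d0d) (nat_lit 0))) (L (E (nat_lit 3) (nat_lit 0x3675b1ad25) (nat_lit 0))))) (L (E (nat_lit 3) (nat_lit 0x1624ad6559) (nat_lit 0)))))) (N (nat_lit 5124) (N (nat_lit 5119) (N (nat_lit 5118) (N (nat_lit 5116) (N (nat_lit 5115) (L (E (nat_lit 3) (nat_lit 0x167cafe56f) (nat_lit 0))) (L (E (nat_lit 3) (nat_lit 0x1784b8e5b9) (nat_lit 0)))) (N (nat_lit 5117) (L (E (nat_lit 3) (nat_lit 0x233d15e89b) (nat_lit 0))) (L (E (nat_lit 3) (nat_lit 0x23751768a9) (nat_lit 0))))) (L (E (nat_lit 3) (nat_lit 0x238d1828af) (nat_lit 0)))) (N (nat_lit 5121) (N (nat_lit 5120) (L (E (nat_lit 3) (nat_lit 0x23951868b1) (nat_lit 0))) (L (E (nat_lit 3) (nat_lit 0x23cd1aa8c1) (nat_lit 0)))) (N (nat_lit 5123) (N (nat_lit 5122) (L (E (nat_lit 3) (nat_lit 0x241d1d28d9)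 (nat_lit 0))) (L (E (nat_lit 3) (nat_lit 0x24651f68eb) (nat_lit 0)))) (L (E (nat_lit 3) (nat_lit 0x25f52be94f) (nat_lit 0)))))) (N (nat_lit 5126) (N (nat_lit 5125) (L (E (nat_lit 3) (nat_lit 0x26652ee967) (nat_lit 0))) (L (E (nat_lit 3) (nat_lit 0x26ad316977) (nat_lit 0)))) (N (nat_lit 5129) (N (nat_lit 5127) (L (E (nat_lit 3) (nat_lit 0x2715346991) (nat_lit 0))) (N (nat_lit 5128) (L (E (nat_lit 3) (nat_lit 0x27ed3be9cf) (nat_lit 0))) (L (E (nat_lit 3) (nat_lit 0x28253de9e1) (nat_lit 0))))) (N (nat_lit 5133) (N (nat_lit 5131) (N (nat_lit 5130) (L (E (nat_lit 3) (nat_lit 0x2965472a27) (nat_lit 0))) (L (E (nat_lit 3) (nat_lit 0x29bd4a2a3f) (nat_lit 0)))) (N (nat_lit 5132) (L (E (nat_lit 3) (nat_lit 0x29cd4aaa43) (nat_lit 0))) (L (E (nat_lit 3) (nat_lit 0x2a654f2a65) (nat_lit 0))))) (N (nat_lit 5135) (N (nat_lit 5134) (L (E (nat_lit 3) (nat_lit 0x2af5542a91) (nat_lit 0))) (L (E (nat_lit 3) (nat_lit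 0x35f5ab6d49) (nat_lit 0)))) (N (nat_lit 5136) (L (E (nat_lit 3) (nat_lit 0x35fdabad4b) (nat_lit 0))) (L (E (nat_lit 3) (nat_lit 0x44d623f113) (nat_lit 0)))))))))))
def cl104 : RA := N (nat_lit 5191) (N (nat_lit 5180) (N (nat_lit 5175) (N (nat_lit 5169) (N (nat_lit 5165) (L (E (nat_lit 3) (nat_lit 0x2add4aaa43) (nat_lit 0))) (N (nat_lit 5168) (N (nat_lit 5167) (N (nat_lit 5166) (L (E (nat_lit 3) (nat_lit 0x2b45506a6f) (nat_lit 0))) (L (E (nat_lit 3) (nat_lit 0x30c579ebbd) (nat_lit 0)))) (L (E (nat_lit 3) (nat_lit 0x340d946001) (nat_lit 0)))) (L (E (nat_lit 3) (nat_lit 0x3685a6ed29) (nat_lit 0))))) (N (nat_lit 5172) (N (nat_lit 5171) (N (nat_lit 5170) (L (E (nat_lit 3) (nat_lit 0x36bda92d37) (nat_lit 0))) (L (E (nat_lit 3) (nat_lit 0x140c9ea4db) (nat_lit 0)))) (L (E (nat_lit 3) (nat_lit 0x1604ae2551) (nat_lit 0)))) (N (nat_lit 5173) (L (E (nat_lit 3) (nat_lit 0x177cba65b7) (nat_lit 0))) (N (nat_lit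 5174) (L (E (nat_lit 3) (nat_lit 0x18e4c5260d) (nat_lit 0))) (L (E (nat_lit 3) (nat_lit 0x220d0ea857) (nat_lit 0))))))) (N (nat_lit 5178) (N (nat_lit 5177) (N (nat_lit 5176) (L (E (nat_lit 3) (nat_lit 0x225d10a869) (nat_lit 0))) (L (E (nat_lit 3) (nat_lit 0x227d11a871) (nat_lit 0)))) (L (E (nat_lit 3) (nat_lit 0x22bd13687b) (nat_lit 0)))) (N (nat_lit 5179) (L (E (nat_lit 3) (nat_lit 0x22cd13e87f) (nat_lit 0))) (L (E (nat_lit 3) (nat_lit 0x22dd146883) (nat_lit 0)))))) (N (nat_lit 5184) (N (nat_lit 5181) (L (E (nat_lit 3) (nat_lit 0x2315166891) (nat_lit 0))) (N (nat_lit 5182) (L (E (nat_lit 3) (nat_lit 0x231d16a893) (nat_lit 0))) (N (nat_lit 5183) (L (E (nat_lit 3) (nat_lit 0x23bd1be8bd) (nat_lit 0))) (L (E (nat_lit 3) (nat_lit 0x26452fa95f) (nat_lit 0)))))) (N (nat_lit 5185) (L (E (nat_lit 3) (nat_lit 0x269d32a973) (nat_lit 0))) (N (nat_lit 5188) (N (nat_lit 5187) (N (nat_lit 5186) (L (E (nat_lit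 3) (nat_lit 0x26ad332977) (nat_lit 0))) (L (E (nat_lit 3) (nat_lit 0x27853a29b1) (nat_lit 0)))) (L (E (nat_lit 3) (nat_lit 0x279d3ae9b7) (nat_lit 0)))) (N (nat_lit 5190) (N (nat_lit 5189) (L (E (nat_lit 3) (nat_lit 0x2a5d50aa63) (nat_lit 0))) (L (E (nat_lit 3) (nat_lit 0xd4465a311) (nat_lit 0)))) (L (E (nat_lit 3) (nat_lit 0x15e4a8a527) (nat_lit 0)))))))) (N (nat_lit 5198) (N (nat_lit 5195) (N (nat_lit 5193) (N (nat_lit 5192) (L (E (nat_lit 3) (nat_lit 0x168cade547) (nat_lit 0))) (L (E (nat_lit 3) (nat_lit 0x169cae654b) (nat_lit 0)))) (N (nat_lit 5194) (L (E (nat_lit 3) (nat_lit 0x16d4b02559) (nat_lit 0))) (L (E (nat_lit 3) (nat_lit 0x19acc6e613) (nat_lit 0))))) (N (nat_lit 5196) (L (E (nat_lit 3) (nat_lit 0x22f510685f) (nat_lit 0))) (N (nat_lit 5197) (L (E (nat_lit 3) (nat_lit 0x234d12e871) (nat_lit 0))) (L (E (nat_lit 3) (nat_lit 0x235d136875) (nat_lit 0)))))) (N (nat_lit 5201) (N (nat_lit 5200)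 (N (nat_lit 5199) (L (E (nat_lit 3) (nat_lit 0x239d15e883) (nat_lit 0))) (L (E (nat_lit 3) (nat_lit 0x23a5162885) (nat_lit 0)))) (L (E (nat_lit 3) (nat_lit 0x23ad166887) (nat_lit 0)))) (N (nat_lit 5203) (N (nat_lit 5202) (L (E (nat_lit 3) (nat_lit 0x23f518e89b) (nat_lit 0))) (L (E (nat_lit 3) (nat_lit 0x23fd19289d) (nat_lit 0)))) (N (nat_lit 5204) (L (E (nat_lit 3) (nat_lit 0x24451be8b3) (nat_lit 0))) (L (E (nat_lit 3) (nat_lit 0x267d2ce945) (nat_lit 0)))))))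
def cl105 : RA := N (nat_lit 5276) (N (nat_lit 5264) (N (nat_lit 5254) (N (nat_lit 5248) (N (nat_lit 5246) (N (nat_lit 5245) (N (nat_lit 5244) (L (E (nat_lit 3) (nat_lit 0x169cafa55f) (nat_lit 0))) (L (E (nat_lit 3) (nat_lit 0x23b518289f) (nat_lit 0)))) (L (E (nat_lit 3) (nat_lit 0x23bd1868a1) (nat_lit 0)))) (N (nat_lit 5247) (L (E (nat_lit 3) (nat_lit 0x273533e97d) (nat_lit 0))) (L (E (nat_lit 3) (nat_lit 0x2745346981) (nat_lit 0))))) (N (nat_lit 5250) (N (nat_lit 5249) (L (E (nat_lit 3) (nat_lit 0x23fd10687f) (nat_lit 0))) (L (E (nat_lit 3) (nat_lit 0x240d10e883) (nat_lit 0)))) (N (nat_lit 5252) (N (nat_lit 5251) (L (E (nat_lit 3) (nat_lit 0x2455136897) (nat_lit 0))) (L (E (nat_lit 3) (nat_lit 0x273d2a694f) (nat_lit 0)))) (N (nat_lit 5253) (L (E (nat_lit 3) (nat_lit 0x27dd2fa979) (nat_lit 0))) (L (E (nat_lit 3) (nat_lit 0x2b1d4b2a55) (nat_lit 0))))))) (N (nat_lit 5258) (N (nat_lit 5256) (N (nat_lit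 5255) (L (E (nat_lit 3) (nat_lit 0x173cb96559) (nat_lit 0))) (L (E (nat_lit 3) (nat_lit 0x27dd3e6979) (nat_lit 0)))) (N (nat_lit 5257) (L (E (nat_lit 3) (nat_lit 0x16b4b0e555) (nat_lit 0))) (L (E (nat_lit 3) (nat_lit 0x234d162883) (nat_lit 0))))) (N (nat_lit 5262) (N (nat_lit 5261) (N (nat_lit 5260) (N (nat_lit 5259) (L (E (nat_lit 3) (nat_lit 0x2355166885) (nat_lit 0))) (L (E (nat_lit 3) (nat_lit 0x23a519289b) (nat_lit 0)))) (L (E (nat_lit 3) (nat_lit 0x26252d2945) (nat_lit 0)))) (L (E (nat_lit 3) (nat_lit 0x2785386995) (nat_lit 0)))) (N (nat_lit 5263) (L (E (nat_lit 3) (nat_lit 0x2fc57a2ba7) (nat_lit 0))) (L (E (nat_lit 3) (nat_lit 0x4935946497) (nat_lit 0))))))) (N (nat_lit 5272) (N (nat_lit 5269) (N (nat_lit 5267) (N (nat_lit 5266) (N (nat_lit 5265) (L (E (nat_lit 3) (nat_lit 0x4a3e2f2c67) (nat_lit 0))) (L (E (nat_lit 3) (nat_lit 0x3ced32619d) (nat_lit 0)))) (L (E (nat_lit 3) (nat_lit 0x498df6aa45)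 (nat_lit 0)))) (N (nat_lit 5268) (L (E (nat_lit 3) (nat_lit 0x2c9d52e80b) (nat_lit 0))) (L (E (nat_lit 3) (nat_lit 0x138494a483) (nat_lit 0))))) (N (nat_lit 5270) (L (E (nat_lit 3) (nat_lit 0x1664ab2533) (nat_lit 0))) (N (nat_lit 5271) (L (E (nat_lit 3) (nat_lit 0x1784b56581) (nat_lit 0))) (L (E (nat_lit 3) (nat_lit 0x231d10685d) (nat_lit 0)))))) (N (nat_lit 5273) (L (E (nat_lit 3) (nat_lit 0x23cd162883) (nat_lit 0))) (N (nat_lit 5274) (L (E (nat_lit 3) (nat_lit 0x241518a897) (nat_lit 0))) (N (nat_lit 5275) (L (E (nat_lit 3) (nat_lit 0x249d1de8c3) (nat_lit 0))) (L (E (nat_lit 3) (nat_lit 0x26a52ce943) (nat_lit 0)))))))) (N (nat_lit 5286) (N (nat_lit 5283) (N (nat_lit 5277) (L (E (nat_lit 3) (nat_lit 0x279d34a977) (nat_lit 0))) (N (nat_lit 5280) (N (nat_lit 5278) (L (E (nat_lit 3) (nat_lit 0x27a534e979) (nat_lit 0))) (N (nat_lit 5279) (L (E (nat_lit 3) (nat_lit 0x27dd37698d) (nat_lit 0))) (L (E (nat_lit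 3) (nat_lit 0x2a654aea2b) (nat_lit 0))))) (N (nat_lit 5281) (L (E (nat_lit 3) (nat_lit 0x1624abe52b) (nat_lit 0))) (N (nat_lit 5282) (L (E (nat_lit 3) (nat_lit 0x165cada531) (nat_lit 0))) (L (E (nat_lit 3) (nat_lit 0x22bd10284b) (nat_lit 0))))))) (N (nat_lit 5285) (N (nat_lit 5284) (L (E (nat_lit 3) (nat_lit 0x22c510684d) (nat_lit 0))) (L (E (nat_lit 3) (nat_lit 0x22cd10a84f) (nat_lit 0)))) (L (E (nat_lit 3) (nat_lit 0x231512e85b) (nat_lit 0))))) (N (nat_lit 5289) (N (nat_lit 5288) (N (nat_lit 5287) (L (E (nat_lit 3) (nat_lit 0x26452ca931) (nat_lit 0))) (L (E (nat_lit 3) (nat_lit 0x269d2f2941) (nat_lit 0)))) (L (E (nat_lit 3) (nat_lit 0x165cae253b) (nat_lit 0)))) (N (nat_lit 5294) (N (nat_lit 5291) (N (nat_lit 5290) (L (E (nat_lit 3) (nat_lit 0x169cb02549) (nat_lit 0))) (L (E (nat_lit 3) (nat_lit 0x16ecb2e55d) (nat_lit 0)))) (N (nat_lit 5293) (N (nat_lit 5292) (L (E (nat_lit 3) (nat_lit 0x23a5182883)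 (nat_lit 0))) (L (E (nat_lit 3) (nat_lit 0x268d2f2947) (nat_lit 0)))) (L (E (nat_lit 3) (nat_lit 0x26ed322957) (nat_lit 0))))) (N (nat_lit 5295) (L (E (nat_lit 3) (nat_lit 0x2735346967) (nat_lit 0))) (L (E (nat_lit 3) (nat_lit 0x27f53be9a3) (nat_lit 0)))))))
def cl106 : RA := N (nat_lit 5205) (N (nat_lit 5164) (N (nat_lit 5151) (N (nat_lit 5143) (N (nat_lit 5141) (N (nat_lit 5139) (L (E (nat_lit 3) (nat_lit 0x16a4a8e539) (nat_lit 0))) (N (nat_lit 5140) (L (E (nat_lit 3) (nat_lit 0x16ecab2549) (nat_lit 0))) (L (E (nat_lit 3) (nat_lit 0x1724ad6559) (nat_lit 0))))) (N (nat_lit 5142) (L (E (nat_lit 3) (nat_lit 0x1734ade55d) (nat_lit 0))) (L (E (nat_lit 3) (nat_lit 0x1764afe56f) (nat_lit 0))))) (N (nat_lit 5148) (N (nat_lit 5147) (N (nat_lit 5145) (N (nat_lit 5144) (L (E (nat_lit 3) (nat_lit 0x176cb02571) (nat_lit 0))) (L (E (nat_lit 3) (nat_lit 0x1a14c4a617) (nat_lit 0)))) (N (nat_lit 5146) (L (E (nat_lit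 3) (nat_lit 0x23550da85d) (nat_lit 0))) (L (E (nat_lit 3) (nat_lit 0x23b5106875) (nat_lit 0))))) (L (E (nat_lit 3) (nat_lit 0x23bd10a877) (nat_lit 0)))) (N (nat_lit 5149) (L (E (nat_lit 3) (nat_lit 0x23fd12e885) (nat_lit 0))) (N (nat_lit 5150) (L (E (nat_lit 3) (nat_lit 0x2435152895) (nat_lit 0))) (L (E (nat_lit 3) (nat_lit 0x244d15e89b) (nat_lit 0))))))) (N (nat_lit 5159) (N (nat_lit 5157) (N (nat_lit 5153) (N (nat_lit 5152) (L (E (nat_lit 3) (nat_lit 0x245d16689f) (nat_lit 0))) (L (E (nat_lit 3) (nat_lit 0x247d1828af) (nat_lit 0)))) (N (nat_lit 5156) (N (nat_lit 5155) (N (nat_lit 5154) (L (E (nat_lit 3) (nat_lit 0x24851868b1) (nat_lit 0))) (L (E (nat_lit 3) (nat_lit 0x248d18a8b3) (nat_lit 0)))) (L (E (nat_lit 3) (nat_lit 0x249518e8b5) (nat_lit 0)))) (L (E (nat_lit 3) (nat_lit 0x26ed2a6947) (nat_lit 0))))) (N (nat_lit 5158) (L (E (nat_lit 3) (nat_lit 0x27452ce957) (nat_lit 0))) (L (E (nat_lit 3)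 (nat_lit 0x274d2d2959) (nat_lit 0))))) (N (nat_lit 5160) (L (E (nat_lit 3) (nat_lit 0x27852ee967) (nat_lit 0))) (N (nat_lit 5161) (L (E (nat_lit 3) (nat_lit 0x27d532297d) (nat_lit 0))) (N (nat_lit 5162) (L (E (nat_lit 3) (nat_lit 0x2805346991) (nat_lit 0))) (N (nat_lit 5163) (L (E (nat_lit 3) (nat_lit 0x281534e995) (nat_lit 0))) (L (E (nat_lit 3) (nat_lit 0x281d352997) (nat_lit 0))))))))) (cl104)) (N (nat_lit 5243) (N (nat_lit 5229) (N (nat_lit 5217) (N (nat_lit 5208) (N (nat_lit 5207) (N (nat_lit 5206) (L (E (nat_lit 3) (nat_lit 0x26d52f2953) (nat_lit 0))) (L (E (nat_lit 3) (nat_lit 0x26e52fa957) (nat_lit 0)))) (L (E (nat_lit 3) (nat_lit 0x271d31a963) (nat_lit 0)))) (N (nat_lit 5212) (N (nat_lit 5211) (N (nat_lit 5210) (N (nat_lit 5209) (L (E (nat_lit 3) (nat_lit 0x272d322967) (nat_lit 0))) (L (E (nat_lit 3) (nat_lit 0x276d346977) (nat_lit 0)))) (L (E (nat_lit 3) (nat_lit 0x277534a979) (nat_lit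 0)))) (L (E (nat_lit 3) (nat_lit 0x27fd3a69a7) (nat_lit 0)))) (N (nat_lit 5216) (N (nat_lit 5214) (N (nat_lit 5213) (L (E (nat_lit 3) (nat_lit 0x2a8d4d6a43) (nat_lit 0))) (L (E (nat_lit 3) (nat_lit 0x306d7cabbb) (nat_lit 0)))) (N (nat_lit 5215) (L (E (nat_lit 3) (nat_lit 0x3115826beb) (nat_lit 0))) (L (E (nat_lit 3) (nat_lit 0x128c93a48b) (nat_lit 0))))) (L (E (nat_lit 3) (nat_lit 0x163cb0a56f) (nat_lit 0)))))) (N (nat_lit 5225) (N (nat_lit 5221) (N (nat_lit 5219) (N (nat_lit 5218) (L (E (nat_lit 3) (nat_lit 0x1644b0e571) (nat_lit 0))) (L (E (nat_lit 3) (nat_lit 0x169cb3e587) (nat_lit 0)))) (N (nat_lit 5220) (L (E (nat_lit 3) (nat_lit 0x16d4b5a597) (nat_lit 0))) (L (E (nat_lit 3) (nat_lit 0x1964ca2639) (nat_lit 0))))) (N (nat_lit 5223) (N (nat_lit 5222) (L (E (nat_lit 3) (nat_lit 0x229d136883) (nat_lit 0))) (L (E (nat_lit 3) (nat_lit 0x22ad13e887) (nat_lit 0)))) (N (nat_lit 5224) (L (E (nat_lit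 3) (nat_lit 0x22ed162897) (nat_lit 0))) (L (E (nat_lit 3) (nat_lit 0x234d18e8af) (nat_lit 0)))))) (N (nat_lit 5227) (N (nat_lit 5226) (L (E (nat_lit 3) (nat_lit 0x23551928b1) (nat_lit 0))) (L (E (nat_lit 3) (nat_lit 0x257d2ae945) (nat_lit 0)))) (N (nat_lit 5228) (L (E (nat_lit 3) (nat_lit 0x26152f2963) (nat_lit 0))) (L (E (nat_lit 3) (nat_lit 0x26252fa967) (nat_lit 0))))))) (N (nat_lit 5242) (N (nat_lit 5233) (N (nat_lit 5231) (N (nat_lit 5230) (L (E (nat_lit 3) (nat_lit 0x262d2fe969) (nat_lit 0))) (L (E (nat_lit 3) (nat_lit 0x266d322977) (nat_lit 0)))) (N (nat_lit 5232) (L (E (nat_lit 3) (nat_lit 0x268d33297f) (nat_lit 0))) (L (E (nat_lit 3) (nat_lit 0x26d5352991) (nat_lit 0))))) (N (nat_lit 5235) (N (nat_lit 5234) (L (E (nat_lit 3) (nat_lit 0x276d3a69bb) (nat_lit 0))) (L (E (nat_lit 3) (nat_lit 0x277d3ae9bf) (nat_lit 0)))) (N (nat_lit 5239) (N (nat_lit 5237) (N (nat_lit 5236) (L (E (nat_lit 3)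 (nat_lit 0x27fd3f69e7) (nat_lit 0))) (L (E (nat_lit 3) (nat_lit 0x2a85532a81) (nat_lit 0)))) (N (nat_lit 5238) (L (E (nat_lit 3) (nat_lit 0x488dda2b27) (nat_lit 0))) (L (E (nat_lit 3) (nat_lit 0x4a2d4aa895) (nat_lit 0))))) (N (nat_lit 5241) (N (nat_lit 5240) (L (E (nat_lit 3) (nat_lit 0x47c4c6a001) (nat_lit 0))) (L (E (nat_lit 3) (nat_lit 0x39848ce11d) (nat_lit 0)))) (L (E (nat_lit 3) (nat_lit 0x2db4e1a1a5) (nat_lit 0))))))) (L (E (nat_lit 3) (nat_lit 0x3254006001) (nat_lit 0))))) (cl105))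
def cl107 : RA := N (nat_lit 5343) (N (nat_lit 5336) (N (nat_lit 5331) (N (nat_lit 5330) (N (nat_lit 5328) (L (E (nat_lit 5) (nat_lit 0x80e4059fe8fc6003) (nat_lit 0))) (N (nat_lit 5329) (L (E (nat_lit 11) (nat_lit 0x1738b5658e2c31604ae45582aa0014006001) (nat_lit 0))) (L (E (nat_lit 10) (nat_lit 0xb9c59f2c31604ab85592a40014006001) (nat_lit 0))))) (L (E (nat_lit 9) (nat_lit 0x98c46b9fd0c644b61c10aa8284001) (nat_lit 0)))) (N (nat_lit 5333) (N (nat_lit 5332) (L (E (nat_lit 16) (nat_lit 0x4dd26911f88e8462230516089a2cb1648ab25542a58014006001) (nat_lit 0))) (L (E (nat_lit 14) (nat_lit 0x13749a24b4a5890e88702c09570a945462a20014006001) (nat_lit 0)))) (N (nat_lit 5335) (N (nat_lit 5334) (L (E (nat_lit 18) (nat_lit 0x13749a44be23f11d08c4460a2d116089a43a1658b245592a58014006001) (nat_lit 0))) (L (E (nat_lit 18) (nat_lit 0x13749694b123f11d08c4460a2d116089a43a21c0b245812ac8014006001) (nat_lit 0)))) (L (E (nat_lit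 12) (nat_lit 0x4c823f11888c145a22c11065812ac8014006001) (nat_lit 0)))))) (N (nat_lit 5337) (L (E (nat_lit 7) (nat_lit 0x230115e88343a8014006001) (nat_lit 0))) (N (nat_lit 5340) (N (nat_lit 5339) (N (nat_lit 5338) (L (E (nat_lit 13) (nat_lit 0x9a345422490e88702c09570ab254a2a40014006001) (nat_lit 0))) (L (E (nat_lit 18) (nat_lit 0x1798ba64d1a5f115089243a21c0b0255e2ae1564aa854a2950014006001) (nat_lit 0)))) (L (E (nat_lit 17) (nat_lit 0xbcc5d3268d2f88a844921d10e05812af1570ab254a2950014006001) (nat_lit 0)))) (N (nat_lit 5342) (N (nat_lit 5341) (L (E (nat_lit 12) (nat_lit 0x4df26913469904be25e12ec9744a70014006001) (nat_lit 0))) (L (E (nat_lit 20) (nat_lit 0x4d2268d32097446f22d113688a43a173cb7c5b82d79678b2c5862ac8014006001) (nat_lit 0)))) (L (E (nat_lit 17) (nat_lit 0x9a34c8237916889b44521d10e059e2c31604ab25552a58014006001) (nat_lit 0))))))) (N (nat_lit 5356) (N (nat_lit 5348) (N (nat_lit 5345) (N (nat_lit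 5344) (L (E (nat_lit 11) (nat_lit 0x230115e89b4419618b0255e2ac8014006001) (nat_lit 0))) (L (E (nat_lit 10) (nat_lit 0xb745a82d31658ad655c2a90014006001) (nat_lit 0)))) (N (nat_lit 5346) (L (E (nat_lit 8) (nat_lit 0x2c31604ae256b2a58014006001) (nat_lit 0))) (N (nat_lit 5347) (L (E (nat_lit 14) (nat_lit 0x13a49a44d1a6412f89784bb24511dc8de45a0014006001) (nat_lit 0))) (L (E (nat_lit 14) (nat_lit 0x14cca5051f28e93709774b325791348964490014006001) (nat_lit 0)))))) (N (nat_lit 5352) (N (nat_lit 5350) (N (nat_lit 5349) (L (E (nat_lit 25) (nat_lit 0xa3e4d1a5e12cc91446c22d115e89a44916b0b505862c095c0ad655c2a31510a743820a10014006001) (nat_lit 0))) (L (E (nat_lit 24) (nat_lit 0x4ce26313109724a723611a88d243121790b87e63f11f28f5478c31912d87042aa0a10014006001) (nat_lit 0)))) (N (nat_lit 5351) (L (E (nat_lit 16) (nat_lit 0x6fd21850387f23f31f88fc07ca25a125090c4781880014006001) (nat_lit 0))) (L (E (nat_lit 47) (nat_lit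 0x2a5936c9a34ce26412fa9664af25111c08de46c23511a48b444321890bc85c42b2070fe47e63f11f80f947aa3c61a08c6456c26912d895c4a624a122890c4741c10ab855425c0a10014006001) (nat_lit 0))))) (N (nat_lit 5354) (N (nat_lit 5353) (L (E (nat_lit 27) (nat_lit 0x27e13849b64d5268d2f89764b1251118c8b445922190f087440f1fc8fcc7e23e515b0a084c62490014006001) (nat_lit 0))) (L (E (nat_lit 15) (nat_lit 0x268d15e88343c21890ac7aa2c31604ab25542a58014006001) (nat_lit 0)))) (N (nat_lit 5355) (L (E (nat_lit 15) (nat_lit 0x268d2fe8af44d224910c88343a1668b2c56a2ac8014006001) (nat_lit 0))) (L (E (nat_lit 22) (nat_lit 0x13d49b64d1a6493209764b1a31116088343b9708b3458a2c31610b0254b1210014006001) (nat_lit 0))))))) (N (nat_lit 5360) (N (nat_lit 5357) (L (E (nat_lit 9) (nat_lit 0x5aa2d41698b025712a58014006001) (nat_lit 0))) (N (nat_lit 5359) (N (nat_lit 5358) (L (E (nat_lit 26) (nat_lit 0x11dc8e046f23711b08c64591418a0450027213789b44b424b1250924490246122890c48423c0014006001)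 (nat_lit 0))) (L (E (nat_lit 35) (nat_lit 0x30897ec90447923b51bc8c646223091808b043ba1c0fc07ba3db1670b3459628314009dc4e426d12d092c494248123091448423c0014006001) (nat_lit 0)))) (L (E (nat_lit 9) (nat_lit 0x8c744d22491064501080014006001) (nat_lit 0))))) (N (nat_lit 5365) (N (nat_lit 5363) (N (nat_lit 5362) (N (nat_lit 5361) (L (E (nat_lit 15) (nat_lit 0x27a934697646f231915e88342b1618b025592a58014006001) (nat_lit 0))) (L (E (nat_lit 11) (nat_lit 0x230115e8832c31604ab254b1080014006001) (nat_lit 0)))) (L (E (nat_lit 11) (nat_lit 0x268932096643a21c0b025592a50014006001) (nat_lit 0)))) (N (nat_lit 5364) (L (E (nat_lit 24) (nat_lit 0x5ef2ec9524a3a51627813989aa4d1a6793289904c425f12f09764ba25a129c5810a10014006001) (nat_lit 0))) (L (E (nat_lit 17) (nat_lit 0x9aa4d1a6792cc963457a2691248703101604ae05592a50014006001) (nat_lit 0))))) (N (nat_lit 5367) (N (nat_lit 5366) (L (E (nat_lit 18) (nat_lit 0x13549a34cf25d92cc8af44d22490e88703101604ae05592a50014006001)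 (nat_lit 0))) (L (E (nat_lit 13) (nat_lit 0x9a3463230115e89a4419604ae05592a50014006001) (nat_lit 0)))) (L (E (nat_lit 9) (nat_lit 0x8c746022bd1348831080014006001) (nat_lit 0)))))))
def cl108 : RA := N (nat_lit 5394) (N (nat_lit 5382) (N (nat_lit 5381) (N (nat_lit 5371) (N (nat_lit 5369) (L (E (nat_lit 9) (nat_lit 0x8af4419618b0255e2ac8014006001) (nat_lit 0))) (N (nat_lit 5370) (L (E (nat_lit 8) (nat_lit 0x2c095c4abc55929e0014006001) (nat_lit 0))) (L (E (nat_lit 17) (nat_lit 0x9a34bba5391608ae44d224910687e43a1604ae05592a50014006001) (nat_lit 0))))) (N (nat_lit 5376) (N (nat_lit 5374) (N (nat_lit 5373) (N (nat_lit 5372) (L (E (nat_lit 20) (nat_lit 0x54928e93209784bb25d11608ae44d22591288923411a00cdc66c3170014006001) (nat_lit 0))) (L (E (nat_lit 24) (nat_lit 0x54928e93ce9e04d1a6513209784bb25d12c88b245822b91348924419a08d0066c3170014006001) (nat_lit 0)))) (L (E (nat_lit 26) (nat_lit 0x13e89e24e226e12fc96a462a2c91348954419a08d0067633819b0c9463630a1838c045fc2b60014006001)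 (nat_lit 0)))) (N (nat_lit 5375) (L (E (nat_lit 21) (nat_lit 0x9d24d1a53918a89e44d224911488343f21d0d0466c2db1604ae05592a50014006001) (nat_lit 0))) (L (E (nat_lit 19) (nat_lit 0x2a494749d24e8269934697c4bc25d8b745b62da1604a945462a20014006001) (nat_lit 0))))) (N (nat_lit 5379) (N (nat_lit 5378) (N (nat_lit 5377) (L (E (nat_lit 25) (nat_lit 0x9d24d1a5391d48d6462a27912488a441a1f90e886034119b0c085b62c09578ab254a29e0014006001) (nat_lit 0))) (L (E (nat_lit 21) (nat_lit 0xa544dc26a12d294e47523891ac8c544da2511068742c31604ab254b29e0014006001) (nat_lit 0)))) (L (E (nat_lit 21) (nat_lit 0x9a34bba5391d48e246b23151608ae449220d0e85aa2c31604ab254b29e0014006001) (nat_lit 0)))) (N (nat_lit 5380) (L (E (nat_lit 18) (nat_lit 0x13ce9a34bc25d92e88b04572274b8457e2b815b8ad854b2970014006001) (nat_lit 0))) (L (E (nat_lit 17) (nat_lit 0x98c4bb25911908b244d2210b0c55c2ac9520a7853a29c0014006001) (nat_lit 0))))))) (L (E (nat_lit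 6) (nat_lit 0x17a2bbe5db0014006001) (nat_lit 0)))) (N (nat_lit 5388) (N (nat_lit 5387) (N (nat_lit 5384) (N (nat_lit 5383) (L (E (nat_lit 14) (nat_lit 0x1812bd45e82f309984b825b12609142aa0a10014006001) (nat_lit 0))) (L (E (nat_lit 25) (nat_lit 0xbbe4d1a5391d48e246b231513c892445220d0fc87443019b0c085b62c31604abc55929e0014006001) (nat_lit 0)))) (N (nat_lit 5386) (N (nat_lit 5385) (L (E (nat_lit 20) (nat_lit 0x6042f911f88e8462a2d514c89a44922391085862ae1564a9053a29c0014006001) (nat_lit 0))) (L (E (nat_lit 27) (nat_lit 0x30217c89f84f427091f88e8462a2c91608ae453226912488e44216f8b6c5aa2c31604ab254b2a10014006001) (nat_lit 0)))) (L (E (nat_lit 25) (nat_lit 0xbcc5d927493729764a3a3f11d08c545922c114c8964492210b6c5aa2c31604abc55929e0014006001) (nat_lit 0))))) (L (E (nat_lit 9) (nat_lit 0x88343a1618b0255e2ac8014006001) (nat_lit 0)))) (N (nat_lit 5389) (L (E (nat_lit 6) (nat_lit 0x11848b144a220c006001) (nat_lit 0)))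 (N (nat_lit 5392) (N (nat_lit 5391) (N (nat_lit 5390) (L (E (nat_lit 17) (nat_lit 0xa6652a25912c48833281618afc56a2ac952ca502981400014006001) (nat_lit 0))) (L (E (nat_lit 22) (nat_lit 0x1888c306073029810bf65e62f2174c81c3f81f88fbc7dc3e312e89704b62590014006001) (nat_lit 0)))) (L (E (nat_lit 12) (nat_lit 0x4bba31516489a4419618b0255e2ac8014006001) (nat_lit 0)))) (N (nat_lit 5393) (L (E (nat_lit 10) (nat_lit 0xb025722af1564a9453c29c0014006001) (nat_lit 0))) (L (E (nat_lit 13) (nat_lit 0x977458226910c8832c31604abc55929c0014006001) (nat_lit 0)))))))) (N (nat_lit 5421) (N (nat_lit 5407) (N (nat_lit 5401) (N (nat_lit 5398) (N (nat_lit 5395) (L (E (nat_lit 4) (nat_lit 0x5f0a958ab212c) (nat_lit 0))) (N (nat_lit 5397) (N (nat_lit 5396) (L (E (nat_lit 18) (nat_lit 0x1778bba52b27392cc8c54592270b505a62cd1610b025592a58014006001) (nat_lit 0))) (L (E (nat_lit 15) (nat_lit 0x2ee92ee966466231915c89c4401604ad45592a58014006001)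 (nat_lit 0)))) (L (E (nat_lit 14) (nat_lit 0x12f897746623191888ae4401604abc5592a50014006001) (nat_lit 0))))) (N (nat_lit 5399) (L (E (nat_lit 15) (nat_lit 0x2ee92ee95646322d110c8832c31604abc55929c0014006001) (nat_lit 0))) (N (nat_lit 5400) (L (E (nat_lit 17) (nat_lit 0x97646e23191648a844e22490ea5812af1564a9454629a0014006001) (nat_lit 0))) (L (E (nat_lit 35) (nat_lit 0x34c17a8bc84f0273137c9b64d326513189884bc25d92d09664b2253cc746283111880c285ac28213d09284861660b285602921410014006001) (nat_lit 0)))))) (N (nat_lit 5404) (N (nat_lit 5403) (N (nat_lit 5402) (L (E (nat_lit 14) (nat_lit 0x24151f44e8269134498c4b42594c506223100014006001) (nat_lit 0))) (L (E (nat_lit 19) (nat_lit 0x26992ec8f246e22c91608ab44f220d0ea8662c09578ab25491660014006001) (nat_lit 0)))) (L (E (nat_lit 8) (nat_lit 0x2c09578ab254a29e8014006001) (nat_lit 0)))) (N (nat_lit 5406) (N (nat_lit 5405) (L (E (nat_lit 12) (nat_lit 0x4bb231516488343a9604abc5592a50014006001)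 (nat_lit 0))) (L (E (nat_lit 7) (nat_lit 0x25a12ca9564a28014006001) (nat_lit 0)))) (L (E (nat_lit 16) (nat_lit 0x4ca25d92d094445922c115c88343a9604abc5592a50014006001) (nat_lit 0)))))) (N (nat_lit 5413) (N (nat_lit 5411) (N (nat_lit 5409) (N (nat_lit 5408) (L (E (nat_lit 14) (nat_lit 0x14dc9684b2a50915c88343a9604abc5592a50014006001) (nat_lit 0))) (L (E (nat_lit 14) (nat_lit 0x132897c4bc25a11bc8c245a22c513c8834348014006001) (nat_lit 0)))) (N (nat_lit 5410) (L (E (nat_lit 16) (nat_lit 0x537274d2ec9684a7a2b91068754349604abc5592a50014006001) (nat_lit 0))) (L (E (nat_lit 15) (nat_lit 0x29b93689764b122b91068754351604abc5592a50014006001) (nat_lit 0))))) (N (nat_lit 5412) (L (E (nat_lit 11) (nat_lit 0x25d915c88343a9604abc5592a50014006001) (nat_lit 0))) (L (E (nat_lit 12) (nat_lit 0x6032f313ec9d04e7273138c9ba4d10014006001) (nat_lit 0))))) (N (nat_lit 5416) (N (nat_lit 5414) (L (E (nat_lit 11) (nat_lit 0x1660b0c5842b915c0adc55e2ae0014006001)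 (nat_lit 0))) (N (nat_lit 5415) (L (E (nat_lit 13) (nat_lit 0x9b94cf25a128e5982c31604ae05592a58014006001) (nat_lit 0))) (L (E (nat_lit 13) (nat_lit 0x99e4c6a588b8e5982cb1648ae056e2b60014006001) (nat_lit 0))))) (N (nat_lit 5418) (N (nat_lit 5417) (L (E (nat_lit 11) (nat_lit 0x23b116288342b1618b025592a58014006001) (nat_lit 0))) (L (E (nat_lit 9) (nat_lit 0x9ba4d1253115657e2970014006001) (nat_lit 0)))) (N (nat_lit 5420) (N (nat_lit 5419) (L (E (nat_lit 16) (nat_lit 0x4f1268932096945822b91068752c31578ab85592970014006001) (nat_lit 0))) (L (E (nat_lit 9) (nat_lit 0x8c246022cd1068754360014006001) (nat_lit 0)))) (L (E (nat_lit 12) (nat_lit 0x4bb25a52c48b04419618b0255e2ac8014006001) (nat_lit 0)))))))) (N (nat_lit 5432) (N (nat_lit 5428) (N (nat_lit 5424) (N (nat_lit 5422) (L (E (nat_lit 11) (nat_lit 0x25d92d28b04419618b0255e2ac8014006001) (nat_lit 0))) (N (nat_lit 5423) (L (E (nat_lit 21) (nat_lit 0xbf65e626492f096a4b1a3091648ae455a25910087526612d89142aa0a10014006001)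 (nat_lit 0))) (L (E (nat_lit 27) (nat_lit 0x2fd934c9a44c925e12ec96a4b423091648b0457220d0ea7ba31115f8ad852e26612d89142aa0a10014006001) (nat_lit 0))))) (N (nat_lit 5426) (N (nat_lit 5425) (L (E (nat_lit 22) (nat_lit 0x13469764b525a11848b0441a1d4f746222c315b0ab854829712d89142aa0a10014006001) (nat_lit 0))) (L (E (nat_lit 11) (nat_lit 0x25d915c88343a9670b025722ac8014006001) (nat_lit 0)))) (N (nat_lit 5427) (L (E (nat_lit 19) (nat_lit 0x30917f4bba5d92e913c09ce4db25d92cc94e2d515c8abc5592a48014006001) (nat_lit 0))) (L (E (nat_lit 17) (nat_lit 0xc245d226d931097646c23091668ae44a220cb9c59c2ac8014006001) (nat_lit 0)))))) (N (nat_lit 5430) (N (nat_lit 5429) (L (E (nat_lit 7) (nat_lit 0x23b11868b34418014006001) (nat_lit 0))) (L (E (nat_lit 8) (nat_lit 0x4bb22cd1288832ac8014006001) (nat_lit 0)))) (N (nat_lit 5431) (L (E (nat_lit 9) (nat_lit 0x8c3455224910687e4240014006001) (nat_lit 0))) (L (E (nat_lit 8) (nat_lit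 0x46122cd15c88343a0014006001) (nat_lit 0)))))) (L (E (nat_lit 8) (nat_lit 0x4d425f52cc9624a10014006001) (nat_lit 0)))))
def cl109 : RA := N (nat_lit 5474) (N (nat_lit 5472) (N (nat_lit 5465) (N (nat_lit 5464) (N (nat_lit 5463) (L (E (nat_lit 13) (nat_lit 0x11f45492990f747b43131888c4055524b0014006001) (nat_lit 0))) (L (E (nat_lit 9) (nat_lit 0xa513371968c9a6303131888c4060a) (nat_lit 0)))) (L (E (nat_lit 11) (nat_lit 0x25d92d08c245822b910655e2ac8014006001) (nat_lit 0)))) (N (nat_lit 5468) (N (nat_lit 5466) (L (E (nat_lit 9) (nat_lit 0x8b4457a2ad0fc8744300014006001) (nat_lit 0))) (N (nat_lit 5467) (L (E (nat_lit 13) (nat_lit 0x9b94b425951848c045522510fc55e2ac8014006001) (nat_lit 0))) (L (E (nat_lit 22) (nat_lit 0x1bf4dd06bd2ae54cca5251327593a49ce4df26512fc8af36616b088031009b0014006001) (nat_lit 0))))) (N (nat_lit 5470) (N (nat_lit 5469) (L (E (nat_lit 29) (nat_lit 0x11946fd2ae54cca52513275937c9884c025f92e89724b7259528e8c9457a1d10e06202dd16b0afe44009b0014006001)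 (nat_lit 0))) (L (E (nat_lit 16) (nat_lit 0x6e835e9572a80533a6f93749a24ca26493209742d60014006001) (nat_lit 0)))) (N (nat_lit 5471) (L (E (nat_lit 24) (nat_lit 0x7483741b88d7a53329513a29b94ba259515e89a4491888c4061e30d16e8ad45540ca0014006001) (nat_lit 0))) (L (E (nat_lit 28) (nat_lit 0x8ca3a41bf4ab951326e534a99e4bea5e12ca94746a232515e8aa43a1888c1c5ba2d615fcaa819409b0014006001) (nat_lit 0))))))) (N (nat_lit 5473) (L (E (nat_lit 12) (nat_lit 0x52825d92d08c2458220cafe55e2ac8014006001) (nat_lit 0))) (L (E (nat_lit 6) (nat_lit 0x132a9652b60014006001) (nat_lit 0))))) (N (nat_lit 5486) (N (nat_lit 5477) (N (nat_lit 5475) (L (E (nat_lit 7) (nat_lit 0x27593a49d04b28014006001) (nat_lit 0))) (N (nat_lit 5476) (L (E (nat_lit 18) (nat_lit 0x13e49d34e7a65131497c4b2a2bd1548832c01578ab25542520014006001) (nat_lit 0))) (L (E (nat_lit 8) (nat_lit 0x46422c915e8954418014006001) (nat_lit 0))))) (N (nat_lit 5482) (N (nat_lit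 5479) (N (nat_lit 5478) (L (E (nat_lit 15) (nat_lit 0x48292ea9684b2a2c915e8aa4419600afc55e2ac8014006001) (nat_lit 0))) (L (E (nat_lit 15) (nat_lit 0x47d13a69764ba22bd1548944419600afc55924b0014006001) (nat_lit 0)))) (N (nat_lit 5481) (N (nat_lit 5480) (L (E (nat_lit 26) (nat_lit 0x116888643a21790b88562d415f8af455e2ac9550a924f227713a89684a624b12189084781880014006001) (nat_lit 0))) (L (E (nat_lit 19) (nat_lit 0x29994a4a504e9a68d2fa96545a22bd12a8702c31600af455e2ac8014006001) (nat_lit 0)))) (L (E (nat_lit 21) (nat_lit 0xa6652929413a697d4ba25951648af45422551088703101600afc55e2ac8014006001) (nat_lit 0))))) (N (nat_lit 5484) (N (nat_lit 5483) (L (E (nat_lit 18) (nat_lit 0x23e8a6652929413a69944ba25a12ca8c245822a910655e2ac8014006001) (nat_lit 0))) (L (E (nat_lit 14) (nat_lit 0x14cca5252825a12ca8c245822a910655e2ac8014006001) (nat_lit 0)))) (N (nat_lit 5485) (L (E (nat_lit 13) (nat_lit 0xf5854929f94cca6452f29494a0a2b46c8014006001)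 (nat_lit 0))) (L (E (nat_lit 16) (nat_lit 0x6c635b9ab0d1e549a9a94cca6452f28acc0c6043010014006001) (nat_lit 0))))))) (N (nat_lit 5494) (N (nat_lit 5491) (N (nat_lit 5489) (N (nat_lit 5488) (N (nat_lit 5487) (L (E (nat_lit 32) (nat_lit 0x6c635b9ab0a7e53329914a48e046f23711888b044d21c10bc85c42d1818c045862c015f8af455e2ac9550a9454229c0014006001) (nat_lit 0))) (L (E (nat_lit 15) (nat_lit 0x2fd97bca6653229414305b92c31600afc5592aa8014006001) (nat_lit 0)))) (L (E (nat_lit 14) (nat_lit 0x14cca5252825f52ec96446122c110655e2ac8014006001) (nat_lit 0)))) (N (nat_lit 5490) (L (E (nat_lit 10) (nat_lit 0x13289904bc25d52d09664b20014006001) (nat_lit 0))) (L (E (nat_lit 17) (nat_lit 0x9944be25e12ec9684b222bd1067ba31116a0b105802b58014006001) (nat_lit 0))))) (N (nat_lit 5492) (L (E (nat_lit 13) (nat_lit 0x97c4bb25a12c88af4419600ad655e2ac8014006001) (nat_lit 0))) (N (nat_lit 5493) (L (E (nat_lit 8) (nat_lit 0x4caa5d8afc56a2ac8014006001)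 (nat_lit 0))) (L (E (nat_lit 10) (nat_lit 0x13289904bc25d52d09664b20014006001) (nat_lit 0)))))) (N (nat_lit 5498) (N (nat_lit 5496) (N (nat_lit 5495) (L (E (nat_lit 14) (nat_lit 0x14cca5252825d92d08c245822a910655e2ac8014006001) (nat_lit 0))) (L (E (nat_lit 15) (nat_lit 0x29994a897c4bb25d12d0964457a20cb0055e2ac8014006001) (nat_lit 0)))) (N (nat_lit 5497) (L (E (nat_lit 13) (nat_lit 0xa534bb25a12c88af4419600afc55e2ac8014006001) (nat_lit 0))) (L (E (nat_lit 17) (nat_lit 0x9a34bea5d92e2962457a20cb505802af1564aa84b41880014006001) (nat_lit 0))))) (N (nat_lit 5500) (N (nat_lit 5499) (L (E (nat_lit 14) (nat_lit 0x137c97d4bb25891848b044195acabc5591880014006001) (nat_lit 0))) (L (E (nat_lit 14) (nat_lit 0x14c8a504d125d12cc96249a1600afc56a2ac8014006001) (nat_lit 0)))) (N (nat_lit 5501) (L (E (nat_lit 16) (nat_lit 0x53329914a8a504bea5d12d096546122c110655e2ac8014006001) (nat_lit 0))) (L (E (nat_lit 14) (nat_lit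 0x14cca504ca25d92d08c245822a910655e2ac8014006001) (nat_lit 0))))))))
def cl110 : RA := N (nat_lit 5528) (N (nat_lit 5512) (N (nat_lit 5508) (N (nat_lit 5504) (N (nat_lit 5503) (L (E (nat_lit 13) (nat_lit 0xa6652825d92d08c245822a910655e2ac8014006001) (nat_lit 0))) (L (E (nat_lit 10) (nat_lit 0x134898a4bb25d12c494249c8014006001) (nat_lit 0)))) (N (nat_lit 5506) (N (nat_lit 5505) (L (E (nat_lit 14) (nat_lit 0x131897c4bb25d12d08b2457a2a91065802ac8014006001) (nat_lit 0))) (L (E (nat_lit 16) (nat_lit 0x54629914a8a5252816e8b725a62d11618b005592aa8014006001) (nat_lit 0)))) (N (nat_lit 5507) (L (E (nat_lit 16) (nat_lit 0x533a94132e9904c5a5f52cc963462230916055e2ac8014006001) (nat_lit 0))) (L (E (nat_lit 13) (nat_lit 0xa504bb25d12d08c245822a910655e2ac8014006001) (nat_lit 0)))))) (N (nat_lit 5509) (L (E (nat_lit 5) (nat_lit 0x9904c626292fa001) (nat_lit 0))) (N (nat_lit 5511) (N (nat_lit 5510) (L (E (nat_lit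 14) (nat_lit 0x12ea9684b2a2c915e8aa4419600afc55e2ac8014006001) (nat_lit 0))) (L (E (nat_lit 12) (nat_lit 0x52825d92d08c245822a910655e2ac8014006001) (nat_lit 0)))) (L (E (nat_lit 15) (nat_lit 0x26412ea9684b323091288744381600afc56a2ac8014006001) (nat_lit 0)))))) (N (nat_lit 5520) (N (nat_lit 5516) (N (nat_lit 5514) (N (nat_lit 5513) (L (E (nat_lit 17) (nat_lit 0x9904be25d92e896846923091688ab443220d0e85802ac8014006001) (nat_lit 0))) (L (E (nat_lit 11) (nat_lit 0x29412ec96846122c110655e2ac8014006001) (nat_lit 0)))) (N (nat_lit 5515) (L (E (nat_lit 17) (nat_lit 0x9904bea5c52c88c446122c916088330e1600afc56a2ac8014006001) (nat_lit 0))) (L (E (nat_lit 11) (nat_lit 0x1898c4061c2c01564aaa4961480014006001) (nat_lit 0))))) (N (nat_lit 5518) (N (nat_lit 5517) (L (E (nat_lit 16) (nat_lit 0x4c825f52e28c446122c916088330e1600afc56a2ac8014006001) (nat_lit 0))) (L (E (nat_lit 23) (nat_lit 0x3639ac8d5e6ad30217bc9ba4d126312e88c445822690e88703111880c3861a2a18014006001)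 (nat_lit 0)))) (N (nat_lit 5519) (L (E (nat_lit 11) (nat_lit 0x25d92e896846122c110655e2ac8014006001) (nat_lit 0))) (L (E (nat_lit 15) (nat_lit 0x26e52f89724b425952888c4461230110687e2ac8014006001) (nat_lit 0)))))) (N (nat_lit 5523) (N (nat_lit 5522) (N (nat_lit 5521) (L (E (nat_lit 11) (nat_lit 0x25f12ea968457a20cafe55e2ac8014006001) (nat_lit 0))) (L (E (nat_lit 10) (nat_lit 0x12ec96846122c110655e2ac8014006001) (nat_lit 0)))) (L (E (nat_lit 18) (nat_lit 0x246c9ba4ca264131898a4b425991868b2438216cafc5592aa0014006001) (nat_lit 0)))) (N (nat_lit 5526) (N (nat_lit 5525) (N (nat_lit 5524) (L (E (nat_lit 14) (nat_lit 0x13a697c4baa5a12ca8c345921c10b657e2ac8014006001) (nat_lit 0))) (L (E (nat_lit 13) (nat_lit 0x9ea4e9a7013469922cc1600afc57c2af0014006001) (nat_lit 0)))) (L (E (nat_lit 18) (nat_lit 0x13a69c04c8a5f12ec9684b222c11066702cc15acabc5592a50014006001) (nat_lit 0)))) (N (nat_lit 5527) (L (E (nat_lit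 13) (nat_lit 0x9d34be25d52d08b0441a16cafc55e2ac8014006001) (nat_lit 0))) (L (E (nat_lit 13) (nat_lit 0x9a44be25d52d08b0441a16cb3055e2ac8014006001) (nat_lit 0)))))))) (N (nat_lit 5541) (N (nat_lit 5532) (N (nat_lit 5529) (L (E (nat_lit 9) (nat_lit 0x9b94d225fd2ec9734b40014006001) (nat_lit 0))) (N (nat_lit 5531) (N (nat_lit 5530) (L (E (nat_lit 14) (nat_lit 0x13469914bfa5d92e68dd461a2c110c8832ac8014006001) (nat_lit 0))) (L (E (nat_lit 12) (nat_lit 0x4be25d92d08dd458220d0b655e2ac8014006001) (nat_lit 0)))) (L (E (nat_lit 10) (nat_lit 0x13489904c525f52f09684b30014006001) (nat_lit 0))))) (N (nat_lit 5537) (N (nat_lit 5535) (N (nat_lit 5534) (N (nat_lit 5533) (L (E (nat_lit 10) (nat_lit 0x140e9c04d225f52ec9664b10014006001) (nat_lit 0))) (L (E (nat_lit 19) (nat_lit 0x2f313a09a24c8a5f52ec9744b323f11d08bc45316a0b0057e2ac8014006001) (nat_lit 0)))) (L (E (nat_lit 21) (nat_lit 0xbcc4e8269134498a4bea5d92cc8fc47422f114c5a82cc1600afc55e2ac8014006001)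 (nat_lit 0)))) (N (nat_lit 5536) (L (E (nat_lit 13) (nat_lit 0x110c7f436316a4a7e52aa254da86c62500014006001) (nat_lit 0))) (L (E (nat_lit 15) (nat_lit 0x3679b18d3a6992a594cca54529294147ca2c5140014006001) (nat_lit 0))))) (N (nat_lit 5539) (N (nat_lit 5538) (L (E (nat_lit 17) (nat_lit 0x110c7f43cc9b18b5253f295531898a44a9b50c644a01c10014006001) (nat_lit 0))) (L (E (nat_lit 23) (nat_lit 0x3919bd8d9e6c634e9a64b5254b29514a4a5051f28b1450a1244a988070416a0950014006001) (nat_lit 0)))) (N (nat_lit 5540) (L (E (nat_lit 26) (nat_lit 0x2218fe879937b1b3cd8c69d34c96a4aaa53f28a13148954419b50ad655e2ac9524a4c4a00b50014006001) (nat_lit 0))) (L (E (nat_lit 26) (nat_lit 0x1e50d9e4e8270937c9a44cb26292fa9444a023f11d08bc45322551065a82cc1600afc55e2ac8014006001) (nat_lit 0))))))) (N (nat_lit 5544) (N (nat_lit 5543) (N (nat_lit 5542) (L (E (nat_lit 9) (nat_lit 0x9764b422c110655e2ac8014006001) (nat_lit 0))) (L (E (nat_lit 15)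 (nat_lit 0x26912ec8b245822b913488443815fcab255429a0014006001) (nat_lit 0)))) (L (E (nat_lit 10) (nat_lit 0x13509a64d226892fa9784b30014006001) (nat_lit 0)))) (N (nat_lit 5548) (N (nat_lit 5546) (N (nat_lit 5545) (L (E (nat_lit 11) (nat_lit 0x3919854c2261030614ce56b1c105a8006001) (nat_lit 0))) (L (E (nat_lit 43) (nat_lit 0x3cc9bd8d8c69d30616a4a9653f28f94589cf4db26913149784b425992c495e47923191648ae44e22551088744381b50c506263111880ad64a01c10dd861830a1830014006001) (nat_lit 0)))) (N (nat_lit 5547) (L (E (nat_lit 9) (nat_lit 0x9914bea5d91608832ac8014006001) (nat_lit 0))) (L (E (nat_lit 33) (nat_lit 0xd5e54b29a94bca504d426913389974ca264932098b4bf25c52d096346323111848b245822a913889a44199d0c506263110014006001) (nat_lit 0))))) (N (nat_lit 5550) (N (nat_lit 5549) (L (E (nat_lit 29) (nat_lit 0xd5e54b29a94bca504d426913389904c625f52e28c646223091648b0455227110667432f18c8c506223000014006001) (nat_lit 0))) (L (E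 (nat_lit 9) (nat_lit 0x97d4bb22c110656b2ac8014006001) (nat_lit 0)))) (N (nat_lit 5551) (L (E (nat_lit 12) (nat_lit 0x4bea5d91608832e716a0ab255429a0014006001) (nat_lit 0))) (L (E (nat_lit 15) (nat_lit 0x3f1134c9964c82630b9c5a82b915a8ab25541c40014006001) (nat_lit 0))))))))
def cl111 : RA := N (nat_lit 5433) (N (nat_lit 5368) (N (nat_lit 5327) (N (nat_lit 5316) (N (nat_lit 5309) (N (nat_lit 5306) (N (nat_lit 5300) (N (nat_lit 5298) (L (E (nat_lit 3) (nat_lit 0x157cab2555) (nat_lit 0))) (N (nat_lit 5299) (L (E (nat_lit 3) (nat_lit 0x25f52ee973) (nat_lit 0))) (L (E (nat_lit 3) (nat_lit 0x260d2fa979) (nat_lit 0))))) (N (nat_lit 5303) (N (nat_lit 5302) (N (nat_lit 5301) (L (E (nat_lit 3) (nat_lit 0x265d32298d) (nat_lit 0))) (L (E (nat_lit 3) (nat_lit 0x26a534699f) (nat_lit 0)))) (L (E (nat_lit 3) (nat_lit 0x291547ea3b) (nat_lit 0)))) (N (nat_lit 5305) (N (nat_lit 5304) (L (E (nat_lit 3) (nat_lit 0x353da92d45)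 (nat_lit 0))) (L (E (nat_lit 3) (nat_lit 0x35fdaf2d75) (nat_lit 0)))) (L (E (nat_lit 3) (nat_lit 0x1604a9252d) (nat_lit 0)))))) (N (nat_lit 5308) (N (nat_lit 5307) (L (E (nat_lit 3) (nat_lit 0x176cb56585) (nat_lit 0))) (L (E (nat_lit 3) (nat_lit 0x23ed182897) (nat_lit 0)))) (L (E (nat_lit 3) (nat_lit 0x23fd18a89b) (nat_lit 0))))) (N (nat_lit 5315) (N (nat_lit 5312) (N (nat_lit 5310) (L (E (nat_lit 3) (nat_lit 0x268d2ce947) (nat_lit 0))) (N (nat_lit 5311) (L (E (nat_lit 3) (nat_lit 0x26952d2949) (nat_lit 0))) (L (E (nat_lit 3) (nat_lit 0x277d346979) (nat_lit 0))))) (N (nat_lit 5314) (N (nat_lit 5313) (L (E (nat_lit 3) (nat_lit 0x27fd39e9a5) (nat_lit 0))) (L (E (nat_lit 3) (nat_lit 0x28353ce9c1) (nat_lit 0)))) (L (E (nat_lit 3) (nat_lit 0x363da9ed2b) (nat_lit 0))))) (L (E (nat_lit 3) (nat_lit 0x15c4ada567) (nat_lit 0))))) (N (nat_lit 5321) (N (nat_lit 5317) (L (E (nat_lit 3) (nat_lit 0x226d12e891)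 (nat_lit 0))) (N (nat_lit 5318) (L (E (nat_lit 3) (nat_lit 0x22cd15e8a9) (nat_lit 0))) (N (nat_lit 5320) (N (nat_lit 5319) (L (E (nat_lit 3) (nat_lit 0x231d1868bd) (nat_lit 0))) (L (E (nat_lit 3) (nat_lit 0x259d2c695d) (nat_lit 0)))) (L (E (nat_lit 3) (nat_lit 0x25a52ca95f) (nat_lit 0)))))) (N (nat_lit 5324) (N (nat_lit 5323) (N (nat_lit 5322) (L (E (nat_lit 3) (nat_lit 0x25f52f2973) (nat_lit 0))) (L (E (nat_lit 3) (nat_lit 0x26052fa977) (nat_lit 0)))) (L (E (nat_lit 3) (nat_lit 0x26a534a99f) (nat_lit 0)))) (N (nat_lit 5326) (N (nat_lit 5325) (L (E (nat_lit 3) (nat_lit 0x2fed7eebf1) (nat_lit 0))) (L (E (nat_lit 5) (nat_lit 0x82d3fd1fc0fc2001) (nat_lit 0)))) (L (E (nat_lit 10) (nat_lit 0xb3c59c2cc1658b2058e2c00014006001) (nat_lit 0))))))) (cl107)) (cl108)) (N (nat_lit 5502) (N (nat_lit 5462) (N (nat_lit 5444) (N (nat_lit 5442) (N (nat_lit 5441) (N (nat_lit 5440) (N (nat_lit 5437) (N (nat_lit 5435)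 (N (nat_lit 5434) (L (E (nat_lit 21) (nat_lit 0x11b84e826a134c9924be259928469032d1918c6463031017f8bec5f013f0014006001) (nat_lit 0))) (L (E (nat_lit 31) (nat_lit 0x269932897e4be25e12ec9684b3251113869032d1918c6463031017f8bec5f025a12689284861830bc84fc23a09d0014006001) (nat_lit 0)))) (N (nat_lit 5436) (L (E (nat_lit 28) (nat_lit 0x8b13f5134c9944bb259928e9424961968c606202ff17d8b4c5922c015f8abe5592a4949896848613f0014006001) (nat_lit 0))) (L (E (nat_lit 29) (nat_lit 0x11627ea26993289764b3251d28492c32d18c0c405fe2fb1698b345922c015f8ae455929c149896848613f0014006001) (nat_lit 0))))) (N (nat_lit 5439) (N (nat_lit 5438) (L (E (nat_lit 17) (nat_lit 0xc065e626e52d09634a39930c4c5ec2f01660b025592a58014006001) (nat_lit 0))) (L (E (nat_lit 19) (nat_lit 0x30197989b94bea5d92cc9474a11930bd85e02cc1604ae45592a58014006001) (nat_lit 0)))) (L (E (nat_lit 9) (nat_lit 0x97646122cd15c8832ac8014006001) (nat_lit 0))))) (L (E (nat_lit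 7) (nat_lit 0x25d91668832ac8014006001) (nat_lit 0)))) (L (E (nat_lit 9) (nat_lit 0x9764b422c11065812ac8014006001) (nat_lit 0)))) (N (nat_lit 5443) (L (E (nat_lit 12) (nat_lit 0x8fa1ee8f686263111880c3855524b0014006001) (nat_lit 0))) (L (E (nat_lit 4) (nat_lit 0x2d49600ab2542) (nat_lit 0))))) (N (nat_lit 5453) (N (nat_lit 5452) (N (nat_lit 5448) (N (nat_lit 5446) (N (nat_lit 5445) (L (E (nat_lit 14) (nat_lit 0x12fa8b0450227910c88343b21890c05802ac8014006001) (nat_lit 0))) (L (E (nat_lit 12) (nat_lit 0x4be25d92d09662bf9578ab254a29c0014006001) (nat_lit 0)))) (N (nat_lit 5447) (L (E (nat_lit 14) (nat_lit 0x12f8976468229910687f4351600afc56a2ac8014006001) (nat_lit 0))) (L (E (nat_lit 21) (nat_lit 0x9944be25d92d09624ab25111988c646122991288834351600afc56a2ac8014006001) (nat_lit 0))))) (N (nat_lit 5450) (N (nat_lit 5449) (L (E (nat_lit 9) (nat_lit 0x9954bb15f8aec56a2ac8014006001) (nat_lit 0))) (L (E (nat_lit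 22) (nat_lit 0x12f89764b425892ac8cc463230914c894441a1a8b005762b51578ab254a29c0014006001) (nat_lit 0)))) (N (nat_lit 5451) (L (E (nat_lit 12) (nat_lit 0x4bb25a11848b0457220d0ea55e2ac8014006001) (nat_lit 0))) (L (E (nat_lit 14) (nat_lit 0x14a09de4d1a5d92c86202d31668b2e56a2ac8014006001) (nat_lit 0)))))) (L (E (nat_lit 11) (nat_lit 0x26e93709b64da26312ec9734b20014006001) (nat_lit 0)))) (N (nat_lit 5455) (N (nat_lit 5454) (L (E (nat_lit 20) (nat_lit 0x4ef27492f89664b1a2c91608ae44021c0d0465c31016d8b005592980014006001) (nat_lit 0))) (L (E (nat_lit 11) (nat_lit 0x27d13a49b94d426593289904c60014006001) (nat_lit 0)))) (N (nat_lit 5460) (N (nat_lit 5458) (N (nat_lit 5457) (N (nat_lit 5456) (L (E (nat_lit 10) (nat_lit 0x1f38d5c529274932a9652b60014006001) (nat_lit 0))) (L (E (nat_lit 12) (nat_lit 0x4e925f12ec9684b32588b5455e2ac8014006001) (nat_lit 0)))) (L (E (nat_lit 23) (nat_lit 0x27793a497c4bb25a12cc8b245822b91008703411970c405b62d51600abc5592980014006001)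 (nat_lit 0)))) (N (nat_lit 5459) (L (E (nat_lit 12) (nat_lit 0x4e925992c65ba2bf9578ab254a29c0014006001) (nat_lit 0))) (L (E (nat_lit 14) (nat_lit 0x13a49a64d125992c65b62cb9618afc55e2ac8014006001) (nat_lit 0))))) (N (nat_lit 5461) (L (E (nat_lit 6) (nat_lit 0x9c04d8266131896a492) (nat_lit 0))) (L (E (nat_lit 20) (nat_lit 0x6d0274934c97d4b1a5211d08b0457220cc2c5b62d51578ab25302700014006001) (nat_lit 0)))))))) (cl109)) (N (nat_lit 5552) (cl110) (N (nat_lit 5554) (N (nat_lit 5553) (L (E (nat_lit 9) (nat_lit 0xfc444b12507903761830a3846c001) (nat_lit 0))) (L (E (nat_lit 9) (nat_lit 0x9a54cb25d52cc55f2ac8014006001) (nat_lit 0)))) (L (E (nat_lit 7) (nat_lit 0x26e53489904b40014006001) (nat_lit 0))))))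
def cl112 : RA := N (nat_lit 5594) (N (nat_lit 5570) (N (nat_lit 5561) (N (nat_lit 5559) (N (nat_lit 5558) (N (nat_lit 5557) (N (nat_lit 5556) (L (E (nat_lit 21) (nat_lit 0x8cc463230913888644221d10c46083031800bfc4a424b125091048623d0014006001) (nat_lit 0))) (L (E (nat_lit 20) (nat_lit 0x4e9a69132c9904be25d52d094f45922711065ce2d41618b0055929a0014006001) (nat_lit 0)))) (L (E (nat_lit 19) (nat_lit 0x34c94b0a565292919488a2e4e9a7013228b2458220cb0c5802b58014006001) (nat_lit 0)))) (L (E (nat_lit 8) (nat_lit 0x4bb25a11608832ac8014006001) (nat_lit 0)))) (N (nat_lit 5560) (L (E (nat_lit 6) (nat_lit 0x13229764b48014006001) (nat_lit 0))) (L (E (nat_lit 10) (nat_lit 0x13289924c826312f89784bb0014006001) (nat_lit 0))))) (N (nat_lit 5567) (N (nat_lit 5564) (N (nat_lit 5562) (L (E (nat_lit 9) (nat_lit 0x9a34bb22c110656a2ac8014006001) (nat_lit 0))) (N (nat_lit 5563) (L (E (nat_lit 12) (nat_lit 0x4e826e53489934bb253110656a2ac8014006001)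 (nat_lit 0))) (L (E (nat_lit 11) (nat_lit 0x24612088dc46c23591a88cc4620014006001) (nat_lit 0))))) (N (nat_lit 5566) (N (nat_lit 5565) (L (E (nat_lit 27) (nat_lit 0x27e13729a74c626292d294c4a3a4111988c045122590ee5ca2dc16b0b505862c215e8adc56a2ae0014006001) (nat_lit 0))) (L (E (nat_lit 13) (nat_lit 0xd5a6ac34c9a20a9551f28a0d0c67232f0014006001) (nat_lit 0)))) (L (E (nat_lit 17) (nat_lit 0xd3251427e13729a74c525d928e8b0441a1b0ce457f2ac8014006001) (nat_lit 0))))) (N (nat_lit 5568) (L (E (nat_lit 8) (nat_lit 0x2c015f8ad45592a40014006001) (nat_lit 0))) (N (nat_lit 5569) (L (E (nat_lit 9) (nat_lit 0x9a44bb22c110656a2ac8014006001) (nat_lit 0))) (L (E (nat_lit 8) (nat_lit 0x4bb22c11065812ac8014006001) (nat_lit 0))))))) (N (nat_lit 5583) (N (nat_lit 5576) (N (nat_lit 5573) (N (nat_lit 5572) (N (nat_lit 5571) (L (E (nat_lit 11) (nat_lit 0x2ad9554aa85522a89520a625280014006001) (nat_lit 0))) (L (E (nat_lit 21) (nat_lit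 0xc2248123b91b08d646122191068744312180f9467233719b0cd459a1990014006001) (nat_lit 0)))) (L (E (nat_lit 10) (nat_lit 0x13489a24c925d91608832ac8014006001) (nat_lit 0)))) (N (nat_lit 5574) (L (E (nat_lit 9) (nat_lit 0x9a44c925d91608832ac8014006001) (nat_lit 0))) (N (nat_lit 5575) (L (E (nat_lit 20) (nat_lit 0x8e32ad952ea7e535294147ca2834a1a40d145c82dc15e8ad84fa24b0014006001) (nat_lit 0))) (L (E (nat_lit 14) (nat_lit 0x182cbf05e42a594cea3e51415ac70416a09a0014006001) (nat_lit 0)))))) (N (nat_lit 5580) (N (nat_lit 5578) (N (nat_lit 5577) (L (E (nat_lit 32) (nat_lit 0x8e33ca1d20dee6b23569a64d1060b2fc1790ab653f29a94a4a285131a50d2068a2dc15e8ad655927d125846c16a09a0014006001) (nat_lit 0))) (L (E (nat_lit 32) (nat_lit 0x8e33a41bdcd8c6ad34c982cbc855b29f9450a26463230d1648b044221dcd2068a2dc15e8ad655927d125846c16a09a0014006001) (nat_lit 0)))) (N (nat_lit 5579) (L (E (nat_lit 29) (nat_lit 0x11c674834c982ca2851328113c49e14e9a68d3268c6459220d0ee86c34515e8ad655927d125846c16a09a0014006001)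 (nat_lit 0))) (L (E (nat_lit 13) (nat_lit 0x8c846323111848b2441a1f90e886c4310014006001) (nat_lit 0))))) (N (nat_lit 5582) (N (nat_lit 5581) (L (E (nat_lit 23) (nat_lit 0x471a0c0ff87f73fb1fb0fca7d43a41b1caa853f29994a49a43191600ad830e09a0014006001) (nat_lit 0))) (L (E (nat_lit 42) (nat_lit 0x238d0607fc3fb9fd8fd87e53ea1d20d8e5542a49520a7e53d29a94a4a5051f2690d2868a3441a18d006703371998c645c82dc1600af456c2b313e892c30e09a0014006001) (nat_lit 0)))) (L (E (nat_lit 8) (nat_lit 0x4d225d91608832ac8014006001) (nat_lit 0)))))) (N (nat_lit 5584) (L (E (nat_lit 7) (nat_lit 0x25d91608832ac8014006001) (nat_lit 0))) (N (nat_lit 5589) (N (nat_lit 5586) (N (nat_lit 5585) (L (E (nat_lit 14) (nat_lit 0x147c9a54bc25d92d289644115b8ad654624a0014006001) (nat_lit 0))) (L (E (nat_lit 9) (nat_lit 0x91746423051648af4420014006001) (nat_lit 0)))) (N (nat_lit 5588) (N (nat_lit 5587) (L (E (nat_lit 11) (nat_lit 0x16f8b3c5882c29600ac055e2ac8014006001)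 (nat_lit 0))) (L (E (nat_lit 16) (nat_lit 0x4dca69532698c4b4230515e8842c415f8ac055e2ac8014006001) (nat_lit 0)))) (L (E (nat_lit 17) (nat_lit 0x9b94d2a6312f89764b4259928e8c1457a210b1057e2ac8014006001) (nat_lit 0))))) (N (nat_lit 5592) (N (nat_lit 5591) (N (nat_lit 5590) (L (E (nat_lit 11) (nat_lit 0x26e534a97d4b3231116056b2ac8014006001) (nat_lit 0))) (L (E (nat_lit 12) (nat_lit 0x4d2a5d92d0966460a2bd0a656b2ac8014006001) (nat_lit 0)))) (L (E (nat_lit 23) (nat_lit 0x3f11bf0a804fa26e532097c4baa5c12cc94446c23091608ae442a14cb0056b2ac8014006001) (nat_lit 0)))) (N (nat_lit 5593) (L (E (nat_lit 15) (nat_lit 0x26e534a97c4bb259928e8d845822b90a656b2ac8014006001) (nat_lit 0))) (L (E (nat_lit 10) (nat_lit 0x134a9764b4259916056b2ac8014006001) (nat_lit 0))))))))) (N (nat_lit 5595) (L (E (nat_lit 5) (nat_lit 0x896441218c00a001) (nat_lit 0))) (N (nat_lit 5599) (N (nat_lit 5598) (N (nat_lit 5596) (L (E (nat_lit 9)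 (nat_lit 0x9ce4dc26952f89784bb0014006001) (nat_lit 0))) (N (nat_lit 5597) (L (E (nat_lit 15) (nat_lit 0x273934a9904be25d92d08b04432210b0057e2ac8014006001) (nat_lit 0))) (L (E (nat_lit 9) (nat_lit 0x9a54bb22c115c8842ac8014006001) (nat_lit 0))))) (L (E (nat_lit 7) (nat_lit 0x22ad13889a44b0014006001) (nat_lit 0)))) (N (nat_lit 5600) (L (E (nat_lit 9) (nat_lit 0x57f2b89564a845382950014006001) (nat_lit 0))) (L (E (nat_lit 9) (nat_lit 0x8b245822b915489a442217800a001) (nat_lit 0))))))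
def cl113 : RA := N (nat_lit 5638) (N (nat_lit 5624) (N (nat_lit 5615) (N (nat_lit 5613) (N (nat_lit 5608) (N (nat_lit 5605) (N (nat_lit 5603) (N (nat_lit 5602) (L (E (nat_lit 21) (nat_lit 0x11627d237914849e84eb2660ce465a30916d8b0056b2ae1564a9031e1890014006001) (nat_lit 0))) (L (E (nat_lit 19) (nat_lit 0x4589e509cc4d2265d31697d4b3a300fe865a2c015c8ad655925b0014006001) (nat_lit 0)))) (N (nat_lit 5604) (L (E (nat_lit 12) (nat_lit 0x8b1273132e9904bea30d16656b2ac8014006001) (nat_lit 0))) (L (E (nat_lit 10) (nat_lit 0x134697d46122c115c8842ac8014006001) (nat_lit 0))))) (N (nat_lit 5607) (N (nat_lit 5606) (L (E (nat_lit 12) (nat_lit 0x4dc269132097d46122c115c8842ac8014006001) (nat_lit 0))) (L (E (nat_lit 11) (nat_lit 0x269132097d45822b8b0056b2ac8014006001) (nat_lit 0)))) (L (E (nat_lit 10) (nat_lit 0x13489904b3a3091668ae29c8014006001) (nat_lit 0))))) (N (nat_lit 5610) (N (nat_lit 5609) (L (E (nat_lit 14)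 (nat_lit 0x13489904b3a3091668b0457226912c5802b70014006001) (nat_lit 0))) (L (E (nat_lit 14) (nat_lit 0x13489904bc25a12cc8c2459a2b912c5802b70014006001) (nat_lit 0)))) (N (nat_lit 5611) (L (E (nat_lit 14) (nat_lit 0x13489904bc23091668ae44b1600adc5462a20014006001) (nat_lit 0))) (N (nat_lit 5612) (L (E (nat_lit 9) (nat_lit 0x8c3459a2c115488343f0014006001) (nat_lit 0))) (L (E (nat_lit 15) (nat_lit 0x3cf14d8a4452128f9458a104ca18e8ad843a14d0014006001) (nat_lit 0))))))) (N (nat_lit 5614) (L (E (nat_lit 7) (nat_lit 0x29514a4a505218014006001) (nat_lit 0))) (L (E (nat_lit 19) (nat_lit 0x2a414a8a3e4d326412f09694b225891668ae453a25910487414d0014006001) (nat_lit 0))))) (N (nat_lit 5623) (N (nat_lit 5619) (N (nat_lit 5618) (N (nat_lit 5617) (N (nat_lit 5616) (L (E (nat_lit 24) (nat_lit 0x68d3459520a3e4ce26413109774b4a4611ae8cc461a2cd15c8a744b2208c0c60214d0014006001) (nat_lit 0))) (L (E (nat_lit 11) (nat_lit 0x2691320969459a2b8b0056b2ac8014006001)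 (nat_lit 0)))) (L (E (nat_lit 8) (nat_lit 0x461a2cd1608aa4418014006001) (nat_lit 0)))) (L (E (nat_lit 9) (nat_lit 0xf2846b9698b0056b2ac8014006001) (nat_lit 0)))) (N (nat_lit 5620) (L (E (nat_lit 7) (nat_lit 0x169cad65592a48014006001) (nat_lit 0))) (N (nat_lit 5622) (N (nat_lit 5621) (L (E (nat_lit 25) (nat_lit 0x10fc6da35d1abcd3269330297eca5450e23511888b045722a912c8944401f80f946763010014006001) (nat_lit 0))) (L (E (nat_lit 28) (nat_lit 0x5d327393489904c625f12f09684ab24611a88cc46222cd1548963dd1808b0c5481e70e0861c2980980014006001) (nat_lit 0)))) (L (E (nat_lit 11) (nat_lit 0x26913208b345822b8b0056b2ac8014006001) (nat_lit 0)))))) (L (E (nat_lit 6) (nat_lit 0x11868954410014006001) (nat_lit 0))))) (N (nat_lit 5632) (N (nat_lit 5627) (N (nat_lit 5626) (N (nat_lit 5625) (L (E (nat_lit 11) (nat_lit 0x26913208b04572268b0056b2ac8014006001) (nat_lit 0))) (L (E (nat_lit 11) (nat_lit 0x26913209684611600ad65592a40014006001)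 (nat_lit 0)))) (L (E (nat_lit 7) (nat_lit 0x22c110485f4260014006001) (nat_lit 0)))) (N (nat_lit 5630) (N (nat_lit 5629) (N (nat_lit 5628) (L (E (nat_lit 19) (nat_lit 0x2ee92c88de46c235115e89a44a22090fc85e42e1600ad65592a48014006001) (nat_lit 0))) (L (E (nat_lit 17) (nat_lit 0x9ee4df26a134e9a24c625f51648af44222090987ca32f0014006001) (nat_lit 0)))) (L (E (nat_lit 21) (nat_lit 0x9a84d226412ce90c47fa3611648b044d21f90d484c32f1600ad65592a48014006001) (nat_lit 0)))) (N (nat_lit 5631) (L (E (nat_lit 7) (nat_lit 0x25dd2d49684b30014006001) (nat_lit 0))) (L (E (nat_lit 13) (nat_lit 0x9a44c825a11648b044d2208b0056b2ac8014006001) (nat_lit 0)))))) (N (nat_lit 5637) (N (nat_lit 5635) (N (nat_lit 5634) (N (nat_lit 5633) (L (E (nat_lit 19) (nat_lit 0x26a93509a44c625e12ec9664b125492488ec46c23191648af44e0014006001) (nat_lit 0))) (L (E (nat_lit 24) (nat_lit 0x80030b539c8f63731b40cdc63c2d41618ae45702ae1528a904e81f40ce84b41ce0350014006001)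 (nat_lit 0)))) (L (E (nat_lit 12) (nat_lit 0x4d226411648b044d2208b0056b2ac8014006001) (nat_lit 0)))) (N (nat_lit 5636) (L (E (nat_lit 8) (nat_lit 0x46a230512888043f0014006001) (nat_lit 0))) (L (E (nat_lit 11) (nat_lit 0x26913208b044d2208b0056b2ac8014006001) (nat_lit 0))))) (L (E (nat_lit 9) (nat_lit 0x9a44c825e12ee9684b30014006001) (nat_lit 0)))))) (N (nat_lit 5663) (N (nat_lit 5652) (N (nat_lit 5643) (N (nat_lit 5641) (N (nat_lit 5640) (N (nat_lit 5639) (L (E (nat_lit 9) (nat_lit 0xbfa5df2eed758ba45d00014006001) (nat_lit 0))) (L (E (nat_lit 10) (nat_lit 0x1fd4c306042f8518455912608d8006001) (nat_lit 0)))) (L (E (nat_lit 10) (nat_lit 0x13489904582268b0056b2ac8014006001) (nat_lit 0)))) (N (nat_lit 5642) (L (E (nat_lit 7) (nat_lit 0x26951608832ac8014006001) (nat_lit 0))) (L (E (nat_lit 6) (nat_lit 0x134a9774b30014006001) (nat_lit 0))))) (N (nat_lit 5647) (N (nat_lit 5644) (L (E (nat_lit 8) (nat_lit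 0x4d2a59916056b2ac8014006001) (nat_lit 0))) (N (nat_lit 5646) (N (nat_lit 5645) (L (E (nat_lit 11) (nat_lit 0x26e134a98c4bb22c115c8aa2ac8014006001) (nat_lit 0))) (L (E (nat_lit 11) (nat_lit 0x26e134a9762c015c8ab25482940014006001) (nat_lit 0)))) (L (E (nat_lit 11) (nat_lit 0x19c8cbc64a31c9888c005f22b60014006001) (nat_lit 0))))) (N (nat_lit 5650) (N (nat_lit 5649) (N (nat_lit 5648) (L (E (nat_lit 10) (nat_lit 0x134a98c4be9978c9863830b0014006001) (nat_lit 0))) (L (E (nat_lit 14) (nat_lit 0x13709a54bb23711a88b345797c8ad65592940014006001) (nat_lit 0)))) (L (E (nat_lit 15) (nat_lit 0x2ee91b88b2457a26910485e42d1600ad65592a48014006001) (nat_lit 0)))) (N (nat_lit 5651) (L (E (nat_lit 14) (nat_lit 0x13209764b9237116089a42d17c8b0056b2ac8014006001) (nat_lit 0))) (L (E (nat_lit 31) (nat_lit 0x3fa9e68f0077836c9af4d746b93541860bcc5d325f51847fa2e216a0b0c5722b81564a9449a24511e88dc24c11b0014006001) (nat_lit 0)))))))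 (N (nat_lit 5658) (N (nat_lit 5655) (N (nat_lit 5654) (N (nat_lit 5653) (L (E (nat_lit 16) (nat_lit 0x7f536c9ae4bb2477a37915e8874411600ad65592a40014006001) (nat_lit 0))) (L (E (nat_lit 17) (nat_lit 0xfea6d935c97749644a923b115e89a44a2208b0056b2ac8014006001) (nat_lit 0)))) (L (E (nat_lit 9) (nat_lit 0x9904582268b0056b2ac8014006001) (nat_lit 0)))) (N (nat_lit 5656) (L (E (nat_lit 13) (nat_lit 0xfda79d16a8b305842b915b8ad856a1210014006001) (nat_lit 0))) (N (nat_lit 5657) (L (E (nat_lit 21) (nat_lit 0x9b84d2a59d2c495647523611608ae430a088c1c5aa2cd1610ad455911b0014006001) (nat_lit 0))) (L (E (nat_lit 9) (nat_lit 0x8d7462230915c87e4360014006001) (nat_lit 0)))))) (N (nat_lit 5661) (N (nat_lit 5660) (N (nat_lit 5659) (L (E (nat_lit 21) (nat_lit 0x116252126513249904c625a128887432d1920c4461230117d88f422a0920014006001) (nat_lit 0))) (L (E (nat_lit 11) (nat_lit 0x26411608ae44d2208b005592a40014006001) (nat_lit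 0)))) (L (E (nat_lit 10) (nat_lit 0x11868b044d2208ad455929c0014006001) (nat_lit 0)))) (N (nat_lit 5662) (L (E (nat_lit 10) (nat_lit 0x13208b045722691045802ac8014006001) (nat_lit 0))) (L (E (nat_lit 9) (nat_lit 0x8b3457a208b0056a2ac8014006001) (nat_lit 0))))))) (N (nat_lit 5664) (L (E (nat_lit 7) (nat_lit 0x1614adc56c2b50014006001) (nat_lit 0))) (N (nat_lit 5676) (N (nat_lit 5670) (N (nat_lit 5667) (N (nat_lit 5665) (L (E (nat_lit 13) (nat_lit 0x9b84d225d91648af44115c8ad45592a48014006001) (nat_lit 0))) (N (nat_lit 5666) (L (E (nat_lit 13) (nat_lit 0x9a44bb22bd13489443f1600afc56a2ac8014006001) (nat_lit 0))) (L (E (nat_lit 17) (nat_lit 0x9b84d225d915e89a44121f8b085802bf15c0ab25492980014006001) (nat_lit 0))))) (N (nat_lit 5669) (N (nat_lit 5668) (L (E (nat_lit 14) (nat_lit 0x156eaaa54c2a11504a7e5372961484a395160014006001) (nat_lit 0))) (L (E (nat_lit 19) (nat_lit 0x29b93709a44bb22bd1348822e996b0b545802bf1564a925322980014006001)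 (nat_lit 0)))) (L (E (nat_lit 12) (nat_lit 0x4dc26912ec8af44d2208b005592a48014006001) (nat_lit 0))))) (N (nat_lit 5673) (N (nat_lit 5672) (N (nat_lit 5671) (L (E (nat_lit 12) (nat_lit 0x45922bd1348944422208afe55929c0014006001) (nat_lit 0))) (L (E (nat_lit 14) (nat_lit 0x12ee967457a2690fc5982c81600afc56a2ac8014006001) (nat_lit 0)))) (L (E (nat_lit 11) (nat_lit 0x269115e89a4411610b005592a48014006001) (nat_lit 0)))) (N (nat_lit 5675) (N (nat_lit 5674) (L (E (nat_lit 21) (nat_lit 0xd926bc35d1ae4d4e69428113ec9e64e827313949a54c525d12ce9624620014006001) (nat_lit 0))) (L (E (nat_lit 13) (nat_lit 0x9a5457a26910888243f9660afc56a2ac8014006001) (nat_lit 0)))) (L (E (nat_lit 11) (nat_lit 0x3f113749a24499600afc56a2ac8014006001) (nat_lit 0)))))) (L (E (nat_lit 8) (nat_lit 0x457a26912889243f0014006001) (nat_lit 0))))))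
def cl114 : RA := N (nat_lit 5704) (N (nat_lit 5694) (N (nat_lit 5688) (N (nat_lit 5683) (N (nat_lit 5680) (N (nat_lit 5678) (L (E (nat_lit 11) (nat_lit 0x267931a9622cc1610afa54629a0014006001) (nat_lit 0))) (N (nat_lit 5679) (L (E (nat_lit 19) (nat_lit 0x35e93449904c625d92e89724b325891b06242c015f8ad45591880014006001) (nat_lit 0))) (L (E (nat_lit 15) (nat_lit 0x26952d08b0457a2691088822cc1618b0857e2ac8014006001) (nat_lit 0))))) (N (nat_lit 5682) (N (nat_lit 5681) (L (E (nat_lit 11) (nat_lit 0x22c915e89a4411610b005592a48014006001) (nat_lit 0))) (L (E (nat_lit 21) (nat_lit 0x9a54b3a5591c08de46c231116089a44b16a8adc56c2b5149892824211b0014006001) (nat_lit 0)))) (L (E (nat_lit 8) (nat_lit 0x457a2691045802ac8014006001) (nat_lit 0))))) (N (nat_lit 5684) (L (E (nat_lit 7) (nat_lit 0x22bd1345802ac8014006001) (nat_lit 0))) (N (nat_lit 5686) (N (nat_lit 5685) (L (E (nat_lit 8) (nat_lit 0x4c822c11345802ac8014006001)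 (nat_lit 0))) (L (E (nat_lit 10) (nat_lit 0x1344991458220cb585802ac8014006001) (nat_lit 0)))) (N (nat_lit 5687) (L (E (nat_lit 18) (nat_lit 0x13809ba4db268932298c4c525d11ae8b044d22591285aa2c20014006001) (nat_lit 0))) (L (E (nat_lit 19) (nat_lit 0x28f934499f4c8a5dd2848d7458226912c87e4309610b005482a20014006001) (nat_lit 0))))))) (N (nat_lit 5693) (N (nat_lit 5691) (N (nat_lit 5690) (N (nat_lit 5689) (L (E (nat_lit 12) (nat_lit 0x47523611608ae44d2208ad45592a48014006001) (nat_lit 0))) (L (E (nat_lit 18) (nat_lit 0x147c9a24c8a5dd2ce8d7458226912c87e4309610b005482a20014006001) (nat_lit 0)))) (L (E (nat_lit 8) (nat_lit 0x4582268b0857f2ac8014006001) (nat_lit 0)))) (N (nat_lit 5692) (L (E (nat_lit 10) (nat_lit 0x11608ae44d2208ad45592a48014006001) (nat_lit 0))) (L (E (nat_lit 8) (nat_lit 0x459a250afc56a2ac8014006001) (nat_lit 0))))) (L (E (nat_lit 5) (nat_lit 0x8b245822b9126001) (nat_lit 0))))) (N (nat_lit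 5700) (N (nat_lit 5699) (N (nat_lit 5698) (N (nat_lit 5696) (N (nat_lit 5695) (L (E (nat_lit 13) (nat_lit 0x97c4bba5a12ac94c46122a112487e42e0014006001) (nat_lit 0))) (L (E (nat_lit 15) (nat_lit 0x25f12d094447423991bc8d945a2278b305842af0014006001) (nat_lit 0)))) (N (nat_lit 5697) (L (E (nat_lit 13) (nat_lit 0x9924be25a12cc9442be95ccab25382970014006001) (nat_lit 0))) (L (E (nat_lit 9) (nat_lit 0x8b044d220cb0056a2ac8014006001) (nat_lit 0))))) (L (E (nat_lit 6) (nat_lit 0x11608ae455220d0fe001) (nat_lit 0)))) (L (E (nat_lit 10) (nat_lit 0x11648b045722a913489644a0014006001) (nat_lit 0)))) (N (nat_lit 5702) (N (nat_lit 5701) (L (E (nat_lit 8) (nat_lit 0x45822691065802ac8014006001) (nat_lit 0))) (L (E (nat_lit 7) (nat_lit 0x22c11348832ac8014006001) (nat_lit 0)))) (N (nat_lit 5703) (L (E (nat_lit 8) (nat_lit 0x4bba2cd15c5812ac8014006001) (nat_lit 0))) (L (E (nat_lit 10) (nat_lit 0x11668ae44a16a0b305812ac8014006001)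 (nat_lit 0))))))) (N (nat_lit 5705) (L (E (nat_lit 7) (nat_lit 0x26d93189764b38014006001) (nat_lit 0))) (N (nat_lit 5713) (N (nat_lit 5709) (N (nat_lit 5708) (N (nat_lit 5707) (N (nat_lit 5706) (L (E (nat_lit 15) (nat_lit 0x26311668954411f28c645a82c29604ab254829a0014006001) (nat_lit 0))) (L (E (nat_lit 8) (nat_lit 0x459a2b8b0256b2ac8014006001) (nat_lit 0)))) (L (E (nat_lit 15) (nat_lit 0x259916689544116f8b585862c09520a8c5442a10014006001) (nat_lit 0)))) (L (E (nat_lit 8) (nat_lit 0x2c095c8ab254a29c0014006001) (nat_lit 0)))) (N (nat_lit 5710) (L (E (nat_lit 7) (nat_lit 0x22cd15c5812ac8014006001) (nat_lit 0))) (N (nat_lit 5711) (L (E (nat_lit 13) (nat_lit 0x8c54592270b085722af1564a7453829a0014006001) (nat_lit 0))) (N (nat_lit 5712) (L (E (nat_lit 14) (nat_lit 0x131a96745aa2c115c89a4431604ae45592a40014006001) (nat_lit 0))) (L (E (nat_lit 14) (nat_lit 0x12ec96745aa2c115c89a4431604ae45592a40014006001)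 (nat_lit 0))))))) (N (nat_lit 5720) (N (nat_lit 5716) (N (nat_lit 5714) (L (E (nat_lit 7) (nat_lit 0x1604ae455929c8014006001) (nat_lit 0))) (N (nat_lit 5715) (L (E (nat_lit 16) (nat_lit 0x4d426912f09684b323191888c245aa2c11348864410014006001) (nat_lit 0))) (L (E (nat_lit 20) (nat_lit 0x4d225d92d096646c230916a8b045522691248822cd1618ad65592a58014006001) (nat_lit 0))))) (N (nat_lit 5718) (N (nat_lit 5717) (L (E (nat_lit 12) (nat_lit 0x4b423611608ae4552268b025722ac8014006001) (nat_lit 0))) (L (E (nat_lit 15) (nat_lit 0x231116a8b0457226910c8802c095c0ad455c2ac8014006001) (nat_lit 0)))) (N (nat_lit 5719) (L (E (nat_lit 12) (nat_lit 0x4bc259918a8b544aa214fa459c2cb0014006001) (nat_lit 0))) (L (E (nat_lit 17) (nat_lit 0x96645aa2c115c8954429f48b585a62ce1604ae055c2ac8014006001) (nat_lit 0)))))) (N (nat_lit 5722) (N (nat_lit 5721) (L (E (nat_lit 15) (nat_lit 0x26292ec9674582268b585a62c095c0ad655c2ac8014006001)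 (nat_lit 0))) (L (E (nat_lit 9) (nat_lit 0x8b045722550c45812ac8014006001) (nat_lit 0)))) (N (nat_lit 5723) (L (E (nat_lit 7) (nat_lit 0x22d513489644a0014006001) (nat_lit 0))) (L (E (nat_lit 12) (nat_lit 0x4d225d92ce8c5459226912c8942cb0014006001) (nat_lit 0))))))))
def cl115 : RA := N (nat_lit 5733) (N (nat_lit 5728) (N (nat_lit 5725) (L (E (nat_lit 8) (nat_lit 0x46222ad1348964410014006001) (nat_lit 0))) (N (nat_lit 5726) (L (E (nat_lit 10) (nat_lit 0x11648b045722a913489644a0014006001) (nat_lit 0))) (N (nat_lit 5727) (L (E (nat_lit 9) (nat_lit 0x97645822b91345812ac8014006001) (nat_lit 0))) (L (E (nat_lit 10) (nat_lit 0xb345842c09564a9454829e0014006001) (nat_lit 0)))))) (N (nat_lit 5732) (N (nat_lit 5730) (N (nat_lit 5729) (L (E (nat_lit 11) (nat_lit 0x274935097e2cd1658b245732ac8014006001) (nat_lit 0))) (L (E (nat_lit 8) (nat_lit 0x45822b91345812ac8014006001) (nat_lit 0)))) (N (nat_lit 5731) (L (E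 (nat_lit 8) (nat_lit 0x45822b913456a2ac8014006001) (nat_lit 0))) (L (E (nat_lit 18) (nat_lit 0x13488dc46323091648b045722a91348964311600adc5462a20014006001) (nat_lit 0))))) (L (E (nat_lit 10) (nat_lit 0x11848ae442220910087e4310014006001) (nat_lit 0))))) (N (nat_lit 5753) (N (nat_lit 5749) (N (nat_lit 5742) (N (nat_lit 5737) (N (nat_lit 5735) (N (nat_lit 5734) (L (E (nat_lit 13) (nat_lit 0x9914c6259d2c48c5459a2550c45802ac8014006001) (nat_lit 0))) (L (E (nat_lit 12) (nat_lit 0x4c8a3151668954412188b0056b2ac8014006001) (nat_lit 0)))) (N (nat_lit 5736) (L (E (nat_lit 6) (nat_lit 0x118a89a2ac8014006001) (nat_lit 0))) (L (E (nat_lit 11) (nat_lit 0x23a91b08c446122f11748ae4498014006001) (nat_lit 0))))) (N (nat_lit 5739) (N (nat_lit 5738) (L (E (nat_lit 8) (nat_lit 0x46222cd15c8964428014006001) (nat_lit 0))) (L (E (nat_lit 24) (nat_lit 0x5dd290947c9ce4e6272932c9914ab254928c944463231116089a443221110487e3ce0014006001)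 (nat_lit 0)))) (N (nat_lit 5741) (N (nat_lit 5740) (L (E (nat_lit 19) (nat_lit 0x28f939c9cc4dc26d93229674ab25192888c4459a25910887e3ce0014006001) (nat_lit 0))) (L (E (nat_lit 24) (nat_lit 0x7f53f09b1cd746af3121888c4054829513709b04cd25c12bc94f34619a8cb46563210014006001) (nat_lit 0)))) (L (E (nat_lit 19) (nat_lit 0x3fa9f84dae6c73631ae8d5e69934c1890c446202a414a89b832d0014006001) (nat_lit 0)))))) (N (nat_lit 5747) (N (nat_lit 5745) (N (nat_lit 5744) (N (nat_lit 5743) (L (E (nat_lit 24) (nat_lit 0x6ba2a413cc9cc4d1a6453109774b3235d1888b344b221d10486132d1938c846222c30014006001) (nat_lit 0))) (L (E (nat_lit 13) (nat_lit 0x9cc4bba2cd1608ae453a2691265592a40014006001) (nat_lit 0)))) (L (E (nat_lit 12) (nat_lit 0x46423191888c04411698b0056b2ac8014006001) (nat_lit 0)))) (N (nat_lit 5746) (L (E (nat_lit 16) (nat_lit 0x46423191888ae453a25110487e4311600ad65592a48014006001) (nat_lit 0))) (L (E (nat_lit 7) (nat_lit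 0x22cd15c8942ac8014006001) (nat_lit 0))))) (N (nat_lit 5748) (L (E (nat_lit 8) (nat_lit 0x459a2c115c89a2ac8014006001) (nat_lit 0))) (L (E (nat_lit 7) (nat_lit 0x22c115c89a2ac8014006001) (nat_lit 0)))))) (N (nat_lit 5752) (N (nat_lit 5751) (N (nat_lit 5750) (L (E (nat_lit 9) (nat_lit 0x9764b39668b0256b2ac8014006001) (nat_lit 0))) (L (E (nat_lit 17) (nat_lit 0xf3c4dc26893209764b116f8b7059a2c095a8ab254b1040014006001) (nat_lit 0)))) (L (E (nat_lit 8) (nat_lit 0x46322c91608852ac8014006001) (nat_lit 0)))) (L (E (nat_lit 9) (nat_lit 0x8c6457a26910c8844410014006001) (nat_lit 0))))) (N (nat_lit 5760) (N (nat_lit 5759) (N (nat_lit 5756) (N (nat_lit 5755) (N (nat_lit 5754) (L (E (nat_lit 22) (nat_lit 0x1b88d7a6182b095449cf4e026a93489944c8259d2c694b34619a8cac5a90aa0014006001) (nat_lit 0))) (L (E (nat_lit 32) (nat_lit 0x6e235e9860ac253b29994749d64e927013549a44ca26412f09764a9253128c68c3351958b845c02d49528a8c5440aa0014006001)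 (nat_lit 0)))) (L (E (nat_lit 13) (nat_lit 0x8c645922c11348944411a30b0856a2ac8014006001) (nat_lit 0)))) (N (nat_lit 5758) (N (nat_lit 5757) (L (E (nat_lit 16) (nat_lit 0x6d23609a92a3a50f274d3449944c826312ec9674a78014006001) (nat_lit 0))) (L (E (nat_lit 24) (nat_lit 0x6c126a93489a24cf25d92c4924476236118c8af44e1660b2c5842b51578ab254a29a0014006001) (nat_lit 0)))) (L (E (nat_lit 13) (nat_lit 0x8c645922c11348824401610ad455918e0014006001) (nat_lit 0))))) (L (E (nat_lit 7) (nat_lit 0x23191608874408014006001) (nat_lit 0)))) (N (nat_lit 5762) (N (nat_lit 5761) (L (E (nat_lit 6) (nat_lit 0xb0255929c8014006001) (nat_lit 0))) (L (E (nat_lit 11) (nat_lit 0x23191648b044d2208b0255918e0014006001) (nat_lit 0)))) (N (nat_lit 5765) (N (nat_lit 5763) (L (E (nat_lit 12) (nat_lit 0x46323111848b044d2208b0255918e0014006001) (nat_lit 0))) (N (nat_lit 5764) (L (E (nat_lit 17) (nat_lit 0x98c46e23611a48af454a070fc47ca31912d87042aa0a10014006001)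 (nat_lit 0))) (L (E (nat_lit 15) (nat_lit 0x26a11b88d2457a26912484e2c21604ad65592a58014006001) (nat_lit 0))))) (N (nat_lit 5767) (N (nat_lit 5766) (L (E (nat_lit 16) (nat_lit 0x7a5bcb12ee95e46f237118489a44b22491048774360014006001) (nat_lit 0))) (L (E (nat_lit 10) (nat_lit 0x1e749784bb25d113a3880ce0014006001) (nat_lit 0)))) (L (E (nat_lit 23) (nat_lit 0x3cf1e749764ba25911bc8dc46c232115e89a449221910461e2df1668ae65591c40014006001) (nat_lit 0))))))))
def cl116 : RA := N (nat_lit 5780) (N (nat_lit 5773) (N (nat_lit 5772) (N (nat_lit 5770) (N (nat_lit 5769) (L (E (nat_lit 15) (nat_lit 0x3cf1e749764b3a2bd1345b82cd1604ad45592a58014006001) (nat_lit 0))) (L (E (nat_lit 20) (nat_lit 0x4c825d92cc914476a3791b88c84592268b0c57e2b915a8ab85592a40014006001) (nat_lit 0)))) (N (nat_lit 5771) (L (E (nat_lit 17) (nat_lit 0x9b84bc25d12cc8ed46f23211648af44d2208b3859a2cb0014006001) (nat_lit 0))) (L (E (nat_lit 9) (nat_lit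 0xf4b463a2691045592a58014006001) (nat_lit 0))))) (L (E (nat_lit 6) (nat_lit 0x116089a2ac8014006001) (nat_lit 0)))) (N (nat_lit 5779) (N (nat_lit 5776) (N (nat_lit 5775) (N (nat_lit 5774) (L (E (nat_lit 20) (nat_lit 0x79e3ce9c60e2c71238397f4ac655529b93247102b992e88a038a1c40014006001) (nat_lit 0))) (L (E (nat_lit 24) (nat_lit 0x79d3c69c58d8e6af2cb9484a3a50f27d93d69d04d5269d31a94249a15cc9744501c50014006001) (nat_lit 0)))) (L (E (nat_lit 18) (nat_lit 0x1c58a3a4bb25d12ce8d6457a2691247b62e51604ae654a1c50014006001) (nat_lit 0)))) (N (nat_lit 5778) (N (nat_lit 5777) (L (E (nat_lit 21) (nat_lit 0xa2e4ca264932098c4bc25d92c89584a924e11c48c845912a893048a2370014006001) (nat_lit 0))) (L (E (nat_lit 16) (nat_lit 0x50227893709a74ca26012d49674a324b91dc8df4590014006001) (nat_lit 0)))) (L (E (nat_lit 12) (nat_lit 0x4c025d92ce8af44d1604ae65551c50014006001) (nat_lit 0))))) (L (E (nat_lit 5) (nat_lit 0x5802b7152c00a001)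 (nat_lit 0))))) (N (nat_lit 5793) (N (nat_lit 5790) (N (nat_lit 5782) (N (nat_lit 5781) (L (E (nat_lit 10) (nat_lit 0xb0057e2b995b8ab05462a10014006001) (nat_lit 0))) (L (E (nat_lit 13) (nat_lit 0x91446f23191888c246022c11348964410014006001) (nat_lit 0)))) (N (nat_lit 5785) (N (nat_lit 5784) (N (nat_lit 5783) (L (E (nat_lit 13) (nat_lit 0xa464d226012ec967457a268ae65551c50014006001) (nat_lit 0))) (L (E (nat_lit 8) (nat_lit 0x4bb259d15e89a2b98014006001) (nat_lit 0)))) (L (E (nat_lit 14) (nat_lit 0x134a98c4bb259d1908c445922c11345802b70014006001) (nat_lit 0)))) (N (nat_lit 5787) (N (nat_lit 5786) (L (E (nat_lit 17) (nat_lit 0xa044fb26952e896746222c113488644222010e85842bf0014006001) (nat_lit 0))) (L (E (nat_lit 9) (nat_lit 0x9a54bb259d18e8af44d0014006001) (nat_lit 0)))) (N (nat_lit 5789) (N (nat_lit 5788) (L (E (nat_lit 14) (nat_lit 0x134898d4bc259118e8c1457a2691245a82b90014006001) (nat_lit 0))) (L (E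 (nat_lit 12) (nat_lit 0x2d41668b0c5842c015f8ad454629c8014006001) (nat_lit 0)))) (L (E (nat_lit 15) (nat_lit 0x269131a9674ac231d15e89a44916a0b005722ac0014006001) (nat_lit 0))))))) (N (nat_lit 5792) (N (nat_lit 5791) (L (E (nat_lit 11) (nat_lit 0x26912ec967463a2bd1348862c00014006001) (nat_lit 0))) (L (E (nat_lit 10) (nat_lit 0x13489764b3a31d15e89a2c00014006001) (nat_lit 0)))) (L (E (nat_lit 7) (nat_lit 0x26e53489904b18014006001) (nat_lit 0))))) (N (nat_lit 5806) (N (nat_lit 5801) (N (nat_lit 5798) (N (nat_lit 5796) (N (nat_lit 5795) (N (nat_lit 5794) (L (E (nat_lit 12) (nat_lit 0x4d226893189764b3231d15e8944438014006001) (nat_lit 0))) (L (E (nat_lit 16) (nat_lit 0x6bc34ed6c48af2d51660b085802bf1578ab054222c0014006001) (nat_lit 0)))) (L (E (nat_lit 32) (nat_lit 0x7b43cc9e58f0c6bc34c1818b624db26a13489a24c625d92c894f4a223b915e7f82d51610b0057e2af1560a8452e22c0014006001) (nat_lit 0)))) (N (nat_lit 5797)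 (L (E (nat_lit 13) (nat_lit 0x9a44c625d918e8af44d22111045802a50014006001) (nat_lit 0))) (L (E (nat_lit 19) (nat_lit 0x2fa977c84441a1ee8f6c5be2d716a8b0c5842c015c8abc5482940014006001) (nat_lit 0))))) (N (nat_lit 5799) (L (E (nat_lit 26) (nat_lit 0x1e34bea4d2268932c9904c625d92d09664b2253d29284441a1ee8b085802bf15b8ab05482970014006001) (nat_lit 0))) (N (nat_lit 5800) (L (E (nat_lit 15) (nat_lit 0x26e13489964c525e52ec9584ab25392946ae17f0014006001) (nat_lit 0))) (L (E (nat_lit 14) (nat_lit 0x1e96f2c7862ef948c8ee43c1e98d705aa29e0014006001) (nat_lit 0)))))) (N (nat_lit 5803) (N (nat_lit 5802) (L (E (nat_lit 15) (nat_lit 0x3d29b3cd605fb29b14b0a2c4639f80c9c4502200014006001) (nat_lit 0))) (L (E (nat_lit 11) (nat_lit 0x2691318976463a2bd1348822c00014006001) (nat_lit 0)))) (N (nat_lit 5805) (N (nat_lit 5804) (L (E (nat_lit 14) (nat_lit 0x16a4a9453f29e94c8a5544a9970c9063230f0014006001) (nat_lit 0))) (L (E (nat_lit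 25) (nat_lit 0xd746b03579ab0b5254a2a414f4a6653229593bc9b44ce2254cb864831916a0ae65582a50014006001) (nat_lit 0)))) (L (E (nat_lit 10) (nat_lit 0x1348976463a2bd1348822bf8014006001) (nat_lit 0)))))) (N (nat_lit 5807) (L (E (nat_lit 6) (nat_lit 0x118e8874360014006001) (nat_lit 0))) (N (nat_lit 5811) (N (nat_lit 5808) (L (E (nat_lit 17) (nat_lit 0xf4b79635e1ae89a84d223b51bc8dc457a2691288822d50014006001) (nat_lit 0))) (N (nat_lit 5810) (N (nat_lit 5809) (L (E (nat_lit 12) (nat_lit 0x4d225d929e8c7457a2691045802b90014006001) (nat_lit 0))) (L (E (nat_lit 11) (nat_lit 0x269133c98d4b1a3b518e8af2c00014006001) (nat_lit 0)))) (L (E (nat_lit 11) (nat_lit 0x26912ec94e463a2bd1348822c00014006001) (nat_lit 0))))) (N (nat_lit 5812) (L (E (nat_lit 20) (nat_lit 0x79635e1ae8c0c4d426911da8de46e22bd1348944412028ff05aa0fc8014006001) (nat_lit 0))) (L (E (nat_lit 10) (nat_lit 0x1348976463a2bd1348822c00014006001) (nat_lit 0))))))))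
def cl117 : RA := N (nat_lit 5864) (N (nat_lit 5841) (N (nat_lit 5838) (L (E (nat_lit 9) (nat_lit 0x5802bf15ccab05462a10014006001) (nat_lit 0))) (N (nat_lit 5840) (N (nat_lit 5839) (L (E (nat_lit 23) (nat_lit 0x2ff17f4aaa54c29b93849944be25e12ec9744b415c49e44e426912f893047c09d0014006001) (nat_lit 0))) (L (E (nat_lit 31) (nat_lit 0x34f1a64bfc5552a614dc9c24cb26513209674a2250125c89c33a1980cb464e31a1808ae24f2272134897c47c09d0014006001) (nat_lit 0)))) (L (E (nat_lit 33) (nat_lit 0xd325fe28e93a69c24dc265931a9674a625112808ea46c22b913888644019d0c9c5cf2d41698b325802a914c0a5c4d223e0014006001) (nat_lit 0))))) (N (nat_lit 5851) (N (nat_lit 5850) (N (nat_lit 5844) (N (nat_lit 5843) (N (nat_lit 5842) (L (E (nat_lit 35) (nat_lit 0x34c97f8a3a4e9a7093709b64cb26352ce94c4a225011d48d8457227110c88033a1938b9e5a82cc9640b1c5802a914c0a5c4d223e0014006001) (nat_lit 0))) (L (E (nat_lit 11) (nat_lit 0x29a94caa5652128e9450a1e50c0014006001)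 (nat_lit 0)))) (L (E (nat_lit 9) (nat_lit 0x9a44c6a31d1348822c00014006001) (nat_lit 0)))) (N (nat_lit 5847) (N (nat_lit 5845) (L (E (nat_lit 19) (nat_lit 0x27413729a44c625e12ec8fe46c231d15c89a44a16a0b0057e2b70014006001) (nat_lit 0))) (N (nat_lit 5846) (L (E (nat_lit 18) (nat_lit 0x105c80a3fc1fd0fac5c02dd16b8b5059c2cc9640b005702a10014006001) (nat_lit 0))) (L (E (nat_lit 17) (nat_lit 0x9a34c825d91fc8d8463a26910487a43b969cb0056e26f0014006001) (nat_lit 0))))) (N (nat_lit 5849) (N (nat_lit 5848) (L (E (nat_lit 21) (nat_lit 0x9b84d226412f09764b323f91d48d8463a26910487a43ba1d0b0056e26f0014006001) (nat_lit 0))) (L (E (nat_lit 11) (nat_lit 0x274d39c9c24db268d32298a4bb0014006001) (nat_lit 0)))) (L (E (nat_lit 16) (nat_lit 0x4e7268d322976476a3791b88c445922c115c88043b8014006001) (nat_lit 0)))))) (L (E (nat_lit 11) (nat_lit 0x23111648b0457226912c8944410014006001) (nat_lit 0)))) (N (nat_lit 5858) (N (nat_lit 5855)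 (N (nat_lit 5854) (N (nat_lit 5853) (N (nat_lit 5852) (L (E (nat_lit 17) (nat_lit 0x9b84c8a6312ec8de46e23111648b044d225d10c87e2c00014006001) (nat_lit 0))) (L (E (nat_lit 8) (nat_lit 0x2e716e4b505842bf0014006001) (nat_lit 0)))) (L (E (nat_lit 12) (nat_lit 0x4e926e1322976463a26912e5802bf0014006001) (nat_lit 0)))) (L (E (nat_lit 7) (nat_lit 0x23b918e8974438014006001) (nat_lit 0)))) (N (nat_lit 5857) (N (nat_lit 5856) (L (E (nat_lit 12) (nat_lit 0x4dc26452ec8ee463a26912e5a62c00014006001) (nat_lit 0))) (L (E (nat_lit 16) (nat_lit 0x4e726e132298c4bb23791b88c445922c11348974430014006001) (nat_lit 0)))) (L (E (nat_lit 13) (nat_lit 0x9d34dc2691322976463a26912e8822c00014006001) (nat_lit 0))))) (N (nat_lit 5861) (N (nat_lit 5860) (N (nat_lit 5859) (L (E (nat_lit 11) (nat_lit 0x26e1322976463a26912e8822c00014006001) (nat_lit 0))) (L (E (nat_lit 10) (nat_lit 0x13489904c625d918e8974438014006001) (nat_lit 0))))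 (L (E (nat_lit 17) (nat_lit 0xb4a4d1a6413149784bb236115c81c3e7169cad85582210014006001) (nat_lit 0)))) (N (nat_lit 5863) (N (nat_lit 5862) (L (E (nat_lit 17) (nat_lit 0x9ce4d1a6292ec8fe47d23e110c8824401748b4c5842b78014006001) (nat_lit 0))) (L (E (nat_lit 10) (nat_lit 0x13a69cf4db264131898a4bb0014006001) (nat_lit 0)))) (L (E (nat_lit 10) (nat_lit 0x13709a44bb231d1348972c00014006001) (nat_lit 0)))))))) (N (nat_lit 5871) (N (nat_lit 5867) (N (nat_lit 5865) (L (E (nat_lit 26) (nat_lit 0x1844bfc5ea26a13489a24c62628b705aa2d31670b205842c015c8a9054229814309e44f02690014006001) (nat_lit 0))) (N (nat_lit 5866) (L (E (nat_lit 25) (nat_lit 0xbd44e826e534898c4c0a5e12ec90347f236118e8ae45522691285ce2d41600afc5482980014006001) (nat_lit 0))) (L (E (nat_lit 11) (nat_lit 0x26913209764a3a31d1348822c00014006001) (nat_lit 0))))) (N (nat_lit 5868) (L (E (nat_lit 9) (nat_lit 0x9a44bb231d1348822c00014006001) (nat_lit 0)))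 (N (nat_lit 5870) (N (nat_lit 5869) (L (E (nat_lit 15) (nat_lit 0x274d3749a24c6231916489a44ba218adc56c2b50014006001) (nat_lit 0))) (L (E (nat_lit 19) (nat_lit 0x29a94c89b94d32691318976459226912e8862d61600adc56c2b50014006001) (nat_lit 0)))) (L (E (nat_lit 17) (nat_lit 0xa6a53227493729a64d226312ec94443a21a8b585802b60014006001) (nat_lit 0)))))) (N (nat_lit 5889) (N (nat_lit 5882) (N (nat_lit 5876) (N (nat_lit 5874) (N (nat_lit 5873) (N (nat_lit 5872) (L (E (nat_lit 18) (nat_lit 0x14d49b94d326913189764b425992888b244d225cb4e57f2b70014006001) (nat_lit 0))) (L (E (nat_lit 17) (nat_lit 0x9d346322c913889a44ba210bd45de2dc96b8b0056c2a10014006001) (nat_lit 0)))) (L (E (nat_lit 17) (nat_lit 0xa6a4dca69934898c4bb25a12cc947459226910457f2b70014006001) (nat_lit 0)))) (N (nat_lit 5875) (L (E (nat_lit 22) (nat_lit 0x1f90fb26fe3591834be053522690e086a37018d8b245802bf15b8ad85582a10014006001) (nat_lit 0))) (L (E (nat_lit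 10) (nat_lit 0xb985972c215f8ada5582a10014006001) (nat_lit 0))))) (N (nat_lit 5879) (N (nat_lit 5878) (N (nat_lit 5877) (L (E (nat_lit 15) (nat_lit 0x231916488744121c0b985ba2d41610ada55c2a10014006001) (nat_lit 0))) (L (E (nat_lit 19) (nat_lit 0x25c51d88e646322c912e87e43821a8b9e5cc2e5169cb0856d2ae0014006001) (nat_lit 0)))) (L (E (nat_lit 32) (nat_lit 0x7e43ec9bf8d6460d29a92e28ec473231916489a44ba1f90e086a37018d8b945a82d11648b085802bf15b8ab854229a0014006001) (nat_lit 0)))) (N (nat_lit 5881) (N (nat_lit 5880) (L (E (nat_lit 15) (nat_lit 0x23091648ae455226912c88243f1668b0854929a0014006001) (nat_lit 0))) (L (E (nat_lit 25) (nat_lit 0xa6a46323091648ae455226912c88243f21c0dc06022fe1728b505842b69570a8453422c0014006001) (nat_lit 0)))) (L (E (nat_lit 14) (nat_lit 0x10e086a3701648b0057e2b715b0ab054222c0014006001) (nat_lit 0)))))) (N (nat_lit 5888) (N (nat_lit 5885) (N (nat_lit 5884) (N (nat_lit 5883) (L (E (nat_lit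 20) (nat_lit 0x7d929a93a49b94d326913189884bc25d91648ae44118d8b0057e2b70014006001) (nat_lit 0))) (L (E (nat_lit 15) (nat_lit 0x26993488eb44d2248b9c5b92c91600afc5592a10014006001) (nat_lit 0)))) (L (E (nat_lit 16) (nat_lit 0x4d326911dc8c144d22491045ce2d31648b0056e2ac8014006001) (nat_lit 0)))) (N (nat_lit 5887) (N (nat_lit 5886) (L (E (nat_lit 20) (nat_lit 0x549270134c9a44b4259929e8ee46b226912488236a1738b245802ac8014006001) (nat_lit 0))) (L (E (nat_lit 30) (nat_lit 0x1fc0fb26da2a493809a64d226512dc9684b3253d28e8ee46b231916489a4492208da85ce2c91600afc56e2b60014006001) (nat_lit 0)))) (L (E (nat_lit 18) (nat_lit 0x1b68a2c4f025a12cc8dd459226912e8844361850b2c55c2a50014006001) (nat_lit 0))))) (L (E (nat_lit 11) (nat_lit 0x26e532298c4bb22c91348822c00014006001) (nat_lit 0))))) (N (nat_lit 5895) (N (nat_lit 5891) (N (nat_lit 5890) (L (E (nat_lit 12) (nat_lit 0x47e23011648ae44d225910456d2a48014006001) (nat_lit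 0))) (L (E (nat_lit 16) (nat_lit 0x4dc26312f097645922b91348964411698b0056e2b68014006001) (nat_lit 0)))) (N (nat_lit 5893) (N (nat_lit 5892) (L (E (nat_lit 16) (nat_lit 0x4d1264531897645922691045cf2e216b8b0056d2aa8014006001) (nat_lit 0))) (L (E (nat_lit 14) (nat_lit 0x12f89784bb25d11b88d746322c91348964490014006001) (nat_lit 0)))) (N (nat_lit 5894) (L (E (nat_lit 11) (nat_lit 0x1678b345982cb15b4ab854a29d0014006001) (nat_lit 0))) (L (E (nat_lit 19) (nat_lit 0x40194049f44d4268d2ec8ab44b22150fc5cf2e5169cb1456d2ae0014006001) (nat_lit 0)))))) (N (nat_lit 5898) (N (nat_lit 5897) (N (nat_lit 5896) (L (E (nat_lit 16) (nat_lit 0x4d1a6452ec97446ba3191648964492214b9e5a72b68014006001) (nat_lit 0))) (L (E (nat_lit 11) (nat_lit 0x2645318976459226912c8822b68014006001) (nat_lit 0)))) (L (E (nat_lit 17) (nat_lit 0x9a34c8a5d92d08b244d22111045cf2d3965cada5612ae0014006001) (nat_lit 0)))) (N (nat_lit 5900) (N (nat_lit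 5899) (L (E (nat_lit 16) (nat_lit 0x4d2268d3229764b422c9134884441173cb4e56d2ae0014006001) (nat_lit 0))) (L (E (nat_lit 10) (nat_lit 0x14a4a5051f28e4b5c5992ae8014006001) (nat_lit 0)))) (L (E (nat_lit 12) (nat_lit 0x6a73531a908e53471a00cd86583220014006001) (nat_lit 0))))))))
def cl118 : RA := N (nat_lit 5930) (N (nat_lit 5913) (N (nat_lit 5910) (N (nat_lit 5909) (N (nat_lit 5905) (N (nat_lit 5903) (N (nat_lit 5902) (L (E (nat_lit 12) (nat_lit 0x4d1a6452ec8b244d22111045a72b68014006001) (nat_lit 0))) (L (E (nat_lit 12) (nat_lit 0x51d26a134699c4bb24511628aa44b8014006001) (nat_lit 0)))) (N (nat_lit 5904) (L (E (nat_lit 14) (nat_lit 0x1b18d6053f28f9474a2c4c8a6312ec9674af0014006001) (nat_lit 0))) (L (E (nat_lit 19) (nat_lit 0x2f917c0bdc4fa278939c9b83491a18ce865031c18d8c686322558014006001) (nat_lit 0))))) (N (nat_lit 5907) (N (nat_lit 5906) (L (E (nat_lit 12) (nat_lit 0x4d1a6452ec8b144b97b8b505a62b68014006001)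 (nat_lit 0))) (L (E (nat_lit 16) (nat_lit 0x4d1a6452ec8b144b96a4b205852bd15b494c4401e90014006001) (nat_lit 0)))) (N (nat_lit 5908) (L (E (nat_lit 17) (nat_lit 0xdee6bc2fd97c0b624e826f934c8b1455a2111048804380014006001) (nat_lit 0))) (L (E (nat_lit 16) (nat_lit 0x4d1a6452ec914458a25d0605ee2e61698b345902b68014006001) (nat_lit 0)))))) (L (E (nat_lit 9) (nat_lit 0x8c645922c115489a44ba21000a001) (nat_lit 0)))) (N (nat_lit 5911) (L (E (nat_lit 5) (nat_lit 0x8df4592269108005) (nat_lit 0))) (N (nat_lit 5912) (L (E (nat_lit 15) (nat_lit 0x268d32297645922691088822e795b4ab854629c0014006001) (nat_lit 0))) (L (E (nat_lit 14) (nat_lit 0x13a09914c625d92248c645922c11348974420014006001) (nat_lit 0)))))) (N (nat_lit 5925) (N (nat_lit 5919) (N (nat_lit 5916) (N (nat_lit 5915) (N (nat_lit 5914) (L (E (nat_lit 15) (nat_lit 0x20f905c80b3fe1fe8fcc7d22ef16a4b3056e2ac0014006001) (nat_lit 0))) (L (E (nat_lit 11) (nat_lit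 0x268d32297645922691088822b68014006001) (nat_lit 0)))) (L (E (nat_lit 8) (nat_lit 0x48a23011628974428014006001) (nat_lit 0)))) (N (nat_lit 5918) (N (nat_lit 5917) (L (E (nat_lit 16) (nat_lit 0x52927393469914bb255918c8b245822a512e8852aa8014006001) (nat_lit 0))) (L (E (nat_lit 15) (nat_lit 0x30297c09d14d1a6512f09764ba25a116888643a0014006001) (nat_lit 0)))) (L (E (nat_lit 10) (nat_lit 0x13469914bb22c91348822b68014006001) (nat_lit 0))))) (N (nat_lit 5921) (N (nat_lit 5920) (L (E (nat_lit 15) (nat_lit 0x2a114d4a424da26793146e02c215b4a905461a00014006001) (nat_lit 0))) (L (E (nat_lit 10) (nat_lit 0x132298c4bb22c91348822b68014006001) (nat_lit 0)))) (N (nat_lit 5923) (N (nat_lit 5922) (L (E (nat_lit 19) (nat_lit 0x36a1b48da05bd2b195707ca3db1648b085702b61560a8c5340a80014006001) (nat_lit 0))) (L (E (nat_lit 12) (nat_lit 0x4c8a6312ec8b2458226912e8842c00014006001) (nat_lit 0)))) (N (nat_lit 5924) (L (E (nat_lit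 13) (nat_lit 0xaa054f29d94c8a3a50b27453469784b18014006001) (nat_lit 0))) (L (E (nat_lit 14) (nat_lit 0x1f649a64d1a5d91628ab44ba210b0056e2b60014006001) (nat_lit 0))))))) (N (nat_lit 5927) (N (nat_lit 5926) (L (E (nat_lit 10) (nat_lit 0x11908c0458a2111048804360014006001) (nat_lit 0))) (L (E (nat_lit 10) (nat_lit 0x13489764b123011628974420014006001) (nat_lit 0)))) (N (nat_lit 5929) (N (nat_lit 5928) (L (E (nat_lit 16) (nat_lit 0x4e8a68d2f09632cc1618b085802b715b0abc55829e0014006001) (nat_lit 0))) (L (E (nat_lit 14) (nat_lit 0x13469914c6258d1ac8c9455225d10e5802b60014006001) (nat_lit 0)))) (L (E (nat_lit 7) (nat_lit 0x2a514fca655130014006001) (nat_lit 0))))))) (N (nat_lit 5943) (N (nat_lit 5939) (N (nat_lit 5932) (N (nat_lit 5931) (L (E (nat_lit 12) (nat_lit 0x612305181cbea5f42f917c0bc25df0014006001) (nat_lit 0))) (L (E (nat_lit 7) (nat_lit 0x3115868c245ff0014006001) (nat_lit 0)))) (N (nat_lit 5935) (N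 (nat_lit 5934) (N (nat_lit 5933) (L (E (nat_lit 14) (nat_lit 0x1868c30613309181cbfa5fc2fd97e4beb5f20014006001) (nat_lit 0))) (L (E (nat_lit 11) (nat_lit 0x268d322976459226912e8842c00014006001) (nat_lit 0)))) (L (E (nat_lit 11) (nat_lit 0x2645318976459226912e8842c00014006001) (nat_lit 0)))) (N (nat_lit 5937) (N (nat_lit 5936) (L (E (nat_lit 15) (nat_lit 0x23bd16289c44b1610b0056c2af1528a8c54229d0014006001) (nat_lit 0))) (L (E (nat_lit 20) (nat_lit 0x4be25e12c69564a923191648b145722591088822c21600ad854a2a30014006001) (nat_lit 0)))) (N (nat_lit 5938) (L (E (nat_lit 12) (nat_lit 0x4d12645318976458a2111045802a50014006001) (nat_lit 0))) (L (E (nat_lit 11) (nat_lit 0x2645318976458a2111045802a50014006001) (nat_lit 0))))))) (N (nat_lit 5940) (L (E (nat_lit 11) (nat_lit 0x22c91608ae455226912c8844410014006001) (nat_lit 0))) (N (nat_lit 5941) (L (E (nat_lit 12) (nat_lit 0x4c8a6312ec8b244d22111045802a50014006001)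 (nat_lit 0))) (N (nat_lit 5942) (L (E (nat_lit 22) (nat_lit 0x13469784bb25d11de8c646122c91608ae44d225910480a2cb95b8ad84ba23d0014006001) (nat_lit 0))) (L (E (nat_lit 18) (nat_lit 0x132298c4bb25591de8b2458226912c8864412028b2458023d0014006001) (nat_lit 0))))))) (N (nat_lit 5949) (N (nat_lit 5945) (N (nat_lit 5944) (L (E (nat_lit 10) (nat_lit 0x11dc8d746322c91608ae4428014006001) (nat_lit 0))) (L (E (nat_lit 15) (nat_lit 0x26453189764ab22c9160896442a028b2458023d0014006001) (nat_lit 0)))) (N (nat_lit 5946) (L (E (nat_lit 10) (nat_lit 0xb085802bf15b0a905462950014006001) (nat_lit 0))) (N (nat_lit 5947) (L (E (nat_lit 9) (nat_lit 0x8ee46ba3191648b14428014006001) (nat_lit 0))) (N (nat_lit 5948) (L (E (nat_lit 14) (nat_lit 0x13709a64d226312f09764609600ad85482950014006001) (nat_lit 0))) (L (E (nat_lit 13) (nat_lit 0x9a44bb2301162896442a028b0056c2a50014006001) (nat_lit 0))))))) (N (nat_lit 5953) (N (nat_lit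 5951) (N (nat_lit 5950) (L (E (nat_lit 13) (nat_lit 0x9a44bb23a91808b1442a028b0056c2a50014006001) (nat_lit 0))) (L (E (nat_lit 28) (nat_lit 0x4e726993469924b5258d2bc9564a322c91608ae455225110085e2d696a0b385842c015b8ad855c2ac0014006001) (nat_lit 0)))) (N (nat_lit 5952) (L (E (nat_lit 19) (nat_lit 0x27813a49b84c8a5d918c8b2458225110a88042f169cb2e56c2a38014006001) (nat_lit 0))) (L (E (nat_lit 12) (nat_lit 0x4c8a6312ec8ef45922c11348972c00014006001) (nat_lit 0))))) (L (E (nat_lit 10) (nat_lit 0x132298c4bb22c91348822c00014006001) (nat_lit 0))))))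
def cl119 : RA := N (nat_lit 5901) (N (nat_lit 5837) (N (nat_lit 5826) (N (nat_lit 5814) (L (E (nat_lit 7) (nat_lit 0x23711888ae44a8014006001) (nat_lit 0))) (N (nat_lit 5820) (N (nat_lit 5817) (N (nat_lit 5816) (N (nat_lit 5815) (L (E (nat_lit 10) (nat_lit 0x140e9a44c6a5f52f09664b10014006001) (nat_lit 0))) (L (E (nat_lit 15) (nat_lit 0x27e93a09ae4d226352f09664b11748b505802bf0014006001) (nat_lit 0)))) (L (E (nat_lit 14) (nat_lit 0x15249784bb25d12d28864412200afe5582980014006001) (nat_lit 0)))) (N (nat_lit 5819) (N (nat_lit 5818) (L (E (nat_lit 18) (nat_lit 0x13f49d04d4269131a9784b3258910c8824401748b505802ac0014006001) (nat_lit 0))) (L (E (nat_lit 14) (nat_lit 0x13729a44c6a5d92cc8ed463a29912e8902c00014006001) (nat_lit 0)))) (L (E (nat_lit 11) (nat_lit 0x269131a966463a2a51348972c00014006001) (nat_lit 0))))) (N (nat_lit 5821) (L (E (nat_lit 5) (nat_lit 0x9ba4dc264531a003) (nat_lit 0))) (N (nat_lit 5824)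 (N (nat_lit 5823) (N (nat_lit 5822) (L (E (nat_lit 14) (nat_lit 0x138c9a44ce2620b745a62c815fca8453e2980014006001) (nat_lit 0))) (L (E (nat_lit 14) (nat_lit 0x1484a3e2c21600afc56a2aa1508a6052c2940014006001) (nat_lit 0)))) (L (E (nat_lit 20) (nat_lit 0x7c73531774bb652128f938c9b84d22635310968463a21d1045802a10014006001) (nat_lit 0)))) (N (nat_lit 5825) (L (E (nat_lit 15) (nat_lit 0x26b93509a44ca25a12885a82c215f8ade56a2a30014006001) (nat_lit 0))) (L (E (nat_lit 12) (nat_lit 0x40e2040fe87ca3dd1698afe56f2aa8014006001) (nat_lit 0)))))))) (N (nat_lit 5827) (L (E (nat_lit 6) (nat_lit 0xae65582aa0014006001) (nat_lit 0))) (N (nat_lit 5832) (N (nat_lit 5829) (N (nat_lit 5828) (L (E (nat_lit 9) (nat_lit 0x9784bb25d0b4c57f2ae8014006001) (nat_lit 0))) (L (E (nat_lit 10) (nat_lit 0x134898d4b3a58d18e8972c00014006001) (nat_lit 0)))) (N (nat_lit 5831) (N (nat_lit 5830) (L (E (nat_lit 30) (nat_lit 0x1b68db06d33649a98a664df25e120c90447f23b91288864412200bc05de2ed1708b745a62ce15fcab85482a30014006001)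 (nat_lit 0))) (L (E (nat_lit 23) (nat_lit 0x36493d09d34e126e131a9784b125792088fe44a22191005a62ce15fcab05542940014006001) (nat_lit 0)))) (L (E (nat_lit 26) (nat_lit 0x1b249e84e9a70937098d4bc257929e90447f225110c8824402070f2c59c2c215fcab05542940014006001) (nat_lit 0))))) (N (nat_lit 5835) (N (nat_lit 5834) (N (nat_lit 5833) (L (E (nat_lit 26) (nat_lit 0x1b249c24d4269131a9764b3a5892088fe44a221910081c3cb1670b205842bf9560aa853a2940014006001) (nat_lit 0))) (L (E (nat_lit 12) (nat_lit 0x54829f94f4a6653228e93729a44b40014006001) (nat_lit 0)))) (L (E (nat_lit 18) (nat_lit 0x1538a9353829193f49f64f926ed3569914c025a92b09564970014006001) (nat_lit 0)))) (N (nat_lit 5836) (L (E (nat_lit 33) (nat_lit 0xc2453f28113f49f64f326f934898d4b3a5892b08a044321e101a7e63cb1780ba45b82d616a8b3c5982c015ccadc5582990014006001) (nat_lit 0))) (L (E (nat_lit 37) (nat_lit 0xd9261228113f49e64e126a134898d4b3a5892b090447f228112888644021e10388103f31f28f2c5d22ce1640b0857f2ac14e8a6052828e0014006001)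 (nat_lit 0)))))))) (cl117)) (N (nat_lit 5954) (cl118) (N (nat_lit 5966) (N (nat_lit 5961) (N (nat_lit 5955) (L (E (nat_lit 8) (nat_lit 0x47723191648974428014006001) (nat_lit 0))) (N (nat_lit 5958) (N (nat_lit 5956) (L (E (nat_lit 11) (nat_lit 0x26e13509a64d226893189784bb0014006001) (nat_lit 0))) (N (nat_lit 5957) (L (E (nat_lit 14) (nat_lit 0xb7c5b82d51600afc56c2ac1520a8c5422918014006001) (nat_lit 0))) (L (E (nat_lit 14) (nat_lit 0x118c8b0455a214b545a82cc1640b0857e2b78014006001) (nat_lit 0))))) (N (nat_lit 5959) (L (E (nat_lit 12) (nat_lit 0x4d226312ec8b2458225d10a5802b60014006001) (nat_lit 0))) (N (nat_lit 5960) (L (E (nat_lit 17) (nat_lit 0x9a44c826312f0976477a315164896442965cb0856c2ac0014006001) (nat_lit 0))) (L (E (nat_lit 16) (nat_lit 0x4d1a5e51de8c54592214fcc5a82d11610b0056c2970014006001) (nat_lit 0))))))) (N (nat_lit 5964) (N (nat_lit 5963) (N (nat_lit 5962) (L (E (nat_lit 15) (nat_lit 0x26a934898c4bca3bd18a8b24429610b0056c2a38014006001)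 (nat_lit 0))) (L (E (nat_lit 14) (nat_lit 0x13529a44c8263118a8b244b2214b545982a30014006001) (nat_lit 0)))) (L (E (nat_lit 15) (nat_lit 0x2691318976477a31516489a442a208b085802b60014006001) (nat_lit 0)))) (N (nat_lit 5965) (L (E (nat_lit 9) (nat_lit 0x9a344b2208ad85582a30014006001) (nat_lit 0))) (L (E (nat_lit 13) (nat_lit 0x9b84d226312ec8ef45922c110a5802b60014006001) (nat_lit 0)))))) (N (nat_lit 5973) (N (nat_lit 5967) (L (E (nat_lit 9) (nat_lit 0x9a84d226893189794a90014006001) (nat_lit 0))) (N (nat_lit 5970) (N (nat_lit 5968) (L (E (nat_lit 8) (nat_lit 0x2c295b0ab054629c8014006001) (nat_lit 0))) (N (nat_lit 5969) (L (E (nat_lit 9) (nat_lit 0x8ee46fa2c91608ae4428014006001) (nat_lit 0))) (L (E (nat_lit 15) (nat_lit 0x26e13489a24c625d91648b04429614b0056c2a30014006001) (nat_lit 0))))) (N (nat_lit 5972) (N (nat_lit 5971) (L (E (nat_lit 15) (nat_lit 0x23b918c8b245822b912c8852c21600ad85582a30014006001)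 (nat_lit 0))) (L (E (nat_lit 13) (nat_lit 0x9b84d226312ec8b24582214b0056c2a30014006001) (nat_lit 0)))) (L (E (nat_lit 11) (nat_lit 0x270937c9aa4d426512fc9794b40014006001) (nat_lit 0)))))) (N (nat_lit 5978) (N (nat_lit 5974) (L (E (nat_lit 10) (nat_lit 0x13769a74bf25e52ec9684a48014006001) (nat_lit 0))) (N (nat_lit 5977) (N (nat_lit 5976) (N (nat_lit 5975) (L (E (nat_lit 23) (nat_lit 0x3c697d49a84d3269134498c4bca5a129284441a1ee8b085802bf15e0adc56c2a40014006001) (nat_lit 0))) (L (E (nat_lit 12) (nat_lit 0x4d226312ec8b2457a214b085802b60014006001) (nat_lit 0)))) (L (E (nat_lit 16) (nat_lit 0x4dc269132098c4b323b918c8b245822b912c8854410014006001) (nat_lit 0)))) (L (E (nat_lit 11) (nat_lit 0x269131897645922c110a5802b60014006001) (nat_lit 0))))) (L (E (nat_lit 7) (nat_lit 0x23b91be8b24420014006001) (nat_lit 0)))))))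
def cl120 : RA := N (nat_lit 6009) (N (nat_lit 6000) (N (nat_lit 5991) (N (nat_lit 5988) (N (nat_lit 5984) (N (nat_lit 5981) (N (nat_lit 5980) (L (E (nat_lit 10) (nat_lit 0x134898c4bca5491045852b60014006001) (nat_lit 0))) (L (E (nat_lit 10) (nat_lit 0x11808b245822b912c8844388014006001) (nat_lit 0)))) (N (nat_lit 5983) (N (nat_lit 5982) (L (E (nat_lit 14) (nat_lit 0x13489784bb22c916089644221c4b0a5802a38014006001) (nat_lit 0))) (L (E (nat_lit 18) (nat_lit 0x13509a44c625e12ec8c145922c115c884438a188ad85582a30014006001) (nat_lit 0)))) (L (E (nat_lit 17) (nat_lit 0x9a84d226312f097645922c115c89644221c4ad85582a30014006001) (nat_lit 0))))) (N (nat_lit 5987) (N (nat_lit 5986) (N (nat_lit 5985) (L (E (nat_lit 15) (nat_lit 0x3639abcd1251c269d2fc9764b3a3591368904400014006001) (nat_lit 0))) (L (E (nat_lit 17) (nat_lit 0x9a44c625d91e68ee45922c112c8844389614b0056c2ac0014006001) (nat_lit 0)))) (L (E (nat_lit 19)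 (nat_lit 0x36c9b1c9d34d226893189784bb25a129e8d6457a26d12088242d8014006001) (nat_lit 0)))) (L (E (nat_lit 13) (nat_lit 0x9ce4dc26a13489a24c626292f09764b10014006001) (nat_lit 0))))) (N (nat_lit 5990) (N (nat_lit 5989) (L (E (nat_lit 15) (nat_lit 0x269131897647722c91608964422208b0a5802b60014006001) (nat_lit 0))) (L (E (nat_lit 10) (nat_lit 0x13709a84d126312f09764b18014006001) (nat_lit 0)))) (L (E (nat_lit 7) (nat_lit 0x26e53509a44b18014006001) (nat_lit 0))))) (N (nat_lit 5999) (N (nat_lit 5995) (N (nat_lit 5993) (N (nat_lit 5992) (L (E (nat_lit 14) (nat_lit 0x13468c6458225910487e2cb9614b0056c2a10014006001) (nat_lit 0))) (L (E (nat_lit 14) (nat_lit 0x134898c4bb22c91608964422208b0a5802b60014006001) (nat_lit 0)))) (N (nat_lit 5994) (L (E (nat_lit 16) (nat_lit 0x4e126f93709aa4c6a5f12c694446322c110c8844410014006001) (nat_lit 0))) (L (E (nat_lit 15) (nat_lit 0x26e134e98d4bca3191368822c31600ae456f2b60014006001)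 (nat_lit 0))))) (N (nat_lit 5997) (N (nat_lit 5996) (L (E (nat_lit 13) (nat_lit 0x9b84d225e51648b044da2111045852b78014006001) (nat_lit 0))) (L (E (nat_lit 11) (nat_lit 0x26912f289b4411614b0056f2b60014006001) (nat_lit 0)))) (N (nat_lit 5998) (L (E (nat_lit 14) (nat_lit 0x13489764b123191648b04422208b0a56f2aa8014006001) (nat_lit 0))) (L (E (nat_lit 14) (nat_lit 0x134897646322c91608964422208b0a5802b60014006001) (nat_lit 0)))))) (L (E (nat_lit 9) (nat_lit 0x8c645922c11548974420014006001) (nat_lit 0))))) (N (nat_lit 6002) (N (nat_lit 6001) (L (E (nat_lit 7) (nat_lit 0x237118c89b44b8014006001) (nat_lit 0))) (L (E (nat_lit 12) (nat_lit 0x4d225d91648b04422208b0a5802b60014006001) (nat_lit 0)))) (N (nat_lit 6005) (N (nat_lit 6004) (N (nat_lit 6003) (L (E (nat_lit 19) (nat_lit 0x270d36e9a34c825e12c65ba2d716a8b505982c21600ad856a2ac0014006001) (nat_lit 0))) (L (E (nat_lit 14) (nat_lit 0x13709a44bb23191648b044d225d1085802b60014006001)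 (nat_lit 0)))) (L (E (nat_lit 12) (nat_lit 0x4ca264931898a4bb22c91348822c00014006001) (nat_lit 0)))) (N (nat_lit 6007) (N (nat_lit 6006) (L (E (nat_lit 16) (nat_lit 0x4d42691344994477a3191888c22c21600ae456c2a10014006001) (nat_lit 0))) (L (E (nat_lit 16) (nat_lit 0x4dc26913449784b1a3191648b044d22111045802b60014006001) (nat_lit 0)))) (N (nat_lit 6008) (L (E (nat_lit 16) (nat_lit 0x4dc26912f09764b1a3191648b044d22111045802b60014006001) (nat_lit 0))) (L (E (nat_lit 13) (nat_lit 0x9a3477232518c8b2458226912c8844410014006001) (nat_lit 0)))))))) (N (nat_lit 6022) (N (nat_lit 6021) (N (nat_lit 6013) (N (nat_lit 6012) (N (nat_lit 6011) (N (nat_lit 6010) (L (E (nat_lit 19) (nat_lit 0x26913189764b3a3cd1dc8ec46322c916089a44b22110e25802b60014006001) (nat_lit 0))) (L (E (nat_lit 15) (nat_lit 0x26e13489784bb23191648b044d22111045802b60014006001) (nat_lit 0)))) (L (E (nat_lit 18) (nat_lit 0x137098a4a623b91d88c645922bd13488444121f8b085802b60014006001)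 (nat_lit 0)))) (L (E (nat_lit 11) (nat_lit 0x23bd18c8c145922c11348844410014006001) (nat_lit 0)))) (N (nat_lit 6018) (N (nat_lit 6016) (N (nat_lit 6015) (N (nat_lit 6014) (L (E (nat_lit 11) (nat_lit 0x30696eca665322941488a3e51d0014006001) (nat_lit 0))) (L (E (nat_lit 22) (nat_lit 0x1b88d906bd35214fca5551326891807f23351988cc065e32c18e0c646242b60014006001) (nat_lit 0)))) (L (E (nat_lit 33) (nat_lit 0xdc46c835e9abcd4860d2dd94fca7853b29994c8a56528291147ca2c4d12300fe466a3311980cbc65831c18c8c486022b60014006001) (nat_lit 0)))) (N (nat_lit 6017) (L (E (nat_lit 14) (nat_lit 0x13709a44c6a3191648b044d22111045802b60014006001) (nat_lit 0))) (L (E (nat_lit 15) (nat_lit 0x269134498c4bca3011648b044d22111045802b60014006001) (nat_lit 0))))) (N (nat_lit 6019) (L (E (nat_lit 15) (nat_lit 0x26e13489a24bb23191648b044d22111045802b60014006001) (nat_lit 0))) (N (nat_lit 6020) (L (E (nat_lit 14) (nat_lit 0x13709a44bb23191648b044d22111045802b60014006001)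 (nat_lit 0))) (L (E (nat_lit 14) (nat_lit 0x1348976477a31918089b4411610b0057e2b60014006001) (nat_lit 0))))))) (L (E (nat_lit 8) (nat_lit 0x477231918089b4410014006001) (nat_lit 0)))) (N (nat_lit 6036) (N (nat_lit 6029) (N (nat_lit 6026) (N (nat_lit 6024) (N (nat_lit 6023) (L (E (nat_lit 17) (nat_lit 0xc306042ff97e49e74d226312f29632cd1660afe5732a30014006001) (nat_lit 0))) (L (E (nat_lit 10) (nat_lit 0x13c09a44d126312f29634a90014006001) (nat_lit 0)))) (N (nat_lit 6025) (L (E (nat_lit 21) (nat_lit 0xc306042ff97e49f24f3a69133098c4be25e52c65c02cd165cb0857f2a20014006001) (nat_lit 0))) (L (E (nat_lit 23) (nat_lit 0x30c1810bfe5f927c93ce9b84d2266131897c4b19700b345972c215fcab85582a20014006001) (nat_lit 0))))) (N (nat_lit 6027) (L (E (nat_lit 14) (nat_lit 0x13709a44bb23191808b245822111045802b60014006001) (nat_lit 0))) (N (nat_lit 6028) (L (E (nat_lit 17) (nat_lit 0x9a24c625f12ce96346c23091288842c21600afc5592a50014006001)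 (nat_lit 0))) (L (E (nat_lit 18) (nat_lit 0x13489a24c625f12ec96746c23091288842c21600afc5592a50014006001) (nat_lit 0)))))) (N (nat_lit 6032) (N (nat_lit 6031) (N (nat_lit 6030) (L (E (nat_lit 16) (nat_lit 0x4d225d92c491646323091608822cc1600abc55929c0014006001) (nat_lit 0))) (L (E (nat_lit 20) (nat_lit 0x4dc269134497c4bb24591b08c646122c91608944422208b0057e2ac8014006001) (nat_lit 0)))) (L (E (nat_lit 10) (nat_lit 0x1e78b74407165cafc5732ac0014006001) (nat_lit 0)))) (N (nat_lit 6034) (N (nat_lit 6033) (L (E (nat_lit 16) (nat_lit 0x4f3a65132098c4bf25191848b245822b91548844310014006001) (nat_lit 0))) (L (E (nat_lit 28) (nat_lit 0x4f3a74935c9aa4d2265132098c4bf25191848b245822a91088704352188b245802bf15b0ab054222c0014006001) (nat_lit 0)))) (N (nat_lit 6035) (L (E (nat_lit 17) (nat_lit 0x9b84d726912c68c645922c11288844412188b0056c2ac0014006001) (nat_lit 0))) (L (E (nat_lit 17) (nat_lit 0x9a44d126312f295246b22c91608aa44821e8b5c5972bf0014006001)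 (nat_lit 0))))))) (N (nat_lit 6039) (N (nat_lit 6037) (L (E (nat_lit 10) (nat_lit 0xb2e5842bf15b0ab054629a0014006001) (nat_lit 0))) (N (nat_lit 6038) (L (E (nat_lit 29) (nat_lit 0xf6653329914c491247f23891ac8c6457a27110c80c3fc1ed8b305842c015f8ab05482a212108d04581d70014006001) (nat_lit 0))) (L (E (nat_lit 23) (nat_lit 0x274d39c9c14dc26913449944c525f12f294425912a894c4a0248121090447623a0014006001) (nat_lit 0))))) (N (nat_lit 6041) (N (nat_lit 6040) (L (E (nat_lit 13) (nat_lit 0x9b84d225d918c8b245822111045802b60014006001) (nat_lit 0))) (L (E (nat_lit 15) (nat_lit 0x3699b48d9e6b023611848b245822b915488442f0014006001) (nat_lit 0)))) (N (nat_lit 6044) (N (nat_lit 6043) (N (nat_lit 6042) (L (E (nat_lit 13) (nat_lit 0x9b94d225e518c8b24582208b085802a20014006001) (nat_lit 0))) (L (E (nat_lit 15) (nat_lit 0x26e53489784bb22bcb305802bf15a8ab05482a20014006001) (nat_lit 0)))) (L (E (nat_lit 19) (nat_lit 0x26e534898d4bc23191648b04422208b6e5982c21600ab05482a20014006001)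 (nat_lit 0)))) (N (nat_lit 6045) (L (E (nat_lit 16) (nat_lit 0x4d226312ec94746322c91608ae4552210b0056c2a38014006001) (nat_lit 0))) (L (E (nat_lit 13) (nat_lit 0x9b94d225d918c8b245822ad1088822c00014006001) (nat_lit 0)))))))))
def cl121 : RA := N (nat_lit 6072) (N (nat_lit 6055) (N (nat_lit 6054) (N (nat_lit 6051) (N (nat_lit 6049) (N (nat_lit 6048) (N (nat_lit 6047) (L (E (nat_lit 15) (nat_lit 0x26912f097646322c91608842db9660b0056c2a38014006001) (nat_lit 0))) (L (E (nat_lit 13) (nat_lit 0x9a44bb23191648b04422208b325802b60014006001) (nat_lit 0)))) (L (E (nat_lit 14) (nat_lit 0x134897646322c91608844411600afc56c2ac0014006001) (nat_lit 0)))) (N (nat_lit 6050) (L (E (nat_lit 13) (nat_lit 0x9b94d225d918c8b245822ad1088822c00014006001) (nat_lit 0))) (L (E (nat_lit 16) (nat_lit 0x4d225f12ec94746323091648b04422208b0057e2b60014006001) (nat_lit 0))))) (N (nat_lit 6052) (L (E (nat_lit 12) (nat_lit 0x4d225d918c8b245822111045802b60014006001)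 (nat_lit 0))) (N (nat_lit 6053) (L (E (nat_lit 13) (nat_lit 0xa9253225f12f09764ba16a8b305842ac0014006001) (nat_lit 0))) (L (E (nat_lit 15) (nat_lit 0x29913a69b94d226352f094745922c11065982c20014006001) (nat_lit 0)))))) (L (E (nat_lit 7) (nat_lit 0x2a5d508a7e5330014006001) (nat_lit 0)))) (N (nat_lit 6062) (N (nat_lit 6058) (N (nat_lit 6057) (N (nat_lit 6056) (L (E (nat_lit 10) (nat_lit 0x1508a663701670b2e57f1a00014006001) (nat_lit 0))) (L (E (nat_lit 13) (nat_lit 0x9b94d226352f08b2458220cb305842bf8014006001) (nat_lit 0)))) (L (E (nat_lit 12) (nat_lit 0x2d516a0b345982cb1648b0056c2ac0014006001) (nat_lit 0)))) (N (nat_lit 6061) (N (nat_lit 6060) (N (nat_lit 6059) (L (E (nat_lit 18) (nat_lit 0x14fca6652b295132c96a4ab1700b585aa2ce1660b085722a40014006001) (nat_lit 0))) (L (E (nat_lit 16) (nat_lit 0x549299932c9794b52558b345972c215fcade5482a30014006001) (nat_lit 0)))) (L (E (nat_lit 21) (nat_lit 0xbe053326e52f296a4ab23f118c8c445922c115c8aa4419668b0856c2a40014006001)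 (nat_lit 0)))) (L (E (nat_lit 14) (nat_lit 0x13729a44c6a3191648b04421660b085802b60014006001) (nat_lit 0))))) (N (nat_lit 6063) (L (E (nat_lit 7) (nat_lit 0x26e534898c4bc8014006001) (nat_lit 0))) (N (nat_lit 6068) (N (nat_lit 6066) (N (nat_lit 6065) (N (nat_lit 6064) (L (E (nat_lit 18) (nat_lit 0x1d349b947e2319188890441a1b10c05ce2df15fcadc55f2a40014006001) (nat_lit 0))) (L (E (nat_lit 17) (nat_lit 0x9d34dca6912ec94746322c91608aa442165cb0857f2b70014006001) (nat_lit 0)))) (L (E (nat_lit 18) (nat_lit 0x13729a44bb251d18c8b245822a91085aa2cc165cb0857f2b70014006001) (nat_lit 0)))) (N (nat_lit 6067) (L (E (nat_lit 15) (nat_lit 0x27493729a44bb22c112889244196a8b305842bf8014006001) (nat_lit 0))) (L (E (nat_lit 15) (nat_lit 0x26e53489764a3a3191648b0442165cb0857f2b70014006001) (nat_lit 0))))) (N (nat_lit 6070) (N (nat_lit 6069) (L (E (nat_lit 17) (nat_lit 0x9b94d225e12ec94746322c91608842cc165cb0857f2a30014006001)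 (nat_lit 0))) (L (E (nat_lit 19) (nat_lit 0x26e53489784bb251d18c8b24582210b545982c21600ad85582a30014006001) (nat_lit 0)))) (N (nat_lit 6071) (L (E (nat_lit 14) (nat_lit 0x13729a44bb23191648b04421660b085802b60014006001) (nat_lit 0))) (L (E (nat_lit 11) (nat_lit 0x26912ec8c6459220cb3257f2ac0014006001) (nat_lit 0))))))))) (N (nat_lit 6090) (N (nat_lit 6082) (N (nat_lit 6077) (N (nat_lit 6074) (N (nat_lit 6073) (L (E (nat_lit 12) (nat_lit 0x4dca6912ec8c645922c11085802b60014006001) (nat_lit 0))) (L (E (nat_lit 13) (nat_lit 0x8834361720b545962c295fcab05301c90014006001) (nat_lit 0)))) (N (nat_lit 6076) (N (nat_lit 6075) (L (E (nat_lit 8) (nat_lit 0x2d79614a7052a2900014006001) (nat_lit 0))) (L (E (nat_lit 13) (nat_lit 0x9a44bb220cb905ae2d51614afe5581c90014006001) (nat_lit 0)))) (L (E (nat_lit 13) (nat_lit 0x9a84d2268932c98c4bca5d12d494c4a30014006001) (nat_lit 0))))) (N (nat_lit 6078) (L (E (nat_lit 8) (nat_lit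 0x4d225e51065852bf8014006001) (nat_lit 0))) (N (nat_lit 6080) (N (nat_lit 6079) (L (E (nat_lit 9) (nat_lit 0x5a82cd9658afe5702aa8014006001) (nat_lit 0))) (L (E (nat_lit 12) (nat_lit 0x4d526912f29632d59610afe56f2a30014006001) (nat_lit 0)))) (N (nat_lit 6081) (L (E (nat_lit 20) (nat_lit 0x88b35313ce9e04d2268931897e4bca5a12c68c44581988c706121c30014006001) (nat_lit 0))) (L (E (nat_lit 13) (nat_lit 0xd606a629993a49be4bea3111608862d60014006001) (nat_lit 0))))))) (N (nat_lit 6085) (N (nat_lit 6083) (L (E (nat_lit 7) (nat_lit 0x274135297c4b18014006001) (nat_lit 0))) (N (nat_lit 6084) (L (E (nat_lit 19) (nat_lit 0x274934897947723191648832cc1658afe57a2b89550a745342990014006001) (nat_lit 0))) (L (E (nat_lit 12) (nat_lit 0x4e927393709b64d426913449794a30014006001) (nat_lit 0))))) (N (nat_lit 6089) (N (nat_lit 6087) (N (nat_lit 6086) (L (E (nat_lit 11) (nat_lit 0x26912f28c645922c11085ab2bf8014006001) (nat_lit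 0))) (L (E (nat_lit 12) (nat_lit 0x53f26a534897d4bca58cc4057f2aa8014006001) (nat_lit 0)))) (N (nat_lit 6088) (L (E (nat_lit 17) (nat_lit 0x100e4f3a68931897d4bca58d1808b245822a91388904418014006001) (nat_lit 0))) (L (E (nat_lit 17) (nat_lit 0x100e53f27493529a44bea5e52c694245922c11065aa2bf8014006001) (nat_lit 0))))) (L (E (nat_lit 8) (nat_lit 0x4d4a6352f89794b18014006001) (nat_lit 0)))))) (N (nat_lit 6096) (N (nat_lit 6095) (N (nat_lit 6093) (N (nat_lit 6092) (N (nat_lit 6091) (L (E (nat_lit 8) (nat_lit 0x4d526512f85ad2bf8014006001) (nat_lit 0))) (L (E (nat_lit 22) (nat_lit 0x1508a7e502a79d3549944c5a5f0dc05aa2cc1610afe5582aa0d0065c2f215e0014006001) (nat_lit 0)))) (L (E (nat_lit 23) (nat_lit 0x40394fca0850127f93a49a94d226192f29634a122c91608832d51660afe32e15e0014006001) (nat_lit 0)))) (N (nat_lit 6094) (L (E (nat_lit 21) (nat_lit 0xdb46ce3581a90a8453f23b91bc8d846a23191648833e51b80afe5551a00014006001)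 (nat_lit 0))) (L (E (nat_lit 16) (nat_lit 0x53f26a53489794b1a2c91608832d51660afe32e15e0014006001) (nat_lit 0))))) (L (E (nat_lit 7) (nat_lit 0x26f935097d4ad0014006001) (nat_lit 0)))) (N (nat_lit 6098) (N (nat_lit 6097) (L (E (nat_lit 14) (nat_lit 0x13509a74d2268932c98c4bf25e52ec9744a30014006001) (nat_lit 0))) (L (E (nat_lit 15) (nat_lit 0x2998ba45ac2d516a0b4c5982bf9560a9c54a2a30014006001) (nat_lit 0)))) (N (nat_lit 6103) (N (nat_lit 6100) (N (nat_lit 6099) (L (E (nat_lit 26) (nat_lit 0x17c0bce48924112048fb47723a91cc8c645a22c915e89c28c14109d44e626d133098c4c42580014006001) (nat_lit 0))) (L (E (nat_lit 14) (nat_lit 0xcc465e3271930c706243111880c2c6143091838c005f2) (nat_lit 0)))) (N (nat_lit 6102) (N (nat_lit 6101) (L (E (nat_lit 16) (nat_lit 0x53f2999488a3e33d19a0cc065e32c1958c646203098014006001) (nat_lit 0))) (L (E (nat_lit 50) (nat_lit 0x1af8d746b02f8179ca9653f2999488a3e4d1244920890247523991808b245822a914889c44d220d0bc7f233d19a0cc465e32c1958c986383191888c2860e3001460a084ea27313689984c62620014006001)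 (nat_lit 0)))) (L (E (nat_lit 13) (nat_lit 0x9a84d2258d18c8b24582210b3057f2aa0014006001) (nat_lit 0))))) (N (nat_lit 6105) (N (nat_lit 6104) (L (E (nat_lit 16) (nat_lit 0x4d5269132098d4be258d2885aa2cc1648b0857c2a90014006001) (nat_lit 0))) (L (E (nat_lit 11) (nat_lit 0x26912c68c645922c11085842bf8014006001) (nat_lit 0)))) (N (nat_lit 6106) (L (E (nat_lit 20) (nat_lit 0x6da3581a6cd326942a514fca665232911458a1c32f1970c9864830f0014006001) (nat_lit 0))) (L (E (nat_lit 22) (nat_lit 0x1ae4a6752ea961488a3451728b1440a1c4ba24bcc9862230f1840abc37214a0014006001) (nat_lit 0)))))))))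
def cl122 : RA := N (nat_lit 6145) (N (nat_lit 6141) (N (nat_lit 6140) (N (nat_lit 6134) (N (nat_lit 6131) (N (nat_lit 6130) (N (nat_lit 6129) (L (E (nat_lit 20) (nat_lit 0x6d43691b18d6054aa2a8ce866032f191cc44614303128865423c0a50014006001) (nat_lit 0))) (L (E (nat_lit 28) (nat_lit 0x6d02a594d4a3e51c26fd3469794b925a129c93245522010ec87033a1978cb461c30a128865423c0a50014006001) (nat_lit 0)))) (L (E (nat_lit 34) (nat_lit 0x152ca6a52f29413749a84d2267132098c4bea5d92e290447923191808b645922c115489c441a1d90a46743141850c1c6023000014006001) (nat_lit 0)))) (N (nat_lit 6133) (N (nat_lit 6132) (L (E (nat_lit 36) (nat_lit 0x54b29a94bca5051c26a134699c4cc25f92e49684b1a5192648c645b22c91608aa44e220cce865e32d18a0c38614300128865423c0a50014006001) (nat_lit 0))) (L (E (nat_lit 13) (nat_lit 0x11e66fd3661b24d8e6bc34f9a746231880014006001) (nat_lit 0)))) (L (E (nat_lit 21) (nat_lit 0x110c79937b1854c2261030614cea3e514285942498a44a9880ad616a0950014006001)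 (nat_lit 0))))) (N (nat_lit 6137) (N (nat_lit 6136) (N (nat_lit 6135) (L (E (nat_lit 26) (nat_lit 0x232710c7993ca1bd8db46c730a9844c2060c299d450a16509262912a6202b588f02d412a06f8014006001) (nat_lit 0))) (L (E (nat_lit 24) (nat_lit 0x6c734f9840a16509274d3509a34ca26452ec94f4a323f11888ba45922c110656b0950014006001) (nat_lit 0)))) (L (E (nat_lit 15) (nat_lit 0x4572218fd46ba2d49520a66516263112a6c83190014006001) (nat_lit 0)))) (N (nat_lit 6139) (N (nat_lit 6138) (L (E (nat_lit 31) (nat_lit 0x3639840a16509268d32897e4bb25a12c494647e235918c8c445d22c916089c44822110c06702c015ac6ec23c0950014006001) (nat_lit 0))) (L (E (nat_lit 15) (nat_lit 0x26912ec8b24582210b545932c29600ad855f2958014006001) (nat_lit 0)))) (L (E (nat_lit 8) (nat_lit 0x4d3a68d32a9764a30014006001) (nat_lit 0)))))) (L (E (nat_lit 9) (nat_lit 0x9a34caa5d92d09664a30014006001) (nat_lit 0)))) (N (nat_lit 6142) (L (E (nat_lit 11) (nat_lit 0x26e13489954c625d92d09664a30014006001)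 (nat_lit 0))) (N (nat_lit 6143) (L (E (nat_lit 11) (nat_lit 0x1640b0a57c2b615a8a705342980014006001) (nat_lit 0))) (N (nat_lit 6144) (L (E (nat_lit 18) (nat_lit 0x13489a24ca26312f89794b42510b305802bf15b0abc54629c0014006001) (nat_lit 0))) (L (E (nat_lit 18) (nat_lit 0x13709a84d2268932898c4b42598b305802bf15b0abc54629c0014006001) (nat_lit 0))))))) (N (nat_lit 6156) (N (nat_lit 6151) (N (nat_lit 6147) (N (nat_lit 6146) (L (E (nat_lit 20) (nat_lit 0x46e220d0e866e3301978cb46583241888b685a82c295f8ad856a2b30014006001) (nat_lit 0))) (L (E (nat_lit 7) (nat_lit 0x165cad655e2ac0014006001) (nat_lit 0)))) (N (nat_lit 6149) (N (nat_lit 6148) (L (E (nat_lit 19) (nat_lit 0x26fd1068743371978cb46583241888b685a82c295f8ad856a2b30014006001) (nat_lit 0))) (L (E (nat_lit 8) (nat_lit 0x533a9714aca3e51d0014006001) (nat_lit 0)))) (N (nat_lit 6150) (L (E (nat_lit 16) (nat_lit 0x4d1a6512f296844196a8b385932c29600ad85662af0014006001)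 (nat_lit 0))) (L (E (nat_lit 15) (nat_lit 0x29994a894545922c115c89c44b2210b385862b90014006001) (nat_lit 0)))))) (N (nat_lit 6152) (L (E (nat_lit 9) (nat_lit 0x9a44baa1d10e057e2b50014006001) (nat_lit 0))) (N (nat_lit 6154) (N (nat_lit 6153) (L (E (nat_lit 17) (nat_lit 0x9e24e8268d2fa97647523191648b044196a8b2656f2af0014006001) (nat_lit 0))) (L (E (nat_lit 18) (nat_lit 0x13469784bb25a12728b24582210b5459c2c99614ad856a2af0014006001) (nat_lit 0)))) (N (nat_lit 6155) (L (E (nat_lit 19) (nat_lit 0x26913189764b425191648b044216a8b385852c015b0acc55e29c0014006001) (nat_lit 0))) (L (E (nat_lit 19) (nat_lit 0x268d3289764b4a3191648b044d1730b585aa2cc15bcad655224c0014006001) (nat_lit 0))))))) (N (nat_lit 6163) (N (nat_lit 6160) (N (nat_lit 6159) (N (nat_lit 6158) (N (nat_lit 6157) (L (E (nat_lit 15) (nat_lit 0x23b91648b044d220d0d857e2b51550a6452628f0014006001) (nat_lit 0))) (L (E (nat_lit 21) (nat_lit 0x9a44bb25891648b044d220cb705802bf15b0ad45662a91520a6452428f0014006001)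 (nat_lit 0)))) (L (E (nat_lit 24) (nat_lit 0x4d1a6512ec96946322c916089a2e616e0b585aa2cc1600ade56c2b31548a6452428f0014006001) (nat_lit 0)))) (L (E (nat_lit 7) (nat_lit 0x26552d49564a30014006001) (nat_lit 0)))) (N (nat_lit 6162) (N (nat_lit 6161) (L (E (nat_lit 19) (nat_lit 0x269131897645922c11085aa2ce164cb0a5802b61598abc52428f0014006001) (nat_lit 0))) (L (E (nat_lit 23) (nat_lit 0x29994a89f84ef27713489764b123c91d487443816d8b305932c015b0ad45662920014006001) (nat_lit 0)))) (L (E (nat_lit 13) (nat_lit 0x9a44bb23191648b044216a8b305802b60014006001) (nat_lit 0))))) (N (nat_lit 6167) (N (nat_lit 6165) (N (nat_lit 6164) (L (E (nat_lit 21) (nat_lit 0xc3e6142b01578ab854129994aca3e4061778bb459a2cb164cade5552a30014006001) (nat_lit 0))) (L (E (nat_lit 13) (nat_lit 0x8b245822b915489a4419910c3c60e2fa0014006001) (nat_lit 0)))) (N (nat_lit 6166) (L (E (nat_lit 15) (nat_lit 0x3d19e70aa253f29994aca5451f28a13206361ca0014006001)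 (nat_lit 0))) (L (E (nat_lit 29) (nat_lit 0xd4855e2a094cca3e4f927713949b84d126252e495e47422c91608ae455220d0ee60e2cd1658afc56c2aa8014006001) (nat_lit 0))))) (N (nat_lit 6169) (N (nat_lit 6168) (L (E (nat_lit 28) (nat_lit 0x4f3a7713849b84d3a65531a9894b1a5112808e846322c91608834361660b2c5802bf15f0ad85582aa8014006001) (nat_lit 0))) (L (E (nat_lit 20) (nat_lit 0x4f3a6913449954bca58d28c8c645822110d85982cb1600af856c2aa8014006001) (nat_lit 0)))) (N (nat_lit 6170) (L (E (nat_lit 20) (nat_lit 0x4f3a69132a9764b3258d28c8c645822110d85982cb1600af856c2aa8014006001) (nat_lit 0))) (L (E (nat_lit 18) (nat_lit 0x13469944b1a4512048ee46f23191065802be15b8ad856a2988014006001) (nat_lit 0))))))))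
def cl123 : RA := N (nat_lit 6188) (N (nat_lit 6187) (N (nat_lit 6176) (N (nat_lit 6174) (N (nat_lit 6173) (N (nat_lit 6172) (L (E (nat_lit 19) (nat_lit 0x268d2ec9644a724512048ee46322c910686c2cd1610b0057c2b80014006001) (nat_lit 0))) (L (E (nat_lit 19) (nat_lit 0x28e93469944b1a4512048c645922c11085ab2c99600ad856a2988014006001) (nat_lit 0)))) (L (E (nat_lit 7) (nat_lit 0x279d34e9944bc8014006001) (nat_lit 0)))) (N (nat_lit 6175) (L (E (nat_lit 19) (nat_lit 0x279d3489764b3258d28c8c645922c11085982c99600ad856a2988014006001) (nat_lit 0))) (L (E (nat_lit 12) (nat_lit 0x4d225d918c8b24582210b305802b60014006001) (nat_lit 0))))) (N (nat_lit 6181) (N (nat_lit 6177) (L (E (nat_lit 11) (nat_lit 0x26912ec8c645922c11085802b60014006001) (nat_lit 0))) (N (nat_lit 6179) (N (nat_lit 6178) (L (E (nat_lit 12) (nat_lit 0x4bb23711888b04419600afc56c2a40014006001) (nat_lit 0))) (L (E (nat_lit 15) (nat_lit 0x27d134e9a24c625f92ec96646022bd1548944410014006001)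 (nat_lit 0)))) (N (nat_lit 6180) (L (E (nat_lit 15) (nat_lit 0x269d3449954c625d92cc96247d23a118089b43a0014006001) (nat_lit 0))) (L (E (nat_lit 19) (nat_lit 0x27d13549a84d2268931897e4bb25991f48c0455226d12888243a0014006001) (nat_lit 0)))))) (N (nat_lit 6183) (N (nat_lit 6182) (L (E (nat_lit 8) (nat_lit 0x4e726a13469754b30014006001) (nat_lit 0))) (L (E (nat_lit 13) (nat_lit 0x9a44bb23011368942c39600af656e2b58014006001) (nat_lit 0)))) (N (nat_lit 6185) (N (nat_lit 6184) (L (E (nat_lit 10) (nat_lit 0x1b18d4c4bca33116c89e4410014006001) (nat_lit 0))) (L (E (nat_lit 10) (nat_lit 0x134897645922c11085802b58014006001) (nat_lit 0)))) (N (nat_lit 6186) (L (E (nat_lit 13) (nat_lit 0x9a44baa31d10c8844411600afc56c2b50014006001) (nat_lit 0))) (L (E (nat_lit 18) (nat_lit 0x134697c4bc25d92e8962453221910485a2c21600ad856a2ae0014006001) (nat_lit 0)))))))) (L (E (nat_lit 7) (nat_lit 0x16a4b0056c2a10014006001) (nat_lit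 0)))) (N (nat_lit 6205) (N (nat_lit 6197) (N (nat_lit 6195) (N (nat_lit 6192) (N (nat_lit 6190) (N (nat_lit 6189) (L (E (nat_lit 14) (nat_lit 0x13469784bb25d114c89b4412168b0056c2b50014006001) (nat_lit 0))) (L (E (nat_lit 15) (nat_lit 0x258d1bc8c844da2090ec8744309600afc56c2b50014006001) (nat_lit 0)))) (N (nat_lit 6191) (L (E (nat_lit 10) (nat_lit 0x1346976463a208b0056c2b50014006001) (nat_lit 0))) (L (E (nat_lit 10) (nat_lit 0x1348976463a20cb0057e2b60014006001) (nat_lit 0))))) (N (nat_lit 6194) (N (nat_lit 6193) (L (E (nat_lit 17) (nat_lit 0x9a84d2268933898a4bca58cb245842c015f8ad85552a80014006001) (nat_lit 0))) (L (E (nat_lit 14) (nat_lit 0x13489a24b1a30114c89b4412168b0057e2b60014006001) (nat_lit 0)))) (L (E (nat_lit 9) (nat_lit 0xfa67c335ed1084881190014006001) (nat_lit 0))))) (N (nat_lit 6196) (L (E (nat_lit 7) (nat_lit 0x3641af4d6469d8014006001) (nat_lit 0))) (L (E (nat_lit 33) (nat_lit 0xfa67c33681b20d785f029091dc8e446a233116c8aa44da250d5c5aa2c51600aec5592aa9528a7853829914b091037617f0014006001)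 (nat_lit 0))))) (N (nat_lit 6201) (N (nat_lit 6200) (N (nat_lit 6199) (N (nat_lit 6198) (L (E (nat_lit 22) (nat_lit 0x1af09d34dc26d93449784bb25112808de46e23011368944411610b0057e2b60014006001) (nat_lit 0))) (L (E (nat_lit 21) (nat_lit 0xd784d426913449784bb25d12c48de46e23011368944411610b0057e2b60014006001) (nat_lit 0)))) (L (E (nat_lit 17) (nat_lit 0xd8d6bc34c94c8a6251d274d3709a84d226352fe9794b10014006001) (nat_lit 0)))) (L (E (nat_lit 7) (nat_lit 0x29e94c8a555150014006001) (nat_lit 0)))) (N (nat_lit 6203) (N (nat_lit 6202) (L (E (nat_lit 16) (nat_lit 0x6c73531a64ab853329914a8a2a51426a13249664a10014006001) (nat_lit 0))) (L (E (nat_lit 23) (nat_lit 0x3c29b40d8e6bc2a15500a7a53228f9474a2a5142218f506ae2a514d0a6052e17f0014006001) (nat_lit 0)))) (N (nat_lit 6204) (L (E (nat_lit 25) (nat_lit 0xf0a6bc3531570a6453128e94549b84d4269132898d4bca58928c8d84602248f505342970014006001) (nat_lit 0))) (L (E (nat_lit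 22) (nat_lit 0x1b1ad366992959498a3f4c8263131097e4ab25191888bc44b22490b885a4270014006001) (nat_lit 0))))))) (N (nat_lit 6210) (N (nat_lit 6206) (L (E (nat_lit 9) (nat_lit 0xa7a53228f9474a2c5150014006001) (nat_lit 0))) (N (nat_lit 6208) (N (nat_lit 6207) (L (E (nat_lit 32) (nat_lit 0x78535e1a98d324d426913449794b1255928c8dc462230117887443621710b484e2e516dcb085802bf15b0aaa5472980014006001) (nat_lit 0))) (L (E (nat_lit 11) (nat_lit 0x26912ec8b24582210b0057e2b60014006001) (nat_lit 0)))) (N (nat_lit 6209) (L (E (nat_lit 14) (nat_lit 0x1b1ad6069b34c91b88d446222591288804380014006001) (nat_lit 0))) (L (E (nat_lit 22) (nat_lit 0x13a69b84d426913189794a7a5191d48dc46a231117689b44a21d109a5842bf8014006001) (nat_lit 0)))))) (N (nat_lit 6216) (N (nat_lit 6212) (N (nat_lit 6211) (L (E (nat_lit 10) (nat_lit 0xb545802bf95b0ab854729d0014006001) (nat_lit 0))) (L (E (nat_lit 11) (nat_lit 0x30216dcaa952a28f8b504de22f0014006001)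 (nat_lit 0)))) (N (nat_lit 6214) (N (nat_lit 6213) (L (E (nat_lit 14) (nat_lit 0x134898d4bca5a52c49464a21610afe55c2a30014006001) (nat_lit 0))) (L (E (nat_lit 22) (nat_lit 0x1810b6e54a29f94a8a3e4f3269131a9794b425892ac5a82ae1518a884de22f0014006001) (nat_lit 0)))) (N (nat_lit 6215) (L (E (nat_lit 17) (nat_lit 0xd8d6bc28f93a698d4bca5892ac94444da2050d85842bf8014006001) (nat_lit 0))) (L (E (nat_lit 21) (nat_lit 0xd8d6bc34c947c9d34c6a5e52c49564a223711a88c444da2510d85842bf8014006001) (nat_lit 0)))))) (N (nat_lit 6220) (N (nat_lit 6218) (N (nat_lit 6217) (L (E (nat_lit 10) (nat_lit 0x147c9a44bca58918e8822bf8014006001) (nat_lit 0))) (L (E (nat_lit 12) (nat_lit 0x6a628f93709a44bca58918e57f2980014006001) (nat_lit 0)))) (N (nat_lit 6219) (L (E (nat_lit 13) (nat_lit 0xd4d69926912ec8ee463a210c4457f2ac0014006001) (nat_lit 0))) (L (E (nat_lit 9) (nat_lit 0x9b94d225e52c48c72bf8014006001) (nat_lit 0))))) (N (nat_lit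 6222) (N (nat_lit 6221) (L (E (nat_lit 13) (nat_lit 0xd606a63521a648ee463a30115e8aa44a0014006001) (nat_lit 0))) (L (E (nat_lit 20) (nat_lit 0x6a63521a64a524e9a69131a97c4bca5892ac944463a2510d857f2a30014006001) (nat_lit 0)))) (L (E (nat_lit 8) (nat_lit 0x4d225d918e8952c00014006001) (nat_lit 0))))))))
def cl124 : RA := N (nat_lit 6290) (N (nat_lit 6289) (N (nat_lit 6276) (N (nat_lit 6268) (N (nat_lit 6265) (N (nat_lit 6263) (L (E (nat_lit 12) (nat_lit 0x53328e93529a44c826312f89632d60014006001) (nat_lit 0))) (N (nat_lit 6264) (L (E (nat_lit 24) (nat_lit 0x53328e934898c4be25e52c68ee47523991a48ba45a21d10c05ac2cb15b8ab853228f0014006001) (nat_lit 0))) (L (E (nat_lit 20) (nat_lit 0x4c625e52c68ea46923251808ba457a2a91068742d5164cb0255e28f0014006001) (nat_lit 0))))) (N (nat_lit 6267) (N (nat_lit 6266) (L (E (nat_lit 23) (nat_lit 0x25e52c68ee46b23511a48c045a22bd0e88602d616a0b025662ae1548a6452828f0014006001)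 (nat_lit 0))) (L (E (nat_lit 14) (nat_lit 0x13189794b1a3191808af441a180b265812af0014006001) (nat_lit 0)))) (L (E (nat_lit 13) (nat_lit 0x8c245922c115c8832c995b8ad855d2a10014006001) (nat_lit 0))))) (N (nat_lit 6272) (N (nat_lit 6270) (N (nat_lit 6269) (L (E (nat_lit 22) (nat_lit 0x1b18d6048223c91c08de46a22d510865c3251818ad84de26612e09504942480014006001) (nat_lit 0))) (L (E (nat_lit 19) (nat_lit 0x26913189794b1a2c91608ae441a1d0b3e5932c215b0ab854a2480014006001) (nat_lit 0)))) (N (nat_lit 6271) (L (E (nat_lit 24) (nat_lit 0x53328e934898c4bca58d1848b245822b91065932c41610ad85612af1570a945382480014006001) (nat_lit 0))) (L (E (nat_lit 12) (nat_lit 0x53328e934898c4bca58d2b29522d60014006001) (nat_lit 0))))) (N (nat_lit 6274) (N (nat_lit 6273) (L (E (nat_lit 15) (nat_lit 0x26913189794b1a3191808b2458220cb2656c2af0014006001) (nat_lit 0))) (L (E (nat_lit 10) (nat_lit 0x11e48c145922bd1348954420014006001) (nat_lit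 0)))) (N (nat_lit 6275) (L (E (nat_lit 12) (nat_lit 0x4d226312f296346322c91608832b60014006001) (nat_lit 0))) (L (E (nat_lit 17) (nat_lit 0x9a44bb23bd18c8c445922c112c88444116e8ad855d2ac0014006001) (nat_lit 0))))))) (N (nat_lit 6283) (N (nat_lit 6280) (N (nat_lit 6278) (N (nat_lit 6277) (L (E (nat_lit 13) (nat_lit 0x9a44bca58d18c8b2458221110456c2ae8014006001) (nat_lit 0))) (L (E (nat_lit 16) (nat_lit 0x4d226312f296347723191848b245822111045962ae0014006001) (nat_lit 0)))) (N (nat_lit 6279) (L (E (nat_lit 13) (nat_lit 0xbbe4d4a69132098c4be258d1388864300014006001) (nat_lit 0))) (L (E (nat_lit 17) (nat_lit 0xbbe4f3a6913189794b1a3bd18c8c4460a2c91608844410014006001) (nat_lit 0))))) (N (nat_lit 6282) (N (nat_lit 6281) (L (E (nat_lit 15) (nat_lit 0x279d34898c4bca58d1de8c645922bd10857e2b60014006001) (nat_lit 0))) (L (E (nat_lit 12) (nat_lit 0x4dc26913189794b1a2c91608842b60014006001) (nat_lit 0)))) (L (E (nat_lit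 14) (nat_lit 0x13ce9a44c6a5e52c68c245922c115c8844410014006001) (nat_lit 0))))) (N (nat_lit 6286) (N (nat_lit 6285) (N (nat_lit 6284) (L (E (nat_lit 14) (nat_lit 0x13ce9b84d3a6352f28ef460a2bd0fc5812ae0014006001) (nat_lit 0))) (L (E (nat_lit 17) (nat_lit 0x9e74dc269131a9794b1a3bd1828b245822111045812ae0014006001) (nat_lit 0)))) (L (E (nat_lit 17) (nat_lit 0x9e74dc269131a9794b1a3bd1828b24582210b0256c2ae0014006001) (nat_lit 0)))) (N (nat_lit 6287) (L (E (nat_lit 10) (nat_lit 0xb985aa2c995c8adc56c2b50014006001) (nat_lit 0))) (N (nat_lit 6288) (L (E (nat_lit 16) (nat_lit 0x4f3a6e134499e4bca3bd1808b245822a91065812b50014006001) (nat_lit 0))) (L (E (nat_lit 14) (nat_lit 0x13ce9b84c6a5e52c68ef45922c11085812ae0014006001) (nat_lit 0)))))))) (L (E (nat_lit 7) (nat_lit 0x15b8ad856a2ae8014006001) (nat_lit 0)))) (N (nat_lit 6310) (N (nat_lit 6300) (N (nat_lit 6299) (N (nat_lit 6294) (N (nat_lit 6292) (N (nat_lit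 6291) (L (E (nat_lit 14) (nat_lit 0x13709a44bca5d92c68ef45922c110856c2ae0014006001) (nat_lit 0))) (L (E (nat_lit 21) (nat_lit 0xd726a4349147ca0a5002728d186303161878c1c5be2dd1660b245812ac0014006001) (nat_lit 0)))) (N (nat_lit 6293) (L (E (nat_lit 29) (nat_lit 0xd7a6b92e096f0b765a4279d39498d4be25e52d49634ac254904480c3f01a30cc06583181878b745982c08014006001) (nat_lit 0))) (L (E (nat_lit 32) (nat_lit 0x6bd35c9704b785bb2d213ce9ca4dd26e131a9794b5258d2b09524112030fc068c3301960c6061e2dd1660b0c5812b90014006001) (nat_lit 0))))) (N (nat_lit 6296) (N (nat_lit 6295) (L (E (nat_lit 5) (nat_lit 0xe0e4d49fe4644003) (nat_lit 0))) (L (E (nat_lit 13) (nat_lit 0x9b84d225e52c68b2458221110456c2ae0014006001) (nat_lit 0)))) (N (nat_lit 6298) (N (nat_lit 6297) (L (E (nat_lit 18) (nat_lit 0x13ce9b84c6a5e52c68ee46b22c112a8834301620b025732990014006001) (nat_lit 0))) (L (E (nat_lit 12) (nat_lit 0x4c6a5f52f294649723091068782d60014006001)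 (nat_lit 0)))) (L (E (nat_lit 16) (nat_lit 0x4f3a6352f296347722c91608832c99604ac25552958014006001) (nat_lit 0)))))) (L (E (nat_lit 10) (nat_lit 0x13289924be25e52d09634ac0014006001) (nat_lit 0)))) (N (nat_lit 6305) (N (nat_lit 6302) (N (nat_lit 6301) (L (E (nat_lit 11) (nat_lit 0x26e13489794b1a2c91608842b60014006001) (nat_lit 0))) (L (E (nat_lit 17) (nat_lit 0x9d34dc26993489a24ca25f12f2944457a20cb2c5702ae0014006001) (nat_lit 0)))) (N (nat_lit 6304) (N (nat_lit 6303) (L (E (nat_lit 26) (nat_lit 0x13a69b84d2268932898a4be25e52e89624a525111ac8b2457a20cb2c5842b815b8ab85422990014006001) (nat_lit 0))) (L (E (nat_lit 18) (nat_lit 0x13a69a24c525f12f29744b125292888b0455220d0d85812b50014006001) (nat_lit 0)))) (L (E (nat_lit 19) (nat_lit 0x36914749d64dc269d2cc8d846122c91608ae4552210b5c5842b80014006001) (nat_lit 0))))) (N (nat_lit 6308) (N (nat_lit 6307) (N (nat_lit 6306) (L (E (nat_lit 18) (nat_lit 0x13709a44c6a5e52c49564a923611648b045722110bc5702b60014006001)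 (nat_lit 0))) (L (E (nat_lit 14) (nat_lit 0x13ac9ce4dc26a13489a24c52598b545982b88014006001) (nat_lit 0)))) (L (E (nat_lit 18) (nat_lit 0x13709a84d226352f296247723091648b045722111045aa2b60014006001) (nat_lit 0)))) (N (nat_lit 6309) (L (E (nat_lit 21) (nat_lit 0xd906b03579a64a5052228e92248ee46f23191648b04411668b085812b80014006001) (nat_lit 0))) (L (E (nat_lit 21) (nat_lit 0xd3251d274d3709b64d3a63531097c4bca5c12c49444582208b025731c50014006001) (nat_lit 0))))))) (N (nat_lit 6312) (N (nat_lit 6311) (L (E (nat_lit 18) (nat_lit 0x1a649d34dc26d933898d4be25e52e09624a222bd1045812b80014006001) (nat_lit 0))) (L (E (nat_lit 10) (nat_lit 0x11e48ee46322c91608844410014006001) (nat_lit 0)))) (N (nat_lit 6314) (N (nat_lit 6313) (L (E (nat_lit 17) (nat_lit 0x9d04d426993489924c6a5f12f28ee45922bd1088822d50014006001) (nat_lit 0))) (L (E (nat_lit 12) (nat_lit 0x4e9a6e131a9794a7a2c91608842c08014006001) (nat_lit 0)))) (L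 (E (nat_lit 9) (nat_lit 0x5aa2c095c4ab05482940014006001) (nat_lit 0))))))
def cl125 : RA := N (nat_lit 6262) (N (nat_lit 6248) (N (nat_lit 6234) (N (nat_lit 6227) (N (nat_lit 6226) (N (nat_lit 6225) (N (nat_lit 6224) (L (E (nat_lit 14) (nat_lit 0x1a98d48529274d34898d4bca53d18e8942bf8014006001) (nat_lit 0))) (L (E (nat_lit 15) (nat_lit 0x3531a909d34dc26913189794a7a31d1088742bf8014006001) (nat_lit 0)))) (L (E (nat_lit 11) (nat_lit 0x26912f296245922c11085802b60014006001) (nat_lit 0)))) (L (E (nat_lit 7) (nat_lit 0x231d18089643a8014006001) (nat_lit 0)))) (N (nat_lit 6230) (N (nat_lit 6229) (N (nat_lit 6228) (L (E (nat_lit 10) (nat_lit 0x11808822d79620b0055929c0014006001) (nat_lit 0))) (L (E (nat_lit 36) (nat_lit 0x6d435f1a50d266032f712c48de46e23211888ae44f2259124884441213909a5aa2d315fcac055c2aa14e8a7052827413709a84be2590014006001) (nat_lit 0)))) (L (E (nat_lit 12) (nat_lit 0x2d51698b205802be15b8ad856a2b30014006001)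 (nat_lit 0)))) (N (nat_lit 6232) (N (nat_lit 6231) (L (E (nat_lit 12) (nat_lit 0x4d226312f09764b1231d12c8822bf8014006001) (nat_lit 0))) (L (E (nat_lit 15) (nat_lit 0x26913189764b123b91648b044b2210b545802b60014006001) (nat_lit 0)))) (N (nat_lit 6233) (L (E (nat_lit 12) (nat_lit 0x4d226892f09764ba231d10c88343a0014006001) (nat_lit 0))) (L (E (nat_lit 18) (nat_lit 0x1814bba47723611a88cc463a2d915e8aa44a2188b985aa2bf8014006001) (nat_lit 0))))))) (N (nat_lit 6242) (N (nat_lit 6239) (N (nat_lit 6237) (N (nat_lit 6236) (N (nat_lit 6235) (L (E (nat_lit 20) (nat_lit 0x89d3749ba0dcc6ca3641b1ad786afb531a6c9d03391938c746281d80014006001) (nat_lit 0))) (L (E (nat_lit 28) (nat_lit 0x7b33749ba0d946c835e1ac8d606ad3531a6cd3269427893c09d04e71a08d0067232718e8c503b81d70014006001) (nat_lit 0)))) (L (E (nat_lit 39) (nat_lit 0x3d99ba4dd06ca3641af0d746b23569a98d326942a094cca5c52827813a09ce3401940c9c64c3141850bbc5cc2e016a8b0857f2af1570ab05522a20014006001)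 (nat_lit 0)))) (N (nat_lit 6238) (L (E (nat_lit 12) (nat_lit 0x4d225d92c48b245822591085802b60014006001) (nat_lit 0))) (L (E (nat_lit 8) (nat_lit 0x4df26e937098d4be259d29e003) (nat_lit 0))))) (N (nat_lit 6241) (N (nat_lit 6240) (L (E (nat_lit 17) (nat_lit 0x9be4dd26e13509a44c525f12f09764b116a8b505a22bf8014006001) (nat_lit 0))) (L (E (nat_lit 23) (nat_lit 0x26912f89784bb258918e8ae44e221910887443621a90c05a82cc15fcab85582a30014006001) (nat_lit 0)))) (L (E (nat_lit 11) (nat_lit 0x26912ec96245922c11085802b60014006001) (nat_lit 0))))) (N (nat_lit 6243) (L (E (nat_lit 8) (nat_lit 0x4dca6a13489a24b18014006001) (nat_lit 0))) (N (nat_lit 6245) (N (nat_lit 6244) (L (E (nat_lit 10) (nat_lit 0x13509a44d126312f09764b18014006001) (nat_lit 0))) (L (E (nat_lit 11) (nat_lit 0x26912f097645922c11085802b60014006001) (nat_lit 0)))) (N (nat_lit 6247) (N (nat_lit 6246) (L (E (nat_lit 21) (nat_lit 0xd4c6a42a11504a6651f28b12f28dc46623111808b245822b91546361ca0014006001)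 (nat_lit 0))) (L (E (nat_lit 21) (nat_lit 0xa664fc27d93e49a44bca31d1548944452210bbc5aa2d315fcae454e29c0014006001) (nat_lit 0)))) (L (E (nat_lit 11) (nat_lit 0x269d31a97c45922c11085802b60014006001) (nat_lit 0)))))))) (N (nat_lit 6249) (L (E (nat_lit 10) (nat_lit 0x134897645922c11085802b60014006001) (nat_lit 0))) (N (nat_lit 6255) (N (nat_lit 6253) (N (nat_lit 6252) (N (nat_lit 6251) (N (nat_lit 6250) (L (E (nat_lit 12) (nat_lit 0x6a426312f28c7460221110487e2c08014006001) (nat_lit 0))) (L (E (nat_lit 12) (nat_lit 0x6a42691318979463a21110487e2c08014006001) (nat_lit 0)))) (L (E (nat_lit 10) (nat_lit 0x1a9098c4bca31d10887e2c08014006001) (nat_lit 0)))) (L (E (nat_lit 15) (nat_lit 0x27d93749a44d126413189742a51518a845382980014006001) (nat_lit 0)))) (N (nat_lit 6254) (L (E (nat_lit 5) (nat_lit 0x9a94be25a92b0003) (nat_lit 0))) (L (E (nat_lit 8) (nat_lit 0x4f3a5e52d29634ac0014006001) (nat_lit 0))))) (N (nat_lit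 6256) (L (E (nat_lit 8) (nat_lit 0x2d51610aba5462a10014006001) (nat_lit 0))) (N (nat_lit 6261) (N (nat_lit 6259) (N (nat_lit 6258) (N (nat_lit 6257) (L (E (nat_lit 18) (nat_lit 0x180cbcc4c39f80b385882c095c0abc55c2ac15289e84ee2760014006001) (nat_lit 0))) (L (E (nat_lit 17) (nat_lit 0x98c4bca58d1de8c9457a2a912488343a2180b265812af0014006001) (nat_lit 0)))) (L (E (nat_lit 8) (nat_lit 0x2d51604aba5462a10014006001) (nat_lit 0)))) (N (nat_lit 6260) (L (E (nat_lit 12) (nat_lit 0x4c625f12f296a4b1a5612909444a10014006001) (nat_lit 0))) (L (E (nat_lit 21) (nat_lit 0x9a34c625f12f296347723a91cc8d245d22d10e88602cb15b8ab853228f0014006001) (nat_lit 0))))) (L (E (nat_lit 15) (nat_lit 0x23591a88d245a22bd0e88602ac152ca6452828f0014006001) (nat_lit 0)))))))) (cl124)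
def cl126 : RA := N (nat_lit 6341) (N (nat_lit 6333) (N (nat_lit 6323) (N (nat_lit 6319) (N (nat_lit 6317) (N (nat_lit 6316) (L (E (nat_lit 14) (nat_lit 0x1b20d604f427093308f345822090e06723250014006001) (nat_lit 0))) (L (E (nat_lit 15) (nat_lit 0x274d34e98c4be25e52c48b245822bd1045812b88014006001) (nat_lit 0)))) (N (nat_lit 6318) (L (E (nat_lit 13) (nat_lit 0x9a44c625e52c48b2457a2111045712b60014006001) (nat_lit 0))) (L (E (nat_lit 16) (nat_lit 0x4d226312f89794ac25491dc8c645922bd1348844410014006001) (nat_lit 0))))) (N (nat_lit 6321) (N (nat_lit 6320) (L (E (nat_lit 17) (nat_lit 0x9e64d226312f89794b125611dc8c645922bd1088822b60014006001) (nat_lit 0))) (L (E (nat_lit 14) (nat_lit 0x1ac0d32698254d1908b2457a25110888042f0014006001) (nat_lit 0)))) (N (nat_lit 6322) (L (E (nat_lit 17) (nat_lit 0xd324d226312f28ee463a2bd13c89b4411f88afc56c2b50014006001) (nat_lit 0))) (L (E (nat_lit 14) (nat_lit 0x1a649a44c625e518e8af44322111045732b60014006001)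 (nat_lit 0)))))) (N (nat_lit 6328) (N (nat_lit 6326) (N (nat_lit 6325) (N (nat_lit 6324) (L (E (nat_lit 15) (nat_lit 0x23b915e89a443221110484e2d51604ae456b2ac0014006001) (nat_lit 0))) (L (E (nat_lit 19) (nat_lit 0x34c93cc9a44c625f12f29624ac23b91648af44222090d85aa2b60014006001) (nat_lit 0)))) (L (E (nat_lit 20) (nat_lit 0x699279934898c4be25e52c495847723091648b044222090d85aa2b60014006001) (nat_lit 0)))) (N (nat_lit 6327) (L (E (nat_lit 13) (nat_lit 0x9d34e726a534897c4bc9988cc065a2d60014006001) (nat_lit 0))) (L (E (nat_lit 15) (nat_lit 0x3639a98a6653229893509a44c625e52ac9524a10014006001) (nat_lit 0))))) (N (nat_lit 6331) (N (nat_lit 6330) (N (nat_lit 6329) (L (E (nat_lit 17) (nat_lit 0xa464bca5891ac8c6457226d10665a2c41604ae65382990014006001) (nat_lit 0))) (L (E (nat_lit 13) (nat_lit 0x9be4dc26a12f295345822b91348832b98014006001) (nat_lit 0)))) (L (E (nat_lit 15) (nat_lit 0x26312ec9644a923591648b0457226912c8844360014006001)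 (nat_lit 0)))) (N (nat_lit 6332) (L (E (nat_lit 23) (nat_lit 0x29193709a44c625f12f296246b23191648b0457220d0d865a2c41604ae65382990014006001) (nat_lit 0))) (L (E (nat_lit 16) (nat_lit 0x4d226312f897945922c115c88343616a8b2656c2958014006001) (nat_lit 0))))))) (N (nat_lit 6334) (L (E (nat_lit 7) (nat_lit 0x22bd1368834300014006001) (nat_lit 0))) (N (nat_lit 6337) (N (nat_lit 6336) (N (nat_lit 6335) (L (E (nat_lit 14) (nat_lit 0x137c9a84ca25e52a68c44582268a705322980014006001) (nat_lit 0))) (L (E (nat_lit 19) (nat_lit 0x26f93509a44c625e52ec8c6457a20d0c05932b995b0a705302940014006001) (nat_lit 0)))) (L (E (nat_lit 10) (nat_lit 0xb545932c095c8abc5582a30014006001) (nat_lit 0)))) (N (nat_lit 6339) (N (nat_lit 6338) (L (E (nat_lit 10) (nat_lit 0x13709a44bca2c91608842b60014006001) (nat_lit 0))) (L (E (nat_lit 13) (nat_lit 0xd744d223b918e8c1457a26910486c2d50014006001) (nat_lit 0)))) (N (nat_lit 6340) (L (E (nat_lit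 23) (nat_lit 0x35d1ac0d325f02f393509a447723591648af44d22110d85aa2cd1658b2456a2a38014006001) (nat_lit 0))) (L (E (nat_lit 26) (nat_lit 0x1b68da66cf3641ae8d606992f8179c9a84d223b91ac8b2457a2110d85aa2cd1658b2456a2a38014006001) (nat_lit 0)))))))) (N (nat_lit 6346) (N (nat_lit 6342) (L (E (nat_lit 9) (nat_lit 0x9a44bca2c91608842b60014006001) (nat_lit 0))) (N (nat_lit 6345) (N (nat_lit 6344) (N (nat_lit 6343) (L (E (nat_lit 14) (nat_lit 0x134497c4bc25d92e85ae2cc1610b025702a38014006001) (nat_lit 0))) (L (E (nat_lit 17) (nat_lit 0x9e64df26352f89784a79a18cb05ae2d51660b0255c2ac0014006001) (nat_lit 0)))) (L (E (nat_lit 13) (nat_lit 0x9a84d225d91dc8c6457226d10456c2ac0014006001) (nat_lit 0)))) (L (E (nat_lit 13) (nat_lit 0x9a84d225e12ec8ef463230915c89b4410014006001) (nat_lit 0))))) (N (nat_lit 6358) (N (nat_lit 6352) (N (nat_lit 6349) (N (nat_lit 6348) (N (nat_lit 6347) (L (E (nat_lit 11) (nat_lit 0x26a134898d46322b91368822ac8014006001)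 (nat_lit 0))) (L (E (nat_lit 16) (nat_lit 0x4d426913189784bb231915c89b44b2208ad85462a20014006001) (nat_lit 0)))) (L (E (nat_lit 20) (nat_lit 0x5dd2ed93729a84c926292ee96a4b325789d84e427113709684a22500014006001) (nat_lit 0)))) (N (nat_lit 6351) (N (nat_lit 6350) (L (E (nat_lit 30) (nat_lit 0x1774bb64f326f93729a84d226292ee96a4af23089d84e4271137096c4b425112806803281910c7861c24c0a50014006001) (nat_lit 0))) (L (E (nat_lit 22) (nat_lit 0x1774bb64f3273937c9a24c525dcb545982c095c8ab254229c13909b84b42500014006001) (nat_lit 0)))) (L (E (nat_lit 28) (nat_lit 0x61a30b1774bb64f3275939c9be4d126292f89772d716a8b4c5982c09564a8453829a13909b84b42500014006001) (nat_lit 0))))) (N (nat_lit 6355) (N (nat_lit 6354) (N (nat_lit 6353) (L (E (nat_lit 14) (nat_lit 0x13f29e24e7273137c9ba4dc269134498a4bc0014006001) (nat_lit 0))) (L (E (nat_lit 8) (nat_lit 0x7082dc93567fb1920014006001) (nat_lit 0)))) (L (E (nat_lit 22) (nat_lit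 0x16e49d24e126f93729a84d225f12ce9444071f98f807ba2df16b0b0c55c2a40014006001) (nat_lit 0)))) (N (nat_lit 6357) (N (nat_lit 6356) (L (E (nat_lit 39) (nat_lit 0x3591a4cc346162ee976cb724f3275939c9be4d4268931497c4bba5592a48803f31f00c9c6122d71698b305812ae1564a8453829a13909b84b42500014006001) (nat_lit 0))) (L (E (nat_lit 15) (nat_lit 0x28f94589be4dca6a13489774b42500b745a62b60014006001) (nat_lit 0)))) (L (E (nat_lit 13) (nat_lit 0x9e64e726f93749b84d226893189784ba0014006001) (nat_lit 0)))))) (N (nat_lit 6362) (N (nat_lit 6360) (N (nat_lit 6359) (L (E (nat_lit 12) (nat_lit 0x4d426912ee8ee46322b91368822ac8014006001) (nat_lit 0))) (L (E (nat_lit 11) (nat_lit 0x26ed2ee9674ad23bd15c8844310014006001) (nat_lit 0)))) (N (nat_lit 6361) (L (E (nat_lit 12) (nat_lit 0x6182f31790bb25d12e811868964410014006001) (nat_lit 0))) (L (E (nat_lit 22) (nat_lit 0x177cba24dc26a13489a24bba5691de8df45922c115c884440a1690986220a10014006001)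 (nat_lit 0))))) (L (E (nat_lit 11) (nat_lit 0x36d1b64da46d03679b38d906b20014006001) (nat_lit 0))))))
def cl127 : RA := N (nat_lit 6411) (N (nat_lit 6403) (N (nat_lit 6399) (N (nat_lit 6395) (N (nat_lit 6390) (N (nat_lit 6388) (N (nat_lit 6387) (N (nat_lit 6386) (L (E (nat_lit 10) (nat_lit 0x1a96d3253f29e94eca3a50b0014006001) (nat_lit 0))) (L (E (nat_lit 22) (nat_lit 0x1a64a7a51d28592c880e3e61e38b745b92d69698b2457e2b51554a8842c13f0014006001) (nat_lit 0)))) (L (E (nat_lit 10) (nat_lit 0x101c80b3e61f00f6c7a73c70014006001) (nat_lit 0)))) (N (nat_lit 6389) (L (E (nat_lit 11) (nat_lit 0x35e1adcd5d3301968cb06503271930c90001) (nat_lit 0))) (L (E (nat_lit 29) (nat_lit 0xf166992f294fca7a4ba259101c8063db1e38cc065a3281920b5a5922b69570aa854424810c085828a13f0014006001) (nat_lit 0))))) (N (nat_lit 6393) (N (nat_lit 6392) (N (nat_lit 6391) (L (E (nat_lit 20) (nat_lit 0x69929e9474a164b22038f1c5c02dd16b4b2456d2aa9524a8842c13f0014006001)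 (nat_lit 0))) (L (E (nat_lit 39) (nat_lit 0x3c59a64bca53f29e9474a164ba259101c8063db1e38cc065a3281920b805ba2cc1648b0057e2b715b4ad455c2ac1528a8854224810c085828a13f0014006001) (nat_lit 0)))) (L (E (nat_lit 29) (nat_lit 0xf166992f293889ab4d1a5dd2cc942461a2591248824072018f6c5c02cd1648ad45582a210c085828a13f0014006001) (nat_lit 0)))) (N (nat_lit 6394) (L (E (nat_lit 15) (nat_lit 0x3cf16e89a344b220901c5aa2cc1600ad85582aa8014006001) (nat_lit 0))) (L (E (nat_lit 20) (nat_lit 0x418206901c8063f41728b905c62dc1600afc56c2b51570ab05542a38014006001) (nat_lit 0)))))) (N (nat_lit 6398) (N (nat_lit 6397) (N (nat_lit 6396) (L (E (nat_lit 20) (nat_lit 0x79e2dd134689644120c101c8063f41728b545922c015b0ad455c2ac0014006001) (nat_lit 0))) (L (E (nat_lit 11) (nat_lit 0x27a13809be4dd26e12f09774b30014006001) (nat_lit 0)))) (L (E (nat_lit 9) (nat_lit 0x59e2cd1660ada55c2a38014006001) (nat_lit 0)))) (L (E (nat_lit 9) (nat_lit 0x9a44bba31915c89b4410014006001)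 (nat_lit 0))))) (N (nat_lit 6402) (N (nat_lit 6401) (N (nat_lit 6400) (L (E (nat_lit 13) (nat_lit 0xc22606302180cbe85ea2ef93d09934bc0014006001) (nat_lit 0))) (L (E (nat_lit 12) (nat_lit 0x4d1a5e118c8ae44da208b3056d2a50014006001) (nat_lit 0)))) (L (E (nat_lit 9) (nat_lit 0x9ba4dc267d2f89764b38014006001) (nat_lit 0)))) (L (E (nat_lit 7) (nat_lit 0x26fd3489a24cf0014006001) (nat_lit 0))))) (N (nat_lit 6408) (N (nat_lit 6407) (N (nat_lit 6405) (N (nat_lit 6404) (L (E (nat_lit 18) (nat_lit 0x13709a24c525e12ec9744a124d118c89b2cc1610b0057e2ac0014006001) (nat_lit 0))) (L (E (nat_lit 14) (nat_lit 0x13749b84d3269134499e4bb259d1365982b68014006001) (nat_lit 0)))) (N (nat_lit 6406) (L (E (nat_lit 14) (nat_lit 0x13749b84d226892ce8c6457226d0c45982b68014006001) (nat_lit 0))) (L (E (nat_lit 10) (nat_lit 0x13769a74bb259d18c8ae44d8014006001) (nat_lit 0))))) (L (E (nat_lit 7) (nat_lit 0x26913269764b38014006001) (nat_lit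 0)))) (N (nat_lit 6409) (L (E (nat_lit 8) (nat_lit 0x4dda59d18c8ae44d8014006001) (nat_lit 0))) (N (nat_lit 6410) (L (E (nat_lit 12) (nat_lit 0x4d226892ce8c6457226d0c45982b68014006001) (nat_lit 0))) (L (E (nat_lit 13) (nat_lit 0x9a44d125e118c8ae44da2591045982b68014006001) (nat_lit 0))))))) (N (nat_lit 6418) (N (nat_lit 6412) (L (E (nat_lit 7) (nat_lit 0x23191368974410014006001) (nat_lit 0))) (N (nat_lit 6415) (N (nat_lit 6414) (N (nat_lit 6413) (L (E (nat_lit 13) (nat_lit 0x9a44d125e128e8c6457226d10456d29c0014006001) (nat_lit 0))) (L (E (nat_lit 12) (nat_lit 0x4d426912f08c646122b91368822b60014006001) (nat_lit 0)))) (L (E (nat_lit 11) (nat_lit 0x26913449784b3231915c89b4410014006001) (nat_lit 0)))) (N (nat_lit 6416) (L (E (nat_lit 10) (nat_lit 0x13489784b3231915c89b4410014006001) (nat_lit 0))) (N (nat_lit 6417) (L (E (nat_lit 13) (nat_lit 0xc305dd2ea13469924bfa5cd18c89b4410014006001) (nat_lit 0)))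 (L (E (nat_lit 14) (nat_lit 0x13709a84d226892f0963477a31915c89b4410014006001) (nat_lit 0))))))) (N (nat_lit 6422) (N (nat_lit 6420) (N (nat_lit 6419) (L (E (nat_lit 12) (nat_lit 0x4d225e118c8ae44da208b3256d2a50014006001) (nat_lit 0))) (L (E (nat_lit 10) (nat_lit 0x134897846322b91368822b68014006001) (nat_lit 0)))) (N (nat_lit 6421) (L (E (nat_lit 9) (nat_lit 0x9a44bc231915c89b4410014006001) (nat_lit 0))) (L (E (nat_lit 10) (nat_lit 0x118e8c246022b912c8844410014006001) (nat_lit 0))))) (N (nat_lit 6427) (N (nat_lit 6426) (N (nat_lit 6424) (N (nat_lit 6423) (L (E (nat_lit 13) (nat_lit 0x9be4dc26d934497f4bc25d91808924350014006001) (nat_lit 0))) (L (E (nat_lit 17) (nat_lit 0x9d34d125f12f09764a7a3011648ae4351664b0255c2ac0014006001) (nat_lit 0)))) (N (nat_lit 6425) (L (E (nat_lit 11) (nat_lit 0x26892f89784bb25d0b5a5842a38014006001) (nat_lit 0))) (L (E (nat_lit 11) (nat_lit 0x274d372976481a26d12e5982c08014006001)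 (nat_lit 0))))) (L (E (nat_lit 11) (nat_lit 0x26913449784bb22b91368822b60014006001) (nat_lit 0)))) (N (nat_lit 6430) (N (nat_lit 6429) (N (nat_lit 6428) (L (E (nat_lit 12) (nat_lit 0x4dc2691344976463a26d12e5982b68014006001) (nat_lit 0))) (L (E (nat_lit 13) (nat_lit 0x9b84d226892f0976463a2b91365982b68014006001) (nat_lit 0)))) (L (E (nat_lit 9) (nat_lit 0x9d04dca6912f89764b38014006001) (nat_lit 0)))) (N (nat_lit 6431) (L (E (nat_lit 16) (nat_lit 0x6a63521a64d304dca6a13489662d51660b085722b68014006001) (nat_lit 0))) (L (E (nat_lit 13) (nat_lit 0x9a44d125e12ec8c7457226d1045982b68014006001) (nat_lit 0))))))))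
def cl128 : RA := N (nat_lit 6223) (N (nat_lit 6107) (N (nat_lit 6046) (cl120) (cl121)) (N (nat_lit 6171) (N (nat_lit 6128) (N (nat_lit 6122) (N (nat_lit 6113) (N (nat_lit 6110) (N (nat_lit 6109) (N (nat_lit 6108) (L (E (nat_lit 41) (nat_lit 0xd3669934a1520a7e52c2919468a2c51028713849be4d526a13489a24ca26312fc9794ba25c92c465e3241878c2056e2af15489103721830c085382941440014006001) (nat_lit 0))) (L (E (nat_lit 17) (nat_lit 0x9d34e126a134898c4bf25e52e4962463220cb0857f2aa8014006001) (nat_lit 0)))) (L (E (nat_lit 10) (nat_lit 0xb545842bf95c0abe54629a0014006001) (nat_lit 0)))) (N (nat_lit 6112) (N (nat_lit 6111) (L (E (nat_lit 17) (nat_lit 0x9d04d4265132498c4bca54d1ba8b2458220cafe56e2af8014006001) (nat_lit 0))) (L (E (nat_lit 13) (nat_lit 0x9a84d226312f28c645922c11085982bf8014006001) (nat_lit 0)))) (L (E (nat_lit 12) (nat_lit 0x47f23751508832e696a8b2057f2b88014006001) (nat_lit 0))))) (N (nat_lit 6116) (N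 (nat_lit 6115) (N (nat_lit 6114) (L (E (nat_lit 19) (nat_lit 0x23f91dc8c645a22c91608a84419b80b545982c81610afe55f1a00014006001) (nat_lit 0))) (L (E (nat_lit 12) (nat_lit 0x4d226312f28c645922c11085982bf8014006001) (nat_lit 0)))) (L (E (nat_lit 6) (nat_lit 0x13a69a94be251000a003) (nat_lit 0)))) (N (nat_lit 6120) (N (nat_lit 6118) (N (nat_lit 6117) (L (E (nat_lit 17) (nat_lit 0x9d34dc26a93489944c6a5f12f29624a21660b0857f2a30014006001) (nat_lit 0))) (L (E (nat_lit 21) (nat_lit 0xc226102f81798b5254a2a414fca7a53329912a68aa4401970c9063230f0014006001) (nat_lit 0)))) (N (nat_lit 6119) (L (E (nat_lit 25) (nat_lit 0xd606112a514f4a664d423611908c645822a910665c3191748b745aa2cc1610afe55e2ac0014006001) (nat_lit 0))) (L (E (nat_lit 13) (nat_lit 0xa662ef1768b545842bf95c0abe54628f0014006001) (nat_lit 0))))) (N (nat_lit 6121) (L (E (nat_lit 19) (nat_lit 0x2e893a69b84d2265131a97c4b1251118c8b2458220cb305842bf8014006001)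 (nat_lit 0))) (L (E (nat_lit 11) (nat_lit 0x26912ec8c645922c11085982bf8014006001) (nat_lit 0))))))) (N (nat_lit 6123) (L (E (nat_lit 12) (nat_lit 0x2d51660b085802bf15f0ad85582a30014006001) (nat_lit 0))) (N (nat_lit 6126) (N (nat_lit 6125) (N (nat_lit 6124) (L (E (nat_lit 16) (nat_lit 0x4d226613209764b425892a689c24d0d0060023a09d0014006001) (nat_lit 0))) (L (E (nat_lit 19) (nat_lit 0x26e13509a44d1266131897e4b4259928c89c24d0d0060023a09d0014006001) (nat_lit 0)))) (L (E (nat_lit 6) (nat_lit 0x13469954b18014006001) (nat_lit 0)))) (N (nat_lit 6127) (L (E (nat_lit 5) (nat_lit 0x66332d192cc44604) (nat_lit 0))) (L (E (nat_lit 11) (nat_lit 0x367dab88aa32d128865423c0a50014006001) (nat_lit 0))))))) (cl122)) (cl123))) (N (nat_lit 6315) (cl125) (N (nat_lit 6385) (N (nat_lit 6363) (cl126) (N (nat_lit 6377) (N (nat_lit 6372) (N (nat_lit 6368) (N (nat_lit 6366) (N (nat_lit 6365) (N (nat_lit 6364) (L (E (nat_lit 20)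 (nat_lit 0x5df2e893509a44d125dd2b48ef46fa35115c89b440a1690986220a10014006001) (nat_lit 0))) (L (E (nat_lit 10) (nat_lit 0x13509a446322b91368822ac8014006001) (nat_lit 0)))) (L (E (nat_lit 7) (nat_lit 0x1604ae45592940014006001) (nat_lit 0)))) (N (nat_lit 6367) (L (E (nat_lit 16) (nat_lit 0x7a22a113549944c8a5f12ec8c13701604ab244a1a00014006001) (nat_lit 0))) (L (E (nat_lit 10) (nat_lit 0x13529a44bb22c115c8822ac8014006001) (nat_lit 0))))) (N (nat_lit 6369) (L (E (nat_lit 9) (nat_lit 0x9a446322b91368822ac8014006001) (nat_lit 0))) (N (nat_lit 6370) (L (E (nat_lit 8) (nat_lit 0x4d4a5dd15c89b4410014006001) (nat_lit 0))) (N (nat_lit 6371) (L (E (nat_lit 9) (nat_lit 0x8c6461230115c89b4410014006001) (nat_lit 0))) (L (E (nat_lit 13) (nat_lit 0x9aa4d426913449964c025dd2dc9564a30014006001) (nat_lit 0))))))) (N (nat_lit 6373) (L (E (nat_lit 8) (nat_lit 0x4d326913209674ab0014006001) (nat_lit 0))) (N (nat_lit 6375)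 (N (nat_lit 6374) (L (E (nat_lit 18) (nat_lit 0x14849bb4d726993309924c025f12ee95246322c916089c4410014006001) (nat_lit 0))) (L (E (nat_lit 21) (nat_lit 0x9b84d726a13449964be25e12ee95646323111648b044e2258b0255c2ac0014006001) (nat_lit 0)))) (N (nat_lit 6376) (L (E (nat_lit 21) (nat_lit 0x9ae4d426892ee8d846a23191888b245822b915489644222090bc5812ac0014006001) (nat_lit 0))) (L (E (nat_lit 27) (nat_lit 0x3701b38d646ac3531a4cc2c4e7269d31497748f23f91f48d846b235118c8ba458221910487a29c0014006001) (nat_lit 0))))))) (N (nat_lit 6384) (N (nat_lit 6381) (N (nat_lit 6379) (N (nat_lit 6378) (L (E (nat_lit 20) (nat_lit 0x55c2a494eca3a51328093a49a846e9730b245902c715c8ada53a29c0014006001) (nat_lit 0))) (L (E (nat_lit 21) (nat_lit 0xd9c6b22ff13729ab4d225dd2ac8d446222c915c89c44b1698afc55829c0014006001) (nat_lit 0)))) (N (nat_lit 6380) (L (E (nat_lit 21) (nat_lit 0xd644dc26d934897c4bba3f11b88d446222c91608ae45522591048752ac0014006001)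 (nat_lit 0))) (L (E (nat_lit 10) (nat_lit 0x1348977463230915c89b4410014006001) (nat_lit 0))))) (N (nat_lit 6383) (N (nat_lit 6382) (L (E (nat_lit 10) (nat_lit 0x13489a24bba31915c89b4410014006001) (nat_lit 0))) (L (E (nat_lit 18) (nat_lit 0x1f94dfe53618e0c0c60230017f8afc56a2ae1560aa823a09d0014006001) (nat_lit 0)))) (L (E (nat_lit 18) (nat_lit 0x1a649b44d1a5f12ee9674a3250913889633b1808bfc5582a20014006001) (nat_lit 0))))) (L (E (nat_lit 6) (nat_lit 0x12ee9664ab8014006001) (nat_lit 0)))))) (cl127)))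
def cl129 : RA := N (nat_lit 6457) (N (nat_lit 6441) (N (nat_lit 6436) (N (nat_lit 6433) (L (E (nat_lit 11) (nat_lit 0x1664b0057e2b715a8ab85582aa0014006001) (nat_lit 0))) (N (nat_lit 6435) (N (nat_lit 6434) (L (E (nat_lit 17) (nat_lit 0x9a84d226892f89784bb25d12cc8c04432208b325802b70014006001) (nat_lit 0))) (L (E (nat_lit 19) (nat_lit 0x26e134897c4bb25d12ce962463a30115c8922d61658b1c5722b68014006001) (nat_lit 0)))) (L (E (nat_lit 10) (nat_lit 0x13489a24bc25d915c89b4410014006001) (nat_lit 0))))) (N (nat_lit 6440) (N (nat_lit 6438) (N (nat_lit 6437) (L (E (nat_lit 21) (nat_lit 0x9c04d5268d32497c4bc25d91988c744322111045992c015b8ad455c2ac0014006001) (nat_lit 0))) (L (E (nat_lit 20) (nat_lit 0x4cf26292f89784bb25d12848864422208b305842c015f8adc5582a30014006001) (nat_lit 0)))) (N (nat_lit 6439) (L (E (nat_lit 13) (nat_lit 0x9a34be25d92ce8cc463a21910856d2ae0014006001) (nat_lit 0))) (L (E (nat_lit 13) (nat_lit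 0x9a84d1a5d52cc5982c21600adc56a2ac0014006001) (nat_lit 0))))) (L (E (nat_lit 9) (nat_lit 0x5cc2d51660b0856d2a10014006001) (nat_lit 0))))) (N (nat_lit 6448) (N (nat_lit 6447) (N (nat_lit 6443) (N (nat_lit 6442) (L (E (nat_lit 13) (nat_lit 0x9a84d1a5f12f09764b31660b0856d2ae0014006001) (nat_lit 0))) (L (E (nat_lit 10) (nat_lit 0x137c9a34be25e12cc9632d60014006001) (nat_lit 0)))) (N (nat_lit 6445) (N (nat_lit 6444) (L (E (nat_lit 13) (nat_lit 0xac652229094705c02d39664ada54429c8014006001) (nat_lit 0))) (L (E (nat_lit 13) (nat_lit 0x9a34be25e12ec9744b31664b0056e2ac0014006001) (nat_lit 0)))) (N (nat_lit 6446) (L (E (nat_lit 11) (nat_lit 0x268d2ea9662cc9600adc56c2ac0014006001) (nat_lit 0))) (L (E (nat_lit 12) (nat_lit 0x4d1a5f12f09764b31664b0056e2ac0014006001) (nat_lit 0)))))) (L (E (nat_lit 10) (nat_lit 0x134898c4bb22c91605802b60014006001) (nat_lit 0)))) (N (nat_lit 6453) (N (nat_lit 6451) (N (nat_lit 6450)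 (N (nat_lit 6449) (L (E (nat_lit 12) (nat_lit 0x4e9a68d3209784baa4091d85802b60014006001) (nat_lit 0))) (L (E (nat_lit 11) (nat_lit 0x268d2f89784bb2598b325802ac0014006001) (nat_lit 0)))) (L (E (nat_lit 9) (nat_lit 0x5992c015f8ad855c2ac0014006001) (nat_lit 0)))) (N (nat_lit 6452) (L (E (nat_lit 14) (nat_lit 0x13489764b123b91b88c646022c91088824400014006001) (nat_lit 0))) (L (E (nat_lit 22) (nat_lit 0x13749a44c625d92c491448823791348824401700b7c56d2a71528a8c5442990014006001) (nat_lit 0))))) (N (nat_lit 6454) (L (E (nat_lit 7) (nat_lit 0x1728b3256d2a38014006001) (nat_lit 0))) (N (nat_lit 6456) (N (nat_lit 6455) (L (E (nat_lit 7) (nat_lit 0x237916689e4418014006001) (nat_lit 0))) (L (E (nat_lit 20) (nat_lit 0x4d2264131897d4a4237118c8c044ea20d0d859628813d09cc4a423c0014006001) (nat_lit 0)))) (L (E (nat_lit 28) (nat_lit 0x4e2269131897d4a424111bc8c646022c113a88343c21b0b585aa2d41698b405962a5139894849623c0014006001)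 (nat_lit 0)))))))) (N (nat_lit 6462) (N (nat_lit 6458) (L (E (nat_lit 7) (nat_lit 0x23711628964400014006001) (nat_lit 0))) (N (nat_lit 6461) (N (nat_lit 6460) (N (nat_lit 6459) (L (E (nat_lit 41) (nat_lit 0xd3269227113709a44c625f52e495e4a425192088ee46f237118c8c045922c11068784362170d2466232b1920c3c5ac2d51698b405962a5139894849623c0014006001) (nat_lit 0))) (L (E (nat_lit 10) (nat_lit 0x13469784bb2598b325802ac0014006001) (nat_lit 0)))) (L (E (nat_lit 8) (nat_lit 0x4d1a5d92ce8c72c00014006001) (nat_lit 0)))) (L (E (nat_lit 10) (nat_lit 0x134897846fa31918089b4410014006001) (nat_lit 0))))) (N (nat_lit 6472) (N (nat_lit 6467) (N (nat_lit 6466) (N (nat_lit 6464) (N (nat_lit 6463) (L (E (nat_lit 13) (nat_lit 0x9a34c926292f09764b222c91348822c00014006001) (nat_lit 0))) (L (E (nat_lit 14) (nat_lit 0x13469924c525e12ec96446e23191648822c00014006001) (nat_lit 0)))) (N (nat_lit 6465) (L (E (nat_lit 13) (nat_lit 0x9c34d3268d2fe9764b39664b0056e2ac0014006001)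 (nat_lit 0))) (L (E (nat_lit 10) (nat_lit 0xb325802bf15b8ab85582aa0014006001) (nat_lit 0))))) (L (E (nat_lit 9) (nat_lit 0x9a34bc25d8b325802ac0014006001) (nat_lit 0)))) (N (nat_lit 6468) (L (E (nat_lit 7) (nat_lit 0x1664b0057e2ac8014006001) (nat_lit 0))) (N (nat_lit 6470) (N (nat_lit 6469) (L (E (nat_lit 13) (nat_lit 0x8ee471237d13859e2c015b8ad855d2a38014006001) (nat_lit 0))) (L (E (nat_lit 13) (nat_lit 0x9a44bc25d91be8b32cc9600afc56c2ae8014006001) (nat_lit 0)))) (N (nat_lit 6471) (L (E (nat_lit 13) (nat_lit 0x9a44d125e12ec8df4599664b0057e2ae8014006001) (nat_lit 0))) (L (E (nat_lit 9) (nat_lit 0x9c04dca6912fe9764b98014006001) (nat_lit 0))))))) (N (nat_lit 6479) (N (nat_lit 6475) (N (nat_lit 6474) (N (nat_lit 6473) (L (E (nat_lit 13) (nat_lit 0x9944be25cd2ce59c2b915b4ab854e2a40014006001) (nat_lit 0))) (L (E (nat_lit 11) (nat_lit 0x269134499c4cb26513189764b38014006001) (nat_lit 0)))) (L (E (nat_lit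 6) (nat_lit 0x137c9b84c8a6352fe003) (nat_lit 0)))) (N (nat_lit 6477) (N (nat_lit 6476) (L (E (nat_lit 25) (nat_lit 0xa8253ca99948ca2c4e026f93749b84d2264131497c4bb25d12ce94245999a8c8c6383190014006001) (nat_lit 0))) (L (E (nat_lit 26) (nat_lit 0x153ca6e531270137c9a44d125f12f09764ba237116685e32316b0b545a82d31658ab854a2520014006001) (nat_lit 0)))) (N (nat_lit 6478) (L (E (nat_lit 11) (nat_lit 0x26912f89784bb237d1665992b68014006001) (nat_lit 0))) (L (E (nat_lit 12) (nat_lit 0x4d225f12f097646fa2ccb325802bf0014006001) (nat_lit 0)))))) (N (nat_lit 6484) (N (nat_lit 6482) (N (nat_lit 6481) (N (nat_lit 6480) (L (E (nat_lit 19) (nat_lit 0x26e12f89784bb23791908c645a22c114089a2cc9600afc55c29a0014006001) (nat_lit 0))) (L (E (nat_lit 16) (nat_lit 0x4d225f12f097648b23791668a04389664b0057e2ae0014006001) (nat_lit 0)))) (L (E (nat_lit 13) (nat_lit 0x9a44d125f12f0976459a208b325802bf0014006001) (nat_lit 0)))) (N (nat_lit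 6483) (L (E (nat_lit 9) (nat_lit 0xa924bc25d8b8056d2ae8014006001) (nat_lit 0))) (L (E (nat_lit 17) (nat_lit 0x9b94d225f12f097646e23191648822e016a8b2c5802ae8014006001) (nat_lit 0))))) (N (nat_lit 6486) (N (nat_lit 6485) (L (E (nat_lit 12) (nat_lit 0x4d225e12ec8c64411664b0057e2ae8014006001) (nat_lit 0))) (L (E (nat_lit 21) (nat_lit 0xa4551ca8b14389c04cf26492fe9734a423bd1bc8c64592210c8c5a92cd0014006001) (nat_lit 0)))) (N (nat_lit 6488) (N (nat_lit 6487) (L (E (nat_lit 27) (nat_lit 0x2915472a2c50e270133c9924bfa5cd2908ef46f23191648844411918b585aa2d31668b2c55c2a50014006001) (nat_lit 0))) (L (E (nat_lit 12) (nat_lit 0x4dc26912f89784bb23191045992b68014006001) (nat_lit 0)))) (L (E (nat_lit 12) (nat_lit 0x4dc26912f89784bb2318b325802bf0014006001) (nat_lit 0)))))))))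
def cl130 : RA := N (nat_lit 6564) (N (nat_lit 6562) (N (nat_lit 6546) (N (nat_lit 6536) (N (nat_lit 6532) (N (nat_lit 6529) (N (nat_lit 6528) (N (nat_lit 6527) (L (E (nat_lit 17) (nat_lit 0xc346183051814c085f22f0976c8dc45922b913889a4418014006001) (nat_lit 0))) (L (E (nat_lit 24) (nat_lit 0x60a3029810be44e126e93489a24bb25a92d08ef45922c115c89a44196b0b385722ae0014006001) (nat_lit 0)))) (L (E (nat_lit 15) (nat_lit 0x26e53489784bb25d11b88c6459220cb5859c2b90014006001) (nat_lit 0)))) (N (nat_lit 6531) (N (nat_lit 6530) (L (E (nat_lit 8) (nat_lit 0x462a27d10686242f0014006001) (nat_lit 0))) (L (E (nat_lit 9) (nat_lit 0x8ee46122cd13e8954418014006001) (nat_lit 0)))) (L (E (nat_lit 12) (nat_lit 0x4d225f12f09764ba237d1668924418014006001) (nat_lit 0))))) (N (nat_lit 6533) (L (E (nat_lit 7) (nat_lit 0x1664b265802b60014006001) (nat_lit 0))) (N (nat_lit 6535) (N (nat_lit 6534) (L (E (nat_lit 28) (nat_lit 0x8b130197989d34e026e134c9a44d126512f29422ed1730b305802bf15b0abc54629c12e09684aa2240014006001)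 (nat_lit 0))) (L (E (nat_lit 13) (nat_lit 0x9a64d226892f29632cd15c0a945482a30014006001) (nat_lit 0)))) (L (E (nat_lit 26) (nat_lit 0x22c4c065e6274d3809b84d326913449944bca508bb45a62c015f8aba54629c12e09684aa2240014006001) (nat_lit 0)))))) (N (nat_lit 6541) (N (nat_lit 6538) (N (nat_lit 6537) (L (E (nat_lit 27) (nat_lit 0x458980cbcc4e026e134c9a44d126512f29764a11768b4c59a2bf1574ab054629c12e09684aa2240014006001) (nat_lit 0))) (L (E (nat_lit 11) (nat_lit 0x269934497c4bc9604ae455c2a30014006001) (nat_lit 0)))) (N (nat_lit 6540) (N (nat_lit 6539) (L (E (nat_lit 18) (nat_lit 0x14f49d24d326912f8979460a27110c5a62cc1600af856c2a30014006001) (nat_lit 0))) (L (E (nat_lit 14) (nat_lit 0x13a69a64d226892f25da2d41660afc56f2a48014006001) (nat_lit 0)))) (L (E (nat_lit 26) (nat_lit 0x22c4bcc4e026e134c9a44ca25f12f2942460a27110c5da2d31668ae456c2a314e09704aa2240014006001) (nat_lit 0))))) (N (nat_lit 6544) (N (nat_lit 6543)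 (N (nat_lit 6542) (L (E (nat_lit 12) (nat_lit 0x4e9a6a52f89682ed16e4b345982b68014006001) (nat_lit 0))) (L (E (nat_lit 20) (nat_lit 0x6032f313509a44d126313149884bc9668a8c4b825a12a89484862350014006001) (nat_lit 0)))) (L (E (nat_lit 28) (nat_lit 0x6032f313bc9ce4d426993489a24bca598d0464c2cd1570a9454628113809704b4255129090c46a1640014006001) (nat_lit 0)))) (N (nat_lit 6545) (L (E (nat_lit 9) (nat_lit 0x80e4059fe8fe27de3db0014006001) (nat_lit 0))) (L (E (nat_lit 33) (nat_lit 0xc065e627a13bc9d34dda6992f89794bb259928493a49c24c11a680e3261768b4c59a2b694089704b425512188d44581640014006001) (nat_lit 0))))))) (N (nat_lit 6551) (N (nat_lit 6549) (N (nat_lit 6548) (N (nat_lit 6547) (L (E (nat_lit 35) (nat_lit 0x45897989de4e627013709a64d226512f89794ab25092608d3460a27110c80e3261768b4c59a2b91518a7050225c12a890c46a2240014006001) (nat_lit 0))) (L (E (nat_lit 10) (nat_lit 0x134897c4ba22cd13c8954418014006001) (nat_lit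 0)))) (L (E (nat_lit 8) (nat_lit 0x46122cd13e8954418014006001) (nat_lit 0)))) (N (nat_lit 6550) (L (E (nat_lit 17) (nat_lit 0xe1a4699b80bb25d22e116e4b5c59a2c515c4ada3401790014006001) (nat_lit 0))) (L (E (nat_lit 23) (nat_lit 0x3869544a784699b80bb25d22e116b8b4c59a2c51600afc5712ac1518a843401790014006001) (nat_lit 0))))) (N (nat_lit 6557) (N (nat_lit 6554) (N (nat_lit 6553) (N (nat_lit 6552) (L (E (nat_lit 31) (nat_lit 0x3869508a7853228f94589cb4699b80d5c5d22e41708b6c5ae2d31668b145842bf15e0ab05462a114d08583401790014006001) (nat_lit 0))) (L (E (nat_lit 22) (nat_lit 0x180cbcc5dd26993489884bea5e52ac8d32e41708b6c5a62cd1628afc5462160014006001) (nat_lit 0)))) (L (E (nat_lit 9) (nat_lit 0x9d34dca6a52e894249a0014006001) (nat_lit 0)))) (N (nat_lit 6556) (N (nat_lit 6555) (L (E (nat_lit 9) (nat_lit 0x9a44bb25d11668924418014006001) (nat_lit 0))) (L (E (nat_lit 8) (nat_lit 0x2ce1668b2456d2aa0014006001) (nat_lit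 0)))) (L (E (nat_lit 15) (nat_lit 0x26e53489632d51698b3859a2c81598ab05542a30014006001) (nat_lit 0))))) (N (nat_lit 6560) (N (nat_lit 6559) (N (nat_lit 6558) (L (E (nat_lit 15) (nat_lit 0x30917f4bbd4f3a7393849b84db25e12cc9634ab0014006001) (nat_lit 0))) (L (E (nat_lit 23) (nat_lit 0x30917f4bbd4f3a7393849b64d225e12cc9634ab16a8b4c59c2c81598ab05542a30014006001) (nat_lit 0)))) (L (E (nat_lit 8) (nat_lit 0x4d225d92e88b34418014006001) (nat_lit 0)))) (N (nat_lit 6561) (L (E (nat_lit 7) (nat_lit 0x26913449794ba8014006001) (nat_lit 0))) (L (E (nat_lit 7) (nat_lit 0x26912ec8b34418014006001) (nat_lit 0)))))))) (N (nat_lit 6563) (L (E (nat_lit 10) (nat_lit 0x134c9a24bba598b4c5582a30014006001) (nat_lit 0))) (L (E (nat_lit 8) (nat_lit 0x2d51604ae45582a30014006001) (nat_lit 0))))) (N (nat_lit 6570) (N (nat_lit 6569) (N (nat_lit 6567) (N (nat_lit 6566) (N (nat_lit 6565) (L (E (nat_lit 21) (nat_lit 0xe885fb2f814d4a46522286115c8963301930c6c6002b715b0ab04971830014006001)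 (nat_lit 0))) (L (E (nat_lit 30) (nat_lit 0x22c4c245fd2e913989b64d1a6513229884bba59929c8f244b1f48f8c64c3001698b0056c2ac155090c4480930014006001) (nat_lit 0)))) (L (E (nat_lit 11) (nat_lit 0x3db988cc0a5fb274939c5af1db0014006001) (nat_lit 0)))) (N (nat_lit 6568) (L (E (nat_lit 37) (nat_lit 0x11626ce30c1858c246052fe97489ce4e626d934c9944c425dd2cc94e4792258fa47c632618e8c005ce2d51698ae456c2ac1550a8c4862240014006001) (nat_lit 0))) (L (E (nat_lit 39) (nat_lit 0x4589b38c306163091814bfa5d227393989b64d326513109774b325391e48963e91f18c9863a3001738b545a62ce1668ae45582aa1518a704862240014006001) (nat_lit 0))))) (L (E (nat_lit 6) (nat_lit 0x13488b34418014006001) (nat_lit 0)))) (N (nat_lit 6571) (L (E (nat_lit 6) (nat_lit 0x134a9774b30014006001) (nat_lit 0))) (N (nat_lit 6572) (L (E (nat_lit 13) (nat_lit 0x9a64c825f92f09764b122cd10659b2b68014006001) (nat_lit 0))) (L (E (nat_lit 11) (nat_lit 0x16a8b345982c91610ae456d2a48014006001)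 (nat_lit 0))))))
def cl131 : RA := N (nat_lit 6603) (N (nat_lit 6579) (N (nat_lit 6574) (L (E (nat_lit 11) (nat_lit 0x27493729a84d2a6512f09664a38014006001) (nat_lit 0))) (N (nat_lit 6577) (N (nat_lit 6576) (N (nat_lit 6575) (L (E (nat_lit 14) (nat_lit 0x13a49b94bc251d1668832dc96a8b3456d2a48014006001) (nat_lit 0))) (L (E (nat_lit 16) (nat_lit 0x50227993809724b296e4b325802bf15b8ad45582a48014006001) (nat_lit 0)))) (L (E (nat_lit 15) (nat_lit 0x1440a084f427913889a84d026713009744b82430014006001) (nat_lit 0)))) (N (nat_lit 6578) (L (E (nat_lit 9) (nat_lit 0x978459a20cb545a62b68014006001) (nat_lit 0))) (L (E (nat_lit 10) (nat_lit 0x11ac8c2459a20cb4e57e2b50014006001) (nat_lit 0)))))) (N (nat_lit 6591) (N (nat_lit 6586) (N (nat_lit 6582) (N (nat_lit 6580) (L (E (nat_lit 7) (nat_lit 0x25e11668832b68014006001) (nat_lit 0))) (N (nat_lit 6581) (L (E (nat_lit 8) (nat_lit 0x46122cd1065ab2b68014006001) (nat_lit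 0))) (L (E (nat_lit 13) (nat_lit 0x9ba4d125f92f28c2459a20cb2656d2a48014006001) (nat_lit 0))))) (N (nat_lit 6584) (N (nat_lit 6583) (L (E (nat_lit 9) (nat_lit 0x8b34419660b2456d2aa8014006001) (nat_lit 0))) (L (E (nat_lit 12) (nat_lit 0x4bca2cd1065aa2cd1660b2456d2a48014006001) (nat_lit 0)))) (N (nat_lit 6585) (L (E (nat_lit 12) (nat_lit 0x4fb26f93549a84d126512fc9794b40014006001) (nat_lit 0))) (L (E (nat_lit 15) (nat_lit 0x26a934497e4bca2cd10664a2d51668b2456d2a48014006001) (nat_lit 0)))))) (N (nat_lit 6588) (N (nat_lit 6587) (L (E (nat_lit 7) (nat_lit 0x22cd10656d2a48014006001) (nat_lit 0))) (L (E (nat_lit 7) (nat_lit 0x23091668832b68014006001) (nat_lit 0)))) (N (nat_lit 6590) (N (nat_lit 6589) (L (E (nat_lit 13) (nat_lit 0xaa253d29814989de4da26a534a9862d60014006001) (nat_lit 0))) (L (E (nat_lit 8) (nat_lit 0x4bca2cd10656e2aa8014006001) (nat_lit 0)))) (L (E (nat_lit 12) (nat_lit 0x4e927393989a84d2a6513189884bc8014006001)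 (nat_lit 0)))))) (N (nat_lit 6596) (N (nat_lit 6594) (N (nat_lit 6592) (L (E (nat_lit 10) (nat_lit 0x1570ab655aaa41500a6a5280014006001) (nat_lit 0))) (N (nat_lit 6593) (L (E (nat_lit 19) (nat_lit 0x2a894d4a504f026a131897946fa3591668904419978c845ce2e50014006001) (nat_lit 0))) (L (E (nat_lit 12) (nat_lit 0x4dd26892f28c2459a20cb0057e2b70014006001) (nat_lit 0))))) (N (nat_lit 6595) (L (E (nat_lit 8) (nat_lit 0x476230116689e4418014006001) (nat_lit 0))) (L (E (nat_lit 7) (nat_lit 0x25e51668832b70014006001) (nat_lit 0))))) (N (nat_lit 6599) (N (nat_lit 6597) (L (E (nat_lit 8) (nat_lit 0x459a20cadc56c2ac0014006001) (nat_lit 0))) (N (nat_lit 6598) (L (E (nat_lit 8) (nat_lit 0x4bc22cd10656c2ac0014006001) (nat_lit 0))) (L (E (nat_lit 7) (nat_lit 0x27093529a54bc8014006001) (nat_lit 0))))) (N (nat_lit 6601) (N (nat_lit 6600) (L (E (nat_lit 7) (nat_lit 0x25e51808b34418014006001) (nat_lit 0))) (L (E (nat_lit 11)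 (nat_lit 0x274939c9cc4d426953289884bc8014006001) (nat_lit 0)))) (N (nat_lit 6602) (L (E (nat_lit 13) (nat_lit 0x68232618e0b9c5932b795a89a04a82430014006001) (nat_lit 0))) (L (E (nat_lit 20) (nat_lit 0x4e727313809b44d426953289884bc9930b3857e2b795189a04aa2430014006001) (nat_lit 0))))))))) (N (nat_lit 6604) (L (E (nat_lit 5) (nat_lit 0x8b34418014006001) (nat_lit 0))) (N (nat_lit 6610) (N (nat_lit 6609) (N (nat_lit 6606) (N (nat_lit 6605) (L (E (nat_lit 9) (nat_lit 0x8c2460a2cd15c89f4310014006001) (nat_lit 0))) (L (E (nat_lit 9) (nat_lit 0x8c2459a2b912c5932c00014006001) (nat_lit 0)))) (N (nat_lit 6607) (L (E (nat_lit 9) (nat_lit 0x9d04d4a6952cc9584a10014006001) (nat_lit 0))) (N (nat_lit 6608) (L (E (nat_lit 19) (nat_lit 0x36414a89d04d2a6512f296847f23a912065c31b1850ad64aa2530014006001) (nat_lit 0))) (L (E (nat_lit 13) (nat_lit 0x9f64e826e93549a84d126512fc9794b40014006001) (nat_lit 0)))))) (L (E (nat_lit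 9) (nat_lit 0x5aa2c015fcad854729d0014006001) (nat_lit 0)))) (N (nat_lit 6614) (N (nat_lit 6612) (N (nat_lit 6611) (L (E (nat_lit 15) (nat_lit 0x4588d0c6803391978cb86503271930c9464831b0014006001) (nat_lit 0))) (L (E (nat_lit 21) (nat_lit 0x11623491a00ce465c3261928c785b82ce15fcae456f2ae1550a9454829d0014006001) (nat_lit 0)))) (N (nat_lit 6613) (L (E (nat_lit 8) (nat_lit 0x4d2a5e516689e2b78014006001) (nat_lit 0))) (L (E (nat_lit 11) (nat_lit 0x27d93749a84d126512fc9794ad0014006001) (nat_lit 0))))) (L (E (nat_lit 7) (nat_lit 0x2b1952ea8453f0014006001) (nat_lit 0))))))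
def cl132 : RA := N (nat_lit 6526) (N (nat_lit 6489) (cl129) (N (nat_lit 6516) (N (nat_lit 6491) (N (nat_lit 6490) (L (E (nat_lit 8) (nat_lit 0x2cc9600afc56c2ae0014006001) (nat_lit 0))) (L (E (nat_lit 12) (nat_lit 0x4d225f12f09764632208b325802bf0014006001) (nat_lit 0)))) (N (nat_lit 6501) (N (nat_lit 6496) (N (nat_lit 6492) (L (E (nat_lit 7) (nat_lit 0x1664ada5502a38014006001) (nat_lit 0))) (N (nat_lit 6494) (N (nat_lit 6493) (L (E (nat_lit 10) (nat_lit 0x13ae8de4632208b345842a30014006001) (nat_lit 0))) (L (E (nat_lit 19) (nat_lit 0x34a13809a64d2268932c9804bea5e12ac8b12cc9600adc55e2a30014006001) (nat_lit 0)))) (N (nat_lit 6495) (L (E (nat_lit 25) (nat_lit 0xd2853527393809a64d226593009784bb25592908de46322c915c8822cc9600afc55e2a80014006001) (nat_lit 0))) (L (E (nat_lit 15) (nat_lit 0x26e53489784bb23191648822cc9600afc55e2a10014006001) (nat_lit 0)))))) (N (nat_lit 6497) (L (E (nat_lit 7) (nat_lit 0x25f92ce9634ab0014006001)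 (nat_lit 0))) (N (nat_lit 6499) (N (nat_lit 6498) (L (E (nat_lit 16) (nat_lit 0x4d225f92ec96a4b3a37d16489a2cb1610b0056e2a10014006001) (nat_lit 0))) (L (E (nat_lit 18) (nat_lit 0x134897e4bb25a92ce8dc46322c91348712d99670ae456d2ae0014006001) (nat_lit 0)))) (N (nat_lit 6500) (L (E (nat_lit 9) (nat_lit 0x8f346322c113a8844410014006001) (nat_lit 0))) (L (E (nat_lit 18) (nat_lit 0x13489944bf25d92d496746f23191648b044d1664ae456d2ae0014006001) (nat_lit 0))))))) (N (nat_lit 6506) (N (nat_lit 6502) (L (E (nat_lit 10) (nat_lit 0x13a49be4d226512fc9764b38014006001) (nat_lit 0))) (N (nat_lit 6504) (N (nat_lit 6503) (L (E (nat_lit 15) (nat_lit 0x26912f097646322c91045be2cc9638b0057e2af0014006001) (nat_lit 0))) (L (E (nat_lit 19) (nat_lit 0x27a13a09be4d125d12c88de46e22cd13c8822e91730b345842a30014006001) (nat_lit 0)))) (N (nat_lit 6505) (L (E (nat_lit 11) (nat_lit 0x249122890848323b91d88df4598014006001) (nat_lit 0)))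 (L (E (nat_lit 14) (nat_lit 0x13a69b94d226012fa96746fa2ccb7c5ac2ce0014006001) (nat_lit 0)))))) (N (nat_lit 6511) (N (nat_lit 6508) (N (nat_lit 6507) (L (E (nat_lit 10) (nat_lit 0x11dc8df461a2cd12486c42d0014006001) (nat_lit 0))) (L (E (nat_lit 16) (nat_lit 0x4c8a5f52ec9644a923f11b08c2459a21110485e42d0014006001) (nat_lit 0)))) (N (nat_lit 6510) (N (nat_lit 6509) (L (E (nat_lit 16) (nat_lit 0x4d225f52ec9674ab237d1848b34492168b3256d2a48014006001) (nat_lit 0))) (L (E (nat_lit 19) (nat_lit 0x26912fa9764b3a5591dc8df459a24910888242d1664ada5462a10014006001) (nat_lit 0)))) (L (E (nat_lit 13) (nat_lit 0x9d34dc26012fa9674aba37d16689242d0014006001) (nat_lit 0))))) (N (nat_lit 6514) (N (nat_lit 6513) (N (nat_lit 6512) (L (E (nat_lit 20) (nat_lit 0x4e9a6e13489804bea5d92ce8df459a24910888242d1664ada5462a10014006001) (nat_lit 0))) (L (E (nat_lit 12) (nat_lit 0x4d225f92d496746fa2cd10a5802b70014006001) (nat_lit 0))))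 (L (E (nat_lit 20) (nat_lit 0x4d225f52ec96746fa2cd12488444116f8b325782b69548a905462a10014006001) (nat_lit 0)))) (N (nat_lit 6515) (L (E (nat_lit 21) (nat_lit 0x9a44bea5d92ce956477237d1848b34492210b7c5992c715e0ada5522a10014006001) (nat_lit 0))) (L (E (nat_lit 21) (nat_lit 0x9a44bea5d92ce8ee46fa3091668924422208b7c5992c715e0ada5522a10014006001) (nat_lit 0))))))))) (N (nat_lit 6523) (N (nat_lit 6519) (N (nat_lit 6518) (N (nat_lit 6517) (L (E (nat_lit 20) (nat_lit 0x4d226892fa9764ba259d16689e4491730b7c5992c715e0ada5522a10014006001) (nat_lit 0))) (L (E (nat_lit 16) (nat_lit 0x4dca6912ec97449a23611848b3457221110486642f0014006001) (nat_lit 0)))) (L (E (nat_lit 7) (nat_lit 0x22d11388854300014006001) (nat_lit 0)))) (N (nat_lit 6522) (N (nat_lit 6521) (N (nat_lit 6520) (L (E (nat_lit 20) (nat_lit 0x4dca6912ec97449a237d1668ae449221110486032f1898b2c55c2a50014006001) (nat_lit 0))) (L (E (nat_lit 18) (nat_lit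 0x13489a24c025f52f09764ba259916689e4492208b585962a50014006001) (nat_lit 0)))) (L (E (nat_lit 11) (nat_lit 0x26912f09764632208b325802bf0014006001) (nat_lit 0)))) (L (E (nat_lit 10) (nat_lit 0x13489784bb2208b325802bf0014006001) (nat_lit 0))))) (N (nat_lit 6525) (N (nat_lit 6524) (L (E (nat_lit 7) (nat_lit 0x231d1348832cb0014006001) (nat_lit 0))) (L (E (nat_lit 10) (nat_lit 0x13729a44bfa5d91b88c64590014006001) (nat_lit 0)))) (L (E (nat_lit 6) (nat_lit 0xb3256d2aa0014006001) (nat_lit 0))))))) (N (nat_lit 6573) (cl130) (cl131))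
def cl133 : RA := N (nat_lit 6631) (N (nat_lit 6625) (N (nat_lit 6623) (N (nat_lit 6619) (N (nat_lit 6618) (N (nat_lit 6616) (L (E (nat_lit 7) (nat_lit 0x26952f28b32b78014006001) (nat_lit 0))) (N (nat_lit 6617) (L (E (nat_lit 8) (nat_lit 0x48c22cd15089f44a8014006001) (nat_lit 0))) (L (E (nat_lit 10) (nat_lit 0x13a29a94d2a5e516689f2bf0014006001) (nat_lit 0))))) (L (E (nat_lit 10) (nat_lit 0x13ac9d04e726d134a99e4ba0014006001) (nat_lit 0)))) (N (nat_lit 6622) (N (nat_lit 6621) (N (nat_lit 6620) (L (E (nat_lit 15) (nat_lit 0x27453529a54bca4611a88b3454227cb2056c29d0014006001) (nat_lit 0))) (L (E (nat_lit 15) (nat_lit 0x37e17e6a8443821a8dc05842c015b8ad655822c0014006001) (nat_lit 0)))) (L (E (nat_lit 8) (nat_lit 0x4d4a6952f28b32b60014006001) (nat_lit 0)))) (L (E (nat_lit 7) (nat_lit 0x26fd34a9944bc8014006001) (nat_lit 0))))) (N (nat_lit 6624) (L (E (nat_lit 10) (nat_lit 0x22c50046d72314c8e6223090014006001)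 (nat_lit 0))) (L (E (nat_lit 6) (nat_lit 0x11848b342a8014006001) (nat_lit 0))))) (N (nat_lit 6629) (N (nat_lit 6626) (L (E (nat_lit 6) (nat_lit 0x113e87842a0014006001) (nat_lit 0))) (N (nat_lit 6628) (N (nat_lit 6627) (L (E (nat_lit 13) (nat_lit 0xa044df26953149794a9253d16689e2b60014006001) (nat_lit 0))) (L (E (nat_lit 8) (nat_lit 0x4d426952f28b342a0014006001) (nat_lit 0)))) (L (E (nat_lit 14) (nat_lit 0x1e34b583f41f80b545992c21600adc55d2aa8014006001) (nat_lit 0))))) (N (nat_lit 6630) (L (E (nat_lit 6) (nat_lit 0x134a9794598014006001) (nat_lit 0))) (L (E (nat_lit 11) (nat_lit 0x27452f28f246c23511668952b68014006001) (nat_lit 0)))))) (N (nat_lit 6648) (N (nat_lit 6640) (N (nat_lit 6634) (N (nat_lit 6632) (L (E (nat_lit 8) (nat_lit 0x4e9a6e93529a44c80014006001) (nat_lit 0))) (N (nat_lit 6633) (L (E (nat_lit 19) (nat_lit 0x27493a09ba4d4a6912f28f246122c110488043f2188ae456d2aa8014006001) (nat_lit 0)))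 (L (E (nat_lit 18) (nat_lit 0x13a09ba4d4a6912f28f246122691048804311668ae456d2550014006001) (nat_lit 0))))) (N (nat_lit 6636) (N (nat_lit 6635) (L (E (nat_lit 8) (nat_lit 0x2d71668b0856d2aa0014006001) (nat_lit 0))) (L (E (nat_lit 16) (nat_lit 0x7f838691a68c83701728b5c5992bc15b4aa43401790014006001) (nat_lit 0)))) (N (nat_lit 6638) (N (nat_lit 6637) (L (E (nat_lit 13) (nat_lit 0x9d24dda6a52f28c845e1668ae456d2a50014006001) (nat_lit 0))) (L (E (nat_lit 11) (nat_lit 0x2a613ae8c833012f06602500a70014006001) (nat_lit 0)))) (N (nat_lit 6639) (L (E (nat_lit 24) (nat_lit 0x54ba8e93d09a94cc26313049764b21ab8cc05a82ce1658ad455c2a51520a6842c1980014006001) (nat_lit 0))) (L (E (nat_lit 13) (nat_lit 0x9d04d4a5e51848bc459a2850c459a2b68014006001) (nat_lit 0))))))) (N (nat_lit 6645) (N (nat_lit 6644) (N (nat_lit 6642) (N (nat_lit 6641) (L (E (nat_lit 14) (nat_lit 0x11dc8df46122cd12c88043f16a8b0856d2ae8014006001) (nat_lit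 0))) (L (E (nat_lit 17) (nat_lit 0x9ea4e026a132897944122010fc5aa2d41610ae456d2ae0014006001) (nat_lit 0)))) (N (nat_lit 6643) (L (E (nat_lit 14) (nat_lit 0x13d49d34d425e51be8c2459a2010fc5842b68014006001) (nat_lit 0))) (L (E (nat_lit 16) (nat_lit 0x4f5274139c9be4d425e51be8c2459a2010fc5842b68014006001) (nat_lit 0))))) (L (E (nat_lit 7) (nat_lit 0x26fd3489a24bc8014006001) (nat_lit 0)))) (N (nat_lit 6647) (N (nat_lit 6646) (L (E (nat_lit 13) (nat_lit 0x9ce4df26a12f28b34452200b525802b70014006001) (nat_lit 0))) (L (E (nat_lit 10) (nat_lit 0x13a49d04e726f93509944bc8014006001) (nat_lit 0)))) (L (E (nat_lit 11) (nat_lit 0x23b91be8c2459a21110087e4310014006001) (nat_lit 0)))))) (N (nat_lit 6652) (N (nat_lit 6650) (N (nat_lit 6649) (L (E (nat_lit 17) (nat_lit 0x9bb4d425e51e48df46122d916689e44522010fc8622b68014006001) (nat_lit 0))) (L (E (nat_lit 9) (nat_lit 0x9ba4d2264110a5802b70014006001) (nat_lit 0)))) (N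 (nat_lit 6651) (L (E (nat_lit 10) (nat_lit 0x12f28df46122cd1428952b68014006001) (nat_lit 0))) (L (E (nat_lit 12) (nat_lit 0x2c91618b085802bf15b8ad85662ac0014006001) (nat_lit 0))))) (N (nat_lit 6659) (N (nat_lit 6654) (N (nat_lit 6653) (L (E (nat_lit 8) (nat_lit 0x2bf95e0acc5552980014006001) (nat_lit 0))) (L (E (nat_lit 19) (nat_lit 0x2a514f4a3a4e026a13289904c52598b4e57f2bd15b8acc5582980014006001) (nat_lit 0)))) (N (nat_lit 6657) (N (nat_lit 6656) (N (nat_lit 6655) (L (E (nat_lit 14) (nat_lit 0x13a69a84bca37d1848b344aa188b0056e2b60014006001) (nat_lit 0))) (L (E (nat_lit 14) (nat_lit 0x135097946fa3091668a144aa188b0056e2b60014006001) (nat_lit 0)))) (L (E (nat_lit 17) (nat_lit 0xfb26c83581a949bf4411670b345922b794e8a705342430014006001) (nat_lit 0)))) (N (nat_lit 6658) (L (E (nat_lit 13) (nat_lit 0x5c02db96a0b3859a2c915f8ae456f2b50014006001) (nat_lit 0))) (L (E (nat_lit 19) (nat_lit 0x36413a49a84d326913289794b422d913c8822d41668b245722b78014006001)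 (nat_lit 0)))))) (N (nat_lit 6663) (N (nat_lit 6661) (N (nat_lit 6660) (L (E (nat_lit 16) (nat_lit 0x4df26a134c9a44ca25e52d05aa2c21600ae456f2b58014006001) (nat_lit 0))) (L (E (nat_lit 16) (nat_lit 0x4df26a134c9a44ca25e52d05aa2d41610afc5722b78014006001) (nat_lit 0)))) (N (nat_lit 6662) (L (E (nat_lit 19) (nat_lit 0x26f93509a64d226512f29682d516a0b245802bf15c8ade56c2ac0014006001) (nat_lit 0))) (L (E (nat_lit 10) (nat_lit 0xb585aa2d41614ade52a2900014006001) (nat_lit 0))))) (N (nat_lit 6665) (N (nat_lit 6664) (L (E (nat_lit 11) (nat_lit 0x26a12f28df459a28512a5802b60014006001) (nat_lit 0))) (L (E (nat_lit 23) (nat_lit 0x29e94cca2a4e026a12cc5e82ed1748b745b72d516a0b3c5962bf15b8ad856a2b30014006001) (nat_lit 0)))) (N (nat_lit 6667) (N (nat_lit 6666) (L (E (nat_lit 22) (nat_lit 0x13a69bb4d426992f2968475234118c8ba44821d10e05a82cf1668b085812b90014006001) (nat_lit 0))) (L (E (nat_lit 14) (nat_lit 0x13a69a84bca2d916689e44aa188b505842c08014006001)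 (nat_lit 0)))) (L (E (nat_lit 14) (nat_lit 0x13f09be4d425e516c8b344f2254b505842c08014006001) (nat_lit 0)))))))))
def cl134 : RA := N (nat_lit 6720) (N (nat_lit 6714) (N (nat_lit 6712) (N (nat_lit 6707) (L (E (nat_lit 7) (nat_lit 0x23b918a8b344f8014006001) (nat_lit 0))) (N (nat_lit 6710) (N (nat_lit 6709) (N (nat_lit 6708) (L (E (nat_lit 19) (nat_lit 0x2a593a49bb4d4a62d2f2963477231116c8b0441165cade4a22480014006001) (nat_lit 0))) (L (E (nat_lit 13) (nat_lit 0x106882ebdd1c44db26172ae51fe82a16e0014006001) (nat_lit 0)))) (L (E (nat_lit 45) (nat_lit 0x1068563294140c9e74dc26a534898c4bca58d25092248f245922491048323b91d48e8467a3311888b64582209054806322165caf856f264128892039a1c70b6854c2a40a50014006001) (nat_lit 0)))) (N (nat_lit 6711) (L (E (nat_lit 32) (nat_lit 0x56329914a0a064ef267931897e4bca44920c8ee459a0b904c7e83f31f00c886322cb9648af856f2a214d090c39a1520014006001) (nat_lit 0))) (L (E (nat_lit 14) (nat_lit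 0x12f2912459a0b8b945ba2cb9610afc57c2b78014006001) (nat_lit 0)))))) (N (nat_lit 6713) (L (E (nat_lit 7) (nat_lit 0x1fc4f8c7b43ca0014006001) (nat_lit 0))) (L (E (nat_lit 8) (nat_lit 0x4bca2ccb545842b78014006001) (nat_lit 0))))) (N (nat_lit 6715) (L (E (nat_lit 8) (nat_lit 0x2d516a0b0a57f2b78014006001) (nat_lit 0))) (N (nat_lit 6718) (N (nat_lit 6717) (N (nat_lit 6716) (L (E (nat_lit 8) (nat_lit 0x459a2b912c5932c00014006001) (nat_lit 0))) (L (E (nat_lit 18) (nat_lit 0x13a69a44bca3611848b22dc96d0b545a82c81614af856f2a50014006001) (nat_lit 0)))) (L (E (nat_lit 16) (nat_lit 0x4e9a69134497946c23091648622cb964cb0a56f2a50014006001) (nat_lit 0)))) (N (nat_lit 6719) (L (E (nat_lit 14) (nat_lit 0x137098a4b923611848ae2dd965cb0c5722940014006001) (nat_lit 0))) (L (E (nat_lit 10) (nat_lit 0x13a6979441165cb0a57e2b78014006001) (nat_lit 0))))))) (N (nat_lit 6736) (N (nat_lit 6728) (N (nat_lit 6724) (N (nat_lit 6722)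 (N (nat_lit 6721) (L (E (nat_lit 16) (nat_lit 0x53229514a0a384e9a69531897945922b915464431b0014006001) (nat_lit 0))) (L (E (nat_lit 17) (nat_lit 0x9d34d4269134499e4c625e51bc8c645e227112488242e0014006001) (nat_lit 0)))) (N (nat_lit 6723) (L (E (nat_lit 12) (nat_lit 0x4e9a5e518c8c2441165cafc5722b78014006001) (nat_lit 0))) (L (E (nat_lit 11) (nat_lit 0x23b91a88c2458a2a912c8944490014006001) (nat_lit 0))))) (N (nat_lit 6726) (N (nat_lit 6725) (L (E (nat_lit 11) (nat_lit 0x23b91a88c245a22c512c8924410014006001) (nat_lit 0))) (L (E (nat_lit 16) (nat_lit 0x4fb27793a69a94d225e52e88c245922b91248822b60014006001) (nat_lit 0)))) (N (nat_lit 6727) (L (E (nat_lit 17) (nat_lit 0x9e64ef26912f291447723191888c245922c115c5802b60014006001) (nat_lit 0))) (L (E (nat_lit 19) (nat_lit 0x29513bc9dc4e9a6a13489944c826292cc96446122c512a8824310014006001) (nat_lit 0)))))) (N (nat_lit 6733) (N (nat_lit 6731) (N (nat_lit 6730) (N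 (nat_lit 6729) (L (E (nat_lit 18) (nat_lit 0x1b1ca7e53229514549bb4d4265132498d4bf25f12f29724a20014006001) (nat_lit 0))) (L (E (nat_lit 25) (nat_lit 0xab853f29914b0a5451527793a69a84d2265131a97946122c51248823f31f78f505b82c00014006001) (nat_lit 0)))) (L (E (nat_lit 31) (nat_lit 0x2ae14fca6452c29514549f64ef274d3489944bca5d12288c646223091648ae44f22491047e63ef1ea0b705802b60014006001) (nat_lit 0)))) (N (nat_lit 6732) (L (E (nat_lit 12) (nat_lit 0x4e9a5e518c8c44612208b2e57e2b78014006001) (nat_lit 0))) (L (E (nat_lit 11) (nat_lit 0x274d2f28c64622208b2e57e2b78014006001) (nat_lit 0))))) (N (nat_lit 6735) (N (nat_lit 6734) (L (E (nat_lit 8) (nat_lit 0x4bca31d15c8822b60014006001) (nat_lit 0))) (L (E (nat_lit 11) (nat_lit 0x23b91b88c646222c915c8964308014006001) (nat_lit 0)))) (L (E (nat_lit 9) (nat_lit 0x9d34bca3111045972b78014006001) (nat_lit 0)))))) (N (nat_lit 6741) (N (nat_lit 6738) (N (nat_lit 6737) (L (E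 (nat_lit 14) (nat_lit 0x13a49794b923b918c8c245922c115c8844410014006001) (nat_lit 0))) (L (E (nat_lit 13) (nat_lit 0x9d24d2a5e51dc8c646222c91608ae4410014006001) (nat_lit 0)))) (N (nat_lit 6739) (L (E (nat_lit 8) (nat_lit 0x4d426953289794ad0014006001) (nat_lit 0))) (N (nat_lit 6740) (L (E (nat_lit 16) (nat_lit 0x4e026a134a9794ad16a8b5057e2b79570a705302970014006001) (nat_lit 0))) (L (E (nat_lit 14) (nat_lit 0x13a49a54bca3191888b24582208b5056f2970014006001) (nat_lit 0)))))) (N (nat_lit 6745) (N (nat_lit 6743) (N (nat_lit 6742) (L (E (nat_lit 11) (nat_lit 0x23091648ae44d22110da86242f0014006001) (nat_lit 0))) (L (E (nat_lit 14) (nat_lit 0x1b40d324d4a6952f28b2457226912886d4310014006001) (nat_lit 0)))) (N (nat_lit 6744) (L (E (nat_lit 14) (nat_lit 0x134498c4bca51127889a44a165cae456f2980014006001) (nat_lit 0))) (L (E (nat_lit 12) (nat_lit 0x4d2a6552f294e44d2250b2e56f2980014006001) (nat_lit 0))))) (N (nat_lit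 6748) (N (nat_lit 6747) (N (nat_lit 6746) (L (E (nat_lit 9) (nat_lit 0x9a54bca3bd1625972b78014006001) (nat_lit 0))) (L (E (nat_lit 14) (nat_lit 0x13a49ce4e126f93749b64bc965cb0a57e2b60014006001) (nat_lit 0)))) (L (E (nat_lit 12) (nat_lit 0x4e926952f28ee458a2511045972b60014006001) (nat_lit 0)))) (L (E (nat_lit 7) (nat_lit 0x26a534a98a4bc8014006001) (nat_lit 0)))))))
def cl135 : RA := N (nat_lit 6668) (cl133) (N (nat_lit 6706) (N (nat_lit 6691) (N (nat_lit 6672) (N (nat_lit 6669) (L (E (nat_lit 9) (nat_lit 0x9d24d426913449944bc8014006001) (nat_lit 0))) (N (nat_lit 6671) (N (nat_lit 6670) (L (E (nat_lit 14) (nat_lit 0x13f09be4d425e51be8c2459a28512a8622c20014006001) (nat_lit 0))) (L (E (nat_lit 9) (nat_lit 0x9bf4d225e510459a2cb0014006001) (nat_lit 0)))) (L (E (nat_lit 11) (nat_lit 0x27e135097946fa3091668a144a8014006001) (nat_lit 0))))) (N (nat_lit 6681) (N (nat_lit 6677) (N (nat_lit 6674) (N (nat_lit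 6673) (L (E (nat_lit 16) (nat_lit 0x52b27713a69b44d4a6412e88df459a2550c45812ac0014006001) (nat_lit 0))) (L (E (nat_lit 18) (nat_lit 0x1e8cde46052d210247e62d41604ad655c2a394e8a584ac2550014006001) (nat_lit 0)))) (N (nat_lit 6676) (N (nat_lit 6675) (L (E (nat_lit 27) (nat_lit 0x3791814b484e926ed35297e4bca5a929c94c47f23a91548924482048b545812b91570a744ac2550014006001) (nat_lit 0))) (L (E (nat_lit 15) (nat_lit 0x27493529794b1a3b91668a144aa188b545a22c08014006001) (nat_lit 0)))) (L (E (nat_lit 13) (nat_lit 0x59c2c81604ae456e2b615a8a9054429a0014006001) (nat_lit 0))))) (N (nat_lit 6679) (N (nat_lit 6678) (L (E (nat_lit 14) (nat_lit 0x13ce9ba4d126512f29632dd16a8b025722a38014006001) (nat_lit 0))) (L (E (nat_lit 18) (nat_lit 0x13ce9d24d4a6892f296349222cd14289543116a8b505812ac0014006001) (nat_lit 0)))) (N (nat_lit 6680) (L (E (nat_lit 11) (nat_lit 0x237d16688043f2188b565812ac0014006001) (nat_lit 0))) (L (E (nat_lit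 16) (nat_lit 0x4f3a7493529794b1a4911668a144a96a8b505812ac0014006001) (nat_lit 0)))))) (N (nat_lit 6686) (N (nat_lit 6684) (N (nat_lit 6683) (N (nat_lit 6682) (L (E (nat_lit 20) (nat_lit 0x4f3a7413529794b1a3bd16c8b344f22550c45ba2d51618b0254729c0014006001) (nat_lit 0))) (L (E (nat_lit 12) (nat_lit 0x4d4a5e52488df459a28512a8622c08014006001) (nat_lit 0)))) (L (E (nat_lit 29) (nat_lit 0x100654223a905c82a414207102480e4051e60dc05ce2cb9648b0857e2b715b0ab053426e13209704b424a0014006001) (nat_lit 0)))) (N (nat_lit 6685) (L (E (nat_lit 18) (nat_lit 0x13ce9a94bca58d1dc8b3450a2550c45cd2d51600adc56c2af8014006001) (nat_lit 0))) (L (E (nat_lit 15) (nat_lit 0x23bd16689537016a8b085802be15b8ad85582a10014006001) (nat_lit 0))))) (N (nat_lit 6689) (N (nat_lit 6688) (N (nat_lit 6687) (L (E (nat_lit 15) (nat_lit 0x274935297946fa3091668a144aa188b545802b70014006001) (nat_lit 0))) (L (E (nat_lit 18) (nat_lit 0x22c50046d72ae14c88c533718c0c4460a2cb9610afc5722a38014006001)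 (nat_lit 0)))) (L (E (nat_lit 24) (nat_lit 0x8b14011b5cab8542299118a6e03181888c145aa2d39610b0057e2b715b0acc5581a00014006001) (nat_lit 0)))) (N (nat_lit 6690) (L (E (nat_lit 12) (nat_lit 0x4d4a5e51668a144aa188b545802b70014006001) (nat_lit 0))) (L (E (nat_lit 12) (nat_lit 0x4d4a5e52488df459a28512a8622b70014006001) (nat_lit 0)))))))) (N (nat_lit 6698) (N (nat_lit 6697) (N (nat_lit 6694) (N (nat_lit 6693) (N (nat_lit 6692) (L (E (nat_lit 13) (nat_lit 0x9c04df26e0dc05ab2cd1648b0856f1a00014006001) (nat_lit 0))) (L (E (nat_lit 15) (nat_lit 0x37f15e8a96533a9594a098b3bc1b30b2e56f09c0014006001) (nat_lit 0)))) (L (E (nat_lit 20) (nat_lit 0x6fe2a113a49a44ca26492f29684ac23b918a6e02d51610ae456f2a40014006001) (nat_lit 0)))) (N (nat_lit 6696) (N (nat_lit 6695) (L (E (nat_lit 20) (nat_lit 0x8b14011b5cab853226892f28d7466231516c89e4411828b2e5872bf0014006001) (nat_lit 0))) (L (E (nat_lit 7) (nat_lit 0x2ab952ea8451f8014006001)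 (nat_lit 0)))) (L (E (nat_lit 19) (nat_lit 0x28e934497946ba33118a8b644f2208c145b82cb9640b085722b78014006001) (nat_lit 0))))) (L (E (nat_lit 6) (nat_lit 0x12f28b344f0014006001) (nat_lit 0)))) (N (nat_lit 6702) (N (nat_lit 6700) (N (nat_lit 6699) (L (E (nat_lit 15) (nat_lit 0x231916088243a21b0fa45c82df9610afe56f2ae8014006001) (nat_lit 0))) (L (E (nat_lit 27) (nat_lit 0x25d92cc9644ab25191dc8ea47423191888b044d22090e886c3e91720b7e5962c215fcade5542a20014006001) (nat_lit 0)))) (N (nat_lit 6701) (L (E (nat_lit 14) (nat_lit 0x11dc8ea4622258b6e5a92c21600afc5722a18014006001) (nat_lit 0))) (L (E (nat_lit 11) (nat_lit 0x25e522c8b33e916a8b2c5842b78014006001) (nat_lit 0))))) (N (nat_lit 6704) (N (nat_lit 6703) (L (E (nat_lit 20) (nat_lit 0x4d4269134498c4bca3511888b045722a913e89444120b904c7e63e00014006001) (nat_lit 0))) (L (E (nat_lit 26) (nat_lit 0x22c49de4e9a6a132898c4bf25e52e88b445822b915489f44a220905c8263f31f00c6c6323170014006001)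 (nat_lit 0)))) (N (nat_lit 6705) (L (E (nat_lit 20) (nat_lit 0x53229413bc9d34cf26312fc979461a2cd05c8263f41f98f806363190014006001) (nat_lit 0))) (L (E (nat_lit 22) (nat_lit 0x14c8a504ef274d33c98c4bf25e51888b3457218905c8263f41f98f806363190014006001) (nat_lit 0)))))))) (cl134))
def cl136 : RA := N (nat_lit 6783) (N (nat_lit 6771) (N (nat_lit 6759) (N (nat_lit 6753) (N (nat_lit 6751) (N (nat_lit 6750) (L (E (nat_lit 10) (nat_lit 0x13a49ce4d4269532498d4bc8014006001) (nat_lit 0))) (L (E (nat_lit 11) (nat_lit 0x26952f28c646222c91045972b78014006001) (nat_lit 0)))) (N (nat_lit 6752) (L (E (nat_lit 11) (nat_lit 0x26952f28c445922090c45972b78014006001) (nat_lit 0))) (L (E (nat_lit 13) (nat_lit 0x9d24d4269133c98c4bca5d128c88243a8014006001) (nat_lit 0))))) (N (nat_lit 6754) (L (E (nat_lit 10) (nat_lit 0x13709a44caa6312f29684a30014006001) (nat_lit 0))) (N (nat_lit 6757) (N (nat_lit 6756) (N (nat_lit 6755) (L (E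 (nat_lit 19) (nat_lit 0x27493709a84d226793189794ba25191848b245722090c45802b60014006001) (nat_lit 0))) (L (E (nat_lit 14) (nat_lit 0x13ce98d4be25e52c65b82cb95f8ad85482918014006001) (nat_lit 0)))) (L (E (nat_lit 15) (nat_lit 0x279d31a97c4bca58d1de8ea46122c510a5972b78014006001) (nat_lit 0)))) (N (nat_lit 6758) (L (E (nat_lit 18) (nat_lit 0x13ce98d4be25e52c68ea46323111848b2458a214b2e5722b78014006001) (nat_lit 0))) (L (E (nat_lit 11) (nat_lit 0x26a12f28c446122c91045972b78014006001) (nat_lit 0))))))) (N (nat_lit 6768) (N (nat_lit 6764) (N (nat_lit 6762) (N (nat_lit 6761) (N (nat_lit 6760) (L (E (nat_lit 10) (nat_lit 0x13ce9a94c6a5e52c65972b78014006001) (nat_lit 0))) (L (E (nat_lit 10) (nat_lit 0x124490246222c515c8954428014006001) (nat_lit 0)))) (L (E (nat_lit 18) (nat_lit 0x1f90dfc5e829594a8a3e44d2218d5c6362cb951c87431217f0014006001) (nat_lit 0)))) (N (nat_lit 6763) (L (E (nat_lit 23) (nat_lit 0x29513a49a94d226312f295649124091888c245922b910a6362cb9600ae056c1890014006001)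 (nat_lit 0))) (L (E (nat_lit 10) (nat_lit 0x12f28c446122c91045972b78014006001) (nat_lit 0))))) (N (nat_lit 6766) (N (nat_lit 6765) (L (E (nat_lit 13) (nat_lit 0x9a44bb235d1868b24422184b2e5842b78014006001) (nat_lit 0))) (L (E (nat_lit 7) (nat_lit 0x165cb245852b78014006001) (nat_lit 0)))) (N (nat_lit 6767) (L (E (nat_lit 9) (nat_lit 0x97946222c91045972b78014006001) (nat_lit 0))) (L (E (nat_lit 7) (nat_lit 0x25e51665972b78014006001) (nat_lit 0)))))) (N (nat_lit 6769) (L (E (nat_lit 8) (nat_lit 0x4d225e51045972b78014006001) (nat_lit 0))) (N (nat_lit 6770) (L (E (nat_lit 10) (nat_lit 0x134a98d4bca3151648824310014006001) (nat_lit 0))) (L (E (nat_lit 14) (nat_lit 0x14a89a84d2a6312f28c5459225510a5a82530014006001) (nat_lit 0))))))) (N (nat_lit 6776) (N (nat_lit 6773) (N (nat_lit 6772) (L (E (nat_lit 8) (nat_lit 0x4d425e510a5972b78014006001) (nat_lit 0))) (L (E (nat_lit 8) (nat_lit 0x462a2c912c8844410014006001)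 (nat_lit 0)))) (N (nat_lit 6774) (L (E (nat_lit 7) (nat_lit 0x25e51045972b78014006001) (nat_lit 0))) (N (nat_lit 6775) (L (E (nat_lit 13) (nat_lit 0x9a94d2a6312f28b245822b910a5962b60014006001) (nat_lit 0))) (L (E (nat_lit 12) (nat_lit 0x4d42695328979462a2c8b2c5802b60014006001) (nat_lit 0)))))) (N (nat_lit 6780) (N (nat_lit 6778) (N (nat_lit 6777) (L (E (nat_lit 18) (nat_lit 0x13749b64da22c916089a44b225112488243f1658ade5582aa0014006001) (nat_lit 0))) (L (E (nat_lit 23) (nat_lit 0x3711b40d726b23581ab8ab84e127013746a034116b8b345962c31610b0057e2b80014006001) (nat_lit 0)))) (N (nat_lit 6779) (L (E (nat_lit 10) (nat_lit 0x134a98c4bca3151648852b78014006001) (nat_lit 0))) (L (E (nat_lit 10) (nat_lit 0x134a98c4bca2c91608852b78014006001) (nat_lit 0))))) (N (nat_lit 6781) (L (E (nat_lit 9) (nat_lit 0x9d34612250b2c5802b60014006001) (nat_lit 0))) (N (nat_lit 6782) (L (E (nat_lit 10) (nat_lit 0x134a98c4bca2c91608822b78014006001)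 (nat_lit 0))) (L (E (nat_lit 12) (nat_lit 0x4d2a6312ec96447e23bd1bc8c14588014006001) (nat_lit 0)))))))) (N (nat_lit 6791) (N (nat_lit 6784) (L (E (nat_lit 7) (nat_lit 0x225510c8844410014006001) (nat_lit 0))) (N (nat_lit 6790) (N (nat_lit 6787) (N (nat_lit 6786) (N (nat_lit 6785) (L (E (nat_lit 10) (nat_lit 0x134a98c4bca2c91088822b78014006001) (nat_lit 0))) (L (E (nat_lit 11) (nat_lit 0x16b8b585aa2d41670b345962b78014006001) (nat_lit 0)))) (L (E (nat_lit 10) (nat_lit 0x134a98c4bca2c91288822b78014006001) (nat_lit 0)))) (N (nat_lit 6789) (N (nat_lit 6788) (L (E (nat_lit 9) (nat_lit 0x9a54c625e51648822b78014006001) (nat_lit 0))) (L (E (nat_lit 15) (nat_lit 0x26a134a9924c6a5e510a5982cb15f8ade4b42250014006001) (nat_lit 0)))) (L (E (nat_lit 10) (nat_lit 0x134a98d4bca2c512a8852b78014006001) (nat_lit 0))))) (L (E (nat_lit 8) (nat_lit 0x4e9269532498d4bc8014006001) (nat_lit 0))))) (N (nat_lit 6800) (N (nat_lit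 6797) (N (nat_lit 6794) (N (nat_lit 6793) (N (nat_lit 6792) (L (E (nat_lit 10) (nat_lit 0x134a98d4bca2c51048622b78014006001) (nat_lit 0))) (L (E (nat_lit 15) (nat_lit 0x26952f29524a622c91608ae45522111045962b60014006001) (nat_lit 0)))) (L (E (nat_lit 8) (nat_lit 0x4d2a5e51648822b78014006001) (nat_lit 0)))) (N (nat_lit 6795) (L (E (nat_lit 19) (nat_lit 0x2a094cca6252b28f8bc05de2ec1748b345982cb1648b1457e2b78014006001) (nat_lit 0))) (N (nat_lit 6796) (L (E (nat_lit 24) (nat_lit 0x53328f937c9a84d226893249794a92538bc05de2ec1748b5c5ab2c515f8ade56a29a0014006001) (nat_lit 0))) (L (E (nat_lit 12) (nat_lit 0x4c6a5e51888c245aa2c11045b82b78014006001) (nat_lit 0)))))) (N (nat_lit 6798) (L (E (nat_lit 9) (nat_lit 0x9a44bb23bcb2c5802b60014006001) (nat_lit 0))) (N (nat_lit 6799) (L (E (nat_lit 11) (nat_lit 0x26352f28ee45922c11045b82b78014006001) (nat_lit 0))) (L (E (nat_lit 11) (nat_lit 0x26a534898d4bca58cb5656f2aa8014006001)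 (nat_lit 0)))))) (N (nat_lit 6804) (N (nat_lit 6802) (N (nat_lit 6801) (L (E (nat_lit 28) (nat_lit 0x6d73639ac0a8253329894aca3e4ee23d8d2468633118f0bc05de2d41668b2c5932b915bcab85552958014006001) (nat_lit 0))) (L (E (nat_lit 11) (nat_lit 0x279d31a9794b1a2c910a5ab2b78014006001) (nat_lit 0)))) (N (nat_lit 6803) (L (E (nat_lit 14) (nat_lit 0x13a49a84d226352f2968458a2b91088824360014006001) (nat_lit 0))) (L (E (nat_lit 9) (nat_lit 0x9d24c6a5e51648822b78014006001) (nat_lit 0))))) (L (E (nat_lit 8) (nat_lit 0x47723011628964410014006001) (nat_lit 0))))))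
def cl137 : RA := N (nat_lit 6824) (N (nat_lit 6810) (N (nat_lit 6809) (N (nat_lit 6808) (N (nat_lit 6807) (N (nat_lit 6806) (L (E (nat_lit 17) (nat_lit 0x9a44c825992c89624ab23b916289644121f90d856a2aa0014006001) (nat_lit 0))) (L (E (nat_lit 8) (nat_lit 0x4c6a5e51648822b78014006001) (nat_lit 0)))) (L (E (nat_lit 10) (nat_lit 0x134898c4bca2c91605802b60014006001) (nat_lit 0)))) (L (E (nat_lit 10) (nat_lit 0x13709a44c625e51dc8b14428014006001) (nat_lit 0)))) (L (E (nat_lit 7) (nat_lit 0x25e51648822b78014006001) (nat_lit 0)))) (N (nat_lit 6816) (N (nat_lit 6813) (N (nat_lit 6811) (L (E (nat_lit 10) (nat_lit 0x11dc8c2457221110487e4310014006001) (nat_lit 0))) (N (nat_lit 6812) (L (E (nat_lit 14) (nat_lit 0x18be9d24d226312f28822cb1648ade5542950014006001) (nat_lit 0))) (L (E (nat_lit 13) (nat_lit 0x98c4bca30d10888242f2154b2c56f2950014006001) (nat_lit 0))))) (N (nat_lit 6815) (N (nat_lit 6814) (L (E (nat_lit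 21) (nat_lit 0x80e3fd1fd0fa47c63d51e50b7e57c2b715b0ad45602ac1550a9054429a0014006001) (nat_lit 0))) (L (E (nat_lit 10) (nat_lit 0xfa47aa2dd16a0b325802b58014006001) (nat_lit 0)))) (L (E (nat_lit 20) (nat_lit 0x4d225d918c8c445822b912c8743e91f18b545962c015b8ad85602ac0014006001) (nat_lit 0))))) (N (nat_lit 6820) (N (nat_lit 6818) (N (nat_lit 6817) (L (E (nat_lit 11) (nat_lit 0x274d2f28b344a22090e85962b70014006001) (nat_lit 0))) (L (E (nat_lit 14) (nat_lit 0x13a698c4bca3b91d48c345822090e85962b70014006001) (nat_lit 0)))) (N (nat_lit 6819) (L (E (nat_lit 12) (nat_lit 0x4e926312f2974477230d1648b04410014006001) (nat_lit 0))) (L (E (nat_lit 18) (nat_lit 0x13a49a44ca26312f28ee46323111808b045722691288822b68014006001) (nat_lit 0))))) (N (nat_lit 6822) (N (nat_lit 6821) (L (E (nat_lit 11) (nat_lit 0x26312f28ee461a2c11088822cb0014006001) (nat_lit 0))) (L (E (nat_lit 12) (nat_lit 0x4d226312f28ee46122c115c8844410014006001)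 (nat_lit 0)))) (N (nat_lit 6823) (L (E (nat_lit 11) (nat_lit 0x23b918089644a22411045972b68014006001) (nat_lit 0))) (L (E (nat_lit 17) (nat_lit 0x9a84d2268933c9944c625f92f28aa44a2178a945462a10014006001) (nat_lit 0)))))))) (N (nat_lit 6833) (N (nat_lit 6829) (N (nat_lit 6826) (N (nat_lit 6825) (L (E (nat_lit 20) (nat_lit 0x4e9a73132898c4bca2a912888444121f90bc5972b915b8ad856a2b30014006001) (nat_lit 0))) (L (E (nat_lit 20) (nat_lit 0x8b12a593e49d04d4a6413188c4458226907080a3371968c385972240014006001) (nat_lit 0)))) (N (nat_lit 6828) (N (nat_lit 6827) (L (E (nat_lit 28) (nat_lit 0x8b127793a69cc4d2268931897948b24492208c445822b913e89a44a22090147e63e019b8c385972a20014006001) (nat_lit 0))) (L (E (nat_lit 20) (nat_lit 0x8b1274d39898c4bca4411868b3455221110487e2cb9648adc56c2b30014006001) (nat_lit 0)))) (L (E (nat_lit 13) (nat_lit 0x9d24d4269934899e4bca208b0056e2b60014006001) (nat_lit 0))))) (N (nat_lit 6830)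 (L (E (nat_lit 5) (nat_lit 0x9a64d1a6492f2003) (nat_lit 0))) (N (nat_lit 6832) (N (nat_lit 6831) (L (E (nat_lit 27) (nat_lit 0x458952c9d24e827393529904c623b91d48c4458226907082c4051f70cdc65a30e165c9b84480790014006001) (nat_lit 0))) (L (E (nat_lit 22) (nat_lit 0x22c49d24d4a6412308ee46623111608ae44d2258c385cd2cb95b8ad65582240014006001) (nat_lit 0)))) (L (E (nat_lit 19) (nat_lit 0x274534898c4bca4a92308c4459a2b91046382d515fcab83880a30014006001) (nat_lit 0)))))) (N (nat_lit 6839) (N (nat_lit 6838) (N (nat_lit 6835) (N (nat_lit 6834) (L (E (nat_lit 11) (nat_lit 0x269131897947722c115c8844410014006001) (nat_lit 0))) (L (E (nat_lit 10) (nat_lit 0x11b88ae44b221110488043f0014006001) (nat_lit 0)))) (N (nat_lit 6837) (N (nat_lit 6836) (L (E (nat_lit 14) (nat_lit 0x13ce9b84d226312f296344da204b2e56d2a50014006001) (nat_lit 0))) (L (E (nat_lit 18) (nat_lit 0x13ce9a84d326913189794b1a32115c89b4452208b2c56e2a50014006001)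 (nat_lit 0)))) (L (E (nat_lit 22) (nat_lit 0x1a7cd325e5279d3489944c625e52c68c8457226d1148824381658ada54a2a20014006001) (nat_lit 0))))) (L (E (nat_lit 10) (nat_lit 0x134898c4bca2c115c8844410014006001) (nat_lit 0)))) (N (nat_lit 6842) (N (nat_lit 6840) (L (E (nat_lit 11) (nat_lit 0x269132a97945822b91088822cb0014006001) (nat_lit 0))) (N (nat_lit 6841) (L (E (nat_lit 9) (nat_lit 0x9944c6a5f12f29634ac0014006001) (nat_lit 0))) (L (E (nat_lit 18) (nat_lit 0x13289664a2231d16a8ae454a26d12c8622d51658ada5502a50014006001) (nat_lit 0))))) (N (nat_lit 6844) (N (nat_lit 6843) (L (E (nat_lit 13) (nat_lit 0x9a44bca5611dc8ae44da208b545962b68014006001) (nat_lit 0))) (L (E (nat_lit 14) (nat_lit 0x13509a44d125e51608ae45522111045962b68014006001) (nat_lit 0)))) (N (nat_lit 6845) (L (E (nat_lit 13) (nat_lit 0x9a94d225e51dc8b3457221110487e2b68014006001) (nat_lit 0))) (L (E (nat_lit 13) (nat_lit 0x9a94d225e51888b3457221110487e2b68014006001)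 (nat_lit 0))))))))
def cl138 : RA := N (nat_lit 6866) (N (nat_lit 6858) (N (nat_lit 6851) (N (nat_lit 6849) (N (nat_lit 6848) (N (nat_lit 6847) (L (E (nat_lit 13) (nat_lit 0x9a94d225e51608ae45522691088822b68014006001) (nat_lit 0))) (L (E (nat_lit 12) (nat_lit 0x4e826912f28b045722111045962b68014006001) (nat_lit 0)))) (L (E (nat_lit 8) (nat_lit 0x477a3111668ae44b0014006001) (nat_lit 0)))) (N (nat_lit 6850) (L (E (nat_lit 20) (nat_lit 0x62fa6912f28c4459a2b91048743e91f18b2c5802b715b0ad45602aa0014006001) (nat_lit 0))) (L (E (nat_lit 16) (nat_lit 0x4d4a6912f28c445822b910888243f1f48b2c56c2b00014006001) (nat_lit 0))))) (N (nat_lit 6854) (N (nat_lit 6853) (N (nat_lit 6852) (L (E (nat_lit 9) (nat_lit 0x8c544fa21110487e4310014006001) (nat_lit 0))) (L (E (nat_lit 13) (nat_lit 0x9d04d226892f292e45822b91088822cb0014006001) (nat_lit 0)))) (L (E (nat_lit 15) (nat_lit 0x26a131a979461a2691088823da15fcae25462a10014006001)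 (nat_lit 0)))) (N (nat_lit 6856) (N (nat_lit 6855) (L (E (nat_lit 12) (nat_lit 0x4d225e51888b045722111045972b60014006001) (nat_lit 0))) (L (E (nat_lit 11) (nat_lit 0x25e51608ae45522691248844410014006001) (nat_lit 0)))) (N (nat_lit 6857) (L (E (nat_lit 16) (nat_lit 0x4d226412cc96447722b9136894441165cb0a56e2b50014006001) (nat_lit 0))) (L (E (nat_lit 11) (nat_lit 0x26912f28c445822b91088822cb8014006001) (nat_lit 0))))))) (N (nat_lit 6859) (L (E (nat_lit 9) (nat_lit 0x9a44bca2c115c8844410014006001) (nat_lit 0))) (N (nat_lit 6863) (N (nat_lit 6861) (N (nat_lit 6860) (L (E (nat_lit 11) (nat_lit 0x3631accd6069d34a1a4cd2268f0014006001) (nat_lit 0))) (L (E (nat_lit 14) (nat_lit 0x14eca6051d2879438a182e316e4b6858c2be8014006001) (nat_lit 0)))) (N (nat_lit 6862) (L (E (nat_lit 23) (nat_lit 0x29d93509a64d226712f28ef46b23091608ae44d2210c685ba2cb9630b0056e2aa8014006001) (nat_lit 0))) (L (E (nat_lit 16) (nat_lit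 0x53b2691338979462a2691085cc2dd16b8b2e58c2aa8014006001) (nat_lit 0))))) (N (nat_lit 6865) (N (nat_lit 6864) (L (E (nat_lit 14) (nat_lit 0x1570a924e926f93509a34ca25d92ae8b24420014006001) (nat_lit 0))) (L (E (nat_lit 8) (nat_lit 0x4d225e518a8842cb8014006001) (nat_lit 0)))) (L (E (nat_lit 15) (nat_lit 0x2a494fca5651f1920c446042cc1658b2056d2aa8014006001) (nat_lit 0))))))) (N (nat_lit 6875) (N (nat_lit 6867) (L (E (nat_lit 8) (nat_lit 0x2ef16a4b385852af8014006001) (nat_lit 0))) (N (nat_lit 6871) (N (nat_lit 6869) (N (nat_lit 6868) (L (E (nat_lit 28) (nat_lit 0x54929f94aca3e50e26fd10668632418f0c6062230b1850c1c6042ef16a4b385962c81618ae056d2ae0014006001) (nat_lit 0))) (L (E (nat_lit 12) (nat_lit 0x4e926a134897947923151365de2e90014006001) (nat_lit 0)))) (N (nat_lit 6870) (L (E (nat_lit 9) (nat_lit 0x9a44bca3151365802b70014006001) (nat_lit 0))) (L (E (nat_lit 21) (nat_lit 0x9a44c825d92ac8ef46f23591688a844f22490b85842c015f8abc5582a30014006001)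 (nat_lit 0))))) (N (nat_lit 6873) (N (nat_lit 6872) (L (E (nat_lit 16) (nat_lit 0x4d4a69132098c4bb259118a89a4419600afc56e2ac0014006001) (nat_lit 0))) (L (E (nat_lit 11) (nat_lit 0x26a5348979462a210b0057e2b70014006001) (nat_lit 0)))) (N (nat_lit 6874) (L (E (nat_lit 15) (nat_lit 0x27493509a64d225e51848b245822b91348842cb0014006001) (nat_lit 0))) (L (E (nat_lit 9) (nat_lit 0x9a84d225e518a89a4420014006001) (nat_lit 0))))))) (N (nat_lit 6884) (N (nat_lit 6879) (N (nat_lit 6877) (N (nat_lit 6876) (L (E (nat_lit 10) (nat_lit 0x1348979462a210b0057e2b70014006001) (nat_lit 0))) (L (E (nat_lit 15) (nat_lit 0x26a934c9a44c925e51ba8b245822b91348864420014006001) (nat_lit 0)))) (N (nat_lit 6878) (L (E (nat_lit 10) (nat_lit 0x135298d4be25e51648b04570014006001) (nat_lit 0))) (L (E (nat_lit 16) (nat_lit 0x6253121860c1260530217e4bf05f22f7924491446f0014006001) (nat_lit 0))))) (N (nat_lit 6881) (N (nat_lit 6880) (L (E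 (nat_lit 11) (nat_lit 0x26a534897946ea2c115c88442d8014006001) (nat_lit 0))) (L (E (nat_lit 14) (nat_lit 0x13509a44bca3191888c2457226d0c45802b70014006001) (nat_lit 0)))) (N (nat_lit 6883) (N (nat_lit 6882) (L (E (nat_lit 17) (nat_lit 0xc084d426912f28e646ea2e915689e448220d0b65802b70014006001) (nat_lit 0))) (L (E (nat_lit 16) (nat_lit 0x5f32e99744ba05c5217cc1060630117f89784982440014006001) (nat_lit 0)))) (L (E (nat_lit 15) (nat_lit 0x269131897946ea2b913685b2c015f8adc56a2520014006001) (nat_lit 0)))))) (N (nat_lit 6889) (N (nat_lit 6887) (N (nat_lit 6886) (N (nat_lit 6885) (L (E (nat_lit 17) (nat_lit 0xbea5d62e99748b9a5c526f93489944c626292fc9794b40014006001) (nat_lit 0))) (L (E (nat_lit 16) (nat_lit 0x5f52eb174cba45cd2e2937c9a44c626292fc9794b40014006001) (nat_lit 0)))) (L (E (nat_lit 16) (nat_lit 0x4d226312f28dd45822b910885b2c015f8adc56a2520014006001) (nat_lit 0)))) (N (nat_lit 6888) (L (E (nat_lit 20)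 (nat_lit 0x51d269131a9794b498c0c4061e300173cb385982c015c8adc5462a10014006001) (nat_lit 0))) (L (E (nat_lit 13) (nat_lit 0xc206042f7934898d4bca5a12c48862a50014006001) (nat_lit 0))))) (N (nat_lit 6891) (N (nat_lit 6890) (L (E (nat_lit 11) (nat_lit 0x30217d0bce5e62ef176cba75cd0014006001) (nat_lit 0))) (L (E (nat_lit 25) (nat_lit 0xbfc5f82e817349de4d4269131a9794a023211648b0457226910c8842e79668b005722b70014006001) (nat_lit 0)))) (L (E (nat_lit 10) (nat_lit 0x17f4be45e72ea174cba45d00014006001) (nat_lit 0)))))))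
def cl139 : RA := N (nat_lit 6948) (N (nat_lit 6937) (N (nat_lit 6935) (N (nat_lit 6932) (N (nat_lit 6930) (N (nat_lit 6929) (L (E (nat_lit 14) (nat_lit 0x13509a44c926312f29624ab1610b0054629c0014006001) (nat_lit 0))) (L (E (nat_lit 11) (nat_lit 0x26f93509924c826312d29634a30014006001) (nat_lit 0)))) (N (nat_lit 6931) (L (E (nat_lit 13) (nat_lit 0x9a84d226312f2956458a20cb0858029c0014006001) (nat_lit 0))) (L (E (nat_lit 10) (nat_lit 0x13709a44c625e51628752c20014006001) (nat_lit 0))))) (N (nat_lit 6933) (L (E (nat_lit 15) (nat_lit 0x1a08ce467032f1930c946263101858c286123070014006001) (nat_lit 0))) (N (nat_lit 6934) (L (E (nat_lit 20) (nat_lit 0x6c828b13bc9b44d225e516286c3391930b545852c01520a705342980014006001) (nat_lit 0))) (L (E (nat_lit 11) (nat_lit 0x26913189794b1255916258529c0014006001) (nat_lit 0)))))) (N (nat_lit 6936) (L (E (nat_lit 7) (nat_lit 0x26912f28ae43a8014006001) (nat_lit 0))) (L (E (nat_lit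 9) (nat_lit 0x9a84d225e52d09634ab0014006001) (nat_lit 0))))) (N (nat_lit 6942) (N (nat_lit 6941) (N (nat_lit 6939) (N (nat_lit 6938) (L (E (nat_lit 9) (nat_lit 0x9a84d225e52c69564570014006001) (nat_lit 0))) (L (E (nat_lit 13) (nat_lit 0x9a44c625e52a48822ce1648b0a54829c0014006001) (nat_lit 0)))) (N (nat_lit 6940) (L (E (nat_lit 10) (nat_lit 0x13509a44bca35d10a58029c0014006001) (nat_lit 0))) (L (E (nat_lit 13) (nat_lit 0x9e74d526a134898c4bca5a12c68ae29c0014006001) (nat_lit 0))))) (L (E (nat_lit 8) (nat_lit 0x4d426912f29634570014006001) (nat_lit 0)))) (N (nat_lit 6945) (N (nat_lit 6944) (N (nat_lit 6943) (L (E (nat_lit 14) (nat_lit 0x12208fe46322c91385ca2dc164cb025710760014006001) (nat_lit 0))) (L (E (nat_lit 12) (nat_lit 0x46ea2c11348862b7159cab05382990014006001) (nat_lit 0)))) (L (E (nat_lit 16) (nat_lit 0x7d023a91c08c645822b912c8852e51604ab85582a30014006001) (nat_lit 0)))) (N (nat_lit 6947) (N (nat_lit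 6946) (L (E (nat_lit 13) (nat_lit 0xffe7111b80b4c5902c095a8a8e5281a00014006001) (nat_lit 0))) (L (E (nat_lit 21) (nat_lit 0x8dc46222b91348964491fe0fe87f22b71560a905462a114c895847a2370014006001) (nat_lit 0)))) (L (E (nat_lit 27) (nat_lit 0x3ff9f40e22475238118c8ae44b2214ff06e02e91728b4c5902c21604ad455c2ac14a095847a1a00014006001) (nat_lit 0))))))) (N (nat_lit 6959) (N (nat_lit 6950) (N (nat_lit 6949) (L (E (nat_lit 10) (nat_lit 0x134899d4c6a5e52c68ae2e90014006001) (nat_lit 0))) (L (E (nat_lit 7) (nat_lit 0x26912f28ae4418014006001) (nat_lit 0)))) (N (nat_lit 6954) (N (nat_lit 6951) (L (E (nat_lit 6) (nat_lit 0x13489792b78014006001) (nat_lit 0))) (N (nat_lit 6953) (N (nat_lit 6952) (L (E (nat_lit 18) (nat_lit 0x13529a44bca5a12c69584ab22c115c85a2c015b0a945482a30014006001) (nat_lit 0))) (L (E (nat_lit 17) (nat_lit 0x9bb4d4a6912f295646ba3191608ae42d1600ad854a2a30014006001) (nat_lit 0)))) (L (E (nat_lit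 14) (nat_lit 0x13769a44bca55918c8b04571648ad854a2a30014006001) (nat_lit 0))))) (N (nat_lit 6957) (N (nat_lit 6956) (N (nat_lit 6955) (L (E (nat_lit 13) (nat_lit 0x9a84d225e518c8b04571648b085802b60014006001) (nat_lit 0))) (L (E (nat_lit 14) (nat_lit 0x13529a44bca5892b09564a122c115c5802b60014006001) (nat_lit 0)))) (L (E (nat_lit 12) (nat_lit 0x4dda6a52f29564a4a2c115c5802b60014006001) (nat_lit 0)))) (N (nat_lit 6958) (L (E (nat_lit 9) (nat_lit 0x9a44bca2c115c5802b60014006001) (nat_lit 0))) (L (E (nat_lit 16) (nat_lit 0x4dda6a13249794b422b8b4e57e2b815b8ad854729c8014006001) (nat_lit 0))))))) (N (nat_lit 6967) (N (nat_lit 6963) (N (nat_lit 6961) (N (nat_lit 6960) (L (E (nat_lit 9) (nat_lit 0x9a44bca2b910a5802b60014006001) (nat_lit 0))) (L (E (nat_lit 8) (nat_lit 0x4d225e515c5802b60014006001) (nat_lit 0)))) (N (nat_lit 6962) (L (E (nat_lit 11) (nat_lit 0x22c515489644222090e85842b68014006001) (nat_lit 0)))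 (L (E (nat_lit 9) (nat_lit 0x9a94d225e51628aa2c00014006001) (nat_lit 0))))) (N (nat_lit 6965) (N (nat_lit 6964) (L (E (nat_lit 7) (nat_lit 0x26912f28b12c00014006001) (nat_lit 0))) (L (E (nat_lit 16) (nat_lit 0x6052ef93709a44c825991dc8c645922c115c8964428014006001) (nat_lit 0)))) (N (nat_lit 6966) (L (E (nat_lit 9) (nat_lit 0x9bb4d425e518c8b04570014006001) (nat_lit 0))) (L (E (nat_lit 7) (nat_lit 0x25e51668924428014006001) (nat_lit 0)))))) (N (nat_lit 6971) (N (nat_lit 6969) (N (nat_lit 6968) (L (E (nat_lit 14) (nat_lit 0x13489764ba258928493445922c115c8964428014006001) (nat_lit 0))) (L (E (nat_lit 7) (nat_lit 0x26912f28ae2c00014006001) (nat_lit 0)))) (N (nat_lit 6970) (L (E (nat_lit 21) (nat_lit 0x6ae32218c0c3c60e2a594d0a604be25a12b093849a24c125090c46e2160014006001) (nat_lit 0))) (L (E (nat_lit 11) (nat_lit 0x26a53489794b1a2c91608ae4428014006001) (nat_lit 0))))) (N (nat_lit 6973) (N (nat_lit 6972)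 (L (E (nat_lit 10) (nat_lit 0x13529a44bca2c91608ae4428014006001) (nat_lit 0))) (L (E (nat_lit 11) (nat_lit 0x26ed34897946322c91608ae4428014006001) (nat_lit 0)))) (N (nat_lit 6974) (L (E (nat_lit 9) (nat_lit 0x9a44bca2c91608ae4428014006001) (nat_lit 0))) (L (E (nat_lit 7) (nat_lit 0x26912f28b34570014006001) (nat_lit 0))))))))
def cl140 : RA := N (nat_lit 7027) (N (nat_lit 7019) (N (nat_lit 7009) (N (nat_lit 7004) (N (nat_lit 7003) (L (E (nat_lit 7) (nat_lit 0x25e51608ae4410014006001) (nat_lit 0))) (L (E (nat_lit 17) (nat_lit 0xc3e615300915489644a224912088043813389984ca2640014006001) (nat_lit 0)))) (N (nat_lit 7007) (N (nat_lit 7006) (N (nat_lit 7005) (L (E (nat_lit 14) (nat_lit 0x9c04ce25f12e89644ac251126892447e23d11d88e846e) (nat_lit 0))) (L (E (nat_lit 31) (nat_lit 0x30a974c9de4e626e936c9b44d1251128493c45922c115c8832d51600afc56e2b61560aa84e026712f89644a82520014006001) (nat_lit 0)))) (L (E (nat_lit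 5) (nat_lit 0x4cc25c12a093047b) (nat_lit 0)))) (N (nat_lit 7008) (L (E (nat_lit 21) (nat_lit 0xc265fe2ee939651028113889c04ce26612f89744b825612a09344982450014006001) (nat_lit 0))) (L (E (nat_lit 26) (nat_lit 0x184cbfc5e72f31794bba4e59440a044e2270135899c4cc26012f89744b825612a093849a24c0014006001) (nat_lit 0)))))) (N (nat_lit 7014) (N (nat_lit 7012) (N (nat_lit 7011) (N (nat_lit 7010) (L (E (nat_lit 10) (nat_lit 0xa1850027b13889a44ce2661328976498) (nat_lit 0))) (L (E (nat_lit 38) (nat_lit 0x184cc0a5fc2f39798bca4e5a4111e48b245822b91548842d716a8b005762b895b0abe5492961440a1850027b13809ac4ce26512f89704a824e0014006001) (nat_lit 0)))) (L (E (nat_lit 13) (nat_lit 0x9d74df96b0b545a82cd15fcae255818f0014006001) (nat_lit 0)))) (N (nat_lit 7013) (L (E (nat_lit 14) (nat_lit 0x148ca4432e1928c906323141880c3c6133030014006001) (nat_lit 0))) (L (E (nat_lit 32) (nat_lit 0x6b035717f0bce5e52ef948ca3a516275d39690447423151648aa4419888c3c57f2b8957cab0510280133897c49c18f0014006001)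 (nat_lit 0))))) (N (nat_lit 7016) (N (nat_lit 7015) (L (E (nat_lit 55) (nat_lit 0x3d51ac0d5c6152fe179cbca5df2e996fca4651d28b13ae9cc4e5a6e93689a24a2250927890447f23a11a08c545d22c914c8833251888c3c5aa2c015c8adc56c2b01560aa8510280138099c4be25912a094849c18f0014006001) (nat_lit 0))) (L (E (nat_lit 25) (nat_lit 0xf5447f23a11ac8d0462a2e91568a644e22590f28602ed1738b905b62d115bcaa854629a0014006001) (nat_lit 0)))) (N (nat_lit 7018) (N (nat_lit 7017) (L (E (nat_lit 22) (nat_lit 0x22c4d646b03571a88aa251d22a913688043818e8c045aa2bf95bcaa854629a0014006001) (nat_lit 0))) (L (E (nat_lit 25) (nat_lit 0x11626b23581ab8d4455128e91908b2455221110087031d1808b5457f2b915bcaa854629a0014006001) (nat_lit 0)))) (L (E (nat_lit 33) (nat_lit 0x11627aa3581ab8d4455129894aca5251d25112848fe477a2e91648a644e220cc746022ed1738b905b62d115c8ade55429a0014006001) (nat_lit 0))))))) (N (nat_lit 7023) (N (nat_lit 7022) (N (nat_lit 7021) (N (nat_lit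 7020) (L (E (nat_lit 14) (nat_lit 0x13749a24a622acafc56f2b61560a8c5342940014006001) (nat_lit 0))) (L (E (nat_lit 11) (nat_lit 0x26a132498c4bca5a11de8c52b60014006001) (nat_lit 0)))) (L (E (nat_lit 11) (nat_lit 0x26a132498c4bca3bd18a8ae2b60014006001) (nat_lit 0)))) (L (E (nat_lit 8) (nat_lit 0x4e926a134a9944bc8014006001) (nat_lit 0)))) (N (nat_lit 7026) (N (nat_lit 7025) (N (nat_lit 7024) (L (E (nat_lit 9) (nat_lit 0x9a84bca3bd15c8802b60014006001) (nat_lit 0))) (L (E (nat_lit 19) (nat_lit 0x26952ec9664b223591648b0457226912c89444221b0b4c5922be0014006001) (nat_lit 0)))) (L (E (nat_lit 11) (nat_lit 0x26e93509a24c625f92f29744ab0014006001) (nat_lit 0)))) (L (E (nat_lit 9) (nat_lit 0x57f2bd15bcab85542a10014006001) (nat_lit 0)))))) (N (nat_lit 7042) (N (nat_lit 7036) (N (nat_lit 7031) (N (nat_lit 7029) (N (nat_lit 7028) (L (E (nat_lit 10) (nat_lit 0x135097947722c115c8ab2b60014006001) (nat_lit 0))) (L (E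 (nat_lit 10) (nat_lit 0x135097946122c91608ae2b60014006001) (nat_lit 0)))) (N (nat_lit 7030) (L (E (nat_lit 16) (nat_lit 0x6b0353137268233c19d8ce867032e1928c6c63030e185000a001) (nat_lit 0))) (L (E (nat_lit 18) (nat_lit 0x179cbcc5e513909c04de26913389984be25d12e095049e24c0014006001) (nat_lit 0))))) (N (nat_lit 7034) (N (nat_lit 7033) (N (nat_lit 7032) (L (E (nat_lit 36) (nat_lit 0x6b0353179cbcc5e527013748f245b22a91188804381a08cf067632e1928c6c61c2e716a4af857a2b6957ca924e026712f89704a824c0014006001) (nat_lit 0))) (L (E (nat_lit 13) (nat_lit 0xbce5d41f78f9c7b43d61ea8f4c7a02668014006001) (nat_lit 0)))) (L (E (nat_lit 20) (nat_lit 0x5f42f913968f245b2230a204ed270134099c4cc26512ec9484922458014006001) (nat_lit 0)))) (N (nat_lit 7035) (L (E (nat_lit 24) (nat_lit 0x5f42f9179cbcc5e5272d1e48b64461440a004ed27013789a04ce26613289484922458014006001) (nat_lit 0))) (L (E (nat_lit 43) (nat_lit 0x35817d0bce5e62f297509cb4e026e91e48b6455226d1188804381ed0f587a034119e0cec65c3251870b9c5a92cc15e8ada55f2a49440a004e0267132897c4b82540014006001)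 (nat_lit 0)))))) (N (nat_lit 7039) (N (nat_lit 7038) (N (nat_lit 7037) (L (E (nat_lit 23) (nat_lit 0x3119848c1c60d2fc17d4bde5e52e9104881e40e13809a44d026713309944a42490014006001) (nat_lit 0))) (L (E (nat_lit 8) (nat_lit 0x4d425e51608ae4550014006001) (nat_lit 0)))) (L (E (nat_lit 20) (nat_lit 0x4b325912c48c245722ad12c5ac2c015f4adc55f2ac133899a4b42530014006001) (nat_lit 0)))) (N (nat_lit 7040) (L (E (nat_lit 10) (nat_lit 0x13749a84d126312fc9794ba0014006001) (nat_lit 0))) (N (nat_lit 7041) (L (E (nat_lit 19) (nat_lit 0x25992c896246122b91568962cc1600afc57a2b7157cab04ce2668014006001) (nat_lit 0))) (L (E (nat_lit 30) (nat_lit 0x179cbca45722ad14089643121810bc8543321940c9c64a31d18d8c6862230f1870c28612301138099c4ba2458014006001) (nat_lit 0))))))) (N (nat_lit 7049) (N (nat_lit 7046) (N (nat_lit 7044) (N (nat_lit 7043) (L (E (nat_lit 37) (nat_lit 0xbce5e52ef93809aa49c24d12608c245722ad1408964312180ca064a31a1888c3c6122ef16a4b0057e2be15e8abe5532a4938099c4cc2540014006001)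 (nat_lit 0))) (L (E (nat_lit 27) (nat_lit 0x30c179cbcc5e52ef93d09a64c823c91d88cc463230915c89644a220104881c3111840b084b92520014006001) (nat_lit 0)))) (N (nat_lit 7045) (L (E (nat_lit 23) (nat_lit 0x47c9d04bce5e62ef97509cc4baa5592988c446122b912c8944401ea8f507a62768014006001) (nat_lit 0))) (L (E (nat_lit 51) (nat_lit 0x30c179cbcc4e626a934c9904baa5ad29893849a24c11e48eb46623191848b445722ad14089b44b21890c081c3d41940c946343111848bbc5a92cc1600afc57a2b7157cab05532a4938099c4cc2540014006001) (nat_lit 0))))) (N (nat_lit 7047) (L (E (nat_lit 7) (nat_lit 0x26a12f28b04570014006001) (nat_lit 0))) (N (nat_lit 7048) (L (E (nat_lit 16) (nat_lit 0x4bca5791d88c446122c115c8944432200b385802a30014006001) (nat_lit 0))) (L (E (nat_lit 12) (nat_lit 0x47923b91d88dc46b235118c8b24420014006001) (nat_lit 0)))))) (N (nat_lit 7053) (N (nat_lit 7051) (N (nat_lit 7050) (L (E (nat_lit 16) (nat_lit 0x8073e81ac08b02d51610ade55d2a91518a6051c0660014006001)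 (nat_lit 0))) (L (E (nat_lit 27) (nat_lit 0x4039f40d604c625d92c895247923a11a88c545922a113488342f1b80ba459c2bf95bcab051c0c08014006001) (nat_lit 0)))) (N (nat_lit 7052) (L (E (nat_lit 35) (nat_lit 0x4039f40d8e6b9358152ea844c625d92c895248224091e48e8462a2c915088342f19c0c946302e916a8b385842bf95bcabc51c0c08014006001) (nat_lit 0))) (L (E (nat_lit 36) (nat_lit 0x8073e81b1cd726b02a113189764b225492048f247423151648b0454225910685e37019c0c946302e916a8b5059c2c215fcade51c1a00014006001) (nat_lit 0))))) (N (nat_lit 7055) (N (nat_lit 7054) (L (E (nat_lit 16) (nat_lit 0x46e23191688b24432180af856e2b615a8abe53a2940014006001) (nat_lit 0))) (L (E (nat_lit 40) (nat_lit 0x8073e81b1cd726b02a113189764b225492048f247423151688b2454225910c884441a178dc06703251910c605d22d516a0b385842bf9560a5051c1a00014006001) (nat_lit 0)))) (N (nat_lit 7056) (L (E (nat_lit 22) (nat_lit 0x201cfa06b023bd1608ab44d225910885e2d41610ae456d2ae14e8a642280c08014006001)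 (nat_lit 0))) (L (E (nat_lit 28) (nat_lit 0x8073e81ac096a4b325911de8b0455a2591088664302178dc064a31016a0b085802bf1560a8c53a1a00014006001) (nat_lit 0))))))))
def cl141 : RA := N (nat_lit 6975) (N (nat_lit 6928) (N (nat_lit 6899) (N (nat_lit 6898) (N (nat_lit 6895) (N (nat_lit 6894) (N (nat_lit 6893) (L (E (nat_lit 18) (nat_lit 0x1840c085f82f91798bbc5d02e6934898d4be25e52c69584a00014006001) (nat_lit 0))) (L (E (nat_lit 12) (nat_lit 0x7c22f81798bbe5de2eb174cba24ab0014006001) (nat_lit 0)))) (L (E (nat_lit 20) (nat_lit 0x7c230517c0bcc5de2eb17449d34d226412f89684b325912c49564a20014006001) (nat_lit 0)))) (N (nat_lit 6896) (L (E (nat_lit 8) (nat_lit 0x4d225e51608ae4420014006001) (nat_lit 0))) (N (nat_lit 6897) (L (E (nat_lit 8) (nat_lit 0x458a20d0e886c4300014006001) (nat_lit 0))) (L (E (nat_lit 9) (nat_lit 0x8b144b22110e886c4300014006001) (nat_lit 0)))))) (L (E (nat_lit 8) (nat_lit 0x458a2591088744360014006001)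 (nat_lit 0)))) (N (nat_lit 6914) (N (nat_lit 6907) (N (nat_lit 6904) (N (nat_lit 6902) (N (nat_lit 6901) (N (nat_lit 6900) (L (E (nat_lit 13) (nat_lit 0x9964bca5a91dc8b144222090d859a2a40014006001) (nat_lit 0))) (L (E (nat_lit 13) (nat_lit 0x5aa2cc15c0adc56a2ac1520a8c5382930014006001) (nat_lit 0)))) (L (E (nat_lit 23) (nat_lit 0x299931495e48123b91d68c245722a10ea85c2ef16e0b545982b815a8ab05482930014006001) (nat_lit 0)))) (N (nat_lit 6903) (L (E (nat_lit 12) (nat_lit 0x4dca69132c9794419670b345982b78014006001) (nat_lit 0))) (L (E (nat_lit 8) (nat_lit 0x4d226352f29694570014006001) (nat_lit 0))))) (N (nat_lit 6906) (N (nat_lit 6905) (L (E (nat_lit 9) (nat_lit 0x9a84d226352f28ae4418014006001) (nat_lit 0))) (L (E (nat_lit 9) (nat_lit 0x9a84d226352f28ae43a8014006001) (nat_lit 0)))) (L (E (nat_lit 9) (nat_lit 0x9a84d226352f28ae4420014006001) (nat_lit 0))))) (N (nat_lit 6910) (N (nat_lit 6909) (N (nat_lit 6908)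 (L (E (nat_lit 9) (nat_lit 0x9a44c6a5e515c88443a0014006001) (nat_lit 0))) (L (E (nat_lit 12) (nat_lit 0x4e826a534898a4bca5d12d09564970014006001) (nat_lit 0)))) (L (E (nat_lit 9) (nat_lit 0x9a44c6a5e52ac8ae4420014006001) (nat_lit 0)))) (N (nat_lit 6912) (N (nat_lit 6911) (L (E (nat_lit 8) (nat_lit 0x477225910487e43a8014006001) (nat_lit 0))) (L (E (nat_lit 13) (nat_lit 0x5aa2cc1610adc55e2ac1520a8c53a29c0014006001) (nat_lit 0)))) (N (nat_lit 6913) (L (E (nat_lit 13) (nat_lit 0x9794b1a564b305842b815b8a9054629c0014006001) (nat_lit 0))) (L (E (nat_lit 11) (nat_lit 0x26a53489a24c625e52d28ae43a8014006001) (nat_lit 0))))))) (N (nat_lit 6923) (N (nat_lit 6919) (N (nat_lit 6917) (N (nat_lit 6916) (N (nat_lit 6915) (L (E (nat_lit 13) (nat_lit 0x9b84d225e52c69584ab1698b0856f2a30014006001) (nat_lit 0))) (L (E (nat_lit 17) (nat_lit 0x9e04e626e134899e4c425e52b095647622c51505842b78014006001) (nat_lit 0)))) (L (E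 (nat_lit 17) (nat_lit 0xa4650e278134896837019c8c946202dc966cae056d1a00014006001) (nat_lit 0)))) (N (nat_lit 6918) (L (E (nat_lit 26) (nat_lit 0x13c09cc4d4a69133c9884bca5a12c495847623611648aa44d221110087e32516e4b305802b80014006001) (nat_lit 0))) (L (E (nat_lit 15) (nat_lit 0x27313529a44bca5612ac8ec457220cb0056e2a48014006001) (nat_lit 0))))) (N (nat_lit 6921) (N (nat_lit 6920) (L (E (nat_lit 12) (nat_lit 0x4b1a5611048752c215c0adc5582a48014006001) (nat_lit 0))) (L (E (nat_lit 13) (nat_lit 0x9cc4d4a6912f29684ac22b90ea5802b70014006001) (nat_lit 0)))) (N (nat_lit 6922) (L (E (nat_lit 10) (nat_lit 0x13529794b4258915c8752c08014006001) (nat_lit 0))) (L (E (nat_lit 13) (nat_lit 0x8eb46122c510665c2c215b0ab05341a00014006001) (nat_lit 0)))))) (N (nat_lit 6925) (N (nat_lit 6924) (L (E (nat_lit 8) (nat_lit 0x4d4a6912f28ae43a8014006001) (nat_lit 0))) (L (E (nat_lit 11) (nat_lit 0x26e134898c4bca58d15c88243a8014006001)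 (nat_lit 0)))) (N (nat_lit 6927) (N (nat_lit 6926) (L (E (nat_lit 10) (nat_lit 0x131897945722090ea5842c08014006001) (nat_lit 0))) (L (E (nat_lit 9) (nat_lit 0x98c4bca2c50ea5842c08014006001) (nat_lit 0)))) (L (E (nat_lit 11) (nat_lit 0x26a13489924c625e52d09624ab0014006001) (nat_lit 0)))))))) (cl139)) (N (nat_lit 7002) (N (nat_lit 6988) (N (nat_lit 6983) (N (nat_lit 6979) (N (nat_lit 6978) (N (nat_lit 6977) (N (nat_lit 6976) (L (E (nat_lit 14) (nat_lit 0x17a0a94533299110c6ae2a51520a8854217f0014006001) (nat_lit 0))) (L (E (nat_lit 13) (nat_lit 0xa664d4a6912f296346122c50c456e2b60014006001) (nat_lit 0)))) (L (E (nat_lit 13) (nat_lit 0xa664d4a6912f28c2458a2150c456e2b60014006001) (nat_lit 0)))) (L (E (nat_lit 6) (nat_lit 0x13489794570014006001) (nat_lit 0)))) (N (nat_lit 6981) (N (nat_lit 6980) (L (E (nat_lit 14) (nat_lit 0x13509924be25d92d09664b22548ae056e2b60014006001) (nat_lit 0))) (L (E (nat_lit 18)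 (nat_lit 0x13a09a84c926292f29684b1231115c89a2d395c0adc56c29c8014006001) (nat_lit 0)))) (N (nat_lit 6982) (L (E (nat_lit 20) (nat_lit 0x922b0c14cc8ee41a20c10145be2d61618ae45702ae1528a9053a10c8014006001) (nat_lit 0))) (L (E (nat_lit 10) (nat_lit 0x13509794b122c510a5a729c8014006001) (nat_lit 0)))))) (N (nat_lit 6987) (N (nat_lit 6985) (N (nat_lit 6984) (L (E (nat_lit 10) (nat_lit 0x1350979458a2b910a5a729c8014006001) (nat_lit 0))) (L (E (nat_lit 9) (nat_lit 0x9a94bca3bd1628ae44d0014006001) (nat_lit 0)))) (N (nat_lit 6986) (L (E (nat_lit 8) (nat_lit 0x4bca2c510a5a729c8014006001) (nat_lit 0))) (L (E (nat_lit 9) (nat_lit 0x9ce4d4a5e51608ae4428014006001) (nat_lit 0))))) (L (E (nat_lit 7) (nat_lit 0x26a134a9794b18014006001) (nat_lit 0))))) (N (nat_lit 6995) (N (nat_lit 6993) (N (nat_lit 6991) (N (nat_lit 6990) (N (nat_lit 6989) (L (E (nat_lit 20) (nat_lit 0x8b14011b5cab84dd26d918a8b244d2258c445ce2d39600afc55829c8014006001)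 (nat_lit 0))) (L (E (nat_lit 25) (nat_lit 0x116280236b95709ba4db23151648b0457226912c88243c9888b9c5a72c015b8ab055429c8014006001) (nat_lit 0)))) (L (E (nat_lit 23) (nat_lit 0x458a008dae55c26e936c8ef45922c115c896442a1c0b9c5a72c015b8ab055429c8014006001) (nat_lit 0)))) (N (nat_lit 6992) (L (E (nat_lit 12) (nat_lit 0x4e927412f296b45822b910a5a729c8014006001) (nat_lit 0))) (L (E (nat_lit 11) (nat_lit 0x2ef92f28c445922c115c8852b60014006001) (nat_lit 0))))) (N (nat_lit 6994) (L (E (nat_lit 8) (nat_lit 0x47723151648964428014006001) (nat_lit 0))) (L (E (nat_lit 6) (nat_lit 0x12f28ae4428014006001) (nat_lit 0))))) (N (nat_lit 6996) (L (E (nat_lit 5) (nat_lit 0xdb46c73574006001) (nat_lit 0))) (N (nat_lit 6999) (N (nat_lit 6998) (N (nat_lit 6997) (L (E (nat_lit 15) (nat_lit 0x3691ab8d304d526352f28d846122c91608ae42f0014006001) (nat_lit 0))) (L (E (nat_lit 15) (nat_lit 0x2ef93509794afa5611dc8c645822b91548864410014006001)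 (nat_lit 0)))) (L (E (nat_lit 22) (nat_lit 0x1844bfc5f426fc9e44e227013789b84d2268130097c4ba25912b095049a23d0014006001) (nat_lit 0)))) (N (nat_lit 7001) (N (nat_lit 7000) (L (E (nat_lit 25) (nat_lit 0xd4c4d426292f296848323811b08d646a23191608ae4552208c6c6142ef15b4ab84c023d0014006001) (nat_lit 0))) (L (E (nat_lit 7) (nat_lit 0x26a53149794570014006001) (nat_lit 0)))) (L (E (nat_lit 24) (nat_lit 0x6a626a13149794b424191c08d846b235118c8b045722a910463630a15b4ab84c023d0014006001) (nat_lit 0)))))))) (cl140))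
def cl142 : RA := N (nat_lit 7107) (N (nat_lit 7097) (N (nat_lit 7090) (N (nat_lit 7087) (N (nat_lit 7086) (N (nat_lit 7085) (N (nat_lit 7084) (L (E (nat_lit 19) (nat_lit 0x363937c9a84ca26012fc97749c1978c9464631a17d88f042c2070014006001) (nat_lit 0))) (L (E (nat_lit 34) (nat_lit 0x13ec9a84d126012ee9684ab24e12108e446c23391888c244ea2590607f83f91fa8fcc7e23d41e60cbc64a31a17d8b2056a29a0014006001) (nat_lit 0)))) (L (E (nat_lit 10) (nat_lit 0x13489a24caa6012f09684ab0014006001) (nat_lit 0)))) (L (E (nat_lit 10) (nat_lit 0x13289924baa2c91348822c00014006001) (nat_lit 0)))) (N (nat_lit 7089) (N (nat_lit 7088) (L (E (nat_lit 16) (nat_lit 0x4dd26a13489a24ca26312fc8b144b22511088822b68014006001) (nat_lit 0))) (L (E (nat_lit 10) (nat_lit 0x131a8b144b2210b5056d2ae0014006001) (nat_lit 0)))) (L (E (nat_lit 16) (nat_lit 0x4dd26a13489a24ca25f92f08b144b22511088822b68014006001) (nat_lit 0))))) (N (nat_lit 7094) (N (nat_lit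 7092) (N (nat_lit 7091) (L (E (nat_lit 15) (nat_lit 0x26e93509a44d126512fc978458a2591288822b68014006001) (nat_lit 0))) (L (E (nat_lit 9) (nat_lit 0x8b144b225110a56d2a30014006001) (nat_lit 0)))) (N (nat_lit 7093) (L (E (nat_lit 10) (nat_lit 0x1376978458a2591285a82b68014006001) (nat_lit 0))) (L (E (nat_lit 14) (nat_lit 0x13509a44d126512fc978458a2591288822b68014006001) (nat_lit 0))))) (N (nat_lit 7095) (L (E (nat_lit 13) (nat_lit 0x9a84d2268932897e4bc22c512c8942b68014006001) (nat_lit 0))) (N (nat_lit 7096) (L (E (nat_lit 11) (nat_lit 0x26a13489a24bc22c11065a92b68014006001) (nat_lit 0))) (L (E (nat_lit 9) (nat_lit 0x9f64dca6a13489684b30014006001) (nat_lit 0))))))) (N (nat_lit 7099) (N (nat_lit 7098) (L (E (nat_lit 12) (nat_lit 0x4d426913449944bf25e11608832b68014006001) (nat_lit 0))) (L (E (nat_lit 10) (nat_lit 0x13509a24ca25f92f09744b48014006001) (nat_lit 0)))) (N (nat_lit 7103) (N (nat_lit 7101) (N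 (nat_lit 7100) (L (E (nat_lit 13) (nat_lit 0x9a44bc23051608ae44b22511248844410014006001) (nat_lit 0))) (L (E (nat_lit 5) (nat_lit 0xffe610aa60b3214e) (nat_lit 0)))) (N (nat_lit 7102) (L (E (nat_lit 15) (nat_lit 0x26a13489a24ca25f92f08ae44b22511085a82b68014006001) (nat_lit 0))) (L (E (nat_lit 12) (nat_lit 0x4ca25f92f08c344da2090fc5a92b68014006001) (nat_lit 0))))) (N (nat_lit 7105) (N (nat_lit 7104) (L (E (nat_lit 22) (nat_lit 0x1b68d8e699317d56cab4521273134499e4c425dd20c8cc2cc1648ada55c2aa0014006001) (nat_lit 0))) (L (E (nat_lit 26) (nat_lit 0x1b68d8e62faad95689e24e626e134498c4bc25d12e494c4832330b2c5922b69570aa84ec2640014006001) (nat_lit 0)))) (N (nat_lit 7106) (L (E (nat_lit 13) (nat_lit 0x9a84d126512fc978461a25912856d2a48014006001) (nat_lit 0))) (L (E (nat_lit 14) (nat_lit 0x13509a44d126512fc97845722591288842b68014006001) (nat_lit 0)))))))) (N (nat_lit 7116) (N (nat_lit 7112) (N (nat_lit 7108)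 (L (E (nat_lit 13) (nat_lit 0x9a84d2268932897e4bc22b912c8942b68014006001) (nat_lit 0))) (N (nat_lit 7110) (N (nat_lit 7109) (L (E (nat_lit 11) (nat_lit 0x26892f096645822b912c8944428014006001) (nat_lit 0))) (L (E (nat_lit 8) (nat_lit 0x461a2c112c8944428014006001) (nat_lit 0)))) (N (nat_lit 7111) (L (E (nat_lit 17) (nat_lit 0x9a84d225f92a48b045722591288852c015b8ad85582a30014006001) (nat_lit 0))) (L (E (nat_lit 10) (nat_lit 0x134499f4ca264131897449e0014006001) (nat_lit 0)))))) (N (nat_lit 7114) (N (nat_lit 7113) (L (E (nat_lit 15) (nat_lit 0x26a13489a24ca25f92f08c045822591288852b78014006001) (nat_lit 0))) (L (E (nat_lit 15) (nat_lit 0x26a13489a24ca25f92f08b045722591288852c00014006001) (nat_lit 0)))) (N (nat_lit 7115) (L (E (nat_lit 10) (nat_lit 0x11828b0457226912c8944310014006001) (nat_lit 0))) (L (E (nat_lit 21) (nat_lit 0x116247723a91d08b045522510bc84c3e3165cafe5722b79520a8c4481530014006001) (nat_lit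 0)))))) (N (nat_lit 7121) (N (nat_lit 7119) (N (nat_lit 7118) (N (nat_lit 7117) (L (E (nat_lit 14) (nat_lit 0x13be9a44b3a3191607d22e415fcade55d2950014006001) (nat_lit 0))) (L (E (nat_lit 27) (nat_lit 0x36d1b1cd3255b2ad13c09d04e626d934e9a24c626212c89524a224191986a634d1a30cfc6703350014006001) (nat_lit 0)))) (L (E (nat_lit 39) (nat_lit 0x45893989b84d226893289884bc23b91d48e846c233118c8c4458226912c89444121f90bc84c3e91f18cd46022e41648ae456f2aa1520a544481530014006001) (nat_lit 0)))) (N (nat_lit 7120) (L (E (nat_lit 8) (nat_lit 0x2d51660b2c5902bf8014006001) (nat_lit 0))) (L (E (nat_lit 15) (nat_lit 0x26a13489a24ca25f92f08b044d22591288822b78014006001) (nat_lit 0))))) (N (nat_lit 7125) (N (nat_lit 7123) (N (nat_lit 7122) (L (E (nat_lit 14) (nat_lit 0x13509a44d126512fc97845822591288822b78014006001) (nat_lit 0))) (L (E (nat_lit 16) (nat_lit 0x521265932898c4be2560b545982bf95b8ab05492a20014006001) (nat_lit 0))))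 (N (nat_lit 7124) (L (E (nat_lit 20) (nat_lit 0x7b329514849964ca26312f89583fa1f38b2e57f2b71524a8853a2950014006001) (nat_lit 0))) (L (E (nat_lit 30) (nat_lit 0x1eccc084dc265932897e4be25dd2b0946453227112489042f2168fe87ce3d51700b2e57f2b71510a7452a23e0014006001) (nat_lit 0))))) (N (nat_lit 7127) (N (nat_lit 7126) (L (E (nat_lit 14) (nat_lit 0x148ca424001ff8ff07f43f196a8b085722ac8014006001) (nat_lit 0))) (L (E (nat_lit 21) (nat_lit 0xa424ca25f92f09524a3235d18689b44b222910485e42915fcadc5462950014006001) (nat_lit 0)))) (N (nat_lit 7128) (L (E (nat_lit 23) (nat_lit 0x23191888b045722591047f43e91f18b545a82cd1658afe56e2b01560aa854829a0014006001) (nat_lit 0))) (L (E (nat_lit 7) (nat_lit 0x1738b565a72cd0014006001) (nat_lit 0))))))))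
def cl143 : RA := N (nat_lit 7153) (N (nat_lit 7143) (N (nat_lit 7137) (N (nat_lit 7133) (N (nat_lit 7131) (N (nat_lit 7130) (L (E (nat_lit 23) (nat_lit 0x23191888ae44b220900c7f43e91f18b9c5802bf95c4ac05582aa1520a683880a30014006001) (nat_lit 0))) (L (E (nat_lit 12) (nat_lit 0x6af34c9488a4246e9978c986383130014006001) (nat_lit 0)))) (N (nat_lit 7132) (L (E (nat_lit 30) (nat_lit 0x22c4d5e52a27093509a44d126713289924c8263131096746323111608ae44b1fe0fe47b432f1960c706202440014006001) (nat_lit 0))) (L (E (nat_lit 29) (nat_lit 0x11624efa70936c9a84d2263131096746323111608ae44b1fe0fe465e32c16a8b305842bf95b8ab05492a20014006001) (nat_lit 0))))) (N (nat_lit 7135) (N (nat_lit 7134) (L (E (nat_lit 18) (nat_lit 0x156cab452b273d3509a64d226892ec89c31c126862823a09d0014006001) (nat_lit 0))) (L (E (nat_lit 23) (nat_lit 0x277d3709a84d226512f0972463231115c89644119a8b5c5aa2cc15fcae25582a48014006001) (nat_lit 0)))) (N (nat_lit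 7136) (L (E (nat_lit 14) (nat_lit 0x13509a44ca25f92f08b045722591288822bf8014006001) (nat_lit 0))) (L (E (nat_lit 14) (nat_lit 0x134897845822b912c89444115f8ad85582a30014006001) (nat_lit 0)))))) (N (nat_lit 7140) (N (nat_lit 7138) (L (E (nat_lit 11) (nat_lit 0x26892f08ae44b2210b0056e2a38014006001) (nat_lit 0))) (N (nat_lit 7139) (L (E (nat_lit 13) (nat_lit 0xc2c6073031814c085e8af0d77cba45cd0014006001) (nat_lit 0))) (L (E (nat_lit 29) (nat_lit 0xc0c6042ef174c9f24d125f92ee9704a324911b08c045aa2b90e88703fa165cb145842be95d8ab254929d0014006001) (nat_lit 0))))) (N (nat_lit 7142) (N (nat_lit 7141) (L (E (nat_lit 32) (nat_lit 0x6063021778ba64f926892fc9774b825192488d846022d515c8744381fd0b545842c015f8afa56c2ae1564a9454929d0014006001) (nat_lit 0))) (L (E (nat_lit 15) (nat_lit 0x26a13489a24ca25f92f08b045722591288822c00014006001) (nat_lit 0)))) (L (E (nat_lit 14) (nat_lit 0x13509a44d126512fc97845822b912c8942c00014006001)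 (nat_lit 0)))))) (N (nat_lit 7150) (N (nat_lit 7147) (N (nat_lit 7145) (N (nat_lit 7144) (L (E (nat_lit 11) (nat_lit 0x26a13449944bf25e11628944418014006001) (nat_lit 0))) (L (E (nat_lit 15) (nat_lit 0x26e53509a44bf25991b08c2458a2111045802b70014006001) (nat_lit 0)))) (N (nat_lit 7146) (L (E (nat_lit 15) (nat_lit 0x26e53509a44bf25991b08c2458a208b0057e2ac8014006001) (nat_lit 0))) (L (E (nat_lit 16) (nat_lit 0x6bc272936c9a84ca25f91828b144a22150a65802ac8014006001) (nat_lit 0))))) (N (nat_lit 7149) (N (nat_lit 7148) (L (E (nat_lit 12) (nat_lit 0x6ce36353729a84ca25f92ee8b144b0014006001) (nat_lit 0))) (L (E (nat_lit 14) (nat_lit 0x13729a84d226512fc97845722591285802ac8014006001) (nat_lit 0)))) (L (E (nat_lit 16) (nat_lit 0x4dc269131497e4bb259d2bc8c1458a2591288844310014006001) (nat_lit 0))))) (N (nat_lit 7152) (N (nat_lit 7151) (L (E (nat_lit 16) (nat_lit 0x4dc269131a97e4b3a2c515c89644a2210b0057e2b60014006001)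 (nat_lit 0))) (L (E (nat_lit 16) (nat_lit 0x4dc269132897e4bb259d16289644a2210b0057e2b60014006001) (nat_lit 0)))) (L (E (nat_lit 7) (nat_lit 0x19c8cbc64a3088014006001) (nat_lit 0)))))) (N (nat_lit 7167) (N (nat_lit 7161) (N (nat_lit 7158) (N (nat_lit 7156) (N (nat_lit 7155) (N (nat_lit 7154) (L (E (nat_lit 14) (nat_lit 0xc6462030817d8b345862c21600afc5702a30014006001) (nat_lit 0))) (L (E (nat_lit 25) (nat_lit 0xdd66ea3731b649e04e6270936c9a44ca26413189674ab1978cb865a32c0cc065c32c1950014006001) (nat_lit 0)))) (L (E (nat_lit 26) (nat_lit 0x1b98d5e52a274d32898c4ba259d2ac910460a2c512885331016e8b725862c01564a945382530014006001) (nat_lit 0)))) (N (nat_lit 7157) (L (E (nat_lit 20) (nat_lit 0x6af29513509a44ca26312fc9744b1230515c8944421880b005592530014006001) (nat_lit 0))) (L (E (nat_lit 14) (nat_lit 0x13509a44d126512fc8ae44a2210b0057e2ac8014006001) (nat_lit 0))))) (N (nat_lit 7159) (L (E (nat_lit 15) (nat_lit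 0x26a13489a24ca25f92ac95246022c515c8964410014006001) (nat_lit 0))) (N (nat_lit 7160) (L (E (nat_lit 13) (nat_lit 0x9a84d2268932897e4572250b0057e2ac8014006001) (nat_lit 0))) (L (E (nat_lit 15) (nat_lit 0x26a13489a24ca26312fc8c2458a25110a58029c0014006001) (nat_lit 0)))))) (N (nat_lit 7165) (N (nat_lit 7163) (N (nat_lit 7162) (L (E (nat_lit 12) (nat_lit 0x500272937e9a44d125f92ac9524a30014006001) (nat_lit 0))) (L (E (nat_lit 18) (nat_lit 0x13709a84d2265131897e4b3a30515c89644a2150b205802be0014006001) (nat_lit 0)))) (N (nat_lit 7164) (L (E (nat_lit 14) (nat_lit 0x13509a44d126512fc96745722591285802bf0014006001) (nat_lit 0))) (L (E (nat_lit 10) (nat_lit 0x13509a44ca26352fc9784b30014006001) (nat_lit 0))))) (N (nat_lit 7166) (L (E (nat_lit 18) (nat_lit 0x13509a44d1265132497e4bc22c915c89a44b22511045802bf0014006001) (nat_lit 0))) (L (E (nat_lit 13) (nat_lit 0x9a84d2268932897e4bc22b912c8942c00014006001) (nat_lit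 0)))))) (N (nat_lit 7175) (N (nat_lit 7170) (N (nat_lit 7169) (N (nat_lit 7168) (L (E (nat_lit 14) (nat_lit 0x13509a44c6a5f92ce8c2458a2591288852b98014006001) (nat_lit 0))) (L (E (nat_lit 15) (nat_lit 0x26e13509a44c6a5f92ce8c2458a25912856e2b60014006001) (nat_lit 0)))) (L (E (nat_lit 12) (nat_lit 0x4c625d92c895246122c51288844310014006001) (nat_lit 0)))) (N (nat_lit 7173) (N (nat_lit 7172) (N (nat_lit 7171) (L (E (nat_lit 19) (nat_lit 0x3581a9cd4969327313849b64ca264932098c4c425a12c895c4a00014006001) (nat_lit 0))) (L (E (nat_lit 15) (nat_lit 0x34993a69b84d4269132897e4bba59d1828b12ac8014006001) (nat_lit 0)))) (L (E (nat_lit 16) (nat_lit 0x4dfa69134497e4ab25491c48de46c23191888ae44b0014006001) (nat_lit 0)))) (N (nat_lit 7174) (L (E (nat_lit 14) (nat_lit 0x13709a84d2268932897e4b3a2c512c8944420014006001) (nat_lit 0))) (L (E (nat_lit 15) (nat_lit 0x26e13509a44d126512fc96746122c512c8942b70014006001) (nat_lit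 0)))))) (N (nat_lit 7178) (N (nat_lit 7177) (N (nat_lit 7176) (L (E (nat_lit 12) (nat_lit 0x6c6b5e13729a84ca25f92ee8b144b0014006001) (nat_lit 0))) (L (E (nat_lit 14) (nat_lit 0x13509a44d126512fc96746122c512c8942b70014006001) (nat_lit 0)))) (L (E (nat_lit 10) (nat_lit 0x13509a44ca26352fc9784b30014006001) (nat_lit 0)))) (N (nat_lit 7179) (L (E (nat_lit 15) (nat_lit 0x26a13489a24ca25f92f09764b3230916289644a0014006001) (nat_lit 0))) (L (E (nat_lit 14) (nat_lit 0x13509a44d126512fc97846122c512c8942b70014006001) (nat_lit 0)))))))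
def cl144 : RA := N (nat_lit 7205) (N (nat_lit 7182) (N (nat_lit 7181) (L (E (nat_lit 7) (nat_lit 0x26892ee9684b30014006001) (nat_lit 0))) (L (E (nat_lit 11) (nat_lit 0x26912f08c145822b912c8944410014006001) (nat_lit 0)))) (N (nat_lit 7191) (N (nat_lit 7185) (N (nat_lit 7184) (N (nat_lit 7183) (L (E (nat_lit 12) (nat_lit 0x4d2259d1848b0457225912857e2b60014006001) (nat_lit 0))) (L (E (nat_lit 9) (nat_lit 0x9a84d126512fc9774b30014006001) (nat_lit 0)))) (L (E (nat_lit 11) (nat_lit 0x26912f08d645822b912c8944410014006001) (nat_lit 0)))) (N (nat_lit 7187) (N (nat_lit 7186) (L (E (nat_lit 12) (nat_lit 0x4d426913449944bf25e115c89644a0014006001) (nat_lit 0))) (L (E (nat_lit 9) (nat_lit 0x5ce2bf1560a905462950014006001) (nat_lit 0)))) (N (nat_lit 7189) (N (nat_lit 7188) (L (E (nat_lit 14) (nat_lit 0x13749a44d126312ec96245922c11065482950014006001) (nat_lit 0))) (L (E (nat_lit 16) (nat_lit 0x5492a414c4a382ec1720b6c5ab2c715fcae055c2ac0014006001)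 (nat_lit 0)))) (N (nat_lit 7190) (L (E (nat_lit 20) (nat_lit 0x5492a414c4a382e416d8b645a82cc1638afe5722b79570a905462a10014006001) (nat_lit 0))) (L (E (nat_lit 24) (nat_lit 0x54929894708a84492170bbc5da2e416d8b645a82cc1638afe5722ae1520a8c53a29c0014006001) (nat_lit 0))))))) (N (nat_lit 7200) (N (nat_lit 7195) (N (nat_lit 7193) (N (nat_lit 7192) (L (E (nat_lit 5) (nat_lit 0x56d2a414e000a001) (nat_lit 0))) (L (E (nat_lit 12) (nat_lit 0x4d3a6892fc9784b322c115c89644a0014006001) (nat_lit 0)))) (N (nat_lit 7194) (L (E (nat_lit 11) (nat_lit 0x269d34497e4bc22c115c89644a0014006001) (nat_lit 0))) (L (E (nat_lit 12) (nat_lit 0x4d3a68932a98c4ba259d16289644a0014006001) (nat_lit 0))))) (N (nat_lit 7198) (N (nat_lit 7197) (N (nat_lit 7196) (L (E (nat_lit 11) (nat_lit 0x230516289644121d4b5659a2c90014006001) (nat_lit 0))) (L (E (nat_lit 20) (nat_lit 0x6cf3671b34c2e616230513489644a16e0b545a82d31648b005722a40014006001)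 (nat_lit 0)))) (L (E (nat_lit 19) (nat_lit 0x3679b34c2e46f235916289644a22111045b82d41668b245722a40014006001) (nat_lit 0)))) (N (nat_lit 7199) (L (E (nat_lit 10) (nat_lit 0x13489a24caa5dd1628962bf0014006001) (nat_lit 0))) (L (E (nat_lit 8) (nat_lit 0x458a2511228834360014006001) (nat_lit 0)))))) (N (nat_lit 7203) (N (nat_lit 7202) (N (nat_lit 7201) (L (E (nat_lit 11) (nat_lit 0x269d3449954bc25d916289644a0014006001) (nat_lit 0))) (L (E (nat_lit 11) (nat_lit 0x3725b50d806b52088b5e4620ac0014006001) (nat_lit 0)))) (L (E (nat_lit 11) (nat_lit 0x26a13489a24bf25e115c89644a0014006001) (nat_lit 0)))) (N (nat_lit 7204) (L (E (nat_lit 10) (nat_lit 0x13509a44d125f92f08b14418014006001) (nat_lit 0))) (L (E (nat_lit 8) (nat_lit 0x2d51604ae45462940014006001) (nat_lit 0)))))))) (N (nat_lit 7230) (N (nat_lit 7219) (N (nat_lit 7213) (N (nat_lit 7210) (N (nat_lit 7208) (N (nat_lit 7207) (N (nat_lit 7206) (L (E (nat_lit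 26) (nat_lit 0x180cbdc47723a91d082c3f916a8b505a62d015f8aa84dc26412d09644a825312909404922420014006001) (nat_lit 0))) (L (E (nat_lit 22) (nat_lit 0x1b70d724d2268932a9784bb25a11d07f22e216e0b3057e2b612d09504a02490014006001) (nat_lit 0)))) (L (E (nat_lit 20) (nat_lit 0x4d426913289924c525f92f097645922691045aa2cc1600afc56c2a40014006001) (nat_lit 0)))) (N (nat_lit 7209) (L (E (nat_lit 17) (nat_lit 0x9a84d126593289924bc21d10d85aa2cc1604ae45702ac0014006001) (nat_lit 0))) (L (E (nat_lit 12) (nat_lit 0x4e826a13489a24ca25f92f09744b30014006001) (nat_lit 0))))) (N (nat_lit 7212) (N (nat_lit 7211) (L (E (nat_lit 21) (nat_lit 0x9d04d4268932c9944c925f92f09764b725010e886c2d51660b025702ac0014006001) (nat_lit 0))) (L (E (nat_lit 11) (nat_lit 0x26a13449964ca26493189764b38014006001) (nat_lit 0)))) (L (E (nat_lit 19) (nat_lit 0x3d597008ee47523a10e886c2c995a8a885281cf0af856c2a00aa0014006001) (nat_lit 0))))) (N (nat_lit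 7216) (N (nat_lit 7215) (N (nat_lit 7214) (L (E (nat_lit 24) (nat_lit 0x7ab2e013a69cc4dc26a131a97d47523a10e886c2d31670b025642ac9520a502b61500014006001) (nat_lit 0))) (L (E (nat_lit 22) (nat_lit 0x1eacb804df26a13449944bf25d92ce90247723a91d08854361660b0255915b0014006001) (nat_lit 0)))) (L (E (nat_lit 36) (nat_lit 0x7ab36e1ae4b804df26a13489a24cb264931497e4bc25d928090247523a11648854361fc8b885b82cc15f8ae056c25a12a094049215b0014006001) (nat_lit 0)))) (N (nat_lit 7217) (L (E (nat_lit 10) (nat_lit 0x13509a44d125f92f08b144b0014006001) (nat_lit 0))) (N (nat_lit 7218) (L (E (nat_lit 13) (nat_lit 0x9a84d225f92ec96745822b912c8852b68014006001) (nat_lit 0))) (L (E (nat_lit 13) (nat_lit 0x9a84d226892fc9674572258b0057e2ac0014006001) (nat_lit 0))))))) (N (nat_lit 7224) (N (nat_lit 7222) (N (nat_lit 7221) (N (nat_lit 7220) (L (E (nat_lit 14) (nat_lit 0x134898c45822b912a8602c91600afc56c2ac0014006001) (nat_lit 0)))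 (L (E (nat_lit 14) (nat_lit 0x13509a44d126512fc9784572258b0057e2ac0014006001) (nat_lit 0)))) (L (E (nat_lit 10) (nat_lit 0x13489a24bc25d91608ae2ac8014006001) (nat_lit 0)))) (N (nat_lit 7223) (L (E (nat_lit 10) (nat_lit 0x134898c4bb22c91605802b60014006001) (nat_lit 0))) (L (E (nat_lit 12) (nat_lit 0x4d4269134497e4bc22b912c5802bf0014006001) (nat_lit 0))))) (N (nat_lit 7229) (N (nat_lit 7227) (N (nat_lit 7226) (N (nat_lit 7225) (L (E (nat_lit 10) (nat_lit 0x13449954bc22c115c8952c08014006001) (nat_lit 0))) (L (E (nat_lit 14) (nat_lit 0x13509a44d125f92f096646122b912c57e2b60014006001) (nat_lit 0)))) (L (E (nat_lit 19) (nat_lit 0x26a13489a24ca26312fc9784bb230915c8aa44b22010fc57e2b60014006001) (nat_lit 0)))) (N (nat_lit 7228) (L (E (nat_lit 18) (nat_lit 0x13509944bf23b918c8b245822b91388852d01670b265882bb0014006001) (nat_lit 0))) (L (E (nat_lit 11) (nat_lit 0x26a13489a24bf25e115c8962bf0014006001) (nat_lit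 0))))) (L (E (nat_lit 10) (nat_lit 0x13488b045722551085802b60014006001) (nat_lit 0)))))) (N (nat_lit 7234) (N (nat_lit 7231) (L (E (nat_lit 10) (nat_lit 0x13509a44d125f92f08ae44b0014006001) (nat_lit 0))) (N (nat_lit 7232) (L (E (nat_lit 7) (nat_lit 0x230d1608964428014006001) (nat_lit 0))) (N (nat_lit 7233) (L (E (nat_lit 13) (nat_lit 0x9a44c6a5fd2f08b0457225910a5802b60014006001) (nat_lit 0))) (L (E (nat_lit 14) (nat_lit 0x13509a44d125e12ec8b0457225910a5802b60014006001) (nat_lit 0)))))) (L (E (nat_lit 9) (nat_lit 0x9a24bc2184afc56c2ac0014006001) (nat_lit 0)))))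
def cl145 : RA := N (nat_lit 7270) (N (nat_lit 7253) (N (nat_lit 7242) (N (nat_lit 7237) (N (nat_lit 7236) (L (E (nat_lit 11) (nat_lit 0x26a13489a24cb26513189764b38014006001) (nat_lit 0))) (L (E (nat_lit 10) (nat_lit 0x13729a84d226892fe9764b40014006001) (nat_lit 0)))) (N (nat_lit 7240) (N (nat_lit 7239) (N (nat_lit 7238) (L (E (nat_lit 13) (nat_lit 0x9a84d226892f097645822b912c8852b60014006001) (nat_lit 0))) (L (E (nat_lit 10) (nat_lit 0x12ce8b045722591088822c08014006001) (nat_lit 0)))) (L (E (nat_lit 11) (nat_lit 0x26e534897845822b912c8844410014006001) (nat_lit 0)))) (N (nat_lit 7241) (L (E (nat_lit 13) (nat_lit 0x9a84d226892f097645822b912c8822b60014006001) (nat_lit 0))) (L (E (nat_lit 12) (nat_lit 0x4d426913449784bb22c115c8962b60014006001) (nat_lit 0)))))) (N (nat_lit 7246) (N (nat_lit 7245) (N (nat_lit 7244) (N (nat_lit 7243) (L (E (nat_lit 12) (nat_lit 0x4d4269134497f4bc25d915c8832b68014006001)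 (nat_lit 0))) (L (E (nat_lit 12) (nat_lit 0x4d426913449784bb22c115c8964420014006001) (nat_lit 0)))) (L (E (nat_lit 18) (nat_lit 0x15c2a3a4af21e903881b3f91ee8f6c7a93b118a0c4461e2ae8014006001) (nat_lit 0)))) (L (E (nat_lit 11) (nat_lit 0x26a13489a24bc25d91608ae44b0014006001) (nat_lit 0)))) (N (nat_lit 7250) (N (nat_lit 7248) (N (nat_lit 7247) (L (E (nat_lit 13) (nat_lit 0x9a44c825f12f09764ba22c512c8852b68014006001) (nat_lit 0))) (L (E (nat_lit 32) (nat_lit 0x6b035315049944c6a5612a48ea459204101863c31417e0bc05d82e21708b5059c2cc15f8ae456f2af1570a8c4a824c0014006001) (nat_lit 0)))) (N (nat_lit 7249) (L (E (nat_lit 36) (nat_lit 0x6b02a093809a84d2265932898d4b425611dc8ea4592030f7463c3141780bb05c42e116e0b4c59c2cd1660b0057e2b915b0abc5552540014006001) (nat_lit 0))) (L (E (nat_lit 22) (nat_lit 0x15049c04d4269132898d4bc256116289c44b2214c505c22c015f8ad855e2a30014006001) (nat_lit 0))))) (N (nat_lit 7252) (N (nat_lit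 7251) (L (E (nat_lit 19) (nat_lit 0x2a093d69c04d4269134498d4bc25d92b08ae44b2214b0056c2a30014006001) (nat_lit 0))) (L (E (nat_lit 12) (nat_lit 0x4d225d91de8b144e15f8ad45592a40014006001) (nat_lit 0)))) (L (E (nat_lit 15) (nat_lit 0x26352f89674a122c510a64c2db1604ae65672ac8014006001) (nat_lit 0))))))) (N (nat_lit 7261) (N (nat_lit 7260) (N (nat_lit 7256) (N (nat_lit 7254) (L (E (nat_lit 11) (nat_lit 0x26a13489a24bc25d915c8964428014006001) (nat_lit 0))) (N (nat_lit 7255) (L (E (nat_lit 13) (nat_lit 0x9a24bfa5e12ec8b144b22111045812ac0014006001) (nat_lit 0))) (L (E (nat_lit 14) (nat_lit 0x134497f4bc25d91628964421604afc56c2ac0014006001) (nat_lit 0))))) (N (nat_lit 7258) (N (nat_lit 7257) (L (E (nat_lit 10) (nat_lit 0x12ec8b1457220cb0255e2ac8014006001) (nat_lit 0))) (L (E (nat_lit 10) (nat_lit 0x13509a24bc25d915c8962c08014006001) (nat_lit 0)))) (N (nat_lit 7259) (L (E (nat_lit 16) (nat_lit 0x4d226512f89784bb22c51388964422208b0057e2b60014006001)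 (nat_lit 0))) (L (E (nat_lit 13) (nat_lit 0x9a84d226892f09764572258afc56e2b60014006001) (nat_lit 0)))))) (L (E (nat_lit 9) (nat_lit 0x9a24bc220cafc56c2ac0014006001) (nat_lit 0)))) (N (nat_lit 7266) (N (nat_lit 7264) (N (nat_lit 7263) (N (nat_lit 7262) (L (E (nat_lit 15) (nat_lit 0x26a13489a24cb26512f0976457227112c57e2b60014006001) (nat_lit 0))) (L (E (nat_lit 12) (nat_lit 0x4d225d916289c44b221110457f2af0014006001) (nat_lit 0)))) (L (E (nat_lit 11) (nat_lit 0x26a13489a24bc25d915c8962b60014006001) (nat_lit 0)))) (N (nat_lit 7265) (L (E (nat_lit 11) (nat_lit 0x26a13489a24bc25d915c8832b68014006001) (nat_lit 0))) (L (E (nat_lit 12) (nat_lit 0x4d426913449784bb22b91388962af0014006001) (nat_lit 0))))) (N (nat_lit 7267) (L (E (nat_lit 9) (nat_lit 0xdb46d935f5ac0d5e6a80014006001) (nat_lit 0))) (N (nat_lit 7269) (N (nat_lit 7268) (L (E (nat_lit 18) (nat_lit 0x1b64d786b33579aa0d4c4e026e91f48c8458a2591268844410014006001)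 (nat_lit 0))) (L (E (nat_lit 18) (nat_lit 0x1b64d786b33579a989c24e026e91f48c8458a27112c8944410014006001) (nat_lit 0)))) (L (E (nat_lit 15) (nat_lit 0x23b11b08c0458227112c894442a184adc55e2a30014006001) (nat_lit 0)))))))) (N (nat_lit 7276) (N (nat_lit 7271) (L (E (nat_lit 9) (nat_lit 0x9a84d226892f08ae44b0014006001) (nat_lit 0))) (N (nat_lit 7272) (L (E (nat_lit 6) (nat_lit 0x134a98a4bb8014006001) (nat_lit 0))) (N (nat_lit 7274) (N (nat_lit 7273) (L (E (nat_lit 22) (nat_lit 0x1b38d644dca6a134a9964c625e12ec8fe47e23bd1888b045722591048752b60014006001) (nat_lit 0))) (L (E (nat_lit 26) (nat_lit 0x1b38d644dca6a132c98c4bc25d91fc8fc46323111648b0457225910487542995f8ad855f2a98014006001) (nat_lit 0)))) (N (nat_lit 7275) (L (E (nat_lit 9) (nat_lit 0x3301900c486143081830c086002f2) (nat_lit 0))) (L (E (nat_lit 27) (nat_lit 0x274134a9984bc25a12ac8ee46323051648b045722111046343091658adc558297926860023a09d0014006001)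 (nat_lit 0))))))) (N (nat_lit 7292) (N (nat_lit 7284) (N (nat_lit 7279) (N (nat_lit 7277) (L (E (nat_lit 11) (nat_lit 0x26a134497845822b912c8844410014006001) (nat_lit 0))) (N (nat_lit 7278) (L (E (nat_lit 22) (nat_lit 0x1a50d2268e227912488343f21e50ea85232e1928c7463630a14b0a545242910014006001) (nat_lit 0))) (L (E (nat_lit 27) (nat_lit 0x30c177cb9a4dca4111e48e045b1a40d046462d61458a2050c28013c89c84d02650b885b82da16c0014006001) (nat_lit 0))))) (N (nat_lit 7282) (N (nat_lit 7281) (N (nat_lit 7280) (L (E (nat_lit 15) (nat_lit 0x359d570aaa54c2a49500a465222878ce86623150014006001) (nat_lit 0))) (L (E (nat_lit 15) (nat_lit 0x3711b6ad9e6b33591ac0d5c6a619d8ce86703360014006001) (nat_lit 0)))) (L (E (nat_lit 43) (nat_lit 0x3711b48da06be3591ab8d506182ef9570a9854029194889b947c23c91cc8b645522591288924481a40d0467633818a8c385982cb15e8ada5162881430a004e416d0014006001) (nat_lit 0)))) (N (nat_lit 7283) (L (E (nat_lit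 23) (nat_lit 0x3751b64da46d035f1accd506a634a13728e134118c0c385de2d49618b0057e2af8014006001) (nat_lit 0))) (L (E (nat_lit 17) (nat_lit 0xdb26d23681b1cd7c6b83599ac2d5c6a834a1a448a13378014006001) (nat_lit 0)))))) (N (nat_lit 7289) (N (nat_lit 7286) (N (nat_lit 7285) (L (E (nat_lit 11) (nat_lit 0x1a80d206823371970cb464a31b18d0c28604) (nat_lit 0))) (L (E (nat_lit 36) (nat_lit 0x6ea36c9b48da06c735f1ae0d666ae3541a98d2869126e52088f245b1a40d0465c32518d8c6863030e1850c085de2d49618b0057e2af8014006001) (nat_lit 0)))) (N (nat_lit 7288) (N (nat_lit 7287) (L (E (nat_lit 35) (nat_lit 0x3751b48da06c735f1ae0d666ae3541a98d2869126e52088f245b1a40d0465c32518d8c6863030e1850c085de2d49618b0057e2af8014006001) (nat_lit 0))) (L (E (nat_lit 14) (nat_lit 0x1ac0d4c4dc9a40d0465c32518d8c6863030a181000a001) (nat_lit 0)))) (L (E (nat_lit 15) (nat_lit 0x26a134497e4bc24111d08e6462a26d1068792b68014006001) (nat_lit 0))))) (N (nat_lit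 7291) (N (nat_lit 7290) (L (E (nat_lit 14) (nat_lit 0x13509a64c825e12ec9724b32588b845a72b68014006001) (nat_lit 0))) (L (E (nat_lit 13) (nat_lit 0x9a84d125e11de8b0457227112c8842b68014006001) (nat_lit 0)))) (L (E (nat_lit 9) (nat_lit 0x8ee46122d515c8844418014006001) (nat_lit 0)))))) (N (nat_lit 7296) (N (nat_lit 7295) (N (nat_lit 7294) (N (nat_lit 7293) (L (E (nat_lit 15) (nat_lit 0x26a13449784bb25111608ae44e22591088602b68014006001) (nat_lit 0))) (L (E (nat_lit 16) (nat_lit 0x4dd26a13449904bc25d92e496245822b912c8842b68014006001) (nat_lit 0)))) (L (E (nat_lit 8) (nat_lit 0x2bf9578ab05492950014006001) (nat_lit 0)))) (L (E (nat_lit 12) (nat_lit 0x4dd26a134498c4bc25d92e89724b30014006001) (nat_lit 0)))) (N (nat_lit 7299) (N (nat_lit 7297) (L (E (nat_lit 11) (nat_lit 0x26a134497845822b913a8832b60014006001) (nat_lit 0))) (N (nat_lit 7298) (L (E (nat_lit 18) (nat_lit 0x13729a84d2a65931897845822b9138896442220cafe56c2ae8014006001)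 (nat_lit 0))) (L (E (nat_lit 12) (nat_lit 0x4d126552f0975458220d0c056f2af8014006001) (nat_lit 0))))) (N (nat_lit 7300) (L (E (nat_lit 12) (nat_lit 0x4dca6a12f09754a3a2c112c8842b78014006001) (nat_lit 0))) (N (nat_lit 7301) (L (E (nat_lit 14) (nat_lit 0x13749a84d125e12ec9744b923091608ae4418014006001) (nat_lit 0))) (L (E (nat_lit 11) (nat_lit 0x217caf856a29a12c894449223b0014006001) (nat_lit 0)))))))))
def cl146 : RA := N (nat_lit 7352) (N (nat_lit 7339) (N (nat_lit 7336) (N (nat_lit 7331) (N (nat_lit 7330) (N (nat_lit 7329) (N (nat_lit 7328) (L (E (nat_lit 18) (nat_lit 0x13709a54bb259d16c86242a2148c985982b915b8ad856a2a40014006001) (nat_lit 0))) (L (E (nat_lit 17) (nat_lit 0x96746ba3151548804291928b705aa2d41660afe5722b78014006001) (nat_lit 0)))) (L (E (nat_lit 18) (nat_lit 0x134a96746ba31516c8b345522010c48522dc16a0b3057f2b78014006001) (nat_lit 0)))) (L (E (nat_lit 11) (nat_lit 0x26a13449784bb22c115c8962ac0014006001)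 (nat_lit 0)))) (N (nat_lit 7333) (N (nat_lit 7332) (L (E (nat_lit 12) (nat_lit 0x88dc2815eca6e4ca22c8c7431609e0014006001) (nat_lit 0))) (L (E (nat_lit 14) (nat_lit 0x118a89644a2208b545a82d31660b0857f2b78014006001) (nat_lit 0)))) (N (nat_lit 7335) (N (nat_lit 7334) (L (E (nat_lit 7) (nat_lit 0x1748b945af2d38014006001) (nat_lit 0))) (L (E (nat_lit 13) (nat_lit 0x8c544b22511045aa2d41660afe56f2a30014006001) (nat_lit 0)))) (L (E (nat_lit 12) (nat_lit 0x477a3191608ae44b225110a59b29c8014006001) (nat_lit 0)))))) (N (nat_lit 7338) (N (nat_lit 7337) (L (E (nat_lit 14) (nat_lit 0x11de8c544b225110a8543381708b505982bf8014006001) (nat_lit 0))) (L (E (nat_lit 9) (nat_lit 0x9a84d125e11608ae44b0014006001) (nat_lit 0)))) (L (E (nat_lit 8) (nat_lit 0x4d2a5e11628962a28014006001) (nat_lit 0))))) (N (nat_lit 7344) (N (nat_lit 7343) (N (nat_lit 7341) (N (nat_lit 7340) (L (E (nat_lit 14) (nat_lit 0x1eacdac6c735d1a64bca4bb9ed8aa84301450014006001)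 (nat_lit 0))) (L (E (nat_lit 10) (nat_lit 0x134a98c4bb259cae45592a40014006001) (nat_lit 0)))) (N (nat_lit 7342) (L (E (nat_lit 13) (nat_lit 0xd744d2a3a9162894442a1f8ae455929f0014006001) (nat_lit 0))) (L (E (nat_lit 15) (nat_lit 0x35d134a98c4bc23a916288543f15c8ad855929f0014006001) (nat_lit 0))))) (L (E (nat_lit 8) (nat_lit 0x46122c512c88443a0014006001) (nat_lit 0)))) (N (nat_lit 7348) (N (nat_lit 7347) (N (nat_lit 7346) (N (nat_lit 7345) (L (E (nat_lit 10) (nat_lit 0x134a8ea458a214afc55929c8014006001) (nat_lit 0))) (L (E (nat_lit 17) (nat_lit 0xa924d426953249784b925a12cc5ae2c215c8ae056e2b60014006001) (nat_lit 0)))) (L (E (nat_lit 16) (nat_lit 0x6b026a134a9924bc25a0b4e57e2b815b8ad855829c8014006001) (nat_lit 0)))) (L (E (nat_lit 11) (nat_lit 0x26a13449784572258afc56e2a40014006001) (nat_lit 0)))) (N (nat_lit 7350) (N (nat_lit 7349) (L (E (nat_lit 13) (nat_lit 0x9a84d125e12ec9664572258b7256d2aa8014006001)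 (nat_lit 0))) (L (E (nat_lit 17) (nat_lit 0x9a84d125e12ec9684b322b912c8753d51850b8456d2ae0014006001) (nat_lit 0)))) (N (nat_lit 7351) (L (E (nat_lit 18) (nat_lit 0x13509a24bc25d92d08de46b22b912c8753d51850b8456d2ae0014006001) (nat_lit 0))) (L (E (nat_lit 9) (nat_lit 0x9a84d125e115c8962b68014006001) (nat_lit 0)))))))) (N (nat_lit 7367) (N (nat_lit 7360) (N (nat_lit 7358) (N (nat_lit 7355) (N (nat_lit 7354) (N (nat_lit 7353) (L (E (nat_lit 10) (nat_lit 0x134a97746f23591628964420014006001) (nat_lit 0))) (L (E (nat_lit 10) (nat_lit 0x134a9764b3a5591bc8d644b0014006001) (nat_lit 0)))) (L (E (nat_lit 12) (nat_lit 0x4d426893189764b9259915c5592a48014006001) (nat_lit 0)))) (N (nat_lit 7357) (N (nat_lit 7356) (L (E (nat_lit 10) (nat_lit 0x13509a24bc22b912c57e2b70014006001) (nat_lit 0))) (L (E (nat_lit 7) (nat_lit 0x23b11d48b14418014006001) (nat_lit 0)))) (L (E (nat_lit 11) (nat_lit 0x26a13449784572258b0056e2a20014006001)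 (nat_lit 0))))) (N (nat_lit 7359) (L (E (nat_lit 16) (nat_lit 0x4da25f92f09764b225491de8c2458a25910457f2b78014006001) (nat_lit 0))) (L (E (nat_lit 10) (nat_lit 0x13709a54c925f12f09764b50014006001) (nat_lit 0))))) (N (nat_lit 7363) (N (nat_lit 7361) (L (E (nat_lit 9) (nat_lit 0x9a54bb259d1628962b78014006001) (nat_lit 0))) (N (nat_lit 7362) (L (E (nat_lit 12) (nat_lit 0x4dca6952f09764b223791828b144b0014006001) (nat_lit 0))) (L (E (nat_lit 13) (nat_lit 0x9a84bc25d918289644222090a65a22b78014006001) (nat_lit 0))))) (N (nat_lit 7365) (N (nat_lit 7364) (L (E (nat_lit 14) (nat_lit 0x1b94db86da2a49500a662db9668afc5732b78014006001) (nat_lit 0))) (L (E (nat_lit 9) (nat_lit 0x5aa2cc1648ae456f2aa8014006001) (nat_lit 0)))) (N (nat_lit 7366) (L (E (nat_lit 17) (nat_lit 0xdca6dc2d215249a84c6a5f92ca8962cd1660b2457e2b78014006001) (nat_lit 0))) (L (E (nat_lit 13) (nat_lit 0xa924d426992fc965460a25910a5922b78014006001)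 (nat_lit 0))))))) (N (nat_lit 7372) (N (nat_lit 7371) (N (nat_lit 7369) (N (nat_lit 7368) (L (E (nat_lit 15) (nat_lit 0x26a134497e4bc25d92cc8c444d22590c057e2b78014006001) (nat_lit 0))) (L (E (nat_lit 10) (nat_lit 0x13509a24bc25d915c8962b78014006001) (nat_lit 0)))) (N (nat_lit 7370) (L (E (nat_lit 11) (nat_lit 0x3531a92d304bba3bd1848c04588014006001) (nat_lit 0))) (L (E (nat_lit 13) (nat_lit 0xd606a63525a609aa4ca2214ae452828f0014006001) (nat_lit 0))))) (L (E (nat_lit 8) (nat_lit 0x4d426892f08ae44b0014006001) (nat_lit 0)))) (N (nat_lit 7374) (N (nat_lit 7373) (L (E (nat_lit 16) (nat_lit 0x4d125e11ac8b144b22511085a82c915f8adc56c2ac0014006001) (nat_lit 0))) (L (E (nat_lit 13) (nat_lit 0xa9253223751828b144a1658b245592a40014006001) (nat_lit 0)))) (N (nat_lit 7375) (L (E (nat_lit 15) (nat_lit 0x2a494c88d6458a2591288842d41648b025592a40014006001) (nat_lit 0))) (L (E (nat_lit 20) (nat_lit 0x549299134497846b22c512c89444216a0b245842bf15b8ad85482950014006001)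 (nat_lit 0)))))))
def cl147 : RA := N (nat_lit 7389) (N (nat_lit 7386) (N (nat_lit 7382) (N (nat_lit 7380) (N (nat_lit 7378) (N (nat_lit 7377) (L (E (nat_lit 20) (nat_lit 0x549299134497846b22c512c8944422180b505922c215b8ad85482950014006001) (nat_lit 0))) (L (E (nat_lit 14) (nat_lit 0x13228b445822191066e02c215fcab85481a00014006001) (nat_lit 0)))) (N (nat_lit 7379) (L (E (nat_lit 22) (nat_lit 0x1524a644d126452ee8d646322d112c8844301b80b505922c215b0a9052a1a00014006001) (nat_lit 0))) (L (E (nat_lit 19) (nat_lit 0x26912f08d645a22c115c89644a21d90d45a82cd1610b0057e29c8014006001) (nat_lit 0))))) (N (nat_lit 7381) (L (E (nat_lit 7) (nat_lit 0x26892ee8ae44b0014006001) (nat_lit 0))) (L (E (nat_lit 9) (nat_lit 0x5a82c215c0ada55c2a10014006001) (nat_lit 0))))) (N (nat_lit 7385) (N (nat_lit 7384) (N (nat_lit 7383) (L (E (nat_lit 16) (nat_lit 0x4d225e12ec8c1457226912c8944411610ae056d2a48014006001) (nat_lit 0))) (L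 (E (nat_lit 11) (nat_lit 0x26892f08b144b22511088822b68014006001) (nat_lit 0)))) (L (E (nat_lit 11) (nat_lit 0x26892f08b145722591288842b68014006001) (nat_lit 0)))) (L (E (nat_lit 9) (nat_lit 0x5932c21600ae056e2b60014006001) (nat_lit 0))))) (N (nat_lit 7388) (N (nat_lit 7387) (L (E (nat_lit 14) (nat_lit 0x134497845722591085922c015f8adc56c2ac0014006001) (nat_lit 0))) (L (E (nat_lit 14) (nat_lit 0x150889a44b2250dc05a82c215f8ab25491a00014006001) (nat_lit 0)))) (L (E (nat_lit 10) (nat_lit 0xb085802bf15b8ad85482a30014006001) (nat_lit 0))))) (N (nat_lit 7404) (N (nat_lit 7396) (N (nat_lit 7393) (N (nat_lit 7391) (N (nat_lit 7390) (L (E (nat_lit 16) (nat_lit 0x54226892f08b144b22511086e02c21600afc56e1a00014006001) (nat_lit 0))) (L (E (nat_lit 16) (nat_lit 0x4d4a6892cc95e4ab2510c505a92cc1600afa5702ac8014006001) (nat_lit 0)))) (N (nat_lit 7392) (L (E (nat_lit 22) (nat_lit 0x136c9a24bc25992bc9564a222b912c6583101698b305802be95c0adc56c2a48014006001)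 (nat_lit 0))) (L (E (nat_lit 11) (nat_lit 0x26892f08b144b2210b0057e2b70014006001) (nat_lit 0))))) (N (nat_lit 7394) (L (E (nat_lit 10) (nat_lit 0x1344978458a2591085802bf0014006001) (nat_lit 0))) (N (nat_lit 7395) (L (E (nat_lit 15) (nat_lit 0x23791b08d6458a258b5259a2c915b8ad856a2ac0014006001) (nat_lit 0))) (L (E (nat_lit 14) (nat_lit 0x134497846f236116289644a2210b2457e2ac0014006001) (nat_lit 0)))))) (N (nat_lit 7400) (N (nat_lit 7398) (N (nat_lit 7397) (L (E (nat_lit 13) (nat_lit 0x9a24bc23791ac8b1457225910857e2ac0014006001) (nat_lit 0))) (L (E (nat_lit 13) (nat_lit 0x9b84d226892f08c2458a2b912c8944420014006001) (nat_lit 0)))) (N (nat_lit 7399) (L (E (nat_lit 6) (nat_lit 0x13729a94b38014006001) (nat_lit 0))) (L (E (nat_lit 9) (nat_lit 0x9a44bb22591048752d58014006001) (nat_lit 0))))) (N (nat_lit 7402) (N (nat_lit 7401) (L (E (nat_lit 10) (nat_lit 0xb545a82d31610b0256b2ac8014006001) (nat_lit 0))) (L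 (E (nat_lit 15) (nat_lit 0x23791b08d6458a250b545a82d31648b085812ac8014006001) (nat_lit 0)))) (N (nat_lit 7403) (L (E (nat_lit 13) (nat_lit 0xa844d125e11628964421b80b0857e1a00014006001) (nat_lit 0))) (L (E (nat_lit 10) (nat_lit 0x1352976458a25110a57e2ac8014006001) (nat_lit 0))))))) (N (nat_lit 7410) (N (nat_lit 7406) (N (nat_lit 7405) (L (E (nat_lit 11) (nat_lit 0x16a0b305962c915f8ae056a2ac8014006001) (nat_lit 0))) (L (E (nat_lit 15) (nat_lit 0x2a113289924c51b80b505842b815acab25481a00014006001) (nat_lit 0)))) (N (nat_lit 7408) (N (nat_lit 7407) (L (E (nat_lit 28) (nat_lit 0x7ab2e015089944c926291dc8ea47421d10d86e02d41660b2c5842bf15c0ab25481cf0d0057c2b60aa0014006001) (nat_lit 0))) (L (E (nat_lit 9) (nat_lit 0x9a94bb22c510a57e2ac8014006001) (nat_lit 0)))) (N (nat_lit 7409) (L (E (nat_lit 15) (nat_lit 0x2a81524a6a5321b80b745a62c91604ae65581a00014006001) (nat_lit 0))) (L (E (nat_lit 16) (nat_lit 0x4e826a53449784b4214cb745ae2d31648b025702ac0014006001)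 (nat_lit 0)))))) (N (nat_lit 7413) (N (nat_lit 7411) (L (E (nat_lit 12) (nat_lit 0x4d4a6892f096842996a4b025702ac0014006001) (nat_lit 0))) (N (nat_lit 7412) (L (E (nat_lit 19) (nat_lit 0x26592ac94646222b91348962d41658b2657e2b815b8ad856a2ac0014006001) (nat_lit 0))) (L (E (nat_lit 14) (nat_lit 0x134497846222b91348962d4164cb025702ac0014006001) (nat_lit 0))))) (N (nat_lit 7415) (N (nat_lit 7414) (L (E (nat_lit 17) (nat_lit 0xd364d125e12d08c4457226912c8533111604ae055822c0014006001) (nat_lit 0))) (L (E (nat_lit 24) (nat_lit 0x69b26a93449944bc25a11888ae44d22590a66e03111610afc5702b715b0ab054822c0014006001) (nat_lit 0)))) (N (nat_lit 7416) (L (E (nat_lit 11) (nat_lit 0x26892f08b144b2214afc56c2ac0014006001) (nat_lit 0))) (L (E (nat_lit 8) (nat_lit 0x4d125e11628962bf0014006001) (nat_lit 0))))))))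
def cl148 : RA := N (nat_lit 7376) (N (nat_lit 7327) (N (nat_lit 7303) (L (E (nat_lit 7) (nat_lit 0x1660adc5582a18014006001) (nat_lit 0))) (N (nat_lit 7311) (N (nat_lit 7309) (N (nat_lit 7306) (N (nat_lit 7305) (N (nat_lit 7304) (L (E (nat_lit 22) (nat_lit 0x1810bb245922c115c89544215f0ad453426f13309944b825a12c895049023b0014006001) (nat_lit 0))) (L (E (nat_lit 22) (nat_lit 0x181097647623011608ae455220caf856a29a13789984b825a12c895049023b0014006001) (nat_lit 0)))) (L (E (nat_lit 10) (nat_lit 0x13509a24bc22c115c8964420014006001) (nat_lit 0)))) (N (nat_lit 7308) (N (nat_lit 7307) (L (E (nat_lit 13) (nat_lit 0x9764b3a309156896442a1f8b3057f2ac0014006001) (nat_lit 0))) (L (E (nat_lit 12) (nat_lit 0x4d2a5e12ec8b245822b912c8852bf8014006001) (nat_lit 0)))) (L (E (nat_lit 16) (nat_lit 0x6b93571ab4d326923489554a8052a16a8b505a62d10014006001) (nat_lit 0))))) (N (nat_lit 7310) (L (E (nat_lit 7) (nat_lit 0x2a494fca515168014006001)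 (nat_lit 0))) (L (E (nat_lit 17) (nat_lit 0xd726ae3569a64d246912aa9500a6652a28b0b545a82d10014006001) (nat_lit 0))))) (N (nat_lit 7319) (N (nat_lit 7315) (N (nat_lit 7313) (N (nat_lit 7312) (L (E (nat_lit 29) (nat_lit 0xd726ae34c9a44aaa54027a93ac9ba4d426892f09764ba25c92c463030716b8b545a82d11600afc56c2a38014006001) (nat_lit 0))) (L (E (nat_lit 30) (nat_lit 0x1ae4d5c69934895549ea4f027593989b64d426953109784bb25c92c463030716b8b545a82c915f8ad85582a40014006001) (nat_lit 0)))) (N (nat_lit 7314) (L (E (nat_lit 14) (nat_lit 0x13c09a84d125e12208fe46ea2c115c8963180014006001) (nat_lit 0))) (L (E (nat_lit 6) (nat_lit 0xb9c56d2a38014006001) (nat_lit 0))))) (N (nat_lit 7317) (N (nat_lit 7316) (L (E (nat_lit 24) (nat_lit 0x2d49668b305922c015b0a285102871408a004e4271134097c4ae25612809204742350014006001) (nat_lit 0))) (L (E (nat_lit 31) (nat_lit 0x30c1824c0a5f52f7977cb985c827493809a84d2a5e12ec9684b32508b705aa2cd15f8ab054828113409584a02350014006001)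 (nat_lit 0)))) (N (nat_lit 7318) (L (E (nat_lit 27) (nat_lit 0x3d59b20d7a6b234e9a6cd325492018dbc6823371970c706363181878bf859316b0b1056c2980a50014006001) (nat_lit 0))) (L (E (nat_lit 14) (nat_lit 0x1b08d7a6b73591ab0d3346f9a88d4069c34d0014006001) (nat_lit 0)))))) (N (nat_lit 7323) (N (nat_lit 7321) (N (nat_lit 7320) (L (E (nat_lit 30) (nat_lit 0x1eacdb06c835e9ae4d6469d34d9a64a524031b78d0466e3301970c8e63831b1878bf859316b0b1056c2980a50014006001) (nat_lit 0))) (L (E (nat_lit 38) (nat_lit 0x1eacdb06c235e9ae4d6e6b23561a74d36529237cdbc6a034e1a68d1468233f19b8cc065c32a1908c7063030f17f8b9c5ac2d516a0b262d615b0014006001) (nat_lit 0)))) (N (nat_lit 7322) (L (E (nat_lit 12) (nat_lit 0x6d9b5c95248ec32d137865425e0a50014006001) (nat_lit 0))) (L (E (nat_lit 27) (nat_lit 0x36c1b40d8e6c235e9ae4d6e6b23561a6ca92476237ccc065c32d1960c7063631815ac9bc32a12f0014006001) (nat_lit 0))))) (N (nat_lit 7325) (N (nat_lit 7324) (L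 (E (nat_lit 45) (nat_lit 0xf566d03639b08d726b23561a6c9a64d126292fc9764b9259d2828df36f1a80d146823301970c605fe2dc16a8b305802bf15b0ab054829813909c04ce2490b585982c815b0014006001) (nat_lit 0))) (L (E (nat_lit 11) (nat_lit 0x26a134497845922c115c8aa44b0014006001) (nat_lit 0)))) (N (nat_lit 7326) (L (E (nat_lit 11) (nat_lit 0x26a13449784bb22c91608ae44b0014006001) (nat_lit 0))) (L (E (nat_lit 17) (nat_lit 0x9a24bf25e12a494e462a2d90fc862430a138afc5582a40014006001) (nat_lit 0))))))))) (cl146)) (N (nat_lit 7417) (cl147) (N (nat_lit 7436) (N (nat_lit 7429) (N (nat_lit 7421) (N (nat_lit 7419) (N (nat_lit 7418) (L (E (nat_lit 14) (nat_lit 0x15089be4d325e0dc05842bf95c0adc5581a00014006001) (nat_lit 0))) (L (E (nat_lit 10) (nat_lit 0x13449904bc23011628ae44b0014006001) (nat_lit 0)))) (N (nat_lit 7420) (L (E (nat_lit 12) (nat_lit 0x54226f9344978458a258dc05841a00014006001) (nat_lit 0))) (L (E (nat_lit 8) (nat_lit 0x4d125d91608ae2ac8014006001)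 (nat_lit 0))))) (N (nat_lit 7426) (N (nat_lit 7424) (N (nat_lit 7423) (N (nat_lit 7422) (L (E (nat_lit 13) (nat_lit 0x9a94d2a5e11608ae44b16b0afe56e2ac0014006001) (nat_lit 0))) (L (E (nat_lit 9) (nat_lit 0x9a44bb22c11065802b60014006001) (nat_lit 0)))) (L (E (nat_lit 9) (nat_lit 0xa4251f26592ac9462af8014006001) (nat_lit 0)))) (N (nat_lit 7425) (L (E (nat_lit 9) (nat_lit 0x9784572258b5857f2b88014006001) (nat_lit 0))) (L (E (nat_lit 8) (nat_lit 0x4bc22b912c57f2b70014006001) (nat_lit 0))))) (N (nat_lit 7427) (L (E (nat_lit 7) (nat_lit 0x25e115c8962bf8014006001) (nat_lit 0))) (N (nat_lit 7428) (L (E (nat_lit 8) (nat_lit 0x4d125e11608962b78014006001) (nat_lit 0))) (L (E (nat_lit 16) (nat_lit 0x4d5268932897845822b912c6e02c21600ae056c2ac0014006001) (nat_lit 0))))))) (N (nat_lit 7430) (L (E (nat_lit 8) (nat_lit 0x2c015c4ad85472a10014006001) (nat_lit 0))) (N (nat_lit 7435) (N (nat_lit 7433) (N (nat_lit 7432)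 (N (nat_lit 7431) (L (E (nat_lit 15) (nat_lit 0x26f93549a24ca25e11608ae44b1b80b085802b60014006001) (nat_lit 0))) (L (E (nat_lit 15) (nat_lit 0x3d592208fe46322c91385b82c99604ae25582a40014006001) (nat_lit 0)))) (L (E (nat_lit 9) (nat_lit 0xa6a52c2910dc05991a00014006001) (nat_lit 0)))) (N (nat_lit 7434) (L (E (nat_lit 22) (nat_lit 0x1eac9aa4d126512f096848823f918c8b244e2254dc05b82c095c4ab05481a00014006001) (nat_lit 0))) (L (E (nat_lit 20) (nat_lit 0x79e2d993c09aa4d126793289914c425a0b5059a2c91610b025702ac0014006001) (nat_lit 0))))) (L (E (nat_lit 9) (nat_lit 0x9a24bc22c115c8962b60014006001) (nat_lit 0)))))) (N (nat_lit 7441) (N (nat_lit 7437) (L (E (nat_lit 7) (nat_lit 0x164cb085702b68014006001) (nat_lit 0))) (N (nat_lit 7439) (N (nat_lit 7438) (L (E (nat_lit 8) (nat_lit 0x4d4a59cb525892b68014006001) (nat_lit 0))) (L (E (nat_lit 6) (nat_lit 0xae656d2a48014006001) (nat_lit 0)))) (N (nat_lit 7440) (L (E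 (nat_lit 18) (nat_lit 0x1528a80528a86137c9a64bc16a8b305962c91640ae456e2ac0014006001) (nat_lit 0))) (L (E (nat_lit 10) (nat_lit 0x13529a24bc1658ae056d2ae0014006001) (nat_lit 0)))))) (L (E (nat_lit 6) (nat_lit 0xb2e5842b68014006001) (nat_lit 0))))))
def cl149 : RA := N (nat_lit 7512) (N (nat_lit 7503) (N (nat_lit 7497) (N (nat_lit 7494) (N (nat_lit 7493) (N (nat_lit 7492) (L (E (nat_lit 12) (nat_lit 0x4c825f12f09744b42598b325802ac0014006001) (nat_lit 0))) (L (E (nat_lit 14) (nat_lit 0x12f09744b4a3211888c245822691288924418014006001) (nat_lit 0)))) (L (E (nat_lit 14) (nat_lit 0x12f08b044a220cb1c5842b915b4ab854e2a50014006001) (nat_lit 0)))) (N (nat_lit 7495) (L (E (nat_lit 8) (nat_lit 0x46422bd13c89b4418014006001) (nat_lit 0))) (N (nat_lit 7496) (L (E (nat_lit 11) (nat_lit 0x25a516089e44a220cbbc5842b68014006001) (nat_lit 0))) (L (E (nat_lit 19) (nat_lit 0x27993489924bca5ad2888c44582268b345842c015f8a8c5322980014006001)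 (nat_lit 0)))))) (N (nat_lit 7500) (N (nat_lit 7498) (L (E (nat_lit 18) (nat_lit 0x12f89794b423711348944419668b2c5842bc15b4ab854a2980014006001) (nat_lit 0))) (N (nat_lit 7499) (L (E (nat_lit 15) (nat_lit 0x27d934a98c4be25e51928702d916b0b545382980014006001) (nat_lit 0))) (L (E (nat_lit 19) (nat_lit 0x279d3489a24c926312f89794ba25a92d09462a51518a845382980014006001) (nat_lit 0))))) (N (nat_lit 7502) (N (nat_lit 7501) (L (E (nat_lit 17) (nat_lit 0x9e74d2264931897c4bca5a92d09634a31528a8c5382980014006001) (nat_lit 0))) (L (E (nat_lit 6) (nat_lit 0x134896b4b18014006001) (nat_lit 0)))) (L (E (nat_lit 16) (nat_lit 0x4be25e52d089e44a220cf6c5be2c215e0ada55c2a10014006001) (nat_lit 0)))))) (N (nat_lit 7504) (L (E (nat_lit 7) (nat_lit 0x22c11065842b68014006001) (nat_lit 0))) (N (nat_lit 7508) (N (nat_lit 7506) (N (nat_lit 7505) (L (E (nat_lit 15) (nat_lit 0x256129c9424a0231915e89a44a21f8b0856d2560014006001) (nat_lit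 0))) (L (E (nat_lit 20) (nat_lit 0x6a426913449794ba256129c94c4a1250115e8954389898b085722b68014006001) (nat_lit 0)))) (N (nat_lit 7507) (L (E (nat_lit 19) (nat_lit 0x26a53489a24bca56129c94c4a122c113489531315b4ab85462a10014006001) (nat_lit 0))) (L (E (nat_lit 10) (nat_lit 0x134897d4bca58cb2c56d2a50014006001) (nat_lit 0))))) (N (nat_lit 7510) (N (nat_lit 7509) (L (E (nat_lit 8) (nat_lit 0x4bea5e4b2c56d2a50014006001) (nat_lit 0))) (L (E (nat_lit 15) (nat_lit 0x26952f89794b4258d1888b044d22550bc5962b68014006001) (nat_lit 0)))) (N (nat_lit 7511) (L (E (nat_lit 12) (nat_lit 0x4d2a5f12f296844d2254b2c5842b68014006001) (nat_lit 0))) (L (E (nat_lit 11) (nat_lit 0x26952f29684b122691288822b68014006001) (nat_lit 0)))))))) (N (nat_lit 7524) (N (nat_lit 7516) (N (nat_lit 7514) (N (nat_lit 7513) (L (E (nat_lit 12) (nat_lit 0x4d2a5f12f29684582268b2c5842b68014006001) (nat_lit 0))) (L (E (nat_lit 9) (nat_lit 0xd8e6af258d10888243d0014006001)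 (nat_lit 0)))) (N (nat_lit 7515) (L (E (nat_lit 10) (nat_lit 0x134a98a4bca5ad2c48c24498014006001) (nat_lit 0))) (L (E (nat_lit 16) (nat_lit 0x4cf26292c49584ab230912888444121f90f45842b68014006001) (nat_lit 0))))) (N (nat_lit 7520) (N (nat_lit 7518) (N (nat_lit 7517) (L (E (nat_lit 10) (nat_lit 0x11bc8b0457a2090e086c4350014006001) (nat_lit 0))) (L (E (nat_lit 12) (nat_lit 0x4f3278134a9794baa2c0b0856d2ae0014006001) (nat_lit 0)))) (N (nat_lit 7519) (L (E (nat_lit 10) (nat_lit 0x134a97c4bca5a0b2c5842b68014006001) (nat_lit 0))) (L (E (nat_lit 16) (nat_lit 0x6af2ef948c9a44d125e516489c44321c4d5c54a17f0014006001) (nat_lit 0))))) (N (nat_lit 7522) (N (nat_lit 7521) (L (E (nat_lit 18) (nat_lit 0x1a64d305df29193489a24bca40d1368944412200d5c54a17f0014006001) (nat_lit 0))) (L (E (nat_lit 17) (nat_lit 0xd325df29193489794b423b91288864411ab8b0054a17f0014006001) (nat_lit 0)))) (N (nat_lit 7523) (L (E (nat_lit 27)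 (nat_lit 0x3c697d49a44d126413189764b5a5a12cc9644a9a53d29284441a1ee8b085802bf15b8ab05482970014006001) (nat_lit 0))) (L (E (nat_lit 25) (nat_lit 0x9e84e9a6913189794b5a53d2928c842216b8b5059a2cb1610b0057e2b715a8a7252e2160014006001) (nat_lit 0))))))) (N (nat_lit 7533) (N (nat_lit 7528) (N (nat_lit 7526) (N (nat_lit 7525) (L (E (nat_lit 9) (nat_lit 0x9a44bca5a12c45842b68014006001) (nat_lit 0))) (L (E (nat_lit 14) (nat_lit 0x131a97c4bca5a92d09634582254b2c5842b68014006001) (nat_lit 0)))) (N (nat_lit 7527) (L (E (nat_lit 11) (nat_lit 0x269134498c4be25e52d09634a90014006001) (nat_lit 0))) (L (E (nat_lit 17) (nat_lit 0x9b84d226892f89794b7a5a92d09634582254b2c5842b68014006001) (nat_lit 0))))) (N (nat_lit 7531) (N (nat_lit 7530) (N (nat_lit 7529) (L (E (nat_lit 15) (nat_lit 0x26912f89794b7a5a92d09634582254b2c5842b68014006001) (nat_lit 0))) (L (E (nat_lit 15) (nat_lit 0x24892048c744222090fc8612f416f8b5856e2ac0014006001)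 (nat_lit 0)))) (L (E (nat_lit 12) (nat_lit 0x4d5268d2f29684b1a3bd1605842b68014006001) (nat_lit 0)))) (N (nat_lit 7532) (L (E (nat_lit 12) (nat_lit 0x4d2268931897c4bca5bd2d49684b18014006001) (nat_lit 0))) (L (E (nat_lit 12) (nat_lit 0x46022a912c8824351668b0856d2a48014006001) (nat_lit 0)))))) (N (nat_lit 7534) (L (E (nat_lit 9) (nat_lit 0x9794b41658b0856d2a50014006001) (nat_lit 0))) (N (nat_lit 7535) (L (E (nat_lit 14) (nat_lit 0x13709a24be25e12ec9742cc1658b0856d2a10014006001) (nat_lit 0))) (L (E (nat_lit 11) (nat_lit 0x26912f89784b1a208b2c5842b68014006001) (nat_lit 0)))))))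
def cl150 : RA := N (nat_lit 7491) (N (nat_lit 7463) (N (nat_lit 7459) (N (nat_lit 7458) (N (nat_lit 7456) (N (nat_lit 7454) (N (nat_lit 7453) (L (E (nat_lit 16) (nat_lit 0x6c627051808b045722591288823241664ada54a2a30014006001) (nat_lit 0))) (L (E (nat_lit 20) (nat_lit 0x4eb27393849aa4be25dd28693946f231510665630f1664ada55e2a48014006001) (nat_lit 0)))) (N (nat_lit 7455) (L (E (nat_lit 24) (nat_lit 0x6c628e93d09ba4dc26d53489984be25dd1808b04572258c9061e2cc95b4abc5462a10014006001) (nat_lit 0))) (L (E (nat_lit 25) (nat_lit 0xd8c51d27a13749b84daa69133097c4bba3791808b0457225912464830f1664ada55e2a10014006001) (nat_lit 0))))) (N (nat_lit 7457) (L (E (nat_lit 8) (nat_lit 0x4bc22b912c5992b68014006001) (nat_lit 0))) (L (E (nat_lit 14) (nat_lit 0x13f29e34be25dd15c8924419610ae056d2a48014006001) (nat_lit 0))))) (L (E (nat_lit 7) (nat_lit 0x1660b2c5712b68014006001) (nat_lit 0)))) (N (nat_lit 7461) (N (nat_lit 7460)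 (L (E (nat_lit 11) (nat_lit 0x268d2ee8924419610ae056d2a48014006001) (nat_lit 0))) (L (E (nat_lit 8) (nat_lit 0x2c215c0ada5482a30014006001) (nat_lit 0)))) (N (nat_lit 7462) (L (E (nat_lit 12) (nat_lit 0x54928e93529a32d616a8b3057229d8014006001) (nat_lit 0))) (L (E (nat_lit 14) (nat_lit 0x13508ae44e22511248832cc1610ae056d2a48014006001) (nat_lit 0)))))) (N (nat_lit 7474) (N (nat_lit 7469) (N (nat_lit 7464) (L (E (nat_lit 8) (nat_lit 0x45822b91065842b68014006001) (nat_lit 0))) (N (nat_lit 7467) (N (nat_lit 7466) (N (nat_lit 7465) (L (E (nat_lit 22) (nat_lit 0x179897e4bc259915e8a844aa1d90e06202d31670b085802bf15a8ab05542a10014006001) (nat_lit 0))) (L (E (nat_lit 9) (nat_lit 0x9784baa2bd1388944418014006001) (nat_lit 0)))) (L (E (nat_lit 16) (nat_lit 0x4bf25e12ec9744b9259115e894448220cb2c5702b68014006001) (nat_lit 0)))) (N (nat_lit 7468) (L (E (nat_lit 20) (nat_lit 0x4bf25e12e49684b222c1138890441a1d8b4c59c2c215c0ada5542a10014006001)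 (nat_lit 0))) (L (E (nat_lit 21) (nat_lit 0x97d4b325911888b043b21c0c4462030e1850c2059c2c21600afc56a2a10014006001) (nat_lit 0)))))) (N (nat_lit 7473) (N (nat_lit 7471) (N (nat_lit 7470) (L (E (nat_lit 14) (nat_lit 0x13a09a94d225f12ec96845922bd1388944380014006001) (nat_lit 0))) (L (E (nat_lit 25) (nat_lit 0xa4451626e13509a44bf25e52d08af44da25110685c3231698b385842c015f8ad45542a50014006001) (nat_lit 0)))) (N (nat_lit 7472) (L (E (nat_lit 23) (nat_lit 0x291134897e4be25e52d0942457a27112888342e1918b4c59c2c21600afc56a2aa0014006001) (nat_lit 0))) (L (E (nat_lit 19) (nat_lit 0x29112fc97c4bca56116089c44a22411068762d31670b0856d2aa0014006001) (nat_lit 0))))) (L (E (nat_lit 8) (nat_lit 0x458220cb305842b68014006001) (nat_lit 0))))) (N (nat_lit 7483) (N (nat_lit 7478) (N (nat_lit 7476) (N (nat_lit 7475) (L (E (nat_lit 17) (nat_lit 0x9a44be25e51888b044d1f80b345962c215c0ada5491140014006001) (nat_lit 0))) (L (E (nat_lit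 13) (nat_lit 0x6aa3069658a7653023910a067831c1870c082f8003) (nat_lit 0)))) (N (nat_lit 7477) (L (E (nat_lit 5) (nat_lit 0x6a03411974c8c637) (nat_lit 0))) (L (E (nat_lit 20) (nat_lit 0x3551970c9063230f1658ae253b29c14c8a604722140c7061c3020be0014006001) (nat_lit 0))))) (N (nat_lit 7481) (N (nat_lit 7480) (N (nat_lit 7479) (L (E (nat_lit 29) (nat_lit 0xa82505280139491448623a11cc8c946222550da6aa3241918c6e63230f1838b2c57129c14c863830e1810014006001) (nat_lit 0))) (L (E (nat_lit 27) (nat_lit 0x2f313709a84d225f12f29684b1a5012188e6464a2550e085e42d1918c6861e2c015c4a6431c1810014006001) (nat_lit 0)))) (L (E (nat_lit 25) (nat_lit 0xbcc4d426912f89794b423991648af44d225510887030f1664b1c56d2ae1518a8431c1810014006001) (nat_lit 0)))) (N (nat_lit 7482) (L (E (nat_lit 8) (nat_lit 0x46e22bd1368954418014006001) (nat_lit 0))) (L (E (nat_lit 20) (nat_lit 0x6e935993689aa4cf26492f89794ba25a12c494544d18d0c5062030f0014006001)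 (nat_lit 0)))))) (N (nat_lit 7487) (N (nat_lit 7485) (N (nat_lit 7484) (L (E (nat_lit 28) (nat_lit 0x5e629b934899e4be25e52e896847322c915e89a44aa2110e062030f1664b1c56d2ae1518a8431c1810014006001) (nat_lit 0))) (L (E (nat_lit 16) (nat_lit 0x4d2a5e52c68c945816c8b585aa29c14c8a602641140014006001) (nat_lit 0)))) (N (nat_lit 7486) (L (E (nat_lit 31) (nat_lit 0x2f314dc97c4bca5d12d0904473232515e8a844d22551088703101878b645992c715c4ada5462a114e0a6431c1810014006001) (nat_lit 0))) (L (E (nat_lit 27) (nat_lit 0x2f314dc97c4bca5d12088e6464a2bd15089a44aa1c0c4061e2cc9638ada5492a114c86383021140014006001) (nat_lit 0))))) (N (nat_lit 7489) (N (nat_lit 7488) (L (E (nat_lit 25) (nat_lit 0xbcc53725e52e8904473232515e8a844d22550e062030f1664b1c56d2a49508a6431c1810014006001) (nat_lit 0))) (L (E (nat_lit 17) (nat_lit 0x9804ba22c113c8954419878b1c5842b69570a8431c1810014006001) (nat_lit 0)))) (N (nat_lit 7490) (L (E (nat_lit 11)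 (nat_lit 0x25f51608944419610ada54e2a50014006001) (nat_lit 0))) (L (E (nat_lit 8) (nat_lit 0x4c825e12ee9684b30014006001) (nat_lit 0))))))))) (cl149)
def cl151 : RA := N (nat_lit 7554) (N (nat_lit 7538) (N (nat_lit 7537) (L (E (nat_lit 5) (nat_lit 0x5aa2cc1610aba003) (nat_lit 0))) (L (E (nat_lit 10) (nat_lit 0x134697c4bc25d91605842b68014006001) (nat_lit 0)))) (N (nat_lit 7548) (N (nat_lit 7543) (N (nat_lit 7541) (N (nat_lit 7540) (N (nat_lit 7539) (L (E (nat_lit 7) (nat_lit 0x1660b0856d2ae8014006001) (nat_lit 0))) (L (E (nat_lit 23) (nat_lit 0x458934897847e23cd1d08c645e22b910888242f2138ff87f030815f4ada2f80910014006001) (nat_lit 0)))) (L (E (nat_lit 25) (nat_lit 0x11624e826fd34897c4bba5a12848fc474237918c8b04422208ff87f030815f4ada2f80910014006001) (nat_lit 0)))) (N (nat_lit 7542) (L (E (nat_lit 20) (nat_lit 0x6af3521a74d326982a094fca7a3281920c7063430a1848c086022fa0014006001) (nat_lit 0))) (L (E (nat_lit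 17) (nat_lit 0xd8f6bd3579a98d3354129f94f464831c18d0c246022fa0014006001) (nat_lit 0))))) (N (nat_lit 7546) (N (nat_lit 7545) (N (nat_lit 7544) (L (E (nat_lit 10) (nat_lit 0x1b6ad8e6c635e9af0d4b69e0014006001) (nat_lit 0))) (L (E (nat_lit 16) (nat_lit 0x6c73631b10d6154c2a094fca7a5151a18cbc6343100014006001) (nat_lit 0)))) (L (E (nat_lit 18) (nat_lit 0x137e9a34be25dd2d0942476231d15e8802d31670b005582aa0014006001) (nat_lit 0)))) (N (nat_lit 7547) (L (E (nat_lit 10) (nat_lit 0x213cfda76337f96389933f182b000a003) (nat_lit 0))) (L (E (nat_lit 26) (nat_lit 0x13b89d24e8273134697c4bba59d2848c445922b913c89c44921d909c81c2b712f893423a09d0014006001) (nat_lit 0)))))) (N (nat_lit 7550) (N (nat_lit 7549) (L (E (nat_lit 10) (nat_lit 0x134697c4b422c0b305842b68014006001) (nat_lit 0))) (L (E (nat_lit 11) (nat_lit 0x3721b88dc26e036f1b68db26c78014006001) (nat_lit 0)))) (N (nat_lit 7552) (N (nat_lit 7551) (L (E (nat_lit 14)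 (nat_lit 0x1b88db46c7a4651fc8c7460226d12e87f43d0014006001) (nat_lit 0))) (L (E (nat_lit 17) (nat_lit 0x9f24eb26d53549a34be25dd2d0966463a25d1085992c00014006001) (nat_lit 0)))) (N (nat_lit 7553) (L (E (nat_lit 19) (nat_lit 0x22c113489744221fd0e885f3311920c685ac2d51698b2c55c2a50014006001) (nat_lit 0))) (L (E (nat_lit 30) (nat_lit 0x1c18d905fd2fd918e8c044d225d12488443a1ba8d2468033f1988c906342d616a8b4c5962ae15289a04ce2660014006001) (nat_lit 0)))))))) (N (nat_lit 7568) (N (nat_lit 7562) (N (nat_lit 7560) (N (nat_lit 7557) (N (nat_lit 7556) (N (nat_lit 7555) (L (E (nat_lit 20) (nat_lit 0x4f927993829b54d1a5f12d08c745722491087b62df15e0ada5522a10014006001) (nat_lit 0))) (L (E (nat_lit 20) (nat_lit 0x33a19c8cc063a31b18d0c646223101778b5c59c2cb1570a9454829d0014006001) (nat_lit 0)))) (L (E (nat_lit 18) (nat_lit 0x13e49e64e0a6d534697c4bba5a118e8a044b98e8b7c5782b68014006001) (nat_lit 0)))) (N (nat_lit 7559) (N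 (nat_lit 7558) (L (E (nat_lit 8) (nat_lit 0x4caa6452ee9524a70014006001) (nat_lit 0))) (L (E (nat_lit 18) (nat_lit 0x13e49e64e0a6d53469954bc25a11608ae45016f8b085782b68014006001) (nat_lit 0)))) (L (E (nat_lit 13) (nat_lit 0x8de457a25112488243f2184b7c5ac2ac0014006001) (nat_lit 0))))) (N (nat_lit 7561) (L (E (nat_lit 17) (nat_lit 0xf4b7963631a988d4457a25110488043a21c10d85301780014006001) (nat_lit 0))) (L (E (nat_lit 9) (nat_lit 0x9a34be25a11605842b68014006001) (nat_lit 0))))) (N (nat_lit 7567) (N (nat_lit 7565) (N (nat_lit 7564) (N (nat_lit 7563) (L (E (nat_lit 20) (nat_lit 0x5d32de13449904be25dd2ce7f83f01f38f305992b69570a944ba15e0014006001) (nat_lit 0))) (L (E (nat_lit 14) (nat_lit 0x16f09a24bba59d1dc8c7457a26d0fe5962b68014006001) (nat_lit 0)))) (L (E (nat_lit 14) (nat_lit 0x16f097c4bba59d1dc8c7457a2110fe5962b68014006001) (nat_lit 0)))) (N (nat_lit 7566) (L (E (nat_lit 14) (nat_lit 0x16f09b84d225f12d08c7457a2110fe5842b68014006001)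 (nat_lit 0))) (L (E (nat_lit 12) (nat_lit 0x5bc26e134897c4b4231d15e87f2b68014006001) (nat_lit 0))))) (L (E (nat_lit 7) (nat_lit 0x22bd1288924428014006001) (nat_lit 0))))) (N (nat_lit 7575) (N (nat_lit 7572) (N (nat_lit 7571) (N (nat_lit 7570) (N (nat_lit 7569) (L (E (nat_lit 11) (nat_lit 0x2de134897c4b422bd0fe5842b68014006001) (nat_lit 0))) (L (E (nat_lit 9) (nat_lit 0x59a2cc1658b0856d2a30014006001) (nat_lit 0)))) (L (E (nat_lit 13) (nat_lit 0x9a44b3a58918c8af44da1f8b2c5842b68014006001) (nat_lit 0)))) (L (E (nat_lit 11) (nat_lit 0x26892ee952457a2690fc57e2b50014006001) (nat_lit 0)))) (N (nat_lit 7574) (N (nat_lit 7573) (L (E (nat_lit 15) (nat_lit 0x29093489784bb258915e88444121f8b0856d2a30014006001) (nat_lit 0))) (L (E (nat_lit 12) (nat_lit 0x4d226892ce962457a2110fc5842b68014006001) (nat_lit 0)))) (L (E (nat_lit 11) (nat_lit 0x26912f89784b422bcb2c5842b68014006001) (nat_lit 0))))) (N (nat_lit 7578)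 (N (nat_lit 7577) (N (nat_lit 7576) (L (E (nat_lit 13) (nat_lit 0x9a44d125f12f097645822b90fc5842b68014006001) (nat_lit 0))) (L (E (nat_lit 12) (nat_lit 0x4d125f12ee96744ba1f8b305842b68014006001) (nat_lit 0)))) (L (E (nat_lit 12) (nat_lit 0x4d125dd0e859a2cb1610ae056d2a30014006001) (nat_lit 0)))) (N (nat_lit 7580) (N (nat_lit 7579) (L (E (nat_lit 20) (nat_lit 0x52b29494749be4d425dd2dc95a4a9253918c8b0443a2090e05be2d60014006001) (nat_lit 0))) (L (E (nat_lit 17) (nat_lit 0xa564d225f12ee968458225d10e87e43da1c0b7c5842b68014006001) (nat_lit 0)))) (N (nat_lit 7581) (L (E (nat_lit 21) (nat_lit 0x9a44be25dd2d08b044ba24910887e2df1668b2c5842bc15b4aa45462980014006001) (nat_lit 0))) (L (E (nat_lit 10) (nat_lit 0x134897c4b422c10fc5842b68014006001) (nat_lit 0))))))))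
def cl152 : RA := N (nat_lit 7608) (N (nat_lit 7600) (N (nat_lit 7592) (N (nat_lit 7587) (N (nat_lit 7585) (N (nat_lit 7584) (N (nat_lit 7583) (L (E (nat_lit 12) (nat_lit 0x4d226892ee967458225d10a5842b68014006001) (nat_lit 0))) (L (E (nat_lit 20) (nat_lit 0x5e6231916089a44ba22d1088704361fe8f6c5cc2dd16489504a62520014006001) (nat_lit 0)))) (L (E (nat_lit 24) (nat_lit 0x69826893249804bba59d16089a44ba22d10c88443821b0ff47b62e616e8b244a82520014006001) (nat_lit 0)))) (N (nat_lit 7586) (L (E (nat_lit 24) (nat_lit 0x69826893249804bba59d16089a44ba21910886c4302168ff47b62e616e8b244a82520014006001) (nat_lit 0))) (L (E (nat_lit 13) (nat_lit 0x9a44d125dd2ce8ae44d22110fe5712b68014006001) (nat_lit 0))))) (N (nat_lit 7590) (N (nat_lit 7589) (N (nat_lit 7588) (L (E (nat_lit 12) (nat_lit 0x46c226912e88443fa1c4b085702a30014006001) (nat_lit 0))) (L (E (nat_lit 16) (nat_lit 0x4d226892f89774b3a2c115c89a44221fcb2c5842b68014006001)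 (nat_lit 0)))) (L (E (nat_lit 18) (nat_lit 0x13449774b425592a494448ca31d13689743fa1e8b2c5702b68014006001) (nat_lit 0)))) (N (nat_lit 7591) (L (E (nat_lit 17) (nat_lit 0x9a24bba5a12a4919471231d13689743fa1c109a5962b68014006001) (nat_lit 0))) (L (E (nat_lit 12) (nat_lit 0x4d225f12ee9684581658b0856d2a50014006001) (nat_lit 0)))))) (N (nat_lit 7596) (N (nat_lit 7594) (N (nat_lit 7593) (L (E (nat_lit 9) (nat_lit 0x9a44be25a11605842b68014006001) (nat_lit 0))) (L (E (nat_lit 22) (nat_lit 0x22c48fc474226912e88443fa1c4fe06883081610afa5702a30e4069c2f80910014006001) (nat_lit 0)))) (N (nat_lit 7595) (L (E (nat_lit 23) (nat_lit 0x45891f88e846a230d13489744722110bc7fc3f81a20c2057d1c80d385f015c0910014006001) (nat_lit 0))) (L (E (nat_lit 25) (nat_lit 0x11624d225d91f88f347422c11348974389ff0fe06883081610afa5702a30d385f015c0910014006001) (nat_lit 0))))) (N (nat_lit 7598) (N (nat_lit 7597) (L (E (nat_lit 8) (nat_lit 0x4d1a5f52ec9644a90014006001)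 (nat_lit 0))) (L (E (nat_lit 10) (nat_lit 0x134897d4bc25d91605842b68014006001) (nat_lit 0)))) (N (nat_lit 7599) (L (E (nat_lit 17) (nat_lit 0xd644e726913449944c925dd2ce95644d2258b2c57e2b50014006001) (nat_lit 0))) (L (E (nat_lit 13) (nat_lit 0x9a44bea59d16089744221fcb2c5842b68014006001) (nat_lit 0))))))) (N (nat_lit 7603) (N (nat_lit 7601) (L (E (nat_lit 8) (nat_lit 0x4d4269134497d4ac8014006001) (nat_lit 0))) (N (nat_lit 7602) (L (E (nat_lit 16) (nat_lit 0x4d225f52ce8ee46e23111608974422168b2c5842b68014006001) (nat_lit 0))) (L (E (nat_lit 10) (nat_lit 0x13489784b422c0b2c5842b68014006001) (nat_lit 0))))) (N (nat_lit 7606) (N (nat_lit 7605) (N (nat_lit 7604) (L (E (nat_lit 9) (nat_lit 0x9a54bb9658b0856d2a40014006001) (nat_lit 0))) (L (E (nat_lit 14) (nat_lit 0x134a9784bb25d12cc5962b69528a9054229d0014006001) (nat_lit 0)))) (L (E (nat_lit 8) (nat_lit 0x4d2a5e0b0856d2a40014006001) (nat_lit 0)))) (N (nat_lit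 7607) (L (E (nat_lit 21) (nat_lit 0xa5451627893a09a54c525f52c494245922c115c8843401834c106063020014006001) (nat_lit 0))) (L (E (nat_lit 37) (nat_lit 0xa54516274134a98a4bb25912c49524a125051f88e846ca2c113489744221f90c67de3d51e98d006143091840c1c60830313789184882420014006001) (nat_lit 0))))))) (N (nat_lit 7623) (N (nat_lit 7617) (N (nat_lit 7612) (N (nat_lit 7610) (N (nat_lit 7609) (L (E (nat_lit 23) (nat_lit 0x26953149764b225612a494147e23a116089a44ba2110e86803041610afa5702a30014006001) (nat_lit 0))) (L (E (nat_lit 14) (nat_lit 0x12fc97c4bc25d92c89524a0a25910e86242e0014006001) (nat_lit 0)))) (N (nat_lit 7611) (L (E (nat_lit 11) (nat_lit 0x26952ec9674582268b0856d2a48014006001) (nat_lit 0))) (L (E (nat_lit 23) (nat_lit 0x302137c9a24ca25f92f09764ba25c92c49564a9226910888243b21d10e056d2530014006001) (nat_lit 0))))) (N (nat_lit 7615) (N (nat_lit 7614) (N (nat_lit 7613) (L (E (nat_lit 23) (nat_lit 0x302137c9a24ca25f92f09764ba25c92c49564a922bd10e8624301610ada5492a20014006001)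 (nat_lit 0))) (L (E (nat_lit 11) (nat_lit 0x25f52ec8b044b1658b0856d2a50014006001) (nat_lit 0)))) (L (E (nat_lit 12) (nat_lit 0x4bb25a12cc8b044d2258b0856d2ae0014006001) (nat_lit 0)))) (N (nat_lit 7616) (L (E (nat_lit 12) (nat_lit 0x4dca6952ea9474582268b0856d2a48014006001) (nat_lit 0))) (L (E (nat_lit 12) (nat_lit 0x4bea5991608972c215c0ada54a2a30014006001) (nat_lit 0)))))) (N (nat_lit 7621) (N (nat_lit 7620) (N (nat_lit 7619) (N (nat_lit 7618) (L (E (nat_lit 18) (nat_lit 0x13749a84d125f52ec9744b925992c48c2458225d10887f4380014006001) (nat_lit 0))) (L (E (nat_lit 18) (nat_lit 0x13749a24bea5d92e89724b325891848b044ba2191088703230014006001) (nat_lit 0)))) (L (E (nat_lit 18) (nat_lit 0x137c9ba4d125f92ec9744b925992c48c2458225d1088703230014006001) (nat_lit 0)))) (L (E (nat_lit 9) (nat_lit 0x9764b422c11345842b68014006001) (nat_lit 0)))) (N (nat_lit 7622) (L (E (nat_lit 8) (nat_lit 0x6dab679b2ad5a6a20014006001)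 (nat_lit 0))) (L (E (nat_lit 13) (nat_lit 0xfda7a6b6513548b03e71e98f2c5862540014006001) (nat_lit 0)))))) (N (nat_lit 7630) (N (nat_lit 7628) (N (nat_lit 7625) (N (nat_lit 7624) (L (E (nat_lit 16) (nat_lit 0x8953d31c20d946072aa9530a6e4d52320ca05860a30014006001) (nat_lit 0))) (L (E (nat_lit 17) (nat_lit 0x9fa4bb25a12cc90a48322c112e86a42e21690a45842b68014006001) (nat_lit 0)))) (N (nat_lit 7627) (N (nat_lit 7626) (L (E (nat_lit 9) (nat_lit 0x9764b422c112e5842b68014006001) (nat_lit 0))) (L (E (nat_lit 11) (nat_lit 0x26952f89764b3a188b0856d2a48014006001) (nat_lit 0)))) (L (E (nat_lit 10) (nat_lit 0x134a9784bb25a11605842b68014006001) (nat_lit 0))))) (N (nat_lit 7629) (L (E (nat_lit 9) (nat_lit 0x9684581658b0856d2a50014006001) (nat_lit 0))) (L (E (nat_lit 14) (nat_lit 0x11bc8d846b22bd13659e2cd1658ada54a29d0014006001) (nat_lit 0))))) (N (nat_lit 7635) (N (nat_lit 7633) (N (nat_lit 7632) (N (nat_lit 7631)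 (L (E (nat_lit 19) (nat_lit 0x27d93489a24cc26312f09694b222591288924411678b2c56d2a50014006001) (nat_lit 0))) (L (E (nat_lit 11) (nat_lit 0x235d13489644a22491088624308014006001) (nat_lit 0)))) (L (E (nat_lit 14) (nat_lit 0x134897745822591245ae2cf1658b0856d29c8014006001) (nat_lit 0)))) (N (nat_lit 7634) (L (E (nat_lit 10) (nat_lit 0x11368973db1678b2c56d29c8014006001) (nat_lit 0))) (L (E (nat_lit 9) (nat_lit 0x89a44ba2191088714270014006001) (nat_lit 0))))) (N (nat_lit 7638) (N (nat_lit 7637) (N (nat_lit 7636) (L (E (nat_lit 17) (nat_lit 0x9984c926012f896a4ab25211bc8b044d225d10c88443a0014006001) (nat_lit 0))) (L (E (nat_lit 8) (nat_lit 0x53b296547ea3a5130014006001) (nat_lit 0)))) (L (E (nat_lit 25) (nat_lit 0xa7652a2949488a3a4e7268d33c9924ba25992c896246f22c112e892443a1c0c4061e2cb0014006001) (nat_lit 0)))) (N (nat_lit 7639) (L (E (nat_lit 21) (nat_lit 0x9e84f3278936a9a34c925912c48ec463227112e5ae2d39664ada55d29c8014006001)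 (nat_lit 0))) (L (E (nat_lit 17) (nat_lit 0xa7651d268d2ee8b044d225d12461e2d7169cb3256d29c8014006001) (nat_lit 0))))))))
def cl153 : RA := N (nat_lit 7658) (N (nat_lit 7657) (N (nat_lit 7651) (N (nat_lit 7643) (N (nat_lit 7642) (N (nat_lit 7641) (L (E (nat_lit 9) (nat_lit 0x59e2cd1660b2c5842b68014006001) (nat_lit 0))) (L (E (nat_lit 16) (nat_lit 0x53b28e93468b044d225d12461e2d7169cb3256d29c8014006001) (nat_lit 0)))) (L (E (nat_lit 7) (nat_lit 0x29d94b2a3a5130014006001) (nat_lit 0)))) (N (nat_lit 7647) (N (nat_lit 7645) (N (nat_lit 7644) (L (E (nat_lit 10) (nat_lit 0x14b0a444e8a65d2f09642cc8014006001) (nat_lit 0))) (L (E (nat_lit 18) (nat_lit 0x14b09d14d125dd2dc9694aca26912e8922cc95b4abc55c29c8014006001) (nat_lit 0)))) (N (nat_lit 7646) (L (E (nat_lit 21) (nat_lit 0x8b044d22090ec8744382170ce066e32d1918c806233101870c346143070014006001) (nat_lit 0))) (L (E (nat_lit 25) (nat_lit 0xab853b28793ec9a24bba5b92908b044d225d0c06922d7169cb445992bc15b4abc54a29c8014006001)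 (nat_lit 0))))) (N (nat_lit 7649) (N (nat_lit 7648) (L (E (nat_lit 25) (nat_lit 0xab853b28e93ec974458225d1247b63491878b5c5a72d11664b2c5842bc15b4abc54a29c8014006001) (nat_lit 0))) (L (E (nat_lit 11) (nat_lit 0x25e12ec9744b4a208b325802bf0014006001) (nat_lit 0)))) (N (nat_lit 7650) (L (E (nat_lit 14) (nat_lit 0x12ee96645822591245ae2cf1658b0856d29c8014006001) (nat_lit 0))) (L (E (nat_lit 12) (nat_lit 0x46e23611a48af44b224910e8824400014006001) (nat_lit 0))))))) (N (nat_lit 7654) (N (nat_lit 7652) (L (E (nat_lit 11) (nat_lit 0x237118c8af44d22591248844388014006001) (nat_lit 0))) (N (nat_lit 7653) (L (E (nat_lit 7) (nat_lit 0x25e51be89a4420014006001) (nat_lit 0))) (L (E (nat_lit 13) (nat_lit 0x8de46e23191608af44d22591248844410014006001) (nat_lit 0))))) (N (nat_lit 7656) (N (nat_lit 7655) (L (E (nat_lit 11) (nat_lit 0x25e52d28dc45822691248822c00014006001) (nat_lit 0))) (L (E (nat_lit 11) (nat_lit 0x26953249794b4a32113888643a0014006001)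 (nat_lit 0)))) (L (E (nat_lit 9) (nat_lit 0x90446e232118c8af44d8014006001) (nat_lit 0)))))) (L (E (nat_lit 6) (nat_lit 0x11605842b68014006001) (nat_lit 0)))) (N (nat_lit 7670) (N (nat_lit 7669) (N (nat_lit 7664) (N (nat_lit 7661) (N (nat_lit 7659) (L (E (nat_lit 8) (nat_lit 0x4d225e51b889b4410014006001) (nat_lit 0))) (N (nat_lit 7660) (L (E (nat_lit 12) (nat_lit 0x6da26912f29684ab23b91288822c00014006001) (nat_lit 0))) (L (E (nat_lit 9) (nat_lit 0x9a44bca26d10456d2a50014006001) (nat_lit 0))))) (N (nat_lit 7663) (N (nat_lit 7662) (L (E (nat_lit 11) (nat_lit 0x26952ec9694b22548b0c5722ae0014006001) (nat_lit 0))) (L (E (nat_lit 14) (nat_lit 0x13749a24c625e52d69522ef1614afc56a2ae0014006001) (nat_lit 0)))) (L (E (nat_lit 12) (nat_lit 0x6183089840bfc5fc2fd97d0bd45df0014006001) (nat_lit 0))))) (N (nat_lit 7666) (N (nat_lit 7665) (L (E (nat_lit 13) (nat_lit 0x9a54bca5891ba89b4411778b0a57e2b50014006001) (nat_lit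 0))) (L (E (nat_lit 7) (nat_lit 0x25e51368822b68014006001) (nat_lit 0)))) (N (nat_lit 7668) (N (nat_lit 7667) (L (E (nat_lit 14) (nat_lit 0x134a9784bb237118c8af44da208b3056a2ac0014006001) (nat_lit 0))) (L (E (nat_lit 9) (nat_lit 0x9a54bb22bd1368822b68014006001) (nat_lit 0)))) (L (E (nat_lit 8) (nat_lit 0x4d2a26d12c8822b68014006001) (nat_lit 0)))))) (L (E (nat_lit 11) (nat_lit 0x26a134c9a44d126413189744b38014006001) (nat_lit 0)))) (N (nat_lit 7682) (N (nat_lit 7675) (N (nat_lit 7673) (N (nat_lit 7671) (L (E (nat_lit 11) (nat_lit 0x26912ee8dc44da208b0a5802ac0014006001) (nat_lit 0))) (N (nat_lit 7672) (L (E (nat_lit 15) (nat_lit 0x3639a449f24eb269d34497c4bba59cae455c28f0014006001) (nat_lit 0))) (L (E (nat_lit 8) (nat_lit 0x4d225dd1368822b68014006001) (nat_lit 0))))) (N (nat_lit 7674) (L (E (nat_lit 16) (nat_lit 0x6af29194749a44d126412fe9784bb259918c8b22b68014006001) (nat_lit 0))) (L (E (nat_lit 13)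 (nat_lit 0xa3a4dc269131a9734b3a5091ba89b43d0014006001) (nat_lit 0))))) (N (nat_lit 7678) (N (nat_lit 7677) (N (nat_lit 7676) (L (E (nat_lit 10) (nat_lit 0x13489a24bb25d11368822b68014006001) (nat_lit 0))) (L (E (nat_lit 11) (nat_lit 0x26913449904bb22c11368822b68014006001) (nat_lit 0)))) (L (E (nat_lit 8) (nat_lit 0x463226d12c8822b68014006001) (nat_lit 0)))) (N (nat_lit 7680) (N (nat_lit 7679) (L (E (nat_lit 12) (nat_lit 0x6032f41790bb646e231915e89b4418014006001) (nat_lit 0))) (L (E (nat_lit 12) (nat_lit 0x4d1a5e12ec8dc463226d1065722ac0014006001) (nat_lit 0)))) (N (nat_lit 7681) (L (E (nat_lit 13) (nat_lit 0x9be4d1a6412f89784bb25a12cc8702b50014006001) (nat_lit 0))) (L (E (nat_lit 10) (nat_lit 0x13509a34c8a5f12ec9744b30014006001) (nat_lit 0))))))) (N (nat_lit 7683) (L (E (nat_lit 9) (nat_lit 0x9a84d1a6452f89764b30014006001) (nat_lit 0))) (N (nat_lit 7685) (N (nat_lit 7684) (L (E (nat_lit 14) (nat_lit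 0x13509a34bc25d918c89b44195c8ada54a2a10014006001) (nat_lit 0))) (L (E (nat_lit 7) (nat_lit 0x26892f089b4418014006001) (nat_lit 0)))) (N (nat_lit 7687) (N (nat_lit 7686) (L (E (nat_lit 7) (nat_lit 0x274935e9a74ca0014006001) (nat_lit 0))) (L (E (nat_lit 21) (nat_lit 0xda06c62a414a89d24e827393989a64be25a919263631a1878c206022fb0014006001) (nat_lit 0)))) (L (E (nat_lit 11) (nat_lit 0x36c9b40d8c5339880c206022fb0014006001) (nat_lit 0))))))))
def cl154 : RA := N (nat_lit 7717) (N (nat_lit 7702) (N (nat_lit 7696) (N (nat_lit 7692) (N (nat_lit 7690) (N (nat_lit 7689) (L (E (nat_lit 8) (nat_lit 0x4c825e11368832b68014006001) (nat_lit 0))) (L (E (nat_lit 16) (nat_lit 0x46122b913889444322111008702c315c8ada55c2a40014006001) (nat_lit 0)))) (N (nat_lit 7691) (L (E (nat_lit 33) (nat_lit 0xfbe6e23681b38d916c63621ae0d6e6ae3561a88d3360d2f310fc6803041810c0460026f0d1850828214009f84bc22c0ad0014006001) (nat_lit 0))) (L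 (E (nat_lit 44) (nat_lit 0x7df3711b58da06ce3649b1cd8c6c43619abcd586a63511a80d366913451834bcc4ba21f8d0063430f1820c0860230013786e43461880a1050428013f097845815a09b0014006001) (nat_lit 0))))) (N (nat_lit 7694) (N (nat_lit 7693) (L (E (nat_lit 56) (nat_lit 0x7df3711b58da06c93631b10d5e6ac3531a88d4069b3489a28c1a5e629f94eca6a533295145897446aa1f8d0066c32d1920c6861e3041810c0460026f0dc86a43461950c706202b61420a0850027e12f094845815a09b0014006001) (nat_lit 0))) (L (E (nat_lit 17) (nat_lit 0xda06c635d1accd646af35714c0a3a50718d0c4060e2ff0014006001) (nat_lit 0)))) (N (nat_lit 7695) (L (E (nat_lit 20) (nat_lit 0x6d03631accd646af2a494f2a6a533a94543064831a1880c2060d3010014006001) (nat_lit 0))) (L (E (nat_lit 56) (nat_lit 0x7df3711b58da06c93631b10d646af3561a98d446a034d9a44d1460d2f31570a8c53f29d94d4a5452328611aa87e3361970c906203021808c005b92d51688b3058c2b69524a8a53c2981498a4835218e0ad85082801290014006001) (nat_lit 0))))))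 (N (nat_lit 7699) (N (nat_lit 7697) (L (E (nat_lit 10) (nat_lit 0x1b40d916c635d1abcd4c69b0014006001) (nat_lit 0))) (N (nat_lit 7698) (L (E (nat_lit 17) (nat_lit 0xda06ca3649b18d5e6a634d94f4a76535299d474a1850b0014006001) (nat_lit 0))) (L (E (nat_lit 23) (nat_lit 0x36b1b38d946c93631b10d866ba3579ab0d3654b29f94f4a7652f2951474a1d50b0014006001) (nat_lit 0))))) (N (nat_lit 7701) (N (nat_lit 7700) (L (E (nat_lit 68) (nat_lit 0x7df3d81c04dc46d63681b28d8c6c43579ab0d4c6a23501a6cd2268a3069798ab85462a194fca7a52f295148ca184bf25f12f08e146aa2d50fc69433b19b0cc065c3241880c086023001784b725aa2d11630b0a56d2aa9524a78530294149888c35218e0ad85082801290014006001) (nat_lit 0))) (L (E (nat_lit 50) (nat_lit 0x1f7cf607013711b58d946c63621abcd4469b3069570a8c54329f94f4a5452326212fc9784b924c923091648a23c91848ae44da25110687434a19d8cc065c3241808bac5a22c295b4a7835218e0014006001) (nat_lit 0)))) (L (E (nat_lit 10) (nat_lit 0x1b40d9c6c83639b10d786ba8014006001)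 (nat_lit 0)))))) (N (nat_lit 7709) (N (nat_lit 7705) (N (nat_lit 7703) (L (E (nat_lit 11) (nat_lit 0x2a91524a8353f29994a8a5250e8014006001) (nat_lit 0))) (N (nat_lit 7704) (L (E (nat_lit 21) (nat_lit 0xfc26d23681b38d906c435e1aead4c53f29a94a8a525162258ab03761830014006001) (nat_lit 0))) (L (E (nat_lit 17) (nat_lit 0xd9c6ca363dae8d5e69b2ae1504a7e53d29a94cca5450e8014006001) (nat_lit 0))))) (N (nat_lit 7707) (N (nat_lit 7706) (L (E (nat_lit 12) (nat_lit 0x6d03641b1cd8c6c435e1abcd4869d0014006001) (nat_lit 0))) (L (E (nat_lit 15) (nat_lit 0x3651b1ed746af34d9570a7e53529994a8a525160014006001) (nat_lit 0)))) (N (nat_lit 7708) (L (E (nat_lit 8) (nat_lit 0x563aa014d4a6750e8014006001) (nat_lit 0))) (L (E (nat_lit 23) (nat_lit 0x3d21e74a8053f29e94cea5151d2879438a1850b284932465030a1614ada54a29c0014006001) (nat_lit 0)))))) (N (nat_lit 7713) (N (nat_lit 7711) (N (nat_lit 7710) (L (E (nat_lit 11) (nat_lit 0x268d32297746e226d1065852b68014006001)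 (nat_lit 0))) (L (E (nat_lit 16) (nat_lit 0x6d33681b24d8e6c63531a6c9aa4d426452f89774a90014006001) (nat_lit 0)))) (N (nat_lit 7712) (L (E (nat_lit 20) (nat_lit 0x6d33681b18d746a634d9a489aa4d426452f89774a923f91ba8804380014006001) (nat_lit 0))) (L (E (nat_lit 9) (nat_lit 0xda06c9b631af0d7469b8014006001) (nat_lit 0))))) (N (nat_lit 7715) (N (nat_lit 7714) (L (E (nat_lit 14) (nat_lit 0x1b4cda06c8b5313849aa4d4269132297c4bb8014006001) (nat_lit 0))) (L (E (nat_lit 18) (nat_lit 0x1b40d746a634913849aa4d426452f89774a923f91ba8804380014006001) (nat_lit 0)))) (N (nat_lit 7716) (L (E (nat_lit 16) (nat_lit 0x6d03531a489914be25dd2a48fe46ea27110c8832b68014006001) (nat_lit 0))) (L (E (nat_lit 16) (nat_lit 0x6d83679aeaa94529269932497c47722c115c8944418014006001) (nat_lit 0)))))))) (N (nat_lit 7731) (N (nat_lit 7725) (N (nat_lit 7721) (N (nat_lit 7719) (N (nat_lit 7718) (L (E (nat_lit 9) (nat_lit 0x9a64c925a50e086c2b68014006001)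 (nat_lit 0))) (L (E (nat_lit 13) (nat_lit 0xaaa54229f94f4a6e533a9914a4a3e50e0014006001) (nat_lit 0)))) (N (nat_lit 7720) (L (E (nat_lit 16) (nat_lit 0x5552a51508a7e53729a94cea6452a294947ca3a50e0014006001) (nat_lit 0))) (L (E (nat_lit 24) (nat_lit 0x7b33d59e64bf25552a51508a6e535299d47ca3a4e826e12f08c64622300ce06221bb0014006001) (nat_lit 0))))) (N (nat_lit 7723) (N (nat_lit 7722) (L (E (nat_lit 7) (nat_lit 0x25e11368832b68014006001) (nat_lit 0))) (L (E (nat_lit 8) (nat_lit 0x46e22bd1368954418014006001) (nat_lit 0)))) (N (nat_lit 7724) (L (E (nat_lit 12) (nat_lit 0x6c9b639abcd5069ba6312f295a4a70014006001) (nat_lit 0))) (L (E (nat_lit 17) (nat_lit 0x11a07ce2f3174caf653726a134898c4bca5491888b21270014006001) (nat_lit 0)))))) (N (nat_lit 7728) (N (nat_lit 7727) (N (nat_lit 7726) (L (E (nat_lit 11) (nat_lit 0x27493509944c925f92f89794ac0014006001) (nat_lit 0))) (L (E (nat_lit 14) (nat_lit 0x13a49b84d4269131897c4bca5992c69534a30014006001)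 (nat_lit 0)))) (L (E (nat_lit 24) (nat_lit 0x8d03e71798ba657b27493709aa4d226312f89794a323111645de2d71614ab852a1270014006001) (nat_lit 0)))) (N (nat_lit 7730) (N (nat_lit 7729) (L (E (nat_lit 26) (nat_lit 0x1b26d8e6c635d1abcd4c694af3174c9aa4c625f12f295a4a723111645de2d71614ab852a1270014006001) (nat_lit 0))) (L (E (nat_lit 26) (nat_lit 0x1b28d8e6c635d1abcd5a6a62f3174c9aa4c625f12f295a4a723111645de2d71614ab852a1270014006001) (nat_lit 0)))) (L (E (nat_lit 19) (nat_lit 0x3d19e44f16785363d7e4bcc5df2e993a49b84d426312f89794a30014006001) (nat_lit 0)))))) (N (nat_lit 7735) (N (nat_lit 7733) (N (nat_lit 7732) (L (E (nat_lit 26) (nat_lit 0x1b4cd946c735f9abcbcc5d327493709aa4d226312f89794a323111645de2d71614ab852a1270014006001) (nat_lit 0))) (L (E (nat_lit 28) (nat_lit 0x7913c59e14d946c63569a98bf25e62ef974c9d24d526312f89794ad253928c8b23101614ada55c2950014006001) (nat_lit 0)))) (N (nat_lit 7734) (L (E (nat_lit 18)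 (nat_lit 0x1b1ad5e6ad35313a49a54c625e52248ea45418d8b0a56d2ae0014006001) (nat_lit 0))) (L (E (nat_lit 6) (nat_lit 0x11368962b68014006001) (nat_lit 0))))) (N (nat_lit 7736) (L (E (nat_lit 6) (nat_lit 0x118c89b2b68014006001) (nat_lit 0))) (L (E (nat_lit 12) (nat_lit 0x6c6b5793a49a44be25e12ec8b02b68014006001) (nat_lit 0))))))
def cl155 : RA := N (nat_lit 7791) (N (nat_lit 7776) (N (nat_lit 7772) (N (nat_lit 7769) (N (nat_lit 7767) (N (nat_lit 7766) (N (nat_lit 7765) (L (E (nat_lit 16) (nat_lit 0x55c2aa952aa834e9269134697c4bba59916089a2b68014006001) (nat_lit 0))) (L (E (nat_lit 17) (nat_lit 0xab854aaa0d5009d24d2268d2f89784bba59916089a2b68014006001) (nat_lit 0)))) (L (E (nat_lit 17) (nat_lit 0xaab54a2a0d4fca524d226512f89774b31614b0056e2ac0014006001) (nat_lit 0)))) (N (nat_lit 7768) (L (E (nat_lit 11) (nat_lit 0x2a6152ca9454029a94cea3f2b68014006001) (nat_lit 0))) (L (E (nat_lit 10) (nat_lit 0x157aa94541a9f947e56d2a48014006001)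 (nat_lit 0))))) (N (nat_lit 7771) (N (nat_lit 7770) (L (E (nat_lit 13) (nat_lit 0xab8540274934697c4bba59916089a2b68014006001) (nat_lit 0))) (L (E (nat_lit 11) (nat_lit 0x2ae534c9a44be25e12ee9662b68014006001) (nat_lit 0)))) (L (E (nat_lit 12) (nat_lit 0x540274934897c4bba59916089a2b68014006001) (nat_lit 0))))) (N (nat_lit 7774) (N (nat_lit 7773) (L (E (nat_lit 6) (nat_lit 0x1526a7651f8014006001) (nat_lit 0))) (L (E (nat_lit 8) (nat_lit 0x541a950b0a56d2a40014006001) (nat_lit 0)))) (N (nat_lit 7775) (L (E (nat_lit 12) (nat_lit 0x54aaa0d4b2a544f427493945852b68014006001) (nat_lit 0))) (L (E (nat_lit 10) (nat_lit 0x1530a9654a2a494fca565210014006001) (nat_lit 0)))))) (N (nat_lit 7783) (N (nat_lit 7778) (N (nat_lit 7777) (L (E (nat_lit 12) (nat_lit 0x541a9f94a8a424f427493945852b68014006001) (nat_lit 0))) (L (E (nat_lit 19) (nat_lit 0x2a59528a845412a014fca6a52a27a13c05be2cd1660ada25a0ab0014006001) (nat_lit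 0)))) (N (nat_lit 7781) (N (nat_lit 7780) (N (nat_lit 7779) (L (E (nat_lit 11) (nat_lit 0x2ae5530a9654a2a014fca6a2b68014006001) (nat_lit 0))) (L (E (nat_lit 21) (nat_lit 0x9e84f327493a09984caa6313009744b3a38916089a4422178cb46343110014006001) (nat_lit 0)))) (L (E (nat_lit 23) (nat_lit 0x27993a49a44c025f12ee9674a222c11348924422178dfc6c031a1888b5259c2c28014006001) (nat_lit 0)))) (N (nat_lit 7782) (L (E (nat_lit 28) (nat_lit 0x6c93631ae4d4e6a6349932898a4be25d12d09624a222691288924422178dfc6c034319d0c7862a3110014006001) (nat_lit 0))) (L (E (nat_lit 15) (nat_lit 0x363152ca945412a014fc9d24d225f12ee8b02b68014006001) (nat_lit 0)))))) (N (nat_lit 7788) (N (nat_lit 7786) (N (nat_lit 7785) (N (nat_lit 7784) (L (E (nat_lit 9) (nat_lit 0x9a44caa6012dc9674ab0014006001) (nat_lit 0))) (L (E (nat_lit 21) (nat_lit 0xd8c6bc3539570aa454929f94c8a2e501274939c9a84c5259d2889422a28014006001) (nat_lit 0)))) (L (E (nat_lit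 21) (nat_lit 0xd8c6a72ae1548a7e532296145c9d24d226012ee9672d39670b0a56d2a28014006001) (nat_lit 0)))) (N (nat_lit 7787) (L (E (nat_lit 19) (nat_lit 0x26ad34897c4bba59d1348924422178dfc6c031a1888b5259c2c28014006001) (nat_lit 0))) (L (E (nat_lit 22) (nat_lit 0x13e89d24d2265130097c4bba59d1348924422178dfc6c031a1888b5259c2c28014006001) (nat_lit 0))))) (N (nat_lit 7790) (N (nat_lit 7789) (L (E (nat_lit 15) (nat_lit 0x3631528a8254029f93a49a44be25dd16089a2b68014006001) (nat_lit 0))) (L (E (nat_lit 11) (nat_lit 0x2ae1550a965412a014fca6a52a0014006001) (nat_lit 0)))) (L (E (nat_lit 13) (nat_lit 0xd8c54029f93a49a44be25dd16089a2b68014006001) (nat_lit 0))))))) (N (nat_lit 7801) (N (nat_lit 7798) (N (nat_lit 7795) (N (nat_lit 7793) (N (nat_lit 7792) (L (E (nat_lit 19) (nat_lit 0x37e1ae89f44f127493a09b64caa5dd2ce8ec458226910885e2b68014006001) (nat_lit 0))) (L (E (nat_lit 19) (nat_lit 0x2ae5528a7e4e925f12ee967458226910885e2e91728b7c5882b68014006001)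 (nat_lit 0)))) (N (nat_lit 7794) (L (E (nat_lit 13) (nat_lit 0xd8e4e9274139c9a84d226512f89774b38014006001) (nat_lit 0))) (L (E (nat_lit 19) (nat_lit 0x2a494fc9d24e826a13489944be25dd2ce8b044d2178b345962b68014006001) (nat_lit 0))))) (N (nat_lit 7797) (N (nat_lit 7796) (L (E (nat_lit 11) (nat_lit 0x2a053a497c4bba59d1605a92b68014006001) (nat_lit 0))) (L (E (nat_lit 14) (nat_lit 0x13a49aa4d426913449774b3a31916089a2b68014006001) (nat_lit 0)))) (L (E (nat_lit 14) (nat_lit 0x13a49a44caa5dd2ce8b044d2178c945a82b68014006001) (nat_lit 0))))) (N (nat_lit 7799) (L (E (nat_lit 9) (nat_lit 0xab85542a054a4a4251d0014006001) (nat_lit 0))) (N (nat_lit 7800) (L (E (nat_lit 20) (nat_lit 0x4e927413469944be25dd2ce89a42f1928bbc5cf2d716a0b0a5802b70014006001) (nat_lit 0))) (L (E (nat_lit 11) (nat_lit 0x2a053a497c4bba59d16089a2b68014006001) (nat_lit 0)))))) (N (nat_lit 7802) (L (E (nat_lit 7) (nat_lit 0x27413449774b30014006001)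 (nat_lit 0))) (N (nat_lit 7803) (L (E (nat_lit 9) (nat_lit 0xab8549aa054a8a5251d0014006001) (nat_lit 0))) (N (nat_lit 7804) (L (E (nat_lit 10) (nat_lit 0x1552a985492a11502a7e5210014006001) (nat_lit 0))) (N (nat_lit 7805) (L (E (nat_lit 11) (nat_lit 0x2aa5544a9954a29f94a8a525210014006001) (nat_lit 0))) (L (E (nat_lit 20) (nat_lit 0x55c2a054a8a5252128e932897c44d2178c905de2d716a0b0a5802b70014006001) (nat_lit 0))))))))
def cl156 : RA := N (nat_lit 7828) (N (nat_lit 7814) (N (nat_lit 7812) (N (nat_lit 7809) (N (nat_lit 7807) (L (E (nat_lit 15) (nat_lit 0x2ae1502a5451d26512f889a42f1920b505852b68014006001) (nat_lit 0))) (N (nat_lit 7808) (L (E (nat_lit 13) (nat_lit 0xab84e9268d32897c4bba5991605a82b68014006001) (nat_lit 0))) (L (E (nat_lit 20) (nat_lit 0x6ca3639528a4350ea32118a89a44a217d0986342d315f0af253e29a0014006001) (nat_lit 0))))) (N (nat_lit 7811) (N (nat_lit 7810) (L (E (nat_lit 25) (nat_lit 0xd946c635e1abca8152a29494868c8462a26912888644221c10986342d315f0af253e29a0014006001)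 (nat_lit 0))) (L (E (nat_lit 12) (nat_lit 0x53f27493a09a44ca25f12ee8b02b68014006001) (nat_lit 0)))) (L (E (nat_lit 12) (nat_lit 0x6c629f93a49a44ca25f12ee8b02b68014006001) (nat_lit 0))))) (N (nat_lit 7813) (L (E (nat_lit 8) (nat_lit 0x4e926552ee9684b30014006001) (nat_lit 0))) (L (E (nat_lit 11) (nat_lit 0x29f93a49a44be25dd16089a2b68014006001) (nat_lit 0))))) (N (nat_lit 7823) (N (nat_lit 7819) (N (nat_lit 7817) (N (nat_lit 7816) (N (nat_lit 7815) (L (E (nat_lit 14) (nat_lit 0x1530a9454829494a0a432ef16b8b385852c00014006001) (nat_lit 0))) (L (E (nat_lit 7) (nat_lit 0x2a15502a45516287000a001) (nat_lit 0)))) (L (E (nat_lit 11) (nat_lit 0x2ae1548a945492a414fca505210014006001) (nat_lit 0)))) (N (nat_lit 7818) (L (E (nat_lit 25) (nat_lit 0xd6669d2ab9530a9454829f94d8a5051f28e943890246e2270cc06283031698b385852b68014006001) (nat_lit 0))) (L (E (nat_lit 12) (nat_lit 0x4f426e12f89784b3258d2045852b68014006001)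 (nat_lit 0))))) (N (nat_lit 7821) (N (nat_lit 7820) (L (E (nat_lit 9) (nat_lit 0xab954aa90947c56d2af0014006001) (nat_lit 0))) (L (E (nat_lit 14) (nat_lit 0x1578a9552828f93d09d24e525fd2ce5852b68014006001) (nat_lit 0)))) (N (nat_lit 7822) (L (E (nat_lit 17) (nat_lit 0xab854a2a494fca5052128f930c9704af25492909464a10014006001) (nat_lit 0))) (L (E (nat_lit 17) (nat_lit 0xd8c6a62a4d484a3e4c925f12e69524a725091608822b68014006001) (nat_lit 0)))))) (N (nat_lit 7824) (L (E (nat_lit 12) (nat_lit 0x6af29f93a49a44be25e116089a2b68014006001) (nat_lit 0))) (N (nat_lit 7826) (N (nat_lit 7825) (L (E (nat_lit 20) (nat_lit 0x4e927393949a64d126492f8977458226912e5a92c29600afc57a2b70014006001) (nat_lit 0))) (L (E (nat_lit 10) (nat_lit 0x1594aae5562aa9548a9c53f8014006001) (nat_lit 0)))) (N (nat_lit 7827) (L (E (nat_lit 10) (nat_lit 0x152ca82540295148aa325140014006001) (nat_lit 0))) (L (E (nat_lit 11) (nat_lit 0x29fd3a49a44be25dd2ce8b02b68014006001)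 (nat_lit 0)))))))) (N (nat_lit 7842) (N (nat_lit 7837) (N (nat_lit 7832) (N (nat_lit 7830) (N (nat_lit 7829) (L (E (nat_lit 11) (nat_lit 0x29fd4d49d24d225f12ee8b02b68014006001) (nat_lit 0))) (L (E (nat_lit 11) (nat_lit 0x36c9b18d744779a40cdc65a3180014006001) (nat_lit 0)))) (N (nat_lit 7831) (L (E (nat_lit 10) (nat_lit 0x1abc9d24d225f12f08b02b68014006001) (nat_lit 0))) (L (E (nat_lit 14) (nat_lit 0x13a69a44be25d92e896747622c113485e2ae0014006001) (nat_lit 0))))) (N (nat_lit 7835) (N (nat_lit 7834) (N (nat_lit 7833) (L (E (nat_lit 18) (nat_lit 0x13a69a44be25d92ce8ec458226909858e2be15e8ada55c2a10014006001) (nat_lit 0))) (L (E (nat_lit 13) (nat_lit 0xd5e53fa6912f89784bb22c11345a92b68014006001) (nat_lit 0)))) (L (E (nat_lit 13) (nat_lit 0xa8653fa9b9484a3a50e25992c89624af0014006001) (nat_lit 0)))) (N (nat_lit 7836) (L (E (nat_lit 12) (nat_lit 0x6af29fd34897c4bc25d916089a2b68014006001) (nat_lit 0))) (L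 (E (nat_lit 24) (nat_lit 0x53326613289924bba5a12b093846322c11045be2d41668b305962b815b4a945462a10014006001) (nat_lit 0)))))) (N (nat_lit 7838) (L (E (nat_lit 10) (nat_lit 0x1abca7f4d225f12f08b02b68014006001) (nat_lit 0))) (N (nat_lit 7840) (N (nat_lit 7839) (L (E (nat_lit 22) (nat_lit 0x1b80db44e826a134c9a44d125f12ee96747d23b91d88b044d22110d885e42b0014006001) (nat_lit 0))) (L (E (nat_lit 9) (nat_lit 0x9be4d1a5f92ee9674ab0014006001) (nat_lit 0)))) (N (nat_lit 7841) (L (E (nat_lit 15) (nat_lit 0x34c93489a24be25dd2ce94c45822690d85a92b68014006001) (nat_lit 0))) (L (E (nat_lit 23) (nat_lit 0x3701b689d04d426993489a24c925f12ee96747d23b913489744221b10bc8564270014006001) (nat_lit 0))))))) (N (nat_lit 7852) (N (nat_lit 7847) (N (nat_lit 7845) (N (nat_lit 7844) (N (nat_lit 7843) (L (E (nat_lit 21) (nat_lit 0xdc06da27413509a64d2268932897c4bba59d1f48ee46322690d885e42b0014006001) (nat_lit 0))) (L (E (nat_lit 13)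 (nat_lit 0x9a24b3a31116089444922150bc54a2a10014006001) (nat_lit 0)))) (L (E (nat_lit 15) (nat_lit 0x3579a64bcc5cc23b918c8c4458226912e85e42b0014006001) (nat_lit 0)))) (N (nat_lit 7846) (L (E (nat_lit 9) (nat_lit 0x9a44be25dd2ce8b02b68014006001) (nat_lit 0))) (L (E (nat_lit 12) (nat_lit 0x4e0a69d2ee9664a322690bc5852b68014006001) (nat_lit 0))))) (N (nat_lit 7850) (N (nat_lit 7849) (N (nat_lit 7848) (L (E (nat_lit 15) (nat_lit 0x274d38297c4bba59928c940458226910885e2b68014006001) (nat_lit 0))) (L (E (nat_lit 23) (nat_lit 0x2aa94e0a6e52a23211848c044d22511248833391838b5c5a82d31614adc56a2ae0014006001) (nat_lit 0)))) (L (E (nat_lit 24) (nat_lit 0x6da34c95549c24d526993489924be25dd2b0934477237916089a42f99c8cc46482b68014006001) (nat_lit 0)))) (N (nat_lit 7851) (L (E (nat_lit 20) (nat_lit 0x699274d3829a44be25dd2cc9464a024d118c8c045822691086482b68014006001) (nat_lit 0))) (L (E (nat_lit 12) (nat_lit 0x6af26912f89784bba31916089a2b68014006001)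 (nat_lit 0)))))) (N (nat_lit 7856) (N (nat_lit 7854) (N (nat_lit 7853) (L (E (nat_lit 11) (nat_lit 0x274d2f89784bb259910a5852b68014006001) (nat_lit 0))) (L (E (nat_lit 12) (nat_lit 0x4e9a6e93549a44c825f12ca5852b68014006001) (nat_lit 0)))) (N (nat_lit 7855) (L (E (nat_lit 11) (nat_lit 0x274d34697c4bc25d92cc5852b68014006001) (nat_lit 0))) (L (E (nat_lit 12) (nat_lit 0x6af269d34497c4bc25d92cc8b02b68014006001) (nat_lit 0))))) (N (nat_lit 7857) (L (E (nat_lit 10) (nat_lit 0x13a69a64bc25d92d25852b68014006001) (nat_lit 0))) (L (E (nat_lit 12) (nat_lit 0x6af26912f89784bb259916089a2b68014006001) (nat_lit 0)))))))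
def cl157 : RA := N (nat_lit 7886) (N (nat_lit 7876) (N (nat_lit 7867) (N (nat_lit 7863) (N (nat_lit 7860) (N (nat_lit 7859) (L (E (nat_lit 11) (nat_lit 0x274d3509a64d226892f89764b38014006001) (nat_lit 0))) (L (E (nat_lit 12) (nat_lit 0x6af34c915489744921890bc84e4240014006001) (nat_lit 0)))) (N (nat_lit 7862) (N (nat_lit 7861) (L (E (nat_lit 21) (nat_lit 0xd5e699269134497c4bc25d91908b045522690c484e2b69578aa45492980014006001) (nat_lit 0))) (L (E (nat_lit 15) (nat_lit 0x35793be9ab4d226892f89784bb22c11348842b68014006001) (nat_lit 0)))) (L (E (nat_lit 11) (nat_lit 0x274d3869944c926412f89784bb0014006001) (nat_lit 0))))) (N (nat_lit 7866) (N (nat_lit 7865) (N (nat_lit 7864) (L (E (nat_lit 8) (nat_lit 0x46322bd13888543b8014006001) (nat_lit 0))) (L (E (nat_lit 12) (nat_lit 0x6af277d34e9944be25e12ec8b02b68014006001) (nat_lit 0)))) (L (E (nat_lit 13) (nat_lit 0xd5e4dc269134497c4bc25d916089a2b68014006001)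 (nat_lit 0)))) (L (E (nat_lit 10) (nat_lit 0x1abc9a44be25e116089a2b68014006001) (nat_lit 0))))) (N (nat_lit 7872) (N (nat_lit 7870) (N (nat_lit 7869) (N (nat_lit 7868) (L (E (nat_lit 9) (nat_lit 0x9d34d1a5d92ce5852b68014006001) (nat_lit 0))) (L (E (nat_lit 17) (nat_lit 0x9d34d226892f89674582268b5259a2cc1640b1c56d2a10014006001) (nat_lit 0)))) (L (E (nat_lit 18) (nat_lit 0x13a69a84d2268931897c4bb259d16089a2cd1660b1c56d2a10014006001) (nat_lit 0)))) (N (nat_lit 7871) (L (E (nat_lit 20) (nat_lit 0x4e9a6a13489a24be25d92ce8c645822b91348842cd1660b1c56d2a10014006001) (nat_lit 0))) (L (E (nat_lit 12) (nat_lit 0x4e9a6912f89764b3a2c115c89a2b68014006001) (nat_lit 0))))) (N (nat_lit 7874) (N (nat_lit 7873) (L (E (nat_lit 15) (nat_lit 0x29513809b84c6a5fd2e69684a4251928493a2b68014006001) (nat_lit 0))) (L (E (nat_lit 16) (nat_lit 0x6ba3581ab8a544d426912f89764b3a2c115c89a2b68014006001) (nat_lit 0)))) (N (nat_lit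 7875) (L (E (nat_lit 11) (nat_lit 0x274934897c4bc25d92cc5852b68014006001) (nat_lit 0))) (L (E (nat_lit 17) (nat_lit 0xd5f69926e534898c4be25992988b044d22091008602b68014006001) (nat_lit 0))))))) (N (nat_lit 7882) (N (nat_lit 7880) (N (nat_lit 7878) (N (nat_lit 7877) (L (E (nat_lit 9) (nat_lit 0x9a44be25e116089a2b68014006001) (nat_lit 0))) (L (E (nat_lit 15) (nat_lit 0x3f11b1cd325572a114d88973601968c686041838014006001) (nat_lit 0)))) (N (nat_lit 7879) (L (E (nat_lit 25) (nat_lit 0xaae542274d34a98c4c525e12d094c470227913889a4422178cb463424d0c005e423a09d0014006001) (nat_lit 0))) (L (E (nat_lit 11) (nat_lit 0x26952f89784bb25991345852b68014006001) (nat_lit 0))))) (N (nat_lit 7881) (L (E (nat_lit 10) (nat_lit 0x134a97c4bc25d91345852b68014006001) (nat_lit 0))) (L (E (nat_lit 17) (nat_lit 0xab8540295148ca4251927a13a49ca2d41614ada55c2a50014006001) (nat_lit 0))))) (N (nat_lit 7883) (L (E (nat_lit 18) (nat_lit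 0x1570a8052a29094649e84e92728b505852bb15b4ab854a29d0014006001) (nat_lit 0))) (N (nat_lit 7884) (L (E (nat_lit 8) (nat_lit 0x4be25e116089a2b68014006001) (nat_lit 0))) (N (nat_lit 7885) (L (E (nat_lit 12) (nat_lit 0x4e926a134a97946222c113457e2b50014006001) (nat_lit 0))) (L (E (nat_lit 17) (nat_lit 0x11d06c73579a90a9153329594a8a5251f2858b005702540014006001) (nat_lit 0)))))))) (N (nat_lit 7903) (N (nat_lit 7894) (N (nat_lit 7889) (N (nat_lit 7887) (L (E (nat_lit 5) (nat_lit 0xa825352959452005) (nat_lit 0))) (N (nat_lit 7888) (L (E (nat_lit 17) (nat_lit 0x11d06af35214cca5652a294947ca2c5142858b005702540014006001) (nat_lit 0))) (L (E (nat_lit 21) (nat_lit 0xd7c6bd35d12309063311938c986383121888c4061630a1848c1c6002f90014006001) (nat_lit 0))))) (N (nat_lit 7892) (N (nat_lit 7891) (N (nat_lit 7890) (L (E (nat_lit 23) (nat_lit 0x35f1af4d7448c2418cc46583271930c646283121888c4061e30a1838c005f42f90014006001) (nat_lit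 0))) (L (E (nat_lit 33) (nat_lit 0xd7c6bd35d1abcd4855b29b94d4a6648c2418cc466032c1958c9c64c32118c8c5c6283121888c4061c30a1838c005f42f90014006001) (nat_lit 0)))) (L (E (nat_lit 22) (nat_lit 0x1fd0d8f6be35e9ae8ab653729a94cc9a24601920c6863231818b8afc3921540014006001) (nat_lit 0)))) (N (nat_lit 7893) (L (E (nat_lit 34) (nat_lit 0x23a0fe86be3521504a6e52b28f93e49e74dd26e13489a24cf23a916c8b2457a268c8462e3121838be85a92c295e8ada5542540014006001) (nat_lit 0))) (L (E (nat_lit 27) (nat_lit 0x4431ac0be05aa2d494aa8ec44a9c70dd465a32418d0c445aa2c012d889841e1ba09a84ac24c11f0014006001) (nat_lit 0)))))) (N (nat_lit 7899) (N (nat_lit 7897) (N (nat_lit 7896) (N (nat_lit 7895) (L (E (nat_lit 40) (nat_lit 0x88635817c0b545a92bf1500a6652b28f9458a284d223b11848953fa1c70dd46623301968c9063431116a8b004b61ca0e186f03741b609a84ac24c11f0014006001) (nat_lit 0))) (L (E (nat_lit 44) (nat_lit 0x7f437e9af8d746b03521504a6e533295947ca2c4f9279d3749b84d2268933c97247422d91648af45322690fc6ea33118c8c5c62230a1838be85a92bd15b4ab84b62540014006001)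 (nat_lit 0)))) (L (E (nat_lit 15) (nat_lit 0x4011b5ca81531295547465e32418d0c646223070014006001) (nat_lit 0)))) (N (nat_lit 7898) (L (E (nat_lit 14) (nat_lit 0x1504a8053f29a94aaa4351418c0c3c60e2fa0014006001) (nat_lit 0))) (L (E (nat_lit 23) (nat_lit 0x4011b5ca8253f29b94d4a6252aa8e8cc466032f1920c686323181888c3c60e2fa0014006001) (nat_lit 0))))) (N (nat_lit 7901) (N (nat_lit 7900) (L (E (nat_lit 9) (nat_lit 0x9d24d125f116089a2b68014006001) (nat_lit 0))) (L (E (nat_lit 13) (nat_lit 0xa8152a26512f889a42f1920b505852b68014006001) (nat_lit 0)))) (N (nat_lit 7902) (L (E (nat_lit 14) (nat_lit 0x1520a81533a6512f889a42f1920b385852b68014006001) (nat_lit 0))) (L (E (nat_lit 20) (nat_lit 0x53f29914aca5251f22bd13485231a1888bbc5a92ce1640b0a55c2ac0014006001) (nat_lit 0))))))) (N (nat_lit 7910) (N (nat_lit 7907) (N (nat_lit 7906) (N (nat_lit 7905) (N (nat_lit 7904) (L (E (nat_lit 22) (nat_lit 0x1520a6052b295147ca2c4ca25f115e89a42f2148c445aa2d31670b2056d2ae0014006001)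 (nat_lit 0))) (L (E (nat_lit 28) (nat_lit 0x6ce3631ac0d4869d3499500a7e53629814aa9d24ca23811bc8d246022e915e8a444d16a0b4c59c2b68014006001) (nat_lit 0)))) (L (E (nat_lit 19) (nat_lit 0x2e6130e8c446022c11348963f01778b5c5a92ce1640b0a55c2ac0014006001) (nat_lit 0)))) (L (E (nat_lit 7) (nat_lit 0x27492f88b02b68014006001) (nat_lit 0)))) (N (nat_lit 7909) (N (nat_lit 7908) (L (E (nat_lit 11) (nat_lit 0x2ab9552a8453f29614aca425170014006001) (nat_lit 0))) (L (E (nat_lit 17) (nat_lit 0x9a44bca5591606723381928c646202ff16a0ada55c2a50014006001) (nat_lit 0)))) (L (E (nat_lit 12) (nat_lit 0x6da2a054aa97946222c11346722b68014006001) (nat_lit 0))))) (N (nat_lit 7913) (N (nat_lit 7911) (L (E (nat_lit 11) (nat_lit 0x274d2f28c44582268b525802b70014006001) (nat_lit 0))) (N (nat_lit 7912) (L (E (nat_lit 21) (nat_lit 0xa6e4df26e93509a44ca26492fc97944d2150ecc67432816e8b0056e2ae0014006001) (nat_lit 0))) (L (E (nat_lit 17) (nat_lit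 0xab854029d94aaa4351d27d934897c462230916089a2b68014006001) (nat_lit 0))))) (N (nat_lit 7914) (L (E (nat_lit 7) (nat_lit 0x274d2cc9644ab8014006001) (nat_lit 0))) (N (nat_lit 7915) (L (E (nat_lit 15) (nat_lit 0x2ae1500a7e53b29554749f64d225f118c8b02b68014006001) (nat_lit 0))) (L (E (nat_lit 11) (nat_lit 0x2a014fca554581920b9e56d2ae8014006001) (nat_lit 0))))))))
def cl158 : RA := N (nat_lit 7916) (cl157) (N (nat_lit 7935) (N (nat_lit 7928) (N (nat_lit 7922) (N (nat_lit 7919) (N (nat_lit 7918) (N (nat_lit 7917) (L (E (nat_lit 24) (nat_lit 0x53f29b94d4a5552128e945068732418d0c6462230f183cae456a2ae14f0a7453428f0014006001) (nat_lit 0))) (L (E (nat_lit 17) (nat_lit 0xa7e535295547497c4ba231916061e2d415c0ada53428f0014006001) (nat_lit 0)))) (L (E (nat_lit 8) (nat_lit 0x5552a014d4a545218014006001) (nat_lit 0)))) (N (nat_lit 7921) (N (nat_lit 7920) (L (E (nat_lit 18) (nat_lit 0x1570aaa54029f94d4a5652a28f8b5c5aa2d41618ae456d2ae0014006001)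 (nat_lit 0))) (L (E (nat_lit 7) (nat_lit 0x29f94aca4551f8014006001) (nat_lit 0)))) (L (E (nat_lit 11) (nat_lit 0x2ae1524a7e53b29a94aca4251f8014006001) (nat_lit 0))))) (N (nat_lit 7925) (N (nat_lit 7924) (N (nat_lit 7923) (L (E (nat_lit 19) (nat_lit 0x2ae1554a8053f29d94d4a5652a28e8b5c5aa2d41618ae456d2ae0014006001) (nat_lit 0))) (L (E (nat_lit 12) (nat_lit 0x5552a014fca544bc96a8b505852b68014006001) (nat_lit 0)))) (L (E (nat_lit 9) (nat_lit 0xa9253f2959484a3e51d0014006001) (nat_lit 0)))) (N (nat_lit 7927) (N (nat_lit 7926) (L (E (nat_lit 14) (nat_lit 0x1abcab853f28e92f897446222c0c3c5a82b68014006001) (nat_lit 0))) (L (E (nat_lit 17) (nat_lit 0xa2e4e9a7393849a44be25e52d0956470231916489a3d30014006001) (nat_lit 0)))) (L (E (nat_lit 23) (nat_lit 0x35794fea4251f28e93a69ce4e125f12f29744ab23811a88c646222c916089a3d30014006001) (nat_lit 0)))))) (N (nat_lit 7929) (L (E (nat_lit 6) (nat_lit 0x12f88b02b68014006001)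 (nat_lit 0))) (N (nat_lit 7930) (L (E (nat_lit 10) (nat_lit 0x15589eb47019d09a434012d055800a003) (nat_lit 0))) (N (nat_lit 7933) (N (nat_lit 7932) (N (nat_lit 7931) (L (E (nat_lit 16) (nat_lit 0x6da3691b38d484f527993c09a84d326892fa97847f8014006001) (nat_lit 0))) (L (E (nat_lit 34) (nat_lit 0x1b68db26d23671a90aac4f327813509a24cb25f52f095647723b11608842df1668b305962a514e0a585262921488a4025a0ab0014006001) (nat_lit 0)))) (L (E (nat_lit 11) (nat_lit 0x26e131a9784b2250118a88443a0014006001) (nat_lit 0)))) (N (nat_lit 7934) (L (E (nat_lit 22) (nat_lit 0x1a98d4a6a423fd1f88d446222cd154897443a1c4c9c64831a1890c446122fa0014006001) (nat_lit 0))) (L (E (nat_lit 24) (nat_lit 0x6a63529a909a24bc23fd1f88f346222cd15488743c21c4c9c64831a1890c446122fa0014006001) (nat_lit 0)))))))) (N (nat_lit 7947) (N (nat_lit 7941) (N (nat_lit 7938) (N (nat_lit 7936) (L (E (nat_lit 27) (nat_lit 0x29fd4d4a3f516278135097d476231916088443b1938c6859a2cc1528a585262921488a4025a0ab0014006001)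 (nat_lit 0))) (N (nat_lit 7937) (L (E (nat_lit 25) (nat_lit 0xe4c704363130097d4bc259d2c895746b22c916089a44922110e27b631a129062029a09b0014006001) (nat_lit 0))) (L (E (nat_lit 29) (nat_lit 0xe086c62a014a8a4251f28e936c9a24bea5e12b08b2458221d0986342d49620af855829c14d094831014d0014006001) (nat_lit 0))))) (N (nat_lit 7940) (N (nat_lit 7939) (L (E (nat_lit 16) (nat_lit 0x53fa95147c9e24f026712fa9782d49614ada5542930014006001) (nat_lit 0))) (L (E (nat_lit 21) (nat_lit 0xa7f52a28f943a9e04db26712f095847fa3111608874422130b5256d2930014006001) (nat_lit 0)))) (L (E (nat_lit 20) (nat_lit 0x53fa95147ca2c4f026712f095847fa3111608874422130b5256d2930014006001) (nat_lit 0))))) (N (nat_lit 7942) (L (E (nat_lit 8) (nat_lit 0x48a23fd1e68c44598014006001) (nat_lit 0))) (N (nat_lit 7945) (N (nat_lit 7944) (N (nat_lit 7943) (L (E (nat_lit 15) (nat_lit 0x29fd1fe8f2476235118c8c4459a2c11548871c90014006001) (nat_lit 0))) (L (E (nat_lit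 25) (nat_lit 0xac653fa74137498d4bea5c92ce95e4aba3fd1a88c4459a21cd204de25d0e486b026a0b00014006001) (nat_lit 0)))) (L (E (nat_lit 27) (nat_lit 0x357958ca7f4e826d935097d4bb25c92ce95e4ac23fd1a88c4459a21cd204de25d0e486b026a0b00014006001) (nat_lit 0)))) (N (nat_lit 7946) (L (E (nat_lit 15) (nat_lit 0x29fd4aaa3b4bc25611fe8c4459a21cb5256d2930014006001) (nat_lit 0))) (L (E (nat_lit 7) (nat_lit 0x2a51500a6a5218014006001) (nat_lit 0))))))) (N (nat_lit 7953) (N (nat_lit 7949) (N (nat_lit 7948) (L (E (nat_lit 20) (nat_lit 0x53fa90947ca2c4f026712f095846222cd10884c2d49620af856d2930014006001) (nat_lit 0))) (L (E (nat_lit 7) (nat_lit 0x2d994de8b31500014006001) (nat_lit 0)))) (N (nat_lit 7951) (N (nat_lit 7950) (L (E (nat_lit 16) (nat_lit 0x53fa9b93d65de2d49614adc55c2ac1550a8452628f0014006001) (nat_lit 0))) (L (E (nat_lit 24) (nat_lit 0x6d936b94fea6e4f9a79937497d4b39a00cd865c31a1778b525852b71560a8452628f0014006001)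 (nat_lit 0)))) (N (nat_lit 7952) (L (E (nat_lit 20) (nat_lit 0x53fa8f92fa97847fa3151668a84421a00c685de2d49614adc52628f0014006001) (nat_lit 0))) (L (E (nat_lit 9) (nat_lit 0x8fe46122b91508904438014006001) (nat_lit 0)))))) (N (nat_lit 7954) (L (E (nat_lit 18) (nat_lit 0x14fea4251f28b13c099c4bc25611668844261a00b5256d2930014006001) (nat_lit 0))) (L (E (nat_lit 9) (nat_lit 0x9a24bc231516489a4420014006001) (nat_lit 0)))))))
def cl159 : RA := N (nat_lit 7994) (N (nat_lit 7971) (N (nat_lit 7961) (N (nat_lit 7959) (N (nat_lit 7957) (N (nat_lit 7956) (L (E (nat_lit 15) (nat_lit 0x274134497d4bc23191848b245822b91088742c00014006001) (nat_lit 0))) (L (E (nat_lit 14) (nat_lit 0x14fe9be4d426512fc8ec46c23090fc39218e0014006001) (nat_lit 0)))) (N (nat_lit 7958) (L (E (nat_lit 17) (nat_lit 0xa7f51f25f52ce95845922c110e84c2d49614b005422930014006001) (nat_lit 0))) (L (E (nat_lit 15) (nat_lit 0x29fd484a3e4f026712f08b04261a00b5256d2930014006001)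 (nat_lit 0))))) (N (nat_lit 7960) (L (E (nat_lit 6) (nat_lit 0x14fe8b02b68014006001) (nat_lit 0))) (L (E (nat_lit 6) (nat_lit 0x135097d4bc8014006001) (nat_lit 0))))) (N (nat_lit 7962) (L (E (nat_lit 8) (nat_lit 0x4d4269134497d4b30014006001) (nat_lit 0))) (N (nat_lit 7967) (N (nat_lit 7965) (N (nat_lit 7964) (N (nat_lit 7963) (L (E (nat_lit 11) (nat_lit 0x2ad14fca5552127acb525852b68014006001) (nat_lit 0))) (L (E (nat_lit 18) (nat_lit 0x1ac8d5e6ae3529568a7e4f5a73133c98d4c4253cb525852b68014006001) (nat_lit 0)))) (L (E (nat_lit 11) (nat_lit 0x26913448ff45922bd10e5a92b68014006001) (nat_lit 0)))) (N (nat_lit 7966) (L (E (nat_lit 16) (nat_lit 0x6d23639a9cd4969d26913289904c625d92e89674a78014006001) (nat_lit 0))) (L (E (nat_lit 10) (nat_lit 0x147c9a44d122c915e8872b68014006001) (nat_lit 0))))) (N (nat_lit 7969) (N (nat_lit 7968) (L (E (nat_lit 13) (nat_lit 0xa3e4d2268932897e4b3a2c91608872b68014006001) (nat_lit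 0))) (L (E (nat_lit 11) (nat_lit 0x23191888b2458226910c8844410014006001) (nat_lit 0)))) (N (nat_lit 7970) (L (E (nat_lit 13) (nat_lit 0xd484d4269134497d45922c113888442f0014006001) (nat_lit 0))) (L (E (nat_lit 11) (nat_lit 0x26a13489a246322c91608842b68014006001) (nat_lit 0)))))))) (N (nat_lit 7981) (N (nat_lit 7976) (N (nat_lit 7975) (N (nat_lit 7973) (N (nat_lit 7972) (L (E (nat_lit 20) (nat_lit 0x54c2a014fca3f4f427493949ba4d125d12ce94249a16a8b0a56d2ae0014006001) (nat_lit 0))) (L (E (nat_lit 17) (nat_lit 0xa8052128f93d09d24e526fd3749a24ac9614ada55c2a50014006001) (nat_lit 0)))) (N (nat_lit 7974) (L (E (nat_lit 9) (nat_lit 0x9a24b3a2c91608842b68014006001) (nat_lit 0))) (L (E (nat_lit 23) (nat_lit 0x35d11dc8d645922bd13487842e1928c686202ff16a4b245852c015f8af456a2a20014006001) (nat_lit 0))))) (L (E (nat_lit 9) (nat_lit 0xa7e52b290947ca3a50f0014006001) (nat_lit 0)))) (N (nat_lit 7979) (N (nat_lit 7978)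 (N (nat_lit 7977) (L (E (nat_lit 25) (nat_lit 0xd8e6ba2a0147ca2850f26892f08ee46b22c916088443c1968c945fe2d31648af456d2a20014006001) (nat_lit 0))) (L (E (nat_lit 8) (nat_lit 0x4d122c91608842b68014006001) (nat_lit 0)))) (L (E (nat_lit 16) (nat_lit 0x55c29514849e84e926892fa9564a91614ada54a29d0014006001) (nat_lit 0)))) (N (nat_lit 7980) (L (E (nat_lit 18) (nat_lit 0x1570a8453f28fd3d09a24bea5912ac8b24429614ada54a29d0014006001) (nat_lit 0))) (L (E (nat_lit 13) (nat_lit 0x9a84d226892fa9564a223191648924428014006001) (nat_lit 0)))))) (N (nat_lit 7986) (N (nat_lit 7982) (L (E (nat_lit 14) (nat_lit 0x147c9e84dfa6952ce9564a71614ada55c2a50014006001) (nat_lit 0))) (N (nat_lit 7983) (L (E (nat_lit 7) (nat_lit 0x26891648b02b68014006001) (nat_lit 0))) (N (nat_lit 7985) (N (nat_lit 7984) (L (E (nat_lit 13) (nat_lit 0xa3e4d426952fa966459a150b3056e2ac0014006001) (nat_lit 0))) (L (E (nat_lit 22) (nat_lit 0x1a9c9a24c525f52e89674a123091668ae44922110e868e3401928c3c6143030014006001)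 (nat_lit 0)))) (L (E (nat_lit 12) (nat_lit 0x51f26fd34a9724b3a2c11085a82b68014006001) (nat_lit 0)))))) (N (nat_lit 7991) (N (nat_lit 7989) (N (nat_lit 7988) (N (nat_lit 7987) (L (E (nat_lit 17) (nat_lit 0xbba53f290947ca1e47623711668af2ae15609dc4ce25d0014006001) (nat_lit 0))) (L (E (nat_lit 24) (nat_lit 0x6c73579a90a3e4d3268931497d4b3a5612848c2459a2b912488443a1a38d0063730e0014006001) (nat_lit 0)))) (L (E (nat_lit 11) (nat_lit 0x28f937e9a54b9259d1608842b68014006001) (nat_lit 0)))) (N (nat_lit 7990) (L (E (nat_lit 10) (nat_lit 0x147c9a84d2a2c11345982b68014006001) (nat_lit 0))) (L (E (nat_lit 14) (nat_lit 0x14fca3f4f426952e89674ab2504b0a56d2ae0014006001) (nat_lit 0))))) (N (nat_lit 7993) (N (nat_lit 7992) (L (E (nat_lit 11) (nat_lit 0x29f947e9a54bea59d1665852b68014006001) (nat_lit 0))) (L (E (nat_lit 6) (nat_lit 0x134a8b02b68014006001) (nat_lit 0)))) (L (E (nat_lit 15) (nat_lit 0x3691af0d5f54029f94f4a6a51f98d0c246042fc0014006001)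 (nat_lit 0)))))))) (N (nat_lit 8001) (N (nat_lit 8000) (N (nat_lit 7996) (N (nat_lit 7995) (L (E (nat_lit 26) (nat_lit 0x1b80db46d936b9b3cd786ba3591a64d3054029f94f4a6a51fa3091668ae44221d0c686122fc0014006001) (nat_lit 0))) (L (E (nat_lit 7) (nat_lit 0x22cd0ea85e42e0014006001) (nat_lit 0)))) (N (nat_lit 7998) (N (nat_lit 7997) (L (E (nat_lit 25) (nat_lit 0xdb46d93591a64d3053f28fd3a09ba4d126452e88fa46122cd1608a844ba210c686122fc0014006001) (nat_lit 0))) (L (E (nat_lit 15) (nat_lit 0x27d13769a64c525f52ce95846122cd12e8924420014006001) (nat_lit 0)))) (N (nat_lit 7999) (L (E (nat_lit 23) (nat_lit 0x36c9a64d3053f28fd3a69a84d3269134497d4ba23091668b045722a112488431a0014006001) (nat_lit 0))) (L (E (nat_lit 20) (nat_lit 0x69929f947e9d34d4269134497d4ba23191848b3458226912e88431a0014006001) (nat_lit 0)))))) (L (E (nat_lit 9) (nat_lit 0x8d846022a912e89242f0014006001) (nat_lit 0)))) (N (nat_lit 8010) (N (nat_lit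 8005) (N (nat_lit 8004) (N (nat_lit 8002) (L (E (nat_lit 8) (nat_lit 0x461a2ad12e8744360014006001) (nat_lit 0))) (N (nat_lit 8003) (L (E (nat_lit 23) (nat_lit 0x29f947e9e84f0274d3489a24bea5d129e8b3458225d1086342ef16f8b0a57e2b50014006001) (nat_lit 0))) (L (E (nat_lit 9) (nat_lit 0x9a44bea5892b09524a70014006001) (nat_lit 0))))) (L (E (nat_lit 9) (nat_lit 0x9a84d226893289754b38014006001) (nat_lit 0)))) (N (nat_lit 8008) (N (nat_lit 8007) (N (nat_lit 8006) (L (E (nat_lit 21) (nat_lit 0xa7e51fa7a13c09d34d226892fa9744a7a2cd12e6342ef16f8b0a57e2b50014006001) (nat_lit 0))) (L (E (nat_lit 18) (nat_lit 0x14fca3f4f427813489a24bea5d11666342ef16f8b0a57e2b50014006001) (nat_lit 0)))) (L (E (nat_lit 11) (nat_lit 0x26a13489a24bea2cd12c4ba2520014006001) (nat_lit 0)))) (N (nat_lit 8009) (L (E (nat_lit 12) (nat_lit 0x4d225f52b09524a723091668ae4420014006001) (nat_lit 0))) (L (E (nat_lit 10) (nat_lit 0x1500a7e53329514a4a3e5140014006001)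 (nat_lit 0)))))) (N (nat_lit 8017) (N (nat_lit 8014) (N (nat_lit 8012) (N (nat_lit 8011) (L (E (nat_lit 16) (nat_lit 0x5492a014fca7a533290947ca2850f1668b2456d2ae0014006001) (nat_lit 0))) (L (E (nat_lit 22) (nat_lit 0x14fca4251f28a137c9a84d226892fa97446423191848ae44221d0c2459a2b68014006001) (nat_lit 0)))) (N (nat_lit 8013) (L (E (nat_lit 12) (nat_lit 0x51f26a13448c2458225d10859a2b68014006001) (nat_lit 0))) (L (E (nat_lit 19) (nat_lit 0x2a514fca5251f25d92ce8ee461a2cd1548972df1614afc56a2ae0014006001) (nat_lit 0))))) (N (nat_lit 8016) (N (nat_lit 8015) (L (E (nat_lit 10) (nat_lit 0x11868b0455a26912e87843a0014006001) (nat_lit 0))) (L (E (nat_lit 17) (nat_lit 0xa7e52127a13a697d461a2cd12e5de2df1614afc56e2b50014006001) (nat_lit 0)))) (L (E (nat_lit 9) (nat_lit 0xa3e4d122c112e8842b68014006001) (nat_lit 0))))) (N (nat_lit 8018) (L (E (nat_lit 6) (nat_lit 0x13448b02b68014006001) (nat_lit 0))) (N (nat_lit 8019)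 (L (E (nat_lit 7) (nat_lit 0x22cd13c88543b0014006001) (nat_lit 0))) (N (nat_lit 8020) (L (E (nat_lit 15) (nat_lit 0x3591a90d3c69929c14dca6a52a98f0c6c6343190014006001) (nat_lit 0))) (L (E (nat_lit 24) (nat_lit 0x6e436d1b4cd646a434f1a64d2254b29b947ca284d225f92d49684ab252128c6343190014006001) (nat_lit 0)))))))))
def cl160 : RA := N (nat_lit 7688) (N (nat_lit 7536) (N (nat_lit 7452) (N (nat_lit 7449) (N (nat_lit 7448) (N (nat_lit 7446) (N (nat_lit 7443) (L (E (nat_lit 9) (nat_lit 0x9a94d125e12ec5702b68014006001) (nat_lit 0))) (N (nat_lit 7445) (N (nat_lit 7444) (L (E (nat_lit 10) (nat_lit 0x13449784bb25d0b3256d2a38014006001) (nat_lit 0))) (L (E (nat_lit 12) (nat_lit 0x46b23191608ae44b22111048804380014006001) (nat_lit 0)))) (L (E (nat_lit 18) (nat_lit 0x1570a9754229ad464a2c3351980c8c63831a18c0c406103010014006001) (nat_lit 0))))) (N (nat_lit 7447) (L (E (nat_lit 7) (nat_lit 0x1968c906343128014006001)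 (nat_lit 0))) (L (E (nat_lit 21) (nat_lit 0xa9752b291934a9804bc22c115c89631c1748b9859e2cc9578a8c5322980014006001) (nat_lit 0))))) (L (E (nat_lit 7) (nat_lit 0x26892f08ae44b0014006001) (nat_lit 0)))) (N (nat_lit 7451) (N (nat_lit 7450) (L (E (nat_lit 24) (nat_lit 0x605275939c9c24d525f12ee9664a9237918c8c245822b90ec8702cc9600afc5490a70014006001) (nat_lit 0))) (L (E (nat_lit 10) (nat_lit 0x11bc8d7462a2591288924410014006001) (nat_lit 0)))) (L (E (nat_lit 9) (nat_lit 0x9c04df26e93709a44bb8014006001) (nat_lit 0))))) (cl150)) (N (nat_lit 7640) (N (nat_lit 7582) (cl151) (cl152)) (cl153))) (N (nat_lit 7858) (N (nat_lit 7764) (N (nat_lit 7737) (cl154) (N (nat_lit 7743) (N (nat_lit 7738) (L (E (nat_lit 7) (nat_lit 0x274934e9944bb8014006001) (nat_lit 0))) (N (nat_lit 7740) (N (nat_lit 7739) (L (E (nat_lit 13) (nat_lit 0xa8552328c8b5c5aa2d41618ae456d2ae0014006001) (nat_lit 0))) (L (E (nat_lit 12) (nat_lit 0x5632ae1554aa854c2a114fca7a53b0014006001)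 (nat_lit 0)))) (N (nat_lit 7741) (L (E (nat_lit 14) (nat_lit 0x1b1ca7e4dc26a134c9a44d125f12ee9672b68014006001) (nat_lit 0))) (N (nat_lit 7742) (L (E (nat_lit 12) (nat_lit 0x4e9269d3449774b3a31916089a2b68014006001) (nat_lit 0))) (L (E (nat_lit 9) (nat_lit 0xab85542a6550ca7e5290014006001) (nat_lit 0))))))) (N (nat_lit 7753) (N (nat_lit 7746) (N (nat_lit 7745) (N (nat_lit 7744) (L (E (nat_lit 7) (nat_lit 0x2b1d570ab45408014006001) (nat_lit 0))) (L (E (nat_lit 15) (nat_lit 0x2ae1568aaa5542a19508a7e53d29d94a4a3a5130014006001) (nat_lit 0)))) (L (E (nat_lit 10) (nat_lit 0x1528a8053b29a9488a3a5130014006001) (nat_lit 0)))) (N (nat_lit 7750) (N (nat_lit 7748) (N (nat_lit 7747) (L (E (nat_lit 15) (nat_lit 0x36394fc9d24d226892f89774b3a2c113456d2b30014006001) (nat_lit 0))) (L (E (nat_lit 12) (nat_lit 0x6c6b5793a49a44be25e116089a2b68014006001) (nat_lit 0)))) (N (nat_lit 7749) (L (E (nat_lit 10) (nat_lit 0x15009a44d125dd2cc5852b68014006001)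 (nat_lit 0))) (L (E (nat_lit 9) (nat_lit 0x9d24d7a68d32a9774b30014006001) (nat_lit 0))))) (N (nat_lit 7751) (L (E (nat_lit 12) (nat_lit 0x54027493489954bc25dd2cc5852b68014006001) (nat_lit 0))) (N (nat_lit 7752) (L (E (nat_lit 8) (nat_lit 0x542aa012d25852b68014006001) (nat_lit 0))) (L (E (nat_lit 11) (nat_lit 0x2ae1554a96542aa014d4a6752a0014006001) (nat_lit 0))))))) (N (nat_lit 7761) (N (nat_lit 7757) (N (nat_lit 7756) (N (nat_lit 7755) (N (nat_lit 7754) (L (E (nat_lit 11) (nat_lit 0x23a91908b0457226912888342d0014006001) (nat_lit 0))) (L (E (nat_lit 21) (nat_lit 0xab8542aa014f2a5451626bd2fc97c4bc25612909444a122c0aec56d2a40014006001) (nat_lit 0)))) (L (E (nat_lit 30) (nat_lit 0x1b28d886bc2ae150aa8053ca9514589af4bf25f12f09584a425112848c84582250ca06363101808b505a22b68014006001) (nat_lit 0)))) (L (E (nat_lit 12) (nat_lit 0x71a3781a908c846122691288924418014006001) (nat_lit 0)))) (N (nat_lit 7759) (N (nat_lit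 7758) (L (E (nat_lit 20) (nat_lit 0x55c2aa952ca8554029a94a88d6464230918089a44a224910c8844400014006001) (nat_lit 0))) (L (E (nat_lit 12) (nat_lit 0x542aa013a49a34bba59916089a2b68014006001) (nat_lit 0)))) (N (nat_lit 7760) (L (E (nat_lit 9) (nat_lit 0xa97543aa114fca7b5350014006001) (nat_lit 0))) (L (E (nat_lit 9) (nat_lit 0xab854b2a1d504a6c5350014006001) (nat_lit 0)))))) (N (nat_lit 7762) (L (E (nat_lit 10) (nat_lit 0x1570a845412a014fca6a52a0014006001) (nat_lit 0))) (N (nat_lit 7763) (L (E (nat_lit 16) (nat_lit 0x555aa55506a524d226512f89774b31614b0056e2ac0014006001) (nat_lit 0))) (L (E (nat_lit 22) (nat_lit 0x1b40ab85552a41506a3251528a137e9a34ca25f12ee9664582268ba456d2a48014006001) (nat_lit 0))))))))) (N (nat_lit 7806) (cl155) (cl156))) (N (nat_lit 7955) (cl158) (cl159)))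
def cl161 : RA := N (nat_lit 8038) (N (nat_lit 8033) (N (nat_lit 8027) (N (nat_lit 8025) (N (nat_lit 8023) (N (nat_lit 8022) (L (E (nat_lit 9) (nat_lit 0xdb46d93639b18d4869b8014006001) (nat_lit 0))) (L (E (nat_lit 23) (nat_lit 0x28f93509a44bea5d92cc9484a323a11848b3454227912e88443a1938c685982b70014006001) (nat_lit 0)))) (N (nat_lit 8024) (L (E (nat_lit 21) (nat_lit 0xa3e4d426912fa9764b3252128c8c546122cd13489742f1938c685982b70014006001) (nat_lit 0))) (L (E (nat_lit 16) (nat_lit 0x51f27893749a44bb25c92cc9484a323091808b32b68014006001) (nat_lit 0))))) (N (nat_lit 8026) (L (E (nat_lit 11) (nat_lit 0x26e934898c4bb22c910a5802b70014006001) (nat_lit 0))) (L (E (nat_lit 6) (nat_lit 0x1690a434418a00006001) (nat_lit 0))))) (N (nat_lit 8030) (N (nat_lit 8029) (N (nat_lit 8028) (L (E (nat_lit 18) (nat_lit 0x1a449f44f1268d32899248823f11d08d6462a2c914c89526c0014006001) (nat_lit 0))) (L (E (nat_lit 32) (nat_lit 0x5f92f99798bbe5db2ec93749a44ca264932098c4b41778b8a5ae2ce15c0ab854a26b13289784b825712889384902460014006001)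 (nat_lit 0)))) (L (E (nat_lit 14) (nat_lit 0x1b48d906bc3539a908e53471a00cd86583220014006001) (nat_lit 0)))) (N (nat_lit 8031) (L (E (nat_lit 41) (nat_lit 0xda46a73521a54bf25f32f3177cbb65d926e93489984ca26493189574729a38cd865c3241910c706262ef16b8b0c5722b815b4ac24ca25e12e095c4a22480014006001) (nat_lit 0))) (N (nat_lit 8032) (L (E (nat_lit 25) (nat_lit 0xda46c8363db18d7a6bc3591ac0d586a734894fca425172394d1c66c3241910c4061e30d0014006001) (nat_lit 0))) (L (E (nat_lit 32) (nat_lit 0x6d23641af4d786b23561a9cd4869534894fca42517239512c6fe34719b0c9064431c1880c3c61a30b1850c1c55824a0014006001) (nat_lit 0))))))) (N (nat_lit 8035) (N (nat_lit 8034) (L (E (nat_lit 7) (nat_lit 0x3585aa8d506a70014006001) (nat_lit 0))) (L (E (nat_lit 5) (nat_lit 0x4c725a1290928486) (nat_lit 0)))) (N (nat_lit 8037) (N (nat_lit 8036) (L (E (nat_lit 65) (nat_lit 0xda46d03631af4d586aa3521a54d225f92f99798bbe5db2ec94fca4251f28e93c49ba4dc26913309944c926312fc96a4a425191ca8d444b1a38cd865c3241910c706263101878c346163071778b5c5862b915c0ada56126512f09704ae25112509204861290014006001)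 (nat_lit 0))) (L (E (nat_lit 7) (nat_lit 0x3631aa8d4c69d8014006001) (nat_lit 0)))) (L (E (nat_lit 18) (nat_lit 0x1f84f0c77c3585aa8d4e6a434d9a54d1e6052fd94b09133e60014006001) (nat_lit 0)))))) (N (nat_lit 8052) (N (nat_lit 8045) (N (nat_lit 8042) (N (nat_lit 8040) (N (nat_lit 8039) (L (E (nat_lit 25) (nat_lit 0xd584f126a13389724a324411988c245922c115c89644221d0d1c61a2ef15c8ae056d2b30014006001) (nat_lit 0))) (L (E (nat_lit 13) (nat_lit 0xdb46d23669b10d786b93581ab4d586a50014006001) (nat_lit 0)))) (N (nat_lit 8041) (L (E (nat_lit 29) (nat_lit 0xd584f127093749b84d226712ec9724af252128c91046623091808b245822b91348964421a38c9061a2b68014006001) (nat_lit 0))) (L (E (nat_lit 12) (nat_lit 0x6da3639b18d646b0b539a92d3a4620014006001) (nat_lit 0))))) (N (nat_lit 8044) (N (nat_lit 8043) (L (E (nat_lit 8) (nat_lit 0x6c7b5f9ac2d4969d0014006001) (nat_lit 0))) (L (E (nat_lit 14) (nat_lit 0x1b18d7e6bd35c9ac2d4969d26912fa9764620014006001)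 (nat_lit 0)))) (L (E (nat_lit 17) (nat_lit 0xd8e6b0b5214c8a524d1a5f517a8af2dc9638b0a5582a48014006001) (nat_lit 0))))) (N (nat_lit 8049) (N (nat_lit 8047) (N (nat_lit 8046) (L (E (nat_lit 9) (nat_lit 0xd8f6bf3599abcd4f6a50014006001) (nat_lit 0))) (L (E (nat_lit 15) (nat_lit 0x363db08d6e6b0b4f1a74d365e6268d2fa8af2ac0014006001) (nat_lit 0)))) (N (nat_lit 8048) (L (E (nat_lit 23) (nat_lit 0x35f9af4d726b0a9914a49a34bea5c91bc8bd457a210c685b92c71614ab054a2a48014006001) (nat_lit 0))) (L (E (nat_lit 11) (nat_lit 0x363dac0d5e6a623251888b02b68014006001) (nat_lit 0))))) (N (nat_lit 8051) (N (nat_lit 8050) (L (E (nat_lit 11) (nat_lit 0x363dac0d5e69d23251888b02b68014006001) (nat_lit 0))) (L (E (nat_lit 20) (nat_lit 0x6c73535a90a6a4db268d2fa8de46322f515e5d82e416d8b1c4b42520014006001) (nat_lit 0)))) (L (E (nat_lit 15) (nat_lit 0x3639a9a9b64d1a5f515e5d82e416d8b1c5852520014006001) (nat_lit 0)))))) (N (nat_lit 8058)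 (N (nat_lit 8055) (N (nat_lit 8053) (L (E (nat_lit 7) (nat_lit 0x367dac0d586a48014006001) (nat_lit 0))) (N (nat_lit 8054) (L (E (nat_lit 18) (nat_lit 0x1ab09e24db26712e494648823311848b24582258d1c61a2b68014006001) (nat_lit 0))) (L (E (nat_lit 18) (nat_lit 0x1ab0a3e4f126d93389724a324411988c646122c0d1c61a2b68014006001) (nat_lit 0))))) (N (nat_lit 8056) (L (E (nat_lit 6) (nat_lit 0x1b6ad796b2352da4c005) (nat_lit 0))) (N (nat_lit 8057) (L (E (nat_lit 14) (nat_lit 0x1b3ed8e6b23575a6cb7a4ca237cae42c01500014006001) (nat_lit 0))) (L (E (nat_lit 15) (nat_lit 0x3639ac0d5e6a426a134699c4bea5c918c8c34580014006001) (nat_lit 0)))))) (N (nat_lit 8062) (N (nat_lit 8060) (N (nat_lit 8059) (L (E (nat_lit 17) (nat_lit 0xf0a6c93625af8d7a4d425f91c48cc461a2d116089743a0014006001) (nat_lit 0))) (L (E (nat_lit 16) (nat_lit 0x6c83639b18d7a6afb53535097e466230d1688b043a0014006001) (nat_lit 0)))) (N (nat_lit 8061) (L (E (nat_lit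 16) (nat_lit 0x6c635e5abe9ba4d426913289924c625a11988c34580014006001) (nat_lit 0))) (L (E (nat_lit 17) (nat_lit 0xd8e6c635e1ac0d5c6a635293509924b323191868b044d0014006001) (nat_lit 0))))) (L (E (nat_lit 10) (nat_lit 0x1a6699c4c425c91888ae44b0014006001) (nat_lit 0))))))
def cl162 : RA := N (nat_lit 8135) (N (nat_lit 8126) (N (nat_lit 8119) (N (nat_lit 8116) (N (nat_lit 8115) (N (nat_lit 8114) (L (E (nat_lit 7) (nat_lit 0x26952f89762b68014006001) (nat_lit 0))) (L (E (nat_lit 7) (nat_lit 0x36352f89682b68014006001) (nat_lit 0)))) (L (E (nat_lit 13) (nat_lit 0x9a44d126512fc96746323111848c044b8014006001) (nat_lit 0)))) (N (nat_lit 8118) (N (nat_lit 8117) (L (E (nat_lit 14) (nat_lit 0x1b1ad724db26a134897d4bb23611848ae4420014006001) (nat_lit 0))) (L (E (nat_lit 9) (nat_lit 0xd8d4d226892fa9762b68014006001) (nat_lit 0)))) (L (E (nat_lit 7) (nat_lit 0x269510a56d2ae0014006001) (nat_lit 0))))) (N (nat_lit 8123)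 (N (nat_lit 8121) (N (nat_lit 8120) (L (E (nat_lit 15) (nat_lit 0x29f93d09bf4d2a5d12ce9564a09614ada55c2a50014006001) (nat_lit 0))) (L (E (nat_lit 16) (nat_lit 0x5512a014fca6652a290947c9e84e92728b0a56d2a30014006001) (nat_lit 0)))) (N (nat_lit 8122) (L (E (nat_lit 17) (nat_lit 0xfa453f27a13989bf4d2a5d12ce94144a2210b0a56d2ae0014006001) (nat_lit 0))) (L (E (nat_lit 13) (nat_lit 0xa7e4d2a5f52ec967463231115c5702b68014006001) (nat_lit 0))))) (N (nat_lit 8125) (N (nat_lit 8124) (L (E (nat_lit 9) (nat_lit 0xd8d4d425f52ec8ae2b68014006001) (nat_lit 0))) (L (E (nat_lit 7) (nat_lit 0x36352d05702b68014006001) (nat_lit 0)))) (L (E (nat_lit 11) (nat_lit 0x26fd34a97d4bba59cae056d2a50014006001) (nat_lit 0)))))) (N (nat_lit 8132) (N (nat_lit 8129) (N (nat_lit 8127) (L (E (nat_lit 10) (nat_lit 0x1f66fa47ce3e51f24f8e7c40014006001) (nat_lit 0))) (N (nat_lit 8128) (L (E (nat_lit 10) (nat_lit 0x1b189a54bea59d1288802b68014006001)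 (nat_lit 0))) (L (E (nat_lit 13) (nat_lit 0xd8c6b0352134a97d4bc22511005702b68014006001) (nat_lit 0))))) (N (nat_lit 8131) (N (nat_lit 8130) (L (E (nat_lit 18) (nat_lit 0x1500a5452128c93d09d24e516a0aec5702b69570a8c54229d0014006001) (nat_lit 0))) (L (E (nat_lit 8) (nat_lit 0x6c6358134a5702b68014006001) (nat_lit 0)))) (L (E (nat_lit 18) (nat_lit 0x13a49a84d2268932897746323111848ae43a1f30f7c7b63d30014006001) (nat_lit 0))))) (N (nat_lit 8133) (L (E (nat_lit 9) (nat_lit 0x8ee475237118c8b244b8014006001) (nat_lit 0))) (N (nat_lit 8134) (L (E (nat_lit 20) (nat_lit 0x4e926a13489a24c025dd2ce95646323111848ae43a1f30f7c7b63d30014006001) (nat_lit 0))) (L (E (nat_lit 13) (nat_lit 0x9b84d226892ce8c646222c915c56d2ae8014006001) (nat_lit 0))))))) (N (nat_lit 8148) (N (nat_lit 8143) (N (nat_lit 8139) (N (nat_lit 8137) (N (nat_lit 8136) (L (E (nat_lit 16) (nat_lit 0x6c627493509a44d125f12ec9674a31660ae456d2ae0014006001)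 (nat_lit 0))) (L (E (nat_lit 15) (nat_lit 0x36313509a44d125f12ec9674a3231916456d2ae0014006001) (nat_lit 0)))) (N (nat_lit 8138) (L (E (nat_lit 13) (nat_lit 0x9d34d125f12ee9674ab23711848b144b8014006001) (nat_lit 0))) (L (E (nat_lit 14) (nat_lit 0x13a49a84d326913449774b3a558ada55c2a50014006001) (nat_lit 0))))) (N (nat_lit 8141) (N (nat_lit 8140) (L (E (nat_lit 10) (nat_lit 0x1b189a44d125f12ce56d2a50014006001) (nat_lit 0))) (L (E (nat_lit 14) (nat_lit 0x1b189a44d125f12f0968459226910456d2a50014006001) (nat_lit 0)))) (N (nat_lit 8142) (L (E (nat_lit 6) (nat_lit 0x12ae8d82b68014006001) (nat_lit 0))) (L (E (nat_lit 14) (nat_lit 0x1ac09a24b423191888b24572268ae056d2a50014006001) (nat_lit 0)))))) (N (nat_lit 8147) (N (nat_lit 8145) (N (nat_lit 8144) (L (E (nat_lit 13) (nat_lit 0xaa851d26913449774b316a0ada55c2a10014006001) (nat_lit 0))) (L (E (nat_lit 10) (nat_lit 0xd0465d32618d0c4c62030b1850c1c604) (nat_lit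 0)))) (N (nat_lit 8146) (L (E (nat_lit 24) (nat_lit 0x6cf3581570aa852128e939c9ba4d39a08ce066e32518d0c4c6243101858c2860e3020014006001) (nat_lit 0))) (L (E (nat_lit 22) (nat_lit 0x1b3cab853b29114749d24d526913449664b123011086823371850c0856d2a10014006001) (nat_lit 0))))) (L (E (nat_lit 5) (nat_lit 0x9a22b68014006001) (nat_lit 0))))) (N (nat_lit 8154) (N (nat_lit 8152) (N (nat_lit 8150) (N (nat_lit 8149) (L (E (nat_lit 8) (nat_lit 0x4be25e12c68822b68014006001) (nat_lit 0))) (L (E (nat_lit 6) (nat_lit 0xd0065b3251910c4861a) (nat_lit 0)))) (N (nat_lit 8151) (L (E (nat_lit 14) (nat_lit 0xb7c5a92c013b89d84e026613289684a42510014006001) (nat_lit 0))) (L (E (nat_lit 20) (nat_lit 0x4e926412f097646a23491288824401a08cd86242d515b49d84e02650014006001) (nat_lit 0))))) (N (nat_lit 8153) (L (E (nat_lit 17) (nat_lit 0x9d24bb23511a48b244d1a08cd86242d515b49d84e02650014006001) (nat_lit 0))) (L (E (nat_lit 12) (nat_lit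 0x4502230c985b92d716a0ada55c2a50014006001) (nat_lit 0))))) (N (nat_lit 8157) (N (nat_lit 8156) (N (nat_lit 8155) (L (E (nat_lit 24) (nat_lit 0x7fc3fd9fd0fc27c93c71860c2c60e2fe97ec9e04d225a109e68030a16a4ae055c2a50014006001) (nat_lit 0))) (L (E (nat_lit 10) (nat_lit 0x12ee96a4b3a28111884f2b68014006001) (nat_lit 0)))) (L (E (nat_lit 11) (nat_lit 0x268d32a9884bc25dd2d29664a70014006001) (nat_lit 0)))) (N (nat_lit 8158) (L (E (nat_lit 14) (nat_lit 0x14a89944be22690bc6482b815b4ab85482a10014006001) (nat_lit 0))) (N (nat_lit 8159) (L (E (nat_lit 8) (nat_lit 0x55c2a012d25972b68014006001) (nat_lit 0))) (L (E (nat_lit 10) (nat_lit 0x1570a8053f29512d25852b68014006001) (nat_lit 0))))))))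
def cl163 : RA := N (nat_lit 8092) (N (nat_lit 8063) (cl161) (N (nat_lit 8085) (N (nat_lit 8076) (N (nat_lit 8070) (N (nat_lit 8067) (N (nat_lit 8065) (N (nat_lit 8064) (L (E (nat_lit 14) (nat_lit 0x1ba8da16ca357dab4d3c69b34c93c49e04ef0014006001) (nat_lit 0))) (L (E (nat_lit 15) (nat_lit 0x3645abed4d4f1277934699c4bea5c918c8c44580014006001) (nat_lit 0)))) (N (nat_lit 8066) (L (E (nat_lit 17) (nat_lit 0xd8e6b035213c49de4d4268d33897d4b9233118c8c34580014006001) (nat_lit 0))) (L (E (nat_lit 18) (nat_lit 0x1b1cd606ac27893bc9a34ce25f52e48cc461a2c0b0a56e2ac0014006001) (nat_lit 0))))) (N (nat_lit 8069) (N (nat_lit 8068) (L (E (nat_lit 12) (nat_lit 0x6c7b5352909464a223191868b044a0014006001) (nat_lit 0))) (L (E (nat_lit 9) (nat_lit 0xd234c425c926487643a0014006001) (nat_lit 0)))) (L (E (nat_lit 27) (nat_lit 0x3f69e50f187733619af0d646ad34d9a64d296912d914d46cc3391980cbc65c32d18e4b0c5722ae0014006001) (nat_lit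 0))))) (N (nat_lit 8073) (N (nat_lit 8072) (N (nat_lit 8071) (L (E (nat_lit 18) (nat_lit 0x1b1ed606af29a93509a34bea5c928c8c6461a2c112864e2c30014006001) (nat_lit 0))) (L (E (nat_lit 17) (nat_lit 0xd606ac277934699c4bea5c928c8cc461a2c0b0a56e2ac0014006001) (nat_lit 0)))) (L (E (nat_lit 22) (nat_lit 0x1b4cd9e6cd363dae8d616ae3521a64d0a4fa278937089a3271600adc4ac1910014006001) (nat_lit 0)))) (N (nat_lit 8075) (N (nat_lit 8074) (L (E (nat_lit 21) (nat_lit 0xda66ceb63dae8d616a434d9a64d0a4fa278937089a3271600adc4ac1910014006001) (nat_lit 0))) (L (E (nat_lit 16) (nat_lit 0x6c7b585a90d364f1268d33897d4b9231918664e2b70014006001) (nat_lit 0)))) (L (E (nat_lit 11) (nat_lit 0x363da6e9a84d1a5f518c8c34580014006001) (nat_lit 0)))))) (N (nat_lit 8082) (N (nat_lit 8079) (N (nat_lit 8078) (N (nat_lit 8077) (L (E (nat_lit 16) (nat_lit 0x6c7b5853c49a84d1a6712fa972463230d16064e2b70014006001) (nat_lit 0))) (L (E (nat_lit 16)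 (nat_lit 0x6c735e1a92d3a693a6a12fa96645822b90bc64e3120014006001) (nat_lit 0)))) (L (E (nat_lit 19) (nat_lit 0x3639b18d6169b27893709a84ce26212fa9724b3230cc9c6242b70014006001) (nat_lit 0)))) (N (nat_lit 8081) (N (nat_lit 8080) (L (E (nat_lit 13) (nat_lit 0xdb06cf35b9ab4d586a4b4c11ba8c34598014006001) (nat_lit 0))) (L (E (nat_lit 16) (nat_lit 0x6ac27cd34697d4a323311868b031a1614adc56a2ac0014006001) (nat_lit 0)))) (L (E (nat_lit 8) (nat_lit 0x6c73631a90d376990014006001) (nat_lit 0))))) (N (nat_lit 8084) (N (nat_lit 8083) (L (E (nat_lit 11) (nat_lit 0x23191888c246022c115c89a44b0014006001) (nat_lit 0))) (L (E (nat_lit 10) (nat_lit 0x11b88c0459a2b912c8844400014006001) (nat_lit 0)))) (L (E (nat_lit 8) (nat_lit 0x6c6357da6cd326980014006001) (nat_lit 0)))))) (N (nat_lit 8090) (N (nat_lit 8086) (L (E (nat_lit 15) (nat_lit 0x3639b18d4869923b918c8c246022c11348844360014006001) (nat_lit 0))) (N (nat_lit 8088) (N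 (nat_lit 8087) (L (E (nat_lit 15) (nat_lit 0x3681b20d8c6bc357d1dc8de46e23191848b04360014006001) (nat_lit 0))) (L (E (nat_lit 20) (nat_lit 0x4bc23b91b88c646123011608ae44d22591088804361a18ce86622b68014006001) (nat_lit 0)))) (N (nat_lit 8089) (L (E (nat_lit 10) (nat_lit 0x1b40d9a6c63621ab8d486980014006001) (nat_lit 0))) (L (E (nat_lit 20) (nat_lit 0x6993449484a3f4bb23b91bc8c2458225d10886c42e21690985b62b68014006001) (nat_lit 0)))))) (N (nat_lit 8091) (L (E (nat_lit 5) (nat_lit 0x8b02b68014006001) (nat_lit 0))) (L (E (nat_lit 9) (nat_lit 0x9ba4dc23751808962b68014006001) (nat_lit 0))))))) (N (nat_lit 8113) (N (nat_lit 8095) (N (nat_lit 8093) (L (E (nat_lit 5) (nat_lit 0x8962b68014006001) (nat_lit 0))) (N (nat_lit 8094) (L (E (nat_lit 6) (nat_lit 0x11b88c32b68014006001) (nat_lit 0))) (L (E (nat_lit 5) (nat_lit 0x8c32b68014006001) (nat_lit 0))))) (N (nat_lit 8106) (N (nat_lit 8099) (N (nat_lit 8096) (L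 (E (nat_lit 9) (nat_lit 0x9a94d125e0ae056d2ae0014006001) (nat_lit 0))) (N (nat_lit 8097) (L (E (nat_lit 15) (nat_lit 0x274937c9a24bc25a12c49564a71610ae056d2ae0014006001) (nat_lit 0))) (N (nat_lit 8098) (L (E (nat_lit 11) (nat_lit 0x25f12f09764b125391345852b68014006001) (nat_lit 0))) (L (E (nat_lit 16) (nat_lit 0x6c73631abcd484df26892f89784b425892ac56d2ae0014006001) (nat_lit 0)))))) (N (nat_lit 8102) (N (nat_lit 8101) (N (nat_lit 8100) (L (E (nat_lit 17) (nat_lit 0xd8e6c63521a609be4d125f12f09684b12558b3056d2ae0014006001) (nat_lit 0))) (L (E (nat_lit 14) (nat_lit 0x1b1cd8c69826f93449684b12558b3056d2ae0014006001) (nat_lit 0)))) (L (E (nat_lit 12) (nat_lit 0x6c6b5c9abe9b64d426912fa9564a78014006001) (nat_lit 0)))) (N (nat_lit 8104) (N (nat_lit 8103) (L (E (nat_lit 15) (nat_lit 0x3639b1a9be4db26892fa86c4061670b3056d2a48014006001) (nat_lit 0))) (L (E (nat_lit 12) (nat_lit 0x4d426913449764b425991628822c00014006001)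 (nat_lit 0)))) (N (nat_lit 8105) (L (E (nat_lit 21) (nat_lit 0xdb26ce3635ae4d646ae26d93509a44be25d92d096246c23091628842c00014006001) (nat_lit 0))) (L (E (nat_lit 16) (nat_lit 0x6d93671b1ad5f4e726f934497c4b121b0b3056d2a48014006001) (nat_lit 0))))))) (N (nat_lit 8107) (L (E (nat_lit 5) (nat_lit 0x8dd2b68014006001) (nat_lit 0))) (N (nat_lit 8109) (N (nat_lit 8108) (L (E (nat_lit 10) (nat_lit 0x134498c4ba259d2ae8ae2b68014006001) (nat_lit 0))) (L (E (nat_lit 12) (nat_lit 0x6c729f93509a44d125f12ee9682b68014006001) (nat_lit 0)))) (N (nat_lit 8111) (N (nat_lit 8110) (L (E (nat_lit 11) (nat_lit 0x36353509a44be25a12c48dc2b68014006001) (nat_lit 0))) (L (E (nat_lit 9) (nat_lit 0x9a94d125e12d05702b68014006001) (nat_lit 0)))) (N (nat_lit 8112) (L (E (nat_lit 16) (nat_lit 0x6e236d5b1ad7c6b928093c09cc458a25d10885e25a0014006001) (nat_lit 0))) (L (E (nat_lit 9) (nat_lit 0xd8d4d425f12ee9682b68014006001) (nat_lit 0)))))))))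 (cl162))
def cl164 : RA := N (nat_lit 8197) (N (nat_lit 8186) (N (nat_lit 8172) (N (nat_lit 8168) (N (nat_lit 8166) (N (nat_lit 8164) (N (nat_lit 8163) (N (nat_lit 8162) (L (E (nat_lit 16) (nat_lit 0x46323091808bc45722a912888443f21d0b0056e2a38014006001) (nat_lit 0))) (L (E (nat_lit 25) (nat_lit 0xdb26c635d11b88c845922b91548a844e22110e88483371968c6c6263101870c2860e3030014006001) (nat_lit 0)))) (L (E (nat_lit 39) (nat_lit 0x36c9b1899e47623791b88cc46423191808bc45b22b915489c44a22110fc87643a19b8c886363131880c386143071818b0056e2a38e385c82a40a50014006001) (nat_lit 0)))) (N (nat_lit 8165) (L (E (nat_lit 8) (nat_lit 0x3461a00cfc66c32e9908c6261a) (nat_lit 0))) (L (E (nat_lit 14) (nat_lit 0xd1868033f19b0cba6443211868c286123071828c005f4) (nat_lit 0))))) (N (nat_lit 8167) (L (E (nat_lit 13) (nat_lit 0x9d24dc26a13289774b49610b0056e2ae8014006001) (nat_lit 0))) (L (E (nat_lit 9) (nat_lit 0x8c745722a11348842cb0014006001)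 (nat_lit 0))))) (N (nat_lit 8169) (L (E (nat_lit 11) (nat_lit 0x23191808b244ea26912e8844360014006001) (nat_lit 0))) (N (nat_lit 8171) (N (nat_lit 8170) (L (E (nat_lit 8) (nat_lit 0x2c215f8ade54629a0014006001) (nat_lit 0))) (L (E (nat_lit 12) (nat_lit 0x477237118c8c045922b91088824360014006001) (nat_lit 0)))) (L (E (nat_lit 12) (nat_lit 0x46e23011668ae44b2210b385982cb0014006001) (nat_lit 0)))))) (N (nat_lit 8178) (N (nat_lit 8175) (N (nat_lit 8174) (N (nat_lit 8173) (L (E (nat_lit 14) (nat_lit 0x11b88c446022cd12e86c2d41660b2c57e2b78014006001) (nat_lit 0))) (L (E (nat_lit 13) (nat_lit 0xc0a5fb2f813509694a725090e27be3da0014006001) (nat_lit 0)))) (L (E (nat_lit 15) (nat_lit 0x2fd93a49b84d426512ee9694601610b0057e2ae8014006001) (nat_lit 0)))) (N (nat_lit 8177) (N (nat_lit 8176) (L (E (nat_lit 13) (nat_lit 0xc5f55429f9488a422d59610b0257029a0014006001) (nat_lit 0))) (L (E (nat_lit 17) (nat_lit 0xa7e52227492ee96646022cd1086142c21604aee56b2ae8014006001)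 (nat_lit 0)))) (L (E (nat_lit 15) (nat_lit 0x2f317789a84d1a6512cc8c646122c91548974420014006001) (nat_lit 0))))) (N (nat_lit 8182) (N (nat_lit 8180) (N (nat_lit 8179) (L (E (nat_lit 12) (nat_lit 0x4d325e12c88c044b22111045812ae8014006001) (nat_lit 0))) (L (E (nat_lit 19) (nat_lit 0x2f317789a84d3268d3289784b3259118c8b245522511085812ae8014006001) (nat_lit 0)))) (N (nat_lit 8181) (L (E (nat_lit 11) (nat_lit 0x27493469944bba5a4b505842ae8014006001) (nat_lit 0))) (L (E (nat_lit 26) (nat_lit 0x1bf4da66bf3579a9cd3247723791a48c446022a113489744221b0b345962c215c09b44b424c0014006001) (nat_lit 0))))) (N (nat_lit 8184) (N (nat_lit 8183) (L (E (nat_lit 9) (nat_lit 0x8de46e23111808b344b0014006001) (nat_lit 0))) (L (E (nat_lit 8) (nat_lit 0x460227512c8844410014006001) (nat_lit 0)))) (N (nat_lit 8185) (L (E (nat_lit 14) (nat_lit 0x11dc8dc463230116489644a2210b545842ae8014006001) (nat_lit 0))) (L (E (nat_lit 10) (nat_lit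 0x13a69a34ca25dd2d25842ae8014006001) (nat_lit 0)))))))) (N (nat_lit 8195) (N (nat_lit 8190) (N (nat_lit 8189) (N (nat_lit 8188) (N (nat_lit 8187) (L (E (nat_lit 9) (nat_lit 0x9a34ca25dd2d25842ae8014006001) (nat_lit 0))) (L (E (nat_lit 11) (nat_lit 0x220d0ec86c2bf15c8a945482950014006001) (nat_lit 0)))) (L (E (nat_lit 15) (nat_lit 0x31117bc91246e23191808b244d225d1288844360014006001) (nat_lit 0)))) (L (E (nat_lit 8) (nat_lit 0x4d1a5dd2d25842ae8014006001) (nat_lit 0)))) (N (nat_lit 8193) (N (nat_lit 8192) (N (nat_lit 8191) (L (E (nat_lit 11) (nat_lit 0x23711888b2458225d1085852ae8014006001) (nat_lit 0))) (L (E (nat_lit 12) (nat_lit 0x4d1a5dd2d28dc46122c512e5852ae8014006001) (nat_lit 0)))) (L (E (nat_lit 14) (nat_lit 0x13a29a84cc26513249662c295bcaba53c29d0014006001) (nat_lit 0)))) (N (nat_lit 8194) (L (E (nat_lit 14) (nat_lit 0x134c9a44d1a6492ee9692c29600aba55829e0014006001) (nat_lit 0))) (L (E (nat_lit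 12) (nat_lit 0x4d1a5dd2d28dc46222c912e5852ae8014006001) (nat_lit 0)))))) (N (nat_lit 8196) (L (E (nat_lit 6) (nat_lit 0x118a8b244d225d108005) (nat_lit 0))) (L (E (nat_lit 10) (nat_lit 0x13469774b4a2c912e5852ae8014006001) (nat_lit 0)))))) (N (nat_lit 8208) (N (nat_lit 8202) (N (nat_lit 8198) (L (E (nat_lit 6) (nat_lit 0xb0a55829c8014006001) (nat_lit 0))) (N (nat_lit 8200) (N (nat_lit 8199) (L (E (nat_lit 9) (nat_lit 0xd8e6a425dd2cc9584a90014006001) (nat_lit 0))) (L (E (nat_lit 23) (nat_lit 0x36b9b1cd506a42a493709944be25e12e89664b125612a48ec32d137865425e0a50014006001) (nat_lit 0)))) (N (nat_lit 8201) (L (E (nat_lit 14) (nat_lit 0x11d48dd46c23011668974291614ade55d29c0014006001) (nat_lit 0))) (L (E (nat_lit 24) (nat_lit 0x4f927493509a44cc26513209774b39a68d186823261908c4c5ba2dc16a8b265802b50014006001) (nat_lit 0)))))) (N (nat_lit 8205) (N (nat_lit 8204) (N (nat_lit 8203) (L (E (nat_lit 11) (nat_lit 0x26412ce8dc461a2cd12e5852ae8014006001)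 (nat_lit 0))) (L (E (nat_lit 14) (nat_lit 0x13a4976461a25d10859a2c315f8ade55d29c0014006001) (nat_lit 0)))) (L (E (nat_lit 10) (nat_lit 0x11dc8ea463230d1608ab44b8014006001) (nat_lit 0)))) (N (nat_lit 8207) (N (nat_lit 8206) (L (E (nat_lit 16) (nat_lit 0x4e9a3a91b88c6461a2c112e85e2d61698b3859a2cc0014006001) (nat_lit 0))) (L (E (nat_lit 15) (nat_lit 0x255929c8d846022a912e85e42d15f8abc54a29c0014006001) (nat_lit 0)))) (L (E (nat_lit 10) (nat_lit 0x13a49ce2d49670b0a5762b78014006001) (nat_lit 0)))))) (N (nat_lit 8214) (N (nat_lit 8210) (N (nat_lit 8209) (L (E (nat_lit 11) (nat_lit 0x23111808b344ba210b0a55d29c0014006001) (nat_lit 0))) (L (E (nat_lit 10) (nat_lit 0x1570a905462a054a8a5251d0014006001) (nat_lit 0)))) (N (nat_lit 8212) (N (nat_lit 8211) (L (E (nat_lit 13) (nat_lit 0x9a64b323091668ab44ba210b0a55d2960014006001) (nat_lit 0))) (L (E (nat_lit 11) (nat_lit 0x30297ecbe04dfa5a50e27be3da0014006001) (nat_lit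 0)))) (N (nat_lit 8213) (L (E (nat_lit 18) (nat_lit 0x1814be05e82d293ac9d24d426993289774b325790e27be3da0014006001) (nat_lit 0))) (L (E (nat_lit 17) (nat_lit 0xc0a4e926992cc8c246022cd1508974492210b0a55d2960014006001) (nat_lit 0)))))) (N (nat_lit 8215) (L (E (nat_lit 11) (nat_lit 0x23091668ae44a221110488043f0014006001) (nat_lit 0))) (N (nat_lit 8216) (L (E (nat_lit 17) (nat_lit 0x9d24dc25e12ec9644b122cd15c89e4421668b0c55d29c0014006001) (nat_lit 0))) (L (E (nat_lit 16) (nat_lit 0x4f326993489774b3a3651668a844816f8b0a55d2a10014006001) (nat_lit 0)))))))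
def cl165 : RA := N (nat_lit 8243) (N (nat_lit 8232) (N (nat_lit 8223) (N (nat_lit 8222) (N (nat_lit 8220) (N (nat_lit 8219) (N (nat_lit 8218) (L (E (nat_lit 20) (nat_lit 0x4f326993489774b3a3091808b345722a112489044216f8b0a55d2a10014006001) (nat_lit 0))) (L (E (nat_lit 19) (nat_lit 0x279934c9774b3a3591848c0459a2411087c02df1614aba52225c0014006001) (nat_lit 0)))) (L (E (nat_lit 21) (nat_lit 0x9e64d3259d2c48c246022cd15c89e4482210f805be2c29574ab054225c0014006001) (nat_lit 0)))) (N (nat_lit 8221) (L (E (nat_lit 18) (nat_lit 0x16cc9be4d326412f88c0459a25d1245be2d51614a945482a10014006001) (nat_lit 0))) (L (E (nat_lit 18) (nat_lit 0x16cc9be4d325d92cc8c0459a25d1245be2d51614aba54229c0014006001) (nat_lit 0))))) (L (E (nat_lit 9) (nat_lit 0x8c0459a25d1085852ae8014006001) (nat_lit 0)))) (N (nat_lit 8227) (N (nat_lit 8225) (N (nat_lit 8224) (L (E (nat_lit 12) (nat_lit 0x4b325912c48b444e225cb0a56e2ae0014006001)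 (nat_lit 0))) (L (E (nat_lit 12) (nat_lit 0x4d325dd2cc8c246022cd12e8842c28014006001) (nat_lit 0)))) (N (nat_lit 8226) (L (E (nat_lit 19) (nat_lit 0x2f793e49ce4e626992f88c3459a2ad12e67e32118d8b585a62d10014006001) (nat_lit 0))) (L (E (nat_lit 12) (nat_lit 0x4d326412ee966461a2cd12e5852ae0014006001) (nat_lit 0))))) (N (nat_lit 8230) (N (nat_lit 8229) (N (nat_lit 8228) (L (E (nat_lit 12) (nat_lit 0x4d325dd2cc8c0459a25d10858529c0014006001) (nat_lit 0))) (L (E (nat_lit 11) (nat_lit 0x25dd2cc8c0459a25d10858529c0014006001) (nat_lit 0)))) (L (E (nat_lit 11) (nat_lit 0x269d2ee96746022cd12e5852ae0014006001) (nat_lit 0)))) (N (nat_lit 8231) (L (E (nat_lit 18) (nat_lit 0x134c9904bba59d1c08d844d225d12088443a21790905852ae0014006001) (nat_lit 0))) (L (E (nat_lit 12) (nat_lit 0x4d325dd2ce8c3459a25d1085852ae0014006001) (nat_lit 0))))))) (N (nat_lit 8238) (N (nat_lit 8237) (N (nat_lit 8235) (N (nat_lit 8234) (N (nat_lit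 8233) (L (E (nat_lit 14) (nat_lit 0x13229774b3a3011688974492178ae45702ae0014006001) (nat_lit 0))) (L (E (nat_lit 22) (nat_lit 0x13cc9d24d326913209774b3a3b91d08c2459a2a112088432e1614ab85582a10014006001) (nat_lit 0)))) (L (E (nat_lit 17) (nat_lit 0xaaa54029513d68e02d693389804ba25c129892825a0ab0014006001) (nat_lit 0)))) (N (nat_lit 8236) (L (E (nat_lit 16) (nat_lit 0x46a23011548a844ba24912085e2d616a0b4c5702ae0014006001) (nat_lit 0))) (L (E (nat_lit 19) (nat_lit 0x3579ab4d334f0273133c9884b21930c946442d59614ade55c2a30014006001) (nat_lit 0))))) (L (E (nat_lit 9) (nat_lit 0x97746022cd12e8842c28014006001) (nat_lit 0)))) (N (nat_lit 8241) (N (nat_lit 8240) (N (nat_lit 8239) (L (E (nat_lit 15) (nat_lit 0x26952ec967459a2ad13c8974421970b0a56f2ae0014006001) (nat_lit 0))) (L (E (nat_lit 12) (nat_lit 0x4d2a59d2828c0459a25d1085852b78014006001) (nat_lit 0)))) (L (E (nat_lit 11) (nat_lit 0x26992ce8c0459a25d1085852b78014006001)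 (nat_lit 0)))) (N (nat_lit 8242) (L (E (nat_lit 11) (nat_lit 0x26a134c9a44cf25f92ec96a4b38014006001) (nat_lit 0))) (L (E (nat_lit 10) (nat_lit 0x134c96746022cd12e8842c28014006001) (nat_lit 0))))))) (N (nat_lit 8253) (N (nat_lit 8250) (N (nat_lit 8247) (N (nat_lit 8245) (N (nat_lit 8244) (L (E (nat_lit 13) (nat_lit 0x9924c825d92ce8d846022cd12e5852b70014006001) (nat_lit 0))) (L (E (nat_lit 7) (nat_lit 0x1614ade55f2958014006001) (nat_lit 0)))) (N (nat_lit 8246) (L (E (nat_lit 11) (nat_lit 0x259d1868b3455225d1085852b78014006001) (nat_lit 0))) (L (E (nat_lit 9) (nat_lit 0x96746022cd12e8842c28014006001) (nat_lit 0))))) (N (nat_lit 8248) (L (E (nat_lit 7) (nat_lit 0x269d1668ab44b8014006001) (nat_lit 0))) (N (nat_lit 8249) (L (E (nat_lit 12) (nat_lit 0x4bb230d1668ab44ba210b0a56f2ae0014006001) (nat_lit 0))) (L (E (nat_lit 15) (nat_lit 0x26912f09764b325892ac8c244a1618ae456f2ae0014006001) (nat_lit 0))))))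 (N (nat_lit 8252) (N (nat_lit 8251) (L (E (nat_lit 9) (nat_lit 0x8b3455a25d1085852b78014006001) (nat_lit 0))) (L (E (nat_lit 12) (nat_lit 0x47423091808b344ba2110b85852b78014006001) (nat_lit 0)))) (L (E (nat_lit 9) (nat_lit 0x8c0459a25d1085852b78014006001) (nat_lit 0))))) (N (nat_lit 8256) (N (nat_lit 8255) (N (nat_lit 8254) (L (E (nat_lit 19) (nat_lit 0x26e13389764b9259928c8d6461a2cd154897443a1c50c05852b70014006001) (nat_lit 0))) (L (E (nat_lit 11) (nat_lit 0x273cd1868033a19c8ce066c32e1968c94648) (nat_lit 0)))) (L (E (nat_lit 8) (nat_lit 0x46022cd12e8842c28014006001) (nat_lit 0)))) (L (E (nat_lit 7) (nat_lit 0x23051668974420014006001) (nat_lit 0)))))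
def cl166 : RA := N (nat_lit 8275) (N (nat_lit 8268) (N (nat_lit 8263) (N (nat_lit 8260) (N (nat_lit 8259) (N (nat_lit 8258) (L (E (nat_lit 17) (nat_lit 0x120a4d226892f09764b325891d08d935e1738b505802bf0014006001) (nat_lit 0))) (L (E (nat_lit 16) (nat_lit 0x90527993949a24c8a5f52e296547423651665ce2c00014006001) (nat_lit 0)))) (L (E (nat_lit 20) (nat_lit 0x9053691a649e64e526452fa9714b2a3b91d08d9459a2110d85842c00014006001) (nat_lit 0)))) (N (nat_lit 8262) (N (nat_lit 8261) (L (E (nat_lit 21) (nat_lit 0xd4869929b94d4a664e126f93469824b2a3b918a89a44221b0b7c5ba2dc0014006001) (nat_lit 0))) (L (E (nat_lit 30) (nat_lit 0x1b48d4869934c14dc9e64f127293229764b525992c495e4a623a11b28c5459a2110d85be2dd1610ab85582a10014006001) (nat_lit 0)))) (L (E (nat_lit 17) (nat_lit 0xa6e53329914549d34d426993489a24bc25a92cc5722b70014006001) (nat_lit 0))))) (N (nat_lit 8264) (L (E (nat_lit 7) (nat_lit 0x363da9ed326980014006001)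 (nat_lit 0))) (N (nat_lit 8266) (N (nat_lit 8265) (L (E (nat_lit 32) (nat_lit 0x6d936b9b48d546a53521a64d3069129b93a69a84d326412f09764b5231916089a44221b0b805be2dd1604ae45662ac0014006001) (nat_lit 0))) (L (E (nat_lit 13) (nat_lit 0x9a34c82594b545982c21600af856e2ac0014006001) (nat_lit 0)))) (N (nat_lit 8267) (L (E (nat_lit 32) (nat_lit 0x6d936b9b48d5469834894dc9e64f127293489764b525992c495e474236518a8b344216f8b745842b71598ab854a2a10014006001) (nat_lit 0))) (L (E (nat_lit 14) (nat_lit 0x1a909d34d2a6492f096a463225110886c2bf8014006001) (nat_lit 0))))))) (N (nat_lit 8272) (N (nat_lit 8269) (L (E (nat_lit 9) (nat_lit 0x9a54bc25a92cc9644b10014006001) (nat_lit 0))) (N (nat_lit 8271) (N (nat_lit 8270) (L (E (nat_lit 24) (nat_lit 0x6a426e534a9884b5259528e8c644d225110886c3461970c645be2bf95b8acc55829a0014006001) (nat_lit 0))) (L (E (nat_lit 21) (nat_lit 0x120a8b13021790a964d1262d2f09764b32588cdc65a30e18289bc4ca2510014006001)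 (nat_lit 0)))) (L (E (nat_lit 22) (nat_lit 0x1aa8d305e425d92cc96247723151668aa454225d1248844361870adc55c2a10014006001) (nat_lit 0))))) (N (nat_lit 8274) (N (nat_lit 8273) (L (E (nat_lit 15) (nat_lit 0x269532898c4bc25d92cc9624772370b4c5712ac0014006001) (nat_lit 0))) (L (E (nat_lit 12) (nat_lit 0x7f5bd41b20d786a434c93246381c40014006001) (nat_lit 0)))) (L (E (nat_lit 6) (nat_lit 0x1fd4fc17ce0014006001) (nat_lit 0)))))) (N (nat_lit 8287) (N (nat_lit 8280) (N (nat_lit 8276) (L (E (nat_lit 7) (nat_lit 0x3f01ab8a524b28014006001) (nat_lit 0))) (N (nat_lit 8278) (N (nat_lit 8277) (L (E (nat_lit 26) (nat_lit 0x1ea0d906a426913189884bc25d92cc8ee461230116089444221b0b4c5802b715a8acc55829c0014006001) (nat_lit 0))) (L (E (nat_lit 18) (nat_lit 0x1a789d34db26993189784bb259129e5be2dc151ca7052a2900014006001) (nat_lit 0)))) (N (nat_lit 8279) (L (E (nat_lit 27) (nat_lit 0x4589aa8d3c6982f213109764b325891dc8c5459a2a113c89744922110d861c2df15b8acc55c2a10014006001)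 (nat_lit 0))) (L (E (nat_lit 15) (nat_lit 0x26e52ec96746022a112e89244821789984b82540014006001) (nat_lit 0)))))) (N (nat_lit 8285) (N (nat_lit 8283) (N (nat_lit 8282) (N (nat_lit 8281) (L (E (nat_lit 10) (nat_lit 0x13709914c6a30112e89242f0014006001) (nat_lit 0))) (L (E (nat_lit 17) (nat_lit 0x9a64d225d92ce96246122a112e8924482178b085722b70014006001) (nat_lit 0)))) (L (E (nat_lit 21) (nat_lit 0x6703301970cb064c3251920c646262d51660b205802be15c4ad45662a10014006001) (nat_lit 0)))) (N (nat_lit 8284) (L (E (nat_lit 20) (nat_lit 0x62fa69531897d4bb259d1c48c545a2270c9861a2bf95c4acc5422950014006001) (nat_lit 0))) (L (E (nat_lit 23) (nat_lit 0x317d3709b44d2a5d92e496a4b3a38918a8b444e225d0c085e32615fcae25662950014006001) (nat_lit 0))))) (N (nat_lit 8286) (L (E (nat_lit 8) (nat_lit 0x4e926fd3729904b38014006001) (nat_lit 0))) (L (E (nat_lit 25) (nat_lit 0xc5f4eb26e13689a84d2a5d92e496a4b3a38918a8b444e225d0c085e3261748afe56e2b30014006001)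 (nat_lit 0)))))) (N (nat_lit 8293) (N (nat_lit 8290) (N (nat_lit 8288) (L (E (nat_lit 27) (nat_lit 0x3551a78d3062faf212ec96247723891ac8c5459a29d13c89744922110d886030e16f8adc55c2a10014006001) (nat_lit 0))) (N (nat_lit 8289) (L (E (nat_lit 12) (nat_lit 0x4db99c8ce066032f1970cb464c31c18c8c40610) (nat_lit 0))) (L (E (nat_lit 24) (nat_lit 0x55a2aa144c9cc4c419c0cc065c3261900c646202fe1660b085802bf15b8acc5582a30014006001) (nat_lit 0))))) (N (nat_lit 8292) (N (nat_lit 8291) (L (E (nat_lit 23) (nat_lit 0x2aa9550a8052b29513c09cc4db26793106823381930c806383161828bf85802a10014006001) (nat_lit 0))) (L (E (nat_lit 20) (nat_lit 0x8b13dd1e3c9e24b51a14cb063231016acb245902b895b8ab053a2240014006001) (nat_lit 0)))) (L (E (nat_lit 24) (nat_lit 0x8b13c79a909cc4d2a5dd2ce8ee474235918c8c04539970c986322c215c8adc5582a10014006001) (nat_lit 0))))) (N (nat_lit 8298) (N (nat_lit 8295) (N (nat_lit 8294) (L (E (nat_lit 13) (nat_lit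 0xdb46af301979897846a230d0e886c2bf8014006001) (nat_lit 0))) (L (E (nat_lit 11) (nat_lit 0x19c0cc065e32e1930c8e63831b0014006001) (nat_lit 0)))) (N (nat_lit 8297) (N (nat_lit 8296) (L (E (nat_lit 15) (nat_lit 0x19d8ce46703371978cb864c32398e0c6c6123010014006001) (nat_lit 0))) (L (E (nat_lit 27) (nat_lit 0x37c9b40d9c6c83621afcd785f22d60db467633919b8cbc65c326191cc706363091808b084ba2280014006001) (nat_lit 0)))) (L (E (nat_lit 34) (nat_lit 0x1be4db46d03671b20d7e6af34c980cbcc52a25e11b08d446222d112886c36d19c8cb86583261880c245aa2cc1640afe5712980014006001) (nat_lit 0))))) (N (nat_lit 8300) (N (nat_lit 8299) (L (E (nat_lit 7) (nat_lit 0x1664b2057f2b88014006001) (nat_lit 0))) (L (E (nat_lit 24) (nat_lit 0x6f93671afcc064e726a134899c4ca26413109774b925a11a88b436d1960b2057f2b88014006001) (nat_lit 0)))) (N (nat_lit 8301) (L (E (nat_lit 15) (nat_lit 0x19c0cdc66032f1970cb064c3251920c8863831b0014006001) (nat_lit 0)))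 (L (E (nat_lit 14) (nat_lit 0x11a889c44d225110069b3411a00cfc67c3198014006001) (nat_lit 0))))))))
def cl167 : RA := N (nat_lit 8332) (N (nat_lit 8316) (N (nat_lit 8311) (N (nat_lit 8307) (N (nat_lit 8305) (N (nat_lit 8304) (N (nat_lit 8303) (L (E (nat_lit 4) (nat_lit 0x3429978c6e620) (nat_lit 0))) (L (E (nat_lit 18) (nat_lit 0x11a889c44a2200d1068434119f8cf86703371978cb864831b8014006001) (nat_lit 0)))) (L (E (nat_lit 36) (nat_lit 0x6f93671afcc064eb27393689a84cf26713289904c425dd2e496846a22d113888036d1a20cfc67c3371978cb86583261910b2057f2b88014006001) (nat_lit 0)))) (N (nat_lit 8306) (L (E (nat_lit 10) (nat_lit 0x11d88d446222ed16065a32418dcc24003) (nat_lit 0))) (L (E (nat_lit 20) (nat_lit 0x55b2ad1550a7e463a30916889c44a21d10d468332e9960c406123080014006001) (nat_lit 0))))) (N (nat_lit 8309) (N (nat_lit 8308) (L (E (nat_lit 41) (nat_lit 0xdf26ce35f980cab655a29f940a9f64eb27393689a84ce26513209774b423511788b444e22010e86da3481a20cfc67c3371978cb064c3221840b2057f2b88014006001)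 (nat_lit 0))) (L (E (nat_lit 9) (nat_lit 0x64e31c1890c246063021808bfc5fc) (nat_lit 0)))) (N (nat_lit 8310) (L (E (nat_lit 28) (nat_lit 0x55b2ad1550a7e46423091808bc45a227112888243a21a90906a03481974cb064d3101848c206062fe0014006001) (nat_lit 0))) (L (E (nat_lit 9) (nat_lit 0x67032e1934c906473191848c0c5fc) (nat_lit 0)))))) (N (nat_lit 8314) (N (nat_lit 8313) (N (nat_lit 8312) (L (E (nat_lit 22) (nat_lit 0x118e8c246022f113888243a2120ce065c32c1934c906323101848c206062fe0014006001) (nat_lit 0))) (L (E (nat_lit 13) (nat_lit 0xc065e625e11908c646122d116489c2bf8014006001) (nat_lit 0)))) (L (E (nat_lit 28) (nat_lit 0x6f93671afcc0655a28153ec9d64da26713289904bba59d1a88b44241b68cfc6582d51640afe5712ac0014006001) (nat_lit 0)))) (N (nat_lit 8315) (L (E (nat_lit 9) (nat_lit 0x9b74bba59cafe5712ac0014006001) (nat_lit 0))) (L (E (nat_lit 19) (nat_lit 0x23b918e8c045a227110467232e1960c9a6463191880b2c5802b70014006001) (nat_lit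 0)))))) (N (nat_lit 8325) (N (nat_lit 8320) (N (nat_lit 8319) (N (nat_lit 8318) (N (nat_lit 8317) (L (E (nat_lit 18) (nat_lit 0x118e8b444e2208ce065c32c1934c646202d59648b0056e2ac0014006001) (nat_lit 0))) (L (E (nat_lit 10) (nat_lit 0x11688a644da25d12085e42d0014006001) (nat_lit 0)))) (L (E (nat_lit 14) (nat_lit 0x12ce8c745a19c0cb864d3239880b5457f2b88014006001) (nat_lit 0)))) (L (E (nat_lit 9) (nat_lit 0x67032e1934c906323088014006001) (nat_lit 0)))) (N (nat_lit 8323) (N (nat_lit 8322) (N (nat_lit 8321) (L (E (nat_lit 12) (nat_lit 0x47123791b88b744d96b8b545a82c40014006001) (nat_lit 0))) (L (E (nat_lit 17) (nat_lit 0x967463a30916889c3381970cb064d3191880afe5712ac0014006001) (nat_lit 0)))) (L (E (nat_lit 18) (nat_lit 0x13509a24bba3191848c045a22c113888232c1934c8c6323080014006001) (nat_lit 0)))) (N (nat_lit 8324) (L (E (nat_lit 18) (nat_lit 0x13c09ca4db26d13109864bba5c118c8c246022c91608974420014006001) (nat_lit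 0))) (L (E (nat_lit 16) (nat_lit 0x4bba59d1848b444e19c0cb865832698c8afe5712ac0014006001) (nat_lit 0)))))) (N (nat_lit 8329) (N (nat_lit 8327) (N (nat_lit 8326) (L (E (nat_lit 12) (nat_lit 0x4d425dd18c8c245aa208afe5712ac0014006001) (nat_lit 0))) (L (E (nat_lit 11) (nat_lit 0x232113467032e1934c8e57f2b88014006001) (nat_lit 0)))) (N (nat_lit 8328) (L (E (nat_lit 16) (nat_lit 0x4dc25dd18e8c2457226912488443a2138afe57229a0014006001) (nat_lit 0))) (L (E (nat_lit 18) (nat_lit 0x12ee8c7457226912487442719c0cb865832698c8c2057f2b88014006001) (nat_lit 0))))) (N (nat_lit 8330) (L (E (nat_lit 10) (nat_lit 0x14c89ce4c52578cb655c2ac0014006001) (nat_lit 0))) (N (nat_lit 8331) (L (E (nat_lit 15) (nat_lit 0x25dd2ce8c746122d512e67032e1960c9a57f2b88014006001) (nat_lit 0))) (L (E (nat_lit 15) (nat_lit 0x25dd2ce8c244e19c0cb865832698c8afe5712ac0014006001) (nat_lit 0)))))))) (N (nat_lit 8343) (N (nat_lit 8338) (N (nat_lit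 8334) (N (nat_lit 8333) (L (E (nat_lit 8) (nat_lit 0x4d325dd2ce6712bf8014006001) (nat_lit 0))) (L (E (nat_lit 14) (nat_lit 0x12ee967463a26d12e67032e1960c9a57f2b88014006001) (nat_lit 0)))) (N (nat_lit 8336) (N (nat_lit 8335) (L (E (nat_lit 11) (nat_lit 0x26d934c9a24bba59d18089b44b0014006001) (nat_lit 0))) (L (E (nat_lit 18) (nat_lit 0x15209774b3a4511d88e2463a2d115c89b3269910b2057f2b88014006001) (nat_lit 0)))) (N (nat_lit 8337) (L (E (nat_lit 15) (nat_lit 0x25dd2ce8d6463a26d12e88b4301970c9a57f2b88014006001) (nat_lit 0))) (L (E (nat_lit 16) (nat_lit 0x53d29d94a8a2c5131618b0057f2b89560a905462a10014006001) (nat_lit 0)))))) (N (nat_lit 8341) (N (nat_lit 8339) (L (E (nat_lit 18) (nat_lit 0x1f94dfe54129a94aca424e926a13286382bf9560a9252a18a0014006001) (nat_lit 0))) (N (nat_lit 8340) (L (E (nat_lit 19) (nat_lit 0x28993ac9d24bba59d18e8b544ba1e10ec65d3269748afe5712a10014006001) (nat_lit 0))) (L (E (nat_lit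 11) (nat_lit 0x25dd2ce8c744d9934afe5712ac0014006001) (nat_lit 0))))) (N (nat_lit 8342) (L (E (nat_lit 10) (nat_lit 0x12ee96744d9934afe5712ac0014006001) (nat_lit 0))) (L (E (nat_lit 13) (nat_lit 0x9a24bba59d18c8c0457a268c9a55c2ac0014006001) (nat_lit 0)))))) (N (nat_lit 8348) (N (nat_lit 8347) (N (nat_lit 8345) (N (nat_lit 8344) (L (E (nat_lit 17) (nat_lit 0x9a24bba59d18c8c0458226912e65d3269610af05722b70014006001) (nat_lit 0))) (L (E (nat_lit 15) (nat_lit 0x352134a9774b3a31913867032e1934afe5712ac0014006001) (nat_lit 0)))) (N (nat_lit 8346) (L (E (nat_lit 14) (nat_lit 0x12ee967464231918489c44b9970c9a57f2b88014006001) (nat_lit 0))) (L (E (nat_lit 8) (nat_lit 0x463230d1648b044d225d108005) (nat_lit 0))))) (L (E (nat_lit 9) (nat_lit 0x8c6461a2c916089a44b8014006001) (nat_lit 0)))) (N (nat_lit 8351) (N (nat_lit 8350) (N (nat_lit 8349) (L (E (nat_lit 15) (nat_lit 0x25dd2ce8c6461225d10a65c3269600afe5712ac0014006001)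 (nat_lit 0))) (L (E (nat_lit 10) (nat_lit 0x12ee9674631934afe5712ac0014006001) (nat_lit 0)))) (L (E (nat_lit 11) (nat_lit 0x26952ee96746222c113489242f8014006001) (nat_lit 0)))) (L (E (nat_lit 6) (nat_lit 0x11888b044ea25c006001) (nat_lit 0))))))
def cl168 : RA := N (nat_lit 8401) (N (nat_lit 8392) (N (nat_lit 8384) (N (nat_lit 8380) (N (nat_lit 8379) (N (nat_lit 8378) (L (E (nat_lit 19) (nat_lit 0x27893ac9d24e726e934c9774b3a5791d88c644d225d10857f2b88014006001) (nat_lit 0))) (L (E (nat_lit 19) (nat_lit 0x26a134c9a44bba5592a48c64612279138897442a1d8afe5712ac0014006001) (nat_lit 0)))) (L (E (nat_lit 11) (nat_lit 0x231916089d44b9610afe5722ae0014006001) (nat_lit 0)))) (N (nat_lit 8382) (N (nat_lit 8381) (L (E (nat_lit 12) (nat_lit 0x4bba59d18c8c244e225d10a57f2b88014006001) (nat_lit 0))) (L (E (nat_lit 13) (nat_lit 0x9ba4d325dd2ce8c644d225d10857f2b88014006001) (nat_lit 0)))) (N (nat_lit 8383) (L (E (nat_lit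 9) (nat_lit 0x9774b3a31512e57f2b88014006001) (nat_lit 0))) (L (E (nat_lit 12) (nat_lit 0x4d325dd2ce8c6461225cc9857f2b88014006001) (nat_lit 0)))))) (N (nat_lit 8389) (N (nat_lit 8387) (N (nat_lit 8386) (N (nat_lit 8385) (L (E (nat_lit 11) (nat_lit 0x25dd2ce8c6461227112e57f2b88014006001) (nat_lit 0))) (L (E (nat_lit 10) (nat_lit 0x134e977463230d12e57f2b88014006001) (nat_lit 0)))) (L (E (nat_lit 10) (nat_lit 0x134e977463230d12e57f2b70014006001) (nat_lit 0)))) (N (nat_lit 8388) (L (E (nat_lit 12) (nat_lit 0x463230d17889c3e515fcae056e2ac0014006001) (nat_lit 0))) (L (E (nat_lit 20) (nat_lit 0x53529093d09e64f0273935099447523811b88d6461a2a112e57f2b88014006001) (nat_lit 0))))) (N (nat_lit 8391) (N (nat_lit 8390) (L (E (nat_lit 10) (nat_lit 0x139c98a46ba2a112e8842ae0014006001) (nat_lit 0))) (L (E (nat_lit 24) (nat_lit 0x53529093d09e64f027393509944c523a91c08dc461a26912e88442f2138afe5712ae0014006001) (nat_lit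 0)))) (L (E (nat_lit 9) (nat_lit 0x8c445a22c11388974428014006001) (nat_lit 0)))))) (N (nat_lit 8397) (N (nat_lit 8396) (N (nat_lit 8394) (N (nat_lit 8393) (L (E (nat_lit 24) (nat_lit 0x53527a13cc9ce4d426513149774b3a3a91c08dc461a26912e88442f2138afe5712ae0014006001) (nat_lit 0))) (L (E (nat_lit 17) (nat_lit 0x9a84d326892ee8ea470237118689a44ba2110bc57f2b88014006001) (nat_lit 0)))) (N (nat_lit 8395) (L (E (nat_lit 15) (nat_lit 0x269934497746e230d16689a44ba210b0057f2b88014006001) (nat_lit 0))) (L (E (nat_lit 10) (nat_lit 0x1344977463230d12e57f2b70014006001) (nat_lit 0))))) (L (E (nat_lit 7) (nat_lit 0x23751848c044b8014006001) (nat_lit 0)))) (N (nat_lit 8399) (N (nat_lit 8398) (L (E (nat_lit 9) (nat_lit 0xa564d4a6792ee9402d60014006001) (nat_lit 0))) (L (E (nat_lit 8) (nat_lit 0x4bba31912e57f2b88014006001) (nat_lit 0)))) (N (nat_lit 8400) (L (E (nat_lit 23) (nat_lit 0x2ae13d09a84d126512ee94248223191848b244ba2110e883040698e8b363960a80014006001)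 (nat_lit 0))) (L (E (nat_lit 17) (nat_lit 0x97748a23191848b244ba24910a8302cd95fcab83960a80014006001) (nat_lit 0))))))) (N (nat_lit 8413) (N (nat_lit 8406) (N (nat_lit 8402) (L (E (nat_lit 8) (nat_lit 0x4bba31912e57f2b70014006001) (nat_lit 0))) (N (nat_lit 8405) (N (nat_lit 8404) (N (nat_lit 8403) (L (E (nat_lit 14) (nat_lit 0x13729a94bb251d1888c2458227112e8842bf8014006001) (nat_lit 0))) (L (E (nat_lit 16) (nat_lit 0x4d4a6892ec96646122c113889a44ba210afe56e2ae0014006001) (nat_lit 0)))) (L (E (nat_lit 9) (nat_lit 0x9a9461225d10857f2b70014006001) (nat_lit 0)))) (L (E (nat_lit 10) (nat_lit 0x1344976462a25d10856e2ae0014006001) (nat_lit 0))))) (N (nat_lit 8410) (N (nat_lit 8409) (N (nat_lit 8408) (N (nat_lit 8407) (L (E (nat_lit 14) (nat_lit 0x12ec96746322c912e8842d51660b2e57f2b88014006001) (nat_lit 0))) (L (E (nat_lit 12) (nat_lit 0x4d2a5d92ce8c6459225d10857f2b70014006001) (nat_lit 0)))) (L (E (nat_lit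 16) (nat_lit 0x4e926a93509a64d125a929c8c6459225d10857f2b70014006001) (nat_lit 0)))) (L (E (nat_lit 9) (nat_lit 0x8c6461225d10857f2b70014006001) (nat_lit 0)))) (N (nat_lit 8412) (N (nat_lit 8411) (L (E (nat_lit 21) (nat_lit 0xf485bd274939c95e45e22c110a87e43b1f28b5057f2b815b8ab054a29c8014006001) (nat_lit 0))) (L (E (nat_lit 9) (nat_lit 0x9d14d426993489a24bb0014006001) (nat_lit 0)))) (L (E (nat_lit 19) (nat_lit 0x274939c9a84d325d92ce91448123791908c64429668b085802b70014006001) (nat_lit 0)))))) (N (nat_lit 8421) (N (nat_lit 8418) (N (nat_lit 8416) (N (nat_lit 8415) (N (nat_lit 8414) (L (E (nat_lit 14) (nat_lit 0x134a9764b3a5651cc8c544e225cb5857f2b70014006001) (nat_lit 0))) (L (E (nat_lit 16) (nat_lit 0x4e726a13449674a723bd18a8972d41600afe56e29c8014006001) (nat_lit 0)))) (L (E (nat_lit 13) (nat_lit 0x9a84d326892cc8c644ba2150bc57f2b88014006001) (nat_lit 0)))) (N (nat_lit 8417) (L (E (nat_lit 13) (nat_lit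 0x9ce4d425391de8c544b96a0afe56e29c8014006001) (nat_lit 0))) (L (E (nat_lit 17) (nat_lit 0xa974e926a53449664a723151808b244e225d10a5aa2c00014006001) (nat_lit 0))))) (N (nat_lit 8420) (N (nat_lit 8419) (L (E (nat_lit 12) (nat_lit 0x4e723a918a8b244b96a0afe56e29c8014006001) (nat_lit 0))) (L (E (nat_lit 8) (nat_lit 0x463230912e57f2b70014006001) (nat_lit 0)))) (L (E (nat_lit 12) (nat_lit 0x4e926f93489764b3a558afe5712ac0014006001) (nat_lit 0))))) (N (nat_lit 8426) (N (nat_lit 8424) (N (nat_lit 8423) (N (nat_lit 8422) (L (E (nat_lit 14) (nat_lit 0x13529a24bb259d1d48c344ba178afe5712ac0014006001) (nat_lit 0))) (L (E (nat_lit 17) (nat_lit 0x9d34dd26ad3509a64ca25c92ce8de46c235112e8844270014006001) (nat_lit 0)))) (L (E (nat_lit 13) (nat_lit 0x9a84d325d92ce8c344ba2110bc57f2b88014006001) (nat_lit 0)))) (N (nat_lit 8425) (L (E (nat_lit 16) (nat_lit 0x4fb274d39e9a44cda6412ce9622c015f0ae256a2b30014006001) (nat_lit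 0))) (L (E (nat_lit 14) (nat_lit 0xce065e32e1968cb06503261920c746383191898c48612) (nat_lit 0))))) (N (nat_lit 8428) (N (nat_lit 8427) (L (E (nat_lit 9) (nat_lit 0x967463225d10857f2b88014006001) (nat_lit 0))) (L (E (nat_lit 14) (nat_lit 0x13509a24bb25991d48c6461a2c112e85e2ae0014006001) (nat_lit 0)))) (N (nat_lit 8429) (L (E (nat_lit 13) (nat_lit 0x9d34e026e53548ea463230d16089742f0014006001) (nat_lit 0))) (L (E (nat_lit 17) (nat_lit 0xd584f9a5692ac94e47723b11ac8c3459a25cc7055c14b0014006001) (nat_lit 0))))))))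
def cl169 : RA := N (nat_lit 8453) (N (nat_lit 8437) (N (nat_lit 8433) (N (nat_lit 8431) (L (E (nat_lit 8) (nat_lit 0x4d1231912e57f2b70014006001) (nat_lit 0))) (N (nat_lit 8432) (L (E (nat_lit 13) (nat_lit 0x9b94bb23191868b044ba210ae056e2ae0014006001) (nat_lit 0))) (L (E (nat_lit 14) (nat_lit 0x1372976463230d12e8842d415c0adc55c2ac0014006001) (nat_lit 0))))) (N (nat_lit 8435) (N (nat_lit 8434) (L (E (nat_lit 15) (nat_lit 0x26e52ec8ea463230d12e8602d415c0adc55c2ac0014006001) (nat_lit 0))) (L (E (nat_lit 15) (nat_lit 0x26e534497646122c512e8852d39600adc54229c8014006001) (nat_lit 0)))) (N (nat_lit 8436) (L (E (nat_lit 6) (nat_lit 0x11668854300014006001) (nat_lit 0))) (L (E (nat_lit 19) (nat_lit 0x2a494fca644dd26912ec95646322c91608974429600afc56e2a20014006001) (nat_lit 0)))))) (N (nat_lit 8445) (N (nat_lit 8441) (N (nat_lit 8439) (N (nat_lit 8438) (L (E (nat_lit 15) (nat_lit 0x30c13529a54b1253928e8b245822b90145972bf0014006001)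 (nat_lit 0))) (L (E (nat_lit 18) (nat_lit 0x14c89a24bb259918c8c244ba214b4e5972b815b8a8854229c8014006001) (nat_lit 0)))) (N (nat_lit 8440) (L (E (nat_lit 12) (nat_lit 0x50227d93a49b94d2a6512f09664a38014006001) (nat_lit 0))) (L (E (nat_lit 11) (nat_lit 0x26892ec966463225cb0056e2ae0014006001) (nat_lit 0))))) (N (nat_lit 8443) (N (nat_lit 8442) (L (E (nat_lit 10) (nat_lit 0x13449764b3231912e5802b70014006001) (nat_lit 0))) (L (E (nat_lit 14) (nat_lit 0x134a9764b5259d1b88b144ba210b505932b70014006001) (nat_lit 0)))) (N (nat_lit 8444) (L (E (nat_lit 18) (nat_lit 0x134a9764b5259d1b88c6459225d1085a82cc1600afc56e2ac0014006001) (nat_lit 0))) (L (E (nat_lit 11) (nat_lit 0x26952ec8c644ba210b5056e2ae0014006001) (nat_lit 0)))))) (N (nat_lit 8449) (N (nat_lit 8447) (N (nat_lit 8446) (L (E (nat_lit 13) (nat_lit 0x9a44bb22cd12e8842cc1600afc56e2a30014006001) (nat_lit 0))) (L (E (nat_lit 9) (nat_lit 0x9a24bb231912e5802b70014006001)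 (nat_lit 0)))) (N (nat_lit 8448) (L (E (nat_lit 15) (nat_lit 0x26a13489a24c625d12ce8d646323111848c044b8014006001) (nat_lit 0))) (L (E (nat_lit 22) (nat_lit 0x1abc9a84d2268931897e4ba259d1ac8c6462230916489c44ba24110884c4230014006001) (nat_lit 0))))) (N (nat_lit 8451) (N (nat_lit 8450) (L (E (nat_lit 10) (nat_lit 0x13489a24caa6012ee9674a70014006001) (nat_lit 0))) (L (E (nat_lit 14) (nat_lit 0x13489a24bba59d28c8b144b96e4b0056e2a48014006001) (nat_lit 0)))) (N (nat_lit 8452) (L (E (nat_lit 14) (nat_lit 0x13489a24bba59d18c8b244ba210b0056e2ac0014006001) (nat_lit 0))) (L (E (nat_lit 21) (nat_lit 0xa924d926792e89624a723191848b244ba2110e865a2d39610b0057e2b70014006001) (nat_lit 0)))))))) (N (nat_lit 8466) (N (nat_lit 8457) (N (nat_lit 8454) (L (E (nat_lit 8) (nat_lit 0x463230d1648b044b8014006001) (nat_lit 0))) (N (nat_lit 8455) (L (E (nat_lit 14) (nat_lit 0x17f0be05ee2f4177cb9a4d4a6793009774b70014006001) (nat_lit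 0))) (N (nat_lit 8456) (L (E (nat_lit 30) (nat_lit 0x14768ec461a2d903c80a2d516a0b0857e2b815b8ab85582a214009e04e627013789b84d025e11f08f44782390014006001) (nat_lit 0))) (L (E (nat_lit 24) (nat_lit 0x52125992c888244020690207fa3fa1facfc07d238018909cc4d225e12b49304942480014006001) (nat_lit 0)))))) (N (nat_lit 8461) (N (nat_lit 8459) (N (nat_lit 8458) (L (E (nat_lit 18) (nat_lit 0x1860c205fd1f38f947c628013c09a04ae25612a094c4a42430014006001) (nat_lit 0))) (L (E (nat_lit 39) (nat_lit 0x30c1840bfa52125992c890246f232110488041620690207fa3f41f98fc47e03ee1f18e0062428013c09cc4d226812f095c4a825312609284902430014006001) (nat_lit 0)))) (N (nat_lit 8460) (L (E (nat_lit 10) (nat_lit 0x1860c206042fe903c80a3f08014006001) (nat_lit 0))) (L (E (nat_lit 12) (nat_lit 0x4d226892ee8c6459225d1085802b70014006001) (nat_lit 0))))) (N (nat_lit 8464) (N (nat_lit 8463) (N (nat_lit 8462) (L (E (nat_lit 10) (nat_lit 0x13a49aa4d426913449944bb8014006001)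 (nat_lit 0))) (L (E (nat_lit 9) (nat_lit 0xa444d4a6792ee9402d60014006001) (nat_lit 0)))) (L (E (nat_lit 13) (nat_lit 0x9a44d126512ee9664571610b0057e2b70014006001) (nat_lit 0)))) (N (nat_lit 8465) (L (E (nat_lit 11) (nat_lit 0x2691344977463225d1085802b70014006001) (nat_lit 0))) (L (E (nat_lit 10) (nat_lit 0x13449774429600afc56e2ac0014006001) (nat_lit 0))))))) (N (nat_lit 8472) (N (nat_lit 8469) (N (nat_lit 8468) (N (nat_lit 8467) (L (E (nat_lit 13) (nat_lit 0x8c646222d11648b044b9600afc57c2b70014006001) (nat_lit 0))) (L (E (nat_lit 20) (nat_lit 0x70a2aa9500a54513237118c8c245a22c912e5a82c015f8ae456e2a48014006001) (nat_lit 0)))) (L (E (nat_lit 8) (nat_lit 0x4d1231912e5802b70014006001) (nat_lit 0)))) (N (nat_lit 8471) (N (nat_lit 8470) (L (E (nat_lit 15) (nat_lit 0x265931897c4bba59d1808b344ba210b265802b70014006001) (nat_lit 0))) (L (E (nat_lit 11) (nat_lit 0x23191648974421610b0056e2a30014006001) (nat_lit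 0)))) (L (E (nat_lit 13) (nat_lit 0x8c9455225cff07f43f9132057014a04b0014006001) (nat_lit 0))))) (N (nat_lit 8474) (N (nat_lit 8473) (L (E (nat_lit 9) (nat_lit 0x9774b3a31912e5802b70014006001) (nat_lit 0))) (L (E (nat_lit 13) (nat_lit 0x9664b2258918c8c0459225cb0a5802b70014006001) (nat_lit 0)))) (N (nat_lit 8477) (N (nat_lit 8476) (N (nat_lit 8475) (L (E (nat_lit 20) (nat_lit 0x5312961474a384c8a5dd2d28c646122c912e8743251890b4e5842c00014006001) (nat_lit 0))) (L (E (nat_lit 21) (nat_lit 0x9924bba3191888c2459225d1088743f31f88c945b82c015b8ab85482940014006001) (nat_lit 0)))) (L (E (nat_lit 13) (nat_lit 0x977458a25d1088743f31660b0056e2a38014006001) (nat_lit 0)))) (N (nat_lit 8478) (L (E (nat_lit 10) (nat_lit 0x12ee8b144ba210b085802b70014006001) (nat_lit 0))) (L (E (nat_lit 10) (nat_lit 0x12ee8c6459225d1085802b70014006001) (nat_lit 0))))))))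
def cl170 : RA := N (nat_lit 8530) (N (nat_lit 8519) (N (nat_lit 8518) (N (nat_lit 8515) (N (nat_lit 8513) (N (nat_lit 8512) (L (E (nat_lit 16) (nat_lit 0x5582a81524a6a5332990b505962bf15c0ab85582a38014006001) (nat_lit 0))) (L (E (nat_lit 19) (nat_lit 0x2ac1540a9253526e934497437016b8b245842c095c0ab85581a00014006001) (nat_lit 0)))) (N (nat_lit 8514) (L (E (nat_lit 13) (nat_lit 0x9d24e827393989ba4d125d11a88944400014006001) (nat_lit 0))) (L (E (nat_lit 14) (nat_lit 0x136c9764b2225cb545a82cc1658afc5712a20014006001) (nat_lit 0))))) (N (nat_lit 8517) (N (nat_lit 8516) (L (E (nat_lit 16) (nat_lit 0x4e925d92d096647f232118c8b244b96a8adc5482980014006001) (nat_lit 0))) (L (E (nat_lit 17) (nat_lit 0x9d24bb259d29094644a22151008602b995b8ab054b2990014006001) (nat_lit 0)))) (L (E (nat_lit 8) (nat_lit 0x4bb23191648972b70014006001) (nat_lit 0))))) (L (E (nat_lit 7) (nat_lit 0x25d918c8972b70014006001) (nat_lit 0))))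 (N (nat_lit 8526) (N (nat_lit 8522) (N (nat_lit 8521) (N (nat_lit 8520) (L (E (nat_lit 14) (nat_lit 0x134c9784b21970c486142d51610b0256b2ae8014006001) (nat_lit 0))) (L (E (nat_lit 15) (nat_lit 0x275934c9774af1970c485842c095c0ad654a2a38014006001) (nat_lit 0)))) (L (E (nat_lit 8) (nat_lit 0x459a25cb085702b70014006001) (nat_lit 0)))) (N (nat_lit 8525) (N (nat_lit 8524) (N (nat_lit 8523) (L (E (nat_lit 14) (nat_lit 0x12ee96746322c912e5ce2c21604ad655d2ac0014006001) (nat_lit 0))) (L (E (nat_lit 11) (nat_lit 0x259918c8b244d225cb025722a30014006001) (nat_lit 0)))) (L (E (nat_lit 12) (nat_lit 0x533299145a9be4d1a5dd2cc5842ae8014006001) (nat_lit 0)))) (L (E (nat_lit 8) (nat_lit 0x463225cb0856e2ae8014006001) (nat_lit 0))))) (N (nat_lit 8527) (L (E (nat_lit 8) (nat_lit 0x4bc231915c89b4410014006001) (nat_lit 0))) (N (nat_lit 8529) (N (nat_lit 8528) (L (E (nat_lit 12) (nat_lit 0x4d125dd16489a44b9604ae055c2a38014006001)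 (nat_lit 0))) (L (E (nat_lit 13) (nat_lit 0x9664b2258918c8c246022c91348972a58014006001) (nat_lit 0)))) (L (E (nat_lit 14) (nat_lit 0x13a09a34bba5992b08c646122c91348974420014006001) (nat_lit 0))))))) (N (nat_lit 8546) (N (nat_lit 8539) (N (nat_lit 8535) (N (nat_lit 8533) (N (nat_lit 8532) (N (nat_lit 8531) (L (E (nat_lit 15) (nat_lit 0x25dd2cc8c6459226912e5842c095c0ab85582a38014006001) (nat_lit 0))) (L (E (nat_lit 12) (nat_lit 0x4bba59918c8b244b9610b025702ae0014006001) (nat_lit 0)))) (L (E (nat_lit 21) (nat_lit 0xc305c027693a49cc4e523191608822df16e0b6c5a92c21604ae05460500014006001) (nat_lit 0)))) (N (nat_lit 8534) (L (E (nat_lit 20) (nat_lit 0x4ed27313949ba4dc23191808974429968b7c5b62c215c0adc5462990014006001) (nat_lit 0))) (L (E (nat_lit 16) (nat_lit 0x4d1a6512ce8c6461225ccb45be2db1610ae056e2990014006001) (nat_lit 0))))) (N (nat_lit 8537) (N (nat_lit 8536) (L (E (nat_lit 16) (nat_lit 0x6af35317989a8463225d1085932b995b8aaa54b2a30014006001)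 (nat_lit 0))) (L (E (nat_lit 16) (nat_lit 0x6a626a1344952463225d1085932c215c0adc5552a30014006001) (nat_lit 0)))) (N (nat_lit 8538) (L (E (nat_lit 8) (nat_lit 0x463225cb085702b70014006001) (nat_lit 0))) (L (E (nat_lit 15) (nat_lit 0x29994c8a504d1a5dd2cc8c646122c912e5852ae8014006001) (nat_lit 0)))))) (N (nat_lit 8542) (N (nat_lit 8540) (L (E (nat_lit 7) (nat_lit 0x231912e5702b70014006001) (nat_lit 0))) (N (nat_lit 8541) (L (E (nat_lit 20) (nat_lit 0x53327313469944bba5a12cc94447122d11388972dc16a8b505722a20014006001) (nat_lit 0))) (L (E (nat_lit 16) (nat_lit 0x4d426492d49664aca55928c8944402178ad655c2ac0014006001) (nat_lit 0))))) (N (nat_lit 8544) (N (nat_lit 8543) (L (E (nat_lit 34) (nat_lit 0x14cc9cc4d326913469944c925dd2cc94447122d11388974302178cb864a2dc16a8b505a22bf15e0ae456e2b31570a885342980014006001) (nat_lit 0))) (L (E (nat_lit 12) (nat_lit 0x4b2222d1007522d415f8ae256a1a00014006001) (nat_lit 0))))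 (N (nat_lit 8545) (L (E (nat_lit 13) (nat_lit 0xbc84d326892ee966445a200b025712ac0014006001) (nat_lit 0))) (L (E (nat_lit 18) (nat_lit 0x13989a64d1a6511c48c645a229d1388974301970b5056e2a38014006001) (nat_lit 0))))))) (N (nat_lit 8551) (N (nat_lit 8549) (N (nat_lit 8548) (N (nat_lit 8547) (L (E (nat_lit 11) (nat_lit 0x2a514fca6651d26993249694b10014006001) (nat_lit 0))) (L (E (nat_lit 19) (nat_lit 0x45897c09a64d1a5dd2cc8d64542240f686322c095c4ab05462240014006001) (nat_lit 0)))) (L (E (nat_lit 22) (nat_lit 0x22c4bc84e62699328966471235918c8b4453a27112e890445a180f6865c2b70014006001) (nat_lit 0)))) (N (nat_lit 8550) (L (E (nat_lit 10) (nat_lit 0x13a49cc4d1a6513249774b38014006001) (nat_lit 0))) (L (E (nat_lit 6) (nat_lit 0x11668972b70014006001) (nat_lit 0))))) (N (nat_lit 8552) (L (E (nat_lit 9) (nat_lit 0x8ee46323091648b044b8014006001) (nat_lit 0))) (N (nat_lit 8553) (L (E (nat_lit 13) (nat_lit 0x9de4d125dd2cc8c6459225d0bc5812b88014006001)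 (nat_lit 0))) (L (E (nat_lit 12) (nat_lit 0x4d4268d32496946322c916089742f0014006001) (nat_lit 0)))))))
def cl171 : RA := N (nat_lit 8377) (N (nat_lit 8302) (N (nat_lit 8257) (cl165) (cl166)) (N (nat_lit 8352) (cl167) (N (nat_lit 8368) (N (nat_lit 8359) (N (nat_lit 8358) (N (nat_lit 8355) (N (nat_lit 8354) (N (nat_lit 8353) (L (E (nat_lit 12) (nat_lit 0x54126992ee967463a25d10e57f2b88014006001) (nat_lit 0))) (L (E (nat_lit 12) (nat_lit 0x54126992ee967463a26912e57f2b88014006001) (nat_lit 0)))) (L (E (nat_lit 9) (nat_lit 0x9774b39934afe5712ac0014006001) (nat_lit 0)))) (N (nat_lit 8356) (L (E (nat_lit 11) (nat_lit 0x26892f08c7460226912c8944410014006001) (nat_lit 0))) (N (nat_lit 8357) (L (E (nat_lit 13) (nat_lit 0x9a24bba54918e8974429600ae456e2ae0014006001) (nat_lit 0))) (L (E (nat_lit 15) (nat_lit 0x26993489774b3a31d1348972e91670afe5712ac0014006001) (nat_lit 0)))))) (L (E (nat_lit 4) (nat_lit 0x463a2690ea003)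 (nat_lit 0)))) (N (nat_lit 8364) (N (nat_lit 8361) (N (nat_lit 8360) (L (E (nat_lit 14) (nat_lit 0x13769924c826312c48d646222c11348904430014006001) (nat_lit 0))) (L (E (nat_lit 9) (nat_lit 0x9774b3a31d13457f2b88014006001) (nat_lit 0)))) (N (nat_lit 8362) (L (E (nat_lit 13) (nat_lit 0x9a74d125f12ee96746f23711ac87843b0014006001) (nat_lit 0))) (N (nat_lit 8363) (L (E (nat_lit 13) (nat_lit 0x9bb4bba3791b88d646122b910857f2b70014006001) (nat_lit 0))) (L (E (nat_lit 21) (nat_lit 0xfca6ff29a94aca424e926a13286382cf1620b0057f2b71560a7052a18a0014006001) (nat_lit 0)))))) (N (nat_lit 8366) (N (nat_lit 8365) (L (E (nat_lit 28) (nat_lit 0x53529093d09e04d5a69133e9774ab25491bc8dc46b230915c89c4432210cbc64c3091748afe5712a30014006001) (nat_lit 0))) (L (E (nat_lit 7) (nat_lit 0x23b118e8c34458014006001) (nat_lit 0)))) (N (nat_lit 8367) (L (E (nat_lit 21) (nat_lit 0x9a64d226712ee96746f23711ac8c244e221910865e3261748afe5712a10014006001)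 (nat_lit 0))) (L (E (nat_lit 10) (nat_lit 0x12ee967463a25cc9857f2b88014006001) (nat_lit 0))))))) (N (nat_lit 8372) (N (nat_lit 8371) (N (nat_lit 8370) (N (nat_lit 8369) (L (E (nat_lit 15) (nat_lit 0x27813769b64d3a67929e8fc474235114c89042d0014006001) (nat_lit 0))) (L (E (nat_lit 10) (nat_lit 0x136c9774b3a31cc9857f2b88014006001) (nat_lit 0)))) (L (E (nat_lit 9) (nat_lit 0x9a24bc231918089b4410014006001) (nat_lit 0)))) (L (E (nat_lit 9) (nat_lit 0x9d64e9274134498c4ba0014006001) (nat_lit 0)))) (N (nat_lit 8373) (L (E (nat_lit 7) (nat_lit 0x235d1848ae4420014006001) (nat_lit 0))) (N (nat_lit 8375) (N (nat_lit 8374) (L (E (nat_lit 20) (nat_lit 0x4eb26d934c9a24c925dd2ce8c646223091808973381930c7056e2ac0014006001) (nat_lit 0))) (L (E (nat_lit 15) (nat_lit 0x27893ac9d24d325dd2ce8c244d225d10857f2b88014006001) (nat_lit 0)))) (N (nat_lit 8376) (L (E (nat_lit 20) (nat_lit 0x535290935099448223b11c08dc46b230d12e8872eb1708afe5712ac0014006001)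 (nat_lit 0))) (L (E (nat_lit 11) (nat_lit 0x274935099446e9f80f9455c2ac0014006001) (nat_lit 0)))))))))) (N (nat_lit 8479) (N (nat_lit 8430) (cl168) (cl169)) (N (nat_lit 8511) (N (nat_lit 8492) (N (nat_lit 8487) (N (nat_lit 8481) (N (nat_lit 8480) (L (E (nat_lit 15) (nat_lit 0x26e93709a44be25dd18c8b244b9600afc56e2ac0014006001) (nat_lit 0))) (L (E (nat_lit 6) (nat_lit 0x11668974428014006001) (nat_lit 0)))) (N (nat_lit 8484) (N (nat_lit 8482) (L (E (nat_lit 29) (nat_lit 0xc0a5fb2f817a0b4a4eb274939c9cc4e526a134c9944bba5992bc8714112040fd07dc3e51ed0f5079c3cb0014006001) (nat_lit 0))) (N (nat_lit 8483) (L (E (nat_lit 27) (nat_lit 0x2fd939c9cc4e526a12f89774b323cd1d48c246022cd15089743a21c50207e83ee1ed0f5079c3cb0014006001) (nat_lit 0))) (L (E (nat_lit 19) (nat_lit 0x42920d906a70335c9a90a964e9a5dd2cc95246c23509684942430014006001) (nat_lit 0))))) (N (nat_lit 8486) (N (nat_lit 8485) (L (E (nat_lit 18) (nat_lit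 0x17ec9b84d425f12ee8c0459a25d0e879c2cc1600afc56e2a38014006001) (nat_lit 0))) (L (E (nat_lit 9) (nat_lit 0x9a34ca25dd2cc5992c00014006001) (nat_lit 0)))) (L (E (nat_lit 17) (nat_lit 0xbf64dc26a12f897746022cd12e5982c21600afc56e2a40014006001) (nat_lit 0)))))) (N (nat_lit 8491) (N (nat_lit 8489) (N (nat_lit 8488) (L (E (nat_lit 9) (nat_lit 0x977463225cb0056e2ac0014006001) (nat_lit 0))) (L (E (nat_lit 12) (nat_lit 0x4d225d91668972cc1600afc56e2a30014006001) (nat_lit 0)))) (N (nat_lit 8490) (L (E (nat_lit 18) (nat_lit 0x22c49ce4d4268d2fc9784bb25c92cc95233a1930c8860e3000014006001) (nat_lit 0))) (L (E (nat_lit 10) (nat_lit 0x1346976459a25cb305802b70014006001) (nat_lit 0))))) (L (E (nat_lit 7) (nat_lit 0x26a53209784b20014006001) (nat_lit 0))))) (N (nat_lit 8497) (N (nat_lit 8494) (N (nat_lit 8493) (L (E (nat_lit 8) (nat_lit 0x4d1a6412f09694b18014006001) (nat_lit 0))) (L (E (nat_lit 11) (nat_lit 0x26e934898c4bb22c910a5802b70014006001)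 (nat_lit 0)))) (N (nat_lit 8495) (L (E (nat_lit 7) (nat_lit 0x231912e5802b70014006001) (nat_lit 0))) (N (nat_lit 8496) (L (E (nat_lit 11) (nat_lit 0x268d2ec96746322c912e8842c08014006001) (nat_lit 0))) (L (E (nat_lit 12) (nat_lit 0x4d425d92ce8c646022c912e8842c08014006001) (nat_lit 0)))))) (N (nat_lit 8504) (N (nat_lit 8500) (N (nat_lit 8498) (L (E (nat_lit 12) (nat_lit 0x4d225d92ce94646323051648974420014006001) (nat_lit 0))) (N (nat_lit 8499) (L (E (nat_lit 10) (nat_lit 0x12ec96746322c912e8842c08014006001) (nat_lit 0))) (L (E (nat_lit 16) (nat_lit 0x4dd26d934498c4bb25d12c88de4632208b2c55c2a50014006001) (nat_lit 0))))) (N (nat_lit 8502) (N (nat_lit 8501) (L (E (nat_lit 13) (nat_lit 0x9b94d225d918c8c246022c912e8842cb0014006001) (nat_lit 0))) (L (E (nat_lit 11) (nat_lit 0x26892ec96646322c912e8842b70014006001) (nat_lit 0)))) (N (nat_lit 8503) (L (E (nat_lit 11) (nat_lit 0x26a53469784b3258cb7458129e0014006001)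 (nat_lit 0))) (L (E (nat_lit 14) (nat_lit 0x135097c4b3258d1bc8c6459225d10856e2a50014006001) (nat_lit 0)))))) (N (nat_lit 8507) (N (nat_lit 8505) (L (E (nat_lit 9) (nat_lit 0x97646322c912e8842b70014006001) (nat_lit 0))) (N (nat_lit 8506) (L (E (nat_lit 14) (nat_lit 0x1e78b6651f28b0b5c59a2cc1604ae056a2ae0014006001) (nat_lit 0))) (L (E (nat_lit 16) (nat_lit 0x7ab2e013ce9a84d1a5f52ec8c645922c112e85e2b70014006001) (nat_lit 0))))) (N (nat_lit 8509) (N (nat_lit 8508) (L (E (nat_lit 20) (nat_lit 0x5672a414a0a183301970cb05cc2e516f8b705a92cc1610ae056e2ac0014006001) (nat_lit 0))) (L (E (nat_lit 22) (nat_lit 0x159ca9050c25f12f09764ba1980cb86582df16e0b545982c81604ae055c2ac0014006001) (nat_lit 0)))) (N (nat_lit 8510) (L (E (nat_lit 20) (nat_lit 0x4f3a6a134c9a34bb25992088fe46322c91608974492178cb856e2980014006001) (nat_lit 0))) (L (E (nat_lit 16) (nat_lit 0x4f3a68d2d09664b1a3f91908c6459225cadc5482980014006001)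 (nat_lit 0))))))))) (cl170)))
def cl172 : RA := N (nat_lit 8576) (N (nat_lit 8555) (L (E (nat_lit 7) (nat_lit 0x231912e56e2ac0014006001) (nat_lit 0))) (N (nat_lit 8565) (N (nat_lit 8561) (N (nat_lit 8559) (N (nat_lit 8557) (N (nat_lit 8556) (L (E (nat_lit 8) (nat_lit 0x463a30112e88542f0014006001) (nat_lit 0))) (L (E (nat_lit 16) (nat_lit 0x4e827392ee95847f231d18089744321e8b025712a38014006001) (nat_lit 0)))) (N (nat_lit 8558) (L (E (nat_lit 21) (nat_lit 0x9d04e726612fc9774b425992b094847f231d12e88643d1a50b025712a50014006001) (nat_lit 0))) (L (E (nat_lit 10) (nat_lit 0x13469774b4259912e5712ac0014006001) (nat_lit 0))))) (N (nat_lit 8560) (L (E (nat_lit 8) (nat_lit 0x2c015f8ae25582a40014006001) (nat_lit 0))) (L (E (nat_lit 11) (nat_lit 0x268d2ee969463a25cb025712a38014006001) (nat_lit 0))))) (N (nat_lit 8562) (L (E (nat_lit 9) (nat_lit 0x9a34bba59912e5712ac0014006001) (nat_lit 0))) (N (nat_lit 8563) (L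 (E (nat_lit 7) (nat_lit 0x16acae656e2ac0014006001) (nat_lit 0))) (N (nat_lit 8564) (L (E (nat_lit 17) (nat_lit 0xa7e4d426993249774b49978b545842bf15b8ad45582a30014006001) (nat_lit 0))) (L (E (nat_lit 17) (nat_lit 0xa7e53d26e93709944c925dd2d28972d51604ae056a2a30014006001) (nat_lit 0))))))) (N (nat_lit 8573) (N (nat_lit 8569) (N (nat_lit 8567) (N (nat_lit 8566) (L (E (nat_lit 16) (nat_lit 0x53f29e93749b84bba5a528c8972d51604aaa5462990014006001) (nat_lit 0))) (L (E (nat_lit 11) (nat_lit 0x268d2ee9664a3225cb0255c2a30014006001) (nat_lit 0)))) (N (nat_lit 8568) (L (E (nat_lit 10) (nat_lit 0x13469774b3225cb025582a30014006001) (nat_lit 0))) (L (E (nat_lit 10) (nat_lit 0x13469774b316a8b085812ae8014006001) (nat_lit 0))))) (N (nat_lit 8571) (N (nat_lit 8570) (L (E (nat_lit 12) (nat_lit 0x4bba5a12cc5842c095c0ab85582a38014006001) (nat_lit 0))) (L (E (nat_lit 10) (nat_lit 0x14cca6451d26a13289914b48014006001) (nat_lit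 0)))) (N (nat_lit 8572) (L (E (nat_lit 18) (nat_lit 0x14cca6451d265132498c4c425a518e8a644b9668b2c5922bf0014006001) (nat_lit 0))) (L (E (nat_lit 11) (nat_lit 0x268d2d29644b1225cb025732a38014006001) (nat_lit 0)))))) (N (nat_lit 8574) (L (E (nat_lit 9) (nat_lit 0x9a34bba59912e5812b70014006001) (nat_lit 0))) (N (nat_lit 8575) (L (E (nat_lit 12) (nat_lit 0x4f127393708b245822b8ad655c2ac0014006001) (nat_lit 0))) (L (E (nat_lit 11) (nat_lit 0x2a414eca6e5332951488a3a50b0014006001) (nat_lit 0)))))))) (N (nat_lit 8592) (N (nat_lit 8580) (N (nat_lit 8577) (L (E (nat_lit 8) (nat_lit 0x463a2d112e88443a0014006001) (nat_lit 0))) (N (nat_lit 8579) (N (nat_lit 8578) (L (E (nat_lit 14) (nat_lit 0x1570a6452c29514a4a3a4d4268d3289914b48014006001) (nat_lit 0))) (L (E (nat_lit 21) (nat_lit 0xa9654829914749a84c8a6192f89774b425992b05a82bf15c0ad455c2ac0014006001) (nat_lit 0)))) (L (E (nat_lit 20) (nat_lit 0x54828e93749a84c325f12ee9684ac16a0b085802bf15c0ab854a2a38014006001)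 (nat_lit 0))))) (N (nat_lit 8583) (N (nat_lit 8581) (L (E (nat_lit 9) (nat_lit 0x9774b4259912e5702ac0014006001) (nat_lit 0))) (N (nat_lit 8582) (L (E (nat_lit 12) (nat_lit 0x4bc25d92cc8c744a2208b0056e2ae8014006001) (nat_lit 0))) (L (E (nat_lit 13) (nat_lit 0x9a44c826292ec9684b3231d18489a44b8014006001) (nat_lit 0))))) (N (nat_lit 8588) (N (nat_lit 8586) (N (nat_lit 8585) (N (nat_lit 8584) (L (E (nat_lit 8) (nat_lit 0x4b4259912e56e2ae8014006001) (nat_lit 0))) (L (E (nat_lit 14) (nat_lit 0x13249904bc25d92d09662ce1668b3055d2a38014006001) (nat_lit 0)))) (L (E (nat_lit 12) (nat_lit 0x4c925e12ec9684b315f8ade56b2ae8014006001) (nat_lit 0)))) (N (nat_lit 8587) (L (E (nat_lit 13) (nat_lit 0x9924c825f12f09764b42598afc5582a30014006001) (nat_lit 0))) (L (E (nat_lit 11) (nat_lit 0x268d3249904be25e12ec9684b30014006001) (nat_lit 0))))) (N (nat_lit 8590) (N (nat_lit 8589) (L (E (nat_lit 13) (nat_lit 0x9a84c925e12ec9684b32250afc56f2ae8014006001)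 (nat_lit 0))) (L (E (nat_lit 14) (nat_lit 0x13509a24ca26412f09684b32250afc55d2ac0014006001) (nat_lit 0)))) (N (nat_lit 8591) (L (E (nat_lit 11) (nat_lit 0x26a12ec9684b3225cafc56f2ae8014006001) (nat_lit 0))) (L (E (nat_lit 8) (nat_lit 0x4b4259912e57e2ae8014006001) (nat_lit 0)))))))) (N (nat_lit 8601) (N (nat_lit 8597) (N (nat_lit 8593) (L (E (nat_lit 7) (nat_lit 0x25a12cc8972ae8014006001) (nat_lit 0))) (N (nat_lit 8595) (N (nat_lit 8594) (L (E (nat_lit 13) (nat_lit 0x8dc44ba2190e08602d61688b0a56a2af8014006001) (nat_lit 0))) (L (E (nat_lit 13) (nat_lit 0x9b64d326553209684b3225d0c057f2b80014006001) (nat_lit 0)))) (N (nat_lit 8596) (L (E (nat_lit 16) (nat_lit 0x4ca25f92f89784bb25a12885be2bf95c0ab85582a10014006001) (nat_lit 0))) (L (E (nat_lit 11) (nat_lit 0x240d1848aa44b965cafe56f2a20014006001) (nat_lit 0)))))) (N (nat_lit 8598) (L (E (nat_lit 10) (nat_lit 0x13509904b4259912e57f2b80014006001) (nat_lit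 0))) (N (nat_lit 8599) (L (E (nat_lit 7) (nat_lit 0x231d16889a44b8014006001) (nat_lit 0))) (N (nat_lit 8600) (L (E (nat_lit 9) (nat_lit 0x9904bea59912e5702b70014006001) (nat_lit 0))) (L (E (nat_lit 13) (nat_lit 0xd484d426952fa97844a15f8ae056f2a38014006001) (nat_lit 0))))))) (N (nat_lit 8608) (N (nat_lit 8606) (N (nat_lit 8603) (N (nat_lit 8602) (L (E (nat_lit 13) (nat_lit 0x9a44c625d92c48ee46022c91348972c00014006001) (nat_lit 0))) (L (E (nat_lit 14) (nat_lit 0x13509a44bea5d92cc96244b9660ade56a2a38014006001) (nat_lit 0)))) (N (nat_lit 8605) (N (nat_lit 8604) (L (E (nat_lit 11) (nat_lit 0x26a132097d44b9660ae056a2a38014006001) (nat_lit 0))) (L (E (nat_lit 20) (nat_lit 0x5ef273d36c9a64cba6493209684b3258d1988c845b22a913889a44b8014006001) (nat_lit 0)))) (L (E (nat_lit 21) (nat_lit 0x9a84d2265d32098b4bea5d92cc8c845b22a913889732216a8b505a22c00014006001) (nat_lit 0))))) (N (nat_lit 8607) (L (E (nat_lit 9)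 (nat_lit 0x9a84c825f512e5702a38014006001) (nat_lit 0))) (L (E (nat_lit 8) (nat_lit 0x2b795acab85462940014006001) (nat_lit 0))))) (N (nat_lit 8611) (N (nat_lit 8610) (N (nat_lit 8609) (L (E (nat_lit 12) (nat_lit 0x4db26312c65932b795a8ab85462958014006001) (nat_lit 0))) (L (E (nat_lit 9) (nat_lit 0x9a84c825f52cc8972b80014006001) (nat_lit 0)))) (L (E (nat_lit 11) (nat_lit 0x268d32097c4b42594af856a2940014006001) (nat_lit 0)))) (N (nat_lit 8613) (N (nat_lit 8612) (L (E (nat_lit 11) (nat_lit 0x269131897646022c112e5852c00014006001) (nat_lit 0))) (L (E (nat_lit 12) (nat_lit 0x4c825f12d096644b9600afc56f2a30014006001) (nat_lit 0)))) (L (E (nat_lit 14) (nat_lit 0x13c49d04d1a6412f89784b19600ad455c2a38014006001) (nat_lit 0))))))))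
def cl173 : RA := N (nat_lit 8673) (N (nat_lit 8659) (N (nat_lit 8655) (N (nat_lit 8651) (N (nat_lit 8649) (N (nat_lit 8648) (N (nat_lit 8647) (L (E (nat_lit 14) (nat_lit 0x248a9ce4d2a6512f09764b422bcafc55c2a38014006001) (nat_lit 0))) (L (E (nat_lit 11) (nat_lit 0x2a4934a9784b4251115e8602a38014006001) (nat_lit 0)))) (L (E (nat_lit 13) (nat_lit 0xa924bc25d92d09664b115fcae65582a50014006001) (nat_lit 0)))) (N (nat_lit 8650) (L (E (nat_lit 17) (nat_lit 0x9be4dca6a134a9944bc25a128e8d4464a1d10e05842b90014006001) (nat_lit 0))) (L (E (nat_lit 16) (nat_lit 0x5fb26e534a98c4bea3a91545982bf95b8ab05442530014006001) (nat_lit 0))))) (N (nat_lit 8653) (N (nat_lit 8652) (L (E (nat_lit 15) (nat_lit 0x2fd93729a54c625f51d48aa2bf95c4ab05442530014006001) (nat_lit 0))) (L (E (nat_lit 23) (nat_lit 0x2fd93d29a54ca25f52d0965463231116089a441a1d0b0857f2b915c4adc5582530014006001) (nat_lit 0)))) (N (nat_lit 8654) (L (E (nat_lit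 11) (nat_lit 0x26952f09684a3a31d10657f2b88014006001) (nat_lit 0))) (L (E (nat_lit 22) (nat_lit 0x17ec9b94d2a6512f09684b3251d1888b0441a1d0b0857f2b915c4adc5582530014006001) (nat_lit 0)))))) (N (nat_lit 8656) (L (E (nat_lit 8) (nat_lit 0x4d2a5e12d09662ac0014006001) (nat_lit 0))) (N (nat_lit 8658) (N (nat_lit 8657) (L (E (nat_lit 10) (nat_lit 0x13849b94d525e52d68c02ae0014006001) (nat_lit 0))) (L (E (nat_lit 12) (nat_lit 0x4e726e13509a54c925e518c5ab2ae0014006001) (nat_lit 0)))) (L (E (nat_lit 16) (nat_lit 0x8d7403a015006625312188c8ea27e13a898c4b012e0014006001) (nat_lit 0)))))) (N (nat_lit 8665) (N (nat_lit 8663) (N (nat_lit 8661) (N (nat_lit 8660) (L (E (nat_lit 32) (nat_lit 0x8073d81bacd5e6252fd94fc9a54caa5e52ea95f47f23a918c8c446022c110c7f82d51660b1c57c2bd15b8ad44b02280014006001) (nat_lit 0))) (L (E (nat_lit 20) (nat_lit 0x504269532a9794afa4111f88c945422190e85aa2cc15fcaf45712580014006001) (nat_lit 0))))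 (N (nat_lit 8662) (L (E (nat_lit 19) (nat_lit 0x28213709a54caa5e52be90447e231918888643a15fcae255c2ac0014006001) (nat_lit 0))) (L (E (nat_lit 15) (nat_lit 0x28213709a54caa5e52d69624afa20cafe5712ac0014006001) (nat_lit 0))))) (N (nat_lit 8664) (L (E (nat_lit 9) (nat_lit 0xda46cd3635af0d606a48014006001) (nat_lit 0))) (L (E (nat_lit 18) (nat_lit 0x1af0a6452228e934a9954c6a5e52c49584a623d91048624290014006001) (nat_lit 0))))) (N (nat_lit 8669) (N (nat_lit 8667) (N (nat_lit 8666) (L (E (nat_lit 17) (nat_lit 0xd606ae2989488a1846722d515e8704312184a945462a10014006001) (nat_lit 0))) (L (E (nat_lit 24) (nat_lit 0x6bc28213a09c44d2a6552d096647b235d19c8c844121890c25aa2cc1610afe5712ac0014006001) (nat_lit 0)))) (N (nat_lit 8668) (L (E (nat_lit 21) (nat_lit 0xa3a504274134a9954b425991c68d7467231d10486243096a8afe5712ac0014006001) (nat_lit 0))) (L (E (nat_lit 19) (nat_lit 0x28e94109d04d2a6553149684b3235d18e8824312184afe5712ac0014006001)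 (nat_lit 0))))) (N (nat_lit 8671) (N (nat_lit 8670) (L (E (nat_lit 11) (nat_lit 0x269532a9684b315fcae255c2ac0014006001) (nat_lit 0))) (L (E (nat_lit 9) (nat_lit 0x9a84d2a6513249794b40014006001) (nat_lit 0)))) (N (nat_lit 8672) (L (E (nat_lit 9) (nat_lit 0x9a54b42598afe5712ac0014006001) (nat_lit 0))) (L (E (nat_lit 20) (nat_lit 0x54229e14aca324d2a5a12cc6e03181838ba45a82c215fcadc5581a00014006001) (nat_lit 0)))))))) (N (nat_lit 8688) (N (nat_lit 8680) (N (nat_lit 8678) (N (nat_lit 8676) (N (nat_lit 8675) (N (nat_lit 8674) (L (E (nat_lit 14) (nat_lit 0x116889e4451fe8fcc7d22e21670ac055c2ac0014006001) (nat_lit 0))) (L (E (nat_lit 22) (nat_lit 0x1f90fc47ce3df1e34bfc5fc2fd97bc8b44451670b085802bf15c0adc5582a10014006001) (nat_lit 0)))) (L (E (nat_lit 7) (nat_lit 0x26a534a9794b40014006001) (nat_lit 0)))) (N (nat_lit 8677) (L (E (nat_lit 21) (nat_lit 0xd606a4ab19554aa454029554a0a4351d16a8b305842c015f8af85702ac0014006001)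 (nat_lit 0))) (L (E (nat_lit 22) (nat_lit 0x1ac0d495552a41500a6052928e93c09dc4ed1738b545802b815b8ad655c2ac0014006001) (nat_lit 0))))) (N (nat_lit 8679) (L (E (nat_lit 7) (nat_lit 0x26953289794b40014006001) (nat_lit 0))) (L (E (nat_lit 10) (nat_lit 0x116488442f1610b0056e2ae8014006001) (nat_lit 0))))) (N (nat_lit 8684) (N (nat_lit 8682) (N (nat_lit 8681) (L (E (nat_lit 14) (nat_lit 0x134a96946322c915e85e4051b80b505842bf0014006001) (nat_lit 0))) (L (E (nat_lit 6) (nat_lit 0x134a9794b48014006001) (nat_lit 0)))) (N (nat_lit 8683) (L (E (nat_lit 10) (nat_lit 0x134a9684b315fcae456e2ac0014006001) (nat_lit 0))) (L (E (nat_lit 17) (nat_lit 0xa625292941474a384dd26d93685972c215f8ae455829a0014006001) (nat_lit 0))))) (N (nat_lit 8686) (N (nat_lit 8685) (L (E (nat_lit 22) (nat_lit 0x1b1ca6252928e93749b64da22c915e8864381738b745802bf15c0ab855829a0014006001) (nat_lit 0))) (L (E (nat_lit 15) (nat_lit 0x28e93a09c24d4269532498a4be25e52885ba2b80014006001)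 (nat_lit 0)))) (N (nat_lit 8687) (L (E (nat_lit 6) (nat_lit 0x134a9792b70014006001) (nat_lit 0))) (L (E (nat_lit 8) (nat_lit 0x4d225e4b0057e2b88014006001) (nat_lit 0))))))) (N (nat_lit 8694) (N (nat_lit 8692) (N (nat_lit 8690) (N (nat_lit 8689) (L (E (nat_lit 7) (nat_lit 0x25e4b025712a30014006001) (nat_lit 0))) (L (E (nat_lit 5) (nat_lit 0x8ec46222c110a003) (nat_lit 0)))) (N (nat_lit 8691) (L (E (nat_lit 7) (nat_lit 0x26912f28ec4700014006001) (nat_lit 0))) (L (E (nat_lit 6) (nat_lit 0x12f28ed4598014006001) (nat_lit 0))))) (N (nat_lit 8693) (L (E (nat_lit 6) (nat_lit 0x12f25812b88014006001) (nat_lit 0))) (L (E (nat_lit 5) (nat_lit 0x9794598014006001) (nat_lit 0))))) (N (nat_lit 8697) (N (nat_lit 8695) (L (E (nat_lit 7) (nat_lit 0x26912f257e2b88014006001) (nat_lit 0))) (N (nat_lit 8696) (L (E (nat_lit 16) (nat_lit 0x8eba6a932897946416a8b505a62cd1604ae055c2a38014006001) (nat_lit 0))) (L (E (nat_lit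 15) (nat_lit 0x475d2f28dc464225510c88242f2168b505812ae0014006001) (nat_lit 0))))) (N (nat_lit 8699) (N (nat_lit 8698) (L (E (nat_lit 12) (nat_lit 0x47023711b05842bf15c0ab054629a0014006001) (nat_lit 0))) (L (E (nat_lit 23) (nat_lit 0x475db3c97947023711b08c846222c112a88644121890bc85a3f01ea8b505842c08014006001) (nat_lit 0)))) (N (nat_lit 8700) (L (E (nat_lit 21) (nat_lit 0xd9e4bca3b91c08dc46c23211888b044aa1890bc85a3f01ea8b5058115e0014006001) (nat_lit 0))) (L (E (nat_lit 24) (nat_lit 0x6cf26912f28ee47023711b08c8462230916089543121790b47e03d516a0afc56e15e0014006001) (nat_lit 0))))))))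
def cl174 : RA := N (nat_lit 8725) (N (nat_lit 8713) (N (nat_lit 8705) (N (nat_lit 8703) (L (E (nat_lit 9) (nat_lit 0x9a44bb231d1648b02c00014006001) (nat_lit 0))) (N (nat_lit 8704) (L (E (nat_lit 13) (nat_lit 0xd5e6a626892ac952463a3091808944428014006001) (nat_lit 0))) (L (E (nat_lit 14) (nat_lit 0x13448c746223091808b044d225110c8844410014006001) (nat_lit 0))))) (N (nat_lit 8709) (N (nat_lit 8707) (N (nat_lit 8706) (L (E (nat_lit 12) (nat_lit 0x463a26d12e8743f01f48f807b63da0014006001) (nat_lit 0))) (L (E (nat_lit 14) (nat_lit 0x17bcbca47723b11d48e846c23011247f03db0014006001) (nat_lit 0)))) (N (nat_lit 8708) (L (E (nat_lit 22) (nat_lit 0x13489a24ca259d2ac8c8462230918088644021d10147e03e91f18f847b62c00014006001) (nat_lit 0))) (L (E (nat_lit 14) (nat_lit 0x135c9a24c025dd2ce8c744ba2191088744380014006001) (nat_lit 0))))) (N (nat_lit 8711) (N (nat_lit 8710) (L (E (nat_lit 24) (nat_lit 0x52c26b93489944c0259d2ac8c846222c916088644021d10147d23e31f08f6c57f2b70014006001)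 (nat_lit 0))) (L (E (nat_lit 26) (nat_lit 0x14b09ae4d226513009674ab23311908c445922c11008744051f48f8c7c23db15fcadc4d02660014006001) (nat_lit 0)))) (N (nat_lit 8712) (L (E (nat_lit 7) (nat_lit 0x26913449684b30014006001) (nat_lit 0))) (L (E (nat_lit 15) (nat_lit 0x35313489a24a923b518e8c0442a1dcb005702b50014006001) (nat_lit 0))))))) (N (nat_lit 8717) (N (nat_lit 8715) (N (nat_lit 8714) (L (E (nat_lit 11) (nat_lit 0x353134895246222c110a57f2b80014006001) (nat_lit 0))) (L (E (nat_lit 9) (nat_lit 0x8ed46322c11348974420014006001) (nat_lit 0)))) (N (nat_lit 8716) (L (E (nat_lit 11) (nat_lit 0x268918c8c446022c110c8844410014006001) (nat_lit 0))) (L (E (nat_lit 11) (nat_lit 0x2689180896443a208ae056a2ac0014006001) (nat_lit 0))))) (N (nat_lit 8721) (N (nat_lit 8719) (N (nat_lit 8718) (L (E (nat_lit 7) (nat_lit 0x23b51808974438014006001) (nat_lit 0))) (L (E (nat_lit 11) (nat_lit 0x26913449904ba259d1668ab44b8014006001)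 (nat_lit 0)))) (N (nat_lit 8720) (L (E (nat_lit 13) (nat_lit 0x9a84b423fd1b08c6458225d1088742bf8014006001) (nat_lit 0))) (L (E (nat_lit 12) (nat_lit 0x4d225a118c8c44582210afe5702ac0014006001) (nat_lit 0))))) (N (nat_lit 8723) (N (nat_lit 8722) (L (E (nat_lit 11) (nat_lit 0x26912ee968463a25d10e57f2b80014006001) (nat_lit 0))) (L (E (nat_lit 14) (nat_lit 0x1a989a44bba5a12a48c4458226912e57f2b80014006001) (nat_lit 0)))) (N (nat_lit 8724) (L (E (nat_lit 11) (nat_lit 0x26912ee96846222c112e57f2b80014006001) (nat_lit 0))) (L (E (nat_lit 10) (nat_lit 0x134896846222c0afe5702ac0014006001) (nat_lit 0)))))))) (N (nat_lit 8735) (N (nat_lit 8728) (N (nat_lit 8726) (L (E (nat_lit 8) (nat_lit 0x46022c512e8864420014006001) (nat_lit 0))) (N (nat_lit 8727) (L (E (nat_lit 13) (nat_lit 0x9a44d126412ee9674af23011628974420014006001) (nat_lit 0))) (L (E (nat_lit 10) (nat_lit 0x13509a44b3a2c512e8842bf8014006001) (nat_lit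 0))))) (N (nat_lit 8731) (N (nat_lit 8729) (L (E (nat_lit 9) (nat_lit 0x9a44b42310afe5702ac0014006001) (nat_lit 0))) (N (nat_lit 8730) (L (E (nat_lit 24) (nat_lit 0x6d33679b24d606af3539a98d486a21a18d046743381988cbc6503261928c6c62430a0014006001) (nat_lit 0))) (L (E (nat_lit 39) (nat_lit 0x3699b3cd926ba3581abcd4e6a43511860c2e61030217f49a23431a08ce86703311930c9464831b1890c285a82b915c0ab854a2a414a09c83921680014006001) (nat_lit 0))))) (N (nat_lit 8733) (N (nat_lit 8732) (L (E (nat_lit 29) (nat_lit 0xda66a430b97f4be05e82e8120c8fc46422c513888443b21d0cc464c3121768b7059a2bf95c8ade54a2730014006001) (nat_lit 0))) (L (E (nat_lit 8) (nat_lit 0x4d222c512e57f2950014006001) (nat_lit 0)))) (N (nat_lit 8734) (L (E (nat_lit 12) (nat_lit 0x4d225a518c8b2458226912e57f2b78014006001) (nat_lit 0))) (L (E (nat_lit 9) (nat_lit 0x9a44d126513209774b48014006001) (nat_lit 0))))))) (N (nat_lit 8743) (N (nat_lit 8740) (N (nat_lit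 8738) (N (nat_lit 8737) (N (nat_lit 8736) (L (E (nat_lit 11) (nat_lit 0x279934896246323111608972bf8014006001) (nat_lit 0))) (L (E (nat_lit 20) (nat_lit 0x34119c0cbc64c30a1828c106043011800b9c5c82e315fcaba52a2900014006001) (nat_lit 0)))) (L (E (nat_lit 26) (nat_lit 0x1840bfa5de2e811d88c744d225d1086703261850c105c82e316e0b3457f2b81520a7452a2900014006001) (nat_lit 0)))) (N (nat_lit 8739) (L (E (nat_lit 29) (nat_lit 0xaa854929d9488a3851323091608ae44e221910887643a1a00cac62e2ec1720b3458e2c215fcaf05702ae0014006001) (nat_lit 0))) (L (E (nat_lit 10) (nat_lit 0x1348948462225cafe5702950014006001) (nat_lit 0))))) (N (nat_lit 8741) (L (E (nat_lit 8) (nat_lit 0x4d22310afe5702ac0014006001) (nat_lit 0))) (N (nat_lit 8742) (L (E (nat_lit 9) (nat_lit 0x9a44b315fcae456f2a10014006001) (nat_lit 0))) (L (E (nat_lit 8) (nat_lit 0x4d2226910857f2b78014006001) (nat_lit 0)))))) (N (nat_lit 8747) (N (nat_lit 8744) (L (E (nat_lit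 7) (nat_lit 0x2690afe5702ac0014006001) (nat_lit 0))) (N (nat_lit 8746) (N (nat_lit 8745) (L (E (nat_lit 8) (nat_lit 0x4d2225d10a57f2ac0014006001) (nat_lit 0))) (L (E (nat_lit 7) (nat_lit 0x269110a57f2ac0014006001) (nat_lit 0)))) (L (E (nat_lit 8) (nat_lit 0x4d2225910457f2ac0014006001) (nat_lit 0))))) (N (nat_lit 8749) (N (nat_lit 8748) (L (E (nat_lit 7) (nat_lit 0x363daaad3c69d0014006001) (nat_lit 0))) (L (E (nat_lit 8) (nat_lit 0x4d22258c7057f2ac0014006001) (nat_lit 0)))) (L (E (nat_lit 18) (nat_lit 0x1840bfa5f42ef17408ec463a26912e88443a12f895849a23d0014006001) (nat_lit 0)))))))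
def cl175 : RA := N (nat_lit 8767) (N (nat_lit 8755) (N (nat_lit 8754) (N (nat_lit 8751) (L (E (nat_lit 11) (nat_lit 0x30d1860c2e6103031810bfa5e40014006001) (nat_lit 0))) (N (nat_lit 8753) (N (nat_lit 8752) (L (E (nat_lit 44) (nat_lit 0x8d33fe1c28ddc6cf34a1862c2e60e2fa17b8bbc5d42dd96888d63761ad8d006142df16e0b585aa2cd1660b0857f2b91598aa05482a113c09bc4d025612a093046421a0014006001) (nat_lit 0))) (L (E (nat_lit 17) (nat_lit 0xf747b3278939c68233819b8cbc64c31c0ee873838e1bf0014006001) (nat_lit 0)))) (L (E (nat_lit 8) (nat_lit 0x4d225dd2cc57f2ac0014006001) (nat_lit 0))))) (L (E (nat_lit 6) (nat_lit 0x134857f2ac0014006001) (nat_lit 0)))) (N (nat_lit 8760) (N (nat_lit 8758) (N (nat_lit 8757) (N (nat_lit 8756) (L (E (nat_lit 10) (nat_lit 0x137e9a54bba59d18e8974420014006001) (nat_lit 0))) (L (E (nat_lit 9) (nat_lit 0x97e4bb259d1368972bf8014006001) (nat_lit 0)))) (L (E (nat_lit 8) (nat_lit 0x4b3a31d12e8842bf8014006001)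 (nat_lit 0)))) (N (nat_lit 8759) (L (E (nat_lit 7) (nat_lit 0x231d12e8842bf8014006001) (nat_lit 0))) (L (E (nat_lit 7) (nat_lit 0x259912857f2b78014006001) (nat_lit 0))))) (N (nat_lit 8764) (N (nat_lit 8762) (N (nat_lit 8761) (L (E (nat_lit 13) (nat_lit 0x9cf461229d12e89044216b0b5057f2b80014006001) (nat_lit 0))) (L (E (nat_lit 13) (nat_lit 0xc20607302980cbe03db93389704a624a0014006001) (nat_lit 0)))) (N (nat_lit 8763) (L (E (nat_lit 16) (nat_lit 0x47723b11d080a2cb9640b0857f2b915c0a8c3920a60014006001) (nat_lit 0))) (L (E (nat_lit 10) (nat_lit 0x137e976459a25d10885a2bf8014006001) (nat_lit 0))))) (N (nat_lit 8766) (N (nat_lit 8765) (L (E (nat_lit 12) (nat_lit 0x4dfa5d92ce8c2458225d10885a2bf8014006001) (nat_lit 0))) (L (E (nat_lit 15) (nat_lit 0x23191848b2458225d1085a82cc15fcade54629d0014006001) (nat_lit 0)))) (L (E (nat_lit 15) (nat_lit 0x4588ce464c3251880c1a5972c215fcae45702a30014006001) (nat_lit 0)))))))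 (N (nat_lit 8779) (N (nat_lit 8773) (N (nat_lit 8769) (N (nat_lit 8768) (L (E (nat_lit 7) (nat_lit 0x22c112e8842bf8014006001) (nat_lit 0))) (L (E (nat_lit 21) (nat_lit 0xd484bba59d22890246422c916084e3e51970c645aa2cc15fcade4941550014006001) (nat_lit 0)))) (N (nat_lit 8771) (N (nat_lit 8770) (L (E (nat_lit 14) (nat_lit 0x12fc9764b3a3191648b043f2178cb85732b78014006001) (nat_lit 0))) (L (E (nat_lit 18) (nat_lit 0x12fc9764b3a3191648b043f2178cb85aa2cc1610afe56f2a40014006001) (nat_lit 0)))) (N (nat_lit 8772) (L (E (nat_lit 12) (nat_lit 0x4bf259d18c8c2458225cb3057f2670014006001) (nat_lit 0))) (L (E (nat_lit 8) (nat_lit 0x4b3a50518e8972bf8014006001) (nat_lit 0)))))) (N (nat_lit 8775) (N (nat_lit 8774) (L (E (nat_lit 7) (nat_lit 0x22c112e57f2ac0014006001) (nat_lit 0))) (L (E (nat_lit 17) (nat_lit 0xfc47d23e51f24f886c735793709b44cf26292e89724af0014006001) (nat_lit 0)))) (N (nat_lit 8777) (N (nat_lit 8776)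 (L (E (nat_lit 11) (nat_lit 0x1688b2e5902be15e8ad45662a80014006001) (nat_lit 0))) (L (E (nat_lit 19) (nat_lit 0x3f11f28f927c43639abc9b84db26d133c9764ba25c92c895e4a90014006001) (nat_lit 0)))) (N (nat_lit 8778) (L (E (nat_lit 12) (nat_lit 0x4da26a12ce95e46322c0afe5582a10014006001) (nat_lit 0))) (L (E (nat_lit 8) (nat_lit 0x4bba59d18e57f2ac0014006001) (nat_lit 0))))))) (N (nat_lit 8785) (N (nat_lit 8782) (N (nat_lit 8781) (N (nat_lit 8780) (L (E (nat_lit 13) (nat_lit 0x9b44d425c92d49674af22c0b3057f2ac0014006001) (nat_lit 0))) (L (E (nat_lit 8) (nat_lit 0x4d2a6492ea96a4b38014006001) (nat_lit 0)))) (L (E (nat_lit 10) (nat_lit 0xafe57a2b79570a945462a10014006001) (nat_lit 0)))) (N (nat_lit 8784) (N (nat_lit 8783) (L (E (nat_lit 13) (nat_lit 0x9924bb25c92d496746a16a8afe57a2b78014006001) (nat_lit 0))) (L (E (nat_lit 6) (nat_lit 0x12ce57f2ac0014006001) (nat_lit 0)))) (L (E (nat_lit 13) (nat_lit 0x9a54bba59d18089b44b15f0ad45442990014006001)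 (nat_lit 0))))) (N (nat_lit 8787) (N (nat_lit 8786) (L (E (nat_lit 10) (nat_lit 0x13a49d04e5271134e9a24bb8014006001) (nat_lit 0))) (L (E (nat_lit 8) (nat_lit 0x4e9a30912857f2ac8014006001) (nat_lit 0)))) (N (nat_lit 8789) (N (nat_lit 8788) (L (E (nat_lit 16) (nat_lit 0x4e927113449904bba59d18089b44b15f0ad45442990014006001) (nat_lit 0))) (L (E (nat_lit 5) (nat_lit 0x9672bf8014006001) (nat_lit 0)))) (N (nat_lit 8790) (L (E (nat_lit 8) (nat_lit 0x4d125d91808602ac8014006001) (nat_lit 0))) (L (E (nat_lit 6) (nat_lit 0x12ec8602bf8014006001) (nat_lit 0))))))))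
def cl176 : RA := N (nat_lit 8701) (N (nat_lit 8614) (cl172) (N (nat_lit 8646) (N (nat_lit 8638) (N (nat_lit 8629) (N (nat_lit 8622) (N (nat_lit 8618) (N (nat_lit 8617) (N (nat_lit 8616) (N (nat_lit 8615) (L (E (nat_lit 15) (nat_lit 0x273d3489944c825f12f09764b41600ad455c2a38014006001) (nat_lit 0))) (L (E (nat_lit 14) (nat_lit 0x13489944c825f12ec96844b9600ade55c2a38014006001) (nat_lit 0)))) (L (E (nat_lit 12) (nat_lit 0x4d426513209684b3225cb005702b78014006001) (nat_lit 0)))) (L (E (nat_lit 15) (nat_lit 0x299139c9a54ca25f12f09764b41670ab85582a40014006001) (nat_lit 0)))) (N (nat_lit 8620) (N (nat_lit 8619) (L (E (nat_lit 11) (nat_lit 0x26a13289904b4259912e5802b80014006001) (nat_lit 0))) (L (E (nat_lit 15) (nat_lit 0x268d32097c4bb25d12d09664aba4e518e8c244b8014006001) (nat_lit 0)))) (N (nat_lit 8621) (L (E (nat_lit 10) (nat_lit 0x13509944c825a12cc8972b80014006001) (nat_lit 0))) (L (E (nat_lit 15) (nat_lit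 0x2a492f89684b122511008702cd1660b2456b2a38014006001) (nat_lit 0)))))) (N (nat_lit 8625) (N (nat_lit 8623) (L (E (nat_lit 9) (nat_lit 0x9a84c825a12cc8972b80014006001) (nat_lit 0))) (N (nat_lit 8624) (L (E (nat_lit 10) (nat_lit 0xafc5702b51570ab055429d0014006001) (nat_lit 0))) (L (E (nat_lit 22) (nat_lit 0x1524a064f327893c09c04d2a6492e49402e51700b245842bf15bcad455c2a38014006001) (nat_lit 0))))) (N (nat_lit 8627) (N (nat_lit 8626) (L (E (nat_lit 23) (nat_lit 0x2a4940c9e64f1270134a9924bea5c92ca8c644b9728b805922c215a8ab854729d0014006001) (nat_lit 0))) (L (E (nat_lit 30) (nat_lit 0x1810a9250327993c49c04d2a65d31097d4b925952088c644ba1810a86e02e51700b245842a394e89bc3400b68014006001) (nat_lit 0)))) (N (nat_lit 8628) (L (E (nat_lit 19) (nat_lit 0x2a114649a54c425d12e49403701610afe56f2ae1550a743e205e0014006001) (nat_lit 0))) (L (E (nat_lit 9) (nat_lit 0x5ab2c215fcae05552a30014006001) (nat_lit 0))))))) (N (nat_lit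 8634) (N (nat_lit 8631) (N (nat_lit 8630) (L (E (nat_lit 8) (nat_lit 0x4c825a12cc8972b80014006001) (nat_lit 0))) (L (E (nat_lit 10) (nat_lit 0x13489784bb231d15c8822bf8014006001) (nat_lit 0)))) (N (nat_lit 8632) (L (E (nat_lit 12) (nat_lit 0x69d26912ec962463a30915c89a44a0014006001) (nat_lit 0))) (N (nat_lit 8633) (L (E (nat_lit 9) (nat_lit 0x9684b3225cafc5702a30014006001) (nat_lit 0))) (L (E (nat_lit 8) (nat_lit 0x4d1a6452ec8972a38014006001) (nat_lit 0)))))) (N (nat_lit 8635) (L (E (nat_lit 7) (nat_lit 0x25a12cc8972b80014006001) (nat_lit 0))) (N (nat_lit 8637) (N (nat_lit 8636) (L (E (nat_lit 14) (nat_lit 0x13489a24bc25d92cc8e0463a2b910485e4270014006001) (nat_lit 0))) (L (E (nat_lit 8) (nat_lit 0x4d225d92d08972a38014006001) (nat_lit 0)))) (L (E (nat_lit 8) (nat_lit 0x4d225d92d096644b8014006001) (nat_lit 0))))))) (N (nat_lit 8643) (N (nat_lit 8640) (N (nat_lit 8639) (L (E (nat_lit 8) (nat_lit 0x4bba5a12cc8972ac0014006001)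 (nat_lit 0))) (L (E (nat_lit 16) (nat_lit 0x4dca6a134a9944bc259928e8c84592250afe5712a30014006001) (nat_lit 0)))) (N (nat_lit 8642) (N (nat_lit 8641) (L (E (nat_lit 15) (nat_lit 0x3119860c0e5f4231d18489a44ba218b0056e0a90014006001) (nat_lit 0))) (L (E (nat_lit 8) (nat_lit 0x895bfc16e68c81280014006001) (nat_lit 0)))) (L (E (nat_lit 9) (nat_lit 0x9b94b4259928e8972a30014006001) (nat_lit 0))))) (N (nat_lit 8644) (L (E (nat_lit 6) (nat_lit 0x12d096644b8014006001) (nat_lit 0))) (N (nat_lit 8645) (L (E (nat_lit 13) (nat_lit 0xa924d2a6552f09684b316b8b085702b70014006001) (nat_lit 0))) (L (E (nat_lit 13) (nat_lit 0x9944bc25a12cc8c7460a2090c05802ac0014006001) (nat_lit 0))))))) (cl173))) (N (nat_lit 8750) (N (nat_lit 8702) (L (E (nat_lit 4) (nat_lit 0x4bc8014006001) (nat_lit 0))) (cl174)) (N (nat_lit 8791) (cl175) (N (nat_lit 8792) (L (E (nat_lit 4) (nat_lit 0x2bf8014006001) (nat_lit 0))) (N (nat_lit 8804) (N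 (nat_lit 8800) (N (nat_lit 8795) (N (nat_lit 8794) (N (nat_lit 8793) (L (E (nat_lit 24) (nat_lit 0x4061f80b7c59a2c315c8ae056e2a314d09e04e4269134099c4be253126092847823b0014006001) (nat_lit 0))) (L (E (nat_lit 8) (nat_lit 0x4d125dd2cc8822ac8014006001) (nat_lit 0)))) (L (E (nat_lit 11) (nat_lit 0x278139c9ca4d3a3f91f88fa4778014006001) (nat_lit 0)))) (N (nat_lit 8798) (N (nat_lit 8797) (N (nat_lit 8796) (L (E (nat_lit 15) (nat_lit 0x273934e9a24bba45918c8c24582208b005592a10014006001) (nat_lit 0))) (L (E (nat_lit 9) (nat_lit 0x9a74bba30515e8822ac8014006001) (nat_lit 0)))) (L (E (nat_lit 16) (nat_lit 0x54829511908af44a22010bc7ca2c09564a8453c2940014006001) (nat_lit 0)))) (N (nat_lit 8799) (L (E (nat_lit 7) (nat_lit 0x26913449772ac8014006001) (nat_lit 0))) (L (E (nat_lit 18) (nat_lit 0x1c14d8e5e62e61500a5450e231d1368823251880bec5802ac8014006001) (nat_lit 0)))))) (N (nat_lit 8801) (L (E (nat_lit 6) (nat_lit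 0x13449772ac8014006001) (nat_lit 0))) (N (nat_lit 8802) (L (E (nat_lit 7) (nat_lit 0x23051668af44a0014006001) (nat_lit 0))) (N (nat_lit 8803) (L (E (nat_lit 17) (nat_lit 0x9a74d125f12ee96747723191848b245822711085802b70014006001) (nat_lit 0))) (L (E (nat_lit 10) (nat_lit 0x134497747723191085802b70014006001) (nat_lit 0))))))) (N (nat_lit 8813) (N (nat_lit 8807) (N (nat_lit 8806) (N (nat_lit 8805) (L (E (nat_lit 8) (nat_lit 0x4e026893209774b30014006001) (nat_lit 0))) (L (E (nat_lit 9) (nat_lit 0x9a24bba3191085802b70014006001) (nat_lit 0)))) (L (E (nat_lit 9) (nat_lit 0x5582aa9518a685302970014006001) (nat_lit 0)))) (N (nat_lit 8810) (N (nat_lit 8809) (N (nat_lit 8808) (L (E (nat_lit 12) (nat_lit 0x4d426892ee8c645922c112e8842c00014006001) (nat_lit 0))) (L (E (nat_lit 8) (nat_lit 0x4d126513209774b30014006001) (nat_lit 0)))) (L (E (nat_lit 9) (nat_lit 0x9a24bba3191608842c00014006001) (nat_lit 0)))) (N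 (nat_lit 8812) (N (nat_lit 8811) (L (E (nat_lit 8) (nat_lit 0x4d125dd18c8b02c00014006001) (nat_lit 0))) (L (E (nat_lit 12) (nat_lit 0x4d126312e88c744295bca8c5442a10014006001) (nat_lit 0)))) (L (E (nat_lit 9) (nat_lit 0x9a54bba59d18e8974420014006001) (nat_lit 0)))))) (N (nat_lit 8816) (N (nat_lit 8815) (N (nat_lit 8814) (L (E (nat_lit 9) (nat_lit 0x9a24bba59d1608972b78014006001) (nat_lit 0))) (L (E (nat_lit 7) (nat_lit 0x23b118e89a4360014006001) (nat_lit 0)))) (L (E (nat_lit 21) (nat_lit 0xf5c6cf3531a90d426172f215249be477231cbb45c02db96a8b5056f2ae0014006001) (nat_lit 0)))) (N (nat_lit 8818) (N (nat_lit 8817) (L (E (nat_lit 9) (nat_lit 0x59e2cd1658b085802ae0014006001) (nat_lit 0))) (L (E (nat_lit 20) (nat_lit 0x6cf3521a84c2e54926f91dc8ec463a3091285da2e016dcb545a82b78014006001) (nat_lit 0)))) (N (nat_lit 8819) (L (E (nat_lit 15) (nat_lit 0x30c185cc2060630217f491648222d91368824400014006001) (nat_lit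 0))) (L (E (nat_lit 29) (nat_lit 0xd9e6a130b9840c085fd2fa1798ba054926f92088ec463a30912e5b72cf1668b005722b79570a8e54225f0014006001) (nat_lit 0)))))))))))
def cl177 : RA := N (nat_lit 8852) (N (nat_lit 8840) (N (nat_lit 8829) (N (nat_lit 8825) (N (nat_lit 8822) (N (nat_lit 8821) (L (E (nat_lit 9) (nat_lit 0x5a82cd1648ade55d2a38014006001) (nat_lit 0))) (L (E (nat_lit 28) (nat_lit 0x6cf350985cc206042fe97d0bcc5d02a4937c8ff476231d12e5b72cf1668b005722b79570a8e54225f0014006001) (nat_lit 0)))) (N (nat_lit 8823) (L (E (nat_lit 7) (nat_lit 0x26892ee8b02b78014006001) (nat_lit 0))) (N (nat_lit 8824) (L (E (nat_lit 22) (nat_lit 0x185cc206042fe97d0bbc5d023b118e89744221d09e04e226812f897849a23d0014006001) (nat_lit 0))) (L (E (nat_lit 9) (nat_lit 0x9a24bba2c0b0055c2a38014006001) (nat_lit 0)))))) (N (nat_lit 8828) (N (nat_lit 8827) (N (nat_lit 8826) (L (E (nat_lit 13) (nat_lit 0x9d24e226892ee967463a25910486c4300014006001)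 (nat_lit 0))) (L (E (nat_lit 8) (nat_lit 0x4d125dd1605802ae0014006001) (nat_lit 0)))) (L (E (nat_lit 16) (nat_lit 0x6102fe97d0bbc5d023b118e89a44ba21097c49a23d0014006001) (nat_lit 0)))) (L (E (nat_lit 7) (nat_lit 0x26892ee8b02c00014006001) (nat_lit 0))))) (N (nat_lit 8835) (N (nat_lit 8832) (N (nat_lit 8831) (N (nat_lit 8830) (L (E (nat_lit 8) (nat_lit 0x4d125dcade55d2a38014006001) (nat_lit 0))) (L (E (nat_lit 7) (nat_lit 0x1610ade55d2a30014006001) (nat_lit 0)))) (L (E (nat_lit 14) (nat_lit 0x1a909c44d3a6892f89774b3a35918c8b24420014006001) (nat_lit 0)))) (N (nat_lit 8834) (N (nat_lit 8833) (L (E (nat_lit 8) (nat_lit 0x4d125dd1628842ae8014006001) (nat_lit 0))) (L (E (nat_lit 15) (nat_lit 0x29d93d09e04eb26952ee9523f0968ca9253c2990014006001) (nat_lit 0)))) (L (E (nat_lit 15) (nat_lit 0x35213449774591f88f945932c295bcad455c2958014006001) (nat_lit 0))))) (N (nat_lit 8838) (N (nat_lit 8837) (N (nat_lit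 8836) (L (E (nat_lit 14) (nat_lit 0x134497746322c913488443b1f88ade55c2a30014006001) (nat_lit 0))) (L (E (nat_lit 15) (nat_lit 0x3669b28d926c83579a908f247723b118c8b244e0014006001) (nat_lit 0)))) (L (E (nat_lit 28) (nat_lit 0x7ca3d19e50f1c77e3731b28d926c83639abcd4869534a1a48ac654229ed4dc71837716608b43ec0e80014006001) (nat_lit 0)))) (N (nat_lit 8839) (L (E (nat_lit 29) (nat_lit 0xfe07ea3841c08d9a6c835c1abcd3069434915249a8458a25cddc5b72cf1668b085722ae151ca744de1a30014006001) (nat_lit 0))) (L (E (nat_lit 7) (nat_lit 0x26892ee8842c00014006001) (nat_lit 0))))))) (N (nat_lit 8845) (N (nat_lit 8843) (N (nat_lit 8842) (N (nat_lit 8841) (L (E (nat_lit 11) (nat_lit 0x16a8b0057c2ae1560a905462940014006001) (nat_lit 0))) (L (E (nat_lit 10) (nat_lit 0x13a49d04e226893209774b38014006001) (nat_lit 0)))) (L (E (nat_lit 6) (nat_lit 0x13449772c00014006001) (nat_lit 0)))) (N (nat_lit 8844) (L (E (nat_lit 6) (nat_lit 0x115e8944428014006001)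 (nat_lit 0))) (L (E (nat_lit 9) (nat_lit 0x8c6460a2bd1348944410014006001) (nat_lit 0))))) (N (nat_lit 8848) (N (nat_lit 8847) (N (nat_lit 8846) (L (E (nat_lit 9) (nat_lit 0x9a24c825dd2ce9384630014006001) (nat_lit 0))) (L (E (nat_lit 10) (nat_lit 0x1fd4fd42d41648b0255f2a38014006001) (nat_lit 0)))) (L (E (nat_lit 6) (nat_lit 0x13449774630014006001) (nat_lit 0)))) (N (nat_lit 8850) (N (nat_lit 8849) (L (E (nat_lit 14) (nat_lit 0x11d88c7457a2090c05aa2d41604ab85582a40014006001) (nat_lit 0))) (L (E (nat_lit 11) (nat_lit 0x26892ee8c8459226910855c2a38014006001) (nat_lit 0)))) (N (nat_lit 8851) (L (E (nat_lit 19) (nat_lit 0x30b9840c085fd229914089b44ba2310b45aa2c095c4a904d02430014006001) (nat_lit 0))) (L (E (nat_lit 8) (nat_lit 0x4d125dd10855c2a38014006001) (nat_lit 0)))))))) (N (nat_lit 8859) (N (nat_lit 8856) (N (nat_lit 8854) (N (nat_lit 8853) (L (E (nat_lit 13) (nat_lit 0xd5469e274134c9924bba54913689743f8014006001)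 (nat_lit 0))) (L (E (nat_lit 11) (nat_lit 0x26e134497746b226d12e5a62990014006001) (nat_lit 0)))) (N (nat_lit 8855) (L (E (nat_lit 12) (nat_lit 0x4dc26892ee8d644ba210b4c55c2990014006001) (nat_lit 0))) (L (E (nat_lit 7) (nat_lit 0x26892ee8842ae0014006001) (nat_lit 0))))) (N (nat_lit 8858) (N (nat_lit 8857) (L (E (nat_lit 11) (nat_lit 0x27413449904bb9620ae455e2a50014006001) (nat_lit 0))) (L (E (nat_lit 10) (nat_lit 0x1344977470a258ae45702af0014006001) (nat_lit 0)))) (L (E (nat_lit 6) (nat_lit 0x13449774420014006001) (nat_lit 0))))) (L (E (nat_lit 5) (nat_lit 0x9a24bb8014006001) (nat_lit 0))))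
def cl178 : RA := N (nat_lit 8884) (N (nat_lit 8875) (N (nat_lit 8867) (N (nat_lit 8863) (N (nat_lit 8862) (N (nat_lit 8861) (L (E (nat_lit 16) (nat_lit 0x40e1fe0f747b42e61718b105842c09574ab054629c0014006001) (nat_lit 0))) (L (E (nat_lit 17) (nat_lit 0xf464d22358c945b82d59640aec56e2ac1540a644c80760014006001) (nat_lit 0)))) (L (E (nat_lit 7) (nat_lit 0x25dd18e8852c08014006001) (nat_lit 0)))) (N (nat_lit 8865) (N (nat_lit 8864) (L (E (nat_lit 18) (nat_lit 0x13c09cc4ca25dd2d08c7461226912e8924421730b945aa2c40014006001) (nat_lit 0))) (L (E (nat_lit 16) (nat_lit 0x4cc26292c49524a421e0f9c7ca3e015ccace54528e0014006001) (nat_lit 0)))) (N (nat_lit 8866) (L (E (nat_lit 16) (nat_lit 0x4bba31d12e8922e61728b545882c095a8a8c53228e0014006001) (nat_lit 0))) (L (E (nat_lit 10) (nat_lit 0x12ee8c746016a8b025582a30014006001) (nat_lit 0)))))) (N (nat_lit 8871) (N (nat_lit 8869) (N (nat_lit 8868) (L (E (nat_lit 16) (nat_lit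 0x4f426f93749b84d226412ee8b225511101c40ce0230014006001) (nat_lit 0))) (L (E (nat_lit 16) (nat_lit 0x79e27a13a09c44c825dd2ac8c83f31f38b025732a38014006001) (nat_lit 0)))) (N (nat_lit 8870) (L (E (nat_lit 13) (nat_lit 0x9944c825dcb545842c095c8abc55c2a38014006001) (nat_lit 0))) (L (E (nat_lit 12) (nat_lit 0x46f22bd12888244021c10d885e2aa0014006001) (nat_lit 0))))) (N (nat_lit 8873) (N (nat_lit 8872) (L (E (nat_lit 19) (nat_lit 0x269d3389944c425dd2e48de457a208cbc6583251850c246002aa0014006001) (nat_lit 0))) (L (E (nat_lit 9) (nat_lit 0x9d04bba31cb545812ac0014006001) (nat_lit 0)))) (N (nat_lit 8874) (L (E (nat_lit 12) (nat_lit 0x4e825dd18e8824361604abc5582a30014006001) (nat_lit 0))) (L (E (nat_lit 8) (nat_lit 0x4e825dd18e5812ac0014006001) (nat_lit 0))))))) (N (nat_lit 8879) (N (nat_lit 8876) (L (E (nat_lit 7) (nat_lit 0x231d1068602cb0014006001) (nat_lit 0))) (N (nat_lit 8877) (L (E (nat_lit 6) (nat_lit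 0x13a29774b38014006001) (nat_lit 0))) (N (nat_lit 8878) (L (E (nat_lit 17) (nat_lit 0x8ec47523791b08c846022d0fcc7e02cc1610b0255e2a38014006001) (nat_lit 0))) (L (E (nat_lit 13) (nat_lit 0x9d24bba5591d88c744b2208b505812ac0014006001) (nat_lit 0)))))) (N (nat_lit 8881) (N (nat_lit 8880) (L (E (nat_lit 7) (nat_lit 0x25dd18e5812ac0014006001) (nat_lit 0))) (L (E (nat_lit 13) (nat_lit 0xa7e4e926a12ee9662d41604ae65582a30014006001) (nat_lit 0)))) (N (nat_lit 8883) (N (nat_lit 8882) (L (E (nat_lit 10) (nat_lit 0x14a69d24d525f12ee9662aa8014006001) (nat_lit 0))) (L (E (nat_lit 9) (nat_lit 0x9d14bba20cb025582a30014006001) (nat_lit 0)))) (L (E (nat_lit 11) (nat_lit 0x25dd1848b0441964cadc55d2a10014006001) (nat_lit 0))))))) (N (nat_lit 8892) (N (nat_lit 8890) (N (nat_lit 8889) (N (nat_lit 8887) (N (nat_lit 8886) (N (nat_lit 8885) (L (E (nat_lit 10) (nat_lit 0x12068fe463230115e8834300014006001) (nat_lit 0))) (L (E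 (nat_lit 10) (nat_lit 0x13a09774301604ae45582a30014006001) (nat_lit 0)))) (L (E (nat_lit 15) (nat_lit 0x22c115c89a44b2251106674331197cc9c6483150014006001) (nat_lit 0)))) (N (nat_lit 8888) (L (E (nat_lit 18) (nat_lit 0x14fc9d24dd26a12ee939457220cc9062a2c41604aec5732ac0014006001) (nat_lit 0))) (L (E (nat_lit 15) (nat_lit 0x25dd2728ae44b18a8b105812bb15ccab05462990014006001) (nat_lit 0))))) (L (E (nat_lit 8) (nat_lit 0x4bba258b025582a30014006001) (nat_lit 0)))) (N (nat_lit 8891) (L (E (nat_lit 11) (nat_lit 0x25dd2cc93946ba31915e8822c08014006001) (nat_lit 0))) (L (E (nat_lit 6) (nat_lit 0x12ee5812ac0014006001) (nat_lit 0))))) (N (nat_lit 8899) (N (nat_lit 8896) (N (nat_lit 8894) (N (nat_lit 8893) (L (E (nat_lit 10) (nat_lit 0x13a4977463230915c56e2a38014006001) (nat_lit 0))) (L (E (nat_lit 11) (nat_lit 0x25dd2d28c646122c11348972b98014006001) (nat_lit 0)))) (N (nat_lit 8895) (L (E (nat_lit 15) (nat_lit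 0x23191848b2458226912e88444115c8ade55c2a40014006001) (nat_lit 0))) (L (E (nat_lit 10) (nat_lit 0xb085802b915c0abc55c2a38014006001) (nat_lit 0))))) (N (nat_lit 8898) (N (nat_lit 8897) (L (E (nat_lit 17) (nat_lit 0xbf64d325a52c88c6461230116089a44b95c8ade55c2a38014006001) (nat_lit 0))) (L (E (nat_lit 11) (nat_lit 0x274934e9774b4a3191848b044b8014006001) (nat_lit 0)))) (L (E (nat_lit 10) (nat_lit 0x13a497746323091608ae2a38014006001) (nat_lit 0))))) (N (nat_lit 8903) (N (nat_lit 8901) (N (nat_lit 8900) (L (E (nat_lit 12) (nat_lit 0x4b225011dc8c646122c112e87f2ac0014006001) (nat_lit 0))) (L (E (nat_lit 9) (nat_lit 0x97746323091608ae2a38014006001) (nat_lit 0)))) (N (nat_lit 8902) (L (E (nat_lit 10) (nat_lit 0x118e8c246022b912c8944410014006001) (nat_lit 0))) (L (E (nat_lit 12) (nat_lit 0x4e9a5dd2d28c244da25cb005472a10014006001) (nat_lit 0))))) (N (nat_lit 8905) (N (nat_lit 8904) (L (E (nat_lit 16) (nat_lit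 0x69d29d9474a2a50c28593809a84d326492f896a4b30014006001) (nat_lit 0))) (L (E (nat_lit 18) (nat_lit 0x1a74a7651d28a934c9a34c825a52c88c744b965ca7853a29a0014006001) (nat_lit 0)))) (L (E (nat_lit 11) (nat_lit 0x34e93a4977463a25cb005732a38014006001) (nat_lit 0)))))))
def cl179 : RA := N (nat_lit 8930) (N (nat_lit 8914) (N (nat_lit 8909) (N (nat_lit 8907) (L (E (nat_lit 6) (nat_lit 0x139e9774b48014006001) (nat_lit 0))) (N (nat_lit 8908) (L (E (nat_lit 10) (nat_lit 0xb085802b915a8ab85472a10014006001) (nat_lit 0))) (L (E (nat_lit 15) (nat_lit 0x278939c9b845922c115c5842c015c8ab85582a38014006001) (nat_lit 0))))) (N (nat_lit 8912) (N (nat_lit 8910) (L (E (nat_lit 7) (nat_lit 0x25dd2d25842ae8014006001) (nat_lit 0))) (N (nat_lit 8911) (L (E (nat_lit 12) (nat_lit 0x6c625dd2d28c244da25cb005732a38014006001) (nat_lit 0))) (L (E (nat_lit 12) (nat_lit 0x6c626e12ee8c246022c115c5802a38014006001) (nat_lit 0))))) (N (nat_lit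 8913) (L (E (nat_lit 9) (nat_lit 0x9984bba31d1868972a38014006001) (nat_lit 0))) (L (E (nat_lit 10) (nat_lit 0xb085802b915a8ab85582a38014006001) (nat_lit 0)))))) (N (nat_lit 8923) (N (nat_lit 8918) (N (nat_lit 8916) (N (nat_lit 8915) (L (E (nat_lit 18) (nat_lit 0x1d3cb764dfa5b92cc95247023791b063a31b18c855429c0a50014006001) (nat_lit 0))) (L (E (nat_lit 8) (nat_lit 0x4bba30d1608972a38014006001) (nat_lit 0)))) (N (nat_lit 8917) (L (E (nat_lit 10) (nat_lit 0x13da9a74bba2cd12c8822be0014006001) (nat_lit 0))) (L (E (nat_lit 8) (nat_lit 0x4e9a6992f89774b50014006001) (nat_lit 0))))) (N (nat_lit 8921) (N (nat_lit 8920) (N (nat_lit 8919) (L (E (nat_lit 21) (nat_lit 0x9ed4d425f12ee96a46222cd15c89f44b1f98f806302d71610b0055c2a38014006001) (nat_lit 0))) (L (E (nat_lit 35) (nat_lit 0x27d93e89ee4f427793749b84d4260d2fc9774b925a528c8ea46623111668ae44fa258fcc7c033f19a8b5c5802be1570ab05502a38014006001) (nat_lit 0))))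 (L (E (nat_lit 23) (nat_lit 0x27d93dc9e84dd26a134897c4bba33118c8c446022c115c89c44b2210b6e55c2a38014006001) (nat_lit 0)))) (N (nat_lit 8922) (L (E (nat_lit 10) (nat_lit 0x12ee9684ac1610b0055c2a38014006001) (nat_lit 0))) (L (E (nat_lit 11) (nat_lit 0x25dd1868b04422208b6e55c2a38014006001) (nat_lit 0)))))) (N (nat_lit 8927) (N (nat_lit 8925) (N (nat_lit 8924) (L (E (nat_lit 11) (nat_lit 0x26512ee9664572258b085802ae8014006001) (nat_lit 0))) (L (E (nat_lit 8) (nat_lit 0x4bba2c115c5802a38014006001) (nat_lit 0)))) (N (nat_lit 8926) (L (E (nat_lit 8) (nat_lit 0x46022cd12e8602c28014006001) (nat_lit 0))) (L (E (nat_lit 13) (nat_lit 0x8c645922c11348974421708b705932c00014006001) (nat_lit 0))))) (N (nat_lit 8929) (N (nat_lit 8928) (L (E (nat_lit 23) (nat_lit 0x3d89e0cb865a520a0f745902be15a8aa854427512207543641660ab853c15a0930014006001) (nat_lit 0))) (L (E (nat_lit 19) (nat_lit 0x26412ee96847123191648b044d225cb705ac2c996006c82ae0930014006001)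 (nat_lit 0)))) (L (E (nat_lit 14) (nat_lit 0x12ee8b04412180b0055d2ac1518a703640930014006001) (nat_lit 0))))))) (N (nat_lit 8943) (N (nat_lit 8935) (N (nat_lit 8932) (N (nat_lit 8931) (L (E (nat_lit 11) (nat_lit 0x22c91608972c99614b0055c2940014006001) (nat_lit 0))) (L (E (nat_lit 8) (nat_lit 0x47723191648b044b8014006001) (nat_lit 0)))) (N (nat_lit 8933) (L (E (nat_lit 10) (nat_lit 0x133c97c4bba31d1348973220014006001) (nat_lit 0))) (N (nat_lit 8934) (L (E (nat_lit 14) (nat_lit 0x12ee96747e23b918e8c244b9600ab84f026a0014006001) (nat_lit 0))) (L (E (nat_lit 17) (nat_lit 0xa7e4dd26912f89774a322c91608974411570ab05462940014006001) (nat_lit 0)))))) (N (nat_lit 8938) (N (nat_lit 8936) (L (E (nat_lit 8) (nat_lit 0x4bba2c115c8822ac0014006001) (nat_lit 0))) (N (nat_lit 8937) (L (E (nat_lit 11) (nat_lit 0x23011628972cc1610b005582a30014006001) (nat_lit 0))) (L (E (nat_lit 15) (nat_lit 0x2f7979899c4c425c92e0966461a2c51508974420014006001)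 (nat_lit 0))))) (N (nat_lit 8941) (N (nat_lit 8940) (N (nat_lit 8939) (L (E (nat_lit 9) (nat_lit 0x9904bba25cf9c5842ae0014006001) (nat_lit 0))) (L (E (nat_lit 9) (nat_lit 0x97744b9614ab854a2a38014006001) (nat_lit 0)))) (L (E (nat_lit 10) (nat_lit 0x12ee8b144ba210b0a5802ae0014006001) (nat_lit 0)))) (N (nat_lit 8942) (L (E (nat_lit 10) (nat_lit 0x13749a44c823011628974428014006001) (nat_lit 0))) (L (E (nat_lit 26) (nat_lit 0x1f84d9f6a634a5a4895247523311868b144ba2110fc87442e1974c9862631014c8a4c51e1b20014006001) (nat_lit 0))))))) (N (nat_lit 8950) (N (nat_lit 8947) (N (nat_lit 8946) (N (nat_lit 8945) (N (nat_lit 8944) (L (E (nat_lit 14) (nat_lit 0x13209774b3a2c512e63631316e0acc53228f0014006001) (nat_lit 0))) (L (E (nat_lit 9) (nat_lit 0x9774b322c912e5852ae8014006001) (nat_lit 0)))) (L (E (nat_lit 9) (nat_lit 0x97744ba2111045852b78014006001) (nat_lit 0)))) (L (E (nat_lit 9) (nat_lit 0x5842c015bcaba5582a30014006001)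 (nat_lit 0)))) (N (nat_lit 8948) (L (E (nat_lit 9) (nat_lit 0x977457225d1045802ac0014006001) (nat_lit 0))) (N (nat_lit 8949) (L (E (nat_lit 10) (nat_lit 0x12ee5aa2c31610b005722a38014006001) (nat_lit 0))) (L (E (nat_lit 12) (nat_lit 0x4e926492ee9392cf1614b005542a38014006001) (nat_lit 0)))))) (N (nat_lit 8954) (N (nat_lit 8952) (N (nat_lit 8951) (L (E (nat_lit 7) (nat_lit 0x25dd15c8822ac0014006001) (nat_lit 0))) (L (E (nat_lit 12) (nat_lit 0x4bba35d19288444116dcb085802ac0014006001) (nat_lit 0)))) (N (nat_lit 8953) (L (E (nat_lit 12) (nat_lit 0x4d3264932097c4b525992c887843a0014006001) (nat_lit 0))) (L (E (nat_lit 12) (nat_lit 0x48a236118080a3f31f88fc07de3e70014006001) (nat_lit 0))))) (N (nat_lit 8957) (N (nat_lit 8956) (N (nat_lit 8955) (L (E (nat_lit 10) (nat_lit 0x1fb0fc47d830317f0bcc4e98014006001) (nat_lit 0))) (L (E (nat_lit 18) (nat_lit 0x1fb0fc47d828592ee8d84641f98b5a5a82c21600ab85552a38014006001)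 (nat_lit 0)))) (L (E (nat_lit 17) (nat_lit 0xd4e6a630317cc95947223391988b631c18d8c646301b70014006001) (nat_lit 0)))) (N (nat_lit 8958) (L (E (nat_lit 22) (nat_lit 0x1af0c0c54829413269774b525991c88ce46622d91368823aa18c8c6036e1850014006001) (nat_lit 0))) (L (E (nat_lit 18) (nat_lit 0x1520a5452826993249904be25a92cc96444322111048743aa0014006001) (nat_lit 0))))))))
def cl180 : RA := N (nat_lit 9054) (N (nat_lit 9049) (N (nat_lit 9040) (N (nat_lit 9036) (N (nat_lit 9034) (N (nat_lit 9033) (L (E (nat_lit 9) (nat_lit 0x9a24c9a5a4adc56a2ac0014006001) (nat_lit 0))) (L (E (nat_lit 15) (nat_lit 0x26a13449924c826312f896647722111045812ae0014006001) (nat_lit 0)))) (N (nat_lit 9035) (L (E (nat_lit 18) (nat_lit 0x15249a84d126412d296247723611ac8822d716a8b345812b50014006001) (nat_lit 0))) (L (E (nat_lit 15) (nat_lit 0x26a13449924c825f11dc8844361678b0256b2a38014006001) (nat_lit 0))))) (N (nat_lit 9038) (N (nat_lit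 9037) (L (E (nat_lit 10) (nat_lit 0x13509a24c825f12cc8822c08014006001) (nat_lit 0))) (L (E (nat_lit 11) (nat_lit 0x268d1dc8b2457a26910888242f0014006001) (nat_lit 0)))) (N (nat_lit 9039) (L (E (nat_lit 14) (nat_lit 0x134697c4bb25a52728d7457a2111045ae2ac0014006001) (nat_lit 0))) (L (E (nat_lit 15) (nat_lit 0x268d3269684b125091648af44222090bc5812ac0014006001) (nat_lit 0)))))) (N (nat_lit 9044) (N (nat_lit 9042) (N (nat_lit 9041) (L (E (nat_lit 15) (nat_lit 0x26a13469904be259928c8d74422208b5c59a2c08014006001) (nat_lit 0))) (L (E (nat_lit 9) (nat_lit 0x9a84c825f12cc8822c08014006001) (nat_lit 0)))) (N (nat_lit 9043) (L (E (nat_lit 8) (nat_lit 0x4d1a5d915e8822c00014006001) (nat_lit 0))) (L (E (nat_lit 8) (nat_lit 0x4d426412f89664410014006001) (nat_lit 0))))) (N (nat_lit 9047) (N (nat_lit 9046) (N (nat_lit 9045) (L (E (nat_lit 7) (nat_lit 0x268d32a9664a30014006001) (nat_lit 0))) (L (E (nat_lit 15) (nat_lit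 0x268d3209764ba25a518c8b244e15b8ad45582a30014006001) (nat_lit 0)))) (L (E (nat_lit 10) (nat_lit 0x134899346322b91065582940014006001) (nat_lit 0)))) (N (nat_lit 9048) (L (E (nat_lit 18) (nat_lit 0x134c9874be25a12c68d6457a26912488342f1604ae05582770014006001) (nat_lit 0))) (L (E (nat_lit 16) (nat_lit 0x4d5264d2d4968457a26912488343a21810bc5812ac0014006001) (nat_lit 0))))))) (N (nat_lit 9051) (N (nat_lit 9050) (L (E (nat_lit 7) (nat_lit 0x26a132097c4b30014006001) (nat_lit 0))) (L (E (nat_lit 6) (nat_lit 0x135097c4b30014006001) (nat_lit 0)))) (N (nat_lit 9052) (L (E (nat_lit 6) (nat_lit 0x13509a24b30014006001) (nat_lit 0))) (N (nat_lit 9053) (L (E (nat_lit 6) (nat_lit 0x116288343a0014006001) (nat_lit 0))) (L (E (nat_lit 10) (nat_lit 0x11ae89a2e71698b005592a10014006001) (nat_lit 0))))))) (N (nat_lit 9070) (N (nat_lit 9062) (N (nat_lit 9058) (N (nat_lit 9056) (N (nat_lit 9055) (L (E (nat_lit 12) (nat_lit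 0x4dd26913209764b4252118089a2ac8014006001) (nat_lit 0))) (L (E (nat_lit 10) (nat_lit 0x132298c4bb23011348822ac8014006001) (nat_lit 0)))) (N (nat_lit 9057) (L (E (nat_lit 9) (nat_lit 0x123c2be12947083101530014006001) (nat_lit 0))) (L (E (nat_lit 24) (nat_lit 0x6fd2030fe87a82d31618b0056b2ac92d896849624311e070831015f0ab054c29c09b0014006001) (nat_lit 0))))) (N (nat_lit 9060) (N (nat_lit 9059) (L (E (nat_lit 22) (nat_lit 0x13e89e24e126e93709a84d2265131897e4b925a92d09664a4233118089a2ac8014006001) (nat_lit 0))) (L (E (nat_lit 10) (nat_lit 0x1bf457c2528e106202a609b0014006001) (nat_lit 0)))) (N (nat_lit 9061) (L (E (nat_lit 19) (nat_lit 0x27d13c49c44e126e934897e4b925a92d094849923011065802ac0014006001) (nat_lit 0))) (L (E (nat_lit 15) (nat_lit 0x26912d49684b325891888ae44b1818c086023000014006001) (nat_lit 0)))))) (N (nat_lit 9066) (N (nat_lit 9065) (N (nat_lit 9064) (N (nat_lit 9063) (L (E (nat_lit 23) (nat_lit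 0x357934899c4c425c92d49684b325592988c646222c115c8964411818c086023000014006001) (nat_lit 0))) (L (E (nat_lit 20) (nat_lit 0x4ce26212e49564a7253118c8b04411930c446063020bf85f82841410014006001) (nat_lit 0)))) (L (E (nat_lit 15) (nat_lit 0x27113709a84ce26452e494c46b9808b005471410014006001) (nat_lit 0)))) (L (E (nat_lit 11) (nat_lit 0x26a13489664b123091788a843f0014006001) (nat_lit 0)))) (N (nat_lit 9068) (N (nat_lit 9067) (L (E (nat_lit 18) (nat_lit 0x1b60d9e6c435c9a90a3e3301930c445a82d31688ade56b2ae0014006001) (nat_lit 0))) (L (E (nat_lit 21) (nat_lit 0xdb06b929913509a64c822cd15c8aa454225910a5a62d11600ade55c2a38014006001) (nat_lit 0)))) (N (nat_lit 9069) (L (E (nat_lit 18) (nat_lit 0x1b609b64ce26413109724b1a3b91d48c445822b912c5802a38014006001) (nat_lit 0))) (L (E (nat_lit 25) (nat_lit 0xdb06b929913c49e04dd26d93509a64d226713189884b923311808b04541a80b4c56f2a38014006001) (nat_lit 0))))))) (N (nat_lit 9077)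 (N (nat_lit 9073) (N (nat_lit 9072) (N (nat_lit 9071) (L (E (nat_lit 29) (nat_lit 0xa0850328094009f44f127113849b64d426993389944c925f92e496a4b4259929894849923311345802ae0014006001) (nat_lit 0))) (L (E (nat_lit 17) (nat_lit 0xdb05c027093308dc46ba2c512c7ba2cb15b8ab85580aa0014006001) (nat_lit 0)))) (L (E (nat_lit 8) (nat_lit 0x46ba3111848b04570014006001) (nat_lit 0)))) (N (nat_lit 9075) (N (nat_lit 9074) (L (E (nat_lit 18) (nat_lit 0x1bc88d745822b913c89644921d10987e62c095acab85472560014006001) (nat_lit 0))) (L (E (nat_lit 9) (nat_lit 0x8d8459a214b5a56e2b50014006001) (nat_lit 0)))) (N (nat_lit 9076) (L (E (nat_lit 18) (nat_lit 0x1bc89b64c8258d18a89a44b22150e87e62d71604ab85472560014006001) (nat_lit 0))) (L (E (nat_lit 27) (nat_lit 0x37917009c24dd26d93509984ca264932098c4b425991808ae44121d0fcc5ae2c09570ab05472560014006001) (nat_lit 0)))))) (N (nat_lit 9082) (N (nat_lit 9080) (N (nat_lit 9079) (N (nat_lit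 9078) (L (E (nat_lit 19) (nat_lit 0x26d93509a44ca26312ec8d7462a2c9134896442a208b5c5812ae0014006001) (nat_lit 0))) (L (E (nat_lit 18) (nat_lit 0x1bc89b64d1a58d18a8b3457225910a8823f31604ab85582560014006001) (nat_lit 0)))) (L (E (nat_lit 21) (nat_lit 0xde44db26a132896646ba2c115c89a44b22090c27e62d71604ab85582560014006001) (nat_lit 0)))) (N (nat_lit 9081) (L (E (nat_lit 18) (nat_lit 0x1bc89c24db26a13309944b425991988ae4411604ab85582560014006001) (nat_lit 0))) (L (E (nat_lit 8) (nat_lit 0x46123011628924418014006001) (nat_lit 0))))) (N (nat_lit 9083) (L (E (nat_lit 9) (nat_lit 0x89a449220d0fc8754258014006001) (nat_lit 0))) (N (nat_lit 9084) (L (E (nat_lit 12) (nat_lit 0x53d28f9474a2c4c59910c3c60e2fa0014006001) (nat_lit 0))) (L (E (nat_lit 20) (nat_lit 0x53d28f9474a2c4fa22c115c8ab44d220d0b47f430f1838be84de2650014006001) (nat_lit 0))))))))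
def cl181 : RA := N (nat_lit 9134) (N (nat_lit 9122) (N (nat_lit 9120) (N (nat_lit 9115) (N (nat_lit 9113) (N (nat_lit 9112) (L (E (nat_lit 11) (nat_lit 0x22c91348974422178b3058029c0014006001) (nat_lit 0))) (L (E (nat_lit 9) (nat_lit 0x9a54bf25a91368972c00014006001) (nat_lit 0)))) (N (nat_lit 9114) (L (E (nat_lit 9) (nat_lit 0x8b244ba210b0057c29c0014006001) (nat_lit 0))) (L (E (nat_lit 9) (nat_lit 0x8c7461225d10a57c2b78014006001) (nat_lit 0))))) (N (nat_lit 9118) (N (nat_lit 9117) (N (nat_lit 9116) (L (E (nat_lit 23) (nat_lit 0x30b17b4bb247d23a11a88c646022c912e85e4141b78b585932aa15109d42cc1570014006001) (nat_lit 0))) (L (E (nat_lit 8) (nat_lit 0x4d2a2c912e8852b78014006001) (nat_lit 0)))) (L (E (nat_lit 8) (nat_lit 0x459225cb005382940014006001) (nat_lit 0)))) (N (nat_lit 9119) (L (E (nat_lit 9) (nat_lit 0x8c744ba214ae656e2b50014006001) (nat_lit 0))) (L (E (nat_lit 11) (nat_lit 0x28e93708c744d225d1085812990014006001)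 (nat_lit 0)))))) (N (nat_lit 9121) (L (E (nat_lit 5) (nat_lit 0x8b244b8014006001) (nat_lit 0))) (L (E (nat_lit 4) (nat_lit 0x44b8014006001) (nat_lit 0))))) (N (nat_lit 9127) (N (nat_lit 9124) (N (nat_lit 9123) (L (E (nat_lit 4) (nat_lit 0x4598014006001) (nat_lit 0))) (L (E (nat_lit 9) (nat_lit 0x8dc463230515e89a4420014006001) (nat_lit 0)))) (N (nat_lit 9125) (L (E (nat_lit 7) (nat_lit 0x23191085802ac0014006001) (nat_lit 0))) (N (nat_lit 9126) (L (E (nat_lit 6) (nat_lit 0x10607cd3d50014006001) (nat_lit 0))) (L (E (nat_lit 8) (nat_lit 0x4bb231915e8842c00014006001) (nat_lit 0)))))) (N (nat_lit 9130) (N (nat_lit 9129) (N (nat_lit 9128) (L (E (nat_lit 7) (nat_lit 0x231915e8842c00014006001) (nat_lit 0))) (L (E (nat_lit 6) (nat_lit 0x118c8842c00014006001) (nat_lit 0)))) (L (E (nat_lit 8) (nat_lit 0x4571600ad45592a48014006001) (nat_lit 0)))) (N (nat_lit 9132) (N (nat_lit 9131) (L (E (nat_lit 24) (nat_lit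 0x86c39e165ca0650227f93f89f44e926a111e7cc2e61714b725aa2c21600a844a81210014006001) (nat_lit 0))) (L (E (nat_lit 25) (nat_lit 0xa0650227f93f89f44f427492f89774b525611f88ee4612218f9c5c02dc9670b005592a48014006001) (nat_lit 0)))) (N (nat_lit 9133) (L (E (nat_lit 15) (nat_lit 0x25f12ee8fc46c233910c8843e71624b0056a2ac8014006001) (nat_lit 0))) (L (E (nat_lit 5) (nat_lit 0x5802ac8014006001) (nat_lit 0)))))))) (N (nat_lit 9141) (N (nat_lit 9136) (N (nat_lit 9135) (L (E (nat_lit 5) (nat_lit 0x8842c00014006001) (nat_lit 0))) (L (E (nat_lit 4) (nat_lit 0x2c00014006001) (nat_lit 0)))) (N (nat_lit 9140) (N (nat_lit 9138) (N (nat_lit 9137) (L (E (nat_lit 4) (nat_lit 0x4428014006001) (nat_lit 0))) (L (E (nat_lit 8) (nat_lit 0x463230515e89a2ac0014006001) (nat_lit 0)))) (N (nat_lit 9139) (L (E (nat_lit 12) (nat_lit 0x51d26e131a9734a123b918c89b43d0014006001) (nat_lit 0))) (L (E (nat_lit 5) (nat_lit 0x8c62ac0014006001)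 (nat_lit 0))))) (L (E (nat_lit 4) (nat_lit 0x2ac0014006001) (nat_lit 0))))) (N (nat_lit 9148) (N (nat_lit 9144) (N (nat_lit 9142) (L (E (nat_lit 6) (nat_lit 0x16dc9764778014006001) (nat_lit 0))) (N (nat_lit 9143) (L (E (nat_lit 10) (nat_lit 0x12ec8d84602248b305922c20014006001) (nat_lit 0))) (L (E (nat_lit 6) (nat_lit 0x12ec8802cc8014006001) (nat_lit 0))))) (N (nat_lit 9146) (N (nat_lit 9145) (L (E (nat_lit 9) (nat_lit 0xb6e4bb23611805922c20014006001) (nat_lit 0))) (L (E (nat_lit 13) (nat_lit 0xd784e925dd2e45c72d51660b245842b50014006001) (nat_lit 0)))) (N (nat_lit 9147) (L (E (nat_lit 13) (nat_lit 0xd784e925f92ee9722e396a8b4c5922c20014006001) (nat_lit 0))) (L (E (nat_lit 8) (nat_lit 0x4c61660b085722a58014006001) (nat_lit 0)))))) (N (nat_lit 9150) (N (nat_lit 9149) (L (E (nat_lit 4) (nat_lit 0x4638014006001) (nat_lit 0))) (L (E (nat_lit 4) (nat_lit 0x4600014006001) (nat_lit 0)))) (N (nat_lit 9152)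 (N (nat_lit 9151) (L (E (nat_lit 6) (nat_lit 0xb305922c20014006001) (nat_lit 0))) (L (E (nat_lit 5) (nat_lit 0x5982c90014006001) (nat_lit 0)))) (N (nat_lit 9153) (L (E (nat_lit 4) (nat_lit 0x2c98014006001) (nat_lit 0))) (L (E (nat_lit 3) (nat_lit 0x14006001) (nat_lit 0))))))))
def cl182 : RA := N (nat_lit 9085) (N (nat_lit 9032) (N (nat_lit 9010) (N (nat_lit 8998) (N (nat_lit 8996) (L (E (nat_lit 8) (nat_lit 0x4d426452f896644b0014006001) (nat_lit 0))) (N (nat_lit 8997) (L (E (nat_lit 9) (nat_lit 0x9944c9264131897c4bb0014006001) (nat_lit 0))) (L (E (nat_lit 8) (nat_lit 0x4bb235d1608ae2ac8014006001) (nat_lit 0))))) (N (nat_lit 9005) (N (nat_lit 9003) (N (nat_lit 9000) (N (nat_lit 8999) (L (E (nat_lit 9) (nat_lit 0x9a84be259915c8822ac8014006001) (nat_lit 0))) (L (E (nat_lit 10) (nat_lit 0x13489954bb25a515e8822ac8014006001) (nat_lit 0)))) (N (nat_lit 9002) (N (nat_lit 9001) (L (E (nat_lit 19) (nat_lit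 0x47623a4fec7f43f61f94fc87e13e51ef4dfa6f035852ca5591e10014006001) (nat_lit 0))) (L (E (nat_lit 12) (nat_lit 0x8ec47493509a44ca25a51828822ac8014006001) (nat_lit 0)))) (L (E (nat_lit 12) (nat_lit 0x8ec47493509a44be25a52cc8822ac8014006001) (nat_lit 0))))) (N (nat_lit 9004) (L (E (nat_lit 16) (nat_lit 0x4d1a6412f896a4b425990fe5812b51520a8c5442940014006001) (nat_lit 0))) (L (E (nat_lit 7) (nat_lit 0x26912ec8c244a16ac006001) (nat_lit 0))))) (N (nat_lit 9007) (N (nat_lit 9006) (L (E (nat_lit 9) (nat_lit 0x5aa2d31610b0256b2ac8014006001) (nat_lit 0))) (L (E (nat_lit 14) (nat_lit 0x1abc98c4bb235d10888243d1fd0b023820a10014006001) (nat_lit 0)))) (N (nat_lit 9009) (N (nat_lit 9008) (L (E (nat_lit 16) (nat_lit 0x4d1a6412d49684b3235d1368822c095c0ad45592a40014006001) (nat_lit 0))) (L (E (nat_lit 9) (nat_lit 0x9a84d225f12cc8822ac8014006001) (nat_lit 0)))) (L (E (nat_lit 8) (nat_lit 0x4d426912f89662ac8014006001)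 (nat_lit 0))))))) (N (nat_lit 9019) (N (nat_lit 9012) (N (nat_lit 9011) (L (E (nat_lit 7) (nat_lit 0x26a12f89662ac8014006001) (nat_lit 0))) (L (E (nat_lit 17) (nat_lit 0x111e7853c09dc8db46c7235915e8822c015c8ae05482a38014006001) (nat_lit 0)))) (N (nat_lit 9014) (N (nat_lit 9013) (L (E (nat_lit 7) (nat_lit 0x26a134a97c4b30014006001) (nat_lit 0))) (L (E (nat_lit 11) (nat_lit 0x26b93489934bb225d1085802be0014006001) (nat_lit 0)))) (N (nat_lit 9017) (N (nat_lit 9016) (N (nat_lit 9015) (L (E (nat_lit 10) (nat_lit 0x13509a24c8259912e5802b58014006001) (nat_lit 0))) (L (E (nat_lit 10) (nat_lit 0x13509904b3225d1045802b58014006001) (nat_lit 0)))) (L (E (nat_lit 11) (nat_lit 0x268d3289904bb25a4b305842b90014006001) (nat_lit 0)))) (N (nat_lit 9018) (L (E (nat_lit 12) (nat_lit 0x4d426412f8966459a25cb305802b50014006001) (nat_lit 0))) (L (E (nat_lit 10) (nat_lit 0x13729a44bb22c512e56f2b50014006001) (nat_lit 0)))))))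 (N (nat_lit 9026) (N (nat_lit 9023) (N (nat_lit 9021) (N (nat_lit 9020) (L (E (nat_lit 9) (nat_lit 0x9a84c8259912e8822c00014006001) (nat_lit 0))) (L (E (nat_lit 11) (nat_lit 0x26a13469904bb25a52728822c00014006001) (nat_lit 0)))) (N (nat_lit 9022) (L (E (nat_lit 11) (nat_lit 0x26a132097c4b322b91088822c00014006001) (nat_lit 0))) (L (E (nat_lit 16) (nat_lit 0x4d1a6412f896348123211688822d41648b0056a2a38014006001) (nat_lit 0))))) (N (nat_lit 9025) (N (nat_lit 9024) (L (E (nat_lit 10) (nat_lit 0x13469934b1a408b2456f2a38014006001) (nat_lit 0))) (L (E (nat_lit 10) (nat_lit 0x13509904be259915c8822c00014006001) (nat_lit 0)))) (L (E (nat_lit 13) (nat_lit 0x9aa4d4268d32097c4b322b912c8824360014006001) (nat_lit 0))))) (N (nat_lit 9031) (N (nat_lit 9029) (N (nat_lit 9028) (N (nat_lit 9027) (L (E (nat_lit 11) (nat_lit 0x231d1848ae44221b0ad655e2ac0014006001) (nat_lit 0))) (L (E (nat_lit 15) (nat_lit 0x294118e8974361698b345812b81584aaa5472550014006001)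 (nat_lit 0)))) (L (E (nat_lit 10) (nat_lit 0x13469934b325891c48972c08014006001) (nat_lit 0)))) (N (nat_lit 9030) (L (E (nat_lit 11) (nat_lit 0x26a13469904be25992c48ae4410014006001) (nat_lit 0))) (L (E (nat_lit 10) (nat_lit 0x13509a34c825f12cc8ae4410014006001) (nat_lit 0))))) (L (E (nat_lit 9) (nat_lit 0x9a84c825f12cc8ae4410014006001) (nat_lit 0))))))) (cl180)) (N (nat_lit 9111) (N (nat_lit 9100) (N (nat_lit 9099) (N (nat_lit 9092) (N (nat_lit 9090) (N (nat_lit 9088) (N (nat_lit 9087) (N (nat_lit 9086) (L (E (nat_lit 20) (nat_lit 0x51d28b13e89a34c8a3a91d08d6462a26912488342d1878be84de2650014006001) (nat_lit 0))) (L (E (nat_lit 28) (nat_lit 0x51d27d13849a34ce26613289924c426092e4963462a2c115c89a449220cc3c5ca2ce1604aec5582990014006001) (nat_lit 0)))) (L (E (nat_lit 35) (nat_lit 0x3791410a0650128013e89e24e2270936c9a84d326713309944c926092fc9724b525a12cc94c4a424c91988ae44d1728ab85582560014006001) (nat_lit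 0)))) (N (nat_lit 9089) (L (E (nat_lit 11) (nat_lit 0x1640b0257c2b51528a8c5442a10014006001) (nat_lit 0))) (L (E (nat_lit 13) (nat_lit 0x9a64d225a11988af441a1d0ab85582460014006001) (nat_lit 0))))) (N (nat_lit 9091) (L (E (nat_lit 11) (nat_lit 0x268d2ec8b2457a26910888242f0014006001) (nat_lit 0))) (L (E (nat_lit 5) (nat_lit 0x9a84b30014006001) (nat_lit 0))))) (N (nat_lit 9095) (N (nat_lit 9093) (L (E (nat_lit 5) (nat_lit 0x9664578014006001) (nat_lit 0))) (N (nat_lit 9094) (L (E (nat_lit 11) (nat_lit 0x2a114fc6e02ce1648b025471a00014006001) (nat_lit 0))) (L (E (nat_lit 7) (nat_lit 0x25991608964410014006001) (nat_lit 0))))) (N (nat_lit 9097) (N (nat_lit 9096) (L (E (nat_lit 8) (nat_lit 0x4d326513249764b48014006001) (nat_lit 0))) (L (E (nat_lit 6) (nat_lit 0x12d096644b8014006001) (nat_lit 0)))) (N (nat_lit 9098) (L (E (nat_lit 6) (nat_lit 0x12cc8b044b0014006001) (nat_lit 0))) (L (E (nat_lit 7) (nat_lit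 0x230116288342f0014006001) (nat_lit 0))))))) (L (E (nat_lit 4) (nat_lit 0x4b30014006001) (nat_lit 0)))) (N (nat_lit 9110) (N (nat_lit 9106) (N (nat_lit 9103) (N (nat_lit 9102) (N (nat_lit 9101) (L (E (nat_lit 10) (nat_lit 0x131897c4bb25d118089a2ac8014006001) (nat_lit 0))) (L (E (nat_lit 10) (nat_lit 0x11ae7b62d51698b0256b2ac8014006001) (nat_lit 0)))) (L (E (nat_lit 5) (nat_lit 0x8b144b0014006001) (nat_lit 0)))) (N (nat_lit 9105) (N (nat_lit 9104) (L (E (nat_lit 7) (nat_lit 0x264932098c4b18014006001) (nat_lit 0))) (L (E (nat_lit 12) (nat_lit 0x4d2264932098c4a323191648972c00014006001) (nat_lit 0)))) (L (E (nat_lit 10) (nat_lit 0x134894646323051648974420014006001) (nat_lit 0))))) (N (nat_lit 9108) (N (nat_lit 9107) (L (E (nat_lit 10) (nat_lit 0x1348946458a2a91085802b50014006001) (nat_lit 0))) (L (E (nat_lit 6) (nat_lit 0x13488b12b78014006001) (nat_lit 0)))) (N (nat_lit 9109) (L (E (nat_lit 12) (nat_lit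 0x46322c912e8852be15c8ade55c2940014006001) (nat_lit 0))) (L (E (nat_lit 9) (nat_lit 0x98d46e230916256f2ae0014006001) (nat_lit 0)))))) (L (E (nat_lit 4) (nat_lit 0x4588014006001) (nat_lit 0))))) (cl181))
def cl183 : RA := N (nat_lit 8995) (N (nat_lit 8906) (N (nat_lit 8860) (cl177) (cl178)) (N (nat_lit 8959) (cl179) (N (nat_lit 8980) (N (nat_lit 8964) (N (nat_lit 8960) (L (E (nat_lit 6) (nat_lit 0x12ee8822ac0014006001) (nat_lit 0))) (N (nat_lit 8962) (N (nat_lit 8961) (L (E (nat_lit 14) (nat_lit 0x14f49904bba5992725a62c21600af85462940014006001) (nat_lit 0))) (L (E (nat_lit 12) (nat_lit 0x4be25dd2cc9392c21600ab05462940014006001) (nat_lit 0)))) (N (nat_lit 8963) (L (E (nat_lit 18) (nat_lit 0x1a989f94caa6452ee9684b323c91d48c644e225910087e4380014006001) (nat_lit 0))) (L (E (nat_lit 23) (nat_lit 0x3681b28d926c63579a98d3655c29e94d4a6752828e9458a1850b26592ac9462af8014006001) (nat_lit 0)))))) (N (nat_lit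 8975) (N (nat_lit 8970) (N (nat_lit 8967) (N (nat_lit 8966) (N (nat_lit 8965) (L (E (nat_lit 20) (nat_lit 0x6c629f94f4a5051d28593f29914bba5a129094646322c11548832af8014006001) (nat_lit 0))) (L (E (nat_lit 17) (nat_lit 0xd8c53f29e93ec9ee4c8a5f12ee9484a31698b0a55829c0014006001) (nat_lit 0)))) (L (E (nat_lit 12) (nat_lit 0x6af26713209884b925911628944418014006001) (nat_lit 0)))) (N (nat_lit 8969) (N (nat_lit 8968) (L (E (nat_lit 14) (nat_lit 0x139c99c4cc26513249774419620b0a56f2ae8014006001) (nat_lit 0))) (L (E (nat_lit 14) (nat_lit 0x14889ce4ce26613209884bba5a8b0a5582a40014006001) (nat_lit 0)))) (L (E (nat_lit 10) (nat_lit 0x11548944419618ae45592a40014006001) (nat_lit 0))))) (N (nat_lit 8973) (N (nat_lit 8972) (N (nat_lit 8971) (L (E (nat_lit 14) (nat_lit 0x13289904be25dd2d48c645722591088822ac8014006001) (nat_lit 0))) (L (E (nat_lit 17) (nat_lit 0xa444e726713309904c425f12ee96a4b323011085852a40014006001)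 (nat_lit 0)))) (L (E (nat_lit 15) (nat_lit 0x26993249904b525992c889b43a1610abc55929c0014006001) (nat_lit 0)))) (N (nat_lit 8974) (L (E (nat_lit 13) (nat_lit 0xaaa53f29994a8a442cd1658b245732ac8014006001) (nat_lit 0))) (L (E (nat_lit 11) (nat_lit 0x291134e9944bb9648b085592a40014006001) (nat_lit 0)))))) (N (nat_lit 8979) (N (nat_lit 8978) (N (nat_lit 8977) (N (nat_lit 8976) (L (E (nat_lit 12) (nat_lit 0x4ab25391808af44121fcb365592a40014006001) (nat_lit 0))) (L (E (nat_lit 8) (nat_lit 0x4c825dd2cc8822c20014006001) (nat_lit 0)))) (L (E (nat_lit 9) (nat_lit 0x977460220cb085592a40014006001) (nat_lit 0)))) (L (E (nat_lit 16) (nat_lit 0x52227393389984c826212f89774b525991808842a40014006001) (nat_lit 0)))) (L (E (nat_lit 5) (nat_lit 0x97744b8014006001) (nat_lit 0)))))) (N (nat_lit 8994) (N (nat_lit 8987) (N (nat_lit 8983) (N (nat_lit 8981) (L (E (nat_lit 5) (nat_lit 0x9772ac0014006001) (nat_lit 0))) (N (nat_lit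 8982) (L (E (nat_lit 7) (nat_lit 0x29514a0a4351d0014006001) (nat_lit 0))) (L (E (nat_lit 12) (nat_lit 0x6b23539a2ca6652a28b0cc065e32e196800a001) (nat_lit 0))))) (N (nat_lit 8985) (N (nat_lit 8984) (L (E (nat_lit 23) (nat_lit 0x353952ca3a51ca8b13f29ba4dc26a12ee9684a425191e48c645822a910665e32d0014006001) (nat_lit 0))) (L (E (nat_lit 6) (nat_lit 0x12ee8832c28014006001) (nat_lit 0)))) (N (nat_lit 8986) (L (E (nat_lit 11) (nat_lit 0x27093749774b422c51065862c20014006001) (nat_lit 0))) (L (E (nat_lit 18) (nat_lit 0x17eca004f1a6e93249774a224591808ae44da20cae65492660014006001) (nat_lit 0)))))) (N (nat_lit 8990) (N (nat_lit 8988) (L (E (nat_lit 6) (nat_lit 0x12ee9664418014006001) (nat_lit 0))) (N (nat_lit 8989) (L (E (nat_lit 12) (nat_lit 0x4b3230d10259c2cc1618ae456a2ac8014006001) (nat_lit 0))) (L (E (nat_lit 10) (nat_lit 0x13229774b3235d0c25842a48014006001) (nat_lit 0))))) (N (nat_lit 8992) (N (nat_lit 8991)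 (L (E (nat_lit 10) (nat_lit 0x132297c4bba5991ae8612c20014006001) (nat_lit 0))) (L (E (nat_lit 9) (nat_lit 0x9ba4be25dd2cc8c02c20014006001) (nat_lit 0)))) (N (nat_lit 8993) (L (E (nat_lit 6) (nat_lit 0x13209774b30014006001) (nat_lit 0))) (L (E (nat_lit 15) (nat_lit 0x36d1b40d8c6af354132296949ca35d16489a42f0014006001) (nat_lit 0))))))) (L (E (nat_lit 5) (nat_lit 0x9774b30014006001) (nat_lit 0))))))) (cl182)
def cl184 : RA := N (nat_lit 6892) (N (nat_lit 5979) (N (nat_lit 5677) (N (nat_lit 5555) (cl111) (N (nat_lit 5601) (cl112) (cl113))) (N (nat_lit 5813) (N (nat_lit 5768) (N (nat_lit 5724) (cl114) (cl115)) (cl116)) (cl119))) (N (nat_lit 6432) (cl128) (N (nat_lit 6615) (cl132) (N (nat_lit 6749) (cl135) (N (nat_lit 6805) (cl136) (N (nat_lit 6846) (cl137) (cl138))))))) (N (nat_lit 8021) (N (nat_lit 7442) (N (nat_lit 7180) (N (nat_lit 7057) (cl141) (N (nat_lit 7083) (N (nat_lit 7077) (N (nat_lit 7076)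 (N (nat_lit 7064) (N (nat_lit 7060) (N (nat_lit 7059) (N (nat_lit 7058) (L (E (nat_lit 6) (nat_lit 0x12f28b04570014006001) (nat_lit 0))) (L (E (nat_lit 10) (nat_lit 0x11848b144b2210afe56e2ac0014006001) (nat_lit 0)))) (L (E (nat_lit 8) (nat_lit 0x2e116e8b705972c98014006001) (nat_lit 0)))) (N (nat_lit 7062) (N (nat_lit 7061) (L (E (nat_lit 15) (nat_lit 0x35e9ae49a84d2a6492f25aa2cf9658b2656c2b50014006001) (nat_lit 0))) (L (E (nat_lit 15) (nat_lit 0x35e9ae49a84d2a6492f259f2cb164cafc56c2b50014006001) (nat_lit 0)))) (N (nat_lit 7063) (L (E (nat_lit 13) (nat_lit 0x9ce4df26e93709a84d1264931897e4bc8014006001) (nat_lit 0))) (L (E (nat_lit 5) (nat_lit 0x9792b78014006001) (nat_lit 0)))))) (N (nat_lit 7070) (N (nat_lit 7067) (N (nat_lit 7066) (N (nat_lit 7065) (L (E (nat_lit 10) (nat_lit 0x11848ae44b2210b0056e2a38014006001) (nat_lit 0))) (L (E (nat_lit 12) (nat_lit 0x4c925e51888ae44d15f8ae056c2a30014006001)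 (nat_lit 0)))) (L (E (nat_lit 12) (nat_lit 0x4dd268931897e4bc965cae056d2a30014006001) (nat_lit 0)))) (N (nat_lit 7069) (N (nat_lit 7068) (L (E (nat_lit 13) (nat_lit 0x9ba4d126312fc9792d415c0ada54a2a30014006001) (nat_lit 0))) (L (E (nat_lit 9) (nat_lit 0x9a54c625e516256d2a30014006001) (nat_lit 0)))) (L (E (nat_lit 12) (nat_lit 0x74522c513c89643a9ff8f5455f0990014006001) (nat_lit 0))))) (N (nat_lit 7073) (N (nat_lit 7072) (N (nat_lit 7071) (L (E (nat_lit 14) (nat_lit 0x17c0b98441a030fe47b63d313209684a423c0014006001) (nat_lit 0))) (L (E (nat_lit 21) (nat_lit 0xe8a5f02e6116289644922191087f23db16a4b205852b692d08f02820990014006001) (nat_lit 0)))) (L (E (nat_lit 10) (nat_lit 0x11dc8de46e23191888ae44b0014006001) (nat_lit 0)))) (N (nat_lit 7075) (N (nat_lit 7074) (L (E (nat_lit 23) (nat_lit 0x2f8173096846c22c515489e44b21d4ffc7aa30a1660b2c5722b69570a944781410014006001) (nat_lit 0))) (L (E (nat_lit 19) (nat_lit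 0x30b1840c065f42f997c0bce5e62e60ff07f23f51f98fc47d03d40014006001) (nat_lit 0)))) (L (E (nat_lit 27) (nat_lit 0x30b1840c065f42f8179cbbe5dd2e89740b98458a2a912c89244322111048803fc1fc8fd47e63d40014006001) (nat_lit 0))))))) (L (E (nat_lit 5) (nat_lit 0x9794570014006001) (nat_lit 0)))) (N (nat_lit 7082) (N (nat_lit 7079) (N (nat_lit 7078) (L (E (nat_lit 14) (nat_lit 0x135098d48a22c512488331a1730b745802b70014006001) (nat_lit 0))) (L (E (nat_lit 8) (nat_lit 0x458a25912a8844410014006001) (nat_lit 0)))) (N (nat_lit 7081) (N (nat_lit 7080) (L (E (nat_lit 32) (nat_lit 0x6163081810c065fc2f997c0bcc41820b8ff07f23f51f98fc47d03d4137099c4ba25b12c894049a24b124091c48223a0014006001) (nat_lit 0))) (L (E (nat_lit 36) (nat_lit 0x6163089840c1860430197f0be65f02ee906082e3fc1fc8fd47e63f11f78fa07a826e13389744b62591280934496248123891048223a0014006001) (nat_lit 0)))) (L (E (nat_lit 12) (nat_lit 0x4d426351628964421f98b2e56d25d0014006001)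 (nat_lit 0))))) (L (E (nat_lit 7) (nat_lit 0x26f934a9784b20014006001) (nat_lit 0))))) (N (nat_lit 7129) (cl142) (cl143)))) (N (nat_lit 7302) (N (nat_lit 7235) (cl144) (cl145)) (cl148))) (cl160)) (N (nat_lit 8554) (N (nat_lit 8217) (N (nat_lit 8160) (cl163) (N (nat_lit 8161) (L (E (nat_lit 4) (nat_lit 0x2b68014006001) (nat_lit 0))) (cl164))) (cl171)) (N (nat_lit 8820) (cl176) (cl183))))
def cl185 : RA := N (nat_lit 2187) (N (nat_lit 1165) (cl22) (N (nat_lit 1187) (N (nat_lit 1175) (N (nat_lit 1169) (N (nat_lit 1166) (L (E (nat_lit 6) (nat_lit 0x194cc9063e31b98c4c5a) (nat_lit 0))) (N (nat_lit 1167) (L (E (nat_lit 6) (nat_lit 0x18e0c6e63631a98d0c66) (nat_lit 0))) (N (nat_lit 1168) (L (E (nat_lit 6) (nat_lit 0x18e4c7063731b18d4c68) (nat_lit 0))) (L (E (nat_lit 6) (nat_lit 0x19a8cc26573261904c76) (nat_lit 0)))))) (N (nat_lit 1170) (L (E (nat_lit 6) (nat_lit 0x19cccd666232c1934c84) (nat_lit 0))) (N (nat_lit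 1172) (N (nat_lit 1171) (L (E (nat_lit 6) (nat_lit 0x19d0cd866332c9938c86) (nat_lit 0))) (L (E (nat_lit 6) (nat_lit 0x19dccde66732e1948c8e) (nat_lit 0)))) (N (nat_lit 1174) (N (nat_lit 1173) (L (E (nat_lit 6) (nat_lit 0x19e4ce26693301958c96) (nat_lit 0))) (L (E (nat_lit 6) (nat_lit 0x19e8ce466a330995cc98) (nat_lit 0)))) (L (E (nat_lit 6) (nat_lit 0x19f0ce866c3319964c9c) (nat_lit 0))))))) (N (nat_lit 1179) (N (nat_lit 1177) (N (nat_lit 1176) (L (E (nat_lit 6) (nat_lit 0x19f8cea66d3329968ca0) (nat_lit 0))) (L (E (nat_lit 6) (nat_lit 0x1a00cf26713349980cac) (nat_lit 0)))) (N (nat_lit 1178) (L (E (nat_lit 6) (nat_lit 0x1968ca264731f18e0c64) (nat_lit 0))) (L (E (nat_lit 6) (nat_lit 0x197ccbc65d32e196ccb4) (nat_lit 0))))) (N (nat_lit 1182) (N (nat_lit 1181) (N (nat_lit 1180) (L (E (nat_lit 6) (nat_lit 0x1a0ccfe6763371998cb6) (nat_lit 0))) (L (E (nat_lit 6) (nat_lit 0x1a10d0267a33919a8cc2) (nat_lit 0))))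 (L (E (nat_lit 6) (nat_lit 0x1984cb064e32218f0c6a) (nat_lit 0)))) (N (nat_lit 1183) (L (E (nat_lit 6) (nat_lit 0x1998cb865332498fcc74) (nat_lit 0))) (N (nat_lit 1186) (N (nat_lit 1185) (N (nat_lit 1184) (L (E (nat_lit 6) (nat_lit 0x1ce0e6c72a3849b38cd4) (nat_lit 0))) (L (E (nat_lit 6) (nat_lit 0x19b8cce65d32a1928c80) (nat_lit 0)))) (L (E (nat_lit 6) (nat_lit 0x19c0cd266132c1938c88) (nat_lit 0)))) (L (E (nat_lit 6) (nat_lit 0x19f8cec66f3341978caa) (nat_lit 0)))))))) (N (nat_lit 1786) (cl34) (N (nat_lit 1832) (cl35) (N (nat_lit 2042) (N (nat_lit 1929) (N (nat_lit 1885) (cl36) (cl37)) (N (nat_lit 1986) (cl38) (cl39))) (N (nat_lit 2043) (L (E (nat_lit 3) (nat_lit 0x3224006001) (nat_lit 0))) (cl42))))))) (N (nat_lit 4383) (N (nat_lit 3627) (cl72) (N (nat_lit 4183) (N (nat_lit 4043) (cl80) (cl83)) (cl87))) (N (nat_lit 5297) (N (nat_lit 4802) (N (nat_lit 4544) (N (nat_lit 4529) (N (nat_lit 4489) (cl89)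 (cl90)) (N (nat_lit 4530) (L (E (nat_lit 3) (nat_lit 0x339c00a001) (nat_lit 0))) (N (nat_lit 4536) (N (nat_lit 4535) (N (nat_lit 4533) (N (nat_lit 4531) (L (E (nat_lit 3) (nat_lit 0x162cb0a56d) (nat_lit 0))) (N (nat_lit 4532) (L (E (nat_lit 3) (nat_lit 0x22d515e893) (nat_lit 0))) (L (E (nat_lit 3) (nat_lit 0x233d1928af) (nat_lit 0))))) (N (nat_lit 4534) (L (E (nat_lit 3) (nat_lit 0x260d2fa965) (nat_lit 0))) (L (E (nat_lit 3) (nat_lit 0x26ad34a98b) (nat_lit 0))))) (L (E (nat_lit 3) (nat_lit 0x317400a001) (nat_lit 0)))) (N (nat_lit 4540) (N (nat_lit 4537) (L (E (nat_lit 3) (nat_lit 0x16e4b02547) (nat_lit 0))) (N (nat_lit 4539) (N (nat_lit 4538) (L (E (nat_lit 3) (nat_lit 0x206cfc27a7) (nat_lit 0))) (L (E (nat_lit 3) (nat_lit 0x235512a85d) (nat_lit 0)))) (L (E (nat_lit 3) (nat_lit 0x235d12e85f) (nat_lit 0))))) (N (nat_lit 4541) (L (E (nat_lit 3) (nat_lit 0x23b5162875) (nat_lit 0))) (N (nat_lit 4543)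 (N (nat_lit 4542) (L (E (nat_lit 3) (nat_lit 0x244d1ba89b) (nat_lit 0))) (L (E (nat_lit 3) (nat_lit 0x247d1da8af) (nat_lit 0)))) (L (E (nat_lit 3) (nat_lit 0x363da9ed1b) (nat_lit 0))))))))) (cl96)) (N (nat_lit 5138) (N (nat_lit 5137) (N (nat_lit 4937) (N (nat_lit 4935) (cl99) (N (nat_lit 4936) (L (E (nat_lit 3) (nat_lit 0x280d36698b) (nat_lit 0))) (L (E (nat_lit 3) (nat_lit 0x333d8f2c63) (nat_lit 0))))) (cl103)) (L (E (nat_lit 3) (nat_lit 0x31c400a003) (nat_lit 0)))) (N (nat_lit 5296) (cl106) (L (E (nat_lit 3) (nat_lit 0x335c00a001) (nat_lit 0)))))) (cl184)))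
def cl : RA := cl185
def nbl : List Nat := [nat_lit 0x8a54109facf3675f35d9990cc665a32c9940c9e5fa29f131c8ac3fb16512, nat_lit 0x116082f3ff1eb4eca6d133a19b4cd860f2a993788da41016f0f, nat_lit 0x3e89e10d3864731f18dcc6c5dc29012a88723de1568d, nat_lit 0x0, nat_lit 0x0, nat_lit 0x0, nat_lit 0x0, nat_lit 0x0, nat_lit 0x0, nat_lit 0x0, nat_lit 0x0, nat_lit 0x0, nat_lit 0x0, nat_lit 0x0, nat_lit 0x0, nat_lit 0x0, nat_lit 0xf81, nat_lit 0x0, nat_lit 0x0, nat_lit 0x0, nat_lit 0x0, nat_lit 0x0, nat_lit 0x0, nat_lit 0x0, nat_lit 0x0, nat_lit 0x0, nat_lit 0x0, nat_lit 0x0, nat_lit 0x0, nat_lit 0x0, nat_lit 0x0, nat_lit 0x0, nat_lit 0x0, nat_lit 0x0, nat_lit 0x0, nat_lit 0x0, nat_lit 0x0, nat_lit 0x0, nat_lit 0x0, nat_lit 0x0, nat_lit 0x0, nat_lit 0x0, nat_lit 0x0, nat_lit 0x0, nat_lit 0xb102182, nat_lit 0x0, nat_lit 0x2281, nat_lit 0x6e02302, nat_lit 0x0, nat_lit 0x3801, nat_lit 0x0, nat_lit 0x2581, nat_lit 0x3a81,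 nat_lit 0x0, nat_lit 0x3c01, nat_lit 0x0, nat_lit 0x3d01, nat_lit 0x0, nat_lit 0x6081, nat_lit 0x3f01, nat_lit 0x0, nat_lit 0x0, nat_lit 0x0, nat_lit 0x1481, nat_lit 0x0, nat_lit 0x0, nat_lit 0x0, nat_lit 0x0, nat_lit 0x2001, nat_lit 0x0, nat_lit 0x0, nat_lit 0x0, nat_lit 0x0, nat_lit 0x0, nat_lit 0x0, nat_lit 0x0, nat_lit 0x0, nat_lit 0x62417c05900e04, nat_lit 0x0, nat_lit 0x1a81, nat_lit 0x6a81, nat_lit 0x0, nat_lit 0x6c01, nat_lit 0x0, nat_lit 0x0, nat_lit 0x2b01, nat_lit 0x0, nat_lit 0x0, nat_lit 0x0, nat_lit 0x0, nat_lit 0x1ce07282, nat_lit 0x0, nat_lit 0x0, nat_lit 0x0, nat_lit 0x0, nat_lit 0x0, nat_lit 0x0, nat_lit 0x0, nat_lit 0x0, nat_lit 0x0, nat_lit 0x1101, nat_lit 0x0, nat_lit 0x0, nat_lit 0x0, nat_lit 0x0, nat_lit 0x0, nat_lit 0x0, nat_lit 0x7e01, nat_lit 0x0, nat_lit 0x7f81, nat_lit 0x0, nat_lit 0x8081, nat_lit 0x86810a07401884, nat_lit 0x0, nat_lit 0x1901, nat_lit 0x21c01982, nat_lit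 0x0, nat_lit 0x0, nat_lit 0x0, nat_lit 0x0, nat_lit 0x44610e01b03, nat_lit 0x44a0f301b83, nat_lit 0x0, nat_lit 0x22907b02, nat_lit 0x0, nat_lit 0x0, nat_lit 0x1d81, nat_lit 0x8981, nat_lit 0x0, nat_lit 0x0, nat_lit 0x0, nat_lit 0x0, nat_lit 0xc101, nat_lit 0x0, nat_lit 0xc201, nat_lit 0x0, nat_lit 0x0, nat_lit 0x0, nat_lit 0x0, nat_lit 0x4a618e095842014c08a03b87, nat_lit 0x5401, nat_lit 0xcb81, nat_lit 0x0, nat_lit 0x0, nat_lit 0x14901, nat_lit 0x0, nat_lit 0x0, nat_lit 0x0, nat_lit 0x0, nat_lit 0x0, nat_lit 0x8c81, nat_lit 0x0, nat_lit 0x0, nat_lit 0x0, nat_lit 0x0, nat_lit 0x0, nat_lit 0x0, nat_lit 0x0, nat_lit 0x0, nat_lit 0x0, nat_lit 0x15501, nat_lit 0x15601, nat_lit 0x12305c82, nat_lit 0x0, nat_lit 0x0, nat_lit 0x0, nat_lit 0x0, nat_lit 0x15c01, nat_lit 0x0, nat_lit 0x0, nat_lit 0x0, nat_lit 0x0, nat_lit 0x0, nat_lit 0x0, nat_lit 0x0, nat_lit 0x0, nat_lit 0x0, nat_lit 0x0, nat_lit 0x0, nat_lit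 0x0, nat_lit 0x3020f086f02840b705886, nat_lit 0x0, nat_lit 0xc2038414805b82d41660b204d88, nat_lit 0x5a01, nat_lit 0x0, nat_lit 0x5101, nat_lit 0x0, nat_lit 0x0, nat_lit 0x0, nat_lit 0x0, nat_lit 0x0, nat_lit 0x0, nat_lit 0xf887681880bf02f05, nat_lit 0x0, nat_lit 0xf981, nat_lit 0x0, nat_lit 0x0, nat_lit 0x0, nat_lit 0x3c40c702183, nat_lit 0x6301, nat_lit 0x0, nat_lit 0x0, nat_lit 0x18c0b302383, nat_lit 0xc101, nat_lit 0x1e706582, nat_lit 0x6981, nat_lit 0x0, nat_lit 0x6701, nat_lit 0x0, nat_lit 0x0, nat_lit 0x2681, nat_lit 0x1ed06682, nat_lit 0x7c01a00bb02c04, nat_lit 0x2801, nat_lit 0x0, nat_lit 0x6b01, nat_lit 0x2901, nat_lit 0x1b507fc1ce0db02e85, nat_lit 0xcc01, nat_lit 0x2981, nat_lit 0x0, nat_lit 0x1f607402, nat_lit 0x0, nat_lit 0x0, nat_lit 0x0, nat_lit 0xde01, nat_lit 0x0, nat_lit 0x0, nat_lit 0x0, nat_lit 0x0, nat_lit 0x0, nat_lit 0x0, nat_lit 0x0, nat_lit 0xf201, nat_lit 0x0, nat_lit 0x0,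 nat_lit 0x7701, nat_lit 0x0, nat_lit 0x0, nat_lit 0x0, nat_lit 0x0, nat_lit 0x0, nat_lit 0x0, nat_lit 0x1e80f103c83, nat_lit 0x0, nat_lit 0x0, nat_lit 0x0, nat_lit 0x0, nat_lit 0x0, nat_lit 0x0, nat_lit 0x0, nat_lit 0x0, nat_lit 0x10007e82, nat_lit 0x0, nat_lit 0x0, nat_lit 0x0, nat_lit 0x0, nat_lit 0x8301, nat_lit 0x49020404383, nat_lit 0x75420d08383, nat_lit 0x9101, nat_lit 0x0, nat_lit 0x0, nat_lit 0x8181, nat_lit 0x4581, nat_lit 0x0, nat_lit 0x12a81, nat_lit 0x0, nat_lit 0x96840c10b08384, nat_lit 0x0, nat_lit 0x0, nat_lit 0x0, nat_lit 0x13301, nat_lit 0x0, nat_lit 0x0, nat_lit 0x0, nat_lit 0x0, nat_lit 0x0, nat_lit 0x0, nat_lit 0x0, nat_lit 0x0, nat_lit 0x0, nat_lit 0x0, nat_lit 0x54221c04d03, nat_lit 0x0, nat_lit 0x0, nat_lit 0x3da15482, nat_lit 0x0, nat_lit 0x0, nat_lit 0x3dd05082, nat_lit 0x0, nat_lit 0x0, nat_lit 0x15781, nat_lit 0x0, nat_lit 0x7ca2b511303, nat_lit 0x0, nat_lit 0x0, nat_lit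 0x0, nat_lit 0x0, nat_lit 0x0, nat_lit 0x0, nat_lit 0x0, nat_lit 0x3f916402, nat_lit 0x0, nat_lit 0x13801, nat_lit 0x0, nat_lit 0x0, nat_lit 0x0, nat_lit 0x0, nat_lit 0x0, nat_lit 0x0, nat_lit 0x0, nat_lit 0x9e81, nat_lit 0x0, nat_lit 0x0, nat_lit 0x0, nat_lit 0x0, nat_lit 0x0, nat_lit 0x2a112082, nat_lit 0x2a201702, nat_lit 0x0, nat_lit 0x1480a002, nat_lit 0x0, nat_lit 0x0, nat_lit 0x0, nat_lit 0x0, nat_lit 0x0, nat_lit 0x53428c14009f84, nat_lit 0x30814f05b03, nat_lit 0xc281, nat_lit 0x1430a102, nat_lit 0x0, nat_lit 0x0, nat_lit 0x30f0aa82, nat_lit 0x3100c482, nat_lit 0x15605c02, nat_lit 0x44312a82, nat_lit 0x0, nat_lit 0x0, nat_lit 0x44918b82, nat_lit 0x22501, nat_lit 0x18f0a682, nat_lit 0x31a0af82, nat_lit 0x0, nat_lit 0x0, nat_lit 0x12f81, nat_lit 0x0, nat_lit 0x0, nat_lit 0x5902c615d0ad84, nat_lit 0xcb01, nat_lit 0x13301, nat_lit 0x0, nat_lit 0x3260ab82, nat_lit 0x16806002, nat_lit 0x0, nat_lit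 0x19581, nat_lit 0x2dc1650ae83, nat_lit 0x5bc2cc15e0ae84, nat_lit 0x0, nat_lit 0x16006182, nat_lit 0x0, nat_lit 0x0, nat_lit 0x0, nat_lit 0x0, nat_lit 0x0, nat_lit 0x1640b182, nat_lit 0x0, nat_lit 0x0, nat_lit 0x13c01, nat_lit 0x0, nat_lit 0xb701, nat_lit 0x0, nat_lit 0x0, nat_lit 0x0, nat_lit 0x0, nat_lit 0x0, nat_lit 0x0, nat_lit 0x0, nat_lit 0x9e81, nat_lit 0x25001, nat_lit 0xc101, nat_lit 0x1840bf02, nat_lit 0xc281, nat_lit 0x0, nat_lit 0x0, nat_lit 0x0, nat_lit 0x2f814604203, nat_lit 0x18881, nat_lit 0x189091431418504305, nat_lit 0x30817f0bf03, nat_lit 0x0, nat_lit 0x0, nat_lit 0x4b218d092c31e1890a686, nat_lit 0x126063c3101840a705, nat_lit 0x1b006403121850c205, nat_lit 0x0, nat_lit 0x0, nat_lit 0x12901, nat_lit 0x4581, nat_lit 0x0, nat_lit 0x0, nat_lit 0x0, nat_lit 0x12b81, nat_lit 0x0, nat_lit 0xce01, nat_lit 0x6743381960c684, nat_lit 0x36912e02, nat_lit 0x32c1900c783, nat_lit 0x1910c802,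 nat_lit 0x19881, nat_lit 0x0, nat_lit 0x0, nat_lit 0x0, nat_lit 0x0, nat_lit 0xcb81, nat_lit 0x9a61a60d283, nat_lit 0x26a0dc06742690d3067c3321980b389, nat_lit 0x0, nat_lit 0x0, nat_lit 0x0, nat_lit 0x0, nat_lit 0x0, nat_lit 0x0, nat_lit 0x0, nat_lit 0x0, nat_lit 0x0, nat_lit 0x0, nat_lit 0x0, nat_lit 0x0, nat_lit 0x0, nat_lit 0x0, nat_lit 0x0, nat_lit 0x0, nat_lit 0x0, nat_lit 0x0, nat_lit 0xdb81, nat_lit 0x0, nat_lit 0x50e14e02, nat_lit 0x50f14e82, nat_lit 0x0, nat_lit 0x28981, nat_lit 0x0, nat_lit 0x28a81, nat_lit 0x51615202, nat_lit 0x0, nat_lit 0x1be01, nat_lit 0x0, nat_lit 0x0, nat_lit 0x0, nat_lit 0xe001, nat_lit 0x7283861c10dd04, nat_lit 0x0, nat_lit 0x29101, nat_lit 0x0, nat_lit 0x0, nat_lit 0x29401, nat_lit 0x0, nat_lit 0x29501, nat_lit 0x52b15c02, nat_lit 0x0, nat_lit 0x0, nat_lit 0xa5c19205d03, nat_lit 0x0, nat_lit 0x0, nat_lit 0x3b01d707303, nat_lit 0x0, nat_lit 0x0, nat_lit 0x0, nat_lit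 0x29c01, nat_lit 0x0, nat_lit 0x3720f982, nat_lit 0x1dc0eb02, nat_lit 0x0, nat_lit 0x0, nat_lit 0x0, nat_lit 0x0, nat_lit 0x0, nat_lit 0xec01, nat_lit 0x0, nat_lit 0x2aa01, nat_lit 0x0, nat_lit 0x0, nat_lit 0xf201, nat_lit 0x0, nat_lit 0x0, nat_lit 0x0, nat_lit 0x0, nat_lit 0xe083f81eb0e084, nat_lit 0x18901, nat_lit 0x1ea0f282, nat_lit 0x0, nat_lit 0x31a05e82, nat_lit 0x0, nat_lit 0x0, nat_lit 0x0, nat_lit 0x0, nat_lit 0x0, nat_lit 0x57a19387c83dc1d106006, nat_lit 0x0, nat_lit 0x32e06102, nat_lit 0x0, nat_lit 0x0, nat_lit 0x0, nat_lit 0x0, nat_lit 0x0, nat_lit 0x0, nat_lit 0x2c301, nat_lit 0x0, nat_lit 0x6981, nat_lit 0x1b281, nat_lit 0x0, nat_lit 0x0, nat_lit 0x0, nat_lit 0x0, nat_lit 0x0, nat_lit 0x0, nat_lit 0x0, nat_lit 0x0, nat_lit 0x0, nat_lit 0x0, nat_lit 0x0, nat_lit 0x2ca81, nat_lit 0x10d81, nat_lit 0x0, nat_lit 0x0, nat_lit 0x20f08182, nat_lit 0x10503482, nat_lit 0x0, nat_lit 0x0, nat_lit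 0x0, nat_lit 0x0, nat_lit 0x0, nat_lit 0x0, nat_lit 0x0, nat_lit 0x42e10c82, nat_lit 0x0, nat_lit 0x0, nat_lit 0x10b01, nat_lit 0x0, nat_lit 0x0, nat_lit 0x21f81, nat_lit 0x3e60a682, nat_lit 0x22381, nat_lit 0x0, nat_lit 0x0, nat_lit 0x15509082, nat_lit 0x0, nat_lit 0x0, nat_lit 0x1ce01, nat_lit 0x0, nat_lit 0x0, nat_lit 0x0, nat_lit 0x0, nat_lit 0x0, nat_lit 0x0, nat_lit 0x0, nat_lit 0x5b1230101474012b07b86, nat_lit 0x1de81, nat_lit 0x2da01, nat_lit 0x0, nat_lit 0x0, nat_lit 0x0, nat_lit 0x0, nat_lit 0x0, nat_lit 0x0, nat_lit 0x3ca14982, nat_lit 0x0, nat_lit 0x23d11c02, nat_lit 0x11b81, nat_lit 0x0, nat_lit 0x1d301, nat_lit 0x4a021c02, nat_lit 0x3d312188d842c17c09d86, nat_lit 0x5cc251091447c23c0be86, nat_lit 0x17347aa29d12304, nat_lit 0x0, nat_lit 0x0, nat_lit 0x12401, nat_lit 0xba23db12083, nat_lit 0xba444111e03, nat_lit 0x5d32548f7449824b12186, nat_lit 0xba824d123091047c18404307, nat_lit 0x12281,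 nat_lit 0x2ec01, nat_lit 0x5d92578f8c4a024912086, nat_lit 0x8943aa12903, nat_lit 0x5db258912c7ca25312586, nat_lit 0x12c87cc3ac12a093049418808208, nat_lit 0x177496644d1f389544962440c488, nat_lit 0x5de25a0abc4ac25512286, nat_lit 0x0, nat_lit 0x45012702, nat_lit 0x22a01, nat_lit 0x179097225a12c84, nat_lit 0x17947de2b612d092431a14d08f88, nat_lit 0x5e625d915c7e025c12a094849624a0458a, nat_lit 0x2f38fc457025c12985, nat_lit 0x17a057225e12e89302a010a04608, nat_lit 0x25f11687e625512685, nat_lit 0xbd44bf15d83, nat_lit 0x13181, nat_lit 0x3f815f09904a22500a986, nat_lit 0x13147f2265132096c4b225212888, nat_lit 0x17c04ca25c12d04, nat_lit 0x4621d9899c4cc25d12d89504a61960ab0a, nat_lit 0x1fe0b084d025e12a85, nat_lit 0x11907fa2c312e84, nat_lit 0x2fa0ff84d225e11505, nat_lit 0x0, nat_lit 0x0, nat_lit 0x2fb81, nat_lit 0x80426d13203, nat_lit 0x2fc91ac59226512c85, nat_lit 0x4cc26412d03, nat_lit 0xbf64d12028b2c4de26512e096c45815e0880b,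 nat_lit 0x2fe11b880c3b916609c44e026612e09, nat_lit 0x17f480e2cd12f04, nat_lit 0x5fe23810204be25e0d006, nat_lit 0xbfe47116783, nat_lit 0x23901, nat_lit 0x16881, nat_lit 0x26c13182, nat_lit 0x301936c8ea40d13685, nat_lit 0x18109b847613b84, nat_lit 0xc0a47720789e04ee27113387, nat_lit 0xc0c27213809a04ce16709887, nat_lit 0x303937c8f22d713885, nat_lit 0x82426a0b483, nat_lit 0x0, nat_lit 0x60d13b02, nat_lit 0x18388fe2770d504, nat_lit 0x4e720b0a004f027613786, nat_lit 0xb7c50027913804, nat_lit 0x20c01, nat_lit 0x24181, nat_lit 0x0, nat_lit 0x0, nat_lit 0x0, nat_lit 0x4ef17282, nat_lit 0x0, nat_lit 0x18609e228113c04, nat_lit 0x14001, nat_lit 0x30d01, nat_lit 0x0, nat_lit 0x0, nat_lit 0x31001, nat_lit 0x0, nat_lit 0x0, nat_lit 0x0, nat_lit 0x0, nat_lit 0x0, nat_lit 0x0, nat_lit 0x0, nat_lit 0x0, nat_lit 0x93242614903, nat_lit 0x49a21382, nat_lit 0x14a81, nat_lit 0xf0c5f029814b84, nat_lit 0x128085a3c417c8a6451c11404808,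 nat_lit 0x62c25090b85f429904886, nat_lit 0x25110bc78c2fb14d0a5446c11504909, nat_lit 0x50925190c078e2fc14e0a5046e1b20498a, nat_lit 0x31781, nat_lit 0x25310d47922fe08b05, nat_lit 0x50a25390d87942ff14c8a4852211704a0a, nat_lit 0x142c7963001510a8453029314908e82f211804a8c, nat_lit 0x14309524381808a8c54429411d86d027411904b0c, nat_lit 0x31881, nat_lit 0x143895643a1e70c0c54a2a414e8a5447a1b504c0c, nat_lit 0x50f25610ec6082a514e0a5847c1b604c8a, nat_lit 0x25690f054e29d0db85, nat_lit 0x4af21e82, nat_lit 0x0, nat_lit 0x51325890fc7a43071550a8853229812085ec27c11b04d0e, nat_lit 0xa284b22200f4c6102ac1518a8453429912106e42f813f04d8f, nat_lit 0xa2a4b32208f506122ac1520a885342430dd05f428011c04e0f, nat_lit 0xa2c4b42210f546142ae1528a8c5382440dd85f828211d04e8f, nat_lit 0xa2e4b52218c2c55e2ae1520a7453824504f0b, nat_lit 0x0, nat_lit 0x25b911456029e0df05, nat_lit 0x12e088e30d15484, nat_lit 0x14709724481ed0c385662aa154091c30011e04f8c,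 nat_lit 0x51d25d11247b630f15a8aa45422480df860428a11f0500e, nat_lit 0x31e01, nat_lit 0x147c97844b1ee8c4456e2b61558a8c54424a0e0860c28e12105090, nat_lit 0x0, nat_lit 0x29092f889a3df1898ae45702af1528a904981850a48d, nat_lit 0xa444bf2270f806282b91580ab854a24d0e206182941240518f, nat_lit 0xa464c02278f8462a2bb1578a9c49c1c50520b, nat_lit 0x0, nat_lit 0x130c8a431615404, nat_lit 0x14989884531f18c5c5782b215488, nat_lit 0x0, nat_lit 0xa504c622a8f946322bf15f0ad85542510e3861c2981260528f, nat_lit 0x2948f986342c015f8adc56a2ac129072031014d0938d, nat_lit 0x52a264115c7ce31b1600ae056c2ac129872431214e0530e, nat_lit 0xa564c922c0fa06382c215c8adc55c2540e5062829e1280538f, nat_lit 0xa584ca22c8fa463a2c31610ae055e2ae12a872c3161500540f, nat_lit 0x32481, nat_lit 0xa5c4cc22d8b105602570e687, nat_lit 0x29793388ba3ed1908b1857a2b309489, nat_lit 0x53026791787dc3221640af03181520950a, nat_lit 0x5311f78c8c5922c815f8ad44b218d0a98a, nat_lit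 0xa644d12300fc06482c91600af856c2b512d073831c12b0548f, nat_lit 0x14cc9a44611f88c945962c115f8adc56c25b0e7863c2aa12c05510, nat_lit 0x32881, nat_lit 0xa6a4d42318fcc64e2cd1660b0c5722b812e86442ae12d0558f, nat_lit 0xa6c4d52320fd06502ce1668b105842b912f07483241580560f, nat_lit 0x14dc7ea3291678b3858a2c315d897c3a61930ac8c, nat_lit 0xa704d72330fd85882600ea07, nat_lit 0x9b246815e03, nat_lit 0xcae53b26d11a47f032b15e87, nat_lit 0x14f09b646a1fc8cb05922be15e898c32815b0970c, nat_lit 0x14f49b846b1fd0cb45a62d21640afc57c2640ea86542b812f05690, nat_lit 0x0, nat_lit 0xa7e3fc1978b545a82cc16009983ae1970af0b, nat_lit 0xa804df2370ff46602d616a8b345962c2133876033015f0990f, nat_lit 0xa824e02378ff86622d716b0b385982c316109a03b21600570f, nat_lit 0x54227091c07fe33216b8b3c59a2c416189a43341610998e, nat_lit 0x54327111c48002d91670b1458826a0ed8a, nat_lit 0x151480433416d04, nat_lit 0x15189ca4732018cd44d816209a08, nat_lit 0x0, nat_lit 0x2a4139c8ea40519b8b745b82d416489b833a1640578d,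 nat_lit 0xa924e823b10186702dd16a8b4c59626f0ee06782ca1350580f, nat_lit 0xa944e923b901c6722df16b0b505982cb0ee8b, nat_lit 0xa9640819d0b805ae2d51668b304e21a00b38b, nat_lit 0x15309d64792048cec5c22e016b0b3859a2720b40c, nat_lit 0x33401, nat_lit 0x15388f62e213a04, nat_lit 0x54f27711f067c2db16806, nat_lit 0x2a813bc8fa40d19f8b905c62dc16889, nat_lit 0x2a893c08fc40e1a00b945c82db16989d434616d09b0d, nat_lit 0x2a913c48fe40f1a08b985a82d313b09, nat_lit 0x0, nat_lit 0x2aa13cc9024111a18b9c5c02d513c09, nat_lit 0x15549e84822090d105d22e116b8b584f21a70b88c, nat_lit 0x2ab13d49064131748b885c02d713d09, nat_lit 0x155c9082e116c84, nat_lit 0x4f71a282, nat_lit 0x0, nat_lit 0x15689f248820b0d1c5da2ec1730b704fc1ab0b90c, nat_lit 0x156c9f448920b8d205da2e71728b744fe1ac0b98c, nat_lit 0x2ae13ec9144181a48bbc5cc2df14009, nat_lit 0x33a81, nat_lit 0x2af13f491841a1780b845c02820ba09, nat_lit 0x0, nat_lit 0x9fe34d17203, nat_lit 0x280123c69c2e50ba85,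 nat_lit 0x1584a0249017284, nat_lit 0x0, nat_lit 0x158ca0649220e8d445ec2f017388, nat_lit 0xac850424990785de2e914407, nat_lit 0x56517482, nat_lit 0x0, nat_lit 0x35317682, nat_lit 0x28301, nat_lit 0x4211aa02, nat_lit 0x2ef14602, nat_lit 0x0, nat_lit 0x28581, nat_lit 0x0, nat_lit 0x2fb14982, nat_lit 0x34312888522fa14a05, nat_lit 0xa1e2fb14a83, nat_lit 0x0, nat_lit 0xd1051325310b460c29709f07, nat_lit 0x344929c85c30614c05, nat_lit 0x145460e2fa14c84, nat_lit 0x5162180c2461030214d06, nat_lit 0x28b90c46ae30105a05, nat_lit 0x1a3495629c0a184, nat_lit 0x0, nat_lit 0xa3a43618303, nat_lit 0x61e3071828bfc5fc17a0a307, nat_lit 0x1a44a3e4b121c0c2060c3000a388, nat_lit 0xd244b21888c406123071808c0054417c05b0b, nat_lit 0x1a4ca424b31890c4461430818088, nat_lit 0x29101, nat_lit 0xa4643c18983, nat_lit 0x18a81, nat_lit 0x25c01, nat_lit 0x34c14a097243f15485, nat_lit 0x34c94a460c2aa0a685, nat_lit 0x56f29512ec88231a18c86, nat_lit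 0x69b29592f088431b18d0c486123080a78a, nat_lit 0xae052c2218d8463831b1898c446121840a80b, nat_lit 0x34e92f863a31c18a0c486162ae0a889, nat_lit 0x1a78a5c31315784, nat_lit 0x18601, nat_lit 0x0, nat_lit 0x6a22988c8463031615986, nat_lit 0x14c898a44a1918c8863231718788, nat_lit 0x1a90a664c62258c6863031015a88, nat_lit 0xd4a3651928c906363191888c4056c1eb0c40b, nat_lit 0x35314d499044d1930c9463831a1890c4456e1ec05f0d, nat_lit 0xd4e5362648d9c64e32618e8c6c62631215c0b, nat_lit 0x6a829b8c9c63c31315c86, nat_lit 0x29c132c8a031d18a05, nat_lit 0x18f01, nat_lit 0x0, nat_lit 0xd5832a15e03, nat_lit 0x35694f499e4551960cac64632118c09, nat_lit 0x6ae2bb8da465a32c1920c8863231815f0a, nat_lit 0x1abca7e4d122b8cb864631a15f88, nat_lit 0x35815009a432f1970c9864831b18d09, nat_lit 0xaf2541269916466032f1938c9463831b0b00b, nat_lit 0x35915086623301930c745841f106009, nat_lit 0x1acca864d522d84, nat_lit 0x57b16202, nat_lit 0x0, nat_lit 0x6b826d0cd465832216386,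 nat_lit 0xd7254826d918066c3351968cac6463221640b, nat_lit 0xd7454926e118466e3361970cb06483231648b, nat_lit 0x15f0a944dd2310ce066e32f1968c946481f30e80c, nat_lit 0x35e152c6e03391980cb864c32516589, nat_lit 0xd7a54c2320ce866232f19387, nat_lit 0xd7c4e019d0cc866032716687, nat_lit 0xa9c2ce0b503, nat_lit 0x0, nat_lit 0x16801, nat_lit 0x1b109ca46b19b0cd065832b16888, nat_lit 0x5522360dc866a32d19606, nat_lit 0xd8c4e719b0cb865a2d30b787, nat_lit 0x1b1caa84e82370d0868232f19708, nat_lit 0x36415549d246f1a18d0867032f16a89, nat_lit 0x5562380cc46602d60d006, nat_lit 0x6ca23882, nat_lit 0x0, nat_lit 0x0, nat_lit 0x0, nat_lit 0x1b38ab44ef0d104, nat_lit 0x0, nat_lit 0x36815709e24771a105, nat_lit 0xd0c68233919c04, nat_lit 0x1b48abc4f323c8d246843390fb88, nat_lit 0x6d317002, nat_lit 0x0, nat_lit 0xd3869a34719f84, nat_lit 0x36c13e469c3460ef05, nat_lit 0x158c69e34217304, nat_lit 0xdb44fb17383, nat_lit 0x0, nat_lit 0x1a201,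 nat_lit 0x1a281, nat_lit 0x0, nat_lit 0x2b381, nat_lit 0x37101, nat_lit 0x50224582, nat_lit 0x17781, nat_lit 0x0, nat_lit 0x0, nat_lit 0x0, nat_lit 0x0, nat_lit 0x0, nat_lit 0xbf81, nat_lit 0x0, nat_lit 0x0, nat_lit 0x0, nat_lit 0xc301, nat_lit 0x0, nat_lit 0x0, nat_lit 0x0, nat_lit 0x0, nat_lit 0x0, nat_lit 0x2c481, nat_lit 0x2c501, nat_lit 0xe001, nat_lit 0x0, nat_lit 0x0, nat_lit 0x25f01, nat_lit 0x29b01, nat_lit 0x0, nat_lit 0x6461eb0e403, nat_lit 0x0, nat_lit 0xdee5401b803, nat_lit 0x0, nat_lit 0x2a101, nat_lit 0x0, nat_lit 0x0, nat_lit 0x6fe2c813506d632f0d006, nat_lit 0x0, nat_lit 0x19b01, nat_lit 0x0, nat_lit 0x0, nat_lit 0x0, nat_lit 0x0, nat_lit 0x0, nat_lit 0x0, nat_lit 0x0, nat_lit 0x0, nat_lit 0x0, nat_lit 0xde81, nat_lit 0x0, nat_lit 0x0, nat_lit 0x29101, nat_lit 0x29181, nat_lit 0x0, nat_lit 0x0, nat_lit 0x0, nat_lit 0x71b1c282, nat_lit 0x0, nat_lit 0x71e29a82, nat_lit 0x0, nat_lit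 0x39001, nat_lit 0x39101, nat_lit 0x0, nat_lit 0x0, nat_lit 0x0, nat_lit 0x39381, nat_lit 0x39401, nat_lit 0x0, nat_lit 0x0, nat_lit 0x0, nat_lit 0x0, nat_lit 0xf601, nat_lit 0x0, nat_lit 0x0, nat_lit 0xfa81, nat_lit 0x0, nat_lit 0x0, nat_lit 0x0, nat_lit 0x39d01, nat_lit 0x0, nat_lit 0x11201, nat_lit 0x0, nat_lit 0x1d001, nat_lit 0x0, nat_lit 0x0, nat_lit 0x0, nat_lit 0x39f01, nat_lit 0x0, nat_lit 0x0, nat_lit 0x1d201, nat_lit 0x0, nat_lit 0x0, nat_lit 0x2e901, nat_lit 0x2ec81, nat_lit 0x12481, nat_lit 0x1d781, nat_lit 0x0, nat_lit 0x0, nat_lit 0x0, nat_lit 0x2f281, nat_lit 0x0, nat_lit 0x17b8b603b61da84, nat_lit 0x0, nat_lit 0x3b812e02, nat_lit 0x74211202, nat_lit 0x2fc01, nat_lit 0xb6e22610783, nat_lit 0x3a2167c77022710805, nat_lit 0x3bd10882, nat_lit 0x0, nat_lit 0x0, nat_lit 0x0, nat_lit 0x3a481, nat_lit 0x0, nat_lit 0x1e001, nat_lit 0x1e081, nat_lit 0x0, nat_lit 0x3a801, nat_lit 0x0, nat_lit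 0x14881, nat_lit 0x8a01, nat_lit 0x1e581, nat_lit 0x0, nat_lit 0x0, nat_lit 0x0, nat_lit 0x7943c814b83, nat_lit 0x79223510383, nat_lit 0x1e201, nat_lit 0xba64301e983, nat_lit 0x0, nat_lit 0x1eb01, nat_lit 0x2eb01, nat_lit 0x2ec81, nat_lit 0x0, nat_lit 0x11d81, nat_lit 0xf747a83d21e60f2c54423c10b08, nat_lit 0xbba3d31e603, nat_lit 0x17788763df15204, nat_lit 0x1ef81, nat_lit 0x0, nat_lit 0x0, nat_lit 0x1f181, nat_lit 0x10fc7c63d908f04, nat_lit 0x5e52200f6855424210586, nat_lit 0x0, nat_lit 0x5e72210f9c7a62ac12206, nat_lit 0x0, nat_lit 0x1f48fa07c03d61ea85, nat_lit 0x17a888a3e91ef84, nat_lit 0x44615802, nat_lit 0x2f681, nat_lit 0x17b87dc3da1ec84, nat_lit 0x0, nat_lit 0x5f02d5165c8963f01f78f9856a24a0930a, nat_lit 0x7e23f01f38f9456c24b10e87, nat_lit 0xbe444d1f88fa07cc3dd12607, nat_lit 0xbe644e1f98fa47ce3df15c07, nat_lit 0x5f41f98fa07c03df15c86, nat_lit 0x0, nat_lit 0x0, nat_lit 0x0, nat_lit 0x0, nat_lit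 0xbf24551fc03, nat_lit 0x3fa1fc8fc07ca2be12906, nat_lit 0xbf65b122b8fe87e23ef1f30f9457e2531100b, nat_lit 0x3ad97f0b6459b22c0fc07ce3e612a09, nat_lit 0x0, nat_lit 0x2ff11687e83e916105, nat_lit 0x2ff916c7fc3f316185, nat_lit 0x0, nat_lit 0x0, nat_lit 0x1fc01, nat_lit 0x4031fc8fdc7dc3ed12c86, nat_lit 0xc064601fd0fe07de2c812d07, nat_lit 0x6042028fe47e03ef16486, nat_lit 0x0, nat_lit 0x18187fa2cb12e84, nat_lit 0x181c8c84082038ff87f825e09908, nat_lit 0x10248103ff1fe8fd07e62cd12f88, nat_lit 0x46616702, nat_lit 0x0, nat_lit 0x0, nat_lit 0x30601, nat_lit 0x30690348043f91fc05, nat_lit 0x0, nat_lit 0x81e40e2030fe85a626611607, nat_lit 0x46e207901c80a2d413386, nat_lit 0xc2246f20410187fa3fc16a87, nat_lit 0x4071fe82, nat_lit 0x184c8e24121ff04, nat_lit 0x0, nat_lit 0x0, nat_lit 0x0, nat_lit 0xc2c41520a10388062db13707, nat_lit 0x185c8ec41620684, nat_lit 0x186080c40513804, nat_lit 0x0, nat_lit 0xc3447916f83, nat_lit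 0x10688122e013984, nat_lit 0x0, nat_lit 0x61f2e182, nat_lit 0x0, nat_lit 0xed02e513b83, nat_lit 0x62224082, nat_lit 0x769311920882e2e713c86, nat_lit 0x0, nat_lit 0x41217482, nat_lit 0x0, nat_lit 0x0, nat_lit 0x0, nat_lit 0x0, nat_lit 0x0, nat_lit 0x0, nat_lit 0x21001, nat_lit 0x24a01, nat_lit 0xc5849621203, nat_lit 0x171492e42721184, nat_lit 0xb9049809c03, nat_lit 0xb924992170f0c5f028e09c87, nat_lit 0x126885e42e21310908462f914788, nat_lit 0x0, nat_lit 0x1a18b9849c21890c08542fb09e08, nat_lit 0x6872e692748523c717e06, nat_lit 0x49e10a02, nat_lit 0x0, nat_lit 0xd105d025010d885c3c917f0a4846821509f0b, nat_lit 0x6892e8928487042f216909c84c3ca17f8a4c46a21609f8e, nat_lit 0x3b89a28ba44a221c10c085c4271e58c005282360a00d, nat_lit 0xd165d325190e885e4291e60c0452a2370a08b, nat_lit 0x2ea129087643a21810a46042960a109, nat_lit 0x0, nat_lit 0xbac3cf18203, nat_lit 0x25281, nat_lit 0x3b9176094c43d21b10ac52e2170a209, nat_lit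 0x3b99a3cbb24a721f90d485a3d01828a604722180a28d, nat_lit 0x31e01, nat_lit 0x348976cb444a9220910085e42e1e90c1c53423b10d0d, nat_lit 0x0, nat_lit 0x776349977495644322110ec8624301ea0c2453823d0a48e, nat_lit 0x1a50bbc4ac22190f08744311ea8c2853a23e0a50c, nat_lit 0x77734a977c95a44521d8f5861629e11f8a, nat_lit 0xef05e2257911c86a29f0a587, nat_lit 0x32181, nat_lit 0x34c179096244a224910086c3da1870a8448221c0a60d, nat_lit 0x1a64bca4b2225912888243f21c0f6c61e2a210e8c, nat_lit 0xef85e6259912c88444021c0c405462430a70b, nat_lit 0x3be9a6cbce4b4226910c88243a1ee8c445482440a78d, nat_lit 0x1df8bd04b5227113488443b21d0c4854a2450a80c, nat_lit 0x32481, nat_lit 0x1a78bd44b722790f07c031415388, nat_lit 0xd3e4511f083, nat_lit 0x35017b097045215405, nat_lit 0x17b4b464b922a11247c42a912388, nat_lit 0xf026a22f712e88aa454225112087e3e318b8aa849021f0a98f, nat_lit 0x32797bcb484bb22a912c89244021f8c604922200aa0d, nat_lit 0x1e0cd485f02d292f08ae44c22511048803e518c8ab04942210aa90,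 nat_lit 0x32881, nat_lit 0x1e14d4c6522f912f88b245822711308864421f38c6c55c24c11190, nat_lit 0x3c31a9cbe64bf22d116489a4431f40c7055e24d0ac0d, nat_lit 0x1e1cd505f4260116c8b44502228fa463a2b01270c, nat_lit 0x17d498245b228913c63c24f0ad08, nat_lit 0x355114088c3eb18f85, nat_lit 0xb4e4c322983, nat_lit 0x32b93108bc45d22a11486402b311209, nat_lit 0x6ac2fc16a498a45e22a914c8924481f68c844a02250ad8e, nat_lit 0xf166ad2fc96a898c46022a11288923ee1910ad44a22260ae0f, nat_lit 0x0, nat_lit 0xf1a6af2fd96b099046223091608963f01920adc4a62280af0f, nat_lit 0x1e38d605fc2d693248c646222c915c89a44c1f88c945702540af90, nat_lit 0x78f2fe93288c846322d116089c44d1930ae44aa22a0b00e, nat_lit 0xd645fe26591908b645922791387e632712b0b, nat_lit 0xd665ff26611988b44502278fd06502bb12b8b, nat_lit 0x0, nat_lit 0x1e40b5c4ce23491788a62bc11588, nat_lit 0x1e44d6e6012d7933c8d446922e91508a62bd12c0c, nat_lit 0x0, nat_lit 0xf266b930196c49a246c23591848aa3f91960afc4b422c0b20f,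 nat_lit 0x79435d1810b644d223611888c04571fd0cb458025b1168e, nat_lit 0xc0a5b326991b88c646122c115c65c25c0b30b, nat_lit 0x1e58d7866630313508de46e23211888b24581fe0cbc58425d0b390, nat_lit 0x1af4c0e4d523811bc8c645a22c8ff46602c312f0c, nat_lit 0x33401, nat_lit 0x6bf304935c8e447122d8ffc6642c51300a, nat_lit 0x1b00c1447220004, nat_lit 0xd824d916303, nat_lit 0x1b08b6a4da22f117458e2620b588, nat_lit 0x3cc9b0cc184db23991ac8d245e2010cd05902630b60d, nat_lit 0x1e68d8860d2db93708ea47423611a88c040319a8b244c822f0b690, nat_lit 0x1838b704dd23b11d48d64612300cd84ca2300b70c, nat_lit 0x0, nat_lit 0x79d3639840b724df23b91bc8c64622030ce05982671188e, nat_lit 0x79e3641844b744e023c91c08dc464231901c6722cd1340e, nat_lit 0x1e7cd9261227091e48e246f23210206742ce1348c, nat_lit 0xd9461327111ec8e447023310246762cf1350b, nat_lit 0x23d91c48ce33c13585, nat_lit 0x1e80c285bb27291a88182d111908, nat_lit 0x23581, nat_lit 0xf446ce30b16f09ce47f23f11d88d846b2068cfc5a626e0b90f,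 nat_lit 0x1e8cd9e61727411fc8ee47523610386802d41378c, nat_lit 0x1e90da06182de93a4902476237103c6822d51380c, nat_lit 0x33a81, nat_lit 0x1e98da461a275920c90447023790446862d71390c, nat_lit 0x33b81, nat_lit 0x3d41b50c3847116c85, nat_lit 0x4ee16d02, nat_lit 0x1ea8b7e4ef24311f88f847416d88, nat_lit 0x3d59b58c3e5c027812208fe47d23a905068a2dc13a8d, nat_lit 0x7ac36b9880b824f124492208fc47623a8d185ba2760bb0e, nat_lit 0x0, nat_lit 0x1eb8db2622279922c91448223b905c6902df13c0c, nat_lit 0x36d188c9e848c24091e48302e013c89, nat_lit 0x3d818909ea48c24211e46942e113d09, nat_lit 0x1b7090641a17104, nat_lit 0x13e01, nat_lit 0x1ec4dbc5c317184, nat_lit 0x0, nat_lit 0x3d99b809f249024791fc8fc2e513f09, nat_lit 0x3da13e88fe2e613f85, nat_lit 0x1b889f6492240907069e2e714008, nat_lit 0xc504fc249122890235014087, nat_lit 0xdc84fd24a124c90441d17487, nat_lit 0x0, nat_lit 0x20f81, nat_lit 0xf726e628003, nat_lit 0x1ee8a0235217684, nat_lit 0x1ba0a0449214304,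 nat_lit 0x1ba492248b17784, nat_lit 0x0, nat_lit 0x1bac91842217884, nat_lit 0x17b01, nat_lit 0x68531602, nat_lit 0x21201, nat_lit 0x344941c84a2350bc05, nat_lit 0x5c5250909851c2360bc86, nat_lit 0x1a2ca124a2250925c84e28f11b88, nat_lit 0x31881, nat_lit 0x346971c9484a321485, nat_lit 0xd1c4a421503, nat_lit 0xd1e42b11c83, nat_lit 0x31981, nat_lit 0x1ef0d225ca286129c9424992168be452423b0bd8c, nat_lit 0xd244a925112809344992170d545f429311e0b, nat_lit 0x1a4cb9850e254928c94249a2178bec52823d0be8c, nat_lit 0x1ef4d285cd28792ac9484a224e10c05f829511f0c, nat_lit 0x69528812ac94649d24e10c46ae2960bf8a, nat_lit 0x34b92bc94c43412005, nat_lit 0x7be34c1740a264af253929486a2fe14b8a, nat_lit 0x1efcd325d128a12c494c4a021b0bfc5302420c08c, nat_lit 0x31e01, nat_lit 0x34d974ca2c4b325912889424381ac0c045342440c18d, nat_lit 0x0, nat_lit 0xd3a4b525a12b09484a321d0c0c5382460c28b, nat_lit 0xddc69e2eb146496a4ad25590ec6b630414e8b, nat_lit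 0x1f0cd3e51a25b92b087835c14f08, nat_lit 0xd4251c12383, nat_lit 0x1a88bb251d25c92e095c4a625290f460a29f1240c, nat_lit 0x0, nat_lit 0x3e39a90bb651f25d92e89644a721f8c1c54224a0c38d, nat_lit 0x3779a949784bb25992c49524401af0c2054424b0c40d, nat_lit 0x7c93531774a424bd25e12d09644a92208c2454624c0c48e, nat_lit 0x1f28d4e5de29112f896a4b325591086142a41268c, nat_lit 0x1aa0bbe52325f92f89684ac255910c6162a51270c, nat_lit 0x32481, nat_lit 0x6aa2f0930095a44515386, nat_lit 0xf986ac262130c9724af257111c61a2a81280b, nat_lit 0x1f34d5a5e429413149744b8257912061c2a91288c, nat_lit 0x3e71ab8bca52926313149764b9258912461e2aa1290d, nat_lit 0x1abcbcc52a26312f09744b225891286202530c70c, nat_lit 0x3e81ac0bce52b26412ec9664b22258c445582540c78d, nat_lit 0x32881, nat_lit 0x7d23791ac89944c925f92d496844d1b30c4c55c2560c88e, nat_lit 0x1f4cde66b32f514b89964ca26012f896a44e1b38c5055e2570c910, nat_lit 0x1f509984cb260913c62a2b00c988, nat_lit 0x1ad49804501b404,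 nat_lit 0x52f26182, nat_lit 0x1adcbda53026693088a431615908, nat_lit 0xfaa6b832b97b8a624cf262914c62e2b312c8b, nat_lit 0x1ae4bde53226793189884ba25c915063025a0ca0c, nat_lit 0x7d737a1ae8be053326893149764ba22a8c6456a25b0ca8e, nat_lit 0x0, nat_lit 0xfb26f635e17c8a6a4d326913249784571b50c6c56e25d0cb8f, nat_lit 0xfb46f735e97cca6c4d426993289904be22c0c7057025e0cc0f, nat_lit 0xfb66be2fa14dc9aa4d4265932497e4be22c8c7457225f0cc8f, nat_lit 0x37c9afcbea53826a93309944c025f91686da31e1300d, nat_lit 0xdf453926b932c8b62bb13087, nat_lit 0x2fb94ec98632013105, nat_lit 0x36197e0a784d9267933498632115e09, nat_lit 0x7df36217e4a7a4db26d133898a4c422f0c8857a2640cd8e, nat_lit 0x33101, nat_lit 0xfc26fb36317eca7e4dd26e134898c4601b70c9057e2660ce8f, nat_lit 0x7e237e1b1cbf854026e934c9a24c82308dbc64a2c01338e, nat_lit 0x37e9b20bfa54126f93509a44c9264118864c2680cf8d, nat_lit 0x3f21bf8d925fe2a113809be4d526993289924631b80c9c5842690d011, nat_lit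 0xfca6ff36517fca864e127013509964ca2320dc46502c31350f, nat_lit 0x33401, nat_lit 0x701366138899846616286, nat_lit 0x0, nat_lit 0x7e730095189c64ce26691a06542c61360a, nat_lit 0xd9a4db26791a46562c713687, nat_lit 0x367180ca904e627293709b44cf2350cb059026e0d10d, nat_lit 0xfd47023679810a924e727313749b64d12358cb459226f0d18f, nat_lit 0x7033681814a944e827393709a44d12360dc865c2700d20e, nat_lit 0x0, nat_lit 0x7ed3829b48c0e54c27493809a84d32370dd06602cc1390e, nat_lit 0x3f71c18da64eb270937c9aa4d42378dd46622cd1398d, nat_lit 0xe0e6d430495389d64e026a91c06642ce13a0b, nat_lit 0x7f038418289ae47116786, nat_lit 0xc164d919983, nat_lit 0x0, nat_lit 0x1fc8dac60d2a893bc9dc4db2398cd45a22750d48c, nat_lit 0xce44ef26e03, nat_lit 0x1fd0db04f127813a09cc4dd26e11d466e2d313b8c, nat_lit 0x7f53851b64c2055427893a49ce4dd23b0dd86702d413c0e, nat_lit 0xfec6da30895549e64e826f91dc6722d513c8b, nat_lit 0x33a81, nat_lit 0x1fe0e1a6dc309955c9ea4e127011e46762d713d8c,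 nat_lit 0x33b81, nat_lit 0x1fe4c2855819e84, nat_lit 0x36f985467c2da13e85, nat_lit 0x7fb3701858ab44f727813b89cc4e523e8cfc5b627e0d68e, nat_lit 0x3fe1b84c2e55b27c93bc9ce4e623f0ddc6802dc13f8d, nat_lit 0x1ff4dc46182ae13e89f24e827391fc6822dd1400c, nat_lit 0x33e01, nat_lit 0x3ff9c44dc861a2af13f09f64f427492046862df1410d, nat_lit 0xdca4fd27992086882e014187, nat_lit 0x80038993f49d648317086, nat_lit 0x30f01, nat_lit 0x4009b98c3e56027f93bc90c2e314209, nat_lit 0x0, nat_lit 0x10066e828094009f44f1278122068e2e51430b, nat_lit 0x8043749888ac64f92448d205cc2870d80a, nat_lit 0x805375188ca044fa27992286922e71440a, nat_lit 0xc4856528213f49e648b1a507, nat_lit 0x40398949f848c17485, nat_lit 0x0, nat_lit 0x4f717582, nat_lit 0x80a2b393e491e34e17606, nat_lit 0x1a109f22ed14584, nat_lit 0x1c5ca0c4911a804, nat_lit 0x4069c60a0849217785, nat_lit 0x0, nat_lit 0x28001, nat_lit 0x80f17a02, nat_lit 0x28581, nat_lit 0x50914a02, nat_lit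 0x0, nat_lit 0x28981, nat_lit 0x6ec2b4944ca0e2f814c86, nat_lit 0xa284a014d03, nat_lit 0x31881, nat_lit 0x3769a4ca2e51628792885f629c0da89, nat_lit 0xd28517287128c5f829d0db07, nat_lit 0x50f0db82, nat_lit 0x0, nat_lit 0x0, nat_lit 0x1a60a3a514285942894c2fe0dc08, nat_lit 0x69928f9454a184a715106, nat_lit 0x15aca3e51628a0d586002a30dd08, nat_lit 0x34d9484a2e51528712a46022a40dd89, nat_lit 0x5222909458a1e50e18106, nat_lit 0x31c81, nat_lit 0x69e25602, nat_lit 0x0, nat_lit 0x0, nat_lit 0x3509498a3a4ae15485, nat_lit 0xd4452828e144c95e30515507, nat_lit 0x31e01, nat_lit 0xde06a429514a4a2a5142588df860e2ac0e08b, nat_lit 0x0, nat_lit 0x81338c9bc8d4c52c2959488a2e5162598d686122ae0e18e, nat_lit 0x3799a9cae452c2919484a2e4b41bf8d6c6142af0e20d, nat_lit 0x6a825a8e006162b00e286, nat_lit 0x0, nat_lit 0x0, nat_lit 0x52528e02, nat_lit 0x32181, nat_lit 0xde86ad29914c4a5251d25c8d7461c2b50e38b, nat_lit 0x1ab8a6653229514a0a3e4ba18788,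 nat_lit 0x81537b1abcae853329594a4a3e4bb1c08d7c6202b70e48e, nat_lit 0x38d1ac0aea53529614a8a424bc1c10d806222b80e50d, nat_lit 0x29b14d4a565222908d846242b90e589, nat_lit 0x32481, nat_lit 0x38e1be8d6653725f8e146282bb0e689, nat_lit 0x0, nat_lit 0x29e01, nat_lit 0x29e94f0a5031715f05, nat_lit 0xd7253d29994c4a525282628d8c6302bf0e70b, nat_lit 0x81a38e9bf0d7457829f94c8a545292630d906322c00e78e, nat_lit 0x0, nat_lit 0x81c38f1bf8d7857a2a09500a6c52c29593206362c20e88e, nat_lit 0x1bfcd7a5422a094dca6a52c2648e1c6ce31c1618c, nat_lit 0x3801af8a8654229c14d8a5c31d16209, nat_lit 0xd7e54329b932c71031e0ea07, nat_lit 0x39081, nat_lit 0x36081, nat_lit 0x65729e02, nat_lit 0x1518a7a53b29894c099c32116408, nat_lit 0x1b10a9053c29914c499e32216488, nat_lit 0x0, nat_lit 0xe086c62a51524a805332688da86482cb0eb8b, nat_lit 0x3919c14d8e54b2a51504a7e5352690dac64a2cc0ec0d, nat_lit 0xd9054c2a59508a8053629a934c7143261668b, nat_lit 0x1c90d9254c2a19504a6e53626a0e2c64e2ce0ed0c,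 nat_lit 0x8253929b28a9c54229c14dc9aa38c1940a, nat_lit 0x0, nat_lit 0x16801, nat_lit 0x55026c82, nat_lit 0x0, nat_lit 0x4141b38aa45512a494f49b632c16989, nat_lit 0x105270a3679548a9454829f937065a2d40ee0b, nat_lit 0x20a8e166d02c09550a965492a014fc9ba32e16a8c, nat_lit 0x10567262aa9550a9854a2a095006e032f16b0b, nat_lit 0x6d22ab152ca8454126f8e346e233016b8a, nat_lit 0x0, nat_lit 0x150c9c233216c84, nat_lit 0x0, nat_lit 0x153ca8c33416d84, nat_lit 0xe1e6d62ad15489ca33516e07, nat_lit 0xab655a2a89524a904e619b07, nat_lit 0x0, nat_lit 0x20c0e566d92ae1554a9654a2740dd06702df0ef8c, nat_lit 0x36d1558aa84e917005, nat_lit 0x2af155caaa54c19d05, nat_lit 0x55627582, nat_lit 0x0, nat_lit 0x0, nat_lit 0x6e02b09548aa24ef19f86, nat_lit 0x1cb4e286e12b09570aa434017308, nat_lit 0x83738a9b88ac655b2aa13c47203411738a, nat_lit 0x0, nat_lit 0x10726e42b215589e634317487, nat_lit 0x0, nat_lit 0x0, nat_lit 0x15686f034617684, nat_lit 0x0,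 nat_lit 0x72f37495709f434817786, nat_lit 0x2b401, nat_lit 0x83d27e02, nat_lit 0x27f81, nat_lit 0x0, nat_lit 0x17b01, nat_lit 0x0, nat_lit 0x0, nat_lit 0x0, nat_lit 0x0, nat_lit 0x2b501, nat_lit 0x0, nat_lit 0x0, nat_lit 0x18901, nat_lit 0xd3a57018983, nat_lit 0x0, nat_lit 0x34f81, nat_lit 0x0, nat_lit 0x0, nat_lit 0x0, nat_lit 0x0, nat_lit 0x0, nat_lit 0xb1a57e19303, nat_lit 0x0, nat_lit 0x6b419482, nat_lit 0x7031b482, nat_lit 0x1af0afc5791b504, nat_lit 0x0, nat_lit 0x0, nat_lit 0x0, nat_lit 0x0, nat_lit 0x84e2bf82, nat_lit 0x0, nat_lit 0x0, nat_lit 0x36d01, nat_lit 0x0, nat_lit 0x3990fd82, nat_lit 0x2c381, nat_lit 0x2c581, nat_lit 0x0, nat_lit 0x0, nat_lit 0x37a81, nat_lit 0x5791b602, nat_lit 0x0, nat_lit 0x37e81, nat_lit 0x0, nat_lit 0x0, nat_lit 0x0, nat_lit 0x0, nat_lit 0x0, nat_lit 0x10481, nat_lit 0x0, nat_lit 0x0, nat_lit 0x0, nat_lit 0x1f701, nat_lit 0x0, nat_lit 0x10901, nat_lit 0x0, nat_lit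 0x0, nat_lit 0x0, nat_lit 0x0, nat_lit 0x0, nat_lit 0x0, nat_lit 0x0, nat_lit 0x0, nat_lit 0x0, nat_lit 0x1ee81, nat_lit 0x0, nat_lit 0x1f101, nat_lit 0xb525a31ce03, nat_lit 0x43901, nat_lit 0x0, nat_lit 0x0, nat_lit 0x0, nat_lit 0x3c701, nat_lit 0x0, nat_lit 0x79122f02, nat_lit 0x7922d482, nat_lit 0x3c981, nat_lit 0x0, nat_lit 0x0, nat_lit 0x0, nat_lit 0x0, nat_lit 0xb6e5b023503, nat_lit 0x1810b6c3fa1db04, nat_lit 0x0, nat_lit 0x0, nat_lit 0x0, nat_lit 0x23981, nat_lit 0x0, nat_lit 0x0, nat_lit 0x0, nat_lit 0x0, nat_lit 0x2e201, nat_lit 0x0, nat_lit 0x30d01, nat_lit 0x0, nat_lit 0x0, nat_lit 0x0, nat_lit 0x0, nat_lit 0x0, nat_lit 0x0, nat_lit 0x11d01, nat_lit 0x2e881, nat_lit 0x0, nat_lit 0x1dd8eaa5d42e9973494442911e88, nat_lit 0x1ef4b9842a11f04, nat_lit 0x0, nat_lit 0x0, nat_lit 0x3bd01, nat_lit 0x2ed9748b944a712105, nat_lit 0x1cfcbb65d32e8972885e3a812188, nat_lit 0x3be9774ba85d22e612a48603cc12209,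 nat_lit 0x2ef1774ba65cc12285, nat_lit 0x0, nat_lit 0x1e781, nat_lit 0x0, nat_lit 0x1f10f005e212384, nat_lit 0x78125790d87a03a912406, nat_lit 0x31e01, nat_lit 0x1798bca5d22e892c48703d212508, nat_lit 0x0, nat_lit 0xbce5de2ea174c8743d412607, nat_lit 0x7ca3c317a0bbe5dd2ea12d08763d51268a, nat_lit 0xbd45de25a83, nat_lit 0x0, nat_lit 0x0, nat_lit 0x5d821e82, nat_lit 0x0, nat_lit 0x3e697b8bca5d925c90fc7b43ae12889, nat_lit 0x7ce2f817bcbcc5e41ed86, nat_lit 0x1e34be05e72f2976c97644112988, nat_lit 0xfa078e2f917a0bcc5dd2d292f08843dd12a0b, nat_lit 0xbe65f22f39778bba5a612a87, nat_lit 0x0, nat_lit 0x5f42f5977c88a3e012b86, nat_lit 0x0, nat_lit 0x0, nat_lit 0x4481f102, nat_lit 0x5f91d882, nat_lit 0x1e4cbf25f02f7179498a44a12d08, nat_lit 0x21f8fae7942fd97bcbcc5e52d513188963e512d8c, nat_lit 0x0, nat_lit 0x5fd2fe17ccbce44d1f386, nat_lit 0xfb47972ff17f4be444e1f407, nat_lit 0x1e60ec05fe2fa97a899444f1f488, nat_lit 0xbfe5f62fa17a899645013007,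 nat_lit 0x0, nat_lit 0x1da01, nat_lit 0xfbc4541da83, nat_lit 0xf346032f7133c8aa3ee13207, nat_lit 0x0, nat_lit 0x1e70c084d11f804, nat_lit 0x2208fc460630297c88b03f113388, nat_lit 0x110679e3a3181cc0c5fe2fe17ccbe43ba1340b, nat_lit 0x17f4be85f313484, nat_lit 0xbfc5f51fa03, nat_lit 0x0, nat_lit 0x0, nat_lit 0x0, nat_lit 0x2218fd27a23a49838c1a6042fc936c8c03f91370c, nat_lit 0x110e7ea3071814c065fb2db93708c23fa1378b, nat_lit 0x1840c0c5fc13804, nat_lit 0xfd860730297f4bf83fc13887, nat_lit 0x1818bfa3fd13904, nat_lit 0x0, nat_lit 0x0, nat_lit 0x20001, nat_lit 0x3d481, nat_lit 0xf5460d23503, nat_lit 0x88930713948d640313a86, nat_lit 0x1834c0860323604, nat_lit 0x0, nat_lit 0x1fd4c3061130293a08dc40613c08, nat_lit 0x2234c3446f20384, nat_lit 0x1ec0c3461323804, nat_lit 0x0, nat_lit 0x0, nat_lit 0x0, nat_lit 0xf666202df93bc8ea40d13f07, nat_lit 0x11247fc3da1880c2c60e2e013c08ec40e13f8b, nat_lit 0xffa7b531118848ee40f14007,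 nat_lit 0x0, nat_lit 0x44a9ffcf6e6233091844b8447920889, nat_lit 0x0, nat_lit 0x10004f520983, nat_lit 0x0, nat_lit 0x0, nat_lit 0x8973dc82, nat_lit 0x30b01, nat_lit 0x0, nat_lit 0x100862330c13e890241714387, nat_lit 0x48220c02, nat_lit 0x44d81, nat_lit 0x40381, nat_lit 0x0, nat_lit 0x0, nat_lit 0x62724582, nat_lit 0x44f01, nat_lit 0x0, nat_lit 0x0, nat_lit 0x14981, nat_lit 0x0, nat_lit 0x0, nat_lit 0x14b01, nat_lit 0x0, nat_lit 0x3e09dd4d185cb286926c8503cd14d89, nat_lit 0x0, nat_lit 0x3e31de4d205cf289127c8583d115009, nat_lit 0x0, nat_lit 0x0, nat_lit 0x0, nat_lit 0x0, nat_lit 0x0, nat_lit 0x4089f2cefe6962ea94608643d715309, nat_lit 0x0, nat_lit 0x1ec01, nat_lit 0x10247cf3c11d58d345da28f12a086e3dc1558b, nat_lit 0x0, nat_lit 0x0, nat_lit 0x0, nat_lit 0x40a1e20bc052415885, nat_lit 0x0, nat_lit 0x0, nat_lit 0x11407d63c51d60d465e329392c087c3e415a0b, nat_lit 0x0, nat_lit 0x0, nat_lit 0x0, nat_lit 0x0, nat_lit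 0x0, nat_lit 0x40b1f70d525e929692d88883ea15d09, nat_lit 0x0, nat_lit 0xfba6ab1f603, nat_lit 0x0, nat_lit 0x0, nat_lit 0x0, nat_lit 0x0, nat_lit 0x0, nat_lit 0x451206cfc67953ae1ac4ca45f129a12f48983f21608d, nat_lit 0x0, nat_lit 0x0, nat_lit 0x0, nat_lit 0x0, nat_lit 0x0, nat_lit 0x13108a63f816384, nat_lit 0x0, nat_lit 0x0, nat_lit 0x0, nat_lit 0x0, nat_lit 0x0, nat_lit 0x0, nat_lit 0x0, nat_lit 0x4131800a8845c20085, nat_lit 0x0, nat_lit 0x0, nat_lit 0x454a09cfe67a13b09b14cc26022a393408be4041690d, nat_lit 0x0, nat_lit 0x0, nat_lit 0x0, nat_lit 0x0, nat_lit 0x0, nat_lit 0x4169e9cd966082a693588ca40a16c09, nat_lit 0x0, nat_lit 0x0, nat_lit 0x0, nat_lit 0x0, nat_lit 0x0, nat_lit 0x0, nat_lit 0x0, nat_lit 0x6d527202, nat_lit 0x0, nat_lit 0x11628344011ec8ece6d730a93988e84151720b, nat_lit 0x0, nat_lit 0x0, nat_lit 0x11688384031ed8db66192ae93a88f04191740b, nat_lit 0x0, nat_lit 0x116a83a4041ee0dba61b2af93b08f441b1750b,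 nat_lit 0x0, nat_lit 0x0, nat_lit 0x0, nat_lit 0x0, nat_lit 0x8b741da030ed66e331095889e44801770a, nat_lit 0x0, nat_lit 0x0, nat_lit 0x0, nat_lit 0x8b93b61b9c9f048717906, nat_lit 0x0, nat_lit 0x0, nat_lit 0x62a24682, nat_lit 0x28081, nat_lit 0x0, nat_lit 0x17d81, nat_lit 0x0, nat_lit 0xd1242d17f03, nat_lit 0x17f81, nat_lit 0x42f18002, nat_lit 0x21801, nat_lit 0x0, nat_lit 0x1f08d2a49c18184, nat_lit 0x0, nat_lit 0x34b81, nat_lit 0x0, nat_lit 0x34c9a4894043818385, nat_lit 0x69b3499a2cd144a118406, nat_lit 0x1dd8d36694349143894443a18488, nat_lit 0x3e51a74d2a6932b6143c94643b18509, nat_lit 0x34a01, nat_lit 0x0, nat_lit 0x6a234782, nat_lit 0xef46a234c944c94c43f18707, nat_lit 0x7ce3bd9a90d306912b7145094e4401878a, nat_lit 0x0, nat_lit 0x1a98d4a693349145895244218888, nat_lit 0x0, nat_lit 0xfa46a83539a78d2857118987, nat_lit 0x1aa0d2a4ac18a04, nat_lit 0x1aa8ae651a25684, nat_lit 0x0, nat_lit 0x28e01, nat_lit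 0x1ab4d4269834b947495e44918b88, nat_lit 0x0, nat_lit 0x2068fae7833781abcd5c6a534c947c96244b18c8c, nat_lit 0x1bc4d606af3531a90d364b218d08, nat_lit 0xfb27853581a9cd4a69b2ba148496644d18d8b, nat_lit 0x1f68d646a83531a74a444b418e08, nat_lit 0x103c7873591a9cd3c69d2bb148c96a44f18e8b, nat_lit 0x0, nat_lit 0x34f81, nat_lit 0x0, nat_lit 0xfbc45419083, nat_lit 0xd726b835114a097245519107, nat_lit 0x3c61ae8d726af3569a90a524ba19189, nat_lit 0xfc278d35d1ac0d5c6a535214a89764571920b, nat_lit 0x10827e23c71af0d5e6a635294ac9784581928b, nat_lit 0x0, nat_lit 0x7e435f1af4d506a722d06, nat_lit 0x6fa35f1ad0a5c4bf19406, nat_lit 0x6aa2bd82, nat_lit 0x0, nat_lit 0x0, nat_lit 0x22f01, nat_lit 0xf246c435c9adcd5a53119587, nat_lit 0x1b10d746b83571ab4a644c519608, nat_lit 0x8c03ca1b18d726af35714cc98c4611968a, nat_lit 0x0, nat_lit 0x8c23641b1cd7a6b02be94d49904631978a, nat_lit 0x8c33f69e5cd926c835f1af0d645361980a, nat_lit 0x8483649afcd7a6b335915fca6e4ca1988a,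 nat_lit 0x7ef3651acca704cb23306, nat_lit 0x0, nat_lit 0x29d01, nat_lit 0x35b81, nat_lit 0x3cc81, nat_lit 0xd9c6c335c9ae099e46b19a87, nat_lit 0x0, nat_lit 0x8c53fa1e70da06cf3639ae8a7e4d119b8a, nat_lit 0x2318fea79d3681b20d8c6bc2c015009a446e19c0c, nat_lit 0x109a8313691b24d8e6bd35e15049a646f19c8b, nat_lit 0x7073699b48d946c835f1af4a844d42380a, nat_lit 0x36a1b4cd926bf35f150c9aa47119d89, nat_lit 0x0, nat_lit 0x0, nat_lit 0x7fa26d02, nat_lit 0x7fb3d11b58d9e6cd36215209b647519f8a, nat_lit 0x4649ff0f4670a36c1b5cda06ce36315249b84761a00d, nat_lit 0x20dcdb26d83679b1cd8c54a23b88, nat_lit 0x0, nat_lit 0x1e98e1a6d336495309be4791a188, nat_lit 0x36e1b28d924e01a205, nat_lit 0x119885436e03, nat_lit 0x0, nat_lit 0x1eacd9c55123f04, nat_lit 0x0, nat_lit 0x119c8033881b88dc26d936b9b40d9e4e71a38b, nat_lit 0x8cf42aa010dc46da36c1b40aa84e82408a, nat_lit 0x23410ac8053d79c48db26d22c295549d24821a48c, nat_lit 0x0, nat_lit 0xdca6d427583,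 nat_lit 0x0, nat_lit 0x0, nat_lit 0x55927702, nat_lit 0x8d227782, nat_lit 0x38a1b60dae55b27805, nat_lit 0x6d92ae02, nat_lit 0x0, nat_lit 0x4069edcdd66ea37295789e648c1a889, nat_lit 0x36e01, nat_lit 0x0, nat_lit 0x0, nat_lit 0x11ae4f91a983, nat_lit 0x6e22b182, nat_lit 0x4fb1aa02, nat_lit 0x37201, nat_lit 0x0, nat_lit 0x0, nat_lit 0x0, nat_lit 0x0, nat_lit 0x35201, nat_lit 0x0, nat_lit 0x0, nat_lit 0x0, nat_lit 0x0, nat_lit 0x0, nat_lit 0x0, nat_lit 0x1b581, nat_lit 0x0, nat_lit 0x0, nat_lit 0x0, nat_lit 0x0, nat_lit 0x3f101, nat_lit 0x213505458f2bc84, nat_lit 0x0, nat_lit 0x0, nat_lit 0x0, nat_lit 0x0, nat_lit 0x0, nat_lit 0x0, nat_lit 0x0, nat_lit 0x0, nat_lit 0x0, nat_lit 0x0, nat_lit 0x0, nat_lit 0x0, nat_lit 0x6cf2c002, nat_lit 0x0, nat_lit 0x0, nat_lit 0x6d22a602, nat_lit 0x0, nat_lit 0x0, nat_lit 0x38a01, nat_lit 0x0, nat_lit 0x0, nat_lit 0x0, nat_lit 0x0, nat_lit 0x0, nat_lit 0x0, nat_lit 0x0,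 nat_lit 0x0, nat_lit 0x0, nat_lit 0x29581, nat_lit 0x1c201, nat_lit 0x52e1c282, nat_lit 0x11de81a29983, nat_lit 0xe3e5351c303, nat_lit 0x39201, nat_lit 0x8491c402, nat_lit 0x0, nat_lit 0x1c481, nat_lit 0x2a001, nat_lit 0x42701, nat_lit 0x1c601, nat_lit 0x0, nat_lit 0x42981, nat_lit 0x1c701, nat_lit 0x0, nat_lit 0x0, nat_lit 0x5541c782, nat_lit 0x0, nat_lit 0x0, nat_lit 0x0, nat_lit 0x2b181, nat_lit 0x0, nat_lit 0x0, nat_lit 0x0, nat_lit 0x0, nat_lit 0x0, nat_lit 0x0, nat_lit 0x0, nat_lit 0x0, nat_lit 0x0, nat_lit 0x0, nat_lit 0x0, nat_lit 0x0, nat_lit 0x0, nat_lit 0x1d081, nat_lit 0x0, nat_lit 0x0, nat_lit 0x7442f802, nat_lit 0x0, nat_lit 0x0, nat_lit 0x0, nat_lit 0x3a501, nat_lit 0x0, nat_lit 0x0, nat_lit 0x30081, nat_lit 0x44281, nat_lit 0x0, nat_lit 0x88730202, nat_lit 0x0, nat_lit 0x111275130683, nat_lit 0x44601, nat_lit 0x0, nat_lit 0x44781, nat_lit 0x0, nat_lit 0x30b01, nat_lit 0x8931e102,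 nat_lit 0x89630f02, nat_lit 0x31101, nat_lit 0x0, nat_lit 0x0, nat_lit 0x0, nat_lit 0x0, nat_lit 0x0, nat_lit 0x1f801, nat_lit 0x0, nat_lit 0x0, nat_lit 0x0, nat_lit 0x3b101, nat_lit 0x0, nat_lit 0x0, nat_lit 0x0, nat_lit 0x76320282, nat_lit 0x0, nat_lit 0x0, nat_lit 0x0, nat_lit 0x2dc81, nat_lit 0x0, nat_lit 0xed476420b03, nat_lit 0x0, nat_lit 0x0, nat_lit 0x0, nat_lit 0x0, nat_lit 0x0, nat_lit 0x3b681, nat_lit 0x0, nat_lit 0x0, nat_lit 0x0, nat_lit 0x0, nat_lit 0x0, nat_lit 0x7733b782, nat_lit 0x0, nat_lit 0x69321d02, nat_lit 0x0, nat_lit 0x0, nat_lit 0x0, nat_lit 0x0, nat_lit 0x0, nat_lit 0x3bd81, nat_lit 0x3c281, nat_lit 0x77d3bb02, nat_lit 0x0, nat_lit 0x0, nat_lit 0x7ce3c59e00eae5d922486, nat_lit 0x0, nat_lit 0xd485a522583, nat_lit 0x0, nat_lit 0x77e3be82, nat_lit 0x78f35382, nat_lit 0xeb26a822783, nat_lit 0x0, nat_lit 0x0, nat_lit 0x0, nat_lit 0x7933c602, nat_lit 0xf287933c683, nat_lit 0x1f64d5e5e62d604,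 nat_lit 0xf1e6b02d683, nat_lit 0x8a84399f6cf1c7863c286, nat_lit 0x0, nat_lit 0x0, nat_lit 0x79a35c02, nat_lit 0x79a23002, nat_lit 0x1e70d745f023084, nat_lit 0x0, nat_lit 0x0, nat_lit 0x0, nat_lit 0x0, nat_lit 0x3f481, nat_lit 0x3d11e64f267922fc85, nat_lit 0x0, nat_lit 0xfd879436303, nat_lit 0x7a53d202, nat_lit 0x3d281, nat_lit 0x0, nat_lit 0x0, nat_lit 0x0, nat_lit 0x8b230182, nat_lit 0x11927f536783, nat_lit 0x0, nat_lit 0x7af3d71e98f4879e3ce86, nat_lit 0x8cb36902, nat_lit 0x0, nat_lit 0x0, nat_lit 0x0, nat_lit 0x30601, nat_lit 0x48501, nat_lit 0x0, nat_lit 0x0, nat_lit 0x0, nat_lit 0x36d01, nat_lit 0x24181, nat_lit 0x2e181, nat_lit 0x0, nat_lit 0xdc061624403, nat_lit 0x8d34021ee8f6a7ac37086, nat_lit 0x76a30c02, nat_lit 0x0, nat_lit 0x0, nat_lit 0x0, nat_lit 0x7ba37302, nat_lit 0x87c3da02, nat_lit 0x31101, nat_lit 0x0, nat_lit 0x2e681, nat_lit 0x3b901, nat_lit 0x2e881, nat_lit 0x0, nat_lit 0x0,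 nat_lit 0x0, nat_lit 0x0, nat_lit 0x0, nat_lit 0x3e601, nat_lit 0x31981, nat_lit 0x7ce2ed82, nat_lit 0x0, nat_lit 0x117a6932ee83, nat_lit 0x2ef01, nat_lit 0x0, nat_lit 0x3e281, nat_lit 0x3e281, nat_lit 0x78134c82, nat_lit 0x0, nat_lit 0x2f381, nat_lit 0x0, nat_lit 0x78525f02, nat_lit 0x3ed81, nat_lit 0x0, nat_lit 0x3e601, nat_lit 0x0, nat_lit 0x21f8fc07d82f804, nat_lit 0xfc27d93eb83, nat_lit 0x24511b487f3f19f88fb47d83e81bd8d4c5f22640c, nat_lit 0x7e43ed9f64dee5f326486, nat_lit 0x0, nat_lit 0x0, nat_lit 0x0, nat_lit 0x0, nat_lit 0x0, nat_lit 0x1fa4fc27df3eb84, nat_lit 0xfd47e23f003, nat_lit 0x6b02fe02, nat_lit 0x0, nat_lit 0x2ff01, nat_lit 0x7e62ff82, nat_lit 0x0, nat_lit 0x0, nat_lit 0x0, nat_lit 0x3f501, nat_lit 0xfc26ba30203, nat_lit 0x0, nat_lit 0x7e230302, nat_lit 0x38281, nat_lit 0x0, nat_lit 0x0, nat_lit 0x27101, nat_lit 0x0, nat_lit 0x0, nat_lit 0x0, nat_lit 0xffa7f536303, nat_lit 0x91b44620c0fec7f43f61e8cd8e6102740a,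 nat_lit 0x0, nat_lit 0x0, nat_lit 0x0, nat_lit 0x44781, nat_lit 0x0, nat_lit 0x6ce27782, nat_lit 0x112483630b83, nat_lit 0x46a01, nat_lit 0x0, nat_lit 0x0, nat_lit 0x0, nat_lit 0x0, nat_lit 0x0, nat_lit 0x80436c02, nat_lit 0x23a901680331104, nat_lit 0x6da31182, nat_lit 0x0, nat_lit 0x0, nat_lit 0x0, nat_lit 0x0, nat_lit 0x0, nat_lit 0x0, nat_lit 0x0, nat_lit 0x0, nat_lit 0x0, nat_lit 0x0, nat_lit 0x0, nat_lit 0x0, nat_lit 0x0, nat_lit 0x0, nat_lit 0x0, nat_lit 0x0, nat_lit 0x0, nat_lit 0x0, nat_lit 0x0, nat_lit 0x0, nat_lit 0x0, nat_lit 0x0, nat_lit 0x0, nat_lit 0x461a1110467da37985, nat_lit 0x0, nat_lit 0x40b81, nat_lit 0x81940c02, nat_lit 0x0, nat_lit 0x0, nat_lit 0x82c415a09103a81c2a086, nat_lit 0x0, nat_lit 0x0, nat_lit 0x0, nat_lit 0x0, nat_lit 0x2a401, nat_lit 0x0, nat_lit 0x8ac37e82, nat_lit 0x0, nat_lit 0x41181, nat_lit 0x0, nat_lit 0x8af42920d906a82938186, nat_lit 0x0, nat_lit 0x0, nat_lit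 0x0, nat_lit 0x0, nat_lit 0x0, nat_lit 0x0, nat_lit 0x0, nat_lit 0x0, nat_lit 0x0, nat_lit 0x0, nat_lit 0x72e2af02, nat_lit 0x0, nat_lit 0x0, nat_lit 0x41f01, nat_lit 0x0, nat_lit 0x0, nat_lit 0x0, nat_lit 0x0, nat_lit 0x45f01, nat_lit 0x2bc81, nat_lit 0x0, nat_lit 0x0, nat_lit 0x46081, nat_lit 0x0, nat_lit 0x46181, nat_lit 0x0, nat_lit 0x39001, nat_lit 0x36001, nat_lit 0x0, nat_lit 0x46301, nat_lit 0x213108e6c82c084, nat_lit 0x2c101, nat_lit 0x8c839282, nat_lit 0x0, nat_lit 0x0, nat_lit 0x0, nat_lit 0x0, nat_lit 0x0, nat_lit 0x36c81, nat_lit 0x0, nat_lit 0x0, nat_lit 0x0, nat_lit 0x0, nat_lit 0x37481, nat_lit 0x0, nat_lit 0x0, nat_lit 0x0, nat_lit 0x0, nat_lit 0x85e42e82, nat_lit 0x0, nat_lit 0x0, nat_lit 0x0, nat_lit 0x10ca86439983, nat_lit 0x38301, nat_lit 0x0, nat_lit 0x0, nat_lit 0x0, nat_lit 0x0, nat_lit 0x0, nat_lit 0x0, nat_lit 0x0, nat_lit 0x0, nat_lit 0x0, nat_lit 0x0, nat_lit 0x0, nat_lit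 0x0, nat_lit 0x3c481, nat_lit 0x120073b2d483, nat_lit 0x0, nat_lit 0x0, nat_lit 0x48081, nat_lit 0x11fe8fc47c83, nat_lit 0x24151f487a3a404, nat_lit 0x0, nat_lit 0x2df01, nat_lit 0x0, nat_lit 0x0, nat_lit 0x0, nat_lit 0x43e01, nat_lit 0x7d73a002, nat_lit 0x0, nat_lit 0x3a181, nat_lit 0x3f081, nat_lit 0x122a8fe441a1d0fc47452fe07, nat_lit 0x91644102, nat_lit 0x0, nat_lit 0x88644202, nat_lit 0x0, nat_lit 0x455a218fd474a30205, nat_lit 0x30381, nat_lit 0x88630682, nat_lit 0x0, nat_lit 0x0, nat_lit 0x22351167f53a684, nat_lit 0x123888c3a703, nat_lit 0x0, nat_lit 0x3a781, nat_lit 0x0, nat_lit 0xff675130b03, nat_lit 0x7fc30b82, nat_lit 0x44601, nat_lit 0x0, nat_lit 0x89a30d02, nat_lit 0x3a981, nat_lit 0x30f81, nat_lit 0x0, nat_lit 0x0, nat_lit 0x44a81, nat_lit 0x92131202, nat_lit 0x113e89d40483, nat_lit 0x31301, nat_lit 0x31481, nat_lit 0x44e01, nat_lit 0x0, nat_lit 0x0, nat_lit 0x0, nat_lit 0x0, nat_lit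 0x0, nat_lit 0x0, nat_lit 0x0, nat_lit 0x0, nat_lit 0x0, nat_lit 0x0, nat_lit 0x0, nat_lit 0x0, nat_lit 0x0, nat_lit 0x0, nat_lit 0x0, nat_lit 0x41701, nat_lit 0x0, nat_lit 0x8b633902, nat_lit 0x3d101, nat_lit 0x0, nat_lit 0x0, nat_lit 0x0, nat_lit 0x0, nat_lit 0x0, nat_lit 0x0, nat_lit 0x0, nat_lit 0x0, nat_lit 0x0, nat_lit 0x0, nat_lit 0x0, nat_lit 0x8413c702, nat_lit 0x42181, nat_lit 0x79435d02, nat_lit 0x0, nat_lit 0x3cb01, nat_lit 0x84735e82, nat_lit 0x0, nat_lit 0x0, nat_lit 0x232909879d36384, nat_lit 0x45681, nat_lit 0x42781, nat_lit 0x124e91d483a2b90a27a336787, nat_lit 0x0, nat_lit 0x9093d302, nat_lit 0x0, nat_lit 0x0, nat_lit 0x0, nat_lit 0x0, nat_lit 0x0, nat_lit 0x0, nat_lit 0x3d981, nat_lit 0x0, nat_lit 0x0, nat_lit 0x0, nat_lit 0x42c81, nat_lit 0x48881, nat_lit 0x7bb37482, nat_lit 0x0, nat_lit 0x0, nat_lit 0x0, nat_lit 0x48b01, nat_lit 0x3f281, nat_lit 0x0, nat_lit 0x248d2308c438184,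 nat_lit 0x0, nat_lit 0x0, nat_lit 0x0, nat_lit 0x47381, nat_lit 0x8e138602, nat_lit 0x38701, nat_lit 0x0, nat_lit 0x92946702, nat_lit 0x3ff81, nat_lit 0x0, nat_lit 0x0, nat_lit 0x92147623a51d085738b06, nat_lit 0x0, nat_lit 0x49101, nat_lit 0x0, nat_lit 0x0, nat_lit 0x0, nat_lit 0x0, nat_lit 0x0, nat_lit 0x0, nat_lit 0x41b81, nat_lit 0x41e81, nat_lit 0x92c42182, nat_lit 0x0, nat_lit 0x0, nat_lit 0x0, nat_lit 0x0, nat_lit 0x0, nat_lit 0x0, nat_lit 0x0, nat_lit 0x0, nat_lit 0x0, nat_lit 0x0, nat_lit 0x91643a82, nat_lit 0x0, nat_lit 0x0, nat_lit 0x49b81, nat_lit 0x0, nat_lit 0x0, nat_lit 0x0, nat_lit 0x0, nat_lit 0x0, nat_lit 0x44481, nat_lit 0x48f01, nat_lit 0x0, nat_lit 0x90e48502, nat_lit 0x0, nat_lit 0x0, nat_lit 0x0, nat_lit 0x124491248803, nat_lit 0x0, nat_lit 0x0, nat_lit 0x48b01, nat_lit 0x0, nat_lit 0x12028dc44183, nat_lit 0x0, nat_lit 0x0, nat_lit 0x3f601, nat_lit 0x0, nat_lit 0x0, nat_lit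 0x0, nat_lit 0x0, nat_lit 0x0, nat_lit 0x44a01, nat_lit 0x90d44c02, nat_lit 0x47581, nat_lit 0x12228ed46a83, nat_lit 0x0, nat_lit 0x0, nat_lit 0x0, nat_lit 0x0, nat_lit 0x0, nat_lit 0x0, nat_lit 0x0, nat_lit 0x0, nat_lit 0x0, nat_lit 0x0, nat_lit 0x0, nat_lit 0x0, nat_lit 0x0, nat_lit 0x0, nat_lit 0x0, nat_lit 0x0, nat_lit 0x0, nat_lit 0x0, nat_lit 0x45901, nat_lit 0x128c94349983, nat_lit 0x0, nat_lit 0x0, nat_lit 0x0, nat_lit 0x0, nat_lit 0x0, nat_lit 0x0, nat_lit 0x0, nat_lit 0x0, nat_lit 0x0, nat_lit 0x0, nat_lit 0x0, nat_lit 0x0, nat_lit 0x0, nat_lit 0x0, nat_lit 0x0, nat_lit 0x0, nat_lit 0x0, nat_lit 0x0, nat_lit 0x0, nat_lit 0x0]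
def apl : List Nat := [nat_lit 0x7c41ac05900e003400e, nat_lit 0xbb82ee08f014004c014, nat_lit 0x23f4eac3dc090009c016, nat_lit 0xde43c00c502a0064018, nat_lit 0xe5c4020e702e807801e, nat_lit 0x24b108657a0f88178020, nat_lit 0x11b44cc12b03b8090022, nat_lit 0x124450c1370400098024, nat_lit 0xc0080050030028024, nat_lit 0x7c03a01900b004c024, nat_lit 0x157c6881a705700e402a, nat_lit 0x16006de1cf05e012c030, nat_lit 0x163870a1ea0670158034, nat_lit 0x164c7161f106b0164038, nat_lit 0xec04a618e06a0184044, nat_lit 0x17f47e4222082019c046, nat_lit 0x19e08f627409981f004a, nat_lit 0x1bc8a423090be8248052, nat_lit 0x1be0a583120c2025c056, nat_lit 0x1be4a5a3130c28260058, nat_lit 0x1bf0a663190c3826805a, nat_lit 0x1bf4a6831a0c4026c05c, nat_lit 0x1bf8a6a31b0c4827005e, nat_lit 0x1c0ca7c3230c68280060, nat_lit 0x1c14a803250c78284062, nat_lit 0x1c20a863280c9028c064, nat_lit 0x1c28a9232d0ca8294066, nat_lit 0x1c34a983300cc029c068,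 nat_lit 0x1c40aa63370ce82a406a, nat_lit 0x1c4caac33a0d002ac06c, nat_lit 0x24f120078a22a056c06e, nat_lit 0x1c50ab63400d182b4070, nat_lit 0x1c5cac43470d582bc074, nat_lit 0x1c60ac63480d602c0076, nat_lit 0x24fd20e7a323b05cc07a, nat_lit 0x25012127a623c85d007c, nat_lit 0x1c8caf03640e082d4088, nat_lit 0x1c90af43660e182dc08c, nat_lit 0x250922a7e226906780a6, nat_lit 0x16687e02bf0e703940c8, nat_lit 0x1e7cbfc3f311184140d0, nat_lit 0x1ec0c2440811704380d2, nat_lit 0x1edcc3441111884440d4, nat_lit 0x1f64c8c44112184600d6, nat_lit 0x1f68c8e44212204640d8, nat_lit 0x1f88ca044b125046c0da, nat_lit 0x1f90ca444d12604700dc, nat_lit 0x1fa8cb245512884780de, nat_lit 0x1fb4cb645812a04840e0, nat_lit 0x1fb8cb845912a84880e2, nat_lit 0x1fc0cbc45b12b84900e4, nat_lit 0x1fd4cc846112d84980e6, nat_lit 0x1fd8cca46212e049c0e8, nat_lit 0x1fe0cce46412f04a00ea, nat_lit 0x1ff0cd646b13204a80ec, nat_lit 0x2000cde47013484b40f0, nat_lit 0x200cce647513704b80f2,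 nat_lit 0x2010ce847613784bc0f4, nat_lit 0x201ccec47913904c80f6, nat_lit 0x2028cf447e13a84d00fa, nat_lit 0x2034cfa48113c04d40fc, nat_lit 0x203cd0448913f84d80fe, nat_lit 0x2070d4c4b31518500102, nat_lit 0x2094d664bf1578528106, nat_lit 0x20acd784c815b8538108, nat_lit 0x20b0d7a4c915c053c10a, nat_lit 0x20b4d7c4ca15c854010c, nat_lit 0x20b8d8a4d015f054c10e, nat_lit 0x20bcd8c4d115f8550110, nat_lit 0x20c8d944d51618560112, nat_lit 0x20dcda04dd1650574114, nat_lit 0x20e0da24de1658578116, nat_lit 0x20e8da64e01668580118, nat_lit 0x20f4db64ea16b059c11a, nat_lit 0x20f8dc44f116e85b811c, nat_lit 0x2104de051f18385ec120, nat_lit 0x2108de252018405f0122, nat_lit 0x210cde452118485f4124, nat_lit 0x2110de652218505f8126, nat_lit 0x2114dea5291878604128, nat_lit 0x2118dec52a188060812a, nat_lit 0x211cdee52b188860c12c, nat_lit 0x2124df252d1898614130, nat_lit 0x2128df452e18a0618132, nat_lit 0x2130df853318c861c134, nat_lit 0x2134dfa53418d0620136,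 nat_lit 0x2138dfc53518d8624138, nat_lit 0x213cdfe53618e062813a, nat_lit 0x2140e0053718e862c13c, nat_lit 0x2144e0453d191063013e, nat_lit 0x2148e0653e1918634140, nat_lit 0x214ce0a540192863c142, nat_lit 0x2150e0e5421938644144, nat_lit 0x2154e14549196865414a, nat_lit 0x2160e2055319b8674152, nat_lit 0x2164e2255419c0678154, nat_lit 0x2168e2855b1a0068c15a, nat_lit 0x2180e3c5741af86e8164, nat_lit 0x218ce465781b2070416a, nat_lit 0x1ce4b283bd137868c1ba, nat_lit 0x21e0e9459c1ce88141d4, nat_lit 0x6d42fa14008c03f01d8, nat_lit 0x2218eba5a91d688281da, nat_lit 0x3e01ee0f407883c01dc, nat_lit 0x2228ec25b01d888301de, nat_lit 0x70831014d08f84081de, nat_lit 0x73432415809404241e4, nat_lit 0x74432e15e09584301e6, nat_lit 0x75033416109684381ea, nat_lit 0x76834016709884401ee, nat_lit 0x2284f065db1e908541f2, nat_lit 0x2290f165e41ed085c1f6, nat_lit 0x2298f1a5e61ee08641f8, nat_lit 0x78836a17d0a004601f8, nat_lit 0x22a8f265ef1f2086c1fc,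 nat_lit 0x7903761830a3846c1fe, nat_lit 0x79c3821870a60478202, nat_lit 0x22c0f385fb1f80880206, nat_lit 0x22c4f426021fc089020c, nat_lit 0x22ccf466041fd089820e, nat_lit 0x7b439418f0aa849820e, nat_lit 0x22d0f4a6061fe08a0210, nat_lit 0x22d4f4e6081ff08a8214, nat_lit 0x3e81fa100081841c216, nat_lit 0x22dcf5a60f20288b0218, nat_lit 0x7c43a21970af04ac218, nat_lit 0x22e0f5c61020308b421a, nat_lit 0x7d03ae19d0b204b821e, nat_lit 0x22ecf7462020a88cc224, nat_lit 0x7dc3be1ac0b984d8226, nat_lit 0x22f8fa063d21c08ec228, nat_lit 0x22fcfa463e21d08f422a, nat_lit 0x2300fae64421f890422c, nat_lit 0x2304fb0645220090822e, nat_lit 0x2308fb2646220890c230, nat_lit 0x7e03c41b50be8500230, nat_lit 0x230cfb46472210910232, nat_lit 0x4d426012b093047c234, nat_lit 0x2318fc46502258928236, nat_lit 0x231cfc86522268930238, nat_lit 0x2320fca653227093423a, nat_lit 0x2324fd465922a894423c, nat_lit 0x7f03ce1c10c3853023c, nat_lit 0x232cfda65b22c0950242,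 nat_lit 0x2330fde65d22d0958246, nat_lit 0x7f43d61c80c6854c24a, nat_lit 0x233cfea664230896c24c, nat_lit 0x2340fec665231097024e, nat_lit 0x2344ff06672320978250, nat_lit 0x2348ff666a235098c252, nat_lit 0x7fc3e01ce0ca056c252, nat_lit 0x234cff866b2358990254, nat_lit 0x2358ffe66d237099c258, nat_lit 0x235d00667323a89b825c, nat_lit 0x236100867423b09bc25e, nat_lit 0x2001c01901e023c26e, nat_lit 0x5782aa14d0a304f8270, nat_lit 0x236902a69a2540a64272, nat_lit 0x5802ae14f0a40500274, nat_lit 0x5842b01500a48504276, nat_lit 0x236d02c69d2558a70278, nat_lit 0x50828214009f84f827a, nat_lit 0x50c2841410a004fc27c, nat_lit 0x23710366a52590a8827e, nat_lit 0x59c2be1560a7051c27e, nat_lit 0x23790406ad25c8aa4288, nat_lit 0x237d0426ae25d0aa828a, nat_lit 0x8083f21e30dd060828c, nat_lit 0x23850466b125e8ab4290, nat_lit 0x238904e6b82620acc296, nat_lit 0x5442a014f0a70534298, nat_lit 0x238d0546bb2638ad829a, nat_lit 0x23910566bc2640adc29c,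 nat_lit 0x239505a6be2650ae42a0, nat_lit 0x5d82e416d0b1856c2a4, nat_lit 0x239905c6c52680af82a6, nat_lit 0x5602ae1560aa85502a6, nat_lit 0x239d05e6c62688afc2a8, nat_lit 0x80c3fc1ec0e486382a8, nat_lit 0x23a10606c72690b002aa, nat_lit 0x5682b21580ab85582aa, nat_lit 0x5802be15e0ae85702b6, nat_lit 0x23a906c6cf26e0b242b8, nat_lit 0x23ad0706d126f0b2c2bc, nat_lit 0x59c2cc1650b2058c2c4, nat_lit 0x23b50766d82738b4c2c8, nat_lit 0x5a82d21680b385982ca, nat_lit 0x23b907a6db2750b582ce, nat_lit 0x5182981530ad85882d6, nat_lit 0x5c42e016f0b705b42d8, nat_lit 0x52029c1550ae85902da, nat_lit 0x5282a01570af85982de, nat_lit 0x5582bc1650b705c82ea, nat_lit 0x6603201890c185f02f2, nat_lit 0x67832c18e0c386042f4, nat_lit 0x5fc2fc17d0be05ec2f4, nat_lit 0x23c10826f028f8c1c2f6, nat_lit 0x6803301900c4860c2f8, nat_lit 0x6143081830c10604300, nat_lit 0x61830a1840c18608302, nat_lit 0x69833e1970c78620304, nat_lit 0x23c908e6f72958c44306,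 nat_lit 0x23cd09a6fd29a0c68310, nat_lit 0x23d10a470329f0c8c31a, nat_lit 0x6483221900c7863831a, nat_lit 0x64c3241910c8063c31c, nat_lit 0x6c035c1ab0d18670328, nat_lit 0x6643301970cb0654328, nat_lit 0x68033e19e0ce8670336, nat_lit 0x5f83081890c7865833a, nat_lit 0x61031218f0cb0674346, nat_lit 0x61c31a1940cd8684350, nat_lit 0x62031c1950ce0688352, nat_lit 0x252928891a3f99398354, nat_lit 0x63c32c19d0d186a835a, nat_lit 0x23d90b87192b58d58362, nat_lit 0x23dd0be71c2b90d6c36c, nat_lit 0x6f43781bb0dd06e4370, nat_lit 0x7783b81d60e7071c37e, nat_lit 0x7683b21d80eb87583aa, nat_lit 0x6d83781c30e507403ae, nat_lit 0x7d43e41ee0f487903c2, nat_lit 0x23e10d47342c68e0c3d0, nat_lit 0x21ace765a922a0c843de, nat_lit 0xc4855a24b10e882c408, nat_lit 0xc9c58425d114084440c, nat_lit 0xd5c60429b11e085840e, nat_lit 0xd6060e2a1120885c410, nat_lit 0xd6c6142a41220868412, nat_lit 0xd986362b7129888041a, nat_lit 0xda063c2ba12b088c41c, nat_lit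 0xdac64a2c012d889841e, nat_lit 0xdb064c2c112e089c420, nat_lit 0xdc065e2cb13308b0426, nat_lit 0xde86aa2ff14c08e4428, nat_lit 0x24591447842ee0f4c42c, nat_lit 0xdec6ae30214d88f042c, nat_lit 0x246114a78c2f28f6c430, nat_lit 0x246514c78d2f30f70432, nat_lit 0xdf06b4309151890c432, nat_lit 0xdf46b630a1520910434, nat_lit 0x246d1567942f80f94438, nat_lit 0xdfc6c03111560928438, nat_lit 0xe006c2312156892c43a, nat_lit 0xe046c631815a094043c, nat_lit 0x247915e79b2fd0fbc43e, nat_lit 0x247d16079c2fd8fc0440, nat_lit 0xe106cc31b15b894c440, nat_lit 0xe146ce31c15c0950442, nat_lit 0x24811627a13010fe0448, nat_lit 0xe186d432415f896844a, nat_lit 0x24851687a53030ff0450, nat_lit 0xe206da3271610974450, nat_lit 0xe246dc32c164098c456, nat_lit 0x248916e7ad3079014458, nat_lit 0xe2c6e032f1658998458, nat_lit 0xe306e2330166099c45a, nat_lit 0xe346e833816a09bc45e, nat_lit 0xe386ea33916a89c0460, nat_lit 0xe3c6ec34016e09d4464, nat_lit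 0x9704a624a12108e8468, nat_lit 0x9744a824b12188ec46a, nat_lit 0x9784aa24c12208f046c, nat_lit 0x97c4ac24d12288f446e, nat_lit 0x8f847a23c11d88e8472, nat_lit 0x8fc47c23d11e08ec474, nat_lit 0x9a04ba254125890c476, nat_lit 0x9a44bc2551260910478, nat_lit 0x9a84be256126891447a, nat_lit 0x9ac4c0257127091847c, nat_lit 0x9bc4ca25a1288920480, nat_lit 0x9c04cc25b1290924482, nat_lit 0x91848a2441218908482, nat_lit 0x9c44ce25c1298928484, nat_lit 0x9c84d025d12a092c486, nat_lit 0x9cc4d225e12a8930488, nat_lit 0x9d04d425f12b093448a, nat_lit 0xe446fc35d1870aa448e, nat_lit 0x9d84dc26412c894048e, nat_lit 0x248d1887e03271124490, nat_lit 0x9dc4de26512d0944490, nat_lit 0x93449824b1250924490, nat_lit 0x249118a7e13279128492, nat_lit 0x9e04e026612d8948492, nat_lit 0x249518c7e2328112c494, nat_lit 0x9e44e226712e094c494, nat_lit 0x93c49c24d126092c494, nat_lit 0xe487003611890ab4496, nat_lit 0x9e84e426812e8950496, nat_lit 0x9ec4e626912f0954498,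 nat_lit 0xe4c70236318c0ad04a0, nat_lit 0x9544a825312909444a0, nat_lit 0xa004ee26f13289684a2, nat_lit 0xa044f0270133096c4a4, nat_lit 0x95c4ac25512a094c4a4, nat_lit 0xa084f227113389704a6, nat_lit 0x24a11967ed32d91604a8, nat_lit 0xe5070a36718e0ae04a8, nat_lit 0xa144fc275136898c4b0, nat_lit 0x8d447424112409404b0, nat_lit 0x8d847624212489444b2, nat_lit 0x9784ba25c12d89684b2, nat_lit 0x24a519c7f433191804b4, nat_lit 0xa1c50027713789944b4, nat_lit 0x8dc47824312509484b4, nat_lit 0x97c4bc25d12e096c4b4, nat_lit 0xe5470e36b1928b004b6, nat_lit 0x8e047a244125894c4b6, nat_lit 0x9844c025f12f09744b8, nat_lit 0x99c4cc265132098c4c4, nat_lit 0x8ec48424912889644c6, nat_lit 0x9a04ce26613289904c6, nat_lit 0x8f048624a12909684c8, nat_lit 0x9a44d026713309944c8, nat_lit 0x8f448824b129896c4ca, nat_lit 0x9a84d226813389984ca, nat_lit 0xa3451028113c09c04cc, nat_lit 0x8f848a24c12a09704cc, nat_lit 0x9ac4d4269134099c4cc, nat_lit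 0x90849225112c898c4d8, nat_lit 0x90c49425212d09904da, nat_lit 0x9c84e227013789b84da, nat_lit 0x91049625312d89944dc, nat_lit 0x9cc4e427113809bc4dc, nat_lit 0x91449825412e09984de, nat_lit 0x91849a25512e899c4e0, nat_lit 0x9e84f227813b89d84ea, nat_lit 0x9304a825c13309bc4ec, nat_lit 0x9344aa25d13389c04ee, nat_lit 0x9f04f627a13c89e04ee, nat_lit 0x93c4ae25f13489c84f2, nat_lit 0xe607203781a30b904fa, nat_lit 0x9504b826613789d84fc, nat_lit 0xa0c50428114009fc4fc, nat_lit 0x9584bc26813889e0500, nat_lit 0x95c4be26913909e4502, nat_lit 0x9704cc26f13b09f8508, nat_lit 0xa285122881438a1850a, nat_lit 0x9784d027113c0a0050c, nat_lit 0x9804d427313d0a08510, nat_lit 0x9a44e42791408a1c516, nat_lit 0x9a84e627a1410a20518, nat_lit 0xae055a2a314d0a4c51c, nat_lit 0x24ad1b2810345926851e, nat_lit 0xae455c2a414d8a5051e, nat_lit 0xae855e2a514e0a54520, nat_lit 0xb0056c2ab1508a60522, nat_lit 0xa5852a2941498a48522, nat_lit 0xb0456e2ac1510a64524,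 nat_lit 0xb085702ad1518a68526, nat_lit 0xb0c5722ae1520a6c528, nat_lit 0xb105742af1528a7052a, nat_lit 0xb145762b01530a7452c, nat_lit 0xb2857e2b51550a8052e, nat_lit 0xa7053629a14c8a6052e, nat_lit 0xb2c5802b61558a84530, nat_lit 0xa7453829b14d0a64530, nat_lit 0xb305822b71560a88532, nat_lit 0xa7853a29c14d8a68532, nat_lit 0xb345842b81568a8c534, nat_lit 0xb3c5882ba1578a94538, nat_lit 0xb4c5922be15a0aa453e, nat_lit 0xa905462a21508a8053e, nat_lit 0xb505942bf15a8aa8540, nat_lit 0xb545962c015b0aac542, nat_lit 0xa9854a2a41518a88542, nat_lit 0xb585982c115b8ab0544, nat_lit 0xa9c54c2a51520a8c544, nat_lit 0xb5c59a2c215c0ab4546, nat_lit 0xb6059c2c315c8ab8548, nat_lit 0xb6459e2c415d0abc54a, nat_lit 0xb705a42c815e8acc550, nat_lit 0xab45582ab1550aa4550, nat_lit 0xb745a62c915f0ad0552, nat_lit 0xab855a2ac1558aa8552, nat_lit 0xabc55c2ad1560aac554, nat_lit 0xac055e2ae1568ab0556, nat_lit 0xb805ac2cc1608adc558, nat_lit 0xb885b02ce1618ae455c,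 nat_lit 0xadc56c2b515a0acc564, nat_lit 0xb945b82d21640af4566, nat_lit 0xa385242981500aa4566, nat_lit 0xae056e2b615a8ad0566, nat_lit 0xb985ba2d31648af8568, nat_lit 0xa3c5262991508aa8568, nat_lit 0xb9c5bc2d41650afc56a, nat_lit 0xa4052829a1510aac56a, nat_lit 0xae85722b815b8ad856a, nat_lit 0xba05be2d51658b0056c, nat_lit 0xaec5742b915c0adc56c, nat_lit 0xba45c02d61660b0456e, nat_lit 0xba85c22d71668b08570, nat_lit 0xbb05c82db1688b1c578, nat_lit 0xa485302a01548acc578, nat_lit 0xb045802bf15f0af4578, nat_lit 0xbb45ca2dc1690b2057a, nat_lit 0xa4c5322a11550ad057a, nat_lit 0xb085822c015f8af857a, nat_lit 0xa505342a21558ad457c, nat_lit 0xb0c5842c11600afc57c, nat_lit 0xbbc5ce2de16a0b2857e, nat_lit 0xa545362a31560ad857e, nat_lit 0xb105862c21608b0057e, nat_lit 0xbc05d02df16a8b2c580, nat_lit 0xb145882c31610b04580, nat_lit 0xbc45d22e016b0b30582, nat_lit 0xbc85d62e316d0b4058c, nat_lit 0xb2c5942c91640b1c58c, nat_lit 0xbcc5d82e416d8b4458e,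 nat_lit 0xa645422aa15a0af458e, nat_lit 0xb305962ca1648b2058e, nat_lit 0xbd05da2e516e0b48590, nat_lit 0xa685442ab15a8af8590, nat_lit 0xb345982cb1650b24590, nat_lit 0xbd45dc2e616e8b4c592, nat_lit 0xb3859a2cc1658b28592, nat_lit 0xa705482ad15b8b00594, nat_lit 0xb3c59c2cd1660b2c594, nat_lit 0xa7454a2ae15c0b04596, nat_lit 0xa7854c2af15c8b08598, nat_lit 0xa845542b415e8b1c5a0, nat_lit 0xb545a82d31690b445a0, nat_lit 0xa885562b515f0b205a2, nat_lit 0xb585aa2d41698b485a2, nat_lit 0xbdc5e82ed1728b705a4, nat_lit 0xa8c5582b615f8b245a4, nat_lit 0xb5c5ac2d516a0b4c5a4, nat_lit 0xa9055a2b71600b285a6, nat_lit 0xa9455c2b81608b2c5a8, nat_lit 0xb645b02d716b0b545a8, nat_lit 0xaac56a2be1640b445b4, nat_lit 0xb7c5bc2dd16e0b6c5b4, nat_lit 0xab056c2bf1648b485b6, nat_lit 0xab456e2c01650b4c5b8, nat_lit 0xb845c02df16f0b745b8, nat_lit 0xab85702c11658b505ba, nat_lit 0xb885c22e016f8b785ba, nat_lit 0xabc5722c21660b545bc, nat_lit 0xac05742c31668b585be,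 nat_lit 0xac45762c41670b5c5c0, nat_lit 0xad857e2c91690b6c5c6, nat_lit 0xba05ce2e61728b905c6, nat_lit 0xae05822cb16a0b745ca, nat_lit 0xba85d22e81738b985ca, nat_lit 0xae45842cc16a8b785cc, nat_lit 0xae85862cd16b0b7c5ce, nat_lit 0xb005942d316e0b905d6, nat_lit 0xbc05de2ee1768bb05d6, nat_lit 0xb045962d416e8b945d8, nat_lit 0xbc45e02ef1770bb45d8, nat_lit 0xb085982d516f0b985da, nat_lit 0xb1059c2d71700ba05de, nat_lit 0xb1459e2d81708ba45e0, nat_lit 0xb345ac2df1738bb85e8, nat_lit 0xb385ae2e01740bbc5ea, nat_lit 0xb3c5b02e11748bc05ec, nat_lit 0xb5c5c02e81778bd45ee, nat_lit 0xc946343101838bfc5f0, nat_lit 0xc986363111840c005f2, nat_lit 0xc9c6383121848c045f4, nat_lit 0xca063a3131850c085f6, nat_lit 0xca463c3141858c0c5f8, nat_lit 0xcb86483191878c185fc, nat_lit 0xc0c6043011800bfc5fc, nat_lit 0xcbc64a31a1880c1c5fe, nat_lit 0xc106063021808c005fe, nat_lit 0xcc064c31b1888c20600, nat_lit 0xcc464e31c1890c24602, nat_lit 0xcc865031d1898c28604,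 nat_lit 0xcdc65a32318c0c3860a, nat_lit 0xc286123081838c1860a, nat_lit 0xce065c32418c8c3c60c, nat_lit 0xc2c6143091840c1c60c, nat_lit 0xce465e32518d0c4060e, nat_lit 0xc3061630a1848c2060e, nat_lit 0xce866032618d8c44610, nat_lit 0xcec66232718e0c48612, nat_lit 0xd0066c32c1910c5c61a, nat_lit 0xc486223101878c3861a, nat_lit 0xd0466e32d1918c6061c, nat_lit 0xc4c6243111880c3c61c, nat_lit 0xc506263121888c4061e, nat_lit 0xd0c67232f1928c68620, nat_lit 0xd106743301930c6c622, nat_lit 0xd1867e3351958c8462c, nat_lit 0xc6c63431918c0c5c62c, nat_lit 0xd1c6803361960c8862e, nat_lit 0xc7063631a18c8c6062e, nat_lit 0xd206823371968c8c630, nat_lit 0xc7463831b18d0c64630, nat_lit 0xd246843381970c90632, nat_lit 0xc7863a31c18d8c68632, nat_lit 0xd286863391978c94634, nat_lit 0xbe05fc3051868c58640, nat_lit 0xd3868c33f19a8cac642, nat_lit 0xbe45fe3061870c5c642, nat_lit 0xc9864a3241918c88642, nat_lit 0xd3c68e34019b0cb0644, nat_lit 0xbe86003071878c60644,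 nat_lit 0xc9c64c3251920c8c644, nat_lit 0xd4069034119b8cb4646, nat_lit 0xbec6023081880c64646, nat_lit 0xca064e3261928c90646, nat_lit 0xbf06043091888c68648, nat_lit 0xca46503271930c94648, nat_lit 0xbf460630a1890c6c64a, nat_lit 0xd4869a34519f0cd0654, nat_lit 0xbfc60c30e18b8c84654, nat_lit 0xd4c69c34619f8cd4656, nat_lit 0xc0060e30f18c0c88656, nat_lit 0xcc065e32e1968cb0656, nat_lit 0xc0461031018c8c8c658, nat_lit 0xcc466032f1970cb4658, nat_lit 0xd506a03481a08cdc65a, nat_lit 0xc0861231118d0c9065a, nat_lit 0xc0c61431218d8c9465c, nat_lit 0xce066e33619a8cd0666, nat_lit 0xc1c61e3181910cac668, nat_lit 0xc206203191918cb066a, nat_lit 0xce867233819b8cd866a, nat_lit 0xc2462231a1920cb466c, nat_lit 0xcec67433919c0cdc66c, nat_lit 0xc2862431b1928cb866e, nat_lit 0xcf067633a19c8ce066e, nat_lit 0xc2c62631c1930cbc670, nat_lit 0xc3c6303221958cd067a, nat_lit 0xc406323231960cd467c, nat_lit 0xd0c6843411a00cfc67c, nat_lit 0xc446343241968cd867e,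 nat_lit 0xd106863421a08d0067e, nat_lit 0xc486363251970cdc680, nat_lit 0xc4c6383261978ce0682, nat_lit 0xc5063a3271980ce4684, nat_lit 0xc5463c3281988ce8686, nat_lit 0xc6864832d19b0cfc68a, nat_lit 0xd286923481a38d1868a, nat_lit 0xc6c64a32e19b8d0068c, nat_lit 0xd2c6943491a40d1c68c, nat_lit 0xc7064c32f19c0d0468e, nat_lit 0xc7464e33019c8d08690, nat_lit 0xc7865033119d0d0c692, nat_lit 0xc7c65233219d8d10694, nat_lit 0xd446a034f1a70d34698, nat_lit 0xc9465c3371a00d1869a, nat_lit 0xc9865e3381a08d1c69c, nat_lit 0x2402804c06887ec732, nat_lit 0x146095643a1ea0ea0734, nat_lit 0x14b097a44c1f30ebc736, nat_lit 0x14d098e4561f78ec4738, nat_lit 0x14dc9944591f90ecc73c, nat_lit 0x15009a44611fd0ed873e, nat_lit 0x15089a84631fe0ee0740, nat_lit 0x15109ac4651ff0ee8742, nat_lit 0x152c9bc46d2028ef0744, nat_lit 0x15309be46e2030ef4746, nat_lit 0x15589d44782080f00748, nat_lit 0x157c9e848220c0f0874a, nat_lit 0x15a8a1c4a22178f2c74c,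 nat_lit 0x15b4a2e4aa21c8f4c74e, nat_lit 0x15c0a404b22200f6c752, nat_lit 0x15c4a424b32208f70754, nat_lit 0x15cca464b52218f78758, nat_lit 0x5c05408208d887075c, nat_lit 0x15d4a564bc2258f9475c, nat_lit 0x15d8a584bd2260f9875e, nat_lit 0x15e4a684c722b0fbc762, nat_lit 0x15e8a6a4c822b8fc0764, nat_lit 0x15eca6e4ca22c8fc8766, nat_lit 0x15f0a7c4d022f8fe0768, nat_lit 0x15f4a7e4d12300fe476a, nat_lit 0xee87723b81db8ed876a, nat_lit 0x15f8a804d22308fe876c, nat_lit 0x15fca824d32310fec76e, nat_lit 0x1600a924dc235900c776, nat_lit 0x1608a964de2369014778, nat_lit 0x160ca9a4e0237901c77c, nat_lit 0x1610aa64e723a903477e, nat_lit 0x1614ab84f123f9054782, nat_lit 0xfcc7d03de1ea0f3078a, nat_lit 0x24d92268a03bc973c790, nat_lit 0xfec7e03e51ed8f44792, nat_lit 0xf3c79c3cd1e60f2c794, nat_lit 0xff47e43e71ee8f4c796, nat_lit 0xff87e63e81ef0f50798, nat_lit 0xffc7e83e91ef8f5479a, nat_lit 0x10007ea3ea1f00f5879c, nat_lit 0x10047ec3eb1f08f5c79e,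 nat_lit 0x10147f43ef1f20f687a0, nat_lit 0xf547a83d31e90f447a0, nat_lit 0xf587aa3d41e98f487a2, nat_lit 0x1618ad851625490e07a4, nat_lit 0x24dd22c8a23c217707a6, nat_lit 0x10207fa3f21f38f747a6, nat_lit 0x24e122e8a33c297747a8, nat_lit 0x10247fc3f31f40f787a8, nat_lit 0x102c8003f51f50f807ac, nat_lit 0x161cadc51d25790f47b0, nat_lit 0x1620ade51e25810f87b2, nat_lit 0xf787ba3dc1ed8f687b2, nat_lit 0xf7c7bc3dd1ee0f6c7b4, nat_lit 0x1624ae052025911007b6, nat_lit 0x104080c3fb1f80f947b6, nat_lit 0xf807be3de1ee8f707b6, nat_lit 0x1628ae252125991047b8, nat_lit 0xf847c03df1ef0f747b8, nat_lit 0x10488103fd1f90f9c7ba, nat_lit 0x104c8123fe1f98fa07bc, nat_lit 0xf9c7cc3e51f20f8c7c4, nat_lit 0x105881c4041fc8fb87c6, nat_lit 0xfa07ce3e61f28f907c6, nat_lit 0x162cae852a25d91287c8, nat_lit 0x105c81e4051fd0fbc7c8, nat_lit 0x10608204061fd8fc07ca, nat_lit 0xfa87d23e81f38f987ca, nat_lit 0x24e52388ac3ca97c47cc, nat_lit 0x10648224071fe0fc47cc,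 nat_lit 0x1630aee531262114c7d8, nat_lit 0xf0c7923d01ec8f887d8, nat_lit 0xf107943d11ed0f8c7da, nat_lit 0x107082c40e2020fe47dc, nat_lit 0xfcc7e43f11f80fbc7dc, nat_lit 0x24e923c8af3cd97e87de, nat_lit 0x1634af253426391587de, nat_lit 0xf187983d31ee0f947de, nat_lit 0xfd07e63f21f88fc07de, nat_lit 0xf1c79a3d41ee8f987e0, nat_lit 0xfd47e83f31f90fc47e0, nat_lit 0xfd87ea3f41f98fc87e2, nat_lit 0x107c8344122040ff47e4, nat_lit 0xf287a23da1f18fb47ee, nat_lit 0x6c0920a00a989647f0, nat_lit 0x163caf853e268117c7f0, nat_lit 0xf2c7a43db1f20fb87f0, nat_lit 0xff47f83fb1fd0fe47f0, nat_lit 0x1640afa53f26891807f2, nat_lit 0x108083841620710107f2, nat_lit 0xf307a63dc1f28fbc7f2, nat_lit 0xff87fa3fc1fd8fe87f2, nat_lit 0xf347a83dd1f30fc07f4, nat_lit 0xffc7fc3fd1fe0fec7f4, nat_lit 0x108883a41820810187f6, nat_lit 0xf387aa3de1f38fc47f6, nat_lit 0x10007fe3fe1fe8ff07f6, nat_lit 0xf487b63e41f70fe0804, nat_lit 0x1644b0054926e11ac806,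 nat_lit 0xf4c7b83e51f78fe4806, nat_lit 0x102080e4062029010806, nat_lit 0x1648b0254a26e91b0808, nat_lit 0x10248104072031014808, nat_lit 0xf547bc3e71f88fec80a, nat_lit 0xf5c7c03e91f98ff480e, nat_lit 0xf6c7c83ee1fc1008818, nat_lit 0xf747cc3f01fd101081a, nat_lit 0x1048822410207903881a, nat_lit 0xf787ce3f11fd901481c, nat_lit 0xf7c7d03f21fe101881e, nat_lit 0xf847d43f41ff1020822, nat_lit 0xf987e03fa2021034828, nat_lit 0x106483041720b1054828, nat_lit 0xfa07e43fc203103c82c, nat_lit 0x106c83441920c105c82c, nat_lit 0xfa47e63fd203904082e, nat_lit 0xfa87e83fe2041044830, nat_lit 0xffc81241220c9074842, nat_lit 0x100081441320d1078844, nat_lit 0x1134884439217909c846, nat_lit 0x113888643a21810a0848, nat_lit 0x115c89644021b90b484a, nat_lit 0x10a8852428213909884a, nat_lit 0x116089844121c10b884c, nat_lit 0x116489a44221c90bc84e, nat_lit 0x116c89e44421d90c4852, nat_lit 0x11708a044521e10c8854, nat_lit 0x11808aa44921f10d4856,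 nat_lit 0x10c085e42e21690b0856, nat_lit 0x10c486042f21710b4858, nat_lit 0x11888ae44b22010dc85a, nat_lit 0x118c8b044c22090e085c, nat_lit 0x10cc86443121810bc85c, nat_lit 0x11908b244d22110e485e, nat_lit 0x11948b444e22190e8860, nat_lit 0x11988b644f22210ec862, nat_lit 0x119c8b845022290f0864, nat_lit 0x11ac8be45422410f4868, nat_lit 0x10e487043721b10d4868, nat_lit 0x11b08c045522490f886a, nat_lit 0x10e887243821b90d886a, nat_lit 0x11b48c245622510fc86c, nat_lit 0x10ec87443921c10dc86c, nat_lit 0x10f087643a21c90e086e, nat_lit 0x11bc8c64582261104870, nat_lit 0x11c08c84592269108872, nat_lit 0x11c48ca45a227110c874, nat_lit 0x11c88cc45b2279110876, nat_lit 0x11d48d645f22a112087a, nat_lit 0x110888244021f90f887a, nat_lit 0x110c88444122010fc87c, nat_lit 0x11dc8da46122b112887e, nat_lit 0x11e08dc46222b912c880, nat_lit 0x11148884432211104880, nat_lit 0x11e48de46322c1130882, nat_lit 0x111888a4442219108882, nat_lit 0x11ec8e246522d1138886,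 nat_lit 0x11f88e846a22f114c88e, nat_lit 0x113089644a224912088e, nat_lit 0x11fc8ea46b22f9150890, nat_lit 0x108c84c42d21b10f8890, nat_lit 0x113489844b2251124890, nat_lit 0x12008ec46c2301154892, nat_lit 0x109084e42e21b90fc892, nat_lit 0x113889a44c2259128892, nat_lit 0x12048ee46d2309158894, nat_lit 0x113c89c44d226112c894, nat_lit 0x12088f046e231115c896, nat_lit 0x114089e44e2269130896, nat_lit 0x120c8f246f2319160898, nat_lit 0x11448a044f2271134898, nat_lit 0x12108f4470232116489a, nat_lit 0x121c8fa47323491748a4, nat_lit 0x109485843521e911c8a4, nat_lit 0x12208fc47423511788a6, nat_lit 0x109885a43621f11208a6, nat_lit 0x11608ae45622a91508a6, nat_lit 0x12248fe475235917c8a8, nat_lit 0x109c85c43721f91248a8, nat_lit 0x11648b045722b11548a8, nat_lit 0x122890047623611808aa, nat_lit 0x10a085e43822011288aa, nat_lit 0x11688b245822b91588aa, nat_lit 0x122c90247723691848ac, nat_lit 0x10a4860439220912c8ac, nat_lit 0x123090447823711888ae,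 nat_lit 0x10a886243a22111308ae, nat_lit 0x11708b645a22c91608ae, nat_lit 0x123c90e47d23991a48ba, nat_lit 0x10b486c43e224114c8ba, nat_lit 0x11888c246022f91788ba, nat_lit 0x124091047e23a11a88bc, nat_lit 0x10b886e43f22491508bc, nat_lit 0x118c8c4461230117c8bc, nat_lit 0x11908c646223091808be, nat_lit 0x124891448023b11b08c0, nat_lit 0x10c087244122591588c0, nat_lit 0x10c4874442226115c8c2, nat_lit 0x11988ca46423191888c2, nat_lit 0x125091848223c11b88c4, nat_lit 0x119c8cc465232118c8c4, nat_lit 0x10cc87844422711648c6, nat_lit 0x10d887c44822991748d0, nat_lit 0x11b48d846b23511a48d0, nat_lit 0x10dc87e44922a11788d2, nat_lit 0x11b88da46c23591a88d2, nat_lit 0x10e088044a22a917c8d4, nat_lit 0x11bc8dc46d23611ac8d4, nat_lit 0x10e488244b22b11808d6, nat_lit 0x11c08de46e23691b08d6, nat_lit 0x125492448a24011d88d8, nat_lit 0x10e888444c22b91848d8, nat_lit 0x11c48e046f23711b48d8, nat_lit 0x10ec88644d22c11888da, nat_lit 0x11c88e247023791b88da,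 nat_lit 0x10f088844e22c918c8dc, nat_lit 0x110089445522f91a88e6, nat_lit 0x11e08ee47623a91d08e6, nat_lit 0x110889845723091b08ea, nat_lit 0x11e88f247823b91d88ea, nat_lit 0x110c89a45823111b48ec, nat_lit 0x11ec8f447923c11dc8ec, nat_lit 0x111489e45a23211bc8f0, nat_lit 0x11188a045b23291c08f2, nat_lit 0x11288aa45f23511cc8f8, nat_lit 0x120490047f23f11f48f8, nat_lit 0x112c8ac46023591d08fa, nat_lit 0x120890248023f91f88fa, nat_lit 0x11308ae46123611d48fc, nat_lit 0x120c90448124011fc8fc, nat_lit 0x11348b046223691d88fe, nat_lit 0x121090648224092008fe, nat_lit 0x11388b246323711dc900, nat_lit 0x12149084832411204900, nat_lit 0x113c8b446423791e0902, nat_lit 0x11408b646523811e4904, nat_lit 0x11448b846623891e8906, nat_lit 0x11588c046b23a11f490c, nat_lit 0x122c914489244121c90c, nat_lit 0x11608c446d23b11fc910, nat_lit 0x123491848b2451224910, nat_lit 0x11648c646e23b9200912, nat_lit 0x123891a48c2459228912, nat_lit 0x11688c846f23c1204914,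 nat_lit 0x116c8ca47023c9208916, nat_lit 0x11708cc47123d120c918, nat_lit 0x11888da47623f922091e, nat_lit 0x1250926492248924091e, nat_lit 0x118c8dc4772401224920, nat_lit 0x7c0b60c50d78bb8922, nat_lit 0x11908de4782409228922, nat_lit 0x119c8e447b2421234928, nat_lit 0x11c48f4483246124c92a, nat_lit 0x12f89684aa251126892c, nat_lit 0x12fc96a4ab251926c92e, nat_lit 0x13209784b22541280930, nat_lit 0x127493849b24d1264930, nat_lit 0x132497a4b32549284932, nat_lit 0x132897c4b42551288934, nat_lit 0x132c97e4b5255928c936, nat_lit 0x13309804b62561290938, nat_lit 0x134498c4ba258129893c, nat_lit 0x128c9444a1250127c93c, nat_lit 0x134898e4bb258929c93e, nat_lit 0x12909464a2250928093e, nat_lit 0x134c9904bc25912a0940, nat_lit 0x13509924bd25992a4942, nat_lit 0x13549944be25a12a8944, nat_lit 0x135c9984c025b12b0948, nat_lit 0x13709a04c525c92bc94a, nat_lit 0x12a89524a8253929894a, nat_lit 0x13749a24c625d12c094c, nat_lit 0x12ac9544a9254129c94c,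 nat_lit 0x12b09564aa25492a094e, nat_lit 0x12b49584ab25512a4950, nat_lit 0x13809a84c925e92cc952, nat_lit 0x13849aa4ca25f12d0954, nat_lit 0x13889ac4cb25f92d4956, nat_lit 0x13989b64cf26212e095c, nat_lit 0x12cc9644b125812bc95c, nat_lit 0x139c9b84d026292e495e, nat_lit 0x12d09664b225892c095e, nat_lit 0x13a49bc4d226392ec962, nat_lit 0x12d896a4b425992c8962, nat_lit 0x13a89be4d326412f0964, nat_lit 0x12dc96c4b525a12cc964, nat_lit 0x13ac9c04d426492f4966, nat_lit 0x13c09cc4db2679310970, nat_lit 0x12f49784bb25d12e4970, nat_lit 0x13c49ce4dc2681314972, nat_lit 0x12589324a025392c0972, nat_lit 0x12f897a4bc25d92e8972, nat_lit 0x13c89d04dd2689318974, nat_lit 0x125c9344a125412c4974, nat_lit 0x12fc97c4bd25e12ec974, nat_lit 0x13cc9d24de269131c976, nat_lit 0x130097e4be25e92f0976, nat_lit 0x13d09d44df2699320978, nat_lit 0x13049804bf25f12f4978, nat_lit 0x13d49d64e026a132497a, nat_lit 0x13dc9dc4e426c9334984, nat_lit 0x131c98c4c5262130c984,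 nat_lit 0x13e09de4e526d1338986, nat_lit 0x126093e4a625792e0986, nat_lit 0x132098e4c62629310986, nat_lit 0x13e49e04e626d933c988, nat_lit 0x12649404a725812e4988, nat_lit 0x13249904c72631314988, nat_lit 0x13e89e24e726e134098a, nat_lit 0x12689424a825892e898a, nat_lit 0x13289924c8263931898a, nat_lit 0x13ec9e44e826e934498c, nat_lit 0x132c9944c9264131c98c, nat_lit 0x13f09e64e926f134898e, nat_lit 0x12709464aa25992f098e, nat_lit 0x13309964ca264932098e, nat_lit 0x13f49e84ea26f934c990, nat_lit 0x12749484ab25a12f4990, nat_lit 0x13fc9ee4ee272136499a, nat_lit 0x127c94c4af25c130c99a, nat_lit 0x13489a24d0267933899a, nat_lit 0x14009f04ef272936899c, nat_lit 0x128094e4b025c931099c, nat_lit 0x134c9a44d1268133c99c, nat_lit 0x14049f24f0273136c99e, nat_lit 0x12849504b125d131499e, nat_lit 0x13509a64d2268934099e, nat_lit 0x14089f44f127393709a0, nat_lit 0x12889524b225d93189a0, nat_lit 0x140c9f64f227413749a2, nat_lit 0x128c9544b325e131c9a2,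 nat_lit 0x13589aa4d426993489a2, nat_lit 0x800b80d30e50c949a4, nat_lit 0x12909564b425e93209a4, nat_lit 0x135c9ac4d526a134c9a4, nat_lit 0x129895e4b826193349b0, nat_lit 0x129c9604b926213389b2, nat_lit 0x13789ba4dc26d93689b2, nat_lit 0x1414a004f827793949b4, nat_lit 0x12a09624ba262933c9b4, nat_lit 0x137c9bc4dd26e136c9b4, nat_lit 0x1418a024f927813989b6, nat_lit 0x12a49644bb26313409b6, nat_lit 0x13809be4de26e93709b6, nat_lit 0x12a89664bc26393449b8, nat_lit 0x13849c04df26f13749b8, nat_lit 0x12ac9684bd26413489ba, nat_lit 0x13889c24e026f93789ba, nat_lit 0x12b096a4be264934c9bc, nat_lit 0x12b496c4bf26513509be, nat_lit 0x12c09724c426713649c6, nat_lit 0x13a09ce4e627293909c6, nat_lit 0x12c89764c6268136c9ca, nat_lit 0x13a89d24e827393989ca, nat_lit 0x12d097a4c826913749ce, nat_lit 0x13b09d64ea27493a09ce, nat_lit 0x12d497c4c926993789d0, nat_lit 0x12dc9804cb26a93809d4, nat_lit 0x12e898a4cf26d13909da, nat_lit 0x13c89e24f027793b89da,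 nat_lit 0x12ec98c4d026d93949dc, nat_lit 0x13cc9e44f127813bc9dc, nat_lit 0x12f098e4d126e13989de, nat_lit 0x13d09e64f227893c09de, nat_lit 0x12f49904d226e939c9e0, nat_lit 0x13d49e84f327913c49e0, nat_lit 0x12f89924d326f13a09e2, nat_lit 0x12fc9944d426f93a49e4, nat_lit 0x13049984d627093ac9e8, nat_lit 0x13ec9f44f927c13dc9ec, nat_lit 0x131c9a24dc27313bc9ee, nat_lit 0x13f09f64fa27c93e09ee, nat_lit 0x13f49f84fb27d13e49f0, nat_lit 0x13249a64de27413c49f2, nat_lit 0x13289a84df27493c89f4, nat_lit 0x132c9aa4e027513cc9f6, nat_lit 0x13309ac4e127593d09f8, nat_lit 0x140ca0450128013fc9fc, nat_lit 0x13489ba4e727813e09fe, nat_lit 0x1410a0650228094009fe, nat_lit 0x134c9bc4e827893e4a00, nat_lit 0x13509be4e927913e8a02, nat_lit 0x13549c04ea27993eca04, nat_lit 0x135c9c44ec27a93f4a08, nat_lit 0x137c9d24f227d1404a0a, nat_lit 0x13809d44f327d9408a0c, nat_lit 0x14d4a5652028a9430a0e, nat_lit 0x14d8a5852128b1434a10, nat_lit 0x14dca5a52228b9438a12,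 nat_lit 0x143ca1c50d286142ca14, nat_lit 0x1500a6852a28f9450a16, nat_lit 0x1440a1e50e2869430a16, nat_lit 0x1504a6a52b2901454a18, nat_lit 0x150ca6e52d291145ca1c, nat_lit 0x1510a7052e2919460a1e, nat_lit 0x1458a2a5142899448a22, nat_lit 0x1528a7e5332949478a26, nat_lit 0x1460a2e51628a9450a26, nat_lit 0x152ca80534295147ca28, nat_lit 0x1464a3051728b1454a28, nat_lit 0x1530a825352959480a2a, nat_lit 0x1468a3251828b9458a2a, nat_lit 0x1534a845362961484a2c, nat_lit 0x1538a865372969488a2e, nat_lit 0x1480a3e51e28e9470a36, nat_lit 0x1548a9053d298949ca38, nat_lit 0x1484a4051f28f1474a38, nat_lit 0x154ca9253e29914a0a3a, nat_lit 0x1488a4252028f9478a3a, nat_lit 0x148ca44521290147ca3c, nat_lit 0x1554a9654029a14a8a3e, nat_lit 0x155ca9a54229b14b0a42, nat_lit 0x1564aa054629d94bca4a, nat_lit 0x1568aa254729e14c0a4c, nat_lit 0x14aca54529294149ca4c, nat_lit 0x156caa454829e94c4a4e, nat_lit 0x1570aa654929f14c8a50, nat_lit 0x14b4a5852b29514a4a50,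 nat_lit 0x1574aa854a29f94cca52, nat_lit 0x14b8a5a52c29594a8a52, nat_lit 0x1578aaa54b2a014d0a54, nat_lit 0x157caac54c2a094d4a56, nat_lit 0x14d0a6653229894c0a5e, nat_lit 0x141ca1651328e949ca60, nat_lit 0x1420a1851428f14a0a62, nat_lit 0x14d8a6a53429994c8a62, nat_lit 0x158cab85532a494f8a64, nat_lit 0x1424a1a51528f94a4a64, nat_lit 0x14dca6c53529a14cca64, nat_lit 0x1590aba5542a514fca66, nat_lit 0x14e0a6e53629a94d0a66, nat_lit 0x1428a2451c29314bca74, nat_lit 0x142ca2651d29394c0a76, nat_lit 0x1500a7e53e29e94f0a76, nat_lit 0x159cac255a2a8951ca78, nat_lit 0x1430a2851e29414c4a78, nat_lit 0x1504a8053f29f14f4a78, nat_lit 0x1434a2a51f29494c8a7a, nat_lit 0x1508a8254029f94f8a7a, nat_lit 0x15a0ac655c2a99524a7c, nat_lit 0x1438a2c52029514cca7c, nat_lit 0x143ca2e52129594d0a7e, nat_lit 0x1510a865422a09500a7e, nat_lit 0x1440a3052229614d4a80, nat_lit 0x144ca3a52729814eca8a, nat_lit 0x1450a3c52829894f0a8c, nat_lit 0x152ca945492a4151ca8c,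 nat_lit 0x1458a4052a29994f8a90, nat_lit 0x1534a9854b2a51524a90, nat_lit 0x145ca4252b29a14fca92, nat_lit 0x1538a9a54c2a59528a92, nat_lit 0x1460a4452c29a9500a94, nat_lit 0x1464a4652d29b1504a96, nat_lit 0x1478a5053129e1518a9e, nat_lit 0x1550aa65522a89540a9e, nat_lit 0x147ca5253229e951caa0, nat_lit 0x1554aa85532a91544aa0, nat_lit 0x1480a5453329f1520aa2, nat_lit 0x1558aaa5542a99548aa2, nat_lit 0x1484a5653429f9524aa4, nat_lit 0x155caac5552aa154caa4, nat_lit 0x840c40e70fa0dccaa6, nat_lit 0x148ca5a5362a0952caa8, nat_lit 0x1490a5c5372a11530aaa, nat_lit 0x14a4a6453d2a39540ab0, nat_lit 0x14aca6853f2a49548ab4, nat_lit 0x157cabc55d2ae156cab4, nat_lit 0x14b0a6a5402a5154cab6, nat_lit 0x14b4a6c5412a59550ab8, nat_lit 0x1594ac85632b11584ac0, nat_lit 0x14d4a8054a2a9956cac2, nat_lit 0x14dca8454c2aa9574ac6, nat_lit 0x14e4a8854e2ab957caca, nat_lit 0x1500a945532ad9584acc, nat_lit 0x1504a965542ae1588ace, nat_lit 0x1bb8d286372e99688b2a,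 nat_lit 0x1bc8d4c6462f31690b2c, nat_lit 0x25052628fe43a1d00b2e, nat_lit 0x1bccd4e6472f39694b2e, nat_lit 0x1bd8d5e64f2f796a4b30, nat_lit 0x1bdcd606502f816a8b32, nat_lit 0x1be8d666532f996b4b36, nat_lit 0x1c00d7c65c2fe96ccb3a, nat_lit 0x1c04d7e65d2ff16d0b3c, nat_lit 0x1c18d9066530296e0b3e, nat_lit 0x1c20d9466730396e4b40, nat_lit 0x1c38da666e30896f4b42, nat_lit 0x1c68de06a43221790b46, nat_lit 0x1704b785b72d816a4b46, nat_lit 0xfc1241401218f70b48, nat_lit 0x1c6cde46a63231798b48, nat_lit 0x1c70de66a7323979cb4a, nat_lit 0x1c74de86ad32697b4b4e, nat_lit 0x251526a9064431d74b52, nat_lit 0x10012a1461248f90b52, nat_lit 0x1c78dec6af32797bcb52, nat_lit 0x10412c1471250f94b54, nat_lit 0x1c7cdee6b032817c0b54, nat_lit 0x10812e1481258f98b56, nat_lit 0x10c1301491260f9cb58, nat_lit 0x1c80df26b232917c8b58, nat_lit 0x1c84df46b332997ccb5a, nat_lit 0x1c88df66b932c17e0b5c, nat_lit 0x1c8cdf86ba32c97e4b5e, nat_lit 0x11413614d1290fbcb60,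 nat_lit 0x1c90dfc6bc32d17ecb62, nat_lit 0x11c13a14f12a0fc4b64, nat_lit 0x1c94dfe6bd32d97f0b64, nat_lit 0x12013c15012a8fc8b66, nat_lit 0x1c98e086c6331980cb6c, nat_lit 0x12814215512d8fe8b6e, nat_lit 0x1c9ce0a6c73321810b6e, nat_lit 0x1ca0e0c6c83329814b70, nat_lit 0x1ca4e106ca333981cb72, nat_lit 0x12c14a15c132100cb76, nat_lit 0x1cace146cf3359834b76, nat_lit 0x13414c15e1331014b78, nat_lit 0x138150160134101cb7a, nat_lit 0x1690b545b02db16ecb7c, nat_lit 0x13c1521641371034b7e, nat_lit 0x1401541651379038b80, nat_lit 0x1cb8e226d933a185cb80, nat_lit 0x1441581681391044b84, nat_lit 0x14815a16d13a9050b86, nat_lit 0x1cbce286e133d187cb86, nat_lit 0x1cc0e2a6e233d9880b88, nat_lit 0x17ccbd05dd2e9972cb8a, nat_lit 0x1734b985cb2e51724b90, nat_lit 0x17f0be25e62ed9744b92, nat_lit 0x17f4be45e72ee1748b94, nat_lit 0x17fcbe85e92ef1750b98, nat_lit 0x1800bea5ea2ef9754b9a, nat_lit 0x180cbf25ee2f19760b9c, nat_lit 0x1810bf45ef2f21764b9e,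 nat_lit 0x1750ba65d22e89740b9e, nat_lit 0x1814bf65f02f29768ba0, nat_lit 0x1818bf85f12f3176cba2, nat_lit 0x1758baa5d42e99748ba2, nat_lit 0x181cbfa5f22f39770ba4, nat_lit 0x175cbac5d52ea174cba4, nat_lit 0x1820bfc5f32f41774ba6, nat_lit 0x1828c005f52f5177cbaa, nat_lit 0x1774bb85db2ed1764bb0, nat_lit 0x1778bba5dc2ed9768bb2, nat_lit 0x1840c0a5fb2f81794bb4, nat_lit 0x177cbbc5dd2ee176cbb4, nat_lit 0x1844c0c5fc2f89798bb6, nat_lit 0x1848c0e5fd2f9179cbb8, nat_lit 0x1784bc05df2ef1774bb8, nat_lit 0x184cc105fe2f997a0bba, nat_lit 0x1858c1a6022fc17b4bc4, nat_lit 0x179cbcc5e52f2178cbc4, nat_lit 0x1860c1e6042fd17bcbc8, nat_lit 0x17a4bd05e72f31794bc8, nat_lit 0x17a8bd25e82f39798bca, nat_lit 0x1cc4e386f3353991cbce, nat_lit 0x187cc2a60c30097dcbd8, nat_lit 0x1880c2c60d30117e0bda, nat_lit 0x1884c2e60e30197e4bdc, nat_lit 0x17ccbe45f12f817bcbdc, nat_lit 0x1cc8e3c6f6357993cbde, nat_lit 0x1888c3060f30217e8bde, nat_lit 0x1718b965d22ed9794bde,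 nat_lit 0x17d0be65f22f897c0bde, nat_lit 0x188cc3261030297ecbe0, nat_lit 0x17d4be85f32f917c4be0, nat_lit 0x171cb9a5d42ee979cbe2, nat_lit 0x1894c3661230397f4be4, nat_lit 0x17f0bf65fa2fc97e0bee, nat_lit 0x1898c406163069808bf0, nat_lit 0x1728ba25da2f217b8bf0, nat_lit 0x17f4bf85fb2fd17e4bf0, nat_lit 0x1ccce466fc35d1964bf2, nat_lit 0x172cba45db2f297bcbf2, nat_lit 0x17f8bfa5fc2fd97e8bf2, nat_lit 0x18a0c446183079810bf4, nat_lit 0x1730ba65dc2f317c0bf4, nat_lit 0x17fcbfc5fd2fe17ecbf4, nat_lit 0x15416e18915b915cbf6, nat_lit 0x18a4c466193081814bf6, nat_lit 0x1cd4e4a6ff35e996cbf8, nat_lit 0x18a8c4861a3089818bf8, nat_lit 0x174cbb85e62f817e8c06, nat_lit 0x1820c0e6063029810c06, nat_lit 0x15c17018f1601184c08, nat_lit 0x1750bba5e72f897ecc08, nat_lit 0x1824c106073031814c08, nat_lit 0x1754bbc5e82f917f0c0a, nat_lit 0x1758bbe5e92f997f4c0c, nat_lit 0x1768bc85ee2fc1804c16, nat_lit 0x16017619416411a8c18, nat_lit 0x176cbca5ef2fc9808c18,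 nat_lit 0x1844c2060f3071834c18, nat_lit 0x1770bcc5f02fd180cc1a, nat_lit 0x1848c226103079838c1a, nat_lit 0x184cc24611308183cc1c, nat_lit 0x16417c19716591b4c1e, nat_lit 0x177cbd25f32fe9818c20, nat_lit 0x1784bd65f52ff9820c24, nat_lit 0x1cdce5a70f36b19c4c28, nat_lit 0x1794bde5f93011830c28, nat_lit 0x179cbe25fb3021838c2c, nat_lit 0x186cc3461930c185cc2c, nat_lit 0x17a0be45fc302983cc2e, nat_lit 0x1870c3661a30c9860c2e, nat_lit 0x17a4be65fd3031840c30, nat_lit 0x1874c3861b30d1864c30, nat_lit 0x17a8be85fe3039844c32, nat_lit 0x17acbea5ff3041848c34, nat_lit 0x1681821a216d91f4c3c, nat_lit 0x188cc44621310187cc3c, nat_lit 0x17c4bf66043071858c3e, nat_lit 0x1890c466223109880c3e, nat_lit 0x1894c486233111884c40, nat_lit 0x17d0bfc6073089864c44, nat_lit 0x17d4bfe6083091868c46, nat_lit 0x17d8c00609309986cc48, nat_lit 0x17f8c0e61130c9888c4e, nat_lit 0x18c0c5e62e31698b0c56, nat_lit 0x194cc9063e31b98c4c5a, nat_lit 0x18e0c6e63631a98d0c66,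 nat_lit 0x18e4c7063731b18d4c68, nat_lit 0x19a8cc26573261904c76, nat_lit 0x19cccd666232c1934c84, nat_lit 0x19d0cd866332c9938c86, nat_lit 0x19dccde66732e1948c8e, nat_lit 0x19e4ce26693301958c96, nat_lit 0x19e8ce466a330995cc98, nat_lit 0x19f0ce866c3319964c9c, nat_lit 0x19f8cea66d3329968ca0, nat_lit 0x1a00cf26713349980cac, nat_lit 0x18c8c7063e3239944cb4, nat_lit 0x197ccbc65d32e196ccb4, nat_lit 0x1a0ccfe6763371998cb6, nat_lit 0x1a10d0267a33919a8cc2, nat_lit 0x18d4c786443271960cc2, nat_lit 0x18e8c7e6493299970ccc, nat_lit 0x1ce0e6c72a3849b38cd4, nat_lit 0x1900c9465432e999ccdc, nat_lit 0x1910c9c65833099a4ce0, nat_lit 0x1954cbc66833799d8cfc, nat_lit 0x17c1bc1df1a413e8d04, nat_lit 0x1accd5069d34a1a30d0c, nat_lit 0x1aecd5e6a434c9a40d10, nat_lit 0x1a34d1868b3451a24d10, nat_lit 0x1a38d1a68c3459a28d12, nat_lit 0x1af4d626a634d9a48d14, nat_lit 0x1af8d646a734e1a4cd16, nat_lit 0x1b00d686a934f1a54d1a, nat_lit 0x1b18d746ae3519a60d1e,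 nat_lit 0x1a50d266923489a40d1e, nat_lit 0x1a54d286933491a44d20, nat_lit 0x1b20d786b03529a68d22, nat_lit 0x1b24d7a6b13531a6cd24, nat_lit 0x1b28d7c6b23539a70d26, nat_lit 0x1b2cd7e6b33541a74d28, nat_lit 0x1a70d3669a34c9a60d2e, nat_lit 0x1b40d8c6ba3571a8cd30, nat_lit 0x1a74d3869b34d1a64d30, nat_lit 0x1b44d8e6bb3579a90d32, nat_lit 0x1a78d3a69c34d9a68d32, nat_lit 0x1a7cd3c69d34e1a6cd34, nat_lit 0x1b4cd926bd3589a98d36, nat_lit 0x1b58d9a6c335b9aacd40, nat_lit 0x1b5cd9c6c435c1ab0d42, nat_lit 0x1a98d4a6a43519a88d42, nat_lit 0x1b60d9e6c535c9ab4d44, nat_lit 0x1a9cd4c6a53521a8cd44, nat_lit 0x1aa0d4e6a63529a90d46, nat_lit 0x1b68da26c735d9abcd48, nat_lit 0x1b6cda46c835e1ac0d4a, nat_lit 0x1aa8d526a83539a98d4a, nat_lit 0x1b70da66c935e9ac4d4c, nat_lit 0x1b84dae6ce3621ae0d58, nat_lit 0x1ac4d606af3571ab4d58, nat_lit 0x1a14d1469134c9a8cd5a, nat_lit 0x1ac8d626b03579ab8d5a, nat_lit 0x1b8cdb26d03631ae8d5c, nat_lit 0x1accd646b13581abcd5c,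 nat_lit 0x1b90db46d13639aecd5e, nat_lit 0x1a1cd1869334d9a94d5e, nat_lit 0x1b94db66d23641af0d60, nat_lit 0x1a20d1e6973509aacd6c, nat_lit 0x1a24d206983511ab0d6e, nat_lit 0x1af0d766ba35c9ae0d6e, nat_lit 0x1a28d226993519ab4d70, nat_lit 0x1af4d786bb35d1ae4d70, nat_lit 0x1ba4dc46d83679b14d72, nat_lit 0x1af8d7a6bc35d9ae8d72, nat_lit 0x1ba8dc66d93681b18d74, nat_lit 0x1a30d2669b3529abcd74, nat_lit 0x1afcd7c6bd35e1aecd74, nat_lit 0x1801c21e81b294d0d76, nat_lit 0x1a34d2869c3531ac0d76, nat_lit 0x1b00d7e6be35e9af0d76, nat_lit 0x1a3cd2e6a13559ad8d82, nat_lit 0x1b18d8a6c43619b08d82, nat_lit 0x1a40d306a23561adcd84, nat_lit 0x1b1cd8c6c53621b0cd84, nat_lit 0x1a44d326a33569ae0d86, nat_lit 0x1a48d346a43571ae4d88, nat_lit 0x1b24d906c73631b14d88, nat_lit 0x1a50d386a63581aecd8c, nat_lit 0x1b2cd946c93641b1cd8c, nat_lit 0x1a54d3a6a73589af0d8e, nat_lit 0x1b30d966ca3649b20d8e, nat_lit 0x1a58d3c6a83591af4d90, nat_lit 0x1a68d486ae35c9b10d9a,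 nat_lit 0x1b48da26d03679b38d9a, nat_lit 0x1a6cd4a6af35d1b14d9c, nat_lit 0x1b4cda46d13681b3cd9c, nat_lit 0x1a70d4c6b035d9b18d9e, nat_lit 0x1b50da66d23689b40d9e, nat_lit 0x1a74d4e6b135e1b1cda0, nat_lit 0x1a7cd526b335f1b24da4, nat_lit 0x1b68db26d836b9b58daa, nat_lit 0x1a94d5e6ba3629b38dac, nat_lit 0x1a9cd626bc3639b40db0, nat_lit 0x1b74db86db36d1b64db0, nat_lit 0x1aa0d646bd3641b44db2, nat_lit 0x1aa4d666be3649b48db4, nat_lit 0x1aa8d686bf3651b4cdb6, nat_lit 0x1b8cdc46e13701b7cdbc, nat_lit 0x1abcd746c53671b58dbe, nat_lit 0x1ac0d766c63679b5cdc0, nat_lit 0x1b94dc86e33711b84dc0, nat_lit 0x1ac8d7a6c83689b64dc4, nat_lit 0x1ad0d7e6ca3699b6cdc8, nat_lit 0x1ad4d806cb36a1b70dca, nat_lit 0x18c1d01f61bb9580dcc, nat_lit 0x1bacdd46e93741b9cdcc, nat_lit 0x1af4d906d136c9b88dd0, nat_lit 0x1af8d926d236d1b8cdd2, nat_lit 0x1afcd946d336d9b90dd4, nat_lit 0x1c30e0a6fd37b1bc0dde, nat_lit 0x1c00e0e70d3891c58e30, nat_lit 0x2044f847763aa9cfce74,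 nat_lit 0x2098fcc7983b01d18e7a, nat_lit 0x20acfd879c3b11d24e7c, nat_lit 0x24c2822441ee9694e80, nat_lit 0x211103a7da3c71d6ce80, nat_lit 0x25028a2481f196a0e84, nat_lit 0x25828e24a1f296a8e86, nat_lit 0x21210467e33ca9d7ce88, nat_lit 0x26429424d1f416b4e8a, nat_lit 0x2682982511f716bce8e, nat_lit 0x21350547eb3cd9d84e90, nat_lit 0x27029c2531f816c4e92, nat_lit 0x27429e2541f896c8e94, nat_lit 0x213d0587ed3ce9d8ce94, nat_lit 0x2842aa25b1fd16dce98, nat_lit 0x28c2b025e1fe96e4e9a, nat_lit 0x2902b225f1ff16e8e9c, nat_lit 0x2942b826420196ece9e, nat_lit 0x215906e7fd3d61d9cea0, nat_lit 0x215d0707fe3d69da0ea2, nat_lit 0x2a02c026820396f4ea4, nat_lit 0x2a42c826e20696fcea6, nat_lit 0x2b02d02722089708ea8, nat_lit 0x216d07e8133e49df0eac, nat_lit 0x2c42fa2a32209798eb4, nat_lit 0x2cc3062ac22597c0ebc, nat_lit 0x2d03082ad22617c4ebe, nat_lit 0x2d83102b622b17e8ec2, nat_lit 0x219109a82a3f59e6cec2, nat_lit 0x2dc3122b722b97ecec4,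 nat_lit 0x2e43222c22319818eca, nat_lit 0x2e83242c3232181cecc, nat_lit 0x2f432c2ca2361838ece, nat_lit 0x219d0ae8383ff1eb4ed0, nat_lit 0x2fc3322cd2379844ed2, nat_lit 0x3003402d623c1864ed6, nat_lit 0x3083482dd23f9880ed8, nat_lit 0x30c34a2de2401884eda, nat_lit 0x31034c2df2409888edc, nat_lit 0x1e5cf1e7853be9dd4ee2, nat_lit 0x1e6cf2678b3c09de4ee4, nat_lit 0x1e70f2878c3c11de8ee6, nat_lit 0x1e74f2a78d3c19decee8, nat_lit 0x1e88f347923c51e00ef0, nat_lit 0x1e8cf367933c59e04ef2, nat_lit 0x1df8efa77c3bd9de8ef2, nat_lit 0x1e98f3c7963c71e10ef8, nat_lit 0x1e14f087833c11e04f00, nat_lit 0x1e18f0a7843c19e08f02, nat_lit 0x1ebcf4a79d3ca9e34f06, nat_lit 0x1e20f0e7863c29e10f06, nat_lit 0x1ec0f4c79e3cb1e38f08, nat_lit 0x31836a3092599918f1a, nat_lit 0x31c36c30a25a191cf1c, nat_lit 0x1dbcee67793c01e24f20, nat_lit 0x1ee8f667ab3d09e64f22, nat_lit 0x1dc0ee877a3c09e28f22, nat_lit 0x32037230f25d1938f24, nat_lit 0x32437431025d993cf26,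 nat_lit 0x1eecf6a7ad3d19e6cf26, nat_lit 0x32837631125e1940f28, nat_lit 0x32c3803182629960f32, nat_lit 0x21a10c484b4141fa4f32, nat_lit 0x1e78f3a79c3cd9e68f32, nat_lit 0x3303823192631964f34, nat_lit 0x21a50c684c4149fa8f34, nat_lit 0x1dd4ef87833c61e4cf34, nat_lit 0x1dd8efa7843c69e50f36, nat_lit 0x33438631b2641968f38, nat_lit 0x33838831c264996cf3a, nat_lit 0x1ddcefe7863c79e58f3a, nat_lit 0x33c38a31d2651970f3c, nat_lit 0x34038e3222679984f40, nat_lit 0x1decf0478b3c91e64f40, nat_lit 0x1e98f4a7a43d19e88f42, nat_lit 0x348392324268998cf44, nat_lit 0x34c3943252691990f46, nat_lit 0x1df8f0a78e3ca9e70f46, nat_lit 0x1ea0f4e7a63d29e90f46, nat_lit 0x1dfcf0c78f3cb1e74f48, nat_lit 0x1e08f167923cc9e80f52, nat_lit 0x35039c32c26d99a8f54, nat_lit 0x1ebcf5c7ad3d61eacf54, nat_lit 0x35439e32d26e19acf56, nat_lit 0x1e10f1a7943cd9e88f56, nat_lit 0x35c3a433026f99b4f5c, nat_lit 0x3603aa33527299c4f62, nat_lit 0x1ed8f6a7b43d99ec8f62,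 nat_lit 0x3643ae33727399ccf66, nat_lit 0x1ee0f6e7b63da9ed0f66, nat_lit 0x3683b033827419d0f68, nat_lit 0x1e3cf2c79d3d21eb4f68, nat_lit 0x36c3b834027819e8f72, nat_lit 0x3703ba34127899ecf74, nat_lit 0x1e58f3a7a43d69ed0f74, nat_lit 0x1facfc27d73e71f18f7c, nat_lit 0x1fb8fc87da3e89f24f80, nat_lit 0x1fbcfca7db3e91f28f82, nat_lit 0x1f24f907c73e31f14f88, nat_lit 0x1fd0fd47e03eb1f34f8a, nat_lit 0x1fd4fd67e13eb9f38f8c, nat_lit 0x1fd8fd87e23ec1f3cf8e, nat_lit 0x1f44fa07cf3e71f34f98, nat_lit 0x1f48fa27d03e79f38f9a, nat_lit 0x1f4cfa47d13e81f3cf9c, nat_lit 0x1ffcfec7ec3f11f60f9e, nat_lit 0x2014ffc7f53f59f84fae, nat_lit 0x20250027fa3f89f9cfba, nat_lit 0x1ef0f7e7c63e69f54fbc, nat_lit 0x202d0067fc3f99fa4fbe, nat_lit 0x20310087fd3fa1fa8fc0, nat_lit 0x1f94fc87e33f11f84fc0, nat_lit 0x1ef4f827c93e81f60fc2, nat_lit 0x37c3c83602959ac0fc4, nat_lit 0x203900c7ff3fb1fb0fc4, nat_lit 0x3803ca3612961ac4fc6, nat_lit 0x1fb4fd87eb3f51fa4fd0,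 nat_lit 0x3883d436729b1af4fda, nat_lit 0x1f0cf967d33ed9f90fda, nat_lit 0x38c3d636929f1b14fe6, nat_lit 0x1f28fa27d93f11facfe8, nat_lit 0x1f38fac7df3f41fc4ff2, nat_lit 0x1f3cfae7e03f49fc8ff4, nat_lit 0x1f40fb07e13f51fccff6, nat_lit 0x1f44fb27e23f59fd0ff8, nat_lit 0x3903e43712a61b48ffe, nat_lit 0x1f50fb87e53f71fdcffe, nat_lit 0x3983e63722a91b5d004, nat_lit 0x201d00c805402200d004, nat_lit 0x1f68fc67ec3fa9ff5006, nat_lit 0x202100e806402a011006, nat_lit 0x1f6cfc87ed3fb1ff9008, nat_lit 0x1f88fd67f43fe2009012, nat_lit 0x207503881b40d2065030, nat_lit 0x20f106e82f414a085032, nat_lit 0x207d03c81d40e206d034, nat_lit 0x3a43f83822bc1bf1052, nat_lit 0x205102e81e41220b1062, nat_lit 0x20e106e83641aa0d1066, nat_lit 0x20e907283841ba0d906a, nat_lit 0x1941e622522a1ab1080, nat_lit 0x1981ec22922c1ac1082, nat_lit 0x21750bc86143221950cc, nat_lit 0x4644343ab2cb9cf10d8, nat_lit 0x54c4b23f82da9d2d0de, nat_lit 0x5784cc4052de1d450e0,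 nat_lit 0x5e05304362ec9d5d0e2, nat_lit 0x5e45324372ed1d610e4, nat_lit 0x5fc54a4432f41d710ea, nat_lit 0x61055a44c2f89d7d0ec, nat_lit 0x62056c4562fd1d850ee, nat_lit 0x23d11cc8cd458a2410f2, nat_lit 0x63c5804613021d910f4, nat_lit 0x23d51d68d545ba2650f6, nat_lit 0x67c5aa47730c1da90f8, nat_lit 0x6805ac47830c9dad0fa, nat_lit 0x6c86024a931e9e0d0fc, nat_lit 0x6cc6064ab31f1e150fe, nat_lit 0x6d060e4b13221e2d100, nat_lit 0x6d46124b33231e35102, nat_lit 0x6d86144b43239e39104, nat_lit 0x23dd1e28dd461a29d104, nat_lit 0x6dc6164b53241e3d106, nat_lit 0x6e061c4b93269e45108, nat_lit 0x6e461e4ba3271e4910a, nat_lit 0x6e86204bb3279e4d10c, nat_lit 0x6ec6224bc3281e5110e, nat_lit 0x6f86284bf3299e5d110, nat_lit 0x7046324c632c9e69112, nat_lit 0x70c6364c832d1e71116, nat_lit 0x7106384c932d9e75118, nat_lit 0x71463a4ca32e1e7911a, nat_lit 0x71863c4cb32e9e7d11c, nat_lit 0x71c6444cf3309e8111e, nat_lit 0x7246484d13319e89122, nat_lit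 0x72864a4d23321e8d124, nat_lit 0x72c64c4d33329e91126, nat_lit 0x73064e4d43331e95128, nat_lit 0x7346504d53339e9912a, nat_lit 0x7386584db3351ea912c, nat_lit 0x73c65a4dc3359ead12e, nat_lit 0x74065c4dd3361eb1130, nat_lit 0x74c6624e03371ebd134, nat_lit 0x7506644e13379ec1136, nat_lit 0x75c66e4e73399ecd138, nat_lit 0x7606704e833a1ed113a, nat_lit 0x76c6764eb33b1edd13c, nat_lit 0x7746824f133d9ee913e, nat_lit 0x7846b25203529f6114a, nat_lit 0x7986c452d3591f9115a, nat_lit 0x79c6c853335d1fa915c, nat_lit 0x7a46cc53535e1fb1160, nat_lit 0x7ac6d253e3629fcd162, nat_lit 0x7b06d453f3631fd1164, nat_lit 0x7c46e054b3689ff916e, nat_lit 0x7cc6e455236ba009172, nat_lit 0x7e86fe57537ba08918c, nat_lit 0x800714581385a0dd1a8, nat_lit 0x23b11d28e447023711b4, nat_lit 0x3ac4243f132820691de, nat_lit 0x92c7cc5ab3a221b91f4, nat_lit 0x249923890847fa3f11f4, nat_lit 0xa788785df3aca1cd1f6, nat_lit 0xd5ca2e69c3e8a289202, nat_lit 0x244922090e4852415204,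 nat_lit 0xd70a466a83eda2a1208, nat_lit 0xd78a526ae3f022a520a, nat_lit 0xd90a666ba3f522b9214, nat_lit 0x24bd25c92d493a475214, nat_lit 0xd94a686bb3f5a2bd216, nat_lit 0xda4a7c6c53f9a2c521a, nat_lit 0xdbca926cf3fe22d921e, nat_lit 0xdc0a966d13ff22dd222, nat_lit 0xdd0aa86d940222e9224, nat_lit 0xe0caf26fd415232923c, nat_lit 0xe58b2672c42ba3ad254, nat_lit 0xf78b4c741436a3e5260, nat_lit 0x14d4d787ec4582431264, nat_lit 0x15a4dd881245e244d266, nat_lit 0x1a9cfb48a7481a4c5276, nat_lit 0x25252909474a3250d27a, nat_lit 0x1bb50268bd48a24d127c]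
theorem hpt : RA.all okp pt = true := by decide +kernel
theorem hN : chkN nb td1 pt nbl (nat_lit 0) = true := by decide +kernel
theorem hA : chkG cl (nat_lit 6) (apOK td1 pt (nat_lit 5)) apl (nat_lit 0) = true := by decide +kernel
def s0 : List Nat := [nat_lit 0x14ecae2535, nat_lit 0x157cb32559, nat_lit 0x259d346961, nat_lit 0x14ec1666f5, nat_lit 0x1cdc1f688f, nat_lit 0x1cf41fe8a9, nat_lit 0x222c302ae1, nat_lit 0x44653e71c5, nat_lit 0x44ad40b1cd, nat_lit 0x10758f2153, nat_lit 0x32e400a001, nat_lit 0x1664ab2593, nat_lit 0x16b4ade5a7, nat_lit 0x22c50e28ab, nat_lit 0x231d1068c1, nat_lit 0x26a52ce9a3, nat_lit 0x26fd2f29b9, nat_lit 0x3950a616d, nat_lit 0x41d25e191, nat_lit 0x1d1e1ca8d3, nat_lit 0x271636eb25]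
theorem hs0 : chkG cl (nat_lit 3) (l3OK td9 td9 td9 pt) s0 (nat_lit 1504) = true := by decide +kernel
def s1 : List Nat := [nat_lit 0xf46136635, nat_lit 0x121e206755, nat_lit 0x1ace372965, nat_lit 0x25d646abdd, nat_lit 0x165dcb2003, nat_lit 0x444daa4b5, nat_lit 0x45cdc24cd, nat_lit 0xc5563a993, nat_lit 0x225611af27, nat_lit 0x4e0e56d, nat_lit 0xce2e597, nat_lit 0xaac172063, nat_lit 0x12d434a111, nat_lit 0x15b4386137, nat_lit 0x1da463620d, nat_lit 0x1f8470e241, nat_lit 0x44e5c42c2d, nat_lit 0xcbc036117, nat_lit 0x2a5c166597, nat_lit 0x42c47d2db1, nat_lit 0x104c24e7bb, nat_lit 0x3c6d5c7185, nat_lit 0x202c09e597, nat_lit 0x3854356b23, nat_lit 0x40e46d6e37, nat_lit 0x665bf23f9, nat_lit 0x6cdc42403, nat_lit 0x1525c7236d, nat_lit 0x1f2e08a559, nat_lit 0xfbc0ee0bf, nat_lit 0x25add0648b, nat_lit 0x2a5dda2597, nat_lit 0x38f62aaa55, nat_lit 0x39862eeab9, nat_lit 0x5b487e635, nat_lit 0x6e620eb1f, nat_lit 0x2c3ceb21a3,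 nat_lit 0x13b61b6cc5, nat_lit 0x39a597e71d, nat_lit 0x134ca264e3, nat_lit 0x14e4b0a547, nat_lit 0x1524b32559, nat_lit 0x1564b5256b, nat_lit 0x1574b5a56f, nat_lit 0x157cb5e571, nat_lit 0x15acb7257b, nat_lit 0x15c4b7e581, nat_lit 0x15fcb96591, nat_lit 0x1604b9a593, nat_lit 0x1664bbe5a9, nat_lit 0x1834cb261b, nat_lit 0x1844cba61f, nat_lit 0x1f450467e3, nat_lit 0x1f8505a7f3, nat_lit 0x21d518e883, nat_lit 0x22151ba897, nat_lit 0x225d1da8ab, nat_lit 0x22bd2028c1, nat_lit 0x22cd20a8c5, nat_lit 0x23052228d5, nat_lit 0x230d2268d7, nat_lit 0x231522a8d9, nat_lit 0x255d352967, nat_lit 0x258d372973, nat_lit 0x2595376975, nat_lit 0x25e53a298d, nat_lit 0x268d3e69b7, nat_lit 0x26953ea9b9, nat_lit 0x28654cea27, nat_lit 0x287d4daa2d, nat_lit 0x28fd526a51, nat_lit 0x299d56ea7b, nat_lit 0x2a0558ea93, nat_lit 0x2a15596a97, nat_lit 0x2a4d59eaa3, nat_lit 0x2edd812bc9, nat_lit 0x2eed81abcd, nat_lit 0x2f3d842be1, nat_lit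 0x34ddb1ed49, nat_lit 0x3525b3ed5b, nat_lit 0x352db42d5d, nat_lit 0x14eca3e549, nat_lit 0x1524a4a559, nat_lit 0x1564a5e56b, nat_lit 0x1574a6656f, nat_lit 0x157ca6a571, nat_lit 0x15c4a86581, nat_lit 0x1604aa6593, nat_lit 0x16acafa5bb, nat_lit 0x18d4c16647, nat_lit 0x1934c3e65d, nat_lit 0x1a34cce699, nat_lit 0x21d509a883, nat_lit 0x225d0d68ab, nat_lit 0x22750e28b1, nat_lit 0x22c50fe8c3, nat_lit 0x22cd1028c5, nat_lit 0x230511e8d5, nat_lit 0x232512e8dd, nat_lit 0x23751568ed, nat_lit 0x23cd186903, nat_lit 0x25e529a98d, nat_lit 0x265d2ce9a9, nat_lit 0x26952e69b9, nat_lit 0x269d2ea9bb, nat_lit 0x26fd31a9d1, nat_lit 0x290d42ea55, nat_lit 0x299d472a7b, nat_lit 0x29c5486a85, nat_lit 0x2a054a2a93, nat_lit 0x2a4d4c2aa3, nat_lit 0x2a654ceaa9, nat_lit 0x2f85762bf3, nat_lit 0x303d7c2c21, nat_lit 0x3635ab2d9d, nat_lit 0x299c02e7e1, nat_lit 0x29ec0f68c3, nat_lit 0x2a040fa8c9, nat_lit 0x124c9764b5, nat_lit 0x14d4abe559,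 nat_lit 0x1564b0e581, nat_lit 0x15acb32593, nat_lit 0x15bcb3a597, nat_lit 0x15fcb5a5a7, nat_lit 0x1604b5e5a9, nat_lit 0x164cb7e5b9, nat_lit 0x187cc9a647, nat_lit 0x1894ca664d, nat_lit 0x2185116885, nat_lit 0x21fd1628ab, nat_lit 0x220d16a8af, nat_lit 0x221516e8b1, nat_lit 0x223d1828bb, nat_lit 0x225d1928c3, nat_lit 0x226d19a8c7, nat_lit 0x22c51c68dd, nat_lit 0x25052d2963, nat_lit 0x251d2de969, nat_lit 0x254d2fe979, nat_lit 0x258d32698d, nat_lit 0x259d32e991, nat_lit 0x25a5332993, nat_lit 0x25c534699d, nat_lit 0x25dd3529a3, nat_lit 0x25e53569a5, nat_lit 0x26e53ce9e1, nat_lit 0x295550aa7f, nat_lit 0x299d532a93, nat_lit 0x2a0555eaa9, nat_lit 0x2e8d7a2bcb, nat_lit 0x2edd7cebe1, nat_lit 0x2f257f2bf3, nat_lit 0x2f357fabf7, nat_lit 0x302586ac2f, nat_lit 0x34ddaced61, nat_lit 0x3ecdfbefd9, nat_lit 0x13bc9a64cd, nat_lit 0x1604abe559, nat_lit 0x164cae256b, nat_lit 0x16a4b0e581, nat_lit 0x16b4b16585, nat_lit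 0x16e4b32593, nat_lit 0x195cc6a62f, nat_lit 0x19b4c9a647, nat_lit 0x2034fd27e3, nat_lit 0x20a501a807, nat_lit 0x21fd0c285b, nat_lit 0x225d0ee871, nat_lit 0x22c5116885, nat_lit 0x2305136895, nat_lit 0x230d13a897, nat_lit 0x231d14289b, nat_lit 0x235515e8a9, nat_lit 0x237516e8b1, nat_lit 0x23f51ba8d7, nat_lit 0x258d28e941, nat_lit 0x25e52b2953, nat_lit 0x26352d2963, nat_lit 0x26752ee971, nat_lit 0x267d2f2973, nat_lit 0x268d2fa977, nat_lit 0x26952fe979, nat_lit 0x299d48aa3f, nat_lit 0x29ed4aea51, nat_lit 0x2a454d6a65, nat_lit 0x3635acad5f, nat_lit 0x363daced61, nat_lit 0x332c00a001, nat_lit 0x6d432a1ab, nat_lit 0x15b4a4e555, nat_lit 0x15c4a56559, nat_lit 0x15f4a62567, nat_lit 0x1604a6a56b, nat_lit 0x1624a7a573, nat_lit 0x165ca8e57f, nat_lit 0x16a4ab2593, nat_lit 0x1fe4f527e1, nat_lit 0x224d09687b, nat_lit 0x225d09e87f, nat_lit 0x226d0a6883, nat_lit 0x22bd0be895, nat_lit 0x22c50c2897, nat_lit 0x231d0ea8af,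 nat_lit 0x235d0fe8bd, nat_lit 0x24451828fb, nat_lit 0x259525a94f, nat_lit 0x25e526a963, nat_lit 0x25f5272967, nat_lit 0x2635282973, nat_lit 0x264528a977, nat_lit 0x26952a698d, nat_lit 0x26a52ae991, nat_lit 0x26e52c699f, nat_lit 0x26fd2d29a5, nat_lit 0x273d2ee9b7, nat_lit 0x27a532a9d3, nat_lit 0x27cd3469df, nat_lit 0x299d432a51, nat_lit 0x2a4d47ea7b, nat_lit 0x2a5d486a7f, nat_lit 0x2aad4b2a95, nat_lit 0x2b1d502ab7, nat_lit 0x372dafadb5, nat_lit 0x4075fbb00b, nat_lit 0xd5467e35d, nat_lit 0x1594a8657b, nat_lit 0x15aca92581, nat_lit 0x15fcaba597, nat_lit 0x1604abe599, nat_lit 0x1644ade5a7, nat_lit 0x16fcb3e5d3, nat_lit 0x1a0ccc6693, nat_lit 0x1a34ce669f, nat_lit 0x2074ff682f, nat_lit 0x208d002835, nat_lit 0x21fd0c2897, nat_lit 0x22550ea8af, nat_lit 0x225d0ee8b1, nat_lit 0x22a51068c1, nat_lit 0x22ad10a8c3, nat_lit 0x22bd1128c7, nat_lit 0x22c51168c9, nat_lit 0x230d13a8dd, nat_lit 0x231513e8df, nat_lit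 0x235515e8eb, nat_lit 0x23651668ef, nat_lit 0x24351da91f, nat_lit 0x258d28e979, nat_lit 0x25dd2ae991, nat_lit 0x262d2ce9a3, nat_lit 0x26352d29a5, nat_lit 0x26752ee9b7, nat_lit 0x26952fe9bf, nat_lit 0x269d3029c1, nat_lit 0x26ed32a9d3, nat_lit 0x273534e9e3, nat_lit 0x27453569e7, nat_lit 0x299d48aa81, nat_lit 0x2a4d4daaa9, nat_lit 0x2f8577abf9, nat_lit 0x2fcd79ec09, nat_lit 0x327400a001, nat_lit 0x35d5a9ed8f, nat_lit 0x3675af2db1, nat_lit 0x1d064fe8c3, nat_lit 0x8643f2211, nat_lit 0x15aca4a559, nat_lit 0x15bca5255d, nat_lit 0x15f4a6256d, nat_lit 0x15fca6656f, nat_lit 0x1604a6a571, nat_lit 0x164ca86581, nat_lit 0x165ca8e585, nat_lit 0x16a4ab2599, nat_lit 0x16b4aba59d, nat_lit 0x177cb325d3, nat_lit 0x1934c0a63b, nat_lit 0x1fd4f4a7e3, nat_lit 0x2034f767fb, nat_lit 0x220d092875, nat_lit 0x225d09e885, nat_lit 0x22bd0be89b, nat_lit 0x22c50c289d, nat_lit 0x22cd0c689f, nat_lit 0x230d0e28b1, nat_lit 0x231d0ea8b5,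 nat_lit 0x235d0fe8c3, nat_lit 0x23b512e8dd, nat_lit 0x25dd266967, nat_lit 0x25e526a969, nat_lit 0x2635282979, nat_lit 0x264528a97d, nat_lit 0x264d28e97f, nat_lit 0x2655292981, nat_lit 0x26e52c69a5, nat_lit 0x26fd2d29ab, nat_lit 0x27452f29bf, nat_lit 0x27dd34e9e9, nat_lit 0x299542ea55, nat_lit 0x2a4d47ea81, nat_lit 0x2a5d486a85, nat_lit 0x2f3d71abbd, nat_lit 0x2fed752be9, nat_lit 0x303d77abff, nat_lit 0x3695a9ed95, nat_lit 0x36cdac2da5, nat_lit 0x31ac002005, nat_lit 0xf147c63cd, nat_lit 0x12949da4b9, nat_lit 0x12eca064d3, nat_lit 0x14d4b02549, nat_lit 0x151cb2e55d, nat_lit 0x1524b3255f, nat_lit 0x1564b52571, nat_lit 0x15acb72581, nat_lit 0x15fcb96597, nat_lit 0x184ccbe627, nat_lit 0x1934d26663, nat_lit 0x1ea4ff27bf, nat_lit 0x1f8505a7f9, nat_lit 0x213d12e861, nat_lit 0x2185162877, nat_lit 0x21fd1ae897, nat_lit 0x22151ba89d, nat_lit 0x22551d68af, nat_lit 0x225d1da8b1, nat_lit 0x22c52068c9, nat_lit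 0x231522a8df, nat_lit 0x23652428ef, nat_lit 0x254d34a969, nat_lit 0x257d36a975, nat_lit 0x25a537e97f, nat_lit 0x25cd39698d, nat_lit 0x25dd39e991, nat_lit 0x26953ea9bf, nat_lit 0x26e54029d1, nat_lit 0x26ed4069d3, nat_lit 0x2a0558ea99, nat_lit 0x2e957eebbb, nat_lit 0x34a5af6d3d, nat_lit 0x34ddb1ed4f, nat_lit 0x3525b3ed61, nat_lit 0x3585b66d7b, nat_lit 0x35d5b86d8f, nat_lit 0x3c05e82f17, nat_lit 0x60419a8c9, nat_lit 0x1564b0e549, nat_lit 0x15acb32559, nat_lit 0x15bcb3a55d, nat_lit 0x15c4b3e55f, nat_lit 0x15ecb5256b, nat_lit 0x15f4b5656d, nat_lit 0x15fcb5a56f, nat_lit 0x1604b5e571, nat_lit 0x164cb7e581, nat_lit 0x165cb86585, nat_lit 0x187cc9a611, nat_lit 0x188cca2615, nat_lit 0x1934cf263b, nat_lit 0x1f2cff67bb, nat_lit 0x220d16a875, nat_lit 0x225518e883, nat_lit 0x225d192885, nat_lit 0x229d1b2893, nat_lit 0x22ad1ba897, nat_lit 0x22bd1c289b, nat_lit 0x230d1e68b1, nat_lit 0x231d1ee8b5, nat_lit 0x235d2068c3,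 nat_lit 0x258d326953, nat_lit 0x25d534e965, nat_lit 0x25dd352967, nat_lit 0x261d372973, nat_lit 0x263537e979, nat_lit 0x26e53ce9a5, nat_lit 0x277d40a9cf, nat_lit 0x295550aa43, nat_lit 0x29ed552a67, nat_lit 0x2edd7ceba7, nat_lit 0x2f3d7febbd, nat_lit 0x2f7d81abcd, nat_lit 0x34c5ac2d23, nat_lit 0x357db26d4d, nat_lit 0x35d5b4ad61, nat_lit 0x12ac90a48b, nat_lit 0x151ca46529, nat_lit 0x15c4a86549, nat_lit 0x15cca8a54b, nat_lit 0x1604aa6559, nat_lit 0x161cab255f, nat_lit 0x169caf257f, nat_lit 0x1eecf26799, nat_lit 0x1fecf967d1, nat_lit 0x22150b6861, nat_lit 0x22c50fe885, nat_lit 0x230d122897, nat_lit 0x231d12a89b, nat_lit 0x23351368a1, nat_lit 0x23751568b1, nat_lit 0x23cd1868c9, nat_lit 0x25a5282947, nat_lit 0x25e529a953, nat_lit 0x264d2c6969, nat_lit 0x268d2e2977, nat_lit 0x26952e6979, nat_lit 0x26bd2fa983, nat_lit 0x26e530e98d, nat_lit 0x270d322997, nat_lit 0x274533e9a5, nat_lit 0x295d44ea2d, nat_lit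 0x299d472a3f, nat_lit 0x2a054a2a57, nat_lit 0x2bcd5baae1, nat_lit 0x2ffd79ebd5, nat_lit 0x3585a62d37, nat_lit 0x3635ab2d5f, nat_lit 0x3655ac2d67, nat_lit 0x32e1ca0f3, nat_lit 0x1ea403ea2b, nat_lit 0x435c1e70e5, nat_lit 0x47dc67f22d, nat_lit 0x215415ea13, nat_lit 0x450c1aaa67, nat_lit 0xfec42ade3, nat_lit 0x12ac996497, nat_lit 0x1514ace531, nat_lit 0x1524ad6535, nat_lit 0x1564af6543, nat_lit 0x1574afe547, nat_lit 0x157cb02549, nat_lit 0x15b4b1e555, nat_lit 0x1604b4656b, nat_lit 0x1614b4e56f, nat_lit 0x1624b56573, nat_lit 0x165cb6e57f, nat_lit 0x1f04fc67ab, nat_lit 0x21d512a85f, nat_lit 0x2215156871, nat_lit 0x225d17a87f, nat_lit 0x226d182883, nat_lit 0x227d18a887, nat_lit 0x22bd1aa895, nat_lit 0x22c51ae897, nat_lit 0x22dd1ba89d, nat_lit 0x231d1d68af, nat_lit 0x238d2068c9, nat_lit 0x25e533e963, nat_lit 0x25f5346967, nat_lit 0x25fd34a969, nat_lit 0x264536e977, nat_lit 0x264d372979, nat_lit 0x268d39298b,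 nat_lit 0x269539698d, nat_lit 0x26fd3c29a5, nat_lit 0x27a54069d3, nat_lit 0x295d4f6a3f, nat_lit 0x2fb581ebd5, nat_lit 0x328d98ac8b, nat_lit 0x352dae2d33, nat_lit 0x3585b12d49, nat_lit 0x1cc64e6693, nat_lit 0x262e3f67e1, nat_lit 0x11e4922497, nat_lit 0x14d4aa6559, nat_lit 0x14ecab255f, nat_lit 0x1564af6581, nat_lit 0x1574afe585, nat_lit 0x157cb02587, nat_lit 0x15bcb22597, nat_lit 0x15c4b26599, nat_lit 0x1604b465a9, nat_lit 0x1614b4e5ad, nat_lit 0x1894c8e64d, nat_lit 0x1f8d00e80d, nat_lit 0x213d0d6871, nat_lit 0x21850fe885, nat_lit 0x220d1528af, nat_lit 0x225d17a8c3, nat_lit 0x226d1828c7, nat_lit 0x22c51ae8dd, nat_lit 0x22cd1b28df, nat_lit 0x23151d28ef, nat_lit 0x23251da8f3, nat_lit 0x254d2e6979, nat_lit 0x258d30e98d, nat_lit 0x259d316991, nat_lit 0x25dd33a9a3, nat_lit 0x25e533e9a5, nat_lit 0x25f53469a9, nat_lit 0x25fd34a9ab, nat_lit 0x26353669b9, nat_lit 0x269d39a9d3, nat_lit 0x287d47ea45, nat_lit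 0x28fd4c2a67, nat_lit 0x290d4caa6b, nat_lit 0x29454eaa7b, nat_lit 0x2975502a87, nat_lit 0x299d51aa93, nat_lit 0x2a05546aa9, nat_lit 0x2a0d54aaab, nat_lit 0x2f9580ec0d, nat_lit 0x2fad81ac13, nat_lit 0x34ddab6d61, nat_lit 0x3535ae6d79, nat_lit 0x3585b12d8f, nat_lit 0x369db8adcb, nat_lit 0x8547f602b, nat_lit 0x3f1418e4cf, nat_lit 0x12c18a4ad, nat_lit 0x3e43664ad]
theorem hs1 : chkG cl (nat_lit 3) (l3OK td9 td3 td12 pt) s1 (nat_lit 1525) = true := by decide +kernel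
def s2 : List Nat := [nat_lit 0x4705ac2559, nat_lit 0x5e4b26c1b, nat_lit 0x295512a75b, nat_lit 0x2bd53227e1, nat_lit 0x33ec006001, nat_lit 0x15fcaaa52f, nat_lit 0x22d510e861, nat_lit 0xc002c89, nat_lit 0x127c936497, nat_lit 0x25ad2ce963, nat_lit 0x264531a989]
theorem hs2 : chkG cl (nat_lit 3) (l3OK td4 td16 td4 pt) s2 (nat_lit 2035) = true := by decide +kernel
def s3 : List Nat := [nat_lit 0x15d946497, nat_lit 0x1740024a5, nat_lit 0x1fda9a547, nat_lit 0x20dac2559, nat_lit 0x255b1e581, nat_lit 0x25db3e593, nat_lit 0x275b4e59b, nat_lit 0x27db625a7, nat_lit 0x285b665a9, nat_lit 0x28db725af, nat_lit 0x44de9a7fb, nat_lit 0x5560128ed, nat_lit 0x666132a67, nat_lit 0x6b615ea97, nat_lit 0x394c5629ab, nat_lit 0x424492eca3, nat_lit 0x426c94a001, nat_lit 0x430cab2d61, nat_lit 0x47bd2d303b, nat_lit 0x44044fa7b5, nat_lit 0x482caaabdd, nat_lit 0x487cb26c1b, nat_lit 0x4894b52c2f, nat_lit 0x48b4c0a005, nat_lit 0x48e4c4aca3,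 nat_lit 0x48f4c6a001, nat_lit 0x4904c8ecc5, nat_lit 0x4914cbe003, nat_lit 0x492cd82d61, nat_lit 0x1347822ef, nat_lit 0x37cd9256b, nat_lit 0x7953567fb, nat_lit 0x7e5486883, nat_lit 0x7f54aa895, nat_lit 0x81d4d68af, nat_lit 0x84550a8c7, nat_lit 0x87553a8e1, nat_lit 0x8955728ff, nat_lit 0x8cd5ca969, nat_lit 0x206e163007, nat_lit 0x2d0634712b, nat_lit 0x480c8f2005, nat_lit 0x4814902c87, nat_lit 0x484492eca3, nat_lit 0x488c99a003, nat_lit 0x48bca72d3b, nat_lit 0x48dcab2d61, nat_lit 0x49a50bef93, nat_lit 0x2c20202d, nat_lit 0x1557c2559, nat_lit 0x16d7e656b, nat_lit 0x19d836593, nat_lit 0x1a5842599, nat_lit 0x1ad85a5a7, nat_lit 0x215946625, nat_lit 0xa9e242cc5, nat_lit 0x6fd12e307, nat_lit 0xf1579a547, nat_lit 0xf257c2559, nat_lit 0xf95842599, nat_lit 0xfa585a5a7, nat_lit 0x1bede3a969, nat_lit 0x1c2de76993, nat_lit 0x1ca5fb6a6d, nat_lit 0x1cadfd6a81, nat_lit 0x4224f76969, nat_lit 0x42a4ff29a9, nat_lit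 0x42dd0bea1d, nat_lit 0x4315152a65, nat_lit 0x43351aea93, nat_lit 0x465d672bf9, nat_lit 0x475d6f2003, nat_lit 0x4785792d49, nat_lit 0x47957c2d61, nat_lit 0x10c2a61b3, nat_lit 0x634866547, nat_lit 0x67c88a573, nat_lit 0x714952639, nat_lit 0x71c966647, nat_lit 0xf0cf6e965, nat_lit 0xf4cfc2991, nat_lit 0xf54fc6993, nat_lit 0xfc5106a43, nat_lit 0xfcd12aa55, nat_lit 0xff5182a7f, nat_lit 0xffd1aaa91, nat_lit 0x10051b2a95, nat_lit 0x1b2d6c2001, nat_lit 0x1b856f2003, nat_lit 0x395625b1a5, nat_lit 0x4dd6363d1, nat_lit 0x7557f2443, nat_lit 0x77c0024a5, nat_lit 0x7bd9d64e3, nat_lit 0x7d5a76539, nat_lit 0x7dda92543, nat_lit 0x825afa573, nat_lit 0x83db1e581, nat_lit 0x86db4a599, nat_lit 0x87db625a7, nat_lit 0x88db725af, nat_lit 0x1045f5e87f, nat_lit 0x106dfb28af, nat_lit 0x165e19eb05, nat_lit 0x1da6336cc5, nat_lit 0x129438616d, nat_lit 0x15ac3a6199, nat_lit 0x1f847a6313, nat_lit 0x2cecc764ab, nat_lit 0x3a8552a8d9,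 nat_lit 0x43b5be2ca3, nat_lit 0x43bdbf6001, nat_lit 0x2cb45f6883, nat_lit 0x2cc460a895, nat_lit 0x39e4a92bcf, nat_lit 0x39ecac2be9, nat_lit 0x3a5cc8ecc5, nat_lit 0x31ec006001, nat_lit 0xbcc65a30f, nat_lit 0x121c9c24b7, nat_lit 0x12249c64b9, nat_lit 0x12349ce4bd, nat_lit 0x124c9da4c9, nat_lit 0x12f4a264f3, nat_lit 0x1484ae2547, nat_lit 0x14e4b36571, nat_lit 0x150cb4e57d, nat_lit 0x151cb56581, nat_lit 0x152cb5e585, nat_lit 0x1554b72591, nat_lit 0x1574b82599, nat_lit 0x184cce664b, nat_lit 0x1e74ffa7d1, nat_lit 0x1ea501e7e3, nat_lit 0x214d166885, nat_lit 0x215516a887, nat_lit 0x217d18a897, nat_lit 0x21d51be8b1, nat_lit 0x220d1de8c3, nat_lit 0x22451f68d3, nat_lit 0x22bd22a8ed, nat_lit 0x24e532a969, nat_lit 0x251534e979, nat_lit 0x255d382993, nat_lit 0x256d38a997, nat_lit 0x25ad3ae9a9, nat_lit 0x25c53ba9b3, nat_lit 0x25cd3be9b5, nat_lit 0x25f53d29bf, nat_lit 0x264d3f29d3, nat_lit 0x26a54129e7, nat_lit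 0x2875506a57, nat_lit 0x28ad52aa67, nat_lit 0x345daf2d4b, nat_lit 0x349db22d61, nat_lit 0x34edb4ed7b, nat_lit 0x3c7dedef4b, nat_lit 0x12b48ee497, nat_lit 0x157ca4e547, nat_lit 0x15bca5e555, nat_lit 0x15cca66559, nat_lit 0x161ca8a56f, nat_lit 0x162ca92573, nat_lit 0x165caa657d, nat_lit 0x169caca58f, nat_lit 0x16a4ace591, nat_lit 0x16bcada597, nat_lit 0x170cb025ab, nat_lit 0x173cb225b9, nat_lit 0x178cb525cf, nat_lit 0x18f4c06625, nat_lit 0x1944c22637, nat_lit 0x1974c36645, nat_lit 0x19c4c5e659, nat_lit 0x19ccc6265b, nat_lit 0x1f4cf2e7bb, nat_lit 0x1f9cf4a7cd, nat_lit 0x1fa4f4e7cf, nat_lit 0x22750ba883, nat_lit 0x22c50da895, nat_lit 0x23251028af, nat_lit 0x23751268c1, nat_lit 0x238512e8c5, nat_lit 0x23b514e8d5, nat_lit 0x23bd1528d7, nat_lit 0x25f5282965, nat_lit 0x25fd286967, nat_lit 0x264d29e977, nat_lit 0x268d2ba989, nat_lit 0x26952be98b, nat_lit 0x26ed2e299f, nat_lit 0x26fd2ea9a3, nat_lit 0x270d2f29a7,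 nat_lit 0x273d30e9b5, nat_lit 0x274d3169b9, nat_lit 0x27ad34a9d3, nat_lit 0x27e53729e3, nat_lit 0x296542ea3f, nat_lit 0x29fd472a63, nat_lit 0x2aa54c6a91, nat_lit 0x2fad74ebd1, nat_lit 0x35a5a4ed4f, nat_lit 0x363da8ad73, nat_lit 0x3f2df22fb3, nat_lit 0x15fca4e543, nat_lit 0x1614a5a549, nat_lit 0x16aca9256f, nat_lit 0x16dcaaa57b, nat_lit 0x16ecab257f, nat_lit 0x1704abe585, nat_lit 0x173cae2597, nat_lit 0x1a0cc46649, nat_lit 0x1a44c6e65d, nat_lit 0x20ecfce80f, nat_lit 0x23050ba87f, nat_lit 0x23150c2883, nat_lit 0x23fd12e8c1, nat_lit 0x263526694f, nat_lit 0x268d286963, nat_lit 0x269d28e967, nat_lit 0x26dd29e973, nat_lit 0x274d2d2991, nat_lit 0x278d2f29a3, nat_lit 0x279d2fa9a7, nat_lit 0x27a52fe9a9, nat_lit 0x281d3529d3, nat_lit 0x299541ea27, nat_lit 0x2ab548ea6d, nat_lit 0x31057c2c07, nat_lit 0x36d5a9ed79, nat_lit 0x3f45efaf99, nat_lit 0x3fedf42fc3, nat_lit 0x11e493e49b, nat_lit 0x12e49d24e5, nat_lit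 0x148ca92545, nat_lit 0x14d4ac255d, nat_lit 0x15acb36597, nat_lit 0x15b4b3a599, nat_lit 0x15f4b5a5a9, nat_lit 0x15fcb5e5ab, nat_lit 0x165cb8a5c1, nat_lit 0x213d0f2875, nat_lit 0x216d10e883, nat_lit 0x21fd1668af, nat_lit 0x220d16e8b3, nat_lit 0x224d18e8c3, nat_lit 0x22bd1c68df, nat_lit 0x25052d6967, nat_lit 0x253d2fa979, nat_lit 0x258d32a991, nat_lit 0x25d53529a5, nat_lit 0x25dd3569a7, nat_lit 0x261d3769b7, nat_lit 0x267d3a69cf, nat_lit 0x268d3ae9d3, nat_lit 0x289d4b2a55, nat_lit 0x28ad4baa59, nat_lit 0x356db22d8d, nat_lit 0x3575b26d8f, nat_lit 0x357db2ad91, nat_lit 0x3635b72db5, nat_lit 0x3f05fdefeb, nat_lit 0x13749064a5, nat_lit 0x1604a4e547, nat_lit 0x1614a5654b, nat_lit 0x166ca7255f, nat_lit 0x16a4a8a56f, nat_lit 0x16dcaa657d, nat_lit 0x171cace591, nat_lit 0x1764afa5a7, nat_lit 0x1a2cc5e659, nat_lit 0x2034f4e7cf, nat_lit 0x206cf6a7df, nat_lit 0x2074f6e7e1, nat_lit 0x22cd0a6877, nat_lit 0x231d0c2887,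 nat_lit 0x235d0da895, nat_lit 0x238d0f28a1, nat_lit 0x23b51028af, nat_lit 0x243514e8d5, nat_lit 0x245515e8dd, nat_lit 0x248d1868ef, nat_lit 0x269d28a969, nat_lit 0x26dd29a975, nat_lit 0x26e529e977, nat_lit 0x27852ea9a3, nat_lit 0x27cd31a9bb, nat_lit 0x281534a9d3, nat_lit 0x2a4d452a55, nat_lit 0x2a85472a63, nat_lit 0x2ae54aaa81, nat_lit 0x3414002003, nat_lit 0x3585a16d27, nat_lit 0x364da52d51, nat_lit 0x3d2ddf6f1f, nat_lit 0x3fddf36fc1, nat_lit 0x49e47bf081, nat_lit 0x14006cb7, nat_lit 0x11dc9964a7, nat_lit 0x127c9ee4d7, nat_lit 0x149cafe559, nat_lit 0x14ccb2656d, nat_lit 0x1524b56585, nat_lit 0x1554b6e593, nat_lit 0x157cb8259d, nat_lit 0x15c4b9e5ad, nat_lit 0x15f4bae5b9, nat_lit 0x21b51aa8ab, nat_lit 0x21c51b28af, nat_lit 0x21e51c28b7, nat_lit 0x220d1da8c5, nat_lit 0x22151de8c7, nat_lit 0x224d1f68d7, nat_lit 0x226d2068df, nat_lit 0x22cd22e8f3, nat_lit 0x230523e8ff, nat_lit 0x24e532696b, nat_lit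 0x251d34e97d, nat_lit 0x253d36e98d, nat_lit 0x256d386999, nat_lit 0x258d39a9a3, nat_lit 0x259d3a29a7, nat_lit 0x26a540e9e9, nat_lit 0x2a0d5a2abd, nat_lit 0x342dabed37, nat_lit 0x3455aead4b, nat_lit 0x3525b5ed8d, nat_lit 0x3535b66d91, nat_lit 0x353db6ad93, nat_lit 0x357db86da1, nat_lit 0x35e5ba6db5, nat_lit 0x3b85e4ef07, nat_lit 0x11c4926477, nat_lit 0x130c9e64d3, nat_lit 0x14acaaa533, nat_lit 0x14f4ade549, nat_lit 0x1514af2553, nat_lit 0x152cafe559, nat_lit 0x1584b2e571, nat_lit 0x15ccb4e581, nat_lit 0x15dcb56585, nat_lit 0x1664b925a7, nat_lit 0x167cb9e5ad, nat_lit 0x16b4bb25bb, nat_lit 0x192ccfa659, nat_lit 0x1f4d0167e3, nat_lit 0x1fb50467fd, nat_lit 0x217511e86b, nat_lit 0x21e515e885, nat_lit 0x220d17a893, nat_lit 0x221d182897, nat_lit 0x222d18a89b, nat_lit 0x225d1a68a9, nat_lit 0x22c51d28c1, nat_lit 0x22cd1d68c3, nat_lit 0x22d51da8c5, nat_lit 0x25152e694f, nat_lit 0x259d33e975, nat_lit 0x25ad346979,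 nat_lit 0x25bd34e97d, nat_lit 0x264d39a9a3, nat_lit 0x265539e9a5, nat_lit 0x265d3a29a7, nat_lit 0x26653a69a9, nat_lit 0x269d3be9b9, nat_lit 0x26a53c29bb, nat_lit 0x28754a2a29, nat_lit 0x28ad4c2a3b, nat_lit 0x2965522a67, nat_lit 0x2a1d572a97, nat_lit 0x2e65792ba3, nat_lit 0x2f55816be5, nat_lit 0x35edb5ed8d, nat_lit 0x3605b6ad93, nat_lit 0x12a4902485, nat_lit 0x12f4926497, nat_lit 0x135494e4ab, nat_lit 0x14eca3a521, nat_lit 0x1604aa2555, nat_lit 0x1614aaa559, nat_lit 0x166cad656f, nat_lit 0x1674ada571, nat_lit 0x16acaf657f, nat_lit 0x1704b26597, nat_lit 0x1714b2e59b, nat_lit 0x173cb465a7, nat_lit 0x1974c5a631, nat_lit 0x1a1ccb265d, nat_lit 0x1fe4f8e7cb, nat_lit 0x20d501680f, nat_lit 0x21d509684f, nat_lit 0x220d0ae85b, nat_lit 0x222d0be863, nat_lit 0x225d0d286d, nat_lit 0x226d0da871, nat_lit 0x22cd0fe883, nat_lit 0x230d11e893, nat_lit 0x231d126897, nat_lit 0x259d27a941, nat_lit 0x25e529694f, nat_lit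 0x25f529e953, nat_lit 0x26452be963, nat_lit 0x26552c6967, nat_lit 0x265d2ca969, nat_lit 0x26952e2975, nat_lit 0x269d2e6977, nat_lit 0x26a52ea979, nat_lit 0x26ed30e98b, nat_lit 0x274d33e9a3, nat_lit 0x27e539a9d1, nat_lit 0x2a0d4a2a55, nat_lit 0x2af5522a95, nat_lit 0x2fdd78abc9, nat_lit 0x3645ab6d5f, nat_lit 0x3725b3ada1, nat_lit 0xcf46a2355, nat_lit 0x127c9724bd, nat_lit 0x134c9da4f1, nat_lit 0x14e4aaa559, nat_lit 0x1564af257d, nat_lit 0x15ccb26597, nat_lit 0x165cb6a5b9, nat_lit 0x1664b6e5bb, nat_lit 0x18e4cb265d, nat_lit 0x198cd02685, nat_lit 0x1fa501680f, nat_lit 0x218d0fe883, nat_lit 0x219d106887, nat_lit 0x220d14e8ab, nat_lit 0x227d1868c7, nat_lit 0x22bd1a68d7, nat_lit 0x23151ce8eb, nat_lit 0x23751f68ff, nat_lit 0x24e529e953, nat_lit 0x25252c6967, nat_lit 0x256d2f297d, nat_lit 0x259d31298d, nat_lit 0x25fd3469a7, nat_lit 0x269d3969cf, nat_lit 0x26fd3be9e3, nat_lit 0x274d3de9f3, nat_lit 0x28ad49aa51,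 nat_lit 0x2e3d746ba7, nat_lit 0x2f9d80ec0b, nat_lit 0x34edabad61, nat_lit 0x3545aead79, nat_lit 0x35e5b36d9f, nat_lit 0x3c2de4af29, nat_lit 0x3d85eeaf77, nat_lit 0x151cb1255f, nat_lit 0x1524b16561, nat_lit 0x1564b3a573, nat_lit 0x15b4b5e585, nat_lit 0x15e4b76593, nat_lit 0x17fcc72613, nat_lit 0x1834c9a623, nat_lit 0x190cd0665b, nat_lit 0x191cd0e65f, nat_lit 0x1ed4ff27cd, nat_lit 0x1edcff67cf, nat_lit 0x1eecffe7d3, nat_lit 0x1fc505e80b, nat_lit 0x217513a875, nat_lit 0x21b5162883, nat_lit 0x21c516a887, nat_lit 0x220519289b, nat_lit 0x223d1b28ab, nat_lit 0x225d1c28b3, nat_lit 0x226d1ca8b7, nat_lit 0x22a51de8c3, nat_lit 0x235d22e8ef, nat_lit 0x23b5252905, nat_lit 0x253d326967, nat_lit 0x254d32e96b, nat_lit 0x25c537698d, nat_lit 0x25dd382993, nat_lit 0x25e5386995, nat_lit 0x26253a29a3, nat_lit 0x262d3a69a5, nat_lit 0x26cd3e69cd, nat_lit 0x26dd3ee9d1, nat_lit 0x26e53f29d3, nat_lit 0x271d4029df, nat_lit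 0x272d40a9e3, nat_lit 0x28e54fea53, nat_lit 0x28ed502a55, nat_lit 0x2f6583abf3, nat_lit 0x326c006001, nat_lit 0x3445a9ad25, nat_lit 0x133495e4ab, nat_lit 0x1554a72535, nat_lit 0x1564a7a539, nat_lit 0x15aca96547, nat_lit 0x1644ae256d, nat_lit 0x164cae656f, nat_lit 0x16a4b12585, nat_lit 0x16d4b2e593, nat_lit 0x16ecb3a599, nat_lit 0x191cc4e623, nat_lit 0x1964c72635, nat_lit 0x1974c7a639, nat_lit 0x1a0ccca661, nat_lit 0x1fccfa27cd, nat_lit 0x21fd0c685f, nat_lit 0x225d0f2875, nat_lit 0x22ad10e883, nat_lit 0x230d13e89b, nat_lit 0x234d15e8ab, nat_lit 0x235d1668af, nat_lit 0x25c52a694f, nat_lit 0x25e52b6957, nat_lit 0x26252ce963, nat_lit 0x262d2d2965, nat_lit 0x26352d6967, nat_lit 0x269530297d, nat_lit 0x26d532298d, nat_lit 0x26e532a991, nat_lit 0x274d35e9ab, nat_lit 0x27fd3ce9e3, nat_lit 0x294545ea2b, nat_lit 0x29ed4b2a55, nat_lit 0x2a8d506a7f, nat_lit 0x3525a56d27, nat_lit 0x35d5aa2d4d, nat_lit 0x165cac2587,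 nat_lit 0x169cae6599, nat_lit 0x186cbea60f, nat_lit 0x1fc4f767e1, nat_lit 0x224d0c2883, nat_lit 0x234d12e8c1, nat_lit 0x239d15e8d9, nat_lit 0x25cd28a965, nat_lit 0x26252a6977, nat_lit 0x268d2d6993, nat_lit 0x26e52fa9a7, nat_lit 0x26ed2fe9a9, nat_lit 0x273d32a9bf, nat_lit 0x274532e9c1, nat_lit 0x277d34e9d1, nat_lit 0x27853529d3, nat_lit 0x2fed786beb, nat_lit 0x30bd7fac23, nat_lit 0x36cdafeda7, nat_lit 0x36fdb1edb1]
theorem hs3 : chkG cl (nat_lit 3) (l3OK td4 td7 td19 pt) s3 (nat_lit 2046) = true := by decide +kernel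
def s4 : List Nat := [nat_lit 0x22d623a41d, nat_lit 0x2c163ae597, nat_lit 0x1640674f, nat_lit 0xe446779, nat_lit 0x1de4b2f0f7, nat_lit 0x25a4df7187, nat_lit 0x2944e471bd, nat_lit 0x33155f3241, nat_lit 0xd60b245, nat_lit 0x357d62f249, nat_lit 0x3635643253, nat_lit 0x151c31a0d7, nat_lit 0x152431e0d9, nat_lit 0x156432a0db, nat_lit 0x15ac3320df, nat_lit 0x15c433a0e1, nat_lit 0x15cc33e0e3, nat_lit 0x160434e0e7, nat_lit 0x164c3560ed, nat_lit 0x169c3660f3, nat_lit 0x173437a0ff, nat_lit 0x18e438a10b, nat_lit 0x21c46ca1f3, nat_lit 0x231c732211, nat_lit 0x23cc76e223, nat_lit 0x151d5c607f, nat_lit 0x15655d6083, nat_lit 0x15cd5ee091, nat_lit 0x166d60e09d, nat_lit 0x169d61209f, nat_lit 0x26adca6175, nat_lit 0x2915cc618f, nat_lit 0x2955cca193, nat_lit 0x299dcce199, nat_lit 0x2a8dcde1b1, nat_lit 0x6cce5e5a7, nat_lit 0x1605c16b6f, nat_lit 0x164dc2ab77, nat_lit 0x2956182f27, nat_lit 0x31e636b0e5, nat_lit 0x328e3870ed,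 nat_lit 0x638f0ef, nat_lit 0x33ae3bb0fb, nat_lit 0x15740b2761, nat_lit 0x15b40ba763, nat_lit 0x15bc0be765, nat_lit 0x16640d277b, nat_lit 0x220c206b2d, nat_lit 0x22cc21ab3b, nat_lit 0x25a424eb4b, nat_lit 0x14e4ae2527, nat_lit 0x151cb02531, nat_lit 0x153cb12539, nat_lit 0x1574b32545, nat_lit 0x157cb36547, nat_lit 0x1584b3a549, nat_lit 0x15ccb5a559, nat_lit 0x15fcb72567, nat_lit 0x1614b7e56d, nat_lit 0x164cb92579, nat_lit 0x165cb9a57d, nat_lit 0x173cbde5b9, nat_lit 0x196cd1a643, nat_lit 0x1ea4fc6795, nat_lit 0x21d516285d, nat_lit 0x21e516a861, nat_lit 0x220d18686d, nat_lit 0x221d18e871, nat_lit 0x22751be883, nat_lit 0x22ad1d288f, nat_lit 0x22bd1da893, nat_lit 0x230d1fe8a9, nat_lit 0x232520a8af, nat_lit 0x23bd2468d7, nat_lit 0x255d326943, nat_lit 0x256d32e947, nat_lit 0x259d34a94f, nat_lit 0x25f537e965, nat_lit 0x25fd382967, nat_lit 0x263539a971, nat_lit 0x264d3a6977, nat_lit 0x268d3c2989, nat_lit 0x28cd4dea1d,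 nat_lit 0x29b5556a55, nat_lit 0x2f4581abb7, nat_lit 0x3535b1ed33, nat_lit 0x357db3ed45, nat_lit 0x359db4ed4d, nat_lit 0x3ce5ed2f25, nat_lit 0x124490e4c9, nat_lit 0x12dc9564ef, nat_lit 0x1524a7a585, nat_lit 0x154ca8a591, nat_lit 0x1554a8e593, nat_lit 0x1564a96597, nat_lit 0x15bcabe5ab, nat_lit 0x15fcae25bb, nat_lit 0x1614aee5c1, nat_lit 0x1834c06647, nat_lit 0x18c4c4666d, nat_lit 0x1f7cf9e81d, nat_lit 0x1ff4fda835, nat_lit 0x202cff6839, nat_lit 0x220d0ee8c5, nat_lit 0x225510a8d9, nat_lit 0x22a512e8e9, nat_lit 0x22bd13a8ef, nat_lit 0x22cd1428f3, nat_lit 0x23051628ff, nat_lit 0x231d16e905, nat_lit 0x24c525e963, nat_lit 0x253528698b, nat_lit 0x253d28a98d, nat_lit 0x259d2b29a7, nat_lit 0x25d52ce9b9, nat_lit 0x25dd2d29bb, nat_lit 0x25f52de9c1, nat_lit 0x262d2f29cd, nat_lit 0x26452fe9d3, nat_lit 0x268d3269e3, nat_lit 0x269d32e9e7, nat_lit 0x26a53329e9, nat_lit 0x27853a6a0b, nat_lit 0x28e5452a79, nat_lit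 0x290d466a83, nat_lit 0x295548aa95, nat_lit 0x29ad4baaab, nat_lit 0x2a0d4e2abd, nat_lit 0x2a5d50eac9, nat_lit 0x2ec5746bf1, nat_lit 0x2f3577ac0b, nat_lit 0x34c5a4ad73, nat_lit 0x3535a7ad91, nat_lit 0x3645afedc9, nat_lit 0x3c0ddf2f35, nat_lit 0x3ecdf4efed, nat_lit 0x12dc932491, nat_lit 0x1514a56523, nat_lit 0x1574a7a535, nat_lit 0x15bca96543, nat_lit 0x16a4b0a57d, nat_lit 0x16e4b2e58f, nat_lit 0x173cb5e5a7, nat_lit 0x174cb665ab, nat_lit 0x17bcbc25d9, nat_lit 0x18d4c2a60d, nat_lit 0x18dcc2e60f, nat_lit 0x1974c72631, nat_lit 0x19c4c9e647, nat_lit 0x1a04cbe657, nat_lit 0x20c502680b, nat_lit 0x220d0c685b, nat_lit 0x225d0ea86d, nat_lit 0x22ad10687b, nat_lit 0x22bd10e87f, nat_lit 0x22cd116883, nat_lit 0x22d511a885, nat_lit 0x231d13e897, nat_lit 0x235d15e8a7, nat_lit 0x23bd1928c1, nat_lit 0x259d292941, nat_lit 0x25e52ae94f, nat_lit 0x25f52b6953, nat_lit 0x26352ce95f, nat_lit 0x26452d6963, nat_lit 0x26952fa975,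 nat_lit 0x269d2fe977, nat_lit 0x26a5302979, nat_lit 0x26e5322989, nat_lit 0x274d3569a3, nat_lit 0x279d3869bb, nat_lit 0x28153d29e1, nat_lit 0x295545ea27, nat_lit 0x299d486a3b, nat_lit 0x2a554daa65, nat_lit 0x2f2574ab9d, nat_lit 0x2f9577ebb7, nat_lit 0x2fdd7a2bc9, nat_lit 0x302d7cebdf, nat_lit 0x308d7febf7, nat_lit 0x3fadf92fc1, nat_lit 0x12ec9aa48b, nat_lit 0x154cada523, nat_lit 0x1564ae6529, nat_lit 0x15b4b0a535, nat_lit 0x15c4b12539, nat_lit 0x15fcb32545, nat_lit 0x1604b36547, nat_lit 0x16a4b8256f, nat_lit 0x1734bc2597, nat_lit 0x1914cba60d, nat_lit 0x1eecfa678d, nat_lit 0x1f44fd679d, nat_lit 0x1f8cffa7a9, nat_lit 0x21c510e849, nat_lit 0x221513e853, nat_lit 0x225d16685f, nat_lit 0x22a518686d, nat_lit 0x23051ba881, nat_lit 0x23151c2885, nat_lit 0x235d1de895, nat_lit 0x23b520a8af, nat_lit 0x25952fa935, nat_lit 0x25a5302939, nat_lit 0x25dd326943, nat_lit 0x25e532a945, nat_lit 0x268d37e965, nat_lit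 0x2695382967, nat_lit 0x26cd39a971, nat_lit 0x26e53a6977, nat_lit 0x271d3be987, nat_lit 0x272d3c698b, nat_lit 0x299d506a2b, nat_lit 0x29ad50ea2f, nat_lit 0x3585afad27, nat_lit 0x35cdb1ed33, nat_lit 0x366db62d5b, nat_lit 0x12e49ca4dd, nat_lit 0x1554b02579, nat_lit 0x15b4b32591, nat_lit 0x15bcb36593, nat_lit 0x15ccb3e597, nat_lit 0x15f4b525a1, nat_lit 0x15fcb565a3, nat_lit 0x165cb825b9, nat_lit 0x1974d0e67f, nat_lit 0x1f2cff27f1, nat_lit 0x1f34ff67f3, nat_lit 0x216d10687b, nat_lit 0x220d1668ab, nat_lit 0x22bd1be8d7, nat_lit 0x22c51c28d9, nat_lit 0x23151e68eb, nat_lit 0x25052ce95f, nat_lit 0x253d2f2971, nat_lit 0x258d322989, nat_lit 0x259d32a98d, nat_lit 0x25dd34e99f, nat_lit 0x26453829b9, nat_lit 0x268d3a69cb, nat_lit 0x287548ea3f, nat_lit 0x2955506a7b, nat_lit 0x29b553aa95, nat_lit 0x3575b1ed87, nat_lit 0x3635b6adad, nat_lit 0x3ecdfbafd5, nat_lit 0x3f05fd6fe3, nat_lit 0x151ca3e555, nat_lit 0x15aca62579,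 nat_lit 0x15b4a6657b, nat_lit 0x15cca72581, nat_lit 0x15dca7a585, nat_lit 0x162ca9e59b, nat_lit 0x164caaa5a1, nat_lit 0x1674abe5ab, nat_lit 0x167cac25ad, nat_lit 0x16acade5b9, nat_lit 0x220d09e893, nat_lit 0x22bd0e28bf, nat_lit 0x22cd0ea8c3, nat_lit 0x22d50ee8c5, nat_lit 0x23151068d7, nat_lit 0x231d10a8d9, nat_lit 0x238513a8ef, nat_lit 0x258d262971, nat_lit 0x25dd282989, nat_lit 0x263529e99d, nat_lit 0x26552ae9a5, nat_lit 0x268d2c69b5, nat_lit 0x26952ca9b7, nat_lit 0x270d2fe9d3, nat_lit 0x274d3229e1, nat_lit 0x290d426a53, nat_lit 0x296543aa67, nat_lit 0x29c5466a83, nat_lit 0x2a0d486a93, nat_lit 0x2ab54daab9, nat_lit 0x357da46d71, nat_lit 0x3635a92d9b, nat_lit 0x4176067067]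
theorem hs4 : chkG cl (nat_lit 3) (l3OK td16 td7 td7 pt) s4 (nat_lit 2590) = true := by decide +kernel
def s5 : List Nat := [nat_lit 0x1756c21df, nat_lit 0x3804ecf11b, nat_lit 0x3884eff139, nat_lit 0x38e4f7714f, nat_lit 0xc4638eb1b, nat_lit 0x40ec46636d, nat_lit 0x35da9ab49, nat_lit 0x110e32f0f1, nat_lit 0x363c0c644d, nat_lit 0x2cb548714d, nat_lit 0x1b4ced210f, nat_lit 0xf3de6b099, nat_lit 0x834da6093, nat_lit 0x14d4b26553, nat_lit 0x1564b7257b, nat_lit 0x17ecc9a611, nat_lit 0x21dd1ba897, nat_lit 0x220d1d68a9, nat_lit 0x22cd22a8d9, nat_lit 0x251d34a963, nat_lit 0x25a53a298d, nat_lit 0x25dd3be99d, nat_lit 0x26453e69b7, nat_lit 0x28b5526a51, nat_lit 0x28fd546a61, nat_lit 0x34a5b1ed49, nat_lit 0x34ddb3ed5b, nat_lit 0x3525b5ad6f, nat_lit 0x15c4aa6593, nat_lit 0x15dcab2599, nat_lit 0x192cc5a66b, nat_lit 0x198cc8e683, nat_lit 0x1994c92685, nat_lit 0x220d0d28a9, nat_lit 0x22c51228d7, nat_lit 0x23251568ed,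 nat_lit 0x259d29698b, nat_lit 0x26452e29b7, nat_lit 0x26552ea9bb, nat_lit 0x26a53169cf, nat_lit 0x295546ea79, nat_lit 0x35f5abada1, nat_lit 0x15acb9a599, nat_lit 0x15b4b9e59b, nat_lit 0x1f350627fd, nat_lit 0x213d162877, nat_lit 0x22051de8b3, nat_lit 0x250534a969, nat_lit 0x258d3a2993, nat_lit 0x25953a6995, nat_lit 0x25e53ce9ab, nat_lit 0x26453f29c3, nat_lit 0x2865502a45, nat_lit 0x28e5546a67, nat_lit 0x299d58ea99, nat_lit 0x3495b22d51, nat_lit 0x3585b92d95, nat_lit 0x161ca6a53b, nat_lit 0x16bcab255f, nat_lit 0x23b5122897, nat_lit 0x23cd12e89d, nat_lit 0x241d15e8b5, nat_lit 0x269529a953, nat_lit 0x27cd33a9a3, nat_lit 0x2af54cea6d, nat_lit 0x2b1d4f6a81, nat_lit 0x309d79ebd5, nat_lit 0x132ca2250b, nat_lit 0x150cb32593, nat_lit 0x151cb3a597, nat_lit 0x1524b3e599, nat_lit 0x15c4b8a5bf, nat_lit 0x17fcc9a647, nat_lit 0x216d1628ab, nat_lit 0x217d16a8af, nat_lit 0x21ed1b28d3, nat_lit 0x22051be8d9, nat_lit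 0x225d1e68ed, nat_lit 0x255d35e9a9, nat_lit 0x25753729b3, nat_lit 0x257d3769b5, nat_lit 0x26353ce9e1, nat_lit 0x268d3f29f3, nat_lit 0x26e540ea01, nat_lit 0x15fca72533, nat_lit 0x164ca92543, nat_lit 0x16a4abe559, nat_lit 0x16e4ae256b, nat_lit 0x22550a684d, nat_lit 0x235d10a87f, nat_lit 0x25dd272933, nat_lit 0x263528e941, nat_lit 0x26952b2953, nat_lit 0x26e52d2963, nat_lit 0x27cd3529a3, nat_lit 0x29ed45aa27, nat_lit 0x2a4d48aa3f, nat_lit 0x2f7d732b93, nat_lit 0x2f85736b95, nat_lit 0x35d5a52d23, nat_lit 0x36c5acad5f, nat_lit 0x36cdaced61, nat_lit 0x3d5de3af17, nat_lit 0x337400a001, nat_lit 0x16e4aa658d, nat_lit 0x22c509e87f, nat_lit 0x23150ba893, nat_lit 0x233d0ce89d, nat_lit 0x23650da8a7, nat_lit 0x2695282973, nat_lit 0x26ed29e989, nat_lit 0x275d2d29a5, nat_lit 0x28153469df, nat_lit 0x2b1d4ceaa3, nat_lit 0x3645a4ad5d, nat_lit 0x367da62d6f, nat_lit 0x3d2ddf2f27, nat_lit 0x46b62fb193, nat_lit 0x15b4ac259b,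 nat_lit 0x1604aee5af, nat_lit 0x1f8cfae813, nat_lit 0x22f51628ed, nat_lit 0x253528e979, nat_lit 0x25cd2d29a5, nat_lit 0x25d52d69a7, nat_lit 0x25e52de9ab, nat_lit 0x26352fe9bf, nat_lit 0x28fd466a6d, nat_lit 0x299d4baa99, nat_lit 0x29ed4daaa9, nat_lit 0x321400a001, nat_lit 0x13b652b261, nat_lit 0x32a4002005, nat_lit 0x1524aa6525, nat_lit 0x152caaa527, nat_lit 0x1fed00e7cb, nat_lit 0x221d12685d, nat_lit 0x23751ce8ab, nat_lit 0x24252268dd, nat_lit 0x25fd31a953, nat_lit 0x265d346967, nat_lit 0x270d39e991, nat_lit 0x27e53fe9cf, nat_lit 0x29754cea2d, nat_lit 0x29b54f6a3f, nat_lit 0x2a0551aa51, nat_lit 0x2ab556aa7f, nat_lit 0x35edb12d49, nat_lit 0x3645b36d5d, nat_lit 0x364db3ad5f, nat_lit 0x3d2deaaf27, nat_lit 0x12ac9da4f3, nat_lit 0x14e4afe585, nat_lit 0x151cb22597, nat_lit 0x1524b26599, nat_lit 0x1574b4e5ad, nat_lit 0x157cb525af, nat_lit 0x1604b8e5cd, nat_lit 0x1814c8e64d, nat_lit 0x1934d1a693, nat_lit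 0x213d122897, nat_lit 0x217d1528af, nat_lit 0x21d51828c7, nat_lit 0x22151ae8dd, nat_lit 0x22751da8f3, nat_lit 0x2515316991, nat_lit 0x251d31a993, nat_lit 0x255d3469a9, nat_lit 0x258d3669b9, nat_lit 0x25a53729bf, nat_lit 0x25ad3769c1, nat_lit 0x26553c69e9, nat_lit 0x290d522a97, nat_lit 0x2eed80ec0d, nat_lit 0x345dab6d61, nat_lit 0x353db3eda5, nat_lit 0x2c3c026759, nat_lit 0x1604a5655f, nat_lit 0x164ca6a571, nat_lit 0x16a4a92587, nat_lit 0x1f8cf1e7c1, nat_lit 0x2034f567e9, nat_lit 0x230d0c289d, nat_lit 0x23150c689f, nat_lit 0x235d0e28b1, nat_lit 0x23b510a8c9, nat_lit 0x268d28a97d, nat_lit 0x269528e97f, nat_lit 0x27452d29ab, nat_lit 0x2a8d47ea81, nat_lit 0x302574ebe7, nat_lit 0x35c5a26d4b, nat_lit 0x363da52d67, nat_lit 0x14bca9251f, nat_lit 0x1564aee53b, nat_lit 0x15acb0e549, nat_lit 0x191ccc6625, nat_lit 0x225516a875, nat_lit 0x22f51ba897, nat_lit 0x23051c289b, nat_lit 0x254d2de93b, nat_lit 0x258d2fe947,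 nat_lit 0x25dd32e957, nat_lit 0x268d38697d, nat_lit 0x29454daa2d, nat_lit 0x299d50ea45, nat_lit 0x29e552ea55, nat_lit 0x357dafed3b, nat_lit 0x444e257105]
theorem hs5 : chkG cl (nat_lit 3) (l3OK td9 td12 td21 pt) s5 (nat_lit 2870) = true := by decide +kernel
def s6 : List Nat := [nat_lit 0x15641b7157, nat_lit 0x15bc0bee49, nat_lit 0x1f8c1c3059, nat_lit 0x331454f1e9, nat_lit 0xe48a427, nat_lit 0x2a4042a05, nat_lit 0x151c31b14d, nat_lit 0x164066f7, nat_lit 0x328e1da12f, nat_lit 0x151c0feb2d, nat_lit 0x295c32aebd, nat_lit 0x331614b0df, nat_lit 0xe15f0e1, nat_lit 0x152ca5259b, nat_lit 0x1604aaa5cd, nat_lit 0x164cace5d9, nat_lit 0x1664ada5df, nat_lit 0x1674ae25e3, nat_lit 0x18dcc1e685, nat_lit 0x22cd106905, nat_lit 0x22d510a907, nat_lit 0x2305122911, nat_lit 0x231d12e917, nat_lit 0x235d14e91f, nat_lit 0x268d2e69f3, nat_lit 0x269d2ee9f7, nat_lit 0x2995472ab5, nat_lit 0x2ff579ec49, nat_lit 0x357da62db1,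 nat_lit 0x363dabadd3, nat_lit 0x3645abedd5, nat_lit 0x1604a8a5af, nat_lit 0x16a4ada5d3, nat_lit 0x1924c1e675, nat_lit 0x25f528e9af, nat_lit 0x26452a69c3, nat_lit 0x26952ca9d7, nat_lit 0x29fd47eaad, nat_lit 0x363da96db9, nat_lit 0x79c3e21d9, nat_lit 0x15bcb36529, nat_lit 0x18d4cc25f5, nat_lit 0x220d166849, nat_lit 0x224d18684b, nat_lit 0x225d18e84f, nat_lit 0x22c51c2861, nat_lit 0x259d32a92f, nat_lit 0x25d534a931, nat_lit 0x25dd34e933, nat_lit 0x25e5352935, nat_lit 0x299552aa17, nat_lit 0x353dafed0f, nat_lit 0x1524b0a525, nat_lit 0x25ad356943, nat_lit 0x25bd35e947, nat_lit 0x25dd37694b, nat_lit 0x33159eac97, nat_lit 0x357db42d2f, nat_lit 0x1564a725a9, nat_lit 0x15b4a925bb, nat_lit 0x1604aba5cd, nat_lit 0x164cade5d9, nat_lit 0x16a4b0a5e9, nat_lit 0x18c4c2267f, nat_lit 0x22ad1068fd, nat_lit 0x22d511a907, nat_lit 0x235d15e91f, nat_lit 0x25e52ae9d1, nat_lit 0x262d2ca9df, nat_lit 0x26352ce9e1, nat_lit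 0x273d34ea0b, nat_lit 0x2945456aa3, nat_lit 0x1514afe52d, nat_lit 0x1f8503a7bf, nat_lit 0x22a51ce883, nat_lit 0x23cd24e8cf, nat_lit 0x25dd372957, nat_lit 0x25e5376959, nat_lit 0x268d3c297d, nat_lit 0x26fd3ee999, nat_lit 0x303588abeb, nat_lit 0x34c5ae2d17, nat_lit 0x3585b42d3d, nat_lit 0x132c9624ab, nat_lit 0x1734b6e5af, nat_lit 0x197cc8e63d, nat_lit 0x1a44cfe677, nat_lit 0x202cfe27e7, nat_lit 0x22cd12e88d, nat_lit 0x230514e89b, nat_lit 0x232515e8a3, nat_lit 0x23fd1ce8df, nat_lit 0x268d31297d, nat_lit 0x279d39e9c5, nat_lit 0x296547ea35, nat_lit 0x331595aca3, nat_lit 0x3535a66d2d, nat_lit 0x13c49ce4c9, nat_lit 0x151ca76523, nat_lit 0x1564a9652f, nat_lit 0x15fcae2551, nat_lit 0x225d10e86b, nat_lit 0x22d5146883, nat_lit 0x230516288f, nat_lit 0x235d18a8a5, nat_lit 0x25dd2d294b, nat_lit 0x25e52d694d, nat_lit 0x268d326971, nat_lit 0x2a054dea51, nat_lit 0x34dda56d11, nat_lit 0x3585aa2d31, nat_lit 0x15ccb2e52d,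 nat_lit 0x165cb72547, nat_lit 0x1984d06615, nat_lit 0x220d156849, nat_lit 0x227518a855, nat_lit 0x259d31a92f, nat_lit 0x25fd34e93b, nat_lit 0x26a53a2957, nat_lit 0x26e53ba963, nat_lit 0x12249264af, nat_lit 0x15bcafa59d, nat_lit 0x15c4afe59f, nat_lit 0x21dd1068a3, nat_lit 0x22ad1768dd, nat_lit 0x22c51828e3, nat_lit 0x22cd1868e5, nat_lit 0x23b51f6919, nat_lit 0x25a52ee999, nat_lit 0x264d3469c5, nat_lit 0x269536e9d7, nat_lit 0x3585ae6d95, nat_lit 0x13cc97a50b, nat_lit 0x1604a8e5a3, nat_lit 0x1664aba5b9, nat_lit 0x1974c4667d, nat_lit 0x21fd09a8a5, nat_lit 0x22150a68ab, nat_lit 0x22c50ea8d7, nat_lit 0x230d1068e7, nat_lit 0x231510a8e9, nat_lit 0x236512e8f9, nat_lit 0x25f52929a3, nat_lit 0x26952ce9cb, nat_lit 0x26ed2f29dd, nat_lit 0x279d352a01, nat_lit 0x3d2de3ef67, nat_lit 0xcb4682343, nat_lit 0x13c4a0e509, nat_lit 0x1524ac256b, nat_lit 0x15b4b0a58f, nat_lit 0x1604b365a3, nat_lit 0x165cb5e5b7, nat_lit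 0x1e9cf7e7c7, nat_lit 0x21c510e891, nat_lit 0x225d1668bd, nat_lit 0x22bd1928d5, nat_lit 0x25952fa989, nat_lit 0x25f53329a3, nat_lit 0x28fd4b2a61, nat_lit 0x2edd7a2bdb]
theorem hs6 : chkG cl (nat_lit 3) (l3OK td31 td12 td7 pt) s6 (nat_lit 3079) = true := by decide +kernel
def s7 : List Nat := [nat_lit 0xc4dd8a1e1, nat_lit 0x1614b9a57d, nat_lit 0x165cbb258f, nat_lit 0x225d1d288f, nat_lit 0x25f53a2975, nat_lit 0x25fd3a6977, nat_lit 0x16a4aaa5a1, nat_lit 0x1784b2e5d9, nat_lit 0x237d1068d7, nat_lit 0x23dd13a8ef, nat_lit 0x269529e99d, nat_lit 0x26bd2b29a7]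
theorem hs7 : chkG cl (nat_lit 3) (l3OK td16 td16 td16 pt) s7 (nat_lit 3240) = true := by decide +kernel
def s8 : List Nat := [nat_lit 0x8540a11f, nat_lit 0x1e2650b1b3, nat_lit 0xf0401a011, nat_lit 0x1274a064cd, nat_lit 0x21d51da8ab, nat_lit 0x26654129d3, nat_lit 0x21e50b6897, nat_lit 0x22cd1228d7, nat_lit 0x29bd4a2a93, nat_lit 0x14fcb72581, nat_lit 0x1f4507e817, nat_lit 0x225522a8df, nat_lit 0x257d3c29a5, nat_lit 0x3515b86d8f, nat_lit 0x1614a4a52b, nat_lit 0x165ca5e535, nat_lit 0x17acb22597, nat_lit 0x26a5282947, nat_lit 0x14acb16585, nat_lit 0x229d22690d, nat_lit 0x33b400a001, nat_lit 0x16fca8a57d, nat_lit 0x24151068c1, nat_lit 0x270528a977, nat_lit 0x27dd2ee9b7, nat_lit 0x2a5d432a51, nat_lit 0x308d74abdf, nat_lit 0x16ecabe559, nat_lit 0x238d1d68af, nat_lit 0x26ad36e977, nat_lit 0x2f557beba5, nat_lit 0x14a4af6581, nat_lit 0x2285206909, nat_lit 0x15fcaee5af, nat_lit 0x24f5272967, nat_lit 0x320c00a001,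 nat_lit 0x159cb0a547, nat_lit 0x15fcb3e55f]
theorem hs8 : chkG cl (nat_lit 3) (l3OK td9 td19 td31 pt) s8 (nat_lit 3252) = true := by decide +kernel
def s9 : List Nat := [nat_lit 0x2bc41bef35, nat_lit 0x380441311b, nat_lit 0x39ac53f197, nat_lit 0x429489321b, nat_lit 0x42bc8b3223, nat_lit 0x945ca6ecd, nat_lit 0x124e18310d, nat_lit 0x2cf471a0d1, nat_lit 0x3a8cdc2219, nat_lit 0x3adcdf6233, nat_lit 0x3d1c0c673f, nat_lit 0x3ecc0fe755, nat_lit 0x3f1410675d, nat_lit 0x491465eea3, nat_lit 0x496c79ef35, nat_lit 0x49ccc4b0ed, nat_lit 0x1d5431afb3, nat_lit 0x1f34383047, nat_lit 0x1f8c38b059, nat_lit 0x3fe412eb23, nat_lit 0x15b61aa1c3, nat_lit 0x4734ed26d3, nat_lit 0x478cf766fb, nat_lit 0xf456c205d, nat_lit 0xfc579a07f, nat_lit 0x15c4a5e593, nat_lit 0x161ca865a9, nat_lit 0x1facf4e80f, nat_lit 0x22750b68c3, nat_lit 0x227d0ba8c5, nat_lit 0x22850be8c7, nat_lit 0x238d12e903, nat_lit 0x23dd15e917, nat_lit 0x264d29a9b9,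 nat_lit 0x265529e9bb, nat_lit 0x27152f29e7, nat_lit 0x29c5456a97, nat_lit 0x2abd4ceac7, nat_lit 0x2fe5762c1b, nat_lit 0x44ae20313b, nat_lit 0x213d18686b, nat_lit 0x22152068ab, nat_lit 0x225d2268bd, nat_lit 0x226d22e8c1, nat_lit 0x22c524a8d7, nat_lit 0x254d3a2973, nat_lit 0x25f53f29a3, nat_lit 0x26554129bb, nat_lit 0x2e6d81ebb7, nat_lit 0x353db92d75, nat_lit 0x1494abe56b, nat_lit 0x149cac256d, nat_lit 0x14c4ae657d, nat_lit 0x150cb0e593, nat_lit 0x151cb16597, nat_lit 0x154cb325a3, nat_lit 0x1564b3e5a9, nat_lit 0x1834c9e659, nat_lit 0x216d13a8ab, nat_lit 0x21ad1628bd, nat_lit 0x24c52d6975, nat_lit 0x24d52de979, nat_lit 0x253532699f, nat_lit 0x299555aab5, nat_lit 0x34c5af6d89, nat_lit 0x3525b2ad9f, nat_lit 0x6ec35e1a1, nat_lit 0x1684ade551, nat_lit 0x175cb5a591, nat_lit 0x191cc2e5ff, nat_lit 0x230d116871, nat_lit 0x235d13a87f, nat_lit 0x239d162891, nat_lit 0x23ad16a895, nat_lit 0x23ed18e8a9, nat_lit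 0x26752ce94b, nat_lit 0x26952de953, nat_lit 0x272d326973, nat_lit 0x273d32e977, nat_lit 0x27cd3869a3, nat_lit 0x2a4d4baa3f, nat_lit 0x2a8d4daa51, nat_lit 0x2b05532a7b, nat_lit 0x3625a9ed31, nat_lit 0x363daaad37, nat_lit 0x16fca92593, nat_lit 0x177cae25b9, nat_lit 0x1a14c26659, nat_lit 0x231d0a6895, nat_lit 0x23650ba8a7, nat_lit 0x23750c28ab, nat_lit 0x238d0ce8b1, nat_lit 0x23cd0ee8c3, nat_lit 0x240d10a8d7, nat_lit 0x241510e8d9, nat_lit 0x26fd28e98d, nat_lit 0x27452a699f, nat_lit 0x275d2b29a5, nat_lit 0x279d2d29b9, nat_lit 0x27a52d69bb, nat_lit 0x28153229df, nat_lit 0x282532a9e3, nat_lit 0x2a05426a51, nat_lit 0x2a5d43aa65, nat_lit 0x3725a9ed9f, nat_lit 0x372daa2da1, nat_lit 0xd0c64235d, nat_lit 0x15e4a8e5a7, nat_lit 0x15eca925a9, nat_lit 0x164cabe5bf, nat_lit 0x168cae25cd, nat_lit 0x22450c28c3, nat_lit 0x224d0c68c5, nat_lit 0x25cd28e9a5, nat_lit 0x26352b29bf, nat_lit 0x267d2d29d1, nat_lit 0x26c52ee9df,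 nat_lit 0x272d3269f5, nat_lit 0x356da52d8f, nat_lit 0x3d05e3af69, nat_lit 0x15fca3a55d, nat_lit 0x1664a56577, nat_lit 0x16e4a86599, nat_lit 0x1a4cc4a679, nat_lit 0x2034f327e9, nat_lit 0x207cf4e7fd, nat_lit 0x240d10a8e3, nat_lit 0x244d12e8f3, nat_lit 0x268d26697d, nat_lit 0x273529e9a7, nat_lit 0x278d2ca9c1, nat_lit 0x30fd792c21, nat_lit 0x36bda66d91, nat_lit 0x36cda6ed95, nat_lit 0x1474afe539, nat_lit 0x14d4b5255f, nat_lit 0x1564b9a587, nat_lit 0x1e5d0167bf, nat_lit 0x2135182875, nat_lit 0x22bd2468e1, nat_lit 0x24d534a959, nat_lit 0x25dd3e69a9, nat_lit 0x2865526a45, nat_lit 0x2e4d80ebbb, nat_lit 0x12549aa47d, nat_lit 0x14c4ae6521, nat_lit 0x159cb56545, nat_lit 0x15acb5e549, nat_lit 0x163cb9e56d, nat_lit 0x1fc50627cd, nat_lit 0x21c516e855, nat_lit 0x22451ba871, nat_lit 0x229d1de881, nat_lit 0x230520e89b, nat_lit 0x257d34e943, nat_lit 0x25cd37e953, nat_lit 0x25dd386957, nat_lit 0x26253a6965, nat_lit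 0x268d3d697d, nat_lit 0x2f6d842bb7, nat_lit 0x33159faca3, nat_lit 0x166caaa54b, nat_lit 0x16bcad655f, nat_lit 0x174cb26587, nat_lit 0x2375122885, nat_lit 0x237d126887, nat_lit 0x238d12e88b, nat_lit 0x23cd15689d, nat_lit 0x26fd2e6969, nat_lit 0x27052ea96b, nat_lit 0x27152f296f, nat_lit 0x275d31a97f, nat_lit 0x27ad346997, nat_lit 0x2a05472a2d, nat_lit 0x2a0d476a2f, nat_lit 0x2af54f6a6d, nat_lit 0x2b1d51aa81, nat_lit 0x153cb0252b, nat_lit 0x157cb26535, nat_lit 0x15dcb52549, nat_lit 0x222d186861, nat_lit 0x22dd1da885, nat_lit 0x25bd34a947, nat_lit 0x25fd372953, nat_lit 0x264d396963, nat_lit 0x265d39e967, nat_lit 0x28bd4c6a0f, nat_lit 0x290d4f2a17, nat_lit 0x2ffd85ebcf, nat_lit 0x14ecad6587, nat_lit 0x152cafa59b, nat_lit 0x15c4b465bf, nat_lit 0x218d1268b3, nat_lit 0x24ed2c697f, nat_lit 0x25152e2991, nat_lit 0x255d3169a9, nat_lit 0x25a533e9bf, nat_lit 0x28cd4cea87]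
theorem hs9 : chkG cl (nat_lit 3) (l3OK td21 td12 td27 pt) s9 (nat_lit 3290) = true := by decide +kernel
def s10 : List Nat := [nat_lit 0x167ca8a5bf, nat_lit 0x23250da8ed, nat_lit 0x238d102903, nat_lit 0x26a529a9cf, nat_lit 0x220d22a8a9, nat_lit 0x221522e8ab, nat_lit 0x25e540a99f, nat_lit 0x25f54129a3, nat_lit 0x35cdb72dc1, nat_lit 0x235d13e87f, nat_lit 0x23ed1928a9, nat_lit 0x16e4a6658d, nat_lit 0x23fd0e28d3, nat_lit 0x13f49064e3, nat_lit 0x22a520a883, nat_lit 0x22f522e897, nat_lit 0x254d35e93b, nat_lit 0x14acb5654f, nat_lit 0x213d1b2877, nat_lit 0x220d2268b5, nat_lit 0x250539a969, nat_lit 0x255d3ce983, nat_lit 0x25a53ee999, nat_lit 0x25f540e9af, nat_lit 0x1614a7e539, nat_lit 0x166caa654b, nat_lit 0x2f0d816b9b, nat_lit 0x1efcfe2811, nat_lit 0x23251f6919, nat_lit 0x29154f2a99, nat_lit 0x296551aaab]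
theorem hs10 : chkG cl (nat_lit 3) (l3OK td31 td12 td37 pt) s10 (nat_lit 3488) = true := by decide +kernel
def s11 : List Nat := [nat_lit 0x15cc19f11b, nat_lit 0x4084f13285, nat_lit 0x8c01e459, nat_lit 0x1e4042a05, nat_lit 0x29b64a2443, nat_lit 0x22be432709, nat_lit 0x63ce16d, nat_lit 0x43be4ea4a5, nat_lit 0xc84e3e3, nat_lit 0x299e1a7113, nat_lit 0xe1c2117, nat_lit 0x157566b093, nat_lit 0x2f0d736c13, nat_lit 0x14c4a4257f, nat_lit 0x22a51068fd, nat_lit 0x2305136913, nat_lit 0x25e52b29d3, nat_lit 0x268d2fa9f5, nat_lit 0x295d466aab, nat_lit 0x3525a52da1, nat_lit 0x230513687b, nat_lit 0x268d2fa95f, nat_lit 0x279d38a9a3, nat_lit 0x151cb2e52f, nat_lit 0x1564b5253f, nat_lit 0x15fcb96565, nat_lit 0x1604b9a567, nat_lit 0x1864cca603, nat_lit 0x225d1da87b, nat_lit 0x22c5206893, nat_lit 0x23052228a5, nat_lit 0x25a537e94f, nat_lit 0x25dd39e95d, nat_lit 0x26553d2977, nat_lit 0x28fd526a23, nat_lit 0x363dba6d71,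 nat_lit 0x15c4a5658b, nat_lit 0x15fca6659b, nat_lit 0x18d4bea651, nat_lit 0x225509a8b3, nat_lit 0x22c50c28cd, nat_lit 0x25dd266995, nat_lit 0x151cb2e53d, nat_lit 0x164cbb2585, nat_lit 0x235d23e8c7, nat_lit 0x25cd396967, nat_lit 0x268d3e6995, nat_lit 0x2a0558ea71, nat_lit 0x15bcb3a52b, nat_lit 0x15fcb5a535, nat_lit 0x16e4bbe56d, nat_lit 0x226d19a855, nat_lit 0x22bd1c2861, nat_lit 0x25f535e93b, nat_lit 0x2645386947, nat_lit 0x277d40a98d, nat_lit 0x29fd55aa2d, nat_lit 0x3ce5ec2efb, nat_lit 0x3f8e00ef9b, nat_lit 0x202cfb67d1, nat_lit 0x25e529a949, nat_lit 0x2a5d4caa5d, nat_lit 0x2aa54f6a6f, nat_lit 0x3635ab2d4f, nat_lit 0x11ec93e4a5, nat_lit 0x1604b5e5b7, nat_lit 0x16a4ba65d7, nat_lit 0x1f4500280b, nat_lit 0x21350ea87b, nat_lit 0x2185116895, nat_lit 0x21dd1468af, nat_lit 0x26953ae9df, nat_lit 0x26ed3d29ef, nat_lit 0x2ea57aebe1, nat_lit 0x3585b2ad9d, nat_lit 0x15bcb22527, nat_lit 0x16fcbb256f, nat_lit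 0x22c51ae85f, nat_lit 0x22cd1b2861, nat_lit 0x23251da875, nat_lit 0x23751fa883, nat_lit 0x129c98e4e5, nat_lit 0x1604b465c1, nat_lit 0x1614b4e5c5, nat_lit 0x220d1528c9, nat_lit 0x226d1828e3, nat_lit 0x23151d2907, nat_lit 0x25dd33a9bf, nat_lit 0x25f53469c5, nat_lit 0x269d39a9eb, nat_lit 0x28fd4c2a83, nat_lit 0x2094fa682d, nat_lit 0x22bd0be8bd, nat_lit 0x26e52c69c7]
theorem hs11 : chkG cl (nat_lit 3) (l3OK td31 td13 td12 pt) s11 (nat_lit 3519) = true := by decide +kernel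
def s12 : List Nat := [nat_lit 0x2d8440a1c3, nat_lit 0x1eec5fb1ef, nat_lit 0x15dc1cae73, nat_lit 0x14aca665ab, nat_lit 0x15c4afe5eb, nat_lit 0x1e9cf6a82d, nat_lit 0x21dd106905, nat_lit 0x221512a915, nat_lit 0x225d152921, nat_lit 0x253d2ba9df, nat_lit 0x25652ce9e9, nat_lit 0x25e5316a03, nat_lit 0x346da4ada5, nat_lit 0x58f2c75, nat_lit 0x268d2c695b, nat_lit 0x268d3a696f, nat_lit 0x299d52ea35, nat_lit 0x13cca1a4b1, nat_lit 0x274d3e6987, nat_lit 0x15b4b4e5c5, nat_lit 0x1e9cfc2801, nat_lit 0x25c53669d3, nat_lit 0x263539a9eb, nat_lit 0x28ed4f2a99, nat_lit 0x274d372945, nat_lit 0x14e4a9e5c1, nat_lit 0x151cabe5cf, nat_lit 0x1554ade5d9, nat_lit 0x15b4b0a5e9, nat_lit 0x1804c2a683, nat_lit 0x180cc2e685, nat_lit 0x21b51068fd, nat_lit 0x225d166923, nat_lit 0x259d2fe9f7, nat_lit 0x25a53029f9, nat_lit 0x25d5322a01, nat_lit 0x25f5332a09, nat_lit 0x2875466aab, nat_lit 0x28ad48aab9, nat_lit 0x267d2ee9e9, nat_lit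 0x2034ffa78d, nat_lit 0x26e534e933, nat_lit 0x274d386947, nat_lit 0x1664aba53f, nat_lit 0x22c50ea857, nat_lit 0x22d50f285b, nat_lit 0x245d1be8bd, nat_lit 0x26fd2fa95f, nat_lit 0x1524a4e579, nat_lit 0x218d092891, nat_lit 0x231d12e8f9, nat_lit 0x251d25a971, nat_lit 0x259d28299b, nat_lit 0x269d2ee9db, nat_lit 0x26a52f29dd, nat_lit 0x2f55752c07, nat_lit 0x1eacfce7f1, nat_lit 0x220d18a8d1, nat_lit 0x221d1928d5, nat_lit 0x259d34e9b3, nat_lit 0x26a53d29ef, nat_lit 0x3c75e96f53]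
theorem hs12 : chkG cl (nat_lit 3) (l3OK td31 td37 td7 pt) s12 (nat_lit 3613) = true := by decide +kernel
def s13 : List Nat := [nat_lit 0x8540a027, nat_lit 0x392c06a7e3, nat_lit 0x226d2268a9, nat_lit 0x25653a6963, nat_lit 0x21e50b68c5, nat_lit 0x1554b9a573, nat_lit 0x21a51d2883, nat_lit 0x252d39a967, nat_lit 0x262d4069a9, nat_lit 0x3c0ded2f1f, nat_lit 0x173caee56d, nat_lit 0x23bd116881, nat_lit 0x240d142897, nat_lit 0x274d2de965, nat_lit 0x2b1d4e2a67, nat_lit 0x3515a76da1, nat_lit 0x27cd30e991, nat_lit 0x14a4b1257f, nat_lit 0x218519a8c3, nat_lit 0x251d35e9a5, nat_lit 0x285d506a79, nat_lit 0x26fd28699f, nat_lit 0x32fd8c2ca3, nat_lit 0x23351b2875, nat_lit 0x271539e969, nat_lit 0x171cbc2581, nat_lit 0x23551e6883, nat_lit 0x239d20a897, nat_lit 0x268d38a957, nat_lit 0x26dd3ae967, nat_lit 0x29d552aa27, nat_lit 0x217d17a8c7, nat_lit 0x3be5e82f4b]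
theorem hs13 : chkG cl (nat_lit 3) (l3OK td25 td21 td31 pt) s13 (nat_lit 3675) = true := by decide +kernel
def s14 : List Nat := [nat_lit 0x281404250d, nat_lit 0x285e522c67, nat_lit 0x38e6506a45, nat_lit 0x22cd09a8c5, nat_lit 0x23b50f68fd, nat_lit 0x26552669a7, nat_lit 0x2a0d42ea95, nat_lit 0x220d1468af, nat_lit 0x258d30298d, nat_lit 0x25dd3329a3, nat_lit 0x165ca5a57f, nat_lit 0x16b4a7a597, nat_lit 0x20bcf7e81d, nat_lit 0x1524b86559, nat_lit 0x15bcbc257f, nat_lit 0x1604bda593, nat_lit 0x220d20a895, nat_lit 0x221520e897, nat_lit 0x22c52528c3, nat_lit 0x230d2568d7, nat_lit 0x259d3d2977, nat_lit 0x25e53f298d, nat_lit 0x263540a99f, nat_lit 0x26454129a3, nat_lit 0x34cdb66d45, nat_lit 0x1614bb256f, nat_lit 0x226d1fa883, nat_lit 0x22bd21a895, nat_lit 0x22c521e897, nat_lit 0x25e53ba963, nat_lit 0x25f53c2967, nat_lit 0x26453de977, nat_lit 0x15c4af2599, nat_lit 0x221d1228b3, nat_lit 0x226d14e8c7, nat_lit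 0x25a52e2993, nat_lit 0x25e530a9a5, nat_lit 0x290d49aa6b, nat_lit 0x29ad4eea97, nat_lit 0x29b54f2a99, nat_lit 0x3585adad8f]
theorem hs14 : chkG cl (nat_lit 3) (l3OK td31 td3 td31 pt) s14 (nat_lit 3708) = true := by decide +kernel
def s15 : List Nat := [nat_lit 0x165c433223, nat_lit 0x22bc837265, nat_lit 0x296492f273, nat_lit 0x345cf13285, nat_lit 0x328e472725, nat_lit 0xcc042a05, nat_lit 0x15f47af241, nat_lit 0x165c7c7245, nat_lit 0xb416e007, nat_lit 0x426e3e21c3, nat_lit 0x15cc33e047, nat_lit 0x299c7f20df, nat_lit 0x384816a6d, nat_lit 0x15ad6bf0c7, nat_lit 0x3315d2e061, nat_lit 0x28ae1730e5, nat_lit 0x158d2003, nat_lit 0x157ca8e5c1, nat_lit 0x15bcaaa5cd, nat_lit 0x15fcace5d9, nat_lit 0x1614ada5df, nat_lit 0x218509a8c5, nat_lit 0x22c512a915, nat_lit 0x22cd12e917, nat_lit 0x2315156923, nat_lit 0x25dd2be9e1, nat_lit 0x25f52ca9e7, nat_lit 0x268d312a01, nat_lit 0x269d31aa05, nat_lit 0x3595a96dc9, nat_lit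 0x1564b2e53d, nat_lit 0x15acb4e54b, nat_lit 0x15fcb7655f, nat_lit 0x164cb96573, nat_lit 0x1fc50527cf, nat_lit 0x203d0767ed, nat_lit 0x220d18a867, nat_lit 0x22bd1de88b, nat_lit 0x231d20a8a3, nat_lit 0x235d2228b3, nat_lit 0x257533a943, nat_lit 0x258d346949, nat_lit 0x25dd376959, nat_lit 0x26453a696f, nat_lit 0x302d88abeb, nat_lit 0x15bca8653d, nat_lit 0x164cace55d, nat_lit 0x1f74f627a9, nat_lit 0x22bd0fe879, nat_lit 0x231d12e88d, nat_lit 0x235d14e89b, nat_lit 0x25d5296947, nat_lit 0x269d2ee96f, nat_lit 0x26e531297d, nat_lit 0x274d346999, nat_lit 0x295544ea21, nat_lit 0x30c580ebff, nat_lit 0x36d5b1ad81, nat_lit 0x165cb9a567, nat_lit 0x16bcbc257f, nat_lit 0x21d516284b, nat_lit 0x226d1ba86d, nat_lit 0x227d1c2871, nat_lit 0x22bd1da87b, nat_lit 0x231d206893, nat_lit 0x25e537694b, nat_lit 0x25f537e94f, nat_lit 0x26453a295f, nat_lit 0x15fcae25db, nat_lit 0x1614aee5e1, nat_lit 0x259d2b29d3, nat_lit 0x25dd2d29e3,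 nat_lit 0x268d326a03, nat_lit 0x269532aa05, nat_lit 0x26e534ea0b, nat_lit 0x3535a7adb5, nat_lit 0x136c946503, nat_lit 0x150ca3a573, nat_lit 0x1554a4a585, nat_lit 0x169cada5d3, nat_lit 0x21fd09a8b3, nat_lit 0x22550ba8c9, nat_lit 0x22c50ea8e5, nat_lit 0x258d266995, nat_lit 0x25dd2869ab, nat_lit 0x26e52ee9e9, nat_lit 0x26ed2f29eb, nat_lit 0x3615a86db1, nat_lit 0x367dabedcb, nat_lit 0x15b4b0a51f, nat_lit 0x15f4b2e525, nat_lit 0x169cb7e545, nat_lit 0x16a4b82547, nat_lit 0x202d0467a7, nat_lit 0x225d166849, nat_lit 0x22ad18a84d, nat_lit 0x22cd19a855, nat_lit 0x23151c2861, nat_lit 0x274d3d6969, nat_lit 0x299d506a11, nat_lit 0x363db4ed27, nat_lit 0x36cdb96d4d, nat_lit 0x12f493e485, nat_lit 0x1604aba53f, nat_lit 0x226d0f285b, nat_lit 0x23fd1ba8bb, nat_lit 0x24551e68d5, nat_lit 0x25e52ae93d, nat_lit 0x25f52b6941, nat_lit 0x2745352989, nat_lit 0x3585a76d1f, nat_lit 0x129c9924e7, nat_lit 0x151cad6589, nat_lit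 0x1524ada58b, nat_lit 0x1554af2599, nat_lit 0x1564afa59d, nat_lit 0x18d4cb2677, nat_lit 0x21fd14e8c7, nat_lit 0x230d1d2907, nat_lit 0x258d3129a9, nat_lit 0x262d3669d3, nat_lit 0x269539a9eb, nat_lit 0x26dd3b69f7, nat_lit 0x2e9d796beb, nat_lit 0x15c4afe521, nat_lit 0x16b4b76549, nat_lit 0x1f84fe2789, nat_lit 0x209505e7bf, nat_lit 0x225d152847, nat_lit 0x22d518a855, nat_lit 0x23bd1fa883, nat_lit 0x268d36a941, nat_lit 0x299d4f2a0f, nat_lit 0x1564b0a58f, nat_lit 0x1574b12593, nat_lit 0x15b4b325a1, nat_lit 0x16acba65d7, nat_lit 0x220d1668bd, nat_lit 0x225518a8d1, nat_lit 0x225d18e8d3, nat_lit 0x22cd1c68eb, nat_lit 0x23151e68fb, nat_lit 0x255d30298d, nat_lit 0x259d32a99f, nat_lit 0x25d534a9b1, nat_lit 0x25dd34e9b3, nat_lit 0x25e53529b5, nat_lit 0x34cdac2d6d, nat_lit 0x3535afad89, nat_lit 0x135c93e4f1, nat_lit 0x157ca5a57f, nat_lit 0x165cab25b5, nat_lit 0x18e4c0a659, nat_lit 0x1944c2e66f, nat_lit 0x203cf9e829,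 nat_lit 0x21c508e88f, nat_lit 0x225d0ba8bb, nat_lit 0x22bd0e28d3, nat_lit 0x23151068e7, nat_lit 0x231d10a8e9, nat_lit 0x232510e8eb, nat_lit 0x23cd166911, nat_lit 0x25e528699d, nat_lit 0x26452a69b5, nat_lit 0x31e58aec97, nat_lit 0x3685abedbd]
theorem hs15 : chkG cl (nat_lit 3) (l3OK td31 td19 td7 pt) s15 (nat_lit 3749) = true := by decide +kernel
def s16 : List Nat := [nat_lit 0x49c4a72d3b, nat_lit 0x4a1509ef81, nat_lit 0x2420202d, nat_lit 0xbd7c2559, nat_lit 0xc5836593, nat_lit 0x635692487, nat_lit 0x6fd7c2559, nat_lit 0x725842599, nat_lit 0x73d85a5a7, nat_lit 0x4345152a65, nat_lit 0x101512aa55, nat_lit 0x101d182a7f, nat_lit 0x39b625b1a5, nat_lit 0x355b725af, nat_lit 0x75d38a813, nat_lit 0x76d4aa895, nat_lit 0x4364a92bcf, nat_lit 0x4374c4aca3, nat_lit 0x437cc8ecc5, nat_lit 0x1d947a6313, nat_lit 0x149cb2e56d, nat_lit 0x151cb7e597, nat_lit 0x17fccde647, nat_lit 0x213d18a897, nat_lit 0x21c51de8c3,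 nat_lit 0x21d51e68c7, nat_lit 0x24c5346975, nat_lit 0x254d3a69a5, nat_lit 0x258d3c69b9, nat_lit 0x25dd3ea9cf, nat_lit 0x33fc002003, nat_lit 0x16b4aaa57f, nat_lit 0x170cada597, nat_lit 0x174cafe5a9, nat_lit 0x233d0ea89d, nat_lit 0x23851028af, nat_lit 0x270d2ca991, nat_lit 0x27452e299f, nat_lit 0x27a531a9bb, nat_lit 0x2abd4aaa81, nat_lit 0x3605a4ed4f, nat_lit 0x4a4c16ea97, nat_lit 0x1704a92573, nat_lit 0x237d0c2887, nat_lit 0x240d1068b1, nat_lit 0x245512e8c5, nat_lit 0x273d29e977, nat_lit 0x165ca56547, nat_lit 0x16b4a7655d, nat_lit 0x16e4a8a56b, nat_lit 0x172cab257f, nat_lit 0x19acbfe61d, nat_lit 0x240d10e8b1, nat_lit 0x24551368c5, nat_lit 0x24951668dd, nat_lit 0x27cd2f29a3, nat_lit 0x147cafe559, nat_lit 0x252537e995, nat_lit 0x255d3a69a9, nat_lit 0x25e53e69d1, nat_lit 0x2e65816be5, nat_lit 0x2ea5842bfb, nat_lit 0x342daead4b, nat_lit 0x134ca164ef, nat_lit 0x14ecafe559, nat_lit 0x157cb4e581, nat_lit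 0x226d1d28c1, nat_lit 0x2565346979, nat_lit 0x26453ba9b7, nat_lit 0x269d3de9cd, nat_lit 0x28cd4fea57, nat_lit 0x328d9c6cc5, nat_lit 0x359db62d8f, nat_lit 0x167cada571, nat_lit 0x194cc42625, nat_lit 0x198cc62635, nat_lit 0x22d50fe883, nat_lit 0x231d122895, nat_lit 0x26ad2ea979, nat_lit 0x270d31a991, nat_lit 0x12ac98e4cb, nat_lit 0x14ecaaa559, nat_lit 0x153cada571, nat_lit 0x1574af657f, nat_lit 0x1efcfba7e1, nat_lit 0x220d14a8a9, nat_lit 0x226d17a8c1, nat_lit 0x227d1828c5, nat_lit 0x22851868c7, nat_lit 0x255d2e6977, nat_lit 0x26053469a7, nat_lit 0x26453669b7, nat_lit 0x290d4c2a65, nat_lit 0x328d982cc5, nat_lit 0x148cae2547, nat_lit 0x21ad18a897, nat_lit 0x223d1da8c1, nat_lit 0x253534e979, nat_lit 0x28e552aa67, nat_lit 0x2f7d86ac0d, nat_lit 0x328d9e2cd1, nat_lit 0x14fcae256d, nat_lit 0x21ad136897, nat_lit 0x25352fa979, nat_lit 0x25cd3529a5, nat_lit 0x28fd4e2a6d, nat_lit 0x1644a9256f, nat_lit 0x164ca96571,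 nat_lit 0x16dcae2597, nat_lit 0x23050ee89b, nat_lit 0x262d28e967, nat_lit 0x2635292969, nat_lit 0x268d2b297d, nat_lit 0x26dd2d2991, nat_lit 0x26e52d6993, nat_lit 0x15fcac255d, nat_lit 0x1644ae656f, nat_lit 0x16dcb36597, nat_lit 0x16ecb3e59b, nat_lit 0x230513e89b, nat_lit 0x23551668af, nat_lit 0x25dd2b6957, nat_lit 0x261d2ce963, nat_lit 0x262d2d6967, nat_lit 0x268d30297d, nat_lit 0x26cd32298d, nat_lit 0x272d3529a5, nat_lit 0x274535e9ab, nat_lit 0x331594eca3]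
theorem hs16 : chkG cl (nat_lit 3) (l3OK td4 td12 td28 pt) s16 (nat_lit 3915) = true := by decide +kernel
def s17 : List Nat := [nat_lit 0x18d632a001, nat_lit 0x4bd946497, nat_lit 0x4dc0024a5, nat_lit 0x5bdaf256f, nat_lit 0xac5e9a7fb, nat_lit 0xcf60128ed, nat_lit 0x12f6256b73, nat_lit 0x164e2dac1b, nat_lit 0x16a62eac2f, nat_lit 0x26ac4267fb, nat_lit 0x290c462883, nat_lit 0x295446a895, nat_lit 0x37c492eca3, nat_lit 0x37ec94a001, nat_lit 0x4194ff6f4d, nat_lit 0x42cd1db009, nat_lit 0x42fd2d303b, nat_lit 0x468d6e712b, nat_lit 0x4157c2559, nat_lit 0x14e628ed3b, nat_lit 0x150e292d49, nat_lit 0x16062ced8f, nat_lit 0x16662e2da5, nat_lit 0x1c1c002635, nat_lit 0xf2512e307, nat_lit 0x18ed6ce4ab, nat_lit 0x1af57ba555, nat_lit 0x1b057c2559, nat_lit 0x1b7d836593, nat_lit 0x1b8d842599, nat_lit 0x1b9d85a5a7, nat_lit 0x1ba585e5a9, nat_lit 0x25a5d027bb, nat_lit 0x264dd2a7e3, nat_lit 0x2955d76895, nat_lit 0x3584872559,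 nat_lit 0x36948b6599, nat_lit 0x380495663b, nat_lit 0x40ecf76969, nat_lit 0x4164fc6993, nat_lit 0x41fd0bea1d, nat_lit 0x425d152a65, nat_lit 0x42b51b2a95, nat_lit 0xe1cfc2991, nat_lit 0xe6cff69ab, nat_lit 0xf15106a43, nat_lit 0xf1d12aa55, nat_lit 0xf65182a7f, nat_lit 0xf851aaa91, nat_lit 0x18956aeca3, nat_lit 0x18d56c2001, nat_lit 0x191d6d6cc5, nat_lit 0xe1c3133, nat_lit 0x384e25b1a5, nat_lit 0x3234006001, nat_lit 0x14b4ae6549, nat_lit 0x14ccafe555, nat_lit 0x151cb2e56d, nat_lit 0x1564b5257f, nat_lit 0x15c4b7e597, nat_lit 0x1814c9a623, nat_lit 0x18e4d0e65f, nat_lit 0x1f8d05e80b, nat_lit 0x21dd19289b, nat_lit 0x22151ba8af, nat_lit 0x225d1da8c1, nat_lit 0x256535697d, nat_lit 0x25a537e991, nat_lit 0x25e53a29a3, nat_lit 0x3435a9ad25, nat_lit 0x1564a5e555, nat_lit 0x15cca8a56f, nat_lit 0x15dca92573, nat_lit 0x16bcb025ab, nat_lit 0x22850ea89d, nat_lit 0x22cd1028af, nat_lit 0x22d51068b1, nat_lit 0x22dd10a8b3,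 nat_lit 0x26652d2995, nat_lit 0x26ad2f29a7, nat_lit 0x29c5486a6d, nat_lit 0x2a154aaa81, nat_lit 0x2f5574ebd1, nat_lit 0x3585a62d5d, nat_lit 0x35f5a96d79, nat_lit 0x3605a9ed7d, nat_lit 0x55316219, nat_lit 0x1ce10a8b3, nat_lit 0x3de2fa64b, nat_lit 0x3f630265b, nat_lit 0x86644e98b, nat_lit 0x43f4362de9, nat_lit 0x14ccafe559, nat_lit 0x14e4b0a55f, nat_lit 0x1524b32573, nat_lit 0x15b4b76597, nat_lit 0x217d15e885, nat_lit 0x225d1da8c5, nat_lit 0x230d2268ef, nat_lit 0x25e53a29a7, nat_lit 0x26353c29bb, nat_lit 0x2fcd87ec1d, nat_lit 0x59ee003, nat_lit 0x3455abed37, nat_lit 0x3ba5e4ef07, nat_lit 0x1574afe559, nat_lit 0x15c4b2656d, nat_lit 0x165cb6e593, nat_lit 0x18f4cbe639, nat_lit 0x1f9d0167e3, nat_lit 0x226d182897, nat_lit 0x227d18a89b, nat_lit 0x259d316963, nat_lit 0x25f5346979, nat_lit 0x264536e98d, nat_lit 0x26a539e9a5, nat_lit 0x353daead4b, nat_lit 0x15c4a86547, nat_lit 0x1664ad656f, nat_lit 0x166cada571,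 nat_lit 0x16acafa581, nat_lit 0x16fcb26597, nat_lit 0x203cfbe7e3, nat_lit 0x22c50fe883, nat_lit 0x22cd102885, nat_lit 0x2315126897, nat_lit 0x236514e8ab, nat_lit 0x23751568af, nat_lit 0x238515e8b3, nat_lit 0x23b517a8c1, nat_lit 0x23cd1868c7, nat_lit 0x264d2c6967, nat_lit 0x26552ca969, nat_lit 0x269d2ea979, nat_lit 0x26ed31298d, nat_lit 0x275d34a9a9, nat_lit 0x2a054a2a55, nat_lit 0x30757debf3, nat_lit 0xd962001, nat_lit 0x1524ad656f, nat_lit 0x1564af657f, nat_lit 0x157cb02585, nat_lit 0x21850fe883, nat_lit 0x21dd12e89b, nat_lit 0x226d1828c5, nat_lit 0x251d2c6967, nat_lit 0x25252ca969, nat_lit 0x25652f297d, nat_lit 0x25fd34a9a9, nat_lit 0x2ef57c2be5, nat_lit 0x364db62db5, nat_lit 0x480c7ce8c5, nat_lit 0x7ac7c28af, nat_lit 0x1d9d632fb1]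
theorem hs17 : chkG cl (nat_lit 3) (l3OK td4 td4 td12 pt) s17 (nat_lit 4044) = true := by decide +kernel
def s18 : List Nat := [nat_lit 0x475cb2e6e1, nat_lit 0x3f647a6313, nat_lit 0x48354aa895, nat_lit 0x39a4002635, nat_lit 0x234fc2991, nat_lit 0x1064c6a001, nat_lit 0x3244006001, nat_lit 0x21dd18a897, nat_lit 0x255d34a977, nat_lit 0x259d37298b, nat_lit 0x25f53a29a3, nat_lit 0x290d526a65, nat_lit 0x32ec002003, nat_lit 0x127c92e4bb, nat_lit 0x1574aaa57f, nat_lit 0x1624b025ab, nat_lit 0x16bcb4e5cd, nat_lit 0x222d1068b1, nat_lit 0x223510a8b3, nat_lit 0x227d12e8c5, nat_lit 0x23251828ed, nat_lit 0x255d29e977, nat_lit 0x265531a9bb, nat_lit 0x26ad3469d1, nat_lit 0x165ca86547, nat_lit 0x1664a8a549, nat_lit 0x16fcada571, nat_lit 0x23b5126897, nat_lit 0x23f514e8ab, nat_lit 0x241515e8b3, nat_lit 0x27052ce96b, nat_lit 0x363da66d37, nat_lit 0x150cb2e571, nat_lit 0x17d4c72617, nat_lit 0x213d136877, nat_lit 0x216d15e885,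 nat_lit 0x218516a88b, nat_lit 0x21ad182897, nat_lit 0x220d1be8b5, nat_lit 0x2535346979, nat_lit 0x28e5522a67, nat_lit 0x2995572a97, nat_lit 0x151cb36597, nat_lit 0x21c518e8c3, nat_lit 0x22151c28dd, nat_lit 0x254d3529a5, nat_lit 0x165ca96547, nat_lit 0x16ecae256d, nat_lit 0x235d10687f, nat_lit 0x236510a881, nat_lit 0x23b5136897, nat_lit 0x26e52ce963, nat_lit 0x26ed2d2965, nat_lit 0x27352f2975, nat_lit 0x27452fa979, nat_lit 0x278532298d, nat_lit 0x27d53529a5, nat_lit 0x3f55f26f8f, nat_lit 0x16b4ab257f, nat_lit 0x170cae2597, nat_lit 0x2044f767e1, nat_lit 0x22d50c2883, nat_lit 0x238510a8af, nat_lit 0x238d10e8b1, nat_lit 0x299d42aa39, nat_lit 0x2a5d47ea65, nat_lit 0x364da6ed5f, nat_lit 0x151ca7e523, nat_lit 0x161cafe559, nat_lit 0x166cb2656d, nat_lit 0x1894c3a5ff, nat_lit 0x1fa4fc27bb, nat_lit 0x222d106861, nat_lit 0x233518a89b, nat_lit 0x26bd34e97d, nat_lit 0x2a054f2a51, nat_lit 0x14a4ad656f, nat_lit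 0x14d4afa581, nat_lit 0x14e4b02585, nat_lit 0x151cb26597, nat_lit 0x213d126897, nat_lit 0x214d12e89b, nat_lit 0x217d1568af, nat_lit 0x21d51868c7, nat_lit 0x24d52ea979, nat_lit 0x255d34a9a9, nat_lit 0x25fd3a69d7, nat_lit 0x268d3de9f3, nat_lit 0x290d526a97, nat_lit 0x1544ab257f, nat_lit 0x21fd10e8b1, nat_lit 0x25c52f29a3, nat_lit 0x272d3a69f5, nat_lit 0x1724b025ab, nat_lit 0x23a512e8c5, nat_lit 0x23b51368c9, nat_lit 0x299d43aa45, nat_lit 0x33cc002003, nat_lit 0x15acae6549, nat_lit 0x168cb56581, nat_lit 0x169cb5e585, nat_lit 0x225513a875, nat_lit 0x22ad166885, nat_lit 0x22f518a897, nat_lit 0x230519289b, nat_lit 0x235d1be8b1, nat_lit 0x25dd2fe957, nat_lit 0x262d326967, nat_lit 0x263532a969, nat_lit 0x267d34e979, nat_lit 0x272d3a69a5, nat_lit 0x29e5502a55, nat_lit 0x331599aca3, nat_lit 0x334c006001]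
theorem hs18 : chkG cl (nat_lit 3) (l3OK td4 td12 td16 pt) s18 (nat_lit 4198) = true := by decide +kernel
def s19 : List Nat := [nat_lit 0x3d64132b03, nat_lit 0x14acb2e543, nat_lit 0x1514b72567, nat_lit 0x15bcbb6591, nat_lit 0x220d1fe8a9, nat_lit 0x226d22a8c1, nat_lit 0x255d3a6977, nat_lit 0x259d3c698b, nat_lit 0x25f53ee9a3, nat_lit 0x284d4fea27, nat_lit 0x316c002c67, nat_lit 0x34edb6ad5f, nat_lit 0x3535b8ad73, nat_lit 0x1614aa65a7, nat_lit 0x25f529a9a3, nat_lit 0x26ad2ea9d1, nat_lit 0x291542aa67, nat_lit 0x29b5476a93, nat_lit 0x364dab6db1, nat_lit 0x15bcbbe59d, nat_lit 0x1ecd0527e1, nat_lit 0x220d2068b5, nat_lit 0x225d22a8c9, nat_lit 0x226d2328cd, nat_lit 0x22bd24a8e1, nat_lit 0x25f53f69af, nat_lit 0x25cd3a69cb, nat_lit 0x267d3ee9ef, nat_lit 0x273d2fe977, nat_lit 0x27fd37e9b7, nat_lit 0x30b57cebdf, nat_lit 0x168cb0a5cd, nat_lit 0x19bcca6695, nat_lit 0x261d2ce9b9, nat_lit 0x1614a62539, nat_lit 0x16b4aaa55d,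 nat_lit 0x275d2ee97f, nat_lit 0x27cd3369a3, nat_lit 0x30d57bebe7, nat_lit 0x1a6cc66685, nat_lit 0x23fd1068df, nat_lit 0x2285186875, nat_lit 0x23251d2897, nat_lit 0x15acb3a549, nat_lit 0x21ed16285d, nat_lit 0x225d19a877, nat_lit 0x22a51be883, nat_lit 0x23051ea89b, nat_lit 0x27353f69a7, nat_lit 0x298552ea3f, nat_lit 0x1524b22599, nat_lit 0x152cb2659b, nat_lit 0x218d1568b3, nat_lit 0x24e52ea97d, nat_lit 0x25ad3729c1, nat_lit 0x2ef580ec0f, nat_lit 0x353db3ada5]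
theorem hs19 : chkG cl (nat_lit 3) (l3OK td16 td12 td28 pt) s19 (nat_lit 4312) = true := by decide +kernel
def s20 : List Nat := [nat_lit 0x3040024a5, nat_lit 0x4a14f12935, nat_lit 0x4a24f4294f, nat_lit 0xa5b6ac31, nat_lit 0x281404201d, nat_lit 0x49dd2d27bb, nat_lit 0x49f543a85f, nat_lit 0x4a05466877, nat_lit 0x31fc006001, nat_lit 0x157cb76593, nat_lit 0x219d18a897, nat_lit 0x2525346975, nat_lit 0x25bd3a69a5, nat_lit 0x32ac002003, nat_lit 0x29cd4feaa9, nat_lit 0x248d1568af, nat_lit 0x2aad456a2f, nat_lit 0x170cab257f, nat_lit 0x27ad2f29a3, nat_lit 0x30ed7a2bf9, nat_lit 0x233d15e885, nat_lit 0x254d39a9d1, nat_lit 0x2e6d816c0f, nat_lit 0x176cae256d, nat_lit 0x20acf767b7, nat_lit 0x248d1668af, nat_lit 0x36cda76d37, nat_lit 0x229518a8ed, nat_lit 0x235d0ea89d, nat_lit 0x239d1068b1, nat_lit 0x23e512e8c5, nat_lit 0x15e4ae2547, nat_lit 0x26cd34e979, nat_lit 0x276d3a69a5, nat_lit 0x29ed4dea45]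
theorem hs20 : chkG cl (nat_lit 3) (l3OK td4 td27 td31 pt) s20 (nat_lit 4369) = true := by decide +kernel
def s21 : List Nat := [nat_lit 0x2814042019, nat_lit 0x2fad88ac09, nat_lit 0x173cabe559, nat_lit 0x252d2d29a5, nat_lit 0x1714b4e56f, nat_lit 0x2715346967, nat_lit 0x2a5d4eea3b, nat_lit 0x364dae2d33, nat_lit 0x27fd3f69bf]
theorem hs21 : chkG cl (nat_lit 3) (l3OK td9 td28 td31 pt) s21 (nat_lit 4404) = true := by decide +kernel
def s22 : List Nat := [nat_lit 0x1614a7e5b9, nat_lit 0x22d50da8ed, nat_lit 0x25f527a9b9, nat_lit 0x157cbc257f, nat_lit 0x15b4bce58d, nat_lit 0x221522a8a9, nat_lit 0x225d2428bb, nat_lit 0x24e537e94f, nat_lit 0x256d3d6979, nat_lit 0x25e540699d, nat_lit 0x268d2b6941, nat_lit 0x278532e975, nat_lit 0x27b534e987, nat_lit 0x1644abe5cf, nat_lit 0x169caee5e1, nat_lit 0x195cc4e691, nat_lit 0x230d11a907, nat_lit 0x271d322a01, nat_lit 0x2945442a97, nat_lit 0x2ecd71ebf9, nat_lit 0x35cda7adb5,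 nat_lit 0x21ed21a8af, nat_lit 0x220d22a8b7, nat_lit 0x258d3e6995, nat_lit 0x259d3ee999, nat_lit 0x25dd4069ab, nat_lit 0x2e4d83abbd, nat_lit 0x1554b5e5b7, nat_lit 0x225d1ee8ff, nat_lit 0x25353529b5, nat_lit 0x16a4a4e579, nat_lit 0x16bca5a57f, nat_lit 0x1a14c06657, nat_lit 0x246510e8eb, nat_lit 0x2ae5456a8d, nat_lit 0x1674a8653d, nat_lit 0x198cc1a609, nat_lit 0x16aca5658b, nat_lit 0x230d09289f, nat_lit 0x274d28e9af, nat_lit 0x2a4d422a6f, nat_lit 0x31457a2c3b, nat_lit 0x1554b3a52b, nat_lit 0x224d1c2861, nat_lit 0x25c537e943, nat_lit 0x25d5386947, nat_lit 0x161cb6e545, nat_lit 0x221517684b, nat_lit 0x25ad33e933, nat_lit 0x14acace585, nat_lit 0x1584b4e5c5, nat_lit 0x218514e8c7, nat_lit 0x221d1aa8f3, nat_lit 0x226d1ce905, nat_lit 0x251d3129a9, nat_lit 0x259d3669d3, nat_lit 0x26a53dea09, nat_lit 0x34a5ae2d93]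
theorem hs22 : chkG cl (nat_lit 3) (l3OK td31 td19 td37 pt) s22 (nat_lit 4413) = true := by decide +kernel
def s23 : List Nat := [nat_lit 0x8540a025, nat_lit 0x1f9d8ce5b7, nat_lit 0x1ffd8f25cb, nat_lit 0x204590e5d7, nat_lit 0x2285a2a66f, nat_lit 0x22cda3e67d, nat_lit 0x2325a6268b, nat_lit 0x237da8a699, nat_lit 0x238da9269d, nat_lit 0x2395a9669f, nat_lit 0x2f55ef29b9, nat_lit 0x3055f429f5, nat_lit 0x2e649c6971, nat_lit 0x2e9c9e2987, nat_lit 0x2eeca0699d, nat_lit 0x2f54a2a9b9, nat_lit 0x2f9ca369cb, nat_lit 0x317cb36a3b, nat_lit 0x318cb56a4d, nat_lit 0x31ccb86a65, nat_lit 0x14b9ea77, nat_lit 0x324cbc6a91, nat_lit 0x328cbd6a9f, nat_lit 0x3c1d226d83, nat_lit 0x3c35232d89]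
theorem hs23 : chkG cl (nat_lit 3) (l3OK td31 td31 td31 pt) s23 (nat_lit 4471) = true := by decide +kernel
def s24 : List Nat := [nat_lit 0xf3e4bee47, nat_lit 0x4904496cc5, nat_lit 0x195ca639b, nat_lit 0x37e0a656b, nat_lit 0x11664aa003, nat_lit 0x281404218b, nat_lit 0x43946c6c79, nat_lit 0x15b4bbe5a9, nat_lit 0x15bcbc25ab, nat_lit 0x15f4bd25b9, nat_lit 0x1834d06647, nat_lit 0x220d20a8c5, nat_lit 0x229d23e8e7, nat_lit 0x24d5352967, nat_lit 0x15cca3a547, nat_lit 0x1664a6256d, nat_lit 0x231d0b6897, nat_lit 0x26a5282979, nat_lit 0x2a5d44ea67, nat_lit 0x237d0be89b, nat_lit 0x269d266967, nat_lit 0x150cb5a56f, nat_lit 0x1514b5e571, nat_lit 0x15fcbc25ab, nat_lit 0x21b51ba897, nat_lit 0x225d20e8c7, nat_lit 0x25953ae993, nat_lit 0x26253ea9b9, nat_lit 0x23150aa885, nat_lit 0x23650c2897, nat_lit 0x2695272967, nat_lit 0x269d276969, nat_lit 0x26e528a977, nat_lit 0x339c00a001, nat_lit 0x15b4b16585, nat_lit 0x224d16a8af,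 nat_lit 0x22bd19e8c9, nat_lit 0x259530697d, nat_lit 0x262d3569a5, nat_lit 0x3174002005, nat_lit 0x151cb72581, nat_lit 0x1e9d0367e1, nat_lit 0x21751aa895, nat_lit 0x217d1ae897, nat_lit 0x21d51da8b1, nat_lit 0x226d2268dd, nat_lit 0x22bd23e8ed, nat_lit 0x346db1ed4f, nat_lit 0x3194002005, nat_lit 0x15ccb96597, nat_lit 0x161cbb65ab, nat_lit 0x21d51ae897, nat_lit 0x259d39698d, nat_lit 0x25f53c29a5, nat_lit 0x2fad88ac0f, nat_lit 0x207cf827fb, nat_lit 0x22ad0a6883, nat_lit 0x2635272967, nat_lit 0x272d2ce9a3, nat_lit 0x335400a001, nat_lit 0x15fcaee571, nat_lit 0x25dd2de969, nat_lit 0x273d38a9bf, nat_lit 0x1614ace56d, nat_lit 0x221d0d6871, nat_lit 0x226d0f6881, nat_lit 0x22cd122897, nat_lit 0x23251528af, nat_lit 0x23751768c1, nat_lit 0x27153469a9, nat_lit 0x1574ace56d, nat_lit 0x15c4af257f, nat_lit 0x15ccaf6581, nat_lit 0x221d122897, nat_lit 0x22cd17a8c3, nat_lit 0x25e530a98b]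
theorem hs24 : chkG cl (nat_lit 3) (l3OK td9 td7 td31 pt) s24 (nat_lit 4496) = true := by decide +kernel
def s25 : List Nat := [nat_lit 0x281404235f, nat_lit 0x15ae4baa67, nat_lit 0x3384186aa1, nat_lit 0x5b622a635, nat_lit 0x275686119, nat_lit 0x151cb8256f, nat_lit 0x15c4bc6599, nat_lit 0x21dd1ee89d, nat_lit 0x220d20a8af, nat_lit 0x2515382967, nat_lit 0x252538a96b, nat_lit 0x25dd3ee9a3, nat_lit 0x25e53f29a5, nat_lit 0x357dbaad8d, nat_lit 0x1614a4a56f, nat_lit 0x198cc0264d, nat_lit 0x22c5096897, nat_lit 0x231d0b68af, nat_lit 0x23850e28c7, nat_lit 0x26fd29e9a5, nat_lit 0x270d2a69a9, nat_lit 0x27a52ee9d3, nat_lit 0x2ab547ea97, nat_lit 0x3d85e0ef4b, nat_lit 0x16b4a6a585, nat_lit 0x198cbee63b, nat_lit 0x1a0cc1a65d, nat_lit 0x202cf267e1, nat_lit 0x230d096897, nat_lit 0x231d09e89b, nat_lit 0x237d0be8b3, nat_lit 0x23ad0d68c1, nat_lit 0x23b50da8c3, nat_lit 0x2695262979, nat_lit 0x273d29a9a3, nat_lit 0x274529e9a5,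 nat_lit 0x2aa5452a81, nat_lit 0x2aad456a83, nat_lit 0x36cda66d8f, nat_lit 0x136c8ee4b3, nat_lit 0x165ca5a56f, nat_lit 0x1a0cc2a65d, nat_lit 0x230d0a6897, nat_lit 0x237d0ce8b3, nat_lit 0x2695272979, nat_lit 0x27dd2fe9d3, nat_lit 0x2aad466a83, nat_lit 0x30bd776c09, nat_lit 0x36d5a7ad91, nat_lit 0x1524b6655f, nat_lit 0x1554b7e56d, nat_lit 0x15fcbc2597, nat_lit 0x218519a877, nat_lit 0x218d19e879, nat_lit 0x22151ee89d, nat_lit 0x225d20e8b1, nat_lit 0x2505352953, nat_lit 0x257d3a2975, nat_lit 0x25c53c698b, nat_lit 0x289d52ea3f, nat_lit 0x348db26d37, nat_lit 0x15fcb3e597, nat_lit 0x21fd13e897, nat_lit 0x225516e8af, nat_lit 0x22bd19e8c7, nat_lit 0x258d302979, nat_lit 0x29454dea67, nat_lit 0x159ca3e555, nat_lit 0x15fca5a56f, nat_lit 0x22ad0a6897, nat_lit 0x2635272979, nat_lit 0x268d292991, nat_lit 0x29ed43aa67, nat_lit 0x2a55466a83, nat_lit 0x2b1d4e2abd, nat_lit 0x15acac2559, nat_lit 0x15fcaee56f, nat_lit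 0x164cb12581, nat_lit 0x16dcb5e5a7, nat_lit 0x22bd14689b, nat_lit 0x230516e8af, nat_lit 0x236519a8c5, nat_lit 0x25dd2de967, nat_lit 0x262d2fe977, nat_lit 0x2635302979, nat_lit 0x268d332991, nat_lit 0x26dd3569a3, nat_lit 0x26ed35e9a7, nat_lit 0x272d3829b9, nat_lit 0x294548ea3f, nat_lit 0x29e54daa65, nat_lit 0xc246ae321, nat_lit 0x151cb7256f, nat_lit 0x21751aa881, nat_lit 0x21c51d2897, nat_lit 0x220d1fa8af, nat_lit 0x22151fe8b1, nat_lit 0x22852328cd, nat_lit 0x22d524a8e1, nat_lit 0x25dd3de9a3, nat_lit 0x2e65812bbb, nat_lit 0x14d4b1e543, nat_lit 0x1564b6a56b, nat_lit 0x1574b7256f, nat_lit 0x15bcb8e57f, nat_lit 0x162cbbe59d, nat_lit 0x189cd02637, nat_lit 0x21d51ae883, nat_lit 0x220d1ce895, nat_lit 0x22151d2897, nat_lit 0x226d1fa8af, nat_lit 0x22bd21a8c1, nat_lit 0x233d24e8e3, nat_lit 0x259d396977, nat_lit 0x25e53ba98d, nat_lit 0x260d3ce997, nat_lit 0x26453de9a3, nat_lit 0x26953fa9b9, nat_lit 0x269d3fe9bb,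 nat_lit 0x290d546a55, nat_lit 0x2f55862be7, nat_lit 0x3535b5ad5f, nat_lit 0x1614ace56f, nat_lit 0x231d14e8af, nat_lit 0x23751768c3, nat_lit 0x24651f6903, nat_lit 0x25f52be967, nat_lit 0x26fd33a9a5, nat_lit 0x1574ace56f, nat_lit 0x21d50f6883, nat_lit 0x226d14e8af, nat_lit 0x237d1ce8ef, nat_lit 0x255d2be967, nat_lit 0x25f5312991, nat_lit 0x26453369a3, nat_lit 0x265533e9a7, nat_lit 0x26ad36e9bf, nat_lit 0x27053969d3, nat_lit 0x290d49aa55]
theorem hs25 : chkG cl (nat_lit 3) (l3OK td16 td3 td31 pt) s25 (nat_lit 4572) = true := by decide +kernel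
def s26 : List Nat := [nat_lit 0xc09209b, nat_lit 0x29b4e760e1, nat_lit 0xe5016a97, nat_lit 0x46947fee71, nat_lit 0x14f4b32559, nat_lit 0x1514b46565, nat_lit 0x22cd2268d7, nat_lit 0x2595396987, nat_lit 0x25a539e98b, nat_lit 0x26553ea9b9, nat_lit 0x265d3ee9bb, nat_lit 0x2f3d85abf1, nat_lit 0x14eca6256d, nat_lit 0x1574aa6593, nat_lit 0x1614af65b9, nat_lit 0x21d50d68ab, nat_lit 0x226d1228d7, nat_lit 0x23151768fb, nat_lit 0x255d29a98d, nat_lit 0x25f52e69b9, nat_lit 0x269d33a9df, nat_lit 0x2a154f6ab7, nat_lit 0x363db0adbf, nat_lit 0x1704ab255f, nat_lit 0x177cafe585, nat_lit 0x22cd09e855, nat_lit 0x23150b6861, nat_lit 0x237d0e2877, nat_lit 0x23bd0fe885, nat_lit 0x244d1528af, nat_lit 0x246515e8b5, nat_lit 0x265526a93b, nat_lit 0x26a5286949, nat_lit 0x27d5316991, nat_lit 0x280533a9a3, nat_lit 0x3645a46d29, nat_lit 0x148cb02549, nat_lit 0x14c4b2e55d, nat_lit 0x1564b82589, nat_lit 0x15acb9e59b, nat_lit 0x15fcbbe5af,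 nat_lit 0x21fd1de8b3, nat_lit 0x220d1e68b7, nat_lit 0x22ad22a8df, nat_lit 0x22bd2328e3, nat_lit 0x259d3ae999, nat_lit 0x25dd3ce9ab, nat_lit 0x26353ee9c1, nat_lit 0x169ca92543, nat_lit 0x176cb0a57f, nat_lit 0x17acb3a597, nat_lit 0x22bd0aa84f, nat_lit 0x23ad10a87f, nat_lit 0x23fd136895, nat_lit 0x241514289b, nat_lit 0x248518e8c1, nat_lit 0x268d28e941, nat_lit 0x278d2fa977, nat_lit 0x27dd32e991, nat_lit 0x29fd43ea19, nat_lit 0x36c5a9ed49, nat_lit 0x1554abe599, nat_lit 0x1f1cfa280d, nat_lit 0x21ed10a8c3, nat_lit 0x225513e8df, nat_lit 0x25752ce9a3, nat_lit 0x262d32a9d3, nat_lit 0x26e53869f9, nat_lit 0x26ed38a9fb, nat_lit 0x35c5af6db3, nat_lit 0x159be003, nat_lit 0x14a4b0e581, nat_lit 0x1514b5a5a7, nat_lit 0x151cb5e5a9, nat_lit 0x15bcba65cd, nat_lit 0x21c51be8d9, nat_lit 0x220d1e68ed, nat_lit 0x225d20a8ff, nat_lit 0x24e5332993, nat_lit 0x250d3529a3, nat_lit 0x259d3ae9d1, nat_lit 0x25dd3ce9e1, nat_lit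 0x25e53d29e3, nat_lit 0x1624a56559, nat_lit 0x174cade5a7, nat_lit 0x238d0ea8af, nat_lit 0x23cd1068c1, nat_lit 0x275d2ce9a3, nat_lit 0x279d2ee9b7, nat_lit 0x281d3469df, nat_lit 0x32f4002005, nat_lit 0x16b4b4656b, nat_lit 0x226d12285b, nat_lit 0x227d12a85f, nat_lit 0x237d1aa895, nat_lit 0x23851ae897, nat_lit 0x25a52be931, nat_lit 0x25f52e6941, nat_lit 0x264d31294f, nat_lit 0x26a533e963, nat_lit 0x26bd34a969, nat_lit 0x270536e977, nat_lit 0x328d932c67, nat_lit 0x363db0ad45, nat_lit 0x14acafe585, nat_lit 0x14d4b22597, nat_lit 0x1514b465a9, nat_lit 0x15bcb925cf, nat_lit 0x1614bb65e1, nat_lit 0x21d51b28df, nat_lit 0x220d1d28ef, nat_lit 0x226d1fe905, nat_lit 0x250d33e9a5, nat_lit 0x259d39a9d3, nat_lit 0x269d402a07, nat_lit 0x34edb42da7, nat_lit 0x3535b5edb5, nat_lit 0x15fca5655f, nat_lit 0x16dcab2599, nat_lit 0x23550e28b1, nat_lit 0x23a51068c7, nat_lit 0x268d28e97f, nat_lit 0x27352ce9a9, nat_lit 0x2a4545aa6d,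 nat_lit 0x15ecb0a547, nat_lit 0x168cb5a56f, nat_lit 0x16e4b86585, nat_lit 0x22f518e883, nat_lit 0x235d1c289b, nat_lit 0x25d52fe947, nat_lit 0x29854d6a2b, nat_lit 0x2a3552ea55]
theorem hs26 : chkG cl (nat_lit 3) (l3OK td9 td19 td25 pt) s26 (nat_lit 4711) = true := by decide +kernel
def s27 : List Nat := [nat_lit 0x8540a051, nat_lit 0xe7e43e777, nat_lit 0x157cb9e57f, nat_lit 0x15c4bb6591, nat_lit 0x185cd0a633, nat_lit 0x22cd2468d7, nat_lit 0x25653a6977, nat_lit 0x25fd3ee9a3, nat_lit 0x28454f6a23, nat_lit 0x295d586a79, nat_lit 0x14eca4656d, nat_lit 0x226d0f68d7, nat_lit 0x26652ee9d3, nat_lit 0x1554b9a585, nat_lit 0x15fcbd65af, nat_lit 0x220d20a8b7, nat_lit 0x25dd3ee9ab, nat_lit 0x2e95846bd5, nat_lit 0x1664a62539, nat_lit 0x1fecf2a79d, nat_lit 0x264d262939, nat_lit 0x23bd116883, nat_lit 0x22551168df, nat_lit 0x2715292991, nat_lit 0x237d1ce895, nat_lit 0x23851d2897, nat_lit 0x25ad2e6933, nat_lit 0x274d3b698b,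 nat_lit 0x213d14e8af, nat_lit 0x220d1ce8ef, nat_lit 0x22ed096897, nat_lit 0x361da26d61, nat_lit 0x15f4b3a549, nat_lit 0x23651ee89d, nat_lit 0x23ed2328c5]
theorem hs27 : chkG cl (nat_lit 3) (l3OK td16 td19 td31 pt) s27 (nat_lit 4843) = true := by decide +kernel
def s28 : List Nat := [nat_lit 0x495cf13285, nat_lit 0x9bc042a05, nat_lit 0x331406e769, nat_lit 0x15263de18f, nat_lit 0xbf640e6fb, nat_lit 0x1614a625a9, nat_lit 0x16b4aaa5cd, nat_lit 0x22bd0ae8d7, nat_lit 0x231d0da8ed, nat_lit 0x26a529e9d1, nat_lit 0x278d30e9ff, nat_lit 0x279d316a03, nat_lit 0x3645a62db1, nat_lit 0x3fb5f37007, nat_lit 0x131c95648f, nat_lit 0x1554a76523, nat_lit 0x16a4b1656d, nat_lit 0x2315146883, nat_lit 0x268d302963, nat_lit 0x15aca5a597, nat_lit 0x15fca765ab, nat_lit 0x169cabe5cf, nat_lit 0x224d0a68c3, nat_lit 0x23050ee8ef, nat_lit 0x299543ea95, nat_lit 0x1264a0a4a5, nat_lit 0x15bcbbe57d, nat_lit 0x15c4bc257f, nat_lit 0x217d1ba86d,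 nat_lit 0x218d1c2871, nat_lit 0x221520a895, nat_lit 0x221d20e897, nat_lit 0x225d22a8a9, nat_lit 0x22cd2528c3, nat_lit 0x25a53d2977, nat_lit 0x25e53ee98b, nat_lit 0x2ea584abb7, nat_lit 0x1604a3a573, nat_lit 0x1614a42577, nat_lit 0x230d09a8b3, nat_lit 0x15b4b3e5a7, nat_lit 0x15f4b5e5b7, nat_lit 0x225d19a8d9, nat_lit 0x22bd1ca8ed, nat_lit 0x28ed4daa79, nat_lit 0x164ca4e579, nat_lit 0x165ca5657d, nat_lit 0x23650be8bd, nat_lit 0x26e528699d, nat_lit 0x2aa545ea91, nat_lit 0x15acb82547, nat_lit 0x15b4b86549, nat_lit 0x164cbc256f, nat_lit 0x22051c2861, nat_lit 0x231523a89d, nat_lit 0x2595386947, nat_lit 0x26353d2967, nat_lit 0x26cd40698b, nat_lit 0x31e599ec63, nat_lit 0x34c5b22d15, nat_lit 0x14e4b5654f, nat_lit 0x151cb7655f, nat_lit 0x1574b9e577, nat_lit 0x15b4bb2585, nat_lit 0x15bcbb6587, nat_lit 0x1854d0a62b, nat_lit 0x1eed05a7d3, nat_lit 0x21c51d6887, nat_lit 0x22051fa89b, nat_lit 0x225d2228b3, nat_lit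 0x22bd2428c9, nat_lit 0x255d3a696f, nat_lit 0x25953c297d, nat_lit 0x259d3c697f, nat_lit 0x26454069ab, nat_lit 0x287552aa33, nat_lit 0x34ddb62d51, nat_lit 0x34edb6ad55, nat_lit 0x22150ae853, nat_lit 0x22c50f6875, nat_lit 0x231511e885, nat_lit 0x23bd1768b1, nat_lit 0x264d2be957, nat_lit 0x26ed30a979, nat_lit 0x26fd31297d, nat_lit 0x2a554bea57, nat_lit 0x15bcb6a543, nat_lit 0x220d1a685b, nat_lit 0x22cd1fa883, nat_lit 0x22d51fe885, nat_lit 0x233d22e89f, nat_lit 0x259d36a941, nat_lit 0x30558a2be9, nat_lit 0x14aca7e55d, nat_lit 0x1574af659b, nat_lit 0x166cb6e5d3, nat_lit 0x221d1528c9, nat_lit 0x22cd1aa8f3, nat_lit 0x25ad3169ab, nat_lit 0x284d446a43]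
theorem hs28 : chkG cl (nat_lit 3) (l3OK td31 td7 td28 pt) s28 (nat_lit 4878) = true := by decide +kernel
def s29 : List Nat := [nat_lit 0x67c1230a1, nat_lit 0x151c463233, nat_lit 0x1eec827263, nat_lit 0x15ac26b0c7, nat_lit 0x18d42db0d5, nat_lit 0x15b40020c1, nat_lit 0xaad186041, nat_lit 0x60aa05d, nat_lit 0x328e08e057, nat_lit 0x29b60b20e1, nat_lit 0x62be1df, nat_lit 0x1bcd40a021, nat_lit 0x475e48a3e3, nat_lit 0xec042a05, nat_lit 0x319d42f27b, nat_lit 0x6cc07a81b, nat_lit 0x18942d2e89, nat_lit 0x161d50eb29, nat_lit 0x2915c72e81, nat_lit 0x14aca3e585, nat_lit 0x157ca925c3, nat_lit 0x15b4aaa5cd, nat_lit 0x1614ade5e1, nat_lit 0x165cafe5eb, nat_lit 0x1664b025ed, nat_lit 0x1f34f6e82f, nat_lit 0x21b50ae8d7, nat_lit 0x21e50c68e3, nat_lit 0x226d106905, nat_lit 0x227d10e909, nat_lit 0x22ad122911, nat_lit 0x22bd12a915, nat_lit 0x22c512e917, nat_lit 0x231d15e927, nat_lit 0x251d26a9a9, nat_lit 0x253d27a9b9,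 nat_lit 0x25f52ce9e9, nat_lit 0x26352e69f3, nat_lit 0x26452ee9f7, nat_lit 0x269531aa05, nat_lit 0x3525a62db1, nat_lit 0x1604ab25c3, nat_lit 0x169cafe5e1, nat_lit 0x18c4c1a673, nat_lit 0x18dcc26679, nat_lit 0x226d0ea8e5, nat_lit 0x22c510a8f7, nat_lit 0x230d12e907, nat_lit 0x231d13690b, nat_lit 0x25a528e9af, nat_lit 0x25e52a69c3, nat_lit 0x268d2ee9e9, nat_lit 0x26952f29eb, nat_lit 0x299d47eaad, nat_lit 0x2fed7a2c3b, nat_lit 0x15bcb2e53d, nat_lit 0x15e4b42545, nat_lit 0x164cb7255d, nat_lit 0x196cd02627, nat_lit 0x1ed4fba78d, nat_lit 0x25dd346949, nat_lit 0x267d396967, nat_lit 0x268d39e96b, nat_lit 0x26ed3c697f, nat_lit 0x26fd3ce983, nat_lit 0x27453ea997, nat_lit 0x29454f6a1d, nat_lit 0x29ad52ea35, nat_lit 0x2f9581abaf, nat_lit 0x357db1ad2b, nat_lit 0x15bcb0a51f, nat_lit 0x15c4b0e521, nat_lit 0x15fcb2e525, nat_lit 0x1614b3a52b, nat_lit 0x16dcb96553, nat_lit 0x16e4b9a555, nat_lit 0x173cbc256f, nat_lit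 0x206d05a7b5, nat_lit 0x225d162847, nat_lit 0x22bd18e84f, nat_lit 0x22cd196853, nat_lit 0x22d519a855, nat_lit 0x235d1da86d, nat_lit 0x23bd20a883, nat_lit 0x23cd212887, nat_lit 0x23fd22a895, nat_lit 0x263534a931, nat_lit 0x26a5386947, nat_lit 0x1554a7e539, nat_lit 0x1604ad6561, nat_lit 0x225d0fe879, nat_lit 0x22bd12a88b, nat_lit 0x235d17a8b3, nat_lit 0x23bd1b28cd, nat_lit 0x25e52c695b, nat_lit 0x26dd33a993, nat_lit 0x274d3769af, nat_lit 0x28fd44ea21, nat_lit 0x29fd4caa5d, nat_lit 0x2a454f2a6d, nat_lit 0x30357eebed, nat_lit 0x1584b12529, nat_lit 0x15bcb2e52f, nat_lit 0x15c4b32531, nat_lit 0x169cb96565, nat_lit 0x1974d0661b, nat_lit 0x1fed0467b7, nat_lit 0x225d186857, nat_lit 0x226d18e85b, nat_lit 0x228d19e863, nat_lit 0x237d20a895, nat_lit 0x25a5326931, nat_lit 0x25ad32a933, nat_lit 0x25e534a93d, nat_lit 0x260d35e947, nat_lit 0x26953a295f, nat_lit 0x26ed3c6971, nat_lit 0x29ad52ea27, nat_lit 0x2a05552a3b,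 nat_lit 0x3585b1ed1f, nat_lit 0x15bcafe521, nat_lit 0x15fcb22527, nat_lit 0x1604b26529, nat_lit 0x1614b2e52d, nat_lit 0x1ff501e79f, nat_lit 0x225d156849, nat_lit 0x22cd18a855, nat_lit 0x25e531a92f, nat_lit 0x2695372945, nat_lit 0x274d3c6969, nat_lit 0x27e540a995, nat_lit 0x29954f2a0f, nat_lit 0x2a0d52aa1f, nat_lit 0x3585aead0d, nat_lit 0x3635b3ad25, nat_lit 0x1564ad6589, nat_lit 0x15bcafe59f, nat_lit 0x16e4b8e5e1, nat_lit 0x226d15e8cf, nat_lit 0x22a51768dd, nat_lit 0x22bd1828e3, nat_lit 0x22c51868e5, nat_lit 0x23051aa8f3, nat_lit 0x23651d2907, nat_lit 0x23ad1f6919, nat_lit 0x253d2be97d, nat_lit 0x259d2ee999, nat_lit 0x25dd3169ab, nat_lit 0x26453469c5, nat_lit 0x273d3be9fb, nat_lit 0x27853dea09, nat_lit 0x289d472a59, nat_lit 0x28fd4a2a6f, nat_lit 0x290d4aaa73, nat_lit 0x29954f2a99, nat_lit 0x2a45542abd, nat_lit 0x3525ab6d7d, nat_lit 0x352dabad7f, nat_lit 0x444e23f135, nat_lit 0x158e2003, nat_lit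 0x151ca725a9, nat_lit 0x1564a925bb, nat_lit 0x15acab25c9, nat_lit 0x15bcaba5cd, nat_lit 0x15fcade5d9, nat_lit 0x1604ae25db, nat_lit 0x1894c2e685, nat_lit 0x21b50ba8d5, nat_lit 0x220d0ea8ed, nat_lit 0x22150ee8ef, nat_lit 0x225d10a8ff, nat_lit 0x22a512a90d, nat_lit 0x22bd136913, nat_lit 0x22cd13e917, nat_lit 0x230515e91f, nat_lit 0x230d162921, nat_lit 0x2315166923, nat_lit 0x231d16a925, nat_lit 0x254d28e9bb, nat_lit 0x259d2ae9d1, nat_lit 0x25a52b29d3, nat_lit 0x25dd2ce9e1, nat_lit 0x26452fa9f5, nat_lit 0x268d322a01, nat_lit 0x269d32aa05, nat_lit 0x26a532ea07, nat_lit 0x2955486ab7, nat_lit 0x2a0d4dead1, nat_lit 0x2f3d77ac31, nat_lit 0x5946d03, nat_lit 0x34dda52da1, nat_lit 0x3525a6edaf, nat_lit 0x140c9ea4db, nat_lit 0x1604ae2551, nat_lit 0x177cba65b7, nat_lit 0x18e4c5260d, nat_lit 0x220d0ea857, nat_lit 0x225d10a869, nat_lit 0x227d11a871, nat_lit 0x22bd13687b, nat_lit 0x22cd13e87f, nat_lit 0x22dd146883,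 nat_lit 0x2315166891, nat_lit 0x231d16a893, nat_lit 0x23bd1be8bd, nat_lit 0x26452fa95f, nat_lit 0x269d32a973, nat_lit 0x26ad332977, nat_lit 0x27853a29b1, nat_lit 0x279d3ae9b7, nat_lit 0x2a5d50aa63, nat_lit 0xcb4622351, nat_lit 0x1514a4e579, nat_lit 0x15bca8e5a3, nat_lit 0x15cca965a7, nat_lit 0x1604ab25b5, nat_lit 0x18dcc2666b, nat_lit 0x220d0be8bd, nat_lit 0x225d0e28d3, nat_lit 0x226d0ea8d7, nat_lit 0x22bd1068e7, nat_lit 0x22c510a8e9, nat_lit 0x22cd10e8eb, nat_lit 0x231d1368fd, nat_lit 0x232513a8ff, nat_lit 0x237d166911, nat_lit 0x259d28a99f, nat_lit 0x25e52a69b5, nat_lit 0x25f52ae9b9, nat_lit 0x26352c69c7, nat_lit 0x26452ce9cb, nat_lit 0x268d2ee9db, nat_lit 0x26952f29dd, nat_lit 0x274d34e9ff, nat_lit 0x29ad486aa3, nat_lit 0x2f95776c1b, nat_lit 0x304d7d6c45, nat_lit 0x122c93a4a3, nat_lit 0x15bcb0a58f, nat_lit 0x15c4b0e591, nat_lit 0x161cb3e5a7, nat_lit 0x165cb5a5b5, nat_lit 0x18e4ca2659, nat_lit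 0x220d1368a7, nat_lit 0x221d13e8ab, nat_lit 0x225d1628bb, nat_lit 0x22bd18e8d3, nat_lit 0x22c51928d5, nat_lit 0x25152ae95f, nat_lit 0x258d2f2985, nat_lit 0x259d2fa989, nat_lit 0x25a52fe98b, nat_lit 0x25dd32299b, nat_lit 0x25fd3329a3, nat_lit 0x26453529b5, nat_lit 0x26ed3a69db, nat_lit 0x26fd3ae9df, nat_lit 0x279d3f69ff, nat_lit 0x2a05532aa1]
theorem hs29 : chkG cl (nat_lit 3) (l3OK td31 td19 td3 pt) s29 (nat_lit 4978) = true := by decide +kernel
def s30 : List Nat := [nat_lit 0x2c9e446ed1, nat_lit 0x4a2d4aa895, nat_lit 0x47c4c6a001, nat_lit 0x398423a467, nat_lit 0x2db4e1a1a5, nat_lit 0x3254006001, nat_lit 0x157cb4e57d, nat_lit 0x227d1da8c1, nat_lit 0x22851de8c3, nat_lit 0x25f539a99f, nat_lit 0x26053a29a3, nat_lit 0x23fd10687f, nat_lit 0x240d10e883, nat_lit 0x2455136897, nat_lit 0x273d2a694f, nat_lit 0x27dd2fa979, nat_lit 0x2b1d4b2a55, nat_lit 0x1564b9e5cb, nat_lit 0x25e53ee9f3, nat_lit 0x1554b0e5ad,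 nat_lit 0x234d162883, nat_lit 0x2355166885, nat_lit 0x23a519289b, nat_lit 0x26252d2945, nat_lit 0x2785386995, nat_lit 0x2fc57a2ba7]
theorem hs30 : chkG cl (nat_lit 3) (l3OK td4 td28 td28 pt) s30 (nat_lit 5237) = true := by decide +kernel
def s31 : List Nat := [nat_lit 0x4935946497, nat_lit 0x4a3e2f2c67, nat_lit 0x675326f3b, nat_lit 0x498df6aa45, nat_lit 0x202d52eb27, nat_lit 0x138494a483, nat_lit 0x1664ab2533, nat_lit 0x1784b56581, nat_lit 0x231d10685d, nat_lit 0x23cd162883, nat_lit 0x241518a897, nat_lit 0x249d1de8c3, nat_lit 0x26a52ce943, nat_lit 0x279d34a977, nat_lit 0x27a534e979, nat_lit 0x27dd37698d, nat_lit 0x2a654aea2b, nat_lit 0x14acabe589, nat_lit 0x14c4ada597, nat_lit 0x212d1028af, nat_lit 0x21351068b1, nat_lit 0x213d10a8b3, nat_lit 0x216d12e8c5, nat_lit 0x24c52ca991, nat_lit 0x25052f29a7, nat_lit 0x14ecae2597, nat_lit 0x1524b025a7, nat_lit 0x1574b2e5bb, nat_lit 0x220d1828e9, nat_lit 0x251d2f29a3,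 nat_lit 0x255d3229bb, nat_lit 0x259d3469cd, nat_lit 0x268d3be9fd, nat_lit 0x14002cd7, nat_lit 0x157cab2555, nat_lit 0x25f52ee973, nat_lit 0x260d2fa979, nat_lit 0x265d32298d, nat_lit 0x26a534699f, nat_lit 0x291547ea3b, nat_lit 0x353da92d45, nat_lit 0x35fdaf2d75, nat_lit 0x1604a9252d, nat_lit 0x176cb56585, nat_lit 0x23ed182897, nat_lit 0x23fd18a89b, nat_lit 0x268d2ce947, nat_lit 0x26952d2949, nat_lit 0x277d346979, nat_lit 0x27fd39e9a5, nat_lit 0x28353ce9c1, nat_lit 0x363da9ed2b, nat_lit 0x159cada571, nat_lit 0x224512e89b, nat_lit 0x22a515e8b3, nat_lit 0x22f51868c7, nat_lit 0x25752c6967, nat_lit 0x257d2ca969, nat_lit 0x25cd2f297d, nat_lit 0x25dd2fa981, nat_lit 0x267d34a9a9, nat_lit 0x2fc57eebfb]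
theorem hs31 : chkG cl (nat_lit 3) (l3OK td4 td25 td9 pt) s31 (nat_lit 5263) = true := by decide +kernel

end

end APL.P34
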