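import Pool.Agent.Lib.MP_2b7a4a_coL.Dist

namespace APL.P3

open APL.RA renaming leaf → L, node → N
open APL renaming dec → E

noncomputable section

set_option maxRecDepth 100000

def pt : RA := N (nat_lit 5) (N (nat_lit 3) (N (nat_lit 2) (N (nat_lit 1) (L (nat_lit 288234774265332736)) (L (nat_lit 288234774265463808))) (L (nat_lit 288234774265594880))) (N (nat_lit 4) (L (nat_lit 288234774265267201)) (L (nat_lit 288234774265332737)))) (N (nat_lit 7) (N (nat_lit 6) (L (nat_lit 288234774265398273)) (L (nat_lit 288234774265463809))) (N (nat_lit 8) (L (nat_lit 288234774265529345)) (L (nat_lit 288234774265594881))))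
def nb : RA := N (nat_lit 3) (N (nat_lit 2) (N (nat_lit 1) (L (E (nat_lit 2) (nat_lit 0x10006) (nat_lit 0))) (L (E (nat_lit 2) (nat_lit 0x1800a) (nat_lit 0)))) (L (E (nat_lit 2) (nat_lit 0x2000e) (nat_lit 0)))) (N (nat_lit 6) (N (nat_lit 5) (N (nat_lit 4) (L (E (nat_lit 0) (nat_lit 0x0) (nat_lit 0))) (L (E (nat_lit 0) (nat_lit 0x0) (nat_lit 0)))) (L (E (nat_lit 0) (nat_lit 0x0) (nat_lit 0)))) (N (nat_lit 8) (N (nat_lit 7) (L (E (nat_lit 0) (nat_lit 0x0) (nat_lit 0))) (L (E (nat_lit 0) (nat_lit 0x0) (nat_lit 0)))) (L (E (nat_lit 0) (nat_lit 0x0) (nat_lit 0)))))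
def cl : RA := N (nat_lit 1) (L (E (nat_lit 6) (nat_lit 0x2000e0060028010006) (nat_lit 0))) (L (E (nat_lit 3) (nat_lit 0x14006001) (nat_lit 0)))
def nbl : List Nat := [nat_lit 0x400182, nat_lit 0x600282, nat_lit 0x800382, nat_lit 0x0, nat_lit 0x0, nat_lit 0x0, nat_lit 0x0, nat_lit 0x0, nat_lit 0x0]
def apl : List Nat := [nat_lit 0x2000e0060028010006]
theorem hpt : RA.all okp pt = true := by decide +kernel
theorem hN : chkN nb td1 pt nbl (nat_lit 0) = true := by decide +kernel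
theorem hA : chkG cl (nat_lit 6) (apOK td1 pt (nat_lit 5)) apl (nat_lit 0) = true := by decide +kernel
def c0 : List Nat := [nat_lit 0x2000000080000000000003]
theorem t0 : chk cl nb (nat_lit 9) c0 (nat_lit 0) = true := by decide +kernel

end

end APL.P3

namespace APL.P4

open APL.RA renaming leaf → L, node → N
open APL renaming dec → E

noncomputable section

set_option maxRecDepth 100000

def pt : RA := N (nat_lit 5) (N (nat_lit 3) (N (nat_lit 2) (N (nat_lit 1) (L (nat_lit 288234774265332736)) (L (nat_lit 288234774265463808))) (L (nat_lit 288234774265136130))) (N (nat_lit 4) (L (nat_lit 288234774265136129)) (L (nat_lit 288234774265201665)))) (N (nat_lit 7) (N (nat_lit 6) (L (nat_lit 288234774265267201)) (L (nat_lit 288234774265332737))) (N (nat_lit 8) (L (nat_lit 288234774265398273)) (L (nat_lit 288234774265463809))))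
def nb : RA := N (nat_lit 3) (N (nat_lit 2) (N (nat_lit 1) (L (E (nat_lit 2) (nat_lit 0x1800a) (nat_lit 0))) (L (E (nat_lit 2) (nat_lit 0x2000e) (nat_lit 0)))) (L (E (nat_lit 2) (nat_lit 0x10006) (nat_lit 0)))) (N (nat_lit 6) (N (nat_lit 5) (N (nat_lit 4) (L (E (nat_lit 0) (nat_lit 0x0) (nat_lit 0))) (L (E (nat_lit 0) (nat_lit 0x0) (nat_lit 0)))) (L (E (nat_lit 0) (nat_lit 0x0) (nat_lit 0)))) (N (nat_lit 8) (N (nat_lit 7) (L (E (nat_lit 0) (nat_lit 0x0) (nat_lit 0))) (L (E (nat_lit 0) (nat_lit 0x0) (nat_lit 0)))) (L (E (nat_lit 0) (nat_lit 0x0) (nat_lit 0)))))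
def cl : RA := N (nat_lit 1) (L (E (nat_lit 6) (nat_lit 0x2000e0060028010006) (nat_lit 0))) (L (E (nat_lit 3) (nat_lit 0x14006001) (nat_lit 0)))
def nbl : List Nat := [nat_lit 0x600282, nat_lit 0x800382, nat_lit 0x400182, nat_lit 0x0, nat_lit 0x0, nat_lit 0x0, nat_lit 0x0, nat_lit 0x0, nat_lit 0x0]
def apl : List Nat := [nat_lit 0x2000e0060028010006]
theorem hpt : RA.all okp pt = true := by decide +kernel
theorem hN : chkN nb td1 pt nbl (nat_lit 0) = true := by decide +kernel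
theorem hA : chkG cl (nat_lit 6) (apOK td1 pt (nat_lit 5)) apl (nat_lit 0) = true := by decide +kernel
def c0 : List Nat := [nat_lit 0x2000000080000000000003]
theorem t0 : chk cl nb (nat_lit 9) c0 (nat_lit 0) = true := by decide +kernel

end

end APL.P4

namespace APL.P5

open APL.RA renaming leaf → L, node → N
open APL renaming dec → E

noncomputable section

set_option maxRecDepth 100000

def pt : RA := N (nat_lit 5) (N (nat_lit 3) (N (nat_lit 2) (N (nat_lit 1) (L (nat_lit 288234774265332736)) (L (nat_lit 288234774265594880))) (L (nat_lit 288234774265398274))) (N (nat_lit 4) (L (nat_lit 288234774265267201)) (L (nat_lit 288234774265332737)))) (N (nat_lit 7) (N (nat_lit 6) (L (nat_lit 288234774265398273)) (L (nat_lit 288234774265463809))) (N (nat_lit 8) (L (nat_lit 288234774265529345)) (L (nat_lit 288234774265594881))))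
def nb : RA := N (nat_lit 3) (N (nat_lit 2) (N (nat_lit 1) (L (E (nat_lit 2) (nat_lit 0x10006) (nat_lit 0))) (L (E (nat_lit 2) (nat_lit 0x2000e) (nat_lit 0)))) (L (E (nat_lit 2) (nat_lit 0x1800a) (nat_lit 0)))) (N (nat_lit 6) (N (nat_lit 5) (N (nat_lit 4) (L (E (nat_lit 0) (nat_lit 0x0) (nat_lit 0))) (L (E (nat_lit 0) (nat_lit 0x0) (nat_lit 0)))) (L (E (nat_lit 0) (nat_lit 0x0) (nat_lit 0)))) (N (nat_lit 8) (N (nat_lit 7) (L (E (nat_lit 0) (nat_lit 0x0) (nat_lit 0))) (L (E (nat_lit 0) (nat_lit 0x0) (nat_lit 0)))) (L (E (nat_lit 0) (nat_lit 0x0) (nat_lit 0)))))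
def cl : RA := N (nat_lit 1) (L (E (nat_lit 6) (nat_lit 0x2000e0060028010006) (nat_lit 0))) (L (E (nat_lit 3) (nat_lit 0x14006001) (nat_lit 0)))
def nbl : List Nat := [nat_lit 0x400182, nat_lit 0x800382, nat_lit 0x600282, nat_lit 0x0, nat_lit 0x0, nat_lit 0x0, nat_lit 0x0, nat_lit 0x0, nat_lit 0x0]
def apl : List Nat := [nat_lit 0x2000e0060028010006]
theorem hpt : RA.all okp pt = true := by decide +kernel
theorem hN : chkN nb td1 pt nbl (nat_lit 0) = true := by decide +kernel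
theorem hA : chkG cl (nat_lit 6) (apOK td1 pt (nat_lit 5)) apl (nat_lit 0) = true := by decide +kernel
def c0 : List Nat := [nat_lit 0x2000000080000000000003]
theorem t0 : chk cl nb (nat_lit 9) c0 (nat_lit 0) = true := by decide +kernel

end

end APL.P5

namespace APL.P6

open APL.RA renaming leaf → L, node → N
open APL renaming dec → E

noncomputable section

set_option maxRecDepth 100000

def pt : RA := N (nat_lit 5) (N (nat_lit 3) (N (nat_lit 2) (N (nat_lit 1) (L (nat_lit 288234774265332736)) (L (nat_lit 288234774265529344))) (L (nat_lit 288234774265201668))) (N (nat_lit 4) (L (nat_lit 288234774265201665)) (L (nat_lit 288234774265267201)))) (N (nat_lit 7) (N (nat_lit 6) (L (nat_lit 288234774265332737)) (L (nat_lit 288234774265398273))) (N (nat_lit 8) (L (nat_lit 288234774265463809)) (L (nat_lit 288234774265529345))))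
def nb : RA := N (nat_lit 4) (N (nat_lit 2) (N (nat_lit 1) (L (E (nat_lit 2) (nat_lit 0x14008) (nat_lit 0))) (L (E (nat_lit 2) (nat_lit 0x2000e) (nat_lit 0)))) (N (nat_lit 3) (L (E (nat_lit 0) (nat_lit 0x0) (nat_lit 0))) (L (E (nat_lit 0) (nat_lit 0x0) (nat_lit 0))))) (N (nat_lit 7) (N (nat_lit 6) (N (nat_lit 5) (L (E (nat_lit 0) (nat_lit 0x0) (nat_lit 0))) (L (E (nat_lit 0) (nat_lit 0x0) (nat_lit 0)))) (L (E (nat_lit 0) (nat_lit 0x0) (nat_lit 0)))) (N (nat_lit 8) (L (E (nat_lit 0) (nat_lit 0x0) (nat_lit 0))) (L (E (nat_lit 0) (nat_lit 0x0) (nat_lit 0)))))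
def cl : RA := N (nat_lit 2) (N (nat_lit 1) (L (E (nat_lit 6) (nat_lit 0x2000e0060028010006) (nat_lit 0))) (L (E (nat_lit 3) (nat_lit 0x1c00a001) (nat_lit 0)))) (N (nat_lit 3) (L (E (nat_lit 3) (nat_lit 0x3400a001) (nat_lit 0))) (L (E (nat_lit 3) (nat_lit 0x14006001) (nat_lit 0))))
def nbl : List Nat := [nat_lit 0x500202, nat_lit 0x800382, nat_lit 0x0, nat_lit 0x0, nat_lit 0x0, nat_lit 0x0, nat_lit 0x0, nat_lit 0x0, nat_lit 0x0]
def apl : List Nat := [nat_lit 0x2000e0060028010006]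
theorem hpt : RA.all okp pt = true := by decide +kernel
theorem hN : chkN nb td1 pt nbl (nat_lit 0) = true := by decide +kernel
theorem hA : chkG cl (nat_lit 6) (apOK td1 pt (nat_lit 5)) apl (nat_lit 0) = true := by decide +kernel
def s0 : List Nat := [nat_lit 0x400a007, nat_lit 0x400a00d]
theorem hs0 : chkG cl (nat_lit 3) (l3OK td9 td3 td12 pt) s0 (nat_lit 1) = true := by decide +kernel
def c0 : List Nat := [nat_lit 0x20000000000100340000032000804]
theorem t0 : chk cl nb (nat_lit 9) c0 (nat_lit 2) = true := by decide +kernel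

end

end APL.P6

namespace APL.P7

open APL.RA renaming leaf → L, node → N
open APL renaming dec → E

noncomputable section

set_option maxRecDepth 100000

def pt : RA := N (nat_lit 10) (N (nat_lit 5) (N (nat_lit 3) (N (nat_lit 2) (N (nat_lit 1) (L (nat_lit 288234774265332736)) (L (nat_lit 288234774264939521))) (L (nat_lit 288234774265070594))) (N (nat_lit 4) (L (nat_lit 288234774265005057)) (L (nat_lit 288234774265070591)))) (N (nat_lit 8) (N (nat_lit 7) (N (nat_lit 6) (L (nat_lit 288234774265070593)) (L (nat_lit 288234774265136126))) (L (nat_lit 288234774265136127))) (N (nat_lit 9) (L (nat_lit 288234774265136128)) (L (nat_lit 288234774265136129))))) (N (nat_lit 15) (N (nat_lit 13) (N (nat_lit 12) (N (nat_lit 11) (L (nat_lit 288234774265136130)) (L (nat_lit 288234774265136131))) (L (nat_lit 288234774265201663))) (N (nat_lit 14) (L (nat_lit 288234774265201665)) (L (nat_lit 288234774265267199)))) (N (nat_lit 17) (N (nat_lit 16)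 (L (nat_lit 288234774265267201)) (L (nat_lit 288234774265332735))) (N (nat_lit 18) (L (nat_lit 288234774265332737)) (L (nat_lit 288234774265398271)))))
def nb : RA := N (nat_lit 8) (N (nat_lit 3) (N (nat_lit 2) (N (nat_lit 1) (L (E (nat_lit 4) (nat_lit 0x12008804001e) (nat_lit 0))) (L (E (nat_lit 1) (nat_lit 0x6) (nat_lit 0)))) (L (E (nat_lit 3) (nat_lit 0x5002400a) (nat_lit 0)))) (N (nat_lit 6) (N (nat_lit 5) (N (nat_lit 4) (L (E (nat_lit 0) (nat_lit 0x0) (nat_lit 0))) (L (E (nat_lit 0) (nat_lit 0x0) (nat_lit 0)))) (L (E (nat_lit 0) (nat_lit 0x0) (nat_lit 0)))) (N (nat_lit 7) (L (E (nat_lit 0) (nat_lit 0x0) (nat_lit 0))) (L (E (nat_lit 0) (nat_lit 0x0) (nat_lit 0)))))) (N (nat_lit 14) (N (nat_lit 11) (N (nat_lit 10) (N (nat_lit 9) (L (E (nat_lit 0) (nat_lit 0x0) (nat_lit 0))) (L (E (nat_lit 0) (nat_lit 0x0) (nat_lit 0)))) (L (E (nat_lit 0) (nat_lit 0x0) (nat_lit 0)))) (N (nat_lit 13) (N (nat_lit 12) (L (E (nat_lit 0) (nat_lit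 0x0) (nat_lit 0))) (L (E (nat_lit 0) (nat_lit 0x0) (nat_lit 0)))) (L (E (nat_lit 0) (nat_lit 0x0) (nat_lit 0))))) (N (nat_lit 17) (N (nat_lit 16) (N (nat_lit 15) (L (E (nat_lit 0) (nat_lit 0x0) (nat_lit 0))) (L (E (nat_lit 0) (nat_lit 0x0) (nat_lit 0)))) (L (E (nat_lit 0) (nat_lit 0x0) (nat_lit 0)))) (N (nat_lit 18) (L (E (nat_lit 0) (nat_lit 0x0) (nat_lit 0))) (L (E (nat_lit 0) (nat_lit 0x0) (nat_lit 0))))))
def cl : RA := N (nat_lit 5) (N (nat_lit 3) (N (nat_lit 2) (N (nat_lit 1) (L (E (nat_lit 6) (nat_lit 0x4401e00d0048014006) (nat_lit 0))) (L (E (nat_lit 6) (nat_lit 0x4802000e006001c008) (nat_lit 0)))) (L (E (nat_lit 6) (nat_lit 0x2c014009004001c00c) (nat_lit 0)))) (N (nat_lit 4) (L (E (nat_lit 3) (nat_lit 0x4400a001) (nat_lit 0))) (L (E (nat_lit 3) (nat_lit 0x6401a003) (nat_lit 0))))) (N (nat_lit 7) (N (nat_lit 6) (L (E (nat_lit 3) (nat_lit 0x7400a001) (nat_lit 0))) (L (E (nat_lit 3) (nat_lit 0x5c00a001) (nat_lit 0)))) (N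 (nat_lit 8) (L (E (nat_lit 3) (nat_lit 0x6c01e003) (nat_lit 0))) (N (nat_lit 9) (L (E (nat_lit 3) (nat_lit 0x2400a001) (nat_lit 0))) (L (E (nat_lit 3) (nat_lit 0x14006001) (nat_lit 0))))))
def nbl : List Nat := [nat_lit 0x4802201000784, nat_lit 0x181, nat_lit 0x1400900283, nat_lit 0x0, nat_lit 0x0, nat_lit 0x0, nat_lit 0x0, nat_lit 0x0, nat_lit 0x0, nat_lit 0x0, nat_lit 0x0, nat_lit 0x0, nat_lit 0x0, nat_lit 0x0, nat_lit 0x0, nat_lit 0x0, nat_lit 0x0, nat_lit 0x0, nat_lit 0x0]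
def apl : List Nat := [nat_lit 0x4401e00d0048014006, nat_lit 0x4802000e006001c008, nat_lit 0x2c014009004001c00c]
theorem hpt : RA.all okp pt = true := by decide +kernel
theorem hN : chkN nb td1 pt nbl (nat_lit 0) = true := by decide +kernel
theorem hA : chkG cl (nat_lit 6) (apOK td1 pt (nat_lit 5)) apl (nat_lit 0) = true := by decide +kernel
def s0 : List Nat := [nat_lit 0x14002011, nat_lit 0x6400600d, nat_lit 0x400a01d, nat_lit 0x14002017]
theorem hs0 : chkG cl (nat_lit 3) (l3OK td9 td3 td12 pt) s0 (nat_lit 3) = true := by decide +kernel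
def s1 : List Nat := [nat_lit 0x3c036003]
theorem hs1 : chkG cl (nat_lit 3) (l3OK td16 td7 td7 pt) s1 (nat_lit 7) = true := by decide +kernel
def s2 : List Nat := [nat_lit 0x4012005]
theorem hs2 : chkG cl (nat_lit 3) (l3OK td9 td12 td21 pt) s2 (nat_lit 8) = true := by decide +kernel
def c0 : List Nat := [nat_lit 0x20000000800000000014021000601c80000044001005a0020037000200e800700cc003003600100b]
theorem t0 : chk cl nb (nat_lit 19) c0 (nat_lit 8) = true := by decide +kernel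

end

end APL.P7

namespace APL.P8

open APL.RA renaming leaf → L, node → N
open APL renaming dec → E

noncomputable section

set_option maxRecDepth 100000

def pt : RA := N (nat_lit 5) (N (nat_lit 3) (N (nat_lit 2) (N (nat_lit 1) (L (nat_lit 288234774265332736)) (L (nat_lit 288234774265594880))) (L (nat_lit 288234774265332740))) (N (nat_lit 4) (L (nat_lit 288234774265398271)) (L (nat_lit 288234774265398272)))) (N (nat_lit 7) (N (nat_lit 6) (L (nat_lit 288234774265398273)) (L (nat_lit 288234774265398274))) (N (nat_lit 8) (L (nat_lit 288234774265398275)) (L (nat_lit 288234774265398276))))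
def nb : RA := N (nat_lit 4) (N (nat_lit 2) (N (nat_lit 1) (L (E (nat_lit 2) (nat_lit 0x10006) (nat_lit 0))) (L (E (nat_lit 0) (nat_lit 0x0) (nat_lit 0)))) (N (nat_lit 3) (L (E (nat_lit 2) (nat_lit 0x2000e) (nat_lit 0))) (L (E (nat_lit 0) (nat_lit 0x0) (nat_lit 0))))) (N (nat_lit 7) (N (nat_lit 6) (N (nat_lit 5) (L (E (nat_lit 0) (nat_lit 0x0) (nat_lit 0))) (L (E (nat_lit 0) (nat_lit 0x0) (nat_lit 0)))) (L (E (nat_lit 0) (nat_lit 0x0) (nat_lit 0)))) (N (nat_lit 8) (L (E (nat_lit 0) (nat_lit 0x0) (nat_lit 0))) (L (E (nat_lit 0) (nat_lit 0x0) (nat_lit 0)))))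
def cl : RA := N (nat_lit 2) (N (nat_lit 1) (L (E (nat_lit 6) (nat_lit 0x2000e0060028010006) (nat_lit 0))) (L (E (nat_lit 3) (nat_lit 0x34006001) (nat_lit 0)))) (N (nat_lit 3) (L (E (nat_lit 3) (nat_lit 0x2c00a003) (nat_lit 0))) (L (E (nat_lit 3) (nat_lit 0x14006001) (nat_lit 0))))
def nbl : List Nat := [nat_lit 0x400182, nat_lit 0x0, nat_lit 0x800382, nat_lit 0x0, nat_lit 0x0, nat_lit 0x0, nat_lit 0x0, nat_lit 0x0, nat_lit 0x0]
def apl : List Nat := [nat_lit 0x2000e0060028010006]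
theorem hpt : RA.all okp pt = true := by decide +kernel
theorem hN : chkN nb td1 pt nbl (nat_lit 0) = true := by decide +kernel
theorem hA : chkG cl (nat_lit 6) (apOK td1 pt (nat_lit 5)) apl (nat_lit 0) = true := by decide +kernel
def s0 : List Nat := [nat_lit 0x34006001, nat_lit 0x2c00a003]
theorem hs0 : chkG cl (nat_lit 3) (l3OK td16 td7 td7 pt) s0 (nat_lit 1) = true := by decide +kernel
def c0 : List Nat := [nat_lit 0x4000000000010064000002a000804]
theorem t0 : chk cl nb (nat_lit 9) c0 (nat_lit 2) = true := by decide +kernel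

end

end APL.P8

namespace APL.P9

open APL.RA renaming leaf → L, node → N
open APL renaming dec → E

noncomputable section

set_option maxRecDepth 100000

def pt : RA := N (nat_lit 11) (N (nat_lit 6) (N (nat_lit 3) (N (nat_lit 2) (N (nat_lit 1) (L (nat_lit 288234774265332736)) (L (nat_lit 288234774265529344))) (L (nat_lit 288234774265136133))) (N (nat_lit 5) (N (nat_lit 4) (L (nat_lit 288234774265070597)) (L (nat_lit 288234774265136132))) (L (nat_lit 288234774265136134)))) (N (nat_lit 9) (N (nat_lit 8) (N (nat_lit 7) (L (nat_lit 288234774265201667)) (L (nat_lit 288234774265201669))) (L (nat_lit 288234774265267202))) (N (nat_lit 10) (L (nat_lit 288234774265267204)) (L (nat_lit 288234774265267205))))) (N (nat_lit 16) (N (nat_lit 14) (N (nat_lit 13) (N (nat_lit 12) (L (nat_lit 288234774265332737)) (L (nat_lit 288234774265332739))) (L (nat_lit 288234774265332740))) (N (nat_lit 15) (L (nat_lit 288234774265398272)) (L (nat_lit 288234774265398274))))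 (N (nat_lit 19) (N (nat_lit 18) (N (nat_lit 17) (L (nat_lit 288234774265398275)) (L (nat_lit 288234774265463809))) (L (nat_lit 288234774265463810))) (N (nat_lit 20) (L (nat_lit 288234774265529345)) (L (nat_lit 288234774265594880)))))
def nb : RA := N (nat_lit 10) (N (nat_lit 4) (N (nat_lit 2) (N (nat_lit 1) (L (E (nat_lit 2) (nat_lit 0x38016) (nat_lit 0))) (L (E (nat_lit 3) (nat_lit 0xa004c022) (nat_lit 0)))) (N (nat_lit 3) (L (E (nat_lit 4) (nat_lit 0x70028010006) (nat_lit 0))) (L (E (nat_lit 0) (nat_lit 0x0) (nat_lit 0))))) (N (nat_lit 7) (N (nat_lit 6) (N (nat_lit 5) (L (E (nat_lit 0) (nat_lit 0x0) (nat_lit 0))) (L (E (nat_lit 0) (nat_lit 0x0) (nat_lit 0)))) (L (E (nat_lit 0) (nat_lit 0x0) (nat_lit 0)))) (N (nat_lit 9) (N (nat_lit 8) (L (E (nat_lit 0) (nat_lit 0x0) (nat_lit 0))) (L (E (nat_lit 0) (nat_lit 0x0) (nat_lit 0)))) (L (E (nat_lit 0) (nat_lit 0x0) (nat_lit 0)))))) (N (nat_lit 15) (N (nat_lit 12) (N (nat_lit 11) (L (E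 (nat_lit 1) (nat_lit 0x12) (nat_lit 0))) (L (E (nat_lit 0) (nat_lit 0x0) (nat_lit 0)))) (N (nat_lit 14) (N (nat_lit 13) (L (E (nat_lit 0) (nat_lit 0x0) (nat_lit 0))) (L (E (nat_lit 0) (nat_lit 0x0) (nat_lit 0)))) (L (E (nat_lit 0) (nat_lit 0x0) (nat_lit 0))))) (N (nat_lit 18) (N (nat_lit 17) (N (nat_lit 16) (L (E (nat_lit 0) (nat_lit 0x0) (nat_lit 0))) (L (E (nat_lit 0) (nat_lit 0x0) (nat_lit 0)))) (L (E (nat_lit 0) (nat_lit 0x0) (nat_lit 0)))) (N (nat_lit 20) (N (nat_lit 19) (L (E (nat_lit 0) (nat_lit 0x0) (nat_lit 0))) (L (E (nat_lit 0) (nat_lit 0x0) (nat_lit 0)))) (L (E (nat_lit 0) (nat_lit 0x0) (nat_lit 0))))))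
def cl : RA := N (nat_lit 5) (N (nat_lit 3) (N (nat_lit 2) (N (nat_lit 1) (L (E (nat_lit 6) (nat_lit 0x380160080030010006) (nat_lit 0))) (L (E (nat_lit 6) (nat_lit 0x4401e00c004801c00a) (nat_lit 0)))) (L (E (nat_lit 6) (nat_lit 0x500260120080034014) (nat_lit 0)))) (N (nat_lit 4) (L (E (nat_lit 3) (nat_lit 0x64006001) (nat_lit 0))) (L (E (nat_lit 3) (nat_lit 0x44006001) (nat_lit 0))))) (N (nat_lit 7) (N (nat_lit 6) (L (E (nat_lit 3) (nat_lit 0x94006001) (nat_lit 0))) (L (E (nat_lit 3) (nat_lit 0x7c01a003) (nat_lit 0)))) (N (nat_lit 8) (L (E (nat_lit 3) (nat_lit 0x6c01a001) (nat_lit 0))) (N (nat_lit 9) (L (E (nat_lit 3) (nat_lit 0x8400a003) (nat_lit 0))) (L (E (nat_lit 3) (nat_lit 0x14006001) (nat_lit 0))))))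
def nbl : List Nat := [nat_lit 0xe00582, nat_lit 0x2801300883, nat_lit 0x1c00a00400184, nat_lit 0x0, nat_lit 0x0, nat_lit 0x0, nat_lit 0x0, nat_lit 0x0, nat_lit 0x0, nat_lit 0x0, nat_lit 0x481, nat_lit 0x0, nat_lit 0x0, nat_lit 0x0, nat_lit 0x0, nat_lit 0x0, nat_lit 0x0, nat_lit 0x0, nat_lit 0x0, nat_lit 0x0, nat_lit 0x0]
def apl : List Nat := [nat_lit 0xc008006004002c01c, nat_lit 0x1400e009006003c022, nat_lit 0x2801a010009004c028]
theorem hpt : RA.all okp pt = true := by decide +kernel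
theorem hN : chkN nb td1 pt nbl (nat_lit 0) = true := by decide +kernel
theorem hA : chkG cl (nat_lit 6) (apOK td1 pt (nat_lit 5)) apl (nat_lit 0) = true := by decide +kernel
def s0 : List Nat := [nat_lit 0x64006001]
theorem hs0 : chkG cl (nat_lit 3) (l3OK td9 td9 td9 pt) s0 (nat_lit 3) = true := by decide +kernel
def s1 : List Nat := [nat_lit 0x44006001, nat_lit 0x94002003]
theorem hs1 : chkG cl (nat_lit 3) (l3OK td9 td3 td12 pt) s1 (nat_lit 4) = true := by decide +kernel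
def s2 : List Nat := [nat_lit 0x3400601f]
theorem hs2 : chkG cl (nat_lit 3) (l3OK td4 td7 td19 pt) s2 (nat_lit 6) = true := by decide +kernel
def s3 : List Nat := [nat_lit 0x34036001]
theorem hs3 : chkG cl (nat_lit 3) (l3OK td16 td7 td7 pt) s3 (nat_lit 7) = true := by decide +kernel
def s4 : List Nat := [nat_lit 0x84006005]
theorem hs4 : chkG cl (nat_lit 3) (l3OK td31 td12 td7 pt) s4 (nat_lit 8) = true := by decide +kernel
def c0 : List Nat := [nat_lit 0x40000001000000000028062001002100060248000010400400360004035000401e800600ac0000028001c0c]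
theorem t0 : chk cl nb (nat_lit 21) c0 (nat_lit 8) = true := by decide +kernel

end

end APL.P9

namespace APL.P10

open APL.RA renaming leaf → L, node → N
open APL renaming dec → E

noncomputable section

set_option maxRecDepth 100000

def pt : RA := N (nat_lit 9) (N (nat_lit 5) (N (nat_lit 3) (N (nat_lit 2) (N (nat_lit 1) (L (nat_lit 288234774265332736)) (L (nat_lit 288234774265594880))) (L (nat_lit 288234774265267206))) (N (nat_lit 4) (L (nat_lit 288234774265201670)) (L (nat_lit 288234774265267201)))) (N (nat_lit 7) (N (nat_lit 6) (L (nat_lit 288234774265267205)) (L (nat_lit 288234774265332737))) (N (nat_lit 8) (L (nat_lit 288234774265332738)) (L (nat_lit 288234774265332739))))) (N (nat_lit 14) (N (nat_lit 12) (N (nat_lit 11) (N (nat_lit 10) (L (nat_lit 288234774265332740)) (L (nat_lit 288234774265332741))) (L (nat_lit 288234774265332742))) (N (nat_lit 13) (L (nat_lit 288234774265398273)) (L (nat_lit 288234774265398275)))) (N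 (nat_lit 16) (N (nat_lit 15) (L (nat_lit 288234774265463809)) (L (nat_lit 288234774265463810))) (N (nat_lit 17) (L (nat_lit 288234774265529345)) (L (nat_lit 288234774265594881)))))
def nb : RA := N (nat_lit 8) (N (nat_lit 3) (N (nat_lit 2) (N (nat_lit 1) (L (E (nat_lit 2) (nat_lit 0x18008) (nat_lit 0))) (L (E (nat_lit 2) (nat_lit 0x44020) (nat_lit 0)))) (L (E (nat_lit 4) (nat_lit 0xb0050014006) (nat_lit 0)))) (N (nat_lit 6) (N (nat_lit 5) (N (nat_lit 4) (L (E (nat_lit 0) (nat_lit 0x0) (nat_lit 0))) (L (E (nat_lit 0) (nat_lit 0x0) (nat_lit 0)))) (L (E (nat_lit 0) (nat_lit 0x0) (nat_lit 0)))) (N (nat_lit 7) (L (E (nat_lit 0) (nat_lit 0x0) (nat_lit 0))) (L (E (nat_lit 0) (nat_lit 0x0) (nat_lit 0)))))) (N (nat_lit 13) (N (nat_lit 11) (N (nat_lit 10) (N (nat_lit 9) (L (E (nat_lit 0) (nat_lit 0x0) (nat_lit 0))) (L (E (nat_lit 0) (nat_lit 0x0) (nat_lit 0)))) (L (E (nat_lit 0) (nat_lit 0x0) (nat_lit 0)))) (N (nat_lit 12) (L (E (nat_lit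 0) (nat_lit 0x0) (nat_lit 0))) (L (E (nat_lit 1) (nat_lit 0xe) (nat_lit 0))))) (N (nat_lit 15) (N (nat_lit 14) (L (E (nat_lit 1) (nat_lit 0x10) (nat_lit 0))) (L (E (nat_lit 0) (nat_lit 0x0) (nat_lit 0)))) (N (nat_lit 16) (L (E (nat_lit 1) (nat_lit 0x1c) (nat_lit 0))) (N (nat_lit 17) (L (E (nat_lit 0) (nat_lit 0x0) (nat_lit 0))) (L (E (nat_lit 0) (nat_lit 0x0) (nat_lit 0)))))))
def cl : RA := N (nat_lit 4) (N (nat_lit 2) (N (nat_lit 1) (L (E (nat_lit 6) (nat_lit 0x4402000e0060018008) (nat_lit 0))) (L (E (nat_lit 6) (nat_lit 0x2c014009004001c00c) (nat_lit 0)))) (N (nat_lit 3) (L (E (nat_lit 6) (nat_lit 0x4001e00d0048014006) (nat_lit 0))) (L (E (nat_lit 3) (nat_lit 0x6c01e003) (nat_lit 0))))) (N (nat_lit 6) (N (nat_lit 5) (L (E (nat_lit 3) (nat_lit 0x7c022001) (nat_lit 0))) (L (E (nat_lit 3) (nat_lit 0x4c006001) (nat_lit 0)))) (N (nat_lit 7) (L (E (nat_lit 4) (nat_lit 0xd8014006001) (nat_lit 0))) (L (E (nat_lit 3) (nat_lit 0x14006001)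 (nat_lit 0)))))
def nbl : List Nat := [nat_lit 0x600202, nat_lit 0x1100802, nat_lit 0x2c01400500184, nat_lit 0x0, nat_lit 0x0, nat_lit 0x0, nat_lit 0x0, nat_lit 0x0, nat_lit 0x0, nat_lit 0x0, nat_lit 0x0, nat_lit 0x0, nat_lit 0x381, nat_lit 0x401, nat_lit 0x0, nat_lit 0x701, nat_lit 0x0, nat_lit 0x0]
def apl : List Nat := [nat_lit 0x4402000e0060018008, nat_lit 0x2c014009004001c00c, nat_lit 0xc00a009006803c020]
theorem hpt : RA.all okp pt = true := by decide +kernel
theorem hN : chkN nb td1 pt nbl (nat_lit 0) = true := by decide +kernel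
theorem hA : chkG cl (nat_lit 6) (apOK td1 pt (nat_lit 5)) apl (nat_lit 0) = true := by decide +kernel
def s0 : List Nat := [nat_lit 0x3c00601b, nat_lit 0x7c002011]
theorem hs0 : chkG cl (nat_lit 3) (l3OK td9 td3 td12 pt) s0 (nat_lit 3) = true := by decide +kernel
def s1 : List Nat := [nat_lit 0x4c006001]
theorem hs1 : chkG cl (nat_lit 3) (l3OK td16 td16 td16 pt) s1 (nat_lit 5) = true := by decide +kernel
def c0 : List Nat := [nat_lit 0x340000004000000000000094002003e000805, nat_lit 0x1000000040000000000001a80010094002007e000001e0004010800600cc000003000140a]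
theorem t0 : chk cl nb (nat_lit 18) c0 (nat_lit 5) = true := by decide +kernel

end

end APL.P10

namespace APL.P11

open APL.RA renaming leaf → L, node → N
open APL renaming dec → E

noncomputable section

set_option maxRecDepth 100000

def pt0 : RA := N (nat_lit 27) (N (nat_lit 14) (N (nat_lit 7) (N (nat_lit 4) (N (nat_lit 2) (N (nat_lit 1) (L (nat_lit 288234774265332736)) (L (nat_lit 288234774265005057))) (N (nat_lit 3) (L (nat_lit 288234774265201668)) (L (nat_lit 288234774264808452)))) (N (nat_lit 6) (N (nat_lit 5) (L (nat_lit 288234774264873986)) (L (nat_lit 288234774264873988))) (L (nat_lit 288234774264939520)))) (N (nat_lit 11) (N (nat_lit 9) (N (nat_lit 8) (L (nat_lit 288234774264939521)) (L (nat_lit 288234774264939522))) (N (nat_lit 10) (L (nat_lit 288234774264939523)) (L (nat_lit 288234774264939524)))) (N (nat_lit 13) (N (nat_lit 12) (L (nat_lit 288234774265005054)) (L (nat_lit 288234774265005056))) (L (nat_lit 288234774265005058)))))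 (N (nat_lit 21) (N (nat_lit 18) (N (nat_lit 16) (N (nat_lit 15) (L (nat_lit 288234774265005060)) (L (nat_lit 288234774265070590))) (N (nat_lit 17) (L (nat_lit 288234774265070591)) (L (nat_lit 288234774265070592)))) (N (nat_lit 20) (N (nat_lit 19) (L (nat_lit 288234774265070593)) (L (nat_lit 288234774265070594))) (L (nat_lit 288234774265070595)))) (N (nat_lit 24) (N (nat_lit 23) (N (nat_lit 22) (L (nat_lit 288234774265070596)) (L (nat_lit 288234774265136126))) (L (nat_lit 288234774265136127))) (N (nat_lit 26) (N (nat_lit 25) (L (nat_lit 288234774265136128)) (L (nat_lit 288234774265136129))) (L (nat_lit 288234774265136130)))))) (N (nat_lit 41) (N (nat_lit 34) (N (nat_lit 31) (N (nat_lit 29) (N (nat_lit 28) (L (nat_lit 288234774265136132)) (L (nat_lit 288234774265201661))) (N (nat_lit 30) (L (nat_lit 288234774265201662)) (L (nat_lit 288234774265201663)))) (N (nat_lit 33) (N (nat_lit 32) (L (nat_lit 288234774265201664)) (L (nat_lit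 288234774265201665))) (L (nat_lit 288234774265201666)))) (N (nat_lit 38) (N (nat_lit 36) (N (nat_lit 35) (L (nat_lit 288234774265267196)) (L (nat_lit 288234774265267197))) (N (nat_lit 37) (L (nat_lit 288234774265267198)) (L (nat_lit 288234774265267199)))) (N (nat_lit 40) (N (nat_lit 39) (L (nat_lit 288234774265267200)) (L (nat_lit 288234774265267201))) (L (nat_lit 288234774265332732))))) (N (nat_lit 48) (N (nat_lit 45) (N (nat_lit 43) (N (nat_lit 42) (L (nat_lit 288234774265332733)) (L (nat_lit 288234774265332734))) (N (nat_lit 44) (L (nat_lit 288234774265332735)) (L (nat_lit 288234774265332737)))) (N (nat_lit 47) (N (nat_lit 46) (L (nat_lit 288234774265398267)) (L (nat_lit 288234774265398268))) (L (nat_lit 288234774265398269)))) (N (nat_lit 51) (N (nat_lit 50) (N (nat_lit 49) (L (nat_lit 288234774265398270)) (L (nat_lit 288234774265398271))) (L (nat_lit 288234774265398272))) (N (nat_lit 53) (N (nat_lit 52) (L (nat_lit 288234774265398273))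 (L (nat_lit 288234774265463806))) (L (nat_lit 288234774265529342))))))
def pt : RA := pt0
def nb0 : RA := N (nat_lit 26) (N (nat_lit 9) (N (nat_lit 2) (N (nat_lit 1) (L (E (nat_lit 6) (nat_lit 0xc806202c015809c04c) (nat_lit 0))) (L (E (nat_lit 5) (nat_lit 0x240110068030010) (nat_lit 0)))) (N (nat_lit 5) (N (nat_lit 3) (L (E (nat_lit 1) (nat_lit 0x36) (nat_lit 0))) (N (nat_lit 4) (L (E (nat_lit 0) (nat_lit 0x0) (nat_lit 0))) (L (E (nat_lit 0) (nat_lit 0x0) (nat_lit 0))))) (N (nat_lit 7) (N (nat_lit 6) (L (E (nat_lit 0) (nat_lit 0x0) (nat_lit 0))) (L (E (nat_lit 0) (nat_lit 0x0) (nat_lit 0)))) (N (nat_lit 8) (L (E (nat_lit 0) (nat_lit 0x0) (nat_lit 0))) (L (E (nat_lit 0) (nat_lit 0x0) (nat_lit 0))))))) (N (nat_lit 18) (N (nat_lit 14) (N (nat_lit 12) (N (nat_lit 11) (N (nat_lit 10) (L (E (nat_lit 0) (nat_lit 0x0) (nat_lit 0))) (L (E (nat_lit 0) (nat_lit 0x0) (nat_lit 0)))) (L (E (nat_lit 0) (nat_lit 0x0) (nat_lit 0)))) (N (nat_lit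 13) (L (E (nat_lit 0) (nat_lit 0x0) (nat_lit 0))) (L (E (nat_lit 0) (nat_lit 0x0) (nat_lit 0))))) (N (nat_lit 16) (N (nat_lit 15) (L (E (nat_lit 0) (nat_lit 0x0) (nat_lit 0))) (L (E (nat_lit 0) (nat_lit 0x0) (nat_lit 0)))) (N (nat_lit 17) (L (E (nat_lit 0) (nat_lit 0x0) (nat_lit 0))) (L (E (nat_lit 0) (nat_lit 0x0) (nat_lit 0)))))) (N (nat_lit 23) (N (nat_lit 21) (N (nat_lit 20) (N (nat_lit 19) (L (E (nat_lit 0) (nat_lit 0x0) (nat_lit 0))) (L (E (nat_lit 0) (nat_lit 0x0) (nat_lit 0)))) (L (E (nat_lit 0) (nat_lit 0x0) (nat_lit 0)))) (N (nat_lit 22) (L (E (nat_lit 0) (nat_lit 0x0) (nat_lit 0))) (L (E (nat_lit 0) (nat_lit 0x0) (nat_lit 0))))) (N (nat_lit 25) (N (nat_lit 24) (L (E (nat_lit 0) (nat_lit 0x0) (nat_lit 0))) (L (E (nat_lit 0) (nat_lit 0x0) (nat_lit 0)))) (L (E (nat_lit 2) (nat_lit 0x68026) (nat_lit 0))))))) (N (nat_lit 39) (N (nat_lit 34) (N (nat_lit 30) (N (nat_lit 28) (N (nat_lit 27) (L (E (nat_lit 0) (nat_lit 0x0) (nat_lit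 0))) (L (E (nat_lit 0) (nat_lit 0x0) (nat_lit 0)))) (N (nat_lit 29) (L (E (nat_lit 0) (nat_lit 0x0) (nat_lit 0))) (L (E (nat_lit 0) (nat_lit 0x0) (nat_lit 0))))) (N (nat_lit 32) (N (nat_lit 31) (L (E (nat_lit 0) (nat_lit 0x0) (nat_lit 0))) (L (E (nat_lit 0) (nat_lit 0x0) (nat_lit 0)))) (N (nat_lit 33) (L (E (nat_lit 0) (nat_lit 0x0) (nat_lit 0))) (L (E (nat_lit 0) (nat_lit 0x0) (nat_lit 0)))))) (N (nat_lit 36) (N (nat_lit 35) (L (E (nat_lit 1) (nat_lit 0x50) (nat_lit 0))) (L (E (nat_lit 3) (nat_lit 0x148088038) (nat_lit 0)))) (N (nat_lit 38) (N (nat_lit 37) (L (E (nat_lit 0) (nat_lit 0x0) (nat_lit 0))) (L (E (nat_lit 2) (nat_lit 0x7c03c) (nat_lit 0)))) (L (E (nat_lit 0) (nat_lit 0x0) (nat_lit 0)))))) (N (nat_lit 46) (N (nat_lit 43) (N (nat_lit 41) (N (nat_lit 40) (L (E (nat_lit 0) (nat_lit 0x0) (nat_lit 0))) (L (E (nat_lit 0) (nat_lit 0x0) (nat_lit 0)))) (N (nat_lit 42) (L (E (nat_lit 1) (nat_lit 0x54) (nat_lit 0))) (L (E (nat_lit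 0) (nat_lit 0x0) (nat_lit 0))))) (N (nat_lit 45) (N (nat_lit 44) (L (E (nat_lit 0) (nat_lit 0x0) (nat_lit 0))) (L (E (nat_lit 0) (nat_lit 0x0) (nat_lit 0)))) (L (E (nat_lit 1) (nat_lit 0x5c) (nat_lit 0))))) (N (nat_lit 50) (N (nat_lit 48) (N (nat_lit 47) (L (E (nat_lit 0) (nat_lit 0x0) (nat_lit 0))) (L (E (nat_lit 0) (nat_lit 0x0) (nat_lit 0)))) (N (nat_lit 49) (L (E (nat_lit 0) (nat_lit 0x0) (nat_lit 0))) (L (E (nat_lit 0) (nat_lit 0x0) (nat_lit 0))))) (N (nat_lit 52) (N (nat_lit 51) (L (E (nat_lit 0) (nat_lit 0x0) (nat_lit 0))) (L (E (nat_lit 0) (nat_lit 0x0) (nat_lit 0)))) (N (nat_lit 53) (L (E (nat_lit 0) (nat_lit 0x0) (nat_lit 0))) (L (E (nat_lit 0) (nat_lit 0x0) (nat_lit 0))))))))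
def nb : RA := nb0
def cl0 : RA := N (nat_lit 19) (N (nat_lit 10) (N (nat_lit 5) (N (nat_lit 3) (N (nat_lit 2) (N (nat_lit 1) (L (E (nat_lit 6) (nat_lit 0x6c02a00e0050014006) (nat_lit 0))) (L (E (nat_lit 6) (nat_lit 0x840340130068020008) (nat_lit 0)))) (L (E (nat_lit 6) (nat_lit 0x9803e018008803000c) (nat_lit 0)))) (N (nat_lit 4) (L (E (nat_lit 6) (nat_lit 0xa804801d00b003c016) (nat_lit 0))) (L (E (nat_lit 6) (nat_lit 0xcc0580270100064024) (nat_lit 0))))) (N (nat_lit 8) (N (nat_lit 7) (N (nat_lit 6) (L (E (nat_lit 6) (nat_lit 0xd4068030015009003a) (nat_lit 0))) (L (E (nat_lit 6) (nat_lit 0x78030012006802400a) (nat_lit 0)))) (L (E (nat_lit 6) (nat_lit 0x88038016008003000e) (nat_lit 0)))) (N (nat_lit 9) (L (E (nat_lit 6) (nat_lit 0x9c04c025012008c044) (nat_lit 0))) (L (E (nat_lit 6) (nat_lit 0xa404801e00c004801a) (nat_lit 0)))))) (N (nat_lit 15) (N (nat_lit 13) (N (nat_lit 12) (N (nat_lit 11) (L (E (nat_lit 6) (nat_lit 0xac04c02000d005001c)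 (nat_lit 0))) (L (E (nat_lit 6) (nat_lit 0xb405002300e805c022) (nat_lit 0)))) (L (E (nat_lit 6) (nat_lit 0xcc06403101800bc05c) (nat_lit 0)))) (N (nat_lit 14) (L (E (nat_lit 3) (nat_lit 0x1840b6045) (nat_lit 0))) (L (E (nat_lit 3) (nat_lit 0x10400a001) (nat_lit 0))))) (N (nat_lit 17) (N (nat_lit 16) (L (E (nat_lit 3) (nat_lit 0x11c06602d) (nat_lit 0))) (L (E (nat_lit 3) (nat_lit 0x19c00a001) (nat_lit 0)))) (N (nat_lit 18) (L (E (nat_lit 3) (nat_lit 0x8402e009) (nat_lit 0))) (L (E (nat_lit 3) (nat_lit 0x15408e033) (nat_lit 0))))))) (N (nat_lit 30) (N (nat_lit 25) (N (nat_lit 22) (N (nat_lit 21) (N (nat_lit 20) (L (E (nat_lit 3) (nat_lit 0x4c01a007) (nat_lit 0))) (L (E (nat_lit 3) (nat_lit 0x10c07a029) (nat_lit 0)))) (L (E (nat_lit 3) (nat_lit 0x1840b604b) (nat_lit 0)))) (N (nat_lit 24) (N (nat_lit 23) (L (E (nat_lit 3) (nat_lit 0x1a4066001) (nat_lit 0))) (L (E (nat_lit 3) (nat_lit 0xbc02a003) (nat_lit 0)))) (L (E (nat_lit 3) (nat_lit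 0x12c06602b) (nat_lit 0))))) (N (nat_lit 28) (N (nat_lit 27) (N (nat_lit 26) (L (E (nat_lit 3) (nat_lit 0x11406602f) (nat_lit 0))) (L (E (nat_lit 3) (nat_lit 0x144096033) (nat_lit 0)))) (L (E (nat_lit 3) (nat_lit 0x11c03e003) (nat_lit 0)))) (N (nat_lit 29) (L (E (nat_lit 3) (nat_lit 0x17c066001) (nat_lit 0))) (L (E (nat_lit 3) (nat_lit 0xc400a001) (nat_lit 0)))))) (N (nat_lit 35) (N (nat_lit 32) (N (nat_lit 31) (L (E (nat_lit 3) (nat_lit 0xec006001) (nat_lit 0))) (L (E (nat_lit 3) (nat_lit 0x7400a001) (nat_lit 0)))) (N (nat_lit 34) (N (nat_lit 33) (L (E (nat_lit 3) (nat_lit 0x11c06600f) (nat_lit 0))) (L (E (nat_lit 3) (nat_lit 0x12c016003) (nat_lit 0)))) (L (E (nat_lit 3) (nat_lit 0x1ac00a001) (nat_lit 0))))) (N (nat_lit 37) (N (nat_lit 36) (L (E (nat_lit 3) (nat_lit 0x12400a001) (nat_lit 0))) (L (E (nat_lit 5) (nat_lit 0x470048014006001) (nat_lit 0)))) (N (nat_lit 38) (L (E (nat_lit 5) (nat_lit 0x4a0230014006001) (nat_lit 0)))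 (N (nat_lit 39) (L (E (nat_lit 4) (nat_lit 0x238014006001) (nat_lit 0))) (L (E (nat_lit 3) (nat_lit 0x14006001) (nat_lit 0))))))))
def cl : RA := cl0
def nbl : List Nat := [nat_lit 0x3201880b005602701306, nat_lit 0x9004401a00c00405, nat_lit 0xd81, nat_lit 0x0, nat_lit 0x0, nat_lit 0x0, nat_lit 0x0, nat_lit 0x0, nat_lit 0x0, nat_lit 0x0, nat_lit 0x0, nat_lit 0x0, nat_lit 0x0, nat_lit 0x0, nat_lit 0x0, nat_lit 0x0, nat_lit 0x0, nat_lit 0x0, nat_lit 0x0, nat_lit 0x0, nat_lit 0x0, nat_lit 0x0, nat_lit 0x0, nat_lit 0x0, nat_lit 0x0, nat_lit 0x1a00982, nat_lit 0x0, nat_lit 0x0, nat_lit 0x0, nat_lit 0x0, nat_lit 0x0, nat_lit 0x0, nat_lit 0x0, nat_lit 0x0, nat_lit 0x1401, nat_lit 0x5202200e03, nat_lit 0x0, nat_lit 0x1f00f02, nat_lit 0x0, nat_lit 0x0, nat_lit 0x0, nat_lit 0x1501, nat_lit 0x0, nat_lit 0x0, nat_lit 0x0, nat_lit 0x1701, nat_lit 0x0, nat_lit 0x0, nat_lit 0x0, nat_lit 0x0, nat_lit 0x0, nat_lit 0x0, nat_lit 0x0, nat_lit 0x0]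
def apl : List Nat := [nat_lit 0x6c02a00e0050014006, nat_lit 0x840340130068020008, nat_lit 0x9803e018008803000c, nat_lit 0xa804801d00b003c016, nat_lit 0xcc0580270100064024, nat_lit 0xd4068030015009003a, nat_lit 0x1401200d009006003c, nat_lit 0x1c01801000b0070044, nat_lit 0x9c04c025012008c044, nat_lit 0x3402401800f0090052, nat_lit 0x3802801a0100098056, nat_lit 0x4402e01d01180a005a, nat_lit 0xcc06403101800bc05c]
theorem hpt : RA.all okp pt = true := by decide +kernel
theorem hN : chkN nb td1 pt nbl (nat_lit 0) = true := by decide +kernel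
theorem hA : chkG cl (nat_lit 6) (apOK td1 pt (nat_lit 5)) apl (nat_lit 0) = true := by decide +kernel
def s0 : List Nat := [nat_lit 0x1140c205b, nat_lit 0x400a041, nat_lit 0x11c06602d, nat_lit 0x400a067, nat_lit 0x5c012021, nat_lit 0x11c066055, nat_lit 0x1c01a013, nat_lit 0xa407a043, nat_lit 0x12c0b6061]
theorem hs0 : chkG cl (nat_lit 3) (l3OK td9 td3 td12 pt) s0 (nat_lit 13) = true := by decide +kernel
def s1 : List Nat := [nat_lit 0xcc0d2001, nat_lit 0x5405e003, nat_lit 0xac096033, nat_lit 0x11406602f, nat_lit 0x14406604b]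
theorem hs1 : chkG cl (nat_lit 3) (l3OK td4 td7 td19 pt) s1 (nat_lit 22) = true := by decide +kernel
def s2 : List Nat := [nat_lit 0x7c006047, nat_lit 0x406605f]
theorem hs2 : chkG cl (nat_lit 3) (l3OK td16 td7 td7 pt) s2 (nat_lit 27) = true := by decide +kernel
def s3 : List Nat := [nat_lit 0x14062001, nat_lit 0x400603b, nat_lit 0x403a005, nat_lit 0x11c01e033]
theorem hs3 : chkG cl (nat_lit 3) (l3OK td9 td12 td21 pt) s3 (nat_lit 29) = true := by decide +kernel
def s4 : List Nat := [nat_lit 0xc01604b, nat_lit 0x40d6005, nat_lit 0x4092005]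
theorem hs4 : chkG cl (nat_lit 3) (l3OK td31 td12 td7 pt) s4 (nat_lit 33) = true := by decide +kernel
def c0 : List Nat := [nat_lit 0x11800000040000000002a0408013033400280ea0000091003e033801401640088152002003d000600e801c010c010005e00480e, nat_lit 0x8000000000580810028066800601d400081220080067003804580000110004017a002c05d003205b8000016800b818200600e, nat_lit 0x11800000040000000002e0408015033400400c2001803900040488021019c0000064007007b00020088024021c00d80a600440e, nat_lit 0x2000000080000000000008d00300408016033400480c20020075000e01c800403540018122000409700000250022019c00601420014015001c02a80100344010004e00740a700000290024006c009801a00840c3004c015801102d400780ba006c1b]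
theorem t0 : chk cl nb (nat_lit 54) c0 (nat_lit 35) = true := by decide +kernel

end

end APL.P11

namespace APL.P16

open APL.RA renaming leaf → L, node → N
open APL renaming dec → E

noncomputable section

set_option maxRecDepth 100000

def pt : RA := N (nat_lit 13) (N (nat_lit 7) (N (nat_lit 4) (N (nat_lit 2) (N (nat_lit 1) (L (nat_lit 288234774265332736)) (L (nat_lit 288234774264939521))) (N (nat_lit 3) (L (nat_lit 288234774265267202)) (L (nat_lit 288234774264873987)))) (N (nat_lit 6) (N (nat_lit 5) (L (nat_lit 288234774264939522)) (L (nat_lit 288234774264939526))) (L (nat_lit 288234774265005057)))) (N (nat_lit 10) (N (nat_lit 9) (N (nat_lit 8) (L (nat_lit 288234774265005061)) (L (nat_lit 288234774265070592))) (L (nat_lit 288234774265070596))) (N (nat_lit 12) (N (nat_lit 11) (L (nat_lit 288234774265136127)) (L (nat_lit 288234774265136128))) (L (nat_lit 288234774265136129))))) (N (nat_lit 19) (N (nat_lit 16) (N (nat_lit 15)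 (N (nat_lit 14) (L (nat_lit 288234774265136130)) (L (nat_lit 288234774265136131))) (L (nat_lit 288234774265136132))) (N (nat_lit 18) (N (nat_lit 17) (L (nat_lit 288234774265136133)) (L (nat_lit 288234774265201662))) (L (nat_lit 288234774265201666)))) (N (nat_lit 22) (N (nat_lit 21) (N (nat_lit 20) (L (nat_lit 288234774265267196)) (L (nat_lit 288234774265267197))) (L (nat_lit 288234774265267198))) (N (nat_lit 24) (N (nat_lit 23) (L (nat_lit 288234774265267199)) (L (nat_lit 288234774265267200))) (L (nat_lit 288234774265267201)))))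
def nb : RA := N (nat_lit 11) (N (nat_lit 5) (N (nat_lit 2) (N (nat_lit 1) (L (E (nat_lit 2) (nat_lit 0x6002e) (nat_lit 0))) (L (E (nat_lit 2) (nat_lit 0x18008) (nat_lit 0)))) (N (nat_lit 3) (L (E (nat_lit 1) (nat_lit 0x24) (nat_lit 0))) (N (nat_lit 4) (L (E (nat_lit 0) (nat_lit 0x0) (nat_lit 0))) (L (E (nat_lit 0) (nat_lit 0x0) (nat_lit 0)))))) (N (nat_lit 9) (N (nat_lit 7) (N (nat_lit 6) (L (E (nat_lit 0) (nat_lit 0x0) (nat_lit 0))) (L (E (nat_lit 0) (nat_lit 0x0) (nat_lit 0)))) (N (nat_lit 8) (L (E (nat_lit 0) (nat_lit 0x0) (nat_lit 0))) (L (E (nat_lit 0) (nat_lit 0x0) (nat_lit 0))))) (N (nat_lit 10) (L (E (nat_lit 1) (nat_lit 0x1e) (nat_lit 0))) (L (E (nat_lit 0) (nat_lit 0x0) (nat_lit 0)))))) (N (nat_lit 19) (N (nat_lit 15) (N (nat_lit 13) (N (nat_lit 12) (L (E (nat_lit 0) (nat_lit 0x0) (nat_lit 0))) (L (E (nat_lit 0) (nat_lit 0x0) (nat_lit 0)))) (N (nat_lit 14) (L (E (nat_lit 0) (nat_lit 0x0) (nat_lit 0))) (L (E (nat_lit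 0) (nat_lit 0x0) (nat_lit 0))))) (N (nat_lit 17) (N (nat_lit 16) (L (E (nat_lit 0) (nat_lit 0x0) (nat_lit 0))) (L (E (nat_lit 0) (nat_lit 0x0) (nat_lit 0)))) (N (nat_lit 18) (L (E (nat_lit 0) (nat_lit 0x0) (nat_lit 0))) (L (E (nat_lit 0) (nat_lit 0x0) (nat_lit 0)))))) (N (nat_lit 22) (N (nat_lit 21) (N (nat_lit 20) (L (E (nat_lit 0) (nat_lit 0x0) (nat_lit 0))) (L (E (nat_lit 0) (nat_lit 0x0) (nat_lit 0)))) (L (E (nat_lit 1) (nat_lit 0x22) (nat_lit 0)))) (N (nat_lit 24) (N (nat_lit 23) (L (E (nat_lit 0) (nat_lit 0x0) (nat_lit 0))) (L (E (nat_lit 0) (nat_lit 0x0) (nat_lit 0)))) (L (E (nat_lit 0) (nat_lit 0x0) (nat_lit 0))))))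
def cl : RA := N (nat_lit 8) (N (nat_lit 4) (N (nat_lit 2) (N (nat_lit 1) (L (E (nat_lit 6) (nat_lit 0x4001e00e0068030016) (nat_lit 0))) (L (E (nat_lit 6) (nat_lit 0x440140080030010006) (nat_lit 0)))) (N (nat_lit 3) (L (E (nat_lit 6) (nat_lit 0x6002e01600a8050026) (nat_lit 0))) (L (E (nat_lit 6) (nat_lit 0x6002400e004801c00a) (nat_lit 0))))) (N (nat_lit 6) (N (nat_lit 5) (L (E (nat_lit 3) (nat_lit 0x5c00a001) (nat_lit 0))) (L (E (nat_lit 3) (nat_lit 0xac036015) (nat_lit 0)))) (N (nat_lit 7) (L (E (nat_lit 3) (nat_lit 0xac022001) (nat_lit 0))) (L (E (nat_lit 3) (nat_lit 0xac032005) (nat_lit 0)))))) (N (nat_lit 12) (N (nat_lit 10) (N (nat_lit 9) (L (E (nat_lit 3) (nat_lit 0x74006001) (nat_lit 0))) (L (E (nat_lit 3) (nat_lit 0xb400a003) (nat_lit 0)))) (N (nat_lit 11) (L (E (nat_lit 3) (nat_lit 0x8400a003) (nat_lit 0))) (L (E (nat_lit 3) (nat_lit 0xac00e001) (nat_lit 0))))) (N (nat_lit 14) (N (nat_lit 13) (L (E (nat_lit 3) (nat_lit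 0x3c006001) (nat_lit 0))) (L (E (nat_lit 3) (nat_lit 0x2c00a003) (nat_lit 0)))) (N (nat_lit 15) (L (E (nat_lit 3) (nat_lit 0xa400a003) (nat_lit 0))) (N (nat_lit 16) (L (E (nat_lit 3) (nat_lit 0x9c006001) (nat_lit 0))) (L (E (nat_lit 3) (nat_lit 0x14006001) (nat_lit 0)))))))
def nbl : List Nat := [nat_lit 0x1800b82, nat_lit 0x600202, nat_lit 0x901, nat_lit 0x0, nat_lit 0x0, nat_lit 0x0, nat_lit 0x0, nat_lit 0x0, nat_lit 0x0, nat_lit 0x781, nat_lit 0x0, nat_lit 0x0, nat_lit 0x0, nat_lit 0x0, nat_lit 0x0, nat_lit 0x0, nat_lit 0x0, nat_lit 0x0, nat_lit 0x0, nat_lit 0x0, nat_lit 0x0, nat_lit 0x881, nat_lit 0x0, nat_lit 0x0, nat_lit 0x0]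
def apl : List Nat := [nat_lit 0x4001e00e0068030016, nat_lit 0xc0080060040028022, nat_lit 0x6002e01600a8050026, nat_lit 0x1400e0090070048030]
theorem hpt : RA.all okp pt = true := by decide +kernel
theorem hN : chkN nb td1 pt nbl (nat_lit 0) = true := by decide +kernel
theorem hA : chkG cl (nat_lit 6) (apOK td1 pt (nat_lit 5)) apl (nat_lit 0) = true := by decide +kernel
def s0 : List Nat := [nat_lit 0x1402e001, nat_lit 0xac036015]
theorem hs0 : chkG cl (nat_lit 3) (l3OK td9 td3 td12 pt) s0 (nat_lit 4) = true := by decide +kernel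
def s1 : List Nat := [nat_lit 0xac002011, nat_lit 0x6400a02b]
theorem hs1 : chkG cl (nat_lit 3) (l3OK td16 td7 td7 pt) s1 (nat_lit 6) = true := by decide +kernel
def s2 : List Nat := [nat_lit 0xc00201d, nat_lit 0xc00a02d]
theorem hs2 : chkG cl (nat_lit 3) (l3OK td9 td19 td31 pt) s2 (nat_lit 8) = true := by decide +kernel
def s3 : List Nat := [nat_lit 0x8400a003, nat_lit 0x4056007]
theorem hs3 : chkG cl (nat_lit 3) (l3OK td31 td37 td7 pt) s3 (nat_lit 10) = true := by decide +kernel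
def s4 : List Nat := [nat_lit 0xc00200f, nat_lit 0x1400600b, nat_lit 0xc00a029, nat_lit 0x4006027]
theorem hs4 : chkG cl (nat_lit 3) (l3OK td25 td21 td31 pt) s4 (nat_lit 12) = true := by decide +kernel
def c0 : List Nat := [nat_lit 0x4000000100000000005805a000004d000e01c80060164001803a0004051000a0208002005400680ae000002a001801380000048004804200200310008006800e00ac007806e002814]
theorem t0 : chk cl nb (nat_lit 25) c0 (nat_lit 15) = true := by decide +kernel

end

end APL.P16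

namespace APL.P19

open APL.RA renaming leaf → L, node → N
open APL renaming dec → E

noncomputable section

set_option maxRecDepth 100000

def pt : RA := N (nat_lit 13) (N (nat_lit 7) (N (nat_lit 4) (N (nat_lit 2) (N (nat_lit 1) (L (nat_lit 288234774265332736)) (L (nat_lit 288234774265463808))) (N (nat_lit 3) (L (nat_lit 288234774265201666)) (L (nat_lit 288234774265070593)))) (N (nat_lit 6) (N (nat_lit 5) (L (nat_lit 288234774265136129)) (L (nat_lit 288234774265201665))) (L (nat_lit 288234774265267196)))) (N (nat_lit 10) (N (nat_lit 9) (N (nat_lit 8) (L (nat_lit 288234774265267198)) (L (nat_lit 288234774265267199))) (L (nat_lit 288234774265267200))) (N (nat_lit 12) (N (nat_lit 11) (L (nat_lit 288234774265267201)) (L (nat_lit 288234774265267202))) (L (nat_lit 288234774265267203))))) (N (nat_lit 20) (N (nat_lit 17) (N (nat_lit 15) (N (nat_lit 14) (L (nat_lit 288234774265332732)) (L (nat_lit 288234774265332737))) (N (nat_lit 16)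 (L (nat_lit 288234774265398268)) (L (nat_lit 288234774265398273)))) (N (nat_lit 19) (N (nat_lit 18) (L (nat_lit 288234774265463804)) (L (nat_lit 288234774265529340))) (L (nat_lit 288234774265594876)))) (N (nat_lit 23) (N (nat_lit 22) (N (nat_lit 21) (L (nat_lit 288234774265594877)) (L (nat_lit 288234774265594878))) (L (nat_lit 288234774265594879))) (N (nat_lit 25) (N (nat_lit 24) (L (nat_lit 288234774265594880)) (L (nat_lit 288234774265594881))) (L (nat_lit 288234774265594882)))))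
def nb : RA := N (nat_lit 12) (N (nat_lit 5) (N (nat_lit 2) (N (nat_lit 1) (L (E (nat_lit 3) (nat_lit 0x70028012) (nat_lit 0))) (L (E (nat_lit 1) (nat_lit 0x20) (nat_lit 0)))) (N (nat_lit 3) (L (E (nat_lit 2) (nat_lit 0x2c00a) (nat_lit 0))) (N (nat_lit 4) (L (E (nat_lit 0) (nat_lit 0x0) (nat_lit 0))) (L (E (nat_lit 0) (nat_lit 0x0) (nat_lit 0)))))) (N (nat_lit 9) (N (nat_lit 7) (N (nat_lit 6) (L (E (nat_lit 0) (nat_lit 0x0) (nat_lit 0))) (L (E (nat_lit 0) (nat_lit 0x0) (nat_lit 0)))) (N (nat_lit 8) (L (E (nat_lit 0) (nat_lit 0x0) (nat_lit 0))) (L (E (nat_lit 0) (nat_lit 0x0) (nat_lit 0))))) (N (nat_lit 11) (N (nat_lit 10) (L (E (nat_lit 0) (nat_lit 0x0) (nat_lit 0))) (L (E (nat_lit 0) (nat_lit 0x0) (nat_lit 0)))) (L (E (nat_lit 0) (nat_lit 0x0) (nat_lit 0)))))) (N (nat_lit 19) (N (nat_lit 16) (N (nat_lit 14) (N (nat_lit 13) (L (E (nat_lit 0) (nat_lit 0x0) (nat_lit 0))) (L (E (nat_lit 0) (nat_lit 0x0) (nat_lit 0)))) (N (nat_lit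 15) (L (E (nat_lit 0) (nat_lit 0x0) (nat_lit 0))) (L (E (nat_lit 0) (nat_lit 0x0) (nat_lit 0))))) (N (nat_lit 18) (N (nat_lit 17) (L (E (nat_lit 0) (nat_lit 0x0) (nat_lit 0))) (L (E (nat_lit 0) (nat_lit 0x0) (nat_lit 0)))) (L (E (nat_lit 0) (nat_lit 0x0) (nat_lit 0))))) (N (nat_lit 23) (N (nat_lit 21) (N (nat_lit 20) (L (E (nat_lit 0) (nat_lit 0x0) (nat_lit 0))) (L (E (nat_lit 0) (nat_lit 0x0) (nat_lit 0)))) (N (nat_lit 22) (L (E (nat_lit 0) (nat_lit 0x0) (nat_lit 0))) (L (E (nat_lit 0) (nat_lit 0x0) (nat_lit 0))))) (N (nat_lit 25) (N (nat_lit 24) (L (E (nat_lit 0) (nat_lit 0x0) (nat_lit 0))) (L (E (nat_lit 0) (nat_lit 0x0) (nat_lit 0)))) (L (E (nat_lit 0) (nat_lit 0x0) (nat_lit 0))))))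
def cl : RA := N (nat_lit 9) (N (nat_lit 5) (N (nat_lit 3) (N (nat_lit 2) (N (nat_lit 1) (L (E (nat_lit 6) (nat_lit 0x4001c00a0028010006) (nat_lit 0))) (L (E (nat_lit 6) (nat_lit 0x4c024011007803400c) (nat_lit 0)))) (L (E (nat_lit 6) (nat_lit 0x3001600a004802000e) (nat_lit 0)))) (N (nat_lit 4) (L (E (nat_lit 6) (nat_lit 0x6403001700b0054028) (nat_lit 0))) (L (E (nat_lit 3) (nat_lit 0x6400a003) (nat_lit 0))))) (N (nat_lit 7) (N (nat_lit 6) (L (E (nat_lit 3) (nat_lit 0xb404e003) (nat_lit 0))) (L (E (nat_lit 3) (nat_lit 0xbc006001) (nat_lit 0)))) (N (nat_lit 8) (L (E (nat_lit 3) (nat_lit 0x3c006001) (nat_lit 0))) (L (E (nat_lit 3) (nat_lit 0x6c022009) (nat_lit 0)))))) (N (nat_lit 14) (N (nat_lit 12) (N (nat_lit 11) (N (nat_lit 10) (L (E (nat_lit 3) (nat_lit 0x1c00a003) (nat_lit 0))) (L (E (nat_lit 3) (nat_lit 0xc400a003) (nat_lit 0)))) (L (E (nat_lit 3) (nat_lit 0xa400a003) (nat_lit 0)))) (N (nat_lit 13) (L (E (nat_lit 3) (nat_lit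 0x7c00a003) (nat_lit 0))) (L (E (nat_lit 3) (nat_lit 0x3400a003) (nat_lit 0))))) (N (nat_lit 16) (N (nat_lit 15) (L (E (nat_lit 3) (nat_lit 0x9400a003) (nat_lit 0))) (L (E (nat_lit 3) (nat_lit 0xcc006001) (nat_lit 0)))) (N (nat_lit 17) (L (E (nat_lit 3) (nat_lit 0xac00a001) (nat_lit 0))) (N (nat_lit 18) (L (E (nat_lit 3) (nat_lit 0x8c00a001) (nat_lit 0))) (L (E (nat_lit 3) (nat_lit 0x14006001) (nat_lit 0)))))))
def nbl : List Nat := [nat_lit 0x1c00a00483, nat_lit 0x801, nat_lit 0xb00282, nat_lit 0x0, nat_lit 0x0, nat_lit 0x0, nat_lit 0x0, nat_lit 0x0, nat_lit 0x0, nat_lit 0x0, nat_lit 0x0, nat_lit 0x0, nat_lit 0x0, nat_lit 0x0, nat_lit 0x0, nat_lit 0x0, nat_lit 0x0, nat_lit 0x0, nat_lit 0x0, nat_lit 0x0, nat_lit 0x0, nat_lit 0x0, nat_lit 0x0, nat_lit 0x0, nat_lit 0x0, nat_lit 0x0]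
def apl : List Nat := [nat_lit 0x4001c00a0028010006, nat_lit 0x4c024011007803400c, nat_lit 0x3001600a004802000e, nat_lit 0x6403001700b0054028]
theorem hpt : RA.all okp pt = true := by decide +kernel
theorem hN : chkN nb td1 pt nbl (nat_lit 0) = true := by decide +kernel
theorem hA : chkG cl (nat_lit 6) (apOK td1 pt (nat_lit 5)) apl (nat_lit 0) = true := by decide +kernel
def s0 : List Nat := [nat_lit 0x14006019, nat_lit 0xc04e02d]
theorem hs0 : chkG cl (nat_lit 3) (l3OK td9 td3 td12 pt) s0 (nat_lit 4) = true := by decide +kernel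
def s1 : List Nat := [nat_lit 0xbc006001]
theorem hs1 : chkG cl (nat_lit 3) (l3OK td4 td16 td4 pt) s1 (nat_lit 6) = true := by decide +kernel
def s2 : List Nat := [nat_lit 0x3c006001, nat_lit 0x6c012011]
theorem hs2 : chkG cl (nat_lit 3) (l3OK td4 td7 td19 pt) s2 (nat_lit 7) = true := by decide +kernel
def s3 : List Nat := [nat_lit 0x1400e003, nat_lit 0xc062005, nat_lit 0xc052005]
theorem hs3 : chkG cl (nat_lit 3) (l3OK td31 td12 td7 pt) s3 (nat_lit 9) = true := by decide +kernel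
def s4 : List Nat := [nat_lit 0x1403e003]
theorem hs4 : chkG cl (nat_lit 3) (l3OK td21 td12 td27 pt) s4 (nat_lit 12) = true := by decide +kernel
def s5 : List Nat := [nat_lit 0xc01a005]
theorem hs5 : chkG cl (nat_lit 3) (l3OK td31 td12 td37 pt) s5 (nat_lit 13) = true := by decide +kernel
def s6 : List Nat := [nat_lit 0xc00a025]
theorem hs6 : chkG cl (nat_lit 3) (l3OK td31 td13 td12 pt) s6 (nat_lit 14) = true := by decide +kernel
def s7 : List Nat := [nat_lit 0xcc002003, nat_lit 0xac00a001, nat_lit 0x8c00a001]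
theorem hs7 : chkG cl (nat_lit 3) (l3OK td4 td12 td28 pt) s7 (nat_lit 15) = true := by decide +kernel
def c0 : List Nat := [nat_lit 0x4000000100000000005003a00040550000022800b0174004001a001c061000c028800500f40020032000c0490004032800d00c400780460044013001c02d800900d4006009a004014]
theorem t0 : chk cl nb (nat_lit 26) c0 (nat_lit 17) = true := by decide +kernel

end

end APL.P19

namespace APL.P20

open APL.RA renaming leaf → L, node → N
open APL renaming dec → E

noncomputable section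

set_option maxRecDepth 100000

def pt : RA := N (nat_lit 5) (N (nat_lit 3) (N (nat_lit 2) (N (nat_lit 1) (L (nat_lit 288234774265332736)) (L (nat_lit 288234774265463808))) (L (nat_lit 288234774265201668))) (N (nat_lit 4) (L (nat_lit 288234774265594878)) (L (nat_lit 288234774265594879)))) (N (nat_lit 7) (N (nat_lit 6) (L (nat_lit 288234774265594880)) (L (nat_lit 288234774265594881))) (N (nat_lit 8) (L (nat_lit 288234774265594882)) (L (nat_lit 288234774265594883))))
def nb : RA := N (nat_lit 5) (N (nat_lit 3) (N (nat_lit 2) (N (nat_lit 1) (L (E (nat_lit 0) (nat_lit 0x0) (nat_lit 0))) (L (E (nat_lit 0) (nat_lit 0x0) (nat_lit 0)))) (L (E (nat_lit 0) (nat_lit 0x0) (nat_lit 0)))) (N (nat_lit 4) (L (E (nat_lit 0) (nat_lit 0x0) (nat_lit 0))) (L (E (nat_lit 0) (nat_lit 0x0) (nat_lit 0))))) (N (nat_lit 7) (N (nat_lit 6) (L (E (nat_lit 0) (nat_lit 0x0) (nat_lit 0))) (L (E (nat_lit 0) (nat_lit 0x0) (nat_lit 0)))) (N (nat_lit 8) (L (E (nat_lit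 0) (nat_lit 0x0) (nat_lit 0))) (L (E (nat_lit 0) (nat_lit 0x0) (nat_lit 0)))))
def cl : RA := N (nat_lit 4) (N (nat_lit 2) (N (nat_lit 1) (L (E (nat_lit 6) (nat_lit 0x2000e0060028010006) (nat_lit 0))) (L (E (nat_lit 3) (nat_lit 0x2c006001) (nat_lit 0)))) (N (nat_lit 3) (L (E (nat_lit 3) (nat_lit 0x3400a001) (nat_lit 0))) (L (E (nat_lit 3) (nat_lit 0x4400a001) (nat_lit 0))))) (N (nat_lit 6) (N (nat_lit 5) (L (E (nat_lit 3) (nat_lit 0x2400a001) (nat_lit 0))) (L (E (nat_lit 3) (nat_lit 0x3c006001) (nat_lit 0)))) (N (nat_lit 7) (L (E (nat_lit 3) (nat_lit 0x1c006001) (nat_lit 0))) (L (E (nat_lit 3) (nat_lit 0x14006001) (nat_lit 0)))))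
def nbl : List Nat := [nat_lit 0x0, nat_lit 0x0, nat_lit 0x0, nat_lit 0x0, nat_lit 0x0, nat_lit 0x0, nat_lit 0x0, nat_lit 0x0, nat_lit 0x0]
def apl : List Nat := [nat_lit 0x2000e0060028010006]
theorem hpt : RA.all okp pt = true := by decide +kernel
theorem hN : chkN nb td1 pt nbl (nat_lit 0) = true := by decide +kernel
theorem hA : chkG cl (nat_lit 6) (apOK td1 pt (nat_lit 5)) apl (nat_lit 0) = true := by decide +kernel
def s0 : List Nat := [nat_lit 0x2c006001]
theorem hs0 : chkG cl (nat_lit 3) (l3OK td4 td16 td4 pt) s0 (nat_lit 1) = true := by decide +kernel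
def s1 : List Nat := [nat_lit 0x1401a001]
theorem hs1 : chkG cl (nat_lit 3) (l3OK td21 td12 td27 pt) s1 (nat_lit 2) = true := by decide +kernel
def s2 : List Nat := [nat_lit 0x4022005]
theorem hs2 : chkG cl (nat_lit 3) (l3OK td31 td12 td37 pt) s2 (nat_lit 3) = true := by decide +kernel
def s3 : List Nat := [nat_lit 0x400a009]
theorem hs3 : chkG cl (nat_lit 3) (l3OK td31 td13 td12 pt) s3 (nat_lit 4) = true := by decide +kernel
def s4 : List Nat := [nat_lit 0x3c002003]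
theorem hs4 : chkG cl (nat_lit 3) (l3OK td4 td12 td28 pt) s4 (nat_lit 5) = true := by decide +kernel
def s5 : List Nat := [nat_lit 0x400e003]
theorem hs5 : chkG cl (nat_lit 3) (l3OK td4 td4 td12 pt) s5 (nat_lit 6) = true := by decide +kernel
def c0 : List Nat := [nat_lit 0x4006400180420008011000000680050054000803a001806]
theorem t0 : chk cl nb (nat_lit 9) c0 (nat_lit 6) = true := by decide +kernel

end

end APL.P20

namespace APL.P21

open APL.RA renaming leaf → L, node → N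
open APL renaming dec → E

noncomputable section

set_option maxRecDepth 100000

def pt : RA := N (nat_lit 7) (N (nat_lit 4) (N (nat_lit 2) (N (nat_lit 1) (L (nat_lit 288234774265332736)) (L (nat_lit 288234774265594880))) (N (nat_lit 3) (L (nat_lit 288234774265201668)) (L (nat_lit 288234774265267203)))) (N (nat_lit 6) (N (nat_lit 5) (L (nat_lit 288234774265332738)) (L (nat_lit 288234774265398271))) (L (nat_lit 288234774265398272)))) (N (nat_lit 11) (N (nat_lit 9) (N (nat_lit 8) (L (nat_lit 288234774265398273)) (L (nat_lit 288234774265398274))) (N (nat_lit 10) (L (nat_lit 288234774265398275)) (L (nat_lit 288234774265398276)))) (N (nat_lit 13) (N (nat_lit 12) (L (nat_lit 288234774265463808)) (L (nat_lit 288234774265529343))) (L (nat_lit 288234774265594878))))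
def nb : RA := N (nat_lit 6) (N (nat_lit 3) (N (nat_lit 2) (N (nat_lit 1) (L (E (nat_lit 2) (nat_lit 0x1800a) (nat_lit 0))) (L (E (nat_lit 0) (nat_lit 0x0) (nat_lit 0)))) (L (E (nat_lit 1) (nat_lit 0x6) (nat_lit 0)))) (N (nat_lit 5) (N (nat_lit 4) (L (E (nat_lit 0) (nat_lit 0x0) (nat_lit 0))) (L (E (nat_lit 0) (nat_lit 0x0) (nat_lit 0)))) (L (E (nat_lit 0) (nat_lit 0x0) (nat_lit 0))))) (N (nat_lit 10) (N (nat_lit 8) (N (nat_lit 7) (L (E (nat_lit 0) (nat_lit 0x0) (nat_lit 0))) (L (E (nat_lit 0) (nat_lit 0x0) (nat_lit 0)))) (N (nat_lit 9) (L (E (nat_lit 0) (nat_lit 0x0) (nat_lit 0))) (L (E (nat_lit 0) (nat_lit 0x0) (nat_lit 0))))) (N (nat_lit 12) (N (nat_lit 11) (L (E (nat_lit 0) (nat_lit 0x0) (nat_lit 0))) (L (E (nat_lit 0) (nat_lit 0x0) (nat_lit 0)))) (N (nat_lit 13) (L (E (nat_lit 0) (nat_lit 0x0) (nat_lit 0))) (L (E (nat_lit 0) (nat_lit 0x0) (nat_lit 0))))))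
def cl : RA := N (nat_lit 5) (N (nat_lit 3) (N (nat_lit 2) (N (nat_lit 1) (L (E (nat_lit 6) (nat_lit 0x28012008003801800a) (nat_lit 0))) (L (E (nat_lit 6) (nat_lit 0x3401800b0038010006) (nat_lit 0)))) (L (E (nat_lit 3) (nat_lit 0x3c00a001) (nat_lit 0)))) (N (nat_lit 4) (L (E (nat_lit 3) (nat_lit 0x64026003) (nat_lit 0))) (L (E (nat_lit 3) (nat_lit 0x5c006001) (nat_lit 0))))) (N (nat_lit 7) (N (nat_lit 6) (L (E (nat_lit 3) (nat_lit 0x44006001) (nat_lit 0))) (L (E (nat_lit 3) (nat_lit 0x5400a001) (nat_lit 0)))) (N (nat_lit 8) (L (E (nat_lit 3) (nat_lit 0x2400a001) (nat_lit 0))) (N (nat_lit 9) (L (E (nat_lit 3) (nat_lit 0x6c006001) (nat_lit 0))) (L (E (nat_lit 3) (nat_lit 0x14006001) (nat_lit 0))))))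
def nbl : List Nat := [nat_lit 0x600282, nat_lit 0x0, nat_lit 0x181, nat_lit 0x0, nat_lit 0x0, nat_lit 0x0, nat_lit 0x0, nat_lit 0x0, nat_lit 0x0, nat_lit 0x0, nat_lit 0x0, nat_lit 0x0, nat_lit 0x0, nat_lit 0x0]
def apl : List Nat := [nat_lit 0x28012008003801800a, nat_lit 0xc008007005803001a]
theorem hpt : RA.all okp pt = true := by decide +kernel
theorem hN : chkN nb td1 pt nbl (nat_lit 0) = true := by decide +kernel
theorem hA : chkG cl (nat_lit 6) (apOK td1 pt (nat_lit 5)) apl (nat_lit 0) = true := by decide +kernel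
def s0 : List Nat := [nat_lit 0x400a00f, nat_lit 0x64026003]
theorem hs0 : chkG cl (nat_lit 3) (l3OK td9 td3 td12 pt) s0 (nat_lit 2) = true := by decide +kernel
def s1 : List Nat := [nat_lit 0xc02e001]
theorem hs1 : chkG cl (nat_lit 3) (l3OK td4 td16 td4 pt) s1 (nat_lit 4) = true := by decide +kernel
def s2 : List Nat := [nat_lit 0x44006001]
theorem hs2 : chkG cl (nat_lit 3) (l3OK td16 td7 td7 pt) s2 (nat_lit 5) = true := by decide +kernel
def s3 : List Nat := [nat_lit 0x402a005]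
theorem hs3 : chkG cl (nat_lit 3) (l3OK td9 td12 td21 pt) s3 (nat_lit 6) = true := by decide +kernel
def s4 : List Nat := [nat_lit 0x14002009]
theorem hs4 : chkG cl (nat_lit 3) (l3OK td4 td4 td12 pt) s4 (nat_lit 7) = true := by decide +kernel
def s5 : List Nat := [nat_lit 0x400601b]
theorem hs5 : chkG cl (nat_lit 3) (l3OK td4 td12 td16 pt) s5 (nat_lit 8) = true := by decide +kernel
def c0 : List Nat := [nat_lit 0x100000000001801d000801680010044000006a000c02100040148008009c003806600140a]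
theorem t0 : chk cl nb (nat_lit 14) c0 (nat_lit 8) = true := by decide +kernel

end

end APL.P21

namespace APL.P25

open APL.RA renaming leaf → L, node → N
open APL renaming dec → E

noncomputable section

set_option maxRecDepth 100000

def pt : RA := N (nat_lit 5) (N (nat_lit 3) (N (nat_lit 2) (N (nat_lit 1) (L (nat_lit 288234774265332736)) (L (nat_lit 288234774264939521))) (L (nat_lit 288234774265005062))) (N (nat_lit 4) (L (nat_lit 288234774265070597)) (L (nat_lit 288234774265136132)))) (N (nat_lit 7) (N (nat_lit 6) (L (nat_lit 288234774265201667)) (L (nat_lit 288234774265267202))) (N (nat_lit 8) (L (nat_lit 288234774265332737)) (L (nat_lit 288234774265398272))))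
def nb : RA := N (nat_lit 4) (N (nat_lit 2) (N (nat_lit 1) (L (E (nat_lit 2) (nat_lit 0x2000e) (nat_lit 0))) (L (E (nat_lit 0) (nat_lit 0x0) (nat_lit 0)))) (N (nat_lit 3) (L (E (nat_lit 1) (nat_lit 0x6) (nat_lit 0))) (L (E (nat_lit 0) (nat_lit 0x0) (nat_lit 0))))) (N (nat_lit 7) (N (nat_lit 6) (N (nat_lit 5) (L (E (nat_lit 0) (nat_lit 0x0) (nat_lit 0))) (L (E (nat_lit 0) (nat_lit 0x0) (nat_lit 0)))) (L (E (nat_lit 0) (nat_lit 0x0) (nat_lit 0)))) (N (nat_lit 8) (L (E (nat_lit 0) (nat_lit 0x0) (nat_lit 0))) (L (E (nat_lit 0) (nat_lit 0x0) (nat_lit 0)))))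
def cl : RA := N (nat_lit 2) (N (nat_lit 1) (L (E (nat_lit 6) (nat_lit 0x2000e0060028010006) (nat_lit 0))) (L (E (nat_lit 3) (nat_lit 0x3400a003) (nat_lit 0)))) (N (nat_lit 3) (L (E (nat_lit 3) (nat_lit 0x2400a003) (nat_lit 0))) (N (nat_lit 4) (L (E (nat_lit 3) (nat_lit 0x2c00a003) (nat_lit 0))) (L (E (nat_lit 3) (nat_lit 0x14006001) (nat_lit 0)))))
def nbl : List Nat := [nat_lit 0x800382, nat_lit 0x0, nat_lit 0x181, nat_lit 0x0, nat_lit 0x0, nat_lit 0x0, nat_lit 0x0, nat_lit 0x0, nat_lit 0x0]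
def apl : List Nat := [nat_lit 0xc008005003001c010]
theorem hpt : RA.all okp pt = true := by decide +kernel
theorem hN : chkN nb td1 pt nbl (nat_lit 0) = true := by decide +kernel
theorem hA : chkG cl (nat_lit 6) (apOK td1 pt (nat_lit 5)) apl (nat_lit 0) = true := by decide +kernel
def s0 : List Nat := [nat_lit 0xc00a00d]
theorem hs0 : chkG cl (nat_lit 3) (l3OK td16 td31 td31 pt) s0 (nat_lit 1) = true := by decide +kernel
def s1 : List Nat := [nat_lit 0xc00a009]
theorem hs1 : chkG cl (nat_lit 3) (l3OK td4 td27 td31 pt) s1 (nat_lit 2) = true := by decide +kernel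
def s2 : List Nat := [nat_lit 0xc00a00b]
theorem hs2 : chkG cl (nat_lit 3) (l3OK td9 td28 td31 pt) s2 (nat_lit 3) = true := by decide +kernel
def c0 : List Nat := [nat_lit 0x80000000000400c80010044000002a000c05]
theorem t0 : chk cl nb (nat_lit 9) c0 (nat_lit 3) = true := by decide +kernel

end

end APL.P25

namespace APL.P26

open APL.RA renaming leaf → L, node → N
open APL renaming dec → E

noncomputable section

set_option maxRecDepth 100000

def pt : RA := N (nat_lit 15) (N (nat_lit 8) (N (nat_lit 4) (N (nat_lit 2) (N (nat_lit 1) (L (nat_lit 288234774265332736)) (L (nat_lit 288234774265529344))) (N (nat_lit 3) (L (nat_lit 288234774265136129)) (L (nat_lit 288234774265136130)))) (N (nat_lit 6) (N (nat_lit 5) (L (nat_lit 288234774265136132)) (L (nat_lit 288234774265201665))) (N (nat_lit 7) (L (nat_lit 288234774265201666)) (L (nat_lit 288234774265201667))))) (N (nat_lit 12) (N (nat_lit 10) (N (nat_lit 9) (L (nat_lit 288234774265201668))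 (L (nat_lit 288234774265201669))) (N (nat_lit 11) (L (nat_lit 288234774265201670)) (L (nat_lit 288234774265267200)))) (N (nat_lit 14) (N (nat_lit 13) (L (nat_lit 288234774265267202)) (L (nat_lit 288234774265267206))) (L (nat_lit 288234774265332734))))) (N (nat_lit 23) (N (nat_lit 19) (N (nat_lit 17) (N (nat_lit 16) (L (nat_lit 288234774265332735)) (L (nat_lit 288234774265332737))) (N (nat_lit 18) (L (nat_lit 288234774265332741)) (L (nat_lit 288234774265398270)))) (N (nat_lit 21) (N (nat_lit 20) (L (nat_lit 288234774265398272)) (L (nat_lit 288234774265398276))) (N (nat_lit 22) (L (nat_lit 288234774265463805)) (L (nat_lit 288234774265463806))))) (N (nat_lit 27) (N (nat_lit 25) (N (nat_lit 24) (L (nat_lit 288234774265463807)) (L (nat_lit 288234774265463811))) (N (nat_lit 26) (L (nat_lit 288234774265529342)) (L (nat_lit 288234774265529346)))) (N (nat_lit 29) (N (nat_lit 28) (L (nat_lit 288234774265594878)) (L (nat_lit 288234774265594881)))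 (L (nat_lit 288234774265660414)))))
def nb : RA := N (nat_lit 14) (N (nat_lit 6) (N (nat_lit 3) (N (nat_lit 2) (N (nat_lit 1) (L (E (nat_lit 4) (nat_lit 0x13008003c016) (nat_lit 0))) (L (E (nat_lit 0) (nat_lit 0x0) (nat_lit 0)))) (L (E (nat_lit 2) (nat_lit 0x14006) (nat_lit 0)))) (N (nat_lit 5) (N (nat_lit 4) (L (E (nat_lit 0) (nat_lit 0x0) (nat_lit 0))) (L (E (nat_lit 0) (nat_lit 0x0) (nat_lit 0)))) (L (E (nat_lit 0) (nat_lit 0x0) (nat_lit 0))))) (N (nat_lit 10) (N (nat_lit 8) (N (nat_lit 7) (L (E (nat_lit 0) (nat_lit 0x0) (nat_lit 0))) (L (E (nat_lit 0) (nat_lit 0x0) (nat_lit 0)))) (N (nat_lit 9) (L (E (nat_lit 0) (nat_lit 0x0) (nat_lit 0))) (L (E (nat_lit 0) (nat_lit 0x0) (nat_lit 0))))) (N (nat_lit 12) (N (nat_lit 11) (L (E (nat_lit 0) (nat_lit 0x0) (nat_lit 0))) (L (E (nat_lit 0) (nat_lit 0x0) (nat_lit 0)))) (N (nat_lit 13) (L (E (nat_lit 0) (nat_lit 0x0) (nat_lit 0))) (L (E (nat_lit 0) (nat_lit 0x0) (nat_lit 0))))))) (N (nat_lit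 22) (N (nat_lit 18) (N (nat_lit 16) (N (nat_lit 15) (L (E (nat_lit 0) (nat_lit 0x0) (nat_lit 0))) (L (E (nat_lit 0) (nat_lit 0x0) (nat_lit 0)))) (N (nat_lit 17) (L (E (nat_lit 0) (nat_lit 0x0) (nat_lit 0))) (L (E (nat_lit 0) (nat_lit 0x0) (nat_lit 0))))) (N (nat_lit 20) (N (nat_lit 19) (L (E (nat_lit 0) (nat_lit 0x0) (nat_lit 0))) (L (E (nat_lit 0) (nat_lit 0x0) (nat_lit 0)))) (N (nat_lit 21) (L (E (nat_lit 0) (nat_lit 0x0) (nat_lit 0))) (L (E (nat_lit 0) (nat_lit 0x0) (nat_lit 0)))))) (N (nat_lit 26) (N (nat_lit 24) (N (nat_lit 23) (L (E (nat_lit 0) (nat_lit 0x0) (nat_lit 0))) (L (E (nat_lit 0) (nat_lit 0x0) (nat_lit 0)))) (N (nat_lit 25) (L (E (nat_lit 0) (nat_lit 0x0) (nat_lit 0))) (L (E (nat_lit 0) (nat_lit 0x0) (nat_lit 0))))) (N (nat_lit 28) (N (nat_lit 27) (L (E (nat_lit 0) (nat_lit 0x0) (nat_lit 0))) (L (E (nat_lit 0) (nat_lit 0x0) (nat_lit 0)))) (N (nat_lit 29) (L (E (nat_lit 0) (nat_lit 0x0) (nat_lit 0))) (L (E (nat_lit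 0) (nat_lit 0x0) (nat_lit 0)))))))
def cl : RA := N (nat_lit 11) (N (nat_lit 6) (N (nat_lit 3) (N (nat_lit 2) (N (nat_lit 1) (L (E (nat_lit 6) (nat_lit 0x28012008003801800a) (nat_lit 0))) (L (E (nat_lit 6) (nat_lit 0x7403601900b004801c) (nat_lit 0)))) (L (E (nat_lit 6) (nat_lit 0x5402400f0058014006) (nat_lit 0)))) (N (nat_lit 5) (N (nat_lit 4) (L (E (nat_lit 6) (nat_lit 0x5c026010006001c008) (nat_lit 0))) (L (E (nat_lit 6) (nat_lit 0x7003401800a004401a) (nat_lit 0)))) (L (E (nat_lit 3) (nat_lit 0x64006001) (nat_lit 0))))) (N (nat_lit 9) (N (nat_lit 8) (N (nat_lit 7) (L (E (nat_lit 3) (nat_lit 0xdc006001) (nat_lit 0))) (L (E (nat_lit 3) (nat_lit 0x94006001) (nat_lit 0)))) (L (E (nat_lit 3) (nat_lit 0xb400a001) (nat_lit 0)))) (N (nat_lit 10) (L (E (nat_lit 3) (nat_lit 0xec062003) (nat_lit 0))) (L (E (nat_lit 3) (nat_lit 0x44006001) (nat_lit 0)))))) (N (nat_lit 17) (N (nat_lit 14) (N (nat_lit 13) (N (nat_lit 12) (L (E (nat_lit 3)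 (nat_lit 0xa4006001) (nat_lit 0))) (L (E (nat_lit 3) (nat_lit 0x7400a003) (nat_lit 0)))) (L (E (nat_lit 3) (nat_lit 0xe405e00d) (nat_lit 0)))) (N (nat_lit 16) (N (nat_lit 15) (L (E (nat_lit 3) (nat_lit 0x4c00a003) (nat_lit 0))) (L (E (nat_lit 3) (nat_lit 0x3c00a003) (nat_lit 0)))) (L (E (nat_lit 3) (nat_lit 0xd4056001) (nat_lit 0))))) (N (nat_lit 20) (N (nat_lit 19) (N (nat_lit 18) (L (E (nat_lit 3) (nat_lit 0xcc00a003) (nat_lit 0))) (L (E (nat_lit 3) (nat_lit 0x54006001) (nat_lit 0)))) (L (E (nat_lit 3) (nat_lit 0x6c006001) (nat_lit 0)))) (N (nat_lit 21) (L (E (nat_lit 3) (nat_lit 0x2400a003) (nat_lit 0))) (N (nat_lit 22) (L (E (nat_lit 3) (nat_lit 0x8c00a003) (nat_lit 0))) (L (E (nat_lit 3) (nat_lit 0x14006001) (nat_lit 0)))))))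
def nbl : List Nat := [nat_lit 0x4c02000f00584, nat_lit 0x0, nat_lit 0x500182, nat_lit 0x0, nat_lit 0x0, nat_lit 0x0, nat_lit 0x0, nat_lit 0x0, nat_lit 0x0, nat_lit 0x0, nat_lit 0x0, nat_lit 0x0, nat_lit 0x0, nat_lit 0x0, nat_lit 0x0, nat_lit 0x0, nat_lit 0x0, nat_lit 0x0, nat_lit 0x0, nat_lit 0x0, nat_lit 0x0, nat_lit 0x0, nat_lit 0x0, nat_lit 0x0, nat_lit 0x0, nat_lit 0x0, nat_lit 0x0, nat_lit 0x0, nat_lit 0x0, nat_lit 0x0]
def apl : List Nat := [nat_lit 0x28012008003801800a, nat_lit 0x7403601900b004801c, nat_lit 0xc00a00b007804802a, nat_lit 0x1000e00c008004c02e, nat_lit 0x3402201400c0068038]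
theorem hpt : RA.all okp pt = true := by decide +kernel
theorem hN : chkN nb td1 pt nbl (nat_lit 0) = true := by decide +kernel
theorem hA : chkG cl (nat_lit 6) (apOK td1 pt (nat_lit 5)) apl (nat_lit 0) = true := by decide +kernel
def s0 : List Nat := [nat_lit 0x64006001, nat_lit 0xdc002003, nat_lit 0x94006001]
theorem hs0 : chkG cl (nat_lit 3) (l3OK td9 td3 td12 pt) s0 (nat_lit 5) = true := by decide +kernel
def s1 : List Nat := [nat_lit 0x1405a001, nat_lit 0xc4076003]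
theorem hs1 : chkG cl (nat_lit 3) (l3OK td4 td7 td19 pt) s1 (nat_lit 8) = true := by decide +kernel
def s2 : List Nat := [nat_lit 0x44006001, nat_lit 0xa4002003]
theorem hs2 : chkG cl (nat_lit 3) (l3OK td9 td12 td21 pt) s2 (nat_lit 10) = true := by decide +kernel
def s3 : List Nat := [nat_lit 0xc00a01d]
theorem hs3 : chkG cl (nat_lit 3) (l3OK td9 td19 td31 pt) s3 (nat_lit 12) = true := by decide +kernel
def s4 : List Nat := [nat_lit 0xbc07200d]
theorem hs4 : chkG cl (nat_lit 3) (l3OK td31 td13 td12 pt) s4 (nat_lit 13) = true := by decide +kernel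
def s5 : List Nat := [nat_lit 0x14006013]
theorem hs5 : chkG cl (nat_lit 3) (l3OK td25 td21 td31 pt) s5 (nat_lit 14) = true := by decide +kernel
def s6 : List Nat := [nat_lit 0x3c00a003, nat_lit 0x4056035]
theorem hs6 : chkG cl (nat_lit 3) (l3OK td31 td19 td7 pt) s6 (nat_lit 15) = true := by decide +kernel
def s7 : List Nat := [nat_lit 0x14006033]
theorem hs7 : chkG cl (nat_lit 3) (l3OK td4 td27 td31 pt) s7 (nat_lit 17) = true := by decide +kernel
def s8 : List Nat := [nat_lit 0x54006001, nat_lit 0x6c002003, nat_lit 0xc00a009]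
theorem hs8 : chkG cl (nat_lit 3) (l3OK td9 td28 td31 pt) s8 (nat_lit 18) = true := by decide +kernel
def s9 : List Nat := [nat_lit 0x8c00a003]
theorem hs9 : chkG cl (nat_lit 3) (l3OK td31 td19 td37 pt) s9 (nat_lit 21) = true := by decide +kernel
def c0 : List Nat := [nat_lit 0x20000000000780da0038049001a02c801000c400580420028051001201c8004019400180520008035000e0128006007400080220000045002402f8013015c00a00ee005401b0010038800501a400600c2004417]
theorem t0 : chk cl nb (nat_lit 30) c0 (nat_lit 21) = true := by decide +kernel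

end

end APL.P26

namespace APL.P27

open APL.RA renaming leaf → L, node → N
open APL renaming dec → E

noncomputable section

set_option maxRecDepth 100000

def pt : RA := N (nat_lit 5) (N (nat_lit 3) (N (nat_lit 2) (N (nat_lit 1) (L (nat_lit 288234774265332736)) (L (nat_lit 288234774265594880))) (L (nat_lit 288234774265201665))) (N (nat_lit 4) (L (nat_lit 288234774265398270)) (L (nat_lit 288234774265398271)))) (N (nat_lit 7) (N (nat_lit 6) (L (nat_lit 288234774265398272)) (L (nat_lit 288234774265398273))) (N (nat_lit 8) (L (nat_lit 288234774265398274)) (L (nat_lit 288234774265398275))))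
def nb : RA := N (nat_lit 4) (N (nat_lit 2) (N (nat_lit 1) (L (E (nat_lit 2) (nat_lit 0x14008) (nat_lit 0))) (L (E (nat_lit 0) (nat_lit 0x0) (nat_lit 0)))) (N (nat_lit 3) (L (E (nat_lit 0) (nat_lit 0x0) (nat_lit 0))) (L (E (nat_lit 0) (nat_lit 0x0) (nat_lit 0))))) (N (nat_lit 7) (N (nat_lit 6) (N (nat_lit 5) (L (E (nat_lit 0) (nat_lit 0x0) (nat_lit 0))) (L (E (nat_lit 0) (nat_lit 0x0) (nat_lit 0)))) (L (E (nat_lit 0) (nat_lit 0x0) (nat_lit 0)))) (N (nat_lit 8) (L (E (nat_lit 0) (nat_lit 0x0) (nat_lit 0))) (L (E (nat_lit 0) (nat_lit 0x0) (nat_lit 0)))))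
def cl : RA := N (nat_lit 3) (N (nat_lit 2) (N (nat_lit 1) (L (E (nat_lit 6) (nat_lit 0x2000e0060028010006) (nat_lit 0))) (L (E (nat_lit 3) (nat_lit 0x3c006001) (nat_lit 0)))) (L (E (nat_lit 3) (nat_lit 0x4400a003) (nat_lit 0)))) (N (nat_lit 4) (L (E (nat_lit 3) (nat_lit 0x1c00a003) (nat_lit 0))) (N (nat_lit 5) (L (E (nat_lit 3) (nat_lit 0x3400a003) (nat_lit 0))) (L (E (nat_lit 3) (nat_lit 0x14006001) (nat_lit 0)))))
def nbl : List Nat := [nat_lit 0x500202, nat_lit 0x0, nat_lit 0x0, nat_lit 0x0, nat_lit 0x0, nat_lit 0x0, nat_lit 0x0, nat_lit 0x0, nat_lit 0x0]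
def apl : List Nat := [nat_lit 0x2000e0060028010006]
theorem hpt : RA.all okp pt = true := by decide +kernel
theorem hN : chkN nb td1 pt nbl (nat_lit 0) = true := by decide +kernel
theorem hA : chkG cl (nat_lit 6) (apOK td1 pt (nat_lit 5)) apl (nat_lit 0) = true := by decide +kernel
def s0 : List Nat := [nat_lit 0x3c006001]
theorem hs0 : chkG cl (nat_lit 3) (l3OK td16 td7 td7 pt) s0 (nat_lit 1) = true := by decide +kernel
def s1 : List Nat := [nat_lit 0x14006011, nat_lit 0xc00a007]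
theorem hs1 : chkG cl (nat_lit 3) (l3OK td9 td19 td31 pt) s1 (nat_lit 2) = true := by decide +kernel
def s2 : List Nat := [nat_lit 0xc00a00d]
theorem hs2 : chkG cl (nat_lit 3) (l3OK td9 td7 td31 pt) s2 (nat_lit 4) = true := by decide +kernel
def c0 : List Nat := [nat_lit 0xc01d0002006800200840000032001005]
theorem t0 : chk cl nb (nat_lit 9) c0 (nat_lit 4) = true := by decide +kernel

end

end APL.P27

namespace APL.P28

open APL.RA renaming leaf → L, node → N
open APL renaming dec → E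

noncomputable section

set_option maxRecDepth 100000

def pt0 : RA := N (nat_lit 24) (N (nat_lit 12) (N (nat_lit 6) (N (nat_lit 3) (N (nat_lit 2) (N (nat_lit 1) (L (nat_lit 288234774265332736)) (L (nat_lit 288234774265529344))) (L (nat_lit 288234774265201669))) (N (nat_lit 5) (N (nat_lit 4) (L (nat_lit 288234774265005062)) (L (nat_lit 288234774265070595))) (L (nat_lit 288234774265070598)))) (N (nat_lit 9) (N (nat_lit 8) (N (nat_lit 7) (L (nat_lit 288234774265070600)) (L (nat_lit 288234774265136129))) (L (nat_lit 288234774265136130))) (N (nat_lit 11) (N (nat_lit 10) (L (nat_lit 288234774265136134)) (L (nat_lit 288234774265136135))) (L (nat_lit 288234774265201663))))) (N (nat_lit 18) (N (nat_lit 15) (N (nat_lit 14) (N (nat_lit 13) (L (nat_lit 288234774265201665)) (L (nat_lit 288234774265201670))) (L (nat_lit 288234774265267199))) (N (nat_lit 17) (N (nat_lit 16) (L (nat_lit 288234774265267200)) (L (nat_lit 288234774265267201))) (L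 (nat_lit 288234774265267202)))) (N (nat_lit 21) (N (nat_lit 20) (N (nat_lit 19) (L (nat_lit 288234774265267203)) (L (nat_lit 288234774265267204))) (L (nat_lit 288234774265267205))) (N (nat_lit 23) (N (nat_lit 22) (L (nat_lit 288234774265267206)) (L (nat_lit 288234774265332734))) (L (nat_lit 288234774265332735)))))) (N (nat_lit 36) (N (nat_lit 30) (N (nat_lit 27) (N (nat_lit 26) (N (nat_lit 25) (L (nat_lit 288234774265332737)) (L (nat_lit 288234774265332740))) (L (nat_lit 288234774265332742))) (N (nat_lit 29) (N (nat_lit 28) (L (nat_lit 288234774265398270)) (L (nat_lit 288234774265398271))) (L (nat_lit 288234774265398273)))) (N (nat_lit 33) (N (nat_lit 32) (N (nat_lit 31) (L (nat_lit 288234774265398275)) (L (nat_lit 288234774265463806))) (L (nat_lit 288234774265463807))) (N (nat_lit 35) (N (nat_lit 34) (L (nat_lit 288234774265463809)) (L (nat_lit 288234774265529342))) (L (nat_lit 288234774265529343))))) (N (nat_lit 42) (N (nat_lit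 39) (N (nat_lit 38) (N (nat_lit 37) (L (nat_lit 288234774265594876)) (L (nat_lit 288234774265594877))) (L (nat_lit 288234774265594878))) (N (nat_lit 41) (N (nat_lit 40) (L (nat_lit 288234774265594879)) (L (nat_lit 288234774265594880))) (L (nat_lit 288234774265594881)))) (N (nat_lit 45) (N (nat_lit 44) (N (nat_lit 43) (L (nat_lit 288234774265660412)) (L (nat_lit 288234774265660413))) (L (nat_lit 288234774265660414))) (N (nat_lit 47) (N (nat_lit 46) (L (nat_lit 288234774265660415)) (L (nat_lit 288234774265660416))) (L (nat_lit 288234774265660417))))))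
def pt : RA := pt0
def nb0 : RA := N (nat_lit 24) (N (nat_lit 11) (N (nat_lit 4) (N (nat_lit 2) (N (nat_lit 1) (L (E (nat_lit 5) (nat_lit 0x3801800b804001e) (nat_lit 0))) (L (E (nat_lit 3) (nat_lit 0x14009c042) (nat_lit 0)))) (N (nat_lit 3) (L (E (nat_lit 3) (nat_lit 0xa004c012) (nat_lit 0))) (L (E (nat_lit 0) (nat_lit 0x0) (nat_lit 0))))) (N (nat_lit 8) (N (nat_lit 6) (N (nat_lit 5) (L (E (nat_lit 0) (nat_lit 0x0) (nat_lit 0))) (L (E (nat_lit 0) (nat_lit 0x0) (nat_lit 0)))) (N (nat_lit 7) (L (E (nat_lit 0) (nat_lit 0x0) (nat_lit 0))) (L (E (nat_lit 0) (nat_lit 0x0) (nat_lit 0))))) (N (nat_lit 10) (N (nat_lit 9) (L (E (nat_lit 0) (nat_lit 0x0) (nat_lit 0))) (L (E (nat_lit 0) (nat_lit 0x0) (nat_lit 0)))) (L (E (nat_lit 0) (nat_lit 0x0) (nat_lit 0)))))) (N (nat_lit 18) (N (nat_lit 15) (N (nat_lit 13) (N (nat_lit 12) (L (E (nat_lit 0) (nat_lit 0x0) (nat_lit 0))) (L (E (nat_lit 0) (nat_lit 0x0) (nat_lit 0)))) (N (nat_lit 14) (L (E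 (nat_lit 0) (nat_lit 0x0) (nat_lit 0))) (L (E (nat_lit 0) (nat_lit 0x0) (nat_lit 0))))) (N (nat_lit 17) (N (nat_lit 16) (L (E (nat_lit 0) (nat_lit 0x0) (nat_lit 0))) (L (E (nat_lit 0) (nat_lit 0x0) (nat_lit 0)))) (L (E (nat_lit 0) (nat_lit 0x0) (nat_lit 0))))) (N (nat_lit 21) (N (nat_lit 20) (N (nat_lit 19) (L (E (nat_lit 0) (nat_lit 0x0) (nat_lit 0))) (L (E (nat_lit 0) (nat_lit 0x0) (nat_lit 0)))) (L (E (nat_lit 0) (nat_lit 0x0) (nat_lit 0)))) (N (nat_lit 23) (N (nat_lit 22) (L (E (nat_lit 0) (nat_lit 0x0) (nat_lit 0))) (L (E (nat_lit 0) (nat_lit 0x0) (nat_lit 0)))) (L (E (nat_lit 0) (nat_lit 0x0) (nat_lit 0))))))) (N (nat_lit 36) (N (nat_lit 31) (N (nat_lit 28) (N (nat_lit 26) (N (nat_lit 25) (L (E (nat_lit 0) (nat_lit 0x0) (nat_lit 0))) (L (E (nat_lit 0) (nat_lit 0x0) (nat_lit 0)))) (N (nat_lit 27) (L (E (nat_lit 0) (nat_lit 0x0) (nat_lit 0))) (L (E (nat_lit 0) (nat_lit 0x0) (nat_lit 0))))) (N (nat_lit 30) (N (nat_lit 29) (L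 (E (nat_lit 0) (nat_lit 0x0) (nat_lit 0))) (L (E (nat_lit 0) (nat_lit 0x0) (nat_lit 0)))) (L (E (nat_lit 0) (nat_lit 0x0) (nat_lit 0))))) (N (nat_lit 33) (N (nat_lit 32) (L (E (nat_lit 0) (nat_lit 0x0) (nat_lit 0))) (L (E (nat_lit 1) (nat_lit 0x44) (nat_lit 0)))) (N (nat_lit 35) (N (nat_lit 34) (L (E (nat_lit 0) (nat_lit 0x0) (nat_lit 0))) (L (E (nat_lit 0) (nat_lit 0x0) (nat_lit 0)))) (L (E (nat_lit 0) (nat_lit 0x0) (nat_lit 0)))))) (N (nat_lit 42) (N (nat_lit 39) (N (nat_lit 38) (N (nat_lit 37) (L (E (nat_lit 0) (nat_lit 0x0) (nat_lit 0))) (L (E (nat_lit 1) (nat_lit 0x56) (nat_lit 0)))) (L (E (nat_lit 0) (nat_lit 0x0) (nat_lit 0)))) (N (nat_lit 41) (N (nat_lit 40) (L (E (nat_lit 0) (nat_lit 0x0) (nat_lit 0))) (L (E (nat_lit 0) (nat_lit 0x0) (nat_lit 0)))) (L (E (nat_lit 0) (nat_lit 0x0) (nat_lit 0))))) (N (nat_lit 45) (N (nat_lit 44) (N (nat_lit 43) (L (E (nat_lit 0) (nat_lit 0x0) (nat_lit 0))) (L (E (nat_lit 0) (nat_lit 0x0)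 (nat_lit 0)))) (L (E (nat_lit 0) (nat_lit 0x0) (nat_lit 0)))) (N (nat_lit 47) (N (nat_lit 46) (L (E (nat_lit 0) (nat_lit 0x0) (nat_lit 0))) (L (E (nat_lit 0) (nat_lit 0x0) (nat_lit 0)))) (L (E (nat_lit 0) (nat_lit 0x0) (nat_lit 0)))))))
def nb : RA := nb0
def cl : RA := N (nat_lit 17) (N (nat_lit 9) (N (nat_lit 5) (N (nat_lit 3) (N (nat_lit 2) (N (nat_lit 1) (L (E (nat_lit 6) (nat_lit 0x6802a00d0048014006) (nat_lit 0))) (L (E (nat_lit 6) (nat_lit 0x8403a018008003000e) (nat_lit 0)))) (L (E (nat_lit 6) (nat_lit 0x8c04001c00b8038016) (nat_lit 0)))) (N (nat_lit 4) (L (E (nat_lit 6) (nat_lit 0x50026012008804001e) (nat_lit 0))) (L (E (nat_lit 6) (nat_lit 0xb004c02200f806c02c) (nat_lit 0))))) (N (nat_lit 7) (N (nat_lit 6) (L (E (nat_lit 6) (nat_lit 0x6c02e00f0060020008) (nat_lit 0))) (L (E (nat_lit 6) (nat_lit 0x78032014006802800c) (nat_lit 0)))) (N (nat_lit 8) (L (E (nat_lit 6) (nat_lit 0xa40500270130094048) (nat_lit 0))) (L (E (nat_lit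 6) (nat_lit 0xbc05c02d01600ac054) (nat_lit 0)))))) (N (nat_lit 13) (N (nat_lit 11) (N (nat_lit 10) (L (E (nat_lit 3) (nat_lit 0x8c006001) (nat_lit 0))) (L (E (nat_lit 3) (nat_lit 0x94012005) (nat_lit 0)))) (N (nat_lit 12) (L (E (nat_lit 3) (nat_lit 0xcc04a00b) (nat_lit 0))) (L (E (nat_lit 3) (nat_lit 0x134006001) (nat_lit 0))))) (N (nat_lit 15) (N (nat_lit 14) (L (E (nat_lit 3) (nat_lit 0xdc006001) (nat_lit 0))) (L (E (nat_lit 3) (nat_lit 0x14c08203b) (nat_lit 0)))) (N (nat_lit 16) (L (E (nat_lit 3) (nat_lit 0xfc04a001) (nat_lit 0))) (L (E (nat_lit 3) (nat_lit 0x154006001) (nat_lit 0))))))) (N (nat_lit 25) (N (nat_lit 21) (N (nat_lit 19) (N (nat_lit 18) (L (E (nat_lit 3) (nat_lit 0x16c07602d) (nat_lit 0))) (L (E (nat_lit 3) (nat_lit 0x3c00a003) (nat_lit 0)))) (N (nat_lit 20) (L (E (nat_lit 3) (nat_lit 0x7400a003) (nat_lit 0))) (L (E (nat_lit 3) (nat_lit 0x11c00a001) (nat_lit 0))))) (N (nat_lit 23) (N (nat_lit 22) (L (E (nat_lit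 3) (nat_lit 0x9402200d) (nat_lit 0))) (L (E (nat_lit 3) (nat_lit 0x16404a001) (nat_lit 0)))) (N (nat_lit 24) (L (E (nat_lit 3) (nat_lit 0xf405a003) (nat_lit 0))) (L (E (nat_lit 3) (nat_lit 0x1c00a001) (nat_lit 0)))))) (N (nat_lit 29) (N (nat_lit 27) (N (nat_lit 26) (L (E (nat_lit 3) (nat_lit 0xec04a015) (nat_lit 0))) (L (E (nat_lit 3) (nat_lit 0x12405a001) (nat_lit 0)))) (N (nat_lit 28) (L (E (nat_lit 3) (nat_lit 0x104032005) (nat_lit 0))) (L (E (nat_lit 3) (nat_lit 0x17406a003) (nat_lit 0))))) (N (nat_lit 31) (N (nat_lit 30) (L (E (nat_lit 3) (nat_lit 0x6c006001) (nat_lit 0))) (L (E (nat_lit 3) (nat_lit 0xac006001) (nat_lit 0)))) (N (nat_lit 32) (L (E (nat_lit 3) (nat_lit 0x17c00a001) (nat_lit 0))) (N (nat_lit 33) (L (E (nat_lit 3) (nat_lit 0x5c006001) (nat_lit 0))) (L (E (nat_lit 3) (nat_lit 0x14006001) (nat_lit 0))))))))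
def nbl : List Nat := [nat_lit 0xe006002e01000785, nat_lit 0x5002701083, nat_lit 0x2801300483, nat_lit 0x0, nat_lit 0x0, nat_lit 0x0, nat_lit 0x0, nat_lit 0x0, nat_lit 0x0, nat_lit 0x0, nat_lit 0x0, nat_lit 0x0, nat_lit 0x0, nat_lit 0x0, nat_lit 0x0, nat_lit 0x0, nat_lit 0x0, nat_lit 0x0, nat_lit 0x0, nat_lit 0x0, nat_lit 0x0, nat_lit 0x0, nat_lit 0x0, nat_lit 0x0, nat_lit 0x0, nat_lit 0x0, nat_lit 0x0, nat_lit 0x0, nat_lit 0x0, nat_lit 0x0, nat_lit 0x0, nat_lit 0x0, nat_lit 0x1101, nat_lit 0x0, nat_lit 0x0, nat_lit 0x0, nat_lit 0x0, nat_lit 0x1581, nat_lit 0x0, nat_lit 0x0, nat_lit 0x0, nat_lit 0x0, nat_lit 0x0, nat_lit 0x0, nat_lit 0x0, nat_lit 0x0, nat_lit 0x0, nat_lit 0x0]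
def apl : List Nat := [nat_lit 0x6802a00d0048014006, nat_lit 0x8403a018008003000e, nat_lit 0x8c04001c00b8038016, nat_lit 0x50026012008804001e, nat_lit 0xb004c02200f806c02c, nat_lit 0x1001000c007805c036, nat_lit 0x1801400d00a006403c, nat_lit 0xa40500270130094048, nat_lit 0xbc05c02d01600ac054]
theorem hpt : RA.all okp pt = true := by decide +kernel
theorem hN : chkN nb td1 pt nbl (nat_lit 0) = true := by decide +kernel
theorem hA : chkG cl (nat_lit 6) (apOK td1 pt (nat_lit 5)) apl (nat_lit 0) = true := by decide +kernel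
def s0 : List Nat := [nat_lit 0x8c006001, nat_lit 0x14012025, nat_lit 0xcc016025, nat_lit 0x134002003, nat_lit 0xdc006001, nat_lit 0x1040a603b]
theorem hs0 : chkG cl (nat_lit 3) (l3OK td9 td3 td12 pt) s0 (nat_lit 9) = true := by decide +kernel
def s1 : List Nat := [nat_lit 0x9407e001]
theorem hs1 : chkG cl (nat_lit 3) (l3OK td4 td7 td19 pt) s1 (nat_lit 15) = true := by decide +kernel
def s2 : List Nat := [nat_lit 0x154002003]
theorem hs2 : chkG cl (nat_lit 3) (l3OK td9 td12 td21 pt) s2 (nat_lit 16) = true := by decide +kernel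
def s3 : List Nat := [nat_lit 0xec0b602d]
theorem hs3 : chkG cl (nat_lit 3) (l3OK td31 td13 td12 pt) s3 (nat_lit 17) = true := by decide +kernel
def s4 : List Nat := [nat_lit 0x3c006005, nat_lit 0x7400a003]
theorem hs4 : chkG cl (nat_lit 3) (l3OK td25 td21 td31 pt) s4 (nat_lit 18) = true := by decide +kernel
def s5 : List Nat := [nat_lit 0x408e005, nat_lit 0x9402200d, nat_lit 0x404a059, nat_lit 0xc07a02d, nat_lit 0x1400e001]
theorem hs5 : chkG cl (nat_lit 3) (l3OK td31 td19 td7 pt) s5 (nat_lit 20) = true := by decide +kernel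
def s6 : List Nat := [nat_lit 0x54076025]
theorem hs6 : chkG cl (nat_lit 3) (l3OK td4 td12 td28 pt) s6 (nat_lit 25) = true := by decide +kernel
def s7 : List Nat := [nat_lit 0x12400202d]
theorem hs7 : chkG cl (nat_lit 3) (l3OK td4 td12 td16 pt) s7 (nat_lit 26) = true := by decide +kernel
def s8 : List Nat := [nat_lit 0x10400a019]
theorem hs8 : chkG cl (nat_lit 3) (l3OK td16 td12 td28 pt) s8 (nat_lit 27) = true := by decide +kernel
def s9 : List Nat := [nat_lit 0xd40ba003]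
theorem hs9 : chkG cl (nat_lit 3) (l3OK td4 td27 td31 pt) s9 (nat_lit 28) = true := by decide +kernel
def s10 : List Nat := [nat_lit 0x6c006001, nat_lit 0xac002003]
theorem hs10 : chkG cl (nat_lit 3) (l3OK td9 td28 td31 pt) s10 (nat_lit 29) = true := by decide +kernel
def s11 : List Nat := [nat_lit 0x140be001]
theorem hs11 : chkG cl (nat_lit 3) (l3OK td31 td19 td37 pt) s11 (nat_lit 31) = true := by decide +kernel
def s12 : List Nat := [nat_lit 0x5c006001]
theorem hs12 : chkG cl (nat_lit 3) (l3OK td9 td7 td31 pt) s12 (nat_lit 32) = true := by decide +kernel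
def c0 : List Nat := [nat_lit 0x8000000200000000014026400980da00400a90018046800102f4000005a005c045001c00e800d00e4001806a00080550010006801d012c00f01060000040002c008801101f400501620014031003802d801f01dc00d8046003c0b5001203c80060244009014a001c029001600c801a019c00c812e000004a002a00a802001ac00c0176001025]
theorem t0 : chk cl nb (nat_lit 48) c0 (nat_lit 32) = true := by decide +kernel

end

end APL.P28

namespace APL.P29

open APL.RA renaming leaf → L, node → N
open APL renaming dec → E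

noncomputable section

set_option maxRecDepth 100000

def pt : RA := N (nat_lit 5) (N (nat_lit 3) (N (nat_lit 2) (N (nat_lit 1) (L (nat_lit 288234774265332736)) (L (nat_lit 288234774265594880))) (L (nat_lit 288234774265201669))) (N (nat_lit 4) (L (nat_lit 288234774265201670)) (L (nat_lit 288234774265267205)))) (N (nat_lit 7) (N (nat_lit 6) (L (nat_lit 288234774265332740)) (L (nat_lit 288234774265398275))) (N (nat_lit 8) (L (nat_lit 288234774265463810)) (L (nat_lit 288234774265529345))))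
def nb : RA := N (nat_lit 4) (N (nat_lit 2) (N (nat_lit 1) (L (E (nat_lit 0) (nat_lit 0x0) (nat_lit 0))) (L (E (nat_lit 1) (nat_lit 0x10) (nat_lit 0)))) (N (nat_lit 3) (L (E (nat_lit 2) (nat_lit 0x10006) (nat_lit 0))) (L (E (nat_lit 0) (nat_lit 0x0) (nat_lit 0))))) (N (nat_lit 7) (N (nat_lit 6) (N (nat_lit 5) (L (E (nat_lit 0) (nat_lit 0x0) (nat_lit 0))) (L (E (nat_lit 0) (nat_lit 0x0) (nat_lit 0)))) (L (E (nat_lit 0) (nat_lit 0x0) (nat_lit 0)))) (N (nat_lit 8) (L (E (nat_lit 0) (nat_lit 0x0) (nat_lit 0))) (L (E (nat_lit 0) (nat_lit 0x0) (nat_lit 0)))))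
def cl : RA := N (nat_lit 2) (N (nat_lit 1) (L (E (nat_lit 6) (nat_lit 0x2000e0060028010006) (nat_lit 0))) (L (E (nat_lit 3) (nat_lit 0x2c006001) (nat_lit 0)))) (N (nat_lit 3) (L (E (nat_lit 3) (nat_lit 0x3c006001) (nat_lit 0))) (N (nat_lit 4) (L (E (nat_lit 3) (nat_lit 0x3400a003) (nat_lit 0))) (L (E (nat_lit 3) (nat_lit 0x14006001) (nat_lit 0)))))
def nbl : List Nat := [nat_lit 0x0, nat_lit 0x401, nat_lit 0x400182, nat_lit 0x0, nat_lit 0x0, nat_lit 0x0, nat_lit 0x0, nat_lit 0x0, nat_lit 0x0]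
def apl : List Nat := [nat_lit 0xc008005003001c010]
theorem hpt : RA.all okp pt = true := by decide +kernel
theorem hN : chkN nb td1 pt nbl (nat_lit 0) = true := by decide +kernel
theorem hA : chkG cl (nat_lit 6) (apOK td1 pt (nat_lit 5)) apl (nat_lit 0) = true := by decide +kernel
def s0 : List Nat := [nat_lit 0x2c006001]
theorem hs0 : chkG cl (nat_lit 3) (l3OK td16 td16 td16 pt) s0 (nat_lit 1) = true := by decide +kernel
def s1 : List Nat := [nat_lit 0x400600f]
theorem hs1 : chkG cl (nat_lit 3) (l3OK td4 td12 td16 pt) s1 (nat_lit 2) = true := by decide +kernel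
def s2 : List Nat := [nat_lit 0x1400600d]
theorem hs2 : chkG cl (nat_lit 3) (l3OK td9 td7 td31 pt) s2 (nat_lit 3) = true := by decide +kernel
def c0 : List Nat := [nat_lit 0x80000002000400a800100740000032000c05]
theorem t0 : chk cl nb (nat_lit 9) c0 (nat_lit 3) = true := by decide +kernel

end

end APL.P29

namespace APL.P30

open APL.RA renaming leaf → L, node → N
open APL renaming dec → E

noncomputable section

set_option maxRecDepth 100000

def pt : RA := N (nat_lit 5) (N (nat_lit 3) (N (nat_lit 2) (N (nat_lit 1) (L (nat_lit 288234774265332736)) (L (nat_lit 288234774264939521))) (L (nat_lit 288234774265201667))) (N (nat_lit 4) (L (nat_lit 288234774265005057)) (L (nat_lit 288234774265070593)))) (N (nat_lit 7) (N (nat_lit 6) (L (nat_lit 288234774265136129)) (L (nat_lit 288234774265201665))) (N (nat_lit 8) (L (nat_lit 288234774265267201)) (L (nat_lit 288234774265332737))))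
def nb : RA := N (nat_lit 4) (N (nat_lit 2) (N (nat_lit 1) (L (E (nat_lit 2) (nat_lit 0x2000e) (nat_lit 0))) (L (E (nat_lit 1) (nat_lit 0x6) (nat_lit 0)))) (N (nat_lit 3) (L (E (nat_lit 0) (nat_lit 0x0) (nat_lit 0))) (L (E (nat_lit 0) (nat_lit 0x0) (nat_lit 0))))) (N (nat_lit 7) (N (nat_lit 6) (N (nat_lit 5) (L (E (nat_lit 0) (nat_lit 0x0) (nat_lit 0))) (L (E (nat_lit 0) (nat_lit 0x0) (nat_lit 0)))) (L (E (nat_lit 0) (nat_lit 0x0) (nat_lit 0)))) (N (nat_lit 8) (L (E (nat_lit 0) (nat_lit 0x0) (nat_lit 0))) (L (E (nat_lit 0) (nat_lit 0x0) (nat_lit 0)))))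
def cl : RA := N (nat_lit 2) (N (nat_lit 1) (L (E (nat_lit 6) (nat_lit 0x2000e0060028010006) (nat_lit 0))) (L (E (nat_lit 3) (nat_lit 0x2400a003) (nat_lit 0)))) (N (nat_lit 3) (L (E (nat_lit 3) (nat_lit 0x2c006001) (nat_lit 0))) (N (nat_lit 4) (L (E (nat_lit 3) (nat_lit 0x34006001) (nat_lit 0))) (L (E (nat_lit 3) (nat_lit 0x14006001) (nat_lit 0)))))
def nbl : List Nat := [nat_lit 0x800382, nat_lit 0x181, nat_lit 0x0, nat_lit 0x0, nat_lit 0x0, nat_lit 0x0, nat_lit 0x0, nat_lit 0x0, nat_lit 0x0]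
def apl : List Nat := [nat_lit 0x2000e0060028010006]
theorem hpt : RA.all okp pt = true := by decide +kernel
theorem hN : chkN nb td1 pt nbl (nat_lit 0) = true := by decide +kernel
theorem hA : chkG cl (nat_lit 6) (apOK td1 pt (nat_lit 5)) apl (nat_lit 0) = true := by decide +kernel
def s0 : List Nat := [nat_lit 0x14006009]
theorem hs0 : chkG cl (nat_lit 3) (l3OK td4 td12 td28 pt) s0 (nat_lit 1) = true := by decide +kernel
def s1 : List Nat := [nat_lit 0x400600b]
theorem hs1 : chkG cl (nat_lit 3) (l3OK td9 td7 td31 pt) s1 (nat_lit 2) = true := by decide +kernel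
def s2 : List Nat := [nat_lit 0x400600d]
theorem hs2 : chkG cl (nat_lit 3) (l3OK td16 td3 td31 pt) s2 (nat_lit 3) = true := by decide +kernel
def c0 : List Nat := [nat_lit 0x400000000004008800100540000032000c05]
theorem t0 : chk cl nb (nat_lit 9) c0 (nat_lit 3) = true := by decide +kernel

end

end APL.P30

namespace APL.P31

open APL.RA renaming leaf → L, node → N
open APL renaming dec → E

noncomputable section

set_option maxRecDepth 100000

def pt : RA := N (nat_lit 5) (N (nat_lit 3) (N (nat_lit 2) (N (nat_lit 1) (L (nat_lit 288234774265332736)) (L (nat_lit 288234774264939521))) (L (nat_lit 288234774265005058))) (N (nat_lit 4) (L (nat_lit 288234774265005057)) (L (nat_lit 288234774265070593)))) (N (nat_lit 7) (N (nat_lit 6) (L (nat_lit 288234774265136129)) (L (nat_lit 288234774265201665))) (N (nat_lit 8) (L (nat_lit 288234774265267201)) (L (nat_lit 288234774265332737))))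
def nb : RA := N (nat_lit 3) (N (nat_lit 2) (N (nat_lit 1) (L (E (nat_lit 2) (nat_lit 0x2000e) (nat_lit 0))) (L (E (nat_lit 1) (nat_lit 0x6) (nat_lit 0)))) (L (E (nat_lit 1) (nat_lit 0x8) (nat_lit 0)))) (N (nat_lit 6) (N (nat_lit 5) (N (nat_lit 4) (L (E (nat_lit 0) (nat_lit 0x0) (nat_lit 0))) (L (E (nat_lit 0) (nat_lit 0x0) (nat_lit 0)))) (L (E (nat_lit 0) (nat_lit 0x0) (nat_lit 0)))) (N (nat_lit 8) (N (nat_lit 7) (L (E (nat_lit 0) (nat_lit 0x0) (nat_lit 0))) (L (E (nat_lit 0) (nat_lit 0x0) (nat_lit 0)))) (L (E (nat_lit 0) (nat_lit 0x0) (nat_lit 0)))))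
def cl : RA := N (nat_lit 2) (N (nat_lit 1) (L (E (nat_lit 6) (nat_lit 0x2000e0060028010006) (nat_lit 0))) (L (E (nat_lit 3) (nat_lit 0x2c006001) (nat_lit 0)))) (N (nat_lit 3) (L (E (nat_lit 3) (nat_lit 0x34006001) (nat_lit 0))) (L (E (nat_lit 3) (nat_lit 0x14006001) (nat_lit 0))))
def nbl : List Nat := [nat_lit 0x800382, nat_lit 0x181, nat_lit 0x201, nat_lit 0x0, nat_lit 0x0, nat_lit 0x0, nat_lit 0x0, nat_lit 0x0, nat_lit 0x0]
def apl : List Nat := [nat_lit 0x2000e0060028010006]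
theorem hpt : RA.all okp pt = true := by decide +kernel
theorem hN : chkN nb td1 pt nbl (nat_lit 0) = true := by decide +kernel
theorem hA : chkG cl (nat_lit 6) (apOK td1 pt (nat_lit 5)) apl (nat_lit 0) = true := by decide +kernel
def s0 : List Nat := [nat_lit 0x400600b]
theorem hs0 : chkG cl (nat_lit 3) (l3OK td9 td7 td31 pt) s0 (nat_lit 1) = true := by decide +kernel
def s1 : List Nat := [nat_lit 0x400600d]
theorem hs1 : chkG cl (nat_lit 3) (l3OK td16 td3 td31 pt) s1 (nat_lit 2) = true := by decide +kernel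
def c0 : List Nat := [nat_lit 0x800000020000000000100540000032000805]
theorem t0 : chk cl nb (nat_lit 9) c0 (nat_lit 2) = true := by decide +kernel

end

end APL.P31

namespace APL.P32

open APL.RA renaming leaf → L, node → N
open APL renaming dec → E

noncomputable section

set_option maxRecDepth 100000

def pt : RA := N (nat_lit 15) (N (nat_lit 8) (N (nat_lit 4) (N (nat_lit 2) (N (nat_lit 1) (L (nat_lit 288234774265332736)) (L (nat_lit 288234774265463808))) (N (nat_lit 3) (L (nat_lit 288234774265201670)) (L (nat_lit 288234774265136129)))) (N (nat_lit 6) (N (nat_lit 5) (L (nat_lit 288234774265201665)) (L (nat_lit 288234774265201667))) (N (nat_lit 7) (L (nat_lit 288234774265267201)) (L (nat_lit 288234774265267202))))) (N (nat_lit 12) (N (nat_lit 10) (N (nat_lit 9) (L (nat_lit 288234774265267203)) (L (nat_lit 288234774265332734))) (N (nat_lit 11) (L (nat_lit 288234774265332737)) (L (nat_lit 288234774265332739)))) (N (nat_lit 14)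 (N (nat_lit 13) (L (nat_lit 288234774265398270)) (L (nat_lit 288234774265398272))) (L (nat_lit 288234774265398273))))) (N (nat_lit 23) (N (nat_lit 19) (N (nat_lit 17) (N (nat_lit 16) (L (nat_lit 288234774265398275)) (L (nat_lit 288234774265463806))) (N (nat_lit 18) (L (nat_lit 288234774265463807)) (L (nat_lit 288234774265463809)))) (N (nat_lit 21) (N (nat_lit 20) (L (nat_lit 288234774265463811)) (L (nat_lit 288234774265529342))) (N (nat_lit 22) (L (nat_lit 288234774265529345)) (L (nat_lit 288234774265529347))))) (N (nat_lit 27) (N (nat_lit 25) (N (nat_lit 24) (L (nat_lit 288234774265594878)) (L (nat_lit 288234774265594879))) (N (nat_lit 26) (L (nat_lit 288234774265594880)) (L (nat_lit 288234774265594881)))) (N (nat_lit 29) (N (nat_lit 28) (L (nat_lit 288234774265594882)) (L (nat_lit 288234774265594883))) (L (nat_lit 288234774265660414)))))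
def nb : RA := N (nat_lit 14) (N (nat_lit 6) (N (nat_lit 2) (N (nat_lit 1) (L (E (nat_lit 3) (nat_lit 0x6802800c) (nat_lit 0))) (L (E (nat_lit 3) (nat_lit 0x9004401c) (nat_lit 0)))) (N (nat_lit 4) (N (nat_lit 3) (L (E (nat_lit 0) (nat_lit 0x0) (nat_lit 0))) (L (E (nat_lit 0) (nat_lit 0x0) (nat_lit 0)))) (N (nat_lit 5) (L (E (nat_lit 0) (nat_lit 0x0) (nat_lit 0))) (L (E (nat_lit 0) (nat_lit 0x0) (nat_lit 0)))))) (N (nat_lit 10) (N (nat_lit 8) (N (nat_lit 7) (L (E (nat_lit 0) (nat_lit 0x0) (nat_lit 0))) (L (E (nat_lit 0) (nat_lit 0x0) (nat_lit 0)))) (N (nat_lit 9) (L (E (nat_lit 0) (nat_lit 0x0) (nat_lit 0))) (L (E (nat_lit 0) (nat_lit 0x0) (nat_lit 0))))) (N (nat_lit 12) (N (nat_lit 11) (L (E (nat_lit 0) (nat_lit 0x0) (nat_lit 0))) (L (E (nat_lit 0) (nat_lit 0x0) (nat_lit 0)))) (N (nat_lit 13) (L (E (nat_lit 0) (nat_lit 0x0) (nat_lit 0))) (L (E (nat_lit 0) (nat_lit 0x0) (nat_lit 0))))))) (N (nat_lit 22) (N (nat_lit 18) (N (nat_lit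 16) (N (nat_lit 15) (L (E (nat_lit 0) (nat_lit 0x0) (nat_lit 0))) (L (E (nat_lit 0) (nat_lit 0x0) (nat_lit 0)))) (N (nat_lit 17) (L (E (nat_lit 0) (nat_lit 0x0) (nat_lit 0))) (L (E (nat_lit 0) (nat_lit 0x0) (nat_lit 0))))) (N (nat_lit 20) (N (nat_lit 19) (L (E (nat_lit 0) (nat_lit 0x0) (nat_lit 0))) (L (E (nat_lit 0) (nat_lit 0x0) (nat_lit 0)))) (N (nat_lit 21) (L (E (nat_lit 0) (nat_lit 0x0) (nat_lit 0))) (L (E (nat_lit 0) (nat_lit 0x0) (nat_lit 0)))))) (N (nat_lit 26) (N (nat_lit 24) (N (nat_lit 23) (L (E (nat_lit 0) (nat_lit 0x0) (nat_lit 0))) (L (E (nat_lit 0) (nat_lit 0x0) (nat_lit 0)))) (N (nat_lit 25) (L (E (nat_lit 0) (nat_lit 0x0) (nat_lit 0))) (L (E (nat_lit 0) (nat_lit 0x0) (nat_lit 0))))) (N (nat_lit 28) (N (nat_lit 27) (L (E (nat_lit 0) (nat_lit 0x0) (nat_lit 0))) (L (E (nat_lit 0) (nat_lit 0x0) (nat_lit 0)))) (N (nat_lit 29) (L (E (nat_lit 0) (nat_lit 0x0) (nat_lit 0))) (L (E (nat_lit 0) (nat_lit 0x0) (nat_lit 0)))))))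
def cl : RA := N (nat_lit 11) (N (nat_lit 6) (N (nat_lit 3) (N (nat_lit 2) (N (nat_lit 1) (L (E (nat_lit 6) (nat_lit 0x4801c00a0030010006) (nat_lit 0))) (L (E (nat_lit 6) (nat_lit 0x5802600f005802000a) (nat_lit 0)))) (L (E (nat_lit 6) (nat_lit 0x6802a012007002800c) (nat_lit 0)))) (N (nat_lit 5) (N (nat_lit 4) (L (E (nat_lit 6) (nat_lit 0x7402e0140080030012) (nat_lit 0))) (L (E (nat_lit 6) (nat_lit 0x5002200d005001c00a) (nat_lit 0)))) (L (E (nat_lit 6) (nat_lit 0x7003601a00c806002e) (nat_lit 0))))) (N (nat_lit 9) (N (nat_lit 8) (N (nat_lit 7) (L (E (nat_lit 3) (nat_lit 0x5c012001) (nat_lit 0))) (L (E (nat_lit 3) (nat_lit 0xc404e003) (nat_lit 0)))) (L (E (nat_lit 3) (nat_lit 0xac022003) (nat_lit 0)))) (N (nat_lit 10) (L (E (nat_lit 3) (nat_lit 0xcc006001) (nat_lit 0))) (L (E (nat_lit 3) (nat_lit 0xec006001) (nat_lit 0)))))) (N (nat_lit 17) (N (nat_lit 14) (N (nat_lit 13) (N (nat_lit 12) (L (E (nat_lit 3) (nat_lit 0xe401e003) (nat_lit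 0))) (L (E (nat_lit 3) (nat_lit 0xdc006001) (nat_lit 0)))) (L (E (nat_lit 3) (nat_lit 0xbc006001) (nat_lit 0)))) (N (nat_lit 16) (N (nat_lit 15) (L (E (nat_lit 3) (nat_lit 0x4c006001) (nat_lit 0))) (L (E (nat_lit 3) (nat_lit 0xb4042001) (nat_lit 0)))) (L (E (nat_lit 3) (nat_lit 0xac016005) (nat_lit 0))))) (N (nat_lit 20) (N (nat_lit 19) (N (nat_lit 18) (L (E (nat_lit 3) (nat_lit 0x7c012005) (nat_lit 0))) (L (E (nat_lit 3) (nat_lit 0xac052009) (nat_lit 0)))) (L (E (nat_lit 3) (nat_lit 0xac032009) (nat_lit 0)))) (N (nat_lit 21) (L (E (nat_lit 3) (nat_lit 0x1c00a001) (nat_lit 0))) (N (nat_lit 22) (L (E (nat_lit 3) (nat_lit 0xd400a003) (nat_lit 0))) (L (E (nat_lit 3) (nat_lit 0x14006001) (nat_lit 0)))))))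
def nbl : List Nat := [nat_lit 0x1a00a00303, nat_lit 0x2401100703, nat_lit 0x0, nat_lit 0x0, nat_lit 0x0, nat_lit 0x0, nat_lit 0x0, nat_lit 0x0, nat_lit 0x0, nat_lit 0x0, nat_lit 0x0, nat_lit 0x0, nat_lit 0x0, nat_lit 0x0, nat_lit 0x0, nat_lit 0x0, nat_lit 0x0, nat_lit 0x0, nat_lit 0x0, nat_lit 0x0, nat_lit 0x0, nat_lit 0x0, nat_lit 0x0, nat_lit 0x0, nat_lit 0x0, nat_lit 0x0, nat_lit 0x0, nat_lit 0x0, nat_lit 0x0, nat_lit 0x0]
def apl : List Nat := [nat_lit 0x4801c00a0030010006, nat_lit 0x5802600f005802000a, nat_lit 0x6802a012007002800c, nat_lit 0x7402e0140080030012, nat_lit 0x1400e00a0068044028, nat_lit 0x7003601a00c806002e]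
theorem hpt : RA.all okp pt = true := by decide +kernel
theorem hN : chkN nb td1 pt nbl (nat_lit 0) = true := by decide +kernel
theorem hA : chkG cl (nat_lit 6) (apOK td1 pt (nat_lit 5)) apl (nat_lit 0) = true := by decide +kernel
def s0 : List Nat := [nat_lit 0x2402e001, nat_lit 0xc404e003, nat_lit 0xac022003]
theorem hs0 : chkG cl (nat_lit 3) (l3OK td9 td3 td12 pt) s0 (nat_lit 6) = true := by decide +kernel
def s1 : List Nat := [nat_lit 0xcc006001]
theorem hs1 : chkG cl (nat_lit 3) (l3OK td4 td16 td4 pt) s1 (nat_lit 9) = true := by decide +kernel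
def s2 : List Nat := [nat_lit 0xec002003]
theorem hs2 : chkG cl (nat_lit 3) (l3OK td4 td7 td19 pt) s2 (nat_lit 10) = true := by decide +kernel
def s3 : List Nat := [nat_lit 0xc01e039]
theorem hs3 : chkG cl (nat_lit 3) (l3OK td31 td19 td7 pt) s3 (nat_lit 11) = true := by decide +kernel
def s4 : List Nat := [nat_lit 0xdc002003]
theorem hs4 : chkG cl (nat_lit 3) (l3OK td4 td12 td28 pt) s4 (nat_lit 12) = true := by decide +kernel
def s5 : List Nat := [nat_lit 0x405e003, nat_lit 0xc026001]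
theorem hs5 : chkG cl (nat_lit 3) (l3OK td4 td4 td12 pt) s5 (nat_lit 13) = true := by decide +kernel
def s6 : List Nat := [nat_lit 0xb4042001]
theorem hs6 : chkG cl (nat_lit 3) (l3OK td4 td27 td31 pt) s6 (nat_lit 15) = true := by decide +kernel
def s7 : List Nat := [nat_lit 0xac00a00b, nat_lit 0x2400a01f, nat_lit 0x24056029, nat_lit 0xac012019]
theorem hs7 : chkG cl (nat_lit 3) (l3OK td9 td19 td25 pt) s7 (nat_lit 16) = true := by decide +kernel
def s8 : List Nat := [nat_lit 0x400a007, nat_lit 0xc00a035]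
theorem hs8 : chkG cl (nat_lit 3) (l3OK td31 td7 td28 pt) s8 (nat_lit 20) = true := by decide +kernel
def c0 : List Nat := [nat_lit 0x10000000000580ea002005d000e0128001003400600ca002406d00000348013015c00a80260034021000a00a800f00b4002007a000c05100040188011007c00900860028071000c02c8010018c00a009e003817]
theorem t0 : chk cl nb (nat_lit 30) c0 (nat_lit 21) = true := by decide +kernel

end

end APL.P32

namespace APL.P33

open APL.RA renaming leaf → L, node → N
open APL renaming dec → E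

noncomputable section

set_option maxRecDepth 100000

def pt : RA := N (nat_lit 10) (N (nat_lit 5) (N (nat_lit 3) (N (nat_lit 2) (N (nat_lit 1) (L (nat_lit 288234774265332736)) (L (nat_lit 288234774265463808))) (L (nat_lit 288234774265660416))) (N (nat_lit 4) (L (nat_lit 288234774265267201)) (L (nat_lit 288234774265332737)))) (N (nat_lit 8) (N (nat_lit 7) (N (nat_lit 6) (L (nat_lit 288234774265332738)) (L (nat_lit 288234774265332739))) (L (nat_lit 288234774265332740))) (N (nat_lit 9) (L (nat_lit 288234774265332741)) (L (nat_lit 288234774265332742))))) (N (nat_lit 15) (N (nat_lit 13) (N (nat_lit 12) (N (nat_lit 11) (L (nat_lit 288234774265398273)) (L (nat_lit 288234774265463809))) (L (nat_lit 288234774265529345))) (N (nat_lit 14) (L (nat_lit 288234774265594881)) (L (nat_lit 288234774265660410)))) (N (nat_lit 18) (N (nat_lit 17) (N (nat_lit 16) (L (nat_lit 288234774265660411)) (L (nat_lit 288234774265660412))) (L (nat_lit 288234774265660413)))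 (N (nat_lit 19) (L (nat_lit 288234774265660414)) (L (nat_lit 288234774265660415)))))
def nb : RA := N (nat_lit 9) (N (nat_lit 3) (N (nat_lit 2) (N (nat_lit 1) (L (E (nat_lit 2) (nat_lit 0x10006) (nat_lit 0))) (L (E (nat_lit 2) (nat_lit 0x2c014) (nat_lit 0)))) (L (E (nat_lit 2) (nat_lit 0x4c01a) (nat_lit 0)))) (N (nat_lit 6) (N (nat_lit 5) (N (nat_lit 4) (L (E (nat_lit 0) (nat_lit 0x0) (nat_lit 0))) (L (E (nat_lit 0) (nat_lit 0x0) (nat_lit 0)))) (L (E (nat_lit 0) (nat_lit 0x0) (nat_lit 0)))) (N (nat_lit 8) (N (nat_lit 7) (L (E (nat_lit 0) (nat_lit 0x0) (nat_lit 0))) (L (E (nat_lit 0) (nat_lit 0x0) (nat_lit 0)))) (L (E (nat_lit 0) (nat_lit 0x0) (nat_lit 0)))))) (N (nat_lit 15) (N (nat_lit 12) (N (nat_lit 11) (N (nat_lit 10) (L (E (nat_lit 0) (nat_lit 0x0) (nat_lit 0))) (L (E (nat_lit 0) (nat_lit 0x0) (nat_lit 0)))) (L (E (nat_lit 0) (nat_lit 0x0) (nat_lit 0)))) (N (nat_lit 14) (N (nat_lit 13) (L (E (nat_lit 0) (nat_lit 0x0) (nat_lit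 0))) (L (E (nat_lit 0) (nat_lit 0x0) (nat_lit 0)))) (L (E (nat_lit 0) (nat_lit 0x0) (nat_lit 0))))) (N (nat_lit 18) (N (nat_lit 17) (N (nat_lit 16) (L (E (nat_lit 0) (nat_lit 0x0) (nat_lit 0))) (L (E (nat_lit 0) (nat_lit 0x0) (nat_lit 0)))) (L (E (nat_lit 0) (nat_lit 0x0) (nat_lit 0)))) (N (nat_lit 19) (L (E (nat_lit 0) (nat_lit 0x0) (nat_lit 0))) (L (E (nat_lit 0) (nat_lit 0x0) (nat_lit 0))))))
def cl : RA := N (nat_lit 6) (N (nat_lit 3) (N (nat_lit 2) (N (nat_lit 1) (L (E (nat_lit 6) (nat_lit 0x3401800b0050010006) (nat_lit 0))) (L (E (nat_lit 6) (nat_lit 0x240100070030014008) (nat_lit 0)))) (L (E (nat_lit 6) (nat_lit 0x4c024011008003c01c) (nat_lit 0)))) (N (nat_lit 5) (N (nat_lit 4) (L (E (nat_lit 3) (nat_lit 0x94006001) (nat_lit 0))) (L (E (nat_lit 3) (nat_lit 0x8403200b) (nat_lit 0)))) (L (E (nat_lit 3) (nat_lit 0x3c006001) (nat_lit 0))))) (N (nat_lit 9) (N (nat_lit 8) (N (nat_lit 7) (L (E (nat_lit 3) (nat_lit 0x74006001) (nat_lit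 0))) (L (E (nat_lit 3) (nat_lit 0x4c00a003) (nat_lit 0)))) (L (E (nat_lit 3) (nat_lit 0x4400a003) (nat_lit 0)))) (N (nat_lit 11) (N (nat_lit 10) (L (E (nat_lit 3) (nat_lit 0x3400a001) (nat_lit 0))) (L (E (nat_lit 3) (nat_lit 0x8c00a001) (nat_lit 0)))) (N (nat_lit 12) (L (E (nat_lit 3) (nat_lit 0x7c00a003) (nat_lit 0))) (L (E (nat_lit 3) (nat_lit 0x14006001) (nat_lit 0))))))
def nbl : List Nat := [nat_lit 0x400182, nat_lit 0xb00502, nat_lit 0x1300682, nat_lit 0x0, nat_lit 0x0, nat_lit 0x0, nat_lit 0x0, nat_lit 0x0, nat_lit 0x0, nat_lit 0x0, nat_lit 0x0, nat_lit 0x0, nat_lit 0x0, nat_lit 0x0, nat_lit 0x0, nat_lit 0x0, nat_lit 0x0, nat_lit 0x0, nat_lit 0x0, nat_lit 0x0]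
def apl : List Nat := [nat_lit 0x3401800b0050010006, nat_lit 0x240100070030014008, nat_lit 0x4c024011008003c01c]
theorem hpt : RA.all okp pt = true := by decide +kernel
theorem hN : chkN nb td1 pt nbl (nat_lit 0) = true := by decide +kernel
theorem hA : chkG cl (nat_lit 6) (apOK td1 pt (nat_lit 5)) apl (nat_lit 0) = true := by decide +kernel
def s0 : List Nat := [nat_lit 0x94002003]
theorem hs0 : chkG cl (nat_lit 3) (l3OK td4 td7 td19 pt) s0 (nat_lit 3) = true := by decide +kernel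
def s1 : List Nat := [nat_lit 0x64016021]
theorem hs1 : chkG cl (nat_lit 3) (l3OK td31 td19 td7 pt) s1 (nat_lit 4) = true := by decide +kernel
def s2 : List Nat := [nat_lit 0x3c002003]
theorem hs2 : chkG cl (nat_lit 3) (l3OK td4 td12 td16 pt) s2 (nat_lit 5) = true := by decide +kernel
def s3 : List Nat := [nat_lit 0x74002003]
theorem hs3 : chkG cl (nat_lit 3) (l3OK td4 td27 td31 pt) s3 (nat_lit 6) = true := by decide +kernel
def s4 : List Nat := [nat_lit 0x4c00a003]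
theorem hs4 : chkG cl (nat_lit 3) (l3OK td9 td28 td31 pt) s4 (nat_lit 7) = true := by decide +kernel
def s5 : List Nat := [nat_lit 0x4400a003, nat_lit 0x1400200d, nat_lit 0x400a023, nat_lit 0x7c00a003]
theorem hs5 : chkG cl (nat_lit 3) (l3OK td9 td19 td25 pt) s5 (nat_lit 8) = true := by decide +kernel
def c0 : List Nat := [nat_lit 0x10000000400000000010024800500e4000808a001801d000001e80040094001804200080190016019800a005c0048086001c0e]
theorem t0 : chk cl nb (nat_lit 20) c0 (nat_lit 11) = true := by decide +kernel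

end

end APL.P33

namespace APL.P35

open APL.RA renaming leaf → L, node → N
open APL renaming dec → E

noncomputable section

set_option maxRecDepth 100000

def pt : RA := N (nat_lit 5) (N (nat_lit 3) (N (nat_lit 2) (N (nat_lit 1) (L (nat_lit 288234774265332736)) (L (nat_lit 288234774265529344))) (L (nat_lit 288234774265398273))) (N (nat_lit 4) (L (nat_lit 288234774265201666)) (L (nat_lit 288234774265267202)))) (N (nat_lit 7) (N (nat_lit 6) (L (nat_lit 288234774265332738)) (L (nat_lit 288234774265398274))) (N (nat_lit 8) (L (nat_lit 288234774265463810)) (L (nat_lit 288234774265529346))))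
def nb : RA := N (nat_lit 4) (N (nat_lit 2) (N (nat_lit 1) (L (E (nat_lit 0) (nat_lit 0x0) (nat_lit 0))) (L (E (nat_lit 0) (nat_lit 0x0) (nat_lit 0)))) (N (nat_lit 3) (L (E (nat_lit 2) (nat_lit 0x1800a) (nat_lit 0))) (L (E (nat_lit 0) (nat_lit 0x0) (nat_lit 0))))) (N (nat_lit 7) (N (nat_lit 6) (N (nat_lit 5) (L (E (nat_lit 0) (nat_lit 0x0) (nat_lit 0))) (L (E (nat_lit 0) (nat_lit 0x0) (nat_lit 0)))) (L (E (nat_lit 0) (nat_lit 0x0) (nat_lit 0)))) (N (nat_lit 8) (L (E (nat_lit 0) (nat_lit 0x0) (nat_lit 0))) (L (E (nat_lit 0) (nat_lit 0x0) (nat_lit 0)))))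
def cl : RA := N (nat_lit 3) (N (nat_lit 2) (N (nat_lit 1) (L (E (nat_lit 6) (nat_lit 0x2000e0060028010006) (nat_lit 0))) (L (E (nat_lit 3) (nat_lit 0x24006001) (nat_lit 0)))) (L (E (nat_lit 3) (nat_lit 0x3c006001) (nat_lit 0)))) (N (nat_lit 4) (L (E (nat_lit 3) (nat_lit 0x1c006001) (nat_lit 0))) (N (nat_lit 5) (L (E (nat_lit 3) (nat_lit 0x44006001) (nat_lit 0))) (L (E (nat_lit 3) (nat_lit 0x14006001) (nat_lit 0)))))
def nbl : List Nat := [nat_lit 0x0, nat_lit 0x0, nat_lit 0x600282, nat_lit 0x0, nat_lit 0x0, nat_lit 0x0, nat_lit 0x0, nat_lit 0x0, nat_lit 0x0]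
def apl : List Nat := [nat_lit 0x2000e0060028010006]
theorem hpt : RA.all okp pt = true := by decide +kernel
theorem hN : chkN nb td1 pt nbl (nat_lit 0) = true := by decide +kernel
theorem hA : chkG cl (nat_lit 6) (apOK td1 pt (nat_lit 5)) apl (nat_lit 0) = true := by decide +kernel
def s0 : List Nat := [nat_lit 0x24006001, nat_lit 0x3c002003]
theorem hs0 : chkG cl (nat_lit 3) (l3OK td9 td3 td12 pt) s0 (nat_lit 1) = true := by decide +kernel
def s1 : List Nat := [nat_lit 0xc00e001, nat_lit 0x4022003]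
theorem hs1 : chkG cl (nat_lit 3) (l3OK td4 td9 td19 pt) s1 (nat_lit 3) = true := by decide +kernel
def c0 : List Nat := [nat_lit 0x8000c011000400e800100340000042001005]
theorem t0 : chk cl nb (nat_lit 9) c0 (nat_lit 4) = true := by decide +kernel

end

end APL.P35

namespace APL.P36

open APL.RA renaming leaf → L, node → N
open APL renaming dec → E

noncomputable section

set_option maxRecDepth 100000

def pt : RA := N (nat_lit 5) (N (nat_lit 3) (N (nat_lit 2) (N (nat_lit 1) (L (nat_lit 288234774265332736)) (L (nat_lit 288234774265463808))) (L (nat_lit 288234774265267203))) (N (nat_lit 4) (L (nat_lit 288234774265136130)) (L (nat_lit 288234774265201666)))) (N (nat_lit 7) (N (nat_lit 6) (L (nat_lit 288234774265267202)) (L (nat_lit 288234774265332738))) (N (nat_lit 8) (L (nat_lit 288234774265398274)) (L (nat_lit 288234774265463810))))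
def nb : RA := N (nat_lit 4) (N (nat_lit 2) (N (nat_lit 1) (L (E (nat_lit 0) (nat_lit 0x0) (nat_lit 0))) (L (E (nat_lit 0) (nat_lit 0x0) (nat_lit 0)))) (N (nat_lit 3) (L (E (nat_lit 2) (nat_lit 0x1800a) (nat_lit 0))) (L (E (nat_lit 0) (nat_lit 0x0) (nat_lit 0))))) (N (nat_lit 7) (N (nat_lit 6) (N (nat_lit 5) (L (E (nat_lit 0) (nat_lit 0x0) (nat_lit 0))) (L (E (nat_lit 0) (nat_lit 0x0) (nat_lit 0)))) (L (E (nat_lit 0) (nat_lit 0x0) (nat_lit 0)))) (N (nat_lit 8) (L (E (nat_lit 0) (nat_lit 0x0) (nat_lit 0))) (L (E (nat_lit 0) (nat_lit 0x0) (nat_lit 0)))))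
def cl : RA := N (nat_lit 3) (N (nat_lit 2) (N (nat_lit 1) (L (E (nat_lit 6) (nat_lit 0x2000e0060028010006) (nat_lit 0))) (L (E (nat_lit 3) (nat_lit 0x2400a003) (nat_lit 0)))) (L (E (nat_lit 3) (nat_lit 0x1c006001) (nat_lit 0)))) (N (nat_lit 4) (L (E (nat_lit 3) (nat_lit 0x44006001) (nat_lit 0))) (N (nat_lit 5) (L (E (nat_lit 3) (nat_lit 0x3c00a003) (nat_lit 0))) (L (E (nat_lit 3) (nat_lit 0x14006001) (nat_lit 0)))))
def nbl : List Nat := [nat_lit 0x0, nat_lit 0x0, nat_lit 0x600282, nat_lit 0x0, nat_lit 0x0, nat_lit 0x0, nat_lit 0x0, nat_lit 0x0, nat_lit 0x0]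
def apl : List Nat := [nat_lit 0x2000e0060028010006]
theorem hpt : RA.all okp pt = true := by decide +kernel
theorem hN : chkN nb td1 pt nbl (nat_lit 0) = true := by decide +kernel
theorem hA : chkG cl (nat_lit 6) (apOK td1 pt (nat_lit 5)) apl (nat_lit 0) = true := by decide +kernel
def s0 : List Nat := [nat_lit 0x24006005]
theorem hs0 : chkG cl (nat_lit 3) (l3OK td9 td3 td12 pt) s0 (nat_lit 1) = true := by decide +kernel
def s1 : List Nat := [nat_lit 0x1c006001]
theorem hs1 : chkG cl (nat_lit 3) (l3OK td4 td7 td19 pt) s1 (nat_lit 2) = true := by decide +kernel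
def s2 : List Nat := [nat_lit 0x44002003]
theorem hs2 : chkG cl (nat_lit 3) (l3OK td4 td4 td12 pt) s2 (nat_lit 3) = true := by decide +kernel
def s3 : List Nat := [nat_lit 0x3c00a003]
theorem hs3 : chkG cl (nat_lit 3) (l3OK td9 td3 td3 pt) s3 (nat_lit 4) = true := by decide +kernel
def c0 : List Nat := [nat_lit 0x8000c011000400680010084000003a001005]
theorem t0 : chk cl nb (nat_lit 9) c0 (nat_lit 4) = true := by decide +kernel

end

end APL.P36

namespace APL.P37

open APL.RA renaming leaf → L, node → N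
open APL renaming dec → E

noncomputable section

set_option maxRecDepth 100000

def pt : RA := N (nat_lit 5) (N (nat_lit 3) (N (nat_lit 2) (N (nat_lit 1) (L (nat_lit 288234774265332736)) (L (nat_lit 288234774265529344))) (L (nat_lit 288234774265267203))) (N (nat_lit 4) (L (nat_lit 288234774265332734)) (L (nat_lit 288234774265398270)))) (N (nat_lit 7) (N (nat_lit 6) (L (nat_lit 288234774265463806)) (L (nat_lit 288234774265529342))) (N (nat_lit 8) (L (nat_lit 288234774265594878)) (L (nat_lit 288234774265660414))))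
def nb : RA := N (nat_lit 5) (N (nat_lit 3) (N (nat_lit 2) (N (nat_lit 1) (L (E (nat_lit 0) (nat_lit 0x0) (nat_lit 0))) (L (E (nat_lit 0) (nat_lit 0x0) (nat_lit 0)))) (L (E (nat_lit 0) (nat_lit 0x0) (nat_lit 0)))) (N (nat_lit 4) (L (E (nat_lit 0) (nat_lit 0x0) (nat_lit 0))) (L (E (nat_lit 0) (nat_lit 0x0) (nat_lit 0))))) (N (nat_lit 7) (N (nat_lit 6) (L (E (nat_lit 0) (nat_lit 0x0) (nat_lit 0))) (L (E (nat_lit 0) (nat_lit 0x0) (nat_lit 0)))) (N (nat_lit 8) (L (E (nat_lit 0) (nat_lit 0x0) (nat_lit 0))) (L (E (nat_lit 0) (nat_lit 0x0) (nat_lit 0)))))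
def cl : RA := N (nat_lit 4) (N (nat_lit 2) (N (nat_lit 1) (L (E (nat_lit 6) (nat_lit 0x2000e0060028010006) (nat_lit 0))) (L (E (nat_lit 3) (nat_lit 0x3c006001) (nat_lit 0)))) (N (nat_lit 3) (L (E (nat_lit 3) (nat_lit 0x24006001) (nat_lit 0))) (L (E (nat_lit 3) (nat_lit 0x2c00a001) (nat_lit 0))))) (N (nat_lit 6) (N (nat_lit 5) (L (E (nat_lit 3) (nat_lit 0x4400a001) (nat_lit 0))) (L (E (nat_lit 3) (nat_lit 0x1c006001) (nat_lit 0)))) (N (nat_lit 7) (L (E (nat_lit 3) (nat_lit 0x34006001) (nat_lit 0))) (L (E (nat_lit 3) (nat_lit 0x14006001) (nat_lit 0)))))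
def nbl : List Nat := [nat_lit 0x0, nat_lit 0x0, nat_lit 0x0, nat_lit 0x0, nat_lit 0x0, nat_lit 0x0, nat_lit 0x0, nat_lit 0x0, nat_lit 0x0]
def apl : List Nat := [nat_lit 0x2000e0060028010006]
theorem hpt : RA.all okp pt = true := by decide +kernel
theorem hN : chkN nb td1 pt nbl (nat_lit 0) = true := by decide +kernel
theorem hA : chkG cl (nat_lit 6) (apOK td1 pt (nat_lit 5)) apl (nat_lit 0) = true := by decide +kernel
def s0 : List Nat := [nat_lit 0x3c002003, nat_lit 0x24006001]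
theorem hs0 : chkG cl (nat_lit 3) (l3OK td9 td3 td12 pt) s0 (nat_lit 1) = true := by decide +kernel
def s1 : List Nat := [nat_lit 0x14016001]
theorem hs1 : chkG cl (nat_lit 3) (l3OK td4 td7 td19 pt) s1 (nat_lit 3) = true := by decide +kernel
def s2 : List Nat := [nat_lit 0x400a011]
theorem hs2 : chkG cl (nat_lit 3) (l3OK td31 td19 td7 pt) s2 (nat_lit 4) = true := by decide +kernel
def s3 : List Nat := [nat_lit 0xc00e001]
theorem hs3 : chkG cl (nat_lit 3) (l3OK td4 td9 td19 pt) s3 (nat_lit 5) = true := by decide +kernel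
def s4 : List Nat := [nat_lit 0x400600d]
theorem hs4 : chkG cl (nat_lit 3) (l3OK td4 td7 td9 pt) s4 (nat_lit 6) = true := by decide +kernel
def c0 : List Nat := [nat_lit 0x500740020022000c0150004010800100340000032001806]
theorem t0 : chk cl nb (nat_lit 9) c0 (nat_lit 6) = true := by decide +kernel

end

end APL.P37

namespace APL.P38

open APL.RA renaming leaf → L, node → N
open APL renaming dec → E

noncomputable section

set_option maxRecDepth 100000

def pt : RA := N (nat_lit 5) (N (nat_lit 3) (N (nat_lit 2) (N (nat_lit 1) (L (nat_lit 288234774265332736)) (L (nat_lit 288234774265529344))) (L (nat_lit 288234774265201667))) (N (nat_lit 4) (L (nat_lit 288234774265398271)) (L (nat_lit 288234774265398272)))) (N (nat_lit 7) (N (nat_lit 6) (L (nat_lit 288234774265398273)) (L (nat_lit 288234774265398274))) (N (nat_lit 8) (L (nat_lit 288234774265398275)) (L (nat_lit 288234774265398276))))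
def nb : RA := N (nat_lit 4) (N (nat_lit 2) (N (nat_lit 1) (L (E (nat_lit 2) (nat_lit 0x10006) (nat_lit 0))) (L (E (nat_lit 0) (nat_lit 0x0) (nat_lit 0)))) (N (nat_lit 3) (L (E (nat_lit 0) (nat_lit 0x0) (nat_lit 0))) (L (E (nat_lit 0) (nat_lit 0x0) (nat_lit 0))))) (N (nat_lit 7) (N (nat_lit 6) (N (nat_lit 5) (L (E (nat_lit 0) (nat_lit 0x0) (nat_lit 0))) (L (E (nat_lit 0) (nat_lit 0x0) (nat_lit 0)))) (L (E (nat_lit 0) (nat_lit 0x0) (nat_lit 0)))) (N (nat_lit 8) (L (E (nat_lit 0) (nat_lit 0x0) (nat_lit 0))) (L (E (nat_lit 0) (nat_lit 0x0) (nat_lit 0)))))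
def cl : RA := N (nat_lit 3) (N (nat_lit 2) (N (nat_lit 1) (L (E (nat_lit 6) (nat_lit 0x2000e0060028010006) (nat_lit 0))) (L (E (nat_lit 3) (nat_lit 0x3400a003) (nat_lit 0)))) (L (E (nat_lit 3) (nat_lit 0x44006001) (nat_lit 0)))) (N (nat_lit 4) (L (E (nat_lit 3) (nat_lit 0x2c006001) (nat_lit 0))) (N (nat_lit 5) (L (E (nat_lit 3) (nat_lit 0x3c006001) (nat_lit 0))) (L (E (nat_lit 3) (nat_lit 0x14006001) (nat_lit 0)))))
def nbl : List Nat := [nat_lit 0x400182, nat_lit 0x0, nat_lit 0x0, nat_lit 0x0, nat_lit 0x0, nat_lit 0x0, nat_lit 0x0, nat_lit 0x0, nat_lit 0x0]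
def apl : List Nat := [nat_lit 0x2000e0060028010006]
theorem hpt : RA.all okp pt = true := by decide +kernel
theorem hN : chkN nb td1 pt nbl (nat_lit 0) = true := by decide +kernel
theorem hA : chkG cl (nat_lit 6) (apOK td1 pt (nat_lit 5)) apl (nat_lit 0) = true := by decide +kernel
def s0 : List Nat := [nat_lit 0x1400600d]
theorem hs0 : chkG cl (nat_lit 3) (l3OK td4 td7 td19 pt) s0 (nat_lit 1) = true := by decide +kernel
def s1 : List Nat := [nat_lit 0x44002003]
theorem hs1 : chkG cl (nat_lit 3) (l3OK td9 td12 td21 pt) s1 (nat_lit 2) = true := by decide +kernel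
def s2 : List Nat := [nat_lit 0x2c006001]
theorem hs2 : chkG cl (nat_lit 3) (l3OK td9 td3 td3 pt) s2 (nat_lit 3) = true := by decide +kernel
def s3 : List Nat := [nat_lit 0x3c002003]
theorem hs3 : chkG cl (nat_lit 3) (l3OK td9 td7 td13 pt) s3 (nat_lit 4) = true := by decide +kernel
def c0 : List Nat := [nat_lit 0xc019000401080010054000003a001005]
theorem t0 : chk cl nb (nat_lit 9) c0 (nat_lit 4) = true := by decide +kernel

end

end APL.P38

namespace APL.P39

open APL.RA renaming leaf → L, node → N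
open APL renaming dec → E

noncomputable section

set_option maxRecDepth 100000

def pt : RA := N (nat_lit 5) (N (nat_lit 3) (N (nat_lit 2) (N (nat_lit 1) (L (nat_lit 288234774265332736)) (L (nat_lit 288234774265529344))) (L (nat_lit 288234774265267204))) (N (nat_lit 4) (L (nat_lit 288234774265398271)) (L (nat_lit 288234774265398272)))) (N (nat_lit 7) (N (nat_lit 6) (L (nat_lit 288234774265398273)) (L (nat_lit 288234774265398274))) (N (nat_lit 8) (L (nat_lit 288234774265398275)) (L (nat_lit 288234774265398276))))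
def nb : RA := N (nat_lit 4) (N (nat_lit 2) (N (nat_lit 1) (L (E (nat_lit 2) (nat_lit 0x10006) (nat_lit 0))) (L (E (nat_lit 0) (nat_lit 0x0) (nat_lit 0)))) (N (nat_lit 3) (L (E (nat_lit 0) (nat_lit 0x0) (nat_lit 0))) (L (E (nat_lit 0) (nat_lit 0x0) (nat_lit 0))))) (N (nat_lit 7) (N (nat_lit 6) (N (nat_lit 5) (L (E (nat_lit 0) (nat_lit 0x0) (nat_lit 0))) (L (E (nat_lit 0) (nat_lit 0x0) (nat_lit 0)))) (L (E (nat_lit 0) (nat_lit 0x0) (nat_lit 0)))) (N (nat_lit 8) (L (E (nat_lit 0) (nat_lit 0x0) (nat_lit 0))) (L (E (nat_lit 0) (nat_lit 0x0) (nat_lit 0)))))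
def cl : RA := N (nat_lit 3) (N (nat_lit 2) (N (nat_lit 1) (L (E (nat_lit 6) (nat_lit 0x2000e0060028010006) (nat_lit 0))) (L (E (nat_lit 3) (nat_lit 0x3400a003) (nat_lit 0)))) (L (E (nat_lit 3) (nat_lit 0x44006001) (nat_lit 0)))) (N (nat_lit 4) (L (E (nat_lit 3) (nat_lit 0x2c006001) (nat_lit 0))) (N (nat_lit 5) (L (E (nat_lit 3) (nat_lit 0x3c006001) (nat_lit 0))) (L (E (nat_lit 3) (nat_lit 0x14006001) (nat_lit 0)))))
def nbl : List Nat := [nat_lit 0x400182, nat_lit 0x0, nat_lit 0x0, nat_lit 0x0, nat_lit 0x0, nat_lit 0x0, nat_lit 0x0, nat_lit 0x0, nat_lit 0x0]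
def apl : List Nat := [nat_lit 0x2000e0060028010006]
theorem hpt : RA.all okp pt = true := by decide +kernel
theorem hN : chkN nb td1 pt nbl (nat_lit 0) = true := by decide +kernel
theorem hA : chkG cl (nat_lit 6) (apOK td1 pt (nat_lit 5)) apl (nat_lit 0) = true := by decide +kernel
def s0 : List Nat := [nat_lit 0x1401a003]
theorem hs0 : chkG cl (nat_lit 3) (l3OK td4 td16 td4 pt) s0 (nat_lit 1) = true := by decide +kernel
def s1 : List Nat := [nat_lit 0x44002003]
theorem hs1 : chkG cl (nat_lit 3) (l3OK td9 td12 td21 pt) s1 (nat_lit 2) = true := by decide +kernel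
def s2 : List Nat := [nat_lit 0x2c006001]
theorem hs2 : chkG cl (nat_lit 3) (l3OK td9 td3 td3 pt) s2 (nat_lit 3) = true := by decide +kernel
def s3 : List Nat := [nat_lit 0x3c002003]
theorem hs3 : chkG cl (nat_lit 3) (l3OK td9 td7 td13 pt) s3 (nat_lit 4) = true := by decide +kernel
def c0 : List Nat := [nat_lit 0xc019000401080010054000003a001005]
theorem t0 : chk cl nb (nat_lit 9) c0 (nat_lit 4) = true := by decide +kernel

end

end APL.P39

namespace APL.P40

open APL.RA renaming leaf → L, node → N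
open APL renaming dec → E

noncomputable section

set_option maxRecDepth 100000

def pt : RA := N (nat_lit 5) (N (nat_lit 3) (N (nat_lit 2) (N (nat_lit 1) (L (nat_lit 288234774265332736)) (L (nat_lit 288234774265529344))) (L (nat_lit 288234774265136130))) (N (nat_lit 4) (L (nat_lit 288234774265398271)) (L (nat_lit 288234774265398272)))) (N (nat_lit 7) (N (nat_lit 6) (L (nat_lit 288234774265398273)) (L (nat_lit 288234774265398274))) (N (nat_lit 8) (L (nat_lit 288234774265398275)) (L (nat_lit 288234774265398276))))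
def nb : RA := N (nat_lit 4) (N (nat_lit 2) (N (nat_lit 1) (L (E (nat_lit 2) (nat_lit 0x10006) (nat_lit 0))) (L (E (nat_lit 0) (nat_lit 0x0) (nat_lit 0)))) (N (nat_lit 3) (L (E (nat_lit 0) (nat_lit 0x0) (nat_lit 0))) (L (E (nat_lit 0) (nat_lit 0x0) (nat_lit 0))))) (N (nat_lit 7) (N (nat_lit 6) (N (nat_lit 5) (L (E (nat_lit 0) (nat_lit 0x0) (nat_lit 0))) (L (E (nat_lit 0) (nat_lit 0x0) (nat_lit 0)))) (L (E (nat_lit 0) (nat_lit 0x0) (nat_lit 0)))) (N (nat_lit 8) (L (E (nat_lit 0) (nat_lit 0x0) (nat_lit 0))) (L (E (nat_lit 0) (nat_lit 0x0) (nat_lit 0)))))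
def cl : RA := N (nat_lit 3) (N (nat_lit 2) (N (nat_lit 1) (L (E (nat_lit 6) (nat_lit 0x2000e0060028010006) (nat_lit 0))) (L (E (nat_lit 3) (nat_lit 0x44006001) (nat_lit 0)))) (L (E (nat_lit 3) (nat_lit 0x2c006001) (nat_lit 0)))) (N (nat_lit 4) (L (E (nat_lit 3) (nat_lit 0x34006001) (nat_lit 0))) (N (nat_lit 5) (L (E (nat_lit 3) (nat_lit 0x3c006001) (nat_lit 0))) (L (E (nat_lit 2) (nat_lit 0x6001) (nat_lit 0)))))
def nbl : List Nat := [nat_lit 0x400182, nat_lit 0x0, nat_lit 0x0, nat_lit 0x0, nat_lit 0x0, nat_lit 0x0, nat_lit 0x0, nat_lit 0x0, nat_lit 0x0]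
def apl : List Nat := [nat_lit 0x2000e0060028010006]
theorem hpt : RA.all okp pt = true := by decide +kernel
theorem hN : chkN nb td1 pt nbl (nat_lit 0) = true := by decide +kernel
theorem hA : chkG cl (nat_lit 6) (apOK td1 pt (nat_lit 5)) apl (nat_lit 0) = true := by decide +kernel
def s0 : List Nat := [nat_lit 0x44002003]
theorem hs0 : chkG cl (nat_lit 3) (l3OK td9 td12 td21 pt) s0 (nat_lit 1) = true := by decide +kernel
def s1 : List Nat := [nat_lit 0x2c006001]
theorem hs1 : chkG cl (nat_lit 3) (l3OK td9 td3 td3 pt) s1 (nat_lit 2) = true := by decide +kernel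
def s2 : List Nat := [nat_lit 0x400600d]
theorem hs2 : chkG cl (nat_lit 3) (l3OK td4 td7 td9 pt) s2 (nat_lit 3) = true := by decide +kernel
def s3 : List Nat := [nat_lit 0x3c002003]
theorem hs3 : chkG cl (nat_lit 3) (l3OK td9 td7 td13 pt) s3 (nat_lit 4) = true := by decide +kernel
def c0 : List Nat := [nat_lit 0xc021000400a80010064000003a001005]
theorem t0 : chk cl nb (nat_lit 9) c0 (nat_lit 4) = true := by decide +kernel

end

end APL.P40

namespace APL.P41

open APL.RA renaming leaf → L, node → N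
open APL renaming dec → E

noncomputable section

set_option maxRecDepth 100000

def pt : RA := N (nat_lit 5) (N (nat_lit 3) (N (nat_lit 2) (N (nat_lit 1) (L (nat_lit 288234774265332736)) (L (nat_lit 288234774265529344))) (L (nat_lit 288234774265136131))) (N (nat_lit 4) (L (nat_lit 288234774265398271)) (L (nat_lit 288234774265398272)))) (N (nat_lit 7) (N (nat_lit 6) (L (nat_lit 288234774265398273)) (L (nat_lit 288234774265398274))) (N (nat_lit 8) (L (nat_lit 288234774265398275)) (L (nat_lit 288234774265398276))))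
def nb : RA := N (nat_lit 4) (N (nat_lit 2) (N (nat_lit 1) (L (E (nat_lit 2) (nat_lit 0x10006) (nat_lit 0))) (L (E (nat_lit 0) (nat_lit 0x0) (nat_lit 0)))) (N (nat_lit 3) (L (E (nat_lit 0) (nat_lit 0x0) (nat_lit 0))) (L (E (nat_lit 0) (nat_lit 0x0) (nat_lit 0))))) (N (nat_lit 7) (N (nat_lit 6) (N (nat_lit 5) (L (E (nat_lit 0) (nat_lit 0x0) (nat_lit 0))) (L (E (nat_lit 0) (nat_lit 0x0) (nat_lit 0)))) (L (E (nat_lit 0) (nat_lit 0x0) (nat_lit 0)))) (N (nat_lit 8) (L (E (nat_lit 0) (nat_lit 0x0) (nat_lit 0))) (L (E (nat_lit 0) (nat_lit 0x0) (nat_lit 0)))))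
def cl : RA := N (nat_lit 3) (N (nat_lit 2) (N (nat_lit 1) (L (E (nat_lit 6) (nat_lit 0x2000e0060028010006) (nat_lit 0))) (L (E (nat_lit 3) (nat_lit 0x2c00a001) (nat_lit 0)))) (L (E (nat_lit 3) (nat_lit 0x44006001) (nat_lit 0)))) (N (nat_lit 4) (L (E (nat_lit 3) (nat_lit 0x3c006001) (nat_lit 0))) (N (nat_lit 5) (L (E (nat_lit 3) (nat_lit 0x3400a001) (nat_lit 0))) (L (E (nat_lit 3) (nat_lit 0x14006001) (nat_lit 0)))))
def nbl : List Nat := [nat_lit 0x400182, nat_lit 0x0, nat_lit 0x0, nat_lit 0x0, nat_lit 0x0, nat_lit 0x0, nat_lit 0x0, nat_lit 0x0, nat_lit 0x0]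
def apl : List Nat := [nat_lit 0x2000e0060028010006]
theorem hpt : RA.all okp pt = true := by decide +kernel
theorem hN : chkN nb td1 pt nbl (nat_lit 0) = true := by decide +kernel
theorem hA : chkG cl (nat_lit 6) (apOK td1 pt (nat_lit 5)) apl (nat_lit 0) = true := by decide +kernel
def s0 : List Nat := [nat_lit 0x2c00a001]
theorem hs0 : chkG cl (nat_lit 3) (l3OK td9 td3 td12 pt) s0 (nat_lit 1) = true := by decide +kernel
def s1 : List Nat := [nat_lit 0x44002003]
theorem hs1 : chkG cl (nat_lit 3) (l3OK td9 td12 td21 pt) s1 (nat_lit 2) = true := by decide +kernel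
def s2 : List Nat := [nat_lit 0x3c002003, nat_lit 0x3400a001]
theorem hs2 : chkG cl (nat_lit 3) (l3OK td9 td7 td13 pt) s2 (nat_lit 3) = true := by decide +kernel
def c0 : List Nat := [nat_lit 0xc015000000c80020084000803a001005]
theorem t0 : chk cl nb (nat_lit 9) c0 (nat_lit 4) = true := by decide +kernel

end

end APL.P41

namespace APL.P42

open APL.RA renaming leaf → L, node → N
open APL renaming dec → E

noncomputable section

set_option maxRecDepth 100000

def pt : RA := N (nat_lit 8) (N (nat_lit 4) (N (nat_lit 2) (N (nat_lit 1) (L (nat_lit 288234774265332736)) (L (nat_lit 288234774265594880))) (N (nat_lit 3) (L (nat_lit 288234774265201667)) (L (nat_lit 288234774265201670)))) (N (nat_lit 6) (N (nat_lit 5) (L (nat_lit 288234774265267199)) (L (nat_lit 288234774265267200))) (N (nat_lit 7) (L (nat_lit 288234774265267201)) (L (nat_lit 288234774265267202))))) (N (nat_lit 12) (N (nat_lit 10) (N (nat_lit 9) (L (nat_lit 288234774265267203))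 (L (nat_lit 288234774265267204))) (N (nat_lit 11) (L (nat_lit 288234774265267205)) (L (nat_lit 288234774265332740)))) (N (nat_lit 14) (N (nat_lit 13) (L (nat_lit 288234774265398275)) (L (nat_lit 288234774265463810))) (L (nat_lit 288234774265529345))))
def nb : RA := N (nat_lit 7) (N (nat_lit 3) (N (nat_lit 2) (N (nat_lit 1) (L (E (nat_lit 2) (nat_lit 0x1800a) (nat_lit 0))) (L (E (nat_lit 1) (nat_lit 0x1c) (nat_lit 0)))) (L (E (nat_lit 2) (nat_lit 0x2000e) (nat_lit 0)))) (N (nat_lit 5) (N (nat_lit 4) (L (E (nat_lit 0) (nat_lit 0x0) (nat_lit 0))) (L (E (nat_lit 0) (nat_lit 0x0) (nat_lit 0)))) (N (nat_lit 6) (L (E (nat_lit 0) (nat_lit 0x0) (nat_lit 0))) (L (E (nat_lit 0) (nat_lit 0x0) (nat_lit 0)))))) (N (nat_lit 11) (N (nat_lit 9) (N (nat_lit 8) (L (E (nat_lit 0) (nat_lit 0x0) (nat_lit 0))) (L (E (nat_lit 0) (nat_lit 0x0) (nat_lit 0)))) (N (nat_lit 10) (L (E (nat_lit 1) (nat_lit 0x14) (nat_lit 0))) (L (E (nat_lit 0) (nat_lit 0x0)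 (nat_lit 0))))) (N (nat_lit 13) (N (nat_lit 12) (L (E (nat_lit 0) (nat_lit 0x0) (nat_lit 0))) (L (E (nat_lit 0) (nat_lit 0x0) (nat_lit 0)))) (N (nat_lit 14) (L (E (nat_lit 0) (nat_lit 0x0) (nat_lit 0))) (L (E (nat_lit 0) (nat_lit 0x0) (nat_lit 0))))))
def cl : RA := N (nat_lit 4) (N (nat_lit 2) (N (nat_lit 1) (L (E (nat_lit 6) (nat_lit 0x240100070030014008) (nat_lit 0))) (L (E (nat_lit 6) (nat_lit 0x3801a00c0058028006) (nat_lit 0)))) (N (nat_lit 3) (L (E (nat_lit 3) (nat_lit 0x5c006001) (nat_lit 0))) (L (E (nat_lit 3) (nat_lit 0x6c006001) (nat_lit 0))))) (N (nat_lit 6) (N (nat_lit 5) (L (E (nat_lit 3) (nat_lit 0x24006001) (nat_lit 0))) (L (E (nat_lit 3) (nat_lit 0x64006001) (nat_lit 0)))) (N (nat_lit 7) (L (E (nat_lit 3) (nat_lit 0x1c00a001) (nat_lit 0))) (L (E (nat_lit 3) (nat_lit 0x14006001) (nat_lit 0)))))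
def nbl : List Nat := [nat_lit 0x600282, nat_lit 0x701, nat_lit 0x800382, nat_lit 0x0, nat_lit 0x0, nat_lit 0x0, nat_lit 0x0, nat_lit 0x0, nat_lit 0x0, nat_lit 0x501, nat_lit 0x0, nat_lit 0x0, nat_lit 0x0, nat_lit 0x0, nat_lit 0x0]
def apl : List Nat := [nat_lit 0x240100070030014008, nat_lit 0xc01400b006003401c]
theorem hpt : RA.all okp pt = true := by decide +kernel
theorem hN : chkN nb td1 pt nbl (nat_lit 0) = true := by decide +kernel
theorem hA : chkG cl (nat_lit 6) (apOK td1 pt (nat_lit 5)) apl (nat_lit 0) = true := by decide +kernel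
def s0 : List Nat := [nat_lit 0x5c006001]
theorem hs0 : chkG cl (nat_lit 3) (l3OK td16 td16 td16 pt) s0 (nat_lit 2) = true := by decide +kernel
def s1 : List Nat := [nat_lit 0x400601b]
theorem hs1 : chkG cl (nat_lit 3) (l3OK td4 td12 td16 pt) s1 (nat_lit 3) = true := by decide +kernel
def s2 : List Nat := [nat_lit 0x24006001]
theorem hs2 : chkG cl (nat_lit 3) (l3OK td16 td3 td31 pt) s2 (nat_lit 4) = true := by decide +kernel
def s3 : List Nat := [nat_lit 0x4006019]
theorem hs3 : chkG cl (nat_lit 3) (l3OK td9 td13 td16 pt) s3 (nat_lit 5) = true := by decide +kernel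
def s4 : List Nat := [nat_lit 0x400e005]
theorem hs4 : chkG cl (nat_lit 3) (l3OK td9 td7 td28 pt) s4 (nat_lit 6) = true := by decide +kernel
def c0 : List Nat := [nat_lit 0x10000000400000000004008800400b4001806a000403100000068006009c000002400140a]
theorem t0 : chk cl nb (nat_lit 15) c0 (nat_lit 6) = true := by decide +kernel

end

end APL.P42

namespace APL.P43

open APL.RA renaming leaf → L, node → N
open APL renaming dec → E

noncomputable section

set_option maxRecDepth 100000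

def pt : RA := N (nat_lit 5) (N (nat_lit 3) (N (nat_lit 2) (N (nat_lit 1) (L (nat_lit 288234774265332736)) (L (nat_lit 288234774265529344))) (L (nat_lit 288234774265136132))) (N (nat_lit 4) (L (nat_lit 288234774265398271)) (L (nat_lit 288234774265398272)))) (N (nat_lit 7) (N (nat_lit 6) (L (nat_lit 288234774265398273)) (L (nat_lit 288234774265398274))) (N (nat_lit 8) (L (nat_lit 288234774265398275)) (L (nat_lit 288234774265398276))))
def nb : RA := N (nat_lit 4) (N (nat_lit 2) (N (nat_lit 1) (L (E (nat_lit 2) (nat_lit 0x10006) (nat_lit 0))) (L (E (nat_lit 0) (nat_lit 0x0) (nat_lit 0)))) (N (nat_lit 3) (L (E (nat_lit 0) (nat_lit 0x0) (nat_lit 0))) (L (E (nat_lit 0) (nat_lit 0x0) (nat_lit 0))))) (N (nat_lit 7) (N (nat_lit 6) (N (nat_lit 5) (L (E (nat_lit 0) (nat_lit 0x0) (nat_lit 0))) (L (E (nat_lit 0) (nat_lit 0x0) (nat_lit 0)))) (L (E (nat_lit 0) (nat_lit 0x0) (nat_lit 0)))) (N (nat_lit 8) (L (E (nat_lit 0) (nat_lit 0x0) (nat_lit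 0))) (L (E (nat_lit 0) (nat_lit 0x0) (nat_lit 0)))))
def cl : RA := N (nat_lit 3) (N (nat_lit 2) (N (nat_lit 1) (L (E (nat_lit 6) (nat_lit 0x2000e0060028010006) (nat_lit 0))) (L (E (nat_lit 3) (nat_lit 0x44006001) (nat_lit 0)))) (L (E (nat_lit 3) (nat_lit 0x3400a003) (nat_lit 0)))) (N (nat_lit 4) (L (E (nat_lit 3) (nat_lit 0x2c006001) (nat_lit 0))) (N (nat_lit 5) (L (E (nat_lit 3) (nat_lit 0x3c006001) (nat_lit 0))) (L (E (nat_lit 3) (nat_lit 0x14006001) (nat_lit 0)))))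
def nbl : List Nat := [nat_lit 0x400182, nat_lit 0x0, nat_lit 0x0, nat_lit 0x0, nat_lit 0x0, nat_lit 0x0, nat_lit 0x0, nat_lit 0x0, nat_lit 0x0]
def apl : List Nat := [nat_lit 0x2000e0060028010006]
theorem hpt : RA.all okp pt = true := by decide +kernel
theorem hN : chkN nb td1 pt nbl (nat_lit 0) = true := by decide +kernel
theorem hA : chkG cl (nat_lit 6) (apOK td1 pt (nat_lit 5)) apl (nat_lit 0) = true := by decide +kernel
def s0 : List Nat := [nat_lit 0x44002003]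
theorem hs0 : chkG cl (nat_lit 3) (l3OK td9 td12 td21 pt) s0 (nat_lit 1) = true := by decide +kernel
def s1 : List Nat := [nat_lit 0x1400600d]
theorem hs1 : chkG cl (nat_lit 3) (l3OK td4 td12 td28 pt) s1 (nat_lit 2) = true := by decide +kernel
def s2 : List Nat := [nat_lit 0x2c006001]
theorem hs2 : chkG cl (nat_lit 3) (l3OK td9 td3 td3 pt) s2 (nat_lit 3) = true := by decide +kernel
def s3 : List Nat := [nat_lit 0x3c002003]
theorem hs3 : chkG cl (nat_lit 3) (l3OK td9 td7 td13 pt) s3 (nat_lit 4) = true := by decide +kernel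
def c0 : List Nat := [nat_lit 0xc021000400c80010054000003a001005]
theorem t0 : chk cl nb (nat_lit 9) c0 (nat_lit 4) = true := by decide +kernel

end

end APL.P43

namespace APL.P45

open APL.RA renaming leaf → L, node → N
open APL renaming dec → E

noncomputable section

set_option maxRecDepth 100000

def pt : RA := N (nat_lit 5) (N (nat_lit 3) (N (nat_lit 2) (N (nat_lit 1) (L (nat_lit 288234774265332736)) (L (nat_lit 288234774265529344))) (L (nat_lit 288234774265070596))) (N (nat_lit 4) (L (nat_lit 288234774265398271)) (L (nat_lit 288234774265398272)))) (N (nat_lit 7) (N (nat_lit 6) (L (nat_lit 288234774265398273)) (L (nat_lit 288234774265398274))) (N (nat_lit 8) (L (nat_lit 288234774265398275)) (L (nat_lit 288234774265398276))))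
def nb : RA := N (nat_lit 4) (N (nat_lit 2) (N (nat_lit 1) (L (E (nat_lit 2) (nat_lit 0x10006) (nat_lit 0))) (L (E (nat_lit 0) (nat_lit 0x0) (nat_lit 0)))) (N (nat_lit 3) (L (E (nat_lit 0) (nat_lit 0x0) (nat_lit 0))) (L (E (nat_lit 0) (nat_lit 0x0) (nat_lit 0))))) (N (nat_lit 7) (N (nat_lit 6) (N (nat_lit 5) (L (E (nat_lit 0) (nat_lit 0x0) (nat_lit 0))) (L (E (nat_lit 0) (nat_lit 0x0) (nat_lit 0)))) (L (E (nat_lit 0) (nat_lit 0x0) (nat_lit 0)))) (N (nat_lit 8) (L (E (nat_lit 0) (nat_lit 0x0) (nat_lit 0))) (L (E (nat_lit 0) (nat_lit 0x0) (nat_lit 0)))))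
def cl : RA := N (nat_lit 3) (N (nat_lit 2) (N (nat_lit 1) (L (E (nat_lit 6) (nat_lit 0x2000e0060028010006) (nat_lit 0))) (L (E (nat_lit 3) (nat_lit 0x44006001) (nat_lit 0)))) (L (E (nat_lit 3) (nat_lit 0x2c006001) (nat_lit 0)))) (N (nat_lit 4) (L (E (nat_lit 3) (nat_lit 0x34006001) (nat_lit 0))) (N (nat_lit 5) (L (E (nat_lit 3) (nat_lit 0x3c006001) (nat_lit 0))) (L (E (nat_lit 2) (nat_lit 0x6001) (nat_lit 0)))))
def nbl : List Nat := [nat_lit 0x400182, nat_lit 0x0, nat_lit 0x0, nat_lit 0x0, nat_lit 0x0, nat_lit 0x0, nat_lit 0x0, nat_lit 0x0, nat_lit 0x0]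
def apl : List Nat := [nat_lit 0x2000e0060028010006]
theorem hpt : RA.all okp pt = true := by decide +kernel
theorem hN : chkN nb td1 pt nbl (nat_lit 0) = true := by decide +kernel
theorem hA : chkG cl (nat_lit 6) (apOK td1 pt (nat_lit 5)) apl (nat_lit 0) = true := by decide +kernel
def s0 : List Nat := [nat_lit 0x44002003]
theorem hs0 : chkG cl (nat_lit 3) (l3OK td9 td12 td21 pt) s0 (nat_lit 1) = true := by decide +kernel
def s1 : List Nat := [nat_lit 0x2c006001]
theorem hs1 : chkG cl (nat_lit 3) (l3OK td9 td3 td3 pt) s1 (nat_lit 2) = true := by decide +kernel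
def s2 : List Nat := [nat_lit 0x400600d]
theorem hs2 : chkG cl (nat_lit 3) (l3OK td4 td7 td9 pt) s2 (nat_lit 3) = true := by decide +kernel
def s3 : List Nat := [nat_lit 0x3c002003]
theorem hs3 : chkG cl (nat_lit 3) (l3OK td9 td7 td13 pt) s3 (nat_lit 4) = true := by decide +kernel
def c0 : List Nat := [nat_lit 0xc021000400a80010064000003a001005]
theorem t0 : chk cl nb (nat_lit 9) c0 (nat_lit 4) = true := by decide +kernel

end

end APL.P45

namespace APL.P46

open APL.RA renaming leaf → L, node → N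
open APL renaming dec → E

noncomputable section

set_option maxRecDepth 100000

def pt : RA := N (nat_lit 5) (N (nat_lit 3) (N (nat_lit 2) (N (nat_lit 1) (L (nat_lit 288234774265332736)) (L (nat_lit 288234774265529344))) (L (nat_lit 288234774265070595))) (N (nat_lit 4) (L (nat_lit 288234774265398271)) (L (nat_lit 288234774265398272)))) (N (nat_lit 7) (N (nat_lit 6) (L (nat_lit 288234774265398273)) (L (nat_lit 288234774265398274))) (N (nat_lit 8) (L (nat_lit 288234774265398275)) (L (nat_lit 288234774265398276))))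
def nb : RA := N (nat_lit 4) (N (nat_lit 2) (N (nat_lit 1) (L (E (nat_lit 2) (nat_lit 0x10006) (nat_lit 0))) (L (E (nat_lit 0) (nat_lit 0x0) (nat_lit 0)))) (N (nat_lit 3) (L (E (nat_lit 0) (nat_lit 0x0) (nat_lit 0))) (L (E (nat_lit 0) (nat_lit 0x0) (nat_lit 0))))) (N (nat_lit 7) (N (nat_lit 6) (N (nat_lit 5) (L (E (nat_lit 0) (nat_lit 0x0) (nat_lit 0))) (L (E (nat_lit 0) (nat_lit 0x0) (nat_lit 0)))) (L (E (nat_lit 0) (nat_lit 0x0) (nat_lit 0)))) (N (nat_lit 8) (L (E (nat_lit 0) (nat_lit 0x0) (nat_lit 0))) (L (E (nat_lit 0) (nat_lit 0x0) (nat_lit 0)))))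
def cl : RA := N (nat_lit 3) (N (nat_lit 2) (N (nat_lit 1) (L (E (nat_lit 6) (nat_lit 0x2000e0060028010006) (nat_lit 0))) (L (E (nat_lit 3) (nat_lit 0x44006001) (nat_lit 0)))) (L (E (nat_lit 3) (nat_lit 0x2c006001) (nat_lit 0)))) (N (nat_lit 4) (L (E (nat_lit 3) (nat_lit 0x34006001) (nat_lit 0))) (N (nat_lit 5) (L (E (nat_lit 3) (nat_lit 0x3c006001) (nat_lit 0))) (L (E (nat_lit 2) (nat_lit 0x6001) (nat_lit 0)))))
def nbl : List Nat := [nat_lit 0x400182, nat_lit 0x0, nat_lit 0x0, nat_lit 0x0, nat_lit 0x0, nat_lit 0x0, nat_lit 0x0, nat_lit 0x0, nat_lit 0x0]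
def apl : List Nat := [nat_lit 0x2000e0060028010006]
theorem hpt : RA.all okp pt = true := by decide +kernel
theorem hN : chkN nb td1 pt nbl (nat_lit 0) = true := by decide +kernel
theorem hA : chkG cl (nat_lit 6) (apOK td1 pt (nat_lit 5)) apl (nat_lit 0) = true := by decide +kernel
def s0 : List Nat := [nat_lit 0x44002003]
theorem hs0 : chkG cl (nat_lit 3) (l3OK td9 td12 td21 pt) s0 (nat_lit 1) = true := by decide +kernel
def s1 : List Nat := [nat_lit 0x2c006001]
theorem hs1 : chkG cl (nat_lit 3) (l3OK td9 td3 td3 pt) s1 (nat_lit 2) = true := by decide +kernel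
def s2 : List Nat := [nat_lit 0x400600d]
theorem hs2 : chkG cl (nat_lit 3) (l3OK td4 td7 td9 pt) s2 (nat_lit 3) = true := by decide +kernel
def s3 : List Nat := [nat_lit 0x3c002003]
theorem hs3 : chkG cl (nat_lit 3) (l3OK td9 td7 td13 pt) s3 (nat_lit 4) = true := by decide +kernel
def c0 : List Nat := [nat_lit 0xc021000400a80010064000003a001005]
theorem t0 : chk cl nb (nat_lit 9) c0 (nat_lit 4) = true := by decide +kernel

end

end APL.P46

namespace APL.P47

open APL.RA renaming leaf → L, node → N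
open APL renaming dec → E

noncomputable section

set_option maxRecDepth 100000

def pt : RA := N (nat_lit 5) (N (nat_lit 3) (N (nat_lit 2) (N (nat_lit 1) (L (nat_lit 288234774265332736)) (L (nat_lit 288234774265529344))) (L (nat_lit 288234774265267205))) (N (nat_lit 4) (L (nat_lit 288234774265398271)) (L (nat_lit 288234774265398272)))) (N (nat_lit 7) (N (nat_lit 6) (L (nat_lit 288234774265398273)) (L (nat_lit 288234774265398274))) (N (nat_lit 8) (L (nat_lit 288234774265398275)) (L (nat_lit 288234774265398276))))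
def nb : RA := N (nat_lit 4) (N (nat_lit 2) (N (nat_lit 1) (L (E (nat_lit 2) (nat_lit 0x10006) (nat_lit 0))) (L (E (nat_lit 0) (nat_lit 0x0) (nat_lit 0)))) (N (nat_lit 3) (L (E (nat_lit 0) (nat_lit 0x0) (nat_lit 0))) (L (E (nat_lit 0) (nat_lit 0x0) (nat_lit 0))))) (N (nat_lit 7) (N (nat_lit 6) (N (nat_lit 5) (L (E (nat_lit 0) (nat_lit 0x0) (nat_lit 0))) (L (E (nat_lit 0) (nat_lit 0x0) (nat_lit 0)))) (L (E (nat_lit 0) (nat_lit 0x0) (nat_lit 0)))) (N (nat_lit 8) (L (E (nat_lit 0) (nat_lit 0x0) (nat_lit 0))) (L (E (nat_lit 0) (nat_lit 0x0) (nat_lit 0)))))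
def cl : RA := N (nat_lit 3) (N (nat_lit 2) (N (nat_lit 1) (L (E (nat_lit 6) (nat_lit 0x2000e0060028010006) (nat_lit 0))) (L (E (nat_lit 3) (nat_lit 0x44006001) (nat_lit 0)))) (L (E (nat_lit 3) (nat_lit 0x2c006001) (nat_lit 0)))) (N (nat_lit 4) (L (E (nat_lit 3) (nat_lit 0x34006001) (nat_lit 0))) (N (nat_lit 5) (L (E (nat_lit 3) (nat_lit 0x3c006001) (nat_lit 0))) (L (E (nat_lit 2) (nat_lit 0x6001) (nat_lit 0)))))
def nbl : List Nat := [nat_lit 0x400182, nat_lit 0x0, nat_lit 0x0, nat_lit 0x0, nat_lit 0x0, nat_lit 0x0, nat_lit 0x0, nat_lit 0x0, nat_lit 0x0]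
def apl : List Nat := [nat_lit 0x2000e0060028010006]
theorem hpt : RA.all okp pt = true := by decide +kernel
theorem hN : chkN nb td1 pt nbl (nat_lit 0) = true := by decide +kernel
theorem hA : chkG cl (nat_lit 6) (apOK td1 pt (nat_lit 5)) apl (nat_lit 0) = true := by decide +kernel
def s0 : List Nat := [nat_lit 0x44002003]
theorem hs0 : chkG cl (nat_lit 3) (l3OK td9 td12 td21 pt) s0 (nat_lit 1) = true := by decide +kernel
def s1 : List Nat := [nat_lit 0x2c006001]
theorem hs1 : chkG cl (nat_lit 3) (l3OK td9 td3 td3 pt) s1 (nat_lit 2) = true := by decide +kernel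
def s2 : List Nat := [nat_lit 0x400600d]
theorem hs2 : chkG cl (nat_lit 3) (l3OK td4 td7 td9 pt) s2 (nat_lit 3) = true := by decide +kernel
def s3 : List Nat := [nat_lit 0x3c002003]
theorem hs3 : chkG cl (nat_lit 3) (l3OK td9 td7 td13 pt) s3 (nat_lit 4) = true := by decide +kernel
def c0 : List Nat := [nat_lit 0xc021000400a80010064000003a001005]
theorem t0 : chk cl nb (nat_lit 9) c0 (nat_lit 4) = true := by decide +kernel

end

end APL.P47

namespace APL.P48

open APL.RA renaming leaf → L, node → N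
open APL renaming dec → E

noncomputable section

set_option maxRecDepth 100000

def pt : RA := N (nat_lit 5) (N (nat_lit 3) (N (nat_lit 2) (N (nat_lit 1) (L (nat_lit 288234774265332736)) (L (nat_lit 288234774265529344))) (L (nat_lit 288234774265136134))) (N (nat_lit 4) (L (nat_lit 288234774265398271)) (L (nat_lit 288234774265398272)))) (N (nat_lit 7) (N (nat_lit 6) (L (nat_lit 288234774265398273)) (L (nat_lit 288234774265398274))) (N (nat_lit 8) (L (nat_lit 288234774265398275)) (L (nat_lit 288234774265398276))))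
def nb : RA := N (nat_lit 4) (N (nat_lit 2) (N (nat_lit 1) (L (E (nat_lit 2) (nat_lit 0x10006) (nat_lit 0))) (L (E (nat_lit 0) (nat_lit 0x0) (nat_lit 0)))) (N (nat_lit 3) (L (E (nat_lit 0) (nat_lit 0x0) (nat_lit 0))) (L (E (nat_lit 0) (nat_lit 0x0) (nat_lit 0))))) (N (nat_lit 7) (N (nat_lit 6) (N (nat_lit 5) (L (E (nat_lit 0) (nat_lit 0x0) (nat_lit 0))) (L (E (nat_lit 0) (nat_lit 0x0) (nat_lit 0)))) (L (E (nat_lit 0) (nat_lit 0x0) (nat_lit 0)))) (N (nat_lit 8) (L (E (nat_lit 0) (nat_lit 0x0) (nat_lit 0))) (L (E (nat_lit 0) (nat_lit 0x0) (nat_lit 0)))))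
def cl : RA := N (nat_lit 3) (N (nat_lit 2) (N (nat_lit 1) (L (E (nat_lit 6) (nat_lit 0x2000e0060028010006) (nat_lit 0))) (L (E (nat_lit 3) (nat_lit 0x4400a001) (nat_lit 0)))) (L (E (nat_lit 3) (nat_lit 0x2c006001) (nat_lit 0)))) (N (nat_lit 4) (L (E (nat_lit 3) (nat_lit 0x3c006001) (nat_lit 0))) (N (nat_lit 5) (L (E (nat_lit 3) (nat_lit 0x3400a001) (nat_lit 0))) (L (E (nat_lit 3) (nat_lit 0x14006001) (nat_lit 0)))))
def nbl : List Nat := [nat_lit 0x400182, nat_lit 0x0, nat_lit 0x0, nat_lit 0x0, nat_lit 0x0, nat_lit 0x0, nat_lit 0x0, nat_lit 0x0, nat_lit 0x0]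
def apl : List Nat := [nat_lit 0x2000e0060028010006]
theorem hpt : RA.all okp pt = true := by decide +kernel
theorem hN : chkN nb td1 pt nbl (nat_lit 0) = true := by decide +kernel
theorem hA : chkG cl (nat_lit 6) (apOK td1 pt (nat_lit 5)) apl (nat_lit 0) = true := by decide +kernel
def s0 : List Nat := [nat_lit 0x14002011]
theorem hs0 : chkG cl (nat_lit 3) (l3OK td21 td12 td27 pt) s0 (nat_lit 1) = true := by decide +kernel
def s1 : List Nat := [nat_lit 0x2c006001]
theorem hs1 : chkG cl (nat_lit 3) (l3OK td9 td3 td3 pt) s1 (nat_lit 2) = true := by decide +kernel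
def s2 : List Nat := [nat_lit 0x3c002003]
theorem hs2 : chkG cl (nat_lit 3) (l3OK td9 td7 td13 pt) s2 (nat_lit 3) = true := by decide +kernel
def s3 : List Nat := [nat_lit 0x400a00d]
theorem hs3 : chkG cl (nat_lit 3) (l3OK td16 td7 td27 pt) s3 (nat_lit 4) = true := by decide +kernel
def c0 : List Nat := [nat_lit 0xc021000000c80020054000803a001005]
theorem t0 : chk cl nb (nat_lit 9) c0 (nat_lit 4) = true := by decide +kernel

end

end APL.P48

namespace APL.P49

open APL.RA renaming leaf → L, node → N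
open APL renaming dec → E

noncomputable section

set_option maxRecDepth 100000

def pt : RA := N (nat_lit 5) (N (nat_lit 3) (N (nat_lit 2) (N (nat_lit 1) (L (nat_lit 288234774265332736)) (L (nat_lit 288234774264939522))) (L (nat_lit 288234774265136133))) (N (nat_lit 4) (L (nat_lit 288234774265136127)) (L (nat_lit 288234774265136128)))) (N (nat_lit 7) (N (nat_lit 6) (L (nat_lit 288234774265136129)) (L (nat_lit 288234774265136130))) (N (nat_lit 8) (L (nat_lit 288234774265136131)) (L (nat_lit 288234774265136132))))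
def nb : RA := N (nat_lit 4) (N (nat_lit 2) (N (nat_lit 1) (L (E (nat_lit 0) (nat_lit 0x0) (nat_lit 0))) (L (E (nat_lit 0) (nat_lit 0x0) (nat_lit 0)))) (N (nat_lit 3) (L (E (nat_lit 1) (nat_lit 0x10) (nat_lit 0))) (L (E (nat_lit 0) (nat_lit 0x0) (nat_lit 0))))) (N (nat_lit 7) (N (nat_lit 6) (N (nat_lit 5) (L (E (nat_lit 0) (nat_lit 0x0) (nat_lit 0))) (L (E (nat_lit 0) (nat_lit 0x0) (nat_lit 0)))) (L (E (nat_lit 0) (nat_lit 0x0) (nat_lit 0)))) (N (nat_lit 8) (L (E (nat_lit 0) (nat_lit 0x0) (nat_lit 0))) (L (E (nat_lit 0) (nat_lit 0x0) (nat_lit 0)))))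
def cl : RA := N (nat_lit 3) (N (nat_lit 2) (N (nat_lit 1) (L (E (nat_lit 6) (nat_lit 0x2000e0060028010006) (nat_lit 0))) (L (E (nat_lit 3) (nat_lit 0x2400a001) (nat_lit 0)))) (L (E (nat_lit 3) (nat_lit 0x3c00a001) (nat_lit 0)))) (N (nat_lit 5) (N (nat_lit 4) (L (E (nat_lit 3) (nat_lit 0x3400a001) (nat_lit 0))) (L (E (nat_lit 3) (nat_lit 0x2c00a003) (nat_lit 0)))) (N (nat_lit 6) (L (E (nat_lit 3) (nat_lit 0x1c006001) (nat_lit 0))) (L (E (nat_lit 3) (nat_lit 0x14006001) (nat_lit 0)))))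
def nbl : List Nat := [nat_lit 0x0, nat_lit 0x0, nat_lit 0x401, nat_lit 0x0, nat_lit 0x0, nat_lit 0x0, nat_lit 0x0, nat_lit 0x0, nat_lit 0x0]
def apl : List Nat := [nat_lit 0x2000e0060028010006]
theorem hpt : RA.all okp pt = true := by decide +kernel
theorem hN : chkN nb td1 pt nbl (nat_lit 0) = true := by decide +kernel
theorem hA : chkG cl (nat_lit 6) (apOK td1 pt (nat_lit 5)) apl (nat_lit 0) = true := by decide +kernel
def s0 : List Nat := [nat_lit 0x14012001]
theorem hs0 : chkG cl (nat_lit 3) (l3OK td9 td19 td25 pt) s0 (nat_lit 1) = true := by decide +kernel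
def s1 : List Nat := [nat_lit 0x400a00f]
theorem hs1 : chkG cl (nat_lit 3) (l3OK td4 td9 td19 pt) s1 (nat_lit 2) = true := by decide +kernel
def s2 : List Nat := [nat_lit 0x400a00d]
theorem hs2 : chkG cl (nat_lit 3) (l3OK td9 td7 td19 pt) s2 (nat_lit 3) = true := by decide +kernel
def s3 : List Nat := [nat_lit 0xc00a00b]
theorem hs3 : chkG cl (nat_lit 3) (l3OK td16 td7 td27 pt) s3 (nat_lit 4) = true := by decide +kernel
def s4 : List Nat := [nat_lit 0x4006007]
theorem hs4 : chkG cl (nat_lit 3) (l3OK td9 td13 td28 pt) s4 (nat_lit 5) = true := by decide +kernel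
def c0 : List Nat := [nat_lit 0x100020022000c01d000400c80000034000802a001406]
theorem t0 : chk cl nb (nat_lit 9) c0 (nat_lit 5) = true := by decide +kernel

end

end APL.P49

namespace APL.P50

open APL.RA renaming leaf → L, node → N
open APL renaming dec → E

noncomputable section

set_option maxRecDepth 100000

def pt : RA := N (nat_lit 5) (N (nat_lit 3) (N (nat_lit 2) (N (nat_lit 1) (L (nat_lit 288234774265332736)) (L (nat_lit 288234774265005057))) (L (nat_lit 288234774265070594))) (N (nat_lit 4) (L (nat_lit 288234774264939525)) (L (nat_lit 288234774265005060)))) (N (nat_lit 7) (N (nat_lit 6) (L (nat_lit 288234774265070595)) (L (nat_lit 288234774265136130))) (N (nat_lit 8) (L (nat_lit 288234774265201665)) (L (nat_lit 288234774265267200))))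
def nb : RA := N (nat_lit 4) (N (nat_lit 2) (N (nat_lit 1) (L (E (nat_lit 1) (nat_lit 0x10) (nat_lit 0))) (L (E (nat_lit 0) (nat_lit 0x0) (nat_lit 0)))) (N (nat_lit 3) (L (E (nat_lit 2) (nat_lit 0x1800a) (nat_lit 0))) (L (E (nat_lit 0) (nat_lit 0x0) (nat_lit 0))))) (N (nat_lit 7) (N (nat_lit 6) (N (nat_lit 5) (L (E (nat_lit 0) (nat_lit 0x0) (nat_lit 0))) (L (E (nat_lit 0) (nat_lit 0x0) (nat_lit 0)))) (L (E (nat_lit 0) (nat_lit 0x0) (nat_lit 0)))) (N (nat_lit 8) (L (E (nat_lit 0) (nat_lit 0x0) (nat_lit 0))) (L (E (nat_lit 0) (nat_lit 0x0) (nat_lit 0)))))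
def cl : RA := N (nat_lit 2) (N (nat_lit 1) (L (E (nat_lit 6) (nat_lit 0x2000e0060028010006) (nat_lit 0))) (L (E (nat_lit 3) (nat_lit 0x1c00a001) (nat_lit 0)))) (N (nat_lit 3) (L (E (nat_lit 3) (nat_lit 0x3c00a003) (nat_lit 0))) (N (nat_lit 4) (L (E (nat_lit 3) (nat_lit 0x24006001) (nat_lit 0))) (L (E (nat_lit 3) (nat_lit 0x14006001) (nat_lit 0)))))
def nbl : List Nat := [nat_lit 0x401, nat_lit 0x0, nat_lit 0x600282, nat_lit 0x0, nat_lit 0x0, nat_lit 0x0, nat_lit 0x0, nat_lit 0x0, nat_lit 0x0]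
def apl : List Nat := [nat_lit 0xc008005003001c010]
theorem hpt : RA.all okp pt = true := by decide +kernel
theorem hN : chkN nb td1 pt nbl (nat_lit 0) = true := by decide +kernel
theorem hA : chkG cl (nat_lit 6) (apOK td1 pt (nat_lit 5)) apl (nat_lit 0) = true := by decide +kernel
def s0 : List Nat := [nat_lit 0x1400e001]
theorem hs0 : chkG cl (nat_lit 3) (l3OK td31 td12 td7 pt) s0 (nat_lit 1) = true := by decide +kernel
def s1 : List Nat := [nat_lit 0x1401e003]
theorem hs1 : chkG cl (nat_lit 3) (l3OK td9 td3 td3 pt) s1 (nat_lit 2) = true := by decide +kernel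
def s2 : List Nat := [nat_lit 0x4012003]
theorem hs2 : chkG cl (nat_lit 3) (l3OK td9 td21 td21 pt) s2 (nat_lit 3) = true := by decide +kernel
def c0 : List Nat := [nat_lit 0x80000000000200e80000044001001a000c05]
theorem t0 : chk cl nb (nat_lit 9) c0 (nat_lit 3) = true := by decide +kernel

end

end APL.P50

namespace APL.P51

open APL.RA renaming leaf → L, node → N
open APL renaming dec → E

noncomputable section

set_option maxRecDepth 100000

def pt : RA := N (nat_lit 7) (N (nat_lit 4) (N (nat_lit 2) (N (nat_lit 1) (L (nat_lit 288234774265332736)) (L (nat_lit 288234774265136129))) (N (nat_lit 3) (L (nat_lit 288234774264939523)) (L (nat_lit 288234774265005062)))) (N (nat_lit 6) (N (nat_lit 5) (L (nat_lit 288234774265070597)) (L (nat_lit 288234774265136132))) (L (nat_lit 288234774265201662)))) (N (nat_lit 11) (N (nat_lit 9) (N (nat_lit 8) (L (nat_lit 288234774265201663)) (L (nat_lit 288234774265201664))) (N (nat_lit 10) (L (nat_lit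 288234774265201665)) (L (nat_lit 288234774265201666)))) (N (nat_lit 13) (N (nat_lit 12) (L (nat_lit 288234774265201667)) (L (nat_lit 288234774265267202))) (L (nat_lit 288234774265332737))))
def nb : RA := N (nat_lit 7) (N (nat_lit 3) (N (nat_lit 1) (L (E (nat_lit 1) (nat_lit 0x1a) (nat_lit 0))) (N (nat_lit 2) (L (E (nat_lit 2) (nat_lit 0x24010) (nat_lit 0))) (L (E (nat_lit 0) (nat_lit 0x0) (nat_lit 0))))) (N (nat_lit 5) (N (nat_lit 4) (L (E (nat_lit 0) (nat_lit 0x0) (nat_lit 0))) (L (E (nat_lit 0) (nat_lit 0x0) (nat_lit 0)))) (N (nat_lit 6) (L (E (nat_lit 0) (nat_lit 0x0) (nat_lit 0))) (L (E (nat_lit 0) (nat_lit 0x0) (nat_lit 0)))))) (N (nat_lit 11) (N (nat_lit 9) (N (nat_lit 8) (L (E (nat_lit 0) (nat_lit 0x0) (nat_lit 0))) (L (E (nat_lit 0) (nat_lit 0x0) (nat_lit 0)))) (N (nat_lit 10) (L (E (nat_lit 0) (nat_lit 0x0) (nat_lit 0))) (L (E (nat_lit 0) (nat_lit 0x0) (nat_lit 0))))) (N (nat_lit 13) (N (nat_lit 12) (L (E (nat_lit 0)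 (nat_lit 0x0) (nat_lit 0))) (L (E (nat_lit 1) (nat_lit 0x14) (nat_lit 0)))) (L (E (nat_lit 0) (nat_lit 0x0) (nat_lit 0)))))
def cl : RA := N (nat_lit 4) (N (nat_lit 2) (N (nat_lit 1) (L (E (nat_lit 6) (nat_lit 0x2c014009004001c00c) (nat_lit 0))) (L (E (nat_lit 6) (nat_lit 0x3401800b0028010006) (nat_lit 0)))) (N (nat_lit 3) (L (E (nat_lit 3) (nat_lit 0x5c00a003) (nat_lit 0))) (L (E (nat_lit 3) (nat_lit 0x3400a001) (nat_lit 0))))) (N (nat_lit 6) (N (nat_lit 5) (L (E (nat_lit 3) (nat_lit 0x2400a001) (nat_lit 0))) (L (E (nat_lit 3) (nat_lit 0x1c006001) (nat_lit 0)))) (N (nat_lit 7) (L (E (nat_lit 3) (nat_lit 0x2c006001) (nat_lit 0))) (N (nat_lit 8) (L (E (nat_lit 3) (nat_lit 0x3c00a001) (nat_lit 0))) (L (E (nat_lit 3) (nat_lit 0x14006001) (nat_lit 0))))))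
def nbl : List Nat := [nat_lit 0x681, nat_lit 0x900402, nat_lit 0x0, nat_lit 0x0, nat_lit 0x0, nat_lit 0x0, nat_lit 0x0, nat_lit 0x0, nat_lit 0x0, nat_lit 0x0, nat_lit 0x0, nat_lit 0x0, nat_lit 0x501, nat_lit 0x0]
def apl : List Nat := [nat_lit 0x2c014009004001c00c, nat_lit 0xc008005005803001a]
theorem hpt : RA.all okp pt = true := by decide +kernel
theorem hN : chkN nb td1 pt nbl (nat_lit 0) = true := by decide +kernel
theorem hA : chkG cl (nat_lit 6) (apOK td1 pt (nat_lit 5)) apl (nat_lit 0) = true := by decide +kernel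
def s0 : List Nat := [nat_lit 0xc02e005]
theorem hs0 : chkG cl (nat_lit 3) (l3OK td16 td7 td7 pt) s0 (nat_lit 2) = true := by decide +kernel
def s1 : List Nat := [nat_lit 0x400a00d, nat_lit 0x14002009]
theorem hs1 : chkG cl (nat_lit 3) (l3OK td21 td12 td27 pt) s1 (nat_lit 3) = true := by decide +kernel
def s2 : List Nat := [nat_lit 0xc002007]
theorem hs2 : chkG cl (nat_lit 3) (l3OK td31 td19 td7 pt) s2 (nat_lit 5) = true := by decide +kernel
def s3 : List Nat := [nat_lit 0x4016003]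
theorem hs3 : chkG cl (nat_lit 3) (l3OK td9 td7 td13 pt) s3 (nat_lit 6) = true := by decide +kernel
def s4 : List Nat := [nat_lit 0x400a00f]
theorem hs4 : chkG cl (nat_lit 3) (l3OK td16 td7 td27 pt) s4 (nat_lit 7) = true := by decide +kernel
def c0 : List Nat := [nat_lit 0x800000000010019000000e80020034000802a001402d0006008800600cc0000030001c0a]
theorem t0 : chk cl nb (nat_lit 14) c0 (nat_lit 7) = true := by decide +kernel

end

end APL.P51

namespace APL.P52

open APL.RA renaming leaf → L, node → N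
open APL renaming dec → E

noncomputable section

set_option maxRecDepth 100000

def pt : RA := N (nat_lit 10) (N (nat_lit 5) (N (nat_lit 3) (N (nat_lit 2) (N (nat_lit 1) (L (nat_lit 288234774265332736)) (L (nat_lit 288234774264939523))) (L (nat_lit 288234774265136134))) (N (nat_lit 4) (L (nat_lit 288234774264742918)) (L (nat_lit 288234774264808454)))) (N (nat_lit 8) (N (nat_lit 7) (N (nat_lit 6) (L (nat_lit 288234774264873990)) (L (nat_lit 288234774264939520))) (L (nat_lit 288234774264939526))) (N (nat_lit 9) (L (nat_lit 288234774265005056)) (L (nat_lit 288234774265005061))))) (N (nat_lit 15) (N (nat_lit 13) (N (nat_lit 12) (N (nat_lit 11) (L (nat_lit 288234774265005062)) (L (nat_lit 288234774265070592))) (L (nat_lit 288234774265070596))) (N (nat_lit 14) (L (nat_lit 288234774265070598)) (L (nat_lit 288234774265136128)))) (N (nat_lit 18) (N (nat_lit 17) (N (nat_lit 16) (L (nat_lit 288234774265136131)) (L (nat_lit 288234774265201664)))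 (L (nat_lit 288234774265201666))) (N (nat_lit 19) (L (nat_lit 288234774265267200)) (L (nat_lit 288234774265267201)))))
def nb : RA := N (nat_lit 10) (N (nat_lit 5) (N (nat_lit 2) (N (nat_lit 1) (L (E (nat_lit 2) (nat_lit 0x4c024) (nat_lit 0))) (L (E (nat_lit 0) (nat_lit 0x0) (nat_lit 0)))) (N (nat_lit 4) (N (nat_lit 3) (L (E (nat_lit 0) (nat_lit 0x0) (nat_lit 0))) (L (E (nat_lit 0) (nat_lit 0x0) (nat_lit 0)))) (L (E (nat_lit 0) (nat_lit 0x0) (nat_lit 0))))) (N (nat_lit 8) (N (nat_lit 7) (N (nat_lit 6) (L (E (nat_lit 0) (nat_lit 0x0) (nat_lit 0))) (L (E (nat_lit 0) (nat_lit 0x0) (nat_lit 0)))) (L (E (nat_lit 0) (nat_lit 0x0) (nat_lit 0)))) (N (nat_lit 9) (L (E (nat_lit 0) (nat_lit 0x0) (nat_lit 0))) (L (E (nat_lit 0) (nat_lit 0x0) (nat_lit 0)))))) (N (nat_lit 15) (N (nat_lit 13) (N (nat_lit 12) (N (nat_lit 11) (L (E (nat_lit 0) (nat_lit 0x0) (nat_lit 0))) (L (E (nat_lit 0) (nat_lit 0x0) (nat_lit 0)))) (L (E (nat_lit 0) (nat_lit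 0x0) (nat_lit 0)))) (N (nat_lit 14) (L (E (nat_lit 0) (nat_lit 0x0) (nat_lit 0))) (L (E (nat_lit 0) (nat_lit 0x0) (nat_lit 0))))) (N (nat_lit 18) (N (nat_lit 17) (N (nat_lit 16) (L (E (nat_lit 0) (nat_lit 0x0) (nat_lit 0))) (L (E (nat_lit 0) (nat_lit 0x0) (nat_lit 0)))) (L (E (nat_lit 0) (nat_lit 0x0) (nat_lit 0)))) (N (nat_lit 19) (L (E (nat_lit 0) (nat_lit 0x0) (nat_lit 0))) (L (E (nat_lit 0) (nat_lit 0x0) (nat_lit 0))))))
def cl : RA := N (nat_lit 8) (N (nat_lit 4) (N (nat_lit 2) (N (nat_lit 1) (L (E (nat_lit 6) (nat_lit 0x340140070028010006) (nat_lit 0))) (L (E (nat_lit 6) (nat_lit 0x4802000e005802000c) (nat_lit 0)))) (N (nat_lit 3) (L (E (nat_lit 6) (nat_lit 0x4c02200f006002400e) (nat_lit 0))) (L (E (nat_lit 3) (nat_lit 0x8400a001) (nat_lit 0))))) (N (nat_lit 6) (N (nat_lit 5) (L (E (nat_lit 3) (nat_lit 0x5400a001) (nat_lit 0))) (L (E (nat_lit 3) (nat_lit 0x74006001) (nat_lit 0)))) (N (nat_lit 7) (L (E (nat_lit 3) (nat_lit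 0x7c00a001) (nat_lit 0))) (L (E (nat_lit 3) (nat_lit 0x5c006001) (nat_lit 0)))))) (N (nat_lit 12) (N (nat_lit 10) (N (nat_lit 9) (L (E (nat_lit 3) (nat_lit 0x2c00a003) (nat_lit 0))) (L (E (nat_lit 3) (nat_lit 0x6400a001) (nat_lit 0)))) (N (nat_lit 11) (L (E (nat_lit 3) (nat_lit 0x34006001) (nat_lit 0))) (L (E (nat_lit 3) (nat_lit 0x1c00a003) (nat_lit 0))))) (N (nat_lit 14) (N (nat_lit 13) (L (E (nat_lit 3) (nat_lit 0x3c00a001) (nat_lit 0))) (L (E (nat_lit 3) (nat_lit 0x8c022009) (nat_lit 0)))) (N (nat_lit 15) (L (E (nat_lit 3) (nat_lit 0x6c006001) (nat_lit 0))) (N (nat_lit 16) (L (E (nat_lit 3) (nat_lit 0x4c00a003) (nat_lit 0))) (L (E (nat_lit 3) (nat_lit 0x14006001) (nat_lit 0)))))))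
def nbl : List Nat := [nat_lit 0x1300902, nat_lit 0x0, nat_lit 0x0, nat_lit 0x0, nat_lit 0x0, nat_lit 0x0, nat_lit 0x0, nat_lit 0x0, nat_lit 0x0, nat_lit 0x0, nat_lit 0x0, nat_lit 0x0, nat_lit 0x0, nat_lit 0x0, nat_lit 0x0, nat_lit 0x0, nat_lit 0x0, nat_lit 0x0, nat_lit 0x0, nat_lit 0x0]
def apl : List Nat := [nat_lit 0x340140070028010006, nat_lit 0x4802000e005802000c, nat_lit 0x1c01200c0078044026]
theorem hpt : RA.all okp pt = true := by decide +kernel
theorem hN : chkN nb td1 pt nbl (nat_lit 0) = true := by decide +kernel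
theorem hA : chkG cl (nat_lit 6) (apOK td1 pt (nat_lit 5)) apl (nat_lit 0) = true := by decide +kernel
def s0 : List Nat := [nat_lit 0x14042001, nat_lit 0x402a005]
theorem hs0 : chkG cl (nat_lit 3) (l3OK td4 td27 td31 pt) s0 (nat_lit 3) = true := by decide +kernel
def s1 : List Nat := [nat_lit 0xc00201d, nat_lit 0x1400201f]
theorem hs1 : chkG cl (nat_lit 3) (l3OK td9 td9 td27 pt) s1 (nat_lit 5) = true := by decide +kernel
def s2 : List Nat := [nat_lit 0xc002017, nat_lit 0xc00a00b, nat_lit 0x14002019]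
theorem hs2 : chkG cl (nat_lit 3) (l3OK td16 td7 td27 pt) s2 (nat_lit 7) = true := by decide +kernel
def s3 : List Nat := [nat_lit 0x401a003, nat_lit 0x1400e003, nat_lit 0x401e005]
theorem hs3 : chkG cl (nat_lit 3) (l3OK td9 td27 td36 pt) s3 (nat_lit 10) = true := by decide +kernel
def s4 : List Nat := [nat_lit 0x44012023, nat_lit 0xc00201b]
theorem hs4 : chkG cl (nat_lit 3) (l3OK td28 td19 td27 pt) s4 (nat_lit 13) = true := by decide +kernel
def s5 : List Nat := [nat_lit 0x14026003]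
theorem hs5 : chkG cl (nat_lit 3) (l3OK td7 td27 td7 pt) s5 (nat_lit 15) = true := by decide +kernel
def c0 : List Nat := [nat_lit 0x18020800b00a40050072002403d0010016800600c40028032000c01d000e00a80040034000806a0000025001a023800e008c0078026000810]
theorem t0 : chk cl nb (nat_lit 20) c0 (nat_lit 15) = true := by decide +kernel

end

end APL.P52

namespace APL.P53

open APL.RA renaming leaf → L, node → N
open APL renaming dec → E

noncomputable section

set_option maxRecDepth 100000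

def pt : RA := N (nat_lit 5) (N (nat_lit 3) (N (nat_lit 2) (N (nat_lit 1) (L (nat_lit 288234774265332736)) (L (nat_lit 288234774265529344))) (L (nat_lit 288234774265201665))) (N (nat_lit 4) (L (nat_lit 288234774265398271)) (L (nat_lit 288234774265398272)))) (N (nat_lit 7) (N (nat_lit 6) (L (nat_lit 288234774265398273)) (L (nat_lit 288234774265398274))) (N (nat_lit 8) (L (nat_lit 288234774265398275)) (L (nat_lit 288234774265398276))))
def nb : RA := N (nat_lit 4) (N (nat_lit 2) (N (nat_lit 1) (L (E (nat_lit 2) (nat_lit 0x10006) (nat_lit 0))) (L (E (nat_lit 0) (nat_lit 0x0) (nat_lit 0)))) (N (nat_lit 3) (L (E (nat_lit 0) (nat_lit 0x0) (nat_lit 0))) (L (E (nat_lit 0) (nat_lit 0x0) (nat_lit 0))))) (N (nat_lit 7) (N (nat_lit 6) (N (nat_lit 5) (L (E (nat_lit 0) (nat_lit 0x0) (nat_lit 0))) (L (E (nat_lit 0) (nat_lit 0x0) (nat_lit 0)))) (L (E (nat_lit 0) (nat_lit 0x0) (nat_lit 0)))) (N (nat_lit 8) (L (E (nat_lit 0) (nat_lit 0x0) (nat_lit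 0))) (L (E (nat_lit 0) (nat_lit 0x0) (nat_lit 0)))))
def cl : RA := N (nat_lit 3) (N (nat_lit 2) (N (nat_lit 1) (L (E (nat_lit 6) (nat_lit 0x2000e0060028010006) (nat_lit 0))) (L (E (nat_lit 3) (nat_lit 0x44006001) (nat_lit 0)))) (L (E (nat_lit 3) (nat_lit 0x2c006001) (nat_lit 0)))) (N (nat_lit 4) (L (E (nat_lit 3) (nat_lit 0x34006001) (nat_lit 0))) (N (nat_lit 5) (L (E (nat_lit 3) (nat_lit 0x3c006001) (nat_lit 0))) (L (E (nat_lit 2) (nat_lit 0x6001) (nat_lit 0)))))
def nbl : List Nat := [nat_lit 0x400182, nat_lit 0x0, nat_lit 0x0, nat_lit 0x0, nat_lit 0x0, nat_lit 0x0, nat_lit 0x0, nat_lit 0x0, nat_lit 0x0]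
def apl : List Nat := [nat_lit 0x2000e0060028010006]
theorem hpt : RA.all okp pt = true := by decide +kernel
theorem hN : chkN nb td1 pt nbl (nat_lit 0) = true := by decide +kernel
theorem hA : chkG cl (nat_lit 6) (apOK td1 pt (nat_lit 5)) apl (nat_lit 0) = true := by decide +kernel
def s0 : List Nat := [nat_lit 0x44002003]
theorem hs0 : chkG cl (nat_lit 3) (l3OK td9 td12 td21 pt) s0 (nat_lit 1) = true := by decide +kernel
def s1 : List Nat := [nat_lit 0x2c006001]
theorem hs1 : chkG cl (nat_lit 3) (l3OK td9 td3 td3 pt) s1 (nat_lit 2) = true := by decide +kernel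
def s2 : List Nat := [nat_lit 0x400600d]
theorem hs2 : chkG cl (nat_lit 3) (l3OK td4 td7 td9 pt) s2 (nat_lit 3) = true := by decide +kernel
def s3 : List Nat := [nat_lit 0x3c002003]
theorem hs3 : chkG cl (nat_lit 3) (l3OK td9 td7 td13 pt) s3 (nat_lit 4) = true := by decide +kernel
def c0 : List Nat := [nat_lit 0xc021000400a80010064000003a001005]
theorem t0 : chk cl nb (nat_lit 9) c0 (nat_lit 4) = true := by decide +kernel

end

end APL.P53

namespace APL.P54

open APL.RA renaming leaf → L, node → N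
open APL renaming dec → E

noncomputable section

set_option maxRecDepth 100000

def pt : RA := N (nat_lit 10) (N (nat_lit 5) (N (nat_lit 3) (N (nat_lit 2) (N (nat_lit 1) (L (nat_lit 288234774265332736)) (L (nat_lit 288234774265136129))) (L (nat_lit 288234774264873987))) (N (nat_lit 4) (L (nat_lit 288234774264677381)) (L (nat_lit 288234774264742917)))) (N (nat_lit 8) (N (nat_lit 7) (N (nat_lit 6) (L (nat_lit 288234774264808448)) (L (nat_lit 288234774264808449))) (L (nat_lit 288234774264808450))) (N (nat_lit 9) (L (nat_lit 288234774264808451)) (L (nat_lit 288234774264808452))))) (N (nat_lit 15) (N (nat_lit 13) (N (nat_lit 12) (N (nat_lit 11) (L (nat_lit 288234774264808453)) (L (nat_lit 288234774264873989))) (L (nat_lit 288234774264939525))) (N (nat_lit 14) (L (nat_lit 288234774265005060)) (L (nat_lit 288234774265005061)))) (N (nat_lit 18) (N (nat_lit 17) (N (nat_lit 16) (L (nat_lit 288234774265070595)) (L (nat_lit 288234774265136130)))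 (L (nat_lit 288234774265201665))) (N (nat_lit 19) (L (nat_lit 288234774265267200)) (L (nat_lit 288234774265332735)))))
def nb : RA := N (nat_lit 9) (N (nat_lit 3) (N (nat_lit 2) (N (nat_lit 1) (L (E (nat_lit 2) (nat_lit 0x4c024) (nat_lit 0))) (L (E (nat_lit 2) (nat_lit 0x44020) (nat_lit 0)))) (L (E (nat_lit 2) (nat_lit 0x24010) (nat_lit 0)))) (N (nat_lit 6) (N (nat_lit 5) (N (nat_lit 4) (L (E (nat_lit 0) (nat_lit 0x0) (nat_lit 0))) (L (E (nat_lit 0) (nat_lit 0x0) (nat_lit 0)))) (L (E (nat_lit 0) (nat_lit 0x0) (nat_lit 0)))) (N (nat_lit 8) (N (nat_lit 7) (L (E (nat_lit 0) (nat_lit 0x0) (nat_lit 0))) (L (E (nat_lit 0) (nat_lit 0x0) (nat_lit 0)))) (L (E (nat_lit 0) (nat_lit 0x0) (nat_lit 0)))))) (N (nat_lit 15) (N (nat_lit 12) (N (nat_lit 11) (N (nat_lit 10) (L (E (nat_lit 0) (nat_lit 0x0) (nat_lit 0))) (L (E (nat_lit 0) (nat_lit 0x0) (nat_lit 0)))) (L (E (nat_lit 0) (nat_lit 0x0) (nat_lit 0)))) (N (nat_lit 14) (N (nat_lit 13) (L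 (E (nat_lit 0) (nat_lit 0x0) (nat_lit 0))) (L (E (nat_lit 0) (nat_lit 0x0) (nat_lit 0)))) (L (E (nat_lit 0) (nat_lit 0x0) (nat_lit 0))))) (N (nat_lit 18) (N (nat_lit 17) (N (nat_lit 16) (L (E (nat_lit 0) (nat_lit 0x0) (nat_lit 0))) (L (E (nat_lit 0) (nat_lit 0x0) (nat_lit 0)))) (L (E (nat_lit 0) (nat_lit 0x0) (nat_lit 0)))) (N (nat_lit 19) (L (E (nat_lit 0) (nat_lit 0x0) (nat_lit 0))) (L (E (nat_lit 0) (nat_lit 0x0) (nat_lit 0))))))
def cl : RA := N (nat_lit 6) (N (nat_lit 3) (N (nat_lit 2) (N (nat_lit 1) (L (E (nat_lit 6) (nat_lit 0x3801800b0050010006) (nat_lit 0))) (L (E (nat_lit 6) (nat_lit 0x28012008003801800a) (nat_lit 0)))) (L (E (nat_lit 6) (nat_lit 0x4c024011008003c01a) (nat_lit 0)))) (N (nat_lit 5) (N (nat_lit 4) (L (E (nat_lit 3) (nat_lit 0x7400a003) (nat_lit 0))) (L (E (nat_lit 3) (nat_lit 0x7c00a003) (nat_lit 0)))) (L (E (nat_lit 3) (nat_lit 0x6c01a007) (nat_lit 0))))) (N (nat_lit 9) (N (nat_lit 8) (N (nat_lit 7) (L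 (E (nat_lit 3) (nat_lit 0x2c00a003) (nat_lit 0))) (L (E (nat_lit 3) (nat_lit 0x6400a001) (nat_lit 0)))) (L (E (nat_lit 3) (nat_lit 0x2400a003) (nat_lit 0)))) (N (nat_lit 11) (N (nat_lit 10) (L (E (nat_lit 3) (nat_lit 0x5c00a003) (nat_lit 0))) (L (E (nat_lit 3) (nat_lit 0x3c00a003) (nat_lit 0)))) (N (nat_lit 12) (L (E (nat_lit 3) (nat_lit 0x5400a003) (nat_lit 0))) (L (E (nat_lit 3) (nat_lit 0x14006001) (nat_lit 0))))))
def nbl : List Nat := [nat_lit 0x1300902, nat_lit 0x1100802, nat_lit 0x900402, nat_lit 0x0, nat_lit 0x0, nat_lit 0x0, nat_lit 0x0, nat_lit 0x0, nat_lit 0x0, nat_lit 0x0, nat_lit 0x0, nat_lit 0x0, nat_lit 0x0, nat_lit 0x0, nat_lit 0x0, nat_lit 0x0, nat_lit 0x0, nat_lit 0x0, nat_lit 0x0, nat_lit 0x0]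
def apl : List Nat := [nat_lit 0x3801800b0050010006, nat_lit 0x28012008003801800a, nat_lit 0x3401e0100088048026]
theorem hpt : RA.all okp pt = true := by decide +kernel
theorem hN : chkN nb td1 pt nbl (nat_lit 0) = true := by decide +kernel
theorem hA : chkG cl (nat_lit 6) (apOK td1 pt (nat_lit 5)) apl (nat_lit 0) = true := by decide +kernel
def s0 : List Nat := [nat_lit 0x7400a003]
theorem hs0 : chkG cl (nat_lit 3) (l3OK td12 td12 td12 pt) s0 (nat_lit 3) = true := by decide +kernel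
def s1 : List Nat := [nat_lit 0xc00a01f]
theorem hs1 : chkG cl (nat_lit 3) (l3OK td9 td3 td12 pt) s1 (nat_lit 4) = true := by decide +kernel
def s2 : List Nat := [nat_lit 0x34036007]
theorem hs2 : chkG cl (nat_lit 3) (l3OK td21 td12 td27 pt) s2 (nat_lit 5) = true := by decide +kernel
def s3 : List Nat := [nat_lit 0x1400600b]
theorem hs3 : chkG cl (nat_lit 3) (l3OK td31 td13 td12 pt) s3 (nat_lit 6) = true := by decide +kernel
def s4 : List Nat := [nat_lit 0x14032001]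
theorem hs4 : chkG cl (nat_lit 3) (l3OK td31 td37 td7 pt) s4 (nat_lit 7) = true := by decide +kernel
def s5 : List Nat := [nat_lit 0xc012005]
theorem hs5 : chkG cl (nat_lit 3) (l3OK td4 td12 td28 pt) s5 (nat_lit 8) = true := by decide +kernel
def s6 : List Nat := [nat_lit 0xc02e005]
theorem hs6 : chkG cl (nat_lit 3) (l3OK td4 td12 td16 pt) s6 (nat_lit 9) = true := by decide +kernel
def s7 : List Nat := [nat_lit 0x1401e003, nat_lit 0x1402a003]
theorem hs7 : chkG cl (nat_lit 3) (l3OK td21 td12 td3 pt) s7 (nat_lit 10) = true := by decide +kernel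
def c0 : List Nat := [nat_lit 0x1000000040000000000a00a800100740040072001c03d000801880030044001005a0000029001201b800a006c005801e00180e]
theorem t0 : chk cl nb (nat_lit 20) c0 (nat_lit 11) = true := by decide +kernel

end

end APL.P54

namespace APL.P55

open APL.RA renaming leaf → L, node → N
open APL renaming dec → E

noncomputable section

set_option maxRecDepth 100000

def pt : RA := N (nat_lit 4) (N (nat_lit 2) (N (nat_lit 1) (L (nat_lit 288234774265332736)) (L (nat_lit 288234774265529344))) (N (nat_lit 3) (L (nat_lit 288234774265398271)) (L (nat_lit 288234774265398272)))) (N (nat_lit 6) (N (nat_lit 5) (L (nat_lit 288234774265398273)) (L (nat_lit 288234774265398274))) (N (nat_lit 7) (L (nat_lit 288234774265398275)) (L (nat_lit 288234774265398276))))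
def nb : RA := N (nat_lit 4) (N (nat_lit 2) (N (nat_lit 1) (L (E (nat_lit 2) (nat_lit 0xc004) (nat_lit 0))) (L (E (nat_lit 0) (nat_lit 0x0) (nat_lit 0)))) (N (nat_lit 3) (L (E (nat_lit 0) (nat_lit 0x0) (nat_lit 0))) (L (E (nat_lit 0) (nat_lit 0x0) (nat_lit 0))))) (N (nat_lit 6) (N (nat_lit 5) (L (E (nat_lit 0) (nat_lit 0x0) (nat_lit 0))) (L (E (nat_lit 0) (nat_lit 0x0) (nat_lit 0)))) (N (nat_lit 7) (L (E (nat_lit 0) (nat_lit 0x0) (nat_lit 0))) (L (E (nat_lit 0) (nat_lit 0x0) (nat_lit 0)))))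
def cl : RA := N (nat_lit 3) (N (nat_lit 2) (N (nat_lit 1) (L (E (nat_lit 6) (nat_lit 0x1c00c005002000c004) (nat_lit 0))) (L (E (nat_lit 3) (nat_lit 0x3c006001) (nat_lit 0)))) (L (E (nat_lit 3) (nat_lit 0x24006001) (nat_lit 0)))) (N (nat_lit 4) (L (E (nat_lit 3) (nat_lit 0x2c006001) (nat_lit 0))) (N (nat_lit 5) (L (E (nat_lit 3) (nat_lit 0x34006001) (nat_lit 0))) (L (E (nat_lit 2) (nat_lit 0x6001) (nat_lit 0)))))
def nbl : List Nat := [nat_lit 0x300102, nat_lit 0x0, nat_lit 0x0, nat_lit 0x0, nat_lit 0x0, nat_lit 0x0, nat_lit 0x0, nat_lit 0x0]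
def apl : List Nat := [nat_lit 0x1c00c005002000c004]
theorem hpt : RA.all okp pt = true := by decide +kernel
theorem hN : chkN nb td1 pt nbl (nat_lit 0) = true := by decide +kernel
theorem hA : chkG cl (nat_lit 6) (apOK td1 pt (nat_lit 5)) apl (nat_lit 0) = true := by decide +kernel
def s0 : List Nat := [nat_lit 0x3c002003]
theorem hs0 : chkG cl (nat_lit 3) (l3OK td9 td12 td21 pt) s0 (nat_lit 1) = true := by decide +kernel
def s1 : List Nat := [nat_lit 0x24006001]
theorem hs1 : chkG cl (nat_lit 3) (l3OK td9 td3 td3 pt) s1 (nat_lit 2) = true := by decide +kernel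
def s2 : List Nat := [nat_lit 0x400600b]
theorem hs2 : chkG cl (nat_lit 3) (l3OK td4 td7 td9 pt) s2 (nat_lit 3) = true := by decide +kernel
def s3 : List Nat := [nat_lit 0x34002003]
theorem hs3 : chkG cl (nat_lit 3) (l3OK td9 td7 td13 pt) s3 (nat_lit 4) = true := by decide +kernel
def c0 : List Nat := [nat_lit 0xc01d0004008800100540000032001005]
theorem t0 : chk cl nb (nat_lit 8) c0 (nat_lit 4) = true := by decide +kernel

end

end APL.P55

namespace APL.P56

open APL.RA renaming leaf → L, node → N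
open APL renaming dec → E

noncomputable section

set_option maxRecDepth 100000

def pt : RA := N (nat_lit 5) (N (nat_lit 3) (N (nat_lit 2) (N (nat_lit 1) (L (nat_lit 288234774265332736)) (L (nat_lit 288234774265136129))) (L (nat_lit 288234774265267203))) (N (nat_lit 4) (L (nat_lit 288234774265398271)) (L (nat_lit 288234774265398272)))) (N (nat_lit 7) (N (nat_lit 6) (L (nat_lit 288234774265398273)) (L (nat_lit 288234774265398274))) (N (nat_lit 8) (L (nat_lit 288234774265398275)) (L (nat_lit 288234774265398276))))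
def nb : RA := N (nat_lit 4) (N (nat_lit 2) (N (nat_lit 1) (L (E (nat_lit 2) (nat_lit 0x10006) (nat_lit 0))) (L (E (nat_lit 0) (nat_lit 0x0) (nat_lit 0)))) (N (nat_lit 3) (L (E (nat_lit 0) (nat_lit 0x0) (nat_lit 0))) (L (E (nat_lit 0) (nat_lit 0x0) (nat_lit 0))))) (N (nat_lit 7) (N (nat_lit 6) (N (nat_lit 5) (L (E (nat_lit 0) (nat_lit 0x0) (nat_lit 0))) (L (E (nat_lit 0) (nat_lit 0x0) (nat_lit 0)))) (L (E (nat_lit 0) (nat_lit 0x0) (nat_lit 0)))) (N (nat_lit 8) (L (E (nat_lit 0) (nat_lit 0x0) (nat_lit 0))) (L (E (nat_lit 0) (nat_lit 0x0) (nat_lit 0)))))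
def cl : RA := N (nat_lit 3) (N (nat_lit 2) (N (nat_lit 1) (L (E (nat_lit 6) (nat_lit 0x2000e0060028010006) (nat_lit 0))) (L (E (nat_lit 3) (nat_lit 0x3c00a003) (nat_lit 0)))) (L (E (nat_lit 3) (nat_lit 0x2c00a003) (nat_lit 0)))) (N (nat_lit 4) (L (E (nat_lit 3) (nat_lit 0x3400a003) (nat_lit 0))) (N (nat_lit 5) (L (E (nat_lit 3) (nat_lit 0x4400a003) (nat_lit 0))) (L (E (nat_lit 3) (nat_lit 0x14006001) (nat_lit 0)))))
def nbl : List Nat := [nat_lit 0x400182, nat_lit 0x0, nat_lit 0x0, nat_lit 0x0, nat_lit 0x0, nat_lit 0x0, nat_lit 0x0, nat_lit 0x0, nat_lit 0x0]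
def apl : List Nat := [nat_lit 0x2000e0060028010006]
theorem hpt : RA.all okp pt = true := by decide +kernel
theorem hN : chkN nb td1 pt nbl (nat_lit 0) = true := by decide +kernel
theorem hA : chkG cl (nat_lit 6) (apOK td1 pt (nat_lit 5)) apl (nat_lit 0) = true := by decide +kernel
def s0 : List Nat := [nat_lit 0xc01e005]
theorem hs0 : chkG cl (nat_lit 3) (l3OK td4 td12 td28 pt) s0 (nat_lit 1) = true := by decide +kernel
def s1 : List Nat := [nat_lit 0xc016005]
theorem hs1 : chkG cl (nat_lit 3) (l3OK td4 td12 td16 pt) s1 (nat_lit 2) = true := by decide +kernel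
def s2 : List Nat := [nat_lit 0x1401a003]
theorem hs2 : chkG cl (nat_lit 3) (l3OK td21 td12 td3 pt) s2 (nat_lit 3) = true := by decide +kernel
def s3 : List Nat := [nat_lit 0xc00a011]
theorem hs3 : chkG cl (nat_lit 3) (l3OK td7 td37 td12 pt) s3 (nat_lit 4) = true := by decide +kernel
def c0 : List Nat := [nat_lit 0x8015000200c800300740000042001005]
theorem t0 : chk cl nb (nat_lit 9) c0 (nat_lit 4) = true := by decide +kernel

end

end APL.P56

namespace APL.P57

open APL.RA renaming leaf → L, node → N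
open APL renaming dec → E

noncomputable section

set_option maxRecDepth 100000

def pt : RA := N (nat_lit 5) (N (nat_lit 3) (N (nat_lit 2) (N (nat_lit 1) (L (nat_lit 288234774265332736)) (L (nat_lit 288234774265070593))) (L (nat_lit 288234774265201668))) (N (nat_lit 4) (L (nat_lit 288234774264939525)) (L (nat_lit 288234774265005060)))) (N (nat_lit 7) (N (nat_lit 6) (L (nat_lit 288234774265070595)) (L (nat_lit 288234774265136130))) (N (nat_lit 8) (L (nat_lit 288234774265201665)) (L (nat_lit 288234774265267200))))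
def nb : RA := N (nat_lit 4) (N (nat_lit 2) (N (nat_lit 1) (L (E (nat_lit 1) (nat_lit 0x10) (nat_lit 0))) (L (E (nat_lit 0) (nat_lit 0x0) (nat_lit 0)))) (N (nat_lit 3) (L (E (nat_lit 0) (nat_lit 0x0) (nat_lit 0))) (L (E (nat_lit 0) (nat_lit 0x0) (nat_lit 0))))) (N (nat_lit 7) (N (nat_lit 6) (N (nat_lit 5) (L (E (nat_lit 0) (nat_lit 0x0) (nat_lit 0))) (L (E (nat_lit 0) (nat_lit 0x0) (nat_lit 0)))) (L (E (nat_lit 0) (nat_lit 0x0) (nat_lit 0)))) (N (nat_lit 8) (L (E (nat_lit 0) (nat_lit 0x0) (nat_lit 0))) (L (E (nat_lit 0) (nat_lit 0x0) (nat_lit 0)))))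
def cl : RA := N (nat_lit 3) (N (nat_lit 2) (N (nat_lit 1) (L (E (nat_lit 6) (nat_lit 0x2000e0060028010006) (nat_lit 0))) (L (E (nat_lit 3) (nat_lit 0x3c00a001) (nat_lit 0)))) (L (E (nat_lit 3) (nat_lit 0x2c00a003) (nat_lit 0)))) (N (nat_lit 5) (N (nat_lit 4) (L (E (nat_lit 3) (nat_lit 0x2400a001) (nat_lit 0))) (L (E (nat_lit 3) (nat_lit 0x1c006001) (nat_lit 0)))) (N (nat_lit 6) (L (E (nat_lit 3) (nat_lit 0x3400a001) (nat_lit 0))) (L (E (nat_lit 3) (nat_lit 0x14006001) (nat_lit 0)))))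
def nbl : List Nat := [nat_lit 0x401, nat_lit 0x0, nat_lit 0x0, nat_lit 0x0, nat_lit 0x0, nat_lit 0x0, nat_lit 0x0, nat_lit 0x0, nat_lit 0x0]
def apl : List Nat := [nat_lit 0xc008005003001c010]
theorem hpt : RA.all okp pt = true := by decide +kernel
theorem hN : chkN nb td1 pt nbl (nat_lit 0) = true := by decide +kernel
theorem hA : chkG cl (nat_lit 6) (apOK td1 pt (nat_lit 5)) apl (nat_lit 0) = true := by decide +kernel
def s0 : List Nat := [nat_lit 0x400a00f]
theorem hs0 : chkG cl (nat_lit 3) (l3OK td9 td3 td12 pt) s0 (nat_lit 1) = true := by decide +kernel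
def s1 : List Nat := [nat_lit 0x1400600b]
theorem hs1 : chkG cl (nat_lit 3) (l3OK td4 td7 td19 pt) s1 (nat_lit 2) = true := by decide +kernel
def s2 : List Nat := [nat_lit 0x4012005]
theorem hs2 : chkG cl (nat_lit 3) (l3OK td9 td12 td21 pt) s2 (nat_lit 3) = true := by decide +kernel
def s3 : List Nat := [nat_lit 0xc00e001]
theorem hs3 : chkG cl (nat_lit 3) (l3OK td31 td13 td12 pt) s3 (nat_lit 4) = true := by decide +kernel
def s4 : List Nat := [nat_lit 0x1400200d]
theorem hs4 : chkG cl (nat_lit 3) (l3OK td7 td7 td12 pt) s4 (nat_lit 5) = true := by decide +kernel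
def c0 : List Nat := [nat_lit 0x2003a0008011000000c80030054000801a001406]
theorem t0 : chk cl nb (nat_lit 9) c0 (nat_lit 5) = true := by decide +kernel

end

end APL.P57

namespace APL.P58

open APL.RA renaming leaf → L, node → N
open APL renaming dec → E

noncomputable section

set_option maxRecDepth 100000

def pt : RA := N (nat_lit 5) (N (nat_lit 3) (N (nat_lit 2) (N (nat_lit 1) (L (nat_lit 288234774265332736)) (L (nat_lit 288234774265005057))) (L (nat_lit 288234774265201667))) (N (nat_lit 4) (L (nat_lit 288234774265005059)) (L (nat_lit 288234774265070594)))) (N (nat_lit 7) (N (nat_lit 6) (L (nat_lit 288234774265136129)) (L (nat_lit 288234774265201664))) (N (nat_lit 8) (L (nat_lit 288234774265267199)) (L (nat_lit 288234774265332734))))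
def nb : RA := N (nat_lit 5) (N (nat_lit 3) (N (nat_lit 2) (N (nat_lit 1) (L (E (nat_lit 0) (nat_lit 0x0) (nat_lit 0))) (L (E (nat_lit 0) (nat_lit 0x0) (nat_lit 0)))) (L (E (nat_lit 0) (nat_lit 0x0) (nat_lit 0)))) (N (nat_lit 4) (L (E (nat_lit 0) (nat_lit 0x0) (nat_lit 0))) (L (E (nat_lit 0) (nat_lit 0x0) (nat_lit 0))))) (N (nat_lit 7) (N (nat_lit 6) (L (E (nat_lit 0) (nat_lit 0x0) (nat_lit 0))) (L (E (nat_lit 0) (nat_lit 0x0) (nat_lit 0)))) (N (nat_lit 8) (L (E (nat_lit 0) (nat_lit 0x0) (nat_lit 0))) (L (E (nat_lit 0) (nat_lit 0x0) (nat_lit 0)))))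
def cl : RA := N (nat_lit 4) (N (nat_lit 2) (N (nat_lit 1) (L (E (nat_lit 6) (nat_lit 0x2000e0060028010006) (nat_lit 0))) (L (E (nat_lit 3) (nat_lit 0x2c00a003) (nat_lit 0)))) (N (nat_lit 3) (L (E (nat_lit 3) (nat_lit 0x4400a001) (nat_lit 0))) (L (E (nat_lit 3) (nat_lit 0x3400a001) (nat_lit 0))))) (N (nat_lit 6) (N (nat_lit 5) (L (E (nat_lit 3) (nat_lit 0x1c00a001) (nat_lit 0))) (L (E (nat_lit 3) (nat_lit 0x3c006001) (nat_lit 0)))) (N (nat_lit 7) (L (E (nat_lit 3) (nat_lit 0x2400a001) (nat_lit 0))) (L (E (nat_lit 3) (nat_lit 0x14006001) (nat_lit 0)))))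
def nbl : List Nat := [nat_lit 0x0, nat_lit 0x0, nat_lit 0x0, nat_lit 0x0, nat_lit 0x0, nat_lit 0x0, nat_lit 0x0, nat_lit 0x0, nat_lit 0x0]
def apl : List Nat := [nat_lit 0xc008005003001c010]
theorem hpt : RA.all okp pt = true := by decide +kernel
theorem hN : chkN nb td1 pt nbl (nat_lit 0) = true := by decide +kernel
theorem hA : chkG cl (nat_lit 6) (apOK td1 pt (nat_lit 5)) apl (nat_lit 0) = true := by decide +kernel
def s0 : List Nat := [nat_lit 0x1400600b, nat_lit 0x14022001]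
theorem hs0 : chkG cl (nat_lit 3) (l3OK td4 td7 td19 pt) s0 (nat_lit 1) = true := by decide +kernel
def s1 : List Nat := [nat_lit 0x1401a001]
theorem hs1 : chkG cl (nat_lit 3) (l3OK td4 td7 td9 pt) s1 (nat_lit 3) = true := by decide +kernel
def s2 : List Nat := [nat_lit 0x400e005]
theorem hs2 : chkG cl (nat_lit 3) (l3OK td9 td7 td19 pt) s2 (nat_lit 4) = true := by decide +kernel
def s3 : List Nat := [nat_lit 0x3c002003]
theorem hs3 : chkG cl (nat_lit 3) (l3OK td21 td12 td3 pt) s3 (nat_lit 5) = true := by decide +kernel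
def s4 : List Nat := [nat_lit 0x24002005]
theorem hs4 : chkG cl (nat_lit 3) (l3OK td7 td7 td12 pt) s4 (nat_lit 6) = true := by decide +kernel
def c0 : List Nat := [nat_lit 0x400840018032000800d000200e80000044002802a001806]
theorem t0 : chk cl nb (nat_lit 9) c0 (nat_lit 6) = true := by decide +kernel

end

end APL.P58

namespace APL.P59

open APL.RA renaming leaf → L, node → N
open APL renaming dec → E

noncomputable section

set_option maxRecDepth 100000

def pt : RA := N (nat_lit 5) (N (nat_lit 3) (N (nat_lit 2) (N (nat_lit 1) (L (nat_lit 288234774265332736)) (L (nat_lit 288234774265005058))) (L (nat_lit 288234774265201668))) (N (nat_lit 4) (L (nat_lit 288234774264939526)) (L (nat_lit 288234774265005061)))) (N (nat_lit 7) (N (nat_lit 6) (L (nat_lit 288234774265070596)) (L (nat_lit 288234774265136131))) (N (nat_lit 8) (L (nat_lit 288234774265201666)) (L (nat_lit 288234774265267201))))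
def nb : RA := N (nat_lit 4) (N (nat_lit 2) (N (nat_lit 1) (L (E (nat_lit 1) (nat_lit 0x10) (nat_lit 0))) (L (E (nat_lit 0) (nat_lit 0x0) (nat_lit 0)))) (N (nat_lit 3) (L (E (nat_lit 0) (nat_lit 0x0) (nat_lit 0))) (L (E (nat_lit 0) (nat_lit 0x0) (nat_lit 0))))) (N (nat_lit 7) (N (nat_lit 6) (N (nat_lit 5) (L (E (nat_lit 0) (nat_lit 0x0) (nat_lit 0))) (L (E (nat_lit 0) (nat_lit 0x0) (nat_lit 0)))) (L (E (nat_lit 0) (nat_lit 0x0) (nat_lit 0)))) (N (nat_lit 8) (L (E (nat_lit 0) (nat_lit 0x0) (nat_lit 0))) (L (E (nat_lit 0) (nat_lit 0x0) (nat_lit 0)))))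
def cl : RA := N (nat_lit 3) (N (nat_lit 2) (N (nat_lit 1) (L (E (nat_lit 6) (nat_lit 0x2000e0060028010006) (nat_lit 0))) (L (E (nat_lit 3) (nat_lit 0x3400a001) (nat_lit 0)))) (L (E (nat_lit 3) (nat_lit 0x3c00a001) (nat_lit 0)))) (N (nat_lit 5) (N (nat_lit 4) (L (E (nat_lit 3) (nat_lit 0x2c00a001) (nat_lit 0))) (L (E (nat_lit 3) (nat_lit 0x24006001) (nat_lit 0)))) (N (nat_lit 6) (L (E (nat_lit 3) (nat_lit 0x1c00a003) (nat_lit 0))) (L (E (nat_lit 3) (nat_lit 0x14006001) (nat_lit 0)))))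
def nbl : List Nat := [nat_lit 0x401, nat_lit 0x0, nat_lit 0x0, nat_lit 0x0, nat_lit 0x0, nat_lit 0x0, nat_lit 0x0, nat_lit 0x0, nat_lit 0x0]
def apl : List Nat := [nat_lit 0xc008005003001c010]
theorem hpt : RA.all okp pt = true := by decide +kernel
theorem hN : chkN nb td1 pt nbl (nat_lit 0) = true := by decide +kernel
theorem hA : chkG cl (nat_lit 6) (apOK td1 pt (nat_lit 5)) apl (nat_lit 0) = true := by decide +kernel
def s0 : List Nat := [nat_lit 0x1400200d]
theorem hs0 : chkG cl (nat_lit 3) (l3OK td9 td3 td12 pt) s0 (nat_lit 1) = true := by decide +kernel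
def s1 : List Nat := [nat_lit 0x1400200f]
theorem hs1 : chkG cl (nat_lit 3) (l3OK td4 td4 td12 pt) s1 (nat_lit 2) = true := by decide +kernel
def s2 : List Nat := [nat_lit 0x4016005]
theorem hs2 : chkG cl (nat_lit 3) (l3OK td4 td12 td16 pt) s2 (nat_lit 3) = true := by decide +kernel
def s3 : List Nat := [nat_lit 0x4012003]
theorem hs3 : chkG cl (nat_lit 3) (l3OK td9 td19 td25 pt) s3 (nat_lit 4) = true := by decide +kernel
def s4 : List Nat := [nat_lit 0x14006007]
theorem hs4 : chkG cl (nat_lit 3) (l3OK td13 td12 td19 pt) s4 (nat_lit 5) = true := by decide +kernel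
def c0 : List Nat := [nat_lit 0x20032000c01d000400a80010044000001a001406]
theorem t0 : chk cl nb (nat_lit 9) c0 (nat_lit 5) = true := by decide +kernel

end

end APL.P59

namespace APL.P61

open APL.RA renaming leaf → L, node → N
open APL renaming dec → E

noncomputable section

set_option maxRecDepth 100000

def pt : RA := N (nat_lit 5) (N (nat_lit 3) (N (nat_lit 2) (N (nat_lit 1) (L (nat_lit 288234774265332736)) (L (nat_lit 288234774265005058))) (L (nat_lit 288234774265201669))) (N (nat_lit 4) (L (nat_lit 288234774265267200)) (L (nat_lit 288234774265267201)))) (N (nat_lit 7) (N (nat_lit 6) (L (nat_lit 288234774265267202)) (L (nat_lit 288234774265267203))) (N (nat_lit 8) (L (nat_lit 288234774265267204)) (L (nat_lit 288234774265267205))))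
def nb : RA := N (nat_lit 4) (N (nat_lit 2) (N (nat_lit 1) (L (E (nat_lit 2) (nat_lit 0x10006) (nat_lit 0))) (L (E (nat_lit 0) (nat_lit 0x0) (nat_lit 0)))) (N (nat_lit 3) (L (E (nat_lit 2) (nat_lit 0x2000e) (nat_lit 0))) (L (E (nat_lit 0) (nat_lit 0x0) (nat_lit 0))))) (N (nat_lit 7) (N (nat_lit 6) (N (nat_lit 5) (L (E (nat_lit 0) (nat_lit 0x0) (nat_lit 0))) (L (E (nat_lit 0) (nat_lit 0x0) (nat_lit 0)))) (L (E (nat_lit 0) (nat_lit 0x0) (nat_lit 0)))) (N (nat_lit 8) (L (E (nat_lit 0) (nat_lit 0x0) (nat_lit 0))) (L (E (nat_lit 0) (nat_lit 0x0) (nat_lit 0)))))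
def cl : RA := N (nat_lit 2) (N (nat_lit 1) (L (E (nat_lit 6) (nat_lit 0x2000e0060028010006) (nat_lit 0))) (L (E (nat_lit 3) (nat_lit 0x2c00a003) (nat_lit 0)))) (N (nat_lit 3) (L (E (nat_lit 3) (nat_lit 0x34006001) (nat_lit 0))) (L (E (nat_lit 3) (nat_lit 0x14006001) (nat_lit 0))))
def nbl : List Nat := [nat_lit 0x400182, nat_lit 0x0, nat_lit 0x800382, nat_lit 0x0, nat_lit 0x0, nat_lit 0x0, nat_lit 0x0, nat_lit 0x0, nat_lit 0x0]
def apl : List Nat := [nat_lit 0x2000e0060028010006]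
theorem hpt : RA.all okp pt = true := by decide +kernel
theorem hN : chkN nb td1 pt nbl (nat_lit 0) = true := by decide +kernel
theorem hA : chkG cl (nat_lit 6) (apOK td1 pt (nat_lit 5)) apl (nat_lit 0) = true := by decide +kernel
def s0 : List Nat := [nat_lit 0x1400600b]
theorem hs0 : chkG cl (nat_lit 3) (l3OK td16 td7 td27 pt) s0 (nat_lit 1) = true := by decide +kernel
def s1 : List Nat := [nat_lit 0x400600d]
theorem hs1 : chkG cl (nat_lit 3) (l3OK td21 td7 td19 pt) s1 (nat_lit 2) = true := by decide +kernel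
def c0 : List Nat := [nat_lit 0x40000000000100540000032000804]
theorem t0 : chk cl nb (nat_lit 9) c0 (nat_lit 2) = true := by decide +kernel

end

end APL.P61

namespace APL.P62

open APL.RA renaming leaf → L, node → N
open APL renaming dec → E

noncomputable section

set_option maxRecDepth 100000

def pt : RA := N (nat_lit 5) (N (nat_lit 3) (N (nat_lit 2) (N (nat_lit 1) (L (nat_lit 288234774265332736)) (L (nat_lit 288234774264873987))) (L (nat_lit 288234774265136134))) (N (nat_lit 4) (L (nat_lit 288234774264939523)) (L (nat_lit 288234774265005059)))) (N (nat_lit 7) (N (nat_lit 6) (L (nat_lit 288234774265070595)) (L (nat_lit 288234774265136131))) (N (nat_lit 8) (L (nat_lit 288234774265201667)) (L (nat_lit 288234774265267203))))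
def nb : RA := N (nat_lit 5) (N (nat_lit 3) (N (nat_lit 2) (N (nat_lit 1) (L (E (nat_lit 0) (nat_lit 0x0) (nat_lit 0))) (L (E (nat_lit 0) (nat_lit 0x0) (nat_lit 0)))) (L (E (nat_lit 0) (nat_lit 0x0) (nat_lit 0)))) (N (nat_lit 4) (L (E (nat_lit 0) (nat_lit 0x0) (nat_lit 0))) (L (E (nat_lit 0) (nat_lit 0x0) (nat_lit 0))))) (N (nat_lit 7) (N (nat_lit 6) (L (E (nat_lit 0) (nat_lit 0x0) (nat_lit 0))) (L (E (nat_lit 0) (nat_lit 0x0) (nat_lit 0)))) (N (nat_lit 8) (L (E (nat_lit 0) (nat_lit 0x0) (nat_lit 0))) (L (E (nat_lit 0) (nat_lit 0x0) (nat_lit 0)))))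
def cl : RA := N (nat_lit 4) (N (nat_lit 2) (N (nat_lit 1) (L (E (nat_lit 6) (nat_lit 0x2000e0060028010006) (nat_lit 0))) (L (E (nat_lit 3) (nat_lit 0x3400a001) (nat_lit 0)))) (N (nat_lit 3) (L (E (nat_lit 3) (nat_lit 0x2c00a003) (nat_lit 0))) (L (E (nat_lit 3) (nat_lit 0x3c00a001) (nat_lit 0))))) (N (nat_lit 6) (N (nat_lit 5) (L (E (nat_lit 3) (nat_lit 0x4400a001) (nat_lit 0))) (L (E (nat_lit 3) (nat_lit 0x1c00a001) (nat_lit 0)))) (N (nat_lit 7) (L (E (nat_lit 3) (nat_lit 0x2400a001) (nat_lit 0))) (L (E (nat_lit 3) (nat_lit 0x14006001) (nat_lit 0)))))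
def nbl : List Nat := [nat_lit 0x0, nat_lit 0x0, nat_lit 0x0, nat_lit 0x0, nat_lit 0x0, nat_lit 0x0, nat_lit 0x0, nat_lit 0x0, nat_lit 0x0]
def apl : List Nat := [nat_lit 0x2000e0060028010006]
theorem hpt : RA.all okp pt = true := by decide +kernel
theorem hN : chkN nb td1 pt nbl (nat_lit 0) = true := by decide +kernel
theorem hA : chkG cl (nat_lit 6) (apOK td1 pt (nat_lit 5)) apl (nat_lit 0) = true := by decide +kernel
def s0 : List Nat := [nat_lit 0x1400200d]
theorem hs0 : chkG cl (nat_lit 3) (l3OK td9 td9 td27 pt) s0 (nat_lit 1) = true := by decide +kernel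
def s1 : List Nat := [nat_lit 0x1400600b]
theorem hs1 : chkG cl (nat_lit 3) (l3OK td9 td13 td37 pt) s1 (nat_lit 2) = true := by decide +kernel
def s2 : List Nat := [nat_lit 0x1401e001, nat_lit 0x14022001]
theorem hs2 : chkG cl (nat_lit 3) (l3OK td7 td27 td7 pt) s2 (nat_lit 3) = true := by decide +kernel
def s3 : List Nat := [nat_lit 0x1400e001]
theorem hs3 : chkG cl (nat_lit 3) (l3OK td27 td27 td27 pt) s3 (nat_lit 5) = true := by decide +kernel
def s4 : List Nat := [nat_lit 0x14002009]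
theorem hs4 : chkG cl (nat_lit 3) (l3OK td19 td19 td27 pt) s4 (nat_lit 6) = true := by decide +kernel
def c0 : List Nat := [nat_lit 0x50064001803a0008021000200680000044002002a001806]
theorem t0 : chk cl nb (nat_lit 9) c0 (nat_lit 6) = true := by decide +kernel

end

end APL.P62

namespace APL.P63

open APL.RA renaming leaf → L, node → N
open APL renaming dec → E

noncomputable section

set_option maxRecDepth 100000

def pt0 : RA := N (nat_lit 28) (N (nat_lit 14) (N (nat_lit 7) (N (nat_lit 4) (N (nat_lit 2) (N (nat_lit 1) (L (nat_lit 288234774265332736)) (L (nat_lit 288234774265201665))) (N (nat_lit 3) (L (nat_lit 288234774264873987)) (L (nat_lit 285983004516549629)))) (N (nat_lit 6) (N (nat_lit 5) (L (nat_lit 286264470903260159)) (L (nat_lit 286545937289839615))) (L (nat_lit 286545937289905151)))) (N (nat_lit 11) (N (nat_lit 9) (N (nat_lit 8) (L (nat_lit 286545937289970687)) (L (nat_lit 286545937289970689))) (N (nat_lit 10) (L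 (nat_lit 286545937290036223)) (L (nat_lit 286545937290101759)))) (N (nat_lit 13) (N (nat_lit 12) (L (nat_lit 286545937290167295)) (L (nat_lit 286545941584806914))) (L (nat_lit 286827390791844868))))) (N (nat_lit 21) (N (nat_lit 18) (N (nat_lit 16) (N (nat_lit 15) (L (nat_lit 286827399381648386)) (L (nat_lit 286827403676615682))) (N (nat_lit 17) (L (nat_lit 286827403676681219)) (L (nat_lit 286827403676877824)))) (N (nat_lit 20) (N (nat_lit 19) (L (nat_lit 286827407971582978)) (L (nat_lit 286827412266550274))) (L (nat_lit 286827416561517570)))) (N (nat_lit 25) (N (nat_lit 23) (N (nat_lit 22) (L (nat_lit 286827420856484866)) (L (nat_lit 287108865768424450))) (N (nat_lit 24) (L (nat_lit 287108870063391749)) (L (nat_lit 287108870063457283)))) (N (nat_lit 27) (N (nat_lit 26) (L (nat_lit 287108882948293634)) (L (nat_lit 287108908718162941))) (L (nat_lit 287390336450102279)))))) (N (nat_lit 42) (N (nat_lit 35) (N (nat_lit 32) (N (nat_lit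 30) (N (nat_lit 29) (L (nat_lit 287390340745135106)) (L (nat_lit 287390349334938628))) (N (nat_lit 31) (L (nat_lit 287390349335004159)) (L (nat_lit 287390349335004164)))) (N (nat_lit 34) (N (nat_lit 33) (L (nat_lit 287390349335069695)) (L (nat_lit 287390349335069698))) (L (nat_lit 287390349335069700)))) (N (nat_lit 39) (N (nat_lit 37) (N (nat_lit 36) (L (nat_lit 287390349335135231)) (L (nat_lit 287390349335135236))) (N (nat_lit 38) (L (nat_lit 287390349335200766)) (L (nat_lit 287390349335200767)))) (N (nat_lit 41) (N (nat_lit 40) (L (nat_lit 287390349335200768)) (L (nat_lit 287390349335200769))) (L (nat_lit 287390349335200770))))) (N (nat_lit 49) (N (nat_lit 46) (N (nat_lit 44) (N (nat_lit 43) (L (nat_lit 287390349335200771)) (L (nat_lit 287390349335200772))) (N (nat_lit 45) (L (nat_lit 287390349335266303)) (L (nat_lit 287390349335266308)))) (N (nat_lit 48) (N (nat_lit 47) (L (nat_lit 287390349335331839)) (L (nat_lit 287390353630036994)))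 (L (nat_lit 287390362219840516)))) (N (nat_lit 52) (N (nat_lit 51) (N (nat_lit 50) (L (nat_lit 287390362219906051)) (L (nat_lit 287390362219971581))) (L (nat_lit 287390362219971582))) (N (nat_lit 54) (N (nat_lit 53) (L (nat_lit 287390362219971583)) (L (nat_lit 287390362219971584))) (L (nat_lit 287390362219971585))))))
def pt1 : RA := N (nat_lit 82) (N (nat_lit 69) (N (nat_lit 62) (N (nat_lit 59) (N (nat_lit 57) (N (nat_lit 56) (L (nat_lit 287390362219971586)) (L (nat_lit 287390362220037118))) (N (nat_lit 58) (L (nat_lit 287390362220037121)) (L (nat_lit 287390362220102654)))) (N (nat_lit 61) (N (nat_lit 60) (L (nat_lit 287390362220102656)) (L (nat_lit 287390362220168189))) (L (nat_lit 287390362220168190)))) (N (nat_lit 66) (N (nat_lit 64) (N (nat_lit 63) (L (nat_lit 287390362220168191)) (L (nat_lit 287390362220168192))) (N (nat_lit 65) (L (nat_lit 287390362220168193)) (L (nat_lit 287390362220168194)))) (N (nat_lit 68) (N (nat_lit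 67) (L (nat_lit 287390362220233726)) (L (nat_lit 287390362220299261))) (L (nat_lit 287390362220299262))))) (N (nat_lit 76) (N (nat_lit 73) (N (nat_lit 71) (N (nat_lit 70) (L (nat_lit 287390375104873471)) (L (nat_lit 287671802837074950))) (N (nat_lit 72) (L (nat_lit 287671815721845762)) (L (nat_lit 287671820016813058)))) (N (nat_lit 75) (N (nat_lit 74) (L (nat_lit 287671824311780354)) (L (nat_lit 287671828606682113))) (L (nat_lit 287671828606747650)))) (N (nat_lit 79) (N (nat_lit 78) (N (nat_lit 77) (L (nat_lit 287671828606878717)) (L (nat_lit 287671828606878718))) (L (nat_lit 287671828606878719))) (N (nat_lit 81) (N (nat_lit 80) (L (nat_lit 287671828606878720)) (L (nat_lit 287671828606878721))) (L (nat_lit 287671828606878722)))))) (N (nat_lit 96) (N (nat_lit 89) (N (nat_lit 86) (N (nat_lit 84) (N (nat_lit 83) (L (nat_lit 287671832901714946)) (L (nat_lit 287671837196682242))) (N (nat_lit 85) (L (nat_lit 287671841491584001)) (L (nat_lit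 287671841491649538)))) (N (nat_lit 88) (N (nat_lit 87) (L (nat_lit 287671841491780606)) (L (nat_lit 287671845786616834))) (L (nat_lit 287671854376420349)))) (N (nat_lit 93) (N (nat_lit 91) (N (nat_lit 90) (L (nat_lit 287953282108687365)) (L (nat_lit 287953290698556418))) (N (nat_lit 92) (L (nat_lit 287953294993523714)) (L (nat_lit 287953294993589248)))) (N (nat_lit 95) (N (nat_lit 94) (L (nat_lit 287953294993589249)) (L (nat_lit 287953294993589250))) (L (nat_lit 287953294993589251))))) (N (nat_lit 103) (N (nat_lit 100) (N (nat_lit 98) (N (nat_lit 97) (L (nat_lit 287953294993589252)) (L (nat_lit 287953294993589253))) (N (nat_lit 99) (L (nat_lit 287953307878294528)) (L (nat_lit 287953307878294531)))) (N (nat_lit 102) (N (nat_lit 101) (L (nat_lit 287953307878491136)) (L (nat_lit 287953320763130879))) (L (nat_lit 288234761379972099)))) (N (nat_lit 106) (N (nat_lit 105) (N (nat_lit 104) (L (nat_lit 288234761380037635)) (L (nat_lit 288234761380037636)))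 (L (nat_lit 288234761380103170))) (N (nat_lit 108) (N (nat_lit 107) (L (nat_lit 288234761380103171)) (L (nat_lit 288234761380103172))) (L (nat_lit 288234761380103173))))))
def pt2 : RA := N (nat_lit 137) (N (nat_lit 123) (N (nat_lit 116) (N (nat_lit 113) (N (nat_lit 111) (N (nat_lit 110) (L (nat_lit 288234761380103174)) (L (nat_lit 288234761380103175))) (N (nat_lit 112) (L (nat_lit 288234761380103176)) (L (nat_lit 288234761380103177)))) (N (nat_lit 115) (N (nat_lit 114) (L (nat_lit 288234761380168707)) (L (nat_lit 288234761380168708))) (L (nat_lit 288234761380168709)))) (N (nat_lit 120) (N (nat_lit 118) (N (nat_lit 117) (L (nat_lit 288234761380234243)) (L (nat_lit 288234761380234244))) (N (nat_lit 119) (L (nat_lit 288234761380234245)) (L (nat_lit 288234761380299775)))) (N (nat_lit 122) (N (nat_lit 121) (L (nat_lit 288234761380299776)) (L (nat_lit 288234761380299777))) (L (nat_lit 288234761380299778))))) (N (nat_lit 130) (N (nat_lit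 127) (N (nat_lit 125) (N (nat_lit 124) (L (nat_lit 288234761380299779)) (L (nat_lit 288234761380299780))) (N (nat_lit 126) (L (nat_lit 288234761380299781)) (L (nat_lit 288234761380299782)))) (N (nat_lit 129) (N (nat_lit 128) (L (nat_lit 288234761380365316)) (L (nat_lit 288234761380365317))) (L (nat_lit 288234761380430853)))) (N (nat_lit 134) (N (nat_lit 132) (N (nat_lit 131) (L (nat_lit 288234765675267074)) (L (nat_lit 288234774264808454))) (N (nat_lit 133) (L (nat_lit 288234774264873984)) (L (nat_lit 288234774264873986)))) (N (nat_lit 136) (N (nat_lit 135) (L (nat_lit 288234774264873990)) (L (nat_lit 288234774264939518))) (L (nat_lit 288234774264939519)))))) (N (nat_lit 151) (N (nat_lit 144) (N (nat_lit 141) (N (nat_lit 139) (N (nat_lit 138) (L (nat_lit 288234774264939520)) (L (nat_lit 288234774264939521))) (N (nat_lit 140) (L (nat_lit 288234774264939522)) (L (nat_lit 288234774264939523)))) (N (nat_lit 143) (N (nat_lit 142) (L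 (nat_lit 288234774264939524)) (L (nat_lit 288234774264939525))) (L (nat_lit 288234774264939526)))) (N (nat_lit 148) (N (nat_lit 146) (N (nat_lit 145) (L (nat_lit 288234774265005054)) (L (nat_lit 288234774265005056))) (N (nat_lit 147) (L (nat_lit 288234774265005058)) (L (nat_lit 288234774265005061)))) (N (nat_lit 150) (N (nat_lit 149) (L (nat_lit 288234774265005062)) (L (nat_lit 288234774265005064))) (L (nat_lit 288234774265070589))))) (N (nat_lit 158) (N (nat_lit 155) (N (nat_lit 153) (N (nat_lit 152) (L (nat_lit 288234774265070590)) (L (nat_lit 288234774265070591))) (N (nat_lit 154) (L (nat_lit 288234774265070592)) (L (nat_lit 288234774265070593)))) (N (nat_lit 157) (N (nat_lit 156) (L (nat_lit 288234774265070594)) (L (nat_lit 288234774265070595))) (L (nat_lit 288234774265070596)))) (N (nat_lit 161) (N (nat_lit 160) (N (nat_lit 159) (L (nat_lit 288234774265070597)) (L (nat_lit 288234774265070598))) (L (nat_lit 288234774265070599)))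 (N (nat_lit 163) (N (nat_lit 162) (L (nat_lit 288234774265136124)) (L (nat_lit 288234774265136126))) (L (nat_lit 288234774265136127))))))
def pt3 : RA := N (nat_lit 191) (N (nat_lit 178) (N (nat_lit 171) (N (nat_lit 168) (N (nat_lit 166) (N (nat_lit 165) (L (nat_lit 288234774265136128)) (L (nat_lit 288234774265136129))) (N (nat_lit 167) (L (nat_lit 288234774265136130)) (L (nat_lit 288234774265136131)))) (N (nat_lit 170) (N (nat_lit 169) (L (nat_lit 288234774265136132)) (L (nat_lit 288234774265136133))) (L (nat_lit 288234774265136134)))) (N (nat_lit 175) (N (nat_lit 173) (N (nat_lit 172) (L (nat_lit 288234774265201659)) (L (nat_lit 288234774265201662))) (N (nat_lit 174) (L (nat_lit 288234774265201664)) (L (nat_lit 288234774265201666)))) (N (nat_lit 177) (N (nat_lit 176) (L (nat_lit 288234774265201667)) (L (nat_lit 288234774265201669))) (L (nat_lit 288234774265267198))))) (N (nat_lit 185) (N (nat_lit 182) (N (nat_lit 180) (N (nat_lit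 179) (L (nat_lit 288234774265267199)) (L (nat_lit 288234774265267200))) (N (nat_lit 181) (L (nat_lit 288234774265267201)) (L (nat_lit 288234774265267202)))) (N (nat_lit 184) (N (nat_lit 183) (L (nat_lit 288234774265267203)) (L (nat_lit 288234774265267204))) (L (nat_lit 288234774265267205)))) (N (nat_lit 188) (N (nat_lit 187) (N (nat_lit 186) (L (nat_lit 288234774265332734)) (L (nat_lit 288234774265332737))) (L (nat_lit 288234774265332739))) (N (nat_lit 190) (N (nat_lit 189) (L (nat_lit 288234774265398270)) (L (nat_lit 288234774265398272))) (L (nat_lit 288234774265398274)))))) (N (nat_lit 205) (N (nat_lit 198) (N (nat_lit 195) (N (nat_lit 193) (N (nat_lit 192) (L (nat_lit 288234774265463806)) (L (nat_lit 288234787149841407))) (N (nat_lit 194) (L (nat_lit 288234787149841409)) (L (nat_lit 288234787149906943)))) (N (nat_lit 197) (N (nat_lit 196) (L (nat_lit 288234787149972479)) (L (nat_lit 288234787150038015))) (L (nat_lit 288234787150103551))))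 (N (nat_lit 202) (N (nat_lit 200) (N (nat_lit 199) (L (nat_lit 288234787150169087)) (L (nat_lit 288516240651715586))) (N (nat_lit 201) (L (nat_lit 288516240651715591)) (L (nat_lit 288516240651781122)))) (N (nat_lit 204) (N (nat_lit 203) (L (nat_lit 288516240651846658)) (L (nat_lit 288516240651846659))) (L (nat_lit 288516240651912194))))) (N (nat_lit 212) (N (nat_lit 209) (N (nat_lit 207) (N (nat_lit 206) (L (nat_lit 288516240651912195)) (L (nat_lit 288516240651912196))) (N (nat_lit 208) (L (nat_lit 288516240651977730)) (L (nat_lit 288516240652043266)))) (N (nat_lit 211) (N (nat_lit 210) (L (nat_lit 288516253536551939)) (L (nat_lit 288797707038622726))) (L (nat_lit 288797719923262469)))) (N (nat_lit 215) (N (nat_lit 214) (N (nat_lit 213) (L (nat_lit 288797719923524610)) (L (nat_lit 289079173425333256))) (L (nat_lit 289079186309972999))) (N (nat_lit 217) (N (nat_lit 216) (L (nat_lit 289079186310169604)) (L (nat_lit 289079199195137025)))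 (L (nat_lit 289642131968492549))))))
def pt : RA := N (nat_lit 109) (N (nat_lit 55) (pt0) (pt1)) (N (nat_lit 164) (pt2) (pt3))
def nb0 : RA := N (nat_lit 65) (N (nat_lit 51) (N (nat_lit 43) (N (nat_lit 39) (N (nat_lit 37) (N (nat_lit 36) (N (nat_lit 35) (L (E (nat_lit 0) (nat_lit 0x0) (nat_lit 0))) (L (E (nat_lit 0) (nat_lit 0x0) (nat_lit 0)))) (L (E (nat_lit 0) (nat_lit 0x0) (nat_lit 0)))) (N (nat_lit 38) (L (E (nat_lit 0) (nat_lit 0x0) (nat_lit 0))) (L (E (nat_lit 0) (nat_lit 0x0) (nat_lit 0))))) (N (nat_lit 41) (N (nat_lit 40) (L (E (nat_lit 0) (nat_lit 0x0) (nat_lit 0))) (L (E (nat_lit 0) (nat_lit 0x0) (nat_lit 0)))) (N (nat_lit 42) (L (E (nat_lit 0) (nat_lit 0x0) (nat_lit 0))) (L (E (nat_lit 0) (nat_lit 0x0) (nat_lit 0)))))) (N (nat_lit 47) (N (nat_lit 45) (N (nat_lit 44) (L (E (nat_lit 0) (nat_lit 0x0) (nat_lit 0))) (L (E (nat_lit 1) (nat_lit 0x9a) (nat_lit 0)))) (N (nat_lit 46) (L (E (nat_lit 0) (nat_lit 0x0) (nat_lit 0)))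 (L (E (nat_lit 0) (nat_lit 0x0) (nat_lit 0))))) (N (nat_lit 49) (N (nat_lit 48) (L (E (nat_lit 0) (nat_lit 0x0) (nat_lit 0))) (L (E (nat_lit 0) (nat_lit 0x0) (nat_lit 0)))) (N (nat_lit 50) (L (E (nat_lit 0) (nat_lit 0x0) (nat_lit 0))) (L (E (nat_lit 0) (nat_lit 0x0) (nat_lit 0))))))) (N (nat_lit 56) (N (nat_lit 55) (N (nat_lit 53) (N (nat_lit 52) (L (E (nat_lit 0) (nat_lit 0x0) (nat_lit 0))) (L (E (nat_lit 1) (nat_lit 0x70) (nat_lit 0)))) (N (nat_lit 54) (L (E (nat_lit 0) (nat_lit 0x0) (nat_lit 0))) (L (E (nat_lit 0) (nat_lit 0x0) (nat_lit 0))))) (L (E (nat_lit 4) (nat_lit 0x6302a014c0a4) (nat_lit 0)))) (N (nat_lit 61) (N (nat_lit 59) (N (nat_lit 58) (N (nat_lit 57) (L (E (nat_lit 0) (nat_lit 0x0) (nat_lit 0))) (L (E (nat_lit 0) (nat_lit 0x0) (nat_lit 0)))) (L (E (nat_lit 0) (nat_lit 0x0) (nat_lit 0)))) (N (nat_lit 60) (L (E (nat_lit 0) (nat_lit 0x0) (nat_lit 0))) (L (E (nat_lit 0) (nat_lit 0x0) (nat_lit 0))))) (N (nat_lit 63)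 (N (nat_lit 62) (L (E (nat_lit 0) (nat_lit 0x0) (nat_lit 0))) (L (E (nat_lit 0) (nat_lit 0x0) (nat_lit 0)))) (N (nat_lit 64) (L (E (nat_lit 0) (nat_lit 0x0) (nat_lit 0))) (L (E (nat_lit 0) (nat_lit 0x0) (nat_lit 0)))))))) (N (nat_lit 81) (N (nat_lit 73) (N (nat_lit 70) (N (nat_lit 68) (N (nat_lit 67) (N (nat_lit 66) (L (E (nat_lit 0) (nat_lit 0x0) (nat_lit 0))) (L (E (nat_lit 0) (nat_lit 0x0) (nat_lit 0)))) (L (E (nat_lit 0) (nat_lit 0x0) (nat_lit 0)))) (N (nat_lit 69) (L (E (nat_lit 0) (nat_lit 0x0) (nat_lit 0))) (L (E (nat_lit 0) (nat_lit 0x0) (nat_lit 0))))) (N (nat_lit 72) (N (nat_lit 71) (L (E (nat_lit 0) (nat_lit 0x0) (nat_lit 0))) (L (E (nat_lit 0) (nat_lit 0x0) (nat_lit 0)))) (L (E (nat_lit 2) (nat_lit 0x16808e) (nat_lit 0))))) (N (nat_lit 78) (N (nat_lit 76) (N (nat_lit 75) (N (nat_lit 74) (L (E (nat_lit 0) (nat_lit 0x0) (nat_lit 0))) (L (E (nat_lit 0) (nat_lit 0x0) (nat_lit 0)))) (L (E (nat_lit 0) (nat_lit 0x0) (nat_lit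 0)))) (N (nat_lit 77) (L (E (nat_lit 0) (nat_lit 0x0) (nat_lit 0))) (L (E (nat_lit 0) (nat_lit 0x0) (nat_lit 0))))) (N (nat_lit 80) (N (nat_lit 79) (L (E (nat_lit 0) (nat_lit 0x0) (nat_lit 0))) (L (E (nat_lit 0) (nat_lit 0x0) (nat_lit 0)))) (L (E (nat_lit 1) (nat_lit 0xc8) (nat_lit 0)))))) (N (nat_lit 90) (N (nat_lit 86) (N (nat_lit 84) (N (nat_lit 83) (N (nat_lit 82) (L (E (nat_lit 0) (nat_lit 0x0) (nat_lit 0))) (L (E (nat_lit 0) (nat_lit 0x0) (nat_lit 0)))) (L (E (nat_lit 0) (nat_lit 0x0) (nat_lit 0)))) (N (nat_lit 85) (L (E (nat_lit 0) (nat_lit 0x0) (nat_lit 0))) (L (E (nat_lit 0) (nat_lit 0x0) (nat_lit 0))))) (N (nat_lit 88) (N (nat_lit 87) (L (E (nat_lit 0) (nat_lit 0x0) (nat_lit 0))) (L (E (nat_lit 0) (nat_lit 0x0) (nat_lit 0)))) (N (nat_lit 89) (L (E (nat_lit 0) (nat_lit 0x0) (nat_lit 0))) (L (E (nat_lit 0) (nat_lit 0x0) (nat_lit 0)))))) (N (nat_lit 94) (N (nat_lit 93) (N (nat_lit 92) (N (nat_lit 91) (L (E (nat_lit 0) (nat_lit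 0x0) (nat_lit 0))) (L (E (nat_lit 0) (nat_lit 0x0) (nat_lit 0)))) (L (E (nat_lit 0) (nat_lit 0x0) (nat_lit 0)))) (L (E (nat_lit 2) (nat_lit 0x33009c) (nat_lit 0)))) (N (nat_lit 96) (N (nat_lit 95) (L (E (nat_lit 0) (nat_lit 0x0) (nat_lit 0))) (L (E (nat_lit 0) (nat_lit 0x0) (nat_lit 0)))) (L (E (nat_lit 0) (nat_lit 0x0) (nat_lit 0)))))))
def nb1 : RA := N (nat_lit 124) (N (nat_lit 111) (N (nat_lit 106) (N (nat_lit 102) (N (nat_lit 100) (N (nat_lit 99) (N (nat_lit 98) (L (E (nat_lit 0) (nat_lit 0x0) (nat_lit 0))) (L (E (nat_lit 0) (nat_lit 0x0) (nat_lit 0)))) (L (E (nat_lit 0) (nat_lit 0x0) (nat_lit 0)))) (N (nat_lit 101) (L (E (nat_lit 0) (nat_lit 0x0) (nat_lit 0))) (L (E (nat_lit 0) (nat_lit 0x0) (nat_lit 0))))) (N (nat_lit 104) (N (nat_lit 103) (L (E (nat_lit 0) (nat_lit 0x0) (nat_lit 0))) (L (E (nat_lit 0) (nat_lit 0x0) (nat_lit 0)))) (N (nat_lit 105) (L (E (nat_lit 0) (nat_lit 0x0) (nat_lit 0))) (L (E (nat_lit 0) (nat_lit 0x0)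 (nat_lit 0)))))) (N (nat_lit 108) (N (nat_lit 107) (L (E (nat_lit 0) (nat_lit 0x0) (nat_lit 0))) (L (E (nat_lit 1) (nat_lit 0xd4) (nat_lit 0)))) (N (nat_lit 110) (N (nat_lit 109) (L (E (nat_lit 0) (nat_lit 0x0) (nat_lit 0))) (L (E (nat_lit 0) (nat_lit 0x0) (nat_lit 0)))) (L (E (nat_lit 0) (nat_lit 0x0) (nat_lit 0)))))) (N (nat_lit 117) (N (nat_lit 115) (N (nat_lit 113) (N (nat_lit 112) (L (E (nat_lit 0) (nat_lit 0x0) (nat_lit 0))) (L (E (nat_lit 0) (nat_lit 0x0) (nat_lit 0)))) (N (nat_lit 114) (L (E (nat_lit 0) (nat_lit 0x0) (nat_lit 0))) (L (E (nat_lit 0) (nat_lit 0x0) (nat_lit 0))))) (N (nat_lit 116) (L (E (nat_lit 1) (nat_lit 0xda) (nat_lit 0))) (L (E (nat_lit 2) (nat_lit 0x3280f4) (nat_lit 0))))) (N (nat_lit 121) (N (nat_lit 119) (N (nat_lit 118) (L (E (nat_lit 0) (nat_lit 0x0) (nat_lit 0))) (L (E (nat_lit 0) (nat_lit 0x0) (nat_lit 0)))) (N (nat_lit 120) (L (E (nat_lit 0) (nat_lit 0x0) (nat_lit 0))) (L (E (nat_lit 0) (nat_lit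 0x0) (nat_lit 0))))) (N (nat_lit 123) (N (nat_lit 122) (L (E (nat_lit 0) (nat_lit 0x0) (nat_lit 0))) (L (E (nat_lit 1) (nat_lit 0xe8) (nat_lit 0)))) (L (E (nat_lit 0) (nat_lit 0x0) (nat_lit 0))))))) (N (nat_lit 140) (N (nat_lit 131) (N (nat_lit 126) (N (nat_lit 125) (L (E (nat_lit 1) (nat_lit 0xfa) (nat_lit 0))) (L (E (nat_lit 2) (nat_lit 0x3480be) (nat_lit 0)))) (N (nat_lit 129) (N (nat_lit 128) (N (nat_lit 127) (L (E (nat_lit 0) (nat_lit 0x0) (nat_lit 0))) (L (E (nat_lit 0) (nat_lit 0x0) (nat_lit 0)))) (L (E (nat_lit 0) (nat_lit 0x0) (nat_lit 0)))) (N (nat_lit 130) (L (E (nat_lit 0) (nat_lit 0x0) (nat_lit 0))) (L (E (nat_lit 0) (nat_lit 0x0) (nat_lit 0)))))) (N (nat_lit 136) (N (nat_lit 134) (N (nat_lit 133) (N (nat_lit 132) (L (E (nat_lit 0) (nat_lit 0x0) (nat_lit 0))) (L (E (nat_lit 0) (nat_lit 0x0) (nat_lit 0)))) (L (E (nat_lit 0) (nat_lit 0x0) (nat_lit 0)))) (N (nat_lit 135) (L (E (nat_lit 0) (nat_lit 0x0) (nat_lit 0))) (L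 (E (nat_lit 0) (nat_lit 0x0) (nat_lit 0))))) (N (nat_lit 138) (N (nat_lit 137) (L (E (nat_lit 0) (nat_lit 0x0) (nat_lit 0))) (L (E (nat_lit 0) (nat_lit 0x0) (nat_lit 0)))) (N (nat_lit 139) (L (E (nat_lit 0) (nat_lit 0x0) (nat_lit 0))) (L (E (nat_lit 0) (nat_lit 0x0) (nat_lit 0))))))) (N (nat_lit 145) (N (nat_lit 142) (N (nat_lit 141) (L (E (nat_lit 0) (nat_lit 0x0) (nat_lit 0))) (L (E (nat_lit 2) (nat_lit 0x34c1a2) (nat_lit 0)))) (N (nat_lit 144) (N (nat_lit 143) (L (E (nat_lit 0) (nat_lit 0x0) (nat_lit 0))) (L (E (nat_lit 0) (nat_lit 0x0) (nat_lit 0)))) (L (E (nat_lit 0) (nat_lit 0x0) (nat_lit 0))))) (N (nat_lit 148) (N (nat_lit 146) (L (E (nat_lit 1) (nat_lit 0x18e) (nat_lit 0))) (N (nat_lit 147) (L (E (nat_lit 2) (nat_lit 0x188094) (nat_lit 0))) (L (E (nat_lit 0) (nat_lit 0x0) (nat_lit 0))))) (N (nat_lit 150) (N (nat_lit 149) (L (E (nat_lit 0) (nat_lit 0x0) (nat_lit 0))) (L (E (nat_lit 0) (nat_lit 0x0) (nat_lit 0)))) (N (nat_lit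 151) (L (E (nat_lit 0) (nat_lit 0x0) (nat_lit 0))) (L (E (nat_lit 0) (nat_lit 0x0) (nat_lit 0))))))))
def nb2 : RA := N (nat_lit 184) (N (nat_lit 170) (N (nat_lit 161) (N (nat_lit 157) (N (nat_lit 155) (N (nat_lit 154) (N (nat_lit 153) (L (E (nat_lit 0) (nat_lit 0x0) (nat_lit 0))) (L (E (nat_lit 0) (nat_lit 0x0) (nat_lit 0)))) (L (E (nat_lit 0) (nat_lit 0x0) (nat_lit 0)))) (N (nat_lit 156) (L (E (nat_lit 0) (nat_lit 0x0) (nat_lit 0))) (L (E (nat_lit 0) (nat_lit 0x0) (nat_lit 0))))) (N (nat_lit 159) (N (nat_lit 158) (L (E (nat_lit 0) (nat_lit 0x0) (nat_lit 0))) (L (E (nat_lit 0) (nat_lit 0x0) (nat_lit 0)))) (N (nat_lit 160) (L (E (nat_lit 0) (nat_lit 0x0) (nat_lit 0))) (L (E (nat_lit 0) (nat_lit 0x0) (nat_lit 0)))))) (N (nat_lit 166) (N (nat_lit 164) (N (nat_lit 163) (N (nat_lit 162) (L (E (nat_lit 0) (nat_lit 0x0) (nat_lit 0))) (L (E (nat_lit 0) (nat_lit 0x0) (nat_lit 0)))) (L (E (nat_lit 0) (nat_lit 0x0) (nat_lit 0)))) (N (nat_lit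 165) (L (E (nat_lit 0) (nat_lit 0x0) (nat_lit 0))) (L (E (nat_lit 0) (nat_lit 0x0) (nat_lit 0))))) (N (nat_lit 168) (N (nat_lit 167) (L (E (nat_lit 0) (nat_lit 0x0) (nat_lit 0))) (L (E (nat_lit 0) (nat_lit 0x0) (nat_lit 0)))) (N (nat_lit 169) (L (E (nat_lit 0) (nat_lit 0x0) (nat_lit 0))) (L (E (nat_lit 0) (nat_lit 0x0) (nat_lit 0))))))) (N (nat_lit 176) (N (nat_lit 175) (N (nat_lit 173) (N (nat_lit 172) (N (nat_lit 171) (L (E (nat_lit 0) (nat_lit 0x0) (nat_lit 0))) (L (E (nat_lit 0) (nat_lit 0x0) (nat_lit 0)))) (L (E (nat_lit 0) (nat_lit 0x0) (nat_lit 0)))) (N (nat_lit 174) (L (E (nat_lit 0) (nat_lit 0x0) (nat_lit 0))) (L (E (nat_lit 0) (nat_lit 0x0) (nat_lit 0))))) (L (E (nat_lit 3) (nat_lit 0x5b01800a2) (nat_lit 0)))) (N (nat_lit 180) (N (nat_lit 178) (N (nat_lit 177) (L (E (nat_lit 0) (nat_lit 0x0) (nat_lit 0))) (L (E (nat_lit 0) (nat_lit 0x0) (nat_lit 0)))) (N (nat_lit 179) (L (E (nat_lit 0) (nat_lit 0x0) (nat_lit 0))) (L (E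 (nat_lit 0) (nat_lit 0x0) (nat_lit 0))))) (N (nat_lit 182) (N (nat_lit 181) (L (E (nat_lit 0) (nat_lit 0x0) (nat_lit 0))) (L (E (nat_lit 0) (nat_lit 0x0) (nat_lit 0)))) (N (nat_lit 183) (L (E (nat_lit 0) (nat_lit 0x0) (nat_lit 0))) (L (E (nat_lit 0) (nat_lit 0x0) (nat_lit 0)))))))) (N (nat_lit 202) (N (nat_lit 193) (N (nat_lit 189) (N (nat_lit 187) (N (nat_lit 186) (N (nat_lit 185) (L (E (nat_lit 0) (nat_lit 0x0) (nat_lit 0))) (L (E (nat_lit 0) (nat_lit 0x0) (nat_lit 0)))) (L (E (nat_lit 0) (nat_lit 0x0) (nat_lit 0)))) (N (nat_lit 188) (L (E (nat_lit 0) (nat_lit 0x0) (nat_lit 0))) (L (E (nat_lit 0) (nat_lit 0x0) (nat_lit 0))))) (N (nat_lit 191) (N (nat_lit 190) (L (E (nat_lit 0) (nat_lit 0x0) (nat_lit 0))) (L (E (nat_lit 0) (nat_lit 0x0) (nat_lit 0)))) (N (nat_lit 192) (L (E (nat_lit 0) (nat_lit 0x0) (nat_lit 0))) (L (E (nat_lit 0) (nat_lit 0x0) (nat_lit 0)))))) (N (nat_lit 198) (N (nat_lit 196) (N (nat_lit 195) (N (nat_lit 194)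 (L (E (nat_lit 0) (nat_lit 0x0) (nat_lit 0))) (L (E (nat_lit 0) (nat_lit 0x0) (nat_lit 0)))) (L (E (nat_lit 0) (nat_lit 0x0) (nat_lit 0)))) (N (nat_lit 197) (L (E (nat_lit 0) (nat_lit 0x0) (nat_lit 0))) (L (E (nat_lit 0) (nat_lit 0x0) (nat_lit 0))))) (N (nat_lit 200) (N (nat_lit 199) (L (E (nat_lit 0) (nat_lit 0x0) (nat_lit 0))) (L (E (nat_lit 0) (nat_lit 0x0) (nat_lit 0)))) (N (nat_lit 201) (L (E (nat_lit 0) (nat_lit 0x0) (nat_lit 0))) (L (E (nat_lit 0) (nat_lit 0x0) (nat_lit 0))))))) (N (nat_lit 210) (N (nat_lit 206) (N (nat_lit 204) (N (nat_lit 203) (L (E (nat_lit 0) (nat_lit 0x0) (nat_lit 0))) (L (E (nat_lit 0) (nat_lit 0x0) (nat_lit 0)))) (N (nat_lit 205) (L (E (nat_lit 0) (nat_lit 0x0) (nat_lit 0))) (L (E (nat_lit 0) (nat_lit 0x0) (nat_lit 0))))) (N (nat_lit 208) (N (nat_lit 207) (L (E (nat_lit 1) (nat_lit 0xfa) (nat_lit 0))) (L (E (nat_lit 0) (nat_lit 0x0) (nat_lit 0)))) (N (nat_lit 209) (L (E (nat_lit 0) (nat_lit 0x0) (nat_lit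 0))) (L (E (nat_lit 0) (nat_lit 0x0) (nat_lit 0)))))) (N (nat_lit 214) (N (nat_lit 212) (N (nat_lit 211) (L (E (nat_lit 0) (nat_lit 0x0) (nat_lit 0))) (L (E (nat_lit 0) (nat_lit 0x0) (nat_lit 0)))) (N (nat_lit 213) (L (E (nat_lit 0) (nat_lit 0x0) (nat_lit 0))) (L (E (nat_lit 0) (nat_lit 0x0) (nat_lit 0))))) (N (nat_lit 216) (N (nat_lit 215) (L (E (nat_lit 0) (nat_lit 0x0) (nat_lit 0))) (L (E (nat_lit 0) (nat_lit 0x0) (nat_lit 0)))) (N (nat_lit 217) (L (E (nat_lit 0) (nat_lit 0x0) (nat_lit 0))) (L (E (nat_lit 0) (nat_lit 0x0) (nat_lit 0))))))))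
def nb : RA := N (nat_lit 97) (N (nat_lit 34) (N (nat_lit 3) (N (nat_lit 2) (N (nat_lit 1) (L (E (nat_lit 5) (nat_lit 0x1a00bd05d02d0166) (nat_lit 0))) (L (E (nat_lit 7) (nat_lit 0x6a033415c0ad053017809e) (nat_lit 0)))) (L (E (nat_lit 3) (nat_lit 0x46022c10a) (nat_lit 0)))) (N (nat_lit 20) (N (nat_lit 12) (N (nat_lit 8) (N (nat_lit 6) (N (nat_lit 5) (N (nat_lit 4) (L (E (nat_lit 0) (nat_lit 0x0) (nat_lit 0))) (L (E (nat_lit 0) (nat_lit 0x0) (nat_lit 0)))) (L (E (nat_lit 0) (nat_lit 0x0) (nat_lit 0)))) (N (nat_lit 7) (L (E (nat_lit 0) (nat_lit 0x0) (nat_lit 0))) (L (E (nat_lit 0) (nat_lit 0x0) (nat_lit 0))))) (N (nat_lit 10) (N (nat_lit 9) (L (E (nat_lit 0) (nat_lit 0x0) (nat_lit 0))) (L (E (nat_lit 0) (nat_lit 0x0) (nat_lit 0)))) (N (nat_lit 11) (L (E (nat_lit 0) (nat_lit 0x0) (nat_lit 0))) (L (E (nat_lit 0) (nat_lit 0x0) (nat_lit 0)))))) (N (nat_lit 16) (N (nat_lit 14) (N (nat_lit 13) (L (E (nat_lit 0) (nat_lit 0x0) (nat_lit 0)))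 (L (E (nat_lit 0) (nat_lit 0x0) (nat_lit 0)))) (N (nat_lit 15) (L (E (nat_lit 0) (nat_lit 0x0) (nat_lit 0))) (L (E (nat_lit 0) (nat_lit 0x0) (nat_lit 0))))) (N (nat_lit 18) (N (nat_lit 17) (L (E (nat_lit 0) (nat_lit 0x0) (nat_lit 0))) (L (E (nat_lit 0) (nat_lit 0x0) (nat_lit 0)))) (N (nat_lit 19) (L (E (nat_lit 0) (nat_lit 0x0) (nat_lit 0))) (L (E (nat_lit 0) (nat_lit 0x0) (nat_lit 0))))))) (N (nat_lit 27) (N (nat_lit 23) (N (nat_lit 21) (L (E (nat_lit 1) (nat_lit 0x18) (nat_lit 0))) (N (nat_lit 22) (L (E (nat_lit 0) (nat_lit 0x0) (nat_lit 0))) (L (E (nat_lit 0) (nat_lit 0x0) (nat_lit 0))))) (N (nat_lit 25) (N (nat_lit 24) (L (E (nat_lit 0) (nat_lit 0x0) (nat_lit 0))) (L (E (nat_lit 0) (nat_lit 0x0) (nat_lit 0)))) (N (nat_lit 26) (L (E (nat_lit 0) (nat_lit 0x0) (nat_lit 0))) (L (E (nat_lit 0) (nat_lit 0x0) (nat_lit 0)))))) (N (nat_lit 31) (N (nat_lit 29) (N (nat_lit 28) (L (E (nat_lit 0) (nat_lit 0x0) (nat_lit 0))) (L (E (nat_lit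 0) (nat_lit 0x0) (nat_lit 0)))) (N (nat_lit 30) (L (E (nat_lit 0) (nat_lit 0x0) (nat_lit 0))) (L (E (nat_lit 0) (nat_lit 0x0) (nat_lit 0))))) (N (nat_lit 32) (L (E (nat_lit 3) (nat_lit 0xc805c020) (nat_lit 0))) (N (nat_lit 33) (L (E (nat_lit 0) (nat_lit 0x0) (nat_lit 0))) (L (E (nat_lit 0) (nat_lit 0x0) (nat_lit 0))))))))) (nb0)) (N (nat_lit 152) (nb1) (nb2))
def cl0 : RA := N (nat_lit 30) (N (nat_lit 18) (N (nat_lit 9) (N (nat_lit 4) (N (nat_lit 2) (N (nat_lit 1) (L (E (nat_lit 6) (nat_lit 0x6c02e0100040010006) (nat_lit 0))) (L (E (nat_lit 6) (nat_lit 0x2c014009003801800a) (nat_lit 0)))) (N (nat_lit 3) (L (E (nat_lit 6) (nat_lit 0x54028013009003c01c) (nat_lit 0))) (L (E (nat_lit 6) (nat_lit 0x3641ae0cb02d80a0022) (nat_lit 0))))) (N (nat_lit 6) (N (nat_lit 5) (L (E (nat_lit 6) (nat_lit 0x33c10405a023807002c) (nat_lit 0))) (L (E (nat_lit 6) (nat_lit 0x32012606302a0114034) (nat_lit 0)))) (N (nat_lit 8) (N (nat_lit 7) (L (E (nat_lit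 6) (nat_lit 0xb4056024011007c03a) (nat_lit 0))) (L (E (nat_lit 6) (nat_lit 0xb8058026011808003c) (nat_lit 0)))) (L (E (nat_lit 6) (nat_lit 0xa8052028013809804a) (nat_lit 0)))))) (N (nat_lit 14) (N (nat_lit 11) (N (nat_lit 10) (L (E (nat_lit 6) (nat_lit 0xdc06c03501a00cc064) (nat_lit 0))) (L (E (nat_lit 6) (nat_lit 0x11008403d01d00e0066) (nat_lit 0)))) (N (nat_lit 13) (N (nat_lit 12) (L (E (nat_lit 6) (nat_lit 0x10408003f01f00f4078) (nat_lit 0))) (L (E (nat_lit 6) (nat_lit 0xf807603901b80c4060) (nat_lit 0)))) (L (E (nat_lit 6) (nat_lit 0x10c08403e01d80e406e) (nat_lit 0))))) (N (nat_lit 16) (N (nat_lit 15) (L (E (nat_lit 6) (nat_lit 0x1540a60520258124090) (nat_lit 0))) (L (E (nat_lit 6) (nat_lit 0x15c0aa053029012c092) (nat_lit 0)))) (N (nat_lit 17) (L (E (nat_lit 6) (nat_lit 0x1440a004f0270134098) (nat_lit 0))) (L (E (nat_lit 6) (nat_lit 0x3541a40ce05701900ac) (nat_lit 0))))))) (N (nat_lit 25) (N (nat_lit 21) (N (nat_lit 19) (L (E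 (nat_lit 6) (nat_lit 0x3581a60d106081940b0) (nat_lit 0))) (N (nat_lit 20) (L (E (nat_lit 6) (nat_lit 0x16c09202f00c804c018) (nat_lit 0))) (L (E (nat_lit 6) (nat_lit 0x1840c005f02f01740b8) (nat_lit 0))))) (N (nat_lit 22) (L (E (nat_lit 6) (nat_lit 0x1ec0e8071035019c0cc) (nat_lit 0))) (N (nat_lit 23) (L (E (nat_lit 6) (nat_lit 0x1fc0f807503901ac0d0) (nat_lit 0))) (N (nat_lit 24) (L (E (nat_lit 6) (nat_lit 0x1b80da06c03581a80d2) (nat_lit 0))) (L (E (nat_lit 6) (nat_lit 0x1c00de06e03681b00d6) (nat_lit 0))))))) (N (nat_lit 28) (N (nat_lit 27) (N (nat_lit 26) (L (E (nat_lit 6) (nat_lit 0x20410007d03b01cc0d8) (nat_lit 0))) (L (E (nat_lit 6) (nat_lit 0x1f00f607a03c81e00ee) (nat_lit 0)))) (L (E (nat_lit 6) (nat_lit 0x1f80fa07c03d81e80f2) (nat_lit 0)))) (N (nat_lit 29) (L (E (nat_lit 6) (nat_lit 0x2a813e0940478218106) (nat_lit 0))) (L (E (nat_lit 6) (nat_lit 0x2b41480990488224108) (nat_lit 0))))))) (N (nat_lit 37) (N (nat_lit 33) (N (nat_lit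 32) (N (nat_lit 31) (L (E (nat_lit 6) (nat_lit 0x2b814c09b049022c10a) (nat_lit 0))) (L (E (nat_lit 6) (nat_lit 0x23011608a044822010e) (nat_lit 0)))) (L (E (nat_lit 6) (nat_lit 0x23811a08c0458228112) (nat_lit 0)))) (N (nat_lit 35) (N (nat_lit 34) (L (E (nat_lit 6) (nat_lit 0x27013609a04c826012e) (nat_lit 0))) (L (E (nat_lit 6) (nat_lit 0x27413809b04d0264130) (nat_lit 0)))) (N (nat_lit 36) (L (E (nat_lit 6) (nat_lit 0x2fc1780b905882b0144) (nat_lit 0))) (L (E (nat_lit 6) (nat_lit 0x2a014e0a60528290146) (nat_lit 0)))))) (N (nat_lit 42) (N (nat_lit 40) (N (nat_lit 39) (N (nat_lit 38) (L (E (nat_lit 6) (nat_lit 0x2a41500a70530294148) (nat_lit 0))) (L (E (nat_lit 6) (nat_lit 0x2ac1420960480220108) (nat_lit 0)))) (L (E (nat_lit 6) (nat_lit 0x2dc16c0b505a02cc164) (nat_lit 0)))) (N (nat_lit 41) (L (E (nat_lit 6) (nat_lit 0x2e016e0b605a82d0166) (nat_lit 0))) (L (E (nat_lit 6) (nat_lit 0x2ec16e0b0055028012a) (nat_lit 0))))) (N (nat_lit 43)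 (L (E (nat_lit 6) (nat_lit 0x2f41740b505782a013c) (nat_lit 0))) (N (nat_lit 46) (N (nat_lit 45) (N (nat_lit 44) (L (E (nat_lit 6) (nat_lit 0x2f81760b705802a8140) (nat_lit 0))) (L (E (nat_lit 6) (nat_lit 0x31818a0c40618308180) (nat_lit 0)))) (L (E (nat_lit 6) (nat_lit 0x3080c404a010806001a) (nat_lit 0)))) (N (nat_lit 48) (N (nat_lit 47) (L (E (nat_lit 6) (nat_lit 0x34019e0cc065032418e) (nat_lit 0))) (L (E (nat_lit 6) (nat_lit 0x3601a80cd03e016408c) (nat_lit 0)))) (L (E (nat_lit 3) (nat_lit 0x6141aa00d) (nat_lit 0))))))))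
def cl1 : RA := N (nat_lit 100) (N (nat_lit 86) (N (nat_lit 81) (N (nat_lit 79) (L (E (nat_lit 3) (nat_lit 0x2dc0de029) (nat_lit 0))) (N (nat_lit 80) (L (E (nat_lit 3) (nat_lit 0x4f4006001) (nat_lit 0))) (L (E (nat_lit 3) (nat_lit 0x67c32e191) (nat_lit 0))))) (N (nat_lit 82) (L (E (nat_lit 3) (nat_lit 0x4c4006001) (nat_lit 0))) (N (nat_lit 84) (N (nat_lit 83) (L (E (nat_lit 3) (nat_lit 0x51424a005) (nat_lit 0))) (L (E (nat_lit 3) (nat_lit 0x2bc0de025) (nat_lit 0)))) (N (nat_lit 85) (L (E (nat_lit 3) (nat_lit 0x5c41860b3) (nat_lit 0))) (L (E (nat_lit 3) (nat_lit 0x2bc0de01f) (nat_lit 0))))))) (N (nat_lit 89) (N (nat_lit 87) (L (E (nat_lit 3) (nat_lit 0x52c00a001) (nat_lit 0))) (N (nat_lit 88) (L (E (nat_lit 3) (nat_lit 0x4dc00a001) (nat_lit 0))) (L (E (nat_lit 2) (nat_lit 0xd200b) (nat_lit 0))))) (N (nat_lit 95) (N (nat_lit 92) (N (nat_lit 90) (L (E (nat_lit 2) (nat_lit 0x15e02b) (nat_lit 0))) (N (nat_lit 91) (L (E (nat_lit 2) (nat_lit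 0x27603b) (nat_lit 0))) (L (E (nat_lit 2) (nat_lit 0x28e03d) (nat_lit 0))))) (N (nat_lit 94) (N (nat_lit 93) (L (E (nat_lit 2) (nat_lit 0x2ca047) (nat_lit 0))) (L (E (nat_lit 2) (nat_lit 0x9e001) (nat_lit 0)))) (L (E (nat_lit 2) (nat_lit 0x316069) (nat_lit 0))))) (N (nat_lit 97) (N (nat_lit 96) (L (E (nat_lit 2) (nat_lit 0xda003) (nat_lit 0))) (L (E (nat_lit 2) (nat_lit 0x9a00f) (nat_lit 0)))) (N (nat_lit 99) (N (nat_lit 98) (L (E (nat_lit 2) (nat_lit 0x1de041) (nat_lit 0))) (L (E (nat_lit 2) (nat_lit 0x1f2045) (nat_lit 0)))) (L (E (nat_lit 2) (nat_lit 0x276061) (nat_lit 0)))))))) (N (nat_lit 116) (N (nat_lit 109) (N (nat_lit 105) (N (nat_lit 103) (N (nat_lit 102) (N (nat_lit 101) (L (E (nat_lit 2) (nat_lit 0x2fa083) (nat_lit 0))) (L (E (nat_lit 2) (nat_lit 0x2fe085) (nat_lit 0)))) (L (E (nat_lit 2) (nat_lit 0x35e11b) (nat_lit 0)))) (N (nat_lit 104) (L (E (nat_lit 2) (nat_lit 0xde043) (nat_lit 0))) (L (E (nat_lit 2) (nat_lit 0x19a005)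 (nat_lit 0))))) (N (nat_lit 107) (N (nat_lit 106) (L (E (nat_lit 2) (nat_lit 0x2360d1) (nat_lit 0))) (L (E (nat_lit 2) (nat_lit 0x24a0d3) (nat_lit 0)))) (N (nat_lit 108) (L (E (nat_lit 2) (nat_lit 0x2560df) (nat_lit 0))) (L (E (nat_lit 2) (nat_lit 0x2760e5) (nat_lit 0)))))) (N (nat_lit 112) (N (nat_lit 111) (N (nat_lit 110) (L (E (nat_lit 2) (nat_lit 0x2a60ed) (nat_lit 0))) (L (E (nat_lit 2) (nat_lit 0x1e6003) (nat_lit 0)))) (L (E (nat_lit 2) (nat_lit 0x2be0f7) (nat_lit 0)))) (N (nat_lit 114) (N (nat_lit 113) (L (E (nat_lit 2) (nat_lit 0x2e2101) (nat_lit 0))) (L (E (nat_lit 2) (nat_lit 0x312147) (nat_lit 0)))) (N (nat_lit 115) (L (E (nat_lit 2) (nat_lit 0x31a165) (nat_lit 0))) (L (E (nat_lit 2) (nat_lit 0x24a01d) (nat_lit 0))))))) (N (nat_lit 126) (N (nat_lit 121) (N (nat_lit 118) (N (nat_lit 117) (L (E (nat_lit 2) (nat_lit 0x1f20d7) (nat_lit 0))) (L (E (nat_lit 2) (nat_lit 0xd2017) (nat_lit 0)))) (N (nat_lit 120) (N (nat_lit 119)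 (L (E (nat_lit 2) (nat_lit 0x236049) (nat_lit 0))) (L (E (nat_lit 2) (nat_lit 0x24a053) (nat_lit 0)))) (L (E (nat_lit 2) (nat_lit 0x27605b) (nat_lit 0))))) (N (nat_lit 124) (N (nat_lit 123) (N (nat_lit 122) (L (E (nat_lit 2) (nat_lit 0x28e05d) (nat_lit 0))) (L (E (nat_lit 2) (nat_lit 0x2a003) (nat_lit 0)))) (L (E (nat_lit 2) (nat_lit 0x33e023) (nat_lit 0)))) (N (nat_lit 125) (L (E (nat_lit 2) (nat_lit 0x6a009) (nat_lit 0))) (L (E (nat_lit 2) (nat_lit 0x12e01b) (nat_lit 0)))))) (N (nat_lit 130) (N (nat_lit 129) (N (nat_lit 128) (N (nat_lit 127) (L (E (nat_lit 2) (nat_lit 0x3620e9) (nat_lit 0))) (L (E (nat_lit 2) (nat_lit 0x326059) (nat_lit 0)))) (L (E (nat_lit 2) (nat_lit 0x36619f) (nat_lit 0)))) (L (E (nat_lit 2) (nat_lit 0x126009) (nat_lit 0)))) (N (nat_lit 131) (L (E (nat_lit 2) (nat_lit 0x29e001) (nat_lit 0))) (N (nat_lit 132) (L (E (nat_lit 2) (nat_lit 0xa203f) (nat_lit 0))) (L (E (nat_lit 2) (nat_lit 0xf206b) (nat_lit 0))))))))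
def cl2 : RA := N (nat_lit 166) (N (nat_lit 150) (N (nat_lit 141) (N (nat_lit 137) (N (nat_lit 135) (N (nat_lit 134) (L (E (nat_lit 2) (nat_lit 0x1f20dd) (nat_lit 0))) (L (E (nat_lit 2) (nat_lit 0x11605f) (nat_lit 0)))) (N (nat_lit 136) (L (E (nat_lit 2) (nat_lit 0x2ee001) (nat_lit 0))) (L (E (nat_lit 2) (nat_lit 0x30603f) (nat_lit 0))))) (N (nat_lit 138) (L (E (nat_lit 2) (nat_lit 0x19606f) (nat_lit 0))) (N (nat_lit 140) (N (nat_lit 139) (L (E (nat_lit 2) (nat_lit 0x1d208d) (nat_lit 0))) (L (E (nat_lit 2) (nat_lit 0x30a097) (nat_lit 0)))) (L (E (nat_lit 2) (nat_lit 0x62009) (nat_lit 0)))))) (N (nat_lit 146) (N (nat_lit 144) (N (nat_lit 143) (N (nat_lit 142) (L (E (nat_lit 2) (nat_lit 0x1f2077) (nat_lit 0))) (L (E (nat_lit 2) (nat_lit 0x33e0ad) (nat_lit 0)))) (L (E (nat_lit 2) (nat_lit 0x1aa04b) (nat_lit 0)))) (N (nat_lit 145) (L (E (nat_lit 2) (nat_lit 0x1ae04d) (nat_lit 0))) (L (E (nat_lit 2) (nat_lit 0x1c2057) (nat_lit 0)))))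 (N (nat_lit 148) (N (nat_lit 147) (L (E (nat_lit 2) (nat_lit 0xce005) (nat_lit 0))) (L (E (nat_lit 2) (nat_lit 0x23e073) (nat_lit 0)))) (N (nat_lit 149) (L (E (nat_lit 2) (nat_lit 0x27607d) (nat_lit 0))) (L (E (nat_lit 2) (nat_lit 0x2be089) (nat_lit 0))))))) (N (nat_lit 157) (N (nat_lit 154) (N (nat_lit 152) (N (nat_lit 151) (L (E (nat_lit 2) (nat_lit 0x206001) (nat_lit 0))) (L (E (nat_lit 2) (nat_lit 0x1fa003) (nat_lit 0)))) (N (nat_lit 153) (L (E (nat_lit 2) (nat_lit 0xea055) (nat_lit 0))) (L (E (nat_lit 2) (nat_lit 0x1720b3) (nat_lit 0))))) (N (nat_lit 156) (N (nat_lit 155) (L (E (nat_lit 2) (nat_lit 0x21e0cf) (nat_lit 0))) (L (E (nat_lit 2) (nat_lit 0x2460d9) (nat_lit 0)))) (L (E (nat_lit 2) (nat_lit 0x25e0e3) (nat_lit 0))))) (N (nat_lit 162) (N (nat_lit 159) (N (nat_lit 158) (L (E (nat_lit 2) (nat_lit 0x28e0eb) (nat_lit 0))) (L (E (nat_lit 2) (nat_lit 0x2ae0f1) (nat_lit 0)))) (N (nat_lit 160) (L (E (nat_lit 2) (nat_lit 0x2ca0ff)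 (nat_lit 0))) (N (nat_lit 161) (L (E (nat_lit 2) (nat_lit 0x30211b) (nat_lit 0))) (L (E (nat_lit 2) (nat_lit 0x30e13b) (nat_lit 0)))))) (N (nat_lit 165) (N (nat_lit 164) (N (nat_lit 163) (L (E (nat_lit 2) (nat_lit 0x1aa065) (nat_lit 0))) (L (E (nat_lit 2) (nat_lit 0x1f207b) (nat_lit 0)))) (L (E (nat_lit 2) (nat_lit 0x1d2099) (nat_lit 0)))) (L (E (nat_lit 2) (nat_lit 0x2560ab) (nat_lit 0))))))) (N (nat_lit 173) (N (nat_lit 171) (N (nat_lit 170) (N (nat_lit 168) (N (nat_lit 167) (L (E (nat_lit 2) (nat_lit 0x35619f) (nat_lit 0))) (L (E (nat_lit 3) (nat_lit 0x46c162007) (nat_lit 0)))) (N (nat_lit 169) (L (E (nat_lit 3) (nat_lit 0x49c00a003) (nat_lit 0))) (L (E (nat_lit 3) (nat_lit 0x21c10206b) (nat_lit 0))))) (L (E (nat_lit 3) (nat_lit 0x44c00a003) (nat_lit 0)))) (N (nat_lit 172) (L (E (nat_lit 3) (nat_lit 0x54400a003) (nat_lit 0))) (L (E (nat_lit 3) (nat_lit 0x4fc00a003) (nat_lit 0))))) (N (nat_lit 179) (N (nat_lit 175) (N (nat_lit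 174) (L (E (nat_lit 3) (nat_lit 0x48400a003) (nat_lit 0))) (L (E (nat_lit 3) (nat_lit 0x55400a001) (nat_lit 0)))) (N (nat_lit 177) (N (nat_lit 176) (L (E (nat_lit 3) (nat_lit 0x4b400a001) (nat_lit 0))) (L (E (nat_lit 5) (nat_lit 0xe006b0014006001) (nat_lit 0)))) (N (nat_lit 178) (L (E (nat_lit 6) (nat_lit 0x3600d70590014006001) (nat_lit 0))) (L (E (nat_lit 6) (nat_lit 0x12e0420180014006001) (nat_lit 0)))))) (N (nat_lit 185) (N (nat_lit 182) (N (nat_lit 180) (L (E (nat_lit 16) (nat_lit 0xd606080de05e01b00c806002e015009804001e0080014006001) (nat_lit 0))) (N (nat_lit 181) (L (E (nat_lit 7) (nat_lit 0x2000f406b0318014006001) (nat_lit 0))) (L (E (nat_lit 8) (nat_lit 0x6a81e80d205000b0014006001) (nat_lit 0))))) (N (nat_lit 184) (N (nat_lit 183) (L (E (nat_lit 15) (nat_lit 0x6c835818204b01bc0a003601900c005c0200080014006001) (nat_lit 0))) (L (E (nat_lit 9) (nat_lit 0x8003d01d80dc0680320014006001) (nat_lit 0)))) (L (E (nat_lit 6) (nat_lit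 0x36019c06b8014006001) (nat_lit 0))))) (N (nat_lit 188) (N (nat_lit 187) (N (nat_lit 186) (L (E (nat_lit 5) (nat_lit 0x19c06b8014006001) (nat_lit 0))) (L (E (nat_lit 13) (nat_lit 0x1ac0c101bc0a003601900c005c0200080014006001) (nat_lit 0)))) (L (E (nat_lit 7) (nat_lit 0x3540f40690280014006001) (nat_lit 0)))) (N (nat_lit 189) (L (E (nat_lit 8) (nat_lit 0x3d01d80dc0680320014006001) (nat_lit 0))) (N (nat_lit 190) (L (E (nat_lit 4) (nat_lit 0x6b0014006001) (nat_lit 0))) (L (E (nat_lit 3) (nat_lit 0x14006001) (nat_lit 0)))))))))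
def cl : RA := N (nat_lit 78) (N (nat_lit 49) (cl0) (N (nat_lit 64) (N (nat_lit 58) (N (nat_lit 53) (N (nat_lit 51) (N (nat_lit 50) (L (E (nat_lit 3) (nat_lit 0x564006001) (nat_lit 0))) (L (E (nat_lit 3) (nat_lit 0x2bc0de027) (nat_lit 0)))) (N (nat_lit 52) (L (E (nat_lit 3) (nat_lit 0x4d400a003) (nat_lit 0))) (L (E (nat_lit 3) (nat_lit 0x5cc2be001) (nat_lit 0))))) (N (nat_lit 56) (N (nat_lit 54) (L (E (nat_lit 3) (nat_lit 0x5842be001) (nat_lit 0))) (N (nat_lit 55) (L (E (nat_lit 3) (nat_lit 0x42400a003) (nat_lit 0))) (L (E (nat_lit 3) (nat_lit 0x58c00a001) (nat_lit 0))))) (N (nat_lit 57) (L (E (nat_lit 3) (nat_lit 0x1bc05a029) (nat_lit 0))) (L (E (nat_lit 3) (nat_lit 0x41c00a003) (nat_lit 0)))))) (N (nat_lit 61) (N (nat_lit 60) (N (nat_lit 59) (L (E (nat_lit 3) (nat_lit 0x57c282003) (nat_lit 0))) (L (E (nat_lit 3) (nat_lit 0x50c00a003) (nat_lit 0)))) (L (E (nat_lit 3) (nat_lit 0x454006001) (nat_lit 0)))) (N (nat_lit 63) (N (nat_lit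 62) (L (E (nat_lit 3) (nat_lit 0x474006001) (nat_lit 0))) (L (E (nat_lit 3) (nat_lit 0x51c236111) (nat_lit 0)))) (L (E (nat_lit 3) (nat_lit 0x43400a003) (nat_lit 0)))))) (N (nat_lit 69) (N (nat_lit 67) (N (nat_lit 66) (N (nat_lit 65) (L (E (nat_lit 3) (nat_lit 0x4140de029) (nat_lit 0))) (L (E (nat_lit 3) (nat_lit 0x4a4006001) (nat_lit 0)))) (L (E (nat_lit 3) (nat_lit 0x5ac00a003) (nat_lit 0)))) (N (nat_lit 68) (L (E (nat_lit 3) (nat_lit 0x5bc27611f) (nat_lit 0))) (L (E (nat_lit 3) (nat_lit 0x4e400a003) (nat_lit 0))))) (N (nat_lit 75) (N (nat_lit 73) (N (nat_lit 71) (N (nat_lit 70) (L (E (nat_lit 3) (nat_lit 0x2440be039) (nat_lit 0))) (L (E (nat_lit 3) (nat_lit 0x4940d2013) (nat_lit 0)))) (N (nat_lit 72) (L (E (nat_lit 3) (nat_lit 0x6b423603f) (nat_lit 0))) (L (E (nat_lit 3) (nat_lit 0x46c07e037) (nat_lit 0))))) (N (nat_lit 74) (L (E (nat_lit 3) (nat_lit 0x524006001) (nat_lit 0))) (L (E (nat_lit 3) (nat_lit 0x5e4006001) (nat_lit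 0))))) (N (nat_lit 77) (N (nat_lit 76) (L (E (nat_lit 3) (nat_lit 0x46c07e011) (nat_lit 0))) (L (E (nat_lit 3) (nat_lit 0x1fc0d6063) (nat_lit 0)))) (L (E (nat_lit 3) (nat_lit 0x4cc00a001) (nat_lit 0)))))))) (N (nat_lit 133) (cl1) (cl2))
def nbl : List Nat := [nat_lit 0x6802f41740b405985, nat_lit 0x1a80cd05702b414c05e02787, nat_lit 0x11808b04283, nat_lit 0x0, nat_lit 0x0, nat_lit 0x0, nat_lit 0x0, nat_lit 0x0, nat_lit 0x0, nat_lit 0x0, nat_lit 0x0, nat_lit 0x0, nat_lit 0x0, nat_lit 0x0, nat_lit 0x0, nat_lit 0x0, nat_lit 0x0, nat_lit 0x0, nat_lit 0x0, nat_lit 0x0, nat_lit 0x601, nat_lit 0x0, nat_lit 0x0, nat_lit 0x0, nat_lit 0x0, nat_lit 0x0, nat_lit 0x0, nat_lit 0x0, nat_lit 0x0, nat_lit 0x0, nat_lit 0x0, nat_lit 0x3201700803, nat_lit 0x0, nat_lit 0x0, nat_lit 0x0, nat_lit 0x0, nat_lit 0x0, nat_lit 0x0, nat_lit 0x0, nat_lit 0x0, nat_lit 0x0, nat_lit 0x0, nat_lit 0x0, nat_lit 0x0, nat_lit 0x2681, nat_lit 0x0, nat_lit 0x0, nat_lit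 0x0, nat_lit 0x0, nat_lit 0x0, nat_lit 0x0, nat_lit 0x0, nat_lit 0x1c01, nat_lit 0x0, nat_lit 0x0, nat_lit 0x18c0a805302904, nat_lit 0x0, nat_lit 0x0, nat_lit 0x0, nat_lit 0x0, nat_lit 0x0, nat_lit 0x0, nat_lit 0x0, nat_lit 0x0, nat_lit 0x0, nat_lit 0x0, nat_lit 0x0, nat_lit 0x0, nat_lit 0x0, nat_lit 0x0, nat_lit 0x0, nat_lit 0x0, nat_lit 0x5a02382, nat_lit 0x0, nat_lit 0x0, nat_lit 0x0, nat_lit 0x0, nat_lit 0x0, nat_lit 0x0, nat_lit 0x0, nat_lit 0x3201, nat_lit 0x0, nat_lit 0x0, nat_lit 0x0, nat_lit 0x0, nat_lit 0x0, nat_lit 0x0, nat_lit 0x0, nat_lit 0x0, nat_lit 0x0, nat_lit 0x0, nat_lit 0x0, nat_lit 0x0, nat_lit 0xcc02702, nat_lit 0x0, nat_lit 0x0, nat_lit 0x0, nat_lit 0x0, nat_lit 0x0, nat_lit 0x0, nat_lit 0x0, nat_lit 0x0, nat_lit 0x0, nat_lit 0x0, nat_lit 0x0, nat_lit 0x0, nat_lit 0x0, nat_lit 0x3501, nat_lit 0x0, nat_lit 0x0, nat_lit 0x0, nat_lit 0x0, nat_lit 0x0, nat_lit 0x0, nat_lit 0x0, nat_lit 0x3681, nat_lit 0xca03d02,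 nat_lit 0x0, nat_lit 0x0, nat_lit 0x0, nat_lit 0x0, nat_lit 0x0, nat_lit 0x3a01, nat_lit 0x0, nat_lit 0x3e81, nat_lit 0xd202f82, nat_lit 0x0, nat_lit 0x0, nat_lit 0x0, nat_lit 0x0, nat_lit 0x0, nat_lit 0x0, nat_lit 0x0, nat_lit 0x0, nat_lit 0x0, nat_lit 0x0, nat_lit 0x0, nat_lit 0x0, nat_lit 0x0, nat_lit 0x0, nat_lit 0x0, nat_lit 0xd306882, nat_lit 0x0, nat_lit 0x0, nat_lit 0x0, nat_lit 0x6381, nat_lit 0x6202502, nat_lit 0x0, nat_lit 0x0, nat_lit 0x0, nat_lit 0x0, nat_lit 0x0, nat_lit 0x0, nat_lit 0x0, nat_lit 0x0, nat_lit 0x0, nat_lit 0x0, nat_lit 0x0, nat_lit 0x0, nat_lit 0x0, nat_lit 0x0, nat_lit 0x0, nat_lit 0x0, nat_lit 0x0, nat_lit 0x0, nat_lit 0x0, nat_lit 0x0, nat_lit 0x0, nat_lit 0x0, nat_lit 0x0, nat_lit 0x0, nat_lit 0x0, nat_lit 0x0, nat_lit 0x0, nat_lit 0x0, nat_lit 0x16c06002883, nat_lit 0x0, nat_lit 0x0, nat_lit 0x0, nat_lit 0x0, nat_lit 0x0, nat_lit 0x0, nat_lit 0x0, nat_lit 0x0, nat_lit 0x0, nat_lit 0x0, nat_lit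 0x0, nat_lit 0x0, nat_lit 0x0, nat_lit 0x0, nat_lit 0x0, nat_lit 0x0, nat_lit 0x0, nat_lit 0x0, nat_lit 0x0, nat_lit 0x0, nat_lit 0x0, nat_lit 0x0, nat_lit 0x0, nat_lit 0x0, nat_lit 0x0, nat_lit 0x0, nat_lit 0x0, nat_lit 0x0, nat_lit 0x0, nat_lit 0x0, nat_lit 0x3e81, nat_lit 0x0, nat_lit 0x0, nat_lit 0x0, nat_lit 0x0, nat_lit 0x0, nat_lit 0x0, nat_lit 0x0, nat_lit 0x0, nat_lit 0x0, nat_lit 0x0, nat_lit 0x0]
def apl : List Nat := [nat_lit 0x6c02e0100040010006, nat_lit 0x2c014009003801800a, nat_lit 0x54028013009003c01c, nat_lit 0x3641ae0cb02d80a0022, nat_lit 0x33c10405a023807002c, nat_lit 0x32012606302a0114034, nat_lit 0xb4056024011007c03a, nat_lit 0xb8058026011808003c, nat_lit 0xa8052028013809804a, nat_lit 0xdc06c03501a00cc064, nat_lit 0x11008403d01d00e0066, nat_lit 0x10408003f01f00f4078, nat_lit 0xc006203701c80ec07c, nat_lit 0xdc07203b01f0108086, nat_lit 0x1540a60520258124090, nat_lit 0x15c0aa053029012c092, nat_lit 0x1440a004f0270134098,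 nat_lit 0x3541a40ce05701900ac, nat_lit 0x3581a60d106081940b0, nat_lit 0x3002601901781240b6, nat_lit 0x1840c005f02f01740b8, nat_lit 0x1ec0e8071035019c0cc, nat_lit 0x1fc0f807503901ac0d0, nat_lit 0x1b80da06c03581a80d2, nat_lit 0x1c00de06e03681b00d6, nat_lit 0x20410007d03b01cc0d8, nat_lit 0x1f00f607a03c81e00ee, nat_lit 0x1f80fa07c03d81e80f2, nat_lit 0x2a813e0940478218106, nat_lit 0x2b41480990488224108, nat_lit 0x2b814c09b049022c10a, nat_lit 0x23011608a044822010e, nat_lit 0x23811a08c0458228112, nat_lit 0x27013609a04c826012e, nat_lit 0x27413809b04d0264130, nat_lit 0x2fc1780b905882b0144, nat_lit 0x2a014e0a60528290146, nat_lit 0x2a41500a70530294148, nat_lit 0x21011009004b0284156, nat_lit 0x2dc16c0b505a02cc164, nat_lit 0x2e016e0b605a82d0166, nat_lit 0x2541400aa05802dc176, nat_lit 0x2781500af05a82e817a, nat_lit 0x2801540b005b82ec17c, nat_lit 0x31818a0c40618308180, nat_lit 0x340300210250188184, nat_lit 0x34019e0cc065032418e, nat_lit 0x1180b207c06683501b0]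
theorem hpt : RA.all okp pt = true := by decide +kernel
theorem hN : chkN nb td1 pt nbl (nat_lit 0) = true := by decide +kernel
theorem hA : chkG cl (nat_lit 6) (apOK td1 pt (nat_lit 5)) apl (nat_lit 0) = true := by decide +kernel
def s0 : List Nat := [nat_lit 0x35401a185]
theorem hs0 : chkG cl (nat_lit 3) (l3OK td12 td12 td12 pt) s0 (nat_lit 48) = true := by decide +kernel
def s1 : List Nat := [nat_lit 0x42b2003]
theorem hs1 : chkG cl (nat_lit 3) (l3OK td9 td3 td12 pt) s1 (nat_lit 49) = true := by decide +kernel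
def s2 : List Nat := [nat_lit 0x2bc04e06f, nat_lit 0x14006135, nat_lit 0x57c2e6001, nat_lit 0x42c215f]
theorem hs2 : chkG cl (nat_lit 3) (l3OK td4 td7 td19 pt) s2 (nat_lit 50) = true := by decide +kernel
def s3 : List Nat := [nat_lit 0xc212005]
theorem hs3 : chkG cl (nat_lit 3) (l3OK td9 td19 td31 pt) s3 (nat_lit 54) = true := by decide +kernel
def s4 : List Nat := [nat_lit 0x42c6005]
theorem hs4 : chkG cl (nat_lit 3) (l3OK td31 td37 td7 pt) s4 (nat_lit 55) = true := by decide +kernel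
def s5 : List Nat := [nat_lit 0xa405a06f]
theorem hs5 : chkG cl (nat_lit 3) (l3OK td31 td3 td31 pt) s5 (nat_lit 56) = true := by decide +kernel
def s6 : List Nat := [nat_lit 0x1420e003]
theorem hs6 : chkG cl (nat_lit 3) (l3OK td31 td19 td7 pt) s6 (nat_lit 57) = true := by decide +kernel
def s7 : List Nat := [nat_lit 0x50400615f]
theorem hs7 : chkG cl (nat_lit 3) (l3OK td4 td12 td28 pt) s7 (nat_lit 58) = true := by decide +kernel
def s8 : List Nat := [nat_lit 0x14286003]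
theorem hs8 : chkG cl (nat_lit 3) (l3OK td31 td19 td37 pt) s8 (nat_lit 59) = true := by decide +kernel
def s9 : List Nat := [nat_lit 0x422a003, nat_lit 0x423a003]
theorem hs9 : chkG cl (nat_lit 3) (l3OK td16 td3 td31 pt) s9 (nat_lit 60) = true := by decide +kernel
def s10 : List Nat := [nat_lit 0x46c222147, nat_lit 0xc21a005]
theorem hs10 : chkG cl (nat_lit 3) (l3OK td9 td19 td25 pt) s10 (nat_lit 62) = true := by decide +kernel
def s11 : List Nat := [nat_lit 0x1bc052105, nat_lit 0xc002129, nat_lit 0xc2d6005]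
theorem hs11 : chkG cl (nat_lit 3) (l3OK td31 td19 td3 pt) s11 (nat_lit 64) = true := by decide +kernel
def s12 : List Nat := [nat_lit 0x5bc23e13b, nat_lit 0x14006139]
theorem hs12 : chkG cl (nat_lit 3) (l3OK td4 td9 td19 pt) s12 (nat_lit 67) = true := by decide +kernel
def s13 : List Nat := [nat_lit 0x2440be039, nat_lit 0x1a424a013, nat_lit 0x46c35a03f, nat_lit 0xfc06e11b, nat_lit 0xc002149, nat_lit 0x4006179, nat_lit 0xfc236011]
theorem hs13 : chkG cl (nat_lit 3) (l3OK td9 td3 td3 pt) s13 (nat_lit 69) = true := by decide +kernel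
def s14 : List Nat := [nat_lit 0x18c0fe06b]
theorem hs14 : chkG cl (nat_lit 3) (l3OK td9 td7 td13 pt) s14 (nat_lit 76) = true := by decide +kernel
def s15 : List Nat := [nat_lit 0x400a133]
theorem hs15 : chkG cl (nat_lit 3) (l3OK td9 td16 td37 pt) s15 (nat_lit 77) = true := by decide +kernel
def s16 : List Nat := [nat_lit 0x1bc0520b7, nat_lit 0xc00213d, nat_lit 0x65c33e191, nat_lit 0xc002131, nat_lit 0x49400a145]
theorem hs16 : chkG cl (nat_lit 3) (l3OK td21 td12 td3 pt) s16 (nat_lit 78) = true := by decide +kernel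
def s17 : List Nat := [nat_lit 0x2bc0de025]
theorem hs17 : chkG cl (nat_lit 3) (l3OK td7 td27 td7 pt) s17 (nat_lit 83) = true := by decide +kernel
def s18 : List Nat := [nat_lit 0x5c41660c3]
theorem hs18 : chkG cl (nat_lit 3) (l3OK td9 td3 td21 pt) s18 (nat_lit 84) = true := by decide +kernel
def s19 : List Nat := [nat_lit 0x7c0de0af, nat_lit 0x14296001, nat_lit 0x426e005]
theorem hs19 : chkG cl (nat_lit 3) (l3OK td7 td37 td12 pt) s19 (nat_lit 85) = true := by decide +kernel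
def s20 : List Nat := [nat_lit 0xd200b, nat_lit 0x15e02b, nat_lit 0x27603b, nat_lit 0x28e03d, nat_lit 0x2ca047, nat_lit 0x204f, nat_lit 0x316069, nat_lit 0xda003, nat_lit 0x1e04d, nat_lit 0x820ef, nat_lit 0x8a0f9, nat_lit 0xc213b, nat_lit 0x10617d, nat_lit 0x10a17f, nat_lit 0x2361af, nat_lit 0xde043, nat_lit 0xa0cd, nat_lit 0x2360d1, nat_lit 0x24a0d3, nat_lit 0x2560df, nat_lit 0x2760e5, nat_lit 0x2a60ed, nat_lit 0x60f3, nat_lit 0x2be0f7, nat_lit 0x2e2101, nat_lit 0x312147, nat_lit 0x31a165, nat_lit 0x3a125, nat_lit 0x1f20d7, nat_lit 0x2e069, nat_lit 0x9211b, nat_lit 0xa6125, nat_lit 0xb613b, nat_lit 0xba147, nat_lit 0x6015, nat_lit 0x33e023, nat_lit 0x12035, nat_lit 0x36097, nat_lit 0x1d21b1, nat_lit 0x326059, nat_lit 0x36619f, nat_lit 0x126009, nat_lit 0x29e001, nat_lit 0x7e051, nat_lit 0xd6079, nat_lit 0x1ba0f9, nat_lit 0xbe08b, nat_lit 0x2ee001, nat_lit 0x7e183, nat_lit 0xde0cb, nat_lit 0x11a0e9, nat_lit 0x12e185, nat_lit 0x62009,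 nat_lit 0x1f2077, nat_lit 0x33e0ad, nat_lit 0x1aa04b, nat_lit 0x1ae04d, nat_lit 0x1c2057, nat_lit 0xa067, nat_lit 0x23e073, nat_lit 0x27607d, nat_lit 0x2be089, nat_lit 0x206001, nat_lit 0x1fa003, nat_lit 0xaa075, nat_lit 0x1660b9, nat_lit 0x19e10f, nat_lit 0x1b2123, nat_lit 0x1c612f, nat_lit 0x1d6147, nat_lit 0x1e2157, nat_lit 0x1fe165, nat_lit 0x236181, nat_lit 0x276187, nat_lit 0x1aa065, nat_lit 0x1f207b, nat_lit 0x1d2099, nat_lit 0x2560ab, nat_lit 0x35619f]
theorem hs20 : chkG cl (nat_lit 2) (l2OK td9 pt) s20 (nat_lit 88) = true := by decide +kernel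
def s21 : List Nat := [nat_lit 0x1c2360b1, nat_lit 0x14006127, nat_lit 0x21c0d6081]
theorem hs21 : chkG cl (nat_lit 3) (l3OK td13 td12 td19 pt) s21 (nat_lit 167) = true := by decide +kernel
def s22 : List Nat := [nat_lit 0x14006113, nat_lit 0xc00a151]
theorem hs22 : chkG cl (nat_lit 3) (l3OK td21 td7 td19 pt) s22 (nat_lit 170) = true := by decide +kernel
def s23 : List Nat := [nat_lit 0x4fc00a003, nat_lit 0xc242005]
theorem hs23 : chkG cl (nat_lit 3) (l3OK td19 td19 td27 pt) s23 (nat_lit 172) = true := by decide +kernel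
def s24 : List Nat := [nat_lit 0x55400a001, nat_lit 0x1400212d]
theorem hs24 : chkG cl (nat_lit 3) (l3OK td37 td27 td37 pt) s24 (nat_lit 174) = true := by decide +kernel
def c0 : List Nat := [nat_lit 0x40000001000000000398452019829100c4132805e098402c852a016026d005a14e80280bb400c840a01f026900f2108807208e403704a201b42d500c013c8005089403b041a01c021900d613880040a8400184fa00042a9010a15f80000578045851e023427701141538092091c047846e024c23f00f416080750a0400903aa01b02dd00860e48042076400a036201181a101101658086095c04385c600401fd007e100809907cc00001f000a81b9012c0e780000398022037a025c34, nat_lit 0x6b000000100000004000000000780f8807408a40338522018c26500be130805a0a5402c84da00b829d00fa134807308e403705aa0184279000c112806c09c4024033200142a1010c15f808c0a3c04784be024023700820f68072088400a038a024421f002c0ce809b074c013023202041f, nat_lit 0x20000000802d04da024c24b0000092003400d40130612021007, nat_lit 0xdc0000004000000100000000025810a00a41950000096807608a403284ca018426100b6136802b0bb403f84d201d423900e212880700b5403184f2002022500f21068073086403704e2001c2a1000c13e80040aa4044057e0240277012411b8000046804a0496025823f00fa16080780a0403785ba00fc039011212b80a0058c00682aa002c00d01640098031049405182be017c0490160029800000a003202da027c2d,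 nat_lit 0x3304ca018826100b8136802c0bb404004d201c825100e216a806409e403d041a01d021900de13880080a8400384fa00142a9011215f809109dc04b847e01f82c100f214080700b7400f81f200bc0f100ce07e80880bec054020e013c1a, nat_lit 0x1a000000080000002000000000830ac403e858a01e022900d6148806a0bc403384ca018c26100bc14a805d09b4019053a020426900ee11c8073094403905aa01942790014112807b083403a843201c0271004406680090a8400404fa00182a9011415f80000578048051e0248277012811b8096092c04c047e02002e500e216e80620a24046859602442ff009e084806e009402e002a0158315004a04a8057027401d0052007c111008618880130c3400a060200f40a5008418c80aa03ac044061600700a9010800c80ac026c059803e01503a, nat_lit 0x37000000100000004000000000580ca807908a403404ca019026100bc136802e0bb404104d201e023900e812880730b5403304f2002c22500f81068076086403884e200282a1001213e80070aa4045857e024c277012a11b8000046804b8496026423f0100160807b0a0403905ba0108039011812b80a3058c00802aa003800d016a0098034049405382460000090014c0af805c0154041809a018804900c001e800202fc05980a601c007100fa02c80750824058867e003424d009e1ae803901a4017822a019c16d007402280b00c8c059065e01943b,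 nat_lit 0xd21328065098402f84da020c26900ea1288057036403e841a01dc21900e41388024033400504fa00202a9012813b809a08fc05681ae00880f9004607280020314029818202a813, nat_lit 0x358000000800000020000000004307c403d845201b829100d413280660984030852a018026d006a14e808409a4040842201e823900ec12880750b5403404f201241e500400fc800d089403f041a01e021900e6138804f06640060542002c27d0012154808d0afc00002bc024c28f012c12f809509dc04d048e0000122012e11b809b08fc02403da01e422100360e280740b740480596026021f011e171801d067405103a600000e801380fb800003e801381320018167001012c807c0a1400504820170079007c05c80910abc02d811a004c13100c60c2801e05c400c83c2028c177000005d009d077c02b010202c00b3000002c00380c94053828600000a0011219f8029056400886aa02984a, nat_lit 0x358000000800000020000000007c08a4037852201ac26500ce13080620a5403084da00d829d010a134807b08e403b05aa01a4279001c112807409c4028033200342a1011c15f80940a3c04b84be026023700920f6807a088400e038a026421f003c0ce80a3074c00006c600e81e, nat_lit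 0x1b80000008000000200000000030065403e845201b026500d0130806209b404304d201f023900f012880770b5403504f2003c2250100106807a086403a84e200382a1001a13e800b0aa4047857e025c277013211b8000046804d8496027423f00ec16e80a7058c009001a02e401300a4042800704b401905da02102c100fe140804600e404804ae00e012500061b38014055405582460000090007219e80aa057c03000aa021c04d00cc024806400f4003017e02dc05300e80388081016403c841202d436, nat_lit 0x22805a001401, nat_lit 0x100000004000000000dc132806a098403204da022026900f412880790b5403604f2020820d00f810c807709c40080542003c27d001a15480910afc04c84ee027424b013e11f8004040c045056202102c500e2178805c0364014819a021c2e5004e07c80690a2401401ca02c80d7013017f8012043402b021202b822, nat_lit 0x1000000040000000010011480730a4403784ca01ac26100cc14a806509b401d053a022426900fe11c807a0b5403684f2004822500f013880110a84049057e000015e0130147809c08dc000023400301c3004c1028086084403d84a2020c20d00fa10c801009f400705520268277012e153809f091c04f0496007c1d500a60d080460244015815a028023f00f216e806201d4028039201100b5009e0ec802106c4029034a02542cb0128171801d07f4026040202981f3000007c005a022401b837200bc0ed003207a80a3073c00001cc02d807f000001f00750d6403a00da00e40a1006818280710084052835600040d100340648000037c019832a000806301540b18030004400a801a02f04a,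 nat_lit 0x4000000100000000000035e00000d6010211480740a4403804ca01b026100ce14a806609b401d853a0228269010011c807b0b5403704f2013c1e5004c0fc8013089403c84e201541990024150804907c40020676000019c012615f80990a3c04e04be0274237009c0f6807f0884010838a02881eb000007a009e087c011833a02a024]
theorem t0 : chk cl nb (nat_lit 218) c0 (nat_lit 175) = true := by decide +kernel

end

end APL.P63

namespace APL.P64

open APL.RA renaming leaf → L, node → N
open APL renaming dec → E

noncomputable section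

set_option maxRecDepth 100000

def pt : RA := N (nat_lit 10) (N (nat_lit 5) (N (nat_lit 3) (N (nat_lit 2) (N (nat_lit 1) (L (nat_lit 288234774265332736)) (L (nat_lit 288234774264939521))) (L (nat_lit 288234774265070597))) (N (nat_lit 4) (L (nat_lit 288234774264742914)) (L (nat_lit 288234774264808450)))) (N (nat_lit 8) (N (nat_lit 7) (N (nat_lit 6) (L (nat_lit 288234774264873986)) (L (nat_lit 288234774264873987))) (L (nat_lit 288234774264939522))) (N (nat_lit 9) (L (nat_lit 288234774264939523)) (L (nat_lit 288234774265005054))))) (N (nat_lit 15) (N (nat_lit 13) (N (nat_lit 12) (N (nat_lit 11) (L (nat_lit 288234774265005055)) (L (nat_lit 288234774265005056))) (L (nat_lit 288234774265005057))) (N (nat_lit 14) (L (nat_lit 288234774265005058)) (L (nat_lit 288234774265005059)))) (N (nat_lit 17) (N (nat_lit 16) (L (nat_lit 288234774265070594)) (L (nat_lit 288234774265070595))) (N (nat_lit 18) (L (nat_lit 288234774265136131)) (L (nat_lit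 288234774265201667)))))
def nb : RA := N (nat_lit 9) (N (nat_lit 4) (N (nat_lit 2) (N (nat_lit 1) (L (E (nat_lit 0) (nat_lit 0x0) (nat_lit 0))) (L (E (nat_lit 3) (nat_lit 0x6001c00a) (nat_lit 0)))) (N (nat_lit 3) (L (E (nat_lit 0) (nat_lit 0x0) (nat_lit 0))) (L (E (nat_lit 0) (nat_lit 0x0) (nat_lit 0))))) (N (nat_lit 7) (N (nat_lit 6) (N (nat_lit 5) (L (E (nat_lit 0) (nat_lit 0x0) (nat_lit 0))) (L (E (nat_lit 0) (nat_lit 0x0) (nat_lit 0)))) (L (E (nat_lit 0) (nat_lit 0x0) (nat_lit 0)))) (N (nat_lit 8) (L (E (nat_lit 0) (nat_lit 0x0) (nat_lit 0))) (L (E (nat_lit 0) (nat_lit 0x0) (nat_lit 0)))))) (N (nat_lit 14) (N (nat_lit 12) (N (nat_lit 11) (N (nat_lit 10) (L (E (nat_lit 0) (nat_lit 0x0) (nat_lit 0))) (L (E (nat_lit 0) (nat_lit 0x0) (nat_lit 0)))) (L (E (nat_lit 0) (nat_lit 0x0) (nat_lit 0)))) (N (nat_lit 13) (L (E (nat_lit 0) (nat_lit 0x0) (nat_lit 0))) (L (E (nat_lit 0) (nat_lit 0x0) (nat_lit 0))))) (N (nat_lit 17) (N (nat_lit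 16) (N (nat_lit 15) (L (E (nat_lit 0) (nat_lit 0x0) (nat_lit 0))) (L (E (nat_lit 0) (nat_lit 0x0) (nat_lit 0)))) (L (E (nat_lit 0) (nat_lit 0x0) (nat_lit 0)))) (N (nat_lit 18) (L (E (nat_lit 0) (nat_lit 0x0) (nat_lit 0))) (L (E (nat_lit 0) (nat_lit 0x0) (nat_lit 0))))))
def cl : RA := N (nat_lit 7) (N (nat_lit 4) (N (nat_lit 2) (N (nat_lit 1) (L (E (nat_lit 6) (nat_lit 0x3c01a0070028010006) (nat_lit 0))) (L (E (nat_lit 6) (nat_lit 0x48022010007002000c) (nat_lit 0)))) (N (nat_lit 3) (L (E (nat_lit 6) (nat_lit 0x3801a00c0058028012) (nat_lit 0))) (L (E (nat_lit 3) (nat_lit 0x4c00e003) (nat_lit 0))))) (N (nat_lit 6) (N (nat_lit 5) (L (E (nat_lit 3) (nat_lit 0x7c00a001) (nat_lit 0))) (L (E (nat_lit 3) (nat_lit 0x4400a001) (nat_lit 0)))) (L (E (nat_lit 3) (nat_lit 0x84006001) (nat_lit 0))))) (N (nat_lit 11) (N (nat_lit 9) (N (nat_lit 8) (L (E (nat_lit 3) (nat_lit 0x5c00a001) (nat_lit 0))) (L (E (nat_lit 3) (nat_lit 0x54006001) (nat_lit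 0)))) (N (nat_lit 10) (L (E (nat_lit 3) (nat_lit 0x94006001) (nat_lit 0))) (L (E (nat_lit 3) (nat_lit 0x6c006001) (nat_lit 0))))) (N (nat_lit 13) (N (nat_lit 12) (L (E (nat_lit 3) (nat_lit 0x8c00a001) (nat_lit 0))) (L (E (nat_lit 3) (nat_lit 0x7400a001) (nat_lit 0)))) (N (nat_lit 14) (L (E (nat_lit 3) (nat_lit 0x34012005) (nat_lit 0))) (L (E (nat_lit 3) (nat_lit 0x14006001) (nat_lit 0))))))
def nbl : List Nat := [nat_lit 0x0, nat_lit 0x1800700283, nat_lit 0x0, nat_lit 0x0, nat_lit 0x0, nat_lit 0x0, nat_lit 0x0, nat_lit 0x0, nat_lit 0x0, nat_lit 0x0, nat_lit 0x0, nat_lit 0x0, nat_lit 0x0, nat_lit 0x0, nat_lit 0x0, nat_lit 0x0, nat_lit 0x0, nat_lit 0x0, nat_lit 0x0]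
def apl : List Nat := [nat_lit 0x3c01a0070028010006, nat_lit 0x48022010007002000c, nat_lit 0x3801a00c0058028012]
theorem hpt : RA.all okp pt = true := by decide +kernel
theorem hN : chkN nb td1 pt nbl (nat_lit 0) = true := by decide +kernel
theorem hA : chkG cl (nat_lit 6) (apOK td1 pt (nat_lit 5)) apl (nat_lit 0) = true := by decide +kernel
def s0 : List Nat := [nat_lit 0xc00e013]
theorem hs0 : chkG cl (nat_lit 3) (l3OK td16 td7 td7 pt) s0 (nat_lit 3) = true := by decide +kernel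
def s1 : List Nat := [nat_lit 0x400a01f]
theorem hs1 : chkG cl (nat_lit 3) (l3OK td9 td12 td21 pt) s1 (nat_lit 4) = true := by decide +kernel
def s2 : List Nat := [nat_lit 0x44002005]
theorem hs2 : chkG cl (nat_lit 3) (l3OK td21 td12 td27 pt) s2 (nat_lit 5) = true := by decide +kernel
def s3 : List Nat := [nat_lit 0x84006001]
theorem hs3 : chkG cl (nat_lit 3) (l3OK td31 td13 td12 pt) s3 (nat_lit 6) = true := by decide +kernel
def s4 : List Nat := [nat_lit 0x1402e001]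
theorem hs4 : chkG cl (nat_lit 3) (l3OK td25 td21 td31 pt) s4 (nat_lit 7) = true := by decide +kernel
def s5 : List Nat := [nat_lit 0xc002015]
theorem hs5 : chkG cl (nat_lit 3) (l3OK td31 td3 td31 pt) s5 (nat_lit 8) = true := by decide +kernel
def s6 : List Nat := [nat_lit 0x94006001]
theorem hs6 : chkG cl (nat_lit 3) (l3OK td31 td7 td28 pt) s6 (nat_lit 9) = true := by decide +kernel
def s7 : List Nat := [nat_lit 0x6c006001]
theorem hs7 : chkG cl (nat_lit 3) (l3OK td31 td19 td3 pt) s7 (nat_lit 10) = true := by decide +kernel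
def s8 : List Nat := [nat_lit 0x14002023]
theorem hs8 : chkG cl (nat_lit 3) (l3OK td9 td3 td21 pt) s8 (nat_lit 11) = true := by decide +kernel
def s9 : List Nat := [nat_lit 0x74002005]
theorem hs9 : chkG cl (nat_lit 3) (l3OK td21 td7 td19 pt) s9 (nat_lit 12) = true := by decide +kernel
def s10 : List Nat := [nat_lit 0x1401a009]
theorem hs10 : chkG cl (nat_lit 3) (l3OK td3 td37 td19 pt) s10 (nat_lit 13) = true := by decide +kernel
def c0 : List Nat := [nat_lit 0x8004807a0020021000c016800500a4001008a0004039000e02080040124001806a003001b001601380000044005001a00340e]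
theorem t0 : chk cl nb (nat_lit 19) c0 (nat_lit 13) = true := by decide +kernel

end

end APL.P64

namespace APL.P65

open APL.RA renaming leaf → L, node → N
open APL renaming dec → E

noncomputable section

set_option maxRecDepth 100000

def pt : RA := N (nat_lit 7) (N (nat_lit 4) (N (nat_lit 2) (N (nat_lit 1) (L (nat_lit 288234774265332736)) (L (nat_lit 288234774265594880))) (N (nat_lit 3) (L (nat_lit 288234774265267205)) (L (nat_lit 288234774265070597)))) (N (nat_lit 6) (N (nat_lit 5) (L (nat_lit 288234774265136132)) (L (nat_lit 288234774265201667))) (L (nat_lit 288234774265267201)))) (N (nat_lit 11) (N (nat_lit 9) (N (nat_lit 8) (L (nat_lit 288234774265267202)) (L (nat_lit 288234774265332737))) (N (nat_lit 10) (L (nat_lit 288234774265398272)) (L (nat_lit 288234774265398273)))) (N (nat_lit 13) (N (nat_lit 12) (L (nat_lit 288234774265463809)) (L (nat_lit 288234774265529345))) (L (nat_lit 288234774265594881))))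
def nb : RA := N (nat_lit 6) (N (nat_lit 2) (N (nat_lit 1) (L (E (nat_lit 3) (nat_lit 0x4802000c) (nat_lit 0))) (L (E (nat_lit 2) (nat_lit 0x34018) (nat_lit 0)))) (N (nat_lit 4) (N (nat_lit 3) (L (E (nat_lit 0) (nat_lit 0x0) (nat_lit 0))) (L (E (nat_lit 0) (nat_lit 0x0) (nat_lit 0)))) (N (nat_lit 5) (L (E (nat_lit 0) (nat_lit 0x0) (nat_lit 0))) (L (E (nat_lit 0) (nat_lit 0x0) (nat_lit 0)))))) (N (nat_lit 10) (N (nat_lit 8) (N (nat_lit 7) (L (E (nat_lit 0) (nat_lit 0x0) (nat_lit 0))) (L (E (nat_lit 0) (nat_lit 0x0) (nat_lit 0)))) (N (nat_lit 9) (L (E (nat_lit 0) (nat_lit 0x0) (nat_lit 0))) (L (E (nat_lit 0) (nat_lit 0x0) (nat_lit 0))))) (N (nat_lit 12) (N (nat_lit 11) (L (E (nat_lit 0) (nat_lit 0x0) (nat_lit 0))) (L (E (nat_lit 0) (nat_lit 0x0) (nat_lit 0)))) (N (nat_lit 13) (L (E (nat_lit 0) (nat_lit 0x0) (nat_lit 0))) (L (E (nat_lit 0) (nat_lit 0x0) (nat_lit 0))))))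
def cl : RA := N (nat_lit 4) (N (nat_lit 2) (N (nat_lit 1) (L (E (nat_lit 6) (nat_lit 0x3401800b005002000c) (nat_lit 0))) (L (E (nat_lit 6) (nat_lit 0x240100070028010006) (nat_lit 0)))) (N (nat_lit 3) (L (E (nat_lit 3) (nat_lit 0x2c006001) (nat_lit 0))) (L (E (nat_lit 3) (nat_lit 0x1c00a001) (nat_lit 0))))) (N (nat_lit 6) (N (nat_lit 5) (L (E (nat_lit 3) (nat_lit 0x5400a001) (nat_lit 0))) (L (E (nat_lit 3) (nat_lit 0x3c00a001) (nat_lit 0)))) (N (nat_lit 7) (L (E (nat_lit 3) (nat_lit 0x5c012003) (nat_lit 0))) (L (E (nat_lit 3) (nat_lit 0x14006001) (nat_lit 0)))))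
def nbl : List Nat := [nat_lit 0x1200800303, nat_lit 0xd00602, nat_lit 0x0, nat_lit 0x0, nat_lit 0x0, nat_lit 0x0, nat_lit 0x0, nat_lit 0x0, nat_lit 0x0, nat_lit 0x0, nat_lit 0x0, nat_lit 0x0, nat_lit 0x0, nat_lit 0x0]
def apl : List Nat := [nat_lit 0x3401800b005002000c, nat_lit 0xc0080050038020012]
theorem hpt : RA.all okp pt = true := by decide +kernel
theorem hN : chkN nb td1 pt nbl (nat_lit 0) = true := by decide +kernel
theorem hA : chkG cl (nat_lit 6) (apOK td1 pt (nat_lit 5)) apl (nat_lit 0) = true := by decide +kernel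
def s0 : List Nat := [nat_lit 0x2c006001]
theorem hs0 : chkG cl (nat_lit 3) (l3OK td16 td7 td27 pt) s0 (nat_lit 2) = true := by decide +kernel
def s1 : List Nat := [nat_lit 0x400a007]
theorem hs1 : chkG cl (nat_lit 3) (l3OK td9 td21 td21 pt) s1 (nat_lit 3) = true := by decide +kernel
def s2 : List Nat := [nat_lit 0x54002005]
theorem hs2 : chkG cl (nat_lit 3) (l3OK td21 td12 td3 pt) s2 (nat_lit 4) = true := by decide +kernel
def s3 : List Nat := [nat_lit 0x400a00f]
theorem hs3 : chkG cl (nat_lit 3) (l3OK td9 td3 td21 pt) s3 (nat_lit 5) = true := by decide +kernel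
def s4 : List Nat := [nat_lit 0x2402e003]
theorem hs4 : chkG cl (nat_lit 3) (l3OK td3 td37 td19 pt) s4 (nat_lit 6) = true := by decide +kernel
def c0 : List Nat := [nat_lit 0x20000000000300340010052000401d000800a800600bc0028026000008]
theorem t0 : chk cl nb (nat_lit 14) c0 (nat_lit 6) = true := by decide +kernel

end

end APL.P65

namespace APL.P66

open APL.RA renaming leaf → L, node → N
open APL renaming dec → E

noncomputable section

set_option maxRecDepth 100000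

def pt : RA := N (nat_lit 8) (N (nat_lit 4) (N (nat_lit 2) (N (nat_lit 1) (L (nat_lit 288234774265332736)) (L (nat_lit 288234774264939521))) (N (nat_lit 3) (L (nat_lit 288234774265136130)) (L (nat_lit 288234774265005055)))) (N (nat_lit 6) (N (nat_lit 5) (L (nat_lit 288234774265070591)) (L (nat_lit 288234774265070597))) (N (nat_lit 7) (L (nat_lit 288234774265136127)) (L (nat_lit 288234774265136132))))) (N (nat_lit 12) (N (nat_lit 10) (N (nat_lit 9) (L (nat_lit 288234774265201663)) (L (nat_lit 288234774265201667))) (N (nat_lit 11) (L (nat_lit 288234774265267199)) (L (nat_lit 288234774265267202)))) (N (nat_lit 14) (N (nat_lit 13) (L (nat_lit 288234774265332735)) (L (nat_lit 288234774265332737))) (L (nat_lit 288234774265398272))))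
def nb : RA := N (nat_lit 7) (N (nat_lit 3) (N (nat_lit 1) (L (E (nat_lit 3) (nat_lit 0x70034018) (nat_lit 0))) (N (nat_lit 2) (L (E (nat_lit 0) (nat_lit 0x0) (nat_lit 0))) (L (E (nat_lit 0) (nat_lit 0x0) (nat_lit 0))))) (N (nat_lit 5) (N (nat_lit 4) (L (E (nat_lit 0) (nat_lit 0x0) (nat_lit 0))) (L (E (nat_lit 0) (nat_lit 0x0) (nat_lit 0)))) (N (nat_lit 6) (L (E (nat_lit 0) (nat_lit 0x0) (nat_lit 0))) (L (E (nat_lit 0) (nat_lit 0x0) (nat_lit 0)))))) (N (nat_lit 11) (N (nat_lit 9) (N (nat_lit 8) (L (E (nat_lit 0) (nat_lit 0x0) (nat_lit 0))) (L (E (nat_lit 0) (nat_lit 0x0) (nat_lit 0)))) (N (nat_lit 10) (L (E (nat_lit 0) (nat_lit 0x0) (nat_lit 0))) (L (E (nat_lit 0) (nat_lit 0x0) (nat_lit 0))))) (N (nat_lit 13) (N (nat_lit 12) (L (E (nat_lit 0) (nat_lit 0x0) (nat_lit 0))) (L (E (nat_lit 0) (nat_lit 0x0) (nat_lit 0)))) (N (nat_lit 14) (L (E (nat_lit 0) (nat_lit 0x0) (nat_lit 0))) (L (E (nat_lit 0) (nat_lit 0x0) (nat_lit 0))))))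
def cl : RA := N (nat_lit 5) (N (nat_lit 3) (N (nat_lit 2) (N (nat_lit 1) (L (E (nat_lit 6) (nat_lit 0x300140080030010006) (nat_lit 0))) (L (E (nat_lit 6) (nat_lit 0x3801a00b004801c00a) (nat_lit 0)))) (L (E (nat_lit 3) (nat_lit 0x44006001) (nat_lit 0)))) (N (nat_lit 4) (L (E (nat_lit 3) (nat_lit 0x5c006001) (nat_lit 0))) (L (E (nat_lit 3) (nat_lit 0x1c006001) (nat_lit 0))))) (N (nat_lit 8) (N (nat_lit 7) (N (nat_lit 6) (L (E (nat_lit 3) (nat_lit 0x3c012003) (nat_lit 0))) (L (E (nat_lit 3) (nat_lit 0x4c006001) (nat_lit 0)))) (L (E (nat_lit 3) (nat_lit 0x54006001) (nat_lit 0)))) (N (nat_lit 9) (L (E (nat_lit 3) (nat_lit 0x3400a001) (nat_lit 0))) (N (nat_lit 10) (L (E (nat_lit 3) (nat_lit 0x2c006001) (nat_lit 0))) (L (E (nat_lit 3) (nat_lit 0x14006001) (nat_lit 0))))))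
def nbl : List Nat := [nat_lit 0x1c00d00603, nat_lit 0x0, nat_lit 0x0, nat_lit 0x0, nat_lit 0x0, nat_lit 0x0, nat_lit 0x0, nat_lit 0x0, nat_lit 0x0, nat_lit 0x0, nat_lit 0x0, nat_lit 0x0, nat_lit 0x0, nat_lit 0x0, nat_lit 0x0]
def apl : List Nat := [nat_lit 0x300140080030010006, nat_lit 0x1400e009005803401c]
theorem hpt : RA.all okp pt = true := by decide +kernel
theorem hN : chkN nb td1 pt nbl (nat_lit 0) = true := by decide +kernel
theorem hA : chkG cl (nat_lit 6) (apOK td1 pt (nat_lit 5)) apl (nat_lit 0) = true := by decide +kernel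
def s0 : List Nat := [nat_lit 0x44002003]
theorem hs0 : chkG cl (nat_lit 3) (l3OK td31 td12 td7 pt) s0 (nat_lit 2) = true := by decide +kernel
def s1 : List Nat := [nat_lit 0x5c006001, nat_lit 0xc002007]
theorem hs1 : chkG cl (nat_lit 3) (l3OK td31 td3 td31 pt) s1 (nat_lit 3) = true := by decide +kernel
def s2 : List Nat := [nat_lit 0x3c012003]
theorem hs2 : chkG cl (nat_lit 3) (l3OK td4 td27 td31 pt) s2 (nat_lit 5) = true := by decide +kernel
def s3 : List Nat := [nat_lit 0x4c006001]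
theorem hs3 : chkG cl (nat_lit 3) (l3OK td31 td7 td28 pt) s3 (nat_lit 6) = true := by decide +kernel
def s4 : List Nat := [nat_lit 0x54002003]
theorem hs4 : chkG cl (nat_lit 3) (l3OK td31 td19 td3 pt) s4 (nat_lit 7) = true := by decide +kernel
def s5 : List Nat := [nat_lit 0x401a005]
theorem hs5 : chkG cl (nat_lit 3) (l3OK td9 td7 td13 pt) s5 (nat_lit 8) = true := by decide +kernel
def s6 : List Nat := [nat_lit 0x2c006001]
theorem hs6 : chkG cl (nat_lit 3) (l3OK td31 td21 td28 pt) s6 (nat_lit 9) = true := by decide +kernel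
def c0 : List Nat := [nat_lit 0x38042001400d000401480010064003005a000c025000000a8008007c004802600100a]
theorem t0 : chk cl nb (nat_lit 15) c0 (nat_lit 9) = true := by decide +kernel

end

end APL.P66

namespace APL.P67

open APL.RA renaming leaf → L, node → N
open APL renaming dec → E

noncomputable section

set_option maxRecDepth 100000

def pt : RA := N (nat_lit 10) (N (nat_lit 5) (N (nat_lit 3) (N (nat_lit 2) (N (nat_lit 1) (L (nat_lit 288234774265332736)) (L (nat_lit 288234774265005057))) (L (nat_lit 288234774264939523))) (N (nat_lit 4) (L (nat_lit 288234774264873986)) (L (nat_lit 288234774264873989)))) (N (nat_lit 8) (N (nat_lit 7) (N (nat_lit 6) (L (nat_lit 288234774264939521)) (L (nat_lit 288234774264939525))) (L (nat_lit 288234774264939526))) (N (nat_lit 9) (L (nat_lit 288234774265005056)) (L (nat_lit 288234774265005061))))) (N (nat_lit 15) (N (nat_lit 13) (N (nat_lit 12) (N (nat_lit 11) (L (nat_lit 288234774265070591))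 (L (nat_lit 288234774265070596))) (L (nat_lit 288234774265070597))) (N (nat_lit 14) (L (nat_lit 288234774265136126)) (L (nat_lit 288234774265136131)))) (N (nat_lit 18) (N (nat_lit 17) (N (nat_lit 16) (L (nat_lit 288234774265136133)) (L (nat_lit 288234774265201661))) (L (nat_lit 288234774265201666))) (N (nat_lit 19) (L (nat_lit 288234774265201669)) (L (nat_lit 288234774265267201)))))
def nb : RA := N (nat_lit 9) (N (nat_lit 4) (N (nat_lit 2) (N (nat_lit 1) (L (E (nat_lit 1) (nat_lit 0x26) (nat_lit 0))) (L (E (nat_lit 1) (nat_lit 0x10) (nat_lit 0)))) (N (nat_lit 3) (L (E (nat_lit 0) (nat_lit 0x0) (nat_lit 0))) (L (E (nat_lit 0) (nat_lit 0x0) (nat_lit 0))))) (N (nat_lit 7) (N (nat_lit 6) (N (nat_lit 5) (L (E (nat_lit 0) (nat_lit 0x0) (nat_lit 0))) (L (E (nat_lit 0) (nat_lit 0x0) (nat_lit 0)))) (L (E (nat_lit 0) (nat_lit 0x0) (nat_lit 0)))) (N (nat_lit 8) (L (E (nat_lit 0) (nat_lit 0x0) (nat_lit 0))) (L (E (nat_lit 0) (nat_lit 0x0)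 (nat_lit 0)))))) (N (nat_lit 15) (N (nat_lit 12) (N (nat_lit 11) (N (nat_lit 10) (L (E (nat_lit 0) (nat_lit 0x0) (nat_lit 0))) (L (E (nat_lit 0) (nat_lit 0x0) (nat_lit 0)))) (L (E (nat_lit 0) (nat_lit 0x0) (nat_lit 0)))) (N (nat_lit 14) (N (nat_lit 13) (L (E (nat_lit 0) (nat_lit 0x0) (nat_lit 0))) (L (E (nat_lit 0) (nat_lit 0x0) (nat_lit 0)))) (L (E (nat_lit 0) (nat_lit 0x0) (nat_lit 0))))) (N (nat_lit 18) (N (nat_lit 17) (N (nat_lit 16) (L (E (nat_lit 0) (nat_lit 0x0) (nat_lit 0))) (L (E (nat_lit 0) (nat_lit 0x0) (nat_lit 0)))) (L (E (nat_lit 0) (nat_lit 0x0) (nat_lit 0)))) (N (nat_lit 19) (L (E (nat_lit 0) (nat_lit 0x0) (nat_lit 0))) (L (E (nat_lit 0) (nat_lit 0x0) (nat_lit 0))))))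
def cl : RA := N (nat_lit 8) (N (nat_lit 4) (N (nat_lit 2) (N (nat_lit 1) (L (E (nat_lit 6) (nat_lit 0x4801e00c0048018008) (nat_lit 0))) (L (E (nat_lit 6) (nat_lit 0x4001a00a0040014006) (nat_lit 0)))) (N (nat_lit 3) (L (E (nat_lit 6) (nat_lit 0x4c02200e005802400e) (nat_lit 0))) (L (E (nat_lit 3) (nat_lit 0x5400a001) (nat_lit 0))))) (N (nat_lit 6) (N (nat_lit 5) (L (E (nat_lit 3) (nat_lit 0x6400a001) (nat_lit 0))) (L (E (nat_lit 3) (nat_lit 0x2c00a001) (nat_lit 0)))) (N (nat_lit 7) (L (E (nat_lit 3) (nat_lit 0x3400a001) (nat_lit 0))) (L (E (nat_lit 3) (nat_lit 0x8c012007) (nat_lit 0)))))) (N (nat_lit 12) (N (nat_lit 10) (N (nat_lit 9) (L (E (nat_lit 3) (nat_lit 0x5c00a001) (nat_lit 0))) (L (E (nat_lit 3) (nat_lit 0x3c00a001) (nat_lit 0)))) (N (nat_lit 11) (L (E (nat_lit 3) (nat_lit 0x9400a001) (nat_lit 0))) (L (E (nat_lit 3) (nat_lit 0x8400a001) (nat_lit 0))))) (N (nat_lit 14) (N (nat_lit 13) (L (E (nat_lit 2) (nat_lit 0x3a001)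 (nat_lit 0))) (L (E (nat_lit 3) (nat_lit 0x6c006001) (nat_lit 0)))) (N (nat_lit 15) (L (E (nat_lit 3) (nat_lit 0x7c00a001) (nat_lit 0))) (N (nat_lit 16) (L (E (nat_lit 3) (nat_lit 0x4c006001) (nat_lit 0))) (L (E (nat_lit 3) (nat_lit 0x14006001) (nat_lit 0)))))))
def nbl : List Nat := [nat_lit 0x981, nat_lit 0x401, nat_lit 0x0, nat_lit 0x0, nat_lit 0x0, nat_lit 0x0, nat_lit 0x0, nat_lit 0x0, nat_lit 0x0, nat_lit 0x0, nat_lit 0x0, nat_lit 0x0, nat_lit 0x0, nat_lit 0x0, nat_lit 0x0, nat_lit 0x0, nat_lit 0x0, nat_lit 0x0, nat_lit 0x0, nat_lit 0x0]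
def apl : List Nat := [nat_lit 0x4801e00c0048018008, nat_lit 0xc00a0080050034020, nat_lit 0x1c01200b0070044026]
theorem hpt : RA.all okp pt = true := by decide +kernel
theorem hN : chkN nb td1 pt nbl (nat_lit 0) = true := by decide +kernel
theorem hA : chkG cl (nat_lit 6) (apOK td1 pt (nat_lit 5)) apl (nat_lit 0) = true := by decide +kernel
def s0 : List Nat := [nat_lit 0x14002015, nat_lit 0x14002019]
theorem hs0 : chkG cl (nat_lit 3) (l3OK td21 td12 td27 pt) s0 (nat_lit 3) = true := by decide +kernel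
def s1 : List Nat := [nat_lit 0x4016005, nat_lit 0x401a005]
theorem hs1 : chkG cl (nat_lit 3) (l3OK td4 td27 td31 pt) s1 (nat_lit 5) = true := by decide +kernel
def s2 : List Nat := [nat_lit 0x8c00e009]
theorem hs2 : chkG cl (nat_lit 3) (l3OK td9 td19 td25 pt) s2 (nat_lit 7) = true := by decide +kernel
def s3 : List Nat := [nat_lit 0x14002017]
theorem hs3 : chkG cl (nat_lit 3) (l3OK td16 td7 td27 pt) s3 (nat_lit 8) = true := by decide +kernel
def s4 : List Nat := [nat_lit 0x401e005]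
theorem hs4 : chkG cl (nat_lit 3) (l3OK td9 td27 td36 pt) s4 (nat_lit 9) = true := by decide +kernel
def s5 : List Nat := [nat_lit 0x400a025, nat_lit 0x400a021]
theorem hs5 : chkG cl (nat_lit 3) (l3OK td28 td19 td27 pt) s5 (nat_lit 10) = true := by decide +kernel
def s6 : List Nat := [nat_lit 0x3a001]
theorem hs6 : chkG cl (nat_lit 2) (l2OK td9 pt) s6 (nat_lit 12) = true := by decide +kernel
def s7 : List Nat := [nat_lit 0x6c002003]
theorem hs7 : chkG cl (nat_lit 3) (l3OK td21 td7 td19 pt) s7 (nat_lit 13) = true := by decide +kernel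
def s8 : List Nat := [nat_lit 0x1400201f]
theorem hs8 : chkG cl (nat_lit 3) (l3OK td19 td19 td27 pt) s8 (nat_lit 14) = true := by decide +kernel
def s9 : List Nat := [nat_lit 0x4026003]
theorem hs9 : chkG cl (nat_lit 3) (l3OK td16 td21 td25 pt) s9 (nat_lit 15) = true := by decide +kernel
def c0 : List Nat := [nat_lit 0x400000000018014800a00540020082000c039000401a8000009400580620024019000e016800600740028092000403d001a023800e003c0078026002011]
theorem t0 : chk cl nb (nat_lit 20) c0 (nat_lit 15) = true := by decide +kernel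

end

end APL.P67

namespace APL.P68

open APL.RA renaming leaf → L, node → N
open APL renaming dec → E

noncomputable section

set_option maxRecDepth 100000

def pt : RA := N (nat_lit 5) (N (nat_lit 3) (N (nat_lit 2) (N (nat_lit 1) (L (nat_lit 288234774265332736)) (L (nat_lit 288234774264939522))) (L (nat_lit 288234774265201669))) (N (nat_lit 4) (L (nat_lit 288234774265136127)) (L (nat_lit 288234774265136128)))) (N (nat_lit 7) (N (nat_lit 6) (L (nat_lit 288234774265136129)) (L (nat_lit 288234774265136130))) (N (nat_lit 8) (L (nat_lit 288234774265136131)) (L (nat_lit 288234774265136132))))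
def nb : RA := N (nat_lit 5) (N (nat_lit 3) (N (nat_lit 2) (N (nat_lit 1) (L (E (nat_lit 0) (nat_lit 0x0) (nat_lit 0))) (L (E (nat_lit 0) (nat_lit 0x0) (nat_lit 0)))) (L (E (nat_lit 0) (nat_lit 0x0) (nat_lit 0)))) (N (nat_lit 4) (L (E (nat_lit 0) (nat_lit 0x0) (nat_lit 0))) (L (E (nat_lit 0) (nat_lit 0x0) (nat_lit 0))))) (N (nat_lit 7) (N (nat_lit 6) (L (E (nat_lit 0) (nat_lit 0x0) (nat_lit 0))) (L (E (nat_lit 0) (nat_lit 0x0) (nat_lit 0)))) (N (nat_lit 8) (L (E (nat_lit 0) (nat_lit 0x0) (nat_lit 0))) (L (E (nat_lit 0) (nat_lit 0x0) (nat_lit 0)))))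
def cl : RA := N (nat_lit 4) (N (nat_lit 2) (N (nat_lit 1) (L (E (nat_lit 6) (nat_lit 0x2000e0060028010006) (nat_lit 0))) (L (E (nat_lit 3) (nat_lit 0x2400a001) (nat_lit 0)))) (N (nat_lit 3) (L (E (nat_lit 3) (nat_lit 0x3c00a001) (nat_lit 0))) (L (E (nat_lit 3) (nat_lit 0x34006001) (nat_lit 0))))) (N (nat_lit 6) (N (nat_lit 5) (L (E (nat_lit 3) (nat_lit 0x1c006001) (nat_lit 0))) (L (E (nat_lit 3) (nat_lit 0x2c00a001) (nat_lit 0)))) (N (nat_lit 7) (L (E (nat_lit 3) (nat_lit 0x4400a003) (nat_lit 0))) (L (E (nat_lit 3) (nat_lit 0x14006001) (nat_lit 0)))))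
def nbl : List Nat := [nat_lit 0x0, nat_lit 0x0, nat_lit 0x0, nat_lit 0x0, nat_lit 0x0, nat_lit 0x0, nat_lit 0x0, nat_lit 0x0, nat_lit 0x0]
def apl : List Nat := [nat_lit 0x2000e0060028010006]
theorem hpt : RA.all okp pt = true := by decide +kernel
theorem hN : chkN nb td1 pt nbl (nat_lit 0) = true := by decide +kernel
theorem hA : chkG cl (nat_lit 6) (apOK td1 pt (nat_lit 5)) apl (nat_lit 0) = true := by decide +kernel
def s0 : List Nat := [nat_lit 0x14012001]
theorem hs0 : chkG cl (nat_lit 3) (l3OK td9 td19 td31 pt) s0 (nat_lit 1) = true := by decide +kernel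
def s1 : List Nat := [nat_lit 0x1400200f]
theorem hs1 : chkG cl (nat_lit 3) (l3OK td9 td7 td19 pt) s1 (nat_lit 2) = true := by decide +kernel
def s2 : List Nat := [nat_lit 0x400600d]
theorem hs2 : chkG cl (nat_lit 3) (l3OK td9 td7 td28 pt) s2 (nat_lit 3) = true := by decide +kernel
def s3 : List Nat := [nat_lit 0x4006007]
theorem hs3 : chkG cl (nat_lit 3) (l3OK td9 td13 td28 pt) s3 (nat_lit 4) = true := by decide +kernel
def s4 : List Nat := [nat_lit 0x400a00b]
theorem hs4 : chkG cl (nat_lit 3) (l3OK td21 td7 td19 pt) s4 (nat_lit 5) = true := by decide +kernel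
def s5 : List Nat := [nat_lit 0xc022005]
theorem hs5 : chkG cl (nat_lit 3) (l3OK td3 td37 td19 pt) s5 (nat_lit 6) = true := by decide +kernel
def c0 : List Nat := [nat_lit 0x50044002003a000800d000200a800300640000042001806]
theorem t0 : chk cl nb (nat_lit 9) c0 (nat_lit 6) = true := by decide +kernel

end

end APL.P68

namespace APL.P69

open APL.RA renaming leaf → L, node → N
open APL renaming dec → E

noncomputable section

set_option maxRecDepth 100000

def pt : RA := N (nat_lit 5) (N (nat_lit 3) (N (nat_lit 2) (N (nat_lit 1) (L (nat_lit 288234774265332736)) (L (nat_lit 288234774265594880))) (L (nat_lit 288234774265136132))) (N (nat_lit 4) (L (nat_lit 288234774265332737)) (L (nat_lit 288234774265332738)))) (N (nat_lit 7) (N (nat_lit 6) (L (nat_lit 288234774265332739)) (L (nat_lit 288234774265332740))) (N (nat_lit 8) (L (nat_lit 288234774265332741)) (L (nat_lit 288234774265332742))))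
def nb : RA := N (nat_lit 4) (N (nat_lit 2) (N (nat_lit 1) (L (E (nat_lit 1) (nat_lit 0x6) (nat_lit 0))) (L (E (nat_lit 0) (nat_lit 0x0) (nat_lit 0)))) (N (nat_lit 3) (L (E (nat_lit 0) (nat_lit 0x0) (nat_lit 0))) (L (E (nat_lit 0) (nat_lit 0x0) (nat_lit 0))))) (N (nat_lit 7) (N (nat_lit 6) (N (nat_lit 5) (L (E (nat_lit 0) (nat_lit 0x0) (nat_lit 0))) (L (E (nat_lit 0) (nat_lit 0x0) (nat_lit 0)))) (L (E (nat_lit 0) (nat_lit 0x0) (nat_lit 0)))) (N (nat_lit 8) (L (E (nat_lit 0) (nat_lit 0x0) (nat_lit 0))) (L (E (nat_lit 0) (nat_lit 0x0) (nat_lit 0)))))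
def cl : RA := N (nat_lit 3) (N (nat_lit 2) (N (nat_lit 1) (L (E (nat_lit 6) (nat_lit 0x2000e0060028010006) (nat_lit 0))) (L (E (nat_lit 3) (nat_lit 0x34006001) (nat_lit 0)))) (L (E (nat_lit 3) (nat_lit 0x24006001) (nat_lit 0)))) (N (nat_lit 5) (N (nat_lit 4) (L (E (nat_lit 3) (nat_lit 0x2c00a001) (nat_lit 0))) (L (E (nat_lit 3) (nat_lit 0x3c006001) (nat_lit 0)))) (N (nat_lit 6) (L (E (nat_lit 3) (nat_lit 0x4400a003) (nat_lit 0))) (L (E (nat_lit 3) (nat_lit 0x14006001) (nat_lit 0)))))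
def nbl : List Nat := [nat_lit 0x181, nat_lit 0x0, nat_lit 0x0, nat_lit 0x0, nat_lit 0x0, nat_lit 0x0, nat_lit 0x0, nat_lit 0x0, nat_lit 0x0]
def apl : List Nat := [nat_lit 0x2000e0060028010006]
theorem hpt : RA.all okp pt = true := by decide +kernel
theorem hN : chkN nb td1 pt nbl (nat_lit 0) = true := by decide +kernel
theorem hA : chkG cl (nat_lit 6) (apOK td1 pt (nat_lit 5)) apl (nat_lit 0) = true := by decide +kernel
def s0 : List Nat := [nat_lit 0x34006001]
theorem hs0 : chkG cl (nat_lit 3) (l3OK td16 td16 td16 pt) s0 (nat_lit 1) = true := by decide +kernel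
def s1 : List Nat := [nat_lit 0xc002009]
theorem hs1 : chkG cl (nat_lit 3) (l3OK td4 td12 td16 pt) s1 (nat_lit 2) = true := by decide +kernel
def s2 : List Nat := [nat_lit 0x1400200b]
theorem hs2 : chkG cl (nat_lit 3) (l3OK td9 td7 td13 pt) s2 (nat_lit 3) = true := by decide +kernel
def s3 : List Nat := [nat_lit 0x3c002003]
theorem hs3 : chkG cl (nat_lit 3) (l3OK td16 td21 td25 pt) s3 (nat_lit 4) = true := by decide +kernel
def s4 : List Nat := [nat_lit 0x14006011]
theorem hs4 : chkG cl (nat_lit 3) (l3OK td28 td19 td37 pt) s4 (nat_lit 5) = true := by decide +kernel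
def c0 : List Nat := [nat_lit 0x1002a00100190006008800100740000042001406]
theorem t0 : chk cl nb (nat_lit 9) c0 (nat_lit 5) = true := by decide +kernel

end

end APL.P69

namespace APL.P70

open APL.RA renaming leaf → L, node → N
open APL renaming dec → E

noncomputable section

set_option maxRecDepth 100000

def pt : RA := N (nat_lit 5) (N (nat_lit 3) (N (nat_lit 2) (N (nat_lit 1) (L (nat_lit 288234774265332736)) (L (nat_lit 288234774265463808))) (L (nat_lit 288234774265070597))) (N (nat_lit 4) (L (nat_lit 288234774265267200)) (L (nat_lit 288234774265267201)))) (N (nat_lit 7) (N (nat_lit 6) (L (nat_lit 288234774265267202)) (L (nat_lit 288234774265267203))) (N (nat_lit 8) (L (nat_lit 288234774265267204)) (L (nat_lit 288234774265267205))))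
def nb : RA := N (nat_lit 4) (N (nat_lit 2) (N (nat_lit 1) (L (E (nat_lit 2) (nat_lit 0x10006) (nat_lit 0))) (L (E (nat_lit 0) (nat_lit 0x0) (nat_lit 0)))) (N (nat_lit 3) (L (E (nat_lit 0) (nat_lit 0x0) (nat_lit 0))) (L (E (nat_lit 0) (nat_lit 0x0) (nat_lit 0))))) (N (nat_lit 7) (N (nat_lit 6) (N (nat_lit 5) (L (E (nat_lit 0) (nat_lit 0x0) (nat_lit 0))) (L (E (nat_lit 0) (nat_lit 0x0) (nat_lit 0)))) (L (E (nat_lit 0) (nat_lit 0x0) (nat_lit 0)))) (N (nat_lit 8) (L (E (nat_lit 0) (nat_lit 0x0) (nat_lit 0))) (L (E (nat_lit 0) (nat_lit 0x0) (nat_lit 0)))))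
def cl : RA := N (nat_lit 3) (N (nat_lit 2) (N (nat_lit 1) (L (E (nat_lit 6) (nat_lit 0x2000e0060028010006) (nat_lit 0))) (L (E (nat_lit 3) (nat_lit 0x4400a003) (nat_lit 0)))) (L (E (nat_lit 3) (nat_lit 0x3400a003) (nat_lit 0)))) (N (nat_lit 4) (L (E (nat_lit 3) (nat_lit 0x2c00a001) (nat_lit 0))) (N (nat_lit 5) (L (E (nat_lit 3) (nat_lit 0x3c00a003) (nat_lit 0))) (L (E (nat_lit 3) (nat_lit 0x14006001) (nat_lit 0)))))
def nbl : List Nat := [nat_lit 0x400182, nat_lit 0x0, nat_lit 0x0, nat_lit 0x0, nat_lit 0x0, nat_lit 0x0, nat_lit 0x0, nat_lit 0x0, nat_lit 0x0]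
def apl : List Nat := [nat_lit 0x2000e0060028010006]
theorem hpt : RA.all okp pt = true := by decide +kernel
theorem hN : chkN nb td1 pt nbl (nat_lit 0) = true := by decide +kernel
theorem hA : chkG cl (nat_lit 6) (apOK td1 pt (nat_lit 5)) apl (nat_lit 0) = true := by decide +kernel
def s0 : List Nat := [nat_lit 0xc00a011]
theorem hs0 : chkG cl (nat_lit 3) (l3OK td9 td19 td31 pt) s0 (nat_lit 1) = true := by decide +kernel
def s1 : List Nat := [nat_lit 0x1400600d]
theorem hs1 : chkG cl (nat_lit 3) (l3OK td9 td7 td31 pt) s1 (nat_lit 2) = true := by decide +kernel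
def s2 : List Nat := [nat_lit 0x400a00b]
theorem hs2 : chkG cl (nat_lit 3) (l3OK td9 td3 td21 pt) s2 (nat_lit 3) = true := by decide +kernel
def s3 : List Nat := [nat_lit 0x3c006005]
theorem hs3 : chkG cl (nat_lit 3) (l3OK td31 td7 td13 pt) s3 (nat_lit 4) = true := by decide +kernel
def c0 : List Nat := [nat_lit 0x4015000400c800000740018042001005]
theorem t0 : chk cl nb (nat_lit 9) c0 (nat_lit 4) = true := by decide +kernel

end

end APL.P70

namespace APL.P71

open APL.RA renaming leaf → L, node → N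
open APL renaming dec → E

noncomputable section

set_option maxRecDepth 100000

def pt : RA := N (nat_lit 9) (N (nat_lit 5) (N (nat_lit 3) (N (nat_lit 2) (N (nat_lit 1) (L (nat_lit 288234774265332736)) (L (nat_lit 288234774265463808))) (L (nat_lit 288234774265070595))) (N (nat_lit 4) (L (nat_lit 288234774265070594)) (L (nat_lit 288234774265070597)))) (N (nat_lit 7) (N (nat_lit 6) (L (nat_lit 288234774265136128)) (L (nat_lit 288234774265136129))) (N (nat_lit 8) (L (nat_lit 288234774265136130)) (L (nat_lit 288234774265136131))))) (N (nat_lit 14) (N (nat_lit 12) (N (nat_lit 11) (N (nat_lit 10) (L (nat_lit 288234774265136132)) (L (nat_lit 288234774265136133))) (L (nat_lit 288234774265201666))) (N (nat_lit 13) (L (nat_lit 288234774265201667)) (L (nat_lit 288234774265267202)))) (N (nat_lit 16) (N (nat_lit 15) (L (nat_lit 288234774265332737)) (L (nat_lit 288234774265332738))) (N (nat_lit 17) (L (nat_lit 288234774265398272)) (L (nat_lit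 288234774265398274)))))
def nb : RA := N (nat_lit 9) (N (nat_lit 4) (N (nat_lit 2) (N (nat_lit 1) (L (E (nat_lit 2) (nat_lit 0x4001c) (nat_lit 0))) (L (E (nat_lit 0) (nat_lit 0x0) (nat_lit 0)))) (N (nat_lit 3) (L (E (nat_lit 0) (nat_lit 0x0) (nat_lit 0))) (L (E (nat_lit 0) (nat_lit 0x0) (nat_lit 0))))) (N (nat_lit 7) (N (nat_lit 6) (N (nat_lit 5) (L (E (nat_lit 0) (nat_lit 0x0) (nat_lit 0))) (L (E (nat_lit 0) (nat_lit 0x0) (nat_lit 0)))) (L (E (nat_lit 0) (nat_lit 0x0) (nat_lit 0)))) (N (nat_lit 8) (L (E (nat_lit 0) (nat_lit 0x0) (nat_lit 0))) (L (E (nat_lit 0) (nat_lit 0x0) (nat_lit 0)))))) (N (nat_lit 14) (N (nat_lit 12) (N (nat_lit 11) (N (nat_lit 10) (L (E (nat_lit 0) (nat_lit 0x0) (nat_lit 0))) (L (E (nat_lit 0) (nat_lit 0x0) (nat_lit 0)))) (L (E (nat_lit 0) (nat_lit 0x0) (nat_lit 0)))) (N (nat_lit 13) (L (E (nat_lit 0) (nat_lit 0x0) (nat_lit 0))) (L (E (nat_lit 0) (nat_lit 0x0) (nat_lit 0))))) (N (nat_lit 16) (N (nat_lit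 15) (L (E (nat_lit 0) (nat_lit 0x0) (nat_lit 0))) (L (E (nat_lit 0) (nat_lit 0x0) (nat_lit 0)))) (N (nat_lit 17) (L (E (nat_lit 0) (nat_lit 0x0) (nat_lit 0))) (L (E (nat_lit 0) (nat_lit 0x0) (nat_lit 0))))))
def cl : RA := N (nat_lit 7) (N (nat_lit 4) (N (nat_lit 2) (N (nat_lit 1) (L (E (nat_lit 6) (nat_lit 0x4401e00d005801c006) (nat_lit 0))) (L (E (nat_lit 6) (nat_lit 0x28012008003801800a) (nat_lit 0)))) (N (nat_lit 3) (L (E (nat_lit 6) (nat_lit 0x4001c00d0060024008) (nat_lit 0))) (L (E (nat_lit 3) (nat_lit 0x3c006001) (nat_lit 0))))) (N (nat_lit 6) (N (nat_lit 5) (L (E (nat_lit 3) (nat_lit 0x1c006001) (nat_lit 0))) (L (E (nat_lit 3) (nat_lit 0x5c006001) (nat_lit 0)))) (L (E (nat_lit 3) (nat_lit 0x2c006001) (nat_lit 0))))) (N (nat_lit 11) (N (nat_lit 9) (N (nat_lit 8) (L (E (nat_lit 3) (nat_lit 0x7c032015) (nat_lit 0))) (L (E (nat_lit 3) (nat_lit 0x6c00a003) (nat_lit 0)))) (N (nat_lit 10) (L (E (nat_lit 2) (nat_lit 0x22001) (nat_lit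 0))) (L (E (nat_lit 3) (nat_lit 0x3400a003) (nat_lit 0))))) (N (nat_lit 13) (N (nat_lit 12) (L (E (nat_lit 3) (nat_lit 0x8c00a003) (nat_lit 0))) (L (E (nat_lit 3) (nat_lit 0x4c00a003) (nat_lit 0)))) (N (nat_lit 14) (L (E (nat_lit 3) (nat_lit 0x24006001) (nat_lit 0))) (L (E (nat_lit 3) (nat_lit 0x14006001) (nat_lit 0))))))
def nbl : List Nat := [nat_lit 0x1000702, nat_lit 0x0, nat_lit 0x0, nat_lit 0x0, nat_lit 0x0, nat_lit 0x0, nat_lit 0x0, nat_lit 0x0, nat_lit 0x0, nat_lit 0x0, nat_lit 0x0, nat_lit 0x0, nat_lit 0x0, nat_lit 0x0, nat_lit 0x0, nat_lit 0x0, nat_lit 0x0, nat_lit 0x0]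
def apl : List Nat := [nat_lit 0x4401e00d005801c006, nat_lit 0x28012008003801800a, nat_lit 0x1001200c0068038020]
theorem hpt : RA.all okp pt = true := by decide +kernel
theorem hN : chkN nb td1 pt nbl (nat_lit 0) = true := by decide +kernel
theorem hA : chkG cl (nat_lit 6) (apOK td1 pt (nat_lit 5)) apl (nat_lit 0) = true := by decide +kernel
def s0 : List Nat := [nat_lit 0x3c006001]
theorem hs0 : chkG cl (nat_lit 3) (l3OK td4 td7 td19 pt) s0 (nat_lit 3) = true := by decide +kernel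
def s1 : List Nat := [nat_lit 0x1c006001]
theorem hs1 : chkG cl (nat_lit 3) (l3OK td4 td12 td28 pt) s1 (nat_lit 4) = true := by decide +kernel
def s2 : List Nat := [nat_lit 0x5c006001]
theorem hs2 : chkG cl (nat_lit 3) (l3OK td4 td4 td12 pt) s2 (nat_lit 5) = true := by decide +kernel
def s3 : List Nat := [nat_lit 0x2c002003]
theorem hs3 : chkG cl (nat_lit 3) (l3OK td4 td25 td9 pt) s3 (nat_lit 6) = true := by decide +kernel
def s4 : List Nat := [nat_lit 0x6402a01f]
theorem hs4 : chkG cl (nat_lit 3) (l3OK td9 td3 td3 pt) s4 (nat_lit 7) = true := by decide +kernel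
def s5 : List Nat := [nat_lit 0x14036003]
theorem hs5 : chkG cl (nat_lit 3) (l3OK td7 td27 td7 pt) s5 (nat_lit 8) = true := by decide +kernel
def s6 : List Nat := [nat_lit 0x22001]
theorem hs6 : chkG cl (nat_lit 2) (l2OK td9 pt) s6 (nat_lit 9) = true := by decide +kernel
def s7 : List Nat := [nat_lit 0x1401a003, nat_lit 0xc046005, nat_lit 0x14026003]
theorem hs7 : chkG cl (nat_lit 3) (l3OK td21 td27 td3 pt) s7 (nat_lit 10) = true := by decide +kernel
def s8 : List Nat := [nat_lit 0x24006001]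
theorem hs8 : chkG cl (nat_lit 3) (l3OK td4 td21 td31 pt) s8 (nat_lit 13) = true := by decide +kernel
def c0 : List Nat := [nat_lit 0x3802a0010021001400e80090034004005a0014035000600c80020114000002200040250016019800d00fc006005600180e]
theorem t0 : chk cl nb (nat_lit 18) c0 (nat_lit 13) = true := by decide +kernel

end

end APL.P71

namespace APL.P72

open APL.RA renaming leaf → L, node → N
open APL renaming dec → E

noncomputable section

set_option maxRecDepth 100000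

def pt0 : RA := N (nat_lit 38) (N (nat_lit 19) (N (nat_lit 10) (N (nat_lit 5) (N (nat_lit 3) (N (nat_lit 2) (N (nat_lit 1) (L (nat_lit 288234774265332736)) (L (nat_lit 288234774265005057))) (L (nat_lit 288234774265136133))) (N (nat_lit 4) (L (nat_lit 285982991631844350)) (L (nat_lit 286264458018554880)))) (N (nat_lit 8) (N (nat_lit 7) (N (nat_lit 6) (L (nat_lit 286545937290167295)) (L (nat_lit 286545950175003646))) (L (nat_lit 286827403676681216))) (N (nat_lit 9) (L (nat_lit 286827403676746752)) (L (nat_lit 286827403677008899))))) (N (nat_lit 15) (N (nat_lit 13) (N (nat_lit 12) (N (nat_lit 11) (L (nat_lit 286827407971845117)) (L (nat_lit 286827416561779710))) (L (nat_lit 286827416561779713))) (N (nat_lit 14) (L (nat_lit 286827425151517696)) (L (nat_lit 287108874358424576)))) (N (nat_lit 17) (N (nat_lit 16) (L (nat_lit 287108878653391872)) (L (nat_lit 287108882948293632))) (N (nat_lit 18) (L (nat_lit 287108882948359166)) (L (nat_lit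 287108882948490240)))))) (N (nat_lit 29) (N (nat_lit 24) (N (nat_lit 22) (N (nat_lit 21) (N (nat_lit 20) (L (nat_lit 287108882948555773)) (L (nat_lit 287108882948621314))) (L (nat_lit 287108895833261052))) (N (nat_lit 23) (L (nat_lit 287108895833261056)) (L (nat_lit 287108895833326591)))) (N (nat_lit 27) (N (nat_lit 26) (N (nat_lit 25) (L (nat_lit 287108895833392125)) (L (nat_lit 287108895833523199))) (L (nat_lit 287390345040167936))) (N (nat_lit 28) (L (nat_lit 287390349335069697)) (L (nat_lit 287390353630102528))))) (N (nat_lit 34) (N (nat_lit 32) (N (nat_lit 31) (N (nat_lit 30) (L (nat_lit 287390357925004288)) (L (nat_lit 287390357925069822))) (L (nat_lit 287390357925266429))) (N (nat_lit 33) (L (nat_lit 287390362219774977)) (L (nat_lit 287390362219840512)))) (N (nat_lit 36) (N (nat_lit 35) (L (nat_lit 287390362219840515)) (L (nat_lit 287390362219840516))) (N (nat_lit 37) (L (nat_lit 287390362219906047)) (L (nat_lit 287390362219906048)))))))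 (N (nat_lit 57) (N (nat_lit 48) (N (nat_lit 43) (N (nat_lit 41) (N (nat_lit 40) (N (nat_lit 39) (L (nat_lit 287390362219906049)) (L (nat_lit 287390362219906050))) (L (nat_lit 287390362219906051))) (N (nat_lit 42) (L (nat_lit 287390362219971582)) (L (nat_lit 287390362219971583)))) (N (nat_lit 46) (N (nat_lit 45) (N (nat_lit 44) (L (nat_lit 287390362219971584)) (L (nat_lit 287390362219971585))) (L (nat_lit 287390362219971586))) (N (nat_lit 47) (L (nat_lit 287390362220037116)) (L (nat_lit 287390362220037117))))) (N (nat_lit 53) (N (nat_lit 51) (N (nat_lit 50) (N (nat_lit 49) (L (nat_lit 287390362220037118)) (L (nat_lit 287390362220037119))) (L (nat_lit 287390362220037120))) (N (nat_lit 52) (L (nat_lit 287390362220037121)) (L (nat_lit 287390362220037122)))) (N (nat_lit 55) (N (nat_lit 54) (L (nat_lit 287390362220037123)) (L (nat_lit 287390362220102652))) (N (nat_lit 56) (L (nat_lit 287390362220102655)) (L (nat_lit 287390362220102656))))))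 (N (nat_lit 66) (N (nat_lit 62) (N (nat_lit 60) (N (nat_lit 59) (N (nat_lit 58) (L (nat_lit 287390362220102657)) (L (nat_lit 287390362220102658))) (L (nat_lit 287390362220168188))) (N (nat_lit 61) (L (nat_lit 287390362220168189)) (L (nat_lit 287390362220168190)))) (N (nat_lit 64) (N (nat_lit 63) (L (nat_lit 287390362220168191)) (L (nat_lit 287390362220168192))) (N (nat_lit 65) (L (nat_lit 287390362220168193)) (L (nat_lit 287390362220168194))))) (N (nat_lit 71) (N (nat_lit 69) (N (nat_lit 68) (N (nat_lit 67) (L (nat_lit 287390362220168195)) (L (nat_lit 287390362220233724))) (L (nat_lit 287390362220233725))) (N (nat_lit 70) (L (nat_lit 287390362220233726)) (L (nat_lit 287390362220233727)))) (N (nat_lit 73) (N (nat_lit 72) (L (nat_lit 287390362220233728)) (L (nat_lit 287390362220233729))) (N (nat_lit 74) (L (nat_lit 287390362220233730)) (L (nat_lit 287390362220299260)))))))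
def pt1 : RA := N (nat_lit 113) (N (nat_lit 94) (N (nat_lit 85) (N (nat_lit 80) (N (nat_lit 78) (N (nat_lit 77) (N (nat_lit 76) (L (nat_lit 287390362220299263)) (L (nat_lit 287390362220299264))) (L (nat_lit 287390362220364796))) (N (nat_lit 79) (L (nat_lit 287390362220364798)) (L (nat_lit 287390366515004416)))) (N (nat_lit 83) (N (nat_lit 82) (N (nat_lit 81) (L (nat_lit 287390375104807933)) (L (nat_lit 287390375104873468))) (L (nat_lit 287390375104873469))) (N (nat_lit 84) (L (nat_lit 287390375104873470)) (L (nat_lit 287390375104873471))))) (N (nat_lit 90) (N (nat_lit 88) (N (nat_lit 87) (N (nat_lit 86) (L (nat_lit 287390375104873472)) (L (nat_lit 287390375104873473))) (L (nat_lit 287390375104939002))) (N (nat_lit 89) (L (nat_lit 287390375104939003)) (L (nat_lit 287390375104939004)))) (N (nat_lit 92) (N (nat_lit 91) (L (nat_lit 287390375104939005)) (L (nat_lit 287390375104939006))) (N (nat_lit 93) (L (nat_lit 287390375104939007))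 (L (nat_lit 287390375104939008)))))) (N (nat_lit 104) (N (nat_lit 99) (N (nat_lit 97) (N (nat_lit 96) (N (nat_lit 95) (L (nat_lit 287390375105004540)) (L (nat_lit 287390375105004543))) (L (nat_lit 287390375105070078))) (N (nat_lit 98) (L (nat_lit 287390375105135613)) (L (nat_lit 287390375105201148)))) (N (nat_lit 102) (N (nat_lit 101) (N (nat_lit 100) (L (nat_lit 287390379399840768)) (L (nat_lit 287671815721714693))) (L (nat_lit 287671815721911296))) (N (nat_lit 103) (L (nat_lit 287671828606682112)) (L (nat_lit 287671828606747648))))) (N (nat_lit 109) (N (nat_lit 107) (N (nat_lit 106) (N (nat_lit 105) (L (nat_lit 287671828606813184)) (L (nat_lit 287671828606813185))) (L (nat_lit 287671828606944259))) (N (nat_lit 108) (L (nat_lit 287671832901714944)) (L (nat_lit 287671832901780478)))) (N (nat_lit 111) (N (nat_lit 110) (L (nat_lit 287671832901977085)) (L (nat_lit 287671837196747776))) (N (nat_lit 112) (L (nat_lit 287671841491518463))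 (L (nat_lit 287671841491649536))))))) (N (nat_lit 132) (N (nat_lit 123) (N (nat_lit 118) (N (nat_lit 116) (N (nat_lit 115) (N (nat_lit 114) (L (nat_lit 287671841491715070)) (L (nat_lit 287671841491846144))) (L (nat_lit 287671850081584128))) (N (nat_lit 117) (L (nat_lit 287671854376616955)) (L (nat_lit 287953286403654656)))) (N (nat_lit 121) (N (nat_lit 120) (N (nat_lit 119) (L (nat_lit 287953294993327108)) (L (nat_lit 287953294993392642))) (L (nat_lit 287953294993654789))) (N (nat_lit 122) (L (nat_lit 287953299288491008)) (L (nat_lit 287953303583523840))))) (N (nat_lit 128) (N (nat_lit 126) (N (nat_lit 125) (N (nat_lit 124) (L (nat_lit 287953307878228993)) (L (nat_lit 287953307878228996))) (L (nat_lit 287953307878294532))) (N (nat_lit 127) (L (nat_lit 287953307878360065)) (L (nat_lit 287953307878360066)))) (N (nat_lit 130) (N (nat_lit 129) (L (nat_lit 287953307878360067)) (L (nat_lit 287953307878360068))) (N (nat_lit 131) (L (nat_lit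 287953307878360069)) (L (nat_lit 287953307878360070)))))) (N (nat_lit 141) (N (nat_lit 137) (N (nat_lit 135) (N (nat_lit 134) (N (nat_lit 133) (L (nat_lit 287953307878425600)) (L (nat_lit 287953307878425603))) (L (nat_lit 287953307878425604))) (N (nat_lit 136) (L (nat_lit 287953307878491134)) (L (nat_lit 287953307878491136)))) (N (nat_lit 139) (N (nat_lit 138) (L (nat_lit 287953307878491140)) (L (nat_lit 287953307878556671))) (N (nat_lit 140) (L (nat_lit 287953307878556672)) (L (nat_lit 287953307878556673))))) (N (nat_lit 146) (N (nat_lit 144) (N (nat_lit 143) (N (nat_lit 142) (L (nat_lit 287953307878556674)) (L (nat_lit 287953307878556675))) (L (nat_lit 287953307878556676))) (N (nat_lit 145) (L (nat_lit 287953307878687741)) (L (nat_lit 287953320763327488)))) (N (nat_lit 148) (N (nat_lit 147) (L (nat_lit 287953320763458559)) (L (nat_lit 288234757085398016))) (N (nat_lit 149) (L (nat_lit 288234761380103172)) (L (nat_lit 288234761380365312)))))))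
def pt2 : RA := N (nat_lit 188) (N (nat_lit 169) (N (nat_lit 160) (N (nat_lit 155) (N (nat_lit 153) (N (nat_lit 152) (N (nat_lit 151) (L (nat_lit 288234761380365313)) (L (nat_lit 288234761380365314))) (L (nat_lit 288234761380365315))) (N (nat_lit 154) (L (nat_lit 288234761380365316)) (L (nat_lit 288234761380365317)))) (N (nat_lit 158) (N (nat_lit 157) (N (nat_lit 156) (L (nat_lit 288234761380365319)) (L (nat_lit 288234769970234368))) (L (nat_lit 288234774264742917))) (N (nat_lit 159) (L (nat_lit 288234774264742919)) (L (nat_lit 288234774264808453))))) (N (nat_lit 165) (N (nat_lit 163) (N (nat_lit 162) (N (nat_lit 161) (L (nat_lit 288234774264808454)) (L (nat_lit 288234774264873986))) (L (nat_lit 288234774264873988))) (N (nat_lit 164) (L (nat_lit 288234774264873989)) (L (nat_lit 288234774264873992)))) (N (nat_lit 167) (N (nat_lit 166) (L (nat_lit 288234774264939521)) (L (nat_lit 288234774264939522))) (N (nat_lit 168) (L (nat_lit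 288234774264939523)) (L (nat_lit 288234774264939524)))))) (N (nat_lit 179) (N (nat_lit 174) (N (nat_lit 172) (N (nat_lit 171) (N (nat_lit 170) (L (nat_lit 288234774264939525)) (L (nat_lit 288234774264939526))) (L (nat_lit 288234774264939527))) (N (nat_lit 173) (L (nat_lit 288234774264939528)) (L (nat_lit 288234774265005056)))) (N (nat_lit 177) (N (nat_lit 176) (N (nat_lit 175) (L (nat_lit 288234774265005058)) (L (nat_lit 288234774265005059))) (L (nat_lit 288234774265005060))) (N (nat_lit 178) (L (nat_lit 288234774265005061)) (L (nat_lit 288234774265005062))))) (N (nat_lit 184) (N (nat_lit 182) (N (nat_lit 181) (N (nat_lit 180) (L (nat_lit 288234774265005063)) (L (nat_lit 288234774265070589))) (L (nat_lit 288234774265070591))) (N (nat_lit 183) (L (nat_lit 288234774265070593)) (L (nat_lit 288234774265070594)))) (N (nat_lit 186) (N (nat_lit 185) (L (nat_lit 288234774265070595)) (L (nat_lit 288234774265070597))) (N (nat_lit 187) (L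 (nat_lit 288234774265136125)) (L (nat_lit 288234774265136126))))))) (N (nat_lit 207) (N (nat_lit 198) (N (nat_lit 193) (N (nat_lit 191) (N (nat_lit 190) (N (nat_lit 189) (L (nat_lit 288234774265136127)) (L (nat_lit 288234774265136128))) (L (nat_lit 288234774265136129))) (N (nat_lit 192) (L (nat_lit 288234774265136130)) (L (nat_lit 288234774265136131)))) (N (nat_lit 196) (N (nat_lit 195) (N (nat_lit 194) (L (nat_lit 288234774265136132)) (L (nat_lit 288234774265201661))) (L (nat_lit 288234774265201663))) (N (nat_lit 197) (L (nat_lit 288234774265201664)) (L (nat_lit 288234774265201665))))) (N (nat_lit 203) (N (nat_lit 201) (N (nat_lit 200) (N (nat_lit 199) (L (nat_lit 288234774265201666)) (L (nat_lit 288234774265201667))) (L (nat_lit 288234774265201668))) (N (nat_lit 202) (L (nat_lit 288234774265201669)) (L (nat_lit 288234774265201670)))) (N (nat_lit 205) (N (nat_lit 204) (L (nat_lit 288234774265267196)) (L (nat_lit 288234774265267197)))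 (N (nat_lit 206) (L (nat_lit 288234774265267198)) (L (nat_lit 288234774265267199)))))) (N (nat_lit 216) (N (nat_lit 212) (N (nat_lit 210) (N (nat_lit 209) (N (nat_lit 208) (L (nat_lit 288234774265267200)) (L (nat_lit 288234774265267201))) (L (nat_lit 288234774265267202))) (N (nat_lit 211) (L (nat_lit 288234774265267203)) (L (nat_lit 288234774265267204)))) (N (nat_lit 214) (N (nat_lit 213) (L (nat_lit 288234774265332733)) (L (nat_lit 288234774265332735))) (N (nat_lit 215) (L (nat_lit 288234774265332737)) (L (nat_lit 288234774265332739))))) (N (nat_lit 221) (N (nat_lit 219) (N (nat_lit 218) (N (nat_lit 217) (L (nat_lit 288234774265332740)) (L (nat_lit 288234774265398269))) (L (nat_lit 288234774265398270))) (N (nat_lit 220) (L (nat_lit 288234774265398271)) (L (nat_lit 288234774265398273)))) (N (nat_lit 223) (N (nat_lit 222) (L (nat_lit 288234774265398275)) (L (nat_lit 288234774265398276))) (N (nat_lit 224) (L (nat_lit 288234774265463805))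 (L (nat_lit 288234774265463807)))))))
def pt3 : RA := N (nat_lit 262) (N (nat_lit 244) (N (nat_lit 235) (N (nat_lit 230) (N (nat_lit 228) (N (nat_lit 227) (N (nat_lit 226) (L (nat_lit 288234774265463811)) (L (nat_lit 288234774265463812))) (L (nat_lit 288234774265529343))) (N (nat_lit 229) (L (nat_lit 288234778560234496)) (L (nat_lit 288234782855136256)))) (N (nat_lit 233) (N (nat_lit 232) (N (nat_lit 231) (L (nat_lit 288234782855201790)) (L (nat_lit 288234782855398397))) (L (nat_lit 288234787149775873))) (N (nat_lit 234) (L (nat_lit 288234787149775876)) (L (nat_lit 288234787149841409))))) (N (nat_lit 240) (N (nat_lit 238) (N (nat_lit 237) (N (nat_lit 236) (L (nat_lit 288234787149841411)) (L (nat_lit 288234787149906945))) (L (nat_lit 288234787149906946))) (N (nat_lit 239) (L (nat_lit 288234787149972481)) (L (nat_lit 288234787150038016)))) (N (nat_lit 242) (N (nat_lit 241) (L (nat_lit 288234787150038017)) (L (nat_lit 288234787150038019)))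 (N (nat_lit 243) (L (nat_lit 288234787150103551)) (L (nat_lit 288234787150103553)))))) (N (nat_lit 253) (N (nat_lit 249) (N (nat_lit 247) (N (nat_lit 246) (N (nat_lit 245) (L (nat_lit 288234787150103554)) (L (nat_lit 288234787150169085))) (L (nat_lit 288234787150169086))) (N (nat_lit 248) (L (nat_lit 288234787150169087)) (L (nat_lit 288234787150169088)))) (N (nat_lit 251) (N (nat_lit 250) (L (nat_lit 288234787150169089)) (L (nat_lit 288234787150169090))) (N (nat_lit 252) (L (nat_lit 288234787150234624)) (L (nat_lit 288234787150300159))))) (N (nat_lit 258) (N (nat_lit 256) (N (nat_lit 255) (N (nat_lit 254) (L (nat_lit 288234787150365694)) (L (nat_lit 288234791445070848))) (L (nat_lit 288234800035070974))) (N (nat_lit 257) (L (nat_lit 288516227766813702)) (L (nat_lit 288516227767075849)))) (N (nat_lit 260) (N (nat_lit 259) (L (nat_lit 288516240651650053)) (L (nat_lit 288516240651715587))) (N (nat_lit 261) (L (nat_lit 288516240651846660))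 (L (nat_lit 288516240651977728))))))) (N (nat_lit 281) (N (nat_lit 272) (N (nat_lit 267) (N (nat_lit 265) (N (nat_lit 264) (N (nat_lit 263) (L (nat_lit 288516253536551938)) (L (nat_lit 288516253536748548))) (L (nat_lit 288516257831846912))) (N (nat_lit 266) (L (nat_lit 288516257831912446)) (L (nat_lit 288516262126814208)))) (N (nat_lit 270) (N (nat_lit 269) (N (nat_lit 268) (L (nat_lit 288797707038360583)) (L (nat_lit 288797707038557190))) (L (nat_lit 288797711333721088))) (N (nat_lit 271) (L (nat_lit 288797719923459075)) (L (nat_lit 288797732808164353))))) (N (nat_lit 277) (N (nat_lit 275) (N (nat_lit 274) (N (nat_lit 273) (L (nat_lit 288797732808295426)) (L (nat_lit 288797732808557568))) (L (nat_lit 288797745693262845))) (N (nat_lit 276) (L (nat_lit 289079186310038532)) (L (nat_lit 289079199195005952)))) (N (nat_lit 279) (N (nat_lit 278) (L (nat_lit 289079199195005953)) (L (nat_lit 289079199195005954))) (N (nat_lit 280) (L (nat_lit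 289079199195005955)) (L (nat_lit 289079199195005956)))))) (N (nat_lit 290) (N (nat_lit 286) (N (nat_lit 284) (N (nat_lit 283) (N (nat_lit 282) (L (nat_lit 289079199195005957)) (L (nat_lit 289079199195071493))) (L (nat_lit 289079199195202560))) (N (nat_lit 285) (L (nat_lit 289079199195202561)) (L (nat_lit 289079199195202562)))) (N (nat_lit 288) (N (nat_lit 287) (L (nat_lit 289079199195202563)) (L (nat_lit 289079199195202564))) (N (nat_lit 289) (L (nat_lit 289079199195202565)) (L (nat_lit 289079212079776768))))) (N (nat_lit 295) (N (nat_lit 293) (N (nat_lit 292) (N (nat_lit 291) (L (nat_lit 289079212079973375)) (L (nat_lit 289360665581782020))) (L (nat_lit 289360678466618371))) (N (nat_lit 294) (L (nat_lit 289360678466683905)) (L (nat_lit 289642131968361477)))) (N (nat_lit 297) (N (nat_lit 296) (L (nat_lit 289642144853394435)) (L (nat_lit 289642144853394438))) (N (nat_lit 298) (L (nat_lit 289923611240104965)) (L (nat_lit 290205077626815495)))))))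
def pt : RA := N (nat_lit 150) (N (nat_lit 75) (pt0) (pt1)) (N (nat_lit 225) (pt2) (pt3))
def nb0 : RA := N (nat_lit 17) (N (nat_lit 2) (N (nat_lit 1) (L (E (nat_lit 5) (nat_lit 0x1b60d606a834019e) (nat_lit 0))) (L (E (nat_lit 6) (nat_lit 0x40c16c0ae05681dc0cc) (nat_lit 0)))) (N (nat_lit 5) (N (nat_lit 3) (L (E (nat_lit 5) (nat_lit 0x20e0c906082e410a) (nat_lit 0))) (N (nat_lit 4) (L (E (nat_lit 0) (nat_lit 0x0) (nat_lit 0))) (L (E (nat_lit 0) (nat_lit 0x0) (nat_lit 0))))) (N (nat_lit 11) (N (nat_lit 8) (N (nat_lit 7) (N (nat_lit 6) (L (E (nat_lit 0) (nat_lit 0x0) (nat_lit 0))) (L (E (nat_lit 0) (nat_lit 0x0) (nat_lit 0)))) (L (E (nat_lit 0) (nat_lit 0x0) (nat_lit 0)))) (N (nat_lit 10) (N (nat_lit 9) (L (E (nat_lit 0) (nat_lit 0x0) (nat_lit 0))) (L (E (nat_lit 0) (nat_lit 0x0) (nat_lit 0)))) (L (E (nat_lit 0) (nat_lit 0x0) (nat_lit 0))))) (N (nat_lit 14) (N (nat_lit 13) (N (nat_lit 12) (L (E (nat_lit 0) (nat_lit 0x0) (nat_lit 0)))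 (L (E (nat_lit 0) (nat_lit 0x0) (nat_lit 0)))) (L (E (nat_lit 0) (nat_lit 0x0) (nat_lit 0)))) (N (nat_lit 16) (N (nat_lit 15) (L (E (nat_lit 0) (nat_lit 0x0) (nat_lit 0))) (L (E (nat_lit 0) (nat_lit 0x0) (nat_lit 0)))) (L (E (nat_lit 0) (nat_lit 0x0) (nat_lit 0)))))))) (N (nat_lit 38) (N (nat_lit 28) (N (nat_lit 23) (N (nat_lit 21) (N (nat_lit 19) (N (nat_lit 18) (L (E (nat_lit 0) (nat_lit 0x0) (nat_lit 0))) (L (E (nat_lit 0) (nat_lit 0x0) (nat_lit 0)))) (N (nat_lit 20) (L (E (nat_lit 0) (nat_lit 0x0) (nat_lit 0))) (L (E (nat_lit 0) (nat_lit 0x0) (nat_lit 0))))) (N (nat_lit 22) (L (E (nat_lit 0) (nat_lit 0x0) (nat_lit 0))) (L (E (nat_lit 1) (nat_lit 0x5a) (nat_lit 0))))) (N (nat_lit 26) (N (nat_lit 25) (N (nat_lit 24) (L (E (nat_lit 0) (nat_lit 0x0) (nat_lit 0))) (L (E (nat_lit 0) (nat_lit 0x0) (nat_lit 0)))) (L (E (nat_lit 0) (nat_lit 0x0) (nat_lit 0)))) (N (nat_lit 27) (L (E (nat_lit 0) (nat_lit 0x0) (nat_lit 0))) (L (E (nat_lit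 0) (nat_lit 0x0) (nat_lit 0)))))) (N (nat_lit 34) (N (nat_lit 31) (N (nat_lit 30) (N (nat_lit 29) (L (E (nat_lit 0) (nat_lit 0x0) (nat_lit 0))) (L (E (nat_lit 0) (nat_lit 0x0) (nat_lit 0)))) (L (E (nat_lit 0) (nat_lit 0x0) (nat_lit 0)))) (N (nat_lit 33) (N (nat_lit 32) (L (E (nat_lit 0) (nat_lit 0x0) (nat_lit 0))) (L (E (nat_lit 0) (nat_lit 0x0) (nat_lit 0)))) (L (E (nat_lit 0) (nat_lit 0x0) (nat_lit 0))))) (N (nat_lit 37) (N (nat_lit 36) (N (nat_lit 35) (L (E (nat_lit 0) (nat_lit 0x0) (nat_lit 0))) (L (E (nat_lit 0) (nat_lit 0x0) (nat_lit 0)))) (L (E (nat_lit 0) (nat_lit 0x0) (nat_lit 0)))) (L (E (nat_lit 2) (nat_lit 0x1ec0de) (nat_lit 0)))))) (N (nat_lit 48) (N (nat_lit 44) (N (nat_lit 41) (N (nat_lit 40) (N (nat_lit 39) (L (E (nat_lit 0) (nat_lit 0x0) (nat_lit 0))) (L (E (nat_lit 0) (nat_lit 0x0) (nat_lit 0)))) (L (E (nat_lit 0) (nat_lit 0x0) (nat_lit 0)))) (N (nat_lit 43) (N (nat_lit 42) (L (E (nat_lit 0) (nat_lit 0x0) (nat_lit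 0))) (L (E (nat_lit 0) (nat_lit 0x0) (nat_lit 0)))) (L (E (nat_lit 0) (nat_lit 0x0) (nat_lit 0))))) (N (nat_lit 47) (N (nat_lit 46) (N (nat_lit 45) (L (E (nat_lit 0) (nat_lit 0x0) (nat_lit 0))) (L (E (nat_lit 0) (nat_lit 0x0) (nat_lit 0)))) (L (E (nat_lit 0) (nat_lit 0x0) (nat_lit 0)))) (L (E (nat_lit 1) (nat_lit 0x52) (nat_lit 0))))) (N (nat_lit 51) (N (nat_lit 50) (N (nat_lit 49) (L (E (nat_lit 0) (nat_lit 0x0) (nat_lit 0))) (L (E (nat_lit 2) (nat_lit 0xdc064) (nat_lit 0)))) (L (E (nat_lit 3) (nat_lit 0x37013c062) (nat_lit 0)))) (N (nat_lit 53) (N (nat_lit 52) (L (E (nat_lit 0) (nat_lit 0x0) (nat_lit 0))) (L (E (nat_lit 0) (nat_lit 0x0) (nat_lit 0)))) (L (E (nat_lit 1) (nat_lit 0x102) (nat_lit 0)))))))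
def nb1 : RA := N (nat_lit 113) (N (nat_lit 102) (N (nat_lit 96) (N (nat_lit 93) (N (nat_lit 92) (N (nat_lit 91) (L (E (nat_lit 0) (nat_lit 0x0) (nat_lit 0))) (L (E (nat_lit 0) (nat_lit 0x0) (nat_lit 0)))) (L (E (nat_lit 0) (nat_lit 0x0) (nat_lit 0)))) (N (nat_lit 95) (N (nat_lit 94) (L (E (nat_lit 0) (nat_lit 0x0) (nat_lit 0))) (L (E (nat_lit 0) (nat_lit 0x0) (nat_lit 0)))) (L (E (nat_lit 0) (nat_lit 0x0) (nat_lit 0))))) (N (nat_lit 99) (N (nat_lit 98) (N (nat_lit 97) (L (E (nat_lit 0) (nat_lit 0x0) (nat_lit 0))) (L (E (nat_lit 0) (nat_lit 0x0) (nat_lit 0)))) (L (E (nat_lit 0) (nat_lit 0x0) (nat_lit 0)))) (N (nat_lit 101) (N (nat_lit 100) (L (E (nat_lit 0) (nat_lit 0x0) (nat_lit 0))) (L (E (nat_lit 0) (nat_lit 0x0) (nat_lit 0)))) (L (E (nat_lit 0) (nat_lit 0x0) (nat_lit 0)))))) (N (nat_lit 108) (N (nat_lit 105) (N (nat_lit 104) (N (nat_lit 103) (L (E (nat_lit 0) (nat_lit 0x0) (nat_lit 0))) (L (E (nat_lit 0) (nat_lit 0x0) (nat_lit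 0)))) (L (E (nat_lit 0) (nat_lit 0x0) (nat_lit 0)))) (N (nat_lit 107) (N (nat_lit 106) (L (E (nat_lit 0) (nat_lit 0x0) (nat_lit 0))) (L (E (nat_lit 0) (nat_lit 0x0) (nat_lit 0)))) (L (E (nat_lit 0) (nat_lit 0x0) (nat_lit 0))))) (N (nat_lit 111) (N (nat_lit 110) (N (nat_lit 109) (L (E (nat_lit 0) (nat_lit 0x0) (nat_lit 0))) (L (E (nat_lit 0) (nat_lit 0x0) (nat_lit 0)))) (L (E (nat_lit 0) (nat_lit 0x0) (nat_lit 0)))) (N (nat_lit 112) (L (E (nat_lit 0) (nat_lit 0x0) (nat_lit 0))) (L (E (nat_lit 0) (nat_lit 0x0) (nat_lit 0))))))) (N (nat_lit 124) (N (nat_lit 119) (N (nat_lit 116) (N (nat_lit 115) (N (nat_lit 114) (L (E (nat_lit 0) (nat_lit 0x0) (nat_lit 0))) (L (E (nat_lit 0) (nat_lit 0x0) (nat_lit 0)))) (L (E (nat_lit 0) (nat_lit 0x0) (nat_lit 0)))) (N (nat_lit 118) (N (nat_lit 117) (L (E (nat_lit 0) (nat_lit 0x0) (nat_lit 0))) (L (E (nat_lit 0) (nat_lit 0x0) (nat_lit 0)))) (L (E (nat_lit 0) (nat_lit 0x0) (nat_lit 0))))) (N (nat_lit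 122) (N (nat_lit 121) (N (nat_lit 120) (L (E (nat_lit 0) (nat_lit 0x0) (nat_lit 0))) (L (E (nat_lit 0) (nat_lit 0x0) (nat_lit 0)))) (L (E (nat_lit 0) (nat_lit 0x0) (nat_lit 0)))) (N (nat_lit 123) (L (E (nat_lit 0) (nat_lit 0x0) (nat_lit 0))) (L (E (nat_lit 0) (nat_lit 0x0) (nat_lit 0)))))) (N (nat_lit 129) (N (nat_lit 127) (N (nat_lit 126) (N (nat_lit 125) (L (E (nat_lit 0) (nat_lit 0x0) (nat_lit 0))) (L (E (nat_lit 0) (nat_lit 0x0) (nat_lit 0)))) (L (E (nat_lit 0) (nat_lit 0x0) (nat_lit 0)))) (N (nat_lit 128) (L (E (nat_lit 1) (nat_lit 0x1dc) (nat_lit 0))) (L (E (nat_lit 0) (nat_lit 0x0) (nat_lit 0))))) (N (nat_lit 132) (N (nat_lit 131) (N (nat_lit 130) (L (E (nat_lit 0) (nat_lit 0x0) (nat_lit 0))) (L (E (nat_lit 0) (nat_lit 0x0) (nat_lit 0)))) (L (E (nat_lit 0) (nat_lit 0x0) (nat_lit 0)))) (N (nat_lit 133) (L (E (nat_lit 0) (nat_lit 0x0) (nat_lit 0))) (L (E (nat_lit 0) (nat_lit 0x0) (nat_lit 0)))))))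
def nb2 : RA := N (nat_lit 154) (N (nat_lit 145) (N (nat_lit 139) (N (nat_lit 136) (N (nat_lit 135) (L (E (nat_lit 2) (nat_lit 0x3c4104) (nat_lit 0))) (L (E (nat_lit 0) (nat_lit 0x0) (nat_lit 0)))) (N (nat_lit 138) (N (nat_lit 137) (L (E (nat_lit 0) (nat_lit 0x0) (nat_lit 0))) (L (E (nat_lit 0) (nat_lit 0x0) (nat_lit 0)))) (L (E (nat_lit 0) (nat_lit 0x0) (nat_lit 0))))) (N (nat_lit 142) (N (nat_lit 141) (N (nat_lit 140) (L (E (nat_lit 0) (nat_lit 0x0) (nat_lit 0))) (L (E (nat_lit 0) (nat_lit 0x0) (nat_lit 0)))) (L (E (nat_lit 0) (nat_lit 0x0) (nat_lit 0)))) (N (nat_lit 144) (N (nat_lit 143) (L (E (nat_lit 0) (nat_lit 0x0) (nat_lit 0))) (L (E (nat_lit 0) (nat_lit 0x0) (nat_lit 0)))) (L (E (nat_lit 0) (nat_lit 0x0) (nat_lit 0)))))) (N (nat_lit 149) (N (nat_lit 147) (N (nat_lit 146) (L (E (nat_lit 0) (nat_lit 0x0) (nat_lit 0))) (L (E (nat_lit 1) (nat_lit 0x1f2) (nat_lit 0)))) (N (nat_lit 148) (L (E (nat_lit 0) (nat_lit 0x0) (nat_lit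 0))) (L (E (nat_lit 0) (nat_lit 0x0) (nat_lit 0))))) (N (nat_lit 151) (N (nat_lit 150) (L (E (nat_lit 2) (nat_lit 0x24c0ea) (nat_lit 0))) (L (E (nat_lit 0) (nat_lit 0x0) (nat_lit 0)))) (N (nat_lit 153) (N (nat_lit 152) (L (E (nat_lit 0) (nat_lit 0x0) (nat_lit 0))) (L (E (nat_lit 0) (nat_lit 0x0) (nat_lit 0)))) (L (E (nat_lit 0) (nat_lit 0x0) (nat_lit 0))))))) (N (nat_lit 166) (N (nat_lit 160) (N (nat_lit 157) (N (nat_lit 156) (N (nat_lit 155) (L (E (nat_lit 0) (nat_lit 0x0) (nat_lit 0))) (L (E (nat_lit 0) (nat_lit 0x0) (nat_lit 0)))) (L (E (nat_lit 0) (nat_lit 0x0) (nat_lit 0)))) (N (nat_lit 159) (N (nat_lit 158) (L (E (nat_lit 0) (nat_lit 0x0) (nat_lit 0))) (L (E (nat_lit 0) (nat_lit 0x0) (nat_lit 0)))) (L (E (nat_lit 0) (nat_lit 0x0) (nat_lit 0))))) (N (nat_lit 163) (N (nat_lit 162) (N (nat_lit 161) (L (E (nat_lit 0) (nat_lit 0x0) (nat_lit 0))) (L (E (nat_lit 0) (nat_lit 0x0) (nat_lit 0)))) (L (E (nat_lit 0) (nat_lit 0x0) (nat_lit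 0)))) (N (nat_lit 165) (N (nat_lit 164) (L (E (nat_lit 0) (nat_lit 0x0) (nat_lit 0))) (L (E (nat_lit 0) (nat_lit 0x0) (nat_lit 0)))) (L (E (nat_lit 0) (nat_lit 0x0) (nat_lit 0)))))) (N (nat_lit 171) (N (nat_lit 170) (N (nat_lit 168) (N (nat_lit 167) (L (E (nat_lit 0) (nat_lit 0x0) (nat_lit 0))) (L (E (nat_lit 0) (nat_lit 0x0) (nat_lit 0)))) (N (nat_lit 169) (L (E (nat_lit 0) (nat_lit 0x0) (nat_lit 0))) (L (E (nat_lit 0) (nat_lit 0x0) (nat_lit 0))))) (L (E (nat_lit 1) (nat_lit 0xf8) (nat_lit 0)))) (N (nat_lit 173) (N (nat_lit 172) (L (E (nat_lit 0) (nat_lit 0x0) (nat_lit 0))) (L (E (nat_lit 0) (nat_lit 0x0) (nat_lit 0)))) (N (nat_lit 174) (L (E (nat_lit 0) (nat_lit 0x0) (nat_lit 0))) (L (E (nat_lit 0) (nat_lit 0x0) (nat_lit 0)))))))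
def nb3 : RA := N (nat_lit 235) (N (nat_lit 224) (N (nat_lit 218) (N (nat_lit 215) (N (nat_lit 214) (N (nat_lit 213) (L (E (nat_lit 0) (nat_lit 0x0) (nat_lit 0))) (L (E (nat_lit 0) (nat_lit 0x0) (nat_lit 0)))) (L (E (nat_lit 0) (nat_lit 0x0) (nat_lit 0)))) (N (nat_lit 217) (N (nat_lit 216) (L (E (nat_lit 0) (nat_lit 0x0) (nat_lit 0))) (L (E (nat_lit 0) (nat_lit 0x0) (nat_lit 0)))) (L (E (nat_lit 0) (nat_lit 0x0) (nat_lit 0))))) (N (nat_lit 221) (N (nat_lit 220) (N (nat_lit 219) (L (E (nat_lit 0) (nat_lit 0x0) (nat_lit 0))) (L (E (nat_lit 0) (nat_lit 0x0) (nat_lit 0)))) (L (E (nat_lit 0) (nat_lit 0x0) (nat_lit 0)))) (N (nat_lit 223) (N (nat_lit 222) (L (E (nat_lit 0) (nat_lit 0x0) (nat_lit 0))) (L (E (nat_lit 0) (nat_lit 0x0) (nat_lit 0)))) (L (E (nat_lit 0) (nat_lit 0x0) (nat_lit 0)))))) (N (nat_lit 230) (N (nat_lit 227) (N (nat_lit 226) (N (nat_lit 225) (L (E (nat_lit 0) (nat_lit 0x0) (nat_lit 0))) (L (E (nat_lit 0) (nat_lit 0x0)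 (nat_lit 0)))) (L (E (nat_lit 0) (nat_lit 0x0) (nat_lit 0)))) (N (nat_lit 229) (N (nat_lit 228) (L (E (nat_lit 0) (nat_lit 0x0) (nat_lit 0))) (L (E (nat_lit 0) (nat_lit 0x0) (nat_lit 0)))) (L (E (nat_lit 0) (nat_lit 0x0) (nat_lit 0))))) (N (nat_lit 233) (N (nat_lit 232) (N (nat_lit 231) (L (E (nat_lit 0) (nat_lit 0x0) (nat_lit 0))) (L (E (nat_lit 0) (nat_lit 0x0) (nat_lit 0)))) (L (E (nat_lit 0) (nat_lit 0x0) (nat_lit 0)))) (N (nat_lit 234) (L (E (nat_lit 0) (nat_lit 0x0) (nat_lit 0))) (L (E (nat_lit 0) (nat_lit 0x0) (nat_lit 0))))))) (N (nat_lit 247) (N (nat_lit 241) (N (nat_lit 238) (N (nat_lit 237) (N (nat_lit 236) (L (E (nat_lit 0) (nat_lit 0x0) (nat_lit 0))) (L (E (nat_lit 0) (nat_lit 0x0) (nat_lit 0)))) (L (E (nat_lit 0) (nat_lit 0x0) (nat_lit 0)))) (N (nat_lit 240) (N (nat_lit 239) (L (E (nat_lit 0) (nat_lit 0x0) (nat_lit 0))) (L (E (nat_lit 0) (nat_lit 0x0) (nat_lit 0)))) (L (E (nat_lit 0) (nat_lit 0x0) (nat_lit 0)))))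 (N (nat_lit 244) (N (nat_lit 243) (N (nat_lit 242) (L (E (nat_lit 0) (nat_lit 0x0) (nat_lit 0))) (L (E (nat_lit 0) (nat_lit 0x0) (nat_lit 0)))) (L (E (nat_lit 0) (nat_lit 0x0) (nat_lit 0)))) (N (nat_lit 246) (N (nat_lit 245) (L (E (nat_lit 0) (nat_lit 0x0) (nat_lit 0))) (L (E (nat_lit 0) (nat_lit 0x0) (nat_lit 0)))) (L (E (nat_lit 0) (nat_lit 0x0) (nat_lit 0)))))) (N (nat_lit 252) (N (nat_lit 249) (N (nat_lit 248) (L (E (nat_lit 0) (nat_lit 0x0) (nat_lit 0))) (L (E (nat_lit 1) (nat_lit 0x118) (nat_lit 0)))) (N (nat_lit 251) (N (nat_lit 250) (L (E (nat_lit 0) (nat_lit 0x0) (nat_lit 0))) (L (E (nat_lit 0) (nat_lit 0x0) (nat_lit 0)))) (L (E (nat_lit 0) (nat_lit 0x0) (nat_lit 0))))) (N (nat_lit 255) (N (nat_lit 254) (N (nat_lit 253) (L (E (nat_lit 0) (nat_lit 0x0) (nat_lit 0))) (L (E (nat_lit 0) (nat_lit 0x0) (nat_lit 0)))) (L (E (nat_lit 0) (nat_lit 0x0) (nat_lit 0)))) (N (nat_lit 256) (L (E (nat_lit 0) (nat_lit 0x0) (nat_lit 0)))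 (L (E (nat_lit 0) (nat_lit 0x0) (nat_lit 0)))))))
def nb4 : RA := N (nat_lit 278) (N (nat_lit 267) (N (nat_lit 261) (N (nat_lit 259) (N (nat_lit 258) (L (E (nat_lit 0) (nat_lit 0x0) (nat_lit 0))) (L (E (nat_lit 1) (nat_lit 0xec) (nat_lit 0)))) (N (nat_lit 260) (L (E (nat_lit 0) (nat_lit 0x0) (nat_lit 0))) (L (E (nat_lit 1) (nat_lit 0x21c) (nat_lit 0))))) (N (nat_lit 264) (N (nat_lit 263) (N (nat_lit 262) (L (E (nat_lit 0) (nat_lit 0x0) (nat_lit 0))) (L (E (nat_lit 0) (nat_lit 0x0) (nat_lit 0)))) (L (E (nat_lit 0) (nat_lit 0x0) (nat_lit 0)))) (N (nat_lit 266) (N (nat_lit 265) (L (E (nat_lit 0) (nat_lit 0x0) (nat_lit 0))) (L (E (nat_lit 0) (nat_lit 0x0) (nat_lit 0)))) (L (E (nat_lit 0) (nat_lit 0x0) (nat_lit 0)))))) (N (nat_lit 273) (N (nat_lit 270) (N (nat_lit 269) (N (nat_lit 268) (L (E (nat_lit 0) (nat_lit 0x0) (nat_lit 0))) (L (E (nat_lit 0) (nat_lit 0x0) (nat_lit 0)))) (L (E (nat_lit 0) (nat_lit 0x0) (nat_lit 0)))) (N (nat_lit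 272) (N (nat_lit 271) (L (E (nat_lit 0) (nat_lit 0x0) (nat_lit 0))) (L (E (nat_lit 0) (nat_lit 0x0) (nat_lit 0)))) (L (E (nat_lit 0) (nat_lit 0x0) (nat_lit 0))))) (N (nat_lit 276) (N (nat_lit 275) (N (nat_lit 274) (L (E (nat_lit 0) (nat_lit 0x0) (nat_lit 0))) (L (E (nat_lit 0) (nat_lit 0x0) (nat_lit 0)))) (L (E (nat_lit 0) (nat_lit 0x0) (nat_lit 0)))) (N (nat_lit 277) (L (E (nat_lit 0) (nat_lit 0x0) (nat_lit 0))) (L (E (nat_lit 0) (nat_lit 0x0) (nat_lit 0))))))) (N (nat_lit 289) (N (nat_lit 284) (N (nat_lit 281) (N (nat_lit 280) (N (nat_lit 279) (L (E (nat_lit 0) (nat_lit 0x0) (nat_lit 0))) (L (E (nat_lit 0) (nat_lit 0x0) (nat_lit 0)))) (L (E (nat_lit 0) (nat_lit 0x0) (nat_lit 0)))) (N (nat_lit 283) (N (nat_lit 282) (L (E (nat_lit 0) (nat_lit 0x0) (nat_lit 0))) (L (E (nat_lit 0) (nat_lit 0x0) (nat_lit 0)))) (L (E (nat_lit 0) (nat_lit 0x0) (nat_lit 0))))) (N (nat_lit 287) (N (nat_lit 286) (N (nat_lit 285) (L (E (nat_lit 0) (nat_lit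 0x0) (nat_lit 0))) (L (E (nat_lit 0) (nat_lit 0x0) (nat_lit 0)))) (L (E (nat_lit 0) (nat_lit 0x0) (nat_lit 0)))) (N (nat_lit 288) (L (E (nat_lit 0) (nat_lit 0x0) (nat_lit 0))) (L (E (nat_lit 0) (nat_lit 0x0) (nat_lit 0)))))) (N (nat_lit 294) (N (nat_lit 292) (N (nat_lit 291) (N (nat_lit 290) (L (E (nat_lit 0) (nat_lit 0x0) (nat_lit 0))) (L (E (nat_lit 0) (nat_lit 0x0) (nat_lit 0)))) (L (E (nat_lit 1) (nat_lit 0x252) (nat_lit 0)))) (N (nat_lit 293) (L (E (nat_lit 0) (nat_lit 0x0) (nat_lit 0))) (L (E (nat_lit 0) (nat_lit 0x0) (nat_lit 0))))) (N (nat_lit 297) (N (nat_lit 296) (N (nat_lit 295) (L (E (nat_lit 0) (nat_lit 0x0) (nat_lit 0))) (L (E (nat_lit 0) (nat_lit 0x0) (nat_lit 0)))) (L (E (nat_lit 0) (nat_lit 0x0) (nat_lit 0)))) (N (nat_lit 298) (L (E (nat_lit 0) (nat_lit 0x0) (nat_lit 0))) (L (E (nat_lit 0) (nat_lit 0x0) (nat_lit 0)))))))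
def nb5 : RA := N (nat_lit 212) (N (nat_lit 175) (nb2) (N (nat_lit 197) (N (nat_lit 187) (N (nat_lit 182) (N (nat_lit 179) (N (nat_lit 177) (N (nat_lit 176) (L (E (nat_lit 0) (nat_lit 0x0) (nat_lit 0))) (L (E (nat_lit 0) (nat_lit 0x0) (nat_lit 0)))) (N (nat_lit 178) (L (E (nat_lit 0) (nat_lit 0x0) (nat_lit 0))) (L (E (nat_lit 0) (nat_lit 0x0) (nat_lit 0))))) (N (nat_lit 181) (N (nat_lit 180) (L (E (nat_lit 0) (nat_lit 0x0) (nat_lit 0))) (L (E (nat_lit 0) (nat_lit 0x0) (nat_lit 0)))) (L (E (nat_lit 0) (nat_lit 0x0) (nat_lit 0))))) (N (nat_lit 185) (N (nat_lit 184) (N (nat_lit 183) (L (E (nat_lit 0) (nat_lit 0x0) (nat_lit 0))) (L (E (nat_lit 0) (nat_lit 0x0) (nat_lit 0)))) (L (E (nat_lit 1) (nat_lit 0xfc) (nat_lit 0)))) (N (nat_lit 186) (L (E (nat_lit 0) (nat_lit 0x0) (nat_lit 0))) (L (E (nat_lit 0) (nat_lit 0x0) (nat_lit 0)))))) (N (nat_lit 193) (N (nat_lit 190) (N (nat_lit 189) (N (nat_lit 188) (L (E (nat_lit 0) (nat_lit 0x0) (nat_lit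 0))) (L (E (nat_lit 0) (nat_lit 0x0) (nat_lit 0)))) (L (E (nat_lit 0) (nat_lit 0x0) (nat_lit 0)))) (N (nat_lit 192) (N (nat_lit 191) (L (E (nat_lit 0) (nat_lit 0x0) (nat_lit 0))) (L (E (nat_lit 0) (nat_lit 0x0) (nat_lit 0)))) (L (E (nat_lit 0) (nat_lit 0x0) (nat_lit 0))))) (N (nat_lit 196) (N (nat_lit 195) (N (nat_lit 194) (L (E (nat_lit 0) (nat_lit 0x0) (nat_lit 0))) (L (E (nat_lit 0) (nat_lit 0x0) (nat_lit 0)))) (L (E (nat_lit 0) (nat_lit 0x0) (nat_lit 0)))) (L (E (nat_lit 3) (nat_lit 0x4e021c0f2) (nat_lit 0)))))) (N (nat_lit 206) (N (nat_lit 202) (N (nat_lit 200) (N (nat_lit 199) (N (nat_lit 198) (L (E (nat_lit 0) (nat_lit 0x0) (nat_lit 0))) (L (E (nat_lit 0) (nat_lit 0x0) (nat_lit 0)))) (L (E (nat_lit 0) (nat_lit 0x0) (nat_lit 0)))) (N (nat_lit 201) (L (E (nat_lit 0) (nat_lit 0x0) (nat_lit 0))) (L (E (nat_lit 0) (nat_lit 0x0) (nat_lit 0))))) (N (nat_lit 204) (N (nat_lit 203) (L (E (nat_lit 1) (nat_lit 0x112) (nat_lit 0))) (L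 (E (nat_lit 0) (nat_lit 0x0) (nat_lit 0)))) (N (nat_lit 205) (L (E (nat_lit 0) (nat_lit 0x0) (nat_lit 0))) (L (E (nat_lit 1) (nat_lit 0x20a) (nat_lit 0)))))) (N (nat_lit 210) (N (nat_lit 209) (N (nat_lit 208) (N (nat_lit 207) (L (E (nat_lit 0) (nat_lit 0x0) (nat_lit 0))) (L (E (nat_lit 0) (nat_lit 0x0) (nat_lit 0)))) (L (E (nat_lit 0) (nat_lit 0x0) (nat_lit 0)))) (L (E (nat_lit 1) (nat_lit 0x116) (nat_lit 0)))) (N (nat_lit 211) (L (E (nat_lit 0) (nat_lit 0x0) (nat_lit 0))) (L (E (nat_lit 3) (nat_lit 0x4681e00d4) (nat_lit 0)))))))) (N (nat_lit 257) (nb3) (nb4))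
def nb : RA := N (nat_lit 134) (N (nat_lit 54) (nb0) (N (nat_lit 90) (N (nat_lit 72) (N (nat_lit 63) (N (nat_lit 58) (N (nat_lit 56) (N (nat_lit 55) (L (E (nat_lit 0) (nat_lit 0x0) (nat_lit 0))) (L (E (nat_lit 6) (nat_lit 0x2100e206900c0048016) (nat_lit 0)))) (N (nat_lit 57) (L (E (nat_lit 0) (nat_lit 0x0) (nat_lit 0))) (L (E (nat_lit 1) (nat_lit 0x7e) (nat_lit 0))))) (N (nat_lit 61) (N (nat_lit 60) (N (nat_lit 59) (L (E (nat_lit 0) (nat_lit 0x0) (nat_lit 0))) (L (E (nat_lit 0) (nat_lit 0x0) (nat_lit 0)))) (L (E (nat_lit 0) (nat_lit 0x0) (nat_lit 0)))) (N (nat_lit 62) (L (E (nat_lit 0) (nat_lit 0x0) (nat_lit 0))) (L (E (nat_lit 0) (nat_lit 0x0) (nat_lit 0)))))) (N (nat_lit 69) (N (nat_lit 66) (N (nat_lit 65) (N (nat_lit 64) (L (E (nat_lit 0) (nat_lit 0x0) (nat_lit 0))) (L (E (nat_lit 0) (nat_lit 0x0) (nat_lit 0)))) (L (E (nat_lit 0) (nat_lit 0x0) (nat_lit 0)))) (N (nat_lit 68) (N (nat_lit 67) (L (E (nat_lit 0) (nat_lit 0x0) (nat_lit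 0))) (L (E (nat_lit 0) (nat_lit 0x0) (nat_lit 0)))) (L (E (nat_lit 0) (nat_lit 0x0) (nat_lit 0))))) (N (nat_lit 70) (L (E (nat_lit 1) (nat_lit 0x7c) (nat_lit 0))) (N (nat_lit 71) (L (E (nat_lit 1) (nat_lit 0x7c) (nat_lit 0))) (L (E (nat_lit 0) (nat_lit 0x0) (nat_lit 0))))))) (N (nat_lit 80) (N (nat_lit 75) (N (nat_lit 73) (L (E (nat_lit 2) (nat_lit 0x130080) (nat_lit 0))) (N (nat_lit 74) (L (E (nat_lit 0) (nat_lit 0x0) (nat_lit 0))) (L (E (nat_lit 0) (nat_lit 0x0) (nat_lit 0))))) (N (nat_lit 77) (N (nat_lit 76) (L (E (nat_lit 0) (nat_lit 0x0) (nat_lit 0))) (L (E (nat_lit 1) (nat_lit 0x90) (nat_lit 0)))) (N (nat_lit 79) (N (nat_lit 78) (L (E (nat_lit 0) (nat_lit 0x0) (nat_lit 0))) (L (E (nat_lit 0) (nat_lit 0x0) (nat_lit 0)))) (L (E (nat_lit 0) (nat_lit 0x0) (nat_lit 0)))))) (N (nat_lit 86) (N (nat_lit 84) (N (nat_lit 82) (N (nat_lit 81) (L (E (nat_lit 0) (nat_lit 0x0) (nat_lit 0))) (L (E (nat_lit 0) (nat_lit 0x0) (nat_lit 0))))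 (N (nat_lit 83) (L (E (nat_lit 0) (nat_lit 0x0) (nat_lit 0))) (L (E (nat_lit 0) (nat_lit 0x0) (nat_lit 0))))) (N (nat_lit 85) (L (E (nat_lit 0) (nat_lit 0x0) (nat_lit 0))) (L (E (nat_lit 2) (nat_lit 0x1cc0c6) (nat_lit 0))))) (N (nat_lit 89) (N (nat_lit 88) (N (nat_lit 87) (L (E (nat_lit 0) (nat_lit 0x0) (nat_lit 0))) (L (E (nat_lit 0) (nat_lit 0x0) (nat_lit 0)))) (L (E (nat_lit 0) (nat_lit 0x0) (nat_lit 0)))) (L (E (nat_lit 2) (nat_lit 0x1480a2) (nat_lit 0))))))) (nb1))) (nb5)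
def cl0 : RA := N (nat_lit 22) (N (nat_lit 13) (N (nat_lit 8) (N (nat_lit 4) (N (nat_lit 2) (N (nat_lit 1) (L (E (nat_lit 6) (nat_lit 0x43817e0690090014006) (nat_lit 0))) (L (E (nat_lit 6) (nat_lit 0x48c21c0bf034804800a) (nat_lit 0)))) (N (nat_lit 3) (L (E (nat_lit 6) (nat_lit 0x4902200ee038005c00c) (nat_lit 0))) (L (E (nat_lit 6) (nat_lit 0x3900f406800e003c00e) (nat_lit 0))))) (N (nat_lit 6) (N (nat_lit 5) (L (E (nat_lit 6) (nat_lit 0x49822610303b806c010) (nat_lit 0))) (L (E (nat_lit 6) (nat_lit 0x39c12006d00f804c014) (nat_lit 0)))) (N (nat_lit 7) (L (E (nat_lit 6) (nat_lit 0x4a023410704280e8018) (nat_lit 0))) (L (E (nat_lit 6) (nat_lit 0x4201ca0840358074020) (nat_lit 0)))))) (N (nat_lit 11) (N (nat_lit 10) (N (nat_lit 9) (L (E (nat_lit 6) (nat_lit 0x4241cc0870360078022) (nat_lit 0))) (L (E (nat_lit 6) (nat_lit 0x40012807703300a402a) (nat_lit 0)))) (L (E (nat_lit 6) (nat_lit 0x4041360780350120032) (nat_lit 0)))) (N (nat_lit 12)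 (L (E (nat_lit 6) (nat_lit 0x11c07e03801900ac04a) (nat_lit 0))) (L (E (nat_lit 6) (nat_lit 0x12008003901980b004c) (nat_lit 0)))))) (N (nat_lit 17) (N (nat_lit 15) (N (nat_lit 14) (L (E (nat_lit 6) (nat_lit 0x12c08c03e01b80c4054) (nat_lit 0))) (L (E (nat_lit 6) (nat_lit 0x13008e03f01c00c8056) (nat_lit 0)))) (N (nat_lit 16) (L (E (nat_lit 6) (nat_lit 0x13409404301d80d805c) (nat_lit 0))) (L (E (nat_lit 6) (nat_lit 0xd006603201880c005e) (nat_lit 0))))) (N (nat_lit 19) (N (nat_lit 18) (L (E (nat_lit 6) (nat_lit 0xd406803301900c4060) (nat_lit 0))) (L (E (nat_lit 6) (nat_lit 0xd805e0290120084040) (nat_lit 0)))) (N (nat_lit 21) (N (nat_lit 20) (L (E (nat_lit 6) (nat_lit 0x10007e03e01e80f0076) (nat_lit 0))) (L (E (nat_lit 6) (nat_lit 0xf406e032016009c044) (nat_lit 0)))) (L (E (nat_lit 6) (nat_lit 0x10808204001f80f807a) (nat_lit 0))))))) (N (nat_lit 34) (N (nat_lit 27) (N (nat_lit 24) (N (nat_lit 23) (L (E (nat_lit 6) (nat_lit 0xf807003301680a0046)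 (nat_lit 0))) (L (E (nat_lit 6) (nat_lit 0x1240900470230114088) (nat_lit 0)))) (N (nat_lit 25) (L (E (nat_lit 6) (nat_lit 0x13809604702000e806a) (nat_lit 0))) (N (nat_lit 26) (L (E (nat_lit 6) (nat_lit 0x42c2040a703d81bc0a0) (nat_lit 0))) (L (E (nat_lit 6) (nat_lit 0x1580aa05402981480a2) (nat_lit 0)))))) (N (nat_lit 31) (N (nat_lit 29) (N (nat_lit 28) (L (E (nat_lit 6) (nat_lit 0x1700b605a02c81600ae) (nat_lit 0))) (L (E (nat_lit 6) (nat_lit 0x4302080bf04201c40bc) (nat_lit 0)))) (N (nat_lit 30) (L (E (nat_lit 6) (nat_lit 0x1880c206002f81740ac) (nat_lit 0))) (L (E (nat_lit 6) (nat_lit 0x1d00bc0180058014008) (nat_lit 0))))) (N (nat_lit 32) (L (E (nat_lit 6) (nat_lit 0x23c11208604081f40f8) (nat_lit 0))) (N (nat_lit 33) (L (E (nat_lit 6) (nat_lit 0x20c10408104001fc0fc) (nat_lit 0))) (L (E (nat_lit 6) (nat_lit 0x23c11c08d046022c114) (nat_lit 0))))))) (N (nat_lit 38) (N (nat_lit 36) (N (nat_lit 35) (L (E (nat_lit 6) (nat_lit 0x24c0ea06500d003800e)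 (nat_lit 0))) (L (E (nat_lit 6) (nat_lit 0x26813209804b825812a) (nat_lit 0)))) (N (nat_lit 37) (L (E (nat_lit 6) (nat_lit 0x2e41620a9051827c13a) (nat_lit 0))) (L (E (nat_lit 6) (nat_lit 0x31817e0b70570298142) (nat_lit 0))))) (N (nat_lit 39) (L (E (nat_lit 6) (nat_lit 0x2b01560aa05482a014e) (nat_lit 0))) (L (E (nat_lit 6) (nat_lit 0x2cc1640b105802bc15c) (nat_lit 0))))))
def cl1 : RA := N (nat_lit 94) (N (nat_lit 84) (N (nat_lit 74) (N (nat_lit 69) (N (nat_lit 68) (N (nat_lit 67) (N (nat_lit 66) (L (E (nat_lit 6) (nat_lit 0x46423011708b0454228) (nat_lit 0))) (L (E (nat_lit 6) (nat_lit 0x48023e11e08e8470236) (nat_lit 0)))) (L (E (nat_lit 6) (nat_lit 0x48421e10605381d80c8) (nat_lit 0)))) (L (E (nat_lit 3) (nat_lit 0x63400a001) (nat_lit 0)))) (N (nat_lit 72) (N (nat_lit 71) (N (nat_lit 70) (L (E (nat_lit 3) (nat_lit 0x1fc0c605f) (nat_lit 0))) (L (E (nat_lit 3) (nat_lit 0x18c0be04f) (nat_lit 0)))) (L (E (nat_lit 3) (nat_lit 0x274136091)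 (nat_lit 0)))) (N (nat_lit 73) (L (E (nat_lit 3) (nat_lit 0x69400a001) (nat_lit 0))) (L (E (nat_lit 3) (nat_lit 0x22c0ca053) (nat_lit 0)))))) (N (nat_lit 78) (N (nat_lit 75) (L (E (nat_lit 3) (nat_lit 0x68c2fa005) (nat_lit 0))) (N (nat_lit 77) (N (nat_lit 76) (L (E (nat_lit 3) (nat_lit 0x8240de009) (nat_lit 0))) (L (E (nat_lit 3) (nat_lit 0x1dc0de04b) (nat_lit 0)))) (L (E (nat_lit 3) (nat_lit 0x93c41206f) (nat_lit 0))))) (N (nat_lit 80) (N (nat_lit 79) (L (E (nat_lit 3) (nat_lit 0x54c00a001) (nat_lit 0))) (L (E (nat_lit 3) (nat_lit 0x624156021) (nat_lit 0)))) (N (nat_lit 82) (N (nat_lit 81) (L (E (nat_lit 3) (nat_lit 0x66c16e023) (nat_lit 0))) (L (E (nat_lit 3) (nat_lit 0x6fc186027) (nat_lit 0)))) (N (nat_lit 83) (L (E (nat_lit 3) (nat_lit 0x88c3120ab) (nat_lit 0))) (L (E (nat_lit 3) (nat_lit 0x71c06600b) (nat_lit 0)))))))) (N (nat_lit 89) (N (nat_lit 86) (N (nat_lit 85) (L (E (nat_lit 3) (nat_lit 0x4ac0ca00f) (nat_lit 0))) (L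 (E (nat_lit 3) (nat_lit 0x644006001) (nat_lit 0)))) (N (nat_lit 87) (L (E (nat_lit 3) (nat_lit 0x68c28e003) (nat_lit 0))) (N (nat_lit 88) (L (E (nat_lit 3) (nat_lit 0x6f4346167) (nat_lit 0))) (L (E (nat_lit 3) (nat_lit 0x5d4006001) (nat_lit 0)))))) (N (nat_lit 92) (N (nat_lit 91) (N (nat_lit 90) (L (E (nat_lit 3) (nat_lit 0x2440ee065) (nat_lit 0))) (L (E (nat_lit 3) (nat_lit 0x594006001) (nat_lit 0)))) (L (E (nat_lit 3) (nat_lit 0x34403a01b) (nat_lit 0)))) (N (nat_lit 93) (L (E (nat_lit 3) (nat_lit 0x86c42a109) (nat_lit 0))) (L (E (nat_lit 3) (nat_lit 0x61c00a001) (nat_lit 0))))))) (N (nat_lit 108) (N (nat_lit 100) (N (nat_lit 97) (N (nat_lit 96) (N (nat_lit 95) (L (E (nat_lit 3) (nat_lit 0x6cc346171) (nat_lit 0))) (L (E (nat_lit 3) (nat_lit 0x52c00a001) (nat_lit 0)))) (L (E (nat_lit 3) (nat_lit 0x5ec00a001) (nat_lit 0)))) (N (nat_lit 98) (L (E (nat_lit 3) (nat_lit 0x55c00a003) (nat_lit 0))) (N (nat_lit 99) (L (E (nat_lit 3) (nat_lit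 0x24c0f206b) (nat_lit 0))) (L (E (nat_lit 3) (nat_lit 0x68c30a171) (nat_lit 0)))))) (N (nat_lit 104) (N (nat_lit 101) (L (E (nat_lit 3) (nat_lit 0x60400a001) (nat_lit 0))) (N (nat_lit 103) (N (nat_lit 102) (L (E (nat_lit 3) (nat_lit 0x7e43e21e5) (nat_lit 0))) (L (E (nat_lit 3) (nat_lit 0x7c43d21e5) (nat_lit 0)))) (L (E (nat_lit 3) (nat_lit 0x8bc2e2065) (nat_lit 0))))) (N (nat_lit 106) (N (nat_lit 105) (L (E (nat_lit 3) (nat_lit 0x68c26a08d) (nat_lit 0))) (L (E (nat_lit 3) (nat_lit 0x5fc00a001) (nat_lit 0)))) (N (nat_lit 107) (L (E (nat_lit 3) (nat_lit 0x6bc00a001) (nat_lit 0))) (L (E (nat_lit 3) (nat_lit 0x4ac0ca035) (nat_lit 0))))))) (N (nat_lit 118) (N (nat_lit 116) (N (nat_lit 112) (N (nat_lit 110) (N (nat_lit 109) (L (E (nat_lit 3) (nat_lit 0x62415603b) (nat_lit 0))) (L (E (nat_lit 3) (nat_lit 0x66c16e03d) (nat_lit 0)))) (N (nat_lit 111) (L (E (nat_lit 3) (nat_lit 0x6fc18603f) (nat_lit 0))) (L (E (nat_lit 3) (nat_lit 0x8443120ab)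 (nat_lit 0))))) (N (nat_lit 114) (N (nat_lit 113) (L (E (nat_lit 3) (nat_lit 0x84c3360b7) (nat_lit 0))) (L (E (nat_lit 3) (nat_lit 0x4ac0ca01f) (nat_lit 0)))) (N (nat_lit 115) (L (E (nat_lit 3) (nat_lit 0x724256065) (nat_lit 0))) (L (E (nat_lit 3) (nat_lit 0x7f43120ab) (nat_lit 0)))))) (N (nat_lit 117) (L (E (nat_lit 3) (nat_lit 0x68c2e216b) (nat_lit 0))) (L (E (nat_lit 3) (nat_lit 0x62c00a003) (nat_lit 0))))) (N (nat_lit 123) (N (nat_lit 121) (N (nat_lit 120) (N (nat_lit 119) (L (E (nat_lit 3) (nat_lit 0x6fc186015) (nat_lit 0))) (L (E (nat_lit 3) (nat_lit 0x53400a001) (nat_lit 0)))) (L (E (nat_lit 3) (nat_lit 0x24c0e6063) (nat_lit 0)))) (N (nat_lit 122) (L (E (nat_lit 3) (nat_lit 0x9140de007) (nat_lit 0))) (L (E (nat_lit 3) (nat_lit 0x68c2e213f) (nat_lit 0))))) (N (nat_lit 126) (N (nat_lit 125) (N (nat_lit 124) (L (E (nat_lit 3) (nat_lit 0x2640fa05f) (nat_lit 0))) (L (E (nat_lit 3) (nat_lit 0x80c3fe1a7) (nat_lit 0)))) (L (E (nat_lit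 2) (nat_lit 0x3e2065) (nat_lit 0)))) (N (nat_lit 127) (L (E (nat_lit 2) (nat_lit 0x45a143) (nat_lit 0))) (L (E (nat_lit 2) (nat_lit 0x462145) (nat_lit 0))))))))
def cl2 : RA := N (nat_lit 143) (N (nat_lit 135) (N (nat_lit 131) (N (nat_lit 130) (N (nat_lit 129) (L (E (nat_lit 2) (nat_lit 0x47a171) (nat_lit 0))) (L (E (nat_lit 2) (nat_lit 0xe2001) (nat_lit 0)))) (L (E (nat_lit 2) (nat_lit 0x82003) (nat_lit 0)))) (N (nat_lit 133) (N (nat_lit 132) (L (E (nat_lit 2) (nat_lit 0x11600d) (nat_lit 0))) (L (E (nat_lit 2) (nat_lit 0x2f2049) (nat_lit 0)))) (N (nat_lit 134) (L (E (nat_lit 2) (nat_lit 0x312057) (nat_lit 0))) (L (E (nat_lit 2) (nat_lit 0x32e05d) (nat_lit 0)))))) (N (nat_lit 138) (N (nat_lit 136) (L (E (nat_lit 2) (nat_lit 0x336061) (nat_lit 0))) (N (nat_lit 137) (L (E (nat_lit 2) (nat_lit 0x346069) (nat_lit 0))) (L (E (nat_lit 2) (nat_lit 0x372081) (nat_lit 0))))) (N (nat_lit 140) (N (nat_lit 139) (L (E (nat_lit 2) (nat_lit 0x37e089)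 (nat_lit 0))) (L (E (nat_lit 2) (nat_lit 0x38e097) (nat_lit 0)))) (N (nat_lit 142) (N (nat_lit 141) (L (E (nat_lit 2) (nat_lit 0x4561d1) (nat_lit 0))) (L (E (nat_lit 2) (nat_lit 0x3ee001) (nat_lit 0)))) (L (E (nat_lit 2) (nat_lit 0x3b2003) (nat_lit 0))))))) (N (nat_lit 155) (N (nat_lit 150) (N (nat_lit 146) (N (nat_lit 145) (N (nat_lit 144) (L (E (nat_lit 2) (nat_lit 0xb2037) (nat_lit 0))) (L (E (nat_lit 2) (nat_lit 0x14e053) (nat_lit 0)))) (L (E (nat_lit 2) (nat_lit 0x172063) (nat_lit 0)))) (N (nat_lit 148) (N (nat_lit 147) (L (E (nat_lit 2) (nat_lit 0x176065) (nat_lit 0))) (L (E (nat_lit 2) (nat_lit 0x18a095) (nat_lit 0)))) (N (nat_lit 149) (L (E (nat_lit 2) (nat_lit 0x24a115) (nat_lit 0))) (L (E (nat_lit 2) (nat_lit 0x34612f) (nat_lit 0)))))) (N (nat_lit 153) (N (nat_lit 152) (N (nat_lit 151) (L (E (nat_lit 2) (nat_lit 0x34e133) (nat_lit 0))) (L (E (nat_lit 2) (nat_lit 0x3a6145) (nat_lit 0)))) (L (E (nat_lit 2) (nat_lit 0x3da19b)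 (nat_lit 0)))) (N (nat_lit 154) (L (E (nat_lit 2) (nat_lit 0x3ea1a3) (nat_lit 0))) (L (E (nat_lit 2) (nat_lit 0x6602f) (nat_lit 0)))))) (N (nat_lit 162) (N (nat_lit 159) (N (nat_lit 157) (N (nat_lit 156) (L (E (nat_lit 2) (nat_lit 0x11a063) (nat_lit 0))) (L (E (nat_lit 2) (nat_lit 0x23a101) (nat_lit 0)))) (N (nat_lit 158) (L (E (nat_lit 2) (nat_lit 0x3e61dd) (nat_lit 0))) (L (E (nat_lit 2) (nat_lit 0x482233) (nat_lit 0))))) (N (nat_lit 161) (N (nat_lit 160) (L (E (nat_lit 2) (nat_lit 0x3ae06b) (nat_lit 0))) (L (E (nat_lit 2) (nat_lit 0x3c2091) (nat_lit 0)))) (L (E (nat_lit 2) (nat_lit 0x452189) (nat_lit 0))))) (N (nat_lit 165) (N (nat_lit 164) (N (nat_lit 163) (L (E (nat_lit 2) (nat_lit 0x4721b9) (nat_lit 0))) (L (E (nat_lit 2) (nat_lit 0x4a20fb) (nat_lit 0)))) (L (E (nat_lit 2) (nat_lit 0x486143) (nat_lit 0)))) (N (nat_lit 167) (N (nat_lit 166) (L (E (nat_lit 2) (nat_lit 0x47e091) (nat_lit 0))) (L (E (nat_lit 2) (nat_lit 0x4aa209)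 (nat_lit 0)))) (L (E (nat_lit 2) (nat_lit 0x1f6019) (nat_lit 0)))))))
def cl3 : RA := N (nat_lit 238) (N (nat_lit 226) (N (nat_lit 216) (N (nat_lit 210) (N (nat_lit 207) (N (nat_lit 206) (N (nat_lit 205) (L (E (nat_lit 2) (nat_lit 0x44e179) (nat_lit 0))) (L (E (nat_lit 2) (nat_lit 0x46a1f1) (nat_lit 0)))) (L (E (nat_lit 2) (nat_lit 0x15e063) (nat_lit 0)))) (N (nat_lit 208) (L (E (nat_lit 2) (nat_lit 0x24a11f) (nat_lit 0))) (N (nat_lit 209) (L (E (nat_lit 2) (nat_lit 0x32e12d) (nat_lit 0))) (L (E (nat_lit 2) (nat_lit 0x336131) (nat_lit 0)))))) (N (nat_lit 213) (N (nat_lit 211) (L (E (nat_lit 2) (nat_lit 0x346137) (nat_lit 0))) (N (nat_lit 212) (L (E (nat_lit 2) (nat_lit 0x3aa155) (nat_lit 0))) (L (E (nat_lit 2) (nat_lit 0x3b6167) (nat_lit 0))))) (N (nat_lit 215) (N (nat_lit 214) (L (E (nat_lit 2) (nat_lit 0x3be005) (nat_lit 0))) (L (E (nat_lit 2) (nat_lit 0x3ce195) (nat_lit 0)))) (L (E (nat_lit 2) (nat_lit 0x3d61a3) (nat_lit 0))))))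 (N (nat_lit 221) (N (nat_lit 218) (N (nat_lit 217) (L (E (nat_lit 2) (nat_lit 0x3de1a7) (nat_lit 0))) (L (E (nat_lit 2) (nat_lit 0x3f61c3) (nat_lit 0)))) (N (nat_lit 219) (L (E (nat_lit 2) (nat_lit 0x2ce0ad) (nat_lit 0))) (N (nat_lit 220) (L (E (nat_lit 2) (nat_lit 0x2e20b5) (nat_lit 0))) (L (E (nat_lit 2) (nat_lit 0x17e005) (nat_lit 0)))))) (N (nat_lit 223) (N (nat_lit 222) (L (E (nat_lit 2) (nat_lit 0x42e003) (nat_lit 0))) (L (E (nat_lit 2) (nat_lit 0x32a0e5) (nat_lit 0)))) (N (nat_lit 225) (N (nat_lit 224) (L (E (nat_lit 2) (nat_lit 0x3ba0e9) (nat_lit 0))) (L (E (nat_lit 2) (nat_lit 0x432189) (nat_lit 0)))) (L (E (nat_lit 2) (nat_lit 0x492225) (nat_lit 0))))))) (N (nat_lit 233) (N (nat_lit 230) (N (nat_lit 229) (N (nat_lit 228) (N (nat_lit 227) (L (E (nat_lit 3) (nat_lit 0x804022003) (nat_lit 0))) (L (E (nat_lit 3) (nat_lit 0x80c34e013) (nat_lit 0)))) (L (E (nat_lit 3) (nat_lit 0x7fc34e033) (nat_lit 0)))) (L (E (nat_lit 3) (nat_lit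 0x5bc00a001) (nat_lit 0)))) (N (nat_lit 232) (N (nat_lit 231) (L (E (nat_lit 3) (nat_lit 0x27410e065) (nat_lit 0))) (L (E (nat_lit 3) (nat_lit 0x714346195) (nat_lit 0)))) (L (E (nat_lit 3) (nat_lit 0x6ec00a001) (nat_lit 0))))) (N (nat_lit 235) (N (nat_lit 234) (L (E (nat_lit 3) (nat_lit 0x63c006001) (nat_lit 0))) (L (E (nat_lit 3) (nat_lit 0x68c2a2003) (nat_lit 0)))) (N (nat_lit 236) (L (E (nat_lit 3) (nat_lit 0x6c4346167) (nat_lit 0))) (N (nat_lit 237) (L (E (nat_lit 3) (nat_lit 0x5dc006001) (nat_lit 0))) (L (E (nat_lit 3) (nat_lit 0x1cc0a6051) (nat_lit 0)))))))) (N (nat_lit 249) (N (nat_lit 242) (N (nat_lit 240) (N (nat_lit 239) (L (E (nat_lit 3) (nat_lit 0x58400a001) (nat_lit 0))) (L (E (nat_lit 3) (nat_lit 0x5c429213d) (nat_lit 0)))) (N (nat_lit 241) (L (E (nat_lit 3) (nat_lit 0x274126065) (nat_lit 0))) (L (E (nat_lit 3) (nat_lit 0x57c00a001) (nat_lit 0))))) (N (nat_lit 244) (N (nat_lit 243) (L (E (nat_lit 3) (nat_lit 0x53c00a001)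 (nat_lit 0))) (L (E (nat_lit 3) (nat_lit 0x20c0c6053) (nat_lit 0)))) (N (nat_lit 246) (N (nat_lit 245) (L (E (nat_lit 3) (nat_lit 0x6d400a001) (nat_lit 0))) (L (E (nat_lit 3) (nat_lit 0x2440fe053) (nat_lit 0)))) (N (nat_lit 248) (N (nat_lit 247) (L (E (nat_lit 3) (nat_lit 0x26411a05f) (nat_lit 0))) (L (E (nat_lit 3) (nat_lit 0x2440fe05f) (nat_lit 0)))) (L (E (nat_lit 3) (nat_lit 0x2340a6047) (nat_lit 0))))))) (N (nat_lit 261) (N (nat_lit 253) (N (nat_lit 250) (L (E (nat_lit 3) (nat_lit 0x58c006001) (nat_lit 0))) (N (nat_lit 252) (N (nat_lit 251) (L (E (nat_lit 3) (nat_lit 0x68c332003) (nat_lit 0))) (L (E (nat_lit 3) (nat_lit 0x65c16602b) (nat_lit 0)))) (L (E (nat_lit 3) (nat_lit 0x4ac222065) (nat_lit 0))))) (N (nat_lit 257) (N (nat_lit 255) (N (nat_lit 254) (L (E (nat_lit 3) (nat_lit 0x6241ae0ab) (nat_lit 0))) (L (E (nat_lit 3) (nat_lit 0x66c1b20b7) (nat_lit 0)))) (N (nat_lit 256) (L (E (nat_lit 3) (nat_lit 0x6fc1b60c3) (nat_lit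 0))) (L (E (nat_lit 3) (nat_lit 0x72c3120ab) (nat_lit 0))))) (N (nat_lit 259) (N (nat_lit 258) (L (E (nat_lit 3) (nat_lit 0x7343360b7) (nat_lit 0))) (L (E (nat_lit 3) (nat_lit 0x73c37e0c3) (nat_lit 0)))) (N (nat_lit 260) (L (E (nat_lit 3) (nat_lit 0x4ac0ca039) (nat_lit 0))) (L (E (nat_lit 3) (nat_lit 0x4ac1ea065) (nat_lit 0))))))) (N (nat_lit 268) (N (nat_lit 265) (N (nat_lit 263) (N (nat_lit 262) (L (E (nat_lit 3) (nat_lit 0x18c0be045) (nat_lit 0))) (L (E (nat_lit 6) (nat_lit 0x12206402f8014006001) (nat_lit 0)))) (N (nat_lit 264) (L (E (nat_lit 7) (nat_lit 0x8083e20620090014006001) (nat_lit 0))) (L (E (nat_lit 5) (nat_lit 0x9102f8014006001) (nat_lit 0))))) (N (nat_lit 267) (N (nat_lit 266) (L (E (nat_lit 6) (nat_lit 0x12006202f0014006001) (nat_lit 0))) (L (E (nat_lit 8) (nat_lit 0x10107f81200620090014006001) (nat_lit 0)))) (L (E (nat_lit 4) (nat_lit 0x5b8014006001) (nat_lit 0))))) (N (nat_lit 271) (N (nat_lit 269) (L (E (nat_lit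 5) (nat_lit 0x6302f8014006001) (nat_lit 0))) (N (nat_lit 270) (L (E (nat_lit 6) (nat_lit 0x40409002f8014006001) (nat_lit 0))) (L (E (nat_lit 5) (nat_lit 0x23407d8014006001) (nat_lit 0))))) (N (nat_lit 273) (N (nat_lit 272) (L (E (nat_lit 5) (nat_lit 0x9002f8014006001) (nat_lit 0))) (L (E (nat_lit 7) (nat_lit 0x2980fc06402f0014006001) (nat_lit 0)))) (N (nat_lit 274) (L (E (nat_lit 4) (nat_lit 0x480014006001) (nat_lit 0))) (L (E (nat_lit 3) (nat_lit 0x14006001) (nat_lit 0)))))))))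
def cl4 : RA := N (nat_lit 128) (N (nat_lit 65) (N (nat_lit 40) (cl0) (N (nat_lit 52) (N (nat_lit 47) (N (nat_lit 44) (N (nat_lit 42) (N (nat_lit 41) (L (E (nat_lit 6) (nat_lit 0x3641a80cc06102e8168) (nat_lit 0))) (L (E (nat_lit 6) (nat_lit 0x3701ac0d006282f816c) (nat_lit 0)))) (N (nat_lit 43) (L (E (nat_lit 6) (nat_lit 0x2dc15e0a8051828013c) (nat_lit 0))) (L (E (nat_lit 6) (nat_lit 0x3041800bf05f02f4178) (nat_lit 0))))) (N (nat_lit 46) (N (nat_lit 45) (L (E (nat_lit 6) (nat_lit 0x3841ba0d7069031c180) (nat_lit 0))) (L (E (nat_lit 6) (nat_lit 0x3881bc0d80698320182) (nat_lit 0)))) (L (E (nat_lit 6) (nat_lit 0x38c1c00db06a8338186) (nat_lit 0))))) (N (nat_lit 49) (N (nat_lit 48) (L (E (nat_lit 6) (nat_lit 0x30c17a0b6057029c144) (nat_lit 0))) (L (E (nat_lit 6) (nat_lit 0x32018e0c60628310186) (nat_lit 0)))) (N (nat_lit 50) (L (E (nat_lit 6) (nat_lit 0x3281920c8063831818a) (nat_lit 0))) (N (nat_lit 51) (L (E (nat_lit 6) (nat_lit 0x31c1820b905902ac148)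 (nat_lit 0))) (L (E (nat_lit 6) (nat_lit 0x32c1840bb05a82b414a) (nat_lit 0))))))) (N (nat_lit 55) (N (nat_lit 54) (N (nat_lit 53) (L (E (nat_lit 6) (nat_lit 0x3341860bd05b02b814e) (nat_lit 0))) (L (E (nat_lit 6) (nat_lit 0x35419e0c505f82e0160) (nat_lit 0)))) (L (E (nat_lit 6) (nat_lit 0x3581a20c706082e4164) (nat_lit 0)))) (N (nat_lit 60) (N (nat_lit 57) (N (nat_lit 56) (L (E (nat_lit 6) (nat_lit 0x37c1b40d5067831417e) (nat_lit 0))) (L (E (nat_lit 6) (nat_lit 0x39011006e027805801a) (nat_lit 0)))) (N (nat_lit 59) (N (nat_lit 58) (L (E (nat_lit 6) (nat_lit 0x3cc1e00ee07603a81d0) (nat_lit 0))) (L (E (nat_lit 6) (nat_lit 0x3c81de0ee07683ac1d2) (nat_lit 0)))) (L (E (nat_lit 6) (nat_lit 0x3e81f20f807b83d81ea) (nat_lit 0))))) (N (nat_lit 62) (N (nat_lit 61) (L (E (nat_lit 6) (nat_lit 0x3f41f80fb07c83d01e2) (nat_lit 0))) (L (E (nat_lit 6) (nat_lit 0x3fc1240720240050012) (nat_lit 0)))) (N (nat_lit 64) (N (nat_lit 63) (L (E (nat_lit 6) (nat_lit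 0x43420a09c03c819c03a) (nat_lit 0))) (L (E (nat_lit 6) (nat_lit 0x4442140fe04881cc0c6) (nat_lit 0)))) (L (E (nat_lit 6) (nat_lit 0x4a82521270928488224) (nat_lit 0))))))))) (cl1)) (N (nat_lit 204) (N (nat_lit 168) (cl2) (N (nat_lit 188) (N (nat_lit 176) (N (nat_lit 172) (N (nat_lit 171) (N (nat_lit 169) (L (E (nat_lit 2) (nat_lit 0x52005) (nat_lit 0))) (N (nat_lit 170) (L (E (nat_lit 2) (nat_lit 0x41a063) (nat_lit 0))) (L (E (nat_lit 2) (nat_lit 0x46e121) (nat_lit 0))))) (L (E (nat_lit 2) (nat_lit 0x2b2005) (nat_lit 0)))) (N (nat_lit 174) (N (nat_lit 173) (L (E (nat_lit 2) (nat_lit 0x23a107) (nat_lit 0))) (L (E (nat_lit 2) (nat_lit 0x3821a3) (nat_lit 0)))) (N (nat_lit 175) (L (E (nat_lit 2) (nat_lit 0x476233) (nat_lit 0))) (L (E (nat_lit 2) (nat_lit 0xb2053) (nat_lit 0)))))) (N (nat_lit 181) (N (nat_lit 178) (N (nat_lit 177) (L (E (nat_lit 2) (nat_lit 0xca05f) (nat_lit 0))) (L (E (nat_lit 2) (nat_lit 0xd6065) (nat_lit 0)))) (N (nat_lit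 179) (L (E (nat_lit 2) (nat_lit 0x34619d) (nat_lit 0))) (N (nat_lit 180) (L (E (nat_lit 2) (nat_lit 0x352001) (nat_lit 0))) (L (E (nat_lit 2) (nat_lit 0x496209) (nat_lit 0)))))) (N (nat_lit 185) (N (nat_lit 183) (N (nat_lit 182) (L (E (nat_lit 2) (nat_lit 0xfe013) (nat_lit 0))) (L (E (nat_lit 2) (nat_lit 0x246085) (nat_lit 0)))) (N (nat_lit 184) (L (E (nat_lit 2) (nat_lit 0x2860c9) (nat_lit 0))) (L (E (nat_lit 2) (nat_lit 0x2d20cb) (nat_lit 0))))) (N (nat_lit 187) (N (nat_lit 186) (L (E (nat_lit 2) (nat_lit 0x442005) (nat_lit 0))) (L (E (nat_lit 2) (nat_lit 0x25204b) (nat_lit 0)))) (L (E (nat_lit 2) (nat_lit 0x142003) (nat_lit 0))))))) (N (nat_lit 198) (N (nat_lit 194) (N (nat_lit 191) (N (nat_lit 190) (N (nat_lit 189) (L (E (nat_lit 2) (nat_lit 0x2e20a9) (nat_lit 0))) (L (E (nat_lit 2) (nat_lit 0x2f20b1) (nat_lit 0)))) (L (E (nat_lit 2) (nat_lit 0x3120bd) (nat_lit 0)))) (N (nat_lit 193) (N (nat_lit 192) (L (E (nat_lit 2) (nat_lit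 0x3460c1) (nat_lit 0))) (L (E (nat_lit 2) (nat_lit 0x4120e1) (nat_lit 0)))) (L (E (nat_lit 2) (nat_lit 0x49a21f) (nat_lit 0))))) (N (nat_lit 196) (N (nat_lit 195) (L (E (nat_lit 2) (nat_lit 0x21a033) (nat_lit 0))) (L (E (nat_lit 2) (nat_lit 0x276043) (nat_lit 0)))) (N (nat_lit 197) (L (E (nat_lit 2) (nat_lit 0x28204d) (nat_lit 0))) (L (E (nat_lit 2) (nat_lit 0x28a055) (nat_lit 0)))))) (N (nat_lit 201) (N (nat_lit 199) (L (E (nat_lit 2) (nat_lit 0x2aa067) (nat_lit 0))) (N (nat_lit 200) (L (E (nat_lit 2) (nat_lit 0xda003) (nat_lit 0))) (L (E (nat_lit 2) (nat_lit 0x2ce075) (nat_lit 0))))) (N (nat_lit 202) (L (E (nat_lit 2) (nat_lit 0x2e207b) (nat_lit 0))) (N (nat_lit 203) (L (E (nat_lit 2) (nat_lit 0x11e005) (nat_lit 0))) (L (E (nat_lit 2) (nat_lit 0x40a0cf) (nat_lit 0))))))))) (cl3))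
def cl : RA := cl4
def nbl : List Nat := [nat_lit 0x6d83581aa0d006785, nat_lit 0x10305b02b815a07703306, nat_lit 0x8383241820b904285, nat_lit 0x0, nat_lit 0x0, nat_lit 0x0, nat_lit 0x0, nat_lit 0x0, nat_lit 0x0, nat_lit 0x0, nat_lit 0x0, nat_lit 0x0, nat_lit 0x0, nat_lit 0x0, nat_lit 0x0, nat_lit 0x0, nat_lit 0x0, nat_lit 0x0, nat_lit 0x0, nat_lit 0x0, nat_lit 0x0, nat_lit 0x0, nat_lit 0x1681, nat_lit 0x0, nat_lit 0x0, nat_lit 0x0, nat_lit 0x0, nat_lit 0x0, nat_lit 0x0, nat_lit 0x0, nat_lit 0x0, nat_lit 0x0, nat_lit 0x0, nat_lit 0x0, nat_lit 0x0, nat_lit 0x0, nat_lit 0x0, nat_lit 0x7b03782, nat_lit 0x0, nat_lit 0x0, nat_lit 0x0, nat_lit 0x0, nat_lit 0x0, nat_lit 0x0, nat_lit 0x0, nat_lit 0x0, nat_lit 0x0, nat_lit 0x1481, nat_lit 0x0, nat_lit 0x3701902, nat_lit 0xdc04f01883, nat_lit 0x0, nat_lit 0x0, nat_lit 0x4081, nat_lit 0x0, nat_lit 0x8403881a403001200586, nat_lit 0x0, nat_lit 0x1f81, nat_lit 0x0, nat_lit 0x0, nat_lit 0x0, nat_lit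 0x0, nat_lit 0x0, nat_lit 0x0, nat_lit 0x0, nat_lit 0x0, nat_lit 0x0, nat_lit 0x0, nat_lit 0x0, nat_lit 0x1f01, nat_lit 0x1f01, nat_lit 0x0, nat_lit 0x4c02002, nat_lit 0x0, nat_lit 0x0, nat_lit 0x0, nat_lit 0x2401, nat_lit 0x0, nat_lit 0x0, nat_lit 0x0, nat_lit 0x0, nat_lit 0x0, nat_lit 0x0, nat_lit 0x0, nat_lit 0x0, nat_lit 0x7303182, nat_lit 0x0, nat_lit 0x0, nat_lit 0x0, nat_lit 0x5202882, nat_lit 0x0, nat_lit 0x0, nat_lit 0x0, nat_lit 0x0, nat_lit 0x0, nat_lit 0x0, nat_lit 0x0, nat_lit 0x0, nat_lit 0x0, nat_lit 0x0, nat_lit 0x0, nat_lit 0x0, nat_lit 0x0, nat_lit 0x0, nat_lit 0x0, nat_lit 0x0, nat_lit 0x0, nat_lit 0x0, nat_lit 0x0, nat_lit 0x0, nat_lit 0x0, nat_lit 0x0, nat_lit 0x0, nat_lit 0x0, nat_lit 0x0, nat_lit 0x0, nat_lit 0x0, nat_lit 0x0, nat_lit 0x0, nat_lit 0x0, nat_lit 0x0, nat_lit 0x0, nat_lit 0x0, nat_lit 0x0, nat_lit 0x0, nat_lit 0x0, nat_lit 0x0, nat_lit 0x7701, nat_lit 0x0, nat_lit 0x0, nat_lit 0x0, nat_lit 0x0,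 nat_lit 0x0, nat_lit 0x0, nat_lit 0xf104102, nat_lit 0x0, nat_lit 0x0, nat_lit 0x0, nat_lit 0x0, nat_lit 0x0, nat_lit 0x0, nat_lit 0x0, nat_lit 0x0, nat_lit 0x0, nat_lit 0x0, nat_lit 0x0, nat_lit 0x7c81, nat_lit 0x0, nat_lit 0x0, nat_lit 0x9303a82, nat_lit 0x0, nat_lit 0x0, nat_lit 0x0, nat_lit 0x0, nat_lit 0x0, nat_lit 0x0, nat_lit 0x0, nat_lit 0x0, nat_lit 0x0, nat_lit 0x0, nat_lit 0x0, nat_lit 0x0, nat_lit 0x0, nat_lit 0x0, nat_lit 0x0, nat_lit 0x0, nat_lit 0x0, nat_lit 0x0, nat_lit 0x0, nat_lit 0x0, nat_lit 0x3e01, nat_lit 0x0, nat_lit 0x0, nat_lit 0x0, nat_lit 0x0, nat_lit 0x0, nat_lit 0x0, nat_lit 0x0, nat_lit 0x0, nat_lit 0x0, nat_lit 0x0, nat_lit 0x0, nat_lit 0x0, nat_lit 0x0, nat_lit 0x3f01, nat_lit 0x0, nat_lit 0x0, nat_lit 0x0, nat_lit 0x0, nat_lit 0x0, nat_lit 0x0, nat_lit 0x0, nat_lit 0x0, nat_lit 0x0, nat_lit 0x0, nat_lit 0x0, nat_lit 0x13808703c83, nat_lit 0x0, nat_lit 0x0, nat_lit 0x0, nat_lit 0x0, nat_lit 0x0,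 nat_lit 0x4481, nat_lit 0x0, nat_lit 0x0, nat_lit 0x8281, nat_lit 0x0, nat_lit 0x0, nat_lit 0x0, nat_lit 0x4581, nat_lit 0x0, nat_lit 0x11a07803503, nat_lit 0x0, nat_lit 0x0, nat_lit 0x0, nat_lit 0x0, nat_lit 0x0, nat_lit 0x0, nat_lit 0x0, nat_lit 0x0, nat_lit 0x0, nat_lit 0x0, nat_lit 0x0, nat_lit 0x0, nat_lit 0x0, nat_lit 0x0, nat_lit 0x0, nat_lit 0x0, nat_lit 0x0, nat_lit 0x0, nat_lit 0x0, nat_lit 0x0, nat_lit 0x0, nat_lit 0x0, nat_lit 0x0, nat_lit 0x0, nat_lit 0x0, nat_lit 0x0, nat_lit 0x0, nat_lit 0x0, nat_lit 0x0, nat_lit 0x0, nat_lit 0x0, nat_lit 0x0, nat_lit 0x0, nat_lit 0x0, nat_lit 0x0, nat_lit 0x0, nat_lit 0x4601, nat_lit 0x0, nat_lit 0x0, nat_lit 0x0, nat_lit 0x0, nat_lit 0x0, nat_lit 0x0, nat_lit 0x0, nat_lit 0x0, nat_lit 0x0, nat_lit 0x3b01, nat_lit 0x0, nat_lit 0x8701, nat_lit 0x0, nat_lit 0x0, nat_lit 0x0, nat_lit 0x0, nat_lit 0x0, nat_lit 0x0, nat_lit 0x0, nat_lit 0x0, nat_lit 0x0, nat_lit 0x0, nat_lit 0x0, nat_lit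 0x0, nat_lit 0x0, nat_lit 0x0, nat_lit 0x0, nat_lit 0x0, nat_lit 0x0, nat_lit 0x0, nat_lit 0x0, nat_lit 0x0, nat_lit 0x0, nat_lit 0x0, nat_lit 0x0, nat_lit 0x0, nat_lit 0x0, nat_lit 0x0, nat_lit 0x0, nat_lit 0x0, nat_lit 0x0, nat_lit 0x0, nat_lit 0x9481, nat_lit 0x0, nat_lit 0x0, nat_lit 0x0, nat_lit 0x0, nat_lit 0x0, nat_lit 0x0, nat_lit 0x0]
def apl : List Nat := [nat_lit 0x43817e0690090014006, nat_lit 0x48c21c0bf034804800a, nat_lit 0x4902200ee038005c00c, nat_lit 0x3900f406800e003c00e, nat_lit 0x49822610303b806c010, nat_lit 0x39c12006d00f804c014, nat_lit 0x4a023410704280e8018, nat_lit 0x4201ca0840358074020, nat_lit 0x4241cc0870360078022, nat_lit 0x40012807703300a402a, nat_lit 0x4041360780350120032, nat_lit 0x11c07e03801900ac04a, nat_lit 0x12008003901980b004c, nat_lit 0x12c08c03e01b80c4054, nat_lit 0x13008e03f01c00c8056, nat_lit 0x13409404301d80d805c, nat_lit 0xd006603201880c005e, nat_lit 0xd406803301900c4060, nat_lit 0x8004202401480bc06c,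 nat_lit 0x10007e03e01e80f0076, nat_lit 0x8804e02c01900dc07a, nat_lit 0x10808204001f80f807a, nat_lit 0x8c05002d01980e007c, nat_lit 0x1240900470230114088, nat_lit 0xd4074040023812c09c, nat_lit 0x42c2040a703d81bc0a0, nat_lit 0x1580aa05402981480a2, nat_lit 0x1700b605a02c81600ae, nat_lit 0x4302080bf04201c40bc, nat_lit 0x1580ba05f03001840c4, nat_lit 0x1000a00b00c01780e8, nat_lit 0x23c11208604081f40f8, nat_lit 0x20c10408104001fc0fc, nat_lit 0x23c11c08d046022c114, nat_lit 0x1c01c01a03281d4126, nat_lit 0x26813209804b825812a, nat_lit 0x2e41620a9051827c13a, nat_lit 0x31817e0b70570298142, nat_lit 0x2b01560aa05482a014e, nat_lit 0x2cc1640b105802bc15c, nat_lit 0x3641a80cc06102e8168, nat_lit 0x3701ac0d006282f816c, nat_lit 0x2781400a305402bc16e, nat_lit 0x3041800bf05f02f4178, nat_lit 0x3841ba0d7069031c180, nat_lit 0x3881bc0d80698320182, nat_lit 0x38c1c00db06a8338186, nat_lit 0x28814e0ae05b02f4186, nat_lit 0x32018e0c60628310186, nat_lit 0x3281920c8063831818a,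 nat_lit 0x2901560b205c830418e, nat_lit 0x29415a0b505d8308196, nat_lit 0x29c15c0b605e830c19a, nat_lit 0x2c01700bf062833c1aa, nat_lit 0x2c81720c106383441ac, nat_lit 0x2fc18a0cf06a83681be, nat_lit 0x3402c04f03702201c8, nat_lit 0x3cc1e00ee07603a81d0, nat_lit 0x3a41d60ed07703bc1e4, nat_lit 0x3e81f20f807b83d81ea, nat_lit 0x3c41e80f907d83f01fa, nat_lit 0x2402804803902481fe, nat_lit 0x740ce07904e041421a, nat_lit 0x18c0e609107f0428222, nat_lit 0x4a82521270928488224, nat_lit 0x46423011708b0454228, nat_lit 0x48023e11e08e8470236, nat_lit 0x1900ec0a7083043c242]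
theorem hpt : RA.all okp pt = true := by decide +kernel
theorem hN : chkN nb td1 pt nbl (nat_lit 0) = true := by decide +kernel
theorem hA : chkG cl (nat_lit 6) (apOK td1 pt (nat_lit 5)) apl (nat_lit 0) = true := by decide +kernel
def s0 : List Nat := [nat_lit 0x1400218d, nat_lit 0x1fc0be063, nat_lit 0x13c0be063, nat_lit 0x24413609d, nat_lit 0x400a1a5]
theorem hs0 : chkG cl (nat_lit 3) (l3OK td4 td7 td19 pt) s0 (nat_lit 68) = true := by decide +kernel
def s1 : List Nat := [nat_lit 0x194116053, nat_lit 0x68c00a17d, nat_lit 0x1bc412009, nat_lit 0x1bc096077, nat_lit 0x82449e06f]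
theorem hs1 : chkG cl (nat_lit 3) (l3OK td16 td7 td7 pt) s1 (nat_lit 73) = true := by decide +kernel
def s2 : List Nat := [nat_lit 0x42a6005]
theorem hs2 : chkG cl (nat_lit 3) (l3OK td9 td19 td31 pt) s2 (nat_lit 78) = true := by decide +kernel
def s3 : List Nat := [nat_lit 0x624156021, nat_lit 0x66c16e023, nat_lit 0x6fc186027, nat_lit 0x624156223, nat_lit 0x2c38e033, nat_lit 0x19425600f, nat_lit 0x644006001, nat_lit 0x51c346003, nat_lit 0x6f42ce1a3, nat_lit 0x5d4002003]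
theorem hs3 : chkG cl (nat_lit 3) (l3OK td21 td12 td27 pt) s3 (nat_lit 79) = true := by decide +kernel
def s4 : List Nat := [nat_lit 0x1940ee091]
theorem hs4 : chkG cl (nat_lit 3) (l3OK td31 td13 td12 pt) s4 (nat_lit 89) = true := by decide +kernel
def s5 : List Nat := [nat_lit 0x42ca003]
theorem hs5 : chkG cl (nat_lit 3) (l3OK td25 td21 td31 pt) s5 (nat_lit 90) = true := by decide +kernel
def s6 : List Nat := [nat_lit 0x34403a01b, nat_lit 0x42442a21b, nat_lit 0x430e005, nat_lit 0x68c2e21b3]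
theorem hs6 : chkG cl (nat_lit 3) (l3OK td31 td19 td7 pt) s6 (nat_lit 91) = true := by decide +kernel
def s7 : List Nat := [nat_lit 0x14296001]
theorem hs7 : chkG cl (nat_lit 3) (l3OK td31 td19 td37 pt) s7 (nat_lit 95) = true := by decide +kernel
def s8 : List Nat := [nat_lit 0x142f6001]
theorem hs8 : chkG cl (nat_lit 3) (l3OK td9 td19 td25 pt) s8 (nat_lit 96) = true := by decide +kernel
def s9 : List Nat := [nat_lit 0x14006157, nat_lit 0x1ac0f2093, nat_lit 0x5c430a1a3]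
theorem hs9 : chkG cl (nat_lit 3) (l3OK td31 td7 td28 pt) s9 (nat_lit 97) = true := by decide +kernel
def s10 : List Nat := [nat_lit 0x400a181]
theorem hs10 : chkG cl (nat_lit 3) (l3OK td4 td9 td19 pt) s10 (nat_lit 100) = true := by decide +kernel
def s11 : List Nat := [nat_lit 0x7c43f21e5, nat_lit 0x7c43d21e5, nat_lit 0x5c445e065, nat_lit 0x68c26a08d]
theorem hs11 : chkG cl (nat_lit 3) (l3OK td9 td3 td3 pt) s11 (nat_lit 101) = true := by decide +kernel
def s12 : List Nat := [nat_lit 0x400a17f, nat_lit 0x140021af]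
theorem hs12 : chkG cl (nat_lit 3) (l3OK td9 td7 td19 pt) s12 (nat_lit 105) = true := by decide +kernel
def s13 : List Nat := [nat_lit 0x4ac0ca035, nat_lit 0x62415603b, nat_lit 0x66c16e03d, nat_lit 0x6fc18603f, nat_lit 0x624156211, nat_lit 0x66c16e213, nat_lit 0x19425601f, nat_lit 0x1942561c9, nat_lit 0x2ac3121fd, nat_lit 0x68c2d6171]
theorem hs13 : chkG cl (nat_lit 3) (l3OK td16 td7 td27 pt) s13 (nat_lit 107) = true := by decide +kernel
def s14 : List Nat := [nat_lit 0x1400618b]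
theorem hs14 : chkG cl (nat_lit 3) (l3OK td9 td13 td28 pt) s14 (nat_lit 117) = true := by decide +kernel
def s15 : List Nat := [nat_lit 0x6fc186015, nat_lit 0x1429a001]
theorem hs15 : chkG cl (nat_lit 3) (l3OK td28 td19 td27 pt) s15 (nat_lit 118) = true := by decide +kernel
def s16 : List Nat := [nat_lit 0x24c0e6063]
theorem hs16 : chkG cl (nat_lit 3) (l3OK td7 td27 td7 pt) s16 (nat_lit 120) = true := by decide +kernel
def s17 : List Nat := [nat_lit 0x9140de007, nat_lit 0x4fc2e21a3, nat_lit 0x17c0fa099, nat_lit 0x7fc34e203]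
theorem hs17 : chkG cl (nat_lit 3) (l3OK td7 td37 td12 pt) s17 (nat_lit 121) = true := by decide +kernel
def s18 : List Nat := [nat_lit 0x3e2065, nat_lit 0x45a143, nat_lit 0x462145, nat_lit 0x47a171, nat_lit 0xe2001, nat_lit 0x82003, nat_lit 0x1a08b, nat_lit 0x92179, nat_lit 0xae189, nat_lit 0xba197, nat_lit 0xc219b, nat_lit 0xd21a3, nat_lit 0x1021b9, nat_lit 0x1121bf, nat_lit 0x12e1c7, nat_lit 0x3a222b, nat_lit 0x3ee001, nat_lit 0x3b2003, nat_lit 0xb2037, nat_lit 0x14e053, nat_lit 0x172063, nat_lit 0x176065, nat_lit 0x18a095, nat_lit 0x24a115, nat_lit 0x34612f, nat_lit 0x34e133, nat_lit 0x3a6145, nat_lit 0x3da19b, nat_lit 0x3ea1a3, nat_lit 0x6602f, nat_lit 0x11a063, nat_lit 0x23a101, nat_lit 0x3e61dd, nat_lit 0x482233, nat_lit 0xd61d7, nat_lit 0x1221e1, nat_lit 0x312229, nat_lit 0x372239, nat_lit 0x4a20fb, nat_lit 0x286243, nat_lit 0x47e091, nat_lit 0x4aa209, nat_lit 0x1f6019, nat_lit 0xa029, nat_lit 0x41a063, nat_lit 0x46e121,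 nat_lit 0x2b2005, nat_lit 0x20e11d, nat_lit 0x3461c1, nat_lit 0x46623b, nat_lit 0xb2053, nat_lit 0xca05f, nat_lit 0xd6065, nat_lit 0x34619d, nat_lit 0x21a9, nat_lit 0x41224b, nat_lit 0x2607f, nat_lit 0x10a123, nat_lit 0x192143, nat_lit 0x196169, nat_lit 0xa221, nat_lit 0x25204b, nat_lit 0x60a1, nat_lit 0x2e20a9, nat_lit 0x2f20b1, nat_lit 0x3120bd, nat_lit 0x3460c1, nat_lit 0x4120e1, nat_lit 0x49a21f, nat_lit 0x21a033, nat_lit 0x276043, nat_lit 0x28204d, nat_lit 0x28a055, nat_lit 0x2aa067, nat_lit 0x606d, nat_lit 0x2ce075, nat_lit 0x2e207b, nat_lit 0xa08f, nat_lit 0x40a0cf, nat_lit 0x44e179, nat_lit 0x46a1f1, nat_lit 0xc60af, nat_lit 0x23e125, nat_lit 0x25a197, nat_lit 0x26219b, nat_lit 0x26e1a3, nat_lit 0x2aa1d5, nat_lit 0x2ce1db, nat_lit 0xa1df, nat_lit 0x32a1e7, nat_lit 0x3461eb, nat_lit 0x34e1ef, nat_lit 0x3861fb, nat_lit 0x2ce0ad, nat_lit 0x2e20b5, nat_lit 0xa0bf, nat_lit 0x42e003, nat_lit 0x32a0e5, nat_lit 0x3ba0e9, nat_lit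 0x432189, nat_lit 0x492225]
theorem hs18 : chkG cl (nat_lit 2) (l2OK td9 pt) s18 (nat_lit 125) = true := by decide +kernel
def s19 : List Nat := [nat_lit 0x804022003, nat_lit 0x80c0261a7, nat_lit 0x69c3fe033]
theorem hs19 : chkG cl (nat_lit 3) (l3OK td7 td7 td12 pt) s19 (nat_lit 226) = true := by decide +kernel
def s20 : List Nat := [nat_lit 0x400a16f, nat_lit 0x2740ca087, nat_lit 0x714346195, nat_lit 0x140021bb]
theorem hs20 : chkG cl (nat_lit 3) (l3OK td13 td12 td19 pt) s20 (nat_lit 229) = true := by decide +kernel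
def s21 : List Nat := [nat_lit 0x63c006001, nat_lit 0x544346003, nat_lit 0x6c42ce1a3, nat_lit 0x5dc002003, nat_lit 0x1cc0a6051, nat_lit 0x14002161, nat_lit 0x5242e213d]
theorem hs21 : chkG cl (nat_lit 3) (l3OK td21 td7 td19 pt) s21 (nat_lit 233) = true := by decide +kernel
def s22 : List Nat := [nat_lit 0x24c0ca09d, nat_lit 0x1400215f]
theorem hs22 : chkG cl (nat_lit 3) (l3OK td19 td12 td19 pt) s22 (nat_lit 240) = true := by decide +kernel
def s23 : List Nat := [nat_lit 0x53c002005]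
theorem hs23 : chkG cl (nat_lit 3) (l3OK td19 td19 td27 pt) s23 (nat_lit 242) = true := by decide +kernel
def s24 : List Nat := [nat_lit 0x20c0c6053, nat_lit 0x140021b5, nat_lit 0x14c0fe091, nat_lit 0x17c11a099, nat_lit 0x17c0fe091]
theorem hs24 : chkG cl (nat_lit 3) (l3OK td3 td37 td19 pt) s24 (nat_lit 243) = true := by decide +kernel
def s25 : List Nat := [nat_lit 0x14c08e08d]
theorem hs25 : chkG cl (nat_lit 3) (l3OK td31 td21 td28 pt) s25 (nat_lit 248) = true := by decide +kernel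
def s26 : List Nat := [nat_lit 0x42c6003, nat_lit 0x68c332003]
theorem hs26 : chkG cl (nat_lit 3) (l3OK td16 td21 td25 pt) s26 (nat_lit 249) = true := by decide +kernel
def s27 : List Nat := [nat_lit 0x2cc056197, nat_lit 0x19422212b]
theorem hs27 : chkG cl (nat_lit 3) (l3OK td21 td27 td3 pt) s27 (nat_lit 251) = true := by decide +kernel
def s28 : List Nat := [nat_lit 0x2ac3120d7, nat_lit 0x2dc3360d9, nat_lit 0x30c37e0db, nat_lit 0x2ac3121cb, nat_lit 0x2dc3361cd, nat_lit 0x30c37e1cf, nat_lit 0x4ac0ca039, nat_lit 0x4ac0ca0f5, nat_lit 0x1140be063]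
theorem hs28 : chkG cl (nat_lit 3) (l3OK td4 td13 td27 pt) s28 (nat_lit 253) = true := by decide +kernel
def c0 : List Nat := [nat_lit 0x48000e03f4060863202a030d010807080b00c84048062a007031d007608e80f702bc06a862602000b, nat_lit 0x200000008000000002240c9007223480c20c6405c054a02a430d014c17a80180b0400a857a005029d016219080ac0b24048862a007431d001a16280a50ab402f00a2016c2b101a01a380d20cdc06f859e035432b00000ca00af0de403f01a200d026d003e1c4801c0a8400d86c201fc0c1007c074802807240700556000015401b21a780000698020019a03d40d7000003500f602fc000024203f006700441fe80c9092c01b847a011021901ce0fb8063128402f8062040033, nat_lit 0x9000ae06480c30c64055061a02180e1016419080920c5400f063a00f411d01ae189808202b407c81fe00400c, nat_lit 0x1000000040000000018818c80ba0a9405805d202ac30d015214a80a80bd40520602027c2fd010e07080550d4401185ba00702ed003416080170af400b053a0050369016619080ae0b24049862a0218081008206c801f0c74007858a029c2ad00ba158803e0474069068e034c2e301a819b80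d10dfc070859e035c32b01ac14980be0be4059051a02c437901541b280a50c2404a05aa02000d100e612e805b0e0402b06720084389003c150801d0d840070662023827d003213c8081030401b84c201f8111008007480df0dcc06e85e6035432f01c016980da0e3c0710556037828301b61a780e409dc03f82020210091007012c8050065403e825a01080cd008804c80720994022810a03d80a701f00658000019002c8162015c0d5017e08a80fc039c0780276006c0a1003009280f1046c05004d2004008d01ca12b800004a805a003a0274069012e01e80960e440060442001407100080f480e600ec082834602b403501a002d800000b0000011803c866, nat_lit 0x20000000800000000314319015818680a90bd400d858200602bd002e14e80b40c8405785920250315004018e80100b1403080a2034c34701aa19b80e20b3c06c065602c837900e01f480320f540110712007836100e21ec802b072406e069e033024b000009200310f7406707c600081f, nat_lit 0x2018c18c80ad0c3405505ea006029d016a19080950c54010863a036831300000c400d60cdc05d008a02740790134212800c06c40048732040810, nat_lit 0x62000002f000000100000004000000000000b6807a05c401e82ba031c319015c18680ac0a5405585ea029c301014417e80940a6404501c200982dd003e176801d0b0400c853a02d8321016216480960c54028028200b842d004418e8041047406a868e03582e301b618980e60a1c06085f202a0309012e16a804203d401802d202180ad01c017980d80cbc02702c203c0167018c07e8100025c000009403c840b000010200c502740310832001808900ce2428054064401f889a004005501ee05980510944064087e040840300f8036804a12640148042041c3c,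 nat_lit 0x800000020000000005c0324000018a0320319017c15280af0c3405605ea028c2fd0116070801e0b0400d857a006829d00301b480b70c840590592025c315004618e80130b14055855a01842b1008408e80d60d1c06b85c6037031301b019b80dd0a2c06a86fe03942cf01b619580c20be405a86f202100d100be1c0805a0ce4012871200882a100421b0804303d4043815a02140c1010408880e30dcc06f071e03982ab01be1a7800006980418202020412d008c06680fb035c029888200e826d009c0bc802c10c40238152040806700e402e80280ff405c802a000802700ae07e80fe04cc080812e02440f9002c08c80ff037c00000dc03000ed01e02098000082007c81e601984a900b024a804c0704060802202fc49d015409280f5045c085891e0000246021800780ee074c0448032024c489005a1dc810a124c066089600ac59, nat_lit 0x100000004007c2c1003815e80b30b2400a058a03982cf008a074806a12840330062041c0a, nat_lit 0x4000000100000000065063203002a5016218680ae0bd4055060202942fd0040160801d0af400e053a02e4321016816480990c54012863a00542c5015a15680630ac406c068e00001a201b2171800005c006d066e037c28b01ce16780dd0cac000032802dc379010c06880750fa401b87aa009c389004815080230d84043818201d83d901d015580000550070869e00001a6009006680360f7402f019200080c5000220380c60d2405206ba02043ed004c1ba8066014401c877a038838700ee1d2803a0ed4018039203f40d70000035002b009404907fa00d43f500de1d680d1092c0000248034c3e300000f8007a08a401f847a010446901da11d800007d40390402018820d01de10d8000043007703fe00000fe01a81e580a90fc405407a2034850,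 nat_lit 0x100000004000000000080b680cb0c64060854a02c830d015e17a80ab0c0405305fa02380e1005416e80210b0400f057a007429d00361b480ba0c8405a85920268315011a04080480364013063a00582c5015c15680640ac4022823a036434701b417180df0c4c0000310036c33700000cd00d80dfc074059e0374293018a17c80b90a340128542025427d004013c8085044401a82b2039837301c817980e90aac072850603ac277010c080808b0244024819a012c099009804280fd029c0300162015014100642168087034402982a201180f500680b4808a02b404401820148161020209980000260082012e000004a01fe0638103039c04b824a01f817100e808c80f8045c0000114010415d003808280f6102c07a02ce00000b200880ce80fa042c02c848a03d4157000005500c0010405e888a028c0750140210809c0fe4009035a003c39501a02158108084c068886e02cc5e, nat_lit 0x80000002000000000c20a9405805ea02b0301014e17e802b0b740110582007c2bd003c14e80b60b2404d862a0238081009206c80270c7400b858a02bc2ad00ca15880da0d1c06d85c603182f9017414680260a8404b04fa039c37301ca17980ea0aac07604ee0230091009a042800102f407f014e020014d01bc149802109e40730506021c1010094066806102c4026013204100e700000390000032c00000c8001c2d,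 nat_lit 0x400000010000000000002460000090019a18c80c30a9405a061a02c8295016217a80ad0c0405405fa0268299005816e80250bb4011858200802bd003e14e801d0da405e064202dc2c9013818a808f0204041876201280d9005018e80180b14058055a01982b1008e08e803505f4038878201b047d001205e80db0d1c06e05c6038431301ba19b80e20a2c076050e036837f01d416780e00cac06385f202ec28d01741bc80ae0c2404e85aa01e03e900c81c0805f0ce4029030200e83d500541c480270a8401306c2025c27d012223c8070114403c87b20248461012622c804903a401b82b200ec3cd01d01b980e60bcc06f065e038c38f01d615580e40d3c07684ee01bc471011a048808b02e4043025a00f83a900721ee804e021407f814e020414d003807e8001032c05c01da02a845d01281f0807f05d403001aa03583e701f209d80740ee4065026a00ac10d01b01d1810204ac04288aa01f818901a023380f4061c0398902018c475018002680a301f404d805200481b5001e1ce80cf11bc0860486019c6c]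
theorem t0 : chk cl nb (nat_lit 299) c0 (nat_lit 261) = true := by decide +kernel

end

end APL.P72

namespace APL.P73

open APL.RA renaming leaf → L, node → N
open APL renaming dec → E

noncomputable section

set_option maxRecDepth 100000

def pt : RA := N (nat_lit 10) (N (nat_lit 5) (N (nat_lit 3) (N (nat_lit 2) (N (nat_lit 1) (L (nat_lit 288234774265332736)) (L (nat_lit 288234774265463808))) (L (nat_lit 288234774265267202))) (N (nat_lit 4) (L (nat_lit 288234774264939525)) (L (nat_lit 288234774265005060)))) (N (nat_lit 8) (N (nat_lit 7) (N (nat_lit 6) (L (nat_lit 288234774265070595)) (L (nat_lit 288234774265136130))) (L (nat_lit 288234774265201665))) (N (nat_lit 9) (L (nat_lit 288234774265267200)) (L (nat_lit 288234774265332742))))) (N (nat_lit 15) (N (nat_lit 13) (N (nat_lit 12) (N (nat_lit 11) (L (nat_lit 288234774265398277)) (L (nat_lit 288234774265463812))) (L (nat_lit 288234774265529347))) (N (nat_lit 14) (L (nat_lit 288234774265594882))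 (L (nat_lit 288234774265660413)))) (N (nat_lit 18) (N (nat_lit 17) (N (nat_lit 16) (L (nat_lit 288234774265660414)) (L (nat_lit 288234774265660415))) (L (nat_lit 288234774265660416))) (N (nat_lit 19) (L (nat_lit 288234774265660417)) (L (nat_lit 288234774265660418)))))
def nb : RA := N (nat_lit 10) (N (nat_lit 5) (N (nat_lit 2) (N (nat_lit 1) (L (E (nat_lit 1) (nat_lit 0x10) (nat_lit 0))) (L (E (nat_lit 0) (nat_lit 0x0) (nat_lit 0)))) (N (nat_lit 4) (N (nat_lit 3) (L (E (nat_lit 0) (nat_lit 0x0) (nat_lit 0))) (L (E (nat_lit 0) (nat_lit 0x0) (nat_lit 0)))) (L (E (nat_lit 0) (nat_lit 0x0) (nat_lit 0))))) (N (nat_lit 8) (N (nat_lit 7) (N (nat_lit 6) (L (E (nat_lit 0) (nat_lit 0x0) (nat_lit 0))) (L (E (nat_lit 0) (nat_lit 0x0) (nat_lit 0)))) (L (E (nat_lit 0) (nat_lit 0x0) (nat_lit 0)))) (N (nat_lit 9) (L (E (nat_lit 0) (nat_lit 0x0) (nat_lit 0))) (L (E (nat_lit 0) (nat_lit 0x0) (nat_lit 0)))))) (N (nat_lit 15) (N (nat_lit 13) (N (nat_lit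 12) (N (nat_lit 11) (L (E (nat_lit 0) (nat_lit 0x0) (nat_lit 0))) (L (E (nat_lit 0) (nat_lit 0x0) (nat_lit 0)))) (L (E (nat_lit 0) (nat_lit 0x0) (nat_lit 0)))) (N (nat_lit 14) (L (E (nat_lit 0) (nat_lit 0x0) (nat_lit 0))) (L (E (nat_lit 0) (nat_lit 0x0) (nat_lit 0))))) (N (nat_lit 18) (N (nat_lit 17) (N (nat_lit 16) (L (E (nat_lit 0) (nat_lit 0x0) (nat_lit 0))) (L (E (nat_lit 0) (nat_lit 0x0) (nat_lit 0)))) (L (E (nat_lit 0) (nat_lit 0x0) (nat_lit 0)))) (N (nat_lit 19) (L (E (nat_lit 0) (nat_lit 0x0) (nat_lit 0))) (L (E (nat_lit 0) (nat_lit 0x0) (nat_lit 0))))))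
def cl : RA := N (nat_lit 9) (N (nat_lit 5) (N (nat_lit 3) (N (nat_lit 2) (N (nat_lit 1) (L (E (nat_lit 6) (nat_lit 0x2000e0060028010006) (nat_lit 0))) (L (E (nat_lit 6) (nat_lit 0x4c024011008003c01c) (nat_lit 0)))) (L (E (nat_lit 6) (nat_lit 0x4801a00c0058028012) (nat_lit 0)))) (N (nat_lit 4) (L (E (nat_lit 3) (nat_lit 0x34006001) (nat_lit 0))) (L (E (nat_lit 3) (nat_lit 0x7c006001) (nat_lit 0))))) (N (nat_lit 7) (N (nat_lit 6) (L (E (nat_lit 3) (nat_lit 0x9400a001) (nat_lit 0))) (L (E (nat_lit 3) (nat_lit 0x6c006001) (nat_lit 0)))) (N (nat_lit 8) (L (E (nat_lit 3) (nat_lit 0x1c00a001) (nat_lit 0))) (L (E (nat_lit 3) (nat_lit 0x7400a001) (nat_lit 0)))))) (N (nat_lit 13) (N (nat_lit 11) (N (nat_lit 10) (L (E (nat_lit 3) (nat_lit 0x8c006001) (nat_lit 0))) (L (E (nat_lit 3) (nat_lit 0x2400a001) (nat_lit 0)))) (N (nat_lit 12) (L (E (nat_lit 3) (nat_lit 0x5c01e005) (nat_lit 0))) (L (E (nat_lit 3) (nat_lit 0x8400a001) (nat_lit 0)))))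 (N (nat_lit 15) (N (nat_lit 14) (L (E (nat_lit 3) (nat_lit 0x54006001) (nat_lit 0))) (L (E (nat_lit 3) (nat_lit 0x2c006001) (nat_lit 0)))) (N (nat_lit 16) (L (E (nat_lit 3) (nat_lit 0x64006001) (nat_lit 0))) (N (nat_lit 17) (L (E (nat_lit 3) (nat_lit 0x9c026003) (nat_lit 0))) (L (E (nat_lit 3) (nat_lit 0x14006001) (nat_lit 0)))))))
def nbl : List Nat := [nat_lit 0x401, nat_lit 0x0, nat_lit 0x0, nat_lit 0x0, nat_lit 0x0, nat_lit 0x0, nat_lit 0x0, nat_lit 0x0, nat_lit 0x0, nat_lit 0x0, nat_lit 0x0, nat_lit 0x0, nat_lit 0x0, nat_lit 0x0, nat_lit 0x0, nat_lit 0x0, nat_lit 0x0, nat_lit 0x0, nat_lit 0x0, nat_lit 0x0]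
def apl : List Nat := [nat_lit 0xc008005003001c010, nat_lit 0x4c024011008003c01c, nat_lit 0x2401400b0060034024]
theorem hpt : RA.all okp pt = true := by decide +kernel
theorem hN : chkN nb td1 pt nbl (nat_lit 0) = true := by decide +kernel
theorem hA : chkG cl (nat_lit 6) (apOK td1 pt (nat_lit 5)) apl (nat_lit 0) = true := by decide +kernel
def s0 : List Nat := [nat_lit 0x34006001, nat_lit 0x7c002003]
theorem hs0 : chkG cl (nat_lit 3) (l3OK td4 td7 td19 pt) s0 (nat_lit 3) = true := by decide +kernel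
def s1 : List Nat := [nat_lit 0x1404a001]
theorem hs1 : chkG cl (nat_lit 3) (l3OK td31 td3 td31 pt) s1 (nat_lit 5) = true := by decide +kernel
def s2 : List Nat := [nat_lit 0x6c002003]
theorem hs2 : chkG cl (nat_lit 3) (l3OK td4 td12 td28 pt) s2 (nat_lit 6) = true := by decide +kernel
def s3 : List Nat := [nat_lit 0x14002007, nat_lit 0x400a01d]
theorem hs3 : chkG cl (nat_lit 3) (l3OK td31 td19 td3 pt) s3 (nat_lit 7) = true := by decide +kernel
def s4 : List Nat := [nat_lit 0x8c006001]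
theorem hs4 : chkG cl (nat_lit 3) (l3OK td4 td25 td9 pt) s4 (nat_lit 9) = true := by decide +kernel
def s5 : List Nat := [nat_lit 0x14002009]
theorem hs5 : chkG cl (nat_lit 3) (l3OK td21 td12 td3 pt) s5 (nat_lit 10) = true := by decide +kernel
def s6 : List Nat := [nat_lit 0x5c00a00f]
theorem hs6 : chkG cl (nat_lit 3) (l3OK td3 td37 td19 pt) s6 (nat_lit 11) = true := by decide +kernel
def s7 : List Nat := [nat_lit 0x14002021]
theorem hs7 : chkG cl (nat_lit 3) (l3OK td21 td27 td3 pt) s7 (nat_lit 12) = true := by decide +kernel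
def s8 : List Nat := [nat_lit 0x54002003]
theorem hs8 : chkG cl (nat_lit 3) (l3OK td4 td21 td31 pt) s8 (nat_lit 13) = true := by decide +kernel
def s9 : List Nat := [nat_lit 0x2c006001, nat_lit 0x64002003]
theorem hs9 : chkG cl (nat_lit 3) (l3OK td4 td13 td27 pt) s9 (nat_lit 14) = true := by decide +kernel
def s10 : List Nat := [nat_lit 0xc026027]
theorem hs10 : chkG cl (nat_lit 3) (l3OK td21 td19 td28 pt) s10 (nat_lit 16) = true := by decide +kernel
def c0 : List Nat := [nat_lit 0x3003d0016024800800e400200820034019001401a80070114001805200080150002018800900340030022004001f001e027800500b4000004a003811]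
theorem t0 : chk cl nb (nat_lit 20) c0 (nat_lit 16) = true := by decide +kernel

end

end APL.P73

namespace APL.P74

open APL.RA renaming leaf → L, node → N
open APL renaming dec → E

noncomputable section

set_option maxRecDepth 100000

def pt : RA := N (nat_lit 5) (N (nat_lit 3) (N (nat_lit 2) (N (nat_lit 1) (L (nat_lit 288234774265332736)) (L (nat_lit 288234774265594880))) (L (nat_lit 288234774265398273))) (N (nat_lit 4) (L (nat_lit 288234774265529340)) (L (nat_lit 288234774265529341)))) (N (nat_lit 7) (N (nat_lit 6) (L (nat_lit 288234774265529342)) (L (nat_lit 288234774265529343))) (N (nat_lit 8) (L (nat_lit 288234774265529344)) (L (nat_lit 288234774265529345))))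
def nb : RA := N (nat_lit 4) (N (nat_lit 2) (N (nat_lit 1) (L (E (nat_lit 0) (nat_lit 0x0) (nat_lit 0))) (L (E (nat_lit 1) (nat_lit 0x10) (nat_lit 0)))) (N (nat_lit 3) (L (E (nat_lit 0) (nat_lit 0x0) (nat_lit 0))) (L (E (nat_lit 0) (nat_lit 0x0) (nat_lit 0))))) (N (nat_lit 7) (N (nat_lit 6) (N (nat_lit 5) (L (E (nat_lit 0) (nat_lit 0x0) (nat_lit 0))) (L (E (nat_lit 0) (nat_lit 0x0) (nat_lit 0)))) (L (E (nat_lit 0) (nat_lit 0x0) (nat_lit 0)))) (N (nat_lit 8) (L (E (nat_lit 0) (nat_lit 0x0) (nat_lit 0))) (L (E (nat_lit 0) (nat_lit 0x0) (nat_lit 0)))))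
def cl : RA := N (nat_lit 3) (N (nat_lit 2) (N (nat_lit 1) (L (E (nat_lit 6) (nat_lit 0x2000e0060028010006) (nat_lit 0))) (L (E (nat_lit 3) (nat_lit 0x2400a001) (nat_lit 0)))) (L (E (nat_lit 3) (nat_lit 0x2c006001) (nat_lit 0)))) (N (nat_lit 5) (N (nat_lit 4) (L (E (nat_lit 3) (nat_lit 0x3c00a001) (nat_lit 0))) (L (E (nat_lit 3) (nat_lit 0x1c00a003) (nat_lit 0)))) (N (nat_lit 6) (L (E (nat_lit 3) (nat_lit 0x3400a001) (nat_lit 0))) (L (E (nat_lit 3) (nat_lit 0x14006001) (nat_lit 0)))))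
def nbl : List Nat := [nat_lit 0x0, nat_lit 0x401, nat_lit 0x0, nat_lit 0x0, nat_lit 0x0, nat_lit 0x0, nat_lit 0x0, nat_lit 0x0, nat_lit 0x0]
def apl : List Nat := [nat_lit 0x2000e0060028010006]
theorem hpt : RA.all okp pt = true := by decide +kernel
theorem hN : chkN nb td1 pt nbl (nat_lit 0) = true := by decide +kernel
theorem hA : chkG cl (nat_lit 6) (apOK td1 pt (nat_lit 5)) apl (nat_lit 0) = true := by decide +kernel
def s0 : List Nat := [nat_lit 0x14012001]
theorem hs0 : chkG cl (nat_lit 3) (l3OK td9 td3 td12 pt) s0 (nat_lit 1) = true := by decide +kernel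
def s1 : List Nat := [nat_lit 0x2c006001]
theorem hs1 : chkG cl (nat_lit 3) (l3OK td16 td7 td7 pt) s1 (nat_lit 2) = true := by decide +kernel
def s2 : List Nat := [nat_lit 0x1401e001]
theorem hs2 : chkG cl (nat_lit 3) (l3OK td9 td3 td3 pt) s2 (nat_lit 3) = true := by decide +kernel
def s3 : List Nat := [nat_lit 0x1400e003]
theorem hs3 : chkG cl (nat_lit 3) (l3OK td21 td7 td19 pt) s3 (nat_lit 4) = true := by decide +kernel
def s4 : List Nat := [nat_lit 0x401a005]
theorem hs4 : chkG cl (nat_lit 3) (l3OK td4 td3 td7 pt) s4 (nat_lit 5) = true := by decide +kernel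
def c0 : List Nat := [nat_lit 0x80020022000c015000400e80000064000801a001406]
theorem t0 : chk cl nb (nat_lit 9) c0 (nat_lit 5) = true := by decide +kernel

end

end APL.P74

namespace APL.P75

open APL.RA renaming leaf → L, node → N
open APL renaming dec → E

noncomputable section

set_option maxRecDepth 100000

def pt : RA := N (nat_lit 5) (N (nat_lit 3) (N (nat_lit 2) (N (nat_lit 1) (L (nat_lit 288234774265332736)) (L (nat_lit 288234774265463808))) (L (nat_lit 288234774265201669))) (N (nat_lit 4) (L (nat_lit 288234774265267200)) (L (nat_lit 288234774265267201)))) (N (nat_lit 7) (N (nat_lit 6) (L (nat_lit 288234774265267202)) (L (nat_lit 288234774265267203))) (N (nat_lit 8) (L (nat_lit 288234774265267204)) (L (nat_lit 288234774265267205))))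
def nb : RA := N (nat_lit 4) (N (nat_lit 2) (N (nat_lit 1) (L (E (nat_lit 2) (nat_lit 0x10006) (nat_lit 0))) (L (E (nat_lit 0) (nat_lit 0x0) (nat_lit 0)))) (N (nat_lit 3) (L (E (nat_lit 2) (nat_lit 0x2000e) (nat_lit 0))) (L (E (nat_lit 0) (nat_lit 0x0) (nat_lit 0))))) (N (nat_lit 7) (N (nat_lit 6) (N (nat_lit 5) (L (E (nat_lit 0) (nat_lit 0x0) (nat_lit 0))) (L (E (nat_lit 0) (nat_lit 0x0) (nat_lit 0)))) (L (E (nat_lit 0) (nat_lit 0x0) (nat_lit 0)))) (N (nat_lit 8) (L (E (nat_lit 0) (nat_lit 0x0) (nat_lit 0))) (L (E (nat_lit 0) (nat_lit 0x0) (nat_lit 0)))))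
def cl : RA := N (nat_lit 2) (N (nat_lit 1) (L (E (nat_lit 6) (nat_lit 0x2000e0060028010006) (nat_lit 0))) (L (E (nat_lit 3) (nat_lit 0x34006001) (nat_lit 0)))) (N (nat_lit 3) (L (E (nat_lit 3) (nat_lit 0x2c006001) (nat_lit 0))) (L (E (nat_lit 3) (nat_lit 0x14006001) (nat_lit 0))))
def nbl : List Nat := [nat_lit 0x400182, nat_lit 0x0, nat_lit 0x800382, nat_lit 0x0, nat_lit 0x0, nat_lit 0x0, nat_lit 0x0, nat_lit 0x0, nat_lit 0x0]
def apl : List Nat := [nat_lit 0x2000e0060028010006]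
theorem hpt : RA.all okp pt = true := by decide +kernel
theorem hN : chkN nb td1 pt nbl (nat_lit 0) = true := by decide +kernel
theorem hA : chkG cl (nat_lit 6) (apOK td1 pt (nat_lit 5)) apl (nat_lit 0) = true := by decide +kernel
def s0 : List Nat := [nat_lit 0x34006001]
theorem hs0 : chkG cl (nat_lit 3) (l3OK td4 td7 td9 pt) s0 (nat_lit 1) = true := by decide +kernel
def s1 : List Nat := [nat_lit 0x2c006001]
theorem hs1 : chkG cl (nat_lit 3) (l3OK td4 td3 td7 pt) s1 (nat_lit 2) = true := by decide +kernel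
def c0 : List Nat := [nat_lit 0x4000000000010064000002a000804]
theorem t0 : chk cl nb (nat_lit 9) c0 (nat_lit 2) = true := by decide +kernel

end

end APL.P75

namespace APL.P76

open APL.RA renaming leaf → L, node → N
open APL renaming dec → E

noncomputable section

set_option maxRecDepth 100000

def pt : RA := N (nat_lit 5) (N (nat_lit 3) (N (nat_lit 2) (N (nat_lit 1) (L (nat_lit 288234774265332736)) (L (nat_lit 288234774265463808))) (L (nat_lit 288234774265005060))) (N (nat_lit 4) (L (nat_lit 288234774265267200)) (L (nat_lit 288234774265267201)))) (N (nat_lit 7) (N (nat_lit 6) (L (nat_lit 288234774265267202)) (L (nat_lit 288234774265267203))) (N (nat_lit 8) (L (nat_lit 288234774265267204)) (L (nat_lit 288234774265267205))))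
def nb : RA := N (nat_lit 4) (N (nat_lit 2) (N (nat_lit 1) (L (E (nat_lit 2) (nat_lit 0x10006) (nat_lit 0))) (L (E (nat_lit 0) (nat_lit 0x0) (nat_lit 0)))) (N (nat_lit 3) (L (E (nat_lit 0) (nat_lit 0x0) (nat_lit 0))) (L (E (nat_lit 0) (nat_lit 0x0) (nat_lit 0))))) (N (nat_lit 7) (N (nat_lit 6) (N (nat_lit 5) (L (E (nat_lit 0) (nat_lit 0x0) (nat_lit 0))) (L (E (nat_lit 0) (nat_lit 0x0) (nat_lit 0)))) (L (E (nat_lit 0) (nat_lit 0x0) (nat_lit 0)))) (N (nat_lit 8) (L (E (nat_lit 0) (nat_lit 0x0) (nat_lit 0))) (L (E (nat_lit 0) (nat_lit 0x0) (nat_lit 0)))))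
def cl : RA := N (nat_lit 3) (N (nat_lit 2) (N (nat_lit 1) (L (E (nat_lit 6) (nat_lit 0x2000e0060028010006) (nat_lit 0))) (L (E (nat_lit 3) (nat_lit 0x34006001) (nat_lit 0)))) (L (E (nat_lit 3) (nat_lit 0x2c00a001) (nat_lit 0)))) (N (nat_lit 4) (L (E (nat_lit 3) (nat_lit 0x3c00a003) (nat_lit 0))) (N (nat_lit 5) (L (E (nat_lit 3) (nat_lit 0x44006001) (nat_lit 0))) (L (E (nat_lit 3) (nat_lit 0x14006001) (nat_lit 0)))))
def nbl : List Nat := [nat_lit 0x400182, nat_lit 0x0, nat_lit 0x0, nat_lit 0x0, nat_lit 0x0, nat_lit 0x0, nat_lit 0x0, nat_lit 0x0, nat_lit 0x0]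
def apl : List Nat := [nat_lit 0x2000e0060028010006]
theorem hpt : RA.all okp pt = true := by decide +kernel
theorem hN : chkN nb td1 pt nbl (nat_lit 0) = true := by decide +kernel
theorem hA : chkG cl (nat_lit 6) (apOK td1 pt (nat_lit 5)) apl (nat_lit 0) = true := by decide +kernel
def s0 : List Nat := [nat_lit 0x34006001]
theorem hs0 : chkG cl (nat_lit 3) (l3OK td4 td7 td9 pt) s0 (nat_lit 1) = true := by decide +kernel
def s1 : List Nat := [nat_lit 0x2c002005]
theorem hs1 : chkG cl (nat_lit 3) (l3OK td21 td12 td3 pt) s1 (nat_lit 2) = true := by decide +kernel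
def s2 : List Nat := [nat_lit 0xc00a00f]
theorem hs2 : chkG cl (nat_lit 3) (l3OK td16 td13 td37 pt) s2 (nat_lit 3) = true := by decide +kernel
def s3 : List Nat := [nat_lit 0x44002003]
theorem hs3 : chkG cl (nat_lit 3) (l3OK td4 td19 td21 pt) s3 (nat_lit 4) = true := by decide +kernel
def c0 : List Nat := [nat_lit 0x8015000600c80000084000803a001005]
theorem t0 : chk cl nb (nat_lit 9) c0 (nat_lit 4) = true := by decide +kernel

end

end APL.P76

namespace APL.P80

open APL.RA renaming leaf → L, node → N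
open APL renaming dec → E

noncomputable section

set_option maxRecDepth 100000

def pt : RA := N (nat_lit 5) (N (nat_lit 3) (N (nat_lit 2) (N (nat_lit 1) (L (nat_lit 288234774265332736)) (L (nat_lit 288234774265463808))) (L (nat_lit 288234774265136129))) (N (nat_lit 4) (L (nat_lit 288234774264939525)) (L (nat_lit 288234774265005060)))) (N (nat_lit 7) (N (nat_lit 6) (L (nat_lit 288234774265070595)) (L (nat_lit 288234774265136130))) (N (nat_lit 8) (L (nat_lit 288234774265201665)) (L (nat_lit 288234774265267200))))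
def nb : RA := N (nat_lit 4) (N (nat_lit 2) (N (nat_lit 1) (L (E (nat_lit 1) (nat_lit 0x10) (nat_lit 0))) (L (E (nat_lit 0) (nat_lit 0x0) (nat_lit 0)))) (N (nat_lit 3) (L (E (nat_lit 1) (nat_lit 0xe) (nat_lit 0))) (L (E (nat_lit 0) (nat_lit 0x0) (nat_lit 0))))) (N (nat_lit 7) (N (nat_lit 6) (N (nat_lit 5) (L (E (nat_lit 0) (nat_lit 0x0) (nat_lit 0))) (L (E (nat_lit 0) (nat_lit 0x0) (nat_lit 0)))) (L (E (nat_lit 0) (nat_lit 0x0) (nat_lit 0)))) (N (nat_lit 8) (L (E (nat_lit 0) (nat_lit 0x0) (nat_lit 0))) (L (E (nat_lit 0) (nat_lit 0x0) (nat_lit 0)))))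
def cl : RA := N (nat_lit 3) (N (nat_lit 2) (N (nat_lit 1) (L (E (nat_lit 6) (nat_lit 0x2000e0060028010006) (nat_lit 0))) (L (E (nat_lit 3) (nat_lit 0x34006001) (nat_lit 0)))) (L (E (nat_lit 3) (nat_lit 0x1c00a001) (nat_lit 0)))) (N (nat_lit 4) (L (E (nat_lit 3) (nat_lit 0x2c006001) (nat_lit 0))) (N (nat_lit 5) (L (E (nat_lit 3) (nat_lit 0x24006001) (nat_lit 0))) (L (E (nat_lit 3) (nat_lit 0x14006001) (nat_lit 0)))))
def nbl : List Nat := [nat_lit 0x401, nat_lit 0x0, nat_lit 0x381, nat_lit 0x0, nat_lit 0x0, nat_lit 0x0, nat_lit 0x0, nat_lit 0x0, nat_lit 0x0]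
def apl : List Nat := [nat_lit 0xc008005003001c010]
theorem hpt : RA.all okp pt = true := by decide +kernel
theorem hN : chkN nb td1 pt nbl (nat_lit 0) = true := by decide +kernel
theorem hA : chkG cl (nat_lit 6) (apOK td1 pt (nat_lit 5)) apl (nat_lit 0) = true := by decide +kernel
def s0 : List Nat := [nat_lit 0x34006001]
theorem hs0 : chkG cl (nat_lit 3) (l3OK td4 td7 td19 pt) s0 (nat_lit 1) = true := by decide +kernel
def s1 : List Nat := [nat_lit 0x1400e001]
theorem hs1 : chkG cl (nat_lit 3) (l3OK td31 td7 td13 pt) s1 (nat_lit 2) = true := by decide +kernel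
def s2 : List Nat := [nat_lit 0x2c006001]
theorem hs2 : chkG cl (nat_lit 3) (l3OK td4 td13 td27 pt) s2 (nat_lit 3) = true := by decide +kernel
def s3 : List Nat := [nat_lit 0x24006001]
theorem hs3 : chkG cl (nat_lit 3) (l3OK td4 td21 td37 pt) s3 (nat_lit 4) = true := by decide +kernel
def c0 : List Nat := [nat_lit 0x100000000000c019000200a80000044001001a001006]
theorem t0 : chk cl nb (nat_lit 9) c0 (nat_lit 4) = true := by decide +kernel

end

end APL.P80

namespace APL.P81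

open APL.RA renaming leaf → L, node → N
open APL renaming dec → E

noncomputable section

set_option maxRecDepth 100000

def pt : RA := N (nat_lit 10) (N (nat_lit 5) (N (nat_lit 3) (N (nat_lit 2) (N (nat_lit 1) (L (nat_lit 288234774265332736)) (L (nat_lit 288234774265201665))) (L (nat_lit 288234774265463811))) (N (nat_lit 4) (L (nat_lit 288234774265201668)) (L (nat_lit 288234774265267201)))) (N (nat_lit 8) (N (nat_lit 7) (N (nat_lit 6) (L (nat_lit 288234774265267203)) (L (nat_lit 288234774265332737))) (L (nat_lit 288234774265332738))) (N (nat_lit 9) (L (nat_lit 288234774265398271)) (L (nat_lit 288234774265398272))))) (N (nat_lit 15) (N (nat_lit 13) (N (nat_lit 12) (N (nat_lit 11) (L (nat_lit 288234774265398273)) (L (nat_lit 288234774265398274))) (L (nat_lit 288234774265398275))) (N (nat_lit 14) (L (nat_lit 288234774265398276)) (L (nat_lit 288234774265463808)))) (N (nat_lit 17) (N (nat_lit 16) (L (nat_lit 288234774265463809)) (L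 (nat_lit 288234774265529343))) (N (nat_lit 18) (L (nat_lit 288234774265529345)) (L (nat_lit 288234774265594881)))))
def nb : RA := N (nat_lit 9) (N (nat_lit 4) (N (nat_lit 2) (N (nat_lit 1) (L (E (nat_lit 4) (nat_lit 0x90040018008) (nat_lit 0))) (L (E (nat_lit 0) (nat_lit 0x0) (nat_lit 0)))) (N (nat_lit 3) (L (E (nat_lit 1) (nat_lit 0x18) (nat_lit 0))) (L (E (nat_lit 0) (nat_lit 0x0) (nat_lit 0))))) (N (nat_lit 7) (N (nat_lit 6) (N (nat_lit 5) (L (E (nat_lit 0) (nat_lit 0x0) (nat_lit 0))) (L (E (nat_lit 0) (nat_lit 0x0) (nat_lit 0)))) (L (E (nat_lit 0) (nat_lit 0x0) (nat_lit 0)))) (N (nat_lit 8) (L (E (nat_lit 0) (nat_lit 0x0) (nat_lit 0))) (L (E (nat_lit 0) (nat_lit 0x0) (nat_lit 0)))))) (N (nat_lit 14) (N (nat_lit 12) (N (nat_lit 11) (N (nat_lit 10) (L (E (nat_lit 0) (nat_lit 0x0) (nat_lit 0))) (L (E (nat_lit 0) (nat_lit 0x0) (nat_lit 0)))) (L (E (nat_lit 0) (nat_lit 0x0) (nat_lit 0)))) (N (nat_lit 13) (L (E (nat_lit 0) (nat_lit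 0x0) (nat_lit 0))) (L (E (nat_lit 0) (nat_lit 0x0) (nat_lit 0))))) (N (nat_lit 17) (N (nat_lit 16) (N (nat_lit 15) (L (E (nat_lit 0) (nat_lit 0x0) (nat_lit 0))) (L (E (nat_lit 0) (nat_lit 0x0) (nat_lit 0)))) (L (E (nat_lit 0) (nat_lit 0x0) (nat_lit 0)))) (N (nat_lit 18) (L (E (nat_lit 0) (nat_lit 0x0) (nat_lit 0))) (L (E (nat_lit 0) (nat_lit 0x0) (nat_lit 0))))))
def cl : RA := N (nat_lit 6) (N (nat_lit 3) (N (nat_lit 2) (N (nat_lit 1) (L (E (nat_lit 6) (nat_lit 0x4802200f0050018008) (nat_lit 0))) (L (E (nat_lit 6) (nat_lit 0x3401800b0050024010) (nat_lit 0)))) (L (E (nat_lit 6) (nat_lit 0x4001c00a0038014006) (nat_lit 0)))) (N (nat_lit 5) (N (nat_lit 4) (L (E (nat_lit 3) (nat_lit 0x1c006001) (nat_lit 0))) (L (E (nat_lit 3) (nat_lit 0x7c00a001) (nat_lit 0)))) (L (E (nat_lit 3) (nat_lit 0x3c00a001) (nat_lit 0))))) (N (nat_lit 9) (N (nat_lit 8) (N (nat_lit 7) (L (E (nat_lit 3) (nat_lit 0x7400a001) (nat_lit 0))) (L (E (nat_lit 3) (nat_lit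 0x54006001) (nat_lit 0)))) (L (E (nat_lit 3) (nat_lit 0x2c00a001) (nat_lit 0)))) (N (nat_lit 11) (N (nat_lit 10) (L (E (nat_lit 3) (nat_lit 0x6c006001) (nat_lit 0))) (L (E (nat_lit 3) (nat_lit 0x8c042017) (nat_lit 0)))) (N (nat_lit 12) (L (E (nat_lit 3) (nat_lit 0x9400a001) (nat_lit 0))) (L (E (nat_lit 3) (nat_lit 0x14006001) (nat_lit 0))))))
def nbl : List Nat := [nat_lit 0x2401000600204, nat_lit 0x0, nat_lit 0x601, nat_lit 0x0, nat_lit 0x0, nat_lit 0x0, nat_lit 0x0, nat_lit 0x0, nat_lit 0x0, nat_lit 0x0, nat_lit 0x0, nat_lit 0x0, nat_lit 0x0, nat_lit 0x0, nat_lit 0x0, nat_lit 0x0, nat_lit 0x0, nat_lit 0x0, nat_lit 0x0]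
def apl : List Nat := [nat_lit 0x4802200f0050018008, nat_lit 0x3401800b0050024010, nat_lit 0xc00a0070050038020]
theorem hpt : RA.all okp pt = true := by decide +kernel
theorem hN : chkN nb td1 pt nbl (nat_lit 0) = true := by decide +kernel
theorem hA : chkG cl (nat_lit 6) (apOK td1 pt (nat_lit 5)) apl (nat_lit 0) = true := by decide +kernel
def s0 : List Nat := [nat_lit 0x400e003]
theorem hs0 : chkG cl (nat_lit 3) (l3OK td9 td3 td12 pt) s0 (nat_lit 3) = true := by decide +kernel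
def s1 : List Nat := [nat_lit 0x400a01f, nat_lit 0x1400200f]
theorem hs1 : chkG cl (nat_lit 3) (l3OK td4 td7 td19 pt) s1 (nat_lit 4) = true := by decide +kernel
def s2 : List Nat := [nat_lit 0x1400201d]
theorem hs2 : chkG cl (nat_lit 3) (l3OK td4 td9 td19 pt) s2 (nat_lit 6) = true := by decide +kernel
def s3 : List Nat := [nat_lit 0x402a003]
theorem hs3 : chkG cl (nat_lit 3) (l3OK td9 td3 td3 pt) s3 (nat_lit 7) = true := by decide +kernel
def s4 : List Nat := [nat_lit 0x400a00b]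
theorem hs4 : chkG cl (nat_lit 3) (l3OK td9 td7 td19 pt) s4 (nat_lit 8) = true := by decide +kernel
def s5 : List Nat := [nat_lit 0xc00201b]
theorem hs5 : chkG cl (nat_lit 3) (l3OK td21 td27 td3 pt) s5 (nat_lit 9) = true := by decide +kernel
def s6 : List Nat := [nat_lit 0x5c042023]
theorem hs6 : chkG cl (nat_lit 3) (l3OK td4 td3 td7 pt) s6 (nat_lit 10) = true := by decide +kernel
def s7 : List Nat := [nat_lit 0x404a005]
theorem hs7 : chkG cl (nat_lit 3) (l3OK td4 td19 td21 pt) s7 (nat_lit 11) = true := by decide +kernel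
def c0 : List Nat := [nat_lit 0x80000000000e01e800600740028072000c015000002480080034002005200080350016023800a00bc004808600040d]
theorem t0 : chk cl nb (nat_lit 19) c0 (nat_lit 11) = true := by decide +kernel

end

end APL.P81

namespace APL.P82

open APL.RA renaming leaf → L, node → N
open APL renaming dec → E

noncomputable section

set_option maxRecDepth 100000

def pt : RA := N (nat_lit 5) (N (nat_lit 3) (N (nat_lit 2) (N (nat_lit 1) (L (nat_lit 288234774265332736)) (L (nat_lit 288234774265463808))) (L (nat_lit 288234774265136133))) (N (nat_lit 4) (L (nat_lit 288234774265398270)) (L (nat_lit 288234774265398271)))) (N (nat_lit 7) (N (nat_lit 6) (L (nat_lit 288234774265398272)) (L (nat_lit 288234774265398273))) (N (nat_lit 8) (L (nat_lit 288234774265398274)) (L (nat_lit 288234774265398275))))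
def nb : RA := N (nat_lit 4) (N (nat_lit 2) (N (nat_lit 1) (L (E (nat_lit 2) (nat_lit 0x14008) (nat_lit 0))) (L (E (nat_lit 1) (nat_lit 0xc) (nat_lit 0)))) (N (nat_lit 3) (L (E (nat_lit 0) (nat_lit 0x0) (nat_lit 0))) (L (E (nat_lit 0) (nat_lit 0x0) (nat_lit 0))))) (N (nat_lit 7) (N (nat_lit 6) (N (nat_lit 5) (L (E (nat_lit 0) (nat_lit 0x0) (nat_lit 0))) (L (E (nat_lit 0) (nat_lit 0x0) (nat_lit 0)))) (L (E (nat_lit 0) (nat_lit 0x0) (nat_lit 0)))) (N (nat_lit 8) (L (E (nat_lit 0) (nat_lit 0x0) (nat_lit 0))) (L (E (nat_lit 0) (nat_lit 0x0) (nat_lit 0)))))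
def cl : RA := N (nat_lit 2) (N (nat_lit 1) (L (E (nat_lit 6) (nat_lit 0x2000e0060028010006) (nat_lit 0))) (L (E (nat_lit 3) (nat_lit 0x4400a001) (nat_lit 0)))) (N (nat_lit 3) (L (E (nat_lit 3) (nat_lit 0x1c00a001) (nat_lit 0))) (N (nat_lit 4) (L (E (nat_lit 3) (nat_lit 0x3c006001) (nat_lit 0))) (L (E (nat_lit 3) (nat_lit 0x14006001) (nat_lit 0)))))
def nbl : List Nat := [nat_lit 0x500202, nat_lit 0x301, nat_lit 0x0, nat_lit 0x0, nat_lit 0x0, nat_lit 0x0, nat_lit 0x0, nat_lit 0x0, nat_lit 0x0]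
def apl : List Nat := [nat_lit 0x2000e0060028010006]
theorem hpt : RA.all okp pt = true := by decide +kernel
theorem hN : chkN nb td1 pt nbl (nat_lit 0) = true := by decide +kernel
theorem hA : chkG cl (nat_lit 6) (apOK td1 pt (nat_lit 5)) apl (nat_lit 0) = true := by decide +kernel
def s0 : List Nat := [nat_lit 0x14002011]
theorem hs0 : chkG cl (nat_lit 3) (l3OK td13 td12 td19 pt) s0 (nat_lit 1) = true := by decide +kernel
def s1 : List Nat := [nat_lit 0x14002007]
theorem hs1 : chkG cl (nat_lit 3) (l3OK td3 td37 td19 pt) s1 (nat_lit 2) = true := by decide +kernel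
def s2 : List Nat := [nat_lit 0x3c002003]
theorem hs2 : chkG cl (nat_lit 3) (l3OK td4 td3 td7 pt) s2 (nat_lit 3) = true := by decide +kernel
def c0 : List Nat := [nat_lit 0x40000000000401080010034000003a000c05]
theorem t0 : chk cl nb (nat_lit 9) c0 (nat_lit 3) = true := by decide +kernel

end

end APL.P82

namespace APL.P83

open APL.RA renaming leaf → L, node → N
open APL renaming dec → E

noncomputable section

set_option maxRecDepth 100000

def pt : RA := N (nat_lit 5) (N (nat_lit 3) (N (nat_lit 2) (N (nat_lit 1) (L (nat_lit 288234774265332736)) (L (nat_lit 288234774265463808))) (L (nat_lit 288234774265136132))) (N (nat_lit 4) (L (nat_lit 288234774265267201)) (L (nat_lit 288234774265332737)))) (N (nat_lit 7) (N (nat_lit 6) (L (nat_lit 288234774265398273)) (L (nat_lit 288234774265463809))) (N (nat_lit 8) (L (nat_lit 288234774265529345)) (L (nat_lit 288234774265594881))))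
def nb : RA := N (nat_lit 4) (N (nat_lit 2) (N (nat_lit 1) (L (E (nat_lit 2) (nat_lit 0x10006) (nat_lit 0))) (L (E (nat_lit 2) (nat_lit 0x1800a) (nat_lit 0)))) (N (nat_lit 3) (L (E (nat_lit 0) (nat_lit 0x0) (nat_lit 0))) (L (E (nat_lit 0) (nat_lit 0x0) (nat_lit 0))))) (N (nat_lit 7) (N (nat_lit 6) (N (nat_lit 5) (L (E (nat_lit 0) (nat_lit 0x0) (nat_lit 0))) (L (E (nat_lit 0) (nat_lit 0x0) (nat_lit 0)))) (L (E (nat_lit 0) (nat_lit 0x0) (nat_lit 0)))) (N (nat_lit 8) (L (E (nat_lit 0) (nat_lit 0x0) (nat_lit 0))) (L (E (nat_lit 0) (nat_lit 0x0) (nat_lit 0)))))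
def cl : RA := N (nat_lit 2) (N (nat_lit 1) (L (E (nat_lit 6) (nat_lit 0x2000e0060028010006) (nat_lit 0))) (L (E (nat_lit 3) (nat_lit 0x3c00a003) (nat_lit 0)))) (N (nat_lit 3) (L (E (nat_lit 3) (nat_lit 0x44006001) (nat_lit 0))) (L (E (nat_lit 3) (nat_lit 0x14006001) (nat_lit 0))))
def nbl : List Nat := [nat_lit 0x400182, nat_lit 0x600282, nat_lit 0x0, nat_lit 0x0, nat_lit 0x0, nat_lit 0x0, nat_lit 0x0, nat_lit 0x0, nat_lit 0x0]
def apl : List Nat := [nat_lit 0x2000e0060028010006]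
theorem hpt : RA.all okp pt = true := by decide +kernel
theorem hN : chkN nb td1 pt nbl (nat_lit 0) = true := by decide +kernel
theorem hA : chkG cl (nat_lit 6) (apOK td1 pt (nat_lit 5)) apl (nat_lit 0) = true := by decide +kernel
def s0 : List Nat := [nat_lit 0x3c006005]
theorem hs0 : chkG cl (nat_lit 3) (l3OK td21 td27 td3 pt) s0 (nat_lit 1) = true := by decide +kernel
def s1 : List Nat := [nat_lit 0x44002003]
theorem hs1 : chkG cl (nat_lit 3) (l3OK td4 td7 td21 pt) s1 (nat_lit 2) = true := by decide +kernel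
def c0 : List Nat := [nat_lit 0x20000000000100740000042000804]
theorem t0 : chk cl nb (nat_lit 9) c0 (nat_lit 2) = true := by decide +kernel

end

end APL.P83

namespace APL.P86

open APL.RA renaming leaf → L, node → N
open APL renaming dec → E

noncomputable section

set_option maxRecDepth 100000

def pt : RA := N (nat_lit 4) (N (nat_lit 2) (N (nat_lit 1) (L (nat_lit 288234774265332736)) (L (nat_lit 288234774265463808))) (N (nat_lit 3) (L (nat_lit 288234774265660410)) (L (nat_lit 288234774265660411)))) (N (nat_lit 6) (N (nat_lit 5) (L (nat_lit 288234774265660412)) (L (nat_lit 288234774265660413))) (N (nat_lit 7) (L (nat_lit 288234774265660414)) (L (nat_lit 288234774265660415))))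
def nb : RA := N (nat_lit 4) (N (nat_lit 2) (N (nat_lit 1) (L (E (nat_lit 0) (nat_lit 0x0) (nat_lit 0))) (L (E (nat_lit 0) (nat_lit 0x0) (nat_lit 0)))) (N (nat_lit 3) (L (E (nat_lit 0) (nat_lit 0x0) (nat_lit 0))) (L (E (nat_lit 0) (nat_lit 0x0) (nat_lit 0))))) (N (nat_lit 6) (N (nat_lit 5) (L (E (nat_lit 0) (nat_lit 0x0) (nat_lit 0))) (L (E (nat_lit 0) (nat_lit 0x0) (nat_lit 0)))) (N (nat_lit 7) (L (E (nat_lit 0) (nat_lit 0x0) (nat_lit 0))) (L (E (nat_lit 0) (nat_lit 0x0) (nat_lit 0)))))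
def cl : RA := N (nat_lit 4) (N (nat_lit 2) (N (nat_lit 1) (L (E (nat_lit 6) (nat_lit 0x1c00c005002000c004) (nat_lit 0))) (L (E (nat_lit 3) (nat_lit 0x34006001) (nat_lit 0)))) (N (nat_lit 3) (L (E (nat_lit 3) (nat_lit 0x14006001) (nat_lit 0))) (L (E (nat_lit 3) (nat_lit 0x2c006001) (nat_lit 0))))) (N (nat_lit 6) (N (nat_lit 5) (L (E (nat_lit 3) (nat_lit 0x3c006001) (nat_lit 0))) (L (E (nat_lit 3) (nat_lit 0x1c006001) (nat_lit 0)))) (N (nat_lit 7) (L (E (nat_lit 3) (nat_lit 0x24006001) (nat_lit 0))) (L (E (nat_lit 2) (nat_lit 0x6001) (nat_lit 0)))))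
def nbl : List Nat := [nat_lit 0x0, nat_lit 0x0, nat_lit 0x0, nat_lit 0x0, nat_lit 0x0, nat_lit 0x0, nat_lit 0x0, nat_lit 0x0]
def apl : List Nat := [nat_lit 0x1c00c005002000c004]
theorem hpt : RA.all okp pt = true := by decide +kernel
theorem hN : chkN nb td1 pt nbl (nat_lit 0) = true := by decide +kernel
theorem hA : chkG cl (nat_lit 6) (apOK td1 pt (nat_lit 5)) apl (nat_lit 0) = true := by decide +kernel
def s0 : List Nat := [nat_lit 0x34002003]
theorem hs0 : chkG cl (nat_lit 3) (l3OK td4 td7 td19 pt) s0 (nat_lit 1) = true := by decide +kernel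
def s1 : List Nat := [nat_lit 0x14002003]
theorem hs1 : chkG cl (nat_lit 3) (l3OK td4 td27 td31 pt) s1 (nat_lit 2) = true := by decide +kernel
def s2 : List Nat := [nat_lit 0x2c002003]
theorem hs2 : chkG cl (nat_lit 3) (l3OK td4 td9 td19 pt) s2 (nat_lit 3) = true := by decide +kernel
def s3 : List Nat := [nat_lit 0x3c002003]
theorem hs3 : chkG cl (nat_lit 3) (l3OK td4 td7 td21 pt) s3 (nat_lit 4) = true := by decide +kernel
def s4 : List Nat := [nat_lit 0x1c002003]
theorem hs4 : chkG cl (nat_lit 3) (l3OK td4 td19 td25 pt) s4 (nat_lit 5) = true := by decide +kernel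
def s5 : List Nat := [nat_lit 0x24002003]
theorem hs5 : chkG cl (nat_lit 3) (l3OK td4 td13 td21 pt) s5 (nat_lit 6) = true := by decide +kernel
def c0 : List Nat := [nat_lit 0x500640020012000c015000400e800100340000022001806]
theorem t0 : chk cl nb (nat_lit 8) c0 (nat_lit 6) = true := by decide +kernel

end

end APL.P86

namespace APL.P87

open APL.RA renaming leaf → L, node → N
open APL renaming dec → E

noncomputable section

set_option maxRecDepth 100000

def pt : RA := N (nat_lit 4) (N (nat_lit 2) (N (nat_lit 1) (L (nat_lit 288234774265332736)) (L (nat_lit 288234774265594880))) (N (nat_lit 3) (L (nat_lit 288234774265201665)) (L (nat_lit 288234774265267201)))) (N (nat_lit 6) (N (nat_lit 5) (L (nat_lit 288234774265332737)) (L (nat_lit 288234774265398273))) (N (nat_lit 7) (L (nat_lit 288234774265463809)) (L (nat_lit 288234774265529345))))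
def nb : RA := N (nat_lit 3) (N (nat_lit 1) (L (E (nat_lit 2) (nat_lit 0x10006) (nat_lit 0))) (N (nat_lit 2) (L (E (nat_lit 1) (nat_lit 0xe) (nat_lit 0))) (L (E (nat_lit 0) (nat_lit 0x0) (nat_lit 0))))) (N (nat_lit 6) (N (nat_lit 5) (N (nat_lit 4) (L (E (nat_lit 0) (nat_lit 0x0) (nat_lit 0))) (L (E (nat_lit 0) (nat_lit 0x0) (nat_lit 0)))) (L (E (nat_lit 0) (nat_lit 0x0) (nat_lit 0)))) (N (nat_lit 7) (L (E (nat_lit 0) (nat_lit 0x0) (nat_lit 0))) (L (E (nat_lit 0) (nat_lit 0x0) (nat_lit 0)))))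
def cl : RA := N (nat_lit 2) (N (nat_lit 1) (L (E (nat_lit 6) (nat_lit 0x1c00c005002000c004) (nat_lit 0))) (L (E (nat_lit 3) (nat_lit 0x14006001) (nat_lit 0)))) (N (nat_lit 3) (L (E (nat_lit 3) (nat_lit 0x2c006001) (nat_lit 0))) (N (nat_lit 4) (L (E (nat_lit 3) (nat_lit 0x34006001) (nat_lit 0))) (L (E (nat_lit 2) (nat_lit 0x6001) (nat_lit 0)))))
def nbl : List Nat := [nat_lit 0x400182, nat_lit 0x381, nat_lit 0x0, nat_lit 0x0, nat_lit 0x0, nat_lit 0x0, nat_lit 0x0, nat_lit 0x0]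
def apl : List Nat := [nat_lit 0x1c00c005002000c004]
theorem hpt : RA.all okp pt = true := by decide +kernel
theorem hN : chkN nb td1 pt nbl (nat_lit 0) = true := by decide +kernel
theorem hA : chkG cl (nat_lit 6) (apOK td1 pt (nat_lit 5)) apl (nat_lit 0) = true := by decide +kernel
def s0 : List Nat := [nat_lit 0x14006001]
theorem hs0 : chkG cl (nat_lit 3) (l3OK td16 td3 td31 pt) s0 (nat_lit 1) = true := by decide +kernel
def s1 : List Nat := [nat_lit 0x2c006001, nat_lit 0x34002003]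
theorem hs1 : chkG cl (nat_lit 3) (l3OK td16 td3 td7 pt) s1 (nat_lit 2) = true := by decide +kernel
def c0 : List Nat := [nat_lit 0x400000000004004800100540000032000c05]
theorem t0 : chk cl nb (nat_lit 8) c0 (nat_lit 3) = true := by decide +kernel

end

end APL.P87

namespace APL.P88

open APL.RA renaming leaf → L, node → N
open APL renaming dec → E

noncomputable section

set_option maxRecDepth 100000

def pt : RA := N (nat_lit 4) (N (nat_lit 2) (N (nat_lit 1) (L (nat_lit 288234774265332736)) (L (nat_lit 288234774265005058))) (N (nat_lit 3) (L (nat_lit 288234774265136126)) (L (nat_lit 288234774265201662)))) (N (nat_lit 6) (N (nat_lit 5) (L (nat_lit 288234774265267198)) (L (nat_lit 288234774265332734))) (N (nat_lit 7) (L (nat_lit 288234774265398270)) (L (nat_lit 288234774265463806))))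
def nb : RA := N (nat_lit 4) (N (nat_lit 2) (N (nat_lit 1) (L (E (nat_lit 0) (nat_lit 0x0) (nat_lit 0))) (L (E (nat_lit 0) (nat_lit 0x0) (nat_lit 0)))) (N (nat_lit 3) (L (E (nat_lit 0) (nat_lit 0x0) (nat_lit 0))) (L (E (nat_lit 0) (nat_lit 0x0) (nat_lit 0))))) (N (nat_lit 6) (N (nat_lit 5) (L (E (nat_lit 0) (nat_lit 0x0) (nat_lit 0))) (L (E (nat_lit 0) (nat_lit 0x0) (nat_lit 0)))) (N (nat_lit 7) (L (E (nat_lit 0) (nat_lit 0x0) (nat_lit 0))) (L (E (nat_lit 0) (nat_lit 0x0) (nat_lit 0)))))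
def cl : RA := N (nat_lit 4) (N (nat_lit 2) (N (nat_lit 1) (L (E (nat_lit 6) (nat_lit 0x1c00c005002000c004) (nat_lit 0))) (L (E (nat_lit 3) (nat_lit 0x1c006001) (nat_lit 0)))) (N (nat_lit 3) (L (E (nat_lit 3) (nat_lit 0x14006001) (nat_lit 0))) (L (E (nat_lit 3) (nat_lit 0x2c006001) (nat_lit 0))))) (N (nat_lit 6) (N (nat_lit 5) (L (E (nat_lit 3) (nat_lit 0x34006001) (nat_lit 0))) (L (E (nat_lit 2) (nat_lit 0x1e001) (nat_lit 0)))) (N (nat_lit 7) (L (E (nat_lit 2) (nat_lit 0x12003) (nat_lit 0))) (L (E (nat_lit 2) (nat_lit 0x6001) (nat_lit 0)))))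
def nbl : List Nat := [nat_lit 0x0, nat_lit 0x0, nat_lit 0x0, nat_lit 0x0, nat_lit 0x0, nat_lit 0x0, nat_lit 0x0, nat_lit 0x0]
def apl : List Nat := [nat_lit 0x1c00c005002000c004]
theorem hpt : RA.all okp pt = true := by decide +kernel
theorem hN : chkN nb td1 pt nbl (nat_lit 0) = true := by decide +kernel
theorem hA : chkG cl (nat_lit 6) (apOK td1 pt (nat_lit 5)) apl (nat_lit 0) = true := by decide +kernel
def s0 : List Nat := [nat_lit 0x4006007]
theorem hs0 : chkG cl (nat_lit 3) (l3OK td13 td12 td19 pt) s0 (nat_lit 1) = true := by decide +kernel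
def s1 : List Nat := [nat_lit 0xc002005]
theorem hs1 : chkG cl (nat_lit 3) (l3OK td19 td12 td19 pt) s1 (nat_lit 2) = true := by decide +kernel
def s2 : List Nat := [nat_lit 0xc016001]
theorem hs2 : chkG cl (nat_lit 3) (l3OK td4 td19 td21 pt) s2 (nat_lit 3) = true := by decide +kernel
def s3 : List Nat := [nat_lit 0xc01a001]
theorem hs3 : chkG cl (nat_lit 3) (l3OK td3 td19 td28 pt) s3 (nat_lit 4) = true := by decide +kernel
def s4 : List Nat := [nat_lit 0x200f]
theorem hs4 : chkG cl (nat_lit 2) (l2OK td4 pt) s4 (nat_lit 5) = true := by decide +kernel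
def s5 : List Nat := [nat_lit 0x6009]
theorem hs5 : chkG cl (nat_lit 2) (l2OK td16 pt) s5 (nat_lit 6) = true := by decide +kernel
def c0 : List Nat := [nat_lit 0x500340020012000c015000400c800100740000022001806]
theorem t0 : chk cl nb (nat_lit 8) c0 (nat_lit 6) = true := by decide +kernel

end

end APL.P88

namespace APL.P89

open APL.RA renaming leaf → L, node → N
open APL renaming dec → E

noncomputable section

set_option maxRecDepth 100000

def pt : RA := N (nat_lit 4) (N (nat_lit 2) (N (nat_lit 1) (L (nat_lit 288234774265332736)) (L (nat_lit 288234774265005057))) (N (nat_lit 3) (L (nat_lit 288234774265136124)) (L (nat_lit 288234774265136125)))) (N (nat_lit 6) (N (nat_lit 5) (L (nat_lit 288234774265136126)) (L (nat_lit 288234774265136127))) (N (nat_lit 7) (L (nat_lit 288234774265136128)) (L (nat_lit 288234774265136129))))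
def nb : RA := N (nat_lit 4) (N (nat_lit 2) (N (nat_lit 1) (L (E (nat_lit 0) (nat_lit 0x0) (nat_lit 0))) (L (E (nat_lit 0) (nat_lit 0x0) (nat_lit 0)))) (N (nat_lit 3) (L (E (nat_lit 0) (nat_lit 0x0) (nat_lit 0))) (L (E (nat_lit 0) (nat_lit 0x0) (nat_lit 0))))) (N (nat_lit 6) (N (nat_lit 5) (L (E (nat_lit 0) (nat_lit 0x0) (nat_lit 0))) (L (E (nat_lit 0) (nat_lit 0x0) (nat_lit 0)))) (N (nat_lit 7) (L (E (nat_lit 0) (nat_lit 0x0) (nat_lit 0))) (L (E (nat_lit 0) (nat_lit 0x0) (nat_lit 0)))))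
def cl : RA := N (nat_lit 4) (N (nat_lit 2) (N (nat_lit 1) (L (E (nat_lit 6) (nat_lit 0x1c00c005002000c004) (nat_lit 0))) (L (E (nat_lit 3) (nat_lit 0x1c006001) (nat_lit 0)))) (N (nat_lit 3) (L (E (nat_lit 3) (nat_lit 0x34006001) (nat_lit 0))) (L (E (nat_lit 3) (nat_lit 0x24006001) (nat_lit 0))))) (N (nat_lit 6) (N (nat_lit 5) (L (E (nat_lit 3) (nat_lit 0x3c006001) (nat_lit 0))) (L (E (nat_lit 3) (nat_lit 0x2c006001) (nat_lit 0)))) (N (nat_lit 7) (L (E (nat_lit 2) (nat_lit 0xa003) (nat_lit 0))) (L (E (nat_lit 2) (nat_lit 0x6001) (nat_lit 0)))))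
def nbl : List Nat := [nat_lit 0x0, nat_lit 0x0, nat_lit 0x0, nat_lit 0x0, nat_lit 0x0, nat_lit 0x0, nat_lit 0x0, nat_lit 0x0]
def apl : List Nat := [nat_lit 0x1c00c005002000c004]
theorem hpt : RA.all okp pt = true := by decide +kernel
theorem hN : chkN nb td1 pt nbl (nat_lit 0) = true := by decide +kernel
theorem hA : chkG cl (nat_lit 6) (apOK td1 pt (nat_lit 5)) apl (nat_lit 0) = true := by decide +kernel
def s0 : List Nat := [nat_lit 0x1c002003]
theorem hs0 : chkG cl (nat_lit 3) (l3OK td21 td12 td27 pt) s0 (nat_lit 1) = true := by decide +kernel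
def s1 : List Nat := [nat_lit 0xc00200d]
theorem hs1 : chkG cl (nat_lit 3) (l3OK td9 td3 td21 pt) s1 (nat_lit 2) = true := by decide +kernel
def s2 : List Nat := [nat_lit 0x24002003]
theorem hs2 : chkG cl (nat_lit 3) (l3OK td21 td7 td19 pt) s2 (nat_lit 3) = true := by decide +kernel
def s3 : List Nat := [nat_lit 0x400600f]
theorem hs3 : chkG cl (nat_lit 3) (l3OK td4 td7 td21 pt) s3 (nat_lit 4) = true := by decide +kernel
def s4 : List Nat := [nat_lit 0x400600b]
theorem hs4 : chkG cl (nat_lit 3) (l3OK td4 td13 td21 pt) s4 (nat_lit 5) = true := by decide +kernel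
def s5 : List Nat := [nat_lit 0x6005]
theorem hs5 : chkG cl (nat_lit 2) (l2OK td19 pt) s5 (nat_lit 6) = true := by decide +kernel
def c0 : List Nat := [nat_lit 0x500340020032000c011000200a800200740000012001806]
theorem t0 : chk cl nb (nat_lit 8) c0 (nat_lit 6) = true := by decide +kernel

end

end APL.P89

namespace APL.P91

open APL.RA renaming leaf → L, node → N
open APL renaming dec → E

noncomputable section

set_option maxRecDepth 100000

def pt : RA := N (nat_lit 4) (N (nat_lit 2) (N (nat_lit 1) (L (nat_lit 288234774265332736)) (L (nat_lit 288234774265725952))) (N (nat_lit 3) (L (nat_lit 288234774265398271)) (L (nat_lit 288234774265398272)))) (N (nat_lit 6) (N (nat_lit 5) (L (nat_lit 288234774265398273)) (L (nat_lit 288234774265398274))) (N (nat_lit 7) (L (nat_lit 288234774265398275)) (L (nat_lit 288234774265398276))))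
def nb : RA := N (nat_lit 4) (N (nat_lit 2) (N (nat_lit 1) (L (E (nat_lit 2) (nat_lit 0xc004) (nat_lit 0))) (L (E (nat_lit 0) (nat_lit 0x0) (nat_lit 0)))) (N (nat_lit 3) (L (E (nat_lit 0) (nat_lit 0x0) (nat_lit 0))) (L (E (nat_lit 0) (nat_lit 0x0) (nat_lit 0))))) (N (nat_lit 6) (N (nat_lit 5) (L (E (nat_lit 0) (nat_lit 0x0) (nat_lit 0))) (L (E (nat_lit 0) (nat_lit 0x0) (nat_lit 0)))) (N (nat_lit 7) (L (E (nat_lit 0) (nat_lit 0x0) (nat_lit 0))) (L (E (nat_lit 0) (nat_lit 0x0) (nat_lit 0)))))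
def cl : RA := N (nat_lit 3) (N (nat_lit 2) (N (nat_lit 1) (L (E (nat_lit 6) (nat_lit 0x1c00c005002000c004) (nat_lit 0))) (L (E (nat_lit 2) (nat_lit 0x16003) (nat_lit 0)))) (L (E (nat_lit 2) (nat_lit 0x1a003) (nat_lit 0)))) (N (nat_lit 4) (L (E (nat_lit 2) (nat_lit 0x12003) (nat_lit 0))) (N (nat_lit 5) (L (E (nat_lit 2) (nat_lit 0x1e001) (nat_lit 0))) (L (E (nat_lit 2) (nat_lit 0x6001) (nat_lit 0)))))
def nbl : List Nat := [nat_lit 0x300102, nat_lit 0x0, nat_lit 0x0, nat_lit 0x0, nat_lit 0x0, nat_lit 0x0, nat_lit 0x0, nat_lit 0x0]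
def apl : List Nat := [nat_lit 0x1c00c005002000c004]
theorem hpt : RA.all okp pt = true := by decide +kernel
theorem hN : chkN nb td1 pt nbl (nat_lit 0) = true := by decide +kernel
theorem hA : chkG cl (nat_lit 6) (apOK td1 pt (nat_lit 5)) apl (nat_lit 0) = true := by decide +kernel
def s0 : List Nat := [nat_lit 0x16003, nat_lit 0x1a003]
theorem hs0 : chkG cl (nat_lit 2) (l2OK td19 pt) s0 (nat_lit 1) = true := by decide +kernel
def s1 : List Nat := [nat_lit 0x12003, nat_lit 0x1e001]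
theorem hs1 : chkG cl (nat_lit 2) (l2OK td21 pt) s1 (nat_lit 3) = true := by decide +kernel
def c0 : List Nat := [nat_lit 0x1d000600a800200640008022001005]
theorem t0 : chk cl nb (nat_lit 8) c0 (nat_lit 4) = true := by decide +kernel

end

end APL.P91

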