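import Pool.Agent.Lib.MP_2b7a4a_coL.D0
import Pool.Agent.Lib.MP_2b7a4a_coL.D1h
import Pool.Agent.Lib.MP_2b7a4a_coL.D1c0
import Pool.Agent.Lib.MP_2b7a4a_coL.D1c1
import Pool.Agent.Lib.MP_2b7a4a_coL.D2h
import Pool.Agent.Lib.MP_2b7a4a_coL.D2c0
import Pool.Agent.Lib.MP_2b7a4a_coL.D2c1
import Pool.Agent.Lib.MP_2b7a4a_coL.D2c2
import Pool.Agent.Lib.MP_2b7a4a_coL.D2c3
import Pool.Agent.Lib.MP_2b7a4a_coL.D2c4
import Pool.Agent.Lib.MP_2b7a4a_coL.D12
import Pool.Agent.Lib.MP_2b7a4a_coL.D13
import Pool.Agent.Lib.MP_2b7a4a_coL.D14
import Pool.Agent.Lib.MP_2b7a4a_coL.D15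
import Pool.Agent.Lib.MP_2b7a4a_coL.D17
import Pool.Agent.Lib.MP_2b7a4a_coL.D18h
import Pool.Agent.Lib.MP_2b7a4a_coL.D18c0
import Pool.Agent.Lib.MP_2b7a4a_coL.D18c1
import Pool.Agent.Lib.MP_2b7a4a_coL.D22
import Pool.Agent.Lib.MP_2b7a4a_coL.D23
import Pool.Agent.Lib.MP_2b7a4a_coL.D24
import Pool.Agent.Lib.MP_2b7a4a_coL.D34h
import Pool.Agent.Lib.MP_2b7a4a_coL.D34c0
import Pool.Agent.Lib.MP_2b7a4a_coL.D34c1
import Pool.Agent.Lib.MP_2b7a4a_coL.D34c2
import Pool.Agent.Lib.MP_2b7a4a_coL.Small
import Pool.Agent.Lib.MP_2b7a4a_coL.Period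

namespace APL.P0

noncomputable section

theorem fin (red : ℂ → Prop) (hv : Valid 6 red) : ¬ (sig red pt 0 ∧ sig red pt 1 ∧ sig red pt 2) := by
  have hnb : NbOK (sig red pt) nb 1707 := by
    intro y hy a ha
    exact chkN_sound red 6 hv nb td1 pt hpt htd1 nbl 0 hN y (Nat.zero_le _) (by
      have : nbl.length = 1707 := by decide +kernel
      omega) a ha
  have g0 : Good (sig red pt) cl 0 := fun j hj => absurd hj (Nat.not_lt_zero _)
  have g1 : Good (sig red pt) cl 854 := by
    have h := chkG_sound (sig red pt) cl 6 _ (fun n hn => ap_sound red 5 hv td1 pt hpt htd1 n hn) apl 0 g0 hA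
    have e : apl.length = 854 := by decide +kernel
    rw [e] at h; exact h
  have g2 : Good (sig red pt) cl 1216 := by
    have h := chk_sound (sig red pt) cl nb 1707 hnb c0 853 g1 t0
    have e : c0.length = 362 := by decide +kernel
    rw [e] at h; exact h
  have g3 : Good (sig red pt) cl 1433 := by
    have h := chk_sound (sig red pt) cl nb 1707 hnb c1 1215 g2 t1
    have e : c1.length = 217 := by decide +kernel
    rw [e] at h; exact h
  have g4 : Good (sig red pt) cl 1655 := by
    have h := chk_sound (sig red pt) cl nb 1707 hnb c2 1432 g3 t2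
    have e : c2.length = 222 := by decide +kernel
    rw [e] at h; exact h
  have g5 : Good (sig red pt) cl 1883 := by
    have h := chk_sound (sig red pt) cl nb 1707 hnb c3 1654 g4 t3
    have e : c3.length = 228 := by decide +kernel
    rw [e] at h; exact h
  have g6 : Good (sig red pt) cl 2069 := by
    have h := chk_sound (sig red pt) cl nb 1707 hnb c4 1882 g5 t4
    have e : c4.length = 186 := by decide +kernel
    rw [e] at h; exact h
  have g7 : Good (sig red pt) cl 2287 := by
    have h := chk_sound (sig red pt) cl nb 1707 hnb c5 2068 g6 t5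
    have e : c5.length = 218 := by decide +kernel
    rw [e] at h; exact h
  have g8 : Good (sig red pt) cl 2479 := by
    have h := chk_sound (sig red pt) cl nb 1707 hnb c6 2286 g7 t6
    have e : c6.length = 192 := by decide +kernel
    rw [e] at h; exact h
  have g9 : Good (sig red pt) cl 2667 := by
    have h := chk_sound (sig red pt) cl nb 1707 hnb c7 2478 g8 t7
    have e : c7.length = 188 := by decide +kernel
    rw [e] at h; exact h
  have g10 : Good (sig red pt) cl 2828 := by
    have h := chk_sound (sig red pt) cl nb 1707 hnb c8 2666 g9 t8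
    have e : c8.length = 161 := by decide +kernel
    rw [e] at h; exact h
  have g11 : Good (sig red pt) cl 3003 := by
    have h := chk_sound (sig red pt) cl nb 1707 hnb c9 2827 g10 t9
    have e : c9.length = 175 := by decide +kernel
    rw [e] at h; exact h
  have g12 : Good (sig red pt) cl 3021 := by
    have h := chk_sound (sig red pt) cl nb 1707 hnb c10 3002 g11 t10
    have e : c10.length = 18 := by decide +kernel
    rw [e] at h; exact h
  exact final3 (g12 3020 (by norm_num)) (by decide +kernel)

theorem forb : ∀ red : ℂ → Prop, Valid 6 red → Forb3 red 12 12 12 :=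
  forb3_of 6 td12 td12 td12 pt 12 12 12 (by norm_num) hpt htd12 htd12 htd12 (by decide +kernel)
    (by decide +kernel) (by decide +kernel) fin

end

end APL.P0

namespace APL.P1

noncomputable section

theorem fin (red : ℂ → Prop) (hv : Valid 6 red) : ¬ (sig red pt 0 ∧ sig red pt 1 ∧ sig red pt 2) := by
  have hnb : NbOK (sig red pt) nb 1636 := by
    intro y hy a ha
    exact chkN_sound red 6 hv nb td1 pt hpt htd1 nbl 0 hN y (Nat.zero_le _) (by
      have : nbl.length = 1636 := by decide +kernel
      omega) a ha
  have g0 : Good (sig red pt) cl 0 := fun j hj => absurd hj (Nat.not_lt_zero _)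
  have g1 : Good (sig red pt) cl 896 := by
    have h := chkG_sound (sig red pt) cl 6 _ (fun n hn => ap_sound red 5 hv td1 pt hpt htd1 n hn) apl 0 g0 hA
    have e : apl.length = 896 := by decide +kernel
    rw [e] at h; exact h
  have g2 : Good (sig red pt) cl 909 := by
    have h := chkG_sound (sig red pt) cl 3 _ (fun n hn => l3_sound red td12 td12 td12 pt 12 12 12 hpt htd12 htd12 htd12 (P0.forb red hv) n hn) s0 896 g1 hs0
    have e : s0.length = 13 := by decide +kernel
    rw [e] at h; exact h
  have g3 : Good (sig red pt) cl 1208 := by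
    have h := chk_sound (sig red pt) cl nb 1636 hnb c0 908 g2 t0
    have e : c0.length = 299 := by decide +kernel
    rw [e] at h; exact h
  have g4 : Good (sig red pt) cl 1490 := by
    have h := chk_sound (sig red pt) cl nb 1636 hnb c1 1207 g3 t1
    have e : c1.length = 282 := by decide +kernel
    rw [e] at h; exact h
  have g5 : Good (sig red pt) cl 1714 := by
    have h := chk_sound (sig red pt) cl nb 1636 hnb c2 1489 g4 t2
    have e : c2.length = 224 := by decide +kernel
    rw [e] at h; exact h
  have g6 : Good (sig red pt) cl 1953 := by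
    have h := chk_sound (sig red pt) cl nb 1636 hnb c3 1713 g5 t3
    have e : c3.length = 239 := by decide +kernel
    rw [e] at h; exact h
  have g7 : Good (sig red pt) cl 2155 := by
    have h := chk_sound (sig red pt) cl nb 1636 hnb c4 1952 g6 t4
    have e : c4.length = 202 := by decide +kernel
    rw [e] at h; exact h
  have g8 : Good (sig red pt) cl 2369 := by
    have h := chk_sound (sig red pt) cl nb 1636 hnb c5 2154 g7 t5
    have e : c5.length = 214 := by decide +kernel
    rw [e] at h; exact h
  have g9 : Good (sig red pt) cl 2559 := by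
    have h := chk_sound (sig red pt) cl nb 1636 hnb c6 2368 g8 t6
    have e : c6.length = 190 := by decide +kernel
    rw [e] at h; exact h
  have g10 : Good (sig red pt) cl 2755 := by
    have h := chk_sound (sig red pt) cl nb 1636 hnb c7 2558 g9 t7
    have e : c7.length = 196 := by decide +kernel
    rw [e] at h; exact h
  have g11 : Good (sig red pt) cl 2928 := by
    have h := chk_sound (sig red pt) cl nb 1636 hnb c8 2754 g10 t8
    have e : c8.length = 173 := by decide +kernel
    rw [e] at h; exact h
  have g12 : Good (sig red pt) cl 3102 := by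
    have h := chk_sound (sig red pt) cl nb 1636 hnb c9 2927 g11 t9
    have e : c9.length = 174 := by decide +kernel
    rw [e] at h; exact h
  have g13 : Good (sig red pt) cl 3267 := by
    have h := chk_sound (sig red pt) cl nb 1636 hnb c10 3101 g12 t10
    have e : c10.length = 165 := by decide +kernel
    rw [e] at h; exact h
  have g14 : Good (sig red pt) cl 3435 := by
    have h := chk_sound (sig red pt) cl nb 1636 hnb c11 3266 g13 t11
    have e : c11.length = 168 := by decide +kernel
    rw [e] at h; exact h
  have g15 : Good (sig red pt) cl 3608 := by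
    have h := chk_sound (sig red pt) cl nb 1636 hnb c12 3434 g14 t12
    have e : c12.length = 173 := by decide +kernel
    rw [e] at h; exact h
  have g16 : Good (sig red pt) cl 3789 := by
    have h := chk_sound (sig red pt) cl nb 1636 hnb c13 3607 g15 t13
    have e : c13.length = 181 := by decide +kernel
    rw [e] at h; exact h
  have g17 : Good (sig red pt) cl 3972 := by
    have h := chk_sound (sig red pt) cl nb 1636 hnb c14 3788 g16 t14
    have e : c14.length = 183 := by decide +kernel
    rw [e] at h; exact h
  have g18 : Good (sig red pt) cl 4148 := by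
    have h := chk_sound (sig red pt) cl nb 1636 hnb c15 3971 g17 t15
    have e : c15.length = 176 := by decide +kernel
    rw [e] at h; exact h
  have g19 : Good (sig red pt) cl 4297 := by
    have h := chk_sound (sig red pt) cl nb 1636 hnb c16 4147 g18 t16
    have e : c16.length = 149 := by decide +kernel
    rw [e] at h; exact h
  have g20 : Good (sig red pt) cl 4322 := by
    have h := chk_sound (sig red pt) cl nb 1636 hnb c17 4296 g19 t17
    have e : c17.length = 25 := by decide +kernel
    rw [e] at h; exact h
  exact final3 (g20 4321 (by norm_num)) (by decide +kernel)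

theorem forb : ∀ red : ℂ → Prop, Valid 6 red → Forb3 red 9 9 9 :=
  forb3_of 6 td9 td9 td9 pt 9 9 9 (by norm_num) hpt htd9 htd9 htd9 (by decide +kernel)
    (by decide +kernel) (by decide +kernel) fin

end

end APL.P1

namespace APL.P2

noncomputable section

theorem fin (red : ℂ → Prop) (hv : Valid 6 red) : ¬ (sig red pt 0 ∧ sig red pt 1 ∧ sig red pt 2) := by
  have hnb : NbOK (sig red pt) nb 2117 := by
    intro y hy a ha
    exact chkN_sound red 6 hv nb td1 pt hpt htd1 nbl 0 hN y (Nat.zero_le _) (by
      have : nbl.length = 2117 := by decide +kernel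
      omega) a ha
  have g0 : Good (sig red pt) cl 0 := fun j hj => absurd hj (Nat.not_lt_zero _)
  have g1 : Good (sig red pt) cl 1544 := by
    have h := chkG_sound (sig red pt) cl 6 _ (fun n hn => ap_sound red 5 hv td1 pt hpt htd1 n hn) apl 0 g0 hA
    have e : apl.length = 1544 := by decide +kernel
    rw [e] at h; exact h
  have g2 : Good (sig red pt) cl 1564 := by
    have h := chkG_sound (sig red pt) cl 3 _ (fun n hn => l3_sound red td12 td12 td12 pt 12 12 12 hpt htd12 htd12 htd12 (P0.forb red hv) n hn) s0 1544 g1 hs0
    have e : s0.length = 20 := by decide +kernel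
    rw [e] at h; exact h
  have g3 : Good (sig red pt) cl 1585 := by
    have h := chkG_sound (sig red pt) cl 3 _ (fun n hn => l3_sound red td9 td9 td9 pt 9 9 9 hpt htd9 htd9 htd9 (P1.forb red hv) n hn) s1 1564 g2 hs1
    have e : s1.length = 21 := by decide +kernel
    rw [e] at h; exact h
  have g4 : Good (sig red pt) cl 1960 := by
    have h := chk_sound (sig red pt) cl nb 2117 hnb c0 1584 g3 t0
    have e : c0.length = 375 := by decide +kernel
    rw [e] at h; exact h
  have g5 : Good (sig red pt) cl 2262 := by
    have h := chk_sound (sig red pt) cl nb 2117 hnb c1 1959 g4 t1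
    have e : c1.length = 302 := by decide +kernel
    rw [e] at h; exact h
  have g6 : Good (sig red pt) cl 2487 := by
    have h := chk_sound (sig red pt) cl nb 2117 hnb c2 2261 g5 t2
    have e : c2.length = 225 := by decide +kernel
    rw [e] at h; exact h
  have g7 : Good (sig red pt) cl 2677 := by
    have h := chk_sound (sig red pt) cl nb 2117 hnb c3 2486 g6 t3
    have e : c3.length = 190 := by decide +kernel
    rw [e] at h; exact h
  have g8 : Good (sig red pt) cl 2899 := by
    have h := chk_sound (sig red pt) cl nb 2117 hnb c4 2676 g7 t4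
    have e : c4.length = 222 := by decide +kernel
    rw [e] at h; exact h
  have g9 : Good (sig red pt) cl 3119 := by
    have h := chk_sound (sig red pt) cl nb 2117 hnb c5 2898 g8 t5
    have e : c5.length = 220 := by decide +kernel
    rw [e] at h; exact h
  have g10 : Good (sig red pt) cl 3358 := by
    have h := chk_sound (sig red pt) cl nb 2117 hnb c6 3118 g9 t6
    have e : c6.length = 239 := by decide +kernel
    rw [e] at h; exact h
  have g11 : Good (sig red pt) cl 3590 := by
    have h := chk_sound (sig red pt) cl nb 2117 hnb c7 3357 g10 t7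
    have e : c7.length = 232 := by decide +kernel
    rw [e] at h; exact h
  have g12 : Good (sig red pt) cl 3787 := by
    have h := chk_sound (sig red pt) cl nb 2117 hnb c8 3589 g11 t8
    have e : c8.length = 197 := by decide +kernel
    rw [e] at h; exact h
  have g13 : Good (sig red pt) cl 3958 := by
    have h := chk_sound (sig red pt) cl nb 2117 hnb c9 3786 g12 t9
    have e : c9.length = 171 := by decide +kernel
    rw [e] at h; exact h
  have g14 : Good (sig red pt) cl 4158 := by
    have h := chk_sound (sig red pt) cl nb 2117 hnb c10 3957 g13 t10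
    have e : c10.length = 200 := by decide +kernel
    rw [e] at h; exact h
  have g15 : Good (sig red pt) cl 4360 := by
    have h := chk_sound (sig red pt) cl nb 2117 hnb c11 4157 g14 t11
    have e : c11.length = 202 := by decide +kernel
    rw [e] at h; exact h
  have g16 : Good (sig red pt) cl 4564 := by
    have h := chk_sound (sig red pt) cl nb 2117 hnb c12 4359 g15 t12
    have e : c12.length = 204 := by decide +kernel
    rw [e] at h; exact h
  have g17 : Good (sig red pt) cl 4773 := by
    have h := chk_sound (sig red pt) cl nb 2117 hnb c13 4563 g16 t13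
    have e : c13.length = 209 := by decide +kernel
    rw [e] at h; exact h
  have g18 : Good (sig red pt) cl 4971 := by
    have h := chk_sound (sig red pt) cl nb 2117 hnb c14 4772 g17 t14
    have e : c14.length = 198 := by decide +kernel
    rw [e] at h; exact h
  have g19 : Good (sig red pt) cl 5187 := by
    have h := chk_sound (sig red pt) cl nb 2117 hnb c15 4970 g18 t15
    have e : c15.length = 216 := by decide +kernel
    rw [e] at h; exact h
  have g20 : Good (sig red pt) cl 5372 := by
    have h := chk_sound (sig red pt) cl nb 2117 hnb c16 5186 g19 t16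
    have e : c16.length = 185 := by decide +kernel
    rw [e] at h; exact h
  have g21 : Good (sig red pt) cl 5575 := by
    have h := chk_sound (sig red pt) cl nb 2117 hnb c17 5371 g20 t17
    have e : c17.length = 203 := by decide +kernel
    rw [e] at h; exact h
  have g22 : Good (sig red pt) cl 5758 := by
    have h := chk_sound (sig red pt) cl nb 2117 hnb c18 5574 g21 t18
    have e : c18.length = 183 := by decide +kernel
    rw [e] at h; exact h
  have g23 : Good (sig red pt) cl 5912 := by
    have h := chk_sound (sig red pt) cl nb 2117 hnb c19 5757 g22 t19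
    have e : c19.length = 154 := by decide +kernel
    rw [e] at h; exact h
  have g24 : Good (sig red pt) cl 6105 := by
    have h := chk_sound (sig red pt) cl nb 2117 hnb c20 5911 g23 t20
    have e : c20.length = 193 := by decide +kernel
    rw [e] at h; exact h
  have g25 : Good (sig red pt) cl 6303 := by
    have h := chk_sound (sig red pt) cl nb 2117 hnb c21 6104 g24 t21
    have e : c21.length = 198 := by decide +kernel
    rw [e] at h; exact h
  have g26 : Good (sig red pt) cl 6491 := by
    have h := chk_sound (sig red pt) cl nb 2117 hnb c22 6302 g25 t22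
    have e : c22.length = 188 := by decide +kernel
    rw [e] at h; exact h
  have g27 : Good (sig red pt) cl 6660 := by
    have h := chk_sound (sig red pt) cl nb 2117 hnb c23 6490 g26 t23
    have e : c23.length = 169 := by decide +kernel
    rw [e] at h; exact h
  have g28 : Good (sig red pt) cl 6845 := by
    have h := chk_sound (sig red pt) cl nb 2117 hnb c24 6659 g27 t24
    have e : c24.length = 185 := by decide +kernel
    rw [e] at h; exact h
  have g29 : Good (sig red pt) cl 7010 := by
    have h := chk_sound (sig red pt) cl nb 2117 hnb c25 6844 g28 t25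
    have e : c25.length = 165 := by decide +kernel
    rw [e] at h; exact h
  have g30 : Good (sig red pt) cl 7201 := by
    have h := chk_sound (sig red pt) cl nb 2117 hnb c26 7009 g29 t26
    have e : c26.length = 191 := by decide +kernel
    rw [e] at h; exact h
  have g31 : Good (sig red pt) cl 7374 := by
    have h := chk_sound (sig red pt) cl nb 2117 hnb c27 7200 g30 t27
    have e : c27.length = 173 := by decide +kernel
    rw [e] at h; exact h
  have g32 : Good (sig red pt) cl 7562 := by
    have h := chk_sound (sig red pt) cl nb 2117 hnb c28 7373 g31 t28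
    have e : c28.length = 188 := by decide +kernel
    rw [e] at h; exact h
  have g33 : Good (sig red pt) cl 7749 := by
    have h := chk_sound (sig red pt) cl nb 2117 hnb c29 7561 g32 t29
    have e : c29.length = 187 := by decide +kernel
    rw [e] at h; exact h
  have g34 : Good (sig red pt) cl 7920 := by
    have h := chk_sound (sig red pt) cl nb 2117 hnb c30 7748 g33 t30
    have e : c30.length = 171 := by decide +kernel
    rw [e] at h; exact h
  have g35 : Good (sig red pt) cl 8126 := by
    have h := chk_sound (sig red pt) cl nb 2117 hnb c31 7919 g34 t31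
    have e : c31.length = 206 := by decide +kernel
    rw [e] at h; exact h
  have g36 : Good (sig red pt) cl 8296 := by
    have h := chk_sound (sig red pt) cl nb 2117 hnb c32 8125 g35 t32
    have e : c32.length = 170 := by decide +kernel
    rw [e] at h; exact h
  have g37 : Good (sig red pt) cl 8471 := by
    have h := chk_sound (sig red pt) cl nb 2117 hnb c33 8295 g36 t33
    have e : c33.length = 175 := by decide +kernel
    rw [e] at h; exact h
  have g38 : Good (sig red pt) cl 8632 := by
    have h := chk_sound (sig red pt) cl nb 2117 hnb c34 8470 g37 t34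
    have e : c34.length = 161 := by decide +kernel
    rw [e] at h; exact h
  have g39 : Good (sig red pt) cl 8790 := by
    have h := chk_sound (sig red pt) cl nb 2117 hnb c35 8631 g38 t35
    have e : c35.length = 158 := by decide +kernel
    rw [e] at h; exact h
  have g40 : Good (sig red pt) cl 8980 := by
    have h := chk_sound (sig red pt) cl nb 2117 hnb c36 8789 g39 t36
    have e : c36.length = 190 := by decide +kernel
    rw [e] at h; exact h
  have g41 : Good (sig red pt) cl 9187 := by
    have h := chk_sound (sig red pt) cl nb 2117 hnb c37 8979 g40 t37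
    have e : c37.length = 207 := by decide +kernel
    rw [e] at h; exact h
  have g42 : Good (sig red pt) cl 9374 := by
    have h := chk_sound (sig red pt) cl nb 2117 hnb c38 9186 g41 t38
    have e : c38.length = 187 := by decide +kernel
    rw [e] at h; exact h
  have g43 : Good (sig red pt) cl 9566 := by
    have h := chk_sound (sig red pt) cl nb 2117 hnb c39 9373 g42 t39
    have e : c39.length = 192 := by decide +kernel
    rw [e] at h; exact h
  have g44 : Good (sig red pt) cl 9728 := by
    have h := chk_sound (sig red pt) cl nb 2117 hnb c40 9565 g43 t40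
    have e : c40.length = 162 := by decide +kernel
    rw [e] at h; exact h
  have g45 : Good (sig red pt) cl 9909 := by
    have h := chk_sound (sig red pt) cl nb 2117 hnb c41 9727 g44 t41
    have e : c41.length = 181 := by decide +kernel
    rw [e] at h; exact h
  have g46 : Good (sig red pt) cl 10073 := by
    have h := chk_sound (sig red pt) cl nb 2117 hnb c42 9908 g45 t42
    have e : c42.length = 164 := by decide +kernel
    rw [e] at h; exact h
  have g47 : Good (sig red pt) cl 10248 := by
    have h := chk_sound (sig red pt) cl nb 2117 hnb c43 10072 g46 t43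
    have e : c43.length = 175 := by decide +kernel
    rw [e] at h; exact h
  have g48 : Good (sig red pt) cl 10410 := by
    have h := chk_sound (sig red pt) cl nb 2117 hnb c44 10247 g47 t44
    have e : c44.length = 162 := by decide +kernel
    rw [e] at h; exact h
  have g49 : Good (sig red pt) cl 10600 := by
    have h := chk_sound (sig red pt) cl nb 2117 hnb c45 10409 g48 t45
    have e : c45.length = 190 := by decide +kernel
    rw [e] at h; exact h
  have g50 : Good (sig red pt) cl 10763 := by
    have h := chk_sound (sig red pt) cl nb 2117 hnb c46 10599 g49 t46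
    have e : c46.length = 163 := by decide +kernel
    rw [e] at h; exact h
  have g51 : Good (sig red pt) cl 10881 := by
    have h := chk_sound (sig red pt) cl nb 2117 hnb c47 10762 g50 t47
    have e : c47.length = 118 := by decide +kernel
    rw [e] at h; exact h
  have g52 : Good (sig red pt) cl 11073 := by
    have h := chk_sound (sig red pt) cl nb 2117 hnb c48 10880 g51 t48
    have e : c48.length = 192 := by decide +kernel
    rw [e] at h; exact h
  have g53 : Good (sig red pt) cl 11260 := by
    have h := chk_sound (sig red pt) cl nb 2117 hnb c49 11072 g52 t49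
    have e : c49.length = 187 := by decide +kernel
    rw [e] at h; exact h
  have g54 : Good (sig red pt) cl 11449 := by
    have h := chk_sound (sig red pt) cl nb 2117 hnb c50 11259 g53 t50
    have e : c50.length = 189 := by decide +kernel
    rw [e] at h; exact h
  have g55 : Good (sig red pt) cl 11646 := by
    have h := chk_sound (sig red pt) cl nb 2117 hnb c51 11448 g54 t51
    have e : c51.length = 197 := by decide +kernel
    rw [e] at h; exact h
  have g56 : Good (sig red pt) cl 11811 := by
    have h := chk_sound (sig red pt) cl nb 2117 hnb c52 11645 g55 t52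
    have e : c52.length = 165 := by decide +kernel
    rw [e] at h; exact h
  have g57 : Good (sig red pt) cl 11959 := by
    have h := chk_sound (sig red pt) cl nb 2117 hnb c53 11810 g56 t53
    have e : c53.length = 148 := by decide +kernel
    rw [e] at h; exact h
  have g58 : Good (sig red pt) cl 12124 := by
    have h := chk_sound (sig red pt) cl nb 2117 hnb c54 11958 g57 t54
    have e : c54.length = 165 := by decide +kernel
    rw [e] at h; exact h
  have g59 : Good (sig red pt) cl 12299 := by
    have h := chk_sound (sig red pt) cl nb 2117 hnb c55 12123 g58 t55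
    have e : c55.length = 175 := by decide +kernel
    rw [e] at h; exact h
  have g60 : Good (sig red pt) cl 12452 := by
    have h := chk_sound (sig red pt) cl nb 2117 hnb c56 12298 g59 t56
    have e : c56.length = 153 := by decide +kernel
    rw [e] at h; exact h
  have g61 : Good (sig red pt) cl 12610 := by
    have h := chk_sound (sig red pt) cl nb 2117 hnb c57 12451 g60 t57
    have e : c57.length = 158 := by decide +kernel
    rw [e] at h; exact h
  have g62 : Good (sig red pt) cl 12757 := by
    have h := chk_sound (sig red pt) cl nb 2117 hnb c58 12609 g61 t58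
    have e : c58.length = 147 := by decide +kernel
    rw [e] at h; exact h
  have g63 : Good (sig red pt) cl 12952 := by
    have h := chk_sound (sig red pt) cl nb 2117 hnb c59 12756 g62 t59
    have e : c59.length = 195 := by decide +kernel
    rw [e] at h; exact h
  have g64 : Good (sig red pt) cl 13119 := by
    have h := chk_sound (sig red pt) cl nb 2117 hnb c60 12951 g63 t60
    have e : c60.length = 167 := by decide +kernel
    rw [e] at h; exact h
  have g65 : Good (sig red pt) cl 13285 := by
    have h := chk_sound (sig red pt) cl nb 2117 hnb c61 13118 g64 t61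
    have e : c61.length = 166 := by decide +kernel
    rw [e] at h; exact h
  have g66 : Good (sig red pt) cl 13442 := by
    have h := chk_sound (sig red pt) cl nb 2117 hnb c62 13284 g65 t62
    have e : c62.length = 157 := by decide +kernel
    rw [e] at h; exact h
  have g67 : Good (sig red pt) cl 13603 := by
    have h := chk_sound (sig red pt) cl nb 2117 hnb c63 13441 g66 t63
    have e : c63.length = 161 := by decide +kernel
    rw [e] at h; exact h
  have g68 : Good (sig red pt) cl 13770 := by
    have h := chk_sound (sig red pt) cl nb 2117 hnb c64 13602 g67 t64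
    have e : c64.length = 167 := by decide +kernel
    rw [e] at h; exact h
  have g69 : Good (sig red pt) cl 13936 := by
    have h := chk_sound (sig red pt) cl nb 2117 hnb c65 13769 g68 t65
    have e : c65.length = 166 := by decide +kernel
    rw [e] at h; exact h
  have g70 : Good (sig red pt) cl 14085 := by
    have h := chk_sound (sig red pt) cl nb 2117 hnb c66 13935 g69 t66
    have e : c66.length = 149 := by decide +kernel
    rw [e] at h; exact h
  have g71 : Good (sig red pt) cl 14224 := by
    have h := chk_sound (sig red pt) cl nb 2117 hnb c67 14084 g70 t67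
    have e : c67.length = 139 := by decide +kernel
    rw [e] at h; exact h
  have g72 : Good (sig red pt) cl 14389 := by
    have h := chk_sound (sig red pt) cl nb 2117 hnb c68 14223 g71 t68
    have e : c68.length = 165 := by decide +kernel
    rw [e] at h; exact h
  have g73 : Good (sig red pt) cl 14521 := by
    have h := chk_sound (sig red pt) cl nb 2117 hnb c69 14388 g72 t69
    have e : c69.length = 132 := by decide +kernel
    rw [e] at h; exact h
  have g74 : Good (sig red pt) cl 14663 := by
    have h := chk_sound (sig red pt) cl nb 2117 hnb c70 14520 g73 t70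
    have e : c70.length = 142 := by decide +kernel
    rw [e] at h; exact h
  have g75 : Good (sig red pt) cl 14835 := by
    have h := chk_sound (sig red pt) cl nb 2117 hnb c71 14662 g74 t71
    have e : c71.length = 172 := by decide +kernel
    rw [e] at h; exact h
  have g76 : Good (sig red pt) cl 15011 := by
    have h := chk_sound (sig red pt) cl nb 2117 hnb c72 14834 g75 t72
    have e : c72.length = 176 := by decide +kernel
    rw [e] at h; exact h
  have g77 : Good (sig red pt) cl 15147 := by
    have h := chk_sound (sig red pt) cl nb 2117 hnb c73 15010 g76 t73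
    have e : c73.length = 136 := by decide +kernel
    rw [e] at h; exact h
  have g78 : Good (sig red pt) cl 15286 := by
    have h := chk_sound (sig red pt) cl nb 2117 hnb c74 15146 g77 t74
    have e : c74.length = 139 := by decide +kernel
    rw [e] at h; exact h
  exact final3 (g78 15285 (by norm_num)) (by decide +kernel)

theorem forb : ∀ red : ℂ → Prop, Valid 6 red → Forb3 red 9 3 12 :=
  forb3_of 6 td9 td3 td12 pt 9 3 12 (by norm_num) hpt htd9 htd3 htd12 (by decide +kernel)
    (by decide +kernel) (by decide +kernel) fin

end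

end APL.P2

namespace APL.P3

noncomputable section

theorem fin (red : ℂ → Prop) (hv : Valid 6 red) : ¬ (sig red pt 0 ∧ sig red pt 1 ∧ sig red pt 2) := by
  have hnb : NbOK (sig red pt) nb 9 := by
    intro y hy a ha
    exact chkN_sound red 6 hv nb td1 pt hpt htd1 nbl 0 hN y (Nat.zero_le _) (by
      have : nbl.length = 9 := by decide +kernel
      omega) a ha
  have g0 : Good (sig red pt) cl 0 := fun j hj => absurd hj (Nat.not_lt_zero _)
  have g1 : Good (sig red pt) cl 1 := by
    have h := chkG_sound (sig red pt) cl 6 _ (fun n hn => ap_sound red 5 hv td1 pt hpt htd1 n hn) apl 0 g0 hA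
    have e : apl.length = 1 := by decide +kernel
    rw [e] at h; exact h
  have g2 : Good (sig red pt) cl 2 := by
    have h := chk_sound (sig red pt) cl nb 9 hnb c0 0 g1 t0
    have e : c0.length = 1 := by decide +kernel
    rw [e] at h; exact h
  exact final3 (g2 1 (by norm_num)) (by decide +kernel)

theorem forb : ∀ red : ℂ → Prop, Valid 6 red → Forb3 red 4 16 4 :=
  forb3_of 6 td4 td16 td4 pt 4 16 4 (by norm_num) hpt htd4 htd16 htd4 (by decide +kernel)
    (by decide +kernel) (by decide +kernel) fin

end

end APL.P3

namespace APL.P4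

noncomputable section

theorem fin (red : ℂ → Prop) (hv : Valid 6 red) : ¬ (sig red pt 0 ∧ sig red pt 1 ∧ sig red pt 2) := by
  have hnb : NbOK (sig red pt) nb 9 := by
    intro y hy a ha
    exact chkN_sound red 6 hv nb td1 pt hpt htd1 nbl 0 hN y (Nat.zero_le _) (by
      have : nbl.length = 9 := by decide +kernel
      omega) a ha
  have g0 : Good (sig red pt) cl 0 := fun j hj => absurd hj (Nat.not_lt_zero _)
  have g1 : Good (sig red pt) cl 1 := by
    have h := chkG_sound (sig red pt) cl 6 _ (fun n hn => ap_sound red 5 hv td1 pt hpt htd1 n hn) apl 0 g0 hA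
    have e : apl.length = 1 := by decide +kernel
    rw [e] at h; exact h
  have g2 : Good (sig red pt) cl 2 := by
    have h := chk_sound (sig red pt) cl nb 9 hnb c0 0 g1 t0
    have e : c0.length = 1 := by decide +kernel
    rw [e] at h; exact h
  exact final3 (g2 1 (by norm_num)) (by decide +kernel)

theorem forb : ∀ red : ℂ → Prop, Valid 6 red → Forb3 red 4 7 19 :=
  forb3_of 6 td4 td7 td19 pt 4 7 19 (by norm_num) hpt htd4 htd7 htd19 (by decide +kernel)
    (by decide +kernel) (by decide +kernel) fin

end

end APL.P4

namespace APL.P5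

noncomputable section

theorem fin (red : ℂ → Prop) (hv : Valid 6 red) : ¬ (sig red pt 0 ∧ sig red pt 1 ∧ sig red pt 2) := by
  have hnb : NbOK (sig red pt) nb 9 := by
    intro y hy a ha
    exact chkN_sound red 6 hv nb td1 pt hpt htd1 nbl 0 hN y (Nat.zero_le _) (by
      have : nbl.length = 9 := by decide +kernel
      omega) a ha
  have g0 : Good (sig red pt) cl 0 := fun j hj => absurd hj (Nat.not_lt_zero _)
  have g1 : Good (sig red pt) cl 1 := by
    have h := chkG_sound (sig red pt) cl 6 _ (fun n hn => ap_sound red 5 hv td1 pt hpt htd1 n hn) apl 0 g0 hA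
    have e : apl.length = 1 := by decide +kernel
    rw [e] at h; exact h
  have g2 : Good (sig red pt) cl 2 := by
    have h := chk_sound (sig red pt) cl nb 9 hnb c0 0 g1 t0
    have e : c0.length = 1 := by decide +kernel
    rw [e] at h; exact h
  exact final3 (g2 1 (by norm_num)) (by decide +kernel)

theorem forb : ∀ red : ℂ → Prop, Valid 6 red → Forb3 red 16 7 7 :=
  forb3_of 6 td16 td7 td7 pt 16 7 7 (by norm_num) hpt htd16 htd7 htd7 (by decide +kernel)
    (by decide +kernel) (by decide +kernel) fin

end

end APL.P5

namespace APL.P6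

noncomputable section

theorem fin (red : ℂ → Prop) (hv : Valid 6 red) : ¬ (sig red pt 0 ∧ sig red pt 1 ∧ sig red pt 2) := by
  have hnb : NbOK (sig red pt) nb 9 := by
    intro y hy a ha
    exact chkN_sound red 6 hv nb td1 pt hpt htd1 nbl 0 hN y (Nat.zero_le _) (by
      have : nbl.length = 9 := by decide +kernel
      omega) a ha
  have g0 : Good (sig red pt) cl 0 := fun j hj => absurd hj (Nat.not_lt_zero _)
  have g1 : Good (sig red pt) cl 1 := by
    have h := chkG_sound (sig red pt) cl 6 _ (fun n hn => ap_sound red 5 hv td1 pt hpt htd1 n hn) apl 0 g0 hA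
    have e : apl.length = 1 := by decide +kernel
    rw [e] at h; exact h
  have g2 : Good (sig red pt) cl 3 := by
    have h := chkG_sound (sig red pt) cl 3 _ (fun n hn => l3_sound red td9 td3 td12 pt 9 3 12 hpt htd9 htd3 htd12 (P2.forb red hv) n hn) s0 1 g1 hs0
    have e : s0.length = 2 := by decide +kernel
    rw [e] at h; exact h
  have g3 : Good (sig red pt) cl 4 := by
    have h := chk_sound (sig red pt) cl nb 9 hnb c0 2 g2 t0
    have e : c0.length = 1 := by decide +kernel
    rw [e] at h; exact h
  exact final3 (g3 3 (by norm_num)) (by decide +kernel)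

theorem forb : ∀ red : ℂ → Prop, Valid 6 red → Forb3 red 9 12 21 :=
  forb3_of 6 td9 td12 td21 pt 9 12 21 (by norm_num) hpt htd9 htd12 htd21 (by decide +kernel)
    (by decide +kernel) (by decide +kernel) fin

end

end APL.P6

namespace APL.P7

noncomputable section

theorem fin (red : ℂ → Prop) (hv : Valid 6 red) : ¬ (sig red pt 0 ∧ sig red pt 1 ∧ sig red pt 2) := by
  have hnb : NbOK (sig red pt) nb 19 := by
    intro y hy a ha
    exact chkN_sound red 6 hv nb td1 pt hpt htd1 nbl 0 hN y (Nat.zero_le _) (by
      have : nbl.length = 19 := by decide +kernel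
      omega) a ha
  have g0 : Good (sig red pt) cl 0 := fun j hj => absurd hj (Nat.not_lt_zero _)
  have g1 : Good (sig red pt) cl 3 := by
    have h := chkG_sound (sig red pt) cl 6 _ (fun n hn => ap_sound red 5 hv td1 pt hpt htd1 n hn) apl 0 g0 hA
    have e : apl.length = 3 := by decide +kernel
    rw [e] at h; exact h
  have g2 : Good (sig red pt) cl 7 := by
    have h := chkG_sound (sig red pt) cl 3 _ (fun n hn => l3_sound red td9 td3 td12 pt 9 3 12 hpt htd9 htd3 htd12 (P2.forb red hv) n hn) s0 3 g1 hs0
    have e : s0.length = 4 := by decide +kernel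
    rw [e] at h; exact h
  have g3 : Good (sig red pt) cl 8 := by
    have h := chkG_sound (sig red pt) cl 3 _ (fun n hn => l3_sound red td16 td7 td7 pt 16 7 7 hpt htd16 htd7 htd7 (P5.forb red hv) n hn) s1 7 g2 hs1
    have e : s1.length = 1 := by decide +kernel
    rw [e] at h; exact h
  have g4 : Good (sig red pt) cl 9 := by
    have h := chkG_sound (sig red pt) cl 3 _ (fun n hn => l3_sound red td9 td12 td21 pt 9 12 21 hpt htd9 htd12 htd21 (P6.forb red hv) n hn) s2 8 g3 hs2
    have e : s2.length = 1 := by decide +kernel
    rw [e] at h; exact h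
  have g5 : Good (sig red pt) cl 10 := by
    have h := chk_sound (sig red pt) cl nb 19 hnb c0 8 g4 t0
    have e : c0.length = 1 := by decide +kernel
    rw [e] at h; exact h
  exact final3 (g5 9 (by norm_num)) (by decide +kernel)

theorem forb : ∀ red : ℂ → Prop, Valid 6 red → Forb3 red 31 12 7 :=
  forb3_of 6 td31 td12 td7 pt 31 12 7 (by norm_num) hpt htd31 htd12 htd7 (by decide +kernel)
    (by decide +kernel) (by decide +kernel) fin

end

end APL.P7

namespace APL.P8

noncomputable section

theorem fin (red : ℂ → Prop) (hv : Valid 6 red) : ¬ (sig red pt 0 ∧ sig red pt 1 ∧ sig red pt 2) := by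
  have hnb : NbOK (sig red pt) nb 9 := by
    intro y hy a ha
    exact chkN_sound red 6 hv nb td1 pt hpt htd1 nbl 0 hN y (Nat.zero_le _) (by
      have : nbl.length = 9 := by decide +kernel
      omega) a ha
  have g0 : Good (sig red pt) cl 0 := fun j hj => absurd hj (Nat.not_lt_zero _)
  have g1 : Good (sig red pt) cl 1 := by
    have h := chkG_sound (sig red pt) cl 6 _ (fun n hn => ap_sound red 5 hv td1 pt hpt htd1 n hn) apl 0 g0 hA
    have e : apl.length = 1 := by decide +kernel
    rw [e] at h; exact h
  have g2 : Good (sig red pt) cl 3 := by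
    have h := chkG_sound (sig red pt) cl 3 _ (fun n hn => l3_sound red td16 td7 td7 pt 16 7 7 hpt htd16 htd7 htd7 (P5.forb red hv) n hn) s0 1 g1 hs0
    have e : s0.length = 2 := by decide +kernel
    rw [e] at h; exact h
  have g3 : Good (sig red pt) cl 4 := by
    have h := chk_sound (sig red pt) cl nb 9 hnb c0 2 g2 t0
    have e : c0.length = 1 := by decide +kernel
    rw [e] at h; exact h
  exact final3 (g3 3 (by norm_num)) (by decide +kernel)

theorem forb : ∀ red : ℂ → Prop, Valid 6 red → Forb3 red 16 16 16 :=
  forb3_of 6 td16 td16 td16 pt 16 16 16 (by norm_num) hpt htd16 htd16 htd16 (by decide +kernel)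
    (by decide +kernel) (by decide +kernel) fin

end

end APL.P8

namespace APL.P9

noncomputable section

theorem fin (red : ℂ → Prop) (hv : Valid 6 red) : ¬ (sig red pt 0 ∧ sig red pt 1 ∧ sig red pt 2) := by
  have hnb : NbOK (sig red pt) nb 21 := by
    intro y hy a ha
    exact chkN_sound red 6 hv nb td1 pt hpt htd1 nbl 0 hN y (Nat.zero_le _) (by
      have : nbl.length = 21 := by decide +kernel
      omega) a ha
  have g0 : Good (sig red pt) cl 0 := fun j hj => absurd hj (Nat.not_lt_zero _)
  have g1 : Good (sig red pt) cl 3 := by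
    have h := chkG_sound (sig red pt) cl 6 _ (fun n hn => ap_sound red 5 hv td1 pt hpt htd1 n hn) apl 0 g0 hA
    have e : apl.length = 3 := by decide +kernel
    rw [e] at h; exact h
  have g2 : Good (sig red pt) cl 4 := by
    have h := chkG_sound (sig red pt) cl 3 _ (fun n hn => l3_sound red td9 td9 td9 pt 9 9 9 hpt htd9 htd9 htd9 (P1.forb red hv) n hn) s0 3 g1 hs0
    have e : s0.length = 1 := by decide +kernel
    rw [e] at h; exact h
  have g3 : Good (sig red pt) cl 6 := by
    have h := chkG_sound (sig red pt) cl 3 _ (fun n hn => l3_sound red td9 td3 td12 pt 9 3 12 hpt htd9 htd3 htd12 (P2.forb red hv) n hn) s1 4 g2 hs1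
    have e : s1.length = 2 := by decide +kernel
    rw [e] at h; exact h
  have g4 : Good (sig red pt) cl 7 := by
    have h := chkG_sound (sig red pt) cl 3 _ (fun n hn => l3_sound red td4 td7 td19 pt 4 7 19 hpt htd4 htd7 htd19 (P4.forb red hv) n hn) s2 6 g3 hs2
    have e : s2.length = 1 := by decide +kernel
    rw [e] at h; exact h
  have g5 : Good (sig red pt) cl 8 := by
    have h := chkG_sound (sig red pt) cl 3 _ (fun n hn => l3_sound red td16 td7 td7 pt 16 7 7 hpt htd16 htd7 htd7 (P5.forb red hv) n hn) s3 7 g4 hs3
    have e : s3.length = 1 := by decide +kernel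
    rw [e] at h; exact h
  have g6 : Good (sig red pt) cl 9 := by
    have h := chkG_sound (sig red pt) cl 3 _ (fun n hn => l3_sound red td31 td12 td7 pt 31 12 7 hpt htd31 htd12 htd7 (P7.forb red hv) n hn) s4 8 g5 hs4
    have e : s4.length = 1 := by decide +kernel
    rw [e] at h; exact h
  have g7 : Good (sig red pt) cl 10 := by
    have h := chk_sound (sig red pt) cl nb 21 hnb c0 8 g6 t0
    have e : c0.length = 1 := by decide +kernel
    rw [e] at h; exact h
  exact final3 (g7 9 (by norm_num)) (by decide +kernel)

theorem forb : ∀ red : ℂ → Prop, Valid 6 red → Forb3 red 9 19 31 :=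
  forb3_of 6 td9 td19 td31 pt 9 19 31 (by norm_num) hpt htd9 htd19 htd31 (by decide +kernel)
    (by decide +kernel) (by decide +kernel) fin

end

end APL.P9

namespace APL.P10

noncomputable section

theorem fin (red : ℂ → Prop) (hv : Valid 6 red) : ¬ (sig red pt 0 ∧ sig red pt 1 ∧ sig red pt 2) := by
  have hnb : NbOK (sig red pt) nb 18 := by
    intro y hy a ha
    exact chkN_sound red 6 hv nb td1 pt hpt htd1 nbl 0 hN y (Nat.zero_le _) (by
      have : nbl.length = 18 := by decide +kernel
      omega) a ha
  have g0 : Good (sig red pt) cl 0 := fun j hj => absurd hj (Nat.not_lt_zero _)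
  have g1 : Good (sig red pt) cl 3 := by
    have h := chkG_sound (sig red pt) cl 6 _ (fun n hn => ap_sound red 5 hv td1 pt hpt htd1 n hn) apl 0 g0 hA
    have e : apl.length = 3 := by decide +kernel
    rw [e] at h; exact h
  have g2 : Good (sig red pt) cl 5 := by
    have h := chkG_sound (sig red pt) cl 3 _ (fun n hn => l3_sound red td9 td3 td12 pt 9 3 12 hpt htd9 htd3 htd12 (P2.forb red hv) n hn) s0 3 g1 hs0
    have e : s0.length = 2 := by decide +kernel
    rw [e] at h; exact h
  have g3 : Good (sig red pt) cl 6 := by
    have h := chkG_sound (sig red pt) cl 3 _ (fun n hn => l3_sound red td16 td16 td16 pt 16 16 16 hpt htd16 htd16 htd16 (P8.forb red hv) n hn) s1 5 g2 hs1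
    have e : s1.length = 1 := by decide +kernel
    rw [e] at h; exact h
  have g4 : Good (sig red pt) cl 8 := by
    have h := chk_sound (sig red pt) cl nb 18 hnb c0 5 g3 t0
    have e : c0.length = 2 := by decide +kernel
    rw [e] at h; exact h
  exact final3 (g4 7 (by norm_num)) (by decide +kernel)

theorem forb : ∀ red : ℂ → Prop, Valid 6 red → Forb3 red 16 31 31 :=
  forb3_of 6 td16 td31 td31 pt 16 31 31 (by norm_num) hpt htd16 htd31 htd31 (by decide +kernel)
    (by decide +kernel) (by decide +kernel) fin

end

end APL.P10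

namespace APL.P11

noncomputable section

theorem fin (red : ℂ → Prop) (hv : Valid 6 red) : ¬ (sig red pt 0 ∧ sig red pt 1 ∧ sig red pt 2) := by
  have hnb : NbOK (sig red pt) nb 54 := by
    intro y hy a ha
    exact chkN_sound red 6 hv nb td1 pt hpt htd1 nbl 0 hN y (Nat.zero_le _) (by
      have : nbl.length = 54 := by decide +kernel
      omega) a ha
  have g0 : Good (sig red pt) cl 0 := fun j hj => absurd hj (Nat.not_lt_zero _)
  have g1 : Good (sig red pt) cl 13 := by
    have h := chkG_sound (sig red pt) cl 6 _ (fun n hn => ap_sound red 5 hv td1 pt hpt htd1 n hn) apl 0 g0 hA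
    have e : apl.length = 13 := by decide +kernel
    rw [e] at h; exact h
  have g2 : Good (sig red pt) cl 22 := by
    have h := chkG_sound (sig red pt) cl 3 _ (fun n hn => l3_sound red td9 td3 td12 pt 9 3 12 hpt htd9 htd3 htd12 (P2.forb red hv) n hn) s0 13 g1 hs0
    have e : s0.length = 9 := by decide +kernel
    rw [e] at h; exact h
  have g3 : Good (sig red pt) cl 27 := by
    have h := chkG_sound (sig red pt) cl 3 _ (fun n hn => l3_sound red td4 td7 td19 pt 4 7 19 hpt htd4 htd7 htd19 (P4.forb red hv) n hn) s1 22 g2 hs1
    have e : s1.length = 5 := by decide +kernel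
    rw [e] at h; exact h
  have g4 : Good (sig red pt) cl 29 := by
    have h := chkG_sound (sig red pt) cl 3 _ (fun n hn => l3_sound red td16 td7 td7 pt 16 7 7 hpt htd16 htd7 htd7 (P5.forb red hv) n hn) s2 27 g3 hs2
    have e : s2.length = 2 := by decide +kernel
    rw [e] at h; exact h
  have g5 : Good (sig red pt) cl 33 := by
    have h := chkG_sound (sig red pt) cl 3 _ (fun n hn => l3_sound red td9 td12 td21 pt 9 12 21 hpt htd9 htd12 htd21 (P6.forb red hv) n hn) s3 29 g4 hs3
    have e : s3.length = 4 := by decide +kernel
    rw [e] at h; exact h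
  have g6 : Good (sig red pt) cl 36 := by
    have h := chkG_sound (sig red pt) cl 3 _ (fun n hn => l3_sound red td31 td12 td7 pt 31 12 7 hpt htd31 htd12 htd7 (P7.forb red hv) n hn) s4 33 g5 hs4
    have e : s4.length = 3 := by decide +kernel
    rw [e] at h; exact h
  have g7 : Good (sig red pt) cl 40 := by
    have h := chk_sound (sig red pt) cl nb 54 hnb c0 35 g6 t0
    have e : c0.length = 4 := by decide +kernel
    rw [e] at h; exact h
  exact final3 (g7 39 (by norm_num)) (by decide +kernel)

theorem forb : ∀ red : ℂ → Prop, Valid 6 red → Forb3 red 21 12 27 :=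
  forb3_of 6 td21 td12 td27 pt 21 12 27 (by norm_num) hpt htd21 htd12 htd27 (by decide +kernel)
    (by decide +kernel) (by decide +kernel) fin

end

end APL.P11

namespace APL.P12

noncomputable section

theorem fin (red : ℂ → Prop) (hv : Valid 6 red) : ¬ (sig red pt 0 ∧ sig red pt 1 ∧ sig red pt 2) := by
  have hnb : NbOK (sig red pt) nb 614 := by
    intro y hy a ha
    exact chkN_sound red 6 hv nb td1 pt hpt htd1 nbl 0 hN y (Nat.zero_le _) (by
      have : nbl.length = 614 := by decide +kernel
      omega) a ha
  have g0 : Good (sig red pt) cl 0 := fun j hj => absurd hj (Nat.not_lt_zero _)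
  have g1 : Good (sig red pt) cl 280 := by
    have h := chkG_sound (sig red pt) cl 6 _ (fun n hn => ap_sound red 5 hv td1 pt hpt htd1 n hn) apl 0 g0 hA
    have e : apl.length = 280 := by decide +kernel
    rw [e] at h; exact h
  have g2 : Good (sig red pt) cl 389 := by
    have h := chkG_sound (sig red pt) cl 3 _ (fun n hn => l3_sound red td9 td3 td12 pt 9 3 12 hpt htd9 htd3 htd12 (P2.forb red hv) n hn) s0 280 g1 hs0
    have e : s0.length = 109 := by decide +kernel
    rw [e] at h; exact h
  have g3 : Good (sig red pt) cl 392 := by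
    have h := chkG_sound (sig red pt) cl 3 _ (fun n hn => l3_sound red td4 td16 td4 pt 4 16 4 hpt htd4 htd16 htd4 (P3.forb red hv) n hn) s1 389 g2 hs1
    have e : s1.length = 3 := by decide +kernel
    rw [e] at h; exact h
  have g4 : Good (sig red pt) cl 461 := by
    have h := chkG_sound (sig red pt) cl 3 _ (fun n hn => l3_sound red td4 td7 td19 pt 4 7 19 hpt htd4 htd7 htd19 (P4.forb red hv) n hn) s2 392 g3 hs2
    have e : s2.length = 69 := by decide +kernel
    rw [e] at h; exact h
  have g5 : Good (sig red pt) cl 491 := by
    have h := chkG_sound (sig red pt) cl 3 _ (fun n hn => l3_sound red td16 td7 td7 pt 16 7 7 hpt htd16 htd7 htd7 (P5.forb red hv) n hn) s3 461 g4 hs3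
    have e : s3.length = 30 := by decide +kernel
    rw [e] at h; exact h
  have g6 : Good (sig red pt) cl 506 := by
    have h := chkG_sound (sig red pt) cl 3 _ (fun n hn => l3_sound red td9 td12 td21 pt 9 12 21 hpt htd9 htd12 htd21 (P6.forb red hv) n hn) s4 491 g5 hs4
    have e : s4.length = 15 := by decide +kernel
    rw [e] at h; exact h
  have g7 : Good (sig red pt) cl 537 := by
    have h := chkG_sound (sig red pt) cl 3 _ (fun n hn => l3_sound red td31 td12 td7 pt 31 12 7 hpt htd31 htd12 htd7 (P7.forb red hv) n hn) s5 506 g6 hs5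
    have e : s5.length = 31 := by decide +kernel
    rw [e] at h; exact h
  have g8 : Good (sig red pt) cl 541 := by
    have h := chkG_sound (sig red pt) cl 3 _ (fun n hn => l3_sound red td9 td19 td31 pt 9 19 31 hpt htd9 htd19 htd31 (P9.forb red hv) n hn) s6 537 g7 hs6
    have e : s6.length = 4 := by decide +kernel
    rw [e] at h; exact h
  have g9 : Good (sig red pt) cl 575 := by
    have h := chkG_sound (sig red pt) cl 3 _ (fun n hn => l3_sound red td21 td12 td27 pt 21 12 27 hpt htd21 htd12 htd27 (P11.forb red hv) n hn) s7 541 g8 hs7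
    have e : s7.length = 34 := by decide +kernel
    rw [e] at h; exact h
  have g10 : Good (sig red pt) cl 675 := by
    have h := chk_sound (sig red pt) cl nb 614 hnb c0 574 g9 t0
    have e : c0.length = 100 := by decide +kernel
    rw [e] at h; exact h
  have g11 : Good (sig red pt) cl 784 := by
    have h := chk_sound (sig red pt) cl nb 614 hnb c1 674 g10 t1
    have e : c1.length = 109 := by decide +kernel
    rw [e] at h; exact h
  have g12 : Good (sig red pt) cl 884 := by
    have h := chk_sound (sig red pt) cl nb 614 hnb c2 783 g11 t2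
    have e : c2.length = 100 := by decide +kernel
    rw [e] at h; exact h
  have g13 : Good (sig red pt) cl 974 := by
    have h := chk_sound (sig red pt) cl nb 614 hnb c3 883 g12 t3
    have e : c3.length = 90 := by decide +kernel
    rw [e] at h; exact h
  have g14 : Good (sig red pt) cl 1074 := by
    have h := chk_sound (sig red pt) cl nb 614 hnb c4 973 g13 t4
    have e : c4.length = 100 := by decide +kernel
    rw [e] at h; exact h
  have g15 : Good (sig red pt) cl 1159 := by
    have h := chk_sound (sig red pt) cl nb 614 hnb c5 1073 g14 t5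
    have e : c5.length = 85 := by decide +kernel
    rw [e] at h; exact h
  have g16 : Good (sig red pt) cl 1172 := by
    have h := chk_sound (sig red pt) cl nb 614 hnb c6 1158 g15 t6
    have e : c6.length = 13 := by decide +kernel
    rw [e] at h; exact h
  exact final3 (g16 1171 (by norm_num)) (by decide +kernel)

theorem forb : ∀ red : ℂ → Prop, Valid 6 red → Forb3 red 31 12 37 :=
  forb3_of 6 td31 td12 td37 pt 31 12 37 (by norm_num) hpt htd31 htd12 htd37 (by decide +kernel)
    (by decide +kernel) (by decide +kernel) fin

end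

end APL.P12

namespace APL.P13

noncomputable section

theorem fin (red : ℂ → Prop) (hv : Valid 6 red) : ¬ (sig red pt 0 ∧ sig red pt 1 ∧ sig red pt 2) := by
  have hnb : NbOK (sig red pt) nb 531 := by
    intro y hy a ha
    exact chkN_sound red 6 hv nb td1 pt hpt htd1 nbl 0 hN y (Nat.zero_le _) (by
      have : nbl.length = 531 := by decide +kernel
      omega) a ha
  have g0 : Good (sig red pt) cl 0 := fun j hj => absurd hj (Nat.not_lt_zero _)
  have g1 : Good (sig red pt) cl 214 := by
    have h := chkG_sound (sig red pt) cl 6 _ (fun n hn => ap_sound red 5 hv td1 pt hpt htd1 n hn) apl 0 g0 hA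
    have e : apl.length = 214 := by decide +kernel
    rw [e] at h; exact h
  have g2 : Good (sig red pt) cl 311 := by
    have h := chkG_sound (sig red pt) cl 3 _ (fun n hn => l3_sound red td9 td3 td12 pt 9 3 12 hpt htd9 htd3 htd12 (P2.forb red hv) n hn) s0 214 g1 hs0
    have e : s0.length = 97 := by decide +kernel
    rw [e] at h; exact h
  have g3 : Good (sig red pt) cl 313 := by
    have h := chkG_sound (sig red pt) cl 3 _ (fun n hn => l3_sound red td4 td16 td4 pt 4 16 4 hpt htd4 htd16 htd4 (P3.forb red hv) n hn) s1 311 g2 hs1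
    have e : s1.length = 2 := by decide +kernel
    rw [e] at h; exact h
  have g4 : Good (sig red pt) cl 358 := by
    have h := chkG_sound (sig red pt) cl 3 _ (fun n hn => l3_sound red td4 td7 td19 pt 4 7 19 hpt htd4 htd7 htd19 (P4.forb red hv) n hn) s2 313 g3 hs2
    have e : s2.length = 45 := by decide +kernel
    rw [e] at h; exact h
  have g5 : Good (sig red pt) cl 369 := by
    have h := chkG_sound (sig red pt) cl 3 _ (fun n hn => l3_sound red td16 td7 td7 pt 16 7 7 hpt htd16 htd7 htd7 (P5.forb red hv) n hn) s3 358 g4 hs3
    have e : s3.length = 11 := by decide +kernel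
    rw [e] at h; exact h
  have g6 : Good (sig red pt) cl 379 := by
    have h := chkG_sound (sig red pt) cl 3 _ (fun n hn => l3_sound red td9 td12 td21 pt 9 12 21 hpt htd9 htd12 htd21 (P6.forb red hv) n hn) s4 369 g5 hs4
    have e : s4.length = 10 := by decide +kernel
    rw [e] at h; exact h
  have g7 : Good (sig red pt) cl 400 := by
    have h := chkG_sound (sig red pt) cl 3 _ (fun n hn => l3_sound red td31 td12 td7 pt 31 12 7 hpt htd31 htd12 htd7 (P7.forb red hv) n hn) s5 379 g6 hs5
    have e : s5.length = 21 := by decide +kernel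
    rw [e] at h; exact h
  have g8 : Good (sig red pt) cl 401 := by
    have h := chkG_sound (sig red pt) cl 3 _ (fun n hn => l3_sound red td9 td19 td31 pt 9 19 31 hpt htd9 htd19 htd31 (P9.forb red hv) n hn) s6 400 g7 hs6
    have e : s6.length = 1 := by decide +kernel
    rw [e] at h; exact h
  have g9 : Good (sig red pt) cl 402 := by
    have h := chkG_sound (sig red pt) cl 3 _ (fun n hn => l3_sound red td16 td31 td31 pt 16 31 31 hpt htd16 htd31 htd31 (P10.forb red hv) n hn) s7 401 g8 hs7
    have e : s7.length = 1 := by decide +kernel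
    rw [e] at h; exact h
  have g10 : Good (sig red pt) cl 422 := by
    have h := chkG_sound (sig red pt) cl 3 _ (fun n hn => l3_sound red td21 td12 td27 pt 21 12 27 hpt htd21 htd12 htd27 (P11.forb red hv) n hn) s8 402 g9 hs8
    have e : s8.length = 20 := by decide +kernel
    rw [e] at h; exact h
  have g11 : Good (sig red pt) cl 426 := by
    have h := chkG_sound (sig red pt) cl 3 _ (fun n hn => l3_sound red td31 td12 td37 pt 31 12 37 hpt htd31 htd12 htd37 (P12.forb red hv) n hn) s9 422 g10 hs9
    have e : s9.length = 4 := by decide +kernel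
    rw [e] at h; exact h
  have g12 : Good (sig red pt) cl 542 := by
    have h := chk_sound (sig red pt) cl nb 531 hnb c0 425 g11 t0
    have e : c0.length = 116 := by decide +kernel
    rw [e] at h; exact h
  have g13 : Good (sig red pt) cl 610 := by
    have h := chk_sound (sig red pt) cl nb 531 hnb c1 541 g12 t1
    have e : c1.length = 68 := by decide +kernel
    rw [e] at h; exact h
  exact final3 (g13 609 (by norm_num)) (by decide +kernel)

theorem forb : ∀ red : ℂ → Prop, Valid 6 red → Forb3 red 31 13 12 :=
  forb3_of 6 td31 td13 td12 pt 31 13 12 (by norm_num) hpt htd31 htd13 htd12 (by decide +kernel)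
    (by decide +kernel) (by decide +kernel) fin

end

end APL.P13

namespace APL.P14

noncomputable section

theorem fin (red : ℂ → Prop) (hv : Valid 6 red) : ¬ (sig red pt 0 ∧ sig red pt 1 ∧ sig red pt 2) := by
  have hnb : NbOK (sig red pt) nb 1318 := by
    intro y hy a ha
    exact chkN_sound red 6 hv nb td1 pt hpt htd1 nbl 0 hN y (Nat.zero_le _) (by
      have : nbl.length = 1318 := by decide +kernel
      omega) a ha
  have g0 : Good (sig red pt) cl 0 := fun j hj => absurd hj (Nat.not_lt_zero _)
  have g1 : Good (sig red pt) cl 498 := by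
    have h := chkG_sound (sig red pt) cl 6 _ (fun n hn => ap_sound red 5 hv td1 pt hpt htd1 n hn) apl 0 g0 hA
    have e : apl.length = 498 := by decide +kernel
    rw [e] at h; exact h
  have g2 : Good (sig red pt) cl 502 := by
    have h := chkG_sound (sig red pt) cl 3 _ (fun n hn => l3_sound red td9 td9 td9 pt 9 9 9 hpt htd9 htd9 htd9 (P1.forb red hv) n hn) s0 498 g1 hs0
    have e : s0.length = 4 := by decide +kernel
    rw [e] at h; exact h
  have g3 : Good (sig red pt) cl 642 := by
    have h := chkG_sound (sig red pt) cl 3 _ (fun n hn => l3_sound red td9 td3 td12 pt 9 3 12 hpt htd9 htd3 htd12 (P2.forb red hv) n hn) s1 502 g2 hs1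
    have e : s1.length = 140 := by decide +kernel
    rw [e] at h; exact h
  have g4 : Good (sig red pt) cl 649 := by
    have h := chkG_sound (sig red pt) cl 3 _ (fun n hn => l3_sound red td4 td16 td4 pt 4 16 4 hpt htd4 htd16 htd4 (P3.forb red hv) n hn) s2 642 g3 hs2
    have e : s2.length = 7 := by decide +kernel
    rw [e] at h; exact h
  have g5 : Good (sig red pt) cl 780 := by
    have h := chkG_sound (sig red pt) cl 3 _ (fun n hn => l3_sound red td4 td7 td19 pt 4 7 19 hpt htd4 htd7 htd19 (P4.forb red hv) n hn) s3 649 g4 hs3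
    have e : s3.length = 131 := by decide +kernel
    rw [e] at h; exact h
  have g6 : Good (sig red pt) cl 814 := by
    have h := chkG_sound (sig red pt) cl 3 _ (fun n hn => l3_sound red td16 td7 td7 pt 16 7 7 hpt htd16 htd7 htd7 (P5.forb red hv) n hn) s4 780 g5 hs4
    have e : s4.length = 34 := by decide +kernel
    rw [e] at h; exact h
  have g7 : Good (sig red pt) cl 819 := by
    have h := chkG_sound (sig red pt) cl 3 _ (fun n hn => l3_sound red td9 td12 td21 pt 9 12 21 hpt htd9 htd12 htd21 (P6.forb red hv) n hn) s5 814 g6 hs5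
    have e : s5.length = 5 := by decide +kernel
    rw [e] at h; exact h
  have g8 : Good (sig red pt) cl 838 := by
    have h := chkG_sound (sig red pt) cl 3 _ (fun n hn => l3_sound red td31 td12 td7 pt 31 12 7 hpt htd31 htd12 htd7 (P7.forb red hv) n hn) s6 819 g7 hs6
    have e : s6.length = 19 := by decide +kernel
    rw [e] at h; exact h
  have g9 : Good (sig red pt) cl 846 := by
    have h := chkG_sound (sig red pt) cl 3 _ (fun n hn => l3_sound red td9 td19 td31 pt 9 19 31 hpt htd9 htd19 htd31 (P9.forb red hv) n hn) s7 838 g8 hs7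
    have e : s7.length = 8 := by decide +kernel
    rw [e] at h; exact h
  have g10 : Good (sig red pt) cl 847 := by
    have h := chkG_sound (sig red pt) cl 3 _ (fun n hn => l3_sound red td16 td31 td31 pt 16 31 31 hpt htd16 htd31 htd31 (P10.forb red hv) n hn) s8 846 g9 hs8
    have e : s8.length = 1 := by decide +kernel
    rw [e] at h; exact h
  have g11 : Good (sig red pt) cl 866 := by
    have h := chkG_sound (sig red pt) cl 3 _ (fun n hn => l3_sound red td21 td12 td27 pt 21 12 27 hpt htd21 htd12 htd27 (P11.forb red hv) n hn) s9 847 g10 hs9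
    have e : s9.length = 19 := by decide +kernel
    rw [e] at h; exact h
  have g12 : Good (sig red pt) cl 877 := by
    have h := chkG_sound (sig red pt) cl 3 _ (fun n hn => l3_sound red td31 td12 td37 pt 31 12 37 hpt htd31 htd12 htd37 (P12.forb red hv) n hn) s10 866 g11 hs10
    have e : s10.length = 11 := by decide +kernel
    rw [e] at h; exact h
  have g13 : Good (sig red pt) cl 913 := by
    have h := chkG_sound (sig red pt) cl 3 _ (fun n hn => l3_sound red td31 td13 td12 pt 31 13 12 hpt htd31 htd13 htd12 (P13.forb red hv) n hn) s11 877 g12 hs11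
    have e : s11.length = 36 := by decide +kernel
    rw [e] at h; exact h
  have g14 : Good (sig red pt) cl 1007 := by
    have h := chk_sound (sig red pt) cl nb 1318 hnb c0 912 g13 t0
    have e : c0.length = 94 := by decide +kernel
    rw [e] at h; exact h
  have g15 : Good (sig red pt) cl 1096 := by
    have h := chk_sound (sig red pt) cl nb 1318 hnb c1 1006 g14 t1
    have e : c1.length = 89 := by decide +kernel
    rw [e] at h; exact h
  have g16 : Good (sig red pt) cl 1168 := by
    have h := chk_sound (sig red pt) cl nb 1318 hnb c2 1095 g15 t2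
    have e : c2.length = 72 := by decide +kernel
    rw [e] at h; exact h
  have g17 : Good (sig red pt) cl 1224 := by
    have h := chk_sound (sig red pt) cl nb 1318 hnb c3 1167 g16 t3
    have e : c3.length = 56 := by decide +kernel
    rw [e] at h; exact h
  exact final3 (g17 1223 (by norm_num)) (by decide +kernel)

theorem forb : ∀ red : ℂ → Prop, Valid 6 red → Forb3 red 31 37 7 :=
  forb3_of 6 td31 td37 td7 pt 31 37 7 (by norm_num) hpt htd31 htd37 htd7 (by decide +kernel)
    (by decide +kernel) (by decide +kernel) fin

end

end APL.P14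

namespace APL.P15

noncomputable section

theorem fin (red : ℂ → Prop) (hv : Valid 6 red) : ¬ (sig red pt 0 ∧ sig red pt 1 ∧ sig red pt 2) := by
  have hnb : NbOK (sig red pt) nb 1094 := by
    intro y hy a ha
    exact chkN_sound red 6 hv nb td1 pt hpt htd1 nbl 0 hN y (Nat.zero_le _) (by
      have : nbl.length = 1094 := by decide +kernel
      omega) a ha
  have g0 : Good (sig red pt) cl 0 := fun j hj => absurd hj (Nat.not_lt_zero _)
  have g1 : Good (sig red pt) cl 411 := by
    have h := chkG_sound (sig red pt) cl 6 _ (fun n hn => ap_sound red 5 hv td1 pt hpt htd1 n hn) apl 0 g0 hA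
    have e : apl.length = 411 := by decide +kernel
    rw [e] at h; exact h
  have g2 : Good (sig red pt) cl 412 := by
    have h := chkG_sound (sig red pt) cl 3 _ (fun n hn => l3_sound red td9 td9 td9 pt 9 9 9 hpt htd9 htd9 htd9 (P1.forb red hv) n hn) s0 411 g1 hs0
    have e : s0.length = 1 := by decide +kernel
    rw [e] at h; exact h
  have g3 : Good (sig red pt) cl 532 := by
    have h := chkG_sound (sig red pt) cl 3 _ (fun n hn => l3_sound red td9 td3 td12 pt 9 3 12 hpt htd9 htd3 htd12 (P2.forb red hv) n hn) s1 412 g2 hs1
    have e : s1.length = 120 := by decide +kernel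
    rw [e] at h; exact h
  have g4 : Good (sig red pt) cl 535 := by
    have h := chkG_sound (sig red pt) cl 3 _ (fun n hn => l3_sound red td4 td16 td4 pt 4 16 4 hpt htd4 htd16 htd4 (P3.forb red hv) n hn) s2 532 g3 hs2
    have e : s2.length = 3 := by decide +kernel
    rw [e] at h; exact h
  have g5 : Good (sig red pt) cl 612 := by
    have h := chkG_sound (sig red pt) cl 3 _ (fun n hn => l3_sound red td4 td7 td19 pt 4 7 19 hpt htd4 htd7 htd19 (P4.forb red hv) n hn) s3 535 g4 hs3
    have e : s3.length = 77 := by decide +kernel
    rw [e] at h; exact h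
  have g6 : Good (sig red pt) cl 639 := by
    have h := chkG_sound (sig red pt) cl 3 _ (fun n hn => l3_sound red td16 td7 td7 pt 16 7 7 hpt htd16 htd7 htd7 (P5.forb red hv) n hn) s4 612 g5 hs4
    have e : s4.length = 27 := by decide +kernel
    rw [e] at h; exact h
  have g7 : Good (sig red pt) cl 641 := by
    have h := chkG_sound (sig red pt) cl 3 _ (fun n hn => l3_sound red td9 td12 td21 pt 9 12 21 hpt htd9 htd12 htd21 (P6.forb red hv) n hn) s5 639 g6 hs5
    have e : s5.length = 2 := by decide +kernel
    rw [e] at h; exact h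
  have g8 : Good (sig red pt) cl 653 := by
    have h := chkG_sound (sig red pt) cl 3 _ (fun n hn => l3_sound red td31 td12 td7 pt 31 12 7 hpt htd31 htd12 htd7 (P7.forb red hv) n hn) s6 641 g7 hs6
    have e : s6.length = 12 := by decide +kernel
    rw [e] at h; exact h
  have g9 : Good (sig red pt) cl 659 := by
    have h := chkG_sound (sig red pt) cl 3 _ (fun n hn => l3_sound red td9 td19 td31 pt 9 19 31 hpt htd9 htd19 htd31 (P9.forb red hv) n hn) s7 653 g8 hs7
    have e : s7.length = 6 := by decide +kernel
    rw [e] at h; exact h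
  have g10 : Good (sig red pt) cl 678 := by
    have h := chkG_sound (sig red pt) cl 3 _ (fun n hn => l3_sound red td21 td12 td27 pt 21 12 27 hpt htd21 htd12 htd27 (P11.forb red hv) n hn) s8 659 g9 hs8
    have e : s8.length = 19 := by decide +kernel
    rw [e] at h; exact h
  have g11 : Good (sig red pt) cl 683 := by
    have h := chkG_sound (sig red pt) cl 3 _ (fun n hn => l3_sound red td31 td12 td37 pt 31 12 37 hpt htd31 htd12 htd37 (P12.forb red hv) n hn) s9 678 g10 hs9
    have e : s9.length = 5 := by decide +kernel
    rw [e] at h; exact h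
  have g12 : Good (sig red pt) cl 714 := by
    have h := chkG_sound (sig red pt) cl 3 _ (fun n hn => l3_sound red td31 td13 td12 pt 31 13 12 hpt htd31 htd13 htd12 (P13.forb red hv) n hn) s10 683 g11 hs10
    have e : s10.length = 31 := by decide +kernel
    rw [e] at h; exact h
  have g13 : Good (sig red pt) cl 722 := by
    have h := chkG_sound (sig red pt) cl 3 _ (fun n hn => l3_sound red td31 td37 td7 pt 31 37 7 hpt htd31 htd37 htd7 (P14.forb red hv) n hn) s11 714 g12 hs11
    have e : s11.length = 8 := by decide +kernel
    rw [e] at h; exact h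
  have g14 : Good (sig red pt) cl 818 := by
    have h := chk_sound (sig red pt) cl nb 1094 hnb c0 721 g13 t0
    have e : c0.length = 96 := by decide +kernel
    rw [e] at h; exact h
  have g15 : Good (sig red pt) cl 885 := by
    have h := chk_sound (sig red pt) cl nb 1094 hnb c1 817 g14 t1
    have e : c1.length = 67 := by decide +kernel
    rw [e] at h; exact h
  exact final3 (g15 884 (by norm_num)) (by decide +kernel)

theorem forb : ∀ red : ℂ → Prop, Valid 6 red → Forb3 red 25 21 31 :=
  forb3_of 6 td25 td21 td31 pt 25 21 31 (by norm_num) hpt htd25 htd21 htd31 (by decide +kernel)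
    (by decide +kernel) (by decide +kernel) fin

end

end APL.P15

namespace APL.P16

noncomputable section

theorem fin (red : ℂ → Prop) (hv : Valid 6 red) : ¬ (sig red pt 0 ∧ sig red pt 1 ∧ sig red pt 2) := by
  have hnb : NbOK (sig red pt) nb 25 := by
    intro y hy a ha
    exact chkN_sound red 6 hv nb td1 pt hpt htd1 nbl 0 hN y (Nat.zero_le _) (by
      have : nbl.length = 25 := by decide +kernel
      omega) a ha
  have g0 : Good (sig red pt) cl 0 := fun j hj => absurd hj (Nat.not_lt_zero _)
  have g1 : Good (sig red pt) cl 4 := by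
    have h := chkG_sound (sig red pt) cl 6 _ (fun n hn => ap_sound red 5 hv td1 pt hpt htd1 n hn) apl 0 g0 hA
    have e : apl.length = 4 := by decide +kernel
    rw [e] at h; exact h
  have g2 : Good (sig red pt) cl 6 := by
    have h := chkG_sound (sig red pt) cl 3 _ (fun n hn => l3_sound red td9 td3 td12 pt 9 3 12 hpt htd9 htd3 htd12 (P2.forb red hv) n hn) s0 4 g1 hs0
    have e : s0.length = 2 := by decide +kernel
    rw [e] at h; exact h
  have g3 : Good (sig red pt) cl 8 := by
    have h := chkG_sound (sig red pt) cl 3 _ (fun n hn => l3_sound red td16 td7 td7 pt 16 7 7 hpt htd16 htd7 htd7 (P5.forb red hv) n hn) s1 6 g2 hs1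
    have e : s1.length = 2 := by decide +kernel
    rw [e] at h; exact h
  have g4 : Good (sig red pt) cl 10 := by
    have h := chkG_sound (sig red pt) cl 3 _ (fun n hn => l3_sound red td9 td19 td31 pt 9 19 31 hpt htd9 htd19 htd31 (P9.forb red hv) n hn) s2 8 g3 hs2
    have e : s2.length = 2 := by decide +kernel
    rw [e] at h; exact h
  have g5 : Good (sig red pt) cl 12 := by
    have h := chkG_sound (sig red pt) cl 3 _ (fun n hn => l3_sound red td31 td37 td7 pt 31 37 7 hpt htd31 htd37 htd7 (P14.forb red hv) n hn) s3 10 g4 hs3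
    have e : s3.length = 2 := by decide +kernel
    rw [e] at h; exact h
  have g6 : Good (sig red pt) cl 16 := by
    have h := chkG_sound (sig red pt) cl 3 _ (fun n hn => l3_sound red td25 td21 td31 pt 25 21 31 hpt htd25 htd21 htd31 (P15.forb red hv) n hn) s4 12 g5 hs4
    have e : s4.length = 4 := by decide +kernel
    rw [e] at h; exact h
  have g7 : Good (sig red pt) cl 17 := by
    have h := chk_sound (sig red pt) cl nb 25 hnb c0 15 g6 t0
    have e : c0.length = 1 := by decide +kernel
    rw [e] at h; exact h
  exact final3 (g7 16 (by norm_num)) (by decide +kernel)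

theorem forb : ∀ red : ℂ → Prop, Valid 6 red → Forb3 red 31 3 31 :=
  forb3_of 6 td31 td3 td31 pt 31 3 31 (by norm_num) hpt htd31 htd3 htd31 (by decide +kernel)
    (by decide +kernel) (by decide +kernel) fin

end

end APL.P16

namespace APL.P17

noncomputable section

theorem fin (red : ℂ → Prop) (hv : Valid 6 red) : ¬ (sig red pt 0 ∧ sig red pt 1 ∧ sig red pt 2) := by
  have hnb : NbOK (sig red pt) nb 1606 := by
    intro y hy a ha
    exact chkN_sound red 6 hv nb td1 pt hpt htd1 nbl 0 hN y (Nat.zero_le _) (by
      have : nbl.length = 1606 := by decide +kernel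
      omega) a ha
  have g0 : Good (sig red pt) cl 0 := fun j hj => absurd hj (Nat.not_lt_zero _)
  have g1 : Good (sig red pt) cl 674 := by
    have h := chkG_sound (sig red pt) cl 6 _ (fun n hn => ap_sound red 5 hv td1 pt hpt htd1 n hn) apl 0 g0 hA
    have e : apl.length = 674 := by decide +kernel
    rw [e] at h; exact h
  have g2 : Good (sig red pt) cl 676 := by
    have h := chkG_sound (sig red pt) cl 3 _ (fun n hn => l3_sound red td12 td12 td12 pt 12 12 12 hpt htd12 htd12 htd12 (P0.forb red hv) n hn) s0 674 g1 hs0
    have e : s0.length = 2 := by decide +kernel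
    rw [e] at h; exact h
  have g3 : Good (sig red pt) cl 683 := by
    have h := chkG_sound (sig red pt) cl 3 _ (fun n hn => l3_sound red td9 td9 td9 pt 9 9 9 hpt htd9 htd9 htd9 (P1.forb red hv) n hn) s1 676 g2 hs1
    have e : s1.length = 7 := by decide +kernel
    rw [e] at h; exact h
  have g4 : Good (sig red pt) cl 894 := by
    have h := chkG_sound (sig red pt) cl 3 _ (fun n hn => l3_sound red td9 td3 td12 pt 9 3 12 hpt htd9 htd3 htd12 (P2.forb red hv) n hn) s2 683 g3 hs2
    have e : s2.length = 211 := by decide +kernel
    rw [e] at h; exact h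
  have g5 : Good (sig red pt) cl 907 := by
    have h := chkG_sound (sig red pt) cl 3 _ (fun n hn => l3_sound red td4 td16 td4 pt 4 16 4 hpt htd4 htd16 htd4 (P3.forb red hv) n hn) s3 894 g4 hs3
    have e : s3.length = 13 := by decide +kernel
    rw [e] at h; exact h
  have g6 : Good (sig red pt) cl 1097 := by
    have h := chkG_sound (sig red pt) cl 3 _ (fun n hn => l3_sound red td4 td7 td19 pt 4 7 19 hpt htd4 htd7 htd19 (P4.forb red hv) n hn) s4 907 g5 hs4
    have e : s4.length = 190 := by decide +kernel
    rw [e] at h; exact h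
  have g7 : Good (sig red pt) cl 1142 := by
    have h := chkG_sound (sig red pt) cl 3 _ (fun n hn => l3_sound red td16 td7 td7 pt 16 7 7 hpt htd16 htd7 htd7 (P5.forb red hv) n hn) s5 1097 g6 hs5
    have e : s5.length = 45 := by decide +kernel
    rw [e] at h; exact h
  have g8 : Good (sig red pt) cl 1156 := by
    have h := chkG_sound (sig red pt) cl 3 _ (fun n hn => l3_sound red td9 td12 td21 pt 9 12 21 hpt htd9 htd12 htd21 (P6.forb red hv) n hn) s6 1142 g7 hs6
    have e : s6.length = 14 := by decide +kernel
    rw [e] at h; exact h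
  have g9 : Good (sig red pt) cl 1193 := by
    have h := chkG_sound (sig red pt) cl 3 _ (fun n hn => l3_sound red td31 td12 td7 pt 31 12 7 hpt htd31 htd12 htd7 (P7.forb red hv) n hn) s7 1156 g8 hs7
    have e : s7.length = 37 := by decide +kernel
    rw [e] at h; exact h
  have g10 : Good (sig red pt) cl 1200 := by
    have h := chkG_sound (sig red pt) cl 3 _ (fun n hn => l3_sound red td9 td19 td31 pt 9 19 31 hpt htd9 htd19 htd31 (P9.forb red hv) n hn) s8 1193 g9 hs8
    have e : s8.length = 7 := by decide +kernel
    rw [e] at h; exact h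
  have g11 : Good (sig red pt) cl 1202 := by
    have h := chkG_sound (sig red pt) cl 3 _ (fun n hn => l3_sound red td16 td31 td31 pt 16 31 31 hpt htd16 htd31 htd31 (P10.forb red hv) n hn) s9 1200 g10 hs9
    have e : s9.length = 2 := by decide +kernel
    rw [e] at h; exact h
  have g12 : Good (sig red pt) cl 1238 := by
    have h := chkG_sound (sig red pt) cl 3 _ (fun n hn => l3_sound red td21 td12 td27 pt 21 12 27 hpt htd21 htd12 htd27 (P11.forb red hv) n hn) s10 1202 g11 hs10
    have e : s10.length = 36 := by decide +kernel
    rw [e] at h; exact h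
  have g13 : Good (sig red pt) cl 1246 := by
    have h := chkG_sound (sig red pt) cl 3 _ (fun n hn => l3_sound red td31 td12 td37 pt 31 12 37 hpt htd31 htd12 htd37 (P12.forb red hv) n hn) s11 1238 g12 hs11
    have e : s11.length = 8 := by decide +kernel
    rw [e] at h; exact h
  have g14 : Good (sig red pt) cl 1310 := by
    have h := chkG_sound (sig red pt) cl 3 _ (fun n hn => l3_sound red td31 td13 td12 pt 31 13 12 hpt htd31 htd13 htd12 (P13.forb red hv) n hn) s12 1246 g13 hs12
    have e : s12.length = 64 := by decide +kernel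
    rw [e] at h; exact h
  have g15 : Good (sig red pt) cl 1327 := by
    have h := chkG_sound (sig red pt) cl 3 _ (fun n hn => l3_sound red td31 td37 td7 pt 31 37 7 hpt htd31 htd37 htd7 (P14.forb red hv) n hn) s13 1310 g14 hs13
    have e : s13.length = 17 := by decide +kernel
    rw [e] at h; exact h
  have g16 : Good (sig red pt) cl 1355 := by
    have h := chkG_sound (sig red pt) cl 3 _ (fun n hn => l3_sound red td25 td21 td31 pt 25 21 31 hpt htd25 htd21 htd31 (P15.forb red hv) n hn) s14 1327 g15 hs14
    have e : s14.length = 28 := by decide +kernel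
    rw [e] at h; exact h
  have g17 : Good (sig red pt) cl 1367 := by
    have h := chkG_sound (sig red pt) cl 3 _ (fun n hn => l3_sound red td31 td3 td31 pt 31 3 31 hpt htd31 htd3 htd31 (P16.forb red hv) n hn) s15 1355 g16 hs15
    have e : s15.length = 12 := by decide +kernel
    rw [e] at h; exact h
  have g18 : Good (sig red pt) cl 1449 := by
    have h := chk_sound (sig red pt) cl nb 1606 hnb c0 1366 g17 t0
    have e : c0.length = 82 := by decide +kernel
    rw [e] at h; exact h
  have g19 : Good (sig red pt) cl 1491 := by
    have h := chk_sound (sig red pt) cl nb 1606 hnb c1 1448 g18 t1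
    have e : c1.length = 42 := by decide +kernel
    rw [e] at h; exact h
  have g20 : Good (sig red pt) cl 1559 := by
    have h := chk_sound (sig red pt) cl nb 1606 hnb c2 1490 g19 t2
    have e : c2.length = 68 := by decide +kernel
    rw [e] at h; exact h
  have g21 : Good (sig red pt) cl 1564 := by
    have h := chk_sound (sig red pt) cl nb 1606 hnb c3 1558 g20 t3
    have e : c3.length = 5 := by decide +kernel
    rw [e] at h; exact h
  exact final3 (g21 1563 (by norm_num)) (by decide +kernel)

theorem forb : ∀ red : ℂ → Prop, Valid 6 red → Forb3 red 31 19 7 :=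
  forb3_of 6 td31 td19 td7 pt 31 19 7 (by norm_num) hpt htd31 htd19 htd7 (by decide +kernel)
    (by decide +kernel) (by decide +kernel) fin

end

end APL.P17

namespace APL.P18

noncomputable section

theorem fin (red : ℂ → Prop) (hv : Valid 6 red) : ¬ (sig red pt 0 ∧ sig red pt 1 ∧ sig red pt 2) := by
  have hnb : NbOK (sig red pt) nb 1086 := by
    intro y hy a ha
    exact chkN_sound red 6 hv nb td1 pt hpt htd1 nbl 0 hN y (Nat.zero_le _) (by
      have : nbl.length = 1086 := by decide +kernel
      omega) a ha
  have g0 : Good (sig red pt) cl 0 := fun j hj => absurd hj (Nat.not_lt_zero _)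
  have g1 : Good (sig red pt) cl 624 := by
    have h := chkG_sound (sig red pt) cl 6 _ (fun n hn => ap_sound red 5 hv td1 pt hpt htd1 n hn) apl 0 g0 hA
    have e : apl.length = 624 := by decide +kernel
    rw [e] at h; exact h
  have g2 : Good (sig red pt) cl 625 := by
    have h := chkG_sound (sig red pt) cl 3 _ (fun n hn => l3_sound red td9 td9 td9 pt 9 9 9 hpt htd9 htd9 htd9 (P1.forb red hv) n hn) s0 624 g1 hs0
    have e : s0.length = 1 := by decide +kernel
    rw [e] at h; exact h
  have g3 : Good (sig red pt) cl 848 := by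
    have h := chkG_sound (sig red pt) cl 3 _ (fun n hn => l3_sound red td9 td3 td12 pt 9 3 12 hpt htd9 htd3 htd12 (P2.forb red hv) n hn) s1 625 g2 hs1
    have e : s1.length = 223 := by decide +kernel
    rw [e] at h; exact h
  have g4 : Good (sig red pt) cl 849 := by
    have h := chkG_sound (sig red pt) cl 3 _ (fun n hn => l3_sound red td4 td16 td4 pt 4 16 4 hpt htd4 htd16 htd4 (P3.forb red hv) n hn) s2 848 g3 hs2
    have e : s2.length = 1 := by decide +kernel
    rw [e] at h; exact h
  have g5 : Good (sig red pt) cl 965 := by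
    have h := chkG_sound (sig red pt) cl 3 _ (fun n hn => l3_sound red td4 td7 td19 pt 4 7 19 hpt htd4 htd7 htd19 (P4.forb red hv) n hn) s3 849 g4 hs3
    have e : s3.length = 116 := by decide +kernel
    rw [e] at h; exact h
  have g6 : Good (sig red pt) cl 1032 := by
    have h := chkG_sound (sig red pt) cl 3 _ (fun n hn => l3_sound red td16 td7 td7 pt 16 7 7 hpt htd16 htd7 htd7 (P5.forb red hv) n hn) s4 965 g5 hs4
    have e : s4.length = 67 := by decide +kernel
    rw [e] at h; exact h
  have g7 : Good (sig red pt) cl 1078 := by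
    have h := chkG_sound (sig red pt) cl 3 _ (fun n hn => l3_sound red td9 td12 td21 pt 9 12 21 hpt htd9 htd12 htd21 (P6.forb red hv) n hn) s5 1032 g6 hs5
    have e : s5.length = 46 := by decide +kernel
    rw [e] at h; exact h
  have g8 : Good (sig red pt) cl 1109 := by
    have h := chkG_sound (sig red pt) cl 3 _ (fun n hn => l3_sound red td31 td12 td7 pt 31 12 7 hpt htd31 htd12 htd7 (P7.forb red hv) n hn) s6 1078 g7 hs6
    have e : s6.length = 31 := by decide +kernel
    rw [e] at h; exact h
  have g9 : Good (sig red pt) cl 1118 := by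
    have h := chkG_sound (sig red pt) cl 3 _ (fun n hn => l3_sound red td9 td19 td31 pt 9 19 31 hpt htd9 htd19 htd31 (P9.forb red hv) n hn) s7 1109 g8 hs7
    have e : s7.length = 9 := by decide +kernel
    rw [e] at h; exact h
  have g10 : Good (sig red pt) cl 1168 := by
    have h := chkG_sound (sig red pt) cl 3 _ (fun n hn => l3_sound red td21 td12 td27 pt 21 12 27 hpt htd21 htd12 htd27 (P11.forb red hv) n hn) s8 1118 g9 hs8
    have e : s8.length = 50 := by decide +kernel
    rw [e] at h; exact h
  have g11 : Good (sig red pt) cl 1172 := by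
    have h := chkG_sound (sig red pt) cl 3 _ (fun n hn => l3_sound red td31 td12 td37 pt 31 12 37 hpt htd31 htd12 htd37 (P12.forb red hv) n hn) s9 1168 g10 hs9
    have e : s9.length = 4 := by decide +kernel
    rw [e] at h; exact h
  have g12 : Good (sig red pt) cl 1195 := by
    have h := chkG_sound (sig red pt) cl 3 _ (fun n hn => l3_sound red td31 td13 td12 pt 31 13 12 hpt htd31 htd13 htd12 (P13.forb red hv) n hn) s10 1172 g11 hs10
    have e : s10.length = 23 := by decide +kernel
    rw [e] at h; exact h
  have g13 : Good (sig red pt) cl 1206 := by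
    have h := chkG_sound (sig red pt) cl 3 _ (fun n hn => l3_sound red td31 td37 td7 pt 31 37 7 hpt htd31 htd37 htd7 (P14.forb red hv) n hn) s11 1195 g12 hs11
    have e : s11.length = 11 := by decide +kernel
    rw [e] at h; exact h
  have g14 : Good (sig red pt) cl 1213 := by
    have h := chkG_sound (sig red pt) cl 3 _ (fun n hn => l3_sound red td25 td21 td31 pt 25 21 31 hpt htd25 htd21 htd31 (P15.forb red hv) n hn) s12 1206 g13 hs12
    have e : s12.length = 7 := by decide +kernel
    rw [e] at h; exact h
  have g15 : Good (sig red pt) cl 1216 := by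
    have h := chkG_sound (sig red pt) cl 3 _ (fun n hn => l3_sound red td31 td3 td31 pt 31 3 31 hpt htd31 htd3 htd31 (P16.forb red hv) n hn) s13 1213 g14 hs13
    have e : s13.length = 3 := by decide +kernel
    rw [e] at h; exact h
  have g16 : Good (sig red pt) cl 1252 := by
    have h := chkG_sound (sig red pt) cl 3 _ (fun n hn => l3_sound red td31 td19 td7 pt 31 19 7 hpt htd31 htd19 htd7 (P17.forb red hv) n hn) s14 1216 g15 hs14
    have e : s14.length = 36 := by decide +kernel
    rw [e] at h; exact h
  have g17 : Good (sig red pt) cl 1381 := by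
    have h := chk_sound (sig red pt) cl nb 1086 hnb c0 1251 g16 t0
    have e : c0.length = 129 := by decide +kernel
    rw [e] at h; exact h
  have g18 : Good (sig red pt) cl 1500 := by
    have h := chk_sound (sig red pt) cl nb 1086 hnb c1 1380 g17 t1
    have e : c1.length = 119 := by decide +kernel
    rw [e] at h; exact h
  have g19 : Good (sig red pt) cl 1607 := by
    have h := chk_sound (sig red pt) cl nb 1086 hnb c2 1499 g18 t2
    have e : c2.length = 107 := by decide +kernel
    rw [e] at h; exact h
  have g20 : Good (sig red pt) cl 1731 := by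
    have h := chk_sound (sig red pt) cl nb 1086 hnb c3 1606 g19 t3
    have e : c3.length = 124 := by decide +kernel
    rw [e] at h; exact h
  have g21 : Good (sig red pt) cl 1850 := by
    have h := chk_sound (sig red pt) cl nb 1086 hnb c4 1730 g20 t4
    have e : c4.length = 119 := by decide +kernel
    rw [e] at h; exact h
  have g22 : Good (sig red pt) cl 1969 := by
    have h := chk_sound (sig red pt) cl nb 1086 hnb c5 1849 g21 t5
    have e : c5.length = 119 := by decide +kernel
    rw [e] at h; exact h
  have g23 : Good (sig red pt) cl 2097 := by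
    have h := chk_sound (sig red pt) cl nb 1086 hnb c6 1968 g22 t6
    have e : c6.length = 128 := by decide +kernel
    rw [e] at h; exact h
  have g24 : Good (sig red pt) cl 2211 := by
    have h := chk_sound (sig red pt) cl nb 1086 hnb c7 2096 g23 t7
    have e : c7.length = 114 := by decide +kernel
    rw [e] at h; exact h
  have g25 : Good (sig red pt) cl 2338 := by
    have h := chk_sound (sig red pt) cl nb 1086 hnb c8 2210 g24 t8
    have e : c8.length = 127 := by decide +kernel
    rw [e] at h; exact h
  have g26 : Good (sig red pt) cl 2455 := by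
    have h := chk_sound (sig red pt) cl nb 1086 hnb c9 2337 g25 t9
    have e : c9.length = 117 := by decide +kernel
    rw [e] at h; exact h
  have g27 : Good (sig red pt) cl 2572 := by
    have h := chk_sound (sig red pt) cl nb 1086 hnb c10 2454 g26 t10
    have e : c10.length = 117 := by decide +kernel
    rw [e] at h; exact h
  have g28 : Good (sig red pt) cl 2696 := by
    have h := chk_sound (sig red pt) cl nb 1086 hnb c11 2571 g27 t11
    have e : c11.length = 124 := by decide +kernel
    rw [e] at h; exact h
  have g29 : Good (sig red pt) cl 2822 := by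
    have h := chk_sound (sig red pt) cl nb 1086 hnb c12 2695 g28 t12
    have e : c12.length = 126 := by decide +kernel
    rw [e] at h; exact h
  have g30 : Good (sig red pt) cl 2928 := by
    have h := chk_sound (sig red pt) cl nb 1086 hnb c13 2821 g29 t13
    have e : c13.length = 106 := by decide +kernel
    rw [e] at h; exact h
  have g31 : Good (sig red pt) cl 3049 := by
    have h := chk_sound (sig red pt) cl nb 1086 hnb c14 2927 g30 t14
    have e : c14.length = 121 := by decide +kernel
    rw [e] at h; exact h
  have g32 : Good (sig red pt) cl 3155 := by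
    have h := chk_sound (sig red pt) cl nb 1086 hnb c15 3048 g31 t15
    have e : c15.length = 106 := by decide +kernel
    rw [e] at h; exact h
  have g33 : Good (sig red pt) cl 3264 := by
    have h := chk_sound (sig red pt) cl nb 1086 hnb c16 3154 g32 t16
    have e : c16.length = 109 := by decide +kernel
    rw [e] at h; exact h
  have g34 : Good (sig red pt) cl 3367 := by
    have h := chk_sound (sig red pt) cl nb 1086 hnb c17 3263 g33 t17
    have e : c17.length = 103 := by decide +kernel
    rw [e] at h; exact h
  have g35 : Good (sig red pt) cl 3382 := by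
    have h := chk_sound (sig red pt) cl nb 1086 hnb c18 3366 g34 t18
    have e : c18.length = 15 := by decide +kernel
    rw [e] at h; exact h
  exact final3 (g35 3381 (by norm_num)) (by decide +kernel)

theorem forb : ∀ red : ℂ → Prop, Valid 6 red → Forb3 red 4 12 28 :=
  forb3_of 6 td4 td12 td28 pt 4 12 28 (by norm_num) hpt htd4 htd12 htd28 (by decide +kernel)
    (by decide +kernel) (by decide +kernel) fin

end

end APL.P18

namespace APL.P19

noncomputable section

theorem fin (red : ℂ → Prop) (hv : Valid 6 red) : ¬ (sig red pt 0 ∧ sig red pt 1 ∧ sig red pt 2) := by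
  have hnb : NbOK (sig red pt) nb 26 := by
    intro y hy a ha
    exact chkN_sound red 6 hv nb td1 pt hpt htd1 nbl 0 hN y (Nat.zero_le _) (by
      have : nbl.length = 26 := by decide +kernel
      omega) a ha
  have g0 : Good (sig red pt) cl 0 := fun j hj => absurd hj (Nat.not_lt_zero _)
  have g1 : Good (sig red pt) cl 4 := by
    have h := chkG_sound (sig red pt) cl 6 _ (fun n hn => ap_sound red 5 hv td1 pt hpt htd1 n hn) apl 0 g0 hA
    have e : apl.length = 4 := by decide +kernel
    rw [e] at h; exact h
  have g2 : Good (sig red pt) cl 6 := by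
    have h := chkG_sound (sig red pt) cl 3 _ (fun n hn => l3_sound red td9 td3 td12 pt 9 3 12 hpt htd9 htd3 htd12 (P2.forb red hv) n hn) s0 4 g1 hs0
    have e : s0.length = 2 := by decide +kernel
    rw [e] at h; exact h
  have g3 : Good (sig red pt) cl 7 := by
    have h := chkG_sound (sig red pt) cl 3 _ (fun n hn => l3_sound red td4 td16 td4 pt 4 16 4 hpt htd4 htd16 htd4 (P3.forb red hv) n hn) s1 6 g2 hs1
    have e : s1.length = 1 := by decide +kernel
    rw [e] at h; exact h
  have g4 : Good (sig red pt) cl 9 := by
    have h := chkG_sound (sig red pt) cl 3 _ (fun n hn => l3_sound red td4 td7 td19 pt 4 7 19 hpt htd4 htd7 htd19 (P4.forb red hv) n hn) s2 7 g3 hs2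
    have e : s2.length = 2 := by decide +kernel
    rw [e] at h; exact h
  have g5 : Good (sig red pt) cl 12 := by
    have h := chkG_sound (sig red pt) cl 3 _ (fun n hn => l3_sound red td31 td12 td7 pt 31 12 7 hpt htd31 htd12 htd7 (P7.forb red hv) n hn) s3 9 g4 hs3
    have e : s3.length = 3 := by decide +kernel
    rw [e] at h; exact h
  have g6 : Good (sig red pt) cl 13 := by
    have h := chkG_sound (sig red pt) cl 3 _ (fun n hn => l3_sound red td21 td12 td27 pt 21 12 27 hpt htd21 htd12 htd27 (P11.forb red hv) n hn) s4 12 g5 hs4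
    have e : s4.length = 1 := by decide +kernel
    rw [e] at h; exact h
  have g7 : Good (sig red pt) cl 14 := by
    have h := chkG_sound (sig red pt) cl 3 _ (fun n hn => l3_sound red td31 td12 td37 pt 31 12 37 hpt htd31 htd12 htd37 (P12.forb red hv) n hn) s5 13 g6 hs5
    have e : s5.length = 1 := by decide +kernel
    rw [e] at h; exact h
  have g8 : Good (sig red pt) cl 15 := by
    have h := chkG_sound (sig red pt) cl 3 _ (fun n hn => l3_sound red td31 td13 td12 pt 31 13 12 hpt htd31 htd13 htd12 (P13.forb red hv) n hn) s6 14 g7 hs6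
    have e : s6.length = 1 := by decide +kernel
    rw [e] at h; exact h
  have g9 : Good (sig red pt) cl 18 := by
    have h := chkG_sound (sig red pt) cl 3 _ (fun n hn => l3_sound red td4 td12 td28 pt 4 12 28 hpt htd4 htd12 htd28 (P18.forb red hv) n hn) s7 15 g8 hs7
    have e : s7.length = 3 := by decide +kernel
    rw [e] at h; exact h
  have g10 : Good (sig red pt) cl 19 := by
    have h := chk_sound (sig red pt) cl nb 26 hnb c0 17 g9 t0
    have e : c0.length = 1 := by decide +kernel
    rw [e] at h; exact h
  exact final3 (g10 18 (by norm_num)) (by decide +kernel)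

theorem forb : ∀ red : ℂ → Prop, Valid 6 red → Forb3 red 4 4 12 :=
  forb3_of 6 td4 td4 td12 pt 4 4 12 (by norm_num) hpt htd4 htd4 htd12 (by decide +kernel)
    (by decide +kernel) (by decide +kernel) fin

end

end APL.P19

namespace APL.P20

noncomputable section

theorem fin (red : ℂ → Prop) (hv : Valid 6 red) : ¬ (sig red pt 0 ∧ sig red pt 1 ∧ sig red pt 2) := by
  have hnb : NbOK (sig red pt) nb 9 := by
    intro y hy a ha
    exact chkN_sound red 6 hv nb td1 pt hpt htd1 nbl 0 hN y (Nat.zero_le _) (by
      have : nbl.length = 9 := by decide +kernel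
      omega) a ha
  have g0 : Good (sig red pt) cl 0 := fun j hj => absurd hj (Nat.not_lt_zero _)
  have g1 : Good (sig red pt) cl 1 := by
    have h := chkG_sound (sig red pt) cl 6 _ (fun n hn => ap_sound red 5 hv td1 pt hpt htd1 n hn) apl 0 g0 hA
    have e : apl.length = 1 := by decide +kernel
    rw [e] at h; exact h
  have g2 : Good (sig red pt) cl 2 := by
    have h := chkG_sound (sig red pt) cl 3 _ (fun n hn => l3_sound red td4 td16 td4 pt 4 16 4 hpt htd4 htd16 htd4 (P3.forb red hv) n hn) s0 1 g1 hs0
    have e : s0.length = 1 := by decide +kernel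
    rw [e] at h; exact h
  have g3 : Good (sig red pt) cl 3 := by
    have h := chkG_sound (sig red pt) cl 3 _ (fun n hn => l3_sound red td21 td12 td27 pt 21 12 27 hpt htd21 htd12 htd27 (P11.forb red hv) n hn) s1 2 g2 hs1
    have e : s1.length = 1 := by decide +kernel
    rw [e] at h; exact h
  have g4 : Good (sig red pt) cl 4 := by
    have h := chkG_sound (sig red pt) cl 3 _ (fun n hn => l3_sound red td31 td12 td37 pt 31 12 37 hpt htd31 htd12 htd37 (P12.forb red hv) n hn) s2 3 g3 hs2
    have e : s2.length = 1 := by decide +kernel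
    rw [e] at h; exact h
  have g5 : Good (sig red pt) cl 5 := by
    have h := chkG_sound (sig red pt) cl 3 _ (fun n hn => l3_sound red td31 td13 td12 pt 31 13 12 hpt htd31 htd13 htd12 (P13.forb red hv) n hn) s3 4 g4 hs3
    have e : s3.length = 1 := by decide +kernel
    rw [e] at h; exact h
  have g6 : Good (sig red pt) cl 6 := by
    have h := chkG_sound (sig red pt) cl 3 _ (fun n hn => l3_sound red td4 td12 td28 pt 4 12 28 hpt htd4 htd12 htd28 (P18.forb red hv) n hn) s4 5 g5 hs4
    have e : s4.length = 1 := by decide +kernel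
    rw [e] at h; exact h
  have g7 : Good (sig red pt) cl 7 := by
    have h := chkG_sound (sig red pt) cl 3 _ (fun n hn => l3_sound red td4 td4 td12 pt 4 4 12 hpt htd4 htd4 htd12 (P19.forb red hv) n hn) s5 6 g6 hs5
    have e : s5.length = 1 := by decide +kernel
    rw [e] at h; exact h
  have g8 : Good (sig red pt) cl 8 := by
    have h := chk_sound (sig red pt) cl nb 9 hnb c0 6 g7 t0
    have e : c0.length = 1 := by decide +kernel
    rw [e] at h; exact h
  exact final3 (g8 7 (by norm_num)) (by decide +kernel)

theorem forb : ∀ red : ℂ → Prop, Valid 6 red → Forb3 red 4 12 16 :=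
  forb3_of 6 td4 td12 td16 pt 4 12 16 (by norm_num) hpt htd4 htd12 htd16 (by decide +kernel)
    (by decide +kernel) (by decide +kernel) fin

end

end APL.P20

namespace APL.P21

noncomputable section

theorem fin (red : ℂ → Prop) (hv : Valid 6 red) : ¬ (sig red pt 0 ∧ sig red pt 1 ∧ sig red pt 2) := by
  have hnb : NbOK (sig red pt) nb 14 := by
    intro y hy a ha
    exact chkN_sound red 6 hv nb td1 pt hpt htd1 nbl 0 hN y (Nat.zero_le _) (by
      have : nbl.length = 14 := by decide +kernel
      omega) a ha
  have g0 : Good (sig red pt) cl 0 := fun j hj => absurd hj (Nat.not_lt_zero _)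
  have g1 : Good (sig red pt) cl 2 := by
    have h := chkG_sound (sig red pt) cl 6 _ (fun n hn => ap_sound red 5 hv td1 pt hpt htd1 n hn) apl 0 g0 hA
    have e : apl.length = 2 := by decide +kernel
    rw [e] at h; exact h
  have g2 : Good (sig red pt) cl 4 := by
    have h := chkG_sound (sig red pt) cl 3 _ (fun n hn => l3_sound red td9 td3 td12 pt 9 3 12 hpt htd9 htd3 htd12 (P2.forb red hv) n hn) s0 2 g1 hs0
    have e : s0.length = 2 := by decide +kernel
    rw [e] at h; exact h
  have g3 : Good (sig red pt) cl 5 := by
    have h := chkG_sound (sig red pt) cl 3 _ (fun n hn => l3_sound red td4 td16 td4 pt 4 16 4 hpt htd4 htd16 htd4 (P3.forb red hv) n hn) s1 4 g2 hs1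
    have e : s1.length = 1 := by decide +kernel
    rw [e] at h; exact h
  have g4 : Good (sig red pt) cl 6 := by
    have h := chkG_sound (sig red pt) cl 3 _ (fun n hn => l3_sound red td16 td7 td7 pt 16 7 7 hpt htd16 htd7 htd7 (P5.forb red hv) n hn) s2 5 g3 hs2
    have e : s2.length = 1 := by decide +kernel
    rw [e] at h; exact h
  have g5 : Good (sig red pt) cl 7 := by
    have h := chkG_sound (sig red pt) cl 3 _ (fun n hn => l3_sound red td9 td12 td21 pt 9 12 21 hpt htd9 htd12 htd21 (P6.forb red hv) n hn) s3 6 g4 hs3
    have e : s3.length = 1 := by decide +kernel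
    rw [e] at h; exact h
  have g6 : Good (sig red pt) cl 8 := by
    have h := chkG_sound (sig red pt) cl 3 _ (fun n hn => l3_sound red td4 td4 td12 pt 4 4 12 hpt htd4 htd4 htd12 (P19.forb red hv) n hn) s4 7 g5 hs4
    have e : s4.length = 1 := by decide +kernel
    rw [e] at h; exact h
  have g7 : Good (sig red pt) cl 9 := by
    have h := chkG_sound (sig red pt) cl 3 _ (fun n hn => l3_sound red td4 td12 td16 pt 4 12 16 hpt htd4 htd12 htd16 (P20.forb red hv) n hn) s5 8 g6 hs5
    have e : s5.length = 1 := by decide +kernel
    rw [e] at h; exact h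
  have g8 : Good (sig red pt) cl 10 := by
    have h := chk_sound (sig red pt) cl nb 14 hnb c0 8 g7 t0
    have e : c0.length = 1 := by decide +kernel
    rw [e] at h; exact h
  exact final3 (g8 9 (by norm_num)) (by decide +kernel)

theorem forb : ∀ red : ℂ → Prop, Valid 6 red → Forb3 red 16 12 28 :=
  forb3_of 6 td16 td12 td28 pt 16 12 28 (by norm_num) hpt htd16 htd12 htd28 (by decide +kernel)
    (by decide +kernel) (by decide +kernel) fin

end

end APL.P21

namespace APL.P22

noncomputable section

theorem fin (red : ℂ → Prop) (hv : Valid 6 red) : ¬ (sig red pt 0 ∧ sig red pt 1 ∧ sig red pt 2) := by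
  have hnb : NbOK (sig red pt) nb 2245 := by
    intro y hy a ha
    exact chkN_sound red 6 hv nb td1 pt hpt htd1 nbl 0 hN y (Nat.zero_le _) (by
      have : nbl.length = 2245 := by decide +kernel
      omega) a ha
  have g0 : Good (sig red pt) cl 0 := fun j hj => absurd hj (Nat.not_lt_zero _)
  have g1 : Good (sig red pt) cl 1263 := by
    have h := chkG_sound (sig red pt) cl 6 _ (fun n hn => ap_sound red 5 hv td1 pt hpt htd1 n hn) apl 0 g0 hA
    have e : apl.length = 1263 := by decide +kernel
    rw [e] at h; exact h
  have g2 : Good (sig red pt) cl 1264 := by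
    have h := chkG_sound (sig red pt) cl 3 _ (fun n hn => l3_sound red td12 td12 td12 pt 12 12 12 hpt htd12 htd12 htd12 (P0.forb red hv) n hn) s0 1263 g1 hs0
    have e : s0.length = 1 := by decide +kernel
    rw [e] at h; exact h
  have g3 : Good (sig red pt) cl 1278 := by
    have h := chkG_sound (sig red pt) cl 3 _ (fun n hn => l3_sound red td9 td9 td9 pt 9 9 9 hpt htd9 htd9 htd9 (P1.forb red hv) n hn) s1 1264 g2 hs1
    have e : s1.length = 14 := by decide +kernel
    rw [e] at h; exact h
  have g4 : Good (sig red pt) cl 1653 := by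
    have h := chkG_sound (sig red pt) cl 3 _ (fun n hn => l3_sound red td9 td3 td12 pt 9 3 12 hpt htd9 htd3 htd12 (P2.forb red hv) n hn) s2 1278 g3 hs2
    have e : s2.length = 375 := by decide +kernel
    rw [e] at h; exact h
  have g5 : Good (sig red pt) cl 1675 := by
    have h := chkG_sound (sig red pt) cl 3 _ (fun n hn => l3_sound red td4 td16 td4 pt 4 16 4 hpt htd4 htd16 htd4 (P3.forb red hv) n hn) s3 1653 g4 hs3
    have e : s3.length = 22 := by decide +kernel
    rw [e] at h; exact h
  have g6 : Good (sig red pt) cl 2160 := by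
    have h := chkG_sound (sig red pt) cl 3 _ (fun n hn => l3_sound red td4 td7 td19 pt 4 7 19 hpt htd4 htd7 htd19 (P4.forb red hv) n hn) s4 1675 g5 hs4
    have e : s4.length = 485 := by decide +kernel
    rw [e] at h; exact h
  have g7 : Good (sig red pt) cl 2284 := by
    have h := chkG_sound (sig red pt) cl 3 _ (fun n hn => l3_sound red td16 td7 td7 pt 16 7 7 hpt htd16 htd7 htd7 (P5.forb red hv) n hn) s5 2160 g6 hs5
    have e : s5.length = 124 := by decide +kernel
    rw [e] at h; exact h
  have g8 : Good (sig red pt) cl 2308 := by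
    have h := chkG_sound (sig red pt) cl 3 _ (fun n hn => l3_sound red td9 td12 td21 pt 9 12 21 hpt htd9 htd12 htd21 (P6.forb red hv) n hn) s6 2284 g7 hs6
    have e : s6.length = 24 := by decide +kernel
    rw [e] at h; exact h
  have g9 : Good (sig red pt) cl 2375 := by
    have h := chkG_sound (sig red pt) cl 3 _ (fun n hn => l3_sound red td31 td12 td7 pt 31 12 7 hpt htd31 htd12 htd7 (P7.forb red hv) n hn) s7 2308 g8 hs7
    have e : s7.length = 67 := by decide +kernel
    rw [e] at h; exact h
  have g10 : Good (sig red pt) cl 2397 := by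
    have h := chkG_sound (sig red pt) cl 3 _ (fun n hn => l3_sound red td9 td19 td31 pt 9 19 31 hpt htd9 htd19 htd31 (P9.forb red hv) n hn) s8 2375 g9 hs8
    have e : s8.length = 22 := by decide +kernel
    rw [e] at h; exact h
  have g11 : Good (sig red pt) cl 2398 := by
    have h := chkG_sound (sig red pt) cl 3 _ (fun n hn => l3_sound red td16 td31 td31 pt 16 31 31 hpt htd16 htd31 htd31 (P10.forb red hv) n hn) s9 2397 g10 hs9
    have e : s9.length = 1 := by decide +kernel
    rw [e] at h; exact h
  have g12 : Good (sig red pt) cl 2456 := by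
    have h := chkG_sound (sig red pt) cl 3 _ (fun n hn => l3_sound red td21 td12 td27 pt 21 12 27 hpt htd21 htd12 htd27 (P11.forb red hv) n hn) s10 2398 g11 hs10
    have e : s10.length = 58 := by decide +kernel
    rw [e] at h; exact h
  have g13 : Good (sig red pt) cl 2465 := by
    have h := chkG_sound (sig red pt) cl 3 _ (fun n hn => l3_sound red td31 td12 td37 pt 31 12 37 hpt htd31 htd12 htd37 (P12.forb red hv) n hn) s11 2456 g12 hs11
    have e : s11.length = 9 := by decide +kernel
    rw [e] at h; exact h
  have g14 : Good (sig red pt) cl 2569 := by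
    have h := chkG_sound (sig red pt) cl 3 _ (fun n hn => l3_sound red td31 td13 td12 pt 31 13 12 hpt htd31 htd13 htd12 (P13.forb red hv) n hn) s12 2465 g13 hs12
    have e : s12.length = 104 := by decide +kernel
    rw [e] at h; exact h
  have g15 : Good (sig red pt) cl 2591 := by
    have h := chkG_sound (sig red pt) cl 3 _ (fun n hn => l3_sound red td31 td37 td7 pt 31 37 7 hpt htd31 htd37 htd7 (P14.forb red hv) n hn) s13 2569 g14 hs13
    have e : s13.length = 22 := by decide +kernel
    rw [e] at h; exact h
  have g16 : Good (sig red pt) cl 2626 := by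
    have h := chkG_sound (sig red pt) cl 3 _ (fun n hn => l3_sound red td25 td21 td31 pt 25 21 31 hpt htd25 htd21 htd31 (P15.forb red hv) n hn) s14 2591 g15 hs14
    have e : s14.length = 35 := by decide +kernel
    rw [e] at h; exact h
  have g17 : Good (sig red pt) cl 2643 := by
    have h := chkG_sound (sig red pt) cl 3 _ (fun n hn => l3_sound red td31 td3 td31 pt 31 3 31 hpt htd31 htd3 htd31 (P16.forb red hv) n hn) s15 2626 g16 hs15
    have e : s15.length = 17 := by decide +kernel
    rw [e] at h; exact h
  have g18 : Good (sig red pt) cl 2789 := by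
    have h := chkG_sound (sig red pt) cl 3 _ (fun n hn => l3_sound red td31 td19 td7 pt 31 19 7 hpt htd31 htd19 htd7 (P17.forb red hv) n hn) s16 2643 g17 hs16
    have e : s16.length = 146 := by decide +kernel
    rw [e] at h; exact h
  have g19 : Good (sig red pt) cl 2913 := by
    have h := chkG_sound (sig red pt) cl 3 _ (fun n hn => l3_sound red td4 td12 td28 pt 4 12 28 hpt htd4 htd12 htd28 (P18.forb red hv) n hn) s17 2789 g18 hs17
    have e : s17.length = 124 := by decide +kernel
    rw [e] at h; exact h
  have g20 : Good (sig red pt) cl 3059 := by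
    have h := chkG_sound (sig red pt) cl 3 _ (fun n hn => l3_sound red td4 td4 td12 pt 4 4 12 hpt htd4 htd4 htd12 (P19.forb red hv) n hn) s18 2913 g19 hs18
    have e : s18.length = 146 := by decide +kernel
    rw [e] at h; exact h
  have g21 : Good (sig red pt) cl 3114 := by
    have h := chkG_sound (sig red pt) cl 3 _ (fun n hn => l3_sound red td4 td12 td16 pt 4 12 16 hpt htd4 htd12 htd16 (P20.forb red hv) n hn) s19 3059 g20 hs19
    have e : s19.length = 55 := by decide +kernel
    rw [e] at h; exact h
  have g22 : Good (sig red pt) cl 3138 := by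
    have h := chkG_sound (sig red pt) cl 3 _ (fun n hn => l3_sound red td16 td12 td28 pt 16 12 28 hpt htd16 htd12 htd28 (P21.forb red hv) n hn) s20 3114 g21 hs20
    have e : s20.length = 24 := by decide +kernel
    rw [e] at h; exact h
  have g23 : Good (sig red pt) cl 3227 := by
    have h := chk_sound (sig red pt) cl nb 2245 hnb c0 3137 g22 t0
    have e : c0.length = 89 := by decide +kernel
    rw [e] at h; exact h
  have g24 : Good (sig red pt) cl 3326 := by
    have h := chk_sound (sig red pt) cl nb 2245 hnb c1 3226 g23 t1
    have e : c1.length = 99 := by decide +kernel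
    rw [e] at h; exact h
  have g25 : Good (sig red pt) cl 3404 := by
    have h := chk_sound (sig red pt) cl nb 2245 hnb c2 3325 g24 t2
    have e : c2.length = 78 := by decide +kernel
    rw [e] at h; exact h
  have g26 : Good (sig red pt) cl 3489 := by
    have h := chk_sound (sig red pt) cl nb 2245 hnb c3 3403 g25 t3
    have e : c3.length = 85 := by decide +kernel
    rw [e] at h; exact h
  have g27 : Good (sig red pt) cl 3577 := by
    have h := chk_sound (sig red pt) cl nb 2245 hnb c4 3488 g26 t4
    have e : c4.length = 88 := by decide +kernel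
    rw [e] at h; exact h
  have g28 : Good (sig red pt) cl 3657 := by
    have h := chk_sound (sig red pt) cl nb 2245 hnb c5 3576 g27 t5
    have e : c5.length = 80 := by decide +kernel
    rw [e] at h; exact h
  have g29 : Good (sig red pt) cl 3721 := by
    have h := chk_sound (sig red pt) cl nb 2245 hnb c6 3656 g28 t6
    have e : c6.length = 64 := by decide +kernel
    rw [e] at h; exact h
  have g30 : Good (sig red pt) cl 3792 := by
    have h := chk_sound (sig red pt) cl nb 2245 hnb c7 3720 g29 t7
    have e : c7.length = 71 := by decide +kernel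
    rw [e] at h; exact h
  have g31 : Good (sig red pt) cl 3856 := by
    have h := chk_sound (sig red pt) cl nb 2245 hnb c8 3791 g30 t8
    have e : c8.length = 64 := by decide +kernel
    rw [e] at h; exact h
  have g32 : Good (sig red pt) cl 3939 := by
    have h := chk_sound (sig red pt) cl nb 2245 hnb c9 3855 g31 t9
    have e : c9.length = 83 := by decide +kernel
    rw [e] at h; exact h
  have g33 : Good (sig red pt) cl 3950 := by
    have h := chk_sound (sig red pt) cl nb 2245 hnb c10 3938 g32 t10
    have e : c10.length = 11 := by decide +kernel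
    rw [e] at h; exact h
  exact final3 (g33 3949 (by norm_num)) (by decide +kernel)

theorem forb : ∀ red : ℂ → Prop, Valid 6 red → Forb3 red 4 27 31 :=
  forb3_of 6 td4 td27 td31 pt 4 27 31 (by norm_num) hpt htd4 htd27 htd31 (by decide +kernel)
    (by decide +kernel) (by decide +kernel) fin

end

end APL.P22

namespace APL.P23

noncomputable section

theorem fin (red : ℂ → Prop) (hv : Valid 6 red) : ¬ (sig red pt 0 ∧ sig red pt 1 ∧ sig red pt 2) := by
  have hnb : NbOK (sig red pt) nb 1937 := by
    intro y hy a ha
    exact chkN_sound red 6 hv nb td1 pt hpt htd1 nbl 0 hN y (Nat.zero_le _) (by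
      have : nbl.length = 1937 := by decide +kernel
      omega) a ha
  have g0 : Good (sig red pt) cl 0 := fun j hj => absurd hj (Nat.not_lt_zero _)
  have g1 : Good (sig red pt) cl 1018 := by
    have h := chkG_sound (sig red pt) cl 6 _ (fun n hn => ap_sound red 5 hv td1 pt hpt htd1 n hn) apl 0 g0 hA
    have e : apl.length = 1018 := by decide +kernel
    rw [e] at h; exact h
  have g2 : Good (sig red pt) cl 1019 := by
    have h := chkG_sound (sig red pt) cl 3 _ (fun n hn => l3_sound red td12 td12 td12 pt 12 12 12 hpt htd12 htd12 htd12 (P0.forb red hv) n hn) s0 1018 g1 hs0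
    have e : s0.length = 1 := by decide +kernel
    rw [e] at h; exact h
  have g3 : Good (sig red pt) cl 1026 := by
    have h := chkG_sound (sig red pt) cl 3 _ (fun n hn => l3_sound red td9 td9 td9 pt 9 9 9 hpt htd9 htd9 htd9 (P1.forb red hv) n hn) s1 1019 g2 hs1
    have e : s1.length = 7 := by decide +kernel
    rw [e] at h; exact h
  have g4 : Good (sig red pt) cl 1365 := by
    have h := chkG_sound (sig red pt) cl 3 _ (fun n hn => l3_sound red td9 td3 td12 pt 9 3 12 hpt htd9 htd3 htd12 (P2.forb red hv) n hn) s2 1026 g3 hs2
    have e : s2.length = 339 := by decide +kernel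
    rw [e] at h; exact h
  have g5 : Good (sig red pt) cl 1388 := by
    have h := chkG_sound (sig red pt) cl 3 _ (fun n hn => l3_sound red td4 td16 td4 pt 4 16 4 hpt htd4 htd16 htd4 (P3.forb red hv) n hn) s3 1365 g4 hs3
    have e : s3.length = 23 := by decide +kernel
    rw [e] at h; exact h
  have g6 : Good (sig red pt) cl 1799 := by
    have h := chkG_sound (sig red pt) cl 3 _ (fun n hn => l3_sound red td4 td7 td19 pt 4 7 19 hpt htd4 htd7 htd19 (P4.forb red hv) n hn) s4 1388 g5 hs4
    have e : s4.length = 411 := by decide +kernel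
    rw [e] at h; exact h
  have g7 : Good (sig red pt) cl 1927 := by
    have h := chkG_sound (sig red pt) cl 3 _ (fun n hn => l3_sound red td16 td7 td7 pt 16 7 7 hpt htd16 htd7 htd7 (P5.forb red hv) n hn) s5 1799 g6 hs5
    have e : s5.length = 128 := by decide +kernel
    rw [e] at h; exact h
  have g8 : Good (sig red pt) cl 1990 := by
    have h := chkG_sound (sig red pt) cl 3 _ (fun n hn => l3_sound red td9 td12 td21 pt 9 12 21 hpt htd9 htd12 htd21 (P6.forb red hv) n hn) s6 1927 g7 hs6
    have e : s6.length = 63 := by decide +kernel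
    rw [e] at h; exact h
  have g9 : Good (sig red pt) cl 2060 := by
    have h := chkG_sound (sig red pt) cl 3 _ (fun n hn => l3_sound red td31 td12 td7 pt 31 12 7 hpt htd31 htd12 htd7 (P7.forb red hv) n hn) s7 1990 g8 hs7
    have e : s7.length = 70 := by decide +kernel
    rw [e] at h; exact h
  have g10 : Good (sig red pt) cl 2062 := by
    have h := chkG_sound (sig red pt) cl 3 _ (fun n hn => l3_sound red td16 td16 td16 pt 16 16 16 hpt htd16 htd16 htd16 (P8.forb red hv) n hn) s8 2060 g9 hs8
    have e : s8.length = 2 := by decide +kernel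
    rw [e] at h; exact h
  have g11 : Good (sig red pt) cl 2085 := by
    have h := chkG_sound (sig red pt) cl 3 _ (fun n hn => l3_sound red td9 td19 td31 pt 9 19 31 hpt htd9 htd19 htd31 (P9.forb red hv) n hn) s9 2062 g10 hs9
    have e : s9.length = 23 := by decide +kernel
    rw [e] at h; exact h
  have g12 : Good (sig red pt) cl 2087 := by
    have h := chkG_sound (sig red pt) cl 3 _ (fun n hn => l3_sound red td16 td31 td31 pt 16 31 31 hpt htd16 htd31 htd31 (P10.forb red hv) n hn) s10 2085 g11 hs10
    have e : s10.length = 2 := by decide +kernel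
    rw [e] at h; exact h
  have g13 : Good (sig red pt) cl 2137 := by
    have h := chkG_sound (sig red pt) cl 3 _ (fun n hn => l3_sound red td21 td12 td27 pt 21 12 27 hpt htd21 htd12 htd27 (P11.forb red hv) n hn) s11 2087 g12 hs11
    have e : s11.length = 50 := by decide +kernel
    rw [e] at h; exact h
  have g14 : Good (sig red pt) cl 2152 := by
    have h := chkG_sound (sig red pt) cl 3 _ (fun n hn => l3_sound red td31 td12 td37 pt 31 12 37 hpt htd31 htd12 htd37 (P12.forb red hv) n hn) s12 2137 g13 hs12
    have e : s12.length = 15 := by decide +kernel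
    rw [e] at h; exact h
  have g15 : Good (sig red pt) cl 2229 := by
    have h := chkG_sound (sig red pt) cl 3 _ (fun n hn => l3_sound red td31 td13 td12 pt 31 13 12 hpt htd31 htd13 htd12 (P13.forb red hv) n hn) s13 2152 g14 hs13
    have e : s13.length = 77 := by decide +kernel
    rw [e] at h; exact h
  have g16 : Good (sig red pt) cl 2268 := by
    have h := chkG_sound (sig red pt) cl 3 _ (fun n hn => l3_sound red td31 td37 td7 pt 31 37 7 hpt htd31 htd37 htd7 (P14.forb red hv) n hn) s14 2229 g15 hs14
    have e : s14.length = 39 := by decide +kernel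
    rw [e] at h; exact h
  have g17 : Good (sig red pt) cl 2288 := by
    have h := chkG_sound (sig red pt) cl 3 _ (fun n hn => l3_sound red td25 td21 td31 pt 25 21 31 hpt htd25 htd21 htd31 (P15.forb red hv) n hn) s15 2268 g16 hs15
    have e : s15.length = 20 := by decide +kernel
    rw [e] at h; exact h
  have g18 : Good (sig red pt) cl 2300 := by
    have h := chkG_sound (sig red pt) cl 3 _ (fun n hn => l3_sound red td31 td3 td31 pt 31 3 31 hpt htd31 htd3 htd31 (P16.forb red hv) n hn) s16 2288 g17 hs16
    have e : s16.length = 12 := by decide +kernel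
    rw [e] at h; exact h
  have g19 : Good (sig red pt) cl 2418 := by
    have h := chkG_sound (sig red pt) cl 3 _ (fun n hn => l3_sound red td31 td19 td7 pt 31 19 7 hpt htd31 htd19 htd7 (P17.forb red hv) n hn) s17 2300 g18 hs17
    have e : s17.length = 118 := by decide +kernel
    rw [e] at h; exact h
  have g20 : Good (sig red pt) cl 2520 := by
    have h := chkG_sound (sig red pt) cl 3 _ (fun n hn => l3_sound red td4 td12 td28 pt 4 12 28 hpt htd4 htd12 htd28 (P18.forb red hv) n hn) s18 2418 g19 hs18
    have e : s18.length = 102 := by decide +kernel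
    rw [e] at h; exact h
  have g21 : Good (sig red pt) cl 2634 := by
    have h := chkG_sound (sig red pt) cl 3 _ (fun n hn => l3_sound red td4 td4 td12 pt 4 4 12 hpt htd4 htd4 htd12 (P19.forb red hv) n hn) s19 2520 g20 hs19
    have e : s19.length = 114 := by decide +kernel
    rw [e] at h; exact h
  have g22 : Good (sig red pt) cl 2679 := by
    have h := chkG_sound (sig red pt) cl 3 _ (fun n hn => l3_sound red td4 td12 td16 pt 4 12 16 hpt htd4 htd12 htd16 (P20.forb red hv) n hn) s20 2634 g21 hs20
    have e : s20.length = 45 := by decide +kernel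
    rw [e] at h; exact h
  have g23 : Good (sig red pt) cl 2729 := by
    have h := chkG_sound (sig red pt) cl 3 _ (fun n hn => l3_sound red td16 td12 td28 pt 16 12 28 hpt htd16 htd12 htd28 (P21.forb red hv) n hn) s21 2679 g22 hs21
    have e : s21.length = 50 := by decide +kernel
    rw [e] at h; exact h
  have g24 : Good (sig red pt) cl 2770 := by
    have h := chkG_sound (sig red pt) cl 3 _ (fun n hn => l3_sound red td4 td27 td31 pt 4 27 31 hpt htd4 htd27 htd31 (P22.forb red hv) n hn) s22 2729 g23 hs22
    have e : s22.length = 41 := by decide +kernel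
    rw [e] at h; exact h
  have g25 : Good (sig red pt) cl 2883 := by
    have h := chk_sound (sig red pt) cl nb 1937 hnb c0 2769 g24 t0
    have e : c0.length = 113 := by decide +kernel
    rw [e] at h; exact h
  have g26 : Good (sig red pt) cl 2943 := by
    have h := chk_sound (sig red pt) cl nb 1937 hnb c1 2882 g25 t1
    have e : c1.length = 60 := by decide +kernel
    rw [e] at h; exact h
  have g27 : Good (sig red pt) cl 3027 := by
    have h := chk_sound (sig red pt) cl nb 1937 hnb c2 2942 g26 t2
    have e : c2.length = 84 := by decide +kernel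
    rw [e] at h; exact h
  have g28 : Good (sig red pt) cl 3114 := by
    have h := chk_sound (sig red pt) cl nb 1937 hnb c3 3026 g27 t3
    have e : c3.length = 87 := by decide +kernel
    rw [e] at h; exact h
  have g29 : Good (sig red pt) cl 3211 := by
    have h := chk_sound (sig red pt) cl nb 1937 hnb c4 3113 g28 t4
    have e : c4.length = 97 := by decide +kernel
    rw [e] at h; exact h
  have g30 : Good (sig red pt) cl 3306 := by
    have h := chk_sound (sig red pt) cl nb 1937 hnb c5 3210 g29 t5
    have e : c5.length = 95 := by decide +kernel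
    rw [e] at h; exact h
  have g31 : Good (sig red pt) cl 3394 := by
    have h := chk_sound (sig red pt) cl nb 1937 hnb c6 3305 g30 t6
    have e : c6.length = 88 := by decide +kernel
    rw [e] at h; exact h
  have g32 : Good (sig red pt) cl 3488 := by
    have h := chk_sound (sig red pt) cl nb 1937 hnb c7 3393 g31 t7
    have e : c7.length = 94 := by decide +kernel
    rw [e] at h; exact h
  have g33 : Good (sig red pt) cl 3571 := by
    have h := chk_sound (sig red pt) cl nb 1937 hnb c8 3487 g32 t8
    have e : c8.length = 83 := by decide +kernel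
    rw [e] at h; exact h
  have g34 : Good (sig red pt) cl 3635 := by
    have h := chk_sound (sig red pt) cl nb 1937 hnb c9 3570 g33 t9
    have e : c9.length = 64 := by decide +kernel
    rw [e] at h; exact h
  exact final3 (g34 3634 (by norm_num)) (by decide +kernel)

theorem forb : ∀ red : ℂ → Prop, Valid 6 red → Forb3 red 9 28 31 :=
  forb3_of 6 td9 td28 td31 pt 9 28 31 (by norm_num) hpt htd9 htd28 htd31 (by decide +kernel)
    (by decide +kernel) (by decide +kernel) fin

end

end APL.P23

namespace APL.P24

noncomputable section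

theorem fin (red : ℂ → Prop) (hv : Valid 6 red) : ¬ (sig red pt 0 ∧ sig red pt 1 ∧ sig red pt 2) := by
  have hnb : NbOK (sig red pt) nb 1365 := by
    intro y hy a ha
    exact chkN_sound red 6 hv nb td1 pt hpt htd1 nbl 0 hN y (Nat.zero_le _) (by
      have : nbl.length = 1365 := by decide +kernel
      omega) a ha
  have g0 : Good (sig red pt) cl 0 := fun j hj => absurd hj (Nat.not_lt_zero _)
  have g1 : Good (sig red pt) cl 664 := by
    have h := chkG_sound (sig red pt) cl 6 _ (fun n hn => ap_sound red 5 hv td1 pt hpt htd1 n hn) apl 0 g0 hA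
    have e : apl.length = 664 := by decide +kernel
    rw [e] at h; exact h
  have g2 : Good (sig red pt) cl 834 := by
    have h := chkG_sound (sig red pt) cl 3 _ (fun n hn => l3_sound red td9 td3 td12 pt 9 3 12 hpt htd9 htd3 htd12 (P2.forb red hv) n hn) s0 664 g1 hs0
    have e : s0.length = 170 := by decide +kernel
    rw [e] at h; exact h
  have g3 : Good (sig red pt) cl 838 := by
    have h := chkG_sound (sig red pt) cl 3 _ (fun n hn => l3_sound red td4 td16 td4 pt 4 16 4 hpt htd4 htd16 htd4 (P3.forb red hv) n hn) s1 834 g2 hs1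
    have e : s1.length = 4 := by decide +kernel
    rw [e] at h; exact h
  have g4 : Good (sig red pt) cl 1007 := by
    have h := chkG_sound (sig red pt) cl 3 _ (fun n hn => l3_sound red td4 td7 td19 pt 4 7 19 hpt htd4 htd7 htd19 (P4.forb red hv) n hn) s2 838 g3 hs2
    have e : s2.length = 169 := by decide +kernel
    rw [e] at h; exact h
  have g5 : Good (sig red pt) cl 1067 := by
    have h := chkG_sound (sig red pt) cl 3 _ (fun n hn => l3_sound red td16 td7 td7 pt 16 7 7 hpt htd16 htd7 htd7 (P5.forb red hv) n hn) s3 1007 g4 hs3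
    have e : s3.length = 60 := by decide +kernel
    rw [e] at h; exact h
  have g6 : Good (sig red pt) cl 1078 := by
    have h := chkG_sound (sig red pt) cl 3 _ (fun n hn => l3_sound red td9 td12 td21 pt 9 12 21 hpt htd9 htd12 htd21 (P6.forb red hv) n hn) s4 1067 g5 hs4
    have e : s4.length = 11 := by decide +kernel
    rw [e] at h; exact h
  have g7 : Good (sig red pt) cl 1107 := by
    have h := chkG_sound (sig red pt) cl 3 _ (fun n hn => l3_sound red td31 td12 td7 pt 31 12 7 hpt htd31 htd12 htd7 (P7.forb red hv) n hn) s5 1078 g6 hs5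
    have e : s5.length = 29 := by decide +kernel
    rw [e] at h; exact h
  have g8 : Good (sig red pt) cl 1108 := by
    have h := chkG_sound (sig red pt) cl 3 _ (fun n hn => l3_sound red td16 td16 td16 pt 16 16 16 hpt htd16 htd16 htd16 (P8.forb red hv) n hn) s6 1107 g7 hs6
    have e : s6.length = 1 := by decide +kernel
    rw [e] at h; exact h
  have g9 : Good (sig red pt) cl 1114 := by
    have h := chkG_sound (sig red pt) cl 3 _ (fun n hn => l3_sound red td9 td19 td31 pt 9 19 31 hpt htd9 htd19 htd31 (P9.forb red hv) n hn) s7 1108 g8 hs7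
    have e : s7.length = 6 := by decide +kernel
    rw [e] at h; exact h
  have g10 : Good (sig red pt) cl 1115 := by
    have h := chkG_sound (sig red pt) cl 3 _ (fun n hn => l3_sound red td16 td31 td31 pt 16 31 31 hpt htd16 htd31 htd31 (P10.forb red hv) n hn) s8 1114 g9 hs8
    have e : s8.length = 1 := by decide +kernel
    rw [e] at h; exact h
  have g11 : Good (sig red pt) cl 1159 := by
    have h := chkG_sound (sig red pt) cl 3 _ (fun n hn => l3_sound red td21 td12 td27 pt 21 12 27 hpt htd21 htd12 htd27 (P11.forb red hv) n hn) s9 1115 g10 hs9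
    have e : s9.length = 44 := by decide +kernel
    rw [e] at h; exact h
  have g12 : Good (sig red pt) cl 1165 := by
    have h := chkG_sound (sig red pt) cl 3 _ (fun n hn => l3_sound red td31 td12 td37 pt 31 12 37 hpt htd31 htd12 htd37 (P12.forb red hv) n hn) s10 1159 g11 hs10
    have e : s10.length = 6 := by decide +kernel
    rw [e] at h; exact h
  have g13 : Good (sig red pt) cl 1204 := by
    have h := chkG_sound (sig red pt) cl 3 _ (fun n hn => l3_sound red td31 td13 td12 pt 31 13 12 hpt htd31 htd13 htd12 (P13.forb red hv) n hn) s11 1165 g12 hs11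
    have e : s11.length = 39 := by decide +kernel
    rw [e] at h; exact h
  have g14 : Good (sig red pt) cl 1222 := by
    have h := chkG_sound (sig red pt) cl 3 _ (fun n hn => l3_sound red td31 td37 td7 pt 31 37 7 hpt htd31 htd37 htd7 (P14.forb red hv) n hn) s12 1204 g13 hs12
    have e : s12.length = 18 := by decide +kernel
    rw [e] at h; exact h
  have g15 : Good (sig red pt) cl 1229 := by
    have h := chkG_sound (sig red pt) cl 3 _ (fun n hn => l3_sound red td25 td21 td31 pt 25 21 31 hpt htd25 htd21 htd31 (P15.forb red hv) n hn) s13 1222 g14 hs13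
    have e : s13.length = 7 := by decide +kernel
    rw [e] at h; exact h
  have g16 : Good (sig red pt) cl 1236 := by
    have h := chkG_sound (sig red pt) cl 3 _ (fun n hn => l3_sound red td31 td3 td31 pt 31 3 31 hpt htd31 htd3 htd31 (P16.forb red hv) n hn) s14 1229 g15 hs14
    have e : s14.length = 7 := by decide +kernel
    rw [e] at h; exact h
  have g17 : Good (sig red pt) cl 1290 := by
    have h := chkG_sound (sig red pt) cl 3 _ (fun n hn => l3_sound red td31 td19 td7 pt 31 19 7 hpt htd31 htd19 htd7 (P17.forb red hv) n hn) s15 1236 g16 hs15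
    have e : s15.length = 54 := by decide +kernel
    rw [e] at h; exact h
  have g18 : Good (sig red pt) cl 1330 := by
    have h := chkG_sound (sig red pt) cl 3 _ (fun n hn => l3_sound red td4 td12 td28 pt 4 12 28 hpt htd4 htd12 htd28 (P18.forb red hv) n hn) s16 1290 g17 hs16
    have e : s16.length = 40 := by decide +kernel
    rw [e] at h; exact h
  have g19 : Good (sig red pt) cl 1375 := by
    have h := chkG_sound (sig red pt) cl 3 _ (fun n hn => l3_sound red td4 td4 td12 pt 4 4 12 hpt htd4 htd4 htd12 (P19.forb red hv) n hn) s17 1330 g18 hs17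
    have e : s17.length = 45 := by decide +kernel
    rw [e] at h; exact h
  have g20 : Good (sig red pt) cl 1395 := by
    have h := chkG_sound (sig red pt) cl 3 _ (fun n hn => l3_sound red td4 td12 td16 pt 4 12 16 hpt htd4 htd12 htd16 (P20.forb red hv) n hn) s18 1375 g19 hs18
    have e : s18.length = 20 := by decide +kernel
    rw [e] at h; exact h
  have g21 : Good (sig red pt) cl 1406 := by
    have h := chkG_sound (sig red pt) cl 3 _ (fun n hn => l3_sound red td16 td12 td28 pt 16 12 28 hpt htd16 htd12 htd28 (P21.forb red hv) n hn) s19 1395 g20 hs19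
    have e : s19.length = 11 := by decide +kernel
    rw [e] at h; exact h
  have g22 : Good (sig red pt) cl 1432 := by
    have h := chkG_sound (sig red pt) cl 3 _ (fun n hn => l3_sound red td4 td27 td31 pt 4 27 31 hpt htd4 htd27 htd31 (P22.forb red hv) n hn) s20 1406 g21 hs20
    have e : s20.length = 26 := by decide +kernel
    rw [e] at h; exact h
  have g23 : Good (sig red pt) cl 1448 := by
    have h := chkG_sound (sig red pt) cl 3 _ (fun n hn => l3_sound red td9 td28 td31 pt 9 28 31 hpt htd9 htd28 htd31 (P23.forb red hv) n hn) s21 1432 g22 hs21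
    have e : s21.length = 16 := by decide +kernel
    rw [e] at h; exact h
  have g24 : Good (sig red pt) cl 1555 := by
    have h := chk_sound (sig red pt) cl nb 1365 hnb c0 1447 g23 t0
    have e : c0.length = 107 := by decide +kernel
    rw [e] at h; exact h
  have g25 : Good (sig red pt) cl 1663 := by
    have h := chk_sound (sig red pt) cl nb 1365 hnb c1 1554 g24 t1
    have e : c1.length = 108 := by decide +kernel
    rw [e] at h; exact h
  have g26 : Good (sig red pt) cl 1777 := by
    have h := chk_sound (sig red pt) cl nb 1365 hnb c2 1662 g25 t2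
    have e : c2.length = 114 := by decide +kernel
    rw [e] at h; exact h
  have g27 : Good (sig red pt) cl 1880 := by
    have h := chk_sound (sig red pt) cl nb 1365 hnb c3 1776 g26 t3
    have e : c3.length = 103 := by decide +kernel
    rw [e] at h; exact h
  have g28 : Good (sig red pt) cl 1992 := by
    have h := chk_sound (sig red pt) cl nb 1365 hnb c4 1879 g27 t4
    have e : c4.length = 112 := by decide +kernel
    rw [e] at h; exact h
  have g29 : Good (sig red pt) cl 2085 := by
    have h := chk_sound (sig red pt) cl nb 1365 hnb c5 1991 g28 t5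
    have e : c5.length = 93 := by decide +kernel
    rw [e] at h; exact h
  have g30 : Good (sig red pt) cl 2195 := by
    have h := chk_sound (sig red pt) cl nb 1365 hnb c6 2084 g29 t6
    have e : c6.length = 110 := by decide +kernel
    rw [e] at h; exact h
  have g31 : Good (sig red pt) cl 2298 := by
    have h := chk_sound (sig red pt) cl nb 1365 hnb c7 2194 g30 t7
    have e : c7.length = 103 := by decide +kernel
    rw [e] at h; exact h
  have g32 : Good (sig red pt) cl 2393 := by
    have h := chk_sound (sig red pt) cl nb 1365 hnb c8 2297 g31 t8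
    have e : c8.length = 95 := by decide +kernel
    rw [e] at h; exact h
  have g33 : Good (sig red pt) cl 2503 := by
    have h := chk_sound (sig red pt) cl nb 1365 hnb c9 2392 g32 t9
    have e : c9.length = 110 := by decide +kernel
    rw [e] at h; exact h
  have g34 : Good (sig red pt) cl 2601 := by
    have h := chk_sound (sig red pt) cl nb 1365 hnb c10 2502 g33 t10
    have e : c10.length = 98 := by decide +kernel
    rw [e] at h; exact h
  have g35 : Good (sig red pt) cl 2705 := by
    have h := chk_sound (sig red pt) cl nb 1365 hnb c11 2600 g34 t11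
    have e : c11.length = 104 := by decide +kernel
    rw [e] at h; exact h
  have g36 : Good (sig red pt) cl 2811 := by
    have h := chk_sound (sig red pt) cl nb 1365 hnb c12 2704 g35 t12
    have e : c12.length = 106 := by decide +kernel
    rw [e] at h; exact h
  have g37 : Good (sig red pt) cl 2900 := by
    have h := chk_sound (sig red pt) cl nb 1365 hnb c13 2810 g36 t13
    have e : c13.length = 89 := by decide +kernel
    rw [e] at h; exact h
  have g38 : Good (sig red pt) cl 3005 := by
    have h := chk_sound (sig red pt) cl nb 1365 hnb c14 2899 g37 t14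
    have e : c14.length = 105 := by decide +kernel
    rw [e] at h; exact h
  have g39 : Good (sig red pt) cl 3008 := by
    have h := chk_sound (sig red pt) cl nb 1365 hnb c15 3004 g38 t15
    have e : c15.length = 3 := by decide +kernel
    rw [e] at h; exact h
  exact final3 (g39 3007 (by norm_num)) (by decide +kernel)

theorem forb : ∀ red : ℂ → Prop, Valid 6 red → Forb3 red 31 19 37 :=
  forb3_of 6 td31 td19 td37 pt 31 19 37 (by norm_num) hpt htd31 htd19 htd37 (by decide +kernel)
    (by decide +kernel) (by decide +kernel) fin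

end

end APL.P24

namespace APL.P25

noncomputable section

theorem fin (red : ℂ → Prop) (hv : Valid 6 red) : ¬ (sig red pt 0 ∧ sig red pt 1 ∧ sig red pt 2) := by
  have hnb : NbOK (sig red pt) nb 9 := by
    intro y hy a ha
    exact chkN_sound red 6 hv nb td1 pt hpt htd1 nbl 0 hN y (Nat.zero_le _) (by
      have : nbl.length = 9 := by decide +kernel
      omega) a ha
  have g0 : Good (sig red pt) cl 0 := fun j hj => absurd hj (Nat.not_lt_zero _)
  have g1 : Good (sig red pt) cl 1 := by
    have h := chkG_sound (sig red pt) cl 6 _ (fun n hn => ap_sound red 5 hv td1 pt hpt htd1 n hn) apl 0 g0 hA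
    have e : apl.length = 1 := by decide +kernel
    rw [e] at h; exact h
  have g2 : Good (sig red pt) cl 2 := by
    have h := chkG_sound (sig red pt) cl 3 _ (fun n hn => l3_sound red td16 td31 td31 pt 16 31 31 hpt htd16 htd31 htd31 (P10.forb red hv) n hn) s0 1 g1 hs0
    have e : s0.length = 1 := by decide +kernel
    rw [e] at h; exact h
  have g3 : Good (sig red pt) cl 3 := by
    have h := chkG_sound (sig red pt) cl 3 _ (fun n hn => l3_sound red td4 td27 td31 pt 4 27 31 hpt htd4 htd27 htd31 (P22.forb red hv) n hn) s1 2 g2 hs1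
    have e : s1.length = 1 := by decide +kernel
    rw [e] at h; exact h
  have g4 : Good (sig red pt) cl 4 := by
    have h := chkG_sound (sig red pt) cl 3 _ (fun n hn => l3_sound red td9 td28 td31 pt 9 28 31 hpt htd9 htd28 htd31 (P23.forb red hv) n hn) s2 3 g3 hs2
    have e : s2.length = 1 := by decide +kernel
    rw [e] at h; exact h
  have g5 : Good (sig red pt) cl 5 := by
    have h := chk_sound (sig red pt) cl nb 9 hnb c0 3 g4 t0
    have e : c0.length = 1 := by decide +kernel
    rw [e] at h; exact h
  exact final3 (g5 4 (by norm_num)) (by decide +kernel)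

theorem forb : ∀ red : ℂ → Prop, Valid 6 red → Forb3 red 31 31 31 :=
  forb3_of 6 td31 td31 td31 pt 31 31 31 (by norm_num) hpt htd31 htd31 htd31 (by decide +kernel)
    (by decide +kernel) (by decide +kernel) fin

end

end APL.P25

namespace APL.P26

noncomputable section

theorem fin (red : ℂ → Prop) (hv : Valid 6 red) : ¬ (sig red pt 0 ∧ sig red pt 1 ∧ sig red pt 2) := by
  have hnb : NbOK (sig red pt) nb 30 := by
    intro y hy a ha
    exact chkN_sound red 6 hv nb td1 pt hpt htd1 nbl 0 hN y (Nat.zero_le _) (by
      have : nbl.length = 30 := by decide +kernel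
      omega) a ha
  have g0 : Good (sig red pt) cl 0 := fun j hj => absurd hj (Nat.not_lt_zero _)
  have g1 : Good (sig red pt) cl 5 := by
    have h := chkG_sound (sig red pt) cl 6 _ (fun n hn => ap_sound red 5 hv td1 pt hpt htd1 n hn) apl 0 g0 hA
    have e : apl.length = 5 := by decide +kernel
    rw [e] at h; exact h
  have g2 : Good (sig red pt) cl 8 := by
    have h := chkG_sound (sig red pt) cl 3 _ (fun n hn => l3_sound red td9 td3 td12 pt 9 3 12 hpt htd9 htd3 htd12 (P2.forb red hv) n hn) s0 5 g1 hs0
    have e : s0.length = 3 := by decide +kernel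
    rw [e] at h; exact h
  have g3 : Good (sig red pt) cl 10 := by
    have h := chkG_sound (sig red pt) cl 3 _ (fun n hn => l3_sound red td4 td7 td19 pt 4 7 19 hpt htd4 htd7 htd19 (P4.forb red hv) n hn) s1 8 g2 hs1
    have e : s1.length = 2 := by decide +kernel
    rw [e] at h; exact h
  have g4 : Good (sig red pt) cl 12 := by
    have h := chkG_sound (sig red pt) cl 3 _ (fun n hn => l3_sound red td9 td12 td21 pt 9 12 21 hpt htd9 htd12 htd21 (P6.forb red hv) n hn) s2 10 g3 hs2
    have e : s2.length = 2 := by decide +kernel
    rw [e] at h; exact h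
  have g5 : Good (sig red pt) cl 13 := by
    have h := chkG_sound (sig red pt) cl 3 _ (fun n hn => l3_sound red td9 td19 td31 pt 9 19 31 hpt htd9 htd19 htd31 (P9.forb red hv) n hn) s3 12 g4 hs3
    have e : s3.length = 1 := by decide +kernel
    rw [e] at h; exact h
  have g6 : Good (sig red pt) cl 14 := by
    have h := chkG_sound (sig red pt) cl 3 _ (fun n hn => l3_sound red td31 td13 td12 pt 31 13 12 hpt htd31 htd13 htd12 (P13.forb red hv) n hn) s4 13 g5 hs4
    have e : s4.length = 1 := by decide +kernel
    rw [e] at h; exact h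
  have g7 : Good (sig red pt) cl 15 := by
    have h := chkG_sound (sig red pt) cl 3 _ (fun n hn => l3_sound red td25 td21 td31 pt 25 21 31 hpt htd25 htd21 htd31 (P15.forb red hv) n hn) s5 14 g6 hs5
    have e : s5.length = 1 := by decide +kernel
    rw [e] at h; exact h
  have g8 : Good (sig red pt) cl 17 := by
    have h := chkG_sound (sig red pt) cl 3 _ (fun n hn => l3_sound red td31 td19 td7 pt 31 19 7 hpt htd31 htd19 htd7 (P17.forb red hv) n hn) s6 15 g7 hs6
    have e : s6.length = 2 := by decide +kernel
    rw [e] at h; exact h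
  have g9 : Good (sig red pt) cl 18 := by
    have h := chkG_sound (sig red pt) cl 3 _ (fun n hn => l3_sound red td4 td27 td31 pt 4 27 31 hpt htd4 htd27 htd31 (P22.forb red hv) n hn) s7 17 g8 hs7
    have e : s7.length = 1 := by decide +kernel
    rw [e] at h; exact h
  have g10 : Good (sig red pt) cl 21 := by
    have h := chkG_sound (sig red pt) cl 3 _ (fun n hn => l3_sound red td9 td28 td31 pt 9 28 31 hpt htd9 htd28 htd31 (P23.forb red hv) n hn) s8 18 g9 hs8
    have e : s8.length = 3 := by decide +kernel
    rw [e] at h; exact h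
  have g11 : Good (sig red pt) cl 22 := by
    have h := chkG_sound (sig red pt) cl 3 _ (fun n hn => l3_sound red td31 td19 td37 pt 31 19 37 hpt htd31 htd19 htd37 (P24.forb red hv) n hn) s9 21 g10 hs9
    have e : s9.length = 1 := by decide +kernel
    rw [e] at h; exact h
  have g12 : Good (sig red pt) cl 23 := by
    have h := chk_sound (sig red pt) cl nb 30 hnb c0 21 g11 t0
    have e : c0.length = 1 := by decide +kernel
    rw [e] at h; exact h
  exact final3 (g12 22 (by norm_num)) (by decide +kernel)

theorem forb : ∀ red : ℂ → Prop, Valid 6 red → Forb3 red 9 7 31 :=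
  forb3_of 6 td9 td7 td31 pt 9 7 31 (by norm_num) hpt htd9 htd7 htd31 (by decide +kernel)
    (by decide +kernel) (by decide +kernel) fin

end

end APL.P26

namespace APL.P27

noncomputable section

theorem fin (red : ℂ → Prop) (hv : Valid 6 red) : ¬ (sig red pt 0 ∧ sig red pt 1 ∧ sig red pt 2) := by
  have hnb : NbOK (sig red pt) nb 9 := by
    intro y hy a ha
    exact chkN_sound red 6 hv nb td1 pt hpt htd1 nbl 0 hN y (Nat.zero_le _) (by
      have : nbl.length = 9 := by decide +kernel
      omega) a ha
  have g0 : Good (sig red pt) cl 0 := fun j hj => absurd hj (Nat.not_lt_zero _)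
  have g1 : Good (sig red pt) cl 1 := by
    have h := chkG_sound (sig red pt) cl 6 _ (fun n hn => ap_sound red 5 hv td1 pt hpt htd1 n hn) apl 0 g0 hA
    have e : apl.length = 1 := by decide +kernel
    rw [e] at h; exact h
  have g2 : Good (sig red pt) cl 2 := by
    have h := chkG_sound (sig red pt) cl 3 _ (fun n hn => l3_sound red td16 td7 td7 pt 16 7 7 hpt htd16 htd7 htd7 (P5.forb red hv) n hn) s0 1 g1 hs0
    have e : s0.length = 1 := by decide +kernel
    rw [e] at h; exact h
  have g3 : Good (sig red pt) cl 4 := by
    have h := chkG_sound (sig red pt) cl 3 _ (fun n hn => l3_sound red td9 td19 td31 pt 9 19 31 hpt htd9 htd19 htd31 (P9.forb red hv) n hn) s1 2 g2 hs1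
    have e : s1.length = 2 := by decide +kernel
    rw [e] at h; exact h
  have g4 : Good (sig red pt) cl 5 := by
    have h := chkG_sound (sig red pt) cl 3 _ (fun n hn => l3_sound red td9 td7 td31 pt 9 7 31 hpt htd9 htd7 htd31 (P26.forb red hv) n hn) s2 4 g3 hs2
    have e : s2.length = 1 := by decide +kernel
    rw [e] at h; exact h
  have g5 : Good (sig red pt) cl 6 := by
    have h := chk_sound (sig red pt) cl nb 9 hnb c0 4 g4 t0
    have e : c0.length = 1 := by decide +kernel
    rw [e] at h; exact h
  exact final3 (g5 5 (by norm_num)) (by decide +kernel)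

theorem forb : ∀ red : ℂ → Prop, Valid 6 red → Forb3 red 16 3 31 :=
  forb3_of 6 td16 td3 td31 pt 16 3 31 (by norm_num) hpt htd16 htd3 htd31 (by decide +kernel)
    (by decide +kernel) (by decide +kernel) fin

end

end APL.P27

namespace APL.P28

noncomputable section

theorem fin (red : ℂ → Prop) (hv : Valid 6 red) : ¬ (sig red pt 0 ∧ sig red pt 1 ∧ sig red pt 2) := by
  have hnb : NbOK (sig red pt) nb 48 := by
    intro y hy a ha
    exact chkN_sound red 6 hv nb td1 pt hpt htd1 nbl 0 hN y (Nat.zero_le _) (by
      have : nbl.length = 48 := by decide +kernel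
      omega) a ha
  have g0 : Good (sig red pt) cl 0 := fun j hj => absurd hj (Nat.not_lt_zero _)
  have g1 : Good (sig red pt) cl 9 := by
    have h := chkG_sound (sig red pt) cl 6 _ (fun n hn => ap_sound red 5 hv td1 pt hpt htd1 n hn) apl 0 g0 hA
    have e : apl.length = 9 := by decide +kernel
    rw [e] at h; exact h
  have g2 : Good (sig red pt) cl 15 := by
    have h := chkG_sound (sig red pt) cl 3 _ (fun n hn => l3_sound red td9 td3 td12 pt 9 3 12 hpt htd9 htd3 htd12 (P2.forb red hv) n hn) s0 9 g1 hs0
    have e : s0.length = 6 := by decide +kernel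
    rw [e] at h; exact h
  have g3 : Good (sig red pt) cl 16 := by
    have h := chkG_sound (sig red pt) cl 3 _ (fun n hn => l3_sound red td4 td7 td19 pt 4 7 19 hpt htd4 htd7 htd19 (P4.forb red hv) n hn) s1 15 g2 hs1
    have e : s1.length = 1 := by decide +kernel
    rw [e] at h; exact h
  have g4 : Good (sig red pt) cl 17 := by
    have h := chkG_sound (sig red pt) cl 3 _ (fun n hn => l3_sound red td9 td12 td21 pt 9 12 21 hpt htd9 htd12 htd21 (P6.forb red hv) n hn) s2 16 g3 hs2
    have e : s2.length = 1 := by decide +kernel
    rw [e] at h; exact h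
  have g5 : Good (sig red pt) cl 18 := by
    have h := chkG_sound (sig red pt) cl 3 _ (fun n hn => l3_sound red td31 td13 td12 pt 31 13 12 hpt htd31 htd13 htd12 (P13.forb red hv) n hn) s3 17 g4 hs3
    have e : s3.length = 1 := by decide +kernel
    rw [e] at h; exact h
  have g6 : Good (sig red pt) cl 20 := by
    have h := chkG_sound (sig red pt) cl 3 _ (fun n hn => l3_sound red td25 td21 td31 pt 25 21 31 hpt htd25 htd21 htd31 (P15.forb red hv) n hn) s4 18 g5 hs4
    have e : s4.length = 2 := by decide +kernel
    rw [e] at h; exact h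
  have g7 : Good (sig red pt) cl 25 := by
    have h := chkG_sound (sig red pt) cl 3 _ (fun n hn => l3_sound red td31 td19 td7 pt 31 19 7 hpt htd31 htd19 htd7 (P17.forb red hv) n hn) s5 20 g6 hs5
    have e : s5.length = 5 := by decide +kernel
    rw [e] at h; exact h
  have g8 : Good (sig red pt) cl 26 := by
    have h := chkG_sound (sig red pt) cl 3 _ (fun n hn => l3_sound red td4 td12 td28 pt 4 12 28 hpt htd4 htd12 htd28 (P18.forb red hv) n hn) s6 25 g7 hs6
    have e : s6.length = 1 := by decide +kernel
    rw [e] at h; exact h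
  have g9 : Good (sig red pt) cl 27 := by
    have h := chkG_sound (sig red pt) cl 3 _ (fun n hn => l3_sound red td4 td12 td16 pt 4 12 16 hpt htd4 htd12 htd16 (P20.forb red hv) n hn) s7 26 g8 hs7
    have e : s7.length = 1 := by decide +kernel
    rw [e] at h; exact h
  have g10 : Good (sig red pt) cl 28 := by
    have h := chkG_sound (sig red pt) cl 3 _ (fun n hn => l3_sound red td16 td12 td28 pt 16 12 28 hpt htd16 htd12 htd28 (P21.forb red hv) n hn) s8 27 g9 hs8
    have e : s8.length = 1 := by decide +kernel
    rw [e] at h; exact h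
  have g11 : Good (sig red pt) cl 29 := by
    have h := chkG_sound (sig red pt) cl 3 _ (fun n hn => l3_sound red td4 td27 td31 pt 4 27 31 hpt htd4 htd27 htd31 (P22.forb red hv) n hn) s9 28 g10 hs9
    have e : s9.length = 1 := by decide +kernel
    rw [e] at h; exact h
  have g12 : Good (sig red pt) cl 31 := by
    have h := chkG_sound (sig red pt) cl 3 _ (fun n hn => l3_sound red td9 td28 td31 pt 9 28 31 hpt htd9 htd28 htd31 (P23.forb red hv) n hn) s10 29 g11 hs10
    have e : s10.length = 2 := by decide +kernel
    rw [e] at h; exact h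
  have g13 : Good (sig red pt) cl 32 := by
    have h := chkG_sound (sig red pt) cl 3 _ (fun n hn => l3_sound red td31 td19 td37 pt 31 19 37 hpt htd31 htd19 htd37 (P24.forb red hv) n hn) s11 31 g12 hs11
    have e : s11.length = 1 := by decide +kernel
    rw [e] at h; exact h
  have g14 : Good (sig red pt) cl 33 := by
    have h := chkG_sound (sig red pt) cl 3 _ (fun n hn => l3_sound red td9 td7 td31 pt 9 7 31 hpt htd9 htd7 htd31 (P26.forb red hv) n hn) s12 32 g13 hs12
    have e : s12.length = 1 := by decide +kernel
    rw [e] at h; exact h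
  have g15 : Good (sig red pt) cl 34 := by
    have h := chk_sound (sig red pt) cl nb 48 hnb c0 32 g14 t0
    have e : c0.length = 1 := by decide +kernel
    rw [e] at h; exact h
  exact final3 (g15 33 (by norm_num)) (by decide +kernel)

theorem forb : ∀ red : ℂ → Prop, Valid 6 red → Forb3 red 9 19 25 :=
  forb3_of 6 td9 td19 td25 pt 9 19 25 (by norm_num) hpt htd9 htd19 htd25 (by decide +kernel)
    (by decide +kernel) (by decide +kernel) fin

end

end APL.P28

namespace APL.P29

noncomputable section

theorem fin (red : ℂ → Prop) (hv : Valid 6 red) : ¬ (sig red pt 0 ∧ sig red pt 1 ∧ sig red pt 2) := by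
  have hnb : NbOK (sig red pt) nb 9 := by
    intro y hy a ha
    exact chkN_sound red 6 hv nb td1 pt hpt htd1 nbl 0 hN y (Nat.zero_le _) (by
      have : nbl.length = 9 := by decide +kernel
      omega) a ha
  have g0 : Good (sig red pt) cl 0 := fun j hj => absurd hj (Nat.not_lt_zero _)
  have g1 : Good (sig red pt) cl 1 := by
    have h := chkG_sound (sig red pt) cl 6 _ (fun n hn => ap_sound red 5 hv td1 pt hpt htd1 n hn) apl 0 g0 hA
    have e : apl.length = 1 := by decide +kernel
    rw [e] at h; exact h
  have g2 : Good (sig red pt) cl 2 := by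
    have h := chkG_sound (sig red pt) cl 3 _ (fun n hn => l3_sound red td16 td16 td16 pt 16 16 16 hpt htd16 htd16 htd16 (P8.forb red hv) n hn) s0 1 g1 hs0
    have e : s0.length = 1 := by decide +kernel
    rw [e] at h; exact h
  have g3 : Good (sig red pt) cl 3 := by
    have h := chkG_sound (sig red pt) cl 3 _ (fun n hn => l3_sound red td4 td12 td16 pt 4 12 16 hpt htd4 htd12 htd16 (P20.forb red hv) n hn) s1 2 g2 hs1
    have e : s1.length = 1 := by decide +kernel
    rw [e] at h; exact h
  have g4 : Good (sig red pt) cl 4 := by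
    have h := chkG_sound (sig red pt) cl 3 _ (fun n hn => l3_sound red td9 td7 td31 pt 9 7 31 hpt htd9 htd7 htd31 (P26.forb red hv) n hn) s2 3 g3 hs2
    have e : s2.length = 1 := by decide +kernel
    rw [e] at h; exact h
  have g5 : Good (sig red pt) cl 5 := by
    have h := chk_sound (sig red pt) cl nb 9 hnb c0 3 g4 t0
    have e : c0.length = 1 := by decide +kernel
    rw [e] at h; exact h
  exact final3 (g5 4 (by norm_num)) (by decide +kernel)

theorem forb : ∀ red : ℂ → Prop, Valid 6 red → Forb3 red 16 19 31 :=
  forb3_of 6 td16 td19 td31 pt 16 19 31 (by norm_num) hpt htd16 htd19 htd31 (by decide +kernel)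
    (by decide +kernel) (by decide +kernel) fin

end

end APL.P29

namespace APL.P30

noncomputable section

theorem fin (red : ℂ → Prop) (hv : Valid 6 red) : ¬ (sig red pt 0 ∧ sig red pt 1 ∧ sig red pt 2) := by
  have hnb : NbOK (sig red pt) nb 9 := by
    intro y hy a ha
    exact chkN_sound red 6 hv nb td1 pt hpt htd1 nbl 0 hN y (Nat.zero_le _) (by
      have : nbl.length = 9 := by decide +kernel
      omega) a ha
  have g0 : Good (sig red pt) cl 0 := fun j hj => absurd hj (Nat.not_lt_zero _)
  have g1 : Good (sig red pt) cl 1 := by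
    have h := chkG_sound (sig red pt) cl 6 _ (fun n hn => ap_sound red 5 hv td1 pt hpt htd1 n hn) apl 0 g0 hA
    have e : apl.length = 1 := by decide +kernel
    rw [e] at h; exact h
  have g2 : Good (sig red pt) cl 2 := by
    have h := chkG_sound (sig red pt) cl 3 _ (fun n hn => l3_sound red td4 td12 td28 pt 4 12 28 hpt htd4 htd12 htd28 (P18.forb red hv) n hn) s0 1 g1 hs0
    have e : s0.length = 1 := by decide +kernel
    rw [e] at h; exact h
  have g3 : Good (sig red pt) cl 3 := by
    have h := chkG_sound (sig red pt) cl 3 _ (fun n hn => l3_sound red td9 td7 td31 pt 9 7 31 hpt htd9 htd7 htd31 (P26.forb red hv) n hn) s1 2 g2 hs1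
    have e : s1.length = 1 := by decide +kernel
    rw [e] at h; exact h
  have g4 : Good (sig red pt) cl 4 := by
    have h := chkG_sound (sig red pt) cl 3 _ (fun n hn => l3_sound red td16 td3 td31 pt 16 3 31 hpt htd16 htd3 htd31 (P27.forb red hv) n hn) s2 3 g3 hs2
    have e : s2.length = 1 := by decide +kernel
    rw [e] at h; exact h
  have g5 : Good (sig red pt) cl 5 := by
    have h := chk_sound (sig red pt) cl nb 9 hnb c0 3 g4 t0
    have e : c0.length = 1 := by decide +kernel
    rw [e] at h; exact h
  exact final3 (g5 4 (by norm_num)) (by decide +kernel)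

theorem forb : ∀ red : ℂ → Prop, Valid 6 red → Forb3 red 31 7 28 :=
  forb3_of 6 td31 td7 td28 pt 31 7 28 (by norm_num) hpt htd31 htd7 htd28 (by decide +kernel)
    (by decide +kernel) (by decide +kernel) fin

end

end APL.P30

namespace APL.P31

noncomputable section

theorem fin (red : ℂ → Prop) (hv : Valid 6 red) : ¬ (sig red pt 0 ∧ sig red pt 1 ∧ sig red pt 2) := by
  have hnb : NbOK (sig red pt) nb 9 := by
    intro y hy a ha
    exact chkN_sound red 6 hv nb td1 pt hpt htd1 nbl 0 hN y (Nat.zero_le _) (by
      have : nbl.length = 9 := by decide +kernel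
      omega) a ha
  have g0 : Good (sig red pt) cl 0 := fun j hj => absurd hj (Nat.not_lt_zero _)
  have g1 : Good (sig red pt) cl 1 := by
    have h := chkG_sound (sig red pt) cl 6 _ (fun n hn => ap_sound red 5 hv td1 pt hpt htd1 n hn) apl 0 g0 hA
    have e : apl.length = 1 := by decide +kernel
    rw [e] at h; exact h
  have g2 : Good (sig red pt) cl 2 := by
    have h := chkG_sound (sig red pt) cl 3 _ (fun n hn => l3_sound red td9 td7 td31 pt 9 7 31 hpt htd9 htd7 htd31 (P26.forb red hv) n hn) s0 1 g1 hs0
    have e : s0.length = 1 := by decide +kernel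
    rw [e] at h; exact h
  have g3 : Good (sig red pt) cl 3 := by
    have h := chkG_sound (sig red pt) cl 3 _ (fun n hn => l3_sound red td16 td3 td31 pt 16 3 31 hpt htd16 htd3 htd31 (P27.forb red hv) n hn) s1 2 g2 hs1
    have e : s1.length = 1 := by decide +kernel
    rw [e] at h; exact h
  have g4 : Good (sig red pt) cl 4 := by
    have h := chk_sound (sig red pt) cl nb 9 hnb c0 2 g3 t0
    have e : c0.length = 1 := by decide +kernel
    rw [e] at h; exact h
  exact final3 (g4 3 (by norm_num)) (by decide +kernel)

theorem forb : ∀ red : ℂ → Prop, Valid 6 red → Forb3 red 31 19 3 :=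
  forb3_of 6 td31 td19 td3 pt 31 19 3 (by norm_num) hpt htd31 htd19 htd3 (by decide +kernel)
    (by decide +kernel) (by decide +kernel) fin

end

end APL.P31

namespace APL.P32

noncomputable section

theorem fin (red : ℂ → Prop) (hv : Valid 6 red) : ¬ (sig red pt 0 ∧ sig red pt 1 ∧ sig red pt 2) := by
  have hnb : NbOK (sig red pt) nb 30 := by
    intro y hy a ha
    exact chkN_sound red 6 hv nb td1 pt hpt htd1 nbl 0 hN y (Nat.zero_le _) (by
      have : nbl.length = 30 := by decide +kernel
      omega) a ha
  have g0 : Good (sig red pt) cl 0 := fun j hj => absurd hj (Nat.not_lt_zero _)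
  have g1 : Good (sig red pt) cl 6 := by
    have h := chkG_sound (sig red pt) cl 6 _ (fun n hn => ap_sound red 5 hv td1 pt hpt htd1 n hn) apl 0 g0 hA
    have e : apl.length = 6 := by decide +kernel
    rw [e] at h; exact h
  have g2 : Good (sig red pt) cl 9 := by
    have h := chkG_sound (sig red pt) cl 3 _ (fun n hn => l3_sound red td9 td3 td12 pt 9 3 12 hpt htd9 htd3 htd12 (P2.forb red hv) n hn) s0 6 g1 hs0
    have e : s0.length = 3 := by decide +kernel
    rw [e] at h; exact h
  have g3 : Good (sig red pt) cl 10 := by
    have h := chkG_sound (sig red pt) cl 3 _ (fun n hn => l3_sound red td4 td16 td4 pt 4 16 4 hpt htd4 htd16 htd4 (P3.forb red hv) n hn) s1 9 g2 hs1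
    have e : s1.length = 1 := by decide +kernel
    rw [e] at h; exact h
  have g4 : Good (sig red pt) cl 11 := by
    have h := chkG_sound (sig red pt) cl 3 _ (fun n hn => l3_sound red td4 td7 td19 pt 4 7 19 hpt htd4 htd7 htd19 (P4.forb red hv) n hn) s2 10 g3 hs2
    have e : s2.length = 1 := by decide +kernel
    rw [e] at h; exact h
  have g5 : Good (sig red pt) cl 12 := by
    have h := chkG_sound (sig red pt) cl 3 _ (fun n hn => l3_sound red td31 td19 td7 pt 31 19 7 hpt htd31 htd19 htd7 (P17.forb red hv) n hn) s3 11 g4 hs3
    have e : s3.length = 1 := by decide +kernel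
    rw [e] at h; exact h
  have g6 : Good (sig red pt) cl 13 := by
    have h := chkG_sound (sig red pt) cl 3 _ (fun n hn => l3_sound red td4 td12 td28 pt 4 12 28 hpt htd4 htd12 htd28 (P18.forb red hv) n hn) s4 12 g5 hs4
    have e : s4.length = 1 := by decide +kernel
    rw [e] at h; exact h
  have g7 : Good (sig red pt) cl 15 := by
    have h := chkG_sound (sig red pt) cl 3 _ (fun n hn => l3_sound red td4 td4 td12 pt 4 4 12 hpt htd4 htd4 htd12 (P19.forb red hv) n hn) s5 13 g6 hs5
    have e : s5.length = 2 := by decide +kernel
    rw [e] at h; exact h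
  have g8 : Good (sig red pt) cl 16 := by
    have h := chkG_sound (sig red pt) cl 3 _ (fun n hn => l3_sound red td4 td27 td31 pt 4 27 31 hpt htd4 htd27 htd31 (P22.forb red hv) n hn) s6 15 g7 hs6
    have e : s6.length = 1 := by decide +kernel
    rw [e] at h; exact h
  have g9 : Good (sig red pt) cl 20 := by
    have h := chkG_sound (sig red pt) cl 3 _ (fun n hn => l3_sound red td9 td19 td25 pt 9 19 25 hpt htd9 htd19 htd25 (P28.forb red hv) n hn) s7 16 g8 hs7
    have e : s7.length = 4 := by decide +kernel
    rw [e] at h; exact h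
  have g10 : Good (sig red pt) cl 22 := by
    have h := chkG_sound (sig red pt) cl 3 _ (fun n hn => l3_sound red td31 td7 td28 pt 31 7 28 hpt htd31 htd7 htd28 (P30.forb red hv) n hn) s8 20 g9 hs8
    have e : s8.length = 2 := by decide +kernel
    rw [e] at h; exact h
  have g11 : Good (sig red pt) cl 23 := by
    have h := chk_sound (sig red pt) cl nb 30 hnb c0 21 g10 t0
    have e : c0.length = 1 := by decide +kernel
    rw [e] at h; exact h
  exact final3 (g11 22 (by norm_num)) (by decide +kernel)

theorem forb : ∀ red : ℂ → Prop, Valid 6 red → Forb3 red 4 28 28 :=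
  forb3_of 6 td4 td28 td28 pt 4 28 28 (by norm_num) hpt htd4 htd28 htd28 (by decide +kernel)
    (by decide +kernel) (by decide +kernel) fin

end

end APL.P32

namespace APL.P33

noncomputable section

theorem fin (red : ℂ → Prop) (hv : Valid 6 red) : ¬ (sig red pt 0 ∧ sig red pt 1 ∧ sig red pt 2) := by
  have hnb : NbOK (sig red pt) nb 20 := by
    intro y hy a ha
    exact chkN_sound red 6 hv nb td1 pt hpt htd1 nbl 0 hN y (Nat.zero_le _) (by
      have : nbl.length = 20 := by decide +kernel
      omega) a ha
  have g0 : Good (sig red pt) cl 0 := fun j hj => absurd hj (Nat.not_lt_zero _)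
  have g1 : Good (sig red pt) cl 3 := by
    have h := chkG_sound (sig red pt) cl 6 _ (fun n hn => ap_sound red 5 hv td1 pt hpt htd1 n hn) apl 0 g0 hA
    have e : apl.length = 3 := by decide +kernel
    rw [e] at h; exact h
  have g2 : Good (sig red pt) cl 4 := by
    have h := chkG_sound (sig red pt) cl 3 _ (fun n hn => l3_sound red td4 td7 td19 pt 4 7 19 hpt htd4 htd7 htd19 (P4.forb red hv) n hn) s0 3 g1 hs0
    have e : s0.length = 1 := by decide +kernel
    rw [e] at h; exact h
  have g3 : Good (sig red pt) cl 5 := by
    have h := chkG_sound (sig red pt) cl 3 _ (fun n hn => l3_sound red td31 td19 td7 pt 31 19 7 hpt htd31 htd19 htd7 (P17.forb red hv) n hn) s1 4 g2 hs1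
    have e : s1.length = 1 := by decide +kernel
    rw [e] at h; exact h
  have g4 : Good (sig red pt) cl 6 := by
    have h := chkG_sound (sig red pt) cl 3 _ (fun n hn => l3_sound red td4 td12 td16 pt 4 12 16 hpt htd4 htd12 htd16 (P20.forb red hv) n hn) s2 5 g3 hs2
    have e : s2.length = 1 := by decide +kernel
    rw [e] at h; exact h
  have g5 : Good (sig red pt) cl 7 := by
    have h := chkG_sound (sig red pt) cl 3 _ (fun n hn => l3_sound red td4 td27 td31 pt 4 27 31 hpt htd4 htd27 htd31 (P22.forb red hv) n hn) s3 6 g4 hs3
    have e : s3.length = 1 := by decide +kernel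
    rw [e] at h; exact h
  have g6 : Good (sig red pt) cl 8 := by
    have h := chkG_sound (sig red pt) cl 3 _ (fun n hn => l3_sound red td9 td28 td31 pt 9 28 31 hpt htd9 htd28 htd31 (P23.forb red hv) n hn) s4 7 g5 hs4
    have e : s4.length = 1 := by decide +kernel
    rw [e] at h; exact h
  have g7 : Good (sig red pt) cl 12 := by
    have h := chkG_sound (sig red pt) cl 3 _ (fun n hn => l3_sound red td9 td19 td25 pt 9 19 25 hpt htd9 htd19 htd25 (P28.forb red hv) n hn) s5 8 g6 hs5
    have e : s5.length = 4 := by decide +kernel
    rw [e] at h; exact h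
  have g8 : Good (sig red pt) cl 13 := by
    have h := chk_sound (sig red pt) cl nb 20 hnb c0 11 g7 t0
    have e : c0.length = 1 := by decide +kernel
    rw [e] at h; exact h
  exact final3 (g8 12 (by norm_num)) (by decide +kernel)

theorem forb : ∀ red : ℂ → Prop, Valid 6 red → Forb3 red 4 25 9 :=
  forb3_of 6 td4 td25 td9 pt 4 25 9 (by norm_num) hpt htd4 htd25 htd9 (by decide +kernel)
    (by decide +kernel) (by decide +kernel) fin

end

end APL.P33

namespace APL.P34

noncomputable section

theorem fin (red : ℂ → Prop) (hv : Valid 6 red) : ¬ (sig red pt 0 ∧ sig red pt 1 ∧ sig red pt 2) := by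
  have hnb : NbOK (sig red pt) nb 2379 := by
    intro y hy a ha
    exact chkN_sound red 6 hv nb td1 pt hpt htd1 nbl 0 hN y (Nat.zero_le _) (by
      have : nbl.length = 2379 := by decide +kernel
      omega) a ha
  have g0 : Good (sig red pt) cl 0 := fun j hj => absurd hj (Nat.not_lt_zero _)
  have g1 : Good (sig red pt) cl 1504 := by
    have h := chkG_sound (sig red pt) cl 6 _ (fun n hn => ap_sound red 5 hv td1 pt hpt htd1 n hn) apl 0 g0 hA
    have e : apl.length = 1504 := by decide +kernel
    rw [e] at h; exact h
  have g2 : Good (sig red pt) cl 1525 := by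
    have h := chkG_sound (sig red pt) cl 3 _ (fun n hn => l3_sound red td9 td9 td9 pt 9 9 9 hpt htd9 htd9 htd9 (P1.forb red hv) n hn) s0 1504 g1 hs0
    have e : s0.length = 21 := by decide +kernel
    rw [e] at h; exact h
  have g3 : Good (sig red pt) cl 2035 := by
    have h := chkG_sound (sig red pt) cl 3 _ (fun n hn => l3_sound red td9 td3 td12 pt 9 3 12 hpt htd9 htd3 htd12 (P2.forb red hv) n hn) s1 1525 g2 hs1
    have e : s1.length = 510 := by decide +kernel
    rw [e] at h; exact h
  have g4 : Good (sig red pt) cl 2046 := by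
    have h := chkG_sound (sig red pt) cl 3 _ (fun n hn => l3_sound red td4 td16 td4 pt 4 16 4 hpt htd4 htd16 htd4 (P3.forb red hv) n hn) s2 2035 g3 hs2
    have e : s2.length = 11 := by decide +kernel
    rw [e] at h; exact h
  have g5 : Good (sig red pt) cl 2590 := by
    have h := chkG_sound (sig red pt) cl 3 _ (fun n hn => l3_sound red td4 td7 td19 pt 4 7 19 hpt htd4 htd7 htd19 (P4.forb red hv) n hn) s3 2046 g4 hs3
    have e : s3.length = 544 := by decide +kernel
    rw [e] at h; exact h
  have g6 : Good (sig red pt) cl 2870 := by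
    have h := chkG_sound (sig red pt) cl 3 _ (fun n hn => l3_sound red td16 td7 td7 pt 16 7 7 hpt htd16 htd7 htd7 (P5.forb red hv) n hn) s4 2590 g5 hs4
    have e : s4.length = 280 := by decide +kernel
    rw [e] at h; exact h
  have g7 : Good (sig red pt) cl 3079 := by
    have h := chkG_sound (sig red pt) cl 3 _ (fun n hn => l3_sound red td9 td12 td21 pt 9 12 21 hpt htd9 htd12 htd21 (P6.forb red hv) n hn) s5 2870 g6 hs5
    have e : s5.length = 209 := by decide +kernel
    rw [e] at h; exact h
  have g8 : Good (sig red pt) cl 3240 := by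
    have h := chkG_sound (sig red pt) cl 3 _ (fun n hn => l3_sound red td31 td12 td7 pt 31 12 7 hpt htd31 htd12 htd7 (P7.forb red hv) n hn) s6 3079 g7 hs6
    have e : s6.length = 161 := by decide +kernel
    rw [e] at h; exact h
  have g9 : Good (sig red pt) cl 3252 := by
    have h := chkG_sound (sig red pt) cl 3 _ (fun n hn => l3_sound red td16 td16 td16 pt 16 16 16 hpt htd16 htd16 htd16 (P8.forb red hv) n hn) s7 3240 g8 hs7
    have e : s7.length = 12 := by decide +kernel
    rw [e] at h; exact h
  have g10 : Good (sig red pt) cl 3290 := by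
    have h := chkG_sound (sig red pt) cl 3 _ (fun n hn => l3_sound red td9 td19 td31 pt 9 19 31 hpt htd9 htd19 htd31 (P9.forb red hv) n hn) s8 3252 g9 hs8
    have e : s8.length = 38 := by decide +kernel
    rw [e] at h; exact h
  have g11 : Good (sig red pt) cl 3488 := by
    have h := chkG_sound (sig red pt) cl 3 _ (fun n hn => l3_sound red td21 td12 td27 pt 21 12 27 hpt htd21 htd12 htd27 (P11.forb red hv) n hn) s9 3290 g10 hs9
    have e : s9.length = 198 := by decide +kernel
    rw [e] at h; exact h
  have g12 : Good (sig red pt) cl 3519 := by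
    have h := chkG_sound (sig red pt) cl 3 _ (fun n hn => l3_sound red td31 td12 td37 pt 31 12 37 hpt htd31 htd12 htd37 (P12.forb red hv) n hn) s10 3488 g11 hs10
    have e : s10.length = 31 := by decide +kernel
    rw [e] at h; exact h
  have g13 : Good (sig red pt) cl 3613 := by
    have h := chkG_sound (sig red pt) cl 3 _ (fun n hn => l3_sound red td31 td13 td12 pt 31 13 12 hpt htd31 htd13 htd12 (P13.forb red hv) n hn) s11 3519 g12 hs11
    have e : s11.length = 94 := by decide +kernel
    rw [e] at h; exact h
  have g14 : Good (sig red pt) cl 3675 := by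
    have h := chkG_sound (sig red pt) cl 3 _ (fun n hn => l3_sound red td31 td37 td7 pt 31 37 7 hpt htd31 htd37 htd7 (P14.forb red hv) n hn) s12 3613 g13 hs12
    have e : s12.length = 62 := by decide +kernel
    rw [e] at h; exact h
  have g15 : Good (sig red pt) cl 3708 := by
    have h := chkG_sound (sig red pt) cl 3 _ (fun n hn => l3_sound red td25 td21 td31 pt 25 21 31 hpt htd25 htd21 htd31 (P15.forb red hv) n hn) s13 3675 g14 hs13
    have e : s13.length = 33 := by decide +kernel
    rw [e] at h; exact h
  have g16 : Good (sig red pt) cl 3749 := by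
    have h := chkG_sound (sig red pt) cl 3 _ (fun n hn => l3_sound red td31 td3 td31 pt 31 3 31 hpt htd31 htd3 htd31 (P16.forb red hv) n hn) s14 3708 g15 hs14
    have e : s14.length = 41 := by decide +kernel
    rw [e] at h; exact h
  have g17 : Good (sig red pt) cl 3915 := by
    have h := chkG_sound (sig red pt) cl 3 _ (fun n hn => l3_sound red td31 td19 td7 pt 31 19 7 hpt htd31 htd19 htd7 (P17.forb red hv) n hn) s15 3749 g16 hs15
    have e : s15.length = 166 := by decide +kernel
    rw [e] at h; exact h
  have g18 : Good (sig red pt) cl 4044 := by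
    have h := chkG_sound (sig red pt) cl 3 _ (fun n hn => l3_sound red td4 td12 td28 pt 4 12 28 hpt htd4 htd12 htd28 (P18.forb red hv) n hn) s16 3915 g17 hs16
    have e : s16.length = 129 := by decide +kernel
    rw [e] at h; exact h
  have g19 : Good (sig red pt) cl 4198 := by
    have h := chkG_sound (sig red pt) cl 3 _ (fun n hn => l3_sound red td4 td4 td12 pt 4 4 12 hpt htd4 htd4 htd12 (P19.forb red hv) n hn) s17 4044 g18 hs17
    have e : s17.length = 154 := by decide +kernel
    rw [e] at h; exact h
  have g20 : Good (sig red pt) cl 4312 := by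
    have h := chkG_sound (sig red pt) cl 3 _ (fun n hn => l3_sound red td4 td12 td16 pt 4 12 16 hpt htd4 htd12 htd16 (P20.forb red hv) n hn) s18 4198 g19 hs18
    have e : s18.length = 114 := by decide +kernel
    rw [e] at h; exact h
  have g21 : Good (sig red pt) cl 4369 := by
    have h := chkG_sound (sig red pt) cl 3 _ (fun n hn => l3_sound red td16 td12 td28 pt 16 12 28 hpt htd16 htd12 htd28 (P21.forb red hv) n hn) s19 4312 g20 hs19
    have e : s19.length = 57 := by decide +kernel
    rw [e] at h; exact h
  have g22 : Good (sig red pt) cl 4404 := by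
    have h := chkG_sound (sig red pt) cl 3 _ (fun n hn => l3_sound red td4 td27 td31 pt 4 27 31 hpt htd4 htd27 htd31 (P22.forb red hv) n hn) s20 4369 g21 hs20
    have e : s20.length = 35 := by decide +kernel
    rw [e] at h; exact h
  have g23 : Good (sig red pt) cl 4413 := by
    have h := chkG_sound (sig red pt) cl 3 _ (fun n hn => l3_sound red td9 td28 td31 pt 9 28 31 hpt htd9 htd28 htd31 (P23.forb red hv) n hn) s21 4404 g22 hs21
    have e : s21.length = 9 := by decide +kernel
    rw [e] at h; exact h
  have g24 : Good (sig red pt) cl 4471 := by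
    have h := chkG_sound (sig red pt) cl 3 _ (fun n hn => l3_sound red td31 td19 td37 pt 31 19 37 hpt htd31 htd19 htd37 (P24.forb red hv) n hn) s22 4413 g23 hs22
    have e : s22.length = 58 := by decide +kernel
    rw [e] at h; exact h
  have g25 : Good (sig red pt) cl 4496 := by
    have h := chkG_sound (sig red pt) cl 3 _ (fun n hn => l3_sound red td31 td31 td31 pt 31 31 31 hpt htd31 htd31 htd31 (P25.forb red hv) n hn) s23 4471 g24 hs23
    have e : s23.length = 25 := by decide +kernel
    rw [e] at h; exact h
  have g26 : Good (sig red pt) cl 4572 := by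
    have h := chkG_sound (sig red pt) cl 3 _ (fun n hn => l3_sound red td9 td7 td31 pt 9 7 31 hpt htd9 htd7 htd31 (P26.forb red hv) n hn) s24 4496 g25 hs24
    have e : s24.length = 76 := by decide +kernel
    rw [e] at h; exact h
  have g27 : Good (sig red pt) cl 4711 := by
    have h := chkG_sound (sig red pt) cl 3 _ (fun n hn => l3_sound red td16 td3 td31 pt 16 3 31 hpt htd16 htd3 htd31 (P27.forb red hv) n hn) s25 4572 g26 hs25
    have e : s25.length = 139 := by decide +kernel
    rw [e] at h; exact h
  have g28 : Good (sig red pt) cl 4843 := by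
    have h := chkG_sound (sig red pt) cl 3 _ (fun n hn => l3_sound red td9 td19 td25 pt 9 19 25 hpt htd9 htd19 htd25 (P28.forb red hv) n hn) s26 4711 g27 hs26
    have e : s26.length = 132 := by decide +kernel
    rw [e] at h; exact h
  have g29 : Good (sig red pt) cl 4878 := by
    have h := chkG_sound (sig red pt) cl 3 _ (fun n hn => l3_sound red td16 td19 td31 pt 16 19 31 hpt htd16 htd19 htd31 (P29.forb red hv) n hn) s27 4843 g28 hs27
    have e : s27.length = 35 := by decide +kernel
    rw [e] at h; exact h
  have g30 : Good (sig red pt) cl 4978 := by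
    have h := chkG_sound (sig red pt) cl 3 _ (fun n hn => l3_sound red td31 td7 td28 pt 31 7 28 hpt htd31 htd7 htd28 (P30.forb red hv) n hn) s28 4878 g29 hs28
    have e : s28.length = 100 := by decide +kernel
    rw [e] at h; exact h
  have g31 : Good (sig red pt) cl 5237 := by
    have h := chkG_sound (sig red pt) cl 3 _ (fun n hn => l3_sound red td31 td19 td3 pt 31 19 3 hpt htd31 htd19 htd3 (P31.forb red hv) n hn) s29 4978 g30 hs29
    have e : s29.length = 259 := by decide +kernel
    rw [e] at h; exact h
  have g32 : Good (sig red pt) cl 5263 := by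
    have h := chkG_sound (sig red pt) cl 3 _ (fun n hn => l3_sound red td4 td28 td28 pt 4 28 28 hpt htd4 htd28 htd28 (P32.forb red hv) n hn) s30 5237 g31 hs30
    have e : s30.length = 26 := by decide +kernel
    rw [e] at h; exact h
  have g33 : Good (sig red pt) cl 5325 := by
    have h := chkG_sound (sig red pt) cl 3 _ (fun n hn => l3_sound red td4 td25 td9 pt 4 25 9 hpt htd4 htd25 htd9 (P33.forb red hv) n hn) s31 5263 g32 hs31
    have e : s31.length = 62 := by decide +kernel
    rw [e] at h; exact h
  have g34 : Good (sig red pt) cl 5417 := by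
    have h := chk_sound (sig red pt) cl nb 2379 hnb c0 5324 g33 t0
    have e : c0.length = 92 := by decide +kernel
    rw [e] at h; exact h
  have g35 : Good (sig red pt) cl 5513 := by
    have h := chk_sound (sig red pt) cl nb 2379 hnb c1 5416 g34 t1
    have e : c1.length = 96 := by decide +kernel
    rw [e] at h; exact h
  have g36 : Good (sig red pt) cl 5615 := by
    have h := chk_sound (sig red pt) cl nb 2379 hnb c2 5512 g35 t2
    have e : c2.length = 102 := by decide +kernel
    rw [e] at h; exact h
  have g37 : Good (sig red pt) cl 5708 := by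
    have h := chk_sound (sig red pt) cl nb 2379 hnb c3 5614 g36 t3
    have e : c3.length = 93 := by decide +kernel
    rw [e] at h; exact h
  have g38 : Good (sig red pt) cl 5803 := by
    have h := chk_sound (sig red pt) cl nb 2379 hnb c4 5707 g37 t4
    have e : c4.length = 95 := by decide +kernel
    rw [e] at h; exact h
  have g39 : Good (sig red pt) cl 5894 := by
    have h := chk_sound (sig red pt) cl nb 2379 hnb c5 5802 g38 t5
    have e : c5.length = 91 := by decide +kernel
    rw [e] at h; exact h
  have g40 : Good (sig red pt) cl 5996 := by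
    have h := chk_sound (sig red pt) cl nb 2379 hnb c6 5893 g39 t6
    have e : c6.length = 102 := by decide +kernel
    rw [e] at h; exact h
  have g41 : Good (sig red pt) cl 6092 := by
    have h := chk_sound (sig red pt) cl nb 2379 hnb c7 5995 g40 t7
    have e : c7.length = 96 := by decide +kernel
    rw [e] at h; exact h
  have g42 : Good (sig red pt) cl 6190 := by
    have h := chk_sound (sig red pt) cl nb 2379 hnb c8 6091 g41 t8
    have e : c8.length = 98 := by decide +kernel
    rw [e] at h; exact h
  have g43 : Good (sig red pt) cl 6286 := by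
    have h := chk_sound (sig red pt) cl nb 2379 hnb c9 6189 g42 t9
    have e : c9.length = 96 := by decide +kernel
    rw [e] at h; exact h
  have g44 : Good (sig red pt) cl 6380 := by
    have h := chk_sound (sig red pt) cl nb 2379 hnb c10 6285 g43 t10
    have e : c10.length = 94 := by decide +kernel
    rw [e] at h; exact h
  have g45 : Good (sig red pt) cl 6485 := by
    have h := chk_sound (sig red pt) cl nb 2379 hnb c11 6379 g44 t11
    have e : c11.length = 105 := by decide +kernel
    rw [e] at h; exact h
  have g46 : Good (sig red pt) cl 6582 := by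
    have h := chk_sound (sig red pt) cl nb 2379 hnb c12 6484 g45 t12
    have e : c12.length = 97 := by decide +kernel
    rw [e] at h; exact h
  have g47 : Good (sig red pt) cl 6674 := by
    have h := chk_sound (sig red pt) cl nb 2379 hnb c13 6581 g46 t13
    have e : c13.length = 92 := by decide +kernel
    rw [e] at h; exact h
  have g48 : Good (sig red pt) cl 6765 := by
    have h := chk_sound (sig red pt) cl nb 2379 hnb c14 6673 g47 t14
    have e : c14.length = 91 := by decide +kernel
    rw [e] at h; exact h
  have g49 : Good (sig red pt) cl 6862 := by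
    have h := chk_sound (sig red pt) cl nb 2379 hnb c15 6764 g48 t15
    have e : c15.length = 97 := by decide +kernel
    rw [e] at h; exact h
  have g50 : Good (sig red pt) cl 6949 := by
    have h := chk_sound (sig red pt) cl nb 2379 hnb c16 6861 g49 t16
    have e : c16.length = 87 := by decide +kernel
    rw [e] at h; exact h
  have g51 : Good (sig red pt) cl 7045 := by
    have h := chk_sound (sig red pt) cl nb 2379 hnb c17 6948 g50 t17
    have e : c17.length = 96 := by decide +kernel
    rw [e] at h; exact h
  have g52 : Good (sig red pt) cl 7132 := by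
    have h := chk_sound (sig red pt) cl nb 2379 hnb c18 7044 g51 t18
    have e : c18.length = 87 := by decide +kernel
    rw [e] at h; exact h
  have g53 : Good (sig red pt) cl 7241 := by
    have h := chk_sound (sig red pt) cl nb 2379 hnb c19 7131 g52 t19
    have e : c19.length = 109 := by decide +kernel
    rw [e] at h; exact h
  have g54 : Good (sig red pt) cl 7338 := by
    have h := chk_sound (sig red pt) cl nb 2379 hnb c20 7240 g53 t20
    have e : c20.length = 97 := by decide +kernel
    rw [e] at h; exact h
  have g55 : Good (sig red pt) cl 7448 := by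
    have h := chk_sound (sig red pt) cl nb 2379 hnb c21 7337 g54 t21
    have e : c21.length = 110 := by decide +kernel
    rw [e] at h; exact h
  have g56 : Good (sig red pt) cl 7539 := by
    have h := chk_sound (sig red pt) cl nb 2379 hnb c22 7447 g55 t22
    have e : c22.length = 91 := by decide +kernel
    rw [e] at h; exact h
  have g57 : Good (sig red pt) cl 7620 := by
    have h := chk_sound (sig red pt) cl nb 2379 hnb c23 7538 g56 t23
    have e : c23.length = 81 := by decide +kernel
    rw [e] at h; exact h
  have g58 : Good (sig red pt) cl 7717 := by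
    have h := chk_sound (sig red pt) cl nb 2379 hnb c24 7619 g57 t24
    have e : c24.length = 97 := by decide +kernel
    rw [e] at h; exact h
  have g59 : Good (sig red pt) cl 7809 := by
    have h := chk_sound (sig red pt) cl nb 2379 hnb c25 7716 g58 t25
    have e : c25.length = 92 := by decide +kernel
    rw [e] at h; exact h
  have g60 : Good (sig red pt) cl 7905 := by
    have h := chk_sound (sig red pt) cl nb 2379 hnb c26 7808 g59 t26
    have e : c26.length = 96 := by decide +kernel
    rw [e] at h; exact h
  have g61 : Good (sig red pt) cl 7993 := by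
    have h := chk_sound (sig red pt) cl nb 2379 hnb c27 7904 g60 t27
    have e : c27.length = 88 := by decide +kernel
    rw [e] at h; exact h
  have g62 : Good (sig red pt) cl 8090 := by
    have h := chk_sound (sig red pt) cl nb 2379 hnb c28 7992 g61 t28
    have e : c28.length = 97 := by decide +kernel
    rw [e] at h; exact h
  have g63 : Good (sig red pt) cl 8192 := by
    have h := chk_sound (sig red pt) cl nb 2379 hnb c29 8089 g62 t29
    have e : c29.length = 102 := by decide +kernel
    rw [e] at h; exact h
  have g64 : Good (sig red pt) cl 8269 := by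
    have h := chk_sound (sig red pt) cl nb 2379 hnb c30 8191 g63 t30
    have e : c30.length = 77 := by decide +kernel
    rw [e] at h; exact h
  have g65 : Good (sig red pt) cl 8360 := by
    have h := chk_sound (sig red pt) cl nb 2379 hnb c31 8268 g64 t31
    have e : c31.length = 91 := by decide +kernel
    rw [e] at h; exact h
  have g66 : Good (sig red pt) cl 8448 := by
    have h := chk_sound (sig red pt) cl nb 2379 hnb c32 8359 g65 t32
    have e : c32.length = 88 := by decide +kernel
    rw [e] at h; exact h
  have g67 : Good (sig red pt) cl 8533 := by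
    have h := chk_sound (sig red pt) cl nb 2379 hnb c33 8447 g66 t33
    have e : c33.length = 85 := by decide +kernel
    rw [e] at h; exact h
  have g68 : Good (sig red pt) cl 8626 := by
    have h := chk_sound (sig red pt) cl nb 2379 hnb c34 8532 g67 t34
    have e : c34.length = 93 := by decide +kernel
    rw [e] at h; exact h
  have g69 : Good (sig red pt) cl 8713 := by
    have h := chk_sound (sig red pt) cl nb 2379 hnb c35 8625 g68 t35
    have e : c35.length = 87 := by decide +kernel
    rw [e] at h; exact h
  have g70 : Good (sig red pt) cl 8805 := by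
    have h := chk_sound (sig red pt) cl nb 2379 hnb c36 8712 g69 t36
    have e : c36.length = 92 := by decide +kernel
    rw [e] at h; exact h
  have g71 : Good (sig red pt) cl 8892 := by
    have h := chk_sound (sig red pt) cl nb 2379 hnb c37 8804 g70 t37
    have e : c37.length = 87 := by decide +kernel
    rw [e] at h; exact h
  have g72 : Good (sig red pt) cl 8984 := by
    have h := chk_sound (sig red pt) cl nb 2379 hnb c38 8891 g71 t38
    have e : c38.length = 92 := by decide +kernel
    rw [e] at h; exact h
  have g73 : Good (sig red pt) cl 9081 := by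
    have h := chk_sound (sig red pt) cl nb 2379 hnb c39 8983 g72 t39
    have e : c39.length = 97 := by decide +kernel
    rw [e] at h; exact h
  have g74 : Good (sig red pt) cl 9154 := by
    have h := chk_sound (sig red pt) cl nb 2379 hnb c40 9080 g73 t40
    have e : c40.length = 73 := by decide +kernel
    rw [e] at h; exact h
  exact final3 (g74 9153 (by norm_num)) (by decide +kernel)

theorem forb : ∀ red : ℂ → Prop, Valid 6 red → Forb3 red 4 9 19 :=
  forb3_of 6 td4 td9 td19 pt 4 9 19 (by norm_num) hpt htd4 htd9 htd19 (by decide +kernel)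
    (by decide +kernel) (by decide +kernel) fin

end

end APL.P34

namespace APL.P35

noncomputable section

theorem fin (red : ℂ → Prop) (hv : Valid 6 red) : ¬ (sig red pt 0 ∧ sig red pt 1 ∧ sig red pt 2) := by
  have hnb : NbOK (sig red pt) nb 9 := by
    intro y hy a ha
    exact chkN_sound red 6 hv nb td1 pt hpt htd1 nbl 0 hN y (Nat.zero_le _) (by
      have : nbl.length = 9 := by decide +kernel
      omega) a ha
  have g0 : Good (sig red pt) cl 0 := fun j hj => absurd hj (Nat.not_lt_zero _)
  have g1 : Good (sig red pt) cl 1 := by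
    have h := chkG_sound (sig red pt) cl 6 _ (fun n hn => ap_sound red 5 hv td1 pt hpt htd1 n hn) apl 0 g0 hA
    have e : apl.length = 1 := by decide +kernel
    rw [e] at h; exact h
  have g2 : Good (sig red pt) cl 3 := by
    have h := chkG_sound (sig red pt) cl 3 _ (fun n hn => l3_sound red td9 td3 td12 pt 9 3 12 hpt htd9 htd3 htd12 (P2.forb red hv) n hn) s0 1 g1 hs0
    have e : s0.length = 2 := by decide +kernel
    rw [e] at h; exact h
  have g3 : Good (sig red pt) cl 5 := by
    have h := chkG_sound (sig red pt) cl 3 _ (fun n hn => l3_sound red td4 td9 td19 pt 4 9 19 hpt htd4 htd9 htd19 (P34.forb red hv) n hn) s1 3 g2 hs1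
    have e : s1.length = 2 := by decide +kernel
    rw [e] at h; exact h
  have g4 : Good (sig red pt) cl 6 := by
    have h := chk_sound (sig red pt) cl nb 9 hnb c0 4 g3 t0
    have e : c0.length = 1 := by decide +kernel
    rw [e] at h; exact h
  exact final3 (g4 5 (by norm_num)) (by decide +kernel)

theorem forb : ∀ red : ℂ → Prop, Valid 6 red → Forb3 red 9 3 3 :=
  forb3_of 6 td9 td3 td3 pt 9 3 3 (by norm_num) hpt htd9 htd3 htd3 (by decide +kernel)
    (by decide +kernel) (by decide +kernel) fin

end

end APL.P35

namespace APL.P36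

noncomputable section

theorem fin (red : ℂ → Prop) (hv : Valid 6 red) : ¬ (sig red pt 0 ∧ sig red pt 1 ∧ sig red pt 2) := by
  have hnb : NbOK (sig red pt) nb 9 := by
    intro y hy a ha
    exact chkN_sound red 6 hv nb td1 pt hpt htd1 nbl 0 hN y (Nat.zero_le _) (by
      have : nbl.length = 9 := by decide +kernel
      omega) a ha
  have g0 : Good (sig red pt) cl 0 := fun j hj => absurd hj (Nat.not_lt_zero _)
  have g1 : Good (sig red pt) cl 1 := by
    have h := chkG_sound (sig red pt) cl 6 _ (fun n hn => ap_sound red 5 hv td1 pt hpt htd1 n hn) apl 0 g0 hA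
    have e : apl.length = 1 := by decide +kernel
    rw [e] at h; exact h
  have g2 : Good (sig red pt) cl 2 := by
    have h := chkG_sound (sig red pt) cl 3 _ (fun n hn => l3_sound red td9 td3 td12 pt 9 3 12 hpt htd9 htd3 htd12 (P2.forb red hv) n hn) s0 1 g1 hs0
    have e : s0.length = 1 := by decide +kernel
    rw [e] at h; exact h
  have g3 : Good (sig red pt) cl 3 := by
    have h := chkG_sound (sig red pt) cl 3 _ (fun n hn => l3_sound red td4 td7 td19 pt 4 7 19 hpt htd4 htd7 htd19 (P4.forb red hv) n hn) s1 2 g2 hs1
    have e : s1.length = 1 := by decide +kernel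
    rw [e] at h; exact h
  have g4 : Good (sig red pt) cl 4 := by
    have h := chkG_sound (sig red pt) cl 3 _ (fun n hn => l3_sound red td4 td4 td12 pt 4 4 12 hpt htd4 htd4 htd12 (P19.forb red hv) n hn) s2 3 g3 hs2
    have e : s2.length = 1 := by decide +kernel
    rw [e] at h; exact h
  have g5 : Good (sig red pt) cl 5 := by
    have h := chkG_sound (sig red pt) cl 3 _ (fun n hn => l3_sound red td9 td3 td3 pt 9 3 3 hpt htd9 htd3 htd3 (P35.forb red hv) n hn) s3 4 g4 hs3
    have e : s3.length = 1 := by decide +kernel
    rw [e] at h; exact h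
  have g6 : Good (sig red pt) cl 6 := by
    have h := chk_sound (sig red pt) cl nb 9 hnb c0 4 g5 t0
    have e : c0.length = 1 := by decide +kernel
    rw [e] at h; exact h
  exact final3 (g6 5 (by norm_num)) (by decide +kernel)

theorem forb : ∀ red : ℂ → Prop, Valid 6 red → Forb3 red 4 7 9 :=
  forb3_of 6 td4 td7 td9 pt 4 7 9 (by norm_num) hpt htd4 htd7 htd9 (by decide +kernel)
    (by decide +kernel) (by decide +kernel) fin

end

end APL.P36

namespace APL.P37

noncomputable section

theorem fin (red : ℂ → Prop) (hv : Valid 6 red) : ¬ (sig red pt 0 ∧ sig red pt 1 ∧ sig red pt 2) := by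
  have hnb : NbOK (sig red pt) nb 9 := by
    intro y hy a ha
    exact chkN_sound red 6 hv nb td1 pt hpt htd1 nbl 0 hN y (Nat.zero_le _) (by
      have : nbl.length = 9 := by decide +kernel
      omega) a ha
  have g0 : Good (sig red pt) cl 0 := fun j hj => absurd hj (Nat.not_lt_zero _)
  have g1 : Good (sig red pt) cl 1 := by
    have h := chkG_sound (sig red pt) cl 6 _ (fun n hn => ap_sound red 5 hv td1 pt hpt htd1 n hn) apl 0 g0 hA
    have e : apl.length = 1 := by decide +kernel
    rw [e] at h; exact h
  have g2 : Good (sig red pt) cl 3 := by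
    have h := chkG_sound (sig red pt) cl 3 _ (fun n hn => l3_sound red td9 td3 td12 pt 9 3 12 hpt htd9 htd3 htd12 (P2.forb red hv) n hn) s0 1 g1 hs0
    have e : s0.length = 2 := by decide +kernel
    rw [e] at h; exact h
  have g3 : Good (sig red pt) cl 4 := by
    have h := chkG_sound (sig red pt) cl 3 _ (fun n hn => l3_sound red td4 td7 td19 pt 4 7 19 hpt htd4 htd7 htd19 (P4.forb red hv) n hn) s1 3 g2 hs1
    have e : s1.length = 1 := by decide +kernel
    rw [e] at h; exact h
  have g4 : Good (sig red pt) cl 5 := by
    have h := chkG_sound (sig red pt) cl 3 _ (fun n hn => l3_sound red td31 td19 td7 pt 31 19 7 hpt htd31 htd19 htd7 (P17.forb red hv) n hn) s2 4 g3 hs2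
    have e : s2.length = 1 := by decide +kernel
    rw [e] at h; exact h
  have g5 : Good (sig red pt) cl 6 := by
    have h := chkG_sound (sig red pt) cl 3 _ (fun n hn => l3_sound red td4 td9 td19 pt 4 9 19 hpt htd4 htd9 htd19 (P34.forb red hv) n hn) s3 5 g4 hs3
    have e : s3.length = 1 := by decide +kernel
    rw [e] at h; exact h
  have g6 : Good (sig red pt) cl 7 := by
    have h := chkG_sound (sig red pt) cl 3 _ (fun n hn => l3_sound red td4 td7 td9 pt 4 7 9 hpt htd4 htd7 htd9 (P36.forb red hv) n hn) s4 6 g5 hs4
    have e : s4.length = 1 := by decide +kernel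
    rw [e] at h; exact h
  have g7 : Good (sig red pt) cl 8 := by
    have h := chk_sound (sig red pt) cl nb 9 hnb c0 6 g6 t0
    have e : c0.length = 1 := by decide +kernel
    rw [e] at h; exact h
  exact final3 (g7 7 (by norm_num)) (by decide +kernel)

theorem forb : ∀ red : ℂ → Prop, Valid 6 red → Forb3 red 9 7 13 :=
  forb3_of 6 td9 td7 td13 pt 9 7 13 (by norm_num) hpt htd9 htd7 htd13 (by decide +kernel)
    (by decide +kernel) (by decide +kernel) fin

end

end APL.P37

namespace APL.P38

noncomputable section

theorem fin (red : ℂ → Prop) (hv : Valid 6 red) : ¬ (sig red pt 0 ∧ sig red pt 1 ∧ sig red pt 2) := by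
  have hnb : NbOK (sig red pt) nb 9 := by
    intro y hy a ha
    exact chkN_sound red 6 hv nb td1 pt hpt htd1 nbl 0 hN y (Nat.zero_le _) (by
      have : nbl.length = 9 := by decide +kernel
      omega) a ha
  have g0 : Good (sig red pt) cl 0 := fun j hj => absurd hj (Nat.not_lt_zero _)
  have g1 : Good (sig red pt) cl 1 := by
    have h := chkG_sound (sig red pt) cl 6 _ (fun n hn => ap_sound red 5 hv td1 pt hpt htd1 n hn) apl 0 g0 hA
    have e : apl.length = 1 := by decide +kernel
    rw [e] at h; exact h
  have g2 : Good (sig red pt) cl 2 := by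
    have h := chkG_sound (sig red pt) cl 3 _ (fun n hn => l3_sound red td4 td7 td19 pt 4 7 19 hpt htd4 htd7 htd19 (P4.forb red hv) n hn) s0 1 g1 hs0
    have e : s0.length = 1 := by decide +kernel
    rw [e] at h; exact h
  have g3 : Good (sig red pt) cl 3 := by
    have h := chkG_sound (sig red pt) cl 3 _ (fun n hn => l3_sound red td9 td12 td21 pt 9 12 21 hpt htd9 htd12 htd21 (P6.forb red hv) n hn) s1 2 g2 hs1
    have e : s1.length = 1 := by decide +kernel
    rw [e] at h; exact h
  have g4 : Good (sig red pt) cl 4 := by
    have h := chkG_sound (sig red pt) cl 3 _ (fun n hn => l3_sound red td9 td3 td3 pt 9 3 3 hpt htd9 htd3 htd3 (P35.forb red hv) n hn) s2 3 g3 hs2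
    have e : s2.length = 1 := by decide +kernel
    rw [e] at h; exact h
  have g5 : Good (sig red pt) cl 5 := by
    have h := chkG_sound (sig red pt) cl 3 _ (fun n hn => l3_sound red td9 td7 td13 pt 9 7 13 hpt htd9 htd7 htd13 (P37.forb red hv) n hn) s3 4 g4 hs3
    have e : s3.length = 1 := by decide +kernel
    rw [e] at h; exact h
  have g6 : Good (sig red pt) cl 6 := by
    have h := chk_sound (sig red pt) cl nb 9 hnb c0 4 g5 t0
    have e : c0.length = 1 := by decide +kernel
    rw [e] at h; exact h
  exact final3 (g6 5 (by norm_num)) (by decide +kernel)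

theorem forb : ∀ red : ℂ → Prop, Valid 6 red → Forb3 red 9 7 19 :=
  forb3_of 6 td9 td7 td19 pt 9 7 19 (by norm_num) hpt htd9 htd7 htd19 (by decide +kernel)
    (by decide +kernel) (by decide +kernel) fin

end

end APL.P38

namespace APL.P39

noncomputable section

theorem fin (red : ℂ → Prop) (hv : Valid 6 red) : ¬ (sig red pt 0 ∧ sig red pt 1 ∧ sig red pt 2) := by
  have hnb : NbOK (sig red pt) nb 9 := by
    intro y hy a ha
    exact chkN_sound red 6 hv nb td1 pt hpt htd1 nbl 0 hN y (Nat.zero_le _) (by
      have : nbl.length = 9 := by decide +kernel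
      omega) a ha
  have g0 : Good (sig red pt) cl 0 := fun j hj => absurd hj (Nat.not_lt_zero _)
  have g1 : Good (sig red pt) cl 1 := by
    have h := chkG_sound (sig red pt) cl 6 _ (fun n hn => ap_sound red 5 hv td1 pt hpt htd1 n hn) apl 0 g0 hA
    have e : apl.length = 1 := by decide +kernel
    rw [e] at h; exact h
  have g2 : Good (sig red pt) cl 2 := by
    have h := chkG_sound (sig red pt) cl 3 _ (fun n hn => l3_sound red td4 td16 td4 pt 4 16 4 hpt htd4 htd16 htd4 (P3.forb red hv) n hn) s0 1 g1 hs0
    have e : s0.length = 1 := by decide +kernel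
    rw [e] at h; exact h
  have g3 : Good (sig red pt) cl 3 := by
    have h := chkG_sound (sig red pt) cl 3 _ (fun n hn => l3_sound red td9 td12 td21 pt 9 12 21 hpt htd9 htd12 htd21 (P6.forb red hv) n hn) s1 2 g2 hs1
    have e : s1.length = 1 := by decide +kernel
    rw [e] at h; exact h
  have g4 : Good (sig red pt) cl 4 := by
    have h := chkG_sound (sig red pt) cl 3 _ (fun n hn => l3_sound red td9 td3 td3 pt 9 3 3 hpt htd9 htd3 htd3 (P35.forb red hv) n hn) s2 3 g3 hs2
    have e : s2.length = 1 := by decide +kernel
    rw [e] at h; exact h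
  have g5 : Good (sig red pt) cl 5 := by
    have h := chkG_sound (sig red pt) cl 3 _ (fun n hn => l3_sound red td9 td7 td13 pt 9 7 13 hpt htd9 htd7 htd13 (P37.forb red hv) n hn) s3 4 g4 hs3
    have e : s3.length = 1 := by decide +kernel
    rw [e] at h; exact h
  have g6 : Good (sig red pt) cl 6 := by
    have h := chk_sound (sig red pt) cl nb 9 hnb c0 4 g5 t0
    have e : c0.length = 1 := by decide +kernel
    rw [e] at h; exact h
  exact final3 (g6 5 (by norm_num)) (by decide +kernel)

theorem forb : ∀ red : ℂ → Prop, Valid 6 red → Forb3 red 9 13 16 :=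
  forb3_of 6 td9 td13 td16 pt 9 13 16 (by norm_num) hpt htd9 htd13 htd16 (by decide +kernel)
    (by decide +kernel) (by decide +kernel) fin

end

end APL.P39

namespace APL.P40

noncomputable section

theorem fin (red : ℂ → Prop) (hv : Valid 6 red) : ¬ (sig red pt 0 ∧ sig red pt 1 ∧ sig red pt 2) := by
  have hnb : NbOK (sig red pt) nb 9 := by
    intro y hy a ha
    exact chkN_sound red 6 hv nb td1 pt hpt htd1 nbl 0 hN y (Nat.zero_le _) (by
      have : nbl.length = 9 := by decide +kernel
      omega) a ha
  have g0 : Good (sig red pt) cl 0 := fun j hj => absurd hj (Nat.not_lt_zero _)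
  have g1 : Good (sig red pt) cl 1 := by
    have h := chkG_sound (sig red pt) cl 6 _ (fun n hn => ap_sound red 5 hv td1 pt hpt htd1 n hn) apl 0 g0 hA
    have e : apl.length = 1 := by decide +kernel
    rw [e] at h; exact h
  have g2 : Good (sig red pt) cl 2 := by
    have h := chkG_sound (sig red pt) cl 3 _ (fun n hn => l3_sound red td9 td12 td21 pt 9 12 21 hpt htd9 htd12 htd21 (P6.forb red hv) n hn) s0 1 g1 hs0
    have e : s0.length = 1 := by decide +kernel
    rw [e] at h; exact h
  have g3 : Good (sig red pt) cl 3 := by
    have h := chkG_sound (sig red pt) cl 3 _ (fun n hn => l3_sound red td9 td3 td3 pt 9 3 3 hpt htd9 htd3 htd3 (P35.forb red hv) n hn) s1 2 g2 hs1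
    have e : s1.length = 1 := by decide +kernel
    rw [e] at h; exact h
  have g4 : Good (sig red pt) cl 4 := by
    have h := chkG_sound (sig red pt) cl 3 _ (fun n hn => l3_sound red td4 td7 td9 pt 4 7 9 hpt htd4 htd7 htd9 (P36.forb red hv) n hn) s2 3 g3 hs2
    have e : s2.length = 1 := by decide +kernel
    rw [e] at h; exact h
  have g5 : Good (sig red pt) cl 5 := by
    have h := chkG_sound (sig red pt) cl 3 _ (fun n hn => l3_sound red td9 td7 td13 pt 9 7 13 hpt htd9 htd7 htd13 (P37.forb red hv) n hn) s3 4 g4 hs3
    have e : s3.length = 1 := by decide +kernel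
    rw [e] at h; exact h
  have g6 : Good (sig red pt) cl 6 := by
    have h := chk_sound (sig red pt) cl nb 9 hnb c0 4 g5 t0
    have e : c0.length = 1 := by decide +kernel
    rw [e] at h; exact h
  exact final3 (g6 5 (by norm_num)) (by decide +kernel)

theorem forb : ∀ red : ℂ → Prop, Valid 6 red → Forb3 red 9 7 28 :=
  forb3_of 6 td9 td7 td28 pt 9 7 28 (by norm_num) hpt htd9 htd7 htd28 (by decide +kernel)
    (by decide +kernel) (by decide +kernel) fin

end

end APL.P40

namespace APL.P41

noncomputable section

theorem fin (red : ℂ → Prop) (hv : Valid 6 red) : ¬ (sig red pt 0 ∧ sig red pt 1 ∧ sig red pt 2) := by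
  have hnb : NbOK (sig red pt) nb 9 := by
    intro y hy a ha
    exact chkN_sound red 6 hv nb td1 pt hpt htd1 nbl 0 hN y (Nat.zero_le _) (by
      have : nbl.length = 9 := by decide +kernel
      omega) a ha
  have g0 : Good (sig red pt) cl 0 := fun j hj => absurd hj (Nat.not_lt_zero _)
  have g1 : Good (sig red pt) cl 1 := by
    have h := chkG_sound (sig red pt) cl 6 _ (fun n hn => ap_sound red 5 hv td1 pt hpt htd1 n hn) apl 0 g0 hA
    have e : apl.length = 1 := by decide +kernel
    rw [e] at h; exact h
  have g2 : Good (sig red pt) cl 2 := by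
    have h := chkG_sound (sig red pt) cl 3 _ (fun n hn => l3_sound red td9 td3 td12 pt 9 3 12 hpt htd9 htd3 htd12 (P2.forb red hv) n hn) s0 1 g1 hs0
    have e : s0.length = 1 := by decide +kernel
    rw [e] at h; exact h
  have g3 : Good (sig red pt) cl 3 := by
    have h := chkG_sound (sig red pt) cl 3 _ (fun n hn => l3_sound red td9 td12 td21 pt 9 12 21 hpt htd9 htd12 htd21 (P6.forb red hv) n hn) s1 2 g2 hs1
    have e : s1.length = 1 := by decide +kernel
    rw [e] at h; exact h
  have g4 : Good (sig red pt) cl 5 := by
    have h := chkG_sound (sig red pt) cl 3 _ (fun n hn => l3_sound red td9 td7 td13 pt 9 7 13 hpt htd9 htd7 htd13 (P37.forb red hv) n hn) s2 3 g3 hs2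
    have e : s2.length = 2 := by decide +kernel
    rw [e] at h; exact h
  have g5 : Good (sig red pt) cl 6 := by
    have h := chk_sound (sig red pt) cl nb 9 hnb c0 4 g4 t0
    have e : c0.length = 1 := by decide +kernel
    rw [e] at h; exact h
  exact final3 (g5 5 (by norm_num)) (by decide +kernel)

theorem forb : ∀ red : ℂ → Prop, Valid 6 red → Forb3 red 9 9 27 :=
  forb3_of 6 td9 td9 td27 pt 9 9 27 (by norm_num) hpt htd9 htd9 htd27 (by decide +kernel)
    (by decide +kernel) (by decide +kernel) fin

end

end APL.P41

namespace APL.P42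

noncomputable section

theorem fin (red : ℂ → Prop) (hv : Valid 6 red) : ¬ (sig red pt 0 ∧ sig red pt 1 ∧ sig red pt 2) := by
  have hnb : NbOK (sig red pt) nb 15 := by
    intro y hy a ha
    exact chkN_sound red 6 hv nb td1 pt hpt htd1 nbl 0 hN y (Nat.zero_le _) (by
      have : nbl.length = 15 := by decide +kernel
      omega) a ha
  have g0 : Good (sig red pt) cl 0 := fun j hj => absurd hj (Nat.not_lt_zero _)
  have g1 : Good (sig red pt) cl 2 := by
    have h := chkG_sound (sig red pt) cl 6 _ (fun n hn => ap_sound red 5 hv td1 pt hpt htd1 n hn) apl 0 g0 hA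
    have e : apl.length = 2 := by decide +kernel
    rw [e] at h; exact h
  have g2 : Good (sig red pt) cl 3 := by
    have h := chkG_sound (sig red pt) cl 3 _ (fun n hn => l3_sound red td16 td16 td16 pt 16 16 16 hpt htd16 htd16 htd16 (P8.forb red hv) n hn) s0 2 g1 hs0
    have e : s0.length = 1 := by decide +kernel
    rw [e] at h; exact h
  have g3 : Good (sig red pt) cl 4 := by
    have h := chkG_sound (sig red pt) cl 3 _ (fun n hn => l3_sound red td4 td12 td16 pt 4 12 16 hpt htd4 htd12 htd16 (P20.forb red hv) n hn) s1 3 g2 hs1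
    have e : s1.length = 1 := by decide +kernel
    rw [e] at h; exact h
  have g4 : Good (sig red pt) cl 5 := by
    have h := chkG_sound (sig red pt) cl 3 _ (fun n hn => l3_sound red td16 td3 td31 pt 16 3 31 hpt htd16 htd3 htd31 (P27.forb red hv) n hn) s2 4 g3 hs2
    have e : s2.length = 1 := by decide +kernel
    rw [e] at h; exact h
  have g5 : Good (sig red pt) cl 6 := by
    have h := chkG_sound (sig red pt) cl 3 _ (fun n hn => l3_sound red td9 td13 td16 pt 9 13 16 hpt htd9 htd13 htd16 (P39.forb red hv) n hn) s3 5 g4 hs3
    have e : s3.length = 1 := by decide +kernel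
    rw [e] at h; exact h
  have g6 : Good (sig red pt) cl 7 := by
    have h := chkG_sound (sig red pt) cl 3 _ (fun n hn => l3_sound red td9 td7 td28 pt 9 7 28 hpt htd9 htd7 htd28 (P40.forb red hv) n hn) s4 6 g5 hs4
    have e : s4.length = 1 := by decide +kernel
    rw [e] at h; exact h
  have g7 : Good (sig red pt) cl 8 := by
    have h := chk_sound (sig red pt) cl nb 15 hnb c0 6 g6 t0
    have e : c0.length = 1 := by decide +kernel
    rw [e] at h; exact h
  exact final3 (g7 7 (by norm_num)) (by decide +kernel)

theorem forb : ∀ red : ℂ → Prop, Valid 6 red → Forb3 red 16 7 27 :=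
  forb3_of 6 td16 td7 td27 pt 16 7 27 (by norm_num) hpt htd16 htd7 htd27 (by decide +kernel)
    (by decide +kernel) (by decide +kernel) fin

end

end APL.P42

namespace APL.P43

noncomputable section

theorem fin (red : ℂ → Prop) (hv : Valid 6 red) : ¬ (sig red pt 0 ∧ sig red pt 1 ∧ sig red pt 2) := by
  have hnb : NbOK (sig red pt) nb 9 := by
    intro y hy a ha
    exact chkN_sound red 6 hv nb td1 pt hpt htd1 nbl 0 hN y (Nat.zero_le _) (by
      have : nbl.length = 9 := by decide +kernel
      omega) a ha
  have g0 : Good (sig red pt) cl 0 := fun j hj => absurd hj (Nat.not_lt_zero _)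
  have g1 : Good (sig red pt) cl 1 := by
    have h := chkG_sound (sig red pt) cl 6 _ (fun n hn => ap_sound red 5 hv td1 pt hpt htd1 n hn) apl 0 g0 hA
    have e : apl.length = 1 := by decide +kernel
    rw [e] at h; exact h
  have g2 : Good (sig red pt) cl 2 := by
    have h := chkG_sound (sig red pt) cl 3 _ (fun n hn => l3_sound red td9 td12 td21 pt 9 12 21 hpt htd9 htd12 htd21 (P6.forb red hv) n hn) s0 1 g1 hs0
    have e : s0.length = 1 := by decide +kernel
    rw [e] at h; exact h
  have g3 : Good (sig red pt) cl 3 := by
    have h := chkG_sound (sig red pt) cl 3 _ (fun n hn => l3_sound red td4 td12 td28 pt 4 12 28 hpt htd4 htd12 htd28 (P18.forb red hv) n hn) s1 2 g2 hs1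
    have e : s1.length = 1 := by decide +kernel
    rw [e] at h; exact h
  have g4 : Good (sig red pt) cl 4 := by
    have h := chkG_sound (sig red pt) cl 3 _ (fun n hn => l3_sound red td9 td3 td3 pt 9 3 3 hpt htd9 htd3 htd3 (P35.forb red hv) n hn) s2 3 g3 hs2
    have e : s2.length = 1 := by decide +kernel
    rw [e] at h; exact h
  have g5 : Good (sig red pt) cl 5 := by
    have h := chkG_sound (sig red pt) cl 3 _ (fun n hn => l3_sound red td9 td7 td13 pt 9 7 13 hpt htd9 htd7 htd13 (P37.forb red hv) n hn) s3 4 g4 hs3
    have e : s3.length = 1 := by decide +kernel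
    rw [e] at h; exact h
  have g6 : Good (sig red pt) cl 6 := by
    have h := chk_sound (sig red pt) cl nb 9 hnb c0 4 g5 t0
    have e : c0.length = 1 := by decide +kernel
    rw [e] at h; exact h
  exact final3 (g6 5 (by norm_num)) (by decide +kernel)

theorem forb : ∀ red : ℂ → Prop, Valid 6 red → Forb3 red 9 13 28 :=
  forb3_of 6 td9 td13 td28 pt 9 13 28 (by norm_num) hpt htd9 htd13 htd28 (by decide +kernel)
    (by decide +kernel) (by decide +kernel) fin

end

end APL.P43

namespace APL.P45

noncomputable section

theorem fin (red : ℂ → Prop) (hv : Valid 6 red) : ¬ (sig red pt 0 ∧ sig red pt 1 ∧ sig red pt 2) := by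
  have hnb : NbOK (sig red pt) nb 9 := by
    intro y hy a ha
    exact chkN_sound red 6 hv nb td1 pt hpt htd1 nbl 0 hN y (Nat.zero_le _) (by
      have : nbl.length = 9 := by decide +kernel
      omega) a ha
  have g0 : Good (sig red pt) cl 0 := fun j hj => absurd hj (Nat.not_lt_zero _)
  have g1 : Good (sig red pt) cl 1 := by
    have h := chkG_sound (sig red pt) cl 6 _ (fun n hn => ap_sound red 5 hv td1 pt hpt htd1 n hn) apl 0 g0 hA
    have e : apl.length = 1 := by decide +kernel
    rw [e] at h; exact h
  have g2 : Good (sig red pt) cl 2 := by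
    have h := chkG_sound (sig red pt) cl 3 _ (fun n hn => l3_sound red td9 td12 td21 pt 9 12 21 hpt htd9 htd12 htd21 (P6.forb red hv) n hn) s0 1 g1 hs0
    have e : s0.length = 1 := by decide +kernel
    rw [e] at h; exact h
  have g3 : Good (sig red pt) cl 3 := by
    have h := chkG_sound (sig red pt) cl 3 _ (fun n hn => l3_sound red td9 td3 td3 pt 9 3 3 hpt htd9 htd3 htd3 (P35.forb red hv) n hn) s1 2 g2 hs1
    have e : s1.length = 1 := by decide +kernel
    rw [e] at h; exact h
  have g4 : Good (sig red pt) cl 4 := by
    have h := chkG_sound (sig red pt) cl 3 _ (fun n hn => l3_sound red td4 td7 td9 pt 4 7 9 hpt htd4 htd7 htd9 (P36.forb red hv) n hn) s2 3 g3 hs2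
    have e : s2.length = 1 := by decide +kernel
    rw [e] at h; exact h
  have g5 : Good (sig red pt) cl 5 := by
    have h := chkG_sound (sig red pt) cl 3 _ (fun n hn => l3_sound red td9 td7 td13 pt 9 7 13 hpt htd9 htd7 htd13 (P37.forb red hv) n hn) s3 4 g4 hs3
    have e : s3.length = 1 := by decide +kernel
    rw [e] at h; exact h
  have g6 : Good (sig red pt) cl 6 := by
    have h := chk_sound (sig red pt) cl nb 9 hnb c0 4 g5 t0
    have e : c0.length = 1 := by decide +kernel
    rw [e] at h; exact h
  exact final3 (g6 5 (by norm_num)) (by decide +kernel)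

theorem forb : ∀ red : ℂ → Prop, Valid 6 red → Forb3 red 9 16 37 :=
  forb3_of 6 td9 td16 td37 pt 9 16 37 (by norm_num) hpt htd9 htd16 htd37 (by decide +kernel)
    (by decide +kernel) (by decide +kernel) fin

end

end APL.P45

namespace APL.P46

noncomputable section

theorem fin (red : ℂ → Prop) (hv : Valid 6 red) : ¬ (sig red pt 0 ∧ sig red pt 1 ∧ sig red pt 2) := by
  have hnb : NbOK (sig red pt) nb 9 := by
    intro y hy a ha
    exact chkN_sound red 6 hv nb td1 pt hpt htd1 nbl 0 hN y (Nat.zero_le _) (by
      have : nbl.length = 9 := by decide +kernel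
      omega) a ha
  have g0 : Good (sig red pt) cl 0 := fun j hj => absurd hj (Nat.not_lt_zero _)
  have g1 : Good (sig red pt) cl 1 := by
    have h := chkG_sound (sig red pt) cl 6 _ (fun n hn => ap_sound red 5 hv td1 pt hpt htd1 n hn) apl 0 g0 hA
    have e : apl.length = 1 := by decide +kernel
    rw [e] at h; exact h
  have g2 : Good (sig red pt) cl 2 := by
    have h := chkG_sound (sig red pt) cl 3 _ (fun n hn => l3_sound red td9 td12 td21 pt 9 12 21 hpt htd9 htd12 htd21 (P6.forb red hv) n hn) s0 1 g1 hs0
    have e : s0.length = 1 := by decide +kernel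
    rw [e] at h; exact h
  have g3 : Good (sig red pt) cl 3 := by
    have h := chkG_sound (sig red pt) cl 3 _ (fun n hn => l3_sound red td9 td3 td3 pt 9 3 3 hpt htd9 htd3 htd3 (P35.forb red hv) n hn) s1 2 g2 hs1
    have e : s1.length = 1 := by decide +kernel
    rw [e] at h; exact h
  have g4 : Good (sig red pt) cl 4 := by
    have h := chkG_sound (sig red pt) cl 3 _ (fun n hn => l3_sound red td4 td7 td9 pt 4 7 9 hpt htd4 htd7 htd9 (P36.forb red hv) n hn) s2 3 g3 hs2
    have e : s2.length = 1 := by decide +kernel
    rw [e] at h; exact h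
  have g5 : Good (sig red pt) cl 5 := by
    have h := chkG_sound (sig red pt) cl 3 _ (fun n hn => l3_sound red td9 td7 td13 pt 9 7 13 hpt htd9 htd7 htd13 (P37.forb red hv) n hn) s3 4 g4 hs3
    have e : s3.length = 1 := by decide +kernel
    rw [e] at h; exact h
  have g6 : Good (sig red pt) cl 6 := by
    have h := chk_sound (sig red pt) cl nb 9 hnb c0 4 g5 t0
    have e : c0.length = 1 := by decide +kernel
    rw [e] at h; exact h
  exact final3 (g6 5 (by norm_num)) (by decide +kernel)

theorem forb : ∀ red : ℂ → Prop, Valid 6 red → Forb3 red 9 13 37 :=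
  forb3_of 6 td9 td13 td37 pt 9 13 37 (by norm_num) hpt htd9 htd13 htd37 (by decide +kernel)
    (by decide +kernel) (by decide +kernel) fin

end

end APL.P46

namespace APL.P47

noncomputable section

theorem fin (red : ℂ → Prop) (hv : Valid 6 red) : ¬ (sig red pt 0 ∧ sig red pt 1 ∧ sig red pt 2) := by
  have hnb : NbOK (sig red pt) nb 9 := by
    intro y hy a ha
    exact chkN_sound red 6 hv nb td1 pt hpt htd1 nbl 0 hN y (Nat.zero_le _) (by
      have : nbl.length = 9 := by decide +kernel
      omega) a ha
  have g0 : Good (sig red pt) cl 0 := fun j hj => absurd hj (Nat.not_lt_zero _)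
  have g1 : Good (sig red pt) cl 1 := by
    have h := chkG_sound (sig red pt) cl 6 _ (fun n hn => ap_sound red 5 hv td1 pt hpt htd1 n hn) apl 0 g0 hA
    have e : apl.length = 1 := by decide +kernel
    rw [e] at h; exact h
  have g2 : Good (sig red pt) cl 2 := by
    have h := chkG_sound (sig red pt) cl 3 _ (fun n hn => l3_sound red td9 td12 td21 pt 9 12 21 hpt htd9 htd12 htd21 (P6.forb red hv) n hn) s0 1 g1 hs0
    have e : s0.length = 1 := by decide +kernel
    rw [e] at h; exact h
  have g3 : Good (sig red pt) cl 3 := by
    have h := chkG_sound (sig red pt) cl 3 _ (fun n hn => l3_sound red td9 td3 td3 pt 9 3 3 hpt htd9 htd3 htd3 (P35.forb red hv) n hn) s1 2 g2 hs1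
    have e : s1.length = 1 := by decide +kernel
    rw [e] at h; exact h
  have g4 : Good (sig red pt) cl 4 := by
    have h := chkG_sound (sig red pt) cl 3 _ (fun n hn => l3_sound red td4 td7 td9 pt 4 7 9 hpt htd4 htd7 htd9 (P36.forb red hv) n hn) s2 3 g3 hs2
    have e : s2.length = 1 := by decide +kernel
    rw [e] at h; exact h
  have g5 : Good (sig red pt) cl 5 := by
    have h := chkG_sound (sig red pt) cl 3 _ (fun n hn => l3_sound red td9 td7 td13 pt 9 7 13 hpt htd9 htd7 htd13 (P37.forb red hv) n hn) s3 4 g4 hs3
    have e : s3.length = 1 := by decide +kernel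
    rw [e] at h; exact h
  have g6 : Good (sig red pt) cl 6 := by
    have h := chk_sound (sig red pt) cl nb 9 hnb c0 4 g5 t0
    have e : c0.length = 1 := by decide +kernel
    rw [e] at h; exact h
  exact final3 (g6 5 (by norm_num)) (by decide +kernel)

theorem forb : ∀ red : ℂ → Prop, Valid 6 red → Forb3 red 9 21 21 :=
  forb3_of 6 td9 td21 td21 pt 9 21 21 (by norm_num) hpt htd9 htd21 htd21 (by decide +kernel)
    (by decide +kernel) (by decide +kernel) fin

end

end APL.P47

namespace APL.P48

noncomputable section

theorem fin (red : ℂ → Prop) (hv : Valid 6 red) : ¬ (sig red pt 0 ∧ sig red pt 1 ∧ sig red pt 2) := by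
  have hnb : NbOK (sig red pt) nb 9 := by
    intro y hy a ha
    exact chkN_sound red 6 hv nb td1 pt hpt htd1 nbl 0 hN y (Nat.zero_le _) (by
      have : nbl.length = 9 := by decide +kernel
      omega) a ha
  have g0 : Good (sig red pt) cl 0 := fun j hj => absurd hj (Nat.not_lt_zero _)
  have g1 : Good (sig red pt) cl 1 := by
    have h := chkG_sound (sig red pt) cl 6 _ (fun n hn => ap_sound red 5 hv td1 pt hpt htd1 n hn) apl 0 g0 hA
    have e : apl.length = 1 := by decide +kernel
    rw [e] at h; exact h
  have g2 : Good (sig red pt) cl 2 := by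
    have h := chkG_sound (sig red pt) cl 3 _ (fun n hn => l3_sound red td21 td12 td27 pt 21 12 27 hpt htd21 htd12 htd27 (P11.forb red hv) n hn) s0 1 g1 hs0
    have e : s0.length = 1 := by decide +kernel
    rw [e] at h; exact h
  have g3 : Good (sig red pt) cl 3 := by
    have h := chkG_sound (sig red pt) cl 3 _ (fun n hn => l3_sound red td9 td3 td3 pt 9 3 3 hpt htd9 htd3 htd3 (P35.forb red hv) n hn) s1 2 g2 hs1
    have e : s1.length = 1 := by decide +kernel
    rw [e] at h; exact h
  have g4 : Good (sig red pt) cl 4 := by
    have h := chkG_sound (sig red pt) cl 3 _ (fun n hn => l3_sound red td9 td7 td13 pt 9 7 13 hpt htd9 htd7 htd13 (P37.forb red hv) n hn) s2 3 g3 hs2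
    have e : s2.length = 1 := by decide +kernel
    rw [e] at h; exact h
  have g5 : Good (sig red pt) cl 5 := by
    have h := chkG_sound (sig red pt) cl 3 _ (fun n hn => l3_sound red td16 td7 td27 pt 16 7 27 hpt htd16 htd7 htd27 (P42.forb red hv) n hn) s3 4 g4 hs3
    have e : s3.length = 1 := by decide +kernel
    rw [e] at h; exact h
  have g6 : Good (sig red pt) cl 6 := by
    have h := chk_sound (sig red pt) cl nb 9 hnb c0 4 g5 t0
    have e : c0.length = 1 := by decide +kernel
    rw [e] at h; exact h
  exact final3 (g6 5 (by norm_num)) (by decide +kernel)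

theorem forb : ∀ red : ℂ → Prop, Valid 6 red → Forb3 red 9 27 36 :=
  forb3_of 6 td9 td27 td36 pt 9 27 36 (by norm_num) hpt htd9 htd27 htd36 (by decide +kernel)
    (by decide +kernel) (by decide +kernel) fin

end

end APL.P48

namespace APL.P49

noncomputable section

theorem fin (red : ℂ → Prop) (hv : Valid 6 red) : ¬ (sig red pt 0 ∧ sig red pt 1 ∧ sig red pt 2) := by
  have hnb : NbOK (sig red pt) nb 9 := by
    intro y hy a ha
    exact chkN_sound red 6 hv nb td1 pt hpt htd1 nbl 0 hN y (Nat.zero_le _) (by
      have : nbl.length = 9 := by decide +kernel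
      omega) a ha
  have g0 : Good (sig red pt) cl 0 := fun j hj => absurd hj (Nat.not_lt_zero _)
  have g1 : Good (sig red pt) cl 1 := by
    have h := chkG_sound (sig red pt) cl 6 _ (fun n hn => ap_sound red 5 hv td1 pt hpt htd1 n hn) apl 0 g0 hA
    have e : apl.length = 1 := by decide +kernel
    rw [e] at h; exact h
  have g2 : Good (sig red pt) cl 2 := by
    have h := chkG_sound (sig red pt) cl 3 _ (fun n hn => l3_sound red td9 td19 td25 pt 9 19 25 hpt htd9 htd19 htd25 (P28.forb red hv) n hn) s0 1 g1 hs0
    have e : s0.length = 1 := by decide +kernel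
    rw [e] at h; exact h
  have g3 : Good (sig red pt) cl 3 := by
    have h := chkG_sound (sig red pt) cl 3 _ (fun n hn => l3_sound red td4 td9 td19 pt 4 9 19 hpt htd4 htd9 htd19 (P34.forb red hv) n hn) s1 2 g2 hs1
    have e : s1.length = 1 := by decide +kernel
    rw [e] at h; exact h
  have g4 : Good (sig red pt) cl 4 := by
    have h := chkG_sound (sig red pt) cl 3 _ (fun n hn => l3_sound red td9 td7 td19 pt 9 7 19 hpt htd9 htd7 htd19 (P38.forb red hv) n hn) s2 3 g3 hs2
    have e : s2.length = 1 := by decide +kernel
    rw [e] at h; exact h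
  have g5 : Good (sig red pt) cl 5 := by
    have h := chkG_sound (sig red pt) cl 3 _ (fun n hn => l3_sound red td16 td7 td27 pt 16 7 27 hpt htd16 htd7 htd27 (P42.forb red hv) n hn) s3 4 g4 hs3
    have e : s3.length = 1 := by decide +kernel
    rw [e] at h; exact h
  have g6 : Good (sig red pt) cl 6 := by
    have h := chkG_sound (sig red pt) cl 3 _ (fun n hn => l3_sound red td9 td13 td28 pt 9 13 28 hpt htd9 htd13 htd28 (P43.forb red hv) n hn) s4 5 g5 hs4
    have e : s4.length = 1 := by decide +kernel
    rw [e] at h; exact h
  have g7 : Good (sig red pt) cl 7 := by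
    have h := chk_sound (sig red pt) cl nb 9 hnb c0 5 g6 t0
    have e : c0.length = 1 := by decide +kernel
    rw [e] at h; exact h
  exact final3 (g7 6 (by norm_num)) (by decide +kernel)

theorem forb : ∀ red : ℂ → Prop, Valid 6 red → Forb3 red 28 19 27 :=
  forb3_of 6 td28 td19 td27 pt 28 19 27 (by norm_num) hpt htd28 htd19 htd27 (by decide +kernel)
    (by decide +kernel) (by decide +kernel) fin

end

end APL.P49

namespace APL.P50

noncomputable section

theorem fin (red : ℂ → Prop) (hv : Valid 6 red) : ¬ (sig red pt 0 ∧ sig red pt 1 ∧ sig red pt 2) := by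
  have hnb : NbOK (sig red pt) nb 9 := by
    intro y hy a ha
    exact chkN_sound red 6 hv nb td1 pt hpt htd1 nbl 0 hN y (Nat.zero_le _) (by
      have : nbl.length = 9 := by decide +kernel
      omega) a ha
  have g0 : Good (sig red pt) cl 0 := fun j hj => absurd hj (Nat.not_lt_zero _)
  have g1 : Good (sig red pt) cl 1 := by
    have h := chkG_sound (sig red pt) cl 6 _ (fun n hn => ap_sound red 5 hv td1 pt hpt htd1 n hn) apl 0 g0 hA
    have e : apl.length = 1 := by decide +kernel
    rw [e] at h; exact h
  have g2 : Good (sig red pt) cl 2 := by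
    have h := chkG_sound (sig red pt) cl 3 _ (fun n hn => l3_sound red td31 td12 td7 pt 31 12 7 hpt htd31 htd12 htd7 (P7.forb red hv) n hn) s0 1 g1 hs0
    have e : s0.length = 1 := by decide +kernel
    rw [e] at h; exact h
  have g3 : Good (sig red pt) cl 3 := by
    have h := chkG_sound (sig red pt) cl 3 _ (fun n hn => l3_sound red td9 td3 td3 pt 9 3 3 hpt htd9 htd3 htd3 (P35.forb red hv) n hn) s1 2 g2 hs1
    have e : s1.length = 1 := by decide +kernel
    rw [e] at h; exact h
  have g4 : Good (sig red pt) cl 4 := by
    have h := chkG_sound (sig red pt) cl 3 _ (fun n hn => l3_sound red td9 td21 td21 pt 9 21 21 hpt htd9 htd21 htd21 (P47.forb red hv) n hn) s2 3 g3 hs2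
    have e : s2.length = 1 := by decide +kernel
    rw [e] at h; exact h
  have g5 : Good (sig red pt) cl 5 := by
    have h := chk_sound (sig red pt) cl nb 9 hnb c0 3 g4 t0
    have e : c0.length = 1 := by decide +kernel
    rw [e] at h; exact h
  exact final3 (g5 4 (by norm_num)) (by decide +kernel)

theorem forb : ∀ red : ℂ → Prop, Valid 6 red → Forb3 red 21 12 3 :=
  forb3_of 6 td21 td12 td3 pt 21 12 3 (by norm_num) hpt htd21 htd12 htd3 (by decide +kernel)
    (by decide +kernel) (by decide +kernel) fin

end

end APL.P50

namespace APL.P51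

noncomputable section

theorem fin (red : ℂ → Prop) (hv : Valid 6 red) : ¬ (sig red pt 0 ∧ sig red pt 1 ∧ sig red pt 2) := by
  have hnb : NbOK (sig red pt) nb 14 := by
    intro y hy a ha
    exact chkN_sound red 6 hv nb td1 pt hpt htd1 nbl 0 hN y (Nat.zero_le _) (by
      have : nbl.length = 14 := by decide +kernel
      omega) a ha
  have g0 : Good (sig red pt) cl 0 := fun j hj => absurd hj (Nat.not_lt_zero _)
  have g1 : Good (sig red pt) cl 2 := by
    have h := chkG_sound (sig red pt) cl 6 _ (fun n hn => ap_sound red 5 hv td1 pt hpt htd1 n hn) apl 0 g0 hA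
    have e : apl.length = 2 := by decide +kernel
    rw [e] at h; exact h
  have g2 : Good (sig red pt) cl 3 := by
    have h := chkG_sound (sig red pt) cl 3 _ (fun n hn => l3_sound red td16 td7 td7 pt 16 7 7 hpt htd16 htd7 htd7 (P5.forb red hv) n hn) s0 2 g1 hs0
    have e : s0.length = 1 := by decide +kernel
    rw [e] at h; exact h
  have g3 : Good (sig red pt) cl 5 := by
    have h := chkG_sound (sig red pt) cl 3 _ (fun n hn => l3_sound red td21 td12 td27 pt 21 12 27 hpt htd21 htd12 htd27 (P11.forb red hv) n hn) s1 3 g2 hs1
    have e : s1.length = 2 := by decide +kernel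
    rw [e] at h; exact h
  have g4 : Good (sig red pt) cl 6 := by
    have h := chkG_sound (sig red pt) cl 3 _ (fun n hn => l3_sound red td31 td19 td7 pt 31 19 7 hpt htd31 htd19 htd7 (P17.forb red hv) n hn) s2 5 g3 hs2
    have e : s2.length = 1 := by decide +kernel
    rw [e] at h; exact h
  have g5 : Good (sig red pt) cl 7 := by
    have h := chkG_sound (sig red pt) cl 3 _ (fun n hn => l3_sound red td9 td7 td13 pt 9 7 13 hpt htd9 htd7 htd13 (P37.forb red hv) n hn) s3 6 g4 hs3
    have e : s3.length = 1 := by decide +kernel
    rw [e] at h; exact h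
  have g6 : Good (sig red pt) cl 8 := by
    have h := chkG_sound (sig red pt) cl 3 _ (fun n hn => l3_sound red td16 td7 td27 pt 16 7 27 hpt htd16 htd7 htd27 (P42.forb red hv) n hn) s4 7 g5 hs4
    have e : s4.length = 1 := by decide +kernel
    rw [e] at h; exact h
  have g7 : Good (sig red pt) cl 9 := by
    have h := chk_sound (sig red pt) cl nb 14 hnb c0 7 g6 t0
    have e : c0.length = 1 := by decide +kernel
    rw [e] at h; exact h
  exact final3 (g7 8 (by norm_num)) (by decide +kernel)

theorem forb : ∀ red : ℂ → Prop, Valid 6 red → Forb3 red 7 27 7 :=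
  forb3_of 6 td7 td27 td7 pt 7 27 7 (by norm_num) hpt htd7 htd27 htd7 (by decide +kernel)
    (by decide +kernel) (by decide +kernel) fin

end

end APL.P51

namespace APL.P52

noncomputable section

theorem fin (red : ℂ → Prop) (hv : Valid 6 red) : ¬ (sig red pt 0 ∧ sig red pt 1 ∧ sig red pt 2) := by
  have hnb : NbOK (sig red pt) nb 20 := by
    intro y hy a ha
    exact chkN_sound red 6 hv nb td1 pt hpt htd1 nbl 0 hN y (Nat.zero_le _) (by
      have : nbl.length = 20 := by decide +kernel
      omega) a ha
  have g0 : Good (sig red pt) cl 0 := fun j hj => absurd hj (Nat.not_lt_zero _)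
  have g1 : Good (sig red pt) cl 3 := by
    have h := chkG_sound (sig red pt) cl 6 _ (fun n hn => ap_sound red 5 hv td1 pt hpt htd1 n hn) apl 0 g0 hA
    have e : apl.length = 3 := by decide +kernel
    rw [e] at h; exact h
  have g2 : Good (sig red pt) cl 5 := by
    have h := chkG_sound (sig red pt) cl 3 _ (fun n hn => l3_sound red td4 td27 td31 pt 4 27 31 hpt htd4 htd27 htd31 (P22.forb red hv) n hn) s0 3 g1 hs0
    have e : s0.length = 2 := by decide +kernel
    rw [e] at h; exact h
  have g3 : Good (sig red pt) cl 7 := by
    have h := chkG_sound (sig red pt) cl 3 _ (fun n hn => l3_sound red td9 td9 td27 pt 9 9 27 hpt htd9 htd9 htd27 (P41.forb red hv) n hn) s1 5 g2 hs1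
    have e : s1.length = 2 := by decide +kernel
    rw [e] at h; exact h
  have g4 : Good (sig red pt) cl 10 := by
    have h := chkG_sound (sig red pt) cl 3 _ (fun n hn => l3_sound red td16 td7 td27 pt 16 7 27 hpt htd16 htd7 htd27 (P42.forb red hv) n hn) s2 7 g3 hs2
    have e : s2.length = 3 := by decide +kernel
    rw [e] at h; exact h
  have g5 : Good (sig red pt) cl 13 := by
    have h := chkG_sound (sig red pt) cl 3 _ (fun n hn => l3_sound red td9 td27 td36 pt 9 27 36 hpt htd9 htd27 htd36 (P48.forb red hv) n hn) s3 10 g4 hs3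
    have e : s3.length = 3 := by decide +kernel
    rw [e] at h; exact h
  have g6 : Good (sig red pt) cl 15 := by
    have h := chkG_sound (sig red pt) cl 3 _ (fun n hn => l3_sound red td28 td19 td27 pt 28 19 27 hpt htd28 htd19 htd27 (P49.forb red hv) n hn) s4 13 g5 hs4
    have e : s4.length = 2 := by decide +kernel
    rw [e] at h; exact h
  have g7 : Good (sig red pt) cl 16 := by
    have h := chkG_sound (sig red pt) cl 3 _ (fun n hn => l3_sound red td7 td27 td7 pt 7 27 7 hpt htd7 htd27 htd7 (P51.forb red hv) n hn) s5 15 g6 hs5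
    have e : s5.length = 1 := by decide +kernel
    rw [e] at h; exact h
  have g8 : Good (sig red pt) cl 17 := by
    have h := chk_sound (sig red pt) cl nb 20 hnb c0 15 g7 t0
    have e : c0.length = 1 := by decide +kernel
    rw [e] at h; exact h
  exact final3 (g8 16 (by norm_num)) (by decide +kernel)

theorem forb : ∀ red : ℂ → Prop, Valid 6 red → Forb3 red 27 27 27 :=
  forb3_of 6 td27 td27 td27 pt 27 27 27 (by norm_num) hpt htd27 htd27 htd27 (by decide +kernel)
    (by decide +kernel) (by decide +kernel) fin

end

end APL.P52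

namespace APL.P53

noncomputable section

theorem fin (red : ℂ → Prop) (hv : Valid 6 red) : ¬ (sig red pt 0 ∧ sig red pt 1 ∧ sig red pt 2) := by
  have hnb : NbOK (sig red pt) nb 9 := by
    intro y hy a ha
    exact chkN_sound red 6 hv nb td1 pt hpt htd1 nbl 0 hN y (Nat.zero_le _) (by
      have : nbl.length = 9 := by decide +kernel
      omega) a ha
  have g0 : Good (sig red pt) cl 0 := fun j hj => absurd hj (Nat.not_lt_zero _)
  have g1 : Good (sig red pt) cl 1 := by
    have h := chkG_sound (sig red pt) cl 6 _ (fun n hn => ap_sound red 5 hv td1 pt hpt htd1 n hn) apl 0 g0 hA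
    have e : apl.length = 1 := by decide +kernel
    rw [e] at h; exact h
  have g2 : Good (sig red pt) cl 2 := by
    have h := chkG_sound (sig red pt) cl 3 _ (fun n hn => l3_sound red td9 td12 td21 pt 9 12 21 hpt htd9 htd12 htd21 (P6.forb red hv) n hn) s0 1 g1 hs0
    have e : s0.length = 1 := by decide +kernel
    rw [e] at h; exact h
  have g3 : Good (sig red pt) cl 3 := by
    have h := chkG_sound (sig red pt) cl 3 _ (fun n hn => l3_sound red td9 td3 td3 pt 9 3 3 hpt htd9 htd3 htd3 (P35.forb red hv) n hn) s1 2 g2 hs1
    have e : s1.length = 1 := by decide +kernel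
    rw [e] at h; exact h
  have g4 : Good (sig red pt) cl 4 := by
    have h := chkG_sound (sig red pt) cl 3 _ (fun n hn => l3_sound red td4 td7 td9 pt 4 7 9 hpt htd4 htd7 htd9 (P36.forb red hv) n hn) s2 3 g3 hs2
    have e : s2.length = 1 := by decide +kernel
    rw [e] at h; exact h
  have g5 : Good (sig red pt) cl 5 := by
    have h := chkG_sound (sig red pt) cl 3 _ (fun n hn => l3_sound red td9 td7 td13 pt 9 7 13 hpt htd9 htd7 htd13 (P37.forb red hv) n hn) s3 4 g4 hs3
    have e : s3.length = 1 := by decide +kernel
    rw [e] at h; exact h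
  have g6 : Good (sig red pt) cl 6 := by
    have h := chk_sound (sig red pt) cl nb 9 hnb c0 4 g5 t0
    have e : c0.length = 1 := by decide +kernel
    rw [e] at h; exact h
  exact final3 (g6 5 (by norm_num)) (by decide +kernel)

theorem forb : ∀ red : ℂ → Prop, Valid 6 red → Forb3 red 9 3 21 :=
  forb3_of 6 td9 td3 td21 pt 9 3 21 (by norm_num) hpt htd9 htd3 htd21 (by decide +kernel)
    (by decide +kernel) (by decide +kernel) fin

end

end APL.P53

namespace APL.P54

noncomputable section

theorem fin (red : ℂ → Prop) (hv : Valid 6 red) : ¬ (sig red pt 0 ∧ sig red pt 1 ∧ sig red pt 2) := by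
  have hnb : NbOK (sig red pt) nb 20 := by
    intro y hy a ha
    exact chkN_sound red 6 hv nb td1 pt hpt htd1 nbl 0 hN y (Nat.zero_le _) (by
      have : nbl.length = 20 := by decide +kernel
      omega) a ha
  have g0 : Good (sig red pt) cl 0 := fun j hj => absurd hj (Nat.not_lt_zero _)
  have g1 : Good (sig red pt) cl 3 := by
    have h := chkG_sound (sig red pt) cl 6 _ (fun n hn => ap_sound red 5 hv td1 pt hpt htd1 n hn) apl 0 g0 hA
    have e : apl.length = 3 := by decide +kernel
    rw [e] at h; exact h
  have g2 : Good (sig red pt) cl 4 := by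
    have h := chkG_sound (sig red pt) cl 3 _ (fun n hn => l3_sound red td12 td12 td12 pt 12 12 12 hpt htd12 htd12 htd12 (P0.forb red hv) n hn) s0 3 g1 hs0
    have e : s0.length = 1 := by decide +kernel
    rw [e] at h; exact h
  have g3 : Good (sig red pt) cl 5 := by
    have h := chkG_sound (sig red pt) cl 3 _ (fun n hn => l3_sound red td9 td3 td12 pt 9 3 12 hpt htd9 htd3 htd12 (P2.forb red hv) n hn) s1 4 g2 hs1
    have e : s1.length = 1 := by decide +kernel
    rw [e] at h; exact h
  have g4 : Good (sig red pt) cl 6 := by
    have h := chkG_sound (sig red pt) cl 3 _ (fun n hn => l3_sound red td21 td12 td27 pt 21 12 27 hpt htd21 htd12 htd27 (P11.forb red hv) n hn) s2 5 g3 hs2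
    have e : s2.length = 1 := by decide +kernel
    rw [e] at h; exact h
  have g5 : Good (sig red pt) cl 7 := by
    have h := chkG_sound (sig red pt) cl 3 _ (fun n hn => l3_sound red td31 td13 td12 pt 31 13 12 hpt htd31 htd13 htd12 (P13.forb red hv) n hn) s3 6 g4 hs3
    have e : s3.length = 1 := by decide +kernel
    rw [e] at h; exact h
  have g6 : Good (sig red pt) cl 8 := by
    have h := chkG_sound (sig red pt) cl 3 _ (fun n hn => l3_sound red td31 td37 td7 pt 31 37 7 hpt htd31 htd37 htd7 (P14.forb red hv) n hn) s4 7 g5 hs4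
    have e : s4.length = 1 := by decide +kernel
    rw [e] at h; exact h
  have g7 : Good (sig red pt) cl 9 := by
    have h := chkG_sound (sig red pt) cl 3 _ (fun n hn => l3_sound red td4 td12 td28 pt 4 12 28 hpt htd4 htd12 htd28 (P18.forb red hv) n hn) s5 8 g6 hs5
    have e : s5.length = 1 := by decide +kernel
    rw [e] at h; exact h
  have g8 : Good (sig red pt) cl 10 := by
    have h := chkG_sound (sig red pt) cl 3 _ (fun n hn => l3_sound red td4 td12 td16 pt 4 12 16 hpt htd4 htd12 htd16 (P20.forb red hv) n hn) s6 9 g7 hs6
    have e : s6.length = 1 := by decide +kernel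
    rw [e] at h; exact h
  have g9 : Good (sig red pt) cl 12 := by
    have h := chkG_sound (sig red pt) cl 3 _ (fun n hn => l3_sound red td21 td12 td3 pt 21 12 3 hpt htd21 htd12 htd3 (P50.forb red hv) n hn) s7 10 g8 hs7
    have e : s7.length = 2 := by decide +kernel
    rw [e] at h; exact h
  have g10 : Good (sig red pt) cl 13 := by
    have h := chk_sound (sig red pt) cl nb 20 hnb c0 11 g9 t0
    have e : c0.length = 1 := by decide +kernel
    rw [e] at h; exact h
  exact final3 (g10 12 (by norm_num)) (by decide +kernel)

theorem forb : ∀ red : ℂ → Prop, Valid 6 red → Forb3 red 7 37 12 :=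
  forb3_of 6 td7 td37 td12 pt 7 37 12 (by norm_num) hpt htd7 htd37 htd12 (by decide +kernel)
    (by decide +kernel) (by decide +kernel) fin

end

end APL.P54

namespace APL.P55

noncomputable section

theorem fin (red : ℂ → Prop) (hv : Valid 6 red) : ¬ (sig red pt 0 ∧ sig red pt 1) := by
  have hnb : NbOK (sig red pt) nb 8 := by
    intro y hy a ha
    exact chkN_sound red 6 hv nb td1 pt hpt htd1 nbl 0 hN y (Nat.zero_le _) (by
      have : nbl.length = 8 := by decide +kernel
      omega) a ha
  have g0 : Good (sig red pt) cl 0 := fun j hj => absurd hj (Nat.not_lt_zero _)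
  have g1 : Good (sig red pt) cl 1 := by
    have h := chkG_sound (sig red pt) cl 6 _ (fun n hn => ap_sound red 5 hv td1 pt hpt htd1 n hn) apl 0 g0 hA
    have e : apl.length = 1 := by decide +kernel
    rw [e] at h; exact h
  have g2 : Good (sig red pt) cl 2 := by
    have h := chkG_sound (sig red pt) cl 3 _ (fun n hn => l3_sound red td9 td12 td21 pt 9 12 21 hpt htd9 htd12 htd21 (P6.forb red hv) n hn) s0 1 g1 hs0
    have e : s0.length = 1 := by decide +kernel
    rw [e] at h; exact h
  have g3 : Good (sig red pt) cl 3 := by
    have h := chkG_sound (sig red pt) cl 3 _ (fun n hn => l3_sound red td9 td3 td3 pt 9 3 3 hpt htd9 htd3 htd3 (P35.forb red hv) n hn) s1 2 g2 hs1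
    have e : s1.length = 1 := by decide +kernel
    rw [e] at h; exact h
  have g4 : Good (sig red pt) cl 4 := by
    have h := chkG_sound (sig red pt) cl 3 _ (fun n hn => l3_sound red td4 td7 td9 pt 4 7 9 hpt htd4 htd7 htd9 (P36.forb red hv) n hn) s2 3 g3 hs2
    have e : s2.length = 1 := by decide +kernel
    rw [e] at h; exact h
  have g5 : Good (sig red pt) cl 5 := by
    have h := chkG_sound (sig red pt) cl 3 _ (fun n hn => l3_sound red td9 td7 td13 pt 9 7 13 hpt htd9 htd7 htd13 (P37.forb red hv) n hn) s3 4 g4 hs3
    have e : s3.length = 1 := by decide +kernel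
    rw [e] at h; exact h
  have g6 : Good (sig red pt) cl 6 := by
    have h := chk_sound (sig red pt) cl nb 8 hnb c0 4 g5 t0
    have e : c0.length = 1 := by decide +kernel
    rw [e] at h; exact h
  exact final2 (g6 5 (by norm_num)) (by decide +kernel)

theorem forb : ∀ red : ℂ → Prop, Valid 6 red → Forb2 red 9 :=
  forb2_of 6 td9 pt 9 (by norm_num) hpt htd9 (by decide +kernel) fin

end

end APL.P55

namespace APL.P56

noncomputable section

theorem fin (red : ℂ → Prop) (hv : Valid 6 red) : ¬ (sig red pt 0 ∧ sig red pt 1 ∧ sig red pt 2) := by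
  have hnb : NbOK (sig red pt) nb 9 := by
    intro y hy a ha
    exact chkN_sound red 6 hv nb td1 pt hpt htd1 nbl 0 hN y (Nat.zero_le _) (by
      have : nbl.length = 9 := by decide +kernel
      omega) a ha
  have g0 : Good (sig red pt) cl 0 := fun j hj => absurd hj (Nat.not_lt_zero _)
  have g1 : Good (sig red pt) cl 1 := by
    have h := chkG_sound (sig red pt) cl 6 _ (fun n hn => ap_sound red 5 hv td1 pt hpt htd1 n hn) apl 0 g0 hA
    have e : apl.length = 1 := by decide +kernel
    rw [e] at h; exact h
  have g2 : Good (sig red pt) cl 2 := by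
    have h := chkG_sound (sig red pt) cl 3 _ (fun n hn => l3_sound red td4 td12 td28 pt 4 12 28 hpt htd4 htd12 htd28 (P18.forb red hv) n hn) s0 1 g1 hs0
    have e : s0.length = 1 := by decide +kernel
    rw [e] at h; exact h
  have g3 : Good (sig red pt) cl 3 := by
    have h := chkG_sound (sig red pt) cl 3 _ (fun n hn => l3_sound red td4 td12 td16 pt 4 12 16 hpt htd4 htd12 htd16 (P20.forb red hv) n hn) s1 2 g2 hs1
    have e : s1.length = 1 := by decide +kernel
    rw [e] at h; exact h
  have g4 : Good (sig red pt) cl 4 := by
    have h := chkG_sound (sig red pt) cl 3 _ (fun n hn => l3_sound red td21 td12 td3 pt 21 12 3 hpt htd21 htd12 htd3 (P50.forb red hv) n hn) s2 3 g3 hs2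
    have e : s2.length = 1 := by decide +kernel
    rw [e] at h; exact h
  have g5 : Good (sig red pt) cl 5 := by
    have h := chkG_sound (sig red pt) cl 3 _ (fun n hn => l3_sound red td7 td37 td12 pt 7 37 12 hpt htd7 htd37 htd12 (P54.forb red hv) n hn) s3 4 g4 hs3
    have e : s3.length = 1 := by decide +kernel
    rw [e] at h; exact h
  have g6 : Good (sig red pt) cl 6 := by
    have h := chk_sound (sig red pt) cl nb 9 hnb c0 4 g5 t0
    have e : c0.length = 1 := by decide +kernel
    rw [e] at h; exact h
  exact final3 (g6 5 (by norm_num)) (by decide +kernel)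

theorem forb : ∀ red : ℂ → Prop, Valid 6 red → Forb3 red 7 7 12 :=
  forb3_of 6 td7 td7 td12 pt 7 7 12 (by norm_num) hpt htd7 htd7 htd12 (by decide +kernel)
    (by decide +kernel) (by decide +kernel) fin

end

end APL.P56

namespace APL.P57

noncomputable section

theorem fin (red : ℂ → Prop) (hv : Valid 6 red) : ¬ (sig red pt 0 ∧ sig red pt 1 ∧ sig red pt 2) := by
  have hnb : NbOK (sig red pt) nb 9 := by
    intro y hy a ha
    exact chkN_sound red 6 hv nb td1 pt hpt htd1 nbl 0 hN y (Nat.zero_le _) (by
      have : nbl.length = 9 := by decide +kernel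
      omega) a ha
  have g0 : Good (sig red pt) cl 0 := fun j hj => absurd hj (Nat.not_lt_zero _)
  have g1 : Good (sig red pt) cl 1 := by
    have h := chkG_sound (sig red pt) cl 6 _ (fun n hn => ap_sound red 5 hv td1 pt hpt htd1 n hn) apl 0 g0 hA
    have e : apl.length = 1 := by decide +kernel
    rw [e] at h; exact h
  have g2 : Good (sig red pt) cl 2 := by
    have h := chkG_sound (sig red pt) cl 3 _ (fun n hn => l3_sound red td9 td3 td12 pt 9 3 12 hpt htd9 htd3 htd12 (P2.forb red hv) n hn) s0 1 g1 hs0
    have e : s0.length = 1 := by decide +kernel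
    rw [e] at h; exact h
  have g3 : Good (sig red pt) cl 3 := by
    have h := chkG_sound (sig red pt) cl 3 _ (fun n hn => l3_sound red td4 td7 td19 pt 4 7 19 hpt htd4 htd7 htd19 (P4.forb red hv) n hn) s1 2 g2 hs1
    have e : s1.length = 1 := by decide +kernel
    rw [e] at h; exact h
  have g4 : Good (sig red pt) cl 4 := by
    have h := chkG_sound (sig red pt) cl 3 _ (fun n hn => l3_sound red td9 td12 td21 pt 9 12 21 hpt htd9 htd12 htd21 (P6.forb red hv) n hn) s2 3 g3 hs2
    have e : s2.length = 1 := by decide +kernel
    rw [e] at h; exact h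
  have g5 : Good (sig red pt) cl 5 := by
    have h := chkG_sound (sig red pt) cl 3 _ (fun n hn => l3_sound red td31 td13 td12 pt 31 13 12 hpt htd31 htd13 htd12 (P13.forb red hv) n hn) s3 4 g4 hs3
    have e : s3.length = 1 := by decide +kernel
    rw [e] at h; exact h
  have g6 : Good (sig red pt) cl 6 := by
    have h := chkG_sound (sig red pt) cl 3 _ (fun n hn => l3_sound red td7 td7 td12 pt 7 7 12 hpt htd7 htd7 htd12 (P56.forb red hv) n hn) s4 5 g5 hs4
    have e : s4.length = 1 := by decide +kernel
    rw [e] at h; exact h
  have g7 : Good (sig red pt) cl 7 := by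
    have h := chk_sound (sig red pt) cl nb 9 hnb c0 5 g6 t0
    have e : c0.length = 1 := by decide +kernel
    rw [e] at h; exact h
  exact final3 (g7 6 (by norm_num)) (by decide +kernel)

theorem forb : ∀ red : ℂ → Prop, Valid 6 red → Forb3 red 13 12 19 :=
  forb3_of 6 td13 td12 td19 pt 13 12 19 (by norm_num) hpt htd13 htd12 htd19 (by decide +kernel)
    (by decide +kernel) (by decide +kernel) fin

end

end APL.P57

namespace APL.P58

noncomputable section

theorem fin (red : ℂ → Prop) (hv : Valid 6 red) : ¬ (sig red pt 0 ∧ sig red pt 1 ∧ sig red pt 2) := by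
  have hnb : NbOK (sig red pt) nb 9 := by
    intro y hy a ha
    exact chkN_sound red 6 hv nb td1 pt hpt htd1 nbl 0 hN y (Nat.zero_le _) (by
      have : nbl.length = 9 := by decide +kernel
      omega) a ha
  have g0 : Good (sig red pt) cl 0 := fun j hj => absurd hj (Nat.not_lt_zero _)
  have g1 : Good (sig red pt) cl 1 := by
    have h := chkG_sound (sig red pt) cl 6 _ (fun n hn => ap_sound red 5 hv td1 pt hpt htd1 n hn) apl 0 g0 hA
    have e : apl.length = 1 := by decide +kernel
    rw [e] at h; exact h
  have g2 : Good (sig red pt) cl 3 := by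
    have h := chkG_sound (sig red pt) cl 3 _ (fun n hn => l3_sound red td4 td7 td19 pt 4 7 19 hpt htd4 htd7 htd19 (P4.forb red hv) n hn) s0 1 g1 hs0
    have e : s0.length = 2 := by decide +kernel
    rw [e] at h; exact h
  have g3 : Good (sig red pt) cl 4 := by
    have h := chkG_sound (sig red pt) cl 3 _ (fun n hn => l3_sound red td4 td7 td9 pt 4 7 9 hpt htd4 htd7 htd9 (P36.forb red hv) n hn) s1 3 g2 hs1
    have e : s1.length = 1 := by decide +kernel
    rw [e] at h; exact h
  have g4 : Good (sig red pt) cl 5 := by
    have h := chkG_sound (sig red pt) cl 3 _ (fun n hn => l3_sound red td9 td7 td19 pt 9 7 19 hpt htd9 htd7 htd19 (P38.forb red hv) n hn) s2 4 g3 hs2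
    have e : s2.length = 1 := by decide +kernel
    rw [e] at h; exact h
  have g5 : Good (sig red pt) cl 6 := by
    have h := chkG_sound (sig red pt) cl 3 _ (fun n hn => l3_sound red td21 td12 td3 pt 21 12 3 hpt htd21 htd12 htd3 (P50.forb red hv) n hn) s3 5 g4 hs3
    have e : s3.length = 1 := by decide +kernel
    rw [e] at h; exact h
  have g6 : Good (sig red pt) cl 7 := by
    have h := chkG_sound (sig red pt) cl 3 _ (fun n hn => l3_sound red td7 td7 td12 pt 7 7 12 hpt htd7 htd7 htd12 (P56.forb red hv) n hn) s4 6 g5 hs4
    have e : s4.length = 1 := by decide +kernel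
    rw [e] at h; exact h
  have g7 : Good (sig red pt) cl 8 := by
    have h := chk_sound (sig red pt) cl nb 9 hnb c0 6 g6 t0
    have e : c0.length = 1 := by decide +kernel
    rw [e] at h; exact h
  exact final3 (g7 7 (by norm_num)) (by decide +kernel)

theorem forb : ∀ red : ℂ → Prop, Valid 6 red → Forb3 red 21 7 19 :=
  forb3_of 6 td21 td7 td19 pt 21 7 19 (by norm_num) hpt htd21 htd7 htd19 (by decide +kernel)
    (by decide +kernel) (by decide +kernel) fin

end

end APL.P58

namespace APL.P59

noncomputable section

theorem fin (red : ℂ → Prop) (hv : Valid 6 red) : ¬ (sig red pt 0 ∧ sig red pt 1 ∧ sig red pt 2) := by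
  have hnb : NbOK (sig red pt) nb 9 := by
    intro y hy a ha
    exact chkN_sound red 6 hv nb td1 pt hpt htd1 nbl 0 hN y (Nat.zero_le _) (by
      have : nbl.length = 9 := by decide +kernel
      omega) a ha
  have g0 : Good (sig red pt) cl 0 := fun j hj => absurd hj (Nat.not_lt_zero _)
  have g1 : Good (sig red pt) cl 1 := by
    have h := chkG_sound (sig red pt) cl 6 _ (fun n hn => ap_sound red 5 hv td1 pt hpt htd1 n hn) apl 0 g0 hA
    have e : apl.length = 1 := by decide +kernel
    rw [e] at h; exact h
  have g2 : Good (sig red pt) cl 2 := by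
    have h := chkG_sound (sig red pt) cl 3 _ (fun n hn => l3_sound red td9 td3 td12 pt 9 3 12 hpt htd9 htd3 htd12 (P2.forb red hv) n hn) s0 1 g1 hs0
    have e : s0.length = 1 := by decide +kernel
    rw [e] at h; exact h
  have g3 : Good (sig red pt) cl 3 := by
    have h := chkG_sound (sig red pt) cl 3 _ (fun n hn => l3_sound red td4 td4 td12 pt 4 4 12 hpt htd4 htd4 htd12 (P19.forb red hv) n hn) s1 2 g2 hs1
    have e : s1.length = 1 := by decide +kernel
    rw [e] at h; exact h
  have g4 : Good (sig red pt) cl 4 := by
    have h := chkG_sound (sig red pt) cl 3 _ (fun n hn => l3_sound red td4 td12 td16 pt 4 12 16 hpt htd4 htd12 htd16 (P20.forb red hv) n hn) s2 3 g3 hs2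
    have e : s2.length = 1 := by decide +kernel
    rw [e] at h; exact h
  have g5 : Good (sig red pt) cl 5 := by
    have h := chkG_sound (sig red pt) cl 3 _ (fun n hn => l3_sound red td9 td19 td25 pt 9 19 25 hpt htd9 htd19 htd25 (P28.forb red hv) n hn) s3 4 g4 hs3
    have e : s3.length = 1 := by decide +kernel
    rw [e] at h; exact h
  have g6 : Good (sig red pt) cl 6 := by
    have h := chkG_sound (sig red pt) cl 3 _ (fun n hn => l3_sound red td13 td12 td19 pt 13 12 19 hpt htd13 htd12 htd19 (P57.forb red hv) n hn) s4 5 g5 hs4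
    have e : s4.length = 1 := by decide +kernel
    rw [e] at h; exact h
  have g7 : Good (sig red pt) cl 7 := by
    have h := chk_sound (sig red pt) cl nb 9 hnb c0 5 g6 t0
    have e : c0.length = 1 := by decide +kernel
    rw [e] at h; exact h
  exact final3 (g7 6 (by norm_num)) (by decide +kernel)

theorem forb : ∀ red : ℂ → Prop, Valid 6 red → Forb3 red 19 12 19 :=
  forb3_of 6 td19 td12 td19 pt 19 12 19 (by norm_num) hpt htd19 htd12 htd19 (by decide +kernel)
    (by decide +kernel) (by decide +kernel) fin

end

end APL.P59

namespace APL.P61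

noncomputable section

theorem fin (red : ℂ → Prop) (hv : Valid 6 red) : ¬ (sig red pt 0 ∧ sig red pt 1 ∧ sig red pt 2) := by
  have hnb : NbOK (sig red pt) nb 9 := by
    intro y hy a ha
    exact chkN_sound red 6 hv nb td1 pt hpt htd1 nbl 0 hN y (Nat.zero_le _) (by
      have : nbl.length = 9 := by decide +kernel
      omega) a ha
  have g0 : Good (sig red pt) cl 0 := fun j hj => absurd hj (Nat.not_lt_zero _)
  have g1 : Good (sig red pt) cl 1 := by
    have h := chkG_sound (sig red pt) cl 6 _ (fun n hn => ap_sound red 5 hv td1 pt hpt htd1 n hn) apl 0 g0 hA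
    have e : apl.length = 1 := by decide +kernel
    rw [e] at h; exact h
  have g2 : Good (sig red pt) cl 2 := by
    have h := chkG_sound (sig red pt) cl 3 _ (fun n hn => l3_sound red td16 td7 td27 pt 16 7 27 hpt htd16 htd7 htd27 (P42.forb red hv) n hn) s0 1 g1 hs0
    have e : s0.length = 1 := by decide +kernel
    rw [e] at h; exact h
  have g3 : Good (sig red pt) cl 3 := by
    have h := chkG_sound (sig red pt) cl 3 _ (fun n hn => l3_sound red td21 td7 td19 pt 21 7 19 hpt htd21 htd7 htd19 (P58.forb red hv) n hn) s1 2 g2 hs1
    have e : s1.length = 1 := by decide +kernel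
    rw [e] at h; exact h
  have g4 : Good (sig red pt) cl 4 := by
    have h := chk_sound (sig red pt) cl nb 9 hnb c0 2 g3 t0
    have e : c0.length = 1 := by decide +kernel
    rw [e] at h; exact h
  exact final3 (g4 3 (by norm_num)) (by decide +kernel)

theorem forb : ∀ red : ℂ → Prop, Valid 6 red → Forb3 red 19 19 27 :=
  forb3_of 6 td19 td19 td27 pt 19 19 27 (by norm_num) hpt htd19 htd19 htd27 (by decide +kernel)
    (by decide +kernel) (by decide +kernel) fin

end

end APL.P61

namespace APL.P62

noncomputable section

theorem fin (red : ℂ → Prop) (hv : Valid 6 red) : ¬ (sig red pt 0 ∧ sig red pt 1 ∧ sig red pt 2) := by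
  have hnb : NbOK (sig red pt) nb 9 := by
    intro y hy a ha
    exact chkN_sound red 6 hv nb td1 pt hpt htd1 nbl 0 hN y (Nat.zero_le _) (by
      have : nbl.length = 9 := by decide +kernel
      omega) a ha
  have g0 : Good (sig red pt) cl 0 := fun j hj => absurd hj (Nat.not_lt_zero _)
  have g1 : Good (sig red pt) cl 1 := by
    have h := chkG_sound (sig red pt) cl 6 _ (fun n hn => ap_sound red 5 hv td1 pt hpt htd1 n hn) apl 0 g0 hA
    have e : apl.length = 1 := by decide +kernel
    rw [e] at h; exact h
  have g2 : Good (sig red pt) cl 2 := by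
    have h := chkG_sound (sig red pt) cl 3 _ (fun n hn => l3_sound red td9 td9 td27 pt 9 9 27 hpt htd9 htd9 htd27 (P41.forb red hv) n hn) s0 1 g1 hs0
    have e : s0.length = 1 := by decide +kernel
    rw [e] at h; exact h
  have g3 : Good (sig red pt) cl 3 := by
    have h := chkG_sound (sig red pt) cl 3 _ (fun n hn => l3_sound red td9 td13 td37 pt 9 13 37 hpt htd9 htd13 htd37 (P46.forb red hv) n hn) s1 2 g2 hs1
    have e : s1.length = 1 := by decide +kernel
    rw [e] at h; exact h
  have g4 : Good (sig red pt) cl 5 := by
    have h := chkG_sound (sig red pt) cl 3 _ (fun n hn => l3_sound red td7 td27 td7 pt 7 27 7 hpt htd7 htd27 htd7 (P51.forb red hv) n hn) s2 3 g3 hs2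
    have e : s2.length = 2 := by decide +kernel
    rw [e] at h; exact h
  have g5 : Good (sig red pt) cl 6 := by
    have h := chkG_sound (sig red pt) cl 3 _ (fun n hn => l3_sound red td27 td27 td27 pt 27 27 27 hpt htd27 htd27 htd27 (P52.forb red hv) n hn) s3 5 g4 hs3
    have e : s3.length = 1 := by decide +kernel
    rw [e] at h; exact h
  have g6 : Good (sig red pt) cl 7 := by
    have h := chkG_sound (sig red pt) cl 3 _ (fun n hn => l3_sound red td19 td19 td27 pt 19 19 27 hpt htd19 htd19 htd27 (P61.forb red hv) n hn) s4 6 g5 hs4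
    have e : s4.length = 1 := by decide +kernel
    rw [e] at h; exact h
  have g7 : Good (sig red pt) cl 8 := by
    have h := chk_sound (sig red pt) cl nb 9 hnb c0 6 g6 t0
    have e : c0.length = 1 := by decide +kernel
    rw [e] at h; exact h
  exact final3 (g7 7 (by norm_num)) (by decide +kernel)

theorem forb : ∀ red : ℂ → Prop, Valid 6 red → Forb3 red 37 27 37 :=
  forb3_of 6 td37 td27 td37 pt 37 27 37 (by norm_num) hpt htd37 htd27 htd37 (by decide +kernel)
    (by decide +kernel) (by decide +kernel) fin

end

end APL.P62

namespace APL.P63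

noncomputable section

theorem fin (red : ℂ → Prop) (hv : Valid 6 red) : ¬ (sig red pt 0 ∧ sig red pt 1 ∧ sig red pt 2) := by
  have hnb : NbOK (sig red pt) nb 218 := by
    intro y hy a ha
    exact chkN_sound red 6 hv nb td1 pt hpt htd1 nbl 0 hN y (Nat.zero_le _) (by
      have : nbl.length = 218 := by decide +kernel
      omega) a ha
  have g0 : Good (sig red pt) cl 0 := fun j hj => absurd hj (Nat.not_lt_zero _)
  have g1 : Good (sig red pt) cl 48 := by
    have h := chkG_sound (sig red pt) cl 6 _ (fun n hn => ap_sound red 5 hv td1 pt hpt htd1 n hn) apl 0 g0 hA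
    have e : apl.length = 48 := by decide +kernel
    rw [e] at h; exact h
  have g2 : Good (sig red pt) cl 49 := by
    have h := chkG_sound (sig red pt) cl 3 _ (fun n hn => l3_sound red td12 td12 td12 pt 12 12 12 hpt htd12 htd12 htd12 (P0.forb red hv) n hn) s0 48 g1 hs0
    have e : s0.length = 1 := by decide +kernel
    rw [e] at h; exact h
  have g3 : Good (sig red pt) cl 50 := by
    have h := chkG_sound (sig red pt) cl 3 _ (fun n hn => l3_sound red td9 td3 td12 pt 9 3 12 hpt htd9 htd3 htd12 (P2.forb red hv) n hn) s1 49 g2 hs1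
    have e : s1.length = 1 := by decide +kernel
    rw [e] at h; exact h
  have g4 : Good (sig red pt) cl 54 := by
    have h := chkG_sound (sig red pt) cl 3 _ (fun n hn => l3_sound red td4 td7 td19 pt 4 7 19 hpt htd4 htd7 htd19 (P4.forb red hv) n hn) s2 50 g3 hs2
    have e : s2.length = 4 := by decide +kernel
    rw [e] at h; exact h
  have g5 : Good (sig red pt) cl 55 := by
    have h := chkG_sound (sig red pt) cl 3 _ (fun n hn => l3_sound red td9 td19 td31 pt 9 19 31 hpt htd9 htd19 htd31 (P9.forb red hv) n hn) s3 54 g4 hs3
    have e : s3.length = 1 := by decide +kernel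
    rw [e] at h; exact h
  have g6 : Good (sig red pt) cl 56 := by
    have h := chkG_sound (sig red pt) cl 3 _ (fun n hn => l3_sound red td31 td37 td7 pt 31 37 7 hpt htd31 htd37 htd7 (P14.forb red hv) n hn) s4 55 g5 hs4
    have e : s4.length = 1 := by decide +kernel
    rw [e] at h; exact h
  have g7 : Good (sig red pt) cl 57 := by
    have h := chkG_sound (sig red pt) cl 3 _ (fun n hn => l3_sound red td31 td3 td31 pt 31 3 31 hpt htd31 htd3 htd31 (P16.forb red hv) n hn) s5 56 g6 hs5
    have e : s5.length = 1 := by decide +kernel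
    rw [e] at h; exact h
  have g8 : Good (sig red pt) cl 58 := by
    have h := chkG_sound (sig red pt) cl 3 _ (fun n hn => l3_sound red td31 td19 td7 pt 31 19 7 hpt htd31 htd19 htd7 (P17.forb red hv) n hn) s6 57 g7 hs6
    have e : s6.length = 1 := by decide +kernel
    rw [e] at h; exact h
  have g9 : Good (sig red pt) cl 59 := by
    have h := chkG_sound (sig red pt) cl 3 _ (fun n hn => l3_sound red td4 td12 td28 pt 4 12 28 hpt htd4 htd12 htd28 (P18.forb red hv) n hn) s7 58 g8 hs7
    have e : s7.length = 1 := by decide +kernel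
    rw [e] at h; exact h
  have g10 : Good (sig red pt) cl 60 := by
    have h := chkG_sound (sig red pt) cl 3 _ (fun n hn => l3_sound red td31 td19 td37 pt 31 19 37 hpt htd31 htd19 htd37 (P24.forb red hv) n hn) s8 59 g9 hs8
    have e : s8.length = 1 := by decide +kernel
    rw [e] at h; exact h
  have g11 : Good (sig red pt) cl 62 := by
    have h := chkG_sound (sig red pt) cl 3 _ (fun n hn => l3_sound red td16 td3 td31 pt 16 3 31 hpt htd16 htd3 htd31 (P27.forb red hv) n hn) s9 60 g10 hs9
    have e : s9.length = 2 := by decide +kernel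
    rw [e] at h; exact h
  have g12 : Good (sig red pt) cl 64 := by
    have h := chkG_sound (sig red pt) cl 3 _ (fun n hn => l3_sound red td9 td19 td25 pt 9 19 25 hpt htd9 htd19 htd25 (P28.forb red hv) n hn) s10 62 g11 hs10
    have e : s10.length = 2 := by decide +kernel
    rw [e] at h; exact h
  have g13 : Good (sig red pt) cl 67 := by
    have h := chkG_sound (sig red pt) cl 3 _ (fun n hn => l3_sound red td31 td19 td3 pt 31 19 3 hpt htd31 htd19 htd3 (P31.forb red hv) n hn) s11 64 g12 hs11
    have e : s11.length = 3 := by decide +kernel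
    rw [e] at h; exact h
  have g14 : Good (sig red pt) cl 69 := by
    have h := chkG_sound (sig red pt) cl 3 _ (fun n hn => l3_sound red td4 td9 td19 pt 4 9 19 hpt htd4 htd9 htd19 (P34.forb red hv) n hn) s12 67 g13 hs12
    have e : s12.length = 2 := by decide +kernel
    rw [e] at h; exact h
  have g15 : Good (sig red pt) cl 76 := by
    have h := chkG_sound (sig red pt) cl 3 _ (fun n hn => l3_sound red td9 td3 td3 pt 9 3 3 hpt htd9 htd3 htd3 (P35.forb red hv) n hn) s13 69 g14 hs13
    have e : s13.length = 7 := by decide +kernel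
    rw [e] at h; exact h
  have g16 : Good (sig red pt) cl 77 := by
    have h := chkG_sound (sig red pt) cl 3 _ (fun n hn => l3_sound red td9 td7 td13 pt 9 7 13 hpt htd9 htd7 htd13 (P37.forb red hv) n hn) s14 76 g15 hs14
    have e : s14.length = 1 := by decide +kernel
    rw [e] at h; exact h
  have g17 : Good (sig red pt) cl 78 := by
    have h := chkG_sound (sig red pt) cl 3 _ (fun n hn => l3_sound red td9 td16 td37 pt 9 16 37 hpt htd9 htd16 htd37 (P45.forb red hv) n hn) s15 77 g16 hs15
    have e : s15.length = 1 := by decide +kernel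
    rw [e] at h; exact h
  have g18 : Good (sig red pt) cl 83 := by
    have h := chkG_sound (sig red pt) cl 3 _ (fun n hn => l3_sound red td21 td12 td3 pt 21 12 3 hpt htd21 htd12 htd3 (P50.forb red hv) n hn) s16 78 g17 hs16
    have e : s16.length = 5 := by decide +kernel
    rw [e] at h; exact h
  have g19 : Good (sig red pt) cl 84 := by
    have h := chkG_sound (sig red pt) cl 3 _ (fun n hn => l3_sound red td7 td27 td7 pt 7 27 7 hpt htd7 htd27 htd7 (P51.forb red hv) n hn) s17 83 g18 hs17
    have e : s17.length = 1 := by decide +kernel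
    rw [e] at h; exact h
  have g20 : Good (sig red pt) cl 85 := by
    have h := chkG_sound (sig red pt) cl 3 _ (fun n hn => l3_sound red td9 td3 td21 pt 9 3 21 hpt htd9 htd3 htd21 (P53.forb red hv) n hn) s18 84 g19 hs18
    have e : s18.length = 1 := by decide +kernel
    rw [e] at h; exact h
  have g21 : Good (sig red pt) cl 88 := by
    have h := chkG_sound (sig red pt) cl 3 _ (fun n hn => l3_sound red td7 td37 td12 pt 7 37 12 hpt htd7 htd37 htd12 (P54.forb red hv) n hn) s19 85 g20 hs19
    have e : s19.length = 3 := by decide +kernel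
    rw [e] at h; exact h
  have g22 : Good (sig red pt) cl 167 := by
    have h := chkG_sound (sig red pt) cl 2 _ (fun n hn => l2_sound red td9 pt 9 hpt htd9 (P55.forb red hv) n hn) s20 88 g21 hs20
    have e : s20.length = 79 := by decide +kernel
    rw [e] at h; exact h
  have g23 : Good (sig red pt) cl 170 := by
    have h := chkG_sound (sig red pt) cl 3 _ (fun n hn => l3_sound red td13 td12 td19 pt 13 12 19 hpt htd13 htd12 htd19 (P57.forb red hv) n hn) s21 167 g22 hs21
    have e : s21.length = 3 := by decide +kernel
    rw [e] at h; exact h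
  have g24 : Good (sig red pt) cl 172 := by
    have h := chkG_sound (sig red pt) cl 3 _ (fun n hn => l3_sound red td21 td7 td19 pt 21 7 19 hpt htd21 htd7 htd19 (P58.forb red hv) n hn) s22 170 g23 hs22
    have e : s22.length = 2 := by decide +kernel
    rw [e] at h; exact h
  have g25 : Good (sig red pt) cl 174 := by
    have h := chkG_sound (sig red pt) cl 3 _ (fun n hn => l3_sound red td19 td19 td27 pt 19 19 27 hpt htd19 htd19 htd27 (P61.forb red hv) n hn) s23 172 g24 hs23
    have e : s23.length = 2 := by decide +kernel
    rw [e] at h; exact h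
  have g26 : Good (sig red pt) cl 176 := by
    have h := chkG_sound (sig red pt) cl 3 _ (fun n hn => l3_sound red td37 td27 td37 pt 37 27 37 hpt htd37 htd27 htd37 (P62.forb red hv) n hn) s24 174 g25 hs24
    have e : s24.length = 2 := by decide +kernel
    rw [e] at h; exact h
  have g27 : Good (sig red pt) cl 191 := by
    have h := chk_sound (sig red pt) cl nb 218 hnb c0 175 g26 t0
    have e : c0.length = 15 := by decide +kernel
    rw [e] at h; exact h
  exact final3 (g27 190 (by norm_num)) (by decide +kernel)

theorem forb : ∀ red : ℂ → Prop, Valid 6 red → Forb3 red 3 37 19 :=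
  forb3_of 6 td3 td37 td19 pt 3 37 19 (by norm_num) hpt htd3 htd37 htd19 (by decide +kernel)
    (by decide +kernel) (by decide +kernel) fin

end

end APL.P63

namespace APL.P64

noncomputable section

theorem fin (red : ℂ → Prop) (hv : Valid 6 red) : ¬ (sig red pt 0 ∧ sig red pt 1 ∧ sig red pt 2) := by
  have hnb : NbOK (sig red pt) nb 19 := by
    intro y hy a ha
    exact chkN_sound red 6 hv nb td1 pt hpt htd1 nbl 0 hN y (Nat.zero_le _) (by
      have : nbl.length = 19 := by decide +kernel
      omega) a ha
  have g0 : Good (sig red pt) cl 0 := fun j hj => absurd hj (Nat.not_lt_zero _)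
  have g1 : Good (sig red pt) cl 3 := by
    have h := chkG_sound (sig red pt) cl 6 _ (fun n hn => ap_sound red 5 hv td1 pt hpt htd1 n hn) apl 0 g0 hA
    have e : apl.length = 3 := by decide +kernel
    rw [e] at h; exact h
  have g2 : Good (sig red pt) cl 4 := by
    have h := chkG_sound (sig red pt) cl 3 _ (fun n hn => l3_sound red td16 td7 td7 pt 16 7 7 hpt htd16 htd7 htd7 (P5.forb red hv) n hn) s0 3 g1 hs0
    have e : s0.length = 1 := by decide +kernel
    rw [e] at h; exact h
  have g3 : Good (sig red pt) cl 5 := by
    have h := chkG_sound (sig red pt) cl 3 _ (fun n hn => l3_sound red td9 td12 td21 pt 9 12 21 hpt htd9 htd12 htd21 (P6.forb red hv) n hn) s1 4 g2 hs1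
    have e : s1.length = 1 := by decide +kernel
    rw [e] at h; exact h
  have g4 : Good (sig red pt) cl 6 := by
    have h := chkG_sound (sig red pt) cl 3 _ (fun n hn => l3_sound red td21 td12 td27 pt 21 12 27 hpt htd21 htd12 htd27 (P11.forb red hv) n hn) s2 5 g3 hs2
    have e : s2.length = 1 := by decide +kernel
    rw [e] at h; exact h
  have g5 : Good (sig red pt) cl 7 := by
    have h := chkG_sound (sig red pt) cl 3 _ (fun n hn => l3_sound red td31 td13 td12 pt 31 13 12 hpt htd31 htd13 htd12 (P13.forb red hv) n hn) s3 6 g4 hs3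
    have e : s3.length = 1 := by decide +kernel
    rw [e] at h; exact h
  have g6 : Good (sig red pt) cl 8 := by
    have h := chkG_sound (sig red pt) cl 3 _ (fun n hn => l3_sound red td25 td21 td31 pt 25 21 31 hpt htd25 htd21 htd31 (P15.forb red hv) n hn) s4 7 g5 hs4
    have e : s4.length = 1 := by decide +kernel
    rw [e] at h; exact h
  have g7 : Good (sig red pt) cl 9 := by
    have h := chkG_sound (sig red pt) cl 3 _ (fun n hn => l3_sound red td31 td3 td31 pt 31 3 31 hpt htd31 htd3 htd31 (P16.forb red hv) n hn) s5 8 g6 hs5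
    have e : s5.length = 1 := by decide +kernel
    rw [e] at h; exact h
  have g8 : Good (sig red pt) cl 10 := by
    have h := chkG_sound (sig red pt) cl 3 _ (fun n hn => l3_sound red td31 td7 td28 pt 31 7 28 hpt htd31 htd7 htd28 (P30.forb red hv) n hn) s6 9 g7 hs6
    have e : s6.length = 1 := by decide +kernel
    rw [e] at h; exact h
  have g9 : Good (sig red pt) cl 11 := by
    have h := chkG_sound (sig red pt) cl 3 _ (fun n hn => l3_sound red td31 td19 td3 pt 31 19 3 hpt htd31 htd19 htd3 (P31.forb red hv) n hn) s7 10 g8 hs7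
    have e : s7.length = 1 := by decide +kernel
    rw [e] at h; exact h
  have g10 : Good (sig red pt) cl 12 := by
    have h := chkG_sound (sig red pt) cl 3 _ (fun n hn => l3_sound red td9 td3 td21 pt 9 3 21 hpt htd9 htd3 htd21 (P53.forb red hv) n hn) s8 11 g9 hs8
    have e : s8.length = 1 := by decide +kernel
    rw [e] at h; exact h
  have g11 : Good (sig red pt) cl 13 := by
    have h := chkG_sound (sig red pt) cl 3 _ (fun n hn => l3_sound red td21 td7 td19 pt 21 7 19 hpt htd21 htd7 htd19 (P58.forb red hv) n hn) s9 12 g10 hs9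
    have e : s9.length = 1 := by decide +kernel
    rw [e] at h; exact h
  have g12 : Good (sig red pt) cl 14 := by
    have h := chkG_sound (sig red pt) cl 3 _ (fun n hn => l3_sound red td3 td37 td19 pt 3 37 19 hpt htd3 htd37 htd19 (P63.forb red hv) n hn) s10 13 g11 hs10
    have e : s10.length = 1 := by decide +kernel
    rw [e] at h; exact h
  have g13 : Good (sig red pt) cl 15 := by
    have h := chk_sound (sig red pt) cl nb 19 hnb c0 13 g12 t0
    have e : c0.length = 1 := by decide +kernel
    rw [e] at h; exact h
  exact final3 (g13 14 (by norm_num)) (by decide +kernel)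

theorem forb : ∀ red : ℂ → Prop, Valid 6 red → Forb3 red 31 21 28 :=
  forb3_of 6 td31 td21 td28 pt 31 21 28 (by norm_num) hpt htd31 htd21 htd28 (by decide +kernel)
    (by decide +kernel) (by decide +kernel) fin

end

end APL.P64

namespace APL.P65

noncomputable section

theorem fin (red : ℂ → Prop) (hv : Valid 6 red) : ¬ (sig red pt 0 ∧ sig red pt 1 ∧ sig red pt 2) := by
  have hnb : NbOK (sig red pt) nb 14 := by
    intro y hy a ha
    exact chkN_sound red 6 hv nb td1 pt hpt htd1 nbl 0 hN y (Nat.zero_le _) (by
      have : nbl.length = 14 := by decide +kernel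
      omega) a ha
  have g0 : Good (sig red pt) cl 0 := fun j hj => absurd hj (Nat.not_lt_zero _)
  have g1 : Good (sig red pt) cl 2 := by
    have h := chkG_sound (sig red pt) cl 6 _ (fun n hn => ap_sound red 5 hv td1 pt hpt htd1 n hn) apl 0 g0 hA
    have e : apl.length = 2 := by decide +kernel
    rw [e] at h; exact h
  have g2 : Good (sig red pt) cl 3 := by
    have h := chkG_sound (sig red pt) cl 3 _ (fun n hn => l3_sound red td16 td7 td27 pt 16 7 27 hpt htd16 htd7 htd27 (P42.forb red hv) n hn) s0 2 g1 hs0
    have e : s0.length = 1 := by decide +kernel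
    rw [e] at h; exact h
  have g3 : Good (sig red pt) cl 4 := by
    have h := chkG_sound (sig red pt) cl 3 _ (fun n hn => l3_sound red td9 td21 td21 pt 9 21 21 hpt htd9 htd21 htd21 (P47.forb red hv) n hn) s1 3 g2 hs1
    have e : s1.length = 1 := by decide +kernel
    rw [e] at h; exact h
  have g4 : Good (sig red pt) cl 5 := by
    have h := chkG_sound (sig red pt) cl 3 _ (fun n hn => l3_sound red td21 td12 td3 pt 21 12 3 hpt htd21 htd12 htd3 (P50.forb red hv) n hn) s2 4 g3 hs2
    have e : s2.length = 1 := by decide +kernel
    rw [e] at h; exact h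
  have g5 : Good (sig red pt) cl 6 := by
    have h := chkG_sound (sig red pt) cl 3 _ (fun n hn => l3_sound red td9 td3 td21 pt 9 3 21 hpt htd9 htd3 htd21 (P53.forb red hv) n hn) s3 5 g4 hs3
    have e : s3.length = 1 := by decide +kernel
    rw [e] at h; exact h
  have g6 : Good (sig red pt) cl 7 := by
    have h := chkG_sound (sig red pt) cl 3 _ (fun n hn => l3_sound red td3 td37 td19 pt 3 37 19 hpt htd3 htd37 htd19 (P63.forb red hv) n hn) s4 6 g5 hs4
    have e : s4.length = 1 := by decide +kernel
    rw [e] at h; exact h
  have g7 : Good (sig red pt) cl 8 := by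
    have h := chk_sound (sig red pt) cl nb 14 hnb c0 6 g6 t0
    have e : c0.length = 1 := by decide +kernel
    rw [e] at h; exact h
  exact final3 (g7 7 (by norm_num)) (by decide +kernel)

theorem forb : ∀ red : ℂ → Prop, Valid 6 red → Forb3 red 16 21 25 :=
  forb3_of 6 td16 td21 td25 pt 16 21 25 (by norm_num) hpt htd16 htd21 htd25 (by decide +kernel)
    (by decide +kernel) (by decide +kernel) fin

end

end APL.P65

namespace APL.P66

noncomputable section

theorem fin (red : ℂ → Prop) (hv : Valid 6 red) : ¬ (sig red pt 0 ∧ sig red pt 1 ∧ sig red pt 2) := by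
  have hnb : NbOK (sig red pt) nb 15 := by
    intro y hy a ha
    exact chkN_sound red 6 hv nb td1 pt hpt htd1 nbl 0 hN y (Nat.zero_le _) (by
      have : nbl.length = 15 := by decide +kernel
      omega) a ha
  have g0 : Good (sig red pt) cl 0 := fun j hj => absurd hj (Nat.not_lt_zero _)
  have g1 : Good (sig red pt) cl 2 := by
    have h := chkG_sound (sig red pt) cl 6 _ (fun n hn => ap_sound red 5 hv td1 pt hpt htd1 n hn) apl 0 g0 hA
    have e : apl.length = 2 := by decide +kernel
    rw [e] at h; exact h
  have g2 : Good (sig red pt) cl 3 := by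
    have h := chkG_sound (sig red pt) cl 3 _ (fun n hn => l3_sound red td31 td12 td7 pt 31 12 7 hpt htd31 htd12 htd7 (P7.forb red hv) n hn) s0 2 g1 hs0
    have e : s0.length = 1 := by decide +kernel
    rw [e] at h; exact h
  have g3 : Good (sig red pt) cl 5 := by
    have h := chkG_sound (sig red pt) cl 3 _ (fun n hn => l3_sound red td31 td3 td31 pt 31 3 31 hpt htd31 htd3 htd31 (P16.forb red hv) n hn) s1 3 g2 hs1
    have e : s1.length = 2 := by decide +kernel
    rw [e] at h; exact h
  have g4 : Good (sig red pt) cl 6 := by
    have h := chkG_sound (sig red pt) cl 3 _ (fun n hn => l3_sound red td4 td27 td31 pt 4 27 31 hpt htd4 htd27 htd31 (P22.forb red hv) n hn) s2 5 g3 hs2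
    have e : s2.length = 1 := by decide +kernel
    rw [e] at h; exact h
  have g5 : Good (sig red pt) cl 7 := by
    have h := chkG_sound (sig red pt) cl 3 _ (fun n hn => l3_sound red td31 td7 td28 pt 31 7 28 hpt htd31 htd7 htd28 (P30.forb red hv) n hn) s3 6 g4 hs3
    have e : s3.length = 1 := by decide +kernel
    rw [e] at h; exact h
  have g6 : Good (sig red pt) cl 8 := by
    have h := chkG_sound (sig red pt) cl 3 _ (fun n hn => l3_sound red td31 td19 td3 pt 31 19 3 hpt htd31 htd19 htd3 (P31.forb red hv) n hn) s4 7 g5 hs4
    have e : s4.length = 1 := by decide +kernel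
    rw [e] at h; exact h
  have g7 : Good (sig red pt) cl 9 := by
    have h := chkG_sound (sig red pt) cl 3 _ (fun n hn => l3_sound red td9 td7 td13 pt 9 7 13 hpt htd9 htd7 htd13 (P37.forb red hv) n hn) s5 8 g6 hs5
    have e : s5.length = 1 := by decide +kernel
    rw [e] at h; exact h
  have g8 : Good (sig red pt) cl 10 := by
    have h := chkG_sound (sig red pt) cl 3 _ (fun n hn => l3_sound red td31 td21 td28 pt 31 21 28 hpt htd31 htd21 htd28 (P64.forb red hv) n hn) s6 9 g7 hs6
    have e : s6.length = 1 := by decide +kernel
    rw [e] at h; exact h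
  have g9 : Good (sig red pt) cl 11 := by
    have h := chk_sound (sig red pt) cl nb 15 hnb c0 9 g8 t0
    have e : c0.length = 1 := by decide +kernel
    rw [e] at h; exact h
  exact final3 (g9 10 (by norm_num)) (by decide +kernel)

theorem forb : ∀ red : ℂ → Prop, Valid 6 red → Forb3 red 31 7 13 :=
  forb3_of 6 td31 td7 td13 pt 31 7 13 (by norm_num) hpt htd31 htd7 htd13 (by decide +kernel)
    (by decide +kernel) (by decide +kernel) fin

end

end APL.P66

namespace APL.P67

noncomputable section

theorem fin (red : ℂ → Prop) (hv : Valid 6 red) : ¬ (sig red pt 0 ∧ sig red pt 1 ∧ sig red pt 2) := by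
  have hnb : NbOK (sig red pt) nb 20 := by
    intro y hy a ha
    exact chkN_sound red 6 hv nb td1 pt hpt htd1 nbl 0 hN y (Nat.zero_le _) (by
      have : nbl.length = 20 := by decide +kernel
      omega) a ha
  have g0 : Good (sig red pt) cl 0 := fun j hj => absurd hj (Nat.not_lt_zero _)
  have g1 : Good (sig red pt) cl 3 := by
    have h := chkG_sound (sig red pt) cl 6 _ (fun n hn => ap_sound red 5 hv td1 pt hpt htd1 n hn) apl 0 g0 hA
    have e : apl.length = 3 := by decide +kernel
    rw [e] at h; exact h
  have g2 : Good (sig red pt) cl 5 := by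
    have h := chkG_sound (sig red pt) cl 3 _ (fun n hn => l3_sound red td21 td12 td27 pt 21 12 27 hpt htd21 htd12 htd27 (P11.forb red hv) n hn) s0 3 g1 hs0
    have e : s0.length = 2 := by decide +kernel
    rw [e] at h; exact h
  have g3 : Good (sig red pt) cl 7 := by
    have h := chkG_sound (sig red pt) cl 3 _ (fun n hn => l3_sound red td4 td27 td31 pt 4 27 31 hpt htd4 htd27 htd31 (P22.forb red hv) n hn) s1 5 g2 hs1
    have e : s1.length = 2 := by decide +kernel
    rw [e] at h; exact h
  have g4 : Good (sig red pt) cl 8 := by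
    have h := chkG_sound (sig red pt) cl 3 _ (fun n hn => l3_sound red td9 td19 td25 pt 9 19 25 hpt htd9 htd19 htd25 (P28.forb red hv) n hn) s2 7 g3 hs2
    have e : s2.length = 1 := by decide +kernel
    rw [e] at h; exact h
  have g5 : Good (sig red pt) cl 9 := by
    have h := chkG_sound (sig red pt) cl 3 _ (fun n hn => l3_sound red td16 td7 td27 pt 16 7 27 hpt htd16 htd7 htd27 (P42.forb red hv) n hn) s3 8 g4 hs3
    have e : s3.length = 1 := by decide +kernel
    rw [e] at h; exact h
  have g6 : Good (sig red pt) cl 10 := by
    have h := chkG_sound (sig red pt) cl 3 _ (fun n hn => l3_sound red td9 td27 td36 pt 9 27 36 hpt htd9 htd27 htd36 (P48.forb red hv) n hn) s4 9 g5 hs4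
    have e : s4.length = 1 := by decide +kernel
    rw [e] at h; exact h
  have g7 : Good (sig red pt) cl 12 := by
    have h := chkG_sound (sig red pt) cl 3 _ (fun n hn => l3_sound red td28 td19 td27 pt 28 19 27 hpt htd28 htd19 htd27 (P49.forb red hv) n hn) s5 10 g6 hs5
    have e : s5.length = 2 := by decide +kernel
    rw [e] at h; exact h
  have g8 : Good (sig red pt) cl 13 := by
    have h := chkG_sound (sig red pt) cl 2 _ (fun n hn => l2_sound red td9 pt 9 hpt htd9 (P55.forb red hv) n hn) s6 12 g7 hs6
    have e : s6.length = 1 := by decide +kernel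
    rw [e] at h; exact h
  have g9 : Good (sig red pt) cl 14 := by
    have h := chkG_sound (sig red pt) cl 3 _ (fun n hn => l3_sound red td21 td7 td19 pt 21 7 19 hpt htd21 htd7 htd19 (P58.forb red hv) n hn) s7 13 g8 hs7
    have e : s7.length = 1 := by decide +kernel
    rw [e] at h; exact h
  have g10 : Good (sig red pt) cl 15 := by
    have h := chkG_sound (sig red pt) cl 3 _ (fun n hn => l3_sound red td19 td19 td27 pt 19 19 27 hpt htd19 htd19 htd27 (P61.forb red hv) n hn) s8 14 g9 hs8
    have e : s8.length = 1 := by decide +kernel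
    rw [e] at h; exact h
  have g11 : Good (sig red pt) cl 16 := by
    have h := chkG_sound (sig red pt) cl 3 _ (fun n hn => l3_sound red td16 td21 td25 pt 16 21 25 hpt htd16 htd21 htd25 (P65.forb red hv) n hn) s9 15 g10 hs9
    have e : s9.length = 1 := by decide +kernel
    rw [e] at h; exact h
  have g12 : Good (sig red pt) cl 17 := by
    have h := chk_sound (sig red pt) cl nb 20 hnb c0 15 g11 t0
    have e : c0.length = 1 := by decide +kernel
    rw [e] at h; exact h
  exact final3 (g12 16 (by norm_num)) (by decide +kernel)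

theorem forb : ∀ red : ℂ → Prop, Valid 6 red → Forb3 red 21 27 3 :=
  forb3_of 6 td21 td27 td3 pt 21 27 3 (by norm_num) hpt htd21 htd27 htd3 (by decide +kernel)
    (by decide +kernel) (by decide +kernel) fin

end

end APL.P67

namespace APL.P68

noncomputable section

theorem fin (red : ℂ → Prop) (hv : Valid 6 red) : ¬ (sig red pt 0 ∧ sig red pt 1 ∧ sig red pt 2) := by
  have hnb : NbOK (sig red pt) nb 9 := by
    intro y hy a ha
    exact chkN_sound red 6 hv nb td1 pt hpt htd1 nbl 0 hN y (Nat.zero_le _) (by
      have : nbl.length = 9 := by decide +kernel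
      omega) a ha
  have g0 : Good (sig red pt) cl 0 := fun j hj => absurd hj (Nat.not_lt_zero _)
  have g1 : Good (sig red pt) cl 1 := by
    have h := chkG_sound (sig red pt) cl 6 _ (fun n hn => ap_sound red 5 hv td1 pt hpt htd1 n hn) apl 0 g0 hA
    have e : apl.length = 1 := by decide +kernel
    rw [e] at h; exact h
  have g2 : Good (sig red pt) cl 2 := by
    have h := chkG_sound (sig red pt) cl 3 _ (fun n hn => l3_sound red td9 td19 td31 pt 9 19 31 hpt htd9 htd19 htd31 (P9.forb red hv) n hn) s0 1 g1 hs0
    have e : s0.length = 1 := by decide +kernel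
    rw [e] at h; exact h
  have g3 : Good (sig red pt) cl 3 := by
    have h := chkG_sound (sig red pt) cl 3 _ (fun n hn => l3_sound red td9 td7 td19 pt 9 7 19 hpt htd9 htd7 htd19 (P38.forb red hv) n hn) s1 2 g2 hs1
    have e : s1.length = 1 := by decide +kernel
    rw [e] at h; exact h
  have g4 : Good (sig red pt) cl 4 := by
    have h := chkG_sound (sig red pt) cl 3 _ (fun n hn => l3_sound red td9 td7 td28 pt 9 7 28 hpt htd9 htd7 htd28 (P40.forb red hv) n hn) s2 3 g3 hs2
    have e : s2.length = 1 := by decide +kernel
    rw [e] at h; exact h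
  have g5 : Good (sig red pt) cl 5 := by
    have h := chkG_sound (sig red pt) cl 3 _ (fun n hn => l3_sound red td9 td13 td28 pt 9 13 28 hpt htd9 htd13 htd28 (P43.forb red hv) n hn) s3 4 g4 hs3
    have e : s3.length = 1 := by decide +kernel
    rw [e] at h; exact h
  have g6 : Good (sig red pt) cl 6 := by
    have h := chkG_sound (sig red pt) cl 3 _ (fun n hn => l3_sound red td21 td7 td19 pt 21 7 19 hpt htd21 htd7 htd19 (P58.forb red hv) n hn) s4 5 g5 hs4
    have e : s4.length = 1 := by decide +kernel
    rw [e] at h; exact h
  have g7 : Good (sig red pt) cl 7 := by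
    have h := chkG_sound (sig red pt) cl 3 _ (fun n hn => l3_sound red td3 td37 td19 pt 3 37 19 hpt htd3 htd37 htd19 (P63.forb red hv) n hn) s5 6 g6 hs5
    have e : s5.length = 1 := by decide +kernel
    rw [e] at h; exact h
  have g8 : Good (sig red pt) cl 8 := by
    have h := chk_sound (sig red pt) cl nb 9 hnb c0 6 g7 t0
    have e : c0.length = 1 := by decide +kernel
    rw [e] at h; exact h
  exact final3 (g8 7 (by norm_num)) (by decide +kernel)

theorem forb : ∀ red : ℂ → Prop, Valid 6 red → Forb3 red 28 19 37 :=
  forb3_of 6 td28 td19 td37 pt 28 19 37 (by norm_num) hpt htd28 htd19 htd37 (by decide +kernel)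
    (by decide +kernel) (by decide +kernel) fin

end

end APL.P68

namespace APL.P69

noncomputable section

theorem fin (red : ℂ → Prop) (hv : Valid 6 red) : ¬ (sig red pt 0 ∧ sig red pt 1 ∧ sig red pt 2) := by
  have hnb : NbOK (sig red pt) nb 9 := by
    intro y hy a ha
    exact chkN_sound red 6 hv nb td1 pt hpt htd1 nbl 0 hN y (Nat.zero_le _) (by
      have : nbl.length = 9 := by decide +kernel
      omega) a ha
  have g0 : Good (sig red pt) cl 0 := fun j hj => absurd hj (Nat.not_lt_zero _)
  have g1 : Good (sig red pt) cl 1 := by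
    have h := chkG_sound (sig red pt) cl 6 _ (fun n hn => ap_sound red 5 hv td1 pt hpt htd1 n hn) apl 0 g0 hA
    have e : apl.length = 1 := by decide +kernel
    rw [e] at h; exact h
  have g2 : Good (sig red pt) cl 2 := by
    have h := chkG_sound (sig red pt) cl 3 _ (fun n hn => l3_sound red td16 td16 td16 pt 16 16 16 hpt htd16 htd16 htd16 (P8.forb red hv) n hn) s0 1 g1 hs0
    have e : s0.length = 1 := by decide +kernel
    rw [e] at h; exact h
  have g3 : Good (sig red pt) cl 3 := by
    have h := chkG_sound (sig red pt) cl 3 _ (fun n hn => l3_sound red td4 td12 td16 pt 4 12 16 hpt htd4 htd12 htd16 (P20.forb red hv) n hn) s1 2 g2 hs1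
    have e : s1.length = 1 := by decide +kernel
    rw [e] at h; exact h
  have g4 : Good (sig red pt) cl 4 := by
    have h := chkG_sound (sig red pt) cl 3 _ (fun n hn => l3_sound red td9 td7 td13 pt 9 7 13 hpt htd9 htd7 htd13 (P37.forb red hv) n hn) s2 3 g3 hs2
    have e : s2.length = 1 := by decide +kernel
    rw [e] at h; exact h
  have g5 : Good (sig red pt) cl 5 := by
    have h := chkG_sound (sig red pt) cl 3 _ (fun n hn => l3_sound red td16 td21 td25 pt 16 21 25 hpt htd16 htd21 htd25 (P65.forb red hv) n hn) s3 4 g4 hs3
    have e : s3.length = 1 := by decide +kernel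
    rw [e] at h; exact h
  have g6 : Good (sig red pt) cl 6 := by
    have h := chkG_sound (sig red pt) cl 3 _ (fun n hn => l3_sound red td28 td19 td37 pt 28 19 37 hpt htd28 htd19 htd37 (P68.forb red hv) n hn) s4 5 g5 hs4
    have e : s4.length = 1 := by decide +kernel
    rw [e] at h; exact h
  have g7 : Good (sig red pt) cl 7 := by
    have h := chk_sound (sig red pt) cl nb 9 hnb c0 5 g6 t0
    have e : c0.length = 1 := by decide +kernel
    rw [e] at h; exact h
  exact final3 (g7 6 (by norm_num)) (by decide +kernel)

theorem forb : ∀ red : ℂ → Prop, Valid 6 red → Forb3 red 16 13 37 :=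
  forb3_of 6 td16 td13 td37 pt 16 13 37 (by norm_num) hpt htd16 htd13 htd37 (by decide +kernel)
    (by decide +kernel) (by decide +kernel) fin

end

end APL.P69

namespace APL.P70

noncomputable section

theorem fin (red : ℂ → Prop) (hv : Valid 6 red) : ¬ (sig red pt 0 ∧ sig red pt 1 ∧ sig red pt 2) := by
  have hnb : NbOK (sig red pt) nb 9 := by
    intro y hy a ha
    exact chkN_sound red 6 hv nb td1 pt hpt htd1 nbl 0 hN y (Nat.zero_le _) (by
      have : nbl.length = 9 := by decide +kernel
      omega) a ha
  have g0 : Good (sig red pt) cl 0 := fun j hj => absurd hj (Nat.not_lt_zero _)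
  have g1 : Good (sig red pt) cl 1 := by
    have h := chkG_sound (sig red pt) cl 6 _ (fun n hn => ap_sound red 5 hv td1 pt hpt htd1 n hn) apl 0 g0 hA
    have e : apl.length = 1 := by decide +kernel
    rw [e] at h; exact h
  have g2 : Good (sig red pt) cl 2 := by
    have h := chkG_sound (sig red pt) cl 3 _ (fun n hn => l3_sound red td9 td19 td31 pt 9 19 31 hpt htd9 htd19 htd31 (P9.forb red hv) n hn) s0 1 g1 hs0
    have e : s0.length = 1 := by decide +kernel
    rw [e] at h; exact h
  have g3 : Good (sig red pt) cl 3 := by
    have h := chkG_sound (sig red pt) cl 3 _ (fun n hn => l3_sound red td9 td7 td31 pt 9 7 31 hpt htd9 htd7 htd31 (P26.forb red hv) n hn) s1 2 g2 hs1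
    have e : s1.length = 1 := by decide +kernel
    rw [e] at h; exact h
  have g4 : Good (sig red pt) cl 4 := by
    have h := chkG_sound (sig red pt) cl 3 _ (fun n hn => l3_sound red td9 td3 td21 pt 9 3 21 hpt htd9 htd3 htd21 (P53.forb red hv) n hn) s2 3 g3 hs2
    have e : s2.length = 1 := by decide +kernel
    rw [e] at h; exact h
  have g5 : Good (sig red pt) cl 5 := by
    have h := chkG_sound (sig red pt) cl 3 _ (fun n hn => l3_sound red td31 td7 td13 pt 31 7 13 hpt htd31 htd7 htd13 (P66.forb red hv) n hn) s3 4 g4 hs3
    have e : s3.length = 1 := by decide +kernel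
    rw [e] at h; exact h
  have g6 : Good (sig red pt) cl 6 := by
    have h := chk_sound (sig red pt) cl nb 9 hnb c0 4 g5 t0
    have e : c0.length = 1 := by decide +kernel
    rw [e] at h; exact h
  exact final3 (g6 5 (by norm_num)) (by decide +kernel)

theorem forb : ∀ red : ℂ → Prop, Valid 6 red → Forb3 red 4 21 31 :=
  forb3_of 6 td4 td21 td31 pt 4 21 31 (by norm_num) hpt htd4 htd21 htd31 (by decide +kernel)
    (by decide +kernel) (by decide +kernel) fin

end

end APL.P70

namespace APL.P71

noncomputable section

theorem fin (red : ℂ → Prop) (hv : Valid 6 red) : ¬ (sig red pt 0 ∧ sig red pt 1 ∧ sig red pt 2) := by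
  have hnb : NbOK (sig red pt) nb 18 := by
    intro y hy a ha
    exact chkN_sound red 6 hv nb td1 pt hpt htd1 nbl 0 hN y (Nat.zero_le _) (by
      have : nbl.length = 18 := by decide +kernel
      omega) a ha
  have g0 : Good (sig red pt) cl 0 := fun j hj => absurd hj (Nat.not_lt_zero _)
  have g1 : Good (sig red pt) cl 3 := by
    have h := chkG_sound (sig red pt) cl 6 _ (fun n hn => ap_sound red 5 hv td1 pt hpt htd1 n hn) apl 0 g0 hA
    have e : apl.length = 3 := by decide +kernel
    rw [e] at h; exact h
  have g2 : Good (sig red pt) cl 4 := by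
    have h := chkG_sound (sig red pt) cl 3 _ (fun n hn => l3_sound red td4 td7 td19 pt 4 7 19 hpt htd4 htd7 htd19 (P4.forb red hv) n hn) s0 3 g1 hs0
    have e : s0.length = 1 := by decide +kernel
    rw [e] at h; exact h
  have g3 : Good (sig red pt) cl 5 := by
    have h := chkG_sound (sig red pt) cl 3 _ (fun n hn => l3_sound red td4 td12 td28 pt 4 12 28 hpt htd4 htd12 htd28 (P18.forb red hv) n hn) s1 4 g2 hs1
    have e : s1.length = 1 := by decide +kernel
    rw [e] at h; exact h
  have g4 : Good (sig red pt) cl 6 := by
    have h := chkG_sound (sig red pt) cl 3 _ (fun n hn => l3_sound red td4 td4 td12 pt 4 4 12 hpt htd4 htd4 htd12 (P19.forb red hv) n hn) s2 5 g3 hs2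
    have e : s2.length = 1 := by decide +kernel
    rw [e] at h; exact h
  have g5 : Good (sig red pt) cl 7 := by
    have h := chkG_sound (sig red pt) cl 3 _ (fun n hn => l3_sound red td4 td25 td9 pt 4 25 9 hpt htd4 htd25 htd9 (P33.forb red hv) n hn) s3 6 g4 hs3
    have e : s3.length = 1 := by decide +kernel
    rw [e] at h; exact h
  have g6 : Good (sig red pt) cl 8 := by
    have h := chkG_sound (sig red pt) cl 3 _ (fun n hn => l3_sound red td9 td3 td3 pt 9 3 3 hpt htd9 htd3 htd3 (P35.forb red hv) n hn) s4 7 g5 hs4
    have e : s4.length = 1 := by decide +kernel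
    rw [e] at h; exact h
  have g7 : Good (sig red pt) cl 9 := by
    have h := chkG_sound (sig red pt) cl 3 _ (fun n hn => l3_sound red td7 td27 td7 pt 7 27 7 hpt htd7 htd27 htd7 (P51.forb red hv) n hn) s5 8 g6 hs5
    have e : s5.length = 1 := by decide +kernel
    rw [e] at h; exact h
  have g8 : Good (sig red pt) cl 10 := by
    have h := chkG_sound (sig red pt) cl 2 _ (fun n hn => l2_sound red td9 pt 9 hpt htd9 (P55.forb red hv) n hn) s6 9 g7 hs6
    have e : s6.length = 1 := by decide +kernel
    rw [e] at h; exact h
  have g9 : Good (sig red pt) cl 13 := by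
    have h := chkG_sound (sig red pt) cl 3 _ (fun n hn => l3_sound red td21 td27 td3 pt 21 27 3 hpt htd21 htd27 htd3 (P67.forb red hv) n hn) s7 10 g8 hs7
    have e : s7.length = 3 := by decide +kernel
    rw [e] at h; exact h
  have g10 : Good (sig red pt) cl 14 := by
    have h := chkG_sound (sig red pt) cl 3 _ (fun n hn => l3_sound red td4 td21 td31 pt 4 21 31 hpt htd4 htd21 htd31 (P70.forb red hv) n hn) s8 13 g9 hs8
    have e : s8.length = 1 := by decide +kernel
    rw [e] at h; exact h
  have g11 : Good (sig red pt) cl 15 := by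
    have h := chk_sound (sig red pt) cl nb 18 hnb c0 13 g10 t0
    have e : c0.length = 1 := by decide +kernel
    rw [e] at h; exact h
  exact final3 (g11 14 (by norm_num)) (by decide +kernel)

theorem forb : ∀ red : ℂ → Prop, Valid 6 red → Forb3 red 4 13 27 :=
  forb3_of 6 td4 td13 td27 pt 4 13 27 (by norm_num) hpt htd4 htd13 htd27 (by decide +kernel)
    (by decide +kernel) (by decide +kernel) fin

end

end APL.P71

namespace APL.P72

noncomputable section

theorem fin (red : ℂ → Prop) (hv : Valid 6 red) : ¬ (sig red pt 0 ∧ sig red pt 1 ∧ sig red pt 2) := by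
  have hnb : NbOK (sig red pt) nb 299 := by
    intro y hy a ha
    exact chkN_sound red 6 hv nb td1 pt hpt htd1 nbl 0 hN y (Nat.zero_le _) (by
      have : nbl.length = 299 := by decide +kernel
      omega) a ha
  have g0 : Good (sig red pt) cl 0 := fun j hj => absurd hj (Nat.not_lt_zero _)
  have g1 : Good (sig red pt) cl 68 := by
    have h := chkG_sound (sig red pt) cl 6 _ (fun n hn => ap_sound red 5 hv td1 pt hpt htd1 n hn) apl 0 g0 hA
    have e : apl.length = 68 := by decide +kernel
    rw [e] at h; exact h
  have g2 : Good (sig red pt) cl 73 := by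
    have h := chkG_sound (sig red pt) cl 3 _ (fun n hn => l3_sound red td4 td7 td19 pt 4 7 19 hpt htd4 htd7 htd19 (P4.forb red hv) n hn) s0 68 g1 hs0
    have e : s0.length = 5 := by decide +kernel
    rw [e] at h; exact h
  have g3 : Good (sig red pt) cl 78 := by
    have h := chkG_sound (sig red pt) cl 3 _ (fun n hn => l3_sound red td16 td7 td7 pt 16 7 7 hpt htd16 htd7 htd7 (P5.forb red hv) n hn) s1 73 g2 hs1
    have e : s1.length = 5 := by decide +kernel
    rw [e] at h; exact h
  have g4 : Good (sig red pt) cl 79 := by
    have h := chkG_sound (sig red pt) cl 3 _ (fun n hn => l3_sound red td9 td19 td31 pt 9 19 31 hpt htd9 htd19 htd31 (P9.forb red hv) n hn) s2 78 g3 hs2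
    have e : s2.length = 1 := by decide +kernel
    rw [e] at h; exact h
  have g5 : Good (sig red pt) cl 89 := by
    have h := chkG_sound (sig red pt) cl 3 _ (fun n hn => l3_sound red td21 td12 td27 pt 21 12 27 hpt htd21 htd12 htd27 (P11.forb red hv) n hn) s3 79 g4 hs3
    have e : s3.length = 10 := by decide +kernel
    rw [e] at h; exact h
  have g6 : Good (sig red pt) cl 90 := by
    have h := chkG_sound (sig red pt) cl 3 _ (fun n hn => l3_sound red td31 td13 td12 pt 31 13 12 hpt htd31 htd13 htd12 (P13.forb red hv) n hn) s4 89 g5 hs4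
    have e : s4.length = 1 := by decide +kernel
    rw [e] at h; exact h
  have g7 : Good (sig red pt) cl 91 := by
    have h := chkG_sound (sig red pt) cl 3 _ (fun n hn => l3_sound red td25 td21 td31 pt 25 21 31 hpt htd25 htd21 htd31 (P15.forb red hv) n hn) s5 90 g6 hs5
    have e : s5.length = 1 := by decide +kernel
    rw [e] at h; exact h
  have g8 : Good (sig red pt) cl 95 := by
    have h := chkG_sound (sig red pt) cl 3 _ (fun n hn => l3_sound red td31 td19 td7 pt 31 19 7 hpt htd31 htd19 htd7 (P17.forb red hv) n hn) s6 91 g7 hs6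
    have e : s6.length = 4 := by decide +kernel
    rw [e] at h; exact h
  have g9 : Good (sig red pt) cl 96 := by
    have h := chkG_sound (sig red pt) cl 3 _ (fun n hn => l3_sound red td31 td19 td37 pt 31 19 37 hpt htd31 htd19 htd37 (P24.forb red hv) n hn) s7 95 g8 hs7
    have e : s7.length = 1 := by decide +kernel
    rw [e] at h; exact h
  have g10 : Good (sig red pt) cl 97 := by
    have h := chkG_sound (sig red pt) cl 3 _ (fun n hn => l3_sound red td9 td19 td25 pt 9 19 25 hpt htd9 htd19 htd25 (P28.forb red hv) n hn) s8 96 g9 hs8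
    have e : s8.length = 1 := by decide +kernel
    rw [e] at h; exact h
  have g11 : Good (sig red pt) cl 100 := by
    have h := chkG_sound (sig red pt) cl 3 _ (fun n hn => l3_sound red td31 td7 td28 pt 31 7 28 hpt htd31 htd7 htd28 (P30.forb red hv) n hn) s9 97 g10 hs9
    have e : s9.length = 3 := by decide +kernel
    rw [e] at h; exact h
  have g12 : Good (sig red pt) cl 101 := by
    have h := chkG_sound (sig red pt) cl 3 _ (fun n hn => l3_sound red td4 td9 td19 pt 4 9 19 hpt htd4 htd9 htd19 (P34.forb red hv) n hn) s10 100 g11 hs10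
    have e : s10.length = 1 := by decide +kernel
    rw [e] at h; exact h
  have g13 : Good (sig red pt) cl 105 := by
    have h := chkG_sound (sig red pt) cl 3 _ (fun n hn => l3_sound red td9 td3 td3 pt 9 3 3 hpt htd9 htd3 htd3 (P35.forb red hv) n hn) s11 101 g12 hs11
    have e : s11.length = 4 := by decide +kernel
    rw [e] at h; exact h
  have g14 : Good (sig red pt) cl 107 := by
    have h := chkG_sound (sig red pt) cl 3 _ (fun n hn => l3_sound red td9 td7 td19 pt 9 7 19 hpt htd9 htd7 htd19 (P38.forb red hv) n hn) s12 105 g13 hs12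
    have e : s12.length = 2 := by decide +kernel
    rw [e] at h; exact h
  have g15 : Good (sig red pt) cl 117 := by
    have h := chkG_sound (sig red pt) cl 3 _ (fun n hn => l3_sound red td16 td7 td27 pt 16 7 27 hpt htd16 htd7 htd27 (P42.forb red hv) n hn) s13 107 g14 hs13
    have e : s13.length = 10 := by decide +kernel
    rw [e] at h; exact h
  have g16 : Good (sig red pt) cl 118 := by
    have h := chkG_sound (sig red pt) cl 3 _ (fun n hn => l3_sound red td9 td13 td28 pt 9 13 28 hpt htd9 htd13 htd28 (P43.forb red hv) n hn) s14 117 g15 hs14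
    have e : s14.length = 1 := by decide +kernel
    rw [e] at h; exact h
  have g17 : Good (sig red pt) cl 120 := by
    have h := chkG_sound (sig red pt) cl 3 _ (fun n hn => l3_sound red td28 td19 td27 pt 28 19 27 hpt htd28 htd19 htd27 (P49.forb red hv) n hn) s15 118 g16 hs15
    have e : s15.length = 2 := by decide +kernel
    rw [e] at h; exact h
  have g18 : Good (sig red pt) cl 121 := by
    have h := chkG_sound (sig red pt) cl 3 _ (fun n hn => l3_sound red td7 td27 td7 pt 7 27 7 hpt htd7 htd27 htd7 (P51.forb red hv) n hn) s16 120 g17 hs16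
    have e : s16.length = 1 := by decide +kernel
    rw [e] at h; exact h
  have g19 : Good (sig red pt) cl 125 := by
    have h := chkG_sound (sig red pt) cl 3 _ (fun n hn => l3_sound red td7 td37 td12 pt 7 37 12 hpt htd7 htd37 htd12 (P54.forb red hv) n hn) s17 121 g18 hs17
    have e : s17.length = 4 := by decide +kernel
    rw [e] at h; exact h
  have g20 : Good (sig red pt) cl 226 := by
    have h := chkG_sound (sig red pt) cl 2 _ (fun n hn => l2_sound red td9 pt 9 hpt htd9 (P55.forb red hv) n hn) s18 125 g19 hs18
    have e : s18.length = 101 := by decide +kernel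
    rw [e] at h; exact h
  have g21 : Good (sig red pt) cl 229 := by
    have h := chkG_sound (sig red pt) cl 3 _ (fun n hn => l3_sound red td7 td7 td12 pt 7 7 12 hpt htd7 htd7 htd12 (P56.forb red hv) n hn) s19 226 g20 hs19
    have e : s19.length = 3 := by decide +kernel
    rw [e] at h; exact h
  have g22 : Good (sig red pt) cl 233 := by
    have h := chkG_sound (sig red pt) cl 3 _ (fun n hn => l3_sound red td13 td12 td19 pt 13 12 19 hpt htd13 htd12 htd19 (P57.forb red hv) n hn) s20 229 g21 hs20
    have e : s20.length = 4 := by decide +kernel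
    rw [e] at h; exact h
  have g23 : Good (sig red pt) cl 240 := by
    have h := chkG_sound (sig red pt) cl 3 _ (fun n hn => l3_sound red td21 td7 td19 pt 21 7 19 hpt htd21 htd7 htd19 (P58.forb red hv) n hn) s21 233 g22 hs21
    have e : s21.length = 7 := by decide +kernel
    rw [e] at h; exact h
  have g24 : Good (sig red pt) cl 242 := by
    have h := chkG_sound (sig red pt) cl 3 _ (fun n hn => l3_sound red td19 td12 td19 pt 19 12 19 hpt htd19 htd12 htd19 (P59.forb red hv) n hn) s22 240 g23 hs22
    have e : s22.length = 2 := by decide +kernel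
    rw [e] at h; exact h
  have g25 : Good (sig red pt) cl 243 := by
    have h := chkG_sound (sig red pt) cl 3 _ (fun n hn => l3_sound red td19 td19 td27 pt 19 19 27 hpt htd19 htd19 htd27 (P61.forb red hv) n hn) s23 242 g24 hs23
    have e : s23.length = 1 := by decide +kernel
    rw [e] at h; exact h
  have g26 : Good (sig red pt) cl 248 := by
    have h := chkG_sound (sig red pt) cl 3 _ (fun n hn => l3_sound red td3 td37 td19 pt 3 37 19 hpt htd3 htd37 htd19 (P63.forb red hv) n hn) s24 243 g25 hs24
    have e : s24.length = 5 := by decide +kernel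
    rw [e] at h; exact h
  have g27 : Good (sig red pt) cl 249 := by
    have h := chkG_sound (sig red pt) cl 3 _ (fun n hn => l3_sound red td31 td21 td28 pt 31 21 28 hpt htd31 htd21 htd28 (P64.forb red hv) n hn) s25 248 g26 hs25
    have e : s25.length = 1 := by decide +kernel
    rw [e] at h; exact h
  have g28 : Good (sig red pt) cl 251 := by
    have h := chkG_sound (sig red pt) cl 3 _ (fun n hn => l3_sound red td16 td21 td25 pt 16 21 25 hpt htd16 htd21 htd25 (P65.forb red hv) n hn) s26 249 g27 hs26
    have e : s26.length = 2 := by decide +kernel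
    rw [e] at h; exact h
  have g29 : Good (sig red pt) cl 253 := by
    have h := chkG_sound (sig red pt) cl 3 _ (fun n hn => l3_sound red td21 td27 td3 pt 21 27 3 hpt htd21 htd27 htd3 (P67.forb red hv) n hn) s27 251 g28 hs27
    have e : s27.length = 2 := by decide +kernel
    rw [e] at h; exact h
  have g30 : Good (sig red pt) cl 262 := by
    have h := chkG_sound (sig red pt) cl 3 _ (fun n hn => l3_sound red td4 td13 td27 pt 4 13 27 hpt htd4 htd13 htd27 (P71.forb red hv) n hn) s28 253 g29 hs28
    have e : s28.length = 9 := by decide +kernel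
    rw [e] at h; exact h
  have g31 : Good (sig red pt) cl 275 := by
    have h := chk_sound (sig red pt) cl nb 299 hnb c0 261 g30 t0
    have e : c0.length = 13 := by decide +kernel
    rw [e] at h; exact h
  exact final3 (g31 274 (by norm_num)) (by decide +kernel)

theorem forb : ∀ red : ℂ → Prop, Valid 6 red → Forb3 red 21 19 28 :=
  forb3_of 6 td21 td19 td28 pt 21 19 28 (by norm_num) hpt htd21 htd19 htd28 (by decide +kernel)
    (by decide +kernel) (by decide +kernel) fin

end

end APL.P72

namespace APL.P73

noncomputable section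

theorem fin (red : ℂ → Prop) (hv : Valid 6 red) : ¬ (sig red pt 0 ∧ sig red pt 1 ∧ sig red pt 2) := by
  have hnb : NbOK (sig red pt) nb 20 := by
    intro y hy a ha
    exact chkN_sound red 6 hv nb td1 pt hpt htd1 nbl 0 hN y (Nat.zero_le _) (by
      have : nbl.length = 20 := by decide +kernel
      omega) a ha
  have g0 : Good (sig red pt) cl 0 := fun j hj => absurd hj (Nat.not_lt_zero _)
  have g1 : Good (sig red pt) cl 3 := by
    have h := chkG_sound (sig red pt) cl 6 _ (fun n hn => ap_sound red 5 hv td1 pt hpt htd1 n hn) apl 0 g0 hA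
    have e : apl.length = 3 := by decide +kernel
    rw [e] at h; exact h
  have g2 : Good (sig red pt) cl 5 := by
    have h := chkG_sound (sig red pt) cl 3 _ (fun n hn => l3_sound red td4 td7 td19 pt 4 7 19 hpt htd4 htd7 htd19 (P4.forb red hv) n hn) s0 3 g1 hs0
    have e : s0.length = 2 := by decide +kernel
    rw [e] at h; exact h
  have g3 : Good (sig red pt) cl 6 := by
    have h := chkG_sound (sig red pt) cl 3 _ (fun n hn => l3_sound red td31 td3 td31 pt 31 3 31 hpt htd31 htd3 htd31 (P16.forb red hv) n hn) s1 5 g2 hs1
    have e : s1.length = 1 := by decide +kernel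
    rw [e] at h; exact h
  have g4 : Good (sig red pt) cl 7 := by
    have h := chkG_sound (sig red pt) cl 3 _ (fun n hn => l3_sound red td4 td12 td28 pt 4 12 28 hpt htd4 htd12 htd28 (P18.forb red hv) n hn) s2 6 g3 hs2
    have e : s2.length = 1 := by decide +kernel
    rw [e] at h; exact h
  have g5 : Good (sig red pt) cl 9 := by
    have h := chkG_sound (sig red pt) cl 3 _ (fun n hn => l3_sound red td31 td19 td3 pt 31 19 3 hpt htd31 htd19 htd3 (P31.forb red hv) n hn) s3 7 g4 hs3
    have e : s3.length = 2 := by decide +kernel
    rw [e] at h; exact h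
  have g6 : Good (sig red pt) cl 10 := by
    have h := chkG_sound (sig red pt) cl 3 _ (fun n hn => l3_sound red td4 td25 td9 pt 4 25 9 hpt htd4 htd25 htd9 (P33.forb red hv) n hn) s4 9 g5 hs4
    have e : s4.length = 1 := by decide +kernel
    rw [e] at h; exact h
  have g7 : Good (sig red pt) cl 11 := by
    have h := chkG_sound (sig red pt) cl 3 _ (fun n hn => l3_sound red td21 td12 td3 pt 21 12 3 hpt htd21 htd12 htd3 (P50.forb red hv) n hn) s5 10 g6 hs5
    have e : s5.length = 1 := by decide +kernel
    rw [e] at h; exact h
  have g8 : Good (sig red pt) cl 12 := by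
    have h := chkG_sound (sig red pt) cl 3 _ (fun n hn => l3_sound red td3 td37 td19 pt 3 37 19 hpt htd3 htd37 htd19 (P63.forb red hv) n hn) s6 11 g7 hs6
    have e : s6.length = 1 := by decide +kernel
    rw [e] at h; exact h
  have g9 : Good (sig red pt) cl 13 := by
    have h := chkG_sound (sig red pt) cl 3 _ (fun n hn => l3_sound red td21 td27 td3 pt 21 27 3 hpt htd21 htd27 htd3 (P67.forb red hv) n hn) s7 12 g8 hs7
    have e : s7.length = 1 := by decide +kernel
    rw [e] at h; exact h
  have g10 : Good (sig red pt) cl 14 := by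
    have h := chkG_sound (sig red pt) cl 3 _ (fun n hn => l3_sound red td4 td21 td31 pt 4 21 31 hpt htd4 htd21 htd31 (P70.forb red hv) n hn) s8 13 g9 hs8
    have e : s8.length = 1 := by decide +kernel
    rw [e] at h; exact h
  have g11 : Good (sig red pt) cl 16 := by
    have h := chkG_sound (sig red pt) cl 3 _ (fun n hn => l3_sound red td4 td13 td27 pt 4 13 27 hpt htd4 htd13 htd27 (P71.forb red hv) n hn) s9 14 g10 hs9
    have e : s9.length = 2 := by decide +kernel
    rw [e] at h; exact h
  have g12 : Good (sig red pt) cl 17 := by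
    have h := chkG_sound (sig red pt) cl 3 _ (fun n hn => l3_sound red td21 td19 td28 pt 21 19 28 hpt htd21 htd19 htd28 (P72.forb red hv) n hn) s10 16 g11 hs10
    have e : s10.length = 1 := by decide +kernel
    rw [e] at h; exact h
  have g13 : Good (sig red pt) cl 18 := by
    have h := chk_sound (sig red pt) cl nb 20 hnb c0 16 g12 t0
    have e : c0.length = 1 := by decide +kernel
    rw [e] at h; exact h
  exact final3 (g13 17 (by norm_num)) (by decide +kernel)

theorem forb : ∀ red : ℂ → Prop, Valid 6 red → Forb3 red 4 3 7 :=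
  forb3_of 6 td4 td3 td7 pt 4 3 7 (by norm_num) hpt htd4 htd3 htd7 (by decide +kernel)
    (by decide +kernel) (by decide +kernel) fin

end

end APL.P73

namespace APL.P74

noncomputable section

theorem fin (red : ℂ → Prop) (hv : Valid 6 red) : ¬ (sig red pt 0 ∧ sig red pt 1 ∧ sig red pt 2) := by
  have hnb : NbOK (sig red pt) nb 9 := by
    intro y hy a ha
    exact chkN_sound red 6 hv nb td1 pt hpt htd1 nbl 0 hN y (Nat.zero_le _) (by
      have : nbl.length = 9 := by decide +kernel
      omega) a ha
  have g0 : Good (sig red pt) cl 0 := fun j hj => absurd hj (Nat.not_lt_zero _)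
  have g1 : Good (sig red pt) cl 1 := by
    have h := chkG_sound (sig red pt) cl 6 _ (fun n hn => ap_sound red 5 hv td1 pt hpt htd1 n hn) apl 0 g0 hA
    have e : apl.length = 1 := by decide +kernel
    rw [e] at h; exact h
  have g2 : Good (sig red pt) cl 2 := by
    have h := chkG_sound (sig red pt) cl 3 _ (fun n hn => l3_sound red td9 td3 td12 pt 9 3 12 hpt htd9 htd3 htd12 (P2.forb red hv) n hn) s0 1 g1 hs0
    have e : s0.length = 1 := by decide +kernel
    rw [e] at h; exact h
  have g3 : Good (sig red pt) cl 3 := by
    have h := chkG_sound (sig red pt) cl 3 _ (fun n hn => l3_sound red td16 td7 td7 pt 16 7 7 hpt htd16 htd7 htd7 (P5.forb red hv) n hn) s1 2 g2 hs1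
    have e : s1.length = 1 := by decide +kernel
    rw [e] at h; exact h
  have g4 : Good (sig red pt) cl 4 := by
    have h := chkG_sound (sig red pt) cl 3 _ (fun n hn => l3_sound red td9 td3 td3 pt 9 3 3 hpt htd9 htd3 htd3 (P35.forb red hv) n hn) s2 3 g3 hs2
    have e : s2.length = 1 := by decide +kernel
    rw [e] at h; exact h
  have g5 : Good (sig red pt) cl 5 := by
    have h := chkG_sound (sig red pt) cl 3 _ (fun n hn => l3_sound red td21 td7 td19 pt 21 7 19 hpt htd21 htd7 htd19 (P58.forb red hv) n hn) s3 4 g4 hs3
    have e : s3.length = 1 := by decide +kernel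
    rw [e] at h; exact h
  have g6 : Good (sig red pt) cl 6 := by
    have h := chkG_sound (sig red pt) cl 3 _ (fun n hn => l3_sound red td4 td3 td7 pt 4 3 7 hpt htd4 htd3 htd7 (P73.forb red hv) n hn) s4 5 g5 hs4
    have e : s4.length = 1 := by decide +kernel
    rw [e] at h; exact h
  have g7 : Good (sig red pt) cl 7 := by
    have h := chk_sound (sig red pt) cl nb 9 hnb c0 5 g6 t0
    have e : c0.length = 1 := by decide +kernel
    rw [e] at h; exact h
  exact final3 (g7 6 (by norm_num)) (by decide +kernel)

theorem forb : ∀ red : ℂ → Prop, Valid 6 red → Forb3 red 16 3 7 :=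
  forb3_of 6 td16 td3 td7 pt 16 3 7 (by norm_num) hpt htd16 htd3 htd7 (by decide +kernel)
    (by decide +kernel) (by decide +kernel) fin

end

end APL.P74

namespace APL.P75

noncomputable section

theorem fin (red : ℂ → Prop) (hv : Valid 6 red) : ¬ (sig red pt 0 ∧ sig red pt 1 ∧ sig red pt 2) := by
  have hnb : NbOK (sig red pt) nb 9 := by
    intro y hy a ha
    exact chkN_sound red 6 hv nb td1 pt hpt htd1 nbl 0 hN y (Nat.zero_le _) (by
      have : nbl.length = 9 := by decide +kernel
      omega) a ha
  have g0 : Good (sig red pt) cl 0 := fun j hj => absurd hj (Nat.not_lt_zero _)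
  have g1 : Good (sig red pt) cl 1 := by
    have h := chkG_sound (sig red pt) cl 6 _ (fun n hn => ap_sound red 5 hv td1 pt hpt htd1 n hn) apl 0 g0 hA
    have e : apl.length = 1 := by decide +kernel
    rw [e] at h; exact h
  have g2 : Good (sig red pt) cl 2 := by
    have h := chkG_sound (sig red pt) cl 3 _ (fun n hn => l3_sound red td4 td7 td9 pt 4 7 9 hpt htd4 htd7 htd9 (P36.forb red hv) n hn) s0 1 g1 hs0
    have e : s0.length = 1 := by decide +kernel
    rw [e] at h; exact h
  have g3 : Good (sig red pt) cl 3 := by
    have h := chkG_sound (sig red pt) cl 3 _ (fun n hn => l3_sound red td4 td3 td7 pt 4 3 7 hpt htd4 htd3 htd7 (P73.forb red hv) n hn) s1 2 g2 hs1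
    have e : s1.length = 1 := by decide +kernel
    rw [e] at h; exact h
  have g4 : Good (sig red pt) cl 4 := by
    have h := chk_sound (sig red pt) cl nb 9 hnb c0 2 g3 t0
    have e : c0.length = 1 := by decide +kernel
    rw [e] at h; exact h
  exact final3 (g4 3 (by norm_num)) (by decide +kernel)

theorem forb : ∀ red : ℂ → Prop, Valid 6 red → Forb3 red 4 19 21 :=
  forb3_of 6 td4 td19 td21 pt 4 19 21 (by norm_num) hpt htd4 htd19 htd21 (by decide +kernel)
    (by decide +kernel) (by decide +kernel) fin

end

end APL.P75

namespace APL.P76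

noncomputable section

theorem fin (red : ℂ → Prop) (hv : Valid 6 red) : ¬ (sig red pt 0 ∧ sig red pt 1 ∧ sig red pt 2) := by
  have hnb : NbOK (sig red pt) nb 9 := by
    intro y hy a ha
    exact chkN_sound red 6 hv nb td1 pt hpt htd1 nbl 0 hN y (Nat.zero_le _) (by
      have : nbl.length = 9 := by decide +kernel
      omega) a ha
  have g0 : Good (sig red pt) cl 0 := fun j hj => absurd hj (Nat.not_lt_zero _)
  have g1 : Good (sig red pt) cl 1 := by
    have h := chkG_sound (sig red pt) cl 6 _ (fun n hn => ap_sound red 5 hv td1 pt hpt htd1 n hn) apl 0 g0 hA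
    have e : apl.length = 1 := by decide +kernel
    rw [e] at h; exact h
  have g2 : Good (sig red pt) cl 2 := by
    have h := chkG_sound (sig red pt) cl 3 _ (fun n hn => l3_sound red td4 td7 td9 pt 4 7 9 hpt htd4 htd7 htd9 (P36.forb red hv) n hn) s0 1 g1 hs0
    have e : s0.length = 1 := by decide +kernel
    rw [e] at h; exact h
  have g3 : Good (sig red pt) cl 3 := by
    have h := chkG_sound (sig red pt) cl 3 _ (fun n hn => l3_sound red td21 td12 td3 pt 21 12 3 hpt htd21 htd12 htd3 (P50.forb red hv) n hn) s1 2 g2 hs1
    have e : s1.length = 1 := by decide +kernel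
    rw [e] at h; exact h
  have g4 : Good (sig red pt) cl 4 := by
    have h := chkG_sound (sig red pt) cl 3 _ (fun n hn => l3_sound red td16 td13 td37 pt 16 13 37 hpt htd16 htd13 htd37 (P69.forb red hv) n hn) s2 3 g3 hs2
    have e : s2.length = 1 := by decide +kernel
    rw [e] at h; exact h
  have g5 : Good (sig red pt) cl 5 := by
    have h := chkG_sound (sig red pt) cl 3 _ (fun n hn => l3_sound red td4 td19 td21 pt 4 19 21 hpt htd4 htd19 htd21 (P75.forb red hv) n hn) s3 4 g4 hs3
    have e : s3.length = 1 := by decide +kernel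
    rw [e] at h; exact h
  have g6 : Good (sig red pt) cl 6 := by
    have h := chk_sound (sig red pt) cl nb 9 hnb c0 4 g5 t0
    have e : c0.length = 1 := by decide +kernel
    rw [e] at h; exact h
  exact final3 (g6 5 (by norm_num)) (by decide +kernel)

theorem forb : ∀ red : ℂ → Prop, Valid 6 red → Forb3 red 4 21 37 :=
  forb3_of 6 td4 td21 td37 pt 4 21 37 (by norm_num) hpt htd4 htd21 htd37 (by decide +kernel)
    (by decide +kernel) (by decide +kernel) fin

end

end APL.P76

namespace APL.P80

noncomputable section

theorem fin (red : ℂ → Prop) (hv : Valid 6 red) : ¬ (sig red pt 0 ∧ sig red pt 1 ∧ sig red pt 2) := by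
  have hnb : NbOK (sig red pt) nb 9 := by
    intro y hy a ha
    exact chkN_sound red 6 hv nb td1 pt hpt htd1 nbl 0 hN y (Nat.zero_le _) (by
      have : nbl.length = 9 := by decide +kernel
      omega) a ha
  have g0 : Good (sig red pt) cl 0 := fun j hj => absurd hj (Nat.not_lt_zero _)
  have g1 : Good (sig red pt) cl 1 := by
    have h := chkG_sound (sig red pt) cl 6 _ (fun n hn => ap_sound red 5 hv td1 pt hpt htd1 n hn) apl 0 g0 hA
    have e : apl.length = 1 := by decide +kernel
    rw [e] at h; exact h
  have g2 : Good (sig red pt) cl 2 := by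
    have h := chkG_sound (sig red pt) cl 3 _ (fun n hn => l3_sound red td4 td7 td19 pt 4 7 19 hpt htd4 htd7 htd19 (P4.forb red hv) n hn) s0 1 g1 hs0
    have e : s0.length = 1 := by decide +kernel
    rw [e] at h; exact h
  have g3 : Good (sig red pt) cl 3 := by
    have h := chkG_sound (sig red pt) cl 3 _ (fun n hn => l3_sound red td31 td7 td13 pt 31 7 13 hpt htd31 htd7 htd13 (P66.forb red hv) n hn) s1 2 g2 hs1
    have e : s1.length = 1 := by decide +kernel
    rw [e] at h; exact h
  have g4 : Good (sig red pt) cl 4 := by
    have h := chkG_sound (sig red pt) cl 3 _ (fun n hn => l3_sound red td4 td13 td27 pt 4 13 27 hpt htd4 htd13 htd27 (P71.forb red hv) n hn) s2 3 g3 hs2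
    have e : s2.length = 1 := by decide +kernel
    rw [e] at h; exact h
  have g5 : Good (sig red pt) cl 5 := by
    have h := chkG_sound (sig red pt) cl 3 _ (fun n hn => l3_sound red td4 td21 td37 pt 4 21 37 hpt htd4 htd21 htd37 (P76.forb red hv) n hn) s3 4 g4 hs3
    have e : s3.length = 1 := by decide +kernel
    rw [e] at h; exact h
  have g6 : Good (sig red pt) cl 6 := by
    have h := chk_sound (sig red pt) cl nb 9 hnb c0 4 g5 t0
    have e : c0.length = 1 := by decide +kernel
    rw [e] at h; exact h
  exact final3 (g6 5 (by norm_num)) (by decide +kernel)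

theorem forb : ∀ red : ℂ → Prop, Valid 6 red → Forb3 red 4 7 21 :=
  forb3_of 6 td4 td7 td21 pt 4 7 21 (by norm_num) hpt htd4 htd7 htd21 (by decide +kernel)
    (by decide +kernel) (by decide +kernel) fin

end

end APL.P80

namespace APL.P81

noncomputable section

theorem fin (red : ℂ → Prop) (hv : Valid 6 red) : ¬ (sig red pt 0 ∧ sig red pt 1 ∧ sig red pt 2) := by
  have hnb : NbOK (sig red pt) nb 19 := by
    intro y hy a ha
    exact chkN_sound red 6 hv nb td1 pt hpt htd1 nbl 0 hN y (Nat.zero_le _) (by
      have : nbl.length = 19 := by decide +kernel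
      omega) a ha
  have g0 : Good (sig red pt) cl 0 := fun j hj => absurd hj (Nat.not_lt_zero _)
  have g1 : Good (sig red pt) cl 3 := by
    have h := chkG_sound (sig red pt) cl 6 _ (fun n hn => ap_sound red 5 hv td1 pt hpt htd1 n hn) apl 0 g0 hA
    have e : apl.length = 3 := by decide +kernel
    rw [e] at h; exact h
  have g2 : Good (sig red pt) cl 4 := by
    have h := chkG_sound (sig red pt) cl 3 _ (fun n hn => l3_sound red td9 td3 td12 pt 9 3 12 hpt htd9 htd3 htd12 (P2.forb red hv) n hn) s0 3 g1 hs0
    have e : s0.length = 1 := by decide +kernel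
    rw [e] at h; exact h
  have g3 : Good (sig red pt) cl 6 := by
    have h := chkG_sound (sig red pt) cl 3 _ (fun n hn => l3_sound red td4 td7 td19 pt 4 7 19 hpt htd4 htd7 htd19 (P4.forb red hv) n hn) s1 4 g2 hs1
    have e : s1.length = 2 := by decide +kernel
    rw [e] at h; exact h
  have g4 : Good (sig red pt) cl 7 := by
    have h := chkG_sound (sig red pt) cl 3 _ (fun n hn => l3_sound red td4 td9 td19 pt 4 9 19 hpt htd4 htd9 htd19 (P34.forb red hv) n hn) s2 6 g3 hs2
    have e : s2.length = 1 := by decide +kernel
    rw [e] at h; exact h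
  have g5 : Good (sig red pt) cl 8 := by
    have h := chkG_sound (sig red pt) cl 3 _ (fun n hn => l3_sound red td9 td3 td3 pt 9 3 3 hpt htd9 htd3 htd3 (P35.forb red hv) n hn) s3 7 g4 hs3
    have e : s3.length = 1 := by decide +kernel
    rw [e] at h; exact h
  have g6 : Good (sig red pt) cl 9 := by
    have h := chkG_sound (sig red pt) cl 3 _ (fun n hn => l3_sound red td9 td7 td19 pt 9 7 19 hpt htd9 htd7 htd19 (P38.forb red hv) n hn) s4 8 g5 hs4
    have e : s4.length = 1 := by decide +kernel
    rw [e] at h; exact h
  have g7 : Good (sig red pt) cl 10 := by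
    have h := chkG_sound (sig red pt) cl 3 _ (fun n hn => l3_sound red td21 td27 td3 pt 21 27 3 hpt htd21 htd27 htd3 (P67.forb red hv) n hn) s5 9 g6 hs5
    have e : s5.length = 1 := by decide +kernel
    rw [e] at h; exact h
  have g8 : Good (sig red pt) cl 11 := by
    have h := chkG_sound (sig red pt) cl 3 _ (fun n hn => l3_sound red td4 td3 td7 pt 4 3 7 hpt htd4 htd3 htd7 (P73.forb red hv) n hn) s6 10 g7 hs6
    have e : s6.length = 1 := by decide +kernel
    rw [e] at h; exact h
  have g9 : Good (sig red pt) cl 12 := by
    have h := chkG_sound (sig red pt) cl 3 _ (fun n hn => l3_sound red td4 td19 td21 pt 4 19 21 hpt htd4 htd19 htd21 (P75.forb red hv) n hn) s7 11 g8 hs7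
    have e : s7.length = 1 := by decide +kernel
    rw [e] at h; exact h
  have g10 : Good (sig red pt) cl 13 := by
    have h := chk_sound (sig red pt) cl nb 19 hnb c0 11 g9 t0
    have e : c0.length = 1 := by decide +kernel
    rw [e] at h; exact h
  exact final3 (g10 12 (by norm_num)) (by decide +kernel)

theorem forb : ∀ red : ℂ → Prop, Valid 6 red → Forb3 red 3 19 28 :=
  forb3_of 6 td3 td19 td28 pt 3 19 28 (by norm_num) hpt htd3 htd19 htd28 (by decide +kernel)
    (by decide +kernel) (by decide +kernel) fin

end

end APL.P81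

namespace APL.P82

noncomputable section

theorem fin (red : ℂ → Prop) (hv : Valid 6 red) : ¬ (sig red pt 0 ∧ sig red pt 1 ∧ sig red pt 2) := by
  have hnb : NbOK (sig red pt) nb 9 := by
    intro y hy a ha
    exact chkN_sound red 6 hv nb td1 pt hpt htd1 nbl 0 hN y (Nat.zero_le _) (by
      have : nbl.length = 9 := by decide +kernel
      omega) a ha
  have g0 : Good (sig red pt) cl 0 := fun j hj => absurd hj (Nat.not_lt_zero _)
  have g1 : Good (sig red pt) cl 1 := by
    have h := chkG_sound (sig red pt) cl 6 _ (fun n hn => ap_sound red 5 hv td1 pt hpt htd1 n hn) apl 0 g0 hA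
    have e : apl.length = 1 := by decide +kernel
    rw [e] at h; exact h
  have g2 : Good (sig red pt) cl 2 := by
    have h := chkG_sound (sig red pt) cl 3 _ (fun n hn => l3_sound red td13 td12 td19 pt 13 12 19 hpt htd13 htd12 htd19 (P57.forb red hv) n hn) s0 1 g1 hs0
    have e : s0.length = 1 := by decide +kernel
    rw [e] at h; exact h
  have g3 : Good (sig red pt) cl 3 := by
    have h := chkG_sound (sig red pt) cl 3 _ (fun n hn => l3_sound red td3 td37 td19 pt 3 37 19 hpt htd3 htd37 htd19 (P63.forb red hv) n hn) s1 2 g2 hs1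
    have e : s1.length = 1 := by decide +kernel
    rw [e] at h; exact h
  have g4 : Good (sig red pt) cl 4 := by
    have h := chkG_sound (sig red pt) cl 3 _ (fun n hn => l3_sound red td4 td3 td7 pt 4 3 7 hpt htd4 htd3 htd7 (P73.forb red hv) n hn) s2 3 g3 hs2
    have e : s2.length = 1 := by decide +kernel
    rw [e] at h; exact h
  have g5 : Good (sig red pt) cl 5 := by
    have h := chk_sound (sig red pt) cl nb 9 hnb c0 3 g4 t0
    have e : c0.length = 1 := by decide +kernel
    rw [e] at h; exact h
  exact final3 (g5 4 (by norm_num)) (by decide +kernel)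

theorem forb : ∀ red : ℂ → Prop, Valid 6 red → Forb3 red 4 19 25 :=
  forb3_of 6 td4 td19 td25 pt 4 19 25 (by norm_num) hpt htd4 htd19 htd25 (by decide +kernel)
    (by decide +kernel) (by decide +kernel) fin

end

end APL.P82

namespace APL.P83

noncomputable section

theorem fin (red : ℂ → Prop) (hv : Valid 6 red) : ¬ (sig red pt 0 ∧ sig red pt 1 ∧ sig red pt 2) := by
  have hnb : NbOK (sig red pt) nb 9 := by
    intro y hy a ha
    exact chkN_sound red 6 hv nb td1 pt hpt htd1 nbl 0 hN y (Nat.zero_le _) (by
      have : nbl.length = 9 := by decide +kernel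
      omega) a ha
  have g0 : Good (sig red pt) cl 0 := fun j hj => absurd hj (Nat.not_lt_zero _)
  have g1 : Good (sig red pt) cl 1 := by
    have h := chkG_sound (sig red pt) cl 6 _ (fun n hn => ap_sound red 5 hv td1 pt hpt htd1 n hn) apl 0 g0 hA
    have e : apl.length = 1 := by decide +kernel
    rw [e] at h; exact h
  have g2 : Good (sig red pt) cl 2 := by
    have h := chkG_sound (sig red pt) cl 3 _ (fun n hn => l3_sound red td21 td27 td3 pt 21 27 3 hpt htd21 htd27 htd3 (P67.forb red hv) n hn) s0 1 g1 hs0
    have e : s0.length = 1 := by decide +kernel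
    rw [e] at h; exact h
  have g3 : Good (sig red pt) cl 3 := by
    have h := chkG_sound (sig red pt) cl 3 _ (fun n hn => l3_sound red td4 td7 td21 pt 4 7 21 hpt htd4 htd7 htd21 (P80.forb red hv) n hn) s1 2 g2 hs1
    have e : s1.length = 1 := by decide +kernel
    rw [e] at h; exact h
  have g4 : Good (sig red pt) cl 4 := by
    have h := chk_sound (sig red pt) cl nb 9 hnb c0 2 g3 t0
    have e : c0.length = 1 := by decide +kernel
    rw [e] at h; exact h
  exact final3 (g4 3 (by norm_num)) (by decide +kernel)

theorem forb : ∀ red : ℂ → Prop, Valid 6 red → Forb3 red 4 13 21 :=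
  forb3_of 6 td4 td13 td21 pt 4 13 21 (by norm_num) hpt htd4 htd13 htd21 (by decide +kernel)
    (by decide +kernel) (by decide +kernel) fin

end

end APL.P83

namespace APL.P86

noncomputable section

theorem fin (red : ℂ → Prop) (hv : Valid 6 red) : ¬ (sig red pt 0 ∧ sig red pt 1) := by
  have hnb : NbOK (sig red pt) nb 8 := by
    intro y hy a ha
    exact chkN_sound red 6 hv nb td1 pt hpt htd1 nbl 0 hN y (Nat.zero_le _) (by
      have : nbl.length = 8 := by decide +kernel
      omega) a ha
  have g0 : Good (sig red pt) cl 0 := fun j hj => absurd hj (Nat.not_lt_zero _)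
  have g1 : Good (sig red pt) cl 1 := by
    have h := chkG_sound (sig red pt) cl 6 _ (fun n hn => ap_sound red 5 hv td1 pt hpt htd1 n hn) apl 0 g0 hA
    have e : apl.length = 1 := by decide +kernel
    rw [e] at h; exact h
  have g2 : Good (sig red pt) cl 2 := by
    have h := chkG_sound (sig red pt) cl 3 _ (fun n hn => l3_sound red td4 td7 td19 pt 4 7 19 hpt htd4 htd7 htd19 (P4.forb red hv) n hn) s0 1 g1 hs0
    have e : s0.length = 1 := by decide +kernel
    rw [e] at h; exact h
  have g3 : Good (sig red pt) cl 3 := by
    have h := chkG_sound (sig red pt) cl 3 _ (fun n hn => l3_sound red td4 td27 td31 pt 4 27 31 hpt htd4 htd27 htd31 (P22.forb red hv) n hn) s1 2 g2 hs1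
    have e : s1.length = 1 := by decide +kernel
    rw [e] at h; exact h
  have g4 : Good (sig red pt) cl 4 := by
    have h := chkG_sound (sig red pt) cl 3 _ (fun n hn => l3_sound red td4 td9 td19 pt 4 9 19 hpt htd4 htd9 htd19 (P34.forb red hv) n hn) s2 3 g3 hs2
    have e : s2.length = 1 := by decide +kernel
    rw [e] at h; exact h
  have g5 : Good (sig red pt) cl 5 := by
    have h := chkG_sound (sig red pt) cl 3 _ (fun n hn => l3_sound red td4 td7 td21 pt 4 7 21 hpt htd4 htd7 htd21 (P80.forb red hv) n hn) s3 4 g4 hs3
    have e : s3.length = 1 := by decide +kernel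
    rw [e] at h; exact h
  have g6 : Good (sig red pt) cl 6 := by
    have h := chkG_sound (sig red pt) cl 3 _ (fun n hn => l3_sound red td4 td19 td25 pt 4 19 25 hpt htd4 htd19 htd25 (P82.forb red hv) n hn) s4 5 g5 hs4
    have e : s4.length = 1 := by decide +kernel
    rw [e] at h; exact h
  have g7 : Good (sig red pt) cl 7 := by
    have h := chkG_sound (sig red pt) cl 3 _ (fun n hn => l3_sound red td4 td13 td21 pt 4 13 21 hpt htd4 htd13 htd21 (P83.forb red hv) n hn) s5 6 g6 hs5
    have e : s5.length = 1 := by decide +kernel
    rw [e] at h; exact h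
  have g8 : Good (sig red pt) cl 8 := by
    have h := chk_sound (sig red pt) cl nb 8 hnb c0 6 g7 t0
    have e : c0.length = 1 := by decide +kernel
    rw [e] at h; exact h
  exact final2 (g8 7 (by norm_num)) (by decide +kernel)

theorem forb : ∀ red : ℂ → Prop, Valid 6 red → Forb2 red 4 :=
  forb2_of 6 td4 pt 4 (by norm_num) hpt htd4 (by decide +kernel) fin

end

end APL.P86

namespace APL.P87

noncomputable section

theorem fin (red : ℂ → Prop) (hv : Valid 6 red) : ¬ (sig red pt 0 ∧ sig red pt 1) := by
  have hnb : NbOK (sig red pt) nb 8 := by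
    intro y hy a ha
    exact chkN_sound red 6 hv nb td1 pt hpt htd1 nbl 0 hN y (Nat.zero_le _) (by
      have : nbl.length = 8 := by decide +kernel
      omega) a ha
  have g0 : Good (sig red pt) cl 0 := fun j hj => absurd hj (Nat.not_lt_zero _)
  have g1 : Good (sig red pt) cl 1 := by
    have h := chkG_sound (sig red pt) cl 6 _ (fun n hn => ap_sound red 5 hv td1 pt hpt htd1 n hn) apl 0 g0 hA
    have e : apl.length = 1 := by decide +kernel
    rw [e] at h; exact h
  have g2 : Good (sig red pt) cl 2 := by
    have h := chkG_sound (sig red pt) cl 3 _ (fun n hn => l3_sound red td16 td3 td31 pt 16 3 31 hpt htd16 htd3 htd31 (P27.forb red hv) n hn) s0 1 g1 hs0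
    have e : s0.length = 1 := by decide +kernel
    rw [e] at h; exact h
  have g3 : Good (sig red pt) cl 4 := by
    have h := chkG_sound (sig red pt) cl 3 _ (fun n hn => l3_sound red td16 td3 td7 pt 16 3 7 hpt htd16 htd3 htd7 (P74.forb red hv) n hn) s1 2 g2 hs1
    have e : s1.length = 2 := by decide +kernel
    rw [e] at h; exact h
  have g4 : Good (sig red pt) cl 5 := by
    have h := chk_sound (sig red pt) cl nb 8 hnb c0 3 g3 t0
    have e : c0.length = 1 := by decide +kernel
    rw [e] at h; exact h
  exact final2 (g4 4 (by norm_num)) (by decide +kernel)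

theorem forb : ∀ red : ℂ → Prop, Valid 6 red → Forb2 red 16 :=
  forb2_of 6 td16 pt 16 (by norm_num) hpt htd16 (by decide +kernel) fin

end

end APL.P87

namespace APL.P88

noncomputable section

theorem fin (red : ℂ → Prop) (hv : Valid 6 red) : ¬ (sig red pt 0 ∧ sig red pt 1) := by
  have hnb : NbOK (sig red pt) nb 8 := by
    intro y hy a ha
    exact chkN_sound red 6 hv nb td1 pt hpt htd1 nbl 0 hN y (Nat.zero_le _) (by
      have : nbl.length = 8 := by decide +kernel
      omega) a ha
  have g0 : Good (sig red pt) cl 0 := fun j hj => absurd hj (Nat.not_lt_zero _)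
  have g1 : Good (sig red pt) cl 1 := by
    have h := chkG_sound (sig red pt) cl 6 _ (fun n hn => ap_sound red 5 hv td1 pt hpt htd1 n hn) apl 0 g0 hA
    have e : apl.length = 1 := by decide +kernel
    rw [e] at h; exact h
  have g2 : Good (sig red pt) cl 2 := by
    have h := chkG_sound (sig red pt) cl 3 _ (fun n hn => l3_sound red td13 td12 td19 pt 13 12 19 hpt htd13 htd12 htd19 (P57.forb red hv) n hn) s0 1 g1 hs0
    have e : s0.length = 1 := by decide +kernel
    rw [e] at h; exact h
  have g3 : Good (sig red pt) cl 3 := by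
    have h := chkG_sound (sig red pt) cl 3 _ (fun n hn => l3_sound red td19 td12 td19 pt 19 12 19 hpt htd19 htd12 htd19 (P59.forb red hv) n hn) s1 2 g2 hs1
    have e : s1.length = 1 := by decide +kernel
    rw [e] at h; exact h
  have g4 : Good (sig red pt) cl 4 := by
    have h := chkG_sound (sig red pt) cl 3 _ (fun n hn => l3_sound red td4 td19 td21 pt 4 19 21 hpt htd4 htd19 htd21 (P75.forb red hv) n hn) s2 3 g3 hs2
    have e : s2.length = 1 := by decide +kernel
    rw [e] at h; exact h
  have g5 : Good (sig red pt) cl 5 := by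
    have h := chkG_sound (sig red pt) cl 3 _ (fun n hn => l3_sound red td3 td19 td28 pt 3 19 28 hpt htd3 htd19 htd28 (P81.forb red hv) n hn) s3 4 g4 hs3
    have e : s3.length = 1 := by decide +kernel
    rw [e] at h; exact h
  have g6 : Good (sig red pt) cl 6 := by
    have h := chkG_sound (sig red pt) cl 2 _ (fun n hn => l2_sound red td4 pt 4 hpt htd4 (P86.forb red hv) n hn) s4 5 g5 hs4
    have e : s4.length = 1 := by decide +kernel
    rw [e] at h; exact h
  have g7 : Good (sig red pt) cl 7 := by
    have h := chkG_sound (sig red pt) cl 2 _ (fun n hn => l2_sound red td16 pt 16 hpt htd16 (P87.forb red hv) n hn) s5 6 g6 hs5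
    have e : s5.length = 1 := by decide +kernel
    rw [e] at h; exact h
  have g8 : Good (sig red pt) cl 8 := by
    have h := chk_sound (sig red pt) cl nb 8 hnb c0 6 g7 t0
    have e : c0.length = 1 := by decide +kernel
    rw [e] at h; exact h
  exact final2 (g8 7 (by norm_num)) (by decide +kernel)

theorem forb : ∀ red : ℂ → Prop, Valid 6 red → Forb2 red 19 :=
  forb2_of 6 td19 pt 19 (by norm_num) hpt htd19 (by decide +kernel) fin

end

end APL.P88

namespace APL.P89

noncomputable section

theorem fin (red : ℂ → Prop) (hv : Valid 6 red) : ¬ (sig red pt 0 ∧ sig red pt 1) := by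
  have hnb : NbOK (sig red pt) nb 8 := by
    intro y hy a ha
    exact chkN_sound red 6 hv nb td1 pt hpt htd1 nbl 0 hN y (Nat.zero_le _) (by
      have : nbl.length = 8 := by decide +kernel
      omega) a ha
  have g0 : Good (sig red pt) cl 0 := fun j hj => absurd hj (Nat.not_lt_zero _)
  have g1 : Good (sig red pt) cl 1 := by
    have h := chkG_sound (sig red pt) cl 6 _ (fun n hn => ap_sound red 5 hv td1 pt hpt htd1 n hn) apl 0 g0 hA
    have e : apl.length = 1 := by decide +kernel
    rw [e] at h; exact h
  have g2 : Good (sig red pt) cl 2 := by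
    have h := chkG_sound (sig red pt) cl 3 _ (fun n hn => l3_sound red td21 td12 td27 pt 21 12 27 hpt htd21 htd12 htd27 (P11.forb red hv) n hn) s0 1 g1 hs0
    have e : s0.length = 1 := by decide +kernel
    rw [e] at h; exact h
  have g3 : Good (sig red pt) cl 3 := by
    have h := chkG_sound (sig red pt) cl 3 _ (fun n hn => l3_sound red td9 td3 td21 pt 9 3 21 hpt htd9 htd3 htd21 (P53.forb red hv) n hn) s1 2 g2 hs1
    have e : s1.length = 1 := by decide +kernel
    rw [e] at h; exact h
  have g4 : Good (sig red pt) cl 4 := by
    have h := chkG_sound (sig red pt) cl 3 _ (fun n hn => l3_sound red td21 td7 td19 pt 21 7 19 hpt htd21 htd7 htd19 (P58.forb red hv) n hn) s2 3 g3 hs2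
    have e : s2.length = 1 := by decide +kernel
    rw [e] at h; exact h
  have g5 : Good (sig red pt) cl 5 := by
    have h := chkG_sound (sig red pt) cl 3 _ (fun n hn => l3_sound red td4 td7 td21 pt 4 7 21 hpt htd4 htd7 htd21 (P80.forb red hv) n hn) s3 4 g4 hs3
    have e : s3.length = 1 := by decide +kernel
    rw [e] at h; exact h
  have g6 : Good (sig red pt) cl 6 := by
    have h := chkG_sound (sig red pt) cl 3 _ (fun n hn => l3_sound red td4 td13 td21 pt 4 13 21 hpt htd4 htd13 htd21 (P83.forb red hv) n hn) s4 5 g5 hs4
    have e : s4.length = 1 := by decide +kernel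
    rw [e] at h; exact h
  have g7 : Good (sig red pt) cl 7 := by
    have h := chkG_sound (sig red pt) cl 2 _ (fun n hn => l2_sound red td19 pt 19 hpt htd19 (P88.forb red hv) n hn) s5 6 g6 hs5
    have e : s5.length = 1 := by decide +kernel
    rw [e] at h; exact h
  have g8 : Good (sig red pt) cl 8 := by
    have h := chk_sound (sig red pt) cl nb 8 hnb c0 6 g7 t0
    have e : c0.length = 1 := by decide +kernel
    rw [e] at h; exact h
  exact final2 (g8 7 (by norm_num)) (by decide +kernel)

theorem forb : ∀ red : ℂ → Prop, Valid 6 red → Forb2 red 21 :=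
  forb2_of 6 td21 pt 21 (by norm_num) hpt htd21 (by decide +kernel) fin

end

end APL.P89

namespace APL.P91

noncomputable section

theorem fin (red : ℂ → Prop) (hv : Valid 6 red) : ¬ (sig red pt 0 ∧ sig red pt 1) := by
  have hnb : NbOK (sig red pt) nb 8 := by
    intro y hy a ha
    exact chkN_sound red 6 hv nb td1 pt hpt htd1 nbl 0 hN y (Nat.zero_le _) (by
      have : nbl.length = 8 := by decide +kernel
      omega) a ha
  have g0 : Good (sig red pt) cl 0 := fun j hj => absurd hj (Nat.not_lt_zero _)
  have g1 : Good (sig red pt) cl 1 := by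
    have h := chkG_sound (sig red pt) cl 6 _ (fun n hn => ap_sound red 5 hv td1 pt hpt htd1 n hn) apl 0 g0 hA
    have e : apl.length = 1 := by decide +kernel
    rw [e] at h; exact h
  have g2 : Good (sig red pt) cl 3 := by
    have h := chkG_sound (sig red pt) cl 2 _ (fun n hn => l2_sound red td19 pt 19 hpt htd19 (P88.forb red hv) n hn) s0 1 g1 hs0
    have e : s0.length = 2 := by decide +kernel
    rw [e] at h; exact h
  have g3 : Good (sig red pt) cl 5 := by
    have h := chkG_sound (sig red pt) cl 2 _ (fun n hn => l2_sound red td21 pt 21 hpt htd21 (P89.forb red hv) n hn) s1 3 g2 hs1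
    have e : s1.length = 2 := by decide +kernel
    rw [e] at h; exact h
  have g4 : Good (sig red pt) cl 6 := by
    have h := chk_sound (sig red pt) cl nb 8 hnb c0 4 g3 t0
    have e : c0.length = 1 := by decide +kernel
    rw [e] at h; exact h
  exact final2 (g4 5 (by norm_num)) (by decide +kernel)

theorem forb : ∀ red : ℂ → Prop, Valid 6 red → Forb2 red 36 :=
  forb2_of 6 td36 pt 36 (by norm_num) hpt htd36 (by decide +kernel) fin

end

end APL.P91

namespace APL

theorem no_valid (red : ℂ → Prop) (hv : Valid 6 red) : False :=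
  no_red hv (P86.forb red hv) (P55.forb red hv) (P87.forb red hv) (P91.forb red hv)

end APL
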