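import Mathlib

/-!
Kernel-friendly resolution checker. Clauses are bit masks: bit `2 v` is the literal `v`,
bit `2 v + 1` the literal `not v`.
-/

namespace APL

/-- static binary tree used as an array -/
inductive RA where
  | leaf (v : Nat) : RA
  | node (p : Nat) (l r : RA) : RA

noncomputable def RA.get (t : RA) (n : Nat) : Nat :=
  RA.rec (motive := fun _ => Nat) (fun x => x)
    (fun p _ _ l r => Bool.rec (motive := fun _ => Nat) l r (Nat.ble p n)) t

/-- mask of a list of `m` bit positions of 13 bits each -/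
noncomputable def dec (m : Nat) : Nat → Nat → Nat :=
  Nat.rec (motive := fun _ => Nat → Nat → Nat) (fun _ c => c)
    (fun _ ih N c => ih (Nat.shiftRight N (nat_lit 13))
      (Nat.lor c (Nat.shiftLeft (nat_lit 1) (Nat.land N (nat_lit 8191))))) m

/-- resolution step: `a` is the pivot literal of `c`, `d` the other clause -/
noncomputable def stepR (c d a : Nat) : Nat :=
  Nat.lor (Nat.xor c (Nat.shiftLeft (nat_lit 1) a))
    (Nat.xor d (Nat.shiftLeft (nat_lit 1) (Nat.xor a (nat_lit 1))))

/-- neighbour step: literals of `c` in `E` are replaced by `not y` -/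
noncomputable def stepN (c E y : Nat) : Nat :=
  Nat.lor (Nat.xor c (Nat.land c E))
    (Nat.shiftLeft (nat_lit 1) (Nat.add (Nat.add y y) (nat_lit 1)))

/-- neighbour mask of `y` with range check -/
noncomputable def nbE (nb : RA) (nv y : Nat) : Nat :=
  Bool.rec (motive := fun _ => Nat) (nat_lit 0) (RA.get nb y) (Nat.ble (Nat.succ y) nv)

/-- one step with code `s`: bit 0 is the type, then 13 bits (literal or variable),
then the offset of the second clause -/
noncomputable def step (cl nb : RA) (nv i c s : Nat) : Nat :=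
  Bool.rec (motive := fun _ => Nat)
    (stepR c (RA.get cl (Nat.sub i (Nat.shiftRight s (nat_lit 14))))
      (Nat.land (Nat.shiftRight s (nat_lit 1)) (nat_lit 8191)))
    (stepN c (nbE nb nv (Nat.shiftRight s (nat_lit 1))) (Nat.shiftRight s (nat_lit 1)))
    (Nat.beq (Nat.land s (nat_lit 1)) (nat_lit 0))

noncomputable def run (cl nb : RA) (nv i m : Nat) : Nat → Nat → Nat :=
  Nat.rec (motive := fun _ => Nat → Nat → Nat) (fun _ c => c)
    (fun _ ih N c => ih (Nat.shiftRight N (nat_lit 29))
      (step cl nb nv i c (Nat.land N (nat_lit 536870911)))) m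

/-- entry: low 10 bits number of steps, then 15 bits start offset, then steps.
`i` is the index of the derived clause minus one. -/
noncomputable def chk1 (cl nb : RA) (nv i n : Nat) : Bool :=
  Nat.beq (RA.get cl (Nat.succ i))
    (run cl nb nv i (Nat.land n (nat_lit 1023)) (Nat.shiftRight n (nat_lit 25))
      (RA.get cl (Nat.sub i (Nat.land (Nat.shiftRight n (nat_lit 10)) (nat_lit 32767)))))

noncomputable def chk (cl nb : RA) (nv : Nat) (l : List Nat) : Nat → Bool :=
  List.rec (motive := fun _ => Nat → Bool) (fun _ => true)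
    (fun n _ ih i => Bool.rec (motive := fun _ => Bool) false (ih (Nat.succ i))
      (chk1 cl nb nv i n)) l

/-- truth of a literal -/
def LT (σ : Nat → Prop) (a : Nat) : Prop := if a % 2 = 0 then σ (a / 2) else ¬ σ (a / 2)

/-- truth of a clause -/
def Holds (σ : Nat → Prop) (C : Nat) : Prop := ∃ a, C.testBit a = true ∧ LT σ a

theorem LT_xor_one (σ : Nat → Prop) (a : Nat) : LT σ (a ^^^ 1) ↔ ¬ LT σ a := by
  unfold LT
  rcases Nat.even_or_odd' a with ⟨k, rfl | rfl⟩
  · have h1 : (2 * k) ^^^ 1 = 2 * k + 1 := by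
      rw [Nat.xor_one_of_even (even_two_mul k)]
    rw [h1]
    have h2 : (2 * k + 1) % 2 = 1 := by omega
    have h3 : (2 * k + 1) / 2 = k := by omega
    have h4 : (2 * k) % 2 = 0 := by omega
    have h5 : (2 * k) / 2 = k := by omega
    simp [h2, h3, h4, h5]
  · have h1 : (2 * k + 1) ^^^ 1 = 2 * k := by
      rw [Nat.xor_one_of_odd (odd_two_mul_add_one k)]; omega
    rw [h1]
    have h2 : (2 * k + 1) % 2 = 1 := by omega
    have h3 : (2 * k + 1) / 2 = k := by omega
    have h4 : (2 * k) % 2 = 0 := by omega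
    have h5 : (2 * k) / 2 = k := by omega
    simp [h2, h3, h4, h5]

theorem stepR_eq (c d a : Nat) : stepR c d a = (c ^^^ (1 <<< a)) ||| (d ^^^ (1 <<< (a ^^^ 1))) := rfl

theorem testBit_one_shiftLeft (a b : Nat) : (1 <<< a).testBit b = decide (a = b) := by
  rw [Nat.one_shiftLeft, Nat.testBit_two_pow]

theorem stepR_sound (σ : Nat → Prop) (c d a : Nat) (hc : Holds σ c) (hd : Holds σ d) :
    Holds σ (stepR c d a) := by
  rw [stepR_eq]
  by_cases h : LT σ a
  · obtain ⟨b, hb, hl⟩ := hd
    have hne : (a ^^^ 1) ≠ b := by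
      rintro rfl
      exact (LT_xor_one σ a).1 hl h
    refine ⟨b, ?_, hl⟩
    rw [Nat.testBit_lor, Nat.testBit_xor, Nat.testBit_xor, testBit_one_shiftLeft,
      testBit_one_shiftLeft, hb]
    simp [hne]
  · obtain ⟨b, hb, hl⟩ := hc
    have hne : a ≠ b := by
      rintro rfl
      exact h hl
    refine ⟨b, ?_, hl⟩
    rw [Nat.testBit_lor, Nat.testBit_xor, Nat.testBit_xor, testBit_one_shiftLeft,
      testBit_one_shiftLeft, hb]
    simp [hne]

theorem stepN_eq (c E y : Nat) : stepN c E y = (c ^^^ (c &&& E)) ||| (1 <<< (y + y + 1)) := rfl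

theorem stepN_sound (σ : Nat → Prop) (c E y : Nat) (hc : Holds σ c)
    (hE : ∀ a, E.testBit a = true → ¬ (LT σ a ∧ σ y)) : Holds σ (stepN c E y) := by
  rw [stepN_eq]
  by_cases h : σ y
  · obtain ⟨b, hb, hl⟩ := hc
    refine ⟨b, ?_, hl⟩
    have hEb : E.testBit b = false := by
      by_contra hcon
      exact hE b (by simpa using hcon) ⟨hl, h⟩
    rw [Nat.testBit_lor, Nat.testBit_xor, Nat.testBit_land, hb, hEb]
    simp
  · refine ⟨y + y + 1, ?_, ?_⟩
    · rw [Nat.testBit_lor, testBit_one_shiftLeft]
      simp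
    · unfold LT
      have h2 : (y + y + 1) % 2 = 1 := by omega
      have h3 : (y + y + 1) / 2 = y := by omega
      rw [h2, h3]
      simp [h]

/-- all neighbour masks are sound -/
def NbOK (σ : Nat → Prop) (nb : RA) (nv : Nat) : Prop :=
  ∀ y, y < nv → ∀ a, (RA.get nb y).testBit a = true → ¬ (LT σ a ∧ σ y)

theorem nbE_sound (σ : Nat → Prop) (nb : RA) (nv y : Nat) (h : NbOK σ nb nv) (a : Nat)
    (ha : (nbE nb nv y).testBit a = true) : ¬ (LT σ a ∧ σ y) := by
  unfold nbE at ha
  by_cases hy : y < nv
  · have : Nat.ble (Nat.succ y) nv = true := Nat.ble_eq_true_of_le hy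
    rw [this] at ha
    exact h y hy a ha
  · have : Nat.ble (Nat.succ y) nv = false := by
      by_contra hcon
      exact hy (Nat.le_of_ble_eq_true (by simpa using hcon))
    rw [this] at ha
    simp at ha

theorem step_sound (σ : Nat → Prop) (cl nb : RA) (nv i c s : Nat) (hnb : NbOK σ nb nv)
    (hcl : ∀ j, j ≤ i → Holds σ (RA.get cl j)) (hc : Holds σ c) :
    Holds σ (step cl nb nv i c s) := by
  unfold step
  cases h : Nat.beq (Nat.land s (nat_lit 1)) (nat_lit 0)
  · exact stepR_sound σ _ _ _ hc (hcl _ (Nat.sub_le _ _))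
  · exact stepN_sound σ _ _ _ hc (fun a ha => nbE_sound σ nb nv _ hnb a ha)

theorem run_sound (σ : Nat → Prop) (cl nb : RA) (nv i : Nat) (hnb : NbOK σ nb nv)
    (hcl : ∀ j, j ≤ i → Holds σ (RA.get cl j)) (m : Nat) : ∀ N c, Holds σ c →
    Holds σ (run cl nb nv i m N c) := by
  induction m with
  | zero => intro N c hc; exact hc
  | succ m ih =>
    intro N c hc
    exact ih _ _ (step_sound σ cl nb nv i c _ hnb hcl hc)

theorem chk1_sound (σ : Nat → Prop) (cl nb : RA) (nv i n : Nat) (hnb : NbOK σ nb nv)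
    (hcl : ∀ j, j ≤ i → Holds σ (RA.get cl j)) (h : chk1 cl nb nv i n = true) :
    Holds σ (RA.get cl (i + 1)) := by
  unfold chk1 at h
  have h' := Nat.eq_of_beq_eq_true h
  change RA.get cl (i + 1) = _ at h'
  rw [h']
  exact run_sound σ cl nb nv i hnb hcl _ _ _ (hcl _ (Nat.sub_le _ _))

/-- first `n` clauses hold -/
def Good (σ : Nat → Prop) (cl : RA) (n : Nat) : Prop := ∀ j, j < n → Holds σ (RA.get cl j)

theorem chk_sound (σ : Nat → Prop) (cl nb : RA) (nv : Nat) (hnb : NbOK σ nb nv) (l : List Nat) :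
    ∀ i, Good σ cl (i + 1) → chk cl nb nv l i = true → Good σ cl (i + 1 + l.length) := by
  induction l with
  | nil => intro i h _; simpa using h
  | cons n l ih =>
    intro i h hc
    change Bool.rec (motive := fun _ => Bool) false (chk cl nb nv l (Nat.succ i))
      (chk1 cl nb nv i n) = true at hc
    cases h1 : chk1 cl nb nv i n
    · rw [h1] at hc
      exact absurd hc (by simp)
    · rw [h1] at hc
      have hnew : Good σ cl (i + 1 + 1) := by
        intro j hj
        rcases Nat.lt_succ_iff_lt_or_eq.1 hj with hj' | rfl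
        · exact h j hj'
        · exact chk1_sound σ cl nb nv i n hnb (fun j hj => h j (Nat.lt_succ_of_le hj)) h1
      have := ih (i + 1) hnew hc
      intro j hj
      apply this j
      simp only [List.length_cons] at hj
      omega

theorem testBit_dec (m : Nat) : ∀ N c a, (dec m N c).testBit a = true →
    c.testBit a = true ∨ ∃ t, t < m ∧ a = (N >>> (13 * t)) &&& 8191 := by
  induction m with
  | zero => intro N c a h; exact Or.inl h
  | succ m ih =>
    intro N c a h
    rcases ih _ _ a h with h1 | ⟨t, ht, h2⟩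
    · change (c ||| (1 <<< (N &&& 8191))).testBit a = true at h1
      rw [Nat.testBit_lor, testBit_one_shiftLeft] at h1
      rcases (Bool.or_eq_true _ _).mp h1 with h3 | h3
      · exact Or.inl h3
      · refine Or.inr ⟨0, Nat.succ_pos _, ?_⟩
        simpa using (of_decide_eq_true h3).symm
    · refine Or.inr ⟨t + 1, by omega, ?_⟩
      rw [h2]
      change (N >>> 13) >>> (13 * t) &&& 8191 = _
      rw [← Nat.shiftRight_add]
      congr 2
      ring

end APL
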