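import Mathlib

/-!
Valid red sets in the complex plane, invariance under isometries, congruent triangles.
-/

namespace APL

open Complex

/-- `red` has no two points at distance one and meets every `k`-term unit-step progression -/
structure Valid (k : ℕ) (red : ℂ → Prop) : Prop where
  unit : ∀ p q : ℂ, ‖p - q‖ = 1 → ¬ (red p ∧ red q)
  ap : ∀ x v : ℂ, ‖v‖ = 1 → ∃ i : ℕ, i < k ∧ red (x + i * v)

/-- plane isometries in complex form -/
def IsIso (T : ℂ → ℂ) : Prop :=
  ∃ ρ c : ℂ, ‖ρ‖ = 1 ∧ ((∀ z, T z = ρ * z + c) ∨ (∀ z, T z = ρ * (starRingEnd ℂ) z + c))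

theorem IsIso.dist {T : ℂ → ℂ} (h : IsIso T) (p q : ℂ) : ‖T p - T q‖ = ‖p - q‖ := by
  obtain ⟨ρ, c, hρ, h | h⟩ := h
  · rw [h, h]
    have : ρ * p + c - (ρ * q + c) = ρ * (p - q) := by ring
    rw [this, norm_mul, hρ, one_mul]
  · rw [h, h]
    have : ρ * (starRingEnd ℂ) p + c - (ρ * (starRingEnd ℂ) q + c)
        = ρ * (starRingEnd ℂ) (p - q) := by rw [map_sub]; ring
    rw [this, norm_mul, hρ, one_mul, RCLike.norm_conj]

theorem Valid.comp {k : ℕ} {red : ℂ → Prop} (hr : Valid k red) {T : ℂ → ℂ} (h : IsIso T) :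
    Valid k (fun z => red (T z)) := by
  refine ⟨?_, ?_⟩
  · intro p q hpq
    exact hr.unit (T p) (T q) (by rw [h.dist, hpq])
  · intro x v hv
    obtain ⟨ρ, c, hρ, h | h⟩ := h
    · obtain ⟨i, hi, hred⟩ := hr.ap (T x) (ρ * v) (by rw [norm_mul, hρ, hv, one_mul])
      refine ⟨i, hi, ?_⟩
      have : T (x + i * v) = T x + i * (ρ * v) := by rw [h, h]; ring
      rw [this]; exact hred
    · obtain ⟨i, hi, hred⟩ := hr.ap (T x) (ρ * (starRingEnd ℂ) v)
        (by rw [norm_mul, hρ, RCLike.norm_conj, hv, one_mul])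
      refine ⟨i, hi, ?_⟩
      have : T (x + i * v) = T x + i * (ρ * (starRingEnd ℂ) v) := by
        rw [h, h, map_add, map_mul, Complex.conj_natCast]; ring
      rw [this]; exact hred

theorem exists_iso2 {x y p q : ℂ} (hxy : x ≠ y) (h1 : ‖x - y‖ = ‖p - q‖) :
    ∃ T, IsIso T ∧ T x = p ∧ T y = q := by
  have hv : y - x ≠ 0 := sub_ne_zero.2 (Ne.symm hxy)
  refine ⟨fun s => ((q - p) / (y - x)) * s + (p - (q - p) / (y - x) * x), ?_, ?_, ?_⟩
  · refine ⟨(q - p) / (y - x), _, ?_, Or.inl fun z => rfl⟩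
    rw [norm_div, norm_sub_rev q p, norm_sub_rev y x, ← h1, div_self]
    exact norm_ne_zero_iff.2 (sub_ne_zero.2 hxy)
  · ring
  · have : (q - p) / (y - x) * y + (p - (q - p) / (y - x) * x)
        = (q - p) / (y - x) * (y - x) + p := by ring
    change (q - p) / (y - x) * y + (p - (q - p) / (y - x) * x) = q
    rw [this, div_mul_cancel₀ _ hv]; ring

theorem exists_iso3 {x y z p q r : ℂ} (hxy : x ≠ y) (h1 : ‖x - y‖ = ‖p - q‖)
    (h2 : ‖x - z‖ = ‖p - r‖) (h3 : ‖y - z‖ = ‖q - r‖) :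
    ∃ T, IsIso T ∧ T x = p ∧ T y = q ∧ T z = r := by
  obtain ⟨T, hT, hTx, hTy⟩ := exists_iso2 hxy h1
  -- pull back r
  obtain ⟨ρ, c, hρ, hcase⟩ := hT
  have hρ0 : ρ ≠ 0 := by
    intro h; rw [h, norm_zero] at hρ; exact zero_ne_one hρ
  have hv : y - x ≠ 0 := sub_ne_zero.2 (Ne.symm hxy)
  have hvc : (starRingEnd ℂ) (y - x) ≠ 0 := by
    intro h; exact hv ((map_eq_zero _).1 h)
  -- general fact
  have key : ∀ w u v : ℂ, v ≠ 0 → ‖w‖ = ‖u‖ → ‖w - v‖ = ‖u - v‖ →
      w = u ∨ w = v / (starRingEnd ℂ) v * (starRingEnd ℂ) u := by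
    intro w u v hv0 ha hb
    have hvc0 : (starRingEnd ℂ) v ≠ 0 := by
      intro h; exact hv0 ((map_eq_zero _).1 h)
    have ha' : normSq w = normSq u := by rw [normSq_eq_norm_sq, normSq_eq_norm_sq, ha]
    have hb' : normSq (w - v) = normSq (u - v) := by
      rw [normSq_eq_norm_sq, normSq_eq_norm_sq, hb]
    have hre : (w * (starRingEnd ℂ) v).re = (u * (starRingEnd ℂ) v).re := by
      rw [normSq_sub, normSq_sub, ha'] at hb'
      linarith
    have hns : normSq (w * (starRingEnd ℂ) v) = normSq (u * (starRingEnd ℂ) v) := by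
      rw [map_mul, map_mul, ha']
    have him : (w * (starRingEnd ℂ) v).im ^ 2 = (u * (starRingEnd ℂ) v).im ^ 2 := by
      rw [normSq_apply, normSq_apply, hre] at hns
      nlinarith
    rcases sq_eq_sq_iff_eq_or_eq_neg.1 him with h | h
    · left
      have : w * (starRingEnd ℂ) v = u * (starRingEnd ℂ) v := Complex.ext hre h
      exact mul_right_cancel₀ hvc0 this
    · right
      have : w * (starRingEnd ℂ) v = (starRingEnd ℂ) (u * (starRingEnd ℂ) v) := by
        apply Complex.ext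
        · rw [hre, conj_re]
        · rw [h, conj_im]
      rw [map_mul, conj_conj] at this
      field_simp
      rw [this]; ring
  set ρ' : ℂ := (q - p) / (y - x) with hρ'
  have hρn : ‖ρ'‖ = 1 := by
    rw [hρ', norm_div, norm_sub_rev q p, norm_sub_rev y x, ← h1, div_self]
    exact norm_ne_zero_iff.2 (sub_ne_zero.2 hxy)
  have hρ'0 : ρ' ≠ 0 := by
    intro h; rw [h, norm_zero] at hρn; exact zero_ne_one hρn
  have hq : ρ' * (y - x) = q - p := by rw [hρ', div_mul_cancel₀ _ hv]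
  have hw := key ((r - p) / ρ') (z - x) (y - x) hv
    (by rw [norm_div, hρn, div_one, norm_sub_rev r p, norm_sub_rev z x, h2])
    (by
      have e1 : (r - p) / ρ' - (y - x) = (r - q) / ρ' := by
        field_simp
        linear_combination -hq
      have e2 : z - x - (y - x) = z - y := by ring
      rw [e1, e2, norm_div, hρn, div_one, norm_sub_rev r q, norm_sub_rev z y, h3])
  rcases hw with hw | hw
  · refine ⟨fun s => ρ' * s + (p - ρ' * x), ⟨ρ', _, hρn, Or.inl fun z => rfl⟩, by ring, ?_, ?_⟩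
    · change ρ' * y + (p - ρ' * x) = q
      linear_combination hq
    · change ρ' * z + (p - ρ' * x) = r
      have : r - p = ρ' * (z - x) := by rw [← hw]; field_simp
      linear_combination -this
  · have hn2 : ‖ρ' * ((y - x) / (starRingEnd ℂ) (y - x))‖ = 1 := by
      rw [norm_mul, hρn, one_mul, norm_div, RCLike.norm_conj, div_self]
      exact norm_ne_zero_iff.2 hv
    refine ⟨fun s => ρ' * ((y - x) / (starRingEnd ℂ) (y - x)) * (starRingEnd ℂ) s +
      (p - ρ' * ((y - x) / (starRingEnd ℂ) (y - x)) * (starRingEnd ℂ) x),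
      ⟨_, _, hn2, Or.inr fun z => rfl⟩, by ring, ?_, ?_⟩
    · have : ρ' * ((y - x) / (starRingEnd ℂ) (y - x)) * (starRingEnd ℂ) y +
        (p - ρ' * ((y - x) / (starRingEnd ℂ) (y - x)) * (starRingEnd ℂ) x)
        = ρ' * ((y - x) / (starRingEnd ℂ) (y - x) * (starRingEnd ℂ) (y - x)) + p := by
        rw [map_sub]; ring
      change ρ' * ((y - x) / (starRingEnd ℂ) (y - x)) * (starRingEnd ℂ) y +
        (p - ρ' * ((y - x) / (starRingEnd ℂ) (y - x)) * (starRingEnd ℂ) x) = q
      rw [this, div_mul_cancel₀ _ hvc]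
      linear_combination hq
    · have : ρ' * ((y - x) / (starRingEnd ℂ) (y - x)) * (starRingEnd ℂ) z +
        (p - ρ' * ((y - x) / (starRingEnd ℂ) (y - x)) * (starRingEnd ℂ) x)
        = ρ' * ((y - x) / (starRingEnd ℂ) (y - x) * (starRingEnd ℂ) (z - x)) + p := by
        rw [map_sub (starRingEnd ℂ) z x]; ring
      change ρ' * ((y - x) / (starRingEnd ℂ) (y - x)) * (starRingEnd ℂ) z +
        (p - ρ' * ((y - x) / (starRingEnd ℂ) (y - x)) * (starRingEnd ℂ) x) = r
      rw [this, ← hw]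
      field_simp
      ring

end APL
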