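import Pool.Agent.Lib.MP_2b7a4a_coL.Core
import Pool.Agent.Lib.MP_2b7a4a_coL.Geo

/-!
The rank four lattice of the Moser spindle, packed coordinates, and verified checks of the
input clauses.
-/

namespace APL

open Complex

/-- field `t` of a packed lattice point -/
def fd (n t : ℕ) : ℕ := (n / 65536 ^ t) % 65536

/-- coordinate `t` of a packed lattice point -/
def cz (n t : ℕ) : ℤ := (fd n t : ℤ) - 1024

/-- the embedding of the lattice -/
noncomputable def phi (a b c d : ℤ) : ℂ :=
  ⟨(2 * a + b + 2 * c + d) * (Real.sqrt 3 * Real.sqrt 11) / 12 + (d - b) / 4,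
   (2 * a + b - 2 * c - d) * Real.sqrt 3 / 12 + (b + d) * Real.sqrt 11 / 4⟩

noncomputable def phn (n : ℕ) : ℂ := phi (cz n 0) (cz n 1) (cz n 2) (cz n 3)

def Qf (a b c d : ℤ) : ℤ :=
  6 * (a * a + a * b + b * b) + 6 * (c * c + c * d + d * d) + 10 * (a * c + b * d)
    + 5 * (a * d + b * c)

def Df (a b c d : ℤ) : ℤ := b * c - a * d

theorem normSq_phi (a b c d : ℤ) :
    6 * normSq (phi a b c d) = Qf a b c d - Df a b c d * (Real.sqrt 3 * Real.sqrt 11) := by
  have h3 : Real.sqrt 3 * Real.sqrt 3 = 3 := Real.mul_self_sqrt (by norm_num)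
  have h11 : Real.sqrt 11 * Real.sqrt 11 = 11 := Real.mul_self_sqrt (by norm_num)
  rw [normSq_apply]
  unfold phi Qf Df
  push_cast
  set s := Real.sqrt 3
  set t := Real.sqrt 11
  have h33 : (s * t) * (s * t) = 33 := by
    calc (s * t) * (s * t) = (s * s) * (t * t) := by ring
      _ = 33 := by rw [h3, h11]; norm_num
  have hsst : s * (s * t) = 3 * t := by rw [← mul_assoc, h3]
  linear_combination (((2 * (a : ℝ) + b + 2 * c + d) ^ 2) / 24) * h33
    + (((2 * (a : ℝ) + b - 2 * c - d) ^ 2) / 24) * h3 + (6 * ((b : ℝ) + d) ^ 2 / 16) * h11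

theorem phi_add (a b c d a' b' c' d' : ℤ) :
    phi (a + a') (b + b') (c + c') (d + d') = phi a b c d + phi a' b' c' d' := by
  apply Complex.ext
  · rw [add_re]; unfold phi; push_cast; ring
  · rw [add_im]; unfold phi; push_cast; ring

theorem phi_sub (a b c d a' b' c' d' : ℤ) :
    phi (a - a') (b - b') (c - c') (d - d') = phi a b c d - phi a' b' c' d' := by
  rw [eq_sub_iff_add_eq, ← phi_add]
  congr 1 <;> ring

/-- all leaves satisfy `p` -/
noncomputable def RA.all (p : ℕ → Bool) (t : RA) : Bool :=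
  RA.rec (motive := fun _ => Bool) (fun x => p x)
    (fun _ _ _ l r => Bool.rec (motive := fun _ => Bool) false r l) t

theorem RA.all_get {p : ℕ → Bool} {t : RA} (h : RA.all p t = true) (n : ℕ) :
    p (RA.get t n) = true := by
  induction t with
  | leaf v => exact h
  | node q l r ihl ihr =>
    change Bool.rec (motive := fun _ => Bool) false (RA.all p r) (RA.all p l) = true at h
    have hl : RA.all p l = true := by
      cases hh : RA.all p l
      · rw [hh] at h; exact absurd h (by simp)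
      · rfl
    rw [hl] at h
    change p (Bool.rec (motive := fun _ => ℕ) (RA.get l n) (RA.get r n) (Nat.ble q n)) = true
    cases Nat.ble q n
    · exact ihl hl
    · exact ihr h

/-- the packed point has four fields below `2^15` -/
noncomputable def okp (n : ℕ) : Bool :=
  Bool.rec (motive := fun _ => Bool) false (Nat.ble n (nat_lit 18446744073709551615))
    (Nat.beq (Nat.land n (nat_lit 9223512776490647552)) (nat_lit 0))

theorem half_field {m : ℕ} (h : ¬ m / 32768 % 2 = 1) : m % 65536 < 32768 := by omega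

theorem okp_fields {n : ℕ} (h : okp n = true) : fd n 0 < 32768 ∧ fd n 1 < 32768 ∧
    fd n 2 < 32768 ∧ n / 65536 ^ 3 < 32768 := by
  unfold okp at h
  have h1 : Nat.beq (Nat.land n (nat_lit 9223512776490647552)) (nat_lit 0) = true := by
    cases hh : Nat.beq (Nat.land n (nat_lit 9223512776490647552)) (nat_lit 0)
    · rw [hh] at h; exact absurd h (by simp)
    · rfl
  rw [h1] at h
  have h2 : n ≤ 18446744073709551615 := Nat.le_of_ble_eq_true h
  have h3 : n &&& 9223512776490647552 = 0 := Nat.eq_of_beq_eq_true h1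
  have hb : ∀ i, (9223512776490647552 : ℕ).testBit i = true → ¬ (n / 2 ^ i % 2 = 1) := by
    intro i hi hcon
    have : (n &&& 9223512776490647552).testBit i = true := by
      rw [Nat.testBit_land, hi, Bool.and_true, Nat.testBit_eq_decide_div_mod_eq, hcon]
      simp
    rw [h3] at this
    simp at this
  have b0 := hb 15 (by decide)
  have b1 := hb 31 (by decide)
  have b2 := hb 47 (by decide)
  have b3 := hb 63 (by decide)
  have e1 : n / 2 ^ 31 = n / 65536 ^ 1 / 32768 := by rw [Nat.div_div_eq_div_mul]; norm_num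
  have e2 : n / 2 ^ 47 = n / 65536 ^ 2 / 32768 := by rw [Nat.div_div_eq_div_mul]; norm_num
  have e3 : n / 2 ^ 63 = n / 65536 ^ 3 / 32768 := by rw [Nat.div_div_eq_div_mul]; norm_num
  rw [e1] at b1
  rw [e2] at b2
  rw [e3] at b3
  refine ⟨?_, half_field b1, half_field b2, ?_⟩
  · unfold fd
    rw [pow_zero, Nat.div_one]
    exact half_field b0
  · have h4 : n / 65536 ^ 3 < 65536 := by
      rw [Nat.div_lt_iff_lt_mul (by norm_num)]
      calc n ≤ 18446744073709551615 := h2
        _ < 65536 * 65536 ^ 3 := by norm_num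
    have := half_field b3
    rw [Nat.mod_eq_of_lt h4] at this
    exact this

theorem add_dm {x y : ℕ} (h : x % 65536 + y % 65536 < 65536) :
    (x + y) % 65536 = x % 65536 + y % 65536 ∧ (x + y) / 65536 = x / 65536 + y / 65536 := by
  constructor <;> omega

theorem fd_zero (n : ℕ) : fd n 0 = n % 65536 := by unfold fd; rw [pow_zero, Nat.div_one]

theorem fd_succ (n t : ℕ) : fd n (t + 1) = fd (n / 65536) t := by
  unfold fd; rw [pow_succ', Nat.div_div_eq_div_mul]

theorem add_fd {x y : ℕ} : ∀ t, (∀ s, s ≤ t → fd x s + fd y s < 65536) →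
    fd (x + y) t = fd x t + fd y t := by
  intro t
  induction t generalizing x y with
  | zero =>
    intro h
    have := h 0 le_rfl
    rw [fd_zero, fd_zero] at this
    rw [fd_zero, fd_zero, fd_zero, (add_dm this).1]
  | succ t ih =>
    intro h
    have h0 := h 0 (Nat.zero_le _)
    rw [fd_zero, fd_zero] at h0
    rw [fd_succ, fd_succ, fd_succ, (add_dm h0).2]
    apply ih
    intro s hs
    have := h (s + 1) (Nat.succ_le_succ hs)
    rw [fd_succ, fd_succ] at this
    exact this

theorem okp_fd {n : ℕ} (h : okp n = true) : ∀ s, s ≤ 3 → fd n s < 32768 := by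
  obtain ⟨a0, a1, a2, a3⟩ := okp_fields h
  intro s hs
  interval_cases s
  · exact a0
  · exact a1
  · exact a2
  · exact lt_of_le_of_lt (Nat.mod_le _ _) a3

theorem fd_offs : ∀ s, s ≤ 3 → fd 288234774265332736 s = 1024 := by
  intro s hs
  interval_cases s <;> (unfold fd; norm_num)

theorem add_fields {n' n u : ℕ} (h' : okp n' = true) (hn : okp n = true) (hu : okp u = true)
    (h : n' + 288234774265332736 = n + u) (t : ℕ) (ht : t ≤ 3) :
    cz n' t = cz n t + cz u t := by
  have e1 : fd (n' + 288234774265332736) t = fd n' t + fd 288234774265332736 t := by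
    apply add_fd
    intro s hs
    have a1 := okp_fd h' s (hs.trans ht)
    have a2 := fd_offs s (hs.trans ht)
    omega
  have e2 : fd (n + u) t = fd n t + fd u t := by
    apply add_fd
    intro s hs
    have a1 := okp_fd hn s (hs.trans ht)
    have a2 := okp_fd hu s (hs.trans ht)
    omega
  rw [h, e2, fd_offs t ht] at e1
  unfold cz
  omega

/-- `u` is the difference of two points -/
theorem phn_sub {n' n u : ℕ} (h' : okp n' = true) (hn : okp n = true) (hu : okp u = true)
    (h : n' + 288234774265332736 = n + u) : phn n' = phn n + phn u := by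
  unfold phn
  rw [add_fields h' hn hu h 0 (by norm_num), add_fields h' hn hu h 1 (by norm_num),
    add_fields h' hn hu h 2 (by norm_num), add_fields h' hn hu h 3 (by norm_num), phi_add]

/-- Boolean conjunction by recursor -/
noncomputable def band (a b : Bool) : Bool := Bool.rec (motive := fun _ => Bool) false b a

theorem band_eq {a b : Bool} (h : band a b = true) : a = true ∧ b = true := by
  cases a
  · exact absurd h (by simp [band])
  · exact ⟨rfl, h⟩

/-- packed vector of squared length `d` -/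
noncomputable def isNorm (d : ℤ) (n : ℕ) : Bool :=
  band (okp n) (band (decide (Qf (cz n 0) (cz n 1) (cz n 2) (cz n 3) = 6 * d))
    (decide (Df (cz n 0) (cz n 1) (cz n 2) (cz n 3) = 0)))

theorem isNorm_sound {d : ℤ} {n : ℕ} (h : isNorm d n = true) : okp n = true ∧ ‖phn n‖ ^ 2 = d := by
  obtain ⟨h0, h12⟩ := band_eq h
  obtain ⟨h1, h2⟩ := band_eq h12
  rw [decide_eq_true_iff] at h1 h2
  refine ⟨h0, ?_⟩
  have := normSq_phi (cz n 0) (cz n 1) (cz n 2) (cz n 3)
  rw [h1, h2] at this
  have h3 : normSq (phn n) = d := by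
    unfold phn
    push_cast at this
    linarith
  rw [← normSq_eq_norm_sq, h3]

/-- the difference of the points `x` and `y` is a leaf of `td` -/
noncomputable def diffOK (td pt : RA) (x y : ℕ) : Bool :=
  Nat.beq (Nat.add (RA.get pt x) (nat_lit 288234774265332736))
    (Nat.add (RA.get pt y) (RA.get td
      (Nat.sub (Nat.add (RA.get pt x) (nat_lit 288234774265332736)) (RA.get pt y))))

theorem diffOK_sound {td pt : RA} {d : ℤ} (hpt : RA.all okp pt = true)
    (htd : RA.all (isNorm d) td = true) {x y : ℕ} (h : diffOK td pt x y = true) :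
    ‖phn (RA.get pt x) - phn (RA.get pt y)‖ ^ 2 = d := by
  have h1 := Nat.eq_of_beq_eq_true h
  obtain ⟨hu, hd⟩ := isNorm_sound (RA.all_get htd
    (Nat.sub (Nat.add (RA.get pt x) (nat_lit 288234774265332736)) (RA.get pt y)))
  have h2 := phn_sub (RA.all_get hpt x) (RA.all_get hpt y) hu h1
  rw [h2, add_sub_cancel_left]
  exact hd

/-- truth assignment of a red set -/
def sig (red : ℂ → Prop) (pt : RA) (v : ℕ) : Prop := red (phn (RA.get pt v))

/-- 13-bit digit -/
def dg (N t : ℕ) : ℕ := (N >>> (13 * t)) &&& 8191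

theorem dg_succ (N t : ℕ) : dg N (t + 1) = dg (N >>> 13) t := by
  unfold dg
  rw [← Nat.shiftRight_add]
  congr 2
  ring

theorem dg_zero (N : ℕ) : dg N 0 = N &&& 8191 := by
  unfold dg; simp

theorem dg_mod_two (N : ℕ) : dg N 0 % 2 = N &&& 1 := by
  rw [dg_zero, ← Nat.and_one_is_mod, Nat.and_assoc]
  rfl

/-- variable of digit zero -/
noncomputable def dv (N : ℕ) : ℕ := Nat.shiftRight (Nat.land N (nat_lit 8191)) (nat_lit 1)

theorem dv_eq (N : ℕ) : dv N = dg N 0 / 2 := by
  rw [dg_zero]
  change (N &&& 8191) >>> 1 = _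
  rw [Nat.shiftRight_eq_div_pow, pow_one]

noncomputable def ev (N : ℕ) : Bool := Nat.beq (Nat.land N (nat_lit 1)) (nat_lit 0)

noncomputable def od (N : ℕ) : Bool := Nat.beq (Nat.land N (nat_lit 1)) (nat_lit 1)

theorem ev_sound {N : ℕ} (h : ev N = true) : dg N 0 % 2 = 0 := by
  rw [dg_mod_two]; exact Nat.eq_of_beq_eq_true h

theorem od_sound {N : ℕ} (h : od N = true) : dg N 0 % 2 = 1 := by
  rw [dg_mod_two]; exact Nat.eq_of_beq_eq_true h

/-- neighbour list check: every digit of `N` is `2 x` with `x` at distance one from `y` -/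
noncomputable def nbOK (td pt : RA) (y m : ℕ) : ℕ → Bool :=
  Nat.rec (motive := fun _ => ℕ → Bool) (fun _ => true)
    (fun _ ih N => band (ev N) (band (diffOK td pt (dv N) y)
      (ih (Nat.shiftRight N (nat_lit 13))))) m

theorem nbOK_sound {td pt : RA} {y : ℕ} : ∀ {m N : ℕ}, nbOK td pt y m N = true → ∀ t, t < m →
    dg N t % 2 = 0 ∧ diffOK td pt (dg N t / 2) y = true := by
  intro m
  induction m with
  | zero => intro N _ t ht; exact absurd ht (Nat.not_lt_zero _)
  | succ m ih =>
    intro N h t ht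
    obtain ⟨h1, h23⟩ := band_eq (show band (ev N) (band (diffOK td pt (dv N) y)
      (nbOK td pt y m (N >>> 13))) = true from h)
    obtain ⟨h2, h3⟩ := band_eq h23
    cases t with
    | zero =>
      rw [dv_eq] at h2
      exact ⟨ev_sound h1, h2⟩
    | succ t =>
      rw [dg_succ]
      exact ih h3 t (Nat.lt_of_succ_lt_succ ht)

/-- the neighbour table: entry `n` of the list is `count + 64 * N` -/
noncomputable def chkN (nb td pt : RA) (l : List ℕ) : ℕ → Bool :=
  List.rec (motive := fun _ => ℕ → Bool) (fun _ => true)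
    (fun n _ ih y => band (Nat.beq (RA.get nb y)
      (dec (Nat.land n (nat_lit 63)) (Nat.shiftRight n (nat_lit 6)) (nat_lit 0)))
      (band (nbOK td pt y (Nat.land n (nat_lit 63)) (Nat.shiftRight n (nat_lit 6)))
        (ih (Nat.succ y)))) l

theorem sq_one {x : ℝ} (hx : 0 ≤ x) (h : x ^ 2 = ((1 : ℤ) : ℝ)) : x = 1 := by
  push_cast at h
  nlinarith

theorem chkN_sound (red : ℂ → Prop) (k : ℕ) (hv : Valid k red) (nb td pt : RA)
    (hpt : RA.all okp pt = true) (htd : RA.all (isNorm 1) td = true) (l : List ℕ) :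
    ∀ y0, chkN nb td pt l y0 = true → ∀ y, y0 ≤ y → y < y0 + l.length →
      ∀ a, (RA.get nb y).testBit a = true → ¬ (LT (sig red pt) a ∧ sig red pt y) := by
  induction l with
  | nil => intro y0 _ y h1 h2; simp at h2; omega
  | cons n l ih =>
    intro y0 h y h1 h2 a ha
    obtain ⟨k1, k23⟩ := band_eq (show band (Nat.beq (RA.get nb y0)
      (dec (n &&& 63) (n >>> 6) 0)) (band (nbOK td pt y0 (n &&& 63) (n >>> 6))
        (chkN nb td pt l (y0 + 1))) = true from h)
    obtain ⟨k2, k3⟩ := band_eq k23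
    rcases Nat.eq_or_lt_of_le h1 with rfl | hlt
    · rw [Nat.eq_of_beq_eq_true k1] at ha
      rcases testBit_dec _ _ _ _ ha with h0 | ⟨t, ht, hat⟩
      · simp at h0
      · obtain ⟨hev, hd⟩ := nbOK_sound k2 t ht
        have hat' : a = dg (n >>> 6) t := hat
        rw [← hat'] at hev hd
        rintro ⟨hla, hy⟩
        unfold LT at hla
        rw [if_pos hev] at hla
        exact hv.unit _ _ (sq_one (norm_nonneg _) (diffOK_sound hpt htd hd)) ⟨hla, hy⟩
    · exact ih (y0 + 1) k3 y hlt (by simp only [List.length_cons] at h2; omega) a ha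

/-- progression check: consecutive digits differ by the packed vector `u` -/
noncomputable def apGo (pt : RA) (u m : ℕ) : ℕ → Bool :=
  Nat.rec (motive := fun _ => ℕ → Bool) (fun N => ev N)
    (fun _ ih N => band (ev N) (band (Nat.beq
      (Nat.add (RA.get pt (dv (Nat.shiftRight N (nat_lit 13)))) (nat_lit 288234774265332736))
      (Nat.add (RA.get pt (dv N)) u)) (ih (Nat.shiftRight N (nat_lit 13))))) m

theorem apGo_sound {pt : RA} {u : ℕ} (hpt : RA.all okp pt = true) (hu : okp u = true) :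
    ∀ {m N : ℕ}, apGo pt u m N = true → ∀ t, t ≤ m →
    dg N t % 2 = 0 ∧ phn (RA.get pt (dg N t / 2)) = phn (RA.get pt (dg N 0 / 2)) + t * phn u := by
  intro m
  induction m with
  | zero =>
    intro N h t ht
    obtain rfl := Nat.le_zero.1 ht
    exact ⟨ev_sound h, by push_cast; ring⟩
  | succ m ih =>
    intro N h t ht
    obtain ⟨h1, h23⟩ := band_eq (show band (ev N) (band (Nat.beq
      (RA.get pt (dv (N >>> 13)) + 288234774265332736) (RA.get pt (dv N) + u))
      (apGo pt u m (N >>> 13))) = true from h)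
    obtain ⟨h2, h3⟩ := band_eq h23
    cases t with
    | zero => exact ⟨ev_sound h1, by push_cast; ring⟩
    | succ t =>
      rw [dg_succ]
      obtain ⟨e1, e2⟩ := ih h3 t (Nat.le_of_succ_le_succ ht)
      refine ⟨e1, ?_⟩
      have h4 := phn_sub (RA.all_get hpt _) (RA.all_get hpt _) hu (Nat.eq_of_beq_eq_true h2)
      rw [dv_eq, dv_eq] at h4
      rw [e2, h4]
      push_cast
      ring

/-- progression clause with `m + 1` digits; the step is looked up in `td` -/
noncomputable def apOK (td pt : RA) (m N : ℕ) : Bool :=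
  apGo pt (RA.get td (Nat.sub
    (Nat.add (RA.get pt (dv (Nat.shiftRight N (nat_lit 13)))) (nat_lit 288234774265332736))
    (RA.get pt (dv N)))) m N

theorem testBit_dec_of (m : ℕ) : ∀ N c a, (c.testBit a = true ∨ ∃ t, t < m ∧ a = dg N t) →
    (dec m N c).testBit a = true := by
  induction m with
  | zero =>
    intro N c a h
    rcases h with h | ⟨t, ht, _⟩
    · exact h
    · exact absurd ht (Nat.not_lt_zero _)
  | succ m ih =>
    intro N c a h
    apply ih
    rcases h with h | ⟨t, ht, h2⟩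
    · left
      change (c ||| (1 <<< (N &&& 8191))).testBit a = true
      rw [Nat.testBit_lor, h, Bool.true_or]
    · cases t with
      | zero =>
        left
        change (c ||| (1 <<< (N &&& 8191))).testBit a = true
        rw [Nat.testBit_lor, testBit_one_shiftLeft]
        have : N &&& 8191 = a := by rw [h2, dg_zero]
        rw [this]; simp
      | succ t =>
        right
        exact ⟨t, by omega, by rw [h2, dg_succ]; rfl⟩

theorem ap_sound (red : ℂ → Prop) (m : ℕ) (hv : Valid (m + 1) red) (td pt : RA)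
    (hpt : RA.all okp pt = true) (htd : RA.all (isNorm 1) td = true) (N : ℕ)
    (h : apOK td pt m N = true) : Holds (sig red pt) (dec (m + 1) N 0) := by
  obtain ⟨hu, hn⟩ := isNorm_sound (RA.all_get htd (Nat.sub
    (Nat.add (RA.get pt (dv (Nat.shiftRight N (nat_lit 13)))) (nat_lit 288234774265332736))
    (RA.get pt (dv N))))
  obtain ⟨i, hi, hred⟩ := hv.ap (phn (RA.get pt (dg N 0 / 2))) _ (sq_one (norm_nonneg _) hn)
  obtain ⟨hev, hpt'⟩ := apGo_sound hpt hu h i (Nat.le_of_lt_succ hi)
  refine ⟨dg N i, testBit_dec_of _ _ _ _ (Or.inr ⟨i, hi, rfl⟩), ?_⟩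
  unfold LT
  rw [if_pos hev]
  unfold sig
  rw [hpt']
  exact hred

/-- generic list check with consecutive clause indices -/
noncomputable def chkG (cl : RA) (k : ℕ) (f : ℕ → Bool) (l : List ℕ) : ℕ → Bool :=
  List.rec (motive := fun _ => ℕ → Bool) (fun _ => true)
    (fun n _ ih i => band (Nat.beq (RA.get cl i) (dec k n (nat_lit 0)))
      (band (f n) (ih (Nat.succ i)))) l

theorem chkG_sound (σ : ℕ → Prop) (cl : RA) (k : ℕ) (f : ℕ → Bool)
    (hf : ∀ n, f n = true → Holds σ (dec k n 0)) (l : List ℕ) :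
    ∀ i, Good σ cl i → chkG cl k f l i = true → Good σ cl (i + l.length) := by
  induction l with
  | nil => intro i h _; simpa using h
  | cons n l ih =>
    intro i hg h
    obtain ⟨h1, h23⟩ := band_eq (show band (Nat.beq (RA.get cl i) (dec k n 0))
      (band (f n) (chkG cl k f l (i + 1))) = true from h)
    obtain ⟨h2, h3⟩ := band_eq h23
    have hnew : Good σ cl (i + 1) := by
      intro j hj
      rcases Nat.lt_succ_iff_lt_or_eq.1 hj with hj' | rfl
      · exact hg j hj'
      · rw [Nat.eq_of_beq_eq_true h1]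
        exact hf n h2
    have := ih (i + 1) hnew h3
    intro j hj
    apply this j
    simp only [List.length_cons] at hj
    omega

/-- forbidden red pair of squared distance `d` -/
def Forb2 (red : ℂ → Prop) (d : ℤ) : Prop :=
  ∀ p q : ℂ, ‖p - q‖ ^ 2 = d → ¬ (red p ∧ red q)

/-- forbidden red triangle with squared sides `a b c` -/
def Forb3 (red : ℂ → Prop) (a b c : ℤ) : Prop :=
  ∀ p q r : ℂ, ‖p - q‖ ^ 2 = a → ‖p - r‖ ^ 2 = b → ‖q - r‖ ^ 2 = c →
    ¬ (red p ∧ red q ∧ red r)

/-- clause `not x or not y` for a forbidden pair, digits are odd literals -/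
noncomputable def l2OK (td pt : RA) (N : ℕ) : Bool :=
  band (od N) (band (od (Nat.shiftRight N (nat_lit 13)))
    (diffOK td pt (dv N) (dv (Nat.shiftRight N (nat_lit 13)))))

noncomputable def l3OK (ta tb tc pt : RA) (N : ℕ) : Bool :=
  band (od N) (band (od (Nat.shiftRight N (nat_lit 13)))
    (band (od (Nat.shiftRight N (nat_lit 26)))
      (band (diffOK ta pt (dv N) (dv (Nat.shiftRight N (nat_lit 13))))
        (band (diffOK tb pt (dv N) (dv (Nat.shiftRight N (nat_lit 26))))
          (diffOK tc pt (dv (Nat.shiftRight N (nat_lit 13)))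
            (dv (Nat.shiftRight N (nat_lit 26))))))))

theorem LT_odd {σ : ℕ → Prop} {a : ℕ} (h : a % 2 = 1) : LT σ a ↔ ¬ σ (a / 2) := by
  unfold LT
  rw [if_neg (by omega)]

theorem dg_one (N : ℕ) : dg N 1 = dg (N >>> 13) 0 := dg_succ N 0

theorem dg_two (N : ℕ) : dg N 2 = dg (N >>> 26) 0 := by
  rw [dg_succ N 1, dg_succ, ← Nat.shiftRight_add]

theorem l2_sound (red : ℂ → Prop) (td pt : RA) (d : ℤ) (hpt : RA.all okp pt = true)
    (htd : RA.all (isNorm d) td = true) (hf : Forb2 red d) (N : ℕ)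
    (h : l2OK td pt N = true) : Holds (sig red pt) (dec 2 N 0) := by
  obtain ⟨h0, h12⟩ := band_eq h
  obtain ⟨h1, hd⟩ := band_eq h12
  have h0' := od_sound h0
  have h1' := od_sound h1
  change dg (N >>> 13) 0 % 2 = 1 at h1'
  rw [← dg_one] at h1'
  have := hf _ _ (diffOK_sound hpt htd hd)
  rw [dv_eq, dv_eq] at this
  change ¬ (red (phn (RA.get pt (dg N 0 / 2))) ∧ red (phn (RA.get pt (dg (N >>> 13) 0 / 2)))) at this
  rw [← dg_one] at this
  by_cases hx : red (phn (RA.get pt (dg N 0 / 2)))
  · refine ⟨dg N 1, testBit_dec_of _ _ _ _ (Or.inr ⟨1, by norm_num, rfl⟩), ?_⟩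
    rw [LT_odd h1']
    exact fun hy => this ⟨hx, hy⟩
  · refine ⟨dg N 0, testBit_dec_of _ _ _ _ (Or.inr ⟨0, by norm_num, rfl⟩), ?_⟩
    rw [LT_odd h0']
    exact hx

theorem l3_sound (red : ℂ → Prop) (ta tb tc pt : RA) (a b c : ℤ) (hpt : RA.all okp pt = true)
    (hta : RA.all (isNorm a) ta = true) (htb : RA.all (isNorm b) tb = true)
    (htc : RA.all (isNorm c) tc = true) (hf : Forb3 red a b c) (N : ℕ)
    (h : l3OK ta tb tc pt N = true) : Holds (sig red pt) (dec 3 N 0) := by
  obtain ⟨h0, h⟩ := band_eq h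
  obtain ⟨h1, h⟩ := band_eq h
  obtain ⟨h2, h⟩ := band_eq h
  obtain ⟨ha, h⟩ := band_eq h
  obtain ⟨hb, hc⟩ := band_eq h
  have h0' := od_sound h0
  have h1' := od_sound h1
  have h2' := od_sound h2
  change dg (N >>> 13) 0 % 2 = 1 at h1'
  change dg (N >>> 26) 0 % 2 = 1 at h2'
  rw [← dg_one] at h1'
  rw [← dg_two] at h2'
  have := hf _ _ _ (diffOK_sound hpt hta ha) (diffOK_sound hpt htb hb) (diffOK_sound hpt htc hc)
  rw [dv_eq, dv_eq, dv_eq] at this
  change ¬ (red (phn (RA.get pt (dg N 0 / 2))) ∧ red (phn (RA.get pt (dg (N >>> 13) 0 / 2))) ∧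
    red (phn (RA.get pt (dg (N >>> 26) 0 / 2)))) at this
  rw [← dg_one, ← dg_two] at this
  by_cases hx : red (phn (RA.get pt (dg N 0 / 2)))
  · by_cases hy : red (phn (RA.get pt (dg N 1 / 2)))
    · refine ⟨dg N 2, testBit_dec_of _ _ _ _ (Or.inr ⟨2, by norm_num, rfl⟩), ?_⟩
      rw [LT_odd h2']
      exact fun hz => this ⟨hx, hy, hz⟩
    · refine ⟨dg N 1, testBit_dec_of _ _ _ _ (Or.inr ⟨1, by norm_num, rfl⟩), ?_⟩
      rw [LT_odd h1']
      exact hy
  · refine ⟨dg N 0, testBit_dec_of _ _ _ _ (Or.inr ⟨0, by norm_num, rfl⟩), ?_⟩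
    rw [LT_odd h0']
    exact hx

/-- a clause inside `{not 0, not 1}` -/
theorem final2 {σ : ℕ → Prop} {C : ℕ} (h : Holds σ C) (hC : Nat.beq (C ||| 10) 10 = true) :
    ¬ (σ 0 ∧ σ 1) := by
  obtain ⟨a, ha, hl⟩ := h
  have h1 : (C ||| 10).testBit a = true := by rw [Nat.testBit_lor, ha, Bool.true_or]
  rw [Nat.eq_of_beq_eq_true hC] at h1
  have h2 : a < 4 := by
    by_contra hcon
    have : (10 : ℕ) < 2 ^ a := lt_of_lt_of_le (by norm_num)
      (Nat.pow_le_pow_right (by norm_num) (not_lt.1 hcon))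
    rw [Nat.testBit_lt_two_pow this] at h1
    exact absurd h1 (by simp)
  rintro ⟨s0, s1⟩
  interval_cases a
  · exact absurd h1 (by decide)
  · exact hl s0
  · exact absurd h1 (by decide)
  · exact hl s1

/-- a clause inside `{not 0, not 1, not 2}` -/
theorem final3 {σ : ℕ → Prop} {C : ℕ} (h : Holds σ C) (hC : Nat.beq (C ||| 42) 42 = true) :
    ¬ (σ 0 ∧ σ 1 ∧ σ 2) := by
  obtain ⟨a, ha, hl⟩ := h
  have h1 : (C ||| 42).testBit a = true := by rw [Nat.testBit_lor, ha, Bool.true_or]
  rw [Nat.eq_of_beq_eq_true hC] at h1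
  have h2 : a < 6 := by
    by_contra hcon
    have : (42 : ℕ) < 2 ^ a := lt_of_lt_of_le (by norm_num)
      (Nat.pow_le_pow_right (by norm_num) (not_lt.1 hcon))
    rw [Nat.testBit_lt_two_pow this] at h1
    exact absurd h1 (by simp)
  rintro ⟨s0, s1, s2⟩
  interval_cases a
  · exact absurd h1 (by decide)
  · exact hl s0
  · exact absurd h1 (by decide)
  · exact hl s1
  · exact absurd h1 (by decide)
  · exact hl s2

/-- transfer: pairs -/
theorem forb2_of (k : ℕ) (td pt : RA) (d : ℤ) (hd0 : d ≠ 0) (hpt : RA.all okp pt = true)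
    (htd : RA.all (isNorm d) td = true) (hd : diffOK td pt 0 1 = true)
    (H : ∀ red, Valid k red → ¬ (sig red pt 0 ∧ sig red pt 1)) :
    ∀ red, Valid k red → Forb2 red d := by
  intro red hv p q hpq hred
  have h1 := diffOK_sound hpt htd hd
  have hne : phn (RA.get pt 0) ≠ phn (RA.get pt 1) := by
    intro h
    rw [h, sub_self, norm_zero] at h1
    apply hd0
    have : (d : ℝ) = 0 := by rw [← h1]; norm_num
    exact_mod_cast this
  have h2 : ‖phn (RA.get pt 0) - phn (RA.get pt 1)‖ = ‖p - q‖ :=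
    (sq_eq_sq₀ (norm_nonneg _) (norm_nonneg _)).1 (h1.trans hpq.symm)
  obtain ⟨T, hT, h0, h1'⟩ := exists_iso2 hne h2
  refine H (fun z => red (T z)) (hv.comp hT) ⟨?_, ?_⟩
  · change red (T _); rw [h0]; exact hred.1
  · change red (T _); rw [h1']; exact hred.2

/-- transfer: triples -/
theorem forb3_of (k : ℕ) (ta tb tc pt : RA) (a b c : ℤ) (ha0 : a ≠ 0)
    (hpt : RA.all okp pt = true) (hta : RA.all (isNorm a) ta = true)
    (htb : RA.all (isNorm b) tb = true) (htc : RA.all (isNorm c) tc = true)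
    (ha : diffOK ta pt 0 1 = true) (hb : diffOK tb pt 0 2 = true)
    (hc : diffOK tc pt 1 2 = true)
    (H : ∀ red, Valid k red → ¬ (sig red pt 0 ∧ sig red pt 1 ∧ sig red pt 2)) :
    ∀ red, Valid k red → Forb3 red a b c := by
  intro red hv p q r hpq hpr hqr hred
  have h1 := diffOK_sound hpt hta ha
  have hne : phn (RA.get pt 0) ≠ phn (RA.get pt 1) := by
    intro h
    rw [h, sub_self, norm_zero] at h1
    apply ha0
    have : (a : ℝ) = 0 := by rw [← h1]; norm_num
    exact_mod_cast this
  have e1 : ‖phn (RA.get pt 0) - phn (RA.get pt 1)‖ = ‖p - q‖ :=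
    (sq_eq_sq₀ (norm_nonneg _) (norm_nonneg _)).1 (h1.trans hpq.symm)
  have e2 : ‖phn (RA.get pt 0) - phn (RA.get pt 2)‖ = ‖p - r‖ :=
    (sq_eq_sq₀ (norm_nonneg _) (norm_nonneg _)).1 ((diffOK_sound hpt htb hb).trans hpr.symm)
  have e3 : ‖phn (RA.get pt 1) - phn (RA.get pt 2)‖ = ‖q - r‖ :=
    (sq_eq_sq₀ (norm_nonneg _) (norm_nonneg _)).1 ((diffOK_sound hpt htc hc).trans hqr.symm)
  obtain ⟨T, hT, h0, h1', h2'⟩ := exists_iso3 hne e1 e2 e3
  refine H (fun z => red (T z)) (hv.comp hT) ⟨?_, ?_, ?_⟩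
  · change red (T _); rw [h0]; exact hred.1
  · change red (T _); rw [h1']; exact hred.2.1
  · change red (T _); rw [h2']; exact hred.2.2

end APL
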