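import Pool.Agent.Lib.MP_2b7a4a_coL.Lat

/-!
If red pairs at distances `1,2,3,4,6` are impossible and every 6-term unit-step progression meets
the red set, then the red set is invariant under translation by `5 v`, `|v| = 1`: contradiction.
-/

namespace APL

open Complex

theorem step5 {red : ℂ → Prop} (hv : Valid 6 red) (h4 : Forb2 red 4) (h9 : Forb2 red 9)
    (h16 : Forb2 red 16) (h36 : Forb2 red 36) (x v : ℂ) (hn : ‖v‖ = 1) (hx : red x) :
    red (x + 5 * v) := by
  obtain ⟨i, hi, hred⟩ := hv.ap (x + v) v hn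
  have key : ∀ m : ℝ, ‖x + (m : ℂ) * v - x‖ ^ 2 = m ^ 2 := by
    intro m
    have : x + (m : ℂ) * v - x = (m : ℂ) * v := by ring
    rw [this, norm_mul, hn, mul_one, Complex.norm_real, Real.norm_eq_abs, sq_abs]
  have hx2 : ∀ m : ℂ, x + v + m * v = x + (m + 1) * v := by intro m; ring
  rw [hx2] at hred
  interval_cases i
  · exfalso
    apply hv.unit (x + v) x
    · have : x + v - x = v := by ring
      rw [this, hn]
    · refine ⟨?_, hx⟩
      have e : x + ((0 : ℕ) + 1 : ℂ) * v = x + v := by push_cast; ring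
      rw [e] at hred; exact hred
  · exfalso
    apply h4 (x + ((2 : ℝ) : ℂ) * v) x
    · rw [key]; norm_num
    · refine ⟨?_, hx⟩
      have e : x + ((1 : ℕ) + 1 : ℂ) * v = x + ((2 : ℝ) : ℂ) * v := by push_cast; ring
      rw [e] at hred; exact hred
  · exfalso
    apply h9 (x + ((3 : ℝ) : ℂ) * v) x
    · rw [key]; norm_num
    · refine ⟨?_, hx⟩
      have e : x + ((2 : ℕ) + 1 : ℂ) * v = x + ((3 : ℝ) : ℂ) * v := by push_cast; ring
      rw [e] at hred; exact hred
  · exfalso
    apply h16 (x + ((4 : ℝ) : ℂ) * v) x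
    · rw [key]; norm_num
    · refine ⟨?_, hx⟩
      have e : x + ((3 : ℕ) + 1 : ℂ) * v = x + ((4 : ℝ) : ℂ) * v := by push_cast; ring
      rw [e] at hred; exact hred
  · have e : x + ((4 : ℕ) + 1 : ℂ) * v = x + 5 * v := by push_cast; ring
    rw [e] at hred; exact hred
  · exfalso
    apply h36 (x + ((6 : ℝ) : ℂ) * v) x
    · rw [key]; norm_num
    · refine ⟨?_, hx⟩
      have e : x + ((5 : ℕ) + 1 : ℂ) * v = x + ((6 : ℝ) : ℂ) * v := by push_cast; ring
      rw [e] at hred; exact hred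

theorem no_red {red : ℂ → Prop} (hv : Valid 6 red) (h4 : Forb2 red 4) (h9 : Forb2 red 9)
    (h16 : Forb2 red 16) (h36 : Forb2 red 36) : False := by
  obtain ⟨i, _, hred⟩ := hv.ap 0 1 (by simp)
  set x : ℂ := 0 + (i : ℂ) * 1
  have h11 : Real.sqrt 11 * Real.sqrt 11 = 11 := Real.mul_self_sqrt (by norm_num)
  set w : ℂ := ⟨49 / 50, 3 * Real.sqrt 11 / 50⟩ with hw
  have hwn : ‖w‖ = 1 := by
    have : normSq w = 1 := by
      rw [normSq_apply, hw]
      simp only
      nlinarith [h11]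
    rw [normSq_eq_norm_sq] at this
    nlinarith [norm_nonneg w]
  have h1 : red (x + 5 * 1) := step5 hv h4 h9 h16 h36 x 1 (by simp) hred
  have h2 : red (x + 5 * 1 + 5 * (-w)) :=
    step5 hv h4 h9 h16 h36 (x + 5 * 1) (-w) (by rw [norm_neg, hwn]) h1
  apply hv.unit (x + 5 * 1 + 5 * (-w)) x _ ⟨h2, hred⟩
  have e : x + 5 * 1 + 5 * (-w) - x = 5 * (1 - w) := by ring
  rw [e, norm_mul]
  have h3 : ‖(1 : ℂ) - w‖ = 1 / 5 := by
    have : normSq (1 - w) = 1 / 25 := by
      rw [normSq_apply, hw]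
      simp only [sub_re, one_re, sub_im, one_im]
      nlinarith [h11]
    rw [normSq_eq_norm_sq] at this
    have hn := norm_nonneg (1 - w)
    nlinarith
  rw [h3]
  norm_num

end APL
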